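import Pool.Agent.AKXS_0_25_WE.Lib
import Pool.Agent.AKX.Split
import Pool.Agent.AKX.DatOwn

set_option autoImplicit false

namespace Pool.Agent.AKXS_0_25_WE

open Pool.Agent.AKX Pool.Agent.AKU

theorem l0 :
    (chkW D.T offw wn = true) ∧
    (chkWt64 D.T = true) ∧
    (D.rkB = true) ∧
    ((allN D.nt fun p => Nat.ble (Nat.add (D.orb p) 1) D.no) = true) ∧
    (Dt.loB D KK = true) ∧
    (Nat.ble 1 KK = true) ∧
    (chkTy64 Pool.Agent.AKG.TAB tcs = true) ∧
    (D.chkTc tcs = true) ∧
    (D.chkWv64 = true) ∧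
    (D.chkWy = true) ∧
    (D.TAB = Pool.Agent.AKG.TAB) ∧
    ((allN D.nt fun p => D.chkM2 p) = true) ∧
    (D.chkLm 0 = true) ∧
    (D.chkLm 1 = true) ∧
    (D.chkLm 2 = true) ∧
    ((allN D.nt fun p => D.chkEv 0 p) = true) ∧
    ((allN D.nt fun p => D.chkEv 1 p) = true) ∧
    ((allN D.nt fun p => D.chkEv 2 p) = true) ∧
    (D.chkOwn = true) :=
  ⟨by decide +kernel,
   by decide +kernel,
   by decide +kernel,
   by decide +kernel,
   by decide +kernel,
   by decide +kernel,
   by decide +kernel,
   by decide +kernel,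
   by decide +kernel,
   by decide +kernel,
   by decide +kernel,
   by decide +kernel,
   by decide +kernel,
   by decide +kernel,
   by decide +kernel,
   by decide +kernel,
   by decide +kernel,
   by decide +kernel,
   by decide +kernel⟩

end Pool.Agent.AKXS_0_25_WE
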