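import Pool.Agent.AKXS_0_25_WE.Lib
import Pool.Agent.AKX.Split

set_option autoImplicit false

namespace Pool.Agent.AKXS_0_25_WE

open Pool.Agent.AKX Pool.Agent.AKU

theorem q10 :
    (chkQ D.T G offw offa offb wn (nat_lit 11) (rg (nat_lit 27) (nat_lit 31)) = true) ∧
    (chkQ D.T G offw offa offb wn (nat_lit 12) (rg (nat_lit 12) (nat_lit 46)) = true) ∧
    (chkQ D.T G offw offa offb wn (nat_lit 13) (rg (nat_lit 13) (nat_lit 1)) = true) ∧
    (chkQ D.T G offw offa offb wn (nat_lit 13) (rg (nat_lit 14) (nat_lit 5)) = true) ∧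
    (chkQ D.T G offw offa offb wn (nat_lit 13) (rg (nat_lit 19) (nat_lit 19)) = true) ∧
    (chkQ D.T G offw offa offb wn (nat_lit 13) (rg (nat_lit 38) (nat_lit 20)) = true) ∧
    (chkQ D.T G offw offa offb wn (nat_lit 14) (rg (nat_lit 14) (nat_lit 44)) = true) ∧
    (chkQ D.T G offw offa offb wn (nat_lit 15) (rg (nat_lit 15) (nat_lit 2)) = true) :=
  ⟨by decide +kernel,
   by decide +kernel,
   by decide +kernel,
   by decide +kernel,
   by decide +kernel,
   by decide +kernel,
   by decide +kernel,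
   by decide +kernel⟩

end Pool.Agent.AKXS_0_25_WE
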