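import Pool.Agent.AKXS_0_25_WE.OkB
import Pool.Agent.AKXS_0_25_WE.OkG
import Pool.Agent.AKXS_0_25_WE.OkM
import Pool.Agent.AKX.Split
import Pool.Agent.AKX.DatOwn

set_option autoImplicit false

namespace Pool.Agent.AKXS_0_25_WE

open Pool.Agent.AKX Pool.Agent.AKU

theorem bok : Dt.BOk D PL where
  rk := l0.2.2.1
  or := l0.2.2.2.1
  bl := bl

theorem rcok' (p : Nat) (hp : p < D.nt) : chkRec D.T (fun p => Pool.Agent.AKX.lk D.tcP p) offa offb p = true := rcok p hp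

theorem linkT : LinkT D.T tcs := by
  obtain ⟨w, wt, rk, ors, lo, hK, ty, tc, wv, wy, hT, m2, m0, m1, m22, e0, e1, e2, ow⟩ := l0
  exact Dt.linkT_of (offa := offa) (offb := offb) hT rfl (chkTy_of ty) tc (Dt.chkWv_of wv) wy
    (fun p hp => allN_iff.1 m2 p hp) rcok'

theorem linkE : LinkE D.T tcs := by
  obtain ⟨w, wt, rk, ors, lo, hK, ty, tc, wv, wy, hT, m2, m0, m1, m22, e0, e1, e2, ow⟩ := l0
  refine Dt.linkE_of (offa := offa) (offb := offb) hT rfl tc rcok' ?_ ?_ (by decide +kernel)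
  · intro k
    fin_cases k
    · exact m0
    · exact m1
    · exact m22
  · intro k p hp
    fin_cases k
    · exact allN_iff.1 e0 p hp
    · exact allN_iff.1 e1 p hp
    · exact allN_iff.1 e2 p hp

theorem ownK : OwnK D.T := by
  obtain ⟨w, wt, rk, ors, lo, hK, ty, tc, wv, wy, hT, m2, m0, m1, m22, e0, e1, e2, ow⟩ := l0
  exact Dt.ownK_of ow

theorem nb (s0 s1 : ℕ) : NB D.T s0 s1 := by
  obtain ⟨w, wt, rk, ors, lo, hK, ty, tc, wv, wy, hT, m2, m0, m1, m22, e0, e1, e2, ow⟩ := l0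
  exact Dt.nb_of bok bq bz gok mok hK lo s0 s1

end Pool.Agent.AKXS_0_25_WE
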