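import Pool.Agent.AKX.DatI

set_option autoImplicit false

namespace Pool.Agent.AKXS_0_25_WE

open Pool.Agent.AKX Pool.Agent.AKU

noncomputable def Cz : List Nat := []
noncomputable def vzp_0 : Nat := nat_lit 0x0
noncomputable def vzp_1 : Nat := nat_lit 0x0
noncomputable def vzp_2 : Nat := nat_lit 0x0
noncomputable def vzp_3 : Nat := nat_lit 0x0
noncomputable def vzp_4 : Nat := nat_lit 0x0
noncomputable def vzp_5 : Nat := nat_lit 0x0
noncomputable def vzp_6 : Nat := nat_lit 0x0
noncomputable def vzp_7 : Nat := nat_lit 0x0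
noncomputable def vzp_8 : Nat := nat_lit 0x0
noncomputable def vzp_9 : Nat := nat_lit 0x0
noncomputable def vzp_10 : Nat := nat_lit 0x0
noncomputable def vzp_11 : Nat := nat_lit 0x0
noncomputable def vzp_12 : Nat := nat_lit 0x0
noncomputable def vzp_13 : Nat := nat_lit 0x0
noncomputable def vzp_14 : Nat := nat_lit 0x0
noncomputable def vzp_15 : Nat := nat_lit 0x0
noncomputable def vzp_16 : Nat := nat_lit 0x0
noncomputable def vzp_17 : Nat := nat_lit 0x0
noncomputable def vzp_18 : Nat := nat_lit 0x0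
noncomputable def vzp_19 : Nat := nat_lit 0x0
noncomputable def vzp_20 : Nat := nat_lit 0x0
noncomputable def vzp_21 : Nat := nat_lit 0x0
noncomputable def vzp_22 : Nat := nat_lit 0x0
noncomputable def vzp_23 : Nat := nat_lit 0x0
noncomputable def vzp_24 : Nat := nat_lit 0x0
noncomputable def vzp_25 : Nat := nat_lit 0x0
noncomputable def vzp_26 : Nat := nat_lit 0x0
noncomputable def vzp_27 : Nat := nat_lit 0x0
noncomputable def vzp_28 : Nat := nat_lit 0x0
noncomputable def vzp_29 : Nat := nat_lit 0x0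
noncomputable def vzp_30 : Nat := nat_lit 0x0
noncomputable def vzp_31 : Nat := nat_lit 0x0
noncomputable def vzp_32 : Nat := nat_lit 0x0
noncomputable def vzp_33 : Nat := nat_lit 0x0
noncomputable def vzp_34 : Nat := nat_lit 0x0
noncomputable def vzp_35 : Nat := nat_lit 0x0
noncomputable def vzp_36 : Nat := nat_lit 0x0
noncomputable def vzp_37 : Nat := nat_lit 0x0
noncomputable def vzp_38 : Nat := nat_lit 0x0
noncomputable def vzp_39 : Nat := nat_lit 0x0
noncomputable def vzp_40 : Nat := nat_lit 0x0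
noncomputable def vzp_41 : Nat := nat_lit 0x0
noncomputable def vzp_42 : Nat := nat_lit 0x0
noncomputable def vzp_43 : Nat := nat_lit 0x0
noncomputable def vzp_44 : Nat := nat_lit 0x0
noncomputable def vzp_45 : Nat := nat_lit 0x0
noncomputable def vzp_46 : Nat := nat_lit 0x0
noncomputable def vzp_47 : Nat := nat_lit 0x0
noncomputable def vzp_48 : Nat := nat_lit 0x0
noncomputable def vzp_49 : Nat := nat_lit 0x0
noncomputable def vzp_50 : Nat := nat_lit 0x0
noncomputable def vzp_51 : Nat := nat_lit 0x0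
noncomputable def vzp_52 : Nat := nat_lit 0x0
noncomputable def vzp_53 : Nat := nat_lit 0x0
noncomputable def vzp_54 : Nat := nat_lit 0x0
noncomputable def vzp_55 : Nat := nat_lit 0x0
noncomputable def vzp_56 : Nat := nat_lit 0x0
noncomputable def vzp_57 : Nat := nat_lit 0x0
noncomputable def Vzp : List Nat := [vzp_0, vzp_1, vzp_2, vzp_3, vzp_4, vzp_5, vzp_6, vzp_7, vzp_8, vzp_9, vzp_10, vzp_11, vzp_12, vzp_13, vzp_14, vzp_15, vzp_16, vzp_17, vzp_18, vzp_19, vzp_20, vzp_21, vzp_22, vzp_23, vzp_24, vzp_25, vzp_26, vzp_27, vzp_28, vzp_29, vzp_30, vzp_31, vzp_32, vzp_33, vzp_34, vzp_35, vzp_36, vzp_37, vzp_38, vzp_39, vzp_40, vzp_41, vzp_42, vzp_43, vzp_44, vzp_45, vzp_46, vzp_47, vzp_48, vzp_49, vzp_50, vzp_51, vzp_52, vzp_53, vzp_54, vzp_55, vzp_56, vzp_57]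
noncomputable def vzn_0 : Nat := nat_lit 0x0
noncomputable def vzn_1 : Nat := nat_lit 0x0
noncomputable def vzn_2 : Nat := nat_lit 0x0
noncomputable def vzn_3 : Nat := nat_lit 0x0
noncomputable def vzn_4 : Nat := nat_lit 0x0
noncomputable def vzn_5 : Nat := nat_lit 0x0
noncomputable def vzn_6 : Nat := nat_lit 0x0
noncomputable def vzn_7 : Nat := nat_lit 0x0
noncomputable def vzn_8 : Nat := nat_lit 0x0
noncomputable def vzn_9 : Nat := nat_lit 0x0
noncomputable def vzn_10 : Nat := nat_lit 0x0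
noncomputable def vzn_11 : Nat := nat_lit 0x0
noncomputable def vzn_12 : Nat := nat_lit 0x0
noncomputable def vzn_13 : Nat := nat_lit 0x0
noncomputable def vzn_14 : Nat := nat_lit 0x0
noncomputable def vzn_15 : Nat := nat_lit 0x0
noncomputable def vzn_16 : Nat := nat_lit 0x0
noncomputable def vzn_17 : Nat := nat_lit 0x0
noncomputable def vzn_18 : Nat := nat_lit 0x0
noncomputable def vzn_19 : Nat := nat_lit 0x0
noncomputable def vzn_20 : Nat := nat_lit 0x0
noncomputable def vzn_21 : Nat := nat_lit 0x0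
noncomputable def vzn_22 : Nat := nat_lit 0x0
noncomputable def vzn_23 : Nat := nat_lit 0x0
noncomputable def vzn_24 : Nat := nat_lit 0x0
noncomputable def vzn_25 : Nat := nat_lit 0x0
noncomputable def vzn_26 : Nat := nat_lit 0x0
noncomputable def vzn_27 : Nat := nat_lit 0x0
noncomputable def vzn_28 : Nat := nat_lit 0x0
noncomputable def vzn_29 : Nat := nat_lit 0x0
noncomputable def vzn_30 : Nat := nat_lit 0x0
noncomputable def vzn_31 : Nat := nat_lit 0x0
noncomputable def vzn_32 : Nat := nat_lit 0x0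
noncomputable def vzn_33 : Nat := nat_lit 0x0
noncomputable def vzn_34 : Nat := nat_lit 0x0
noncomputable def vzn_35 : Nat := nat_lit 0x0
noncomputable def vzn_36 : Nat := nat_lit 0x0
noncomputable def vzn_37 : Nat := nat_lit 0x0
noncomputable def vzn_38 : Nat := nat_lit 0x0
noncomputable def vzn_39 : Nat := nat_lit 0x0
noncomputable def vzn_40 : Nat := nat_lit 0x0
noncomputable def vzn_41 : Nat := nat_lit 0x0
noncomputable def vzn_42 : Nat := nat_lit 0x0
noncomputable def vzn_43 : Nat := nat_lit 0x0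
noncomputable def vzn_44 : Nat := nat_lit 0x0
noncomputable def vzn_45 : Nat := nat_lit 0x0
noncomputable def vzn_46 : Nat := nat_lit 0x0
noncomputable def vzn_47 : Nat := nat_lit 0x0
noncomputable def vzn_48 : Nat := nat_lit 0x0
noncomputable def vzn_49 : Nat := nat_lit 0x0
noncomputable def vzn_50 : Nat := nat_lit 0x0
noncomputable def vzn_51 : Nat := nat_lit 0x0
noncomputable def vzn_52 : Nat := nat_lit 0x0
noncomputable def vzn_53 : Nat := nat_lit 0x0
noncomputable def vzn_54 : Nat := nat_lit 0x0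
noncomputable def vzn_55 : Nat := nat_lit 0x0
noncomputable def vzn_56 : Nat := nat_lit 0x0
noncomputable def vzn_57 : Nat := nat_lit 0x0
noncomputable def Vzn : List Nat := [vzn_0, vzn_1, vzn_2, vzn_3, vzn_4, vzn_5, vzn_6, vzn_7, vzn_8, vzn_9, vzn_10, vzn_11, vzn_12, vzn_13, vzn_14, vzn_15, vzn_16, vzn_17, vzn_18, vzn_19, vzn_20, vzn_21, vzn_22, vzn_23, vzn_24, vzn_25, vzn_26, vzn_27, vzn_28, vzn_29, vzn_30, vzn_31, vzn_32, vzn_33, vzn_34, vzn_35, vzn_36, vzn_37, vzn_38, vzn_39, vzn_40, vzn_41, vzn_42, vzn_43, vzn_44, vzn_45, vzn_46, vzn_47, vzn_48, vzn_49, vzn_50, vzn_51, vzn_52, vzn_53, vzn_54, vzn_55, vzn_56, vzn_57]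
noncomputable def Pz : Pd where
  m := nat_lit 0
  u := nat_lit 32
  N := nat_lit 1
  s := nat_lit 1
  OV := nat_lit 2147483648
  L := Cz
  vp := Vzp
  vn := Vzn

end Pool.Agent.AKXS_0_25_WE
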