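import Pool.Agent.AKXS_0_25_WE.R0
import Pool.Agent.AKXS_0_25_WE.R1
import Pool.Agent.AKXS_0_25_WE.R2
import Pool.Agent.AKXS_0_25_WE.R3
import Pool.Agent.AKXS_0_25_WE.R4
import Pool.Agent.AKXS_0_25_WE.R5
import Pool.Agent.AKXS_0_25_WE.R6
import Pool.Agent.AKXS_0_25_WE.R7
import Pool.Agent.AKXS_0_25_WE.R8
import Pool.Agent.AKXS_0_25_WE.R9
import Pool.Agent.AKXS_0_25_WE.R10
import Pool.Agent.AKXS_0_25_WE.R11
import Pool.Agent.AKXS_0_25_WE.R12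

set_option autoImplicit false

namespace Pool.Agent.AKXS_0_25_WE

open Pool.Agent.AKX Pool.Agent.AKU

noncomputable def e0_0 : List Rx := [
  Rx.mk (nat_lit 2) (nat_lit 2) (nat_lit 0) (nat_lit 0) (nat_lit 1) (nat_lit 11) (nat_lit 4) r0_11 r0_4 (nat_lit 0) (nat_lit 0) (nat_lit 0) (nat_lit 0x6d8468cbf0) (nat_lit 9072333504),
  Rx.mk (nat_lit 18) (nat_lit 2) (nat_lit 2) (nat_lit 0) (nat_lit 3) (nat_lit 13) (nat_lit 7) r0_13 r0_7 (nat_lit 0) (nat_lit 0) (nat_lit 0) (nat_lit 0x7777281608) (nat_lit 4189210272),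
  Rx.mk (nat_lit 146) (nat_lit 2) (nat_lit 2) (nat_lit 2) (nat_lit 7) (nat_lit 14) (nat_lit 9) r0_14 r0_9 (nat_lit 0) (nat_lit 0) (nat_lit 0) (nat_lit 0x78a05961ca) (nat_lit 3619374408),
  Rx.mk (nat_lit 150) (nat_lit 6) (nat_lit 2) (nat_lit 2) (nat_lit 7) (nat_lit 3) (nat_lit 17) r0_3 r0_17 (nat_lit 0) (nat_lit 0) (nat_lit 0) (nat_lit 0x763e65836a) (nat_lit 4788895176),
  Rx.mk (nat_lit 182) (nat_lit 6) (nat_lit 6) (nat_lit 2) (nat_lit 7) (nat_lit 2) (nat_lit 18) r0_2 r0_18 (nat_lit 0) (nat_lit 0) (nat_lit 0) (nat_lit 0x78399a2e24) (nat_lit 3816380880),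
  Rx.mk (nat_lit 194) (nat_lit 2) (nat_lit 0) (nat_lit 3) (nat_lit 5) (nat_lit 12) (nat_lit 5) r0_12 r0_5 (nat_lit 0) (nat_lit 0) (nat_lit 0) (nat_lit 0x664f05495e) (nat_lit 12610674648),
  Rx.mk (nat_lit 210) (nat_lit 2) (nat_lit 2) (nat_lit 3) (nat_lit 7) (nat_lit 15) (nat_lit 8) r0_15 r0_8 (nat_lit 0) (nat_lit 0) (nat_lit 0) (nat_lit 0x7676fb99d0) (nat_lit 4680396864),
  Rx.mk (nat_lit 216) (nat_lit 0) (nat_lit 3) (nat_lit 3) (nat_lit 6) (nat_lit 10) (nat_lit 0) r0_10 r0_0 (nat_lit 0) (nat_lit 0) (nat_lit 0) (nat_lit 0x5a57b84a26) (nat_lit 18484235640),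
  Rx.mk (nat_lit 218) (nat_lit 2) (nat_lit 3) (nat_lit 3) (nat_lit 7) (nat_lit 16) (nat_lit 6) r0_16 r0_6 (nat_lit 0) (nat_lit 0) (nat_lit 0) (nat_lit 0x7776fb78d2) (nat_lit 4189544424),
  Rx.mk (nat_lit 219) (nat_lit 3) (nat_lit 3) (nat_lit 3) (nat_lit 7) (nat_lit 19) (nat_lit 1) r0_19 r0_1 (nat_lit 0) (nat_lit 0) (nat_lit 0) (nat_lit 0x6c8afca3ac) (nat_lit 9550575216),
  Rx.mk (nat_lit 295) (nat_lit 7) (nat_lit 4) (nat_lit 4) (nat_lit 1) (nat_lit 4) (nat_lit 11) r0_4 r0_11 (nat_lit 0) (nat_lit 0) (nat_lit 0) (nat_lit 0x6d8468cbf0) (nat_lit 9072333504),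
  Rx.mk (nat_lit 319) (nat_lit 7) (nat_lit 7) (nat_lit 4) (nat_lit 3) (nat_lit 7) (nat_lit 13) r0_7 r0_13 (nat_lit 0) (nat_lit 0) (nat_lit 0) (nat_lit 0x7777281608) (nat_lit 4189210272),
  Rx.mk (nat_lit 423) (nat_lit 7) (nat_lit 4) (nat_lit 6) (nat_lit 5) (nat_lit 5) (nat_lit 12) r0_5 r0_12 (nat_lit 0) (nat_lit 0) (nat_lit 0) (nat_lit 0x664f05495e) (nat_lit 12610674648),
  Rx.mk (nat_lit 436) (nat_lit 4) (nat_lit 6) (nat_lit 6) (nat_lit 6) (nat_lit 0) (nat_lit 10) r0_0 r0_10 (nat_lit 0) (nat_lit 0) (nat_lit 0) (nat_lit 0x5a57b84a26) (nat_lit 18484235640),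
  Rx.mk (nat_lit 438) (nat_lit 6) (nat_lit 6) (nat_lit 6) (nat_lit 7) (nat_lit 1) (nat_lit 19) r0_1 r0_19 (nat_lit 0) (nat_lit 0) (nat_lit 0) (nat_lit 0x6c8afca3ac) (nat_lit 9550575216),
  Rx.mk (nat_lit 439) (nat_lit 7) (nat_lit 6) (nat_lit 6) (nat_lit 7) (nat_lit 6) (nat_lit 16) r0_6 r0_16 (nat_lit 0) (nat_lit 0) (nat_lit 0) (nat_lit 0x7776fb78d2) (nat_lit 4189544424),
  Rx.mk (nat_lit 447) (nat_lit 7) (nat_lit 7) (nat_lit 6) (nat_lit 7) (nat_lit 8) (nat_lit 15) r0_8 r0_15 (nat_lit 0) (nat_lit 0) (nat_lit 0) (nat_lit 0x7676fb99d0) (nat_lit 4680396864),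
  Rx.mk (nat_lit 475) (nat_lit 3) (nat_lit 3) (nat_lit 7) (nat_lit 7) (nat_lit 18) (nat_lit 2) r0_18 r0_2 (nat_lit 0) (nat_lit 0) (nat_lit 0) (nat_lit 0x78399a2e24) (nat_lit 3816380880),
  Rx.mk (nat_lit 507) (nat_lit 3) (nat_lit 7) (nat_lit 7) (nat_lit 7) (nat_lit 17) (nat_lit 3) r0_17 r0_3 (nat_lit 0) (nat_lit 0) (nat_lit 0) (nat_lit 0x763e65836a) (nat_lit 4788895176),
  Rx.mk (nat_lit 511) (nat_lit 7) (nat_lit 7) (nat_lit 7) (nat_lit 7) (nat_lit 9) (nat_lit 14) r0_9 r0_14 (nat_lit 0) (nat_lit 0) (nat_lit 0) (nat_lit 0x78a05961ca) (nat_lit 3619374408)]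
noncomputable def e0_1 : List Rx := [
  Rx.mk (nat_lit 2) (nat_lit 2) (nat_lit 0) (nat_lit 0) (nat_lit 1) (nat_lit 23) (nat_lit 2) r0_23 r1_2 (nat_lit 0) (nat_lit 0) (nat_lit 0) (nat_lit 0x6facf0e146) (nat_lit 8012911608),
  Rx.mk (nat_lit 18) (nat_lit 2) (nat_lit 2) (nat_lit 0) (nat_lit 3) (nat_lit 25) (nat_lit 5) r0_25 r1_5 (nat_lit 0) (nat_lit 0) (nat_lit 0) (nat_lit 0x780ee6f982) (nat_lit 3898253736),
  Rx.mk (nat_lit 146) (nat_lit 2) (nat_lit 2) (nat_lit 2) (nat_lit 7) (nat_lit 26) (nat_lit 7) r0_26 r1_7 (nat_lit 0) (nat_lit 0) (nat_lit 0) (nat_lit 0x7c8a811b64) (nat_lit 1697845968),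
  Rx.mk (nat_lit 150) (nat_lit 6) (nat_lit 2) (nat_lit 2) (nat_lit 7) (nat_lit 21) (nat_lit 8) r0_21 r1_8 (nat_lit 0) (nat_lit 0) (nat_lit 0) (nat_lit 0x7c9e945a1c) (nat_lit 1659353904),
  Rx.mk (nat_lit 182) (nat_lit 6) (nat_lit 6) (nat_lit 2) (nat_lit 7) (nat_lit 20) (nat_lit 9) r0_20 r1_9 (nat_lit 0) (nat_lit 0) (nat_lit 0) (nat_lit 0x7ccb2590dc) (nat_lit 1573900848),
  Rx.mk (nat_lit 194) (nat_lit 2) (nat_lit 0) (nat_lit 3) (nat_lit 5) (nat_lit 24) (nat_lit 3) r0_24 r1_3 (nat_lit 0) (nat_lit 0) (nat_lit 0) (nat_lit 0x78202e24fe) (nat_lit 3865124952),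
  Rx.mk (nat_lit 210) (nat_lit 2) (nat_lit 2) (nat_lit 3) (nat_lit 7) (nat_lit 27) (nat_lit 6) r0_27 r1_6 (nat_lit 0) (nat_lit 0) (nat_lit 0) (nat_lit 0x7d16a418a8) (nat_lit 1429148448),
  Rx.mk (nat_lit 216) (nat_lit 0) (nat_lit 3) (nat_lit 3) (nat_lit 6) (nat_lit 22) (nat_lit 0) r0_22 r1_0 (nat_lit 0) (nat_lit 0) (nat_lit 0) (nat_lit 0x76832bf6be) (nat_lit 4657025880),
  Rx.mk (nat_lit 218) (nat_lit 2) (nat_lit 3) (nat_lit 3) (nat_lit 7) (nat_lit 28) (nat_lit 4) r0_28 r1_4 (nat_lit 0) (nat_lit 0) (nat_lit 0) (nat_lit 0x7efe491c70) (nat_lit 494140608),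
  Rx.mk (nat_lit 219) (nat_lit 3) (nat_lit 3) (nat_lit 3) (nat_lit 7) (nat_lit 29) (nat_lit 1) r0_29 r1_1 (nat_lit 0) (nat_lit 0) (nat_lit 0) (nat_lit 0x75ecc41dd2) (nat_lit 4945413096)]
noncomputable def e0_2 : List Rx := [
  Rx.mk (nat_lit 2) (nat_lit 2) (nat_lit 0) (nat_lit 0) (nat_lit 1) (nat_lit 34) (nat_lit 4) r0_34 r2_4 (nat_lit 0) (nat_lit 0) (nat_lit 0) (nat_lit 0x66c500a932) (nat_lit 12384456552),
  Rx.mk (nat_lit 18) (nat_lit 2) (nat_lit 2) (nat_lit 0) (nat_lit 3) (nat_lit 36) (nat_lit 9) r0_36 r2_9 (nat_lit 0) (nat_lit 0) (nat_lit 0) (nat_lit 0x7dce709b28) (nat_lit 1076733216),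
  Rx.mk (nat_lit 24) (nat_lit 0) (nat_lit 3) (nat_lit 0) (nat_lit 2) (nat_lit 31) (nat_lit 0) r0_31 r2_0 (nat_lit 0) (nat_lit 0) (nat_lit 0) (nat_lit 0x6b355bdf0e) (nat_lit 10205611416),
  Rx.mk (nat_lit 26) (nat_lit 2) (nat_lit 3) (nat_lit 0) (nat_lit 3) (nat_lit 39) (nat_lit 6) r0_39 r2_6 (nat_lit 0) (nat_lit 0) (nat_lit 0) (nat_lit 0x7e5ff6223e) (nat_lit 797710680),
  Rx.mk (nat_lit 66) (nat_lit 2) (nat_lit 0) (nat_lit 1) (nat_lit 5) (nat_lit 35) (nat_lit 5) r0_35 r2_5 (nat_lit 0) (nat_lit 0) (nat_lit 0) (nat_lit 0x7ddc9338f0) (nat_lit 1049630400),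
  Rx.mk (nat_lit 82) (nat_lit 2) (nat_lit 2) (nat_lit 1) (nat_lit 7) (nat_lit 37) (nat_lit 10) r0_37 r2_10 (nat_lit 0) (nat_lit 0) (nat_lit 0) (nat_lit 0x7df79428c6) (nat_lit 997853688),
  Rx.mk (nat_lit 88) (nat_lit 0) (nat_lit 3) (nat_lit 1) (nat_lit 6) (nat_lit 32) (nat_lit 1) r0_32 r2_1 (nat_lit 0) (nat_lit 0) (nat_lit 0) (nat_lit 0x7e4b276f3e) (nat_lit 837606744),
  Rx.mk (nat_lit 90) (nat_lit 2) (nat_lit 3) (nat_lit 1) (nat_lit 7) (nat_lit 40) (nat_lit 7) r0_40 r2_7 (nat_lit 0) (nat_lit 0) (nat_lit 0) (nat_lit 0x7e8b2b6ebe) (nat_lit 714863448),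
  Rx.mk (nat_lit 146) (nat_lit 2) (nat_lit 2) (nat_lit 2) (nat_lit 7) (nat_lit 38) (nat_lit 11) r0_38 r2_11 (nat_lit 0) (nat_lit 0) (nat_lit 0) (nat_lit 0x7ded8609b2) (nat_lit 1017133416),
  Rx.mk (nat_lit 150) (nat_lit 6) (nat_lit 2) (nat_lit 2) (nat_lit 7) (nat_lit 30) (nat_lit 12) r0_30 r2_12 (nat_lit 0) (nat_lit 0) (nat_lit 0) (nat_lit 0x7df6905904) (nat_lit 999799632),
  Rx.mk (nat_lit 216) (nat_lit 0) (nat_lit 3) (nat_lit 3) (nat_lit 6) (nat_lit 33) (nat_lit 2) r0_33 r2_2 (nat_lit 0) (nat_lit 0) (nat_lit 0) (nat_lit 0x7dc39c287a) (nat_lit 1097498376),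
  Rx.mk (nat_lit 218) (nat_lit 2) (nat_lit 3) (nat_lit 3) (nat_lit 7) (nat_lit 41) (nat_lit 8) r0_41 r2_8 (nat_lit 0) (nat_lit 0) (nat_lit 0) (nat_lit 0x7e6254bc52) (nat_lit 793167336),
  Rx.mk (nat_lit 219) (nat_lit 3) (nat_lit 3) (nat_lit 3) (nat_lit 7) (nat_lit 42) (nat_lit 3) r0_42 r2_3 (nat_lit 0) (nat_lit 0) (nat_lit 0) (nat_lit 0x7ddddb446e) (nat_lit 1047173400)]
noncomputable def e0_3 : List Rx := [
  Rx.mk (nat_lit 295) (nat_lit 7) (nat_lit 4) (nat_lit 4) (nat_lit 1) (nat_lit 43) (nat_lit 4) r0_43 r3_4 (nat_lit 0) (nat_lit 0) (nat_lit 0) (nat_lit 0x8000000000) (nat_lit 0),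
  Rx.mk (nat_lit 315) (nat_lit 3) (nat_lit 7) (nat_lit 4) (nat_lit 3) (nat_lit 49) (nat_lit 2) r0_49 r3_2 (nat_lit 0) (nat_lit 0) (nat_lit 0) (nat_lit 0x7ef7fa0168) (nat_lit 506237472),
  Rx.mk (nat_lit 319) (nat_lit 7) (nat_lit 7) (nat_lit 4) (nat_lit 3) (nat_lit 46) (nat_lit 6) r0_46 r3_6 (nat_lit 0) (nat_lit 0) (nat_lit 0) (nat_lit 0x8000000000) (nat_lit 0),
  Rx.mk (nat_lit 423) (nat_lit 7) (nat_lit 4) (nat_lit 6) (nat_lit 5) (nat_lit 44) (nat_lit 5) r0_44 r3_5 (nat_lit 0) (nat_lit 0) (nat_lit 0) (nat_lit 0x789f9ccd94) (nat_lit 3620786832),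
  Rx.mk (nat_lit 439) (nat_lit 7) (nat_lit 6) (nat_lit 6) (nat_lit 7) (nat_lit 45) (nat_lit 8) r0_45 r3_8 (nat_lit 0) (nat_lit 0) (nat_lit 0) (nat_lit 0x7aaf35b1f6) (nat_lit 2609173944),
  Rx.mk (nat_lit 447) (nat_lit 7) (nat_lit 7) (nat_lit 6) (nat_lit 7) (nat_lit 47) (nat_lit 7) r0_47 r3_7 (nat_lit 0) (nat_lit 0) (nat_lit 0) (nat_lit 0x7c4bfa640e) (nat_lit 1817733528),
  Rx.mk (nat_lit 472) (nat_lit 0) (nat_lit 3) (nat_lit 7) (nat_lit 6) (nat_lit 48) (nat_lit 0) r0_48 r3_0 (nat_lit 0) (nat_lit 0) (nat_lit 0) (nat_lit 0x6dba6c2b84) (nat_lit 8968768848),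
  Rx.mk (nat_lit 475) (nat_lit 3) (nat_lit 3) (nat_lit 7) (nat_lit 7) (nat_lit 51) (nat_lit 1) r0_51 r3_1 (nat_lit 0) (nat_lit 0) (nat_lit 0) (nat_lit 0x7b04e536a8) (nat_lit 2444880672),
  Rx.mk (nat_lit 507) (nat_lit 3) (nat_lit 7) (nat_lit 7) (nat_lit 7) (nat_lit 50) (nat_lit 3) r0_50 r3_3 (nat_lit 0) (nat_lit 0) (nat_lit 0) (nat_lit 0x7f3f0caff6) (nat_lit 369962424)]
noncomputable def e0_4 : List Rx := [
  Rx.mk (nat_lit 194) (nat_lit 2) (nat_lit 0) (nat_lit 3) (nat_lit 5) (nat_lit 59) (nat_lit 5) r0_59 r4_5 (nat_lit 0) (nat_lit 0) (nat_lit 0) (nat_lit 0x73827b04ce) (nat_lit 6130911384),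
  Rx.mk (nat_lit 210) (nat_lit 2) (nat_lit 2) (nat_lit 3) (nat_lit 7) (nat_lit 60) (nat_lit 7) r0_60 r4_7 (nat_lit 0) (nat_lit 0) (nat_lit 0) (nat_lit 0x7dd9546ce0) (nat_lit 1055852928),
  Rx.mk (nat_lit 216) (nat_lit 0) (nat_lit 3) (nat_lit 3) (nat_lit 6) (nat_lit 58) (nat_lit 0) r0_58 r4_0 (nat_lit 0) (nat_lit 0) (nat_lit 0) (nat_lit 0x6075ec00cc) (nat_lit 15481206000),
  Rx.mk (nat_lit 218) (nat_lit 2) (nat_lit 3) (nat_lit 3) (nat_lit 7) (nat_lit 61) (nat_lit 6) r0_61 r4_6 (nat_lit 0) (nat_lit 0) (nat_lit 0) (nat_lit 0x769aeeda78) (nat_lit 4611466080),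
  Rx.mk (nat_lit 295) (nat_lit 7) (nat_lit 4) (nat_lit 4) (nat_lit 1) (nat_lit 52) (nat_lit 8) r0_52 r4_8 (nat_lit 0) (nat_lit 0) (nat_lit 0) (nat_lit 0x5b6197cb24) (nat_lit 17974451664),
  Rx.mk (nat_lit 315) (nat_lit 3) (nat_lit 7) (nat_lit 4) (nat_lit 3) (nat_lit 62) (nat_lit 3) r0_62 r4_3 (nat_lit 0) (nat_lit 0) (nat_lit 0) (nat_lit 0x71ae0a8daa) (nat_lit 7029095112),
  Rx.mk (nat_lit 319) (nat_lit 7) (nat_lit 7) (nat_lit 4) (nat_lit 3) (nat_lit 55) (nat_lit 10) r0_55 r4_10 (nat_lit 0) (nat_lit 0) (nat_lit 0) (nat_lit 0x76957cf19c) (nat_lit 4621906224),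
  Rx.mk (nat_lit 423) (nat_lit 7) (nat_lit 4) (nat_lit 6) (nat_lit 5) (nat_lit 53) (nat_lit 9) r0_53 r4_9 (nat_lit 0) (nat_lit 0) (nat_lit 0) (nat_lit 0x6d58b6a73e) (nat_lit 9156115800),
  Rx.mk (nat_lit 439) (nat_lit 7) (nat_lit 6) (nat_lit 6) (nat_lit 7) (nat_lit 54) (nat_lit 12) r0_54 r4_12 (nat_lit 0) (nat_lit 0) (nat_lit 0) (nat_lit 0x75a4e5dbfe) (nat_lit 5083212888),
  Rx.mk (nat_lit 447) (nat_lit 7) (nat_lit 7) (nat_lit 6) (nat_lit 7) (nat_lit 56) (nat_lit 11) r0_56 r4_11 (nat_lit 0) (nat_lit 0) (nat_lit 0) (nat_lit 0x7dea5bdc58) (nat_lit 1023201504),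
  Rx.mk (nat_lit 472) (nat_lit 0) (nat_lit 3) (nat_lit 7) (nat_lit 6) (nat_lit 57) (nat_lit 1) r0_57 r4_1 (nat_lit 0) (nat_lit 0) (nat_lit 0) (nat_lit 0x79050af64c) (nat_lit 3426304752),
  Rx.mk (nat_lit 475) (nat_lit 3) (nat_lit 3) (nat_lit 7) (nat_lit 7) (nat_lit 64) (nat_lit 2) r0_64 r4_2 (nat_lit 0) (nat_lit 0) (nat_lit 0) (nat_lit 0x7d87d5e51a) (nat_lit 1212109704),
  Rx.mk (nat_lit 507) (nat_lit 3) (nat_lit 7) (nat_lit 7) (nat_lit 7) (nat_lit 63) (nat_lit 4) r0_63 r4_4 (nat_lit 0) (nat_lit 0) (nat_lit 0) (nat_lit 0x7dd8cbf568) (nat_lit 1056875040)]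
noncomputable def e0_5 : List Rx := [
  Rx.mk (nat_lit 344) (nat_lit 0) (nat_lit 3) (nat_lit 5) (nat_lit 6) (nat_lit 71) (nat_lit 65) r0_71 r3_65 (nat_lit 0) (nat_lit 0) (nat_lit 0) (nat_lit 0x8000000000) (nat_lit 0)]
noncomputable def e0_6 : List Rx := [
  Rx.mk (nat_lit 66) (nat_lit 2) (nat_lit 0) (nat_lit 1) (nat_lit 5) (nat_lit 73) (nat_lit 72) r0_73 r0_72 (nat_lit 0) (nat_lit 0) (nat_lit 0) (nat_lit 0x75b2e4dc00) (nat_lit 5056376832),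
  Rx.mk (nat_lit 88) (nat_lit 0) (nat_lit 3) (nat_lit 1) (nat_lit 6) (nat_lit 72) (nat_lit 73) r0_72 r0_73 (nat_lit 0) (nat_lit 0) (nat_lit 0) (nat_lit 0x75b2e4dc00) (nat_lit 5056376832),
  Rx.mk (nat_lit 90) (nat_lit 2) (nat_lit 3) (nat_lit 1) (nat_lit 7) (nat_lit 74) (nat_lit 74) r0_74 r0_74 (nat_lit 0) (nat_lit 0) (nat_lit 0) (nat_lit 0x7dc68519e8) (nat_lit 1091918880)]
noncomputable def e0_7 : List Rx := [
  Rx.mk (nat_lit 66) (nat_lit 2) (nat_lit 0) (nat_lit 1) (nat_lit 5) (nat_lit 76) (nat_lit 69) r0_76 r1_69 (nat_lit 0) (nat_lit 0) (nat_lit 0) (nat_lit 0x7d345c1d0a) (nat_lit 1372165704),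
  Rx.mk (nat_lit 82) (nat_lit 2) (nat_lit 2) (nat_lit 1) (nat_lit 7) (nat_lit 77) (nat_lit 72) r0_77 r1_72 (nat_lit 0) (nat_lit 0) (nat_lit 0) (nat_lit 0x7d7df4633c) (nat_lit 1231055280),
  Rx.mk (nat_lit 88) (nat_lit 0) (nat_lit 3) (nat_lit 1) (nat_lit 6) (nat_lit 75) (nat_lit 70) r0_75 r1_70 (nat_lit 0) (nat_lit 0) (nat_lit 0) (nat_lit 0x7de3d424da) (nat_lit 1035722376),
  Rx.mk (nat_lit 90) (nat_lit 2) (nat_lit 3) (nat_lit 1) (nat_lit 7) (nat_lit 78) (nat_lit 71) r0_78 r1_71 (nat_lit 0) (nat_lit 0) (nat_lit 0) (nat_lit 0x7ea4197fc4) (nat_lit 667062864)]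
noncomputable def e0_8 : List Rx := [
  Rx.mk (nat_lit 88) (nat_lit 0) (nat_lit 3) (nat_lit 1) (nat_lit 6) (nat_lit 80) (nat_lit 69) r0_80 r4_69 (nat_lit 0) (nat_lit 0) (nat_lit 0) (nat_lit 0x7933197536) (nat_lit 3337995960),
  Rx.mk (nat_lit 90) (nat_lit 2) (nat_lit 3) (nat_lit 1) (nat_lit 7) (nat_lit 81) (nat_lit 70) r0_81 r4_70 (nat_lit 0) (nat_lit 0) (nat_lit 0) (nat_lit 0x7e7f2fee82) (nat_lit 737838504),
  Rx.mk (nat_lit 344) (nat_lit 0) (nat_lit 3) (nat_lit 5) (nat_lit 6) (nat_lit 79) (nat_lit 68) r0_79 r4_68 (nat_lit 0) (nat_lit 0) (nat_lit 0) (nat_lit 0x6338dbcf0c) (nat_lit 14125728240)]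
noncomputable def e0_9 : List Rx := [
  Rx.mk (nat_lit 280) (nat_lit 0) (nat_lit 3) (nat_lit 4) (nat_lit 2) (nat_lit 82) (nat_lit 0) r0_82 r5_0 (nat_lit 0) (nat_lit 0) (nat_lit 0) (nat_lit 0x618a963514) (nat_lit 14950729872),
  Rx.mk (nat_lit 283) (nat_lit 3) (nat_lit 3) (nat_lit 4) (nat_lit 3) (nat_lit 87) (nat_lit 3) r0_87 r5_3 (nat_lit 0) (nat_lit 0) (nat_lit 0) (nat_lit 0x7a8f772dfe) (nat_lit 2670040152),
  Rx.mk (nat_lit 315) (nat_lit 3) (nat_lit 7) (nat_lit 4) (nat_lit 3) (nat_lit 85) (nat_lit 5) r0_85 r5_5 (nat_lit 0) (nat_lit 0) (nat_lit 0) (nat_lit 0x7e22c49594) (nat_lit 915042960),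
  Rx.mk (nat_lit 344) (nat_lit 0) (nat_lit 3) (nat_lit 5) (nat_lit 6) (nat_lit 83) (nat_lit 1) r0_83 r5_1 (nat_lit 0) (nat_lit 0) (nat_lit 0) (nat_lit 0x7c10d4f6a0) (nat_lit 1931140224),
  Rx.mk (nat_lit 347) (nat_lit 3) (nat_lit 3) (nat_lit 5) (nat_lit 7) (nat_lit 88) (nat_lit 4) r0_88 r5_4 (nat_lit 0) (nat_lit 0) (nat_lit 0) (nat_lit 0x7e4a371e44) (nat_lit 839406672),
  Rx.mk (nat_lit 379) (nat_lit 3) (nat_lit 7) (nat_lit 5) (nat_lit 7) (nat_lit 86) (nat_lit 6) r0_86 r5_6 (nat_lit 0) (nat_lit 0) (nat_lit 0) (nat_lit 0x7f7c66ba18) (nat_lit 252326880),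
  Rx.mk (nat_lit 472) (nat_lit 0) (nat_lit 3) (nat_lit 7) (nat_lit 6) (nat_lit 84) (nat_lit 2) r0_84 r5_2 (nat_lit 0) (nat_lit 0) (nat_lit 0) (nat_lit 0x7ba7d706e8) (nat_lit 2132451360)]
noncomputable def e0_10 : List Rx := [
  Rx.mk (nat_lit 295) (nat_lit 7) (nat_lit 4) (nat_lit 4) (nat_lit 1) (nat_lit 94) (nat_lit 91) r0_94 r0_91 (nat_lit 0) (nat_lit 0) (nat_lit 0) (nat_lit 0x64497ea3ce) (nat_lit 13602976920),
  Rx.mk (nat_lit 319) (nat_lit 7) (nat_lit 7) (nat_lit 4) (nat_lit 3) (nat_lit 97) (nat_lit 92) r0_97 r0_92 (nat_lit 0) (nat_lit 0) (nat_lit 0) (nat_lit 0x742628a950) (nat_lit 5817075264),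
  Rx.mk (nat_lit 420) (nat_lit 4) (nat_lit 4) (nat_lit 6) (nat_lit 4) (nat_lit 91) (nat_lit 94) r0_91 r0_94 (nat_lit 0) (nat_lit 0) (nat_lit 0) (nat_lit 0x64497ea3ce) (nat_lit 13602976920),
  Rx.mk (nat_lit 423) (nat_lit 7) (nat_lit 4) (nat_lit 6) (nat_lit 5) (nat_lit 95) (nat_lit 95) r0_95 r0_95 (nat_lit 0) (nat_lit 0) (nat_lit 0) (nat_lit 0x799825c40c) (nat_lit 3144246768),
  Rx.mk (nat_lit 436) (nat_lit 4) (nat_lit 6) (nat_lit 6) (nat_lit 6) (nat_lit 92) (nat_lit 97) r0_92 r0_97 (nat_lit 0) (nat_lit 0) (nat_lit 0) (nat_lit 0x742628a950) (nat_lit 5817075264),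
  Rx.mk (nat_lit 438) (nat_lit 6) (nat_lit 6) (nat_lit 6) (nat_lit 7) (nat_lit 93) (nat_lit 99) r0_93 r0_99 (nat_lit 0) (nat_lit 0) (nat_lit 0) (nat_lit 0x7e09c9c55a) (nat_lit 962939016),
  Rx.mk (nat_lit 439) (nat_lit 7) (nat_lit 6) (nat_lit 6) (nat_lit 7) (nat_lit 96) (nat_lit 98) r0_96 r0_98 (nat_lit 0) (nat_lit 0) (nat_lit 0) (nat_lit 0x7db4a9d7ae) (nat_lit 1126156824),
  Rx.mk (nat_lit 447) (nat_lit 7) (nat_lit 7) (nat_lit 6) (nat_lit 7) (nat_lit 98) (nat_lit 96) r0_98 r0_96 (nat_lit 0) (nat_lit 0) (nat_lit 0) (nat_lit 0x7db4a9d7ae) (nat_lit 1126156824),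
  Rx.mk (nat_lit 511) (nat_lit 7) (nat_lit 7) (nat_lit 7) (nat_lit 7) (nat_lit 99) (nat_lit 93) r0_99 r0_93 (nat_lit 0) (nat_lit 0) (nat_lit 0) (nat_lit 0x7e09c9c55a) (nat_lit 962939016)]
noncomputable def e0_11 : List Rx := [
  Rx.mk (nat_lit 150) (nat_lit 6) (nat_lit 2) (nat_lit 2) (nat_lit 7) (nat_lit 104) (nat_lit 8) r0_104 r6_8 (nat_lit 0) (nat_lit 0) (nat_lit 0) (nat_lit 0x7defce8528) (nat_lit 1012755744),
  Rx.mk (nat_lit 182) (nat_lit 6) (nat_lit 6) (nat_lit 2) (nat_lit 7) (nat_lit 103) (nat_lit 9) r0_103 r6_9 (nat_lit 0) (nat_lit 0) (nat_lit 0) (nat_lit 0x7df18ca944) (nat_lit 1009414224),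
  Rx.mk (nat_lit 295) (nat_lit 7) (nat_lit 4) (nat_lit 4) (nat_lit 1) (nat_lit 105) (nat_lit 2) r0_105 r6_2 (nat_lit 0) (nat_lit 0) (nat_lit 0) (nat_lit 0x66b9ed9a6e) (nat_lit 12405690648),
  Rx.mk (nat_lit 319) (nat_lit 7) (nat_lit 7) (nat_lit 4) (nat_lit 3) (nat_lit 108) (nat_lit 4) r0_108 r6_4 (nat_lit 0) (nat_lit 0) (nat_lit 0) (nat_lit 0x78a031444c) (nat_lit 3619674864),
  Rx.mk (nat_lit 420) (nat_lit 4) (nat_lit 4) (nat_lit 6) (nat_lit 4) (nat_lit 100) (nat_lit 0) r0_100 r6_0 (nat_lit 0) (nat_lit 0) (nat_lit 0) (nat_lit 0x5b048c5c38) (nat_lit 18152855136),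
  Rx.mk (nat_lit 423) (nat_lit 7) (nat_lit 4) (nat_lit 6) (nat_lit 5) (nat_lit 106) (nat_lit 3) r0_106 r6_3 (nat_lit 0) (nat_lit 0) (nat_lit 0) (nat_lit 0x77e3aa8d74) (nat_lit 3981154320),
  Rx.mk (nat_lit 436) (nat_lit 4) (nat_lit 6) (nat_lit 6) (nat_lit 6) (nat_lit 101) (nat_lit 1) r0_101 r6_1 (nat_lit 0) (nat_lit 0) (nat_lit 0) (nat_lit 0x777f139748) (nat_lit 4174024608),
  Rx.mk (nat_lit 438) (nat_lit 6) (nat_lit 6) (nat_lit 6) (nat_lit 7) (nat_lit 102) (nat_lit 10) r0_102 r6_10 (nat_lit 0) (nat_lit 0) (nat_lit 0) (nat_lit 0x7cd66efc3a) (nat_lit 1552259592),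
  Rx.mk (nat_lit 439) (nat_lit 7) (nat_lit 6) (nat_lit 6) (nat_lit 7) (nat_lit 107) (nat_lit 7) r0_107 r6_7 (nat_lit 0) (nat_lit 0) (nat_lit 0) (nat_lit 0x7e027b5a48) (nat_lit 976948128),
  Rx.mk (nat_lit 447) (nat_lit 7) (nat_lit 7) (nat_lit 6) (nat_lit 7) (nat_lit 109) (nat_lit 6) r0_109 r6_6 (nat_lit 0) (nat_lit 0) (nat_lit 0) (nat_lit 0x7de57b0a6a) (nat_lit 1032554952),
  Rx.mk (nat_lit 511) (nat_lit 7) (nat_lit 7) (nat_lit 7) (nat_lit 7) (nat_lit 110) (nat_lit 5) r0_110 r6_5 (nat_lit 0) (nat_lit 0) (nat_lit 0) (nat_lit 0x7d5af3b36a) (nat_lit 1298169288)]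
noncomputable def e0_12 : List Rx := [
  Rx.mk (nat_lit 292) (nat_lit 4) (nat_lit 4) (nat_lit 4) (nat_lit 0) (nat_lit 111) (nat_lit 94) r0_111 r1_94 (nat_lit 0) (nat_lit 0) (nat_lit 0) (nat_lit 0x7fc651db1c) (nat_lit 110595888),
  Rx.mk (nat_lit 293) (nat_lit 5) (nat_lit 4) (nat_lit 4) (nat_lit 1) (nat_lit 114) (nat_lit 95) r0_114 r1_95 (nat_lit 0) (nat_lit 0) (nat_lit 0) (nat_lit 0x7c02729cd4) (nat_lit 1958720400),
  Rx.mk (nat_lit 295) (nat_lit 7) (nat_lit 4) (nat_lit 4) (nat_lit 1) (nat_lit 118) (nat_lit 96) r0_118 r1_96 (nat_lit 0) (nat_lit 0) (nat_lit 0) (nat_lit 0x76fc4b844c) (nat_lit 4424784624),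
  Rx.mk (nat_lit 319) (nat_lit 7) (nat_lit 7) (nat_lit 4) (nat_lit 3) (nat_lit 121) (nat_lit 97) r0_121 r1_97 (nat_lit 0) (nat_lit 0) (nat_lit 0) (nat_lit 0x7d51e2a484) (nat_lit 1315553616),
  Rx.mk (nat_lit 420) (nat_lit 4) (nat_lit 4) (nat_lit 6) (nat_lit 4) (nat_lit 112) (nat_lit 99) r0_112 r1_99 (nat_lit 0) (nat_lit 0) (nat_lit 0) (nat_lit 0x6fba2ced78) (nat_lit 7987535712),
  Rx.mk (nat_lit 421) (nat_lit 5) (nat_lit 4) (nat_lit 6) (nat_lit 5) (nat_lit 115) (nat_lit 100) r0_115 r1_100 (nat_lit 0) (nat_lit 0) (nat_lit 0) (nat_lit 0x7d6029a006) (nat_lit 1288178424),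
  Rx.mk (nat_lit 423) (nat_lit 7) (nat_lit 4) (nat_lit 6) (nat_lit 5) (nat_lit 119) (nat_lit 101) r0_119 r1_101 (nat_lit 0) (nat_lit 0) (nat_lit 0) (nat_lit 0x7ddf4a4d7c) (nat_lit 1044424368),
  Rx.mk (nat_lit 436) (nat_lit 4) (nat_lit 6) (nat_lit 6) (nat_lit 6) (nat_lit 113) (nat_lit 103) r0_113 r1_103 (nat_lit 0) (nat_lit 0) (nat_lit 0) (nat_lit 0x6f612c3ddc) (nat_lit 8158189104),
  Rx.mk (nat_lit 437) (nat_lit 5) (nat_lit 6) (nat_lit 6) (nat_lit 7) (nat_lit 116) (nat_lit 104) r0_116 r1_104 (nat_lit 0) (nat_lit 0) (nat_lit 0) (nat_lit 0x7daa421e34) (nat_lit 1146107664),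
  Rx.mk (nat_lit 438) (nat_lit 6) (nat_lit 6) (nat_lit 6) (nat_lit 7) (nat_lit 117) (nat_lit 106) r0_117 r1_106 (nat_lit 0) (nat_lit 0) (nat_lit 0) (nat_lit 0x7d94a957d6) (nat_lit 1187517240),
  Rx.mk (nat_lit 439) (nat_lit 7) (nat_lit 6) (nat_lit 6) (nat_lit 7) (nat_lit 120) (nat_lit 105) r0_120 r1_105 (nat_lit 0) (nat_lit 0) (nat_lit 0) (nat_lit 0x7dd7b446e4) (nat_lit 1058969808),
  Rx.mk (nat_lit 447) (nat_lit 7) (nat_lit 7) (nat_lit 6) (nat_lit 7) (nat_lit 122) (nat_lit 102) r0_122 r1_102 (nat_lit 0) (nat_lit 0) (nat_lit 0) (nat_lit 0x7df6bc3646) (nat_lit 999471096),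
  Rx.mk (nat_lit 511) (nat_lit 7) (nat_lit 7) (nat_lit 7) (nat_lit 7) (nat_lit 123) (nat_lit 98) r0_123 r1_98 (nat_lit 0) (nat_lit 0) (nat_lit 0) (nat_lit 0x7dd1bc8666) (nat_lit 1070412408)]
noncomputable def e0_13 : List Rx := [
  Rx.mk (nat_lit 150) (nat_lit 6) (nat_lit 2) (nat_lit 2) (nat_lit 7) (nat_lit 132) (nat_lit 12) r0_132 r7_12 (nat_lit 0) (nat_lit 0) (nat_lit 0) (nat_lit 0x7df4ed3338) (nat_lit 1002938976),
  Rx.mk (nat_lit 182) (nat_lit 6) (nat_lit 6) (nat_lit 2) (nat_lit 7) (nat_lit 131) (nat_lit 13) r0_131 r7_13 (nat_lit 0) (nat_lit 0) (nat_lit 0) (nat_lit 0x7dcfeb437c) (nat_lit 1073897136),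
  Rx.mk (nat_lit 292) (nat_lit 4) (nat_lit 4) (nat_lit 4) (nat_lit 0) (nat_lit 124) (nat_lit 0) r0_124 r7_0 (nat_lit 0) (nat_lit 0) (nat_lit 0) (nat_lit 0x26656fa2a6) (nat_lit 43982313336),
  Rx.mk (nat_lit 293) (nat_lit 5) (nat_lit 4) (nat_lit 4) (nat_lit 1) (nat_lit 127) (nat_lit 3) r0_127 r7_3 (nat_lit 0) (nat_lit 0) (nat_lit 0) (nat_lit 0x6ccff433ee) (nat_lit 9418338072),
  Rx.mk (nat_lit 295) (nat_lit 7) (nat_lit 4) (nat_lit 4) (nat_lit 1) (nat_lit 133) (nat_lit 6) r0_133 r7_6 (nat_lit 0) (nat_lit 0) (nat_lit 0) (nat_lit 0x62b0ff8d58) (nat_lit 14386226400),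
  Rx.mk (nat_lit 319) (nat_lit 7) (nat_lit 7) (nat_lit 4) (nat_lit 3) (nat_lit 136) (nat_lit 8) r0_136 r7_8 (nat_lit 0) (nat_lit 0) (nat_lit 0) (nat_lit 0x7c3f4c0f00) (nat_lit 1842048000),
  Rx.mk (nat_lit 420) (nat_lit 4) (nat_lit 4) (nat_lit 6) (nat_lit 4) (nat_lit 125) (nat_lit 1) r0_125 r7_1 (nat_lit 0) (nat_lit 0) (nat_lit 0) (nat_lit 0x5777047844) (nat_lit 19896786000),
  Rx.mk (nat_lit 421) (nat_lit 5) (nat_lit 4) (nat_lit 6) (nat_lit 5) (nat_lit 128) (nat_lit 4) r0_128 r7_4 (nat_lit 0) (nat_lit 0) (nat_lit 0) (nat_lit 0x7d33d4058c) (nat_lit 1373185008),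
  Rx.mk (nat_lit 423) (nat_lit 7) (nat_lit 4) (nat_lit 6) (nat_lit 5) (nat_lit 134) (nat_lit 7) r0_134 r7_7 (nat_lit 0) (nat_lit 0) (nat_lit 0) (nat_lit 0x7d34a4d87e) (nat_lit 1371620952),
  Rx.mk (nat_lit 436) (nat_lit 4) (nat_lit 6) (nat_lit 6) (nat_lit 6) (nat_lit 126) (nat_lit 2) r0_126 r7_2 (nat_lit 0) (nat_lit 0) (nat_lit 0) (nat_lit 0x7aa48cbc90) (nat_lit 2629613376),
  Rx.mk (nat_lit 437) (nat_lit 5) (nat_lit 6) (nat_lit 6) (nat_lit 7) (nat_lit 129) (nat_lit 5) r0_129 r7_5 (nat_lit 0) (nat_lit 0) (nat_lit 0) (nat_lit 0x7dee6ffb12) (nat_lit 1015381224),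
  Rx.mk (nat_lit 438) (nat_lit 6) (nat_lit 6) (nat_lit 6) (nat_lit 7) (nat_lit 130) (nat_lit 14) r0_130 r7_14 (nat_lit 0) (nat_lit 0) (nat_lit 0) (nat_lit 0x7da85dbc7c) (nat_lit 1149735600),
  Rx.mk (nat_lit 439) (nat_lit 7) (nat_lit 6) (nat_lit 6) (nat_lit 7) (nat_lit 135) (nat_lit 11) r0_135 r7_11 (nat_lit 0) (nat_lit 0) (nat_lit 0) (nat_lit 0x7de50491d2) (nat_lit 1033442280),
  Rx.mk (nat_lit 447) (nat_lit 7) (nat_lit 7) (nat_lit 6) (nat_lit 7) (nat_lit 137) (nat_lit 10) r0_137 r7_10 (nat_lit 0) (nat_lit 0) (nat_lit 0) (nat_lit 0x7df1e163f8) (nat_lit 1008779616),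
  Rx.mk (nat_lit 511) (nat_lit 7) (nat_lit 7) (nat_lit 7) (nat_lit 7) (nat_lit 138) (nat_lit 9) r0_138 r7_9 (nat_lit 0) (nat_lit 0) (nat_lit 0) (nat_lit 0x7db74b2d96) (nat_lit 1121113656)]
noncomputable def e0_14 : List Rx := [
  Rx.mk (nat_lit 150) (nat_lit 6) (nat_lit 2) (nat_lit 2) (nat_lit 7) (nat_lit 140) (nat_lit 77) r0_140 r7_77 (nat_lit 0) (nat_lit 0) (nat_lit 0) (nat_lit 0x7dbbc6c5d8) (nat_lit 1112518368),
  Rx.mk (nat_lit 182) (nat_lit 6) (nat_lit 6) (nat_lit 2) (nat_lit 7) (nat_lit 139) (nat_lit 76) r0_139 r7_76 (nat_lit 0) (nat_lit 0) (nat_lit 0) (nat_lit 0x7dbbc6c5d8) (nat_lit 1112518368)]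
noncomputable def e0_15 : List Rx := [
  Rx.mk (nat_lit 150) (nat_lit 6) (nat_lit 2) (nat_lit 2) (nat_lit 7) (nat_lit 141) (nat_lit 0) r0_141 r8_0 (nat_lit 0) (nat_lit 0) (nat_lit 0) (nat_lit 0x7dde1b0072) (nat_lit 1046696040)]
noncomputable def e0_16 : List Rx := [
  Rx.mk (nat_lit 295) (nat_lit 7) (nat_lit 4) (nat_lit 4) (nat_lit 1) (nat_lit 142) (nat_lit 93) r0_142 r4_93 (nat_lit 0) (nat_lit 0) (nat_lit 0) (nat_lit 0x71b7297bb2) (nat_lit 7011606888),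
  Rx.mk (nat_lit 319) (nat_lit 7) (nat_lit 7) (nat_lit 4) (nat_lit 3) (nat_lit 145) (nat_lit 94) r0_145 r4_94 (nat_lit 0) (nat_lit 0) (nat_lit 0) (nat_lit 0x7bb2a1ba32) (nat_lit 2111759208),
  Rx.mk (nat_lit 423) (nat_lit 7) (nat_lit 4) (nat_lit 6) (nat_lit 5) (nat_lit 143) (nat_lit 95) r0_143 r4_95 (nat_lit 0) (nat_lit 0) (nat_lit 0) (nat_lit 0x7ac67fdd3c) (nat_lit 2564518320),
  Rx.mk (nat_lit 439) (nat_lit 7) (nat_lit 6) (nat_lit 6) (nat_lit 7) (nat_lit 144) (nat_lit 97) r0_144 r4_97 (nat_lit 0) (nat_lit 0) (nat_lit 0) (nat_lit 0x7d94351f1a) (nat_lit 1188387720),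
  Rx.mk (nat_lit 447) (nat_lit 7) (nat_lit 7) (nat_lit 6) (nat_lit 7) (nat_lit 146) (nat_lit 96) r0_146 r4_96 (nat_lit 0) (nat_lit 0) (nat_lit 0) (nat_lit 0x7e2f4f4cdc) (nat_lit 890995248)]
noncomputable def e0_17 : List Rx := [
  Rx.mk (nat_lit 295) (nat_lit 7) (nat_lit 4) (nat_lit 4) (nat_lit 1) (nat_lit 147) (nat_lit 0) r0_147 r9_0 (nat_lit 0) (nat_lit 0) (nat_lit 0) (nat_lit 0x6b26bfc8de) (nat_lit 10233624024),
  Rx.mk (nat_lit 319) (nat_lit 7) (nat_lit 7) (nat_lit 4) (nat_lit 3) (nat_lit 150) (nat_lit 2) r0_150 r9_2 (nat_lit 0) (nat_lit 0) (nat_lit 0) (nat_lit 0x78a7e5a8fe) (nat_lit 3604901976),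
  Rx.mk (nat_lit 423) (nat_lit 7) (nat_lit 4) (nat_lit 6) (nat_lit 5) (nat_lit 148) (nat_lit 1) r0_148 r9_1 (nat_lit 0) (nat_lit 0) (nat_lit 0) (nat_lit 0x776bc40c54) (nat_lit 4211050896),
  Rx.mk (nat_lit 439) (nat_lit 7) (nat_lit 6) (nat_lit 6) (nat_lit 7) (nat_lit 149) (nat_lit 4) r0_149 r9_4 (nat_lit 0) (nat_lit 0) (nat_lit 0) (nat_lit 0x7de318b092) (nat_lit 1037126376),
  Rx.mk (nat_lit 447) (nat_lit 7) (nat_lit 7) (nat_lit 6) (nat_lit 7) (nat_lit 151) (nat_lit 3) r0_151 r9_3 (nat_lit 0) (nat_lit 0) (nat_lit 0) (nat_lit 0x7de51cf04c) (nat_lit 1033259760)]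
noncomputable def e0_18 : List Rx := [
  Rx.mk (nat_lit 319) (nat_lit 7) (nat_lit 7) (nat_lit 4) (nat_lit 3) (nat_lit 152) (nat_lit 0) r0_152 r10_0 (nat_lit 0) (nat_lit 0) (nat_lit 0) (nat_lit 0x7e1794a89e) (nat_lit 936493272),
  Rx.mk (nat_lit 447) (nat_lit 7) (nat_lit 7) (nat_lit 6) (nat_lit 7) (nat_lit 153) (nat_lit 1) r0_153 r10_1 (nat_lit 0) (nat_lit 0) (nat_lit 0) (nat_lit 0x7df4465da6) (nat_lit 1004188536)]
noncomputable def e0_19 : List Rx := [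
  Rx.mk (nat_lit 0) (nat_lit 0) (nat_lit 0) (nat_lit 0) (nat_lit 0) (nat_lit 155) (nat_lit 23) r0_155 r8_23 (nat_lit 0) (nat_lit 0) (nat_lit 0) (nat_lit 0x2380ce4fa0) (nat_lit 45402394752),
  Rx.mk (nat_lit 2) (nat_lit 2) (nat_lit 0) (nat_lit 0) (nat_lit 1) (nat_lit 161) (nat_lit 25) r0_161 r8_25 (nat_lit 0) (nat_lit 0) (nat_lit 0) (nat_lit 0x6eebb9b57a) (nat_lit 8383382280),
  Rx.mk (nat_lit 18) (nat_lit 2) (nat_lit 2) (nat_lit 0) (nat_lit 3) (nat_lit 164) (nat_lit 37) r0_164 r8_37 (nat_lit 0) (nat_lit 0) (nat_lit 0) (nat_lit 0x7d6504125a) (nat_lit 1278872712),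
  Rx.mk (nat_lit 24) (nat_lit 0) (nat_lit 3) (nat_lit 0) (nat_lit 2) (nat_lit 158) (nat_lit 29) r0_158 r8_29 (nat_lit 0) (nat_lit 0) (nat_lit 0) (nat_lit 0x6bb29a6aa8) (nat_lit 9965468448),
  Rx.mk (nat_lit 26) (nat_lit 2) (nat_lit 3) (nat_lit 0) (nat_lit 3) (nat_lit 167) (nat_lit 33) r0_167 r8_33 (nat_lit 0) (nat_lit 0) (nat_lit 0) (nat_lit 0x7db254fcfe) (nat_lit 1130627160),
  Rx.mk (nat_lit 64) (nat_lit 0) (nat_lit 0) (nat_lit 1) (nat_lit 4) (nat_lit 156) (nat_lit 24) r0_156 r8_24 (nat_lit 0) (nat_lit 0) (nat_lit 0) (nat_lit 0x68034003fe) (nat_lit 11774250072),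
  Rx.mk (nat_lit 66) (nat_lit 2) (nat_lit 0) (nat_lit 1) (nat_lit 5) (nat_lit 162) (nat_lit 26) r0_162 r8_26 (nat_lit 0) (nat_lit 0) (nat_lit 0) (nat_lit 0x7dd9e10416) (nat_lit 1054799928),
  Rx.mk (nat_lit 72) (nat_lit 0) (nat_lit 1) (nat_lit 1) (nat_lit 6) (nat_lit 157) (nat_lit 27) r0_157 r8_27 (nat_lit 0) (nat_lit 0) (nat_lit 0) (nat_lit 0x7dafa1a836) (nat_lit 1135805112),
  Rx.mk (nat_lit 74) (nat_lit 2) (nat_lit 1) (nat_lit 1) (nat_lit 7) (nat_lit 163) (nat_lit 28) r0_163 r8_28 (nat_lit 0) (nat_lit 0) (nat_lit 0) (nat_lit 0x7df8ad5732) (nat_lit 995747688),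
  Rx.mk (nat_lit 82) (nat_lit 2) (nat_lit 2) (nat_lit 1) (nat_lit 7) (nat_lit 165) (nat_lit 38) r0_165 r8_38 (nat_lit 0) (nat_lit 0) (nat_lit 0) (nat_lit 0x7df299187c) (nat_lit 1007403696),
  Rx.mk (nat_lit 88) (nat_lit 0) (nat_lit 3) (nat_lit 1) (nat_lit 6) (nat_lit 159) (nat_lit 30) r0_159 r8_30 (nat_lit 0) (nat_lit 0) (nat_lit 0) (nat_lit 0x7dd4e773b4) (nat_lit 1064338704),
  Rx.mk (nat_lit 90) (nat_lit 2) (nat_lit 3) (nat_lit 1) (nat_lit 7) (nat_lit 168) (nat_lit 34) r0_168 r8_34 (nat_lit 0) (nat_lit 0) (nat_lit 0) (nat_lit 0x7df1b4c6c2) (nat_lit 1009113768),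
  Rx.mk (nat_lit 146) (nat_lit 2) (nat_lit 2) (nat_lit 2) (nat_lit 7) (nat_lit 166) (nat_lit 39) r0_166 r8_39 (nat_lit 0) (nat_lit 0) (nat_lit 0) (nat_lit 0x7dde5a5c7c) (nat_lit 1046221488),
  Rx.mk (nat_lit 150) (nat_lit 6) (nat_lit 2) (nat_lit 2) (nat_lit 7) (nat_lit 154) (nat_lit 36) r0_154 r8_36 (nat_lit 0) (nat_lit 0) (nat_lit 0) (nat_lit 0x7df79428c6) (nat_lit 997853688),
  Rx.mk (nat_lit 216) (nat_lit 0) (nat_lit 3) (nat_lit 3) (nat_lit 6) (nat_lit 160) (nat_lit 31) r0_160 r8_31 (nat_lit 0) (nat_lit 0) (nat_lit 0) (nat_lit 0x7d2f99a936) (nat_lit 1381291704),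
  Rx.mk (nat_lit 218) (nat_lit 2) (nat_lit 3) (nat_lit 3) (nat_lit 7) (nat_lit 169) (nat_lit 35) r0_169 r8_35 (nat_lit 0) (nat_lit 0) (nat_lit 0) (nat_lit 0x7df06cbb44) (nat_lit 1011570768),
  Rx.mk (nat_lit 219) (nat_lit 3) (nat_lit 3) (nat_lit 3) (nat_lit 7) (nat_lit 170) (nat_lit 32) r0_170 r8_32 (nat_lit 0) (nat_lit 0) (nat_lit 0) (nat_lit 0x7d8f316f5a) (nat_lit 1198002312)]
noncomputable def e0_20 : List Rx := [
  Rx.mk (nat_lit 320) (nat_lit 0) (nat_lit 0) (nat_lit 5) (nat_lit 4) (nat_lit 171) (nat_lit 248) r0_171 r0_248 (nat_lit 0) (nat_lit 0) (nat_lit 0) (nat_lit 0x7d82b5b722) (nat_lit 1221937704),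
  Rx.mk (nat_lit 328) (nat_lit 0) (nat_lit 1) (nat_lit 5) (nat_lit 6) (nat_lit 172) (nat_lit 249) r0_172 r0_249 (nat_lit 0) (nat_lit 0) (nat_lit 0) (nat_lit 0x79e90615b6) (nat_lit 2989174968)]
noncomputable def e0_21 : List Rx := [
  Rx.mk (nat_lit 328) (nat_lit 0) (nat_lit 1) (nat_lit 5) (nat_lit 6) (nat_lit 173) (nat_lit 255) r0_173 r1_255 (nat_lit 0) (nat_lit 0) (nat_lit 0) (nat_lit 0x7da5614c46) (nat_lit 1155461112)]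
noncomputable def e0_22 : List Rx := [
  Rx.mk (nat_lit 320) (nat_lit 0) (nat_lit 0) (nat_lit 5) (nat_lit 4) (nat_lit 174) (nat_lit 262) r0_174 r4_262 (nat_lit 0) (nat_lit 0) (nat_lit 0) (nat_lit 0x67e873f0da) (nat_lit 11825630856),
  Rx.mk (nat_lit 328) (nat_lit 0) (nat_lit 1) (nat_lit 5) (nat_lit 6) (nat_lit 175) (nat_lit 263) r0_175 r4_263 (nat_lit 0) (nat_lit 0) (nat_lit 0) (nat_lit 0x7e1f5bcc24) (nat_lit 921579984),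
  Rx.mk (nat_lit 344) (nat_lit 0) (nat_lit 3) (nat_lit 5) (nat_lit 6) (nat_lit 176) (nat_lit 264) r0_176 r4_264 (nat_lit 0) (nat_lit 0) (nat_lit 0) (nat_lit 0x75d49f6036) (nat_lit 4991705784)]
noncomputable def e0_23 : List Rx := [
  Rx.mk (nat_lit 64) (nat_lit 0) (nat_lit 0) (nat_lit 1) (nat_lit 4) (nat_lit 178) (nat_lit 57) r0_178 r6_57 (nat_lit 0) (nat_lit 0) (nat_lit 0) (nat_lit 0x6d7c714b70) (nat_lit 9087609024),
  Rx.mk (nat_lit 66) (nat_lit 2) (nat_lit 0) (nat_lit 1) (nat_lit 5) (nat_lit 182) (nat_lit 58) r0_182 r6_58 (nat_lit 0) (nat_lit 0) (nat_lit 0) (nat_lit 0x7e87fa21d6) (nat_lit 720984888),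
  Rx.mk (nat_lit 72) (nat_lit 0) (nat_lit 1) (nat_lit 1) (nat_lit 6) (nat_lit 180) (nat_lit 60) r0_180 r6_60 (nat_lit 0) (nat_lit 0) (nat_lit 0) (nat_lit 0x7d7f2b2fce) (nat_lit 1228727448),
  Rx.mk (nat_lit 74) (nat_lit 2) (nat_lit 1) (nat_lit 1) (nat_lit 7) (nat_lit 183) (nat_lit 61) r0_183 r6_61 (nat_lit 0) (nat_lit 0) (nat_lit 0) (nat_lit 0x7e596ecaba) (nat_lit 810228744),
  Rx.mk (nat_lit 88) (nat_lit 0) (nat_lit 3) (nat_lit 1) (nat_lit 6) (nat_lit 181) (nat_lit 62) r0_181 r6_62 (nat_lit 0) (nat_lit 0) (nat_lit 0) (nat_lit 0x7e643c7dd4) (nat_lit 789514128),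
  Rx.mk (nat_lit 90) (nat_lit 2) (nat_lit 3) (nat_lit 1) (nat_lit 7) (nat_lit 184) (nat_lit 63) r0_184 r6_63 (nat_lit 0) (nat_lit 0) (nat_lit 0) (nat_lit 0x7e6c393e00) (nat_lit 774199296),
  Rx.mk (nat_lit 320) (nat_lit 0) (nat_lit 0) (nat_lit 5) (nat_lit 4) (nat_lit 177) (nat_lit 56) r0_177 r6_56 (nat_lit 0) (nat_lit 0) (nat_lit 0) (nat_lit 0x6042df11ce) (nat_lit 15579090072),
  Rx.mk (nat_lit 328) (nat_lit 0) (nat_lit 1) (nat_lit 5) (nat_lit 6) (nat_lit 179) (nat_lit 59) r0_179 r6_59 (nat_lit 0) (nat_lit 0) (nat_lit 0) (nat_lit 0x7d961fe06c) (nat_lit 1184712048)]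
noncomputable def e0_24 : List Rx := [
  Rx.mk (nat_lit 72) (nat_lit 0) (nat_lit 1) (nat_lit 1) (nat_lit 6) (nat_lit 186) (nat_lit 64) r0_186 r7_64 (nat_lit 0) (nat_lit 0) (nat_lit 0) (nat_lit 0x7db1ff225c) (nat_lit 1131270192),
  Rx.mk (nat_lit 74) (nat_lit 2) (nat_lit 1) (nat_lit 1) (nat_lit 7) (nat_lit 187) (nat_lit 65) r0_187 r7_65 (nat_lit 0) (nat_lit 0) (nat_lit 0) (nat_lit 0x7dec1700a4) (nat_lit 1019882448),
  Rx.mk (nat_lit 328) (nat_lit 0) (nat_lit 1) (nat_lit 5) (nat_lit 6) (nat_lit 185) (nat_lit 63) r0_185 r7_63 (nat_lit 0) (nat_lit 0) (nat_lit 0) (nat_lit 0x7e2fea232e) (nat_lit 889835544)]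
noncomputable def e0_25 : List Rx := [
  Rx.mk (nat_lit 64) (nat_lit 0) (nat_lit 0) (nat_lit 1) (nat_lit 4) (nat_lit 188) (nat_lit 241) r0_188 r7_241 (nat_lit 0) (nat_lit 0) (nat_lit 0) (nat_lit 0x6c14ae090c) (nat_lit 9777416688),
  Rx.mk (nat_lit 66) (nat_lit 2) (nat_lit 0) (nat_lit 1) (nat_lit 5) (nat_lit 191) (nat_lit 244) r0_191 r7_244 (nat_lit 0) (nat_lit 0) (nat_lit 0) (nat_lit 0x7dd6cb7572) (nat_lit 1060713576),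
  Rx.mk (nat_lit 72) (nat_lit 0) (nat_lit 1) (nat_lit 1) (nat_lit 6) (nat_lit 189) (nat_lit 242) r0_189 r7_242 (nat_lit 0) (nat_lit 0) (nat_lit 0) (nat_lit 0x7d632fcfa0) (nat_lit 1282379904),
  Rx.mk (nat_lit 74) (nat_lit 2) (nat_lit 1) (nat_lit 1) (nat_lit 7) (nat_lit 192) (nat_lit 245) r0_192 r7_245 (nat_lit 0) (nat_lit 0) (nat_lit 0) (nat_lit 0x7df79428c6) (nat_lit 997853688),
  Rx.mk (nat_lit 82) (nat_lit 2) (nat_lit 2) (nat_lit 1) (nat_lit 7) (nat_lit 193) (nat_lit 247) r0_193 r7_247 (nat_lit 0) (nat_lit 0) (nat_lit 0) (nat_lit 0x7de7422df6) (nat_lit 1029146040),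
  Rx.mk (nat_lit 88) (nat_lit 0) (nat_lit 3) (nat_lit 1) (nat_lit 6) (nat_lit 190) (nat_lit 243) r0_190 r7_243 (nat_lit 0) (nat_lit 0) (nat_lit 0) (nat_lit 0x7e4de063ac) (nat_lit 832386672),
  Rx.mk (nat_lit 90) (nat_lit 2) (nat_lit 3) (nat_lit 1) (nat_lit 7) (nat_lit 194) (nat_lit 246) r0_194 r7_246 (nat_lit 0) (nat_lit 0) (nat_lit 0) (nat_lit 0x7de0607c18) (nat_lit 1042340832)]
noncomputable def e0_26 : List Rx := [
  Rx.mk (nat_lit 88) (nat_lit 0) (nat_lit 3) (nat_lit 1) (nat_lit 6) (nat_lit 198) (nat_lit 47) r0_198 r9_47 (nat_lit 0) (nat_lit 0) (nat_lit 0) (nat_lit 0x7ccb9f693e) (nat_lit 1572988248),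
  Rx.mk (nat_lit 90) (nat_lit 2) (nat_lit 3) (nat_lit 1) (nat_lit 7) (nat_lit 199) (nat_lit 48) r0_199 r9_48 (nat_lit 0) (nat_lit 0) (nat_lit 0) (nat_lit 0x7e3eef92c8) (nat_lit 861033888),
  Rx.mk (nat_lit 320) (nat_lit 0) (nat_lit 0) (nat_lit 5) (nat_lit 4) (nat_lit 195) (nat_lit 44) r0_195 r9_44 (nat_lit 0) (nat_lit 0) (nat_lit 0) (nat_lit 0x604e485b2e) (nat_lit 15557210136),
  Rx.mk (nat_lit 328) (nat_lit 0) (nat_lit 1) (nat_lit 5) (nat_lit 6) (nat_lit 196) (nat_lit 45) r0_196 r9_45 (nat_lit 0) (nat_lit 0) (nat_lit 0) (nat_lit 0x7d6198a914) (nat_lit 1285429392),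
  Rx.mk (nat_lit 344) (nat_lit 0) (nat_lit 3) (nat_lit 5) (nat_lit 6) (nat_lit 197) (nat_lit 46) r0_197 r9_46 (nat_lit 0) (nat_lit 0) (nat_lit 0) (nat_lit 0x7e0e1fdff4) (nat_lit 954624528)]
noncomputable def e0_27 : List Rx := [
  Rx.mk (nat_lit 320) (nat_lit 0) (nat_lit 0) (nat_lit 5) (nat_lit 4) (nat_lit 200) (nat_lit 37) r0_200 r10_37 (nat_lit 0) (nat_lit 0) (nat_lit 0) (nat_lit 0x76da66a2bc) (nat_lit 4489772976),
  Rx.mk (nat_lit 328) (nat_lit 0) (nat_lit 1) (nat_lit 5) (nat_lit 6) (nat_lit 201) (nat_lit 38) r0_201 r10_38 (nat_lit 0) (nat_lit 0) (nat_lit 0) (nat_lit 0x7e09e4c3aa) (nat_lit 962736840),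
  Rx.mk (nat_lit 344) (nat_lit 0) (nat_lit 3) (nat_lit 5) (nat_lit 6) (nat_lit 202) (nat_lit 39) r0_202 r10_39 (nat_lit 0) (nat_lit 0) (nat_lit 0) (nat_lit 0x7e49f042b2) (nat_lit 839937384),
  Rx.mk (nat_lit 347) (nat_lit 3) (nat_lit 3) (nat_lit 5) (nat_lit 7) (nat_lit 203) (nat_lit 40) r0_203 r10_40 (nat_lit 0) (nat_lit 0) (nat_lit 0) (nat_lit 0x7e9eee1280) (nat_lit 676975104)]
noncomputable def e0_28 : List Rx := [
  Rx.mk (nat_lit 216) (nat_lit 0) (nat_lit 3) (nat_lit 3) (nat_lit 6) (nat_lit 217) (nat_lit 99) r0_217 r10_99 (nat_lit 0) (nat_lit 0) (nat_lit 0) (nat_lit 0x7c2f7ecbe4) (nat_lit 1872346320),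
  Rx.mk (nat_lit 218) (nat_lit 2) (nat_lit 3) (nat_lit 3) (nat_lit 7) (nat_lit 218) (nat_lit 100) r0_218 r10_100 (nat_lit 0) (nat_lit 0) (nat_lit 0) (nat_lit 0x7e0bdd0424) (nat_lit 958960080),
  Rx.mk (nat_lit 291) (nat_lit 3) (nat_lit 4) (nat_lit 4) (nat_lit 1) (nat_lit 219) (nat_lit 92) r0_219 r10_92 (nat_lit 0) (nat_lit 0) (nat_lit 0) (nat_lit 0x4965c57a46) (nat_lit 26801801208),
  Rx.mk (nat_lit 295) (nat_lit 7) (nat_lit 4) (nat_lit 4) (nat_lit 1) (nat_lit 212) (nat_lit 91) r0_212 r10_91 (nat_lit 0) (nat_lit 0) (nat_lit 0) (nat_lit 0x41b494b504) (nat_lit 30577519440),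
  Rx.mk (nat_lit 315) (nat_lit 3) (nat_lit 7) (nat_lit 4) (nat_lit 3) (nat_lit 220) (nat_lit 93) r0_220 r10_93 (nat_lit 0) (nat_lit 0) (nat_lit 0) (nat_lit 0x7d5dec63dc) (nat_lit 1292471856),
  Rx.mk (nat_lit 423) (nat_lit 7) (nat_lit 4) (nat_lit 6) (nat_lit 5) (nat_lit 213) (nat_lit 97) r0_213 r10_97 (nat_lit 0) (nat_lit 0) (nat_lit 0) (nat_lit 0x78034c9334) (nat_lit 3920501520),
  Rx.mk (nat_lit 439) (nat_lit 7) (nat_lit 6) (nat_lit 6) (nat_lit 7) (nat_lit 214) (nat_lit 98) r0_214 r10_98 (nat_lit 0) (nat_lit 0) (nat_lit 0) (nat_lit 0x7e314d2cfc) (nat_lit 887176368),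
  Rx.mk (nat_lit 472) (nat_lit 0) (nat_lit 3) (nat_lit 7) (nat_lit 6) (nat_lit 216) (nat_lit 96) r0_216 r10_96 (nat_lit 0) (nat_lit 0) (nat_lit 0) (nat_lit 0x7de857fc98) (nat_lit 1027065312),
  Rx.mk (nat_lit 504) (nat_lit 0) (nat_lit 7) (nat_lit 7) (nat_lit 6) (nat_lit 215) (nat_lit 94) r0_215 r10_94 (nat_lit 0) (nat_lit 0) (nat_lit 0) (nat_lit 0x7d78b51736) (nat_lit 1241116344),
  Rx.mk (nat_lit 507) (nat_lit 3) (nat_lit 7) (nat_lit 7) (nat_lit 7) (nat_lit 221) (nat_lit 95) r0_221 r10_95 (nat_lit 0) (nat_lit 0) (nat_lit 0) (nat_lit 0x7e428d38ea) (nat_lit 854100936)]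
noncomputable def e0_29 : List Rx := [
  Rx.mk (nat_lit 344) (nat_lit 0) (nat_lit 3) (nat_lit 5) (nat_lit 6) (nat_lit 223) (nat_lit 277) r0_223 r5_277 (nat_lit 0) (nat_lit 0) (nat_lit 0) (nat_lit 0x7c3f149278) (nat_lit 1842463584),
  Rx.mk (nat_lit 376) (nat_lit 0) (nat_lit 7) (nat_lit 5) (nat_lit 6) (nat_lit 222) (nat_lit 276) r0_222 r5_276 (nat_lit 0) (nat_lit 0) (nat_lit 0) (nat_lit 0x7ff5e6a1a0) (nat_lit 19363968)]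
noncomputable def e0_30 : List Rx := [
  Rx.mk (nat_lit 88) (nat_lit 0) (nat_lit 3) (nat_lit 1) (nat_lit 6) (nat_lit 226) (nat_lit 300) r0_226 r10_300 (nat_lit 0) (nat_lit 0) (nat_lit 0) (nat_lit 0x7dddc22600) (nat_lit 1047361536),
  Rx.mk (nat_lit 90) (nat_lit 2) (nat_lit 3) (nat_lit 1) (nat_lit 7) (nat_lit 227) (nat_lit 301) r0_227 r10_301 (nat_lit 0) (nat_lit 0) (nat_lit 0) (nat_lit 0x7e9ab5f606) (nat_lit 685064952),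
  Rx.mk (nat_lit 344) (nat_lit 0) (nat_lit 3) (nat_lit 5) (nat_lit 6) (nat_lit 225) (nat_lit 302) r0_225 r10_302 (nat_lit 0) (nat_lit 0) (nat_lit 0) (nat_lit 0x7c7d384ffe) (nat_lit 1723317336)]
noncomputable def e0_31 : List Rx := [
  Rx.mk (nat_lit 291) (nat_lit 3) (nat_lit 4) (nat_lit 4) (nat_lit 1) (nat_lit 232) (nat_lit 171) r0_232 r5_171 (nat_lit 0) (nat_lit 0) (nat_lit 0) (nat_lit 0x75597c52e2) (nat_lit 5227808040),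
  Rx.mk (nat_lit 312) (nat_lit 0) (nat_lit 7) (nat_lit 4) (nat_lit 2) (nat_lit 228) (nat_lit 173) r0_228 r5_173 (nat_lit 0) (nat_lit 0) (nat_lit 0) (nat_lit 0x746fc68f28) (nat_lit 5675922720),
  Rx.mk (nat_lit 315) (nat_lit 3) (nat_lit 7) (nat_lit 4) (nat_lit 3) (nat_lit 234) (nat_lit 174) r0_234 r5_174 (nat_lit 0) (nat_lit 0) (nat_lit 0) (nat_lit 0x7ee77f2926) (nat_lit 537835896),
  Rx.mk (nat_lit 355) (nat_lit 3) (nat_lit 4) (nat_lit 5) (nat_lit 5) (nat_lit 233) (nat_lit 172) r0_233 r5_172 (nat_lit 0) (nat_lit 0) (nat_lit 0) (nat_lit 0x7fa8fdf078) (nat_lit 166828896),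
  Rx.mk (nat_lit 376) (nat_lit 0) (nat_lit 7) (nat_lit 5) (nat_lit 6) (nat_lit 229) (nat_lit 175) r0_229 r5_175 (nat_lit 0) (nat_lit 0) (nat_lit 0) (nat_lit 0x7f864e9b90) (nat_lit 233333568),
  Rx.mk (nat_lit 379) (nat_lit 3) (nat_lit 7) (nat_lit 5) (nat_lit 7) (nat_lit 235) (nat_lit 176) r0_235 r5_176 (nat_lit 0) (nat_lit 0) (nat_lit 0) (nat_lit 0x7f62ec71d6) (nat_lit 301177656),
  Rx.mk (nat_lit 472) (nat_lit 0) (nat_lit 3) (nat_lit 7) (nat_lit 6) (nat_lit 231) (nat_lit 170) r0_231 r5_170 (nat_lit 0) (nat_lit 0) (nat_lit 0) (nat_lit 0x7b678c2bd6) (nat_lit 2255725368),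
  Rx.mk (nat_lit 504) (nat_lit 0) (nat_lit 7) (nat_lit 7) (nat_lit 6) (nat_lit 230) (nat_lit 177) r0_230 r5_177 (nat_lit 0) (nat_lit 0) (nat_lit 0) (nat_lit 0x7d3f0c91f8) (nat_lit 1351670112)]
noncomputable def e0_32 : List Rx := [
  Rx.mk (nat_lit 280) (nat_lit 0) (nat_lit 3) (nat_lit 4) (nat_lit 2) (nat_lit 238) (nat_lit 0) r0_238 r11_0 (nat_lit 0) (nat_lit 0) (nat_lit 0) (nat_lit 0x604a433b84) (nat_lit 15564918096),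
  Rx.mk (nat_lit 312) (nat_lit 0) (nat_lit 7) (nat_lit 4) (nat_lit 2) (nat_lit 236) (nat_lit 3) r0_236 r11_3 (nat_lit 0) (nat_lit 0) (nat_lit 0) (nat_lit 0x7a6c44a14a) (nat_lit 2737527624),
  Rx.mk (nat_lit 315) (nat_lit 3) (nat_lit 7) (nat_lit 4) (nat_lit 3) (nat_lit 241) (nat_lit 5) r0_241 r11_5 (nat_lit 0) (nat_lit 0) (nat_lit 0) (nat_lit 0x7e8bdea38a) (nat_lit 713521224),
  Rx.mk (nat_lit 344) (nat_lit 0) (nat_lit 3) (nat_lit 5) (nat_lit 6) (nat_lit 239) (nat_lit 1) r0_239 r11_1 (nat_lit 0) (nat_lit 0) (nat_lit 0) (nat_lit 0x7a40d59866) (nat_lit 2820807288),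
  Rx.mk (nat_lit 376) (nat_lit 0) (nat_lit 7) (nat_lit 5) (nat_lit 6) (nat_lit 237) (nat_lit 4) r0_237 r11_4 (nat_lit 0) (nat_lit 0) (nat_lit 0) (nat_lit 0x7ff1a7c592) (nat_lit 27504360),
  Rx.mk (nat_lit 379) (nat_lit 3) (nat_lit 7) (nat_lit 5) (nat_lit 7) (nat_lit 242) (nat_lit 6) r0_242 r11_6 (nat_lit 0) (nat_lit 0) (nat_lit 0) (nat_lit 0x7fcf076fba) (nat_lit 93896712),
  Rx.mk (nat_lit 472) (nat_lit 0) (nat_lit 3) (nat_lit 7) (nat_lit 6) (nat_lit 240) (nat_lit 2) r0_240 r11_2 (nat_lit 0) (nat_lit 0) (nat_lit 0) (nat_lit 0x7407d02ef6) (nat_lit 5875259832)]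
noncomputable def e0_33 : List Rx := [
  Rx.mk (nat_lit 289) (nat_lit 1) (nat_lit 4) (nat_lit 4) (nat_lit 1) (nat_lit 244) (nat_lit 244) r0_244 r0_244 (nat_lit 0) (nat_lit 0) (nat_lit 0) (nat_lit 0x563db2ae9a) (nat_lit 20497543560),
  Rx.mk (nat_lit 297) (nat_lit 1) (nat_lit 5) (nat_lit 4) (nat_lit 3) (nat_lit 246) (nat_lit 245) r0_246 r0_245 (nat_lit 0) (nat_lit 0) (nat_lit 0) (nat_lit 0x72ec042cd2) (nat_lit 6419410920),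
  Rx.mk (nat_lit 353) (nat_lit 1) (nat_lit 4) (nat_lit 5) (nat_lit 5) (nat_lit 245) (nat_lit 246) r0_245 r0_246 (nat_lit 0) (nat_lit 0) (nat_lit 0) (nat_lit 0x72ec042cd2) (nat_lit 6419410920),
  Rx.mk (nat_lit 360) (nat_lit 0) (nat_lit 5) (nat_lit 5) (nat_lit 6) (nat_lit 243) (nat_lit 243) r0_243 r0_243 (nat_lit 0) (nat_lit 0) (nat_lit 0) (nat_lit 0x7feec413d0) (nat_lit 33044544),
  Rx.mk (nat_lit 361) (nat_lit 1) (nat_lit 5) (nat_lit 5) (nat_lit 7) (nat_lit 247) (nat_lit 247) r0_247 r0_247 (nat_lit 0) (nat_lit 0) (nat_lit 0) (nat_lit 0x7d475fecba) (nat_lit 1335706632)]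
noncomputable def e0_34 : List Rx := [
  Rx.mk (nat_lit 289) (nat_lit 1) (nat_lit 4) (nat_lit 4) (nat_lit 1) (nat_lit 248) (nat_lit 171) r0_248 r0_171 (nat_lit 0) (nat_lit 0) (nat_lit 0) (nat_lit 0x7d82b5b722) (nat_lit 1221937704),
  Rx.mk (nat_lit 353) (nat_lit 1) (nat_lit 4) (nat_lit 5) (nat_lit 5) (nat_lit 249) (nat_lit 172) r0_249 r0_172 (nat_lit 0) (nat_lit 0) (nat_lit 0) (nat_lit 0x79e90615b6) (nat_lit 2989174968)]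
noncomputable def e0_35 : List Rx := [
  Rx.mk (nat_lit 289) (nat_lit 1) (nat_lit 4) (nat_lit 4) (nat_lit 1) (nat_lit 250) (nat_lit 315) r0_250 r6_315 (nat_lit 0) (nat_lit 0) (nat_lit 0) (nat_lit 0x69df6adf74) (nat_lit 10861248528),
  Rx.mk (nat_lit 297) (nat_lit 1) (nat_lit 5) (nat_lit 4) (nat_lit 3) (nat_lit 252) (nat_lit 316) r0_252 r6_316 (nat_lit 0) (nat_lit 0) (nat_lit 0) (nat_lit 0x7bc64bff7a) (nat_lit 2074053384),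
  Rx.mk (nat_lit 353) (nat_lit 1) (nat_lit 4) (nat_lit 5) (nat_lit 5) (nat_lit 251) (nat_lit 317) r0_251 r6_317 (nat_lit 0) (nat_lit 0) (nat_lit 0) (nat_lit 0x7da3d1a542) (nat_lit 1158454440),
  Rx.mk (nat_lit 361) (nat_lit 1) (nat_lit 5) (nat_lit 5) (nat_lit 7) (nat_lit 253) (nat_lit 318) r0_253 r6_318 (nat_lit 0) (nat_lit 0) (nat_lit 0) (nat_lit 0x7e1cb5968a) (nat_lit 926659656)]
noncomputable def e0_36 : List Rx := [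
  Rx.mk (nat_lit 293) (nat_lit 5) (nat_lit 4) (nat_lit 4) (nat_lit 1) (nat_lit 254) (nat_lit 180) r0_254 r2_180 (nat_lit 0) (nat_lit 0) (nat_lit 0) (nat_lit 0x58ede04910) (nat_lit 19178033472),
  Rx.mk (nat_lit 421) (nat_lit 5) (nat_lit 4) (nat_lit 6) (nat_lit 5) (nat_lit 255) (nat_lit 181) r0_255 r2_181 (nat_lit 0) (nat_lit 0) (nat_lit 0) (nat_lit 0x7c870832f6) (nat_lit 1704503736),
  Rx.mk (nat_lit 437) (nat_lit 5) (nat_lit 6) (nat_lit 6) (nat_lit 7) (nat_lit 256) (nat_lit 182) r0_256 r2_182 (nat_lit 0) (nat_lit 0) (nat_lit 0) (nat_lit 0x7df272dae0) (nat_lit 1007690112)]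
noncomputable def e0_37 : List Rx := [
  Rx.mk (nat_lit 293) (nat_lit 5) (nat_lit 4) (nat_lit 4) (nat_lit 1) (nat_lit 257) (nat_lit 155) r0_257 r8_155 (nat_lit 0) (nat_lit 0) (nat_lit 0) (nat_lit 0x5d0382aad4) (nat_lit 17173138320),
  Rx.mk (nat_lit 301) (nat_lit 5) (nat_lit 5) (nat_lit 4) (nat_lit 3) (nat_lit 259) (nat_lit 157) r0_259 r8_157 (nat_lit 0) (nat_lit 0) (nat_lit 0) (nat_lit 0x7c68fe73b0) (nat_lit 1762098624),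
  Rx.mk (nat_lit 421) (nat_lit 5) (nat_lit 4) (nat_lit 6) (nat_lit 5) (nat_lit 258) (nat_lit 156) r0_258 r8_156 (nat_lit 0) (nat_lit 0) (nat_lit 0) (nat_lit 0x7d665dbcbe) (nat_lit 1276283736),
  Rx.mk (nat_lit 429) (nat_lit 5) (nat_lit 5) (nat_lit 6) (nat_lit 7) (nat_lit 260) (nat_lit 158) r0_260 r8_158 (nat_lit 0) (nat_lit 0) (nat_lit 0) (nat_lit 0x7de755acbe) (nat_lit 1029000024),
  Rx.mk (nat_lit 437) (nat_lit 5) (nat_lit 6) (nat_lit 6) (nat_lit 7) (nat_lit 261) (nat_lit 159) r0_261 r8_159 (nat_lit 0) (nat_lit 0) (nat_lit 0) (nat_lit 0x7df3be4628) (nat_lit 1005207840)]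
noncomputable def e0_38 : List Rx := [
  Rx.mk (nat_lit 293) (nat_lit 5) (nat_lit 4) (nat_lit 4) (nat_lit 1) (nat_lit 262) (nat_lit 65) r0_262 r8_65 (nat_lit 0) (nat_lit 0) (nat_lit 0) (nat_lit 0x69ec4571be) (nat_lit 10836602712),
  Rx.mk (nat_lit 421) (nat_lit 5) (nat_lit 4) (nat_lit 6) (nat_lit 5) (nat_lit 263) (nat_lit 66) r0_263 r8_66 (nat_lit 0) (nat_lit 0) (nat_lit 0) (nat_lit 0x7d93758b14) (nat_lit 1189822608),
  Rx.mk (nat_lit 437) (nat_lit 5) (nat_lit 6) (nat_lit 6) (nat_lit 7) (nat_lit 264) (nat_lit 67) r0_264 r8_67 (nat_lit 0) (nat_lit 0) (nat_lit 0) (nat_lit 0x7ddc6c3b60) (nat_lit 1049922432)]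
noncomputable def e0_39 : List Rx := [
  Rx.mk (nat_lit 289) (nat_lit 1) (nat_lit 4) (nat_lit 4) (nat_lit 1) (nat_lit 269) (nat_lit 179) r0_269 r1_179 (nat_lit 0) (nat_lit 0) (nat_lit 0) (nat_lit 0x7fe711eefa) (nat_lit 47800584),
  Rx.mk (nat_lit 293) (nat_lit 5) (nat_lit 4) (nat_lit 4) (nat_lit 1) (nat_lit 265) (nat_lit 180) r0_265 r1_180 (nat_lit 0) (nat_lit 0) (nat_lit 0) (nat_lit 0x5c4ea51962) (nat_lit 17519929128),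
  Rx.mk (nat_lit 353) (nat_lit 1) (nat_lit 4) (nat_lit 5) (nat_lit 5) (nat_lit 270) (nat_lit 181) r0_270 r1_181 (nat_lit 0) (nat_lit 0) (nat_lit 0) (nat_lit 0x7a861a03da) (nat_lit 2687994504),
  Rx.mk (nat_lit 357) (nat_lit 5) (nat_lit 4) (nat_lit 5) (nat_lit 5) (nat_lit 266) (nat_lit 182) r0_266 r1_182 (nat_lit 0) (nat_lit 0) (nat_lit 0) (nat_lit 0x77997950d2) (nat_lit 4123410408),
  Rx.mk (nat_lit 421) (nat_lit 5) (nat_lit 4) (nat_lit 6) (nat_lit 5) (nat_lit 267) (nat_lit 183) r0_267 r1_183 (nat_lit 0) (nat_lit 0) (nat_lit 0) (nat_lit 0x7389907370) (nat_lit 6117329088),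
  Rx.mk (nat_lit 437) (nat_lit 5) (nat_lit 6) (nat_lit 6) (nat_lit 7) (nat_lit 268) (nat_lit 184) r0_268 r1_184 (nat_lit 0) (nat_lit 0) (nat_lit 0) (nat_lit 0x6ddb0661c0) (nat_lit 8906257152)]
noncomputable def e0_40 : List Rx := [
  Rx.mk (nat_lit 289) (nat_lit 1) (nat_lit 4) (nat_lit 4) (nat_lit 1) (nat_lit 278) (nat_lit 237) r0_278 r7_237 (nat_lit 0) (nat_lit 0) (nat_lit 0) (nat_lit 0x5c996eec7a) (nat_lit 17376530184),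
  Rx.mk (nat_lit 293) (nat_lit 5) (nat_lit 4) (nat_lit 4) (nat_lit 1) (nat_lit 271) (nat_lit 230) r0_271 r7_230 (nat_lit 0) (nat_lit 0) (nat_lit 0) (nat_lit 0x52675b77e4) (nat_lit 22381079760),
  Rx.mk (nat_lit 297) (nat_lit 1) (nat_lit 5) (nat_lit 4) (nat_lit 3) (nat_lit 280) (nat_lit 238) r0_280 r7_238 (nat_lit 0) (nat_lit 0) (nat_lit 0) (nat_lit 0x7d503ebec4) (nat_lit 1318698576),
  Rx.mk (nat_lit 301) (nat_lit 5) (nat_lit 5) (nat_lit 4) (nat_lit 3) (nat_lit 274) (nat_lit 231) r0_274 r7_231 (nat_lit 0) (nat_lit 0) (nat_lit 0) (nat_lit 0x7a2fb2caa4) (nat_lit 2853663696),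
  Rx.mk (nat_lit 353) (nat_lit 1) (nat_lit 4) (nat_lit 5) (nat_lit 5) (nat_lit 279) (nat_lit 239) r0_279 r7_239 (nat_lit 0) (nat_lit 0) (nat_lit 0) (nat_lit 0x7c51f5245c) (nat_lit 1806268464),
  Rx.mk (nat_lit 357) (nat_lit 5) (nat_lit 4) (nat_lit 5) (nat_lit 5) (nat_lit 272) (nat_lit 232) r0_272 r7_232 (nat_lit 0) (nat_lit 0) (nat_lit 0) (nat_lit 0x77e11e9636) (nat_lit 3986037432),
  Rx.mk (nat_lit 361) (nat_lit 1) (nat_lit 5) (nat_lit 5) (nat_lit 7) (nat_lit 281) (nat_lit 240) r0_281 r7_240 (nat_lit 0) (nat_lit 0) (nat_lit 0) (nat_lit 0x7df400a202) (nat_lit 1004710824),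
  Rx.mk (nat_lit 365) (nat_lit 5) (nat_lit 5) (nat_lit 5) (nat_lit 7) (nat_lit 275) (nat_lit 233) r0_275 r7_233 (nat_lit 0) (nat_lit 0) (nat_lit 0) (nat_lit 0x7d51c5c652) (nat_lit 1315769832),
  Rx.mk (nat_lit 421) (nat_lit 5) (nat_lit 4) (nat_lit 6) (nat_lit 5) (nat_lit 273) (nat_lit 234) r0_273 r7_234 (nat_lit 0) (nat_lit 0) (nat_lit 0) (nat_lit 0x7d448d19ea) (nat_lit 1341120456),
  Rx.mk (nat_lit 429) (nat_lit 5) (nat_lit 5) (nat_lit 6) (nat_lit 7) (nat_lit 276) (nat_lit 235) r0_276 r7_235 (nat_lit 0) (nat_lit 0) (nat_lit 0) (nat_lit 0x7df2301f0c) (nat_lit 1008189936),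
  Rx.mk (nat_lit 437) (nat_lit 5) (nat_lit 6) (nat_lit 6) (nat_lit 7) (nat_lit 277) (nat_lit 236) r0_277 r7_236 (nat_lit 0) (nat_lit 0) (nat_lit 0) (nat_lit 0x7df55c2c48) (nat_lit 1002107808)]
noncomputable def e0_41 : List Rx := [
  Rx.mk (nat_lit 297) (nat_lit 1) (nat_lit 5) (nat_lit 4) (nat_lit 3) (nat_lit 283) (nat_lit 253) r0_283 r1_253 (nat_lit 0) (nat_lit 0) (nat_lit 0) (nat_lit 0x7925b2abb0) (nat_lit 3363691968),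
  Rx.mk (nat_lit 360) (nat_lit 0) (nat_lit 5) (nat_lit 5) (nat_lit 6) (nat_lit 282) (nat_lit 252) r0_282 r1_252 (nat_lit 0) (nat_lit 0) (nat_lit 0) (nat_lit 0x7ff9bf840e) (nat_lit 11987352),
  Rx.mk (nat_lit 361) (nat_lit 1) (nat_lit 5) (nat_lit 5) (nat_lit 7) (nat_lit 284) (nat_lit 254) r0_284 r1_254 (nat_lit 0) (nat_lit 0) (nat_lit 0) (nat_lit 0x7bdf3f502c) (nat_lit 2026213488)]
noncomputable def e0_42 : List Rx := [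
  Rx.mk (nat_lit 328) (nat_lit 0) (nat_lit 1) (nat_lit 5) (nat_lit 6) (nat_lit 286) (nat_lit 277) r0_286 r2_277 (nat_lit 0) (nat_lit 0) (nat_lit 0) (nat_lit 0x7e0b17707e) (nat_lit 960439896),
  Rx.mk (nat_lit 329) (nat_lit 1) (nat_lit 1) (nat_lit 5) (nat_lit 7) (nat_lit 288) (nat_lit 279) r0_288 r2_279 (nat_lit 0) (nat_lit 0) (nat_lit 0) (nat_lit 0x7de13f8e26) (nat_lit 1040670072),
  Rx.mk (nat_lit 360) (nat_lit 0) (nat_lit 5) (nat_lit 5) (nat_lit 6) (nat_lit 285) (nat_lit 276) r0_285 r2_276 (nat_lit 0) (nat_lit 0) (nat_lit 0) (nat_lit 0x7e3ae53372) (nat_lit 868781160),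
  Rx.mk (nat_lit 361) (nat_lit 1) (nat_lit 5) (nat_lit 5) (nat_lit 7) (nat_lit 287) (nat_lit 278) r0_287 r2_278 (nat_lit 0) (nat_lit 0) (nat_lit 0) (nat_lit 0x7de4b8169a) (nat_lit 1034015112)]
noncomputable def e0_43 : List Rx := [
  Rx.mk (nat_lit 297) (nat_lit 1) (nat_lit 5) (nat_lit 4) (nat_lit 3) (nat_lit 289) (nat_lit 178) r0_289 r7_178 (nat_lit 0) (nat_lit 0) (nat_lit 0) (nat_lit 0x7b30873c5c) (nat_lit 2361219120),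
  Rx.mk (nat_lit 361) (nat_lit 1) (nat_lit 5) (nat_lit 5) (nat_lit 7) (nat_lit 290) (nat_lit 179) r0_290 r7_179 (nat_lit 0) (nat_lit 0) (nat_lit 0) (nat_lit 0x7df79428c6) (nat_lit 997853688)]
noncomputable def e0_44 : List Rx := [
  Rx.mk (nat_lit 329) (nat_lit 1) (nat_lit 1) (nat_lit 5) (nat_lit 7) (nat_lit 292) (nat_lit 249) r0_292 r8_249 (nat_lit 0) (nat_lit 0) (nat_lit 0) (nat_lit 0x7ddc669bba) (nat_lit 1049964552),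
  Rx.mk (nat_lit 361) (nat_lit 1) (nat_lit 5) (nat_lit 5) (nat_lit 7) (nat_lit 291) (nat_lit 248) r0_291 r8_248 (nat_lit 0) (nat_lit 0) (nat_lit 0) (nat_lit 0x7df24f9d14) (nat_lit 1007954064)]
noncomputable def e0_45 : List Rx := [
  Rx.mk (nat_lit 72) (nat_lit 0) (nat_lit 1) (nat_lit 1) (nat_lit 6) (nat_lit 295) (nat_lit 250) r0_295 r8_250 (nat_lit 0) (nat_lit 0) (nat_lit 0) (nat_lit 0x7d3d9e48de) (nat_lit 1354413528),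
  Rx.mk (nat_lit 73) (nat_lit 1) (nat_lit 1) (nat_lit 1) (nat_lit 7) (nat_lit 298) (nat_lit 251) r0_298 r8_251 (nat_lit 0) (nat_lit 0) (nat_lit 0) (nat_lit 0x7df79428c6) (nat_lit 997853688),
  Rx.mk (nat_lit 74) (nat_lit 2) (nat_lit 1) (nat_lit 1) (nat_lit 7) (nat_lit 299) (nat_lit 252) r0_299 r8_252 (nat_lit 0) (nat_lit 0) (nat_lit 0) (nat_lit 0x7dea449dcc) (nat_lit 1023375600),
  Rx.mk (nat_lit 328) (nat_lit 0) (nat_lit 1) (nat_lit 5) (nat_lit 6) (nat_lit 294) (nat_lit 253) r0_294 r8_253 (nat_lit 0) (nat_lit 0) (nat_lit 0) (nat_lit 0x7d40db9506) (nat_lit 1348202232),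
  Rx.mk (nat_lit 329) (nat_lit 1) (nat_lit 1) (nat_lit 5) (nat_lit 7) (nat_lit 297) (nat_lit 255) r0_297 r8_255 (nat_lit 0) (nat_lit 0) (nat_lit 0) (nat_lit 0x7de02cbf54) (nat_lit 1042728336),
  Rx.mk (nat_lit 360) (nat_lit 0) (nat_lit 5) (nat_lit 5) (nat_lit 6) (nat_lit 293) (nat_lit 254) r0_293 r8_254 (nat_lit 0) (nat_lit 0) (nat_lit 0) (nat_lit 0x7c454cceee) (nat_lit 1830538008),
  Rx.mk (nat_lit 361) (nat_lit 1) (nat_lit 5) (nat_lit 5) (nat_lit 7) (nat_lit 296) (nat_lit 256) r0_296 r8_256 (nat_lit 0) (nat_lit 0) (nat_lit 0) (nat_lit 0x7df79428c6) (nat_lit 997853688)]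
noncomputable def e0_46 : List Rx := [
  Rx.mk (nat_lit 289) (nat_lit 1) (nat_lit 4) (nat_lit 4) (nat_lit 1) (nat_lit 308) (nat_lit 256) r0_308 r4_256 (nat_lit 0) (nat_lit 0) (nat_lit 0) (nat_lit 0x6d9ecf456e) (nat_lit 9021713688),
  Rx.mk (nat_lit 297) (nat_lit 1) (nat_lit 5) (nat_lit 4) (nat_lit 3) (nat_lit 310) (nat_lit 257) r0_310 r4_257 (nat_lit 0) (nat_lit 0) (nat_lit 0) (nat_lit 0x7da9e10446) (nat_lit 1146834936),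
  Rx.mk (nat_lit 313) (nat_lit 1) (nat_lit 7) (nat_lit 4) (nat_lit 3) (nat_lit 312) (nat_lit 258) r0_312 r4_258 (nat_lit 0) (nat_lit 0) (nat_lit 0) (nat_lit 0x76d4fe194a) (nat_lit 4500142920),
  Rx.mk (nat_lit 352) (nat_lit 0) (nat_lit 4) (nat_lit 5) (nat_lit 4) (nat_lit 305) (nat_lit 253) r0_305 r4_253 (nat_lit 0) (nat_lit 0) (nat_lit 0) (nat_lit 0x72ea26eaa8) (nat_lit 6422985504),
  Rx.mk (nat_lit 353) (nat_lit 1) (nat_lit 4) (nat_lit 5) (nat_lit 5) (nat_lit 309) (nat_lit 259) r0_309 r4_259 (nat_lit 0) (nat_lit 0) (nat_lit 0) (nat_lit 0x7d715ecca2) (nat_lit 1255184424),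
  Rx.mk (nat_lit 360) (nat_lit 0) (nat_lit 5) (nat_lit 5) (nat_lit 6) (nat_lit 306) (nat_lit 254) r0_306 r4_254 (nat_lit 0) (nat_lit 0) (nat_lit 0) (nat_lit 0x765dc16d8c) (nat_lit 4728767472),
  Rx.mk (nat_lit 361) (nat_lit 1) (nat_lit 5) (nat_lit 5) (nat_lit 7) (nat_lit 311) (nat_lit 260) r0_311 r4_260 (nat_lit 0) (nat_lit 0) (nat_lit 0) (nat_lit 0x7e65ac46d6) (nat_lit 786759480),
  Rx.mk (nat_lit 376) (nat_lit 0) (nat_lit 7) (nat_lit 5) (nat_lit 6) (nat_lit 307) (nat_lit 255) r0_307 r4_255 (nat_lit 0) (nat_lit 0) (nat_lit 0) (nat_lit 0x7e1c8ad936) (nat_lit 926979768),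
  Rx.mk (nat_lit 377) (nat_lit 1) (nat_lit 7) (nat_lit 5) (nat_lit 7) (nat_lit 313) (nat_lit 261) r0_313 r4_261 (nat_lit 0) (nat_lit 0) (nat_lit 0) (nat_lit 0x7e5d9fc7a6) (nat_lit 802192248)]
noncomputable def e0_47 : List Rx := [
  Rx.mk (nat_lit 289) (nat_lit 1) (nat_lit 4) (nat_lit 4) (nat_lit 1) (nat_lit 317) (nat_lit 155) r0_317 r4_155 (nat_lit 0) (nat_lit 0) (nat_lit 0) (nat_lit 0x6ef1331dde) (nat_lit 8372885976),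
  Rx.mk (nat_lit 313) (nat_lit 1) (nat_lit 7) (nat_lit 4) (nat_lit 3) (nat_lit 319) (nat_lit 157) r0_319 r4_157 (nat_lit 0) (nat_lit 0) (nat_lit 0) (nat_lit 0x76db4494dc) (nat_lit 4488110640),
  Rx.mk (nat_lit 353) (nat_lit 1) (nat_lit 4) (nat_lit 5) (nat_lit 5) (nat_lit 318) (nat_lit 156) r0_318 r4_156 (nat_lit 0) (nat_lit 0) (nat_lit 0) (nat_lit 0x7d38edd3ea) (nat_lit 1363404744),
  Rx.mk (nat_lit 377) (nat_lit 1) (nat_lit 7) (nat_lit 5) (nat_lit 7) (nat_lit 320) (nat_lit 158) r0_320 r4_158 (nat_lit 0) (nat_lit 0) (nat_lit 0) (nat_lit 0x7ece365dcc) (nat_lit 586316016)]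
noncomputable def e0_48 : List Rx := [
  Rx.mk (nat_lit 289) (nat_lit 1) (nat_lit 4) (nat_lit 4) (nat_lit 1) (nat_lit 321) (nat_lit 273) r0_321 r9_273 (nat_lit 0) (nat_lit 0) (nat_lit 0) (nat_lit 0x6fbd3d3c70) (nat_lit 7981661376),
  Rx.mk (nat_lit 297) (nat_lit 1) (nat_lit 5) (nat_lit 4) (nat_lit 3) (nat_lit 323) (nat_lit 274) r0_323 r9_274 (nat_lit 0) (nat_lit 0) (nat_lit 0) (nat_lit 0x7d7df942ee) (nat_lit 1231018776),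
  Rx.mk (nat_lit 313) (nat_lit 1) (nat_lit 7) (nat_lit 4) (nat_lit 3) (nat_lit 325) (nat_lit 275) r0_325 r9_275 (nat_lit 0) (nat_lit 0) (nat_lit 0) (nat_lit 0x7a4fc4e962) (nat_lit 2792171304),
  Rx.mk (nat_lit 353) (nat_lit 1) (nat_lit 4) (nat_lit 5) (nat_lit 5) (nat_lit 322) (nat_lit 276) r0_322 r9_276 (nat_lit 0) (nat_lit 0) (nat_lit 0) (nat_lit 0x7d8ed7d4f4) (nat_lit 1198673424),
  Rx.mk (nat_lit 361) (nat_lit 1) (nat_lit 5) (nat_lit 5) (nat_lit 7) (nat_lit 324) (nat_lit 277) r0_324 r9_277 (nat_lit 0) (nat_lit 0) (nat_lit 0) (nat_lit 0x7e0faa474c) (nat_lit 951670512),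
  Rx.mk (nat_lit 377) (nat_lit 1) (nat_lit 7) (nat_lit 5) (nat_lit 7) (nat_lit 326) (nat_lit 278) r0_326 r9_278 (nat_lit 0) (nat_lit 0) (nat_lit 0) (nat_lit 0x7e1ddac436) (nat_lit 924463800)]
noncomputable def e0_49 : List Rx := [
  Rx.mk (nat_lit 313) (nat_lit 1) (nat_lit 7) (nat_lit 4) (nat_lit 3) (nat_lit 327) (nat_lit 298) r0_327 r10_298 (nat_lit 0) (nat_lit 0) (nat_lit 0) (nat_lit 0x7e2b75aa7a) (nat_lit 898377480),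
  Rx.mk (nat_lit 377) (nat_lit 1) (nat_lit 7) (nat_lit 5) (nat_lit 7) (nat_lit 328) (nat_lit 299) r0_328 r10_299 (nat_lit 0) (nat_lit 0) (nat_lit 0) (nat_lit 0x7df79428c6) (nat_lit 997853688)]
noncomputable def e0_50 : List Rx := [
  Rx.mk (nat_lit 288) (nat_lit 0) (nat_lit 4) (nat_lit 4) (nat_lit 0) (nat_lit 341) (nat_lit 165) r0_341 r10_165 (nat_lit 0) (nat_lit 0) (nat_lit 0) (nat_lit 0x2d7a01d26e) (nat_lit 40506896664),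
  Rx.mk (nat_lit 289) (nat_lit 1) (nat_lit 4) (nat_lit 4) (nat_lit 1) (nat_lit 348) (nat_lit 166) r0_348 r10_166 (nat_lit 0) (nat_lit 0) (nat_lit 0) (nat_lit 0x7a5f28731a) (nat_lit 2762664840),
  Rx.mk (nat_lit 291) (nat_lit 3) (nat_lit 4) (nat_lit 4) (nat_lit 1) (nat_lit 355) (nat_lit 167) r0_355 r10_167 (nat_lit 0) (nat_lit 0) (nat_lit 0) (nat_lit 0x7cc600e32c) (nat_lit 1583762544),
  Rx.mk (nat_lit 296) (nat_lit 0) (nat_lit 5) (nat_lit 4) (nat_lit 2) (nat_lit 343) (nat_lit 171) r0_343 r10_171 (nat_lit 0) (nat_lit 0) (nat_lit 0) (nat_lit 0x79a5a2ac30) (nat_lit 3118385088),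
  Rx.mk (nat_lit 297) (nat_lit 1) (nat_lit 5) (nat_lit 4) (nat_lit 3) (nat_lit 350) (nat_lit 172) r0_350 r10_172 (nat_lit 0) (nat_lit 0) (nat_lit 0) (nat_lit 0x7dd895f8c8) (nat_lit 1057279392),
  Rx.mk (nat_lit 299) (nat_lit 3) (nat_lit 5) (nat_lit 4) (nat_lit 3) (nat_lit 357) (nat_lit 173) r0_357 r10_173 (nat_lit 0) (nat_lit 0) (nat_lit 0) (nat_lit 0x7e5a0a0106) (nat_lit 809066232),
  Rx.mk (nat_lit 312) (nat_lit 0) (nat_lit 7) (nat_lit 4) (nat_lit 2) (nat_lit 345) (nat_lit 177) r0_345 r10_177 (nat_lit 0) (nat_lit 0) (nat_lit 0) (nat_lit 0x7b95ea25c8) (nat_lit 2166821280),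
  Rx.mk (nat_lit 313) (nat_lit 1) (nat_lit 7) (nat_lit 4) (nat_lit 3) (nat_lit 352) (nat_lit 178) r0_352 r10_178 (nat_lit 0) (nat_lit 0) (nat_lit 0) (nat_lit 0x7df5b266e4) (nat_lit 1001461968),
  Rx.mk (nat_lit 352) (nat_lit 0) (nat_lit 4) (nat_lit 5) (nat_lit 4) (nat_lit 342) (nat_lit 168) r0_342 r10_168 (nat_lit 0) (nat_lit 0) (nat_lit 0) (nat_lit 0x7aa5ac4a96) (nat_lit 2627459640),
  Rx.mk (nat_lit 353) (nat_lit 1) (nat_lit 4) (nat_lit 5) (nat_lit 5) (nat_lit 349) (nat_lit 169) r0_349 r10_169 (nat_lit 0) (nat_lit 0) (nat_lit 0) (nat_lit 0x7dda7f3a32) (nat_lit 1053614952),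
  Rx.mk (nat_lit 355) (nat_lit 3) (nat_lit 4) (nat_lit 5) (nat_lit 5) (nat_lit 356) (nat_lit 170) r0_356 r10_170 (nat_lit 0) (nat_lit 0) (nat_lit 0) (nat_lit 0x7df00ea126) (nat_lit 1012275576),
  Rx.mk (nat_lit 360) (nat_lit 0) (nat_lit 5) (nat_lit 5) (nat_lit 6) (nat_lit 344) (nat_lit 174) r0_344 r10_174 (nat_lit 0) (nat_lit 0) (nat_lit 0) (nat_lit 0x7df905d1aa) (nat_lit 995085000),
  Rx.mk (nat_lit 361) (nat_lit 1) (nat_lit 5) (nat_lit 5) (nat_lit 7) (nat_lit 351) (nat_lit 175) r0_351 r10_175 (nat_lit 0) (nat_lit 0) (nat_lit 0) (nat_lit 0x7df9cda52c) (nat_lit 993588336),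
  Rx.mk (nat_lit 363) (nat_lit 3) (nat_lit 5) (nat_lit 5) (nat_lit 7) (nat_lit 358) (nat_lit 176) r0_358 r10_176 (nat_lit 0) (nat_lit 0) (nat_lit 0) (nat_lit 0x7ea0391dce) (nat_lit 674495640),
  Rx.mk (nat_lit 376) (nat_lit 0) (nat_lit 7) (nat_lit 5) (nat_lit 6) (nat_lit 346) (nat_lit 179) r0_346 r10_179 (nat_lit 0) (nat_lit 0) (nat_lit 0) (nat_lit 0x7deff222ee) (nat_lit 1012488984),
  Rx.mk (nat_lit 377) (nat_lit 1) (nat_lit 7) (nat_lit 5) (nat_lit 7) (nat_lit 353) (nat_lit 180) r0_353 r10_180 (nat_lit 0) (nat_lit 0) (nat_lit 0) (nat_lit 0x7dee0dc136) (nat_lit 1016116920),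
  Rx.mk (nat_lit 504) (nat_lit 0) (nat_lit 7) (nat_lit 7) (nat_lit 6) (nat_lit 347) (nat_lit 181) r0_347 r10_181 (nat_lit 0) (nat_lit 0) (nat_lit 0) (nat_lit 0x7dc039bea4) (nat_lit 1103987664),
  Rx.mk (nat_lit 505) (nat_lit 1) (nat_lit 7) (nat_lit 7) (nat_lit 7) (nat_lit 354) (nat_lit 182) r0_354 r10_182 (nat_lit 0) (nat_lit 0) (nat_lit 0) (nat_lit 0x7df41fc010) (nat_lit 1004477760)]
noncomputable def e0_51 : List Rx := [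
  Rx.mk (nat_lit 283) (nat_lit 3) (nat_lit 3) (nat_lit 4) (nat_lit 3) (nat_lit 69) (nat_lit 1) r0_69 r12_1 (nat_lit 0) (nat_lit 0) (nat_lit 0) (nat_lit 0x71e33a1a7c) (nat_lit 6927116976),
  Rx.mk (nat_lit 315) (nat_lit 3) (nat_lit 7) (nat_lit 4) (nat_lit 3) (nat_lit 68) (nat_lit 3) r0_68 r12_3 (nat_lit 0) (nat_lit 0) (nat_lit 0) (nat_lit 0x75cf3f763a) (nat_lit 5002011144),
  Rx.mk (nat_lit 319) (nat_lit 7) (nat_lit 7) (nat_lit 4) (nat_lit 3) (nat_lit 65) (nat_lit 4) r0_65 r12_4 (nat_lit 0) (nat_lit 0) (nat_lit 0) (nat_lit 0x720f3cda24) (nat_lit 6842730960),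
  Rx.mk (nat_lit 447) (nat_lit 7) (nat_lit 7) (nat_lit 6) (nat_lit 7) (nat_lit 66) (nat_lit 5) r0_66 r12_5 (nat_lit 0) (nat_lit 0) (nat_lit 0) (nat_lit 0x7df1ba066e) (nat_lit 1009074456),
  Rx.mk (nat_lit 472) (nat_lit 0) (nat_lit 3) (nat_lit 7) (nat_lit 6) (nat_lit 67) (nat_lit 0) r0_67 r12_0 (nat_lit 0) (nat_lit 0) (nat_lit 0) (nat_lit 0x765c6d02d4) (nat_lit 4731317136),
  Rx.mk (nat_lit 475) (nat_lit 3) (nat_lit 3) (nat_lit 7) (nat_lit 7) (nat_lit 70) (nat_lit 2) r0_70 r12_2 (nat_lit 0) (nat_lit 0) (nat_lit 0) (nat_lit 0x7690a69f06) (nat_lit 4631181048)]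
noncomputable def e0_52 : List Rx := [
  Rx.mk (nat_lit 344) (nat_lit 0) (nat_lit 3) (nat_lit 5) (nat_lit 6) (nat_lit 89) (nat_lit 61) r0_89 r12_61 (nat_lit 0) (nat_lit 0) (nat_lit 0) (nat_lit 0x75d5ae0f4a) (nat_lit 4989678408),
  Rx.mk (nat_lit 347) (nat_lit 3) (nat_lit 3) (nat_lit 5) (nat_lit 7) (nat_lit 90) (nat_lit 62) r0_90 r12_62 (nat_lit 0) (nat_lit 0) (nat_lit 0) (nat_lit 0x7ec6f5d1dc) (nat_lit 600221232)]
noncomputable def e0_53 : List Rx := [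
  Rx.mk (nat_lit 291) (nat_lit 3) (nat_lit 4) (nat_lit 4) (nat_lit 1) (nat_lit 209) (nat_lit 95) r0_209 r12_95 (nat_lit 0) (nat_lit 0) (nat_lit 0) (nat_lit 0x749db7cfe6) (nat_lit 5587832952),
  Rx.mk (nat_lit 295) (nat_lit 7) (nat_lit 4) (nat_lit 4) (nat_lit 1) (nat_lit 204) (nat_lit 94) r0_204 r12_94 (nat_lit 0) (nat_lit 0) (nat_lit 0) (nat_lit 0x8000000000) (nat_lit 0),
  Rx.mk (nat_lit 315) (nat_lit 3) (nat_lit 7) (nat_lit 4) (nat_lit 3) (nat_lit 210) (nat_lit 96) r0_210 r12_96 (nat_lit 0) (nat_lit 0) (nat_lit 0) (nat_lit 0x7d52e9d410) (nat_lit 1313582400),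
  Rx.mk (nat_lit 423) (nat_lit 7) (nat_lit 4) (nat_lit 6) (nat_lit 5) (nat_lit 205) (nat_lit 100) r0_205 r12_100 (nat_lit 0) (nat_lit 0) (nat_lit 0) (nat_lit 0x769593103a) (nat_lit 4621740552),
  Rx.mk (nat_lit 439) (nat_lit 7) (nat_lit 6) (nat_lit 6) (nat_lit 7) (nat_lit 206) (nat_lit 101) r0_206 r12_101 (nat_lit 0) (nat_lit 0) (nat_lit 0) (nat_lit 0x67426092b6) (nat_lit 12144063672),
  Rx.mk (nat_lit 472) (nat_lit 0) (nat_lit 3) (nat_lit 7) (nat_lit 6) (nat_lit 208) (nat_lit 99) r0_208 r12_99 (nat_lit 0) (nat_lit 0) (nat_lit 0) (nat_lit 0x6c8ed0a668) (nat_lit 9543235104),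
  Rx.mk (nat_lit 504) (nat_lit 0) (nat_lit 7) (nat_lit 7) (nat_lit 6) (nat_lit 207) (nat_lit 97) r0_207 r12_97 (nat_lit 0) (nat_lit 0) (nat_lit 0) (nat_lit 0x7b7e747d3a) (nat_lit 2211802632),
  Rx.mk (nat_lit 507) (nat_lit 3) (nat_lit 7) (nat_lit 7) (nat_lit 7) (nat_lit 211) (nat_lit 98) r0_211 r12_98 (nat_lit 0) (nat_lit 0) (nat_lit 0) (nat_lit 0x7df6c1d5ec) (nat_lit 999428976)]
noncomputable def e0_54 : List Rx := [
  Rx.mk (nat_lit 344) (nat_lit 0) (nat_lit 3) (nat_lit 5) (nat_lit 6) (nat_lit 224) (nat_lit 255) r0_224 r12_255 (nat_lit 0) (nat_lit 0) (nat_lit 0) (nat_lit 0x8000000000) (nat_lit 0)]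
noncomputable def e0_55 : List Rx := [
  Rx.mk (nat_lit 289) (nat_lit 1) (nat_lit 4) (nat_lit 4) (nat_lit 1) (nat_lit 301) (nat_lit 240) r0_301 r3_240 (nat_lit 0) (nat_lit 0) (nat_lit 0) (nat_lit 0x7ffd37ac88) (nat_lit 5335200),
  Rx.mk (nat_lit 313) (nat_lit 1) (nat_lit 7) (nat_lit 4) (nat_lit 3) (nat_lit 303) (nat_lit 241) r0_303 r3_241 (nat_lit 0) (nat_lit 0) (nat_lit 0) (nat_lit 0x7da58729e8) (nat_lit 1155177504),
  Rx.mk (nat_lit 352) (nat_lit 0) (nat_lit 4) (nat_lit 5) (nat_lit 4) (nat_lit 359) (nat_lit 238) r0_359 r3_238 (nat_lit 0) (nat_lit 0) (nat_lit 0) (nat_lit 0x8000000000) (nat_lit 0),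
  Rx.mk (nat_lit 353) (nat_lit 1) (nat_lit 4) (nat_lit 5) (nat_lit 5) (nat_lit 302) (nat_lit 242) r0_302 r3_242 (nat_lit 0) (nat_lit 0) (nat_lit 0) (nat_lit 0x7efff78188) (nat_lit 490917024),
  Rx.mk (nat_lit 376) (nat_lit 0) (nat_lit 7) (nat_lit 5) (nat_lit 6) (nat_lit 300) (nat_lit 239) r0_300 r3_239 (nat_lit 0) (nat_lit 0) (nat_lit 0) (nat_lit 0x8000000000) (nat_lit 0),
  Rx.mk (nat_lit 377) (nat_lit 1) (nat_lit 7) (nat_lit 5) (nat_lit 7) (nat_lit 304) (nat_lit 243) r0_304 r3_243 (nat_lit 0) (nat_lit 0) (nat_lit 0) (nat_lit 0x7feb704910) (nat_lit 39424320)]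
noncomputable def e0_56 : List Rx := [
  Rx.mk (nat_lit 313) (nat_lit 1) (nat_lit 7) (nat_lit 4) (nat_lit 3) (nat_lit 315) (nat_lit 253) r0_315 r12_253 (nat_lit 0) (nat_lit 0) (nat_lit 0) (nat_lit 0x7ac9315222) (nat_lit 2559354408),
  Rx.mk (nat_lit 376) (nat_lit 0) (nat_lit 7) (nat_lit 5) (nat_lit 6) (nat_lit 314) (nat_lit 252) r0_314 r12_252 (nat_lit 0) (nat_lit 0) (nat_lit 0) (nat_lit 0x7c8c873b00) (nat_lit 1693965312),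
  Rx.mk (nat_lit 377) (nat_lit 1) (nat_lit 7) (nat_lit 5) (nat_lit 7) (nat_lit 316) (nat_lit 254) r0_316 r12_254 (nat_lit 0) (nat_lit 0) (nat_lit 0) (nat_lit 0x7ef9c72494) (nat_lit 502783632)]
noncomputable def e0_57 : List Rx := [
  Rx.mk (nat_lit 288) (nat_lit 0) (nat_lit 4) (nat_lit 4) (nat_lit 0) (nat_lit 329) (nat_lit 152) r0_329 r12_152 (nat_lit 0) (nat_lit 0) (nat_lit 0) (nat_lit 0x8000000000) (nat_lit 0),
  Rx.mk (nat_lit 289) (nat_lit 1) (nat_lit 4) (nat_lit 4) (nat_lit 1) (nat_lit 334) (nat_lit 153) r0_334 r12_153 (nat_lit 0) (nat_lit 0) (nat_lit 0) (nat_lit 0x7328f59d7e) (nat_lit 6302558808),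
  Rx.mk (nat_lit 291) (nat_lit 3) (nat_lit 4) (nat_lit 4) (nat_lit 1) (nat_lit 339) (nat_lit 154) r0_339 r12_154 (nat_lit 0) (nat_lit 0) (nat_lit 0) (nat_lit 0x8000000000) (nat_lit 0),
  Rx.mk (nat_lit 312) (nat_lit 0) (nat_lit 7) (nat_lit 4) (nat_lit 2) (nat_lit 331) (nat_lit 158) r0_331 r12_158 (nat_lit 0) (nat_lit 0) (nat_lit 0) (nat_lit 0x6fbb66b9da) (nat_lit 7985185416),
  Rx.mk (nat_lit 313) (nat_lit 1) (nat_lit 7) (nat_lit 4) (nat_lit 3) (nat_lit 336) (nat_lit 159) r0_336 r12_159 (nat_lit 0) (nat_lit 0) (nat_lit 0) (nat_lit 0x7a9bd7e7e6) (nat_lit 2646306936),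
  Rx.mk (nat_lit 352) (nat_lit 0) (nat_lit 4) (nat_lit 5) (nat_lit 4) (nat_lit 330) (nat_lit 155) r0_330 r12_155 (nat_lit 0) (nat_lit 0) (nat_lit 0) (nat_lit 0x7542556568) (nat_lit 5272199712),
  Rx.mk (nat_lit 353) (nat_lit 1) (nat_lit 4) (nat_lit 5) (nat_lit 5) (nat_lit 335) (nat_lit 156) r0_335 r12_156 (nat_lit 0) (nat_lit 0) (nat_lit 0) (nat_lit 0x7e0833bebc) (nat_lit 965980080),
  Rx.mk (nat_lit 355) (nat_lit 3) (nat_lit 4) (nat_lit 5) (nat_lit 5) (nat_lit 340) (nat_lit 157) r0_340 r12_157 (nat_lit 0) (nat_lit 0) (nat_lit 0) (nat_lit 0x7b4610a3b0) (nat_lit 2319924672),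
  Rx.mk (nat_lit 376) (nat_lit 0) (nat_lit 7) (nat_lit 5) (nat_lit 6) (nat_lit 332) (nat_lit 160) r0_332 r12_160 (nat_lit 0) (nat_lit 0) (nat_lit 0) (nat_lit 0x7dd134cee2) (nat_lit 1071428904),
  Rx.mk (nat_lit 377) (nat_lit 1) (nat_lit 7) (nat_lit 5) (nat_lit 7) (nat_lit 337) (nat_lit 161) r0_337 r12_161 (nat_lit 0) (nat_lit 0) (nat_lit 0) (nat_lit 0x7e78339e4e) (nat_lit 751232664),
  Rx.mk (nat_lit 504) (nat_lit 0) (nat_lit 7) (nat_lit 7) (nat_lit 6) (nat_lit 333) (nat_lit 162) r0_333 r12_162 (nat_lit 0) (nat_lit 0) (nat_lit 0) (nat_lit 0x7ac0cd7868) (nat_lit 2575441440),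
  Rx.mk (nat_lit 505) (nat_lit 1) (nat_lit 7) (nat_lit 7) (nat_lit 7) (nat_lit 338) (nat_lit 163) r0_338 r12_163 (nat_lit 0) (nat_lit 0) (nat_lit 0) (nat_lit 0x7e24231faa) (nat_lit 912417480)]
noncomputable def e0 : List (List Rx) := [e0_0, e0_1, e0_2, e0_3, e0_4, e0_5, e0_6, e0_7, e0_8, e0_9, e0_10, e0_11, e0_12, e0_13, e0_14, e0_15, e0_16, e0_17, e0_18, e0_19, e0_20, e0_21, e0_22, e0_23, e0_24, e0_25, e0_26, e0_27, e0_28, e0_29, e0_30, e0_31, e0_32, e0_33, e0_34, e0_35, e0_36, e0_37, e0_38, e0_39, e0_40, e0_41, e0_42, e0_43, e0_44, e0_45, e0_46, e0_47, e0_48, e0_49, e0_50, e0_51, e0_52, e0_53, e0_54, e0_55, e0_56, e0_57]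
noncomputable def e1_0 : List Rx := [
  Rx.mk (nat_lit 295) (nat_lit 7) (nat_lit 4) (nat_lit 4) (nat_lit 1) (nat_lit 2) (nat_lit 23) r1_2 r0_23 (nat_lit 0) (nat_lit 0) (nat_lit 0) (nat_lit 0x6facf0e146) (nat_lit 8012911608),
  Rx.mk (nat_lit 319) (nat_lit 7) (nat_lit 7) (nat_lit 4) (nat_lit 3) (nat_lit 5) (nat_lit 25) r1_5 r0_25 (nat_lit 0) (nat_lit 0) (nat_lit 0) (nat_lit 0x780ee6f982) (nat_lit 3898253736),
  Rx.mk (nat_lit 423) (nat_lit 7) (nat_lit 4) (nat_lit 6) (nat_lit 5) (nat_lit 3) (nat_lit 24) r1_3 r0_24 (nat_lit 0) (nat_lit 0) (nat_lit 0) (nat_lit 0x78202e24fe) (nat_lit 3865124952),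
  Rx.mk (nat_lit 436) (nat_lit 4) (nat_lit 6) (nat_lit 6) (nat_lit 6) (nat_lit 0) (nat_lit 22) r1_0 r0_22 (nat_lit 0) (nat_lit 0) (nat_lit 0) (nat_lit 0x76832bf6be) (nat_lit 4657025880),
  Rx.mk (nat_lit 438) (nat_lit 6) (nat_lit 6) (nat_lit 6) (nat_lit 7) (nat_lit 1) (nat_lit 29) r1_1 r0_29 (nat_lit 0) (nat_lit 0) (nat_lit 0) (nat_lit 0x75ecc41dd2) (nat_lit 4945413096),
  Rx.mk (nat_lit 439) (nat_lit 7) (nat_lit 6) (nat_lit 6) (nat_lit 7) (nat_lit 4) (nat_lit 28) r1_4 r0_28 (nat_lit 0) (nat_lit 0) (nat_lit 0) (nat_lit 0x7efe491c70) (nat_lit 494140608),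
  Rx.mk (nat_lit 447) (nat_lit 7) (nat_lit 7) (nat_lit 6) (nat_lit 7) (nat_lit 6) (nat_lit 27) r1_6 r0_27 (nat_lit 0) (nat_lit 0) (nat_lit 0) (nat_lit 0x7d16a418a8) (nat_lit 1429148448),
  Rx.mk (nat_lit 475) (nat_lit 3) (nat_lit 3) (nat_lit 7) (nat_lit 7) (nat_lit 9) (nat_lit 20) r1_9 r0_20 (nat_lit 0) (nat_lit 0) (nat_lit 0) (nat_lit 0x7ccb2590dc) (nat_lit 1573900848),
  Rx.mk (nat_lit 507) (nat_lit 3) (nat_lit 7) (nat_lit 7) (nat_lit 7) (nat_lit 8) (nat_lit 21) r1_8 r0_21 (nat_lit 0) (nat_lit 0) (nat_lit 0) (nat_lit 0x7c9e945a1c) (nat_lit 1659353904),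
  Rx.mk (nat_lit 511) (nat_lit 7) (nat_lit 7) (nat_lit 7) (nat_lit 7) (nat_lit 7) (nat_lit 26) r1_7 r0_26 (nat_lit 0) (nat_lit 0) (nat_lit 0) (nat_lit 0x7c8a811b64) (nat_lit 1697845968)]
noncomputable def e1_1 : List Rx := [
  Rx.mk (nat_lit 2) (nat_lit 2) (nat_lit 0) (nat_lit 0) (nat_lit 1) (nat_lit 21) (nat_lit 14) r1_21 r1_14 (nat_lit 0) (nat_lit 0) (nat_lit 0) (nat_lit 0x7511bccf22) (nat_lit 5365377576),
  Rx.mk (nat_lit 18) (nat_lit 2) (nat_lit 2) (nat_lit 0) (nat_lit 3) (nat_lit 23) (nat_lit 17) r1_23 r1_17 (nat_lit 0) (nat_lit 0) (nat_lit 0) (nat_lit 0x77664f23a8) (nat_lit 4221513504),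
  Rx.mk (nat_lit 146) (nat_lit 2) (nat_lit 2) (nat_lit 2) (nat_lit 7) (nat_lit 24) (nat_lit 19) r1_24 r1_19 (nat_lit 0) (nat_lit 0) (nat_lit 0) (nat_lit 0x7be9926af0) (nat_lit 2006417088),
  Rx.mk (nat_lit 150) (nat_lit 6) (nat_lit 2) (nat_lit 2) (nat_lit 7) (nat_lit 13) (nat_lit 27) r1_13 r1_27 (nat_lit 0) (nat_lit 0) (nat_lit 0) (nat_lit 0x7e13742aaa) (nat_lit 944406216),
  Rx.mk (nat_lit 182) (nat_lit 6) (nat_lit 6) (nat_lit 2) (nat_lit 7) (nat_lit 12) (nat_lit 28) r1_12 r1_28 (nat_lit 0) (nat_lit 0) (nat_lit 0) (nat_lit 0x7c9dd0a658) (nat_lit 1660819680),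
  Rx.mk (nat_lit 194) (nat_lit 2) (nat_lit 0) (nat_lit 3) (nat_lit 5) (nat_lit 22) (nat_lit 15) r1_22 r1_15 (nat_lit 0) (nat_lit 0) (nat_lit 0) (nat_lit 0x7413b350b8) (nat_lit 5852467296),
  Rx.mk (nat_lit 210) (nat_lit 2) (nat_lit 2) (nat_lit 3) (nat_lit 7) (nat_lit 25) (nat_lit 18) r1_25 r1_18 (nat_lit 0) (nat_lit 0) (nat_lit 0) (nat_lit 0x7cb7724c24) (nat_lit 1611674064),
  Rx.mk (nat_lit 216) (nat_lit 0) (nat_lit 3) (nat_lit 3) (nat_lit 6) (nat_lit 20) (nat_lit 10) r1_20 r1_10 (nat_lit 0) (nat_lit 0) (nat_lit 0) (nat_lit 0x712bfdeef6) (nat_lit 7278451128),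
  Rx.mk (nat_lit 218) (nat_lit 2) (nat_lit 3) (nat_lit 3) (nat_lit 7) (nat_lit 26) (nat_lit 16) r1_26 r1_16 (nat_lit 0) (nat_lit 0) (nat_lit 0) (nat_lit 0x7f02b315cc) (nat_lit 485677296),
  Rx.mk (nat_lit 219) (nat_lit 3) (nat_lit 3) (nat_lit 3) (nat_lit 7) (nat_lit 29) (nat_lit 11) r1_29 r1_11 (nat_lit 0) (nat_lit 0) (nat_lit 0) (nat_lit 0x763058a446) (nat_lit 4815835128),
  Rx.mk (nat_lit 295) (nat_lit 7) (nat_lit 4) (nat_lit 4) (nat_lit 1) (nat_lit 14) (nat_lit 21) r1_14 r1_21 (nat_lit 0) (nat_lit 0) (nat_lit 0) (nat_lit 0x7511bccf22) (nat_lit 5365377576),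
  Rx.mk (nat_lit 319) (nat_lit 7) (nat_lit 7) (nat_lit 4) (nat_lit 3) (nat_lit 17) (nat_lit 23) r1_17 r1_23 (nat_lit 0) (nat_lit 0) (nat_lit 0) (nat_lit 0x77664f23a8) (nat_lit 4221513504),
  Rx.mk (nat_lit 423) (nat_lit 7) (nat_lit 4) (nat_lit 6) (nat_lit 5) (nat_lit 15) (nat_lit 22) r1_15 r1_22 (nat_lit 0) (nat_lit 0) (nat_lit 0) (nat_lit 0x7413b350b8) (nat_lit 5852467296),
  Rx.mk (nat_lit 436) (nat_lit 4) (nat_lit 6) (nat_lit 6) (nat_lit 6) (nat_lit 10) (nat_lit 20) r1_10 r1_20 (nat_lit 0) (nat_lit 0) (nat_lit 0) (nat_lit 0x712bfdeef6) (nat_lit 7278451128),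
  Rx.mk (nat_lit 438) (nat_lit 6) (nat_lit 6) (nat_lit 6) (nat_lit 7) (nat_lit 11) (nat_lit 29) r1_11 r1_29 (nat_lit 0) (nat_lit 0) (nat_lit 0) (nat_lit 0x763058a446) (nat_lit 4815835128),
  Rx.mk (nat_lit 439) (nat_lit 7) (nat_lit 6) (nat_lit 6) (nat_lit 7) (nat_lit 16) (nat_lit 26) r1_16 r1_26 (nat_lit 0) (nat_lit 0) (nat_lit 0) (nat_lit 0x7f02b315cc) (nat_lit 485677296),
  Rx.mk (nat_lit 447) (nat_lit 7) (nat_lit 7) (nat_lit 6) (nat_lit 7) (nat_lit 18) (nat_lit 25) r1_18 r1_25 (nat_lit 0) (nat_lit 0) (nat_lit 0) (nat_lit 0x7cb7724c24) (nat_lit 1611674064),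
  Rx.mk (nat_lit 475) (nat_lit 3) (nat_lit 3) (nat_lit 7) (nat_lit 7) (nat_lit 28) (nat_lit 12) r1_28 r1_12 (nat_lit 0) (nat_lit 0) (nat_lit 0) (nat_lit 0x7c9dd0a658) (nat_lit 1660819680),
  Rx.mk (nat_lit 507) (nat_lit 3) (nat_lit 7) (nat_lit 7) (nat_lit 7) (nat_lit 27) (nat_lit 13) r1_27 r1_13 (nat_lit 0) (nat_lit 0) (nat_lit 0) (nat_lit 0x7e13742aaa) (nat_lit 944406216),
  Rx.mk (nat_lit 511) (nat_lit 7) (nat_lit 7) (nat_lit 7) (nat_lit 7) (nat_lit 19) (nat_lit 24) r1_19 r1_24 (nat_lit 0) (nat_lit 0) (nat_lit 0) (nat_lit 0x7be9926af0) (nat_lit 2006417088)]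
noncomputable def e1_2 : List Rx := [
  Rx.mk (nat_lit 2) (nat_lit 2) (nat_lit 0) (nat_lit 0) (nat_lit 1) (nat_lit 33) (nat_lit 16) r1_33 r2_16 (nat_lit 0) (nat_lit 0) (nat_lit 0) (nat_lit 0x70f45ca942) (nat_lit 7385115816),
  Rx.mk (nat_lit 18) (nat_lit 2) (nat_lit 2) (nat_lit 0) (nat_lit 3) (nat_lit 34) (nat_lit 19) r1_34 r2_19 (nat_lit 0) (nat_lit 0) (nat_lit 0) (nat_lit 0x7d5dee43be) (nat_lit 1292457816),
  Rx.mk (nat_lit 24) (nat_lit 0) (nat_lit 3) (nat_lit 0) (nat_lit 2) (nat_lit 31) (nat_lit 13) r1_31 r2_13 (nat_lit 0) (nat_lit 0) (nat_lit 0) (nat_lit 0x68c0f427fe) (nat_lit 11410512984),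
  Rx.mk (nat_lit 26) (nat_lit 2) (nat_lit 3) (nat_lit 0) (nat_lit 3) (nat_lit 36) (nat_lit 17) r1_36 r2_17 (nat_lit 0) (nat_lit 0) (nat_lit 0) (nat_lit 0x7e35c32598) (nat_lit 878623200),
  Rx.mk (nat_lit 146) (nat_lit 2) (nat_lit 2) (nat_lit 2) (nat_lit 7) (nat_lit 35) (nat_lit 20) r1_35 r2_20 (nat_lit 0) (nat_lit 0) (nat_lit 0) (nat_lit 0x7dad1d3080) (nat_lit 1140632064),
  Rx.mk (nat_lit 150) (nat_lit 6) (nat_lit 2) (nat_lit 2) (nat_lit 7) (nat_lit 30) (nat_lit 21) r1_30 r2_21 (nat_lit 0) (nat_lit 0) (nat_lit 0) (nat_lit 0x7de7ede33a) (nat_lit 1027859976),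
  Rx.mk (nat_lit 216) (nat_lit 0) (nat_lit 3) (nat_lit 3) (nat_lit 6) (nat_lit 32) (nat_lit 14) r1_32 r2_14 (nat_lit 0) (nat_lit 0) (nat_lit 0) (nat_lit 0x7d4e539d78) (nat_lit 1322377056),
  Rx.mk (nat_lit 218) (nat_lit 2) (nat_lit 3) (nat_lit 3) (nat_lit 7) (nat_lit 37) (nat_lit 18) r1_37 r2_18 (nat_lit 0) (nat_lit 0) (nat_lit 0) (nat_lit 0x7de79fe81a) (nat_lit 1028444040),
  Rx.mk (nat_lit 219) (nat_lit 3) (nat_lit 3) (nat_lit 3) (nat_lit 7) (nat_lit 38) (nat_lit 15) r1_38 r2_15 (nat_lit 0) (nat_lit 0) (nat_lit 0) (nat_lit 0x7dd4655bd6) (nat_lit 1065313080)]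
noncomputable def e1_3 : List Rx := [
  Rx.mk (nat_lit 295) (nat_lit 7) (nat_lit 4) (nat_lit 4) (nat_lit 1) (nat_lit 39) (nat_lit 13) r1_39 r3_13 (nat_lit 0) (nat_lit 0) (nat_lit 0) (nat_lit 0x8000000000) (nat_lit 0),
  Rx.mk (nat_lit 315) (nat_lit 3) (nat_lit 7) (nat_lit 4) (nat_lit 3) (nat_lit 46) (nat_lit 10) r1_46 r3_10 (nat_lit 0) (nat_lit 0) (nat_lit 0) (nat_lit 0x7c72d45648) (nat_lit 1743240096),
  Rx.mk (nat_lit 319) (nat_lit 7) (nat_lit 7) (nat_lit 4) (nat_lit 3) (nat_lit 43) (nat_lit 16) r1_43 r3_16 (nat_lit 0) (nat_lit 0) (nat_lit 0) (nat_lit 0x7d89c9a5dc) (nat_lit 1208366640),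
  Rx.mk (nat_lit 359) (nat_lit 7) (nat_lit 4) (nat_lit 5) (nat_lit 5) (nat_lit 40) (nat_lit 14) r1_40 r3_14 (nat_lit 0) (nat_lit 0) (nat_lit 0) (nat_lit 0x7ecc02e106) (nat_lit 590536440),
  Rx.mk (nat_lit 379) (nat_lit 3) (nat_lit 7) (nat_lit 5) (nat_lit 7) (nat_lit 47) (nat_lit 11) r1_47 r3_11 (nat_lit 0) (nat_lit 0) (nat_lit 0) (nat_lit 0x7f3b894830) (nat_lit 376698816),
  Rx.mk (nat_lit 383) (nat_lit 7) (nat_lit 7) (nat_lit 5) (nat_lit 7) (nat_lit 44) (nat_lit 17) r1_44 r3_17 (nat_lit 0) (nat_lit 0) (nat_lit 0) (nat_lit 0x7ed104b0e4) (nat_lit 580935888),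
  Rx.mk (nat_lit 423) (nat_lit 7) (nat_lit 4) (nat_lit 6) (nat_lit 5) (nat_lit 41) (nat_lit 15) r1_41 r3_15 (nat_lit 0) (nat_lit 0) (nat_lit 0) (nat_lit 0x7e2853bc9c) (nat_lit 904383792),
  Rx.mk (nat_lit 439) (nat_lit 7) (nat_lit 6) (nat_lit 6) (nat_lit 7) (nat_lit 42) (nat_lit 19) r1_42 r3_19 (nat_lit 0) (nat_lit 0) (nat_lit 0) (nat_lit 0x7efab4d5b8) (nat_lit 501003360),
  Rx.mk (nat_lit 447) (nat_lit 7) (nat_lit 7) (nat_lit 6) (nat_lit 7) (nat_lit 45) (nat_lit 18) r1_45 r3_18 (nat_lit 0) (nat_lit 0) (nat_lit 0) (nat_lit 0x7e3f27cf44) (nat_lit 860612688),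
  Rx.mk (nat_lit 475) (nat_lit 3) (nat_lit 3) (nat_lit 7) (nat_lit 7) (nat_lit 49) (nat_lit 9) r1_49 r3_9 (nat_lit 0) (nat_lit 0) (nat_lit 0) (nat_lit 0x7e2ce9f334) (nat_lit 895589136),
  Rx.mk (nat_lit 507) (nat_lit 3) (nat_lit 7) (nat_lit 7) (nat_lit 7) (nat_lit 48) (nat_lit 12) r1_48 r3_12 (nat_lit 0) (nat_lit 0) (nat_lit 0) (nat_lit 0x7ee53b2d68) (nat_lit 542179872)]
noncomputable def e1_4 : List Rx := [
  Rx.mk (nat_lit 295) (nat_lit 7) (nat_lit 4) (nat_lit 4) (nat_lit 1) (nat_lit 50) (nat_lit 16) r1_50 r4_16 (nat_lit 0) (nat_lit 0) (nat_lit 0) (nat_lit 0x6d02538dc6) (nat_lit 9321754104),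
  Rx.mk (nat_lit 315) (nat_lit 3) (nat_lit 7) (nat_lit 4) (nat_lit 3) (nat_lit 55) (nat_lit 14) r1_55 r4_14 (nat_lit 0) (nat_lit 0) (nat_lit 0) (nat_lit 0x7cf02600b0) (nat_lit 1502953920),
  Rx.mk (nat_lit 319) (nat_lit 7) (nat_lit 7) (nat_lit 4) (nat_lit 3) (nat_lit 53) (nat_lit 18) r1_53 r4_18 (nat_lit 0) (nat_lit 0) (nat_lit 0) (nat_lit 0x7dd783e9ea) (nat_lit 1059332040),
  Rx.mk (nat_lit 423) (nat_lit 7) (nat_lit 4) (nat_lit 6) (nat_lit 5) (nat_lit 51) (nat_lit 17) r1_51 r4_17 (nat_lit 0) (nat_lit 0) (nat_lit 0) (nat_lit 0x7e22f55288) (nat_lit 914677920),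
  Rx.mk (nat_lit 439) (nat_lit 7) (nat_lit 6) (nat_lit 6) (nat_lit 7) (nat_lit 52) (nat_lit 20) r1_52 r4_20 (nat_lit 0) (nat_lit 0) (nat_lit 0) (nat_lit 0x7eccb0762c) (nat_lit 589236336),
  Rx.mk (nat_lit 447) (nat_lit 7) (nat_lit 7) (nat_lit 6) (nat_lit 7) (nat_lit 54) (nat_lit 19) r1_54 r4_19 (nat_lit 0) (nat_lit 0) (nat_lit 0) (nat_lit 0x7e01526cd8) (nat_lit 979172064),
  Rx.mk (nat_lit 475) (nat_lit 3) (nat_lit 3) (nat_lit 7) (nat_lit 7) (nat_lit 57) (nat_lit 13) r1_57 r4_13 (nat_lit 0) (nat_lit 0) (nat_lit 0) (nat_lit 0x7df4fbd24e) (nat_lit 1002829464),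
  Rx.mk (nat_lit 507) (nat_lit 3) (nat_lit 7) (nat_lit 7) (nat_lit 7) (nat_lit 56) (nat_lit 15) r1_56 r4_15 (nat_lit 0) (nat_lit 0) (nat_lit 0) (nat_lit 0x7e11b186d6) (nat_lit 947781432)]
noncomputable def e1_5 : List Rx := [
  Rx.mk (nat_lit 88) (nat_lit 0) (nat_lit 3) (nat_lit 1) (nat_lit 6) (nat_lit 67) (nat_lit 67) r1_67 r3_67 (nat_lit 0) (nat_lit 0) (nat_lit 0) (nat_lit 0x7cedd90582) (nat_lit 1507365288),
  Rx.mk (nat_lit 91) (nat_lit 3) (nat_lit 3) (nat_lit 1) (nat_lit 7) (nat_lit 68) (nat_lit 68) r1_68 r3_68 (nat_lit 0) (nat_lit 0) (nat_lit 0) (nat_lit 0x7c2bd226b2) (nat_lit 1879391592),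
  Rx.mk (nat_lit 344) (nat_lit 0) (nat_lit 3) (nat_lit 5) (nat_lit 6) (nat_lit 66) (nat_lit 66) r1_66 r3_66 (nat_lit 0) (nat_lit 0) (nat_lit 0) (nat_lit 0x8000000000) (nat_lit 0)]
noncomputable def e1_6 : List Rx := [
  Rx.mk (nat_lit 66) (nat_lit 2) (nat_lit 0) (nat_lit 1) (nat_lit 5) (nat_lit 70) (nat_lit 75) r1_70 r0_75 (nat_lit 0) (nat_lit 0) (nat_lit 0) (nat_lit 0x7de3d424da) (nat_lit 1035722376),
  Rx.mk (nat_lit 88) (nat_lit 0) (nat_lit 3) (nat_lit 1) (nat_lit 6) (nat_lit 69) (nat_lit 76) r1_69 r0_76 (nat_lit 0) (nat_lit 0) (nat_lit 0) (nat_lit 0x7d345c1d0a) (nat_lit 1372165704),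
  Rx.mk (nat_lit 90) (nat_lit 2) (nat_lit 3) (nat_lit 1) (nat_lit 7) (nat_lit 71) (nat_lit 78) r1_71 r0_78 (nat_lit 0) (nat_lit 0) (nat_lit 0) (nat_lit 0x7ea4197fc4) (nat_lit 667062864),
  Rx.mk (nat_lit 91) (nat_lit 3) (nat_lit 3) (nat_lit 1) (nat_lit 7) (nat_lit 72) (nat_lit 77) r1_72 r0_77 (nat_lit 0) (nat_lit 0) (nat_lit 0) (nat_lit 0x7d7df4633c) (nat_lit 1231055280)]
noncomputable def e1_7 : List Rx := [
  Rx.mk (nat_lit 2) (nat_lit 2) (nat_lit 0) (nat_lit 0) (nat_lit 1) (nat_lit 75) (nat_lit 73) r1_75 r1_73 (nat_lit 0) (nat_lit 0) (nat_lit 0) (nat_lit 0x762c24a78a) (nat_lit 4823894088),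
  Rx.mk (nat_lit 18) (nat_lit 2) (nat_lit 2) (nat_lit 0) (nat_lit 3) (nat_lit 77) (nat_lit 82) r1_77 r1_82 (nat_lit 0) (nat_lit 0) (nat_lit 0) (nat_lit 0x7d3afc3302) (nat_lit 1359462312),
  Rx.mk (nat_lit 24) (nat_lit 0) (nat_lit 3) (nat_lit 0) (nat_lit 2) (nat_lit 73) (nat_lit 75) r1_73 r1_75 (nat_lit 0) (nat_lit 0) (nat_lit 0) (nat_lit 0x762c24a78a) (nat_lit 4823894088),
  Rx.mk (nat_lit 26) (nat_lit 2) (nat_lit 3) (nat_lit 0) (nat_lit 3) (nat_lit 80) (nat_lit 80) r1_80 r1_80 (nat_lit 0) (nat_lit 0) (nat_lit 0) (nat_lit 0x7e4e579c38) (nat_lit 831493728),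
  Rx.mk (nat_lit 27) (nat_lit 3) (nat_lit 3) (nat_lit 0) (nat_lit 3) (nat_lit 82) (nat_lit 77) r1_82 r1_77 (nat_lit 0) (nat_lit 0) (nat_lit 0) (nat_lit 0x7d3afc3302) (nat_lit 1359462312),
  Rx.mk (nat_lit 66) (nat_lit 2) (nat_lit 0) (nat_lit 1) (nat_lit 5) (nat_lit 76) (nat_lit 74) r1_76 r1_74 (nat_lit 0) (nat_lit 0) (nat_lit 0) (nat_lit 0x7df46bdb4e) (nat_lit 1003907736),
  Rx.mk (nat_lit 82) (nat_lit 2) (nat_lit 2) (nat_lit 1) (nat_lit 7) (nat_lit 78) (nat_lit 83) r1_78 r1_83 (nat_lit 0) (nat_lit 0) (nat_lit 0) (nat_lit 0x7deae81394) (nat_lit 1022151312),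
  Rx.mk (nat_lit 88) (nat_lit 0) (nat_lit 3) (nat_lit 1) (nat_lit 6) (nat_lit 74) (nat_lit 76) r1_74 r1_76 (nat_lit 0) (nat_lit 0) (nat_lit 0) (nat_lit 0x7df46bdb4e) (nat_lit 1003907736),
  Rx.mk (nat_lit 90) (nat_lit 2) (nat_lit 3) (nat_lit 1) (nat_lit 7) (nat_lit 81) (nat_lit 81) r1_81 r1_81 (nat_lit 0) (nat_lit 0) (nat_lit 0) (nat_lit 0x7e40235f8a) (nat_lit 858728520),
  Rx.mk (nat_lit 91) (nat_lit 3) (nat_lit 3) (nat_lit 1) (nat_lit 7) (nat_lit 83) (nat_lit 78) r1_83 r1_78 (nat_lit 0) (nat_lit 0) (nat_lit 0) (nat_lit 0x7deae81394) (nat_lit 1022151312),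
  Rx.mk (nat_lit 146) (nat_lit 2) (nat_lit 2) (nat_lit 2) (nat_lit 7) (nat_lit 79) (nat_lit 84) r1_79 r1_84 (nat_lit 0) (nat_lit 0) (nat_lit 0) (nat_lit 0x7df79428c6) (nat_lit 997853688),
  Rx.mk (nat_lit 219) (nat_lit 3) (nat_lit 3) (nat_lit 3) (nat_lit 7) (nat_lit 84) (nat_lit 79) r1_84 r1_79 (nat_lit 0) (nat_lit 0) (nat_lit 0) (nat_lit 0x7df79428c6) (nat_lit 997853688)]
noncomputable def e1_8 : List Rx := [
  Rx.mk (nat_lit 88) (nat_lit 0) (nat_lit 3) (nat_lit 1) (nat_lit 6) (nat_lit 85) (nat_lit 71) r1_85 r4_71 (nat_lit 0) (nat_lit 0) (nat_lit 0) (nat_lit 0x7de3bb066c) (nat_lit 1035910512),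
  Rx.mk (nat_lit 90) (nat_lit 2) (nat_lit 3) (nat_lit 1) (nat_lit 7) (nat_lit 86) (nat_lit 73) r1_86 r4_73 (nat_lit 0) (nat_lit 0) (nat_lit 0) (nat_lit 0x7eb127ced2) (nat_lit 642029544),
  Rx.mk (nat_lit 91) (nat_lit 3) (nat_lit 3) (nat_lit 1) (nat_lit 7) (nat_lit 87) (nat_lit 72) r1_87 r4_72 (nat_lit 0) (nat_lit 0) (nat_lit 0) (nat_lit 0x7df5700b0a) (nat_lit 1001958984)]
noncomputable def e1_9 : List Rx := [
  Rx.mk (nat_lit 344) (nat_lit 0) (nat_lit 3) (nat_lit 5) (nat_lit 6) (nat_lit 88) (nat_lit 7) r1_88 r5_7 (nat_lit 0) (nat_lit 0) (nat_lit 0) (nat_lit 0x7e6bb54640) (nat_lit 775187712),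
  Rx.mk (nat_lit 347) (nat_lit 3) (nat_lit 3) (nat_lit 5) (nat_lit 7) (nat_lit 90) (nat_lit 8) r1_90 r5_8 (nat_lit 0) (nat_lit 0) (nat_lit 0) (nat_lit 0x7e406c7af8) (nat_lit 858180960),
  Rx.mk (nat_lit 379) (nat_lit 3) (nat_lit 7) (nat_lit 5) (nat_lit 7) (nat_lit 89) (nat_lit 9) r1_89 r5_9 (nat_lit 0) (nat_lit 0) (nat_lit 0) (nat_lit 0x7f31e242aa) (nat_lit 395206344)]
noncomputable def e1_10 : List Rx := [
  Rx.mk (nat_lit 292) (nat_lit 4) (nat_lit 4) (nat_lit 4) (nat_lit 0) (nat_lit 94) (nat_lit 111) r1_94 r0_111 (nat_lit 0) (nat_lit 0) (nat_lit 0) (nat_lit 0x7fc651db1c) (nat_lit 110595888),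
  Rx.mk (nat_lit 295) (nat_lit 7) (nat_lit 4) (nat_lit 4) (nat_lit 1) (nat_lit 99) (nat_lit 112) r1_99 r0_112 (nat_lit 0) (nat_lit 0) (nat_lit 0) (nat_lit 0x6fba2ced78) (nat_lit 7987535712),
  Rx.mk (nat_lit 319) (nat_lit 7) (nat_lit 7) (nat_lit 4) (nat_lit 3) (nat_lit 103) (nat_lit 113) r1_103 r0_113 (nat_lit 0) (nat_lit 0) (nat_lit 0) (nat_lit 0x6f612c3ddc) (nat_lit 8158189104),
  Rx.mk (nat_lit 356) (nat_lit 4) (nat_lit 4) (nat_lit 5) (nat_lit 4) (nat_lit 95) (nat_lit 114) r1_95 r0_114 (nat_lit 0) (nat_lit 0) (nat_lit 0) (nat_lit 0x7c02729cd4) (nat_lit 1958720400),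
  Rx.mk (nat_lit 359) (nat_lit 7) (nat_lit 4) (nat_lit 5) (nat_lit 5) (nat_lit 100) (nat_lit 115) r1_100 r0_115 (nat_lit 0) (nat_lit 0) (nat_lit 0) (nat_lit 0x7d6029a006) (nat_lit 1288178424),
  Rx.mk (nat_lit 383) (nat_lit 7) (nat_lit 7) (nat_lit 5) (nat_lit 7) (nat_lit 104) (nat_lit 116) r1_104 r0_116 (nat_lit 0) (nat_lit 0) (nat_lit 0) (nat_lit 0x7daa421e34) (nat_lit 1146107664),
  Rx.mk (nat_lit 420) (nat_lit 4) (nat_lit 4) (nat_lit 6) (nat_lit 4) (nat_lit 96) (nat_lit 118) r1_96 r0_118 (nat_lit 0) (nat_lit 0) (nat_lit 0) (nat_lit 0x76fc4b844c) (nat_lit 4424784624),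
  Rx.mk (nat_lit 423) (nat_lit 7) (nat_lit 4) (nat_lit 6) (nat_lit 5) (nat_lit 101) (nat_lit 119) r1_101 r0_119 (nat_lit 0) (nat_lit 0) (nat_lit 0) (nat_lit 0x7ddf4a4d7c) (nat_lit 1044424368),
  Rx.mk (nat_lit 436) (nat_lit 4) (nat_lit 6) (nat_lit 6) (nat_lit 6) (nat_lit 97) (nat_lit 121) r1_97 r0_121 (nat_lit 0) (nat_lit 0) (nat_lit 0) (nat_lit 0x7d51e2a484) (nat_lit 1315553616),
  Rx.mk (nat_lit 438) (nat_lit 6) (nat_lit 6) (nat_lit 6) (nat_lit 7) (nat_lit 98) (nat_lit 123) r1_98 r0_123 (nat_lit 0) (nat_lit 0) (nat_lit 0) (nat_lit 0x7dd1bc8666) (nat_lit 1070412408),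
  Rx.mk (nat_lit 439) (nat_lit 7) (nat_lit 6) (nat_lit 6) (nat_lit 7) (nat_lit 102) (nat_lit 122) r1_102 r0_122 (nat_lit 0) (nat_lit 0) (nat_lit 0) (nat_lit 0x7df6bc3646) (nat_lit 999471096),
  Rx.mk (nat_lit 447) (nat_lit 7) (nat_lit 7) (nat_lit 6) (nat_lit 7) (nat_lit 105) (nat_lit 120) r1_105 r0_120 (nat_lit 0) (nat_lit 0) (nat_lit 0) (nat_lit 0x7dd7b446e4) (nat_lit 1058969808),
  Rx.mk (nat_lit 511) (nat_lit 7) (nat_lit 7) (nat_lit 7) (nat_lit 7) (nat_lit 106) (nat_lit 117) r1_106 r0_117 (nat_lit 0) (nat_lit 0) (nat_lit 0) (nat_lit 0x7d94a957d6) (nat_lit 1187517240)]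
noncomputable def e1_11 : List Rx := [
  Rx.mk (nat_lit 292) (nat_lit 4) (nat_lit 4) (nat_lit 4) (nat_lit 0) (nat_lit 107) (nat_lit 11) r1_107 r6_11 (nat_lit 0) (nat_lit 0) (nat_lit 0) (nat_lit 0x55073477b4) (nat_lit 21092881680),
  Rx.mk (nat_lit 295) (nat_lit 7) (nat_lit 4) (nat_lit 4) (nat_lit 1) (nat_lit 111) (nat_lit 14) r1_111 r6_14 (nat_lit 0) (nat_lit 0) (nat_lit 0) (nat_lit 0x67e0964ebc) (nat_lit 11840712624),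
  Rx.mk (nat_lit 319) (nat_lit 7) (nat_lit 7) (nat_lit 4) (nat_lit 3) (nat_lit 114) (nat_lit 16) r1_114 r6_16 (nat_lit 0) (nat_lit 0) (nat_lit 0) (nat_lit 0x6d67741b58) (nat_lit 9127853280),
  Rx.mk (nat_lit 420) (nat_lit 4) (nat_lit 4) (nat_lit 6) (nat_lit 4) (nat_lit 108) (nat_lit 12) r1_108 r6_12 (nat_lit 0) (nat_lit 0) (nat_lit 0) (nat_lit 0x6c89b37840) (nat_lit 9553040640),
  Rx.mk (nat_lit 423) (nat_lit 7) (nat_lit 4) (nat_lit 6) (nat_lit 5) (nat_lit 112) (nat_lit 15) r1_112 r6_15 (nat_lit 0) (nat_lit 0) (nat_lit 0) (nat_lit 0x7d6284da50) (nat_lit 1283660352),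
  Rx.mk (nat_lit 436) (nat_lit 4) (nat_lit 6) (nat_lit 6) (nat_lit 6) (nat_lit 109) (nat_lit 13) r1_109 r6_13 (nat_lit 0) (nat_lit 0) (nat_lit 0) (nat_lit 0x7c894ceea8) (nat_lit 1700154144),
  Rx.mk (nat_lit 438) (nat_lit 6) (nat_lit 6) (nat_lit 6) (nat_lit 7) (nat_lit 110) (nat_lit 20) r1_110 r6_20 (nat_lit 0) (nat_lit 0) (nat_lit 0) (nat_lit 0x7de4f8f28c) (nat_lit 1033529328),
  Rx.mk (nat_lit 439) (nat_lit 7) (nat_lit 6) (nat_lit 6) (nat_lit 7) (nat_lit 113) (nat_lit 19) r1_113 r6_19 (nat_lit 0) (nat_lit 0) (nat_lit 0) (nat_lit 0x7de1bde640) (nat_lit 1039723776),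
  Rx.mk (nat_lit 447) (nat_lit 7) (nat_lit 7) (nat_lit 6) (nat_lit 7) (nat_lit 115) (nat_lit 18) r1_115 r6_18 (nat_lit 0) (nat_lit 0) (nat_lit 0) (nat_lit 0x7da9ea63b0) (nat_lit 1146764736),
  Rx.mk (nat_lit 511) (nat_lit 7) (nat_lit 7) (nat_lit 7) (nat_lit 7) (nat_lit 116) (nat_lit 17) r1_116 r6_17 (nat_lit 0) (nat_lit 0) (nat_lit 0) (nat_lit 0x7ce256fdae) (nat_lit 1529430552)]
noncomputable def e1_12 : List Rx := [
  Rx.mk (nat_lit 292) (nat_lit 4) (nat_lit 4) (nat_lit 4) (nat_lit 0) (nat_lit 117) (nat_lit 117) r1_117 r1_117 (nat_lit 0) (nat_lit 0) (nat_lit 0) (nat_lit 0x7c410b530a) (nat_lit 1838698056),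
  Rx.mk (nat_lit 293) (nat_lit 5) (nat_lit 4) (nat_lit 4) (nat_lit 1) (nat_lit 121) (nat_lit 118) r1_121 r1_118 (nat_lit 0) (nat_lit 0) (nat_lit 0) (nat_lit 0x7ce0ba377c) (nat_lit 1532522160),
  Rx.mk (nat_lit 295) (nat_lit 7) (nat_lit 4) (nat_lit 4) (nat_lit 1) (nat_lit 126) (nat_lit 119) r1_126 r1_119 (nat_lit 0) (nat_lit 0) (nat_lit 0) (nat_lit 0x7ca72d7082) (nat_lit 1642868136),
  Rx.mk (nat_lit 319) (nat_lit 7) (nat_lit 7) (nat_lit 4) (nat_lit 3) (nat_lit 128) (nat_lit 120) r1_128 r1_120 (nat_lit 0) (nat_lit 0) (nat_lit 0) (nat_lit 0x7d10ae380c) (nat_lit 1440577008),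
  Rx.mk (nat_lit 356) (nat_lit 4) (nat_lit 4) (nat_lit 5) (nat_lit 4) (nat_lit 118) (nat_lit 121) r1_118 r1_121 (nat_lit 0) (nat_lit 0) (nat_lit 0) (nat_lit 0x7ce0ba377c) (nat_lit 1532522160),
  Rx.mk (nat_lit 357) (nat_lit 5) (nat_lit 4) (nat_lit 5) (nat_lit 5) (nat_lit 122) (nat_lit 122) r1_122 r1_122 (nat_lit 0) (nat_lit 0) (nat_lit 0) (nat_lit 0x7de869fb78) (nat_lit 1026930528),
  Rx.mk (nat_lit 359) (nat_lit 7) (nat_lit 4) (nat_lit 5) (nat_lit 5) (nat_lit 127) (nat_lit 123) r1_127 r1_123 (nat_lit 0) (nat_lit 0) (nat_lit 0) (nat_lit 0x7dead0d508) (nat_lit 1022325408),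
  Rx.mk (nat_lit 383) (nat_lit 7) (nat_lit 7) (nat_lit 5) (nat_lit 7) (nat_lit 129) (nat_lit 124) r1_129 r1_124 (nat_lit 0) (nat_lit 0) (nat_lit 0) (nat_lit 0x7de5b9a680) (nat_lit 1032086016),
  Rx.mk (nat_lit 420) (nat_lit 4) (nat_lit 4) (nat_lit 6) (nat_lit 4) (nat_lit 119) (nat_lit 126) r1_119 r1_126 (nat_lit 0) (nat_lit 0) (nat_lit 0) (nat_lit 0x7ca72d7082) (nat_lit 1642868136),
  Rx.mk (nat_lit 421) (nat_lit 5) (nat_lit 4) (nat_lit 6) (nat_lit 5) (nat_lit 123) (nat_lit 127) r1_123 r1_127 (nat_lit 0) (nat_lit 0) (nat_lit 0) (nat_lit 0x7dead0d508) (nat_lit 1022325408),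
  Rx.mk (nat_lit 436) (nat_lit 4) (nat_lit 6) (nat_lit 6) (nat_lit 6) (nat_lit 120) (nat_lit 128) r1_120 r1_128 (nat_lit 0) (nat_lit 0) (nat_lit 0) (nat_lit 0x7d10ae380c) (nat_lit 1440577008),
  Rx.mk (nat_lit 437) (nat_lit 5) (nat_lit 6) (nat_lit 6) (nat_lit 7) (nat_lit 124) (nat_lit 129) r1_124 r1_129 (nat_lit 0) (nat_lit 0) (nat_lit 0) (nat_lit 0x7de5b9a680) (nat_lit 1032086016),
  Rx.mk (nat_lit 438) (nat_lit 6) (nat_lit 6) (nat_lit 6) (nat_lit 7) (nat_lit 125) (nat_lit 130) r1_125 r1_130 (nat_lit 0) (nat_lit 0) (nat_lit 0) (nat_lit 0x7de650bd0e) (nat_lit 1030954392),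
  Rx.mk (nat_lit 511) (nat_lit 7) (nat_lit 7) (nat_lit 7) (nat_lit 7) (nat_lit 130) (nat_lit 125) r1_130 r1_125 (nat_lit 0) (nat_lit 0) (nat_lit 0) (nat_lit 0x7de650bd0e) (nat_lit 1030954392)]
noncomputable def e1_13 : List Rx := [
  Rx.mk (nat_lit 292) (nat_lit 4) (nat_lit 4) (nat_lit 4) (nat_lit 0) (nat_lit 131) (nat_lit 15) r1_131 r7_15 (nat_lit 0) (nat_lit 0) (nat_lit 0) (nat_lit 0x3a4548f130) (nat_lit 34226891712),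
  Rx.mk (nat_lit 293) (nat_lit 5) (nat_lit 4) (nat_lit 4) (nat_lit 1) (nat_lit 134) (nat_lit 18) r1_134 r7_18 (nat_lit 0) (nat_lit 0) (nat_lit 0) (nat_lit 0x713c198d2c) (nat_lit 7247565936),
  Rx.mk (nat_lit 295) (nat_lit 7) (nat_lit 4) (nat_lit 4) (nat_lit 1) (nat_lit 138) (nat_lit 21) r1_138 r7_21 (nat_lit 0) (nat_lit 0) (nat_lit 0) (nat_lit 0x6d86155126) (nat_lit 9069123960),
  Rx.mk (nat_lit 319) (nat_lit 7) (nat_lit 7) (nat_lit 4) (nat_lit 3) (nat_lit 139) (nat_lit 22) r1_139 r7_22 (nat_lit 0) (nat_lit 0) (nat_lit 0) (nat_lit 0x78d44382f4) (nat_lit 3519833616),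
  Rx.mk (nat_lit 420) (nat_lit 4) (nat_lit 4) (nat_lit 6) (nat_lit 4) (nat_lit 132) (nat_lit 16) r1_132 r7_16 (nat_lit 0) (nat_lit 0) (nat_lit 0) (nat_lit 0x719cb8e2d6) (nat_lit 7062302520),
  Rx.mk (nat_lit 421) (nat_lit 5) (nat_lit 4) (nat_lit 6) (nat_lit 5) (nat_lit 135) (nat_lit 19) r1_135 r7_19 (nat_lit 0) (nat_lit 0) (nat_lit 0) (nat_lit 0x7dcb8c896c) (nat_lit 1082276208),
  Rx.mk (nat_lit 436) (nat_lit 4) (nat_lit 6) (nat_lit 6) (nat_lit 6) (nat_lit 133) (nat_lit 17) r1_133 r7_17 (nat_lit 0) (nat_lit 0) (nat_lit 0) (nat_lit 0x7d4b722b92) (nat_lit 1327900392),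
  Rx.mk (nat_lit 437) (nat_lit 5) (nat_lit 6) (nat_lit 6) (nat_lit 7) (nat_lit 136) (nat_lit 20) r1_136 r7_20 (nat_lit 0) (nat_lit 0) (nat_lit 0) (nat_lit 0x7ddfbee632) (nat_lit 1043551080),
  Rx.mk (nat_lit 438) (nat_lit 6) (nat_lit 6) (nat_lit 6) (nat_lit 7) (nat_lit 137) (nat_lit 24) r1_137 r7_24 (nat_lit 0) (nat_lit 0) (nat_lit 0) (nat_lit 0x7dd37a4a88) (nat_lit 1067073696),
  Rx.mk (nat_lit 511) (nat_lit 7) (nat_lit 7) (nat_lit 7) (nat_lit 7) (nat_lit 140) (nat_lit 23) r1_140 r7_23 (nat_lit 0) (nat_lit 0) (nat_lit 0) (nat_lit 0x7d782dbfac) (nat_lit 1242130032)]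
noncomputable def e1_14 : List Rx := [
  Rx.mk (nat_lit 150) (nat_lit 6) (nat_lit 2) (nat_lit 2) (nat_lit 7) (nat_lit 146) (nat_lit 101) r1_146 r7_101 (nat_lit 0) (nat_lit 0) (nat_lit 0) (nat_lit 0x7db6f07342) (nat_lit 1121793192),
  Rx.mk (nat_lit 182) (nat_lit 6) (nat_lit 6) (nat_lit 2) (nat_lit 7) (nat_lit 145) (nat_lit 100) r1_145 r7_100 (nat_lit 0) (nat_lit 0) (nat_lit 0) (nat_lit 0x7dec661bb2) (nat_lit 1019289960),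
  Rx.mk (nat_lit 292) (nat_lit 4) (nat_lit 4) (nat_lit 4) (nat_lit 0) (nat_lit 141) (nat_lit 90) r1_141 r7_90 (nat_lit 0) (nat_lit 0) (nat_lit 0) (nat_lit 0x3f2c1ddefa) (nat_lit 31820882184),
  Rx.mk (nat_lit 295) (nat_lit 7) (nat_lit 4) (nat_lit 4) (nat_lit 1) (nat_lit 147) (nat_lit 91) r1_147 r7_91 (nat_lit 0) (nat_lit 0) (nat_lit 0) (nat_lit 0x6698457512) (nat_lit 12470224104),
  Rx.mk (nat_lit 319) (nat_lit 7) (nat_lit 7) (nat_lit 4) (nat_lit 3) (nat_lit 150) (nat_lit 92) r1_150 r7_92 (nat_lit 0) (nat_lit 0) (nat_lit 0) (nat_lit 0x6657bb3df6) (nat_lit 12593972664),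
  Rx.mk (nat_lit 420) (nat_lit 4) (nat_lit 4) (nat_lit 6) (nat_lit 4) (nat_lit 142) (nat_lit 94) r1_142 r7_94 (nat_lit 0) (nat_lit 0) (nat_lit 0) (nat_lit 0x60f77387d2) (nat_lit 15232846824),
  Rx.mk (nat_lit 423) (nat_lit 7) (nat_lit 4) (nat_lit 6) (nat_lit 5) (nat_lit 148) (nat_lit 95) r1_148 r7_95 (nat_lit 0) (nat_lit 0) (nat_lit 0) (nat_lit 0x7d04f5d39e) (nat_lit 1463049432),
  Rx.mk (nat_lit 436) (nat_lit 4) (nat_lit 6) (nat_lit 6) (nat_lit 6) (nat_lit 143) (nat_lit 97) r1_143 r7_97 (nat_lit 0) (nat_lit 0) (nat_lit 0) (nat_lit 0x79f20f451a) (nat_lit 2971849608),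
  Rx.mk (nat_lit 438) (nat_lit 6) (nat_lit 6) (nat_lit 6) (nat_lit 7) (nat_lit 144) (nat_lit 99) r1_144 r7_99 (nat_lit 0) (nat_lit 0) (nat_lit 0) (nat_lit 0x7dd6fab27e) (nat_lit 1060359768),
  Rx.mk (nat_lit 439) (nat_lit 7) (nat_lit 6) (nat_lit 6) (nat_lit 7) (nat_lit 149) (nat_lit 98) r1_149 r7_98 (nat_lit 0) (nat_lit 0) (nat_lit 0) (nat_lit 0x7df4f572b4) (nat_lit 1002877200),
  Rx.mk (nat_lit 447) (nat_lit 7) (nat_lit 7) (nat_lit 6) (nat_lit 7) (nat_lit 151) (nat_lit 96) r1_151 r7_96 (nat_lit 0) (nat_lit 0) (nat_lit 0) (nat_lit 0x7d83c7c600) (nat_lit 1219885056),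
  Rx.mk (nat_lit 511) (nat_lit 7) (nat_lit 7) (nat_lit 7) (nat_lit 7) (nat_lit 152) (nat_lit 93) r1_152 r7_93 (nat_lit 0) (nat_lit 0) (nat_lit 0) (nat_lit 0x7cef2530be) (nat_lit 1504877400)]
noncomputable def e1_15 : List Rx := [
  Rx.mk (nat_lit 150) (nat_lit 6) (nat_lit 2) (nat_lit 2) (nat_lit 7) (nat_lit 153) (nat_lit 1) r1_153 r8_1 (nat_lit 0) (nat_lit 0) (nat_lit 0) (nat_lit 0x7de94bad5c) (nat_lit 1025240112)]
noncomputable def e1_16 : List Rx := [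
  Rx.mk (nat_lit 295) (nat_lit 7) (nat_lit 4) (nat_lit 4) (nat_lit 1) (nat_lit 154) (nat_lit 107) r1_154 r4_107 (nat_lit 0) (nat_lit 0) (nat_lit 0) (nat_lit 0x74634ad6f0) (nat_lit 5699858112),
  Rx.mk (nat_lit 319) (nat_lit 7) (nat_lit 7) (nat_lit 4) (nat_lit 3) (nat_lit 158) (nat_lit 108) r1_158 r4_108 (nat_lit 0) (nat_lit 0) (nat_lit 0) (nat_lit 0x727dbfd186) (nat_lit 6630836472),
  Rx.mk (nat_lit 359) (nat_lit 7) (nat_lit 4) (nat_lit 5) (nat_lit 5) (nat_lit 155) (nat_lit 109) r1_155 r4_109 (nat_lit 0) (nat_lit 0) (nat_lit 0) (nat_lit 0x7dc2547cf6) (nat_lit 1099952568),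
  Rx.mk (nat_lit 383) (nat_lit 7) (nat_lit 7) (nat_lit 5) (nat_lit 7) (nat_lit 159) (nat_lit 110) r1_159 r4_110 (nat_lit 0) (nat_lit 0) (nat_lit 0) (nat_lit 0x7dbbbc4680) (nat_lit 1112596992),
  Rx.mk (nat_lit 423) (nat_lit 7) (nat_lit 4) (nat_lit 6) (nat_lit 5) (nat_lit 156) (nat_lit 111) r1_156 r4_111 (nat_lit 0) (nat_lit 0) (nat_lit 0) (nat_lit 0x7e11d58496) (nat_lit 947511864),
  Rx.mk (nat_lit 439) (nat_lit 7) (nat_lit 6) (nat_lit 6) (nat_lit 7) (nat_lit 157) (nat_lit 113) r1_157 r4_113 (nat_lit 0) (nat_lit 0) (nat_lit 0) (nat_lit 0x7df3f3e2ce) (nat_lit 1004806296),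
  Rx.mk (nat_lit 447) (nat_lit 7) (nat_lit 7) (nat_lit 6) (nat_lit 7) (nat_lit 160) (nat_lit 112) r1_160 r4_112 (nat_lit 0) (nat_lit 0) (nat_lit 0) (nat_lit 0x7dbe303f3e) (nat_lit 1107893592)]
noncomputable def e1_17 : List Rx := [
  Rx.mk (nat_lit 295) (nat_lit 7) (nat_lit 4) (nat_lit 4) (nat_lit 1) (nat_lit 161) (nat_lit 5) r1_161 r9_5 (nat_lit 0) (nat_lit 0) (nat_lit 0) (nat_lit 0x6ef8548bc0) (nat_lit 8359213824),
  Rx.mk (nat_lit 319) (nat_lit 7) (nat_lit 7) (nat_lit 4) (nat_lit 3) (nat_lit 164) (nat_lit 7) r1_164 r9_7 (nat_lit 0) (nat_lit 0) (nat_lit 0) (nat_lit 0x7303d06ff6) (nat_lit 6373780920),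
  Rx.mk (nat_lit 423) (nat_lit 7) (nat_lit 4) (nat_lit 6) (nat_lit 5) (nat_lit 162) (nat_lit 6) r1_162 r9_6 (nat_lit 0) (nat_lit 0) (nat_lit 0) (nat_lit 0x7d8f13d134) (nat_lit 1198224144),
  Rx.mk (nat_lit 439) (nat_lit 7) (nat_lit 6) (nat_lit 6) (nat_lit 7) (nat_lit 163) (nat_lit 9) r1_163 r9_9 (nat_lit 0) (nat_lit 0) (nat_lit 0) (nat_lit 0x7dfc5f3c10) (nat_lit 988663104),
  Rx.mk (nat_lit 447) (nat_lit 7) (nat_lit 7) (nat_lit 6) (nat_lit 7) (nat_lit 165) (nat_lit 8) r1_165 r9_8 (nat_lit 0) (nat_lit 0) (nat_lit 0) (nat_lit 0x7da7a24834) (nat_lit 1151139600)]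
noncomputable def e1_18 : List Rx := [
  Rx.mk (nat_lit 319) (nat_lit 7) (nat_lit 7) (nat_lit 4) (nat_lit 3) (nat_lit 166) (nat_lit 2) r1_166 r10_2 (nat_lit 0) (nat_lit 0) (nat_lit 0) (nat_lit 0x7d62cfd5a0) (nat_lit 1283098752),
  Rx.mk (nat_lit 383) (nat_lit 7) (nat_lit 7) (nat_lit 5) (nat_lit 7) (nat_lit 167) (nat_lit 3) r1_167 r10_3 (nat_lit 0) (nat_lit 0) (nat_lit 0) (nat_lit 0x7dfa55bcaa) (nat_lit 992569032),
  Rx.mk (nat_lit 447) (nat_lit 7) (nat_lit 7) (nat_lit 6) (nat_lit 7) (nat_lit 168) (nat_lit 4) r1_168 r10_4 (nat_lit 0) (nat_lit 0) (nat_lit 0) (nat_lit 0x7ddc34bed8) (nat_lit 1050338016)]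
noncomputable def e1_19 : List Rx := [
  Rx.mk (nat_lit 0) (nat_lit 0) (nat_lit 0) (nat_lit 0) (nat_lit 0) (nat_lit 170) (nat_lit 40) r1_170 r8_40 (nat_lit 0) (nat_lit 0) (nat_lit 0) (nat_lit 0x26a0315650) (nat_lit 43869653568),
  Rx.mk (nat_lit 2) (nat_lit 2) (nat_lit 0) (nat_lit 0) (nat_lit 1) (nat_lit 173) (nat_lit 41) r1_173 r8_41 (nat_lit 0) (nat_lit 0) (nat_lit 0) (nat_lit 0x67ac0677ee) (nat_lit 11941494552),
  Rx.mk (nat_lit 18) (nat_lit 2) (nat_lit 2) (nat_lit 0) (nat_lit 3) (nat_lit 174) (nat_lit 48) r1_174 r8_48 (nat_lit 0) (nat_lit 0) (nat_lit 0) (nat_lit 0x7d65dd24c8) (nat_lit 1277246880),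
  Rx.mk (nat_lit 24) (nat_lit 0) (nat_lit 3) (nat_lit 0) (nat_lit 2) (nat_lit 171) (nat_lit 42) r1_171 r8_42 (nat_lit 0) (nat_lit 0) (nat_lit 0) (nat_lit 0x6aa9b3da1a) (nat_lit 10473387912),
  Rx.mk (nat_lit 26) (nat_lit 2) (nat_lit 3) (nat_lit 0) (nat_lit 3) (nat_lit 176) (nat_lit 45) r1_176 r8_45 (nat_lit 0) (nat_lit 0) (nat_lit 0) (nat_lit 0x7dc7b886b0) (nat_lit 1089616320),
  Rx.mk (nat_lit 146) (nat_lit 2) (nat_lit 2) (nat_lit 2) (nat_lit 7) (nat_lit 175) (nat_lit 49) r1_175 r8_49 (nat_lit 0) (nat_lit 0) (nat_lit 0) (nat_lit 0x7dbc1ee056) (nat_lit 1111858488),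
  Rx.mk (nat_lit 150) (nat_lit 6) (nat_lit 2) (nat_lit 2) (nat_lit 7) (nat_lit 169) (nat_lit 47) r1_169 r8_47 (nat_lit 0) (nat_lit 0) (nat_lit 0) (nat_lit 0x7df3ef031c) (nat_lit 1004842800),
  Rx.mk (nat_lit 216) (nat_lit 0) (nat_lit 3) (nat_lit 3) (nat_lit 6) (nat_lit 172) (nat_lit 43) r1_172 r8_43 (nat_lit 0) (nat_lit 0) (nat_lit 0) (nat_lit 0x7ccbdaa58a) (nat_lit 1572544584),
  Rx.mk (nat_lit 218) (nat_lit 2) (nat_lit 3) (nat_lit 3) (nat_lit 7) (nat_lit 177) (nat_lit 46) r1_177 r8_46 (nat_lit 0) (nat_lit 0) (nat_lit 0) (nat_lit 0x7de6d574c2) (nat_lit 1029960360),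
  Rx.mk (nat_lit 219) (nat_lit 3) (nat_lit 3) (nat_lit 3) (nat_lit 7) (nat_lit 178) (nat_lit 44) r1_178 r8_44 (nat_lit 0) (nat_lit 0) (nat_lit 0) (nat_lit 0x7d9c4f7d6c) (nat_lit 1172851056)]
noncomputable def e1_20 : List Rx := [
  Rx.mk (nat_lit 64) (nat_lit 0) (nat_lit 0) (nat_lit 1) (nat_lit 4) (nat_lit 180) (nat_lit 265) r1_180 r0_265 (nat_lit 0) (nat_lit 0) (nat_lit 0) (nat_lit 0x5c4ea51962) (nat_lit 17519929128),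
  Rx.mk (nat_lit 72) (nat_lit 0) (nat_lit 1) (nat_lit 1) (nat_lit 6) (nat_lit 182) (nat_lit 266) r1_182 r0_266 (nat_lit 0) (nat_lit 0) (nat_lit 0) (nat_lit 0x77997950d2) (nat_lit 4123410408),
  Rx.mk (nat_lit 88) (nat_lit 0) (nat_lit 3) (nat_lit 1) (nat_lit 6) (nat_lit 183) (nat_lit 267) r1_183 r0_267 (nat_lit 0) (nat_lit 0) (nat_lit 0) (nat_lit 0x7389907370) (nat_lit 6117329088),
  Rx.mk (nat_lit 91) (nat_lit 3) (nat_lit 3) (nat_lit 1) (nat_lit 7) (nat_lit 184) (nat_lit 268) r1_184 r0_268 (nat_lit 0) (nat_lit 0) (nat_lit 0) (nat_lit 0x6ddb0661c0) (nat_lit 8906257152),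
  Rx.mk (nat_lit 320) (nat_lit 0) (nat_lit 0) (nat_lit 5) (nat_lit 4) (nat_lit 179) (nat_lit 269) r1_179 r0_269 (nat_lit 0) (nat_lit 0) (nat_lit 0) (nat_lit 0x7fe711eefa) (nat_lit 47800584),
  Rx.mk (nat_lit 328) (nat_lit 0) (nat_lit 1) (nat_lit 5) (nat_lit 6) (nat_lit 181) (nat_lit 270) r1_181 r0_270 (nat_lit 0) (nat_lit 0) (nat_lit 0) (nat_lit 0x7a861a03da) (nat_lit 2687994504)]
noncomputable def e1_21 : List Rx := [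
  Rx.mk (nat_lit 72) (nat_lit 0) (nat_lit 1) (nat_lit 1) (nat_lit 6) (nat_lit 186) (nat_lit 272) r1_186 r1_272 (nat_lit 0) (nat_lit 0) (nat_lit 0) (nat_lit 0x7dbb600c44) (nat_lit 1113287760),
  Rx.mk (nat_lit 328) (nat_lit 0) (nat_lit 1) (nat_lit 5) (nat_lit 6) (nat_lit 185) (nat_lit 273) r1_185 r1_273 (nat_lit 0) (nat_lit 0) (nat_lit 0) (nat_lit 0x7db8bf7650) (nat_lit 1118325312)]
noncomputable def e1_22 : List Rx := [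
  Rx.mk (nat_lit 88) (nat_lit 0) (nat_lit 3) (nat_lit 1) (nat_lit 6) (nat_lit 190) (nat_lit 279) r1_190 r4_279 (nat_lit 0) (nat_lit 0) (nat_lit 0) (nat_lit 0x7deba2c7e8) (nat_lit 1020752928),
  Rx.mk (nat_lit 91) (nat_lit 3) (nat_lit 3) (nat_lit 1) (nat_lit 7) (nat_lit 191) (nat_lit 280) r1_191 r4_280 (nat_lit 0) (nat_lit 0) (nat_lit 0) (nat_lit 0x7965ed07ca) (nat_lit 3240541512),
  Rx.mk (nat_lit 320) (nat_lit 0) (nat_lit 0) (nat_lit 5) (nat_lit 4) (nat_lit 187) (nat_lit 281) r1_187 r4_281 (nat_lit 0) (nat_lit 0) (nat_lit 0) (nat_lit 0x680620b5f0) (nat_lit 11768732352),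
  Rx.mk (nat_lit 328) (nat_lit 0) (nat_lit 1) (nat_lit 5) (nat_lit 6) (nat_lit 188) (nat_lit 282) r1_188 r4_282 (nat_lit 0) (nat_lit 0) (nat_lit 0) (nat_lit 0x7cc75d8d60) (nat_lit 1581151104),
  Rx.mk (nat_lit 344) (nat_lit 0) (nat_lit 3) (nat_lit 5) (nat_lit 6) (nat_lit 189) (nat_lit 283) r1_189 r4_283 (nat_lit 0) (nat_lit 0) (nat_lit 0) (nat_lit 0x79612a93f6) (nat_lit 3249667512)]
noncomputable def e1_23 : List Rx := [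
  Rx.mk (nat_lit 64) (nat_lit 0) (nat_lit 0) (nat_lit 1) (nat_lit 4) (nat_lit 192) (nat_lit 64) r1_192 r6_64 (nat_lit 0) (nat_lit 0) (nat_lit 0) (nat_lit 0x722130dad2) (nat_lit 6808307688),
  Rx.mk (nat_lit 66) (nat_lit 2) (nat_lit 0) (nat_lit 1) (nat_lit 5) (nat_lit 195) (nat_lit 65) r1_195 r6_65 (nat_lit 0) (nat_lit 0) (nat_lit 0) (nat_lit 0x7d8beb23c2) (nat_lit 1204281000),
  Rx.mk (nat_lit 72) (nat_lit 0) (nat_lit 1) (nat_lit 1) (nat_lit 6) (nat_lit 193) (nat_lit 66) r1_193 r6_66 (nat_lit 0) (nat_lit 0) (nat_lit 0) (nat_lit 0x7d814b2dcc) (nat_lit 1224653040),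
  Rx.mk (nat_lit 74) (nat_lit 2) (nat_lit 1) (nat_lit 1) (nat_lit 7) (nat_lit 196) (nat_lit 67) r1_196 r6_67 (nat_lit 0) (nat_lit 0) (nat_lit 0) (nat_lit 0x7df3680b8c) (nat_lit 1005853680),
  Rx.mk (nat_lit 88) (nat_lit 0) (nat_lit 3) (nat_lit 1) (nat_lit 6) (nat_lit 194) (nat_lit 68) r1_194 r6_68 (nat_lit 0) (nat_lit 0) (nat_lit 0) (nat_lit 0x7dcda1a818) (nat_lit 1078283232),
  Rx.mk (nat_lit 90) (nat_lit 2) (nat_lit 3) (nat_lit 1) (nat_lit 7) (nat_lit 197) (nat_lit 70) r1_197 r6_70 (nat_lit 0) (nat_lit 0) (nat_lit 0) (nat_lit 0x7dd2126108) (nat_lit 1069769376),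
  Rx.mk (nat_lit 91) (nat_lit 3) (nat_lit 3) (nat_lit 1) (nat_lit 7) (nat_lit 198) (nat_lit 69) r1_198 r6_69 (nat_lit 0) (nat_lit 0) (nat_lit 0) (nat_lit 0x7d43cb4608) (nat_lit 1342572192)]
noncomputable def e1_24 : List Rx := [
  Rx.mk (nat_lit 72) (nat_lit 0) (nat_lit 1) (nat_lit 1) (nat_lit 6) (nat_lit 199) (nat_lit 66) r1_199 r7_66 (nat_lit 0) (nat_lit 0) (nat_lit 0) (nat_lit 0x7d80f19366) (nat_lit 1225324152),
  Rx.mk (nat_lit 74) (nat_lit 2) (nat_lit 1) (nat_lit 1) (nat_lit 7) (nat_lit 200) (nat_lit 67) r1_200 r7_67 (nat_lit 0) (nat_lit 0) (nat_lit 0) (nat_lit 0x7df471daee) (nat_lit 1003862808)]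
noncomputable def e1_25 : List Rx := [
  Rx.mk (nat_lit 0) (nat_lit 0) (nat_lit 0) (nat_lit 0) (nat_lit 0) (nat_lit 201) (nat_lit 283) r1_201 r7_283 (nat_lit 0) (nat_lit 0) (nat_lit 0) (nat_lit 0x34358c330c) (nat_lit 37202186736),
  Rx.mk (nat_lit 2) (nat_lit 2) (nat_lit 0) (nat_lit 0) (nat_lit 1) (nat_lit 206) (nat_lit 286) r1_206 r7_286 (nat_lit 0) (nat_lit 0) (nat_lit 0) (nat_lit 0x6ddf3cfe52) (nat_lit 8898178536),
  Rx.mk (nat_lit 18) (nat_lit 2) (nat_lit 2) (nat_lit 0) (nat_lit 3) (nat_lit 209) (nat_lit 288) r1_209 r7_288 (nat_lit 0) (nat_lit 0) (nat_lit 0) (nat_lit 0x7de4743ad8) (nat_lit 1034523360),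
  Rx.mk (nat_lit 24) (nat_lit 0) (nat_lit 3) (nat_lit 0) (nat_lit 2) (nat_lit 204) (nat_lit 284) r1_204 r7_284 (nat_lit 0) (nat_lit 0) (nat_lit 0) (nat_lit 0x689c4c929c) (nat_lit 11480794416),
  Rx.mk (nat_lit 26) (nat_lit 2) (nat_lit 3) (nat_lit 0) (nat_lit 3) (nat_lit 212) (nat_lit 287) r1_212 r7_287 (nat_lit 0) (nat_lit 0) (nat_lit 0) (nat_lit 0x7db4c29622) (nat_lit 1125971496),
  Rx.mk (nat_lit 27) (nat_lit 3) (nat_lit 3) (nat_lit 0) (nat_lit 3) (nat_lit 214) (nat_lit 285) r1_214 r7_285 (nat_lit 0) (nat_lit 0) (nat_lit 0) (nat_lit 0x5d3c3f5ed0) (nat_lit 17064350784),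
  Rx.mk (nat_lit 64) (nat_lit 0) (nat_lit 0) (nat_lit 1) (nat_lit 4) (nat_lit 202) (nat_lit 289) r1_202 r7_289 (nat_lit 0) (nat_lit 0) (nat_lit 0) (nat_lit 0x694567a042) (nat_lit 11156551848),
  Rx.mk (nat_lit 66) (nat_lit 2) (nat_lit 0) (nat_lit 1) (nat_lit 5) (nat_lit 207) (nat_lit 293) r1_207 r7_293 (nat_lit 0) (nat_lit 0) (nat_lit 0) (nat_lit 0x7c8fc726fe) (nat_lit 1687734360),
  Rx.mk (nat_lit 72) (nat_lit 0) (nat_lit 1) (nat_lit 1) (nat_lit 6) (nat_lit 203) (nat_lit 290) r1_203 r7_290 (nat_lit 0) (nat_lit 0) (nat_lit 0) (nat_lit 0x7d333feece) (nat_lit 1374294168),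
  Rx.mk (nat_lit 74) (nat_lit 2) (nat_lit 1) (nat_lit 1) (nat_lit 7) (nat_lit 208) (nat_lit 294) r1_208 r7_294 (nat_lit 0) (nat_lit 0) (nat_lit 0) (nat_lit 0x7db7bde66a) (nat_lit 1120254408),
  Rx.mk (nat_lit 82) (nat_lit 2) (nat_lit 2) (nat_lit 1) (nat_lit 7) (nat_lit 210) (nat_lit 296) r1_210 r7_296 (nat_lit 0) (nat_lit 0) (nat_lit 0) (nat_lit 0x7dd2f1d310) (nat_lit 1068095808),
  Rx.mk (nat_lit 88) (nat_lit 0) (nat_lit 3) (nat_lit 1) (nat_lit 6) (nat_lit 205) (nat_lit 291) r1_205 r7_291 (nat_lit 0) (nat_lit 0) (nat_lit 0) (nat_lit 0x7d4016c154) (nat_lit 1349676432),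
  Rx.mk (nat_lit 90) (nat_lit 2) (nat_lit 3) (nat_lit 1) (nat_lit 7) (nat_lit 213) (nat_lit 295) r1_213 r7_295 (nat_lit 0) (nat_lit 0) (nat_lit 0) (nat_lit 0x7db90e3164) (nat_lit 1117735632),
  Rx.mk (nat_lit 91) (nat_lit 3) (nat_lit 3) (nat_lit 1) (nat_lit 7) (nat_lit 215) (nat_lit 292) r1_215 r7_292 (nat_lit 0) (nat_lit 0) (nat_lit 0) (nat_lit 0x7c3cb238a0) (nat_lit 1847035008),
  Rx.mk (nat_lit 146) (nat_lit 2) (nat_lit 2) (nat_lit 2) (nat_lit 7) (nat_lit 211) (nat_lit 298) r1_211 r7_298 (nat_lit 0) (nat_lit 0) (nat_lit 0) (nat_lit 0x7deaa7f796) (nat_lit 1022631480),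
  Rx.mk (nat_lit 219) (nat_lit 3) (nat_lit 3) (nat_lit 3) (nat_lit 7) (nat_lit 216) (nat_lit 297) r1_216 r7_297 (nat_lit 0) (nat_lit 0) (nat_lit 0) (nat_lit 0x78ed89ae78) (nat_lit 3471373152)]
noncomputable def e1_26 : List Rx := [
  Rx.mk (nat_lit 88) (nat_lit 0) (nat_lit 3) (nat_lit 1) (nat_lit 6) (nat_lit 217) (nat_lit 49) r1_217 r9_49 (nat_lit 0) (nat_lit 0) (nat_lit 0) (nat_lit 0x7c9f940a20) (nat_lit 1657438848),
  Rx.mk (nat_lit 90) (nat_lit 2) (nat_lit 3) (nat_lit 1) (nat_lit 7) (nat_lit 218) (nat_lit 51) r1_218 r9_51 (nat_lit 0) (nat_lit 0) (nat_lit 0) (nat_lit 0x7de940ce0a) (nat_lit 1025321544),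
  Rx.mk (nat_lit 91) (nat_lit 3) (nat_lit 3) (nat_lit 1) (nat_lit 7) (nat_lit 219) (nat_lit 50) r1_219 r9_50 (nat_lit 0) (nat_lit 0) (nat_lit 0) (nat_lit 0x7e4c769a4a) (nat_lit 835096392)]
noncomputable def e1_27 : List Rx := [
  Rx.mk (nat_lit 91) (nat_lit 3) (nat_lit 3) (nat_lit 1) (nat_lit 7) (nat_lit 224) (nat_lit 45) r1_224 r10_45 (nat_lit 0) (nat_lit 0) (nat_lit 0) (nat_lit 0x7de11ef030) (nat_lit 1040914368),
  Rx.mk (nat_lit 320) (nat_lit 0) (nat_lit 0) (nat_lit 5) (nat_lit 4) (nat_lit 220) (nat_lit 41) r1_220 r10_41 (nat_lit 0) (nat_lit 0) (nat_lit 0) (nat_lit 0x6745aa3e18) (nat_lit 12137759712),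
  Rx.mk (nat_lit 328) (nat_lit 0) (nat_lit 1) (nat_lit 5) (nat_lit 6) (nat_lit 221) (nat_lit 42) r1_221 r10_42 (nat_lit 0) (nat_lit 0) (nat_lit 0) (nat_lit 0x7dd2d19514) (nat_lit 1068337296),
  Rx.mk (nat_lit 344) (nat_lit 0) (nat_lit 3) (nat_lit 5) (nat_lit 6) (nat_lit 222) (nat_lit 43) r1_222 r10_43 (nat_lit 0) (nat_lit 0) (nat_lit 0) (nat_lit 0x7dc1f662d8) (nat_lit 1100657376),
  Rx.mk (nat_lit 347) (nat_lit 3) (nat_lit 3) (nat_lit 5) (nat_lit 7) (nat_lit 223) (nat_lit 44) r1_223 r10_44 (nat_lit 0) (nat_lit 0) (nat_lit 0) (nat_lit 0x7e5b3e8dbc) (nat_lit 806755248)]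
noncomputable def e1_28 : List Rx := [
  Rx.mk (nat_lit 291) (nat_lit 3) (nat_lit 4) (nat_lit 4) (nat_lit 1) (nat_lit 237) (nat_lit 108) r1_237 r10_108 (nat_lit 0) (nat_lit 0) (nat_lit 0) (nat_lit 0x6afa16f398) (nat_lit 10319253984),
  Rx.mk (nat_lit 295) (nat_lit 7) (nat_lit 4) (nat_lit 4) (nat_lit 1) (nat_lit 234) (nat_lit 107) r1_234 r10_107 (nat_lit 0) (nat_lit 0) (nat_lit 0) (nat_lit 0x79f253e0d0) (nat_lit 2971335744),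
  Rx.mk (nat_lit 315) (nat_lit 3) (nat_lit 7) (nat_lit 4) (nat_lit 3) (nat_lit 238) (nat_lit 109) r1_238 r10_109 (nat_lit 0) (nat_lit 0) (nat_lit 0) (nat_lit 0x7dd597a8b0) (nat_lit 1063018944),
  Rx.mk (nat_lit 423) (nat_lit 7) (nat_lit 4) (nat_lit 6) (nat_lit 5) (nat_lit 235) (nat_lit 111) r1_235 r10_111 (nat_lit 0) (nat_lit 0) (nat_lit 0) (nat_lit 0x7de322cff0) (nat_lit 1037050560),
  Rx.mk (nat_lit 439) (nat_lit 7) (nat_lit 6) (nat_lit 6) (nat_lit 7) (nat_lit 236) (nat_lit 112) r1_236 r10_112 (nat_lit 0) (nat_lit 0) (nat_lit 0) (nat_lit 0x7e36429da0) (nat_lit 877668480),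
  Rx.mk (nat_lit 507) (nat_lit 3) (nat_lit 7) (nat_lit 7) (nat_lit 7) (nat_lit 239) (nat_lit 110) r1_239 r10_110 (nat_lit 0) (nat_lit 0) (nat_lit 0) (nat_lit 0x7de4773aa8) (nat_lit 1034500896)]
noncomputable def e1_29 : List Rx := [
  Rx.mk (nat_lit 344) (nat_lit 0) (nat_lit 3) (nat_lit 5) (nat_lit 6) (nat_lit 241) (nat_lit 305) r1_241 r5_305 (nat_lit 0) (nat_lit 0) (nat_lit 0) (nat_lit 0x7ecf8b287e) (nat_lit 583763544),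
  Rx.mk (nat_lit 376) (nat_lit 0) (nat_lit 7) (nat_lit 5) (nat_lit 6) (nat_lit 240) (nat_lit 304) r1_240 r5_304 (nat_lit 0) (nat_lit 0) (nat_lit 0) (nat_lit 0x7f67c7a41e) (nat_lit 291866328)]
noncomputable def e1_30 : List Rx := [
  Rx.mk (nat_lit 88) (nat_lit 0) (nat_lit 3) (nat_lit 1) (nat_lit 6) (nat_lit 244) (nat_lit 333) r1_244 r10_333 (nat_lit 0) (nat_lit 0) (nat_lit 0) (nat_lit 0x7dc4b676d4) (nat_lit 1095383952),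
  Rx.mk (nat_lit 90) (nat_lit 2) (nat_lit 3) (nat_lit 1) (nat_lit 7) (nat_lit 245) (nat_lit 334) r1_245 r10_334 (nat_lit 0) (nat_lit 0) (nat_lit 0) (nat_lit 0x7e352a8f22) (nat_lit 879766056)]
noncomputable def e1_31 : List Rx := [
  Rx.mk (nat_lit 355) (nat_lit 3) (nat_lit 4) (nat_lit 5) (nat_lit 5) (nat_lit 247) (nat_lit 178) r1_247 r5_178 (nat_lit 0) (nat_lit 0) (nat_lit 0) (nat_lit 0x7f624a1bfc) (nat_lit 302393520),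
  Rx.mk (nat_lit 376) (nat_lit 0) (nat_lit 7) (nat_lit 5) (nat_lit 6) (nat_lit 246) (nat_lit 179) r1_246 r5_179 (nat_lit 0) (nat_lit 0) (nat_lit 0) (nat_lit 0x7f6760ea8a) (nat_lit 292635720),
  Rx.mk (nat_lit 379) (nat_lit 3) (nat_lit 7) (nat_lit 5) (nat_lit 7) (nat_lit 248) (nat_lit 180) r1_248 r5_180 (nat_lit 0) (nat_lit 0) (nat_lit 0) (nat_lit 0x7e75103088) (nat_lit 757250208)]
noncomputable def e1_32 : List Rx := [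
  Rx.mk (nat_lit 344) (nat_lit 0) (nat_lit 3) (nat_lit 5) (nat_lit 6) (nat_lit 250) (nat_lit 7) r1_250 r11_7 (nat_lit 0) (nat_lit 0) (nat_lit 0) (nat_lit 0x7e7e4b3cce) (nat_lit 739551384),
  Rx.mk (nat_lit 376) (nat_lit 0) (nat_lit 7) (nat_lit 5) (nat_lit 6) (nat_lit 249) (nat_lit 8) r1_249 r11_8 (nat_lit 0) (nat_lit 0) (nat_lit 0) (nat_lit 0x7fd9fb0076) (nat_lit 72898488),
  Rx.mk (nat_lit 379) (nat_lit 3) (nat_lit 7) (nat_lit 5) (nat_lit 7) (nat_lit 251) (nat_lit 9) r1_251 r11_9 (nat_lit 0) (nat_lit 0) (nat_lit 0) (nat_lit 0x7f3f574b4c) (nat_lit 369403632)]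
noncomputable def e1_33 : List Rx := [
  Rx.mk (nat_lit 353) (nat_lit 1) (nat_lit 4) (nat_lit 5) (nat_lit 5) (nat_lit 253) (nat_lit 283) r1_253 r0_283 (nat_lit 0) (nat_lit 0) (nat_lit 0) (nat_lit 0x7925b2abb0) (nat_lit 3363691968),
  Rx.mk (nat_lit 360) (nat_lit 0) (nat_lit 5) (nat_lit 5) (nat_lit 6) (nat_lit 252) (nat_lit 282) r1_252 r0_282 (nat_lit 0) (nat_lit 0) (nat_lit 0) (nat_lit 0x7ff9bf840e) (nat_lit 11987352),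
  Rx.mk (nat_lit 361) (nat_lit 1) (nat_lit 5) (nat_lit 5) (nat_lit 7) (nat_lit 254) (nat_lit 284) r1_254 r0_284 (nat_lit 0) (nat_lit 0) (nat_lit 0) (nat_lit 0x7bdf3f502c) (nat_lit 2026213488)]
noncomputable def e1_34 : List Rx := [
  Rx.mk (nat_lit 353) (nat_lit 1) (nat_lit 4) (nat_lit 5) (nat_lit 5) (nat_lit 255) (nat_lit 173) r1_255 r0_173 (nat_lit 0) (nat_lit 0) (nat_lit 0) (nat_lit 0x7da5614c46) (nat_lit 1155461112)]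
noncomputable def e1_35 : List Rx := [
  Rx.mk (nat_lit 353) (nat_lit 1) (nat_lit 4) (nat_lit 5) (nat_lit 5) (nat_lit 256) (nat_lit 397) r1_256 r6_397 (nat_lit 0) (nat_lit 0) (nat_lit 0) (nat_lit 0x7d23d005dc) (nat_lit 1403893296),
  Rx.mk (nat_lit 361) (nat_lit 1) (nat_lit 5) (nat_lit 5) (nat_lit 7) (nat_lit 257) (nat_lit 398) r1_257 r6_398 (nat_lit 0) (nat_lit 0) (nat_lit 0) (nat_lit 0x7dde737aea) (nat_lit 1046033352)]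
noncomputable def e1_36 : List Rx := [
  Rx.mk (nat_lit 293) (nat_lit 5) (nat_lit 4) (nat_lit 4) (nat_lit 1) (nat_lit 258) (nat_lit 183) r1_258 r2_183 (nat_lit 0) (nat_lit 0) (nat_lit 0) (nat_lit 0x64fea130f0) (nat_lit 13255669440),
  Rx.mk (nat_lit 357) (nat_lit 5) (nat_lit 4) (nat_lit 5) (nat_lit 5) (nat_lit 259) (nat_lit 184) r1_259 r2_184 (nat_lit 0) (nat_lit 0) (nat_lit 0) (nat_lit 0x7d01d9256c) (nat_lit 1469016432),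
  Rx.mk (nat_lit 421) (nat_lit 5) (nat_lit 4) (nat_lit 6) (nat_lit 5) (nat_lit 260) (nat_lit 185) r1_260 r2_185 (nat_lit 0) (nat_lit 0) (nat_lit 0) (nat_lit 0x7dc4639c02) (nat_lit 1096004520),
  Rx.mk (nat_lit 437) (nat_lit 5) (nat_lit 6) (nat_lit 6) (nat_lit 7) (nat_lit 261) (nat_lit 186) r1_261 r2_186 (nat_lit 0) (nat_lit 0) (nat_lit 0) (nat_lit 0x7deee313e0) (nat_lit 1014519168)]
noncomputable def e1_37 : List Rx := [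
  Rx.mk (nat_lit 293) (nat_lit 5) (nat_lit 4) (nat_lit 4) (nat_lit 1) (nat_lit 262) (nat_lit 160) r1_262 r8_160 (nat_lit 0) (nat_lit 0) (nat_lit 0) (nat_lit 0x5e5dca2502) (nat_lit 16509183912),
  Rx.mk (nat_lit 301) (nat_lit 5) (nat_lit 5) (nat_lit 4) (nat_lit 3) (nat_lit 265) (nat_lit 163) r1_265 r8_163 (nat_lit 0) (nat_lit 0) (nat_lit 0) (nat_lit 0x7d825a3cda) (nat_lit 1222622856),
  Rx.mk (nat_lit 357) (nat_lit 5) (nat_lit 4) (nat_lit 5) (nat_lit 5) (nat_lit 263) (nat_lit 161) r1_263 r8_161 (nat_lit 0) (nat_lit 0) (nat_lit 0) (nat_lit 0x7bd73b1078) (nat_lit 2041584480),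
  Rx.mk (nat_lit 365) (nat_lit 5) (nat_lit 5) (nat_lit 5) (nat_lit 7) (nat_lit 266) (nat_lit 164) r1_266 r8_164 (nat_lit 0) (nat_lit 0) (nat_lit 0) (nat_lit 0x7d867bdabc) (nat_lit 1214701488),
  Rx.mk (nat_lit 421) (nat_lit 5) (nat_lit 4) (nat_lit 6) (nat_lit 5) (nat_lit 264) (nat_lit 162) r1_264 r8_162 (nat_lit 0) (nat_lit 0) (nat_lit 0) (nat_lit 0x7d95c58612) (nat_lit 1185388776),
  Rx.mk (nat_lit 429) (nat_lit 5) (nat_lit 5) (nat_lit 6) (nat_lit 7) (nat_lit 267) (nat_lit 165) r1_267 r8_165 (nat_lit 0) (nat_lit 0) (nat_lit 0) (nat_lit 0x7df4303f08) (nat_lit 1004354208),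
  Rx.mk (nat_lit 437) (nat_lit 5) (nat_lit 6) (nat_lit 6) (nat_lit 7) (nat_lit 268) (nat_lit 166) r1_268 r8_166 (nat_lit 0) (nat_lit 0) (nat_lit 0) (nat_lit 0x7df1600c0e) (nat_lit 1009748376)]
noncomputable def e1_38 : List Rx := [
  Rx.mk (nat_lit 293) (nat_lit 5) (nat_lit 4) (nat_lit 4) (nat_lit 1) (nat_lit 269) (nat_lit 83) r1_269 r8_83 (nat_lit 0) (nat_lit 0) (nat_lit 0) (nat_lit 0x6f59076032) (nat_lit 8173804392),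
  Rx.mk (nat_lit 421) (nat_lit 5) (nat_lit 4) (nat_lit 6) (nat_lit 5) (nat_lit 270) (nat_lit 84) r1_270 r8_84 (nat_lit 0) (nat_lit 0) (nat_lit 0) (nat_lit 0x7dc4b5b6e0) (nat_lit 1095389568),
  Rx.mk (nat_lit 437) (nat_lit 5) (nat_lit 6) (nat_lit 6) (nat_lit 7) (nat_lit 271) (nat_lit 85) r1_271 r8_85 (nat_lit 0) (nat_lit 0) (nat_lit 0) (nat_lit 0x7de721effa) (nat_lit 1029387528)]
noncomputable def e1_39 : List Rx := [
  Rx.mk (nat_lit 353) (nat_lit 1) (nat_lit 4) (nat_lit 5) (nat_lit 5) (nat_lit 273) (nat_lit 185) r1_273 r1_185 (nat_lit 0) (nat_lit 0) (nat_lit 0) (nat_lit 0x7db8bf7650) (nat_lit 1118325312),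
  Rx.mk (nat_lit 357) (nat_lit 5) (nat_lit 4) (nat_lit 5) (nat_lit 5) (nat_lit 272) (nat_lit 186) r1_272 r1_186 (nat_lit 0) (nat_lit 0) (nat_lit 0) (nat_lit 0x7dbb600c44) (nat_lit 1113287760)]
noncomputable def e1_40 : List Rx := [
  Rx.mk (nat_lit 353) (nat_lit 1) (nat_lit 4) (nat_lit 5) (nat_lit 5) (nat_lit 276) (nat_lit 318) r1_276 r7_318 (nat_lit 0) (nat_lit 0) (nat_lit 0) (nat_lit 0x7ba392eb2e) (nat_lit 2140631064),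
  Rx.mk (nat_lit 357) (nat_lit 5) (nat_lit 4) (nat_lit 5) (nat_lit 5) (nat_lit 274) (nat_lit 316) r1_274 r7_316 (nat_lit 0) (nat_lit 0) (nat_lit 0) (nat_lit 0x7a2aa01bd4) (nat_lit 2863390608),
  Rx.mk (nat_lit 361) (nat_lit 1) (nat_lit 5) (nat_lit 5) (nat_lit 7) (nat_lit 277) (nat_lit 319) r1_277 r7_319 (nat_lit 0) (nat_lit 0) (nat_lit 0) (nat_lit 0x7de06f7b28) (nat_lit 1042228512),
  Rx.mk (nat_lit 365) (nat_lit 5) (nat_lit 5) (nat_lit 5) (nat_lit 7) (nat_lit 275) (nat_lit 317) r1_275 r7_317 (nat_lit 0) (nat_lit 0) (nat_lit 0) (nat_lit 0x7dab10b14a) (nat_lit 1144560456)]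
noncomputable def e1_41 : List Rx := [
  Rx.mk (nat_lit 360) (nat_lit 0) (nat_lit 5) (nat_lit 5) (nat_lit 6) (nat_lit 278) (nat_lit 278) r1_278 r1_278 (nat_lit 0) (nat_lit 0) (nat_lit 0) (nat_lit 0x7f91b3053e) (nat_lit 211490136),
  Rx.mk (nat_lit 361) (nat_lit 1) (nat_lit 5) (nat_lit 5) (nat_lit 7) (nat_lit 279) (nat_lit 279) r1_279 r1_279 (nat_lit 0) (nat_lit 0) (nat_lit 0) (nat_lit 0x7df2be9624) (nat_lit 1007122896)]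
noncomputable def e1_42 : List Rx := [
  Rx.mk (nat_lit 72) (nat_lit 0) (nat_lit 1) (nat_lit 1) (nat_lit 6) (nat_lit 282) (nat_lit 306) r1_282 r2_306 (nat_lit 0) (nat_lit 0) (nat_lit 0) (nat_lit 0x7d8d92694c) (nat_lit 1201110768),
  Rx.mk (nat_lit 73) (nat_lit 1) (nat_lit 1) (nat_lit 1) (nat_lit 7) (nat_lit 285) (nat_lit 309) r1_285 r2_309 (nat_lit 0) (nat_lit 0) (nat_lit 0) (nat_lit 0x7df759ac6e) (nat_lit 998291736),
  Rx.mk (nat_lit 328) (nat_lit 0) (nat_lit 1) (nat_lit 5) (nat_lit 6) (nat_lit 281) (nat_lit 305) r1_281 r2_305 (nat_lit 0) (nat_lit 0) (nat_lit 0) (nat_lit 0x7dda1280fe) (nat_lit 1054429272),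
  Rx.mk (nat_lit 329) (nat_lit 1) (nat_lit 1) (nat_lit 5) (nat_lit 7) (nat_lit 284) (nat_lit 308) r1_284 r2_308 (nat_lit 0) (nat_lit 0) (nat_lit 0) (nat_lit 0x7dd891d90a) (nat_lit 1057310280),
  Rx.mk (nat_lit 360) (nat_lit 0) (nat_lit 5) (nat_lit 5) (nat_lit 6) (nat_lit 280) (nat_lit 304) r1_280 r2_304 (nat_lit 0) (nat_lit 0) (nat_lit 0) (nat_lit 0x7dd800c21c) (nat_lit 1058396976),
  Rx.mk (nat_lit 361) (nat_lit 1) (nat_lit 5) (nat_lit 5) (nat_lit 7) (nat_lit 283) (nat_lit 307) r1_283 r2_307 (nat_lit 0) (nat_lit 0) (nat_lit 0) (nat_lit 0x7df5d6c49e) (nat_lit 1001189592)]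
noncomputable def e1_43 : List Rx := [
  Rx.mk (nat_lit 361) (nat_lit 1) (nat_lit 5) (nat_lit 5) (nat_lit 7) (nat_lit 286) (nat_lit 180) r1_286 r7_180 (nat_lit 0) (nat_lit 0) (nat_lit 0) (nat_lit 0x7de3424df8) (nat_lit 1036814688)]
noncomputable def e1_44 : List Rx := [
  Rx.mk (nat_lit 73) (nat_lit 1) (nat_lit 1) (nat_lit 1) (nat_lit 7) (nat_lit 289) (nat_lit 292) r1_289 r8_292 (nat_lit 0) (nat_lit 0) (nat_lit 0) (nat_lit 0x7de85cdc4a) (nat_lit 1027028808),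
  Rx.mk (nat_lit 329) (nat_lit 1) (nat_lit 1) (nat_lit 5) (nat_lit 7) (nat_lit 288) (nat_lit 291) r1_288 r8_291 (nat_lit 0) (nat_lit 0) (nat_lit 0) (nat_lit 0x7de6571ca8) (nat_lit 1030906656),
  Rx.mk (nat_lit 361) (nat_lit 1) (nat_lit 5) (nat_lit 5) (nat_lit 7) (nat_lit 287) (nat_lit 290) r1_287 r8_290 (nat_lit 0) (nat_lit 0) (nat_lit 0) (nat_lit 0x7deadc744e) (nat_lit 1022238360)]
noncomputable def e1_45 : List Rx := [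
  Rx.mk (nat_lit 72) (nat_lit 0) (nat_lit 1) (nat_lit 1) (nat_lit 6) (nat_lit 290) (nat_lit 286) r1_290 r8_286 (nat_lit 0) (nat_lit 0) (nat_lit 0) (nat_lit 0x7d689cd8ca) (nat_lit 1271976264),
  Rx.mk (nat_lit 73) (nat_lit 1) (nat_lit 1) (nat_lit 1) (nat_lit 7) (nat_lit 291) (nat_lit 287) r1_291 r8_287 (nat_lit 0) (nat_lit 0) (nat_lit 0) (nat_lit 0x7de70451d4) (nat_lit 1029609360),
  Rx.mk (nat_lit 74) (nat_lit 2) (nat_lit 1) (nat_lit 1) (nat_lit 7) (nat_lit 292) (nat_lit 288) r1_292 r8_288 (nat_lit 0) (nat_lit 0) (nat_lit 0) (nat_lit 0x7df1630bde) (nat_lit 1009725912)]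
noncomputable def e1_46 : List Rx := [
  Rx.mk (nat_lit 352) (nat_lit 0) (nat_lit 4) (nat_lit 5) (nat_lit 4) (nat_lit 296) (nat_lit 293) r1_296 r4_293 (nat_lit 0) (nat_lit 0) (nat_lit 0) (nat_lit 0x6a1ffcf612) (nat_lit 10737441000),
  Rx.mk (nat_lit 353) (nat_lit 1) (nat_lit 4) (nat_lit 5) (nat_lit 5) (nat_lit 299) (nat_lit 296) r1_299 r4_296 (nat_lit 0) (nat_lit 0) (nat_lit 0) (nat_lit 0x7ce68fda1c) (nat_lit 1521335088),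
  Rx.mk (nat_lit 360) (nat_lit 0) (nat_lit 5) (nat_lit 5) (nat_lit 6) (nat_lit 297) (nat_lit 294) r1_297 r4_294 (nat_lit 0) (nat_lit 0) (nat_lit 0) (nat_lit 0x7b9136b104) (nat_lit 2175834960),
  Rx.mk (nat_lit 361) (nat_lit 1) (nat_lit 5) (nat_lit 5) (nat_lit 7) (nat_lit 300) (nat_lit 297) r1_300 r4_297 (nat_lit 0) (nat_lit 0) (nat_lit 0) (nat_lit 0x7e35b126b8) (nat_lit 878757984),
  Rx.mk (nat_lit 376) (nat_lit 0) (nat_lit 7) (nat_lit 5) (nat_lit 6) (nat_lit 298) (nat_lit 295) r1_298 r4_295 (nat_lit 0) (nat_lit 0) (nat_lit 0) (nat_lit 0x7df1a98776) (nat_lit 1009198008),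
  Rx.mk (nat_lit 377) (nat_lit 1) (nat_lit 7) (nat_lit 5) (nat_lit 7) (nat_lit 301) (nat_lit 298) r1_301 r4_298 (nat_lit 0) (nat_lit 0) (nat_lit 0) (nat_lit 0x7db1b0c742) (nat_lit 1131857064)]
noncomputable def e1_47 : List Rx := [
  Rx.mk (nat_lit 353) (nat_lit 1) (nat_lit 4) (nat_lit 5) (nat_lit 5) (nat_lit 304) (nat_lit 159) r1_304 r4_159 (nat_lit 0) (nat_lit 0) (nat_lit 0) (nat_lit 0x7e188df908) (nat_lit 934625952),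
  Rx.mk (nat_lit 377) (nat_lit 1) (nat_lit 7) (nat_lit 5) (nat_lit 7) (nat_lit 305) (nat_lit 160) r1_305 r4_160 (nat_lit 0) (nat_lit 0) (nat_lit 0) (nat_lit 0x7e535d2bda) (nat_lit 821865096)]
noncomputable def e1_48 : List Rx := [
  Rx.mk (nat_lit 353) (nat_lit 1) (nat_lit 4) (nat_lit 5) (nat_lit 5) (nat_lit 306) (nat_lit 320) r1_306 r9_320 (nat_lit 0) (nat_lit 0) (nat_lit 0) (nat_lit 0x7d78f9b2ec) (nat_lit 1240602480),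
  Rx.mk (nat_lit 361) (nat_lit 1) (nat_lit 5) (nat_lit 5) (nat_lit 7) (nat_lit 307) (nat_lit 321) r1_307 r9_321 (nat_lit 0) (nat_lit 0) (nat_lit 0) (nat_lit 0x7dea245fd0) (nat_lit 1023617088),
  Rx.mk (nat_lit 377) (nat_lit 1) (nat_lit 7) (nat_lit 5) (nat_lit 7) (nat_lit 308) (nat_lit 322) r1_308 r9_322 (nat_lit 0) (nat_lit 0) (nat_lit 0) (nat_lit 0x7d27c6e66a) (nat_lit 1396292040)]
noncomputable def e1_49 : List Rx := [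
  Rx.mk (nat_lit 377) (nat_lit 1) (nat_lit 7) (nat_lit 5) (nat_lit 7) (nat_lit 309) (nat_lit 338) r1_309 r10_338 (nat_lit 0) (nat_lit 0) (nat_lit 0) (nat_lit 0x7df8d574b0) (nat_lit 995447232)]
noncomputable def e1_50 : List Rx := [
  Rx.mk (nat_lit 352) (nat_lit 0) (nat_lit 4) (nat_lit 5) (nat_lit 4) (nat_lit 315) (nat_lit 183) r1_315 r10_183 (nat_lit 0) (nat_lit 0) (nat_lit 0) (nat_lit 0x707b7d37b2) (nat_lit 7616876904),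
  Rx.mk (nat_lit 353) (nat_lit 1) (nat_lit 4) (nat_lit 5) (nat_lit 5) (nat_lit 318) (nat_lit 184) r1_318 r10_184 (nat_lit 0) (nat_lit 0) (nat_lit 0) (nat_lit 0x7de8fc3254) (nat_lit 1025835408),
  Rx.mk (nat_lit 355) (nat_lit 3) (nat_lit 4) (nat_lit 5) (nat_lit 5) (nat_lit 321) (nat_lit 185) r1_321 r10_185 (nat_lit 0) (nat_lit 0) (nat_lit 0) (nat_lit 0x7df99bc84a) (nat_lit 993961800),
  Rx.mk (nat_lit 360) (nat_lit 0) (nat_lit 5) (nat_lit 5) (nat_lit 6) (nat_lit 316) (nat_lit 186) r1_316 r10_186 (nat_lit 0) (nat_lit 0) (nat_lit 0) (nat_lit 0x7ddf77aaa6) (nat_lit 1044084600),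
  Rx.mk (nat_lit 361) (nat_lit 1) (nat_lit 5) (nat_lit 5) (nat_lit 7) (nat_lit 319) (nat_lit 187) r1_319 r10_187 (nat_lit 0) (nat_lit 0) (nat_lit 0) (nat_lit 0x7df4ff3218) (nat_lit 1002804192),
  Rx.mk (nat_lit 363) (nat_lit 3) (nat_lit 5) (nat_lit 5) (nat_lit 7) (nat_lit 322) (nat_lit 188) r1_322 r10_188 (nat_lit 0) (nat_lit 0) (nat_lit 0) (nat_lit 0x7e5868bb1c) (nat_lit 812191536),
  Rx.mk (nat_lit 376) (nat_lit 0) (nat_lit 7) (nat_lit 5) (nat_lit 6) (nat_lit 317) (nat_lit 189) r1_317 r10_189 (nat_lit 0) (nat_lit 0) (nat_lit 0) (nat_lit 0x7de538ae90) (nat_lit 1033051968),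
  Rx.mk (nat_lit 377) (nat_lit 1) (nat_lit 7) (nat_lit 5) (nat_lit 7) (nat_lit 320) (nat_lit 190) r1_320 r10_190 (nat_lit 0) (nat_lit 0) (nat_lit 0) (nat_lit 0x7df62c9f40) (nat_lit 1000546560)]
noncomputable def e1_51 : List Rx := [
  Rx.mk (nat_lit 283) (nat_lit 3) (nat_lit 3) (nat_lit 4) (nat_lit 3) (nat_lit 63) (nat_lit 6) r1_63 r12_6 (nat_lit 0) (nat_lit 0) (nat_lit 0) (nat_lit 0x7a1cc1b9c8) (nat_lit 2889982368),
  Rx.mk (nat_lit 315) (nat_lit 3) (nat_lit 7) (nat_lit 4) (nat_lit 3) (nat_lit 61) (nat_lit 9) r1_61 r12_9 (nat_lit 0) (nat_lit 0) (nat_lit 0) (nat_lit 0x7a959c4ba6) (nat_lit 2658257784),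
  Rx.mk (nat_lit 319) (nat_lit 7) (nat_lit 7) (nat_lit 4) (nat_lit 3) (nat_lit 58) (nat_lit 11) r1_58 r12_11 (nat_lit 0) (nat_lit 0) (nat_lit 0) (nat_lit 0x76758bd0ce) (nat_lit 4683151512),
  Rx.mk (nat_lit 347) (nat_lit 3) (nat_lit 3) (nat_lit 5) (nat_lit 7) (nat_lit 64) (nat_lit 7) r1_64 r12_7 (nat_lit 0) (nat_lit 0) (nat_lit 0) (nat_lit 0x7e3ee0f3b2) (nat_lit 861143400),
  Rx.mk (nat_lit 379) (nat_lit 3) (nat_lit 7) (nat_lit 5) (nat_lit 7) (nat_lit 62) (nat_lit 10) r1_62 r12_10 (nat_lit 0) (nat_lit 0) (nat_lit 0) (nat_lit 0x7effe88278) (nat_lit 491029344),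
  Rx.mk (nat_lit 383) (nat_lit 7) (nat_lit 7) (nat_lit 5) (nat_lit 7) (nat_lit 59) (nat_lit 12) r1_59 r12_12 (nat_lit 0) (nat_lit 0) (nat_lit 0) (nat_lit 0x7e4f838978) (nat_lit 829247328),
  Rx.mk (nat_lit 447) (nat_lit 7) (nat_lit 7) (nat_lit 6) (nat_lit 7) (nat_lit 60) (nat_lit 13) r1_60 r12_13 (nat_lit 0) (nat_lit 0) (nat_lit 0) (nat_lit 0x7d35e3e48c) (nat_lit 1369231344),
  Rx.mk (nat_lit 475) (nat_lit 3) (nat_lit 3) (nat_lit 7) (nat_lit 7) (nat_lit 65) (nat_lit 8) r1_65 r12_8 (nat_lit 0) (nat_lit 0) (nat_lit 0) (nat_lit 0x7c03ca075c) (nat_lit 1956148272)]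
noncomputable def e1_52 : List Rx := [
  Rx.mk (nat_lit 91) (nat_lit 3) (nat_lit 3) (nat_lit 1) (nat_lit 7) (nat_lit 93) (nat_lit 65) r1_93 r12_65 (nat_lit 0) (nat_lit 0) (nat_lit 0) (nat_lit 0x7e7f436d4a) (nat_lit 737692488),
  Rx.mk (nat_lit 344) (nat_lit 0) (nat_lit 3) (nat_lit 5) (nat_lit 6) (nat_lit 91) (nat_lit 63) r1_91 r12_63 (nat_lit 0) (nat_lit 0) (nat_lit 0) (nat_lit 0x7a1ced3710) (nat_lit 2889656640),
  Rx.mk (nat_lit 347) (nat_lit 3) (nat_lit 3) (nat_lit 5) (nat_lit 7) (nat_lit 92) (nat_lit 64) r1_92 r12_64 (nat_lit 0) (nat_lit 0) (nat_lit 0) (nat_lit 0x7adb1c5360) (nat_lit 2524998528)]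
noncomputable def e1_53 : List Rx := [
  Rx.mk (nat_lit 291) (nat_lit 3) (nat_lit 4) (nat_lit 4) (nat_lit 1) (nat_lit 229) (nat_lit 107) r1_229 r12_107 (nat_lit 0) (nat_lit 0) (nat_lit 0) (nat_lit 0x71c5b3f2fc) (nat_lit 6983726256),
  Rx.mk (nat_lit 295) (nat_lit 7) (nat_lit 4) (nat_lit 4) (nat_lit 1) (nat_lit 225) (nat_lit 106) r1_225 r12_106 (nat_lit 0) (nat_lit 0) (nat_lit 0) (nat_lit 0x8000000000) (nat_lit 0),
  Rx.mk (nat_lit 315) (nat_lit 3) (nat_lit 7) (nat_lit 4) (nat_lit 3) (nat_lit 231) (nat_lit 108) r1_231 r12_108 (nat_lit 0) (nat_lit 0) (nat_lit 0) (nat_lit 0x7d8932ef48) (nat_lit 1209495456),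
  Rx.mk (nat_lit 355) (nat_lit 3) (nat_lit 4) (nat_lit 5) (nat_lit 5) (nat_lit 230) (nat_lit 110) r1_230 r12_110 (nat_lit 0) (nat_lit 0) (nat_lit 0) (nat_lit 0x7dfcd1f4e4) (nat_lit 987803856),
  Rx.mk (nat_lit 359) (nat_lit 7) (nat_lit 4) (nat_lit 5) (nat_lit 5) (nat_lit 226) (nat_lit 109) r1_226 r12_109 (nat_lit 0) (nat_lit 0) (nat_lit 0) (nat_lit 0x7eb6a736d6) (nat_lit 631488312),
  Rx.mk (nat_lit 379) (nat_lit 3) (nat_lit 7) (nat_lit 5) (nat_lit 7) (nat_lit 232) (nat_lit 111) r1_232 r12_111 (nat_lit 0) (nat_lit 0) (nat_lit 0) (nat_lit 0x7e706b5ada) (nat_lit 766154376),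
  Rx.mk (nat_lit 423) (nat_lit 7) (nat_lit 4) (nat_lit 6) (nat_lit 5) (nat_lit 227) (nat_lit 113) r1_227 r12_113 (nat_lit 0) (nat_lit 0) (nat_lit 0) (nat_lit 0x7dc65abc8e) (nat_lit 1092236184),
  Rx.mk (nat_lit 439) (nat_lit 7) (nat_lit 6) (nat_lit 6) (nat_lit 7) (nat_lit 228) (nat_lit 114) r1_228 r12_114 (nat_lit 0) (nat_lit 0) (nat_lit 0) (nat_lit 0x7d334cae02) (nat_lit 1374198696),
  Rx.mk (nat_lit 507) (nat_lit 3) (nat_lit 7) (nat_lit 7) (nat_lit 7) (nat_lit 233) (nat_lit 112) r1_233 r12_112 (nat_lit 0) (nat_lit 0) (nat_lit 0) (nat_lit 0x7dda421e04) (nat_lit 1054072656)]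
noncomputable def e1_54 : List Rx := [
  Rx.mk (nat_lit 88) (nat_lit 0) (nat_lit 3) (nat_lit 1) (nat_lit 6) (nat_lit 243) (nat_lit 267) r1_243 r12_267 (nat_lit 0) (nat_lit 0) (nat_lit 0) (nat_lit 0x7d19eca41c) (nat_lit 1422852912),
  Rx.mk (nat_lit 344) (nat_lit 0) (nat_lit 3) (nat_lit 5) (nat_lit 6) (nat_lit 242) (nat_lit 268) r1_242 r12_268 (nat_lit 0) (nat_lit 0) (nat_lit 0) (nat_lit 0x8000000000) (nat_lit 0)]
noncomputable def e1_55 : List Rx := [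
  Rx.mk (nat_lit 352) (nat_lit 0) (nat_lit 4) (nat_lit 5) (nat_lit 4) (nat_lit 323) (nat_lit 267) r1_323 r3_267 (nat_lit 0) (nat_lit 0) (nat_lit 0) (nat_lit 0x8000000000) (nat_lit 0),
  Rx.mk (nat_lit 353) (nat_lit 1) (nat_lit 4) (nat_lit 5) (nat_lit 5) (nat_lit 294) (nat_lit 269) r1_294 r3_269 (nat_lit 0) (nat_lit 0) (nat_lit 0) (nat_lit 0x7f3dabe604) (nat_lit 372604752),
  Rx.mk (nat_lit 376) (nat_lit 0) (nat_lit 7) (nat_lit 5) (nat_lit 6) (nat_lit 293) (nat_lit 268) r1_293 r3_268 (nat_lit 0) (nat_lit 0) (nat_lit 0) (nat_lit 0x7f34c65466) (nat_lit 389663352),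
  Rx.mk (nat_lit 377) (nat_lit 1) (nat_lit 7) (nat_lit 5) (nat_lit 7) (nat_lit 295) (nat_lit 270) r1_295 r3_270 (nat_lit 0) (nat_lit 0) (nat_lit 0) (nat_lit 0x7f46a79640) (nat_lit 355380480)]
noncomputable def e1_56 : List Rx := [
  Rx.mk (nat_lit 376) (nat_lit 0) (nat_lit 7) (nat_lit 5) (nat_lit 6) (nat_lit 302) (nat_lit 273) r1_302 r12_273 (nat_lit 0) (nat_lit 0) (nat_lit 0) (nat_lit 0x7e59f0e298) (nat_lit 809254368),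
  Rx.mk (nat_lit 377) (nat_lit 1) (nat_lit 7) (nat_lit 5) (nat_lit 7) (nat_lit 303) (nat_lit 274) r1_303 r12_274 (nat_lit 0) (nat_lit 0) (nat_lit 0) (nat_lit 0x7d5c1b80ec) (nat_lit 1295953776)]
noncomputable def e1_57 : List Rx := [
  Rx.mk (nat_lit 352) (nat_lit 0) (nat_lit 4) (nat_lit 5) (nat_lit 4) (nat_lit 310) (nat_lit 164) r1_310 r12_164 (nat_lit 0) (nat_lit 0) (nat_lit 0) (nat_lit 0x776b6e91ac) (nat_lit 4211691120),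
  Rx.mk (nat_lit 353) (nat_lit 1) (nat_lit 4) (nat_lit 5) (nat_lit 5) (nat_lit 312) (nat_lit 165) r1_312 r12_165 (nat_lit 0) (nat_lit 0) (nat_lit 0) (nat_lit 0x7da1e863d8) (nat_lit 1162118880),
  Rx.mk (nat_lit 355) (nat_lit 3) (nat_lit 4) (nat_lit 5) (nat_lit 5) (nat_lit 314) (nat_lit 166) r1_314 r12_166 (nat_lit 0) (nat_lit 0) (nat_lit 0) (nat_lit 0x7decb6b6a8) (nat_lit 1018686240),
  Rx.mk (nat_lit 376) (nat_lit 0) (nat_lit 7) (nat_lit 5) (nat_lit 6) (nat_lit 311) (nat_lit 167) r1_311 r12_167 (nat_lit 0) (nat_lit 0) (nat_lit 0) (nat_lit 0x7e69f1827e) (nat_lit 778571352),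
  Rx.mk (nat_lit 377) (nat_lit 1) (nat_lit 7) (nat_lit 5) (nat_lit 7) (nat_lit 313) (nat_lit 168) r1_313 r12_168 (nat_lit 0) (nat_lit 0) (nat_lit 0) (nat_lit 0x7db533cf0e) (nat_lit 1125123480)]
noncomputable def e1 : List (List Rx) := [e1_0, e1_1, e1_2, e1_3, e1_4, e1_5, e1_6, e1_7, e1_8, e1_9, e1_10, e1_11, e1_12, e1_13, e1_14, e1_15, e1_16, e1_17, e1_18, e1_19, e1_20, e1_21, e1_22, e1_23, e1_24, e1_25, e1_26, e1_27, e1_28, e1_29, e1_30, e1_31, e1_32, e1_33, e1_34, e1_35, e1_36, e1_37, e1_38, e1_39, e1_40, e1_41, e1_42, e1_43, e1_44, e1_45, e1_46, e1_47, e1_48, e1_49, e1_50, e1_51, e1_52, e1_53, e1_54, e1_55, e1_56, e1_57]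
noncomputable def e2_0 : List Rx := [
  Rx.mk (nat_lit 295) (nat_lit 7) (nat_lit 4) (nat_lit 4) (nat_lit 1) (nat_lit 4) (nat_lit 34) r2_4 r0_34 (nat_lit 0) (nat_lit 0) (nat_lit 0) (nat_lit 0x66c500a932) (nat_lit 12384456552),
  Rx.mk (nat_lit 308) (nat_lit 4) (nat_lit 6) (nat_lit 4) (nat_lit 2) (nat_lit 0) (nat_lit 31) r2_0 r0_31 (nat_lit 0) (nat_lit 0) (nat_lit 0) (nat_lit 0x6b355bdf0e) (nat_lit 10205611416),
  Rx.mk (nat_lit 311) (nat_lit 7) (nat_lit 6) (nat_lit 4) (nat_lit 3) (nat_lit 6) (nat_lit 39) r2_6 r0_39 (nat_lit 0) (nat_lit 0) (nat_lit 0) (nat_lit 0x7e5ff6223e) (nat_lit 797710680),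
  Rx.mk (nat_lit 319) (nat_lit 7) (nat_lit 7) (nat_lit 4) (nat_lit 3) (nat_lit 9) (nat_lit 36) r2_9 r0_36 (nat_lit 0) (nat_lit 0) (nat_lit 0) (nat_lit 0x7dce709b28) (nat_lit 1076733216),
  Rx.mk (nat_lit 359) (nat_lit 7) (nat_lit 4) (nat_lit 5) (nat_lit 5) (nat_lit 5) (nat_lit 35) r2_5 r0_35 (nat_lit 0) (nat_lit 0) (nat_lit 0) (nat_lit 0x7ddc9338f0) (nat_lit 1049630400),
  Rx.mk (nat_lit 372) (nat_lit 4) (nat_lit 6) (nat_lit 5) (nat_lit 6) (nat_lit 1) (nat_lit 32) r2_1 r0_32 (nat_lit 0) (nat_lit 0) (nat_lit 0) (nat_lit 0x7e4b276f3e) (nat_lit 837606744),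
  Rx.mk (nat_lit 375) (nat_lit 7) (nat_lit 6) (nat_lit 5) (nat_lit 7) (nat_lit 7) (nat_lit 40) r2_7 r0_40 (nat_lit 0) (nat_lit 0) (nat_lit 0) (nat_lit 0x7e8b2b6ebe) (nat_lit 714863448),
  Rx.mk (nat_lit 383) (nat_lit 7) (nat_lit 7) (nat_lit 5) (nat_lit 7) (nat_lit 10) (nat_lit 37) r2_10 r0_37 (nat_lit 0) (nat_lit 0) (nat_lit 0) (nat_lit 0x7df79428c6) (nat_lit 997853688),
  Rx.mk (nat_lit 436) (nat_lit 4) (nat_lit 6) (nat_lit 6) (nat_lit 6) (nat_lit 2) (nat_lit 33) r2_2 r0_33 (nat_lit 0) (nat_lit 0) (nat_lit 0) (nat_lit 0x7dc39c287a) (nat_lit 1097498376),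
  Rx.mk (nat_lit 438) (nat_lit 6) (nat_lit 6) (nat_lit 6) (nat_lit 7) (nat_lit 3) (nat_lit 42) r2_3 r0_42 (nat_lit 0) (nat_lit 0) (nat_lit 0) (nat_lit 0x7ddddb446e) (nat_lit 1047173400),
  Rx.mk (nat_lit 439) (nat_lit 7) (nat_lit 6) (nat_lit 6) (nat_lit 7) (nat_lit 8) (nat_lit 41) r2_8 r0_41 (nat_lit 0) (nat_lit 0) (nat_lit 0) (nat_lit 0x7e6254bc52) (nat_lit 793167336),
  Rx.mk (nat_lit 507) (nat_lit 3) (nat_lit 7) (nat_lit 7) (nat_lit 7) (nat_lit 12) (nat_lit 30) r2_12 r0_30 (nat_lit 0) (nat_lit 0) (nat_lit 0) (nat_lit 0x7df6905904) (nat_lit 999799632),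
  Rx.mk (nat_lit 511) (nat_lit 7) (nat_lit 7) (nat_lit 7) (nat_lit 7) (nat_lit 11) (nat_lit 38) r2_11 r0_38 (nat_lit 0) (nat_lit 0) (nat_lit 0) (nat_lit 0x7ded8609b2) (nat_lit 1017133416)]
noncomputable def e2_1 : List Rx := [
  Rx.mk (nat_lit 295) (nat_lit 7) (nat_lit 4) (nat_lit 4) (nat_lit 1) (nat_lit 16) (nat_lit 33) r2_16 r1_33 (nat_lit 0) (nat_lit 0) (nat_lit 0) (nat_lit 0x70f45ca942) (nat_lit 7385115816),
  Rx.mk (nat_lit 308) (nat_lit 4) (nat_lit 6) (nat_lit 4) (nat_lit 2) (nat_lit 13) (nat_lit 31) r2_13 r1_31 (nat_lit 0) (nat_lit 0) (nat_lit 0) (nat_lit 0x68c0f427fe) (nat_lit 11410512984),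
  Rx.mk (nat_lit 311) (nat_lit 7) (nat_lit 6) (nat_lit 4) (nat_lit 3) (nat_lit 17) (nat_lit 36) r2_17 r1_36 (nat_lit 0) (nat_lit 0) (nat_lit 0) (nat_lit 0x7e35c32598) (nat_lit 878623200),
  Rx.mk (nat_lit 319) (nat_lit 7) (nat_lit 7) (nat_lit 4) (nat_lit 3) (nat_lit 19) (nat_lit 34) r2_19 r1_34 (nat_lit 0) (nat_lit 0) (nat_lit 0) (nat_lit 0x7d5dee43be) (nat_lit 1292457816),
  Rx.mk (nat_lit 436) (nat_lit 4) (nat_lit 6) (nat_lit 6) (nat_lit 6) (nat_lit 14) (nat_lit 32) r2_14 r1_32 (nat_lit 0) (nat_lit 0) (nat_lit 0) (nat_lit 0x7d4e539d78) (nat_lit 1322377056),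
  Rx.mk (nat_lit 438) (nat_lit 6) (nat_lit 6) (nat_lit 6) (nat_lit 7) (nat_lit 15) (nat_lit 38) r2_15 r1_38 (nat_lit 0) (nat_lit 0) (nat_lit 0) (nat_lit 0x7dd4655bd6) (nat_lit 1065313080),
  Rx.mk (nat_lit 439) (nat_lit 7) (nat_lit 6) (nat_lit 6) (nat_lit 7) (nat_lit 18) (nat_lit 37) r2_18 r1_37 (nat_lit 0) (nat_lit 0) (nat_lit 0) (nat_lit 0x7de79fe81a) (nat_lit 1028444040),
  Rx.mk (nat_lit 507) (nat_lit 3) (nat_lit 7) (nat_lit 7) (nat_lit 7) (nat_lit 21) (nat_lit 30) r2_21 r1_30 (nat_lit 0) (nat_lit 0) (nat_lit 0) (nat_lit 0x7de7ede33a) (nat_lit 1027859976),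
  Rx.mk (nat_lit 511) (nat_lit 7) (nat_lit 7) (nat_lit 7) (nat_lit 7) (nat_lit 20) (nat_lit 35) r2_20 r1_35 (nat_lit 0) (nat_lit 0) (nat_lit 0) (nat_lit 0x7dad1d3080) (nat_lit 1140632064)]
noncomputable def e2_2 : List Rx := [
  Rx.mk (nat_lit 2) (nat_lit 2) (nat_lit 0) (nat_lit 0) (nat_lit 1) (nat_lit 35) (nat_lit 27) r2_35 r2_27 (nat_lit 0) (nat_lit 0) (nat_lit 0) (nat_lit 0x550354d5b2) (nat_lit 21100308840),
  Rx.mk (nat_lit 24) (nat_lit 0) (nat_lit 3) (nat_lit 0) (nat_lit 2) (nat_lit 33) (nat_lit 22) r2_33 r2_22 (nat_lit 0) (nat_lit 0) (nat_lit 0) (nat_lit 0x550354d5b2) (nat_lit 21100308840),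
  Rx.mk (nat_lit 26) (nat_lit 2) (nat_lit 3) (nat_lit 0) (nat_lit 3) (nat_lit 38) (nat_lit 29) r2_38 r2_29 (nat_lit 0) (nat_lit 0) (nat_lit 0) (nat_lit 0x7ad471be10) (nat_lit 2537780544),
  Rx.mk (nat_lit 130) (nat_lit 2) (nat_lit 0) (nat_lit 2) (nat_lit 5) (nat_lit 36) (nat_lit 28) r2_36 r2_28 (nat_lit 0) (nat_lit 0) (nat_lit 0) (nat_lit 0x6a1206358c) (nat_lit 10764215280),
  Rx.mk (nat_lit 146) (nat_lit 2) (nat_lit 2) (nat_lit 2) (nat_lit 7) (nat_lit 37) (nat_lit 32) r2_37 r2_32 (nat_lit 0) (nat_lit 0) (nat_lit 0) (nat_lit 0x7d20e4d492) (nat_lit 1409489640),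
  Rx.mk (nat_lit 150) (nat_lit 6) (nat_lit 2) (nat_lit 2) (nat_lit 7) (nat_lit 26) (nat_lit 41) r2_26 r2_41 (nat_lit 0) (nat_lit 0) (nat_lit 0) (nat_lit 0x7d3b442e82) (nat_lit 1358923176),
  Rx.mk (nat_lit 154) (nat_lit 2) (nat_lit 3) (nat_lit 2) (nat_lit 7) (nat_lit 39) (nat_lit 31) r2_39 r2_31 (nat_lit 0) (nat_lit 0) (nat_lit 0) (nat_lit 0x7d654c0dda) (nat_lit 1278333576),
  Rx.mk (nat_lit 216) (nat_lit 0) (nat_lit 3) (nat_lit 3) (nat_lit 6) (nat_lit 34) (nat_lit 23) r2_34 r2_23 (nat_lit 0) (nat_lit 0) (nat_lit 0) (nat_lit 0x6a1206358c) (nat_lit 10764215280),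
  Rx.mk (nat_lit 218) (nat_lit 2) (nat_lit 3) (nat_lit 3) (nat_lit 7) (nat_lit 40) (nat_lit 30) r2_40 r2_30 (nat_lit 0) (nat_lit 0) (nat_lit 0) (nat_lit 0x7d654c0dda) (nat_lit 1278333576),
  Rx.mk (nat_lit 219) (nat_lit 3) (nat_lit 3) (nat_lit 3) (nat_lit 7) (nat_lit 43) (nat_lit 24) r2_43 r2_24 (nat_lit 0) (nat_lit 0) (nat_lit 0) (nat_lit 0x7d20e4d492) (nat_lit 1409489640),
  Rx.mk (nat_lit 251) (nat_lit 3) (nat_lit 7) (nat_lit 3) (nat_lit 7) (nat_lit 42) (nat_lit 25) r2_42 r2_25 (nat_lit 0) (nat_lit 0) (nat_lit 0) (nat_lit 0x7d3b442e82) (nat_lit 1358923176),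
  Rx.mk (nat_lit 295) (nat_lit 7) (nat_lit 4) (nat_lit 4) (nat_lit 1) (nat_lit 27) (nat_lit 35) r2_27 r2_35 (nat_lit 0) (nat_lit 0) (nat_lit 0) (nat_lit 0x550354d5b2) (nat_lit 21100308840),
  Rx.mk (nat_lit 308) (nat_lit 4) (nat_lit 6) (nat_lit 4) (nat_lit 2) (nat_lit 22) (nat_lit 33) r2_22 r2_33 (nat_lit 0) (nat_lit 0) (nat_lit 0) (nat_lit 0x550354d5b2) (nat_lit 21100308840),
  Rx.mk (nat_lit 311) (nat_lit 7) (nat_lit 6) (nat_lit 4) (nat_lit 3) (nat_lit 29) (nat_lit 38) r2_29 r2_38 (nat_lit 0) (nat_lit 0) (nat_lit 0) (nat_lit 0x7ad471be10) (nat_lit 2537780544),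
  Rx.mk (nat_lit 406) (nat_lit 6) (nat_lit 2) (nat_lit 6) (nat_lit 7) (nat_lit 25) (nat_lit 42) r2_25 r2_42 (nat_lit 0) (nat_lit 0) (nat_lit 0) (nat_lit 0x7d3b442e82) (nat_lit 1358923176),
  Rx.mk (nat_lit 436) (nat_lit 4) (nat_lit 6) (nat_lit 6) (nat_lit 6) (nat_lit 23) (nat_lit 34) r2_23 r2_34 (nat_lit 0) (nat_lit 0) (nat_lit 0) (nat_lit 0x6a1206358c) (nat_lit 10764215280),
  Rx.mk (nat_lit 438) (nat_lit 6) (nat_lit 6) (nat_lit 6) (nat_lit 7) (nat_lit 24) (nat_lit 43) r2_24 r2_43 (nat_lit 0) (nat_lit 0) (nat_lit 0) (nat_lit 0x7d20e4d492) (nat_lit 1409489640),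
  Rx.mk (nat_lit 439) (nat_lit 7) (nat_lit 6) (nat_lit 6) (nat_lit 7) (nat_lit 30) (nat_lit 40) r2_30 r2_40 (nat_lit 0) (nat_lit 0) (nat_lit 0) (nat_lit 0x7d654c0dda) (nat_lit 1278333576),
  Rx.mk (nat_lit 487) (nat_lit 7) (nat_lit 4) (nat_lit 7) (nat_lit 5) (nat_lit 28) (nat_lit 36) r2_28 r2_36 (nat_lit 0) (nat_lit 0) (nat_lit 0) (nat_lit 0x6a1206358c) (nat_lit 10764215280),
  Rx.mk (nat_lit 503) (nat_lit 7) (nat_lit 6) (nat_lit 7) (nat_lit 7) (nat_lit 31) (nat_lit 39) r2_31 r2_39 (nat_lit 0) (nat_lit 0) (nat_lit 0) (nat_lit 0x7d654c0dda) (nat_lit 1278333576),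
  Rx.mk (nat_lit 507) (nat_lit 3) (nat_lit 7) (nat_lit 7) (nat_lit 7) (nat_lit 41) (nat_lit 26) r2_41 r2_26 (nat_lit 0) (nat_lit 0) (nat_lit 0) (nat_lit 0x7d3b442e82) (nat_lit 1358923176),
  Rx.mk (nat_lit 511) (nat_lit 7) (nat_lit 7) (nat_lit 7) (nat_lit 7) (nat_lit 32) (nat_lit 37) r2_32 r2_37 (nat_lit 0) (nat_lit 0) (nat_lit 0) (nat_lit 0x7d20e4d492) (nat_lit 1409489640)]
noncomputable def e2_3 : List Rx := [
  Rx.mk (nat_lit 359) (nat_lit 7) (nat_lit 4) (nat_lit 5) (nat_lit 5) (nat_lit 44) (nat_lit 21) r2_44 r3_21 (nat_lit 0) (nat_lit 0) (nat_lit 0) (nat_lit 0x7fc66c7972) (nat_lit 110396520),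
  Rx.mk (nat_lit 379) (nat_lit 3) (nat_lit 7) (nat_lit 5) (nat_lit 7) (nat_lit 46) (nat_lit 20) r2_46 r3_20 (nat_lit 0) (nat_lit 0) (nat_lit 0) (nat_lit 0x7f3a2d5df0) (nat_lit 379304640),
  Rx.mk (nat_lit 383) (nat_lit 7) (nat_lit 7) (nat_lit 5) (nat_lit 7) (nat_lit 45) (nat_lit 22) r2_45 r3_22 (nat_lit 0) (nat_lit 0) (nat_lit 0) (nat_lit 0x7f19302de4) (nat_lit 442557648)]
noncomputable def e2_4 : List Rx := [
  Rx.mk (nat_lit 295) (nat_lit 7) (nat_lit 4) (nat_lit 4) (nat_lit 1) (nat_lit 47) (nat_lit 24) r2_47 r4_24 (nat_lit 0) (nat_lit 0) (nat_lit 0) (nat_lit 0x6f9c53eb26) (nat_lit 8044765560),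
  Rx.mk (nat_lit 311) (nat_lit 7) (nat_lit 6) (nat_lit 4) (nat_lit 3) (nat_lit 49) (nat_lit 28) r2_49 r4_28 (nat_lit 0) (nat_lit 0) (nat_lit 0) (nat_lit 0x7ea641bd3e) (nat_lit 662926680),
  Rx.mk (nat_lit 315) (nat_lit 3) (nat_lit 7) (nat_lit 4) (nat_lit 3) (nat_lit 54) (nat_lit 21) r2_54 r4_21 (nat_lit 0) (nat_lit 0) (nat_lit 0) (nat_lit 0x7e2db3a698) (nat_lit 894078432),
  Rx.mk (nat_lit 319) (nat_lit 7) (nat_lit 7) (nat_lit 4) (nat_lit 3) (nat_lit 52) (nat_lit 26) r2_52 r4_26 (nat_lit 0) (nat_lit 0) (nat_lit 0) (nat_lit 0x7e3762eb9a) (nat_lit 875509128),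
  Rx.mk (nat_lit 359) (nat_lit 7) (nat_lit 4) (nat_lit 5) (nat_lit 5) (nat_lit 48) (nat_lit 25) r2_48 r4_25 (nat_lit 0) (nat_lit 0) (nat_lit 0) (nat_lit 0x7e46493d26) (nat_lit 846940536),
  Rx.mk (nat_lit 375) (nat_lit 7) (nat_lit 6) (nat_lit 5) (nat_lit 7) (nat_lit 50) (nat_lit 29) r2_50 r4_29 (nat_lit 0) (nat_lit 0) (nat_lit 0) (nat_lit 0x7e85ff4186) (nat_lit 724781304),
  Rx.mk (nat_lit 379) (nat_lit 3) (nat_lit 7) (nat_lit 5) (nat_lit 7) (nat_lit 55) (nat_lit 22) r2_55 r4_22 (nat_lit 0) (nat_lit 0) (nat_lit 0) (nat_lit 0x7dee60fc02) (nat_lit 1015493544),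
  Rx.mk (nat_lit 383) (nat_lit 7) (nat_lit 7) (nat_lit 5) (nat_lit 7) (nat_lit 53) (nat_lit 27) r2_53 r4_27 (nat_lit 0) (nat_lit 0) (nat_lit 0) (nat_lit 0x7dd9a4a7dc) (nat_lit 1055252016),
  Rx.mk (nat_lit 439) (nat_lit 7) (nat_lit 6) (nat_lit 6) (nat_lit 7) (nat_lit 51) (nat_lit 30) r2_51 r4_30 (nat_lit 0) (nat_lit 0) (nat_lit 0) (nat_lit 0x7e66fbd1dc) (nat_lit 784246320),
  Rx.mk (nat_lit 507) (nat_lit 3) (nat_lit 7) (nat_lit 7) (nat_lit 7) (nat_lit 56) (nat_lit 23) r2_56 r4_23 (nat_lit 0) (nat_lit 0) (nat_lit 0) (nat_lit 0x7de8bc7650) (nat_lit 1026312768)]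
noncomputable def e2_5 : List Rx := [
  Rx.mk (nat_lit 88) (nat_lit 0) (nat_lit 3) (nat_lit 1) (nat_lit 6) (nat_lit 59) (nat_lit 21) r2_59 r3_21 (nat_lit 0) (nat_lit 0) (nat_lit 0) (nat_lit 0x7fc66c7972) (nat_lit 110396520),
  Rx.mk (nat_lit 91) (nat_lit 3) (nat_lit 3) (nat_lit 1) (nat_lit 7) (nat_lit 61) (nat_lit 22) r2_61 r3_22 (nat_lit 0) (nat_lit 0) (nat_lit 0) (nat_lit 0x7f19302de4) (nat_lit 442557648),
  Rx.mk (nat_lit 123) (nat_lit 3) (nat_lit 7) (nat_lit 1) (nat_lit 7) (nat_lit 60) (nat_lit 20) r2_60 r3_20 (nat_lit 0) (nat_lit 0) (nat_lit 0) (nat_lit 0x7f3a2d5df0) (nat_lit 379304640)]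
noncomputable def e2_6 : List Rx := [
  Rx.mk (nat_lit 2) (nat_lit 2) (nat_lit 0) (nat_lit 0) (nat_lit 1) (nat_lit 64) (nat_lit 31) r2_64 r0_31 (nat_lit 0) (nat_lit 0) (nat_lit 0) (nat_lit 0x6b355bdf0e) (nat_lit 10205611416),
  Rx.mk (nat_lit 24) (nat_lit 0) (nat_lit 3) (nat_lit 0) (nat_lit 2) (nat_lit 62) (nat_lit 34) r2_62 r0_34 (nat_lit 0) (nat_lit 0) (nat_lit 0) (nat_lit 0x66c500a932) (nat_lit 12384456552),
  Rx.mk (nat_lit 26) (nat_lit 2) (nat_lit 3) (nat_lit 0) (nat_lit 3) (nat_lit 68) (nat_lit 39) r2_68 r0_39 (nat_lit 0) (nat_lit 0) (nat_lit 0) (nat_lit 0x7e5ff6223e) (nat_lit 797710680),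
  Rx.mk (nat_lit 27) (nat_lit 3) (nat_lit 3) (nat_lit 0) (nat_lit 3) (nat_lit 72) (nat_lit 36) r2_72 r0_36 (nat_lit 0) (nat_lit 0) (nat_lit 0) (nat_lit 0x7dce709b28) (nat_lit 1076733216),
  Rx.mk (nat_lit 66) (nat_lit 2) (nat_lit 0) (nat_lit 1) (nat_lit 5) (nat_lit 65) (nat_lit 32) r2_65 r0_32 (nat_lit 0) (nat_lit 0) (nat_lit 0) (nat_lit 0x7e4b276f3e) (nat_lit 837606744),
  Rx.mk (nat_lit 88) (nat_lit 0) (nat_lit 3) (nat_lit 1) (nat_lit 6) (nat_lit 63) (nat_lit 35) r2_63 r0_35 (nat_lit 0) (nat_lit 0) (nat_lit 0) (nat_lit 0x7ddc9338f0) (nat_lit 1049630400),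
  Rx.mk (nat_lit 90) (nat_lit 2) (nat_lit 3) (nat_lit 1) (nat_lit 7) (nat_lit 69) (nat_lit 40) r2_69 r0_40 (nat_lit 0) (nat_lit 0) (nat_lit 0) (nat_lit 0x7e8b2b6ebe) (nat_lit 714863448),
  Rx.mk (nat_lit 91) (nat_lit 3) (nat_lit 3) (nat_lit 1) (nat_lit 7) (nat_lit 73) (nat_lit 37) r2_73 r0_37 (nat_lit 0) (nat_lit 0) (nat_lit 0) (nat_lit 0x7df79428c6) (nat_lit 997853688),
  Rx.mk (nat_lit 130) (nat_lit 2) (nat_lit 0) (nat_lit 2) (nat_lit 5) (nat_lit 66) (nat_lit 33) r2_66 r0_33 (nat_lit 0) (nat_lit 0) (nat_lit 0) (nat_lit 0x7dc39c287a) (nat_lit 1097498376),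
  Rx.mk (nat_lit 146) (nat_lit 2) (nat_lit 2) (nat_lit 2) (nat_lit 7) (nat_lit 67) (nat_lit 42) r2_67 r0_42 (nat_lit 0) (nat_lit 0) (nat_lit 0) (nat_lit 0x7ddddb446e) (nat_lit 1047173400),
  Rx.mk (nat_lit 154) (nat_lit 2) (nat_lit 3) (nat_lit 2) (nat_lit 7) (nat_lit 70) (nat_lit 41) r2_70 r0_41 (nat_lit 0) (nat_lit 0) (nat_lit 0) (nat_lit 0x7e6254bc52) (nat_lit 793167336),
  Rx.mk (nat_lit 219) (nat_lit 3) (nat_lit 3) (nat_lit 3) (nat_lit 7) (nat_lit 74) (nat_lit 38) r2_74 r0_38 (nat_lit 0) (nat_lit 0) (nat_lit 0) (nat_lit 0x7ded8609b2) (nat_lit 1017133416),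
  Rx.mk (nat_lit 251) (nat_lit 3) (nat_lit 7) (nat_lit 3) (nat_lit 7) (nat_lit 71) (nat_lit 30) r2_71 r0_30 (nat_lit 0) (nat_lit 0) (nat_lit 0) (nat_lit 0x7df6905904) (nat_lit 999799632)]
noncomputable def e2_7 : List Rx := [
  Rx.mk (nat_lit 2) (nat_lit 2) (nat_lit 0) (nat_lit 0) (nat_lit 1) (nat_lit 76) (nat_lit 31) r2_76 r1_31 (nat_lit 0) (nat_lit 0) (nat_lit 0) (nat_lit 0x68c0f427fe) (nat_lit 11410512984),
  Rx.mk (nat_lit 24) (nat_lit 0) (nat_lit 3) (nat_lit 0) (nat_lit 2) (nat_lit 75) (nat_lit 33) r2_75 r1_33 (nat_lit 0) (nat_lit 0) (nat_lit 0) (nat_lit 0x70f45ca942) (nat_lit 7385115816),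
  Rx.mk (nat_lit 26) (nat_lit 2) (nat_lit 3) (nat_lit 0) (nat_lit 3) (nat_lit 79) (nat_lit 36) r2_79 r1_36 (nat_lit 0) (nat_lit 0) (nat_lit 0) (nat_lit 0x7e35c32598) (nat_lit 878623200),
  Rx.mk (nat_lit 27) (nat_lit 3) (nat_lit 3) (nat_lit 0) (nat_lit 3) (nat_lit 82) (nat_lit 34) r2_82 r1_34 (nat_lit 0) (nat_lit 0) (nat_lit 0) (nat_lit 0x7d5dee43be) (nat_lit 1292457816),
  Rx.mk (nat_lit 130) (nat_lit 2) (nat_lit 0) (nat_lit 2) (nat_lit 5) (nat_lit 77) (nat_lit 32) r2_77 r1_32 (nat_lit 0) (nat_lit 0) (nat_lit 0) (nat_lit 0x7d4e539d78) (nat_lit 1322377056),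
  Rx.mk (nat_lit 146) (nat_lit 2) (nat_lit 2) (nat_lit 2) (nat_lit 7) (nat_lit 78) (nat_lit 38) r2_78 r1_38 (nat_lit 0) (nat_lit 0) (nat_lit 0) (nat_lit 0x7dd4655bd6) (nat_lit 1065313080),
  Rx.mk (nat_lit 154) (nat_lit 2) (nat_lit 3) (nat_lit 2) (nat_lit 7) (nat_lit 80) (nat_lit 37) r2_80 r1_37 (nat_lit 0) (nat_lit 0) (nat_lit 0) (nat_lit 0x7de79fe81a) (nat_lit 1028444040),
  Rx.mk (nat_lit 219) (nat_lit 3) (nat_lit 3) (nat_lit 3) (nat_lit 7) (nat_lit 83) (nat_lit 35) r2_83 r1_35 (nat_lit 0) (nat_lit 0) (nat_lit 0) (nat_lit 0x7dad1d3080) (nat_lit 1140632064),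
  Rx.mk (nat_lit 251) (nat_lit 3) (nat_lit 7) (nat_lit 3) (nat_lit 7) (nat_lit 81) (nat_lit 30) r2_81 r1_30 (nat_lit 0) (nat_lit 0) (nat_lit 0) (nat_lit 0x7de7ede33a) (nat_lit 1027859976)]
noncomputable def e2_8 : List Rx := [
  Rx.mk (nat_lit 24) (nat_lit 0) (nat_lit 3) (nat_lit 0) (nat_lit 2) (nat_lit 84) (nat_lit 24) r2_84 r4_24 (nat_lit 0) (nat_lit 0) (nat_lit 0) (nat_lit 0x6f9c53eb26) (nat_lit 8044765560),
  Rx.mk (nat_lit 26) (nat_lit 2) (nat_lit 3) (nat_lit 0) (nat_lit 3) (nat_lit 86) (nat_lit 28) r2_86 r4_28 (nat_lit 0) (nat_lit 0) (nat_lit 0) (nat_lit 0x7ea641bd3e) (nat_lit 662926680),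
  Rx.mk (nat_lit 27) (nat_lit 3) (nat_lit 3) (nat_lit 0) (nat_lit 3) (nat_lit 92) (nat_lit 26) r2_92 r4_26 (nat_lit 0) (nat_lit 0) (nat_lit 0) (nat_lit 0x7e3762eb9a) (nat_lit 875509128),
  Rx.mk (nat_lit 59) (nat_lit 3) (nat_lit 7) (nat_lit 0) (nat_lit 3) (nat_lit 89) (nat_lit 21) r2_89 r4_21 (nat_lit 0) (nat_lit 0) (nat_lit 0) (nat_lit 0x7e2db3a698) (nat_lit 894078432),
  Rx.mk (nat_lit 88) (nat_lit 0) (nat_lit 3) (nat_lit 1) (nat_lit 6) (nat_lit 85) (nat_lit 25) r2_85 r4_25 (nat_lit 0) (nat_lit 0) (nat_lit 0) (nat_lit 0x7e46493d26) (nat_lit 846940536),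
  Rx.mk (nat_lit 90) (nat_lit 2) (nat_lit 3) (nat_lit 1) (nat_lit 7) (nat_lit 87) (nat_lit 29) r2_87 r4_29 (nat_lit 0) (nat_lit 0) (nat_lit 0) (nat_lit 0x7e85ff4186) (nat_lit 724781304),
  Rx.mk (nat_lit 91) (nat_lit 3) (nat_lit 3) (nat_lit 1) (nat_lit 7) (nat_lit 93) (nat_lit 27) r2_93 r4_27 (nat_lit 0) (nat_lit 0) (nat_lit 0) (nat_lit 0x7dd9a4a7dc) (nat_lit 1055252016),
  Rx.mk (nat_lit 123) (nat_lit 3) (nat_lit 7) (nat_lit 1) (nat_lit 7) (nat_lit 90) (nat_lit 22) r2_90 r4_22 (nat_lit 0) (nat_lit 0) (nat_lit 0) (nat_lit 0x7dee60fc02) (nat_lit 1015493544),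
  Rx.mk (nat_lit 154) (nat_lit 2) (nat_lit 3) (nat_lit 2) (nat_lit 7) (nat_lit 88) (nat_lit 30) r2_88 r4_30 (nat_lit 0) (nat_lit 0) (nat_lit 0) (nat_lit 0x7e66fbd1dc) (nat_lit 784246320),
  Rx.mk (nat_lit 251) (nat_lit 3) (nat_lit 7) (nat_lit 3) (nat_lit 7) (nat_lit 91) (nat_lit 23) r2_91 r4_23 (nat_lit 0) (nat_lit 0) (nat_lit 0) (nat_lit 0x7de8bc7650) (nat_lit 1026312768)]
noncomputable def e2_9 : List Rx := [
  Rx.mk (nat_lit 123) (nat_lit 3) (nat_lit 7) (nat_lit 1) (nat_lit 7) (nat_lit 95) (nat_lit 10) r2_95 r5_10 (nat_lit 0) (nat_lit 0) (nat_lit 0) (nat_lit 0x7de5390e8a) (nat_lit 1033049160),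
  Rx.mk (nat_lit 379) (nat_lit 3) (nat_lit 7) (nat_lit 5) (nat_lit 7) (nat_lit 94) (nat_lit 11) r2_94 r5_11 (nat_lit 0) (nat_lit 0) (nat_lit 0) (nat_lit 0x7de5390e8a) (nat_lit 1033049160)]
noncomputable def e2_10 : List Rx := [
  Rx.mk (nat_lit 356) (nat_lit 4) (nat_lit 4) (nat_lit 5) (nat_lit 4) (nat_lit 98) (nat_lit 254) r2_98 r0_254 (nat_lit 0) (nat_lit 0) (nat_lit 0) (nat_lit 0x58ede04910) (nat_lit 19178033472),
  Rx.mk (nat_lit 359) (nat_lit 7) (nat_lit 4) (nat_lit 5) (nat_lit 5) (nat_lit 99) (nat_lit 255) r2_99 r0_255 (nat_lit 0) (nat_lit 0) (nat_lit 0) (nat_lit 0x7c870832f6) (nat_lit 1704503736),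
  Rx.mk (nat_lit 383) (nat_lit 7) (nat_lit 7) (nat_lit 5) (nat_lit 7) (nat_lit 100) (nat_lit 256) r2_100 r0_256 (nat_lit 0) (nat_lit 0) (nat_lit 0) (nat_lit 0x7df272dae0) (nat_lit 1007690112)]
noncomputable def e2_11 : List Rx := [
  Rx.mk (nat_lit 292) (nat_lit 4) (nat_lit 4) (nat_lit 4) (nat_lit 0) (nat_lit 101) (nat_lit 21) r2_101 r6_21 (nat_lit 0) (nat_lit 0) (nat_lit 0) (nat_lit 0x3b982e8184) (nat_lit 33577092432),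
  Rx.mk (nat_lit 295) (nat_lit 7) (nat_lit 4) (nat_lit 4) (nat_lit 1) (nat_lit 107) (nat_lit 26) r2_107 r6_26 (nat_lit 0) (nat_lit 0) (nat_lit 0) (nat_lit 0x6e2c488d4c) (nat_lit 8750452464),
  Rx.mk (nat_lit 308) (nat_lit 4) (nat_lit 6) (nat_lit 4) (nat_lit 2) (nat_lit 103) (nat_lit 23) r2_103 r6_23 (nat_lit 0) (nat_lit 0) (nat_lit 0) (nat_lit 0x75dc704320) (nat_lit 4976719488),
  Rx.mk (nat_lit 311) (nat_lit 7) (nat_lit 6) (nat_lit 4) (nat_lit 3) (nat_lit 109) (nat_lit 31) r2_109 r6_31 (nat_lit 0) (nat_lit 0) (nat_lit 0) (nat_lit 0x7dd93fce2a) (nat_lit 1056007368),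
  Rx.mk (nat_lit 319) (nat_lit 7) (nat_lit 7) (nat_lit 4) (nat_lit 3) (nat_lit 112) (nat_lit 28) r2_112 r6_28 (nat_lit 0) (nat_lit 0) (nat_lit 0) (nat_lit 0x7d86aa57d4) (nat_lit 1214353296),
  Rx.mk (nat_lit 356) (nat_lit 4) (nat_lit 4) (nat_lit 5) (nat_lit 4) (nat_lit 102) (nat_lit 22) r2_102 r6_22 (nat_lit 0) (nat_lit 0) (nat_lit 0) (nat_lit 0x68b79d5d74) (nat_lit 11428419600),
  Rx.mk (nat_lit 359) (nat_lit 7) (nat_lit 4) (nat_lit 5) (nat_lit 5) (nat_lit 108) (nat_lit 27) r2_108 r6_27 (nat_lit 0) (nat_lit 0) (nat_lit 0) (nat_lit 0x7dcd510d22) (nat_lit 1078886952),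
  Rx.mk (nat_lit 372) (nat_lit 4) (nat_lit 6) (nat_lit 5) (nat_lit 6) (nat_lit 104) (nat_lit 24) r2_104 r6_24 (nat_lit 0) (nat_lit 0) (nat_lit 0) (nat_lit 0x7d6beb63de) (nat_lit 1265635800),
  Rx.mk (nat_lit 375) (nat_lit 7) (nat_lit 6) (nat_lit 5) (nat_lit 7) (nat_lit 110) (nat_lit 32) r2_110 r6_32 (nat_lit 0) (nat_lit 0) (nat_lit 0) (nat_lit 0x7ddcd23500) (nat_lit 1049158656),
  Rx.mk (nat_lit 383) (nat_lit 7) (nat_lit 7) (nat_lit 5) (nat_lit 7) (nat_lit 113) (nat_lit 29) r2_113 r6_29 (nat_lit 0) (nat_lit 0) (nat_lit 0) (nat_lit 0x7dfc7eba18) (nat_lit 988427232),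
  Rx.mk (nat_lit 436) (nat_lit 4) (nat_lit 6) (nat_lit 6) (nat_lit 6) (nat_lit 105) (nat_lit 25) r2_105 r6_25 (nat_lit 0) (nat_lit 0) (nat_lit 0) (nat_lit 0x7d26cf15e8) (nat_lit 1398148128),
  Rx.mk (nat_lit 438) (nat_lit 6) (nat_lit 6) (nat_lit 6) (nat_lit 7) (nat_lit 106) (nat_lit 34) r2_106 r6_34 (nat_lit 0) (nat_lit 0) (nat_lit 0) (nat_lit 0x7dc2f852b8) (nat_lit 1098725472),
  Rx.mk (nat_lit 439) (nat_lit 7) (nat_lit 6) (nat_lit 6) (nat_lit 7) (nat_lit 111) (nat_lit 33) r2_111 r6_33 (nat_lit 0) (nat_lit 0) (nat_lit 0) (nat_lit 0x7df6c535b6) (nat_lit 999403704),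
  Rx.mk (nat_lit 511) (nat_lit 7) (nat_lit 7) (nat_lit 7) (nat_lit 7) (nat_lit 114) (nat_lit 30) r2_114 r6_30 (nat_lit 0) (nat_lit 0) (nat_lit 0) (nat_lit 0x7dda493d92) (nat_lit 1054019304)]
noncomputable def e2_12 : List Rx := [
  Rx.mk (nat_lit 356) (nat_lit 4) (nat_lit 4) (nat_lit 5) (nat_lit 4) (nat_lit 115) (nat_lit 258) r2_115 r1_258 (nat_lit 0) (nat_lit 0) (nat_lit 0) (nat_lit 0x64fea130f0) (nat_lit 13255669440),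
  Rx.mk (nat_lit 357) (nat_lit 5) (nat_lit 4) (nat_lit 5) (nat_lit 5) (nat_lit 116) (nat_lit 259) r2_116 r1_259 (nat_lit 0) (nat_lit 0) (nat_lit 0) (nat_lit 0x7d01d9256c) (nat_lit 1469016432),
  Rx.mk (nat_lit 359) (nat_lit 7) (nat_lit 4) (nat_lit 5) (nat_lit 5) (nat_lit 117) (nat_lit 260) r2_117 r1_260 (nat_lit 0) (nat_lit 0) (nat_lit 0) (nat_lit 0x7dc4639c02) (nat_lit 1096004520),
  Rx.mk (nat_lit 383) (nat_lit 7) (nat_lit 7) (nat_lit 5) (nat_lit 7) (nat_lit 118) (nat_lit 261) r2_118 r1_261 (nat_lit 0) (nat_lit 0) (nat_lit 0) (nat_lit 0x7deee313e0) (nat_lit 1014519168)]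
noncomputable def e2_13 : List Rx := [
  Rx.mk (nat_lit 292) (nat_lit 4) (nat_lit 4) (nat_lit 4) (nat_lit 0) (nat_lit 119) (nat_lit 25) r2_119 r7_25 (nat_lit 0) (nat_lit 0) (nat_lit 0) (nat_lit 0x29642f73aa) (nat_lit 42512151240),
  Rx.mk (nat_lit 293) (nat_lit 5) (nat_lit 4) (nat_lit 4) (nat_lit 1) (nat_lit 124) (nat_lit 30) r2_124 r7_30 (nat_lit 0) (nat_lit 0) (nat_lit 0) (nat_lit 0x7afaf2d5d8) (nat_lit 2463952608),
  Rx.mk (nat_lit 295) (nat_lit 7) (nat_lit 4) (nat_lit 4) (nat_lit 1) (nat_lit 130) (nat_lit 35) r2_130 r7_35 (nat_lit 0) (nat_lit 0) (nat_lit 0) (nat_lit 0x7a45758e62) (nat_lit 2811939624),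
  Rx.mk (nat_lit 308) (nat_lit 4) (nat_lit 6) (nat_lit 4) (nat_lit 2) (nat_lit 121) (nat_lit 27) r2_121 r7_27 (nat_lit 0) (nat_lit 0) (nat_lit 0) (nat_lit 0x7ba3736d26) (nat_lit 2140866936),
  Rx.mk (nat_lit 309) (nat_lit 5) (nat_lit 6) (nat_lit 4) (nat_lit 3) (nat_lit 126) (nat_lit 32) r2_126 r7_32 (nat_lit 0) (nat_lit 0) (nat_lit 0) (nat_lit 0x7de3209014) (nat_lit 1037067408),
  Rx.mk (nat_lit 311) (nat_lit 7) (nat_lit 6) (nat_lit 4) (nat_lit 3) (nat_lit 132) (nat_lit 40) r2_132 r7_40 (nat_lit 0) (nat_lit 0) (nat_lit 0) (nat_lit 0x7d9f1fb066) (nat_lit 1167456888),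
  Rx.mk (nat_lit 319) (nat_lit 7) (nat_lit 7) (nat_lit 4) (nat_lit 3) (nat_lit 134) (nat_lit 37) r2_134 r7_37 (nat_lit 0) (nat_lit 0) (nat_lit 0) (nat_lit 0x7ddea617c0) (nat_lit 1045654272),
  Rx.mk (nat_lit 356) (nat_lit 4) (nat_lit 4) (nat_lit 5) (nat_lit 4) (nat_lit 120) (nat_lit 26) r2_120 r7_26 (nat_lit 0) (nat_lit 0) (nat_lit 0) (nat_lit 0x7204dfa002) (nat_lit 6862603176),
  Rx.mk (nat_lit 357) (nat_lit 5) (nat_lit 4) (nat_lit 5) (nat_lit 5) (nat_lit 125) (nat_lit 31) r2_125 r7_31 (nat_lit 0) (nat_lit 0) (nat_lit 0) (nat_lit 0x7d1ecd760a) (nat_lit 1413499464),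
  Rx.mk (nat_lit 359) (nat_lit 7) (nat_lit 4) (nat_lit 5) (nat_lit 5) (nat_lit 131) (nat_lit 36) r2_131 r7_36 (nat_lit 0) (nat_lit 0) (nat_lit 0) (nat_lit 0x7dd31cf05e) (nat_lit 1067772888),
  Rx.mk (nat_lit 372) (nat_lit 4) (nat_lit 6) (nat_lit 5) (nat_lit 6) (nat_lit 122) (nat_lit 28) r2_122 r7_28 (nat_lit 0) (nat_lit 0) (nat_lit 0) (nat_lit 0x7dded494d8) (nat_lit 1045306080),
  Rx.mk (nat_lit 373) (nat_lit 5) (nat_lit 6) (nat_lit 5) (nat_lit 7) (nat_lit 127) (nat_lit 33) r2_127 r7_33 (nat_lit 0) (nat_lit 0) (nat_lit 0) (nat_lit 0x7df944cdba) (nat_lit 994613256),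
  Rx.mk (nat_lit 375) (nat_lit 7) (nat_lit 6) (nat_lit 5) (nat_lit 7) (nat_lit 133) (nat_lit 41) r2_133 r7_41 (nat_lit 0) (nat_lit 0) (nat_lit 0) (nat_lit 0x7dcf8c696a) (nat_lit 1074607560),
  Rx.mk (nat_lit 383) (nat_lit 7) (nat_lit 7) (nat_lit 5) (nat_lit 7) (nat_lit 135) (nat_lit 38) r2_135 r7_38 (nat_lit 0) (nat_lit 0) (nat_lit 0) (nat_lit 0x7de929ef78) (nat_lit 1025492832),
  Rx.mk (nat_lit 436) (nat_lit 4) (nat_lit 6) (nat_lit 6) (nat_lit 6) (nat_lit 123) (nat_lit 29) r2_123 r7_29 (nat_lit 0) (nat_lit 0) (nat_lit 0) (nat_lit 0x7dacbf765c) (nat_lit 1141334064),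
  Rx.mk (nat_lit 437) (nat_lit 5) (nat_lit 6) (nat_lit 6) (nat_lit 7) (nat_lit 128) (nat_lit 34) r2_128 r7_34 (nat_lit 0) (nat_lit 0) (nat_lit 0) (nat_lit 0x7dd548ed9c) (nat_lit 1063608624),
  Rx.mk (nat_lit 438) (nat_lit 6) (nat_lit 6) (nat_lit 6) (nat_lit 7) (nat_lit 129) (nat_lit 42) r2_129 r7_42 (nat_lit 0) (nat_lit 0) (nat_lit 0) (nat_lit 0x7dd1b1471a) (nat_lit 1070496648),
  Rx.mk (nat_lit 511) (nat_lit 7) (nat_lit 7) (nat_lit 7) (nat_lit 7) (nat_lit 136) (nat_lit 39) r2_136 r7_39 (nat_lit 0) (nat_lit 0) (nat_lit 0) (nat_lit 0x7de105d1c2) (nat_lit 1041102504)]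
noncomputable def e2_14 : List Rx := [
  Rx.mk (nat_lit 292) (nat_lit 4) (nat_lit 4) (nat_lit 4) (nat_lit 0) (nat_lit 137) (nat_lit 257) r2_137 r7_257 (nat_lit 0) (nat_lit 0) (nat_lit 0) (nat_lit 0x1e5f4facac) (nat_lit 47920884336),
  Rx.mk (nat_lit 295) (nat_lit 7) (nat_lit 4) (nat_lit 4) (nat_lit 1) (nat_lit 141) (nat_lit 258) r2_141 r7_258 (nat_lit 0) (nat_lit 0) (nat_lit 0) (nat_lit 0x645245d752) (nat_lit 13586145768),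
  Rx.mk (nat_lit 308) (nat_lit 4) (nat_lit 6) (nat_lit 4) (nat_lit 2) (nat_lit 138) (nat_lit 260) r2_138 r7_260 (nat_lit 0) (nat_lit 0) (nat_lit 0) (nat_lit 0x69fe864d9e) (nat_lit 10801603800),
  Rx.mk (nat_lit 311) (nat_lit 7) (nat_lit 6) (nat_lit 4) (nat_lit 3) (nat_lit 142) (nat_lit 261) r2_142 r7_261 (nat_lit 0) (nat_lit 0) (nat_lit 0) (nat_lit 0x7d878d89a0) (nat_lit 1212651648),
  Rx.mk (nat_lit 319) (nat_lit 7) (nat_lit 7) (nat_lit 4) (nat_lit 3) (nat_lit 144) (nat_lit 259) r2_144 r7_259 (nat_lit 0) (nat_lit 0) (nat_lit 0) (nat_lit 0x7d4b54ed66) (nat_lit 1328119416),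
  Rx.mk (nat_lit 436) (nat_lit 4) (nat_lit 6) (nat_lit 6) (nat_lit 6) (nat_lit 139) (nat_lit 263) r2_139 r7_263 (nat_lit 0) (nat_lit 0) (nat_lit 0) (nat_lit 0x7cb4d0f63c) (nat_lit 1616717232),
  Rx.mk (nat_lit 438) (nat_lit 6) (nat_lit 6) (nat_lit 6) (nat_lit 7) (nat_lit 140) (nat_lit 265) r2_140 r7_265 (nat_lit 0) (nat_lit 0) (nat_lit 0) (nat_lit 0x7dc01560ea) (nat_lit 1104260040),
  Rx.mk (nat_lit 439) (nat_lit 7) (nat_lit 6) (nat_lit 6) (nat_lit 7) (nat_lit 143) (nat_lit 264) r2_143 r7_264 (nat_lit 0) (nat_lit 0) (nat_lit 0) (nat_lit 0x7dbd458dea) (nat_lit 1109651400),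
  Rx.mk (nat_lit 511) (nat_lit 7) (nat_lit 7) (nat_lit 7) (nat_lit 7) (nat_lit 145) (nat_lit 262) r2_145 r7_262 (nat_lit 0) (nat_lit 0) (nat_lit 0) (nat_lit 0x7dbed954ac) (nat_lit 1106627184)]
noncomputable def e2_15 : List Rx := [
  Rx.mk (nat_lit 150) (nat_lit 6) (nat_lit 2) (nat_lit 2) (nat_lit 7) (nat_lit 151) (nat_lit 11) r2_151 r8_11 (nat_lit 0) (nat_lit 0) (nat_lit 0) (nat_lit 0x7dc7103136) (nat_lit 1090877112),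
  Rx.mk (nat_lit 292) (nat_lit 4) (nat_lit 4) (nat_lit 4) (nat_lit 0) (nat_lit 146) (nat_lit 2) r2_146 r8_2 (nat_lit 0) (nat_lit 0) (nat_lit 0) (nat_lit 0x22bc65d6ec) (nat_lit 45778986864),
  Rx.mk (nat_lit 295) (nat_lit 7) (nat_lit 4) (nat_lit 4) (nat_lit 1) (nat_lit 152) (nat_lit 5) r2_152 r8_5 (nat_lit 0) (nat_lit 0) (nat_lit 0) (nat_lit 0x6cc1809b36) (nat_lit 9446047416),
  Rx.mk (nat_lit 308) (nat_lit 4) (nat_lit 6) (nat_lit 4) (nat_lit 2) (nat_lit 147) (nat_lit 3) r2_147 r8_3 (nat_lit 0) (nat_lit 0) (nat_lit 0) (nat_lit 0x69ae26f3e4) (nat_lit 10955709648),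
  Rx.mk (nat_lit 311) (nat_lit 7) (nat_lit 6) (nat_lit 4) (nat_lit 3) (nat_lit 154) (nat_lit 8) r2_154 r8_8 (nat_lit 0) (nat_lit 0) (nat_lit 0) (nat_lit 0x7d4d86ea44) (nat_lit 1323910224),
  Rx.mk (nat_lit 406) (nat_lit 6) (nat_lit 2) (nat_lit 6) (nat_lit 7) (nat_lit 150) (nat_lit 12) r2_150 r8_12 (nat_lit 0) (nat_lit 0) (nat_lit 0) (nat_lit 0x7dd4cc7564) (nat_lit 1064540880),
  Rx.mk (nat_lit 436) (nat_lit 4) (nat_lit 6) (nat_lit 6) (nat_lit 6) (nat_lit 148) (nat_lit 4) r2_148 r8_4 (nat_lit 0) (nat_lit 0) (nat_lit 0) (nat_lit 0x7bd6535ef4) (nat_lit 2043319824),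
  Rx.mk (nat_lit 438) (nat_lit 6) (nat_lit 6) (nat_lit 6) (nat_lit 7) (nat_lit 149) (nat_lit 13) r2_149 r8_13 (nat_lit 0) (nat_lit 0) (nat_lit 0) (nat_lit 0x7db8d11536) (nat_lit 1118193336),
  Rx.mk (nat_lit 439) (nat_lit 7) (nat_lit 6) (nat_lit 6) (nat_lit 7) (nat_lit 155) (nat_lit 10) r2_155 r8_10 (nat_lit 0) (nat_lit 0) (nat_lit 0) (nat_lit 0x7da7826a32) (nat_lit 1151378280),
  Rx.mk (nat_lit 487) (nat_lit 7) (nat_lit 4) (nat_lit 7) (nat_lit 5) (nat_lit 153) (nat_lit 6) r2_153 r8_6 (nat_lit 0) (nat_lit 0) (nat_lit 0) (nat_lit 0x7b78681e06) (nat_lit 2223399672),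
  Rx.mk (nat_lit 503) (nat_lit 7) (nat_lit 6) (nat_lit 7) (nat_lit 7) (nat_lit 156) (nat_lit 9) r2_156 r8_9 (nat_lit 0) (nat_lit 0) (nat_lit 0) (nat_lit 0x7df040de02) (nat_lit 1011899304),
  Rx.mk (nat_lit 511) (nat_lit 7) (nat_lit 7) (nat_lit 7) (nat_lit 7) (nat_lit 157) (nat_lit 7) r2_157 r8_7 (nat_lit 0) (nat_lit 0) (nat_lit 0) (nat_lit 0x7de2b616bc) (nat_lit 1037864880)]
noncomputable def e2_16 : List Rx := [
  Rx.mk (nat_lit 359) (nat_lit 7) (nat_lit 4) (nat_lit 5) (nat_lit 5) (nat_lit 158) (nat_lit 271) r2_158 r4_271 (nat_lit 0) (nat_lit 0) (nat_lit 0) (nat_lit 0x7dd5e96394) (nat_lit 1062406800),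
  Rx.mk (nat_lit 383) (nat_lit 7) (nat_lit 7) (nat_lit 5) (nat_lit 7) (nat_lit 159) (nat_lit 272) r2_159 r4_272 (nat_lit 0) (nat_lit 0) (nat_lit 0) (nat_lit 0x7de99d6840) (nat_lit 1024627968)]
noncomputable def e2_17 : List Rx := [
  Rx.mk (nat_lit 295) (nat_lit 7) (nat_lit 4) (nat_lit 4) (nat_lit 1) (nat_lit 160) (nat_lit 10) r2_160 r9_10 (nat_lit 0) (nat_lit 0) (nat_lit 0) (nat_lit 0x716992d56a) (nat_lit 7160374728),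
  Rx.mk (nat_lit 311) (nat_lit 7) (nat_lit 6) (nat_lit 4) (nat_lit 3) (nat_lit 162) (nat_lit 14) r2_162 r9_14 (nat_lit 0) (nat_lit 0) (nat_lit 0) (nat_lit 0x7d8494d92e) (nat_lit 1218349080),
  Rx.mk (nat_lit 319) (nat_lit 7) (nat_lit 7) (nat_lit 4) (nat_lit 3) (nat_lit 165) (nat_lit 12) r2_165 r9_12 (nat_lit 0) (nat_lit 0) (nat_lit 0) (nat_lit 0x7d6c413e80) (nat_lit 1264992768),
  Rx.mk (nat_lit 359) (nat_lit 7) (nat_lit 4) (nat_lit 5) (nat_lit 5) (nat_lit 161) (nat_lit 11) r2_161 r9_11 (nat_lit 0) (nat_lit 0) (nat_lit 0) (nat_lit 0x7c4aec14f4) (nat_lit 1819758096),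
  Rx.mk (nat_lit 375) (nat_lit 7) (nat_lit 6) (nat_lit 5) (nat_lit 7) (nat_lit 163) (nat_lit 15) r2_163 r9_15 (nat_lit 0) (nat_lit 0) (nat_lit 0) (nat_lit 0x7de22aff6e) (nat_lit 1038906648),
  Rx.mk (nat_lit 383) (nat_lit 7) (nat_lit 7) (nat_lit 5) (nat_lit 7) (nat_lit 166) (nat_lit 13) r2_166 r9_13 (nat_lit 0) (nat_lit 0) (nat_lit 0) (nat_lit 0x7dce829a08) (nat_lit 1076598432),
  Rx.mk (nat_lit 439) (nat_lit 7) (nat_lit 6) (nat_lit 6) (nat_lit 7) (nat_lit 164) (nat_lit 16) r2_164 r9_16 (nat_lit 0) (nat_lit 0) (nat_lit 0) (nat_lit 0x7ddafc725e) (nat_lit 1052677080)]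
noncomputable def e2_18 : List Rx := [
  Rx.mk (nat_lit 383) (nat_lit 7) (nat_lit 7) (nat_lit 5) (nat_lit 7) (nat_lit 167) (nat_lit 5) r2_167 r10_5 (nat_lit 0) (nat_lit 0) (nat_lit 0) (nat_lit 0x7dd3702b2a) (nat_lit 1067149512)]
noncomputable def e2_19 : List Rx := [
  Rx.mk (nat_lit 0) (nat_lit 0) (nat_lit 0) (nat_lit 0) (nat_lit 0) (nat_lit 170) (nat_lit 2) r2_170 r8_2 (nat_lit 0) (nat_lit 0) (nat_lit 0) (nat_lit 0x22bc65d6ec) (nat_lit 45778986864),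
  Rx.mk (nat_lit 2) (nat_lit 2) (nat_lit 0) (nat_lit 0) (nat_lit 1) (nat_lit 173) (nat_lit 3) r2_173 r8_3 (nat_lit 0) (nat_lit 0) (nat_lit 0) (nat_lit 0x69ae26f3e4) (nat_lit 10955709648),
  Rx.mk (nat_lit 24) (nat_lit 0) (nat_lit 3) (nat_lit 0) (nat_lit 2) (nat_lit 171) (nat_lit 5) r2_171 r8_5 (nat_lit 0) (nat_lit 0) (nat_lit 0) (nat_lit 0x6cc1809b36) (nat_lit 9446047416),
  Rx.mk (nat_lit 26) (nat_lit 2) (nat_lit 3) (nat_lit 0) (nat_lit 3) (nat_lit 176) (nat_lit 8) r2_176 r8_8 (nat_lit 0) (nat_lit 0) (nat_lit 0) (nat_lit 0x7d4d86ea44) (nat_lit 1323910224),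
  Rx.mk (nat_lit 130) (nat_lit 2) (nat_lit 0) (nat_lit 2) (nat_lit 5) (nat_lit 174) (nat_lit 4) r2_174 r8_4 (nat_lit 0) (nat_lit 0) (nat_lit 0) (nat_lit 0x7bd6535ef4) (nat_lit 2043319824),
  Rx.mk (nat_lit 146) (nat_lit 2) (nat_lit 2) (nat_lit 2) (nat_lit 7) (nat_lit 175) (nat_lit 13) r2_175 r8_13 (nat_lit 0) (nat_lit 0) (nat_lit 0) (nat_lit 0x7db8d11536) (nat_lit 1118193336),
  Rx.mk (nat_lit 150) (nat_lit 6) (nat_lit 2) (nat_lit 2) (nat_lit 7) (nat_lit 169) (nat_lit 12) r2_169 r8_12 (nat_lit 0) (nat_lit 0) (nat_lit 0) (nat_lit 0x7dd4cc7564) (nat_lit 1064540880),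
  Rx.mk (nat_lit 154) (nat_lit 2) (nat_lit 3) (nat_lit 2) (nat_lit 7) (nat_lit 177) (nat_lit 10) r2_177 r8_10 (nat_lit 0) (nat_lit 0) (nat_lit 0) (nat_lit 0x7da7826a32) (nat_lit 1151378280),
  Rx.mk (nat_lit 216) (nat_lit 0) (nat_lit 3) (nat_lit 3) (nat_lit 6) (nat_lit 172) (nat_lit 6) r2_172 r8_6 (nat_lit 0) (nat_lit 0) (nat_lit 0) (nat_lit 0x7b78681e06) (nat_lit 2223399672),
  Rx.mk (nat_lit 218) (nat_lit 2) (nat_lit 3) (nat_lit 3) (nat_lit 7) (nat_lit 178) (nat_lit 9) r2_178 r8_9 (nat_lit 0) (nat_lit 0) (nat_lit 0) (nat_lit 0x7df040de02) (nat_lit 1011899304),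
  Rx.mk (nat_lit 219) (nat_lit 3) (nat_lit 3) (nat_lit 3) (nat_lit 7) (nat_lit 179) (nat_lit 7) r2_179 r8_7 (nat_lit 0) (nat_lit 0) (nat_lit 0) (nat_lit 0x7de2b616bc) (nat_lit 1037864880),
  Rx.mk (nat_lit 406) (nat_lit 6) (nat_lit 2) (nat_lit 6) (nat_lit 7) (nat_lit 168) (nat_lit 11) r2_168 r8_11 (nat_lit 0) (nat_lit 0) (nat_lit 0) (nat_lit 0x7dc7103136) (nat_lit 1090877112)]
noncomputable def e2_20 : List Rx := [
  Rx.mk (nat_lit 64) (nat_lit 0) (nat_lit 0) (nat_lit 1) (nat_lit 4) (nat_lit 180) (nat_lit 254) r2_180 r0_254 (nat_lit 0) (nat_lit 0) (nat_lit 0) (nat_lit 0x58ede04910) (nat_lit 19178033472),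
  Rx.mk (nat_lit 88) (nat_lit 0) (nat_lit 3) (nat_lit 1) (nat_lit 6) (nat_lit 181) (nat_lit 255) r2_181 r0_255 (nat_lit 0) (nat_lit 0) (nat_lit 0) (nat_lit 0x7c870832f6) (nat_lit 1704503736),
  Rx.mk (nat_lit 91) (nat_lit 3) (nat_lit 3) (nat_lit 1) (nat_lit 7) (nat_lit 182) (nat_lit 256) r2_182 r0_256 (nat_lit 0) (nat_lit 0) (nat_lit 0) (nat_lit 0x7df272dae0) (nat_lit 1007690112)]
noncomputable def e2_21 : List Rx := [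
  Rx.mk (nat_lit 64) (nat_lit 0) (nat_lit 0) (nat_lit 1) (nat_lit 4) (nat_lit 183) (nat_lit 258) r2_183 r1_258 (nat_lit 0) (nat_lit 0) (nat_lit 0) (nat_lit 0x64fea130f0) (nat_lit 13255669440),
  Rx.mk (nat_lit 72) (nat_lit 0) (nat_lit 1) (nat_lit 1) (nat_lit 6) (nat_lit 184) (nat_lit 259) r2_184 r1_259 (nat_lit 0) (nat_lit 0) (nat_lit 0) (nat_lit 0x7d01d9256c) (nat_lit 1469016432),
  Rx.mk (nat_lit 88) (nat_lit 0) (nat_lit 3) (nat_lit 1) (nat_lit 6) (nat_lit 185) (nat_lit 260) r2_185 r1_260 (nat_lit 0) (nat_lit 0) (nat_lit 0) (nat_lit 0x7dc4639c02) (nat_lit 1096004520),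
  Rx.mk (nat_lit 91) (nat_lit 3) (nat_lit 3) (nat_lit 1) (nat_lit 7) (nat_lit 186) (nat_lit 261) r2_186 r1_261 (nat_lit 0) (nat_lit 0) (nat_lit 0) (nat_lit 0x7deee313e0) (nat_lit 1014519168)]
noncomputable def e2_22 : List Rx := [
  Rx.mk (nat_lit 88) (nat_lit 0) (nat_lit 3) (nat_lit 1) (nat_lit 6) (nat_lit 187) (nat_lit 271) r2_187 r4_271 (nat_lit 0) (nat_lit 0) (nat_lit 0) (nat_lit 0x7dd5e96394) (nat_lit 1062406800),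
  Rx.mk (nat_lit 91) (nat_lit 3) (nat_lit 3) (nat_lit 1) (nat_lit 7) (nat_lit 188) (nat_lit 272) r2_188 r4_272 (nat_lit 0) (nat_lit 0) (nat_lit 0) (nat_lit 0x7de99d6840) (nat_lit 1024627968)]
noncomputable def e2_23 : List Rx := [
  Rx.mk (nat_lit 0) (nat_lit 0) (nat_lit 0) (nat_lit 0) (nat_lit 0) (nat_lit 189) (nat_lit 21) r2_189 r6_21 (nat_lit 0) (nat_lit 0) (nat_lit 0) (nat_lit 0x3b982e8184) (nat_lit 33577092432),
  Rx.mk (nat_lit 2) (nat_lit 2) (nat_lit 0) (nat_lit 0) (nat_lit 1) (nat_lit 193) (nat_lit 23) r2_193 r6_23 (nat_lit 0) (nat_lit 0) (nat_lit 0) (nat_lit 0x75dc704320) (nat_lit 4976719488),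
  Rx.mk (nat_lit 24) (nat_lit 0) (nat_lit 3) (nat_lit 0) (nat_lit 2) (nat_lit 191) (nat_lit 26) r2_191 r6_26 (nat_lit 0) (nat_lit 0) (nat_lit 0) (nat_lit 0x6e2c488d4c) (nat_lit 8750452464),
  Rx.mk (nat_lit 26) (nat_lit 2) (nat_lit 3) (nat_lit 0) (nat_lit 3) (nat_lit 197) (nat_lit 31) r2_197 r6_31 (nat_lit 0) (nat_lit 0) (nat_lit 0) (nat_lit 0x7dd93fce2a) (nat_lit 1056007368),
  Rx.mk (nat_lit 27) (nat_lit 3) (nat_lit 3) (nat_lit 0) (nat_lit 3) (nat_lit 200) (nat_lit 28) r2_200 r6_28 (nat_lit 0) (nat_lit 0) (nat_lit 0) (nat_lit 0x7d86aa57d4) (nat_lit 1214353296),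
  Rx.mk (nat_lit 64) (nat_lit 0) (nat_lit 0) (nat_lit 1) (nat_lit 4) (nat_lit 190) (nat_lit 22) r2_190 r6_22 (nat_lit 0) (nat_lit 0) (nat_lit 0) (nat_lit 0x68b79d5d74) (nat_lit 11428419600),
  Rx.mk (nat_lit 66) (nat_lit 2) (nat_lit 0) (nat_lit 1) (nat_lit 5) (nat_lit 194) (nat_lit 24) r2_194 r6_24 (nat_lit 0) (nat_lit 0) (nat_lit 0) (nat_lit 0x7d6beb63de) (nat_lit 1265635800),
  Rx.mk (nat_lit 88) (nat_lit 0) (nat_lit 3) (nat_lit 1) (nat_lit 6) (nat_lit 192) (nat_lit 27) r2_192 r6_27 (nat_lit 0) (nat_lit 0) (nat_lit 0) (nat_lit 0x7dcd510d22) (nat_lit 1078886952),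
  Rx.mk (nat_lit 90) (nat_lit 2) (nat_lit 3) (nat_lit 1) (nat_lit 7) (nat_lit 198) (nat_lit 32) r2_198 r6_32 (nat_lit 0) (nat_lit 0) (nat_lit 0) (nat_lit 0x7ddcd23500) (nat_lit 1049158656),
  Rx.mk (nat_lit 91) (nat_lit 3) (nat_lit 3) (nat_lit 1) (nat_lit 7) (nat_lit 201) (nat_lit 29) r2_201 r6_29 (nat_lit 0) (nat_lit 0) (nat_lit 0) (nat_lit 0x7dfc7eba18) (nat_lit 988427232),
  Rx.mk (nat_lit 130) (nat_lit 2) (nat_lit 0) (nat_lit 2) (nat_lit 5) (nat_lit 195) (nat_lit 25) r2_195 r6_25 (nat_lit 0) (nat_lit 0) (nat_lit 0) (nat_lit 0x7d26cf15e8) (nat_lit 1398148128),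
  Rx.mk (nat_lit 146) (nat_lit 2) (nat_lit 2) (nat_lit 2) (nat_lit 7) (nat_lit 196) (nat_lit 34) r2_196 r6_34 (nat_lit 0) (nat_lit 0) (nat_lit 0) (nat_lit 0x7dc2f852b8) (nat_lit 1098725472),
  Rx.mk (nat_lit 154) (nat_lit 2) (nat_lit 3) (nat_lit 2) (nat_lit 7) (nat_lit 199) (nat_lit 33) r2_199 r6_33 (nat_lit 0) (nat_lit 0) (nat_lit 0) (nat_lit 0x7df6c535b6) (nat_lit 999403704),
  Rx.mk (nat_lit 219) (nat_lit 3) (nat_lit 3) (nat_lit 3) (nat_lit 7) (nat_lit 202) (nat_lit 30) r2_202 r6_30 (nat_lit 0) (nat_lit 0) (nat_lit 0) (nat_lit 0x7dda493d92) (nat_lit 1054019304)]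
noncomputable def e2_24 : List Rx := [
  Rx.mk (nat_lit 0) (nat_lit 0) (nat_lit 0) (nat_lit 0) (nat_lit 0) (nat_lit 203) (nat_lit 25) r2_203 r7_25 (nat_lit 0) (nat_lit 0) (nat_lit 0) (nat_lit 0x29642f73aa) (nat_lit 42512151240),
  Rx.mk (nat_lit 2) (nat_lit 2) (nat_lit 0) (nat_lit 0) (nat_lit 1) (nat_lit 209) (nat_lit 27) r2_209 r7_27 (nat_lit 0) (nat_lit 0) (nat_lit 0) (nat_lit 0x7ba3736d26) (nat_lit 2140866936),
  Rx.mk (nat_lit 8) (nat_lit 0) (nat_lit 1) (nat_lit 0) (nat_lit 2) (nat_lit 205) (nat_lit 30) r2_205 r7_30 (nat_lit 0) (nat_lit 0) (nat_lit 0) (nat_lit 0x7afaf2d5d8) (nat_lit 2463952608),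
  Rx.mk (nat_lit 10) (nat_lit 2) (nat_lit 1) (nat_lit 0) (nat_lit 3) (nat_lit 212) (nat_lit 32) r2_212 r7_32 (nat_lit 0) (nat_lit 0) (nat_lit 0) (nat_lit 0x7de3209014) (nat_lit 1037067408),
  Rx.mk (nat_lit 24) (nat_lit 0) (nat_lit 3) (nat_lit 0) (nat_lit 2) (nat_lit 207) (nat_lit 35) r2_207 r7_35 (nat_lit 0) (nat_lit 0) (nat_lit 0) (nat_lit 0x7a45758e62) (nat_lit 2811939624),
  Rx.mk (nat_lit 26) (nat_lit 2) (nat_lit 3) (nat_lit 0) (nat_lit 3) (nat_lit 216) (nat_lit 40) r2_216 r7_40 (nat_lit 0) (nat_lit 0) (nat_lit 0) (nat_lit 0x7d9f1fb066) (nat_lit 1167456888),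
  Rx.mk (nat_lit 27) (nat_lit 3) (nat_lit 3) (nat_lit 0) (nat_lit 3) (nat_lit 218) (nat_lit 37) r2_218 r7_37 (nat_lit 0) (nat_lit 0) (nat_lit 0) (nat_lit 0x7ddea617c0) (nat_lit 1045654272),
  Rx.mk (nat_lit 64) (nat_lit 0) (nat_lit 0) (nat_lit 1) (nat_lit 4) (nat_lit 204) (nat_lit 26) r2_204 r7_26 (nat_lit 0) (nat_lit 0) (nat_lit 0) (nat_lit 0x7204dfa002) (nat_lit 6862603176),
  Rx.mk (nat_lit 66) (nat_lit 2) (nat_lit 0) (nat_lit 1) (nat_lit 5) (nat_lit 210) (nat_lit 28) r2_210 r7_28 (nat_lit 0) (nat_lit 0) (nat_lit 0) (nat_lit 0x7dded494d8) (nat_lit 1045306080),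
  Rx.mk (nat_lit 72) (nat_lit 0) (nat_lit 1) (nat_lit 1) (nat_lit 6) (nat_lit 206) (nat_lit 31) r2_206 r7_31 (nat_lit 0) (nat_lit 0) (nat_lit 0) (nat_lit 0x7d1ecd760a) (nat_lit 1413499464),
  Rx.mk (nat_lit 74) (nat_lit 2) (nat_lit 1) (nat_lit 1) (nat_lit 7) (nat_lit 213) (nat_lit 33) r2_213 r7_33 (nat_lit 0) (nat_lit 0) (nat_lit 0) (nat_lit 0x7df944cdba) (nat_lit 994613256),
  Rx.mk (nat_lit 88) (nat_lit 0) (nat_lit 3) (nat_lit 1) (nat_lit 6) (nat_lit 208) (nat_lit 36) r2_208 r7_36 (nat_lit 0) (nat_lit 0) (nat_lit 0) (nat_lit 0x7dd31cf05e) (nat_lit 1067772888),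
  Rx.mk (nat_lit 90) (nat_lit 2) (nat_lit 3) (nat_lit 1) (nat_lit 7) (nat_lit 217) (nat_lit 41) r2_217 r7_41 (nat_lit 0) (nat_lit 0) (nat_lit 0) (nat_lit 0x7dcf8c696a) (nat_lit 1074607560),
  Rx.mk (nat_lit 91) (nat_lit 3) (nat_lit 3) (nat_lit 1) (nat_lit 7) (nat_lit 219) (nat_lit 38) r2_219 r7_38 (nat_lit 0) (nat_lit 0) (nat_lit 0) (nat_lit 0x7de929ef78) (nat_lit 1025492832),
  Rx.mk (nat_lit 130) (nat_lit 2) (nat_lit 0) (nat_lit 2) (nat_lit 5) (nat_lit 211) (nat_lit 29) r2_211 r7_29 (nat_lit 0) (nat_lit 0) (nat_lit 0) (nat_lit 0x7dacbf765c) (nat_lit 1141334064),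
  Rx.mk (nat_lit 138) (nat_lit 2) (nat_lit 1) (nat_lit 2) (nat_lit 7) (nat_lit 214) (nat_lit 34) r2_214 r7_34 (nat_lit 0) (nat_lit 0) (nat_lit 0) (nat_lit 0x7dd548ed9c) (nat_lit 1063608624),
  Rx.mk (nat_lit 146) (nat_lit 2) (nat_lit 2) (nat_lit 2) (nat_lit 7) (nat_lit 215) (nat_lit 42) r2_215 r7_42 (nat_lit 0) (nat_lit 0) (nat_lit 0) (nat_lit 0x7dd1b1471a) (nat_lit 1070496648),
  Rx.mk (nat_lit 219) (nat_lit 3) (nat_lit 3) (nat_lit 3) (nat_lit 7) (nat_lit 220) (nat_lit 39) r2_220 r7_39 (nat_lit 0) (nat_lit 0) (nat_lit 0) (nat_lit 0x7de105d1c2) (nat_lit 1041102504)]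
noncomputable def e2_25 : List Rx := [
  Rx.mk (nat_lit 0) (nat_lit 0) (nat_lit 0) (nat_lit 0) (nat_lit 0) (nat_lit 221) (nat_lit 257) r2_221 r7_257 (nat_lit 0) (nat_lit 0) (nat_lit 0) (nat_lit 0x1e5f4facac) (nat_lit 47920884336),
  Rx.mk (nat_lit 2) (nat_lit 2) (nat_lit 0) (nat_lit 0) (nat_lit 1) (nat_lit 223) (nat_lit 260) r2_223 r7_260 (nat_lit 0) (nat_lit 0) (nat_lit 0) (nat_lit 0x69fe864d9e) (nat_lit 10801603800),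
  Rx.mk (nat_lit 24) (nat_lit 0) (nat_lit 3) (nat_lit 0) (nat_lit 2) (nat_lit 222) (nat_lit 258) r2_222 r7_258 (nat_lit 0) (nat_lit 0) (nat_lit 0) (nat_lit 0x645245d752) (nat_lit 13586145768),
  Rx.mk (nat_lit 26) (nat_lit 2) (nat_lit 3) (nat_lit 0) (nat_lit 3) (nat_lit 226) (nat_lit 261) r2_226 r7_261 (nat_lit 0) (nat_lit 0) (nat_lit 0) (nat_lit 0x7d878d89a0) (nat_lit 1212651648),
  Rx.mk (nat_lit 27) (nat_lit 3) (nat_lit 3) (nat_lit 0) (nat_lit 3) (nat_lit 228) (nat_lit 259) r2_228 r7_259 (nat_lit 0) (nat_lit 0) (nat_lit 0) (nat_lit 0x7d4b54ed66) (nat_lit 1328119416),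
  Rx.mk (nat_lit 130) (nat_lit 2) (nat_lit 0) (nat_lit 2) (nat_lit 5) (nat_lit 224) (nat_lit 263) r2_224 r7_263 (nat_lit 0) (nat_lit 0) (nat_lit 0) (nat_lit 0x7cb4d0f63c) (nat_lit 1616717232),
  Rx.mk (nat_lit 146) (nat_lit 2) (nat_lit 2) (nat_lit 2) (nat_lit 7) (nat_lit 225) (nat_lit 265) r2_225 r7_265 (nat_lit 0) (nat_lit 0) (nat_lit 0) (nat_lit 0x7dc01560ea) (nat_lit 1104260040),
  Rx.mk (nat_lit 154) (nat_lit 2) (nat_lit 3) (nat_lit 2) (nat_lit 7) (nat_lit 227) (nat_lit 264) r2_227 r7_264 (nat_lit 0) (nat_lit 0) (nat_lit 0) (nat_lit 0x7dbd458dea) (nat_lit 1109651400),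
  Rx.mk (nat_lit 219) (nat_lit 3) (nat_lit 3) (nat_lit 3) (nat_lit 7) (nat_lit 229) (nat_lit 262) r2_229 r7_262 (nat_lit 0) (nat_lit 0) (nat_lit 0) (nat_lit 0x7dbed954ac) (nat_lit 1106627184)]
noncomputable def e2_26 : List Rx := [
  Rx.mk (nat_lit 24) (nat_lit 0) (nat_lit 3) (nat_lit 0) (nat_lit 2) (nat_lit 230) (nat_lit 10) r2_230 r9_10 (nat_lit 0) (nat_lit 0) (nat_lit 0) (nat_lit 0x716992d56a) (nat_lit 7160374728),
  Rx.mk (nat_lit 26) (nat_lit 2) (nat_lit 3) (nat_lit 0) (nat_lit 3) (nat_lit 232) (nat_lit 14) r2_232 r9_14 (nat_lit 0) (nat_lit 0) (nat_lit 0) (nat_lit 0x7d8494d92e) (nat_lit 1218349080),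
  Rx.mk (nat_lit 27) (nat_lit 3) (nat_lit 3) (nat_lit 0) (nat_lit 3) (nat_lit 235) (nat_lit 12) r2_235 r9_12 (nat_lit 0) (nat_lit 0) (nat_lit 0) (nat_lit 0x7d6c413e80) (nat_lit 1264992768),
  Rx.mk (nat_lit 88) (nat_lit 0) (nat_lit 3) (nat_lit 1) (nat_lit 6) (nat_lit 231) (nat_lit 11) r2_231 r9_11 (nat_lit 0) (nat_lit 0) (nat_lit 0) (nat_lit 0x7c4aec14f4) (nat_lit 1819758096),
  Rx.mk (nat_lit 90) (nat_lit 2) (nat_lit 3) (nat_lit 1) (nat_lit 7) (nat_lit 233) (nat_lit 15) r2_233 r9_15 (nat_lit 0) (nat_lit 0) (nat_lit 0) (nat_lit 0x7de22aff6e) (nat_lit 1038906648),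
  Rx.mk (nat_lit 91) (nat_lit 3) (nat_lit 3) (nat_lit 1) (nat_lit 7) (nat_lit 236) (nat_lit 13) r2_236 r9_13 (nat_lit 0) (nat_lit 0) (nat_lit 0) (nat_lit 0x7dce829a08) (nat_lit 1076598432),
  Rx.mk (nat_lit 154) (nat_lit 2) (nat_lit 3) (nat_lit 2) (nat_lit 7) (nat_lit 234) (nat_lit 16) r2_234 r9_16 (nat_lit 0) (nat_lit 0) (nat_lit 0) (nat_lit 0x7ddafc725e) (nat_lit 1052677080)]
noncomputable def e2_27 : List Rx := [
  Rx.mk (nat_lit 91) (nat_lit 3) (nat_lit 3) (nat_lit 1) (nat_lit 7) (nat_lit 237) (nat_lit 5) r2_237 r10_5 (nat_lit 0) (nat_lit 0) (nat_lit 0) (nat_lit 0x7dd3702b2a) (nat_lit 1067149512)]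
noncomputable def e2_28 : List Rx := [
  Rx.mk (nat_lit 291) (nat_lit 3) (nat_lit 4) (nat_lit 4) (nat_lit 1) (nat_lit 246) (nat_lit 309) r2_246 r10_309 (nat_lit 0) (nat_lit 0) (nat_lit 0) (nat_lit 0x66e4917006) (nat_lit 12323932920),
  Rx.mk (nat_lit 295) (nat_lit 7) (nat_lit 4) (nat_lit 4) (nat_lit 1) (nat_lit 241) (nat_lit 308) r2_241 r10_308 (nat_lit 0) (nat_lit 0) (nat_lit 0) (nat_lit 0x6a7892cc5c) (nat_lit 10567587888),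
  Rx.mk (nat_lit 311) (nat_lit 7) (nat_lit 6) (nat_lit 4) (nat_lit 3) (nat_lit 243) (nat_lit 311) r2_243 r10_311 (nat_lit 0) (nat_lit 0) (nat_lit 0) (nat_lit 0x7dc32e4f58) (nat_lit 1098321120),
  Rx.mk (nat_lit 315) (nat_lit 3) (nat_lit 7) (nat_lit 4) (nat_lit 3) (nat_lit 248) (nat_lit 310) r2_248 r10_310 (nat_lit 0) (nat_lit 0) (nat_lit 0) (nat_lit 0x7dd287b9b2) (nat_lit 1068890472),
  Rx.mk (nat_lit 355) (nat_lit 3) (nat_lit 4) (nat_lit 5) (nat_lit 5) (nat_lit 247) (nat_lit 313) r2_247 r10_313 (nat_lit 0) (nat_lit 0) (nat_lit 0) (nat_lit 0x7dd88cf958) (nat_lit 1057346784),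
  Rx.mk (nat_lit 359) (nat_lit 7) (nat_lit 4) (nat_lit 5) (nat_lit 5) (nat_lit 242) (nat_lit 312) r2_242 r10_312 (nat_lit 0) (nat_lit 0) (nat_lit 0) (nat_lit 0x7dda7c9a5c) (nat_lit 1053634608),
  Rx.mk (nat_lit 375) (nat_lit 7) (nat_lit 6) (nat_lit 5) (nat_lit 7) (nat_lit 244) (nat_lit 315) r2_244 r10_315 (nat_lit 0) (nat_lit 0) (nat_lit 0) (nat_lit 0x7de6ab7762) (nat_lit 1030274856),
  Rx.mk (nat_lit 379) (nat_lit 3) (nat_lit 7) (nat_lit 5) (nat_lit 7) (nat_lit 249) (nat_lit 314) r2_249 r10_314 (nat_lit 0) (nat_lit 0) (nat_lit 0) (nat_lit 0x7dd90551d2) (nat_lit 1056445416),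
  Rx.mk (nat_lit 439) (nat_lit 7) (nat_lit 6) (nat_lit 6) (nat_lit 7) (nat_lit 245) (nat_lit 317) r2_245 r10_317 (nat_lit 0) (nat_lit 0) (nat_lit 0) (nat_lit 0x7df7510cf8) (nat_lit 998356320),
  Rx.mk (nat_lit 507) (nat_lit 3) (nat_lit 7) (nat_lit 7) (nat_lit 7) (nat_lit 250) (nat_lit 316) r2_250 r10_316 (nat_lit 0) (nat_lit 0) (nat_lit 0) (nat_lit 0x7df6d8b47e) (nat_lit 999257688)]
noncomputable def e2_29 : List Rx := [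
  Rx.mk (nat_lit 99) (nat_lit 3) (nat_lit 4) (nat_lit 1) (nat_lit 5) (nat_lit 253) (nat_lit 308) r2_253 r5_308 (nat_lit 0) (nat_lit 0) (nat_lit 0) (nat_lit 0x7d47970948) (nat_lit 1335293856),
  Rx.mk (nat_lit 120) (nat_lit 0) (nat_lit 7) (nat_lit 1) (nat_lit 6) (nat_lit 252) (nat_lit 307) r2_252 r5_307 (nat_lit 0) (nat_lit 0) (nat_lit 0) (nat_lit 0x7d5005c254) (nat_lit 1319125392),
  Rx.mk (nat_lit 123) (nat_lit 3) (nat_lit 7) (nat_lit 1) (nat_lit 7) (nat_lit 254) (nat_lit 309) r2_254 r5_309 (nat_lit 0) (nat_lit 0) (nat_lit 0) (nat_lit 0x7de4629bf2) (nat_lit 1034655336),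
  Rx.mk (nat_lit 376) (nat_lit 0) (nat_lit 7) (nat_lit 5) (nat_lit 6) (nat_lit 251) (nat_lit 306) r2_251 r5_306 (nat_lit 0) (nat_lit 0) (nat_lit 0) (nat_lit 0x7d0b86ea86) (nat_lit 1450458360)]
noncomputable def e2_30 : List Rx := [
  Rx.mk (nat_lit 24) (nat_lit 0) (nat_lit 3) (nat_lit 0) (nat_lit 2) (nat_lit 260) (nat_lit 308) r2_260 r10_308 (nat_lit 0) (nat_lit 0) (nat_lit 0) (nat_lit 0x6a7892cc5c) (nat_lit 10567587888),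
  Rx.mk (nat_lit 26) (nat_lit 2) (nat_lit 3) (nat_lit 0) (nat_lit 3) (nat_lit 262) (nat_lit 311) r2_262 r10_311 (nat_lit 0) (nat_lit 0) (nat_lit 0) (nat_lit 0x7dc32e4f58) (nat_lit 1098321120),
  Rx.mk (nat_lit 56) (nat_lit 0) (nat_lit 7) (nat_lit 0) (nat_lit 2) (nat_lit 258) (nat_lit 309) r2_258 r10_309 (nat_lit 0) (nat_lit 0) (nat_lit 0) (nat_lit 0x66e4917006) (nat_lit 12323932920),
  Rx.mk (nat_lit 59) (nat_lit 3) (nat_lit 7) (nat_lit 0) (nat_lit 3) (nat_lit 265) (nat_lit 310) r2_265 r10_310 (nat_lit 0) (nat_lit 0) (nat_lit 0) (nat_lit 0x7dd287b9b2) (nat_lit 1068890472),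
  Rx.mk (nat_lit 88) (nat_lit 0) (nat_lit 3) (nat_lit 1) (nat_lit 6) (nat_lit 261) (nat_lit 312) r2_261 r10_312 (nat_lit 0) (nat_lit 0) (nat_lit 0) (nat_lit 0x7dda7c9a5c) (nat_lit 1053634608),
  Rx.mk (nat_lit 90) (nat_lit 2) (nat_lit 3) (nat_lit 1) (nat_lit 7) (nat_lit 263) (nat_lit 315) r2_263 r10_315 (nat_lit 0) (nat_lit 0) (nat_lit 0) (nat_lit 0x7de6ab7762) (nat_lit 1030274856),
  Rx.mk (nat_lit 120) (nat_lit 0) (nat_lit 7) (nat_lit 1) (nat_lit 6) (nat_lit 259) (nat_lit 313) r2_259 r10_313 (nat_lit 0) (nat_lit 0) (nat_lit 0) (nat_lit 0x7dd88cf958) (nat_lit 1057346784),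
  Rx.mk (nat_lit 123) (nat_lit 3) (nat_lit 7) (nat_lit 1) (nat_lit 7) (nat_lit 266) (nat_lit 314) r2_266 r10_314 (nat_lit 0) (nat_lit 0) (nat_lit 0) (nat_lit 0x7dd90551d2) (nat_lit 1056445416),
  Rx.mk (nat_lit 154) (nat_lit 2) (nat_lit 3) (nat_lit 2) (nat_lit 7) (nat_lit 264) (nat_lit 317) r2_264 r10_317 (nat_lit 0) (nat_lit 0) (nat_lit 0) (nat_lit 0x7df7510cf8) (nat_lit 998356320),
  Rx.mk (nat_lit 251) (nat_lit 3) (nat_lit 7) (nat_lit 3) (nat_lit 7) (nat_lit 267) (nat_lit 316) r2_267 r10_316 (nat_lit 0) (nat_lit 0) (nat_lit 0) (nat_lit 0x7df6d8b47e) (nat_lit 999257688)]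
noncomputable def e2_31 : List Rx := [
  Rx.mk (nat_lit 99) (nat_lit 3) (nat_lit 4) (nat_lit 1) (nat_lit 5) (nat_lit 270) (nat_lit 306) r2_270 r5_306 (nat_lit 0) (nat_lit 0) (nat_lit 0) (nat_lit 0x7d0b86ea86) (nat_lit 1450458360),
  Rx.mk (nat_lit 355) (nat_lit 3) (nat_lit 4) (nat_lit 5) (nat_lit 5) (nat_lit 269) (nat_lit 307) r2_269 r5_307 (nat_lit 0) (nat_lit 0) (nat_lit 0) (nat_lit 0x7d5005c254) (nat_lit 1319125392),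
  Rx.mk (nat_lit 376) (nat_lit 0) (nat_lit 7) (nat_lit 5) (nat_lit 6) (nat_lit 268) (nat_lit 308) r2_268 r5_308 (nat_lit 0) (nat_lit 0) (nat_lit 0) (nat_lit 0x7d47970948) (nat_lit 1335293856),
  Rx.mk (nat_lit 379) (nat_lit 3) (nat_lit 7) (nat_lit 5) (nat_lit 7) (nat_lit 271) (nat_lit 309) r2_271 r5_309 (nat_lit 0) (nat_lit 0) (nat_lit 0) (nat_lit 0x7de4629bf2) (nat_lit 1034655336)]
noncomputable def e2_32 : List Rx := [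
  Rx.mk (nat_lit 99) (nat_lit 3) (nat_lit 4) (nat_lit 1) (nat_lit 5) (nat_lit 273) (nat_lit 11) r2_273 r11_11 (nat_lit 0) (nat_lit 0) (nat_lit 0) (nat_lit 0x7d2c30dfc6) (nat_lit 1387828728),
  Rx.mk (nat_lit 123) (nat_lit 3) (nat_lit 7) (nat_lit 1) (nat_lit 7) (nat_lit 275) (nat_lit 12) r2_275 r11_12 (nat_lit 0) (nat_lit 0) (nat_lit 0) (nat_lit 0x7dc1c905ae) (nat_lit 1100997144),
  Rx.mk (nat_lit 376) (nat_lit 0) (nat_lit 7) (nat_lit 5) (nat_lit 6) (nat_lit 272) (nat_lit 10) r2_272 r11_10 (nat_lit 0) (nat_lit 0) (nat_lit 0) (nat_lit 0x7d2c30dfc6) (nat_lit 1387828728),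
  Rx.mk (nat_lit 379) (nat_lit 3) (nat_lit 7) (nat_lit 5) (nat_lit 7) (nat_lit 274) (nat_lit 13) r2_274 r11_13 (nat_lit 0) (nat_lit 0) (nat_lit 0) (nat_lit 0x7dc1c905ae) (nat_lit 1100997144)]
noncomputable def e2_33 : List Rx := [
  Rx.mk (nat_lit 104) (nat_lit 0) (nat_lit 5) (nat_lit 1) (nat_lit 6) (nat_lit 277) (nat_lit 286) r2_277 r0_286 (nat_lit 0) (nat_lit 0) (nat_lit 0) (nat_lit 0x7e0b17707e) (nat_lit 960439896),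
  Rx.mk (nat_lit 105) (nat_lit 1) (nat_lit 5) (nat_lit 1) (nat_lit 7) (nat_lit 279) (nat_lit 288) r2_279 r0_288 (nat_lit 0) (nat_lit 0) (nat_lit 0) (nat_lit 0x7de13f8e26) (nat_lit 1040670072),
  Rx.mk (nat_lit 360) (nat_lit 0) (nat_lit 5) (nat_lit 5) (nat_lit 6) (nat_lit 276) (nat_lit 285) r2_276 r0_285 (nat_lit 0) (nat_lit 0) (nat_lit 0) (nat_lit 0x7e3ae53372) (nat_lit 868781160),
  Rx.mk (nat_lit 361) (nat_lit 1) (nat_lit 5) (nat_lit 5) (nat_lit 7) (nat_lit 278) (nat_lit 287) r2_278 r0_287 (nat_lit 0) (nat_lit 0) (nat_lit 0) (nat_lit 0x7de4b8169a) (nat_lit 1034015112)]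
noncomputable def e2_34 : List Rx := [
  Rx.mk (nat_lit 97) (nat_lit 1) (nat_lit 4) (nat_lit 1) (nat_lit 5) (nat_lit 281) (nat_lit 285) r2_281 r0_285 (nat_lit 0) (nat_lit 0) (nat_lit 0) (nat_lit 0x7e3ae53372) (nat_lit 868781160),
  Rx.mk (nat_lit 105) (nat_lit 1) (nat_lit 5) (nat_lit 1) (nat_lit 7) (nat_lit 283) (nat_lit 287) r2_283 r0_287 (nat_lit 0) (nat_lit 0) (nat_lit 0) (nat_lit 0x7de4b8169a) (nat_lit 1034015112),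
  Rx.mk (nat_lit 353) (nat_lit 1) (nat_lit 4) (nat_lit 5) (nat_lit 5) (nat_lit 280) (nat_lit 286) r2_280 r0_286 (nat_lit 0) (nat_lit 0) (nat_lit 0) (nat_lit 0x7e0b17707e) (nat_lit 960439896),
  Rx.mk (nat_lit 361) (nat_lit 1) (nat_lit 5) (nat_lit 5) (nat_lit 7) (nat_lit 282) (nat_lit 288) r2_282 r0_288 (nat_lit 0) (nat_lit 0) (nat_lit 0) (nat_lit 0x7de13f8e26) (nat_lit 1040670072)]
noncomputable def e2_35 : List Rx := [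
  Rx.mk (nat_lit 105) (nat_lit 1) (nat_lit 5) (nat_lit 1) (nat_lit 7) (nat_lit 285) (nat_lit 400) r2_285 r6_400 (nat_lit 0) (nat_lit 0) (nat_lit 0) (nat_lit 0x7ddbba867c) (nat_lit 1051253424),
  Rx.mk (nat_lit 361) (nat_lit 1) (nat_lit 5) (nat_lit 5) (nat_lit 7) (nat_lit 284) (nat_lit 399) r2_284 r6_399 (nat_lit 0) (nat_lit 0) (nat_lit 0) (nat_lit 0x7ddbba867c) (nat_lit 1051253424)]
noncomputable def e2_36 : List Rx := [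
  Rx.mk (nat_lit 357) (nat_lit 5) (nat_lit 4) (nat_lit 5) (nat_lit 5) (nat_lit 286) (nat_lit 310) r2_286 r2_310 (nat_lit 0) (nat_lit 0) (nat_lit 0) (nat_lit 0x7b91b0e960) (nat_lit 2174919552),
  Rx.mk (nat_lit 365) (nat_lit 5) (nat_lit 5) (nat_lit 5) (nat_lit 7) (nat_lit 287) (nat_lit 311) r2_287 r2_311 (nat_lit 0) (nat_lit 0) (nat_lit 0) (nat_lit 0x7de334ced0) (nat_lit 1036915776)]
noncomputable def e2_37 : List Rx := [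
  Rx.mk (nat_lit 365) (nat_lit 5) (nat_lit 5) (nat_lit 5) (nat_lit 7) (nat_lit 288) (nat_lit 293) r2_288 r8_293 (nat_lit 0) (nat_lit 0) (nat_lit 0) (nat_lit 0x7dee79ba76) (nat_lit 1015308216)]
noncomputable def e2_38 : List Rx := [
  Rx.mk (nat_lit 293) (nat_lit 5) (nat_lit 4) (nat_lit 4) (nat_lit 1) (nat_lit 289) (nat_lit 260) r2_289 r8_260 (nat_lit 0) (nat_lit 0) (nat_lit 0) (nat_lit 0x6d72596cf8) (nat_lit 9106961760),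
  Rx.mk (nat_lit 309) (nat_lit 5) (nat_lit 6) (nat_lit 4) (nat_lit 3) (nat_lit 292) (nat_lit 261) r2_292 r8_261 (nat_lit 0) (nat_lit 0) (nat_lit 0) (nat_lit 0x7de2ed334a) (nat_lit 1037452104),
  Rx.mk (nat_lit 357) (nat_lit 5) (nat_lit 4) (nat_lit 5) (nat_lit 5) (nat_lit 290) (nat_lit 262) r2_290 r8_262 (nat_lit 0) (nat_lit 0) (nat_lit 0) (nat_lit 0x7cf90c5242) (nat_lit 1485889704),
  Rx.mk (nat_lit 365) (nat_lit 5) (nat_lit 5) (nat_lit 5) (nat_lit 7) (nat_lit 291) (nat_lit 263) r2_291 r8_263 (nat_lit 0) (nat_lit 0) (nat_lit 0) (nat_lit 0x7db6e7d3cc) (nat_lit 1121857776),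
  Rx.mk (nat_lit 373) (nat_lit 5) (nat_lit 6) (nat_lit 5) (nat_lit 7) (nat_lit 293) (nat_lit 264) r2_293 r8_264 (nat_lit 0) (nat_lit 0) (nat_lit 0) (nat_lit 0x7de452dcee) (nat_lit 1034773272),
  Rx.mk (nat_lit 437) (nat_lit 5) (nat_lit 6) (nat_lit 6) (nat_lit 7) (nat_lit 294) (nat_lit 265) r2_294 r8_265 (nat_lit 0) (nat_lit 0) (nat_lit 0) (nat_lit 0x7df79428c6) (nat_lit 997853688)]
noncomputable def e2_39 : List Rx := [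
  Rx.mk (nat_lit 97) (nat_lit 1) (nat_lit 4) (nat_lit 1) (nat_lit 5) (nat_lit 298) (nat_lit 280) r2_298 r1_280 (nat_lit 0) (nat_lit 0) (nat_lit 0) (nat_lit 0x7dd800c21c) (nat_lit 1058396976),
  Rx.mk (nat_lit 105) (nat_lit 1) (nat_lit 5) (nat_lit 1) (nat_lit 7) (nat_lit 300) (nat_lit 283) r2_300 r1_283 (nat_lit 0) (nat_lit 0) (nat_lit 0) (nat_lit 0x7df5d6c49e) (nat_lit 1001189592),
  Rx.mk (nat_lit 353) (nat_lit 1) (nat_lit 4) (nat_lit 5) (nat_lit 5) (nat_lit 297) (nat_lit 281) r2_297 r1_281 (nat_lit 0) (nat_lit 0) (nat_lit 0) (nat_lit 0x7dda1280fe) (nat_lit 1054429272),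
  Rx.mk (nat_lit 357) (nat_lit 5) (nat_lit 4) (nat_lit 5) (nat_lit 5) (nat_lit 295) (nat_lit 282) r2_295 r1_282 (nat_lit 0) (nat_lit 0) (nat_lit 0) (nat_lit 0x7d8d92694c) (nat_lit 1201110768),
  Rx.mk (nat_lit 361) (nat_lit 1) (nat_lit 5) (nat_lit 5) (nat_lit 7) (nat_lit 299) (nat_lit 284) r2_299 r1_284 (nat_lit 0) (nat_lit 0) (nat_lit 0) (nat_lit 0x7dd891d90a) (nat_lit 1057310280),
  Rx.mk (nat_lit 365) (nat_lit 5) (nat_lit 5) (nat_lit 5) (nat_lit 7) (nat_lit 296) (nat_lit 285) r2_296 r1_285 (nat_lit 0) (nat_lit 0) (nat_lit 0) (nat_lit 0x7df759ac6e) (nat_lit 998291736)]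
noncomputable def e2_40 : List Rx := [
  Rx.mk (nat_lit 105) (nat_lit 1) (nat_lit 5) (nat_lit 1) (nat_lit 7) (nat_lit 303) (nat_lit 322) r2_303 r7_322 (nat_lit 0) (nat_lit 0) (nat_lit 0) (nat_lit 0x7dacc2d626) (nat_lit 1141308792),
  Rx.mk (nat_lit 361) (nat_lit 1) (nat_lit 5) (nat_lit 5) (nat_lit 7) (nat_lit 302) (nat_lit 321) r2_302 r7_321 (nat_lit 0) (nat_lit 0) (nat_lit 0) (nat_lit 0x7dd04e3d4c) (nat_lit 1073155824),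
  Rx.mk (nat_lit 365) (nat_lit 5) (nat_lit 5) (nat_lit 5) (nat_lit 7) (nat_lit 301) (nat_lit 320) r2_301 r7_320 (nat_lit 0) (nat_lit 0) (nat_lit 0) (nat_lit 0x7de672daec) (nat_lit 1030698864)]
noncomputable def e2_41 : List Rx := [
  Rx.mk (nat_lit 72) (nat_lit 0) (nat_lit 1) (nat_lit 1) (nat_lit 6) (nat_lit 306) (nat_lit 282) r2_306 r1_282 (nat_lit 0) (nat_lit 0) (nat_lit 0) (nat_lit 0x7d8d92694c) (nat_lit 1201110768),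
  Rx.mk (nat_lit 73) (nat_lit 1) (nat_lit 1) (nat_lit 1) (nat_lit 7) (nat_lit 309) (nat_lit 285) r2_309 r1_285 (nat_lit 0) (nat_lit 0) (nat_lit 0) (nat_lit 0x7df759ac6e) (nat_lit 998291736),
  Rx.mk (nat_lit 104) (nat_lit 0) (nat_lit 5) (nat_lit 1) (nat_lit 6) (nat_lit 305) (nat_lit 281) r2_305 r1_281 (nat_lit 0) (nat_lit 0) (nat_lit 0) (nat_lit 0x7dda1280fe) (nat_lit 1054429272),
  Rx.mk (nat_lit 105) (nat_lit 1) (nat_lit 5) (nat_lit 1) (nat_lit 7) (nat_lit 308) (nat_lit 284) r2_308 r1_284 (nat_lit 0) (nat_lit 0) (nat_lit 0) (nat_lit 0x7dd891d90a) (nat_lit 1057310280),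
  Rx.mk (nat_lit 360) (nat_lit 0) (nat_lit 5) (nat_lit 5) (nat_lit 6) (nat_lit 304) (nat_lit 280) r2_304 r1_280 (nat_lit 0) (nat_lit 0) (nat_lit 0) (nat_lit 0x7dd800c21c) (nat_lit 1058396976),
  Rx.mk (nat_lit 361) (nat_lit 1) (nat_lit 5) (nat_lit 5) (nat_lit 7) (nat_lit 307) (nat_lit 283) r2_307 r1_283 (nat_lit 0) (nat_lit 0) (nat_lit 0) (nat_lit 0x7df5d6c49e) (nat_lit 1001189592)]
noncomputable def e2_42 : List Rx := [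
  Rx.mk (nat_lit 72) (nat_lit 0) (nat_lit 1) (nat_lit 1) (nat_lit 6) (nat_lit 310) (nat_lit 310) r2_310 r2_310 (nat_lit 0) (nat_lit 0) (nat_lit 0) (nat_lit 0x7b91b0e960) (nat_lit 2174919552),
  Rx.mk (nat_lit 73) (nat_lit 1) (nat_lit 1) (nat_lit 1) (nat_lit 7) (nat_lit 311) (nat_lit 311) r2_311 r2_311 (nat_lit 0) (nat_lit 0) (nat_lit 0) (nat_lit 0x7de334ced0) (nat_lit 1036915776)]
noncomputable def e2_43 : List Rx := [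
  Rx.mk (nat_lit 73) (nat_lit 1) (nat_lit 1) (nat_lit 1) (nat_lit 7) (nat_lit 314) (nat_lit 320) r2_314 r7_320 (nat_lit 0) (nat_lit 0) (nat_lit 0) (nat_lit 0x7de672daec) (nat_lit 1030698864),
  Rx.mk (nat_lit 105) (nat_lit 1) (nat_lit 5) (nat_lit 1) (nat_lit 7) (nat_lit 313) (nat_lit 321) r2_313 r7_321 (nat_lit 0) (nat_lit 0) (nat_lit 0) (nat_lit 0x7dd04e3d4c) (nat_lit 1073155824),
  Rx.mk (nat_lit 361) (nat_lit 1) (nat_lit 5) (nat_lit 5) (nat_lit 7) (nat_lit 312) (nat_lit 322) r2_312 r7_322 (nat_lit 0) (nat_lit 0) (nat_lit 0) (nat_lit 0x7dacc2d626) (nat_lit 1141308792)]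
noncomputable def e2_44 : List Rx := [
  Rx.mk (nat_lit 73) (nat_lit 1) (nat_lit 1) (nat_lit 1) (nat_lit 7) (nat_lit 315) (nat_lit 293) r2_315 r8_293 (nat_lit 0) (nat_lit 0) (nat_lit 0) (nat_lit 0x7dee79ba76) (nat_lit 1015308216)]
noncomputable def e2_45 : List Rx := [
  Rx.mk (nat_lit 8) (nat_lit 0) (nat_lit 1) (nat_lit 0) (nat_lit 2) (nat_lit 316) (nat_lit 260) r2_316 r8_260 (nat_lit 0) (nat_lit 0) (nat_lit 0) (nat_lit 0x6d72596cf8) (nat_lit 9106961760),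
  Rx.mk (nat_lit 10) (nat_lit 2) (nat_lit 1) (nat_lit 0) (nat_lit 3) (nat_lit 319) (nat_lit 261) r2_319 r8_261 (nat_lit 0) (nat_lit 0) (nat_lit 0) (nat_lit 0x7de2ed334a) (nat_lit 1037452104),
  Rx.mk (nat_lit 72) (nat_lit 0) (nat_lit 1) (nat_lit 1) (nat_lit 6) (nat_lit 317) (nat_lit 262) r2_317 r8_262 (nat_lit 0) (nat_lit 0) (nat_lit 0) (nat_lit 0x7cf90c5242) (nat_lit 1485889704),
  Rx.mk (nat_lit 73) (nat_lit 1) (nat_lit 1) (nat_lit 1) (nat_lit 7) (nat_lit 318) (nat_lit 263) r2_318 r8_263 (nat_lit 0) (nat_lit 0) (nat_lit 0) (nat_lit 0x7db6e7d3cc) (nat_lit 1121857776),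
  Rx.mk (nat_lit 74) (nat_lit 2) (nat_lit 1) (nat_lit 1) (nat_lit 7) (nat_lit 320) (nat_lit 264) r2_320 r8_264 (nat_lit 0) (nat_lit 0) (nat_lit 0) (nat_lit 0x7de452dcee) (nat_lit 1034773272),
  Rx.mk (nat_lit 138) (nat_lit 2) (nat_lit 1) (nat_lit 2) (nat_lit 7) (nat_lit 321) (nat_lit 265) r2_321 r8_265 (nat_lit 0) (nat_lit 0) (nat_lit 0) (nat_lit 0x7df79428c6) (nat_lit 997853688)]
noncomputable def e2_46 : List Rx := [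
  Rx.mk (nat_lit 104) (nat_lit 0) (nat_lit 5) (nat_lit 1) (nat_lit 6) (nat_lit 335) (nat_lit 300) r2_335 r4_300 (nat_lit 0) (nat_lit 0) (nat_lit 0) (nat_lit 0x7dc103120e) (nat_lit 1102479768),
  Rx.mk (nat_lit 105) (nat_lit 1) (nat_lit 5) (nat_lit 1) (nat_lit 7) (nat_lit 337) (nat_lit 302) r2_337 r4_302 (nat_lit 0) (nat_lit 0) (nat_lit 0) (nat_lit 0x7de76c8b50) (nat_lit 1028828736),
  Rx.mk (nat_lit 107) (nat_lit 3) (nat_lit 5) (nat_lit 1) (nat_lit 7) (nat_lit 338) (nat_lit 303) r2_338 r4_303 (nat_lit 0) (nat_lit 0) (nat_lit 0) (nat_lit 0x7df18be950) (nat_lit 1009419840),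
  Rx.mk (nat_lit 360) (nat_lit 0) (nat_lit 5) (nat_lit 5) (nat_lit 6) (nat_lit 334) (nat_lit 299) r2_334 r4_299 (nat_lit 0) (nat_lit 0) (nat_lit 0) (nat_lit 0x7dad9708e2) (nat_lit 1139719464),
  Rx.mk (nat_lit 361) (nat_lit 1) (nat_lit 5) (nat_lit 5) (nat_lit 7) (nat_lit 336) (nat_lit 301) r2_336 r4_301 (nat_lit 0) (nat_lit 0) (nat_lit 0) (nat_lit 0x7de0307f18) (nat_lit 1042700256)]
noncomputable def e2_47 : List Rx := [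
  Rx.mk (nat_lit 97) (nat_lit 1) (nat_lit 4) (nat_lit 1) (nat_lit 5) (nat_lit 350) (nat_lit 299) r2_350 r4_299 (nat_lit 0) (nat_lit 0) (nat_lit 0) (nat_lit 0x7dad9708e2) (nat_lit 1139719464),
  Rx.mk (nat_lit 105) (nat_lit 1) (nat_lit 5) (nat_lit 1) (nat_lit 7) (nat_lit 352) (nat_lit 301) r2_352 r4_301 (nat_lit 0) (nat_lit 0) (nat_lit 0) (nat_lit 0x7de0307f18) (nat_lit 1042700256),
  Rx.mk (nat_lit 353) (nat_lit 1) (nat_lit 4) (nat_lit 5) (nat_lit 5) (nat_lit 349) (nat_lit 300) r2_349 r4_300 (nat_lit 0) (nat_lit 0) (nat_lit 0) (nat_lit 0x7dc103120e) (nat_lit 1102479768),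
  Rx.mk (nat_lit 361) (nat_lit 1) (nat_lit 5) (nat_lit 5) (nat_lit 7) (nat_lit 351) (nat_lit 302) r2_351 r4_302 (nat_lit 0) (nat_lit 0) (nat_lit 0) (nat_lit 0x7de76c8b50) (nat_lit 1028828736),
  Rx.mk (nat_lit 377) (nat_lit 1) (nat_lit 7) (nat_lit 5) (nat_lit 7) (nat_lit 353) (nat_lit 303) r2_353 r4_303 (nat_lit 0) (nat_lit 0) (nat_lit 0) (nat_lit 0x7df18be950) (nat_lit 1009419840)]
noncomputable def e2_48 : List Rx := [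
  Rx.mk (nat_lit 105) (nat_lit 1) (nat_lit 5) (nat_lit 1) (nat_lit 7) (nat_lit 355) (nat_lit 324) r2_355 r9_324 (nat_lit 0) (nat_lit 0) (nat_lit 0) (nat_lit 0x7dd3c365f6) (nat_lit 1066526136),
  Rx.mk (nat_lit 361) (nat_lit 1) (nat_lit 5) (nat_lit 5) (nat_lit 7) (nat_lit 354) (nat_lit 323) r2_354 r9_323 (nat_lit 0) (nat_lit 0) (nat_lit 0) (nat_lit 0x7dd3c365f6) (nat_lit 1066526136)]
noncomputable def e2_49 : List Rx := [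
  Rx.mk (nat_lit 97) (nat_lit 1) (nat_lit 4) (nat_lit 1) (nat_lit 5) (nat_lit 356) (nat_lit 340) r2_356 r10_340 (nat_lit 0) (nat_lit 0) (nat_lit 0) (nat_lit 0x7da4f55306) (nat_lit 1156269816),
  Rx.mk (nat_lit 105) (nat_lit 1) (nat_lit 5) (nat_lit 1) (nat_lit 7) (nat_lit 357) (nat_lit 341) r2_357 r10_341 (nat_lit 0) (nat_lit 0) (nat_lit 0) (nat_lit 0x7df51550b6) (nat_lit 1002638520),
  Rx.mk (nat_lit 121) (nat_lit 1) (nat_lit 7) (nat_lit 1) (nat_lit 7) (nat_lit 359) (nat_lit 342) r2_359 r10_342 (nat_lit 0) (nat_lit 0) (nat_lit 0) (nat_lit 0x7df79428c6) (nat_lit 997853688),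
  Rx.mk (nat_lit 377) (nat_lit 1) (nat_lit 7) (nat_lit 5) (nat_lit 7) (nat_lit 358) (nat_lit 339) r2_358 r10_339 (nat_lit 0) (nat_lit 0) (nat_lit 0) (nat_lit 0x7dec0621b2) (nat_lit 1020008808)]
noncomputable def e2_50 : List Rx := [
  Rx.mk (nat_lit 107) (nat_lit 3) (nat_lit 5) (nat_lit 1) (nat_lit 7) (nat_lit 373) (nat_lit 339) r2_373 r10_339 (nat_lit 0) (nat_lit 0) (nat_lit 0) (nat_lit 0x7dec0621b2) (nat_lit 1020008808),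
  Rx.mk (nat_lit 360) (nat_lit 0) (nat_lit 5) (nat_lit 5) (nat_lit 6) (nat_lit 370) (nat_lit 340) r2_370 r10_340 (nat_lit 0) (nat_lit 0) (nat_lit 0) (nat_lit 0x7da4f55306) (nat_lit 1156269816),
  Rx.mk (nat_lit 361) (nat_lit 1) (nat_lit 5) (nat_lit 5) (nat_lit 7) (nat_lit 371) (nat_lit 341) r2_371 r10_341 (nat_lit 0) (nat_lit 0) (nat_lit 0) (nat_lit 0x7df51550b6) (nat_lit 1002638520),
  Rx.mk (nat_lit 363) (nat_lit 3) (nat_lit 5) (nat_lit 5) (nat_lit 7) (nat_lit 372) (nat_lit 342) r2_372 r10_342 (nat_lit 0) (nat_lit 0) (nat_lit 0) (nat_lit 0x7df79428c6) (nat_lit 997853688)]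
noncomputable def e2_51 : List Rx := [
  Rx.mk (nat_lit 379) (nat_lit 3) (nat_lit 7) (nat_lit 5) (nat_lit 7) (nat_lit 58) (nat_lit 14) r2_58 r12_14 (nat_lit 0) (nat_lit 0) (nat_lit 0) (nat_lit 0x7df79428c6) (nat_lit 997853688),
  Rx.mk (nat_lit 383) (nat_lit 7) (nat_lit 7) (nat_lit 5) (nat_lit 7) (nat_lit 57) (nat_lit 15) r2_57 r12_15 (nat_lit 0) (nat_lit 0) (nat_lit 0) (nat_lit 0x7e3bb246a0) (nat_lit 867245184)]
noncomputable def e2_52 : List Rx := [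
  Rx.mk (nat_lit 91) (nat_lit 3) (nat_lit 3) (nat_lit 1) (nat_lit 7) (nat_lit 97) (nat_lit 15) r2_97 r12_15 (nat_lit 0) (nat_lit 0) (nat_lit 0) (nat_lit 0x7e3bb246a0) (nat_lit 867245184),
  Rx.mk (nat_lit 123) (nat_lit 3) (nat_lit 7) (nat_lit 1) (nat_lit 7) (nat_lit 96) (nat_lit 14) r2_96 r12_14 (nat_lit 0) (nat_lit 0) (nat_lit 0) (nat_lit 0x7df79428c6) (nat_lit 997853688)]
noncomputable def e2_53 : List Rx := [
  Rx.mk (nat_lit 355) (nat_lit 3) (nat_lit 4) (nat_lit 5) (nat_lit 5) (nat_lit 239) (nat_lit 259) r2_239 r12_259 (nat_lit 0) (nat_lit 0) (nat_lit 0) (nat_lit 0x7e4fef22be) (nat_lit 828441432),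
  Rx.mk (nat_lit 359) (nat_lit 7) (nat_lit 4) (nat_lit 5) (nat_lit 5) (nat_lit 238) (nat_lit 258) r2_238 r12_258 (nat_lit 0) (nat_lit 0) (nat_lit 0) (nat_lit 0x7e39f90236) (nat_lit 870550200),
  Rx.mk (nat_lit 379) (nat_lit 3) (nat_lit 7) (nat_lit 5) (nat_lit 7) (nat_lit 240) (nat_lit 260) r2_240 r12_260 (nat_lit 0) (nat_lit 0) (nat_lit 0) (nat_lit 0x7e0dc225d0) (nat_lit 955326528)]
noncomputable def e2_54 : List Rx := [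
  Rx.mk (nat_lit 88) (nat_lit 0) (nat_lit 3) (nat_lit 1) (nat_lit 6) (nat_lit 256) (nat_lit 258) r2_256 r12_258 (nat_lit 0) (nat_lit 0) (nat_lit 0) (nat_lit 0x7e39f90236) (nat_lit 870550200),
  Rx.mk (nat_lit 120) (nat_lit 0) (nat_lit 7) (nat_lit 1) (nat_lit 6) (nat_lit 255) (nat_lit 259) r2_255 r12_259 (nat_lit 0) (nat_lit 0) (nat_lit 0) (nat_lit 0x7e4fef22be) (nat_lit 828441432),
  Rx.mk (nat_lit 123) (nat_lit 3) (nat_lit 7) (nat_lit 1) (nat_lit 7) (nat_lit 257) (nat_lit 260) r2_257 r12_260 (nat_lit 0) (nat_lit 0) (nat_lit 0) (nat_lit 0x7e0dc225d0) (nat_lit 955326528)]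
noncomputable def e2_55 : List Rx := [
  Rx.mk (nat_lit 96) (nat_lit 0) (nat_lit 4) (nat_lit 1) (nat_lit 4) (nat_lit 323) (nat_lit 274) r2_323 r3_274 (nat_lit 0) (nat_lit 0) (nat_lit 0) (nat_lit 0x703cef60ce) (nat_lit 7736817816),
  Rx.mk (nat_lit 97) (nat_lit 1) (nat_lit 4) (nat_lit 1) (nat_lit 5) (nat_lit 328) (nat_lit 279) r2_328 r3_279 (nat_lit 0) (nat_lit 0) (nat_lit 0) (nat_lit 0x6f33ce53e8) (nat_lit 8245175328),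
  Rx.mk (nat_lit 99) (nat_lit 3) (nat_lit 4) (nat_lit 1) (nat_lit 5) (nat_lit 332) (nat_lit 281) r2_332 r3_281 (nat_lit 0) (nat_lit 0) (nat_lit 0) (nat_lit 0x7741baad14) (nat_lit 4291651728),
  Rx.mk (nat_lit 104) (nat_lit 0) (nat_lit 5) (nat_lit 1) (nat_lit 6) (nat_lit 325) (nat_lit 275) r2_325 r3_275 (nat_lit 0) (nat_lit 0) (nat_lit 0) (nat_lit 0x756abadee8) (nat_lit 5194743840),
  Rx.mk (nat_lit 105) (nat_lit 1) (nat_lit 5) (nat_lit 1) (nat_lit 7) (nat_lit 330) (nat_lit 280) r2_330 r3_280 (nat_lit 0) (nat_lit 0) (nat_lit 0) (nat_lit 0x7d272070d2) (nat_lit 1397538792),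
  Rx.mk (nat_lit 107) (nat_lit 3) (nat_lit 5) (nat_lit 1) (nat_lit 7) (nat_lit 333) (nat_lit 282) r2_333 r3_282 (nat_lit 0) (nat_lit 0) (nat_lit 0) (nat_lit 0x7e104edd02) (nat_lit 950437800),
  Rx.mk (nat_lit 352) (nat_lit 0) (nat_lit 4) (nat_lit 5) (nat_lit 4) (nat_lit 322) (nat_lit 271) r2_322 r3_271 (nat_lit 0) (nat_lit 0) (nat_lit 0) (nat_lit 0x703cef60ce) (nat_lit 7736817816),
  Rx.mk (nat_lit 353) (nat_lit 1) (nat_lit 4) (nat_lit 5) (nat_lit 5) (nat_lit 327) (nat_lit 276) r2_327 r3_276 (nat_lit 0) (nat_lit 0) (nat_lit 0) (nat_lit 0x756abadee8) (nat_lit 5194743840),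
  Rx.mk (nat_lit 360) (nat_lit 0) (nat_lit 5) (nat_lit 5) (nat_lit 6) (nat_lit 324) (nat_lit 272) r2_324 r3_272 (nat_lit 0) (nat_lit 0) (nat_lit 0) (nat_lit 0x6f33ce53e8) (nat_lit 8245175328),
  Rx.mk (nat_lit 361) (nat_lit 1) (nat_lit 5) (nat_lit 5) (nat_lit 7) (nat_lit 329) (nat_lit 277) r2_329 r3_277 (nat_lit 0) (nat_lit 0) (nat_lit 0) (nat_lit 0x7d272070d2) (nat_lit 1397538792),
  Rx.mk (nat_lit 376) (nat_lit 0) (nat_lit 7) (nat_lit 5) (nat_lit 6) (nat_lit 326) (nat_lit 273) r2_326 r3_273 (nat_lit 0) (nat_lit 0) (nat_lit 0) (nat_lit 0x7741baad14) (nat_lit 4291651728),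
  Rx.mk (nat_lit 377) (nat_lit 1) (nat_lit 7) (nat_lit 5) (nat_lit 7) (nat_lit 331) (nat_lit 278) r2_331 r3_278 (nat_lit 0) (nat_lit 0) (nat_lit 0) (nat_lit 0x7e104edd02) (nat_lit 950437800)]
noncomputable def e2_56 : List Rx := [
  Rx.mk (nat_lit 96) (nat_lit 0) (nat_lit 4) (nat_lit 1) (nat_lit 4) (nat_lit 339) (nat_lit 276) r2_339 r12_276 (nat_lit 0) (nat_lit 0) (nat_lit 0) (nat_lit 0x666f99dff4) (nat_lit 12548205072),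
  Rx.mk (nat_lit 97) (nat_lit 1) (nat_lit 4) (nat_lit 1) (nat_lit 5) (nat_lit 343) (nat_lit 280) r2_343 r12_280 (nat_lit 0) (nat_lit 0) (nat_lit 0) (nat_lit 0x749ef5bc06) (nat_lit 5585451768),
  Rx.mk (nat_lit 99) (nat_lit 3) (nat_lit 4) (nat_lit 1) (nat_lit 5) (nat_lit 347) (nat_lit 283) r2_347 r12_283 (nat_lit 0) (nat_lit 0) (nat_lit 0) (nat_lit 0x7dc98549e2) (nat_lit 1086165288),
  Rx.mk (nat_lit 104) (nat_lit 0) (nat_lit 5) (nat_lit 1) (nat_lit 6) (nat_lit 340) (nat_lit 277) r2_340 r12_277 (nat_lit 0) (nat_lit 0) (nat_lit 0) (nat_lit 0x7d42e99424) (nat_lit 1344262608),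
  Rx.mk (nat_lit 105) (nat_lit 1) (nat_lit 5) (nat_lit 1) (nat_lit 7) (nat_lit 344) (nat_lit 281) r2_344 r12_281 (nat_lit 0) (nat_lit 0) (nat_lit 0) (nat_lit 0x7ddceeb338) (nat_lit 1048945248),
  Rx.mk (nat_lit 107) (nat_lit 3) (nat_lit 5) (nat_lit 1) (nat_lit 7) (nat_lit 348) (nat_lit 284) r2_348 r12_284 (nat_lit 0) (nat_lit 0) (nat_lit 0) (nat_lit 0x7deb366eae) (nat_lit 1021564440),
  Rx.mk (nat_lit 120) (nat_lit 0) (nat_lit 7) (nat_lit 1) (nat_lit 6) (nat_lit 342) (nat_lit 278) r2_342 r12_278 (nat_lit 0) (nat_lit 0) (nat_lit 0) (nat_lit 0x7cf9c166f0) (nat_lit 1484533440),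
  Rx.mk (nat_lit 121) (nat_lit 1) (nat_lit 7) (nat_lit 1) (nat_lit 7) (nat_lit 346) (nat_lit 282) r2_346 r12_282 (nat_lit 0) (nat_lit 0) (nat_lit 0) (nat_lit 0x7df79428c6) (nat_lit 997853688),
  Rx.mk (nat_lit 376) (nat_lit 0) (nat_lit 7) (nat_lit 5) (nat_lit 6) (nat_lit 341) (nat_lit 275) r2_341 r12_275 (nat_lit 0) (nat_lit 0) (nat_lit 0) (nat_lit 0x7ddc2f1f32) (nat_lit 1050380136),
  Rx.mk (nat_lit 377) (nat_lit 1) (nat_lit 7) (nat_lit 5) (nat_lit 7) (nat_lit 345) (nat_lit 279) r2_345 r12_279 (nat_lit 0) (nat_lit 0) (nat_lit 0) (nat_lit 0x7de974eac8) (nat_lit 1024931232)]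
noncomputable def e2_57 : List Rx := [
  Rx.mk (nat_lit 99) (nat_lit 3) (nat_lit 4) (nat_lit 1) (nat_lit 5) (nat_lit 367) (nat_lit 275) r2_367 r12_275 (nat_lit 0) (nat_lit 0) (nat_lit 0) (nat_lit 0x7ddc2f1f32) (nat_lit 1050380136),
  Rx.mk (nat_lit 107) (nat_lit 3) (nat_lit 5) (nat_lit 1) (nat_lit 7) (nat_lit 369) (nat_lit 279) r2_369 r12_279 (nat_lit 0) (nat_lit 0) (nat_lit 0) (nat_lit 0x7de974eac8) (nat_lit 1024931232),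
  Rx.mk (nat_lit 352) (nat_lit 0) (nat_lit 4) (nat_lit 5) (nat_lit 4) (nat_lit 360) (nat_lit 276) r2_360 r12_276 (nat_lit 0) (nat_lit 0) (nat_lit 0) (nat_lit 0x666f99dff4) (nat_lit 12548205072),
  Rx.mk (nat_lit 353) (nat_lit 1) (nat_lit 4) (nat_lit 5) (nat_lit 5) (nat_lit 363) (nat_lit 277) r2_363 r12_277 (nat_lit 0) (nat_lit 0) (nat_lit 0) (nat_lit 0x7d42e99424) (nat_lit 1344262608),
  Rx.mk (nat_lit 355) (nat_lit 3) (nat_lit 4) (nat_lit 5) (nat_lit 5) (nat_lit 366) (nat_lit 278) r2_366 r12_278 (nat_lit 0) (nat_lit 0) (nat_lit 0) (nat_lit 0x7cf9c166f0) (nat_lit 1484533440),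
  Rx.mk (nat_lit 360) (nat_lit 0) (nat_lit 5) (nat_lit 5) (nat_lit 6) (nat_lit 361) (nat_lit 280) r2_361 r12_280 (nat_lit 0) (nat_lit 0) (nat_lit 0) (nat_lit 0x749ef5bc06) (nat_lit 5585451768),
  Rx.mk (nat_lit 361) (nat_lit 1) (nat_lit 5) (nat_lit 5) (nat_lit 7) (nat_lit 364) (nat_lit 281) r2_364 r12_281 (nat_lit 0) (nat_lit 0) (nat_lit 0) (nat_lit 0x7ddceeb338) (nat_lit 1048945248),
  Rx.mk (nat_lit 363) (nat_lit 3) (nat_lit 5) (nat_lit 5) (nat_lit 7) (nat_lit 368) (nat_lit 282) r2_368 r12_282 (nat_lit 0) (nat_lit 0) (nat_lit 0) (nat_lit 0x7df79428c6) (nat_lit 997853688),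
  Rx.mk (nat_lit 376) (nat_lit 0) (nat_lit 7) (nat_lit 5) (nat_lit 6) (nat_lit 362) (nat_lit 283) r2_362 r12_283 (nat_lit 0) (nat_lit 0) (nat_lit 0) (nat_lit 0x7dc98549e2) (nat_lit 1086165288),
  Rx.mk (nat_lit 377) (nat_lit 1) (nat_lit 7) (nat_lit 5) (nat_lit 7) (nat_lit 365) (nat_lit 284) r2_365 r12_284 (nat_lit 0) (nat_lit 0) (nat_lit 0) (nat_lit 0x7deb366eae) (nat_lit 1021564440)]
noncomputable def e2 : List (List Rx) := [e2_0, e2_1, e2_2, e2_3, e2_4, e2_5, e2_6, e2_7, e2_8, e2_9, e2_10, e2_11, e2_12, e2_13, e2_14, e2_15, e2_16, e2_17, e2_18, e2_19, e2_20, e2_21, e2_22, e2_23, e2_24, e2_25, e2_26, e2_27, e2_28, e2_29, e2_30, e2_31, e2_32, e2_33, e2_34, e2_35, e2_36, e2_37, e2_38, e2_39, e2_40, e2_41, e2_42, e2_43, e2_44, e2_45, e2_46, e2_47, e2_48, e2_49, e2_50, e2_51, e2_52, e2_53, e2_54, e2_55, e2_56, e2_57]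
noncomputable def e3_0 : List Rx := [
  Rx.mk (nat_lit 2) (nat_lit 2) (nat_lit 0) (nat_lit 0) (nat_lit 1) (nat_lit 4) (nat_lit 43) r3_4 r0_43 (nat_lit 0) (nat_lit 0) (nat_lit 0) (nat_lit 0x8000000000) (nat_lit 0),
  Rx.mk (nat_lit 18) (nat_lit 2) (nat_lit 2) (nat_lit 0) (nat_lit 3) (nat_lit 6) (nat_lit 46) r3_6 r0_46 (nat_lit 0) (nat_lit 0) (nat_lit 0) (nat_lit 0x8000000000) (nat_lit 0),
  Rx.mk (nat_lit 22) (nat_lit 6) (nat_lit 2) (nat_lit 0) (nat_lit 3) (nat_lit 2) (nat_lit 49) r3_2 r0_49 (nat_lit 0) (nat_lit 0) (nat_lit 0) (nat_lit 0x7ef7fa0168) (nat_lit 506237472),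
  Rx.mk (nat_lit 150) (nat_lit 6) (nat_lit 2) (nat_lit 2) (nat_lit 7) (nat_lit 3) (nat_lit 50) r3_3 r0_50 (nat_lit 0) (nat_lit 0) (nat_lit 0) (nat_lit 0x7f3f0caff6) (nat_lit 369962424),
  Rx.mk (nat_lit 180) (nat_lit 4) (nat_lit 6) (nat_lit 2) (nat_lit 6) (nat_lit 0) (nat_lit 48) r3_0 r0_48 (nat_lit 0) (nat_lit 0) (nat_lit 0) (nat_lit 0x6dba6c2b84) (nat_lit 8968768848),
  Rx.mk (nat_lit 182) (nat_lit 6) (nat_lit 6) (nat_lit 2) (nat_lit 7) (nat_lit 1) (nat_lit 51) r3_1 r0_51 (nat_lit 0) (nat_lit 0) (nat_lit 0) (nat_lit 0x7b04e536a8) (nat_lit 2444880672),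
  Rx.mk (nat_lit 194) (nat_lit 2) (nat_lit 0) (nat_lit 3) (nat_lit 5) (nat_lit 5) (nat_lit 44) r3_5 r0_44 (nat_lit 0) (nat_lit 0) (nat_lit 0) (nat_lit 0x789f9ccd94) (nat_lit 3620786832),
  Rx.mk (nat_lit 210) (nat_lit 2) (nat_lit 2) (nat_lit 3) (nat_lit 7) (nat_lit 7) (nat_lit 47) r3_7 r0_47 (nat_lit 0) (nat_lit 0) (nat_lit 0) (nat_lit 0x7c4bfa640e) (nat_lit 1817733528),
  Rx.mk (nat_lit 218) (nat_lit 2) (nat_lit 3) (nat_lit 3) (nat_lit 7) (nat_lit 8) (nat_lit 45) r3_8 r0_45 (nat_lit 0) (nat_lit 0) (nat_lit 0) (nat_lit 0x7aaf35b1f6) (nat_lit 2609173944)]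
noncomputable def e3_1 : List Rx := [
  Rx.mk (nat_lit 2) (nat_lit 2) (nat_lit 0) (nat_lit 0) (nat_lit 1) (nat_lit 13) (nat_lit 39) r3_13 r1_39 (nat_lit 0) (nat_lit 0) (nat_lit 0) (nat_lit 0x8000000000) (nat_lit 0),
  Rx.mk (nat_lit 18) (nat_lit 2) (nat_lit 2) (nat_lit 0) (nat_lit 3) (nat_lit 16) (nat_lit 43) r3_16 r1_43 (nat_lit 0) (nat_lit 0) (nat_lit 0) (nat_lit 0x7d89c9a5dc) (nat_lit 1208366640),
  Rx.mk (nat_lit 22) (nat_lit 6) (nat_lit 2) (nat_lit 0) (nat_lit 3) (nat_lit 10) (nat_lit 46) r3_10 r1_46 (nat_lit 0) (nat_lit 0) (nat_lit 0) (nat_lit 0x7c72d45648) (nat_lit 1743240096),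
  Rx.mk (nat_lit 66) (nat_lit 2) (nat_lit 0) (nat_lit 1) (nat_lit 5) (nat_lit 14) (nat_lit 40) r3_14 r1_40 (nat_lit 0) (nat_lit 0) (nat_lit 0) (nat_lit 0x7ecc02e106) (nat_lit 590536440),
  Rx.mk (nat_lit 82) (nat_lit 2) (nat_lit 2) (nat_lit 1) (nat_lit 7) (nat_lit 17) (nat_lit 44) r3_17 r1_44 (nat_lit 0) (nat_lit 0) (nat_lit 0) (nat_lit 0x7ed104b0e4) (nat_lit 580935888),
  Rx.mk (nat_lit 86) (nat_lit 6) (nat_lit 2) (nat_lit 1) (nat_lit 7) (nat_lit 11) (nat_lit 47) r3_11 r1_47 (nat_lit 0) (nat_lit 0) (nat_lit 0) (nat_lit 0x7f3b894830) (nat_lit 376698816),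
  Rx.mk (nat_lit 150) (nat_lit 6) (nat_lit 2) (nat_lit 2) (nat_lit 7) (nat_lit 12) (nat_lit 48) r3_12 r1_48 (nat_lit 0) (nat_lit 0) (nat_lit 0) (nat_lit 0x7ee53b2d68) (nat_lit 542179872),
  Rx.mk (nat_lit 182) (nat_lit 6) (nat_lit 6) (nat_lit 2) (nat_lit 7) (nat_lit 9) (nat_lit 49) r3_9 r1_49 (nat_lit 0) (nat_lit 0) (nat_lit 0) (nat_lit 0x7e2ce9f334) (nat_lit 895589136),
  Rx.mk (nat_lit 194) (nat_lit 2) (nat_lit 0) (nat_lit 3) (nat_lit 5) (nat_lit 15) (nat_lit 41) r3_15 r1_41 (nat_lit 0) (nat_lit 0) (nat_lit 0) (nat_lit 0x7e2853bc9c) (nat_lit 904383792),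
  Rx.mk (nat_lit 210) (nat_lit 2) (nat_lit 2) (nat_lit 3) (nat_lit 7) (nat_lit 18) (nat_lit 45) r3_18 r1_45 (nat_lit 0) (nat_lit 0) (nat_lit 0) (nat_lit 0x7e3f27cf44) (nat_lit 860612688),
  Rx.mk (nat_lit 218) (nat_lit 2) (nat_lit 3) (nat_lit 3) (nat_lit 7) (nat_lit 19) (nat_lit 42) r3_19 r1_42 (nat_lit 0) (nat_lit 0) (nat_lit 0) (nat_lit 0x7efab4d5b8) (nat_lit 501003360)]
noncomputable def e3_2 : List Rx := [
  Rx.mk (nat_lit 66) (nat_lit 2) (nat_lit 0) (nat_lit 1) (nat_lit 5) (nat_lit 21) (nat_lit 44) r3_21 r2_44 (nat_lit 0) (nat_lit 0) (nat_lit 0) (nat_lit 0x7fc66c7972) (nat_lit 110396520),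
  Rx.mk (nat_lit 82) (nat_lit 2) (nat_lit 2) (nat_lit 1) (nat_lit 7) (nat_lit 22) (nat_lit 45) r3_22 r2_45 (nat_lit 0) (nat_lit 0) (nat_lit 0) (nat_lit 0x7f19302de4) (nat_lit 442557648),
  Rx.mk (nat_lit 86) (nat_lit 6) (nat_lit 2) (nat_lit 1) (nat_lit 7) (nat_lit 20) (nat_lit 46) r3_20 r2_46 (nat_lit 0) (nat_lit 0) (nat_lit 0) (nat_lit 0x7f3a2d5df0) (nat_lit 379304640)]
noncomputable def e3_3 : List Rx := [
  Rx.mk (nat_lit 22) (nat_lit 6) (nat_lit 2) (nat_lit 0) (nat_lit 3) (nat_lit 25) (nat_lit 36) r3_25 r3_36 (nat_lit 0) (nat_lit 0) (nat_lit 0) (nat_lit 0x8000000000) (nat_lit 0),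
  Rx.mk (nat_lit 150) (nat_lit 6) (nat_lit 2) (nat_lit 2) (nat_lit 7) (nat_lit 26) (nat_lit 38) r3_26 r3_38 (nat_lit 0) (nat_lit 0) (nat_lit 0) (nat_lit 0x7e6e03615c) (nat_lit 770767920),
  Rx.mk (nat_lit 180) (nat_lit 4) (nat_lit 6) (nat_lit 2) (nat_lit 6) (nat_lit 23) (nat_lit 32) r3_23 r3_32 (nat_lit 0) (nat_lit 0) (nat_lit 0) (nat_lit 0x8000000000) (nat_lit 0),
  Rx.mk (nat_lit 182) (nat_lit 6) (nat_lit 6) (nat_lit 2) (nat_lit 7) (nat_lit 24) (nat_lit 39) r3_24 r3_39 (nat_lit 0) (nat_lit 0) (nat_lit 0) (nat_lit 0x7e6e03615c) (nat_lit 770767920),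
  Rx.mk (nat_lit 183) (nat_lit 7) (nat_lit 6) (nat_lit 2) (nat_lit 7) (nat_lit 30) (nat_lit 34) r3_30 r3_34 (nat_lit 0) (nat_lit 0) (nat_lit 0) (nat_lit 0x7ff328cd80) (nat_lit 24620544),
  Rx.mk (nat_lit 194) (nat_lit 2) (nat_lit 0) (nat_lit 3) (nat_lit 5) (nat_lit 351) (nat_lit 28) r3_351 r3_28 (nat_lit 0) (nat_lit 0) (nat_lit 0) (nat_lit 0x8000000000) (nat_lit 0),
  Rx.mk (nat_lit 210) (nat_lit 2) (nat_lit 2) (nat_lit 3) (nat_lit 7) (nat_lit 33) (nat_lit 31) r3_33 r3_31 (nat_lit 0) (nat_lit 0) (nat_lit 0) (nat_lit 0x773bf2899c) (nat_lit 4302737712),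
  Rx.mk (nat_lit 214) (nat_lit 6) (nat_lit 2) (nat_lit 3) (nat_lit 7) (nat_lit 27) (nat_lit 37) r3_27 r3_37 (nat_lit 0) (nat_lit 0) (nat_lit 0) (nat_lit 0x7ff328cd80) (nat_lit 24620544),
  Rx.mk (nat_lit 218) (nat_lit 2) (nat_lit 3) (nat_lit 3) (nat_lit 7) (nat_lit 35) (nat_lit 29) r3_35 r3_29 (nat_lit 0) (nat_lit 0) (nat_lit 0) (nat_lit 0x773bf2899c) (nat_lit 4302737712),
  Rx.mk (nat_lit 315) (nat_lit 3) (nat_lit 7) (nat_lit 4) (nat_lit 3) (nat_lit 36) (nat_lit 25) r3_36 r3_25 (nat_lit 0) (nat_lit 0) (nat_lit 0) (nat_lit 0x8000000000) (nat_lit 0),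
  Rx.mk (nat_lit 423) (nat_lit 7) (nat_lit 4) (nat_lit 6) (nat_lit 5) (nat_lit 28) (nat_lit 351) r3_28 r3_351 (nat_lit 0) (nat_lit 0) (nat_lit 0) (nat_lit 0x8000000000) (nat_lit 0),
  Rx.mk (nat_lit 439) (nat_lit 7) (nat_lit 6) (nat_lit 6) (nat_lit 7) (nat_lit 29) (nat_lit 35) r3_29 r3_35 (nat_lit 0) (nat_lit 0) (nat_lit 0) (nat_lit 0x773bf2899c) (nat_lit 4302737712),
  Rx.mk (nat_lit 443) (nat_lit 3) (nat_lit 7) (nat_lit 6) (nat_lit 7) (nat_lit 37) (nat_lit 27) r3_37 r3_27 (nat_lit 0) (nat_lit 0) (nat_lit 0) (nat_lit 0x7ff328cd80) (nat_lit 24620544),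
  Rx.mk (nat_lit 447) (nat_lit 7) (nat_lit 7) (nat_lit 6) (nat_lit 7) (nat_lit 31) (nat_lit 33) r3_31 r3_33 (nat_lit 0) (nat_lit 0) (nat_lit 0) (nat_lit 0x773bf2899c) (nat_lit 4302737712),
  Rx.mk (nat_lit 472) (nat_lit 0) (nat_lit 3) (nat_lit 7) (nat_lit 6) (nat_lit 32) (nat_lit 23) r3_32 r3_23 (nat_lit 0) (nat_lit 0) (nat_lit 0) (nat_lit 0x8000000000) (nat_lit 0),
  Rx.mk (nat_lit 474) (nat_lit 2) (nat_lit 3) (nat_lit 7) (nat_lit 7) (nat_lit 34) (nat_lit 30) r3_34 r3_30 (nat_lit 0) (nat_lit 0) (nat_lit 0) (nat_lit 0x7ff328cd80) (nat_lit 24620544),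
  Rx.mk (nat_lit 475) (nat_lit 3) (nat_lit 3) (nat_lit 7) (nat_lit 7) (nat_lit 39) (nat_lit 24) r3_39 r3_24 (nat_lit 0) (nat_lit 0) (nat_lit 0) (nat_lit 0x7e6e03615c) (nat_lit 770767920),
  Rx.mk (nat_lit 507) (nat_lit 3) (nat_lit 7) (nat_lit 7) (nat_lit 7) (nat_lit 38) (nat_lit 26) r3_38 r3_26 (nat_lit 0) (nat_lit 0) (nat_lit 0) (nat_lit 0x7e6e03615c) (nat_lit 770767920)]
noncomputable def e3_4 : List Rx := [
  Rx.mk (nat_lit 22) (nat_lit 6) (nat_lit 2) (nat_lit 0) (nat_lit 3) (nat_lit 42) (nat_lit 36) r3_42 r4_36 (nat_lit 0) (nat_lit 0) (nat_lit 0) (nat_lit 0x7db0793abc) (nat_lit 1134190512),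
  Rx.mk (nat_lit 150) (nat_lit 6) (nat_lit 2) (nat_lit 2) (nat_lit 7) (nat_lit 43) (nat_lit 38) r3_43 r4_38 (nat_lit 0) (nat_lit 0) (nat_lit 0) (nat_lit 0x7e2eabd714) (nat_lit 892219536),
  Rx.mk (nat_lit 180) (nat_lit 4) (nat_lit 6) (nat_lit 2) (nat_lit 6) (nat_lit 40) (nat_lit 34) r3_40 r4_34 (nat_lit 0) (nat_lit 0) (nat_lit 0) (nat_lit 0x7f3136ed60) (nat_lit 396489600),
  Rx.mk (nat_lit 182) (nat_lit 6) (nat_lit 6) (nat_lit 2) (nat_lit 7) (nat_lit 41) (nat_lit 39) r3_41 r4_39 (nat_lit 0) (nat_lit 0) (nat_lit 0) (nat_lit 0x7e65b0c68e) (nat_lit 786725784),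
  Rx.mk (nat_lit 183) (nat_lit 7) (nat_lit 6) (nat_lit 2) (nat_lit 7) (nat_lit 45) (nat_lit 35) r3_45 r4_35 (nat_lit 0) (nat_lit 0) (nat_lit 0) (nat_lit 0x7f09322dd4) (nat_lit 473221008),
  Rx.mk (nat_lit 194) (nat_lit 2) (nat_lit 0) (nat_lit 3) (nat_lit 5) (nat_lit 46) (nat_lit 31) r3_46 r4_31 (nat_lit 0) (nat_lit 0) (nat_lit 0) (nat_lit 0x7ffbd9e266) (nat_lit 7955064),
  Rx.mk (nat_lit 210) (nat_lit 2) (nat_lit 2) (nat_lit 3) (nat_lit 7) (nat_lit 47) (nat_lit 33) r3_47 r4_33 (nat_lit 0) (nat_lit 0) (nat_lit 0) (nat_lit 0x7e68443d54) (nat_lit 781786512),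
  Rx.mk (nat_lit 214) (nat_lit 6) (nat_lit 2) (nat_lit 3) (nat_lit 7) (nat_lit 44) (nat_lit 37) r3_44 r4_37 (nat_lit 0) (nat_lit 0) (nat_lit 0) (nat_lit 0x7eb5bf2558) (nat_lit 633226464),
  Rx.mk (nat_lit 218) (nat_lit 2) (nat_lit 3) (nat_lit 3) (nat_lit 7) (nat_lit 48) (nat_lit 32) r3_48 r4_32 (nat_lit 0) (nat_lit 0) (nat_lit 0) (nat_lit 0x7ae6c7f89a) (nat_lit 2502621576)]
noncomputable def e3_5 : List Rx := [
  Rx.mk (nat_lit 258) (nat_lit 2) (nat_lit 0) (nat_lit 4) (nat_lit 1) (nat_lit 61) (nat_lit 59) r3_61 r3_59 (nat_lit 0) (nat_lit 0) (nat_lit 0) (nat_lit 0x8000000000) (nat_lit 0),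
  Rx.mk (nat_lit 280) (nat_lit 0) (nat_lit 3) (nat_lit 4) (nat_lit 2) (nat_lit 59) (nat_lit 61) r3_59 r3_61 (nat_lit 0) (nat_lit 0) (nat_lit 0) (nat_lit 0x8000000000) (nat_lit 0),
  Rx.mk (nat_lit 282) (nat_lit 2) (nat_lit 3) (nat_lit 4) (nat_lit 3) (nat_lit 63) (nat_lit 63) r3_63 r3_63 (nat_lit 0) (nat_lit 0) (nat_lit 0) (nat_lit 0x7ff39646a8) (nat_lit 23800608),
  Rx.mk (nat_lit 322) (nat_lit 2) (nat_lit 0) (nat_lit 5) (nat_lit 5) (nat_lit 62) (nat_lit 60) r3_62 r3_60 (nat_lit 0) (nat_lit 0) (nat_lit 0) (nat_lit 0x7fff25cda4) (nat_lit 1634256),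
  Rx.mk (nat_lit 344) (nat_lit 0) (nat_lit 3) (nat_lit 5) (nat_lit 6) (nat_lit 60) (nat_lit 62) r3_60 r3_62 (nat_lit 0) (nat_lit 0) (nat_lit 0) (nat_lit 0x7fff25cda4) (nat_lit 1634256),
  Rx.mk (nat_lit 346) (nat_lit 2) (nat_lit 3) (nat_lit 5) (nat_lit 7) (nat_lit 64) (nat_lit 64) r3_64 r3_64 (nat_lit 0) (nat_lit 0) (nat_lit 0) (nat_lit 0x7fa7df8260) (nat_lit 168974208)]
noncomputable def e3_6 : List Rx := [
  Rx.mk (nat_lit 322) (nat_lit 2) (nat_lit 0) (nat_lit 5) (nat_lit 5) (nat_lit 65) (nat_lit 71) r3_65 r0_71 (nat_lit 0) (nat_lit 0) (nat_lit 0) (nat_lit 0x8000000000) (nat_lit 0)]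
noncomputable def e3_7 : List Rx := [
  Rx.mk (nat_lit 66) (nat_lit 2) (nat_lit 0) (nat_lit 1) (nat_lit 5) (nat_lit 67) (nat_lit 67) r3_67 r1_67 (nat_lit 0) (nat_lit 0) (nat_lit 0) (nat_lit 0x7cedd90582) (nat_lit 1507365288),
  Rx.mk (nat_lit 82) (nat_lit 2) (nat_lit 2) (nat_lit 1) (nat_lit 7) (nat_lit 68) (nat_lit 68) r3_68 r1_68 (nat_lit 0) (nat_lit 0) (nat_lit 0) (nat_lit 0x7c2bd226b2) (nat_lit 1879391592),
  Rx.mk (nat_lit 322) (nat_lit 2) (nat_lit 0) (nat_lit 5) (nat_lit 5) (nat_lit 66) (nat_lit 66) r3_66 r1_66 (nat_lit 0) (nat_lit 0) (nat_lit 0) (nat_lit 0x8000000000) (nat_lit 0)]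
noncomputable def e3_8 : List Rx := [
  Rx.mk (nat_lit 322) (nat_lit 2) (nat_lit 0) (nat_lit 5) (nat_lit 5) (nat_lit 70) (nat_lit 65) r3_70 r4_65 (nat_lit 0) (nat_lit 0) (nat_lit 0) (nat_lit 0x7ffc241dc2) (nat_lit 7399080),
  Rx.mk (nat_lit 344) (nat_lit 0) (nat_lit 3) (nat_lit 5) (nat_lit 6) (nat_lit 69) (nat_lit 66) r3_69 r4_66 (nat_lit 0) (nat_lit 0) (nat_lit 0) (nat_lit 0x7f9a3d1c94) (nat_lit 195116688),
  Rx.mk (nat_lit 346) (nat_lit 2) (nat_lit 3) (nat_lit 5) (nat_lit 7) (nat_lit 71) (nat_lit 67) r3_71 r4_67 (nat_lit 0) (nat_lit 0) (nat_lit 0) (nat_lit 0x7fe190a714) (nat_lit 58355856)]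
noncomputable def e3_9 : List Rx := [
  Rx.mk (nat_lit 280) (nat_lit 0) (nat_lit 3) (nat_lit 4) (nat_lit 2) (nat_lit 72) (nat_lit 12) r3_72 r5_12 (nat_lit 0) (nat_lit 0) (nat_lit 0) (nat_lit 0x7ffa96b69a) (nat_lit 10375560),
  Rx.mk (nat_lit 282) (nat_lit 2) (nat_lit 3) (nat_lit 4) (nat_lit 3) (nat_lit 75) (nat_lit 18) r3_75 r5_18 (nat_lit 0) (nat_lit 0) (nat_lit 0) (nat_lit 0x7ea6edd27c) (nat_lit 661637808),
  Rx.mk (nat_lit 283) (nat_lit 3) (nat_lit 3) (nat_lit 4) (nat_lit 3) (nat_lit 79) (nat_lit 14) r3_79 r5_14 (nat_lit 0) (nat_lit 0) (nat_lit 0) (nat_lit 0x783b195630) (nat_lit 3813511104),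
  Rx.mk (nat_lit 315) (nat_lit 3) (nat_lit 7) (nat_lit 4) (nat_lit 3) (nat_lit 77) (nat_lit 15) r3_77 r5_15 (nat_lit 0) (nat_lit 0) (nat_lit 0) (nat_lit 0x770d966f8c) (nat_lit 4391627760),
  Rx.mk (nat_lit 443) (nat_lit 3) (nat_lit 7) (nat_lit 6) (nat_lit 7) (nat_lit 78) (nat_lit 16) r3_78 r5_16 (nat_lit 0) (nat_lit 0) (nat_lit 0) (nat_lit 0x7f3a4a3c22) (nat_lit 379088424),
  Rx.mk (nat_lit 450) (nat_lit 2) (nat_lit 0) (nat_lit 7) (nat_lit 5) (nat_lit 74) (nat_lit 17) r3_74 r5_17 (nat_lit 0) (nat_lit 0) (nat_lit 0) (nat_lit 0x7ec8641af6) (nat_lit 597477816),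
  Rx.mk (nat_lit 472) (nat_lit 0) (nat_lit 3) (nat_lit 7) (nat_lit 6) (nat_lit 73) (nat_lit 13) r3_73 r5_13 (nat_lit 0) (nat_lit 0) (nat_lit 0) (nat_lit 0x78c2869ed4) (nat_lit 3553844112),
  Rx.mk (nat_lit 474) (nat_lit 2) (nat_lit 3) (nat_lit 7) (nat_lit 7) (nat_lit 76) (nat_lit 19) r3_76 r5_19 (nat_lit 0) (nat_lit 0) (nat_lit 0) (nat_lit 0x7f51b98516) (nat_lit 334154808)]
noncomputable def e3_10 : List Rx := [
  Rx.mk (nat_lit 22) (nat_lit 6) (nat_lit 2) (nat_lit 0) (nat_lit 3) (nat_lit 92) (nat_lit 48) r3_92 r0_48 (nat_lit 0) (nat_lit 0) (nat_lit 0) (nat_lit 0x6dba6c2b84) (nat_lit 8968768848),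
  Rx.mk (nat_lit 150) (nat_lit 6) (nat_lit 2) (nat_lit 2) (nat_lit 7) (nat_lit 93) (nat_lit 51) r3_93 r0_51 (nat_lit 0) (nat_lit 0) (nat_lit 0) (nat_lit 0x7b04e536a8) (nat_lit 2444880672),
  Rx.mk (nat_lit 180) (nat_lit 4) (nat_lit 6) (nat_lit 2) (nat_lit 6) (nat_lit 90) (nat_lit 49) r3_90 r0_49 (nat_lit 0) (nat_lit 0) (nat_lit 0) (nat_lit 0x7ef7fa0168) (nat_lit 506237472),
  Rx.mk (nat_lit 182) (nat_lit 6) (nat_lit 6) (nat_lit 2) (nat_lit 7) (nat_lit 91) (nat_lit 50) r3_91 r0_50 (nat_lit 0) (nat_lit 0) (nat_lit 0) (nat_lit 0x7f3f0caff6) (nat_lit 369962424),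
  Rx.mk (nat_lit 420) (nat_lit 4) (nat_lit 4) (nat_lit 6) (nat_lit 4) (nat_lit 88) (nat_lit 43) r3_88 r0_43 (nat_lit 0) (nat_lit 0) (nat_lit 0) (nat_lit 0x8000000000) (nat_lit 0),
  Rx.mk (nat_lit 423) (nat_lit 7) (nat_lit 4) (nat_lit 6) (nat_lit 5) (nat_lit 94) (nat_lit 44) r3_94 r0_44 (nat_lit 0) (nat_lit 0) (nat_lit 0) (nat_lit 0x789f9ccd94) (nat_lit 3620786832),
  Rx.mk (nat_lit 436) (nat_lit 4) (nat_lit 6) (nat_lit 6) (nat_lit 6) (nat_lit 89) (nat_lit 46) r3_89 r0_46 (nat_lit 0) (nat_lit 0) (nat_lit 0) (nat_lit 0x8000000000) (nat_lit 0),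
  Rx.mk (nat_lit 439) (nat_lit 7) (nat_lit 6) (nat_lit 6) (nat_lit 7) (nat_lit 95) (nat_lit 47) r3_95 r0_47 (nat_lit 0) (nat_lit 0) (nat_lit 0) (nat_lit 0x7c4bfa640e) (nat_lit 1817733528),
  Rx.mk (nat_lit 447) (nat_lit 7) (nat_lit 7) (nat_lit 6) (nat_lit 7) (nat_lit 96) (nat_lit 45) r3_96 r0_45 (nat_lit 0) (nat_lit 0) (nat_lit 0) (nat_lit 0x7aaf35b1f6) (nat_lit 2609173944)]
noncomputable def e3_11 : List Rx := [
  Rx.mk (nat_lit 22) (nat_lit 6) (nat_lit 2) (nat_lit 0) (nat_lit 3) (nat_lit 99) (nat_lit 36) r3_99 r6_36 (nat_lit 0) (nat_lit 0) (nat_lit 0) (nat_lit 0x7fdd138eea) (nat_lit 66962376),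
  Rx.mk (nat_lit 150) (nat_lit 6) (nat_lit 2) (nat_lit 2) (nat_lit 7) (nat_lit 100) (nat_lit 37) r3_100 r6_37 (nat_lit 0) (nat_lit 0) (nat_lit 0) (nat_lit 0x7e36b136b6) (nat_lit 876840120),
  Rx.mk (nat_lit 180) (nat_lit 4) (nat_lit 6) (nat_lit 2) (nat_lit 6) (nat_lit 97) (nat_lit 35) r3_97 r6_35 (nat_lit 0) (nat_lit 0) (nat_lit 0) (nat_lit 0x7fdd138eea) (nat_lit 66962376),
  Rx.mk (nat_lit 182) (nat_lit 6) (nat_lit 6) (nat_lit 2) (nat_lit 7) (nat_lit 98) (nat_lit 38) r3_98 r6_38 (nat_lit 0) (nat_lit 0) (nat_lit 0) (nat_lit 0x7e36b136b6) (nat_lit 876840120)]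
noncomputable def e3_12 : List Rx := [
  Rx.mk (nat_lit 150) (nat_lit 6) (nat_lit 2) (nat_lit 2) (nat_lit 7) (nat_lit 108) (nat_lit 49) r3_108 r1_49 (nat_lit 0) (nat_lit 0) (nat_lit 0) (nat_lit 0x7e2ce9f334) (nat_lit 895589136),
  Rx.mk (nat_lit 180) (nat_lit 4) (nat_lit 6) (nat_lit 2) (nat_lit 6) (nat_lit 103) (nat_lit 46) r3_103 r1_46 (nat_lit 0) (nat_lit 0) (nat_lit 0) (nat_lit 0x7c72d45648) (nat_lit 1743240096),
  Rx.mk (nat_lit 181) (nat_lit 5) (nat_lit 6) (nat_lit 2) (nat_lit 7) (nat_lit 106) (nat_lit 47) r3_106 r1_47 (nat_lit 0) (nat_lit 0) (nat_lit 0) (nat_lit 0x7f3b894830) (nat_lit 376698816),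
  Rx.mk (nat_lit 182) (nat_lit 6) (nat_lit 6) (nat_lit 2) (nat_lit 7) (nat_lit 107) (nat_lit 48) r3_107 r1_48 (nat_lit 0) (nat_lit 0) (nat_lit 0) (nat_lit 0x7ee53b2d68) (nat_lit 542179872),
  Rx.mk (nat_lit 420) (nat_lit 4) (nat_lit 4) (nat_lit 6) (nat_lit 4) (nat_lit 101) (nat_lit 39) r3_101 r1_39 (nat_lit 0) (nat_lit 0) (nat_lit 0) (nat_lit 0x8000000000) (nat_lit 0),
  Rx.mk (nat_lit 421) (nat_lit 5) (nat_lit 4) (nat_lit 6) (nat_lit 5) (nat_lit 104) (nat_lit 40) r3_104 r1_40 (nat_lit 0) (nat_lit 0) (nat_lit 0) (nat_lit 0x7ecc02e106) (nat_lit 590536440),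
  Rx.mk (nat_lit 423) (nat_lit 7) (nat_lit 4) (nat_lit 6) (nat_lit 5) (nat_lit 109) (nat_lit 41) r3_109 r1_41 (nat_lit 0) (nat_lit 0) (nat_lit 0) (nat_lit 0x7e2853bc9c) (nat_lit 904383792),
  Rx.mk (nat_lit 436) (nat_lit 4) (nat_lit 6) (nat_lit 6) (nat_lit 6) (nat_lit 102) (nat_lit 43) r3_102 r1_43 (nat_lit 0) (nat_lit 0) (nat_lit 0) (nat_lit 0x7d89c9a5dc) (nat_lit 1208366640),
  Rx.mk (nat_lit 437) (nat_lit 5) (nat_lit 6) (nat_lit 6) (nat_lit 7) (nat_lit 105) (nat_lit 44) r3_105 r1_44 (nat_lit 0) (nat_lit 0) (nat_lit 0) (nat_lit 0x7ed104b0e4) (nat_lit 580935888),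
  Rx.mk (nat_lit 439) (nat_lit 7) (nat_lit 6) (nat_lit 6) (nat_lit 7) (nat_lit 110) (nat_lit 45) r3_110 r1_45 (nat_lit 0) (nat_lit 0) (nat_lit 0) (nat_lit 0x7e3f27cf44) (nat_lit 860612688),
  Rx.mk (nat_lit 447) (nat_lit 7) (nat_lit 7) (nat_lit 6) (nat_lit 7) (nat_lit 111) (nat_lit 42) r3_111 r1_42 (nat_lit 0) (nat_lit 0) (nat_lit 0) (nat_lit 0x7efab4d5b8) (nat_lit 501003360)]
noncomputable def e3_13 : List Rx := [
  Rx.mk (nat_lit 150) (nat_lit 6) (nat_lit 2) (nat_lit 2) (nat_lit 7) (nat_lit 115) (nat_lit 45) r3_115 r7_45 (nat_lit 0) (nat_lit 0) (nat_lit 0) (nat_lit 0x7c4848df2a) (nat_lit 1824815304),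
  Rx.mk (nat_lit 180) (nat_lit 4) (nat_lit 6) (nat_lit 2) (nat_lit 6) (nat_lit 112) (nat_lit 43) r3_112 r7_43 (nat_lit 0) (nat_lit 0) (nat_lit 0) (nat_lit 0x78cfd7a9b6) (nat_lit 3528310968),
  Rx.mk (nat_lit 181) (nat_lit 5) (nat_lit 6) (nat_lit 2) (nat_lit 7) (nat_lit 113) (nat_lit 44) r3_113 r7_44 (nat_lit 0) (nat_lit 0) (nat_lit 0) (nat_lit 0x7ed1aa068e) (nat_lit 579697560),
  Rx.mk (nat_lit 182) (nat_lit 6) (nat_lit 6) (nat_lit 2) (nat_lit 7) (nat_lit 114) (nat_lit 46) r3_114 r7_46 (nat_lit 0) (nat_lit 0) (nat_lit 0) (nat_lit 0x7c243dfffc) (nat_lit 1893922992)]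
noncomputable def e3_14 : List Rx := [
  Rx.mk (nat_lit 22) (nat_lit 6) (nat_lit 2) (nat_lit 0) (nat_lit 3) (nat_lit 117) (nat_lit 43) r3_117 r7_43 (nat_lit 0) (nat_lit 0) (nat_lit 0) (nat_lit 0x78cfd7a9b6) (nat_lit 3528310968),
  Rx.mk (nat_lit 86) (nat_lit 6) (nat_lit 2) (nat_lit 1) (nat_lit 7) (nat_lit 118) (nat_lit 44) r3_118 r7_44 (nat_lit 0) (nat_lit 0) (nat_lit 0) (nat_lit 0x7ed1aa068e) (nat_lit 579697560),
  Rx.mk (nat_lit 150) (nat_lit 6) (nat_lit 2) (nat_lit 2) (nat_lit 7) (nat_lit 119) (nat_lit 46) r3_119 r7_46 (nat_lit 0) (nat_lit 0) (nat_lit 0) (nat_lit 0x7c243dfffc) (nat_lit 1893922992),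
  Rx.mk (nat_lit 182) (nat_lit 6) (nat_lit 6) (nat_lit 2) (nat_lit 7) (nat_lit 116) (nat_lit 45) r3_116 r7_45 (nat_lit 0) (nat_lit 0) (nat_lit 0) (nat_lit 0x7c4848df2a) (nat_lit 1824815304)]
noncomputable def e3_15 : List Rx := [
  Rx.mk (nat_lit 86) (nat_lit 6) (nat_lit 2) (nat_lit 1) (nat_lit 7) (nat_lit 120) (nat_lit 14) r3_120 r8_14 (nat_lit 0) (nat_lit 0) (nat_lit 0) (nat_lit 0x7ad52b5276) (nat_lit 2536390584)]
noncomputable def e3_16 : List Rx := [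
  Rx.mk (nat_lit 22) (nat_lit 6) (nat_lit 2) (nat_lit 0) (nat_lit 3) (nat_lit 123) (nat_lit 34) r3_123 r4_34 (nat_lit 0) (nat_lit 0) (nat_lit 0) (nat_lit 0x7f3136ed60) (nat_lit 396489600),
  Rx.mk (nat_lit 150) (nat_lit 6) (nat_lit 2) (nat_lit 2) (nat_lit 7) (nat_lit 124) (nat_lit 39) r3_124 r4_39 (nat_lit 0) (nat_lit 0) (nat_lit 0) (nat_lit 0x7e65b0c68e) (nat_lit 786725784),
  Rx.mk (nat_lit 180) (nat_lit 4) (nat_lit 6) (nat_lit 2) (nat_lit 6) (nat_lit 121) (nat_lit 36) r3_121 r4_36 (nat_lit 0) (nat_lit 0) (nat_lit 0) (nat_lit 0x7db0793abc) (nat_lit 1134190512),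
  Rx.mk (nat_lit 182) (nat_lit 6) (nat_lit 6) (nat_lit 2) (nat_lit 7) (nat_lit 122) (nat_lit 38) r3_122 r4_38 (nat_lit 0) (nat_lit 0) (nat_lit 0) (nat_lit 0x7e2eabd714) (nat_lit 892219536),
  Rx.mk (nat_lit 183) (nat_lit 7) (nat_lit 6) (nat_lit 2) (nat_lit 7) (nat_lit 128) (nat_lit 37) r3_128 r4_37 (nat_lit 0) (nat_lit 0) (nat_lit 0) (nat_lit 0x7eb5bf2558) (nat_lit 633226464),
  Rx.mk (nat_lit 214) (nat_lit 6) (nat_lit 2) (nat_lit 3) (nat_lit 7) (nat_lit 125) (nat_lit 35) r3_125 r4_35 (nat_lit 0) (nat_lit 0) (nat_lit 0) (nat_lit 0x7f09322dd4) (nat_lit 473221008),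
  Rx.mk (nat_lit 423) (nat_lit 7) (nat_lit 4) (nat_lit 6) (nat_lit 5) (nat_lit 126) (nat_lit 31) r3_126 r4_31 (nat_lit 0) (nat_lit 0) (nat_lit 0) (nat_lit 0x7ffbd9e266) (nat_lit 7955064),
  Rx.mk (nat_lit 439) (nat_lit 7) (nat_lit 6) (nat_lit 6) (nat_lit 7) (nat_lit 127) (nat_lit 33) r3_127 r4_33 (nat_lit 0) (nat_lit 0) (nat_lit 0) (nat_lit 0x7e68443d54) (nat_lit 781786512),
  Rx.mk (nat_lit 447) (nat_lit 7) (nat_lit 7) (nat_lit 6) (nat_lit 7) (nat_lit 129) (nat_lit 32) r3_129 r4_32 (nat_lit 0) (nat_lit 0) (nat_lit 0) (nat_lit 0x7ae6c7f89a) (nat_lit 2502621576)]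
noncomputable def e3_17 : List Rx := [
  Rx.mk (nat_lit 22) (nat_lit 6) (nat_lit 2) (nat_lit 0) (nat_lit 3) (nat_lit 132) (nat_lit 19) r3_132 r9_19 (nat_lit 0) (nat_lit 0) (nat_lit 0) (nat_lit 0x7fdf7708b0) (nat_lit 62382528),
  Rx.mk (nat_lit 150) (nat_lit 6) (nat_lit 2) (nat_lit 2) (nat_lit 7) (nat_lit 133) (nat_lit 21) r3_133 r9_21 (nat_lit 0) (nat_lit 0) (nat_lit 0) (nat_lit 0x7e9b536c2e) (nat_lit 683885592),
  Rx.mk (nat_lit 180) (nat_lit 4) (nat_lit 6) (nat_lit 2) (nat_lit 6) (nat_lit 130) (nat_lit 17) r3_130 r9_17 (nat_lit 0) (nat_lit 0) (nat_lit 0) (nat_lit 0x7fdf7708b0) (nat_lit 62382528),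
  Rx.mk (nat_lit 182) (nat_lit 6) (nat_lit 6) (nat_lit 2) (nat_lit 7) (nat_lit 131) (nat_lit 22) r3_131 r9_22 (nat_lit 0) (nat_lit 0) (nat_lit 0) (nat_lit 0x7e9b536c2e) (nat_lit 683885592),
  Rx.mk (nat_lit 183) (nat_lit 7) (nat_lit 6) (nat_lit 2) (nat_lit 7) (nat_lit 135) (nat_lit 18) r3_135 r9_18 (nat_lit 0) (nat_lit 0) (nat_lit 0) (nat_lit 0x7ef4f9d16e) (nat_lit 511991064),
  Rx.mk (nat_lit 214) (nat_lit 6) (nat_lit 2) (nat_lit 3) (nat_lit 7) (nat_lit 134) (nat_lit 20) r3_134 r9_20 (nat_lit 0) (nat_lit 0) (nat_lit 0) (nat_lit 0x7ef4f9d16e) (nat_lit 511991064)]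
noncomputable def e3_18 : List Rx := [
  Rx.mk (nat_lit 214) (nat_lit 6) (nat_lit 2) (nat_lit 3) (nat_lit 7) (nat_lit 136) (nat_lit 7) r3_136 r10_7 (nat_lit 0) (nat_lit 0) (nat_lit 0) (nat_lit 0x7fc79746c4) (nat_lit 108158544),
  Rx.mk (nat_lit 447) (nat_lit 7) (nat_lit 7) (nat_lit 6) (nat_lit 7) (nat_lit 137) (nat_lit 6) r3_137 r10_6 (nat_lit 0) (nat_lit 0) (nat_lit 0) (nat_lit 0x7f829c56b8) (nat_lit 240420960)]
noncomputable def e3_19 : List Rx := [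
  Rx.mk (nat_lit 66) (nat_lit 2) (nat_lit 0) (nat_lit 1) (nat_lit 5) (nat_lit 139) (nat_lit 19) r3_139 r8_19 (nat_lit 0) (nat_lit 0) (nat_lit 0) (nat_lit 0x6e3f9218a0) (nat_lit 8713471104),
  Rx.mk (nat_lit 74) (nat_lit 2) (nat_lit 1) (nat_lit 1) (nat_lit 7) (nat_lit 140) (nat_lit 20) r3_140 r8_20 (nat_lit 0) (nat_lit 0) (nat_lit 0) (nat_lit 0x7c4a3100a6) (nat_lit 1821159288),
  Rx.mk (nat_lit 82) (nat_lit 2) (nat_lit 2) (nat_lit 1) (nat_lit 7) (nat_lit 141) (nat_lit 22) r3_141 r8_22 (nat_lit 0) (nat_lit 0) (nat_lit 0) (nat_lit 0x7764b97d04) (nat_lit 4224551760),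
  Rx.mk (nat_lit 86) (nat_lit 6) (nat_lit 2) (nat_lit 1) (nat_lit 7) (nat_lit 138) (nat_lit 21) r3_138 r8_21 (nat_lit 0) (nat_lit 0) (nat_lit 0) (nat_lit 0x7bb65c3e86) (nat_lit 2104610040)]
noncomputable def e3_20 : List Rx := [
  Rx.mk (nat_lit 264) (nat_lit 0) (nat_lit 1) (nat_lit 4) (nat_lit 2) (nat_lit 143) (nat_lit 359) r3_143 r0_359 (nat_lit 0) (nat_lit 0) (nat_lit 0) (nat_lit 0x8000000000) (nat_lit 0),
  Rx.mk (nat_lit 266) (nat_lit 2) (nat_lit 1) (nat_lit 4) (nat_lit 3) (nat_lit 146) (nat_lit 300) r3_146 r0_300 (nat_lit 0) (nat_lit 0) (nat_lit 0) (nat_lit 0x8000000000) (nat_lit 0),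
  Rx.mk (nat_lit 320) (nat_lit 0) (nat_lit 0) (nat_lit 5) (nat_lit 4) (nat_lit 142) (nat_lit 301) r3_142 r0_301 (nat_lit 0) (nat_lit 0) (nat_lit 0) (nat_lit 0x7ffd37ac88) (nat_lit 5335200),
  Rx.mk (nat_lit 322) (nat_lit 2) (nat_lit 0) (nat_lit 5) (nat_lit 5) (nat_lit 145) (nat_lit 303) r3_145 r0_303 (nat_lit 0) (nat_lit 0) (nat_lit 0) (nat_lit 0x7da58729e8) (nat_lit 1155177504),
  Rx.mk (nat_lit 328) (nat_lit 0) (nat_lit 1) (nat_lit 5) (nat_lit 6) (nat_lit 144) (nat_lit 302) r3_144 r0_302 (nat_lit 0) (nat_lit 0) (nat_lit 0) (nat_lit 0x7efff78188) (nat_lit 490917024),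
  Rx.mk (nat_lit 330) (nat_lit 2) (nat_lit 1) (nat_lit 5) (nat_lit 7) (nat_lit 147) (nat_lit 304) r3_147 r0_304 (nat_lit 0) (nat_lit 0) (nat_lit 0) (nat_lit 0x7feb704910) (nat_lit 39424320)]
noncomputable def e3_21 : List Rx := [
  Rx.mk (nat_lit 264) (nat_lit 0) (nat_lit 1) (nat_lit 4) (nat_lit 2) (nat_lit 148) (nat_lit 323) r3_148 r1_323 (nat_lit 0) (nat_lit 0) (nat_lit 0) (nat_lit 0x8000000000) (nat_lit 0),
  Rx.mk (nat_lit 266) (nat_lit 2) (nat_lit 1) (nat_lit 4) (nat_lit 3) (nat_lit 150) (nat_lit 293) r3_150 r1_293 (nat_lit 0) (nat_lit 0) (nat_lit 0) (nat_lit 0x7f34c65466) (nat_lit 389663352),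
  Rx.mk (nat_lit 328) (nat_lit 0) (nat_lit 1) (nat_lit 5) (nat_lit 6) (nat_lit 149) (nat_lit 294) r3_149 r1_294 (nat_lit 0) (nat_lit 0) (nat_lit 0) (nat_lit 0x7f3dabe604) (nat_lit 372604752),
  Rx.mk (nat_lit 330) (nat_lit 2) (nat_lit 1) (nat_lit 5) (nat_lit 7) (nat_lit 151) (nat_lit 295) r3_151 r1_295 (nat_lit 0) (nat_lit 0) (nat_lit 0) (nat_lit 0x7f46a79640) (nat_lit 355380480)]
noncomputable def e3_22 : List Rx := [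
  Rx.mk (nat_lit 256) (nat_lit 0) (nat_lit 0) (nat_lit 4) (nat_lit 0) (nat_lit 152) (nat_lit 315) r3_152 r4_315 (nat_lit 0) (nat_lit 0) (nat_lit 0) (nat_lit 0x72d96d1656) (nat_lit 6455055672),
  Rx.mk (nat_lit 258) (nat_lit 2) (nat_lit 0) (nat_lit 4) (nat_lit 1) (nat_lit 158) (nat_lit 318) r3_158 r4_318 (nat_lit 0) (nat_lit 0) (nat_lit 0) (nat_lit 0x7a41dba804) (nat_lit 2818844496),
  Rx.mk (nat_lit 264) (nat_lit 0) (nat_lit 1) (nat_lit 4) (nat_lit 2) (nat_lit 154) (nat_lit 316) r3_154 r4_316 (nat_lit 0) (nat_lit 0) (nat_lit 0) (nat_lit 0x790eef77fa) (nat_lit 3407336712),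
  Rx.mk (nat_lit 266) (nat_lit 2) (nat_lit 1) (nat_lit 4) (nat_lit 3) (nat_lit 160) (nat_lit 319) r3_160 r4_319 (nat_lit 0) (nat_lit 0) (nat_lit 0) (nat_lit 0x7e0ef89268) (nat_lit 953001504),
  Rx.mk (nat_lit 280) (nat_lit 0) (nat_lit 3) (nat_lit 4) (nat_lit 2) (nat_lit 156) (nat_lit 317) r3_156 r4_317 (nat_lit 0) (nat_lit 0) (nat_lit 0) (nat_lit 0x79c6919d20) (nat_lit 3055238784),
  Rx.mk (nat_lit 282) (nat_lit 2) (nat_lit 3) (nat_lit 4) (nat_lit 3) (nat_lit 162) (nat_lit 320) r3_162 r4_320 (nat_lit 0) (nat_lit 0) (nat_lit 0) (nat_lit 0x7c8fa6290e) (nat_lit 1687981464),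
  Rx.mk (nat_lit 320) (nat_lit 0) (nat_lit 0) (nat_lit 5) (nat_lit 4) (nat_lit 153) (nat_lit 321) r3_153 r4_321 (nat_lit 0) (nat_lit 0) (nat_lit 0) (nat_lit 0x7824867f74) (nat_lit 3856793616),
  Rx.mk (nat_lit 322) (nat_lit 2) (nat_lit 0) (nat_lit 5) (nat_lit 5) (nat_lit 159) (nat_lit 324) r3_159 r4_324 (nat_lit 0) (nat_lit 0) (nat_lit 0) (nat_lit 0x7e5e87d924) (nat_lit 800454096),
  Rx.mk (nat_lit 328) (nat_lit 0) (nat_lit 1) (nat_lit 5) (nat_lit 6) (nat_lit 155) (nat_lit 322) r3_155 r4_322 (nat_lit 0) (nat_lit 0) (nat_lit 0) (nat_lit 0x7cbf2d1070) (nat_lit 1596853440),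
  Rx.mk (nat_lit 330) (nat_lit 2) (nat_lit 1) (nat_lit 5) (nat_lit 7) (nat_lit 161) (nat_lit 325) r3_161 r4_325 (nat_lit 0) (nat_lit 0) (nat_lit 0) (nat_lit 0x7eb281d930) (nat_lit 639437760),
  Rx.mk (nat_lit 344) (nat_lit 0) (nat_lit 3) (nat_lit 5) (nat_lit 6) (nat_lit 157) (nat_lit 323) r3_157 r4_323 (nat_lit 0) (nat_lit 0) (nat_lit 0) (nat_lit 0x7cb07e3b6c) (nat_lit 1625006448),
  Rx.mk (nat_lit 346) (nat_lit 2) (nat_lit 3) (nat_lit 5) (nat_lit 7) (nat_lit 163) (nat_lit 326) r3_163 r4_326 (nat_lit 0) (nat_lit 0) (nat_lit 0) (nat_lit 0x7ea6169ff0) (nat_lit 663249600)]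
noncomputable def e3_23 : List Rx := [
  Rx.mk (nat_lit 320) (nat_lit 0) (nat_lit 0) (nat_lit 5) (nat_lit 4) (nat_lit 164) (nat_lit 52) r3_164 r6_52 (nat_lit 0) (nat_lit 0) (nat_lit 0) (nat_lit 0x70137118dc) (nat_lit 7816376880),
  Rx.mk (nat_lit 322) (nat_lit 2) (nat_lit 0) (nat_lit 5) (nat_lit 5) (nat_lit 166) (nat_lit 53) r3_166 r6_53 (nat_lit 0) (nat_lit 0) (nat_lit 0) (nat_lit 0x7ed67c9960) (nat_lit 570450816),
  Rx.mk (nat_lit 328) (nat_lit 0) (nat_lit 1) (nat_lit 5) (nat_lit 6) (nat_lit 165) (nat_lit 54) r3_165 r6_54 (nat_lit 0) (nat_lit 0) (nat_lit 0) (nat_lit 0x721a4209c6) (nat_lit 6821600760),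
  Rx.mk (nat_lit 330) (nat_lit 2) (nat_lit 1) (nat_lit 5) (nat_lit 7) (nat_lit 167) (nat_lit 55) r3_167 r6_55 (nat_lit 0) (nat_lit 0) (nat_lit 0) (nat_lit 0x7eecb9f574) (nat_lit 527808528)]
noncomputable def e3_24 : List Rx := [
  Rx.mk (nat_lit 328) (nat_lit 0) (nat_lit 1) (nat_lit 5) (nat_lit 6) (nat_lit 168) (nat_lit 61) r3_168 r7_61 (nat_lit 0) (nat_lit 0) (nat_lit 0) (nat_lit 0x75b85a24a6) (nat_lit 5045911416),
  Rx.mk (nat_lit 330) (nat_lit 2) (nat_lit 1) (nat_lit 5) (nat_lit 7) (nat_lit 169) (nat_lit 62) r3_169 r7_62 (nat_lit 0) (nat_lit 0) (nat_lit 0) (nat_lit 0x7f3a485c40) (nat_lit 379102464)]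
noncomputable def e3_25 : List Rx := [
  Rx.mk (nat_lit 66) (nat_lit 2) (nat_lit 0) (nat_lit 1) (nat_lit 5) (nat_lit 173) (nat_lit 331) r3_173 r7_331 (nat_lit 0) (nat_lit 0) (nat_lit 0) (nat_lit 0x6e724f8c96) (nat_lit 8616182328),
  Rx.mk (nat_lit 74) (nat_lit 2) (nat_lit 1) (nat_lit 1) (nat_lit 7) (nat_lit 175) (nat_lit 332) r3_175 r7_332 (nat_lit 0) (nat_lit 0) (nat_lit 0) (nat_lit 0x7bddb1e904) (nat_lit 2029189968),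
  Rx.mk (nat_lit 82) (nat_lit 2) (nat_lit 2) (nat_lit 1) (nat_lit 7) (nat_lit 176) (nat_lit 333) r3_176 r7_333 (nat_lit 0) (nat_lit 0) (nat_lit 0) (nat_lit 0x7cba1941b2) (nat_lit 1606588776),
  Rx.mk (nat_lit 320) (nat_lit 0) (nat_lit 0) (nat_lit 5) (nat_lit 4) (nat_lit 170) (nat_lit 334) r3_170 r7_334 (nat_lit 0) (nat_lit 0) (nat_lit 0) (nat_lit 0x6b3e98cb36) (nat_lit 10187898552),
  Rx.mk (nat_lit 322) (nat_lit 2) (nat_lit 0) (nat_lit 5) (nat_lit 5) (nat_lit 172) (nat_lit 336) r3_172 r7_336 (nat_lit 0) (nat_lit 0) (nat_lit 0) (nat_lit 0x73f40d8b34) (nat_lit 5913148176),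
  Rx.mk (nat_lit 328) (nat_lit 0) (nat_lit 1) (nat_lit 5) (nat_lit 6) (nat_lit 171) (nat_lit 335) r3_171 r7_335 (nat_lit 0) (nat_lit 0) (nat_lit 0) (nat_lit 0x732efe9ce8) (nat_lit 6290987040),
  Rx.mk (nat_lit 330) (nat_lit 2) (nat_lit 1) (nat_lit 5) (nat_lit 7) (nat_lit 174) (nat_lit 337) r3_174 r7_337 (nat_lit 0) (nat_lit 0) (nat_lit 0) (nat_lit 0x7c2ead98f8) (nat_lit 1873913184)]
noncomputable def e3_26 : List Rx := [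
  Rx.mk (nat_lit 320) (nat_lit 0) (nat_lit 0) (nat_lit 5) (nat_lit 4) (nat_lit 177) (nat_lit 38) r3_177 r9_38 (nat_lit 0) (nat_lit 0) (nat_lit 0) (nat_lit 0x7143ff0ecc) (nat_lit 7232425200),
  Rx.mk (nat_lit 322) (nat_lit 2) (nat_lit 0) (nat_lit 5) (nat_lit 5) (nat_lit 180) (nat_lit 39) r3_180 r9_39 (nat_lit 0) (nat_lit 0) (nat_lit 0) (nat_lit 0x7f9d302d60) (nat_lit 189461376),
  Rx.mk (nat_lit 328) (nat_lit 0) (nat_lit 1) (nat_lit 5) (nat_lit 6) (nat_lit 178) (nat_lit 40) r3_178 r9_40 (nat_lit 0) (nat_lit 0) (nat_lit 0) (nat_lit 0x7b2d0a942a) (nat_lit 2367904968),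
  Rx.mk (nat_lit 330) (nat_lit 2) (nat_lit 1) (nat_lit 5) (nat_lit 7) (nat_lit 181) (nat_lit 41) r3_181 r9_41 (nat_lit 0) (nat_lit 0) (nat_lit 0) (nat_lit 0x7f23fc011c) (nat_lit 421857072),
  Rx.mk (nat_lit 344) (nat_lit 0) (nat_lit 3) (nat_lit 5) (nat_lit 6) (nat_lit 179) (nat_lit 42) r3_179 r9_42 (nat_lit 0) (nat_lit 0) (nat_lit 0) (nat_lit 0x7b7cf61522) (nat_lit 2214666792),
  Rx.mk (nat_lit 346) (nat_lit 2) (nat_lit 3) (nat_lit 5) (nat_lit 7) (nat_lit 182) (nat_lit 43) r3_182 r9_43 (nat_lit 0) (nat_lit 0) (nat_lit 0) (nat_lit 0x7eeb84a8ca) (nat_lit 530125128)]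
noncomputable def e3_27 : List Rx := [
  Rx.mk (nat_lit 256) (nat_lit 0) (nat_lit 0) (nat_lit 4) (nat_lit 0) (nat_lit 183) (nat_lit 19) r3_183 r10_19 (nat_lit 0) (nat_lit 0) (nat_lit 0) (nat_lit 0x611f400ae2) (nat_lit 15156536616),
  Rx.mk (nat_lit 258) (nat_lit 2) (nat_lit 0) (nat_lit 4) (nat_lit 1) (nat_lit 191) (nat_lit 22) r3_191 r10_22 (nat_lit 0) (nat_lit 0) (nat_lit 0) (nat_lit 0x7199b2b33c) (nat_lit 7068101040),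
  Rx.mk (nat_lit 264) (nat_lit 0) (nat_lit 1) (nat_lit 4) (nat_lit 2) (nat_lit 186) (nat_lit 25) r3_186 r10_25 (nat_lit 0) (nat_lit 0) (nat_lit 0) (nat_lit 0x6c0e76ec84) (nat_lit 9789333840),
  Rx.mk (nat_lit 266) (nat_lit 2) (nat_lit 1) (nat_lit 4) (nat_lit 3) (nat_lit 194) (nat_lit 28) r3_194 r10_28 (nat_lit 0) (nat_lit 0) (nat_lit 0) (nat_lit 0x7db4419e32) (nat_lit 1126937448),
  Rx.mk (nat_lit 280) (nat_lit 0) (nat_lit 3) (nat_lit 4) (nat_lit 2) (nat_lit 189) (nat_lit 31) r3_189 r10_31 (nat_lit 0) (nat_lit 0) (nat_lit 0) (nat_lit 0x6e8b4ffc76) (nat_lit 8568244152),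
  Rx.mk (nat_lit 282) (nat_lit 2) (nat_lit 3) (nat_lit 4) (nat_lit 3) (nat_lit 197) (nat_lit 35) r3_197 r10_35 (nat_lit 0) (nat_lit 0) (nat_lit 0) (nat_lit 0x7ba330b152) (nat_lit 2141366760),
  Rx.mk (nat_lit 283) (nat_lit 3) (nat_lit 3) (nat_lit 4) (nat_lit 3) (nat_lit 199) (nat_lit 33) r3_199 r10_33 (nat_lit 0) (nat_lit 0) (nat_lit 0) (nat_lit 0x7e061120e8) (nat_lit 970074144),
  Rx.mk (nat_lit 320) (nat_lit 0) (nat_lit 0) (nat_lit 5) (nat_lit 4) (nat_lit 184) (nat_lit 20) r3_184 r10_20 (nat_lit 0) (nat_lit 0) (nat_lit 0) (nat_lit 0x6c7064ad46) (nat_lit 9601565688),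
  Rx.mk (nat_lit 322) (nat_lit 2) (nat_lit 0) (nat_lit 5) (nat_lit 5) (nat_lit 192) (nat_lit 23) r3_192 r10_23 (nat_lit 0) (nat_lit 0) (nat_lit 0) (nat_lit 0x7bee1be254) (nat_lit 1997717904),
  Rx.mk (nat_lit 328) (nat_lit 0) (nat_lit 1) (nat_lit 5) (nat_lit 6) (nat_lit 187) (nat_lit 26) r3_187 r10_26 (nat_lit 0) (nat_lit 0) (nat_lit 0) (nat_lit 0x7c9d740c22) (nat_lit 1661513256),
  Rx.mk (nat_lit 330) (nat_lit 2) (nat_lit 1) (nat_lit 5) (nat_lit 7) (nat_lit 195) (nat_lit 29) r3_195 r10_29 (nat_lit 0) (nat_lit 0) (nat_lit 0) (nat_lit 0x7e26fad22c) (nat_lit 906967152),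
  Rx.mk (nat_lit 344) (nat_lit 0) (nat_lit 3) (nat_lit 5) (nat_lit 6) (nat_lit 190) (nat_lit 32) r3_190 r10_32 (nat_lit 0) (nat_lit 0) (nat_lit 0) (nat_lit 0x7822d6fa6e) (nat_lit 3860025624),
  Rx.mk (nat_lit 346) (nat_lit 2) (nat_lit 3) (nat_lit 5) (nat_lit 7) (nat_lit 198) (nat_lit 36) r3_198 r10_36 (nat_lit 0) (nat_lit 0) (nat_lit 0) (nat_lit 0x7e079ac84c) (nat_lit 967125744),
  Rx.mk (nat_lit 347) (nat_lit 3) (nat_lit 3) (nat_lit 5) (nat_lit 7) (nat_lit 200) (nat_lit 34) r3_200 r10_34 (nat_lit 0) (nat_lit 0) (nat_lit 0) (nat_lit 0x7dec2adf66) (nat_lit 1019733624),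
  Rx.mk (nat_lit 448) (nat_lit 0) (nat_lit 0) (nat_lit 7) (nat_lit 4) (nat_lit 185) (nat_lit 21) r3_185 r10_21 (nat_lit 0) (nat_lit 0) (nat_lit 0) (nat_lit 0x6df68609aa) (nat_lit 8853531336),
  Rx.mk (nat_lit 450) (nat_lit 2) (nat_lit 0) (nat_lit 7) (nat_lit 5) (nat_lit 193) (nat_lit 24) r3_193 r10_24 (nat_lit 0) (nat_lit 0) (nat_lit 0) (nat_lit 0x7846764056) (nat_lit 3791723832),
  Rx.mk (nat_lit 456) (nat_lit 0) (nat_lit 1) (nat_lit 7) (nat_lit 6) (nat_lit 188) (nat_lit 27) r3_188 r10_27 (nat_lit 0) (nat_lit 0) (nat_lit 0) (nat_lit 0x7aec04a4ca) (nat_lit 2492580168),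
  Rx.mk (nat_lit 458) (nat_lit 2) (nat_lit 1) (nat_lit 7) (nat_lit 7) (nat_lit 196) (nat_lit 30) r3_196 r10_30 (nat_lit 0) (nat_lit 0) (nat_lit 0) (nat_lit 0x7e1c68bb58) (nat_lit 927235296)]
noncomputable def e3_28 : List Rx := [
  Rx.mk (nat_lit 183) (nat_lit 7) (nat_lit 6) (nat_lit 2) (nat_lit 7) (nat_lit 211) (nat_lit 7) r3_211 r10_7 (nat_lit 0) (nat_lit 0) (nat_lit 0) (nat_lit 0x7fc79746c4) (nat_lit 108158544),
  Rx.mk (nat_lit 218) (nat_lit 2) (nat_lit 3) (nat_lit 3) (nat_lit 7) (nat_lit 212) (nat_lit 6) r3_212 r10_6 (nat_lit 0) (nat_lit 0) (nat_lit 0) (nat_lit 0x7f829c56b8) (nat_lit 240420960)]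
noncomputable def e3_29 : List Rx := [
  Rx.mk (nat_lit 280) (nat_lit 0) (nat_lit 3) (nat_lit 4) (nat_lit 2) (nat_lit 215) (nat_lit 323) r3_215 r5_323 (nat_lit 0) (nat_lit 0) (nat_lit 0) (nat_lit 0x7fdc245dde) (nat_lit 68753880),
  Rx.mk (nat_lit 282) (nat_lit 2) (nat_lit 3) (nat_lit 4) (nat_lit 3) (nat_lit 216) (nat_lit 325) r3_216 r5_325 (nat_lit 0) (nat_lit 0) (nat_lit 0) (nat_lit 0x7f8fdd429c) (nat_lit 215008560),
  Rx.mk (nat_lit 312) (nat_lit 0) (nat_lit 7) (nat_lit 4) (nat_lit 2) (nat_lit 213) (nat_lit 322) r3_213 r5_322 (nat_lit 0) (nat_lit 0) (nat_lit 0) (nat_lit 0x7fdc245dde) (nat_lit 68753880),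
  Rx.mk (nat_lit 440) (nat_lit 0) (nat_lit 7) (nat_lit 6) (nat_lit 6) (nat_lit 214) (nat_lit 324) r3_214 r5_324 (nat_lit 0) (nat_lit 0) (nat_lit 0) (nat_lit 0x7f8fdd429c) (nat_lit 215008560)]
noncomputable def e3_30 : List Rx := [
  Rx.mk (nat_lit 344) (nat_lit 0) (nat_lit 3) (nat_lit 5) (nat_lit 6) (nat_lit 220) (nat_lit 351) r3_220 r10_351 (nat_lit 0) (nat_lit 0) (nat_lit 0) (nat_lit 0x7ae9e266f0) (nat_lit 2496671424),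
  Rx.mk (nat_lit 346) (nat_lit 2) (nat_lit 3) (nat_lit 5) (nat_lit 7) (nat_lit 221) (nat_lit 352) r3_221 r10_352 (nat_lit 0) (nat_lit 0) (nat_lit 0) (nat_lit 0x7fe8167eb0) (nat_lit 45849024)]
noncomputable def e3_31 : List Rx := [
  Rx.mk (nat_lit 312) (nat_lit 0) (nat_lit 7) (nat_lit 4) (nat_lit 2) (nat_lit 222) (nat_lit 44) r3_222 r5_44 (nat_lit 0) (nat_lit 0) (nat_lit 0) (nat_lit 0x7ffa96b69a) (nat_lit 10375560),
  Rx.mk (nat_lit 315) (nat_lit 3) (nat_lit 7) (nat_lit 4) (nat_lit 3) (nat_lit 228) (nat_lit 45) r3_228 r5_45 (nat_lit 0) (nat_lit 0) (nat_lit 0) (nat_lit 0x78c2869ed4) (nat_lit 3553844112),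
  Rx.mk (nat_lit 419) (nat_lit 3) (nat_lit 4) (nat_lit 6) (nat_lit 5) (nat_lit 227) (nat_lit 43) r3_227 r5_43 (nat_lit 0) (nat_lit 0) (nat_lit 0) (nat_lit 0x7ec8641af6) (nat_lit 597477816),
  Rx.mk (nat_lit 440) (nat_lit 0) (nat_lit 7) (nat_lit 6) (nat_lit 6) (nat_lit 223) (nat_lit 47) r3_223 r5_47 (nat_lit 0) (nat_lit 0) (nat_lit 0) (nat_lit 0x7ea6edd27c) (nat_lit 661637808),
  Rx.mk (nat_lit 443) (nat_lit 3) (nat_lit 7) (nat_lit 6) (nat_lit 7) (nat_lit 229) (nat_lit 48) r3_229 r5_48 (nat_lit 0) (nat_lit 0) (nat_lit 0) (nat_lit 0x7f51b98516) (nat_lit 334154808),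
  Rx.mk (nat_lit 472) (nat_lit 0) (nat_lit 3) (nat_lit 7) (nat_lit 6) (nat_lit 225) (nat_lit 41) r3_225 r5_41 (nat_lit 0) (nat_lit 0) (nat_lit 0) (nat_lit 0x770d966f8c) (nat_lit 4391627760),
  Rx.mk (nat_lit 474) (nat_lit 2) (nat_lit 3) (nat_lit 7) (nat_lit 7) (nat_lit 226) (nat_lit 42) r3_226 r5_42 (nat_lit 0) (nat_lit 0) (nat_lit 0) (nat_lit 0x7f3a4a3c22) (nat_lit 379088424),
  Rx.mk (nat_lit 504) (nat_lit 0) (nat_lit 7) (nat_lit 7) (nat_lit 6) (nat_lit 224) (nat_lit 46) r3_224 r5_46 (nat_lit 0) (nat_lit 0) (nat_lit 0) (nat_lit 0x783b195630) (nat_lit 3813511104)]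
noncomputable def e3_32 : List Rx := [
  Rx.mk (nat_lit 280) (nat_lit 0) (nat_lit 3) (nat_lit 4) (nat_lit 2) (nat_lit 232) (nat_lit 14) r3_232 r11_14 (nat_lit 0) (nat_lit 0) (nat_lit 0) (nat_lit 0x7f8a217e5e) (nat_lit 226001880),
  Rx.mk (nat_lit 282) (nat_lit 2) (nat_lit 3) (nat_lit 4) (nat_lit 3) (nat_lit 234) (nat_lit 20) r3_234 r11_20 (nat_lit 0) (nat_lit 0) (nat_lit 0) (nat_lit 0x7f1946ac7c) (nat_lit 442389168),
  Rx.mk (nat_lit 312) (nat_lit 0) (nat_lit 7) (nat_lit 4) (nat_lit 2) (nat_lit 230) (nat_lit 16) r3_230 r11_16 (nat_lit 0) (nat_lit 0) (nat_lit 0) (nat_lit 0x7f8a217e5e) (nat_lit 226001880),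
  Rx.mk (nat_lit 315) (nat_lit 3) (nat_lit 7) (nat_lit 4) (nat_lit 3) (nat_lit 236) (nat_lit 18) r3_236 r11_18 (nat_lit 0) (nat_lit 0) (nat_lit 0) (nat_lit 0x74e254a5d4) (nat_lit 5456275344),
  Rx.mk (nat_lit 440) (nat_lit 0) (nat_lit 7) (nat_lit 6) (nat_lit 6) (nat_lit 231) (nat_lit 17) r3_231 r11_17 (nat_lit 0) (nat_lit 0) (nat_lit 0) (nat_lit 0x7f1946ac7c) (nat_lit 442389168),
  Rx.mk (nat_lit 443) (nat_lit 3) (nat_lit 7) (nat_lit 6) (nat_lit 7) (nat_lit 237) (nat_lit 19) r3_237 r11_19 (nat_lit 0) (nat_lit 0) (nat_lit 0) (nat_lit 0x7f616e09be) (nat_lit 304041816),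
  Rx.mk (nat_lit 472) (nat_lit 0) (nat_lit 3) (nat_lit 7) (nat_lit 6) (nat_lit 233) (nat_lit 15) r3_233 r11_15 (nat_lit 0) (nat_lit 0) (nat_lit 0) (nat_lit 0x74e254a5d4) (nat_lit 5456275344),
  Rx.mk (nat_lit 474) (nat_lit 2) (nat_lit 3) (nat_lit 7) (nat_lit 7) (nat_lit 235) (nat_lit 21) r3_235 r11_21 (nat_lit 0) (nat_lit 0) (nat_lit 0) (nat_lit 0x7f616e09be) (nat_lit 304041816)]
noncomputable def e3_33 : List Rx := [
  Rx.mk (nat_lit 289) (nat_lit 1) (nat_lit 4) (nat_lit 4) (nat_lit 1) (nat_lit 240) (nat_lit 301) r3_240 r0_301 (nat_lit 0) (nat_lit 0) (nat_lit 0) (nat_lit 0x7ffd37ac88) (nat_lit 5335200),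
  Rx.mk (nat_lit 296) (nat_lit 0) (nat_lit 5) (nat_lit 4) (nat_lit 2) (nat_lit 238) (nat_lit 359) r3_238 r0_359 (nat_lit 0) (nat_lit 0) (nat_lit 0) (nat_lit 0x8000000000) (nat_lit 0),
  Rx.mk (nat_lit 297) (nat_lit 1) (nat_lit 5) (nat_lit 4) (nat_lit 3) (nat_lit 242) (nat_lit 302) r3_242 r0_302 (nat_lit 0) (nat_lit 0) (nat_lit 0) (nat_lit 0x7efff78188) (nat_lit 490917024),
  Rx.mk (nat_lit 417) (nat_lit 1) (nat_lit 4) (nat_lit 6) (nat_lit 5) (nat_lit 241) (nat_lit 303) r3_241 r0_303 (nat_lit 0) (nat_lit 0) (nat_lit 0) (nat_lit 0x7da58729e8) (nat_lit 1155177504),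
  Rx.mk (nat_lit 424) (nat_lit 0) (nat_lit 5) (nat_lit 6) (nat_lit 6) (nat_lit 239) (nat_lit 300) r3_239 r0_300 (nat_lit 0) (nat_lit 0) (nat_lit 0) (nat_lit 0x8000000000) (nat_lit 0),
  Rx.mk (nat_lit 425) (nat_lit 1) (nat_lit 5) (nat_lit 6) (nat_lit 7) (nat_lit 243) (nat_lit 304) r3_243 r0_304 (nat_lit 0) (nat_lit 0) (nat_lit 0) (nat_lit 0x7feb704910) (nat_lit 39424320)]
noncomputable def e3_34 : List Rx := [
  Rx.mk (nat_lit 417) (nat_lit 1) (nat_lit 4) (nat_lit 6) (nat_lit 5) (nat_lit 244) (nat_lit 71) r3_244 r0_71 (nat_lit 0) (nat_lit 0) (nat_lit 0) (nat_lit 0x8000000000) (nat_lit 0)]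
noncomputable def e3_35 : List Rx := [
  Rx.mk (nat_lit 289) (nat_lit 1) (nat_lit 4) (nat_lit 4) (nat_lit 1) (nat_lit 245) (nat_lit 412) r3_245 r6_412 (nat_lit 0) (nat_lit 0) (nat_lit 0) (nat_lit 0x70137118dc) (nat_lit 7816376880),
  Rx.mk (nat_lit 297) (nat_lit 1) (nat_lit 5) (nat_lit 4) (nat_lit 3) (nat_lit 247) (nat_lit 413) r3_247 r6_413 (nat_lit 0) (nat_lit 0) (nat_lit 0) (nat_lit 0x721a4209c6) (nat_lit 6821600760),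
  Rx.mk (nat_lit 417) (nat_lit 1) (nat_lit 4) (nat_lit 6) (nat_lit 5) (nat_lit 246) (nat_lit 414) r3_246 r6_414 (nat_lit 0) (nat_lit 0) (nat_lit 0) (nat_lit 0x7ed67c9960) (nat_lit 570450816),
  Rx.mk (nat_lit 425) (nat_lit 1) (nat_lit 5) (nat_lit 6) (nat_lit 7) (nat_lit 248) (nat_lit 415) r3_248 r6_415 (nat_lit 0) (nat_lit 0) (nat_lit 0) (nat_lit 0x7eecb9f574) (nat_lit 527808528)]
noncomputable def e3_36 : List Rx := [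
  Rx.mk (nat_lit 181) (nat_lit 5) (nat_lit 6) (nat_lit 2) (nat_lit 7) (nat_lit 251) (nat_lit 60) r3_251 r2_60 (nat_lit 0) (nat_lit 0) (nat_lit 0) (nat_lit 0x7f3a2d5df0) (nat_lit 379304640),
  Rx.mk (nat_lit 421) (nat_lit 5) (nat_lit 4) (nat_lit 6) (nat_lit 5) (nat_lit 249) (nat_lit 59) r3_249 r2_59 (nat_lit 0) (nat_lit 0) (nat_lit 0) (nat_lit 0x7fc66c7972) (nat_lit 110396520),
  Rx.mk (nat_lit 437) (nat_lit 5) (nat_lit 6) (nat_lit 6) (nat_lit 7) (nat_lit 250) (nat_lit 61) r3_250 r2_61 (nat_lit 0) (nat_lit 0) (nat_lit 0) (nat_lit 0x7f19302de4) (nat_lit 442557648)]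
noncomputable def e3_37 : List Rx := [
  Rx.mk (nat_lit 181) (nat_lit 5) (nat_lit 6) (nat_lit 2) (nat_lit 7) (nat_lit 255) (nat_lit 21) r3_255 r8_21 (nat_lit 0) (nat_lit 0) (nat_lit 0) (nat_lit 0x7bb65c3e86) (nat_lit 2104610040),
  Rx.mk (nat_lit 421) (nat_lit 5) (nat_lit 4) (nat_lit 6) (nat_lit 5) (nat_lit 252) (nat_lit 19) r3_252 r8_19 (nat_lit 0) (nat_lit 0) (nat_lit 0) (nat_lit 0x6e3f9218a0) (nat_lit 8713471104),
  Rx.mk (nat_lit 429) (nat_lit 5) (nat_lit 5) (nat_lit 6) (nat_lit 7) (nat_lit 253) (nat_lit 20) r3_253 r8_20 (nat_lit 0) (nat_lit 0) (nat_lit 0) (nat_lit 0x7c4a3100a6) (nat_lit 1821159288),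
  Rx.mk (nat_lit 437) (nat_lit 5) (nat_lit 6) (nat_lit 6) (nat_lit 7) (nat_lit 254) (nat_lit 22) r3_254 r8_22 (nat_lit 0) (nat_lit 0) (nat_lit 0) (nat_lit 0x7764b97d04) (nat_lit 4224551760)]
noncomputable def e3_38 : List Rx := [
  Rx.mk (nat_lit 181) (nat_lit 5) (nat_lit 6) (nat_lit 2) (nat_lit 7) (nat_lit 256) (nat_lit 14) r3_256 r8_14 (nat_lit 0) (nat_lit 0) (nat_lit 0) (nat_lit 0x7ad52b5276) (nat_lit 2536390584)]
noncomputable def e3_39 : List Rx := [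
  Rx.mk (nat_lit 417) (nat_lit 1) (nat_lit 4) (nat_lit 6) (nat_lit 5) (nat_lit 259) (nat_lit 66) r3_259 r1_66 (nat_lit 0) (nat_lit 0) (nat_lit 0) (nat_lit 0x8000000000) (nat_lit 0),
  Rx.mk (nat_lit 421) (nat_lit 5) (nat_lit 4) (nat_lit 6) (nat_lit 5) (nat_lit 257) (nat_lit 67) r3_257 r1_67 (nat_lit 0) (nat_lit 0) (nat_lit 0) (nat_lit 0x7cedd90582) (nat_lit 1507365288),
  Rx.mk (nat_lit 437) (nat_lit 5) (nat_lit 6) (nat_lit 6) (nat_lit 7) (nat_lit 258) (nat_lit 68) r3_258 r1_68 (nat_lit 0) (nat_lit 0) (nat_lit 0) (nat_lit 0x7c2bd226b2) (nat_lit 1879391592)]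
noncomputable def e3_40 : List Rx := [
  Rx.mk (nat_lit 289) (nat_lit 1) (nat_lit 4) (nat_lit 4) (nat_lit 1) (nat_lit 263) (nat_lit 334) r3_263 r7_334 (nat_lit 0) (nat_lit 0) (nat_lit 0) (nat_lit 0x6b3e98cb36) (nat_lit 10187898552),
  Rx.mk (nat_lit 297) (nat_lit 1) (nat_lit 5) (nat_lit 4) (nat_lit 3) (nat_lit 265) (nat_lit 335) r3_265 r7_335 (nat_lit 0) (nat_lit 0) (nat_lit 0) (nat_lit 0x732efe9ce8) (nat_lit 6290987040),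
  Rx.mk (nat_lit 417) (nat_lit 1) (nat_lit 4) (nat_lit 6) (nat_lit 5) (nat_lit 264) (nat_lit 336) r3_264 r7_336 (nat_lit 0) (nat_lit 0) (nat_lit 0) (nat_lit 0x73f40d8b34) (nat_lit 5913148176),
  Rx.mk (nat_lit 421) (nat_lit 5) (nat_lit 4) (nat_lit 6) (nat_lit 5) (nat_lit 260) (nat_lit 331) r3_260 r7_331 (nat_lit 0) (nat_lit 0) (nat_lit 0) (nat_lit 0x6e724f8c96) (nat_lit 8616182328),
  Rx.mk (nat_lit 425) (nat_lit 1) (nat_lit 5) (nat_lit 6) (nat_lit 7) (nat_lit 266) (nat_lit 337) r3_266 r7_337 (nat_lit 0) (nat_lit 0) (nat_lit 0) (nat_lit 0x7c2ead98f8) (nat_lit 1873913184),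
  Rx.mk (nat_lit 429) (nat_lit 5) (nat_lit 5) (nat_lit 6) (nat_lit 7) (nat_lit 261) (nat_lit 332) r3_261 r7_332 (nat_lit 0) (nat_lit 0) (nat_lit 0) (nat_lit 0x7bddb1e904) (nat_lit 2029189968),
  Rx.mk (nat_lit 437) (nat_lit 5) (nat_lit 6) (nat_lit 6) (nat_lit 7) (nat_lit 262) (nat_lit 333) r3_262 r7_333 (nat_lit 0) (nat_lit 0) (nat_lit 0) (nat_lit 0x7cba1941b2) (nat_lit 1606588776)]
noncomputable def e3_41 : List Rx := [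
  Rx.mk (nat_lit 296) (nat_lit 0) (nat_lit 5) (nat_lit 4) (nat_lit 2) (nat_lit 267) (nat_lit 323) r3_267 r1_323 (nat_lit 0) (nat_lit 0) (nat_lit 0) (nat_lit 0x8000000000) (nat_lit 0),
  Rx.mk (nat_lit 297) (nat_lit 1) (nat_lit 5) (nat_lit 4) (nat_lit 3) (nat_lit 269) (nat_lit 294) r3_269 r1_294 (nat_lit 0) (nat_lit 0) (nat_lit 0) (nat_lit 0x7f3dabe604) (nat_lit 372604752),
  Rx.mk (nat_lit 424) (nat_lit 0) (nat_lit 5) (nat_lit 6) (nat_lit 6) (nat_lit 268) (nat_lit 293) r3_268 r1_293 (nat_lit 0) (nat_lit 0) (nat_lit 0) (nat_lit 0x7f34c65466) (nat_lit 389663352),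
  Rx.mk (nat_lit 425) (nat_lit 1) (nat_lit 5) (nat_lit 6) (nat_lit 7) (nat_lit 270) (nat_lit 295) r3_270 r1_295 (nat_lit 0) (nat_lit 0) (nat_lit 0) (nat_lit 0x7f46a79640) (nat_lit 355380480)]
noncomputable def e3_42 : List Rx := [
  Rx.mk (nat_lit 264) (nat_lit 0) (nat_lit 1) (nat_lit 4) (nat_lit 2) (nat_lit 274) (nat_lit 323) r3_274 r2_323 (nat_lit 0) (nat_lit 0) (nat_lit 0) (nat_lit 0x703cef60ce) (nat_lit 7736817816),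
  Rx.mk (nat_lit 265) (nat_lit 1) (nat_lit 1) (nat_lit 4) (nat_lit 3) (nat_lit 279) (nat_lit 328) r3_279 r2_328 (nat_lit 0) (nat_lit 0) (nat_lit 0) (nat_lit 0x6f33ce53e8) (nat_lit 8245175328),
  Rx.mk (nat_lit 266) (nat_lit 2) (nat_lit 1) (nat_lit 4) (nat_lit 3) (nat_lit 281) (nat_lit 332) r3_281 r2_332 (nat_lit 0) (nat_lit 0) (nat_lit 0) (nat_lit 0x7741baad14) (nat_lit 4291651728),
  Rx.mk (nat_lit 296) (nat_lit 0) (nat_lit 5) (nat_lit 4) (nat_lit 2) (nat_lit 271) (nat_lit 322) r3_271 r2_322 (nat_lit 0) (nat_lit 0) (nat_lit 0) (nat_lit 0x703cef60ce) (nat_lit 7736817816),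
  Rx.mk (nat_lit 297) (nat_lit 1) (nat_lit 5) (nat_lit 4) (nat_lit 3) (nat_lit 276) (nat_lit 327) r3_276 r2_327 (nat_lit 0) (nat_lit 0) (nat_lit 0) (nat_lit 0x756abadee8) (nat_lit 5194743840),
  Rx.mk (nat_lit 328) (nat_lit 0) (nat_lit 1) (nat_lit 5) (nat_lit 6) (nat_lit 275) (nat_lit 325) r3_275 r2_325 (nat_lit 0) (nat_lit 0) (nat_lit 0) (nat_lit 0x756abadee8) (nat_lit 5194743840),
  Rx.mk (nat_lit 329) (nat_lit 1) (nat_lit 1) (nat_lit 5) (nat_lit 7) (nat_lit 280) (nat_lit 330) r3_280 r2_330 (nat_lit 0) (nat_lit 0) (nat_lit 0) (nat_lit 0x7d272070d2) (nat_lit 1397538792),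
  Rx.mk (nat_lit 330) (nat_lit 2) (nat_lit 1) (nat_lit 5) (nat_lit 7) (nat_lit 282) (nat_lit 333) r3_282 r2_333 (nat_lit 0) (nat_lit 0) (nat_lit 0) (nat_lit 0x7e104edd02) (nat_lit 950437800),
  Rx.mk (nat_lit 360) (nat_lit 0) (nat_lit 5) (nat_lit 5) (nat_lit 6) (nat_lit 272) (nat_lit 324) r3_272 r2_324 (nat_lit 0) (nat_lit 0) (nat_lit 0) (nat_lit 0x6f33ce53e8) (nat_lit 8245175328),
  Rx.mk (nat_lit 361) (nat_lit 1) (nat_lit 5) (nat_lit 5) (nat_lit 7) (nat_lit 277) (nat_lit 329) r3_277 r2_329 (nat_lit 0) (nat_lit 0) (nat_lit 0) (nat_lit 0x7d272070d2) (nat_lit 1397538792),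
  Rx.mk (nat_lit 424) (nat_lit 0) (nat_lit 5) (nat_lit 6) (nat_lit 6) (nat_lit 273) (nat_lit 326) r3_273 r2_326 (nat_lit 0) (nat_lit 0) (nat_lit 0) (nat_lit 0x7741baad14) (nat_lit 4291651728),
  Rx.mk (nat_lit 425) (nat_lit 1) (nat_lit 5) (nat_lit 6) (nat_lit 7) (nat_lit 278) (nat_lit 331) r3_278 r2_331 (nat_lit 0) (nat_lit 0) (nat_lit 0) (nat_lit 0x7e104edd02) (nat_lit 950437800)]
noncomputable def e3_43 : List Rx := [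
  Rx.mk (nat_lit 297) (nat_lit 1) (nat_lit 5) (nat_lit 4) (nat_lit 3) (nat_lit 283) (nat_lit 61) r3_283 r7_61 (nat_lit 0) (nat_lit 0) (nat_lit 0) (nat_lit 0x75b85a24a6) (nat_lit 5045911416),
  Rx.mk (nat_lit 425) (nat_lit 1) (nat_lit 5) (nat_lit 6) (nat_lit 7) (nat_lit 284) (nat_lit 62) r3_284 r7_62 (nat_lit 0) (nat_lit 0) (nat_lit 0) (nat_lit 0x7f3a485c40) (nat_lit 379102464)]
noncomputable def e3_44 : List Rx := [
  Rx.mk (nat_lit 265) (nat_lit 1) (nat_lit 1) (nat_lit 4) (nat_lit 3) (nat_lit 288) (nat_lit 301) r3_288 r8_301 (nat_lit 0) (nat_lit 0) (nat_lit 0) (nat_lit 0x6ab4f44608) (nat_lit 10451814048),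
  Rx.mk (nat_lit 297) (nat_lit 1) (nat_lit 5) (nat_lit 4) (nat_lit 3) (nat_lit 285) (nat_lit 300) r3_285 r8_300 (nat_lit 0) (nat_lit 0) (nat_lit 0) (nat_lit 0x6e55c73538) (nat_lit 8670890592),
  Rx.mk (nat_lit 329) (nat_lit 1) (nat_lit 1) (nat_lit 5) (nat_lit 7) (nat_lit 289) (nat_lit 303) r3_289 r8_303 (nat_lit 0) (nat_lit 0) (nat_lit 0) (nat_lit 0x795b231474) (nat_lit 3261228048),
  Rx.mk (nat_lit 361) (nat_lit 1) (nat_lit 5) (nat_lit 5) (nat_lit 7) (nat_lit 286) (nat_lit 302) r3_286 r8_302 (nat_lit 0) (nat_lit 0) (nat_lit 0) (nat_lit 0x7a6150509a) (nat_lit 2758531464),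
  Rx.mk (nat_lit 425) (nat_lit 1) (nat_lit 5) (nat_lit 6) (nat_lit 7) (nat_lit 287) (nat_lit 304) r3_287 r8_304 (nat_lit 0) (nat_lit 0) (nat_lit 0) (nat_lit 0x7191b1135e) (nat_lit 7083452376)]
noncomputable def e3_45 : List Rx := [
  Rx.mk (nat_lit 328) (nat_lit 0) (nat_lit 1) (nat_lit 5) (nat_lit 6) (nat_lit 291) (nat_lit 300) r3_291 r8_300 (nat_lit 0) (nat_lit 0) (nat_lit 0) (nat_lit 0x6e55c73538) (nat_lit 8670890592),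
  Rx.mk (nat_lit 329) (nat_lit 1) (nat_lit 1) (nat_lit 5) (nat_lit 7) (nat_lit 293) (nat_lit 302) r3_293 r8_302 (nat_lit 0) (nat_lit 0) (nat_lit 0) (nat_lit 0x7a6150509a) (nat_lit 2758531464),
  Rx.mk (nat_lit 330) (nat_lit 2) (nat_lit 1) (nat_lit 5) (nat_lit 7) (nat_lit 294) (nat_lit 304) r3_294 r8_304 (nat_lit 0) (nat_lit 0) (nat_lit 0) (nat_lit 0x7191b1135e) (nat_lit 7083452376),
  Rx.mk (nat_lit 360) (nat_lit 0) (nat_lit 5) (nat_lit 5) (nat_lit 6) (nat_lit 290) (nat_lit 301) r3_290 r8_301 (nat_lit 0) (nat_lit 0) (nat_lit 0) (nat_lit 0x6ab4f44608) (nat_lit 10451814048),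
  Rx.mk (nat_lit 361) (nat_lit 1) (nat_lit 5) (nat_lit 5) (nat_lit 7) (nat_lit 292) (nat_lit 303) r3_292 r8_303 (nat_lit 0) (nat_lit 0) (nat_lit 0) (nat_lit 0x795b231474) (nat_lit 3261228048)]
noncomputable def e3_46 : List Rx := [
  Rx.mk (nat_lit 288) (nat_lit 0) (nat_lit 4) (nat_lit 4) (nat_lit 0) (nat_lit 299) (nat_lit 315) r3_299 r4_315 (nat_lit 0) (nat_lit 0) (nat_lit 0) (nat_lit 0x72d96d1656) (nat_lit 6455055672),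
  Rx.mk (nat_lit 289) (nat_lit 1) (nat_lit 4) (nat_lit 4) (nat_lit 1) (nat_lit 305) (nat_lit 321) r3_305 r4_321 (nat_lit 0) (nat_lit 0) (nat_lit 0) (nat_lit 0x7824867f74) (nat_lit 3856793616),
  Rx.mk (nat_lit 296) (nat_lit 0) (nat_lit 5) (nat_lit 4) (nat_lit 2) (nat_lit 301) (nat_lit 316) r3_301 r4_316 (nat_lit 0) (nat_lit 0) (nat_lit 0) (nat_lit 0x790eef77fa) (nat_lit 3407336712),
  Rx.mk (nat_lit 297) (nat_lit 1) (nat_lit 5) (nat_lit 4) (nat_lit 3) (nat_lit 307) (nat_lit 322) r3_307 r4_322 (nat_lit 0) (nat_lit 0) (nat_lit 0) (nat_lit 0x7cbf2d1070) (nat_lit 1596853440),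
  Rx.mk (nat_lit 312) (nat_lit 0) (nat_lit 7) (nat_lit 4) (nat_lit 2) (nat_lit 303) (nat_lit 317) r3_303 r4_317 (nat_lit 0) (nat_lit 0) (nat_lit 0) (nat_lit 0x79c6919d20) (nat_lit 3055238784),
  Rx.mk (nat_lit 313) (nat_lit 1) (nat_lit 7) (nat_lit 4) (nat_lit 3) (nat_lit 309) (nat_lit 323) r3_309 r4_323 (nat_lit 0) (nat_lit 0) (nat_lit 0) (nat_lit 0x7cb07e3b6c) (nat_lit 1625006448),
  Rx.mk (nat_lit 416) (nat_lit 0) (nat_lit 4) (nat_lit 6) (nat_lit 4) (nat_lit 300) (nat_lit 318) r3_300 r4_318 (nat_lit 0) (nat_lit 0) (nat_lit 0) (nat_lit 0x7a41dba804) (nat_lit 2818844496),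
  Rx.mk (nat_lit 417) (nat_lit 1) (nat_lit 4) (nat_lit 6) (nat_lit 5) (nat_lit 306) (nat_lit 324) r3_306 r4_324 (nat_lit 0) (nat_lit 0) (nat_lit 0) (nat_lit 0x7e5e87d924) (nat_lit 800454096),
  Rx.mk (nat_lit 424) (nat_lit 0) (nat_lit 5) (nat_lit 6) (nat_lit 6) (nat_lit 302) (nat_lit 319) r3_302 r4_319 (nat_lit 0) (nat_lit 0) (nat_lit 0) (nat_lit 0x7e0ef89268) (nat_lit 953001504),
  Rx.mk (nat_lit 425) (nat_lit 1) (nat_lit 5) (nat_lit 6) (nat_lit 7) (nat_lit 308) (nat_lit 325) r3_308 r4_325 (nat_lit 0) (nat_lit 0) (nat_lit 0) (nat_lit 0x7eb281d930) (nat_lit 639437760),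
  Rx.mk (nat_lit 440) (nat_lit 0) (nat_lit 7) (nat_lit 6) (nat_lit 6) (nat_lit 304) (nat_lit 320) r3_304 r4_320 (nat_lit 0) (nat_lit 0) (nat_lit 0) (nat_lit 0x7c8fa6290e) (nat_lit 1687981464),
  Rx.mk (nat_lit 441) (nat_lit 1) (nat_lit 7) (nat_lit 6) (nat_lit 7) (nat_lit 310) (nat_lit 326) r3_310 r4_326 (nat_lit 0) (nat_lit 0) (nat_lit 0) (nat_lit 0x7ea6169ff0) (nat_lit 663249600)]
noncomputable def e3_47 : List Rx := [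
  Rx.mk (nat_lit 313) (nat_lit 1) (nat_lit 7) (nat_lit 4) (nat_lit 3) (nat_lit 315) (nat_lit 66) r3_315 r4_66 (nat_lit 0) (nat_lit 0) (nat_lit 0) (nat_lit 0x7f9a3d1c94) (nat_lit 195116688),
  Rx.mk (nat_lit 417) (nat_lit 1) (nat_lit 4) (nat_lit 6) (nat_lit 5) (nat_lit 314) (nat_lit 65) r3_314 r4_65 (nat_lit 0) (nat_lit 0) (nat_lit 0) (nat_lit 0x7ffc241dc2) (nat_lit 7399080),
  Rx.mk (nat_lit 441) (nat_lit 1) (nat_lit 7) (nat_lit 6) (nat_lit 7) (nat_lit 316) (nat_lit 67) r3_316 r4_67 (nat_lit 0) (nat_lit 0) (nat_lit 0) (nat_lit 0x7fe190a714) (nat_lit 58355856)]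
noncomputable def e3_48 : List Rx := [
  Rx.mk (nat_lit 289) (nat_lit 1) (nat_lit 4) (nat_lit 4) (nat_lit 1) (nat_lit 317) (nat_lit 333) r3_317 r9_333 (nat_lit 0) (nat_lit 0) (nat_lit 0) (nat_lit 0x7143ff0ecc) (nat_lit 7232425200),
  Rx.mk (nat_lit 297) (nat_lit 1) (nat_lit 5) (nat_lit 4) (nat_lit 3) (nat_lit 319) (nat_lit 334) r3_319 r9_334 (nat_lit 0) (nat_lit 0) (nat_lit 0) (nat_lit 0x7b2d0a942a) (nat_lit 2367904968),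
  Rx.mk (nat_lit 313) (nat_lit 1) (nat_lit 7) (nat_lit 4) (nat_lit 3) (nat_lit 321) (nat_lit 335) r3_321 r9_335 (nat_lit 0) (nat_lit 0) (nat_lit 0) (nat_lit 0x7b7cf61522) (nat_lit 2214666792),
  Rx.mk (nat_lit 417) (nat_lit 1) (nat_lit 4) (nat_lit 6) (nat_lit 5) (nat_lit 318) (nat_lit 336) r3_318 r9_336 (nat_lit 0) (nat_lit 0) (nat_lit 0) (nat_lit 0x7f9d302d60) (nat_lit 189461376),
  Rx.mk (nat_lit 425) (nat_lit 1) (nat_lit 5) (nat_lit 6) (nat_lit 7) (nat_lit 320) (nat_lit 337) r3_320 r9_337 (nat_lit 0) (nat_lit 0) (nat_lit 0) (nat_lit 0x7f23fc011c) (nat_lit 421857072),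
  Rx.mk (nat_lit 441) (nat_lit 1) (nat_lit 7) (nat_lit 6) (nat_lit 7) (nat_lit 322) (nat_lit 338) r3_322 r9_338 (nat_lit 0) (nat_lit 0) (nat_lit 0) (nat_lit 0x7eeb84a8ca) (nat_lit 530125128)]
noncomputable def e3_49 : List Rx := [
  Rx.mk (nat_lit 313) (nat_lit 1) (nat_lit 7) (nat_lit 4) (nat_lit 3) (nat_lit 323) (nat_lit 351) r3_323 r10_351 (nat_lit 0) (nat_lit 0) (nat_lit 0) (nat_lit 0x7ae9e266f0) (nat_lit 2496671424),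
  Rx.mk (nat_lit 441) (nat_lit 1) (nat_lit 7) (nat_lit 6) (nat_lit 7) (nat_lit 324) (nat_lit 352) r3_324 r10_352 (nat_lit 0) (nat_lit 0) (nat_lit 0) (nat_lit 0x7fe8167eb0) (nat_lit 45849024)]
noncomputable def e3_50 : List Rx := [
  Rx.mk (nat_lit 288) (nat_lit 0) (nat_lit 4) (nat_lit 4) (nat_lit 0) (nat_lit 333) (nat_lit 19) r3_333 r10_19 (nat_lit 0) (nat_lit 0) (nat_lit 0) (nat_lit 0x611f400ae2) (nat_lit 15156536616),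
  Rx.mk (nat_lit 289) (nat_lit 1) (nat_lit 4) (nat_lit 4) (nat_lit 1) (nat_lit 340) (nat_lit 20) r3_340 r10_20 (nat_lit 0) (nat_lit 0) (nat_lit 0) (nat_lit 0x6c7064ad46) (nat_lit 9601565688),
  Rx.mk (nat_lit 291) (nat_lit 3) (nat_lit 4) (nat_lit 4) (nat_lit 1) (nat_lit 347) (nat_lit 21) r3_347 r10_21 (nat_lit 0) (nat_lit 0) (nat_lit 0) (nat_lit 0x6df68609aa) (nat_lit 8853531336),
  Rx.mk (nat_lit 296) (nat_lit 0) (nat_lit 5) (nat_lit 4) (nat_lit 2) (nat_lit 335) (nat_lit 25) r3_335 r10_25 (nat_lit 0) (nat_lit 0) (nat_lit 0) (nat_lit 0x6c0e76ec84) (nat_lit 9789333840),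
  Rx.mk (nat_lit 297) (nat_lit 1) (nat_lit 5) (nat_lit 4) (nat_lit 3) (nat_lit 342) (nat_lit 26) r3_342 r10_26 (nat_lit 0) (nat_lit 0) (nat_lit 0) (nat_lit 0x7c9d740c22) (nat_lit 1661513256),
  Rx.mk (nat_lit 299) (nat_lit 3) (nat_lit 5) (nat_lit 4) (nat_lit 3) (nat_lit 349) (nat_lit 27) r3_349 r10_27 (nat_lit 0) (nat_lit 0) (nat_lit 0) (nat_lit 0x7aec04a4ca) (nat_lit 2492580168),
  Rx.mk (nat_lit 312) (nat_lit 0) (nat_lit 7) (nat_lit 4) (nat_lit 2) (nat_lit 337) (nat_lit 31) r3_337 r10_31 (nat_lit 0) (nat_lit 0) (nat_lit 0) (nat_lit 0x6e8b4ffc76) (nat_lit 8568244152),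
  Rx.mk (nat_lit 313) (nat_lit 1) (nat_lit 7) (nat_lit 4) (nat_lit 3) (nat_lit 344) (nat_lit 32) r3_344 r10_32 (nat_lit 0) (nat_lit 0) (nat_lit 0) (nat_lit 0x7822d6fa6e) (nat_lit 3860025624),
  Rx.mk (nat_lit 416) (nat_lit 0) (nat_lit 4) (nat_lit 6) (nat_lit 4) (nat_lit 334) (nat_lit 22) r3_334 r10_22 (nat_lit 0) (nat_lit 0) (nat_lit 0) (nat_lit 0x7199b2b33c) (nat_lit 7068101040),
  Rx.mk (nat_lit 417) (nat_lit 1) (nat_lit 4) (nat_lit 6) (nat_lit 5) (nat_lit 341) (nat_lit 23) r3_341 r10_23 (nat_lit 0) (nat_lit 0) (nat_lit 0) (nat_lit 0x7bee1be254) (nat_lit 1997717904),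
  Rx.mk (nat_lit 419) (nat_lit 3) (nat_lit 4) (nat_lit 6) (nat_lit 5) (nat_lit 348) (nat_lit 24) r3_348 r10_24 (nat_lit 0) (nat_lit 0) (nat_lit 0) (nat_lit 0x7846764056) (nat_lit 3791723832),
  Rx.mk (nat_lit 424) (nat_lit 0) (nat_lit 5) (nat_lit 6) (nat_lit 6) (nat_lit 336) (nat_lit 28) r3_336 r10_28 (nat_lit 0) (nat_lit 0) (nat_lit 0) (nat_lit 0x7db4419e32) (nat_lit 1126937448),
  Rx.mk (nat_lit 425) (nat_lit 1) (nat_lit 5) (nat_lit 6) (nat_lit 7) (nat_lit 343) (nat_lit 29) r3_343 r10_29 (nat_lit 0) (nat_lit 0) (nat_lit 0) (nat_lit 0x7e26fad22c) (nat_lit 906967152),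
  Rx.mk (nat_lit 427) (nat_lit 3) (nat_lit 5) (nat_lit 6) (nat_lit 7) (nat_lit 350) (nat_lit 30) r3_350 r10_30 (nat_lit 0) (nat_lit 0) (nat_lit 0) (nat_lit 0x7e1c68bb58) (nat_lit 927235296),
  Rx.mk (nat_lit 440) (nat_lit 0) (nat_lit 7) (nat_lit 6) (nat_lit 6) (nat_lit 338) (nat_lit 35) r3_338 r10_35 (nat_lit 0) (nat_lit 0) (nat_lit 0) (nat_lit 0x7ba330b152) (nat_lit 2141366760),
  Rx.mk (nat_lit 441) (nat_lit 1) (nat_lit 7) (nat_lit 6) (nat_lit 7) (nat_lit 345) (nat_lit 36) r3_345 r10_36 (nat_lit 0) (nat_lit 0) (nat_lit 0) (nat_lit 0x7e079ac84c) (nat_lit 967125744),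
  Rx.mk (nat_lit 504) (nat_lit 0) (nat_lit 7) (nat_lit 7) (nat_lit 6) (nat_lit 339) (nat_lit 33) r3_339 r10_33 (nat_lit 0) (nat_lit 0) (nat_lit 0) (nat_lit 0x7e061120e8) (nat_lit 970074144),
  Rx.mk (nat_lit 505) (nat_lit 1) (nat_lit 7) (nat_lit 7) (nat_lit 7) (nat_lit 346) (nat_lit 34) r3_346 r10_34 (nat_lit 0) (nat_lit 0) (nat_lit 0) (nat_lit 0x7dec2adf66) (nat_lit 1019733624)]
noncomputable def e3_51 : List Rx := [
  Rx.mk (nat_lit 194) (nat_lit 2) (nat_lit 0) (nat_lit 3) (nat_lit 5) (nat_lit 352) (nat_lit 21) r3_352 r12_21 (nat_lit 0) (nat_lit 0) (nat_lit 0) (nat_lit 0x8000000000) (nat_lit 0),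
  Rx.mk (nat_lit 210) (nat_lit 2) (nat_lit 2) (nat_lit 3) (nat_lit 7) (nat_lit 53) (nat_lit 24) r3_53 r12_24 (nat_lit 0) (nat_lit 0) (nat_lit 0) (nat_lit 0x791d0196ca) (nat_lit 3380357448),
  Rx.mk (nat_lit 214) (nat_lit 6) (nat_lit 2) (nat_lit 3) (nat_lit 7) (nat_lit 49) (nat_lit 26) r3_49 r12_26 (nat_lit 0) (nat_lit 0) (nat_lit 0) (nat_lit 0x7e98a7f6e8) (nat_lit 689004576),
  Rx.mk (nat_lit 283) (nat_lit 3) (nat_lit 3) (nat_lit 4) (nat_lit 3) (nat_lit 57) (nat_lit 17) r3_57 r12_17 (nat_lit 0) (nat_lit 0) (nat_lit 0) (nat_lit 0x7fececd146) (nat_lit 36574200),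
  Rx.mk (nat_lit 315) (nat_lit 3) (nat_lit 7) (nat_lit 4) (nat_lit 3) (nat_lit 55) (nat_lit 19) r3_55 r12_19 (nat_lit 0) (nat_lit 0) (nat_lit 0) (nat_lit 0x7b0082bcd4) (nat_lit 2453287824),
  Rx.mk (nat_lit 443) (nat_lit 3) (nat_lit 7) (nat_lit 6) (nat_lit 7) (nat_lit 56) (nat_lit 20) r3_56 r12_20 (nat_lit 0) (nat_lit 0) (nat_lit 0) (nat_lit 0x7f69370d26) (nat_lit 289114488),
  Rx.mk (nat_lit 447) (nat_lit 7) (nat_lit 7) (nat_lit 6) (nat_lit 7) (nat_lit 50) (nat_lit 25) r3_50 r12_25 (nat_lit 0) (nat_lit 0) (nat_lit 0) (nat_lit 0x7986b4fb2a) (nat_lit 3177687240),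
  Rx.mk (nat_lit 450) (nat_lit 2) (nat_lit 0) (nat_lit 7) (nat_lit 5) (nat_lit 52) (nat_lit 22) r3_52 r12_22 (nat_lit 0) (nat_lit 0) (nat_lit 0) (nat_lit 0x7735c94c36) (nat_lit 4314550968),
  Rx.mk (nat_lit 472) (nat_lit 0) (nat_lit 3) (nat_lit 7) (nat_lit 6) (nat_lit 51) (nat_lit 16) r3_51 r12_16 (nat_lit 0) (nat_lit 0) (nat_lit 0) (nat_lit 0x8000000000) (nat_lit 0),
  Rx.mk (nat_lit 474) (nat_lit 2) (nat_lit 3) (nat_lit 7) (nat_lit 7) (nat_lit 54) (nat_lit 23) r3_54 r12_23 (nat_lit 0) (nat_lit 0) (nat_lit 0) (nat_lit 0x7fbcc993aa) (nat_lit 128873160),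
  Rx.mk (nat_lit 475) (nat_lit 3) (nat_lit 3) (nat_lit 7) (nat_lit 7) (nat_lit 58) (nat_lit 18) r3_58 r12_18 (nat_lit 0) (nat_lit 0) (nat_lit 0) (nat_lit 0x7d72006288) (nat_lit 1253974176)]
noncomputable def e3_52 : List Rx := [
  Rx.mk (nat_lit 258) (nat_lit 2) (nat_lit 0) (nat_lit 4) (nat_lit 1) (nat_lit 353) (nat_lit 52) r3_353 r12_52 (nat_lit 0) (nat_lit 0) (nat_lit 0) (nat_lit 0x8000000000) (nat_lit 0),
  Rx.mk (nat_lit 280) (nat_lit 0) (nat_lit 3) (nat_lit 4) (nat_lit 2) (nat_lit 80) (nat_lit 55) r3_80 r12_55 (nat_lit 0) (nat_lit 0) (nat_lit 0) (nat_lit 0x8000000000) (nat_lit 0),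
  Rx.mk (nat_lit 282) (nat_lit 2) (nat_lit 3) (nat_lit 4) (nat_lit 3) (nat_lit 84) (nat_lit 59) r3_84 r12_59 (nat_lit 0) (nat_lit 0) (nat_lit 0) (nat_lit 0x7fe86cb94c) (nat_lit 45203184),
  Rx.mk (nat_lit 283) (nat_lit 3) (nat_lit 3) (nat_lit 4) (nat_lit 3) (nat_lit 86) (nat_lit 57) r3_86 r12_57 (nat_lit 0) (nat_lit 0) (nat_lit 0) (nat_lit 0x7d4a01a29c) (nat_lit 1330660656),
  Rx.mk (nat_lit 322) (nat_lit 2) (nat_lit 0) (nat_lit 5) (nat_lit 5) (nat_lit 82) (nat_lit 53) r3_82 r12_53 (nat_lit 0) (nat_lit 0) (nat_lit 0) (nat_lit 0x7eb04a3cac) (nat_lit 643689072),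
  Rx.mk (nat_lit 344) (nat_lit 0) (nat_lit 3) (nat_lit 5) (nat_lit 6) (nat_lit 81) (nat_lit 56) r3_81 r12_56 (nat_lit 0) (nat_lit 0) (nat_lit 0) (nat_lit 0x78dfe268fa) (nat_lit 3497552136),
  Rx.mk (nat_lit 346) (nat_lit 2) (nat_lit 3) (nat_lit 5) (nat_lit 7) (nat_lit 85) (nat_lit 60) r3_85 r12_60 (nat_lit 0) (nat_lit 0) (nat_lit 0) (nat_lit 0x7f5a643a62) (nat_lit 317537064),
  Rx.mk (nat_lit 347) (nat_lit 3) (nat_lit 3) (nat_lit 5) (nat_lit 7) (nat_lit 87) (nat_lit 58) r3_87 r12_58 (nat_lit 0) (nat_lit 0) (nat_lit 0) (nat_lit 0x7b9901944e) (nat_lit 2160893592),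
  Rx.mk (nat_lit 450) (nat_lit 2) (nat_lit 0) (nat_lit 7) (nat_lit 5) (nat_lit 83) (nat_lit 54) r3_83 r12_54 (nat_lit 0) (nat_lit 0) (nat_lit 0) (nat_lit 0x7fc30d0f6c) (nat_lit 116863344)]
noncomputable def e3_53 : List Rx := [
  Rx.mk (nat_lit 183) (nat_lit 7) (nat_lit 6) (nat_lit 2) (nat_lit 7) (nat_lit 202) (nat_lit 26) r3_202 r12_26 (nat_lit 0) (nat_lit 0) (nat_lit 0) (nat_lit 0x7e98a7f6e8) (nat_lit 689004576),
  Rx.mk (nat_lit 218) (nat_lit 2) (nat_lit 3) (nat_lit 3) (nat_lit 7) (nat_lit 206) (nat_lit 25) r3_206 r12_25 (nat_lit 0) (nat_lit 0) (nat_lit 0) (nat_lit 0x7986b4fb2a) (nat_lit 3177687240),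
  Rx.mk (nat_lit 315) (nat_lit 3) (nat_lit 7) (nat_lit 4) (nat_lit 3) (nat_lit 208) (nat_lit 16) r3_208 r12_16 (nat_lit 0) (nat_lit 0) (nat_lit 0) (nat_lit 0x8000000000) (nat_lit 0),
  Rx.mk (nat_lit 419) (nat_lit 3) (nat_lit 4) (nat_lit 6) (nat_lit 5) (nat_lit 207) (nat_lit 22) r3_207 r12_22 (nat_lit 0) (nat_lit 0) (nat_lit 0) (nat_lit 0x7735c94c36) (nat_lit 4314550968),
  Rx.mk (nat_lit 423) (nat_lit 7) (nat_lit 4) (nat_lit 6) (nat_lit 5) (nat_lit 354) (nat_lit 21) r3_354 r12_21 (nat_lit 0) (nat_lit 0) (nat_lit 0) (nat_lit 0x8000000000) (nat_lit 0),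
  Rx.mk (nat_lit 439) (nat_lit 7) (nat_lit 6) (nat_lit 6) (nat_lit 7) (nat_lit 201) (nat_lit 24) r3_201 r12_24 (nat_lit 0) (nat_lit 0) (nat_lit 0) (nat_lit 0x791d0196ca) (nat_lit 3380357448),
  Rx.mk (nat_lit 443) (nat_lit 3) (nat_lit 7) (nat_lit 6) (nat_lit 7) (nat_lit 209) (nat_lit 23) r3_209 r12_23 (nat_lit 0) (nat_lit 0) (nat_lit 0) (nat_lit 0x7fbcc993aa) (nat_lit 128873160),
  Rx.mk (nat_lit 472) (nat_lit 0) (nat_lit 3) (nat_lit 7) (nat_lit 6) (nat_lit 204) (nat_lit 19) r3_204 r12_19 (nat_lit 0) (nat_lit 0) (nat_lit 0) (nat_lit 0x7b0082bcd4) (nat_lit 2453287824),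
  Rx.mk (nat_lit 474) (nat_lit 2) (nat_lit 3) (nat_lit 7) (nat_lit 7) (nat_lit 205) (nat_lit 20) r3_205 r12_20 (nat_lit 0) (nat_lit 0) (nat_lit 0) (nat_lit 0x7f69370d26) (nat_lit 289114488),
  Rx.mk (nat_lit 504) (nat_lit 0) (nat_lit 7) (nat_lit 7) (nat_lit 6) (nat_lit 203) (nat_lit 17) r3_203 r12_17 (nat_lit 0) (nat_lit 0) (nat_lit 0) (nat_lit 0x7fececd146) (nat_lit 36574200),
  Rx.mk (nat_lit 507) (nat_lit 3) (nat_lit 7) (nat_lit 7) (nat_lit 7) (nat_lit 210) (nat_lit 18) r3_210 r12_18 (nat_lit 0) (nat_lit 0) (nat_lit 0) (nat_lit 0x7d72006288) (nat_lit 1253974176)]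
noncomputable def e3_54 : List Rx := [
  Rx.mk (nat_lit 280) (nat_lit 0) (nat_lit 3) (nat_lit 4) (nat_lit 2) (nat_lit 355) (nat_lit 323) r3_355 r12_323 (nat_lit 0) (nat_lit 0) (nat_lit 0) (nat_lit 0x8000000000) (nat_lit 0),
  Rx.mk (nat_lit 282) (nat_lit 2) (nat_lit 3) (nat_lit 4) (nat_lit 3) (nat_lit 218) (nat_lit 293) r3_218 r12_293 (nat_lit 0) (nat_lit 0) (nat_lit 0) (nat_lit 0x7fb77b4894) (nat_lit 139046544),
  Rx.mk (nat_lit 344) (nat_lit 0) (nat_lit 3) (nat_lit 5) (nat_lit 6) (nat_lit 217) (nat_lit 294) r3_217 r12_294 (nat_lit 0) (nat_lit 0) (nat_lit 0) (nat_lit 0x794234437a) (nat_lit 3309034248),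
  Rx.mk (nat_lit 346) (nat_lit 2) (nat_lit 3) (nat_lit 5) (nat_lit 7) (nat_lit 219) (nat_lit 295) r3_219 r12_295 (nat_lit 0) (nat_lit 0) (nat_lit 0) (nat_lit 0x7f2d71e9b4) (nat_lit 403717392)]
noncomputable def e3_55 : List Rx := [
  Rx.mk (nat_lit 312) (nat_lit 0) (nat_lit 7) (nat_lit 4) (nat_lit 2) (nat_lit 357) (nat_lit 356) r3_357 r3_356 (nat_lit 0) (nat_lit 0) (nat_lit 0) (nat_lit 0x8000000000) (nat_lit 0),
  Rx.mk (nat_lit 313) (nat_lit 1) (nat_lit 7) (nat_lit 4) (nat_lit 3) (nat_lit 297) (nat_lit 296) r3_297 r3_296 (nat_lit 0) (nat_lit 0) (nat_lit 0) (nat_lit 0x7fff25cda4) (nat_lit 1634256),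
  Rx.mk (nat_lit 416) (nat_lit 0) (nat_lit 4) (nat_lit 6) (nat_lit 4) (nat_lit 356) (nat_lit 357) r3_356 r3_357 (nat_lit 0) (nat_lit 0) (nat_lit 0) (nat_lit 0x8000000000) (nat_lit 0),
  Rx.mk (nat_lit 417) (nat_lit 1) (nat_lit 4) (nat_lit 6) (nat_lit 5) (nat_lit 296) (nat_lit 297) r3_296 r3_297 (nat_lit 0) (nat_lit 0) (nat_lit 0) (nat_lit 0x7fff25cda4) (nat_lit 1634256),
  Rx.mk (nat_lit 440) (nat_lit 0) (nat_lit 7) (nat_lit 6) (nat_lit 6) (nat_lit 295) (nat_lit 295) r3_295 r3_295 (nat_lit 0) (nat_lit 0) (nat_lit 0) (nat_lit 0x7ff39646a8) (nat_lit 23800608),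
  Rx.mk (nat_lit 441) (nat_lit 1) (nat_lit 7) (nat_lit 6) (nat_lit 7) (nat_lit 298) (nat_lit 298) r3_298 r3_298 (nat_lit 0) (nat_lit 0) (nat_lit 0) (nat_lit 0x7fa7df8260) (nat_lit 168974208)]
noncomputable def e3_56 : List Rx := [
  Rx.mk (nat_lit 312) (nat_lit 0) (nat_lit 7) (nat_lit 4) (nat_lit 2) (nat_lit 358) (nat_lit 323) r3_358 r12_323 (nat_lit 0) (nat_lit 0) (nat_lit 0) (nat_lit 0x8000000000) (nat_lit 0),
  Rx.mk (nat_lit 313) (nat_lit 1) (nat_lit 7) (nat_lit 4) (nat_lit 3) (nat_lit 312) (nat_lit 294) r3_312 r12_294 (nat_lit 0) (nat_lit 0) (nat_lit 0) (nat_lit 0x794234437a) (nat_lit 3309034248),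
  Rx.mk (nat_lit 440) (nat_lit 0) (nat_lit 7) (nat_lit 6) (nat_lit 6) (nat_lit 311) (nat_lit 293) r3_311 r12_293 (nat_lit 0) (nat_lit 0) (nat_lit 0) (nat_lit 0x7fb77b4894) (nat_lit 139046544),
  Rx.mk (nat_lit 441) (nat_lit 1) (nat_lit 7) (nat_lit 6) (nat_lit 7) (nat_lit 313) (nat_lit 295) r3_313 r12_295 (nat_lit 0) (nat_lit 0) (nat_lit 0) (nat_lit 0x7f2d71e9b4) (nat_lit 403717392)]
noncomputable def e3_57 : List Rx := [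
  Rx.mk (nat_lit 312) (nat_lit 0) (nat_lit 7) (nat_lit 4) (nat_lit 2) (nat_lit 325) (nat_lit 55) r3_325 r12_55 (nat_lit 0) (nat_lit 0) (nat_lit 0) (nat_lit 0x8000000000) (nat_lit 0),
  Rx.mk (nat_lit 313) (nat_lit 1) (nat_lit 7) (nat_lit 4) (nat_lit 3) (nat_lit 329) (nat_lit 56) r3_329 r12_56 (nat_lit 0) (nat_lit 0) (nat_lit 0) (nat_lit 0x78dfe268fa) (nat_lit 3497552136),
  Rx.mk (nat_lit 416) (nat_lit 0) (nat_lit 4) (nat_lit 6) (nat_lit 4) (nat_lit 359) (nat_lit 52) r3_359 r12_52 (nat_lit 0) (nat_lit 0) (nat_lit 0) (nat_lit 0x8000000000) (nat_lit 0),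
  Rx.mk (nat_lit 417) (nat_lit 1) (nat_lit 4) (nat_lit 6) (nat_lit 5) (nat_lit 328) (nat_lit 53) r3_328 r12_53 (nat_lit 0) (nat_lit 0) (nat_lit 0) (nat_lit 0x7eb04a3cac) (nat_lit 643689072),
  Rx.mk (nat_lit 419) (nat_lit 3) (nat_lit 4) (nat_lit 6) (nat_lit 5) (nat_lit 332) (nat_lit 54) r3_332 r12_54 (nat_lit 0) (nat_lit 0) (nat_lit 0) (nat_lit 0x7fc30d0f6c) (nat_lit 116863344),
  Rx.mk (nat_lit 440) (nat_lit 0) (nat_lit 7) (nat_lit 6) (nat_lit 6) (nat_lit 326) (nat_lit 59) r3_326 r12_59 (nat_lit 0) (nat_lit 0) (nat_lit 0) (nat_lit 0x7fe86cb94c) (nat_lit 45203184),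
  Rx.mk (nat_lit 441) (nat_lit 1) (nat_lit 7) (nat_lit 6) (nat_lit 7) (nat_lit 330) (nat_lit 60) r3_330 r12_60 (nat_lit 0) (nat_lit 0) (nat_lit 0) (nat_lit 0x7f5a643a62) (nat_lit 317537064),
  Rx.mk (nat_lit 504) (nat_lit 0) (nat_lit 7) (nat_lit 7) (nat_lit 6) (nat_lit 327) (nat_lit 57) r3_327 r12_57 (nat_lit 0) (nat_lit 0) (nat_lit 0) (nat_lit 0x7d4a01a29c) (nat_lit 1330660656),
  Rx.mk (nat_lit 505) (nat_lit 1) (nat_lit 7) (nat_lit 7) (nat_lit 7) (nat_lit 331) (nat_lit 58) r3_331 r12_58 (nat_lit 0) (nat_lit 0) (nat_lit 0) (nat_lit 0x7b9901944e) (nat_lit 2160893592)]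
noncomputable def e3 : List (List Rx) := [e3_0, e3_1, e3_2, e3_3, e3_4, e3_5, e3_6, e3_7, e3_8, e3_9, e3_10, e3_11, e3_12, e3_13, e3_14, e3_15, e3_16, e3_17, e3_18, e3_19, e3_20, e3_21, e3_22, e3_23, e3_24, e3_25, e3_26, e3_27, e3_28, e3_29, e3_30, e3_31, e3_32, e3_33, e3_34, e3_35, e3_36, e3_37, e3_38, e3_39, e3_40, e3_41, e3_42, e3_43, e3_44, e3_45, e3_46, e3_47, e3_48, e3_49, e3_50, e3_51, e3_52, e3_53, e3_54, e3_55, e3_56, e3_57]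
noncomputable def e4_0 : List Rx := [
  Rx.mk (nat_lit 2) (nat_lit 2) (nat_lit 0) (nat_lit 0) (nat_lit 1) (nat_lit 8) (nat_lit 52) r4_8 r0_52 (nat_lit 0) (nat_lit 0) (nat_lit 0) (nat_lit 0x5b6197cb24) (nat_lit 17974451664),
  Rx.mk (nat_lit 18) (nat_lit 2) (nat_lit 2) (nat_lit 0) (nat_lit 3) (nat_lit 10) (nat_lit 55) r4_10 r0_55 (nat_lit 0) (nat_lit 0) (nat_lit 0) (nat_lit 0x76957cf19c) (nat_lit 4621906224),
  Rx.mk (nat_lit 22) (nat_lit 6) (nat_lit 2) (nat_lit 0) (nat_lit 3) (nat_lit 3) (nat_lit 62) r4_3 r0_62 (nat_lit 0) (nat_lit 0) (nat_lit 0) (nat_lit 0x71ae0a8daa) (nat_lit 7029095112),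
  Rx.mk (nat_lit 150) (nat_lit 6) (nat_lit 2) (nat_lit 2) (nat_lit 7) (nat_lit 4) (nat_lit 63) r4_4 r0_63 (nat_lit 0) (nat_lit 0) (nat_lit 0) (nat_lit 0x7dd8cbf568) (nat_lit 1056875040),
  Rx.mk (nat_lit 180) (nat_lit 4) (nat_lit 6) (nat_lit 2) (nat_lit 6) (nat_lit 1) (nat_lit 57) r4_1 r0_57 (nat_lit 0) (nat_lit 0) (nat_lit 0) (nat_lit 0x79050af64c) (nat_lit 3426304752),
  Rx.mk (nat_lit 182) (nat_lit 6) (nat_lit 6) (nat_lit 2) (nat_lit 7) (nat_lit 2) (nat_lit 64) r4_2 r0_64 (nat_lit 0) (nat_lit 0) (nat_lit 0) (nat_lit 0x7d87d5e51a) (nat_lit 1212109704),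
  Rx.mk (nat_lit 194) (nat_lit 2) (nat_lit 0) (nat_lit 3) (nat_lit 5) (nat_lit 9) (nat_lit 53) r4_9 r0_53 (nat_lit 0) (nat_lit 0) (nat_lit 0) (nat_lit 0x6d58b6a73e) (nat_lit 9156115800),
  Rx.mk (nat_lit 210) (nat_lit 2) (nat_lit 2) (nat_lit 3) (nat_lit 7) (nat_lit 11) (nat_lit 56) r4_11 r0_56 (nat_lit 0) (nat_lit 0) (nat_lit 0) (nat_lit 0x7dea5bdc58) (nat_lit 1023201504),
  Rx.mk (nat_lit 218) (nat_lit 2) (nat_lit 3) (nat_lit 3) (nat_lit 7) (nat_lit 12) (nat_lit 54) r4_12 r0_54 (nat_lit 0) (nat_lit 0) (nat_lit 0) (nat_lit 0x75a4e5dbfe) (nat_lit 5083212888),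
  Rx.mk (nat_lit 423) (nat_lit 7) (nat_lit 4) (nat_lit 6) (nat_lit 5) (nat_lit 5) (nat_lit 59) r4_5 r0_59 (nat_lit 0) (nat_lit 0) (nat_lit 0) (nat_lit 0x73827b04ce) (nat_lit 6130911384),
  Rx.mk (nat_lit 436) (nat_lit 4) (nat_lit 6) (nat_lit 6) (nat_lit 6) (nat_lit 0) (nat_lit 58) r4_0 r0_58 (nat_lit 0) (nat_lit 0) (nat_lit 0) (nat_lit 0x6075ec00cc) (nat_lit 15481206000),
  Rx.mk (nat_lit 439) (nat_lit 7) (nat_lit 6) (nat_lit 6) (nat_lit 7) (nat_lit 6) (nat_lit 61) r4_6 r0_61 (nat_lit 0) (nat_lit 0) (nat_lit 0) (nat_lit 0x769aeeda78) (nat_lit 4611466080),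
  Rx.mk (nat_lit 447) (nat_lit 7) (nat_lit 7) (nat_lit 6) (nat_lit 7) (nat_lit 7) (nat_lit 60) r4_7 r0_60 (nat_lit 0) (nat_lit 0) (nat_lit 0) (nat_lit 0x7dd9546ce0) (nat_lit 1055852928)]
noncomputable def e4_1 : List Rx := [
  Rx.mk (nat_lit 2) (nat_lit 2) (nat_lit 0) (nat_lit 0) (nat_lit 1) (nat_lit 16) (nat_lit 50) r4_16 r1_50 (nat_lit 0) (nat_lit 0) (nat_lit 0) (nat_lit 0x6d02538dc6) (nat_lit 9321754104),
  Rx.mk (nat_lit 18) (nat_lit 2) (nat_lit 2) (nat_lit 0) (nat_lit 3) (nat_lit 18) (nat_lit 53) r4_18 r1_53 (nat_lit 0) (nat_lit 0) (nat_lit 0) (nat_lit 0x7dd783e9ea) (nat_lit 1059332040),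
  Rx.mk (nat_lit 22) (nat_lit 6) (nat_lit 2) (nat_lit 0) (nat_lit 3) (nat_lit 14) (nat_lit 55) r4_14 r1_55 (nat_lit 0) (nat_lit 0) (nat_lit 0) (nat_lit 0x7cf02600b0) (nat_lit 1502953920),
  Rx.mk (nat_lit 150) (nat_lit 6) (nat_lit 2) (nat_lit 2) (nat_lit 7) (nat_lit 15) (nat_lit 56) r4_15 r1_56 (nat_lit 0) (nat_lit 0) (nat_lit 0) (nat_lit 0x7e11b186d6) (nat_lit 947781432),
  Rx.mk (nat_lit 182) (nat_lit 6) (nat_lit 6) (nat_lit 2) (nat_lit 7) (nat_lit 13) (nat_lit 57) r4_13 r1_57 (nat_lit 0) (nat_lit 0) (nat_lit 0) (nat_lit 0x7df4fbd24e) (nat_lit 1002829464),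
  Rx.mk (nat_lit 194) (nat_lit 2) (nat_lit 0) (nat_lit 3) (nat_lit 5) (nat_lit 17) (nat_lit 51) r4_17 r1_51 (nat_lit 0) (nat_lit 0) (nat_lit 0) (nat_lit 0x7e22f55288) (nat_lit 914677920),
  Rx.mk (nat_lit 210) (nat_lit 2) (nat_lit 2) (nat_lit 3) (nat_lit 7) (nat_lit 19) (nat_lit 54) r4_19 r1_54 (nat_lit 0) (nat_lit 0) (nat_lit 0) (nat_lit 0x7e01526cd8) (nat_lit 979172064),
  Rx.mk (nat_lit 218) (nat_lit 2) (nat_lit 3) (nat_lit 3) (nat_lit 7) (nat_lit 20) (nat_lit 52) r4_20 r1_52 (nat_lit 0) (nat_lit 0) (nat_lit 0) (nat_lit 0x7eccb0762c) (nat_lit 589236336)]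
noncomputable def e4_2 : List Rx := [
  Rx.mk (nat_lit 2) (nat_lit 2) (nat_lit 0) (nat_lit 0) (nat_lit 1) (nat_lit 24) (nat_lit 47) r4_24 r2_47 (nat_lit 0) (nat_lit 0) (nat_lit 0) (nat_lit 0x6f9c53eb26) (nat_lit 8044765560),
  Rx.mk (nat_lit 18) (nat_lit 2) (nat_lit 2) (nat_lit 0) (nat_lit 3) (nat_lit 26) (nat_lit 52) r4_26 r2_52 (nat_lit 0) (nat_lit 0) (nat_lit 0) (nat_lit 0x7e3762eb9a) (nat_lit 875509128),
  Rx.mk (nat_lit 22) (nat_lit 6) (nat_lit 2) (nat_lit 0) (nat_lit 3) (nat_lit 21) (nat_lit 54) r4_21 r2_54 (nat_lit 0) (nat_lit 0) (nat_lit 0) (nat_lit 0x7e2db3a698) (nat_lit 894078432),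
  Rx.mk (nat_lit 26) (nat_lit 2) (nat_lit 3) (nat_lit 0) (nat_lit 3) (nat_lit 28) (nat_lit 49) r4_28 r2_49 (nat_lit 0) (nat_lit 0) (nat_lit 0) (nat_lit 0x7ea641bd3e) (nat_lit 662926680),
  Rx.mk (nat_lit 66) (nat_lit 2) (nat_lit 0) (nat_lit 1) (nat_lit 5) (nat_lit 25) (nat_lit 48) r4_25 r2_48 (nat_lit 0) (nat_lit 0) (nat_lit 0) (nat_lit 0x7e46493d26) (nat_lit 846940536),
  Rx.mk (nat_lit 82) (nat_lit 2) (nat_lit 2) (nat_lit 1) (nat_lit 7) (nat_lit 27) (nat_lit 53) r4_27 r2_53 (nat_lit 0) (nat_lit 0) (nat_lit 0) (nat_lit 0x7dd9a4a7dc) (nat_lit 1055252016),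
  Rx.mk (nat_lit 86) (nat_lit 6) (nat_lit 2) (nat_lit 1) (nat_lit 7) (nat_lit 22) (nat_lit 55) r4_22 r2_55 (nat_lit 0) (nat_lit 0) (nat_lit 0) (nat_lit 0x7dee60fc02) (nat_lit 1015493544),
  Rx.mk (nat_lit 90) (nat_lit 2) (nat_lit 3) (nat_lit 1) (nat_lit 7) (nat_lit 29) (nat_lit 50) r4_29 r2_50 (nat_lit 0) (nat_lit 0) (nat_lit 0) (nat_lit 0x7e85ff4186) (nat_lit 724781304),
  Rx.mk (nat_lit 150) (nat_lit 6) (nat_lit 2) (nat_lit 2) (nat_lit 7) (nat_lit 23) (nat_lit 56) r4_23 r2_56 (nat_lit 0) (nat_lit 0) (nat_lit 0) (nat_lit 0x7de8bc7650) (nat_lit 1026312768),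
  Rx.mk (nat_lit 218) (nat_lit 2) (nat_lit 3) (nat_lit 3) (nat_lit 7) (nat_lit 30) (nat_lit 51) r4_30 r2_51 (nat_lit 0) (nat_lit 0) (nat_lit 0) (nat_lit 0x7e66fbd1dc) (nat_lit 784246320)]
noncomputable def e4_3 : List Rx := [
  Rx.mk (nat_lit 315) (nat_lit 3) (nat_lit 7) (nat_lit 4) (nat_lit 3) (nat_lit 36) (nat_lit 42) r4_36 r3_42 (nat_lit 0) (nat_lit 0) (nat_lit 0) (nat_lit 0x7db0793abc) (nat_lit 1134190512),
  Rx.mk (nat_lit 423) (nat_lit 7) (nat_lit 4) (nat_lit 6) (nat_lit 5) (nat_lit 31) (nat_lit 46) r4_31 r3_46 (nat_lit 0) (nat_lit 0) (nat_lit 0) (nat_lit 0x7ffbd9e266) (nat_lit 7955064),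
  Rx.mk (nat_lit 439) (nat_lit 7) (nat_lit 6) (nat_lit 6) (nat_lit 7) (nat_lit 32) (nat_lit 48) r4_32 r3_48 (nat_lit 0) (nat_lit 0) (nat_lit 0) (nat_lit 0x7ae6c7f89a) (nat_lit 2502621576),
  Rx.mk (nat_lit 443) (nat_lit 3) (nat_lit 7) (nat_lit 6) (nat_lit 7) (nat_lit 37) (nat_lit 44) r4_37 r3_44 (nat_lit 0) (nat_lit 0) (nat_lit 0) (nat_lit 0x7eb5bf2558) (nat_lit 633226464),
  Rx.mk (nat_lit 447) (nat_lit 7) (nat_lit 7) (nat_lit 6) (nat_lit 7) (nat_lit 33) (nat_lit 47) r4_33 r3_47 (nat_lit 0) (nat_lit 0) (nat_lit 0) (nat_lit 0x7e68443d54) (nat_lit 781786512),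
  Rx.mk (nat_lit 472) (nat_lit 0) (nat_lit 3) (nat_lit 7) (nat_lit 6) (nat_lit 34) (nat_lit 40) r4_34 r3_40 (nat_lit 0) (nat_lit 0) (nat_lit 0) (nat_lit 0x7f3136ed60) (nat_lit 396489600),
  Rx.mk (nat_lit 474) (nat_lit 2) (nat_lit 3) (nat_lit 7) (nat_lit 7) (nat_lit 35) (nat_lit 45) r4_35 r3_45 (nat_lit 0) (nat_lit 0) (nat_lit 0) (nat_lit 0x7f09322dd4) (nat_lit 473221008),
  Rx.mk (nat_lit 475) (nat_lit 3) (nat_lit 3) (nat_lit 7) (nat_lit 7) (nat_lit 39) (nat_lit 41) r4_39 r3_41 (nat_lit 0) (nat_lit 0) (nat_lit 0) (nat_lit 0x7e65b0c68e) (nat_lit 786725784),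
  Rx.mk (nat_lit 507) (nat_lit 3) (nat_lit 7) (nat_lit 7) (nat_lit 7) (nat_lit 38) (nat_lit 43) r4_38 r3_43 (nat_lit 0) (nat_lit 0) (nat_lit 0) (nat_lit 0x7e2eabd714) (nat_lit 892219536)]
noncomputable def e4_4 : List Rx := [
  Rx.mk (nat_lit 22) (nat_lit 6) (nat_lit 2) (nat_lit 0) (nat_lit 3) (nat_lit 42) (nat_lit 54) r4_42 r4_54 (nat_lit 0) (nat_lit 0) (nat_lit 0) (nat_lit 0x729835aa0e) (nat_lit 6580101528),
  Rx.mk (nat_lit 150) (nat_lit 6) (nat_lit 2) (nat_lit 2) (nat_lit 7) (nat_lit 43) (nat_lit 56) r4_43 r4_56 (nat_lit 0) (nat_lit 0) (nat_lit 0) (nat_lit 0x7d1ac316b4) (nat_lit 1421246736),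
  Rx.mk (nat_lit 180) (nat_lit 4) (nat_lit 6) (nat_lit 2) (nat_lit 6) (nat_lit 40) (nat_lit 49) r4_40 r4_49 (nat_lit 0) (nat_lit 0) (nat_lit 0) (nat_lit 0x7fbd70c936) (nat_lit 127620792),
  Rx.mk (nat_lit 182) (nat_lit 6) (nat_lit 6) (nat_lit 2) (nat_lit 7) (nat_lit 41) (nat_lit 57) r4_41 r4_57 (nat_lit 0) (nat_lit 0) (nat_lit 0) (nat_lit 0x7d5376cb40) (nat_lit 1312526592),
  Rx.mk (nat_lit 183) (nat_lit 7) (nat_lit 6) (nat_lit 2) (nat_lit 7) (nat_lit 47) (nat_lit 52) r4_47 r4_52 (nat_lit 0) (nat_lit 0) (nat_lit 0) (nat_lit 0x7de9700b16) (nat_lit 1024967736),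
  Rx.mk (nat_lit 194) (nat_lit 2) (nat_lit 0) (nat_lit 3) (nat_lit 5) (nat_lit 50) (nat_lit 45) r4_50 r4_45 (nat_lit 0) (nat_lit 0) (nat_lit 0) (nat_lit 0x7fd96aa97c) (nat_lit 73979568),
  Rx.mk (nat_lit 210) (nat_lit 2) (nat_lit 2) (nat_lit 3) (nat_lit 7) (nat_lit 51) (nat_lit 48) r4_51 r4_48 (nat_lit 0) (nat_lit 0) (nat_lit 0) (nat_lit 0x7ea89e1776) (nat_lit 658400184),
  Rx.mk (nat_lit 214) (nat_lit 6) (nat_lit 2) (nat_lit 3) (nat_lit 7) (nat_lit 44) (nat_lit 55) r4_44 r4_55 (nat_lit 0) (nat_lit 0) (nat_lit 0) (nat_lit 0x7df36e0b2c) (nat_lit 1005808752),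
  Rx.mk (nat_lit 218) (nat_lit 2) (nat_lit 3) (nat_lit 3) (nat_lit 7) (nat_lit 53) (nat_lit 46) r4_53 r4_46 (nat_lit 0) (nat_lit 0) (nat_lit 0) (nat_lit 0x79bce0783c) (nat_lit 3073822128),
  Rx.mk (nat_lit 315) (nat_lit 3) (nat_lit 7) (nat_lit 4) (nat_lit 3) (nat_lit 54) (nat_lit 42) r4_54 r4_42 (nat_lit 0) (nat_lit 0) (nat_lit 0) (nat_lit 0x729835aa0e) (nat_lit 6580101528),
  Rx.mk (nat_lit 423) (nat_lit 7) (nat_lit 4) (nat_lit 6) (nat_lit 5) (nat_lit 45) (nat_lit 50) r4_45 r4_50 (nat_lit 0) (nat_lit 0) (nat_lit 0) (nat_lit 0x7fd96aa97c) (nat_lit 73979568),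
  Rx.mk (nat_lit 439) (nat_lit 7) (nat_lit 6) (nat_lit 6) (nat_lit 7) (nat_lit 46) (nat_lit 53) r4_46 r4_53 (nat_lit 0) (nat_lit 0) (nat_lit 0) (nat_lit 0x79bce0783c) (nat_lit 3073822128),
  Rx.mk (nat_lit 443) (nat_lit 3) (nat_lit 7) (nat_lit 6) (nat_lit 7) (nat_lit 55) (nat_lit 44) r4_55 r4_44 (nat_lit 0) (nat_lit 0) (nat_lit 0) (nat_lit 0x7df36e0b2c) (nat_lit 1005808752),
  Rx.mk (nat_lit 447) (nat_lit 7) (nat_lit 7) (nat_lit 6) (nat_lit 7) (nat_lit 48) (nat_lit 51) r4_48 r4_51 (nat_lit 0) (nat_lit 0) (nat_lit 0) (nat_lit 0x7ea89e1776) (nat_lit 658400184),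
  Rx.mk (nat_lit 472) (nat_lit 0) (nat_lit 3) (nat_lit 7) (nat_lit 6) (nat_lit 49) (nat_lit 40) r4_49 r4_40 (nat_lit 0) (nat_lit 0) (nat_lit 0) (nat_lit 0x7fbd70c936) (nat_lit 127620792),
  Rx.mk (nat_lit 474) (nat_lit 2) (nat_lit 3) (nat_lit 7) (nat_lit 7) (nat_lit 52) (nat_lit 47) r4_52 r4_47 (nat_lit 0) (nat_lit 0) (nat_lit 0) (nat_lit 0x7de9700b16) (nat_lit 1024967736),
  Rx.mk (nat_lit 475) (nat_lit 3) (nat_lit 3) (nat_lit 7) (nat_lit 7) (nat_lit 57) (nat_lit 41) r4_57 r4_41 (nat_lit 0) (nat_lit 0) (nat_lit 0) (nat_lit 0x7d5376cb40) (nat_lit 1312526592),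
  Rx.mk (nat_lit 507) (nat_lit 3) (nat_lit 7) (nat_lit 7) (nat_lit 7) (nat_lit 56) (nat_lit 43) r4_56 r4_43 (nat_lit 0) (nat_lit 0) (nat_lit 0) (nat_lit 0x7d1ac316b4) (nat_lit 1421246736)]
noncomputable def e4_5 : List Rx := [
  Rx.mk (nat_lit 322) (nat_lit 2) (nat_lit 0) (nat_lit 5) (nat_lit 5) (nat_lit 66) (nat_lit 69) r4_66 r3_69 (nat_lit 0) (nat_lit 0) (nat_lit 0) (nat_lit 0x7f9a3d1c94) (nat_lit 195116688),
  Rx.mk (nat_lit 344) (nat_lit 0) (nat_lit 3) (nat_lit 5) (nat_lit 6) (nat_lit 65) (nat_lit 70) r4_65 r3_70 (nat_lit 0) (nat_lit 0) (nat_lit 0) (nat_lit 0x7ffc241dc2) (nat_lit 7399080),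
  Rx.mk (nat_lit 346) (nat_lit 2) (nat_lit 3) (nat_lit 5) (nat_lit 7) (nat_lit 67) (nat_lit 71) r4_67 r3_71 (nat_lit 0) (nat_lit 0) (nat_lit 0) (nat_lit 0x7fe190a714) (nat_lit 58355856)]
noncomputable def e4_6 : List Rx := [
  Rx.mk (nat_lit 66) (nat_lit 2) (nat_lit 0) (nat_lit 1) (nat_lit 5) (nat_lit 69) (nat_lit 80) r4_69 r0_80 (nat_lit 0) (nat_lit 0) (nat_lit 0) (nat_lit 0x7933197536) (nat_lit 3337995960),
  Rx.mk (nat_lit 90) (nat_lit 2) (nat_lit 3) (nat_lit 1) (nat_lit 7) (nat_lit 70) (nat_lit 81) r4_70 r0_81 (nat_lit 0) (nat_lit 0) (nat_lit 0) (nat_lit 0x7e7f2fee82) (nat_lit 737838504),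
  Rx.mk (nat_lit 322) (nat_lit 2) (nat_lit 0) (nat_lit 5) (nat_lit 5) (nat_lit 68) (nat_lit 79) r4_68 r0_79 (nat_lit 0) (nat_lit 0) (nat_lit 0) (nat_lit 0x6338dbcf0c) (nat_lit 14125728240)]
noncomputable def e4_7 : List Rx := [
  Rx.mk (nat_lit 66) (nat_lit 2) (nat_lit 0) (nat_lit 1) (nat_lit 5) (nat_lit 71) (nat_lit 85) r4_71 r1_85 (nat_lit 0) (nat_lit 0) (nat_lit 0) (nat_lit 0x7de3bb066c) (nat_lit 1035910512),
  Rx.mk (nat_lit 82) (nat_lit 2) (nat_lit 2) (nat_lit 1) (nat_lit 7) (nat_lit 72) (nat_lit 87) r4_72 r1_87 (nat_lit 0) (nat_lit 0) (nat_lit 0) (nat_lit 0x7df5700b0a) (nat_lit 1001958984),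
  Rx.mk (nat_lit 90) (nat_lit 2) (nat_lit 3) (nat_lit 1) (nat_lit 7) (nat_lit 73) (nat_lit 86) r4_73 r1_86 (nat_lit 0) (nat_lit 0) (nat_lit 0) (nat_lit 0x7eb127ced2) (nat_lit 642029544)]
noncomputable def e4_8 : List Rx := [
  Rx.mk (nat_lit 90) (nat_lit 2) (nat_lit 3) (nat_lit 1) (nat_lit 7) (nat_lit 77) (nat_lit 77) r4_77 r4_77 (nat_lit 0) (nat_lit 0) (nat_lit 0) (nat_lit 0x7e7ff5222e) (nat_lit 736361496),
  Rx.mk (nat_lit 322) (nat_lit 2) (nat_lit 0) (nat_lit 5) (nat_lit 5) (nat_lit 75) (nat_lit 74) r4_75 r4_74 (nat_lit 0) (nat_lit 0) (nat_lit 0) (nat_lit 0x7df5478d92) (nat_lit 1002262248),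
  Rx.mk (nat_lit 344) (nat_lit 0) (nat_lit 3) (nat_lit 5) (nat_lit 6) (nat_lit 74) (nat_lit 75) r4_74 r4_75 (nat_lit 0) (nat_lit 0) (nat_lit 0) (nat_lit 0x7df5478d92) (nat_lit 1002262248),
  Rx.mk (nat_lit 346) (nat_lit 2) (nat_lit 3) (nat_lit 5) (nat_lit 7) (nat_lit 76) (nat_lit 76) r4_76 r4_76 (nat_lit 0) (nat_lit 0) (nat_lit 0) (nat_lit 0x78e27fff1e) (nat_lit 3492537048)]
noncomputable def e4_9 : List Rx := [
  Rx.mk (nat_lit 280) (nat_lit 0) (nat_lit 3) (nat_lit 4) (nat_lit 2) (nat_lit 78) (nat_lit 20) r4_78 r5_20 (nat_lit 0) (nat_lit 0) (nat_lit 0) (nat_lit 0x73b85e8660) (nat_lit 6027585408),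
  Rx.mk (nat_lit 282) (nat_lit 2) (nat_lit 3) (nat_lit 4) (nat_lit 3) (nat_lit 81) (nat_lit 28) r4_81 r5_28 (nat_lit 0) (nat_lit 0) (nat_lit 0) (nat_lit 0x725645c94e) (nat_lit 6706528920),
  Rx.mk (nat_lit 283) (nat_lit 3) (nat_lit 3) (nat_lit 4) (nat_lit 3) (nat_lit 87) (nat_lit 23) r4_87 r5_23 (nat_lit 0) (nat_lit 0) (nat_lit 0) (nat_lit 0x7dc900f228) (nat_lit 1087156512),
  Rx.mk (nat_lit 315) (nat_lit 3) (nat_lit 7) (nat_lit 4) (nat_lit 3) (nat_lit 84) (nat_lit 25) r4_84 r5_25 (nat_lit 0) (nat_lit 0) (nat_lit 0) (nat_lit 0x7e271210b8) (nat_lit 906793056),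
  Rx.mk (nat_lit 344) (nat_lit 0) (nat_lit 3) (nat_lit 5) (nat_lit 6) (nat_lit 79) (nat_lit 21) r4_79 r5_21 (nat_lit 0) (nat_lit 0) (nat_lit 0) (nat_lit 0x7e786b1ad6) (nat_lit 750817080),
  Rx.mk (nat_lit 346) (nat_lit 2) (nat_lit 3) (nat_lit 5) (nat_lit 7) (nat_lit 82) (nat_lit 29) r4_82 r5_29 (nat_lit 0) (nat_lit 0) (nat_lit 0) (nat_lit 0x7efcc334d0) (nat_lit 497060928),
  Rx.mk (nat_lit 347) (nat_lit 3) (nat_lit 3) (nat_lit 5) (nat_lit 7) (nat_lit 88) (nat_lit 24) r4_88 r5_24 (nat_lit 0) (nat_lit 0) (nat_lit 0) (nat_lit 0x7dda26bfba) (nat_lit 1054277640),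
  Rx.mk (nat_lit 379) (nat_lit 3) (nat_lit 7) (nat_lit 5) (nat_lit 7) (nat_lit 85) (nat_lit 26) r4_85 r5_26 (nat_lit 0) (nat_lit 0) (nat_lit 0) (nat_lit 0x7e3b9e07e4) (nat_lit 867396816),
  Rx.mk (nat_lit 443) (nat_lit 3) (nat_lit 7) (nat_lit 6) (nat_lit 7) (nat_lit 86) (nat_lit 27) r4_86 r5_27 (nat_lit 0) (nat_lit 0) (nat_lit 0) (nat_lit 0x7e2a2b5f20) (nat_lit 900851328),
  Rx.mk (nat_lit 472) (nat_lit 0) (nat_lit 3) (nat_lit 7) (nat_lit 6) (nat_lit 80) (nat_lit 22) r4_80 r5_22 (nat_lit 0) (nat_lit 0) (nat_lit 0) (nat_lit 0x7cf80582b0) (nat_lit 1487858112),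
  Rx.mk (nat_lit 474) (nat_lit 2) (nat_lit 3) (nat_lit 7) (nat_lit 7) (nat_lit 83) (nat_lit 30) r4_83 r5_30 (nat_lit 0) (nat_lit 0) (nat_lit 0) (nat_lit 0x7ee231fdfe) (nat_lit 548000856)]
noncomputable def e4_10 : List Rx := [
  Rx.mk (nat_lit 420) (nat_lit 4) (nat_lit 4) (nat_lit 6) (nat_lit 4) (nat_lit 93) (nat_lit 142) r4_93 r0_142 (nat_lit 0) (nat_lit 0) (nat_lit 0) (nat_lit 0x71b7297bb2) (nat_lit 7011606888),
  Rx.mk (nat_lit 423) (nat_lit 7) (nat_lit 4) (nat_lit 6) (nat_lit 5) (nat_lit 95) (nat_lit 143) r4_95 r0_143 (nat_lit 0) (nat_lit 0) (nat_lit 0) (nat_lit 0x7ac67fdd3c) (nat_lit 2564518320),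
  Rx.mk (nat_lit 436) (nat_lit 4) (nat_lit 6) (nat_lit 6) (nat_lit 6) (nat_lit 94) (nat_lit 145) r4_94 r0_145 (nat_lit 0) (nat_lit 0) (nat_lit 0) (nat_lit 0x7bb2a1ba32) (nat_lit 2111759208),
  Rx.mk (nat_lit 439) (nat_lit 7) (nat_lit 6) (nat_lit 6) (nat_lit 7) (nat_lit 96) (nat_lit 146) r4_96 r0_146 (nat_lit 0) (nat_lit 0) (nat_lit 0) (nat_lit 0x7e2f4f4cdc) (nat_lit 890995248),
  Rx.mk (nat_lit 447) (nat_lit 7) (nat_lit 7) (nat_lit 6) (nat_lit 7) (nat_lit 97) (nat_lit 144) r4_97 r0_144 (nat_lit 0) (nat_lit 0) (nat_lit 0) (nat_lit 0x7d94351f1a) (nat_lit 1188387720)]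
noncomputable def e4_11 : List Rx := [
  Rx.mk (nat_lit 22) (nat_lit 6) (nat_lit 2) (nat_lit 0) (nat_lit 3) (nat_lit 102) (nat_lit 45) r4_102 r6_45 (nat_lit 0) (nat_lit 0) (nat_lit 0) (nat_lit 0x7e14d85466) (nat_lit 941738616),
  Rx.mk (nat_lit 150) (nat_lit 6) (nat_lit 2) (nat_lit 2) (nat_lit 7) (nat_lit 103) (nat_lit 46) r4_103 r6_46 (nat_lit 0) (nat_lit 0) (nat_lit 0) (nat_lit 0x7dd10471e8) (nat_lit 1071791136),
  Rx.mk (nat_lit 180) (nat_lit 4) (nat_lit 6) (nat_lit 2) (nat_lit 6) (nat_lit 100) (nat_lit 40) r4_100 r6_40 (nat_lit 0) (nat_lit 0) (nat_lit 0) (nat_lit 0x7dd0537cf8) (nat_lit 1073116512),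
  Rx.mk (nat_lit 182) (nat_lit 6) (nat_lit 6) (nat_lit 2) (nat_lit 7) (nat_lit 101) (nat_lit 47) r4_101 r6_47 (nat_lit 0) (nat_lit 0) (nat_lit 0) (nat_lit 0x7df1d384d6) (nat_lit 1008883512),
  Rx.mk (nat_lit 420) (nat_lit 4) (nat_lit 4) (nat_lit 6) (nat_lit 4) (nat_lit 98) (nat_lit 39) r4_98 r6_39 (nat_lit 0) (nat_lit 0) (nat_lit 0) (nat_lit 0x666c24b74a) (nat_lit 12554834760),
  Rx.mk (nat_lit 423) (nat_lit 7) (nat_lit 4) (nat_lit 6) (nat_lit 5) (nat_lit 104) (nat_lit 42) r4_104 r6_42 (nat_lit 0) (nat_lit 0) (nat_lit 0) (nat_lit 0x7d86242038) (nat_lit 1215358560),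
  Rx.mk (nat_lit 436) (nat_lit 4) (nat_lit 6) (nat_lit 6) (nat_lit 6) (nat_lit 99) (nat_lit 41) r4_99 r6_41 (nat_lit 0) (nat_lit 0) (nat_lit 0) (nat_lit 0x7e8603014a) (nat_lit 724753224),
  Rx.mk (nat_lit 439) (nat_lit 7) (nat_lit 6) (nat_lit 6) (nat_lit 7) (nat_lit 105) (nat_lit 44) r4_105 r6_44 (nat_lit 0) (nat_lit 0) (nat_lit 0) (nat_lit 0x7e6a93d858) (nat_lit 777355488),
  Rx.mk (nat_lit 447) (nat_lit 7) (nat_lit 7) (nat_lit 6) (nat_lit 7) (nat_lit 106) (nat_lit 43) r4_106 r6_43 (nat_lit 0) (nat_lit 0) (nat_lit 0) (nat_lit 0x7df79428c6) (nat_lit 997853688)]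
noncomputable def e4_12 : List Rx := [
  Rx.mk (nat_lit 420) (nat_lit 4) (nat_lit 4) (nat_lit 6) (nat_lit 4) (nat_lit 107) (nat_lit 154) r4_107 r1_154 (nat_lit 0) (nat_lit 0) (nat_lit 0) (nat_lit 0x74634ad6f0) (nat_lit 5699858112),
  Rx.mk (nat_lit 421) (nat_lit 5) (nat_lit 4) (nat_lit 6) (nat_lit 5) (nat_lit 109) (nat_lit 155) r4_109 r1_155 (nat_lit 0) (nat_lit 0) (nat_lit 0) (nat_lit 0x7dc2547cf6) (nat_lit 1099952568),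
  Rx.mk (nat_lit 423) (nat_lit 7) (nat_lit 4) (nat_lit 6) (nat_lit 5) (nat_lit 111) (nat_lit 156) r4_111 r1_156 (nat_lit 0) (nat_lit 0) (nat_lit 0) (nat_lit 0x7e11d58496) (nat_lit 947511864),
  Rx.mk (nat_lit 436) (nat_lit 4) (nat_lit 6) (nat_lit 6) (nat_lit 6) (nat_lit 108) (nat_lit 158) r4_108 r1_158 (nat_lit 0) (nat_lit 0) (nat_lit 0) (nat_lit 0x727dbfd186) (nat_lit 6630836472),
  Rx.mk (nat_lit 437) (nat_lit 5) (nat_lit 6) (nat_lit 6) (nat_lit 7) (nat_lit 110) (nat_lit 159) r4_110 r1_159 (nat_lit 0) (nat_lit 0) (nat_lit 0) (nat_lit 0x7dbbbc4680) (nat_lit 1112596992),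
  Rx.mk (nat_lit 439) (nat_lit 7) (nat_lit 6) (nat_lit 6) (nat_lit 7) (nat_lit 112) (nat_lit 160) r4_112 r1_160 (nat_lit 0) (nat_lit 0) (nat_lit 0) (nat_lit 0x7dbe303f3e) (nat_lit 1107893592),
  Rx.mk (nat_lit 447) (nat_lit 7) (nat_lit 7) (nat_lit 6) (nat_lit 7) (nat_lit 113) (nat_lit 157) r4_113 r1_157 (nat_lit 0) (nat_lit 0) (nat_lit 0) (nat_lit 0x7df3f3e2ce) (nat_lit 1004806296)]
noncomputable def e4_13 : List Rx := [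
  Rx.mk (nat_lit 150) (nat_lit 6) (nat_lit 2) (nat_lit 2) (nat_lit 7) (nat_lit 121) (nat_lit 56) r4_121 r7_56 (nat_lit 0) (nat_lit 0) (nat_lit 0) (nat_lit 0x7df910b0fc) (nat_lit 995003568),
  Rx.mk (nat_lit 180) (nat_lit 4) (nat_lit 6) (nat_lit 2) (nat_lit 6) (nat_lit 116) (nat_lit 48) r4_116 r7_48 (nat_lit 0) (nat_lit 0) (nat_lit 0) (nat_lit 0x7da8e3f418) (nat_lit 1148730336),
  Rx.mk (nat_lit 181) (nat_lit 5) (nat_lit 6) (nat_lit 2) (nat_lit 7) (nat_lit 119) (nat_lit 51) r4_119 r7_51 (nat_lit 0) (nat_lit 0) (nat_lit 0) (nat_lit 0x7ddfec435c) (nat_lit 1043211312),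
  Rx.mk (nat_lit 182) (nat_lit 6) (nat_lit 6) (nat_lit 2) (nat_lit 7) (nat_lit 120) (nat_lit 57) r4_120 r7_57 (nat_lit 0) (nat_lit 0) (nat_lit 0) (nat_lit 0x7de493b8e0) (nat_lit 1034287488),
  Rx.mk (nat_lit 420) (nat_lit 4) (nat_lit 4) (nat_lit 6) (nat_lit 4) (nat_lit 114) (nat_lit 47) r4_114 r7_47 (nat_lit 0) (nat_lit 0) (nat_lit 0) (nat_lit 0x754e23e874) (nat_lit 5249561616),
  Rx.mk (nat_lit 421) (nat_lit 5) (nat_lit 4) (nat_lit 6) (nat_lit 5) (nat_lit 117) (nat_lit 50) r4_117 r7_50 (nat_lit 0) (nat_lit 0) (nat_lit 0) (nat_lit 0x7dd0edf350) (nat_lit 1071959616),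
  Rx.mk (nat_lit 423) (nat_lit 7) (nat_lit 4) (nat_lit 6) (nat_lit 5) (nat_lit 122) (nat_lit 53) r4_122 r7_53 (nat_lit 0) (nat_lit 0) (nat_lit 0) (nat_lit 0x7dcf55acd6) (nat_lit 1075017528),
  Rx.mk (nat_lit 436) (nat_lit 4) (nat_lit 6) (nat_lit 6) (nat_lit 6) (nat_lit 115) (nat_lit 49) r4_115 r7_49 (nat_lit 0) (nat_lit 0) (nat_lit 0) (nat_lit 0x7e2a789a4c) (nat_lit 900272880),
  Rx.mk (nat_lit 437) (nat_lit 5) (nat_lit 6) (nat_lit 6) (nat_lit 7) (nat_lit 118) (nat_lit 52) r4_118 r7_52 (nat_lit 0) (nat_lit 0) (nat_lit 0) (nat_lit 0x7e35a4078a) (nat_lit 878856264),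
  Rx.mk (nat_lit 439) (nat_lit 7) (nat_lit 6) (nat_lit 6) (nat_lit 7) (nat_lit 123) (nat_lit 55) r4_123 r7_55 (nat_lit 0) (nat_lit 0) (nat_lit 0) (nat_lit 0x7e28211fc6) (nat_lit 904762872),
  Rx.mk (nat_lit 447) (nat_lit 7) (nat_lit 7) (nat_lit 6) (nat_lit 7) (nat_lit 124) (nat_lit 54) r4_124 r7_54 (nat_lit 0) (nat_lit 0) (nat_lit 0) (nat_lit 0x7dd9115112) (nat_lit 1056355560)]
noncomputable def e4_14 : List Rx := [
  Rx.mk (nat_lit 22) (nat_lit 6) (nat_lit 2) (nat_lit 0) (nat_lit 3) (nat_lit 126) (nat_lit 146) r4_126 r7_146 (nat_lit 0) (nat_lit 0) (nat_lit 0) (nat_lit 0x7dc32eaf52) (nat_lit 1098318312),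
  Rx.mk (nat_lit 150) (nat_lit 6) (nat_lit 2) (nat_lit 2) (nat_lit 7) (nat_lit 127) (nat_lit 148) r4_127 r7_148 (nat_lit 0) (nat_lit 0) (nat_lit 0) (nat_lit 0x7dedaca748) (nat_lit 1016844192),
  Rx.mk (nat_lit 182) (nat_lit 6) (nat_lit 6) (nat_lit 2) (nat_lit 7) (nat_lit 125) (nat_lit 147) r4_125 r7_147 (nat_lit 0) (nat_lit 0) (nat_lit 0) (nat_lit 0x7dca705b30) (nat_lit 1084404672)]
noncomputable def e4_15 : List Rx := [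
  Rx.mk (nat_lit 22) (nat_lit 6) (nat_lit 2) (nat_lit 0) (nat_lit 3) (nat_lit 128) (nat_lit 15) r4_128 r8_15 (nat_lit 0) (nat_lit 0) (nat_lit 0) (nat_lit 0x7de2b8b692) (nat_lit 1037845224),
  Rx.mk (nat_lit 86) (nat_lit 6) (nat_lit 2) (nat_lit 1) (nat_lit 7) (nat_lit 129) (nat_lit 16) r4_129 r8_16 (nat_lit 0) (nat_lit 0) (nat_lit 0) (nat_lit 0x7df79428c6) (nat_lit 997853688),
  Rx.mk (nat_lit 150) (nat_lit 6) (nat_lit 2) (nat_lit 2) (nat_lit 7) (nat_lit 130) (nat_lit 17) r4_130 r8_17 (nat_lit 0) (nat_lit 0) (nat_lit 0) (nat_lit 0x7dd77c6a62) (nat_lit 1059388200)]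
noncomputable def e4_16 : List Rx := [
  Rx.mk (nat_lit 423) (nat_lit 7) (nat_lit 4) (nat_lit 6) (nat_lit 5) (nat_lit 131) (nat_lit 131) r4_131 r4_131 (nat_lit 0) (nat_lit 0) (nat_lit 0) (nat_lit 0x7e4c631b82) (nat_lit 835242408),
  Rx.mk (nat_lit 439) (nat_lit 7) (nat_lit 6) (nat_lit 6) (nat_lit 7) (nat_lit 132) (nat_lit 133) r4_132 r4_133 (nat_lit 0) (nat_lit 0) (nat_lit 0) (nat_lit 0x7e1048dd62) (nat_lit 950482728),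
  Rx.mk (nat_lit 447) (nat_lit 7) (nat_lit 7) (nat_lit 6) (nat_lit 7) (nat_lit 133) (nat_lit 132) r4_133 r4_132 (nat_lit 0) (nat_lit 0) (nat_lit 0) (nat_lit 0x7e1048dd62) (nat_lit 950482728)]
noncomputable def e4_17 : List Rx := [
  Rx.mk (nat_lit 22) (nat_lit 6) (nat_lit 2) (nat_lit 0) (nat_lit 3) (nat_lit 136) (nat_lit 28) r4_136 r9_28 (nat_lit 0) (nat_lit 0) (nat_lit 0) (nat_lit 0x7e412fcec2) (nat_lit 856717992),
  Rx.mk (nat_lit 150) (nat_lit 6) (nat_lit 2) (nat_lit 2) (nat_lit 7) (nat_lit 137) (nat_lit 30) r4_137 r9_30 (nat_lit 0) (nat_lit 0) (nat_lit 0) (nat_lit 0x7dee99387e) (nat_lit 1015072344),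
  Rx.mk (nat_lit 180) (nat_lit 4) (nat_lit 6) (nat_lit 2) (nat_lit 6) (nat_lit 134) (nat_lit 23) r4_134 r9_23 (nat_lit 0) (nat_lit 0) (nat_lit 0) (nat_lit 0x7d77e26462) (nat_lit 1242694440),
  Rx.mk (nat_lit 182) (nat_lit 6) (nat_lit 6) (nat_lit 2) (nat_lit 7) (nat_lit 135) (nat_lit 31) r4_135 r9_31 (nat_lit 0) (nat_lit 0) (nat_lit 0) (nat_lit 0x7df0f592b6) (nat_lit 1010545848),
  Rx.mk (nat_lit 183) (nat_lit 7) (nat_lit 6) (nat_lit 2) (nat_lit 7) (nat_lit 141) (nat_lit 26) r4_141 r9_26 (nat_lit 0) (nat_lit 0) (nat_lit 0) (nat_lit 0x7dede0640c) (nat_lit 1016456688),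
  Rx.mk (nat_lit 214) (nat_lit 6) (nat_lit 2) (nat_lit 3) (nat_lit 7) (nat_lit 138) (nat_lit 29) r4_138 r9_29 (nat_lit 0) (nat_lit 0) (nat_lit 0) (nat_lit 0x7dd37c8a64) (nat_lit 1067056848),
  Rx.mk (nat_lit 423) (nat_lit 7) (nat_lit 4) (nat_lit 6) (nat_lit 5) (nat_lit 139) (nat_lit 24) r4_139 r9_24 (nat_lit 0) (nat_lit 0) (nat_lit 0) (nat_lit 0x7afc995b6e) (nat_lit 2460787992),
  Rx.mk (nat_lit 439) (nat_lit 7) (nat_lit 6) (nat_lit 6) (nat_lit 7) (nat_lit 140) (nat_lit 27) r4_140 r9_27 (nat_lit 0) (nat_lit 0) (nat_lit 0) (nat_lit 0x7e4a4f1cc4) (nat_lit 839226960),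
  Rx.mk (nat_lit 447) (nat_lit 7) (nat_lit 7) (nat_lit 6) (nat_lit 7) (nat_lit 142) (nat_lit 25) r4_142 r9_25 (nat_lit 0) (nat_lit 0) (nat_lit 0) (nat_lit 0x7db07b1a9e) (nat_lit 1134176472)]
noncomputable def e4_18 : List Rx := [
  Rx.mk (nat_lit 447) (nat_lit 7) (nat_lit 7) (nat_lit 6) (nat_lit 7) (nat_lit 143) (nat_lit 8) r4_143 r10_8 (nat_lit 0) (nat_lit 0) (nat_lit 0) (nat_lit 0x7dd7d8a49e) (nat_lit 1058697432)]
noncomputable def e4_19 : List Rx := [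
  Rx.mk (nat_lit 2) (nat_lit 2) (nat_lit 0) (nat_lit 0) (nat_lit 1) (nat_lit 147) (nat_lit 50) r4_147 r8_50 (nat_lit 0) (nat_lit 0) (nat_lit 0) (nat_lit 0x6c5214126e) (nat_lit 9659691288),
  Rx.mk (nat_lit 18) (nat_lit 2) (nat_lit 2) (nat_lit 0) (nat_lit 3) (nat_lit 150) (nat_lit 59) r4_150 r8_59 (nat_lit 0) (nat_lit 0) (nat_lit 0) (nat_lit 0x7dc71c9070) (nat_lit 1090784448),
  Rx.mk (nat_lit 22) (nat_lit 6) (nat_lit 2) (nat_lit 0) (nat_lit 3) (nat_lit 144) (nat_lit 56) r4_144 r8_56 (nat_lit 0) (nat_lit 0) (nat_lit 0) (nat_lit 0x7db61d007a) (nat_lit 1123376904),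
  Rx.mk (nat_lit 26) (nat_lit 2) (nat_lit 3) (nat_lit 0) (nat_lit 3) (nat_lit 152) (nat_lit 53) r4_152 r8_53 (nat_lit 0) (nat_lit 0) (nat_lit 0) (nat_lit 0x7ddbcbc568) (nat_lit 1051124256),
  Rx.mk (nat_lit 66) (nat_lit 2) (nat_lit 0) (nat_lit 1) (nat_lit 5) (nat_lit 148) (nat_lit 51) r4_148 r8_51 (nat_lit 0) (nat_lit 0) (nat_lit 0) (nat_lit 0x7dc4b916aa) (nat_lit 1095364296),
  Rx.mk (nat_lit 74) (nat_lit 2) (nat_lit 1) (nat_lit 1) (nat_lit 7) (nat_lit 149) (nat_lit 52) r4_149 r8_52 (nat_lit 0) (nat_lit 0) (nat_lit 0) (nat_lit 0x7df5dd2438) (nat_lit 1001141856),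
  Rx.mk (nat_lit 82) (nat_lit 2) (nat_lit 2) (nat_lit 1) (nat_lit 7) (nat_lit 151) (nat_lit 60) r4_151 r8_60 (nat_lit 0) (nat_lit 0) (nat_lit 0) (nat_lit 0x7df5b98672) (nat_lit 1001408616),
  Rx.mk (nat_lit 86) (nat_lit 6) (nat_lit 2) (nat_lit 1) (nat_lit 7) (nat_lit 145) (nat_lit 57) r4_145 r8_57 (nat_lit 0) (nat_lit 0) (nat_lit 0) (nat_lit 0x7dde50fd12) (nat_lit 1046291688),
  Rx.mk (nat_lit 90) (nat_lit 2) (nat_lit 3) (nat_lit 1) (nat_lit 7) (nat_lit 153) (nat_lit 54) r4_153 r8_54 (nat_lit 0) (nat_lit 0) (nat_lit 0) (nat_lit 0x7de39ca852) (nat_lit 1036137960),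
  Rx.mk (nat_lit 150) (nat_lit 6) (nat_lit 2) (nat_lit 2) (nat_lit 7) (nat_lit 146) (nat_lit 58) r4_146 r8_58 (nat_lit 0) (nat_lit 0) (nat_lit 0) (nat_lit 0x7de458dc8e) (nat_lit 1034728344),
  Rx.mk (nat_lit 218) (nat_lit 2) (nat_lit 3) (nat_lit 3) (nat_lit 7) (nat_lit 154) (nat_lit 55) r4_154 r8_55 (nat_lit 0) (nat_lit 0) (nat_lit 0) (nat_lit 0x7df7378e90) (nat_lit 998547264)]
noncomputable def e4_20 : List Rx := [
  Rx.mk (nat_lit 320) (nat_lit 0) (nat_lit 0) (nat_lit 5) (nat_lit 4) (nat_lit 155) (nat_lit 317) r4_155 r0_317 (nat_lit 0) (nat_lit 0) (nat_lit 0) (nat_lit 0x6ef1331dde) (nat_lit 8372885976),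
  Rx.mk (nat_lit 322) (nat_lit 2) (nat_lit 0) (nat_lit 5) (nat_lit 5) (nat_lit 157) (nat_lit 319) r4_157 r0_319 (nat_lit 0) (nat_lit 0) (nat_lit 0) (nat_lit 0x76db4494dc) (nat_lit 4488110640),
  Rx.mk (nat_lit 328) (nat_lit 0) (nat_lit 1) (nat_lit 5) (nat_lit 6) (nat_lit 156) (nat_lit 318) r4_156 r0_318 (nat_lit 0) (nat_lit 0) (nat_lit 0) (nat_lit 0x7d38edd3ea) (nat_lit 1363404744),
  Rx.mk (nat_lit 330) (nat_lit 2) (nat_lit 1) (nat_lit 5) (nat_lit 7) (nat_lit 158) (nat_lit 320) r4_158 r0_320 (nat_lit 0) (nat_lit 0) (nat_lit 0) (nat_lit 0x7ece365dcc) (nat_lit 586316016)]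
noncomputable def e4_21 : List Rx := [
  Rx.mk (nat_lit 328) (nat_lit 0) (nat_lit 1) (nat_lit 5) (nat_lit 6) (nat_lit 159) (nat_lit 304) r4_159 r1_304 (nat_lit 0) (nat_lit 0) (nat_lit 0) (nat_lit 0x7e188df908) (nat_lit 934625952),
  Rx.mk (nat_lit 330) (nat_lit 2) (nat_lit 1) (nat_lit 5) (nat_lit 7) (nat_lit 160) (nat_lit 305) r4_160 r1_305 (nat_lit 0) (nat_lit 0) (nat_lit 0) (nat_lit 0x7e535d2bda) (nat_lit 821865096)]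
noncomputable def e4_22 : List Rx := [
  Rx.mk (nat_lit 320) (nat_lit 0) (nat_lit 0) (nat_lit 5) (nat_lit 4) (nat_lit 161) (nat_lit 349) r4_161 r4_349 (nat_lit 0) (nat_lit 0) (nat_lit 0) (nat_lit 0x73692e19b6) (nat_lit 6179422392),
  Rx.mk (nat_lit 322) (nat_lit 2) (nat_lit 0) (nat_lit 5) (nat_lit 5) (nat_lit 164) (nat_lit 352) r4_164 r4_352 (nat_lit 0) (nat_lit 0) (nat_lit 0) (nat_lit 0x7e9dbce594) (nat_lit 679260816),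
  Rx.mk (nat_lit 328) (nat_lit 0) (nat_lit 1) (nat_lit 5) (nat_lit 6) (nat_lit 162) (nat_lit 350) r4_162 r4_350 (nat_lit 0) (nat_lit 0) (nat_lit 0) (nat_lit 0x7e146cbb20) (nat_lit 942544512),
  Rx.mk (nat_lit 330) (nat_lit 2) (nat_lit 1) (nat_lit 5) (nat_lit 7) (nat_lit 165) (nat_lit 353) r4_165 r4_353 (nat_lit 0) (nat_lit 0) (nat_lit 0) (nat_lit 0x7e61448d56) (nat_lit 795205944),
  Rx.mk (nat_lit 344) (nat_lit 0) (nat_lit 3) (nat_lit 5) (nat_lit 6) (nat_lit 163) (nat_lit 351) r4_163 r4_351 (nat_lit 0) (nat_lit 0) (nat_lit 0) (nat_lit 0x7e740fc090) (nat_lit 759170880),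
  Rx.mk (nat_lit 346) (nat_lit 2) (nat_lit 3) (nat_lit 5) (nat_lit 7) (nat_lit 166) (nat_lit 354) r4_166 r4_354 (nat_lit 0) (nat_lit 0) (nat_lit 0) (nat_lit 0x7e69115082) (nat_lit 780250536)]
noncomputable def e4_23 : List Rx := [
  Rx.mk (nat_lit 66) (nat_lit 2) (nat_lit 0) (nat_lit 1) (nat_lit 5) (nat_lit 170) (nat_lit 73) r4_170 r6_73 (nat_lit 0) (nat_lit 0) (nat_lit 0) (nat_lit 0x7e444b5d06) (nat_lit 850759416),
  Rx.mk (nat_lit 74) (nat_lit 2) (nat_lit 1) (nat_lit 1) (nat_lit 7) (nat_lit 172) (nat_lit 76) r4_172 r6_76 (nat_lit 0) (nat_lit 0) (nat_lit 0) (nat_lit 0x7df13cce42) (nat_lit 1010012328),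
  Rx.mk (nat_lit 90) (nat_lit 2) (nat_lit 3) (nat_lit 1) (nat_lit 7) (nat_lit 173) (nat_lit 77) r4_173 r6_77 (nat_lit 0) (nat_lit 0) (nat_lit 0) (nat_lit 0x7dcf6e0b50) (nat_lit 1074835008),
  Rx.mk (nat_lit 320) (nat_lit 0) (nat_lit 0) (nat_lit 5) (nat_lit 4) (nat_lit 167) (nat_lit 71) r4_167 r6_71 (nat_lit 0) (nat_lit 0) (nat_lit 0) (nat_lit 0x6ce30222fc) (nat_lit 9381803184),
  Rx.mk (nat_lit 322) (nat_lit 2) (nat_lit 0) (nat_lit 5) (nat_lit 5) (nat_lit 169) (nat_lit 72) r4_169 r6_72 (nat_lit 0) (nat_lit 0) (nat_lit 0) (nat_lit 0x7e5529ef0c) (nat_lit 818414064),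
  Rx.mk (nat_lit 328) (nat_lit 0) (nat_lit 1) (nat_lit 5) (nat_lit 6) (nat_lit 168) (nat_lit 74) r4_168 r6_74 (nat_lit 0) (nat_lit 0) (nat_lit 0) (nat_lit 0x7cb6e0d53c) (nat_lit 1612763568),
  Rx.mk (nat_lit 330) (nat_lit 2) (nat_lit 1) (nat_lit 5) (nat_lit 7) (nat_lit 171) (nat_lit 75) r4_171 r6_75 (nat_lit 0) (nat_lit 0) (nat_lit 0) (nat_lit 0x7e5e361e40) (nat_lit 801066240)]
noncomputable def e4_24 : List Rx := [
  Rx.mk (nat_lit 74) (nat_lit 2) (nat_lit 1) (nat_lit 1) (nat_lit 7) (nat_lit 176) (nat_lit 70) r4_176 r7_70 (nat_lit 0) (nat_lit 0) (nat_lit 0) (nat_lit 0x7ddc8799aa) (nat_lit 1049717448),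
  Rx.mk (nat_lit 328) (nat_lit 0) (nat_lit 1) (nat_lit 5) (nat_lit 6) (nat_lit 174) (nat_lit 68) r4_174 r7_68 (nat_lit 0) (nat_lit 0) (nat_lit 0) (nat_lit 0x7d8ece758a) (nat_lit 1198743624),
  Rx.mk (nat_lit 330) (nat_lit 2) (nat_lit 1) (nat_lit 5) (nat_lit 7) (nat_lit 175) (nat_lit 69) r4_175 r7_69 (nat_lit 0) (nat_lit 0) (nat_lit 0) (nat_lit 0x7e35a76754) (nat_lit 878830992)]
noncomputable def e4_25 : List Rx := [
  Rx.mk (nat_lit 66) (nat_lit 2) (nat_lit 0) (nat_lit 1) (nat_lit 5) (nat_lit 177) (nat_lit 351) r4_177 r7_351 (nat_lit 0) (nat_lit 0) (nat_lit 0) (nat_lit 0x7dec271fa2) (nat_lit 1019761704),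
  Rx.mk (nat_lit 74) (nat_lit 2) (nat_lit 1) (nat_lit 1) (nat_lit 7) (nat_lit 178) (nat_lit 352) r4_178 r7_352 (nat_lit 0) (nat_lit 0) (nat_lit 0) (nat_lit 0x7de75b4c64) (nat_lit 1028957904),
  Rx.mk (nat_lit 82) (nat_lit 2) (nat_lit 2) (nat_lit 1) (nat_lit 7) (nat_lit 179) (nat_lit 354) r4_179 r7_354 (nat_lit 0) (nat_lit 0) (nat_lit 0) (nat_lit 0x7ddcf03320) (nat_lit 1048934016),
  Rx.mk (nat_lit 90) (nat_lit 2) (nat_lit 3) (nat_lit 1) (nat_lit 7) (nat_lit 180) (nat_lit 353) r4_180 r7_353 (nat_lit 0) (nat_lit 0) (nat_lit 0) (nat_lit 0x7de78789a0) (nat_lit 1028626560)]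
noncomputable def e4_26 : List Rx := [
  Rx.mk (nat_lit 90) (nat_lit 2) (nat_lit 3) (nat_lit 1) (nat_lit 7) (nat_lit 187) (nat_lit 58) r4_187 r9_58 (nat_lit 0) (nat_lit 0) (nat_lit 0) (nat_lit 0x7de10331ec) (nat_lit 1041122160),
  Rx.mk (nat_lit 320) (nat_lit 0) (nat_lit 0) (nat_lit 5) (nat_lit 4) (nat_lit 181) (nat_lit 52) r4_181 r9_52 (nat_lit 0) (nat_lit 0) (nat_lit 0) (nat_lit 0x6d142270c6) (nat_lit 9287608824),
  Rx.mk (nat_lit 322) (nat_lit 2) (nat_lit 0) (nat_lit 5) (nat_lit 5) (nat_lit 184) (nat_lit 53) r4_184 r9_53 (nat_lit 0) (nat_lit 0) (nat_lit 0) (nat_lit 0x7db5be2668) (nat_lit 1124087328),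
  Rx.mk (nat_lit 328) (nat_lit 0) (nat_lit 1) (nat_lit 5) (nat_lit 6) (nat_lit 182) (nat_lit 54) r4_182 r9_54 (nat_lit 0) (nat_lit 0) (nat_lit 0) (nat_lit 0x7d99734b32) (nat_lit 1178335080),
  Rx.mk (nat_lit 330) (nat_lit 2) (nat_lit 1) (nat_lit 5) (nat_lit 7) (nat_lit 185) (nat_lit 55) r4_185 r9_55 (nat_lit 0) (nat_lit 0) (nat_lit 0) (nat_lit 0x7e4eb4f662) (nat_lit 830794536),
  Rx.mk (nat_lit 344) (nat_lit 0) (nat_lit 3) (nat_lit 5) (nat_lit 6) (nat_lit 183) (nat_lit 56) r4_183 r9_56 (nat_lit 0) (nat_lit 0) (nat_lit 0) (nat_lit 0x7cf5efa410) (nat_lit 1491856704),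
  Rx.mk (nat_lit 346) (nat_lit 2) (nat_lit 3) (nat_lit 5) (nat_lit 7) (nat_lit 186) (nat_lit 57) r4_186 r9_57 (nat_lit 0) (nat_lit 0) (nat_lit 0) (nat_lit 0x7e49616ba0) (nat_lit 841007232)]
noncomputable def e4_27 : List Rx := [
  Rx.mk (nat_lit 320) (nat_lit 0) (nat_lit 0) (nat_lit 5) (nat_lit 4) (nat_lit 188) (nat_lit 46) r4_188 r10_46 (nat_lit 0) (nat_lit 0) (nat_lit 0) (nat_lit 0x7d74889a02) (nat_lit 1249119144),
  Rx.mk (nat_lit 322) (nat_lit 2) (nat_lit 0) (nat_lit 5) (nat_lit 5) (nat_lit 191) (nat_lit 47) r4_191 r10_47 (nat_lit 0) (nat_lit 0) (nat_lit 0) (nat_lit 0x7e25a6c76e) (nat_lit 909514008),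
  Rx.mk (nat_lit 328) (nat_lit 0) (nat_lit 1) (nat_lit 5) (nat_lit 6) (nat_lit 189) (nat_lit 48) r4_189 r10_48 (nat_lit 0) (nat_lit 0) (nat_lit 0) (nat_lit 0x7de345adc2) (nat_lit 1036789416),
  Rx.mk (nat_lit 330) (nat_lit 2) (nat_lit 1) (nat_lit 5) (nat_lit 7) (nat_lit 192) (nat_lit 49) r4_192 r10_49 (nat_lit 0) (nat_lit 0) (nat_lit 0) (nat_lit 0x7df971caea) (nat_lit 994276296),
  Rx.mk (nat_lit 344) (nat_lit 0) (nat_lit 3) (nat_lit 5) (nat_lit 6) (nat_lit 190) (nat_lit 50) r4_190 r10_50 (nat_lit 0) (nat_lit 0) (nat_lit 0) (nat_lit 0x7df171aaf4) (nat_lit 1009616400),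
  Rx.mk (nat_lit 346) (nat_lit 2) (nat_lit 3) (nat_lit 5) (nat_lit 7) (nat_lit 193) (nat_lit 52) r4_193 r10_52 (nat_lit 0) (nat_lit 0) (nat_lit 0) (nat_lit 0x7df8e77390) (nat_lit 995312448),
  Rx.mk (nat_lit 347) (nat_lit 3) (nat_lit 3) (nat_lit 5) (nat_lit 7) (nat_lit 194) (nat_lit 51) r4_194 r10_51 (nat_lit 0) (nat_lit 0) (nat_lit 0) (nat_lit 0x7e002a9f56) (nat_lit 981387576)]
noncomputable def e4_28 : List Rx := [
  Rx.mk (nat_lit 183) (nat_lit 7) (nat_lit 6) (nat_lit 2) (nat_lit 7) (nat_lit 207) (nat_lit 136) r4_207 r10_136 (nat_lit 0) (nat_lit 0) (nat_lit 0) (nat_lit 0x7e23aee6ee) (nat_lit 913287960),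
  Rx.mk (nat_lit 218) (nat_lit 2) (nat_lit 3) (nat_lit 3) (nat_lit 7) (nat_lit 211) (nat_lit 135) r4_211 r10_135 (nat_lit 0) (nat_lit 0) (nat_lit 0) (nat_lit 0x7df1c665a8) (nat_lit 1008981792),
  Rx.mk (nat_lit 291) (nat_lit 3) (nat_lit 4) (nat_lit 4) (nat_lit 1) (nat_lit 212) (nat_lit 125) r4_212 r10_125 (nat_lit 0) (nat_lit 0) (nat_lit 0) (nat_lit 0x704a4c6af0) (nat_lit 7711194816),
  Rx.mk (nat_lit 315) (nat_lit 3) (nat_lit 7) (nat_lit 4) (nat_lit 3) (nat_lit 214) (nat_lit 126) r4_214 r10_126 (nat_lit 0) (nat_lit 0) (nat_lit 0) (nat_lit 0x7bb067ddd2) (nat_lit 2116027368),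
  Rx.mk (nat_lit 419) (nat_lit 3) (nat_lit 4) (nat_lit 6) (nat_lit 5) (nat_lit 213) (nat_lit 132) r4_213 r10_132 (nat_lit 0) (nat_lit 0) (nat_lit 0) (nat_lit 0x77d5fc8862) (nat_lit 4007383848),
  Rx.mk (nat_lit 423) (nat_lit 7) (nat_lit 4) (nat_lit 6) (nat_lit 5) (nat_lit 205) (nat_lit 131) r4_205 r10_131 (nat_lit 0) (nat_lit 0) (nat_lit 0) (nat_lit 0x7227e22fb6) (nat_lit 6795475128),
  Rx.mk (nat_lit 439) (nat_lit 7) (nat_lit 6) (nat_lit 6) (nat_lit 7) (nat_lit 206) (nat_lit 134) r4_206 r10_134 (nat_lit 0) (nat_lit 0) (nat_lit 0) (nat_lit 0x7dc3644bf8) (nat_lit 1097916768),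
  Rx.mk (nat_lit 443) (nat_lit 3) (nat_lit 7) (nat_lit 6) (nat_lit 7) (nat_lit 215) (nat_lit 133) r4_215 r10_133 (nat_lit 0) (nat_lit 0) (nat_lit 0) (nat_lit 0x7e0de80372) (nat_lit 955042920),
  Rx.mk (nat_lit 472) (nat_lit 0) (nat_lit 3) (nat_lit 7) (nat_lit 6) (nat_lit 209) (nat_lit 129) r4_209 r10_129 (nat_lit 0) (nat_lit 0) (nat_lit 0) (nat_lit 0x757b9df0a6) (nat_lit 5162364792),
  Rx.mk (nat_lit 474) (nat_lit 2) (nat_lit 3) (nat_lit 7) (nat_lit 7) (nat_lit 210) (nat_lit 130) r4_210 r10_130 (nat_lit 0) (nat_lit 0) (nat_lit 0) (nat_lit 0x7e50fdd1d2) (nat_lit 826414056),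
  Rx.mk (nat_lit 504) (nat_lit 0) (nat_lit 7) (nat_lit 7) (nat_lit 6) (nat_lit 208) (nat_lit 127) r4_208 r10_127 (nat_lit 0) (nat_lit 0) (nat_lit 0) (nat_lit 0x72c34b188c) (nat_lit 6497492976),
  Rx.mk (nat_lit 507) (nat_lit 3) (nat_lit 7) (nat_lit 7) (nat_lit 7) (nat_lit 216) (nat_lit 128) r4_216 r10_128 (nat_lit 0) (nat_lit 0) (nat_lit 0) (nat_lit 0x7d9fcc8598) (nat_lit 1166162400)]
noncomputable def e4_29 : List Rx := [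
  Rx.mk (nat_lit 280) (nat_lit 0) (nat_lit 3) (nat_lit 4) (nat_lit 2) (nat_lit 220) (nat_lit 327) r4_220 r5_327 (nat_lit 0) (nat_lit 0) (nat_lit 0) (nat_lit 0x7037ba9420) (nat_lit 7746800256),
  Rx.mk (nat_lit 282) (nat_lit 2) (nat_lit 3) (nat_lit 4) (nat_lit 3) (nat_lit 222) (nat_lit 331) r4_222 r5_331 (nat_lit 0) (nat_lit 0) (nat_lit 0) (nat_lit 0x7145321b9a) (nat_lit 7230125448),
  Rx.mk (nat_lit 312) (nat_lit 0) (nat_lit 7) (nat_lit 4) (nat_lit 2) (nat_lit 217) (nat_lit 326) r4_217 r5_326 (nat_lit 0) (nat_lit 0) (nat_lit 0) (nat_lit 0x77438f4fc8) (nat_lit 4288141728),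
  Rx.mk (nat_lit 344) (nat_lit 0) (nat_lit 3) (nat_lit 5) (nat_lit 6) (nat_lit 221) (nat_lit 329) r4_221 r5_329 (nat_lit 0) (nat_lit 0) (nat_lit 0) (nat_lit 0x7e80245f3a) (nat_lit 736007688),
  Rx.mk (nat_lit 346) (nat_lit 2) (nat_lit 3) (nat_lit 5) (nat_lit 7) (nat_lit 223) (nat_lit 332) r4_223 r5_332 (nat_lit 0) (nat_lit 0) (nat_lit 0) (nat_lit 0x7edd8ea838) (nat_lit 556893792),
  Rx.mk (nat_lit 376) (nat_lit 0) (nat_lit 7) (nat_lit 5) (nat_lit 6) (nat_lit 218) (nat_lit 328) r4_218 r5_328 (nat_lit 0) (nat_lit 0) (nat_lit 0) (nat_lit 0x7e57d80428) (nat_lit 813275424),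
  Rx.mk (nat_lit 440) (nat_lit 0) (nat_lit 7) (nat_lit 6) (nat_lit 6) (nat_lit 219) (nat_lit 330) r4_219 r5_330 (nat_lit 0) (nat_lit 0) (nat_lit 0) (nat_lit 0x7e42d95428) (nat_lit 853530912)]
noncomputable def e4_30 : List Rx := [
  Rx.mk (nat_lit 90) (nat_lit 2) (nat_lit 3) (nat_lit 1) (nat_lit 7) (nat_lit 228) (nat_lit 357) r4_228 r10_357 (nat_lit 0) (nat_lit 0) (nat_lit 0) (nat_lit 0x7e80048138) (nat_lit 736246368),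
  Rx.mk (nat_lit 344) (nat_lit 0) (nat_lit 3) (nat_lit 5) (nat_lit 6) (nat_lit 226) (nat_lit 358) r4_226 r10_358 (nat_lit 0) (nat_lit 0) (nat_lit 0) (nat_lit 0x7adab11a14) (nat_lit 2525801616),
  Rx.mk (nat_lit 346) (nat_lit 2) (nat_lit 3) (nat_lit 5) (nat_lit 7) (nat_lit 227) (nat_lit 359) r4_227 r10_359 (nat_lit 0) (nat_lit 0) (nat_lit 0) (nat_lit 0x7e63204f98) (nat_lit 791642592)]
noncomputable def e4_31 : List Rx := [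
  Rx.mk (nat_lit 291) (nat_lit 3) (nat_lit 4) (nat_lit 4) (nat_lit 1) (nat_lit 235) (nat_lit 183) r4_235 r5_183 (nat_lit 0) (nat_lit 0) (nat_lit 0) (nat_lit 0x729cb2c238) (nat_lit 6571495008),
  Rx.mk (nat_lit 312) (nat_lit 0) (nat_lit 7) (nat_lit 4) (nat_lit 2) (nat_lit 229) (nat_lit 186) r4_229 r5_186 (nat_lit 0) (nat_lit 0) (nat_lit 0) (nat_lit 0x71fe96849a) (nat_lit 6874655112),
  Rx.mk (nat_lit 315) (nat_lit 3) (nat_lit 7) (nat_lit 4) (nat_lit 3) (nat_lit 238) (nat_lit 187) r4_238 r5_187 (nat_lit 0) (nat_lit 0) (nat_lit 0) (nat_lit 0x7e7092b864) (nat_lit 765859536),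
  Rx.mk (nat_lit 355) (nat_lit 3) (nat_lit 4) (nat_lit 5) (nat_lit 5) (nat_lit 236) (nat_lit 184) r4_236 r5_184 (nat_lit 0) (nat_lit 0) (nat_lit 0) (nat_lit 0x7d7961ec68) (nat_lit 1239821856),
  Rx.mk (nat_lit 376) (nat_lit 0) (nat_lit 7) (nat_lit 5) (nat_lit 6) (nat_lit 230) (nat_lit 188) r4_230 r5_188 (nat_lit 0) (nat_lit 0) (nat_lit 0) (nat_lit 0x7e314decf0) (nat_lit 887170752),
  Rx.mk (nat_lit 379) (nat_lit 3) (nat_lit 7) (nat_lit 5) (nat_lit 7) (nat_lit 239) (nat_lit 189) r4_239 r5_189 (nat_lit 0) (nat_lit 0) (nat_lit 0) (nat_lit 0x7e3b0f90cc) (nat_lit 868463856),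
  Rx.mk (nat_lit 419) (nat_lit 3) (nat_lit 4) (nat_lit 6) (nat_lit 5) (nat_lit 237) (nat_lit 185) r4_237 r5_185 (nat_lit 0) (nat_lit 0) (nat_lit 0) (nat_lit 0x7e05ce051a) (nat_lit 970576776),
  Rx.mk (nat_lit 440) (nat_lit 0) (nat_lit 7) (nat_lit 6) (nat_lit 6) (nat_lit 231) (nat_lit 191) r4_231 r5_191 (nat_lit 0) (nat_lit 0) (nat_lit 0) (nat_lit 0x7e50b6f640) (nat_lit 826944768),
  Rx.mk (nat_lit 443) (nat_lit 3) (nat_lit 7) (nat_lit 6) (nat_lit 7) (nat_lit 240) (nat_lit 192) r4_240 r5_192 (nat_lit 0) (nat_lit 0) (nat_lit 0) (nat_lit 0x7e1ae6f376) (nat_lit 930124728),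
  Rx.mk (nat_lit 472) (nat_lit 0) (nat_lit 3) (nat_lit 7) (nat_lit 6) (nat_lit 233) (nat_lit 181) r4_233 r5_181 (nat_lit 0) (nat_lit 0) (nat_lit 0) (nat_lit 0x7e5fadc6c4) (nat_lit 798252624),
  Rx.mk (nat_lit 474) (nat_lit 2) (nat_lit 3) (nat_lit 7) (nat_lit 7) (nat_lit 234) (nat_lit 182) r4_234 r5_182 (nat_lit 0) (nat_lit 0) (nat_lit 0) (nat_lit 0x7ee10430dc) (nat_lit 550261296),
  Rx.mk (nat_lit 504) (nat_lit 0) (nat_lit 7) (nat_lit 7) (nat_lit 6) (nat_lit 232) (nat_lit 190) r4_232 r5_190 (nat_lit 0) (nat_lit 0) (nat_lit 0) (nat_lit 0x7d90cfb574) (nat_lit 1194899472)]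
noncomputable def e4_32 : List Rx := [
  Rx.mk (nat_lit 280) (nat_lit 0) (nat_lit 3) (nat_lit 4) (nat_lit 2) (nat_lit 244) (nat_lit 22) r4_244 r11_22 (nat_lit 0) (nat_lit 0) (nat_lit 0) (nat_lit 0x6bf3fab462) (nat_lit 9840116520),
  Rx.mk (nat_lit 282) (nat_lit 2) (nat_lit 3) (nat_lit 4) (nat_lit 3) (nat_lit 247) (nat_lit 31) r4_247 r11_31 (nat_lit 0) (nat_lit 0) (nat_lit 0) (nat_lit 0x6e389aa81e) (nat_lit 8726828760),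
  Rx.mk (nat_lit 312) (nat_lit 0) (nat_lit 7) (nat_lit 4) (nat_lit 2) (nat_lit 241) (nat_lit 25) r4_241 r11_25 (nat_lit 0) (nat_lit 0) (nat_lit 0) (nat_lit 0x75f067639a) (nat_lit 4938438024),
  Rx.mk (nat_lit 315) (nat_lit 3) (nat_lit 7) (nat_lit 4) (nat_lit 3) (nat_lit 250) (nat_lit 28) r4_250 r11_28 (nat_lit 0) (nat_lit 0) (nat_lit 0) (nat_lit 0x7dda8599cc) (nat_lit 1053567216),
  Rx.mk (nat_lit 344) (nat_lit 0) (nat_lit 3) (nat_lit 5) (nat_lit 6) (nat_lit 245) (nat_lit 23) r4_245 r11_23 (nat_lit 0) (nat_lit 0) (nat_lit 0) (nat_lit 0x7e8d7ec986) (nat_lit 710404344),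
  Rx.mk (nat_lit 346) (nat_lit 2) (nat_lit 3) (nat_lit 5) (nat_lit 7) (nat_lit 248) (nat_lit 32) r4_248 r11_32 (nat_lit 0) (nat_lit 0) (nat_lit 0) (nat_lit 0x7ef9498c6e) (nat_lit 503724312),
  Rx.mk (nat_lit 376) (nat_lit 0) (nat_lit 7) (nat_lit 5) (nat_lit 6) (nat_lit 242) (nat_lit 26) r4_242 r11_26 (nat_lit 0) (nat_lit 0) (nat_lit 0) (nat_lit 0x7e10d57498) (nat_lit 949429728),
  Rx.mk (nat_lit 379) (nat_lit 3) (nat_lit 7) (nat_lit 5) (nat_lit 7) (nat_lit 251) (nat_lit 29) r4_251 r11_29 (nat_lit 0) (nat_lit 0) (nat_lit 0) (nat_lit 0x7df52e0f2a) (nat_lit 1002453192),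
  Rx.mk (nat_lit 440) (nat_lit 0) (nat_lit 7) (nat_lit 6) (nat_lit 6) (nat_lit 243) (nat_lit 27) r4_243 r11_27 (nat_lit 0) (nat_lit 0) (nat_lit 0) (nat_lit 0x7e356d4af6) (nat_lit 879266232),
  Rx.mk (nat_lit 443) (nat_lit 3) (nat_lit 7) (nat_lit 6) (nat_lit 7) (nat_lit 252) (nat_lit 30) r4_252 r11_30 (nat_lit 0) (nat_lit 0) (nat_lit 0) (nat_lit 0x7e1d7e2a00) (nat_lit 925157376),
  Rx.mk (nat_lit 472) (nat_lit 0) (nat_lit 3) (nat_lit 7) (nat_lit 6) (nat_lit 246) (nat_lit 24) r4_246 r11_24 (nat_lit 0) (nat_lit 0) (nat_lit 0) (nat_lit 0x7d40c096b6) (nat_lit 1348404408),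
  Rx.mk (nat_lit 474) (nat_lit 2) (nat_lit 3) (nat_lit 7) (nat_lit 7) (nat_lit 249) (nat_lit 33) r4_249 r11_33 (nat_lit 0) (nat_lit 0) (nat_lit 0) (nat_lit 0x7ea772ea2a) (nat_lit 660640968)]
noncomputable def e4_33 : List Rx := [
  Rx.mk (nat_lit 289) (nat_lit 1) (nat_lit 4) (nat_lit 4) (nat_lit 1) (nat_lit 256) (nat_lit 308) r4_256 r0_308 (nat_lit 0) (nat_lit 0) (nat_lit 0) (nat_lit 0x6d9ecf456e) (nat_lit 9021713688),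
  Rx.mk (nat_lit 296) (nat_lit 0) (nat_lit 5) (nat_lit 4) (nat_lit 2) (nat_lit 253) (nat_lit 305) r4_253 r0_305 (nat_lit 0) (nat_lit 0) (nat_lit 0) (nat_lit 0x72ea26eaa8) (nat_lit 6422985504),
  Rx.mk (nat_lit 297) (nat_lit 1) (nat_lit 5) (nat_lit 4) (nat_lit 3) (nat_lit 259) (nat_lit 309) r4_259 r0_309 (nat_lit 0) (nat_lit 0) (nat_lit 0) (nat_lit 0x7d715ecca2) (nat_lit 1255184424),
  Rx.mk (nat_lit 353) (nat_lit 1) (nat_lit 4) (nat_lit 5) (nat_lit 5) (nat_lit 257) (nat_lit 310) r4_257 r0_310 (nat_lit 0) (nat_lit 0) (nat_lit 0) (nat_lit 0x7da9e10446) (nat_lit 1146834936),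
  Rx.mk (nat_lit 360) (nat_lit 0) (nat_lit 5) (nat_lit 5) (nat_lit 6) (nat_lit 254) (nat_lit 306) r4_254 r0_306 (nat_lit 0) (nat_lit 0) (nat_lit 0) (nat_lit 0x765dc16d8c) (nat_lit 4728767472),
  Rx.mk (nat_lit 361) (nat_lit 1) (nat_lit 5) (nat_lit 5) (nat_lit 7) (nat_lit 260) (nat_lit 311) r4_260 r0_311 (nat_lit 0) (nat_lit 0) (nat_lit 0) (nat_lit 0x7e65ac46d6) (nat_lit 786759480),
  Rx.mk (nat_lit 417) (nat_lit 1) (nat_lit 4) (nat_lit 6) (nat_lit 5) (nat_lit 258) (nat_lit 312) r4_258 r0_312 (nat_lit 0) (nat_lit 0) (nat_lit 0) (nat_lit 0x76d4fe194a) (nat_lit 4500142920),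
  Rx.mk (nat_lit 424) (nat_lit 0) (nat_lit 5) (nat_lit 6) (nat_lit 6) (nat_lit 255) (nat_lit 307) r4_255 r0_307 (nat_lit 0) (nat_lit 0) (nat_lit 0) (nat_lit 0x7e1c8ad936) (nat_lit 926979768),
  Rx.mk (nat_lit 425) (nat_lit 1) (nat_lit 5) (nat_lit 6) (nat_lit 7) (nat_lit 261) (nat_lit 313) r4_261 r0_313 (nat_lit 0) (nat_lit 0) (nat_lit 0) (nat_lit 0x7e5d9fc7a6) (nat_lit 802192248)]
noncomputable def e4_34 : List Rx := [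
  Rx.mk (nat_lit 289) (nat_lit 1) (nat_lit 4) (nat_lit 4) (nat_lit 1) (nat_lit 262) (nat_lit 174) r4_262 r0_174 (nat_lit 0) (nat_lit 0) (nat_lit 0) (nat_lit 0x67e873f0da) (nat_lit 11825630856),
  Rx.mk (nat_lit 353) (nat_lit 1) (nat_lit 4) (nat_lit 5) (nat_lit 5) (nat_lit 263) (nat_lit 175) r4_263 r0_175 (nat_lit 0) (nat_lit 0) (nat_lit 0) (nat_lit 0x7e1f5bcc24) (nat_lit 921579984),
  Rx.mk (nat_lit 417) (nat_lit 1) (nat_lit 4) (nat_lit 6) (nat_lit 5) (nat_lit 264) (nat_lit 176) r4_264 r0_176 (nat_lit 0) (nat_lit 0) (nat_lit 0) (nat_lit 0x75d49f6036) (nat_lit 4991705784)]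
noncomputable def e4_35 : List Rx := [
  Rx.mk (nat_lit 289) (nat_lit 1) (nat_lit 4) (nat_lit 4) (nat_lit 1) (nat_lit 265) (nat_lit 416) r4_265 r6_416 (nat_lit 0) (nat_lit 0) (nat_lit 0) (nat_lit 0x735924da5a) (nat_lit 6210169992),
  Rx.mk (nat_lit 297) (nat_lit 1) (nat_lit 5) (nat_lit 4) (nat_lit 3) (nat_lit 268) (nat_lit 417) r4_268 r6_417 (nat_lit 0) (nat_lit 0) (nat_lit 0) (nat_lit 0x7db5f0c33e) (nat_lit 1123708248),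
  Rx.mk (nat_lit 353) (nat_lit 1) (nat_lit 4) (nat_lit 5) (nat_lit 5) (nat_lit 266) (nat_lit 418) r4_266 r6_418 (nat_lit 0) (nat_lit 0) (nat_lit 0) (nat_lit 0x7db466bbe0) (nat_lit 1126659456),
  Rx.mk (nat_lit 361) (nat_lit 1) (nat_lit 5) (nat_lit 5) (nat_lit 7) (nat_lit 269) (nat_lit 419) r4_269 r6_419 (nat_lit 0) (nat_lit 0) (nat_lit 0) (nat_lit 0x7dde701b20) (nat_lit 1046058624),
  Rx.mk (nat_lit 417) (nat_lit 1) (nat_lit 4) (nat_lit 6) (nat_lit 5) (nat_lit 267) (nat_lit 420) r4_267 r6_420 (nat_lit 0) (nat_lit 0) (nat_lit 0) (nat_lit 0x7d7cbb56ce) (nat_lit 1233399960),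
  Rx.mk (nat_lit 425) (nat_lit 1) (nat_lit 5) (nat_lit 6) (nat_lit 7) (nat_lit 270) (nat_lit 421) r4_270 r6_421 (nat_lit 0) (nat_lit 0) (nat_lit 0) (nat_lit 0x7deda7c796) (nat_lit 1016880696)]
noncomputable def e4_36 : List Rx := [
  Rx.mk (nat_lit 421) (nat_lit 5) (nat_lit 4) (nat_lit 6) (nat_lit 5) (nat_lit 271) (nat_lit 187) r4_271 r2_187 (nat_lit 0) (nat_lit 0) (nat_lit 0) (nat_lit 0x7dd5e96394) (nat_lit 1062406800),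
  Rx.mk (nat_lit 437) (nat_lit 5) (nat_lit 6) (nat_lit 6) (nat_lit 7) (nat_lit 272) (nat_lit 188) r4_272 r2_188 (nat_lit 0) (nat_lit 0) (nat_lit 0) (nat_lit 0x7de99d6840) (nat_lit 1024627968)]
noncomputable def e4_37 : List Rx := [
  Rx.mk (nat_lit 421) (nat_lit 5) (nat_lit 4) (nat_lit 6) (nat_lit 5) (nat_lit 273) (nat_lit 167) r4_273 r8_167 (nat_lit 0) (nat_lit 0) (nat_lit 0) (nat_lit 0x7db654dcfc) (nat_lit 1122958512),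
  Rx.mk (nat_lit 429) (nat_lit 5) (nat_lit 5) (nat_lit 6) (nat_lit 7) (nat_lit 274) (nat_lit 168) r4_274 r8_168 (nat_lit 0) (nat_lit 0) (nat_lit 0) (nat_lit 0x7de3238fe4) (nat_lit 1037044944),
  Rx.mk (nat_lit 437) (nat_lit 5) (nat_lit 6) (nat_lit 6) (nat_lit 7) (nat_lit 275) (nat_lit 169) r4_275 r8_169 (nat_lit 0) (nat_lit 0) (nat_lit 0) (nat_lit 0x7ddff0631a) (nat_lit 1043180424)]
noncomputable def e4_38 : List Rx := [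
  Rx.mk (nat_lit 181) (nat_lit 5) (nat_lit 6) (nat_lit 2) (nat_lit 7) (nat_lit 278) (nat_lit 135) r4_278 r8_135 (nat_lit 0) (nat_lit 0) (nat_lit 0) (nat_lit 0x7deeb9d674) (nat_lit 1014828048),
  Rx.mk (nat_lit 421) (nat_lit 5) (nat_lit 4) (nat_lit 6) (nat_lit 5) (nat_lit 276) (nat_lit 133) r4_276 r8_133 (nat_lit 0) (nat_lit 0) (nat_lit 0) (nat_lit 0x7cdf86cab4) (nat_lit 1534824720),
  Rx.mk (nat_lit 437) (nat_lit 5) (nat_lit 6) (nat_lit 6) (nat_lit 7) (nat_lit 277) (nat_lit 134) r4_277 r8_134 (nat_lit 0) (nat_lit 0) (nat_lit 0) (nat_lit 0x7debb286ec) (nat_lit 1020634992)]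
noncomputable def e4_39 : List Rx := [
  Rx.mk (nat_lit 289) (nat_lit 1) (nat_lit 4) (nat_lit 4) (nat_lit 1) (nat_lit 281) (nat_lit 187) r4_281 r1_187 (nat_lit 0) (nat_lit 0) (nat_lit 0) (nat_lit 0x680620b5f0) (nat_lit 11768732352),
  Rx.mk (nat_lit 353) (nat_lit 1) (nat_lit 4) (nat_lit 5) (nat_lit 5) (nat_lit 282) (nat_lit 188) r4_282 r1_188 (nat_lit 0) (nat_lit 0) (nat_lit 0) (nat_lit 0x7cc75d8d60) (nat_lit 1581151104),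
  Rx.mk (nat_lit 417) (nat_lit 1) (nat_lit 4) (nat_lit 6) (nat_lit 5) (nat_lit 283) (nat_lit 189) r4_283 r1_189 (nat_lit 0) (nat_lit 0) (nat_lit 0) (nat_lit 0x79612a93f6) (nat_lit 3249667512),
  Rx.mk (nat_lit 421) (nat_lit 5) (nat_lit 4) (nat_lit 6) (nat_lit 5) (nat_lit 279) (nat_lit 190) r4_279 r1_190 (nat_lit 0) (nat_lit 0) (nat_lit 0) (nat_lit 0x7deba2c7e8) (nat_lit 1020752928),
  Rx.mk (nat_lit 437) (nat_lit 5) (nat_lit 6) (nat_lit 6) (nat_lit 7) (nat_lit 280) (nat_lit 191) r4_280 r1_191 (nat_lit 0) (nat_lit 0) (nat_lit 0) (nat_lit 0x7965ed07ca) (nat_lit 3240541512)]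
noncomputable def e4_40 : List Rx := [
  Rx.mk (nat_lit 289) (nat_lit 1) (nat_lit 4) (nat_lit 4) (nat_lit 1) (nat_lit 287) (nat_lit 341) r4_287 r7_341 (nat_lit 0) (nat_lit 0) (nat_lit 0) (nat_lit 0x5c57ff43b6) (nat_lit 17501997240),
  Rx.mk (nat_lit 297) (nat_lit 1) (nat_lit 5) (nat_lit 4) (nat_lit 3) (nat_lit 290) (nat_lit 342) r4_290 r7_342 (nat_lit 0) (nat_lit 0) (nat_lit 0) (nat_lit 0x7d03f443b8) (nat_lit 1464978528),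
  Rx.mk (nat_lit 353) (nat_lit 1) (nat_lit 4) (nat_lit 5) (nat_lit 5) (nat_lit 288) (nat_lit 343) r4_288 r7_343 (nat_lit 0) (nat_lit 0) (nat_lit 0) (nat_lit 0x7d836d6ba6) (nat_lit 1220561784),
  Rx.mk (nat_lit 361) (nat_lit 1) (nat_lit 5) (nat_lit 5) (nat_lit 7) (nat_lit 291) (nat_lit 344) r4_291 r7_344 (nat_lit 0) (nat_lit 0) (nat_lit 0) (nat_lit 0x7df0f9b274) (nat_lit 1010514960),
  Rx.mk (nat_lit 417) (nat_lit 1) (nat_lit 4) (nat_lit 6) (nat_lit 5) (nat_lit 289) (nat_lit 345) r4_289 r7_345 (nat_lit 0) (nat_lit 0) (nat_lit 0) (nat_lit 0x7d43fd22ea) (nat_lit 1342198728),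
  Rx.mk (nat_lit 421) (nat_lit 5) (nat_lit 4) (nat_lit 6) (nat_lit 5) (nat_lit 284) (nat_lit 338) r4_284 r7_338 (nat_lit 0) (nat_lit 0) (nat_lit 0) (nat_lit 0x7d63fb62e6) (nat_lit 1280855160),
  Rx.mk (nat_lit 425) (nat_lit 1) (nat_lit 5) (nat_lit 6) (nat_lit 7) (nat_lit 292) (nat_lit 346) r4_292 r7_346 (nat_lit 0) (nat_lit 0) (nat_lit 0) (nat_lit 0x7de07e1a3e) (nat_lit 1042119000),
  Rx.mk (nat_lit 429) (nat_lit 5) (nat_lit 5) (nat_lit 6) (nat_lit 7) (nat_lit 285) (nat_lit 339) r4_285 r7_339 (nat_lit 0) (nat_lit 0) (nat_lit 0) (nat_lit 0x7de0ae173e) (nat_lit 1041759576),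
  Rx.mk (nat_lit 437) (nat_lit 5) (nat_lit 6) (nat_lit 6) (nat_lit 7) (nat_lit 286) (nat_lit 340) r4_286 r7_340 (nat_lit 0) (nat_lit 0) (nat_lit 0) (nat_lit 0x7dec75dab6) (nat_lit 1019172024)]
noncomputable def e4_41 : List Rx := [
  Rx.mk (nat_lit 296) (nat_lit 0) (nat_lit 5) (nat_lit 4) (nat_lit 2) (nat_lit 293) (nat_lit 296) r4_293 r1_296 (nat_lit 0) (nat_lit 0) (nat_lit 0) (nat_lit 0x6a1ffcf612) (nat_lit 10737441000),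
  Rx.mk (nat_lit 297) (nat_lit 1) (nat_lit 5) (nat_lit 4) (nat_lit 3) (nat_lit 296) (nat_lit 299) r4_296 r1_299 (nat_lit 0) (nat_lit 0) (nat_lit 0) (nat_lit 0x7ce68fda1c) (nat_lit 1521335088),
  Rx.mk (nat_lit 360) (nat_lit 0) (nat_lit 5) (nat_lit 5) (nat_lit 6) (nat_lit 294) (nat_lit 297) r4_294 r1_297 (nat_lit 0) (nat_lit 0) (nat_lit 0) (nat_lit 0x7b9136b104) (nat_lit 2175834960),
  Rx.mk (nat_lit 361) (nat_lit 1) (nat_lit 5) (nat_lit 5) (nat_lit 7) (nat_lit 297) (nat_lit 300) r4_297 r1_300 (nat_lit 0) (nat_lit 0) (nat_lit 0) (nat_lit 0x7e35b126b8) (nat_lit 878757984),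
  Rx.mk (nat_lit 424) (nat_lit 0) (nat_lit 5) (nat_lit 6) (nat_lit 6) (nat_lit 295) (nat_lit 298) r4_295 r1_298 (nat_lit 0) (nat_lit 0) (nat_lit 0) (nat_lit 0x7df1a98776) (nat_lit 1009198008),
  Rx.mk (nat_lit 425) (nat_lit 1) (nat_lit 5) (nat_lit 6) (nat_lit 7) (nat_lit 298) (nat_lit 301) r4_298 r1_301 (nat_lit 0) (nat_lit 0) (nat_lit 0) (nat_lit 0x7db1b0c742) (nat_lit 1131857064)]
noncomputable def e4_42 : List Rx := [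
  Rx.mk (nat_lit 328) (nat_lit 0) (nat_lit 1) (nat_lit 5) (nat_lit 6) (nat_lit 300) (nat_lit 335) r4_300 r2_335 (nat_lit 0) (nat_lit 0) (nat_lit 0) (nat_lit 0x7dc103120e) (nat_lit 1102479768),
  Rx.mk (nat_lit 329) (nat_lit 1) (nat_lit 1) (nat_lit 5) (nat_lit 7) (nat_lit 302) (nat_lit 337) r4_302 r2_337 (nat_lit 0) (nat_lit 0) (nat_lit 0) (nat_lit 0x7de76c8b50) (nat_lit 1028828736),
  Rx.mk (nat_lit 330) (nat_lit 2) (nat_lit 1) (nat_lit 5) (nat_lit 7) (nat_lit 303) (nat_lit 338) r4_303 r2_338 (nat_lit 0) (nat_lit 0) (nat_lit 0) (nat_lit 0x7df18be950) (nat_lit 1009419840),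
  Rx.mk (nat_lit 360) (nat_lit 0) (nat_lit 5) (nat_lit 5) (nat_lit 6) (nat_lit 299) (nat_lit 334) r4_299 r2_334 (nat_lit 0) (nat_lit 0) (nat_lit 0) (nat_lit 0x7dad9708e2) (nat_lit 1139719464),
  Rx.mk (nat_lit 361) (nat_lit 1) (nat_lit 5) (nat_lit 5) (nat_lit 7) (nat_lit 301) (nat_lit 336) r4_301 r2_336 (nat_lit 0) (nat_lit 0) (nat_lit 0) (nat_lit 0x7de0307f18) (nat_lit 1042700256)]
noncomputable def e4_43 : List Rx := [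
  Rx.mk (nat_lit 297) (nat_lit 1) (nat_lit 5) (nat_lit 4) (nat_lit 3) (nat_lit 304) (nat_lit 181) r4_304 r7_181 (nat_lit 0) (nat_lit 0) (nat_lit 0) (nat_lit 0x7de112f0f0) (nat_lit 1041004224),
  Rx.mk (nat_lit 361) (nat_lit 1) (nat_lit 5) (nat_lit 5) (nat_lit 7) (nat_lit 305) (nat_lit 182) r4_305 r7_182 (nat_lit 0) (nat_lit 0) (nat_lit 0) (nat_lit 0x7df79428c6) (nat_lit 997853688),
  Rx.mk (nat_lit 425) (nat_lit 1) (nat_lit 5) (nat_lit 6) (nat_lit 7) (nat_lit 306) (nat_lit 183) r4_306 r7_183 (nat_lit 0) (nat_lit 0) (nat_lit 0) (nat_lit 0x7df6d07502) (nat_lit 999319464)]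
noncomputable def e4_44 : List Rx := [
  Rx.mk (nat_lit 329) (nat_lit 1) (nat_lit 1) (nat_lit 5) (nat_lit 7) (nat_lit 308) (nat_lit 306) r4_308 r8_306 (nat_lit 0) (nat_lit 0) (nat_lit 0) (nat_lit 0x7de5612c08) (nat_lit 1032748704),
  Rx.mk (nat_lit 361) (nat_lit 1) (nat_lit 5) (nat_lit 5) (nat_lit 7) (nat_lit 307) (nat_lit 305) r4_307 r8_305 (nat_lit 0) (nat_lit 0) (nat_lit 0) (nat_lit 0x7dd68859a4) (nat_lit 1061216208)]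
noncomputable def e4_45 : List Rx := [
  Rx.mk (nat_lit 74) (nat_lit 2) (nat_lit 1) (nat_lit 1) (nat_lit 7) (nat_lit 314) (nat_lit 311) r4_314 r8_311 (nat_lit 0) (nat_lit 0) (nat_lit 0) (nat_lit 0x7dc5e563e4) (nat_lit 1093115088),
  Rx.mk (nat_lit 328) (nat_lit 0) (nat_lit 1) (nat_lit 5) (nat_lit 6) (nat_lit 310) (nat_lit 312) r4_310 r8_312 (nat_lit 0) (nat_lit 0) (nat_lit 0) (nat_lit 0x7bf32fb112) (nat_lit 1987982568),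
  Rx.mk (nat_lit 329) (nat_lit 1) (nat_lit 1) (nat_lit 5) (nat_lit 7) (nat_lit 312) (nat_lit 314) r4_312 r8_314 (nat_lit 0) (nat_lit 0) (nat_lit 0) (nat_lit 0x7ddd4f0d32) (nat_lit 1048223592),
  Rx.mk (nat_lit 330) (nat_lit 2) (nat_lit 1) (nat_lit 5) (nat_lit 7) (nat_lit 313) (nat_lit 316) r4_313 r8_316 (nat_lit 0) (nat_lit 0) (nat_lit 0) (nat_lit 0x7deb594c80) (nat_lit 1021303296),
  Rx.mk (nat_lit 360) (nat_lit 0) (nat_lit 5) (nat_lit 5) (nat_lit 6) (nat_lit 309) (nat_lit 313) r4_309 r8_313 (nat_lit 0) (nat_lit 0) (nat_lit 0) (nat_lit 0x7cf628a080) (nat_lit 1491429888),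
  Rx.mk (nat_lit 361) (nat_lit 1) (nat_lit 5) (nat_lit 5) (nat_lit 7) (nat_lit 311) (nat_lit 315) r4_311 r8_315 (nat_lit 0) (nat_lit 0) (nat_lit 0) (nat_lit 0x7de1440dde) (nat_lit 1040636376)]
noncomputable def e4_46 : List Rx := [
  Rx.mk (nat_lit 288) (nat_lit 0) (nat_lit 4) (nat_lit 4) (nat_lit 0) (nat_lit 327) (nat_lit 327) r4_327 r4_327 (nat_lit 0) (nat_lit 0) (nat_lit 0) (nat_lit 0x60139186d6) (nat_lit 15669788472),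
  Rx.mk (nat_lit 289) (nat_lit 1) (nat_lit 4) (nat_lit 4) (nat_lit 1) (nat_lit 335) (nat_lit 335) r4_335 r4_335 (nat_lit 0) (nat_lit 0) (nat_lit 0) (nat_lit 0x7ad70354f4) (nat_lit 2532855312),
  Rx.mk (nat_lit 296) (nat_lit 0) (nat_lit 5) (nat_lit 4) (nat_lit 2) (nat_lit 330) (nat_lit 328) r4_330 r4_328 (nat_lit 0) (nat_lit 0) (nat_lit 0) (nat_lit 0x778fc9abd6) (nat_lit 4141982520),
  Rx.mk (nat_lit 297) (nat_lit 1) (nat_lit 5) (nat_lit 4) (nat_lit 3) (nat_lit 338) (nat_lit 336) r4_338 r4_336 (nat_lit 0) (nat_lit 0) (nat_lit 0) (nat_lit 0x7e3c95786c) (nat_lit 865543536),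
  Rx.mk (nat_lit 312) (nat_lit 0) (nat_lit 7) (nat_lit 4) (nat_lit 2) (nat_lit 333) (nat_lit 329) r4_333 r4_329 (nat_lit 0) (nat_lit 0) (nat_lit 0) (nat_lit 0x7be34caf52) (nat_lit 2018443752),
  Rx.mk (nat_lit 313) (nat_lit 1) (nat_lit 7) (nat_lit 4) (nat_lit 3) (nat_lit 341) (nat_lit 337) r4_341 r4_337 (nat_lit 0) (nat_lit 0) (nat_lit 0) (nat_lit 0x7e4a6b3b02) (nat_lit 839016360),
  Rx.mk (nat_lit 352) (nat_lit 0) (nat_lit 4) (nat_lit 5) (nat_lit 4) (nat_lit 328) (nat_lit 330) r4_328 r4_330 (nat_lit 0) (nat_lit 0) (nat_lit 0) (nat_lit 0x778fc9abd6) (nat_lit 4141982520),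
  Rx.mk (nat_lit 353) (nat_lit 1) (nat_lit 4) (nat_lit 5) (nat_lit 5) (nat_lit 336) (nat_lit 338) r4_336 r4_338 (nat_lit 0) (nat_lit 0) (nat_lit 0) (nat_lit 0x7e3c95786c) (nat_lit 865543536),
  Rx.mk (nat_lit 360) (nat_lit 0) (nat_lit 5) (nat_lit 5) (nat_lit 6) (nat_lit 331) (nat_lit 331) r4_331 r4_331 (nat_lit 0) (nat_lit 0) (nat_lit 0) (nat_lit 0x7e24555c86) (nat_lit 912041208),
  Rx.mk (nat_lit 361) (nat_lit 1) (nat_lit 5) (nat_lit 5) (nat_lit 7) (nat_lit 339) (nat_lit 339) r4_339 r4_339 (nat_lit 0) (nat_lit 0) (nat_lit 0) (nat_lit 0x7dd9750ad6) (nat_lit 1055608632),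
  Rx.mk (nat_lit 376) (nat_lit 0) (nat_lit 7) (nat_lit 5) (nat_lit 6) (nat_lit 334) (nat_lit 332) r4_334 r4_332 (nat_lit 0) (nat_lit 0) (nat_lit 0) (nat_lit 0x7e41ede2e0) (nat_lit 855294336),
  Rx.mk (nat_lit 377) (nat_lit 1) (nat_lit 7) (nat_lit 5) (nat_lit 7) (nat_lit 342) (nat_lit 340) r4_342 r4_340 (nat_lit 0) (nat_lit 0) (nat_lit 0) (nat_lit 0x7de0cb556a) (nat_lit 1041540552),
  Rx.mk (nat_lit 416) (nat_lit 0) (nat_lit 4) (nat_lit 6) (nat_lit 4) (nat_lit 329) (nat_lit 333) r4_329 r4_333 (nat_lit 0) (nat_lit 0) (nat_lit 0) (nat_lit 0x7be34caf52) (nat_lit 2018443752),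
  Rx.mk (nat_lit 417) (nat_lit 1) (nat_lit 4) (nat_lit 6) (nat_lit 5) (nat_lit 337) (nat_lit 341) r4_337 r4_341 (nat_lit 0) (nat_lit 0) (nat_lit 0) (nat_lit 0x7e4a6b3b02) (nat_lit 839016360),
  Rx.mk (nat_lit 424) (nat_lit 0) (nat_lit 5) (nat_lit 6) (nat_lit 6) (nat_lit 332) (nat_lit 334) r4_332 r4_334 (nat_lit 0) (nat_lit 0) (nat_lit 0) (nat_lit 0x7e41ede2e0) (nat_lit 855294336),
  Rx.mk (nat_lit 425) (nat_lit 1) (nat_lit 5) (nat_lit 6) (nat_lit 7) (nat_lit 340) (nat_lit 342) r4_340 r4_342 (nat_lit 0) (nat_lit 0) (nat_lit 0) (nat_lit 0x7de0cb556a) (nat_lit 1041540552)]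
noncomputable def e4_47 : List Rx := [
  Rx.mk (nat_lit 289) (nat_lit 1) (nat_lit 4) (nat_lit 4) (nat_lit 1) (nat_lit 349) (nat_lit 161) r4_349 r4_161 (nat_lit 0) (nat_lit 0) (nat_lit 0) (nat_lit 0x73692e19b6) (nat_lit 6179422392),
  Rx.mk (nat_lit 313) (nat_lit 1) (nat_lit 7) (nat_lit 4) (nat_lit 3) (nat_lit 352) (nat_lit 164) r4_352 r4_164 (nat_lit 0) (nat_lit 0) (nat_lit 0) (nat_lit 0x7e9dbce594) (nat_lit 679260816),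
  Rx.mk (nat_lit 353) (nat_lit 1) (nat_lit 4) (nat_lit 5) (nat_lit 5) (nat_lit 350) (nat_lit 162) r4_350 r4_162 (nat_lit 0) (nat_lit 0) (nat_lit 0) (nat_lit 0x7e146cbb20) (nat_lit 942544512),
  Rx.mk (nat_lit 377) (nat_lit 1) (nat_lit 7) (nat_lit 5) (nat_lit 7) (nat_lit 353) (nat_lit 165) r4_353 r4_165 (nat_lit 0) (nat_lit 0) (nat_lit 0) (nat_lit 0x7e61448d56) (nat_lit 795205944),
  Rx.mk (nat_lit 417) (nat_lit 1) (nat_lit 4) (nat_lit 6) (nat_lit 5) (nat_lit 351) (nat_lit 163) r4_351 r4_163 (nat_lit 0) (nat_lit 0) (nat_lit 0) (nat_lit 0x7e740fc090) (nat_lit 759170880),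
  Rx.mk (nat_lit 441) (nat_lit 1) (nat_lit 7) (nat_lit 6) (nat_lit 7) (nat_lit 354) (nat_lit 166) r4_354 r4_166 (nat_lit 0) (nat_lit 0) (nat_lit 0) (nat_lit 0x7e69115082) (nat_lit 780250536)]
noncomputable def e4_48 : List Rx := [
  Rx.mk (nat_lit 289) (nat_lit 1) (nat_lit 4) (nat_lit 4) (nat_lit 1) (nat_lit 355) (nat_lit 339) r4_355 r9_339 (nat_lit 0) (nat_lit 0) (nat_lit 0) (nat_lit 0x79366ebfde) (nat_lit 3331604952),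
  Rx.mk (nat_lit 297) (nat_lit 1) (nat_lit 5) (nat_lit 4) (nat_lit 3) (nat_lit 358) (nat_lit 340) r4_358 r9_340 (nat_lit 0) (nat_lit 0) (nat_lit 0) (nat_lit 0x7ddad0951c) (nat_lit 1053005616),
  Rx.mk (nat_lit 313) (nat_lit 1) (nat_lit 7) (nat_lit 4) (nat_lit 3) (nat_lit 361) (nat_lit 341) r4_361 r9_341 (nat_lit 0) (nat_lit 0) (nat_lit 0) (nat_lit 0x7dbf61cc24) (nat_lit 1105605072),
  Rx.mk (nat_lit 353) (nat_lit 1) (nat_lit 4) (nat_lit 5) (nat_lit 5) (nat_lit 356) (nat_lit 342) r4_356 r9_342 (nat_lit 0) (nat_lit 0) (nat_lit 0) (nat_lit 0x7dac309f4a) (nat_lit 1142403912),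
  Rx.mk (nat_lit 361) (nat_lit 1) (nat_lit 5) (nat_lit 5) (nat_lit 7) (nat_lit 359) (nat_lit 343) r4_359 r9_343 (nat_lit 0) (nat_lit 0) (nat_lit 0) (nat_lit 0x7de7bc6652) (nat_lit 1028230632),
  Rx.mk (nat_lit 377) (nat_lit 1) (nat_lit 7) (nat_lit 5) (nat_lit 7) (nat_lit 362) (nat_lit 344) r4_362 r9_344 (nat_lit 0) (nat_lit 0) (nat_lit 0) (nat_lit 0x7de1a88796) (nat_lit 1039883832),
  Rx.mk (nat_lit 417) (nat_lit 1) (nat_lit 4) (nat_lit 6) (nat_lit 5) (nat_lit 357) (nat_lit 345) r4_357 r9_345 (nat_lit 0) (nat_lit 0) (nat_lit 0) (nat_lit 0x7dca67bbba) (nat_lit 1084469256),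
  Rx.mk (nat_lit 425) (nat_lit 1) (nat_lit 5) (nat_lit 6) (nat_lit 7) (nat_lit 360) (nat_lit 346) r4_360 r9_346 (nat_lit 0) (nat_lit 0) (nat_lit 0) (nat_lit 0x7dd0b316fe) (nat_lit 1072400472)]
noncomputable def e4_49 : List Rx := [
  Rx.mk (nat_lit 313) (nat_lit 1) (nat_lit 7) (nat_lit 4) (nat_lit 3) (nat_lit 363) (nat_lit 353) r4_363 r10_353 (nat_lit 0) (nat_lit 0) (nat_lit 0) (nat_lit 0x7e35dac41e) (nat_lit 878446296),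
  Rx.mk (nat_lit 377) (nat_lit 1) (nat_lit 7) (nat_lit 5) (nat_lit 7) (nat_lit 364) (nat_lit 354) r4_364 r10_354 (nat_lit 0) (nat_lit 0) (nat_lit 0) (nat_lit 0x7df12eef20) (nat_lit 1010116224),
  Rx.mk (nat_lit 441) (nat_lit 1) (nat_lit 7) (nat_lit 6) (nat_lit 7) (nat_lit 365) (nat_lit 355) r4_365 r10_355 (nat_lit 0) (nat_lit 0) (nat_lit 0) (nat_lit 0x7df06e3b2c) (nat_lit 1011559536)]
noncomputable def e4_50 : List Rx := [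
  Rx.mk (nat_lit 288) (nat_lit 0) (nat_lit 4) (nat_lit 4) (nat_lit 0) (nat_lit 381) (nat_lit 191) r4_381 r10_191 (nat_lit 0) (nat_lit 0) (nat_lit 0) (nat_lit 0x38e6b45bd8) (nat_lit 34899093216),
  Rx.mk (nat_lit 289) (nat_lit 1) (nat_lit 4) (nat_lit 4) (nat_lit 1) (nat_lit 390) (nat_lit 192) r4_390 r10_192 (nat_lit 0) (nat_lit 0) (nat_lit 0) (nat_lit 0x7c966bbcae) (nat_lit 1674997272),
  Rx.mk (nat_lit 291) (nat_lit 3) (nat_lit 4) (nat_lit 4) (nat_lit 1) (nat_lit 396) (nat_lit 193) r4_396 r10_193 (nat_lit 0) (nat_lit 0) (nat_lit 0) (nat_lit 0x7ccea598d8) (nat_lit 1567189728),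
  Rx.mk (nat_lit 296) (nat_lit 0) (nat_lit 5) (nat_lit 4) (nat_lit 2) (nat_lit 384) (nat_lit 199) r4_384 r10_199 (nat_lit 0) (nat_lit 0) (nat_lit 0) (nat_lit 0x7ba0e835dc) (nat_lit 2145744432),
  Rx.mk (nat_lit 297) (nat_lit 1) (nat_lit 5) (nat_lit 4) (nat_lit 3) (nat_lit 392) (nat_lit 200) r4_392 r10_200 (nat_lit 0) (nat_lit 0) (nat_lit 0) (nat_lit 0x7ded13b0d8) (nat_lit 1017989856),
  Rx.mk (nat_lit 299) (nat_lit 3) (nat_lit 5) (nat_lit 4) (nat_lit 3) (nat_lit 399) (nat_lit 201) r4_399 r10_201 (nat_lit 0) (nat_lit 0) (nat_lit 0) (nat_lit 0x7dd7e563d2) (nat_lit 1058601960),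
  Rx.mk (nat_lit 312) (nat_lit 0) (nat_lit 7) (nat_lit 4) (nat_lit 2) (nat_lit 387) (nat_lit 207) r4_387 r10_207 (nat_lit 0) (nat_lit 0) (nat_lit 0) (nat_lit 0x7c3386eb5e) (nat_lit 1864615896),
  Rx.mk (nat_lit 313) (nat_lit 1) (nat_lit 7) (nat_lit 4) (nat_lit 3) (nat_lit 394) (nat_lit 208) r4_394 r10_208 (nat_lit 0) (nat_lit 0) (nat_lit 0) (nat_lit 0x7de439be80) (nat_lit 1034961408),
  Rx.mk (nat_lit 352) (nat_lit 0) (nat_lit 4) (nat_lit 5) (nat_lit 4) (nat_lit 382) (nat_lit 194) r4_382 r10_194 (nat_lit 0) (nat_lit 0) (nat_lit 0) (nat_lit 0x7d28250088) (nat_lit 1395587232),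
  Rx.mk (nat_lit 355) (nat_lit 3) (nat_lit 4) (nat_lit 5) (nat_lit 5) (nat_lit 397) (nat_lit 195) r4_397 r10_195 (nat_lit 0) (nat_lit 0) (nat_lit 0) (nat_lit 0x7de473dade) (nat_lit 1034526168),
  Rx.mk (nat_lit 360) (nat_lit 0) (nat_lit 5) (nat_lit 5) (nat_lit 6) (nat_lit 385) (nat_lit 202) r4_385 r10_202 (nat_lit 0) (nat_lit 0) (nat_lit 0) (nat_lit 0x7dce487daa) (nat_lit 1077033672),
  Rx.mk (nat_lit 363) (nat_lit 3) (nat_lit 5) (nat_lit 5) (nat_lit 7) (nat_lit 400) (nat_lit 203) r4_400 r10_203 (nat_lit 0) (nat_lit 0) (nat_lit 0) (nat_lit 0x7df3488d84) (nat_lit 1006089552),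
  Rx.mk (nat_lit 376) (nat_lit 0) (nat_lit 7) (nat_lit 5) (nat_lit 6) (nat_lit 388) (nat_lit 209) r4_388 r10_209 (nat_lit 0) (nat_lit 0) (nat_lit 0) (nat_lit 0x7dcf0cf162) (nat_lit 1075562280),
  Rx.mk (nat_lit 416) (nat_lit 0) (nat_lit 4) (nat_lit 6) (nat_lit 4) (nat_lit 383) (nat_lit 196) r4_383 r10_196 (nat_lit 0) (nat_lit 0) (nat_lit 0) (nat_lit 0x7d70d954fa) (nat_lit 1256184072),
  Rx.mk (nat_lit 417) (nat_lit 1) (nat_lit 4) (nat_lit 6) (nat_lit 5) (nat_lit 391) (nat_lit 197) r4_391 r10_197 (nat_lit 0) (nat_lit 0) (nat_lit 0) (nat_lit 0x7de4ce9532) (nat_lit 1033846632),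
  Rx.mk (nat_lit 419) (nat_lit 3) (nat_lit 4) (nat_lit 6) (nat_lit 5) (nat_lit 398) (nat_lit 198) r4_398 r10_198 (nat_lit 0) (nat_lit 0) (nat_lit 0) (nat_lit 0x7dcd522d10) (nat_lit 1078878528),
  Rx.mk (nat_lit 424) (nat_lit 0) (nat_lit 5) (nat_lit 6) (nat_lit 6) (nat_lit 386) (nat_lit 204) r4_386 r10_204 (nat_lit 0) (nat_lit 0) (nat_lit 0) (nat_lit 0x7df210a104) (nat_lit 1008425808),
  Rx.mk (nat_lit 425) (nat_lit 1) (nat_lit 5) (nat_lit 6) (nat_lit 7) (nat_lit 393) (nat_lit 205) r4_393 r10_205 (nat_lit 0) (nat_lit 0) (nat_lit 0) (nat_lit 0x7df01c204e) (nat_lit 1012174488),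
  Rx.mk (nat_lit 427) (nat_lit 3) (nat_lit 5) (nat_lit 6) (nat_lit 7) (nat_lit 401) (nat_lit 206) r4_401 r10_206 (nat_lit 0) (nat_lit 0) (nat_lit 0) (nat_lit 0x7df70fd10c) (nat_lit 998844912),
  Rx.mk (nat_lit 504) (nat_lit 0) (nat_lit 7) (nat_lit 7) (nat_lit 6) (nat_lit 389) (nat_lit 210) r4_389 r10_210 (nat_lit 0) (nat_lit 0) (nat_lit 0) (nat_lit 0x7df1be8626) (nat_lit 1009040760),
  Rx.mk (nat_lit 505) (nat_lit 1) (nat_lit 7) (nat_lit 7) (nat_lit 7) (nat_lit 395) (nat_lit 211) r4_395 r10_211 (nat_lit 0) (nat_lit 0) (nat_lit 0) (nat_lit 0x7df5724ae6) (nat_lit 1001942136)]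
noncomputable def e4_51 : List Rx := [
  Rx.mk (nat_lit 283) (nat_lit 3) (nat_lit 3) (nat_lit 4) (nat_lit 3) (nat_lit 63) (nat_lit 28) r4_63 r12_28 (nat_lit 0) (nat_lit 0) (nat_lit 0) (nat_lit 0x7bf02e0130) (nat_lit 1993747392),
  Rx.mk (nat_lit 315) (nat_lit 3) (nat_lit 7) (nat_lit 4) (nat_lit 3) (nat_lit 61) (nat_lit 30) r4_61 r12_30 (nat_lit 0) (nat_lit 0) (nat_lit 0) (nat_lit 0x7e3684f97a) (nat_lit 877171464),
  Rx.mk (nat_lit 443) (nat_lit 3) (nat_lit 7) (nat_lit 6) (nat_lit 7) (nat_lit 62) (nat_lit 31) r4_62 r12_31 (nat_lit 0) (nat_lit 0) (nat_lit 0) (nat_lit 0x7eac08c0c8) (nat_lit 651849120),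
  Rx.mk (nat_lit 447) (nat_lit 7) (nat_lit 7) (nat_lit 6) (nat_lit 7) (nat_lit 58) (nat_lit 33) r4_58 r12_33 (nat_lit 0) (nat_lit 0) (nat_lit 0) (nat_lit 0x7e581e7fc0) (nat_lit 812747520),
  Rx.mk (nat_lit 472) (nat_lit 0) (nat_lit 3) (nat_lit 7) (nat_lit 6) (nat_lit 59) (nat_lit 27) r4_59 r12_27 (nat_lit 0) (nat_lit 0) (nat_lit 0) (nat_lit 0x7e7c8d78ac) (nat_lit 742890096),
  Rx.mk (nat_lit 474) (nat_lit 2) (nat_lit 3) (nat_lit 7) (nat_lit 7) (nat_lit 60) (nat_lit 32) r4_60 r12_32 (nat_lit 0) (nat_lit 0) (nat_lit 0) (nat_lit 0x7edd36edb4) (nat_lit 557550864),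
  Rx.mk (nat_lit 475) (nat_lit 3) (nat_lit 3) (nat_lit 7) (nat_lit 7) (nat_lit 64) (nat_lit 29) r4_64 r12_29 (nat_lit 0) (nat_lit 0) (nat_lit 0) (nat_lit 0x7d62493e0a) (nat_lit 1284106824)]
noncomputable def e4_52 : List Rx := [
  Rx.mk (nat_lit 322) (nat_lit 2) (nat_lit 0) (nat_lit 5) (nat_lit 5) (nat_lit 90) (nat_lit 66) r4_90 r12_66 (nat_lit 0) (nat_lit 0) (nat_lit 0) (nat_lit 0x7f16fd1118) (nat_lit 446775264),
  Rx.mk (nat_lit 344) (nat_lit 0) (nat_lit 3) (nat_lit 5) (nat_lit 6) (nat_lit 89) (nat_lit 67) r4_89 r12_67 (nat_lit 0) (nat_lit 0) (nat_lit 0) (nat_lit 0x7e028ed910) (nat_lit 976802112),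
  Rx.mk (nat_lit 346) (nat_lit 2) (nat_lit 3) (nat_lit 5) (nat_lit 7) (nat_lit 91) (nat_lit 69) r4_91 r12_69 (nat_lit 0) (nat_lit 0) (nat_lit 0) (nat_lit 0x7eff7569aa) (nat_lit 491891400),
  Rx.mk (nat_lit 347) (nat_lit 3) (nat_lit 3) (nat_lit 5) (nat_lit 7) (nat_lit 92) (nat_lit 68) r4_92 r12_68 (nat_lit 0) (nat_lit 0) (nat_lit 0) (nat_lit 0x7e502f9eb6) (nat_lit 827958456)]
noncomputable def e4_53 : List Rx := [
  Rx.mk (nat_lit 291) (nat_lit 3) (nat_lit 4) (nat_lit 4) (nat_lit 1) (nat_lit 200) (nat_lit 124) r4_200 r12_124 (nat_lit 0) (nat_lit 0) (nat_lit 0) (nat_lit 0x6c41dd75e8) (nat_lit 9690778656),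
  Rx.mk (nat_lit 315) (nat_lit 3) (nat_lit 7) (nat_lit 4) (nat_lit 3) (nat_lit 202) (nat_lit 125) r4_202 r12_125 (nat_lit 0) (nat_lit 0) (nat_lit 0) (nat_lit 0x7e00441dbe) (nat_lit 981196632),
  Rx.mk (nat_lit 419) (nat_lit 3) (nat_lit 4) (nat_lit 6) (nat_lit 5) (nat_lit 201) (nat_lit 131) r4_201 r12_131 (nat_lit 0) (nat_lit 0) (nat_lit 0) (nat_lit 0x7a87b0ca6c) (nat_lit 2684947824),
  Rx.mk (nat_lit 423) (nat_lit 7) (nat_lit 4) (nat_lit 6) (nat_lit 5) (nat_lit 195) (nat_lit 130) r4_195 r12_130 (nat_lit 0) (nat_lit 0) (nat_lit 0) (nat_lit 0x7bc8cf5742) (nat_lit 2069234856),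
  Rx.mk (nat_lit 439) (nat_lit 7) (nat_lit 6) (nat_lit 6) (nat_lit 7) (nat_lit 196) (nat_lit 133) r4_196 r12_133 (nat_lit 0) (nat_lit 0) (nat_lit 0) (nat_lit 0x7dfbbbc648) (nat_lit 989887392),
  Rx.mk (nat_lit 443) (nat_lit 3) (nat_lit 7) (nat_lit 6) (nat_lit 7) (nat_lit 203) (nat_lit 132) r4_203 r12_132 (nat_lit 0) (nat_lit 0) (nat_lit 0) (nat_lit 0x7e76bad5dc) (nat_lit 754054704),
  Rx.mk (nat_lit 472) (nat_lit 0) (nat_lit 3) (nat_lit 7) (nat_lit 6) (nat_lit 198) (nat_lit 128) r4_198 r12_128 (nat_lit 0) (nat_lit 0) (nat_lit 0) (nat_lit 0x79e6f15704) (nat_lit 2993165136),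
  Rx.mk (nat_lit 474) (nat_lit 2) (nat_lit 3) (nat_lit 7) (nat_lit 7) (nat_lit 199) (nat_lit 129) r4_199 r12_129 (nat_lit 0) (nat_lit 0) (nat_lit 0) (nat_lit 0x7e8a3edd88) (nat_lit 716635296),
  Rx.mk (nat_lit 504) (nat_lit 0) (nat_lit 7) (nat_lit 7) (nat_lit 6) (nat_lit 197) (nat_lit 126) r4_197 r12_126 (nat_lit 0) (nat_lit 0) (nat_lit 0) (nat_lit 0x7853b78c34) (nat_lit 3766308624),
  Rx.mk (nat_lit 507) (nat_lit 3) (nat_lit 7) (nat_lit 7) (nat_lit 7) (nat_lit 204) (nat_lit 127) r4_204 r12_127 (nat_lit 0) (nat_lit 0) (nat_lit 0) (nat_lit 0x7e302d3efc) (nat_lit 889332912)]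
noncomputable def e4_54 : List Rx := [
  Rx.mk (nat_lit 344) (nat_lit 0) (nat_lit 3) (nat_lit 5) (nat_lit 6) (nat_lit 224) (nat_lit 304) r4_224 r12_304 (nat_lit 0) (nat_lit 0) (nat_lit 0) (nat_lit 0x7b83692dea) (nat_lit 2202300360),
  Rx.mk (nat_lit 346) (nat_lit 2) (nat_lit 3) (nat_lit 5) (nat_lit 7) (nat_lit 225) (nat_lit 305) r4_225 r12_305 (nat_lit 0) (nat_lit 0) (nat_lit 0) (nat_lit 0x7b9dce877a) (nat_lit 2151688968)]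
noncomputable def e4_55 : List Rx := [
  Rx.mk (nat_lit 288) (nat_lit 0) (nat_lit 4) (nat_lit 4) (nat_lit 0) (nat_lit 315) (nat_lit 299) r4_315 r3_299 (nat_lit 0) (nat_lit 0) (nat_lit 0) (nat_lit 0x72d96d1656) (nat_lit 6455055672),
  Rx.mk (nat_lit 289) (nat_lit 1) (nat_lit 4) (nat_lit 4) (nat_lit 1) (nat_lit 321) (nat_lit 305) r4_321 r3_305 (nat_lit 0) (nat_lit 0) (nat_lit 0) (nat_lit 0x7824867f74) (nat_lit 3856793616),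
  Rx.mk (nat_lit 312) (nat_lit 0) (nat_lit 7) (nat_lit 4) (nat_lit 2) (nat_lit 318) (nat_lit 300) r4_318 r3_300 (nat_lit 0) (nat_lit 0) (nat_lit 0) (nat_lit 0x7a41dba804) (nat_lit 2818844496),
  Rx.mk (nat_lit 313) (nat_lit 1) (nat_lit 7) (nat_lit 4) (nat_lit 3) (nat_lit 324) (nat_lit 306) r4_324 r3_306 (nat_lit 0) (nat_lit 0) (nat_lit 0) (nat_lit 0x7e5e87d924) (nat_lit 800454096),
  Rx.mk (nat_lit 352) (nat_lit 0) (nat_lit 4) (nat_lit 5) (nat_lit 4) (nat_lit 316) (nat_lit 301) r4_316 r3_301 (nat_lit 0) (nat_lit 0) (nat_lit 0) (nat_lit 0x790eef77fa) (nat_lit 3407336712),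
  Rx.mk (nat_lit 353) (nat_lit 1) (nat_lit 4) (nat_lit 5) (nat_lit 5) (nat_lit 322) (nat_lit 307) r4_322 r3_307 (nat_lit 0) (nat_lit 0) (nat_lit 0) (nat_lit 0x7cbf2d1070) (nat_lit 1596853440),
  Rx.mk (nat_lit 376) (nat_lit 0) (nat_lit 7) (nat_lit 5) (nat_lit 6) (nat_lit 319) (nat_lit 302) r4_319 r3_302 (nat_lit 0) (nat_lit 0) (nat_lit 0) (nat_lit 0x7e0ef89268) (nat_lit 953001504),
  Rx.mk (nat_lit 377) (nat_lit 1) (nat_lit 7) (nat_lit 5) (nat_lit 7) (nat_lit 325) (nat_lit 308) r4_325 r3_308 (nat_lit 0) (nat_lit 0) (nat_lit 0) (nat_lit 0x7eb281d930) (nat_lit 639437760),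
  Rx.mk (nat_lit 416) (nat_lit 0) (nat_lit 4) (nat_lit 6) (nat_lit 4) (nat_lit 317) (nat_lit 303) r4_317 r3_303 (nat_lit 0) (nat_lit 0) (nat_lit 0) (nat_lit 0x79c6919d20) (nat_lit 3055238784),
  Rx.mk (nat_lit 417) (nat_lit 1) (nat_lit 4) (nat_lit 6) (nat_lit 5) (nat_lit 323) (nat_lit 309) r4_323 r3_309 (nat_lit 0) (nat_lit 0) (nat_lit 0) (nat_lit 0x7cb07e3b6c) (nat_lit 1625006448),
  Rx.mk (nat_lit 440) (nat_lit 0) (nat_lit 7) (nat_lit 6) (nat_lit 6) (nat_lit 320) (nat_lit 304) r4_320 r3_304 (nat_lit 0) (nat_lit 0) (nat_lit 0) (nat_lit 0x7c8fa6290e) (nat_lit 1687981464),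
  Rx.mk (nat_lit 441) (nat_lit 1) (nat_lit 7) (nat_lit 6) (nat_lit 7) (nat_lit 326) (nat_lit 310) r4_326 r3_310 (nat_lit 0) (nat_lit 0) (nat_lit 0) (nat_lit 0x7ea6169ff0) (nat_lit 663249600)]
noncomputable def e4_56 : List Rx := [
  Rx.mk (nat_lit 312) (nat_lit 0) (nat_lit 7) (nat_lit 4) (nat_lit 2) (nat_lit 343) (nat_lit 296) r4_343 r12_296 (nat_lit 0) (nat_lit 0) (nat_lit 0) (nat_lit 0x752fda0d30) (nat_lit 5307636672),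
  Rx.mk (nat_lit 313) (nat_lit 1) (nat_lit 7) (nat_lit 4) (nat_lit 3) (nat_lit 346) (nat_lit 299) r4_346 r12_299 (nat_lit 0) (nat_lit 0) (nat_lit 0) (nat_lit 0x79f1f206ee) (nat_lit 2972068632),
  Rx.mk (nat_lit 376) (nat_lit 0) (nat_lit 7) (nat_lit 5) (nat_lit 6) (nat_lit 344) (nat_lit 297) r4_344 r12_297 (nat_lit 0) (nat_lit 0) (nat_lit 0) (nat_lit 0x7defaae762) (nat_lit 1013022504),
  Rx.mk (nat_lit 377) (nat_lit 1) (nat_lit 7) (nat_lit 5) (nat_lit 7) (nat_lit 347) (nat_lit 300) r4_347 r12_300 (nat_lit 0) (nat_lit 0) (nat_lit 0) (nat_lit 0x7e5fb6663a) (nat_lit 798188040),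
  Rx.mk (nat_lit 440) (nat_lit 0) (nat_lit 7) (nat_lit 6) (nat_lit 6) (nat_lit 345) (nat_lit 298) r4_345 r12_298 (nat_lit 0) (nat_lit 0) (nat_lit 0) (nat_lit 0x7ddf492d8e) (nat_lit 1044432792),
  Rx.mk (nat_lit 441) (nat_lit 1) (nat_lit 7) (nat_lit 6) (nat_lit 7) (nat_lit 348) (nat_lit 301) r4_348 r12_301 (nat_lit 0) (nat_lit 0) (nat_lit 0) (nat_lit 0x7e24ff91e2) (nat_lit 910766376)]
noncomputable def e4_57 : List Rx := [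
  Rx.mk (nat_lit 288) (nat_lit 0) (nat_lit 4) (nat_lit 4) (nat_lit 0) (nat_lit 366) (nat_lit 169) r4_366 r12_169 (nat_lit 0) (nat_lit 0) (nat_lit 0) (nat_lit 0x656168c414) (nat_lit 13066269840),
  Rx.mk (nat_lit 289) (nat_lit 1) (nat_lit 4) (nat_lit 4) (nat_lit 1) (nat_lit 373) (nat_lit 170) r4_373 r12_170 (nat_lit 0) (nat_lit 0) (nat_lit 0) (nat_lit 0x7171c2f260) (nat_lit 7144675200),
  Rx.mk (nat_lit 291) (nat_lit 3) (nat_lit 4) (nat_lit 4) (nat_lit 1) (nat_lit 378) (nat_lit 171) r4_378 r12_171 (nat_lit 0) (nat_lit 0) (nat_lit 0) (nat_lit 0x6e2f0d2100) (nat_lit 8745145344),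
  Rx.mk (nat_lit 312) (nat_lit 0) (nat_lit 7) (nat_lit 4) (nat_lit 2) (nat_lit 369) (nat_lit 177) r4_369 r12_177 (nat_lit 0) (nat_lit 0) (nat_lit 0) (nat_lit 0x6fa2424c3a) (nat_lit 8033393160),
  Rx.mk (nat_lit 313) (nat_lit 1) (nat_lit 7) (nat_lit 4) (nat_lit 3) (nat_lit 375) (nat_lit 178) r4_375 r12_178 (nat_lit 0) (nat_lit 0) (nat_lit 0) (nat_lit 0x7dd9dfe428) (nat_lit 1054808352),
  Rx.mk (nat_lit 352) (nat_lit 0) (nat_lit 4) (nat_lit 5) (nat_lit 4) (nat_lit 367) (nat_lit 172) r4_367 r12_172 (nat_lit 0) (nat_lit 0) (nat_lit 0) (nat_lit 0x70f7fe6f22) (nat_lit 7378151976),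
  Rx.mk (nat_lit 355) (nat_lit 3) (nat_lit 4) (nat_lit 5) (nat_lit 5) (nat_lit 379) (nat_lit 173) r4_379 r12_173 (nat_lit 0) (nat_lit 0) (nat_lit 0) (nat_lit 0x7dad2f8f5a) (nat_lit 1140494472),
  Rx.mk (nat_lit 376) (nat_lit 0) (nat_lit 7) (nat_lit 5) (nat_lit 6) (nat_lit 370) (nat_lit 179) r4_370 r12_179 (nat_lit 0) (nat_lit 0) (nat_lit 0) (nat_lit 0x7e34af96d2) (nat_lit 880687080),
  Rx.mk (nat_lit 416) (nat_lit 0) (nat_lit 4) (nat_lit 6) (nat_lit 4) (nat_lit 368) (nat_lit 174) r4_368 r12_174 (nat_lit 0) (nat_lit 0) (nat_lit 0) (nat_lit 0x754ac05eb0) (nat_lit 5256059328),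
  Rx.mk (nat_lit 417) (nat_lit 1) (nat_lit 4) (nat_lit 6) (nat_lit 5) (nat_lit 374) (nat_lit 175) r4_374 r12_175 (nat_lit 0) (nat_lit 0) (nat_lit 0) (nat_lit 0x7d15e364b4) (nat_lit 1430591760),
  Rx.mk (nat_lit 419) (nat_lit 3) (nat_lit 4) (nat_lit 6) (nat_lit 5) (nat_lit 380) (nat_lit 176) r4_380 r12_176 (nat_lit 0) (nat_lit 0) (nat_lit 0) (nat_lit 0x7e2ee053cc) (nat_lit 891826416),
  Rx.mk (nat_lit 440) (nat_lit 0) (nat_lit 7) (nat_lit 6) (nat_lit 6) (nat_lit 371) (nat_lit 182) r4_371 r12_182 (nat_lit 0) (nat_lit 0) (nat_lit 0) (nat_lit 0x7e20a9174e) (nat_lit 919083672),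
  Rx.mk (nat_lit 441) (nat_lit 1) (nat_lit 7) (nat_lit 6) (nat_lit 7) (nat_lit 376) (nat_lit 183) r4_376 r12_183 (nat_lit 0) (nat_lit 0) (nat_lit 0) (nat_lit 0x7e4606e14c) (nat_lit 847437552),
  Rx.mk (nat_lit 504) (nat_lit 0) (nat_lit 7) (nat_lit 7) (nat_lit 6) (nat_lit 372) (nat_lit 180) r4_372 r12_180 (nat_lit 0) (nat_lit 0) (nat_lit 0) (nat_lit 0x7d88ecd3aa) (nat_lit 1210020552),
  Rx.mk (nat_lit 505) (nat_lit 1) (nat_lit 7) (nat_lit 7) (nat_lit 7) (nat_lit 377) (nat_lit 181) r4_377 r12_181 (nat_lit 0) (nat_lit 0) (nat_lit 0) (nat_lit 0x7e0fdfe3f2) (nat_lit 951268968)]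
noncomputable def e4 : List (List Rx) := [e4_0, e4_1, e4_2, e4_3, e4_4, e4_5, e4_6, e4_7, e4_8, e4_9, e4_10, e4_11, e4_12, e4_13, e4_14, e4_15, e4_16, e4_17, e4_18, e4_19, e4_20, e4_21, e4_22, e4_23, e4_24, e4_25, e4_26, e4_27, e4_28, e4_29, e4_30, e4_31, e4_32, e4_33, e4_34, e4_35, e4_36, e4_37, e4_38, e4_39, e4_40, e4_41, e4_42, e4_43, e4_44, e4_45, e4_46, e4_47, e4_48, e4_49, e4_50, e4_51, e4_52, e4_53, e4_54, e4_55, e4_56, e4_57]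
noncomputable def e5_0 : List Rx := [
  Rx.mk (nat_lit 116) (nat_lit 4) (nat_lit 6) (nat_lit 1) (nat_lit 6) (nat_lit 65) (nat_lit 71) r3_65 r0_71 (nat_lit 0) (nat_lit 0) (nat_lit 0) (nat_lit 0x8000000000) (nat_lit 0)]
noncomputable def e5_1 : List Rx := [
  Rx.mk (nat_lit 116) (nat_lit 4) (nat_lit 6) (nat_lit 1) (nat_lit 6) (nat_lit 66) (nat_lit 66) r3_66 r1_66 (nat_lit 0) (nat_lit 0) (nat_lit 0) (nat_lit 0x8000000000) (nat_lit 0),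
  Rx.mk (nat_lit 372) (nat_lit 4) (nat_lit 6) (nat_lit 5) (nat_lit 6) (nat_lit 67) (nat_lit 67) r3_67 r1_67 (nat_lit 0) (nat_lit 0) (nat_lit 0) (nat_lit 0x7cedd90582) (nat_lit 1507365288),
  Rx.mk (nat_lit 374) (nat_lit 6) (nat_lit 6) (nat_lit 5) (nat_lit 7) (nat_lit 68) (nat_lit 68) r3_68 r1_68 (nat_lit 0) (nat_lit 0) (nat_lit 0) (nat_lit 0x7c2bd226b2) (nat_lit 1879391592)]
noncomputable def e5_2 : List Rx := [
  Rx.mk (nat_lit 342) (nat_lit 6) (nat_lit 2) (nat_lit 5) (nat_lit 7) (nat_lit 20) (nat_lit 60) r3_20 r2_60 (nat_lit 0) (nat_lit 0) (nat_lit 0) (nat_lit 0x7f3a2d5df0) (nat_lit 379304640),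
  Rx.mk (nat_lit 372) (nat_lit 4) (nat_lit 6) (nat_lit 5) (nat_lit 6) (nat_lit 21) (nat_lit 59) r3_21 r2_59 (nat_lit 0) (nat_lit 0) (nat_lit 0) (nat_lit 0x7fc66c7972) (nat_lit 110396520),
  Rx.mk (nat_lit 374) (nat_lit 6) (nat_lit 6) (nat_lit 5) (nat_lit 7) (nat_lit 22) (nat_lit 61) r3_22 r2_61 (nat_lit 0) (nat_lit 0) (nat_lit 0) (nat_lit 0x7f19302de4) (nat_lit 442557648)]
noncomputable def e5_3 : List Rx := [
  Rx.mk (nat_lit 39) (nat_lit 7) (nat_lit 4) (nat_lit 0) (nat_lit 1) (nat_lit 59) (nat_lit 61) r3_59 r3_61 (nat_lit 0) (nat_lit 0) (nat_lit 0) (nat_lit 0x8000000000) (nat_lit 0),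
  Rx.mk (nat_lit 52) (nat_lit 4) (nat_lit 6) (nat_lit 0) (nat_lit 2) (nat_lit 61) (nat_lit 59) r3_61 r3_59 (nat_lit 0) (nat_lit 0) (nat_lit 0) (nat_lit 0x8000000000) (nat_lit 0),
  Rx.mk (nat_lit 55) (nat_lit 7) (nat_lit 6) (nat_lit 0) (nat_lit 3) (nat_lit 63) (nat_lit 63) r3_63 r3_63 (nat_lit 0) (nat_lit 0) (nat_lit 0) (nat_lit 0x7ff39646a8) (nat_lit 23800608),
  Rx.mk (nat_lit 103) (nat_lit 7) (nat_lit 4) (nat_lit 1) (nat_lit 5) (nat_lit 60) (nat_lit 62) r3_60 r3_62 (nat_lit 0) (nat_lit 0) (nat_lit 0) (nat_lit 0x7fff25cda4) (nat_lit 1634256),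
  Rx.mk (nat_lit 116) (nat_lit 4) (nat_lit 6) (nat_lit 1) (nat_lit 6) (nat_lit 62) (nat_lit 60) r3_62 r3_60 (nat_lit 0) (nat_lit 0) (nat_lit 0) (nat_lit 0x7fff25cda4) (nat_lit 1634256),
  Rx.mk (nat_lit 119) (nat_lit 7) (nat_lit 6) (nat_lit 1) (nat_lit 7) (nat_lit 64) (nat_lit 64) r3_64 r3_64 (nat_lit 0) (nat_lit 0) (nat_lit 0) (nat_lit 0x7fa7df8260) (nat_lit 168974208)]
noncomputable def e5_4 : List Rx := [
  Rx.mk (nat_lit 103) (nat_lit 7) (nat_lit 4) (nat_lit 1) (nat_lit 5) (nat_lit 69) (nat_lit 66) r3_69 r4_66 (nat_lit 0) (nat_lit 0) (nat_lit 0) (nat_lit 0x7f9a3d1c94) (nat_lit 195116688),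
  Rx.mk (nat_lit 116) (nat_lit 4) (nat_lit 6) (nat_lit 1) (nat_lit 6) (nat_lit 70) (nat_lit 65) r3_70 r4_65 (nat_lit 0) (nat_lit 0) (nat_lit 0) (nat_lit 0x7ffc241dc2) (nat_lit 7399080),
  Rx.mk (nat_lit 119) (nat_lit 7) (nat_lit 6) (nat_lit 1) (nat_lit 7) (nat_lit 71) (nat_lit 67) r3_71 r4_67 (nat_lit 0) (nat_lit 0) (nat_lit 0) (nat_lit 0x7fe190a714) (nat_lit 58355856)]
noncomputable def e5_5 : List Rx := [
  Rx.mk (nat_lit 59) (nat_lit 3) (nat_lit 7) (nat_lit 0) (nat_lit 3) (nat_lit 36) (nat_lit 25) r3_36 r3_25 (nat_lit 0) (nat_lit 0) (nat_lit 0) (nat_lit 0x8000000000) (nat_lit 0),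
  Rx.mk (nat_lit 152) (nat_lit 0) (nat_lit 3) (nat_lit 2) (nat_lit 6) (nat_lit 28) (nat_lit 351) r3_28 r3_351 (nat_lit 0) (nat_lit 0) (nat_lit 0) (nat_lit 0x8000000000) (nat_lit 0),
  Rx.mk (nat_lit 154) (nat_lit 2) (nat_lit 3) (nat_lit 2) (nat_lit 7) (nat_lit 29) (nat_lit 35) r3_29 r3_35 (nat_lit 0) (nat_lit 0) (nat_lit 0) (nat_lit 0x773bf2899c) (nat_lit 4302737712),
  Rx.mk (nat_lit 155) (nat_lit 3) (nat_lit 3) (nat_lit 2) (nat_lit 7) (nat_lit 31) (nat_lit 33) r3_31 r3_33 (nat_lit 0) (nat_lit 0) (nat_lit 0) (nat_lit 0x773bf2899c) (nat_lit 4302737712),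
  Rx.mk (nat_lit 187) (nat_lit 3) (nat_lit 7) (nat_lit 2) (nat_lit 7) (nat_lit 37) (nat_lit 27) r3_37 r3_27 (nat_lit 0) (nat_lit 0) (nat_lit 0) (nat_lit 0x7ff328cd80) (nat_lit 24620544),
  Rx.mk (nat_lit 231) (nat_lit 7) (nat_lit 4) (nat_lit 3) (nat_lit 5) (nat_lit 32) (nat_lit 23) r3_32 r3_23 (nat_lit 0) (nat_lit 0) (nat_lit 0) (nat_lit 0x8000000000) (nat_lit 0),
  Rx.mk (nat_lit 247) (nat_lit 7) (nat_lit 6) (nat_lit 3) (nat_lit 7) (nat_lit 34) (nat_lit 30) r3_34 r3_30 (nat_lit 0) (nat_lit 0) (nat_lit 0) (nat_lit 0x7ff328cd80) (nat_lit 24620544),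
  Rx.mk (nat_lit 251) (nat_lit 3) (nat_lit 7) (nat_lit 3) (nat_lit 7) (nat_lit 38) (nat_lit 26) r3_38 r3_26 (nat_lit 0) (nat_lit 0) (nat_lit 0) (nat_lit 0x7e6e03615c) (nat_lit 770767920),
  Rx.mk (nat_lit 255) (nat_lit 7) (nat_lit 7) (nat_lit 3) (nat_lit 7) (nat_lit 39) (nat_lit 24) r3_39 r3_24 (nat_lit 0) (nat_lit 0) (nat_lit 0) (nat_lit 0x7e6e03615c) (nat_lit 770767920),
  Rx.mk (nat_lit 278) (nat_lit 6) (nat_lit 2) (nat_lit 4) (nat_lit 3) (nat_lit 25) (nat_lit 36) r3_25 r3_36 (nat_lit 0) (nat_lit 0) (nat_lit 0) (nat_lit 0x8000000000) (nat_lit 0),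
  Rx.mk (nat_lit 386) (nat_lit 2) (nat_lit 0) (nat_lit 6) (nat_lit 5) (nat_lit 23) (nat_lit 32) r3_23 r3_32 (nat_lit 0) (nat_lit 0) (nat_lit 0) (nat_lit 0x8000000000) (nat_lit 0),
  Rx.mk (nat_lit 402) (nat_lit 2) (nat_lit 2) (nat_lit 6) (nat_lit 7) (nat_lit 24) (nat_lit 39) r3_24 r3_39 (nat_lit 0) (nat_lit 0) (nat_lit 0) (nat_lit 0x7e6e03615c) (nat_lit 770767920),
  Rx.mk (nat_lit 406) (nat_lit 6) (nat_lit 2) (nat_lit 6) (nat_lit 7) (nat_lit 26) (nat_lit 38) r3_26 r3_38 (nat_lit 0) (nat_lit 0) (nat_lit 0) (nat_lit 0x7e6e03615c) (nat_lit 770767920),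
  Rx.mk (nat_lit 410) (nat_lit 2) (nat_lit 3) (nat_lit 6) (nat_lit 7) (nat_lit 30) (nat_lit 34) r3_30 r3_34 (nat_lit 0) (nat_lit 0) (nat_lit 0) (nat_lit 0x7ff328cd80) (nat_lit 24620544),
  Rx.mk (nat_lit 470) (nat_lit 6) (nat_lit 2) (nat_lit 7) (nat_lit 7) (nat_lit 27) (nat_lit 37) r3_27 r3_37 (nat_lit 0) (nat_lit 0) (nat_lit 0) (nat_lit 0x7ff328cd80) (nat_lit 24620544),
  Rx.mk (nat_lit 500) (nat_lit 4) (nat_lit 6) (nat_lit 7) (nat_lit 6) (nat_lit 351) (nat_lit 28) r3_351 r3_28 (nat_lit 0) (nat_lit 0) (nat_lit 0) (nat_lit 0x8000000000) (nat_lit 0),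
  Rx.mk (nat_lit 502) (nat_lit 6) (nat_lit 6) (nat_lit 7) (nat_lit 7) (nat_lit 33) (nat_lit 31) r3_33 r3_31 (nat_lit 0) (nat_lit 0) (nat_lit 0) (nat_lit 0x773bf2899c) (nat_lit 4302737712),
  Rx.mk (nat_lit 503) (nat_lit 7) (nat_lit 6) (nat_lit 7) (nat_lit 7) (nat_lit 35) (nat_lit 29) r3_35 r3_29 (nat_lit 0) (nat_lit 0) (nat_lit 0) (nat_lit 0x773bf2899c) (nat_lit 4302737712)]
noncomputable def e5_6 : List Rx := [
  Rx.mk (nat_lit 278) (nat_lit 6) (nat_lit 2) (nat_lit 4) (nat_lit 3) (nat_lit 2) (nat_lit 49) r3_2 r0_49 (nat_lit 0) (nat_lit 0) (nat_lit 0) (nat_lit 0x7ef7fa0168) (nat_lit 506237472),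
  Rx.mk (nat_lit 308) (nat_lit 4) (nat_lit 6) (nat_lit 4) (nat_lit 2) (nat_lit 4) (nat_lit 43) r3_4 r0_43 (nat_lit 0) (nat_lit 0) (nat_lit 0) (nat_lit 0x8000000000) (nat_lit 0),
  Rx.mk (nat_lit 310) (nat_lit 6) (nat_lit 6) (nat_lit 4) (nat_lit 3) (nat_lit 6) (nat_lit 46) r3_6 r0_46 (nat_lit 0) (nat_lit 0) (nat_lit 0) (nat_lit 0x8000000000) (nat_lit 0),
  Rx.mk (nat_lit 386) (nat_lit 2) (nat_lit 0) (nat_lit 6) (nat_lit 5) (nat_lit 0) (nat_lit 48) r3_0 r0_48 (nat_lit 0) (nat_lit 0) (nat_lit 0) (nat_lit 0x6dba6c2b84) (nat_lit 8968768848),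
  Rx.mk (nat_lit 402) (nat_lit 2) (nat_lit 2) (nat_lit 6) (nat_lit 7) (nat_lit 1) (nat_lit 51) r3_1 r0_51 (nat_lit 0) (nat_lit 0) (nat_lit 0) (nat_lit 0x7b04e536a8) (nat_lit 2444880672),
  Rx.mk (nat_lit 406) (nat_lit 6) (nat_lit 2) (nat_lit 6) (nat_lit 7) (nat_lit 3) (nat_lit 50) r3_3 r0_50 (nat_lit 0) (nat_lit 0) (nat_lit 0) (nat_lit 0x7f3f0caff6) (nat_lit 369962424),
  Rx.mk (nat_lit 500) (nat_lit 4) (nat_lit 6) (nat_lit 7) (nat_lit 6) (nat_lit 5) (nat_lit 44) r3_5 r0_44 (nat_lit 0) (nat_lit 0) (nat_lit 0) (nat_lit 0x789f9ccd94) (nat_lit 3620786832),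
  Rx.mk (nat_lit 502) (nat_lit 6) (nat_lit 6) (nat_lit 7) (nat_lit 7) (nat_lit 7) (nat_lit 47) r3_7 r0_47 (nat_lit 0) (nat_lit 0) (nat_lit 0) (nat_lit 0x7c4bfa640e) (nat_lit 1817733528),
  Rx.mk (nat_lit 503) (nat_lit 7) (nat_lit 6) (nat_lit 7) (nat_lit 7) (nat_lit 8) (nat_lit 45) r3_8 r0_45 (nat_lit 0) (nat_lit 0) (nat_lit 0) (nat_lit 0x7aaf35b1f6) (nat_lit 2609173944)]
noncomputable def e5_7 : List Rx := [
  Rx.mk (nat_lit 278) (nat_lit 6) (nat_lit 2) (nat_lit 4) (nat_lit 3) (nat_lit 10) (nat_lit 46) r3_10 r1_46 (nat_lit 0) (nat_lit 0) (nat_lit 0) (nat_lit 0x7c72d45648) (nat_lit 1743240096),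
  Rx.mk (nat_lit 308) (nat_lit 4) (nat_lit 6) (nat_lit 4) (nat_lit 2) (nat_lit 13) (nat_lit 39) r3_13 r1_39 (nat_lit 0) (nat_lit 0) (nat_lit 0) (nat_lit 0x8000000000) (nat_lit 0),
  Rx.mk (nat_lit 310) (nat_lit 6) (nat_lit 6) (nat_lit 4) (nat_lit 3) (nat_lit 16) (nat_lit 43) r3_16 r1_43 (nat_lit 0) (nat_lit 0) (nat_lit 0) (nat_lit 0x7d89c9a5dc) (nat_lit 1208366640),
  Rx.mk (nat_lit 342) (nat_lit 6) (nat_lit 2) (nat_lit 5) (nat_lit 7) (nat_lit 11) (nat_lit 47) r3_11 r1_47 (nat_lit 0) (nat_lit 0) (nat_lit 0) (nat_lit 0x7f3b894830) (nat_lit 376698816),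
  Rx.mk (nat_lit 372) (nat_lit 4) (nat_lit 6) (nat_lit 5) (nat_lit 6) (nat_lit 14) (nat_lit 40) r3_14 r1_40 (nat_lit 0) (nat_lit 0) (nat_lit 0) (nat_lit 0x7ecc02e106) (nat_lit 590536440),
  Rx.mk (nat_lit 374) (nat_lit 6) (nat_lit 6) (nat_lit 5) (nat_lit 7) (nat_lit 17) (nat_lit 44) r3_17 r1_44 (nat_lit 0) (nat_lit 0) (nat_lit 0) (nat_lit 0x7ed104b0e4) (nat_lit 580935888),
  Rx.mk (nat_lit 402) (nat_lit 2) (nat_lit 2) (nat_lit 6) (nat_lit 7) (nat_lit 9) (nat_lit 49) r3_9 r1_49 (nat_lit 0) (nat_lit 0) (nat_lit 0) (nat_lit 0x7e2ce9f334) (nat_lit 895589136),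
  Rx.mk (nat_lit 406) (nat_lit 6) (nat_lit 2) (nat_lit 6) (nat_lit 7) (nat_lit 12) (nat_lit 48) r3_12 r1_48 (nat_lit 0) (nat_lit 0) (nat_lit 0) (nat_lit 0x7ee53b2d68) (nat_lit 542179872),
  Rx.mk (nat_lit 500) (nat_lit 4) (nat_lit 6) (nat_lit 7) (nat_lit 6) (nat_lit 15) (nat_lit 41) r3_15 r1_41 (nat_lit 0) (nat_lit 0) (nat_lit 0) (nat_lit 0x7e2853bc9c) (nat_lit 904383792),
  Rx.mk (nat_lit 502) (nat_lit 6) (nat_lit 6) (nat_lit 7) (nat_lit 7) (nat_lit 18) (nat_lit 45) r3_18 r1_45 (nat_lit 0) (nat_lit 0) (nat_lit 0) (nat_lit 0x7e3f27cf44) (nat_lit 860612688),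
  Rx.mk (nat_lit 503) (nat_lit 7) (nat_lit 6) (nat_lit 7) (nat_lit 7) (nat_lit 19) (nat_lit 42) r3_19 r1_42 (nat_lit 0) (nat_lit 0) (nat_lit 0) (nat_lit 0x7efab4d5b8) (nat_lit 501003360)]
noncomputable def e5_8 : List Rx := [
  Rx.mk (nat_lit 278) (nat_lit 6) (nat_lit 2) (nat_lit 4) (nat_lit 3) (nat_lit 42) (nat_lit 36) r3_42 r4_36 (nat_lit 0) (nat_lit 0) (nat_lit 0) (nat_lit 0x7db0793abc) (nat_lit 1134190512),
  Rx.mk (nat_lit 386) (nat_lit 2) (nat_lit 0) (nat_lit 6) (nat_lit 5) (nat_lit 40) (nat_lit 34) r3_40 r4_34 (nat_lit 0) (nat_lit 0) (nat_lit 0) (nat_lit 0x7f3136ed60) (nat_lit 396489600),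
  Rx.mk (nat_lit 402) (nat_lit 2) (nat_lit 2) (nat_lit 6) (nat_lit 7) (nat_lit 41) (nat_lit 39) r3_41 r4_39 (nat_lit 0) (nat_lit 0) (nat_lit 0) (nat_lit 0x7e65b0c68e) (nat_lit 786725784),
  Rx.mk (nat_lit 406) (nat_lit 6) (nat_lit 2) (nat_lit 6) (nat_lit 7) (nat_lit 43) (nat_lit 38) r3_43 r4_38 (nat_lit 0) (nat_lit 0) (nat_lit 0) (nat_lit 0x7e2eabd714) (nat_lit 892219536),
  Rx.mk (nat_lit 410) (nat_lit 2) (nat_lit 3) (nat_lit 6) (nat_lit 7) (nat_lit 45) (nat_lit 35) r3_45 r4_35 (nat_lit 0) (nat_lit 0) (nat_lit 0) (nat_lit 0x7f09322dd4) (nat_lit 473221008),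
  Rx.mk (nat_lit 470) (nat_lit 6) (nat_lit 2) (nat_lit 7) (nat_lit 7) (nat_lit 44) (nat_lit 37) r3_44 r4_37 (nat_lit 0) (nat_lit 0) (nat_lit 0) (nat_lit 0x7eb5bf2558) (nat_lit 633226464),
  Rx.mk (nat_lit 500) (nat_lit 4) (nat_lit 6) (nat_lit 7) (nat_lit 6) (nat_lit 46) (nat_lit 31) r3_46 r4_31 (nat_lit 0) (nat_lit 0) (nat_lit 0) (nat_lit 0x7ffbd9e266) (nat_lit 7955064),
  Rx.mk (nat_lit 502) (nat_lit 6) (nat_lit 6) (nat_lit 7) (nat_lit 7) (nat_lit 47) (nat_lit 33) r3_47 r4_33 (nat_lit 0) (nat_lit 0) (nat_lit 0) (nat_lit 0x7e68443d54) (nat_lit 781786512),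
  Rx.mk (nat_lit 503) (nat_lit 7) (nat_lit 6) (nat_lit 7) (nat_lit 7) (nat_lit 48) (nat_lit 32) r3_48 r4_32 (nat_lit 0) (nat_lit 0) (nat_lit 0) (nat_lit 0x7ae6c7f89a) (nat_lit 2502621576)]
noncomputable def e5_9 : List Rx := [
  Rx.mk (nat_lit 39) (nat_lit 7) (nat_lit 4) (nat_lit 0) (nat_lit 1) (nat_lit 72) (nat_lit 44) r3_72 r5_44 (nat_lit 0) (nat_lit 0) (nat_lit 0) (nat_lit 0x7ffa96b69a) (nat_lit 10375560),
  Rx.mk (nat_lit 55) (nat_lit 7) (nat_lit 6) (nat_lit 0) (nat_lit 3) (nat_lit 75) (nat_lit 47) r3_75 r5_47 (nat_lit 0) (nat_lit 0) (nat_lit 0) (nat_lit 0x7ea6edd27c) (nat_lit 661637808),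
  Rx.mk (nat_lit 59) (nat_lit 3) (nat_lit 7) (nat_lit 0) (nat_lit 3) (nat_lit 77) (nat_lit 41) r3_77 r5_41 (nat_lit 0) (nat_lit 0) (nat_lit 0) (nat_lit 0x770d966f8c) (nat_lit 4391627760),
  Rx.mk (nat_lit 63) (nat_lit 7) (nat_lit 7) (nat_lit 0) (nat_lit 3) (nat_lit 79) (nat_lit 46) r3_79 r5_46 (nat_lit 0) (nat_lit 0) (nat_lit 0) (nat_lit 0x783b195630) (nat_lit 3813511104),
  Rx.mk (nat_lit 187) (nat_lit 3) (nat_lit 7) (nat_lit 2) (nat_lit 7) (nat_lit 78) (nat_lit 42) r3_78 r5_42 (nat_lit 0) (nat_lit 0) (nat_lit 0) (nat_lit 0x7f3a4a3c22) (nat_lit 379088424),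
  Rx.mk (nat_lit 231) (nat_lit 7) (nat_lit 4) (nat_lit 3) (nat_lit 5) (nat_lit 73) (nat_lit 45) r3_73 r5_45 (nat_lit 0) (nat_lit 0) (nat_lit 0) (nat_lit 0x78c2869ed4) (nat_lit 3553844112),
  Rx.mk (nat_lit 244) (nat_lit 4) (nat_lit 6) (nat_lit 3) (nat_lit 6) (nat_lit 74) (nat_lit 43) r3_74 r5_43 (nat_lit 0) (nat_lit 0) (nat_lit 0) (nat_lit 0x7ec8641af6) (nat_lit 597477816),
  Rx.mk (nat_lit 247) (nat_lit 7) (nat_lit 6) (nat_lit 3) (nat_lit 7) (nat_lit 76) (nat_lit 48) r3_76 r5_48 (nat_lit 0) (nat_lit 0) (nat_lit 0) (nat_lit 0x7f51b98516) (nat_lit 334154808)]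
noncomputable def e5_10 : List Rx := [
  Rx.mk (nat_lit 37) (nat_lit 5) (nat_lit 4) (nat_lit 0) (nat_lit 1) (nat_lit 143) (nat_lit 359) r3_143 r0_359 (nat_lit 0) (nat_lit 0) (nat_lit 0) (nat_lit 0x8000000000) (nat_lit 0),
  Rx.mk (nat_lit 53) (nat_lit 5) (nat_lit 6) (nat_lit 0) (nat_lit 3) (nat_lit 146) (nat_lit 300) r3_146 r0_300 (nat_lit 0) (nat_lit 0) (nat_lit 0) (nat_lit 0x8000000000) (nat_lit 0),
  Rx.mk (nat_lit 100) (nat_lit 4) (nat_lit 4) (nat_lit 1) (nat_lit 4) (nat_lit 142) (nat_lit 301) r3_142 r0_301 (nat_lit 0) (nat_lit 0) (nat_lit 0) (nat_lit 0x7ffd37ac88) (nat_lit 5335200),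
  Rx.mk (nat_lit 101) (nat_lit 5) (nat_lit 4) (nat_lit 1) (nat_lit 5) (nat_lit 144) (nat_lit 302) r3_144 r0_302 (nat_lit 0) (nat_lit 0) (nat_lit 0) (nat_lit 0x7efff78188) (nat_lit 490917024),
  Rx.mk (nat_lit 116) (nat_lit 4) (nat_lit 6) (nat_lit 1) (nat_lit 6) (nat_lit 145) (nat_lit 303) r3_145 r0_303 (nat_lit 0) (nat_lit 0) (nat_lit 0) (nat_lit 0x7da58729e8) (nat_lit 1155177504),
  Rx.mk (nat_lit 117) (nat_lit 5) (nat_lit 6) (nat_lit 1) (nat_lit 7) (nat_lit 147) (nat_lit 304) r3_147 r0_304 (nat_lit 0) (nat_lit 0) (nat_lit 0) (nat_lit 0x7feb704910) (nat_lit 39424320)]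
noncomputable def e5_11 : List Rx := [
  Rx.mk (nat_lit 100) (nat_lit 4) (nat_lit 4) (nat_lit 1) (nat_lit 4) (nat_lit 164) (nat_lit 52) r3_164 r6_52 (nat_lit 0) (nat_lit 0) (nat_lit 0) (nat_lit 0x70137118dc) (nat_lit 7816376880),
  Rx.mk (nat_lit 101) (nat_lit 5) (nat_lit 4) (nat_lit 1) (nat_lit 5) (nat_lit 165) (nat_lit 54) r3_165 r6_54 (nat_lit 0) (nat_lit 0) (nat_lit 0) (nat_lit 0x721a4209c6) (nat_lit 6821600760),
  Rx.mk (nat_lit 116) (nat_lit 4) (nat_lit 6) (nat_lit 1) (nat_lit 6) (nat_lit 166) (nat_lit 53) r3_166 r6_53 (nat_lit 0) (nat_lit 0) (nat_lit 0) (nat_lit 0x7ed67c9960) (nat_lit 570450816),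
  Rx.mk (nat_lit 117) (nat_lit 5) (nat_lit 6) (nat_lit 1) (nat_lit 7) (nat_lit 167) (nat_lit 55) r3_167 r6_55 (nat_lit 0) (nat_lit 0) (nat_lit 0) (nat_lit 0x7eecb9f574) (nat_lit 527808528)]
noncomputable def e5_12 : List Rx := [
  Rx.mk (nat_lit 37) (nat_lit 5) (nat_lit 4) (nat_lit 0) (nat_lit 1) (nat_lit 148) (nat_lit 323) r3_148 r1_323 (nat_lit 0) (nat_lit 0) (nat_lit 0) (nat_lit 0x8000000000) (nat_lit 0),
  Rx.mk (nat_lit 53) (nat_lit 5) (nat_lit 6) (nat_lit 0) (nat_lit 3) (nat_lit 150) (nat_lit 293) r3_150 r1_293 (nat_lit 0) (nat_lit 0) (nat_lit 0) (nat_lit 0x7f34c65466) (nat_lit 389663352),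
  Rx.mk (nat_lit 101) (nat_lit 5) (nat_lit 4) (nat_lit 1) (nat_lit 5) (nat_lit 149) (nat_lit 294) r3_149 r1_294 (nat_lit 0) (nat_lit 0) (nat_lit 0) (nat_lit 0x7f3dabe604) (nat_lit 372604752),
  Rx.mk (nat_lit 117) (nat_lit 5) (nat_lit 6) (nat_lit 1) (nat_lit 7) (nat_lit 151) (nat_lit 295) r3_151 r1_295 (nat_lit 0) (nat_lit 0) (nat_lit 0) (nat_lit 0x7f46a79640) (nat_lit 355380480)]
noncomputable def e5_13 : List Rx := [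
  Rx.mk (nat_lit 101) (nat_lit 5) (nat_lit 4) (nat_lit 1) (nat_lit 5) (nat_lit 168) (nat_lit 61) r3_168 r7_61 (nat_lit 0) (nat_lit 0) (nat_lit 0) (nat_lit 0x75b85a24a6) (nat_lit 5045911416),
  Rx.mk (nat_lit 117) (nat_lit 5) (nat_lit 6) (nat_lit 1) (nat_lit 7) (nat_lit 169) (nat_lit 62) r3_169 r7_62 (nat_lit 0) (nat_lit 0) (nat_lit 0) (nat_lit 0x7f3a485c40) (nat_lit 379102464)]
noncomputable def e5_14 : List Rx := [
  Rx.mk (nat_lit 100) (nat_lit 4) (nat_lit 4) (nat_lit 1) (nat_lit 4) (nat_lit 170) (nat_lit 334) r3_170 r7_334 (nat_lit 0) (nat_lit 0) (nat_lit 0) (nat_lit 0x6b3e98cb36) (nat_lit 10187898552),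
  Rx.mk (nat_lit 101) (nat_lit 5) (nat_lit 4) (nat_lit 1) (nat_lit 5) (nat_lit 171) (nat_lit 335) r3_171 r7_335 (nat_lit 0) (nat_lit 0) (nat_lit 0) (nat_lit 0x732efe9ce8) (nat_lit 6290987040),
  Rx.mk (nat_lit 116) (nat_lit 4) (nat_lit 6) (nat_lit 1) (nat_lit 6) (nat_lit 172) (nat_lit 336) r3_172 r7_336 (nat_lit 0) (nat_lit 0) (nat_lit 0) (nat_lit 0x73f40d8b34) (nat_lit 5913148176),
  Rx.mk (nat_lit 117) (nat_lit 5) (nat_lit 6) (nat_lit 1) (nat_lit 7) (nat_lit 174) (nat_lit 337) r3_174 r7_337 (nat_lit 0) (nat_lit 0) (nat_lit 0) (nat_lit 0x7c2ead98f8) (nat_lit 1873913184),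
  Rx.mk (nat_lit 372) (nat_lit 4) (nat_lit 6) (nat_lit 5) (nat_lit 6) (nat_lit 173) (nat_lit 331) r3_173 r7_331 (nat_lit 0) (nat_lit 0) (nat_lit 0) (nat_lit 0x6e724f8c96) (nat_lit 8616182328),
  Rx.mk (nat_lit 373) (nat_lit 5) (nat_lit 6) (nat_lit 5) (nat_lit 7) (nat_lit 175) (nat_lit 332) r3_175 r7_332 (nat_lit 0) (nat_lit 0) (nat_lit 0) (nat_lit 0x7bddb1e904) (nat_lit 2029189968),
  Rx.mk (nat_lit 374) (nat_lit 6) (nat_lit 6) (nat_lit 5) (nat_lit 7) (nat_lit 176) (nat_lit 333) r3_176 r7_333 (nat_lit 0) (nat_lit 0) (nat_lit 0) (nat_lit 0x7cba1941b2) (nat_lit 1606588776)]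
noncomputable def e5_15 : List Rx := [
  Rx.mk (nat_lit 342) (nat_lit 6) (nat_lit 2) (nat_lit 5) (nat_lit 7) (nat_lit 138) (nat_lit 21) r3_138 r8_21 (nat_lit 0) (nat_lit 0) (nat_lit 0) (nat_lit 0x7bb65c3e86) (nat_lit 2104610040),
  Rx.mk (nat_lit 372) (nat_lit 4) (nat_lit 6) (nat_lit 5) (nat_lit 6) (nat_lit 139) (nat_lit 19) r3_139 r8_19 (nat_lit 0) (nat_lit 0) (nat_lit 0) (nat_lit 0x6e3f9218a0) (nat_lit 8713471104),
  Rx.mk (nat_lit 373) (nat_lit 5) (nat_lit 6) (nat_lit 5) (nat_lit 7) (nat_lit 140) (nat_lit 20) r3_140 r8_20 (nat_lit 0) (nat_lit 0) (nat_lit 0) (nat_lit 0x7c4a3100a6) (nat_lit 1821159288),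
  Rx.mk (nat_lit 374) (nat_lit 6) (nat_lit 6) (nat_lit 5) (nat_lit 7) (nat_lit 141) (nat_lit 22) r3_141 r8_22 (nat_lit 0) (nat_lit 0) (nat_lit 0) (nat_lit 0x7764b97d04) (nat_lit 4224551760)]
noncomputable def e5_16 : List Rx := [
  Rx.mk (nat_lit 36) (nat_lit 4) (nat_lit 4) (nat_lit 0) (nat_lit 0) (nat_lit 152) (nat_lit 315) r3_152 r4_315 (nat_lit 0) (nat_lit 0) (nat_lit 0) (nat_lit 0x72d96d1656) (nat_lit 6455055672),
  Rx.mk (nat_lit 37) (nat_lit 5) (nat_lit 4) (nat_lit 0) (nat_lit 1) (nat_lit 154) (nat_lit 316) r3_154 r4_316 (nat_lit 0) (nat_lit 0) (nat_lit 0) (nat_lit 0x790eef77fa) (nat_lit 3407336712),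
  Rx.mk (nat_lit 39) (nat_lit 7) (nat_lit 4) (nat_lit 0) (nat_lit 1) (nat_lit 156) (nat_lit 317) r3_156 r4_317 (nat_lit 0) (nat_lit 0) (nat_lit 0) (nat_lit 0x79c6919d20) (nat_lit 3055238784),
  Rx.mk (nat_lit 52) (nat_lit 4) (nat_lit 6) (nat_lit 0) (nat_lit 2) (nat_lit 158) (nat_lit 318) r3_158 r4_318 (nat_lit 0) (nat_lit 0) (nat_lit 0) (nat_lit 0x7a41dba804) (nat_lit 2818844496),
  Rx.mk (nat_lit 53) (nat_lit 5) (nat_lit 6) (nat_lit 0) (nat_lit 3) (nat_lit 160) (nat_lit 319) r3_160 r4_319 (nat_lit 0) (nat_lit 0) (nat_lit 0) (nat_lit 0x7e0ef89268) (nat_lit 953001504),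
  Rx.mk (nat_lit 55) (nat_lit 7) (nat_lit 6) (nat_lit 0) (nat_lit 3) (nat_lit 162) (nat_lit 320) r3_162 r4_320 (nat_lit 0) (nat_lit 0) (nat_lit 0) (nat_lit 0x7c8fa6290e) (nat_lit 1687981464),
  Rx.mk (nat_lit 100) (nat_lit 4) (nat_lit 4) (nat_lit 1) (nat_lit 4) (nat_lit 153) (nat_lit 321) r3_153 r4_321 (nat_lit 0) (nat_lit 0) (nat_lit 0) (nat_lit 0x7824867f74) (nat_lit 3856793616),
  Rx.mk (nat_lit 101) (nat_lit 5) (nat_lit 4) (nat_lit 1) (nat_lit 5) (nat_lit 155) (nat_lit 322) r3_155 r4_322 (nat_lit 0) (nat_lit 0) (nat_lit 0) (nat_lit 0x7cbf2d1070) (nat_lit 1596853440),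
  Rx.mk (nat_lit 103) (nat_lit 7) (nat_lit 4) (nat_lit 1) (nat_lit 5) (nat_lit 157) (nat_lit 323) r3_157 r4_323 (nat_lit 0) (nat_lit 0) (nat_lit 0) (nat_lit 0x7cb07e3b6c) (nat_lit 1625006448),
  Rx.mk (nat_lit 116) (nat_lit 4) (nat_lit 6) (nat_lit 1) (nat_lit 6) (nat_lit 159) (nat_lit 324) r3_159 r4_324 (nat_lit 0) (nat_lit 0) (nat_lit 0) (nat_lit 0x7e5e87d924) (nat_lit 800454096),
  Rx.mk (nat_lit 117) (nat_lit 5) (nat_lit 6) (nat_lit 1) (nat_lit 7) (nat_lit 161) (nat_lit 325) r3_161 r4_325 (nat_lit 0) (nat_lit 0) (nat_lit 0) (nat_lit 0x7eb281d930) (nat_lit 639437760),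
  Rx.mk (nat_lit 119) (nat_lit 7) (nat_lit 6) (nat_lit 1) (nat_lit 7) (nat_lit 163) (nat_lit 326) r3_163 r4_326 (nat_lit 0) (nat_lit 0) (nat_lit 0) (nat_lit 0x7ea6169ff0) (nat_lit 663249600)]
noncomputable def e5_17 : List Rx := [
  Rx.mk (nat_lit 100) (nat_lit 4) (nat_lit 4) (nat_lit 1) (nat_lit 4) (nat_lit 177) (nat_lit 38) r3_177 r9_38 (nat_lit 0) (nat_lit 0) (nat_lit 0) (nat_lit 0x7143ff0ecc) (nat_lit 7232425200),
  Rx.mk (nat_lit 101) (nat_lit 5) (nat_lit 4) (nat_lit 1) (nat_lit 5) (nat_lit 178) (nat_lit 40) r3_178 r9_40 (nat_lit 0) (nat_lit 0) (nat_lit 0) (nat_lit 0x7b2d0a942a) (nat_lit 2367904968),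
  Rx.mk (nat_lit 103) (nat_lit 7) (nat_lit 4) (nat_lit 1) (nat_lit 5) (nat_lit 179) (nat_lit 42) r3_179 r9_42 (nat_lit 0) (nat_lit 0) (nat_lit 0) (nat_lit 0x7b7cf61522) (nat_lit 2214666792),
  Rx.mk (nat_lit 116) (nat_lit 4) (nat_lit 6) (nat_lit 1) (nat_lit 6) (nat_lit 180) (nat_lit 39) r3_180 r9_39 (nat_lit 0) (nat_lit 0) (nat_lit 0) (nat_lit 0x7f9d302d60) (nat_lit 189461376),
  Rx.mk (nat_lit 117) (nat_lit 5) (nat_lit 6) (nat_lit 1) (nat_lit 7) (nat_lit 181) (nat_lit 41) r3_181 r9_41 (nat_lit 0) (nat_lit 0) (nat_lit 0) (nat_lit 0x7f23fc011c) (nat_lit 421857072),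
  Rx.mk (nat_lit 119) (nat_lit 7) (nat_lit 6) (nat_lit 1) (nat_lit 7) (nat_lit 182) (nat_lit 43) r3_182 r9_43 (nat_lit 0) (nat_lit 0) (nat_lit 0) (nat_lit 0x7eeb84a8ca) (nat_lit 530125128)]
noncomputable def e5_18 : List Rx := [
  Rx.mk (nat_lit 36) (nat_lit 4) (nat_lit 4) (nat_lit 0) (nat_lit 0) (nat_lit 183) (nat_lit 19) r3_183 r10_19 (nat_lit 0) (nat_lit 0) (nat_lit 0) (nat_lit 0x611f400ae2) (nat_lit 15156536616),
  Rx.mk (nat_lit 37) (nat_lit 5) (nat_lit 4) (nat_lit 0) (nat_lit 1) (nat_lit 186) (nat_lit 25) r3_186 r10_25 (nat_lit 0) (nat_lit 0) (nat_lit 0) (nat_lit 0x6c0e76ec84) (nat_lit 9789333840),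
  Rx.mk (nat_lit 39) (nat_lit 7) (nat_lit 4) (nat_lit 0) (nat_lit 1) (nat_lit 189) (nat_lit 31) r3_189 r10_31 (nat_lit 0) (nat_lit 0) (nat_lit 0) (nat_lit 0x6e8b4ffc76) (nat_lit 8568244152),
  Rx.mk (nat_lit 52) (nat_lit 4) (nat_lit 6) (nat_lit 0) (nat_lit 2) (nat_lit 191) (nat_lit 22) r3_191 r10_22 (nat_lit 0) (nat_lit 0) (nat_lit 0) (nat_lit 0x7199b2b33c) (nat_lit 7068101040),
  Rx.mk (nat_lit 53) (nat_lit 5) (nat_lit 6) (nat_lit 0) (nat_lit 3) (nat_lit 194) (nat_lit 28) r3_194 r10_28 (nat_lit 0) (nat_lit 0) (nat_lit 0) (nat_lit 0x7db4419e32) (nat_lit 1126937448),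
  Rx.mk (nat_lit 55) (nat_lit 7) (nat_lit 6) (nat_lit 0) (nat_lit 3) (nat_lit 197) (nat_lit 35) r3_197 r10_35 (nat_lit 0) (nat_lit 0) (nat_lit 0) (nat_lit 0x7ba330b152) (nat_lit 2141366760),
  Rx.mk (nat_lit 63) (nat_lit 7) (nat_lit 7) (nat_lit 0) (nat_lit 3) (nat_lit 199) (nat_lit 33) r3_199 r10_33 (nat_lit 0) (nat_lit 0) (nat_lit 0) (nat_lit 0x7e061120e8) (nat_lit 970074144),
  Rx.mk (nat_lit 100) (nat_lit 4) (nat_lit 4) (nat_lit 1) (nat_lit 4) (nat_lit 184) (nat_lit 20) r3_184 r10_20 (nat_lit 0) (nat_lit 0) (nat_lit 0) (nat_lit 0x6c7064ad46) (nat_lit 9601565688),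
  Rx.mk (nat_lit 101) (nat_lit 5) (nat_lit 4) (nat_lit 1) (nat_lit 5) (nat_lit 187) (nat_lit 26) r3_187 r10_26 (nat_lit 0) (nat_lit 0) (nat_lit 0) (nat_lit 0x7c9d740c22) (nat_lit 1661513256),
  Rx.mk (nat_lit 103) (nat_lit 7) (nat_lit 4) (nat_lit 1) (nat_lit 5) (nat_lit 190) (nat_lit 32) r3_190 r10_32 (nat_lit 0) (nat_lit 0) (nat_lit 0) (nat_lit 0x7822d6fa6e) (nat_lit 3860025624),
  Rx.mk (nat_lit 116) (nat_lit 4) (nat_lit 6) (nat_lit 1) (nat_lit 6) (nat_lit 192) (nat_lit 23) r3_192 r10_23 (nat_lit 0) (nat_lit 0) (nat_lit 0) (nat_lit 0x7bee1be254) (nat_lit 1997717904),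
  Rx.mk (nat_lit 117) (nat_lit 5) (nat_lit 6) (nat_lit 1) (nat_lit 7) (nat_lit 195) (nat_lit 29) r3_195 r10_29 (nat_lit 0) (nat_lit 0) (nat_lit 0) (nat_lit 0x7e26fad22c) (nat_lit 906967152),
  Rx.mk (nat_lit 119) (nat_lit 7) (nat_lit 6) (nat_lit 1) (nat_lit 7) (nat_lit 198) (nat_lit 36) r3_198 r10_36 (nat_lit 0) (nat_lit 0) (nat_lit 0) (nat_lit 0x7e079ac84c) (nat_lit 967125744),
  Rx.mk (nat_lit 127) (nat_lit 7) (nat_lit 7) (nat_lit 1) (nat_lit 7) (nat_lit 200) (nat_lit 34) r3_200 r10_34 (nat_lit 0) (nat_lit 0) (nat_lit 0) (nat_lit 0x7dec2adf66) (nat_lit 1019733624),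
  Rx.mk (nat_lit 228) (nat_lit 4) (nat_lit 4) (nat_lit 3) (nat_lit 4) (nat_lit 185) (nat_lit 21) r3_185 r10_21 (nat_lit 0) (nat_lit 0) (nat_lit 0) (nat_lit 0x6df68609aa) (nat_lit 8853531336),
  Rx.mk (nat_lit 229) (nat_lit 5) (nat_lit 4) (nat_lit 3) (nat_lit 5) (nat_lit 188) (nat_lit 27) r3_188 r10_27 (nat_lit 0) (nat_lit 0) (nat_lit 0) (nat_lit 0x7aec04a4ca) (nat_lit 2492580168),
  Rx.mk (nat_lit 244) (nat_lit 4) (nat_lit 6) (nat_lit 3) (nat_lit 6) (nat_lit 193) (nat_lit 24) r3_193 r10_24 (nat_lit 0) (nat_lit 0) (nat_lit 0) (nat_lit 0x7846764056) (nat_lit 3791723832),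
  Rx.mk (nat_lit 245) (nat_lit 5) (nat_lit 6) (nat_lit 3) (nat_lit 7) (nat_lit 196) (nat_lit 30) r3_196 r10_30 (nat_lit 0) (nat_lit 0) (nat_lit 0) (nat_lit 0x7e1c68bb58) (nat_lit 927235296)]
noncomputable def e5_19 : List Rx := [
  Rx.mk (nat_lit 342) (nat_lit 6) (nat_lit 2) (nat_lit 5) (nat_lit 7) (nat_lit 120) (nat_lit 14) r3_120 r8_14 (nat_lit 0) (nat_lit 0) (nat_lit 0) (nat_lit 0x7ad52b5276) (nat_lit 2536390584)]
noncomputable def e5_20 : List Rx := [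
  Rx.mk (nat_lit 128) (nat_lit 0) (nat_lit 0) (nat_lit 2) (nat_lit 4) (nat_lit 88) (nat_lit 43) r3_88 r0_43 (nat_lit 0) (nat_lit 0) (nat_lit 0) (nat_lit 0x8000000000) (nat_lit 0),
  Rx.mk (nat_lit 130) (nat_lit 2) (nat_lit 0) (nat_lit 2) (nat_lit 5) (nat_lit 89) (nat_lit 46) r3_89 r0_46 (nat_lit 0) (nat_lit 0) (nat_lit 0) (nat_lit 0x8000000000) (nat_lit 0),
  Rx.mk (nat_lit 152) (nat_lit 0) (nat_lit 3) (nat_lit 2) (nat_lit 6) (nat_lit 94) (nat_lit 44) r3_94 r0_44 (nat_lit 0) (nat_lit 0) (nat_lit 0) (nat_lit 0x789f9ccd94) (nat_lit 3620786832),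
  Rx.mk (nat_lit 154) (nat_lit 2) (nat_lit 3) (nat_lit 2) (nat_lit 7) (nat_lit 95) (nat_lit 47) r3_95 r0_47 (nat_lit 0) (nat_lit 0) (nat_lit 0) (nat_lit 0x7c4bfa640e) (nat_lit 1817733528),
  Rx.mk (nat_lit 155) (nat_lit 3) (nat_lit 3) (nat_lit 2) (nat_lit 7) (nat_lit 96) (nat_lit 45) r3_96 r0_45 (nat_lit 0) (nat_lit 0) (nat_lit 0) (nat_lit 0x7aaf35b1f6) (nat_lit 2609173944),
  Rx.mk (nat_lit 278) (nat_lit 6) (nat_lit 2) (nat_lit 4) (nat_lit 3) (nat_lit 92) (nat_lit 48) r3_92 r0_48 (nat_lit 0) (nat_lit 0) (nat_lit 0) (nat_lit 0x6dba6c2b84) (nat_lit 8968768848),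
  Rx.mk (nat_lit 386) (nat_lit 2) (nat_lit 0) (nat_lit 6) (nat_lit 5) (nat_lit 90) (nat_lit 49) r3_90 r0_49 (nat_lit 0) (nat_lit 0) (nat_lit 0) (nat_lit 0x7ef7fa0168) (nat_lit 506237472),
  Rx.mk (nat_lit 402) (nat_lit 2) (nat_lit 2) (nat_lit 6) (nat_lit 7) (nat_lit 91) (nat_lit 50) r3_91 r0_50 (nat_lit 0) (nat_lit 0) (nat_lit 0) (nat_lit 0x7f3f0caff6) (nat_lit 369962424),
  Rx.mk (nat_lit 406) (nat_lit 6) (nat_lit 2) (nat_lit 6) (nat_lit 7) (nat_lit 93) (nat_lit 51) r3_93 r0_51 (nat_lit 0) (nat_lit 0) (nat_lit 0) (nat_lit 0x7b04e536a8) (nat_lit 2444880672)]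
noncomputable def e5_21 : List Rx := [
  Rx.mk (nat_lit 128) (nat_lit 0) (nat_lit 0) (nat_lit 2) (nat_lit 4) (nat_lit 101) (nat_lit 39) r3_101 r1_39 (nat_lit 0) (nat_lit 0) (nat_lit 0) (nat_lit 0x8000000000) (nat_lit 0),
  Rx.mk (nat_lit 130) (nat_lit 2) (nat_lit 0) (nat_lit 2) (nat_lit 5) (nat_lit 102) (nat_lit 43) r3_102 r1_43 (nat_lit 0) (nat_lit 0) (nat_lit 0) (nat_lit 0x7d89c9a5dc) (nat_lit 1208366640),
  Rx.mk (nat_lit 136) (nat_lit 0) (nat_lit 1) (nat_lit 2) (nat_lit 6) (nat_lit 104) (nat_lit 40) r3_104 r1_40 (nat_lit 0) (nat_lit 0) (nat_lit 0) (nat_lit 0x7ecc02e106) (nat_lit 590536440),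
  Rx.mk (nat_lit 138) (nat_lit 2) (nat_lit 1) (nat_lit 2) (nat_lit 7) (nat_lit 105) (nat_lit 44) r3_105 r1_44 (nat_lit 0) (nat_lit 0) (nat_lit 0) (nat_lit 0x7ed104b0e4) (nat_lit 580935888),
  Rx.mk (nat_lit 152) (nat_lit 0) (nat_lit 3) (nat_lit 2) (nat_lit 6) (nat_lit 109) (nat_lit 41) r3_109 r1_41 (nat_lit 0) (nat_lit 0) (nat_lit 0) (nat_lit 0x7e2853bc9c) (nat_lit 904383792),
  Rx.mk (nat_lit 154) (nat_lit 2) (nat_lit 3) (nat_lit 2) (nat_lit 7) (nat_lit 110) (nat_lit 45) r3_110 r1_45 (nat_lit 0) (nat_lit 0) (nat_lit 0) (nat_lit 0x7e3f27cf44) (nat_lit 860612688),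
  Rx.mk (nat_lit 155) (nat_lit 3) (nat_lit 3) (nat_lit 2) (nat_lit 7) (nat_lit 111) (nat_lit 42) r3_111 r1_42 (nat_lit 0) (nat_lit 0) (nat_lit 0) (nat_lit 0x7efab4d5b8) (nat_lit 501003360),
  Rx.mk (nat_lit 386) (nat_lit 2) (nat_lit 0) (nat_lit 6) (nat_lit 5) (nat_lit 103) (nat_lit 46) r3_103 r1_46 (nat_lit 0) (nat_lit 0) (nat_lit 0) (nat_lit 0x7c72d45648) (nat_lit 1743240096),
  Rx.mk (nat_lit 394) (nat_lit 2) (nat_lit 1) (nat_lit 6) (nat_lit 7) (nat_lit 106) (nat_lit 47) r3_106 r1_47 (nat_lit 0) (nat_lit 0) (nat_lit 0) (nat_lit 0x7f3b894830) (nat_lit 376698816),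
  Rx.mk (nat_lit 402) (nat_lit 2) (nat_lit 2) (nat_lit 6) (nat_lit 7) (nat_lit 107) (nat_lit 48) r3_107 r1_48 (nat_lit 0) (nat_lit 0) (nat_lit 0) (nat_lit 0x7ee53b2d68) (nat_lit 542179872),
  Rx.mk (nat_lit 406) (nat_lit 6) (nat_lit 2) (nat_lit 6) (nat_lit 7) (nat_lit 108) (nat_lit 49) r3_108 r1_49 (nat_lit 0) (nat_lit 0) (nat_lit 0) (nat_lit 0x7e2ce9f334) (nat_lit 895589136)]
noncomputable def e5_22 : List Rx := [
  Rx.mk (nat_lit 152) (nat_lit 0) (nat_lit 3) (nat_lit 2) (nat_lit 6) (nat_lit 126) (nat_lit 31) r3_126 r4_31 (nat_lit 0) (nat_lit 0) (nat_lit 0) (nat_lit 0x7ffbd9e266) (nat_lit 7955064),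
  Rx.mk (nat_lit 154) (nat_lit 2) (nat_lit 3) (nat_lit 2) (nat_lit 7) (nat_lit 127) (nat_lit 33) r3_127 r4_33 (nat_lit 0) (nat_lit 0) (nat_lit 0) (nat_lit 0x7e68443d54) (nat_lit 781786512),
  Rx.mk (nat_lit 155) (nat_lit 3) (nat_lit 3) (nat_lit 2) (nat_lit 7) (nat_lit 129) (nat_lit 32) r3_129 r4_32 (nat_lit 0) (nat_lit 0) (nat_lit 0) (nat_lit 0x7ae6c7f89a) (nat_lit 2502621576),
  Rx.mk (nat_lit 278) (nat_lit 6) (nat_lit 2) (nat_lit 4) (nat_lit 3) (nat_lit 123) (nat_lit 34) r3_123 r4_34 (nat_lit 0) (nat_lit 0) (nat_lit 0) (nat_lit 0x7f3136ed60) (nat_lit 396489600),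
  Rx.mk (nat_lit 386) (nat_lit 2) (nat_lit 0) (nat_lit 6) (nat_lit 5) (nat_lit 121) (nat_lit 36) r3_121 r4_36 (nat_lit 0) (nat_lit 0) (nat_lit 0) (nat_lit 0x7db0793abc) (nat_lit 1134190512),
  Rx.mk (nat_lit 402) (nat_lit 2) (nat_lit 2) (nat_lit 6) (nat_lit 7) (nat_lit 122) (nat_lit 38) r3_122 r4_38 (nat_lit 0) (nat_lit 0) (nat_lit 0) (nat_lit 0x7e2eabd714) (nat_lit 892219536),
  Rx.mk (nat_lit 406) (nat_lit 6) (nat_lit 2) (nat_lit 6) (nat_lit 7) (nat_lit 124) (nat_lit 39) r3_124 r4_39 (nat_lit 0) (nat_lit 0) (nat_lit 0) (nat_lit 0x7e65b0c68e) (nat_lit 786725784),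
  Rx.mk (nat_lit 410) (nat_lit 2) (nat_lit 3) (nat_lit 6) (nat_lit 7) (nat_lit 128) (nat_lit 37) r3_128 r4_37 (nat_lit 0) (nat_lit 0) (nat_lit 0) (nat_lit 0x7eb5bf2558) (nat_lit 633226464),
  Rx.mk (nat_lit 470) (nat_lit 6) (nat_lit 2) (nat_lit 7) (nat_lit 7) (nat_lit 125) (nat_lit 35) r3_125 r4_35 (nat_lit 0) (nat_lit 0) (nat_lit 0) (nat_lit 0x7f09322dd4) (nat_lit 473221008)]
noncomputable def e5_23 : List Rx := [
  Rx.mk (nat_lit 278) (nat_lit 6) (nat_lit 2) (nat_lit 4) (nat_lit 3) (nat_lit 99) (nat_lit 36) r3_99 r6_36 (nat_lit 0) (nat_lit 0) (nat_lit 0) (nat_lit 0x7fdd138eea) (nat_lit 66962376),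
  Rx.mk (nat_lit 386) (nat_lit 2) (nat_lit 0) (nat_lit 6) (nat_lit 5) (nat_lit 97) (nat_lit 35) r3_97 r6_35 (nat_lit 0) (nat_lit 0) (nat_lit 0) (nat_lit 0x7fdd138eea) (nat_lit 66962376),
  Rx.mk (nat_lit 402) (nat_lit 2) (nat_lit 2) (nat_lit 6) (nat_lit 7) (nat_lit 98) (nat_lit 38) r3_98 r6_38 (nat_lit 0) (nat_lit 0) (nat_lit 0) (nat_lit 0x7e36b136b6) (nat_lit 876840120),
  Rx.mk (nat_lit 406) (nat_lit 6) (nat_lit 2) (nat_lit 6) (nat_lit 7) (nat_lit 100) (nat_lit 37) r3_100 r6_37 (nat_lit 0) (nat_lit 0) (nat_lit 0) (nat_lit 0x7e36b136b6) (nat_lit 876840120)]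
noncomputable def e5_24 : List Rx := [
  Rx.mk (nat_lit 386) (nat_lit 2) (nat_lit 0) (nat_lit 6) (nat_lit 5) (nat_lit 112) (nat_lit 43) r3_112 r7_43 (nat_lit 0) (nat_lit 0) (nat_lit 0) (nat_lit 0x78cfd7a9b6) (nat_lit 3528310968),
  Rx.mk (nat_lit 394) (nat_lit 2) (nat_lit 1) (nat_lit 6) (nat_lit 7) (nat_lit 113) (nat_lit 44) r3_113 r7_44 (nat_lit 0) (nat_lit 0) (nat_lit 0) (nat_lit 0x7ed1aa068e) (nat_lit 579697560),
  Rx.mk (nat_lit 402) (nat_lit 2) (nat_lit 2) (nat_lit 6) (nat_lit 7) (nat_lit 114) (nat_lit 46) r3_114 r7_46 (nat_lit 0) (nat_lit 0) (nat_lit 0) (nat_lit 0x7c243dfffc) (nat_lit 1893922992),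
  Rx.mk (nat_lit 406) (nat_lit 6) (nat_lit 2) (nat_lit 6) (nat_lit 7) (nat_lit 115) (nat_lit 45) r3_115 r7_45 (nat_lit 0) (nat_lit 0) (nat_lit 0) (nat_lit 0x7c4848df2a) (nat_lit 1824815304)]
noncomputable def e5_25 : List Rx := [
  Rx.mk (nat_lit 278) (nat_lit 6) (nat_lit 2) (nat_lit 4) (nat_lit 3) (nat_lit 117) (nat_lit 43) r3_117 r7_43 (nat_lit 0) (nat_lit 0) (nat_lit 0) (nat_lit 0x78cfd7a9b6) (nat_lit 3528310968),
  Rx.mk (nat_lit 342) (nat_lit 6) (nat_lit 2) (nat_lit 5) (nat_lit 7) (nat_lit 118) (nat_lit 44) r3_118 r7_44 (nat_lit 0) (nat_lit 0) (nat_lit 0) (nat_lit 0x7ed1aa068e) (nat_lit 579697560),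
  Rx.mk (nat_lit 402) (nat_lit 2) (nat_lit 2) (nat_lit 6) (nat_lit 7) (nat_lit 116) (nat_lit 45) r3_116 r7_45 (nat_lit 0) (nat_lit 0) (nat_lit 0) (nat_lit 0x7c4848df2a) (nat_lit 1824815304),
  Rx.mk (nat_lit 406) (nat_lit 6) (nat_lit 2) (nat_lit 6) (nat_lit 7) (nat_lit 119) (nat_lit 46) r3_119 r7_46 (nat_lit 0) (nat_lit 0) (nat_lit 0) (nat_lit 0x7c243dfffc) (nat_lit 1893922992)]
noncomputable def e5_26 : List Rx := [
  Rx.mk (nat_lit 278) (nat_lit 6) (nat_lit 2) (nat_lit 4) (nat_lit 3) (nat_lit 132) (nat_lit 19) r3_132 r9_19 (nat_lit 0) (nat_lit 0) (nat_lit 0) (nat_lit 0x7fdf7708b0) (nat_lit 62382528),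
  Rx.mk (nat_lit 386) (nat_lit 2) (nat_lit 0) (nat_lit 6) (nat_lit 5) (nat_lit 130) (nat_lit 17) r3_130 r9_17 (nat_lit 0) (nat_lit 0) (nat_lit 0) (nat_lit 0x7fdf7708b0) (nat_lit 62382528),
  Rx.mk (nat_lit 402) (nat_lit 2) (nat_lit 2) (nat_lit 6) (nat_lit 7) (nat_lit 131) (nat_lit 22) r3_131 r9_22 (nat_lit 0) (nat_lit 0) (nat_lit 0) (nat_lit 0x7e9b536c2e) (nat_lit 683885592),
  Rx.mk (nat_lit 406) (nat_lit 6) (nat_lit 2) (nat_lit 6) (nat_lit 7) (nat_lit 133) (nat_lit 21) r3_133 r9_21 (nat_lit 0) (nat_lit 0) (nat_lit 0) (nat_lit 0x7e9b536c2e) (nat_lit 683885592),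
  Rx.mk (nat_lit 410) (nat_lit 2) (nat_lit 3) (nat_lit 6) (nat_lit 7) (nat_lit 135) (nat_lit 18) r3_135 r9_18 (nat_lit 0) (nat_lit 0) (nat_lit 0) (nat_lit 0x7ef4f9d16e) (nat_lit 511991064),
  Rx.mk (nat_lit 470) (nat_lit 6) (nat_lit 2) (nat_lit 7) (nat_lit 7) (nat_lit 134) (nat_lit 20) r3_134 r9_20 (nat_lit 0) (nat_lit 0) (nat_lit 0) (nat_lit 0x7ef4f9d16e) (nat_lit 511991064)]
noncomputable def e5_27 : List Rx := [
  Rx.mk (nat_lit 155) (nat_lit 3) (nat_lit 3) (nat_lit 2) (nat_lit 7) (nat_lit 137) (nat_lit 6) r3_137 r10_6 (nat_lit 0) (nat_lit 0) (nat_lit 0) (nat_lit 0x7f829c56b8) (nat_lit 240420960),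
  Rx.mk (nat_lit 470) (nat_lit 6) (nat_lit 2) (nat_lit 7) (nat_lit 7) (nat_lit 136) (nat_lit 7) r3_136 r10_7 (nat_lit 0) (nat_lit 0) (nat_lit 0) (nat_lit 0x7fc79746c4) (nat_lit 108158544)]
noncomputable def e5_28 : List Rx := [
  Rx.mk (nat_lit 103) (nat_lit 7) (nat_lit 4) (nat_lit 1) (nat_lit 5) (nat_lit 220) (nat_lit 351) r3_220 r10_351 (nat_lit 0) (nat_lit 0) (nat_lit 0) (nat_lit 0x7ae9e266f0) (nat_lit 2496671424),
  Rx.mk (nat_lit 119) (nat_lit 7) (nat_lit 6) (nat_lit 1) (nat_lit 7) (nat_lit 221) (nat_lit 352) r3_221 r10_352 (nat_lit 0) (nat_lit 0) (nat_lit 0) (nat_lit 0x7fe8167eb0) (nat_lit 45849024)]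
noncomputable def e5_29 : List Rx := [
  Rx.mk (nat_lit 35) (nat_lit 3) (nat_lit 4) (nat_lit 0) (nat_lit 1) (nat_lit 222) (nat_lit 44) r3_222 r5_44 (nat_lit 0) (nat_lit 0) (nat_lit 0) (nat_lit 0x7ffa96b69a) (nat_lit 10375560),
  Rx.mk (nat_lit 59) (nat_lit 3) (nat_lit 7) (nat_lit 0) (nat_lit 3) (nat_lit 228) (nat_lit 45) r3_228 r5_45 (nat_lit 0) (nat_lit 0) (nat_lit 0) (nat_lit 0x78c2869ed4) (nat_lit 3553844112),
  Rx.mk (nat_lit 163) (nat_lit 3) (nat_lit 4) (nat_lit 2) (nat_lit 5) (nat_lit 223) (nat_lit 47) r3_223 r5_47 (nat_lit 0) (nat_lit 0) (nat_lit 0) (nat_lit 0x7ea6edd27c) (nat_lit 661637808),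
  Rx.mk (nat_lit 184) (nat_lit 0) (nat_lit 7) (nat_lit 2) (nat_lit 6) (nat_lit 227) (nat_lit 43) r3_227 r5_43 (nat_lit 0) (nat_lit 0) (nat_lit 0) (nat_lit 0x7ec8641af6) (nat_lit 597477816),
  Rx.mk (nat_lit 187) (nat_lit 3) (nat_lit 7) (nat_lit 2) (nat_lit 7) (nat_lit 229) (nat_lit 48) r3_229 r5_48 (nat_lit 0) (nat_lit 0) (nat_lit 0) (nat_lit 0x7f51b98516) (nat_lit 334154808),
  Rx.mk (nat_lit 227) (nat_lit 3) (nat_lit 4) (nat_lit 3) (nat_lit 5) (nat_lit 224) (nat_lit 46) r3_224 r5_46 (nat_lit 0) (nat_lit 0) (nat_lit 0) (nat_lit 0x783b195630) (nat_lit 3813511104),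
  Rx.mk (nat_lit 231) (nat_lit 7) (nat_lit 4) (nat_lit 3) (nat_lit 5) (nat_lit 225) (nat_lit 41) r3_225 r5_41 (nat_lit 0) (nat_lit 0) (nat_lit 0) (nat_lit 0x770d966f8c) (nat_lit 4391627760),
  Rx.mk (nat_lit 247) (nat_lit 7) (nat_lit 6) (nat_lit 3) (nat_lit 7) (nat_lit 226) (nat_lit 42) r3_226 r5_42 (nat_lit 0) (nat_lit 0) (nat_lit 0) (nat_lit 0x7f3a4a3c22) (nat_lit 379088424)]
noncomputable def e5_30 : List Rx := [
  Rx.mk (nat_lit 410) (nat_lit 2) (nat_lit 3) (nat_lit 6) (nat_lit 7) (nat_lit 211) (nat_lit 7) r3_211 r10_7 (nat_lit 0) (nat_lit 0) (nat_lit 0) (nat_lit 0x7fc79746c4) (nat_lit 108158544),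
  Rx.mk (nat_lit 503) (nat_lit 7) (nat_lit 6) (nat_lit 7) (nat_lit 7) (nat_lit 212) (nat_lit 6) r3_212 r10_6 (nat_lit 0) (nat_lit 0) (nat_lit 0) (nat_lit 0x7f829c56b8) (nat_lit 240420960)]
noncomputable def e5_31 : List Rx := [
  Rx.mk (nat_lit 35) (nat_lit 3) (nat_lit 4) (nat_lit 0) (nat_lit 1) (nat_lit 213) (nat_lit 322) r3_213 r5_322 (nat_lit 0) (nat_lit 0) (nat_lit 0) (nat_lit 0x7fdc245dde) (nat_lit 68753880),
  Rx.mk (nat_lit 39) (nat_lit 7) (nat_lit 4) (nat_lit 0) (nat_lit 1) (nat_lit 215) (nat_lit 323) r3_215 r5_323 (nat_lit 0) (nat_lit 0) (nat_lit 0) (nat_lit 0x7fdc245dde) (nat_lit 68753880),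
  Rx.mk (nat_lit 55) (nat_lit 7) (nat_lit 6) (nat_lit 0) (nat_lit 3) (nat_lit 216) (nat_lit 325) r3_216 r5_325 (nat_lit 0) (nat_lit 0) (nat_lit 0) (nat_lit 0x7f8fdd429c) (nat_lit 215008560),
  Rx.mk (nat_lit 163) (nat_lit 3) (nat_lit 4) (nat_lit 2) (nat_lit 5) (nat_lit 214) (nat_lit 324) r3_214 r5_324 (nat_lit 0) (nat_lit 0) (nat_lit 0) (nat_lit 0x7f8fdd429c) (nat_lit 215008560)]
noncomputable def e5_32 : List Rx := [
  Rx.mk (nat_lit 35) (nat_lit 3) (nat_lit 4) (nat_lit 0) (nat_lit 1) (nat_lit 230) (nat_lit 41) r3_230 r11_41 (nat_lit 0) (nat_lit 0) (nat_lit 0) (nat_lit 0x7f8a217e5e) (nat_lit 226001880),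
  Rx.mk (nat_lit 39) (nat_lit 7) (nat_lit 4) (nat_lit 0) (nat_lit 1) (nat_lit 232) (nat_lit 45) r3_232 r11_45 (nat_lit 0) (nat_lit 0) (nat_lit 0) (nat_lit 0x7f8a217e5e) (nat_lit 226001880),
  Rx.mk (nat_lit 55) (nat_lit 7) (nat_lit 6) (nat_lit 0) (nat_lit 3) (nat_lit 234) (nat_lit 47) r3_234 r11_47 (nat_lit 0) (nat_lit 0) (nat_lit 0) (nat_lit 0x7f1946ac7c) (nat_lit 442389168),
  Rx.mk (nat_lit 59) (nat_lit 3) (nat_lit 7) (nat_lit 0) (nat_lit 3) (nat_lit 236) (nat_lit 43) r3_236 r11_43 (nat_lit 0) (nat_lit 0) (nat_lit 0) (nat_lit 0x74e254a5d4) (nat_lit 5456275344),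
  Rx.mk (nat_lit 163) (nat_lit 3) (nat_lit 4) (nat_lit 2) (nat_lit 5) (nat_lit 231) (nat_lit 42) r3_231 r11_42 (nat_lit 0) (nat_lit 0) (nat_lit 0) (nat_lit 0x7f1946ac7c) (nat_lit 442389168),
  Rx.mk (nat_lit 187) (nat_lit 3) (nat_lit 7) (nat_lit 2) (nat_lit 7) (nat_lit 237) (nat_lit 44) r3_237 r11_44 (nat_lit 0) (nat_lit 0) (nat_lit 0) (nat_lit 0x7f616e09be) (nat_lit 304041816),
  Rx.mk (nat_lit 231) (nat_lit 7) (nat_lit 4) (nat_lit 3) (nat_lit 5) (nat_lit 233) (nat_lit 46) r3_233 r11_46 (nat_lit 0) (nat_lit 0) (nat_lit 0) (nat_lit 0x74e254a5d4) (nat_lit 5456275344),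
  Rx.mk (nat_lit 247) (nat_lit 7) (nat_lit 6) (nat_lit 3) (nat_lit 7) (nat_lit 235) (nat_lit 48) r3_235 r11_48 (nat_lit 0) (nat_lit 0) (nat_lit 0) (nat_lit 0x7f616e09be) (nat_lit 304041816)]
noncomputable def e5_33 : List Rx := [
  Rx.mk (nat_lit 168) (nat_lit 0) (nat_lit 5) (nat_lit 2) (nat_lit 6) (nat_lit 244) (nat_lit 71) r3_244 r0_71 (nat_lit 0) (nat_lit 0) (nat_lit 0) (nat_lit 0x8000000000) (nat_lit 0)]
noncomputable def e5_34 : List Rx := [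
  Rx.mk (nat_lit 33) (nat_lit 1) (nat_lit 4) (nat_lit 0) (nat_lit 1) (nat_lit 238) (nat_lit 359) r3_238 r0_359 (nat_lit 0) (nat_lit 0) (nat_lit 0) (nat_lit 0x8000000000) (nat_lit 0),
  Rx.mk (nat_lit 40) (nat_lit 0) (nat_lit 5) (nat_lit 0) (nat_lit 2) (nat_lit 240) (nat_lit 301) r3_240 r0_301 (nat_lit 0) (nat_lit 0) (nat_lit 0) (nat_lit 0x7ffd37ac88) (nat_lit 5335200),
  Rx.mk (nat_lit 41) (nat_lit 1) (nat_lit 5) (nat_lit 0) (nat_lit 3) (nat_lit 242) (nat_lit 302) r3_242 r0_302 (nat_lit 0) (nat_lit 0) (nat_lit 0) (nat_lit 0x7efff78188) (nat_lit 490917024),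
  Rx.mk (nat_lit 161) (nat_lit 1) (nat_lit 4) (nat_lit 2) (nat_lit 5) (nat_lit 239) (nat_lit 300) r3_239 r0_300 (nat_lit 0) (nat_lit 0) (nat_lit 0) (nat_lit 0x8000000000) (nat_lit 0),
  Rx.mk (nat_lit 168) (nat_lit 0) (nat_lit 5) (nat_lit 2) (nat_lit 6) (nat_lit 241) (nat_lit 303) r3_241 r0_303 (nat_lit 0) (nat_lit 0) (nat_lit 0) (nat_lit 0x7da58729e8) (nat_lit 1155177504),
  Rx.mk (nat_lit 169) (nat_lit 1) (nat_lit 5) (nat_lit 2) (nat_lit 7) (nat_lit 243) (nat_lit 304) r3_243 r0_304 (nat_lit 0) (nat_lit 0) (nat_lit 0) (nat_lit 0x7feb704910) (nat_lit 39424320)]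
noncomputable def e5_35 : List Rx := [
  Rx.mk (nat_lit 40) (nat_lit 0) (nat_lit 5) (nat_lit 0) (nat_lit 2) (nat_lit 245) (nat_lit 52) r3_245 r6_52 (nat_lit 0) (nat_lit 0) (nat_lit 0) (nat_lit 0x70137118dc) (nat_lit 7816376880),
  Rx.mk (nat_lit 41) (nat_lit 1) (nat_lit 5) (nat_lit 0) (nat_lit 3) (nat_lit 247) (nat_lit 54) r3_247 r6_54 (nat_lit 0) (nat_lit 0) (nat_lit 0) (nat_lit 0x721a4209c6) (nat_lit 6821600760),
  Rx.mk (nat_lit 168) (nat_lit 0) (nat_lit 5) (nat_lit 2) (nat_lit 6) (nat_lit 246) (nat_lit 53) r3_246 r6_53 (nat_lit 0) (nat_lit 0) (nat_lit 0) (nat_lit 0x7ed67c9960) (nat_lit 570450816),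
  Rx.mk (nat_lit 169) (nat_lit 1) (nat_lit 5) (nat_lit 2) (nat_lit 7) (nat_lit 248) (nat_lit 55) r3_248 r6_55 (nat_lit 0) (nat_lit 0) (nat_lit 0) (nat_lit 0x7eecb9f574) (nat_lit 527808528)]
noncomputable def e5_36 : List Rx := [
  Rx.mk (nat_lit 33) (nat_lit 1) (nat_lit 4) (nat_lit 0) (nat_lit 1) (nat_lit 271) (nat_lit 322) r3_271 r2_322 (nat_lit 0) (nat_lit 0) (nat_lit 0) (nat_lit 0x703cef60ce) (nat_lit 7736817816),
  Rx.mk (nat_lit 37) (nat_lit 5) (nat_lit 4) (nat_lit 0) (nat_lit 1) (nat_lit 274) (nat_lit 323) r3_274 r2_323 (nat_lit 0) (nat_lit 0) (nat_lit 0) (nat_lit 0x703cef60ce) (nat_lit 7736817816),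
  Rx.mk (nat_lit 41) (nat_lit 1) (nat_lit 5) (nat_lit 0) (nat_lit 3) (nat_lit 276) (nat_lit 327) r3_276 r2_327 (nat_lit 0) (nat_lit 0) (nat_lit 0) (nat_lit 0x756abadee8) (nat_lit 5194743840),
  Rx.mk (nat_lit 45) (nat_lit 5) (nat_lit 5) (nat_lit 0) (nat_lit 3) (nat_lit 279) (nat_lit 328) r3_279 r2_328 (nat_lit 0) (nat_lit 0) (nat_lit 0) (nat_lit 0x6f33ce53e8) (nat_lit 8245175328),
  Rx.mk (nat_lit 53) (nat_lit 5) (nat_lit 6) (nat_lit 0) (nat_lit 3) (nat_lit 281) (nat_lit 332) r3_281 r2_332 (nat_lit 0) (nat_lit 0) (nat_lit 0) (nat_lit 0x7741baad14) (nat_lit 4291651728),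
  Rx.mk (nat_lit 97) (nat_lit 1) (nat_lit 4) (nat_lit 1) (nat_lit 5) (nat_lit 272) (nat_lit 324) r3_272 r2_324 (nat_lit 0) (nat_lit 0) (nat_lit 0) (nat_lit 0x6f33ce53e8) (nat_lit 8245175328),
  Rx.mk (nat_lit 101) (nat_lit 5) (nat_lit 4) (nat_lit 1) (nat_lit 5) (nat_lit 275) (nat_lit 325) r3_275 r2_325 (nat_lit 0) (nat_lit 0) (nat_lit 0) (nat_lit 0x756abadee8) (nat_lit 5194743840),
  Rx.mk (nat_lit 105) (nat_lit 1) (nat_lit 5) (nat_lit 1) (nat_lit 7) (nat_lit 277) (nat_lit 329) r3_277 r2_329 (nat_lit 0) (nat_lit 0) (nat_lit 0) (nat_lit 0x7d272070d2) (nat_lit 1397538792),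
  Rx.mk (nat_lit 109) (nat_lit 5) (nat_lit 5) (nat_lit 1) (nat_lit 7) (nat_lit 280) (nat_lit 330) r3_280 r2_330 (nat_lit 0) (nat_lit 0) (nat_lit 0) (nat_lit 0x7d272070d2) (nat_lit 1397538792),
  Rx.mk (nat_lit 117) (nat_lit 5) (nat_lit 6) (nat_lit 1) (nat_lit 7) (nat_lit 282) (nat_lit 333) r3_282 r2_333 (nat_lit 0) (nat_lit 0) (nat_lit 0) (nat_lit 0x7e104edd02) (nat_lit 950437800),
  Rx.mk (nat_lit 161) (nat_lit 1) (nat_lit 4) (nat_lit 2) (nat_lit 5) (nat_lit 273) (nat_lit 326) r3_273 r2_326 (nat_lit 0) (nat_lit 0) (nat_lit 0) (nat_lit 0x7741baad14) (nat_lit 4291651728),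
  Rx.mk (nat_lit 169) (nat_lit 1) (nat_lit 5) (nat_lit 2) (nat_lit 7) (nat_lit 278) (nat_lit 331) r3_278 r2_331 (nat_lit 0) (nat_lit 0) (nat_lit 0) (nat_lit 0x7e104edd02) (nat_lit 950437800)]
noncomputable def e5_37 : List Rx := [
  Rx.mk (nat_lit 41) (nat_lit 1) (nat_lit 5) (nat_lit 0) (nat_lit 3) (nat_lit 285) (nat_lit 300) r3_285 r8_300 (nat_lit 0) (nat_lit 0) (nat_lit 0) (nat_lit 0x6e55c73538) (nat_lit 8670890592),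
  Rx.mk (nat_lit 45) (nat_lit 5) (nat_lit 5) (nat_lit 0) (nat_lit 3) (nat_lit 288) (nat_lit 301) r3_288 r8_301 (nat_lit 0) (nat_lit 0) (nat_lit 0) (nat_lit 0x6ab4f44608) (nat_lit 10451814048),
  Rx.mk (nat_lit 105) (nat_lit 1) (nat_lit 5) (nat_lit 1) (nat_lit 7) (nat_lit 286) (nat_lit 302) r3_286 r8_302 (nat_lit 0) (nat_lit 0) (nat_lit 0) (nat_lit 0x7a6150509a) (nat_lit 2758531464),
  Rx.mk (nat_lit 109) (nat_lit 5) (nat_lit 5) (nat_lit 1) (nat_lit 7) (nat_lit 289) (nat_lit 303) r3_289 r8_303 (nat_lit 0) (nat_lit 0) (nat_lit 0) (nat_lit 0x795b231474) (nat_lit 3261228048),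
  Rx.mk (nat_lit 169) (nat_lit 1) (nat_lit 5) (nat_lit 2) (nat_lit 7) (nat_lit 287) (nat_lit 304) r3_287 r8_304 (nat_lit 0) (nat_lit 0) (nat_lit 0) (nat_lit 0x7191b1135e) (nat_lit 7083452376)]
noncomputable def e5_38 : List Rx := [
  Rx.mk (nat_lit 97) (nat_lit 1) (nat_lit 4) (nat_lit 1) (nat_lit 5) (nat_lit 290) (nat_lit 301) r3_290 r8_301 (nat_lit 0) (nat_lit 0) (nat_lit 0) (nat_lit 0x6ab4f44608) (nat_lit 10451814048),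
  Rx.mk (nat_lit 101) (nat_lit 5) (nat_lit 4) (nat_lit 1) (nat_lit 5) (nat_lit 291) (nat_lit 300) r3_291 r8_300 (nat_lit 0) (nat_lit 0) (nat_lit 0) (nat_lit 0x6e55c73538) (nat_lit 8670890592),
  Rx.mk (nat_lit 105) (nat_lit 1) (nat_lit 5) (nat_lit 1) (nat_lit 7) (nat_lit 292) (nat_lit 303) r3_292 r8_303 (nat_lit 0) (nat_lit 0) (nat_lit 0) (nat_lit 0x795b231474) (nat_lit 3261228048),
  Rx.mk (nat_lit 109) (nat_lit 5) (nat_lit 5) (nat_lit 1) (nat_lit 7) (nat_lit 293) (nat_lit 302) r3_293 r8_302 (nat_lit 0) (nat_lit 0) (nat_lit 0) (nat_lit 0x7a6150509a) (nat_lit 2758531464),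
  Rx.mk (nat_lit 117) (nat_lit 5) (nat_lit 6) (nat_lit 1) (nat_lit 7) (nat_lit 294) (nat_lit 304) r3_294 r8_304 (nat_lit 0) (nat_lit 0) (nat_lit 0) (nat_lit 0x7191b1135e) (nat_lit 7083452376)]
noncomputable def e5_39 : List Rx := [
  Rx.mk (nat_lit 33) (nat_lit 1) (nat_lit 4) (nat_lit 0) (nat_lit 1) (nat_lit 267) (nat_lit 323) r3_267 r1_323 (nat_lit 0) (nat_lit 0) (nat_lit 0) (nat_lit 0x8000000000) (nat_lit 0),
  Rx.mk (nat_lit 41) (nat_lit 1) (nat_lit 5) (nat_lit 0) (nat_lit 3) (nat_lit 269) (nat_lit 294) r3_269 r1_294 (nat_lit 0) (nat_lit 0) (nat_lit 0) (nat_lit 0x7f3dabe604) (nat_lit 372604752),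
  Rx.mk (nat_lit 161) (nat_lit 1) (nat_lit 4) (nat_lit 2) (nat_lit 5) (nat_lit 268) (nat_lit 293) r3_268 r1_293 (nat_lit 0) (nat_lit 0) (nat_lit 0) (nat_lit 0x7f34c65466) (nat_lit 389663352),
  Rx.mk (nat_lit 169) (nat_lit 1) (nat_lit 5) (nat_lit 2) (nat_lit 7) (nat_lit 270) (nat_lit 295) r3_270 r1_295 (nat_lit 0) (nat_lit 0) (nat_lit 0) (nat_lit 0x7f46a79640) (nat_lit 355380480)]
noncomputable def e5_40 : List Rx := [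
  Rx.mk (nat_lit 41) (nat_lit 1) (nat_lit 5) (nat_lit 0) (nat_lit 3) (nat_lit 283) (nat_lit 61) r3_283 r7_61 (nat_lit 0) (nat_lit 0) (nat_lit 0) (nat_lit 0x75b85a24a6) (nat_lit 5045911416),
  Rx.mk (nat_lit 169) (nat_lit 1) (nat_lit 5) (nat_lit 2) (nat_lit 7) (nat_lit 284) (nat_lit 62) r3_284 r7_62 (nat_lit 0) (nat_lit 0) (nat_lit 0) (nat_lit 0x7f3a485c40) (nat_lit 379102464)]
noncomputable def e5_41 : List Rx := [
  Rx.mk (nat_lit 136) (nat_lit 0) (nat_lit 1) (nat_lit 2) (nat_lit 6) (nat_lit 257) (nat_lit 67) r3_257 r1_67 (nat_lit 0) (nat_lit 0) (nat_lit 0) (nat_lit 0x7cedd90582) (nat_lit 1507365288),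
  Rx.mk (nat_lit 138) (nat_lit 2) (nat_lit 1) (nat_lit 2) (nat_lit 7) (nat_lit 258) (nat_lit 68) r3_258 r1_68 (nat_lit 0) (nat_lit 0) (nat_lit 0) (nat_lit 0x7c2bd226b2) (nat_lit 1879391592),
  Rx.mk (nat_lit 168) (nat_lit 0) (nat_lit 5) (nat_lit 2) (nat_lit 6) (nat_lit 259) (nat_lit 66) r3_259 r1_66 (nat_lit 0) (nat_lit 0) (nat_lit 0) (nat_lit 0x8000000000) (nat_lit 0)]
noncomputable def e5_42 : List Rx := [
  Rx.mk (nat_lit 136) (nat_lit 0) (nat_lit 1) (nat_lit 2) (nat_lit 6) (nat_lit 249) (nat_lit 59) r3_249 r2_59 (nat_lit 0) (nat_lit 0) (nat_lit 0) (nat_lit 0x7fc66c7972) (nat_lit 110396520),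
  Rx.mk (nat_lit 138) (nat_lit 2) (nat_lit 1) (nat_lit 2) (nat_lit 7) (nat_lit 250) (nat_lit 61) r3_250 r2_61 (nat_lit 0) (nat_lit 0) (nat_lit 0) (nat_lit 0x7f19302de4) (nat_lit 442557648),
  Rx.mk (nat_lit 394) (nat_lit 2) (nat_lit 1) (nat_lit 6) (nat_lit 7) (nat_lit 251) (nat_lit 60) r3_251 r2_60 (nat_lit 0) (nat_lit 0) (nat_lit 0) (nat_lit 0x7f3a2d5df0) (nat_lit 379304640)]
noncomputable def e5_43 : List Rx := [
  Rx.mk (nat_lit 40) (nat_lit 0) (nat_lit 5) (nat_lit 0) (nat_lit 2) (nat_lit 263) (nat_lit 334) r3_263 r7_334 (nat_lit 0) (nat_lit 0) (nat_lit 0) (nat_lit 0x6b3e98cb36) (nat_lit 10187898552),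
  Rx.mk (nat_lit 41) (nat_lit 1) (nat_lit 5) (nat_lit 0) (nat_lit 3) (nat_lit 265) (nat_lit 335) r3_265 r7_335 (nat_lit 0) (nat_lit 0) (nat_lit 0) (nat_lit 0x732efe9ce8) (nat_lit 6290987040),
  Rx.mk (nat_lit 136) (nat_lit 0) (nat_lit 1) (nat_lit 2) (nat_lit 6) (nat_lit 260) (nat_lit 331) r3_260 r7_331 (nat_lit 0) (nat_lit 0) (nat_lit 0) (nat_lit 0x6e724f8c96) (nat_lit 8616182328),
  Rx.mk (nat_lit 137) (nat_lit 1) (nat_lit 1) (nat_lit 2) (nat_lit 7) (nat_lit 261) (nat_lit 332) r3_261 r7_332 (nat_lit 0) (nat_lit 0) (nat_lit 0) (nat_lit 0x7bddb1e904) (nat_lit 2029189968),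
  Rx.mk (nat_lit 138) (nat_lit 2) (nat_lit 1) (nat_lit 2) (nat_lit 7) (nat_lit 262) (nat_lit 333) r3_262 r7_333 (nat_lit 0) (nat_lit 0) (nat_lit 0) (nat_lit 0x7cba1941b2) (nat_lit 1606588776),
  Rx.mk (nat_lit 168) (nat_lit 0) (nat_lit 5) (nat_lit 2) (nat_lit 6) (nat_lit 264) (nat_lit 336) r3_264 r7_336 (nat_lit 0) (nat_lit 0) (nat_lit 0) (nat_lit 0x73f40d8b34) (nat_lit 5913148176),
  Rx.mk (nat_lit 169) (nat_lit 1) (nat_lit 5) (nat_lit 2) (nat_lit 7) (nat_lit 266) (nat_lit 337) r3_266 r7_337 (nat_lit 0) (nat_lit 0) (nat_lit 0) (nat_lit 0x7c2ead98f8) (nat_lit 1873913184)]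
noncomputable def e5_44 : List Rx := [
  Rx.mk (nat_lit 136) (nat_lit 0) (nat_lit 1) (nat_lit 2) (nat_lit 6) (nat_lit 252) (nat_lit 19) r3_252 r8_19 (nat_lit 0) (nat_lit 0) (nat_lit 0) (nat_lit 0x6e3f9218a0) (nat_lit 8713471104),
  Rx.mk (nat_lit 137) (nat_lit 1) (nat_lit 1) (nat_lit 2) (nat_lit 7) (nat_lit 253) (nat_lit 20) r3_253 r8_20 (nat_lit 0) (nat_lit 0) (nat_lit 0) (nat_lit 0x7c4a3100a6) (nat_lit 1821159288),
  Rx.mk (nat_lit 138) (nat_lit 2) (nat_lit 1) (nat_lit 2) (nat_lit 7) (nat_lit 254) (nat_lit 22) r3_254 r8_22 (nat_lit 0) (nat_lit 0) (nat_lit 0) (nat_lit 0x7764b97d04) (nat_lit 4224551760),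
  Rx.mk (nat_lit 394) (nat_lit 2) (nat_lit 1) (nat_lit 6) (nat_lit 7) (nat_lit 255) (nat_lit 21) r3_255 r8_21 (nat_lit 0) (nat_lit 0) (nat_lit 0) (nat_lit 0x7bb65c3e86) (nat_lit 2104610040)]
noncomputable def e5_45 : List Rx := [
  Rx.mk (nat_lit 394) (nat_lit 2) (nat_lit 1) (nat_lit 6) (nat_lit 7) (nat_lit 256) (nat_lit 14) r3_256 r8_14 (nat_lit 0) (nat_lit 0) (nat_lit 0) (nat_lit 0x7ad52b5276) (nat_lit 2536390584)]
noncomputable def e5_46 : List Rx := [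
  Rx.mk (nat_lit 43) (nat_lit 3) (nat_lit 5) (nat_lit 0) (nat_lit 3) (nat_lit 315) (nat_lit 66) r3_315 r4_66 (nat_lit 0) (nat_lit 0) (nat_lit 0) (nat_lit 0x7f9a3d1c94) (nat_lit 195116688),
  Rx.mk (nat_lit 168) (nat_lit 0) (nat_lit 5) (nat_lit 2) (nat_lit 6) (nat_lit 314) (nat_lit 65) r3_314 r4_65 (nat_lit 0) (nat_lit 0) (nat_lit 0) (nat_lit 0x7ffc241dc2) (nat_lit 7399080),
  Rx.mk (nat_lit 171) (nat_lit 3) (nat_lit 5) (nat_lit 2) (nat_lit 7) (nat_lit 316) (nat_lit 67) r3_316 r4_67 (nat_lit 0) (nat_lit 0) (nat_lit 0) (nat_lit 0x7fe190a714) (nat_lit 58355856)]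
noncomputable def e5_47 : List Rx := [
  Rx.mk (nat_lit 32) (nat_lit 0) (nat_lit 4) (nat_lit 0) (nat_lit 0) (nat_lit 299) (nat_lit 315) r3_299 r4_315 (nat_lit 0) (nat_lit 0) (nat_lit 0) (nat_lit 0x72d96d1656) (nat_lit 6455055672),
  Rx.mk (nat_lit 33) (nat_lit 1) (nat_lit 4) (nat_lit 0) (nat_lit 1) (nat_lit 301) (nat_lit 316) r3_301 r4_316 (nat_lit 0) (nat_lit 0) (nat_lit 0) (nat_lit 0x790eef77fa) (nat_lit 3407336712),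
  Rx.mk (nat_lit 35) (nat_lit 3) (nat_lit 4) (nat_lit 0) (nat_lit 1) (nat_lit 303) (nat_lit 317) r3_303 r4_317 (nat_lit 0) (nat_lit 0) (nat_lit 0) (nat_lit 0x79c6919d20) (nat_lit 3055238784),
  Rx.mk (nat_lit 40) (nat_lit 0) (nat_lit 5) (nat_lit 0) (nat_lit 2) (nat_lit 305) (nat_lit 321) r3_305 r4_321 (nat_lit 0) (nat_lit 0) (nat_lit 0) (nat_lit 0x7824867f74) (nat_lit 3856793616),
  Rx.mk (nat_lit 41) (nat_lit 1) (nat_lit 5) (nat_lit 0) (nat_lit 3) (nat_lit 307) (nat_lit 322) r3_307 r4_322 (nat_lit 0) (nat_lit 0) (nat_lit 0) (nat_lit 0x7cbf2d1070) (nat_lit 1596853440),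
  Rx.mk (nat_lit 43) (nat_lit 3) (nat_lit 5) (nat_lit 0) (nat_lit 3) (nat_lit 309) (nat_lit 323) r3_309 r4_323 (nat_lit 0) (nat_lit 0) (nat_lit 0) (nat_lit 0x7cb07e3b6c) (nat_lit 1625006448),
  Rx.mk (nat_lit 160) (nat_lit 0) (nat_lit 4) (nat_lit 2) (nat_lit 4) (nat_lit 300) (nat_lit 318) r3_300 r4_318 (nat_lit 0) (nat_lit 0) (nat_lit 0) (nat_lit 0x7a41dba804) (nat_lit 2818844496),
  Rx.mk (nat_lit 161) (nat_lit 1) (nat_lit 4) (nat_lit 2) (nat_lit 5) (nat_lit 302) (nat_lit 319) r3_302 r4_319 (nat_lit 0) (nat_lit 0) (nat_lit 0) (nat_lit 0x7e0ef89268) (nat_lit 953001504),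
  Rx.mk (nat_lit 163) (nat_lit 3) (nat_lit 4) (nat_lit 2) (nat_lit 5) (nat_lit 304) (nat_lit 320) r3_304 r4_320 (nat_lit 0) (nat_lit 0) (nat_lit 0) (nat_lit 0x7c8fa6290e) (nat_lit 1687981464),
  Rx.mk (nat_lit 168) (nat_lit 0) (nat_lit 5) (nat_lit 2) (nat_lit 6) (nat_lit 306) (nat_lit 324) r3_306 r4_324 (nat_lit 0) (nat_lit 0) (nat_lit 0) (nat_lit 0x7e5e87d924) (nat_lit 800454096),
  Rx.mk (nat_lit 169) (nat_lit 1) (nat_lit 5) (nat_lit 2) (nat_lit 7) (nat_lit 308) (nat_lit 325) r3_308 r4_325 (nat_lit 0) (nat_lit 0) (nat_lit 0) (nat_lit 0x7eb281d930) (nat_lit 639437760),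
  Rx.mk (nat_lit 171) (nat_lit 3) (nat_lit 5) (nat_lit 2) (nat_lit 7) (nat_lit 310) (nat_lit 326) r3_310 r4_326 (nat_lit 0) (nat_lit 0) (nat_lit 0) (nat_lit 0x7ea6169ff0) (nat_lit 663249600)]
noncomputable def e5_48 : List Rx := [
  Rx.mk (nat_lit 40) (nat_lit 0) (nat_lit 5) (nat_lit 0) (nat_lit 2) (nat_lit 317) (nat_lit 38) r3_317 r9_38 (nat_lit 0) (nat_lit 0) (nat_lit 0) (nat_lit 0x7143ff0ecc) (nat_lit 7232425200),
  Rx.mk (nat_lit 41) (nat_lit 1) (nat_lit 5) (nat_lit 0) (nat_lit 3) (nat_lit 319) (nat_lit 40) r3_319 r9_40 (nat_lit 0) (nat_lit 0) (nat_lit 0) (nat_lit 0x7b2d0a942a) (nat_lit 2367904968),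
  Rx.mk (nat_lit 43) (nat_lit 3) (nat_lit 5) (nat_lit 0) (nat_lit 3) (nat_lit 321) (nat_lit 42) r3_321 r9_42 (nat_lit 0) (nat_lit 0) (nat_lit 0) (nat_lit 0x7b7cf61522) (nat_lit 2214666792),
  Rx.mk (nat_lit 168) (nat_lit 0) (nat_lit 5) (nat_lit 2) (nat_lit 6) (nat_lit 318) (nat_lit 39) r3_318 r9_39 (nat_lit 0) (nat_lit 0) (nat_lit 0) (nat_lit 0x7f9d302d60) (nat_lit 189461376),
  Rx.mk (nat_lit 169) (nat_lit 1) (nat_lit 5) (nat_lit 2) (nat_lit 7) (nat_lit 320) (nat_lit 41) r3_320 r9_41 (nat_lit 0) (nat_lit 0) (nat_lit 0) (nat_lit 0x7f23fc011c) (nat_lit 421857072),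
  Rx.mk (nat_lit 171) (nat_lit 3) (nat_lit 5) (nat_lit 2) (nat_lit 7) (nat_lit 322) (nat_lit 43) r3_322 r9_43 (nat_lit 0) (nat_lit 0) (nat_lit 0) (nat_lit 0x7eeb84a8ca) (nat_lit 530125128)]
noncomputable def e5_49 : List Rx := [
  Rx.mk (nat_lit 32) (nat_lit 0) (nat_lit 4) (nat_lit 0) (nat_lit 0) (nat_lit 333) (nat_lit 19) r3_333 r10_19 (nat_lit 0) (nat_lit 0) (nat_lit 0) (nat_lit 0x611f400ae2) (nat_lit 15156536616),
  Rx.mk (nat_lit 33) (nat_lit 1) (nat_lit 4) (nat_lit 0) (nat_lit 1) (nat_lit 335) (nat_lit 25) r3_335 r10_25 (nat_lit 0) (nat_lit 0) (nat_lit 0) (nat_lit 0x6c0e76ec84) (nat_lit 9789333840),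
  Rx.mk (nat_lit 35) (nat_lit 3) (nat_lit 4) (nat_lit 0) (nat_lit 1) (nat_lit 337) (nat_lit 31) r3_337 r10_31 (nat_lit 0) (nat_lit 0) (nat_lit 0) (nat_lit 0x6e8b4ffc76) (nat_lit 8568244152),
  Rx.mk (nat_lit 40) (nat_lit 0) (nat_lit 5) (nat_lit 0) (nat_lit 2) (nat_lit 340) (nat_lit 20) r3_340 r10_20 (nat_lit 0) (nat_lit 0) (nat_lit 0) (nat_lit 0x6c7064ad46) (nat_lit 9601565688),
  Rx.mk (nat_lit 41) (nat_lit 1) (nat_lit 5) (nat_lit 0) (nat_lit 3) (nat_lit 342) (nat_lit 26) r3_342 r10_26 (nat_lit 0) (nat_lit 0) (nat_lit 0) (nat_lit 0x7c9d740c22) (nat_lit 1661513256),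
  Rx.mk (nat_lit 43) (nat_lit 3) (nat_lit 5) (nat_lit 0) (nat_lit 3) (nat_lit 344) (nat_lit 32) r3_344 r10_32 (nat_lit 0) (nat_lit 0) (nat_lit 0) (nat_lit 0x7822d6fa6e) (nat_lit 3860025624),
  Rx.mk (nat_lit 56) (nat_lit 0) (nat_lit 7) (nat_lit 0) (nat_lit 2) (nat_lit 347) (nat_lit 21) r3_347 r10_21 (nat_lit 0) (nat_lit 0) (nat_lit 0) (nat_lit 0x6df68609aa) (nat_lit 8853531336),
  Rx.mk (nat_lit 57) (nat_lit 1) (nat_lit 7) (nat_lit 0) (nat_lit 3) (nat_lit 349) (nat_lit 27) r3_349 r10_27 (nat_lit 0) (nat_lit 0) (nat_lit 0) (nat_lit 0x7aec04a4ca) (nat_lit 2492580168),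
  Rx.mk (nat_lit 160) (nat_lit 0) (nat_lit 4) (nat_lit 2) (nat_lit 4) (nat_lit 334) (nat_lit 22) r3_334 r10_22 (nat_lit 0) (nat_lit 0) (nat_lit 0) (nat_lit 0x7199b2b33c) (nat_lit 7068101040),
  Rx.mk (nat_lit 161) (nat_lit 1) (nat_lit 4) (nat_lit 2) (nat_lit 5) (nat_lit 336) (nat_lit 28) r3_336 r10_28 (nat_lit 0) (nat_lit 0) (nat_lit 0) (nat_lit 0x7db4419e32) (nat_lit 1126937448),
  Rx.mk (nat_lit 163) (nat_lit 3) (nat_lit 4) (nat_lit 2) (nat_lit 5) (nat_lit 338) (nat_lit 35) r3_338 r10_35 (nat_lit 0) (nat_lit 0) (nat_lit 0) (nat_lit 0x7ba330b152) (nat_lit 2141366760),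
  Rx.mk (nat_lit 168) (nat_lit 0) (nat_lit 5) (nat_lit 2) (nat_lit 6) (nat_lit 341) (nat_lit 23) r3_341 r10_23 (nat_lit 0) (nat_lit 0) (nat_lit 0) (nat_lit 0x7bee1be254) (nat_lit 1997717904),
  Rx.mk (nat_lit 169) (nat_lit 1) (nat_lit 5) (nat_lit 2) (nat_lit 7) (nat_lit 343) (nat_lit 29) r3_343 r10_29 (nat_lit 0) (nat_lit 0) (nat_lit 0) (nat_lit 0x7e26fad22c) (nat_lit 906967152),
  Rx.mk (nat_lit 171) (nat_lit 3) (nat_lit 5) (nat_lit 2) (nat_lit 7) (nat_lit 345) (nat_lit 36) r3_345 r10_36 (nat_lit 0) (nat_lit 0) (nat_lit 0) (nat_lit 0x7e079ac84c) (nat_lit 967125744),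
  Rx.mk (nat_lit 184) (nat_lit 0) (nat_lit 7) (nat_lit 2) (nat_lit 6) (nat_lit 348) (nat_lit 24) r3_348 r10_24 (nat_lit 0) (nat_lit 0) (nat_lit 0) (nat_lit 0x7846764056) (nat_lit 3791723832),
  Rx.mk (nat_lit 185) (nat_lit 1) (nat_lit 7) (nat_lit 2) (nat_lit 7) (nat_lit 350) (nat_lit 30) r3_350 r10_30 (nat_lit 0) (nat_lit 0) (nat_lit 0) (nat_lit 0x7e1c68bb58) (nat_lit 927235296),
  Rx.mk (nat_lit 227) (nat_lit 3) (nat_lit 4) (nat_lit 3) (nat_lit 5) (nat_lit 339) (nat_lit 33) r3_339 r10_33 (nat_lit 0) (nat_lit 0) (nat_lit 0) (nat_lit 0x7e061120e8) (nat_lit 970074144),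
  Rx.mk (nat_lit 235) (nat_lit 3) (nat_lit 5) (nat_lit 3) (nat_lit 7) (nat_lit 346) (nat_lit 34) r3_346 r10_34 (nat_lit 0) (nat_lit 0) (nat_lit 0) (nat_lit 0x7dec2adf66) (nat_lit 1019733624)]
noncomputable def e5_50 : List Rx := [
  Rx.mk (nat_lit 43) (nat_lit 3) (nat_lit 5) (nat_lit 0) (nat_lit 3) (nat_lit 323) (nat_lit 351) r3_323 r10_351 (nat_lit 0) (nat_lit 0) (nat_lit 0) (nat_lit 0x7ae9e266f0) (nat_lit 2496671424),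
  Rx.mk (nat_lit 171) (nat_lit 3) (nat_lit 5) (nat_lit 2) (nat_lit 7) (nat_lit 324) (nat_lit 352) r3_324 r10_352 (nat_lit 0) (nat_lit 0) (nat_lit 0) (nat_lit 0x7fe8167eb0) (nat_lit 45849024)]
noncomputable def e5_51 : List Rx := [
  Rx.mk (nat_lit 39) (nat_lit 7) (nat_lit 4) (nat_lit 0) (nat_lit 1) (nat_lit 80) (nat_lit 55) r3_80 r12_55 (nat_lit 0) (nat_lit 0) (nat_lit 0) (nat_lit 0x8000000000) (nat_lit 0),
  Rx.mk (nat_lit 52) (nat_lit 4) (nat_lit 6) (nat_lit 0) (nat_lit 2) (nat_lit 353) (nat_lit 52) r3_353 r12_52 (nat_lit 0) (nat_lit 0) (nat_lit 0) (nat_lit 0x8000000000) (nat_lit 0),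
  Rx.mk (nat_lit 55) (nat_lit 7) (nat_lit 6) (nat_lit 0) (nat_lit 3) (nat_lit 84) (nat_lit 59) r3_84 r12_59 (nat_lit 0) (nat_lit 0) (nat_lit 0) (nat_lit 0x7fe86cb94c) (nat_lit 45203184),
  Rx.mk (nat_lit 63) (nat_lit 7) (nat_lit 7) (nat_lit 0) (nat_lit 3) (nat_lit 86) (nat_lit 57) r3_86 r12_57 (nat_lit 0) (nat_lit 0) (nat_lit 0) (nat_lit 0x7d4a01a29c) (nat_lit 1330660656),
  Rx.mk (nat_lit 103) (nat_lit 7) (nat_lit 4) (nat_lit 1) (nat_lit 5) (nat_lit 81) (nat_lit 56) r3_81 r12_56 (nat_lit 0) (nat_lit 0) (nat_lit 0) (nat_lit 0x78dfe268fa) (nat_lit 3497552136),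
  Rx.mk (nat_lit 116) (nat_lit 4) (nat_lit 6) (nat_lit 1) (nat_lit 6) (nat_lit 82) (nat_lit 53) r3_82 r12_53 (nat_lit 0) (nat_lit 0) (nat_lit 0) (nat_lit 0x7eb04a3cac) (nat_lit 643689072),
  Rx.mk (nat_lit 119) (nat_lit 7) (nat_lit 6) (nat_lit 1) (nat_lit 7) (nat_lit 85) (nat_lit 60) r3_85 r12_60 (nat_lit 0) (nat_lit 0) (nat_lit 0) (nat_lit 0x7f5a643a62) (nat_lit 317537064),
  Rx.mk (nat_lit 127) (nat_lit 7) (nat_lit 7) (nat_lit 1) (nat_lit 7) (nat_lit 87) (nat_lit 58) r3_87 r12_58 (nat_lit 0) (nat_lit 0) (nat_lit 0) (nat_lit 0x7b9901944e) (nat_lit 2160893592),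
  Rx.mk (nat_lit 244) (nat_lit 4) (nat_lit 6) (nat_lit 3) (nat_lit 6) (nat_lit 83) (nat_lit 54) r3_83 r12_54 (nat_lit 0) (nat_lit 0) (nat_lit 0) (nat_lit 0x7fc30d0f6c) (nat_lit 116863344)]
noncomputable def e5_52 : List Rx := [
  Rx.mk (nat_lit 59) (nat_lit 3) (nat_lit 7) (nat_lit 0) (nat_lit 3) (nat_lit 55) (nat_lit 19) r3_55 r12_19 (nat_lit 0) (nat_lit 0) (nat_lit 0) (nat_lit 0x7b0082bcd4) (nat_lit 2453287824),
  Rx.mk (nat_lit 63) (nat_lit 7) (nat_lit 7) (nat_lit 0) (nat_lit 3) (nat_lit 57) (nat_lit 17) r3_57 r12_17 (nat_lit 0) (nat_lit 0) (nat_lit 0) (nat_lit 0x7fececd146) (nat_lit 36574200),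
  Rx.mk (nat_lit 155) (nat_lit 3) (nat_lit 3) (nat_lit 2) (nat_lit 7) (nat_lit 50) (nat_lit 25) r3_50 r12_25 (nat_lit 0) (nat_lit 0) (nat_lit 0) (nat_lit 0x7986b4fb2a) (nat_lit 3177687240),
  Rx.mk (nat_lit 187) (nat_lit 3) (nat_lit 7) (nat_lit 2) (nat_lit 7) (nat_lit 56) (nat_lit 20) r3_56 r12_20 (nat_lit 0) (nat_lit 0) (nat_lit 0) (nat_lit 0x7f69370d26) (nat_lit 289114488),
  Rx.mk (nat_lit 231) (nat_lit 7) (nat_lit 4) (nat_lit 3) (nat_lit 5) (nat_lit 51) (nat_lit 16) r3_51 r12_16 (nat_lit 0) (nat_lit 0) (nat_lit 0) (nat_lit 0x8000000000) (nat_lit 0),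
  Rx.mk (nat_lit 244) (nat_lit 4) (nat_lit 6) (nat_lit 3) (nat_lit 6) (nat_lit 52) (nat_lit 22) r3_52 r12_22 (nat_lit 0) (nat_lit 0) (nat_lit 0) (nat_lit 0x7735c94c36) (nat_lit 4314550968),
  Rx.mk (nat_lit 247) (nat_lit 7) (nat_lit 6) (nat_lit 3) (nat_lit 7) (nat_lit 54) (nat_lit 23) r3_54 r12_23 (nat_lit 0) (nat_lit 0) (nat_lit 0) (nat_lit 0x7fbcc993aa) (nat_lit 128873160),
  Rx.mk (nat_lit 255) (nat_lit 7) (nat_lit 7) (nat_lit 3) (nat_lit 7) (nat_lit 58) (nat_lit 18) r3_58 r12_18 (nat_lit 0) (nat_lit 0) (nat_lit 0) (nat_lit 0x7d72006288) (nat_lit 1253974176),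
  Rx.mk (nat_lit 470) (nat_lit 6) (nat_lit 2) (nat_lit 7) (nat_lit 7) (nat_lit 49) (nat_lit 26) r3_49 r12_26 (nat_lit 0) (nat_lit 0) (nat_lit 0) (nat_lit 0x7e98a7f6e8) (nat_lit 689004576),
  Rx.mk (nat_lit 500) (nat_lit 4) (nat_lit 6) (nat_lit 7) (nat_lit 6) (nat_lit 352) (nat_lit 21) r3_352 r12_21 (nat_lit 0) (nat_lit 0) (nat_lit 0) (nat_lit 0x8000000000) (nat_lit 0),
  Rx.mk (nat_lit 502) (nat_lit 6) (nat_lit 6) (nat_lit 7) (nat_lit 7) (nat_lit 53) (nat_lit 24) r3_53 r12_24 (nat_lit 0) (nat_lit 0) (nat_lit 0) (nat_lit 0x791d0196ca) (nat_lit 3380357448)]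
noncomputable def e5_53 : List Rx := [
  Rx.mk (nat_lit 39) (nat_lit 7) (nat_lit 4) (nat_lit 0) (nat_lit 1) (nat_lit 355) (nat_lit 323) r3_355 r12_323 (nat_lit 0) (nat_lit 0) (nat_lit 0) (nat_lit 0x8000000000) (nat_lit 0),
  Rx.mk (nat_lit 55) (nat_lit 7) (nat_lit 6) (nat_lit 0) (nat_lit 3) (nat_lit 218) (nat_lit 293) r3_218 r12_293 (nat_lit 0) (nat_lit 0) (nat_lit 0) (nat_lit 0x7fb77b4894) (nat_lit 139046544),
  Rx.mk (nat_lit 103) (nat_lit 7) (nat_lit 4) (nat_lit 1) (nat_lit 5) (nat_lit 217) (nat_lit 294) r3_217 r12_294 (nat_lit 0) (nat_lit 0) (nat_lit 0) (nat_lit 0x794234437a) (nat_lit 3309034248),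
  Rx.mk (nat_lit 119) (nat_lit 7) (nat_lit 6) (nat_lit 1) (nat_lit 7) (nat_lit 219) (nat_lit 295) r3_219 r12_295 (nat_lit 0) (nat_lit 0) (nat_lit 0) (nat_lit 0x7f2d71e9b4) (nat_lit 403717392)]
noncomputable def e5_54 : List Rx := [
  Rx.mk (nat_lit 59) (nat_lit 3) (nat_lit 7) (nat_lit 0) (nat_lit 3) (nat_lit 208) (nat_lit 16) r3_208 r12_16 (nat_lit 0) (nat_lit 0) (nat_lit 0) (nat_lit 0x8000000000) (nat_lit 0),
  Rx.mk (nat_lit 152) (nat_lit 0) (nat_lit 3) (nat_lit 2) (nat_lit 6) (nat_lit 354) (nat_lit 21) r3_354 r12_21 (nat_lit 0) (nat_lit 0) (nat_lit 0) (nat_lit 0x8000000000) (nat_lit 0),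
  Rx.mk (nat_lit 154) (nat_lit 2) (nat_lit 3) (nat_lit 2) (nat_lit 7) (nat_lit 201) (nat_lit 24) r3_201 r12_24 (nat_lit 0) (nat_lit 0) (nat_lit 0) (nat_lit 0x791d0196ca) (nat_lit 3380357448),
  Rx.mk (nat_lit 184) (nat_lit 0) (nat_lit 7) (nat_lit 2) (nat_lit 6) (nat_lit 207) (nat_lit 22) r3_207 r12_22 (nat_lit 0) (nat_lit 0) (nat_lit 0) (nat_lit 0x7735c94c36) (nat_lit 4314550968),
  Rx.mk (nat_lit 187) (nat_lit 3) (nat_lit 7) (nat_lit 2) (nat_lit 7) (nat_lit 209) (nat_lit 23) r3_209 r12_23 (nat_lit 0) (nat_lit 0) (nat_lit 0) (nat_lit 0x7fbcc993aa) (nat_lit 128873160),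
  Rx.mk (nat_lit 227) (nat_lit 3) (nat_lit 4) (nat_lit 3) (nat_lit 5) (nat_lit 203) (nat_lit 17) r3_203 r12_17 (nat_lit 0) (nat_lit 0) (nat_lit 0) (nat_lit 0x7fececd146) (nat_lit 36574200),
  Rx.mk (nat_lit 231) (nat_lit 7) (nat_lit 4) (nat_lit 3) (nat_lit 5) (nat_lit 204) (nat_lit 19) r3_204 r12_19 (nat_lit 0) (nat_lit 0) (nat_lit 0) (nat_lit 0x7b0082bcd4) (nat_lit 2453287824),
  Rx.mk (nat_lit 247) (nat_lit 7) (nat_lit 6) (nat_lit 3) (nat_lit 7) (nat_lit 205) (nat_lit 20) r3_205 r12_20 (nat_lit 0) (nat_lit 0) (nat_lit 0) (nat_lit 0x7f69370d26) (nat_lit 289114488),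
  Rx.mk (nat_lit 251) (nat_lit 3) (nat_lit 7) (nat_lit 3) (nat_lit 7) (nat_lit 210) (nat_lit 18) r3_210 r12_18 (nat_lit 0) (nat_lit 0) (nat_lit 0) (nat_lit 0x7d72006288) (nat_lit 1253974176),
  Rx.mk (nat_lit 410) (nat_lit 2) (nat_lit 3) (nat_lit 6) (nat_lit 7) (nat_lit 202) (nat_lit 26) r3_202 r12_26 (nat_lit 0) (nat_lit 0) (nat_lit 0) (nat_lit 0x7e98a7f6e8) (nat_lit 689004576),
  Rx.mk (nat_lit 503) (nat_lit 7) (nat_lit 6) (nat_lit 7) (nat_lit 7) (nat_lit 206) (nat_lit 25) r3_206 r12_25 (nat_lit 0) (nat_lit 0) (nat_lit 0) (nat_lit 0x7986b4fb2a) (nat_lit 3177687240)]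
noncomputable def e5_55 : List Rx := [
  Rx.mk (nat_lit 35) (nat_lit 3) (nat_lit 4) (nat_lit 0) (nat_lit 1) (nat_lit 357) (nat_lit 61) r3_357 r3_61 (nat_lit 0) (nat_lit 0) (nat_lit 0) (nat_lit 0x8000000000) (nat_lit 0),
  Rx.mk (nat_lit 43) (nat_lit 3) (nat_lit 5) (nat_lit 0) (nat_lit 3) (nat_lit 297) (nat_lit 62) r3_297 r3_62 (nat_lit 0) (nat_lit 0) (nat_lit 0) (nat_lit 0x7fff25cda4) (nat_lit 1634256),
  Rx.mk (nat_lit 160) (nat_lit 0) (nat_lit 4) (nat_lit 2) (nat_lit 4) (nat_lit 356) (nat_lit 59) r3_356 r3_59 (nat_lit 0) (nat_lit 0) (nat_lit 0) (nat_lit 0x8000000000) (nat_lit 0),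
  Rx.mk (nat_lit 163) (nat_lit 3) (nat_lit 4) (nat_lit 2) (nat_lit 5) (nat_lit 295) (nat_lit 63) r3_295 r3_63 (nat_lit 0) (nat_lit 0) (nat_lit 0) (nat_lit 0x7ff39646a8) (nat_lit 23800608),
  Rx.mk (nat_lit 168) (nat_lit 0) (nat_lit 5) (nat_lit 2) (nat_lit 6) (nat_lit 296) (nat_lit 60) r3_296 r3_60 (nat_lit 0) (nat_lit 0) (nat_lit 0) (nat_lit 0x7fff25cda4) (nat_lit 1634256),
  Rx.mk (nat_lit 171) (nat_lit 3) (nat_lit 5) (nat_lit 2) (nat_lit 7) (nat_lit 298) (nat_lit 64) r3_298 r3_64 (nat_lit 0) (nat_lit 0) (nat_lit 0) (nat_lit 0x7fa7df8260) (nat_lit 168974208)]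
noncomputable def e5_56 : List Rx := [
  Rx.mk (nat_lit 35) (nat_lit 3) (nat_lit 4) (nat_lit 0) (nat_lit 1) (nat_lit 325) (nat_lit 55) r3_325 r12_55 (nat_lit 0) (nat_lit 0) (nat_lit 0) (nat_lit 0x8000000000) (nat_lit 0),
  Rx.mk (nat_lit 43) (nat_lit 3) (nat_lit 5) (nat_lit 0) (nat_lit 3) (nat_lit 329) (nat_lit 56) r3_329 r12_56 (nat_lit 0) (nat_lit 0) (nat_lit 0) (nat_lit 0x78dfe268fa) (nat_lit 3497552136),
  Rx.mk (nat_lit 160) (nat_lit 0) (nat_lit 4) (nat_lit 2) (nat_lit 4) (nat_lit 359) (nat_lit 52) r3_359 r12_52 (nat_lit 0) (nat_lit 0) (nat_lit 0) (nat_lit 0x8000000000) (nat_lit 0),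
  Rx.mk (nat_lit 163) (nat_lit 3) (nat_lit 4) (nat_lit 2) (nat_lit 5) (nat_lit 326) (nat_lit 59) r3_326 r12_59 (nat_lit 0) (nat_lit 0) (nat_lit 0) (nat_lit 0x7fe86cb94c) (nat_lit 45203184),
  Rx.mk (nat_lit 168) (nat_lit 0) (nat_lit 5) (nat_lit 2) (nat_lit 6) (nat_lit 328) (nat_lit 53) r3_328 r12_53 (nat_lit 0) (nat_lit 0) (nat_lit 0) (nat_lit 0x7eb04a3cac) (nat_lit 643689072),
  Rx.mk (nat_lit 171) (nat_lit 3) (nat_lit 5) (nat_lit 2) (nat_lit 7) (nat_lit 330) (nat_lit 60) r3_330 r12_60 (nat_lit 0) (nat_lit 0) (nat_lit 0) (nat_lit 0x7f5a643a62) (nat_lit 317537064),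
  Rx.mk (nat_lit 184) (nat_lit 0) (nat_lit 7) (nat_lit 2) (nat_lit 6) (nat_lit 332) (nat_lit 54) r3_332 r12_54 (nat_lit 0) (nat_lit 0) (nat_lit 0) (nat_lit 0x7fc30d0f6c) (nat_lit 116863344),
  Rx.mk (nat_lit 227) (nat_lit 3) (nat_lit 4) (nat_lit 3) (nat_lit 5) (nat_lit 327) (nat_lit 57) r3_327 r12_57 (nat_lit 0) (nat_lit 0) (nat_lit 0) (nat_lit 0x7d4a01a29c) (nat_lit 1330660656),
  Rx.mk (nat_lit 235) (nat_lit 3) (nat_lit 5) (nat_lit 3) (nat_lit 7) (nat_lit 331) (nat_lit 58) r3_331 r12_58 (nat_lit 0) (nat_lit 0) (nat_lit 0) (nat_lit 0x7b9901944e) (nat_lit 2160893592)]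
noncomputable def e5_57 : List Rx := [
  Rx.mk (nat_lit 35) (nat_lit 3) (nat_lit 4) (nat_lit 0) (nat_lit 1) (nat_lit 358) (nat_lit 323) r3_358 r12_323 (nat_lit 0) (nat_lit 0) (nat_lit 0) (nat_lit 0x8000000000) (nat_lit 0),
  Rx.mk (nat_lit 43) (nat_lit 3) (nat_lit 5) (nat_lit 0) (nat_lit 3) (nat_lit 312) (nat_lit 294) r3_312 r12_294 (nat_lit 0) (nat_lit 0) (nat_lit 0) (nat_lit 0x794234437a) (nat_lit 3309034248),
  Rx.mk (nat_lit 163) (nat_lit 3) (nat_lit 4) (nat_lit 2) (nat_lit 5) (nat_lit 311) (nat_lit 293) r3_311 r12_293 (nat_lit 0) (nat_lit 0) (nat_lit 0) (nat_lit 0x7fb77b4894) (nat_lit 139046544),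
  Rx.mk (nat_lit 171) (nat_lit 3) (nat_lit 5) (nat_lit 2) (nat_lit 7) (nat_lit 313) (nat_lit 295) r3_313 r12_295 (nat_lit 0) (nat_lit 0) (nat_lit 0) (nat_lit 0x7f2d71e9b4) (nat_lit 403717392)]
noncomputable def e5 : List (List Rx) := [e5_0, e5_1, e5_2, e5_3, e5_4, e5_5, e5_6, e5_7, e5_8, e5_9, e5_10, e5_11, e5_12, e5_13, e5_14, e5_15, e5_16, e5_17, e5_18, e5_19, e5_20, e5_21, e5_22, e5_23, e5_24, e5_25, e5_26, e5_27, e5_28, e5_29, e5_30, e5_31, e5_32, e5_33, e5_34, e5_35, e5_36, e5_37, e5_38, e5_39, e5_40, e5_41, e5_42, e5_43, e5_44, e5_45, e5_46, e5_47, e5_48, e5_49, e5_50, e5_51, e5_52, e5_53, e5_54, e5_55, e5_56, e5_57]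

end Pool.Agent.AKXS_0_25_WE
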