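import Pool.Agent.AKXS_0_25_WE.R0
import Pool.Agent.AKXS_0_25_WE.R1
import Pool.Agent.AKXS_0_25_WE.R2
import Pool.Agent.AKXS_0_25_WE.R3
import Pool.Agent.AKXS_0_25_WE.R4
import Pool.Agent.AKXS_0_25_WE.R5
import Pool.Agent.AKXS_0_25_WE.R6
import Pool.Agent.AKXS_0_25_WE.R7
import Pool.Agent.AKXS_0_25_WE.R8
import Pool.Agent.AKXS_0_25_WE.R9
import Pool.Agent.AKXS_0_25_WE.R10
import Pool.Agent.AKXS_0_25_WE.R11
import Pool.Agent.AKXS_0_25_WE.R12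

set_option autoImplicit false

namespace Pool.Agent.AKXS_0_25_WE

open Pool.Agent.AKX Pool.Agent.AKU

noncomputable def e6_0 : List Rx := [
  Rx.mk (nat_lit 359) (nat_lit 7) (nat_lit 4) (nat_lit 5) (nat_lit 5) (nat_lit 72) (nat_lit 73) r0_72 r0_73 (nat_lit 0) (nat_lit 0) (nat_lit 0) (nat_lit 0x75b2e4dc00) (nat_lit 5056376832),
  Rx.mk (nat_lit 372) (nat_lit 4) (nat_lit 6) (nat_lit 5) (nat_lit 6) (nat_lit 73) (nat_lit 72) r0_73 r0_72 (nat_lit 0) (nat_lit 0) (nat_lit 0) (nat_lit 0x75b2e4dc00) (nat_lit 5056376832),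
  Rx.mk (nat_lit 375) (nat_lit 7) (nat_lit 6) (nat_lit 5) (nat_lit 7) (nat_lit 74) (nat_lit 74) r0_74 r0_74 (nat_lit 0) (nat_lit 0) (nat_lit 0) (nat_lit 0x7dc68519e8) (nat_lit 1091918880)]
noncomputable def e6_1 : List Rx := [
  Rx.mk (nat_lit 359) (nat_lit 7) (nat_lit 4) (nat_lit 5) (nat_lit 5) (nat_lit 75) (nat_lit 70) r0_75 r1_70 (nat_lit 0) (nat_lit 0) (nat_lit 0) (nat_lit 0x7de3d424da) (nat_lit 1035722376),
  Rx.mk (nat_lit 372) (nat_lit 4) (nat_lit 6) (nat_lit 5) (nat_lit 6) (nat_lit 76) (nat_lit 69) r0_76 r1_69 (nat_lit 0) (nat_lit 0) (nat_lit 0) (nat_lit 0x7d345c1d0a) (nat_lit 1372165704),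
  Rx.mk (nat_lit 374) (nat_lit 6) (nat_lit 6) (nat_lit 5) (nat_lit 7) (nat_lit 77) (nat_lit 72) r0_77 r1_72 (nat_lit 0) (nat_lit 0) (nat_lit 0) (nat_lit 0x7d7df4633c) (nat_lit 1231055280),
  Rx.mk (nat_lit 375) (nat_lit 7) (nat_lit 6) (nat_lit 5) (nat_lit 7) (nat_lit 78) (nat_lit 71) r0_78 r1_71 (nat_lit 0) (nat_lit 0) (nat_lit 0) (nat_lit 0x7ea4197fc4) (nat_lit 667062864)]
noncomputable def e6_2 : List Rx := [
  Rx.mk (nat_lit 295) (nat_lit 7) (nat_lit 4) (nat_lit 4) (nat_lit 1) (nat_lit 31) (nat_lit 64) r0_31 r2_64 (nat_lit 0) (nat_lit 0) (nat_lit 0) (nat_lit 0x6b355bdf0e) (nat_lit 10205611416),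
  Rx.mk (nat_lit 308) (nat_lit 4) (nat_lit 6) (nat_lit 4) (nat_lit 2) (nat_lit 34) (nat_lit 62) r0_34 r2_62 (nat_lit 0) (nat_lit 0) (nat_lit 0) (nat_lit 0x66c500a932) (nat_lit 12384456552),
  Rx.mk (nat_lit 310) (nat_lit 6) (nat_lit 6) (nat_lit 4) (nat_lit 3) (nat_lit 36) (nat_lit 72) r0_36 r2_72 (nat_lit 0) (nat_lit 0) (nat_lit 0) (nat_lit 0x7dce709b28) (nat_lit 1076733216),
  Rx.mk (nat_lit 311) (nat_lit 7) (nat_lit 6) (nat_lit 4) (nat_lit 3) (nat_lit 39) (nat_lit 68) r0_39 r2_68 (nat_lit 0) (nat_lit 0) (nat_lit 0) (nat_lit 0x7e5ff6223e) (nat_lit 797710680),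
  Rx.mk (nat_lit 359) (nat_lit 7) (nat_lit 4) (nat_lit 5) (nat_lit 5) (nat_lit 32) (nat_lit 65) r0_32 r2_65 (nat_lit 0) (nat_lit 0) (nat_lit 0) (nat_lit 0x7e4b276f3e) (nat_lit 837606744),
  Rx.mk (nat_lit 372) (nat_lit 4) (nat_lit 6) (nat_lit 5) (nat_lit 6) (nat_lit 35) (nat_lit 63) r0_35 r2_63 (nat_lit 0) (nat_lit 0) (nat_lit 0) (nat_lit 0x7ddc9338f0) (nat_lit 1049630400),
  Rx.mk (nat_lit 374) (nat_lit 6) (nat_lit 6) (nat_lit 5) (nat_lit 7) (nat_lit 37) (nat_lit 73) r0_37 r2_73 (nat_lit 0) (nat_lit 0) (nat_lit 0) (nat_lit 0x7df79428c6) (nat_lit 997853688),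
  Rx.mk (nat_lit 375) (nat_lit 7) (nat_lit 6) (nat_lit 5) (nat_lit 7) (nat_lit 40) (nat_lit 69) r0_40 r2_69 (nat_lit 0) (nat_lit 0) (nat_lit 0) (nat_lit 0x7e8b2b6ebe) (nat_lit 714863448),
  Rx.mk (nat_lit 406) (nat_lit 6) (nat_lit 2) (nat_lit 6) (nat_lit 7) (nat_lit 30) (nat_lit 71) r0_30 r2_71 (nat_lit 0) (nat_lit 0) (nat_lit 0) (nat_lit 0x7df6905904) (nat_lit 999799632),
  Rx.mk (nat_lit 438) (nat_lit 6) (nat_lit 6) (nat_lit 6) (nat_lit 7) (nat_lit 38) (nat_lit 74) r0_38 r2_74 (nat_lit 0) (nat_lit 0) (nat_lit 0) (nat_lit 0x7ded8609b2) (nat_lit 1017133416),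
  Rx.mk (nat_lit 487) (nat_lit 7) (nat_lit 4) (nat_lit 7) (nat_lit 5) (nat_lit 33) (nat_lit 66) r0_33 r2_66 (nat_lit 0) (nat_lit 0) (nat_lit 0) (nat_lit 0x7dc39c287a) (nat_lit 1097498376),
  Rx.mk (nat_lit 503) (nat_lit 7) (nat_lit 6) (nat_lit 7) (nat_lit 7) (nat_lit 41) (nat_lit 70) r0_41 r2_70 (nat_lit 0) (nat_lit 0) (nat_lit 0) (nat_lit 0x7e6254bc52) (nat_lit 793167336),
  Rx.mk (nat_lit 511) (nat_lit 7) (nat_lit 7) (nat_lit 7) (nat_lit 7) (nat_lit 42) (nat_lit 67) r0_42 r2_67 (nat_lit 0) (nat_lit 0) (nat_lit 0) (nat_lit 0x7ddddb446e) (nat_lit 1047173400)]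
noncomputable def e6_3 : List Rx := [
  Rx.mk (nat_lit 103) (nat_lit 7) (nat_lit 4) (nat_lit 1) (nat_lit 5) (nat_lit 71) (nat_lit 65) r0_71 r3_65 (nat_lit 0) (nat_lit 0) (nat_lit 0) (nat_lit 0x8000000000) (nat_lit 0)]
noncomputable def e6_4 : List Rx := [
  Rx.mk (nat_lit 103) (nat_lit 7) (nat_lit 4) (nat_lit 1) (nat_lit 5) (nat_lit 79) (nat_lit 68) r0_79 r4_68 (nat_lit 0) (nat_lit 0) (nat_lit 0) (nat_lit 0x6338dbcf0c) (nat_lit 14125728240),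
  Rx.mk (nat_lit 359) (nat_lit 7) (nat_lit 4) (nat_lit 5) (nat_lit 5) (nat_lit 80) (nat_lit 69) r0_80 r4_69 (nat_lit 0) (nat_lit 0) (nat_lit 0) (nat_lit 0x7933197536) (nat_lit 3337995960),
  Rx.mk (nat_lit 375) (nat_lit 7) (nat_lit 6) (nat_lit 5) (nat_lit 7) (nat_lit 81) (nat_lit 70) r0_81 r4_70 (nat_lit 0) (nat_lit 0) (nat_lit 0) (nat_lit 0x7e7f2fee82) (nat_lit 737838504)]
noncomputable def e6_5 : List Rx := [
  Rx.mk (nat_lit 24) (nat_lit 0) (nat_lit 3) (nat_lit 0) (nat_lit 2) (nat_lit 43) (nat_lit 4) r0_43 r3_4 (nat_lit 0) (nat_lit 0) (nat_lit 0) (nat_lit 0x8000000000) (nat_lit 0),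
  Rx.mk (nat_lit 27) (nat_lit 3) (nat_lit 3) (nat_lit 0) (nat_lit 3) (nat_lit 46) (nat_lit 6) r0_46 r3_6 (nat_lit 0) (nat_lit 0) (nat_lit 0) (nat_lit 0x8000000000) (nat_lit 0),
  Rx.mk (nat_lit 59) (nat_lit 3) (nat_lit 7) (nat_lit 0) (nat_lit 3) (nat_lit 49) (nat_lit 2) r0_49 r3_2 (nat_lit 0) (nat_lit 0) (nat_lit 0) (nat_lit 0x7ef7fa0168) (nat_lit 506237472),
  Rx.mk (nat_lit 152) (nat_lit 0) (nat_lit 3) (nat_lit 2) (nat_lit 6) (nat_lit 44) (nat_lit 5) r0_44 r3_5 (nat_lit 0) (nat_lit 0) (nat_lit 0) (nat_lit 0x789f9ccd94) (nat_lit 3620786832),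
  Rx.mk (nat_lit 154) (nat_lit 2) (nat_lit 3) (nat_lit 2) (nat_lit 7) (nat_lit 45) (nat_lit 8) r0_45 r3_8 (nat_lit 0) (nat_lit 0) (nat_lit 0) (nat_lit 0x7aaf35b1f6) (nat_lit 2609173944),
  Rx.mk (nat_lit 155) (nat_lit 3) (nat_lit 3) (nat_lit 2) (nat_lit 7) (nat_lit 47) (nat_lit 7) r0_47 r3_7 (nat_lit 0) (nat_lit 0) (nat_lit 0) (nat_lit 0x7c4bfa640e) (nat_lit 1817733528),
  Rx.mk (nat_lit 231) (nat_lit 7) (nat_lit 4) (nat_lit 3) (nat_lit 5) (nat_lit 48) (nat_lit 0) r0_48 r3_0 (nat_lit 0) (nat_lit 0) (nat_lit 0) (nat_lit 0x6dba6c2b84) (nat_lit 8968768848),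
  Rx.mk (nat_lit 251) (nat_lit 3) (nat_lit 7) (nat_lit 3) (nat_lit 7) (nat_lit 50) (nat_lit 3) r0_50 r3_3 (nat_lit 0) (nat_lit 0) (nat_lit 0) (nat_lit 0x7f3f0caff6) (nat_lit 369962424),
  Rx.mk (nat_lit 255) (nat_lit 7) (nat_lit 7) (nat_lit 3) (nat_lit 7) (nat_lit 51) (nat_lit 1) r0_51 r3_1 (nat_lit 0) (nat_lit 0) (nat_lit 0) (nat_lit 0x7b04e536a8) (nat_lit 2444880672)]
noncomputable def e6_6 : List Rx := [
  Rx.mk (nat_lit 24) (nat_lit 0) (nat_lit 3) (nat_lit 0) (nat_lit 2) (nat_lit 4) (nat_lit 11) r0_4 r0_11 (nat_lit 0) (nat_lit 0) (nat_lit 0) (nat_lit 0x6d8468cbf0) (nat_lit 9072333504),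
  Rx.mk (nat_lit 27) (nat_lit 3) (nat_lit 3) (nat_lit 0) (nat_lit 3) (nat_lit 7) (nat_lit 13) r0_7 r0_13 (nat_lit 0) (nat_lit 0) (nat_lit 0) (nat_lit 0x7777281608) (nat_lit 4189210272),
  Rx.mk (nat_lit 130) (nat_lit 2) (nat_lit 0) (nat_lit 2) (nat_lit 5) (nat_lit 0) (nat_lit 10) r0_0 r0_10 (nat_lit 0) (nat_lit 0) (nat_lit 0) (nat_lit 0x5a57b84a26) (nat_lit 18484235640),
  Rx.mk (nat_lit 146) (nat_lit 2) (nat_lit 2) (nat_lit 2) (nat_lit 7) (nat_lit 1) (nat_lit 19) r0_1 r0_19 (nat_lit 0) (nat_lit 0) (nat_lit 0) (nat_lit 0x6c8afca3ac) (nat_lit 9550575216),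
  Rx.mk (nat_lit 152) (nat_lit 0) (nat_lit 3) (nat_lit 2) (nat_lit 6) (nat_lit 5) (nat_lit 12) r0_5 r0_12 (nat_lit 0) (nat_lit 0) (nat_lit 0) (nat_lit 0x664f05495e) (nat_lit 12610674648),
  Rx.mk (nat_lit 154) (nat_lit 2) (nat_lit 3) (nat_lit 2) (nat_lit 7) (nat_lit 6) (nat_lit 16) r0_6 r0_16 (nat_lit 0) (nat_lit 0) (nat_lit 0) (nat_lit 0x7776fb78d2) (nat_lit 4189544424),
  Rx.mk (nat_lit 155) (nat_lit 3) (nat_lit 3) (nat_lit 2) (nat_lit 7) (nat_lit 8) (nat_lit 15) r0_8 r0_15 (nat_lit 0) (nat_lit 0) (nat_lit 0) (nat_lit 0x7676fb99d0) (nat_lit 4680396864),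
  Rx.mk (nat_lit 219) (nat_lit 3) (nat_lit 3) (nat_lit 3) (nat_lit 7) (nat_lit 9) (nat_lit 14) r0_9 r0_14 (nat_lit 0) (nat_lit 0) (nat_lit 0) (nat_lit 0x78a05961ca) (nat_lit 3619374408),
  Rx.mk (nat_lit 251) (nat_lit 3) (nat_lit 7) (nat_lit 3) (nat_lit 7) (nat_lit 17) (nat_lit 3) r0_17 r0_3 (nat_lit 0) (nat_lit 0) (nat_lit 0) (nat_lit 0x763e65836a) (nat_lit 4788895176),
  Rx.mk (nat_lit 255) (nat_lit 7) (nat_lit 7) (nat_lit 3) (nat_lit 7) (nat_lit 18) (nat_lit 2) r0_18 r0_2 (nat_lit 0) (nat_lit 0) (nat_lit 0) (nat_lit 0x78399a2e24) (nat_lit 3816380880),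
  Rx.mk (nat_lit 308) (nat_lit 4) (nat_lit 6) (nat_lit 4) (nat_lit 2) (nat_lit 11) (nat_lit 4) r0_11 r0_4 (nat_lit 0) (nat_lit 0) (nat_lit 0) (nat_lit 0x6d8468cbf0) (nat_lit 9072333504),
  Rx.mk (nat_lit 310) (nat_lit 6) (nat_lit 6) (nat_lit 4) (nat_lit 3) (nat_lit 13) (nat_lit 7) r0_13 r0_7 (nat_lit 0) (nat_lit 0) (nat_lit 0) (nat_lit 0x7777281608) (nat_lit 4189210272),
  Rx.mk (nat_lit 402) (nat_lit 2) (nat_lit 2) (nat_lit 6) (nat_lit 7) (nat_lit 2) (nat_lit 18) r0_2 r0_18 (nat_lit 0) (nat_lit 0) (nat_lit 0) (nat_lit 0x78399a2e24) (nat_lit 3816380880),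
  Rx.mk (nat_lit 406) (nat_lit 6) (nat_lit 2) (nat_lit 6) (nat_lit 7) (nat_lit 3) (nat_lit 17) r0_3 r0_17 (nat_lit 0) (nat_lit 0) (nat_lit 0) (nat_lit 0x763e65836a) (nat_lit 4788895176),
  Rx.mk (nat_lit 438) (nat_lit 6) (nat_lit 6) (nat_lit 6) (nat_lit 7) (nat_lit 14) (nat_lit 9) r0_14 r0_9 (nat_lit 0) (nat_lit 0) (nat_lit 0) (nat_lit 0x78a05961ca) (nat_lit 3619374408),
  Rx.mk (nat_lit 487) (nat_lit 7) (nat_lit 4) (nat_lit 7) (nat_lit 5) (nat_lit 10) (nat_lit 0) r0_10 r0_0 (nat_lit 0) (nat_lit 0) (nat_lit 0) (nat_lit 0x5a57b84a26) (nat_lit 18484235640),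
  Rx.mk (nat_lit 500) (nat_lit 4) (nat_lit 6) (nat_lit 7) (nat_lit 6) (nat_lit 12) (nat_lit 5) r0_12 r0_5 (nat_lit 0) (nat_lit 0) (nat_lit 0) (nat_lit 0x664f05495e) (nat_lit 12610674648),
  Rx.mk (nat_lit 502) (nat_lit 6) (nat_lit 6) (nat_lit 7) (nat_lit 7) (nat_lit 15) (nat_lit 8) r0_15 r0_8 (nat_lit 0) (nat_lit 0) (nat_lit 0) (nat_lit 0x7676fb99d0) (nat_lit 4680396864),
  Rx.mk (nat_lit 503) (nat_lit 7) (nat_lit 6) (nat_lit 7) (nat_lit 7) (nat_lit 16) (nat_lit 6) r0_16 r0_6 (nat_lit 0) (nat_lit 0) (nat_lit 0) (nat_lit 0x7776fb78d2) (nat_lit 4189544424),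
  Rx.mk (nat_lit 511) (nat_lit 7) (nat_lit 7) (nat_lit 7) (nat_lit 7) (nat_lit 19) (nat_lit 1) r0_19 r0_1 (nat_lit 0) (nat_lit 0) (nat_lit 0) (nat_lit 0x6c8afca3ac) (nat_lit 9550575216)]
noncomputable def e6_7 : List Rx := [
  Rx.mk (nat_lit 308) (nat_lit 4) (nat_lit 6) (nat_lit 4) (nat_lit 2) (nat_lit 23) (nat_lit 2) r0_23 r1_2 (nat_lit 0) (nat_lit 0) (nat_lit 0) (nat_lit 0x6facf0e146) (nat_lit 8012911608),
  Rx.mk (nat_lit 310) (nat_lit 6) (nat_lit 6) (nat_lit 4) (nat_lit 3) (nat_lit 25) (nat_lit 5) r0_25 r1_5 (nat_lit 0) (nat_lit 0) (nat_lit 0) (nat_lit 0x780ee6f982) (nat_lit 3898253736),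
  Rx.mk (nat_lit 402) (nat_lit 2) (nat_lit 2) (nat_lit 6) (nat_lit 7) (nat_lit 20) (nat_lit 9) r0_20 r1_9 (nat_lit 0) (nat_lit 0) (nat_lit 0) (nat_lit 0x7ccb2590dc) (nat_lit 1573900848),
  Rx.mk (nat_lit 406) (nat_lit 6) (nat_lit 2) (nat_lit 6) (nat_lit 7) (nat_lit 21) (nat_lit 8) r0_21 r1_8 (nat_lit 0) (nat_lit 0) (nat_lit 0) (nat_lit 0x7c9e945a1c) (nat_lit 1659353904),
  Rx.mk (nat_lit 438) (nat_lit 6) (nat_lit 6) (nat_lit 6) (nat_lit 7) (nat_lit 26) (nat_lit 7) r0_26 r1_7 (nat_lit 0) (nat_lit 0) (nat_lit 0) (nat_lit 0x7c8a811b64) (nat_lit 1697845968),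
  Rx.mk (nat_lit 487) (nat_lit 7) (nat_lit 4) (nat_lit 7) (nat_lit 5) (nat_lit 22) (nat_lit 0) r0_22 r1_0 (nat_lit 0) (nat_lit 0) (nat_lit 0) (nat_lit 0x76832bf6be) (nat_lit 4657025880),
  Rx.mk (nat_lit 500) (nat_lit 4) (nat_lit 6) (nat_lit 7) (nat_lit 6) (nat_lit 24) (nat_lit 3) r0_24 r1_3 (nat_lit 0) (nat_lit 0) (nat_lit 0) (nat_lit 0x78202e24fe) (nat_lit 3865124952),
  Rx.mk (nat_lit 502) (nat_lit 6) (nat_lit 6) (nat_lit 7) (nat_lit 7) (nat_lit 27) (nat_lit 6) r0_27 r1_6 (nat_lit 0) (nat_lit 0) (nat_lit 0) (nat_lit 0x7d16a418a8) (nat_lit 1429148448),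
  Rx.mk (nat_lit 503) (nat_lit 7) (nat_lit 6) (nat_lit 7) (nat_lit 7) (nat_lit 28) (nat_lit 4) r0_28 r1_4 (nat_lit 0) (nat_lit 0) (nat_lit 0) (nat_lit 0x7efe491c70) (nat_lit 494140608),
  Rx.mk (nat_lit 511) (nat_lit 7) (nat_lit 7) (nat_lit 7) (nat_lit 7) (nat_lit 29) (nat_lit 1) r0_29 r1_1 (nat_lit 0) (nat_lit 0) (nat_lit 0) (nat_lit 0x75ecc41dd2) (nat_lit 4945413096)]
noncomputable def e6_8 : List Rx := [
  Rx.mk (nat_lit 24) (nat_lit 0) (nat_lit 3) (nat_lit 0) (nat_lit 2) (nat_lit 52) (nat_lit 8) r0_52 r4_8 (nat_lit 0) (nat_lit 0) (nat_lit 0) (nat_lit 0x5b6197cb24) (nat_lit 17974451664),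
  Rx.mk (nat_lit 27) (nat_lit 3) (nat_lit 3) (nat_lit 0) (nat_lit 3) (nat_lit 55) (nat_lit 10) r0_55 r4_10 (nat_lit 0) (nat_lit 0) (nat_lit 0) (nat_lit 0x76957cf19c) (nat_lit 4621906224),
  Rx.mk (nat_lit 59) (nat_lit 3) (nat_lit 7) (nat_lit 0) (nat_lit 3) (nat_lit 62) (nat_lit 3) r0_62 r4_3 (nat_lit 0) (nat_lit 0) (nat_lit 0) (nat_lit 0x71ae0a8daa) (nat_lit 7029095112),
  Rx.mk (nat_lit 152) (nat_lit 0) (nat_lit 3) (nat_lit 2) (nat_lit 6) (nat_lit 53) (nat_lit 9) r0_53 r4_9 (nat_lit 0) (nat_lit 0) (nat_lit 0) (nat_lit 0x6d58b6a73e) (nat_lit 9156115800),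
  Rx.mk (nat_lit 154) (nat_lit 2) (nat_lit 3) (nat_lit 2) (nat_lit 7) (nat_lit 54) (nat_lit 12) r0_54 r4_12 (nat_lit 0) (nat_lit 0) (nat_lit 0) (nat_lit 0x75a4e5dbfe) (nat_lit 5083212888),
  Rx.mk (nat_lit 155) (nat_lit 3) (nat_lit 3) (nat_lit 2) (nat_lit 7) (nat_lit 56) (nat_lit 11) r0_56 r4_11 (nat_lit 0) (nat_lit 0) (nat_lit 0) (nat_lit 0x7dea5bdc58) (nat_lit 1023201504),
  Rx.mk (nat_lit 231) (nat_lit 7) (nat_lit 4) (nat_lit 3) (nat_lit 5) (nat_lit 57) (nat_lit 1) r0_57 r4_1 (nat_lit 0) (nat_lit 0) (nat_lit 0) (nat_lit 0x79050af64c) (nat_lit 3426304752),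
  Rx.mk (nat_lit 251) (nat_lit 3) (nat_lit 7) (nat_lit 3) (nat_lit 7) (nat_lit 63) (nat_lit 4) r0_63 r4_4 (nat_lit 0) (nat_lit 0) (nat_lit 0) (nat_lit 0x7dd8cbf568) (nat_lit 1056875040),
  Rx.mk (nat_lit 255) (nat_lit 7) (nat_lit 7) (nat_lit 3) (nat_lit 7) (nat_lit 64) (nat_lit 2) r0_64 r4_2 (nat_lit 0) (nat_lit 0) (nat_lit 0) (nat_lit 0x7d87d5e51a) (nat_lit 1212109704),
  Rx.mk (nat_lit 487) (nat_lit 7) (nat_lit 4) (nat_lit 7) (nat_lit 5) (nat_lit 58) (nat_lit 0) r0_58 r4_0 (nat_lit 0) (nat_lit 0) (nat_lit 0) (nat_lit 0x6075ec00cc) (nat_lit 15481206000),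
  Rx.mk (nat_lit 500) (nat_lit 4) (nat_lit 6) (nat_lit 7) (nat_lit 6) (nat_lit 59) (nat_lit 5) r0_59 r4_5 (nat_lit 0) (nat_lit 0) (nat_lit 0) (nat_lit 0x73827b04ce) (nat_lit 6130911384),
  Rx.mk (nat_lit 502) (nat_lit 6) (nat_lit 6) (nat_lit 7) (nat_lit 7) (nat_lit 60) (nat_lit 7) r0_60 r4_7 (nat_lit 0) (nat_lit 0) (nat_lit 0) (nat_lit 0x7dd9546ce0) (nat_lit 1055852928),
  Rx.mk (nat_lit 503) (nat_lit 7) (nat_lit 6) (nat_lit 7) (nat_lit 7) (nat_lit 61) (nat_lit 6) r0_61 r4_6 (nat_lit 0) (nat_lit 0) (nat_lit 0) (nat_lit 0x769aeeda78) (nat_lit 4611466080)]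
noncomputable def e6_9 : List Rx := [
  Rx.mk (nat_lit 39) (nat_lit 7) (nat_lit 4) (nat_lit 0) (nat_lit 1) (nat_lit 82) (nat_lit 51) r0_82 r5_51 (nat_lit 0) (nat_lit 0) (nat_lit 0) (nat_lit 0x618a963514) (nat_lit 14950729872),
  Rx.mk (nat_lit 59) (nat_lit 3) (nat_lit 7) (nat_lit 0) (nat_lit 3) (nat_lit 85) (nat_lit 49) r0_85 r5_49 (nat_lit 0) (nat_lit 0) (nat_lit 0) (nat_lit 0x7e22c49594) (nat_lit 915042960),
  Rx.mk (nat_lit 63) (nat_lit 7) (nat_lit 7) (nat_lit 0) (nat_lit 3) (nat_lit 87) (nat_lit 54) r0_87 r5_54 (nat_lit 0) (nat_lit 0) (nat_lit 0) (nat_lit 0x7a8f772dfe) (nat_lit 2670040152),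
  Rx.mk (nat_lit 103) (nat_lit 7) (nat_lit 4) (nat_lit 1) (nat_lit 5) (nat_lit 83) (nat_lit 52) r0_83 r5_52 (nat_lit 0) (nat_lit 0) (nat_lit 0) (nat_lit 0x7c10d4f6a0) (nat_lit 1931140224),
  Rx.mk (nat_lit 123) (nat_lit 3) (nat_lit 7) (nat_lit 1) (nat_lit 7) (nat_lit 86) (nat_lit 50) r0_86 r5_50 (nat_lit 0) (nat_lit 0) (nat_lit 0) (nat_lit 0x7f7c66ba18) (nat_lit 252326880),
  Rx.mk (nat_lit 127) (nat_lit 7) (nat_lit 7) (nat_lit 1) (nat_lit 7) (nat_lit 88) (nat_lit 55) r0_88 r5_55 (nat_lit 0) (nat_lit 0) (nat_lit 0) (nat_lit 0x7e4a371e44) (nat_lit 839406672),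
  Rx.mk (nat_lit 231) (nat_lit 7) (nat_lit 4) (nat_lit 3) (nat_lit 5) (nat_lit 84) (nat_lit 53) r0_84 r5_53 (nat_lit 0) (nat_lit 0) (nat_lit 0) (nat_lit 0x7ba7d706e8) (nat_lit 2132451360)]
noncomputable def e6_10 : List Rx := [
  Rx.mk (nat_lit 100) (nat_lit 4) (nat_lit 4) (nat_lit 1) (nat_lit 4) (nat_lit 171) (nat_lit 248) r0_171 r0_248 (nat_lit 0) (nat_lit 0) (nat_lit 0) (nat_lit 0x7d82b5b722) (nat_lit 1221937704),
  Rx.mk (nat_lit 101) (nat_lit 5) (nat_lit 4) (nat_lit 1) (nat_lit 5) (nat_lit 172) (nat_lit 249) r0_172 r0_249 (nat_lit 0) (nat_lit 0) (nat_lit 0) (nat_lit 0x79e90615b6) (nat_lit 2989174968)]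
noncomputable def e6_11 : List Rx := [
  Rx.mk (nat_lit 100) (nat_lit 4) (nat_lit 4) (nat_lit 1) (nat_lit 4) (nat_lit 177) (nat_lit 56) r0_177 r6_56 (nat_lit 0) (nat_lit 0) (nat_lit 0) (nat_lit 0x6042df11ce) (nat_lit 15579090072),
  Rx.mk (nat_lit 101) (nat_lit 5) (nat_lit 4) (nat_lit 1) (nat_lit 5) (nat_lit 179) (nat_lit 59) r0_179 r6_59 (nat_lit 0) (nat_lit 0) (nat_lit 0) (nat_lit 0x7d961fe06c) (nat_lit 1184712048),
  Rx.mk (nat_lit 356) (nat_lit 4) (nat_lit 4) (nat_lit 5) (nat_lit 4) (nat_lit 178) (nat_lit 57) r0_178 r6_57 (nat_lit 0) (nat_lit 0) (nat_lit 0) (nat_lit 0x6d7c714b70) (nat_lit 9087609024),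
  Rx.mk (nat_lit 357) (nat_lit 5) (nat_lit 4) (nat_lit 5) (nat_lit 5) (nat_lit 180) (nat_lit 60) r0_180 r6_60 (nat_lit 0) (nat_lit 0) (nat_lit 0) (nat_lit 0x7d7f2b2fce) (nat_lit 1228727448),
  Rx.mk (nat_lit 359) (nat_lit 7) (nat_lit 4) (nat_lit 5) (nat_lit 5) (nat_lit 181) (nat_lit 62) r0_181 r6_62 (nat_lit 0) (nat_lit 0) (nat_lit 0) (nat_lit 0x7e643c7dd4) (nat_lit 789514128),
  Rx.mk (nat_lit 372) (nat_lit 4) (nat_lit 6) (nat_lit 5) (nat_lit 6) (nat_lit 182) (nat_lit 58) r0_182 r6_58 (nat_lit 0) (nat_lit 0) (nat_lit 0) (nat_lit 0x7e87fa21d6) (nat_lit 720984888),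
  Rx.mk (nat_lit 373) (nat_lit 5) (nat_lit 6) (nat_lit 5) (nat_lit 7) (nat_lit 183) (nat_lit 61) r0_183 r6_61 (nat_lit 0) (nat_lit 0) (nat_lit 0) (nat_lit 0x7e596ecaba) (nat_lit 810228744),
  Rx.mk (nat_lit 375) (nat_lit 7) (nat_lit 6) (nat_lit 5) (nat_lit 7) (nat_lit 184) (nat_lit 63) r0_184 r6_63 (nat_lit 0) (nat_lit 0) (nat_lit 0) (nat_lit 0x7e6c393e00) (nat_lit 774199296)]
noncomputable def e6_12 : List Rx := [
  Rx.mk (nat_lit 101) (nat_lit 5) (nat_lit 4) (nat_lit 1) (nat_lit 5) (nat_lit 173) (nat_lit 255) r0_173 r1_255 (nat_lit 0) (nat_lit 0) (nat_lit 0) (nat_lit 0x7da5614c46) (nat_lit 1155461112)]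
noncomputable def e6_13 : List Rx := [
  Rx.mk (nat_lit 101) (nat_lit 5) (nat_lit 4) (nat_lit 1) (nat_lit 5) (nat_lit 185) (nat_lit 63) r0_185 r7_63 (nat_lit 0) (nat_lit 0) (nat_lit 0) (nat_lit 0x7e2fea232e) (nat_lit 889835544),
  Rx.mk (nat_lit 357) (nat_lit 5) (nat_lit 4) (nat_lit 5) (nat_lit 5) (nat_lit 186) (nat_lit 64) r0_186 r7_64 (nat_lit 0) (nat_lit 0) (nat_lit 0) (nat_lit 0x7db1ff225c) (nat_lit 1131270192),
  Rx.mk (nat_lit 373) (nat_lit 5) (nat_lit 6) (nat_lit 5) (nat_lit 7) (nat_lit 187) (nat_lit 65) r0_187 r7_65 (nat_lit 0) (nat_lit 0) (nat_lit 0) (nat_lit 0x7dec1700a4) (nat_lit 1019882448)]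
noncomputable def e6_14 : List Rx := [
  Rx.mk (nat_lit 356) (nat_lit 4) (nat_lit 4) (nat_lit 5) (nat_lit 4) (nat_lit 188) (nat_lit 241) r0_188 r7_241 (nat_lit 0) (nat_lit 0) (nat_lit 0) (nat_lit 0x6c14ae090c) (nat_lit 9777416688),
  Rx.mk (nat_lit 357) (nat_lit 5) (nat_lit 4) (nat_lit 5) (nat_lit 5) (nat_lit 189) (nat_lit 242) r0_189 r7_242 (nat_lit 0) (nat_lit 0) (nat_lit 0) (nat_lit 0x7d632fcfa0) (nat_lit 1282379904),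
  Rx.mk (nat_lit 359) (nat_lit 7) (nat_lit 4) (nat_lit 5) (nat_lit 5) (nat_lit 190) (nat_lit 243) r0_190 r7_243 (nat_lit 0) (nat_lit 0) (nat_lit 0) (nat_lit 0x7e4de063ac) (nat_lit 832386672),
  Rx.mk (nat_lit 372) (nat_lit 4) (nat_lit 6) (nat_lit 5) (nat_lit 6) (nat_lit 191) (nat_lit 244) r0_191 r7_244 (nat_lit 0) (nat_lit 0) (nat_lit 0) (nat_lit 0x7dd6cb7572) (nat_lit 1060713576),
  Rx.mk (nat_lit 373) (nat_lit 5) (nat_lit 6) (nat_lit 5) (nat_lit 7) (nat_lit 192) (nat_lit 245) r0_192 r7_245 (nat_lit 0) (nat_lit 0) (nat_lit 0) (nat_lit 0x7df79428c6) (nat_lit 997853688),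
  Rx.mk (nat_lit 374) (nat_lit 6) (nat_lit 6) (nat_lit 5) (nat_lit 7) (nat_lit 193) (nat_lit 247) r0_193 r7_247 (nat_lit 0) (nat_lit 0) (nat_lit 0) (nat_lit 0x7de7422df6) (nat_lit 1029146040),
  Rx.mk (nat_lit 375) (nat_lit 7) (nat_lit 6) (nat_lit 5) (nat_lit 7) (nat_lit 194) (nat_lit 246) r0_194 r7_246 (nat_lit 0) (nat_lit 0) (nat_lit 0) (nat_lit 0x7de0607c18) (nat_lit 1042340832)]
noncomputable def e6_15 : List Rx := [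
  Rx.mk (nat_lit 292) (nat_lit 4) (nat_lit 4) (nat_lit 4) (nat_lit 0) (nat_lit 155) (nat_lit 23) r0_155 r8_23 (nat_lit 0) (nat_lit 0) (nat_lit 0) (nat_lit 0x2380ce4fa0) (nat_lit 45402394752),
  Rx.mk (nat_lit 295) (nat_lit 7) (nat_lit 4) (nat_lit 4) (nat_lit 1) (nat_lit 158) (nat_lit 29) r0_158 r8_29 (nat_lit 0) (nat_lit 0) (nat_lit 0) (nat_lit 0x6bb29a6aa8) (nat_lit 9965468448),
  Rx.mk (nat_lit 308) (nat_lit 4) (nat_lit 6) (nat_lit 4) (nat_lit 2) (nat_lit 161) (nat_lit 25) r0_161 r8_25 (nat_lit 0) (nat_lit 0) (nat_lit 0) (nat_lit 0x6eebb9b57a) (nat_lit 8383382280),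
  Rx.mk (nat_lit 310) (nat_lit 6) (nat_lit 6) (nat_lit 4) (nat_lit 3) (nat_lit 164) (nat_lit 37) r0_164 r8_37 (nat_lit 0) (nat_lit 0) (nat_lit 0) (nat_lit 0x7d6504125a) (nat_lit 1278872712),
  Rx.mk (nat_lit 311) (nat_lit 7) (nat_lit 6) (nat_lit 4) (nat_lit 3) (nat_lit 167) (nat_lit 33) r0_167 r8_33 (nat_lit 0) (nat_lit 0) (nat_lit 0) (nat_lit 0x7db254fcfe) (nat_lit 1130627160),
  Rx.mk (nat_lit 356) (nat_lit 4) (nat_lit 4) (nat_lit 5) (nat_lit 4) (nat_lit 156) (nat_lit 24) r0_156 r8_24 (nat_lit 0) (nat_lit 0) (nat_lit 0) (nat_lit 0x68034003fe) (nat_lit 11774250072),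
  Rx.mk (nat_lit 357) (nat_lit 5) (nat_lit 4) (nat_lit 5) (nat_lit 5) (nat_lit 157) (nat_lit 27) r0_157 r8_27 (nat_lit 0) (nat_lit 0) (nat_lit 0) (nat_lit 0x7dafa1a836) (nat_lit 1135805112),
  Rx.mk (nat_lit 359) (nat_lit 7) (nat_lit 4) (nat_lit 5) (nat_lit 5) (nat_lit 159) (nat_lit 30) r0_159 r8_30 (nat_lit 0) (nat_lit 0) (nat_lit 0) (nat_lit 0x7dd4e773b4) (nat_lit 1064338704),
  Rx.mk (nat_lit 372) (nat_lit 4) (nat_lit 6) (nat_lit 5) (nat_lit 6) (nat_lit 162) (nat_lit 26) r0_162 r8_26 (nat_lit 0) (nat_lit 0) (nat_lit 0) (nat_lit 0x7dd9e10416) (nat_lit 1054799928),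
  Rx.mk (nat_lit 373) (nat_lit 5) (nat_lit 6) (nat_lit 5) (nat_lit 7) (nat_lit 163) (nat_lit 28) r0_163 r8_28 (nat_lit 0) (nat_lit 0) (nat_lit 0) (nat_lit 0x7df8ad5732) (nat_lit 995747688),
  Rx.mk (nat_lit 374) (nat_lit 6) (nat_lit 6) (nat_lit 5) (nat_lit 7) (nat_lit 165) (nat_lit 38) r0_165 r8_38 (nat_lit 0) (nat_lit 0) (nat_lit 0) (nat_lit 0x7df299187c) (nat_lit 1007403696),
  Rx.mk (nat_lit 375) (nat_lit 7) (nat_lit 6) (nat_lit 5) (nat_lit 7) (nat_lit 168) (nat_lit 34) r0_168 r8_34 (nat_lit 0) (nat_lit 0) (nat_lit 0) (nat_lit 0x7df1b4c6c2) (nat_lit 1009113768),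
  Rx.mk (nat_lit 406) (nat_lit 6) (nat_lit 2) (nat_lit 6) (nat_lit 7) (nat_lit 154) (nat_lit 36) r0_154 r8_36 (nat_lit 0) (nat_lit 0) (nat_lit 0) (nat_lit 0x7df79428c6) (nat_lit 997853688),
  Rx.mk (nat_lit 438) (nat_lit 6) (nat_lit 6) (nat_lit 6) (nat_lit 7) (nat_lit 166) (nat_lit 39) r0_166 r8_39 (nat_lit 0) (nat_lit 0) (nat_lit 0) (nat_lit 0x7dde5a5c7c) (nat_lit 1046221488),
  Rx.mk (nat_lit 487) (nat_lit 7) (nat_lit 4) (nat_lit 7) (nat_lit 5) (nat_lit 160) (nat_lit 31) r0_160 r8_31 (nat_lit 0) (nat_lit 0) (nat_lit 0) (nat_lit 0x7d2f99a936) (nat_lit 1381291704),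
  Rx.mk (nat_lit 503) (nat_lit 7) (nat_lit 6) (nat_lit 7) (nat_lit 7) (nat_lit 169) (nat_lit 35) r0_169 r8_35 (nat_lit 0) (nat_lit 0) (nat_lit 0) (nat_lit 0x7df06cbb44) (nat_lit 1011570768),
  Rx.mk (nat_lit 511) (nat_lit 7) (nat_lit 7) (nat_lit 7) (nat_lit 7) (nat_lit 170) (nat_lit 32) r0_170 r8_32 (nat_lit 0) (nat_lit 0) (nat_lit 0) (nat_lit 0x7d8f316f5a) (nat_lit 1198002312)]
noncomputable def e6_16 : List Rx := [
  Rx.mk (nat_lit 100) (nat_lit 4) (nat_lit 4) (nat_lit 1) (nat_lit 4) (nat_lit 174) (nat_lit 262) r0_174 r4_262 (nat_lit 0) (nat_lit 0) (nat_lit 0) (nat_lit 0x67e873f0da) (nat_lit 11825630856),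
  Rx.mk (nat_lit 101) (nat_lit 5) (nat_lit 4) (nat_lit 1) (nat_lit 5) (nat_lit 175) (nat_lit 263) r0_175 r4_263 (nat_lit 0) (nat_lit 0) (nat_lit 0) (nat_lit 0x7e1f5bcc24) (nat_lit 921579984),
  Rx.mk (nat_lit 103) (nat_lit 7) (nat_lit 4) (nat_lit 1) (nat_lit 5) (nat_lit 176) (nat_lit 264) r0_176 r4_264 (nat_lit 0) (nat_lit 0) (nat_lit 0) (nat_lit 0x75d49f6036) (nat_lit 4991705784)]
noncomputable def e6_17 : List Rx := [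
  Rx.mk (nat_lit 100) (nat_lit 4) (nat_lit 4) (nat_lit 1) (nat_lit 4) (nat_lit 195) (nat_lit 44) r0_195 r9_44 (nat_lit 0) (nat_lit 0) (nat_lit 0) (nat_lit 0x604e485b2e) (nat_lit 15557210136),
  Rx.mk (nat_lit 101) (nat_lit 5) (nat_lit 4) (nat_lit 1) (nat_lit 5) (nat_lit 196) (nat_lit 45) r0_196 r9_45 (nat_lit 0) (nat_lit 0) (nat_lit 0) (nat_lit 0x7d6198a914) (nat_lit 1285429392),
  Rx.mk (nat_lit 103) (nat_lit 7) (nat_lit 4) (nat_lit 1) (nat_lit 5) (nat_lit 197) (nat_lit 46) r0_197 r9_46 (nat_lit 0) (nat_lit 0) (nat_lit 0) (nat_lit 0x7e0e1fdff4) (nat_lit 954624528),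
  Rx.mk (nat_lit 359) (nat_lit 7) (nat_lit 4) (nat_lit 5) (nat_lit 5) (nat_lit 198) (nat_lit 47) r0_198 r9_47 (nat_lit 0) (nat_lit 0) (nat_lit 0) (nat_lit 0x7ccb9f693e) (nat_lit 1572988248),
  Rx.mk (nat_lit 375) (nat_lit 7) (nat_lit 6) (nat_lit 5) (nat_lit 7) (nat_lit 199) (nat_lit 48) r0_199 r9_48 (nat_lit 0) (nat_lit 0) (nat_lit 0) (nat_lit 0x7e3eef92c8) (nat_lit 861033888)]
noncomputable def e6_18 : List Rx := [
  Rx.mk (nat_lit 100) (nat_lit 4) (nat_lit 4) (nat_lit 1) (nat_lit 4) (nat_lit 200) (nat_lit 37) r0_200 r10_37 (nat_lit 0) (nat_lit 0) (nat_lit 0) (nat_lit 0x76da66a2bc) (nat_lit 4489772976),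
  Rx.mk (nat_lit 101) (nat_lit 5) (nat_lit 4) (nat_lit 1) (nat_lit 5) (nat_lit 201) (nat_lit 38) r0_201 r10_38 (nat_lit 0) (nat_lit 0) (nat_lit 0) (nat_lit 0x7e09e4c3aa) (nat_lit 962736840),
  Rx.mk (nat_lit 103) (nat_lit 7) (nat_lit 4) (nat_lit 1) (nat_lit 5) (nat_lit 202) (nat_lit 39) r0_202 r10_39 (nat_lit 0) (nat_lit 0) (nat_lit 0) (nat_lit 0x7e49f042b2) (nat_lit 839937384),
  Rx.mk (nat_lit 127) (nat_lit 7) (nat_lit 7) (nat_lit 1) (nat_lit 7) (nat_lit 203) (nat_lit 40) r0_203 r10_40 (nat_lit 0) (nat_lit 0) (nat_lit 0) (nat_lit 0x7e9eee1280) (nat_lit 676975104)]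
noncomputable def e6_19 : List Rx := [
  Rx.mk (nat_lit 406) (nat_lit 6) (nat_lit 2) (nat_lit 6) (nat_lit 7) (nat_lit 141) (nat_lit 0) r0_141 r8_0 (nat_lit 0) (nat_lit 0) (nat_lit 0) (nat_lit 0x7dde1b0072) (nat_lit 1046696040)]
noncomputable def e6_20 : List Rx := [
  Rx.mk (nat_lit 24) (nat_lit 0) (nat_lit 3) (nat_lit 0) (nat_lit 2) (nat_lit 94) (nat_lit 91) r0_94 r0_91 (nat_lit 0) (nat_lit 0) (nat_lit 0) (nat_lit 0x64497ea3ce) (nat_lit 13602976920),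
  Rx.mk (nat_lit 27) (nat_lit 3) (nat_lit 3) (nat_lit 0) (nat_lit 3) (nat_lit 97) (nat_lit 92) r0_97 r0_92 (nat_lit 0) (nat_lit 0) (nat_lit 0) (nat_lit 0x742628a950) (nat_lit 5817075264),
  Rx.mk (nat_lit 128) (nat_lit 0) (nat_lit 0) (nat_lit 2) (nat_lit 4) (nat_lit 91) (nat_lit 94) r0_91 r0_94 (nat_lit 0) (nat_lit 0) (nat_lit 0) (nat_lit 0x64497ea3ce) (nat_lit 13602976920),
  Rx.mk (nat_lit 130) (nat_lit 2) (nat_lit 0) (nat_lit 2) (nat_lit 5) (nat_lit 92) (nat_lit 97) r0_92 r0_97 (nat_lit 0) (nat_lit 0) (nat_lit 0) (nat_lit 0x742628a950) (nat_lit 5817075264),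
  Rx.mk (nat_lit 146) (nat_lit 2) (nat_lit 2) (nat_lit 2) (nat_lit 7) (nat_lit 93) (nat_lit 99) r0_93 r0_99 (nat_lit 0) (nat_lit 0) (nat_lit 0) (nat_lit 0x7e09c9c55a) (nat_lit 962939016),
  Rx.mk (nat_lit 152) (nat_lit 0) (nat_lit 3) (nat_lit 2) (nat_lit 6) (nat_lit 95) (nat_lit 95) r0_95 r0_95 (nat_lit 0) (nat_lit 0) (nat_lit 0) (nat_lit 0x799825c40c) (nat_lit 3144246768),
  Rx.mk (nat_lit 154) (nat_lit 2) (nat_lit 3) (nat_lit 2) (nat_lit 7) (nat_lit 96) (nat_lit 98) r0_96 r0_98 (nat_lit 0) (nat_lit 0) (nat_lit 0) (nat_lit 0x7db4a9d7ae) (nat_lit 1126156824),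
  Rx.mk (nat_lit 155) (nat_lit 3) (nat_lit 3) (nat_lit 2) (nat_lit 7) (nat_lit 98) (nat_lit 96) r0_98 r0_96 (nat_lit 0) (nat_lit 0) (nat_lit 0) (nat_lit 0x7db4a9d7ae) (nat_lit 1126156824),
  Rx.mk (nat_lit 219) (nat_lit 3) (nat_lit 3) (nat_lit 3) (nat_lit 7) (nat_lit 99) (nat_lit 93) r0_99 r0_93 (nat_lit 0) (nat_lit 0) (nat_lit 0) (nat_lit 0x7e09c9c55a) (nat_lit 962939016)]
noncomputable def e6_21 : List Rx := [
  Rx.mk (nat_lit 0) (nat_lit 0) (nat_lit 0) (nat_lit 0) (nat_lit 0) (nat_lit 111) (nat_lit 94) r0_111 r1_94 (nat_lit 0) (nat_lit 0) (nat_lit 0) (nat_lit 0x7fc651db1c) (nat_lit 110595888),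
  Rx.mk (nat_lit 8) (nat_lit 0) (nat_lit 1) (nat_lit 0) (nat_lit 2) (nat_lit 114) (nat_lit 95) r0_114 r1_95 (nat_lit 0) (nat_lit 0) (nat_lit 0) (nat_lit 0x7c02729cd4) (nat_lit 1958720400),
  Rx.mk (nat_lit 24) (nat_lit 0) (nat_lit 3) (nat_lit 0) (nat_lit 2) (nat_lit 118) (nat_lit 96) r0_118 r1_96 (nat_lit 0) (nat_lit 0) (nat_lit 0) (nat_lit 0x76fc4b844c) (nat_lit 4424784624),
  Rx.mk (nat_lit 27) (nat_lit 3) (nat_lit 3) (nat_lit 0) (nat_lit 3) (nat_lit 121) (nat_lit 97) r0_121 r1_97 (nat_lit 0) (nat_lit 0) (nat_lit 0) (nat_lit 0x7d51e2a484) (nat_lit 1315553616),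
  Rx.mk (nat_lit 128) (nat_lit 0) (nat_lit 0) (nat_lit 2) (nat_lit 4) (nat_lit 112) (nat_lit 99) r0_112 r1_99 (nat_lit 0) (nat_lit 0) (nat_lit 0) (nat_lit 0x6fba2ced78) (nat_lit 7987535712),
  Rx.mk (nat_lit 130) (nat_lit 2) (nat_lit 0) (nat_lit 2) (nat_lit 5) (nat_lit 113) (nat_lit 103) r0_113 r1_103 (nat_lit 0) (nat_lit 0) (nat_lit 0) (nat_lit 0x6f612c3ddc) (nat_lit 8158189104),
  Rx.mk (nat_lit 136) (nat_lit 0) (nat_lit 1) (nat_lit 2) (nat_lit 6) (nat_lit 115) (nat_lit 100) r0_115 r1_100 (nat_lit 0) (nat_lit 0) (nat_lit 0) (nat_lit 0x7d6029a006) (nat_lit 1288178424),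
  Rx.mk (nat_lit 138) (nat_lit 2) (nat_lit 1) (nat_lit 2) (nat_lit 7) (nat_lit 116) (nat_lit 104) r0_116 r1_104 (nat_lit 0) (nat_lit 0) (nat_lit 0) (nat_lit 0x7daa421e34) (nat_lit 1146107664),
  Rx.mk (nat_lit 146) (nat_lit 2) (nat_lit 2) (nat_lit 2) (nat_lit 7) (nat_lit 117) (nat_lit 106) r0_117 r1_106 (nat_lit 0) (nat_lit 0) (nat_lit 0) (nat_lit 0x7d94a957d6) (nat_lit 1187517240),
  Rx.mk (nat_lit 152) (nat_lit 0) (nat_lit 3) (nat_lit 2) (nat_lit 6) (nat_lit 119) (nat_lit 101) r0_119 r1_101 (nat_lit 0) (nat_lit 0) (nat_lit 0) (nat_lit 0x7ddf4a4d7c) (nat_lit 1044424368),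
  Rx.mk (nat_lit 154) (nat_lit 2) (nat_lit 3) (nat_lit 2) (nat_lit 7) (nat_lit 120) (nat_lit 105) r0_120 r1_105 (nat_lit 0) (nat_lit 0) (nat_lit 0) (nat_lit 0x7dd7b446e4) (nat_lit 1058969808),
  Rx.mk (nat_lit 155) (nat_lit 3) (nat_lit 3) (nat_lit 2) (nat_lit 7) (nat_lit 122) (nat_lit 102) r0_122 r1_102 (nat_lit 0) (nat_lit 0) (nat_lit 0) (nat_lit 0x7df6bc3646) (nat_lit 999471096),
  Rx.mk (nat_lit 219) (nat_lit 3) (nat_lit 3) (nat_lit 3) (nat_lit 7) (nat_lit 123) (nat_lit 98) r0_123 r1_98 (nat_lit 0) (nat_lit 0) (nat_lit 0) (nat_lit 0x7dd1bc8666) (nat_lit 1070412408)]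
noncomputable def e6_22 : List Rx := [
  Rx.mk (nat_lit 24) (nat_lit 0) (nat_lit 3) (nat_lit 0) (nat_lit 2) (nat_lit 142) (nat_lit 93) r0_142 r4_93 (nat_lit 0) (nat_lit 0) (nat_lit 0) (nat_lit 0x71b7297bb2) (nat_lit 7011606888),
  Rx.mk (nat_lit 27) (nat_lit 3) (nat_lit 3) (nat_lit 0) (nat_lit 3) (nat_lit 145) (nat_lit 94) r0_145 r4_94 (nat_lit 0) (nat_lit 0) (nat_lit 0) (nat_lit 0x7bb2a1ba32) (nat_lit 2111759208),
  Rx.mk (nat_lit 152) (nat_lit 0) (nat_lit 3) (nat_lit 2) (nat_lit 6) (nat_lit 143) (nat_lit 95) r0_143 r4_95 (nat_lit 0) (nat_lit 0) (nat_lit 0) (nat_lit 0x7ac67fdd3c) (nat_lit 2564518320),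
  Rx.mk (nat_lit 154) (nat_lit 2) (nat_lit 3) (nat_lit 2) (nat_lit 7) (nat_lit 144) (nat_lit 97) r0_144 r4_97 (nat_lit 0) (nat_lit 0) (nat_lit 0) (nat_lit 0x7d94351f1a) (nat_lit 1188387720),
  Rx.mk (nat_lit 155) (nat_lit 3) (nat_lit 3) (nat_lit 2) (nat_lit 7) (nat_lit 146) (nat_lit 96) r0_146 r4_96 (nat_lit 0) (nat_lit 0) (nat_lit 0) (nat_lit 0x7e2f4f4cdc) (nat_lit 890995248)]
noncomputable def e6_23 : List Rx := [
  Rx.mk (nat_lit 24) (nat_lit 0) (nat_lit 3) (nat_lit 0) (nat_lit 2) (nat_lit 105) (nat_lit 2) r0_105 r6_2 (nat_lit 0) (nat_lit 0) (nat_lit 0) (nat_lit 0x66b9ed9a6e) (nat_lit 12405690648),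
  Rx.mk (nat_lit 27) (nat_lit 3) (nat_lit 3) (nat_lit 0) (nat_lit 3) (nat_lit 108) (nat_lit 4) r0_108 r6_4 (nat_lit 0) (nat_lit 0) (nat_lit 0) (nat_lit 0x78a031444c) (nat_lit 3619674864),
  Rx.mk (nat_lit 128) (nat_lit 0) (nat_lit 0) (nat_lit 2) (nat_lit 4) (nat_lit 100) (nat_lit 0) r0_100 r6_0 (nat_lit 0) (nat_lit 0) (nat_lit 0) (nat_lit 0x5b048c5c38) (nat_lit 18152855136),
  Rx.mk (nat_lit 130) (nat_lit 2) (nat_lit 0) (nat_lit 2) (nat_lit 5) (nat_lit 101) (nat_lit 1) r0_101 r6_1 (nat_lit 0) (nat_lit 0) (nat_lit 0) (nat_lit 0x777f139748) (nat_lit 4174024608),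
  Rx.mk (nat_lit 146) (nat_lit 2) (nat_lit 2) (nat_lit 2) (nat_lit 7) (nat_lit 102) (nat_lit 10) r0_102 r6_10 (nat_lit 0) (nat_lit 0) (nat_lit 0) (nat_lit 0x7cd66efc3a) (nat_lit 1552259592),
  Rx.mk (nat_lit 152) (nat_lit 0) (nat_lit 3) (nat_lit 2) (nat_lit 6) (nat_lit 106) (nat_lit 3) r0_106 r6_3 (nat_lit 0) (nat_lit 0) (nat_lit 0) (nat_lit 0x77e3aa8d74) (nat_lit 3981154320),
  Rx.mk (nat_lit 154) (nat_lit 2) (nat_lit 3) (nat_lit 2) (nat_lit 7) (nat_lit 107) (nat_lit 7) r0_107 r6_7 (nat_lit 0) (nat_lit 0) (nat_lit 0) (nat_lit 0x7e027b5a48) (nat_lit 976948128),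
  Rx.mk (nat_lit 155) (nat_lit 3) (nat_lit 3) (nat_lit 2) (nat_lit 7) (nat_lit 109) (nat_lit 6) r0_109 r6_6 (nat_lit 0) (nat_lit 0) (nat_lit 0) (nat_lit 0x7de57b0a6a) (nat_lit 1032554952),
  Rx.mk (nat_lit 219) (nat_lit 3) (nat_lit 3) (nat_lit 3) (nat_lit 7) (nat_lit 110) (nat_lit 5) r0_110 r6_5 (nat_lit 0) (nat_lit 0) (nat_lit 0) (nat_lit 0x7d5af3b36a) (nat_lit 1298169288),
  Rx.mk (nat_lit 402) (nat_lit 2) (nat_lit 2) (nat_lit 6) (nat_lit 7) (nat_lit 103) (nat_lit 9) r0_103 r6_9 (nat_lit 0) (nat_lit 0) (nat_lit 0) (nat_lit 0x7df18ca944) (nat_lit 1009414224),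
  Rx.mk (nat_lit 406) (nat_lit 6) (nat_lit 2) (nat_lit 6) (nat_lit 7) (nat_lit 104) (nat_lit 8) r0_104 r6_8 (nat_lit 0) (nat_lit 0) (nat_lit 0) (nat_lit 0x7defce8528) (nat_lit 1012755744)]
noncomputable def e6_24 : List Rx := [
  Rx.mk (nat_lit 0) (nat_lit 0) (nat_lit 0) (nat_lit 0) (nat_lit 0) (nat_lit 124) (nat_lit 0) r0_124 r7_0 (nat_lit 0) (nat_lit 0) (nat_lit 0) (nat_lit 0x26656fa2a6) (nat_lit 43982313336),
  Rx.mk (nat_lit 8) (nat_lit 0) (nat_lit 1) (nat_lit 0) (nat_lit 2) (nat_lit 127) (nat_lit 3) r0_127 r7_3 (nat_lit 0) (nat_lit 0) (nat_lit 0) (nat_lit 0x6ccff433ee) (nat_lit 9418338072),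
  Rx.mk (nat_lit 24) (nat_lit 0) (nat_lit 3) (nat_lit 0) (nat_lit 2) (nat_lit 133) (nat_lit 6) r0_133 r7_6 (nat_lit 0) (nat_lit 0) (nat_lit 0) (nat_lit 0x62b0ff8d58) (nat_lit 14386226400),
  Rx.mk (nat_lit 27) (nat_lit 3) (nat_lit 3) (nat_lit 0) (nat_lit 3) (nat_lit 136) (nat_lit 8) r0_136 r7_8 (nat_lit 0) (nat_lit 0) (nat_lit 0) (nat_lit 0x7c3f4c0f00) (nat_lit 1842048000),
  Rx.mk (nat_lit 128) (nat_lit 0) (nat_lit 0) (nat_lit 2) (nat_lit 4) (nat_lit 125) (nat_lit 1) r0_125 r7_1 (nat_lit 0) (nat_lit 0) (nat_lit 0) (nat_lit 0x5777047844) (nat_lit 19896786000),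
  Rx.mk (nat_lit 130) (nat_lit 2) (nat_lit 0) (nat_lit 2) (nat_lit 5) (nat_lit 126) (nat_lit 2) r0_126 r7_2 (nat_lit 0) (nat_lit 0) (nat_lit 0) (nat_lit 0x7aa48cbc90) (nat_lit 2629613376),
  Rx.mk (nat_lit 136) (nat_lit 0) (nat_lit 1) (nat_lit 2) (nat_lit 6) (nat_lit 128) (nat_lit 4) r0_128 r7_4 (nat_lit 0) (nat_lit 0) (nat_lit 0) (nat_lit 0x7d33d4058c) (nat_lit 1373185008),
  Rx.mk (nat_lit 138) (nat_lit 2) (nat_lit 1) (nat_lit 2) (nat_lit 7) (nat_lit 129) (nat_lit 5) r0_129 r7_5 (nat_lit 0) (nat_lit 0) (nat_lit 0) (nat_lit 0x7dee6ffb12) (nat_lit 1015381224),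
  Rx.mk (nat_lit 146) (nat_lit 2) (nat_lit 2) (nat_lit 2) (nat_lit 7) (nat_lit 130) (nat_lit 14) r0_130 r7_14 (nat_lit 0) (nat_lit 0) (nat_lit 0) (nat_lit 0x7da85dbc7c) (nat_lit 1149735600),
  Rx.mk (nat_lit 152) (nat_lit 0) (nat_lit 3) (nat_lit 2) (nat_lit 6) (nat_lit 134) (nat_lit 7) r0_134 r7_7 (nat_lit 0) (nat_lit 0) (nat_lit 0) (nat_lit 0x7d34a4d87e) (nat_lit 1371620952),
  Rx.mk (nat_lit 154) (nat_lit 2) (nat_lit 3) (nat_lit 2) (nat_lit 7) (nat_lit 135) (nat_lit 11) r0_135 r7_11 (nat_lit 0) (nat_lit 0) (nat_lit 0) (nat_lit 0x7de50491d2) (nat_lit 1033442280),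
  Rx.mk (nat_lit 155) (nat_lit 3) (nat_lit 3) (nat_lit 2) (nat_lit 7) (nat_lit 137) (nat_lit 10) r0_137 r7_10 (nat_lit 0) (nat_lit 0) (nat_lit 0) (nat_lit 0x7df1e163f8) (nat_lit 1008779616),
  Rx.mk (nat_lit 219) (nat_lit 3) (nat_lit 3) (nat_lit 3) (nat_lit 7) (nat_lit 138) (nat_lit 9) r0_138 r7_9 (nat_lit 0) (nat_lit 0) (nat_lit 0) (nat_lit 0x7db74b2d96) (nat_lit 1121113656),
  Rx.mk (nat_lit 402) (nat_lit 2) (nat_lit 2) (nat_lit 6) (nat_lit 7) (nat_lit 131) (nat_lit 13) r0_131 r7_13 (nat_lit 0) (nat_lit 0) (nat_lit 0) (nat_lit 0x7dcfeb437c) (nat_lit 1073897136),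
  Rx.mk (nat_lit 406) (nat_lit 6) (nat_lit 2) (nat_lit 6) (nat_lit 7) (nat_lit 132) (nat_lit 12) r0_132 r7_12 (nat_lit 0) (nat_lit 0) (nat_lit 0) (nat_lit 0x7df4ed3338) (nat_lit 1002938976)]
noncomputable def e6_25 : List Rx := [
  Rx.mk (nat_lit 402) (nat_lit 2) (nat_lit 2) (nat_lit 6) (nat_lit 7) (nat_lit 139) (nat_lit 76) r0_139 r7_76 (nat_lit 0) (nat_lit 0) (nat_lit 0) (nat_lit 0x7dbbc6c5d8) (nat_lit 1112518368),
  Rx.mk (nat_lit 406) (nat_lit 6) (nat_lit 2) (nat_lit 6) (nat_lit 7) (nat_lit 140) (nat_lit 77) r0_140 r7_77 (nat_lit 0) (nat_lit 0) (nat_lit 0) (nat_lit 0x7dbbc6c5d8) (nat_lit 1112518368)]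
noncomputable def e6_26 : List Rx := [
  Rx.mk (nat_lit 24) (nat_lit 0) (nat_lit 3) (nat_lit 0) (nat_lit 2) (nat_lit 147) (nat_lit 0) r0_147 r9_0 (nat_lit 0) (nat_lit 0) (nat_lit 0) (nat_lit 0x6b26bfc8de) (nat_lit 10233624024),
  Rx.mk (nat_lit 27) (nat_lit 3) (nat_lit 3) (nat_lit 0) (nat_lit 3) (nat_lit 150) (nat_lit 2) r0_150 r9_2 (nat_lit 0) (nat_lit 0) (nat_lit 0) (nat_lit 0x78a7e5a8fe) (nat_lit 3604901976),
  Rx.mk (nat_lit 152) (nat_lit 0) (nat_lit 3) (nat_lit 2) (nat_lit 6) (nat_lit 148) (nat_lit 1) r0_148 r9_1 (nat_lit 0) (nat_lit 0) (nat_lit 0) (nat_lit 0x776bc40c54) (nat_lit 4211050896),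
  Rx.mk (nat_lit 154) (nat_lit 2) (nat_lit 3) (nat_lit 2) (nat_lit 7) (nat_lit 149) (nat_lit 4) r0_149 r9_4 (nat_lit 0) (nat_lit 0) (nat_lit 0) (nat_lit 0x7de318b092) (nat_lit 1037126376),
  Rx.mk (nat_lit 155) (nat_lit 3) (nat_lit 3) (nat_lit 2) (nat_lit 7) (nat_lit 151) (nat_lit 3) r0_151 r9_3 (nat_lit 0) (nat_lit 0) (nat_lit 0) (nat_lit 0x7de51cf04c) (nat_lit 1033259760)]
noncomputable def e6_27 : List Rx := [
  Rx.mk (nat_lit 27) (nat_lit 3) (nat_lit 3) (nat_lit 0) (nat_lit 3) (nat_lit 152) (nat_lit 0) r0_152 r10_0 (nat_lit 0) (nat_lit 0) (nat_lit 0) (nat_lit 0x7e1794a89e) (nat_lit 936493272),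
  Rx.mk (nat_lit 155) (nat_lit 3) (nat_lit 3) (nat_lit 2) (nat_lit 7) (nat_lit 153) (nat_lit 1) r0_153 r10_1 (nat_lit 0) (nat_lit 0) (nat_lit 0) (nat_lit 0x7df4465da6) (nat_lit 1004188536)]
noncomputable def e6_28 : List Rx := [
  Rx.mk (nat_lit 103) (nat_lit 7) (nat_lit 4) (nat_lit 1) (nat_lit 5) (nat_lit 225) (nat_lit 302) r0_225 r10_302 (nat_lit 0) (nat_lit 0) (nat_lit 0) (nat_lit 0x7c7d384ffe) (nat_lit 1723317336),
  Rx.mk (nat_lit 359) (nat_lit 7) (nat_lit 4) (nat_lit 5) (nat_lit 5) (nat_lit 226) (nat_lit 300) r0_226 r10_300 (nat_lit 0) (nat_lit 0) (nat_lit 0) (nat_lit 0x7dddc22600) (nat_lit 1047361536),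
  Rx.mk (nat_lit 375) (nat_lit 7) (nat_lit 6) (nat_lit 5) (nat_lit 7) (nat_lit 227) (nat_lit 301) r0_227 r10_301 (nat_lit 0) (nat_lit 0) (nat_lit 0) (nat_lit 0x7e9ab5f606) (nat_lit 685064952)]
noncomputable def e6_29 : List Rx := [
  Rx.mk (nat_lit 35) (nat_lit 3) (nat_lit 4) (nat_lit 0) (nat_lit 1) (nat_lit 228) (nat_lit 173) r0_228 r5_173 (nat_lit 0) (nat_lit 0) (nat_lit 0) (nat_lit 0x746fc68f28) (nat_lit 5675922720),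
  Rx.mk (nat_lit 56) (nat_lit 0) (nat_lit 7) (nat_lit 0) (nat_lit 2) (nat_lit 232) (nat_lit 171) r0_232 r5_171 (nat_lit 0) (nat_lit 0) (nat_lit 0) (nat_lit 0x75597c52e2) (nat_lit 5227808040),
  Rx.mk (nat_lit 59) (nat_lit 3) (nat_lit 7) (nat_lit 0) (nat_lit 3) (nat_lit 234) (nat_lit 174) r0_234 r5_174 (nat_lit 0) (nat_lit 0) (nat_lit 0) (nat_lit 0x7ee77f2926) (nat_lit 537835896),
  Rx.mk (nat_lit 99) (nat_lit 3) (nat_lit 4) (nat_lit 1) (nat_lit 5) (nat_lit 229) (nat_lit 175) r0_229 r5_175 (nat_lit 0) (nat_lit 0) (nat_lit 0) (nat_lit 0x7f864e9b90) (nat_lit 233333568),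
  Rx.mk (nat_lit 120) (nat_lit 0) (nat_lit 7) (nat_lit 1) (nat_lit 6) (nat_lit 233) (nat_lit 172) r0_233 r5_172 (nat_lit 0) (nat_lit 0) (nat_lit 0) (nat_lit 0x7fa8fdf078) (nat_lit 166828896),
  Rx.mk (nat_lit 123) (nat_lit 3) (nat_lit 7) (nat_lit 1) (nat_lit 7) (nat_lit 235) (nat_lit 176) r0_235 r5_176 (nat_lit 0) (nat_lit 0) (nat_lit 0) (nat_lit 0x7f62ec71d6) (nat_lit 301177656),
  Rx.mk (nat_lit 227) (nat_lit 3) (nat_lit 4) (nat_lit 3) (nat_lit 5) (nat_lit 230) (nat_lit 177) r0_230 r5_177 (nat_lit 0) (nat_lit 0) (nat_lit 0) (nat_lit 0x7d3f0c91f8) (nat_lit 1351670112),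
  Rx.mk (nat_lit 231) (nat_lit 7) (nat_lit 4) (nat_lit 3) (nat_lit 5) (nat_lit 231) (nat_lit 170) r0_231 r5_170 (nat_lit 0) (nat_lit 0) (nat_lit 0) (nat_lit 0x7b678c2bd6) (nat_lit 2255725368)]
noncomputable def e6_30 : List Rx := [
  Rx.mk (nat_lit 24) (nat_lit 0) (nat_lit 3) (nat_lit 0) (nat_lit 2) (nat_lit 212) (nat_lit 91) r0_212 r10_91 (nat_lit 0) (nat_lit 0) (nat_lit 0) (nat_lit 0x41b494b504) (nat_lit 30577519440),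
  Rx.mk (nat_lit 56) (nat_lit 0) (nat_lit 7) (nat_lit 0) (nat_lit 2) (nat_lit 219) (nat_lit 92) r0_219 r10_92 (nat_lit 0) (nat_lit 0) (nat_lit 0) (nat_lit 0x4965c57a46) (nat_lit 26801801208),
  Rx.mk (nat_lit 59) (nat_lit 3) (nat_lit 7) (nat_lit 0) (nat_lit 3) (nat_lit 220) (nat_lit 93) r0_220 r10_93 (nat_lit 0) (nat_lit 0) (nat_lit 0) (nat_lit 0x7d5dec63dc) (nat_lit 1292471856),
  Rx.mk (nat_lit 152) (nat_lit 0) (nat_lit 3) (nat_lit 2) (nat_lit 6) (nat_lit 213) (nat_lit 97) r0_213 r10_97 (nat_lit 0) (nat_lit 0) (nat_lit 0) (nat_lit 0x78034c9334) (nat_lit 3920501520),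
  Rx.mk (nat_lit 154) (nat_lit 2) (nat_lit 3) (nat_lit 2) (nat_lit 7) (nat_lit 214) (nat_lit 98) r0_214 r10_98 (nat_lit 0) (nat_lit 0) (nat_lit 0) (nat_lit 0x7e314d2cfc) (nat_lit 887176368),
  Rx.mk (nat_lit 227) (nat_lit 3) (nat_lit 4) (nat_lit 3) (nat_lit 5) (nat_lit 215) (nat_lit 94) r0_215 r10_94 (nat_lit 0) (nat_lit 0) (nat_lit 0) (nat_lit 0x7d78b51736) (nat_lit 1241116344),
  Rx.mk (nat_lit 231) (nat_lit 7) (nat_lit 4) (nat_lit 3) (nat_lit 5) (nat_lit 216) (nat_lit 96) r0_216 r10_96 (nat_lit 0) (nat_lit 0) (nat_lit 0) (nat_lit 0x7de857fc98) (nat_lit 1027065312),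
  Rx.mk (nat_lit 251) (nat_lit 3) (nat_lit 7) (nat_lit 3) (nat_lit 7) (nat_lit 221) (nat_lit 95) r0_221 r10_95 (nat_lit 0) (nat_lit 0) (nat_lit 0) (nat_lit 0x7e428d38ea) (nat_lit 854100936),
  Rx.mk (nat_lit 487) (nat_lit 7) (nat_lit 4) (nat_lit 7) (nat_lit 5) (nat_lit 217) (nat_lit 99) r0_217 r10_99 (nat_lit 0) (nat_lit 0) (nat_lit 0) (nat_lit 0x7c2f7ecbe4) (nat_lit 1872346320),
  Rx.mk (nat_lit 503) (nat_lit 7) (nat_lit 6) (nat_lit 7) (nat_lit 7) (nat_lit 218) (nat_lit 100) r0_218 r10_100 (nat_lit 0) (nat_lit 0) (nat_lit 0) (nat_lit 0x7e0bdd0424) (nat_lit 958960080)]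
noncomputable def e6_31 : List Rx := [
  Rx.mk (nat_lit 99) (nat_lit 3) (nat_lit 4) (nat_lit 1) (nat_lit 5) (nat_lit 222) (nat_lit 276) r0_222 r5_276 (nat_lit 0) (nat_lit 0) (nat_lit 0) (nat_lit 0x7ff5e6a1a0) (nat_lit 19363968),
  Rx.mk (nat_lit 103) (nat_lit 7) (nat_lit 4) (nat_lit 1) (nat_lit 5) (nat_lit 223) (nat_lit 277) r0_223 r5_277 (nat_lit 0) (nat_lit 0) (nat_lit 0) (nat_lit 0x7c3f149278) (nat_lit 1842463584)]
noncomputable def e6_32 : List Rx := [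
  Rx.mk (nat_lit 35) (nat_lit 3) (nat_lit 4) (nat_lit 0) (nat_lit 1) (nat_lit 236) (nat_lit 49) r0_236 r11_49 (nat_lit 0) (nat_lit 0) (nat_lit 0) (nat_lit 0x7a6c44a14a) (nat_lit 2737527624),
  Rx.mk (nat_lit 39) (nat_lit 7) (nat_lit 4) (nat_lit 0) (nat_lit 1) (nat_lit 238) (nat_lit 53) r0_238 r11_53 (nat_lit 0) (nat_lit 0) (nat_lit 0) (nat_lit 0x604a433b84) (nat_lit 15564918096),
  Rx.mk (nat_lit 59) (nat_lit 3) (nat_lit 7) (nat_lit 0) (nat_lit 3) (nat_lit 241) (nat_lit 51) r0_241 r11_51 (nat_lit 0) (nat_lit 0) (nat_lit 0) (nat_lit 0x7e8bdea38a) (nat_lit 713521224),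
  Rx.mk (nat_lit 99) (nat_lit 3) (nat_lit 4) (nat_lit 1) (nat_lit 5) (nat_lit 237) (nat_lit 50) r0_237 r11_50 (nat_lit 0) (nat_lit 0) (nat_lit 0) (nat_lit 0x7ff1a7c592) (nat_lit 27504360),
  Rx.mk (nat_lit 103) (nat_lit 7) (nat_lit 4) (nat_lit 1) (nat_lit 5) (nat_lit 239) (nat_lit 54) r0_239 r11_54 (nat_lit 0) (nat_lit 0) (nat_lit 0) (nat_lit 0x7a40d59866) (nat_lit 2820807288),
  Rx.mk (nat_lit 123) (nat_lit 3) (nat_lit 7) (nat_lit 1) (nat_lit 7) (nat_lit 242) (nat_lit 52) r0_242 r11_52 (nat_lit 0) (nat_lit 0) (nat_lit 0) (nat_lit 0x7fcf076fba) (nat_lit 93896712),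
  Rx.mk (nat_lit 231) (nat_lit 7) (nat_lit 4) (nat_lit 3) (nat_lit 5) (nat_lit 240) (nat_lit 55) r0_240 r11_55 (nat_lit 0) (nat_lit 0) (nat_lit 0) (nat_lit 0x7407d02ef6) (nat_lit 5875259832)]
noncomputable def e6_33 : List Rx := [
  Rx.mk (nat_lit 40) (nat_lit 0) (nat_lit 5) (nat_lit 0) (nat_lit 2) (nat_lit 248) (nat_lit 171) r0_248 r0_171 (nat_lit 0) (nat_lit 0) (nat_lit 0) (nat_lit 0x7d82b5b722) (nat_lit 1221937704),
  Rx.mk (nat_lit 104) (nat_lit 0) (nat_lit 5) (nat_lit 1) (nat_lit 6) (nat_lit 249) (nat_lit 172) r0_249 r0_172 (nat_lit 0) (nat_lit 0) (nat_lit 0) (nat_lit 0x79e90615b6) (nat_lit 2989174968)]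
noncomputable def e6_34 : List Rx := [
  Rx.mk (nat_lit 40) (nat_lit 0) (nat_lit 5) (nat_lit 0) (nat_lit 2) (nat_lit 244) (nat_lit 244) r0_244 r0_244 (nat_lit 0) (nat_lit 0) (nat_lit 0) (nat_lit 0x563db2ae9a) (nat_lit 20497543560),
  Rx.mk (nat_lit 41) (nat_lit 1) (nat_lit 5) (nat_lit 0) (nat_lit 3) (nat_lit 246) (nat_lit 245) r0_246 r0_245 (nat_lit 0) (nat_lit 0) (nat_lit 0) (nat_lit 0x72ec042cd2) (nat_lit 6419410920),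
  Rx.mk (nat_lit 97) (nat_lit 1) (nat_lit 4) (nat_lit 1) (nat_lit 5) (nat_lit 243) (nat_lit 243) r0_243 r0_243 (nat_lit 0) (nat_lit 0) (nat_lit 0) (nat_lit 0x7feec413d0) (nat_lit 33044544),
  Rx.mk (nat_lit 104) (nat_lit 0) (nat_lit 5) (nat_lit 1) (nat_lit 6) (nat_lit 245) (nat_lit 246) r0_245 r0_246 (nat_lit 0) (nat_lit 0) (nat_lit 0) (nat_lit 0x72ec042cd2) (nat_lit 6419410920),
  Rx.mk (nat_lit 105) (nat_lit 1) (nat_lit 5) (nat_lit 1) (nat_lit 7) (nat_lit 247) (nat_lit 247) r0_247 r0_247 (nat_lit 0) (nat_lit 0) (nat_lit 0) (nat_lit 0x7d475fecba) (nat_lit 1335706632)]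
noncomputable def e6_35 : List Rx := [
  Rx.mk (nat_lit 40) (nat_lit 0) (nat_lit 5) (nat_lit 0) (nat_lit 2) (nat_lit 250) (nat_lit 217) r0_250 r6_217 (nat_lit 0) (nat_lit 0) (nat_lit 0) (nat_lit 0x69df6adf74) (nat_lit 10861248528),
  Rx.mk (nat_lit 41) (nat_lit 1) (nat_lit 5) (nat_lit 0) (nat_lit 3) (nat_lit 252) (nat_lit 219) r0_252 r6_219 (nat_lit 0) (nat_lit 0) (nat_lit 0) (nat_lit 0x7bc64bff7a) (nat_lit 2074053384),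
  Rx.mk (nat_lit 104) (nat_lit 0) (nat_lit 5) (nat_lit 1) (nat_lit 6) (nat_lit 251) (nat_lit 218) r0_251 r6_218 (nat_lit 0) (nat_lit 0) (nat_lit 0) (nat_lit 0x7da3d1a542) (nat_lit 1158454440),
  Rx.mk (nat_lit 105) (nat_lit 1) (nat_lit 5) (nat_lit 1) (nat_lit 7) (nat_lit 253) (nat_lit 220) r0_253 r6_220 (nat_lit 0) (nat_lit 0) (nat_lit 0) (nat_lit 0x7e1cb5968a) (nat_lit 926659656)]
noncomputable def e6_36 : List Rx := [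
  Rx.mk (nat_lit 97) (nat_lit 1) (nat_lit 4) (nat_lit 1) (nat_lit 5) (nat_lit 285) (nat_lit 276) r0_285 r2_276 (nat_lit 0) (nat_lit 0) (nat_lit 0) (nat_lit 0x7e3ae53372) (nat_lit 868781160),
  Rx.mk (nat_lit 101) (nat_lit 5) (nat_lit 4) (nat_lit 1) (nat_lit 5) (nat_lit 286) (nat_lit 277) r0_286 r2_277 (nat_lit 0) (nat_lit 0) (nat_lit 0) (nat_lit 0x7e0b17707e) (nat_lit 960439896),
  Rx.mk (nat_lit 105) (nat_lit 1) (nat_lit 5) (nat_lit 1) (nat_lit 7) (nat_lit 287) (nat_lit 278) r0_287 r2_278 (nat_lit 0) (nat_lit 0) (nat_lit 0) (nat_lit 0x7de4b8169a) (nat_lit 1034015112),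
  Rx.mk (nat_lit 109) (nat_lit 5) (nat_lit 5) (nat_lit 1) (nat_lit 7) (nat_lit 288) (nat_lit 279) r0_288 r2_279 (nat_lit 0) (nat_lit 0) (nat_lit 0) (nat_lit 0x7de13f8e26) (nat_lit 1040670072)]
noncomputable def e6_37 : List Rx := [
  Rx.mk (nat_lit 105) (nat_lit 1) (nat_lit 5) (nat_lit 1) (nat_lit 7) (nat_lit 291) (nat_lit 248) r0_291 r8_248 (nat_lit 0) (nat_lit 0) (nat_lit 0) (nat_lit 0x7df24f9d14) (nat_lit 1007954064),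
  Rx.mk (nat_lit 109) (nat_lit 5) (nat_lit 5) (nat_lit 1) (nat_lit 7) (nat_lit 292) (nat_lit 249) r0_292 r8_249 (nat_lit 0) (nat_lit 0) (nat_lit 0) (nat_lit 0x7ddc669bba) (nat_lit 1049964552)]
noncomputable def e6_38 : List Rx := [
  Rx.mk (nat_lit 97) (nat_lit 1) (nat_lit 4) (nat_lit 1) (nat_lit 5) (nat_lit 293) (nat_lit 254) r0_293 r8_254 (nat_lit 0) (nat_lit 0) (nat_lit 0) (nat_lit 0x7c454cceee) (nat_lit 1830538008),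
  Rx.mk (nat_lit 101) (nat_lit 5) (nat_lit 4) (nat_lit 1) (nat_lit 5) (nat_lit 294) (nat_lit 253) r0_294 r8_253 (nat_lit 0) (nat_lit 0) (nat_lit 0) (nat_lit 0x7d40db9506) (nat_lit 1348202232),
  Rx.mk (nat_lit 105) (nat_lit 1) (nat_lit 5) (nat_lit 1) (nat_lit 7) (nat_lit 296) (nat_lit 256) r0_296 r8_256 (nat_lit 0) (nat_lit 0) (nat_lit 0) (nat_lit 0x7df79428c6) (nat_lit 997853688),
  Rx.mk (nat_lit 109) (nat_lit 5) (nat_lit 5) (nat_lit 1) (nat_lit 7) (nat_lit 297) (nat_lit 255) r0_297 r8_255 (nat_lit 0) (nat_lit 0) (nat_lit 0) (nat_lit 0x7de02cbf54) (nat_lit 1042728336),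
  Rx.mk (nat_lit 357) (nat_lit 5) (nat_lit 4) (nat_lit 5) (nat_lit 5) (nat_lit 295) (nat_lit 250) r0_295 r8_250 (nat_lit 0) (nat_lit 0) (nat_lit 0) (nat_lit 0x7d3d9e48de) (nat_lit 1354413528),
  Rx.mk (nat_lit 365) (nat_lit 5) (nat_lit 5) (nat_lit 5) (nat_lit 7) (nat_lit 298) (nat_lit 251) r0_298 r8_251 (nat_lit 0) (nat_lit 0) (nat_lit 0) (nat_lit 0x7df79428c6) (nat_lit 997853688),
  Rx.mk (nat_lit 373) (nat_lit 5) (nat_lit 6) (nat_lit 5) (nat_lit 7) (nat_lit 299) (nat_lit 252) r0_299 r8_252 (nat_lit 0) (nat_lit 0) (nat_lit 0) (nat_lit 0x7dea449dcc) (nat_lit 1023375600)]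
noncomputable def e6_39 : List Rx := [
  Rx.mk (nat_lit 41) (nat_lit 1) (nat_lit 5) (nat_lit 0) (nat_lit 3) (nat_lit 283) (nat_lit 253) r0_283 r1_253 (nat_lit 0) (nat_lit 0) (nat_lit 0) (nat_lit 0x7925b2abb0) (nat_lit 3363691968),
  Rx.mk (nat_lit 97) (nat_lit 1) (nat_lit 4) (nat_lit 1) (nat_lit 5) (nat_lit 282) (nat_lit 252) r0_282 r1_252 (nat_lit 0) (nat_lit 0) (nat_lit 0) (nat_lit 0x7ff9bf840e) (nat_lit 11987352),
  Rx.mk (nat_lit 105) (nat_lit 1) (nat_lit 5) (nat_lit 1) (nat_lit 7) (nat_lit 284) (nat_lit 254) r0_284 r1_254 (nat_lit 0) (nat_lit 0) (nat_lit 0) (nat_lit 0x7bdf3f502c) (nat_lit 2026213488)]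
noncomputable def e6_40 : List Rx := [
  Rx.mk (nat_lit 41) (nat_lit 1) (nat_lit 5) (nat_lit 0) (nat_lit 3) (nat_lit 289) (nat_lit 178) r0_289 r7_178 (nat_lit 0) (nat_lit 0) (nat_lit 0) (nat_lit 0x7b30873c5c) (nat_lit 2361219120),
  Rx.mk (nat_lit 105) (nat_lit 1) (nat_lit 5) (nat_lit 1) (nat_lit 7) (nat_lit 290) (nat_lit 179) r0_290 r7_179 (nat_lit 0) (nat_lit 0) (nat_lit 0) (nat_lit 0x7df79428c6) (nat_lit 997853688)]
noncomputable def e6_41 : List Rx := [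
  Rx.mk (nat_lit 8) (nat_lit 0) (nat_lit 1) (nat_lit 0) (nat_lit 2) (nat_lit 265) (nat_lit 180) r0_265 r1_180 (nat_lit 0) (nat_lit 0) (nat_lit 0) (nat_lit 0x5c4ea51962) (nat_lit 17519929128),
  Rx.mk (nat_lit 40) (nat_lit 0) (nat_lit 5) (nat_lit 0) (nat_lit 2) (nat_lit 269) (nat_lit 179) r0_269 r1_179 (nat_lit 0) (nat_lit 0) (nat_lit 0) (nat_lit 0x7fe711eefa) (nat_lit 47800584),
  Rx.mk (nat_lit 72) (nat_lit 0) (nat_lit 1) (nat_lit 1) (nat_lit 6) (nat_lit 266) (nat_lit 182) r0_266 r1_182 (nat_lit 0) (nat_lit 0) (nat_lit 0) (nat_lit 0x77997950d2) (nat_lit 4123410408),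
  Rx.mk (nat_lit 104) (nat_lit 0) (nat_lit 5) (nat_lit 1) (nat_lit 6) (nat_lit 270) (nat_lit 181) r0_270 r1_181 (nat_lit 0) (nat_lit 0) (nat_lit 0) (nat_lit 0x7a861a03da) (nat_lit 2687994504),
  Rx.mk (nat_lit 136) (nat_lit 0) (nat_lit 1) (nat_lit 2) (nat_lit 6) (nat_lit 267) (nat_lit 183) r0_267 r1_183 (nat_lit 0) (nat_lit 0) (nat_lit 0) (nat_lit 0x7389907370) (nat_lit 6117329088),
  Rx.mk (nat_lit 138) (nat_lit 2) (nat_lit 1) (nat_lit 2) (nat_lit 7) (nat_lit 268) (nat_lit 184) r0_268 r1_184 (nat_lit 0) (nat_lit 0) (nat_lit 0) (nat_lit 0x6ddb0661c0) (nat_lit 8906257152)]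
noncomputable def e6_42 : List Rx := [
  Rx.mk (nat_lit 8) (nat_lit 0) (nat_lit 1) (nat_lit 0) (nat_lit 2) (nat_lit 254) (nat_lit 180) r0_254 r2_180 (nat_lit 0) (nat_lit 0) (nat_lit 0) (nat_lit 0x58ede04910) (nat_lit 19178033472),
  Rx.mk (nat_lit 136) (nat_lit 0) (nat_lit 1) (nat_lit 2) (nat_lit 6) (nat_lit 255) (nat_lit 181) r0_255 r2_181 (nat_lit 0) (nat_lit 0) (nat_lit 0) (nat_lit 0x7c870832f6) (nat_lit 1704503736),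
  Rx.mk (nat_lit 138) (nat_lit 2) (nat_lit 1) (nat_lit 2) (nat_lit 7) (nat_lit 256) (nat_lit 182) r0_256 r2_182 (nat_lit 0) (nat_lit 0) (nat_lit 0) (nat_lit 0x7df272dae0) (nat_lit 1007690112)]
noncomputable def e6_43 : List Rx := [
  Rx.mk (nat_lit 8) (nat_lit 0) (nat_lit 1) (nat_lit 0) (nat_lit 2) (nat_lit 271) (nat_lit 230) r0_271 r7_230 (nat_lit 0) (nat_lit 0) (nat_lit 0) (nat_lit 0x52675b77e4) (nat_lit 22381079760),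
  Rx.mk (nat_lit 9) (nat_lit 1) (nat_lit 1) (nat_lit 0) (nat_lit 3) (nat_lit 274) (nat_lit 231) r0_274 r7_231 (nat_lit 0) (nat_lit 0) (nat_lit 0) (nat_lit 0x7a2fb2caa4) (nat_lit 2853663696),
  Rx.mk (nat_lit 40) (nat_lit 0) (nat_lit 5) (nat_lit 0) (nat_lit 2) (nat_lit 278) (nat_lit 237) r0_278 r7_237 (nat_lit 0) (nat_lit 0) (nat_lit 0) (nat_lit 0x5c996eec7a) (nat_lit 17376530184),
  Rx.mk (nat_lit 41) (nat_lit 1) (nat_lit 5) (nat_lit 0) (nat_lit 3) (nat_lit 280) (nat_lit 238) r0_280 r7_238 (nat_lit 0) (nat_lit 0) (nat_lit 0) (nat_lit 0x7d503ebec4) (nat_lit 1318698576),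
  Rx.mk (nat_lit 72) (nat_lit 0) (nat_lit 1) (nat_lit 1) (nat_lit 6) (nat_lit 272) (nat_lit 232) r0_272 r7_232 (nat_lit 0) (nat_lit 0) (nat_lit 0) (nat_lit 0x77e11e9636) (nat_lit 3986037432),
  Rx.mk (nat_lit 73) (nat_lit 1) (nat_lit 1) (nat_lit 1) (nat_lit 7) (nat_lit 275) (nat_lit 233) r0_275 r7_233 (nat_lit 0) (nat_lit 0) (nat_lit 0) (nat_lit 0x7d51c5c652) (nat_lit 1315769832),
  Rx.mk (nat_lit 104) (nat_lit 0) (nat_lit 5) (nat_lit 1) (nat_lit 6) (nat_lit 279) (nat_lit 239) r0_279 r7_239 (nat_lit 0) (nat_lit 0) (nat_lit 0) (nat_lit 0x7c51f5245c) (nat_lit 1806268464),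
  Rx.mk (nat_lit 105) (nat_lit 1) (nat_lit 5) (nat_lit 1) (nat_lit 7) (nat_lit 281) (nat_lit 240) r0_281 r7_240 (nat_lit 0) (nat_lit 0) (nat_lit 0) (nat_lit 0x7df400a202) (nat_lit 1004710824),
  Rx.mk (nat_lit 136) (nat_lit 0) (nat_lit 1) (nat_lit 2) (nat_lit 6) (nat_lit 273) (nat_lit 234) r0_273 r7_234 (nat_lit 0) (nat_lit 0) (nat_lit 0) (nat_lit 0x7d448d19ea) (nat_lit 1341120456),
  Rx.mk (nat_lit 137) (nat_lit 1) (nat_lit 1) (nat_lit 2) (nat_lit 7) (nat_lit 276) (nat_lit 235) r0_276 r7_235 (nat_lit 0) (nat_lit 0) (nat_lit 0) (nat_lit 0x7df2301f0c) (nat_lit 1008189936),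
  Rx.mk (nat_lit 138) (nat_lit 2) (nat_lit 1) (nat_lit 2) (nat_lit 7) (nat_lit 277) (nat_lit 236) r0_277 r7_236 (nat_lit 0) (nat_lit 0) (nat_lit 0) (nat_lit 0x7df55c2c48) (nat_lit 1002107808)]
noncomputable def e6_44 : List Rx := [
  Rx.mk (nat_lit 8) (nat_lit 0) (nat_lit 1) (nat_lit 0) (nat_lit 2) (nat_lit 257) (nat_lit 155) r0_257 r8_155 (nat_lit 0) (nat_lit 0) (nat_lit 0) (nat_lit 0x5d0382aad4) (nat_lit 17173138320),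
  Rx.mk (nat_lit 9) (nat_lit 1) (nat_lit 1) (nat_lit 0) (nat_lit 3) (nat_lit 259) (nat_lit 157) r0_259 r8_157 (nat_lit 0) (nat_lit 0) (nat_lit 0) (nat_lit 0x7c68fe73b0) (nat_lit 1762098624),
  Rx.mk (nat_lit 136) (nat_lit 0) (nat_lit 1) (nat_lit 2) (nat_lit 6) (nat_lit 258) (nat_lit 156) r0_258 r8_156 (nat_lit 0) (nat_lit 0) (nat_lit 0) (nat_lit 0x7d665dbcbe) (nat_lit 1276283736),
  Rx.mk (nat_lit 137) (nat_lit 1) (nat_lit 1) (nat_lit 2) (nat_lit 7) (nat_lit 260) (nat_lit 158) r0_260 r8_158 (nat_lit 0) (nat_lit 0) (nat_lit 0) (nat_lit 0x7de755acbe) (nat_lit 1029000024),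
  Rx.mk (nat_lit 138) (nat_lit 2) (nat_lit 1) (nat_lit 2) (nat_lit 7) (nat_lit 261) (nat_lit 159) r0_261 r8_159 (nat_lit 0) (nat_lit 0) (nat_lit 0) (nat_lit 0x7df3be4628) (nat_lit 1005207840)]
noncomputable def e6_45 : List Rx := [
  Rx.mk (nat_lit 8) (nat_lit 0) (nat_lit 1) (nat_lit 0) (nat_lit 2) (nat_lit 262) (nat_lit 65) r0_262 r8_65 (nat_lit 0) (nat_lit 0) (nat_lit 0) (nat_lit 0x69ec4571be) (nat_lit 10836602712),
  Rx.mk (nat_lit 136) (nat_lit 0) (nat_lit 1) (nat_lit 2) (nat_lit 6) (nat_lit 263) (nat_lit 66) r0_263 r8_66 (nat_lit 0) (nat_lit 0) (nat_lit 0) (nat_lit 0x7d93758b14) (nat_lit 1189822608),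
  Rx.mk (nat_lit 138) (nat_lit 2) (nat_lit 1) (nat_lit 2) (nat_lit 7) (nat_lit 264) (nat_lit 67) r0_264 r8_67 (nat_lit 0) (nat_lit 0) (nat_lit 0) (nat_lit 0x7ddc6c3b60) (nat_lit 1049922432)]
noncomputable def e6_46 : List Rx := [
  Rx.mk (nat_lit 40) (nat_lit 0) (nat_lit 5) (nat_lit 0) (nat_lit 2) (nat_lit 317) (nat_lit 155) r0_317 r4_155 (nat_lit 0) (nat_lit 0) (nat_lit 0) (nat_lit 0x6ef1331dde) (nat_lit 8372885976),
  Rx.mk (nat_lit 43) (nat_lit 3) (nat_lit 5) (nat_lit 0) (nat_lit 3) (nat_lit 319) (nat_lit 157) r0_319 r4_157 (nat_lit 0) (nat_lit 0) (nat_lit 0) (nat_lit 0x76db4494dc) (nat_lit 4488110640),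
  Rx.mk (nat_lit 104) (nat_lit 0) (nat_lit 5) (nat_lit 1) (nat_lit 6) (nat_lit 318) (nat_lit 156) r0_318 r4_156 (nat_lit 0) (nat_lit 0) (nat_lit 0) (nat_lit 0x7d38edd3ea) (nat_lit 1363404744),
  Rx.mk (nat_lit 107) (nat_lit 3) (nat_lit 5) (nat_lit 1) (nat_lit 7) (nat_lit 320) (nat_lit 158) r0_320 r4_158 (nat_lit 0) (nat_lit 0) (nat_lit 0) (nat_lit 0x7ece365dcc) (nat_lit 586316016)]
noncomputable def e6_47 : List Rx := [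
  Rx.mk (nat_lit 40) (nat_lit 0) (nat_lit 5) (nat_lit 0) (nat_lit 2) (nat_lit 308) (nat_lit 256) r0_308 r4_256 (nat_lit 0) (nat_lit 0) (nat_lit 0) (nat_lit 0x6d9ecf456e) (nat_lit 9021713688),
  Rx.mk (nat_lit 41) (nat_lit 1) (nat_lit 5) (nat_lit 0) (nat_lit 3) (nat_lit 310) (nat_lit 257) r0_310 r4_257 (nat_lit 0) (nat_lit 0) (nat_lit 0) (nat_lit 0x7da9e10446) (nat_lit 1146834936),
  Rx.mk (nat_lit 43) (nat_lit 3) (nat_lit 5) (nat_lit 0) (nat_lit 3) (nat_lit 312) (nat_lit 258) r0_312 r4_258 (nat_lit 0) (nat_lit 0) (nat_lit 0) (nat_lit 0x76d4fe194a) (nat_lit 4500142920),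
  Rx.mk (nat_lit 96) (nat_lit 0) (nat_lit 4) (nat_lit 1) (nat_lit 4) (nat_lit 305) (nat_lit 253) r0_305 r4_253 (nat_lit 0) (nat_lit 0) (nat_lit 0) (nat_lit 0x72ea26eaa8) (nat_lit 6422985504),
  Rx.mk (nat_lit 97) (nat_lit 1) (nat_lit 4) (nat_lit 1) (nat_lit 5) (nat_lit 306) (nat_lit 254) r0_306 r4_254 (nat_lit 0) (nat_lit 0) (nat_lit 0) (nat_lit 0x765dc16d8c) (nat_lit 4728767472),
  Rx.mk (nat_lit 99) (nat_lit 3) (nat_lit 4) (nat_lit 1) (nat_lit 5) (nat_lit 307) (nat_lit 255) r0_307 r4_255 (nat_lit 0) (nat_lit 0) (nat_lit 0) (nat_lit 0x7e1c8ad936) (nat_lit 926979768),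
  Rx.mk (nat_lit 104) (nat_lit 0) (nat_lit 5) (nat_lit 1) (nat_lit 6) (nat_lit 309) (nat_lit 259) r0_309 r4_259 (nat_lit 0) (nat_lit 0) (nat_lit 0) (nat_lit 0x7d715ecca2) (nat_lit 1255184424),
  Rx.mk (nat_lit 105) (nat_lit 1) (nat_lit 5) (nat_lit 1) (nat_lit 7) (nat_lit 311) (nat_lit 260) r0_311 r4_260 (nat_lit 0) (nat_lit 0) (nat_lit 0) (nat_lit 0x7e65ac46d6) (nat_lit 786759480),
  Rx.mk (nat_lit 107) (nat_lit 3) (nat_lit 5) (nat_lit 1) (nat_lit 7) (nat_lit 313) (nat_lit 261) r0_313 r4_261 (nat_lit 0) (nat_lit 0) (nat_lit 0) (nat_lit 0x7e5d9fc7a6) (nat_lit 802192248)]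
noncomputable def e6_48 : List Rx := [
  Rx.mk (nat_lit 40) (nat_lit 0) (nat_lit 5) (nat_lit 0) (nat_lit 2) (nat_lit 321) (nat_lit 166) r0_321 r9_166 (nat_lit 0) (nat_lit 0) (nat_lit 0) (nat_lit 0x6fbd3d3c70) (nat_lit 7981661376),
  Rx.mk (nat_lit 41) (nat_lit 1) (nat_lit 5) (nat_lit 0) (nat_lit 3) (nat_lit 323) (nat_lit 168) r0_323 r9_168 (nat_lit 0) (nat_lit 0) (nat_lit 0) (nat_lit 0x7d7df942ee) (nat_lit 1231018776),
  Rx.mk (nat_lit 43) (nat_lit 3) (nat_lit 5) (nat_lit 0) (nat_lit 3) (nat_lit 325) (nat_lit 170) r0_325 r9_170 (nat_lit 0) (nat_lit 0) (nat_lit 0) (nat_lit 0x7a4fc4e962) (nat_lit 2792171304),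
  Rx.mk (nat_lit 104) (nat_lit 0) (nat_lit 5) (nat_lit 1) (nat_lit 6) (nat_lit 322) (nat_lit 167) r0_322 r9_167 (nat_lit 0) (nat_lit 0) (nat_lit 0) (nat_lit 0x7d8ed7d4f4) (nat_lit 1198673424),
  Rx.mk (nat_lit 105) (nat_lit 1) (nat_lit 5) (nat_lit 1) (nat_lit 7) (nat_lit 324) (nat_lit 169) r0_324 r9_169 (nat_lit 0) (nat_lit 0) (nat_lit 0) (nat_lit 0x7e0faa474c) (nat_lit 951670512),
  Rx.mk (nat_lit 107) (nat_lit 3) (nat_lit 5) (nat_lit 1) (nat_lit 7) (nat_lit 326) (nat_lit 171) r0_326 r9_171 (nat_lit 0) (nat_lit 0) (nat_lit 0) (nat_lit 0x7e1ddac436) (nat_lit 924463800)]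
noncomputable def e6_49 : List Rx := [
  Rx.mk (nat_lit 32) (nat_lit 0) (nat_lit 4) (nat_lit 0) (nat_lit 0) (nat_lit 341) (nat_lit 165) r0_341 r10_165 (nat_lit 0) (nat_lit 0) (nat_lit 0) (nat_lit 0x2d7a01d26e) (nat_lit 40506896664),
  Rx.mk (nat_lit 33) (nat_lit 1) (nat_lit 4) (nat_lit 0) (nat_lit 1) (nat_lit 343) (nat_lit 171) r0_343 r10_171 (nat_lit 0) (nat_lit 0) (nat_lit 0) (nat_lit 0x79a5a2ac30) (nat_lit 3118385088),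
  Rx.mk (nat_lit 35) (nat_lit 3) (nat_lit 4) (nat_lit 0) (nat_lit 1) (nat_lit 345) (nat_lit 177) r0_345 r10_177 (nat_lit 0) (nat_lit 0) (nat_lit 0) (nat_lit 0x7b95ea25c8) (nat_lit 2166821280),
  Rx.mk (nat_lit 40) (nat_lit 0) (nat_lit 5) (nat_lit 0) (nat_lit 2) (nat_lit 348) (nat_lit 166) r0_348 r10_166 (nat_lit 0) (nat_lit 0) (nat_lit 0) (nat_lit 0x7a5f28731a) (nat_lit 2762664840),
  Rx.mk (nat_lit 41) (nat_lit 1) (nat_lit 5) (nat_lit 0) (nat_lit 3) (nat_lit 350) (nat_lit 172) r0_350 r10_172 (nat_lit 0) (nat_lit 0) (nat_lit 0) (nat_lit 0x7dd895f8c8) (nat_lit 1057279392),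
  Rx.mk (nat_lit 43) (nat_lit 3) (nat_lit 5) (nat_lit 0) (nat_lit 3) (nat_lit 352) (nat_lit 178) r0_352 r10_178 (nat_lit 0) (nat_lit 0) (nat_lit 0) (nat_lit 0x7df5b266e4) (nat_lit 1001461968),
  Rx.mk (nat_lit 56) (nat_lit 0) (nat_lit 7) (nat_lit 0) (nat_lit 2) (nat_lit 355) (nat_lit 167) r0_355 r10_167 (nat_lit 0) (nat_lit 0) (nat_lit 0) (nat_lit 0x7cc600e32c) (nat_lit 1583762544),
  Rx.mk (nat_lit 57) (nat_lit 1) (nat_lit 7) (nat_lit 0) (nat_lit 3) (nat_lit 357) (nat_lit 173) r0_357 r10_173 (nat_lit 0) (nat_lit 0) (nat_lit 0) (nat_lit 0x7e5a0a0106) (nat_lit 809066232),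
  Rx.mk (nat_lit 96) (nat_lit 0) (nat_lit 4) (nat_lit 1) (nat_lit 4) (nat_lit 342) (nat_lit 168) r0_342 r10_168 (nat_lit 0) (nat_lit 0) (nat_lit 0) (nat_lit 0x7aa5ac4a96) (nat_lit 2627459640),
  Rx.mk (nat_lit 97) (nat_lit 1) (nat_lit 4) (nat_lit 1) (nat_lit 5) (nat_lit 344) (nat_lit 174) r0_344 r10_174 (nat_lit 0) (nat_lit 0) (nat_lit 0) (nat_lit 0x7df905d1aa) (nat_lit 995085000),
  Rx.mk (nat_lit 99) (nat_lit 3) (nat_lit 4) (nat_lit 1) (nat_lit 5) (nat_lit 346) (nat_lit 179) r0_346 r10_179 (nat_lit 0) (nat_lit 0) (nat_lit 0) (nat_lit 0x7deff222ee) (nat_lit 1012488984),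
  Rx.mk (nat_lit 104) (nat_lit 0) (nat_lit 5) (nat_lit 1) (nat_lit 6) (nat_lit 349) (nat_lit 169) r0_349 r10_169 (nat_lit 0) (nat_lit 0) (nat_lit 0) (nat_lit 0x7dda7f3a32) (nat_lit 1053614952),
  Rx.mk (nat_lit 105) (nat_lit 1) (nat_lit 5) (nat_lit 1) (nat_lit 7) (nat_lit 351) (nat_lit 175) r0_351 r10_175 (nat_lit 0) (nat_lit 0) (nat_lit 0) (nat_lit 0x7df9cda52c) (nat_lit 993588336),
  Rx.mk (nat_lit 107) (nat_lit 3) (nat_lit 5) (nat_lit 1) (nat_lit 7) (nat_lit 353) (nat_lit 180) r0_353 r10_180 (nat_lit 0) (nat_lit 0) (nat_lit 0) (nat_lit 0x7dee0dc136) (nat_lit 1016116920),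
  Rx.mk (nat_lit 120) (nat_lit 0) (nat_lit 7) (nat_lit 1) (nat_lit 6) (nat_lit 356) (nat_lit 170) r0_356 r10_170 (nat_lit 0) (nat_lit 0) (nat_lit 0) (nat_lit 0x7df00ea126) (nat_lit 1012275576),
  Rx.mk (nat_lit 121) (nat_lit 1) (nat_lit 7) (nat_lit 1) (nat_lit 7) (nat_lit 358) (nat_lit 176) r0_358 r10_176 (nat_lit 0) (nat_lit 0) (nat_lit 0) (nat_lit 0x7ea0391dce) (nat_lit 674495640),
  Rx.mk (nat_lit 227) (nat_lit 3) (nat_lit 4) (nat_lit 3) (nat_lit 5) (nat_lit 347) (nat_lit 181) r0_347 r10_181 (nat_lit 0) (nat_lit 0) (nat_lit 0) (nat_lit 0x7dc039bea4) (nat_lit 1103987664),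
  Rx.mk (nat_lit 235) (nat_lit 3) (nat_lit 5) (nat_lit 3) (nat_lit 7) (nat_lit 354) (nat_lit 182) r0_354 r10_182 (nat_lit 0) (nat_lit 0) (nat_lit 0) (nat_lit 0x7df41fc010) (nat_lit 1004477760)]
noncomputable def e6_50 : List Rx := [
  Rx.mk (nat_lit 43) (nat_lit 3) (nat_lit 5) (nat_lit 0) (nat_lit 3) (nat_lit 327) (nat_lit 298) r0_327 r10_298 (nat_lit 0) (nat_lit 0) (nat_lit 0) (nat_lit 0x7e2b75aa7a) (nat_lit 898377480),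
  Rx.mk (nat_lit 107) (nat_lit 3) (nat_lit 5) (nat_lit 1) (nat_lit 7) (nat_lit 328) (nat_lit 299) r0_328 r10_299 (nat_lit 0) (nat_lit 0) (nat_lit 0) (nat_lit 0x7df79428c6) (nat_lit 997853688)]
noncomputable def e6_51 : List Rx := [
  Rx.mk (nat_lit 103) (nat_lit 7) (nat_lit 4) (nat_lit 1) (nat_lit 5) (nat_lit 89) (nat_lit 61) r0_89 r12_61 (nat_lit 0) (nat_lit 0) (nat_lit 0) (nat_lit 0x75d5ae0f4a) (nat_lit 4989678408),
  Rx.mk (nat_lit 127) (nat_lit 7) (nat_lit 7) (nat_lit 1) (nat_lit 7) (nat_lit 90) (nat_lit 62) r0_90 r12_62 (nat_lit 0) (nat_lit 0) (nat_lit 0) (nat_lit 0x7ec6f5d1dc) (nat_lit 600221232)]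
noncomputable def e6_52 : List Rx := [
  Rx.mk (nat_lit 27) (nat_lit 3) (nat_lit 3) (nat_lit 0) (nat_lit 3) (nat_lit 65) (nat_lit 4) r0_65 r12_4 (nat_lit 0) (nat_lit 0) (nat_lit 0) (nat_lit 0x720f3cda24) (nat_lit 6842730960),
  Rx.mk (nat_lit 59) (nat_lit 3) (nat_lit 7) (nat_lit 0) (nat_lit 3) (nat_lit 68) (nat_lit 3) r0_68 r12_3 (nat_lit 0) (nat_lit 0) (nat_lit 0) (nat_lit 0x75cf3f763a) (nat_lit 5002011144),
  Rx.mk (nat_lit 63) (nat_lit 7) (nat_lit 7) (nat_lit 0) (nat_lit 3) (nat_lit 69) (nat_lit 1) r0_69 r12_1 (nat_lit 0) (nat_lit 0) (nat_lit 0) (nat_lit 0x71e33a1a7c) (nat_lit 6927116976),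
  Rx.mk (nat_lit 155) (nat_lit 3) (nat_lit 3) (nat_lit 2) (nat_lit 7) (nat_lit 66) (nat_lit 5) r0_66 r12_5 (nat_lit 0) (nat_lit 0) (nat_lit 0) (nat_lit 0x7df1ba066e) (nat_lit 1009074456),
  Rx.mk (nat_lit 231) (nat_lit 7) (nat_lit 4) (nat_lit 3) (nat_lit 5) (nat_lit 67) (nat_lit 0) r0_67 r12_0 (nat_lit 0) (nat_lit 0) (nat_lit 0) (nat_lit 0x765c6d02d4) (nat_lit 4731317136),
  Rx.mk (nat_lit 255) (nat_lit 7) (nat_lit 7) (nat_lit 3) (nat_lit 7) (nat_lit 70) (nat_lit 2) r0_70 r12_2 (nat_lit 0) (nat_lit 0) (nat_lit 0) (nat_lit 0x7690a69f06) (nat_lit 4631181048)]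
noncomputable def e6_53 : List Rx := [
  Rx.mk (nat_lit 103) (nat_lit 7) (nat_lit 4) (nat_lit 1) (nat_lit 5) (nat_lit 224) (nat_lit 255) r0_224 r12_255 (nat_lit 0) (nat_lit 0) (nat_lit 0) (nat_lit 0x8000000000) (nat_lit 0)]
noncomputable def e6_54 : List Rx := [
  Rx.mk (nat_lit 24) (nat_lit 0) (nat_lit 3) (nat_lit 0) (nat_lit 2) (nat_lit 204) (nat_lit 94) r0_204 r12_94 (nat_lit 0) (nat_lit 0) (nat_lit 0) (nat_lit 0x8000000000) (nat_lit 0),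
  Rx.mk (nat_lit 56) (nat_lit 0) (nat_lit 7) (nat_lit 0) (nat_lit 2) (nat_lit 209) (nat_lit 95) r0_209 r12_95 (nat_lit 0) (nat_lit 0) (nat_lit 0) (nat_lit 0x749db7cfe6) (nat_lit 5587832952),
  Rx.mk (nat_lit 59) (nat_lit 3) (nat_lit 7) (nat_lit 0) (nat_lit 3) (nat_lit 210) (nat_lit 96) r0_210 r12_96 (nat_lit 0) (nat_lit 0) (nat_lit 0) (nat_lit 0x7d52e9d410) (nat_lit 1313582400),
  Rx.mk (nat_lit 152) (nat_lit 0) (nat_lit 3) (nat_lit 2) (nat_lit 6) (nat_lit 205) (nat_lit 100) r0_205 r12_100 (nat_lit 0) (nat_lit 0) (nat_lit 0) (nat_lit 0x769593103a) (nat_lit 4621740552),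
  Rx.mk (nat_lit 154) (nat_lit 2) (nat_lit 3) (nat_lit 2) (nat_lit 7) (nat_lit 206) (nat_lit 101) r0_206 r12_101 (nat_lit 0) (nat_lit 0) (nat_lit 0) (nat_lit 0x67426092b6) (nat_lit 12144063672),
  Rx.mk (nat_lit 227) (nat_lit 3) (nat_lit 4) (nat_lit 3) (nat_lit 5) (nat_lit 207) (nat_lit 97) r0_207 r12_97 (nat_lit 0) (nat_lit 0) (nat_lit 0) (nat_lit 0x7b7e747d3a) (nat_lit 2211802632),
  Rx.mk (nat_lit 231) (nat_lit 7) (nat_lit 4) (nat_lit 3) (nat_lit 5) (nat_lit 208) (nat_lit 99) r0_208 r12_99 (nat_lit 0) (nat_lit 0) (nat_lit 0) (nat_lit 0x6c8ed0a668) (nat_lit 9543235104),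
  Rx.mk (nat_lit 251) (nat_lit 3) (nat_lit 7) (nat_lit 3) (nat_lit 7) (nat_lit 211) (nat_lit 98) r0_211 r12_98 (nat_lit 0) (nat_lit 0) (nat_lit 0) (nat_lit 0x7df6c1d5ec) (nat_lit 999428976)]
noncomputable def e6_55 : List Rx := [
  Rx.mk (nat_lit 40) (nat_lit 0) (nat_lit 5) (nat_lit 0) (nat_lit 2) (nat_lit 301) (nat_lit 142) r0_301 r3_142 (nat_lit 0) (nat_lit 0) (nat_lit 0) (nat_lit 0x7ffd37ac88) (nat_lit 5335200),
  Rx.mk (nat_lit 43) (nat_lit 3) (nat_lit 5) (nat_lit 0) (nat_lit 3) (nat_lit 303) (nat_lit 145) r0_303 r3_145 (nat_lit 0) (nat_lit 0) (nat_lit 0) (nat_lit 0x7da58729e8) (nat_lit 1155177504),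
  Rx.mk (nat_lit 96) (nat_lit 0) (nat_lit 4) (nat_lit 1) (nat_lit 4) (nat_lit 359) (nat_lit 143) r0_359 r3_143 (nat_lit 0) (nat_lit 0) (nat_lit 0) (nat_lit 0x8000000000) (nat_lit 0),
  Rx.mk (nat_lit 99) (nat_lit 3) (nat_lit 4) (nat_lit 1) (nat_lit 5) (nat_lit 300) (nat_lit 146) r0_300 r3_146 (nat_lit 0) (nat_lit 0) (nat_lit 0) (nat_lit 0x8000000000) (nat_lit 0),
  Rx.mk (nat_lit 104) (nat_lit 0) (nat_lit 5) (nat_lit 1) (nat_lit 6) (nat_lit 302) (nat_lit 144) r0_302 r3_144 (nat_lit 0) (nat_lit 0) (nat_lit 0) (nat_lit 0x7efff78188) (nat_lit 490917024),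
  Rx.mk (nat_lit 107) (nat_lit 3) (nat_lit 5) (nat_lit 1) (nat_lit 7) (nat_lit 304) (nat_lit 147) r0_304 r3_147 (nat_lit 0) (nat_lit 0) (nat_lit 0) (nat_lit 0x7feb704910) (nat_lit 39424320)]
noncomputable def e6_56 : List Rx := [
  Rx.mk (nat_lit 32) (nat_lit 0) (nat_lit 4) (nat_lit 0) (nat_lit 0) (nat_lit 329) (nat_lit 152) r0_329 r12_152 (nat_lit 0) (nat_lit 0) (nat_lit 0) (nat_lit 0x8000000000) (nat_lit 0),
  Rx.mk (nat_lit 35) (nat_lit 3) (nat_lit 4) (nat_lit 0) (nat_lit 1) (nat_lit 331) (nat_lit 158) r0_331 r12_158 (nat_lit 0) (nat_lit 0) (nat_lit 0) (nat_lit 0x6fbb66b9da) (nat_lit 7985185416),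
  Rx.mk (nat_lit 40) (nat_lit 0) (nat_lit 5) (nat_lit 0) (nat_lit 2) (nat_lit 334) (nat_lit 153) r0_334 r12_153 (nat_lit 0) (nat_lit 0) (nat_lit 0) (nat_lit 0x7328f59d7e) (nat_lit 6302558808),
  Rx.mk (nat_lit 43) (nat_lit 3) (nat_lit 5) (nat_lit 0) (nat_lit 3) (nat_lit 336) (nat_lit 159) r0_336 r12_159 (nat_lit 0) (nat_lit 0) (nat_lit 0) (nat_lit 0x7a9bd7e7e6) (nat_lit 2646306936),
  Rx.mk (nat_lit 56) (nat_lit 0) (nat_lit 7) (nat_lit 0) (nat_lit 2) (nat_lit 339) (nat_lit 154) r0_339 r12_154 (nat_lit 0) (nat_lit 0) (nat_lit 0) (nat_lit 0x8000000000) (nat_lit 0),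
  Rx.mk (nat_lit 96) (nat_lit 0) (nat_lit 4) (nat_lit 1) (nat_lit 4) (nat_lit 330) (nat_lit 155) r0_330 r12_155 (nat_lit 0) (nat_lit 0) (nat_lit 0) (nat_lit 0x7542556568) (nat_lit 5272199712),
  Rx.mk (nat_lit 99) (nat_lit 3) (nat_lit 4) (nat_lit 1) (nat_lit 5) (nat_lit 332) (nat_lit 160) r0_332 r12_160 (nat_lit 0) (nat_lit 0) (nat_lit 0) (nat_lit 0x7dd134cee2) (nat_lit 1071428904),
  Rx.mk (nat_lit 104) (nat_lit 0) (nat_lit 5) (nat_lit 1) (nat_lit 6) (nat_lit 335) (nat_lit 156) r0_335 r12_156 (nat_lit 0) (nat_lit 0) (nat_lit 0) (nat_lit 0x7e0833bebc) (nat_lit 965980080),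
  Rx.mk (nat_lit 107) (nat_lit 3) (nat_lit 5) (nat_lit 1) (nat_lit 7) (nat_lit 337) (nat_lit 161) r0_337 r12_161 (nat_lit 0) (nat_lit 0) (nat_lit 0) (nat_lit 0x7e78339e4e) (nat_lit 751232664),
  Rx.mk (nat_lit 120) (nat_lit 0) (nat_lit 7) (nat_lit 1) (nat_lit 6) (nat_lit 340) (nat_lit 157) r0_340 r12_157 (nat_lit 0) (nat_lit 0) (nat_lit 0) (nat_lit 0x7b4610a3b0) (nat_lit 2319924672),
  Rx.mk (nat_lit 227) (nat_lit 3) (nat_lit 4) (nat_lit 3) (nat_lit 5) (nat_lit 333) (nat_lit 162) r0_333 r12_162 (nat_lit 0) (nat_lit 0) (nat_lit 0) (nat_lit 0x7ac0cd7868) (nat_lit 2575441440),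
  Rx.mk (nat_lit 235) (nat_lit 3) (nat_lit 5) (nat_lit 3) (nat_lit 7) (nat_lit 338) (nat_lit 163) r0_338 r12_163 (nat_lit 0) (nat_lit 0) (nat_lit 0) (nat_lit 0x7e24231faa) (nat_lit 912417480)]
noncomputable def e6_57 : List Rx := [
  Rx.mk (nat_lit 43) (nat_lit 3) (nat_lit 5) (nat_lit 0) (nat_lit 3) (nat_lit 315) (nat_lit 253) r0_315 r12_253 (nat_lit 0) (nat_lit 0) (nat_lit 0) (nat_lit 0x7ac9315222) (nat_lit 2559354408),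
  Rx.mk (nat_lit 99) (nat_lit 3) (nat_lit 4) (nat_lit 1) (nat_lit 5) (nat_lit 314) (nat_lit 252) r0_314 r12_252 (nat_lit 0) (nat_lit 0) (nat_lit 0) (nat_lit 0x7c8c873b00) (nat_lit 1693965312),
  Rx.mk (nat_lit 107) (nat_lit 3) (nat_lit 5) (nat_lit 1) (nat_lit 7) (nat_lit 316) (nat_lit 254) r0_316 r12_254 (nat_lit 0) (nat_lit 0) (nat_lit 0) (nat_lit 0x7ef9c72494) (nat_lit 502783632)]
noncomputable def e6 : List (List Rx) := [e6_0, e6_1, e6_2, e6_3, e6_4, e6_5, e6_6, e6_7, e6_8, e6_9, e6_10, e6_11, e6_12, e6_13, e6_14, e6_15, e6_16, e6_17, e6_18, e6_19, e6_20, e6_21, e6_22, e6_23, e6_24, e6_25, e6_26, e6_27, e6_28, e6_29, e6_30, e6_31, e6_32, e6_33, e6_34, e6_35, e6_36, e6_37, e6_38, e6_39, e6_40, e6_41, e6_42, e6_43, e6_44, e6_45, e6_46, e6_47, e6_48, e6_49, e6_50, e6_51, e6_52, e6_53, e6_54, e6_55, e6_56, e6_57]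
noncomputable def e7_0 : List Rx := [
  Rx.mk (nat_lit 359) (nat_lit 7) (nat_lit 4) (nat_lit 5) (nat_lit 5) (nat_lit 69) (nat_lit 76) r1_69 r0_76 (nat_lit 0) (nat_lit 0) (nat_lit 0) (nat_lit 0x7d345c1d0a) (nat_lit 1372165704),
  Rx.mk (nat_lit 372) (nat_lit 4) (nat_lit 6) (nat_lit 5) (nat_lit 6) (nat_lit 70) (nat_lit 75) r1_70 r0_75 (nat_lit 0) (nat_lit 0) (nat_lit 0) (nat_lit 0x7de3d424da) (nat_lit 1035722376),
  Rx.mk (nat_lit 375) (nat_lit 7) (nat_lit 6) (nat_lit 5) (nat_lit 7) (nat_lit 71) (nat_lit 78) r1_71 r0_78 (nat_lit 0) (nat_lit 0) (nat_lit 0) (nat_lit 0x7ea4197fc4) (nat_lit 667062864),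
  Rx.mk (nat_lit 383) (nat_lit 7) (nat_lit 7) (nat_lit 5) (nat_lit 7) (nat_lit 72) (nat_lit 77) r1_72 r0_77 (nat_lit 0) (nat_lit 0) (nat_lit 0) (nat_lit 0x7d7df4633c) (nat_lit 1231055280)]
noncomputable def e7_1 : List Rx := [
  Rx.mk (nat_lit 295) (nat_lit 7) (nat_lit 4) (nat_lit 4) (nat_lit 1) (nat_lit 73) (nat_lit 75) r1_73 r1_75 (nat_lit 0) (nat_lit 0) (nat_lit 0) (nat_lit 0x762c24a78a) (nat_lit 4823894088),
  Rx.mk (nat_lit 308) (nat_lit 4) (nat_lit 6) (nat_lit 4) (nat_lit 2) (nat_lit 75) (nat_lit 73) r1_75 r1_73 (nat_lit 0) (nat_lit 0) (nat_lit 0) (nat_lit 0x762c24a78a) (nat_lit 4823894088),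
  Rx.mk (nat_lit 310) (nat_lit 6) (nat_lit 6) (nat_lit 4) (nat_lit 3) (nat_lit 77) (nat_lit 82) r1_77 r1_82 (nat_lit 0) (nat_lit 0) (nat_lit 0) (nat_lit 0x7d3afc3302) (nat_lit 1359462312),
  Rx.mk (nat_lit 311) (nat_lit 7) (nat_lit 6) (nat_lit 4) (nat_lit 3) (nat_lit 80) (nat_lit 80) r1_80 r1_80 (nat_lit 0) (nat_lit 0) (nat_lit 0) (nat_lit 0x7e4e579c38) (nat_lit 831493728),
  Rx.mk (nat_lit 319) (nat_lit 7) (nat_lit 7) (nat_lit 4) (nat_lit 3) (nat_lit 82) (nat_lit 77) r1_82 r1_77 (nat_lit 0) (nat_lit 0) (nat_lit 0) (nat_lit 0x7d3afc3302) (nat_lit 1359462312),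
  Rx.mk (nat_lit 359) (nat_lit 7) (nat_lit 4) (nat_lit 5) (nat_lit 5) (nat_lit 74) (nat_lit 76) r1_74 r1_76 (nat_lit 0) (nat_lit 0) (nat_lit 0) (nat_lit 0x7df46bdb4e) (nat_lit 1003907736),
  Rx.mk (nat_lit 372) (nat_lit 4) (nat_lit 6) (nat_lit 5) (nat_lit 6) (nat_lit 76) (nat_lit 74) r1_76 r1_74 (nat_lit 0) (nat_lit 0) (nat_lit 0) (nat_lit 0x7df46bdb4e) (nat_lit 1003907736),
  Rx.mk (nat_lit 374) (nat_lit 6) (nat_lit 6) (nat_lit 5) (nat_lit 7) (nat_lit 78) (nat_lit 83) r1_78 r1_83 (nat_lit 0) (nat_lit 0) (nat_lit 0) (nat_lit 0x7deae81394) (nat_lit 1022151312),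
  Rx.mk (nat_lit 375) (nat_lit 7) (nat_lit 6) (nat_lit 5) (nat_lit 7) (nat_lit 81) (nat_lit 81) r1_81 r1_81 (nat_lit 0) (nat_lit 0) (nat_lit 0) (nat_lit 0x7e40235f8a) (nat_lit 858728520),
  Rx.mk (nat_lit 383) (nat_lit 7) (nat_lit 7) (nat_lit 5) (nat_lit 7) (nat_lit 83) (nat_lit 78) r1_83 r1_78 (nat_lit 0) (nat_lit 0) (nat_lit 0) (nat_lit 0x7deae81394) (nat_lit 1022151312),
  Rx.mk (nat_lit 438) (nat_lit 6) (nat_lit 6) (nat_lit 6) (nat_lit 7) (nat_lit 79) (nat_lit 84) r1_79 r1_84 (nat_lit 0) (nat_lit 0) (nat_lit 0) (nat_lit 0x7df79428c6) (nat_lit 997853688),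
  Rx.mk (nat_lit 511) (nat_lit 7) (nat_lit 7) (nat_lit 7) (nat_lit 7) (nat_lit 84) (nat_lit 79) r1_84 r1_79 (nat_lit 0) (nat_lit 0) (nat_lit 0) (nat_lit 0x7df79428c6) (nat_lit 997853688)]
noncomputable def e7_2 : List Rx := [
  Rx.mk (nat_lit 295) (nat_lit 7) (nat_lit 4) (nat_lit 4) (nat_lit 1) (nat_lit 31) (nat_lit 76) r1_31 r2_76 (nat_lit 0) (nat_lit 0) (nat_lit 0) (nat_lit 0x68c0f427fe) (nat_lit 11410512984),
  Rx.mk (nat_lit 308) (nat_lit 4) (nat_lit 6) (nat_lit 4) (nat_lit 2) (nat_lit 33) (nat_lit 75) r1_33 r2_75 (nat_lit 0) (nat_lit 0) (nat_lit 0) (nat_lit 0x70f45ca942) (nat_lit 7385115816),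
  Rx.mk (nat_lit 310) (nat_lit 6) (nat_lit 6) (nat_lit 4) (nat_lit 3) (nat_lit 34) (nat_lit 82) r1_34 r2_82 (nat_lit 0) (nat_lit 0) (nat_lit 0) (nat_lit 0x7d5dee43be) (nat_lit 1292457816),
  Rx.mk (nat_lit 311) (nat_lit 7) (nat_lit 6) (nat_lit 4) (nat_lit 3) (nat_lit 36) (nat_lit 79) r1_36 r2_79 (nat_lit 0) (nat_lit 0) (nat_lit 0) (nat_lit 0x7e35c32598) (nat_lit 878623200),
  Rx.mk (nat_lit 406) (nat_lit 6) (nat_lit 2) (nat_lit 6) (nat_lit 7) (nat_lit 30) (nat_lit 81) r1_30 r2_81 (nat_lit 0) (nat_lit 0) (nat_lit 0) (nat_lit 0x7de7ede33a) (nat_lit 1027859976),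
  Rx.mk (nat_lit 438) (nat_lit 6) (nat_lit 6) (nat_lit 6) (nat_lit 7) (nat_lit 35) (nat_lit 83) r1_35 r2_83 (nat_lit 0) (nat_lit 0) (nat_lit 0) (nat_lit 0x7dad1d3080) (nat_lit 1140632064),
  Rx.mk (nat_lit 487) (nat_lit 7) (nat_lit 4) (nat_lit 7) (nat_lit 5) (nat_lit 32) (nat_lit 77) r1_32 r2_77 (nat_lit 0) (nat_lit 0) (nat_lit 0) (nat_lit 0x7d4e539d78) (nat_lit 1322377056),
  Rx.mk (nat_lit 503) (nat_lit 7) (nat_lit 6) (nat_lit 7) (nat_lit 7) (nat_lit 37) (nat_lit 80) r1_37 r2_80 (nat_lit 0) (nat_lit 0) (nat_lit 0) (nat_lit 0x7de79fe81a) (nat_lit 1028444040),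
  Rx.mk (nat_lit 511) (nat_lit 7) (nat_lit 7) (nat_lit 7) (nat_lit 7) (nat_lit 38) (nat_lit 78) r1_38 r2_78 (nat_lit 0) (nat_lit 0) (nat_lit 0) (nat_lit 0x7dd4655bd6) (nat_lit 1065313080)]
noncomputable def e7_3 : List Rx := [
  Rx.mk (nat_lit 103) (nat_lit 7) (nat_lit 4) (nat_lit 1) (nat_lit 5) (nat_lit 66) (nat_lit 66) r1_66 r3_66 (nat_lit 0) (nat_lit 0) (nat_lit 0) (nat_lit 0x8000000000) (nat_lit 0),
  Rx.mk (nat_lit 359) (nat_lit 7) (nat_lit 4) (nat_lit 5) (nat_lit 5) (nat_lit 67) (nat_lit 67) r1_67 r3_67 (nat_lit 0) (nat_lit 0) (nat_lit 0) (nat_lit 0x7cedd90582) (nat_lit 1507365288),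
  Rx.mk (nat_lit 383) (nat_lit 7) (nat_lit 7) (nat_lit 5) (nat_lit 7) (nat_lit 68) (nat_lit 68) r1_68 r3_68 (nat_lit 0) (nat_lit 0) (nat_lit 0) (nat_lit 0x7c2bd226b2) (nat_lit 1879391592)]
noncomputable def e7_4 : List Rx := [
  Rx.mk (nat_lit 359) (nat_lit 7) (nat_lit 4) (nat_lit 5) (nat_lit 5) (nat_lit 85) (nat_lit 71) r1_85 r4_71 (nat_lit 0) (nat_lit 0) (nat_lit 0) (nat_lit 0x7de3bb066c) (nat_lit 1035910512),
  Rx.mk (nat_lit 375) (nat_lit 7) (nat_lit 6) (nat_lit 5) (nat_lit 7) (nat_lit 86) (nat_lit 73) r1_86 r4_73 (nat_lit 0) (nat_lit 0) (nat_lit 0) (nat_lit 0x7eb127ced2) (nat_lit 642029544),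
  Rx.mk (nat_lit 383) (nat_lit 7) (nat_lit 7) (nat_lit 5) (nat_lit 7) (nat_lit 87) (nat_lit 72) r1_87 r4_72 (nat_lit 0) (nat_lit 0) (nat_lit 0) (nat_lit 0x7df5700b0a) (nat_lit 1001958984)]
noncomputable def e7_5 : List Rx := [
  Rx.mk (nat_lit 24) (nat_lit 0) (nat_lit 3) (nat_lit 0) (nat_lit 2) (nat_lit 39) (nat_lit 13) r1_39 r3_13 (nat_lit 0) (nat_lit 0) (nat_lit 0) (nat_lit 0x8000000000) (nat_lit 0),
  Rx.mk (nat_lit 27) (nat_lit 3) (nat_lit 3) (nat_lit 0) (nat_lit 3) (nat_lit 43) (nat_lit 16) r1_43 r3_16 (nat_lit 0) (nat_lit 0) (nat_lit 0) (nat_lit 0x7d89c9a5dc) (nat_lit 1208366640),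
  Rx.mk (nat_lit 59) (nat_lit 3) (nat_lit 7) (nat_lit 0) (nat_lit 3) (nat_lit 46) (nat_lit 10) r1_46 r3_10 (nat_lit 0) (nat_lit 0) (nat_lit 0) (nat_lit 0x7c72d45648) (nat_lit 1743240096),
  Rx.mk (nat_lit 88) (nat_lit 0) (nat_lit 3) (nat_lit 1) (nat_lit 6) (nat_lit 40) (nat_lit 14) r1_40 r3_14 (nat_lit 0) (nat_lit 0) (nat_lit 0) (nat_lit 0x7ecc02e106) (nat_lit 590536440),
  Rx.mk (nat_lit 91) (nat_lit 3) (nat_lit 3) (nat_lit 1) (nat_lit 7) (nat_lit 44) (nat_lit 17) r1_44 r3_17 (nat_lit 0) (nat_lit 0) (nat_lit 0) (nat_lit 0x7ed104b0e4) (nat_lit 580935888),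
  Rx.mk (nat_lit 123) (nat_lit 3) (nat_lit 7) (nat_lit 1) (nat_lit 7) (nat_lit 47) (nat_lit 11) r1_47 r3_11 (nat_lit 0) (nat_lit 0) (nat_lit 0) (nat_lit 0x7f3b894830) (nat_lit 376698816),
  Rx.mk (nat_lit 152) (nat_lit 0) (nat_lit 3) (nat_lit 2) (nat_lit 6) (nat_lit 41) (nat_lit 15) r1_41 r3_15 (nat_lit 0) (nat_lit 0) (nat_lit 0) (nat_lit 0x7e2853bc9c) (nat_lit 904383792),
  Rx.mk (nat_lit 154) (nat_lit 2) (nat_lit 3) (nat_lit 2) (nat_lit 7) (nat_lit 42) (nat_lit 19) r1_42 r3_19 (nat_lit 0) (nat_lit 0) (nat_lit 0) (nat_lit 0x7efab4d5b8) (nat_lit 501003360),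
  Rx.mk (nat_lit 155) (nat_lit 3) (nat_lit 3) (nat_lit 2) (nat_lit 7) (nat_lit 45) (nat_lit 18) r1_45 r3_18 (nat_lit 0) (nat_lit 0) (nat_lit 0) (nat_lit 0x7e3f27cf44) (nat_lit 860612688),
  Rx.mk (nat_lit 251) (nat_lit 3) (nat_lit 7) (nat_lit 3) (nat_lit 7) (nat_lit 48) (nat_lit 12) r1_48 r3_12 (nat_lit 0) (nat_lit 0) (nat_lit 0) (nat_lit 0x7ee53b2d68) (nat_lit 542179872),
  Rx.mk (nat_lit 255) (nat_lit 7) (nat_lit 7) (nat_lit 3) (nat_lit 7) (nat_lit 49) (nat_lit 9) r1_49 r3_9 (nat_lit 0) (nat_lit 0) (nat_lit 0) (nat_lit 0x7e2ce9f334) (nat_lit 895589136)]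
noncomputable def e7_6 : List Rx := [
  Rx.mk (nat_lit 24) (nat_lit 0) (nat_lit 3) (nat_lit 0) (nat_lit 2) (nat_lit 2) (nat_lit 23) r1_2 r0_23 (nat_lit 0) (nat_lit 0) (nat_lit 0) (nat_lit 0x6facf0e146) (nat_lit 8012911608),
  Rx.mk (nat_lit 27) (nat_lit 3) (nat_lit 3) (nat_lit 0) (nat_lit 3) (nat_lit 5) (nat_lit 25) r1_5 r0_25 (nat_lit 0) (nat_lit 0) (nat_lit 0) (nat_lit 0x780ee6f982) (nat_lit 3898253736),
  Rx.mk (nat_lit 130) (nat_lit 2) (nat_lit 0) (nat_lit 2) (nat_lit 5) (nat_lit 0) (nat_lit 22) r1_0 r0_22 (nat_lit 0) (nat_lit 0) (nat_lit 0) (nat_lit 0x76832bf6be) (nat_lit 4657025880),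
  Rx.mk (nat_lit 146) (nat_lit 2) (nat_lit 2) (nat_lit 2) (nat_lit 7) (nat_lit 1) (nat_lit 29) r1_1 r0_29 (nat_lit 0) (nat_lit 0) (nat_lit 0) (nat_lit 0x75ecc41dd2) (nat_lit 4945413096),
  Rx.mk (nat_lit 152) (nat_lit 0) (nat_lit 3) (nat_lit 2) (nat_lit 6) (nat_lit 3) (nat_lit 24) r1_3 r0_24 (nat_lit 0) (nat_lit 0) (nat_lit 0) (nat_lit 0x78202e24fe) (nat_lit 3865124952),
  Rx.mk (nat_lit 154) (nat_lit 2) (nat_lit 3) (nat_lit 2) (nat_lit 7) (nat_lit 4) (nat_lit 28) r1_4 r0_28 (nat_lit 0) (nat_lit 0) (nat_lit 0) (nat_lit 0x7efe491c70) (nat_lit 494140608),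
  Rx.mk (nat_lit 155) (nat_lit 3) (nat_lit 3) (nat_lit 2) (nat_lit 7) (nat_lit 6) (nat_lit 27) r1_6 r0_27 (nat_lit 0) (nat_lit 0) (nat_lit 0) (nat_lit 0x7d16a418a8) (nat_lit 1429148448),
  Rx.mk (nat_lit 219) (nat_lit 3) (nat_lit 3) (nat_lit 3) (nat_lit 7) (nat_lit 7) (nat_lit 26) r1_7 r0_26 (nat_lit 0) (nat_lit 0) (nat_lit 0) (nat_lit 0x7c8a811b64) (nat_lit 1697845968),
  Rx.mk (nat_lit 251) (nat_lit 3) (nat_lit 7) (nat_lit 3) (nat_lit 7) (nat_lit 8) (nat_lit 21) r1_8 r0_21 (nat_lit 0) (nat_lit 0) (nat_lit 0) (nat_lit 0x7c9e945a1c) (nat_lit 1659353904),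
  Rx.mk (nat_lit 255) (nat_lit 7) (nat_lit 7) (nat_lit 3) (nat_lit 7) (nat_lit 9) (nat_lit 20) r1_9 r0_20 (nat_lit 0) (nat_lit 0) (nat_lit 0) (nat_lit 0x7ccb2590dc) (nat_lit 1573900848)]
noncomputable def e7_7 : List Rx := [
  Rx.mk (nat_lit 24) (nat_lit 0) (nat_lit 3) (nat_lit 0) (nat_lit 2) (nat_lit 14) (nat_lit 21) r1_14 r1_21 (nat_lit 0) (nat_lit 0) (nat_lit 0) (nat_lit 0x7511bccf22) (nat_lit 5365377576),
  Rx.mk (nat_lit 27) (nat_lit 3) (nat_lit 3) (nat_lit 0) (nat_lit 3) (nat_lit 17) (nat_lit 23) r1_17 r1_23 (nat_lit 0) (nat_lit 0) (nat_lit 0) (nat_lit 0x77664f23a8) (nat_lit 4221513504),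
  Rx.mk (nat_lit 130) (nat_lit 2) (nat_lit 0) (nat_lit 2) (nat_lit 5) (nat_lit 10) (nat_lit 20) r1_10 r1_20 (nat_lit 0) (nat_lit 0) (nat_lit 0) (nat_lit 0x712bfdeef6) (nat_lit 7278451128),
  Rx.mk (nat_lit 146) (nat_lit 2) (nat_lit 2) (nat_lit 2) (nat_lit 7) (nat_lit 11) (nat_lit 29) r1_11 r1_29 (nat_lit 0) (nat_lit 0) (nat_lit 0) (nat_lit 0x763058a446) (nat_lit 4815835128),
  Rx.mk (nat_lit 152) (nat_lit 0) (nat_lit 3) (nat_lit 2) (nat_lit 6) (nat_lit 15) (nat_lit 22) r1_15 r1_22 (nat_lit 0) (nat_lit 0) (nat_lit 0) (nat_lit 0x7413b350b8) (nat_lit 5852467296),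
  Rx.mk (nat_lit 154) (nat_lit 2) (nat_lit 3) (nat_lit 2) (nat_lit 7) (nat_lit 16) (nat_lit 26) r1_16 r1_26 (nat_lit 0) (nat_lit 0) (nat_lit 0) (nat_lit 0x7f02b315cc) (nat_lit 485677296),
  Rx.mk (nat_lit 155) (nat_lit 3) (nat_lit 3) (nat_lit 2) (nat_lit 7) (nat_lit 18) (nat_lit 25) r1_18 r1_25 (nat_lit 0) (nat_lit 0) (nat_lit 0) (nat_lit 0x7cb7724c24) (nat_lit 1611674064),
  Rx.mk (nat_lit 219) (nat_lit 3) (nat_lit 3) (nat_lit 3) (nat_lit 7) (nat_lit 19) (nat_lit 24) r1_19 r1_24 (nat_lit 0) (nat_lit 0) (nat_lit 0) (nat_lit 0x7be9926af0) (nat_lit 2006417088),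
  Rx.mk (nat_lit 251) (nat_lit 3) (nat_lit 7) (nat_lit 3) (nat_lit 7) (nat_lit 27) (nat_lit 13) r1_27 r1_13 (nat_lit 0) (nat_lit 0) (nat_lit 0) (nat_lit 0x7e13742aaa) (nat_lit 944406216),
  Rx.mk (nat_lit 255) (nat_lit 7) (nat_lit 7) (nat_lit 3) (nat_lit 7) (nat_lit 28) (nat_lit 12) r1_28 r1_12 (nat_lit 0) (nat_lit 0) (nat_lit 0) (nat_lit 0x7c9dd0a658) (nat_lit 1660819680),
  Rx.mk (nat_lit 308) (nat_lit 4) (nat_lit 6) (nat_lit 4) (nat_lit 2) (nat_lit 21) (nat_lit 14) r1_21 r1_14 (nat_lit 0) (nat_lit 0) (nat_lit 0) (nat_lit 0x7511bccf22) (nat_lit 5365377576),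
  Rx.mk (nat_lit 310) (nat_lit 6) (nat_lit 6) (nat_lit 4) (nat_lit 3) (nat_lit 23) (nat_lit 17) r1_23 r1_17 (nat_lit 0) (nat_lit 0) (nat_lit 0) (nat_lit 0x77664f23a8) (nat_lit 4221513504),
  Rx.mk (nat_lit 402) (nat_lit 2) (nat_lit 2) (nat_lit 6) (nat_lit 7) (nat_lit 12) (nat_lit 28) r1_12 r1_28 (nat_lit 0) (nat_lit 0) (nat_lit 0) (nat_lit 0x7c9dd0a658) (nat_lit 1660819680),
  Rx.mk (nat_lit 406) (nat_lit 6) (nat_lit 2) (nat_lit 6) (nat_lit 7) (nat_lit 13) (nat_lit 27) r1_13 r1_27 (nat_lit 0) (nat_lit 0) (nat_lit 0) (nat_lit 0x7e13742aaa) (nat_lit 944406216),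
  Rx.mk (nat_lit 438) (nat_lit 6) (nat_lit 6) (nat_lit 6) (nat_lit 7) (nat_lit 24) (nat_lit 19) r1_24 r1_19 (nat_lit 0) (nat_lit 0) (nat_lit 0) (nat_lit 0x7be9926af0) (nat_lit 2006417088),
  Rx.mk (nat_lit 487) (nat_lit 7) (nat_lit 4) (nat_lit 7) (nat_lit 5) (nat_lit 20) (nat_lit 10) r1_20 r1_10 (nat_lit 0) (nat_lit 0) (nat_lit 0) (nat_lit 0x712bfdeef6) (nat_lit 7278451128),
  Rx.mk (nat_lit 500) (nat_lit 4) (nat_lit 6) (nat_lit 7) (nat_lit 6) (nat_lit 22) (nat_lit 15) r1_22 r1_15 (nat_lit 0) (nat_lit 0) (nat_lit 0) (nat_lit 0x7413b350b8) (nat_lit 5852467296),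
  Rx.mk (nat_lit 502) (nat_lit 6) (nat_lit 6) (nat_lit 7) (nat_lit 7) (nat_lit 25) (nat_lit 18) r1_25 r1_18 (nat_lit 0) (nat_lit 0) (nat_lit 0) (nat_lit 0x7cb7724c24) (nat_lit 1611674064),
  Rx.mk (nat_lit 503) (nat_lit 7) (nat_lit 6) (nat_lit 7) (nat_lit 7) (nat_lit 26) (nat_lit 16) r1_26 r1_16 (nat_lit 0) (nat_lit 0) (nat_lit 0) (nat_lit 0x7f02b315cc) (nat_lit 485677296),
  Rx.mk (nat_lit 511) (nat_lit 7) (nat_lit 7) (nat_lit 7) (nat_lit 7) (nat_lit 29) (nat_lit 11) r1_29 r1_11 (nat_lit 0) (nat_lit 0) (nat_lit 0) (nat_lit 0x763058a446) (nat_lit 4815835128)]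
noncomputable def e7_8 : List Rx := [
  Rx.mk (nat_lit 24) (nat_lit 0) (nat_lit 3) (nat_lit 0) (nat_lit 2) (nat_lit 50) (nat_lit 16) r1_50 r4_16 (nat_lit 0) (nat_lit 0) (nat_lit 0) (nat_lit 0x6d02538dc6) (nat_lit 9321754104),
  Rx.mk (nat_lit 27) (nat_lit 3) (nat_lit 3) (nat_lit 0) (nat_lit 3) (nat_lit 53) (nat_lit 18) r1_53 r4_18 (nat_lit 0) (nat_lit 0) (nat_lit 0) (nat_lit 0x7dd783e9ea) (nat_lit 1059332040),
  Rx.mk (nat_lit 59) (nat_lit 3) (nat_lit 7) (nat_lit 0) (nat_lit 3) (nat_lit 55) (nat_lit 14) r1_55 r4_14 (nat_lit 0) (nat_lit 0) (nat_lit 0) (nat_lit 0x7cf02600b0) (nat_lit 1502953920),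
  Rx.mk (nat_lit 152) (nat_lit 0) (nat_lit 3) (nat_lit 2) (nat_lit 6) (nat_lit 51) (nat_lit 17) r1_51 r4_17 (nat_lit 0) (nat_lit 0) (nat_lit 0) (nat_lit 0x7e22f55288) (nat_lit 914677920),
  Rx.mk (nat_lit 154) (nat_lit 2) (nat_lit 3) (nat_lit 2) (nat_lit 7) (nat_lit 52) (nat_lit 20) r1_52 r4_20 (nat_lit 0) (nat_lit 0) (nat_lit 0) (nat_lit 0x7eccb0762c) (nat_lit 589236336),
  Rx.mk (nat_lit 155) (nat_lit 3) (nat_lit 3) (nat_lit 2) (nat_lit 7) (nat_lit 54) (nat_lit 19) r1_54 r4_19 (nat_lit 0) (nat_lit 0) (nat_lit 0) (nat_lit 0x7e01526cd8) (nat_lit 979172064),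
  Rx.mk (nat_lit 251) (nat_lit 3) (nat_lit 7) (nat_lit 3) (nat_lit 7) (nat_lit 56) (nat_lit 15) r1_56 r4_15 (nat_lit 0) (nat_lit 0) (nat_lit 0) (nat_lit 0x7e11b186d6) (nat_lit 947781432),
  Rx.mk (nat_lit 255) (nat_lit 7) (nat_lit 7) (nat_lit 3) (nat_lit 7) (nat_lit 57) (nat_lit 13) r1_57 r4_13 (nat_lit 0) (nat_lit 0) (nat_lit 0) (nat_lit 0x7df4fbd24e) (nat_lit 1002829464)]
noncomputable def e7_9 : List Rx := [
  Rx.mk (nat_lit 103) (nat_lit 7) (nat_lit 4) (nat_lit 1) (nat_lit 5) (nat_lit 88) (nat_lit 57) r1_88 r5_57 (nat_lit 0) (nat_lit 0) (nat_lit 0) (nat_lit 0x7e6bb54640) (nat_lit 775187712),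
  Rx.mk (nat_lit 123) (nat_lit 3) (nat_lit 7) (nat_lit 1) (nat_lit 7) (nat_lit 89) (nat_lit 56) r1_89 r5_56 (nat_lit 0) (nat_lit 0) (nat_lit 0) (nat_lit 0x7f31e242aa) (nat_lit 395206344),
  Rx.mk (nat_lit 127) (nat_lit 7) (nat_lit 7) (nat_lit 1) (nat_lit 7) (nat_lit 90) (nat_lit 58) r1_90 r5_58 (nat_lit 0) (nat_lit 0) (nat_lit 0) (nat_lit 0x7e406c7af8) (nat_lit 858180960)]
noncomputable def e7_10 : List Rx := [
  Rx.mk (nat_lit 100) (nat_lit 4) (nat_lit 4) (nat_lit 1) (nat_lit 4) (nat_lit 179) (nat_lit 269) r1_179 r0_269 (nat_lit 0) (nat_lit 0) (nat_lit 0) (nat_lit 0x7fe711eefa) (nat_lit 47800584),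
  Rx.mk (nat_lit 101) (nat_lit 5) (nat_lit 4) (nat_lit 1) (nat_lit 5) (nat_lit 181) (nat_lit 270) r1_181 r0_270 (nat_lit 0) (nat_lit 0) (nat_lit 0) (nat_lit 0x7a861a03da) (nat_lit 2687994504),
  Rx.mk (nat_lit 356) (nat_lit 4) (nat_lit 4) (nat_lit 5) (nat_lit 4) (nat_lit 180) (nat_lit 265) r1_180 r0_265 (nat_lit 0) (nat_lit 0) (nat_lit 0) (nat_lit 0x5c4ea51962) (nat_lit 17519929128),
  Rx.mk (nat_lit 357) (nat_lit 5) (nat_lit 4) (nat_lit 5) (nat_lit 5) (nat_lit 182) (nat_lit 266) r1_182 r0_266 (nat_lit 0) (nat_lit 0) (nat_lit 0) (nat_lit 0x77997950d2) (nat_lit 4123410408),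
  Rx.mk (nat_lit 359) (nat_lit 7) (nat_lit 4) (nat_lit 5) (nat_lit 5) (nat_lit 183) (nat_lit 267) r1_183 r0_267 (nat_lit 0) (nat_lit 0) (nat_lit 0) (nat_lit 0x7389907370) (nat_lit 6117329088),
  Rx.mk (nat_lit 383) (nat_lit 7) (nat_lit 7) (nat_lit 5) (nat_lit 7) (nat_lit 184) (nat_lit 268) r1_184 r0_268 (nat_lit 0) (nat_lit 0) (nat_lit 0) (nat_lit 0x6ddb0661c0) (nat_lit 8906257152)]
noncomputable def e7_11 : List Rx := [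
  Rx.mk (nat_lit 356) (nat_lit 4) (nat_lit 4) (nat_lit 5) (nat_lit 4) (nat_lit 192) (nat_lit 64) r1_192 r6_64 (nat_lit 0) (nat_lit 0) (nat_lit 0) (nat_lit 0x722130dad2) (nat_lit 6808307688),
  Rx.mk (nat_lit 357) (nat_lit 5) (nat_lit 4) (nat_lit 5) (nat_lit 5) (nat_lit 193) (nat_lit 66) r1_193 r6_66 (nat_lit 0) (nat_lit 0) (nat_lit 0) (nat_lit 0x7d814b2dcc) (nat_lit 1224653040),
  Rx.mk (nat_lit 359) (nat_lit 7) (nat_lit 4) (nat_lit 5) (nat_lit 5) (nat_lit 194) (nat_lit 68) r1_194 r6_68 (nat_lit 0) (nat_lit 0) (nat_lit 0) (nat_lit 0x7dcda1a818) (nat_lit 1078283232),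
  Rx.mk (nat_lit 372) (nat_lit 4) (nat_lit 6) (nat_lit 5) (nat_lit 6) (nat_lit 195) (nat_lit 65) r1_195 r6_65 (nat_lit 0) (nat_lit 0) (nat_lit 0) (nat_lit 0x7d8beb23c2) (nat_lit 1204281000),
  Rx.mk (nat_lit 373) (nat_lit 5) (nat_lit 6) (nat_lit 5) (nat_lit 7) (nat_lit 196) (nat_lit 67) r1_196 r6_67 (nat_lit 0) (nat_lit 0) (nat_lit 0) (nat_lit 0x7df3680b8c) (nat_lit 1005853680),
  Rx.mk (nat_lit 375) (nat_lit 7) (nat_lit 6) (nat_lit 5) (nat_lit 7) (nat_lit 197) (nat_lit 70) r1_197 r6_70 (nat_lit 0) (nat_lit 0) (nat_lit 0) (nat_lit 0x7dd2126108) (nat_lit 1069769376),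
  Rx.mk (nat_lit 383) (nat_lit 7) (nat_lit 7) (nat_lit 5) (nat_lit 7) (nat_lit 198) (nat_lit 69) r1_198 r6_69 (nat_lit 0) (nat_lit 0) (nat_lit 0) (nat_lit 0x7d43cb4608) (nat_lit 1342572192)]
noncomputable def e7_12 : List Rx := [
  Rx.mk (nat_lit 101) (nat_lit 5) (nat_lit 4) (nat_lit 1) (nat_lit 5) (nat_lit 185) (nat_lit 273) r1_185 r1_273 (nat_lit 0) (nat_lit 0) (nat_lit 0) (nat_lit 0x7db8bf7650) (nat_lit 1118325312),
  Rx.mk (nat_lit 357) (nat_lit 5) (nat_lit 4) (nat_lit 5) (nat_lit 5) (nat_lit 186) (nat_lit 272) r1_186 r1_272 (nat_lit 0) (nat_lit 0) (nat_lit 0) (nat_lit 0x7dbb600c44) (nat_lit 1113287760)]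
noncomputable def e7_13 : List Rx := [
  Rx.mk (nat_lit 357) (nat_lit 5) (nat_lit 4) (nat_lit 5) (nat_lit 5) (nat_lit 199) (nat_lit 66) r1_199 r7_66 (nat_lit 0) (nat_lit 0) (nat_lit 0) (nat_lit 0x7d80f19366) (nat_lit 1225324152),
  Rx.mk (nat_lit 373) (nat_lit 5) (nat_lit 6) (nat_lit 5) (nat_lit 7) (nat_lit 200) (nat_lit 67) r1_200 r7_67 (nat_lit 0) (nat_lit 0) (nat_lit 0) (nat_lit 0x7df471daee) (nat_lit 1003862808)]
noncomputable def e7_14 : List Rx := [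
  Rx.mk (nat_lit 292) (nat_lit 4) (nat_lit 4) (nat_lit 4) (nat_lit 0) (nat_lit 201) (nat_lit 283) r1_201 r7_283 (nat_lit 0) (nat_lit 0) (nat_lit 0) (nat_lit 0x34358c330c) (nat_lit 37202186736),
  Rx.mk (nat_lit 295) (nat_lit 7) (nat_lit 4) (nat_lit 4) (nat_lit 1) (nat_lit 204) (nat_lit 284) r1_204 r7_284 (nat_lit 0) (nat_lit 0) (nat_lit 0) (nat_lit 0x689c4c929c) (nat_lit 11480794416),
  Rx.mk (nat_lit 308) (nat_lit 4) (nat_lit 6) (nat_lit 4) (nat_lit 2) (nat_lit 206) (nat_lit 286) r1_206 r7_286 (nat_lit 0) (nat_lit 0) (nat_lit 0) (nat_lit 0x6ddf3cfe52) (nat_lit 8898178536),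
  Rx.mk (nat_lit 310) (nat_lit 6) (nat_lit 6) (nat_lit 4) (nat_lit 3) (nat_lit 209) (nat_lit 288) r1_209 r7_288 (nat_lit 0) (nat_lit 0) (nat_lit 0) (nat_lit 0x7de4743ad8) (nat_lit 1034523360),
  Rx.mk (nat_lit 311) (nat_lit 7) (nat_lit 6) (nat_lit 4) (nat_lit 3) (nat_lit 212) (nat_lit 287) r1_212 r7_287 (nat_lit 0) (nat_lit 0) (nat_lit 0) (nat_lit 0x7db4c29622) (nat_lit 1125971496),
  Rx.mk (nat_lit 319) (nat_lit 7) (nat_lit 7) (nat_lit 4) (nat_lit 3) (nat_lit 214) (nat_lit 285) r1_214 r7_285 (nat_lit 0) (nat_lit 0) (nat_lit 0) (nat_lit 0x5d3c3f5ed0) (nat_lit 17064350784),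
  Rx.mk (nat_lit 356) (nat_lit 4) (nat_lit 4) (nat_lit 5) (nat_lit 4) (nat_lit 202) (nat_lit 289) r1_202 r7_289 (nat_lit 0) (nat_lit 0) (nat_lit 0) (nat_lit 0x694567a042) (nat_lit 11156551848),
  Rx.mk (nat_lit 357) (nat_lit 5) (nat_lit 4) (nat_lit 5) (nat_lit 5) (nat_lit 203) (nat_lit 290) r1_203 r7_290 (nat_lit 0) (nat_lit 0) (nat_lit 0) (nat_lit 0x7d333feece) (nat_lit 1374294168),
  Rx.mk (nat_lit 359) (nat_lit 7) (nat_lit 4) (nat_lit 5) (nat_lit 5) (nat_lit 205) (nat_lit 291) r1_205 r7_291 (nat_lit 0) (nat_lit 0) (nat_lit 0) (nat_lit 0x7d4016c154) (nat_lit 1349676432),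
  Rx.mk (nat_lit 372) (nat_lit 4) (nat_lit 6) (nat_lit 5) (nat_lit 6) (nat_lit 207) (nat_lit 293) r1_207 r7_293 (nat_lit 0) (nat_lit 0) (nat_lit 0) (nat_lit 0x7c8fc726fe) (nat_lit 1687734360),
  Rx.mk (nat_lit 373) (nat_lit 5) (nat_lit 6) (nat_lit 5) (nat_lit 7) (nat_lit 208) (nat_lit 294) r1_208 r7_294 (nat_lit 0) (nat_lit 0) (nat_lit 0) (nat_lit 0x7db7bde66a) (nat_lit 1120254408),
  Rx.mk (nat_lit 374) (nat_lit 6) (nat_lit 6) (nat_lit 5) (nat_lit 7) (nat_lit 210) (nat_lit 296) r1_210 r7_296 (nat_lit 0) (nat_lit 0) (nat_lit 0) (nat_lit 0x7dd2f1d310) (nat_lit 1068095808),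
  Rx.mk (nat_lit 375) (nat_lit 7) (nat_lit 6) (nat_lit 5) (nat_lit 7) (nat_lit 213) (nat_lit 295) r1_213 r7_295 (nat_lit 0) (nat_lit 0) (nat_lit 0) (nat_lit 0x7db90e3164) (nat_lit 1117735632),
  Rx.mk (nat_lit 383) (nat_lit 7) (nat_lit 7) (nat_lit 5) (nat_lit 7) (nat_lit 215) (nat_lit 292) r1_215 r7_292 (nat_lit 0) (nat_lit 0) (nat_lit 0) (nat_lit 0x7c3cb238a0) (nat_lit 1847035008),
  Rx.mk (nat_lit 438) (nat_lit 6) (nat_lit 6) (nat_lit 6) (nat_lit 7) (nat_lit 211) (nat_lit 298) r1_211 r7_298 (nat_lit 0) (nat_lit 0) (nat_lit 0) (nat_lit 0x7deaa7f796) (nat_lit 1022631480),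
  Rx.mk (nat_lit 511) (nat_lit 7) (nat_lit 7) (nat_lit 7) (nat_lit 7) (nat_lit 216) (nat_lit 297) r1_216 r7_297 (nat_lit 0) (nat_lit 0) (nat_lit 0) (nat_lit 0x78ed89ae78) (nat_lit 3471373152)]
noncomputable def e7_15 : List Rx := [
  Rx.mk (nat_lit 292) (nat_lit 4) (nat_lit 4) (nat_lit 4) (nat_lit 0) (nat_lit 170) (nat_lit 40) r1_170 r8_40 (nat_lit 0) (nat_lit 0) (nat_lit 0) (nat_lit 0x26a0315650) (nat_lit 43869653568),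
  Rx.mk (nat_lit 295) (nat_lit 7) (nat_lit 4) (nat_lit 4) (nat_lit 1) (nat_lit 171) (nat_lit 42) r1_171 r8_42 (nat_lit 0) (nat_lit 0) (nat_lit 0) (nat_lit 0x6aa9b3da1a) (nat_lit 10473387912),
  Rx.mk (nat_lit 308) (nat_lit 4) (nat_lit 6) (nat_lit 4) (nat_lit 2) (nat_lit 173) (nat_lit 41) r1_173 r8_41 (nat_lit 0) (nat_lit 0) (nat_lit 0) (nat_lit 0x67ac0677ee) (nat_lit 11941494552),
  Rx.mk (nat_lit 310) (nat_lit 6) (nat_lit 6) (nat_lit 4) (nat_lit 3) (nat_lit 174) (nat_lit 48) r1_174 r8_48 (nat_lit 0) (nat_lit 0) (nat_lit 0) (nat_lit 0x7d65dd24c8) (nat_lit 1277246880),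
  Rx.mk (nat_lit 311) (nat_lit 7) (nat_lit 6) (nat_lit 4) (nat_lit 3) (nat_lit 176) (nat_lit 45) r1_176 r8_45 (nat_lit 0) (nat_lit 0) (nat_lit 0) (nat_lit 0x7dc7b886b0) (nat_lit 1089616320),
  Rx.mk (nat_lit 406) (nat_lit 6) (nat_lit 2) (nat_lit 6) (nat_lit 7) (nat_lit 169) (nat_lit 47) r1_169 r8_47 (nat_lit 0) (nat_lit 0) (nat_lit 0) (nat_lit 0x7df3ef031c) (nat_lit 1004842800),
  Rx.mk (nat_lit 438) (nat_lit 6) (nat_lit 6) (nat_lit 6) (nat_lit 7) (nat_lit 175) (nat_lit 49) r1_175 r8_49 (nat_lit 0) (nat_lit 0) (nat_lit 0) (nat_lit 0x7dbc1ee056) (nat_lit 1111858488),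
  Rx.mk (nat_lit 487) (nat_lit 7) (nat_lit 4) (nat_lit 7) (nat_lit 5) (nat_lit 172) (nat_lit 43) r1_172 r8_43 (nat_lit 0) (nat_lit 0) (nat_lit 0) (nat_lit 0x7ccbdaa58a) (nat_lit 1572544584),
  Rx.mk (nat_lit 503) (nat_lit 7) (nat_lit 6) (nat_lit 7) (nat_lit 7) (nat_lit 177) (nat_lit 46) r1_177 r8_46 (nat_lit 0) (nat_lit 0) (nat_lit 0) (nat_lit 0x7de6d574c2) (nat_lit 1029960360),
  Rx.mk (nat_lit 511) (nat_lit 7) (nat_lit 7) (nat_lit 7) (nat_lit 7) (nat_lit 178) (nat_lit 44) r1_178 r8_44 (nat_lit 0) (nat_lit 0) (nat_lit 0) (nat_lit 0x7d9c4f7d6c) (nat_lit 1172851056)]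
noncomputable def e7_16 : List Rx := [
  Rx.mk (nat_lit 100) (nat_lit 4) (nat_lit 4) (nat_lit 1) (nat_lit 4) (nat_lit 187) (nat_lit 281) r1_187 r4_281 (nat_lit 0) (nat_lit 0) (nat_lit 0) (nat_lit 0x680620b5f0) (nat_lit 11768732352),
  Rx.mk (nat_lit 101) (nat_lit 5) (nat_lit 4) (nat_lit 1) (nat_lit 5) (nat_lit 188) (nat_lit 282) r1_188 r4_282 (nat_lit 0) (nat_lit 0) (nat_lit 0) (nat_lit 0x7cc75d8d60) (nat_lit 1581151104),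
  Rx.mk (nat_lit 103) (nat_lit 7) (nat_lit 4) (nat_lit 1) (nat_lit 5) (nat_lit 189) (nat_lit 283) r1_189 r4_283 (nat_lit 0) (nat_lit 0) (nat_lit 0) (nat_lit 0x79612a93f6) (nat_lit 3249667512),
  Rx.mk (nat_lit 359) (nat_lit 7) (nat_lit 4) (nat_lit 5) (nat_lit 5) (nat_lit 190) (nat_lit 279) r1_190 r4_279 (nat_lit 0) (nat_lit 0) (nat_lit 0) (nat_lit 0x7deba2c7e8) (nat_lit 1020752928),
  Rx.mk (nat_lit 383) (nat_lit 7) (nat_lit 7) (nat_lit 5) (nat_lit 7) (nat_lit 191) (nat_lit 280) r1_191 r4_280 (nat_lit 0) (nat_lit 0) (nat_lit 0) (nat_lit 0x7965ed07ca) (nat_lit 3240541512)]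
noncomputable def e7_17 : List Rx := [
  Rx.mk (nat_lit 359) (nat_lit 7) (nat_lit 4) (nat_lit 5) (nat_lit 5) (nat_lit 217) (nat_lit 49) r1_217 r9_49 (nat_lit 0) (nat_lit 0) (nat_lit 0) (nat_lit 0x7c9f940a20) (nat_lit 1657438848),
  Rx.mk (nat_lit 375) (nat_lit 7) (nat_lit 6) (nat_lit 5) (nat_lit 7) (nat_lit 218) (nat_lit 51) r1_218 r9_51 (nat_lit 0) (nat_lit 0) (nat_lit 0) (nat_lit 0x7de940ce0a) (nat_lit 1025321544),
  Rx.mk (nat_lit 383) (nat_lit 7) (nat_lit 7) (nat_lit 5) (nat_lit 7) (nat_lit 219) (nat_lit 50) r1_219 r9_50 (nat_lit 0) (nat_lit 0) (nat_lit 0) (nat_lit 0x7e4c769a4a) (nat_lit 835096392)]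
noncomputable def e7_18 : List Rx := [
  Rx.mk (nat_lit 100) (nat_lit 4) (nat_lit 4) (nat_lit 1) (nat_lit 4) (nat_lit 220) (nat_lit 41) r1_220 r10_41 (nat_lit 0) (nat_lit 0) (nat_lit 0) (nat_lit 0x6745aa3e18) (nat_lit 12137759712),
  Rx.mk (nat_lit 101) (nat_lit 5) (nat_lit 4) (nat_lit 1) (nat_lit 5) (nat_lit 221) (nat_lit 42) r1_221 r10_42 (nat_lit 0) (nat_lit 0) (nat_lit 0) (nat_lit 0x7dd2d19514) (nat_lit 1068337296),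
  Rx.mk (nat_lit 103) (nat_lit 7) (nat_lit 4) (nat_lit 1) (nat_lit 5) (nat_lit 222) (nat_lit 43) r1_222 r10_43 (nat_lit 0) (nat_lit 0) (nat_lit 0) (nat_lit 0x7dc1f662d8) (nat_lit 1100657376),
  Rx.mk (nat_lit 127) (nat_lit 7) (nat_lit 7) (nat_lit 1) (nat_lit 7) (nat_lit 223) (nat_lit 44) r1_223 r10_44 (nat_lit 0) (nat_lit 0) (nat_lit 0) (nat_lit 0x7e5b3e8dbc) (nat_lit 806755248),
  Rx.mk (nat_lit 383) (nat_lit 7) (nat_lit 7) (nat_lit 5) (nat_lit 7) (nat_lit 224) (nat_lit 45) r1_224 r10_45 (nat_lit 0) (nat_lit 0) (nat_lit 0) (nat_lit 0x7de11ef030) (nat_lit 1040914368)]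
noncomputable def e7_19 : List Rx := [
  Rx.mk (nat_lit 406) (nat_lit 6) (nat_lit 2) (nat_lit 6) (nat_lit 7) (nat_lit 153) (nat_lit 1) r1_153 r8_1 (nat_lit 0) (nat_lit 0) (nat_lit 0) (nat_lit 0x7de94bad5c) (nat_lit 1025240112)]
noncomputable def e7_20 : List Rx := [
  Rx.mk (nat_lit 0) (nat_lit 0) (nat_lit 0) (nat_lit 0) (nat_lit 0) (nat_lit 94) (nat_lit 111) r1_94 r0_111 (nat_lit 0) (nat_lit 0) (nat_lit 0) (nat_lit 0x7fc651db1c) (nat_lit 110595888),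
  Rx.mk (nat_lit 24) (nat_lit 0) (nat_lit 3) (nat_lit 0) (nat_lit 2) (nat_lit 99) (nat_lit 112) r1_99 r0_112 (nat_lit 0) (nat_lit 0) (nat_lit 0) (nat_lit 0x6fba2ced78) (nat_lit 7987535712),
  Rx.mk (nat_lit 27) (nat_lit 3) (nat_lit 3) (nat_lit 0) (nat_lit 3) (nat_lit 103) (nat_lit 113) r1_103 r0_113 (nat_lit 0) (nat_lit 0) (nat_lit 0) (nat_lit 0x6f612c3ddc) (nat_lit 8158189104),
  Rx.mk (nat_lit 64) (nat_lit 0) (nat_lit 0) (nat_lit 1) (nat_lit 4) (nat_lit 95) (nat_lit 114) r1_95 r0_114 (nat_lit 0) (nat_lit 0) (nat_lit 0) (nat_lit 0x7c02729cd4) (nat_lit 1958720400),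
  Rx.mk (nat_lit 88) (nat_lit 0) (nat_lit 3) (nat_lit 1) (nat_lit 6) (nat_lit 100) (nat_lit 115) r1_100 r0_115 (nat_lit 0) (nat_lit 0) (nat_lit 0) (nat_lit 0x7d6029a006) (nat_lit 1288178424),
  Rx.mk (nat_lit 91) (nat_lit 3) (nat_lit 3) (nat_lit 1) (nat_lit 7) (nat_lit 104) (nat_lit 116) r1_104 r0_116 (nat_lit 0) (nat_lit 0) (nat_lit 0) (nat_lit 0x7daa421e34) (nat_lit 1146107664),
  Rx.mk (nat_lit 128) (nat_lit 0) (nat_lit 0) (nat_lit 2) (nat_lit 4) (nat_lit 96) (nat_lit 118) r1_96 r0_118 (nat_lit 0) (nat_lit 0) (nat_lit 0) (nat_lit 0x76fc4b844c) (nat_lit 4424784624),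
  Rx.mk (nat_lit 130) (nat_lit 2) (nat_lit 0) (nat_lit 2) (nat_lit 5) (nat_lit 97) (nat_lit 121) r1_97 r0_121 (nat_lit 0) (nat_lit 0) (nat_lit 0) (nat_lit 0x7d51e2a484) (nat_lit 1315553616),
  Rx.mk (nat_lit 146) (nat_lit 2) (nat_lit 2) (nat_lit 2) (nat_lit 7) (nat_lit 98) (nat_lit 123) r1_98 r0_123 (nat_lit 0) (nat_lit 0) (nat_lit 0) (nat_lit 0x7dd1bc8666) (nat_lit 1070412408),
  Rx.mk (nat_lit 152) (nat_lit 0) (nat_lit 3) (nat_lit 2) (nat_lit 6) (nat_lit 101) (nat_lit 119) r1_101 r0_119 (nat_lit 0) (nat_lit 0) (nat_lit 0) (nat_lit 0x7ddf4a4d7c) (nat_lit 1044424368),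
  Rx.mk (nat_lit 154) (nat_lit 2) (nat_lit 3) (nat_lit 2) (nat_lit 7) (nat_lit 102) (nat_lit 122) r1_102 r0_122 (nat_lit 0) (nat_lit 0) (nat_lit 0) (nat_lit 0x7df6bc3646) (nat_lit 999471096),
  Rx.mk (nat_lit 155) (nat_lit 3) (nat_lit 3) (nat_lit 2) (nat_lit 7) (nat_lit 105) (nat_lit 120) r1_105 r0_120 (nat_lit 0) (nat_lit 0) (nat_lit 0) (nat_lit 0x7dd7b446e4) (nat_lit 1058969808),
  Rx.mk (nat_lit 219) (nat_lit 3) (nat_lit 3) (nat_lit 3) (nat_lit 7) (nat_lit 106) (nat_lit 117) r1_106 r0_117 (nat_lit 0) (nat_lit 0) (nat_lit 0) (nat_lit 0x7d94a957d6) (nat_lit 1187517240)]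
noncomputable def e7_21 : List Rx := [
  Rx.mk (nat_lit 0) (nat_lit 0) (nat_lit 0) (nat_lit 0) (nat_lit 0) (nat_lit 117) (nat_lit 117) r1_117 r1_117 (nat_lit 0) (nat_lit 0) (nat_lit 0) (nat_lit 0x7c410b530a) (nat_lit 1838698056),
  Rx.mk (nat_lit 8) (nat_lit 0) (nat_lit 1) (nat_lit 0) (nat_lit 2) (nat_lit 121) (nat_lit 118) r1_121 r1_118 (nat_lit 0) (nat_lit 0) (nat_lit 0) (nat_lit 0x7ce0ba377c) (nat_lit 1532522160),
  Rx.mk (nat_lit 24) (nat_lit 0) (nat_lit 3) (nat_lit 0) (nat_lit 2) (nat_lit 126) (nat_lit 119) r1_126 r1_119 (nat_lit 0) (nat_lit 0) (nat_lit 0) (nat_lit 0x7ca72d7082) (nat_lit 1642868136),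
  Rx.mk (nat_lit 27) (nat_lit 3) (nat_lit 3) (nat_lit 0) (nat_lit 3) (nat_lit 128) (nat_lit 120) r1_128 r1_120 (nat_lit 0) (nat_lit 0) (nat_lit 0) (nat_lit 0x7d10ae380c) (nat_lit 1440577008),
  Rx.mk (nat_lit 64) (nat_lit 0) (nat_lit 0) (nat_lit 1) (nat_lit 4) (nat_lit 118) (nat_lit 121) r1_118 r1_121 (nat_lit 0) (nat_lit 0) (nat_lit 0) (nat_lit 0x7ce0ba377c) (nat_lit 1532522160),
  Rx.mk (nat_lit 72) (nat_lit 0) (nat_lit 1) (nat_lit 1) (nat_lit 6) (nat_lit 122) (nat_lit 122) r1_122 r1_122 (nat_lit 0) (nat_lit 0) (nat_lit 0) (nat_lit 0x7de869fb78) (nat_lit 1026930528),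
  Rx.mk (nat_lit 88) (nat_lit 0) (nat_lit 3) (nat_lit 1) (nat_lit 6) (nat_lit 127) (nat_lit 123) r1_127 r1_123 (nat_lit 0) (nat_lit 0) (nat_lit 0) (nat_lit 0x7dead0d508) (nat_lit 1022325408),
  Rx.mk (nat_lit 91) (nat_lit 3) (nat_lit 3) (nat_lit 1) (nat_lit 7) (nat_lit 129) (nat_lit 124) r1_129 r1_124 (nat_lit 0) (nat_lit 0) (nat_lit 0) (nat_lit 0x7de5b9a680) (nat_lit 1032086016),
  Rx.mk (nat_lit 128) (nat_lit 0) (nat_lit 0) (nat_lit 2) (nat_lit 4) (nat_lit 119) (nat_lit 126) r1_119 r1_126 (nat_lit 0) (nat_lit 0) (nat_lit 0) (nat_lit 0x7ca72d7082) (nat_lit 1642868136),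
  Rx.mk (nat_lit 130) (nat_lit 2) (nat_lit 0) (nat_lit 2) (nat_lit 5) (nat_lit 120) (nat_lit 128) r1_120 r1_128 (nat_lit 0) (nat_lit 0) (nat_lit 0) (nat_lit 0x7d10ae380c) (nat_lit 1440577008),
  Rx.mk (nat_lit 136) (nat_lit 0) (nat_lit 1) (nat_lit 2) (nat_lit 6) (nat_lit 123) (nat_lit 127) r1_123 r1_127 (nat_lit 0) (nat_lit 0) (nat_lit 0) (nat_lit 0x7dead0d508) (nat_lit 1022325408),
  Rx.mk (nat_lit 138) (nat_lit 2) (nat_lit 1) (nat_lit 2) (nat_lit 7) (nat_lit 124) (nat_lit 129) r1_124 r1_129 (nat_lit 0) (nat_lit 0) (nat_lit 0) (nat_lit 0x7de5b9a680) (nat_lit 1032086016),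
  Rx.mk (nat_lit 146) (nat_lit 2) (nat_lit 2) (nat_lit 2) (nat_lit 7) (nat_lit 125) (nat_lit 130) r1_125 r1_130 (nat_lit 0) (nat_lit 0) (nat_lit 0) (nat_lit 0x7de650bd0e) (nat_lit 1030954392),
  Rx.mk (nat_lit 219) (nat_lit 3) (nat_lit 3) (nat_lit 3) (nat_lit 7) (nat_lit 130) (nat_lit 125) r1_130 r1_125 (nat_lit 0) (nat_lit 0) (nat_lit 0) (nat_lit 0x7de650bd0e) (nat_lit 1030954392)]
noncomputable def e7_22 : List Rx := [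
  Rx.mk (nat_lit 24) (nat_lit 0) (nat_lit 3) (nat_lit 0) (nat_lit 2) (nat_lit 154) (nat_lit 107) r1_154 r4_107 (nat_lit 0) (nat_lit 0) (nat_lit 0) (nat_lit 0x74634ad6f0) (nat_lit 5699858112),
  Rx.mk (nat_lit 27) (nat_lit 3) (nat_lit 3) (nat_lit 0) (nat_lit 3) (nat_lit 158) (nat_lit 108) r1_158 r4_108 (nat_lit 0) (nat_lit 0) (nat_lit 0) (nat_lit 0x727dbfd186) (nat_lit 6630836472),
  Rx.mk (nat_lit 88) (nat_lit 0) (nat_lit 3) (nat_lit 1) (nat_lit 6) (nat_lit 155) (nat_lit 109) r1_155 r4_109 (nat_lit 0) (nat_lit 0) (nat_lit 0) (nat_lit 0x7dc2547cf6) (nat_lit 1099952568),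
  Rx.mk (nat_lit 91) (nat_lit 3) (nat_lit 3) (nat_lit 1) (nat_lit 7) (nat_lit 159) (nat_lit 110) r1_159 r4_110 (nat_lit 0) (nat_lit 0) (nat_lit 0) (nat_lit 0x7dbbbc4680) (nat_lit 1112596992),
  Rx.mk (nat_lit 152) (nat_lit 0) (nat_lit 3) (nat_lit 2) (nat_lit 6) (nat_lit 156) (nat_lit 111) r1_156 r4_111 (nat_lit 0) (nat_lit 0) (nat_lit 0) (nat_lit 0x7e11d58496) (nat_lit 947511864),
  Rx.mk (nat_lit 154) (nat_lit 2) (nat_lit 3) (nat_lit 2) (nat_lit 7) (nat_lit 157) (nat_lit 113) r1_157 r4_113 (nat_lit 0) (nat_lit 0) (nat_lit 0) (nat_lit 0x7df3f3e2ce) (nat_lit 1004806296),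
  Rx.mk (nat_lit 155) (nat_lit 3) (nat_lit 3) (nat_lit 2) (nat_lit 7) (nat_lit 160) (nat_lit 112) r1_160 r4_112 (nat_lit 0) (nat_lit 0) (nat_lit 0) (nat_lit 0x7dbe303f3e) (nat_lit 1107893592)]
noncomputable def e7_23 : List Rx := [
  Rx.mk (nat_lit 0) (nat_lit 0) (nat_lit 0) (nat_lit 0) (nat_lit 0) (nat_lit 107) (nat_lit 11) r1_107 r6_11 (nat_lit 0) (nat_lit 0) (nat_lit 0) (nat_lit 0x55073477b4) (nat_lit 21092881680),
  Rx.mk (nat_lit 24) (nat_lit 0) (nat_lit 3) (nat_lit 0) (nat_lit 2) (nat_lit 111) (nat_lit 14) r1_111 r6_14 (nat_lit 0) (nat_lit 0) (nat_lit 0) (nat_lit 0x67e0964ebc) (nat_lit 11840712624),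
  Rx.mk (nat_lit 27) (nat_lit 3) (nat_lit 3) (nat_lit 0) (nat_lit 3) (nat_lit 114) (nat_lit 16) r1_114 r6_16 (nat_lit 0) (nat_lit 0) (nat_lit 0) (nat_lit 0x6d67741b58) (nat_lit 9127853280),
  Rx.mk (nat_lit 128) (nat_lit 0) (nat_lit 0) (nat_lit 2) (nat_lit 4) (nat_lit 108) (nat_lit 12) r1_108 r6_12 (nat_lit 0) (nat_lit 0) (nat_lit 0) (nat_lit 0x6c89b37840) (nat_lit 9553040640),
  Rx.mk (nat_lit 130) (nat_lit 2) (nat_lit 0) (nat_lit 2) (nat_lit 5) (nat_lit 109) (nat_lit 13) r1_109 r6_13 (nat_lit 0) (nat_lit 0) (nat_lit 0) (nat_lit 0x7c894ceea8) (nat_lit 1700154144),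
  Rx.mk (nat_lit 146) (nat_lit 2) (nat_lit 2) (nat_lit 2) (nat_lit 7) (nat_lit 110) (nat_lit 20) r1_110 r6_20 (nat_lit 0) (nat_lit 0) (nat_lit 0) (nat_lit 0x7de4f8f28c) (nat_lit 1033529328),
  Rx.mk (nat_lit 152) (nat_lit 0) (nat_lit 3) (nat_lit 2) (nat_lit 6) (nat_lit 112) (nat_lit 15) r1_112 r6_15 (nat_lit 0) (nat_lit 0) (nat_lit 0) (nat_lit 0x7d6284da50) (nat_lit 1283660352),
  Rx.mk (nat_lit 154) (nat_lit 2) (nat_lit 3) (nat_lit 2) (nat_lit 7) (nat_lit 113) (nat_lit 19) r1_113 r6_19 (nat_lit 0) (nat_lit 0) (nat_lit 0) (nat_lit 0x7de1bde640) (nat_lit 1039723776),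
  Rx.mk (nat_lit 155) (nat_lit 3) (nat_lit 3) (nat_lit 2) (nat_lit 7) (nat_lit 115) (nat_lit 18) r1_115 r6_18 (nat_lit 0) (nat_lit 0) (nat_lit 0) (nat_lit 0x7da9ea63b0) (nat_lit 1146764736),
  Rx.mk (nat_lit 219) (nat_lit 3) (nat_lit 3) (nat_lit 3) (nat_lit 7) (nat_lit 116) (nat_lit 17) r1_116 r6_17 (nat_lit 0) (nat_lit 0) (nat_lit 0) (nat_lit 0x7ce256fdae) (nat_lit 1529430552)]
noncomputable def e7_24 : List Rx := [
  Rx.mk (nat_lit 0) (nat_lit 0) (nat_lit 0) (nat_lit 0) (nat_lit 0) (nat_lit 131) (nat_lit 15) r1_131 r7_15 (nat_lit 0) (nat_lit 0) (nat_lit 0) (nat_lit 0x3a4548f130) (nat_lit 34226891712),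
  Rx.mk (nat_lit 8) (nat_lit 0) (nat_lit 1) (nat_lit 0) (nat_lit 2) (nat_lit 134) (nat_lit 18) r1_134 r7_18 (nat_lit 0) (nat_lit 0) (nat_lit 0) (nat_lit 0x713c198d2c) (nat_lit 7247565936),
  Rx.mk (nat_lit 24) (nat_lit 0) (nat_lit 3) (nat_lit 0) (nat_lit 2) (nat_lit 138) (nat_lit 21) r1_138 r7_21 (nat_lit 0) (nat_lit 0) (nat_lit 0) (nat_lit 0x6d86155126) (nat_lit 9069123960),
  Rx.mk (nat_lit 27) (nat_lit 3) (nat_lit 3) (nat_lit 0) (nat_lit 3) (nat_lit 139) (nat_lit 22) r1_139 r7_22 (nat_lit 0) (nat_lit 0) (nat_lit 0) (nat_lit 0x78d44382f4) (nat_lit 3519833616),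
  Rx.mk (nat_lit 128) (nat_lit 0) (nat_lit 0) (nat_lit 2) (nat_lit 4) (nat_lit 132) (nat_lit 16) r1_132 r7_16 (nat_lit 0) (nat_lit 0) (nat_lit 0) (nat_lit 0x719cb8e2d6) (nat_lit 7062302520),
  Rx.mk (nat_lit 130) (nat_lit 2) (nat_lit 0) (nat_lit 2) (nat_lit 5) (nat_lit 133) (nat_lit 17) r1_133 r7_17 (nat_lit 0) (nat_lit 0) (nat_lit 0) (nat_lit 0x7d4b722b92) (nat_lit 1327900392),
  Rx.mk (nat_lit 136) (nat_lit 0) (nat_lit 1) (nat_lit 2) (nat_lit 6) (nat_lit 135) (nat_lit 19) r1_135 r7_19 (nat_lit 0) (nat_lit 0) (nat_lit 0) (nat_lit 0x7dcb8c896c) (nat_lit 1082276208),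
  Rx.mk (nat_lit 138) (nat_lit 2) (nat_lit 1) (nat_lit 2) (nat_lit 7) (nat_lit 136) (nat_lit 20) r1_136 r7_20 (nat_lit 0) (nat_lit 0) (nat_lit 0) (nat_lit 0x7ddfbee632) (nat_lit 1043551080),
  Rx.mk (nat_lit 146) (nat_lit 2) (nat_lit 2) (nat_lit 2) (nat_lit 7) (nat_lit 137) (nat_lit 24) r1_137 r7_24 (nat_lit 0) (nat_lit 0) (nat_lit 0) (nat_lit 0x7dd37a4a88) (nat_lit 1067073696),
  Rx.mk (nat_lit 219) (nat_lit 3) (nat_lit 3) (nat_lit 3) (nat_lit 7) (nat_lit 140) (nat_lit 23) r1_140 r7_23 (nat_lit 0) (nat_lit 0) (nat_lit 0) (nat_lit 0x7d782dbfac) (nat_lit 1242130032)]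
noncomputable def e7_25 : List Rx := [
  Rx.mk (nat_lit 0) (nat_lit 0) (nat_lit 0) (nat_lit 0) (nat_lit 0) (nat_lit 141) (nat_lit 90) r1_141 r7_90 (nat_lit 0) (nat_lit 0) (nat_lit 0) (nat_lit 0x3f2c1ddefa) (nat_lit 31820882184),
  Rx.mk (nat_lit 24) (nat_lit 0) (nat_lit 3) (nat_lit 0) (nat_lit 2) (nat_lit 147) (nat_lit 91) r1_147 r7_91 (nat_lit 0) (nat_lit 0) (nat_lit 0) (nat_lit 0x6698457512) (nat_lit 12470224104),
  Rx.mk (nat_lit 27) (nat_lit 3) (nat_lit 3) (nat_lit 0) (nat_lit 3) (nat_lit 150) (nat_lit 92) r1_150 r7_92 (nat_lit 0) (nat_lit 0) (nat_lit 0) (nat_lit 0x6657bb3df6) (nat_lit 12593972664),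
  Rx.mk (nat_lit 128) (nat_lit 0) (nat_lit 0) (nat_lit 2) (nat_lit 4) (nat_lit 142) (nat_lit 94) r1_142 r7_94 (nat_lit 0) (nat_lit 0) (nat_lit 0) (nat_lit 0x60f77387d2) (nat_lit 15232846824),
  Rx.mk (nat_lit 130) (nat_lit 2) (nat_lit 0) (nat_lit 2) (nat_lit 5) (nat_lit 143) (nat_lit 97) r1_143 r7_97 (nat_lit 0) (nat_lit 0) (nat_lit 0) (nat_lit 0x79f20f451a) (nat_lit 2971849608),
  Rx.mk (nat_lit 146) (nat_lit 2) (nat_lit 2) (nat_lit 2) (nat_lit 7) (nat_lit 144) (nat_lit 99) r1_144 r7_99 (nat_lit 0) (nat_lit 0) (nat_lit 0) (nat_lit 0x7dd6fab27e) (nat_lit 1060359768),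
  Rx.mk (nat_lit 152) (nat_lit 0) (nat_lit 3) (nat_lit 2) (nat_lit 6) (nat_lit 148) (nat_lit 95) r1_148 r7_95 (nat_lit 0) (nat_lit 0) (nat_lit 0) (nat_lit 0x7d04f5d39e) (nat_lit 1463049432),
  Rx.mk (nat_lit 154) (nat_lit 2) (nat_lit 3) (nat_lit 2) (nat_lit 7) (nat_lit 149) (nat_lit 98) r1_149 r7_98 (nat_lit 0) (nat_lit 0) (nat_lit 0) (nat_lit 0x7df4f572b4) (nat_lit 1002877200),
  Rx.mk (nat_lit 155) (nat_lit 3) (nat_lit 3) (nat_lit 2) (nat_lit 7) (nat_lit 151) (nat_lit 96) r1_151 r7_96 (nat_lit 0) (nat_lit 0) (nat_lit 0) (nat_lit 0x7d83c7c600) (nat_lit 1219885056),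
  Rx.mk (nat_lit 219) (nat_lit 3) (nat_lit 3) (nat_lit 3) (nat_lit 7) (nat_lit 152) (nat_lit 93) r1_152 r7_93 (nat_lit 0) (nat_lit 0) (nat_lit 0) (nat_lit 0x7cef2530be) (nat_lit 1504877400),
  Rx.mk (nat_lit 402) (nat_lit 2) (nat_lit 2) (nat_lit 6) (nat_lit 7) (nat_lit 145) (nat_lit 100) r1_145 r7_100 (nat_lit 0) (nat_lit 0) (nat_lit 0) (nat_lit 0x7dec661bb2) (nat_lit 1019289960),
  Rx.mk (nat_lit 406) (nat_lit 6) (nat_lit 2) (nat_lit 6) (nat_lit 7) (nat_lit 146) (nat_lit 101) r1_146 r7_101 (nat_lit 0) (nat_lit 0) (nat_lit 0) (nat_lit 0x7db6f07342) (nat_lit 1121793192)]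
noncomputable def e7_26 : List Rx := [
  Rx.mk (nat_lit 24) (nat_lit 0) (nat_lit 3) (nat_lit 0) (nat_lit 2) (nat_lit 161) (nat_lit 5) r1_161 r9_5 (nat_lit 0) (nat_lit 0) (nat_lit 0) (nat_lit 0x6ef8548bc0) (nat_lit 8359213824),
  Rx.mk (nat_lit 27) (nat_lit 3) (nat_lit 3) (nat_lit 0) (nat_lit 3) (nat_lit 164) (nat_lit 7) r1_164 r9_7 (nat_lit 0) (nat_lit 0) (nat_lit 0) (nat_lit 0x7303d06ff6) (nat_lit 6373780920),
  Rx.mk (nat_lit 152) (nat_lit 0) (nat_lit 3) (nat_lit 2) (nat_lit 6) (nat_lit 162) (nat_lit 6) r1_162 r9_6 (nat_lit 0) (nat_lit 0) (nat_lit 0) (nat_lit 0x7d8f13d134) (nat_lit 1198224144),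
  Rx.mk (nat_lit 154) (nat_lit 2) (nat_lit 3) (nat_lit 2) (nat_lit 7) (nat_lit 163) (nat_lit 9) r1_163 r9_9 (nat_lit 0) (nat_lit 0) (nat_lit 0) (nat_lit 0x7dfc5f3c10) (nat_lit 988663104),
  Rx.mk (nat_lit 155) (nat_lit 3) (nat_lit 3) (nat_lit 2) (nat_lit 7) (nat_lit 165) (nat_lit 8) r1_165 r9_8 (nat_lit 0) (nat_lit 0) (nat_lit 0) (nat_lit 0x7da7a24834) (nat_lit 1151139600)]
noncomputable def e7_27 : List Rx := [
  Rx.mk (nat_lit 27) (nat_lit 3) (nat_lit 3) (nat_lit 0) (nat_lit 3) (nat_lit 166) (nat_lit 2) r1_166 r10_2 (nat_lit 0) (nat_lit 0) (nat_lit 0) (nat_lit 0x7d62cfd5a0) (nat_lit 1283098752),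
  Rx.mk (nat_lit 91) (nat_lit 3) (nat_lit 3) (nat_lit 1) (nat_lit 7) (nat_lit 167) (nat_lit 3) r1_167 r10_3 (nat_lit 0) (nat_lit 0) (nat_lit 0) (nat_lit 0x7dfa55bcaa) (nat_lit 992569032),
  Rx.mk (nat_lit 155) (nat_lit 3) (nat_lit 3) (nat_lit 2) (nat_lit 7) (nat_lit 168) (nat_lit 4) r1_168 r10_4 (nat_lit 0) (nat_lit 0) (nat_lit 0) (nat_lit 0x7ddc34bed8) (nat_lit 1050338016)]
noncomputable def e7_28 : List Rx := [
  Rx.mk (nat_lit 359) (nat_lit 7) (nat_lit 4) (nat_lit 5) (nat_lit 5) (nat_lit 244) (nat_lit 333) r1_244 r10_333 (nat_lit 0) (nat_lit 0) (nat_lit 0) (nat_lit 0x7dc4b676d4) (nat_lit 1095383952),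
  Rx.mk (nat_lit 375) (nat_lit 7) (nat_lit 6) (nat_lit 5) (nat_lit 7) (nat_lit 245) (nat_lit 334) r1_245 r10_334 (nat_lit 0) (nat_lit 0) (nat_lit 0) (nat_lit 0x7e352a8f22) (nat_lit 879766056)]
noncomputable def e7_29 : List Rx := [
  Rx.mk (nat_lit 99) (nat_lit 3) (nat_lit 4) (nat_lit 1) (nat_lit 5) (nat_lit 246) (nat_lit 179) r1_246 r5_179 (nat_lit 0) (nat_lit 0) (nat_lit 0) (nat_lit 0x7f6760ea8a) (nat_lit 292635720),
  Rx.mk (nat_lit 120) (nat_lit 0) (nat_lit 7) (nat_lit 1) (nat_lit 6) (nat_lit 247) (nat_lit 178) r1_247 r5_178 (nat_lit 0) (nat_lit 0) (nat_lit 0) (nat_lit 0x7f624a1bfc) (nat_lit 302393520),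
  Rx.mk (nat_lit 123) (nat_lit 3) (nat_lit 7) (nat_lit 1) (nat_lit 7) (nat_lit 248) (nat_lit 180) r1_248 r5_180 (nat_lit 0) (nat_lit 0) (nat_lit 0) (nat_lit 0x7e75103088) (nat_lit 757250208)]
noncomputable def e7_30 : List Rx := [
  Rx.mk (nat_lit 24) (nat_lit 0) (nat_lit 3) (nat_lit 0) (nat_lit 2) (nat_lit 234) (nat_lit 107) r1_234 r10_107 (nat_lit 0) (nat_lit 0) (nat_lit 0) (nat_lit 0x79f253e0d0) (nat_lit 2971335744),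
  Rx.mk (nat_lit 56) (nat_lit 0) (nat_lit 7) (nat_lit 0) (nat_lit 2) (nat_lit 237) (nat_lit 108) r1_237 r10_108 (nat_lit 0) (nat_lit 0) (nat_lit 0) (nat_lit 0x6afa16f398) (nat_lit 10319253984),
  Rx.mk (nat_lit 59) (nat_lit 3) (nat_lit 7) (nat_lit 0) (nat_lit 3) (nat_lit 238) (nat_lit 109) r1_238 r10_109 (nat_lit 0) (nat_lit 0) (nat_lit 0) (nat_lit 0x7dd597a8b0) (nat_lit 1063018944),
  Rx.mk (nat_lit 152) (nat_lit 0) (nat_lit 3) (nat_lit 2) (nat_lit 6) (nat_lit 235) (nat_lit 111) r1_235 r10_111 (nat_lit 0) (nat_lit 0) (nat_lit 0) (nat_lit 0x7de322cff0) (nat_lit 1037050560),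
  Rx.mk (nat_lit 154) (nat_lit 2) (nat_lit 3) (nat_lit 2) (nat_lit 7) (nat_lit 236) (nat_lit 112) r1_236 r10_112 (nat_lit 0) (nat_lit 0) (nat_lit 0) (nat_lit 0x7e36429da0) (nat_lit 877668480),
  Rx.mk (nat_lit 251) (nat_lit 3) (nat_lit 7) (nat_lit 3) (nat_lit 7) (nat_lit 239) (nat_lit 110) r1_239 r10_110 (nat_lit 0) (nat_lit 0) (nat_lit 0) (nat_lit 0x7de4773aa8) (nat_lit 1034500896)]
noncomputable def e7_31 : List Rx := [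
  Rx.mk (nat_lit 99) (nat_lit 3) (nat_lit 4) (nat_lit 1) (nat_lit 5) (nat_lit 240) (nat_lit 304) r1_240 r5_304 (nat_lit 0) (nat_lit 0) (nat_lit 0) (nat_lit 0x7f67c7a41e) (nat_lit 291866328),
  Rx.mk (nat_lit 103) (nat_lit 7) (nat_lit 4) (nat_lit 1) (nat_lit 5) (nat_lit 241) (nat_lit 305) r1_241 r5_305 (nat_lit 0) (nat_lit 0) (nat_lit 0) (nat_lit 0x7ecf8b287e) (nat_lit 583763544)]
noncomputable def e7_32 : List Rx := [
  Rx.mk (nat_lit 99) (nat_lit 3) (nat_lit 4) (nat_lit 1) (nat_lit 5) (nat_lit 249) (nat_lit 56) r1_249 r11_56 (nat_lit 0) (nat_lit 0) (nat_lit 0) (nat_lit 0x7fd9fb0076) (nat_lit 72898488),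
  Rx.mk (nat_lit 103) (nat_lit 7) (nat_lit 4) (nat_lit 1) (nat_lit 5) (nat_lit 250) (nat_lit 58) r1_250 r11_58 (nat_lit 0) (nat_lit 0) (nat_lit 0) (nat_lit 0x7e7e4b3cce) (nat_lit 739551384),
  Rx.mk (nat_lit 123) (nat_lit 3) (nat_lit 7) (nat_lit 1) (nat_lit 7) (nat_lit 251) (nat_lit 57) r1_251 r11_57 (nat_lit 0) (nat_lit 0) (nat_lit 0) (nat_lit 0x7f3f574b4c) (nat_lit 369403632)]
noncomputable def e7_33 : List Rx := [
  Rx.mk (nat_lit 104) (nat_lit 0) (nat_lit 5) (nat_lit 1) (nat_lit 6) (nat_lit 255) (nat_lit 173) r1_255 r0_173 (nat_lit 0) (nat_lit 0) (nat_lit 0) (nat_lit 0x7da5614c46) (nat_lit 1155461112)]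
noncomputable def e7_34 : List Rx := [
  Rx.mk (nat_lit 97) (nat_lit 1) (nat_lit 4) (nat_lit 1) (nat_lit 5) (nat_lit 252) (nat_lit 282) r1_252 r0_282 (nat_lit 0) (nat_lit 0) (nat_lit 0) (nat_lit 0x7ff9bf840e) (nat_lit 11987352),
  Rx.mk (nat_lit 104) (nat_lit 0) (nat_lit 5) (nat_lit 1) (nat_lit 6) (nat_lit 253) (nat_lit 283) r1_253 r0_283 (nat_lit 0) (nat_lit 0) (nat_lit 0) (nat_lit 0x7925b2abb0) (nat_lit 3363691968),
  Rx.mk (nat_lit 105) (nat_lit 1) (nat_lit 5) (nat_lit 1) (nat_lit 7) (nat_lit 254) (nat_lit 284) r1_254 r0_284 (nat_lit 0) (nat_lit 0) (nat_lit 0) (nat_lit 0x7bdf3f502c) (nat_lit 2026213488)]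
noncomputable def e7_35 : List Rx := [
  Rx.mk (nat_lit 104) (nat_lit 0) (nat_lit 5) (nat_lit 1) (nat_lit 6) (nat_lit 256) (nat_lit 221) r1_256 r6_221 (nat_lit 0) (nat_lit 0) (nat_lit 0) (nat_lit 0x7d23d005dc) (nat_lit 1403893296),
  Rx.mk (nat_lit 105) (nat_lit 1) (nat_lit 5) (nat_lit 1) (nat_lit 7) (nat_lit 257) (nat_lit 222) r1_257 r6_222 (nat_lit 0) (nat_lit 0) (nat_lit 0) (nat_lit 0x7dde737aea) (nat_lit 1046033352)]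
noncomputable def e7_36 : List Rx := [
  Rx.mk (nat_lit 97) (nat_lit 1) (nat_lit 4) (nat_lit 1) (nat_lit 5) (nat_lit 280) (nat_lit 304) r1_280 r2_304 (nat_lit 0) (nat_lit 0) (nat_lit 0) (nat_lit 0x7dd800c21c) (nat_lit 1058396976),
  Rx.mk (nat_lit 101) (nat_lit 5) (nat_lit 4) (nat_lit 1) (nat_lit 5) (nat_lit 281) (nat_lit 305) r1_281 r2_305 (nat_lit 0) (nat_lit 0) (nat_lit 0) (nat_lit 0x7dda1280fe) (nat_lit 1054429272),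
  Rx.mk (nat_lit 105) (nat_lit 1) (nat_lit 5) (nat_lit 1) (nat_lit 7) (nat_lit 283) (nat_lit 307) r1_283 r2_307 (nat_lit 0) (nat_lit 0) (nat_lit 0) (nat_lit 0x7df5d6c49e) (nat_lit 1001189592),
  Rx.mk (nat_lit 109) (nat_lit 5) (nat_lit 5) (nat_lit 1) (nat_lit 7) (nat_lit 284) (nat_lit 308) r1_284 r2_308 (nat_lit 0) (nat_lit 0) (nat_lit 0) (nat_lit 0x7dd891d90a) (nat_lit 1057310280),
  Rx.mk (nat_lit 357) (nat_lit 5) (nat_lit 4) (nat_lit 5) (nat_lit 5) (nat_lit 282) (nat_lit 306) r1_282 r2_306 (nat_lit 0) (nat_lit 0) (nat_lit 0) (nat_lit 0x7d8d92694c) (nat_lit 1201110768),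
  Rx.mk (nat_lit 365) (nat_lit 5) (nat_lit 5) (nat_lit 5) (nat_lit 7) (nat_lit 285) (nat_lit 309) r1_285 r2_309 (nat_lit 0) (nat_lit 0) (nat_lit 0) (nat_lit 0x7df759ac6e) (nat_lit 998291736)]
noncomputable def e7_37 : List Rx := [
  Rx.mk (nat_lit 105) (nat_lit 1) (nat_lit 5) (nat_lit 1) (nat_lit 7) (nat_lit 287) (nat_lit 290) r1_287 r8_290 (nat_lit 0) (nat_lit 0) (nat_lit 0) (nat_lit 0x7deadc744e) (nat_lit 1022238360),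
  Rx.mk (nat_lit 109) (nat_lit 5) (nat_lit 5) (nat_lit 1) (nat_lit 7) (nat_lit 288) (nat_lit 291) r1_288 r8_291 (nat_lit 0) (nat_lit 0) (nat_lit 0) (nat_lit 0x7de6571ca8) (nat_lit 1030906656),
  Rx.mk (nat_lit 365) (nat_lit 5) (nat_lit 5) (nat_lit 5) (nat_lit 7) (nat_lit 289) (nat_lit 292) r1_289 r8_292 (nat_lit 0) (nat_lit 0) (nat_lit 0) (nat_lit 0x7de85cdc4a) (nat_lit 1027028808)]
noncomputable def e7_38 : List Rx := [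
  Rx.mk (nat_lit 357) (nat_lit 5) (nat_lit 4) (nat_lit 5) (nat_lit 5) (nat_lit 290) (nat_lit 286) r1_290 r8_286 (nat_lit 0) (nat_lit 0) (nat_lit 0) (nat_lit 0x7d689cd8ca) (nat_lit 1271976264),
  Rx.mk (nat_lit 365) (nat_lit 5) (nat_lit 5) (nat_lit 5) (nat_lit 7) (nat_lit 291) (nat_lit 287) r1_291 r8_287 (nat_lit 0) (nat_lit 0) (nat_lit 0) (nat_lit 0x7de70451d4) (nat_lit 1029609360),
  Rx.mk (nat_lit 373) (nat_lit 5) (nat_lit 6) (nat_lit 5) (nat_lit 7) (nat_lit 292) (nat_lit 288) r1_292 r8_288 (nat_lit 0) (nat_lit 0) (nat_lit 0) (nat_lit 0x7df1630bde) (nat_lit 1009725912)]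
noncomputable def e7_39 : List Rx := [
  Rx.mk (nat_lit 97) (nat_lit 1) (nat_lit 4) (nat_lit 1) (nat_lit 5) (nat_lit 278) (nat_lit 278) r1_278 r1_278 (nat_lit 0) (nat_lit 0) (nat_lit 0) (nat_lit 0x7f91b3053e) (nat_lit 211490136),
  Rx.mk (nat_lit 105) (nat_lit 1) (nat_lit 5) (nat_lit 1) (nat_lit 7) (nat_lit 279) (nat_lit 279) r1_279 r1_279 (nat_lit 0) (nat_lit 0) (nat_lit 0) (nat_lit 0x7df2be9624) (nat_lit 1007122896)]
noncomputable def e7_40 : List Rx := [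
  Rx.mk (nat_lit 105) (nat_lit 1) (nat_lit 5) (nat_lit 1) (nat_lit 7) (nat_lit 286) (nat_lit 180) r1_286 r7_180 (nat_lit 0) (nat_lit 0) (nat_lit 0) (nat_lit 0x7de3424df8) (nat_lit 1036814688)]
noncomputable def e7_41 : List Rx := [
  Rx.mk (nat_lit 72) (nat_lit 0) (nat_lit 1) (nat_lit 1) (nat_lit 6) (nat_lit 272) (nat_lit 186) r1_272 r1_186 (nat_lit 0) (nat_lit 0) (nat_lit 0) (nat_lit 0x7dbb600c44) (nat_lit 1113287760),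
  Rx.mk (nat_lit 104) (nat_lit 0) (nat_lit 5) (nat_lit 1) (nat_lit 6) (nat_lit 273) (nat_lit 185) r1_273 r1_185 (nat_lit 0) (nat_lit 0) (nat_lit 0) (nat_lit 0x7db8bf7650) (nat_lit 1118325312)]
noncomputable def e7_42 : List Rx := [
  Rx.mk (nat_lit 8) (nat_lit 0) (nat_lit 1) (nat_lit 0) (nat_lit 2) (nat_lit 258) (nat_lit 183) r1_258 r2_183 (nat_lit 0) (nat_lit 0) (nat_lit 0) (nat_lit 0x64fea130f0) (nat_lit 13255669440),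
  Rx.mk (nat_lit 72) (nat_lit 0) (nat_lit 1) (nat_lit 1) (nat_lit 6) (nat_lit 259) (nat_lit 184) r1_259 r2_184 (nat_lit 0) (nat_lit 0) (nat_lit 0) (nat_lit 0x7d01d9256c) (nat_lit 1469016432),
  Rx.mk (nat_lit 136) (nat_lit 0) (nat_lit 1) (nat_lit 2) (nat_lit 6) (nat_lit 260) (nat_lit 185) r1_260 r2_185 (nat_lit 0) (nat_lit 0) (nat_lit 0) (nat_lit 0x7dc4639c02) (nat_lit 1096004520),
  Rx.mk (nat_lit 138) (nat_lit 2) (nat_lit 1) (nat_lit 2) (nat_lit 7) (nat_lit 261) (nat_lit 186) r1_261 r2_186 (nat_lit 0) (nat_lit 0) (nat_lit 0) (nat_lit 0x7deee313e0) (nat_lit 1014519168)]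
noncomputable def e7_43 : List Rx := [
  Rx.mk (nat_lit 72) (nat_lit 0) (nat_lit 1) (nat_lit 1) (nat_lit 6) (nat_lit 274) (nat_lit 316) r1_274 r7_316 (nat_lit 0) (nat_lit 0) (nat_lit 0) (nat_lit 0x7a2aa01bd4) (nat_lit 2863390608),
  Rx.mk (nat_lit 73) (nat_lit 1) (nat_lit 1) (nat_lit 1) (nat_lit 7) (nat_lit 275) (nat_lit 317) r1_275 r7_317 (nat_lit 0) (nat_lit 0) (nat_lit 0) (nat_lit 0x7dab10b14a) (nat_lit 1144560456),
  Rx.mk (nat_lit 104) (nat_lit 0) (nat_lit 5) (nat_lit 1) (nat_lit 6) (nat_lit 276) (nat_lit 318) r1_276 r7_318 (nat_lit 0) (nat_lit 0) (nat_lit 0) (nat_lit 0x7ba392eb2e) (nat_lit 2140631064),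
  Rx.mk (nat_lit 105) (nat_lit 1) (nat_lit 5) (nat_lit 1) (nat_lit 7) (nat_lit 277) (nat_lit 319) r1_277 r7_319 (nat_lit 0) (nat_lit 0) (nat_lit 0) (nat_lit 0x7de06f7b28) (nat_lit 1042228512)]
noncomputable def e7_44 : List Rx := [
  Rx.mk (nat_lit 8) (nat_lit 0) (nat_lit 1) (nat_lit 0) (nat_lit 2) (nat_lit 262) (nat_lit 160) r1_262 r8_160 (nat_lit 0) (nat_lit 0) (nat_lit 0) (nat_lit 0x5e5dca2502) (nat_lit 16509183912),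
  Rx.mk (nat_lit 9) (nat_lit 1) (nat_lit 1) (nat_lit 0) (nat_lit 3) (nat_lit 265) (nat_lit 163) r1_265 r8_163 (nat_lit 0) (nat_lit 0) (nat_lit 0) (nat_lit 0x7d825a3cda) (nat_lit 1222622856),
  Rx.mk (nat_lit 72) (nat_lit 0) (nat_lit 1) (nat_lit 1) (nat_lit 6) (nat_lit 263) (nat_lit 161) r1_263 r8_161 (nat_lit 0) (nat_lit 0) (nat_lit 0) (nat_lit 0x7bd73b1078) (nat_lit 2041584480),
  Rx.mk (nat_lit 73) (nat_lit 1) (nat_lit 1) (nat_lit 1) (nat_lit 7) (nat_lit 266) (nat_lit 164) r1_266 r8_164 (nat_lit 0) (nat_lit 0) (nat_lit 0) (nat_lit 0x7d867bdabc) (nat_lit 1214701488),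
  Rx.mk (nat_lit 136) (nat_lit 0) (nat_lit 1) (nat_lit 2) (nat_lit 6) (nat_lit 264) (nat_lit 162) r1_264 r8_162 (nat_lit 0) (nat_lit 0) (nat_lit 0) (nat_lit 0x7d95c58612) (nat_lit 1185388776),
  Rx.mk (nat_lit 137) (nat_lit 1) (nat_lit 1) (nat_lit 2) (nat_lit 7) (nat_lit 267) (nat_lit 165) r1_267 r8_165 (nat_lit 0) (nat_lit 0) (nat_lit 0) (nat_lit 0x7df4303f08) (nat_lit 1004354208),
  Rx.mk (nat_lit 138) (nat_lit 2) (nat_lit 1) (nat_lit 2) (nat_lit 7) (nat_lit 268) (nat_lit 166) r1_268 r8_166 (nat_lit 0) (nat_lit 0) (nat_lit 0) (nat_lit 0x7df1600c0e) (nat_lit 1009748376)]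
noncomputable def e7_45 : List Rx := [
  Rx.mk (nat_lit 8) (nat_lit 0) (nat_lit 1) (nat_lit 0) (nat_lit 2) (nat_lit 269) (nat_lit 83) r1_269 r8_83 (nat_lit 0) (nat_lit 0) (nat_lit 0) (nat_lit 0x6f59076032) (nat_lit 8173804392),
  Rx.mk (nat_lit 136) (nat_lit 0) (nat_lit 1) (nat_lit 2) (nat_lit 6) (nat_lit 270) (nat_lit 84) r1_270 r8_84 (nat_lit 0) (nat_lit 0) (nat_lit 0) (nat_lit 0x7dc4b5b6e0) (nat_lit 1095389568),
  Rx.mk (nat_lit 138) (nat_lit 2) (nat_lit 1) (nat_lit 2) (nat_lit 7) (nat_lit 271) (nat_lit 85) r1_271 r8_85 (nat_lit 0) (nat_lit 0) (nat_lit 0) (nat_lit 0x7de721effa) (nat_lit 1029387528)]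
noncomputable def e7_46 : List Rx := [
  Rx.mk (nat_lit 104) (nat_lit 0) (nat_lit 5) (nat_lit 1) (nat_lit 6) (nat_lit 304) (nat_lit 159) r1_304 r4_159 (nat_lit 0) (nat_lit 0) (nat_lit 0) (nat_lit 0x7e188df908) (nat_lit 934625952),
  Rx.mk (nat_lit 107) (nat_lit 3) (nat_lit 5) (nat_lit 1) (nat_lit 7) (nat_lit 305) (nat_lit 160) r1_305 r4_160 (nat_lit 0) (nat_lit 0) (nat_lit 0) (nat_lit 0x7e535d2bda) (nat_lit 821865096)]
noncomputable def e7_47 : List Rx := [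
  Rx.mk (nat_lit 96) (nat_lit 0) (nat_lit 4) (nat_lit 1) (nat_lit 4) (nat_lit 296) (nat_lit 293) r1_296 r4_293 (nat_lit 0) (nat_lit 0) (nat_lit 0) (nat_lit 0x6a1ffcf612) (nat_lit 10737441000),
  Rx.mk (nat_lit 97) (nat_lit 1) (nat_lit 4) (nat_lit 1) (nat_lit 5) (nat_lit 297) (nat_lit 294) r1_297 r4_294 (nat_lit 0) (nat_lit 0) (nat_lit 0) (nat_lit 0x7b9136b104) (nat_lit 2175834960),
  Rx.mk (nat_lit 99) (nat_lit 3) (nat_lit 4) (nat_lit 1) (nat_lit 5) (nat_lit 298) (nat_lit 295) r1_298 r4_295 (nat_lit 0) (nat_lit 0) (nat_lit 0) (nat_lit 0x7df1a98776) (nat_lit 1009198008),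
  Rx.mk (nat_lit 104) (nat_lit 0) (nat_lit 5) (nat_lit 1) (nat_lit 6) (nat_lit 299) (nat_lit 296) r1_299 r4_296 (nat_lit 0) (nat_lit 0) (nat_lit 0) (nat_lit 0x7ce68fda1c) (nat_lit 1521335088),
  Rx.mk (nat_lit 105) (nat_lit 1) (nat_lit 5) (nat_lit 1) (nat_lit 7) (nat_lit 300) (nat_lit 297) r1_300 r4_297 (nat_lit 0) (nat_lit 0) (nat_lit 0) (nat_lit 0x7e35b126b8) (nat_lit 878757984),
  Rx.mk (nat_lit 107) (nat_lit 3) (nat_lit 5) (nat_lit 1) (nat_lit 7) (nat_lit 301) (nat_lit 298) r1_301 r4_298 (nat_lit 0) (nat_lit 0) (nat_lit 0) (nat_lit 0x7db1b0c742) (nat_lit 1131857064)]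
noncomputable def e7_48 : List Rx := [
  Rx.mk (nat_lit 104) (nat_lit 0) (nat_lit 5) (nat_lit 1) (nat_lit 6) (nat_lit 306) (nat_lit 172) r1_306 r9_172 (nat_lit 0) (nat_lit 0) (nat_lit 0) (nat_lit 0x7d78f9b2ec) (nat_lit 1240602480),
  Rx.mk (nat_lit 105) (nat_lit 1) (nat_lit 5) (nat_lit 1) (nat_lit 7) (nat_lit 307) (nat_lit 173) r1_307 r9_173 (nat_lit 0) (nat_lit 0) (nat_lit 0) (nat_lit 0x7dea245fd0) (nat_lit 1023617088),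
  Rx.mk (nat_lit 107) (nat_lit 3) (nat_lit 5) (nat_lit 1) (nat_lit 7) (nat_lit 308) (nat_lit 174) r1_308 r9_174 (nat_lit 0) (nat_lit 0) (nat_lit 0) (nat_lit 0x7d27c6e66a) (nat_lit 1396292040)]
noncomputable def e7_49 : List Rx := [
  Rx.mk (nat_lit 96) (nat_lit 0) (nat_lit 4) (nat_lit 1) (nat_lit 4) (nat_lit 315) (nat_lit 183) r1_315 r10_183 (nat_lit 0) (nat_lit 0) (nat_lit 0) (nat_lit 0x707b7d37b2) (nat_lit 7616876904),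
  Rx.mk (nat_lit 97) (nat_lit 1) (nat_lit 4) (nat_lit 1) (nat_lit 5) (nat_lit 316) (nat_lit 186) r1_316 r10_186 (nat_lit 0) (nat_lit 0) (nat_lit 0) (nat_lit 0x7ddf77aaa6) (nat_lit 1044084600),
  Rx.mk (nat_lit 99) (nat_lit 3) (nat_lit 4) (nat_lit 1) (nat_lit 5) (nat_lit 317) (nat_lit 189) r1_317 r10_189 (nat_lit 0) (nat_lit 0) (nat_lit 0) (nat_lit 0x7de538ae90) (nat_lit 1033051968),
  Rx.mk (nat_lit 104) (nat_lit 0) (nat_lit 5) (nat_lit 1) (nat_lit 6) (nat_lit 318) (nat_lit 184) r1_318 r10_184 (nat_lit 0) (nat_lit 0) (nat_lit 0) (nat_lit 0x7de8fc3254) (nat_lit 1025835408),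
  Rx.mk (nat_lit 105) (nat_lit 1) (nat_lit 5) (nat_lit 1) (nat_lit 7) (nat_lit 319) (nat_lit 187) r1_319 r10_187 (nat_lit 0) (nat_lit 0) (nat_lit 0) (nat_lit 0x7df4ff3218) (nat_lit 1002804192),
  Rx.mk (nat_lit 107) (nat_lit 3) (nat_lit 5) (nat_lit 1) (nat_lit 7) (nat_lit 320) (nat_lit 190) r1_320 r10_190 (nat_lit 0) (nat_lit 0) (nat_lit 0) (nat_lit 0x7df62c9f40) (nat_lit 1000546560),
  Rx.mk (nat_lit 120) (nat_lit 0) (nat_lit 7) (nat_lit 1) (nat_lit 6) (nat_lit 321) (nat_lit 185) r1_321 r10_185 (nat_lit 0) (nat_lit 0) (nat_lit 0) (nat_lit 0x7df99bc84a) (nat_lit 993961800),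
  Rx.mk (nat_lit 121) (nat_lit 1) (nat_lit 7) (nat_lit 1) (nat_lit 7) (nat_lit 322) (nat_lit 188) r1_322 r10_188 (nat_lit 0) (nat_lit 0) (nat_lit 0) (nat_lit 0x7e5868bb1c) (nat_lit 812191536)]
noncomputable def e7_50 : List Rx := [
  Rx.mk (nat_lit 107) (nat_lit 3) (nat_lit 5) (nat_lit 1) (nat_lit 7) (nat_lit 309) (nat_lit 338) r1_309 r10_338 (nat_lit 0) (nat_lit 0) (nat_lit 0) (nat_lit 0x7df8d574b0) (nat_lit 995447232)]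
noncomputable def e7_51 : List Rx := [
  Rx.mk (nat_lit 103) (nat_lit 7) (nat_lit 4) (nat_lit 1) (nat_lit 5) (nat_lit 91) (nat_lit 63) r1_91 r12_63 (nat_lit 0) (nat_lit 0) (nat_lit 0) (nat_lit 0x7a1ced3710) (nat_lit 2889656640),
  Rx.mk (nat_lit 127) (nat_lit 7) (nat_lit 7) (nat_lit 1) (nat_lit 7) (nat_lit 92) (nat_lit 64) r1_92 r12_64 (nat_lit 0) (nat_lit 0) (nat_lit 0) (nat_lit 0x7adb1c5360) (nat_lit 2524998528),
  Rx.mk (nat_lit 383) (nat_lit 7) (nat_lit 7) (nat_lit 5) (nat_lit 7) (nat_lit 93) (nat_lit 65) r1_93 r12_65 (nat_lit 0) (nat_lit 0) (nat_lit 0) (nat_lit 0x7e7f436d4a) (nat_lit 737692488)]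
noncomputable def e7_52 : List Rx := [
  Rx.mk (nat_lit 27) (nat_lit 3) (nat_lit 3) (nat_lit 0) (nat_lit 3) (nat_lit 58) (nat_lit 11) r1_58 r12_11 (nat_lit 0) (nat_lit 0) (nat_lit 0) (nat_lit 0x76758bd0ce) (nat_lit 4683151512),
  Rx.mk (nat_lit 59) (nat_lit 3) (nat_lit 7) (nat_lit 0) (nat_lit 3) (nat_lit 61) (nat_lit 9) r1_61 r12_9 (nat_lit 0) (nat_lit 0) (nat_lit 0) (nat_lit 0x7a959c4ba6) (nat_lit 2658257784),
  Rx.mk (nat_lit 63) (nat_lit 7) (nat_lit 7) (nat_lit 0) (nat_lit 3) (nat_lit 63) (nat_lit 6) r1_63 r12_6 (nat_lit 0) (nat_lit 0) (nat_lit 0) (nat_lit 0x7a1cc1b9c8) (nat_lit 2889982368),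
  Rx.mk (nat_lit 91) (nat_lit 3) (nat_lit 3) (nat_lit 1) (nat_lit 7) (nat_lit 59) (nat_lit 12) r1_59 r12_12 (nat_lit 0) (nat_lit 0) (nat_lit 0) (nat_lit 0x7e4f838978) (nat_lit 829247328),
  Rx.mk (nat_lit 123) (nat_lit 3) (nat_lit 7) (nat_lit 1) (nat_lit 7) (nat_lit 62) (nat_lit 10) r1_62 r12_10 (nat_lit 0) (nat_lit 0) (nat_lit 0) (nat_lit 0x7effe88278) (nat_lit 491029344),
  Rx.mk (nat_lit 127) (nat_lit 7) (nat_lit 7) (nat_lit 1) (nat_lit 7) (nat_lit 64) (nat_lit 7) r1_64 r12_7 (nat_lit 0) (nat_lit 0) (nat_lit 0) (nat_lit 0x7e3ee0f3b2) (nat_lit 861143400),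
  Rx.mk (nat_lit 155) (nat_lit 3) (nat_lit 3) (nat_lit 2) (nat_lit 7) (nat_lit 60) (nat_lit 13) r1_60 r12_13 (nat_lit 0) (nat_lit 0) (nat_lit 0) (nat_lit 0x7d35e3e48c) (nat_lit 1369231344),
  Rx.mk (nat_lit 255) (nat_lit 7) (nat_lit 7) (nat_lit 3) (nat_lit 7) (nat_lit 65) (nat_lit 8) r1_65 r12_8 (nat_lit 0) (nat_lit 0) (nat_lit 0) (nat_lit 0x7c03ca075c) (nat_lit 1956148272)]
noncomputable def e7_53 : List Rx := [
  Rx.mk (nat_lit 103) (nat_lit 7) (nat_lit 4) (nat_lit 1) (nat_lit 5) (nat_lit 242) (nat_lit 268) r1_242 r12_268 (nat_lit 0) (nat_lit 0) (nat_lit 0) (nat_lit 0x8000000000) (nat_lit 0),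
  Rx.mk (nat_lit 359) (nat_lit 7) (nat_lit 4) (nat_lit 5) (nat_lit 5) (nat_lit 243) (nat_lit 267) r1_243 r12_267 (nat_lit 0) (nat_lit 0) (nat_lit 0) (nat_lit 0x7d19eca41c) (nat_lit 1422852912)]
noncomputable def e7_54 : List Rx := [
  Rx.mk (nat_lit 24) (nat_lit 0) (nat_lit 3) (nat_lit 0) (nat_lit 2) (nat_lit 225) (nat_lit 106) r1_225 r12_106 (nat_lit 0) (nat_lit 0) (nat_lit 0) (nat_lit 0x8000000000) (nat_lit 0),
  Rx.mk (nat_lit 56) (nat_lit 0) (nat_lit 7) (nat_lit 0) (nat_lit 2) (nat_lit 229) (nat_lit 107) r1_229 r12_107 (nat_lit 0) (nat_lit 0) (nat_lit 0) (nat_lit 0x71c5b3f2fc) (nat_lit 6983726256),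
  Rx.mk (nat_lit 59) (nat_lit 3) (nat_lit 7) (nat_lit 0) (nat_lit 3) (nat_lit 231) (nat_lit 108) r1_231 r12_108 (nat_lit 0) (nat_lit 0) (nat_lit 0) (nat_lit 0x7d8932ef48) (nat_lit 1209495456),
  Rx.mk (nat_lit 88) (nat_lit 0) (nat_lit 3) (nat_lit 1) (nat_lit 6) (nat_lit 226) (nat_lit 109) r1_226 r12_109 (nat_lit 0) (nat_lit 0) (nat_lit 0) (nat_lit 0x7eb6a736d6) (nat_lit 631488312),
  Rx.mk (nat_lit 120) (nat_lit 0) (nat_lit 7) (nat_lit 1) (nat_lit 6) (nat_lit 230) (nat_lit 110) r1_230 r12_110 (nat_lit 0) (nat_lit 0) (nat_lit 0) (nat_lit 0x7dfcd1f4e4) (nat_lit 987803856),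
  Rx.mk (nat_lit 123) (nat_lit 3) (nat_lit 7) (nat_lit 1) (nat_lit 7) (nat_lit 232) (nat_lit 111) r1_232 r12_111 (nat_lit 0) (nat_lit 0) (nat_lit 0) (nat_lit 0x7e706b5ada) (nat_lit 766154376),
  Rx.mk (nat_lit 152) (nat_lit 0) (nat_lit 3) (nat_lit 2) (nat_lit 6) (nat_lit 227) (nat_lit 113) r1_227 r12_113 (nat_lit 0) (nat_lit 0) (nat_lit 0) (nat_lit 0x7dc65abc8e) (nat_lit 1092236184),
  Rx.mk (nat_lit 154) (nat_lit 2) (nat_lit 3) (nat_lit 2) (nat_lit 7) (nat_lit 228) (nat_lit 114) r1_228 r12_114 (nat_lit 0) (nat_lit 0) (nat_lit 0) (nat_lit 0x7d334cae02) (nat_lit 1374198696),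
  Rx.mk (nat_lit 251) (nat_lit 3) (nat_lit 7) (nat_lit 3) (nat_lit 7) (nat_lit 233) (nat_lit 112) r1_233 r12_112 (nat_lit 0) (nat_lit 0) (nat_lit 0) (nat_lit 0x7dda421e04) (nat_lit 1054072656)]
noncomputable def e7_55 : List Rx := [
  Rx.mk (nat_lit 96) (nat_lit 0) (nat_lit 4) (nat_lit 1) (nat_lit 4) (nat_lit 323) (nat_lit 148) r1_323 r3_148 (nat_lit 0) (nat_lit 0) (nat_lit 0) (nat_lit 0x8000000000) (nat_lit 0),
  Rx.mk (nat_lit 99) (nat_lit 3) (nat_lit 4) (nat_lit 1) (nat_lit 5) (nat_lit 293) (nat_lit 150) r1_293 r3_150 (nat_lit 0) (nat_lit 0) (nat_lit 0) (nat_lit 0x7f34c65466) (nat_lit 389663352),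
  Rx.mk (nat_lit 104) (nat_lit 0) (nat_lit 5) (nat_lit 1) (nat_lit 6) (nat_lit 294) (nat_lit 149) r1_294 r3_149 (nat_lit 0) (nat_lit 0) (nat_lit 0) (nat_lit 0x7f3dabe604) (nat_lit 372604752),
  Rx.mk (nat_lit 107) (nat_lit 3) (nat_lit 5) (nat_lit 1) (nat_lit 7) (nat_lit 295) (nat_lit 151) r1_295 r3_151 (nat_lit 0) (nat_lit 0) (nat_lit 0) (nat_lit 0x7f46a79640) (nat_lit 355380480)]
noncomputable def e7_56 : List Rx := [
  Rx.mk (nat_lit 96) (nat_lit 0) (nat_lit 4) (nat_lit 1) (nat_lit 4) (nat_lit 310) (nat_lit 164) r1_310 r12_164 (nat_lit 0) (nat_lit 0) (nat_lit 0) (nat_lit 0x776b6e91ac) (nat_lit 4211691120),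
  Rx.mk (nat_lit 99) (nat_lit 3) (nat_lit 4) (nat_lit 1) (nat_lit 5) (nat_lit 311) (nat_lit 167) r1_311 r12_167 (nat_lit 0) (nat_lit 0) (nat_lit 0) (nat_lit 0x7e69f1827e) (nat_lit 778571352),
  Rx.mk (nat_lit 104) (nat_lit 0) (nat_lit 5) (nat_lit 1) (nat_lit 6) (nat_lit 312) (nat_lit 165) r1_312 r12_165 (nat_lit 0) (nat_lit 0) (nat_lit 0) (nat_lit 0x7da1e863d8) (nat_lit 1162118880),
  Rx.mk (nat_lit 107) (nat_lit 3) (nat_lit 5) (nat_lit 1) (nat_lit 7) (nat_lit 313) (nat_lit 168) r1_313 r12_168 (nat_lit 0) (nat_lit 0) (nat_lit 0) (nat_lit 0x7db533cf0e) (nat_lit 1125123480),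
  Rx.mk (nat_lit 120) (nat_lit 0) (nat_lit 7) (nat_lit 1) (nat_lit 6) (nat_lit 314) (nat_lit 166) r1_314 r12_166 (nat_lit 0) (nat_lit 0) (nat_lit 0) (nat_lit 0x7decb6b6a8) (nat_lit 1018686240)]
noncomputable def e7_57 : List Rx := [
  Rx.mk (nat_lit 99) (nat_lit 3) (nat_lit 4) (nat_lit 1) (nat_lit 5) (nat_lit 302) (nat_lit 273) r1_302 r12_273 (nat_lit 0) (nat_lit 0) (nat_lit 0) (nat_lit 0x7e59f0e298) (nat_lit 809254368),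
  Rx.mk (nat_lit 107) (nat_lit 3) (nat_lit 5) (nat_lit 1) (nat_lit 7) (nat_lit 303) (nat_lit 274) r1_303 r12_274 (nat_lit 0) (nat_lit 0) (nat_lit 0) (nat_lit 0x7d5c1b80ec) (nat_lit 1295953776)]
noncomputable def e7 : List (List Rx) := [e7_0, e7_1, e7_2, e7_3, e7_4, e7_5, e7_6, e7_7, e7_8, e7_9, e7_10, e7_11, e7_12, e7_13, e7_14, e7_15, e7_16, e7_17, e7_18, e7_19, e7_20, e7_21, e7_22, e7_23, e7_24, e7_25, e7_26, e7_27, e7_28, e7_29, e7_30, e7_31, e7_32, e7_33, e7_34, e7_35, e7_36, e7_37, e7_38, e7_39, e7_40, e7_41, e7_42, e7_43, e7_44, e7_45, e7_46, e7_47, e7_48, e7_49, e7_50, e7_51, e7_52, e7_53, e7_54, e7_55, e7_56, e7_57]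
noncomputable def e8_0 : List Rx := [
  Rx.mk (nat_lit 116) (nat_lit 4) (nat_lit 6) (nat_lit 1) (nat_lit 6) (nat_lit 68) (nat_lit 79) r4_68 r0_79 (nat_lit 0) (nat_lit 0) (nat_lit 0) (nat_lit 0x6338dbcf0c) (nat_lit 14125728240),
  Rx.mk (nat_lit 372) (nat_lit 4) (nat_lit 6) (nat_lit 5) (nat_lit 6) (nat_lit 69) (nat_lit 80) r4_69 r0_80 (nat_lit 0) (nat_lit 0) (nat_lit 0) (nat_lit 0x7933197536) (nat_lit 3337995960),
  Rx.mk (nat_lit 375) (nat_lit 7) (nat_lit 6) (nat_lit 5) (nat_lit 7) (nat_lit 70) (nat_lit 81) r4_70 r0_81 (nat_lit 0) (nat_lit 0) (nat_lit 0) (nat_lit 0x7e7f2fee82) (nat_lit 737838504)]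
noncomputable def e8_1 : List Rx := [
  Rx.mk (nat_lit 372) (nat_lit 4) (nat_lit 6) (nat_lit 5) (nat_lit 6) (nat_lit 71) (nat_lit 85) r4_71 r1_85 (nat_lit 0) (nat_lit 0) (nat_lit 0) (nat_lit 0x7de3bb066c) (nat_lit 1035910512),
  Rx.mk (nat_lit 374) (nat_lit 6) (nat_lit 6) (nat_lit 5) (nat_lit 7) (nat_lit 72) (nat_lit 87) r4_72 r1_87 (nat_lit 0) (nat_lit 0) (nat_lit 0) (nat_lit 0x7df5700b0a) (nat_lit 1001958984),
  Rx.mk (nat_lit 375) (nat_lit 7) (nat_lit 6) (nat_lit 5) (nat_lit 7) (nat_lit 73) (nat_lit 86) r4_73 r1_86 (nat_lit 0) (nat_lit 0) (nat_lit 0) (nat_lit 0x7eb127ced2) (nat_lit 642029544)]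
noncomputable def e8_2 : List Rx := [
  Rx.mk (nat_lit 278) (nat_lit 6) (nat_lit 2) (nat_lit 4) (nat_lit 3) (nat_lit 21) (nat_lit 89) r4_21 r2_89 (nat_lit 0) (nat_lit 0) (nat_lit 0) (nat_lit 0x7e2db3a698) (nat_lit 894078432),
  Rx.mk (nat_lit 308) (nat_lit 4) (nat_lit 6) (nat_lit 4) (nat_lit 2) (nat_lit 24) (nat_lit 84) r4_24 r2_84 (nat_lit 0) (nat_lit 0) (nat_lit 0) (nat_lit 0x6f9c53eb26) (nat_lit 8044765560),
  Rx.mk (nat_lit 310) (nat_lit 6) (nat_lit 6) (nat_lit 4) (nat_lit 3) (nat_lit 26) (nat_lit 92) r4_26 r2_92 (nat_lit 0) (nat_lit 0) (nat_lit 0) (nat_lit 0x7e3762eb9a) (nat_lit 875509128),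
  Rx.mk (nat_lit 311) (nat_lit 7) (nat_lit 6) (nat_lit 4) (nat_lit 3) (nat_lit 28) (nat_lit 86) r4_28 r2_86 (nat_lit 0) (nat_lit 0) (nat_lit 0) (nat_lit 0x7ea641bd3e) (nat_lit 662926680),
  Rx.mk (nat_lit 342) (nat_lit 6) (nat_lit 2) (nat_lit 5) (nat_lit 7) (nat_lit 22) (nat_lit 90) r4_22 r2_90 (nat_lit 0) (nat_lit 0) (nat_lit 0) (nat_lit 0x7dee60fc02) (nat_lit 1015493544),
  Rx.mk (nat_lit 372) (nat_lit 4) (nat_lit 6) (nat_lit 5) (nat_lit 6) (nat_lit 25) (nat_lit 85) r4_25 r2_85 (nat_lit 0) (nat_lit 0) (nat_lit 0) (nat_lit 0x7e46493d26) (nat_lit 846940536),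
  Rx.mk (nat_lit 374) (nat_lit 6) (nat_lit 6) (nat_lit 5) (nat_lit 7) (nat_lit 27) (nat_lit 93) r4_27 r2_93 (nat_lit 0) (nat_lit 0) (nat_lit 0) (nat_lit 0x7dd9a4a7dc) (nat_lit 1055252016),
  Rx.mk (nat_lit 375) (nat_lit 7) (nat_lit 6) (nat_lit 5) (nat_lit 7) (nat_lit 29) (nat_lit 87) r4_29 r2_87 (nat_lit 0) (nat_lit 0) (nat_lit 0) (nat_lit 0x7e85ff4186) (nat_lit 724781304),
  Rx.mk (nat_lit 406) (nat_lit 6) (nat_lit 2) (nat_lit 6) (nat_lit 7) (nat_lit 23) (nat_lit 91) r4_23 r2_91 (nat_lit 0) (nat_lit 0) (nat_lit 0) (nat_lit 0x7de8bc7650) (nat_lit 1026312768),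
  Rx.mk (nat_lit 503) (nat_lit 7) (nat_lit 6) (nat_lit 7) (nat_lit 7) (nat_lit 30) (nat_lit 88) r4_30 r2_88 (nat_lit 0) (nat_lit 0) (nat_lit 0) (nat_lit 0x7e66fbd1dc) (nat_lit 784246320)]
noncomputable def e8_3 : List Rx := [
  Rx.mk (nat_lit 103) (nat_lit 7) (nat_lit 4) (nat_lit 1) (nat_lit 5) (nat_lit 65) (nat_lit 70) r4_65 r3_70 (nat_lit 0) (nat_lit 0) (nat_lit 0) (nat_lit 0x7ffc241dc2) (nat_lit 7399080),
  Rx.mk (nat_lit 116) (nat_lit 4) (nat_lit 6) (nat_lit 1) (nat_lit 6) (nat_lit 66) (nat_lit 69) r4_66 r3_69 (nat_lit 0) (nat_lit 0) (nat_lit 0) (nat_lit 0x7f9a3d1c94) (nat_lit 195116688),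
  Rx.mk (nat_lit 119) (nat_lit 7) (nat_lit 6) (nat_lit 1) (nat_lit 7) (nat_lit 67) (nat_lit 71) r4_67 r3_71 (nat_lit 0) (nat_lit 0) (nat_lit 0) (nat_lit 0x7fe190a714) (nat_lit 58355856)]
noncomputable def e8_4 : List Rx := [
  Rx.mk (nat_lit 103) (nat_lit 7) (nat_lit 4) (nat_lit 1) (nat_lit 5) (nat_lit 74) (nat_lit 75) r4_74 r4_75 (nat_lit 0) (nat_lit 0) (nat_lit 0) (nat_lit 0x7df5478d92) (nat_lit 1002262248),
  Rx.mk (nat_lit 116) (nat_lit 4) (nat_lit 6) (nat_lit 1) (nat_lit 6) (nat_lit 75) (nat_lit 74) r4_75 r4_74 (nat_lit 0) (nat_lit 0) (nat_lit 0) (nat_lit 0x7df5478d92) (nat_lit 1002262248),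
  Rx.mk (nat_lit 119) (nat_lit 7) (nat_lit 6) (nat_lit 1) (nat_lit 7) (nat_lit 76) (nat_lit 76) r4_76 r4_76 (nat_lit 0) (nat_lit 0) (nat_lit 0) (nat_lit 0x78e27fff1e) (nat_lit 3492537048),
  Rx.mk (nat_lit 375) (nat_lit 7) (nat_lit 6) (nat_lit 5) (nat_lit 7) (nat_lit 77) (nat_lit 77) r4_77 r4_77 (nat_lit 0) (nat_lit 0) (nat_lit 0) (nat_lit 0x7e7ff5222e) (nat_lit 736361496)]
noncomputable def e8_5 : List Rx := [
  Rx.mk (nat_lit 59) (nat_lit 3) (nat_lit 7) (nat_lit 0) (nat_lit 3) (nat_lit 36) (nat_lit 42) r4_36 r3_42 (nat_lit 0) (nat_lit 0) (nat_lit 0) (nat_lit 0x7db0793abc) (nat_lit 1134190512),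
  Rx.mk (nat_lit 152) (nat_lit 0) (nat_lit 3) (nat_lit 2) (nat_lit 6) (nat_lit 31) (nat_lit 46) r4_31 r3_46 (nat_lit 0) (nat_lit 0) (nat_lit 0) (nat_lit 0x7ffbd9e266) (nat_lit 7955064),
  Rx.mk (nat_lit 154) (nat_lit 2) (nat_lit 3) (nat_lit 2) (nat_lit 7) (nat_lit 32) (nat_lit 48) r4_32 r3_48 (nat_lit 0) (nat_lit 0) (nat_lit 0) (nat_lit 0x7ae6c7f89a) (nat_lit 2502621576),
  Rx.mk (nat_lit 155) (nat_lit 3) (nat_lit 3) (nat_lit 2) (nat_lit 7) (nat_lit 33) (nat_lit 47) r4_33 r3_47 (nat_lit 0) (nat_lit 0) (nat_lit 0) (nat_lit 0x7e68443d54) (nat_lit 781786512),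
  Rx.mk (nat_lit 187) (nat_lit 3) (nat_lit 7) (nat_lit 2) (nat_lit 7) (nat_lit 37) (nat_lit 44) r4_37 r3_44 (nat_lit 0) (nat_lit 0) (nat_lit 0) (nat_lit 0x7eb5bf2558) (nat_lit 633226464),
  Rx.mk (nat_lit 231) (nat_lit 7) (nat_lit 4) (nat_lit 3) (nat_lit 5) (nat_lit 34) (nat_lit 40) r4_34 r3_40 (nat_lit 0) (nat_lit 0) (nat_lit 0) (nat_lit 0x7f3136ed60) (nat_lit 396489600),
  Rx.mk (nat_lit 247) (nat_lit 7) (nat_lit 6) (nat_lit 3) (nat_lit 7) (nat_lit 35) (nat_lit 45) r4_35 r3_45 (nat_lit 0) (nat_lit 0) (nat_lit 0) (nat_lit 0x7f09322dd4) (nat_lit 473221008),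
  Rx.mk (nat_lit 251) (nat_lit 3) (nat_lit 7) (nat_lit 3) (nat_lit 7) (nat_lit 38) (nat_lit 43) r4_38 r3_43 (nat_lit 0) (nat_lit 0) (nat_lit 0) (nat_lit 0x7e2eabd714) (nat_lit 892219536),
  Rx.mk (nat_lit 255) (nat_lit 7) (nat_lit 7) (nat_lit 3) (nat_lit 7) (nat_lit 39) (nat_lit 41) r4_39 r3_41 (nat_lit 0) (nat_lit 0) (nat_lit 0) (nat_lit 0x7e65b0c68e) (nat_lit 786725784)]
noncomputable def e8_6 : List Rx := [
  Rx.mk (nat_lit 130) (nat_lit 2) (nat_lit 0) (nat_lit 2) (nat_lit 5) (nat_lit 0) (nat_lit 58) r4_0 r0_58 (nat_lit 0) (nat_lit 0) (nat_lit 0) (nat_lit 0x6075ec00cc) (nat_lit 15481206000),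
  Rx.mk (nat_lit 152) (nat_lit 0) (nat_lit 3) (nat_lit 2) (nat_lit 6) (nat_lit 5) (nat_lit 59) r4_5 r0_59 (nat_lit 0) (nat_lit 0) (nat_lit 0) (nat_lit 0x73827b04ce) (nat_lit 6130911384),
  Rx.mk (nat_lit 154) (nat_lit 2) (nat_lit 3) (nat_lit 2) (nat_lit 7) (nat_lit 6) (nat_lit 61) r4_6 r0_61 (nat_lit 0) (nat_lit 0) (nat_lit 0) (nat_lit 0x769aeeda78) (nat_lit 4611466080),
  Rx.mk (nat_lit 155) (nat_lit 3) (nat_lit 3) (nat_lit 2) (nat_lit 7) (nat_lit 7) (nat_lit 60) r4_7 r0_60 (nat_lit 0) (nat_lit 0) (nat_lit 0) (nat_lit 0x7dd9546ce0) (nat_lit 1055852928),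
  Rx.mk (nat_lit 278) (nat_lit 6) (nat_lit 2) (nat_lit 4) (nat_lit 3) (nat_lit 3) (nat_lit 62) r4_3 r0_62 (nat_lit 0) (nat_lit 0) (nat_lit 0) (nat_lit 0x71ae0a8daa) (nat_lit 7029095112),
  Rx.mk (nat_lit 308) (nat_lit 4) (nat_lit 6) (nat_lit 4) (nat_lit 2) (nat_lit 8) (nat_lit 52) r4_8 r0_52 (nat_lit 0) (nat_lit 0) (nat_lit 0) (nat_lit 0x5b6197cb24) (nat_lit 17974451664),
  Rx.mk (nat_lit 310) (nat_lit 6) (nat_lit 6) (nat_lit 4) (nat_lit 3) (nat_lit 10) (nat_lit 55) r4_10 r0_55 (nat_lit 0) (nat_lit 0) (nat_lit 0) (nat_lit 0x76957cf19c) (nat_lit 4621906224),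
  Rx.mk (nat_lit 386) (nat_lit 2) (nat_lit 0) (nat_lit 6) (nat_lit 5) (nat_lit 1) (nat_lit 57) r4_1 r0_57 (nat_lit 0) (nat_lit 0) (nat_lit 0) (nat_lit 0x79050af64c) (nat_lit 3426304752),
  Rx.mk (nat_lit 402) (nat_lit 2) (nat_lit 2) (nat_lit 6) (nat_lit 7) (nat_lit 2) (nat_lit 64) r4_2 r0_64 (nat_lit 0) (nat_lit 0) (nat_lit 0) (nat_lit 0x7d87d5e51a) (nat_lit 1212109704),
  Rx.mk (nat_lit 406) (nat_lit 6) (nat_lit 2) (nat_lit 6) (nat_lit 7) (nat_lit 4) (nat_lit 63) r4_4 r0_63 (nat_lit 0) (nat_lit 0) (nat_lit 0) (nat_lit 0x7dd8cbf568) (nat_lit 1056875040),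
  Rx.mk (nat_lit 500) (nat_lit 4) (nat_lit 6) (nat_lit 7) (nat_lit 6) (nat_lit 9) (nat_lit 53) r4_9 r0_53 (nat_lit 0) (nat_lit 0) (nat_lit 0) (nat_lit 0x6d58b6a73e) (nat_lit 9156115800),
  Rx.mk (nat_lit 502) (nat_lit 6) (nat_lit 6) (nat_lit 7) (nat_lit 7) (nat_lit 11) (nat_lit 56) r4_11 r0_56 (nat_lit 0) (nat_lit 0) (nat_lit 0) (nat_lit 0x7dea5bdc58) (nat_lit 1023201504),
  Rx.mk (nat_lit 503) (nat_lit 7) (nat_lit 6) (nat_lit 7) (nat_lit 7) (nat_lit 12) (nat_lit 54) r4_12 r0_54 (nat_lit 0) (nat_lit 0) (nat_lit 0) (nat_lit 0x75a4e5dbfe) (nat_lit 5083212888)]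
noncomputable def e8_7 : List Rx := [
  Rx.mk (nat_lit 278) (nat_lit 6) (nat_lit 2) (nat_lit 4) (nat_lit 3) (nat_lit 14) (nat_lit 55) r4_14 r1_55 (nat_lit 0) (nat_lit 0) (nat_lit 0) (nat_lit 0x7cf02600b0) (nat_lit 1502953920),
  Rx.mk (nat_lit 308) (nat_lit 4) (nat_lit 6) (nat_lit 4) (nat_lit 2) (nat_lit 16) (nat_lit 50) r4_16 r1_50 (nat_lit 0) (nat_lit 0) (nat_lit 0) (nat_lit 0x6d02538dc6) (nat_lit 9321754104),
  Rx.mk (nat_lit 310) (nat_lit 6) (nat_lit 6) (nat_lit 4) (nat_lit 3) (nat_lit 18) (nat_lit 53) r4_18 r1_53 (nat_lit 0) (nat_lit 0) (nat_lit 0) (nat_lit 0x7dd783e9ea) (nat_lit 1059332040),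
  Rx.mk (nat_lit 402) (nat_lit 2) (nat_lit 2) (nat_lit 6) (nat_lit 7) (nat_lit 13) (nat_lit 57) r4_13 r1_57 (nat_lit 0) (nat_lit 0) (nat_lit 0) (nat_lit 0x7df4fbd24e) (nat_lit 1002829464),
  Rx.mk (nat_lit 406) (nat_lit 6) (nat_lit 2) (nat_lit 6) (nat_lit 7) (nat_lit 15) (nat_lit 56) r4_15 r1_56 (nat_lit 0) (nat_lit 0) (nat_lit 0) (nat_lit 0x7e11b186d6) (nat_lit 947781432),
  Rx.mk (nat_lit 500) (nat_lit 4) (nat_lit 6) (nat_lit 7) (nat_lit 6) (nat_lit 17) (nat_lit 51) r4_17 r1_51 (nat_lit 0) (nat_lit 0) (nat_lit 0) (nat_lit 0x7e22f55288) (nat_lit 914677920),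
  Rx.mk (nat_lit 502) (nat_lit 6) (nat_lit 6) (nat_lit 7) (nat_lit 7) (nat_lit 19) (nat_lit 54) r4_19 r1_54 (nat_lit 0) (nat_lit 0) (nat_lit 0) (nat_lit 0x7e01526cd8) (nat_lit 979172064),
  Rx.mk (nat_lit 503) (nat_lit 7) (nat_lit 6) (nat_lit 7) (nat_lit 7) (nat_lit 20) (nat_lit 52) r4_20 r1_52 (nat_lit 0) (nat_lit 0) (nat_lit 0) (nat_lit 0x7eccb0762c) (nat_lit 589236336)]
noncomputable def e8_8 : List Rx := [
  Rx.mk (nat_lit 59) (nat_lit 3) (nat_lit 7) (nat_lit 0) (nat_lit 3) (nat_lit 54) (nat_lit 42) r4_54 r4_42 (nat_lit 0) (nat_lit 0) (nat_lit 0) (nat_lit 0x729835aa0e) (nat_lit 6580101528),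
  Rx.mk (nat_lit 152) (nat_lit 0) (nat_lit 3) (nat_lit 2) (nat_lit 6) (nat_lit 45) (nat_lit 50) r4_45 r4_50 (nat_lit 0) (nat_lit 0) (nat_lit 0) (nat_lit 0x7fd96aa97c) (nat_lit 73979568),
  Rx.mk (nat_lit 154) (nat_lit 2) (nat_lit 3) (nat_lit 2) (nat_lit 7) (nat_lit 46) (nat_lit 53) r4_46 r4_53 (nat_lit 0) (nat_lit 0) (nat_lit 0) (nat_lit 0x79bce0783c) (nat_lit 3073822128),
  Rx.mk (nat_lit 155) (nat_lit 3) (nat_lit 3) (nat_lit 2) (nat_lit 7) (nat_lit 48) (nat_lit 51) r4_48 r4_51 (nat_lit 0) (nat_lit 0) (nat_lit 0) (nat_lit 0x7ea89e1776) (nat_lit 658400184),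
  Rx.mk (nat_lit 187) (nat_lit 3) (nat_lit 7) (nat_lit 2) (nat_lit 7) (nat_lit 55) (nat_lit 44) r4_55 r4_44 (nat_lit 0) (nat_lit 0) (nat_lit 0) (nat_lit 0x7df36e0b2c) (nat_lit 1005808752),
  Rx.mk (nat_lit 231) (nat_lit 7) (nat_lit 4) (nat_lit 3) (nat_lit 5) (nat_lit 49) (nat_lit 40) r4_49 r4_40 (nat_lit 0) (nat_lit 0) (nat_lit 0) (nat_lit 0x7fbd70c936) (nat_lit 127620792),
  Rx.mk (nat_lit 247) (nat_lit 7) (nat_lit 6) (nat_lit 3) (nat_lit 7) (nat_lit 52) (nat_lit 47) r4_52 r4_47 (nat_lit 0) (nat_lit 0) (nat_lit 0) (nat_lit 0x7de9700b16) (nat_lit 1024967736),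
  Rx.mk (nat_lit 251) (nat_lit 3) (nat_lit 7) (nat_lit 3) (nat_lit 7) (nat_lit 56) (nat_lit 43) r4_56 r4_43 (nat_lit 0) (nat_lit 0) (nat_lit 0) (nat_lit 0x7d1ac316b4) (nat_lit 1421246736),
  Rx.mk (nat_lit 255) (nat_lit 7) (nat_lit 7) (nat_lit 3) (nat_lit 7) (nat_lit 57) (nat_lit 41) r4_57 r4_41 (nat_lit 0) (nat_lit 0) (nat_lit 0) (nat_lit 0x7d5376cb40) (nat_lit 1312526592),
  Rx.mk (nat_lit 278) (nat_lit 6) (nat_lit 2) (nat_lit 4) (nat_lit 3) (nat_lit 42) (nat_lit 54) r4_42 r4_54 (nat_lit 0) (nat_lit 0) (nat_lit 0) (nat_lit 0x729835aa0e) (nat_lit 6580101528),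
  Rx.mk (nat_lit 386) (nat_lit 2) (nat_lit 0) (nat_lit 6) (nat_lit 5) (nat_lit 40) (nat_lit 49) r4_40 r4_49 (nat_lit 0) (nat_lit 0) (nat_lit 0) (nat_lit 0x7fbd70c936) (nat_lit 127620792),
  Rx.mk (nat_lit 402) (nat_lit 2) (nat_lit 2) (nat_lit 6) (nat_lit 7) (nat_lit 41) (nat_lit 57) r4_41 r4_57 (nat_lit 0) (nat_lit 0) (nat_lit 0) (nat_lit 0x7d5376cb40) (nat_lit 1312526592),
  Rx.mk (nat_lit 406) (nat_lit 6) (nat_lit 2) (nat_lit 6) (nat_lit 7) (nat_lit 43) (nat_lit 56) r4_43 r4_56 (nat_lit 0) (nat_lit 0) (nat_lit 0) (nat_lit 0x7d1ac316b4) (nat_lit 1421246736),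
  Rx.mk (nat_lit 410) (nat_lit 2) (nat_lit 3) (nat_lit 6) (nat_lit 7) (nat_lit 47) (nat_lit 52) r4_47 r4_52 (nat_lit 0) (nat_lit 0) (nat_lit 0) (nat_lit 0x7de9700b16) (nat_lit 1024967736),
  Rx.mk (nat_lit 470) (nat_lit 6) (nat_lit 2) (nat_lit 7) (nat_lit 7) (nat_lit 44) (nat_lit 55) r4_44 r4_55 (nat_lit 0) (nat_lit 0) (nat_lit 0) (nat_lit 0x7df36e0b2c) (nat_lit 1005808752),
  Rx.mk (nat_lit 500) (nat_lit 4) (nat_lit 6) (nat_lit 7) (nat_lit 6) (nat_lit 50) (nat_lit 45) r4_50 r4_45 (nat_lit 0) (nat_lit 0) (nat_lit 0) (nat_lit 0x7fd96aa97c) (nat_lit 73979568),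
  Rx.mk (nat_lit 502) (nat_lit 6) (nat_lit 6) (nat_lit 7) (nat_lit 7) (nat_lit 51) (nat_lit 48) r4_51 r4_48 (nat_lit 0) (nat_lit 0) (nat_lit 0) (nat_lit 0x7ea89e1776) (nat_lit 658400184),
  Rx.mk (nat_lit 503) (nat_lit 7) (nat_lit 6) (nat_lit 7) (nat_lit 7) (nat_lit 53) (nat_lit 46) r4_53 r4_46 (nat_lit 0) (nat_lit 0) (nat_lit 0) (nat_lit 0x79bce0783c) (nat_lit 3073822128)]
noncomputable def e8_9 : List Rx := [
  Rx.mk (nat_lit 39) (nat_lit 7) (nat_lit 4) (nat_lit 0) (nat_lit 1) (nat_lit 78) (nat_lit 62) r4_78 r5_62 (nat_lit 0) (nat_lit 0) (nat_lit 0) (nat_lit 0x73b85e8660) (nat_lit 6027585408),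
  Rx.mk (nat_lit 55) (nat_lit 7) (nat_lit 6) (nat_lit 0) (nat_lit 3) (nat_lit 81) (nat_lit 67) r4_81 r5_67 (nat_lit 0) (nat_lit 0) (nat_lit 0) (nat_lit 0x725645c94e) (nat_lit 6706528920),
  Rx.mk (nat_lit 59) (nat_lit 3) (nat_lit 7) (nat_lit 0) (nat_lit 3) (nat_lit 84) (nat_lit 59) r4_84 r5_59 (nat_lit 0) (nat_lit 0) (nat_lit 0) (nat_lit 0x7e271210b8) (nat_lit 906793056),
  Rx.mk (nat_lit 63) (nat_lit 7) (nat_lit 7) (nat_lit 0) (nat_lit 3) (nat_lit 87) (nat_lit 65) r4_87 r5_65 (nat_lit 0) (nat_lit 0) (nat_lit 0) (nat_lit 0x7dc900f228) (nat_lit 1087156512),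
  Rx.mk (nat_lit 103) (nat_lit 7) (nat_lit 4) (nat_lit 1) (nat_lit 5) (nat_lit 79) (nat_lit 63) r4_79 r5_63 (nat_lit 0) (nat_lit 0) (nat_lit 0) (nat_lit 0x7e786b1ad6) (nat_lit 750817080),
  Rx.mk (nat_lit 119) (nat_lit 7) (nat_lit 6) (nat_lit 1) (nat_lit 7) (nat_lit 82) (nat_lit 68) r4_82 r5_68 (nat_lit 0) (nat_lit 0) (nat_lit 0) (nat_lit 0x7efcc334d0) (nat_lit 497060928),
  Rx.mk (nat_lit 123) (nat_lit 3) (nat_lit 7) (nat_lit 1) (nat_lit 7) (nat_lit 85) (nat_lit 60) r4_85 r5_60 (nat_lit 0) (nat_lit 0) (nat_lit 0) (nat_lit 0x7e3b9e07e4) (nat_lit 867396816),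
  Rx.mk (nat_lit 127) (nat_lit 7) (nat_lit 7) (nat_lit 1) (nat_lit 7) (nat_lit 88) (nat_lit 66) r4_88 r5_66 (nat_lit 0) (nat_lit 0) (nat_lit 0) (nat_lit 0x7dda26bfba) (nat_lit 1054277640),
  Rx.mk (nat_lit 187) (nat_lit 3) (nat_lit 7) (nat_lit 2) (nat_lit 7) (nat_lit 86) (nat_lit 61) r4_86 r5_61 (nat_lit 0) (nat_lit 0) (nat_lit 0) (nat_lit 0x7e2a2b5f20) (nat_lit 900851328),
  Rx.mk (nat_lit 231) (nat_lit 7) (nat_lit 4) (nat_lit 3) (nat_lit 5) (nat_lit 80) (nat_lit 64) r4_80 r5_64 (nat_lit 0) (nat_lit 0) (nat_lit 0) (nat_lit 0x7cf80582b0) (nat_lit 1487858112),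
  Rx.mk (nat_lit 247) (nat_lit 7) (nat_lit 6) (nat_lit 3) (nat_lit 7) (nat_lit 83) (nat_lit 69) r4_83 r5_69 (nat_lit 0) (nat_lit 0) (nat_lit 0) (nat_lit 0x7ee231fdfe) (nat_lit 548000856)]
noncomputable def e8_10 : List Rx := [
  Rx.mk (nat_lit 100) (nat_lit 4) (nat_lit 4) (nat_lit 1) (nat_lit 4) (nat_lit 155) (nat_lit 317) r4_155 r0_317 (nat_lit 0) (nat_lit 0) (nat_lit 0) (nat_lit 0x6ef1331dde) (nat_lit 8372885976),
  Rx.mk (nat_lit 101) (nat_lit 5) (nat_lit 4) (nat_lit 1) (nat_lit 5) (nat_lit 156) (nat_lit 318) r4_156 r0_318 (nat_lit 0) (nat_lit 0) (nat_lit 0) (nat_lit 0x7d38edd3ea) (nat_lit 1363404744),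
  Rx.mk (nat_lit 116) (nat_lit 4) (nat_lit 6) (nat_lit 1) (nat_lit 6) (nat_lit 157) (nat_lit 319) r4_157 r0_319 (nat_lit 0) (nat_lit 0) (nat_lit 0) (nat_lit 0x76db4494dc) (nat_lit 4488110640),
  Rx.mk (nat_lit 117) (nat_lit 5) (nat_lit 6) (nat_lit 1) (nat_lit 7) (nat_lit 158) (nat_lit 320) r4_158 r0_320 (nat_lit 0) (nat_lit 0) (nat_lit 0) (nat_lit 0x7ece365dcc) (nat_lit 586316016)]
noncomputable def e8_11 : List Rx := [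
  Rx.mk (nat_lit 100) (nat_lit 4) (nat_lit 4) (nat_lit 1) (nat_lit 4) (nat_lit 167) (nat_lit 71) r4_167 r6_71 (nat_lit 0) (nat_lit 0) (nat_lit 0) (nat_lit 0x6ce30222fc) (nat_lit 9381803184),
  Rx.mk (nat_lit 101) (nat_lit 5) (nat_lit 4) (nat_lit 1) (nat_lit 5) (nat_lit 168) (nat_lit 74) r4_168 r6_74 (nat_lit 0) (nat_lit 0) (nat_lit 0) (nat_lit 0x7cb6e0d53c) (nat_lit 1612763568),
  Rx.mk (nat_lit 116) (nat_lit 4) (nat_lit 6) (nat_lit 1) (nat_lit 6) (nat_lit 169) (nat_lit 72) r4_169 r6_72 (nat_lit 0) (nat_lit 0) (nat_lit 0) (nat_lit 0x7e5529ef0c) (nat_lit 818414064),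
  Rx.mk (nat_lit 117) (nat_lit 5) (nat_lit 6) (nat_lit 1) (nat_lit 7) (nat_lit 171) (nat_lit 75) r4_171 r6_75 (nat_lit 0) (nat_lit 0) (nat_lit 0) (nat_lit 0x7e5e361e40) (nat_lit 801066240),
  Rx.mk (nat_lit 372) (nat_lit 4) (nat_lit 6) (nat_lit 5) (nat_lit 6) (nat_lit 170) (nat_lit 73) r4_170 r6_73 (nat_lit 0) (nat_lit 0) (nat_lit 0) (nat_lit 0x7e444b5d06) (nat_lit 850759416),
  Rx.mk (nat_lit 373) (nat_lit 5) (nat_lit 6) (nat_lit 5) (nat_lit 7) (nat_lit 172) (nat_lit 76) r4_172 r6_76 (nat_lit 0) (nat_lit 0) (nat_lit 0) (nat_lit 0x7df13cce42) (nat_lit 1010012328),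
  Rx.mk (nat_lit 375) (nat_lit 7) (nat_lit 6) (nat_lit 5) (nat_lit 7) (nat_lit 173) (nat_lit 77) r4_173 r6_77 (nat_lit 0) (nat_lit 0) (nat_lit 0) (nat_lit 0x7dcf6e0b50) (nat_lit 1074835008)]
noncomputable def e8_12 : List Rx := [
  Rx.mk (nat_lit 101) (nat_lit 5) (nat_lit 4) (nat_lit 1) (nat_lit 5) (nat_lit 159) (nat_lit 304) r4_159 r1_304 (nat_lit 0) (nat_lit 0) (nat_lit 0) (nat_lit 0x7e188df908) (nat_lit 934625952),
  Rx.mk (nat_lit 117) (nat_lit 5) (nat_lit 6) (nat_lit 1) (nat_lit 7) (nat_lit 160) (nat_lit 305) r4_160 r1_305 (nat_lit 0) (nat_lit 0) (nat_lit 0) (nat_lit 0x7e535d2bda) (nat_lit 821865096)]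
noncomputable def e8_13 : List Rx := [
  Rx.mk (nat_lit 101) (nat_lit 5) (nat_lit 4) (nat_lit 1) (nat_lit 5) (nat_lit 174) (nat_lit 68) r4_174 r7_68 (nat_lit 0) (nat_lit 0) (nat_lit 0) (nat_lit 0x7d8ece758a) (nat_lit 1198743624),
  Rx.mk (nat_lit 117) (nat_lit 5) (nat_lit 6) (nat_lit 1) (nat_lit 7) (nat_lit 175) (nat_lit 69) r4_175 r7_69 (nat_lit 0) (nat_lit 0) (nat_lit 0) (nat_lit 0x7e35a76754) (nat_lit 878830992),
  Rx.mk (nat_lit 373) (nat_lit 5) (nat_lit 6) (nat_lit 5) (nat_lit 7) (nat_lit 176) (nat_lit 70) r4_176 r7_70 (nat_lit 0) (nat_lit 0) (nat_lit 0) (nat_lit 0x7ddc8799aa) (nat_lit 1049717448)]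
noncomputable def e8_14 : List Rx := [
  Rx.mk (nat_lit 372) (nat_lit 4) (nat_lit 6) (nat_lit 5) (nat_lit 6) (nat_lit 177) (nat_lit 351) r4_177 r7_351 (nat_lit 0) (nat_lit 0) (nat_lit 0) (nat_lit 0x7dec271fa2) (nat_lit 1019761704),
  Rx.mk (nat_lit 373) (nat_lit 5) (nat_lit 6) (nat_lit 5) (nat_lit 7) (nat_lit 178) (nat_lit 352) r4_178 r7_352 (nat_lit 0) (nat_lit 0) (nat_lit 0) (nat_lit 0x7de75b4c64) (nat_lit 1028957904),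
  Rx.mk (nat_lit 374) (nat_lit 6) (nat_lit 6) (nat_lit 5) (nat_lit 7) (nat_lit 179) (nat_lit 354) r4_179 r7_354 (nat_lit 0) (nat_lit 0) (nat_lit 0) (nat_lit 0x7ddcf03320) (nat_lit 1048934016),
  Rx.mk (nat_lit 375) (nat_lit 7) (nat_lit 6) (nat_lit 5) (nat_lit 7) (nat_lit 180) (nat_lit 353) r4_180 r7_353 (nat_lit 0) (nat_lit 0) (nat_lit 0) (nat_lit 0x7de78789a0) (nat_lit 1028626560)]
noncomputable def e8_15 : List Rx := [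
  Rx.mk (nat_lit 278) (nat_lit 6) (nat_lit 2) (nat_lit 4) (nat_lit 3) (nat_lit 144) (nat_lit 56) r4_144 r8_56 (nat_lit 0) (nat_lit 0) (nat_lit 0) (nat_lit 0x7db61d007a) (nat_lit 1123376904),
  Rx.mk (nat_lit 308) (nat_lit 4) (nat_lit 6) (nat_lit 4) (nat_lit 2) (nat_lit 147) (nat_lit 50) r4_147 r8_50 (nat_lit 0) (nat_lit 0) (nat_lit 0) (nat_lit 0x6c5214126e) (nat_lit 9659691288),
  Rx.mk (nat_lit 310) (nat_lit 6) (nat_lit 6) (nat_lit 4) (nat_lit 3) (nat_lit 150) (nat_lit 59) r4_150 r8_59 (nat_lit 0) (nat_lit 0) (nat_lit 0) (nat_lit 0x7dc71c9070) (nat_lit 1090784448),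
  Rx.mk (nat_lit 311) (nat_lit 7) (nat_lit 6) (nat_lit 4) (nat_lit 3) (nat_lit 152) (nat_lit 53) r4_152 r8_53 (nat_lit 0) (nat_lit 0) (nat_lit 0) (nat_lit 0x7ddbcbc568) (nat_lit 1051124256),
  Rx.mk (nat_lit 342) (nat_lit 6) (nat_lit 2) (nat_lit 5) (nat_lit 7) (nat_lit 145) (nat_lit 57) r4_145 r8_57 (nat_lit 0) (nat_lit 0) (nat_lit 0) (nat_lit 0x7dde50fd12) (nat_lit 1046291688),
  Rx.mk (nat_lit 372) (nat_lit 4) (nat_lit 6) (nat_lit 5) (nat_lit 6) (nat_lit 148) (nat_lit 51) r4_148 r8_51 (nat_lit 0) (nat_lit 0) (nat_lit 0) (nat_lit 0x7dc4b916aa) (nat_lit 1095364296),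
  Rx.mk (nat_lit 373) (nat_lit 5) (nat_lit 6) (nat_lit 5) (nat_lit 7) (nat_lit 149) (nat_lit 52) r4_149 r8_52 (nat_lit 0) (nat_lit 0) (nat_lit 0) (nat_lit 0x7df5dd2438) (nat_lit 1001141856),
  Rx.mk (nat_lit 374) (nat_lit 6) (nat_lit 6) (nat_lit 5) (nat_lit 7) (nat_lit 151) (nat_lit 60) r4_151 r8_60 (nat_lit 0) (nat_lit 0) (nat_lit 0) (nat_lit 0x7df5b98672) (nat_lit 1001408616),
  Rx.mk (nat_lit 375) (nat_lit 7) (nat_lit 6) (nat_lit 5) (nat_lit 7) (nat_lit 153) (nat_lit 54) r4_153 r8_54 (nat_lit 0) (nat_lit 0) (nat_lit 0) (nat_lit 0x7de39ca852) (nat_lit 1036137960),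
  Rx.mk (nat_lit 406) (nat_lit 6) (nat_lit 2) (nat_lit 6) (nat_lit 7) (nat_lit 146) (nat_lit 58) r4_146 r8_58 (nat_lit 0) (nat_lit 0) (nat_lit 0) (nat_lit 0x7de458dc8e) (nat_lit 1034728344),
  Rx.mk (nat_lit 503) (nat_lit 7) (nat_lit 6) (nat_lit 7) (nat_lit 7) (nat_lit 154) (nat_lit 55) r4_154 r8_55 (nat_lit 0) (nat_lit 0) (nat_lit 0) (nat_lit 0x7df7378e90) (nat_lit 998547264)]
noncomputable def e8_16 : List Rx := [
  Rx.mk (nat_lit 100) (nat_lit 4) (nat_lit 4) (nat_lit 1) (nat_lit 4) (nat_lit 161) (nat_lit 349) r4_161 r4_349 (nat_lit 0) (nat_lit 0) (nat_lit 0) (nat_lit 0x73692e19b6) (nat_lit 6179422392),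
  Rx.mk (nat_lit 101) (nat_lit 5) (nat_lit 4) (nat_lit 1) (nat_lit 5) (nat_lit 162) (nat_lit 350) r4_162 r4_350 (nat_lit 0) (nat_lit 0) (nat_lit 0) (nat_lit 0x7e146cbb20) (nat_lit 942544512),
  Rx.mk (nat_lit 103) (nat_lit 7) (nat_lit 4) (nat_lit 1) (nat_lit 5) (nat_lit 163) (nat_lit 351) r4_163 r4_351 (nat_lit 0) (nat_lit 0) (nat_lit 0) (nat_lit 0x7e740fc090) (nat_lit 759170880),
  Rx.mk (nat_lit 116) (nat_lit 4) (nat_lit 6) (nat_lit 1) (nat_lit 6) (nat_lit 164) (nat_lit 352) r4_164 r4_352 (nat_lit 0) (nat_lit 0) (nat_lit 0) (nat_lit 0x7e9dbce594) (nat_lit 679260816),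
  Rx.mk (nat_lit 117) (nat_lit 5) (nat_lit 6) (nat_lit 1) (nat_lit 7) (nat_lit 165) (nat_lit 353) r4_165 r4_353 (nat_lit 0) (nat_lit 0) (nat_lit 0) (nat_lit 0x7e61448d56) (nat_lit 795205944),
  Rx.mk (nat_lit 119) (nat_lit 7) (nat_lit 6) (nat_lit 1) (nat_lit 7) (nat_lit 166) (nat_lit 354) r4_166 r4_354 (nat_lit 0) (nat_lit 0) (nat_lit 0) (nat_lit 0x7e69115082) (nat_lit 780250536)]
noncomputable def e8_17 : List Rx := [
  Rx.mk (nat_lit 100) (nat_lit 4) (nat_lit 4) (nat_lit 1) (nat_lit 4) (nat_lit 181) (nat_lit 52) r4_181 r9_52 (nat_lit 0) (nat_lit 0) (nat_lit 0) (nat_lit 0x6d142270c6) (nat_lit 9287608824),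
  Rx.mk (nat_lit 101) (nat_lit 5) (nat_lit 4) (nat_lit 1) (nat_lit 5) (nat_lit 182) (nat_lit 54) r4_182 r9_54 (nat_lit 0) (nat_lit 0) (nat_lit 0) (nat_lit 0x7d99734b32) (nat_lit 1178335080),
  Rx.mk (nat_lit 103) (nat_lit 7) (nat_lit 4) (nat_lit 1) (nat_lit 5) (nat_lit 183) (nat_lit 56) r4_183 r9_56 (nat_lit 0) (nat_lit 0) (nat_lit 0) (nat_lit 0x7cf5efa410) (nat_lit 1491856704),
  Rx.mk (nat_lit 116) (nat_lit 4) (nat_lit 6) (nat_lit 1) (nat_lit 6) (nat_lit 184) (nat_lit 53) r4_184 r9_53 (nat_lit 0) (nat_lit 0) (nat_lit 0) (nat_lit 0x7db5be2668) (nat_lit 1124087328),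
  Rx.mk (nat_lit 117) (nat_lit 5) (nat_lit 6) (nat_lit 1) (nat_lit 7) (nat_lit 185) (nat_lit 55) r4_185 r9_55 (nat_lit 0) (nat_lit 0) (nat_lit 0) (nat_lit 0x7e4eb4f662) (nat_lit 830794536),
  Rx.mk (nat_lit 119) (nat_lit 7) (nat_lit 6) (nat_lit 1) (nat_lit 7) (nat_lit 186) (nat_lit 57) r4_186 r9_57 (nat_lit 0) (nat_lit 0) (nat_lit 0) (nat_lit 0x7e49616ba0) (nat_lit 841007232),
  Rx.mk (nat_lit 375) (nat_lit 7) (nat_lit 6) (nat_lit 5) (nat_lit 7) (nat_lit 187) (nat_lit 58) r4_187 r9_58 (nat_lit 0) (nat_lit 0) (nat_lit 0) (nat_lit 0x7de10331ec) (nat_lit 1041122160)]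
noncomputable def e8_18 : List Rx := [
  Rx.mk (nat_lit 100) (nat_lit 4) (nat_lit 4) (nat_lit 1) (nat_lit 4) (nat_lit 188) (nat_lit 46) r4_188 r10_46 (nat_lit 0) (nat_lit 0) (nat_lit 0) (nat_lit 0x7d74889a02) (nat_lit 1249119144),
  Rx.mk (nat_lit 101) (nat_lit 5) (nat_lit 4) (nat_lit 1) (nat_lit 5) (nat_lit 189) (nat_lit 48) r4_189 r10_48 (nat_lit 0) (nat_lit 0) (nat_lit 0) (nat_lit 0x7de345adc2) (nat_lit 1036789416),
  Rx.mk (nat_lit 103) (nat_lit 7) (nat_lit 4) (nat_lit 1) (nat_lit 5) (nat_lit 190) (nat_lit 50) r4_190 r10_50 (nat_lit 0) (nat_lit 0) (nat_lit 0) (nat_lit 0x7df171aaf4) (nat_lit 1009616400),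
  Rx.mk (nat_lit 116) (nat_lit 4) (nat_lit 6) (nat_lit 1) (nat_lit 6) (nat_lit 191) (nat_lit 47) r4_191 r10_47 (nat_lit 0) (nat_lit 0) (nat_lit 0) (nat_lit 0x7e25a6c76e) (nat_lit 909514008),
  Rx.mk (nat_lit 117) (nat_lit 5) (nat_lit 6) (nat_lit 1) (nat_lit 7) (nat_lit 192) (nat_lit 49) r4_192 r10_49 (nat_lit 0) (nat_lit 0) (nat_lit 0) (nat_lit 0x7df971caea) (nat_lit 994276296),
  Rx.mk (nat_lit 119) (nat_lit 7) (nat_lit 6) (nat_lit 1) (nat_lit 7) (nat_lit 193) (nat_lit 52) r4_193 r10_52 (nat_lit 0) (nat_lit 0) (nat_lit 0) (nat_lit 0x7df8e77390) (nat_lit 995312448),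
  Rx.mk (nat_lit 127) (nat_lit 7) (nat_lit 7) (nat_lit 1) (nat_lit 7) (nat_lit 194) (nat_lit 51) r4_194 r10_51 (nat_lit 0) (nat_lit 0) (nat_lit 0) (nat_lit 0x7e002a9f56) (nat_lit 981387576)]
noncomputable def e8_19 : List Rx := [
  Rx.mk (nat_lit 278) (nat_lit 6) (nat_lit 2) (nat_lit 4) (nat_lit 3) (nat_lit 128) (nat_lit 15) r4_128 r8_15 (nat_lit 0) (nat_lit 0) (nat_lit 0) (nat_lit 0x7de2b8b692) (nat_lit 1037845224),
  Rx.mk (nat_lit 342) (nat_lit 6) (nat_lit 2) (nat_lit 5) (nat_lit 7) (nat_lit 129) (nat_lit 16) r4_129 r8_16 (nat_lit 0) (nat_lit 0) (nat_lit 0) (nat_lit 0x7df79428c6) (nat_lit 997853688),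
  Rx.mk (nat_lit 406) (nat_lit 6) (nat_lit 2) (nat_lit 6) (nat_lit 7) (nat_lit 130) (nat_lit 17) r4_130 r8_17 (nat_lit 0) (nat_lit 0) (nat_lit 0) (nat_lit 0x7dd77c6a62) (nat_lit 1059388200)]
noncomputable def e8_20 : List Rx := [
  Rx.mk (nat_lit 128) (nat_lit 0) (nat_lit 0) (nat_lit 2) (nat_lit 4) (nat_lit 93) (nat_lit 142) r4_93 r0_142 (nat_lit 0) (nat_lit 0) (nat_lit 0) (nat_lit 0x71b7297bb2) (nat_lit 7011606888),
  Rx.mk (nat_lit 130) (nat_lit 2) (nat_lit 0) (nat_lit 2) (nat_lit 5) (nat_lit 94) (nat_lit 145) r4_94 r0_145 (nat_lit 0) (nat_lit 0) (nat_lit 0) (nat_lit 0x7bb2a1ba32) (nat_lit 2111759208),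
  Rx.mk (nat_lit 152) (nat_lit 0) (nat_lit 3) (nat_lit 2) (nat_lit 6) (nat_lit 95) (nat_lit 143) r4_95 r0_143 (nat_lit 0) (nat_lit 0) (nat_lit 0) (nat_lit 0x7ac67fdd3c) (nat_lit 2564518320),
  Rx.mk (nat_lit 154) (nat_lit 2) (nat_lit 3) (nat_lit 2) (nat_lit 7) (nat_lit 96) (nat_lit 146) r4_96 r0_146 (nat_lit 0) (nat_lit 0) (nat_lit 0) (nat_lit 0x7e2f4f4cdc) (nat_lit 890995248),
  Rx.mk (nat_lit 155) (nat_lit 3) (nat_lit 3) (nat_lit 2) (nat_lit 7) (nat_lit 97) (nat_lit 144) r4_97 r0_144 (nat_lit 0) (nat_lit 0) (nat_lit 0) (nat_lit 0x7d94351f1a) (nat_lit 1188387720)]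
noncomputable def e8_21 : List Rx := [
  Rx.mk (nat_lit 128) (nat_lit 0) (nat_lit 0) (nat_lit 2) (nat_lit 4) (nat_lit 107) (nat_lit 154) r4_107 r1_154 (nat_lit 0) (nat_lit 0) (nat_lit 0) (nat_lit 0x74634ad6f0) (nat_lit 5699858112),
  Rx.mk (nat_lit 130) (nat_lit 2) (nat_lit 0) (nat_lit 2) (nat_lit 5) (nat_lit 108) (nat_lit 158) r4_108 r1_158 (nat_lit 0) (nat_lit 0) (nat_lit 0) (nat_lit 0x727dbfd186) (nat_lit 6630836472),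
  Rx.mk (nat_lit 136) (nat_lit 0) (nat_lit 1) (nat_lit 2) (nat_lit 6) (nat_lit 109) (nat_lit 155) r4_109 r1_155 (nat_lit 0) (nat_lit 0) (nat_lit 0) (nat_lit 0x7dc2547cf6) (nat_lit 1099952568),
  Rx.mk (nat_lit 138) (nat_lit 2) (nat_lit 1) (nat_lit 2) (nat_lit 7) (nat_lit 110) (nat_lit 159) r4_110 r1_159 (nat_lit 0) (nat_lit 0) (nat_lit 0) (nat_lit 0x7dbbbc4680) (nat_lit 1112596992),
  Rx.mk (nat_lit 152) (nat_lit 0) (nat_lit 3) (nat_lit 2) (nat_lit 6) (nat_lit 111) (nat_lit 156) r4_111 r1_156 (nat_lit 0) (nat_lit 0) (nat_lit 0) (nat_lit 0x7e11d58496) (nat_lit 947511864),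
  Rx.mk (nat_lit 154) (nat_lit 2) (nat_lit 3) (nat_lit 2) (nat_lit 7) (nat_lit 112) (nat_lit 160) r4_112 r1_160 (nat_lit 0) (nat_lit 0) (nat_lit 0) (nat_lit 0x7dbe303f3e) (nat_lit 1107893592),
  Rx.mk (nat_lit 155) (nat_lit 3) (nat_lit 3) (nat_lit 2) (nat_lit 7) (nat_lit 113) (nat_lit 157) r4_113 r1_157 (nat_lit 0) (nat_lit 0) (nat_lit 0) (nat_lit 0x7df3f3e2ce) (nat_lit 1004806296)]
noncomputable def e8_22 : List Rx := [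
  Rx.mk (nat_lit 152) (nat_lit 0) (nat_lit 3) (nat_lit 2) (nat_lit 6) (nat_lit 131) (nat_lit 131) r4_131 r4_131 (nat_lit 0) (nat_lit 0) (nat_lit 0) (nat_lit 0x7e4c631b82) (nat_lit 835242408),
  Rx.mk (nat_lit 154) (nat_lit 2) (nat_lit 3) (nat_lit 2) (nat_lit 7) (nat_lit 132) (nat_lit 133) r4_132 r4_133 (nat_lit 0) (nat_lit 0) (nat_lit 0) (nat_lit 0x7e1048dd62) (nat_lit 950482728),
  Rx.mk (nat_lit 155) (nat_lit 3) (nat_lit 3) (nat_lit 2) (nat_lit 7) (nat_lit 133) (nat_lit 132) r4_133 r4_132 (nat_lit 0) (nat_lit 0) (nat_lit 0) (nat_lit 0x7e1048dd62) (nat_lit 950482728)]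
noncomputable def e8_23 : List Rx := [
  Rx.mk (nat_lit 128) (nat_lit 0) (nat_lit 0) (nat_lit 2) (nat_lit 4) (nat_lit 98) (nat_lit 39) r4_98 r6_39 (nat_lit 0) (nat_lit 0) (nat_lit 0) (nat_lit 0x666c24b74a) (nat_lit 12554834760),
  Rx.mk (nat_lit 130) (nat_lit 2) (nat_lit 0) (nat_lit 2) (nat_lit 5) (nat_lit 99) (nat_lit 41) r4_99 r6_41 (nat_lit 0) (nat_lit 0) (nat_lit 0) (nat_lit 0x7e8603014a) (nat_lit 724753224),
  Rx.mk (nat_lit 152) (nat_lit 0) (nat_lit 3) (nat_lit 2) (nat_lit 6) (nat_lit 104) (nat_lit 42) r4_104 r6_42 (nat_lit 0) (nat_lit 0) (nat_lit 0) (nat_lit 0x7d86242038) (nat_lit 1215358560),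
  Rx.mk (nat_lit 154) (nat_lit 2) (nat_lit 3) (nat_lit 2) (nat_lit 7) (nat_lit 105) (nat_lit 44) r4_105 r6_44 (nat_lit 0) (nat_lit 0) (nat_lit 0) (nat_lit 0x7e6a93d858) (nat_lit 777355488),
  Rx.mk (nat_lit 155) (nat_lit 3) (nat_lit 3) (nat_lit 2) (nat_lit 7) (nat_lit 106) (nat_lit 43) r4_106 r6_43 (nat_lit 0) (nat_lit 0) (nat_lit 0) (nat_lit 0x7df79428c6) (nat_lit 997853688),
  Rx.mk (nat_lit 278) (nat_lit 6) (nat_lit 2) (nat_lit 4) (nat_lit 3) (nat_lit 102) (nat_lit 45) r4_102 r6_45 (nat_lit 0) (nat_lit 0) (nat_lit 0) (nat_lit 0x7e14d85466) (nat_lit 941738616),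
  Rx.mk (nat_lit 386) (nat_lit 2) (nat_lit 0) (nat_lit 6) (nat_lit 5) (nat_lit 100) (nat_lit 40) r4_100 r6_40 (nat_lit 0) (nat_lit 0) (nat_lit 0) (nat_lit 0x7dd0537cf8) (nat_lit 1073116512),
  Rx.mk (nat_lit 402) (nat_lit 2) (nat_lit 2) (nat_lit 6) (nat_lit 7) (nat_lit 101) (nat_lit 47) r4_101 r6_47 (nat_lit 0) (nat_lit 0) (nat_lit 0) (nat_lit 0x7df1d384d6) (nat_lit 1008883512),
  Rx.mk (nat_lit 406) (nat_lit 6) (nat_lit 2) (nat_lit 6) (nat_lit 7) (nat_lit 103) (nat_lit 46) r4_103 r6_46 (nat_lit 0) (nat_lit 0) (nat_lit 0) (nat_lit 0x7dd10471e8) (nat_lit 1071791136)]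
noncomputable def e8_24 : List Rx := [
  Rx.mk (nat_lit 128) (nat_lit 0) (nat_lit 0) (nat_lit 2) (nat_lit 4) (nat_lit 114) (nat_lit 47) r4_114 r7_47 (nat_lit 0) (nat_lit 0) (nat_lit 0) (nat_lit 0x754e23e874) (nat_lit 5249561616),
  Rx.mk (nat_lit 130) (nat_lit 2) (nat_lit 0) (nat_lit 2) (nat_lit 5) (nat_lit 115) (nat_lit 49) r4_115 r7_49 (nat_lit 0) (nat_lit 0) (nat_lit 0) (nat_lit 0x7e2a789a4c) (nat_lit 900272880),
  Rx.mk (nat_lit 136) (nat_lit 0) (nat_lit 1) (nat_lit 2) (nat_lit 6) (nat_lit 117) (nat_lit 50) r4_117 r7_50 (nat_lit 0) (nat_lit 0) (nat_lit 0) (nat_lit 0x7dd0edf350) (nat_lit 1071959616),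
  Rx.mk (nat_lit 138) (nat_lit 2) (nat_lit 1) (nat_lit 2) (nat_lit 7) (nat_lit 118) (nat_lit 52) r4_118 r7_52 (nat_lit 0) (nat_lit 0) (nat_lit 0) (nat_lit 0x7e35a4078a) (nat_lit 878856264),
  Rx.mk (nat_lit 152) (nat_lit 0) (nat_lit 3) (nat_lit 2) (nat_lit 6) (nat_lit 122) (nat_lit 53) r4_122 r7_53 (nat_lit 0) (nat_lit 0) (nat_lit 0) (nat_lit 0x7dcf55acd6) (nat_lit 1075017528),
  Rx.mk (nat_lit 154) (nat_lit 2) (nat_lit 3) (nat_lit 2) (nat_lit 7) (nat_lit 123) (nat_lit 55) r4_123 r7_55 (nat_lit 0) (nat_lit 0) (nat_lit 0) (nat_lit 0x7e28211fc6) (nat_lit 904762872),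
  Rx.mk (nat_lit 155) (nat_lit 3) (nat_lit 3) (nat_lit 2) (nat_lit 7) (nat_lit 124) (nat_lit 54) r4_124 r7_54 (nat_lit 0) (nat_lit 0) (nat_lit 0) (nat_lit 0x7dd9115112) (nat_lit 1056355560),
  Rx.mk (nat_lit 386) (nat_lit 2) (nat_lit 0) (nat_lit 6) (nat_lit 5) (nat_lit 116) (nat_lit 48) r4_116 r7_48 (nat_lit 0) (nat_lit 0) (nat_lit 0) (nat_lit 0x7da8e3f418) (nat_lit 1148730336),
  Rx.mk (nat_lit 394) (nat_lit 2) (nat_lit 1) (nat_lit 6) (nat_lit 7) (nat_lit 119) (nat_lit 51) r4_119 r7_51 (nat_lit 0) (nat_lit 0) (nat_lit 0) (nat_lit 0x7ddfec435c) (nat_lit 1043211312),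
  Rx.mk (nat_lit 402) (nat_lit 2) (nat_lit 2) (nat_lit 6) (nat_lit 7) (nat_lit 120) (nat_lit 57) r4_120 r7_57 (nat_lit 0) (nat_lit 0) (nat_lit 0) (nat_lit 0x7de493b8e0) (nat_lit 1034287488),
  Rx.mk (nat_lit 406) (nat_lit 6) (nat_lit 2) (nat_lit 6) (nat_lit 7) (nat_lit 121) (nat_lit 56) r4_121 r7_56 (nat_lit 0) (nat_lit 0) (nat_lit 0) (nat_lit 0x7df910b0fc) (nat_lit 995003568)]
noncomputable def e8_25 : List Rx := [
  Rx.mk (nat_lit 278) (nat_lit 6) (nat_lit 2) (nat_lit 4) (nat_lit 3) (nat_lit 126) (nat_lit 146) r4_126 r7_146 (nat_lit 0) (nat_lit 0) (nat_lit 0) (nat_lit 0x7dc32eaf52) (nat_lit 1098318312),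
  Rx.mk (nat_lit 402) (nat_lit 2) (nat_lit 2) (nat_lit 6) (nat_lit 7) (nat_lit 125) (nat_lit 147) r4_125 r7_147 (nat_lit 0) (nat_lit 0) (nat_lit 0) (nat_lit 0x7dca705b30) (nat_lit 1084404672),
  Rx.mk (nat_lit 406) (nat_lit 6) (nat_lit 2) (nat_lit 6) (nat_lit 7) (nat_lit 127) (nat_lit 148) r4_127 r7_148 (nat_lit 0) (nat_lit 0) (nat_lit 0) (nat_lit 0x7dedaca748) (nat_lit 1016844192)]
noncomputable def e8_26 : List Rx := [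
  Rx.mk (nat_lit 152) (nat_lit 0) (nat_lit 3) (nat_lit 2) (nat_lit 6) (nat_lit 139) (nat_lit 24) r4_139 r9_24 (nat_lit 0) (nat_lit 0) (nat_lit 0) (nat_lit 0x7afc995b6e) (nat_lit 2460787992),
  Rx.mk (nat_lit 154) (nat_lit 2) (nat_lit 3) (nat_lit 2) (nat_lit 7) (nat_lit 140) (nat_lit 27) r4_140 r9_27 (nat_lit 0) (nat_lit 0) (nat_lit 0) (nat_lit 0x7e4a4f1cc4) (nat_lit 839226960),
  Rx.mk (nat_lit 155) (nat_lit 3) (nat_lit 3) (nat_lit 2) (nat_lit 7) (nat_lit 142) (nat_lit 25) r4_142 r9_25 (nat_lit 0) (nat_lit 0) (nat_lit 0) (nat_lit 0x7db07b1a9e) (nat_lit 1134176472),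
  Rx.mk (nat_lit 278) (nat_lit 6) (nat_lit 2) (nat_lit 4) (nat_lit 3) (nat_lit 136) (nat_lit 28) r4_136 r9_28 (nat_lit 0) (nat_lit 0) (nat_lit 0) (nat_lit 0x7e412fcec2) (nat_lit 856717992),
  Rx.mk (nat_lit 386) (nat_lit 2) (nat_lit 0) (nat_lit 6) (nat_lit 5) (nat_lit 134) (nat_lit 23) r4_134 r9_23 (nat_lit 0) (nat_lit 0) (nat_lit 0) (nat_lit 0x7d77e26462) (nat_lit 1242694440),
  Rx.mk (nat_lit 402) (nat_lit 2) (nat_lit 2) (nat_lit 6) (nat_lit 7) (nat_lit 135) (nat_lit 31) r4_135 r9_31 (nat_lit 0) (nat_lit 0) (nat_lit 0) (nat_lit 0x7df0f592b6) (nat_lit 1010545848),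
  Rx.mk (nat_lit 406) (nat_lit 6) (nat_lit 2) (nat_lit 6) (nat_lit 7) (nat_lit 137) (nat_lit 30) r4_137 r9_30 (nat_lit 0) (nat_lit 0) (nat_lit 0) (nat_lit 0x7dee99387e) (nat_lit 1015072344),
  Rx.mk (nat_lit 410) (nat_lit 2) (nat_lit 3) (nat_lit 6) (nat_lit 7) (nat_lit 141) (nat_lit 26) r4_141 r9_26 (nat_lit 0) (nat_lit 0) (nat_lit 0) (nat_lit 0x7dede0640c) (nat_lit 1016456688),
  Rx.mk (nat_lit 470) (nat_lit 6) (nat_lit 2) (nat_lit 7) (nat_lit 7) (nat_lit 138) (nat_lit 29) r4_138 r9_29 (nat_lit 0) (nat_lit 0) (nat_lit 0) (nat_lit 0x7dd37c8a64) (nat_lit 1067056848)]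
noncomputable def e8_27 : List Rx := [
  Rx.mk (nat_lit 155) (nat_lit 3) (nat_lit 3) (nat_lit 2) (nat_lit 7) (nat_lit 143) (nat_lit 8) r4_143 r10_8 (nat_lit 0) (nat_lit 0) (nat_lit 0) (nat_lit 0x7dd7d8a49e) (nat_lit 1058697432)]
noncomputable def e8_28 : List Rx := [
  Rx.mk (nat_lit 103) (nat_lit 7) (nat_lit 4) (nat_lit 1) (nat_lit 5) (nat_lit 226) (nat_lit 358) r4_226 r10_358 (nat_lit 0) (nat_lit 0) (nat_lit 0) (nat_lit 0x7adab11a14) (nat_lit 2525801616),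
  Rx.mk (nat_lit 119) (nat_lit 7) (nat_lit 6) (nat_lit 1) (nat_lit 7) (nat_lit 227) (nat_lit 359) r4_227 r10_359 (nat_lit 0) (nat_lit 0) (nat_lit 0) (nat_lit 0x7e63204f98) (nat_lit 791642592),
  Rx.mk (nat_lit 375) (nat_lit 7) (nat_lit 6) (nat_lit 5) (nat_lit 7) (nat_lit 228) (nat_lit 357) r4_228 r10_357 (nat_lit 0) (nat_lit 0) (nat_lit 0) (nat_lit 0x7e80048138) (nat_lit 736246368)]
noncomputable def e8_29 : List Rx := [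
  Rx.mk (nat_lit 35) (nat_lit 3) (nat_lit 4) (nat_lit 0) (nat_lit 1) (nat_lit 229) (nat_lit 186) r4_229 r5_186 (nat_lit 0) (nat_lit 0) (nat_lit 0) (nat_lit 0x71fe96849a) (nat_lit 6874655112),
  Rx.mk (nat_lit 56) (nat_lit 0) (nat_lit 7) (nat_lit 0) (nat_lit 2) (nat_lit 235) (nat_lit 183) r4_235 r5_183 (nat_lit 0) (nat_lit 0) (nat_lit 0) (nat_lit 0x729cb2c238) (nat_lit 6571495008),
  Rx.mk (nat_lit 59) (nat_lit 3) (nat_lit 7) (nat_lit 0) (nat_lit 3) (nat_lit 238) (nat_lit 187) r4_238 r5_187 (nat_lit 0) (nat_lit 0) (nat_lit 0) (nat_lit 0x7e7092b864) (nat_lit 765859536),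
  Rx.mk (nat_lit 99) (nat_lit 3) (nat_lit 4) (nat_lit 1) (nat_lit 5) (nat_lit 230) (nat_lit 188) r4_230 r5_188 (nat_lit 0) (nat_lit 0) (nat_lit 0) (nat_lit 0x7e314decf0) (nat_lit 887170752),
  Rx.mk (nat_lit 120) (nat_lit 0) (nat_lit 7) (nat_lit 1) (nat_lit 6) (nat_lit 236) (nat_lit 184) r4_236 r5_184 (nat_lit 0) (nat_lit 0) (nat_lit 0) (nat_lit 0x7d7961ec68) (nat_lit 1239821856),
  Rx.mk (nat_lit 123) (nat_lit 3) (nat_lit 7) (nat_lit 1) (nat_lit 7) (nat_lit 239) (nat_lit 189) r4_239 r5_189 (nat_lit 0) (nat_lit 0) (nat_lit 0) (nat_lit 0x7e3b0f90cc) (nat_lit 868463856),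
  Rx.mk (nat_lit 163) (nat_lit 3) (nat_lit 4) (nat_lit 2) (nat_lit 5) (nat_lit 231) (nat_lit 191) r4_231 r5_191 (nat_lit 0) (nat_lit 0) (nat_lit 0) (nat_lit 0x7e50b6f640) (nat_lit 826944768),
  Rx.mk (nat_lit 184) (nat_lit 0) (nat_lit 7) (nat_lit 2) (nat_lit 6) (nat_lit 237) (nat_lit 185) r4_237 r5_185 (nat_lit 0) (nat_lit 0) (nat_lit 0) (nat_lit 0x7e05ce051a) (nat_lit 970576776),
  Rx.mk (nat_lit 187) (nat_lit 3) (nat_lit 7) (nat_lit 2) (nat_lit 7) (nat_lit 240) (nat_lit 192) r4_240 r5_192 (nat_lit 0) (nat_lit 0) (nat_lit 0) (nat_lit 0x7e1ae6f376) (nat_lit 930124728),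
  Rx.mk (nat_lit 227) (nat_lit 3) (nat_lit 4) (nat_lit 3) (nat_lit 5) (nat_lit 232) (nat_lit 190) r4_232 r5_190 (nat_lit 0) (nat_lit 0) (nat_lit 0) (nat_lit 0x7d90cfb574) (nat_lit 1194899472),
  Rx.mk (nat_lit 231) (nat_lit 7) (nat_lit 4) (nat_lit 3) (nat_lit 5) (nat_lit 233) (nat_lit 181) r4_233 r5_181 (nat_lit 0) (nat_lit 0) (nat_lit 0) (nat_lit 0x7e5fadc6c4) (nat_lit 798252624),
  Rx.mk (nat_lit 247) (nat_lit 7) (nat_lit 6) (nat_lit 3) (nat_lit 7) (nat_lit 234) (nat_lit 182) r4_234 r5_182 (nat_lit 0) (nat_lit 0) (nat_lit 0) (nat_lit 0x7ee10430dc) (nat_lit 550261296)]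
noncomputable def e8_30 : List Rx := [
  Rx.mk (nat_lit 56) (nat_lit 0) (nat_lit 7) (nat_lit 0) (nat_lit 2) (nat_lit 212) (nat_lit 125) r4_212 r10_125 (nat_lit 0) (nat_lit 0) (nat_lit 0) (nat_lit 0x704a4c6af0) (nat_lit 7711194816),
  Rx.mk (nat_lit 59) (nat_lit 3) (nat_lit 7) (nat_lit 0) (nat_lit 3) (nat_lit 214) (nat_lit 126) r4_214 r10_126 (nat_lit 0) (nat_lit 0) (nat_lit 0) (nat_lit 0x7bb067ddd2) (nat_lit 2116027368),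
  Rx.mk (nat_lit 152) (nat_lit 0) (nat_lit 3) (nat_lit 2) (nat_lit 6) (nat_lit 205) (nat_lit 131) r4_205 r10_131 (nat_lit 0) (nat_lit 0) (nat_lit 0) (nat_lit 0x7227e22fb6) (nat_lit 6795475128),
  Rx.mk (nat_lit 154) (nat_lit 2) (nat_lit 3) (nat_lit 2) (nat_lit 7) (nat_lit 206) (nat_lit 134) r4_206 r10_134 (nat_lit 0) (nat_lit 0) (nat_lit 0) (nat_lit 0x7dc3644bf8) (nat_lit 1097916768),
  Rx.mk (nat_lit 184) (nat_lit 0) (nat_lit 7) (nat_lit 2) (nat_lit 6) (nat_lit 213) (nat_lit 132) r4_213 r10_132 (nat_lit 0) (nat_lit 0) (nat_lit 0) (nat_lit 0x77d5fc8862) (nat_lit 4007383848),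
  Rx.mk (nat_lit 187) (nat_lit 3) (nat_lit 7) (nat_lit 2) (nat_lit 7) (nat_lit 215) (nat_lit 133) r4_215 r10_133 (nat_lit 0) (nat_lit 0) (nat_lit 0) (nat_lit 0x7e0de80372) (nat_lit 955042920),
  Rx.mk (nat_lit 227) (nat_lit 3) (nat_lit 4) (nat_lit 3) (nat_lit 5) (nat_lit 208) (nat_lit 127) r4_208 r10_127 (nat_lit 0) (nat_lit 0) (nat_lit 0) (nat_lit 0x72c34b188c) (nat_lit 6497492976),
  Rx.mk (nat_lit 231) (nat_lit 7) (nat_lit 4) (nat_lit 3) (nat_lit 5) (nat_lit 209) (nat_lit 129) r4_209 r10_129 (nat_lit 0) (nat_lit 0) (nat_lit 0) (nat_lit 0x757b9df0a6) (nat_lit 5162364792),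
  Rx.mk (nat_lit 247) (nat_lit 7) (nat_lit 6) (nat_lit 3) (nat_lit 7) (nat_lit 210) (nat_lit 130) r4_210 r10_130 (nat_lit 0) (nat_lit 0) (nat_lit 0) (nat_lit 0x7e50fdd1d2) (nat_lit 826414056),
  Rx.mk (nat_lit 251) (nat_lit 3) (nat_lit 7) (nat_lit 3) (nat_lit 7) (nat_lit 216) (nat_lit 128) r4_216 r10_128 (nat_lit 0) (nat_lit 0) (nat_lit 0) (nat_lit 0x7d9fcc8598) (nat_lit 1166162400),
  Rx.mk (nat_lit 410) (nat_lit 2) (nat_lit 3) (nat_lit 6) (nat_lit 7) (nat_lit 207) (nat_lit 136) r4_207 r10_136 (nat_lit 0) (nat_lit 0) (nat_lit 0) (nat_lit 0x7e23aee6ee) (nat_lit 913287960),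
  Rx.mk (nat_lit 503) (nat_lit 7) (nat_lit 6) (nat_lit 7) (nat_lit 7) (nat_lit 211) (nat_lit 135) r4_211 r10_135 (nat_lit 0) (nat_lit 0) (nat_lit 0) (nat_lit 0x7df1c665a8) (nat_lit 1008981792)]
noncomputable def e8_31 : List Rx := [
  Rx.mk (nat_lit 35) (nat_lit 3) (nat_lit 4) (nat_lit 0) (nat_lit 1) (nat_lit 217) (nat_lit 326) r4_217 r5_326 (nat_lit 0) (nat_lit 0) (nat_lit 0) (nat_lit 0x77438f4fc8) (nat_lit 4288141728),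
  Rx.mk (nat_lit 39) (nat_lit 7) (nat_lit 4) (nat_lit 0) (nat_lit 1) (nat_lit 220) (nat_lit 327) r4_220 r5_327 (nat_lit 0) (nat_lit 0) (nat_lit 0) (nat_lit 0x7037ba9420) (nat_lit 7746800256),
  Rx.mk (nat_lit 55) (nat_lit 7) (nat_lit 6) (nat_lit 0) (nat_lit 3) (nat_lit 222) (nat_lit 331) r4_222 r5_331 (nat_lit 0) (nat_lit 0) (nat_lit 0) (nat_lit 0x7145321b9a) (nat_lit 7230125448),
  Rx.mk (nat_lit 99) (nat_lit 3) (nat_lit 4) (nat_lit 1) (nat_lit 5) (nat_lit 218) (nat_lit 328) r4_218 r5_328 (nat_lit 0) (nat_lit 0) (nat_lit 0) (nat_lit 0x7e57d80428) (nat_lit 813275424),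
  Rx.mk (nat_lit 103) (nat_lit 7) (nat_lit 4) (nat_lit 1) (nat_lit 5) (nat_lit 221) (nat_lit 329) r4_221 r5_329 (nat_lit 0) (nat_lit 0) (nat_lit 0) (nat_lit 0x7e80245f3a) (nat_lit 736007688),
  Rx.mk (nat_lit 119) (nat_lit 7) (nat_lit 6) (nat_lit 1) (nat_lit 7) (nat_lit 223) (nat_lit 332) r4_223 r5_332 (nat_lit 0) (nat_lit 0) (nat_lit 0) (nat_lit 0x7edd8ea838) (nat_lit 556893792),
  Rx.mk (nat_lit 163) (nat_lit 3) (nat_lit 4) (nat_lit 2) (nat_lit 5) (nat_lit 219) (nat_lit 330) r4_219 r5_330 (nat_lit 0) (nat_lit 0) (nat_lit 0) (nat_lit 0x7e42d95428) (nat_lit 853530912)]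
noncomputable def e8_32 : List Rx := [
  Rx.mk (nat_lit 35) (nat_lit 3) (nat_lit 4) (nat_lit 0) (nat_lit 1) (nat_lit 241) (nat_lit 59) r4_241 r11_59 (nat_lit 0) (nat_lit 0) (nat_lit 0) (nat_lit 0x75f067639a) (nat_lit 4938438024),
  Rx.mk (nat_lit 39) (nat_lit 7) (nat_lit 4) (nat_lit 0) (nat_lit 1) (nat_lit 244) (nat_lit 65) r4_244 r11_65 (nat_lit 0) (nat_lit 0) (nat_lit 0) (nat_lit 0x6bf3fab462) (nat_lit 9840116520),
  Rx.mk (nat_lit 55) (nat_lit 7) (nat_lit 6) (nat_lit 0) (nat_lit 3) (nat_lit 247) (nat_lit 68) r4_247 r11_68 (nat_lit 0) (nat_lit 0) (nat_lit 0) (nat_lit 0x6e389aa81e) (nat_lit 8726828760),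
  Rx.mk (nat_lit 59) (nat_lit 3) (nat_lit 7) (nat_lit 0) (nat_lit 3) (nat_lit 250) (nat_lit 62) r4_250 r11_62 (nat_lit 0) (nat_lit 0) (nat_lit 0) (nat_lit 0x7dda8599cc) (nat_lit 1053567216),
  Rx.mk (nat_lit 99) (nat_lit 3) (nat_lit 4) (nat_lit 1) (nat_lit 5) (nat_lit 242) (nat_lit 60) r4_242 r11_60 (nat_lit 0) (nat_lit 0) (nat_lit 0) (nat_lit 0x7e10d57498) (nat_lit 949429728),
  Rx.mk (nat_lit 103) (nat_lit 7) (nat_lit 4) (nat_lit 1) (nat_lit 5) (nat_lit 245) (nat_lit 66) r4_245 r11_66 (nat_lit 0) (nat_lit 0) (nat_lit 0) (nat_lit 0x7e8d7ec986) (nat_lit 710404344),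
  Rx.mk (nat_lit 119) (nat_lit 7) (nat_lit 6) (nat_lit 1) (nat_lit 7) (nat_lit 248) (nat_lit 69) r4_248 r11_69 (nat_lit 0) (nat_lit 0) (nat_lit 0) (nat_lit 0x7ef9498c6e) (nat_lit 503724312),
  Rx.mk (nat_lit 123) (nat_lit 3) (nat_lit 7) (nat_lit 1) (nat_lit 7) (nat_lit 251) (nat_lit 63) r4_251 r11_63 (nat_lit 0) (nat_lit 0) (nat_lit 0) (nat_lit 0x7df52e0f2a) (nat_lit 1002453192),
  Rx.mk (nat_lit 163) (nat_lit 3) (nat_lit 4) (nat_lit 2) (nat_lit 5) (nat_lit 243) (nat_lit 61) r4_243 r11_61 (nat_lit 0) (nat_lit 0) (nat_lit 0) (nat_lit 0x7e356d4af6) (nat_lit 879266232),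
  Rx.mk (nat_lit 187) (nat_lit 3) (nat_lit 7) (nat_lit 2) (nat_lit 7) (nat_lit 252) (nat_lit 64) r4_252 r11_64 (nat_lit 0) (nat_lit 0) (nat_lit 0) (nat_lit 0x7e1d7e2a00) (nat_lit 925157376),
  Rx.mk (nat_lit 231) (nat_lit 7) (nat_lit 4) (nat_lit 3) (nat_lit 5) (nat_lit 246) (nat_lit 67) r4_246 r11_67 (nat_lit 0) (nat_lit 0) (nat_lit 0) (nat_lit 0x7d40c096b6) (nat_lit 1348404408),
  Rx.mk (nat_lit 247) (nat_lit 7) (nat_lit 6) (nat_lit 3) (nat_lit 7) (nat_lit 249) (nat_lit 70) r4_249 r11_70 (nat_lit 0) (nat_lit 0) (nat_lit 0) (nat_lit 0x7ea772ea2a) (nat_lit 660640968)]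
noncomputable def e8_33 : List Rx := [
  Rx.mk (nat_lit 40) (nat_lit 0) (nat_lit 5) (nat_lit 0) (nat_lit 2) (nat_lit 262) (nat_lit 174) r4_262 r0_174 (nat_lit 0) (nat_lit 0) (nat_lit 0) (nat_lit 0x67e873f0da) (nat_lit 11825630856),
  Rx.mk (nat_lit 104) (nat_lit 0) (nat_lit 5) (nat_lit 1) (nat_lit 6) (nat_lit 263) (nat_lit 175) r4_263 r0_175 (nat_lit 0) (nat_lit 0) (nat_lit 0) (nat_lit 0x7e1f5bcc24) (nat_lit 921579984),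
  Rx.mk (nat_lit 168) (nat_lit 0) (nat_lit 5) (nat_lit 2) (nat_lit 6) (nat_lit 264) (nat_lit 176) r4_264 r0_176 (nat_lit 0) (nat_lit 0) (nat_lit 0) (nat_lit 0x75d49f6036) (nat_lit 4991705784)]
noncomputable def e8_34 : List Rx := [
  Rx.mk (nat_lit 33) (nat_lit 1) (nat_lit 4) (nat_lit 0) (nat_lit 1) (nat_lit 253) (nat_lit 305) r4_253 r0_305 (nat_lit 0) (nat_lit 0) (nat_lit 0) (nat_lit 0x72ea26eaa8) (nat_lit 6422985504),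
  Rx.mk (nat_lit 40) (nat_lit 0) (nat_lit 5) (nat_lit 0) (nat_lit 2) (nat_lit 256) (nat_lit 308) r4_256 r0_308 (nat_lit 0) (nat_lit 0) (nat_lit 0) (nat_lit 0x6d9ecf456e) (nat_lit 9021713688),
  Rx.mk (nat_lit 41) (nat_lit 1) (nat_lit 5) (nat_lit 0) (nat_lit 3) (nat_lit 259) (nat_lit 309) r4_259 r0_309 (nat_lit 0) (nat_lit 0) (nat_lit 0) (nat_lit 0x7d715ecca2) (nat_lit 1255184424),
  Rx.mk (nat_lit 97) (nat_lit 1) (nat_lit 4) (nat_lit 1) (nat_lit 5) (nat_lit 254) (nat_lit 306) r4_254 r0_306 (nat_lit 0) (nat_lit 0) (nat_lit 0) (nat_lit 0x765dc16d8c) (nat_lit 4728767472),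
  Rx.mk (nat_lit 104) (nat_lit 0) (nat_lit 5) (nat_lit 1) (nat_lit 6) (nat_lit 257) (nat_lit 310) r4_257 r0_310 (nat_lit 0) (nat_lit 0) (nat_lit 0) (nat_lit 0x7da9e10446) (nat_lit 1146834936),
  Rx.mk (nat_lit 105) (nat_lit 1) (nat_lit 5) (nat_lit 1) (nat_lit 7) (nat_lit 260) (nat_lit 311) r4_260 r0_311 (nat_lit 0) (nat_lit 0) (nat_lit 0) (nat_lit 0x7e65ac46d6) (nat_lit 786759480),
  Rx.mk (nat_lit 161) (nat_lit 1) (nat_lit 4) (nat_lit 2) (nat_lit 5) (nat_lit 255) (nat_lit 307) r4_255 r0_307 (nat_lit 0) (nat_lit 0) (nat_lit 0) (nat_lit 0x7e1c8ad936) (nat_lit 926979768),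
  Rx.mk (nat_lit 168) (nat_lit 0) (nat_lit 5) (nat_lit 2) (nat_lit 6) (nat_lit 258) (nat_lit 312) r4_258 r0_312 (nat_lit 0) (nat_lit 0) (nat_lit 0) (nat_lit 0x76d4fe194a) (nat_lit 4500142920),
  Rx.mk (nat_lit 169) (nat_lit 1) (nat_lit 5) (nat_lit 2) (nat_lit 7) (nat_lit 261) (nat_lit 313) r4_261 r0_313 (nat_lit 0) (nat_lit 0) (nat_lit 0) (nat_lit 0x7e5d9fc7a6) (nat_lit 802192248)]
noncomputable def e8_35 : List Rx := [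
  Rx.mk (nat_lit 40) (nat_lit 0) (nat_lit 5) (nat_lit 0) (nat_lit 2) (nat_lit 265) (nat_lit 223) r4_265 r6_223 (nat_lit 0) (nat_lit 0) (nat_lit 0) (nat_lit 0x735924da5a) (nat_lit 6210169992),
  Rx.mk (nat_lit 41) (nat_lit 1) (nat_lit 5) (nat_lit 0) (nat_lit 3) (nat_lit 268) (nat_lit 226) r4_268 r6_226 (nat_lit 0) (nat_lit 0) (nat_lit 0) (nat_lit 0x7db5f0c33e) (nat_lit 1123708248),
  Rx.mk (nat_lit 104) (nat_lit 0) (nat_lit 5) (nat_lit 1) (nat_lit 6) (nat_lit 266) (nat_lit 224) r4_266 r6_224 (nat_lit 0) (nat_lit 0) (nat_lit 0) (nat_lit 0x7db466bbe0) (nat_lit 1126659456),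
  Rx.mk (nat_lit 105) (nat_lit 1) (nat_lit 5) (nat_lit 1) (nat_lit 7) (nat_lit 269) (nat_lit 227) r4_269 r6_227 (nat_lit 0) (nat_lit 0) (nat_lit 0) (nat_lit 0x7dde701b20) (nat_lit 1046058624),
  Rx.mk (nat_lit 168) (nat_lit 0) (nat_lit 5) (nat_lit 2) (nat_lit 6) (nat_lit 267) (nat_lit 225) r4_267 r6_225 (nat_lit 0) (nat_lit 0) (nat_lit 0) (nat_lit 0x7d7cbb56ce) (nat_lit 1233399960),
  Rx.mk (nat_lit 169) (nat_lit 1) (nat_lit 5) (nat_lit 2) (nat_lit 7) (nat_lit 270) (nat_lit 228) r4_270 r6_228 (nat_lit 0) (nat_lit 0) (nat_lit 0) (nat_lit 0x7deda7c796) (nat_lit 1016880696)]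
noncomputable def e8_36 : List Rx := [
  Rx.mk (nat_lit 97) (nat_lit 1) (nat_lit 4) (nat_lit 1) (nat_lit 5) (nat_lit 299) (nat_lit 334) r4_299 r2_334 (nat_lit 0) (nat_lit 0) (nat_lit 0) (nat_lit 0x7dad9708e2) (nat_lit 1139719464),
  Rx.mk (nat_lit 101) (nat_lit 5) (nat_lit 4) (nat_lit 1) (nat_lit 5) (nat_lit 300) (nat_lit 335) r4_300 r2_335 (nat_lit 0) (nat_lit 0) (nat_lit 0) (nat_lit 0x7dc103120e) (nat_lit 1102479768),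
  Rx.mk (nat_lit 105) (nat_lit 1) (nat_lit 5) (nat_lit 1) (nat_lit 7) (nat_lit 301) (nat_lit 336) r4_301 r2_336 (nat_lit 0) (nat_lit 0) (nat_lit 0) (nat_lit 0x7de0307f18) (nat_lit 1042700256),
  Rx.mk (nat_lit 109) (nat_lit 5) (nat_lit 5) (nat_lit 1) (nat_lit 7) (nat_lit 302) (nat_lit 337) r4_302 r2_337 (nat_lit 0) (nat_lit 0) (nat_lit 0) (nat_lit 0x7de76c8b50) (nat_lit 1028828736),
  Rx.mk (nat_lit 117) (nat_lit 5) (nat_lit 6) (nat_lit 1) (nat_lit 7) (nat_lit 303) (nat_lit 338) r4_303 r2_338 (nat_lit 0) (nat_lit 0) (nat_lit 0) (nat_lit 0x7df18be950) (nat_lit 1009419840)]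
noncomputable def e8_37 : List Rx := [
  Rx.mk (nat_lit 105) (nat_lit 1) (nat_lit 5) (nat_lit 1) (nat_lit 7) (nat_lit 307) (nat_lit 305) r4_307 r8_305 (nat_lit 0) (nat_lit 0) (nat_lit 0) (nat_lit 0x7dd68859a4) (nat_lit 1061216208),
  Rx.mk (nat_lit 109) (nat_lit 5) (nat_lit 5) (nat_lit 1) (nat_lit 7) (nat_lit 308) (nat_lit 306) r4_308 r8_306 (nat_lit 0) (nat_lit 0) (nat_lit 0) (nat_lit 0x7de5612c08) (nat_lit 1032748704)]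
noncomputable def e8_38 : List Rx := [
  Rx.mk (nat_lit 97) (nat_lit 1) (nat_lit 4) (nat_lit 1) (nat_lit 5) (nat_lit 309) (nat_lit 313) r4_309 r8_313 (nat_lit 0) (nat_lit 0) (nat_lit 0) (nat_lit 0x7cf628a080) (nat_lit 1491429888),
  Rx.mk (nat_lit 101) (nat_lit 5) (nat_lit 4) (nat_lit 1) (nat_lit 5) (nat_lit 310) (nat_lit 312) r4_310 r8_312 (nat_lit 0) (nat_lit 0) (nat_lit 0) (nat_lit 0x7bf32fb112) (nat_lit 1987982568),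
  Rx.mk (nat_lit 105) (nat_lit 1) (nat_lit 5) (nat_lit 1) (nat_lit 7) (nat_lit 311) (nat_lit 315) r4_311 r8_315 (nat_lit 0) (nat_lit 0) (nat_lit 0) (nat_lit 0x7de1440dde) (nat_lit 1040636376),
  Rx.mk (nat_lit 109) (nat_lit 5) (nat_lit 5) (nat_lit 1) (nat_lit 7) (nat_lit 312) (nat_lit 314) r4_312 r8_314 (nat_lit 0) (nat_lit 0) (nat_lit 0) (nat_lit 0x7ddd4f0d32) (nat_lit 1048223592),
  Rx.mk (nat_lit 117) (nat_lit 5) (nat_lit 6) (nat_lit 1) (nat_lit 7) (nat_lit 313) (nat_lit 316) r4_313 r8_316 (nat_lit 0) (nat_lit 0) (nat_lit 0) (nat_lit 0x7deb594c80) (nat_lit 1021303296),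
  Rx.mk (nat_lit 373) (nat_lit 5) (nat_lit 6) (nat_lit 5) (nat_lit 7) (nat_lit 314) (nat_lit 311) r4_314 r8_311 (nat_lit 0) (nat_lit 0) (nat_lit 0) (nat_lit 0x7dc5e563e4) (nat_lit 1093115088)]
noncomputable def e8_39 : List Rx := [
  Rx.mk (nat_lit 33) (nat_lit 1) (nat_lit 4) (nat_lit 0) (nat_lit 1) (nat_lit 293) (nat_lit 296) r4_293 r1_296 (nat_lit 0) (nat_lit 0) (nat_lit 0) (nat_lit 0x6a1ffcf612) (nat_lit 10737441000),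
  Rx.mk (nat_lit 41) (nat_lit 1) (nat_lit 5) (nat_lit 0) (nat_lit 3) (nat_lit 296) (nat_lit 299) r4_296 r1_299 (nat_lit 0) (nat_lit 0) (nat_lit 0) (nat_lit 0x7ce68fda1c) (nat_lit 1521335088),
  Rx.mk (nat_lit 97) (nat_lit 1) (nat_lit 4) (nat_lit 1) (nat_lit 5) (nat_lit 294) (nat_lit 297) r4_294 r1_297 (nat_lit 0) (nat_lit 0) (nat_lit 0) (nat_lit 0x7b9136b104) (nat_lit 2175834960),
  Rx.mk (nat_lit 105) (nat_lit 1) (nat_lit 5) (nat_lit 1) (nat_lit 7) (nat_lit 297) (nat_lit 300) r4_297 r1_300 (nat_lit 0) (nat_lit 0) (nat_lit 0) (nat_lit 0x7e35b126b8) (nat_lit 878757984),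
  Rx.mk (nat_lit 161) (nat_lit 1) (nat_lit 4) (nat_lit 2) (nat_lit 5) (nat_lit 295) (nat_lit 298) r4_295 r1_298 (nat_lit 0) (nat_lit 0) (nat_lit 0) (nat_lit 0x7df1a98776) (nat_lit 1009198008),
  Rx.mk (nat_lit 169) (nat_lit 1) (nat_lit 5) (nat_lit 2) (nat_lit 7) (nat_lit 298) (nat_lit 301) r4_298 r1_301 (nat_lit 0) (nat_lit 0) (nat_lit 0) (nat_lit 0x7db1b0c742) (nat_lit 1131857064)]
noncomputable def e8_40 : List Rx := [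
  Rx.mk (nat_lit 41) (nat_lit 1) (nat_lit 5) (nat_lit 0) (nat_lit 3) (nat_lit 304) (nat_lit 181) r4_304 r7_181 (nat_lit 0) (nat_lit 0) (nat_lit 0) (nat_lit 0x7de112f0f0) (nat_lit 1041004224),
  Rx.mk (nat_lit 105) (nat_lit 1) (nat_lit 5) (nat_lit 1) (nat_lit 7) (nat_lit 305) (nat_lit 182) r4_305 r7_182 (nat_lit 0) (nat_lit 0) (nat_lit 0) (nat_lit 0x7df79428c6) (nat_lit 997853688),
  Rx.mk (nat_lit 169) (nat_lit 1) (nat_lit 5) (nat_lit 2) (nat_lit 7) (nat_lit 306) (nat_lit 183) r4_306 r7_183 (nat_lit 0) (nat_lit 0) (nat_lit 0) (nat_lit 0x7df6d07502) (nat_lit 999319464)]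
noncomputable def e8_41 : List Rx := [
  Rx.mk (nat_lit 40) (nat_lit 0) (nat_lit 5) (nat_lit 0) (nat_lit 2) (nat_lit 281) (nat_lit 187) r4_281 r1_187 (nat_lit 0) (nat_lit 0) (nat_lit 0) (nat_lit 0x680620b5f0) (nat_lit 11768732352),
  Rx.mk (nat_lit 104) (nat_lit 0) (nat_lit 5) (nat_lit 1) (nat_lit 6) (nat_lit 282) (nat_lit 188) r4_282 r1_188 (nat_lit 0) (nat_lit 0) (nat_lit 0) (nat_lit 0x7cc75d8d60) (nat_lit 1581151104),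
  Rx.mk (nat_lit 136) (nat_lit 0) (nat_lit 1) (nat_lit 2) (nat_lit 6) (nat_lit 279) (nat_lit 190) r4_279 r1_190 (nat_lit 0) (nat_lit 0) (nat_lit 0) (nat_lit 0x7deba2c7e8) (nat_lit 1020752928),
  Rx.mk (nat_lit 138) (nat_lit 2) (nat_lit 1) (nat_lit 2) (nat_lit 7) (nat_lit 280) (nat_lit 191) r4_280 r1_191 (nat_lit 0) (nat_lit 0) (nat_lit 0) (nat_lit 0x7965ed07ca) (nat_lit 3240541512),
  Rx.mk (nat_lit 168) (nat_lit 0) (nat_lit 5) (nat_lit 2) (nat_lit 6) (nat_lit 283) (nat_lit 189) r4_283 r1_189 (nat_lit 0) (nat_lit 0) (nat_lit 0) (nat_lit 0x79612a93f6) (nat_lit 3249667512)]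
noncomputable def e8_42 : List Rx := [
  Rx.mk (nat_lit 136) (nat_lit 0) (nat_lit 1) (nat_lit 2) (nat_lit 6) (nat_lit 271) (nat_lit 187) r4_271 r2_187 (nat_lit 0) (nat_lit 0) (nat_lit 0) (nat_lit 0x7dd5e96394) (nat_lit 1062406800),
  Rx.mk (nat_lit 138) (nat_lit 2) (nat_lit 1) (nat_lit 2) (nat_lit 7) (nat_lit 272) (nat_lit 188) r4_272 r2_188 (nat_lit 0) (nat_lit 0) (nat_lit 0) (nat_lit 0x7de99d6840) (nat_lit 1024627968)]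
noncomputable def e8_43 : List Rx := [
  Rx.mk (nat_lit 40) (nat_lit 0) (nat_lit 5) (nat_lit 0) (nat_lit 2) (nat_lit 287) (nat_lit 341) r4_287 r7_341 (nat_lit 0) (nat_lit 0) (nat_lit 0) (nat_lit 0x5c57ff43b6) (nat_lit 17501997240),
  Rx.mk (nat_lit 41) (nat_lit 1) (nat_lit 5) (nat_lit 0) (nat_lit 3) (nat_lit 290) (nat_lit 342) r4_290 r7_342 (nat_lit 0) (nat_lit 0) (nat_lit 0) (nat_lit 0x7d03f443b8) (nat_lit 1464978528),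
  Rx.mk (nat_lit 104) (nat_lit 0) (nat_lit 5) (nat_lit 1) (nat_lit 6) (nat_lit 288) (nat_lit 343) r4_288 r7_343 (nat_lit 0) (nat_lit 0) (nat_lit 0) (nat_lit 0x7d836d6ba6) (nat_lit 1220561784),
  Rx.mk (nat_lit 105) (nat_lit 1) (nat_lit 5) (nat_lit 1) (nat_lit 7) (nat_lit 291) (nat_lit 344) r4_291 r7_344 (nat_lit 0) (nat_lit 0) (nat_lit 0) (nat_lit 0x7df0f9b274) (nat_lit 1010514960),
  Rx.mk (nat_lit 136) (nat_lit 0) (nat_lit 1) (nat_lit 2) (nat_lit 6) (nat_lit 284) (nat_lit 338) r4_284 r7_338 (nat_lit 0) (nat_lit 0) (nat_lit 0) (nat_lit 0x7d63fb62e6) (nat_lit 1280855160),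
  Rx.mk (nat_lit 137) (nat_lit 1) (nat_lit 1) (nat_lit 2) (nat_lit 7) (nat_lit 285) (nat_lit 339) r4_285 r7_339 (nat_lit 0) (nat_lit 0) (nat_lit 0) (nat_lit 0x7de0ae173e) (nat_lit 1041759576),
  Rx.mk (nat_lit 138) (nat_lit 2) (nat_lit 1) (nat_lit 2) (nat_lit 7) (nat_lit 286) (nat_lit 340) r4_286 r7_340 (nat_lit 0) (nat_lit 0) (nat_lit 0) (nat_lit 0x7dec75dab6) (nat_lit 1019172024),
  Rx.mk (nat_lit 168) (nat_lit 0) (nat_lit 5) (nat_lit 2) (nat_lit 6) (nat_lit 289) (nat_lit 345) r4_289 r7_345 (nat_lit 0) (nat_lit 0) (nat_lit 0) (nat_lit 0x7d43fd22ea) (nat_lit 1342198728),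
  Rx.mk (nat_lit 169) (nat_lit 1) (nat_lit 5) (nat_lit 2) (nat_lit 7) (nat_lit 292) (nat_lit 346) r4_292 r7_346 (nat_lit 0) (nat_lit 0) (nat_lit 0) (nat_lit 0x7de07e1a3e) (nat_lit 1042119000)]
noncomputable def e8_44 : List Rx := [
  Rx.mk (nat_lit 136) (nat_lit 0) (nat_lit 1) (nat_lit 2) (nat_lit 6) (nat_lit 273) (nat_lit 167) r4_273 r8_167 (nat_lit 0) (nat_lit 0) (nat_lit 0) (nat_lit 0x7db654dcfc) (nat_lit 1122958512),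
  Rx.mk (nat_lit 137) (nat_lit 1) (nat_lit 1) (nat_lit 2) (nat_lit 7) (nat_lit 274) (nat_lit 168) r4_274 r8_168 (nat_lit 0) (nat_lit 0) (nat_lit 0) (nat_lit 0x7de3238fe4) (nat_lit 1037044944),
  Rx.mk (nat_lit 138) (nat_lit 2) (nat_lit 1) (nat_lit 2) (nat_lit 7) (nat_lit 275) (nat_lit 169) r4_275 r8_169 (nat_lit 0) (nat_lit 0) (nat_lit 0) (nat_lit 0x7ddff0631a) (nat_lit 1043180424)]
noncomputable def e8_45 : List Rx := [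
  Rx.mk (nat_lit 136) (nat_lit 0) (nat_lit 1) (nat_lit 2) (nat_lit 6) (nat_lit 276) (nat_lit 133) r4_276 r8_133 (nat_lit 0) (nat_lit 0) (nat_lit 0) (nat_lit 0x7cdf86cab4) (nat_lit 1534824720),
  Rx.mk (nat_lit 138) (nat_lit 2) (nat_lit 1) (nat_lit 2) (nat_lit 7) (nat_lit 277) (nat_lit 134) r4_277 r8_134 (nat_lit 0) (nat_lit 0) (nat_lit 0) (nat_lit 0x7debb286ec) (nat_lit 1020634992),
  Rx.mk (nat_lit 394) (nat_lit 2) (nat_lit 1) (nat_lit 6) (nat_lit 7) (nat_lit 278) (nat_lit 135) r4_278 r8_135 (nat_lit 0) (nat_lit 0) (nat_lit 0) (nat_lit 0x7deeb9d674) (nat_lit 1014828048)]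
noncomputable def e8_46 : List Rx := [
  Rx.mk (nat_lit 40) (nat_lit 0) (nat_lit 5) (nat_lit 0) (nat_lit 2) (nat_lit 349) (nat_lit 161) r4_349 r4_161 (nat_lit 0) (nat_lit 0) (nat_lit 0) (nat_lit 0x73692e19b6) (nat_lit 6179422392),
  Rx.mk (nat_lit 43) (nat_lit 3) (nat_lit 5) (nat_lit 0) (nat_lit 3) (nat_lit 352) (nat_lit 164) r4_352 r4_164 (nat_lit 0) (nat_lit 0) (nat_lit 0) (nat_lit 0x7e9dbce594) (nat_lit 679260816),
  Rx.mk (nat_lit 104) (nat_lit 0) (nat_lit 5) (nat_lit 1) (nat_lit 6) (nat_lit 350) (nat_lit 162) r4_350 r4_162 (nat_lit 0) (nat_lit 0) (nat_lit 0) (nat_lit 0x7e146cbb20) (nat_lit 942544512),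
  Rx.mk (nat_lit 107) (nat_lit 3) (nat_lit 5) (nat_lit 1) (nat_lit 7) (nat_lit 353) (nat_lit 165) r4_353 r4_165 (nat_lit 0) (nat_lit 0) (nat_lit 0) (nat_lit 0x7e61448d56) (nat_lit 795205944),
  Rx.mk (nat_lit 168) (nat_lit 0) (nat_lit 5) (nat_lit 2) (nat_lit 6) (nat_lit 351) (nat_lit 163) r4_351 r4_163 (nat_lit 0) (nat_lit 0) (nat_lit 0) (nat_lit 0x7e740fc090) (nat_lit 759170880),
  Rx.mk (nat_lit 171) (nat_lit 3) (nat_lit 5) (nat_lit 2) (nat_lit 7) (nat_lit 354) (nat_lit 166) r4_354 r4_166 (nat_lit 0) (nat_lit 0) (nat_lit 0) (nat_lit 0x7e69115082) (nat_lit 780250536)]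
noncomputable def e8_47 : List Rx := [
  Rx.mk (nat_lit 32) (nat_lit 0) (nat_lit 4) (nat_lit 0) (nat_lit 0) (nat_lit 327) (nat_lit 327) r4_327 r4_327 (nat_lit 0) (nat_lit 0) (nat_lit 0) (nat_lit 0x60139186d6) (nat_lit 15669788472),
  Rx.mk (nat_lit 33) (nat_lit 1) (nat_lit 4) (nat_lit 0) (nat_lit 1) (nat_lit 330) (nat_lit 328) r4_330 r4_328 (nat_lit 0) (nat_lit 0) (nat_lit 0) (nat_lit 0x778fc9abd6) (nat_lit 4141982520),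
  Rx.mk (nat_lit 35) (nat_lit 3) (nat_lit 4) (nat_lit 0) (nat_lit 1) (nat_lit 333) (nat_lit 329) r4_333 r4_329 (nat_lit 0) (nat_lit 0) (nat_lit 0) (nat_lit 0x7be34caf52) (nat_lit 2018443752),
  Rx.mk (nat_lit 40) (nat_lit 0) (nat_lit 5) (nat_lit 0) (nat_lit 2) (nat_lit 335) (nat_lit 335) r4_335 r4_335 (nat_lit 0) (nat_lit 0) (nat_lit 0) (nat_lit 0x7ad70354f4) (nat_lit 2532855312),
  Rx.mk (nat_lit 41) (nat_lit 1) (nat_lit 5) (nat_lit 0) (nat_lit 3) (nat_lit 338) (nat_lit 336) r4_338 r4_336 (nat_lit 0) (nat_lit 0) (nat_lit 0) (nat_lit 0x7e3c95786c) (nat_lit 865543536),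
  Rx.mk (nat_lit 43) (nat_lit 3) (nat_lit 5) (nat_lit 0) (nat_lit 3) (nat_lit 341) (nat_lit 337) r4_341 r4_337 (nat_lit 0) (nat_lit 0) (nat_lit 0) (nat_lit 0x7e4a6b3b02) (nat_lit 839016360),
  Rx.mk (nat_lit 96) (nat_lit 0) (nat_lit 4) (nat_lit 1) (nat_lit 4) (nat_lit 328) (nat_lit 330) r4_328 r4_330 (nat_lit 0) (nat_lit 0) (nat_lit 0) (nat_lit 0x778fc9abd6) (nat_lit 4141982520),
  Rx.mk (nat_lit 97) (nat_lit 1) (nat_lit 4) (nat_lit 1) (nat_lit 5) (nat_lit 331) (nat_lit 331) r4_331 r4_331 (nat_lit 0) (nat_lit 0) (nat_lit 0) (nat_lit 0x7e24555c86) (nat_lit 912041208),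
  Rx.mk (nat_lit 99) (nat_lit 3) (nat_lit 4) (nat_lit 1) (nat_lit 5) (nat_lit 334) (nat_lit 332) r4_334 r4_332 (nat_lit 0) (nat_lit 0) (nat_lit 0) (nat_lit 0x7e41ede2e0) (nat_lit 855294336),
  Rx.mk (nat_lit 104) (nat_lit 0) (nat_lit 5) (nat_lit 1) (nat_lit 6) (nat_lit 336) (nat_lit 338) r4_336 r4_338 (nat_lit 0) (nat_lit 0) (nat_lit 0) (nat_lit 0x7e3c95786c) (nat_lit 865543536),
  Rx.mk (nat_lit 105) (nat_lit 1) (nat_lit 5) (nat_lit 1) (nat_lit 7) (nat_lit 339) (nat_lit 339) r4_339 r4_339 (nat_lit 0) (nat_lit 0) (nat_lit 0) (nat_lit 0x7dd9750ad6) (nat_lit 1055608632),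
  Rx.mk (nat_lit 107) (nat_lit 3) (nat_lit 5) (nat_lit 1) (nat_lit 7) (nat_lit 342) (nat_lit 340) r4_342 r4_340 (nat_lit 0) (nat_lit 0) (nat_lit 0) (nat_lit 0x7de0cb556a) (nat_lit 1041540552),
  Rx.mk (nat_lit 160) (nat_lit 0) (nat_lit 4) (nat_lit 2) (nat_lit 4) (nat_lit 329) (nat_lit 333) r4_329 r4_333 (nat_lit 0) (nat_lit 0) (nat_lit 0) (nat_lit 0x7be34caf52) (nat_lit 2018443752),
  Rx.mk (nat_lit 161) (nat_lit 1) (nat_lit 4) (nat_lit 2) (nat_lit 5) (nat_lit 332) (nat_lit 334) r4_332 r4_334 (nat_lit 0) (nat_lit 0) (nat_lit 0) (nat_lit 0x7e41ede2e0) (nat_lit 855294336),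
  Rx.mk (nat_lit 168) (nat_lit 0) (nat_lit 5) (nat_lit 2) (nat_lit 6) (nat_lit 337) (nat_lit 341) r4_337 r4_341 (nat_lit 0) (nat_lit 0) (nat_lit 0) (nat_lit 0x7e4a6b3b02) (nat_lit 839016360),
  Rx.mk (nat_lit 169) (nat_lit 1) (nat_lit 5) (nat_lit 2) (nat_lit 7) (nat_lit 340) (nat_lit 342) r4_340 r4_342 (nat_lit 0) (nat_lit 0) (nat_lit 0) (nat_lit 0x7de0cb556a) (nat_lit 1041540552)]
noncomputable def e8_48 : List Rx := [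
  Rx.mk (nat_lit 40) (nat_lit 0) (nat_lit 5) (nat_lit 0) (nat_lit 2) (nat_lit 355) (nat_lit 175) r4_355 r9_175 (nat_lit 0) (nat_lit 0) (nat_lit 0) (nat_lit 0x79366ebfde) (nat_lit 3331604952),
  Rx.mk (nat_lit 41) (nat_lit 1) (nat_lit 5) (nat_lit 0) (nat_lit 3) (nat_lit 358) (nat_lit 178) r4_358 r9_178 (nat_lit 0) (nat_lit 0) (nat_lit 0) (nat_lit 0x7ddad0951c) (nat_lit 1053005616),
  Rx.mk (nat_lit 43) (nat_lit 3) (nat_lit 5) (nat_lit 0) (nat_lit 3) (nat_lit 361) (nat_lit 181) r4_361 r9_181 (nat_lit 0) (nat_lit 0) (nat_lit 0) (nat_lit 0x7dbf61cc24) (nat_lit 1105605072),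
  Rx.mk (nat_lit 104) (nat_lit 0) (nat_lit 5) (nat_lit 1) (nat_lit 6) (nat_lit 356) (nat_lit 176) r4_356 r9_176 (nat_lit 0) (nat_lit 0) (nat_lit 0) (nat_lit 0x7dac309f4a) (nat_lit 1142403912),
  Rx.mk (nat_lit 105) (nat_lit 1) (nat_lit 5) (nat_lit 1) (nat_lit 7) (nat_lit 359) (nat_lit 179) r4_359 r9_179 (nat_lit 0) (nat_lit 0) (nat_lit 0) (nat_lit 0x7de7bc6652) (nat_lit 1028230632),
  Rx.mk (nat_lit 107) (nat_lit 3) (nat_lit 5) (nat_lit 1) (nat_lit 7) (nat_lit 362) (nat_lit 182) r4_362 r9_182 (nat_lit 0) (nat_lit 0) (nat_lit 0) (nat_lit 0x7de1a88796) (nat_lit 1039883832),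
  Rx.mk (nat_lit 168) (nat_lit 0) (nat_lit 5) (nat_lit 2) (nat_lit 6) (nat_lit 357) (nat_lit 177) r4_357 r9_177 (nat_lit 0) (nat_lit 0) (nat_lit 0) (nat_lit 0x7dca67bbba) (nat_lit 1084469256),
  Rx.mk (nat_lit 169) (nat_lit 1) (nat_lit 5) (nat_lit 2) (nat_lit 7) (nat_lit 360) (nat_lit 180) r4_360 r9_180 (nat_lit 0) (nat_lit 0) (nat_lit 0) (nat_lit 0x7dd0b316fe) (nat_lit 1072400472)]
noncomputable def e8_49 : List Rx := [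
  Rx.mk (nat_lit 32) (nat_lit 0) (nat_lit 4) (nat_lit 0) (nat_lit 0) (nat_lit 381) (nat_lit 191) r4_381 r10_191 (nat_lit 0) (nat_lit 0) (nat_lit 0) (nat_lit 0x38e6b45bd8) (nat_lit 34899093216),
  Rx.mk (nat_lit 33) (nat_lit 1) (nat_lit 4) (nat_lit 0) (nat_lit 1) (nat_lit 384) (nat_lit 199) r4_384 r10_199 (nat_lit 0) (nat_lit 0) (nat_lit 0) (nat_lit 0x7ba0e835dc) (nat_lit 2145744432),
  Rx.mk (nat_lit 35) (nat_lit 3) (nat_lit 4) (nat_lit 0) (nat_lit 1) (nat_lit 387) (nat_lit 207) r4_387 r10_207 (nat_lit 0) (nat_lit 0) (nat_lit 0) (nat_lit 0x7c3386eb5e) (nat_lit 1864615896),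
  Rx.mk (nat_lit 40) (nat_lit 0) (nat_lit 5) (nat_lit 0) (nat_lit 2) (nat_lit 390) (nat_lit 192) r4_390 r10_192 (nat_lit 0) (nat_lit 0) (nat_lit 0) (nat_lit 0x7c966bbcae) (nat_lit 1674997272),
  Rx.mk (nat_lit 41) (nat_lit 1) (nat_lit 5) (nat_lit 0) (nat_lit 3) (nat_lit 392) (nat_lit 200) r4_392 r10_200 (nat_lit 0) (nat_lit 0) (nat_lit 0) (nat_lit 0x7ded13b0d8) (nat_lit 1017989856),
  Rx.mk (nat_lit 43) (nat_lit 3) (nat_lit 5) (nat_lit 0) (nat_lit 3) (nat_lit 394) (nat_lit 208) r4_394 r10_208 (nat_lit 0) (nat_lit 0) (nat_lit 0) (nat_lit 0x7de439be80) (nat_lit 1034961408),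
  Rx.mk (nat_lit 56) (nat_lit 0) (nat_lit 7) (nat_lit 0) (nat_lit 2) (nat_lit 396) (nat_lit 193) r4_396 r10_193 (nat_lit 0) (nat_lit 0) (nat_lit 0) (nat_lit 0x7ccea598d8) (nat_lit 1567189728),
  Rx.mk (nat_lit 57) (nat_lit 1) (nat_lit 7) (nat_lit 0) (nat_lit 3) (nat_lit 399) (nat_lit 201) r4_399 r10_201 (nat_lit 0) (nat_lit 0) (nat_lit 0) (nat_lit 0x7dd7e563d2) (nat_lit 1058601960),
  Rx.mk (nat_lit 96) (nat_lit 0) (nat_lit 4) (nat_lit 1) (nat_lit 4) (nat_lit 382) (nat_lit 194) r4_382 r10_194 (nat_lit 0) (nat_lit 0) (nat_lit 0) (nat_lit 0x7d28250088) (nat_lit 1395587232),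
  Rx.mk (nat_lit 97) (nat_lit 1) (nat_lit 4) (nat_lit 1) (nat_lit 5) (nat_lit 385) (nat_lit 202) r4_385 r10_202 (nat_lit 0) (nat_lit 0) (nat_lit 0) (nat_lit 0x7dce487daa) (nat_lit 1077033672),
  Rx.mk (nat_lit 99) (nat_lit 3) (nat_lit 4) (nat_lit 1) (nat_lit 5) (nat_lit 388) (nat_lit 209) r4_388 r10_209 (nat_lit 0) (nat_lit 0) (nat_lit 0) (nat_lit 0x7dcf0cf162) (nat_lit 1075562280),
  Rx.mk (nat_lit 120) (nat_lit 0) (nat_lit 7) (nat_lit 1) (nat_lit 6) (nat_lit 397) (nat_lit 195) r4_397 r10_195 (nat_lit 0) (nat_lit 0) (nat_lit 0) (nat_lit 0x7de473dade) (nat_lit 1034526168),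
  Rx.mk (nat_lit 121) (nat_lit 1) (nat_lit 7) (nat_lit 1) (nat_lit 7) (nat_lit 400) (nat_lit 203) r4_400 r10_203 (nat_lit 0) (nat_lit 0) (nat_lit 0) (nat_lit 0x7df3488d84) (nat_lit 1006089552),
  Rx.mk (nat_lit 160) (nat_lit 0) (nat_lit 4) (nat_lit 2) (nat_lit 4) (nat_lit 383) (nat_lit 196) r4_383 r10_196 (nat_lit 0) (nat_lit 0) (nat_lit 0) (nat_lit 0x7d70d954fa) (nat_lit 1256184072),
  Rx.mk (nat_lit 161) (nat_lit 1) (nat_lit 4) (nat_lit 2) (nat_lit 5) (nat_lit 386) (nat_lit 204) r4_386 r10_204 (nat_lit 0) (nat_lit 0) (nat_lit 0) (nat_lit 0x7df210a104) (nat_lit 1008425808),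
  Rx.mk (nat_lit 168) (nat_lit 0) (nat_lit 5) (nat_lit 2) (nat_lit 6) (nat_lit 391) (nat_lit 197) r4_391 r10_197 (nat_lit 0) (nat_lit 0) (nat_lit 0) (nat_lit 0x7de4ce9532) (nat_lit 1033846632),
  Rx.mk (nat_lit 169) (nat_lit 1) (nat_lit 5) (nat_lit 2) (nat_lit 7) (nat_lit 393) (nat_lit 205) r4_393 r10_205 (nat_lit 0) (nat_lit 0) (nat_lit 0) (nat_lit 0x7df01c204e) (nat_lit 1012174488),
  Rx.mk (nat_lit 184) (nat_lit 0) (nat_lit 7) (nat_lit 2) (nat_lit 6) (nat_lit 398) (nat_lit 198) r4_398 r10_198 (nat_lit 0) (nat_lit 0) (nat_lit 0) (nat_lit 0x7dcd522d10) (nat_lit 1078878528),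
  Rx.mk (nat_lit 185) (nat_lit 1) (nat_lit 7) (nat_lit 2) (nat_lit 7) (nat_lit 401) (nat_lit 206) r4_401 r10_206 (nat_lit 0) (nat_lit 0) (nat_lit 0) (nat_lit 0x7df70fd10c) (nat_lit 998844912),
  Rx.mk (nat_lit 227) (nat_lit 3) (nat_lit 4) (nat_lit 3) (nat_lit 5) (nat_lit 389) (nat_lit 210) r4_389 r10_210 (nat_lit 0) (nat_lit 0) (nat_lit 0) (nat_lit 0x7df1be8626) (nat_lit 1009040760),
  Rx.mk (nat_lit 235) (nat_lit 3) (nat_lit 5) (nat_lit 3) (nat_lit 7) (nat_lit 395) (nat_lit 211) r4_395 r10_211 (nat_lit 0) (nat_lit 0) (nat_lit 0) (nat_lit 0x7df5724ae6) (nat_lit 1001942136)]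
noncomputable def e8_50 : List Rx := [
  Rx.mk (nat_lit 43) (nat_lit 3) (nat_lit 5) (nat_lit 0) (nat_lit 3) (nat_lit 363) (nat_lit 353) r4_363 r10_353 (nat_lit 0) (nat_lit 0) (nat_lit 0) (nat_lit 0x7e35dac41e) (nat_lit 878446296),
  Rx.mk (nat_lit 107) (nat_lit 3) (nat_lit 5) (nat_lit 1) (nat_lit 7) (nat_lit 364) (nat_lit 354) r4_364 r10_354 (nat_lit 0) (nat_lit 0) (nat_lit 0) (nat_lit 0x7df12eef20) (nat_lit 1010116224),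
  Rx.mk (nat_lit 171) (nat_lit 3) (nat_lit 5) (nat_lit 2) (nat_lit 7) (nat_lit 365) (nat_lit 355) r4_365 r10_355 (nat_lit 0) (nat_lit 0) (nat_lit 0) (nat_lit 0x7df06e3b2c) (nat_lit 1011559536)]
noncomputable def e8_51 : List Rx := [
  Rx.mk (nat_lit 103) (nat_lit 7) (nat_lit 4) (nat_lit 1) (nat_lit 5) (nat_lit 89) (nat_lit 67) r4_89 r12_67 (nat_lit 0) (nat_lit 0) (nat_lit 0) (nat_lit 0x7e028ed910) (nat_lit 976802112),
  Rx.mk (nat_lit 116) (nat_lit 4) (nat_lit 6) (nat_lit 1) (nat_lit 6) (nat_lit 90) (nat_lit 66) r4_90 r12_66 (nat_lit 0) (nat_lit 0) (nat_lit 0) (nat_lit 0x7f16fd1118) (nat_lit 446775264),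
  Rx.mk (nat_lit 119) (nat_lit 7) (nat_lit 6) (nat_lit 1) (nat_lit 7) (nat_lit 91) (nat_lit 69) r4_91 r12_69 (nat_lit 0) (nat_lit 0) (nat_lit 0) (nat_lit 0x7eff7569aa) (nat_lit 491891400),
  Rx.mk (nat_lit 127) (nat_lit 7) (nat_lit 7) (nat_lit 1) (nat_lit 7) (nat_lit 92) (nat_lit 68) r4_92 r12_68 (nat_lit 0) (nat_lit 0) (nat_lit 0) (nat_lit 0x7e502f9eb6) (nat_lit 827958456)]
noncomputable def e8_52 : List Rx := [
  Rx.mk (nat_lit 59) (nat_lit 3) (nat_lit 7) (nat_lit 0) (nat_lit 3) (nat_lit 61) (nat_lit 30) r4_61 r12_30 (nat_lit 0) (nat_lit 0) (nat_lit 0) (nat_lit 0x7e3684f97a) (nat_lit 877171464),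
  Rx.mk (nat_lit 63) (nat_lit 7) (nat_lit 7) (nat_lit 0) (nat_lit 3) (nat_lit 63) (nat_lit 28) r4_63 r12_28 (nat_lit 0) (nat_lit 0) (nat_lit 0) (nat_lit 0x7bf02e0130) (nat_lit 1993747392),
  Rx.mk (nat_lit 155) (nat_lit 3) (nat_lit 3) (nat_lit 2) (nat_lit 7) (nat_lit 58) (nat_lit 33) r4_58 r12_33 (nat_lit 0) (nat_lit 0) (nat_lit 0) (nat_lit 0x7e581e7fc0) (nat_lit 812747520),
  Rx.mk (nat_lit 187) (nat_lit 3) (nat_lit 7) (nat_lit 2) (nat_lit 7) (nat_lit 62) (nat_lit 31) r4_62 r12_31 (nat_lit 0) (nat_lit 0) (nat_lit 0) (nat_lit 0x7eac08c0c8) (nat_lit 651849120),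
  Rx.mk (nat_lit 231) (nat_lit 7) (nat_lit 4) (nat_lit 3) (nat_lit 5) (nat_lit 59) (nat_lit 27) r4_59 r12_27 (nat_lit 0) (nat_lit 0) (nat_lit 0) (nat_lit 0x7e7c8d78ac) (nat_lit 742890096),
  Rx.mk (nat_lit 247) (nat_lit 7) (nat_lit 6) (nat_lit 3) (nat_lit 7) (nat_lit 60) (nat_lit 32) r4_60 r12_32 (nat_lit 0) (nat_lit 0) (nat_lit 0) (nat_lit 0x7edd36edb4) (nat_lit 557550864),
  Rx.mk (nat_lit 255) (nat_lit 7) (nat_lit 7) (nat_lit 3) (nat_lit 7) (nat_lit 64) (nat_lit 29) r4_64 r12_29 (nat_lit 0) (nat_lit 0) (nat_lit 0) (nat_lit 0x7d62493e0a) (nat_lit 1284106824)]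
noncomputable def e8_53 : List Rx := [
  Rx.mk (nat_lit 103) (nat_lit 7) (nat_lit 4) (nat_lit 1) (nat_lit 5) (nat_lit 224) (nat_lit 304) r4_224 r12_304 (nat_lit 0) (nat_lit 0) (nat_lit 0) (nat_lit 0x7b83692dea) (nat_lit 2202300360),
  Rx.mk (nat_lit 119) (nat_lit 7) (nat_lit 6) (nat_lit 1) (nat_lit 7) (nat_lit 225) (nat_lit 305) r4_225 r12_305 (nat_lit 0) (nat_lit 0) (nat_lit 0) (nat_lit 0x7b9dce877a) (nat_lit 2151688968)]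
noncomputable def e8_54 : List Rx := [
  Rx.mk (nat_lit 56) (nat_lit 0) (nat_lit 7) (nat_lit 0) (nat_lit 2) (nat_lit 200) (nat_lit 124) r4_200 r12_124 (nat_lit 0) (nat_lit 0) (nat_lit 0) (nat_lit 0x6c41dd75e8) (nat_lit 9690778656),
  Rx.mk (nat_lit 59) (nat_lit 3) (nat_lit 7) (nat_lit 0) (nat_lit 3) (nat_lit 202) (nat_lit 125) r4_202 r12_125 (nat_lit 0) (nat_lit 0) (nat_lit 0) (nat_lit 0x7e00441dbe) (nat_lit 981196632),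
  Rx.mk (nat_lit 152) (nat_lit 0) (nat_lit 3) (nat_lit 2) (nat_lit 6) (nat_lit 195) (nat_lit 130) r4_195 r12_130 (nat_lit 0) (nat_lit 0) (nat_lit 0) (nat_lit 0x7bc8cf5742) (nat_lit 2069234856),
  Rx.mk (nat_lit 154) (nat_lit 2) (nat_lit 3) (nat_lit 2) (nat_lit 7) (nat_lit 196) (nat_lit 133) r4_196 r12_133 (nat_lit 0) (nat_lit 0) (nat_lit 0) (nat_lit 0x7dfbbbc648) (nat_lit 989887392),
  Rx.mk (nat_lit 184) (nat_lit 0) (nat_lit 7) (nat_lit 2) (nat_lit 6) (nat_lit 201) (nat_lit 131) r4_201 r12_131 (nat_lit 0) (nat_lit 0) (nat_lit 0) (nat_lit 0x7a87b0ca6c) (nat_lit 2684947824),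
  Rx.mk (nat_lit 187) (nat_lit 3) (nat_lit 7) (nat_lit 2) (nat_lit 7) (nat_lit 203) (nat_lit 132) r4_203 r12_132 (nat_lit 0) (nat_lit 0) (nat_lit 0) (nat_lit 0x7e76bad5dc) (nat_lit 754054704),
  Rx.mk (nat_lit 227) (nat_lit 3) (nat_lit 4) (nat_lit 3) (nat_lit 5) (nat_lit 197) (nat_lit 126) r4_197 r12_126 (nat_lit 0) (nat_lit 0) (nat_lit 0) (nat_lit 0x7853b78c34) (nat_lit 3766308624),
  Rx.mk (nat_lit 231) (nat_lit 7) (nat_lit 4) (nat_lit 3) (nat_lit 5) (nat_lit 198) (nat_lit 128) r4_198 r12_128 (nat_lit 0) (nat_lit 0) (nat_lit 0) (nat_lit 0x79e6f15704) (nat_lit 2993165136),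
  Rx.mk (nat_lit 247) (nat_lit 7) (nat_lit 6) (nat_lit 3) (nat_lit 7) (nat_lit 199) (nat_lit 129) r4_199 r12_129 (nat_lit 0) (nat_lit 0) (nat_lit 0) (nat_lit 0x7e8a3edd88) (nat_lit 716635296),
  Rx.mk (nat_lit 251) (nat_lit 3) (nat_lit 7) (nat_lit 3) (nat_lit 7) (nat_lit 204) (nat_lit 127) r4_204 r12_127 (nat_lit 0) (nat_lit 0) (nat_lit 0) (nat_lit 0x7e302d3efc) (nat_lit 889332912)]
noncomputable def e8_55 : List Rx := [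
  Rx.mk (nat_lit 32) (nat_lit 0) (nat_lit 4) (nat_lit 0) (nat_lit 0) (nat_lit 315) (nat_lit 152) r4_315 r3_152 (nat_lit 0) (nat_lit 0) (nat_lit 0) (nat_lit 0x72d96d1656) (nat_lit 6455055672),
  Rx.mk (nat_lit 35) (nat_lit 3) (nat_lit 4) (nat_lit 0) (nat_lit 1) (nat_lit 318) (nat_lit 158) r4_318 r3_158 (nat_lit 0) (nat_lit 0) (nat_lit 0) (nat_lit 0x7a41dba804) (nat_lit 2818844496),
  Rx.mk (nat_lit 40) (nat_lit 0) (nat_lit 5) (nat_lit 0) (nat_lit 2) (nat_lit 321) (nat_lit 153) r4_321 r3_153 (nat_lit 0) (nat_lit 0) (nat_lit 0) (nat_lit 0x7824867f74) (nat_lit 3856793616),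
  Rx.mk (nat_lit 43) (nat_lit 3) (nat_lit 5) (nat_lit 0) (nat_lit 3) (nat_lit 324) (nat_lit 159) r4_324 r3_159 (nat_lit 0) (nat_lit 0) (nat_lit 0) (nat_lit 0x7e5e87d924) (nat_lit 800454096),
  Rx.mk (nat_lit 96) (nat_lit 0) (nat_lit 4) (nat_lit 1) (nat_lit 4) (nat_lit 316) (nat_lit 154) r4_316 r3_154 (nat_lit 0) (nat_lit 0) (nat_lit 0) (nat_lit 0x790eef77fa) (nat_lit 3407336712),
  Rx.mk (nat_lit 99) (nat_lit 3) (nat_lit 4) (nat_lit 1) (nat_lit 5) (nat_lit 319) (nat_lit 160) r4_319 r3_160 (nat_lit 0) (nat_lit 0) (nat_lit 0) (nat_lit 0x7e0ef89268) (nat_lit 953001504),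
  Rx.mk (nat_lit 104) (nat_lit 0) (nat_lit 5) (nat_lit 1) (nat_lit 6) (nat_lit 322) (nat_lit 155) r4_322 r3_155 (nat_lit 0) (nat_lit 0) (nat_lit 0) (nat_lit 0x7cbf2d1070) (nat_lit 1596853440),
  Rx.mk (nat_lit 107) (nat_lit 3) (nat_lit 5) (nat_lit 1) (nat_lit 7) (nat_lit 325) (nat_lit 161) r4_325 r3_161 (nat_lit 0) (nat_lit 0) (nat_lit 0) (nat_lit 0x7eb281d930) (nat_lit 639437760),
  Rx.mk (nat_lit 160) (nat_lit 0) (nat_lit 4) (nat_lit 2) (nat_lit 4) (nat_lit 317) (nat_lit 156) r4_317 r3_156 (nat_lit 0) (nat_lit 0) (nat_lit 0) (nat_lit 0x79c6919d20) (nat_lit 3055238784),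
  Rx.mk (nat_lit 163) (nat_lit 3) (nat_lit 4) (nat_lit 2) (nat_lit 5) (nat_lit 320) (nat_lit 162) r4_320 r3_162 (nat_lit 0) (nat_lit 0) (nat_lit 0) (nat_lit 0x7c8fa6290e) (nat_lit 1687981464),
  Rx.mk (nat_lit 168) (nat_lit 0) (nat_lit 5) (nat_lit 2) (nat_lit 6) (nat_lit 323) (nat_lit 157) r4_323 r3_157 (nat_lit 0) (nat_lit 0) (nat_lit 0) (nat_lit 0x7cb07e3b6c) (nat_lit 1625006448),
  Rx.mk (nat_lit 171) (nat_lit 3) (nat_lit 5) (nat_lit 2) (nat_lit 7) (nat_lit 326) (nat_lit 163) r4_326 r3_163 (nat_lit 0) (nat_lit 0) (nat_lit 0) (nat_lit 0x7ea6169ff0) (nat_lit 663249600)]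
noncomputable def e8_56 : List Rx := [
  Rx.mk (nat_lit 32) (nat_lit 0) (nat_lit 4) (nat_lit 0) (nat_lit 0) (nat_lit 366) (nat_lit 169) r4_366 r12_169 (nat_lit 0) (nat_lit 0) (nat_lit 0) (nat_lit 0x656168c414) (nat_lit 13066269840),
  Rx.mk (nat_lit 35) (nat_lit 3) (nat_lit 4) (nat_lit 0) (nat_lit 1) (nat_lit 369) (nat_lit 177) r4_369 r12_177 (nat_lit 0) (nat_lit 0) (nat_lit 0) (nat_lit 0x6fa2424c3a) (nat_lit 8033393160),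
  Rx.mk (nat_lit 40) (nat_lit 0) (nat_lit 5) (nat_lit 0) (nat_lit 2) (nat_lit 373) (nat_lit 170) r4_373 r12_170 (nat_lit 0) (nat_lit 0) (nat_lit 0) (nat_lit 0x7171c2f260) (nat_lit 7144675200),
  Rx.mk (nat_lit 43) (nat_lit 3) (nat_lit 5) (nat_lit 0) (nat_lit 3) (nat_lit 375) (nat_lit 178) r4_375 r12_178 (nat_lit 0) (nat_lit 0) (nat_lit 0) (nat_lit 0x7dd9dfe428) (nat_lit 1054808352),
  Rx.mk (nat_lit 56) (nat_lit 0) (nat_lit 7) (nat_lit 0) (nat_lit 2) (nat_lit 378) (nat_lit 171) r4_378 r12_171 (nat_lit 0) (nat_lit 0) (nat_lit 0) (nat_lit 0x6e2f0d2100) (nat_lit 8745145344),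
  Rx.mk (nat_lit 96) (nat_lit 0) (nat_lit 4) (nat_lit 1) (nat_lit 4) (nat_lit 367) (nat_lit 172) r4_367 r12_172 (nat_lit 0) (nat_lit 0) (nat_lit 0) (nat_lit 0x70f7fe6f22) (nat_lit 7378151976),
  Rx.mk (nat_lit 99) (nat_lit 3) (nat_lit 4) (nat_lit 1) (nat_lit 5) (nat_lit 370) (nat_lit 179) r4_370 r12_179 (nat_lit 0) (nat_lit 0) (nat_lit 0) (nat_lit 0x7e34af96d2) (nat_lit 880687080),
  Rx.mk (nat_lit 120) (nat_lit 0) (nat_lit 7) (nat_lit 1) (nat_lit 6) (nat_lit 379) (nat_lit 173) r4_379 r12_173 (nat_lit 0) (nat_lit 0) (nat_lit 0) (nat_lit 0x7dad2f8f5a) (nat_lit 1140494472),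
  Rx.mk (nat_lit 160) (nat_lit 0) (nat_lit 4) (nat_lit 2) (nat_lit 4) (nat_lit 368) (nat_lit 174) r4_368 r12_174 (nat_lit 0) (nat_lit 0) (nat_lit 0) (nat_lit 0x754ac05eb0) (nat_lit 5256059328),
  Rx.mk (nat_lit 163) (nat_lit 3) (nat_lit 4) (nat_lit 2) (nat_lit 5) (nat_lit 371) (nat_lit 182) r4_371 r12_182 (nat_lit 0) (nat_lit 0) (nat_lit 0) (nat_lit 0x7e20a9174e) (nat_lit 919083672),
  Rx.mk (nat_lit 168) (nat_lit 0) (nat_lit 5) (nat_lit 2) (nat_lit 6) (nat_lit 374) (nat_lit 175) r4_374 r12_175 (nat_lit 0) (nat_lit 0) (nat_lit 0) (nat_lit 0x7d15e364b4) (nat_lit 1430591760),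
  Rx.mk (nat_lit 171) (nat_lit 3) (nat_lit 5) (nat_lit 2) (nat_lit 7) (nat_lit 376) (nat_lit 183) r4_376 r12_183 (nat_lit 0) (nat_lit 0) (nat_lit 0) (nat_lit 0x7e4606e14c) (nat_lit 847437552),
  Rx.mk (nat_lit 184) (nat_lit 0) (nat_lit 7) (nat_lit 2) (nat_lit 6) (nat_lit 380) (nat_lit 176) r4_380 r12_176 (nat_lit 0) (nat_lit 0) (nat_lit 0) (nat_lit 0x7e2ee053cc) (nat_lit 891826416),
  Rx.mk (nat_lit 227) (nat_lit 3) (nat_lit 4) (nat_lit 3) (nat_lit 5) (nat_lit 372) (nat_lit 180) r4_372 r12_180 (nat_lit 0) (nat_lit 0) (nat_lit 0) (nat_lit 0x7d88ecd3aa) (nat_lit 1210020552),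
  Rx.mk (nat_lit 235) (nat_lit 3) (nat_lit 5) (nat_lit 3) (nat_lit 7) (nat_lit 377) (nat_lit 181) r4_377 r12_181 (nat_lit 0) (nat_lit 0) (nat_lit 0) (nat_lit 0x7e0fdfe3f2) (nat_lit 951268968)]
noncomputable def e8_57 : List Rx := [
  Rx.mk (nat_lit 35) (nat_lit 3) (nat_lit 4) (nat_lit 0) (nat_lit 1) (nat_lit 343) (nat_lit 296) r4_343 r12_296 (nat_lit 0) (nat_lit 0) (nat_lit 0) (nat_lit 0x752fda0d30) (nat_lit 5307636672),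
  Rx.mk (nat_lit 43) (nat_lit 3) (nat_lit 5) (nat_lit 0) (nat_lit 3) (nat_lit 346) (nat_lit 299) r4_346 r12_299 (nat_lit 0) (nat_lit 0) (nat_lit 0) (nat_lit 0x79f1f206ee) (nat_lit 2972068632),
  Rx.mk (nat_lit 99) (nat_lit 3) (nat_lit 4) (nat_lit 1) (nat_lit 5) (nat_lit 344) (nat_lit 297) r4_344 r12_297 (nat_lit 0) (nat_lit 0) (nat_lit 0) (nat_lit 0x7defaae762) (nat_lit 1013022504),
  Rx.mk (nat_lit 107) (nat_lit 3) (nat_lit 5) (nat_lit 1) (nat_lit 7) (nat_lit 347) (nat_lit 300) r4_347 r12_300 (nat_lit 0) (nat_lit 0) (nat_lit 0) (nat_lit 0x7e5fb6663a) (nat_lit 798188040),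
  Rx.mk (nat_lit 163) (nat_lit 3) (nat_lit 4) (nat_lit 2) (nat_lit 5) (nat_lit 345) (nat_lit 298) r4_345 r12_298 (nat_lit 0) (nat_lit 0) (nat_lit 0) (nat_lit 0x7ddf492d8e) (nat_lit 1044432792),
  Rx.mk (nat_lit 171) (nat_lit 3) (nat_lit 5) (nat_lit 2) (nat_lit 7) (nat_lit 348) (nat_lit 301) r4_348 r12_301 (nat_lit 0) (nat_lit 0) (nat_lit 0) (nat_lit 0x7e24ff91e2) (nat_lit 910766376)]
noncomputable def e8 : List (List Rx) := [e8_0, e8_1, e8_2, e8_3, e8_4, e8_5, e8_6, e8_7, e8_8, e8_9, e8_10, e8_11, e8_12, e8_13, e8_14, e8_15, e8_16, e8_17, e8_18, e8_19, e8_20, e8_21, e8_22, e8_23, e8_24, e8_25, e8_26, e8_27, e8_28, e8_29, e8_30, e8_31, e8_32, e8_33, e8_34, e8_35, e8_36, e8_37, e8_38, e8_39, e8_40, e8_41, e8_42, e8_43, e8_44, e8_45, e8_46, e8_47, e8_48, e8_49, e8_50, e8_51, e8_52, e8_53, e8_54, e8_55, e8_56, e8_57]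
noncomputable def e9_0 : List Rx := [
  Rx.mk (nat_lit 22) (nat_lit 6) (nat_lit 2) (nat_lit 0) (nat_lit 3) (nat_lit 5) (nat_lit 85) r5_5 r0_85 (nat_lit 0) (nat_lit 0) (nat_lit 0) (nat_lit 0x7e22c49594) (nat_lit 915042960),
  Rx.mk (nat_lit 52) (nat_lit 4) (nat_lit 6) (nat_lit 0) (nat_lit 2) (nat_lit 0) (nat_lit 82) r5_0 r0_82 (nat_lit 0) (nat_lit 0) (nat_lit 0) (nat_lit 0x618a963514) (nat_lit 14950729872),
  Rx.mk (nat_lit 54) (nat_lit 6) (nat_lit 6) (nat_lit 0) (nat_lit 3) (nat_lit 3) (nat_lit 87) r5_3 r0_87 (nat_lit 0) (nat_lit 0) (nat_lit 0) (nat_lit 0x7a8f772dfe) (nat_lit 2670040152),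
  Rx.mk (nat_lit 86) (nat_lit 6) (nat_lit 2) (nat_lit 1) (nat_lit 7) (nat_lit 6) (nat_lit 86) r5_6 r0_86 (nat_lit 0) (nat_lit 0) (nat_lit 0) (nat_lit 0x7f7c66ba18) (nat_lit 252326880),
  Rx.mk (nat_lit 116) (nat_lit 4) (nat_lit 6) (nat_lit 1) (nat_lit 6) (nat_lit 1) (nat_lit 83) r5_1 r0_83 (nat_lit 0) (nat_lit 0) (nat_lit 0) (nat_lit 0x7c10d4f6a0) (nat_lit 1931140224),
  Rx.mk (nat_lit 118) (nat_lit 6) (nat_lit 6) (nat_lit 1) (nat_lit 7) (nat_lit 4) (nat_lit 88) r5_4 r0_88 (nat_lit 0) (nat_lit 0) (nat_lit 0) (nat_lit 0x7e4a371e44) (nat_lit 839406672),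
  Rx.mk (nat_lit 180) (nat_lit 4) (nat_lit 6) (nat_lit 2) (nat_lit 6) (nat_lit 2) (nat_lit 84) r5_2 r0_84 (nat_lit 0) (nat_lit 0) (nat_lit 0) (nat_lit 0x7ba7d706e8) (nat_lit 2132451360)]
noncomputable def e9_1 : List Rx := [
  Rx.mk (nat_lit 86) (nat_lit 6) (nat_lit 2) (nat_lit 1) (nat_lit 7) (nat_lit 9) (nat_lit 89) r5_9 r1_89 (nat_lit 0) (nat_lit 0) (nat_lit 0) (nat_lit 0x7f31e242aa) (nat_lit 395206344),
  Rx.mk (nat_lit 116) (nat_lit 4) (nat_lit 6) (nat_lit 1) (nat_lit 6) (nat_lit 7) (nat_lit 88) r5_7 r1_88 (nat_lit 0) (nat_lit 0) (nat_lit 0) (nat_lit 0x7e6bb54640) (nat_lit 775187712),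
  Rx.mk (nat_lit 118) (nat_lit 6) (nat_lit 6) (nat_lit 1) (nat_lit 7) (nat_lit 8) (nat_lit 90) r5_8 r1_90 (nat_lit 0) (nat_lit 0) (nat_lit 0) (nat_lit 0x7e406c7af8) (nat_lit 858180960)]
noncomputable def e9_2 : List Rx := [
  Rx.mk (nat_lit 86) (nat_lit 6) (nat_lit 2) (nat_lit 1) (nat_lit 7) (nat_lit 11) (nat_lit 94) r5_11 r2_94 (nat_lit 0) (nat_lit 0) (nat_lit 0) (nat_lit 0x7de5390e8a) (nat_lit 1033049160),
  Rx.mk (nat_lit 342) (nat_lit 6) (nat_lit 2) (nat_lit 5) (nat_lit 7) (nat_lit 10) (nat_lit 95) r5_10 r2_95 (nat_lit 0) (nat_lit 0) (nat_lit 0) (nat_lit 0x7de5390e8a) (nat_lit 1033049160)]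
noncomputable def e9_3 : List Rx := [
  Rx.mk (nat_lit 22) (nat_lit 6) (nat_lit 2) (nat_lit 0) (nat_lit 3) (nat_lit 15) (nat_lit 77) r5_15 r3_77 (nat_lit 0) (nat_lit 0) (nat_lit 0) (nat_lit 0x770d966f8c) (nat_lit 4391627760),
  Rx.mk (nat_lit 52) (nat_lit 4) (nat_lit 6) (nat_lit 0) (nat_lit 2) (nat_lit 12) (nat_lit 72) r5_12 r3_72 (nat_lit 0) (nat_lit 0) (nat_lit 0) (nat_lit 0x7ffa96b69a) (nat_lit 10375560),
  Rx.mk (nat_lit 54) (nat_lit 6) (nat_lit 6) (nat_lit 0) (nat_lit 3) (nat_lit 14) (nat_lit 79) r5_14 r3_79 (nat_lit 0) (nat_lit 0) (nat_lit 0) (nat_lit 0x783b195630) (nat_lit 3813511104),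
  Rx.mk (nat_lit 55) (nat_lit 7) (nat_lit 6) (nat_lit 0) (nat_lit 3) (nat_lit 18) (nat_lit 75) r5_18 r3_75 (nat_lit 0) (nat_lit 0) (nat_lit 0) (nat_lit 0x7ea6edd27c) (nat_lit 661637808),
  Rx.mk (nat_lit 167) (nat_lit 7) (nat_lit 4) (nat_lit 2) (nat_lit 5) (nat_lit 17) (nat_lit 74) r5_17 r3_74 (nat_lit 0) (nat_lit 0) (nat_lit 0) (nat_lit 0x7ec8641af6) (nat_lit 597477816),
  Rx.mk (nat_lit 180) (nat_lit 4) (nat_lit 6) (nat_lit 2) (nat_lit 6) (nat_lit 13) (nat_lit 73) r5_13 r3_73 (nat_lit 0) (nat_lit 0) (nat_lit 0) (nat_lit 0x78c2869ed4) (nat_lit 3553844112),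
  Rx.mk (nat_lit 183) (nat_lit 7) (nat_lit 6) (nat_lit 2) (nat_lit 7) (nat_lit 19) (nat_lit 76) r5_19 r3_76 (nat_lit 0) (nat_lit 0) (nat_lit 0) (nat_lit 0x7f51b98516) (nat_lit 334154808),
  Rx.mk (nat_lit 214) (nat_lit 6) (nat_lit 2) (nat_lit 3) (nat_lit 7) (nat_lit 16) (nat_lit 78) r5_16 r3_78 (nat_lit 0) (nat_lit 0) (nat_lit 0) (nat_lit 0x7f3a4a3c22) (nat_lit 379088424)]
noncomputable def e9_4 : List Rx := [
  Rx.mk (nat_lit 22) (nat_lit 6) (nat_lit 2) (nat_lit 0) (nat_lit 3) (nat_lit 25) (nat_lit 84) r5_25 r4_84 (nat_lit 0) (nat_lit 0) (nat_lit 0) (nat_lit 0x7e271210b8) (nat_lit 906793056),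
  Rx.mk (nat_lit 52) (nat_lit 4) (nat_lit 6) (nat_lit 0) (nat_lit 2) (nat_lit 20) (nat_lit 78) r5_20 r4_78 (nat_lit 0) (nat_lit 0) (nat_lit 0) (nat_lit 0x73b85e8660) (nat_lit 6027585408),
  Rx.mk (nat_lit 54) (nat_lit 6) (nat_lit 6) (nat_lit 0) (nat_lit 3) (nat_lit 23) (nat_lit 87) r5_23 r4_87 (nat_lit 0) (nat_lit 0) (nat_lit 0) (nat_lit 0x7dc900f228) (nat_lit 1087156512),
  Rx.mk (nat_lit 55) (nat_lit 7) (nat_lit 6) (nat_lit 0) (nat_lit 3) (nat_lit 28) (nat_lit 81) r5_28 r4_81 (nat_lit 0) (nat_lit 0) (nat_lit 0) (nat_lit 0x725645c94e) (nat_lit 6706528920),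
  Rx.mk (nat_lit 86) (nat_lit 6) (nat_lit 2) (nat_lit 1) (nat_lit 7) (nat_lit 26) (nat_lit 85) r5_26 r4_85 (nat_lit 0) (nat_lit 0) (nat_lit 0) (nat_lit 0x7e3b9e07e4) (nat_lit 867396816),
  Rx.mk (nat_lit 116) (nat_lit 4) (nat_lit 6) (nat_lit 1) (nat_lit 6) (nat_lit 21) (nat_lit 79) r5_21 r4_79 (nat_lit 0) (nat_lit 0) (nat_lit 0) (nat_lit 0x7e786b1ad6) (nat_lit 750817080),
  Rx.mk (nat_lit 118) (nat_lit 6) (nat_lit 6) (nat_lit 1) (nat_lit 7) (nat_lit 24) (nat_lit 88) r5_24 r4_88 (nat_lit 0) (nat_lit 0) (nat_lit 0) (nat_lit 0x7dda26bfba) (nat_lit 1054277640),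
  Rx.mk (nat_lit 119) (nat_lit 7) (nat_lit 6) (nat_lit 1) (nat_lit 7) (nat_lit 29) (nat_lit 82) r5_29 r4_82 (nat_lit 0) (nat_lit 0) (nat_lit 0) (nat_lit 0x7efcc334d0) (nat_lit 497060928),
  Rx.mk (nat_lit 180) (nat_lit 4) (nat_lit 6) (nat_lit 2) (nat_lit 6) (nat_lit 22) (nat_lit 80) r5_22 r4_80 (nat_lit 0) (nat_lit 0) (nat_lit 0) (nat_lit 0x7cf80582b0) (nat_lit 1487858112),
  Rx.mk (nat_lit 183) (nat_lit 7) (nat_lit 6) (nat_lit 2) (nat_lit 7) (nat_lit 30) (nat_lit 83) r5_30 r4_83 (nat_lit 0) (nat_lit 0) (nat_lit 0) (nat_lit 0x7ee231fdfe) (nat_lit 548000856),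
  Rx.mk (nat_lit 214) (nat_lit 6) (nat_lit 2) (nat_lit 3) (nat_lit 7) (nat_lit 27) (nat_lit 86) r5_27 r4_86 (nat_lit 0) (nat_lit 0) (nat_lit 0) (nat_lit 0x7e2a2b5f20) (nat_lit 900851328)]
noncomputable def e9_5 : List Rx := [
  Rx.mk (nat_lit 258) (nat_lit 2) (nat_lit 0) (nat_lit 4) (nat_lit 1) (nat_lit 44) (nat_lit 72) r5_44 r3_72 (nat_lit 0) (nat_lit 0) (nat_lit 0) (nat_lit 0x7ffa96b69a) (nat_lit 10375560),
  Rx.mk (nat_lit 274) (nat_lit 2) (nat_lit 2) (nat_lit 4) (nat_lit 3) (nat_lit 46) (nat_lit 79) r5_46 r3_79 (nat_lit 0) (nat_lit 0) (nat_lit 0) (nat_lit 0x783b195630) (nat_lit 3813511104),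
  Rx.mk (nat_lit 278) (nat_lit 6) (nat_lit 2) (nat_lit 4) (nat_lit 3) (nat_lit 41) (nat_lit 77) r5_41 r3_77 (nat_lit 0) (nat_lit 0) (nat_lit 0) (nat_lit 0x770d966f8c) (nat_lit 4391627760),
  Rx.mk (nat_lit 282) (nat_lit 2) (nat_lit 3) (nat_lit 4) (nat_lit 3) (nat_lit 47) (nat_lit 75) r5_47 r3_75 (nat_lit 0) (nat_lit 0) (nat_lit 0) (nat_lit 0x7ea6edd27c) (nat_lit 661637808),
  Rx.mk (nat_lit 386) (nat_lit 2) (nat_lit 0) (nat_lit 6) (nat_lit 5) (nat_lit 45) (nat_lit 73) r5_45 r3_73 (nat_lit 0) (nat_lit 0) (nat_lit 0) (nat_lit 0x78c2869ed4) (nat_lit 3553844112),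
  Rx.mk (nat_lit 408) (nat_lit 0) (nat_lit 3) (nat_lit 6) (nat_lit 6) (nat_lit 43) (nat_lit 74) r5_43 r3_74 (nat_lit 0) (nat_lit 0) (nat_lit 0) (nat_lit 0x7ec8641af6) (nat_lit 597477816),
  Rx.mk (nat_lit 410) (nat_lit 2) (nat_lit 3) (nat_lit 6) (nat_lit 7) (nat_lit 48) (nat_lit 76) r5_48 r3_76 (nat_lit 0) (nat_lit 0) (nat_lit 0) (nat_lit 0x7f51b98516) (nat_lit 334154808),
  Rx.mk (nat_lit 470) (nat_lit 6) (nat_lit 2) (nat_lit 7) (nat_lit 7) (nat_lit 42) (nat_lit 78) r5_42 r3_78 (nat_lit 0) (nat_lit 0) (nat_lit 0) (nat_lit 0x7f3a4a3c22) (nat_lit 379088424)]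
noncomputable def e9_6 : List Rx := [
  Rx.mk (nat_lit 258) (nat_lit 2) (nat_lit 0) (nat_lit 4) (nat_lit 1) (nat_lit 51) (nat_lit 82) r5_51 r0_82 (nat_lit 0) (nat_lit 0) (nat_lit 0) (nat_lit 0x618a963514) (nat_lit 14950729872),
  Rx.mk (nat_lit 274) (nat_lit 2) (nat_lit 2) (nat_lit 4) (nat_lit 3) (nat_lit 54) (nat_lit 87) r5_54 r0_87 (nat_lit 0) (nat_lit 0) (nat_lit 0) (nat_lit 0x7a8f772dfe) (nat_lit 2670040152),
  Rx.mk (nat_lit 278) (nat_lit 6) (nat_lit 2) (nat_lit 4) (nat_lit 3) (nat_lit 49) (nat_lit 85) r5_49 r0_85 (nat_lit 0) (nat_lit 0) (nat_lit 0) (nat_lit 0x7e22c49594) (nat_lit 915042960),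
  Rx.mk (nat_lit 322) (nat_lit 2) (nat_lit 0) (nat_lit 5) (nat_lit 5) (nat_lit 52) (nat_lit 83) r5_52 r0_83 (nat_lit 0) (nat_lit 0) (nat_lit 0) (nat_lit 0x7c10d4f6a0) (nat_lit 1931140224),
  Rx.mk (nat_lit 338) (nat_lit 2) (nat_lit 2) (nat_lit 5) (nat_lit 7) (nat_lit 55) (nat_lit 88) r5_55 r0_88 (nat_lit 0) (nat_lit 0) (nat_lit 0) (nat_lit 0x7e4a371e44) (nat_lit 839406672),
  Rx.mk (nat_lit 342) (nat_lit 6) (nat_lit 2) (nat_lit 5) (nat_lit 7) (nat_lit 50) (nat_lit 86) r5_50 r0_86 (nat_lit 0) (nat_lit 0) (nat_lit 0) (nat_lit 0x7f7c66ba18) (nat_lit 252326880),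
  Rx.mk (nat_lit 386) (nat_lit 2) (nat_lit 0) (nat_lit 6) (nat_lit 5) (nat_lit 53) (nat_lit 84) r5_53 r0_84 (nat_lit 0) (nat_lit 0) (nat_lit 0) (nat_lit 0x7ba7d706e8) (nat_lit 2132451360)]
noncomputable def e9_7 : List Rx := [
  Rx.mk (nat_lit 322) (nat_lit 2) (nat_lit 0) (nat_lit 5) (nat_lit 5) (nat_lit 57) (nat_lit 88) r5_57 r1_88 (nat_lit 0) (nat_lit 0) (nat_lit 0) (nat_lit 0x7e6bb54640) (nat_lit 775187712),
  Rx.mk (nat_lit 338) (nat_lit 2) (nat_lit 2) (nat_lit 5) (nat_lit 7) (nat_lit 58) (nat_lit 90) r5_58 r1_90 (nat_lit 0) (nat_lit 0) (nat_lit 0) (nat_lit 0x7e406c7af8) (nat_lit 858180960),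
  Rx.mk (nat_lit 342) (nat_lit 6) (nat_lit 2) (nat_lit 5) (nat_lit 7) (nat_lit 56) (nat_lit 89) r5_56 r1_89 (nat_lit 0) (nat_lit 0) (nat_lit 0) (nat_lit 0x7f31e242aa) (nat_lit 395206344)]
noncomputable def e9_8 : List Rx := [
  Rx.mk (nat_lit 258) (nat_lit 2) (nat_lit 0) (nat_lit 4) (nat_lit 1) (nat_lit 62) (nat_lit 78) r5_62 r4_78 (nat_lit 0) (nat_lit 0) (nat_lit 0) (nat_lit 0x73b85e8660) (nat_lit 6027585408),
  Rx.mk (nat_lit 274) (nat_lit 2) (nat_lit 2) (nat_lit 4) (nat_lit 3) (nat_lit 65) (nat_lit 87) r5_65 r4_87 (nat_lit 0) (nat_lit 0) (nat_lit 0) (nat_lit 0x7dc900f228) (nat_lit 1087156512),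
  Rx.mk (nat_lit 278) (nat_lit 6) (nat_lit 2) (nat_lit 4) (nat_lit 3) (nat_lit 59) (nat_lit 84) r5_59 r4_84 (nat_lit 0) (nat_lit 0) (nat_lit 0) (nat_lit 0x7e271210b8) (nat_lit 906793056),
  Rx.mk (nat_lit 282) (nat_lit 2) (nat_lit 3) (nat_lit 4) (nat_lit 3) (nat_lit 67) (nat_lit 81) r5_67 r4_81 (nat_lit 0) (nat_lit 0) (nat_lit 0) (nat_lit 0x725645c94e) (nat_lit 6706528920),
  Rx.mk (nat_lit 322) (nat_lit 2) (nat_lit 0) (nat_lit 5) (nat_lit 5) (nat_lit 63) (nat_lit 79) r5_63 r4_79 (nat_lit 0) (nat_lit 0) (nat_lit 0) (nat_lit 0x7e786b1ad6) (nat_lit 750817080),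
  Rx.mk (nat_lit 338) (nat_lit 2) (nat_lit 2) (nat_lit 5) (nat_lit 7) (nat_lit 66) (nat_lit 88) r5_66 r4_88 (nat_lit 0) (nat_lit 0) (nat_lit 0) (nat_lit 0x7dda26bfba) (nat_lit 1054277640),
  Rx.mk (nat_lit 342) (nat_lit 6) (nat_lit 2) (nat_lit 5) (nat_lit 7) (nat_lit 60) (nat_lit 85) r5_60 r4_85 (nat_lit 0) (nat_lit 0) (nat_lit 0) (nat_lit 0x7e3b9e07e4) (nat_lit 867396816),
  Rx.mk (nat_lit 346) (nat_lit 2) (nat_lit 3) (nat_lit 5) (nat_lit 7) (nat_lit 68) (nat_lit 82) r5_68 r4_82 (nat_lit 0) (nat_lit 0) (nat_lit 0) (nat_lit 0x7efcc334d0) (nat_lit 497060928),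
  Rx.mk (nat_lit 386) (nat_lit 2) (nat_lit 0) (nat_lit 6) (nat_lit 5) (nat_lit 64) (nat_lit 80) r5_64 r4_80 (nat_lit 0) (nat_lit 0) (nat_lit 0) (nat_lit 0x7cf80582b0) (nat_lit 1487858112),
  Rx.mk (nat_lit 410) (nat_lit 2) (nat_lit 3) (nat_lit 6) (nat_lit 7) (nat_lit 69) (nat_lit 83) r5_69 r4_83 (nat_lit 0) (nat_lit 0) (nat_lit 0) (nat_lit 0x7ee231fdfe) (nat_lit 548000856),
  Rx.mk (nat_lit 470) (nat_lit 6) (nat_lit 2) (nat_lit 7) (nat_lit 7) (nat_lit 61) (nat_lit 86) r5_61 r4_86 (nat_lit 0) (nat_lit 0) (nat_lit 0) (nat_lit 0x7e2a2b5f20) (nat_lit 900851328)]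
noncomputable def e9_9 : List Rx := [
  Rx.mk (nat_lit 55) (nat_lit 7) (nat_lit 6) (nat_lit 0) (nat_lit 3) (nat_lit 75) (nat_lit 82) r5_75 r5_82 (nat_lit 0) (nat_lit 0) (nat_lit 0) (nat_lit 0x7c72d1b672) (nat_lit 1743259752),
  Rx.mk (nat_lit 167) (nat_lit 7) (nat_lit 4) (nat_lit 2) (nat_lit 5) (nat_lit 74) (nat_lit 80) r5_74 r5_80 (nat_lit 0) (nat_lit 0) (nat_lit 0) (nat_lit 0x7f1b9167ce) (nat_lit 437994648),
  Rx.mk (nat_lit 183) (nat_lit 7) (nat_lit 6) (nat_lit 2) (nat_lit 7) (nat_lit 76) (nat_lit 84) r5_76 r5_84 (nat_lit 0) (nat_lit 0) (nat_lit 0) (nat_lit 0x7f92b974d6) (nat_lit 209524536),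
  Rx.mk (nat_lit 187) (nat_lit 3) (nat_lit 7) (nat_lit 2) (nat_lit 7) (nat_lit 86) (nat_lit 72) r5_86 r5_72 (nat_lit 0) (nat_lit 0) (nat_lit 0) (nat_lit 0x7f4c02a08a) (nat_lit 345111624),
  Rx.mk (nat_lit 191) (nat_lit 7) (nat_lit 7) (nat_lit 2) (nat_lit 7) (nat_lit 78) (nat_lit 81) r5_78 r5_81 (nat_lit 0) (nat_lit 0) (nat_lit 0) (nat_lit 0x7b9a5a7ebe) (nat_lit 2158310232),
  Rx.mk (nat_lit 214) (nat_lit 6) (nat_lit 2) (nat_lit 3) (nat_lit 7) (nat_lit 73) (nat_lit 85) r5_73 r5_85 (nat_lit 0) (nat_lit 0) (nat_lit 0) (nat_lit 0x7f4c02a08a) (nat_lit 345111624),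
  Rx.mk (nat_lit 244) (nat_lit 4) (nat_lit 6) (nat_lit 3) (nat_lit 6) (nat_lit 70) (nat_lit 79) r5_70 r5_79 (nat_lit 0) (nat_lit 0) (nat_lit 0) (nat_lit 0x7f1b9167ce) (nat_lit 437994648),
  Rx.mk (nat_lit 246) (nat_lit 6) (nat_lit 6) (nat_lit 3) (nat_lit 7) (nat_lit 71) (nat_lit 87) r5_71 r5_87 (nat_lit 0) (nat_lit 0) (nat_lit 0) (nat_lit 0x7b9a5a7ebe) (nat_lit 2158310232),
  Rx.mk (nat_lit 247) (nat_lit 7) (nat_lit 6) (nat_lit 3) (nat_lit 7) (nat_lit 77) (nat_lit 83) r5_77 r5_83 (nat_lit 0) (nat_lit 0) (nat_lit 0) (nat_lit 0x7f92b974d6) (nat_lit 209524536),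
  Rx.mk (nat_lit 282) (nat_lit 2) (nat_lit 3) (nat_lit 4) (nat_lit 3) (nat_lit 82) (nat_lit 75) r5_82 r5_75 (nat_lit 0) (nat_lit 0) (nat_lit 0) (nat_lit 0x7c72d1b672) (nat_lit 1743259752),
  Rx.mk (nat_lit 408) (nat_lit 0) (nat_lit 3) (nat_lit 6) (nat_lit 6) (nat_lit 79) (nat_lit 70) r5_79 r5_70 (nat_lit 0) (nat_lit 0) (nat_lit 0) (nat_lit 0x7f1b9167ce) (nat_lit 437994648),
  Rx.mk (nat_lit 410) (nat_lit 2) (nat_lit 3) (nat_lit 6) (nat_lit 7) (nat_lit 83) (nat_lit 77) r5_83 r5_77 (nat_lit 0) (nat_lit 0) (nat_lit 0) (nat_lit 0x7f92b974d6) (nat_lit 209524536),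
  Rx.mk (nat_lit 411) (nat_lit 3) (nat_lit 3) (nat_lit 6) (nat_lit 7) (nat_lit 87) (nat_lit 71) r5_87 r5_71 (nat_lit 0) (nat_lit 0) (nat_lit 0) (nat_lit 0x7b9a5a7ebe) (nat_lit 2158310232),
  Rx.mk (nat_lit 443) (nat_lit 3) (nat_lit 7) (nat_lit 6) (nat_lit 7) (nat_lit 85) (nat_lit 73) r5_85 r5_73 (nat_lit 0) (nat_lit 0) (nat_lit 0) (nat_lit 0x7f4c02a08a) (nat_lit 345111624),
  Rx.mk (nat_lit 450) (nat_lit 2) (nat_lit 0) (nat_lit 7) (nat_lit 5) (nat_lit 80) (nat_lit 74) r5_80 r5_74 (nat_lit 0) (nat_lit 0) (nat_lit 0) (nat_lit 0x7f1b9167ce) (nat_lit 437994648),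
  Rx.mk (nat_lit 466) (nat_lit 2) (nat_lit 2) (nat_lit 7) (nat_lit 7) (nat_lit 81) (nat_lit 78) r5_81 r5_78 (nat_lit 0) (nat_lit 0) (nat_lit 0) (nat_lit 0x7b9a5a7ebe) (nat_lit 2158310232),
  Rx.mk (nat_lit 470) (nat_lit 6) (nat_lit 2) (nat_lit 7) (nat_lit 7) (nat_lit 72) (nat_lit 86) r5_72 r5_86 (nat_lit 0) (nat_lit 0) (nat_lit 0) (nat_lit 0x7f4c02a08a) (nat_lit 345111624),
  Rx.mk (nat_lit 474) (nat_lit 2) (nat_lit 3) (nat_lit 7) (nat_lit 7) (nat_lit 84) (nat_lit 76) r5_84 r5_76 (nat_lit 0) (nat_lit 0) (nat_lit 0) (nat_lit 0x7f92b974d6) (nat_lit 209524536)]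
noncomputable def e9_10 : List Rx := [
  Rx.mk (nat_lit 22) (nat_lit 6) (nat_lit 2) (nat_lit 0) (nat_lit 3) (nat_lit 105) (nat_lit 231) r5_105 r0_231 (nat_lit 0) (nat_lit 0) (nat_lit 0) (nat_lit 0x7b678c2bd6) (nat_lit 2255725368),
  Rx.mk (nat_lit 52) (nat_lit 4) (nat_lit 6) (nat_lit 0) (nat_lit 2) (nat_lit 99) (nat_lit 228) r5_99 r0_228 (nat_lit 0) (nat_lit 0) (nat_lit 0) (nat_lit 0x746fc68f28) (nat_lit 5675922720),
  Rx.mk (nat_lit 53) (nat_lit 5) (nat_lit 6) (nat_lit 0) (nat_lit 3) (nat_lit 102) (nat_lit 229) r5_102 r0_229 (nat_lit 0) (nat_lit 0) (nat_lit 0) (nat_lit 0x7f864e9b90) (nat_lit 233333568),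
  Rx.mk (nat_lit 54) (nat_lit 6) (nat_lit 6) (nat_lit 0) (nat_lit 3) (nat_lit 104) (nat_lit 230) r5_104 r0_230 (nat_lit 0) (nat_lit 0) (nat_lit 0) (nat_lit 0x7d3f0c91f8) (nat_lit 1351670112),
  Rx.mk (nat_lit 164) (nat_lit 4) (nat_lit 4) (nat_lit 2) (nat_lit 4) (nat_lit 98) (nat_lit 232) r5_98 r0_232 (nat_lit 0) (nat_lit 0) (nat_lit 0) (nat_lit 0x75597c52e2) (nat_lit 5227808040),
  Rx.mk (nat_lit 165) (nat_lit 5) (nat_lit 4) (nat_lit 2) (nat_lit 5) (nat_lit 101) (nat_lit 233) r5_101 r0_233 (nat_lit 0) (nat_lit 0) (nat_lit 0) (nat_lit 0x7fa8fdf078) (nat_lit 166828896),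
  Rx.mk (nat_lit 180) (nat_lit 4) (nat_lit 6) (nat_lit 2) (nat_lit 6) (nat_lit 100) (nat_lit 234) r5_100 r0_234 (nat_lit 0) (nat_lit 0) (nat_lit 0) (nat_lit 0x7ee77f2926) (nat_lit 537835896),
  Rx.mk (nat_lit 181) (nat_lit 5) (nat_lit 6) (nat_lit 2) (nat_lit 7) (nat_lit 103) (nat_lit 235) r5_103 r0_235 (nat_lit 0) (nat_lit 0) (nat_lit 0) (nat_lit 0x7f62ec71d6) (nat_lit 301177656)]
noncomputable def e9_11 : List Rx := [
  Rx.mk (nat_lit 22) (nat_lit 6) (nat_lit 2) (nat_lit 0) (nat_lit 3) (nat_lit 114) (nat_lit 84) r5_114 r6_84 (nat_lit 0) (nat_lit 0) (nat_lit 0) (nat_lit 0x7e9d322e40) (nat_lit 680299776),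
  Rx.mk (nat_lit 52) (nat_lit 4) (nat_lit 6) (nat_lit 0) (nat_lit 2) (nat_lit 106) (nat_lit 78) r5_106 r6_78 (nat_lit 0) (nat_lit 0) (nat_lit 0) (nat_lit 0x75d0a39ff6) (nat_lit 4999343544),
  Rx.mk (nat_lit 53) (nat_lit 5) (nat_lit 6) (nat_lit 0) (nat_lit 3) (nat_lit 109) (nat_lit 81) r5_109 r6_81 (nat_lit 0) (nat_lit 0) (nat_lit 0) (nat_lit 0x7e658ba8e0) (nat_lit 787003776),
  Rx.mk (nat_lit 54) (nat_lit 6) (nat_lit 6) (nat_lit 0) (nat_lit 3) (nat_lit 112) (nat_lit 86) r5_112 r6_86 (nat_lit 0) (nat_lit 0) (nat_lit 0) (nat_lit 0x7dc43a5e96) (nat_lit 1096313400),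
  Rx.mk (nat_lit 86) (nat_lit 6) (nat_lit 2) (nat_lit 1) (nat_lit 7) (nat_lit 115) (nat_lit 85) r5_115 r6_85 (nat_lit 0) (nat_lit 0) (nat_lit 0) (nat_lit 0x7e6dd4e444) (nat_lit 771116112),
  Rx.mk (nat_lit 116) (nat_lit 4) (nat_lit 6) (nat_lit 1) (nat_lit 6) (nat_lit 107) (nat_lit 79) r5_107 r6_79 (nat_lit 0) (nat_lit 0) (nat_lit 0) (nat_lit 0x7e3c4d7cec) (nat_lit 866082672),
  Rx.mk (nat_lit 117) (nat_lit 5) (nat_lit 6) (nat_lit 1) (nat_lit 7) (nat_lit 110) (nat_lit 82) r5_110 r6_82 (nat_lit 0) (nat_lit 0) (nat_lit 0) (nat_lit 0x7dd032df02) (nat_lit 1073360808),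
  Rx.mk (nat_lit 118) (nat_lit 6) (nat_lit 6) (nat_lit 1) (nat_lit 7) (nat_lit 113) (nat_lit 87) r5_113 r6_87 (nat_lit 0) (nat_lit 0) (nat_lit 0) (nat_lit 0x7dd8ca1586) (nat_lit 1056889080),
  Rx.mk (nat_lit 180) (nat_lit 4) (nat_lit 6) (nat_lit 2) (nat_lit 6) (nat_lit 108) (nat_lit 80) r5_108 r6_80 (nat_lit 0) (nat_lit 0) (nat_lit 0) (nat_lit 0x7e7262db60) (nat_lit 762383232),
  Rx.mk (nat_lit 181) (nat_lit 5) (nat_lit 6) (nat_lit 2) (nat_lit 7) (nat_lit 111) (nat_lit 83) r5_111 r6_83 (nat_lit 0) (nat_lit 0) (nat_lit 0) (nat_lit 0x7e468179a2) (nat_lit 846519336)]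
noncomputable def e9_12 : List Rx := [
  Rx.mk (nat_lit 53) (nat_lit 5) (nat_lit 6) (nat_lit 0) (nat_lit 3) (nat_lit 117) (nat_lit 246) r5_117 r1_246 (nat_lit 0) (nat_lit 0) (nat_lit 0) (nat_lit 0x7f6760ea8a) (nat_lit 292635720),
  Rx.mk (nat_lit 165) (nat_lit 5) (nat_lit 4) (nat_lit 2) (nat_lit 5) (nat_lit 116) (nat_lit 247) r5_116 r1_247 (nat_lit 0) (nat_lit 0) (nat_lit 0) (nat_lit 0x7f624a1bfc) (nat_lit 302393520),
  Rx.mk (nat_lit 181) (nat_lit 5) (nat_lit 6) (nat_lit 2) (nat_lit 7) (nat_lit 118) (nat_lit 248) r5_118 r1_248 (nat_lit 0) (nat_lit 0) (nat_lit 0) (nat_lit 0x7e75103088) (nat_lit 757250208)]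
noncomputable def e9_13 : List Rx := [
  Rx.mk (nat_lit 53) (nat_lit 5) (nat_lit 6) (nat_lit 0) (nat_lit 3) (nat_lit 119) (nat_lit 71) r5_119 r7_71 (nat_lit 0) (nat_lit 0) (nat_lit 0) (nat_lit 0x7e43268f54) (nat_lit 852952464),
  Rx.mk (nat_lit 117) (nat_lit 5) (nat_lit 6) (nat_lit 1) (nat_lit 7) (nat_lit 120) (nat_lit 72) r5_120 r7_72 (nat_lit 0) (nat_lit 0) (nat_lit 0) (nat_lit 0x7df5604c06) (nat_lit 1002076920),
  Rx.mk (nat_lit 181) (nat_lit 5) (nat_lit 6) (nat_lit 2) (nat_lit 7) (nat_lit 121) (nat_lit 73) r5_121 r7_73 (nat_lit 0) (nat_lit 0) (nat_lit 0) (nat_lit 0x7dbca6f7d4) (nat_lit 1110839184)]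
noncomputable def e9_14 : List Rx := [
  Rx.mk (nat_lit 86) (nat_lit 6) (nat_lit 2) (nat_lit 1) (nat_lit 7) (nat_lit 125) (nat_lit 224) r5_125 r7_224 (nat_lit 0) (nat_lit 0) (nat_lit 0) (nat_lit 0x7dd520102a) (nat_lit 1063914696),
  Rx.mk (nat_lit 116) (nat_lit 4) (nat_lit 6) (nat_lit 1) (nat_lit 6) (nat_lit 122) (nat_lit 221) r5_122 r7_221 (nat_lit 0) (nat_lit 0) (nat_lit 0) (nat_lit 0x7dbcf8b2b8) (nat_lit 1110227040),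
  Rx.mk (nat_lit 117) (nat_lit 5) (nat_lit 6) (nat_lit 1) (nat_lit 7) (nat_lit 123) (nat_lit 222) r5_123 r7_222 (nat_lit 0) (nat_lit 0) (nat_lit 0) (nat_lit 0x7e020c013e) (nat_lit 977782104),
  Rx.mk (nat_lit 118) (nat_lit 6) (nat_lit 6) (nat_lit 1) (nat_lit 7) (nat_lit 124) (nat_lit 223) r5_124 r7_223 (nat_lit 0) (nat_lit 0) (nat_lit 0) (nat_lit 0x7dedf682aa) (nat_lit 1016291016)]
noncomputable def e9_15 : List Rx := [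
  Rx.mk (nat_lit 86) (nat_lit 6) (nat_lit 2) (nat_lit 1) (nat_lit 7) (nat_lit 127) (nat_lit 61) r5_127 r8_61 (nat_lit 0) (nat_lit 0) (nat_lit 0) (nat_lit 0x7dd1aea744) (nat_lit 1070516304),
  Rx.mk (nat_lit 342) (nat_lit 6) (nat_lit 2) (nat_lit 5) (nat_lit 7) (nat_lit 126) (nat_lit 62) r5_126 r8_62 (nat_lit 0) (nat_lit 0) (nat_lit 0) (nat_lit 0x7df57b4a56) (nat_lit 1001874744)]
noncomputable def e9_16 : List Rx := [
  Rx.mk (nat_lit 22) (nat_lit 6) (nat_lit 2) (nat_lit 0) (nat_lit 3) (nat_lit 135) (nat_lit 233) r5_135 r4_233 (nat_lit 0) (nat_lit 0) (nat_lit 0) (nat_lit 0x7e5fadc6c4) (nat_lit 798252624),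
  Rx.mk (nat_lit 52) (nat_lit 4) (nat_lit 6) (nat_lit 0) (nat_lit 2) (nat_lit 129) (nat_lit 229) r5_129 r4_229 (nat_lit 0) (nat_lit 0) (nat_lit 0) (nat_lit 0x71fe96849a) (nat_lit 6874655112),
  Rx.mk (nat_lit 53) (nat_lit 5) (nat_lit 6) (nat_lit 0) (nat_lit 3) (nat_lit 132) (nat_lit 230) r5_132 r4_230 (nat_lit 0) (nat_lit 0) (nat_lit 0) (nat_lit 0x7e314decf0) (nat_lit 887170752),
  Rx.mk (nat_lit 54) (nat_lit 6) (nat_lit 6) (nat_lit 0) (nat_lit 3) (nat_lit 134) (nat_lit 232) r5_134 r4_232 (nat_lit 0) (nat_lit 0) (nat_lit 0) (nat_lit 0x7d90cfb574) (nat_lit 1194899472),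
  Rx.mk (nat_lit 55) (nat_lit 7) (nat_lit 6) (nat_lit 0) (nat_lit 3) (nat_lit 138) (nat_lit 231) r5_138 r4_231 (nat_lit 0) (nat_lit 0) (nat_lit 0) (nat_lit 0x7e50b6f640) (nat_lit 826944768),
  Rx.mk (nat_lit 164) (nat_lit 4) (nat_lit 4) (nat_lit 2) (nat_lit 4) (nat_lit 128) (nat_lit 235) r5_128 r4_235 (nat_lit 0) (nat_lit 0) (nat_lit 0) (nat_lit 0x729cb2c238) (nat_lit 6571495008),
  Rx.mk (nat_lit 165) (nat_lit 5) (nat_lit 4) (nat_lit 2) (nat_lit 5) (nat_lit 131) (nat_lit 236) r5_131 r4_236 (nat_lit 0) (nat_lit 0) (nat_lit 0) (nat_lit 0x7d7961ec68) (nat_lit 1239821856),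
  Rx.mk (nat_lit 167) (nat_lit 7) (nat_lit 4) (nat_lit 2) (nat_lit 5) (nat_lit 137) (nat_lit 237) r5_137 r4_237 (nat_lit 0) (nat_lit 0) (nat_lit 0) (nat_lit 0x7e05ce051a) (nat_lit 970576776),
  Rx.mk (nat_lit 180) (nat_lit 4) (nat_lit 6) (nat_lit 2) (nat_lit 6) (nat_lit 130) (nat_lit 238) r5_130 r4_238 (nat_lit 0) (nat_lit 0) (nat_lit 0) (nat_lit 0x7e7092b864) (nat_lit 765859536),
  Rx.mk (nat_lit 181) (nat_lit 5) (nat_lit 6) (nat_lit 2) (nat_lit 7) (nat_lit 133) (nat_lit 239) r5_133 r4_239 (nat_lit 0) (nat_lit 0) (nat_lit 0) (nat_lit 0x7e3b0f90cc) (nat_lit 868463856),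
  Rx.mk (nat_lit 183) (nat_lit 7) (nat_lit 6) (nat_lit 2) (nat_lit 7) (nat_lit 139) (nat_lit 240) r5_139 r4_240 (nat_lit 0) (nat_lit 0) (nat_lit 0) (nat_lit 0x7e1ae6f376) (nat_lit 930124728),
  Rx.mk (nat_lit 214) (nat_lit 6) (nat_lit 2) (nat_lit 3) (nat_lit 7) (nat_lit 136) (nat_lit 234) r5_136 r4_234 (nat_lit 0) (nat_lit 0) (nat_lit 0) (nat_lit 0x7ee10430dc) (nat_lit 550261296)]
noncomputable def e9_17 : List Rx := [
  Rx.mk (nat_lit 22) (nat_lit 6) (nat_lit 2) (nat_lit 0) (nat_lit 3) (nat_lit 147) (nat_lit 67) r5_147 r9_67 (nat_lit 0) (nat_lit 0) (nat_lit 0) (nat_lit 0x7e8b7789fc) (nat_lit 714293424),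
  Rx.mk (nat_lit 52) (nat_lit 4) (nat_lit 6) (nat_lit 0) (nat_lit 2) (nat_lit 140) (nat_lit 59) r5_140 r9_59 (nat_lit 0) (nat_lit 0) (nat_lit 0) (nat_lit 0x73ce85c3d6) (nat_lit 5985108792),
  Rx.mk (nat_lit 53) (nat_lit 5) (nat_lit 6) (nat_lit 0) (nat_lit 3) (nat_lit 143) (nat_lit 62) r5_143 r9_62 (nat_lit 0) (nat_lit 0) (nat_lit 0) (nat_lit 0x7e4ca1579e) (nat_lit 834776280),
  Rx.mk (nat_lit 54) (nat_lit 6) (nat_lit 6) (nat_lit 0) (nat_lit 3) (nat_lit 145) (nat_lit 70) r5_145 r9_70 (nat_lit 0) (nat_lit 0) (nat_lit 0) (nat_lit 0x7d97e9a3ce) (nat_lit 1181283480),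
  Rx.mk (nat_lit 55) (nat_lit 7) (nat_lit 6) (nat_lit 0) (nat_lit 3) (nat_lit 150) (nat_lit 64) r5_150 r9_64 (nat_lit 0) (nat_lit 0) (nat_lit 0) (nat_lit 0x7e38dd93ee) (nat_lit 872673048),
  Rx.mk (nat_lit 86) (nat_lit 6) (nat_lit 2) (nat_lit 1) (nat_lit 7) (nat_lit 148) (nat_lit 68) r5_148 r9_68 (nat_lit 0) (nat_lit 0) (nat_lit 0) (nat_lit 0x7e727d79b6) (nat_lit 762183864),
  Rx.mk (nat_lit 116) (nat_lit 4) (nat_lit 6) (nat_lit 1) (nat_lit 6) (nat_lit 141) (nat_lit 60) r5_141 r9_60 (nat_lit 0) (nat_lit 0) (nat_lit 0) (nat_lit 0x7e23b6c670) (nat_lit 913228992),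
  Rx.mk (nat_lit 118) (nat_lit 6) (nat_lit 6) (nat_lit 1) (nat_lit 7) (nat_lit 146) (nat_lit 71) r5_146 r9_71 (nat_lit 0) (nat_lit 0) (nat_lit 0) (nat_lit 0x7dedcb0562) (nat_lit 1016616744),
  Rx.mk (nat_lit 119) (nat_lit 7) (nat_lit 6) (nat_lit 1) (nat_lit 7) (nat_lit 151) (nat_lit 65) r5_151 r9_65 (nat_lit 0) (nat_lit 0) (nat_lit 0) (nat_lit 0x7de0283f9c) (nat_lit 1042762032),
  Rx.mk (nat_lit 180) (nat_lit 4) (nat_lit 6) (nat_lit 2) (nat_lit 6) (nat_lit 142) (nat_lit 61) r5_142 r9_61 (nat_lit 0) (nat_lit 0) (nat_lit 0) (nat_lit 0x7e66094106) (nat_lit 786063096),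
  Rx.mk (nat_lit 181) (nat_lit 5) (nat_lit 6) (nat_lit 2) (nat_lit 7) (nat_lit 144) (nat_lit 63) r5_144 r9_63 (nat_lit 0) (nat_lit 0) (nat_lit 0) (nat_lit 0x7def760ab0) (nat_lit 1013418432),
  Rx.mk (nat_lit 183) (nat_lit 7) (nat_lit 6) (nat_lit 2) (nat_lit 7) (nat_lit 152) (nat_lit 66) r5_152 r9_66 (nat_lit 0) (nat_lit 0) (nat_lit 0) (nat_lit 0x7decc13600) (nat_lit 1018607616),
  Rx.mk (nat_lit 214) (nat_lit 6) (nat_lit 2) (nat_lit 3) (nat_lit 7) (nat_lit 149) (nat_lit 69) r5_149 r9_69 (nat_lit 0) (nat_lit 0) (nat_lit 0) (nat_lit 0x7e762bfeca) (nat_lit 755124552)]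
noncomputable def e9_18 : List Rx := [
  Rx.mk (nat_lit 52) (nat_lit 4) (nat_lit 6) (nat_lit 0) (nat_lit 2) (nat_lit 154) (nat_lit 54) r5_154 r10_54 (nat_lit 0) (nat_lit 0) (nat_lit 0) (nat_lit 0x75b5e9ebac) (nat_lit 5050586736),
  Rx.mk (nat_lit 53) (nat_lit 5) (nat_lit 6) (nat_lit 0) (nat_lit 3) (nat_lit 158) (nat_lit 58) r5_158 r10_58 (nat_lit 0) (nat_lit 0) (nat_lit 0) (nat_lit 0x7de6df9420) (nat_lit 1029884544),
  Rx.mk (nat_lit 54) (nat_lit 6) (nat_lit 6) (nat_lit 0) (nat_lit 3) (nat_lit 161) (nat_lit 66) r5_161 r10_66 (nat_lit 0) (nat_lit 0) (nat_lit 0) (nat_lit 0x7db1f38316) (nat_lit 1131357240),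
  Rx.mk (nat_lit 55) (nat_lit 7) (nat_lit 6) (nat_lit 0) (nat_lit 3) (nat_lit 165) (nat_lit 63) r5_165 r10_63 (nat_lit 0) (nat_lit 0) (nat_lit 0) (nat_lit 0x7dd58429e8) (nat_lit 1063164960),
  Rx.mk (nat_lit 164) (nat_lit 4) (nat_lit 4) (nat_lit 2) (nat_lit 4) (nat_lit 153) (nat_lit 53) r5_153 r10_53 (nat_lit 0) (nat_lit 0) (nat_lit 0) (nat_lit 0x7b5c1d42d0) (nat_lit 2277647424),
  Rx.mk (nat_lit 165) (nat_lit 5) (nat_lit 4) (nat_lit 2) (nat_lit 5) (nat_lit 157) (nat_lit 57) r5_157 r10_57 (nat_lit 0) (nat_lit 0) (nat_lit 0) (nat_lit 0x7d9ee59408) (nat_lit 1167892128),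
  Rx.mk (nat_lit 167) (nat_lit 7) (nat_lit 4) (nat_lit 2) (nat_lit 5) (nat_lit 164) (nat_lit 61) r5_164 r10_61 (nat_lit 0) (nat_lit 0) (nat_lit 0) (nat_lit 0x7df4237fd4) (nat_lit 1004449680),
  Rx.mk (nat_lit 180) (nat_lit 4) (nat_lit 6) (nat_lit 2) (nat_lit 6) (nat_lit 155) (nat_lit 56) r5_155 r10_56 (nat_lit 0) (nat_lit 0) (nat_lit 0) (nat_lit 0x7e2b4d2d02) (nat_lit 898680744),
  Rx.mk (nat_lit 181) (nat_lit 5) (nat_lit 6) (nat_lit 2) (nat_lit 7) (nat_lit 159) (nat_lit 60) r5_159 r10_60 (nat_lit 0) (nat_lit 0) (nat_lit 0) (nat_lit 0x7df675baae) (nat_lit 999999000),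
  Rx.mk (nat_lit 183) (nat_lit 7) (nat_lit 6) (nat_lit 2) (nat_lit 7) (nat_lit 166) (nat_lit 64) r5_166 r10_64 (nat_lit 0) (nat_lit 0) (nat_lit 0) (nat_lit 0x7ddaeb3372) (nat_lit 1052806248),
  Rx.mk (nat_lit 191) (nat_lit 7) (nat_lit 7) (nat_lit 2) (nat_lit 7) (nat_lit 167) (nat_lit 62) r5_167 r10_62 (nat_lit 0) (nat_lit 0) (nat_lit 0) (nat_lit 0x7df4675b96) (nat_lit 1003941432),
  Rx.mk (nat_lit 214) (nat_lit 6) (nat_lit 2) (nat_lit 3) (nat_lit 7) (nat_lit 163) (nat_lit 65) r5_163 r10_65 (nat_lit 0) (nat_lit 0) (nat_lit 0) (nat_lit 0x7eb9830916) (nat_lit 626007096),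
  Rx.mk (nat_lit 244) (nat_lit 4) (nat_lit 6) (nat_lit 3) (nat_lit 6) (nat_lit 156) (nat_lit 55) r5_156 r10_55 (nat_lit 0) (nat_lit 0) (nat_lit 0) (nat_lit 0x7d9fc50610) (nat_lit 1166218560),
  Rx.mk (nat_lit 245) (nat_lit 5) (nat_lit 6) (nat_lit 3) (nat_lit 7) (nat_lit 160) (nat_lit 59) r5_160 r10_59 (nat_lit 0) (nat_lit 0) (nat_lit 0) (nat_lit 0x7df1199076) (nat_lit 1010276280),
  Rx.mk (nat_lit 246) (nat_lit 6) (nat_lit 6) (nat_lit 3) (nat_lit 7) (nat_lit 162) (nat_lit 67) r5_162 r10_67 (nat_lit 0) (nat_lit 0) (nat_lit 0) (nat_lit 0x7dc21520ec) (nat_lit 1100427120)]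
noncomputable def e9_19 : List Rx := [
  Rx.mk (nat_lit 86) (nat_lit 6) (nat_lit 2) (nat_lit 1) (nat_lit 7) (nat_lit 169) (nat_lit 62) r5_169 r8_62 (nat_lit 0) (nat_lit 0) (nat_lit 0) (nat_lit 0x7df57b4a56) (nat_lit 1001874744),
  Rx.mk (nat_lit 342) (nat_lit 6) (nat_lit 2) (nat_lit 5) (nat_lit 7) (nat_lit 168) (nat_lit 61) r5_168 r8_61 (nat_lit 0) (nat_lit 0) (nat_lit 0) (nat_lit 0x7dd1aea744) (nat_lit 1070516304)]
noncomputable def e9_20 : List Rx := [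
  Rx.mk (nat_lit 258) (nat_lit 2) (nat_lit 0) (nat_lit 4) (nat_lit 1) (nat_lit 173) (nat_lit 228) r5_173 r0_228 (nat_lit 0) (nat_lit 0) (nat_lit 0) (nat_lit 0x746fc68f28) (nat_lit 5675922720),
  Rx.mk (nat_lit 266) (nat_lit 2) (nat_lit 1) (nat_lit 4) (nat_lit 3) (nat_lit 175) (nat_lit 229) r5_175 r0_229 (nat_lit 0) (nat_lit 0) (nat_lit 0) (nat_lit 0x7f864e9b90) (nat_lit 233333568),
  Rx.mk (nat_lit 274) (nat_lit 2) (nat_lit 2) (nat_lit 4) (nat_lit 3) (nat_lit 177) (nat_lit 230) r5_177 r0_230 (nat_lit 0) (nat_lit 0) (nat_lit 0) (nat_lit 0x7d3f0c91f8) (nat_lit 1351670112),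
  Rx.mk (nat_lit 278) (nat_lit 6) (nat_lit 2) (nat_lit 4) (nat_lit 3) (nat_lit 170) (nat_lit 231) r5_170 r0_231 (nat_lit 0) (nat_lit 0) (nat_lit 0) (nat_lit 0x7b678c2bd6) (nat_lit 2255725368),
  Rx.mk (nat_lit 384) (nat_lit 0) (nat_lit 0) (nat_lit 6) (nat_lit 4) (nat_lit 171) (nat_lit 232) r5_171 r0_232 (nat_lit 0) (nat_lit 0) (nat_lit 0) (nat_lit 0x75597c52e2) (nat_lit 5227808040),
  Rx.mk (nat_lit 386) (nat_lit 2) (nat_lit 0) (nat_lit 6) (nat_lit 5) (nat_lit 174) (nat_lit 234) r5_174 r0_234 (nat_lit 0) (nat_lit 0) (nat_lit 0) (nat_lit 0x7ee77f2926) (nat_lit 537835896),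
  Rx.mk (nat_lit 392) (nat_lit 0) (nat_lit 1) (nat_lit 6) (nat_lit 6) (nat_lit 172) (nat_lit 233) r5_172 r0_233 (nat_lit 0) (nat_lit 0) (nat_lit 0) (nat_lit 0x7fa8fdf078) (nat_lit 166828896),
  Rx.mk (nat_lit 394) (nat_lit 2) (nat_lit 1) (nat_lit 6) (nat_lit 7) (nat_lit 176) (nat_lit 235) r5_176 r0_235 (nat_lit 0) (nat_lit 0) (nat_lit 0) (nat_lit 0x7f62ec71d6) (nat_lit 301177656)]
noncomputable def e9_21 : List Rx := [
  Rx.mk (nat_lit 266) (nat_lit 2) (nat_lit 1) (nat_lit 4) (nat_lit 3) (nat_lit 179) (nat_lit 246) r5_179 r1_246 (nat_lit 0) (nat_lit 0) (nat_lit 0) (nat_lit 0x7f6760ea8a) (nat_lit 292635720),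
  Rx.mk (nat_lit 392) (nat_lit 0) (nat_lit 1) (nat_lit 6) (nat_lit 6) (nat_lit 178) (nat_lit 247) r5_178 r1_247 (nat_lit 0) (nat_lit 0) (nat_lit 0) (nat_lit 0x7f624a1bfc) (nat_lit 302393520),
  Rx.mk (nat_lit 394) (nat_lit 2) (nat_lit 1) (nat_lit 6) (nat_lit 7) (nat_lit 180) (nat_lit 248) r5_180 r1_248 (nat_lit 0) (nat_lit 0) (nat_lit 0) (nat_lit 0x7e75103088) (nat_lit 757250208)]
noncomputable def e9_22 : List Rx := [
  Rx.mk (nat_lit 258) (nat_lit 2) (nat_lit 0) (nat_lit 4) (nat_lit 1) (nat_lit 186) (nat_lit 229) r5_186 r4_229 (nat_lit 0) (nat_lit 0) (nat_lit 0) (nat_lit 0x71fe96849a) (nat_lit 6874655112),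
  Rx.mk (nat_lit 266) (nat_lit 2) (nat_lit 1) (nat_lit 4) (nat_lit 3) (nat_lit 188) (nat_lit 230) r5_188 r4_230 (nat_lit 0) (nat_lit 0) (nat_lit 0) (nat_lit 0x7e314decf0) (nat_lit 887170752),
  Rx.mk (nat_lit 274) (nat_lit 2) (nat_lit 2) (nat_lit 4) (nat_lit 3) (nat_lit 190) (nat_lit 232) r5_190 r4_232 (nat_lit 0) (nat_lit 0) (nat_lit 0) (nat_lit 0x7d90cfb574) (nat_lit 1194899472),
  Rx.mk (nat_lit 278) (nat_lit 6) (nat_lit 2) (nat_lit 4) (nat_lit 3) (nat_lit 181) (nat_lit 233) r5_181 r4_233 (nat_lit 0) (nat_lit 0) (nat_lit 0) (nat_lit 0x7e5fadc6c4) (nat_lit 798252624),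
  Rx.mk (nat_lit 282) (nat_lit 2) (nat_lit 3) (nat_lit 4) (nat_lit 3) (nat_lit 191) (nat_lit 231) r5_191 r4_231 (nat_lit 0) (nat_lit 0) (nat_lit 0) (nat_lit 0x7e50b6f640) (nat_lit 826944768),
  Rx.mk (nat_lit 384) (nat_lit 0) (nat_lit 0) (nat_lit 6) (nat_lit 4) (nat_lit 183) (nat_lit 235) r5_183 r4_235 (nat_lit 0) (nat_lit 0) (nat_lit 0) (nat_lit 0x729cb2c238) (nat_lit 6571495008),
  Rx.mk (nat_lit 386) (nat_lit 2) (nat_lit 0) (nat_lit 6) (nat_lit 5) (nat_lit 187) (nat_lit 238) r5_187 r4_238 (nat_lit 0) (nat_lit 0) (nat_lit 0) (nat_lit 0x7e7092b864) (nat_lit 765859536),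
  Rx.mk (nat_lit 392) (nat_lit 0) (nat_lit 1) (nat_lit 6) (nat_lit 6) (nat_lit 184) (nat_lit 236) r5_184 r4_236 (nat_lit 0) (nat_lit 0) (nat_lit 0) (nat_lit 0x7d7961ec68) (nat_lit 1239821856),
  Rx.mk (nat_lit 394) (nat_lit 2) (nat_lit 1) (nat_lit 6) (nat_lit 7) (nat_lit 189) (nat_lit 239) r5_189 r4_239 (nat_lit 0) (nat_lit 0) (nat_lit 0) (nat_lit 0x7e3b0f90cc) (nat_lit 868463856),
  Rx.mk (nat_lit 408) (nat_lit 0) (nat_lit 3) (nat_lit 6) (nat_lit 6) (nat_lit 185) (nat_lit 237) r5_185 r4_237 (nat_lit 0) (nat_lit 0) (nat_lit 0) (nat_lit 0x7e05ce051a) (nat_lit 970576776),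
  Rx.mk (nat_lit 410) (nat_lit 2) (nat_lit 3) (nat_lit 6) (nat_lit 7) (nat_lit 192) (nat_lit 240) r5_192 r4_240 (nat_lit 0) (nat_lit 0) (nat_lit 0) (nat_lit 0x7e1ae6f376) (nat_lit 930124728),
  Rx.mk (nat_lit 470) (nat_lit 6) (nat_lit 2) (nat_lit 7) (nat_lit 7) (nat_lit 182) (nat_lit 234) r5_182 r4_234 (nat_lit 0) (nat_lit 0) (nat_lit 0) (nat_lit 0x7ee10430dc) (nat_lit 550261296)]
noncomputable def e9_23 : List Rx := [
  Rx.mk (nat_lit 258) (nat_lit 2) (nat_lit 0) (nat_lit 4) (nat_lit 1) (nat_lit 195) (nat_lit 78) r5_195 r6_78 (nat_lit 0) (nat_lit 0) (nat_lit 0) (nat_lit 0x75d0a39ff6) (nat_lit 4999343544),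
  Rx.mk (nat_lit 266) (nat_lit 2) (nat_lit 1) (nat_lit 4) (nat_lit 3) (nat_lit 198) (nat_lit 81) r5_198 r6_81 (nat_lit 0) (nat_lit 0) (nat_lit 0) (nat_lit 0x7e658ba8e0) (nat_lit 787003776),
  Rx.mk (nat_lit 274) (nat_lit 2) (nat_lit 2) (nat_lit 4) (nat_lit 3) (nat_lit 201) (nat_lit 86) r5_201 r6_86 (nat_lit 0) (nat_lit 0) (nat_lit 0) (nat_lit 0x7dc43a5e96) (nat_lit 1096313400),
  Rx.mk (nat_lit 278) (nat_lit 6) (nat_lit 2) (nat_lit 4) (nat_lit 3) (nat_lit 193) (nat_lit 84) r5_193 r6_84 (nat_lit 0) (nat_lit 0) (nat_lit 0) (nat_lit 0x7e9d322e40) (nat_lit 680299776),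
  Rx.mk (nat_lit 322) (nat_lit 2) (nat_lit 0) (nat_lit 5) (nat_lit 5) (nat_lit 196) (nat_lit 79) r5_196 r6_79 (nat_lit 0) (nat_lit 0) (nat_lit 0) (nat_lit 0x7e3c4d7cec) (nat_lit 866082672),
  Rx.mk (nat_lit 330) (nat_lit 2) (nat_lit 1) (nat_lit 5) (nat_lit 7) (nat_lit 199) (nat_lit 82) r5_199 r6_82 (nat_lit 0) (nat_lit 0) (nat_lit 0) (nat_lit 0x7dd032df02) (nat_lit 1073360808),
  Rx.mk (nat_lit 338) (nat_lit 2) (nat_lit 2) (nat_lit 5) (nat_lit 7) (nat_lit 202) (nat_lit 87) r5_202 r6_87 (nat_lit 0) (nat_lit 0) (nat_lit 0) (nat_lit 0x7dd8ca1586) (nat_lit 1056889080),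
  Rx.mk (nat_lit 342) (nat_lit 6) (nat_lit 2) (nat_lit 5) (nat_lit 7) (nat_lit 194) (nat_lit 85) r5_194 r6_85 (nat_lit 0) (nat_lit 0) (nat_lit 0) (nat_lit 0x7e6dd4e444) (nat_lit 771116112),
  Rx.mk (nat_lit 386) (nat_lit 2) (nat_lit 0) (nat_lit 6) (nat_lit 5) (nat_lit 197) (nat_lit 80) r5_197 r6_80 (nat_lit 0) (nat_lit 0) (nat_lit 0) (nat_lit 0x7e7262db60) (nat_lit 762383232),
  Rx.mk (nat_lit 394) (nat_lit 2) (nat_lit 1) (nat_lit 6) (nat_lit 7) (nat_lit 200) (nat_lit 83) r5_200 r6_83 (nat_lit 0) (nat_lit 0) (nat_lit 0) (nat_lit 0x7e468179a2) (nat_lit 846519336)]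
noncomputable def e9_24 : List Rx := [
  Rx.mk (nat_lit 266) (nat_lit 2) (nat_lit 1) (nat_lit 4) (nat_lit 3) (nat_lit 203) (nat_lit 71) r5_203 r7_71 (nat_lit 0) (nat_lit 0) (nat_lit 0) (nat_lit 0x7e43268f54) (nat_lit 852952464),
  Rx.mk (nat_lit 330) (nat_lit 2) (nat_lit 1) (nat_lit 5) (nat_lit 7) (nat_lit 204) (nat_lit 72) r5_204 r7_72 (nat_lit 0) (nat_lit 0) (nat_lit 0) (nat_lit 0x7df5604c06) (nat_lit 1002076920),
  Rx.mk (nat_lit 394) (nat_lit 2) (nat_lit 1) (nat_lit 6) (nat_lit 7) (nat_lit 205) (nat_lit 73) r5_205 r7_73 (nat_lit 0) (nat_lit 0) (nat_lit 0) (nat_lit 0x7dbca6f7d4) (nat_lit 1110839184)]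
noncomputable def e9_25 : List Rx := [
  Rx.mk (nat_lit 322) (nat_lit 2) (nat_lit 0) (nat_lit 5) (nat_lit 5) (nat_lit 207) (nat_lit 221) r5_207 r7_221 (nat_lit 0) (nat_lit 0) (nat_lit 0) (nat_lit 0x7dbcf8b2b8) (nat_lit 1110227040),
  Rx.mk (nat_lit 330) (nat_lit 2) (nat_lit 1) (nat_lit 5) (nat_lit 7) (nat_lit 208) (nat_lit 222) r5_208 r7_222 (nat_lit 0) (nat_lit 0) (nat_lit 0) (nat_lit 0x7e020c013e) (nat_lit 977782104),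
  Rx.mk (nat_lit 338) (nat_lit 2) (nat_lit 2) (nat_lit 5) (nat_lit 7) (nat_lit 209) (nat_lit 223) r5_209 r7_223 (nat_lit 0) (nat_lit 0) (nat_lit 0) (nat_lit 0x7dedf682aa) (nat_lit 1016291016),
  Rx.mk (nat_lit 342) (nat_lit 6) (nat_lit 2) (nat_lit 5) (nat_lit 7) (nat_lit 206) (nat_lit 224) r5_206 r7_224 (nat_lit 0) (nat_lit 0) (nat_lit 0) (nat_lit 0x7dd520102a) (nat_lit 1063914696)]
noncomputable def e9_26 : List Rx := [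
  Rx.mk (nat_lit 258) (nat_lit 2) (nat_lit 0) (nat_lit 4) (nat_lit 1) (nat_lit 213) (nat_lit 59) r5_213 r9_59 (nat_lit 0) (nat_lit 0) (nat_lit 0) (nat_lit 0x73ce85c3d6) (nat_lit 5985108792),
  Rx.mk (nat_lit 266) (nat_lit 2) (nat_lit 1) (nat_lit 4) (nat_lit 3) (nat_lit 216) (nat_lit 62) r5_216 r9_62 (nat_lit 0) (nat_lit 0) (nat_lit 0) (nat_lit 0x7e4ca1579e) (nat_lit 834776280),
  Rx.mk (nat_lit 274) (nat_lit 2) (nat_lit 2) (nat_lit 4) (nat_lit 3) (nat_lit 218) (nat_lit 70) r5_218 r9_70 (nat_lit 0) (nat_lit 0) (nat_lit 0) (nat_lit 0x7d97e9a3ce) (nat_lit 1181283480),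
  Rx.mk (nat_lit 278) (nat_lit 6) (nat_lit 2) (nat_lit 4) (nat_lit 3) (nat_lit 210) (nat_lit 67) r5_210 r9_67 (nat_lit 0) (nat_lit 0) (nat_lit 0) (nat_lit 0x7e8b7789fc) (nat_lit 714293424),
  Rx.mk (nat_lit 282) (nat_lit 2) (nat_lit 3) (nat_lit 4) (nat_lit 3) (nat_lit 220) (nat_lit 64) r5_220 r9_64 (nat_lit 0) (nat_lit 0) (nat_lit 0) (nat_lit 0x7e38dd93ee) (nat_lit 872673048),
  Rx.mk (nat_lit 322) (nat_lit 2) (nat_lit 0) (nat_lit 5) (nat_lit 5) (nat_lit 214) (nat_lit 60) r5_214 r9_60 (nat_lit 0) (nat_lit 0) (nat_lit 0) (nat_lit 0x7e23b6c670) (nat_lit 913228992),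
  Rx.mk (nat_lit 338) (nat_lit 2) (nat_lit 2) (nat_lit 5) (nat_lit 7) (nat_lit 219) (nat_lit 71) r5_219 r9_71 (nat_lit 0) (nat_lit 0) (nat_lit 0) (nat_lit 0x7dedcb0562) (nat_lit 1016616744),
  Rx.mk (nat_lit 342) (nat_lit 6) (nat_lit 2) (nat_lit 5) (nat_lit 7) (nat_lit 211) (nat_lit 68) r5_211 r9_68 (nat_lit 0) (nat_lit 0) (nat_lit 0) (nat_lit 0x7e727d79b6) (nat_lit 762183864),
  Rx.mk (nat_lit 346) (nat_lit 2) (nat_lit 3) (nat_lit 5) (nat_lit 7) (nat_lit 221) (nat_lit 65) r5_221 r9_65 (nat_lit 0) (nat_lit 0) (nat_lit 0) (nat_lit 0x7de0283f9c) (nat_lit 1042762032),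
  Rx.mk (nat_lit 386) (nat_lit 2) (nat_lit 0) (nat_lit 6) (nat_lit 5) (nat_lit 215) (nat_lit 61) r5_215 r9_61 (nat_lit 0) (nat_lit 0) (nat_lit 0) (nat_lit 0x7e66094106) (nat_lit 786063096),
  Rx.mk (nat_lit 394) (nat_lit 2) (nat_lit 1) (nat_lit 6) (nat_lit 7) (nat_lit 217) (nat_lit 63) r5_217 r9_63 (nat_lit 0) (nat_lit 0) (nat_lit 0) (nat_lit 0x7def760ab0) (nat_lit 1013418432),
  Rx.mk (nat_lit 410) (nat_lit 2) (nat_lit 3) (nat_lit 6) (nat_lit 7) (nat_lit 222) (nat_lit 66) r5_222 r9_66 (nat_lit 0) (nat_lit 0) (nat_lit 0) (nat_lit 0x7decc13600) (nat_lit 1018607616),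
  Rx.mk (nat_lit 470) (nat_lit 6) (nat_lit 2) (nat_lit 7) (nat_lit 7) (nat_lit 212) (nat_lit 69) r5_212 r9_69 (nat_lit 0) (nat_lit 0) (nat_lit 0) (nat_lit 0x7e762bfeca) (nat_lit 755124552)]
noncomputable def e9_27 : List Rx := [
  Rx.mk (nat_lit 258) (nat_lit 2) (nat_lit 0) (nat_lit 4) (nat_lit 1) (nat_lit 227) (nat_lit 54) r5_227 r10_54 (nat_lit 0) (nat_lit 0) (nat_lit 0) (nat_lit 0x75b5e9ebac) (nat_lit 5050586736),
  Rx.mk (nat_lit 266) (nat_lit 2) (nat_lit 1) (nat_lit 4) (nat_lit 3) (nat_lit 230) (nat_lit 58) r5_230 r10_58 (nat_lit 0) (nat_lit 0) (nat_lit 0) (nat_lit 0x7de6df9420) (nat_lit 1029884544),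
  Rx.mk (nat_lit 274) (nat_lit 2) (nat_lit 2) (nat_lit 4) (nat_lit 3) (nat_lit 233) (nat_lit 66) r5_233 r10_66 (nat_lit 0) (nat_lit 0) (nat_lit 0) (nat_lit 0x7db1f38316) (nat_lit 1131357240),
  Rx.mk (nat_lit 282) (nat_lit 2) (nat_lit 3) (nat_lit 4) (nat_lit 3) (nat_lit 235) (nat_lit 63) r5_235 r10_63 (nat_lit 0) (nat_lit 0) (nat_lit 0) (nat_lit 0x7dd58429e8) (nat_lit 1063164960),
  Rx.mk (nat_lit 384) (nat_lit 0) (nat_lit 0) (nat_lit 6) (nat_lit 4) (nat_lit 224) (nat_lit 53) r5_224 r10_53 (nat_lit 0) (nat_lit 0) (nat_lit 0) (nat_lit 0x7b5c1d42d0) (nat_lit 2277647424),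
  Rx.mk (nat_lit 386) (nat_lit 2) (nat_lit 0) (nat_lit 6) (nat_lit 5) (nat_lit 228) (nat_lit 56) r5_228 r10_56 (nat_lit 0) (nat_lit 0) (nat_lit 0) (nat_lit 0x7e2b4d2d02) (nat_lit 898680744),
  Rx.mk (nat_lit 392) (nat_lit 0) (nat_lit 1) (nat_lit 6) (nat_lit 6) (nat_lit 225) (nat_lit 57) r5_225 r10_57 (nat_lit 0) (nat_lit 0) (nat_lit 0) (nat_lit 0x7d9ee59408) (nat_lit 1167892128),
  Rx.mk (nat_lit 394) (nat_lit 2) (nat_lit 1) (nat_lit 6) (nat_lit 7) (nat_lit 231) (nat_lit 60) r5_231 r10_60 (nat_lit 0) (nat_lit 0) (nat_lit 0) (nat_lit 0x7df675baae) (nat_lit 999999000),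
  Rx.mk (nat_lit 408) (nat_lit 0) (nat_lit 3) (nat_lit 6) (nat_lit 6) (nat_lit 226) (nat_lit 61) r5_226 r10_61 (nat_lit 0) (nat_lit 0) (nat_lit 0) (nat_lit 0x7df4237fd4) (nat_lit 1004449680),
  Rx.mk (nat_lit 410) (nat_lit 2) (nat_lit 3) (nat_lit 6) (nat_lit 7) (nat_lit 236) (nat_lit 64) r5_236 r10_64 (nat_lit 0) (nat_lit 0) (nat_lit 0) (nat_lit 0x7ddaeb3372) (nat_lit 1052806248),
  Rx.mk (nat_lit 411) (nat_lit 3) (nat_lit 3) (nat_lit 6) (nat_lit 7) (nat_lit 237) (nat_lit 62) r5_237 r10_62 (nat_lit 0) (nat_lit 0) (nat_lit 0) (nat_lit 0x7df4675b96) (nat_lit 1003941432),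
  Rx.mk (nat_lit 450) (nat_lit 2) (nat_lit 0) (nat_lit 7) (nat_lit 5) (nat_lit 229) (nat_lit 55) r5_229 r10_55 (nat_lit 0) (nat_lit 0) (nat_lit 0) (nat_lit 0x7d9fc50610) (nat_lit 1166218560),
  Rx.mk (nat_lit 458) (nat_lit 2) (nat_lit 1) (nat_lit 7) (nat_lit 7) (nat_lit 232) (nat_lit 59) r5_232 r10_59 (nat_lit 0) (nat_lit 0) (nat_lit 0) (nat_lit 0x7df1199076) (nat_lit 1010276280),
  Rx.mk (nat_lit 466) (nat_lit 2) (nat_lit 2) (nat_lit 7) (nat_lit 7) (nat_lit 234) (nat_lit 67) r5_234 r10_67 (nat_lit 0) (nat_lit 0) (nat_lit 0) (nat_lit 0x7dc21520ec) (nat_lit 1100427120),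
  Rx.mk (nat_lit 470) (nat_lit 6) (nat_lit 2) (nat_lit 7) (nat_lit 7) (nat_lit 223) (nat_lit 65) r5_223 r10_65 (nat_lit 0) (nat_lit 0) (nat_lit 0) (nat_lit 0x7eb9830916) (nat_lit 626007096)]
noncomputable def e9_28 : List Rx := [
  Rx.mk (nat_lit 55) (nat_lit 7) (nat_lit 6) (nat_lit 0) (nat_lit 3) (nat_lit 241) (nat_lit 284) r5_241 r10_284 (nat_lit 0) (nat_lit 0) (nat_lit 0) (nat_lit 0x7e9ce972cc) (nat_lit 680844528),
  Rx.mk (nat_lit 119) (nat_lit 7) (nat_lit 6) (nat_lit 1) (nat_lit 7) (nat_lit 242) (nat_lit 285) r5_242 r10_285 (nat_lit 0) (nat_lit 0) (nat_lit 0) (nat_lit 0x7eb3926826) (nat_lit 637396344),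
  Rx.mk (nat_lit 183) (nat_lit 7) (nat_lit 6) (nat_lit 2) (nat_lit 7) (nat_lit 243) (nat_lit 286) r5_243 r10_286 (nat_lit 0) (nat_lit 0) (nat_lit 0) (nat_lit 0x7eba8a38a2) (nat_lit 624035880)]
noncomputable def e9_29 : List Rx := [
  Rx.mk (nat_lit 163) (nat_lit 3) (nat_lit 4) (nat_lit 2) (nat_lit 5) (nat_lit 249) (nat_lit 247) r5_249 r5_247 (nat_lit 0) (nat_lit 0) (nat_lit 0) (nat_lit 0x7dd172ab04) (nat_lit 1070965584),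
  Rx.mk (nat_lit 184) (nat_lit 0) (nat_lit 7) (nat_lit 2) (nat_lit 6) (nat_lit 245) (nat_lit 246) r5_245 r5_246 (nat_lit 0) (nat_lit 0) (nat_lit 0) (nat_lit 0x7c65eb24e8) (nat_lit 1767995424),
  Rx.mk (nat_lit 187) (nat_lit 3) (nat_lit 7) (nat_lit 2) (nat_lit 7) (nat_lit 250) (nat_lit 248) r5_250 r5_248 (nat_lit 0) (nat_lit 0) (nat_lit 0) (nat_lit 0x7efe08a078) (nat_lit 494623584),
  Rx.mk (nat_lit 282) (nat_lit 2) (nat_lit 3) (nat_lit 4) (nat_lit 3) (nat_lit 247) (nat_lit 249) r5_247 r5_249 (nat_lit 0) (nat_lit 0) (nat_lit 0) (nat_lit 0x7dd172ab04) (nat_lit 1070965584),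
  Rx.mk (nat_lit 408) (nat_lit 0) (nat_lit 3) (nat_lit 6) (nat_lit 6) (nat_lit 246) (nat_lit 245) r5_246 r5_245 (nat_lit 0) (nat_lit 0) (nat_lit 0) (nat_lit 0x7c65eb24e8) (nat_lit 1767995424),
  Rx.mk (nat_lit 410) (nat_lit 2) (nat_lit 3) (nat_lit 6) (nat_lit 7) (nat_lit 248) (nat_lit 250) r5_248 r5_250 (nat_lit 0) (nat_lit 0) (nat_lit 0) (nat_lit 0x7efe08a078) (nat_lit 494623584),
  Rx.mk (nat_lit 440) (nat_lit 0) (nat_lit 7) (nat_lit 6) (nat_lit 6) (nat_lit 244) (nat_lit 244) r5_244 r5_244 (nat_lit 0) (nat_lit 0) (nat_lit 0) (nat_lit 0x7b8b7f6c7e) (nat_lit 2186794584)]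
noncomputable def e9_30 : List Rx := [
  Rx.mk (nat_lit 282) (nat_lit 2) (nat_lit 3) (nat_lit 4) (nat_lit 3) (nat_lit 254) (nat_lit 284) r5_254 r10_284 (nat_lit 0) (nat_lit 0) (nat_lit 0) (nat_lit 0x7e9ce972cc) (nat_lit 680844528),
  Rx.mk (nat_lit 346) (nat_lit 2) (nat_lit 3) (nat_lit 5) (nat_lit 7) (nat_lit 255) (nat_lit 285) r5_255 r10_285 (nat_lit 0) (nat_lit 0) (nat_lit 0) (nat_lit 0x7eb3926826) (nat_lit 637396344),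
  Rx.mk (nat_lit 410) (nat_lit 2) (nat_lit 3) (nat_lit 6) (nat_lit 7) (nat_lit 256) (nat_lit 286) r5_256 r10_286 (nat_lit 0) (nat_lit 0) (nat_lit 0) (nat_lit 0x7eba8a38a2) (nat_lit 624035880)]
noncomputable def e9_31 : List Rx := [
  Rx.mk (nat_lit 55) (nat_lit 7) (nat_lit 6) (nat_lit 0) (nat_lit 3) (nat_lit 258) (nat_lit 249) r5_258 r5_249 (nat_lit 0) (nat_lit 0) (nat_lit 0) (nat_lit 0x7dd172ab04) (nat_lit 1070965584),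
  Rx.mk (nat_lit 163) (nat_lit 3) (nat_lit 4) (nat_lit 2) (nat_lit 5) (nat_lit 262) (nat_lit 244) r5_262 r5_244 (nat_lit 0) (nat_lit 0) (nat_lit 0) (nat_lit 0x7b8b7f6c7e) (nat_lit 2186794584),
  Rx.mk (nat_lit 167) (nat_lit 7) (nat_lit 4) (nat_lit 2) (nat_lit 5) (nat_lit 257) (nat_lit 245) r5_257 r5_245 (nat_lit 0) (nat_lit 0) (nat_lit 0) (nat_lit 0x7c65eb24e8) (nat_lit 1767995424),
  Rx.mk (nat_lit 183) (nat_lit 7) (nat_lit 6) (nat_lit 2) (nat_lit 7) (nat_lit 259) (nat_lit 250) r5_259 r5_250 (nat_lit 0) (nat_lit 0) (nat_lit 0) (nat_lit 0x7efe08a078) (nat_lit 494623584),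
  Rx.mk (nat_lit 419) (nat_lit 3) (nat_lit 4) (nat_lit 6) (nat_lit 5) (nat_lit 261) (nat_lit 246) r5_261 r5_246 (nat_lit 0) (nat_lit 0) (nat_lit 0) (nat_lit 0x7c65eb24e8) (nat_lit 1767995424),
  Rx.mk (nat_lit 440) (nat_lit 0) (nat_lit 7) (nat_lit 6) (nat_lit 6) (nat_lit 260) (nat_lit 247) r5_260 r5_247 (nat_lit 0) (nat_lit 0) (nat_lit 0) (nat_lit 0x7dd172ab04) (nat_lit 1070965584),
  Rx.mk (nat_lit 443) (nat_lit 3) (nat_lit 7) (nat_lit 6) (nat_lit 7) (nat_lit 263) (nat_lit 248) r5_263 r5_248 (nat_lit 0) (nat_lit 0) (nat_lit 0) (nat_lit 0x7efe08a078) (nat_lit 494623584)]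
noncomputable def e9_32 : List Rx := [
  Rx.mk (nat_lit 55) (nat_lit 7) (nat_lit 6) (nat_lit 0) (nat_lit 3) (nat_lit 265) (nat_lit 80) r5_265 r11_80 (nat_lit 0) (nat_lit 0) (nat_lit 0) (nat_lit 0x7edcd813a2) (nat_lit 558261288),
  Rx.mk (nat_lit 163) (nat_lit 3) (nat_lit 4) (nat_lit 2) (nat_lit 5) (nat_lit 273) (nat_lit 73) r5_273 r11_73 (nat_lit 0) (nat_lit 0) (nat_lit 0) (nat_lit 0x7f06f551a4) (nat_lit 477511632),
  Rx.mk (nat_lit 167) (nat_lit 7) (nat_lit 4) (nat_lit 2) (nat_lit 5) (nat_lit 264) (nat_lit 79) r5_264 r11_79 (nat_lit 0) (nat_lit 0) (nat_lit 0) (nat_lit 0x7e74b4b640) (nat_lit 757935360),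
  Rx.mk (nat_lit 183) (nat_lit 7) (nat_lit 6) (nat_lit 2) (nat_lit 7) (nat_lit 266) (nat_lit 82) r5_266 r11_82 (nat_lit 0) (nat_lit 0) (nat_lit 0) (nat_lit 0x7f6f268e28) (nat_lit 277733664),
  Rx.mk (nat_lit 187) (nat_lit 3) (nat_lit 7) (nat_lit 2) (nat_lit 7) (nat_lit 275) (nat_lit 74) r5_275 r11_74 (nat_lit 0) (nat_lit 0) (nat_lit 0) (nat_lit 0x7f7f7d08b0) (nat_lit 246407616),
  Rx.mk (nat_lit 247) (nat_lit 7) (nat_lit 6) (nat_lit 3) (nat_lit 7) (nat_lit 267) (nat_lit 81) r5_267 r11_81 (nat_lit 0) (nat_lit 0) (nat_lit 0) (nat_lit 0x7f668ad7ec) (nat_lit 294239088),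
  Rx.mk (nat_lit 282) (nat_lit 2) (nat_lit 3) (nat_lit 4) (nat_lit 3) (nat_lit 270) (nat_lit 76) r5_270 r11_76 (nat_lit 0) (nat_lit 0) (nat_lit 0) (nat_lit 0x7edcd813a2) (nat_lit 558261288),
  Rx.mk (nat_lit 408) (nat_lit 0) (nat_lit 3) (nat_lit 6) (nat_lit 6) (nat_lit 269) (nat_lit 71) r5_269 r11_71 (nat_lit 0) (nat_lit 0) (nat_lit 0) (nat_lit 0x7e74b4b640) (nat_lit 757935360),
  Rx.mk (nat_lit 410) (nat_lit 2) (nat_lit 3) (nat_lit 6) (nat_lit 7) (nat_lit 271) (nat_lit 78) r5_271 r11_78 (nat_lit 0) (nat_lit 0) (nat_lit 0) (nat_lit 0x7f6f268e28) (nat_lit 277733664),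
  Rx.mk (nat_lit 440) (nat_lit 0) (nat_lit 7) (nat_lit 6) (nat_lit 6) (nat_lit 268) (nat_lit 72) r5_268 r11_72 (nat_lit 0) (nat_lit 0) (nat_lit 0) (nat_lit 0x7f06f551a4) (nat_lit 477511632),
  Rx.mk (nat_lit 443) (nat_lit 3) (nat_lit 7) (nat_lit 6) (nat_lit 7) (nat_lit 274) (nat_lit 75) r5_274 r11_75 (nat_lit 0) (nat_lit 0) (nat_lit 0) (nat_lit 0x7f7f7d08b0) (nat_lit 246407616),
  Rx.mk (nat_lit 474) (nat_lit 2) (nat_lit 3) (nat_lit 7) (nat_lit 7) (nat_lit 272) (nat_lit 77) r5_272 r11_77 (nat_lit 0) (nat_lit 0) (nat_lit 0) (nat_lit 0x7f668ad7ec) (nat_lit 294239088)]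
noncomputable def e9_33 : List Rx := [
  Rx.mk (nat_lit 168) (nat_lit 0) (nat_lit 5) (nat_lit 2) (nat_lit 6) (nat_lit 277) (nat_lit 223) r5_277 r0_223 (nat_lit 0) (nat_lit 0) (nat_lit 0) (nat_lit 0x7c3f149278) (nat_lit 1842463584),
  Rx.mk (nat_lit 424) (nat_lit 0) (nat_lit 5) (nat_lit 6) (nat_lit 6) (nat_lit 276) (nat_lit 222) r5_276 r0_222 (nat_lit 0) (nat_lit 0) (nat_lit 0) (nat_lit 0x7ff5e6a1a0) (nat_lit 19363968)]
noncomputable def e9_34 : List Rx := [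
  Rx.mk (nat_lit 161) (nat_lit 1) (nat_lit 4) (nat_lit 2) (nat_lit 5) (nat_lit 279) (nat_lit 222) r5_279 r0_222 (nat_lit 0) (nat_lit 0) (nat_lit 0) (nat_lit 0x7ff5e6a1a0) (nat_lit 19363968),
  Rx.mk (nat_lit 417) (nat_lit 1) (nat_lit 4) (nat_lit 6) (nat_lit 5) (nat_lit 278) (nat_lit 223) r5_278 r0_223 (nat_lit 0) (nat_lit 0) (nat_lit 0) (nat_lit 0x7c3f149278) (nat_lit 1842463584)]
noncomputable def e9_35 : List Rx := [
  Rx.mk (nat_lit 161) (nat_lit 1) (nat_lit 4) (nat_lit 2) (nat_lit 5) (nat_lit 283) (nat_lit 284) r5_283 r6_284 (nat_lit 0) (nat_lit 0) (nat_lit 0) (nat_lit 0x7e8bdea38a) (nat_lit 713521224),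
  Rx.mk (nat_lit 168) (nat_lit 0) (nat_lit 5) (nat_lit 2) (nat_lit 6) (nat_lit 281) (nat_lit 281) r5_281 r6_281 (nat_lit 0) (nat_lit 0) (nat_lit 0) (nat_lit 0x7e3d97c846) (nat_lit 863608824),
  Rx.mk (nat_lit 169) (nat_lit 1) (nat_lit 5) (nat_lit 2) (nat_lit 7) (nat_lit 285) (nat_lit 285) r5_285 r6_285 (nat_lit 0) (nat_lit 0) (nat_lit 0) (nat_lit 0x7e3ec5f562) (nat_lit 861345576),
  Rx.mk (nat_lit 417) (nat_lit 1) (nat_lit 4) (nat_lit 6) (nat_lit 5) (nat_lit 282) (nat_lit 282) r5_282 r6_282 (nat_lit 0) (nat_lit 0) (nat_lit 0) (nat_lit 0x7e3d97c846) (nat_lit 863608824),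
  Rx.mk (nat_lit 424) (nat_lit 0) (nat_lit 5) (nat_lit 6) (nat_lit 6) (nat_lit 280) (nat_lit 280) r5_280 r6_280 (nat_lit 0) (nat_lit 0) (nat_lit 0) (nat_lit 0x7e8bdea38a) (nat_lit 713521224),
  Rx.mk (nat_lit 425) (nat_lit 1) (nat_lit 5) (nat_lit 6) (nat_lit 7) (nat_lit 284) (nat_lit 283) r5_284 r6_283 (nat_lit 0) (nat_lit 0) (nat_lit 0) (nat_lit 0x7e3ec5f562) (nat_lit 861345576)]
noncomputable def e9_36 : List Rx := [
  Rx.mk (nat_lit 53) (nat_lit 5) (nat_lit 6) (nat_lit 0) (nat_lit 3) (nat_lit 287) (nat_lit 253) r5_287 r2_253 (nat_lit 0) (nat_lit 0) (nat_lit 0) (nat_lit 0x7d47970948) (nat_lit 1335293856),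
  Rx.mk (nat_lit 161) (nat_lit 1) (nat_lit 4) (nat_lit 2) (nat_lit 5) (nat_lit 289) (nat_lit 251) r5_289 r2_251 (nat_lit 0) (nat_lit 0) (nat_lit 0) (nat_lit 0x7d0b86ea86) (nat_lit 1450458360),
  Rx.mk (nat_lit 165) (nat_lit 5) (nat_lit 4) (nat_lit 2) (nat_lit 5) (nat_lit 286) (nat_lit 252) r5_286 r2_252 (nat_lit 0) (nat_lit 0) (nat_lit 0) (nat_lit 0x7d5005c254) (nat_lit 1319125392),
  Rx.mk (nat_lit 181) (nat_lit 5) (nat_lit 6) (nat_lit 2) (nat_lit 7) (nat_lit 288) (nat_lit 254) r5_288 r2_254 (nat_lit 0) (nat_lit 0) (nat_lit 0) (nat_lit 0x7de4629bf2) (nat_lit 1034655336)]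
noncomputable def e9_37 : List Rx := [
  Rx.mk (nat_lit 161) (nat_lit 1) (nat_lit 4) (nat_lit 2) (nat_lit 5) (nat_lit 293) (nat_lit 219) r5_293 r8_219 (nat_lit 0) (nat_lit 0) (nat_lit 0) (nat_lit 0x7d4396095c) (nat_lit 1342970928),
  Rx.mk (nat_lit 165) (nat_lit 5) (nat_lit 4) (nat_lit 2) (nat_lit 5) (nat_lit 290) (nat_lit 220) r5_290 r8_220 (nat_lit 0) (nat_lit 0) (nat_lit 0) (nat_lit 0x7c922f207c) (nat_lit 1683120816),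
  Rx.mk (nat_lit 169) (nat_lit 1) (nat_lit 5) (nat_lit 2) (nat_lit 7) (nat_lit 294) (nat_lit 221) r5_294 r8_221 (nat_lit 0) (nat_lit 0) (nat_lit 0) (nat_lit 0x7de265dbc0) (nat_lit 1038465792),
  Rx.mk (nat_lit 173) (nat_lit 5) (nat_lit 5) (nat_lit 2) (nat_lit 7) (nat_lit 291) (nat_lit 222) r5_291 r8_222 (nat_lit 0) (nat_lit 0) (nat_lit 0) (nat_lit 0x7dde539ce8) (nat_lit 1046272032),
  Rx.mk (nat_lit 181) (nat_lit 5) (nat_lit 6) (nat_lit 2) (nat_lit 7) (nat_lit 292) (nat_lit 223) r5_292 r8_223 (nat_lit 0) (nat_lit 0) (nat_lit 0) (nat_lit 0x7df2463daa) (nat_lit 1008024264)]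
noncomputable def e9_38 : List Rx := [
  Rx.mk (nat_lit 53) (nat_lit 5) (nat_lit 6) (nat_lit 0) (nat_lit 3) (nat_lit 295) (nat_lit 241) r5_295 r8_241 (nat_lit 0) (nat_lit 0) (nat_lit 0) (nat_lit 0x7d60a6d832) (nat_lit 1287240552),
  Rx.mk (nat_lit 117) (nat_lit 5) (nat_lit 6) (nat_lit 1) (nat_lit 7) (nat_lit 296) (nat_lit 242) r5_296 r8_242 (nat_lit 0) (nat_lit 0) (nat_lit 0) (nat_lit 0x7de9d244f2) (nat_lit 1024232040),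
  Rx.mk (nat_lit 181) (nat_lit 5) (nat_lit 6) (nat_lit 2) (nat_lit 7) (nat_lit 297) (nat_lit 243) r5_297 r8_243 (nat_lit 0) (nat_lit 0) (nat_lit 0) (nat_lit 0x7dd8a1f808) (nat_lit 1057189536)]
noncomputable def e9_39 : List Rx := [
  Rx.mk (nat_lit 161) (nat_lit 1) (nat_lit 4) (nat_lit 2) (nat_lit 5) (nat_lit 299) (nat_lit 240) r5_299 r1_240 (nat_lit 0) (nat_lit 0) (nat_lit 0) (nat_lit 0x7f67c7a41e) (nat_lit 291866328),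
  Rx.mk (nat_lit 417) (nat_lit 1) (nat_lit 4) (nat_lit 6) (nat_lit 5) (nat_lit 298) (nat_lit 241) r5_298 r1_241 (nat_lit 0) (nat_lit 0) (nat_lit 0) (nat_lit 0x7ecf8b287e) (nat_lit 583763544)]
noncomputable def e9_40 : List Rx := [
  Rx.mk (nat_lit 161) (nat_lit 1) (nat_lit 4) (nat_lit 2) (nat_lit 5) (nat_lit 301) (nat_lit 216) r5_301 r7_216 (nat_lit 0) (nat_lit 0) (nat_lit 0) (nat_lit 0x7e615cebd0) (nat_lit 795023424),
  Rx.mk (nat_lit 169) (nat_lit 1) (nat_lit 5) (nat_lit 2) (nat_lit 7) (nat_lit 303) (nat_lit 217) r5_303 r7_217 (nat_lit 0) (nat_lit 0) (nat_lit 0) (nat_lit 0x7defd5a4b6) (nat_lit 1012702392),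
  Rx.mk (nat_lit 417) (nat_lit 1) (nat_lit 4) (nat_lit 6) (nat_lit 5) (nat_lit 300) (nat_lit 214) r5_300 r7_214 (nat_lit 0) (nat_lit 0) (nat_lit 0) (nat_lit 0x7de4c1160a) (nat_lit 1033947720),
  Rx.mk (nat_lit 425) (nat_lit 1) (nat_lit 5) (nat_lit 6) (nat_lit 7) (nat_lit 302) (nat_lit 215) r5_302 r7_215 (nat_lit 0) (nat_lit 0) (nat_lit 0) (nat_lit 0x7dec1be056) (nat_lit 1019845944)]
noncomputable def e9_41 : List Rx := [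
  Rx.mk (nat_lit 168) (nat_lit 0) (nat_lit 5) (nat_lit 2) (nat_lit 6) (nat_lit 305) (nat_lit 241) r5_305 r1_241 (nat_lit 0) (nat_lit 0) (nat_lit 0) (nat_lit 0x7ecf8b287e) (nat_lit 583763544),
  Rx.mk (nat_lit 424) (nat_lit 0) (nat_lit 5) (nat_lit 6) (nat_lit 6) (nat_lit 304) (nat_lit 240) r5_304 r1_240 (nat_lit 0) (nat_lit 0) (nat_lit 0) (nat_lit 0x7f67c7a41e) (nat_lit 291866328)]
noncomputable def e9_42 : List Rx := [
  Rx.mk (nat_lit 266) (nat_lit 2) (nat_lit 1) (nat_lit 4) (nat_lit 3) (nat_lit 308) (nat_lit 253) r5_308 r2_253 (nat_lit 0) (nat_lit 0) (nat_lit 0) (nat_lit 0x7d47970948) (nat_lit 1335293856),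
  Rx.mk (nat_lit 392) (nat_lit 0) (nat_lit 1) (nat_lit 6) (nat_lit 6) (nat_lit 307) (nat_lit 252) r5_307 r2_252 (nat_lit 0) (nat_lit 0) (nat_lit 0) (nat_lit 0x7d5005c254) (nat_lit 1319125392),
  Rx.mk (nat_lit 394) (nat_lit 2) (nat_lit 1) (nat_lit 6) (nat_lit 7) (nat_lit 309) (nat_lit 254) r5_309 r2_254 (nat_lit 0) (nat_lit 0) (nat_lit 0) (nat_lit 0x7de4629bf2) (nat_lit 1034655336),
  Rx.mk (nat_lit 424) (nat_lit 0) (nat_lit 5) (nat_lit 6) (nat_lit 6) (nat_lit 306) (nat_lit 251) r5_306 r2_251 (nat_lit 0) (nat_lit 0) (nat_lit 0) (nat_lit 0x7d0b86ea86) (nat_lit 1450458360)]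
noncomputable def e9_43 : List Rx := [
  Rx.mk (nat_lit 168) (nat_lit 0) (nat_lit 5) (nat_lit 2) (nat_lit 6) (nat_lit 311) (nat_lit 214) r5_311 r7_214 (nat_lit 0) (nat_lit 0) (nat_lit 0) (nat_lit 0x7de4c1160a) (nat_lit 1033947720),
  Rx.mk (nat_lit 169) (nat_lit 1) (nat_lit 5) (nat_lit 2) (nat_lit 7) (nat_lit 313) (nat_lit 215) r5_313 r7_215 (nat_lit 0) (nat_lit 0) (nat_lit 0) (nat_lit 0x7dec1be056) (nat_lit 1019845944),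
  Rx.mk (nat_lit 424) (nat_lit 0) (nat_lit 5) (nat_lit 6) (nat_lit 6) (nat_lit 310) (nat_lit 216) r5_310 r7_216 (nat_lit 0) (nat_lit 0) (nat_lit 0) (nat_lit 0x7e615cebd0) (nat_lit 795023424),
  Rx.mk (nat_lit 425) (nat_lit 1) (nat_lit 5) (nat_lit 6) (nat_lit 7) (nat_lit 312) (nat_lit 217) r5_312 r7_217 (nat_lit 0) (nat_lit 0) (nat_lit 0) (nat_lit 0x7defd5a4b6) (nat_lit 1012702392)]
noncomputable def e9_44 : List Rx := [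
  Rx.mk (nat_lit 392) (nat_lit 0) (nat_lit 1) (nat_lit 6) (nat_lit 6) (nat_lit 315) (nat_lit 220) r5_315 r8_220 (nat_lit 0) (nat_lit 0) (nat_lit 0) (nat_lit 0x7c922f207c) (nat_lit 1683120816),
  Rx.mk (nat_lit 393) (nat_lit 1) (nat_lit 1) (nat_lit 6) (nat_lit 7) (nat_lit 317) (nat_lit 222) r5_317 r8_222 (nat_lit 0) (nat_lit 0) (nat_lit 0) (nat_lit 0x7dde539ce8) (nat_lit 1046272032),
  Rx.mk (nat_lit 394) (nat_lit 2) (nat_lit 1) (nat_lit 6) (nat_lit 7) (nat_lit 318) (nat_lit 223) r5_318 r8_223 (nat_lit 0) (nat_lit 0) (nat_lit 0) (nat_lit 0x7df2463daa) (nat_lit 1008024264),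
  Rx.mk (nat_lit 424) (nat_lit 0) (nat_lit 5) (nat_lit 6) (nat_lit 6) (nat_lit 314) (nat_lit 219) r5_314 r8_219 (nat_lit 0) (nat_lit 0) (nat_lit 0) (nat_lit 0x7d4396095c) (nat_lit 1342970928),
  Rx.mk (nat_lit 425) (nat_lit 1) (nat_lit 5) (nat_lit 6) (nat_lit 7) (nat_lit 316) (nat_lit 221) r5_316 r8_221 (nat_lit 0) (nat_lit 0) (nat_lit 0) (nat_lit 0x7de265dbc0) (nat_lit 1038465792)]
noncomputable def e9_45 : List Rx := [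
  Rx.mk (nat_lit 266) (nat_lit 2) (nat_lit 1) (nat_lit 4) (nat_lit 3) (nat_lit 319) (nat_lit 241) r5_319 r8_241 (nat_lit 0) (nat_lit 0) (nat_lit 0) (nat_lit 0x7d60a6d832) (nat_lit 1287240552),
  Rx.mk (nat_lit 330) (nat_lit 2) (nat_lit 1) (nat_lit 5) (nat_lit 7) (nat_lit 320) (nat_lit 242) r5_320 r8_242 (nat_lit 0) (nat_lit 0) (nat_lit 0) (nat_lit 0x7de9d244f2) (nat_lit 1024232040),
  Rx.mk (nat_lit 394) (nat_lit 2) (nat_lit 1) (nat_lit 6) (nat_lit 7) (nat_lit 321) (nat_lit 243) r5_321 r8_243 (nat_lit 0) (nat_lit 0) (nat_lit 0) (nat_lit 0x7dd8a1f808) (nat_lit 1057189536)]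
noncomputable def e9_46 : List Rx := [
  Rx.mk (nat_lit 160) (nat_lit 0) (nat_lit 4) (nat_lit 2) (nat_lit 4) (nat_lit 327) (nat_lit 220) r5_327 r4_220 (nat_lit 0) (nat_lit 0) (nat_lit 0) (nat_lit 0x7037ba9420) (nat_lit 7746800256),
  Rx.mk (nat_lit 163) (nat_lit 3) (nat_lit 4) (nat_lit 2) (nat_lit 5) (nat_lit 331) (nat_lit 222) r5_331 r4_222 (nat_lit 0) (nat_lit 0) (nat_lit 0) (nat_lit 0x7145321b9a) (nat_lit 7230125448),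
  Rx.mk (nat_lit 168) (nat_lit 0) (nat_lit 5) (nat_lit 2) (nat_lit 6) (nat_lit 329) (nat_lit 221) r5_329 r4_221 (nat_lit 0) (nat_lit 0) (nat_lit 0) (nat_lit 0x7e80245f3a) (nat_lit 736007688),
  Rx.mk (nat_lit 171) (nat_lit 3) (nat_lit 5) (nat_lit 2) (nat_lit 7) (nat_lit 332) (nat_lit 223) r5_332 r4_223 (nat_lit 0) (nat_lit 0) (nat_lit 0) (nat_lit 0x7edd8ea838) (nat_lit 556893792),
  Rx.mk (nat_lit 416) (nat_lit 0) (nat_lit 4) (nat_lit 6) (nat_lit 4) (nat_lit 326) (nat_lit 217) r5_326 r4_217 (nat_lit 0) (nat_lit 0) (nat_lit 0) (nat_lit 0x77438f4fc8) (nat_lit 4288141728),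
  Rx.mk (nat_lit 424) (nat_lit 0) (nat_lit 5) (nat_lit 6) (nat_lit 6) (nat_lit 328) (nat_lit 218) r5_328 r4_218 (nat_lit 0) (nat_lit 0) (nat_lit 0) (nat_lit 0x7e57d80428) (nat_lit 813275424),
  Rx.mk (nat_lit 440) (nat_lit 0) (nat_lit 7) (nat_lit 6) (nat_lit 6) (nat_lit 330) (nat_lit 219) r5_330 r4_219 (nat_lit 0) (nat_lit 0) (nat_lit 0) (nat_lit 0x7e42d95428) (nat_lit 853530912)]
noncomputable def e9_47 : List Rx := [
  Rx.mk (nat_lit 160) (nat_lit 0) (nat_lit 4) (nat_lit 2) (nat_lit 4) (nat_lit 338) (nat_lit 217) r5_338 r4_217 (nat_lit 0) (nat_lit 0) (nat_lit 0) (nat_lit 0x77438f4fc8) (nat_lit 4288141728),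
  Rx.mk (nat_lit 161) (nat_lit 1) (nat_lit 4) (nat_lit 2) (nat_lit 5) (nat_lit 341) (nat_lit 218) r5_341 r4_218 (nat_lit 0) (nat_lit 0) (nat_lit 0) (nat_lit 0x7e57d80428) (nat_lit 813275424),
  Rx.mk (nat_lit 163) (nat_lit 3) (nat_lit 4) (nat_lit 2) (nat_lit 5) (nat_lit 343) (nat_lit 219) r5_343 r4_219 (nat_lit 0) (nat_lit 0) (nat_lit 0) (nat_lit 0x7e42d95428) (nat_lit 853530912),
  Rx.mk (nat_lit 416) (nat_lit 0) (nat_lit 4) (nat_lit 6) (nat_lit 4) (nat_lit 337) (nat_lit 220) r5_337 r4_220 (nat_lit 0) (nat_lit 0) (nat_lit 0) (nat_lit 0x7037ba9420) (nat_lit 7746800256),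
  Rx.mk (nat_lit 417) (nat_lit 1) (nat_lit 4) (nat_lit 6) (nat_lit 5) (nat_lit 340) (nat_lit 221) r5_340 r4_221 (nat_lit 0) (nat_lit 0) (nat_lit 0) (nat_lit 0x7e80245f3a) (nat_lit 736007688),
  Rx.mk (nat_lit 440) (nat_lit 0) (nat_lit 7) (nat_lit 6) (nat_lit 6) (nat_lit 339) (nat_lit 222) r5_339 r4_222 (nat_lit 0) (nat_lit 0) (nat_lit 0) (nat_lit 0x7145321b9a) (nat_lit 7230125448),
  Rx.mk (nat_lit 441) (nat_lit 1) (nat_lit 7) (nat_lit 6) (nat_lit 7) (nat_lit 342) (nat_lit 223) r5_342 r4_223 (nat_lit 0) (nat_lit 0) (nat_lit 0) (nat_lit 0x7edd8ea838) (nat_lit 556893792)]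
noncomputable def e9_48 : List Rx := [
  Rx.mk (nat_lit 160) (nat_lit 0) (nat_lit 4) (nat_lit 2) (nat_lit 4) (nat_lit 345) (nat_lit 228) r5_345 r9_228 (nat_lit 0) (nat_lit 0) (nat_lit 0) (nat_lit 0x73c25986a6) (nat_lit 6008448888),
  Rx.mk (nat_lit 161) (nat_lit 1) (nat_lit 4) (nat_lit 2) (nat_lit 5) (nat_lit 350) (nat_lit 233) r5_350 r9_233 (nat_lit 0) (nat_lit 0) (nat_lit 0) (nat_lit 0x7e77980808) (nat_lit 752397984),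
  Rx.mk (nat_lit 163) (nat_lit 3) (nat_lit 4) (nat_lit 2) (nat_lit 5) (nat_lit 354) (nat_lit 235) r5_354 r9_235 (nat_lit 0) (nat_lit 0) (nat_lit 0) (nat_lit 0x7e7a70da78) (nat_lit 746939232),
  Rx.mk (nat_lit 168) (nat_lit 0) (nat_lit 5) (nat_lit 2) (nat_lit 6) (nat_lit 347) (nat_lit 229) r5_347 r9_229 (nat_lit 0) (nat_lit 0) (nat_lit 0) (nat_lit 0x7e53650b5c) (nat_lit 821806128),
  Rx.mk (nat_lit 169) (nat_lit 1) (nat_lit 5) (nat_lit 2) (nat_lit 7) (nat_lit 352) (nat_lit 234) r5_352 r9_234 (nat_lit 0) (nat_lit 0) (nat_lit 0) (nat_lit 0x7dcfcb657a) (nat_lit 1074135816),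
  Rx.mk (nat_lit 171) (nat_lit 3) (nat_lit 5) (nat_lit 2) (nat_lit 7) (nat_lit 355) (nat_lit 236) r5_355 r9_236 (nat_lit 0) (nat_lit 0) (nat_lit 0) (nat_lit 0x7dcbe9e396) (nat_lit 1081577016),
  Rx.mk (nat_lit 416) (nat_lit 0) (nat_lit 4) (nat_lit 6) (nat_lit 4) (nat_lit 344) (nat_lit 225) r5_344 r9_225 (nat_lit 0) (nat_lit 0) (nat_lit 0) (nat_lit 0x73c25986a6) (nat_lit 6008448888),
  Rx.mk (nat_lit 417) (nat_lit 1) (nat_lit 4) (nat_lit 6) (nat_lit 5) (nat_lit 349) (nat_lit 230) r5_349 r9_230 (nat_lit 0) (nat_lit 0) (nat_lit 0) (nat_lit 0x7e53650b5c) (nat_lit 821806128),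
  Rx.mk (nat_lit 424) (nat_lit 0) (nat_lit 5) (nat_lit 6) (nat_lit 6) (nat_lit 346) (nat_lit 226) r5_346 r9_226 (nat_lit 0) (nat_lit 0) (nat_lit 0) (nat_lit 0x7e77980808) (nat_lit 752397984),
  Rx.mk (nat_lit 425) (nat_lit 1) (nat_lit 5) (nat_lit 6) (nat_lit 7) (nat_lit 351) (nat_lit 231) r5_351 r9_231 (nat_lit 0) (nat_lit 0) (nat_lit 0) (nat_lit 0x7dcfcb657a) (nat_lit 1074135816),
  Rx.mk (nat_lit 440) (nat_lit 0) (nat_lit 7) (nat_lit 6) (nat_lit 6) (nat_lit 348) (nat_lit 227) r5_348 r9_227 (nat_lit 0) (nat_lit 0) (nat_lit 0) (nat_lit 0x7e7a70da78) (nat_lit 746939232),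
  Rx.mk (nat_lit 441) (nat_lit 1) (nat_lit 7) (nat_lit 6) (nat_lit 7) (nat_lit 353) (nat_lit 232) r5_353 r9_232 (nat_lit 0) (nat_lit 0) (nat_lit 0) (nat_lit 0x7dcbe9e396) (nat_lit 1081577016)]
noncomputable def e9_49 : List Rx := [
  Rx.mk (nat_lit 160) (nat_lit 0) (nat_lit 4) (nat_lit 2) (nat_lit 4) (nat_lit 356) (nat_lit 267) r5_356 r10_267 (nat_lit 0) (nat_lit 0) (nat_lit 0) (nat_lit 0x79a5149512) (nat_lit 3119449320),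
  Rx.mk (nat_lit 161) (nat_lit 1) (nat_lit 4) (nat_lit 2) (nat_lit 5) (nat_lit 359) (nat_lit 270) r5_359 r10_270 (nat_lit 0) (nat_lit 0) (nat_lit 0) (nat_lit 0x7e01da245c) (nat_lit 978155568),
  Rx.mk (nat_lit 163) (nat_lit 3) (nat_lit 4) (nat_lit 2) (nat_lit 5) (nat_lit 362) (nat_lit 272) r5_362 r10_272 (nat_lit 0) (nat_lit 0) (nat_lit 0) (nat_lit 0x7df2dd5438) (nat_lit 1006892640),
  Rx.mk (nat_lit 184) (nat_lit 0) (nat_lit 7) (nat_lit 2) (nat_lit 6) (nat_lit 358) (nat_lit 268) r5_358 r10_268 (nat_lit 0) (nat_lit 0) (nat_lit 0) (nat_lit 0x7e095e2c14) (nat_lit 963744912),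
  Rx.mk (nat_lit 185) (nat_lit 1) (nat_lit 7) (nat_lit 2) (nat_lit 7) (nat_lit 361) (nat_lit 271) r5_361 r10_271 (nat_lit 0) (nat_lit 0) (nat_lit 0) (nat_lit 0x7df4315ef6) (nat_lit 1004345784),
  Rx.mk (nat_lit 440) (nat_lit 0) (nat_lit 7) (nat_lit 6) (nat_lit 6) (nat_lit 357) (nat_lit 266) r5_357 r10_266 (nat_lit 0) (nat_lit 0) (nat_lit 0) (nat_lit 0x7ed4e452e6) (nat_lit 573508728),
  Rx.mk (nat_lit 441) (nat_lit 1) (nat_lit 7) (nat_lit 6) (nat_lit 7) (nat_lit 360) (nat_lit 269) r5_360 r10_269 (nat_lit 0) (nat_lit 0) (nat_lit 0) (nat_lit 0x7eb07799d6) (nat_lit 643349304)]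
noncomputable def e9_50 : List Rx := [
  Rx.mk (nat_lit 163) (nat_lit 3) (nat_lit 4) (nat_lit 2) (nat_lit 5) (nat_lit 371) (nat_lit 266) r5_371 r10_266 (nat_lit 0) (nat_lit 0) (nat_lit 0) (nat_lit 0x7ed4e452e6) (nat_lit 573508728),
  Rx.mk (nat_lit 171) (nat_lit 3) (nat_lit 5) (nat_lit 2) (nat_lit 7) (nat_lit 373) (nat_lit 269) r5_373 r10_269 (nat_lit 0) (nat_lit 0) (nat_lit 0) (nat_lit 0x7eb07799d6) (nat_lit 643349304),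
  Rx.mk (nat_lit 416) (nat_lit 0) (nat_lit 4) (nat_lit 6) (nat_lit 4) (nat_lit 367) (nat_lit 267) r5_367 r10_267 (nat_lit 0) (nat_lit 0) (nat_lit 0) (nat_lit 0x79a5149512) (nat_lit 3119449320),
  Rx.mk (nat_lit 419) (nat_lit 3) (nat_lit 4) (nat_lit 6) (nat_lit 5) (nat_lit 370) (nat_lit 268) r5_370 r10_268 (nat_lit 0) (nat_lit 0) (nat_lit 0) (nat_lit 0x7e095e2c14) (nat_lit 963744912),
  Rx.mk (nat_lit 424) (nat_lit 0) (nat_lit 5) (nat_lit 6) (nat_lit 6) (nat_lit 368) (nat_lit 270) r5_368 r10_270 (nat_lit 0) (nat_lit 0) (nat_lit 0) (nat_lit 0x7e01da245c) (nat_lit 978155568),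
  Rx.mk (nat_lit 427) (nat_lit 3) (nat_lit 5) (nat_lit 6) (nat_lit 7) (nat_lit 372) (nat_lit 271) r5_372 r10_271 (nat_lit 0) (nat_lit 0) (nat_lit 0) (nat_lit 0x7df4315ef6) (nat_lit 1004345784),
  Rx.mk (nat_lit 440) (nat_lit 0) (nat_lit 7) (nat_lit 6) (nat_lit 6) (nat_lit 369) (nat_lit 272) r5_369 r10_272 (nat_lit 0) (nat_lit 0) (nat_lit 0) (nat_lit 0x7df2dd5438) (nat_lit 1006892640)]
noncomputable def e9_51 : List Rx := [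
  Rx.mk (nat_lit 52) (nat_lit 4) (nat_lit 6) (nat_lit 0) (nat_lit 2) (nat_lit 31) (nat_lit 70) r5_31 r12_70 (nat_lit 0) (nat_lit 0) (nat_lit 0) (nat_lit 0x7e042adf4e) (nat_lit 973716120),
  Rx.mk (nat_lit 54) (nat_lit 6) (nat_lit 6) (nat_lit 0) (nat_lit 3) (nat_lit 34) (nat_lit 78) r5_34 r12_78 (nat_lit 0) (nat_lit 0) (nat_lit 0) (nat_lit 0x7a93662f0a) (nat_lit 2662497864),
  Rx.mk (nat_lit 55) (nat_lit 7) (nat_lit 6) (nat_lit 0) (nat_lit 3) (nat_lit 38) (nat_lit 75) r5_38 r12_75 (nat_lit 0) (nat_lit 0) (nat_lit 0) (nat_lit 0x7dee681b90) (nat_lit 1015440192),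
  Rx.mk (nat_lit 167) (nat_lit 7) (nat_lit 4) (nat_lit 2) (nat_lit 5) (nat_lit 37) (nat_lit 73) r5_37 r12_73 (nat_lit 0) (nat_lit 0) (nat_lit 0) (nat_lit 0x7e46331e88) (nat_lit 847106208),
  Rx.mk (nat_lit 180) (nat_lit 4) (nat_lit 6) (nat_lit 2) (nat_lit 6) (nat_lit 32) (nat_lit 72) r5_32 r12_72 (nat_lit 0) (nat_lit 0) (nat_lit 0) (nat_lit 0x7c7bbb67ce) (nat_lit 1726170264),
  Rx.mk (nat_lit 183) (nat_lit 7) (nat_lit 6) (nat_lit 2) (nat_lit 7) (nat_lit 39) (nat_lit 76) r5_39 r12_76 (nat_lit 0) (nat_lit 0) (nat_lit 0) (nat_lit 0x7f0fa006f0) (nat_lit 460893888),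
  Rx.mk (nat_lit 191) (nat_lit 7) (nat_lit 7) (nat_lit 2) (nat_lit 7) (nat_lit 40) (nat_lit 74) r5_40 r12_74 (nat_lit 0) (nat_lit 0) (nat_lit 0) (nat_lit 0x7e5cc7752c) (nat_lit 803812464),
  Rx.mk (nat_lit 214) (nat_lit 6) (nat_lit 2) (nat_lit 3) (nat_lit 7) (nat_lit 36) (nat_lit 77) r5_36 r12_77 (nat_lit 0) (nat_lit 0) (nat_lit 0) (nat_lit 0x7e41ba8616) (nat_lit 855679032),
  Rx.mk (nat_lit 244) (nat_lit 4) (nat_lit 6) (nat_lit 3) (nat_lit 6) (nat_lit 33) (nat_lit 71) r5_33 r12_71 (nat_lit 0) (nat_lit 0) (nat_lit 0) (nat_lit 0x7f16d5b38e) (nat_lit 447070104),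
  Rx.mk (nat_lit 246) (nat_lit 6) (nat_lit 6) (nat_lit 3) (nat_lit 7) (nat_lit 35) (nat_lit 79) r5_35 r12_79 (nat_lit 0) (nat_lit 0) (nat_lit 0) (nat_lit 0x7e52dd53d8) (nat_lit 822822624)]
noncomputable def e9_52 : List Rx := [
  Rx.mk (nat_lit 258) (nat_lit 2) (nat_lit 0) (nat_lit 4) (nat_lit 1) (nat_lit 90) (nat_lit 70) r5_90 r12_70 (nat_lit 0) (nat_lit 0) (nat_lit 0) (nat_lit 0x7e042adf4e) (nat_lit 973716120),
  Rx.mk (nat_lit 274) (nat_lit 2) (nat_lit 2) (nat_lit 4) (nat_lit 3) (nat_lit 93) (nat_lit 78) r5_93 r12_78 (nat_lit 0) (nat_lit 0) (nat_lit 0) (nat_lit 0x7a93662f0a) (nat_lit 2662497864),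
  Rx.mk (nat_lit 282) (nat_lit 2) (nat_lit 3) (nat_lit 4) (nat_lit 3) (nat_lit 95) (nat_lit 75) r5_95 r12_75 (nat_lit 0) (nat_lit 0) (nat_lit 0) (nat_lit 0x7dee681b90) (nat_lit 1015440192),
  Rx.mk (nat_lit 386) (nat_lit 2) (nat_lit 0) (nat_lit 6) (nat_lit 5) (nat_lit 91) (nat_lit 72) r5_91 r12_72 (nat_lit 0) (nat_lit 0) (nat_lit 0) (nat_lit 0x7c7bbb67ce) (nat_lit 1726170264),
  Rx.mk (nat_lit 408) (nat_lit 0) (nat_lit 3) (nat_lit 6) (nat_lit 6) (nat_lit 89) (nat_lit 73) r5_89 r12_73 (nat_lit 0) (nat_lit 0) (nat_lit 0) (nat_lit 0x7e46331e88) (nat_lit 847106208),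
  Rx.mk (nat_lit 410) (nat_lit 2) (nat_lit 3) (nat_lit 6) (nat_lit 7) (nat_lit 96) (nat_lit 76) r5_96 r12_76 (nat_lit 0) (nat_lit 0) (nat_lit 0) (nat_lit 0x7f0fa006f0) (nat_lit 460893888),
  Rx.mk (nat_lit 411) (nat_lit 3) (nat_lit 3) (nat_lit 6) (nat_lit 7) (nat_lit 97) (nat_lit 74) r5_97 r12_74 (nat_lit 0) (nat_lit 0) (nat_lit 0) (nat_lit 0x7e5cc7752c) (nat_lit 803812464),
  Rx.mk (nat_lit 450) (nat_lit 2) (nat_lit 0) (nat_lit 7) (nat_lit 5) (nat_lit 92) (nat_lit 71) r5_92 r12_71 (nat_lit 0) (nat_lit 0) (nat_lit 0) (nat_lit 0x7f16d5b38e) (nat_lit 447070104),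
  Rx.mk (nat_lit 466) (nat_lit 2) (nat_lit 2) (nat_lit 7) (nat_lit 7) (nat_lit 94) (nat_lit 79) r5_94 r12_79 (nat_lit 0) (nat_lit 0) (nat_lit 0) (nat_lit 0x7e52dd53d8) (nat_lit 822822624),
  Rx.mk (nat_lit 470) (nat_lit 6) (nat_lit 2) (nat_lit 7) (nat_lit 7) (nat_lit 88) (nat_lit 77) r5_88 r12_77 (nat_lit 0) (nat_lit 0) (nat_lit 0) (nat_lit 0x7e41ba8616) (nat_lit 855679032)]
noncomputable def e9_53 : List Rx := [
  Rx.mk (nat_lit 55) (nat_lit 7) (nat_lit 6) (nat_lit 0) (nat_lit 3) (nat_lit 239) (nat_lit 242) r5_239 r12_242 (nat_lit 0) (nat_lit 0) (nat_lit 0) (nat_lit 0x7d25bb2728) (nat_lit 1400214816),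
  Rx.mk (nat_lit 167) (nat_lit 7) (nat_lit 4) (nat_lit 2) (nat_lit 5) (nat_lit 238) (nat_lit 243) r5_238 r12_243 (nat_lit 0) (nat_lit 0) (nat_lit 0) (nat_lit 0x7fed08ef84) (nat_lit 36363600),
  Rx.mk (nat_lit 183) (nat_lit 7) (nat_lit 6) (nat_lit 2) (nat_lit 7) (nat_lit 240) (nat_lit 244) r5_240 r12_244 (nat_lit 0) (nat_lit 0) (nat_lit 0) (nat_lit 0x7ef7d3c3cc) (nat_lit 506523888)]
noncomputable def e9_54 : List Rx := [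
  Rx.mk (nat_lit 282) (nat_lit 2) (nat_lit 3) (nat_lit 4) (nat_lit 3) (nat_lit 252) (nat_lit 242) r5_252 r12_242 (nat_lit 0) (nat_lit 0) (nat_lit 0) (nat_lit 0x7d25bb2728) (nat_lit 1400214816),
  Rx.mk (nat_lit 408) (nat_lit 0) (nat_lit 3) (nat_lit 6) (nat_lit 6) (nat_lit 251) (nat_lit 243) r5_251 r12_243 (nat_lit 0) (nat_lit 0) (nat_lit 0) (nat_lit 0x7fed08ef84) (nat_lit 36363600),
  Rx.mk (nat_lit 410) (nat_lit 2) (nat_lit 3) (nat_lit 6) (nat_lit 7) (nat_lit 253) (nat_lit 244) r5_253 r12_244 (nat_lit 0) (nat_lit 0) (nat_lit 0) (nat_lit 0x7ef7d3c3cc) (nat_lit 506523888)]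
noncomputable def e9_55 : List Rx := [
  Rx.mk (nat_lit 160) (nat_lit 0) (nat_lit 4) (nat_lit 2) (nat_lit 4) (nat_lit 323) (nat_lit 215) r5_323 r3_215 (nat_lit 0) (nat_lit 0) (nat_lit 0) (nat_lit 0x7fdc245dde) (nat_lit 68753880),
  Rx.mk (nat_lit 163) (nat_lit 3) (nat_lit 4) (nat_lit 2) (nat_lit 5) (nat_lit 325) (nat_lit 216) r5_325 r3_216 (nat_lit 0) (nat_lit 0) (nat_lit 0) (nat_lit 0x7f8fdd429c) (nat_lit 215008560),
  Rx.mk (nat_lit 416) (nat_lit 0) (nat_lit 4) (nat_lit 6) (nat_lit 4) (nat_lit 322) (nat_lit 213) r5_322 r3_213 (nat_lit 0) (nat_lit 0) (nat_lit 0) (nat_lit 0x7fdc245dde) (nat_lit 68753880),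
  Rx.mk (nat_lit 440) (nat_lit 0) (nat_lit 7) (nat_lit 6) (nat_lit 6) (nat_lit 324) (nat_lit 214) r5_324 r3_214 (nat_lit 0) (nat_lit 0) (nat_lit 0) (nat_lit 0x7f8fdd429c) (nat_lit 215008560)]
noncomputable def e9_56 : List Rx := [
  Rx.mk (nat_lit 160) (nat_lit 0) (nat_lit 4) (nat_lit 2) (nat_lit 4) (nat_lit 333) (nat_lit 232) r5_333 r12_232 (nat_lit 0) (nat_lit 0) (nat_lit 0) (nat_lit 0x7b7d41d066) (nat_lit 2214099576),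
  Rx.mk (nat_lit 163) (nat_lit 3) (nat_lit 4) (nat_lit 2) (nat_lit 5) (nat_lit 336) (nat_lit 234) r5_336 r12_234 (nat_lit 0) (nat_lit 0) (nat_lit 0) (nat_lit 0x7dd76d0b58) (nat_lit 1059503328),
  Rx.mk (nat_lit 184) (nat_lit 0) (nat_lit 7) (nat_lit 2) (nat_lit 6) (nat_lit 335) (nat_lit 233) r5_335 r12_233 (nat_lit 0) (nat_lit 0) (nat_lit 0) (nat_lit 0x7f189437a4) (nat_lit 443725776),
  Rx.mk (nat_lit 440) (nat_lit 0) (nat_lit 7) (nat_lit 6) (nat_lit 6) (nat_lit 334) (nat_lit 231) r5_334 r12_231 (nat_lit 0) (nat_lit 0) (nat_lit 0) (nat_lit 0x7fe0d652ba) (nat_lit 59751432)]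
noncomputable def e9_57 : List Rx := [
  Rx.mk (nat_lit 163) (nat_lit 3) (nat_lit 4) (nat_lit 2) (nat_lit 5) (nat_lit 366) (nat_lit 231) r5_366 r12_231 (nat_lit 0) (nat_lit 0) (nat_lit 0) (nat_lit 0x7fe0d652ba) (nat_lit 59751432),
  Rx.mk (nat_lit 416) (nat_lit 0) (nat_lit 4) (nat_lit 6) (nat_lit 4) (nat_lit 363) (nat_lit 232) r5_363 r12_232 (nat_lit 0) (nat_lit 0) (nat_lit 0) (nat_lit 0x7b7d41d066) (nat_lit 2214099576),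
  Rx.mk (nat_lit 419) (nat_lit 3) (nat_lit 4) (nat_lit 6) (nat_lit 5) (nat_lit 365) (nat_lit 233) r5_365 r12_233 (nat_lit 0) (nat_lit 0) (nat_lit 0) (nat_lit 0x7f189437a4) (nat_lit 443725776),
  Rx.mk (nat_lit 440) (nat_lit 0) (nat_lit 7) (nat_lit 6) (nat_lit 6) (nat_lit 364) (nat_lit 234) r5_364 r12_234 (nat_lit 0) (nat_lit 0) (nat_lit 0) (nat_lit 0x7dd76d0b58) (nat_lit 1059503328)]
noncomputable def e9 : List (List Rx) := [e9_0, e9_1, e9_2, e9_3, e9_4, e9_5, e9_6, e9_7, e9_8, e9_9, e9_10, e9_11, e9_12, e9_13, e9_14, e9_15, e9_16, e9_17, e9_18, e9_19, e9_20, e9_21, e9_22, e9_23, e9_24, e9_25, e9_26, e9_27, e9_28, e9_29, e9_30, e9_31, e9_32, e9_33, e9_34, e9_35, e9_36, e9_37, e9_38, e9_39, e9_40, e9_41, e9_42, e9_43, e9_44, e9_45, e9_46, e9_47, e9_48, e9_49, e9_50, e9_51, e9_52, e9_53, e9_54, e9_55, e9_56, e9_57]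
noncomputable def e10_0 : List Rx := [
  Rx.mk (nat_lit 2) (nat_lit 2) (nat_lit 0) (nat_lit 0) (nat_lit 1) (nat_lit 91) (nat_lit 94) r0_91 r0_94 (nat_lit 0) (nat_lit 0) (nat_lit 0) (nat_lit 0x64497ea3ce) (nat_lit 13602976920),
  Rx.mk (nat_lit 18) (nat_lit 2) (nat_lit 2) (nat_lit 0) (nat_lit 3) (nat_lit 92) (nat_lit 97) r0_92 r0_97 (nat_lit 0) (nat_lit 0) (nat_lit 0) (nat_lit 0x742628a950) (nat_lit 5817075264),
  Rx.mk (nat_lit 146) (nat_lit 2) (nat_lit 2) (nat_lit 2) (nat_lit 7) (nat_lit 93) (nat_lit 99) r0_93 r0_99 (nat_lit 0) (nat_lit 0) (nat_lit 0) (nat_lit 0x7e09c9c55a) (nat_lit 962939016),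
  Rx.mk (nat_lit 192) (nat_lit 0) (nat_lit 0) (nat_lit 3) (nat_lit 4) (nat_lit 94) (nat_lit 91) r0_94 r0_91 (nat_lit 0) (nat_lit 0) (nat_lit 0) (nat_lit 0x64497ea3ce) (nat_lit 13602976920),
  Rx.mk (nat_lit 194) (nat_lit 2) (nat_lit 0) (nat_lit 3) (nat_lit 5) (nat_lit 95) (nat_lit 95) r0_95 r0_95 (nat_lit 0) (nat_lit 0) (nat_lit 0) (nat_lit 0x799825c40c) (nat_lit 3144246768),
  Rx.mk (nat_lit 210) (nat_lit 2) (nat_lit 2) (nat_lit 3) (nat_lit 7) (nat_lit 96) (nat_lit 98) r0_96 r0_98 (nat_lit 0) (nat_lit 0) (nat_lit 0) (nat_lit 0x7db4a9d7ae) (nat_lit 1126156824),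
  Rx.mk (nat_lit 216) (nat_lit 0) (nat_lit 3) (nat_lit 3) (nat_lit 6) (nat_lit 97) (nat_lit 92) r0_97 r0_92 (nat_lit 0) (nat_lit 0) (nat_lit 0) (nat_lit 0x742628a950) (nat_lit 5817075264),
  Rx.mk (nat_lit 218) (nat_lit 2) (nat_lit 3) (nat_lit 3) (nat_lit 7) (nat_lit 98) (nat_lit 96) r0_98 r0_96 (nat_lit 0) (nat_lit 0) (nat_lit 0) (nat_lit 0x7db4a9d7ae) (nat_lit 1126156824),
  Rx.mk (nat_lit 219) (nat_lit 3) (nat_lit 3) (nat_lit 3) (nat_lit 7) (nat_lit 99) (nat_lit 93) r0_99 r0_93 (nat_lit 0) (nat_lit 0) (nat_lit 0) (nat_lit 0x7e09c9c55a) (nat_lit 962939016)]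
noncomputable def e10_1 : List Rx := [
  Rx.mk (nat_lit 0) (nat_lit 0) (nat_lit 0) (nat_lit 0) (nat_lit 0) (nat_lit 111) (nat_lit 94) r0_111 r1_94 (nat_lit 0) (nat_lit 0) (nat_lit 0) (nat_lit 0x7fc651db1c) (nat_lit 110595888),
  Rx.mk (nat_lit 2) (nat_lit 2) (nat_lit 0) (nat_lit 0) (nat_lit 1) (nat_lit 112) (nat_lit 99) r0_112 r1_99 (nat_lit 0) (nat_lit 0) (nat_lit 0) (nat_lit 0x6fba2ced78) (nat_lit 7987535712),
  Rx.mk (nat_lit 18) (nat_lit 2) (nat_lit 2) (nat_lit 0) (nat_lit 3) (nat_lit 113) (nat_lit 103) r0_113 r1_103 (nat_lit 0) (nat_lit 0) (nat_lit 0) (nat_lit 0x6f612c3ddc) (nat_lit 8158189104),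
  Rx.mk (nat_lit 64) (nat_lit 0) (nat_lit 0) (nat_lit 1) (nat_lit 4) (nat_lit 114) (nat_lit 95) r0_114 r1_95 (nat_lit 0) (nat_lit 0) (nat_lit 0) (nat_lit 0x7c02729cd4) (nat_lit 1958720400),
  Rx.mk (nat_lit 66) (nat_lit 2) (nat_lit 0) (nat_lit 1) (nat_lit 5) (nat_lit 115) (nat_lit 100) r0_115 r1_100 (nat_lit 0) (nat_lit 0) (nat_lit 0) (nat_lit 0x7d6029a006) (nat_lit 1288178424),
  Rx.mk (nat_lit 82) (nat_lit 2) (nat_lit 2) (nat_lit 1) (nat_lit 7) (nat_lit 116) (nat_lit 104) r0_116 r1_104 (nat_lit 0) (nat_lit 0) (nat_lit 0) (nat_lit 0x7daa421e34) (nat_lit 1146107664),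
  Rx.mk (nat_lit 146) (nat_lit 2) (nat_lit 2) (nat_lit 2) (nat_lit 7) (nat_lit 117) (nat_lit 106) r0_117 r1_106 (nat_lit 0) (nat_lit 0) (nat_lit 0) (nat_lit 0x7d94a957d6) (nat_lit 1187517240),
  Rx.mk (nat_lit 192) (nat_lit 0) (nat_lit 0) (nat_lit 3) (nat_lit 4) (nat_lit 118) (nat_lit 96) r0_118 r1_96 (nat_lit 0) (nat_lit 0) (nat_lit 0) (nat_lit 0x76fc4b844c) (nat_lit 4424784624),
  Rx.mk (nat_lit 194) (nat_lit 2) (nat_lit 0) (nat_lit 3) (nat_lit 5) (nat_lit 119) (nat_lit 101) r0_119 r1_101 (nat_lit 0) (nat_lit 0) (nat_lit 0) (nat_lit 0x7ddf4a4d7c) (nat_lit 1044424368),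
  Rx.mk (nat_lit 210) (nat_lit 2) (nat_lit 2) (nat_lit 3) (nat_lit 7) (nat_lit 120) (nat_lit 105) r0_120 r1_105 (nat_lit 0) (nat_lit 0) (nat_lit 0) (nat_lit 0x7dd7b446e4) (nat_lit 1058969808),
  Rx.mk (nat_lit 216) (nat_lit 0) (nat_lit 3) (nat_lit 3) (nat_lit 6) (nat_lit 121) (nat_lit 97) r0_121 r1_97 (nat_lit 0) (nat_lit 0) (nat_lit 0) (nat_lit 0x7d51e2a484) (nat_lit 1315553616),
  Rx.mk (nat_lit 218) (nat_lit 2) (nat_lit 3) (nat_lit 3) (nat_lit 7) (nat_lit 122) (nat_lit 102) r0_122 r1_102 (nat_lit 0) (nat_lit 0) (nat_lit 0) (nat_lit 0x7df6bc3646) (nat_lit 999471096),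
  Rx.mk (nat_lit 219) (nat_lit 3) (nat_lit 3) (nat_lit 3) (nat_lit 7) (nat_lit 123) (nat_lit 98) r0_123 r1_98 (nat_lit 0) (nat_lit 0) (nat_lit 0) (nat_lit 0x7dd1bc8666) (nat_lit 1070412408)]
noncomputable def e10_2 : List Rx := [
  Rx.mk (nat_lit 64) (nat_lit 0) (nat_lit 0) (nat_lit 1) (nat_lit 4) (nat_lit 254) (nat_lit 98) r0_254 r2_98 (nat_lit 0) (nat_lit 0) (nat_lit 0) (nat_lit 0x58ede04910) (nat_lit 19178033472),
  Rx.mk (nat_lit 66) (nat_lit 2) (nat_lit 0) (nat_lit 1) (nat_lit 5) (nat_lit 255) (nat_lit 99) r0_255 r2_99 (nat_lit 0) (nat_lit 0) (nat_lit 0) (nat_lit 0x7c870832f6) (nat_lit 1704503736),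
  Rx.mk (nat_lit 82) (nat_lit 2) (nat_lit 2) (nat_lit 1) (nat_lit 7) (nat_lit 256) (nat_lit 100) r0_256 r2_100 (nat_lit 0) (nat_lit 0) (nat_lit 0) (nat_lit 0x7df272dae0) (nat_lit 1007690112)]
noncomputable def e10_3 : List Rx := [
  Rx.mk (nat_lit 192) (nat_lit 0) (nat_lit 0) (nat_lit 3) (nat_lit 4) (nat_lit 43) (nat_lit 88) r0_43 r3_88 (nat_lit 0) (nat_lit 0) (nat_lit 0) (nat_lit 0x8000000000) (nat_lit 0),
  Rx.mk (nat_lit 194) (nat_lit 2) (nat_lit 0) (nat_lit 3) (nat_lit 5) (nat_lit 44) (nat_lit 94) r0_44 r3_94 (nat_lit 0) (nat_lit 0) (nat_lit 0) (nat_lit 0x789f9ccd94) (nat_lit 3620786832),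
  Rx.mk (nat_lit 210) (nat_lit 2) (nat_lit 2) (nat_lit 3) (nat_lit 7) (nat_lit 45) (nat_lit 96) r0_45 r3_96 (nat_lit 0) (nat_lit 0) (nat_lit 0) (nat_lit 0x7aaf35b1f6) (nat_lit 2609173944),
  Rx.mk (nat_lit 216) (nat_lit 0) (nat_lit 3) (nat_lit 3) (nat_lit 6) (nat_lit 46) (nat_lit 89) r0_46 r3_89 (nat_lit 0) (nat_lit 0) (nat_lit 0) (nat_lit 0x8000000000) (nat_lit 0),
  Rx.mk (nat_lit 218) (nat_lit 2) (nat_lit 3) (nat_lit 3) (nat_lit 7) (nat_lit 47) (nat_lit 95) r0_47 r3_95 (nat_lit 0) (nat_lit 0) (nat_lit 0) (nat_lit 0x7c4bfa640e) (nat_lit 1817733528),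
  Rx.mk (nat_lit 315) (nat_lit 3) (nat_lit 7) (nat_lit 4) (nat_lit 3) (nat_lit 48) (nat_lit 92) r0_48 r3_92 (nat_lit 0) (nat_lit 0) (nat_lit 0) (nat_lit 0x6dba6c2b84) (nat_lit 8968768848),
  Rx.mk (nat_lit 472) (nat_lit 0) (nat_lit 3) (nat_lit 7) (nat_lit 6) (nat_lit 49) (nat_lit 90) r0_49 r3_90 (nat_lit 0) (nat_lit 0) (nat_lit 0) (nat_lit 0x7ef7fa0168) (nat_lit 506237472),
  Rx.mk (nat_lit 475) (nat_lit 3) (nat_lit 3) (nat_lit 7) (nat_lit 7) (nat_lit 50) (nat_lit 91) r0_50 r3_91 (nat_lit 0) (nat_lit 0) (nat_lit 0) (nat_lit 0x7f3f0caff6) (nat_lit 369962424),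
  Rx.mk (nat_lit 507) (nat_lit 3) (nat_lit 7) (nat_lit 7) (nat_lit 7) (nat_lit 51) (nat_lit 93) r0_51 r3_93 (nat_lit 0) (nat_lit 0) (nat_lit 0) (nat_lit 0x7b04e536a8) (nat_lit 2444880672)]
noncomputable def e10_4 : List Rx := [
  Rx.mk (nat_lit 192) (nat_lit 0) (nat_lit 0) (nat_lit 3) (nat_lit 4) (nat_lit 142) (nat_lit 93) r0_142 r4_93 (nat_lit 0) (nat_lit 0) (nat_lit 0) (nat_lit 0x71b7297bb2) (nat_lit 7011606888),
  Rx.mk (nat_lit 194) (nat_lit 2) (nat_lit 0) (nat_lit 3) (nat_lit 5) (nat_lit 143) (nat_lit 95) r0_143 r4_95 (nat_lit 0) (nat_lit 0) (nat_lit 0) (nat_lit 0x7ac67fdd3c) (nat_lit 2564518320),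
  Rx.mk (nat_lit 210) (nat_lit 2) (nat_lit 2) (nat_lit 3) (nat_lit 7) (nat_lit 144) (nat_lit 97) r0_144 r4_97 (nat_lit 0) (nat_lit 0) (nat_lit 0) (nat_lit 0x7d94351f1a) (nat_lit 1188387720),
  Rx.mk (nat_lit 216) (nat_lit 0) (nat_lit 3) (nat_lit 3) (nat_lit 6) (nat_lit 145) (nat_lit 94) r0_145 r4_94 (nat_lit 0) (nat_lit 0) (nat_lit 0) (nat_lit 0x7bb2a1ba32) (nat_lit 2111759208),
  Rx.mk (nat_lit 218) (nat_lit 2) (nat_lit 3) (nat_lit 3) (nat_lit 7) (nat_lit 146) (nat_lit 96) r0_146 r4_96 (nat_lit 0) (nat_lit 0) (nat_lit 0) (nat_lit 0x7e2f4f4cdc) (nat_lit 890995248)]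
noncomputable def e10_5 : List Rx := [
  Rx.mk (nat_lit 257) (nat_lit 1) (nat_lit 0) (nat_lit 4) (nat_lit 1) (nat_lit 359) (nat_lit 143) r0_359 r3_143 (nat_lit 0) (nat_lit 0) (nat_lit 0) (nat_lit 0x8000000000) (nat_lit 0),
  Rx.mk (nat_lit 281) (nat_lit 1) (nat_lit 3) (nat_lit 4) (nat_lit 3) (nat_lit 300) (nat_lit 146) r0_300 r3_146 (nat_lit 0) (nat_lit 0) (nat_lit 0) (nat_lit 0x8000000000) (nat_lit 0),
  Rx.mk (nat_lit 320) (nat_lit 0) (nat_lit 0) (nat_lit 5) (nat_lit 4) (nat_lit 301) (nat_lit 142) r0_301 r3_142 (nat_lit 0) (nat_lit 0) (nat_lit 0) (nat_lit 0x7ffd37ac88) (nat_lit 5335200),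
  Rx.mk (nat_lit 321) (nat_lit 1) (nat_lit 0) (nat_lit 5) (nat_lit 5) (nat_lit 302) (nat_lit 144) r0_302 r3_144 (nat_lit 0) (nat_lit 0) (nat_lit 0) (nat_lit 0x7efff78188) (nat_lit 490917024),
  Rx.mk (nat_lit 344) (nat_lit 0) (nat_lit 3) (nat_lit 5) (nat_lit 6) (nat_lit 303) (nat_lit 145) r0_303 r3_145 (nat_lit 0) (nat_lit 0) (nat_lit 0) (nat_lit 0x7da58729e8) (nat_lit 1155177504),
  Rx.mk (nat_lit 345) (nat_lit 1) (nat_lit 3) (nat_lit 5) (nat_lit 7) (nat_lit 304) (nat_lit 147) r0_304 r3_147 (nat_lit 0) (nat_lit 0) (nat_lit 0) (nat_lit 0x7feb704910) (nat_lit 39424320)]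
noncomputable def e10_6 : List Rx := [
  Rx.mk (nat_lit 320) (nat_lit 0) (nat_lit 0) (nat_lit 5) (nat_lit 4) (nat_lit 248) (nat_lit 171) r0_248 r0_171 (nat_lit 0) (nat_lit 0) (nat_lit 0) (nat_lit 0x7d82b5b722) (nat_lit 1221937704),
  Rx.mk (nat_lit 321) (nat_lit 1) (nat_lit 0) (nat_lit 5) (nat_lit 5) (nat_lit 249) (nat_lit 172) r0_249 r0_172 (nat_lit 0) (nat_lit 0) (nat_lit 0) (nat_lit 0x79e90615b6) (nat_lit 2989174968)]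
noncomputable def e10_7 : List Rx := [
  Rx.mk (nat_lit 64) (nat_lit 0) (nat_lit 0) (nat_lit 1) (nat_lit 4) (nat_lit 265) (nat_lit 180) r0_265 r1_180 (nat_lit 0) (nat_lit 0) (nat_lit 0) (nat_lit 0x5c4ea51962) (nat_lit 17519929128),
  Rx.mk (nat_lit 65) (nat_lit 1) (nat_lit 0) (nat_lit 1) (nat_lit 5) (nat_lit 266) (nat_lit 182) r0_266 r1_182 (nat_lit 0) (nat_lit 0) (nat_lit 0) (nat_lit 0x77997950d2) (nat_lit 4123410408),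
  Rx.mk (nat_lit 66) (nat_lit 2) (nat_lit 0) (nat_lit 1) (nat_lit 5) (nat_lit 267) (nat_lit 183) r0_267 r1_183 (nat_lit 0) (nat_lit 0) (nat_lit 0) (nat_lit 0x7389907370) (nat_lit 6117329088),
  Rx.mk (nat_lit 82) (nat_lit 2) (nat_lit 2) (nat_lit 1) (nat_lit 7) (nat_lit 268) (nat_lit 184) r0_268 r1_184 (nat_lit 0) (nat_lit 0) (nat_lit 0) (nat_lit 0x6ddb0661c0) (nat_lit 8906257152),
  Rx.mk (nat_lit 320) (nat_lit 0) (nat_lit 0) (nat_lit 5) (nat_lit 4) (nat_lit 269) (nat_lit 179) r0_269 r1_179 (nat_lit 0) (nat_lit 0) (nat_lit 0) (nat_lit 0x7fe711eefa) (nat_lit 47800584),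
  Rx.mk (nat_lit 321) (nat_lit 1) (nat_lit 0) (nat_lit 5) (nat_lit 5) (nat_lit 270) (nat_lit 181) r0_270 r1_181 (nat_lit 0) (nat_lit 0) (nat_lit 0) (nat_lit 0x7a861a03da) (nat_lit 2687994504)]
noncomputable def e10_8 : List Rx := [
  Rx.mk (nat_lit 320) (nat_lit 0) (nat_lit 0) (nat_lit 5) (nat_lit 4) (nat_lit 317) (nat_lit 155) r0_317 r4_155 (nat_lit 0) (nat_lit 0) (nat_lit 0) (nat_lit 0x6ef1331dde) (nat_lit 8372885976),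
  Rx.mk (nat_lit 321) (nat_lit 1) (nat_lit 0) (nat_lit 5) (nat_lit 5) (nat_lit 318) (nat_lit 156) r0_318 r4_156 (nat_lit 0) (nat_lit 0) (nat_lit 0) (nat_lit 0x7d38edd3ea) (nat_lit 1363404744),
  Rx.mk (nat_lit 344) (nat_lit 0) (nat_lit 3) (nat_lit 5) (nat_lit 6) (nat_lit 319) (nat_lit 157) r0_319 r4_157 (nat_lit 0) (nat_lit 0) (nat_lit 0) (nat_lit 0x76db4494dc) (nat_lit 4488110640),
  Rx.mk (nat_lit 345) (nat_lit 1) (nat_lit 3) (nat_lit 5) (nat_lit 7) (nat_lit 320) (nat_lit 158) r0_320 r4_158 (nat_lit 0) (nat_lit 0) (nat_lit 0) (nat_lit 0x7ece365dcc) (nat_lit 586316016)]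
noncomputable def e10_9 : List Rx := [
  Rx.mk (nat_lit 280) (nat_lit 0) (nat_lit 3) (nat_lit 4) (nat_lit 2) (nat_lit 228) (nat_lit 99) r0_228 r5_99 (nat_lit 0) (nat_lit 0) (nat_lit 0) (nat_lit 0x746fc68f28) (nat_lit 5675922720),
  Rx.mk (nat_lit 281) (nat_lit 1) (nat_lit 3) (nat_lit 4) (nat_lit 3) (nat_lit 229) (nat_lit 102) r0_229 r5_102 (nat_lit 0) (nat_lit 0) (nat_lit 0) (nat_lit 0x7f864e9b90) (nat_lit 233333568),
  Rx.mk (nat_lit 283) (nat_lit 3) (nat_lit 3) (nat_lit 4) (nat_lit 3) (nat_lit 230) (nat_lit 104) r0_230 r5_104 (nat_lit 0) (nat_lit 0) (nat_lit 0) (nat_lit 0x7d3f0c91f8) (nat_lit 1351670112),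
  Rx.mk (nat_lit 315) (nat_lit 3) (nat_lit 7) (nat_lit 4) (nat_lit 3) (nat_lit 231) (nat_lit 105) r0_231 r5_105 (nat_lit 0) (nat_lit 0) (nat_lit 0) (nat_lit 0x7b678c2bd6) (nat_lit 2255725368),
  Rx.mk (nat_lit 448) (nat_lit 0) (nat_lit 0) (nat_lit 7) (nat_lit 4) (nat_lit 232) (nat_lit 98) r0_232 r5_98 (nat_lit 0) (nat_lit 0) (nat_lit 0) (nat_lit 0x75597c52e2) (nat_lit 5227808040),
  Rx.mk (nat_lit 449) (nat_lit 1) (nat_lit 0) (nat_lit 7) (nat_lit 5) (nat_lit 233) (nat_lit 101) r0_233 r5_101 (nat_lit 0) (nat_lit 0) (nat_lit 0) (nat_lit 0x7fa8fdf078) (nat_lit 166828896),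
  Rx.mk (nat_lit 472) (nat_lit 0) (nat_lit 3) (nat_lit 7) (nat_lit 6) (nat_lit 234) (nat_lit 100) r0_234 r5_100 (nat_lit 0) (nat_lit 0) (nat_lit 0) (nat_lit 0x7ee77f2926) (nat_lit 537835896),
  Rx.mk (nat_lit 473) (nat_lit 1) (nat_lit 3) (nat_lit 7) (nat_lit 7) (nat_lit 235) (nat_lit 103) r0_235 r5_103 (nat_lit 0) (nat_lit 0) (nat_lit 0) (nat_lit 0x7f62ec71d6) (nat_lit 301177656)]
noncomputable def e10_10 : List Rx := [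
  Rx.mk (nat_lit 18) (nat_lit 2) (nat_lit 2) (nat_lit 0) (nat_lit 3) (nat_lit 0) (nat_lit 10) r0_0 r0_10 (nat_lit 0) (nat_lit 0) (nat_lit 0) (nat_lit 0x5a57b84a26) (nat_lit 18484235640),
  Rx.mk (nat_lit 146) (nat_lit 2) (nat_lit 2) (nat_lit 2) (nat_lit 7) (nat_lit 1) (nat_lit 19) r0_1 r0_19 (nat_lit 0) (nat_lit 0) (nat_lit 0) (nat_lit 0x6c8afca3ac) (nat_lit 9550575216),
  Rx.mk (nat_lit 150) (nat_lit 6) (nat_lit 2) (nat_lit 2) (nat_lit 7) (nat_lit 2) (nat_lit 18) r0_2 r0_18 (nat_lit 0) (nat_lit 0) (nat_lit 0) (nat_lit 0x78399a2e24) (nat_lit 3816380880),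
  Rx.mk (nat_lit 182) (nat_lit 6) (nat_lit 6) (nat_lit 2) (nat_lit 7) (nat_lit 3) (nat_lit 17) r0_3 r0_17 (nat_lit 0) (nat_lit 0) (nat_lit 0) (nat_lit 0x763e65836a) (nat_lit 4788895176),
  Rx.mk (nat_lit 192) (nat_lit 0) (nat_lit 0) (nat_lit 3) (nat_lit 4) (nat_lit 4) (nat_lit 11) r0_4 r0_11 (nat_lit 0) (nat_lit 0) (nat_lit 0) (nat_lit 0x6d8468cbf0) (nat_lit 9072333504),
  Rx.mk (nat_lit 194) (nat_lit 2) (nat_lit 0) (nat_lit 3) (nat_lit 5) (nat_lit 5) (nat_lit 12) r0_5 r0_12 (nat_lit 0) (nat_lit 0) (nat_lit 0) (nat_lit 0x664f05495e) (nat_lit 12610674648),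
  Rx.mk (nat_lit 210) (nat_lit 2) (nat_lit 2) (nat_lit 3) (nat_lit 7) (nat_lit 6) (nat_lit 16) r0_6 r0_16 (nat_lit 0) (nat_lit 0) (nat_lit 0) (nat_lit 0x7776fb78d2) (nat_lit 4189544424),
  Rx.mk (nat_lit 216) (nat_lit 0) (nat_lit 3) (nat_lit 3) (nat_lit 6) (nat_lit 7) (nat_lit 13) r0_7 r0_13 (nat_lit 0) (nat_lit 0) (nat_lit 0) (nat_lit 0x7777281608) (nat_lit 4189210272),
  Rx.mk (nat_lit 218) (nat_lit 2) (nat_lit 3) (nat_lit 3) (nat_lit 7) (nat_lit 8) (nat_lit 15) r0_8 r0_15 (nat_lit 0) (nat_lit 0) (nat_lit 0) (nat_lit 0x7676fb99d0) (nat_lit 4680396864),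
  Rx.mk (nat_lit 219) (nat_lit 3) (nat_lit 3) (nat_lit 3) (nat_lit 7) (nat_lit 9) (nat_lit 14) r0_9 r0_14 (nat_lit 0) (nat_lit 0) (nat_lit 0) (nat_lit 0x78a05961ca) (nat_lit 3619374408),
  Rx.mk (nat_lit 319) (nat_lit 7) (nat_lit 7) (nat_lit 4) (nat_lit 3) (nat_lit 10) (nat_lit 0) r0_10 r0_0 (nat_lit 0) (nat_lit 0) (nat_lit 0) (nat_lit 0x5a57b84a26) (nat_lit 18484235640),
  Rx.mk (nat_lit 420) (nat_lit 4) (nat_lit 4) (nat_lit 6) (nat_lit 4) (nat_lit 11) (nat_lit 4) r0_11 r0_4 (nat_lit 0) (nat_lit 0) (nat_lit 0) (nat_lit 0x6d8468cbf0) (nat_lit 9072333504),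
  Rx.mk (nat_lit 423) (nat_lit 7) (nat_lit 4) (nat_lit 6) (nat_lit 5) (nat_lit 12) (nat_lit 5) r0_12 r0_5 (nat_lit 0) (nat_lit 0) (nat_lit 0) (nat_lit 0x664f05495e) (nat_lit 12610674648),
  Rx.mk (nat_lit 436) (nat_lit 4) (nat_lit 6) (nat_lit 6) (nat_lit 6) (nat_lit 13) (nat_lit 7) r0_13 r0_7 (nat_lit 0) (nat_lit 0) (nat_lit 0) (nat_lit 0x7777281608) (nat_lit 4189210272),
  Rx.mk (nat_lit 438) (nat_lit 6) (nat_lit 6) (nat_lit 6) (nat_lit 7) (nat_lit 14) (nat_lit 9) r0_14 r0_9 (nat_lit 0) (nat_lit 0) (nat_lit 0) (nat_lit 0x78a05961ca) (nat_lit 3619374408),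
  Rx.mk (nat_lit 439) (nat_lit 7) (nat_lit 6) (nat_lit 6) (nat_lit 7) (nat_lit 15) (nat_lit 8) r0_15 r0_8 (nat_lit 0) (nat_lit 0) (nat_lit 0) (nat_lit 0x7676fb99d0) (nat_lit 4680396864),
  Rx.mk (nat_lit 447) (nat_lit 7) (nat_lit 7) (nat_lit 6) (nat_lit 7) (nat_lit 16) (nat_lit 6) r0_16 r0_6 (nat_lit 0) (nat_lit 0) (nat_lit 0) (nat_lit 0x7776fb78d2) (nat_lit 4189544424),
  Rx.mk (nat_lit 475) (nat_lit 3) (nat_lit 3) (nat_lit 7) (nat_lit 7) (nat_lit 17) (nat_lit 3) r0_17 r0_3 (nat_lit 0) (nat_lit 0) (nat_lit 0) (nat_lit 0x763e65836a) (nat_lit 4788895176),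
  Rx.mk (nat_lit 507) (nat_lit 3) (nat_lit 7) (nat_lit 7) (nat_lit 7) (nat_lit 18) (nat_lit 2) r0_18 r0_2 (nat_lit 0) (nat_lit 0) (nat_lit 0) (nat_lit 0x78399a2e24) (nat_lit 3816380880),
  Rx.mk (nat_lit 511) (nat_lit 7) (nat_lit 7) (nat_lit 7) (nat_lit 7) (nat_lit 19) (nat_lit 1) r0_19 r0_1 (nat_lit 0) (nat_lit 0) (nat_lit 0) (nat_lit 0x6c8afca3ac) (nat_lit 9550575216)]
noncomputable def e10_11 : List Rx := [
  Rx.mk (nat_lit 2) (nat_lit 2) (nat_lit 0) (nat_lit 0) (nat_lit 1) (nat_lit 100) (nat_lit 96) r0_100 r6_96 (nat_lit 0) (nat_lit 0) (nat_lit 0) (nat_lit 0x5b048c5c38) (nat_lit 18152855136),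
  Rx.mk (nat_lit 18) (nat_lit 2) (nat_lit 2) (nat_lit 0) (nat_lit 3) (nat_lit 101) (nat_lit 99) r0_101 r6_99 (nat_lit 0) (nat_lit 0) (nat_lit 0) (nat_lit 0x777f139748) (nat_lit 4174024608),
  Rx.mk (nat_lit 146) (nat_lit 2) (nat_lit 2) (nat_lit 2) (nat_lit 7) (nat_lit 102) (nat_lit 101) r0_102 r6_101 (nat_lit 0) (nat_lit 0) (nat_lit 0) (nat_lit 0x7cd66efc3a) (nat_lit 1552259592),
  Rx.mk (nat_lit 150) (nat_lit 6) (nat_lit 2) (nat_lit 2) (nat_lit 7) (nat_lit 103) (nat_lit 102) r0_103 r6_102 (nat_lit 0) (nat_lit 0) (nat_lit 0) (nat_lit 0x7df18ca944) (nat_lit 1009414224),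
  Rx.mk (nat_lit 182) (nat_lit 6) (nat_lit 6) (nat_lit 2) (nat_lit 7) (nat_lit 104) (nat_lit 103) r0_104 r6_103 (nat_lit 0) (nat_lit 0) (nat_lit 0) (nat_lit 0x7defce8528) (nat_lit 1012755744),
  Rx.mk (nat_lit 192) (nat_lit 0) (nat_lit 0) (nat_lit 3) (nat_lit 4) (nat_lit 105) (nat_lit 93) r0_105 r6_93 (nat_lit 0) (nat_lit 0) (nat_lit 0) (nat_lit 0x66b9ed9a6e) (nat_lit 12405690648),
  Rx.mk (nat_lit 194) (nat_lit 2) (nat_lit 0) (nat_lit 3) (nat_lit 5) (nat_lit 106) (nat_lit 97) r0_106 r6_97 (nat_lit 0) (nat_lit 0) (nat_lit 0) (nat_lit 0x77e3aa8d74) (nat_lit 3981154320),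
  Rx.mk (nat_lit 210) (nat_lit 2) (nat_lit 2) (nat_lit 3) (nat_lit 7) (nat_lit 107) (nat_lit 100) r0_107 r6_100 (nat_lit 0) (nat_lit 0) (nat_lit 0) (nat_lit 0x7e027b5a48) (nat_lit 976948128),
  Rx.mk (nat_lit 216) (nat_lit 0) (nat_lit 3) (nat_lit 3) (nat_lit 6) (nat_lit 108) (nat_lit 94) r0_108 r6_94 (nat_lit 0) (nat_lit 0) (nat_lit 0) (nat_lit 0x78a031444c) (nat_lit 3619674864),
  Rx.mk (nat_lit 218) (nat_lit 2) (nat_lit 3) (nat_lit 3) (nat_lit 7) (nat_lit 109) (nat_lit 98) r0_109 r6_98 (nat_lit 0) (nat_lit 0) (nat_lit 0) (nat_lit 0x7de57b0a6a) (nat_lit 1032554952),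
  Rx.mk (nat_lit 219) (nat_lit 3) (nat_lit 3) (nat_lit 3) (nat_lit 7) (nat_lit 110) (nat_lit 95) r0_110 r6_95 (nat_lit 0) (nat_lit 0) (nat_lit 0) (nat_lit 0x7d5af3b36a) (nat_lit 1298169288)]
noncomputable def e10_12 : List Rx := [
  Rx.mk (nat_lit 150) (nat_lit 6) (nat_lit 2) (nat_lit 2) (nat_lit 7) (nat_lit 20) (nat_lit 9) r0_20 r1_9 (nat_lit 0) (nat_lit 0) (nat_lit 0) (nat_lit 0x7ccb2590dc) (nat_lit 1573900848),
  Rx.mk (nat_lit 182) (nat_lit 6) (nat_lit 6) (nat_lit 2) (nat_lit 7) (nat_lit 21) (nat_lit 8) r0_21 r1_8 (nat_lit 0) (nat_lit 0) (nat_lit 0) (nat_lit 0x7c9e945a1c) (nat_lit 1659353904),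
  Rx.mk (nat_lit 319) (nat_lit 7) (nat_lit 7) (nat_lit 4) (nat_lit 3) (nat_lit 22) (nat_lit 0) r0_22 r1_0 (nat_lit 0) (nat_lit 0) (nat_lit 0) (nat_lit 0x76832bf6be) (nat_lit 4657025880),
  Rx.mk (nat_lit 420) (nat_lit 4) (nat_lit 4) (nat_lit 6) (nat_lit 4) (nat_lit 23) (nat_lit 2) r0_23 r1_2 (nat_lit 0) (nat_lit 0) (nat_lit 0) (nat_lit 0x6facf0e146) (nat_lit 8012911608),
  Rx.mk (nat_lit 423) (nat_lit 7) (nat_lit 4) (nat_lit 6) (nat_lit 5) (nat_lit 24) (nat_lit 3) r0_24 r1_3 (nat_lit 0) (nat_lit 0) (nat_lit 0) (nat_lit 0x78202e24fe) (nat_lit 3865124952),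
  Rx.mk (nat_lit 436) (nat_lit 4) (nat_lit 6) (nat_lit 6) (nat_lit 6) (nat_lit 25) (nat_lit 5) r0_25 r1_5 (nat_lit 0) (nat_lit 0) (nat_lit 0) (nat_lit 0x780ee6f982) (nat_lit 3898253736),
  Rx.mk (nat_lit 438) (nat_lit 6) (nat_lit 6) (nat_lit 6) (nat_lit 7) (nat_lit 26) (nat_lit 7) r0_26 r1_7 (nat_lit 0) (nat_lit 0) (nat_lit 0) (nat_lit 0x7c8a811b64) (nat_lit 1697845968),
  Rx.mk (nat_lit 439) (nat_lit 7) (nat_lit 6) (nat_lit 6) (nat_lit 7) (nat_lit 27) (nat_lit 6) r0_27 r1_6 (nat_lit 0) (nat_lit 0) (nat_lit 0) (nat_lit 0x7d16a418a8) (nat_lit 1429148448),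
  Rx.mk (nat_lit 447) (nat_lit 7) (nat_lit 7) (nat_lit 6) (nat_lit 7) (nat_lit 28) (nat_lit 4) r0_28 r1_4 (nat_lit 0) (nat_lit 0) (nat_lit 0) (nat_lit 0x7efe491c70) (nat_lit 494140608),
  Rx.mk (nat_lit 511) (nat_lit 7) (nat_lit 7) (nat_lit 7) (nat_lit 7) (nat_lit 29) (nat_lit 1) r0_29 r1_1 (nat_lit 0) (nat_lit 0) (nat_lit 0) (nat_lit 0x75ecc41dd2) (nat_lit 4945413096)]
noncomputable def e10_13 : List Rx := [
  Rx.mk (nat_lit 150) (nat_lit 6) (nat_lit 2) (nat_lit 2) (nat_lit 7) (nat_lit 139) (nat_lit 76) r0_139 r7_76 (nat_lit 0) (nat_lit 0) (nat_lit 0) (nat_lit 0x7dbbc6c5d8) (nat_lit 1112518368),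
  Rx.mk (nat_lit 182) (nat_lit 6) (nat_lit 6) (nat_lit 2) (nat_lit 7) (nat_lit 140) (nat_lit 77) r0_140 r7_77 (nat_lit 0) (nat_lit 0) (nat_lit 0) (nat_lit 0x7dbbc6c5d8) (nat_lit 1112518368)]
noncomputable def e10_14 : List Rx := [
  Rx.mk (nat_lit 0) (nat_lit 0) (nat_lit 0) (nat_lit 0) (nat_lit 0) (nat_lit 124) (nat_lit 0) r0_124 r7_0 (nat_lit 0) (nat_lit 0) (nat_lit 0) (nat_lit 0x26656fa2a6) (nat_lit 43982313336),
  Rx.mk (nat_lit 2) (nat_lit 2) (nat_lit 0) (nat_lit 0) (nat_lit 1) (nat_lit 125) (nat_lit 1) r0_125 r7_1 (nat_lit 0) (nat_lit 0) (nat_lit 0) (nat_lit 0x5777047844) (nat_lit 19896786000),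
  Rx.mk (nat_lit 18) (nat_lit 2) (nat_lit 2) (nat_lit 0) (nat_lit 3) (nat_lit 126) (nat_lit 2) r0_126 r7_2 (nat_lit 0) (nat_lit 0) (nat_lit 0) (nat_lit 0x7aa48cbc90) (nat_lit 2629613376),
  Rx.mk (nat_lit 64) (nat_lit 0) (nat_lit 0) (nat_lit 1) (nat_lit 4) (nat_lit 127) (nat_lit 3) r0_127 r7_3 (nat_lit 0) (nat_lit 0) (nat_lit 0) (nat_lit 0x6ccff433ee) (nat_lit 9418338072),
  Rx.mk (nat_lit 66) (nat_lit 2) (nat_lit 0) (nat_lit 1) (nat_lit 5) (nat_lit 128) (nat_lit 4) r0_128 r7_4 (nat_lit 0) (nat_lit 0) (nat_lit 0) (nat_lit 0x7d33d4058c) (nat_lit 1373185008),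
  Rx.mk (nat_lit 82) (nat_lit 2) (nat_lit 2) (nat_lit 1) (nat_lit 7) (nat_lit 129) (nat_lit 5) r0_129 r7_5 (nat_lit 0) (nat_lit 0) (nat_lit 0) (nat_lit 0x7dee6ffb12) (nat_lit 1015381224),
  Rx.mk (nat_lit 146) (nat_lit 2) (nat_lit 2) (nat_lit 2) (nat_lit 7) (nat_lit 130) (nat_lit 14) r0_130 r7_14 (nat_lit 0) (nat_lit 0) (nat_lit 0) (nat_lit 0x7da85dbc7c) (nat_lit 1149735600),
  Rx.mk (nat_lit 150) (nat_lit 6) (nat_lit 2) (nat_lit 2) (nat_lit 7) (nat_lit 131) (nat_lit 13) r0_131 r7_13 (nat_lit 0) (nat_lit 0) (nat_lit 0) (nat_lit 0x7dcfeb437c) (nat_lit 1073897136),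
  Rx.mk (nat_lit 182) (nat_lit 6) (nat_lit 6) (nat_lit 2) (nat_lit 7) (nat_lit 132) (nat_lit 12) r0_132 r7_12 (nat_lit 0) (nat_lit 0) (nat_lit 0) (nat_lit 0x7df4ed3338) (nat_lit 1002938976),
  Rx.mk (nat_lit 192) (nat_lit 0) (nat_lit 0) (nat_lit 3) (nat_lit 4) (nat_lit 133) (nat_lit 6) r0_133 r7_6 (nat_lit 0) (nat_lit 0) (nat_lit 0) (nat_lit 0x62b0ff8d58) (nat_lit 14386226400),
  Rx.mk (nat_lit 194) (nat_lit 2) (nat_lit 0) (nat_lit 3) (nat_lit 5) (nat_lit 134) (nat_lit 7) r0_134 r7_7 (nat_lit 0) (nat_lit 0) (nat_lit 0) (nat_lit 0x7d34a4d87e) (nat_lit 1371620952),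
  Rx.mk (nat_lit 210) (nat_lit 2) (nat_lit 2) (nat_lit 3) (nat_lit 7) (nat_lit 135) (nat_lit 11) r0_135 r7_11 (nat_lit 0) (nat_lit 0) (nat_lit 0) (nat_lit 0x7de50491d2) (nat_lit 1033442280),
  Rx.mk (nat_lit 216) (nat_lit 0) (nat_lit 3) (nat_lit 3) (nat_lit 6) (nat_lit 136) (nat_lit 8) r0_136 r7_8 (nat_lit 0) (nat_lit 0) (nat_lit 0) (nat_lit 0x7c3f4c0f00) (nat_lit 1842048000),
  Rx.mk (nat_lit 218) (nat_lit 2) (nat_lit 3) (nat_lit 3) (nat_lit 7) (nat_lit 137) (nat_lit 10) r0_137 r7_10 (nat_lit 0) (nat_lit 0) (nat_lit 0) (nat_lit 0x7df1e163f8) (nat_lit 1008779616),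
  Rx.mk (nat_lit 219) (nat_lit 3) (nat_lit 3) (nat_lit 3) (nat_lit 7) (nat_lit 138) (nat_lit 9) r0_138 r7_9 (nat_lit 0) (nat_lit 0) (nat_lit 0) (nat_lit 0x7db74b2d96) (nat_lit 1121113656)]
noncomputable def e10_15 : List Rx := [
  Rx.mk (nat_lit 64) (nat_lit 0) (nat_lit 0) (nat_lit 1) (nat_lit 4) (nat_lit 262) (nat_lit 65) r0_262 r8_65 (nat_lit 0) (nat_lit 0) (nat_lit 0) (nat_lit 0x69ec4571be) (nat_lit 10836602712),
  Rx.mk (nat_lit 66) (nat_lit 2) (nat_lit 0) (nat_lit 1) (nat_lit 5) (nat_lit 263) (nat_lit 66) r0_263 r8_66 (nat_lit 0) (nat_lit 0) (nat_lit 0) (nat_lit 0x7d93758b14) (nat_lit 1189822608),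
  Rx.mk (nat_lit 82) (nat_lit 2) (nat_lit 2) (nat_lit 1) (nat_lit 7) (nat_lit 264) (nat_lit 67) r0_264 r8_67 (nat_lit 0) (nat_lit 0) (nat_lit 0) (nat_lit 0x7ddc6c3b60) (nat_lit 1049922432)]
noncomputable def e10_16 : List Rx := [
  Rx.mk (nat_lit 192) (nat_lit 0) (nat_lit 0) (nat_lit 3) (nat_lit 4) (nat_lit 52) (nat_lit 8) r0_52 r4_8 (nat_lit 0) (nat_lit 0) (nat_lit 0) (nat_lit 0x5b6197cb24) (nat_lit 17974451664),
  Rx.mk (nat_lit 194) (nat_lit 2) (nat_lit 0) (nat_lit 3) (nat_lit 5) (nat_lit 53) (nat_lit 9) r0_53 r4_9 (nat_lit 0) (nat_lit 0) (nat_lit 0) (nat_lit 0x6d58b6a73e) (nat_lit 9156115800),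
  Rx.mk (nat_lit 210) (nat_lit 2) (nat_lit 2) (nat_lit 3) (nat_lit 7) (nat_lit 54) (nat_lit 12) r0_54 r4_12 (nat_lit 0) (nat_lit 0) (nat_lit 0) (nat_lit 0x75a4e5dbfe) (nat_lit 5083212888),
  Rx.mk (nat_lit 216) (nat_lit 0) (nat_lit 3) (nat_lit 3) (nat_lit 6) (nat_lit 55) (nat_lit 10) r0_55 r4_10 (nat_lit 0) (nat_lit 0) (nat_lit 0) (nat_lit 0x76957cf19c) (nat_lit 4621906224),
  Rx.mk (nat_lit 218) (nat_lit 2) (nat_lit 3) (nat_lit 3) (nat_lit 7) (nat_lit 56) (nat_lit 11) r0_56 r4_11 (nat_lit 0) (nat_lit 0) (nat_lit 0) (nat_lit 0x7dea5bdc58) (nat_lit 1023201504),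
  Rx.mk (nat_lit 315) (nat_lit 3) (nat_lit 7) (nat_lit 4) (nat_lit 3) (nat_lit 57) (nat_lit 1) r0_57 r4_1 (nat_lit 0) (nat_lit 0) (nat_lit 0) (nat_lit 0x79050af64c) (nat_lit 3426304752),
  Rx.mk (nat_lit 319) (nat_lit 7) (nat_lit 7) (nat_lit 4) (nat_lit 3) (nat_lit 58) (nat_lit 0) r0_58 r4_0 (nat_lit 0) (nat_lit 0) (nat_lit 0) (nat_lit 0x6075ec00cc) (nat_lit 15481206000),
  Rx.mk (nat_lit 423) (nat_lit 7) (nat_lit 4) (nat_lit 6) (nat_lit 5) (nat_lit 59) (nat_lit 5) r0_59 r4_5 (nat_lit 0) (nat_lit 0) (nat_lit 0) (nat_lit 0x73827b04ce) (nat_lit 6130911384),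
  Rx.mk (nat_lit 439) (nat_lit 7) (nat_lit 6) (nat_lit 6) (nat_lit 7) (nat_lit 60) (nat_lit 7) r0_60 r4_7 (nat_lit 0) (nat_lit 0) (nat_lit 0) (nat_lit 0x7dd9546ce0) (nat_lit 1055852928),
  Rx.mk (nat_lit 447) (nat_lit 7) (nat_lit 7) (nat_lit 6) (nat_lit 7) (nat_lit 61) (nat_lit 6) r0_61 r4_6 (nat_lit 0) (nat_lit 0) (nat_lit 0) (nat_lit 0x769aeeda78) (nat_lit 4611466080),
  Rx.mk (nat_lit 472) (nat_lit 0) (nat_lit 3) (nat_lit 7) (nat_lit 6) (nat_lit 62) (nat_lit 3) r0_62 r4_3 (nat_lit 0) (nat_lit 0) (nat_lit 0) (nat_lit 0x71ae0a8daa) (nat_lit 7029095112),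
  Rx.mk (nat_lit 475) (nat_lit 3) (nat_lit 3) (nat_lit 7) (nat_lit 7) (nat_lit 63) (nat_lit 4) r0_63 r4_4 (nat_lit 0) (nat_lit 0) (nat_lit 0) (nat_lit 0x7dd8cbf568) (nat_lit 1056875040),
  Rx.mk (nat_lit 507) (nat_lit 3) (nat_lit 7) (nat_lit 7) (nat_lit 7) (nat_lit 64) (nat_lit 2) r0_64 r4_2 (nat_lit 0) (nat_lit 0) (nat_lit 0) (nat_lit 0x7d87d5e51a) (nat_lit 1212109704)]
noncomputable def e10_17 : List Rx := [
  Rx.mk (nat_lit 192) (nat_lit 0) (nat_lit 0) (nat_lit 3) (nat_lit 4) (nat_lit 147) (nat_lit 77) r0_147 r9_77 (nat_lit 0) (nat_lit 0) (nat_lit 0) (nat_lit 0x6b26bfc8de) (nat_lit 10233624024),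
  Rx.mk (nat_lit 194) (nat_lit 2) (nat_lit 0) (nat_lit 3) (nat_lit 5) (nat_lit 148) (nat_lit 79) r0_148 r9_79 (nat_lit 0) (nat_lit 0) (nat_lit 0) (nat_lit 0x776bc40c54) (nat_lit 4211050896),
  Rx.mk (nat_lit 210) (nat_lit 2) (nat_lit 2) (nat_lit 3) (nat_lit 7) (nat_lit 149) (nat_lit 81) r0_149 r9_81 (nat_lit 0) (nat_lit 0) (nat_lit 0) (nat_lit 0x7de318b092) (nat_lit 1037126376),
  Rx.mk (nat_lit 216) (nat_lit 0) (nat_lit 3) (nat_lit 3) (nat_lit 6) (nat_lit 150) (nat_lit 78) r0_150 r9_78 (nat_lit 0) (nat_lit 0) (nat_lit 0) (nat_lit 0x78a7e5a8fe) (nat_lit 3604901976),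
  Rx.mk (nat_lit 218) (nat_lit 2) (nat_lit 3) (nat_lit 3) (nat_lit 7) (nat_lit 151) (nat_lit 80) r0_151 r9_80 (nat_lit 0) (nat_lit 0) (nat_lit 0) (nat_lit 0x7de51cf04c) (nat_lit 1033259760)]
noncomputable def e10_18 : List Rx := [
  Rx.mk (nat_lit 192) (nat_lit 0) (nat_lit 0) (nat_lit 3) (nat_lit 4) (nat_lit 212) (nat_lit 91) r0_212 r10_91 (nat_lit 0) (nat_lit 0) (nat_lit 0) (nat_lit 0x41b494b504) (nat_lit 30577519440),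
  Rx.mk (nat_lit 194) (nat_lit 2) (nat_lit 0) (nat_lit 3) (nat_lit 5) (nat_lit 213) (nat_lit 97) r0_213 r10_97 (nat_lit 0) (nat_lit 0) (nat_lit 0) (nat_lit 0x78034c9334) (nat_lit 3920501520),
  Rx.mk (nat_lit 210) (nat_lit 2) (nat_lit 2) (nat_lit 3) (nat_lit 7) (nat_lit 214) (nat_lit 98) r0_214 r10_98 (nat_lit 0) (nat_lit 0) (nat_lit 0) (nat_lit 0x7e314d2cfc) (nat_lit 887176368),
  Rx.mk (nat_lit 283) (nat_lit 3) (nat_lit 3) (nat_lit 4) (nat_lit 3) (nat_lit 215) (nat_lit 94) r0_215 r10_94 (nat_lit 0) (nat_lit 0) (nat_lit 0) (nat_lit 0x7d78b51736) (nat_lit 1241116344),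
  Rx.mk (nat_lit 315) (nat_lit 3) (nat_lit 7) (nat_lit 4) (nat_lit 3) (nat_lit 216) (nat_lit 96) r0_216 r10_96 (nat_lit 0) (nat_lit 0) (nat_lit 0) (nat_lit 0x7de857fc98) (nat_lit 1027065312),
  Rx.mk (nat_lit 319) (nat_lit 7) (nat_lit 7) (nat_lit 4) (nat_lit 3) (nat_lit 217) (nat_lit 99) r0_217 r10_99 (nat_lit 0) (nat_lit 0) (nat_lit 0) (nat_lit 0x7c2f7ecbe4) (nat_lit 1872346320),
  Rx.mk (nat_lit 447) (nat_lit 7) (nat_lit 7) (nat_lit 6) (nat_lit 7) (nat_lit 218) (nat_lit 100) r0_218 r10_100 (nat_lit 0) (nat_lit 0) (nat_lit 0) (nat_lit 0x7e0bdd0424) (nat_lit 958960080),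
  Rx.mk (nat_lit 448) (nat_lit 0) (nat_lit 0) (nat_lit 7) (nat_lit 4) (nat_lit 219) (nat_lit 92) r0_219 r10_92 (nat_lit 0) (nat_lit 0) (nat_lit 0) (nat_lit 0x4965c57a46) (nat_lit 26801801208),
  Rx.mk (nat_lit 472) (nat_lit 0) (nat_lit 3) (nat_lit 7) (nat_lit 6) (nat_lit 220) (nat_lit 93) r0_220 r10_93 (nat_lit 0) (nat_lit 0) (nat_lit 0) (nat_lit 0x7d5dec63dc) (nat_lit 1292471856),
  Rx.mk (nat_lit 475) (nat_lit 3) (nat_lit 3) (nat_lit 7) (nat_lit 7) (nat_lit 221) (nat_lit 95) r0_221 r10_95 (nat_lit 0) (nat_lit 0) (nat_lit 0) (nat_lit 0x7e428d38ea) (nat_lit 854100936)]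
noncomputable def e10_19 : List Rx := [
  Rx.mk (nat_lit 64) (nat_lit 0) (nat_lit 0) (nat_lit 1) (nat_lit 4) (nat_lit 257) (nat_lit 155) r0_257 r8_155 (nat_lit 0) (nat_lit 0) (nat_lit 0) (nat_lit 0x5d0382aad4) (nat_lit 17173138320),
  Rx.mk (nat_lit 66) (nat_lit 2) (nat_lit 0) (nat_lit 1) (nat_lit 5) (nat_lit 258) (nat_lit 156) r0_258 r8_156 (nat_lit 0) (nat_lit 0) (nat_lit 0) (nat_lit 0x7d665dbcbe) (nat_lit 1276283736),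
  Rx.mk (nat_lit 72) (nat_lit 0) (nat_lit 1) (nat_lit 1) (nat_lit 6) (nat_lit 259) (nat_lit 157) r0_259 r8_157 (nat_lit 0) (nat_lit 0) (nat_lit 0) (nat_lit 0x7c68fe73b0) (nat_lit 1762098624),
  Rx.mk (nat_lit 74) (nat_lit 2) (nat_lit 1) (nat_lit 1) (nat_lit 7) (nat_lit 260) (nat_lit 158) r0_260 r8_158 (nat_lit 0) (nat_lit 0) (nat_lit 0) (nat_lit 0x7de755acbe) (nat_lit 1029000024),
  Rx.mk (nat_lit 82) (nat_lit 2) (nat_lit 2) (nat_lit 1) (nat_lit 7) (nat_lit 261) (nat_lit 159) r0_261 r8_159 (nat_lit 0) (nat_lit 0) (nat_lit 0) (nat_lit 0x7df3be4628) (nat_lit 1005207840)]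
noncomputable def e10_20 : List Rx := [
  Rx.mk (nat_lit 265) (nat_lit 1) (nat_lit 1) (nat_lit 4) (nat_lit 3) (nat_lit 243) (nat_lit 243) r0_243 r0_243 (nat_lit 0) (nat_lit 0) (nat_lit 0) (nat_lit 0x7feec413d0) (nat_lit 33044544),
  Rx.mk (nat_lit 320) (nat_lit 0) (nat_lit 0) (nat_lit 5) (nat_lit 4) (nat_lit 244) (nat_lit 244) r0_244 r0_244 (nat_lit 0) (nat_lit 0) (nat_lit 0) (nat_lit 0x563db2ae9a) (nat_lit 20497543560),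
  Rx.mk (nat_lit 321) (nat_lit 1) (nat_lit 0) (nat_lit 5) (nat_lit 5) (nat_lit 245) (nat_lit 246) r0_245 r0_246 (nat_lit 0) (nat_lit 0) (nat_lit 0) (nat_lit 0x72ec042cd2) (nat_lit 6419410920),
  Rx.mk (nat_lit 328) (nat_lit 0) (nat_lit 1) (nat_lit 5) (nat_lit 6) (nat_lit 246) (nat_lit 245) r0_246 r0_245 (nat_lit 0) (nat_lit 0) (nat_lit 0) (nat_lit 0x72ec042cd2) (nat_lit 6419410920),
  Rx.mk (nat_lit 329) (nat_lit 1) (nat_lit 1) (nat_lit 5) (nat_lit 7) (nat_lit 247) (nat_lit 247) r0_247 r0_247 (nat_lit 0) (nat_lit 0) (nat_lit 0) (nat_lit 0x7d475fecba) (nat_lit 1335706632)]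
noncomputable def e10_21 : List Rx := [
  Rx.mk (nat_lit 265) (nat_lit 1) (nat_lit 1) (nat_lit 4) (nat_lit 3) (nat_lit 282) (nat_lit 252) r0_282 r1_252 (nat_lit 0) (nat_lit 0) (nat_lit 0) (nat_lit 0x7ff9bf840e) (nat_lit 11987352),
  Rx.mk (nat_lit 328) (nat_lit 0) (nat_lit 1) (nat_lit 5) (nat_lit 6) (nat_lit 283) (nat_lit 253) r0_283 r1_253 (nat_lit 0) (nat_lit 0) (nat_lit 0) (nat_lit 0x7925b2abb0) (nat_lit 3363691968),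
  Rx.mk (nat_lit 329) (nat_lit 1) (nat_lit 1) (nat_lit 5) (nat_lit 7) (nat_lit 284) (nat_lit 254) r0_284 r1_254 (nat_lit 0) (nat_lit 0) (nat_lit 0) (nat_lit 0x7bdf3f502c) (nat_lit 2026213488)]
noncomputable def e10_22 : List Rx := [
  Rx.mk (nat_lit 257) (nat_lit 1) (nat_lit 0) (nat_lit 4) (nat_lit 1) (nat_lit 305) (nat_lit 253) r0_305 r4_253 (nat_lit 0) (nat_lit 0) (nat_lit 0) (nat_lit 0x72ea26eaa8) (nat_lit 6422985504),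
  Rx.mk (nat_lit 265) (nat_lit 1) (nat_lit 1) (nat_lit 4) (nat_lit 3) (nat_lit 306) (nat_lit 254) r0_306 r4_254 (nat_lit 0) (nat_lit 0) (nat_lit 0) (nat_lit 0x765dc16d8c) (nat_lit 4728767472),
  Rx.mk (nat_lit 281) (nat_lit 1) (nat_lit 3) (nat_lit 4) (nat_lit 3) (nat_lit 307) (nat_lit 255) r0_307 r4_255 (nat_lit 0) (nat_lit 0) (nat_lit 0) (nat_lit 0x7e1c8ad936) (nat_lit 926979768),
  Rx.mk (nat_lit 320) (nat_lit 0) (nat_lit 0) (nat_lit 5) (nat_lit 4) (nat_lit 308) (nat_lit 256) r0_308 r4_256 (nat_lit 0) (nat_lit 0) (nat_lit 0) (nat_lit 0x6d9ecf456e) (nat_lit 9021713688),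
  Rx.mk (nat_lit 321) (nat_lit 1) (nat_lit 0) (nat_lit 5) (nat_lit 5) (nat_lit 309) (nat_lit 259) r0_309 r4_259 (nat_lit 0) (nat_lit 0) (nat_lit 0) (nat_lit 0x7d715ecca2) (nat_lit 1255184424),
  Rx.mk (nat_lit 328) (nat_lit 0) (nat_lit 1) (nat_lit 5) (nat_lit 6) (nat_lit 310) (nat_lit 257) r0_310 r4_257 (nat_lit 0) (nat_lit 0) (nat_lit 0) (nat_lit 0x7da9e10446) (nat_lit 1146834936),
  Rx.mk (nat_lit 329) (nat_lit 1) (nat_lit 1) (nat_lit 5) (nat_lit 7) (nat_lit 311) (nat_lit 260) r0_311 r4_260 (nat_lit 0) (nat_lit 0) (nat_lit 0) (nat_lit 0x7e65ac46d6) (nat_lit 786759480),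
  Rx.mk (nat_lit 344) (nat_lit 0) (nat_lit 3) (nat_lit 5) (nat_lit 6) (nat_lit 312) (nat_lit 258) r0_312 r4_258 (nat_lit 0) (nat_lit 0) (nat_lit 0) (nat_lit 0x76d4fe194a) (nat_lit 4500142920),
  Rx.mk (nat_lit 345) (nat_lit 1) (nat_lit 3) (nat_lit 5) (nat_lit 7) (nat_lit 313) (nat_lit 261) r0_313 r4_261 (nat_lit 0) (nat_lit 0) (nat_lit 0) (nat_lit 0x7e5d9fc7a6) (nat_lit 802192248)]
noncomputable def e10_23 : List Rx := [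
  Rx.mk (nat_lit 320) (nat_lit 0) (nat_lit 0) (nat_lit 5) (nat_lit 4) (nat_lit 250) (nat_lit 217) r0_250 r6_217 (nat_lit 0) (nat_lit 0) (nat_lit 0) (nat_lit 0x69df6adf74) (nat_lit 10861248528),
  Rx.mk (nat_lit 321) (nat_lit 1) (nat_lit 0) (nat_lit 5) (nat_lit 5) (nat_lit 251) (nat_lit 218) r0_251 r6_218 (nat_lit 0) (nat_lit 0) (nat_lit 0) (nat_lit 0x7da3d1a542) (nat_lit 1158454440),
  Rx.mk (nat_lit 328) (nat_lit 0) (nat_lit 1) (nat_lit 5) (nat_lit 6) (nat_lit 252) (nat_lit 219) r0_252 r6_219 (nat_lit 0) (nat_lit 0) (nat_lit 0) (nat_lit 0x7bc64bff7a) (nat_lit 2074053384),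
  Rx.mk (nat_lit 329) (nat_lit 1) (nat_lit 1) (nat_lit 5) (nat_lit 7) (nat_lit 253) (nat_lit 220) r0_253 r6_220 (nat_lit 0) (nat_lit 0) (nat_lit 0) (nat_lit 0x7e1cb5968a) (nat_lit 926659656)]
noncomputable def e10_24 : List Rx := [
  Rx.mk (nat_lit 328) (nat_lit 0) (nat_lit 1) (nat_lit 5) (nat_lit 6) (nat_lit 289) (nat_lit 178) r0_289 r7_178 (nat_lit 0) (nat_lit 0) (nat_lit 0) (nat_lit 0x7b30873c5c) (nat_lit 2361219120),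
  Rx.mk (nat_lit 329) (nat_lit 1) (nat_lit 1) (nat_lit 5) (nat_lit 7) (nat_lit 290) (nat_lit 179) r0_290 r7_179 (nat_lit 0) (nat_lit 0) (nat_lit 0) (nat_lit 0x7df79428c6) (nat_lit 997853688)]
noncomputable def e10_25 : List Rx := [
  Rx.mk (nat_lit 64) (nat_lit 0) (nat_lit 0) (nat_lit 1) (nat_lit 4) (nat_lit 271) (nat_lit 230) r0_271 r7_230 (nat_lit 0) (nat_lit 0) (nat_lit 0) (nat_lit 0x52675b77e4) (nat_lit 22381079760),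
  Rx.mk (nat_lit 65) (nat_lit 1) (nat_lit 0) (nat_lit 1) (nat_lit 5) (nat_lit 272) (nat_lit 232) r0_272 r7_232 (nat_lit 0) (nat_lit 0) (nat_lit 0) (nat_lit 0x77e11e9636) (nat_lit 3986037432),
  Rx.mk (nat_lit 66) (nat_lit 2) (nat_lit 0) (nat_lit 1) (nat_lit 5) (nat_lit 273) (nat_lit 234) r0_273 r7_234 (nat_lit 0) (nat_lit 0) (nat_lit 0) (nat_lit 0x7d448d19ea) (nat_lit 1341120456),
  Rx.mk (nat_lit 72) (nat_lit 0) (nat_lit 1) (nat_lit 1) (nat_lit 6) (nat_lit 274) (nat_lit 231) r0_274 r7_231 (nat_lit 0) (nat_lit 0) (nat_lit 0) (nat_lit 0x7a2fb2caa4) (nat_lit 2853663696),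
  Rx.mk (nat_lit 73) (nat_lit 1) (nat_lit 1) (nat_lit 1) (nat_lit 7) (nat_lit 275) (nat_lit 233) r0_275 r7_233 (nat_lit 0) (nat_lit 0) (nat_lit 0) (nat_lit 0x7d51c5c652) (nat_lit 1315769832),
  Rx.mk (nat_lit 74) (nat_lit 2) (nat_lit 1) (nat_lit 1) (nat_lit 7) (nat_lit 276) (nat_lit 235) r0_276 r7_235 (nat_lit 0) (nat_lit 0) (nat_lit 0) (nat_lit 0x7df2301f0c) (nat_lit 1008189936),
  Rx.mk (nat_lit 82) (nat_lit 2) (nat_lit 2) (nat_lit 1) (nat_lit 7) (nat_lit 277) (nat_lit 236) r0_277 r7_236 (nat_lit 0) (nat_lit 0) (nat_lit 0) (nat_lit 0x7df55c2c48) (nat_lit 1002107808),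
  Rx.mk (nat_lit 320) (nat_lit 0) (nat_lit 0) (nat_lit 5) (nat_lit 4) (nat_lit 278) (nat_lit 237) r0_278 r7_237 (nat_lit 0) (nat_lit 0) (nat_lit 0) (nat_lit 0x5c996eec7a) (nat_lit 17376530184),
  Rx.mk (nat_lit 321) (nat_lit 1) (nat_lit 0) (nat_lit 5) (nat_lit 5) (nat_lit 279) (nat_lit 239) r0_279 r7_239 (nat_lit 0) (nat_lit 0) (nat_lit 0) (nat_lit 0x7c51f5245c) (nat_lit 1806268464),
  Rx.mk (nat_lit 328) (nat_lit 0) (nat_lit 1) (nat_lit 5) (nat_lit 6) (nat_lit 280) (nat_lit 238) r0_280 r7_238 (nat_lit 0) (nat_lit 0) (nat_lit 0) (nat_lit 0x7d503ebec4) (nat_lit 1318698576),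
  Rx.mk (nat_lit 329) (nat_lit 1) (nat_lit 1) (nat_lit 5) (nat_lit 7) (nat_lit 281) (nat_lit 240) r0_281 r7_240 (nat_lit 0) (nat_lit 0) (nat_lit 0) (nat_lit 0x7df400a202) (nat_lit 1004710824)]
noncomputable def e10_26 : List Rx := [
  Rx.mk (nat_lit 320) (nat_lit 0) (nat_lit 0) (nat_lit 5) (nat_lit 4) (nat_lit 321) (nat_lit 166) r0_321 r9_166 (nat_lit 0) (nat_lit 0) (nat_lit 0) (nat_lit 0x6fbd3d3c70) (nat_lit 7981661376),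
  Rx.mk (nat_lit 321) (nat_lit 1) (nat_lit 0) (nat_lit 5) (nat_lit 5) (nat_lit 322) (nat_lit 167) r0_322 r9_167 (nat_lit 0) (nat_lit 0) (nat_lit 0) (nat_lit 0x7d8ed7d4f4) (nat_lit 1198673424),
  Rx.mk (nat_lit 328) (nat_lit 0) (nat_lit 1) (nat_lit 5) (nat_lit 6) (nat_lit 323) (nat_lit 168) r0_323 r9_168 (nat_lit 0) (nat_lit 0) (nat_lit 0) (nat_lit 0x7d7df942ee) (nat_lit 1231018776),
  Rx.mk (nat_lit 329) (nat_lit 1) (nat_lit 1) (nat_lit 5) (nat_lit 7) (nat_lit 324) (nat_lit 169) r0_324 r9_169 (nat_lit 0) (nat_lit 0) (nat_lit 0) (nat_lit 0x7e0faa474c) (nat_lit 951670512),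
  Rx.mk (nat_lit 344) (nat_lit 0) (nat_lit 3) (nat_lit 5) (nat_lit 6) (nat_lit 325) (nat_lit 170) r0_325 r9_170 (nat_lit 0) (nat_lit 0) (nat_lit 0) (nat_lit 0x7a4fc4e962) (nat_lit 2792171304),
  Rx.mk (nat_lit 345) (nat_lit 1) (nat_lit 3) (nat_lit 5) (nat_lit 7) (nat_lit 326) (nat_lit 171) r0_326 r9_171 (nat_lit 0) (nat_lit 0) (nat_lit 0) (nat_lit 0x7e1ddac436) (nat_lit 924463800)]
noncomputable def e10_27 : List Rx := [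
  Rx.mk (nat_lit 256) (nat_lit 0) (nat_lit 0) (nat_lit 4) (nat_lit 0) (nat_lit 341) (nat_lit 165) r0_341 r10_165 (nat_lit 0) (nat_lit 0) (nat_lit 0) (nat_lit 0x2d7a01d26e) (nat_lit 40506896664),
  Rx.mk (nat_lit 257) (nat_lit 1) (nat_lit 0) (nat_lit 4) (nat_lit 1) (nat_lit 342) (nat_lit 168) r0_342 r10_168 (nat_lit 0) (nat_lit 0) (nat_lit 0) (nat_lit 0x7aa5ac4a96) (nat_lit 2627459640),
  Rx.mk (nat_lit 264) (nat_lit 0) (nat_lit 1) (nat_lit 4) (nat_lit 2) (nat_lit 343) (nat_lit 171) r0_343 r10_171 (nat_lit 0) (nat_lit 0) (nat_lit 0) (nat_lit 0x79a5a2ac30) (nat_lit 3118385088),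
  Rx.mk (nat_lit 265) (nat_lit 1) (nat_lit 1) (nat_lit 4) (nat_lit 3) (nat_lit 344) (nat_lit 174) r0_344 r10_174 (nat_lit 0) (nat_lit 0) (nat_lit 0) (nat_lit 0x7df905d1aa) (nat_lit 995085000),
  Rx.mk (nat_lit 280) (nat_lit 0) (nat_lit 3) (nat_lit 4) (nat_lit 2) (nat_lit 345) (nat_lit 177) r0_345 r10_177 (nat_lit 0) (nat_lit 0) (nat_lit 0) (nat_lit 0x7b95ea25c8) (nat_lit 2166821280),
  Rx.mk (nat_lit 281) (nat_lit 1) (nat_lit 3) (nat_lit 4) (nat_lit 3) (nat_lit 346) (nat_lit 179) r0_346 r10_179 (nat_lit 0) (nat_lit 0) (nat_lit 0) (nat_lit 0x7deff222ee) (nat_lit 1012488984),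
  Rx.mk (nat_lit 283) (nat_lit 3) (nat_lit 3) (nat_lit 4) (nat_lit 3) (nat_lit 347) (nat_lit 181) r0_347 r10_181 (nat_lit 0) (nat_lit 0) (nat_lit 0) (nat_lit 0x7dc039bea4) (nat_lit 1103987664),
  Rx.mk (nat_lit 320) (nat_lit 0) (nat_lit 0) (nat_lit 5) (nat_lit 4) (nat_lit 348) (nat_lit 166) r0_348 r10_166 (nat_lit 0) (nat_lit 0) (nat_lit 0) (nat_lit 0x7a5f28731a) (nat_lit 2762664840),
  Rx.mk (nat_lit 321) (nat_lit 1) (nat_lit 0) (nat_lit 5) (nat_lit 5) (nat_lit 349) (nat_lit 169) r0_349 r10_169 (nat_lit 0) (nat_lit 0) (nat_lit 0) (nat_lit 0x7dda7f3a32) (nat_lit 1053614952),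
  Rx.mk (nat_lit 328) (nat_lit 0) (nat_lit 1) (nat_lit 5) (nat_lit 6) (nat_lit 350) (nat_lit 172) r0_350 r10_172 (nat_lit 0) (nat_lit 0) (nat_lit 0) (nat_lit 0x7dd895f8c8) (nat_lit 1057279392),
  Rx.mk (nat_lit 329) (nat_lit 1) (nat_lit 1) (nat_lit 5) (nat_lit 7) (nat_lit 351) (nat_lit 175) r0_351 r10_175 (nat_lit 0) (nat_lit 0) (nat_lit 0) (nat_lit 0x7df9cda52c) (nat_lit 993588336),
  Rx.mk (nat_lit 344) (nat_lit 0) (nat_lit 3) (nat_lit 5) (nat_lit 6) (nat_lit 352) (nat_lit 178) r0_352 r10_178 (nat_lit 0) (nat_lit 0) (nat_lit 0) (nat_lit 0x7df5b266e4) (nat_lit 1001461968),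
  Rx.mk (nat_lit 345) (nat_lit 1) (nat_lit 3) (nat_lit 5) (nat_lit 7) (nat_lit 353) (nat_lit 180) r0_353 r10_180 (nat_lit 0) (nat_lit 0) (nat_lit 0) (nat_lit 0x7dee0dc136) (nat_lit 1016116920),
  Rx.mk (nat_lit 347) (nat_lit 3) (nat_lit 3) (nat_lit 5) (nat_lit 7) (nat_lit 354) (nat_lit 182) r0_354 r10_182 (nat_lit 0) (nat_lit 0) (nat_lit 0) (nat_lit 0x7df41fc010) (nat_lit 1004477760),
  Rx.mk (nat_lit 448) (nat_lit 0) (nat_lit 0) (nat_lit 7) (nat_lit 4) (nat_lit 355) (nat_lit 167) r0_355 r10_167 (nat_lit 0) (nat_lit 0) (nat_lit 0) (nat_lit 0x7cc600e32c) (nat_lit 1583762544),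
  Rx.mk (nat_lit 449) (nat_lit 1) (nat_lit 0) (nat_lit 7) (nat_lit 5) (nat_lit 356) (nat_lit 170) r0_356 r10_170 (nat_lit 0) (nat_lit 0) (nat_lit 0) (nat_lit 0x7df00ea126) (nat_lit 1012275576),
  Rx.mk (nat_lit 456) (nat_lit 0) (nat_lit 1) (nat_lit 7) (nat_lit 6) (nat_lit 357) (nat_lit 173) r0_357 r10_173 (nat_lit 0) (nat_lit 0) (nat_lit 0) (nat_lit 0x7e5a0a0106) (nat_lit 809066232),
  Rx.mk (nat_lit 457) (nat_lit 1) (nat_lit 1) (nat_lit 7) (nat_lit 7) (nat_lit 358) (nat_lit 176) r0_358 r10_176 (nat_lit 0) (nat_lit 0) (nat_lit 0) (nat_lit 0x7ea0391dce) (nat_lit 674495640)]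
noncomputable def e10_28 : List Rx := [
  Rx.mk (nat_lit 216) (nat_lit 0) (nat_lit 3) (nat_lit 3) (nat_lit 6) (nat_lit 152) (nat_lit 0) r0_152 r10_0 (nat_lit 0) (nat_lit 0) (nat_lit 0) (nat_lit 0x7e1794a89e) (nat_lit 936493272),
  Rx.mk (nat_lit 218) (nat_lit 2) (nat_lit 3) (nat_lit 3) (nat_lit 7) (nat_lit 153) (nat_lit 1) r0_153 r10_1 (nat_lit 0) (nat_lit 0) (nat_lit 0) (nat_lit 0x7df4465da6) (nat_lit 1004188536)]
noncomputable def e10_29 : List Rx := [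
  Rx.mk (nat_lit 281) (nat_lit 1) (nat_lit 3) (nat_lit 4) (nat_lit 3) (nat_lit 222) (nat_lit 279) r0_222 r5_279 (nat_lit 0) (nat_lit 0) (nat_lit 0) (nat_lit 0x7ff5e6a1a0) (nat_lit 19363968),
  Rx.mk (nat_lit 313) (nat_lit 1) (nat_lit 7) (nat_lit 4) (nat_lit 3) (nat_lit 223) (nat_lit 278) r0_223 r5_278 (nat_lit 0) (nat_lit 0) (nat_lit 0) (nat_lit 0x7c3f149278) (nat_lit 1842463584)]
noncomputable def e10_30 : List Rx := [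
  Rx.mk (nat_lit 344) (nat_lit 0) (nat_lit 3) (nat_lit 5) (nat_lit 6) (nat_lit 327) (nat_lit 298) r0_327 r10_298 (nat_lit 0) (nat_lit 0) (nat_lit 0) (nat_lit 0x7e2b75aa7a) (nat_lit 898377480),
  Rx.mk (nat_lit 345) (nat_lit 1) (nat_lit 3) (nat_lit 5) (nat_lit 7) (nat_lit 328) (nat_lit 299) r0_328 r10_299 (nat_lit 0) (nat_lit 0) (nat_lit 0) (nat_lit 0x7df79428c6) (nat_lit 997853688)]
noncomputable def e10_31 : List Rx := [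
  Rx.mk (nat_lit 312) (nat_lit 0) (nat_lit 7) (nat_lit 4) (nat_lit 2) (nat_lit 82) (nat_lit 51) r0_82 r5_51 (nat_lit 0) (nat_lit 0) (nat_lit 0) (nat_lit 0x618a963514) (nat_lit 14950729872),
  Rx.mk (nat_lit 313) (nat_lit 1) (nat_lit 7) (nat_lit 4) (nat_lit 3) (nat_lit 83) (nat_lit 52) r0_83 r5_52 (nat_lit 0) (nat_lit 0) (nat_lit 0) (nat_lit 0x7c10d4f6a0) (nat_lit 1931140224),
  Rx.mk (nat_lit 315) (nat_lit 3) (nat_lit 7) (nat_lit 4) (nat_lit 3) (nat_lit 84) (nat_lit 53) r0_84 r5_53 (nat_lit 0) (nat_lit 0) (nat_lit 0) (nat_lit 0x7ba7d706e8) (nat_lit 2132451360),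
  Rx.mk (nat_lit 472) (nat_lit 0) (nat_lit 3) (nat_lit 7) (nat_lit 6) (nat_lit 85) (nat_lit 49) r0_85 r5_49 (nat_lit 0) (nat_lit 0) (nat_lit 0) (nat_lit 0x7e22c49594) (nat_lit 915042960),
  Rx.mk (nat_lit 473) (nat_lit 1) (nat_lit 3) (nat_lit 7) (nat_lit 7) (nat_lit 86) (nat_lit 50) r0_86 r5_50 (nat_lit 0) (nat_lit 0) (nat_lit 0) (nat_lit 0x7f7c66ba18) (nat_lit 252326880),
  Rx.mk (nat_lit 504) (nat_lit 0) (nat_lit 7) (nat_lit 7) (nat_lit 6) (nat_lit 87) (nat_lit 54) r0_87 r5_54 (nat_lit 0) (nat_lit 0) (nat_lit 0) (nat_lit 0x7a8f772dfe) (nat_lit 2670040152),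
  Rx.mk (nat_lit 505) (nat_lit 1) (nat_lit 7) (nat_lit 7) (nat_lit 7) (nat_lit 88) (nat_lit 55) r0_88 r5_55 (nat_lit 0) (nat_lit 0) (nat_lit 0) (nat_lit 0x7e4a371e44) (nat_lit 839406672)]
noncomputable def e10_32 : List Rx := [
  Rx.mk (nat_lit 280) (nat_lit 0) (nat_lit 3) (nat_lit 4) (nat_lit 2) (nat_lit 236) (nat_lit 90) r0_236 r11_90 (nat_lit 0) (nat_lit 0) (nat_lit 0) (nat_lit 0x7a6c44a14a) (nat_lit 2737527624),
  Rx.mk (nat_lit 281) (nat_lit 1) (nat_lit 3) (nat_lit 4) (nat_lit 3) (nat_lit 237) (nat_lit 93) r0_237 r11_93 (nat_lit 0) (nat_lit 0) (nat_lit 0) (nat_lit 0x7ff1a7c592) (nat_lit 27504360),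
  Rx.mk (nat_lit 312) (nat_lit 0) (nat_lit 7) (nat_lit 4) (nat_lit 2) (nat_lit 238) (nat_lit 92) r0_238 r11_92 (nat_lit 0) (nat_lit 0) (nat_lit 0) (nat_lit 0x604a433b84) (nat_lit 15564918096),
  Rx.mk (nat_lit 313) (nat_lit 1) (nat_lit 7) (nat_lit 4) (nat_lit 3) (nat_lit 239) (nat_lit 95) r0_239 r11_95 (nat_lit 0) (nat_lit 0) (nat_lit 0) (nat_lit 0x7a40d59866) (nat_lit 2820807288),
  Rx.mk (nat_lit 315) (nat_lit 3) (nat_lit 7) (nat_lit 4) (nat_lit 3) (nat_lit 240) (nat_lit 96) r0_240 r11_96 (nat_lit 0) (nat_lit 0) (nat_lit 0) (nat_lit 0x7407d02ef6) (nat_lit 5875259832),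
  Rx.mk (nat_lit 472) (nat_lit 0) (nat_lit 3) (nat_lit 7) (nat_lit 6) (nat_lit 241) (nat_lit 91) r0_241 r11_91 (nat_lit 0) (nat_lit 0) (nat_lit 0) (nat_lit 0x7e8bdea38a) (nat_lit 713521224),
  Rx.mk (nat_lit 473) (nat_lit 1) (nat_lit 3) (nat_lit 7) (nat_lit 7) (nat_lit 242) (nat_lit 94) r0_242 r11_94 (nat_lit 0) (nat_lit 0) (nat_lit 0) (nat_lit 0x7fcf076fba) (nat_lit 93896712)]
noncomputable def e10_33 : List Rx := [
  Rx.mk (nat_lit 289) (nat_lit 1) (nat_lit 4) (nat_lit 4) (nat_lit 1) (nat_lit 171) (nat_lit 248) r0_171 r0_248 (nat_lit 0) (nat_lit 0) (nat_lit 0) (nat_lit 0x7d82b5b722) (nat_lit 1221937704),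
  Rx.mk (nat_lit 297) (nat_lit 1) (nat_lit 5) (nat_lit 4) (nat_lit 3) (nat_lit 172) (nat_lit 249) r0_172 r0_249 (nat_lit 0) (nat_lit 0) (nat_lit 0) (nat_lit 0x79e90615b6) (nat_lit 2989174968)]
noncomputable def e10_34 : List Rx := [
  Rx.mk (nat_lit 317) (nat_lit 5) (nat_lit 7) (nat_lit 4) (nat_lit 3) (nat_lit 72) (nat_lit 73) r0_72 r0_73 (nat_lit 0) (nat_lit 0) (nat_lit 0) (nat_lit 0x75b2e4dc00) (nat_lit 5056376832),
  Rx.mk (nat_lit 421) (nat_lit 5) (nat_lit 4) (nat_lit 6) (nat_lit 5) (nat_lit 73) (nat_lit 72) r0_73 r0_72 (nat_lit 0) (nat_lit 0) (nat_lit 0) (nat_lit 0x75b2e4dc00) (nat_lit 5056376832),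
  Rx.mk (nat_lit 445) (nat_lit 5) (nat_lit 7) (nat_lit 6) (nat_lit 7) (nat_lit 74) (nat_lit 74) r0_74 r0_74 (nat_lit 0) (nat_lit 0) (nat_lit 0) (nat_lit 0x7dc68519e8) (nat_lit 1091918880)]
noncomputable def e10_35 : List Rx := [
  Rx.mk (nat_lit 289) (nat_lit 1) (nat_lit 4) (nat_lit 4) (nat_lit 1) (nat_lit 177) (nat_lit 325) r0_177 r6_325 (nat_lit 0) (nat_lit 0) (nat_lit 0) (nat_lit 0x6042df11ce) (nat_lit 15579090072),
  Rx.mk (nat_lit 293) (nat_lit 5) (nat_lit 4) (nat_lit 4) (nat_lit 1) (nat_lit 178) (nat_lit 319) r0_178 r6_319 (nat_lit 0) (nat_lit 0) (nat_lit 0) (nat_lit 0x6d7c714b70) (nat_lit 9087609024),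
  Rx.mk (nat_lit 297) (nat_lit 1) (nat_lit 5) (nat_lit 4) (nat_lit 3) (nat_lit 179) (nat_lit 326) r0_179 r6_326 (nat_lit 0) (nat_lit 0) (nat_lit 0) (nat_lit 0x7d961fe06c) (nat_lit 1184712048),
  Rx.mk (nat_lit 301) (nat_lit 5) (nat_lit 5) (nat_lit 4) (nat_lit 3) (nat_lit 180) (nat_lit 320) r0_180 r6_320 (nat_lit 0) (nat_lit 0) (nat_lit 0) (nat_lit 0x7d7f2b2fce) (nat_lit 1228727448),
  Rx.mk (nat_lit 317) (nat_lit 5) (nat_lit 7) (nat_lit 4) (nat_lit 3) (nat_lit 181) (nat_lit 321) r0_181 r6_321 (nat_lit 0) (nat_lit 0) (nat_lit 0) (nat_lit 0x7e643c7dd4) (nat_lit 789514128),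
  Rx.mk (nat_lit 421) (nat_lit 5) (nat_lit 4) (nat_lit 6) (nat_lit 5) (nat_lit 182) (nat_lit 322) r0_182 r6_322 (nat_lit 0) (nat_lit 0) (nat_lit 0) (nat_lit 0x7e87fa21d6) (nat_lit 720984888),
  Rx.mk (nat_lit 429) (nat_lit 5) (nat_lit 5) (nat_lit 6) (nat_lit 7) (nat_lit 183) (nat_lit 323) r0_183 r6_323 (nat_lit 0) (nat_lit 0) (nat_lit 0) (nat_lit 0x7e596ecaba) (nat_lit 810228744),
  Rx.mk (nat_lit 445) (nat_lit 5) (nat_lit 7) (nat_lit 6) (nat_lit 7) (nat_lit 184) (nat_lit 324) r0_184 r6_324 (nat_lit 0) (nat_lit 0) (nat_lit 0) (nat_lit 0x7e6c393e00) (nat_lit 774199296)]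
noncomputable def e10_36 : List Rx := [
  Rx.mk (nat_lit 182) (nat_lit 6) (nat_lit 6) (nat_lit 2) (nat_lit 7) (nat_lit 30) (nat_lit 71) r0_30 r2_71 (nat_lit 0) (nat_lit 0) (nat_lit 0) (nat_lit 0x7df6905904) (nat_lit 999799632),
  Rx.mk (nat_lit 316) (nat_lit 4) (nat_lit 7) (nat_lit 4) (nat_lit 2) (nat_lit 31) (nat_lit 64) r0_31 r2_64 (nat_lit 0) (nat_lit 0) (nat_lit 0) (nat_lit 0x6b355bdf0e) (nat_lit 10205611416),
  Rx.mk (nat_lit 317) (nat_lit 5) (nat_lit 7) (nat_lit 4) (nat_lit 3) (nat_lit 32) (nat_lit 65) r0_32 r2_65 (nat_lit 0) (nat_lit 0) (nat_lit 0) (nat_lit 0x7e4b276f3e) (nat_lit 837606744),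
  Rx.mk (nat_lit 319) (nat_lit 7) (nat_lit 7) (nat_lit 4) (nat_lit 3) (nat_lit 33) (nat_lit 66) r0_33 r2_66 (nat_lit 0) (nat_lit 0) (nat_lit 0) (nat_lit 0x7dc39c287a) (nat_lit 1097498376),
  Rx.mk (nat_lit 420) (nat_lit 4) (nat_lit 4) (nat_lit 6) (nat_lit 4) (nat_lit 34) (nat_lit 62) r0_34 r2_62 (nat_lit 0) (nat_lit 0) (nat_lit 0) (nat_lit 0x66c500a932) (nat_lit 12384456552),
  Rx.mk (nat_lit 421) (nat_lit 5) (nat_lit 4) (nat_lit 6) (nat_lit 5) (nat_lit 35) (nat_lit 63) r0_35 r2_63 (nat_lit 0) (nat_lit 0) (nat_lit 0) (nat_lit 0x7ddc9338f0) (nat_lit 1049630400),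
  Rx.mk (nat_lit 436) (nat_lit 4) (nat_lit 6) (nat_lit 6) (nat_lit 6) (nat_lit 36) (nat_lit 72) r0_36 r2_72 (nat_lit 0) (nat_lit 0) (nat_lit 0) (nat_lit 0x7dce709b28) (nat_lit 1076733216),
  Rx.mk (nat_lit 437) (nat_lit 5) (nat_lit 6) (nat_lit 6) (nat_lit 7) (nat_lit 37) (nat_lit 73) r0_37 r2_73 (nat_lit 0) (nat_lit 0) (nat_lit 0) (nat_lit 0x7df79428c6) (nat_lit 997853688),
  Rx.mk (nat_lit 438) (nat_lit 6) (nat_lit 6) (nat_lit 6) (nat_lit 7) (nat_lit 38) (nat_lit 74) r0_38 r2_74 (nat_lit 0) (nat_lit 0) (nat_lit 0) (nat_lit 0x7ded8609b2) (nat_lit 1017133416),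
  Rx.mk (nat_lit 444) (nat_lit 4) (nat_lit 7) (nat_lit 6) (nat_lit 6) (nat_lit 39) (nat_lit 68) r0_39 r2_68 (nat_lit 0) (nat_lit 0) (nat_lit 0) (nat_lit 0x7e5ff6223e) (nat_lit 797710680),
  Rx.mk (nat_lit 445) (nat_lit 5) (nat_lit 7) (nat_lit 6) (nat_lit 7) (nat_lit 40) (nat_lit 69) r0_40 r2_69 (nat_lit 0) (nat_lit 0) (nat_lit 0) (nat_lit 0x7e8b2b6ebe) (nat_lit 714863448),
  Rx.mk (nat_lit 447) (nat_lit 7) (nat_lit 7) (nat_lit 6) (nat_lit 7) (nat_lit 41) (nat_lit 70) r0_41 r2_70 (nat_lit 0) (nat_lit 0) (nat_lit 0) (nat_lit 0x7e6254bc52) (nat_lit 793167336),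
  Rx.mk (nat_lit 511) (nat_lit 7) (nat_lit 7) (nat_lit 7) (nat_lit 7) (nat_lit 42) (nat_lit 67) r0_42 r2_67 (nat_lit 0) (nat_lit 0) (nat_lit 0) (nat_lit 0x7ddddb446e) (nat_lit 1047173400)]
noncomputable def e10_37 : List Rx := [
  Rx.mk (nat_lit 182) (nat_lit 6) (nat_lit 6) (nat_lit 2) (nat_lit 7) (nat_lit 154) (nat_lit 36) r0_154 r8_36 (nat_lit 0) (nat_lit 0) (nat_lit 0) (nat_lit 0x7df79428c6) (nat_lit 997853688),
  Rx.mk (nat_lit 292) (nat_lit 4) (nat_lit 4) (nat_lit 4) (nat_lit 0) (nat_lit 155) (nat_lit 23) r0_155 r8_23 (nat_lit 0) (nat_lit 0) (nat_lit 0) (nat_lit 0x2380ce4fa0) (nat_lit 45402394752),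
  Rx.mk (nat_lit 293) (nat_lit 5) (nat_lit 4) (nat_lit 4) (nat_lit 1) (nat_lit 156) (nat_lit 24) r0_156 r8_24 (nat_lit 0) (nat_lit 0) (nat_lit 0) (nat_lit 0x68034003fe) (nat_lit 11774250072),
  Rx.mk (nat_lit 301) (nat_lit 5) (nat_lit 5) (nat_lit 4) (nat_lit 3) (nat_lit 157) (nat_lit 27) r0_157 r8_27 (nat_lit 0) (nat_lit 0) (nat_lit 0) (nat_lit 0x7dafa1a836) (nat_lit 1135805112),
  Rx.mk (nat_lit 316) (nat_lit 4) (nat_lit 7) (nat_lit 4) (nat_lit 2) (nat_lit 158) (nat_lit 29) r0_158 r8_29 (nat_lit 0) (nat_lit 0) (nat_lit 0) (nat_lit 0x6bb29a6aa8) (nat_lit 9965468448),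
  Rx.mk (nat_lit 317) (nat_lit 5) (nat_lit 7) (nat_lit 4) (nat_lit 3) (nat_lit 159) (nat_lit 30) r0_159 r8_30 (nat_lit 0) (nat_lit 0) (nat_lit 0) (nat_lit 0x7dd4e773b4) (nat_lit 1064338704),
  Rx.mk (nat_lit 319) (nat_lit 7) (nat_lit 7) (nat_lit 4) (nat_lit 3) (nat_lit 160) (nat_lit 31) r0_160 r8_31 (nat_lit 0) (nat_lit 0) (nat_lit 0) (nat_lit 0x7d2f99a936) (nat_lit 1381291704),
  Rx.mk (nat_lit 420) (nat_lit 4) (nat_lit 4) (nat_lit 6) (nat_lit 4) (nat_lit 161) (nat_lit 25) r0_161 r8_25 (nat_lit 0) (nat_lit 0) (nat_lit 0) (nat_lit 0x6eebb9b57a) (nat_lit 8383382280),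
  Rx.mk (nat_lit 421) (nat_lit 5) (nat_lit 4) (nat_lit 6) (nat_lit 5) (nat_lit 162) (nat_lit 26) r0_162 r8_26 (nat_lit 0) (nat_lit 0) (nat_lit 0) (nat_lit 0x7dd9e10416) (nat_lit 1054799928),
  Rx.mk (nat_lit 429) (nat_lit 5) (nat_lit 5) (nat_lit 6) (nat_lit 7) (nat_lit 163) (nat_lit 28) r0_163 r8_28 (nat_lit 0) (nat_lit 0) (nat_lit 0) (nat_lit 0x7df8ad5732) (nat_lit 995747688),
  Rx.mk (nat_lit 436) (nat_lit 4) (nat_lit 6) (nat_lit 6) (nat_lit 6) (nat_lit 164) (nat_lit 37) r0_164 r8_37 (nat_lit 0) (nat_lit 0) (nat_lit 0) (nat_lit 0x7d6504125a) (nat_lit 1278872712),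
  Rx.mk (nat_lit 437) (nat_lit 5) (nat_lit 6) (nat_lit 6) (nat_lit 7) (nat_lit 165) (nat_lit 38) r0_165 r8_38 (nat_lit 0) (nat_lit 0) (nat_lit 0) (nat_lit 0x7df299187c) (nat_lit 1007403696),
  Rx.mk (nat_lit 438) (nat_lit 6) (nat_lit 6) (nat_lit 6) (nat_lit 7) (nat_lit 166) (nat_lit 39) r0_166 r8_39 (nat_lit 0) (nat_lit 0) (nat_lit 0) (nat_lit 0x7dde5a5c7c) (nat_lit 1046221488),
  Rx.mk (nat_lit 444) (nat_lit 4) (nat_lit 7) (nat_lit 6) (nat_lit 6) (nat_lit 167) (nat_lit 33) r0_167 r8_33 (nat_lit 0) (nat_lit 0) (nat_lit 0) (nat_lit 0x7db254fcfe) (nat_lit 1130627160),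
  Rx.mk (nat_lit 445) (nat_lit 5) (nat_lit 7) (nat_lit 6) (nat_lit 7) (nat_lit 168) (nat_lit 34) r0_168 r8_34 (nat_lit 0) (nat_lit 0) (nat_lit 0) (nat_lit 0x7df1b4c6c2) (nat_lit 1009113768),
  Rx.mk (nat_lit 447) (nat_lit 7) (nat_lit 7) (nat_lit 6) (nat_lit 7) (nat_lit 169) (nat_lit 35) r0_169 r8_35 (nat_lit 0) (nat_lit 0) (nat_lit 0) (nat_lit 0x7df06cbb44) (nat_lit 1011570768),
  Rx.mk (nat_lit 511) (nat_lit 7) (nat_lit 7) (nat_lit 7) (nat_lit 7) (nat_lit 170) (nat_lit 32) r0_170 r8_32 (nat_lit 0) (nat_lit 0) (nat_lit 0) (nat_lit 0x7d8f316f5a) (nat_lit 1198002312)]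
noncomputable def e10_38 : List Rx := [
  Rx.mk (nat_lit 182) (nat_lit 6) (nat_lit 6) (nat_lit 2) (nat_lit 7) (nat_lit 141) (nat_lit 0) r0_141 r8_0 (nat_lit 0) (nat_lit 0) (nat_lit 0) (nat_lit 0x7dde1b0072) (nat_lit 1046696040)]
noncomputable def e10_39 : List Rx := [
  Rx.mk (nat_lit 317) (nat_lit 5) (nat_lit 7) (nat_lit 4) (nat_lit 3) (nat_lit 75) (nat_lit 70) r0_75 r1_70 (nat_lit 0) (nat_lit 0) (nat_lit 0) (nat_lit 0x7de3d424da) (nat_lit 1035722376),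
  Rx.mk (nat_lit 421) (nat_lit 5) (nat_lit 4) (nat_lit 6) (nat_lit 5) (nat_lit 76) (nat_lit 69) r0_76 r1_69 (nat_lit 0) (nat_lit 0) (nat_lit 0) (nat_lit 0x7d345c1d0a) (nat_lit 1372165704),
  Rx.mk (nat_lit 437) (nat_lit 5) (nat_lit 6) (nat_lit 6) (nat_lit 7) (nat_lit 77) (nat_lit 72) r0_77 r1_72 (nat_lit 0) (nat_lit 0) (nat_lit 0) (nat_lit 0x7d7df4633c) (nat_lit 1231055280),
  Rx.mk (nat_lit 445) (nat_lit 5) (nat_lit 7) (nat_lit 6) (nat_lit 7) (nat_lit 78) (nat_lit 71) r0_78 r1_71 (nat_lit 0) (nat_lit 0) (nat_lit 0) (nat_lit 0x7ea4197fc4) (nat_lit 667062864)]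
noncomputable def e10_40 : List Rx := [
  Rx.mk (nat_lit 293) (nat_lit 5) (nat_lit 4) (nat_lit 4) (nat_lit 1) (nat_lit 188) (nat_lit 241) r0_188 r7_241 (nat_lit 0) (nat_lit 0) (nat_lit 0) (nat_lit 0x6c14ae090c) (nat_lit 9777416688),
  Rx.mk (nat_lit 301) (nat_lit 5) (nat_lit 5) (nat_lit 4) (nat_lit 3) (nat_lit 189) (nat_lit 242) r0_189 r7_242 (nat_lit 0) (nat_lit 0) (nat_lit 0) (nat_lit 0x7d632fcfa0) (nat_lit 1282379904),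
  Rx.mk (nat_lit 317) (nat_lit 5) (nat_lit 7) (nat_lit 4) (nat_lit 3) (nat_lit 190) (nat_lit 243) r0_190 r7_243 (nat_lit 0) (nat_lit 0) (nat_lit 0) (nat_lit 0x7e4de063ac) (nat_lit 832386672),
  Rx.mk (nat_lit 421) (nat_lit 5) (nat_lit 4) (nat_lit 6) (nat_lit 5) (nat_lit 191) (nat_lit 244) r0_191 r7_244 (nat_lit 0) (nat_lit 0) (nat_lit 0) (nat_lit 0x7dd6cb7572) (nat_lit 1060713576),
  Rx.mk (nat_lit 429) (nat_lit 5) (nat_lit 5) (nat_lit 6) (nat_lit 7) (nat_lit 192) (nat_lit 245) r0_192 r7_245 (nat_lit 0) (nat_lit 0) (nat_lit 0) (nat_lit 0x7df79428c6) (nat_lit 997853688),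
  Rx.mk (nat_lit 437) (nat_lit 5) (nat_lit 6) (nat_lit 6) (nat_lit 7) (nat_lit 193) (nat_lit 247) r0_193 r7_247 (nat_lit 0) (nat_lit 0) (nat_lit 0) (nat_lit 0x7de7422df6) (nat_lit 1029146040),
  Rx.mk (nat_lit 445) (nat_lit 5) (nat_lit 7) (nat_lit 6) (nat_lit 7) (nat_lit 194) (nat_lit 246) r0_194 r7_246 (nat_lit 0) (nat_lit 0) (nat_lit 0) (nat_lit 0x7de0607c18) (nat_lit 1042340832)]
noncomputable def e10_41 : List Rx := [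
  Rx.mk (nat_lit 297) (nat_lit 1) (nat_lit 5) (nat_lit 4) (nat_lit 3) (nat_lit 173) (nat_lit 255) r0_173 r1_255 (nat_lit 0) (nat_lit 0) (nat_lit 0) (nat_lit 0x7da5614c46) (nat_lit 1155461112)]
noncomputable def e10_42 : List Rx := [
  Rx.mk (nat_lit 265) (nat_lit 1) (nat_lit 1) (nat_lit 4) (nat_lit 3) (nat_lit 285) (nat_lit 281) r0_285 r2_281 (nat_lit 0) (nat_lit 0) (nat_lit 0) (nat_lit 0x7e3ae53372) (nat_lit 868781160),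
  Rx.mk (nat_lit 297) (nat_lit 1) (nat_lit 5) (nat_lit 4) (nat_lit 3) (nat_lit 286) (nat_lit 280) r0_286 r2_280 (nat_lit 0) (nat_lit 0) (nat_lit 0) (nat_lit 0x7e0b17707e) (nat_lit 960439896),
  Rx.mk (nat_lit 329) (nat_lit 1) (nat_lit 1) (nat_lit 5) (nat_lit 7) (nat_lit 287) (nat_lit 283) r0_287 r2_283 (nat_lit 0) (nat_lit 0) (nat_lit 0) (nat_lit 0x7de4b8169a) (nat_lit 1034015112),
  Rx.mk (nat_lit 361) (nat_lit 1) (nat_lit 5) (nat_lit 5) (nat_lit 7) (nat_lit 288) (nat_lit 282) r0_288 r2_282 (nat_lit 0) (nat_lit 0) (nat_lit 0) (nat_lit 0x7de13f8e26) (nat_lit 1040670072)]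
noncomputable def e10_43 : List Rx := [
  Rx.mk (nat_lit 297) (nat_lit 1) (nat_lit 5) (nat_lit 4) (nat_lit 3) (nat_lit 185) (nat_lit 63) r0_185 r7_63 (nat_lit 0) (nat_lit 0) (nat_lit 0) (nat_lit 0x7e2fea232e) (nat_lit 889835544),
  Rx.mk (nat_lit 301) (nat_lit 5) (nat_lit 5) (nat_lit 4) (nat_lit 3) (nat_lit 186) (nat_lit 64) r0_186 r7_64 (nat_lit 0) (nat_lit 0) (nat_lit 0) (nat_lit 0x7db1ff225c) (nat_lit 1131270192),
  Rx.mk (nat_lit 429) (nat_lit 5) (nat_lit 5) (nat_lit 6) (nat_lit 7) (nat_lit 187) (nat_lit 65) r0_187 r7_65 (nat_lit 0) (nat_lit 0) (nat_lit 0) (nat_lit 0x7dec1700a4) (nat_lit 1019882448)]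
noncomputable def e10_44 : List Rx := [
  Rx.mk (nat_lit 265) (nat_lit 1) (nat_lit 1) (nat_lit 4) (nat_lit 3) (nat_lit 293) (nat_lit 254) r0_293 r8_254 (nat_lit 0) (nat_lit 0) (nat_lit 0) (nat_lit 0x7c454cceee) (nat_lit 1830538008),
  Rx.mk (nat_lit 297) (nat_lit 1) (nat_lit 5) (nat_lit 4) (nat_lit 3) (nat_lit 294) (nat_lit 253) r0_294 r8_253 (nat_lit 0) (nat_lit 0) (nat_lit 0) (nat_lit 0x7d40db9506) (nat_lit 1348202232),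
  Rx.mk (nat_lit 301) (nat_lit 5) (nat_lit 5) (nat_lit 4) (nat_lit 3) (nat_lit 295) (nat_lit 250) r0_295 r8_250 (nat_lit 0) (nat_lit 0) (nat_lit 0) (nat_lit 0x7d3d9e48de) (nat_lit 1354413528),
  Rx.mk (nat_lit 329) (nat_lit 1) (nat_lit 1) (nat_lit 5) (nat_lit 7) (nat_lit 296) (nat_lit 256) r0_296 r8_256 (nat_lit 0) (nat_lit 0) (nat_lit 0) (nat_lit 0x7df79428c6) (nat_lit 997853688),
  Rx.mk (nat_lit 361) (nat_lit 1) (nat_lit 5) (nat_lit 5) (nat_lit 7) (nat_lit 297) (nat_lit 255) r0_297 r8_255 (nat_lit 0) (nat_lit 0) (nat_lit 0) (nat_lit 0x7de02cbf54) (nat_lit 1042728336),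
  Rx.mk (nat_lit 365) (nat_lit 5) (nat_lit 5) (nat_lit 5) (nat_lit 7) (nat_lit 298) (nat_lit 251) r0_298 r8_251 (nat_lit 0) (nat_lit 0) (nat_lit 0) (nat_lit 0x7df79428c6) (nat_lit 997853688),
  Rx.mk (nat_lit 429) (nat_lit 5) (nat_lit 5) (nat_lit 6) (nat_lit 7) (nat_lit 299) (nat_lit 252) r0_299 r8_252 (nat_lit 0) (nat_lit 0) (nat_lit 0) (nat_lit 0x7dea449dcc) (nat_lit 1023375600)]
noncomputable def e10_45 : List Rx := [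
  Rx.mk (nat_lit 329) (nat_lit 1) (nat_lit 1) (nat_lit 5) (nat_lit 7) (nat_lit 291) (nat_lit 248) r0_291 r8_248 (nat_lit 0) (nat_lit 0) (nat_lit 0) (nat_lit 0x7df24f9d14) (nat_lit 1007954064),
  Rx.mk (nat_lit 361) (nat_lit 1) (nat_lit 5) (nat_lit 5) (nat_lit 7) (nat_lit 292) (nat_lit 249) r0_292 r8_249 (nat_lit 0) (nat_lit 0) (nat_lit 0) (nat_lit 0x7ddc669bba) (nat_lit 1049964552)]
noncomputable def e10_46 : List Rx := [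
  Rx.mk (nat_lit 289) (nat_lit 1) (nat_lit 4) (nat_lit 4) (nat_lit 1) (nat_lit 174) (nat_lit 262) r0_174 r4_262 (nat_lit 0) (nat_lit 0) (nat_lit 0) (nat_lit 0x67e873f0da) (nat_lit 11825630856),
  Rx.mk (nat_lit 297) (nat_lit 1) (nat_lit 5) (nat_lit 4) (nat_lit 3) (nat_lit 175) (nat_lit 263) r0_175 r4_263 (nat_lit 0) (nat_lit 0) (nat_lit 0) (nat_lit 0x7e1f5bcc24) (nat_lit 921579984),
  Rx.mk (nat_lit 313) (nat_lit 1) (nat_lit 7) (nat_lit 4) (nat_lit 3) (nat_lit 176) (nat_lit 264) r0_176 r4_264 (nat_lit 0) (nat_lit 0) (nat_lit 0) (nat_lit 0x75d49f6036) (nat_lit 4991705784)]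
noncomputable def e10_47 : List Rx := [
  Rx.mk (nat_lit 313) (nat_lit 1) (nat_lit 7) (nat_lit 4) (nat_lit 3) (nat_lit 79) (nat_lit 68) r0_79 r4_68 (nat_lit 0) (nat_lit 0) (nat_lit 0) (nat_lit 0x6338dbcf0c) (nat_lit 14125728240),
  Rx.mk (nat_lit 317) (nat_lit 5) (nat_lit 7) (nat_lit 4) (nat_lit 3) (nat_lit 80) (nat_lit 69) r0_80 r4_69 (nat_lit 0) (nat_lit 0) (nat_lit 0) (nat_lit 0x7933197536) (nat_lit 3337995960),
  Rx.mk (nat_lit 445) (nat_lit 5) (nat_lit 7) (nat_lit 6) (nat_lit 7) (nat_lit 81) (nat_lit 70) r0_81 r4_70 (nat_lit 0) (nat_lit 0) (nat_lit 0) (nat_lit 0x7e7f2fee82) (nat_lit 737838504)]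
noncomputable def e10_48 : List Rx := [
  Rx.mk (nat_lit 289) (nat_lit 1) (nat_lit 4) (nat_lit 4) (nat_lit 1) (nat_lit 195) (nat_lit 281) r0_195 r9_281 (nat_lit 0) (nat_lit 0) (nat_lit 0) (nat_lit 0x604e485b2e) (nat_lit 15557210136),
  Rx.mk (nat_lit 297) (nat_lit 1) (nat_lit 5) (nat_lit 4) (nat_lit 3) (nat_lit 196) (nat_lit 282) r0_196 r9_282 (nat_lit 0) (nat_lit 0) (nat_lit 0) (nat_lit 0x7d6198a914) (nat_lit 1285429392),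
  Rx.mk (nat_lit 313) (nat_lit 1) (nat_lit 7) (nat_lit 4) (nat_lit 3) (nat_lit 197) (nat_lit 283) r0_197 r9_283 (nat_lit 0) (nat_lit 0) (nat_lit 0) (nat_lit 0x7e0e1fdff4) (nat_lit 954624528),
  Rx.mk (nat_lit 317) (nat_lit 5) (nat_lit 7) (nat_lit 4) (nat_lit 3) (nat_lit 198) (nat_lit 279) r0_198 r9_279 (nat_lit 0) (nat_lit 0) (nat_lit 0) (nat_lit 0x7ccb9f693e) (nat_lit 1572988248),
  Rx.mk (nat_lit 445) (nat_lit 5) (nat_lit 7) (nat_lit 6) (nat_lit 7) (nat_lit 199) (nat_lit 280) r0_199 r9_280 (nat_lit 0) (nat_lit 0) (nat_lit 0) (nat_lit 0x7e3eef92c8) (nat_lit 861033888)]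
noncomputable def e10_49 : List Rx := [
  Rx.mk (nat_lit 313) (nat_lit 1) (nat_lit 7) (nat_lit 4) (nat_lit 3) (nat_lit 225) (nat_lit 302) r0_225 r10_302 (nat_lit 0) (nat_lit 0) (nat_lit 0) (nat_lit 0x7c7d384ffe) (nat_lit 1723317336),
  Rx.mk (nat_lit 317) (nat_lit 5) (nat_lit 7) (nat_lit 4) (nat_lit 3) (nat_lit 226) (nat_lit 300) r0_226 r10_300 (nat_lit 0) (nat_lit 0) (nat_lit 0) (nat_lit 0x7dddc22600) (nat_lit 1047361536),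
  Rx.mk (nat_lit 445) (nat_lit 5) (nat_lit 7) (nat_lit 6) (nat_lit 7) (nat_lit 227) (nat_lit 301) r0_227 r10_301 (nat_lit 0) (nat_lit 0) (nat_lit 0) (nat_lit 0x7e9ab5f606) (nat_lit 685064952)]
noncomputable def e10_50 : List Rx := [
  Rx.mk (nat_lit 289) (nat_lit 1) (nat_lit 4) (nat_lit 4) (nat_lit 1) (nat_lit 200) (nat_lit 37) r0_200 r10_37 (nat_lit 0) (nat_lit 0) (nat_lit 0) (nat_lit 0x76da66a2bc) (nat_lit 4489772976),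
  Rx.mk (nat_lit 297) (nat_lit 1) (nat_lit 5) (nat_lit 4) (nat_lit 3) (nat_lit 201) (nat_lit 38) r0_201 r10_38 (nat_lit 0) (nat_lit 0) (nat_lit 0) (nat_lit 0x7e09e4c3aa) (nat_lit 962736840),
  Rx.mk (nat_lit 313) (nat_lit 1) (nat_lit 7) (nat_lit 4) (nat_lit 3) (nat_lit 202) (nat_lit 39) r0_202 r10_39 (nat_lit 0) (nat_lit 0) (nat_lit 0) (nat_lit 0x7e49f042b2) (nat_lit 839937384),
  Rx.mk (nat_lit 505) (nat_lit 1) (nat_lit 7) (nat_lit 7) (nat_lit 7) (nat_lit 203) (nat_lit 40) r0_203 r10_40 (nat_lit 0) (nat_lit 0) (nat_lit 0) (nat_lit 0x7e9eee1280) (nat_lit 676975104)]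
noncomputable def e10_51 : List Rx := [
  Rx.mk (nat_lit 192) (nat_lit 0) (nat_lit 0) (nat_lit 3) (nat_lit 4) (nat_lit 204) (nat_lit 94) r0_204 r12_94 (nat_lit 0) (nat_lit 0) (nat_lit 0) (nat_lit 0x8000000000) (nat_lit 0),
  Rx.mk (nat_lit 194) (nat_lit 2) (nat_lit 0) (nat_lit 3) (nat_lit 5) (nat_lit 205) (nat_lit 100) r0_205 r12_100 (nat_lit 0) (nat_lit 0) (nat_lit 0) (nat_lit 0x769593103a) (nat_lit 4621740552),
  Rx.mk (nat_lit 210) (nat_lit 2) (nat_lit 2) (nat_lit 3) (nat_lit 7) (nat_lit 206) (nat_lit 101) r0_206 r12_101 (nat_lit 0) (nat_lit 0) (nat_lit 0) (nat_lit 0x67426092b6) (nat_lit 12144063672),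
  Rx.mk (nat_lit 283) (nat_lit 3) (nat_lit 3) (nat_lit 4) (nat_lit 3) (nat_lit 207) (nat_lit 97) r0_207 r12_97 (nat_lit 0) (nat_lit 0) (nat_lit 0) (nat_lit 0x7b7e747d3a) (nat_lit 2211802632),
  Rx.mk (nat_lit 315) (nat_lit 3) (nat_lit 7) (nat_lit 4) (nat_lit 3) (nat_lit 208) (nat_lit 99) r0_208 r12_99 (nat_lit 0) (nat_lit 0) (nat_lit 0) (nat_lit 0x6c8ed0a668) (nat_lit 9543235104),
  Rx.mk (nat_lit 448) (nat_lit 0) (nat_lit 0) (nat_lit 7) (nat_lit 4) (nat_lit 209) (nat_lit 95) r0_209 r12_95 (nat_lit 0) (nat_lit 0) (nat_lit 0) (nat_lit 0x749db7cfe6) (nat_lit 5587832952),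
  Rx.mk (nat_lit 472) (nat_lit 0) (nat_lit 3) (nat_lit 7) (nat_lit 6) (nat_lit 210) (nat_lit 96) r0_210 r12_96 (nat_lit 0) (nat_lit 0) (nat_lit 0) (nat_lit 0x7d52e9d410) (nat_lit 1313582400),
  Rx.mk (nat_lit 475) (nat_lit 3) (nat_lit 3) (nat_lit 7) (nat_lit 7) (nat_lit 211) (nat_lit 98) r0_211 r12_98 (nat_lit 0) (nat_lit 0) (nat_lit 0) (nat_lit 0x7df6c1d5ec) (nat_lit 999428976)]
noncomputable def e10_52 : List Rx := [
  Rx.mk (nat_lit 256) (nat_lit 0) (nat_lit 0) (nat_lit 4) (nat_lit 0) (nat_lit 329) (nat_lit 152) r0_329 r12_152 (nat_lit 0) (nat_lit 0) (nat_lit 0) (nat_lit 0x8000000000) (nat_lit 0),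
  Rx.mk (nat_lit 257) (nat_lit 1) (nat_lit 0) (nat_lit 4) (nat_lit 1) (nat_lit 330) (nat_lit 155) r0_330 r12_155 (nat_lit 0) (nat_lit 0) (nat_lit 0) (nat_lit 0x7542556568) (nat_lit 5272199712),
  Rx.mk (nat_lit 280) (nat_lit 0) (nat_lit 3) (nat_lit 4) (nat_lit 2) (nat_lit 331) (nat_lit 158) r0_331 r12_158 (nat_lit 0) (nat_lit 0) (nat_lit 0) (nat_lit 0x6fbb66b9da) (nat_lit 7985185416),
  Rx.mk (nat_lit 281) (nat_lit 1) (nat_lit 3) (nat_lit 4) (nat_lit 3) (nat_lit 332) (nat_lit 160) r0_332 r12_160 (nat_lit 0) (nat_lit 0) (nat_lit 0) (nat_lit 0x7dd134cee2) (nat_lit 1071428904),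
  Rx.mk (nat_lit 283) (nat_lit 3) (nat_lit 3) (nat_lit 4) (nat_lit 3) (nat_lit 333) (nat_lit 162) r0_333 r12_162 (nat_lit 0) (nat_lit 0) (nat_lit 0) (nat_lit 0x7ac0cd7868) (nat_lit 2575441440),
  Rx.mk (nat_lit 320) (nat_lit 0) (nat_lit 0) (nat_lit 5) (nat_lit 4) (nat_lit 334) (nat_lit 153) r0_334 r12_153 (nat_lit 0) (nat_lit 0) (nat_lit 0) (nat_lit 0x7328f59d7e) (nat_lit 6302558808),
  Rx.mk (nat_lit 321) (nat_lit 1) (nat_lit 0) (nat_lit 5) (nat_lit 5) (nat_lit 335) (nat_lit 156) r0_335 r12_156 (nat_lit 0) (nat_lit 0) (nat_lit 0) (nat_lit 0x7e0833bebc) (nat_lit 965980080),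
  Rx.mk (nat_lit 344) (nat_lit 0) (nat_lit 3) (nat_lit 5) (nat_lit 6) (nat_lit 336) (nat_lit 159) r0_336 r12_159 (nat_lit 0) (nat_lit 0) (nat_lit 0) (nat_lit 0x7a9bd7e7e6) (nat_lit 2646306936),
  Rx.mk (nat_lit 345) (nat_lit 1) (nat_lit 3) (nat_lit 5) (nat_lit 7) (nat_lit 337) (nat_lit 161) r0_337 r12_161 (nat_lit 0) (nat_lit 0) (nat_lit 0) (nat_lit 0x7e78339e4e) (nat_lit 751232664),
  Rx.mk (nat_lit 347) (nat_lit 3) (nat_lit 3) (nat_lit 5) (nat_lit 7) (nat_lit 338) (nat_lit 163) r0_338 r12_163 (nat_lit 0) (nat_lit 0) (nat_lit 0) (nat_lit 0x7e24231faa) (nat_lit 912417480),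
  Rx.mk (nat_lit 448) (nat_lit 0) (nat_lit 0) (nat_lit 7) (nat_lit 4) (nat_lit 339) (nat_lit 154) r0_339 r12_154 (nat_lit 0) (nat_lit 0) (nat_lit 0) (nat_lit 0x8000000000) (nat_lit 0),
  Rx.mk (nat_lit 449) (nat_lit 1) (nat_lit 0) (nat_lit 7) (nat_lit 5) (nat_lit 340) (nat_lit 157) r0_340 r12_157 (nat_lit 0) (nat_lit 0) (nat_lit 0) (nat_lit 0x7b4610a3b0) (nat_lit 2319924672)]
noncomputable def e10_53 : List Rx := [
  Rx.mk (nat_lit 216) (nat_lit 0) (nat_lit 3) (nat_lit 3) (nat_lit 6) (nat_lit 65) (nat_lit 4) r0_65 r12_4 (nat_lit 0) (nat_lit 0) (nat_lit 0) (nat_lit 0x720f3cda24) (nat_lit 6842730960),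
  Rx.mk (nat_lit 218) (nat_lit 2) (nat_lit 3) (nat_lit 3) (nat_lit 7) (nat_lit 66) (nat_lit 5) r0_66 r12_5 (nat_lit 0) (nat_lit 0) (nat_lit 0) (nat_lit 0x7df1ba066e) (nat_lit 1009074456),
  Rx.mk (nat_lit 315) (nat_lit 3) (nat_lit 7) (nat_lit 4) (nat_lit 3) (nat_lit 67) (nat_lit 0) r0_67 r12_0 (nat_lit 0) (nat_lit 0) (nat_lit 0) (nat_lit 0x765c6d02d4) (nat_lit 4731317136),
  Rx.mk (nat_lit 472) (nat_lit 0) (nat_lit 3) (nat_lit 7) (nat_lit 6) (nat_lit 68) (nat_lit 3) r0_68 r12_3 (nat_lit 0) (nat_lit 0) (nat_lit 0) (nat_lit 0x75cf3f763a) (nat_lit 5002011144),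
  Rx.mk (nat_lit 504) (nat_lit 0) (nat_lit 7) (nat_lit 7) (nat_lit 6) (nat_lit 69) (nat_lit 1) r0_69 r12_1 (nat_lit 0) (nat_lit 0) (nat_lit 0) (nat_lit 0x71e33a1a7c) (nat_lit 6927116976),
  Rx.mk (nat_lit 507) (nat_lit 3) (nat_lit 7) (nat_lit 7) (nat_lit 7) (nat_lit 70) (nat_lit 2) r0_70 r12_2 (nat_lit 0) (nat_lit 0) (nat_lit 0) (nat_lit 0x7690a69f06) (nat_lit 4631181048)]
noncomputable def e10_54 : List Rx := [
  Rx.mk (nat_lit 281) (nat_lit 1) (nat_lit 3) (nat_lit 4) (nat_lit 3) (nat_lit 314) (nat_lit 252) r0_314 r12_252 (nat_lit 0) (nat_lit 0) (nat_lit 0) (nat_lit 0x7c8c873b00) (nat_lit 1693965312),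
  Rx.mk (nat_lit 344) (nat_lit 0) (nat_lit 3) (nat_lit 5) (nat_lit 6) (nat_lit 315) (nat_lit 253) r0_315 r12_253 (nat_lit 0) (nat_lit 0) (nat_lit 0) (nat_lit 0x7ac9315222) (nat_lit 2559354408),
  Rx.mk (nat_lit 345) (nat_lit 1) (nat_lit 3) (nat_lit 5) (nat_lit 7) (nat_lit 316) (nat_lit 254) r0_316 r12_254 (nat_lit 0) (nat_lit 0) (nat_lit 0) (nat_lit 0x7ef9c72494) (nat_lit 502783632)]
noncomputable def e10_55 : List Rx := [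
  Rx.mk (nat_lit 313) (nat_lit 1) (nat_lit 7) (nat_lit 4) (nat_lit 3) (nat_lit 71) (nat_lit 244) r0_71 r3_244 (nat_lit 0) (nat_lit 0) (nat_lit 0) (nat_lit 0x8000000000) (nat_lit 0)]
noncomputable def e10_56 : List Rx := [
  Rx.mk (nat_lit 313) (nat_lit 1) (nat_lit 7) (nat_lit 4) (nat_lit 3) (nat_lit 224) (nat_lit 255) r0_224 r12_255 (nat_lit 0) (nat_lit 0) (nat_lit 0) (nat_lit 0x8000000000) (nat_lit 0)]
noncomputable def e10_57 : List Rx := [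
  Rx.mk (nat_lit 313) (nat_lit 1) (nat_lit 7) (nat_lit 4) (nat_lit 3) (nat_lit 89) (nat_lit 61) r0_89 r12_61 (nat_lit 0) (nat_lit 0) (nat_lit 0) (nat_lit 0x75d5ae0f4a) (nat_lit 4989678408),
  Rx.mk (nat_lit 505) (nat_lit 1) (nat_lit 7) (nat_lit 7) (nat_lit 7) (nat_lit 90) (nat_lit 62) r0_90 r12_62 (nat_lit 0) (nat_lit 0) (nat_lit 0) (nat_lit 0x7ec6f5d1dc) (nat_lit 600221232)]
noncomputable def e10 : List (List Rx) := [e10_0, e10_1, e10_2, e10_3, e10_4, e10_5, e10_6, e10_7, e10_8, e10_9, e10_10, e10_11, e10_12, e10_13, e10_14, e10_15, e10_16, e10_17, e10_18, e10_19, e10_20, e10_21, e10_22, e10_23, e10_24, e10_25, e10_26, e10_27, e10_28, e10_29, e10_30, e10_31, e10_32, e10_33, e10_34, e10_35, e10_36, e10_37, e10_38, e10_39, e10_40, e10_41, e10_42, e10_43, e10_44, e10_45, e10_46, e10_47, e10_48, e10_49, e10_50, e10_51, e10_52, e10_53, e10_54,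 e10_55, e10_56, e10_57]
noncomputable def e11_0 : List Rx := [
  Rx.mk (nat_lit 2) (nat_lit 2) (nat_lit 0) (nat_lit 0) (nat_lit 1) (nat_lit 2) (nat_lit 105) r6_2 r0_105 (nat_lit 0) (nat_lit 0) (nat_lit 0) (nat_lit 0x66b9ed9a6e) (nat_lit 12405690648),
  Rx.mk (nat_lit 18) (nat_lit 2) (nat_lit 2) (nat_lit 0) (nat_lit 3) (nat_lit 4) (nat_lit 108) r6_4 r0_108 (nat_lit 0) (nat_lit 0) (nat_lit 0) (nat_lit 0x78a031444c) (nat_lit 3619674864),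
  Rx.mk (nat_lit 146) (nat_lit 2) (nat_lit 2) (nat_lit 2) (nat_lit 7) (nat_lit 5) (nat_lit 110) r6_5 r0_110 (nat_lit 0) (nat_lit 0) (nat_lit 0) (nat_lit 0x7d5af3b36a) (nat_lit 1298169288),
  Rx.mk (nat_lit 192) (nat_lit 0) (nat_lit 0) (nat_lit 3) (nat_lit 4) (nat_lit 0) (nat_lit 100) r6_0 r0_100 (nat_lit 0) (nat_lit 0) (nat_lit 0) (nat_lit 0x5b048c5c38) (nat_lit 18152855136),
  Rx.mk (nat_lit 194) (nat_lit 2) (nat_lit 0) (nat_lit 3) (nat_lit 5) (nat_lit 3) (nat_lit 106) r6_3 r0_106 (nat_lit 0) (nat_lit 0) (nat_lit 0) (nat_lit 0x77e3aa8d74) (nat_lit 3981154320),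
  Rx.mk (nat_lit 210) (nat_lit 2) (nat_lit 2) (nat_lit 3) (nat_lit 7) (nat_lit 6) (nat_lit 109) r6_6 r0_109 (nat_lit 0) (nat_lit 0) (nat_lit 0) (nat_lit 0x7de57b0a6a) (nat_lit 1032554952),
  Rx.mk (nat_lit 216) (nat_lit 0) (nat_lit 3) (nat_lit 3) (nat_lit 6) (nat_lit 1) (nat_lit 101) r6_1 r0_101 (nat_lit 0) (nat_lit 0) (nat_lit 0) (nat_lit 0x777f139748) (nat_lit 4174024608),
  Rx.mk (nat_lit 218) (nat_lit 2) (nat_lit 3) (nat_lit 3) (nat_lit 7) (nat_lit 7) (nat_lit 107) r6_7 r0_107 (nat_lit 0) (nat_lit 0) (nat_lit 0) (nat_lit 0x7e027b5a48) (nat_lit 976948128),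
  Rx.mk (nat_lit 219) (nat_lit 3) (nat_lit 3) (nat_lit 3) (nat_lit 7) (nat_lit 10) (nat_lit 102) r6_10 r0_102 (nat_lit 0) (nat_lit 0) (nat_lit 0) (nat_lit 0x7cd66efc3a) (nat_lit 1552259592),
  Rx.mk (nat_lit 475) (nat_lit 3) (nat_lit 3) (nat_lit 7) (nat_lit 7) (nat_lit 9) (nat_lit 103) r6_9 r0_103 (nat_lit 0) (nat_lit 0) (nat_lit 0) (nat_lit 0x7df18ca944) (nat_lit 1009414224),
  Rx.mk (nat_lit 507) (nat_lit 3) (nat_lit 7) (nat_lit 7) (nat_lit 7) (nat_lit 8) (nat_lit 104) r6_8 r0_104 (nat_lit 0) (nat_lit 0) (nat_lit 0) (nat_lit 0x7defce8528) (nat_lit 1012755744)]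
noncomputable def e11_1 : List Rx := [
  Rx.mk (nat_lit 0) (nat_lit 0) (nat_lit 0) (nat_lit 0) (nat_lit 0) (nat_lit 11) (nat_lit 107) r6_11 r1_107 (nat_lit 0) (nat_lit 0) (nat_lit 0) (nat_lit 0x55073477b4) (nat_lit 21092881680),
  Rx.mk (nat_lit 2) (nat_lit 2) (nat_lit 0) (nat_lit 0) (nat_lit 1) (nat_lit 14) (nat_lit 111) r6_14 r1_111 (nat_lit 0) (nat_lit 0) (nat_lit 0) (nat_lit 0x67e0964ebc) (nat_lit 11840712624),
  Rx.mk (nat_lit 18) (nat_lit 2) (nat_lit 2) (nat_lit 0) (nat_lit 3) (nat_lit 16) (nat_lit 114) r6_16 r1_114 (nat_lit 0) (nat_lit 0) (nat_lit 0) (nat_lit 0x6d67741b58) (nat_lit 9127853280),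
  Rx.mk (nat_lit 146) (nat_lit 2) (nat_lit 2) (nat_lit 2) (nat_lit 7) (nat_lit 17) (nat_lit 116) r6_17 r1_116 (nat_lit 0) (nat_lit 0) (nat_lit 0) (nat_lit 0x7ce256fdae) (nat_lit 1529430552),
  Rx.mk (nat_lit 192) (nat_lit 0) (nat_lit 0) (nat_lit 3) (nat_lit 4) (nat_lit 12) (nat_lit 108) r6_12 r1_108 (nat_lit 0) (nat_lit 0) (nat_lit 0) (nat_lit 0x6c89b37840) (nat_lit 9553040640),
  Rx.mk (nat_lit 194) (nat_lit 2) (nat_lit 0) (nat_lit 3) (nat_lit 5) (nat_lit 15) (nat_lit 112) r6_15 r1_112 (nat_lit 0) (nat_lit 0) (nat_lit 0) (nat_lit 0x7d6284da50) (nat_lit 1283660352),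
  Rx.mk (nat_lit 210) (nat_lit 2) (nat_lit 2) (nat_lit 3) (nat_lit 7) (nat_lit 18) (nat_lit 115) r6_18 r1_115 (nat_lit 0) (nat_lit 0) (nat_lit 0) (nat_lit 0x7da9ea63b0) (nat_lit 1146764736),
  Rx.mk (nat_lit 216) (nat_lit 0) (nat_lit 3) (nat_lit 3) (nat_lit 6) (nat_lit 13) (nat_lit 109) r6_13 r1_109 (nat_lit 0) (nat_lit 0) (nat_lit 0) (nat_lit 0x7c894ceea8) (nat_lit 1700154144),
  Rx.mk (nat_lit 218) (nat_lit 2) (nat_lit 3) (nat_lit 3) (nat_lit 7) (nat_lit 19) (nat_lit 113) r6_19 r1_113 (nat_lit 0) (nat_lit 0) (nat_lit 0) (nat_lit 0x7de1bde640) (nat_lit 1039723776),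
  Rx.mk (nat_lit 219) (nat_lit 3) (nat_lit 3) (nat_lit 3) (nat_lit 7) (nat_lit 20) (nat_lit 110) r6_20 r1_110 (nat_lit 0) (nat_lit 0) (nat_lit 0) (nat_lit 0x7de4f8f28c) (nat_lit 1033529328)]
noncomputable def e11_2 : List Rx := [
  Rx.mk (nat_lit 0) (nat_lit 0) (nat_lit 0) (nat_lit 0) (nat_lit 0) (nat_lit 21) (nat_lit 101) r6_21 r2_101 (nat_lit 0) (nat_lit 0) (nat_lit 0) (nat_lit 0x3b982e8184) (nat_lit 33577092432),
  Rx.mk (nat_lit 2) (nat_lit 2) (nat_lit 0) (nat_lit 0) (nat_lit 1) (nat_lit 26) (nat_lit 107) r6_26 r2_107 (nat_lit 0) (nat_lit 0) (nat_lit 0) (nat_lit 0x6e2c488d4c) (nat_lit 8750452464),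
  Rx.mk (nat_lit 18) (nat_lit 2) (nat_lit 2) (nat_lit 0) (nat_lit 3) (nat_lit 28) (nat_lit 112) r6_28 r2_112 (nat_lit 0) (nat_lit 0) (nat_lit 0) (nat_lit 0x7d86aa57d4) (nat_lit 1214353296),
  Rx.mk (nat_lit 24) (nat_lit 0) (nat_lit 3) (nat_lit 0) (nat_lit 2) (nat_lit 23) (nat_lit 103) r6_23 r2_103 (nat_lit 0) (nat_lit 0) (nat_lit 0) (nat_lit 0x75dc704320) (nat_lit 4976719488),
  Rx.mk (nat_lit 26) (nat_lit 2) (nat_lit 3) (nat_lit 0) (nat_lit 3) (nat_lit 31) (nat_lit 109) r6_31 r2_109 (nat_lit 0) (nat_lit 0) (nat_lit 0) (nat_lit 0x7dd93fce2a) (nat_lit 1056007368),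
  Rx.mk (nat_lit 64) (nat_lit 0) (nat_lit 0) (nat_lit 1) (nat_lit 4) (nat_lit 22) (nat_lit 102) r6_22 r2_102 (nat_lit 0) (nat_lit 0) (nat_lit 0) (nat_lit 0x68b79d5d74) (nat_lit 11428419600),
  Rx.mk (nat_lit 66) (nat_lit 2) (nat_lit 0) (nat_lit 1) (nat_lit 5) (nat_lit 27) (nat_lit 108) r6_27 r2_108 (nat_lit 0) (nat_lit 0) (nat_lit 0) (nat_lit 0x7dcd510d22) (nat_lit 1078886952),
  Rx.mk (nat_lit 82) (nat_lit 2) (nat_lit 2) (nat_lit 1) (nat_lit 7) (nat_lit 29) (nat_lit 113) r6_29 r2_113 (nat_lit 0) (nat_lit 0) (nat_lit 0) (nat_lit 0x7dfc7eba18) (nat_lit 988427232),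
  Rx.mk (nat_lit 88) (nat_lit 0) (nat_lit 3) (nat_lit 1) (nat_lit 6) (nat_lit 24) (nat_lit 104) r6_24 r2_104 (nat_lit 0) (nat_lit 0) (nat_lit 0) (nat_lit 0x7d6beb63de) (nat_lit 1265635800),
  Rx.mk (nat_lit 90) (nat_lit 2) (nat_lit 3) (nat_lit 1) (nat_lit 7) (nat_lit 32) (nat_lit 110) r6_32 r2_110 (nat_lit 0) (nat_lit 0) (nat_lit 0) (nat_lit 0x7ddcd23500) (nat_lit 1049158656),
  Rx.mk (nat_lit 146) (nat_lit 2) (nat_lit 2) (nat_lit 2) (nat_lit 7) (nat_lit 30) (nat_lit 114) r6_30 r2_114 (nat_lit 0) (nat_lit 0) (nat_lit 0) (nat_lit 0x7dda493d92) (nat_lit 1054019304),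
  Rx.mk (nat_lit 216) (nat_lit 0) (nat_lit 3) (nat_lit 3) (nat_lit 6) (nat_lit 25) (nat_lit 105) r6_25 r2_105 (nat_lit 0) (nat_lit 0) (nat_lit 0) (nat_lit 0x7d26cf15e8) (nat_lit 1398148128),
  Rx.mk (nat_lit 218) (nat_lit 2) (nat_lit 3) (nat_lit 3) (nat_lit 7) (nat_lit 33) (nat_lit 111) r6_33 r2_111 (nat_lit 0) (nat_lit 0) (nat_lit 0) (nat_lit 0x7df6c535b6) (nat_lit 999403704),
  Rx.mk (nat_lit 219) (nat_lit 3) (nat_lit 3) (nat_lit 3) (nat_lit 7) (nat_lit 34) (nat_lit 106) r6_34 r2_106 (nat_lit 0) (nat_lit 0) (nat_lit 0) (nat_lit 0x7dc2f852b8) (nat_lit 1098725472)]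
noncomputable def e11_3 : List Rx := [
  Rx.mk (nat_lit 315) (nat_lit 3) (nat_lit 7) (nat_lit 4) (nat_lit 3) (nat_lit 36) (nat_lit 99) r6_36 r3_99 (nat_lit 0) (nat_lit 0) (nat_lit 0) (nat_lit 0x7fdd138eea) (nat_lit 66962376),
  Rx.mk (nat_lit 472) (nat_lit 0) (nat_lit 3) (nat_lit 7) (nat_lit 6) (nat_lit 35) (nat_lit 97) r6_35 r3_97 (nat_lit 0) (nat_lit 0) (nat_lit 0) (nat_lit 0x7fdd138eea) (nat_lit 66962376),
  Rx.mk (nat_lit 475) (nat_lit 3) (nat_lit 3) (nat_lit 7) (nat_lit 7) (nat_lit 38) (nat_lit 98) r6_38 r3_98 (nat_lit 0) (nat_lit 0) (nat_lit 0) (nat_lit 0x7e36b136b6) (nat_lit 876840120),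
  Rx.mk (nat_lit 507) (nat_lit 3) (nat_lit 7) (nat_lit 7) (nat_lit 7) (nat_lit 37) (nat_lit 100) r6_37 r3_100 (nat_lit 0) (nat_lit 0) (nat_lit 0) (nat_lit 0x7e36b136b6) (nat_lit 876840120)]
noncomputable def e11_4 : List Rx := [
  Rx.mk (nat_lit 192) (nat_lit 0) (nat_lit 0) (nat_lit 3) (nat_lit 4) (nat_lit 39) (nat_lit 98) r6_39 r4_98 (nat_lit 0) (nat_lit 0) (nat_lit 0) (nat_lit 0x666c24b74a) (nat_lit 12554834760),
  Rx.mk (nat_lit 194) (nat_lit 2) (nat_lit 0) (nat_lit 3) (nat_lit 5) (nat_lit 42) (nat_lit 104) r6_42 r4_104 (nat_lit 0) (nat_lit 0) (nat_lit 0) (nat_lit 0x7d86242038) (nat_lit 1215358560),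
  Rx.mk (nat_lit 210) (nat_lit 2) (nat_lit 2) (nat_lit 3) (nat_lit 7) (nat_lit 43) (nat_lit 106) r6_43 r4_106 (nat_lit 0) (nat_lit 0) (nat_lit 0) (nat_lit 0x7df79428c6) (nat_lit 997853688),
  Rx.mk (nat_lit 216) (nat_lit 0) (nat_lit 3) (nat_lit 3) (nat_lit 6) (nat_lit 41) (nat_lit 99) r6_41 r4_99 (nat_lit 0) (nat_lit 0) (nat_lit 0) (nat_lit 0x7e8603014a) (nat_lit 724753224),
  Rx.mk (nat_lit 218) (nat_lit 2) (nat_lit 3) (nat_lit 3) (nat_lit 7) (nat_lit 44) (nat_lit 105) r6_44 r4_105 (nat_lit 0) (nat_lit 0) (nat_lit 0) (nat_lit 0x7e6a93d858) (nat_lit 777355488),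
  Rx.mk (nat_lit 315) (nat_lit 3) (nat_lit 7) (nat_lit 4) (nat_lit 3) (nat_lit 45) (nat_lit 102) r6_45 r4_102 (nat_lit 0) (nat_lit 0) (nat_lit 0) (nat_lit 0x7e14d85466) (nat_lit 941738616),
  Rx.mk (nat_lit 472) (nat_lit 0) (nat_lit 3) (nat_lit 7) (nat_lit 6) (nat_lit 40) (nat_lit 100) r6_40 r4_100 (nat_lit 0) (nat_lit 0) (nat_lit 0) (nat_lit 0x7dd0537cf8) (nat_lit 1073116512),
  Rx.mk (nat_lit 475) (nat_lit 3) (nat_lit 3) (nat_lit 7) (nat_lit 7) (nat_lit 47) (nat_lit 101) r6_47 r4_101 (nat_lit 0) (nat_lit 0) (nat_lit 0) (nat_lit 0x7df1d384d6) (nat_lit 1008883512),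
  Rx.mk (nat_lit 507) (nat_lit 3) (nat_lit 7) (nat_lit 7) (nat_lit 7) (nat_lit 46) (nat_lit 103) r6_46 r4_103 (nat_lit 0) (nat_lit 0) (nat_lit 0) (nat_lit 0x7dd10471e8) (nat_lit 1071791136)]
noncomputable def e11_5 : List Rx := [
  Rx.mk (nat_lit 320) (nat_lit 0) (nat_lit 0) (nat_lit 5) (nat_lit 4) (nat_lit 52) (nat_lit 164) r6_52 r3_164 (nat_lit 0) (nat_lit 0) (nat_lit 0) (nat_lit 0x70137118dc) (nat_lit 7816376880),
  Rx.mk (nat_lit 321) (nat_lit 1) (nat_lit 0) (nat_lit 5) (nat_lit 5) (nat_lit 54) (nat_lit 165) r6_54 r3_165 (nat_lit 0) (nat_lit 0) (nat_lit 0) (nat_lit 0x721a4209c6) (nat_lit 6821600760),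
  Rx.mk (nat_lit 344) (nat_lit 0) (nat_lit 3) (nat_lit 5) (nat_lit 6) (nat_lit 53) (nat_lit 166) r6_53 r3_166 (nat_lit 0) (nat_lit 0) (nat_lit 0) (nat_lit 0x7ed67c9960) (nat_lit 570450816),
  Rx.mk (nat_lit 345) (nat_lit 1) (nat_lit 3) (nat_lit 5) (nat_lit 7) (nat_lit 55) (nat_lit 167) r6_55 r3_167 (nat_lit 0) (nat_lit 0) (nat_lit 0) (nat_lit 0x7eecb9f574) (nat_lit 527808528)]
noncomputable def e11_6 : List Rx := [
  Rx.mk (nat_lit 64) (nat_lit 0) (nat_lit 0) (nat_lit 1) (nat_lit 4) (nat_lit 57) (nat_lit 178) r6_57 r0_178 (nat_lit 0) (nat_lit 0) (nat_lit 0) (nat_lit 0x6d7c714b70) (nat_lit 9087609024),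
  Rx.mk (nat_lit 65) (nat_lit 1) (nat_lit 0) (nat_lit 1) (nat_lit 5) (nat_lit 60) (nat_lit 180) r6_60 r0_180 (nat_lit 0) (nat_lit 0) (nat_lit 0) (nat_lit 0x7d7f2b2fce) (nat_lit 1228727448),
  Rx.mk (nat_lit 66) (nat_lit 2) (nat_lit 0) (nat_lit 1) (nat_lit 5) (nat_lit 62) (nat_lit 181) r6_62 r0_181 (nat_lit 0) (nat_lit 0) (nat_lit 0) (nat_lit 0x7e643c7dd4) (nat_lit 789514128),
  Rx.mk (nat_lit 88) (nat_lit 0) (nat_lit 3) (nat_lit 1) (nat_lit 6) (nat_lit 58) (nat_lit 182) r6_58 r0_182 (nat_lit 0) (nat_lit 0) (nat_lit 0) (nat_lit 0x7e87fa21d6) (nat_lit 720984888),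
  Rx.mk (nat_lit 89) (nat_lit 1) (nat_lit 3) (nat_lit 1) (nat_lit 7) (nat_lit 61) (nat_lit 183) r6_61 r0_183 (nat_lit 0) (nat_lit 0) (nat_lit 0) (nat_lit 0x7e596ecaba) (nat_lit 810228744),
  Rx.mk (nat_lit 90) (nat_lit 2) (nat_lit 3) (nat_lit 1) (nat_lit 7) (nat_lit 63) (nat_lit 184) r6_63 r0_184 (nat_lit 0) (nat_lit 0) (nat_lit 0) (nat_lit 0x7e6c393e00) (nat_lit 774199296),
  Rx.mk (nat_lit 320) (nat_lit 0) (nat_lit 0) (nat_lit 5) (nat_lit 4) (nat_lit 56) (nat_lit 177) r6_56 r0_177 (nat_lit 0) (nat_lit 0) (nat_lit 0) (nat_lit 0x6042df11ce) (nat_lit 15579090072),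
  Rx.mk (nat_lit 321) (nat_lit 1) (nat_lit 0) (nat_lit 5) (nat_lit 5) (nat_lit 59) (nat_lit 179) r6_59 r0_179 (nat_lit 0) (nat_lit 0) (nat_lit 0) (nat_lit 0x7d961fe06c) (nat_lit 1184712048)]
noncomputable def e11_7 : List Rx := [
  Rx.mk (nat_lit 64) (nat_lit 0) (nat_lit 0) (nat_lit 1) (nat_lit 4) (nat_lit 64) (nat_lit 192) r6_64 r1_192 (nat_lit 0) (nat_lit 0) (nat_lit 0) (nat_lit 0x722130dad2) (nat_lit 6808307688),
  Rx.mk (nat_lit 65) (nat_lit 1) (nat_lit 0) (nat_lit 1) (nat_lit 5) (nat_lit 66) (nat_lit 193) r6_66 r1_193 (nat_lit 0) (nat_lit 0) (nat_lit 0) (nat_lit 0x7d814b2dcc) (nat_lit 1224653040),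
  Rx.mk (nat_lit 66) (nat_lit 2) (nat_lit 0) (nat_lit 1) (nat_lit 5) (nat_lit 68) (nat_lit 194) r6_68 r1_194 (nat_lit 0) (nat_lit 0) (nat_lit 0) (nat_lit 0x7dcda1a818) (nat_lit 1078283232),
  Rx.mk (nat_lit 82) (nat_lit 2) (nat_lit 2) (nat_lit 1) (nat_lit 7) (nat_lit 69) (nat_lit 198) r6_69 r1_198 (nat_lit 0) (nat_lit 0) (nat_lit 0) (nat_lit 0x7d43cb4608) (nat_lit 1342572192),
  Rx.mk (nat_lit 88) (nat_lit 0) (nat_lit 3) (nat_lit 1) (nat_lit 6) (nat_lit 65) (nat_lit 195) r6_65 r1_195 (nat_lit 0) (nat_lit 0) (nat_lit 0) (nat_lit 0x7d8beb23c2) (nat_lit 1204281000),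
  Rx.mk (nat_lit 89) (nat_lit 1) (nat_lit 3) (nat_lit 1) (nat_lit 7) (nat_lit 67) (nat_lit 196) r6_67 r1_196 (nat_lit 0) (nat_lit 0) (nat_lit 0) (nat_lit 0x7df3680b8c) (nat_lit 1005853680),
  Rx.mk (nat_lit 90) (nat_lit 2) (nat_lit 3) (nat_lit 1) (nat_lit 7) (nat_lit 70) (nat_lit 197) r6_70 r1_197 (nat_lit 0) (nat_lit 0) (nat_lit 0) (nat_lit 0x7dd2126108) (nat_lit 1069769376)]
noncomputable def e11_8 : List Rx := [
  Rx.mk (nat_lit 88) (nat_lit 0) (nat_lit 3) (nat_lit 1) (nat_lit 6) (nat_lit 73) (nat_lit 170) r6_73 r4_170 (nat_lit 0) (nat_lit 0) (nat_lit 0) (nat_lit 0x7e444b5d06) (nat_lit 850759416),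
  Rx.mk (nat_lit 89) (nat_lit 1) (nat_lit 3) (nat_lit 1) (nat_lit 7) (nat_lit 76) (nat_lit 172) r6_76 r4_172 (nat_lit 0) (nat_lit 0) (nat_lit 0) (nat_lit 0x7df13cce42) (nat_lit 1010012328),
  Rx.mk (nat_lit 90) (nat_lit 2) (nat_lit 3) (nat_lit 1) (nat_lit 7) (nat_lit 77) (nat_lit 173) r6_77 r4_173 (nat_lit 0) (nat_lit 0) (nat_lit 0) (nat_lit 0x7dcf6e0b50) (nat_lit 1074835008),
  Rx.mk (nat_lit 320) (nat_lit 0) (nat_lit 0) (nat_lit 5) (nat_lit 4) (nat_lit 71) (nat_lit 167) r6_71 r4_167 (nat_lit 0) (nat_lit 0) (nat_lit 0) (nat_lit 0x6ce30222fc) (nat_lit 9381803184),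
  Rx.mk (nat_lit 321) (nat_lit 1) (nat_lit 0) (nat_lit 5) (nat_lit 5) (nat_lit 74) (nat_lit 168) r6_74 r4_168 (nat_lit 0) (nat_lit 0) (nat_lit 0) (nat_lit 0x7cb6e0d53c) (nat_lit 1612763568),
  Rx.mk (nat_lit 344) (nat_lit 0) (nat_lit 3) (nat_lit 5) (nat_lit 6) (nat_lit 72) (nat_lit 169) r6_72 r4_169 (nat_lit 0) (nat_lit 0) (nat_lit 0) (nat_lit 0x7e5529ef0c) (nat_lit 818414064),
  Rx.mk (nat_lit 345) (nat_lit 1) (nat_lit 3) (nat_lit 5) (nat_lit 7) (nat_lit 75) (nat_lit 171) r6_75 r4_171 (nat_lit 0) (nat_lit 0) (nat_lit 0) (nat_lit 0x7e5e361e40) (nat_lit 801066240)]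
noncomputable def e11_9 : List Rx := [
  Rx.mk (nat_lit 280) (nat_lit 0) (nat_lit 3) (nat_lit 4) (nat_lit 2) (nat_lit 78) (nat_lit 106) r6_78 r5_106 (nat_lit 0) (nat_lit 0) (nat_lit 0) (nat_lit 0x75d0a39ff6) (nat_lit 4999343544),
  Rx.mk (nat_lit 281) (nat_lit 1) (nat_lit 3) (nat_lit 4) (nat_lit 3) (nat_lit 81) (nat_lit 109) r6_81 r5_109 (nat_lit 0) (nat_lit 0) (nat_lit 0) (nat_lit 0x7e658ba8e0) (nat_lit 787003776),
  Rx.mk (nat_lit 283) (nat_lit 3) (nat_lit 3) (nat_lit 4) (nat_lit 3) (nat_lit 86) (nat_lit 112) r6_86 r5_112 (nat_lit 0) (nat_lit 0) (nat_lit 0) (nat_lit 0x7dc43a5e96) (nat_lit 1096313400),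
  Rx.mk (nat_lit 315) (nat_lit 3) (nat_lit 7) (nat_lit 4) (nat_lit 3) (nat_lit 84) (nat_lit 114) r6_84 r5_114 (nat_lit 0) (nat_lit 0) (nat_lit 0) (nat_lit 0x7e9d322e40) (nat_lit 680299776),
  Rx.mk (nat_lit 344) (nat_lit 0) (nat_lit 3) (nat_lit 5) (nat_lit 6) (nat_lit 79) (nat_lit 107) r6_79 r5_107 (nat_lit 0) (nat_lit 0) (nat_lit 0) (nat_lit 0x7e3c4d7cec) (nat_lit 866082672),
  Rx.mk (nat_lit 345) (nat_lit 1) (nat_lit 3) (nat_lit 5) (nat_lit 7) (nat_lit 82) (nat_lit 110) r6_82 r5_110 (nat_lit 0) (nat_lit 0) (nat_lit 0) (nat_lit 0x7dd032df02) (nat_lit 1073360808),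
  Rx.mk (nat_lit 347) (nat_lit 3) (nat_lit 3) (nat_lit 5) (nat_lit 7) (nat_lit 87) (nat_lit 113) r6_87 r5_113 (nat_lit 0) (nat_lit 0) (nat_lit 0) (nat_lit 0x7dd8ca1586) (nat_lit 1056889080),
  Rx.mk (nat_lit 379) (nat_lit 3) (nat_lit 7) (nat_lit 5) (nat_lit 7) (nat_lit 85) (nat_lit 115) r6_85 r5_115 (nat_lit 0) (nat_lit 0) (nat_lit 0) (nat_lit 0x7e6dd4e444) (nat_lit 771116112),
  Rx.mk (nat_lit 472) (nat_lit 0) (nat_lit 3) (nat_lit 7) (nat_lit 6) (nat_lit 80) (nat_lit 108) r6_80 r5_108 (nat_lit 0) (nat_lit 0) (nat_lit 0) (nat_lit 0x7e7262db60) (nat_lit 762383232),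
  Rx.mk (nat_lit 473) (nat_lit 1) (nat_lit 3) (nat_lit 7) (nat_lit 7) (nat_lit 83) (nat_lit 111) r6_83 r5_111 (nat_lit 0) (nat_lit 0) (nat_lit 0) (nat_lit 0x7e468179a2) (nat_lit 846519336)]
noncomputable def e11_10 : List Rx := [
  Rx.mk (nat_lit 295) (nat_lit 7) (nat_lit 4) (nat_lit 4) (nat_lit 1) (nat_lit 96) (nat_lit 100) r6_96 r0_100 (nat_lit 0) (nat_lit 0) (nat_lit 0) (nat_lit 0x5b048c5c38) (nat_lit 18152855136),
  Rx.mk (nat_lit 319) (nat_lit 7) (nat_lit 7) (nat_lit 4) (nat_lit 3) (nat_lit 99) (nat_lit 101) r6_99 r0_101 (nat_lit 0) (nat_lit 0) (nat_lit 0) (nat_lit 0x777f139748) (nat_lit 4174024608),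
  Rx.mk (nat_lit 420) (nat_lit 4) (nat_lit 4) (nat_lit 6) (nat_lit 4) (nat_lit 93) (nat_lit 105) r6_93 r0_105 (nat_lit 0) (nat_lit 0) (nat_lit 0) (nat_lit 0x66b9ed9a6e) (nat_lit 12405690648),
  Rx.mk (nat_lit 423) (nat_lit 7) (nat_lit 4) (nat_lit 6) (nat_lit 5) (nat_lit 97) (nat_lit 106) r6_97 r0_106 (nat_lit 0) (nat_lit 0) (nat_lit 0) (nat_lit 0x77e3aa8d74) (nat_lit 3981154320),
  Rx.mk (nat_lit 436) (nat_lit 4) (nat_lit 6) (nat_lit 6) (nat_lit 6) (nat_lit 94) (nat_lit 108) r6_94 r0_108 (nat_lit 0) (nat_lit 0) (nat_lit 0) (nat_lit 0x78a031444c) (nat_lit 3619674864),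
  Rx.mk (nat_lit 438) (nat_lit 6) (nat_lit 6) (nat_lit 6) (nat_lit 7) (nat_lit 95) (nat_lit 110) r6_95 r0_110 (nat_lit 0) (nat_lit 0) (nat_lit 0) (nat_lit 0x7d5af3b36a) (nat_lit 1298169288),
  Rx.mk (nat_lit 439) (nat_lit 7) (nat_lit 6) (nat_lit 6) (nat_lit 7) (nat_lit 98) (nat_lit 109) r6_98 r0_109 (nat_lit 0) (nat_lit 0) (nat_lit 0) (nat_lit 0x7de57b0a6a) (nat_lit 1032554952),
  Rx.mk (nat_lit 447) (nat_lit 7) (nat_lit 7) (nat_lit 6) (nat_lit 7) (nat_lit 100) (nat_lit 107) r6_100 r0_107 (nat_lit 0) (nat_lit 0) (nat_lit 0) (nat_lit 0x7e027b5a48) (nat_lit 976948128),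
  Rx.mk (nat_lit 475) (nat_lit 3) (nat_lit 3) (nat_lit 7) (nat_lit 7) (nat_lit 103) (nat_lit 104) r6_103 r0_104 (nat_lit 0) (nat_lit 0) (nat_lit 0) (nat_lit 0x7defce8528) (nat_lit 1012755744),
  Rx.mk (nat_lit 507) (nat_lit 3) (nat_lit 7) (nat_lit 7) (nat_lit 7) (nat_lit 102) (nat_lit 103) r6_102 r0_103 (nat_lit 0) (nat_lit 0) (nat_lit 0) (nat_lit 0x7df18ca944) (nat_lit 1009414224),
  Rx.mk (nat_lit 511) (nat_lit 7) (nat_lit 7) (nat_lit 7) (nat_lit 7) (nat_lit 101) (nat_lit 102) r6_101 r0_102 (nat_lit 0) (nat_lit 0) (nat_lit 0) (nat_lit 0x7cd66efc3a) (nat_lit 1552259592)]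
noncomputable def e11_11 : List Rx := [
  Rx.mk (nat_lit 2) (nat_lit 2) (nat_lit 0) (nat_lit 0) (nat_lit 1) (nat_lit 117) (nat_lit 109) r6_117 r6_109 (nat_lit 0) (nat_lit 0) (nat_lit 0) (nat_lit 0x6fddb01522) (nat_lit 7919444520),
  Rx.mk (nat_lit 18) (nat_lit 2) (nat_lit 2) (nat_lit 0) (nat_lit 3) (nat_lit 119) (nat_lit 112) r6_119 r6_112 (nat_lit 0) (nat_lit 0) (nat_lit 0) (nat_lit 0x7c81394fea) (nat_lit 1715640264),
  Rx.mk (nat_lit 146) (nat_lit 2) (nat_lit 2) (nat_lit 2) (nat_lit 7) (nat_lit 120) (nat_lit 114) r6_120 r6_114 (nat_lit 0) (nat_lit 0) (nat_lit 0) (nat_lit 0x7d97af2776) (nat_lit 1181721528),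
  Rx.mk (nat_lit 150) (nat_lit 6) (nat_lit 2) (nat_lit 2) (nat_lit 7) (nat_lit 108) (nat_lit 123) r6_108 r6_123 (nat_lit 0) (nat_lit 0) (nat_lit 0) (nat_lit 0x7de3119104) (nat_lit 1037179728),
  Rx.mk (nat_lit 182) (nat_lit 6) (nat_lit 6) (nat_lit 2) (nat_lit 7) (nat_lit 107) (nat_lit 124) r6_107 r6_124 (nat_lit 0) (nat_lit 0) (nat_lit 0) (nat_lit 0x7de3119104) (nat_lit 1037179728),
  Rx.mk (nat_lit 192) (nat_lit 0) (nat_lit 0) (nat_lit 3) (nat_lit 4) (nat_lit 115) (nat_lit 104) r6_115 r6_104 (nat_lit 0) (nat_lit 0) (nat_lit 0) (nat_lit 0x6fddb01522) (nat_lit 7919444520),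
  Rx.mk (nat_lit 194) (nat_lit 2) (nat_lit 0) (nat_lit 3) (nat_lit 5) (nat_lit 118) (nat_lit 110) r6_118 r6_110 (nat_lit 0) (nat_lit 0) (nat_lit 0) (nat_lit 0x7bf4691d7a) (nat_lit 1985635080),
  Rx.mk (nat_lit 210) (nat_lit 2) (nat_lit 2) (nat_lit 3) (nat_lit 7) (nat_lit 121) (nat_lit 113) r6_121 r6_113 (nat_lit 0) (nat_lit 0) (nat_lit 0) (nat_lit 0x7de64f3d26) (nat_lit 1030965624),
  Rx.mk (nat_lit 216) (nat_lit 0) (nat_lit 3) (nat_lit 3) (nat_lit 6) (nat_lit 116) (nat_lit 105) r6_116 r6_105 (nat_lit 0) (nat_lit 0) (nat_lit 0) (nat_lit 0x7c81394fea) (nat_lit 1715640264),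
  Rx.mk (nat_lit 218) (nat_lit 2) (nat_lit 3) (nat_lit 3) (nat_lit 7) (nat_lit 122) (nat_lit 111) r6_122 r6_111 (nat_lit 0) (nat_lit 0) (nat_lit 0) (nat_lit 0x7de64f3d26) (nat_lit 1030965624),
  Rx.mk (nat_lit 219) (nat_lit 3) (nat_lit 3) (nat_lit 3) (nat_lit 7) (nat_lit 125) (nat_lit 106) r6_125 r6_106 (nat_lit 0) (nat_lit 0) (nat_lit 0) (nat_lit 0x7d97af2776) (nat_lit 1181721528),
  Rx.mk (nat_lit 295) (nat_lit 7) (nat_lit 4) (nat_lit 4) (nat_lit 1) (nat_lit 109) (nat_lit 117) r6_109 r6_117 (nat_lit 0) (nat_lit 0) (nat_lit 0) (nat_lit 0x6fddb01522) (nat_lit 7919444520),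
  Rx.mk (nat_lit 319) (nat_lit 7) (nat_lit 7) (nat_lit 4) (nat_lit 3) (nat_lit 112) (nat_lit 119) r6_112 r6_119 (nat_lit 0) (nat_lit 0) (nat_lit 0) (nat_lit 0x7c81394fea) (nat_lit 1715640264),
  Rx.mk (nat_lit 420) (nat_lit 4) (nat_lit 4) (nat_lit 6) (nat_lit 4) (nat_lit 104) (nat_lit 115) r6_104 r6_115 (nat_lit 0) (nat_lit 0) (nat_lit 0) (nat_lit 0x6fddb01522) (nat_lit 7919444520),
  Rx.mk (nat_lit 423) (nat_lit 7) (nat_lit 4) (nat_lit 6) (nat_lit 5) (nat_lit 110) (nat_lit 118) r6_110 r6_118 (nat_lit 0) (nat_lit 0) (nat_lit 0) (nat_lit 0x7bf4691d7a) (nat_lit 1985635080),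
  Rx.mk (nat_lit 436) (nat_lit 4) (nat_lit 6) (nat_lit 6) (nat_lit 6) (nat_lit 105) (nat_lit 116) r6_105 r6_116 (nat_lit 0) (nat_lit 0) (nat_lit 0) (nat_lit 0x7c81394fea) (nat_lit 1715640264),
  Rx.mk (nat_lit 438) (nat_lit 6) (nat_lit 6) (nat_lit 6) (nat_lit 7) (nat_lit 106) (nat_lit 125) r6_106 r6_125 (nat_lit 0) (nat_lit 0) (nat_lit 0) (nat_lit 0x7d97af2776) (nat_lit 1181721528),
  Rx.mk (nat_lit 439) (nat_lit 7) (nat_lit 6) (nat_lit 6) (nat_lit 7) (nat_lit 111) (nat_lit 122) r6_111 r6_122 (nat_lit 0) (nat_lit 0) (nat_lit 0) (nat_lit 0x7de64f3d26) (nat_lit 1030965624),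
  Rx.mk (nat_lit 447) (nat_lit 7) (nat_lit 7) (nat_lit 6) (nat_lit 7) (nat_lit 113) (nat_lit 121) r6_113 r6_121 (nat_lit 0) (nat_lit 0) (nat_lit 0) (nat_lit 0x7de64f3d26) (nat_lit 1030965624),
  Rx.mk (nat_lit 475) (nat_lit 3) (nat_lit 3) (nat_lit 7) (nat_lit 7) (nat_lit 124) (nat_lit 107) r6_124 r6_107 (nat_lit 0) (nat_lit 0) (nat_lit 0) (nat_lit 0x7de3119104) (nat_lit 1037179728),
  Rx.mk (nat_lit 507) (nat_lit 3) (nat_lit 7) (nat_lit 7) (nat_lit 7) (nat_lit 123) (nat_lit 108) r6_123 r6_108 (nat_lit 0) (nat_lit 0) (nat_lit 0) (nat_lit 0x7de3119104) (nat_lit 1037179728),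
  Rx.mk (nat_lit 511) (nat_lit 7) (nat_lit 7) (nat_lit 7) (nat_lit 7) (nat_lit 114) (nat_lit 120) r6_114 r6_120 (nat_lit 0) (nat_lit 0) (nat_lit 0) (nat_lit 0x7d97af2776) (nat_lit 1181721528)]
noncomputable def e11_12 : List Rx := [
  Rx.mk (nat_lit 292) (nat_lit 4) (nat_lit 4) (nat_lit 4) (nat_lit 0) (nat_lit 126) (nat_lit 107) r6_126 r1_107 (nat_lit 0) (nat_lit 0) (nat_lit 0) (nat_lit 0x55073477b4) (nat_lit 21092881680),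
  Rx.mk (nat_lit 295) (nat_lit 7) (nat_lit 4) (nat_lit 4) (nat_lit 1) (nat_lit 130) (nat_lit 108) r6_130 r1_108 (nat_lit 0) (nat_lit 0) (nat_lit 0) (nat_lit 0x6c89b37840) (nat_lit 9553040640),
  Rx.mk (nat_lit 319) (nat_lit 7) (nat_lit 7) (nat_lit 4) (nat_lit 3) (nat_lit 133) (nat_lit 109) r6_133 r1_109 (nat_lit 0) (nat_lit 0) (nat_lit 0) (nat_lit 0x7c894ceea8) (nat_lit 1700154144),
  Rx.mk (nat_lit 420) (nat_lit 4) (nat_lit 4) (nat_lit 6) (nat_lit 4) (nat_lit 127) (nat_lit 111) r6_127 r1_111 (nat_lit 0) (nat_lit 0) (nat_lit 0) (nat_lit 0x67e0964ebc) (nat_lit 11840712624),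
  Rx.mk (nat_lit 423) (nat_lit 7) (nat_lit 4) (nat_lit 6) (nat_lit 5) (nat_lit 131) (nat_lit 112) r6_131 r1_112 (nat_lit 0) (nat_lit 0) (nat_lit 0) (nat_lit 0x7d6284da50) (nat_lit 1283660352),
  Rx.mk (nat_lit 436) (nat_lit 4) (nat_lit 6) (nat_lit 6) (nat_lit 6) (nat_lit 128) (nat_lit 114) r6_128 r1_114 (nat_lit 0) (nat_lit 0) (nat_lit 0) (nat_lit 0x6d67741b58) (nat_lit 9127853280),
  Rx.mk (nat_lit 438) (nat_lit 6) (nat_lit 6) (nat_lit 6) (nat_lit 7) (nat_lit 129) (nat_lit 116) r6_129 r1_116 (nat_lit 0) (nat_lit 0) (nat_lit 0) (nat_lit 0x7ce256fdae) (nat_lit 1529430552),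
  Rx.mk (nat_lit 439) (nat_lit 7) (nat_lit 6) (nat_lit 6) (nat_lit 7) (nat_lit 132) (nat_lit 115) r6_132 r1_115 (nat_lit 0) (nat_lit 0) (nat_lit 0) (nat_lit 0x7da9ea63b0) (nat_lit 1146764736),
  Rx.mk (nat_lit 447) (nat_lit 7) (nat_lit 7) (nat_lit 6) (nat_lit 7) (nat_lit 134) (nat_lit 113) r6_134 r1_113 (nat_lit 0) (nat_lit 0) (nat_lit 0) (nat_lit 0x7de1bde640) (nat_lit 1039723776),
  Rx.mk (nat_lit 511) (nat_lit 7) (nat_lit 7) (nat_lit 7) (nat_lit 7) (nat_lit 135) (nat_lit 110) r6_135 r1_110 (nat_lit 0) (nat_lit 0) (nat_lit 0) (nat_lit 0x7de4f8f28c) (nat_lit 1033529328)]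
noncomputable def e11_13 : List Rx := [
  Rx.mk (nat_lit 150) (nat_lit 6) (nat_lit 2) (nat_lit 2) (nat_lit 7) (nat_lit 141) (nat_lit 87) r6_141 r7_87 (nat_lit 0) (nat_lit 0) (nat_lit 0) (nat_lit 0x7df4627be4) (nat_lit 1003977936),
  Rx.mk (nat_lit 182) (nat_lit 6) (nat_lit 6) (nat_lit 2) (nat_lit 7) (nat_lit 140) (nat_lit 88) r6_140 r7_88 (nat_lit 0) (nat_lit 0) (nat_lit 0) (nat_lit 0x7de5d2c4ee) (nat_lit 1031897880),
  Rx.mk (nat_lit 292) (nat_lit 4) (nat_lit 4) (nat_lit 4) (nat_lit 0) (nat_lit 136) (nat_lit 78) r6_136 r7_78 (nat_lit 0) (nat_lit 0) (nat_lit 0) (nat_lit 0x1522d75d6e) (nat_lit 52454509848),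
  Rx.mk (nat_lit 295) (nat_lit 7) (nat_lit 4) (nat_lit 4) (nat_lit 1) (nat_lit 142) (nat_lit 81) r6_142 r7_81 (nat_lit 0) (nat_lit 0) (nat_lit 0) (nat_lit 0x5f26a1d6be) (nat_lit 16124089176),
  Rx.mk (nat_lit 319) (nat_lit 7) (nat_lit 7) (nat_lit 4) (nat_lit 3) (nat_lit 145) (nat_lit 83) r6_145 r7_83 (nat_lit 0) (nat_lit 0) (nat_lit 0) (nat_lit 0x7cf5e524b8) (nat_lit 1491935328),
  Rx.mk (nat_lit 420) (nat_lit 4) (nat_lit 4) (nat_lit 6) (nat_lit 4) (nat_lit 137) (nat_lit 79) r6_137 r7_79 (nat_lit 0) (nat_lit 0) (nat_lit 0) (nat_lit 0x4c4a1c91f0) (nat_lit 25382275776),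
  Rx.mk (nat_lit 423) (nat_lit 7) (nat_lit 4) (nat_lit 6) (nat_lit 5) (nat_lit 143) (nat_lit 82) r6_143 r7_82 (nat_lit 0) (nat_lit 0) (nat_lit 0) (nat_lit 0x7d7099f8f0) (nat_lit 1256658624),
  Rx.mk (nat_lit 436) (nat_lit 4) (nat_lit 6) (nat_lit 6) (nat_lit 6) (nat_lit 138) (nat_lit 80) r6_138 r7_80 (nat_lit 0) (nat_lit 0) (nat_lit 0) (nat_lit 0x7cc30772c6) (nat_lit 1589465592),
  Rx.mk (nat_lit 438) (nat_lit 6) (nat_lit 6) (nat_lit 6) (nat_lit 7) (nat_lit 139) (nat_lit 89) r6_139 r7_89 (nat_lit 0) (nat_lit 0) (nat_lit 0) (nat_lit 0x7d97b946d4) (nat_lit 1181645712),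
  Rx.mk (nat_lit 439) (nat_lit 7) (nat_lit 6) (nat_lit 6) (nat_lit 7) (nat_lit 144) (nat_lit 86) r6_144 r7_86 (nat_lit 0) (nat_lit 0) (nat_lit 0) (nat_lit 0x7da9f1833e) (nat_lit 1146711384),
  Rx.mk (nat_lit 447) (nat_lit 7) (nat_lit 7) (nat_lit 6) (nat_lit 7) (nat_lit 146) (nat_lit 85) r6_146 r7_85 (nat_lit 0) (nat_lit 0) (nat_lit 0) (nat_lit 0x7de9a4e7c8) (nat_lit 1024571808),
  Rx.mk (nat_lit 511) (nat_lit 7) (nat_lit 7) (nat_lit 7) (nat_lit 7) (nat_lit 147) (nat_lit 84) r6_147 r7_84 (nat_lit 0) (nat_lit 0) (nat_lit 0) (nat_lit 0x7daf4b6d9a) (nat_lit 1136450952)]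
noncomputable def e11_14 : List Rx := [
  Rx.mk (nat_lit 0) (nat_lit 0) (nat_lit 0) (nat_lit 0) (nat_lit 0) (nat_lit 150) (nat_lit 78) r6_150 r7_78 (nat_lit 0) (nat_lit 0) (nat_lit 0) (nat_lit 0x1522d75d6e) (nat_lit 52454509848),
  Rx.mk (nat_lit 2) (nat_lit 2) (nat_lit 0) (nat_lit 0) (nat_lit 1) (nat_lit 153) (nat_lit 79) r6_153 r7_79 (nat_lit 0) (nat_lit 0) (nat_lit 0) (nat_lit 0x4c4a1c91f0) (nat_lit 25382275776),
  Rx.mk (nat_lit 18) (nat_lit 2) (nat_lit 2) (nat_lit 0) (nat_lit 3) (nat_lit 155) (nat_lit 80) r6_155 r7_80 (nat_lit 0) (nat_lit 0) (nat_lit 0) (nat_lit 0x7cc30772c6) (nat_lit 1589465592),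
  Rx.mk (nat_lit 146) (nat_lit 2) (nat_lit 2) (nat_lit 2) (nat_lit 7) (nat_lit 156) (nat_lit 89) r6_156 r7_89 (nat_lit 0) (nat_lit 0) (nat_lit 0) (nat_lit 0x7d97b946d4) (nat_lit 1181645712),
  Rx.mk (nat_lit 150) (nat_lit 6) (nat_lit 2) (nat_lit 2) (nat_lit 7) (nat_lit 149) (nat_lit 88) r6_149 r7_88 (nat_lit 0) (nat_lit 0) (nat_lit 0) (nat_lit 0x7de5d2c4ee) (nat_lit 1031897880),
  Rx.mk (nat_lit 182) (nat_lit 6) (nat_lit 6) (nat_lit 2) (nat_lit 7) (nat_lit 148) (nat_lit 87) r6_148 r7_87 (nat_lit 0) (nat_lit 0) (nat_lit 0) (nat_lit 0x7df4627be4) (nat_lit 1003977936),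
  Rx.mk (nat_lit 192) (nat_lit 0) (nat_lit 0) (nat_lit 3) (nat_lit 4) (nat_lit 151) (nat_lit 81) r6_151 r7_81 (nat_lit 0) (nat_lit 0) (nat_lit 0) (nat_lit 0x5f26a1d6be) (nat_lit 16124089176),
  Rx.mk (nat_lit 194) (nat_lit 2) (nat_lit 0) (nat_lit 3) (nat_lit 5) (nat_lit 154) (nat_lit 82) r6_154 r7_82 (nat_lit 0) (nat_lit 0) (nat_lit 0) (nat_lit 0x7d7099f8f0) (nat_lit 1256658624),
  Rx.mk (nat_lit 210) (nat_lit 2) (nat_lit 2) (nat_lit 3) (nat_lit 7) (nat_lit 157) (nat_lit 86) r6_157 r7_86 (nat_lit 0) (nat_lit 0) (nat_lit 0) (nat_lit 0x7da9f1833e) (nat_lit 1146711384),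
  Rx.mk (nat_lit 216) (nat_lit 0) (nat_lit 3) (nat_lit 3) (nat_lit 6) (nat_lit 152) (nat_lit 83) r6_152 r7_83 (nat_lit 0) (nat_lit 0) (nat_lit 0) (nat_lit 0x7cf5e524b8) (nat_lit 1491935328),
  Rx.mk (nat_lit 218) (nat_lit 2) (nat_lit 3) (nat_lit 3) (nat_lit 7) (nat_lit 158) (nat_lit 85) r6_158 r7_85 (nat_lit 0) (nat_lit 0) (nat_lit 0) (nat_lit 0x7de9a4e7c8) (nat_lit 1024571808),
  Rx.mk (nat_lit 219) (nat_lit 3) (nat_lit 3) (nat_lit 3) (nat_lit 7) (nat_lit 159) (nat_lit 84) r6_159 r7_84 (nat_lit 0) (nat_lit 0) (nat_lit 0) (nat_lit 0x7daf4b6d9a) (nat_lit 1136450952)]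
noncomputable def e11_15 : List Rx := [
  Rx.mk (nat_lit 0) (nat_lit 0) (nat_lit 0) (nat_lit 0) (nat_lit 0) (nat_lit 161) (nat_lit 68) r6_161 r8_68 (nat_lit 0) (nat_lit 0) (nat_lit 0) (nat_lit 0x1096296cda) (nat_lit 54687661704),
  Rx.mk (nat_lit 2) (nat_lit 2) (nat_lit 0) (nat_lit 0) (nat_lit 1) (nat_lit 166) (nat_lit 74) r6_166 r8_74 (nat_lit 0) (nat_lit 0) (nat_lit 0) (nat_lit 0x5019957692) (nat_lit 23511909096),
  Rx.mk (nat_lit 18) (nat_lit 2) (nat_lit 2) (nat_lit 0) (nat_lit 3) (nat_lit 168) (nat_lit 79) r6_168 r8_79 (nat_lit 0) (nat_lit 0) (nat_lit 0) (nat_lit 0x7d16a3b8ae) (nat_lit 1429151256),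
  Rx.mk (nat_lit 24) (nat_lit 0) (nat_lit 3) (nat_lit 0) (nat_lit 2) (nat_lit 163) (nat_lit 70) r6_163 r8_70 (nat_lit 0) (nat_lit 0) (nat_lit 0) (nat_lit 0x6a853e8194) (nat_lit 10543293072),
  Rx.mk (nat_lit 26) (nat_lit 2) (nat_lit 3) (nat_lit 0) (nat_lit 3) (nat_lit 171) (nat_lit 76) r6_171 r8_76 (nat_lit 0) (nat_lit 0) (nat_lit 0) (nat_lit 0x7d87fec28c) (nat_lit 1211803632),
  Rx.mk (nat_lit 64) (nat_lit 0) (nat_lit 0) (nat_lit 1) (nat_lit 4) (nat_lit 162) (nat_lit 69) r6_162 r8_69 (nat_lit 0) (nat_lit 0) (nat_lit 0) (nat_lit 0x71f61f2c18) (nat_lit 6890888160),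
  Rx.mk (nat_lit 66) (nat_lit 2) (nat_lit 0) (nat_lit 1) (nat_lit 5) (nat_lit 167) (nat_lit 75) r6_167 r8_75 (nat_lit 0) (nat_lit 0) (nat_lit 0) (nat_lit 0x7dd000422c) (nat_lit 1073739888),
  Rx.mk (nat_lit 82) (nat_lit 2) (nat_lit 2) (nat_lit 1) (nat_lit 7) (nat_lit 169) (nat_lit 80) r6_169 r8_80 (nat_lit 0) (nat_lit 0) (nat_lit 0) (nat_lit 0x7de0fcd252) (nat_lit 1041169896),
  Rx.mk (nat_lit 88) (nat_lit 0) (nat_lit 3) (nat_lit 1) (nat_lit 6) (nat_lit 164) (nat_lit 71) r6_164 r8_71 (nat_lit 0) (nat_lit 0) (nat_lit 0) (nat_lit 0x7dc10491f6) (nat_lit 1102468536),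
  Rx.mk (nat_lit 90) (nat_lit 2) (nat_lit 3) (nat_lit 1) (nat_lit 7) (nat_lit 172) (nat_lit 77) r6_172 r8_77 (nat_lit 0) (nat_lit 0) (nat_lit 0) (nat_lit 0x7deecab566) (nat_lit 1014701688),
  Rx.mk (nat_lit 146) (nat_lit 2) (nat_lit 2) (nat_lit 2) (nat_lit 7) (nat_lit 170) (nat_lit 81) r6_170 r8_81 (nat_lit 0) (nat_lit 0) (nat_lit 0) (nat_lit 0x7dc460fc2c) (nat_lit 1096024176),
  Rx.mk (nat_lit 150) (nat_lit 6) (nat_lit 2) (nat_lit 2) (nat_lit 7) (nat_lit 160) (nat_lit 82) r6_160 r8_82 (nat_lit 0) (nat_lit 0) (nat_lit 0) (nat_lit 0x7ddda00822) (nat_lit 1047617064),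
  Rx.mk (nat_lit 216) (nat_lit 0) (nat_lit 3) (nat_lit 3) (nat_lit 6) (nat_lit 165) (nat_lit 72) r6_165 r8_72 (nat_lit 0) (nat_lit 0) (nat_lit 0) (nat_lit 0x7c9b768bfc) (nat_lit 1665329328),
  Rx.mk (nat_lit 218) (nat_lit 2) (nat_lit 3) (nat_lit 3) (nat_lit 7) (nat_lit 173) (nat_lit 78) r6_173 r8_78 (nat_lit 0) (nat_lit 0) (nat_lit 0) (nat_lit 0x7de3b0e70e) (nat_lit 1035986328),
  Rx.mk (nat_lit 219) (nat_lit 3) (nat_lit 3) (nat_lit 3) (nat_lit 7) (nat_lit 174) (nat_lit 73) r6_174 r8_73 (nat_lit 0) (nat_lit 0) (nat_lit 0) (nat_lit 0x7de7e5a3be) (nat_lit 1027921752)]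
noncomputable def e11_16 : List Rx := [
  Rx.mk (nat_lit 295) (nat_lit 7) (nat_lit 4) (nat_lit 4) (nat_lit 1) (nat_lit 175) (nat_lit 98) r6_175 r4_98 (nat_lit 0) (nat_lit 0) (nat_lit 0) (nat_lit 0x666c24b74a) (nat_lit 12554834760),
  Rx.mk (nat_lit 315) (nat_lit 3) (nat_lit 7) (nat_lit 4) (nat_lit 3) (nat_lit 181) (nat_lit 100) r6_181 r4_100 (nat_lit 0) (nat_lit 0) (nat_lit 0) (nat_lit 0x7dd0537cf8) (nat_lit 1073116512),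
  Rx.mk (nat_lit 319) (nat_lit 7) (nat_lit 7) (nat_lit 4) (nat_lit 3) (nat_lit 178) (nat_lit 99) r6_178 r4_99 (nat_lit 0) (nat_lit 0) (nat_lit 0) (nat_lit 0x7e8603014a) (nat_lit 724753224),
  Rx.mk (nat_lit 423) (nat_lit 7) (nat_lit 4) (nat_lit 6) (nat_lit 5) (nat_lit 176) (nat_lit 104) r6_176 r4_104 (nat_lit 0) (nat_lit 0) (nat_lit 0) (nat_lit 0x7d86242038) (nat_lit 1215358560),
  Rx.mk (nat_lit 439) (nat_lit 7) (nat_lit 6) (nat_lit 6) (nat_lit 7) (nat_lit 177) (nat_lit 106) r6_177 r4_106 (nat_lit 0) (nat_lit 0) (nat_lit 0) (nat_lit 0x7df79428c6) (nat_lit 997853688),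
  Rx.mk (nat_lit 447) (nat_lit 7) (nat_lit 7) (nat_lit 6) (nat_lit 7) (nat_lit 179) (nat_lit 105) r6_179 r4_105 (nat_lit 0) (nat_lit 0) (nat_lit 0) (nat_lit 0x7e6a93d858) (nat_lit 777355488),
  Rx.mk (nat_lit 472) (nat_lit 0) (nat_lit 3) (nat_lit 7) (nat_lit 6) (nat_lit 180) (nat_lit 102) r6_180 r4_102 (nat_lit 0) (nat_lit 0) (nat_lit 0) (nat_lit 0x7e14d85466) (nat_lit 941738616),
  Rx.mk (nat_lit 475) (nat_lit 3) (nat_lit 3) (nat_lit 7) (nat_lit 7) (nat_lit 183) (nat_lit 103) r6_183 r4_103 (nat_lit 0) (nat_lit 0) (nat_lit 0) (nat_lit 0x7dd10471e8) (nat_lit 1071791136),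
  Rx.mk (nat_lit 507) (nat_lit 3) (nat_lit 7) (nat_lit 7) (nat_lit 7) (nat_lit 182) (nat_lit 101) r6_182 r4_101 (nat_lit 0) (nat_lit 0) (nat_lit 0) (nat_lit 0x7df1d384d6) (nat_lit 1008883512)]
noncomputable def e11_17 : List Rx := [
  Rx.mk (nat_lit 192) (nat_lit 0) (nat_lit 0) (nat_lit 3) (nat_lit 4) (nat_lit 189) (nat_lit 82) r6_189 r9_82 (nat_lit 0) (nat_lit 0) (nat_lit 0) (nat_lit 0x7664114888) (nat_lit 4716664992),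
  Rx.mk (nat_lit 194) (nat_lit 2) (nat_lit 0) (nat_lit 3) (nat_lit 5) (nat_lit 192) (nat_lit 88) r6_192 r9_88 (nat_lit 0) (nat_lit 0) (nat_lit 0) (nat_lit 0x7d1458fd5c) (nat_lit 1433545776),
  Rx.mk (nat_lit 210) (nat_lit 2) (nat_lit 2) (nat_lit 3) (nat_lit 7) (nat_lit 193) (nat_lit 90) r6_193 r9_90 (nat_lit 0) (nat_lit 0) (nat_lit 0) (nat_lit 0x7deb8e2932) (nat_lit 1020907368),
  Rx.mk (nat_lit 216) (nat_lit 0) (nat_lit 3) (nat_lit 3) (nat_lit 6) (nat_lit 191) (nat_lit 83) r6_191 r9_83 (nat_lit 0) (nat_lit 0) (nat_lit 0) (nat_lit 0x7df0b276e8) (nat_lit 1011048480),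
  Rx.mk (nat_lit 218) (nat_lit 2) (nat_lit 3) (nat_lit 3) (nat_lit 7) (nat_lit 194) (nat_lit 89) r6_194 r9_89 (nat_lit 0) (nat_lit 0) (nat_lit 0) (nat_lit 0x7decc01612) (nat_lit 1018616040),
  Rx.mk (nat_lit 295) (nat_lit 7) (nat_lit 4) (nat_lit 4) (nat_lit 1) (nat_lit 184) (nat_lit 91) r6_184 r9_91 (nat_lit 0) (nat_lit 0) (nat_lit 0) (nat_lit 0x7664114888) (nat_lit 4716664992),
  Rx.mk (nat_lit 315) (nat_lit 3) (nat_lit 7) (nat_lit 4) (nat_lit 3) (nat_lit 195) (nat_lit 86) r6_195 r9_86 (nat_lit 0) (nat_lit 0) (nat_lit 0) (nat_lit 0x7d9efc12a0) (nat_lit 1167723648),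
  Rx.mk (nat_lit 319) (nat_lit 7) (nat_lit 7) (nat_lit 4) (nat_lit 3) (nat_lit 187) (nat_lit 93) r6_187 r9_93 (nat_lit 0) (nat_lit 0) (nat_lit 0) (nat_lit 0x7df0b276e8) (nat_lit 1011048480),
  Rx.mk (nat_lit 423) (nat_lit 7) (nat_lit 4) (nat_lit 6) (nat_lit 5) (nat_lit 185) (nat_lit 92) r6_185 r9_92 (nat_lit 0) (nat_lit 0) (nat_lit 0) (nat_lit 0x7d1458fd5c) (nat_lit 1433545776),
  Rx.mk (nat_lit 439) (nat_lit 7) (nat_lit 6) (nat_lit 6) (nat_lit 7) (nat_lit 186) (nat_lit 95) r6_186 r9_95 (nat_lit 0) (nat_lit 0) (nat_lit 0) (nat_lit 0x7deb8e2932) (nat_lit 1020907368),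
  Rx.mk (nat_lit 447) (nat_lit 7) (nat_lit 7) (nat_lit 6) (nat_lit 7) (nat_lit 188) (nat_lit 94) r6_188 r9_94 (nat_lit 0) (nat_lit 0) (nat_lit 0) (nat_lit 0x7decc01612) (nat_lit 1018616040),
  Rx.mk (nat_lit 472) (nat_lit 0) (nat_lit 3) (nat_lit 7) (nat_lit 6) (nat_lit 190) (nat_lit 84) r6_190 r9_84 (nat_lit 0) (nat_lit 0) (nat_lit 0) (nat_lit 0x7d9efc12a0) (nat_lit 1167723648),
  Rx.mk (nat_lit 475) (nat_lit 3) (nat_lit 3) (nat_lit 7) (nat_lit 7) (nat_lit 197) (nat_lit 85) r6_197 r9_85 (nat_lit 0) (nat_lit 0) (nat_lit 0) (nat_lit 0x7db9dc0486) (nat_lit 1116194040),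
  Rx.mk (nat_lit 507) (nat_lit 3) (nat_lit 7) (nat_lit 7) (nat_lit 7) (nat_lit 196) (nat_lit 87) r6_196 r9_87 (nat_lit 0) (nat_lit 0) (nat_lit 0) (nat_lit 0x7db9dc0486) (nat_lit 1116194040)]
noncomputable def e11_18 : List Rx := [
  Rx.mk (nat_lit 283) (nat_lit 3) (nat_lit 3) (nat_lit 4) (nat_lit 3) (nat_lit 202) (nat_lit 102) r6_202 r10_102 (nat_lit 0) (nat_lit 0) (nat_lit 0) (nat_lit 0x7d8f376efa) (nat_lit 1197957384),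
  Rx.mk (nat_lit 315) (nat_lit 3) (nat_lit 7) (nat_lit 4) (nat_lit 3) (nat_lit 201) (nat_lit 104) r6_201 r10_104 (nat_lit 0) (nat_lit 0) (nat_lit 0) (nat_lit 0x7dd6555cd4) (nat_lit 1061598096),
  Rx.mk (nat_lit 319) (nat_lit 7) (nat_lit 7) (nat_lit 4) (nat_lit 3) (nat_lit 198) (nat_lit 105) r6_198 r10_105 (nat_lit 0) (nat_lit 0) (nat_lit 0) (nat_lit 0x7d9e0ce194) (nat_lit 1169515152),
  Rx.mk (nat_lit 447) (nat_lit 7) (nat_lit 7) (nat_lit 6) (nat_lit 7) (nat_lit 199) (nat_lit 106) r6_199 r10_106 (nat_lit 0) (nat_lit 0) (nat_lit 0) (nat_lit 0x7da1502d5c) (nat_lit 1163258928),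
  Rx.mk (nat_lit 472) (nat_lit 0) (nat_lit 3) (nat_lit 7) (nat_lit 6) (nat_lit 200) (nat_lit 101) r6_200 r10_101 (nat_lit 0) (nat_lit 0) (nat_lit 0) (nat_lit 0x7de93d0e46) (nat_lit 1025349624),
  Rx.mk (nat_lit 475) (nat_lit 3) (nat_lit 3) (nat_lit 7) (nat_lit 7) (nat_lit 203) (nat_lit 103) r6_203 r10_103 (nat_lit 0) (nat_lit 0) (nat_lit 0) (nat_lit 0x7df1366ea8) (nat_lit 1010060064)]
noncomputable def e11_19 : List Rx := [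
  Rx.mk (nat_lit 0) (nat_lit 0) (nat_lit 0) (nat_lit 0) (nat_lit 0) (nat_lit 204) (nat_lit 170) r6_204 r8_170 (nat_lit 0) (nat_lit 0) (nat_lit 0) (nat_lit 0xca49969cc) (nat_lit 56623393008),
  Rx.mk (nat_lit 2) (nat_lit 2) (nat_lit 0) (nat_lit 0) (nat_lit 1) (nat_lit 210) (nat_lit 172) r6_210 r8_172 (nat_lit 0) (nat_lit 0) (nat_lit 0) (nat_lit 0x700fb7547c) (nat_lit 7823520432),
  Rx.mk (nat_lit 18) (nat_lit 2) (nat_lit 2) (nat_lit 0) (nat_lit 3) (nat_lit 213) (nat_lit 180) r6_213 r8_180 (nat_lit 0) (nat_lit 0) (nat_lit 0) (nat_lit 0x7dd0e0d422) (nat_lit 1072057896),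
  Rx.mk (nat_lit 24) (nat_lit 0) (nat_lit 3) (nat_lit 0) (nat_lit 2) (nat_lit 207) (nat_lit 176) r6_207 r8_176 (nat_lit 0) (nat_lit 0) (nat_lit 0) (nat_lit 0x744f2f58bc) (nat_lit 5738411952),
  Rx.mk (nat_lit 64) (nat_lit 0) (nat_lit 0) (nat_lit 1) (nat_lit 4) (nat_lit 205) (nat_lit 171) r6_205 r8_171 (nat_lit 0) (nat_lit 0) (nat_lit 0) (nat_lit 0x4c79c53736) (nat_lit 25290895032),
  Rx.mk (nat_lit 66) (nat_lit 2) (nat_lit 0) (nat_lit 1) (nat_lit 5) (nat_lit 211) (nat_lit 173) r6_211 r8_173 (nat_lit 0) (nat_lit 0) (nat_lit 0) (nat_lit 0x7dad56ece4) (nat_lit 1140199632),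
  Rx.mk (nat_lit 72) (nat_lit 0) (nat_lit 1) (nat_lit 1) (nat_lit 6) (nat_lit 206) (nat_lit 174) r6_206 r8_174 (nat_lit 0) (nat_lit 0) (nat_lit 0) (nat_lit 0x7d5bdfe4a6) (nat_lit 1296400248),
  Rx.mk (nat_lit 74) (nat_lit 2) (nat_lit 1) (nat_lit 1) (nat_lit 7) (nat_lit 212) (nat_lit 175) r6_212 r8_175 (nat_lit 0) (nat_lit 0) (nat_lit 0) (nat_lit 0x7dd092d902) (nat_lit 1072641960),
  Rx.mk (nat_lit 82) (nat_lit 2) (nat_lit 2) (nat_lit 1) (nat_lit 7) (nat_lit 214) (nat_lit 181) r6_214 r8_181 (nat_lit 0) (nat_lit 0) (nat_lit 0) (nat_lit 0x7dc2a09834) (nat_lit 1099382544),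
  Rx.mk (nat_lit 88) (nat_lit 0) (nat_lit 3) (nat_lit 1) (nat_lit 6) (nat_lit 208) (nat_lit 177) r6_208 r8_177 (nat_lit 0) (nat_lit 0) (nat_lit 0) (nat_lit 0x7dce02c206) (nat_lit 1077555960),
  Rx.mk (nat_lit 146) (nat_lit 2) (nat_lit 2) (nat_lit 2) (nat_lit 7) (nat_lit 215) (nat_lit 182) r6_215 r8_182 (nat_lit 0) (nat_lit 0) (nat_lit 0) (nat_lit 0x7de5019202) (nat_lit 1033464744),
  Rx.mk (nat_lit 216) (nat_lit 0) (nat_lit 3) (nat_lit 3) (nat_lit 6) (nat_lit 209) (nat_lit 178) r6_209 r8_178 (nat_lit 0) (nat_lit 0) (nat_lit 0) (nat_lit 0x7db87bfa88) (nat_lit 1118830752),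
  Rx.mk (nat_lit 219) (nat_lit 3) (nat_lit 3) (nat_lit 3) (nat_lit 7) (nat_lit 216) (nat_lit 179) r6_216 r8_179 (nat_lit 0) (nat_lit 0) (nat_lit 0) (nat_lit 0x7de59728a8) (nat_lit 1032344352)]
noncomputable def e11_20 : List Rx := [
  Rx.mk (nat_lit 320) (nat_lit 0) (nat_lit 0) (nat_lit 5) (nat_lit 4) (nat_lit 217) (nat_lit 250) r6_217 r0_250 (nat_lit 0) (nat_lit 0) (nat_lit 0) (nat_lit 0x69df6adf74) (nat_lit 10861248528),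
  Rx.mk (nat_lit 321) (nat_lit 1) (nat_lit 0) (nat_lit 5) (nat_lit 5) (nat_lit 219) (nat_lit 252) r6_219 r0_252 (nat_lit 0) (nat_lit 0) (nat_lit 0) (nat_lit 0x7bc64bff7a) (nat_lit 2074053384),
  Rx.mk (nat_lit 328) (nat_lit 0) (nat_lit 1) (nat_lit 5) (nat_lit 6) (nat_lit 218) (nat_lit 251) r6_218 r0_251 (nat_lit 0) (nat_lit 0) (nat_lit 0) (nat_lit 0x7da3d1a542) (nat_lit 1158454440),
  Rx.mk (nat_lit 329) (nat_lit 1) (nat_lit 1) (nat_lit 5) (nat_lit 7) (nat_lit 220) (nat_lit 253) r6_220 r0_253 (nat_lit 0) (nat_lit 0) (nat_lit 0) (nat_lit 0x7e1cb5968a) (nat_lit 926659656)]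
noncomputable def e11_21 : List Rx := [
  Rx.mk (nat_lit 328) (nat_lit 0) (nat_lit 1) (nat_lit 5) (nat_lit 6) (nat_lit 221) (nat_lit 256) r6_221 r1_256 (nat_lit 0) (nat_lit 0) (nat_lit 0) (nat_lit 0x7d23d005dc) (nat_lit 1403893296),
  Rx.mk (nat_lit 329) (nat_lit 1) (nat_lit 1) (nat_lit 5) (nat_lit 7) (nat_lit 222) (nat_lit 257) r6_222 r1_257 (nat_lit 0) (nat_lit 0) (nat_lit 0) (nat_lit 0x7dde737aea) (nat_lit 1046033352)]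
noncomputable def e11_22 : List Rx := [
  Rx.mk (nat_lit 320) (nat_lit 0) (nat_lit 0) (nat_lit 5) (nat_lit 4) (nat_lit 223) (nat_lit 265) r6_223 r4_265 (nat_lit 0) (nat_lit 0) (nat_lit 0) (nat_lit 0x735924da5a) (nat_lit 6210169992),
  Rx.mk (nat_lit 321) (nat_lit 1) (nat_lit 0) (nat_lit 5) (nat_lit 5) (nat_lit 226) (nat_lit 268) r6_226 r4_268 (nat_lit 0) (nat_lit 0) (nat_lit 0) (nat_lit 0x7db5f0c33e) (nat_lit 1123708248),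
  Rx.mk (nat_lit 328) (nat_lit 0) (nat_lit 1) (nat_lit 5) (nat_lit 6) (nat_lit 224) (nat_lit 266) r6_224 r4_266 (nat_lit 0) (nat_lit 0) (nat_lit 0) (nat_lit 0x7db466bbe0) (nat_lit 1126659456),
  Rx.mk (nat_lit 329) (nat_lit 1) (nat_lit 1) (nat_lit 5) (nat_lit 7) (nat_lit 227) (nat_lit 269) r6_227 r4_269 (nat_lit 0) (nat_lit 0) (nat_lit 0) (nat_lit 0x7dde701b20) (nat_lit 1046058624),
  Rx.mk (nat_lit 344) (nat_lit 0) (nat_lit 3) (nat_lit 5) (nat_lit 6) (nat_lit 225) (nat_lit 267) r6_225 r4_267 (nat_lit 0) (nat_lit 0) (nat_lit 0) (nat_lit 0x7d7cbb56ce) (nat_lit 1233399960),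
  Rx.mk (nat_lit 345) (nat_lit 1) (nat_lit 3) (nat_lit 5) (nat_lit 7) (nat_lit 228) (nat_lit 270) r6_228 r4_270 (nat_lit 0) (nat_lit 0) (nat_lit 0) (nat_lit 0x7deda7c796) (nat_lit 1016880696)]
noncomputable def e11_23 : List Rx := [
  Rx.mk (nat_lit 64) (nat_lit 0) (nat_lit 0) (nat_lit 1) (nat_lit 4) (nat_lit 230) (nat_lit 230) r6_230 r6_230 (nat_lit 0) (nat_lit 0) (nat_lit 0) (nat_lit 0x7169e07090) (nat_lit 7159793472),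
  Rx.mk (nat_lit 65) (nat_lit 1) (nat_lit 0) (nat_lit 1) (nat_lit 5) (nat_lit 235) (nat_lit 232) r6_235 r6_232 (nat_lit 0) (nat_lit 0) (nat_lit 0) (nat_lit 0x7d6392097c) (nat_lit 1281644208),
  Rx.mk (nat_lit 66) (nat_lit 2) (nat_lit 0) (nat_lit 1) (nat_lit 5) (nat_lit 239) (nat_lit 233) r6_239 r6_233 (nat_lit 0) (nat_lit 0) (nat_lit 0) (nat_lit 0x7ddc67bba8) (nat_lit 1049956128),
  Rx.mk (nat_lit 72) (nat_lit 0) (nat_lit 1) (nat_lit 1) (nat_lit 6) (nat_lit 232) (nat_lit 235) r6_232 r6_235 (nat_lit 0) (nat_lit 0) (nat_lit 0) (nat_lit 0x7d6392097c) (nat_lit 1281644208),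
  Rx.mk (nat_lit 73) (nat_lit 1) (nat_lit 1) (nat_lit 1) (nat_lit 7) (nat_lit 237) (nat_lit 237) r6_237 r6_237 (nat_lit 0) (nat_lit 0) (nat_lit 0) (nat_lit 0x7dd0afb734) (nat_lit 1072425744),
  Rx.mk (nat_lit 74) (nat_lit 2) (nat_lit 1) (nat_lit 1) (nat_lit 7) (nat_lit 240) (nat_lit 238) r6_240 r6_238 (nat_lit 0) (nat_lit 0) (nat_lit 0) (nat_lit 0x7de8a95782) (nat_lit 1026455976),
  Rx.mk (nat_lit 88) (nat_lit 0) (nat_lit 3) (nat_lit 1) (nat_lit 6) (nat_lit 233) (nat_lit 239) r6_233 r6_239 (nat_lit 0) (nat_lit 0) (nat_lit 0) (nat_lit 0x7ddc67bba8) (nat_lit 1049956128),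
  Rx.mk (nat_lit 89) (nat_lit 1) (nat_lit 3) (nat_lit 1) (nat_lit 7) (nat_lit 238) (nat_lit 240) r6_238 r6_240 (nat_lit 0) (nat_lit 0) (nat_lit 0) (nat_lit 0x7de8a95782) (nat_lit 1026455976),
  Rx.mk (nat_lit 320) (nat_lit 0) (nat_lit 0) (nat_lit 5) (nat_lit 4) (nat_lit 229) (nat_lit 229) r6_229 r6_229 (nat_lit 0) (nat_lit 0) (nat_lit 0) (nat_lit 0x734b1afb06) (nat_lit 6237087480),
  Rx.mk (nat_lit 321) (nat_lit 1) (nat_lit 0) (nat_lit 5) (nat_lit 5) (nat_lit 234) (nat_lit 231) r6_234 r6_231 (nat_lit 0) (nat_lit 0) (nat_lit 0) (nat_lit 0x7ddb0691bc) (nat_lit 1052601264),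
  Rx.mk (nat_lit 328) (nat_lit 0) (nat_lit 1) (nat_lit 5) (nat_lit 6) (nat_lit 231) (nat_lit 234) r6_231 r6_234 (nat_lit 0) (nat_lit 0) (nat_lit 0) (nat_lit 0x7ddb0691bc) (nat_lit 1052601264),
  Rx.mk (nat_lit 329) (nat_lit 1) (nat_lit 1) (nat_lit 5) (nat_lit 7) (nat_lit 236) (nat_lit 236) r6_236 r6_236 (nat_lit 0) (nat_lit 0) (nat_lit 0) (nat_lit 0x7de269fb7e) (nat_lit 1038434904)]
noncomputable def e11_24 : List Rx := [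
  Rx.mk (nat_lit 72) (nat_lit 0) (nat_lit 1) (nat_lit 1) (nat_lit 6) (nat_lit 242) (nat_lit 185) r6_242 r7_185 (nat_lit 0) (nat_lit 0) (nat_lit 0) (nat_lit 0x7d9c65fc04) (nat_lit 1172682576),
  Rx.mk (nat_lit 73) (nat_lit 1) (nat_lit 1) (nat_lit 1) (nat_lit 7) (nat_lit 244) (nat_lit 187) r6_244 r7_187 (nat_lit 0) (nat_lit 0) (nat_lit 0) (nat_lit 0x7dbbebe386) (nat_lit 1112240376),
  Rx.mk (nat_lit 74) (nat_lit 2) (nat_lit 1) (nat_lit 1) (nat_lit 7) (nat_lit 245) (nat_lit 188) r6_245 r7_188 (nat_lit 0) (nat_lit 0) (nat_lit 0) (nat_lit 0x7dbabc967c) (nat_lit 1114512048),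
  Rx.mk (nat_lit 328) (nat_lit 0) (nat_lit 1) (nat_lit 5) (nat_lit 6) (nat_lit 241) (nat_lit 184) r6_241 r7_184 (nat_lit 0) (nat_lit 0) (nat_lit 0) (nat_lit 0x7de7386e92) (nat_lit 1029219048),
  Rx.mk (nat_lit 329) (nat_lit 1) (nat_lit 1) (nat_lit 5) (nat_lit 7) (nat_lit 243) (nat_lit 186) r6_243 r7_186 (nat_lit 0) (nat_lit 0) (nat_lit 0) (nat_lit 0x7de4f1130a) (nat_lit 1033588296)]
noncomputable def e11_25 : List Rx := [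
  Rx.mk (nat_lit 64) (nat_lit 0) (nat_lit 0) (nat_lit 1) (nat_lit 4) (nat_lit 246) (nat_lit 248) r6_246 r7_248 (nat_lit 0) (nat_lit 0) (nat_lit 0) (nat_lit 0x66291d8800) (nat_lit 12683354112),
  Rx.mk (nat_lit 65) (nat_lit 1) (nat_lit 0) (nat_lit 1) (nat_lit 5) (nat_lit 249) (nat_lit 251) r6_249 r7_251 (nat_lit 0) (nat_lit 0) (nat_lit 0) (nat_lit 0x7d509b58fa) (nat_lit 1318005000),
  Rx.mk (nat_lit 66) (nat_lit 2) (nat_lit 0) (nat_lit 1) (nat_lit 5) (nat_lit 252) (nat_lit 254) r6_252 r7_254 (nat_lit 0) (nat_lit 0) (nat_lit 0) (nat_lit 0x7dcd22900a) (nat_lit 1079235144),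
  Rx.mk (nat_lit 72) (nat_lit 0) (nat_lit 1) (nat_lit 1) (nat_lit 6) (nat_lit 247) (nat_lit 249) r6_247 r7_249 (nat_lit 0) (nat_lit 0) (nat_lit 0) (nat_lit 0x7d55b76734) (nat_lit 1308207888),
  Rx.mk (nat_lit 73) (nat_lit 1) (nat_lit 1) (nat_lit 1) (nat_lit 7) (nat_lit 250) (nat_lit 252) r6_250 r7_252 (nat_lit 0) (nat_lit 0) (nat_lit 0) (nat_lit 0x7de766ebaa) (nat_lit 1028870856),
  Rx.mk (nat_lit 74) (nat_lit 2) (nat_lit 1) (nat_lit 1) (nat_lit 7) (nat_lit 253) (nat_lit 255) r6_253 r7_255 (nat_lit 0) (nat_lit 0) (nat_lit 0) (nat_lit 0x7dc7720b18) (nat_lit 1090144224),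
  Rx.mk (nat_lit 82) (nat_lit 2) (nat_lit 2) (nat_lit 1) (nat_lit 7) (nat_lit 254) (nat_lit 256) r6_254 r7_256 (nat_lit 0) (nat_lit 0) (nat_lit 0) (nat_lit 0x7dee7e3a2e) (nat_lit 1015274520),
  Rx.mk (nat_lit 88) (nat_lit 0) (nat_lit 3) (nat_lit 1) (nat_lit 6) (nat_lit 248) (nat_lit 250) r6_248 r7_250 (nat_lit 0) (nat_lit 0) (nat_lit 0) (nat_lit 0x7d88d17560) (nat_lit 1210225536),
  Rx.mk (nat_lit 89) (nat_lit 1) (nat_lit 3) (nat_lit 1) (nat_lit 7) (nat_lit 251) (nat_lit 253) r6_251 r7_253 (nat_lit 0) (nat_lit 0) (nat_lit 0) (nat_lit 0x7dd5e5a3d0) (nat_lit 1062434880)]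
noncomputable def e11_26 : List Rx := [
  Rx.mk (nat_lit 88) (nat_lit 0) (nat_lit 3) (nat_lit 1) (nat_lit 6) (nat_lit 258) (nat_lit 188) r6_258 r9_188 (nat_lit 0) (nat_lit 0) (nat_lit 0) (nat_lit 0x7dbd4fad48) (nat_lit 1109575584),
  Rx.mk (nat_lit 89) (nat_lit 1) (nat_lit 3) (nat_lit 1) (nat_lit 7) (nat_lit 262) (nat_lit 190) r6_262 r9_190 (nat_lit 0) (nat_lit 0) (nat_lit 0) (nat_lit 0x7deb762ab2) (nat_lit 1021087080),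
  Rx.mk (nat_lit 320) (nat_lit 0) (nat_lit 0) (nat_lit 5) (nat_lit 4) (nat_lit 255) (nat_lit 183) r6_255 r9_183 (nat_lit 0) (nat_lit 0) (nat_lit 0) (nat_lit 0x753a13a98c) (nat_lit 5288031216),
  Rx.mk (nat_lit 321) (nat_lit 1) (nat_lit 0) (nat_lit 5) (nat_lit 5) (nat_lit 259) (nat_lit 184) r6_259 r9_184 (nat_lit 0) (nat_lit 0) (nat_lit 0) (nat_lit 0x7d8cac97aa) (nat_lit 1202832072),
  Rx.mk (nat_lit 328) (nat_lit 0) (nat_lit 1) (nat_lit 5) (nat_lit 6) (nat_lit 256) (nat_lit 185) r6_256 r9_185 (nat_lit 0) (nat_lit 0) (nat_lit 0) (nat_lit 0x7dc0263fdc) (nat_lit 1104133680),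
  Rx.mk (nat_lit 329) (nat_lit 1) (nat_lit 1) (nat_lit 5) (nat_lit 7) (nat_lit 260) (nat_lit 186) r6_260 r9_186 (nat_lit 0) (nat_lit 0) (nat_lit 0) (nat_lit 0x7deed8348e) (nat_lit 1014600600),
  Rx.mk (nat_lit 344) (nat_lit 0) (nat_lit 3) (nat_lit 5) (nat_lit 6) (nat_lit 257) (nat_lit 187) r6_257 r9_187 (nat_lit 0) (nat_lit 0) (nat_lit 0) (nat_lit 0x7de3610c0c) (nat_lit 1036584432),
  Rx.mk (nat_lit 345) (nat_lit 1) (nat_lit 3) (nat_lit 5) (nat_lit 7) (nat_lit 261) (nat_lit 189) r6_261 r9_189 (nat_lit 0) (nat_lit 0) (nat_lit 0) (nat_lit 0x7df11510be) (nat_lit 1010309976)]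
noncomputable def e11_27 : List Rx := [
  Rx.mk (nat_lit 320) (nat_lit 0) (nat_lit 0) (nat_lit 5) (nat_lit 4) (nat_lit 263) (nat_lit 212) r6_263 r10_212 (nat_lit 0) (nat_lit 0) (nat_lit 0) (nat_lit 0x776214075e) (nat_lit 4229625816),
  Rx.mk (nat_lit 321) (nat_lit 1) (nat_lit 0) (nat_lit 5) (nat_lit 5) (nat_lit 266) (nat_lit 213) r6_266 r10_213 (nat_lit 0) (nat_lit 0) (nat_lit 0) (nat_lit 0x7dbb30cf38) (nat_lit 1113641568),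
  Rx.mk (nat_lit 328) (nat_lit 0) (nat_lit 1) (nat_lit 5) (nat_lit 6) (nat_lit 264) (nat_lit 214) r6_264 r10_214 (nat_lit 0) (nat_lit 0) (nat_lit 0) (nat_lit 0x7df79428c6) (nat_lit 997853688),
  Rx.mk (nat_lit 329) (nat_lit 1) (nat_lit 1) (nat_lit 5) (nat_lit 7) (nat_lit 267) (nat_lit 215) r6_267 r10_215 (nat_lit 0) (nat_lit 0) (nat_lit 0) (nat_lit 0x7de4fa127a) (nat_lit 1033520904),
  Rx.mk (nat_lit 344) (nat_lit 0) (nat_lit 3) (nat_lit 5) (nat_lit 6) (nat_lit 265) (nat_lit 216) r6_265 r10_216 (nat_lit 0) (nat_lit 0) (nat_lit 0) (nat_lit 0x7dc96b0b86) (nat_lit 1086361848),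
  Rx.mk (nat_lit 345) (nat_lit 1) (nat_lit 3) (nat_lit 5) (nat_lit 7) (nat_lit 268) (nat_lit 217) r6_268 r10_217 (nat_lit 0) (nat_lit 0) (nat_lit 0) (nat_lit 0x7dc83d9e5e) (nat_lit 1088619480),
  Rx.mk (nat_lit 347) (nat_lit 3) (nat_lit 3) (nat_lit 5) (nat_lit 7) (nat_lit 269) (nat_lit 218) r6_269 r10_218 (nat_lit 0) (nat_lit 0) (nat_lit 0) (nat_lit 0x7def592c7e) (nat_lit 1013634648)]
noncomputable def e11_28 : List Rx := [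
  Rx.mk (nat_lit 216) (nat_lit 0) (nat_lit 3) (nat_lit 3) (nat_lit 6) (nat_lit 276) (nat_lit 105) r6_276 r10_105 (nat_lit 0) (nat_lit 0) (nat_lit 0) (nat_lit 0x7d9e0ce194) (nat_lit 1169515152),
  Rx.mk (nat_lit 218) (nat_lit 2) (nat_lit 3) (nat_lit 3) (nat_lit 7) (nat_lit 277) (nat_lit 106) r6_277 r10_106 (nat_lit 0) (nat_lit 0) (nat_lit 0) (nat_lit 0x7da1502d5c) (nat_lit 1163258928),
  Rx.mk (nat_lit 315) (nat_lit 3) (nat_lit 7) (nat_lit 4) (nat_lit 3) (nat_lit 278) (nat_lit 101) r6_278 r10_101 (nat_lit 0) (nat_lit 0) (nat_lit 0) (nat_lit 0x7de93d0e46) (nat_lit 1025349624),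
  Rx.mk (nat_lit 472) (nat_lit 0) (nat_lit 3) (nat_lit 7) (nat_lit 6) (nat_lit 275) (nat_lit 104) r6_275 r10_104 (nat_lit 0) (nat_lit 0) (nat_lit 0) (nat_lit 0x7dd6555cd4) (nat_lit 1061598096),
  Rx.mk (nat_lit 504) (nat_lit 0) (nat_lit 7) (nat_lit 7) (nat_lit 6) (nat_lit 274) (nat_lit 102) r6_274 r10_102 (nat_lit 0) (nat_lit 0) (nat_lit 0) (nat_lit 0x7d8f376efa) (nat_lit 1197957384),
  Rx.mk (nat_lit 507) (nat_lit 3) (nat_lit 7) (nat_lit 7) (nat_lit 7) (nat_lit 279) (nat_lit 103) r6_279 r10_103 (nat_lit 0) (nat_lit 0) (nat_lit 0) (nat_lit 0x7df1366ea8) (nat_lit 1010060064)]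
noncomputable def e11_29 : List Rx := [
  Rx.mk (nat_lit 281) (nat_lit 1) (nat_lit 3) (nat_lit 4) (nat_lit 3) (nat_lit 284) (nat_lit 283) r6_284 r5_283 (nat_lit 0) (nat_lit 0) (nat_lit 0) (nat_lit 0x7e8bdea38a) (nat_lit 713521224),
  Rx.mk (nat_lit 313) (nat_lit 1) (nat_lit 7) (nat_lit 4) (nat_lit 3) (nat_lit 282) (nat_lit 282) r6_282 r5_282 (nat_lit 0) (nat_lit 0) (nat_lit 0) (nat_lit 0x7e3d97c846) (nat_lit 863608824),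
  Rx.mk (nat_lit 344) (nat_lit 0) (nat_lit 3) (nat_lit 5) (nat_lit 6) (nat_lit 281) (nat_lit 281) r6_281 r5_281 (nat_lit 0) (nat_lit 0) (nat_lit 0) (nat_lit 0x7e3d97c846) (nat_lit 863608824),
  Rx.mk (nat_lit 345) (nat_lit 1) (nat_lit 3) (nat_lit 5) (nat_lit 7) (nat_lit 285) (nat_lit 285) r6_285 r5_285 (nat_lit 0) (nat_lit 0) (nat_lit 0) (nat_lit 0x7e3ec5f562) (nat_lit 861345576),
  Rx.mk (nat_lit 376) (nat_lit 0) (nat_lit 7) (nat_lit 5) (nat_lit 6) (nat_lit 280) (nat_lit 280) r6_280 r5_280 (nat_lit 0) (nat_lit 0) (nat_lit 0) (nat_lit 0x7e8bdea38a) (nat_lit 713521224),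
  Rx.mk (nat_lit 377) (nat_lit 1) (nat_lit 7) (nat_lit 5) (nat_lit 7) (nat_lit 283) (nat_lit 284) r6_283 r5_284 (nat_lit 0) (nat_lit 0) (nat_lit 0) (nat_lit 0x7e3ec5f562) (nat_lit 861345576)]
noncomputable def e11_30 : List Rx := [
  Rx.mk (nat_lit 88) (nat_lit 0) (nat_lit 3) (nat_lit 1) (nat_lit 6) (nat_lit 289) (nat_lit 303) r6_289 r10_303 (nat_lit 0) (nat_lit 0) (nat_lit 0) (nat_lit 0x7de1356ec8) (nat_lit 1040745888),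
  Rx.mk (nat_lit 89) (nat_lit 1) (nat_lit 3) (nat_lit 1) (nat_lit 7) (nat_lit 291) (nat_lit 304) r6_291 r10_304 (nat_lit 0) (nat_lit 0) (nat_lit 0) (nat_lit 0x7df52a4f66) (nat_lit 1002481272),
  Rx.mk (nat_lit 90) (nat_lit 2) (nat_lit 3) (nat_lit 1) (nat_lit 7) (nat_lit 292) (nat_lit 305) r6_292 r10_305 (nat_lit 0) (nat_lit 0) (nat_lit 0) (nat_lit 0x7dcf9d485c) (nat_lit 1074481200),
  Rx.mk (nat_lit 344) (nat_lit 0) (nat_lit 3) (nat_lit 5) (nat_lit 6) (nat_lit 288) (nat_lit 306) r6_288 r10_306 (nat_lit 0) (nat_lit 0) (nat_lit 0) (nat_lit 0x7de08359ea) (nat_lit 1042079688),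
  Rx.mk (nat_lit 345) (nat_lit 1) (nat_lit 3) (nat_lit 5) (nat_lit 7) (nat_lit 290) (nat_lit 307) r6_290 r10_307 (nat_lit 0) (nat_lit 0) (nat_lit 0) (nat_lit 0x7de6505d14) (nat_lit 1030957200)]
noncomputable def e11_31 : List Rx := [
  Rx.mk (nat_lit 312) (nat_lit 0) (nat_lit 7) (nat_lit 4) (nat_lit 2) (nat_lit 293) (nat_lit 195) r6_293 r5_195 (nat_lit 0) (nat_lit 0) (nat_lit 0) (nat_lit 0x75d0a39ff6) (nat_lit 4999343544),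
  Rx.mk (nat_lit 313) (nat_lit 1) (nat_lit 7) (nat_lit 4) (nat_lit 3) (nat_lit 297) (nat_lit 196) r6_297 r5_196 (nat_lit 0) (nat_lit 0) (nat_lit 0) (nat_lit 0x7e3c4d7cec) (nat_lit 866082672),
  Rx.mk (nat_lit 315) (nat_lit 3) (nat_lit 7) (nat_lit 4) (nat_lit 3) (nat_lit 301) (nat_lit 197) r6_301 r5_197 (nat_lit 0) (nat_lit 0) (nat_lit 0) (nat_lit 0x7e7262db60) (nat_lit 762383232),
  Rx.mk (nat_lit 376) (nat_lit 0) (nat_lit 7) (nat_lit 5) (nat_lit 6) (nat_lit 294) (nat_lit 198) r6_294 r5_198 (nat_lit 0) (nat_lit 0) (nat_lit 0) (nat_lit 0x7e658ba8e0) (nat_lit 787003776),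
  Rx.mk (nat_lit 377) (nat_lit 1) (nat_lit 7) (nat_lit 5) (nat_lit 7) (nat_lit 298) (nat_lit 199) r6_298 r5_199 (nat_lit 0) (nat_lit 0) (nat_lit 0) (nat_lit 0x7dd032df02) (nat_lit 1073360808),
  Rx.mk (nat_lit 379) (nat_lit 3) (nat_lit 7) (nat_lit 5) (nat_lit 7) (nat_lit 302) (nat_lit 200) r6_302 r5_200 (nat_lit 0) (nat_lit 0) (nat_lit 0) (nat_lit 0x7e468179a2) (nat_lit 846519336),
  Rx.mk (nat_lit 472) (nat_lit 0) (nat_lit 3) (nat_lit 7) (nat_lit 6) (nat_lit 296) (nat_lit 193) r6_296 r5_193 (nat_lit 0) (nat_lit 0) (nat_lit 0) (nat_lit 0x7e9d322e40) (nat_lit 680299776),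
  Rx.mk (nat_lit 473) (nat_lit 1) (nat_lit 3) (nat_lit 7) (nat_lit 7) (nat_lit 300) (nat_lit 194) r6_300 r5_194 (nat_lit 0) (nat_lit 0) (nat_lit 0) (nat_lit 0x7e6dd4e444) (nat_lit 771116112),
  Rx.mk (nat_lit 504) (nat_lit 0) (nat_lit 7) (nat_lit 7) (nat_lit 6) (nat_lit 295) (nat_lit 201) r6_295 r5_201 (nat_lit 0) (nat_lit 0) (nat_lit 0) (nat_lit 0x7dc43a5e96) (nat_lit 1096313400),
  Rx.mk (nat_lit 505) (nat_lit 1) (nat_lit 7) (nat_lit 7) (nat_lit 7) (nat_lit 299) (nat_lit 202) r6_299 r5_202 (nat_lit 0) (nat_lit 0) (nat_lit 0) (nat_lit 0x7dd8ca1586) (nat_lit 1056889080)]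
noncomputable def e11_32 : List Rx := [
  Rx.mk (nat_lit 280) (nat_lit 0) (nat_lit 3) (nat_lit 4) (nat_lit 2) (nat_lit 305) (nat_lit 97) r6_305 r11_97 (nat_lit 0) (nat_lit 0) (nat_lit 0) (nat_lit 0x76404205a0) (nat_lit 4785326208),
  Rx.mk (nat_lit 281) (nat_lit 1) (nat_lit 3) (nat_lit 4) (nat_lit 3) (nat_lit 310) (nat_lit 102) r6_310 r11_102 (nat_lit 0) (nat_lit 0) (nat_lit 0) (nat_lit 0x7e974b4cb4) (nat_lit 691616016),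
  Rx.mk (nat_lit 312) (nat_lit 0) (nat_lit 7) (nat_lit 4) (nat_lit 2) (nat_lit 303) (nat_lit 100) r6_303 r11_100 (nat_lit 0) (nat_lit 0) (nat_lit 0) (nat_lit 0x76404205a0) (nat_lit 4785326208),
  Rx.mk (nat_lit 313) (nat_lit 1) (nat_lit 7) (nat_lit 4) (nat_lit 3) (nat_lit 308) (nat_lit 105) r6_308 r11_105 (nat_lit 0) (nat_lit 0) (nat_lit 0) (nat_lit 0x7e4cddb3d8) (nat_lit 834324192),
  Rx.mk (nat_lit 315) (nat_lit 3) (nat_lit 7) (nat_lit 4) (nat_lit 3) (nat_lit 313) (nat_lit 107) r6_313 r11_107 (nat_lit 0) (nat_lit 0) (nat_lit 0) (nat_lit 0x7e9290b862) (nat_lit 700683048),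
  Rx.mk (nat_lit 344) (nat_lit 0) (nat_lit 3) (nat_lit 5) (nat_lit 6) (nat_lit 306) (nat_lit 98) r6_306 r11_98 (nat_lit 0) (nat_lit 0) (nat_lit 0) (nat_lit 0x7e4cddb3d8) (nat_lit 834324192),
  Rx.mk (nat_lit 345) (nat_lit 1) (nat_lit 3) (nat_lit 5) (nat_lit 7) (nat_lit 311) (nat_lit 103) r6_311 r11_103 (nat_lit 0) (nat_lit 0) (nat_lit 0) (nat_lit 0x7deae7b39a) (nat_lit 1022154120),
  Rx.mk (nat_lit 376) (nat_lit 0) (nat_lit 7) (nat_lit 5) (nat_lit 6) (nat_lit 304) (nat_lit 101) r6_304 r11_101 (nat_lit 0) (nat_lit 0) (nat_lit 0) (nat_lit 0x7e974b4cb4) (nat_lit 691616016),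
  Rx.mk (nat_lit 377) (nat_lit 1) (nat_lit 7) (nat_lit 5) (nat_lit 7) (nat_lit 309) (nat_lit 106) r6_309 r11_106 (nat_lit 0) (nat_lit 0) (nat_lit 0) (nat_lit 0x7deae7b39a) (nat_lit 1022154120),
  Rx.mk (nat_lit 379) (nat_lit 3) (nat_lit 7) (nat_lit 5) (nat_lit 7) (nat_lit 314) (nat_lit 108) r6_314 r11_108 (nat_lit 0) (nat_lit 0) (nat_lit 0) (nat_lit 0x7e672d4ec4) (nat_lit 783875664),
  Rx.mk (nat_lit 472) (nat_lit 0) (nat_lit 3) (nat_lit 7) (nat_lit 6) (nat_lit 307) (nat_lit 99) r6_307 r11_99 (nat_lit 0) (nat_lit 0) (nat_lit 0) (nat_lit 0x7e9290b862) (nat_lit 700683048),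
  Rx.mk (nat_lit 473) (nat_lit 1) (nat_lit 3) (nat_lit 7) (nat_lit 7) (nat_lit 312) (nat_lit 104) r6_312 r11_104 (nat_lit 0) (nat_lit 0) (nat_lit 0) (nat_lit 0x7e672d4ec4) (nat_lit 783875664)]
noncomputable def e11_33 : List Rx := [
  Rx.mk (nat_lit 289) (nat_lit 1) (nat_lit 4) (nat_lit 4) (nat_lit 1) (nat_lit 315) (nat_lit 250) r6_315 r0_250 (nat_lit 0) (nat_lit 0) (nat_lit 0) (nat_lit 0x69df6adf74) (nat_lit 10861248528),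
  Rx.mk (nat_lit 297) (nat_lit 1) (nat_lit 5) (nat_lit 4) (nat_lit 3) (nat_lit 317) (nat_lit 251) r6_317 r0_251 (nat_lit 0) (nat_lit 0) (nat_lit 0) (nat_lit 0x7da3d1a542) (nat_lit 1158454440),
  Rx.mk (nat_lit 353) (nat_lit 1) (nat_lit 4) (nat_lit 5) (nat_lit 5) (nat_lit 316) (nat_lit 252) r6_316 r0_252 (nat_lit 0) (nat_lit 0) (nat_lit 0) (nat_lit 0x7bc64bff7a) (nat_lit 2074053384),
  Rx.mk (nat_lit 361) (nat_lit 1) (nat_lit 5) (nat_lit 5) (nat_lit 7) (nat_lit 318) (nat_lit 253) r6_318 r0_253 (nat_lit 0) (nat_lit 0) (nat_lit 0) (nat_lit 0x7e1cb5968a) (nat_lit 926659656)]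
noncomputable def e11_34 : List Rx := [
  Rx.mk (nat_lit 289) (nat_lit 1) (nat_lit 4) (nat_lit 4) (nat_lit 1) (nat_lit 325) (nat_lit 177) r6_325 r0_177 (nat_lit 0) (nat_lit 0) (nat_lit 0) (nat_lit 0x6042df11ce) (nat_lit 15579090072),
  Rx.mk (nat_lit 293) (nat_lit 5) (nat_lit 4) (nat_lit 4) (nat_lit 1) (nat_lit 319) (nat_lit 178) r6_319 r0_178 (nat_lit 0) (nat_lit 0) (nat_lit 0) (nat_lit 0x6d7c714b70) (nat_lit 9087609024),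
  Rx.mk (nat_lit 317) (nat_lit 5) (nat_lit 7) (nat_lit 4) (nat_lit 3) (nat_lit 322) (nat_lit 182) r6_322 r0_182 (nat_lit 0) (nat_lit 0) (nat_lit 0) (nat_lit 0x7e87fa21d6) (nat_lit 720984888),
  Rx.mk (nat_lit 353) (nat_lit 1) (nat_lit 4) (nat_lit 5) (nat_lit 5) (nat_lit 326) (nat_lit 179) r6_326 r0_179 (nat_lit 0) (nat_lit 0) (nat_lit 0) (nat_lit 0x7d961fe06c) (nat_lit 1184712048),
  Rx.mk (nat_lit 357) (nat_lit 5) (nat_lit 4) (nat_lit 5) (nat_lit 5) (nat_lit 320) (nat_lit 180) r6_320 r0_180 (nat_lit 0) (nat_lit 0) (nat_lit 0) (nat_lit 0x7d7f2b2fce) (nat_lit 1228727448),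
  Rx.mk (nat_lit 381) (nat_lit 5) (nat_lit 7) (nat_lit 5) (nat_lit 7) (nat_lit 323) (nat_lit 183) r6_323 r0_183 (nat_lit 0) (nat_lit 0) (nat_lit 0) (nat_lit 0x7e596ecaba) (nat_lit 810228744),
  Rx.mk (nat_lit 421) (nat_lit 5) (nat_lit 4) (nat_lit 6) (nat_lit 5) (nat_lit 321) (nat_lit 181) r6_321 r0_181 (nat_lit 0) (nat_lit 0) (nat_lit 0) (nat_lit 0x7e643c7dd4) (nat_lit 789514128),
  Rx.mk (nat_lit 445) (nat_lit 5) (nat_lit 7) (nat_lit 6) (nat_lit 7) (nat_lit 324) (nat_lit 184) r6_324 r0_184 (nat_lit 0) (nat_lit 0) (nat_lit 0) (nat_lit 0x7e6c393e00) (nat_lit 774199296)]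
noncomputable def e11_35 : List Rx := [
  Rx.mk (nat_lit 289) (nat_lit 1) (nat_lit 4) (nat_lit 4) (nat_lit 1) (nat_lit 335) (nat_lit 335) r6_335 r6_335 (nat_lit 0) (nat_lit 0) (nat_lit 0) (nat_lit 0x734b1afb06) (nat_lit 6237087480),
  Rx.mk (nat_lit 293) (nat_lit 5) (nat_lit 4) (nat_lit 4) (nat_lit 1) (nat_lit 327) (nat_lit 327) r6_327 r6_327 (nat_lit 0) (nat_lit 0) (nat_lit 0) (nat_lit 0x7169e07090) (nat_lit 7159793472),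
  Rx.mk (nat_lit 297) (nat_lit 1) (nat_lit 5) (nat_lit 4) (nat_lit 3) (nat_lit 337) (nat_lit 336) r6_337 r6_336 (nat_lit 0) (nat_lit 0) (nat_lit 0) (nat_lit 0x7ddb0691bc) (nat_lit 1052601264),
  Rx.mk (nat_lit 301) (nat_lit 5) (nat_lit 5) (nat_lit 4) (nat_lit 3) (nat_lit 330) (nat_lit 328) r6_330 r6_328 (nat_lit 0) (nat_lit 0) (nat_lit 0) (nat_lit 0x7d6392097c) (nat_lit 1281644208),
  Rx.mk (nat_lit 317) (nat_lit 5) (nat_lit 7) (nat_lit 4) (nat_lit 3) (nat_lit 333) (nat_lit 329) r6_333 r6_329 (nat_lit 0) (nat_lit 0) (nat_lit 0) (nat_lit 0x7ddc67bba8) (nat_lit 1049956128),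
  Rx.mk (nat_lit 353) (nat_lit 1) (nat_lit 4) (nat_lit 5) (nat_lit 5) (nat_lit 336) (nat_lit 337) r6_336 r6_337 (nat_lit 0) (nat_lit 0) (nat_lit 0) (nat_lit 0x7ddb0691bc) (nat_lit 1052601264),
  Rx.mk (nat_lit 357) (nat_lit 5) (nat_lit 4) (nat_lit 5) (nat_lit 5) (nat_lit 328) (nat_lit 330) r6_328 r6_330 (nat_lit 0) (nat_lit 0) (nat_lit 0) (nat_lit 0x7d6392097c) (nat_lit 1281644208),
  Rx.mk (nat_lit 361) (nat_lit 1) (nat_lit 5) (nat_lit 5) (nat_lit 7) (nat_lit 338) (nat_lit 338) r6_338 r6_338 (nat_lit 0) (nat_lit 0) (nat_lit 0) (nat_lit 0x7de269fb7e) (nat_lit 1038434904),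
  Rx.mk (nat_lit 365) (nat_lit 5) (nat_lit 5) (nat_lit 5) (nat_lit 7) (nat_lit 331) (nat_lit 331) r6_331 r6_331 (nat_lit 0) (nat_lit 0) (nat_lit 0) (nat_lit 0x7dd0afb734) (nat_lit 1072425744),
  Rx.mk (nat_lit 381) (nat_lit 5) (nat_lit 7) (nat_lit 5) (nat_lit 7) (nat_lit 334) (nat_lit 332) r6_334 r6_332 (nat_lit 0) (nat_lit 0) (nat_lit 0) (nat_lit 0x7de8a95782) (nat_lit 1026455976),
  Rx.mk (nat_lit 421) (nat_lit 5) (nat_lit 4) (nat_lit 6) (nat_lit 5) (nat_lit 329) (nat_lit 333) r6_329 r6_333 (nat_lit 0) (nat_lit 0) (nat_lit 0) (nat_lit 0x7ddc67bba8) (nat_lit 1049956128),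
  Rx.mk (nat_lit 429) (nat_lit 5) (nat_lit 5) (nat_lit 6) (nat_lit 7) (nat_lit 332) (nat_lit 334) r6_332 r6_334 (nat_lit 0) (nat_lit 0) (nat_lit 0) (nat_lit 0x7de8a95782) (nat_lit 1026455976)]
noncomputable def e11_36 : List Rx := [
  Rx.mk (nat_lit 292) (nat_lit 4) (nat_lit 4) (nat_lit 4) (nat_lit 0) (nat_lit 339) (nat_lit 189) r6_339 r2_189 (nat_lit 0) (nat_lit 0) (nat_lit 0) (nat_lit 0x3b982e8184) (nat_lit 33577092432),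
  Rx.mk (nat_lit 293) (nat_lit 5) (nat_lit 4) (nat_lit 4) (nat_lit 1) (nat_lit 344) (nat_lit 190) r6_344 r2_190 (nat_lit 0) (nat_lit 0) (nat_lit 0) (nat_lit 0x68b79d5d74) (nat_lit 11428419600),
  Rx.mk (nat_lit 316) (nat_lit 4) (nat_lit 7) (nat_lit 4) (nat_lit 2) (nat_lit 342) (nat_lit 193) r6_342 r2_193 (nat_lit 0) (nat_lit 0) (nat_lit 0) (nat_lit 0x75dc704320) (nat_lit 4976719488),
  Rx.mk (nat_lit 317) (nat_lit 5) (nat_lit 7) (nat_lit 4) (nat_lit 3) (nat_lit 347) (nat_lit 194) r6_347 r2_194 (nat_lit 0) (nat_lit 0) (nat_lit 0) (nat_lit 0x7d6beb63de) (nat_lit 1265635800),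
  Rx.mk (nat_lit 319) (nat_lit 7) (nat_lit 7) (nat_lit 4) (nat_lit 3) (nat_lit 350) (nat_lit 195) r6_350 r2_195 (nat_lit 0) (nat_lit 0) (nat_lit 0) (nat_lit 0x7d26cf15e8) (nat_lit 1398148128),
  Rx.mk (nat_lit 420) (nat_lit 4) (nat_lit 4) (nat_lit 6) (nat_lit 4) (nat_lit 340) (nat_lit 191) r6_340 r2_191 (nat_lit 0) (nat_lit 0) (nat_lit 0) (nat_lit 0x6e2c488d4c) (nat_lit 8750452464),
  Rx.mk (nat_lit 421) (nat_lit 5) (nat_lit 4) (nat_lit 6) (nat_lit 5) (nat_lit 345) (nat_lit 192) r6_345 r2_192 (nat_lit 0) (nat_lit 0) (nat_lit 0) (nat_lit 0x7dcd510d22) (nat_lit 1078886952),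
  Rx.mk (nat_lit 436) (nat_lit 4) (nat_lit 6) (nat_lit 6) (nat_lit 6) (nat_lit 341) (nat_lit 200) r6_341 r2_200 (nat_lit 0) (nat_lit 0) (nat_lit 0) (nat_lit 0x7d86aa57d4) (nat_lit 1214353296),
  Rx.mk (nat_lit 437) (nat_lit 5) (nat_lit 6) (nat_lit 6) (nat_lit 7) (nat_lit 346) (nat_lit 201) r6_346 r2_201 (nat_lit 0) (nat_lit 0) (nat_lit 0) (nat_lit 0x7dfc7eba18) (nat_lit 988427232),
  Rx.mk (nat_lit 438) (nat_lit 6) (nat_lit 6) (nat_lit 6) (nat_lit 7) (nat_lit 349) (nat_lit 202) r6_349 r2_202 (nat_lit 0) (nat_lit 0) (nat_lit 0) (nat_lit 0x7dda493d92) (nat_lit 1054019304),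
  Rx.mk (nat_lit 444) (nat_lit 4) (nat_lit 7) (nat_lit 6) (nat_lit 6) (nat_lit 343) (nat_lit 197) r6_343 r2_197 (nat_lit 0) (nat_lit 0) (nat_lit 0) (nat_lit 0x7dd93fce2a) (nat_lit 1056007368),
  Rx.mk (nat_lit 445) (nat_lit 5) (nat_lit 7) (nat_lit 6) (nat_lit 7) (nat_lit 348) (nat_lit 198) r6_348 r2_198 (nat_lit 0) (nat_lit 0) (nat_lit 0) (nat_lit 0x7ddcd23500) (nat_lit 1049158656),
  Rx.mk (nat_lit 447) (nat_lit 7) (nat_lit 7) (nat_lit 6) (nat_lit 7) (nat_lit 351) (nat_lit 199) r6_351 r2_199 (nat_lit 0) (nat_lit 0) (nat_lit 0) (nat_lit 0x7df6c535b6) (nat_lit 999403704),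
  Rx.mk (nat_lit 511) (nat_lit 7) (nat_lit 7) (nat_lit 7) (nat_lit 7) (nat_lit 352) (nat_lit 196) r6_352 r2_196 (nat_lit 0) (nat_lit 0) (nat_lit 0) (nat_lit 0x7dc2f852b8) (nat_lit 1098725472)]
noncomputable def e11_37 : List Rx := [
  Rx.mk (nat_lit 292) (nat_lit 4) (nat_lit 4) (nat_lit 4) (nat_lit 0) (nat_lit 353) (nat_lit 170) r6_353 r8_170 (nat_lit 0) (nat_lit 0) (nat_lit 0) (nat_lit 0xca49969cc) (nat_lit 56623393008),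
  Rx.mk (nat_lit 293) (nat_lit 5) (nat_lit 4) (nat_lit 4) (nat_lit 1) (nat_lit 357) (nat_lit 171) r6_357 r8_171 (nat_lit 0) (nat_lit 0) (nat_lit 0) (nat_lit 0x4c79c53736) (nat_lit 25290895032),
  Rx.mk (nat_lit 301) (nat_lit 5) (nat_lit 5) (nat_lit 4) (nat_lit 3) (nat_lit 359) (nat_lit 174) r6_359 r8_174 (nat_lit 0) (nat_lit 0) (nat_lit 0) (nat_lit 0x7d5bdfe4a6) (nat_lit 1296400248),
  Rx.mk (nat_lit 316) (nat_lit 4) (nat_lit 7) (nat_lit 4) (nat_lit 2) (nat_lit 356) (nat_lit 176) r6_356 r8_176 (nat_lit 0) (nat_lit 0) (nat_lit 0) (nat_lit 0x744f2f58bc) (nat_lit 5738411952),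
  Rx.mk (nat_lit 317) (nat_lit 5) (nat_lit 7) (nat_lit 4) (nat_lit 3) (nat_lit 362) (nat_lit 177) r6_362 r8_177 (nat_lit 0) (nat_lit 0) (nat_lit 0) (nat_lit 0x7dce02c206) (nat_lit 1077555960),
  Rx.mk (nat_lit 319) (nat_lit 7) (nat_lit 7) (nat_lit 4) (nat_lit 3) (nat_lit 364) (nat_lit 178) r6_364 r8_178 (nat_lit 0) (nat_lit 0) (nat_lit 0) (nat_lit 0x7db87bfa88) (nat_lit 1118830752),
  Rx.mk (nat_lit 420) (nat_lit 4) (nat_lit 4) (nat_lit 6) (nat_lit 4) (nat_lit 354) (nat_lit 172) r6_354 r8_172 (nat_lit 0) (nat_lit 0) (nat_lit 0) (nat_lit 0x700fb7547c) (nat_lit 7823520432),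
  Rx.mk (nat_lit 421) (nat_lit 5) (nat_lit 4) (nat_lit 6) (nat_lit 5) (nat_lit 358) (nat_lit 173) r6_358 r8_173 (nat_lit 0) (nat_lit 0) (nat_lit 0) (nat_lit 0x7dad56ece4) (nat_lit 1140199632),
  Rx.mk (nat_lit 429) (nat_lit 5) (nat_lit 5) (nat_lit 6) (nat_lit 7) (nat_lit 360) (nat_lit 175) r6_360 r8_175 (nat_lit 0) (nat_lit 0) (nat_lit 0) (nat_lit 0x7dd092d902) (nat_lit 1072641960),
  Rx.mk (nat_lit 436) (nat_lit 4) (nat_lit 6) (nat_lit 6) (nat_lit 6) (nat_lit 355) (nat_lit 180) r6_355 r8_180 (nat_lit 0) (nat_lit 0) (nat_lit 0) (nat_lit 0x7dd0e0d422) (nat_lit 1072057896),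
  Rx.mk (nat_lit 437) (nat_lit 5) (nat_lit 6) (nat_lit 6) (nat_lit 7) (nat_lit 361) (nat_lit 181) r6_361 r8_181 (nat_lit 0) (nat_lit 0) (nat_lit 0) (nat_lit 0x7dc2a09834) (nat_lit 1099382544),
  Rx.mk (nat_lit 438) (nat_lit 6) (nat_lit 6) (nat_lit 6) (nat_lit 7) (nat_lit 363) (nat_lit 182) r6_363 r8_182 (nat_lit 0) (nat_lit 0) (nat_lit 0) (nat_lit 0x7de5019202) (nat_lit 1033464744),
  Rx.mk (nat_lit 511) (nat_lit 7) (nat_lit 7) (nat_lit 7) (nat_lit 7) (nat_lit 365) (nat_lit 179) r6_365 r8_179 (nat_lit 0) (nat_lit 0) (nat_lit 0) (nat_lit 0x7de59728a8) (nat_lit 1032344352)]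
noncomputable def e11_38 : List Rx := [
  Rx.mk (nat_lit 182) (nat_lit 6) (nat_lit 6) (nat_lit 2) (nat_lit 7) (nat_lit 377) (nat_lit 82) r6_377 r8_82 (nat_lit 0) (nat_lit 0) (nat_lit 0) (nat_lit 0x7ddda00822) (nat_lit 1047617064),
  Rx.mk (nat_lit 292) (nat_lit 4) (nat_lit 4) (nat_lit 4) (nat_lit 0) (nat_lit 366) (nat_lit 68) r6_366 r8_68 (nat_lit 0) (nat_lit 0) (nat_lit 0) (nat_lit 0x1096296cda) (nat_lit 54687661704),
  Rx.mk (nat_lit 293) (nat_lit 5) (nat_lit 4) (nat_lit 4) (nat_lit 1) (nat_lit 371) (nat_lit 69) r6_371 r8_69 (nat_lit 0) (nat_lit 0) (nat_lit 0) (nat_lit 0x71f61f2c18) (nat_lit 6890888160),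
  Rx.mk (nat_lit 316) (nat_lit 4) (nat_lit 7) (nat_lit 4) (nat_lit 2) (nat_lit 369) (nat_lit 70) r6_369 r8_70 (nat_lit 0) (nat_lit 0) (nat_lit 0) (nat_lit 0x6a853e8194) (nat_lit 10543293072),
  Rx.mk (nat_lit 317) (nat_lit 5) (nat_lit 7) (nat_lit 4) (nat_lit 3) (nat_lit 374) (nat_lit 71) r6_374 r8_71 (nat_lit 0) (nat_lit 0) (nat_lit 0) (nat_lit 0x7dc10491f6) (nat_lit 1102468536),
  Rx.mk (nat_lit 319) (nat_lit 7) (nat_lit 7) (nat_lit 4) (nat_lit 3) (nat_lit 378) (nat_lit 72) r6_378 r8_72 (nat_lit 0) (nat_lit 0) (nat_lit 0) (nat_lit 0x7c9b768bfc) (nat_lit 1665329328),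
  Rx.mk (nat_lit 420) (nat_lit 4) (nat_lit 4) (nat_lit 6) (nat_lit 4) (nat_lit 367) (nat_lit 74) r6_367 r8_74 (nat_lit 0) (nat_lit 0) (nat_lit 0) (nat_lit 0x5019957692) (nat_lit 23511909096),
  Rx.mk (nat_lit 421) (nat_lit 5) (nat_lit 4) (nat_lit 6) (nat_lit 5) (nat_lit 372) (nat_lit 75) r6_372 r8_75 (nat_lit 0) (nat_lit 0) (nat_lit 0) (nat_lit 0x7dd000422c) (nat_lit 1073739888),
  Rx.mk (nat_lit 436) (nat_lit 4) (nat_lit 6) (nat_lit 6) (nat_lit 6) (nat_lit 368) (nat_lit 79) r6_368 r8_79 (nat_lit 0) (nat_lit 0) (nat_lit 0) (nat_lit 0x7d16a3b8ae) (nat_lit 1429151256),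
  Rx.mk (nat_lit 437) (nat_lit 5) (nat_lit 6) (nat_lit 6) (nat_lit 7) (nat_lit 373) (nat_lit 80) r6_373 r8_80 (nat_lit 0) (nat_lit 0) (nat_lit 0) (nat_lit 0x7de0fcd252) (nat_lit 1041169896),
  Rx.mk (nat_lit 438) (nat_lit 6) (nat_lit 6) (nat_lit 6) (nat_lit 7) (nat_lit 376) (nat_lit 81) r6_376 r8_81 (nat_lit 0) (nat_lit 0) (nat_lit 0) (nat_lit 0x7dc460fc2c) (nat_lit 1096024176),
  Rx.mk (nat_lit 444) (nat_lit 4) (nat_lit 7) (nat_lit 6) (nat_lit 6) (nat_lit 370) (nat_lit 76) r6_370 r8_76 (nat_lit 0) (nat_lit 0) (nat_lit 0) (nat_lit 0x7d87fec28c) (nat_lit 1211803632),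
  Rx.mk (nat_lit 445) (nat_lit 5) (nat_lit 7) (nat_lit 6) (nat_lit 7) (nat_lit 375) (nat_lit 77) r6_375 r8_77 (nat_lit 0) (nat_lit 0) (nat_lit 0) (nat_lit 0x7deecab566) (nat_lit 1014701688),
  Rx.mk (nat_lit 447) (nat_lit 7) (nat_lit 7) (nat_lit 6) (nat_lit 7) (nat_lit 379) (nat_lit 78) r6_379 r8_78 (nat_lit 0) (nat_lit 0) (nat_lit 0) (nat_lit 0x7de3b0e70e) (nat_lit 1035986328),
  Rx.mk (nat_lit 511) (nat_lit 7) (nat_lit 7) (nat_lit 7) (nat_lit 7) (nat_lit 380) (nat_lit 73) r6_380 r8_73 (nat_lit 0) (nat_lit 0) (nat_lit 0) (nat_lit 0x7de7e5a3be) (nat_lit 1027921752)]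
noncomputable def e11_39 : List Rx := [
  Rx.mk (nat_lit 293) (nat_lit 5) (nat_lit 4) (nat_lit 4) (nat_lit 1) (nat_lit 381) (nat_lit 192) r6_381 r1_192 (nat_lit 0) (nat_lit 0) (nat_lit 0) (nat_lit 0x722130dad2) (nat_lit 6808307688),
  Rx.mk (nat_lit 317) (nat_lit 5) (nat_lit 7) (nat_lit 4) (nat_lit 3) (nat_lit 385) (nat_lit 195) r6_385 r1_195 (nat_lit 0) (nat_lit 0) (nat_lit 0) (nat_lit 0x7d8beb23c2) (nat_lit 1204281000),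
  Rx.mk (nat_lit 357) (nat_lit 5) (nat_lit 4) (nat_lit 5) (nat_lit 5) (nat_lit 382) (nat_lit 193) r6_382 r1_193 (nat_lit 0) (nat_lit 0) (nat_lit 0) (nat_lit 0x7d814b2dcc) (nat_lit 1224653040),
  Rx.mk (nat_lit 381) (nat_lit 5) (nat_lit 7) (nat_lit 5) (nat_lit 7) (nat_lit 386) (nat_lit 196) r6_386 r1_196 (nat_lit 0) (nat_lit 0) (nat_lit 0) (nat_lit 0x7df3680b8c) (nat_lit 1005853680),
  Rx.mk (nat_lit 421) (nat_lit 5) (nat_lit 4) (nat_lit 6) (nat_lit 5) (nat_lit 383) (nat_lit 194) r6_383 r1_194 (nat_lit 0) (nat_lit 0) (nat_lit 0) (nat_lit 0x7dcda1a818) (nat_lit 1078283232),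
  Rx.mk (nat_lit 437) (nat_lit 5) (nat_lit 6) (nat_lit 6) (nat_lit 7) (nat_lit 384) (nat_lit 198) r6_384 r1_198 (nat_lit 0) (nat_lit 0) (nat_lit 0) (nat_lit 0x7d43cb4608) (nat_lit 1342572192),
  Rx.mk (nat_lit 445) (nat_lit 5) (nat_lit 7) (nat_lit 6) (nat_lit 7) (nat_lit 387) (nat_lit 197) r6_387 r1_197 (nat_lit 0) (nat_lit 0) (nat_lit 0) (nat_lit 0x7dd2126108) (nat_lit 1069769376)]
noncomputable def e11_40 : List Rx := [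
  Rx.mk (nat_lit 293) (nat_lit 5) (nat_lit 4) (nat_lit 4) (nat_lit 1) (nat_lit 388) (nat_lit 248) r6_388 r7_248 (nat_lit 0) (nat_lit 0) (nat_lit 0) (nat_lit 0x66291d8800) (nat_lit 12683354112),
  Rx.mk (nat_lit 301) (nat_lit 5) (nat_lit 5) (nat_lit 4) (nat_lit 3) (nat_lit 391) (nat_lit 249) r6_391 r7_249 (nat_lit 0) (nat_lit 0) (nat_lit 0) (nat_lit 0x7d55b76734) (nat_lit 1308207888),
  Rx.mk (nat_lit 317) (nat_lit 5) (nat_lit 7) (nat_lit 4) (nat_lit 3) (nat_lit 395) (nat_lit 250) r6_395 r7_250 (nat_lit 0) (nat_lit 0) (nat_lit 0) (nat_lit 0x7d88d17560) (nat_lit 1210225536),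
  Rx.mk (nat_lit 357) (nat_lit 5) (nat_lit 4) (nat_lit 5) (nat_lit 5) (nat_lit 389) (nat_lit 251) r6_389 r7_251 (nat_lit 0) (nat_lit 0) (nat_lit 0) (nat_lit 0x7d509b58fa) (nat_lit 1318005000),
  Rx.mk (nat_lit 365) (nat_lit 5) (nat_lit 5) (nat_lit 5) (nat_lit 7) (nat_lit 392) (nat_lit 252) r6_392 r7_252 (nat_lit 0) (nat_lit 0) (nat_lit 0) (nat_lit 0x7de766ebaa) (nat_lit 1028870856),
  Rx.mk (nat_lit 381) (nat_lit 5) (nat_lit 7) (nat_lit 5) (nat_lit 7) (nat_lit 396) (nat_lit 253) r6_396 r7_253 (nat_lit 0) (nat_lit 0) (nat_lit 0) (nat_lit 0x7dd5e5a3d0) (nat_lit 1062434880),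
  Rx.mk (nat_lit 421) (nat_lit 5) (nat_lit 4) (nat_lit 6) (nat_lit 5) (nat_lit 390) (nat_lit 254) r6_390 r7_254 (nat_lit 0) (nat_lit 0) (nat_lit 0) (nat_lit 0x7dcd22900a) (nat_lit 1079235144),
  Rx.mk (nat_lit 429) (nat_lit 5) (nat_lit 5) (nat_lit 6) (nat_lit 7) (nat_lit 393) (nat_lit 255) r6_393 r7_255 (nat_lit 0) (nat_lit 0) (nat_lit 0) (nat_lit 0x7dc7720b18) (nat_lit 1090144224),
  Rx.mk (nat_lit 437) (nat_lit 5) (nat_lit 6) (nat_lit 6) (nat_lit 7) (nat_lit 394) (nat_lit 256) r6_394 r7_256 (nat_lit 0) (nat_lit 0) (nat_lit 0) (nat_lit 0x7dee7e3a2e) (nat_lit 1015274520)]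
noncomputable def e11_41 : List Rx := [
  Rx.mk (nat_lit 297) (nat_lit 1) (nat_lit 5) (nat_lit 4) (nat_lit 3) (nat_lit 397) (nat_lit 256) r6_397 r1_256 (nat_lit 0) (nat_lit 0) (nat_lit 0) (nat_lit 0x7d23d005dc) (nat_lit 1403893296),
  Rx.mk (nat_lit 361) (nat_lit 1) (nat_lit 5) (nat_lit 5) (nat_lit 7) (nat_lit 398) (nat_lit 257) r6_398 r1_257 (nat_lit 0) (nat_lit 0) (nat_lit 0) (nat_lit 0x7dde737aea) (nat_lit 1046033352)]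
noncomputable def e11_42 : List Rx := [
  Rx.mk (nat_lit 329) (nat_lit 1) (nat_lit 1) (nat_lit 5) (nat_lit 7) (nat_lit 400) (nat_lit 285) r6_400 r2_285 (nat_lit 0) (nat_lit 0) (nat_lit 0) (nat_lit 0x7ddbba867c) (nat_lit 1051253424),
  Rx.mk (nat_lit 361) (nat_lit 1) (nat_lit 5) (nat_lit 5) (nat_lit 7) (nat_lit 399) (nat_lit 284) r6_399 r2_284 (nat_lit 0) (nat_lit 0) (nat_lit 0) (nat_lit 0x7ddbba867c) (nat_lit 1051253424)]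
noncomputable def e11_43 : List Rx := [
  Rx.mk (nat_lit 297) (nat_lit 1) (nat_lit 5) (nat_lit 4) (nat_lit 3) (nat_lit 404) (nat_lit 184) r6_404 r7_184 (nat_lit 0) (nat_lit 0) (nat_lit 0) (nat_lit 0x7de7386e92) (nat_lit 1029219048),
  Rx.mk (nat_lit 301) (nat_lit 5) (nat_lit 5) (nat_lit 4) (nat_lit 3) (nat_lit 401) (nat_lit 185) r6_401 r7_185 (nat_lit 0) (nat_lit 0) (nat_lit 0) (nat_lit 0x7d9c65fc04) (nat_lit 1172682576),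
  Rx.mk (nat_lit 361) (nat_lit 1) (nat_lit 5) (nat_lit 5) (nat_lit 7) (nat_lit 405) (nat_lit 186) r6_405 r7_186 (nat_lit 0) (nat_lit 0) (nat_lit 0) (nat_lit 0x7de4f1130a) (nat_lit 1033588296),
  Rx.mk (nat_lit 365) (nat_lit 5) (nat_lit 5) (nat_lit 5) (nat_lit 7) (nat_lit 402) (nat_lit 187) r6_402 r7_187 (nat_lit 0) (nat_lit 0) (nat_lit 0) (nat_lit 0x7dbbebe386) (nat_lit 1112240376),
  Rx.mk (nat_lit 429) (nat_lit 5) (nat_lit 5) (nat_lit 6) (nat_lit 7) (nat_lit 403) (nat_lit 188) r6_403 r7_188 (nat_lit 0) (nat_lit 0) (nat_lit 0) (nat_lit 0x7dbabc967c) (nat_lit 1114512048)]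
noncomputable def e11_44 : List Rx := [
  Rx.mk (nat_lit 329) (nat_lit 1) (nat_lit 1) (nat_lit 5) (nat_lit 7) (nat_lit 408) (nat_lit 259) r6_408 r8_259 (nat_lit 0) (nat_lit 0) (nat_lit 0) (nat_lit 0x7de3b8069c) (nat_lit 1035932976),
  Rx.mk (nat_lit 361) (nat_lit 1) (nat_lit 5) (nat_lit 5) (nat_lit 7) (nat_lit 407) (nat_lit 258) r6_407 r8_258 (nat_lit 0) (nat_lit 0) (nat_lit 0) (nat_lit 0x7dd7634bf4) (nat_lit 1059576336),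
  Rx.mk (nat_lit 365) (nat_lit 5) (nat_lit 5) (nat_lit 5) (nat_lit 7) (nat_lit 406) (nat_lit 257) r6_406 r8_257 (nat_lit 0) (nat_lit 0) (nat_lit 0) (nat_lit 0x7ddfeca356) (nat_lit 1043208504)]
noncomputable def e11_45 : List Rx := [
  Rx.mk (nat_lit 73) (nat_lit 1) (nat_lit 1) (nat_lit 1) (nat_lit 7) (nat_lit 411) (nat_lit 257) r6_411 r8_257 (nat_lit 0) (nat_lit 0) (nat_lit 0) (nat_lit 0x7ddfeca356) (nat_lit 1043208504),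
  Rx.mk (nat_lit 329) (nat_lit 1) (nat_lit 1) (nat_lit 5) (nat_lit 7) (nat_lit 410) (nat_lit 258) r6_410 r8_258 (nat_lit 0) (nat_lit 0) (nat_lit 0) (nat_lit 0x7dd7634bf4) (nat_lit 1059576336),
  Rx.mk (nat_lit 361) (nat_lit 1) (nat_lit 5) (nat_lit 5) (nat_lit 7) (nat_lit 409) (nat_lit 259) r6_409 r8_259 (nat_lit 0) (nat_lit 0) (nat_lit 0) (nat_lit 0x7de3b8069c) (nat_lit 1035932976)]
noncomputable def e11_46 : List Rx := [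
  Rx.mk (nat_lit 289) (nat_lit 1) (nat_lit 4) (nat_lit 4) (nat_lit 1) (nat_lit 416) (nat_lit 265) r6_416 r4_265 (nat_lit 0) (nat_lit 0) (nat_lit 0) (nat_lit 0x735924da5a) (nat_lit 6210169992),
  Rx.mk (nat_lit 297) (nat_lit 1) (nat_lit 5) (nat_lit 4) (nat_lit 3) (nat_lit 418) (nat_lit 266) r6_418 r4_266 (nat_lit 0) (nat_lit 0) (nat_lit 0) (nat_lit 0x7db466bbe0) (nat_lit 1126659456),
  Rx.mk (nat_lit 313) (nat_lit 1) (nat_lit 7) (nat_lit 4) (nat_lit 3) (nat_lit 420) (nat_lit 267) r6_420 r4_267 (nat_lit 0) (nat_lit 0) (nat_lit 0) (nat_lit 0x7d7cbb56ce) (nat_lit 1233399960),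
  Rx.mk (nat_lit 353) (nat_lit 1) (nat_lit 4) (nat_lit 5) (nat_lit 5) (nat_lit 417) (nat_lit 268) r6_417 r4_268 (nat_lit 0) (nat_lit 0) (nat_lit 0) (nat_lit 0x7db5f0c33e) (nat_lit 1123708248),
  Rx.mk (nat_lit 361) (nat_lit 1) (nat_lit 5) (nat_lit 5) (nat_lit 7) (nat_lit 419) (nat_lit 269) r6_419 r4_269 (nat_lit 0) (nat_lit 0) (nat_lit 0) (nat_lit 0x7dde701b20) (nat_lit 1046058624),
  Rx.mk (nat_lit 377) (nat_lit 1) (nat_lit 7) (nat_lit 5) (nat_lit 7) (nat_lit 421) (nat_lit 270) r6_421 r4_270 (nat_lit 0) (nat_lit 0) (nat_lit 0) (nat_lit 0x7deda7c796) (nat_lit 1016880696)]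
noncomputable def e11_47 : List Rx := [
  Rx.mk (nat_lit 289) (nat_lit 1) (nat_lit 4) (nat_lit 4) (nat_lit 1) (nat_lit 427) (nat_lit 167) r6_427 r4_167 (nat_lit 0) (nat_lit 0) (nat_lit 0) (nat_lit 0x6ce30222fc) (nat_lit 9381803184),
  Rx.mk (nat_lit 313) (nat_lit 1) (nat_lit 7) (nat_lit 4) (nat_lit 3) (nat_lit 429) (nat_lit 169) r6_429 r4_169 (nat_lit 0) (nat_lit 0) (nat_lit 0) (nat_lit 0x7e5529ef0c) (nat_lit 818414064),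
  Rx.mk (nat_lit 317) (nat_lit 5) (nat_lit 7) (nat_lit 4) (nat_lit 3) (nat_lit 424) (nat_lit 170) r6_424 r4_170 (nat_lit 0) (nat_lit 0) (nat_lit 0) (nat_lit 0x7e444b5d06) (nat_lit 850759416),
  Rx.mk (nat_lit 353) (nat_lit 1) (nat_lit 4) (nat_lit 5) (nat_lit 5) (nat_lit 428) (nat_lit 168) r6_428 r4_168 (nat_lit 0) (nat_lit 0) (nat_lit 0) (nat_lit 0x7cb6e0d53c) (nat_lit 1612763568),
  Rx.mk (nat_lit 377) (nat_lit 1) (nat_lit 7) (nat_lit 5) (nat_lit 7) (nat_lit 430) (nat_lit 171) r6_430 r4_171 (nat_lit 0) (nat_lit 0) (nat_lit 0) (nat_lit 0x7e5e361e40) (nat_lit 801066240),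
  Rx.mk (nat_lit 381) (nat_lit 5) (nat_lit 7) (nat_lit 5) (nat_lit 7) (nat_lit 425) (nat_lit 172) r6_425 r4_172 (nat_lit 0) (nat_lit 0) (nat_lit 0) (nat_lit 0x7df13cce42) (nat_lit 1010012328),
  Rx.mk (nat_lit 445) (nat_lit 5) (nat_lit 7) (nat_lit 6) (nat_lit 7) (nat_lit 426) (nat_lit 173) r6_426 r4_173 (nat_lit 0) (nat_lit 0) (nat_lit 0) (nat_lit 0x7dcf6e0b50) (nat_lit 1074835008)]
noncomputable def e11_48 : List Rx := [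
  Rx.mk (nat_lit 289) (nat_lit 1) (nat_lit 4) (nat_lit 4) (nat_lit 1) (nat_lit 433) (nat_lit 286) r6_433 r9_286 (nat_lit 0) (nat_lit 0) (nat_lit 0) (nat_lit 0x753a13a98c) (nat_lit 5288031216),
  Rx.mk (nat_lit 297) (nat_lit 1) (nat_lit 5) (nat_lit 4) (nat_lit 3) (nat_lit 435) (nat_lit 287) r6_435 r9_287 (nat_lit 0) (nat_lit 0) (nat_lit 0) (nat_lit 0x7dc0263fdc) (nat_lit 1104133680),
  Rx.mk (nat_lit 313) (nat_lit 1) (nat_lit 7) (nat_lit 4) (nat_lit 3) (nat_lit 437) (nat_lit 288) r6_437 r9_288 (nat_lit 0) (nat_lit 0) (nat_lit 0) (nat_lit 0x7de3610c0c) (nat_lit 1036584432),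
  Rx.mk (nat_lit 317) (nat_lit 5) (nat_lit 7) (nat_lit 4) (nat_lit 3) (nat_lit 431) (nat_lit 284) r6_431 r9_284 (nat_lit 0) (nat_lit 0) (nat_lit 0) (nat_lit 0x7dbd4fad48) (nat_lit 1109575584),
  Rx.mk (nat_lit 353) (nat_lit 1) (nat_lit 4) (nat_lit 5) (nat_lit 5) (nat_lit 434) (nat_lit 289) r6_434 r9_289 (nat_lit 0) (nat_lit 0) (nat_lit 0) (nat_lit 0x7d8cac97aa) (nat_lit 1202832072),
  Rx.mk (nat_lit 361) (nat_lit 1) (nat_lit 5) (nat_lit 5) (nat_lit 7) (nat_lit 436) (nat_lit 290) r6_436 r9_290 (nat_lit 0) (nat_lit 0) (nat_lit 0) (nat_lit 0x7deed8348e) (nat_lit 1014600600),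
  Rx.mk (nat_lit 377) (nat_lit 1) (nat_lit 7) (nat_lit 5) (nat_lit 7) (nat_lit 438) (nat_lit 291) r6_438 r9_291 (nat_lit 0) (nat_lit 0) (nat_lit 0) (nat_lit 0x7df11510be) (nat_lit 1010309976),
  Rx.mk (nat_lit 381) (nat_lit 5) (nat_lit 7) (nat_lit 5) (nat_lit 7) (nat_lit 432) (nat_lit 285) r6_432 r9_285 (nat_lit 0) (nat_lit 0) (nat_lit 0) (nat_lit 0x7deb762ab2) (nat_lit 1021087080)]
noncomputable def e11_49 : List Rx := [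
  Rx.mk (nat_lit 313) (nat_lit 1) (nat_lit 7) (nat_lit 4) (nat_lit 3) (nat_lit 442) (nat_lit 306) r6_442 r10_306 (nat_lit 0) (nat_lit 0) (nat_lit 0) (nat_lit 0x7de08359ea) (nat_lit 1042079688),
  Rx.mk (nat_lit 317) (nat_lit 5) (nat_lit 7) (nat_lit 4) (nat_lit 3) (nat_lit 439) (nat_lit 303) r6_439 r10_303 (nat_lit 0) (nat_lit 0) (nat_lit 0) (nat_lit 0x7de1356ec8) (nat_lit 1040745888),
  Rx.mk (nat_lit 377) (nat_lit 1) (nat_lit 7) (nat_lit 5) (nat_lit 7) (nat_lit 443) (nat_lit 307) r6_443 r10_307 (nat_lit 0) (nat_lit 0) (nat_lit 0) (nat_lit 0x7de6505d14) (nat_lit 1030957200),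
  Rx.mk (nat_lit 381) (nat_lit 5) (nat_lit 7) (nat_lit 5) (nat_lit 7) (nat_lit 440) (nat_lit 304) r6_440 r10_304 (nat_lit 0) (nat_lit 0) (nat_lit 0) (nat_lit 0x7df52a4f66) (nat_lit 1002481272),
  Rx.mk (nat_lit 445) (nat_lit 5) (nat_lit 7) (nat_lit 6) (nat_lit 7) (nat_lit 441) (nat_lit 305) r6_441 r10_305 (nat_lit 0) (nat_lit 0) (nat_lit 0) (nat_lit 0x7dcf9d485c) (nat_lit 1074481200)]
noncomputable def e11_50 : List Rx := [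
  Rx.mk (nat_lit 289) (nat_lit 1) (nat_lit 4) (nat_lit 4) (nat_lit 1) (nat_lit 449) (nat_lit 212) r6_449 r10_212 (nat_lit 0) (nat_lit 0) (nat_lit 0) (nat_lit 0x776214075e) (nat_lit 4229625816),
  Rx.mk (nat_lit 297) (nat_lit 1) (nat_lit 5) (nat_lit 4) (nat_lit 3) (nat_lit 451) (nat_lit 214) r6_451 r10_214 (nat_lit 0) (nat_lit 0) (nat_lit 0) (nat_lit 0x7df79428c6) (nat_lit 997853688),
  Rx.mk (nat_lit 313) (nat_lit 1) (nat_lit 7) (nat_lit 4) (nat_lit 3) (nat_lit 453) (nat_lit 216) r6_453 r10_216 (nat_lit 0) (nat_lit 0) (nat_lit 0) (nat_lit 0x7dc96b0b86) (nat_lit 1086361848),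
  Rx.mk (nat_lit 353) (nat_lit 1) (nat_lit 4) (nat_lit 5) (nat_lit 5) (nat_lit 450) (nat_lit 213) r6_450 r10_213 (nat_lit 0) (nat_lit 0) (nat_lit 0) (nat_lit 0x7dbb30cf38) (nat_lit 1113641568),
  Rx.mk (nat_lit 361) (nat_lit 1) (nat_lit 5) (nat_lit 5) (nat_lit 7) (nat_lit 452) (nat_lit 215) r6_452 r10_215 (nat_lit 0) (nat_lit 0) (nat_lit 0) (nat_lit 0x7de4fa127a) (nat_lit 1033520904),
  Rx.mk (nat_lit 377) (nat_lit 1) (nat_lit 7) (nat_lit 5) (nat_lit 7) (nat_lit 454) (nat_lit 217) r6_454 r10_217 (nat_lit 0) (nat_lit 0) (nat_lit 0) (nat_lit 0x7dc83d9e5e) (nat_lit 1088619480),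
  Rx.mk (nat_lit 505) (nat_lit 1) (nat_lit 7) (nat_lit 7) (nat_lit 7) (nat_lit 455) (nat_lit 218) r6_455 r10_218 (nat_lit 0) (nat_lit 0) (nat_lit 0) (nat_lit 0x7def592c7e) (nat_lit 1013634648)]
noncomputable def e11_51 : List Rx := [
  Rx.mk (nat_lit 283) (nat_lit 3) (nat_lit 3) (nat_lit 4) (nat_lit 3) (nat_lit 50) (nat_lit 103) r6_50 r12_103 (nat_lit 0) (nat_lit 0) (nat_lit 0) (nat_lit 0x7d8621e05c) (nat_lit 1215375408),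
  Rx.mk (nat_lit 315) (nat_lit 3) (nat_lit 7) (nat_lit 4) (nat_lit 3) (nat_lit 49) (nat_lit 105) r6_49 r12_105 (nat_lit 0) (nat_lit 0) (nat_lit 0) (nat_lit 0x7cd666bcbe) (nat_lit 1552321368),
  Rx.mk (nat_lit 472) (nat_lit 0) (nat_lit 3) (nat_lit 7) (nat_lit 6) (nat_lit 48) (nat_lit 102) r6_48 r12_102 (nat_lit 0) (nat_lit 0) (nat_lit 0) (nat_lit 0x7ecbf921a2) (nat_lit 590609448),
  Rx.mk (nat_lit 475) (nat_lit 3) (nat_lit 3) (nat_lit 7) (nat_lit 7) (nat_lit 51) (nat_lit 104) r6_51 r12_104 (nat_lit 0) (nat_lit 0) (nat_lit 0) (nat_lit 0x7dbc727b1c) (nat_lit 1111232304)]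
noncomputable def e11_52 : List Rx := [
  Rx.mk (nat_lit 320) (nat_lit 0) (nat_lit 0) (nat_lit 5) (nat_lit 4) (nat_lit 88) (nat_lit 184) r6_88 r12_184 (nat_lit 0) (nat_lit 0) (nat_lit 0) (nat_lit 0x6f2aece208) (nat_lit 8262203040),
  Rx.mk (nat_lit 321) (nat_lit 1) (nat_lit 0) (nat_lit 5) (nat_lit 5) (nat_lit 90) (nat_lit 185) r6_90 r12_185 (nat_lit 0) (nat_lit 0) (nat_lit 0) (nat_lit 0x7dece293ea) (nat_lit 1018357704),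
  Rx.mk (nat_lit 344) (nat_lit 0) (nat_lit 3) (nat_lit 5) (nat_lit 6) (nat_lit 89) (nat_lit 186) r6_89 r12_186 (nat_lit 0) (nat_lit 0) (nat_lit 0) (nat_lit 0x7e3ff4227e) (nat_lit 859082328),
  Rx.mk (nat_lit 345) (nat_lit 1) (nat_lit 3) (nat_lit 5) (nat_lit 7) (nat_lit 91) (nat_lit 187) r6_91 r12_187 (nat_lit 0) (nat_lit 0) (nat_lit 0) (nat_lit 0x7e49bf85be) (nat_lit 840302424),
  Rx.mk (nat_lit 347) (nat_lit 3) (nat_lit 3) (nat_lit 5) (nat_lit 7) (nat_lit 92) (nat_lit 188) r6_92 r12_188 (nat_lit 0) (nat_lit 0) (nat_lit 0) (nat_lit 0x7dfaf092fc) (nat_lit 991409328)]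
noncomputable def e11_53 : List Rx := [
  Rx.mk (nat_lit 315) (nat_lit 3) (nat_lit 7) (nat_lit 4) (nat_lit 3) (nat_lit 272) (nat_lit 102) r6_272 r12_102 (nat_lit 0) (nat_lit 0) (nat_lit 0) (nat_lit 0x7ecbf921a2) (nat_lit 590609448),
  Rx.mk (nat_lit 472) (nat_lit 0) (nat_lit 3) (nat_lit 7) (nat_lit 6) (nat_lit 271) (nat_lit 105) r6_271 r12_105 (nat_lit 0) (nat_lit 0) (nat_lit 0) (nat_lit 0x7cd666bcbe) (nat_lit 1552321368),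
  Rx.mk (nat_lit 504) (nat_lit 0) (nat_lit 7) (nat_lit 7) (nat_lit 6) (nat_lit 270) (nat_lit 103) r6_270 r12_103 (nat_lit 0) (nat_lit 0) (nat_lit 0) (nat_lit 0x7d8621e05c) (nat_lit 1215375408),
  Rx.mk (nat_lit 507) (nat_lit 3) (nat_lit 7) (nat_lit 7) (nat_lit 7) (nat_lit 273) (nat_lit 104) r6_273 r12_104 (nat_lit 0) (nat_lit 0) (nat_lit 0) (nat_lit 0x7dbc727b1c) (nat_lit 1111232304)]
noncomputable def e11_54 : List Rx := [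
  Rx.mk (nat_lit 344) (nat_lit 0) (nat_lit 3) (nat_lit 5) (nat_lit 6) (nat_lit 286) (nat_lit 256) r6_286 r12_256 (nat_lit 0) (nat_lit 0) (nat_lit 0) (nat_lit 0x7e13f5229a) (nat_lit 943440264),
  Rx.mk (nat_lit 345) (nat_lit 1) (nat_lit 3) (nat_lit 5) (nat_lit 7) (nat_lit 287) (nat_lit 257) r6_287 r12_257 (nat_lit 0) (nat_lit 0) (nat_lit 0) (nat_lit 0x7e7b9907f4) (nat_lit 744720912)]
noncomputable def e11_55 : List Rx := [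
  Rx.mk (nat_lit 289) (nat_lit 1) (nat_lit 4) (nat_lit 4) (nat_lit 1) (nat_lit 412) (nat_lit 245) r6_412 r3_245 (nat_lit 0) (nat_lit 0) (nat_lit 0) (nat_lit 0x70137118dc) (nat_lit 7816376880),
  Rx.mk (nat_lit 313) (nat_lit 1) (nat_lit 7) (nat_lit 4) (nat_lit 3) (nat_lit 414) (nat_lit 246) r6_414 r3_246 (nat_lit 0) (nat_lit 0) (nat_lit 0) (nat_lit 0x7ed67c9960) (nat_lit 570450816),
  Rx.mk (nat_lit 353) (nat_lit 1) (nat_lit 4) (nat_lit 5) (nat_lit 5) (nat_lit 413) (nat_lit 247) r6_413 r3_247 (nat_lit 0) (nat_lit 0) (nat_lit 0) (nat_lit 0x721a4209c6) (nat_lit 6821600760),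
  Rx.mk (nat_lit 377) (nat_lit 1) (nat_lit 7) (nat_lit 5) (nat_lit 7) (nat_lit 415) (nat_lit 248) r6_415 r3_248 (nat_lit 0) (nat_lit 0) (nat_lit 0) (nat_lit 0x7eecb9f574) (nat_lit 527808528)]
noncomputable def e11_56 : List Rx := [
  Rx.mk (nat_lit 313) (nat_lit 1) (nat_lit 7) (nat_lit 4) (nat_lit 3) (nat_lit 422) (nat_lit 256) r6_422 r12_256 (nat_lit 0) (nat_lit 0) (nat_lit 0) (nat_lit 0x7e13f5229a) (nat_lit 943440264),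
  Rx.mk (nat_lit 377) (nat_lit 1) (nat_lit 7) (nat_lit 5) (nat_lit 7) (nat_lit 423) (nat_lit 257) r6_423 r12_257 (nat_lit 0) (nat_lit 0) (nat_lit 0) (nat_lit 0x7e7b9907f4) (nat_lit 744720912)]
noncomputable def e11_57 : List Rx := [
  Rx.mk (nat_lit 289) (nat_lit 1) (nat_lit 4) (nat_lit 4) (nat_lit 1) (nat_lit 444) (nat_lit 184) r6_444 r12_184 (nat_lit 0) (nat_lit 0) (nat_lit 0) (nat_lit 0x6f2aece208) (nat_lit 8262203040),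
  Rx.mk (nat_lit 313) (nat_lit 1) (nat_lit 7) (nat_lit 4) (nat_lit 3) (nat_lit 446) (nat_lit 186) r6_446 r12_186 (nat_lit 0) (nat_lit 0) (nat_lit 0) (nat_lit 0x7e3ff4227e) (nat_lit 859082328),
  Rx.mk (nat_lit 353) (nat_lit 1) (nat_lit 4) (nat_lit 5) (nat_lit 5) (nat_lit 445) (nat_lit 185) r6_445 r12_185 (nat_lit 0) (nat_lit 0) (nat_lit 0) (nat_lit 0x7dece293ea) (nat_lit 1018357704),
  Rx.mk (nat_lit 377) (nat_lit 1) (nat_lit 7) (nat_lit 5) (nat_lit 7) (nat_lit 447) (nat_lit 187) r6_447 r12_187 (nat_lit 0) (nat_lit 0) (nat_lit 0) (nat_lit 0x7e49bf85be) (nat_lit 840302424),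
  Rx.mk (nat_lit 505) (nat_lit 1) (nat_lit 7) (nat_lit 7) (nat_lit 7) (nat_lit 448) (nat_lit 188) r6_448 r12_188 (nat_lit 0) (nat_lit 0) (nat_lit 0) (nat_lit 0x7dfaf092fc) (nat_lit 991409328)]
noncomputable def e11 : List (List Rx) := [e11_0, e11_1, e11_2, e11_3, e11_4, e11_5, e11_6, e11_7, e11_8, e11_9, e11_10, e11_11, e11_12, e11_13, e11_14, e11_15, e11_16, e11_17, e11_18, e11_19, e11_20, e11_21, e11_22, e11_23, e11_24, e11_25, e11_26, e11_27, e11_28, e11_29, e11_30, e11_31, e11_32, e11_33, e11_34, e11_35, e11_36, e11_37, e11_38, e11_39, e11_40, e11_41, e11_42, e11_43, e11_44, e11_45, e11_46, e11_47, e11_48, e11_49, e11_50, e11_51, e11_52, e11_53, e11_54, e11_55, e11_56, e11_57]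

end Pool.Agent.AKXS_0_25_WE
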