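import Pool.Agent.AKXS_0_25_WE.R0
import Pool.Agent.AKXS_0_25_WE.R1
import Pool.Agent.AKXS_0_25_WE.R2
import Pool.Agent.AKXS_0_25_WE.R3
import Pool.Agent.AKXS_0_25_WE.R4
import Pool.Agent.AKXS_0_25_WE.R5
import Pool.Agent.AKXS_0_25_WE.R6
import Pool.Agent.AKXS_0_25_WE.R7
import Pool.Agent.AKXS_0_25_WE.R8
import Pool.Agent.AKXS_0_25_WE.R9
import Pool.Agent.AKXS_0_25_WE.R10
import Pool.Agent.AKXS_0_25_WE.R11
import Pool.Agent.AKXS_0_25_WE.R12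

set_option autoImplicit false

namespace Pool.Agent.AKXS_0_25_WE

open Pool.Agent.AKX Pool.Agent.AKU

noncomputable def e12_0 : List Rx := [
  Rx.mk (nat_lit 0) (nat_lit 0) (nat_lit 0) (nat_lit 0) (nat_lit 0) (nat_lit 94) (nat_lit 111) r1_94 r0_111 (nat_lit 0) (nat_lit 0) (nat_lit 0) (nat_lit 0x7fc651db1c) (nat_lit 110595888),
  Rx.mk (nat_lit 1) (nat_lit 1) (nat_lit 0) (nat_lit 0) (nat_lit 1) (nat_lit 95) (nat_lit 114) r1_95 r0_114 (nat_lit 0) (nat_lit 0) (nat_lit 0) (nat_lit 0x7c02729cd4) (nat_lit 1958720400),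
  Rx.mk (nat_lit 2) (nat_lit 2) (nat_lit 0) (nat_lit 0) (nat_lit 1) (nat_lit 96) (nat_lit 118) r1_96 r0_118 (nat_lit 0) (nat_lit 0) (nat_lit 0) (nat_lit 0x76fc4b844c) (nat_lit 4424784624),
  Rx.mk (nat_lit 18) (nat_lit 2) (nat_lit 2) (nat_lit 0) (nat_lit 3) (nat_lit 97) (nat_lit 121) r1_97 r0_121 (nat_lit 0) (nat_lit 0) (nat_lit 0) (nat_lit 0x7d51e2a484) (nat_lit 1315553616),
  Rx.mk (nat_lit 146) (nat_lit 2) (nat_lit 2) (nat_lit 2) (nat_lit 7) (nat_lit 98) (nat_lit 123) r1_98 r0_123 (nat_lit 0) (nat_lit 0) (nat_lit 0) (nat_lit 0x7dd1bc8666) (nat_lit 1070412408),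
  Rx.mk (nat_lit 192) (nat_lit 0) (nat_lit 0) (nat_lit 3) (nat_lit 4) (nat_lit 99) (nat_lit 112) r1_99 r0_112 (nat_lit 0) (nat_lit 0) (nat_lit 0) (nat_lit 0x6fba2ced78) (nat_lit 7987535712),
  Rx.mk (nat_lit 193) (nat_lit 1) (nat_lit 0) (nat_lit 3) (nat_lit 5) (nat_lit 100) (nat_lit 115) r1_100 r0_115 (nat_lit 0) (nat_lit 0) (nat_lit 0) (nat_lit 0x7d6029a006) (nat_lit 1288178424),
  Rx.mk (nat_lit 194) (nat_lit 2) (nat_lit 0) (nat_lit 3) (nat_lit 5) (nat_lit 101) (nat_lit 119) r1_101 r0_119 (nat_lit 0) (nat_lit 0) (nat_lit 0) (nat_lit 0x7ddf4a4d7c) (nat_lit 1044424368),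
  Rx.mk (nat_lit 210) (nat_lit 2) (nat_lit 2) (nat_lit 3) (nat_lit 7) (nat_lit 102) (nat_lit 122) r1_102 r0_122 (nat_lit 0) (nat_lit 0) (nat_lit 0) (nat_lit 0x7df6bc3646) (nat_lit 999471096),
  Rx.mk (nat_lit 216) (nat_lit 0) (nat_lit 3) (nat_lit 3) (nat_lit 6) (nat_lit 103) (nat_lit 113) r1_103 r0_113 (nat_lit 0) (nat_lit 0) (nat_lit 0) (nat_lit 0x6f612c3ddc) (nat_lit 8158189104),
  Rx.mk (nat_lit 217) (nat_lit 1) (nat_lit 3) (nat_lit 3) (nat_lit 7) (nat_lit 104) (nat_lit 116) r1_104 r0_116 (nat_lit 0) (nat_lit 0) (nat_lit 0) (nat_lit 0x7daa421e34) (nat_lit 1146107664),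
  Rx.mk (nat_lit 218) (nat_lit 2) (nat_lit 3) (nat_lit 3) (nat_lit 7) (nat_lit 105) (nat_lit 120) r1_105 r0_120 (nat_lit 0) (nat_lit 0) (nat_lit 0) (nat_lit 0x7dd7b446e4) (nat_lit 1058969808),
  Rx.mk (nat_lit 219) (nat_lit 3) (nat_lit 3) (nat_lit 3) (nat_lit 7) (nat_lit 106) (nat_lit 117) r1_106 r0_117 (nat_lit 0) (nat_lit 0) (nat_lit 0) (nat_lit 0x7d94a957d6) (nat_lit 1187517240)]
noncomputable def e12_1 : List Rx := [
  Rx.mk (nat_lit 0) (nat_lit 0) (nat_lit 0) (nat_lit 0) (nat_lit 0) (nat_lit 117) (nat_lit 117) r1_117 r1_117 (nat_lit 0) (nat_lit 0) (nat_lit 0) (nat_lit 0x7c410b530a) (nat_lit 1838698056),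
  Rx.mk (nat_lit 1) (nat_lit 1) (nat_lit 0) (nat_lit 0) (nat_lit 1) (nat_lit 118) (nat_lit 121) r1_118 r1_121 (nat_lit 0) (nat_lit 0) (nat_lit 0) (nat_lit 0x7ce0ba377c) (nat_lit 1532522160),
  Rx.mk (nat_lit 2) (nat_lit 2) (nat_lit 0) (nat_lit 0) (nat_lit 1) (nat_lit 119) (nat_lit 126) r1_119 r1_126 (nat_lit 0) (nat_lit 0) (nat_lit 0) (nat_lit 0x7ca72d7082) (nat_lit 1642868136),
  Rx.mk (nat_lit 18) (nat_lit 2) (nat_lit 2) (nat_lit 0) (nat_lit 3) (nat_lit 120) (nat_lit 128) r1_120 r1_128 (nat_lit 0) (nat_lit 0) (nat_lit 0) (nat_lit 0x7d10ae380c) (nat_lit 1440577008),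
  Rx.mk (nat_lit 64) (nat_lit 0) (nat_lit 0) (nat_lit 1) (nat_lit 4) (nat_lit 121) (nat_lit 118) r1_121 r1_118 (nat_lit 0) (nat_lit 0) (nat_lit 0) (nat_lit 0x7ce0ba377c) (nat_lit 1532522160),
  Rx.mk (nat_lit 65) (nat_lit 1) (nat_lit 0) (nat_lit 1) (nat_lit 5) (nat_lit 122) (nat_lit 122) r1_122 r1_122 (nat_lit 0) (nat_lit 0) (nat_lit 0) (nat_lit 0x7de869fb78) (nat_lit 1026930528),
  Rx.mk (nat_lit 66) (nat_lit 2) (nat_lit 0) (nat_lit 1) (nat_lit 5) (nat_lit 123) (nat_lit 127) r1_123 r1_127 (nat_lit 0) (nat_lit 0) (nat_lit 0) (nat_lit 0x7dead0d508) (nat_lit 1022325408),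
  Rx.mk (nat_lit 82) (nat_lit 2) (nat_lit 2) (nat_lit 1) (nat_lit 7) (nat_lit 124) (nat_lit 129) r1_124 r1_129 (nat_lit 0) (nat_lit 0) (nat_lit 0) (nat_lit 0x7de5b9a680) (nat_lit 1032086016),
  Rx.mk (nat_lit 146) (nat_lit 2) (nat_lit 2) (nat_lit 2) (nat_lit 7) (nat_lit 125) (nat_lit 130) r1_125 r1_130 (nat_lit 0) (nat_lit 0) (nat_lit 0) (nat_lit 0x7de650bd0e) (nat_lit 1030954392),
  Rx.mk (nat_lit 192) (nat_lit 0) (nat_lit 0) (nat_lit 3) (nat_lit 4) (nat_lit 126) (nat_lit 119) r1_126 r1_119 (nat_lit 0) (nat_lit 0) (nat_lit 0) (nat_lit 0x7ca72d7082) (nat_lit 1642868136),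
  Rx.mk (nat_lit 193) (nat_lit 1) (nat_lit 0) (nat_lit 3) (nat_lit 5) (nat_lit 127) (nat_lit 123) r1_127 r1_123 (nat_lit 0) (nat_lit 0) (nat_lit 0) (nat_lit 0x7dead0d508) (nat_lit 1022325408),
  Rx.mk (nat_lit 216) (nat_lit 0) (nat_lit 3) (nat_lit 3) (nat_lit 6) (nat_lit 128) (nat_lit 120) r1_128 r1_120 (nat_lit 0) (nat_lit 0) (nat_lit 0) (nat_lit 0x7d10ae380c) (nat_lit 1440577008),
  Rx.mk (nat_lit 217) (nat_lit 1) (nat_lit 3) (nat_lit 3) (nat_lit 7) (nat_lit 129) (nat_lit 124) r1_129 r1_124 (nat_lit 0) (nat_lit 0) (nat_lit 0) (nat_lit 0x7de5b9a680) (nat_lit 1032086016),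
  Rx.mk (nat_lit 219) (nat_lit 3) (nat_lit 3) (nat_lit 3) (nat_lit 7) (nat_lit 130) (nat_lit 125) r1_130 r1_125 (nat_lit 0) (nat_lit 0) (nat_lit 0) (nat_lit 0x7de650bd0e) (nat_lit 1030954392)]
noncomputable def e12_2 : List Rx := [
  Rx.mk (nat_lit 64) (nat_lit 0) (nat_lit 0) (nat_lit 1) (nat_lit 4) (nat_lit 258) (nat_lit 115) r1_258 r2_115 (nat_lit 0) (nat_lit 0) (nat_lit 0) (nat_lit 0x64fea130f0) (nat_lit 13255669440),
  Rx.mk (nat_lit 65) (nat_lit 1) (nat_lit 0) (nat_lit 1) (nat_lit 5) (nat_lit 259) (nat_lit 116) r1_259 r2_116 (nat_lit 0) (nat_lit 0) (nat_lit 0) (nat_lit 0x7d01d9256c) (nat_lit 1469016432),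
  Rx.mk (nat_lit 66) (nat_lit 2) (nat_lit 0) (nat_lit 1) (nat_lit 5) (nat_lit 260) (nat_lit 117) r1_260 r2_117 (nat_lit 0) (nat_lit 0) (nat_lit 0) (nat_lit 0x7dc4639c02) (nat_lit 1096004520),
  Rx.mk (nat_lit 82) (nat_lit 2) (nat_lit 2) (nat_lit 1) (nat_lit 7) (nat_lit 261) (nat_lit 118) r1_261 r2_118 (nat_lit 0) (nat_lit 0) (nat_lit 0) (nat_lit 0x7deee313e0) (nat_lit 1014519168)]
noncomputable def e12_3 : List Rx := [
  Rx.mk (nat_lit 192) (nat_lit 0) (nat_lit 0) (nat_lit 3) (nat_lit 4) (nat_lit 39) (nat_lit 101) r1_39 r3_101 (nat_lit 0) (nat_lit 0) (nat_lit 0) (nat_lit 0x8000000000) (nat_lit 0),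
  Rx.mk (nat_lit 193) (nat_lit 1) (nat_lit 0) (nat_lit 3) (nat_lit 5) (nat_lit 40) (nat_lit 104) r1_40 r3_104 (nat_lit 0) (nat_lit 0) (nat_lit 0) (nat_lit 0x7ecc02e106) (nat_lit 590536440),
  Rx.mk (nat_lit 194) (nat_lit 2) (nat_lit 0) (nat_lit 3) (nat_lit 5) (nat_lit 41) (nat_lit 109) r1_41 r3_109 (nat_lit 0) (nat_lit 0) (nat_lit 0) (nat_lit 0x7e2853bc9c) (nat_lit 904383792),
  Rx.mk (nat_lit 210) (nat_lit 2) (nat_lit 2) (nat_lit 3) (nat_lit 7) (nat_lit 42) (nat_lit 111) r1_42 r3_111 (nat_lit 0) (nat_lit 0) (nat_lit 0) (nat_lit 0x7efab4d5b8) (nat_lit 501003360),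
  Rx.mk (nat_lit 216) (nat_lit 0) (nat_lit 3) (nat_lit 3) (nat_lit 6) (nat_lit 43) (nat_lit 102) r1_43 r3_102 (nat_lit 0) (nat_lit 0) (nat_lit 0) (nat_lit 0x7d89c9a5dc) (nat_lit 1208366640),
  Rx.mk (nat_lit 217) (nat_lit 1) (nat_lit 3) (nat_lit 3) (nat_lit 7) (nat_lit 44) (nat_lit 105) r1_44 r3_105 (nat_lit 0) (nat_lit 0) (nat_lit 0) (nat_lit 0x7ed104b0e4) (nat_lit 580935888),
  Rx.mk (nat_lit 218) (nat_lit 2) (nat_lit 3) (nat_lit 3) (nat_lit 7) (nat_lit 45) (nat_lit 110) r1_45 r3_110 (nat_lit 0) (nat_lit 0) (nat_lit 0) (nat_lit 0x7e3f27cf44) (nat_lit 860612688),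
  Rx.mk (nat_lit 472) (nat_lit 0) (nat_lit 3) (nat_lit 7) (nat_lit 6) (nat_lit 46) (nat_lit 103) r1_46 r3_103 (nat_lit 0) (nat_lit 0) (nat_lit 0) (nat_lit 0x7c72d45648) (nat_lit 1743240096),
  Rx.mk (nat_lit 473) (nat_lit 1) (nat_lit 3) (nat_lit 7) (nat_lit 7) (nat_lit 47) (nat_lit 106) r1_47 r3_106 (nat_lit 0) (nat_lit 0) (nat_lit 0) (nat_lit 0x7f3b894830) (nat_lit 376698816),
  Rx.mk (nat_lit 475) (nat_lit 3) (nat_lit 3) (nat_lit 7) (nat_lit 7) (nat_lit 48) (nat_lit 107) r1_48 r3_107 (nat_lit 0) (nat_lit 0) (nat_lit 0) (nat_lit 0x7ee53b2d68) (nat_lit 542179872),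
  Rx.mk (nat_lit 507) (nat_lit 3) (nat_lit 7) (nat_lit 7) (nat_lit 7) (nat_lit 49) (nat_lit 108) r1_49 r3_108 (nat_lit 0) (nat_lit 0) (nat_lit 0) (nat_lit 0x7e2ce9f334) (nat_lit 895589136)]
noncomputable def e12_4 : List Rx := [
  Rx.mk (nat_lit 192) (nat_lit 0) (nat_lit 0) (nat_lit 3) (nat_lit 4) (nat_lit 154) (nat_lit 107) r1_154 r4_107 (nat_lit 0) (nat_lit 0) (nat_lit 0) (nat_lit 0x74634ad6f0) (nat_lit 5699858112),
  Rx.mk (nat_lit 193) (nat_lit 1) (nat_lit 0) (nat_lit 3) (nat_lit 5) (nat_lit 155) (nat_lit 109) r1_155 r4_109 (nat_lit 0) (nat_lit 0) (nat_lit 0) (nat_lit 0x7dc2547cf6) (nat_lit 1099952568),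
  Rx.mk (nat_lit 194) (nat_lit 2) (nat_lit 0) (nat_lit 3) (nat_lit 5) (nat_lit 156) (nat_lit 111) r1_156 r4_111 (nat_lit 0) (nat_lit 0) (nat_lit 0) (nat_lit 0x7e11d58496) (nat_lit 947511864),
  Rx.mk (nat_lit 210) (nat_lit 2) (nat_lit 2) (nat_lit 3) (nat_lit 7) (nat_lit 157) (nat_lit 113) r1_157 r4_113 (nat_lit 0) (nat_lit 0) (nat_lit 0) (nat_lit 0x7df3f3e2ce) (nat_lit 1004806296),
  Rx.mk (nat_lit 216) (nat_lit 0) (nat_lit 3) (nat_lit 3) (nat_lit 6) (nat_lit 158) (nat_lit 108) r1_158 r4_108 (nat_lit 0) (nat_lit 0) (nat_lit 0) (nat_lit 0x727dbfd186) (nat_lit 6630836472),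
  Rx.mk (nat_lit 217) (nat_lit 1) (nat_lit 3) (nat_lit 3) (nat_lit 7) (nat_lit 159) (nat_lit 110) r1_159 r4_110 (nat_lit 0) (nat_lit 0) (nat_lit 0) (nat_lit 0x7dbbbc4680) (nat_lit 1112596992),
  Rx.mk (nat_lit 218) (nat_lit 2) (nat_lit 3) (nat_lit 3) (nat_lit 7) (nat_lit 160) (nat_lit 112) r1_160 r4_112 (nat_lit 0) (nat_lit 0) (nat_lit 0) (nat_lit 0x7dbe303f3e) (nat_lit 1107893592)]
noncomputable def e12_5 : List Rx := [
  Rx.mk (nat_lit 257) (nat_lit 1) (nat_lit 0) (nat_lit 4) (nat_lit 1) (nat_lit 323) (nat_lit 148) r1_323 r3_148 (nat_lit 0) (nat_lit 0) (nat_lit 0) (nat_lit 0x8000000000) (nat_lit 0),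
  Rx.mk (nat_lit 281) (nat_lit 1) (nat_lit 3) (nat_lit 4) (nat_lit 3) (nat_lit 293) (nat_lit 150) r1_293 r3_150 (nat_lit 0) (nat_lit 0) (nat_lit 0) (nat_lit 0x7f34c65466) (nat_lit 389663352),
  Rx.mk (nat_lit 321) (nat_lit 1) (nat_lit 0) (nat_lit 5) (nat_lit 5) (nat_lit 294) (nat_lit 149) r1_294 r3_149 (nat_lit 0) (nat_lit 0) (nat_lit 0) (nat_lit 0x7f3dabe604) (nat_lit 372604752),
  Rx.mk (nat_lit 345) (nat_lit 1) (nat_lit 3) (nat_lit 5) (nat_lit 7) (nat_lit 295) (nat_lit 151) r1_295 r3_151 (nat_lit 0) (nat_lit 0) (nat_lit 0) (nat_lit 0x7f46a79640) (nat_lit 355380480)]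
noncomputable def e12_6 : List Rx := [
  Rx.mk (nat_lit 321) (nat_lit 1) (nat_lit 0) (nat_lit 5) (nat_lit 5) (nat_lit 255) (nat_lit 173) r1_255 r0_173 (nat_lit 0) (nat_lit 0) (nat_lit 0) (nat_lit 0x7da5614c46) (nat_lit 1155461112)]
noncomputable def e12_7 : List Rx := [
  Rx.mk (nat_lit 65) (nat_lit 1) (nat_lit 0) (nat_lit 1) (nat_lit 5) (nat_lit 272) (nat_lit 186) r1_272 r1_186 (nat_lit 0) (nat_lit 0) (nat_lit 0) (nat_lit 0x7dbb600c44) (nat_lit 1113287760),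
  Rx.mk (nat_lit 321) (nat_lit 1) (nat_lit 0) (nat_lit 5) (nat_lit 5) (nat_lit 273) (nat_lit 185) r1_273 r1_185 (nat_lit 0) (nat_lit 0) (nat_lit 0) (nat_lit 0x7db8bf7650) (nat_lit 1118325312)]
noncomputable def e12_8 : List Rx := [
  Rx.mk (nat_lit 321) (nat_lit 1) (nat_lit 0) (nat_lit 5) (nat_lit 5) (nat_lit 304) (nat_lit 159) r1_304 r4_159 (nat_lit 0) (nat_lit 0) (nat_lit 0) (nat_lit 0x7e188df908) (nat_lit 934625952),
  Rx.mk (nat_lit 345) (nat_lit 1) (nat_lit 3) (nat_lit 5) (nat_lit 7) (nat_lit 305) (nat_lit 160) r1_305 r4_160 (nat_lit 0) (nat_lit 0) (nat_lit 0) (nat_lit 0x7e535d2bda) (nat_lit 821865096)]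
noncomputable def e12_9 : List Rx := [
  Rx.mk (nat_lit 281) (nat_lit 1) (nat_lit 3) (nat_lit 4) (nat_lit 3) (nat_lit 246) (nat_lit 117) r1_246 r5_117 (nat_lit 0) (nat_lit 0) (nat_lit 0) (nat_lit 0x7f6760ea8a) (nat_lit 292635720),
  Rx.mk (nat_lit 449) (nat_lit 1) (nat_lit 0) (nat_lit 7) (nat_lit 5) (nat_lit 247) (nat_lit 116) r1_247 r5_116 (nat_lit 0) (nat_lit 0) (nat_lit 0) (nat_lit 0x7f624a1bfc) (nat_lit 302393520),
  Rx.mk (nat_lit 473) (nat_lit 1) (nat_lit 3) (nat_lit 7) (nat_lit 7) (nat_lit 248) (nat_lit 118) r1_248 r5_118 (nat_lit 0) (nat_lit 0) (nat_lit 0) (nat_lit 0x7e75103088) (nat_lit 757250208)]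
noncomputable def e12_10 : List Rx := [
  Rx.mk (nat_lit 18) (nat_lit 2) (nat_lit 2) (nat_lit 0) (nat_lit 3) (nat_lit 0) (nat_lit 22) r1_0 r0_22 (nat_lit 0) (nat_lit 0) (nat_lit 0) (nat_lit 0x76832bf6be) (nat_lit 4657025880),
  Rx.mk (nat_lit 146) (nat_lit 2) (nat_lit 2) (nat_lit 2) (nat_lit 7) (nat_lit 1) (nat_lit 29) r1_1 r0_29 (nat_lit 0) (nat_lit 0) (nat_lit 0) (nat_lit 0x75ecc41dd2) (nat_lit 4945413096),
  Rx.mk (nat_lit 192) (nat_lit 0) (nat_lit 0) (nat_lit 3) (nat_lit 4) (nat_lit 2) (nat_lit 23) r1_2 r0_23 (nat_lit 0) (nat_lit 0) (nat_lit 0) (nat_lit 0x6facf0e146) (nat_lit 8012911608),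
  Rx.mk (nat_lit 194) (nat_lit 2) (nat_lit 0) (nat_lit 3) (nat_lit 5) (nat_lit 3) (nat_lit 24) r1_3 r0_24 (nat_lit 0) (nat_lit 0) (nat_lit 0) (nat_lit 0x78202e24fe) (nat_lit 3865124952),
  Rx.mk (nat_lit 210) (nat_lit 2) (nat_lit 2) (nat_lit 3) (nat_lit 7) (nat_lit 4) (nat_lit 28) r1_4 r0_28 (nat_lit 0) (nat_lit 0) (nat_lit 0) (nat_lit 0x7efe491c70) (nat_lit 494140608),
  Rx.mk (nat_lit 216) (nat_lit 0) (nat_lit 3) (nat_lit 3) (nat_lit 6) (nat_lit 5) (nat_lit 25) r1_5 r0_25 (nat_lit 0) (nat_lit 0) (nat_lit 0) (nat_lit 0x780ee6f982) (nat_lit 3898253736),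
  Rx.mk (nat_lit 218) (nat_lit 2) (nat_lit 3) (nat_lit 3) (nat_lit 7) (nat_lit 6) (nat_lit 27) r1_6 r0_27 (nat_lit 0) (nat_lit 0) (nat_lit 0) (nat_lit 0x7d16a418a8) (nat_lit 1429148448),
  Rx.mk (nat_lit 219) (nat_lit 3) (nat_lit 3) (nat_lit 3) (nat_lit 7) (nat_lit 7) (nat_lit 26) r1_7 r0_26 (nat_lit 0) (nat_lit 0) (nat_lit 0) (nat_lit 0x7c8a811b64) (nat_lit 1697845968),
  Rx.mk (nat_lit 475) (nat_lit 3) (nat_lit 3) (nat_lit 7) (nat_lit 7) (nat_lit 8) (nat_lit 21) r1_8 r0_21 (nat_lit 0) (nat_lit 0) (nat_lit 0) (nat_lit 0x7c9e945a1c) (nat_lit 1659353904),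
  Rx.mk (nat_lit 507) (nat_lit 3) (nat_lit 7) (nat_lit 7) (nat_lit 7) (nat_lit 9) (nat_lit 20) r1_9 r0_20 (nat_lit 0) (nat_lit 0) (nat_lit 0) (nat_lit 0x7ccb2590dc) (nat_lit 1573900848)]
noncomputable def e12_11 : List Rx := [
  Rx.mk (nat_lit 0) (nat_lit 0) (nat_lit 0) (nat_lit 0) (nat_lit 0) (nat_lit 107) (nat_lit 126) r1_107 r6_126 (nat_lit 0) (nat_lit 0) (nat_lit 0) (nat_lit 0x55073477b4) (nat_lit 21092881680),
  Rx.mk (nat_lit 2) (nat_lit 2) (nat_lit 0) (nat_lit 0) (nat_lit 1) (nat_lit 108) (nat_lit 130) r1_108 r6_130 (nat_lit 0) (nat_lit 0) (nat_lit 0) (nat_lit 0x6c89b37840) (nat_lit 9553040640),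
  Rx.mk (nat_lit 18) (nat_lit 2) (nat_lit 2) (nat_lit 0) (nat_lit 3) (nat_lit 109) (nat_lit 133) r1_109 r6_133 (nat_lit 0) (nat_lit 0) (nat_lit 0) (nat_lit 0x7c894ceea8) (nat_lit 1700154144),
  Rx.mk (nat_lit 146) (nat_lit 2) (nat_lit 2) (nat_lit 2) (nat_lit 7) (nat_lit 110) (nat_lit 135) r1_110 r6_135 (nat_lit 0) (nat_lit 0) (nat_lit 0) (nat_lit 0x7de4f8f28c) (nat_lit 1033529328),
  Rx.mk (nat_lit 192) (nat_lit 0) (nat_lit 0) (nat_lit 3) (nat_lit 4) (nat_lit 111) (nat_lit 127) r1_111 r6_127 (nat_lit 0) (nat_lit 0) (nat_lit 0) (nat_lit 0x67e0964ebc) (nat_lit 11840712624),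
  Rx.mk (nat_lit 194) (nat_lit 2) (nat_lit 0) (nat_lit 3) (nat_lit 5) (nat_lit 112) (nat_lit 131) r1_112 r6_131 (nat_lit 0) (nat_lit 0) (nat_lit 0) (nat_lit 0x7d6284da50) (nat_lit 1283660352),
  Rx.mk (nat_lit 210) (nat_lit 2) (nat_lit 2) (nat_lit 3) (nat_lit 7) (nat_lit 113) (nat_lit 134) r1_113 r6_134 (nat_lit 0) (nat_lit 0) (nat_lit 0) (nat_lit 0x7de1bde640) (nat_lit 1039723776),
  Rx.mk (nat_lit 216) (nat_lit 0) (nat_lit 3) (nat_lit 3) (nat_lit 6) (nat_lit 114) (nat_lit 128) r1_114 r6_128 (nat_lit 0) (nat_lit 0) (nat_lit 0) (nat_lit 0x6d67741b58) (nat_lit 9127853280),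
  Rx.mk (nat_lit 218) (nat_lit 2) (nat_lit 3) (nat_lit 3) (nat_lit 7) (nat_lit 115) (nat_lit 132) r1_115 r6_132 (nat_lit 0) (nat_lit 0) (nat_lit 0) (nat_lit 0x7da9ea63b0) (nat_lit 1146764736),
  Rx.mk (nat_lit 219) (nat_lit 3) (nat_lit 3) (nat_lit 3) (nat_lit 7) (nat_lit 116) (nat_lit 129) r1_116 r6_129 (nat_lit 0) (nat_lit 0) (nat_lit 0) (nat_lit 0x7ce256fdae) (nat_lit 1529430552)]
noncomputable def e12_12 : List Rx := [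
  Rx.mk (nat_lit 18) (nat_lit 2) (nat_lit 2) (nat_lit 0) (nat_lit 3) (nat_lit 10) (nat_lit 20) r1_10 r1_20 (nat_lit 0) (nat_lit 0) (nat_lit 0) (nat_lit 0x712bfdeef6) (nat_lit 7278451128),
  Rx.mk (nat_lit 146) (nat_lit 2) (nat_lit 2) (nat_lit 2) (nat_lit 7) (nat_lit 11) (nat_lit 29) r1_11 r1_29 (nat_lit 0) (nat_lit 0) (nat_lit 0) (nat_lit 0x763058a446) (nat_lit 4815835128),
  Rx.mk (nat_lit 150) (nat_lit 6) (nat_lit 2) (nat_lit 2) (nat_lit 7) (nat_lit 12) (nat_lit 28) r1_12 r1_28 (nat_lit 0) (nat_lit 0) (nat_lit 0) (nat_lit 0x7c9dd0a658) (nat_lit 1660819680),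
  Rx.mk (nat_lit 182) (nat_lit 6) (nat_lit 6) (nat_lit 2) (nat_lit 7) (nat_lit 13) (nat_lit 27) r1_13 r1_27 (nat_lit 0) (nat_lit 0) (nat_lit 0) (nat_lit 0x7e13742aaa) (nat_lit 944406216),
  Rx.mk (nat_lit 192) (nat_lit 0) (nat_lit 0) (nat_lit 3) (nat_lit 4) (nat_lit 14) (nat_lit 21) r1_14 r1_21 (nat_lit 0) (nat_lit 0) (nat_lit 0) (nat_lit 0x7511bccf22) (nat_lit 5365377576),
  Rx.mk (nat_lit 194) (nat_lit 2) (nat_lit 0) (nat_lit 3) (nat_lit 5) (nat_lit 15) (nat_lit 22) r1_15 r1_22 (nat_lit 0) (nat_lit 0) (nat_lit 0) (nat_lit 0x7413b350b8) (nat_lit 5852467296),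
  Rx.mk (nat_lit 210) (nat_lit 2) (nat_lit 2) (nat_lit 3) (nat_lit 7) (nat_lit 16) (nat_lit 26) r1_16 r1_26 (nat_lit 0) (nat_lit 0) (nat_lit 0) (nat_lit 0x7f02b315cc) (nat_lit 485677296),
  Rx.mk (nat_lit 216) (nat_lit 0) (nat_lit 3) (nat_lit 3) (nat_lit 6) (nat_lit 17) (nat_lit 23) r1_17 r1_23 (nat_lit 0) (nat_lit 0) (nat_lit 0) (nat_lit 0x77664f23a8) (nat_lit 4221513504),
  Rx.mk (nat_lit 218) (nat_lit 2) (nat_lit 3) (nat_lit 3) (nat_lit 7) (nat_lit 18) (nat_lit 25) r1_18 r1_25 (nat_lit 0) (nat_lit 0) (nat_lit 0) (nat_lit 0x7cb7724c24) (nat_lit 1611674064),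
  Rx.mk (nat_lit 219) (nat_lit 3) (nat_lit 3) (nat_lit 3) (nat_lit 7) (nat_lit 19) (nat_lit 24) r1_19 r1_24 (nat_lit 0) (nat_lit 0) (nat_lit 0) (nat_lit 0x7be9926af0) (nat_lit 2006417088),
  Rx.mk (nat_lit 319) (nat_lit 7) (nat_lit 7) (nat_lit 4) (nat_lit 3) (nat_lit 20) (nat_lit 10) r1_20 r1_10 (nat_lit 0) (nat_lit 0) (nat_lit 0) (nat_lit 0x712bfdeef6) (nat_lit 7278451128),
  Rx.mk (nat_lit 420) (nat_lit 4) (nat_lit 4) (nat_lit 6) (nat_lit 4) (nat_lit 21) (nat_lit 14) r1_21 r1_14 (nat_lit 0) (nat_lit 0) (nat_lit 0) (nat_lit 0x7511bccf22) (nat_lit 5365377576),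
  Rx.mk (nat_lit 423) (nat_lit 7) (nat_lit 4) (nat_lit 6) (nat_lit 5) (nat_lit 22) (nat_lit 15) r1_22 r1_15 (nat_lit 0) (nat_lit 0) (nat_lit 0) (nat_lit 0x7413b350b8) (nat_lit 5852467296),
  Rx.mk (nat_lit 436) (nat_lit 4) (nat_lit 6) (nat_lit 6) (nat_lit 6) (nat_lit 23) (nat_lit 17) r1_23 r1_17 (nat_lit 0) (nat_lit 0) (nat_lit 0) (nat_lit 0x77664f23a8) (nat_lit 4221513504),
  Rx.mk (nat_lit 438) (nat_lit 6) (nat_lit 6) (nat_lit 6) (nat_lit 7) (nat_lit 24) (nat_lit 19) r1_24 r1_19 (nat_lit 0) (nat_lit 0) (nat_lit 0) (nat_lit 0x7be9926af0) (nat_lit 2006417088),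
  Rx.mk (nat_lit 439) (nat_lit 7) (nat_lit 6) (nat_lit 6) (nat_lit 7) (nat_lit 25) (nat_lit 18) r1_25 r1_18 (nat_lit 0) (nat_lit 0) (nat_lit 0) (nat_lit 0x7cb7724c24) (nat_lit 1611674064),
  Rx.mk (nat_lit 447) (nat_lit 7) (nat_lit 7) (nat_lit 6) (nat_lit 7) (nat_lit 26) (nat_lit 16) r1_26 r1_16 (nat_lit 0) (nat_lit 0) (nat_lit 0) (nat_lit 0x7f02b315cc) (nat_lit 485677296),
  Rx.mk (nat_lit 475) (nat_lit 3) (nat_lit 3) (nat_lit 7) (nat_lit 7) (nat_lit 27) (nat_lit 13) r1_27 r1_13 (nat_lit 0) (nat_lit 0) (nat_lit 0) (nat_lit 0x7e13742aaa) (nat_lit 944406216),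
  Rx.mk (nat_lit 507) (nat_lit 3) (nat_lit 7) (nat_lit 7) (nat_lit 7) (nat_lit 28) (nat_lit 12) r1_28 r1_12 (nat_lit 0) (nat_lit 0) (nat_lit 0) (nat_lit 0x7c9dd0a658) (nat_lit 1660819680),
  Rx.mk (nat_lit 511) (nat_lit 7) (nat_lit 7) (nat_lit 7) (nat_lit 7) (nat_lit 29) (nat_lit 11) r1_29 r1_11 (nat_lit 0) (nat_lit 0) (nat_lit 0) (nat_lit 0x763058a446) (nat_lit 4815835128)]
noncomputable def e12_13 : List Rx := [
  Rx.mk (nat_lit 0) (nat_lit 0) (nat_lit 0) (nat_lit 0) (nat_lit 0) (nat_lit 141) (nat_lit 90) r1_141 r7_90 (nat_lit 0) (nat_lit 0) (nat_lit 0) (nat_lit 0x3f2c1ddefa) (nat_lit 31820882184),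
  Rx.mk (nat_lit 2) (nat_lit 2) (nat_lit 0) (nat_lit 0) (nat_lit 1) (nat_lit 142) (nat_lit 94) r1_142 r7_94 (nat_lit 0) (nat_lit 0) (nat_lit 0) (nat_lit 0x60f77387d2) (nat_lit 15232846824),
  Rx.mk (nat_lit 18) (nat_lit 2) (nat_lit 2) (nat_lit 0) (nat_lit 3) (nat_lit 143) (nat_lit 97) r1_143 r7_97 (nat_lit 0) (nat_lit 0) (nat_lit 0) (nat_lit 0x79f20f451a) (nat_lit 2971849608),
  Rx.mk (nat_lit 146) (nat_lit 2) (nat_lit 2) (nat_lit 2) (nat_lit 7) (nat_lit 144) (nat_lit 99) r1_144 r7_99 (nat_lit 0) (nat_lit 0) (nat_lit 0) (nat_lit 0x7dd6fab27e) (nat_lit 1060359768),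
  Rx.mk (nat_lit 150) (nat_lit 6) (nat_lit 2) (nat_lit 2) (nat_lit 7) (nat_lit 145) (nat_lit 100) r1_145 r7_100 (nat_lit 0) (nat_lit 0) (nat_lit 0) (nat_lit 0x7dec661bb2) (nat_lit 1019289960),
  Rx.mk (nat_lit 182) (nat_lit 6) (nat_lit 6) (nat_lit 2) (nat_lit 7) (nat_lit 146) (nat_lit 101) r1_146 r7_101 (nat_lit 0) (nat_lit 0) (nat_lit 0) (nat_lit 0x7db6f07342) (nat_lit 1121793192),
  Rx.mk (nat_lit 192) (nat_lit 0) (nat_lit 0) (nat_lit 3) (nat_lit 4) (nat_lit 147) (nat_lit 91) r1_147 r7_91 (nat_lit 0) (nat_lit 0) (nat_lit 0) (nat_lit 0x6698457512) (nat_lit 12470224104),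
  Rx.mk (nat_lit 194) (nat_lit 2) (nat_lit 0) (nat_lit 3) (nat_lit 5) (nat_lit 148) (nat_lit 95) r1_148 r7_95 (nat_lit 0) (nat_lit 0) (nat_lit 0) (nat_lit 0x7d04f5d39e) (nat_lit 1463049432),
  Rx.mk (nat_lit 210) (nat_lit 2) (nat_lit 2) (nat_lit 3) (nat_lit 7) (nat_lit 149) (nat_lit 98) r1_149 r7_98 (nat_lit 0) (nat_lit 0) (nat_lit 0) (nat_lit 0x7df4f572b4) (nat_lit 1002877200),
  Rx.mk (nat_lit 216) (nat_lit 0) (nat_lit 3) (nat_lit 3) (nat_lit 6) (nat_lit 150) (nat_lit 92) r1_150 r7_92 (nat_lit 0) (nat_lit 0) (nat_lit 0) (nat_lit 0x6657bb3df6) (nat_lit 12593972664),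
  Rx.mk (nat_lit 218) (nat_lit 2) (nat_lit 3) (nat_lit 3) (nat_lit 7) (nat_lit 151) (nat_lit 96) r1_151 r7_96 (nat_lit 0) (nat_lit 0) (nat_lit 0) (nat_lit 0x7d83c7c600) (nat_lit 1219885056),
  Rx.mk (nat_lit 219) (nat_lit 3) (nat_lit 3) (nat_lit 3) (nat_lit 7) (nat_lit 152) (nat_lit 93) r1_152 r7_93 (nat_lit 0) (nat_lit 0) (nat_lit 0) (nat_lit 0x7cef2530be) (nat_lit 1504877400)]
noncomputable def e12_14 : List Rx := [
  Rx.mk (nat_lit 0) (nat_lit 0) (nat_lit 0) (nat_lit 0) (nat_lit 0) (nat_lit 131) (nat_lit 15) r1_131 r7_15 (nat_lit 0) (nat_lit 0) (nat_lit 0) (nat_lit 0x3a4548f130) (nat_lit 34226891712),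
  Rx.mk (nat_lit 2) (nat_lit 2) (nat_lit 0) (nat_lit 0) (nat_lit 1) (nat_lit 132) (nat_lit 16) r1_132 r7_16 (nat_lit 0) (nat_lit 0) (nat_lit 0) (nat_lit 0x719cb8e2d6) (nat_lit 7062302520),
  Rx.mk (nat_lit 18) (nat_lit 2) (nat_lit 2) (nat_lit 0) (nat_lit 3) (nat_lit 133) (nat_lit 17) r1_133 r7_17 (nat_lit 0) (nat_lit 0) (nat_lit 0) (nat_lit 0x7d4b722b92) (nat_lit 1327900392),
  Rx.mk (nat_lit 64) (nat_lit 0) (nat_lit 0) (nat_lit 1) (nat_lit 4) (nat_lit 134) (nat_lit 18) r1_134 r7_18 (nat_lit 0) (nat_lit 0) (nat_lit 0) (nat_lit 0x713c198d2c) (nat_lit 7247565936),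
  Rx.mk (nat_lit 66) (nat_lit 2) (nat_lit 0) (nat_lit 1) (nat_lit 5) (nat_lit 135) (nat_lit 19) r1_135 r7_19 (nat_lit 0) (nat_lit 0) (nat_lit 0) (nat_lit 0x7dcb8c896c) (nat_lit 1082276208),
  Rx.mk (nat_lit 82) (nat_lit 2) (nat_lit 2) (nat_lit 1) (nat_lit 7) (nat_lit 136) (nat_lit 20) r1_136 r7_20 (nat_lit 0) (nat_lit 0) (nat_lit 0) (nat_lit 0x7ddfbee632) (nat_lit 1043551080),
  Rx.mk (nat_lit 146) (nat_lit 2) (nat_lit 2) (nat_lit 2) (nat_lit 7) (nat_lit 137) (nat_lit 24) r1_137 r7_24 (nat_lit 0) (nat_lit 0) (nat_lit 0) (nat_lit 0x7dd37a4a88) (nat_lit 1067073696),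
  Rx.mk (nat_lit 192) (nat_lit 0) (nat_lit 0) (nat_lit 3) (nat_lit 4) (nat_lit 138) (nat_lit 21) r1_138 r7_21 (nat_lit 0) (nat_lit 0) (nat_lit 0) (nat_lit 0x6d86155126) (nat_lit 9069123960),
  Rx.mk (nat_lit 216) (nat_lit 0) (nat_lit 3) (nat_lit 3) (nat_lit 6) (nat_lit 139) (nat_lit 22) r1_139 r7_22 (nat_lit 0) (nat_lit 0) (nat_lit 0) (nat_lit 0x78d44382f4) (nat_lit 3519833616),
  Rx.mk (nat_lit 219) (nat_lit 3) (nat_lit 3) (nat_lit 3) (nat_lit 7) (nat_lit 140) (nat_lit 23) r1_140 r7_23 (nat_lit 0) (nat_lit 0) (nat_lit 0) (nat_lit 0x7d782dbfac) (nat_lit 1242130032)]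
noncomputable def e12_15 : List Rx := [
  Rx.mk (nat_lit 64) (nat_lit 0) (nat_lit 0) (nat_lit 1) (nat_lit 4) (nat_lit 269) (nat_lit 83) r1_269 r8_83 (nat_lit 0) (nat_lit 0) (nat_lit 0) (nat_lit 0x6f59076032) (nat_lit 8173804392),
  Rx.mk (nat_lit 66) (nat_lit 2) (nat_lit 0) (nat_lit 1) (nat_lit 5) (nat_lit 270) (nat_lit 84) r1_270 r8_84 (nat_lit 0) (nat_lit 0) (nat_lit 0) (nat_lit 0x7dc4b5b6e0) (nat_lit 1095389568),
  Rx.mk (nat_lit 82) (nat_lit 2) (nat_lit 2) (nat_lit 1) (nat_lit 7) (nat_lit 271) (nat_lit 85) r1_271 r8_85 (nat_lit 0) (nat_lit 0) (nat_lit 0) (nat_lit 0x7de721effa) (nat_lit 1029387528)]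
noncomputable def e12_16 : List Rx := [
  Rx.mk (nat_lit 192) (nat_lit 0) (nat_lit 0) (nat_lit 3) (nat_lit 4) (nat_lit 50) (nat_lit 16) r1_50 r4_16 (nat_lit 0) (nat_lit 0) (nat_lit 0) (nat_lit 0x6d02538dc6) (nat_lit 9321754104),
  Rx.mk (nat_lit 194) (nat_lit 2) (nat_lit 0) (nat_lit 3) (nat_lit 5) (nat_lit 51) (nat_lit 17) r1_51 r4_17 (nat_lit 0) (nat_lit 0) (nat_lit 0) (nat_lit 0x7e22f55288) (nat_lit 914677920),
  Rx.mk (nat_lit 210) (nat_lit 2) (nat_lit 2) (nat_lit 3) (nat_lit 7) (nat_lit 52) (nat_lit 20) r1_52 r4_20 (nat_lit 0) (nat_lit 0) (nat_lit 0) (nat_lit 0x7eccb0762c) (nat_lit 589236336),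
  Rx.mk (nat_lit 216) (nat_lit 0) (nat_lit 3) (nat_lit 3) (nat_lit 6) (nat_lit 53) (nat_lit 18) r1_53 r4_18 (nat_lit 0) (nat_lit 0) (nat_lit 0) (nat_lit 0x7dd783e9ea) (nat_lit 1059332040),
  Rx.mk (nat_lit 218) (nat_lit 2) (nat_lit 3) (nat_lit 3) (nat_lit 7) (nat_lit 54) (nat_lit 19) r1_54 r4_19 (nat_lit 0) (nat_lit 0) (nat_lit 0) (nat_lit 0x7e01526cd8) (nat_lit 979172064),
  Rx.mk (nat_lit 472) (nat_lit 0) (nat_lit 3) (nat_lit 7) (nat_lit 6) (nat_lit 55) (nat_lit 14) r1_55 r4_14 (nat_lit 0) (nat_lit 0) (nat_lit 0) (nat_lit 0x7cf02600b0) (nat_lit 1502953920),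
  Rx.mk (nat_lit 475) (nat_lit 3) (nat_lit 3) (nat_lit 7) (nat_lit 7) (nat_lit 56) (nat_lit 15) r1_56 r4_15 (nat_lit 0) (nat_lit 0) (nat_lit 0) (nat_lit 0x7e11b186d6) (nat_lit 947781432),
  Rx.mk (nat_lit 507) (nat_lit 3) (nat_lit 7) (nat_lit 7) (nat_lit 7) (nat_lit 57) (nat_lit 13) r1_57 r4_13 (nat_lit 0) (nat_lit 0) (nat_lit 0) (nat_lit 0x7df4fbd24e) (nat_lit 1002829464)]
noncomputable def e12_17 : List Rx := [
  Rx.mk (nat_lit 192) (nat_lit 0) (nat_lit 0) (nat_lit 3) (nat_lit 4) (nat_lit 161) (nat_lit 96) r1_161 r9_96 (nat_lit 0) (nat_lit 0) (nat_lit 0) (nat_lit 0x6ef8548bc0) (nat_lit 8359213824),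
  Rx.mk (nat_lit 194) (nat_lit 2) (nat_lit 0) (nat_lit 3) (nat_lit 5) (nat_lit 162) (nat_lit 98) r1_162 r9_98 (nat_lit 0) (nat_lit 0) (nat_lit 0) (nat_lit 0x7d8f13d134) (nat_lit 1198224144),
  Rx.mk (nat_lit 210) (nat_lit 2) (nat_lit 2) (nat_lit 3) (nat_lit 7) (nat_lit 163) (nat_lit 100) r1_163 r9_100 (nat_lit 0) (nat_lit 0) (nat_lit 0) (nat_lit 0x7dfc5f3c10) (nat_lit 988663104),
  Rx.mk (nat_lit 216) (nat_lit 0) (nat_lit 3) (nat_lit 3) (nat_lit 6) (nat_lit 164) (nat_lit 97) r1_164 r9_97 (nat_lit 0) (nat_lit 0) (nat_lit 0) (nat_lit 0x7303d06ff6) (nat_lit 6373780920),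
  Rx.mk (nat_lit 218) (nat_lit 2) (nat_lit 3) (nat_lit 3) (nat_lit 7) (nat_lit 165) (nat_lit 99) r1_165 r9_99 (nat_lit 0) (nat_lit 0) (nat_lit 0) (nat_lit 0x7da7a24834) (nat_lit 1151139600)]
noncomputable def e12_18 : List Rx := [
  Rx.mk (nat_lit 192) (nat_lit 0) (nat_lit 0) (nat_lit 3) (nat_lit 4) (nat_lit 234) (nat_lit 107) r1_234 r10_107 (nat_lit 0) (nat_lit 0) (nat_lit 0) (nat_lit 0x79f253e0d0) (nat_lit 2971335744),
  Rx.mk (nat_lit 194) (nat_lit 2) (nat_lit 0) (nat_lit 3) (nat_lit 5) (nat_lit 235) (nat_lit 111) r1_235 r10_111 (nat_lit 0) (nat_lit 0) (nat_lit 0) (nat_lit 0x7de322cff0) (nat_lit 1037050560),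
  Rx.mk (nat_lit 210) (nat_lit 2) (nat_lit 2) (nat_lit 3) (nat_lit 7) (nat_lit 236) (nat_lit 112) r1_236 r10_112 (nat_lit 0) (nat_lit 0) (nat_lit 0) (nat_lit 0x7e36429da0) (nat_lit 877668480),
  Rx.mk (nat_lit 448) (nat_lit 0) (nat_lit 0) (nat_lit 7) (nat_lit 4) (nat_lit 237) (nat_lit 108) r1_237 r10_108 (nat_lit 0) (nat_lit 0) (nat_lit 0) (nat_lit 0x6afa16f398) (nat_lit 10319253984),
  Rx.mk (nat_lit 472) (nat_lit 0) (nat_lit 3) (nat_lit 7) (nat_lit 6) (nat_lit 238) (nat_lit 109) r1_238 r10_109 (nat_lit 0) (nat_lit 0) (nat_lit 0) (nat_lit 0x7dd597a8b0) (nat_lit 1063018944),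
  Rx.mk (nat_lit 475) (nat_lit 3) (nat_lit 3) (nat_lit 7) (nat_lit 7) (nat_lit 239) (nat_lit 110) r1_239 r10_110 (nat_lit 0) (nat_lit 0) (nat_lit 0) (nat_lit 0x7de4773aa8) (nat_lit 1034500896)]
noncomputable def e12_19 : List Rx := [
  Rx.mk (nat_lit 64) (nat_lit 0) (nat_lit 0) (nat_lit 1) (nat_lit 4) (nat_lit 262) (nat_lit 160) r1_262 r8_160 (nat_lit 0) (nat_lit 0) (nat_lit 0) (nat_lit 0x5e5dca2502) (nat_lit 16509183912),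
  Rx.mk (nat_lit 65) (nat_lit 1) (nat_lit 0) (nat_lit 1) (nat_lit 5) (nat_lit 263) (nat_lit 161) r1_263 r8_161 (nat_lit 0) (nat_lit 0) (nat_lit 0) (nat_lit 0x7bd73b1078) (nat_lit 2041584480),
  Rx.mk (nat_lit 66) (nat_lit 2) (nat_lit 0) (nat_lit 1) (nat_lit 5) (nat_lit 264) (nat_lit 162) r1_264 r8_162 (nat_lit 0) (nat_lit 0) (nat_lit 0) (nat_lit 0x7d95c58612) (nat_lit 1185388776),
  Rx.mk (nat_lit 72) (nat_lit 0) (nat_lit 1) (nat_lit 1) (nat_lit 6) (nat_lit 265) (nat_lit 163) r1_265 r8_163 (nat_lit 0) (nat_lit 0) (nat_lit 0) (nat_lit 0x7d825a3cda) (nat_lit 1222622856),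
  Rx.mk (nat_lit 73) (nat_lit 1) (nat_lit 1) (nat_lit 1) (nat_lit 7) (nat_lit 266) (nat_lit 164) r1_266 r8_164 (nat_lit 0) (nat_lit 0) (nat_lit 0) (nat_lit 0x7d867bdabc) (nat_lit 1214701488),
  Rx.mk (nat_lit 74) (nat_lit 2) (nat_lit 1) (nat_lit 1) (nat_lit 7) (nat_lit 267) (nat_lit 165) r1_267 r8_165 (nat_lit 0) (nat_lit 0) (nat_lit 0) (nat_lit 0x7df4303f08) (nat_lit 1004354208),
  Rx.mk (nat_lit 82) (nat_lit 2) (nat_lit 2) (nat_lit 1) (nat_lit 7) (nat_lit 268) (nat_lit 166) r1_268 r8_166 (nat_lit 0) (nat_lit 0) (nat_lit 0) (nat_lit 0x7df1600c0e) (nat_lit 1009748376)]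
noncomputable def e12_20 : List Rx := [
  Rx.mk (nat_lit 265) (nat_lit 1) (nat_lit 1) (nat_lit 4) (nat_lit 3) (nat_lit 252) (nat_lit 282) r1_252 r0_282 (nat_lit 0) (nat_lit 0) (nat_lit 0) (nat_lit 0x7ff9bf840e) (nat_lit 11987352),
  Rx.mk (nat_lit 321) (nat_lit 1) (nat_lit 0) (nat_lit 5) (nat_lit 5) (nat_lit 253) (nat_lit 283) r1_253 r0_283 (nat_lit 0) (nat_lit 0) (nat_lit 0) (nat_lit 0x7925b2abb0) (nat_lit 3363691968),
  Rx.mk (nat_lit 329) (nat_lit 1) (nat_lit 1) (nat_lit 5) (nat_lit 7) (nat_lit 254) (nat_lit 284) r1_254 r0_284 (nat_lit 0) (nat_lit 0) (nat_lit 0) (nat_lit 0x7bdf3f502c) (nat_lit 2026213488)]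
noncomputable def e12_21 : List Rx := [
  Rx.mk (nat_lit 265) (nat_lit 1) (nat_lit 1) (nat_lit 4) (nat_lit 3) (nat_lit 278) (nat_lit 278) r1_278 r1_278 (nat_lit 0) (nat_lit 0) (nat_lit 0) (nat_lit 0x7f91b3053e) (nat_lit 211490136),
  Rx.mk (nat_lit 329) (nat_lit 1) (nat_lit 1) (nat_lit 5) (nat_lit 7) (nat_lit 279) (nat_lit 279) r1_279 r1_279 (nat_lit 0) (nat_lit 0) (nat_lit 0) (nat_lit 0x7df2be9624) (nat_lit 1007122896)]
noncomputable def e12_22 : List Rx := [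
  Rx.mk (nat_lit 257) (nat_lit 1) (nat_lit 0) (nat_lit 4) (nat_lit 1) (nat_lit 296) (nat_lit 293) r1_296 r4_293 (nat_lit 0) (nat_lit 0) (nat_lit 0) (nat_lit 0x6a1ffcf612) (nat_lit 10737441000),
  Rx.mk (nat_lit 265) (nat_lit 1) (nat_lit 1) (nat_lit 4) (nat_lit 3) (nat_lit 297) (nat_lit 294) r1_297 r4_294 (nat_lit 0) (nat_lit 0) (nat_lit 0) (nat_lit 0x7b9136b104) (nat_lit 2175834960),
  Rx.mk (nat_lit 281) (nat_lit 1) (nat_lit 3) (nat_lit 4) (nat_lit 3) (nat_lit 298) (nat_lit 295) r1_298 r4_295 (nat_lit 0) (nat_lit 0) (nat_lit 0) (nat_lit 0x7df1a98776) (nat_lit 1009198008),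
  Rx.mk (nat_lit 321) (nat_lit 1) (nat_lit 0) (nat_lit 5) (nat_lit 5) (nat_lit 299) (nat_lit 296) r1_299 r4_296 (nat_lit 0) (nat_lit 0) (nat_lit 0) (nat_lit 0x7ce68fda1c) (nat_lit 1521335088),
  Rx.mk (nat_lit 329) (nat_lit 1) (nat_lit 1) (nat_lit 5) (nat_lit 7) (nat_lit 300) (nat_lit 297) r1_300 r4_297 (nat_lit 0) (nat_lit 0) (nat_lit 0) (nat_lit 0x7e35b126b8) (nat_lit 878757984),
  Rx.mk (nat_lit 345) (nat_lit 1) (nat_lit 3) (nat_lit 5) (nat_lit 7) (nat_lit 301) (nat_lit 298) r1_301 r4_298 (nat_lit 0) (nat_lit 0) (nat_lit 0) (nat_lit 0x7db1b0c742) (nat_lit 1131857064)]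
noncomputable def e12_23 : List Rx := [
  Rx.mk (nat_lit 321) (nat_lit 1) (nat_lit 0) (nat_lit 5) (nat_lit 5) (nat_lit 256) (nat_lit 221) r1_256 r6_221 (nat_lit 0) (nat_lit 0) (nat_lit 0) (nat_lit 0x7d23d005dc) (nat_lit 1403893296),
  Rx.mk (nat_lit 329) (nat_lit 1) (nat_lit 1) (nat_lit 5) (nat_lit 7) (nat_lit 257) (nat_lit 222) r1_257 r6_222 (nat_lit 0) (nat_lit 0) (nat_lit 0) (nat_lit 0x7dde737aea) (nat_lit 1046033352)]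
noncomputable def e12_24 : List Rx := [
  Rx.mk (nat_lit 329) (nat_lit 1) (nat_lit 1) (nat_lit 5) (nat_lit 7) (nat_lit 286) (nat_lit 180) r1_286 r7_180 (nat_lit 0) (nat_lit 0) (nat_lit 0) (nat_lit 0x7de3424df8) (nat_lit 1036814688)]
noncomputable def e12_25 : List Rx := [
  Rx.mk (nat_lit 65) (nat_lit 1) (nat_lit 0) (nat_lit 1) (nat_lit 5) (nat_lit 274) (nat_lit 316) r1_274 r7_316 (nat_lit 0) (nat_lit 0) (nat_lit 0) (nat_lit 0x7a2aa01bd4) (nat_lit 2863390608),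
  Rx.mk (nat_lit 73) (nat_lit 1) (nat_lit 1) (nat_lit 1) (nat_lit 7) (nat_lit 275) (nat_lit 317) r1_275 r7_317 (nat_lit 0) (nat_lit 0) (nat_lit 0) (nat_lit 0x7dab10b14a) (nat_lit 1144560456),
  Rx.mk (nat_lit 321) (nat_lit 1) (nat_lit 0) (nat_lit 5) (nat_lit 5) (nat_lit 276) (nat_lit 318) r1_276 r7_318 (nat_lit 0) (nat_lit 0) (nat_lit 0) (nat_lit 0x7ba392eb2e) (nat_lit 2140631064),
  Rx.mk (nat_lit 329) (nat_lit 1) (nat_lit 1) (nat_lit 5) (nat_lit 7) (nat_lit 277) (nat_lit 319) r1_277 r7_319 (nat_lit 0) (nat_lit 0) (nat_lit 0) (nat_lit 0x7de06f7b28) (nat_lit 1042228512)]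
noncomputable def e12_26 : List Rx := [
  Rx.mk (nat_lit 321) (nat_lit 1) (nat_lit 0) (nat_lit 5) (nat_lit 5) (nat_lit 306) (nat_lit 172) r1_306 r9_172 (nat_lit 0) (nat_lit 0) (nat_lit 0) (nat_lit 0x7d78f9b2ec) (nat_lit 1240602480),
  Rx.mk (nat_lit 329) (nat_lit 1) (nat_lit 1) (nat_lit 5) (nat_lit 7) (nat_lit 307) (nat_lit 173) r1_307 r9_173 (nat_lit 0) (nat_lit 0) (nat_lit 0) (nat_lit 0x7dea245fd0) (nat_lit 1023617088),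
  Rx.mk (nat_lit 345) (nat_lit 1) (nat_lit 3) (nat_lit 5) (nat_lit 7) (nat_lit 308) (nat_lit 174) r1_308 r9_174 (nat_lit 0) (nat_lit 0) (nat_lit 0) (nat_lit 0x7d27c6e66a) (nat_lit 1396292040)]
noncomputable def e12_27 : List Rx := [
  Rx.mk (nat_lit 257) (nat_lit 1) (nat_lit 0) (nat_lit 4) (nat_lit 1) (nat_lit 315) (nat_lit 183) r1_315 r10_183 (nat_lit 0) (nat_lit 0) (nat_lit 0) (nat_lit 0x707b7d37b2) (nat_lit 7616876904),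
  Rx.mk (nat_lit 265) (nat_lit 1) (nat_lit 1) (nat_lit 4) (nat_lit 3) (nat_lit 316) (nat_lit 186) r1_316 r10_186 (nat_lit 0) (nat_lit 0) (nat_lit 0) (nat_lit 0x7ddf77aaa6) (nat_lit 1044084600),
  Rx.mk (nat_lit 281) (nat_lit 1) (nat_lit 3) (nat_lit 4) (nat_lit 3) (nat_lit 317) (nat_lit 189) r1_317 r10_189 (nat_lit 0) (nat_lit 0) (nat_lit 0) (nat_lit 0x7de538ae90) (nat_lit 1033051968),
  Rx.mk (nat_lit 321) (nat_lit 1) (nat_lit 0) (nat_lit 5) (nat_lit 5) (nat_lit 318) (nat_lit 184) r1_318 r10_184 (nat_lit 0) (nat_lit 0) (nat_lit 0) (nat_lit 0x7de8fc3254) (nat_lit 1025835408),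
  Rx.mk (nat_lit 329) (nat_lit 1) (nat_lit 1) (nat_lit 5) (nat_lit 7) (nat_lit 319) (nat_lit 187) r1_319 r10_187 (nat_lit 0) (nat_lit 0) (nat_lit 0) (nat_lit 0x7df4ff3218) (nat_lit 1002804192),
  Rx.mk (nat_lit 345) (nat_lit 1) (nat_lit 3) (nat_lit 5) (nat_lit 7) (nat_lit 320) (nat_lit 190) r1_320 r10_190 (nat_lit 0) (nat_lit 0) (nat_lit 0) (nat_lit 0x7df62c9f40) (nat_lit 1000546560),
  Rx.mk (nat_lit 449) (nat_lit 1) (nat_lit 0) (nat_lit 7) (nat_lit 5) (nat_lit 321) (nat_lit 185) r1_321 r10_185 (nat_lit 0) (nat_lit 0) (nat_lit 0) (nat_lit 0x7df99bc84a) (nat_lit 993961800),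
  Rx.mk (nat_lit 457) (nat_lit 1) (nat_lit 1) (nat_lit 7) (nat_lit 7) (nat_lit 322) (nat_lit 188) r1_322 r10_188 (nat_lit 0) (nat_lit 0) (nat_lit 0) (nat_lit 0x7e5868bb1c) (nat_lit 812191536)]
noncomputable def e12_28 : List Rx := [
  Rx.mk (nat_lit 216) (nat_lit 0) (nat_lit 3) (nat_lit 3) (nat_lit 6) (nat_lit 166) (nat_lit 2) r1_166 r10_2 (nat_lit 0) (nat_lit 0) (nat_lit 0) (nat_lit 0x7d62cfd5a0) (nat_lit 1283098752),
  Rx.mk (nat_lit 217) (nat_lit 1) (nat_lit 3) (nat_lit 3) (nat_lit 7) (nat_lit 167) (nat_lit 3) r1_167 r10_3 (nat_lit 0) (nat_lit 0) (nat_lit 0) (nat_lit 0x7dfa55bcaa) (nat_lit 992569032),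
  Rx.mk (nat_lit 218) (nat_lit 2) (nat_lit 3) (nat_lit 3) (nat_lit 7) (nat_lit 168) (nat_lit 4) r1_168 r10_4 (nat_lit 0) (nat_lit 0) (nat_lit 0) (nat_lit 0x7ddc34bed8) (nat_lit 1050338016)]
noncomputable def e12_29 : List Rx := [
  Rx.mk (nat_lit 281) (nat_lit 1) (nat_lit 3) (nat_lit 4) (nat_lit 3) (nat_lit 240) (nat_lit 299) r1_240 r5_299 (nat_lit 0) (nat_lit 0) (nat_lit 0) (nat_lit 0x7f67c7a41e) (nat_lit 291866328),
  Rx.mk (nat_lit 313) (nat_lit 1) (nat_lit 7) (nat_lit 4) (nat_lit 3) (nat_lit 241) (nat_lit 298) r1_241 r5_298 (nat_lit 0) (nat_lit 0) (nat_lit 0) (nat_lit 0x7ecf8b287e) (nat_lit 583763544)]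
noncomputable def e12_30 : List Rx := [
  Rx.mk (nat_lit 345) (nat_lit 1) (nat_lit 3) (nat_lit 5) (nat_lit 7) (nat_lit 309) (nat_lit 338) r1_309 r10_338 (nat_lit 0) (nat_lit 0) (nat_lit 0) (nat_lit 0x7df8d574b0) (nat_lit 995447232)]
noncomputable def e12_31 : List Rx := [
  Rx.mk (nat_lit 313) (nat_lit 1) (nat_lit 7) (nat_lit 4) (nat_lit 3) (nat_lit 88) (nat_lit 57) r1_88 r5_57 (nat_lit 0) (nat_lit 0) (nat_lit 0) (nat_lit 0x7e6bb54640) (nat_lit 775187712),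
  Rx.mk (nat_lit 473) (nat_lit 1) (nat_lit 3) (nat_lit 7) (nat_lit 7) (nat_lit 89) (nat_lit 56) r1_89 r5_56 (nat_lit 0) (nat_lit 0) (nat_lit 0) (nat_lit 0x7f31e242aa) (nat_lit 395206344),
  Rx.mk (nat_lit 505) (nat_lit 1) (nat_lit 7) (nat_lit 7) (nat_lit 7) (nat_lit 90) (nat_lit 58) r1_90 r5_58 (nat_lit 0) (nat_lit 0) (nat_lit 0) (nat_lit 0x7e406c7af8) (nat_lit 858180960)]
noncomputable def e12_32 : List Rx := [
  Rx.mk (nat_lit 281) (nat_lit 1) (nat_lit 3) (nat_lit 4) (nat_lit 3) (nat_lit 249) (nat_lit 109) r1_249 r11_109 (nat_lit 0) (nat_lit 0) (nat_lit 0) (nat_lit 0x7fd9fb0076) (nat_lit 72898488),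
  Rx.mk (nat_lit 313) (nat_lit 1) (nat_lit 7) (nat_lit 4) (nat_lit 3) (nat_lit 250) (nat_lit 111) r1_250 r11_111 (nat_lit 0) (nat_lit 0) (nat_lit 0) (nat_lit 0x7e7e4b3cce) (nat_lit 739551384),
  Rx.mk (nat_lit 473) (nat_lit 1) (nat_lit 3) (nat_lit 7) (nat_lit 7) (nat_lit 251) (nat_lit 110) r1_251 r11_110 (nat_lit 0) (nat_lit 0) (nat_lit 0) (nat_lit 0x7f3f574b4c) (nat_lit 369403632)]
noncomputable def e12_33 : List Rx := [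
  Rx.mk (nat_lit 289) (nat_lit 1) (nat_lit 4) (nat_lit 4) (nat_lit 1) (nat_lit 179) (nat_lit 269) r1_179 r0_269 (nat_lit 0) (nat_lit 0) (nat_lit 0) (nat_lit 0x7fe711eefa) (nat_lit 47800584),
  Rx.mk (nat_lit 293) (nat_lit 5) (nat_lit 4) (nat_lit 4) (nat_lit 1) (nat_lit 180) (nat_lit 265) r1_180 r0_265 (nat_lit 0) (nat_lit 0) (nat_lit 0) (nat_lit 0x5c4ea51962) (nat_lit 17519929128),
  Rx.mk (nat_lit 297) (nat_lit 1) (nat_lit 5) (nat_lit 4) (nat_lit 3) (nat_lit 181) (nat_lit 270) r1_181 r0_270 (nat_lit 0) (nat_lit 0) (nat_lit 0) (nat_lit 0x7a861a03da) (nat_lit 2687994504),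
  Rx.mk (nat_lit 301) (nat_lit 5) (nat_lit 5) (nat_lit 4) (nat_lit 3) (nat_lit 182) (nat_lit 266) r1_182 r0_266 (nat_lit 0) (nat_lit 0) (nat_lit 0) (nat_lit 0x77997950d2) (nat_lit 4123410408),
  Rx.mk (nat_lit 317) (nat_lit 5) (nat_lit 7) (nat_lit 4) (nat_lit 3) (nat_lit 183) (nat_lit 267) r1_183 r0_267 (nat_lit 0) (nat_lit 0) (nat_lit 0) (nat_lit 0x7389907370) (nat_lit 6117329088),
  Rx.mk (nat_lit 509) (nat_lit 5) (nat_lit 7) (nat_lit 7) (nat_lit 7) (nat_lit 184) (nat_lit 268) r1_184 r0_268 (nat_lit 0) (nat_lit 0) (nat_lit 0) (nat_lit 0x6ddb0661c0) (nat_lit 8906257152)]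
noncomputable def e12_34 : List Rx := [
  Rx.mk (nat_lit 317) (nat_lit 5) (nat_lit 7) (nat_lit 4) (nat_lit 3) (nat_lit 69) (nat_lit 76) r1_69 r0_76 (nat_lit 0) (nat_lit 0) (nat_lit 0) (nat_lit 0x7d345c1d0a) (nat_lit 1372165704),
  Rx.mk (nat_lit 421) (nat_lit 5) (nat_lit 4) (nat_lit 6) (nat_lit 5) (nat_lit 70) (nat_lit 75) r1_70 r0_75 (nat_lit 0) (nat_lit 0) (nat_lit 0) (nat_lit 0x7de3d424da) (nat_lit 1035722376),
  Rx.mk (nat_lit 445) (nat_lit 5) (nat_lit 7) (nat_lit 6) (nat_lit 7) (nat_lit 71) (nat_lit 78) r1_71 r0_78 (nat_lit 0) (nat_lit 0) (nat_lit 0) (nat_lit 0x7ea4197fc4) (nat_lit 667062864),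
  Rx.mk (nat_lit 509) (nat_lit 5) (nat_lit 7) (nat_lit 7) (nat_lit 7) (nat_lit 72) (nat_lit 77) r1_72 r0_77 (nat_lit 0) (nat_lit 0) (nat_lit 0) (nat_lit 0x7d7df4633c) (nat_lit 1231055280)]
noncomputable def e12_35 : List Rx := [
  Rx.mk (nat_lit 293) (nat_lit 5) (nat_lit 4) (nat_lit 4) (nat_lit 1) (nat_lit 192) (nat_lit 381) r1_192 r6_381 (nat_lit 0) (nat_lit 0) (nat_lit 0) (nat_lit 0x722130dad2) (nat_lit 6808307688),
  Rx.mk (nat_lit 301) (nat_lit 5) (nat_lit 5) (nat_lit 4) (nat_lit 3) (nat_lit 193) (nat_lit 382) r1_193 r6_382 (nat_lit 0) (nat_lit 0) (nat_lit 0) (nat_lit 0x7d814b2dcc) (nat_lit 1224653040),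
  Rx.mk (nat_lit 317) (nat_lit 5) (nat_lit 7) (nat_lit 4) (nat_lit 3) (nat_lit 194) (nat_lit 383) r1_194 r6_383 (nat_lit 0) (nat_lit 0) (nat_lit 0) (nat_lit 0x7dcda1a818) (nat_lit 1078283232),
  Rx.mk (nat_lit 421) (nat_lit 5) (nat_lit 4) (nat_lit 6) (nat_lit 5) (nat_lit 195) (nat_lit 385) r1_195 r6_385 (nat_lit 0) (nat_lit 0) (nat_lit 0) (nat_lit 0x7d8beb23c2) (nat_lit 1204281000),
  Rx.mk (nat_lit 429) (nat_lit 5) (nat_lit 5) (nat_lit 6) (nat_lit 7) (nat_lit 196) (nat_lit 386) r1_196 r6_386 (nat_lit 0) (nat_lit 0) (nat_lit 0) (nat_lit 0x7df3680b8c) (nat_lit 1005853680),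
  Rx.mk (nat_lit 445) (nat_lit 5) (nat_lit 7) (nat_lit 6) (nat_lit 7) (nat_lit 197) (nat_lit 387) r1_197 r6_387 (nat_lit 0) (nat_lit 0) (nat_lit 0) (nat_lit 0x7dd2126108) (nat_lit 1069769376),
  Rx.mk (nat_lit 509) (nat_lit 5) (nat_lit 7) (nat_lit 7) (nat_lit 7) (nat_lit 198) (nat_lit 384) r1_198 r6_384 (nat_lit 0) (nat_lit 0) (nat_lit 0) (nat_lit 0x7d43cb4608) (nat_lit 1342572192)]
noncomputable def e12_36 : List Rx := [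
  Rx.mk (nat_lit 182) (nat_lit 6) (nat_lit 6) (nat_lit 2) (nat_lit 7) (nat_lit 30) (nat_lit 81) r1_30 r2_81 (nat_lit 0) (nat_lit 0) (nat_lit 0) (nat_lit 0x7de7ede33a) (nat_lit 1027859976),
  Rx.mk (nat_lit 316) (nat_lit 4) (nat_lit 7) (nat_lit 4) (nat_lit 2) (nat_lit 31) (nat_lit 76) r1_31 r2_76 (nat_lit 0) (nat_lit 0) (nat_lit 0) (nat_lit 0x68c0f427fe) (nat_lit 11410512984),
  Rx.mk (nat_lit 319) (nat_lit 7) (nat_lit 7) (nat_lit 4) (nat_lit 3) (nat_lit 32) (nat_lit 77) r1_32 r2_77 (nat_lit 0) (nat_lit 0) (nat_lit 0) (nat_lit 0x7d4e539d78) (nat_lit 1322377056),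
  Rx.mk (nat_lit 420) (nat_lit 4) (nat_lit 4) (nat_lit 6) (nat_lit 4) (nat_lit 33) (nat_lit 75) r1_33 r2_75 (nat_lit 0) (nat_lit 0) (nat_lit 0) (nat_lit 0x70f45ca942) (nat_lit 7385115816),
  Rx.mk (nat_lit 436) (nat_lit 4) (nat_lit 6) (nat_lit 6) (nat_lit 6) (nat_lit 34) (nat_lit 82) r1_34 r2_82 (nat_lit 0) (nat_lit 0) (nat_lit 0) (nat_lit 0x7d5dee43be) (nat_lit 1292457816),
  Rx.mk (nat_lit 438) (nat_lit 6) (nat_lit 6) (nat_lit 6) (nat_lit 7) (nat_lit 35) (nat_lit 83) r1_35 r2_83 (nat_lit 0) (nat_lit 0) (nat_lit 0) (nat_lit 0x7dad1d3080) (nat_lit 1140632064),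
  Rx.mk (nat_lit 444) (nat_lit 4) (nat_lit 7) (nat_lit 6) (nat_lit 6) (nat_lit 36) (nat_lit 79) r1_36 r2_79 (nat_lit 0) (nat_lit 0) (nat_lit 0) (nat_lit 0x7e35c32598) (nat_lit 878623200),
  Rx.mk (nat_lit 447) (nat_lit 7) (nat_lit 7) (nat_lit 6) (nat_lit 7) (nat_lit 37) (nat_lit 80) r1_37 r2_80 (nat_lit 0) (nat_lit 0) (nat_lit 0) (nat_lit 0x7de79fe81a) (nat_lit 1028444040),
  Rx.mk (nat_lit 511) (nat_lit 7) (nat_lit 7) (nat_lit 7) (nat_lit 7) (nat_lit 38) (nat_lit 78) r1_38 r2_78 (nat_lit 0) (nat_lit 0) (nat_lit 0) (nat_lit 0x7dd4655bd6) (nat_lit 1065313080)]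
noncomputable def e12_37 : List Rx := [
  Rx.mk (nat_lit 182) (nat_lit 6) (nat_lit 6) (nat_lit 2) (nat_lit 7) (nat_lit 169) (nat_lit 47) r1_169 r8_47 (nat_lit 0) (nat_lit 0) (nat_lit 0) (nat_lit 0x7df3ef031c) (nat_lit 1004842800),
  Rx.mk (nat_lit 292) (nat_lit 4) (nat_lit 4) (nat_lit 4) (nat_lit 0) (nat_lit 170) (nat_lit 40) r1_170 r8_40 (nat_lit 0) (nat_lit 0) (nat_lit 0) (nat_lit 0x26a0315650) (nat_lit 43869653568),
  Rx.mk (nat_lit 316) (nat_lit 4) (nat_lit 7) (nat_lit 4) (nat_lit 2) (nat_lit 171) (nat_lit 42) r1_171 r8_42 (nat_lit 0) (nat_lit 0) (nat_lit 0) (nat_lit 0x6aa9b3da1a) (nat_lit 10473387912),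
  Rx.mk (nat_lit 319) (nat_lit 7) (nat_lit 7) (nat_lit 4) (nat_lit 3) (nat_lit 172) (nat_lit 43) r1_172 r8_43 (nat_lit 0) (nat_lit 0) (nat_lit 0) (nat_lit 0x7ccbdaa58a) (nat_lit 1572544584),
  Rx.mk (nat_lit 420) (nat_lit 4) (nat_lit 4) (nat_lit 6) (nat_lit 4) (nat_lit 173) (nat_lit 41) r1_173 r8_41 (nat_lit 0) (nat_lit 0) (nat_lit 0) (nat_lit 0x67ac0677ee) (nat_lit 11941494552),
  Rx.mk (nat_lit 436) (nat_lit 4) (nat_lit 6) (nat_lit 6) (nat_lit 6) (nat_lit 174) (nat_lit 48) r1_174 r8_48 (nat_lit 0) (nat_lit 0) (nat_lit 0) (nat_lit 0x7d65dd24c8) (nat_lit 1277246880),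
  Rx.mk (nat_lit 438) (nat_lit 6) (nat_lit 6) (nat_lit 6) (nat_lit 7) (nat_lit 175) (nat_lit 49) r1_175 r8_49 (nat_lit 0) (nat_lit 0) (nat_lit 0) (nat_lit 0x7dbc1ee056) (nat_lit 1111858488),
  Rx.mk (nat_lit 444) (nat_lit 4) (nat_lit 7) (nat_lit 6) (nat_lit 6) (nat_lit 176) (nat_lit 45) r1_176 r8_45 (nat_lit 0) (nat_lit 0) (nat_lit 0) (nat_lit 0x7dc7b886b0) (nat_lit 1089616320),
  Rx.mk (nat_lit 447) (nat_lit 7) (nat_lit 7) (nat_lit 6) (nat_lit 7) (nat_lit 177) (nat_lit 46) r1_177 r8_46 (nat_lit 0) (nat_lit 0) (nat_lit 0) (nat_lit 0x7de6d574c2) (nat_lit 1029960360),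
  Rx.mk (nat_lit 511) (nat_lit 7) (nat_lit 7) (nat_lit 7) (nat_lit 7) (nat_lit 178) (nat_lit 44) r1_178 r8_44 (nat_lit 0) (nat_lit 0) (nat_lit 0) (nat_lit 0x7d9c4f7d6c) (nat_lit 1172851056)]
noncomputable def e12_38 : List Rx := [
  Rx.mk (nat_lit 182) (nat_lit 6) (nat_lit 6) (nat_lit 2) (nat_lit 7) (nat_lit 153) (nat_lit 1) r1_153 r8_1 (nat_lit 0) (nat_lit 0) (nat_lit 0) (nat_lit 0x7de94bad5c) (nat_lit 1025240112)]
noncomputable def e12_39 : List Rx := [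
  Rx.mk (nat_lit 316) (nat_lit 4) (nat_lit 7) (nat_lit 4) (nat_lit 2) (nat_lit 73) (nat_lit 75) r1_73 r1_75 (nat_lit 0) (nat_lit 0) (nat_lit 0) (nat_lit 0x762c24a78a) (nat_lit 4823894088),
  Rx.mk (nat_lit 317) (nat_lit 5) (nat_lit 7) (nat_lit 4) (nat_lit 3) (nat_lit 74) (nat_lit 76) r1_74 r1_76 (nat_lit 0) (nat_lit 0) (nat_lit 0) (nat_lit 0x7df46bdb4e) (nat_lit 1003907736),
  Rx.mk (nat_lit 420) (nat_lit 4) (nat_lit 4) (nat_lit 6) (nat_lit 4) (nat_lit 75) (nat_lit 73) r1_75 r1_73 (nat_lit 0) (nat_lit 0) (nat_lit 0) (nat_lit 0x762c24a78a) (nat_lit 4823894088),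
  Rx.mk (nat_lit 421) (nat_lit 5) (nat_lit 4) (nat_lit 6) (nat_lit 5) (nat_lit 76) (nat_lit 74) r1_76 r1_74 (nat_lit 0) (nat_lit 0) (nat_lit 0) (nat_lit 0x7df46bdb4e) (nat_lit 1003907736),
  Rx.mk (nat_lit 436) (nat_lit 4) (nat_lit 6) (nat_lit 6) (nat_lit 6) (nat_lit 77) (nat_lit 82) r1_77 r1_82 (nat_lit 0) (nat_lit 0) (nat_lit 0) (nat_lit 0x7d3afc3302) (nat_lit 1359462312),
  Rx.mk (nat_lit 437) (nat_lit 5) (nat_lit 6) (nat_lit 6) (nat_lit 7) (nat_lit 78) (nat_lit 83) r1_78 r1_83 (nat_lit 0) (nat_lit 0) (nat_lit 0) (nat_lit 0x7deae81394) (nat_lit 1022151312),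
  Rx.mk (nat_lit 438) (nat_lit 6) (nat_lit 6) (nat_lit 6) (nat_lit 7) (nat_lit 79) (nat_lit 84) r1_79 r1_84 (nat_lit 0) (nat_lit 0) (nat_lit 0) (nat_lit 0x7df79428c6) (nat_lit 997853688),
  Rx.mk (nat_lit 444) (nat_lit 4) (nat_lit 7) (nat_lit 6) (nat_lit 6) (nat_lit 80) (nat_lit 80) r1_80 r1_80 (nat_lit 0) (nat_lit 0) (nat_lit 0) (nat_lit 0x7e4e579c38) (nat_lit 831493728),
  Rx.mk (nat_lit 445) (nat_lit 5) (nat_lit 7) (nat_lit 6) (nat_lit 7) (nat_lit 81) (nat_lit 81) r1_81 r1_81 (nat_lit 0) (nat_lit 0) (nat_lit 0) (nat_lit 0x7e40235f8a) (nat_lit 858728520),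
  Rx.mk (nat_lit 508) (nat_lit 4) (nat_lit 7) (nat_lit 7) (nat_lit 6) (nat_lit 82) (nat_lit 77) r1_82 r1_77 (nat_lit 0) (nat_lit 0) (nat_lit 0) (nat_lit 0x7d3afc3302) (nat_lit 1359462312),
  Rx.mk (nat_lit 509) (nat_lit 5) (nat_lit 7) (nat_lit 7) (nat_lit 7) (nat_lit 83) (nat_lit 78) r1_83 r1_78 (nat_lit 0) (nat_lit 0) (nat_lit 0) (nat_lit 0x7deae81394) (nat_lit 1022151312),
  Rx.mk (nat_lit 511) (nat_lit 7) (nat_lit 7) (nat_lit 7) (nat_lit 7) (nat_lit 84) (nat_lit 79) r1_84 r1_79 (nat_lit 0) (nat_lit 0) (nat_lit 0) (nat_lit 0x7df79428c6) (nat_lit 997853688)]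
noncomputable def e12_40 : List Rx := [
  Rx.mk (nat_lit 292) (nat_lit 4) (nat_lit 4) (nat_lit 4) (nat_lit 0) (nat_lit 201) (nat_lit 283) r1_201 r7_283 (nat_lit 0) (nat_lit 0) (nat_lit 0) (nat_lit 0x34358c330c) (nat_lit 37202186736),
  Rx.mk (nat_lit 293) (nat_lit 5) (nat_lit 4) (nat_lit 4) (nat_lit 1) (nat_lit 202) (nat_lit 289) r1_202 r7_289 (nat_lit 0) (nat_lit 0) (nat_lit 0) (nat_lit 0x694567a042) (nat_lit 11156551848),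
  Rx.mk (nat_lit 301) (nat_lit 5) (nat_lit 5) (nat_lit 4) (nat_lit 3) (nat_lit 203) (nat_lit 290) r1_203 r7_290 (nat_lit 0) (nat_lit 0) (nat_lit 0) (nat_lit 0x7d333feece) (nat_lit 1374294168),
  Rx.mk (nat_lit 316) (nat_lit 4) (nat_lit 7) (nat_lit 4) (nat_lit 2) (nat_lit 204) (nat_lit 284) r1_204 r7_284 (nat_lit 0) (nat_lit 0) (nat_lit 0) (nat_lit 0x689c4c929c) (nat_lit 11480794416),
  Rx.mk (nat_lit 317) (nat_lit 5) (nat_lit 7) (nat_lit 4) (nat_lit 3) (nat_lit 205) (nat_lit 291) r1_205 r7_291 (nat_lit 0) (nat_lit 0) (nat_lit 0) (nat_lit 0x7d4016c154) (nat_lit 1349676432),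
  Rx.mk (nat_lit 420) (nat_lit 4) (nat_lit 4) (nat_lit 6) (nat_lit 4) (nat_lit 206) (nat_lit 286) r1_206 r7_286 (nat_lit 0) (nat_lit 0) (nat_lit 0) (nat_lit 0x6ddf3cfe52) (nat_lit 8898178536),
  Rx.mk (nat_lit 421) (nat_lit 5) (nat_lit 4) (nat_lit 6) (nat_lit 5) (nat_lit 207) (nat_lit 293) r1_207 r7_293 (nat_lit 0) (nat_lit 0) (nat_lit 0) (nat_lit 0x7c8fc726fe) (nat_lit 1687734360),
  Rx.mk (nat_lit 429) (nat_lit 5) (nat_lit 5) (nat_lit 6) (nat_lit 7) (nat_lit 208) (nat_lit 294) r1_208 r7_294 (nat_lit 0) (nat_lit 0) (nat_lit 0) (nat_lit 0x7db7bde66a) (nat_lit 1120254408),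
  Rx.mk (nat_lit 436) (nat_lit 4) (nat_lit 6) (nat_lit 6) (nat_lit 6) (nat_lit 209) (nat_lit 288) r1_209 r7_288 (nat_lit 0) (nat_lit 0) (nat_lit 0) (nat_lit 0x7de4743ad8) (nat_lit 1034523360),
  Rx.mk (nat_lit 437) (nat_lit 5) (nat_lit 6) (nat_lit 6) (nat_lit 7) (nat_lit 210) (nat_lit 296) r1_210 r7_296 (nat_lit 0) (nat_lit 0) (nat_lit 0) (nat_lit 0x7dd2f1d310) (nat_lit 1068095808),
  Rx.mk (nat_lit 438) (nat_lit 6) (nat_lit 6) (nat_lit 6) (nat_lit 7) (nat_lit 211) (nat_lit 298) r1_211 r7_298 (nat_lit 0) (nat_lit 0) (nat_lit 0) (nat_lit 0x7deaa7f796) (nat_lit 1022631480),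
  Rx.mk (nat_lit 444) (nat_lit 4) (nat_lit 7) (nat_lit 6) (nat_lit 6) (nat_lit 212) (nat_lit 287) r1_212 r7_287 (nat_lit 0) (nat_lit 0) (nat_lit 0) (nat_lit 0x7db4c29622) (nat_lit 1125971496),
  Rx.mk (nat_lit 445) (nat_lit 5) (nat_lit 7) (nat_lit 6) (nat_lit 7) (nat_lit 213) (nat_lit 295) r1_213 r7_295 (nat_lit 0) (nat_lit 0) (nat_lit 0) (nat_lit 0x7db90e3164) (nat_lit 1117735632),
  Rx.mk (nat_lit 508) (nat_lit 4) (nat_lit 7) (nat_lit 7) (nat_lit 6) (nat_lit 214) (nat_lit 285) r1_214 r7_285 (nat_lit 0) (nat_lit 0) (nat_lit 0) (nat_lit 0x5d3c3f5ed0) (nat_lit 17064350784),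
  Rx.mk (nat_lit 509) (nat_lit 5) (nat_lit 7) (nat_lit 7) (nat_lit 7) (nat_lit 215) (nat_lit 292) r1_215 r7_292 (nat_lit 0) (nat_lit 0) (nat_lit 0) (nat_lit 0x7c3cb238a0) (nat_lit 1847035008),
  Rx.mk (nat_lit 511) (nat_lit 7) (nat_lit 7) (nat_lit 7) (nat_lit 7) (nat_lit 216) (nat_lit 297) r1_216 r7_297 (nat_lit 0) (nat_lit 0) (nat_lit 0) (nat_lit 0x78ed89ae78) (nat_lit 3471373152)]
noncomputable def e12_41 : List Rx := [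
  Rx.mk (nat_lit 297) (nat_lit 1) (nat_lit 5) (nat_lit 4) (nat_lit 3) (nat_lit 185) (nat_lit 273) r1_185 r1_273 (nat_lit 0) (nat_lit 0) (nat_lit 0) (nat_lit 0x7db8bf7650) (nat_lit 1118325312),
  Rx.mk (nat_lit 301) (nat_lit 5) (nat_lit 5) (nat_lit 4) (nat_lit 3) (nat_lit 186) (nat_lit 272) r1_186 r1_272 (nat_lit 0) (nat_lit 0) (nat_lit 0) (nat_lit 0x7dbb600c44) (nat_lit 1113287760)]
noncomputable def e12_42 : List Rx := [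
  Rx.mk (nat_lit 265) (nat_lit 1) (nat_lit 1) (nat_lit 4) (nat_lit 3) (nat_lit 280) (nat_lit 298) r1_280 r2_298 (nat_lit 0) (nat_lit 0) (nat_lit 0) (nat_lit 0x7dd800c21c) (nat_lit 1058396976),
  Rx.mk (nat_lit 297) (nat_lit 1) (nat_lit 5) (nat_lit 4) (nat_lit 3) (nat_lit 281) (nat_lit 297) r1_281 r2_297 (nat_lit 0) (nat_lit 0) (nat_lit 0) (nat_lit 0x7dda1280fe) (nat_lit 1054429272),
  Rx.mk (nat_lit 301) (nat_lit 5) (nat_lit 5) (nat_lit 4) (nat_lit 3) (nat_lit 282) (nat_lit 295) r1_282 r2_295 (nat_lit 0) (nat_lit 0) (nat_lit 0) (nat_lit 0x7d8d92694c) (nat_lit 1201110768),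
  Rx.mk (nat_lit 329) (nat_lit 1) (nat_lit 1) (nat_lit 5) (nat_lit 7) (nat_lit 283) (nat_lit 300) r1_283 r2_300 (nat_lit 0) (nat_lit 0) (nat_lit 0) (nat_lit 0x7df5d6c49e) (nat_lit 1001189592),
  Rx.mk (nat_lit 361) (nat_lit 1) (nat_lit 5) (nat_lit 5) (nat_lit 7) (nat_lit 284) (nat_lit 299) r1_284 r2_299 (nat_lit 0) (nat_lit 0) (nat_lit 0) (nat_lit 0x7dd891d90a) (nat_lit 1057310280),
  Rx.mk (nat_lit 365) (nat_lit 5) (nat_lit 5) (nat_lit 5) (nat_lit 7) (nat_lit 285) (nat_lit 296) r1_285 r2_296 (nat_lit 0) (nat_lit 0) (nat_lit 0) (nat_lit 0x7df759ac6e) (nat_lit 998291736)]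
noncomputable def e12_43 : List Rx := [
  Rx.mk (nat_lit 301) (nat_lit 5) (nat_lit 5) (nat_lit 4) (nat_lit 3) (nat_lit 199) (nat_lit 66) r1_199 r7_66 (nat_lit 0) (nat_lit 0) (nat_lit 0) (nat_lit 0x7d80f19366) (nat_lit 1225324152),
  Rx.mk (nat_lit 429) (nat_lit 5) (nat_lit 5) (nat_lit 6) (nat_lit 7) (nat_lit 200) (nat_lit 67) r1_200 r7_67 (nat_lit 0) (nat_lit 0) (nat_lit 0) (nat_lit 0x7df471daee) (nat_lit 1003862808)]
noncomputable def e12_44 : List Rx := [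
  Rx.mk (nat_lit 301) (nat_lit 5) (nat_lit 5) (nat_lit 4) (nat_lit 3) (nat_lit 290) (nat_lit 286) r1_290 r8_286 (nat_lit 0) (nat_lit 0) (nat_lit 0) (nat_lit 0x7d689cd8ca) (nat_lit 1271976264),
  Rx.mk (nat_lit 365) (nat_lit 5) (nat_lit 5) (nat_lit 5) (nat_lit 7) (nat_lit 291) (nat_lit 287) r1_291 r8_287 (nat_lit 0) (nat_lit 0) (nat_lit 0) (nat_lit 0x7de70451d4) (nat_lit 1029609360),
  Rx.mk (nat_lit 429) (nat_lit 5) (nat_lit 5) (nat_lit 6) (nat_lit 7) (nat_lit 292) (nat_lit 288) r1_292 r8_288 (nat_lit 0) (nat_lit 0) (nat_lit 0) (nat_lit 0x7df1630bde) (nat_lit 1009725912)]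
noncomputable def e12_45 : List Rx := [
  Rx.mk (nat_lit 329) (nat_lit 1) (nat_lit 1) (nat_lit 5) (nat_lit 7) (nat_lit 287) (nat_lit 290) r1_287 r8_290 (nat_lit 0) (nat_lit 0) (nat_lit 0) (nat_lit 0x7deadc744e) (nat_lit 1022238360),
  Rx.mk (nat_lit 361) (nat_lit 1) (nat_lit 5) (nat_lit 5) (nat_lit 7) (nat_lit 288) (nat_lit 291) r1_288 r8_291 (nat_lit 0) (nat_lit 0) (nat_lit 0) (nat_lit 0x7de6571ca8) (nat_lit 1030906656),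
  Rx.mk (nat_lit 365) (nat_lit 5) (nat_lit 5) (nat_lit 5) (nat_lit 7) (nat_lit 289) (nat_lit 292) r1_289 r8_292 (nat_lit 0) (nat_lit 0) (nat_lit 0) (nat_lit 0x7de85cdc4a) (nat_lit 1027028808)]
noncomputable def e12_46 : List Rx := [
  Rx.mk (nat_lit 289) (nat_lit 1) (nat_lit 4) (nat_lit 4) (nat_lit 1) (nat_lit 187) (nat_lit 281) r1_187 r4_281 (nat_lit 0) (nat_lit 0) (nat_lit 0) (nat_lit 0x680620b5f0) (nat_lit 11768732352),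
  Rx.mk (nat_lit 297) (nat_lit 1) (nat_lit 5) (nat_lit 4) (nat_lit 3) (nat_lit 188) (nat_lit 282) r1_188 r4_282 (nat_lit 0) (nat_lit 0) (nat_lit 0) (nat_lit 0x7cc75d8d60) (nat_lit 1581151104),
  Rx.mk (nat_lit 313) (nat_lit 1) (nat_lit 7) (nat_lit 4) (nat_lit 3) (nat_lit 189) (nat_lit 283) r1_189 r4_283 (nat_lit 0) (nat_lit 0) (nat_lit 0) (nat_lit 0x79612a93f6) (nat_lit 3249667512),
  Rx.mk (nat_lit 317) (nat_lit 5) (nat_lit 7) (nat_lit 4) (nat_lit 3) (nat_lit 190) (nat_lit 279) r1_190 r4_279 (nat_lit 0) (nat_lit 0) (nat_lit 0) (nat_lit 0x7deba2c7e8) (nat_lit 1020752928),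
  Rx.mk (nat_lit 509) (nat_lit 5) (nat_lit 7) (nat_lit 7) (nat_lit 7) (nat_lit 191) (nat_lit 280) r1_191 r4_280 (nat_lit 0) (nat_lit 0) (nat_lit 0) (nat_lit 0x7965ed07ca) (nat_lit 3240541512)]
noncomputable def e12_47 : List Rx := [
  Rx.mk (nat_lit 317) (nat_lit 5) (nat_lit 7) (nat_lit 4) (nat_lit 3) (nat_lit 85) (nat_lit 71) r1_85 r4_71 (nat_lit 0) (nat_lit 0) (nat_lit 0) (nat_lit 0x7de3bb066c) (nat_lit 1035910512),
  Rx.mk (nat_lit 445) (nat_lit 5) (nat_lit 7) (nat_lit 6) (nat_lit 7) (nat_lit 86) (nat_lit 73) r1_86 r4_73 (nat_lit 0) (nat_lit 0) (nat_lit 0) (nat_lit 0x7eb127ced2) (nat_lit 642029544),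
  Rx.mk (nat_lit 509) (nat_lit 5) (nat_lit 7) (nat_lit 7) (nat_lit 7) (nat_lit 87) (nat_lit 72) r1_87 r4_72 (nat_lit 0) (nat_lit 0) (nat_lit 0) (nat_lit 0x7df5700b0a) (nat_lit 1001958984)]
noncomputable def e12_48 : List Rx := [
  Rx.mk (nat_lit 317) (nat_lit 5) (nat_lit 7) (nat_lit 4) (nat_lit 3) (nat_lit 217) (nat_lit 314) r1_217 r9_314 (nat_lit 0) (nat_lit 0) (nat_lit 0) (nat_lit 0x7c9f940a20) (nat_lit 1657438848),
  Rx.mk (nat_lit 445) (nat_lit 5) (nat_lit 7) (nat_lit 6) (nat_lit 7) (nat_lit 218) (nat_lit 316) r1_218 r9_316 (nat_lit 0) (nat_lit 0) (nat_lit 0) (nat_lit 0x7de940ce0a) (nat_lit 1025321544),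
  Rx.mk (nat_lit 509) (nat_lit 5) (nat_lit 7) (nat_lit 7) (nat_lit 7) (nat_lit 219) (nat_lit 315) r1_219 r9_315 (nat_lit 0) (nat_lit 0) (nat_lit 0) (nat_lit 0x7e4c769a4a) (nat_lit 835096392)]
noncomputable def e12_49 : List Rx := [
  Rx.mk (nat_lit 317) (nat_lit 5) (nat_lit 7) (nat_lit 4) (nat_lit 3) (nat_lit 244) (nat_lit 333) r1_244 r10_333 (nat_lit 0) (nat_lit 0) (nat_lit 0) (nat_lit 0x7dc4b676d4) (nat_lit 1095383952),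
  Rx.mk (nat_lit 445) (nat_lit 5) (nat_lit 7) (nat_lit 6) (nat_lit 7) (nat_lit 245) (nat_lit 334) r1_245 r10_334 (nat_lit 0) (nat_lit 0) (nat_lit 0) (nat_lit 0x7e352a8f22) (nat_lit 879766056)]
noncomputable def e12_50 : List Rx := [
  Rx.mk (nat_lit 289) (nat_lit 1) (nat_lit 4) (nat_lit 4) (nat_lit 1) (nat_lit 220) (nat_lit 41) r1_220 r10_41 (nat_lit 0) (nat_lit 0) (nat_lit 0) (nat_lit 0x6745aa3e18) (nat_lit 12137759712),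
  Rx.mk (nat_lit 297) (nat_lit 1) (nat_lit 5) (nat_lit 4) (nat_lit 3) (nat_lit 221) (nat_lit 42) r1_221 r10_42 (nat_lit 0) (nat_lit 0) (nat_lit 0) (nat_lit 0x7dd2d19514) (nat_lit 1068337296),
  Rx.mk (nat_lit 313) (nat_lit 1) (nat_lit 7) (nat_lit 4) (nat_lit 3) (nat_lit 222) (nat_lit 43) r1_222 r10_43 (nat_lit 0) (nat_lit 0) (nat_lit 0) (nat_lit 0x7dc1f662d8) (nat_lit 1100657376),
  Rx.mk (nat_lit 505) (nat_lit 1) (nat_lit 7) (nat_lit 7) (nat_lit 7) (nat_lit 223) (nat_lit 44) r1_223 r10_44 (nat_lit 0) (nat_lit 0) (nat_lit 0) (nat_lit 0x7e5b3e8dbc) (nat_lit 806755248),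
  Rx.mk (nat_lit 509) (nat_lit 5) (nat_lit 7) (nat_lit 7) (nat_lit 7) (nat_lit 224) (nat_lit 45) r1_224 r10_45 (nat_lit 0) (nat_lit 0) (nat_lit 0) (nat_lit 0x7de11ef030) (nat_lit 1040914368)]
noncomputable def e12_51 : List Rx := [
  Rx.mk (nat_lit 192) (nat_lit 0) (nat_lit 0) (nat_lit 3) (nat_lit 4) (nat_lit 225) (nat_lit 106) r1_225 r12_106 (nat_lit 0) (nat_lit 0) (nat_lit 0) (nat_lit 0x8000000000) (nat_lit 0),
  Rx.mk (nat_lit 193) (nat_lit 1) (nat_lit 0) (nat_lit 3) (nat_lit 5) (nat_lit 226) (nat_lit 109) r1_226 r12_109 (nat_lit 0) (nat_lit 0) (nat_lit 0) (nat_lit 0x7eb6a736d6) (nat_lit 631488312),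
  Rx.mk (nat_lit 194) (nat_lit 2) (nat_lit 0) (nat_lit 3) (nat_lit 5) (nat_lit 227) (nat_lit 113) r1_227 r12_113 (nat_lit 0) (nat_lit 0) (nat_lit 0) (nat_lit 0x7dc65abc8e) (nat_lit 1092236184),
  Rx.mk (nat_lit 210) (nat_lit 2) (nat_lit 2) (nat_lit 3) (nat_lit 7) (nat_lit 228) (nat_lit 114) r1_228 r12_114 (nat_lit 0) (nat_lit 0) (nat_lit 0) (nat_lit 0x7d334cae02) (nat_lit 1374198696),
  Rx.mk (nat_lit 448) (nat_lit 0) (nat_lit 0) (nat_lit 7) (nat_lit 4) (nat_lit 229) (nat_lit 107) r1_229 r12_107 (nat_lit 0) (nat_lit 0) (nat_lit 0) (nat_lit 0x71c5b3f2fc) (nat_lit 6983726256),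
  Rx.mk (nat_lit 449) (nat_lit 1) (nat_lit 0) (nat_lit 7) (nat_lit 5) (nat_lit 230) (nat_lit 110) r1_230 r12_110 (nat_lit 0) (nat_lit 0) (nat_lit 0) (nat_lit 0x7dfcd1f4e4) (nat_lit 987803856),
  Rx.mk (nat_lit 472) (nat_lit 0) (nat_lit 3) (nat_lit 7) (nat_lit 6) (nat_lit 231) (nat_lit 108) r1_231 r12_108 (nat_lit 0) (nat_lit 0) (nat_lit 0) (nat_lit 0x7d8932ef48) (nat_lit 1209495456),
  Rx.mk (nat_lit 473) (nat_lit 1) (nat_lit 3) (nat_lit 7) (nat_lit 7) (nat_lit 232) (nat_lit 111) r1_232 r12_111 (nat_lit 0) (nat_lit 0) (nat_lit 0) (nat_lit 0x7e706b5ada) (nat_lit 766154376),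
  Rx.mk (nat_lit 475) (nat_lit 3) (nat_lit 3) (nat_lit 7) (nat_lit 7) (nat_lit 233) (nat_lit 112) r1_233 r12_112 (nat_lit 0) (nat_lit 0) (nat_lit 0) (nat_lit 0x7dda421e04) (nat_lit 1054072656)]
noncomputable def e12_52 : List Rx := [
  Rx.mk (nat_lit 257) (nat_lit 1) (nat_lit 0) (nat_lit 4) (nat_lit 1) (nat_lit 310) (nat_lit 164) r1_310 r12_164 (nat_lit 0) (nat_lit 0) (nat_lit 0) (nat_lit 0x776b6e91ac) (nat_lit 4211691120),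
  Rx.mk (nat_lit 281) (nat_lit 1) (nat_lit 3) (nat_lit 4) (nat_lit 3) (nat_lit 311) (nat_lit 167) r1_311 r12_167 (nat_lit 0) (nat_lit 0) (nat_lit 0) (nat_lit 0x7e69f1827e) (nat_lit 778571352),
  Rx.mk (nat_lit 321) (nat_lit 1) (nat_lit 0) (nat_lit 5) (nat_lit 5) (nat_lit 312) (nat_lit 165) r1_312 r12_165 (nat_lit 0) (nat_lit 0) (nat_lit 0) (nat_lit 0x7da1e863d8) (nat_lit 1162118880),
  Rx.mk (nat_lit 345) (nat_lit 1) (nat_lit 3) (nat_lit 5) (nat_lit 7) (nat_lit 313) (nat_lit 168) r1_313 r12_168 (nat_lit 0) (nat_lit 0) (nat_lit 0) (nat_lit 0x7db533cf0e) (nat_lit 1125123480),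
  Rx.mk (nat_lit 449) (nat_lit 1) (nat_lit 0) (nat_lit 7) (nat_lit 5) (nat_lit 314) (nat_lit 166) r1_314 r12_166 (nat_lit 0) (nat_lit 0) (nat_lit 0) (nat_lit 0x7decb6b6a8) (nat_lit 1018686240)]
noncomputable def e12_53 : List Rx := [
  Rx.mk (nat_lit 216) (nat_lit 0) (nat_lit 3) (nat_lit 3) (nat_lit 6) (nat_lit 58) (nat_lit 11) r1_58 r12_11 (nat_lit 0) (nat_lit 0) (nat_lit 0) (nat_lit 0x76758bd0ce) (nat_lit 4683151512),
  Rx.mk (nat_lit 217) (nat_lit 1) (nat_lit 3) (nat_lit 3) (nat_lit 7) (nat_lit 59) (nat_lit 12) r1_59 r12_12 (nat_lit 0) (nat_lit 0) (nat_lit 0) (nat_lit 0x7e4f838978) (nat_lit 829247328),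
  Rx.mk (nat_lit 218) (nat_lit 2) (nat_lit 3) (nat_lit 3) (nat_lit 7) (nat_lit 60) (nat_lit 13) r1_60 r12_13 (nat_lit 0) (nat_lit 0) (nat_lit 0) (nat_lit 0x7d35e3e48c) (nat_lit 1369231344),
  Rx.mk (nat_lit 472) (nat_lit 0) (nat_lit 3) (nat_lit 7) (nat_lit 6) (nat_lit 61) (nat_lit 9) r1_61 r12_9 (nat_lit 0) (nat_lit 0) (nat_lit 0) (nat_lit 0x7a959c4ba6) (nat_lit 2658257784),
  Rx.mk (nat_lit 473) (nat_lit 1) (nat_lit 3) (nat_lit 7) (nat_lit 7) (nat_lit 62) (nat_lit 10) r1_62 r12_10 (nat_lit 0) (nat_lit 0) (nat_lit 0) (nat_lit 0x7effe88278) (nat_lit 491029344),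
  Rx.mk (nat_lit 504) (nat_lit 0) (nat_lit 7) (nat_lit 7) (nat_lit 6) (nat_lit 63) (nat_lit 6) r1_63 r12_6 (nat_lit 0) (nat_lit 0) (nat_lit 0) (nat_lit 0x7a1cc1b9c8) (nat_lit 2889982368),
  Rx.mk (nat_lit 505) (nat_lit 1) (nat_lit 7) (nat_lit 7) (nat_lit 7) (nat_lit 64) (nat_lit 7) r1_64 r12_7 (nat_lit 0) (nat_lit 0) (nat_lit 0) (nat_lit 0x7e3ee0f3b2) (nat_lit 861143400),
  Rx.mk (nat_lit 507) (nat_lit 3) (nat_lit 7) (nat_lit 7) (nat_lit 7) (nat_lit 65) (nat_lit 8) r1_65 r12_8 (nat_lit 0) (nat_lit 0) (nat_lit 0) (nat_lit 0x7c03ca075c) (nat_lit 1956148272)]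
noncomputable def e12_54 : List Rx := [
  Rx.mk (nat_lit 281) (nat_lit 1) (nat_lit 3) (nat_lit 4) (nat_lit 3) (nat_lit 302) (nat_lit 273) r1_302 r12_273 (nat_lit 0) (nat_lit 0) (nat_lit 0) (nat_lit 0x7e59f0e298) (nat_lit 809254368),
  Rx.mk (nat_lit 345) (nat_lit 1) (nat_lit 3) (nat_lit 5) (nat_lit 7) (nat_lit 303) (nat_lit 274) r1_303 r12_274 (nat_lit 0) (nat_lit 0) (nat_lit 0) (nat_lit 0x7d5c1b80ec) (nat_lit 1295953776)]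
noncomputable def e12_55 : List Rx := [
  Rx.mk (nat_lit 313) (nat_lit 1) (nat_lit 7) (nat_lit 4) (nat_lit 3) (nat_lit 66) (nat_lit 259) r1_66 r3_259 (nat_lit 0) (nat_lit 0) (nat_lit 0) (nat_lit 0x8000000000) (nat_lit 0),
  Rx.mk (nat_lit 317) (nat_lit 5) (nat_lit 7) (nat_lit 4) (nat_lit 3) (nat_lit 67) (nat_lit 257) r1_67 r3_257 (nat_lit 0) (nat_lit 0) (nat_lit 0) (nat_lit 0x7cedd90582) (nat_lit 1507365288),
  Rx.mk (nat_lit 509) (nat_lit 5) (nat_lit 7) (nat_lit 7) (nat_lit 7) (nat_lit 68) (nat_lit 258) r1_68 r3_258 (nat_lit 0) (nat_lit 0) (nat_lit 0) (nat_lit 0x7c2bd226b2) (nat_lit 1879391592)]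
noncomputable def e12_56 : List Rx := [
  Rx.mk (nat_lit 313) (nat_lit 1) (nat_lit 7) (nat_lit 4) (nat_lit 3) (nat_lit 242) (nat_lit 268) r1_242 r12_268 (nat_lit 0) (nat_lit 0) (nat_lit 0) (nat_lit 0x8000000000) (nat_lit 0),
  Rx.mk (nat_lit 317) (nat_lit 5) (nat_lit 7) (nat_lit 4) (nat_lit 3) (nat_lit 243) (nat_lit 267) r1_243 r12_267 (nat_lit 0) (nat_lit 0) (nat_lit 0) (nat_lit 0x7d19eca41c) (nat_lit 1422852912)]
noncomputable def e12_57 : List Rx := [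
  Rx.mk (nat_lit 313) (nat_lit 1) (nat_lit 7) (nat_lit 4) (nat_lit 3) (nat_lit 91) (nat_lit 63) r1_91 r12_63 (nat_lit 0) (nat_lit 0) (nat_lit 0) (nat_lit 0x7a1ced3710) (nat_lit 2889656640),
  Rx.mk (nat_lit 505) (nat_lit 1) (nat_lit 7) (nat_lit 7) (nat_lit 7) (nat_lit 92) (nat_lit 64) r1_92 r12_64 (nat_lit 0) (nat_lit 0) (nat_lit 0) (nat_lit 0x7adb1c5360) (nat_lit 2524998528),
  Rx.mk (nat_lit 509) (nat_lit 5) (nat_lit 7) (nat_lit 7) (nat_lit 7) (nat_lit 93) (nat_lit 65) r1_93 r12_65 (nat_lit 0) (nat_lit 0) (nat_lit 0) (nat_lit 0x7e7f436d4a) (nat_lit 737692488)]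
noncomputable def e12 : List (List Rx) := [e12_0, e12_1, e12_2, e12_3, e12_4, e12_5, e12_6, e12_7, e12_8, e12_9, e12_10, e12_11, e12_12, e12_13, e12_14, e12_15, e12_16, e12_17, e12_18, e12_19, e12_20, e12_21, e12_22, e12_23, e12_24, e12_25, e12_26, e12_27, e12_28, e12_29, e12_30, e12_31, e12_32, e12_33, e12_34, e12_35, e12_36, e12_37, e12_38, e12_39, e12_40, e12_41, e12_42, e12_43, e12_44, e12_45, e12_46, e12_47, e12_48, e12_49, e12_50, e12_51, e12_52, e12_53, e12_54, e12_55, e12_56, e12_57]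
noncomputable def e13_0 : List Rx := [
  Rx.mk (nat_lit 0) (nat_lit 0) (nat_lit 0) (nat_lit 0) (nat_lit 0) (nat_lit 0) (nat_lit 124) r7_0 r0_124 (nat_lit 0) (nat_lit 0) (nat_lit 0) (nat_lit 0x26656fa2a6) (nat_lit 43982313336),
  Rx.mk (nat_lit 1) (nat_lit 1) (nat_lit 0) (nat_lit 0) (nat_lit 1) (nat_lit 3) (nat_lit 127) r7_3 r0_127 (nat_lit 0) (nat_lit 0) (nat_lit 0) (nat_lit 0x6ccff433ee) (nat_lit 9418338072),
  Rx.mk (nat_lit 2) (nat_lit 2) (nat_lit 0) (nat_lit 0) (nat_lit 1) (nat_lit 6) (nat_lit 133) r7_6 r0_133 (nat_lit 0) (nat_lit 0) (nat_lit 0) (nat_lit 0x62b0ff8d58) (nat_lit 14386226400),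
  Rx.mk (nat_lit 18) (nat_lit 2) (nat_lit 2) (nat_lit 0) (nat_lit 3) (nat_lit 8) (nat_lit 136) r7_8 r0_136 (nat_lit 0) (nat_lit 0) (nat_lit 0) (nat_lit 0x7c3f4c0f00) (nat_lit 1842048000),
  Rx.mk (nat_lit 146) (nat_lit 2) (nat_lit 2) (nat_lit 2) (nat_lit 7) (nat_lit 9) (nat_lit 138) r7_9 r0_138 (nat_lit 0) (nat_lit 0) (nat_lit 0) (nat_lit 0x7db74b2d96) (nat_lit 1121113656),
  Rx.mk (nat_lit 192) (nat_lit 0) (nat_lit 0) (nat_lit 3) (nat_lit 4) (nat_lit 1) (nat_lit 125) r7_1 r0_125 (nat_lit 0) (nat_lit 0) (nat_lit 0) (nat_lit 0x5777047844) (nat_lit 19896786000),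
  Rx.mk (nat_lit 193) (nat_lit 1) (nat_lit 0) (nat_lit 3) (nat_lit 5) (nat_lit 4) (nat_lit 128) r7_4 r0_128 (nat_lit 0) (nat_lit 0) (nat_lit 0) (nat_lit 0x7d33d4058c) (nat_lit 1373185008),
  Rx.mk (nat_lit 194) (nat_lit 2) (nat_lit 0) (nat_lit 3) (nat_lit 5) (nat_lit 7) (nat_lit 134) r7_7 r0_134 (nat_lit 0) (nat_lit 0) (nat_lit 0) (nat_lit 0x7d34a4d87e) (nat_lit 1371620952),
  Rx.mk (nat_lit 210) (nat_lit 2) (nat_lit 2) (nat_lit 3) (nat_lit 7) (nat_lit 10) (nat_lit 137) r7_10 r0_137 (nat_lit 0) (nat_lit 0) (nat_lit 0) (nat_lit 0x7df1e163f8) (nat_lit 1008779616),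
  Rx.mk (nat_lit 216) (nat_lit 0) (nat_lit 3) (nat_lit 3) (nat_lit 6) (nat_lit 2) (nat_lit 126) r7_2 r0_126 (nat_lit 0) (nat_lit 0) (nat_lit 0) (nat_lit 0x7aa48cbc90) (nat_lit 2629613376),
  Rx.mk (nat_lit 217) (nat_lit 1) (nat_lit 3) (nat_lit 3) (nat_lit 7) (nat_lit 5) (nat_lit 129) r7_5 r0_129 (nat_lit 0) (nat_lit 0) (nat_lit 0) (nat_lit 0x7dee6ffb12) (nat_lit 1015381224),
  Rx.mk (nat_lit 218) (nat_lit 2) (nat_lit 3) (nat_lit 3) (nat_lit 7) (nat_lit 11) (nat_lit 135) r7_11 r0_135 (nat_lit 0) (nat_lit 0) (nat_lit 0) (nat_lit 0x7de50491d2) (nat_lit 1033442280),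
  Rx.mk (nat_lit 219) (nat_lit 3) (nat_lit 3) (nat_lit 3) (nat_lit 7) (nat_lit 14) (nat_lit 130) r7_14 r0_130 (nat_lit 0) (nat_lit 0) (nat_lit 0) (nat_lit 0x7da85dbc7c) (nat_lit 1149735600),
  Rx.mk (nat_lit 475) (nat_lit 3) (nat_lit 3) (nat_lit 7) (nat_lit 7) (nat_lit 13) (nat_lit 131) r7_13 r0_131 (nat_lit 0) (nat_lit 0) (nat_lit 0) (nat_lit 0x7dcfeb437c) (nat_lit 1073897136),
  Rx.mk (nat_lit 507) (nat_lit 3) (nat_lit 7) (nat_lit 7) (nat_lit 7) (nat_lit 12) (nat_lit 132) r7_12 r0_132 (nat_lit 0) (nat_lit 0) (nat_lit 0) (nat_lit 0x7df4ed3338) (nat_lit 1002938976)]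
noncomputable def e13_1 : List Rx := [
  Rx.mk (nat_lit 0) (nat_lit 0) (nat_lit 0) (nat_lit 0) (nat_lit 0) (nat_lit 15) (nat_lit 131) r7_15 r1_131 (nat_lit 0) (nat_lit 0) (nat_lit 0) (nat_lit 0x3a4548f130) (nat_lit 34226891712),
  Rx.mk (nat_lit 1) (nat_lit 1) (nat_lit 0) (nat_lit 0) (nat_lit 1) (nat_lit 18) (nat_lit 134) r7_18 r1_134 (nat_lit 0) (nat_lit 0) (nat_lit 0) (nat_lit 0x713c198d2c) (nat_lit 7247565936),
  Rx.mk (nat_lit 2) (nat_lit 2) (nat_lit 0) (nat_lit 0) (nat_lit 1) (nat_lit 21) (nat_lit 138) r7_21 r1_138 (nat_lit 0) (nat_lit 0) (nat_lit 0) (nat_lit 0x6d86155126) (nat_lit 9069123960),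
  Rx.mk (nat_lit 18) (nat_lit 2) (nat_lit 2) (nat_lit 0) (nat_lit 3) (nat_lit 22) (nat_lit 139) r7_22 r1_139 (nat_lit 0) (nat_lit 0) (nat_lit 0) (nat_lit 0x78d44382f4) (nat_lit 3519833616),
  Rx.mk (nat_lit 146) (nat_lit 2) (nat_lit 2) (nat_lit 2) (nat_lit 7) (nat_lit 23) (nat_lit 140) r7_23 r1_140 (nat_lit 0) (nat_lit 0) (nat_lit 0) (nat_lit 0x7d782dbfac) (nat_lit 1242130032),
  Rx.mk (nat_lit 192) (nat_lit 0) (nat_lit 0) (nat_lit 3) (nat_lit 4) (nat_lit 16) (nat_lit 132) r7_16 r1_132 (nat_lit 0) (nat_lit 0) (nat_lit 0) (nat_lit 0x719cb8e2d6) (nat_lit 7062302520),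
  Rx.mk (nat_lit 193) (nat_lit 1) (nat_lit 0) (nat_lit 3) (nat_lit 5) (nat_lit 19) (nat_lit 135) r7_19 r1_135 (nat_lit 0) (nat_lit 0) (nat_lit 0) (nat_lit 0x7dcb8c896c) (nat_lit 1082276208),
  Rx.mk (nat_lit 216) (nat_lit 0) (nat_lit 3) (nat_lit 3) (nat_lit 6) (nat_lit 17) (nat_lit 133) r7_17 r1_133 (nat_lit 0) (nat_lit 0) (nat_lit 0) (nat_lit 0x7d4b722b92) (nat_lit 1327900392),
  Rx.mk (nat_lit 217) (nat_lit 1) (nat_lit 3) (nat_lit 3) (nat_lit 7) (nat_lit 20) (nat_lit 136) r7_20 r1_136 (nat_lit 0) (nat_lit 0) (nat_lit 0) (nat_lit 0x7ddfbee632) (nat_lit 1043551080),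
  Rx.mk (nat_lit 219) (nat_lit 3) (nat_lit 3) (nat_lit 3) (nat_lit 7) (nat_lit 24) (nat_lit 137) r7_24 r1_137 (nat_lit 0) (nat_lit 0) (nat_lit 0) (nat_lit 0x7dd37a4a88) (nat_lit 1067073696)]
noncomputable def e13_2 : List Rx := [
  Rx.mk (nat_lit 0) (nat_lit 0) (nat_lit 0) (nat_lit 0) (nat_lit 0) (nat_lit 25) (nat_lit 119) r7_25 r2_119 (nat_lit 0) (nat_lit 0) (nat_lit 0) (nat_lit 0x29642f73aa) (nat_lit 42512151240),
  Rx.mk (nat_lit 1) (nat_lit 1) (nat_lit 0) (nat_lit 0) (nat_lit 1) (nat_lit 30) (nat_lit 124) r7_30 r2_124 (nat_lit 0) (nat_lit 0) (nat_lit 0) (nat_lit 0x7afaf2d5d8) (nat_lit 2463952608),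
  Rx.mk (nat_lit 2) (nat_lit 2) (nat_lit 0) (nat_lit 0) (nat_lit 1) (nat_lit 35) (nat_lit 130) r7_35 r2_130 (nat_lit 0) (nat_lit 0) (nat_lit 0) (nat_lit 0x7a45758e62) (nat_lit 2811939624),
  Rx.mk (nat_lit 18) (nat_lit 2) (nat_lit 2) (nat_lit 0) (nat_lit 3) (nat_lit 37) (nat_lit 134) r7_37 r2_134 (nat_lit 0) (nat_lit 0) (nat_lit 0) (nat_lit 0x7ddea617c0) (nat_lit 1045654272),
  Rx.mk (nat_lit 24) (nat_lit 0) (nat_lit 3) (nat_lit 0) (nat_lit 2) (nat_lit 27) (nat_lit 121) r7_27 r2_121 (nat_lit 0) (nat_lit 0) (nat_lit 0) (nat_lit 0x7ba3736d26) (nat_lit 2140866936),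
  Rx.mk (nat_lit 25) (nat_lit 1) (nat_lit 3) (nat_lit 0) (nat_lit 3) (nat_lit 32) (nat_lit 126) r7_32 r2_126 (nat_lit 0) (nat_lit 0) (nat_lit 0) (nat_lit 0x7de3209014) (nat_lit 1037067408),
  Rx.mk (nat_lit 26) (nat_lit 2) (nat_lit 3) (nat_lit 0) (nat_lit 3) (nat_lit 40) (nat_lit 132) r7_40 r2_132 (nat_lit 0) (nat_lit 0) (nat_lit 0) (nat_lit 0x7d9f1fb066) (nat_lit 1167456888),
  Rx.mk (nat_lit 64) (nat_lit 0) (nat_lit 0) (nat_lit 1) (nat_lit 4) (nat_lit 26) (nat_lit 120) r7_26 r2_120 (nat_lit 0) (nat_lit 0) (nat_lit 0) (nat_lit 0x7204dfa002) (nat_lit 6862603176),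
  Rx.mk (nat_lit 65) (nat_lit 1) (nat_lit 0) (nat_lit 1) (nat_lit 5) (nat_lit 31) (nat_lit 125) r7_31 r2_125 (nat_lit 0) (nat_lit 0) (nat_lit 0) (nat_lit 0x7d1ecd760a) (nat_lit 1413499464),
  Rx.mk (nat_lit 66) (nat_lit 2) (nat_lit 0) (nat_lit 1) (nat_lit 5) (nat_lit 36) (nat_lit 131) r7_36 r2_131 (nat_lit 0) (nat_lit 0) (nat_lit 0) (nat_lit 0x7dd31cf05e) (nat_lit 1067772888),
  Rx.mk (nat_lit 82) (nat_lit 2) (nat_lit 2) (nat_lit 1) (nat_lit 7) (nat_lit 38) (nat_lit 135) r7_38 r2_135 (nat_lit 0) (nat_lit 0) (nat_lit 0) (nat_lit 0x7de929ef78) (nat_lit 1025492832),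
  Rx.mk (nat_lit 88) (nat_lit 0) (nat_lit 3) (nat_lit 1) (nat_lit 6) (nat_lit 28) (nat_lit 122) r7_28 r2_122 (nat_lit 0) (nat_lit 0) (nat_lit 0) (nat_lit 0x7dded494d8) (nat_lit 1045306080),
  Rx.mk (nat_lit 89) (nat_lit 1) (nat_lit 3) (nat_lit 1) (nat_lit 7) (nat_lit 33) (nat_lit 127) r7_33 r2_127 (nat_lit 0) (nat_lit 0) (nat_lit 0) (nat_lit 0x7df944cdba) (nat_lit 994613256),
  Rx.mk (nat_lit 90) (nat_lit 2) (nat_lit 3) (nat_lit 1) (nat_lit 7) (nat_lit 41) (nat_lit 133) r7_41 r2_133 (nat_lit 0) (nat_lit 0) (nat_lit 0) (nat_lit 0x7dcf8c696a) (nat_lit 1074607560),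
  Rx.mk (nat_lit 146) (nat_lit 2) (nat_lit 2) (nat_lit 2) (nat_lit 7) (nat_lit 39) (nat_lit 136) r7_39 r2_136 (nat_lit 0) (nat_lit 0) (nat_lit 0) (nat_lit 0x7de105d1c2) (nat_lit 1041102504),
  Rx.mk (nat_lit 216) (nat_lit 0) (nat_lit 3) (nat_lit 3) (nat_lit 6) (nat_lit 29) (nat_lit 123) r7_29 r2_123 (nat_lit 0) (nat_lit 0) (nat_lit 0) (nat_lit 0x7dacbf765c) (nat_lit 1141334064),
  Rx.mk (nat_lit 217) (nat_lit 1) (nat_lit 3) (nat_lit 3) (nat_lit 7) (nat_lit 34) (nat_lit 128) r7_34 r2_128 (nat_lit 0) (nat_lit 0) (nat_lit 0) (nat_lit 0x7dd548ed9c) (nat_lit 1063608624),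
  Rx.mk (nat_lit 219) (nat_lit 3) (nat_lit 3) (nat_lit 3) (nat_lit 7) (nat_lit 42) (nat_lit 129) r7_42 r2_129 (nat_lit 0) (nat_lit 0) (nat_lit 0) (nat_lit 0x7dd1b1471a) (nat_lit 1070496648)]
noncomputable def e13_3 : List Rx := [
  Rx.mk (nat_lit 472) (nat_lit 0) (nat_lit 3) (nat_lit 7) (nat_lit 6) (nat_lit 43) (nat_lit 112) r7_43 r3_112 (nat_lit 0) (nat_lit 0) (nat_lit 0) (nat_lit 0x78cfd7a9b6) (nat_lit 3528310968),
  Rx.mk (nat_lit 473) (nat_lit 1) (nat_lit 3) (nat_lit 7) (nat_lit 7) (nat_lit 44) (nat_lit 113) r7_44 r3_113 (nat_lit 0) (nat_lit 0) (nat_lit 0) (nat_lit 0x7ed1aa068e) (nat_lit 579697560),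
  Rx.mk (nat_lit 475) (nat_lit 3) (nat_lit 3) (nat_lit 7) (nat_lit 7) (nat_lit 46) (nat_lit 114) r7_46 r3_114 (nat_lit 0) (nat_lit 0) (nat_lit 0) (nat_lit 0x7c243dfffc) (nat_lit 1893922992),
  Rx.mk (nat_lit 507) (nat_lit 3) (nat_lit 7) (nat_lit 7) (nat_lit 7) (nat_lit 45) (nat_lit 115) r7_45 r3_115 (nat_lit 0) (nat_lit 0) (nat_lit 0) (nat_lit 0x7c4848df2a) (nat_lit 1824815304)]
noncomputable def e13_4 : List Rx := [
  Rx.mk (nat_lit 192) (nat_lit 0) (nat_lit 0) (nat_lit 3) (nat_lit 4) (nat_lit 47) (nat_lit 114) r7_47 r4_114 (nat_lit 0) (nat_lit 0) (nat_lit 0) (nat_lit 0x754e23e874) (nat_lit 5249561616),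
  Rx.mk (nat_lit 193) (nat_lit 1) (nat_lit 0) (nat_lit 3) (nat_lit 5) (nat_lit 50) (nat_lit 117) r7_50 r4_117 (nat_lit 0) (nat_lit 0) (nat_lit 0) (nat_lit 0x7dd0edf350) (nat_lit 1071959616),
  Rx.mk (nat_lit 194) (nat_lit 2) (nat_lit 0) (nat_lit 3) (nat_lit 5) (nat_lit 53) (nat_lit 122) r7_53 r4_122 (nat_lit 0) (nat_lit 0) (nat_lit 0) (nat_lit 0x7dcf55acd6) (nat_lit 1075017528),
  Rx.mk (nat_lit 210) (nat_lit 2) (nat_lit 2) (nat_lit 3) (nat_lit 7) (nat_lit 54) (nat_lit 124) r7_54 r4_124 (nat_lit 0) (nat_lit 0) (nat_lit 0) (nat_lit 0x7dd9115112) (nat_lit 1056355560),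
  Rx.mk (nat_lit 216) (nat_lit 0) (nat_lit 3) (nat_lit 3) (nat_lit 6) (nat_lit 49) (nat_lit 115) r7_49 r4_115 (nat_lit 0) (nat_lit 0) (nat_lit 0) (nat_lit 0x7e2a789a4c) (nat_lit 900272880),
  Rx.mk (nat_lit 217) (nat_lit 1) (nat_lit 3) (nat_lit 3) (nat_lit 7) (nat_lit 52) (nat_lit 118) r7_52 r4_118 (nat_lit 0) (nat_lit 0) (nat_lit 0) (nat_lit 0x7e35a4078a) (nat_lit 878856264),
  Rx.mk (nat_lit 218) (nat_lit 2) (nat_lit 3) (nat_lit 3) (nat_lit 7) (nat_lit 55) (nat_lit 123) r7_55 r4_123 (nat_lit 0) (nat_lit 0) (nat_lit 0) (nat_lit 0x7e28211fc6) (nat_lit 904762872),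
  Rx.mk (nat_lit 472) (nat_lit 0) (nat_lit 3) (nat_lit 7) (nat_lit 6) (nat_lit 48) (nat_lit 116) r7_48 r4_116 (nat_lit 0) (nat_lit 0) (nat_lit 0) (nat_lit 0x7da8e3f418) (nat_lit 1148730336),
  Rx.mk (nat_lit 473) (nat_lit 1) (nat_lit 3) (nat_lit 7) (nat_lit 7) (nat_lit 51) (nat_lit 119) r7_51 r4_119 (nat_lit 0) (nat_lit 0) (nat_lit 0) (nat_lit 0x7ddfec435c) (nat_lit 1043211312),
  Rx.mk (nat_lit 475) (nat_lit 3) (nat_lit 3) (nat_lit 7) (nat_lit 7) (nat_lit 57) (nat_lit 120) r7_57 r4_120 (nat_lit 0) (nat_lit 0) (nat_lit 0) (nat_lit 0x7de493b8e0) (nat_lit 1034287488),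
  Rx.mk (nat_lit 507) (nat_lit 3) (nat_lit 7) (nat_lit 7) (nat_lit 7) (nat_lit 56) (nat_lit 121) r7_56 r4_121 (nat_lit 0) (nat_lit 0) (nat_lit 0) (nat_lit 0x7df910b0fc) (nat_lit 995003568)]
noncomputable def e13_5 : List Rx := [
  Rx.mk (nat_lit 321) (nat_lit 1) (nat_lit 0) (nat_lit 5) (nat_lit 5) (nat_lit 61) (nat_lit 168) r7_61 r3_168 (nat_lit 0) (nat_lit 0) (nat_lit 0) (nat_lit 0x75b85a24a6) (nat_lit 5045911416),
  Rx.mk (nat_lit 345) (nat_lit 1) (nat_lit 3) (nat_lit 5) (nat_lit 7) (nat_lit 62) (nat_lit 169) r7_62 r3_169 (nat_lit 0) (nat_lit 0) (nat_lit 0) (nat_lit 0x7f3a485c40) (nat_lit 379102464)]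
noncomputable def e13_6 : List Rx := [
  Rx.mk (nat_lit 65) (nat_lit 1) (nat_lit 0) (nat_lit 1) (nat_lit 5) (nat_lit 64) (nat_lit 186) r7_64 r0_186 (nat_lit 0) (nat_lit 0) (nat_lit 0) (nat_lit 0x7db1ff225c) (nat_lit 1131270192),
  Rx.mk (nat_lit 89) (nat_lit 1) (nat_lit 3) (nat_lit 1) (nat_lit 7) (nat_lit 65) (nat_lit 187) r7_65 r0_187 (nat_lit 0) (nat_lit 0) (nat_lit 0) (nat_lit 0x7dec1700a4) (nat_lit 1019882448),
  Rx.mk (nat_lit 321) (nat_lit 1) (nat_lit 0) (nat_lit 5) (nat_lit 5) (nat_lit 63) (nat_lit 185) r7_63 r0_185 (nat_lit 0) (nat_lit 0) (nat_lit 0) (nat_lit 0x7e2fea232e) (nat_lit 889835544)]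
noncomputable def e13_7 : List Rx := [
  Rx.mk (nat_lit 65) (nat_lit 1) (nat_lit 0) (nat_lit 1) (nat_lit 5) (nat_lit 66) (nat_lit 199) r7_66 r1_199 (nat_lit 0) (nat_lit 0) (nat_lit 0) (nat_lit 0x7d80f19366) (nat_lit 1225324152),
  Rx.mk (nat_lit 89) (nat_lit 1) (nat_lit 3) (nat_lit 1) (nat_lit 7) (nat_lit 67) (nat_lit 200) r7_67 r1_200 (nat_lit 0) (nat_lit 0) (nat_lit 0) (nat_lit 0x7df471daee) (nat_lit 1003862808)]
noncomputable def e13_8 : List Rx := [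
  Rx.mk (nat_lit 89) (nat_lit 1) (nat_lit 3) (nat_lit 1) (nat_lit 7) (nat_lit 70) (nat_lit 176) r7_70 r4_176 (nat_lit 0) (nat_lit 0) (nat_lit 0) (nat_lit 0x7ddc8799aa) (nat_lit 1049717448),
  Rx.mk (nat_lit 321) (nat_lit 1) (nat_lit 0) (nat_lit 5) (nat_lit 5) (nat_lit 68) (nat_lit 174) r7_68 r4_174 (nat_lit 0) (nat_lit 0) (nat_lit 0) (nat_lit 0x7d8ece758a) (nat_lit 1198743624),
  Rx.mk (nat_lit 345) (nat_lit 1) (nat_lit 3) (nat_lit 5) (nat_lit 7) (nat_lit 69) (nat_lit 175) r7_69 r4_175 (nat_lit 0) (nat_lit 0) (nat_lit 0) (nat_lit 0x7e35a76754) (nat_lit 878830992)]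
noncomputable def e13_9 : List Rx := [
  Rx.mk (nat_lit 281) (nat_lit 1) (nat_lit 3) (nat_lit 4) (nat_lit 3) (nat_lit 71) (nat_lit 119) r7_71 r5_119 (nat_lit 0) (nat_lit 0) (nat_lit 0) (nat_lit 0x7e43268f54) (nat_lit 852952464),
  Rx.mk (nat_lit 345) (nat_lit 1) (nat_lit 3) (nat_lit 5) (nat_lit 7) (nat_lit 72) (nat_lit 120) r7_72 r5_120 (nat_lit 0) (nat_lit 0) (nat_lit 0) (nat_lit 0x7df5604c06) (nat_lit 1002076920),
  Rx.mk (nat_lit 473) (nat_lit 1) (nat_lit 3) (nat_lit 7) (nat_lit 7) (nat_lit 73) (nat_lit 121) r7_73 r5_121 (nat_lit 0) (nat_lit 0) (nat_lit 0) (nat_lit 0x7dbca6f7d4) (nat_lit 1110839184)]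
noncomputable def e13_10 : List Rx := [
  Rx.mk (nat_lit 475) (nat_lit 3) (nat_lit 3) (nat_lit 7) (nat_lit 7) (nat_lit 77) (nat_lit 140) r7_77 r0_140 (nat_lit 0) (nat_lit 0) (nat_lit 0) (nat_lit 0x7dbbc6c5d8) (nat_lit 1112518368),
  Rx.mk (nat_lit 507) (nat_lit 3) (nat_lit 7) (nat_lit 7) (nat_lit 7) (nat_lit 76) (nat_lit 139) r7_76 r0_139 (nat_lit 0) (nat_lit 0) (nat_lit 0) (nat_lit 0x7dbbc6c5d8) (nat_lit 1112518368)]
noncomputable def e13_11 : List Rx := [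
  Rx.mk (nat_lit 0) (nat_lit 0) (nat_lit 0) (nat_lit 0) (nat_lit 0) (nat_lit 78) (nat_lit 136) r7_78 r6_136 (nat_lit 0) (nat_lit 0) (nat_lit 0) (nat_lit 0x1522d75d6e) (nat_lit 52454509848),
  Rx.mk (nat_lit 2) (nat_lit 2) (nat_lit 0) (nat_lit 0) (nat_lit 1) (nat_lit 81) (nat_lit 142) r7_81 r6_142 (nat_lit 0) (nat_lit 0) (nat_lit 0) (nat_lit 0x5f26a1d6be) (nat_lit 16124089176),
  Rx.mk (nat_lit 18) (nat_lit 2) (nat_lit 2) (nat_lit 0) (nat_lit 3) (nat_lit 83) (nat_lit 145) r7_83 r6_145 (nat_lit 0) (nat_lit 0) (nat_lit 0) (nat_lit 0x7cf5e524b8) (nat_lit 1491935328),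
  Rx.mk (nat_lit 146) (nat_lit 2) (nat_lit 2) (nat_lit 2) (nat_lit 7) (nat_lit 84) (nat_lit 147) r7_84 r6_147 (nat_lit 0) (nat_lit 0) (nat_lit 0) (nat_lit 0x7daf4b6d9a) (nat_lit 1136450952),
  Rx.mk (nat_lit 192) (nat_lit 0) (nat_lit 0) (nat_lit 3) (nat_lit 4) (nat_lit 79) (nat_lit 137) r7_79 r6_137 (nat_lit 0) (nat_lit 0) (nat_lit 0) (nat_lit 0x4c4a1c91f0) (nat_lit 25382275776),
  Rx.mk (nat_lit 194) (nat_lit 2) (nat_lit 0) (nat_lit 3) (nat_lit 5) (nat_lit 82) (nat_lit 143) r7_82 r6_143 (nat_lit 0) (nat_lit 0) (nat_lit 0) (nat_lit 0x7d7099f8f0) (nat_lit 1256658624),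
  Rx.mk (nat_lit 210) (nat_lit 2) (nat_lit 2) (nat_lit 3) (nat_lit 7) (nat_lit 85) (nat_lit 146) r7_85 r6_146 (nat_lit 0) (nat_lit 0) (nat_lit 0) (nat_lit 0x7de9a4e7c8) (nat_lit 1024571808),
  Rx.mk (nat_lit 216) (nat_lit 0) (nat_lit 3) (nat_lit 3) (nat_lit 6) (nat_lit 80) (nat_lit 138) r7_80 r6_138 (nat_lit 0) (nat_lit 0) (nat_lit 0) (nat_lit 0x7cc30772c6) (nat_lit 1589465592),
  Rx.mk (nat_lit 218) (nat_lit 2) (nat_lit 3) (nat_lit 3) (nat_lit 7) (nat_lit 86) (nat_lit 144) r7_86 r6_144 (nat_lit 0) (nat_lit 0) (nat_lit 0) (nat_lit 0x7da9f1833e) (nat_lit 1146711384),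
  Rx.mk (nat_lit 219) (nat_lit 3) (nat_lit 3) (nat_lit 3) (nat_lit 7) (nat_lit 89) (nat_lit 139) r7_89 r6_139 (nat_lit 0) (nat_lit 0) (nat_lit 0) (nat_lit 0x7d97b946d4) (nat_lit 1181645712),
  Rx.mk (nat_lit 475) (nat_lit 3) (nat_lit 3) (nat_lit 7) (nat_lit 7) (nat_lit 88) (nat_lit 140) r7_88 r6_140 (nat_lit 0) (nat_lit 0) (nat_lit 0) (nat_lit 0x7de5d2c4ee) (nat_lit 1031897880),
  Rx.mk (nat_lit 507) (nat_lit 3) (nat_lit 7) (nat_lit 7) (nat_lit 7) (nat_lit 87) (nat_lit 141) r7_87 r6_141 (nat_lit 0) (nat_lit 0) (nat_lit 0) (nat_lit 0x7df4627be4) (nat_lit 1003977936)]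
noncomputable def e13_12 : List Rx := [
  Rx.mk (nat_lit 292) (nat_lit 4) (nat_lit 4) (nat_lit 4) (nat_lit 0) (nat_lit 90) (nat_lit 141) r7_90 r1_141 (nat_lit 0) (nat_lit 0) (nat_lit 0) (nat_lit 0x3f2c1ddefa) (nat_lit 31820882184),
  Rx.mk (nat_lit 295) (nat_lit 7) (nat_lit 4) (nat_lit 4) (nat_lit 1) (nat_lit 94) (nat_lit 142) r7_94 r1_142 (nat_lit 0) (nat_lit 0) (nat_lit 0) (nat_lit 0x60f77387d2) (nat_lit 15232846824),
  Rx.mk (nat_lit 319) (nat_lit 7) (nat_lit 7) (nat_lit 4) (nat_lit 3) (nat_lit 97) (nat_lit 143) r7_97 r1_143 (nat_lit 0) (nat_lit 0) (nat_lit 0) (nat_lit 0x79f20f451a) (nat_lit 2971849608),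
  Rx.mk (nat_lit 420) (nat_lit 4) (nat_lit 4) (nat_lit 6) (nat_lit 4) (nat_lit 91) (nat_lit 147) r7_91 r1_147 (nat_lit 0) (nat_lit 0) (nat_lit 0) (nat_lit 0x6698457512) (nat_lit 12470224104),
  Rx.mk (nat_lit 423) (nat_lit 7) (nat_lit 4) (nat_lit 6) (nat_lit 5) (nat_lit 95) (nat_lit 148) r7_95 r1_148 (nat_lit 0) (nat_lit 0) (nat_lit 0) (nat_lit 0x7d04f5d39e) (nat_lit 1463049432),
  Rx.mk (nat_lit 436) (nat_lit 4) (nat_lit 6) (nat_lit 6) (nat_lit 6) (nat_lit 92) (nat_lit 150) r7_92 r1_150 (nat_lit 0) (nat_lit 0) (nat_lit 0) (nat_lit 0x6657bb3df6) (nat_lit 12593972664),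
  Rx.mk (nat_lit 438) (nat_lit 6) (nat_lit 6) (nat_lit 6) (nat_lit 7) (nat_lit 93) (nat_lit 152) r7_93 r1_152 (nat_lit 0) (nat_lit 0) (nat_lit 0) (nat_lit 0x7cef2530be) (nat_lit 1504877400),
  Rx.mk (nat_lit 439) (nat_lit 7) (nat_lit 6) (nat_lit 6) (nat_lit 7) (nat_lit 96) (nat_lit 151) r7_96 r1_151 (nat_lit 0) (nat_lit 0) (nat_lit 0) (nat_lit 0x7d83c7c600) (nat_lit 1219885056),
  Rx.mk (nat_lit 447) (nat_lit 7) (nat_lit 7) (nat_lit 6) (nat_lit 7) (nat_lit 98) (nat_lit 149) r7_98 r1_149 (nat_lit 0) (nat_lit 0) (nat_lit 0) (nat_lit 0x7df4f572b4) (nat_lit 1002877200),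
  Rx.mk (nat_lit 475) (nat_lit 3) (nat_lit 3) (nat_lit 7) (nat_lit 7) (nat_lit 101) (nat_lit 146) r7_101 r1_146 (nat_lit 0) (nat_lit 0) (nat_lit 0) (nat_lit 0x7db6f07342) (nat_lit 1121793192),
  Rx.mk (nat_lit 507) (nat_lit 3) (nat_lit 7) (nat_lit 7) (nat_lit 7) (nat_lit 100) (nat_lit 145) r7_100 r1_145 (nat_lit 0) (nat_lit 0) (nat_lit 0) (nat_lit 0x7dec661bb2) (nat_lit 1019289960),
  Rx.mk (nat_lit 511) (nat_lit 7) (nat_lit 7) (nat_lit 7) (nat_lit 7) (nat_lit 99) (nat_lit 144) r7_99 r1_144 (nat_lit 0) (nat_lit 0) (nat_lit 0) (nat_lit 0x7dd6fab27e) (nat_lit 1060359768)]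
noncomputable def e13_13 : List Rx := [
  Rx.mk (nat_lit 0) (nat_lit 0) (nat_lit 0) (nat_lit 0) (nat_lit 0) (nat_lit 114) (nat_lit 102) r7_114 r7_102 (nat_lit 0) (nat_lit 0) (nat_lit 0) (nat_lit 0x37e5b76ca8) (nat_lit 35391841056),
  Rx.mk (nat_lit 2) (nat_lit 2) (nat_lit 0) (nat_lit 0) (nat_lit 1) (nat_lit 117) (nat_lit 108) r7_117 r7_108 (nat_lit 0) (nat_lit 0) (nat_lit 0) (nat_lit 0x5ed3604b2a) (nat_lit 16283723976),
  Rx.mk (nat_lit 18) (nat_lit 2) (nat_lit 2) (nat_lit 0) (nat_lit 3) (nat_lit 119) (nat_lit 111) r7_119 r7_111 (nat_lit 0) (nat_lit 0) (nat_lit 0) (nat_lit 0x7b14dd3718) (nat_lit 2414262240),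
  Rx.mk (nat_lit 146) (nat_lit 2) (nat_lit 2) (nat_lit 2) (nat_lit 7) (nat_lit 120) (nat_lit 113) r7_120 r7_113 (nat_lit 0) (nat_lit 0) (nat_lit 0) (nat_lit 0x7da43f1e6a) (nat_lit 1157634504),
  Rx.mk (nat_lit 150) (nat_lit 6) (nat_lit 2) (nat_lit 2) (nat_lit 7) (nat_lit 107) (nat_lit 123) r7_107 r7_123 (nat_lit 0) (nat_lit 0) (nat_lit 0) (nat_lit 0x7d7c97b908) (nat_lit 1233666720),
  Rx.mk (nat_lit 182) (nat_lit 6) (nat_lit 6) (nat_lit 2) (nat_lit 7) (nat_lit 106) (nat_lit 124) r7_106 r7_124 (nat_lit 0) (nat_lit 0) (nat_lit 0) (nat_lit 0x7de62b9f60) (nat_lit 1031232384),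
  Rx.mk (nat_lit 192) (nat_lit 0) (nat_lit 0) (nat_lit 3) (nat_lit 4) (nat_lit 115) (nat_lit 103) r7_115 r7_103 (nat_lit 0) (nat_lit 0) (nat_lit 0) (nat_lit 0x4cd945bece) (nat_lit 25107779736),
  Rx.mk (nat_lit 194) (nat_lit 2) (nat_lit 0) (nat_lit 3) (nat_lit 5) (nat_lit 118) (nat_lit 109) r7_118 r7_109 (nat_lit 0) (nat_lit 0) (nat_lit 0) (nat_lit 0x7cd4dc5566) (nat_lit 1555275384),
  Rx.mk (nat_lit 210) (nat_lit 2) (nat_lit 2) (nat_lit 3) (nat_lit 7) (nat_lit 121) (nat_lit 112) r7_121 r7_112 (nat_lit 0) (nat_lit 0) (nat_lit 0) (nat_lit 0x7de25d3c4a) (nat_lit 1038530376),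
  Rx.mk (nat_lit 216) (nat_lit 0) (nat_lit 3) (nat_lit 3) (nat_lit 6) (nat_lit 116) (nat_lit 104) r7_116 r7_104 (nat_lit 0) (nat_lit 0) (nat_lit 0) (nat_lit 0x768ec17d5a) (nat_lit 4634814600),
  Rx.mk (nat_lit 218) (nat_lit 2) (nat_lit 3) (nat_lit 3) (nat_lit 7) (nat_lit 122) (nat_lit 110) r7_122 r7_110 (nat_lit 0) (nat_lit 0) (nat_lit 0) (nat_lit 0x7df5730ada) (nat_lit 1001936520),
  Rx.mk (nat_lit 219) (nat_lit 3) (nat_lit 3) (nat_lit 3) (nat_lit 7) (nat_lit 125) (nat_lit 105) r7_125 r7_105 (nat_lit 0) (nat_lit 0) (nat_lit 0) (nat_lit 0x7d9bc765ee) (nat_lit 1173870360),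
  Rx.mk (nat_lit 292) (nat_lit 4) (nat_lit 4) (nat_lit 4) (nat_lit 0) (nat_lit 102) (nat_lit 114) r7_102 r7_114 (nat_lit 0) (nat_lit 0) (nat_lit 0) (nat_lit 0x37e5b76ca8) (nat_lit 35391841056),
  Rx.mk (nat_lit 295) (nat_lit 7) (nat_lit 4) (nat_lit 4) (nat_lit 1) (nat_lit 108) (nat_lit 117) r7_108 r7_117 (nat_lit 0) (nat_lit 0) (nat_lit 0) (nat_lit 0x5ed3604b2a) (nat_lit 16283723976),
  Rx.mk (nat_lit 319) (nat_lit 7) (nat_lit 7) (nat_lit 4) (nat_lit 3) (nat_lit 111) (nat_lit 119) r7_111 r7_119 (nat_lit 0) (nat_lit 0) (nat_lit 0) (nat_lit 0x7b14dd3718) (nat_lit 2414262240),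
  Rx.mk (nat_lit 420) (nat_lit 4) (nat_lit 4) (nat_lit 6) (nat_lit 4) (nat_lit 103) (nat_lit 115) r7_103 r7_115 (nat_lit 0) (nat_lit 0) (nat_lit 0) (nat_lit 0x4cd945bece) (nat_lit 25107779736),
  Rx.mk (nat_lit 423) (nat_lit 7) (nat_lit 4) (nat_lit 6) (nat_lit 5) (nat_lit 109) (nat_lit 118) r7_109 r7_118 (nat_lit 0) (nat_lit 0) (nat_lit 0) (nat_lit 0x7cd4dc5566) (nat_lit 1555275384),
  Rx.mk (nat_lit 436) (nat_lit 4) (nat_lit 6) (nat_lit 6) (nat_lit 6) (nat_lit 104) (nat_lit 116) r7_104 r7_116 (nat_lit 0) (nat_lit 0) (nat_lit 0) (nat_lit 0x768ec17d5a) (nat_lit 4634814600),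
  Rx.mk (nat_lit 438) (nat_lit 6) (nat_lit 6) (nat_lit 6) (nat_lit 7) (nat_lit 105) (nat_lit 125) r7_105 r7_125 (nat_lit 0) (nat_lit 0) (nat_lit 0) (nat_lit 0x7d9bc765ee) (nat_lit 1173870360),
  Rx.mk (nat_lit 439) (nat_lit 7) (nat_lit 6) (nat_lit 6) (nat_lit 7) (nat_lit 110) (nat_lit 122) r7_110 r7_122 (nat_lit 0) (nat_lit 0) (nat_lit 0) (nat_lit 0x7df5730ada) (nat_lit 1001936520),
  Rx.mk (nat_lit 447) (nat_lit 7) (nat_lit 7) (nat_lit 6) (nat_lit 7) (nat_lit 112) (nat_lit 121) r7_112 r7_121 (nat_lit 0) (nat_lit 0) (nat_lit 0) (nat_lit 0x7de25d3c4a) (nat_lit 1038530376),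
  Rx.mk (nat_lit 475) (nat_lit 3) (nat_lit 3) (nat_lit 7) (nat_lit 7) (nat_lit 124) (nat_lit 106) r7_124 r7_106 (nat_lit 0) (nat_lit 0) (nat_lit 0) (nat_lit 0x7de62b9f60) (nat_lit 1031232384),
  Rx.mk (nat_lit 507) (nat_lit 3) (nat_lit 7) (nat_lit 7) (nat_lit 7) (nat_lit 123) (nat_lit 107) r7_123 r7_107 (nat_lit 0) (nat_lit 0) (nat_lit 0) (nat_lit 0x7d7c97b908) (nat_lit 1233666720),
  Rx.mk (nat_lit 511) (nat_lit 7) (nat_lit 7) (nat_lit 7) (nat_lit 7) (nat_lit 113) (nat_lit 120) r7_113 r7_120 (nat_lit 0) (nat_lit 0) (nat_lit 0) (nat_lit 0x7da43f1e6a) (nat_lit 1157634504)]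
noncomputable def e13_14 : List Rx := [
  Rx.mk (nat_lit 0) (nat_lit 0) (nat_lit 0) (nat_lit 0) (nat_lit 0) (nat_lit 126) (nat_lit 126) r7_126 r7_126 (nat_lit 0) (nat_lit 0) (nat_lit 0) (nat_lit 0x57c45ec252) (nat_lit 19748470248),
  Rx.mk (nat_lit 2) (nat_lit 2) (nat_lit 0) (nat_lit 0) (nat_lit 1) (nat_lit 129) (nat_lit 127) r7_129 r7_127 (nat_lit 0) (nat_lit 0) (nat_lit 0) (nat_lit 0x62d0065ccc) (nat_lit 14326736112),
  Rx.mk (nat_lit 18) (nat_lit 2) (nat_lit 2) (nat_lit 0) (nat_lit 3) (nat_lit 130) (nat_lit 128) r7_130 r7_128 (nat_lit 0) (nat_lit 0) (nat_lit 0) (nat_lit 0x7d8535af20) (nat_lit 1217144448),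
  Rx.mk (nat_lit 146) (nat_lit 2) (nat_lit 2) (nat_lit 2) (nat_lit 7) (nat_lit 131) (nat_lit 132) r7_131 r7_132 (nat_lit 0) (nat_lit 0) (nat_lit 0) (nat_lit 0x7dc303320a) (nat_lit 1098644040),
  Rx.mk (nat_lit 192) (nat_lit 0) (nat_lit 0) (nat_lit 3) (nat_lit 4) (nat_lit 127) (nat_lit 129) r7_127 r7_129 (nat_lit 0) (nat_lit 0) (nat_lit 0) (nat_lit 0x62d0065ccc) (nat_lit 14326736112),
  Rx.mk (nat_lit 216) (nat_lit 0) (nat_lit 3) (nat_lit 3) (nat_lit 6) (nat_lit 128) (nat_lit 130) r7_128 r7_130 (nat_lit 0) (nat_lit 0) (nat_lit 0) (nat_lit 0x7d8535af20) (nat_lit 1217144448),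
  Rx.mk (nat_lit 219) (nat_lit 3) (nat_lit 3) (nat_lit 3) (nat_lit 7) (nat_lit 132) (nat_lit 131) r7_132 r7_131 (nat_lit 0) (nat_lit 0) (nat_lit 0) (nat_lit 0x7dc303320a) (nat_lit 1098644040)]
noncomputable def e13_15 : List Rx := [
  Rx.mk (nat_lit 0) (nat_lit 0) (nat_lit 0) (nat_lit 0) (nat_lit 0) (nat_lit 133) (nat_lit 86) r7_133 r8_86 (nat_lit 0) (nat_lit 0) (nat_lit 0) (nat_lit 0x4dd0ff623c) (nat_lit 24632792496),
  Rx.mk (nat_lit 2) (nat_lit 2) (nat_lit 0) (nat_lit 0) (nat_lit 1) (nat_lit 138) (nat_lit 92) r7_138 r8_92 (nat_lit 0) (nat_lit 0) (nat_lit 0) (nat_lit 0x72540acd00) (nat_lit 6710805504),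
  Rx.mk (nat_lit 18) (nat_lit 2) (nat_lit 2) (nat_lit 0) (nat_lit 3) (nat_lit 140) (nat_lit 96) r7_140 r8_96 (nat_lit 0) (nat_lit 0) (nat_lit 0) (nat_lit 0x7da6639c20) (nat_lit 1153526400),
  Rx.mk (nat_lit 24) (nat_lit 0) (nat_lit 3) (nat_lit 0) (nat_lit 2) (nat_lit 135) (nat_lit 88) r7_135 r8_88 (nat_lit 0) (nat_lit 0) (nat_lit 0) (nat_lit 0x79a02d0390) (nat_lit 3128853312),
  Rx.mk (nat_lit 26) (nat_lit 2) (nat_lit 3) (nat_lit 0) (nat_lit 3) (nat_lit 143) (nat_lit 94) r7_143 r8_94 (nat_lit 0) (nat_lit 0) (nat_lit 0) (nat_lit 0x7de5f8a290) (nat_lit 1031614272),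
  Rx.mk (nat_lit 64) (nat_lit 0) (nat_lit 0) (nat_lit 1) (nat_lit 4) (nat_lit 134) (nat_lit 87) r7_134 r8_87 (nat_lit 0) (nat_lit 0) (nat_lit 0) (nat_lit 0x726c30aa8a) (nat_lit 6664504392),
  Rx.mk (nat_lit 66) (nat_lit 2) (nat_lit 0) (nat_lit 1) (nat_lit 5) (nat_lit 139) (nat_lit 93) r7_139 r8_93 (nat_lit 0) (nat_lit 0) (nat_lit 0) (nat_lit 0x7defee632a) (nat_lit 1012517064),
  Rx.mk (nat_lit 82) (nat_lit 2) (nat_lit 2) (nat_lit 1) (nat_lit 7) (nat_lit 141) (nat_lit 97) r7_141 r8_97 (nat_lit 0) (nat_lit 0) (nat_lit 0) (nat_lit 0x7dee723aee) (nat_lit 1015364376),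
  Rx.mk (nat_lit 88) (nat_lit 0) (nat_lit 3) (nat_lit 1) (nat_lit 6) (nat_lit 136) (nat_lit 89) r7_136 r8_89 (nat_lit 0) (nat_lit 0) (nat_lit 0) (nat_lit 0x7dcb1d3062) (nat_lit 1083110184),
  Rx.mk (nat_lit 90) (nat_lit 2) (nat_lit 3) (nat_lit 1) (nat_lit 7) (nat_lit 144) (nat_lit 95) r7_144 r8_95 (nat_lit 0) (nat_lit 0) (nat_lit 0) (nat_lit 0x7dd143cdf2) (nat_lit 1071316584),
  Rx.mk (nat_lit 146) (nat_lit 2) (nat_lit 2) (nat_lit 2) (nat_lit 7) (nat_lit 142) (nat_lit 98) r7_142 r8_98 (nat_lit 0) (nat_lit 0) (nat_lit 0) (nat_lit 0x7db8202046) (nat_lit 1119518712),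
  Rx.mk (nat_lit 216) (nat_lit 0) (nat_lit 3) (nat_lit 3) (nat_lit 6) (nat_lit 137) (nat_lit 90) r7_137 r8_90 (nat_lit 0) (nat_lit 0) (nat_lit 0) (nat_lit 0x7dc9350ee6) (nat_lit 1086766200),
  Rx.mk (nat_lit 219) (nat_lit 3) (nat_lit 3) (nat_lit 3) (nat_lit 7) (nat_lit 145) (nat_lit 91) r7_145 r8_91 (nat_lit 0) (nat_lit 0) (nat_lit 0) (nat_lit 0x7df0bff610) (nat_lit 1010947392)]
noncomputable def e13_16 : List Rx := [
  Rx.mk (nat_lit 472) (nat_lit 0) (nat_lit 3) (nat_lit 7) (nat_lit 6) (nat_lit 146) (nat_lit 126) r7_146 r4_126 (nat_lit 0) (nat_lit 0) (nat_lit 0) (nat_lit 0x7dc32eaf52) (nat_lit 1098318312),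
  Rx.mk (nat_lit 475) (nat_lit 3) (nat_lit 3) (nat_lit 7) (nat_lit 7) (nat_lit 148) (nat_lit 127) r7_148 r4_127 (nat_lit 0) (nat_lit 0) (nat_lit 0) (nat_lit 0x7dedaca748) (nat_lit 1016844192),
  Rx.mk (nat_lit 507) (nat_lit 3) (nat_lit 7) (nat_lit 7) (nat_lit 7) (nat_lit 147) (nat_lit 125) r7_147 r4_125 (nat_lit 0) (nat_lit 0) (nat_lit 0) (nat_lit 0x7dca705b30) (nat_lit 1084404672)]
noncomputable def e13_17 : List Rx := [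
  Rx.mk (nat_lit 192) (nat_lit 0) (nat_lit 0) (nat_lit 3) (nat_lit 4) (nat_lit 149) (nat_lit 101) r7_149 r9_101 (nat_lit 0) (nat_lit 0) (nat_lit 0) (nat_lit 0x697a4a51e2) (nat_lit 11055149352),
  Rx.mk (nat_lit 194) (nat_lit 2) (nat_lit 0) (nat_lit 3) (nat_lit 5) (nat_lit 152) (nat_lit 106) r7_152 r9_106 (nat_lit 0) (nat_lit 0) (nat_lit 0) (nat_lit 0x7d98e3b42c) (nat_lit 1179410544),
  Rx.mk (nat_lit 210) (nat_lit 2) (nat_lit 2) (nat_lit 3) (nat_lit 7) (nat_lit 153) (nat_lit 108) r7_153 r9_108 (nat_lit 0) (nat_lit 0) (nat_lit 0) (nat_lit 0x7dddb20702) (nat_lit 1047482280),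
  Rx.mk (nat_lit 216) (nat_lit 0) (nat_lit 3) (nat_lit 3) (nat_lit 6) (nat_lit 151) (nat_lit 102) r7_151 r9_102 (nat_lit 0) (nat_lit 0) (nat_lit 0) (nat_lit 0x7d71a7281c) (nat_lit 1254642480),
  Rx.mk (nat_lit 218) (nat_lit 2) (nat_lit 3) (nat_lit 3) (nat_lit 7) (nat_lit 154) (nat_lit 107) r7_154 r9_107 (nat_lit 0) (nat_lit 0) (nat_lit 0) (nat_lit 0x7df9b7868e) (nat_lit 993754008),
  Rx.mk (nat_lit 472) (nat_lit 0) (nat_lit 3) (nat_lit 7) (nat_lit 6) (nat_lit 150) (nat_lit 103) r7_150 r9_103 (nat_lit 0) (nat_lit 0) (nat_lit 0) (nat_lit 0x7df79428c6) (nat_lit 997853688),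
  Rx.mk (nat_lit 475) (nat_lit 3) (nat_lit 3) (nat_lit 7) (nat_lit 7) (nat_lit 156) (nat_lit 104) r7_156 r9_104 (nat_lit 0) (nat_lit 0) (nat_lit 0) (nat_lit 0x7dc2cfd540) (nat_lit 1099028736),
  Rx.mk (nat_lit 507) (nat_lit 3) (nat_lit 7) (nat_lit 7) (nat_lit 7) (nat_lit 155) (nat_lit 105) r7_155 r9_105 (nat_lit 0) (nat_lit 0) (nat_lit 0) (nat_lit 0x7dcddbc476) (nat_lit 1077847992)]
noncomputable def e13_18 : List Rx := [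
  Rx.mk (nat_lit 472) (nat_lit 0) (nat_lit 3) (nat_lit 7) (nat_lit 6) (nat_lit 157) (nat_lit 113) r7_157 r10_113 (nat_lit 0) (nat_lit 0) (nat_lit 0) (nat_lit 0x7dd4373eb8) (nat_lit 1065658464),
  Rx.mk (nat_lit 475) (nat_lit 3) (nat_lit 3) (nat_lit 7) (nat_lit 7) (nat_lit 158) (nat_lit 114) r7_158 r10_114 (nat_lit 0) (nat_lit 0) (nat_lit 0) (nat_lit 0x7deba267ee) (nat_lit 1020755736)]
noncomputable def e13_19 : List Rx := [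
  Rx.mk (nat_lit 0) (nat_lit 0) (nat_lit 0) (nat_lit 0) (nat_lit 0) (nat_lit 159) (nat_lit 183) r7_159 r8_183 (nat_lit 0) (nat_lit 0) (nat_lit 0) (nat_lit 0xf50b40576) (nat_lit 55311694776),
  Rx.mk (nat_lit 1) (nat_lit 1) (nat_lit 0) (nat_lit 0) (nat_lit 1) (nat_lit 165) (nat_lit 185) r7_165 r8_185 (nat_lit 0) (nat_lit 0) (nat_lit 0) (nat_lit 0x5ded7eea26) (nat_lit 16724495736),
  Rx.mk (nat_lit 2) (nat_lit 2) (nat_lit 0) (nat_lit 0) (nat_lit 1) (nat_lit 171) (nat_lit 187) r7_171 r8_187 (nat_lit 0) (nat_lit 0) (nat_lit 0) (nat_lit 0x6bc7e5f5da) (nat_lit 9924637320),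
  Rx.mk (nat_lit 18) (nat_lit 2) (nat_lit 2) (nat_lit 0) (nat_lit 3) (nat_lit 174) (nat_lit 199) r7_174 r8_199 (nat_lit 0) (nat_lit 0) (nat_lit 0) (nat_lit 0x7dcf674bbc) (nat_lit 1074885552),
  Rx.mk (nat_lit 24) (nat_lit 0) (nat_lit 3) (nat_lit 0) (nat_lit 2) (nat_lit 162) (nat_lit 192) r7_162 r8_192 (nat_lit 0) (nat_lit 0) (nat_lit 0) (nat_lit 0x69ea215402) (nat_lit 10840708008),
  Rx.mk (nat_lit 25) (nat_lit 1) (nat_lit 3) (nat_lit 0) (nat_lit 3) (nat_lit 168) (nat_lit 195) r7_168 r8_195 (nat_lit 0) (nat_lit 0) (nat_lit 0) (nat_lit 0x7dc8110128) (nat_lit 1088953632),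
  Rx.mk (nat_lit 64) (nat_lit 0) (nat_lit 0) (nat_lit 1) (nat_lit 4) (nat_lit 160) (nat_lit 184) r7_160 r8_184 (nat_lit 0) (nat_lit 0) (nat_lit 0) (nat_lit 0x6e6da8770c) (nat_lit 8625103344),
  Rx.mk (nat_lit 65) (nat_lit 1) (nat_lit 0) (nat_lit 1) (nat_lit 5) (nat_lit 166) (nat_lit 186) r7_166 r8_186 (nat_lit 0) (nat_lit 0) (nat_lit 0) (nat_lit 0x7c45bbc7fe) (nat_lit 1829706840),
  Rx.mk (nat_lit 66) (nat_lit 2) (nat_lit 0) (nat_lit 1) (nat_lit 5) (nat_lit 172) (nat_lit 188) r7_172 r8_188 (nat_lit 0) (nat_lit 0) (nat_lit 0) (nat_lit 0x7d82afb782) (nat_lit 1221982632),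
  Rx.mk (nat_lit 72) (nat_lit 0) (nat_lit 1) (nat_lit 1) (nat_lit 6) (nat_lit 161) (nat_lit 189) r7_161 r8_189 (nat_lit 0) (nat_lit 0) (nat_lit 0) (nat_lit 0x7d74577d14) (nat_lit 1249486992),
  Rx.mk (nat_lit 73) (nat_lit 1) (nat_lit 1) (nat_lit 1) (nat_lit 7) (nat_lit 167) (nat_lit 190) r7_167 r8_190 (nat_lit 0) (nat_lit 0) (nat_lit 0) (nat_lit 0x7db6535d14) (nat_lit 1122969744),
  Rx.mk (nat_lit 74) (nat_lit 2) (nat_lit 1) (nat_lit 1) (nat_lit 7) (nat_lit 173) (nat_lit 191) r7_173 r8_191 (nat_lit 0) (nat_lit 0) (nat_lit 0) (nat_lit 0x7dea7a9a6c) (nat_lit 1022971248),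
  Rx.mk (nat_lit 82) (nat_lit 2) (nat_lit 2) (nat_lit 1) (nat_lit 7) (nat_lit 175) (nat_lit 200) r7_175 r8_200 (nat_lit 0) (nat_lit 0) (nat_lit 0) (nat_lit 0x7ddabb966c) (nat_lit 1053162864),
  Rx.mk (nat_lit 88) (nat_lit 0) (nat_lit 3) (nat_lit 1) (nat_lit 6) (nat_lit 163) (nat_lit 193) r7_163 r8_193 (nat_lit 0) (nat_lit 0) (nat_lit 0) (nat_lit 0x7dd111311c) (nat_lit 1071695664),
  Rx.mk (nat_lit 89) (nat_lit 1) (nat_lit 3) (nat_lit 1) (nat_lit 7) (nat_lit 169) (nat_lit 196) r7_169 r8_196 (nat_lit 0) (nat_lit 0) (nat_lit 0) (nat_lit 0x7df38ba952) (nat_lit 1005586920),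
  Rx.mk (nat_lit 146) (nat_lit 2) (nat_lit 2) (nat_lit 2) (nat_lit 7) (nat_lit 176) (nat_lit 201) r7_176 r8_201 (nat_lit 0) (nat_lit 0) (nat_lit 0) (nat_lit 0x7dec61fbf4) (nat_lit 1019320848),
  Rx.mk (nat_lit 216) (nat_lit 0) (nat_lit 3) (nat_lit 3) (nat_lit 6) (nat_lit 164) (nat_lit 194) r7_164 r8_194 (nat_lit 0) (nat_lit 0) (nat_lit 0) (nat_lit 0x7dde503d1e) (nat_lit 1046297304),
  Rx.mk (nat_lit 217) (nat_lit 1) (nat_lit 3) (nat_lit 3) (nat_lit 7) (nat_lit 170) (nat_lit 197) r7_170 r8_197 (nat_lit 0) (nat_lit 0) (nat_lit 0) (nat_lit 0x7df0e8138e) (nat_lit 1010646936),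
  Rx.mk (nat_lit 219) (nat_lit 3) (nat_lit 3) (nat_lit 3) (nat_lit 7) (nat_lit 177) (nat_lit 198) r7_177 r8_198 (nat_lit 0) (nat_lit 0) (nat_lit 0) (nat_lit 0x7ddc561cc2) (nat_lit 1050088104)]
noncomputable def e13_20 : List Rx := [
  Rx.mk (nat_lit 321) (nat_lit 1) (nat_lit 0) (nat_lit 5) (nat_lit 5) (nat_lit 178) (nat_lit 289) r7_178 r0_289 (nat_lit 0) (nat_lit 0) (nat_lit 0) (nat_lit 0x7b30873c5c) (nat_lit 2361219120),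
  Rx.mk (nat_lit 329) (nat_lit 1) (nat_lit 1) (nat_lit 5) (nat_lit 7) (nat_lit 179) (nat_lit 290) r7_179 r0_290 (nat_lit 0) (nat_lit 0) (nat_lit 0) (nat_lit 0x7df79428c6) (nat_lit 997853688)]
noncomputable def e13_21 : List Rx := [
  Rx.mk (nat_lit 329) (nat_lit 1) (nat_lit 1) (nat_lit 5) (nat_lit 7) (nat_lit 180) (nat_lit 286) r7_180 r1_286 (nat_lit 0) (nat_lit 0) (nat_lit 0) (nat_lit 0x7de3424df8) (nat_lit 1036814688)]
noncomputable def e13_22 : List Rx := [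
  Rx.mk (nat_lit 321) (nat_lit 1) (nat_lit 0) (nat_lit 5) (nat_lit 5) (nat_lit 181) (nat_lit 304) r7_181 r4_304 (nat_lit 0) (nat_lit 0) (nat_lit 0) (nat_lit 0x7de112f0f0) (nat_lit 1041004224),
  Rx.mk (nat_lit 329) (nat_lit 1) (nat_lit 1) (nat_lit 5) (nat_lit 7) (nat_lit 182) (nat_lit 305) r7_182 r4_305 (nat_lit 0) (nat_lit 0) (nat_lit 0) (nat_lit 0x7df79428c6) (nat_lit 997853688),
  Rx.mk (nat_lit 345) (nat_lit 1) (nat_lit 3) (nat_lit 5) (nat_lit 7) (nat_lit 183) (nat_lit 306) r7_183 r4_306 (nat_lit 0) (nat_lit 0) (nat_lit 0) (nat_lit 0x7df6d07502) (nat_lit 999319464)]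
noncomputable def e13_23 : List Rx := [
  Rx.mk (nat_lit 65) (nat_lit 1) (nat_lit 0) (nat_lit 1) (nat_lit 5) (nat_lit 185) (nat_lit 242) r7_185 r6_242 (nat_lit 0) (nat_lit 0) (nat_lit 0) (nat_lit 0x7d9c65fc04) (nat_lit 1172682576),
  Rx.mk (nat_lit 73) (nat_lit 1) (nat_lit 1) (nat_lit 1) (nat_lit 7) (nat_lit 187) (nat_lit 244) r7_187 r6_244 (nat_lit 0) (nat_lit 0) (nat_lit 0) (nat_lit 0x7dbbebe386) (nat_lit 1112240376),
  Rx.mk (nat_lit 89) (nat_lit 1) (nat_lit 3) (nat_lit 1) (nat_lit 7) (nat_lit 188) (nat_lit 245) r7_188 r6_245 (nat_lit 0) (nat_lit 0) (nat_lit 0) (nat_lit 0x7dbabc967c) (nat_lit 1114512048),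
  Rx.mk (nat_lit 321) (nat_lit 1) (nat_lit 0) (nat_lit 5) (nat_lit 5) (nat_lit 184) (nat_lit 241) r7_184 r6_241 (nat_lit 0) (nat_lit 0) (nat_lit 0) (nat_lit 0x7de7386e92) (nat_lit 1029219048),
  Rx.mk (nat_lit 329) (nat_lit 1) (nat_lit 1) (nat_lit 5) (nat_lit 7) (nat_lit 186) (nat_lit 243) r7_186 r6_243 (nat_lit 0) (nat_lit 0) (nat_lit 0) (nat_lit 0x7de4f1130a) (nat_lit 1033588296)]
noncomputable def e13_24 : List Rx := [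
  Rx.mk (nat_lit 73) (nat_lit 1) (nat_lit 1) (nat_lit 1) (nat_lit 7) (nat_lit 190) (nat_lit 190) r7_190 r7_190 (nat_lit 0) (nat_lit 0) (nat_lit 0) (nat_lit 0x7de57f2a28) (nat_lit 1032524064),
  Rx.mk (nat_lit 329) (nat_lit 1) (nat_lit 1) (nat_lit 5) (nat_lit 7) (nat_lit 189) (nat_lit 189) r7_189 r7_189 (nat_lit 0) (nat_lit 0) (nat_lit 0) (nat_lit 0x7deaf8f286) (nat_lit 1022024952)]
noncomputable def e13_25 : List Rx := [
  Rx.mk (nat_lit 65) (nat_lit 1) (nat_lit 0) (nat_lit 1) (nat_lit 5) (nat_lit 191) (nat_lit 323) r7_191 r7_323 (nat_lit 0) (nat_lit 0) (nat_lit 0) (nat_lit 0x7cf1f683a6) (nat_lit 1499474808),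
  Rx.mk (nat_lit 73) (nat_lit 1) (nat_lit 1) (nat_lit 1) (nat_lit 7) (nat_lit 192) (nat_lit 324) r7_192 r7_324 (nat_lit 0) (nat_lit 0) (nat_lit 0) (nat_lit 0x7dd911b10c) (nat_lit 1056352752),
  Rx.mk (nat_lit 89) (nat_lit 1) (nat_lit 3) (nat_lit 1) (nat_lit 7) (nat_lit 193) (nat_lit 325) r7_193 r7_325 (nat_lit 0) (nat_lit 0) (nat_lit 0) (nat_lit 0x7ddc447ddc) (nat_lit 1050220080)]
noncomputable def e13_26 : List Rx := [
  Rx.mk (nat_lit 89) (nat_lit 1) (nat_lit 3) (nat_lit 1) (nat_lit 7) (nat_lit 197) (nat_lit 194) r7_197 r9_194 (nat_lit 0) (nat_lit 0) (nat_lit 0) (nat_lit 0x7dea641bd4) (nat_lit 1023139728),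
  Rx.mk (nat_lit 321) (nat_lit 1) (nat_lit 0) (nat_lit 5) (nat_lit 5) (nat_lit 194) (nat_lit 191) r7_194 r9_191 (nat_lit 0) (nat_lit 0) (nat_lit 0) (nat_lit 0x7de3a84798) (nat_lit 1036050912),
  Rx.mk (nat_lit 329) (nat_lit 1) (nat_lit 1) (nat_lit 5) (nat_lit 7) (nat_lit 195) (nat_lit 192) r7_195 r9_192 (nat_lit 0) (nat_lit 0) (nat_lit 0) (nat_lit 0x7dd3600c2c) (nat_lit 1067270256),
  Rx.mk (nat_lit 345) (nat_lit 1) (nat_lit 3) (nat_lit 5) (nat_lit 7) (nat_lit 196) (nat_lit 193) r7_196 r9_193 (nat_lit 0) (nat_lit 0) (nat_lit 0) (nat_lit 0x7de444fdcc) (nat_lit 1034877168)]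
noncomputable def e13_27 : List Rx := [
  Rx.mk (nat_lit 321) (nat_lit 1) (nat_lit 0) (nat_lit 5) (nat_lit 5) (nat_lit 198) (nat_lit 219) r7_198 r10_219 (nat_lit 0) (nat_lit 0) (nat_lit 0) (nat_lit 0x7df20f8116) (nat_lit 1008434232),
  Rx.mk (nat_lit 329) (nat_lit 1) (nat_lit 1) (nat_lit 5) (nat_lit 7) (nat_lit 199) (nat_lit 220) r7_199 r10_220 (nat_lit 0) (nat_lit 0) (nat_lit 0) (nat_lit 0x7de83d5e42) (nat_lit 1027264680),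
  Rx.mk (nat_lit 345) (nat_lit 1) (nat_lit 3) (nat_lit 5) (nat_lit 7) (nat_lit 200) (nat_lit 221) r7_200 r10_221 (nat_lit 0) (nat_lit 0) (nat_lit 0) (nat_lit 0x7deb8469ce) (nat_lit 1020980376)]
noncomputable def e13_28 : List Rx := [
  Rx.mk (nat_lit 216) (nat_lit 0) (nat_lit 3) (nat_lit 3) (nat_lit 6) (nat_lit 208) (nat_lit 120) r7_208 r10_120 (nat_lit 0) (nat_lit 0) (nat_lit 0) (nat_lit 0x7da81b00a8) (nat_lit 1150235424),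
  Rx.mk (nat_lit 217) (nat_lit 1) (nat_lit 3) (nat_lit 3) (nat_lit 7) (nat_lit 211) (nat_lit 121) r7_211 r10_121 (nat_lit 0) (nat_lit 0) (nat_lit 0) (nat_lit 0x7df45c7c44) (nat_lit 1004022864),
  Rx.mk (nat_lit 218) (nat_lit 2) (nat_lit 3) (nat_lit 3) (nat_lit 7) (nat_lit 212) (nat_lit 122) r7_212 r10_122 (nat_lit 0) (nat_lit 0) (nat_lit 0) (nat_lit 0x7dd511d10e) (nat_lit 1064021400),
  Rx.mk (nat_lit 472) (nat_lit 0) (nat_lit 3) (nat_lit 7) (nat_lit 6) (nat_lit 207) (nat_lit 118) r7_207 r10_118 (nat_lit 0) (nat_lit 0) (nat_lit 0) (nat_lit 0x7dcad2f506) (nat_lit 1083666168),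
  Rx.mk (nat_lit 473) (nat_lit 1) (nat_lit 3) (nat_lit 7) (nat_lit 7) (nat_lit 210) (nat_lit 119) r7_210 r10_119 (nat_lit 0) (nat_lit 0) (nat_lit 0) (nat_lit 0x7de6733ae6) (nat_lit 1030696056),
  Rx.mk (nat_lit 504) (nat_lit 0) (nat_lit 7) (nat_lit 7) (nat_lit 6) (nat_lit 206) (nat_lit 115) r7_206 r10_115 (nat_lit 0) (nat_lit 0) (nat_lit 0) (nat_lit 0x7d7cc21662) (nat_lit 1233349416),
  Rx.mk (nat_lit 505) (nat_lit 1) (nat_lit 7) (nat_lit 7) (nat_lit 7) (nat_lit 209) (nat_lit 116) r7_209 r10_116 (nat_lit 0) (nat_lit 0) (nat_lit 0) (nat_lit 0x7deb46eda6) (nat_lit 1021440888),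
  Rx.mk (nat_lit 507) (nat_lit 3) (nat_lit 7) (nat_lit 7) (nat_lit 7) (nat_lit 213) (nat_lit 117) r7_213 r10_117 (nat_lit 0) (nat_lit 0) (nat_lit 0) (nat_lit 0x7df08459ca) (nat_lit 1011393864)]
noncomputable def e13_29 : List Rx := [
  Rx.mk (nat_lit 281) (nat_lit 1) (nat_lit 3) (nat_lit 4) (nat_lit 3) (nat_lit 216) (nat_lit 301) r7_216 r5_301 (nat_lit 0) (nat_lit 0) (nat_lit 0) (nat_lit 0x7e615cebd0) (nat_lit 795023424),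
  Rx.mk (nat_lit 313) (nat_lit 1) (nat_lit 7) (nat_lit 4) (nat_lit 3) (nat_lit 214) (nat_lit 300) r7_214 r5_300 (nat_lit 0) (nat_lit 0) (nat_lit 0) (nat_lit 0x7de4c1160a) (nat_lit 1033947720),
  Rx.mk (nat_lit 345) (nat_lit 1) (nat_lit 3) (nat_lit 5) (nat_lit 7) (nat_lit 217) (nat_lit 303) r7_217 r5_303 (nat_lit 0) (nat_lit 0) (nat_lit 0) (nat_lit 0x7defd5a4b6) (nat_lit 1012702392),
  Rx.mk (nat_lit 377) (nat_lit 1) (nat_lit 7) (nat_lit 5) (nat_lit 7) (nat_lit 215) (nat_lit 302) r7_215 r5_302 (nat_lit 0) (nat_lit 0) (nat_lit 0) (nat_lit 0x7dec1be056) (nat_lit 1019845944)]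
noncomputable def e13_30 : List Rx := [
  Rx.mk (nat_lit 89) (nat_lit 1) (nat_lit 3) (nat_lit 1) (nat_lit 7) (nat_lit 220) (nat_lit 343) r7_220 r10_343 (nat_lit 0) (nat_lit 0) (nat_lit 0) (nat_lit 0x7de0f07318) (nat_lit 1041262560),
  Rx.mk (nat_lit 345) (nat_lit 1) (nat_lit 3) (nat_lit 5) (nat_lit 7) (nat_lit 219) (nat_lit 344) r7_219 r10_344 (nat_lit 0) (nat_lit 0) (nat_lit 0) (nat_lit 0x7de8ed3344) (nat_lit 1025947728)]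
noncomputable def e13_31 : List Rx := [
  Rx.mk (nat_lit 313) (nat_lit 1) (nat_lit 7) (nat_lit 4) (nat_lit 3) (nat_lit 221) (nat_lit 207) r7_221 r5_207 (nat_lit 0) (nat_lit 0) (nat_lit 0) (nat_lit 0x7dbcf8b2b8) (nat_lit 1110227040),
  Rx.mk (nat_lit 377) (nat_lit 1) (nat_lit 7) (nat_lit 5) (nat_lit 7) (nat_lit 222) (nat_lit 208) r7_222 r5_208 (nat_lit 0) (nat_lit 0) (nat_lit 0) (nat_lit 0x7e020c013e) (nat_lit 977782104),
  Rx.mk (nat_lit 473) (nat_lit 1) (nat_lit 3) (nat_lit 7) (nat_lit 7) (nat_lit 224) (nat_lit 206) r7_224 r5_206 (nat_lit 0) (nat_lit 0) (nat_lit 0) (nat_lit 0x7dd520102a) (nat_lit 1063914696),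
  Rx.mk (nat_lit 505) (nat_lit 1) (nat_lit 7) (nat_lit 7) (nat_lit 7) (nat_lit 223) (nat_lit 209) r7_223 r5_209 (nat_lit 0) (nat_lit 0) (nat_lit 0) (nat_lit 0x7dedf682aa) (nat_lit 1016291016)]
noncomputable def e13_32 : List Rx := [
  Rx.mk (nat_lit 281) (nat_lit 1) (nat_lit 3) (nat_lit 4) (nat_lit 3) (nat_lit 227) (nat_lit 112) r7_227 r11_112 (nat_lit 0) (nat_lit 0) (nat_lit 0) (nat_lit 0x7e01a8a774) (nat_lit 978526224),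
  Rx.mk (nat_lit 313) (nat_lit 1) (nat_lit 7) (nat_lit 4) (nat_lit 3) (nat_lit 225) (nat_lit 115) r7_225 r11_115 (nat_lit 0) (nat_lit 0) (nat_lit 0) (nat_lit 0x7da1c16648) (nat_lit 1162410912),
  Rx.mk (nat_lit 345) (nat_lit 1) (nat_lit 3) (nat_lit 5) (nat_lit 7) (nat_lit 228) (nat_lit 113) r7_228 r11_113 (nat_lit 0) (nat_lit 0) (nat_lit 0) (nat_lit 0x7dddf522d0) (nat_lit 1046979648),
  Rx.mk (nat_lit 377) (nat_lit 1) (nat_lit 7) (nat_lit 5) (nat_lit 7) (nat_lit 226) (nat_lit 116) r7_226 r11_116 (nat_lit 0) (nat_lit 0) (nat_lit 0) (nat_lit 0x7dc9a2e808) (nat_lit 1085943456),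
  Rx.mk (nat_lit 473) (nat_lit 1) (nat_lit 3) (nat_lit 7) (nat_lit 7) (nat_lit 229) (nat_lit 114) r7_229 r11_114 (nat_lit 0) (nat_lit 0) (nat_lit 0) (nat_lit 0x7dcd9548de) (nat_lit 1078375896)]
noncomputable def e13_33 : List Rx := [
  Rx.mk (nat_lit 289) (nat_lit 1) (nat_lit 4) (nat_lit 4) (nat_lit 1) (nat_lit 237) (nat_lit 278) r7_237 r0_278 (nat_lit 0) (nat_lit 0) (nat_lit 0) (nat_lit 0x5c996eec7a) (nat_lit 17376530184),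
  Rx.mk (nat_lit 293) (nat_lit 5) (nat_lit 4) (nat_lit 4) (nat_lit 1) (nat_lit 230) (nat_lit 271) r7_230 r0_271 (nat_lit 0) (nat_lit 0) (nat_lit 0) (nat_lit 0x52675b77e4) (nat_lit 22381079760),
  Rx.mk (nat_lit 297) (nat_lit 1) (nat_lit 5) (nat_lit 4) (nat_lit 3) (nat_lit 239) (nat_lit 279) r7_239 r0_279 (nat_lit 0) (nat_lit 0) (nat_lit 0) (nat_lit 0x7c51f5245c) (nat_lit 1806268464),
  Rx.mk (nat_lit 301) (nat_lit 5) (nat_lit 5) (nat_lit 4) (nat_lit 3) (nat_lit 232) (nat_lit 272) r7_232 r0_272 (nat_lit 0) (nat_lit 0) (nat_lit 0) (nat_lit 0x77e11e9636) (nat_lit 3986037432),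
  Rx.mk (nat_lit 317) (nat_lit 5) (nat_lit 7) (nat_lit 4) (nat_lit 3) (nat_lit 234) (nat_lit 273) r7_234 r0_273 (nat_lit 0) (nat_lit 0) (nat_lit 0) (nat_lit 0x7d448d19ea) (nat_lit 1341120456),
  Rx.mk (nat_lit 353) (nat_lit 1) (nat_lit 4) (nat_lit 5) (nat_lit 5) (nat_lit 238) (nat_lit 280) r7_238 r0_280 (nat_lit 0) (nat_lit 0) (nat_lit 0) (nat_lit 0x7d503ebec4) (nat_lit 1318698576),
  Rx.mk (nat_lit 357) (nat_lit 5) (nat_lit 4) (nat_lit 5) (nat_lit 5) (nat_lit 231) (nat_lit 274) r7_231 r0_274 (nat_lit 0) (nat_lit 0) (nat_lit 0) (nat_lit 0x7a2fb2caa4) (nat_lit 2853663696),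
  Rx.mk (nat_lit 361) (nat_lit 1) (nat_lit 5) (nat_lit 5) (nat_lit 7) (nat_lit 240) (nat_lit 281) r7_240 r0_281 (nat_lit 0) (nat_lit 0) (nat_lit 0) (nat_lit 0x7df400a202) (nat_lit 1004710824),
  Rx.mk (nat_lit 365) (nat_lit 5) (nat_lit 5) (nat_lit 5) (nat_lit 7) (nat_lit 233) (nat_lit 275) r7_233 r0_275 (nat_lit 0) (nat_lit 0) (nat_lit 0) (nat_lit 0x7d51c5c652) (nat_lit 1315769832),
  Rx.mk (nat_lit 381) (nat_lit 5) (nat_lit 7) (nat_lit 5) (nat_lit 7) (nat_lit 235) (nat_lit 276) r7_235 r0_276 (nat_lit 0) (nat_lit 0) (nat_lit 0) (nat_lit 0x7df2301f0c) (nat_lit 1008189936),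
  Rx.mk (nat_lit 509) (nat_lit 5) (nat_lit 7) (nat_lit 7) (nat_lit 7) (nat_lit 236) (nat_lit 277) r7_236 r0_277 (nat_lit 0) (nat_lit 0) (nat_lit 0) (nat_lit 0x7df55c2c48) (nat_lit 1002107808)]
noncomputable def e13_34 : List Rx := [
  Rx.mk (nat_lit 293) (nat_lit 5) (nat_lit 4) (nat_lit 4) (nat_lit 1) (nat_lit 241) (nat_lit 188) r7_241 r0_188 (nat_lit 0) (nat_lit 0) (nat_lit 0) (nat_lit 0x6c14ae090c) (nat_lit 9777416688),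
  Rx.mk (nat_lit 317) (nat_lit 5) (nat_lit 7) (nat_lit 4) (nat_lit 3) (nat_lit 244) (nat_lit 191) r7_244 r0_191 (nat_lit 0) (nat_lit 0) (nat_lit 0) (nat_lit 0x7dd6cb7572) (nat_lit 1060713576),
  Rx.mk (nat_lit 357) (nat_lit 5) (nat_lit 4) (nat_lit 5) (nat_lit 5) (nat_lit 242) (nat_lit 189) r7_242 r0_189 (nat_lit 0) (nat_lit 0) (nat_lit 0) (nat_lit 0x7d632fcfa0) (nat_lit 1282379904),
  Rx.mk (nat_lit 381) (nat_lit 5) (nat_lit 7) (nat_lit 5) (nat_lit 7) (nat_lit 245) (nat_lit 192) r7_245 r0_192 (nat_lit 0) (nat_lit 0) (nat_lit 0) (nat_lit 0x7df79428c6) (nat_lit 997853688),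
  Rx.mk (nat_lit 421) (nat_lit 5) (nat_lit 4) (nat_lit 6) (nat_lit 5) (nat_lit 243) (nat_lit 190) r7_243 r0_190 (nat_lit 0) (nat_lit 0) (nat_lit 0) (nat_lit 0x7e4de063ac) (nat_lit 832386672),
  Rx.mk (nat_lit 445) (nat_lit 5) (nat_lit 7) (nat_lit 6) (nat_lit 7) (nat_lit 246) (nat_lit 194) r7_246 r0_194 (nat_lit 0) (nat_lit 0) (nat_lit 0) (nat_lit 0x7de0607c18) (nat_lit 1042340832),
  Rx.mk (nat_lit 509) (nat_lit 5) (nat_lit 7) (nat_lit 7) (nat_lit 7) (nat_lit 247) (nat_lit 193) r7_247 r0_193 (nat_lit 0) (nat_lit 0) (nat_lit 0) (nat_lit 0x7de7422df6) (nat_lit 1029146040)]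
noncomputable def e13_35 : List Rx := [
  Rx.mk (nat_lit 293) (nat_lit 5) (nat_lit 4) (nat_lit 4) (nat_lit 1) (nat_lit 248) (nat_lit 388) r7_248 r6_388 (nat_lit 0) (nat_lit 0) (nat_lit 0) (nat_lit 0x66291d8800) (nat_lit 12683354112),
  Rx.mk (nat_lit 301) (nat_lit 5) (nat_lit 5) (nat_lit 4) (nat_lit 3) (nat_lit 251) (nat_lit 389) r7_251 r6_389 (nat_lit 0) (nat_lit 0) (nat_lit 0) (nat_lit 0x7d509b58fa) (nat_lit 1318005000),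
  Rx.mk (nat_lit 317) (nat_lit 5) (nat_lit 7) (nat_lit 4) (nat_lit 3) (nat_lit 254) (nat_lit 390) r7_254 r6_390 (nat_lit 0) (nat_lit 0) (nat_lit 0) (nat_lit 0x7dcd22900a) (nat_lit 1079235144),
  Rx.mk (nat_lit 357) (nat_lit 5) (nat_lit 4) (nat_lit 5) (nat_lit 5) (nat_lit 249) (nat_lit 391) r7_249 r6_391 (nat_lit 0) (nat_lit 0) (nat_lit 0) (nat_lit 0x7d55b76734) (nat_lit 1308207888),
  Rx.mk (nat_lit 365) (nat_lit 5) (nat_lit 5) (nat_lit 5) (nat_lit 7) (nat_lit 252) (nat_lit 392) r7_252 r6_392 (nat_lit 0) (nat_lit 0) (nat_lit 0) (nat_lit 0x7de766ebaa) (nat_lit 1028870856),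
  Rx.mk (nat_lit 381) (nat_lit 5) (nat_lit 7) (nat_lit 5) (nat_lit 7) (nat_lit 255) (nat_lit 393) r7_255 r6_393 (nat_lit 0) (nat_lit 0) (nat_lit 0) (nat_lit 0x7dc7720b18) (nat_lit 1090144224),
  Rx.mk (nat_lit 421) (nat_lit 5) (nat_lit 4) (nat_lit 6) (nat_lit 5) (nat_lit 250) (nat_lit 395) r7_250 r6_395 (nat_lit 0) (nat_lit 0) (nat_lit 0) (nat_lit 0x7d88d17560) (nat_lit 1210225536),
  Rx.mk (nat_lit 429) (nat_lit 5) (nat_lit 5) (nat_lit 6) (nat_lit 7) (nat_lit 253) (nat_lit 396) r7_253 r6_396 (nat_lit 0) (nat_lit 0) (nat_lit 0) (nat_lit 0x7dd5e5a3d0) (nat_lit 1062434880),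
  Rx.mk (nat_lit 509) (nat_lit 5) (nat_lit 7) (nat_lit 7) (nat_lit 7) (nat_lit 256) (nat_lit 394) r7_256 r6_394 (nat_lit 0) (nat_lit 0) (nat_lit 0) (nat_lit 0x7dee7e3a2e) (nat_lit 1015274520)]
noncomputable def e13_36 : List Rx := [
  Rx.mk (nat_lit 292) (nat_lit 4) (nat_lit 4) (nat_lit 4) (nat_lit 0) (nat_lit 257) (nat_lit 221) r7_257 r2_221 (nat_lit 0) (nat_lit 0) (nat_lit 0) (nat_lit 0x1e5f4facac) (nat_lit 47920884336),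
  Rx.mk (nat_lit 316) (nat_lit 4) (nat_lit 7) (nat_lit 4) (nat_lit 2) (nat_lit 260) (nat_lit 223) r7_260 r2_223 (nat_lit 0) (nat_lit 0) (nat_lit 0) (nat_lit 0x69fe864d9e) (nat_lit 10801603800),
  Rx.mk (nat_lit 319) (nat_lit 7) (nat_lit 7) (nat_lit 4) (nat_lit 3) (nat_lit 263) (nat_lit 224) r7_263 r2_224 (nat_lit 0) (nat_lit 0) (nat_lit 0) (nat_lit 0x7cb4d0f63c) (nat_lit 1616717232),
  Rx.mk (nat_lit 420) (nat_lit 4) (nat_lit 4) (nat_lit 6) (nat_lit 4) (nat_lit 258) (nat_lit 222) r7_258 r2_222 (nat_lit 0) (nat_lit 0) (nat_lit 0) (nat_lit 0x645245d752) (nat_lit 13586145768),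
  Rx.mk (nat_lit 436) (nat_lit 4) (nat_lit 6) (nat_lit 6) (nat_lit 6) (nat_lit 259) (nat_lit 228) r7_259 r2_228 (nat_lit 0) (nat_lit 0) (nat_lit 0) (nat_lit 0x7d4b54ed66) (nat_lit 1328119416),
  Rx.mk (nat_lit 438) (nat_lit 6) (nat_lit 6) (nat_lit 6) (nat_lit 7) (nat_lit 262) (nat_lit 229) r7_262 r2_229 (nat_lit 0) (nat_lit 0) (nat_lit 0) (nat_lit 0x7dbed954ac) (nat_lit 1106627184),
  Rx.mk (nat_lit 444) (nat_lit 4) (nat_lit 7) (nat_lit 6) (nat_lit 6) (nat_lit 261) (nat_lit 226) r7_261 r2_226 (nat_lit 0) (nat_lit 0) (nat_lit 0) (nat_lit 0x7d878d89a0) (nat_lit 1212651648),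
  Rx.mk (nat_lit 447) (nat_lit 7) (nat_lit 7) (nat_lit 6) (nat_lit 7) (nat_lit 264) (nat_lit 227) r7_264 r2_227 (nat_lit 0) (nat_lit 0) (nat_lit 0) (nat_lit 0x7dbd458dea) (nat_lit 1109651400),
  Rx.mk (nat_lit 511) (nat_lit 7) (nat_lit 7) (nat_lit 7) (nat_lit 7) (nat_lit 265) (nat_lit 225) r7_265 r2_225 (nat_lit 0) (nat_lit 0) (nat_lit 0) (nat_lit 0x7dc01560ea) (nat_lit 1104260040)]
noncomputable def e13_37 : List Rx := [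
  Rx.mk (nat_lit 292) (nat_lit 4) (nat_lit 4) (nat_lit 4) (nat_lit 0) (nat_lit 266) (nat_lit 202) r7_266 r8_202 (nat_lit 0) (nat_lit 0) (nat_lit 0) (nat_lit 0x2a267bae24) (nat_lit 42139605456),
  Rx.mk (nat_lit 316) (nat_lit 4) (nat_lit 7) (nat_lit 4) (nat_lit 2) (nat_lit 269) (nat_lit 204) r7_269 r8_204 (nat_lit 0) (nat_lit 0) (nat_lit 0) (nat_lit 0x795a3b62f0) (nat_lit 3262963392),
  Rx.mk (nat_lit 319) (nat_lit 7) (nat_lit 7) (nat_lit 4) (nat_lit 3) (nat_lit 271) (nat_lit 205) r7_271 r8_205 (nat_lit 0) (nat_lit 0) (nat_lit 0) (nat_lit 0x7d7fa68818) (nat_lit 1227803616),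
  Rx.mk (nat_lit 420) (nat_lit 4) (nat_lit 4) (nat_lit 6) (nat_lit 4) (nat_lit 267) (nat_lit 203) r7_267 r8_203 (nat_lit 0) (nat_lit 0) (nat_lit 0) (nat_lit 0x6f84370d0c) (nat_lit 8090999280),
  Rx.mk (nat_lit 436) (nat_lit 4) (nat_lit 6) (nat_lit 6) (nat_lit 6) (nat_lit 268) (nat_lit 207) r7_268 r8_207 (nat_lit 0) (nat_lit 0) (nat_lit 0) (nat_lit 0x7d6bde44b0) (nat_lit 1265734080),
  Rx.mk (nat_lit 438) (nat_lit 6) (nat_lit 6) (nat_lit 6) (nat_lit 7) (nat_lit 270) (nat_lit 208) r7_270 r8_208 (nat_lit 0) (nat_lit 0) (nat_lit 0) (nat_lit 0x7dd1cb257c) (nat_lit 1070302896),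
  Rx.mk (nat_lit 511) (nat_lit 7) (nat_lit 7) (nat_lit 7) (nat_lit 7) (nat_lit 272) (nat_lit 206) r7_272 r8_206 (nat_lit 0) (nat_lit 0) (nat_lit 0) (nat_lit 0x7dcfdbe472) (nat_lit 1074012264)]
noncomputable def e13_38 : List Rx := [
  Rx.mk (nat_lit 182) (nat_lit 6) (nat_lit 6) (nat_lit 2) (nat_lit 7) (nat_lit 279) (nat_lit 108) r7_279 r8_108 (nat_lit 0) (nat_lit 0) (nat_lit 0) (nat_lit 0x7de4ad9742) (nat_lit 1034093736),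
  Rx.mk (nat_lit 292) (nat_lit 4) (nat_lit 4) (nat_lit 4) (nat_lit 0) (nat_lit 273) (nat_lit 99) r7_273 r8_99 (nat_lit 0) (nat_lit 0) (nat_lit 0) (nat_lit 0x5e013b8ec) (nat_lit 59945324400),
  Rx.mk (nat_lit 316) (nat_lit 4) (nat_lit 7) (nat_lit 4) (nat_lit 2) (nat_lit 276) (nat_lit 100) r7_276 r8_100 (nat_lit 0) (nat_lit 0) (nat_lit 0) (nat_lit 0x70d5b03428) (nat_lit 7443929376),
  Rx.mk (nat_lit 319) (nat_lit 7) (nat_lit 7) (nat_lit 4) (nat_lit 3) (nat_lit 280) (nat_lit 101) r7_280 r8_101 (nat_lit 0) (nat_lit 0) (nat_lit 0) (nat_lit 0x7cfa07e288) (nat_lit 1484005536),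
  Rx.mk (nat_lit 420) (nat_lit 4) (nat_lit 4) (nat_lit 6) (nat_lit 4) (nat_lit 274) (nat_lit 103) r7_274 r8_103 (nat_lit 0) (nat_lit 0) (nat_lit 0) (nat_lit 0x6e391d1ff6) (nat_lit 8725851576),
  Rx.mk (nat_lit 436) (nat_lit 4) (nat_lit 6) (nat_lit 6) (nat_lit 6) (nat_lit 275) (nat_lit 106) r7_275 r8_106 (nat_lit 0) (nat_lit 0) (nat_lit 0) (nat_lit 0x7cf6673c96) (nat_lit 1490960952),
  Rx.mk (nat_lit 438) (nat_lit 6) (nat_lit 6) (nat_lit 6) (nat_lit 7) (nat_lit 278) (nat_lit 107) r7_278 r8_107 (nat_lit 0) (nat_lit 0) (nat_lit 0) (nat_lit 0x7dcea1581c) (nat_lit 1076368176),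
  Rx.mk (nat_lit 444) (nat_lit 4) (nat_lit 7) (nat_lit 6) (nat_lit 6) (nat_lit 277) (nat_lit 104) r7_277 r8_104 (nat_lit 0) (nat_lit 0) (nat_lit 0) (nat_lit 0x7da28699f4) (nat_lit 1160933904),
  Rx.mk (nat_lit 447) (nat_lit 7) (nat_lit 7) (nat_lit 6) (nat_lit 7) (nat_lit 281) (nat_lit 105) r7_281 r8_105 (nat_lit 0) (nat_lit 0) (nat_lit 0) (nat_lit 0x7df1f9c272) (nat_lit 1008597096),
  Rx.mk (nat_lit 511) (nat_lit 7) (nat_lit 7) (nat_lit 7) (nat_lit 7) (nat_lit 282) (nat_lit 102) r7_282 r8_102 (nat_lit 0) (nat_lit 0) (nat_lit 0) (nat_lit 0x7dc4f5d2de) (nat_lit 1094909400)]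
noncomputable def e13_39 : List Rx := [
  Rx.mk (nat_lit 292) (nat_lit 4) (nat_lit 4) (nat_lit 4) (nat_lit 0) (nat_lit 283) (nat_lit 201) r7_283 r1_201 (nat_lit 0) (nat_lit 0) (nat_lit 0) (nat_lit 0x34358c330c) (nat_lit 37202186736),
  Rx.mk (nat_lit 293) (nat_lit 5) (nat_lit 4) (nat_lit 4) (nat_lit 1) (nat_lit 289) (nat_lit 202) r7_289 r1_202 (nat_lit 0) (nat_lit 0) (nat_lit 0) (nat_lit 0x694567a042) (nat_lit 11156551848),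
  Rx.mk (nat_lit 316) (nat_lit 4) (nat_lit 7) (nat_lit 4) (nat_lit 2) (nat_lit 286) (nat_lit 206) r7_286 r1_206 (nat_lit 0) (nat_lit 0) (nat_lit 0) (nat_lit 0x6ddf3cfe52) (nat_lit 8898178536),
  Rx.mk (nat_lit 317) (nat_lit 5) (nat_lit 7) (nat_lit 4) (nat_lit 3) (nat_lit 293) (nat_lit 207) r7_293 r1_207 (nat_lit 0) (nat_lit 0) (nat_lit 0) (nat_lit 0x7c8fc726fe) (nat_lit 1687734360),
  Rx.mk (nat_lit 357) (nat_lit 5) (nat_lit 4) (nat_lit 5) (nat_lit 5) (nat_lit 290) (nat_lit 203) r7_290 r1_203 (nat_lit 0) (nat_lit 0) (nat_lit 0) (nat_lit 0x7d333feece) (nat_lit 1374294168),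
  Rx.mk (nat_lit 381) (nat_lit 5) (nat_lit 7) (nat_lit 5) (nat_lit 7) (nat_lit 294) (nat_lit 208) r7_294 r1_208 (nat_lit 0) (nat_lit 0) (nat_lit 0) (nat_lit 0x7db7bde66a) (nat_lit 1120254408),
  Rx.mk (nat_lit 420) (nat_lit 4) (nat_lit 4) (nat_lit 6) (nat_lit 4) (nat_lit 284) (nat_lit 204) r7_284 r1_204 (nat_lit 0) (nat_lit 0) (nat_lit 0) (nat_lit 0x689c4c929c) (nat_lit 11480794416),
  Rx.mk (nat_lit 421) (nat_lit 5) (nat_lit 4) (nat_lit 6) (nat_lit 5) (nat_lit 291) (nat_lit 205) r7_291 r1_205 (nat_lit 0) (nat_lit 0) (nat_lit 0) (nat_lit 0x7d4016c154) (nat_lit 1349676432),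
  Rx.mk (nat_lit 436) (nat_lit 4) (nat_lit 6) (nat_lit 6) (nat_lit 6) (nat_lit 285) (nat_lit 214) r7_285 r1_214 (nat_lit 0) (nat_lit 0) (nat_lit 0) (nat_lit 0x5d3c3f5ed0) (nat_lit 17064350784),
  Rx.mk (nat_lit 437) (nat_lit 5) (nat_lit 6) (nat_lit 6) (nat_lit 7) (nat_lit 292) (nat_lit 215) r7_292 r1_215 (nat_lit 0) (nat_lit 0) (nat_lit 0) (nat_lit 0x7c3cb238a0) (nat_lit 1847035008),
  Rx.mk (nat_lit 438) (nat_lit 6) (nat_lit 6) (nat_lit 6) (nat_lit 7) (nat_lit 297) (nat_lit 216) r7_297 r1_216 (nat_lit 0) (nat_lit 0) (nat_lit 0) (nat_lit 0x78ed89ae78) (nat_lit 3471373152),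
  Rx.mk (nat_lit 444) (nat_lit 4) (nat_lit 7) (nat_lit 6) (nat_lit 6) (nat_lit 287) (nat_lit 212) r7_287 r1_212 (nat_lit 0) (nat_lit 0) (nat_lit 0) (nat_lit 0x7db4c29622) (nat_lit 1125971496),
  Rx.mk (nat_lit 445) (nat_lit 5) (nat_lit 7) (nat_lit 6) (nat_lit 7) (nat_lit 295) (nat_lit 213) r7_295 r1_213 (nat_lit 0) (nat_lit 0) (nat_lit 0) (nat_lit 0x7db90e3164) (nat_lit 1117735632),
  Rx.mk (nat_lit 508) (nat_lit 4) (nat_lit 7) (nat_lit 7) (nat_lit 6) (nat_lit 288) (nat_lit 209) r7_288 r1_209 (nat_lit 0) (nat_lit 0) (nat_lit 0) (nat_lit 0x7de4743ad8) (nat_lit 1034523360),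
  Rx.mk (nat_lit 509) (nat_lit 5) (nat_lit 7) (nat_lit 7) (nat_lit 7) (nat_lit 296) (nat_lit 210) r7_296 r1_210 (nat_lit 0) (nat_lit 0) (nat_lit 0) (nat_lit 0x7dd2f1d310) (nat_lit 1068095808),
  Rx.mk (nat_lit 511) (nat_lit 7) (nat_lit 7) (nat_lit 7) (nat_lit 7) (nat_lit 298) (nat_lit 211) r7_298 r1_211 (nat_lit 0) (nat_lit 0) (nat_lit 0) (nat_lit 0x7deaa7f796) (nat_lit 1022631480)]
noncomputable def e13_40 : List Rx := [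
  Rx.mk (nat_lit 292) (nat_lit 4) (nat_lit 4) (nat_lit 4) (nat_lit 0) (nat_lit 299) (nat_lit 299) r7_299 r7_299 (nat_lit 0) (nat_lit 0) (nat_lit 0) (nat_lit 0x4a170bc530) (nat_lit 26461895616),
  Rx.mk (nat_lit 293) (nat_lit 5) (nat_lit 4) (nat_lit 4) (nat_lit 1) (nat_lit 304) (nat_lit 304) r7_304 r7_304 (nat_lit 0) (nat_lit 0) (nat_lit 0) (nat_lit 0x7813e3e9ae) (nat_lit 3888689688),
  Rx.mk (nat_lit 301) (nat_lit 5) (nat_lit 5) (nat_lit 4) (nat_lit 3) (nat_lit 307) (nat_lit 305) r7_307 r7_305 (nat_lit 0) (nat_lit 0) (nat_lit 0) (nat_lit 0x7daee1543c) (nat_lit 1137245616),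
  Rx.mk (nat_lit 316) (nat_lit 4) (nat_lit 7) (nat_lit 4) (nat_lit 2) (nat_lit 302) (nat_lit 300) r7_302 r7_300 (nat_lit 0) (nat_lit 0) (nat_lit 0) (nat_lit 0x71bb073dd2) (nat_lit 7004193768),
  Rx.mk (nat_lit 317) (nat_lit 5) (nat_lit 7) (nat_lit 4) (nat_lit 3) (nat_lit 311) (nat_lit 306) r7_311 r7_306 (nat_lit 0) (nat_lit 0) (nat_lit 0) (nat_lit 0x7dcd630c02) (nat_lit 1078752168),
  Rx.mk (nat_lit 357) (nat_lit 5) (nat_lit 4) (nat_lit 5) (nat_lit 5) (nat_lit 305) (nat_lit 307) r7_305 r7_307 (nat_lit 0) (nat_lit 0) (nat_lit 0) (nat_lit 0x7daee1543c) (nat_lit 1137245616),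
  Rx.mk (nat_lit 365) (nat_lit 5) (nat_lit 5) (nat_lit 5) (nat_lit 7) (nat_lit 308) (nat_lit 308) r7_308 r7_308 (nat_lit 0) (nat_lit 0) (nat_lit 0) (nat_lit 0x7df2d1b4f2) (nat_lit 1006979688),
  Rx.mk (nat_lit 381) (nat_lit 5) (nat_lit 7) (nat_lit 5) (nat_lit 7) (nat_lit 312) (nat_lit 309) r7_312 r7_309 (nat_lit 0) (nat_lit 0) (nat_lit 0) (nat_lit 0x7dd44e1d4a) (nat_lit 1065487176),
  Rx.mk (nat_lit 420) (nat_lit 4) (nat_lit 4) (nat_lit 6) (nat_lit 4) (nat_lit 300) (nat_lit 302) r7_300 r7_302 (nat_lit 0) (nat_lit 0) (nat_lit 0) (nat_lit 0x71bb073dd2) (nat_lit 7004193768),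
  Rx.mk (nat_lit 421) (nat_lit 5) (nat_lit 4) (nat_lit 6) (nat_lit 5) (nat_lit 306) (nat_lit 311) r7_306 r7_311 (nat_lit 0) (nat_lit 0) (nat_lit 0) (nat_lit 0x7dcd630c02) (nat_lit 1078752168),
  Rx.mk (nat_lit 429) (nat_lit 5) (nat_lit 5) (nat_lit 6) (nat_lit 7) (nat_lit 309) (nat_lit 312) r7_309 r7_312 (nat_lit 0) (nat_lit 0) (nat_lit 0) (nat_lit 0x7dd44e1d4a) (nat_lit 1065487176),
  Rx.mk (nat_lit 436) (nat_lit 4) (nat_lit 6) (nat_lit 6) (nat_lit 6) (nat_lit 301) (nat_lit 303) r7_301 r7_303 (nat_lit 0) (nat_lit 0) (nat_lit 0) (nat_lit 0x7da575eafc) (nat_lit 1155306672),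
  Rx.mk (nat_lit 437) (nat_lit 5) (nat_lit 6) (nat_lit 6) (nat_lit 7) (nat_lit 310) (nat_lit 313) r7_310 r7_313 (nat_lit 0) (nat_lit 0) (nat_lit 0) (nat_lit 0x7dd446fdbc) (nat_lit 1065540528),
  Rx.mk (nat_lit 438) (nat_lit 6) (nat_lit 6) (nat_lit 6) (nat_lit 7) (nat_lit 314) (nat_lit 315) r7_314 r7_315 (nat_lit 0) (nat_lit 0) (nat_lit 0) (nat_lit 0x7df79428c6) (nat_lit 997853688),
  Rx.mk (nat_lit 508) (nat_lit 4) (nat_lit 7) (nat_lit 7) (nat_lit 6) (nat_lit 303) (nat_lit 301) r7_303 r7_301 (nat_lit 0) (nat_lit 0) (nat_lit 0) (nat_lit 0x7da575eafc) (nat_lit 1155306672),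
  Rx.mk (nat_lit 509) (nat_lit 5) (nat_lit 7) (nat_lit 7) (nat_lit 7) (nat_lit 313) (nat_lit 310) r7_313 r7_310 (nat_lit 0) (nat_lit 0) (nat_lit 0) (nat_lit 0x7dd446fdbc) (nat_lit 1065540528),
  Rx.mk (nat_lit 511) (nat_lit 7) (nat_lit 7) (nat_lit 7) (nat_lit 7) (nat_lit 315) (nat_lit 314) r7_315 r7_314 (nat_lit 0) (nat_lit 0) (nat_lit 0) (nat_lit 0x7df79428c6) (nat_lit 997853688)]
noncomputable def e13_41 : List Rx := [
  Rx.mk (nat_lit 297) (nat_lit 1) (nat_lit 5) (nat_lit 4) (nat_lit 3) (nat_lit 318) (nat_lit 276) r7_318 r1_276 (nat_lit 0) (nat_lit 0) (nat_lit 0) (nat_lit 0x7ba392eb2e) (nat_lit 2140631064),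
  Rx.mk (nat_lit 301) (nat_lit 5) (nat_lit 5) (nat_lit 4) (nat_lit 3) (nat_lit 316) (nat_lit 274) r7_316 r1_274 (nat_lit 0) (nat_lit 0) (nat_lit 0) (nat_lit 0x7a2aa01bd4) (nat_lit 2863390608),
  Rx.mk (nat_lit 361) (nat_lit 1) (nat_lit 5) (nat_lit 5) (nat_lit 7) (nat_lit 319) (nat_lit 277) r7_319 r1_277 (nat_lit 0) (nat_lit 0) (nat_lit 0) (nat_lit 0x7de06f7b28) (nat_lit 1042228512),
  Rx.mk (nat_lit 365) (nat_lit 5) (nat_lit 5) (nat_lit 5) (nat_lit 7) (nat_lit 317) (nat_lit 275) r7_317 r1_275 (nat_lit 0) (nat_lit 0) (nat_lit 0) (nat_lit 0x7dab10b14a) (nat_lit 1144560456)]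
noncomputable def e13_42 : List Rx := [
  Rx.mk (nat_lit 329) (nat_lit 1) (nat_lit 1) (nat_lit 5) (nat_lit 7) (nat_lit 322) (nat_lit 303) r7_322 r2_303 (nat_lit 0) (nat_lit 0) (nat_lit 0) (nat_lit 0x7dacc2d626) (nat_lit 1141308792),
  Rx.mk (nat_lit 361) (nat_lit 1) (nat_lit 5) (nat_lit 5) (nat_lit 7) (nat_lit 321) (nat_lit 302) r7_321 r2_302 (nat_lit 0) (nat_lit 0) (nat_lit 0) (nat_lit 0x7dd04e3d4c) (nat_lit 1073155824),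
  Rx.mk (nat_lit 365) (nat_lit 5) (nat_lit 5) (nat_lit 5) (nat_lit 7) (nat_lit 320) (nat_lit 301) r7_320 r2_301 (nat_lit 0) (nat_lit 0) (nat_lit 0) (nat_lit 0x7de672daec) (nat_lit 1030698864)]
noncomputable def e13_43 : List Rx := [
  Rx.mk (nat_lit 301) (nat_lit 5) (nat_lit 5) (nat_lit 4) (nat_lit 3) (nat_lit 323) (nat_lit 191) r7_323 r7_191 (nat_lit 0) (nat_lit 0) (nat_lit 0) (nat_lit 0x7cf1f683a6) (nat_lit 1499474808),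
  Rx.mk (nat_lit 365) (nat_lit 5) (nat_lit 5) (nat_lit 5) (nat_lit 7) (nat_lit 324) (nat_lit 192) r7_324 r7_192 (nat_lit 0) (nat_lit 0) (nat_lit 0) (nat_lit 0x7dd911b10c) (nat_lit 1056352752),
  Rx.mk (nat_lit 429) (nat_lit 5) (nat_lit 5) (nat_lit 6) (nat_lit 7) (nat_lit 325) (nat_lit 193) r7_325 r7_193 (nat_lit 0) (nat_lit 0) (nat_lit 0) (nat_lit 0x7ddc447ddc) (nat_lit 1050220080)]
noncomputable def e13_44 : List Rx := [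
  Rx.mk (nat_lit 365) (nat_lit 5) (nat_lit 5) (nat_lit 5) (nat_lit 7) (nat_lit 326) (nat_lit 289) r7_326 r8_289 (nat_lit 0) (nat_lit 0) (nat_lit 0) (nat_lit 0x7df343add2) (nat_lit 1006126056)]
noncomputable def e13_45 : List Rx := [
  Rx.mk (nat_lit 73) (nat_lit 1) (nat_lit 1) (nat_lit 1) (nat_lit 7) (nat_lit 330) (nat_lit 294) r7_330 r8_294 (nat_lit 0) (nat_lit 0) (nat_lit 0) (nat_lit 0x7de241de00) (nat_lit 1038735360),
  Rx.mk (nat_lit 329) (nat_lit 1) (nat_lit 1) (nat_lit 5) (nat_lit 7) (nat_lit 329) (nat_lit 295) r7_329 r8_295 (nat_lit 0) (nat_lit 0) (nat_lit 0) (nat_lit 0x7dafdd447c) (nat_lit 1135358640),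
  Rx.mk (nat_lit 361) (nat_lit 1) (nat_lit 5) (nat_lit 5) (nat_lit 7) (nat_lit 328) (nat_lit 296) r7_328 r8_296 (nat_lit 0) (nat_lit 0) (nat_lit 0) (nat_lit 0x7dd57faa30) (nat_lit 1063198656),
  Rx.mk (nat_lit 365) (nat_lit 5) (nat_lit 5) (nat_lit 5) (nat_lit 7) (nat_lit 327) (nat_lit 297) r7_327 r8_297 (nat_lit 0) (nat_lit 0) (nat_lit 0) (nat_lit 0x7de90d7140) (nat_lit 1025706240)]
noncomputable def e13_46 : List Rx := [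
  Rx.mk (nat_lit 289) (nat_lit 1) (nat_lit 4) (nat_lit 4) (nat_lit 1) (nat_lit 341) (nat_lit 287) r7_341 r4_287 (nat_lit 0) (nat_lit 0) (nat_lit 0) (nat_lit 0x5c57ff43b6) (nat_lit 17501997240),
  Rx.mk (nat_lit 297) (nat_lit 1) (nat_lit 5) (nat_lit 4) (nat_lit 3) (nat_lit 343) (nat_lit 288) r7_343 r4_288 (nat_lit 0) (nat_lit 0) (nat_lit 0) (nat_lit 0x7d836d6ba6) (nat_lit 1220561784),
  Rx.mk (nat_lit 313) (nat_lit 1) (nat_lit 7) (nat_lit 4) (nat_lit 3) (nat_lit 345) (nat_lit 289) r7_345 r4_289 (nat_lit 0) (nat_lit 0) (nat_lit 0) (nat_lit 0x7d43fd22ea) (nat_lit 1342198728),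
  Rx.mk (nat_lit 317) (nat_lit 5) (nat_lit 7) (nat_lit 4) (nat_lit 3) (nat_lit 338) (nat_lit 284) r7_338 r4_284 (nat_lit 0) (nat_lit 0) (nat_lit 0) (nat_lit 0x7d63fb62e6) (nat_lit 1280855160),
  Rx.mk (nat_lit 353) (nat_lit 1) (nat_lit 4) (nat_lit 5) (nat_lit 5) (nat_lit 342) (nat_lit 290) r7_342 r4_290 (nat_lit 0) (nat_lit 0) (nat_lit 0) (nat_lit 0x7d03f443b8) (nat_lit 1464978528),
  Rx.mk (nat_lit 361) (nat_lit 1) (nat_lit 5) (nat_lit 5) (nat_lit 7) (nat_lit 344) (nat_lit 291) r7_344 r4_291 (nat_lit 0) (nat_lit 0) (nat_lit 0) (nat_lit 0x7df0f9b274) (nat_lit 1010514960),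
  Rx.mk (nat_lit 377) (nat_lit 1) (nat_lit 7) (nat_lit 5) (nat_lit 7) (nat_lit 346) (nat_lit 292) r7_346 r4_292 (nat_lit 0) (nat_lit 0) (nat_lit 0) (nat_lit 0x7de07e1a3e) (nat_lit 1042119000),
  Rx.mk (nat_lit 381) (nat_lit 5) (nat_lit 7) (nat_lit 5) (nat_lit 7) (nat_lit 339) (nat_lit 285) r7_339 r4_285 (nat_lit 0) (nat_lit 0) (nat_lit 0) (nat_lit 0x7de0ae173e) (nat_lit 1041759576),
  Rx.mk (nat_lit 509) (nat_lit 5) (nat_lit 7) (nat_lit 7) (nat_lit 7) (nat_lit 340) (nat_lit 286) r7_340 r4_286 (nat_lit 0) (nat_lit 0) (nat_lit 0) (nat_lit 0x7dec75dab6) (nat_lit 1019172024)]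
noncomputable def e13_47 : List Rx := [
  Rx.mk (nat_lit 317) (nat_lit 5) (nat_lit 7) (nat_lit 4) (nat_lit 3) (nat_lit 351) (nat_lit 177) r7_351 r4_177 (nat_lit 0) (nat_lit 0) (nat_lit 0) (nat_lit 0x7dec271fa2) (nat_lit 1019761704),
  Rx.mk (nat_lit 381) (nat_lit 5) (nat_lit 7) (nat_lit 5) (nat_lit 7) (nat_lit 352) (nat_lit 178) r7_352 r4_178 (nat_lit 0) (nat_lit 0) (nat_lit 0) (nat_lit 0x7de75b4c64) (nat_lit 1028957904),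
  Rx.mk (nat_lit 445) (nat_lit 5) (nat_lit 7) (nat_lit 6) (nat_lit 7) (nat_lit 353) (nat_lit 180) r7_353 r4_180 (nat_lit 0) (nat_lit 0) (nat_lit 0) (nat_lit 0x7de78789a0) (nat_lit 1028626560),
  Rx.mk (nat_lit 509) (nat_lit 5) (nat_lit 7) (nat_lit 7) (nat_lit 7) (nat_lit 354) (nat_lit 179) r7_354 r4_179 (nat_lit 0) (nat_lit 0) (nat_lit 0) (nat_lit 0x7ddcf03320) (nat_lit 1048934016)]
noncomputable def e13_48 : List Rx := [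
  Rx.mk (nat_lit 317) (nat_lit 5) (nat_lit 7) (nat_lit 4) (nat_lit 3) (nat_lit 355) (nat_lit 317) r7_355 r9_317 (nat_lit 0) (nat_lit 0) (nat_lit 0) (nat_lit 0x7d5b2fafaa) (nat_lit 1297720008),
  Rx.mk (nat_lit 381) (nat_lit 5) (nat_lit 7) (nat_lit 5) (nat_lit 7) (nat_lit 356) (nat_lit 318) r7_356 r9_318 (nat_lit 0) (nat_lit 0) (nat_lit 0) (nat_lit 0x7db8a35812) (nat_lit 1118535912),
  Rx.mk (nat_lit 509) (nat_lit 5) (nat_lit 7) (nat_lit 7) (nat_lit 7) (nat_lit 357) (nat_lit 319) r7_357 r9_319 (nat_lit 0) (nat_lit 0) (nat_lit 0) (nat_lit 0x7ded4a0d72) (nat_lit 1017582696)]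
noncomputable def e13_49 : List Rx := [
  Rx.mk (nat_lit 317) (nat_lit 5) (nat_lit 7) (nat_lit 4) (nat_lit 3) (nat_lit 358) (nat_lit 335) r7_358 r10_335 (nat_lit 0) (nat_lit 0) (nat_lit 0) (nat_lit 0x7de88259f2) (nat_lit 1026748008),
  Rx.mk (nat_lit 381) (nat_lit 5) (nat_lit 7) (nat_lit 5) (nat_lit 7) (nat_lit 359) (nat_lit 336) r7_359 r10_336 (nat_lit 0) (nat_lit 0) (nat_lit 0) (nat_lit 0x7de822bfec) (nat_lit 1027464048),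
  Rx.mk (nat_lit 445) (nat_lit 5) (nat_lit 7) (nat_lit 6) (nat_lit 7) (nat_lit 360) (nat_lit 337) r7_360 r10_337 (nat_lit 0) (nat_lit 0) (nat_lit 0) (nat_lit 0x7df139ce72) (nat_lit 1010034792)]
noncomputable def e13_50 : List Rx := [
  Rx.mk (nat_lit 289) (nat_lit 1) (nat_lit 4) (nat_lit 4) (nat_lit 1) (nat_lit 368) (nat_lit 222) r7_368 r10_222 (nat_lit 0) (nat_lit 0) (nat_lit 0) (nat_lit 0x6dd2a647ca) (nat_lit 8922316104),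
  Rx.mk (nat_lit 297) (nat_lit 1) (nat_lit 5) (nat_lit 4) (nat_lit 3) (nat_lit 370) (nat_lit 224) r7_370 r10_224 (nat_lit 0) (nat_lit 0) (nat_lit 0) (nat_lit 0x7dd5e543d6) (nat_lit 1062437688),
  Rx.mk (nat_lit 313) (nat_lit 1) (nat_lit 7) (nat_lit 4) (nat_lit 3) (nat_lit 372) (nat_lit 226) r7_372 r10_226 (nat_lit 0) (nat_lit 0) (nat_lit 0) (nat_lit 0x7d483d1ee6) (nat_lit 1334049912),
  Rx.mk (nat_lit 353) (nat_lit 1) (nat_lit 4) (nat_lit 5) (nat_lit 5) (nat_lit 369) (nat_lit 223) r7_369 r10_223 (nat_lit 0) (nat_lit 0) (nat_lit 0) (nat_lit 0x7dce8599d8) (nat_lit 1076575968),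
  Rx.mk (nat_lit 361) (nat_lit 1) (nat_lit 5) (nat_lit 5) (nat_lit 7) (nat_lit 371) (nat_lit 225) r7_371 r10_225 (nat_lit 0) (nat_lit 0) (nat_lit 0) (nat_lit 0x7df118d082) (nat_lit 1010281896),
  Rx.mk (nat_lit 377) (nat_lit 1) (nat_lit 7) (nat_lit 5) (nat_lit 7) (nat_lit 373) (nat_lit 227) r7_373 r10_227 (nat_lit 0) (nat_lit 0) (nat_lit 0) (nat_lit 0x7df32a2f6a) (nat_lit 1006317000),
  Rx.mk (nat_lit 505) (nat_lit 1) (nat_lit 7) (nat_lit 7) (nat_lit 7) (nat_lit 374) (nat_lit 228) r7_374 r10_228 (nat_lit 0) (nat_lit 0) (nat_lit 0) (nat_lit 0x7de7266fb2) (nat_lit 1029353832),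
  Rx.mk (nat_lit 509) (nat_lit 5) (nat_lit 7) (nat_lit 7) (nat_lit 7) (nat_lit 367) (nat_lit 229) r7_367 r10_229 (nat_lit 0) (nat_lit 0) (nat_lit 0) (nat_lit 0x7ddf1c9058) (nat_lit 1044766944)]
noncomputable def e13_51 : List Rx := [
  Rx.mk (nat_lit 472) (nat_lit 0) (nat_lit 3) (nat_lit 7) (nat_lit 6) (nat_lit 58) (nat_lit 115) r7_58 r12_115 (nat_lit 0) (nat_lit 0) (nat_lit 0) (nat_lit 0x7e3efef1d2) (nat_lit 860918760),
  Rx.mk (nat_lit 473) (nat_lit 1) (nat_lit 3) (nat_lit 7) (nat_lit 7) (nat_lit 59) (nat_lit 116) r7_59 r12_116 (nat_lit 0) (nat_lit 0) (nat_lit 0) (nat_lit 0x7e2750acce) (nat_lit 906324120),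
  Rx.mk (nat_lit 475) (nat_lit 3) (nat_lit 3) (nat_lit 7) (nat_lit 7) (nat_lit 60) (nat_lit 117) r7_60 r12_117 (nat_lit 0) (nat_lit 0) (nat_lit 0) (nat_lit 0x7de1ad6748) (nat_lit 1039847328)]
noncomputable def e13_52 : List Rx := [
  Rx.mk (nat_lit 321) (nat_lit 1) (nat_lit 0) (nat_lit 5) (nat_lit 5) (nat_lit 74) (nat_lit 189) r7_74 r12_189 (nat_lit 0) (nat_lit 0) (nat_lit 0) (nat_lit 0x7dea1aa06c) (nat_lit 1023690096),
  Rx.mk (nat_lit 345) (nat_lit 1) (nat_lit 3) (nat_lit 5) (nat_lit 7) (nat_lit 75) (nat_lit 190) r7_75 r12_190 (nat_lit 0) (nat_lit 0) (nat_lit 0) (nat_lit 0x7e3b884940) (nat_lit 867559680)]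
noncomputable def e13_53 : List Rx := [
  Rx.mk (nat_lit 472) (nat_lit 0) (nat_lit 3) (nat_lit 7) (nat_lit 6) (nat_lit 202) (nat_lit 121) r7_202 r12_121 (nat_lit 0) (nat_lit 0) (nat_lit 0) (nat_lit 0x7def2a4f6c) (nat_lit 1013985648),
  Rx.mk (nat_lit 473) (nat_lit 1) (nat_lit 3) (nat_lit 7) (nat_lit 7) (nat_lit 204) (nat_lit 122) r7_204 r12_122 (nat_lit 0) (nat_lit 0) (nat_lit 0) (nat_lit 0x7e4966ab4c) (nat_lit 840967920),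
  Rx.mk (nat_lit 504) (nat_lit 0) (nat_lit 7) (nat_lit 7) (nat_lit 6) (nat_lit 201) (nat_lit 118) r7_201 r12_118 (nat_lit 0) (nat_lit 0) (nat_lit 0) (nat_lit 0x7cf07bdb52) (nat_lit 1502310888),
  Rx.mk (nat_lit 505) (nat_lit 1) (nat_lit 7) (nat_lit 7) (nat_lit 7) (nat_lit 203) (nat_lit 119) r7_203 r12_119 (nat_lit 0) (nat_lit 0) (nat_lit 0) (nat_lit 0x7deb792a82) (nat_lit 1021064616),
  Rx.mk (nat_lit 507) (nat_lit 3) (nat_lit 7) (nat_lit 7) (nat_lit 7) (nat_lit 205) (nat_lit 120) r7_205 r12_120 (nat_lit 0) (nat_lit 0) (nat_lit 0) (nat_lit 0x7df2ff7216) (nat_lit 1006637112)]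
noncomputable def e13_54 : List Rx := [
  Rx.mk (nat_lit 345) (nat_lit 1) (nat_lit 3) (nat_lit 5) (nat_lit 7) (nat_lit 218) (nat_lit 285) r7_218 r12_285 (nat_lit 0) (nat_lit 0) (nat_lit 0) (nat_lit 0x7e67fac1ec) (nat_lit 782336880)]
noncomputable def e13_55 : List Rx := [
  Rx.mk (nat_lit 289) (nat_lit 1) (nat_lit 4) (nat_lit 4) (nat_lit 1) (nat_lit 334) (nat_lit 263) r7_334 r3_263 (nat_lit 0) (nat_lit 0) (nat_lit 0) (nat_lit 0x6b3e98cb36) (nat_lit 10187898552),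
  Rx.mk (nat_lit 313) (nat_lit 1) (nat_lit 7) (nat_lit 4) (nat_lit 3) (nat_lit 336) (nat_lit 264) r7_336 r3_264 (nat_lit 0) (nat_lit 0) (nat_lit 0) (nat_lit 0x73f40d8b34) (nat_lit 5913148176),
  Rx.mk (nat_lit 317) (nat_lit 5) (nat_lit 7) (nat_lit 4) (nat_lit 3) (nat_lit 331) (nat_lit 260) r7_331 r3_260 (nat_lit 0) (nat_lit 0) (nat_lit 0) (nat_lit 0x6e724f8c96) (nat_lit 8616182328),
  Rx.mk (nat_lit 353) (nat_lit 1) (nat_lit 4) (nat_lit 5) (nat_lit 5) (nat_lit 335) (nat_lit 265) r7_335 r3_265 (nat_lit 0) (nat_lit 0) (nat_lit 0) (nat_lit 0x732efe9ce8) (nat_lit 6290987040),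
  Rx.mk (nat_lit 377) (nat_lit 1) (nat_lit 7) (nat_lit 5) (nat_lit 7) (nat_lit 337) (nat_lit 266) r7_337 r3_266 (nat_lit 0) (nat_lit 0) (nat_lit 0) (nat_lit 0x7c2ead98f8) (nat_lit 1873913184),
  Rx.mk (nat_lit 381) (nat_lit 5) (nat_lit 7) (nat_lit 5) (nat_lit 7) (nat_lit 332) (nat_lit 261) r7_332 r3_261 (nat_lit 0) (nat_lit 0) (nat_lit 0) (nat_lit 0x7bddb1e904) (nat_lit 2029189968),
  Rx.mk (nat_lit 509) (nat_lit 5) (nat_lit 7) (nat_lit 7) (nat_lit 7) (nat_lit 333) (nat_lit 262) r7_333 r3_262 (nat_lit 0) (nat_lit 0) (nat_lit 0) (nat_lit 0x7cba1941b2) (nat_lit 1606588776)]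
noncomputable def e13_56 : List Rx := [
  Rx.mk (nat_lit 313) (nat_lit 1) (nat_lit 7) (nat_lit 4) (nat_lit 3) (nat_lit 349) (nat_lit 271) r7_349 r12_271 (nat_lit 0) (nat_lit 0) (nat_lit 0) (nat_lit 0x7d458d29e8) (nat_lit 1339202592),
  Rx.mk (nat_lit 317) (nat_lit 5) (nat_lit 7) (nat_lit 4) (nat_lit 3) (nat_lit 347) (nat_lit 269) r7_347 r12_269 (nat_lit 0) (nat_lit 0) (nat_lit 0) (nat_lit 0x7d3189aa34) (nat_lit 1377576720),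
  Rx.mk (nat_lit 377) (nat_lit 1) (nat_lit 7) (nat_lit 5) (nat_lit 7) (nat_lit 350) (nat_lit 272) r7_350 r12_272 (nat_lit 0) (nat_lit 0) (nat_lit 0) (nat_lit 0x7dcaa7d7b8) (nat_lit 1083989088),
  Rx.mk (nat_lit 381) (nat_lit 5) (nat_lit 7) (nat_lit 5) (nat_lit 7) (nat_lit 348) (nat_lit 270) r7_348 r12_270 (nat_lit 0) (nat_lit 0) (nat_lit 0) (nat_lit 0x7df25e9c24) (nat_lit 1007841744)]
noncomputable def e13_57 : List Rx := [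
  Rx.mk (nat_lit 289) (nat_lit 1) (nat_lit 4) (nat_lit 4) (nat_lit 1) (nat_lit 362) (nat_lit 191) r7_362 r12_191 (nat_lit 0) (nat_lit 0) (nat_lit 0) (nat_lit 0x6335d77f54) (nat_lit 14131512720),
  Rx.mk (nat_lit 313) (nat_lit 1) (nat_lit 7) (nat_lit 4) (nat_lit 3) (nat_lit 364) (nat_lit 193) r7_364 r12_193 (nat_lit 0) (nat_lit 0) (nat_lit 0) (nat_lit 0x7c2c753c80) (nat_lit 1878170112),
  Rx.mk (nat_lit 353) (nat_lit 1) (nat_lit 4) (nat_lit 5) (nat_lit 5) (nat_lit 363) (nat_lit 192) r7_363 r12_192 (nat_lit 0) (nat_lit 0) (nat_lit 0) (nat_lit 0x7da6297fc2) (nat_lit 1153961640),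
  Rx.mk (nat_lit 377) (nat_lit 1) (nat_lit 7) (nat_lit 5) (nat_lit 7) (nat_lit 365) (nat_lit 194) r7_365 r12_194 (nat_lit 0) (nat_lit 0) (nat_lit 0) (nat_lit 0x7ddfee8338) (nat_lit 1043194464),
  Rx.mk (nat_lit 505) (nat_lit 1) (nat_lit 7) (nat_lit 7) (nat_lit 7) (nat_lit 366) (nat_lit 195) r7_366 r12_195 (nat_lit 0) (nat_lit 0) (nat_lit 0) (nat_lit 0x7dad63ac18) (nat_lit 1140104160),
  Rx.mk (nat_lit 509) (nat_lit 5) (nat_lit 7) (nat_lit 7) (nat_lit 7) (nat_lit 361) (nat_lit 196) r7_361 r12_196 (nat_lit 0) (nat_lit 0) (nat_lit 0) (nat_lit 0x7dd7808a20) (nat_lit 1059357312)]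
noncomputable def e13 : List (List Rx) := [e13_0, e13_1, e13_2, e13_3, e13_4, e13_5, e13_6, e13_7, e13_8, e13_9, e13_10, e13_11, e13_12, e13_13, e13_14, e13_15, e13_16, e13_17, e13_18, e13_19, e13_20, e13_21, e13_22, e13_23, e13_24, e13_25, e13_26, e13_27, e13_28, e13_29, e13_30, e13_31, e13_32, e13_33, e13_34, e13_35, e13_36, e13_37, e13_38, e13_39, e13_40, e13_41, e13_42, e13_43, e13_44, e13_45, e13_46, e13_47, e13_48, e13_49, e13_50, e13_51, e13_52, e13_53, e13_54, e13_55, e13_56, e13_57]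
noncomputable def e14_0 : List Rx := [
  Rx.mk (nat_lit 475) (nat_lit 3) (nat_lit 3) (nat_lit 7) (nat_lit 7) (nat_lit 76) (nat_lit 139) r7_76 r0_139 (nat_lit 0) (nat_lit 0) (nat_lit 0) (nat_lit 0x7dbbc6c5d8) (nat_lit 1112518368),
  Rx.mk (nat_lit 507) (nat_lit 3) (nat_lit 7) (nat_lit 7) (nat_lit 7) (nat_lit 77) (nat_lit 140) r7_77 r0_140 (nat_lit 0) (nat_lit 0) (nat_lit 0) (nat_lit 0x7dbbc6c5d8) (nat_lit 1112518368)]
noncomputable def e14_1 : List Rx := [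
  Rx.mk (nat_lit 0) (nat_lit 0) (nat_lit 0) (nat_lit 0) (nat_lit 0) (nat_lit 90) (nat_lit 141) r7_90 r1_141 (nat_lit 0) (nat_lit 0) (nat_lit 0) (nat_lit 0x3f2c1ddefa) (nat_lit 31820882184),
  Rx.mk (nat_lit 2) (nat_lit 2) (nat_lit 0) (nat_lit 0) (nat_lit 1) (nat_lit 91) (nat_lit 147) r7_91 r1_147 (nat_lit 0) (nat_lit 0) (nat_lit 0) (nat_lit 0x6698457512) (nat_lit 12470224104),
  Rx.mk (nat_lit 18) (nat_lit 2) (nat_lit 2) (nat_lit 0) (nat_lit 3) (nat_lit 92) (nat_lit 150) r7_92 r1_150 (nat_lit 0) (nat_lit 0) (nat_lit 0) (nat_lit 0x6657bb3df6) (nat_lit 12593972664),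
  Rx.mk (nat_lit 146) (nat_lit 2) (nat_lit 2) (nat_lit 2) (nat_lit 7) (nat_lit 93) (nat_lit 152) r7_93 r1_152 (nat_lit 0) (nat_lit 0) (nat_lit 0) (nat_lit 0x7cef2530be) (nat_lit 1504877400),
  Rx.mk (nat_lit 192) (nat_lit 0) (nat_lit 0) (nat_lit 3) (nat_lit 4) (nat_lit 94) (nat_lit 142) r7_94 r1_142 (nat_lit 0) (nat_lit 0) (nat_lit 0) (nat_lit 0x60f77387d2) (nat_lit 15232846824),
  Rx.mk (nat_lit 194) (nat_lit 2) (nat_lit 0) (nat_lit 3) (nat_lit 5) (nat_lit 95) (nat_lit 148) r7_95 r1_148 (nat_lit 0) (nat_lit 0) (nat_lit 0) (nat_lit 0x7d04f5d39e) (nat_lit 1463049432),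
  Rx.mk (nat_lit 210) (nat_lit 2) (nat_lit 2) (nat_lit 3) (nat_lit 7) (nat_lit 96) (nat_lit 151) r7_96 r1_151 (nat_lit 0) (nat_lit 0) (nat_lit 0) (nat_lit 0x7d83c7c600) (nat_lit 1219885056),
  Rx.mk (nat_lit 216) (nat_lit 0) (nat_lit 3) (nat_lit 3) (nat_lit 6) (nat_lit 97) (nat_lit 143) r7_97 r1_143 (nat_lit 0) (nat_lit 0) (nat_lit 0) (nat_lit 0x79f20f451a) (nat_lit 2971849608),
  Rx.mk (nat_lit 218) (nat_lit 2) (nat_lit 3) (nat_lit 3) (nat_lit 7) (nat_lit 98) (nat_lit 149) r7_98 r1_149 (nat_lit 0) (nat_lit 0) (nat_lit 0) (nat_lit 0x7df4f572b4) (nat_lit 1002877200),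
  Rx.mk (nat_lit 219) (nat_lit 3) (nat_lit 3) (nat_lit 3) (nat_lit 7) (nat_lit 99) (nat_lit 144) r7_99 r1_144 (nat_lit 0) (nat_lit 0) (nat_lit 0) (nat_lit 0x7dd6fab27e) (nat_lit 1060359768),
  Rx.mk (nat_lit 475) (nat_lit 3) (nat_lit 3) (nat_lit 7) (nat_lit 7) (nat_lit 100) (nat_lit 145) r7_100 r1_145 (nat_lit 0) (nat_lit 0) (nat_lit 0) (nat_lit 0x7dec661bb2) (nat_lit 1019289960),
  Rx.mk (nat_lit 507) (nat_lit 3) (nat_lit 7) (nat_lit 7) (nat_lit 7) (nat_lit 101) (nat_lit 146) r7_101 r1_146 (nat_lit 0) (nat_lit 0) (nat_lit 0) (nat_lit 0x7db6f07342) (nat_lit 1121793192)]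
noncomputable def e14_2 : List Rx := [
  Rx.mk (nat_lit 0) (nat_lit 0) (nat_lit 0) (nat_lit 0) (nat_lit 0) (nat_lit 257) (nat_lit 137) r7_257 r2_137 (nat_lit 0) (nat_lit 0) (nat_lit 0) (nat_lit 0x1e5f4facac) (nat_lit 47920884336),
  Rx.mk (nat_lit 2) (nat_lit 2) (nat_lit 0) (nat_lit 0) (nat_lit 1) (nat_lit 258) (nat_lit 141) r7_258 r2_141 (nat_lit 0) (nat_lit 0) (nat_lit 0) (nat_lit 0x645245d752) (nat_lit 13586145768),
  Rx.mk (nat_lit 18) (nat_lit 2) (nat_lit 2) (nat_lit 0) (nat_lit 3) (nat_lit 259) (nat_lit 144) r7_259 r2_144 (nat_lit 0) (nat_lit 0) (nat_lit 0) (nat_lit 0x7d4b54ed66) (nat_lit 1328119416),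
  Rx.mk (nat_lit 24) (nat_lit 0) (nat_lit 3) (nat_lit 0) (nat_lit 2) (nat_lit 260) (nat_lit 138) r7_260 r2_138 (nat_lit 0) (nat_lit 0) (nat_lit 0) (nat_lit 0x69fe864d9e) (nat_lit 10801603800),
  Rx.mk (nat_lit 26) (nat_lit 2) (nat_lit 3) (nat_lit 0) (nat_lit 3) (nat_lit 261) (nat_lit 142) r7_261 r2_142 (nat_lit 0) (nat_lit 0) (nat_lit 0) (nat_lit 0x7d878d89a0) (nat_lit 1212651648),
  Rx.mk (nat_lit 146) (nat_lit 2) (nat_lit 2) (nat_lit 2) (nat_lit 7) (nat_lit 262) (nat_lit 145) r7_262 r2_145 (nat_lit 0) (nat_lit 0) (nat_lit 0) (nat_lit 0x7dbed954ac) (nat_lit 1106627184),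
  Rx.mk (nat_lit 216) (nat_lit 0) (nat_lit 3) (nat_lit 3) (nat_lit 6) (nat_lit 263) (nat_lit 139) r7_263 r2_139 (nat_lit 0) (nat_lit 0) (nat_lit 0) (nat_lit 0x7cb4d0f63c) (nat_lit 1616717232),
  Rx.mk (nat_lit 218) (nat_lit 2) (nat_lit 3) (nat_lit 3) (nat_lit 7) (nat_lit 264) (nat_lit 143) r7_264 r2_143 (nat_lit 0) (nat_lit 0) (nat_lit 0) (nat_lit 0x7dbd458dea) (nat_lit 1109651400),
  Rx.mk (nat_lit 219) (nat_lit 3) (nat_lit 3) (nat_lit 3) (nat_lit 7) (nat_lit 265) (nat_lit 140) r7_265 r2_140 (nat_lit 0) (nat_lit 0) (nat_lit 0) (nat_lit 0x7dc01560ea) (nat_lit 1104260040)]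
noncomputable def e14_3 : List Rx := [
  Rx.mk (nat_lit 315) (nat_lit 3) (nat_lit 7) (nat_lit 4) (nat_lit 3) (nat_lit 43) (nat_lit 117) r7_43 r3_117 (nat_lit 0) (nat_lit 0) (nat_lit 0) (nat_lit 0x78cfd7a9b6) (nat_lit 3528310968),
  Rx.mk (nat_lit 379) (nat_lit 3) (nat_lit 7) (nat_lit 5) (nat_lit 7) (nat_lit 44) (nat_lit 118) r7_44 r3_118 (nat_lit 0) (nat_lit 0) (nat_lit 0) (nat_lit 0x7ed1aa068e) (nat_lit 579697560),
  Rx.mk (nat_lit 475) (nat_lit 3) (nat_lit 3) (nat_lit 7) (nat_lit 7) (nat_lit 45) (nat_lit 116) r7_45 r3_116 (nat_lit 0) (nat_lit 0) (nat_lit 0) (nat_lit 0x7c4848df2a) (nat_lit 1824815304),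
  Rx.mk (nat_lit 507) (nat_lit 3) (nat_lit 7) (nat_lit 7) (nat_lit 7) (nat_lit 46) (nat_lit 119) r7_46 r3_119 (nat_lit 0) (nat_lit 0) (nat_lit 0) (nat_lit 0x7c243dfffc) (nat_lit 1893922992)]
noncomputable def e14_4 : List Rx := [
  Rx.mk (nat_lit 315) (nat_lit 3) (nat_lit 7) (nat_lit 4) (nat_lit 3) (nat_lit 146) (nat_lit 126) r7_146 r4_126 (nat_lit 0) (nat_lit 0) (nat_lit 0) (nat_lit 0x7dc32eaf52) (nat_lit 1098318312),
  Rx.mk (nat_lit 475) (nat_lit 3) (nat_lit 3) (nat_lit 7) (nat_lit 7) (nat_lit 147) (nat_lit 125) r7_147 r4_125 (nat_lit 0) (nat_lit 0) (nat_lit 0) (nat_lit 0x7dca705b30) (nat_lit 1084404672),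
  Rx.mk (nat_lit 507) (nat_lit 3) (nat_lit 7) (nat_lit 7) (nat_lit 7) (nat_lit 148) (nat_lit 127) r7_148 r4_127 (nat_lit 0) (nat_lit 0) (nat_lit 0) (nat_lit 0x7dedaca748) (nat_lit 1016844192)]
noncomputable def e14_5 : List Rx := [
  Rx.mk (nat_lit 88) (nat_lit 0) (nat_lit 3) (nat_lit 1) (nat_lit 6) (nat_lit 331) (nat_lit 173) r7_331 r3_173 (nat_lit 0) (nat_lit 0) (nat_lit 0) (nat_lit 0x6e724f8c96) (nat_lit 8616182328),
  Rx.mk (nat_lit 89) (nat_lit 1) (nat_lit 3) (nat_lit 1) (nat_lit 7) (nat_lit 332) (nat_lit 175) r7_332 r3_175 (nat_lit 0) (nat_lit 0) (nat_lit 0) (nat_lit 0x7bddb1e904) (nat_lit 2029189968),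
  Rx.mk (nat_lit 91) (nat_lit 3) (nat_lit 3) (nat_lit 1) (nat_lit 7) (nat_lit 333) (nat_lit 176) r7_333 r3_176 (nat_lit 0) (nat_lit 0) (nat_lit 0) (nat_lit 0x7cba1941b2) (nat_lit 1606588776),
  Rx.mk (nat_lit 320) (nat_lit 0) (nat_lit 0) (nat_lit 5) (nat_lit 4) (nat_lit 334) (nat_lit 170) r7_334 r3_170 (nat_lit 0) (nat_lit 0) (nat_lit 0) (nat_lit 0x6b3e98cb36) (nat_lit 10187898552),
  Rx.mk (nat_lit 321) (nat_lit 1) (nat_lit 0) (nat_lit 5) (nat_lit 5) (nat_lit 335) (nat_lit 171) r7_335 r3_171 (nat_lit 0) (nat_lit 0) (nat_lit 0) (nat_lit 0x732efe9ce8) (nat_lit 6290987040),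
  Rx.mk (nat_lit 344) (nat_lit 0) (nat_lit 3) (nat_lit 5) (nat_lit 6) (nat_lit 336) (nat_lit 172) r7_336 r3_172 (nat_lit 0) (nat_lit 0) (nat_lit 0) (nat_lit 0x73f40d8b34) (nat_lit 5913148176),
  Rx.mk (nat_lit 345) (nat_lit 1) (nat_lit 3) (nat_lit 5) (nat_lit 7) (nat_lit 337) (nat_lit 174) r7_337 r3_174 (nat_lit 0) (nat_lit 0) (nat_lit 0) (nat_lit 0x7c2ead98f8) (nat_lit 1873913184)]
noncomputable def e14_6 : List Rx := [
  Rx.mk (nat_lit 64) (nat_lit 0) (nat_lit 0) (nat_lit 1) (nat_lit 4) (nat_lit 241) (nat_lit 188) r7_241 r0_188 (nat_lit 0) (nat_lit 0) (nat_lit 0) (nat_lit 0x6c14ae090c) (nat_lit 9777416688),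
  Rx.mk (nat_lit 65) (nat_lit 1) (nat_lit 0) (nat_lit 1) (nat_lit 5) (nat_lit 242) (nat_lit 189) r7_242 r0_189 (nat_lit 0) (nat_lit 0) (nat_lit 0) (nat_lit 0x7d632fcfa0) (nat_lit 1282379904),
  Rx.mk (nat_lit 66) (nat_lit 2) (nat_lit 0) (nat_lit 1) (nat_lit 5) (nat_lit 243) (nat_lit 190) r7_243 r0_190 (nat_lit 0) (nat_lit 0) (nat_lit 0) (nat_lit 0x7e4de063ac) (nat_lit 832386672),
  Rx.mk (nat_lit 88) (nat_lit 0) (nat_lit 3) (nat_lit 1) (nat_lit 6) (nat_lit 244) (nat_lit 191) r7_244 r0_191 (nat_lit 0) (nat_lit 0) (nat_lit 0) (nat_lit 0x7dd6cb7572) (nat_lit 1060713576),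
  Rx.mk (nat_lit 89) (nat_lit 1) (nat_lit 3) (nat_lit 1) (nat_lit 7) (nat_lit 245) (nat_lit 192) r7_245 r0_192 (nat_lit 0) (nat_lit 0) (nat_lit 0) (nat_lit 0x7df79428c6) (nat_lit 997853688),
  Rx.mk (nat_lit 90) (nat_lit 2) (nat_lit 3) (nat_lit 1) (nat_lit 7) (nat_lit 246) (nat_lit 194) r7_246 r0_194 (nat_lit 0) (nat_lit 0) (nat_lit 0) (nat_lit 0x7de0607c18) (nat_lit 1042340832),
  Rx.mk (nat_lit 91) (nat_lit 3) (nat_lit 3) (nat_lit 1) (nat_lit 7) (nat_lit 247) (nat_lit 193) r7_247 r0_193 (nat_lit 0) (nat_lit 0) (nat_lit 0) (nat_lit 0x7de7422df6) (nat_lit 1029146040)]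
noncomputable def e14_7 : List Rx := [
  Rx.mk (nat_lit 0) (nat_lit 0) (nat_lit 0) (nat_lit 0) (nat_lit 0) (nat_lit 283) (nat_lit 201) r7_283 r1_201 (nat_lit 0) (nat_lit 0) (nat_lit 0) (nat_lit 0x34358c330c) (nat_lit 37202186736),
  Rx.mk (nat_lit 2) (nat_lit 2) (nat_lit 0) (nat_lit 0) (nat_lit 1) (nat_lit 284) (nat_lit 204) r7_284 r1_204 (nat_lit 0) (nat_lit 0) (nat_lit 0) (nat_lit 0x689c4c929c) (nat_lit 11480794416),
  Rx.mk (nat_lit 18) (nat_lit 2) (nat_lit 2) (nat_lit 0) (nat_lit 3) (nat_lit 285) (nat_lit 214) r7_285 r1_214 (nat_lit 0) (nat_lit 0) (nat_lit 0) (nat_lit 0x5d3c3f5ed0) (nat_lit 17064350784),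
  Rx.mk (nat_lit 24) (nat_lit 0) (nat_lit 3) (nat_lit 0) (nat_lit 2) (nat_lit 286) (nat_lit 206) r7_286 r1_206 (nat_lit 0) (nat_lit 0) (nat_lit 0) (nat_lit 0x6ddf3cfe52) (nat_lit 8898178536),
  Rx.mk (nat_lit 26) (nat_lit 2) (nat_lit 3) (nat_lit 0) (nat_lit 3) (nat_lit 287) (nat_lit 212) r7_287 r1_212 (nat_lit 0) (nat_lit 0) (nat_lit 0) (nat_lit 0x7db4c29622) (nat_lit 1125971496),
  Rx.mk (nat_lit 27) (nat_lit 3) (nat_lit 3) (nat_lit 0) (nat_lit 3) (nat_lit 288) (nat_lit 209) r7_288 r1_209 (nat_lit 0) (nat_lit 0) (nat_lit 0) (nat_lit 0x7de4743ad8) (nat_lit 1034523360),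
  Rx.mk (nat_lit 64) (nat_lit 0) (nat_lit 0) (nat_lit 1) (nat_lit 4) (nat_lit 289) (nat_lit 202) r7_289 r1_202 (nat_lit 0) (nat_lit 0) (nat_lit 0) (nat_lit 0x694567a042) (nat_lit 11156551848),
  Rx.mk (nat_lit 65) (nat_lit 1) (nat_lit 0) (nat_lit 1) (nat_lit 5) (nat_lit 290) (nat_lit 203) r7_290 r1_203 (nat_lit 0) (nat_lit 0) (nat_lit 0) (nat_lit 0x7d333feece) (nat_lit 1374294168),
  Rx.mk (nat_lit 66) (nat_lit 2) (nat_lit 0) (nat_lit 1) (nat_lit 5) (nat_lit 291) (nat_lit 205) r7_291 r1_205 (nat_lit 0) (nat_lit 0) (nat_lit 0) (nat_lit 0x7d4016c154) (nat_lit 1349676432),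
  Rx.mk (nat_lit 82) (nat_lit 2) (nat_lit 2) (nat_lit 1) (nat_lit 7) (nat_lit 292) (nat_lit 215) r7_292 r1_215 (nat_lit 0) (nat_lit 0) (nat_lit 0) (nat_lit 0x7c3cb238a0) (nat_lit 1847035008),
  Rx.mk (nat_lit 88) (nat_lit 0) (nat_lit 3) (nat_lit 1) (nat_lit 6) (nat_lit 293) (nat_lit 207) r7_293 r1_207 (nat_lit 0) (nat_lit 0) (nat_lit 0) (nat_lit 0x7c8fc726fe) (nat_lit 1687734360),
  Rx.mk (nat_lit 89) (nat_lit 1) (nat_lit 3) (nat_lit 1) (nat_lit 7) (nat_lit 294) (nat_lit 208) r7_294 r1_208 (nat_lit 0) (nat_lit 0) (nat_lit 0) (nat_lit 0x7db7bde66a) (nat_lit 1120254408),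
  Rx.mk (nat_lit 90) (nat_lit 2) (nat_lit 3) (nat_lit 1) (nat_lit 7) (nat_lit 295) (nat_lit 213) r7_295 r1_213 (nat_lit 0) (nat_lit 0) (nat_lit 0) (nat_lit 0x7db90e3164) (nat_lit 1117735632),
  Rx.mk (nat_lit 91) (nat_lit 3) (nat_lit 3) (nat_lit 1) (nat_lit 7) (nat_lit 296) (nat_lit 210) r7_296 r1_210 (nat_lit 0) (nat_lit 0) (nat_lit 0) (nat_lit 0x7dd2f1d310) (nat_lit 1068095808),
  Rx.mk (nat_lit 146) (nat_lit 2) (nat_lit 2) (nat_lit 2) (nat_lit 7) (nat_lit 297) (nat_lit 216) r7_297 r1_216 (nat_lit 0) (nat_lit 0) (nat_lit 0) (nat_lit 0x78ed89ae78) (nat_lit 3471373152),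
  Rx.mk (nat_lit 219) (nat_lit 3) (nat_lit 3) (nat_lit 3) (nat_lit 7) (nat_lit 298) (nat_lit 211) r7_298 r1_211 (nat_lit 0) (nat_lit 0) (nat_lit 0) (nat_lit 0x7deaa7f796) (nat_lit 1022631480)]
noncomputable def e14_8 : List Rx := [
  Rx.mk (nat_lit 88) (nat_lit 0) (nat_lit 3) (nat_lit 1) (nat_lit 6) (nat_lit 351) (nat_lit 177) r7_351 r4_177 (nat_lit 0) (nat_lit 0) (nat_lit 0) (nat_lit 0x7dec271fa2) (nat_lit 1019761704),
  Rx.mk (nat_lit 89) (nat_lit 1) (nat_lit 3) (nat_lit 1) (nat_lit 7) (nat_lit 352) (nat_lit 178) r7_352 r4_178 (nat_lit 0) (nat_lit 0) (nat_lit 0) (nat_lit 0x7de75b4c64) (nat_lit 1028957904),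
  Rx.mk (nat_lit 90) (nat_lit 2) (nat_lit 3) (nat_lit 1) (nat_lit 7) (nat_lit 353) (nat_lit 180) r7_353 r4_180 (nat_lit 0) (nat_lit 0) (nat_lit 0) (nat_lit 0x7de78789a0) (nat_lit 1028626560),
  Rx.mk (nat_lit 91) (nat_lit 3) (nat_lit 3) (nat_lit 1) (nat_lit 7) (nat_lit 354) (nat_lit 179) r7_354 r4_179 (nat_lit 0) (nat_lit 0) (nat_lit 0) (nat_lit 0x7ddcf03320) (nat_lit 1048934016)]
noncomputable def e14_9 : List Rx := [
  Rx.mk (nat_lit 344) (nat_lit 0) (nat_lit 3) (nat_lit 5) (nat_lit 6) (nat_lit 221) (nat_lit 122) r7_221 r5_122 (nat_lit 0) (nat_lit 0) (nat_lit 0) (nat_lit 0x7dbcf8b2b8) (nat_lit 1110227040),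
  Rx.mk (nat_lit 345) (nat_lit 1) (nat_lit 3) (nat_lit 5) (nat_lit 7) (nat_lit 222) (nat_lit 123) r7_222 r5_123 (nat_lit 0) (nat_lit 0) (nat_lit 0) (nat_lit 0x7e020c013e) (nat_lit 977782104),
  Rx.mk (nat_lit 347) (nat_lit 3) (nat_lit 3) (nat_lit 5) (nat_lit 7) (nat_lit 223) (nat_lit 124) r7_223 r5_124 (nat_lit 0) (nat_lit 0) (nat_lit 0) (nat_lit 0x7dedf682aa) (nat_lit 1016291016),
  Rx.mk (nat_lit 379) (nat_lit 3) (nat_lit 7) (nat_lit 5) (nat_lit 7) (nat_lit 224) (nat_lit 125) r7_224 r5_125 (nat_lit 0) (nat_lit 0) (nat_lit 0) (nat_lit 0x7dd520102a) (nat_lit 1063914696)]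
noncomputable def e14_10 : List Rx := [
  Rx.mk (nat_lit 292) (nat_lit 4) (nat_lit 4) (nat_lit 4) (nat_lit 0) (nat_lit 0) (nat_lit 124) r7_0 r0_124 (nat_lit 0) (nat_lit 0) (nat_lit 0) (nat_lit 0x26656fa2a6) (nat_lit 43982313336),
  Rx.mk (nat_lit 295) (nat_lit 7) (nat_lit 4) (nat_lit 4) (nat_lit 1) (nat_lit 1) (nat_lit 125) r7_1 r0_125 (nat_lit 0) (nat_lit 0) (nat_lit 0) (nat_lit 0x5777047844) (nat_lit 19896786000),
  Rx.mk (nat_lit 319) (nat_lit 7) (nat_lit 7) (nat_lit 4) (nat_lit 3) (nat_lit 2) (nat_lit 126) r7_2 r0_126 (nat_lit 0) (nat_lit 0) (nat_lit 0) (nat_lit 0x7aa48cbc90) (nat_lit 2629613376),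
  Rx.mk (nat_lit 356) (nat_lit 4) (nat_lit 4) (nat_lit 5) (nat_lit 4) (nat_lit 3) (nat_lit 127) r7_3 r0_127 (nat_lit 0) (nat_lit 0) (nat_lit 0) (nat_lit 0x6ccff433ee) (nat_lit 9418338072),
  Rx.mk (nat_lit 359) (nat_lit 7) (nat_lit 4) (nat_lit 5) (nat_lit 5) (nat_lit 4) (nat_lit 128) r7_4 r0_128 (nat_lit 0) (nat_lit 0) (nat_lit 0) (nat_lit 0x7d33d4058c) (nat_lit 1373185008),
  Rx.mk (nat_lit 383) (nat_lit 7) (nat_lit 7) (nat_lit 5) (nat_lit 7) (nat_lit 5) (nat_lit 129) r7_5 r0_129 (nat_lit 0) (nat_lit 0) (nat_lit 0) (nat_lit 0x7dee6ffb12) (nat_lit 1015381224),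
  Rx.mk (nat_lit 420) (nat_lit 4) (nat_lit 4) (nat_lit 6) (nat_lit 4) (nat_lit 6) (nat_lit 133) r7_6 r0_133 (nat_lit 0) (nat_lit 0) (nat_lit 0) (nat_lit 0x62b0ff8d58) (nat_lit 14386226400),
  Rx.mk (nat_lit 423) (nat_lit 7) (nat_lit 4) (nat_lit 6) (nat_lit 5) (nat_lit 7) (nat_lit 134) r7_7 r0_134 (nat_lit 0) (nat_lit 0) (nat_lit 0) (nat_lit 0x7d34a4d87e) (nat_lit 1371620952),
  Rx.mk (nat_lit 436) (nat_lit 4) (nat_lit 6) (nat_lit 6) (nat_lit 6) (nat_lit 8) (nat_lit 136) r7_8 r0_136 (nat_lit 0) (nat_lit 0) (nat_lit 0) (nat_lit 0x7c3f4c0f00) (nat_lit 1842048000),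
  Rx.mk (nat_lit 438) (nat_lit 6) (nat_lit 6) (nat_lit 6) (nat_lit 7) (nat_lit 9) (nat_lit 138) r7_9 r0_138 (nat_lit 0) (nat_lit 0) (nat_lit 0) (nat_lit 0x7db74b2d96) (nat_lit 1121113656),
  Rx.mk (nat_lit 439) (nat_lit 7) (nat_lit 6) (nat_lit 6) (nat_lit 7) (nat_lit 10) (nat_lit 137) r7_10 r0_137 (nat_lit 0) (nat_lit 0) (nat_lit 0) (nat_lit 0x7df1e163f8) (nat_lit 1008779616),
  Rx.mk (nat_lit 447) (nat_lit 7) (nat_lit 7) (nat_lit 6) (nat_lit 7) (nat_lit 11) (nat_lit 135) r7_11 r0_135 (nat_lit 0) (nat_lit 0) (nat_lit 0) (nat_lit 0x7de50491d2) (nat_lit 1033442280),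
  Rx.mk (nat_lit 475) (nat_lit 3) (nat_lit 3) (nat_lit 7) (nat_lit 7) (nat_lit 12) (nat_lit 132) r7_12 r0_132 (nat_lit 0) (nat_lit 0) (nat_lit 0) (nat_lit 0x7df4ed3338) (nat_lit 1002938976),
  Rx.mk (nat_lit 507) (nat_lit 3) (nat_lit 7) (nat_lit 7) (nat_lit 7) (nat_lit 13) (nat_lit 131) r7_13 r0_131 (nat_lit 0) (nat_lit 0) (nat_lit 0) (nat_lit 0x7dcfeb437c) (nat_lit 1073897136),
  Rx.mk (nat_lit 511) (nat_lit 7) (nat_lit 7) (nat_lit 7) (nat_lit 7) (nat_lit 14) (nat_lit 130) r7_14 r0_130 (nat_lit 0) (nat_lit 0) (nat_lit 0) (nat_lit 0x7da85dbc7c) (nat_lit 1149735600)]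
noncomputable def e14_11 : List Rx := [
  Rx.mk (nat_lit 292) (nat_lit 4) (nat_lit 4) (nat_lit 4) (nat_lit 0) (nat_lit 78) (nat_lit 150) r7_78 r6_150 (nat_lit 0) (nat_lit 0) (nat_lit 0) (nat_lit 0x1522d75d6e) (nat_lit 52454509848),
  Rx.mk (nat_lit 295) (nat_lit 7) (nat_lit 4) (nat_lit 4) (nat_lit 1) (nat_lit 79) (nat_lit 153) r7_79 r6_153 (nat_lit 0) (nat_lit 0) (nat_lit 0) (nat_lit 0x4c4a1c91f0) (nat_lit 25382275776),
  Rx.mk (nat_lit 319) (nat_lit 7) (nat_lit 7) (nat_lit 4) (nat_lit 3) (nat_lit 80) (nat_lit 155) r7_80 r6_155 (nat_lit 0) (nat_lit 0) (nat_lit 0) (nat_lit 0x7cc30772c6) (nat_lit 1589465592),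
  Rx.mk (nat_lit 420) (nat_lit 4) (nat_lit 4) (nat_lit 6) (nat_lit 4) (nat_lit 81) (nat_lit 151) r7_81 r6_151 (nat_lit 0) (nat_lit 0) (nat_lit 0) (nat_lit 0x5f26a1d6be) (nat_lit 16124089176),
  Rx.mk (nat_lit 423) (nat_lit 7) (nat_lit 4) (nat_lit 6) (nat_lit 5) (nat_lit 82) (nat_lit 154) r7_82 r6_154 (nat_lit 0) (nat_lit 0) (nat_lit 0) (nat_lit 0x7d7099f8f0) (nat_lit 1256658624),
  Rx.mk (nat_lit 436) (nat_lit 4) (nat_lit 6) (nat_lit 6) (nat_lit 6) (nat_lit 83) (nat_lit 152) r7_83 r6_152 (nat_lit 0) (nat_lit 0) (nat_lit 0) (nat_lit 0x7cf5e524b8) (nat_lit 1491935328),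
  Rx.mk (nat_lit 438) (nat_lit 6) (nat_lit 6) (nat_lit 6) (nat_lit 7) (nat_lit 84) (nat_lit 159) r7_84 r6_159 (nat_lit 0) (nat_lit 0) (nat_lit 0) (nat_lit 0x7daf4b6d9a) (nat_lit 1136450952),
  Rx.mk (nat_lit 439) (nat_lit 7) (nat_lit 6) (nat_lit 6) (nat_lit 7) (nat_lit 85) (nat_lit 158) r7_85 r6_158 (nat_lit 0) (nat_lit 0) (nat_lit 0) (nat_lit 0x7de9a4e7c8) (nat_lit 1024571808),
  Rx.mk (nat_lit 447) (nat_lit 7) (nat_lit 7) (nat_lit 6) (nat_lit 7) (nat_lit 86) (nat_lit 157) r7_86 r6_157 (nat_lit 0) (nat_lit 0) (nat_lit 0) (nat_lit 0x7da9f1833e) (nat_lit 1146711384),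
  Rx.mk (nat_lit 475) (nat_lit 3) (nat_lit 3) (nat_lit 7) (nat_lit 7) (nat_lit 87) (nat_lit 148) r7_87 r6_148 (nat_lit 0) (nat_lit 0) (nat_lit 0) (nat_lit 0x7df4627be4) (nat_lit 1003977936),
  Rx.mk (nat_lit 507) (nat_lit 3) (nat_lit 7) (nat_lit 7) (nat_lit 7) (nat_lit 88) (nat_lit 149) r7_88 r6_149 (nat_lit 0) (nat_lit 0) (nat_lit 0) (nat_lit 0x7de5d2c4ee) (nat_lit 1031897880),
  Rx.mk (nat_lit 511) (nat_lit 7) (nat_lit 7) (nat_lit 7) (nat_lit 7) (nat_lit 89) (nat_lit 156) r7_89 r6_156 (nat_lit 0) (nat_lit 0) (nat_lit 0) (nat_lit 0x7d97b946d4) (nat_lit 1181645712)]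
noncomputable def e14_12 : List Rx := [
  Rx.mk (nat_lit 292) (nat_lit 4) (nat_lit 4) (nat_lit 4) (nat_lit 0) (nat_lit 15) (nat_lit 131) r7_15 r1_131 (nat_lit 0) (nat_lit 0) (nat_lit 0) (nat_lit 0x3a4548f130) (nat_lit 34226891712),
  Rx.mk (nat_lit 295) (nat_lit 7) (nat_lit 4) (nat_lit 4) (nat_lit 1) (nat_lit 16) (nat_lit 132) r7_16 r1_132 (nat_lit 0) (nat_lit 0) (nat_lit 0) (nat_lit 0x719cb8e2d6) (nat_lit 7062302520),
  Rx.mk (nat_lit 319) (nat_lit 7) (nat_lit 7) (nat_lit 4) (nat_lit 3) (nat_lit 17) (nat_lit 133) r7_17 r1_133 (nat_lit 0) (nat_lit 0) (nat_lit 0) (nat_lit 0x7d4b722b92) (nat_lit 1327900392),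
  Rx.mk (nat_lit 356) (nat_lit 4) (nat_lit 4) (nat_lit 5) (nat_lit 4) (nat_lit 18) (nat_lit 134) r7_18 r1_134 (nat_lit 0) (nat_lit 0) (nat_lit 0) (nat_lit 0x713c198d2c) (nat_lit 7247565936),
  Rx.mk (nat_lit 359) (nat_lit 7) (nat_lit 4) (nat_lit 5) (nat_lit 5) (nat_lit 19) (nat_lit 135) r7_19 r1_135 (nat_lit 0) (nat_lit 0) (nat_lit 0) (nat_lit 0x7dcb8c896c) (nat_lit 1082276208),
  Rx.mk (nat_lit 383) (nat_lit 7) (nat_lit 7) (nat_lit 5) (nat_lit 7) (nat_lit 20) (nat_lit 136) r7_20 r1_136 (nat_lit 0) (nat_lit 0) (nat_lit 0) (nat_lit 0x7ddfbee632) (nat_lit 1043551080),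
  Rx.mk (nat_lit 420) (nat_lit 4) (nat_lit 4) (nat_lit 6) (nat_lit 4) (nat_lit 21) (nat_lit 138) r7_21 r1_138 (nat_lit 0) (nat_lit 0) (nat_lit 0) (nat_lit 0x6d86155126) (nat_lit 9069123960),
  Rx.mk (nat_lit 436) (nat_lit 4) (nat_lit 6) (nat_lit 6) (nat_lit 6) (nat_lit 22) (nat_lit 139) r7_22 r1_139 (nat_lit 0) (nat_lit 0) (nat_lit 0) (nat_lit 0x78d44382f4) (nat_lit 3519833616),
  Rx.mk (nat_lit 438) (nat_lit 6) (nat_lit 6) (nat_lit 6) (nat_lit 7) (nat_lit 23) (nat_lit 140) r7_23 r1_140 (nat_lit 0) (nat_lit 0) (nat_lit 0) (nat_lit 0x7d782dbfac) (nat_lit 1242130032),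
  Rx.mk (nat_lit 511) (nat_lit 7) (nat_lit 7) (nat_lit 7) (nat_lit 7) (nat_lit 24) (nat_lit 137) r7_24 r1_137 (nat_lit 0) (nat_lit 0) (nat_lit 0) (nat_lit 0x7dd37a4a88) (nat_lit 1067073696)]
noncomputable def e14_13 : List Rx := [
  Rx.mk (nat_lit 292) (nat_lit 4) (nat_lit 4) (nat_lit 4) (nat_lit 0) (nat_lit 126) (nat_lit 126) r7_126 r7_126 (nat_lit 0) (nat_lit 0) (nat_lit 0) (nat_lit 0x57c45ec252) (nat_lit 19748470248),
  Rx.mk (nat_lit 295) (nat_lit 7) (nat_lit 4) (nat_lit 4) (nat_lit 1) (nat_lit 127) (nat_lit 129) r7_127 r7_129 (nat_lit 0) (nat_lit 0) (nat_lit 0) (nat_lit 0x62d0065ccc) (nat_lit 14326736112),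
  Rx.mk (nat_lit 319) (nat_lit 7) (nat_lit 7) (nat_lit 4) (nat_lit 3) (nat_lit 128) (nat_lit 130) r7_128 r7_130 (nat_lit 0) (nat_lit 0) (nat_lit 0) (nat_lit 0x7d8535af20) (nat_lit 1217144448),
  Rx.mk (nat_lit 420) (nat_lit 4) (nat_lit 4) (nat_lit 6) (nat_lit 4) (nat_lit 129) (nat_lit 127) r7_129 r7_127 (nat_lit 0) (nat_lit 0) (nat_lit 0) (nat_lit 0x62d0065ccc) (nat_lit 14326736112),
  Rx.mk (nat_lit 436) (nat_lit 4) (nat_lit 6) (nat_lit 6) (nat_lit 6) (nat_lit 130) (nat_lit 128) r7_130 r7_128 (nat_lit 0) (nat_lit 0) (nat_lit 0) (nat_lit 0x7d8535af20) (nat_lit 1217144448),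
  Rx.mk (nat_lit 438) (nat_lit 6) (nat_lit 6) (nat_lit 6) (nat_lit 7) (nat_lit 131) (nat_lit 132) r7_131 r7_132 (nat_lit 0) (nat_lit 0) (nat_lit 0) (nat_lit 0x7dc303320a) (nat_lit 1098644040),
  Rx.mk (nat_lit 511) (nat_lit 7) (nat_lit 7) (nat_lit 7) (nat_lit 7) (nat_lit 132) (nat_lit 131) r7_132 r7_131 (nat_lit 0) (nat_lit 0) (nat_lit 0) (nat_lit 0x7dc303320a) (nat_lit 1098644040)]
noncomputable def e14_14 : List Rx := [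
  Rx.mk (nat_lit 0) (nat_lit 0) (nat_lit 0) (nat_lit 0) (nat_lit 0) (nat_lit 102) (nat_lit 114) r7_102 r7_114 (nat_lit 0) (nat_lit 0) (nat_lit 0) (nat_lit 0x37e5b76ca8) (nat_lit 35391841056),
  Rx.mk (nat_lit 2) (nat_lit 2) (nat_lit 0) (nat_lit 0) (nat_lit 1) (nat_lit 103) (nat_lit 115) r7_103 r7_115 (nat_lit 0) (nat_lit 0) (nat_lit 0) (nat_lit 0x4cd945bece) (nat_lit 25107779736),
  Rx.mk (nat_lit 18) (nat_lit 2) (nat_lit 2) (nat_lit 0) (nat_lit 3) (nat_lit 104) (nat_lit 116) r7_104 r7_116 (nat_lit 0) (nat_lit 0) (nat_lit 0) (nat_lit 0x768ec17d5a) (nat_lit 4634814600),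
  Rx.mk (nat_lit 146) (nat_lit 2) (nat_lit 2) (nat_lit 2) (nat_lit 7) (nat_lit 105) (nat_lit 125) r7_105 r7_125 (nat_lit 0) (nat_lit 0) (nat_lit 0) (nat_lit 0x7d9bc765ee) (nat_lit 1173870360),
  Rx.mk (nat_lit 150) (nat_lit 6) (nat_lit 2) (nat_lit 2) (nat_lit 7) (nat_lit 106) (nat_lit 124) r7_106 r7_124 (nat_lit 0) (nat_lit 0) (nat_lit 0) (nat_lit 0x7de62b9f60) (nat_lit 1031232384),
  Rx.mk (nat_lit 182) (nat_lit 6) (nat_lit 6) (nat_lit 2) (nat_lit 7) (nat_lit 107) (nat_lit 123) r7_107 r7_123 (nat_lit 0) (nat_lit 0) (nat_lit 0) (nat_lit 0x7d7c97b908) (nat_lit 1233666720),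
  Rx.mk (nat_lit 192) (nat_lit 0) (nat_lit 0) (nat_lit 3) (nat_lit 4) (nat_lit 108) (nat_lit 117) r7_108 r7_117 (nat_lit 0) (nat_lit 0) (nat_lit 0) (nat_lit 0x5ed3604b2a) (nat_lit 16283723976),
  Rx.mk (nat_lit 194) (nat_lit 2) (nat_lit 0) (nat_lit 3) (nat_lit 5) (nat_lit 109) (nat_lit 118) r7_109 r7_118 (nat_lit 0) (nat_lit 0) (nat_lit 0) (nat_lit 0x7cd4dc5566) (nat_lit 1555275384),
  Rx.mk (nat_lit 210) (nat_lit 2) (nat_lit 2) (nat_lit 3) (nat_lit 7) (nat_lit 110) (nat_lit 122) r7_110 r7_122 (nat_lit 0) (nat_lit 0) (nat_lit 0) (nat_lit 0x7df5730ada) (nat_lit 1001936520),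
  Rx.mk (nat_lit 216) (nat_lit 0) (nat_lit 3) (nat_lit 3) (nat_lit 6) (nat_lit 111) (nat_lit 119) r7_111 r7_119 (nat_lit 0) (nat_lit 0) (nat_lit 0) (nat_lit 0x7b14dd3718) (nat_lit 2414262240),
  Rx.mk (nat_lit 218) (nat_lit 2) (nat_lit 3) (nat_lit 3) (nat_lit 7) (nat_lit 112) (nat_lit 121) r7_112 r7_121 (nat_lit 0) (nat_lit 0) (nat_lit 0) (nat_lit 0x7de25d3c4a) (nat_lit 1038530376),
  Rx.mk (nat_lit 219) (nat_lit 3) (nat_lit 3) (nat_lit 3) (nat_lit 7) (nat_lit 113) (nat_lit 120) r7_113 r7_120 (nat_lit 0) (nat_lit 0) (nat_lit 0) (nat_lit 0x7da43f1e6a) (nat_lit 1157634504),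
  Rx.mk (nat_lit 292) (nat_lit 4) (nat_lit 4) (nat_lit 4) (nat_lit 0) (nat_lit 114) (nat_lit 102) r7_114 r7_102 (nat_lit 0) (nat_lit 0) (nat_lit 0) (nat_lit 0x37e5b76ca8) (nat_lit 35391841056),
  Rx.mk (nat_lit 295) (nat_lit 7) (nat_lit 4) (nat_lit 4) (nat_lit 1) (nat_lit 115) (nat_lit 103) r7_115 r7_103 (nat_lit 0) (nat_lit 0) (nat_lit 0) (nat_lit 0x4cd945bece) (nat_lit 25107779736),
  Rx.mk (nat_lit 319) (nat_lit 7) (nat_lit 7) (nat_lit 4) (nat_lit 3) (nat_lit 116) (nat_lit 104) r7_116 r7_104 (nat_lit 0) (nat_lit 0) (nat_lit 0) (nat_lit 0x768ec17d5a) (nat_lit 4634814600),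
  Rx.mk (nat_lit 420) (nat_lit 4) (nat_lit 4) (nat_lit 6) (nat_lit 4) (nat_lit 117) (nat_lit 108) r7_117 r7_108 (nat_lit 0) (nat_lit 0) (nat_lit 0) (nat_lit 0x5ed3604b2a) (nat_lit 16283723976),
  Rx.mk (nat_lit 423) (nat_lit 7) (nat_lit 4) (nat_lit 6) (nat_lit 5) (nat_lit 118) (nat_lit 109) r7_118 r7_109 (nat_lit 0) (nat_lit 0) (nat_lit 0) (nat_lit 0x7cd4dc5566) (nat_lit 1555275384),
  Rx.mk (nat_lit 436) (nat_lit 4) (nat_lit 6) (nat_lit 6) (nat_lit 6) (nat_lit 119) (nat_lit 111) r7_119 r7_111 (nat_lit 0) (nat_lit 0) (nat_lit 0) (nat_lit 0x7b14dd3718) (nat_lit 2414262240),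
  Rx.mk (nat_lit 438) (nat_lit 6) (nat_lit 6) (nat_lit 6) (nat_lit 7) (nat_lit 120) (nat_lit 113) r7_120 r7_113 (nat_lit 0) (nat_lit 0) (nat_lit 0) (nat_lit 0x7da43f1e6a) (nat_lit 1157634504),
  Rx.mk (nat_lit 439) (nat_lit 7) (nat_lit 6) (nat_lit 6) (nat_lit 7) (nat_lit 121) (nat_lit 112) r7_121 r7_112 (nat_lit 0) (nat_lit 0) (nat_lit 0) (nat_lit 0x7de25d3c4a) (nat_lit 1038530376),
  Rx.mk (nat_lit 447) (nat_lit 7) (nat_lit 7) (nat_lit 6) (nat_lit 7) (nat_lit 122) (nat_lit 110) r7_122 r7_110 (nat_lit 0) (nat_lit 0) (nat_lit 0) (nat_lit 0x7df5730ada) (nat_lit 1001936520),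
  Rx.mk (nat_lit 475) (nat_lit 3) (nat_lit 3) (nat_lit 7) (nat_lit 7) (nat_lit 123) (nat_lit 107) r7_123 r7_107 (nat_lit 0) (nat_lit 0) (nat_lit 0) (nat_lit 0x7d7c97b908) (nat_lit 1233666720),
  Rx.mk (nat_lit 507) (nat_lit 3) (nat_lit 7) (nat_lit 7) (nat_lit 7) (nat_lit 124) (nat_lit 106) r7_124 r7_106 (nat_lit 0) (nat_lit 0) (nat_lit 0) (nat_lit 0x7de62b9f60) (nat_lit 1031232384),
  Rx.mk (nat_lit 511) (nat_lit 7) (nat_lit 7) (nat_lit 7) (nat_lit 7) (nat_lit 125) (nat_lit 105) r7_125 r7_105 (nat_lit 0) (nat_lit 0) (nat_lit 0) (nat_lit 0x7d9bc765ee) (nat_lit 1173870360)]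
noncomputable def e14_15 : List Rx := [
  Rx.mk (nat_lit 0) (nat_lit 0) (nat_lit 0) (nat_lit 0) (nat_lit 0) (nat_lit 273) (nat_lit 99) r7_273 r8_99 (nat_lit 0) (nat_lit 0) (nat_lit 0) (nat_lit 0x5e013b8ec) (nat_lit 59945324400),
  Rx.mk (nat_lit 2) (nat_lit 2) (nat_lit 0) (nat_lit 0) (nat_lit 1) (nat_lit 274) (nat_lit 103) r7_274 r8_103 (nat_lit 0) (nat_lit 0) (nat_lit 0) (nat_lit 0x6e391d1ff6) (nat_lit 8725851576),
  Rx.mk (nat_lit 18) (nat_lit 2) (nat_lit 2) (nat_lit 0) (nat_lit 3) (nat_lit 275) (nat_lit 106) r7_275 r8_106 (nat_lit 0) (nat_lit 0) (nat_lit 0) (nat_lit 0x7cf6673c96) (nat_lit 1490960952),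
  Rx.mk (nat_lit 24) (nat_lit 0) (nat_lit 3) (nat_lit 0) (nat_lit 2) (nat_lit 276) (nat_lit 100) r7_276 r8_100 (nat_lit 0) (nat_lit 0) (nat_lit 0) (nat_lit 0x70d5b03428) (nat_lit 7443929376),
  Rx.mk (nat_lit 26) (nat_lit 2) (nat_lit 3) (nat_lit 0) (nat_lit 3) (nat_lit 277) (nat_lit 104) r7_277 r8_104 (nat_lit 0) (nat_lit 0) (nat_lit 0) (nat_lit 0x7da28699f4) (nat_lit 1160933904),
  Rx.mk (nat_lit 146) (nat_lit 2) (nat_lit 2) (nat_lit 2) (nat_lit 7) (nat_lit 278) (nat_lit 107) r7_278 r8_107 (nat_lit 0) (nat_lit 0) (nat_lit 0) (nat_lit 0x7dcea1581c) (nat_lit 1076368176),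
  Rx.mk (nat_lit 150) (nat_lit 6) (nat_lit 2) (nat_lit 2) (nat_lit 7) (nat_lit 279) (nat_lit 108) r7_279 r8_108 (nat_lit 0) (nat_lit 0) (nat_lit 0) (nat_lit 0x7de4ad9742) (nat_lit 1034093736),
  Rx.mk (nat_lit 216) (nat_lit 0) (nat_lit 3) (nat_lit 3) (nat_lit 6) (nat_lit 280) (nat_lit 101) r7_280 r8_101 (nat_lit 0) (nat_lit 0) (nat_lit 0) (nat_lit 0x7cfa07e288) (nat_lit 1484005536),
  Rx.mk (nat_lit 218) (nat_lit 2) (nat_lit 3) (nat_lit 3) (nat_lit 7) (nat_lit 281) (nat_lit 105) r7_281 r8_105 (nat_lit 0) (nat_lit 0) (nat_lit 0) (nat_lit 0x7df1f9c272) (nat_lit 1008597096),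
  Rx.mk (nat_lit 219) (nat_lit 3) (nat_lit 3) (nat_lit 3) (nat_lit 7) (nat_lit 282) (nat_lit 102) r7_282 r8_102 (nat_lit 0) (nat_lit 0) (nat_lit 0) (nat_lit 0x7dc4f5d2de) (nat_lit 1094909400)]
noncomputable def e14_16 : List Rx := [
  Rx.mk (nat_lit 295) (nat_lit 7) (nat_lit 4) (nat_lit 4) (nat_lit 1) (nat_lit 47) (nat_lit 114) r7_47 r4_114 (nat_lit 0) (nat_lit 0) (nat_lit 0) (nat_lit 0x754e23e874) (nat_lit 5249561616),
  Rx.mk (nat_lit 315) (nat_lit 3) (nat_lit 7) (nat_lit 4) (nat_lit 3) (nat_lit 48) (nat_lit 116) r7_48 r4_116 (nat_lit 0) (nat_lit 0) (nat_lit 0) (nat_lit 0x7da8e3f418) (nat_lit 1148730336),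
  Rx.mk (nat_lit 319) (nat_lit 7) (nat_lit 7) (nat_lit 4) (nat_lit 3) (nat_lit 49) (nat_lit 115) r7_49 r4_115 (nat_lit 0) (nat_lit 0) (nat_lit 0) (nat_lit 0x7e2a789a4c) (nat_lit 900272880),
  Rx.mk (nat_lit 359) (nat_lit 7) (nat_lit 4) (nat_lit 5) (nat_lit 5) (nat_lit 50) (nat_lit 117) r7_50 r4_117 (nat_lit 0) (nat_lit 0) (nat_lit 0) (nat_lit 0x7dd0edf350) (nat_lit 1071959616),
  Rx.mk (nat_lit 379) (nat_lit 3) (nat_lit 7) (nat_lit 5) (nat_lit 7) (nat_lit 51) (nat_lit 119) r7_51 r4_119 (nat_lit 0) (nat_lit 0) (nat_lit 0) (nat_lit 0x7ddfec435c) (nat_lit 1043211312),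
  Rx.mk (nat_lit 383) (nat_lit 7) (nat_lit 7) (nat_lit 5) (nat_lit 7) (nat_lit 52) (nat_lit 118) r7_52 r4_118 (nat_lit 0) (nat_lit 0) (nat_lit 0) (nat_lit 0x7e35a4078a) (nat_lit 878856264),
  Rx.mk (nat_lit 423) (nat_lit 7) (nat_lit 4) (nat_lit 6) (nat_lit 5) (nat_lit 53) (nat_lit 122) r7_53 r4_122 (nat_lit 0) (nat_lit 0) (nat_lit 0) (nat_lit 0x7dcf55acd6) (nat_lit 1075017528),
  Rx.mk (nat_lit 439) (nat_lit 7) (nat_lit 6) (nat_lit 6) (nat_lit 7) (nat_lit 54) (nat_lit 124) r7_54 r4_124 (nat_lit 0) (nat_lit 0) (nat_lit 0) (nat_lit 0x7dd9115112) (nat_lit 1056355560),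
  Rx.mk (nat_lit 447) (nat_lit 7) (nat_lit 7) (nat_lit 6) (nat_lit 7) (nat_lit 55) (nat_lit 123) r7_55 r4_123 (nat_lit 0) (nat_lit 0) (nat_lit 0) (nat_lit 0x7e28211fc6) (nat_lit 904762872),
  Rx.mk (nat_lit 475) (nat_lit 3) (nat_lit 3) (nat_lit 7) (nat_lit 7) (nat_lit 56) (nat_lit 121) r7_56 r4_121 (nat_lit 0) (nat_lit 0) (nat_lit 0) (nat_lit 0x7df910b0fc) (nat_lit 995003568),
  Rx.mk (nat_lit 507) (nat_lit 3) (nat_lit 7) (nat_lit 7) (nat_lit 7) (nat_lit 57) (nat_lit 120) r7_57 r4_120 (nat_lit 0) (nat_lit 0) (nat_lit 0) (nat_lit 0x7de493b8e0) (nat_lit 1034287488)]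
noncomputable def e14_17 : List Rx := [
  Rx.mk (nat_lit 295) (nat_lit 7) (nat_lit 4) (nat_lit 4) (nat_lit 1) (nat_lit 149) (nat_lit 112) r7_149 r9_112 (nat_lit 0) (nat_lit 0) (nat_lit 0) (nat_lit 0x697a4a51e2) (nat_lit 11055149352),
  Rx.mk (nat_lit 315) (nat_lit 3) (nat_lit 7) (nat_lit 4) (nat_lit 3) (nat_lit 150) (nat_lit 110) r7_150 r9_110 (nat_lit 0) (nat_lit 0) (nat_lit 0) (nat_lit 0x7df79428c6) (nat_lit 997853688),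
  Rx.mk (nat_lit 319) (nat_lit 7) (nat_lit 7) (nat_lit 4) (nat_lit 3) (nat_lit 151) (nat_lit 114) r7_151 r9_114 (nat_lit 0) (nat_lit 0) (nat_lit 0) (nat_lit 0x7d71a7281c) (nat_lit 1254642480),
  Rx.mk (nat_lit 423) (nat_lit 7) (nat_lit 4) (nat_lit 6) (nat_lit 5) (nat_lit 152) (nat_lit 113) r7_152 r9_113 (nat_lit 0) (nat_lit 0) (nat_lit 0) (nat_lit 0x7d98e3b42c) (nat_lit 1179410544),
  Rx.mk (nat_lit 439) (nat_lit 7) (nat_lit 6) (nat_lit 6) (nat_lit 7) (nat_lit 153) (nat_lit 116) r7_153 r9_116 (nat_lit 0) (nat_lit 0) (nat_lit 0) (nat_lit 0x7dddb20702) (nat_lit 1047482280),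
  Rx.mk (nat_lit 447) (nat_lit 7) (nat_lit 7) (nat_lit 6) (nat_lit 7) (nat_lit 154) (nat_lit 115) r7_154 r9_115 (nat_lit 0) (nat_lit 0) (nat_lit 0) (nat_lit 0x7df9b7868e) (nat_lit 993754008),
  Rx.mk (nat_lit 475) (nat_lit 3) (nat_lit 3) (nat_lit 7) (nat_lit 7) (nat_lit 155) (nat_lit 109) r7_155 r9_109 (nat_lit 0) (nat_lit 0) (nat_lit 0) (nat_lit 0x7dcddbc476) (nat_lit 1077847992),
  Rx.mk (nat_lit 507) (nat_lit 3) (nat_lit 7) (nat_lit 7) (nat_lit 7) (nat_lit 156) (nat_lit 111) r7_156 r9_111 (nat_lit 0) (nat_lit 0) (nat_lit 0) (nat_lit 0x7dc2cfd540) (nat_lit 1099028736)]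
noncomputable def e14_18 : List Rx := [
  Rx.mk (nat_lit 283) (nat_lit 3) (nat_lit 3) (nat_lit 4) (nat_lit 3) (nat_lit 206) (nat_lit 115) r7_206 r10_115 (nat_lit 0) (nat_lit 0) (nat_lit 0) (nat_lit 0x7d7cc21662) (nat_lit 1233349416),
  Rx.mk (nat_lit 315) (nat_lit 3) (nat_lit 7) (nat_lit 4) (nat_lit 3) (nat_lit 207) (nat_lit 118) r7_207 r10_118 (nat_lit 0) (nat_lit 0) (nat_lit 0) (nat_lit 0x7dcad2f506) (nat_lit 1083666168),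
  Rx.mk (nat_lit 319) (nat_lit 7) (nat_lit 7) (nat_lit 4) (nat_lit 3) (nat_lit 208) (nat_lit 120) r7_208 r10_120 (nat_lit 0) (nat_lit 0) (nat_lit 0) (nat_lit 0x7da81b00a8) (nat_lit 1150235424),
  Rx.mk (nat_lit 347) (nat_lit 3) (nat_lit 3) (nat_lit 5) (nat_lit 7) (nat_lit 209) (nat_lit 116) r7_209 r10_116 (nat_lit 0) (nat_lit 0) (nat_lit 0) (nat_lit 0x7deb46eda6) (nat_lit 1021440888),
  Rx.mk (nat_lit 379) (nat_lit 3) (nat_lit 7) (nat_lit 5) (nat_lit 7) (nat_lit 210) (nat_lit 119) r7_210 r10_119 (nat_lit 0) (nat_lit 0) (nat_lit 0) (nat_lit 0x7de6733ae6) (nat_lit 1030696056),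
  Rx.mk (nat_lit 383) (nat_lit 7) (nat_lit 7) (nat_lit 5) (nat_lit 7) (nat_lit 211) (nat_lit 121) r7_211 r10_121 (nat_lit 0) (nat_lit 0) (nat_lit 0) (nat_lit 0x7df45c7c44) (nat_lit 1004022864),
  Rx.mk (nat_lit 447) (nat_lit 7) (nat_lit 7) (nat_lit 6) (nat_lit 7) (nat_lit 212) (nat_lit 122) r7_212 r10_122 (nat_lit 0) (nat_lit 0) (nat_lit 0) (nat_lit 0x7dd511d10e) (nat_lit 1064021400),
  Rx.mk (nat_lit 475) (nat_lit 3) (nat_lit 3) (nat_lit 7) (nat_lit 7) (nat_lit 213) (nat_lit 117) r7_213 r10_117 (nat_lit 0) (nat_lit 0) (nat_lit 0) (nat_lit 0x7df08459ca) (nat_lit 1011393864)]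
noncomputable def e14_19 : List Rx := [
  Rx.mk (nat_lit 0) (nat_lit 0) (nat_lit 0) (nat_lit 0) (nat_lit 0) (nat_lit 266) (nat_lit 202) r7_266 r8_202 (nat_lit 0) (nat_lit 0) (nat_lit 0) (nat_lit 0x2a267bae24) (nat_lit 42139605456),
  Rx.mk (nat_lit 2) (nat_lit 2) (nat_lit 0) (nat_lit 0) (nat_lit 1) (nat_lit 267) (nat_lit 203) r7_267 r8_203 (nat_lit 0) (nat_lit 0) (nat_lit 0) (nat_lit 0x6f84370d0c) (nat_lit 8090999280),
  Rx.mk (nat_lit 18) (nat_lit 2) (nat_lit 2) (nat_lit 0) (nat_lit 3) (nat_lit 268) (nat_lit 207) r7_268 r8_207 (nat_lit 0) (nat_lit 0) (nat_lit 0) (nat_lit 0x7d6bde44b0) (nat_lit 1265734080),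
  Rx.mk (nat_lit 24) (nat_lit 0) (nat_lit 3) (nat_lit 0) (nat_lit 2) (nat_lit 269) (nat_lit 204) r7_269 r8_204 (nat_lit 0) (nat_lit 0) (nat_lit 0) (nat_lit 0x795a3b62f0) (nat_lit 3262963392),
  Rx.mk (nat_lit 146) (nat_lit 2) (nat_lit 2) (nat_lit 2) (nat_lit 7) (nat_lit 270) (nat_lit 208) r7_270 r8_208 (nat_lit 0) (nat_lit 0) (nat_lit 0) (nat_lit 0x7dd1cb257c) (nat_lit 1070302896),
  Rx.mk (nat_lit 216) (nat_lit 0) (nat_lit 3) (nat_lit 3) (nat_lit 6) (nat_lit 271) (nat_lit 205) r7_271 r8_205 (nat_lit 0) (nat_lit 0) (nat_lit 0) (nat_lit 0x7d7fa68818) (nat_lit 1227803616),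
  Rx.mk (nat_lit 219) (nat_lit 3) (nat_lit 3) (nat_lit 3) (nat_lit 7) (nat_lit 272) (nat_lit 206) r7_272 r8_206 (nat_lit 0) (nat_lit 0) (nat_lit 0) (nat_lit 0x7dcfdbe472) (nat_lit 1074012264)]
noncomputable def e14_20 : List Rx := [
  Rx.mk (nat_lit 64) (nat_lit 0) (nat_lit 0) (nat_lit 1) (nat_lit 4) (nat_lit 230) (nat_lit 271) r7_230 r0_271 (nat_lit 0) (nat_lit 0) (nat_lit 0) (nat_lit 0x52675b77e4) (nat_lit 22381079760),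
  Rx.mk (nat_lit 65) (nat_lit 1) (nat_lit 0) (nat_lit 1) (nat_lit 5) (nat_lit 231) (nat_lit 274) r7_231 r0_274 (nat_lit 0) (nat_lit 0) (nat_lit 0) (nat_lit 0x7a2fb2caa4) (nat_lit 2853663696),
  Rx.mk (nat_lit 72) (nat_lit 0) (nat_lit 1) (nat_lit 1) (nat_lit 6) (nat_lit 232) (nat_lit 272) r7_232 r0_272 (nat_lit 0) (nat_lit 0) (nat_lit 0) (nat_lit 0x77e11e9636) (nat_lit 3986037432),
  Rx.mk (nat_lit 73) (nat_lit 1) (nat_lit 1) (nat_lit 1) (nat_lit 7) (nat_lit 233) (nat_lit 275) r7_233 r0_275 (nat_lit 0) (nat_lit 0) (nat_lit 0) (nat_lit 0x7d51c5c652) (nat_lit 1315769832),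
  Rx.mk (nat_lit 88) (nat_lit 0) (nat_lit 3) (nat_lit 1) (nat_lit 6) (nat_lit 234) (nat_lit 273) r7_234 r0_273 (nat_lit 0) (nat_lit 0) (nat_lit 0) (nat_lit 0x7d448d19ea) (nat_lit 1341120456),
  Rx.mk (nat_lit 89) (nat_lit 1) (nat_lit 3) (nat_lit 1) (nat_lit 7) (nat_lit 235) (nat_lit 276) r7_235 r0_276 (nat_lit 0) (nat_lit 0) (nat_lit 0) (nat_lit 0x7df2301f0c) (nat_lit 1008189936),
  Rx.mk (nat_lit 91) (nat_lit 3) (nat_lit 3) (nat_lit 1) (nat_lit 7) (nat_lit 236) (nat_lit 277) r7_236 r0_277 (nat_lit 0) (nat_lit 0) (nat_lit 0) (nat_lit 0x7df55c2c48) (nat_lit 1002107808),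
  Rx.mk (nat_lit 320) (nat_lit 0) (nat_lit 0) (nat_lit 5) (nat_lit 4) (nat_lit 237) (nat_lit 278) r7_237 r0_278 (nat_lit 0) (nat_lit 0) (nat_lit 0) (nat_lit 0x5c996eec7a) (nat_lit 17376530184),
  Rx.mk (nat_lit 321) (nat_lit 1) (nat_lit 0) (nat_lit 5) (nat_lit 5) (nat_lit 238) (nat_lit 280) r7_238 r0_280 (nat_lit 0) (nat_lit 0) (nat_lit 0) (nat_lit 0x7d503ebec4) (nat_lit 1318698576),
  Rx.mk (nat_lit 328) (nat_lit 0) (nat_lit 1) (nat_lit 5) (nat_lit 6) (nat_lit 239) (nat_lit 279) r7_239 r0_279 (nat_lit 0) (nat_lit 0) (nat_lit 0) (nat_lit 0x7c51f5245c) (nat_lit 1806268464),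
  Rx.mk (nat_lit 329) (nat_lit 1) (nat_lit 1) (nat_lit 5) (nat_lit 7) (nat_lit 240) (nat_lit 281) r7_240 r0_281 (nat_lit 0) (nat_lit 0) (nat_lit 0) (nat_lit 0x7df400a202) (nat_lit 1004710824)]
noncomputable def e14_21 : List Rx := [
  Rx.mk (nat_lit 72) (nat_lit 0) (nat_lit 1) (nat_lit 1) (nat_lit 6) (nat_lit 316) (nat_lit 274) r7_316 r1_274 (nat_lit 0) (nat_lit 0) (nat_lit 0) (nat_lit 0x7a2aa01bd4) (nat_lit 2863390608),
  Rx.mk (nat_lit 73) (nat_lit 1) (nat_lit 1) (nat_lit 1) (nat_lit 7) (nat_lit 317) (nat_lit 275) r7_317 r1_275 (nat_lit 0) (nat_lit 0) (nat_lit 0) (nat_lit 0x7dab10b14a) (nat_lit 1144560456),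
  Rx.mk (nat_lit 328) (nat_lit 0) (nat_lit 1) (nat_lit 5) (nat_lit 6) (nat_lit 318) (nat_lit 276) r7_318 r1_276 (nat_lit 0) (nat_lit 0) (nat_lit 0) (nat_lit 0x7ba392eb2e) (nat_lit 2140631064),
  Rx.mk (nat_lit 329) (nat_lit 1) (nat_lit 1) (nat_lit 5) (nat_lit 7) (nat_lit 319) (nat_lit 277) r7_319 r1_277 (nat_lit 0) (nat_lit 0) (nat_lit 0) (nat_lit 0x7de06f7b28) (nat_lit 1042228512)]
noncomputable def e14_22 : List Rx := [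
  Rx.mk (nat_lit 88) (nat_lit 0) (nat_lit 3) (nat_lit 1) (nat_lit 6) (nat_lit 338) (nat_lit 284) r7_338 r4_284 (nat_lit 0) (nat_lit 0) (nat_lit 0) (nat_lit 0x7d63fb62e6) (nat_lit 1280855160),
  Rx.mk (nat_lit 89) (nat_lit 1) (nat_lit 3) (nat_lit 1) (nat_lit 7) (nat_lit 339) (nat_lit 285) r7_339 r4_285 (nat_lit 0) (nat_lit 0) (nat_lit 0) (nat_lit 0x7de0ae173e) (nat_lit 1041759576),
  Rx.mk (nat_lit 91) (nat_lit 3) (nat_lit 3) (nat_lit 1) (nat_lit 7) (nat_lit 340) (nat_lit 286) r7_340 r4_286 (nat_lit 0) (nat_lit 0) (nat_lit 0) (nat_lit 0x7dec75dab6) (nat_lit 1019172024),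
  Rx.mk (nat_lit 320) (nat_lit 0) (nat_lit 0) (nat_lit 5) (nat_lit 4) (nat_lit 341) (nat_lit 287) r7_341 r4_287 (nat_lit 0) (nat_lit 0) (nat_lit 0) (nat_lit 0x5c57ff43b6) (nat_lit 17501997240),
  Rx.mk (nat_lit 321) (nat_lit 1) (nat_lit 0) (nat_lit 5) (nat_lit 5) (nat_lit 342) (nat_lit 290) r7_342 r4_290 (nat_lit 0) (nat_lit 0) (nat_lit 0) (nat_lit 0x7d03f443b8) (nat_lit 1464978528),
  Rx.mk (nat_lit 328) (nat_lit 0) (nat_lit 1) (nat_lit 5) (nat_lit 6) (nat_lit 343) (nat_lit 288) r7_343 r4_288 (nat_lit 0) (nat_lit 0) (nat_lit 0) (nat_lit 0x7d836d6ba6) (nat_lit 1220561784),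
  Rx.mk (nat_lit 329) (nat_lit 1) (nat_lit 1) (nat_lit 5) (nat_lit 7) (nat_lit 344) (nat_lit 291) r7_344 r4_291 (nat_lit 0) (nat_lit 0) (nat_lit 0) (nat_lit 0x7df0f9b274) (nat_lit 1010514960),
  Rx.mk (nat_lit 344) (nat_lit 0) (nat_lit 3) (nat_lit 5) (nat_lit 6) (nat_lit 345) (nat_lit 289) r7_345 r4_289 (nat_lit 0) (nat_lit 0) (nat_lit 0) (nat_lit 0x7d43fd22ea) (nat_lit 1342198728),
  Rx.mk (nat_lit 345) (nat_lit 1) (nat_lit 3) (nat_lit 5) (nat_lit 7) (nat_lit 346) (nat_lit 292) r7_346 r4_292 (nat_lit 0) (nat_lit 0) (nat_lit 0) (nat_lit 0x7de07e1a3e) (nat_lit 1042119000)]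
noncomputable def e14_23 : List Rx := [
  Rx.mk (nat_lit 64) (nat_lit 0) (nat_lit 0) (nat_lit 1) (nat_lit 4) (nat_lit 248) (nat_lit 246) r7_248 r6_246 (nat_lit 0) (nat_lit 0) (nat_lit 0) (nat_lit 0x66291d8800) (nat_lit 12683354112),
  Rx.mk (nat_lit 65) (nat_lit 1) (nat_lit 0) (nat_lit 1) (nat_lit 5) (nat_lit 249) (nat_lit 247) r7_249 r6_247 (nat_lit 0) (nat_lit 0) (nat_lit 0) (nat_lit 0x7d55b76734) (nat_lit 1308207888),
  Rx.mk (nat_lit 66) (nat_lit 2) (nat_lit 0) (nat_lit 1) (nat_lit 5) (nat_lit 250) (nat_lit 248) r7_250 r6_248 (nat_lit 0) (nat_lit 0) (nat_lit 0) (nat_lit 0x7d88d17560) (nat_lit 1210225536),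
  Rx.mk (nat_lit 72) (nat_lit 0) (nat_lit 1) (nat_lit 1) (nat_lit 6) (nat_lit 251) (nat_lit 249) r7_251 r6_249 (nat_lit 0) (nat_lit 0) (nat_lit 0) (nat_lit 0x7d509b58fa) (nat_lit 1318005000),
  Rx.mk (nat_lit 73) (nat_lit 1) (nat_lit 1) (nat_lit 1) (nat_lit 7) (nat_lit 252) (nat_lit 250) r7_252 r6_250 (nat_lit 0) (nat_lit 0) (nat_lit 0) (nat_lit 0x7de766ebaa) (nat_lit 1028870856),
  Rx.mk (nat_lit 74) (nat_lit 2) (nat_lit 1) (nat_lit 1) (nat_lit 7) (nat_lit 253) (nat_lit 251) r7_253 r6_251 (nat_lit 0) (nat_lit 0) (nat_lit 0) (nat_lit 0x7dd5e5a3d0) (nat_lit 1062434880),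
  Rx.mk (nat_lit 88) (nat_lit 0) (nat_lit 3) (nat_lit 1) (nat_lit 6) (nat_lit 254) (nat_lit 252) r7_254 r6_252 (nat_lit 0) (nat_lit 0) (nat_lit 0) (nat_lit 0x7dcd22900a) (nat_lit 1079235144),
  Rx.mk (nat_lit 89) (nat_lit 1) (nat_lit 3) (nat_lit 1) (nat_lit 7) (nat_lit 255) (nat_lit 253) r7_255 r6_253 (nat_lit 0) (nat_lit 0) (nat_lit 0) (nat_lit 0x7dc7720b18) (nat_lit 1090144224),
  Rx.mk (nat_lit 91) (nat_lit 3) (nat_lit 3) (nat_lit 1) (nat_lit 7) (nat_lit 256) (nat_lit 254) r7_256 r6_254 (nat_lit 0) (nat_lit 0) (nat_lit 0) (nat_lit 0x7dee7e3a2e) (nat_lit 1015274520)]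
noncomputable def e14_24 : List Rx := [
  Rx.mk (nat_lit 72) (nat_lit 0) (nat_lit 1) (nat_lit 1) (nat_lit 6) (nat_lit 323) (nat_lit 191) r7_323 r7_191 (nat_lit 0) (nat_lit 0) (nat_lit 0) (nat_lit 0x7cf1f683a6) (nat_lit 1499474808),
  Rx.mk (nat_lit 73) (nat_lit 1) (nat_lit 1) (nat_lit 1) (nat_lit 7) (nat_lit 324) (nat_lit 192) r7_324 r7_192 (nat_lit 0) (nat_lit 0) (nat_lit 0) (nat_lit 0x7dd911b10c) (nat_lit 1056352752),
  Rx.mk (nat_lit 74) (nat_lit 2) (nat_lit 1) (nat_lit 1) (nat_lit 7) (nat_lit 325) (nat_lit 193) r7_325 r7_193 (nat_lit 0) (nat_lit 0) (nat_lit 0) (nat_lit 0x7ddc447ddc) (nat_lit 1050220080)]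
noncomputable def e14_25 : List Rx := [
  Rx.mk (nat_lit 0) (nat_lit 0) (nat_lit 0) (nat_lit 0) (nat_lit 0) (nat_lit 299) (nat_lit 299) r7_299 r7_299 (nat_lit 0) (nat_lit 0) (nat_lit 0) (nat_lit 0x4a170bc530) (nat_lit 26461895616),
  Rx.mk (nat_lit 2) (nat_lit 2) (nat_lit 0) (nat_lit 0) (nat_lit 1) (nat_lit 300) (nat_lit 302) r7_300 r7_302 (nat_lit 0) (nat_lit 0) (nat_lit 0) (nat_lit 0x71bb073dd2) (nat_lit 7004193768),
  Rx.mk (nat_lit 18) (nat_lit 2) (nat_lit 2) (nat_lit 0) (nat_lit 3) (nat_lit 301) (nat_lit 303) r7_301 r7_303 (nat_lit 0) (nat_lit 0) (nat_lit 0) (nat_lit 0x7da575eafc) (nat_lit 1155306672),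
  Rx.mk (nat_lit 24) (nat_lit 0) (nat_lit 3) (nat_lit 0) (nat_lit 2) (nat_lit 302) (nat_lit 300) r7_302 r7_300 (nat_lit 0) (nat_lit 0) (nat_lit 0) (nat_lit 0x71bb073dd2) (nat_lit 7004193768),
  Rx.mk (nat_lit 27) (nat_lit 3) (nat_lit 3) (nat_lit 0) (nat_lit 3) (nat_lit 303) (nat_lit 301) r7_303 r7_301 (nat_lit 0) (nat_lit 0) (nat_lit 0) (nat_lit 0x7da575eafc) (nat_lit 1155306672),
  Rx.mk (nat_lit 64) (nat_lit 0) (nat_lit 0) (nat_lit 1) (nat_lit 4) (nat_lit 304) (nat_lit 304) r7_304 r7_304 (nat_lit 0) (nat_lit 0) (nat_lit 0) (nat_lit 0x7813e3e9ae) (nat_lit 3888689688),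
  Rx.mk (nat_lit 65) (nat_lit 1) (nat_lit 0) (nat_lit 1) (nat_lit 5) (nat_lit 305) (nat_lit 307) r7_305 r7_307 (nat_lit 0) (nat_lit 0) (nat_lit 0) (nat_lit 0x7daee1543c) (nat_lit 1137245616),
  Rx.mk (nat_lit 66) (nat_lit 2) (nat_lit 0) (nat_lit 1) (nat_lit 5) (nat_lit 306) (nat_lit 311) r7_306 r7_311 (nat_lit 0) (nat_lit 0) (nat_lit 0) (nat_lit 0x7dcd630c02) (nat_lit 1078752168),
  Rx.mk (nat_lit 72) (nat_lit 0) (nat_lit 1) (nat_lit 1) (nat_lit 6) (nat_lit 307) (nat_lit 305) r7_307 r7_305 (nat_lit 0) (nat_lit 0) (nat_lit 0) (nat_lit 0x7daee1543c) (nat_lit 1137245616),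
  Rx.mk (nat_lit 73) (nat_lit 1) (nat_lit 1) (nat_lit 1) (nat_lit 7) (nat_lit 308) (nat_lit 308) r7_308 r7_308 (nat_lit 0) (nat_lit 0) (nat_lit 0) (nat_lit 0x7df2d1b4f2) (nat_lit 1006979688),
  Rx.mk (nat_lit 74) (nat_lit 2) (nat_lit 1) (nat_lit 1) (nat_lit 7) (nat_lit 309) (nat_lit 312) r7_309 r7_312 (nat_lit 0) (nat_lit 0) (nat_lit 0) (nat_lit 0x7dd44e1d4a) (nat_lit 1065487176),
  Rx.mk (nat_lit 82) (nat_lit 2) (nat_lit 2) (nat_lit 1) (nat_lit 7) (nat_lit 310) (nat_lit 313) r7_310 r7_313 (nat_lit 0) (nat_lit 0) (nat_lit 0) (nat_lit 0x7dd446fdbc) (nat_lit 1065540528),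
  Rx.mk (nat_lit 88) (nat_lit 0) (nat_lit 3) (nat_lit 1) (nat_lit 6) (nat_lit 311) (nat_lit 306) r7_311 r7_306 (nat_lit 0) (nat_lit 0) (nat_lit 0) (nat_lit 0x7dcd630c02) (nat_lit 1078752168),
  Rx.mk (nat_lit 89) (nat_lit 1) (nat_lit 3) (nat_lit 1) (nat_lit 7) (nat_lit 312) (nat_lit 309) r7_312 r7_309 (nat_lit 0) (nat_lit 0) (nat_lit 0) (nat_lit 0x7dd44e1d4a) (nat_lit 1065487176),
  Rx.mk (nat_lit 91) (nat_lit 3) (nat_lit 3) (nat_lit 1) (nat_lit 7) (nat_lit 313) (nat_lit 310) r7_313 r7_310 (nat_lit 0) (nat_lit 0) (nat_lit 0) (nat_lit 0x7dd446fdbc) (nat_lit 1065540528),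
  Rx.mk (nat_lit 146) (nat_lit 2) (nat_lit 2) (nat_lit 2) (nat_lit 7) (nat_lit 314) (nat_lit 315) r7_314 r7_315 (nat_lit 0) (nat_lit 0) (nat_lit 0) (nat_lit 0x7df79428c6) (nat_lit 997853688),
  Rx.mk (nat_lit 219) (nat_lit 3) (nat_lit 3) (nat_lit 3) (nat_lit 7) (nat_lit 315) (nat_lit 314) r7_315 r7_314 (nat_lit 0) (nat_lit 0) (nat_lit 0) (nat_lit 0x7df79428c6) (nat_lit 997853688)]
noncomputable def e14_26 : List Rx := [
  Rx.mk (nat_lit 88) (nat_lit 0) (nat_lit 3) (nat_lit 1) (nat_lit 6) (nat_lit 355) (nat_lit 195) r7_355 r9_195 (nat_lit 0) (nat_lit 0) (nat_lit 0) (nat_lit 0x7d5b2fafaa) (nat_lit 1297720008),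
  Rx.mk (nat_lit 89) (nat_lit 1) (nat_lit 3) (nat_lit 1) (nat_lit 7) (nat_lit 356) (nat_lit 196) r7_356 r9_196 (nat_lit 0) (nat_lit 0) (nat_lit 0) (nat_lit 0x7db8a35812) (nat_lit 1118535912),
  Rx.mk (nat_lit 91) (nat_lit 3) (nat_lit 3) (nat_lit 1) (nat_lit 7) (nat_lit 357) (nat_lit 197) r7_357 r9_197 (nat_lit 0) (nat_lit 0) (nat_lit 0) (nat_lit 0x7ded4a0d72) (nat_lit 1017582696)]
noncomputable def e14_27 : List Rx := [
  Rx.mk (nat_lit 91) (nat_lit 3) (nat_lit 3) (nat_lit 1) (nat_lit 7) (nat_lit 367) (nat_lit 229) r7_367 r10_229 (nat_lit 0) (nat_lit 0) (nat_lit 0) (nat_lit 0x7ddf1c9058) (nat_lit 1044766944),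
  Rx.mk (nat_lit 320) (nat_lit 0) (nat_lit 0) (nat_lit 5) (nat_lit 4) (nat_lit 368) (nat_lit 222) r7_368 r10_222 (nat_lit 0) (nat_lit 0) (nat_lit 0) (nat_lit 0x6dd2a647ca) (nat_lit 8922316104),
  Rx.mk (nat_lit 321) (nat_lit 1) (nat_lit 0) (nat_lit 5) (nat_lit 5) (nat_lit 369) (nat_lit 223) r7_369 r10_223 (nat_lit 0) (nat_lit 0) (nat_lit 0) (nat_lit 0x7dce8599d8) (nat_lit 1076575968),
  Rx.mk (nat_lit 328) (nat_lit 0) (nat_lit 1) (nat_lit 5) (nat_lit 6) (nat_lit 370) (nat_lit 224) r7_370 r10_224 (nat_lit 0) (nat_lit 0) (nat_lit 0) (nat_lit 0x7dd5e543d6) (nat_lit 1062437688),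
  Rx.mk (nat_lit 329) (nat_lit 1) (nat_lit 1) (nat_lit 5) (nat_lit 7) (nat_lit 371) (nat_lit 225) r7_371 r10_225 (nat_lit 0) (nat_lit 0) (nat_lit 0) (nat_lit 0x7df118d082) (nat_lit 1010281896),
  Rx.mk (nat_lit 344) (nat_lit 0) (nat_lit 3) (nat_lit 5) (nat_lit 6) (nat_lit 372) (nat_lit 226) r7_372 r10_226 (nat_lit 0) (nat_lit 0) (nat_lit 0) (nat_lit 0x7d483d1ee6) (nat_lit 1334049912),
  Rx.mk (nat_lit 345) (nat_lit 1) (nat_lit 3) (nat_lit 5) (nat_lit 7) (nat_lit 373) (nat_lit 227) r7_373 r10_227 (nat_lit 0) (nat_lit 0) (nat_lit 0) (nat_lit 0x7df32a2f6a) (nat_lit 1006317000),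
  Rx.mk (nat_lit 347) (nat_lit 3) (nat_lit 3) (nat_lit 5) (nat_lit 7) (nat_lit 374) (nat_lit 228) r7_374 r10_228 (nat_lit 0) (nat_lit 0) (nat_lit 0) (nat_lit 0x7de7266fb2) (nat_lit 1029353832)]
noncomputable def e14_28 : List Rx := [
  Rx.mk (nat_lit 315) (nat_lit 3) (nat_lit 7) (nat_lit 4) (nat_lit 3) (nat_lit 157) (nat_lit 113) r7_157 r10_113 (nat_lit 0) (nat_lit 0) (nat_lit 0) (nat_lit 0x7dd4373eb8) (nat_lit 1065658464),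
  Rx.mk (nat_lit 507) (nat_lit 3) (nat_lit 7) (nat_lit 7) (nat_lit 7) (nat_lit 158) (nat_lit 114) r7_158 r10_114 (nat_lit 0) (nat_lit 0) (nat_lit 0) (nat_lit 0x7deba267ee) (nat_lit 1020755736)]
noncomputable def e14_29 : List Rx := [
  Rx.mk (nat_lit 344) (nat_lit 0) (nat_lit 3) (nat_lit 5) (nat_lit 6) (nat_lit 214) (nat_lit 311) r7_214 r5_311 (nat_lit 0) (nat_lit 0) (nat_lit 0) (nat_lit 0x7de4c1160a) (nat_lit 1033947720),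
  Rx.mk (nat_lit 345) (nat_lit 1) (nat_lit 3) (nat_lit 5) (nat_lit 7) (nat_lit 215) (nat_lit 313) r7_215 r5_313 (nat_lit 0) (nat_lit 0) (nat_lit 0) (nat_lit 0x7dec1be056) (nat_lit 1019845944),
  Rx.mk (nat_lit 376) (nat_lit 0) (nat_lit 7) (nat_lit 5) (nat_lit 6) (nat_lit 216) (nat_lit 310) r7_216 r5_310 (nat_lit 0) (nat_lit 0) (nat_lit 0) (nat_lit 0x7e615cebd0) (nat_lit 795023424),
  Rx.mk (nat_lit 377) (nat_lit 1) (nat_lit 7) (nat_lit 5) (nat_lit 7) (nat_lit 217) (nat_lit 312) r7_217 r5_312 (nat_lit 0) (nat_lit 0) (nat_lit 0) (nat_lit 0x7defd5a4b6) (nat_lit 1012702392)]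
noncomputable def e14_30 : List Rx := [
  Rx.mk (nat_lit 88) (nat_lit 0) (nat_lit 3) (nat_lit 1) (nat_lit 6) (nat_lit 358) (nat_lit 335) r7_358 r10_335 (nat_lit 0) (nat_lit 0) (nat_lit 0) (nat_lit 0x7de88259f2) (nat_lit 1026748008),
  Rx.mk (nat_lit 89) (nat_lit 1) (nat_lit 3) (nat_lit 1) (nat_lit 7) (nat_lit 359) (nat_lit 336) r7_359 r10_336 (nat_lit 0) (nat_lit 0) (nat_lit 0) (nat_lit 0x7de822bfec) (nat_lit 1027464048),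
  Rx.mk (nat_lit 90) (nat_lit 2) (nat_lit 3) (nat_lit 1) (nat_lit 7) (nat_lit 360) (nat_lit 337) r7_360 r10_337 (nat_lit 0) (nat_lit 0) (nat_lit 0) (nat_lit 0x7df139ce72) (nat_lit 1010034792)]
noncomputable def e14_31 : List Rx := [
  Rx.mk (nat_lit 376) (nat_lit 0) (nat_lit 7) (nat_lit 5) (nat_lit 6) (nat_lit 71) (nat_lit 203) r7_71 r5_203 (nat_lit 0) (nat_lit 0) (nat_lit 0) (nat_lit 0x7e43268f54) (nat_lit 852952464),
  Rx.mk (nat_lit 377) (nat_lit 1) (nat_lit 7) (nat_lit 5) (nat_lit 7) (nat_lit 72) (nat_lit 204) r7_72 r5_204 (nat_lit 0) (nat_lit 0) (nat_lit 0) (nat_lit 0x7df5604c06) (nat_lit 1002076920),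
  Rx.mk (nat_lit 379) (nat_lit 3) (nat_lit 7) (nat_lit 5) (nat_lit 7) (nat_lit 73) (nat_lit 205) r7_73 r5_205 (nat_lit 0) (nat_lit 0) (nat_lit 0) (nat_lit 0x7dbca6f7d4) (nat_lit 1110839184)]
noncomputable def e14_32 : List Rx := [
  Rx.mk (nat_lit 344) (nat_lit 0) (nat_lit 3) (nat_lit 5) (nat_lit 6) (nat_lit 225) (nat_lit 117) r7_225 r11_117 (nat_lit 0) (nat_lit 0) (nat_lit 0) (nat_lit 0x7da1c16648) (nat_lit 1162410912),
  Rx.mk (nat_lit 345) (nat_lit 1) (nat_lit 3) (nat_lit 5) (nat_lit 7) (nat_lit 226) (nat_lit 119) r7_226 r11_119 (nat_lit 0) (nat_lit 0) (nat_lit 0) (nat_lit 0x7dc9a2e808) (nat_lit 1085943456),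
  Rx.mk (nat_lit 376) (nat_lit 0) (nat_lit 7) (nat_lit 5) (nat_lit 6) (nat_lit 227) (nat_lit 118) r7_227 r11_118 (nat_lit 0) (nat_lit 0) (nat_lit 0) (nat_lit 0x7e01a8a774) (nat_lit 978526224),
  Rx.mk (nat_lit 377) (nat_lit 1) (nat_lit 7) (nat_lit 5) (nat_lit 7) (nat_lit 228) (nat_lit 120) r7_228 r11_120 (nat_lit 0) (nat_lit 0) (nat_lit 0) (nat_lit 0x7dddf522d0) (nat_lit 1046979648),
  Rx.mk (nat_lit 379) (nat_lit 3) (nat_lit 7) (nat_lit 5) (nat_lit 7) (nat_lit 229) (nat_lit 121) r7_229 r11_121 (nat_lit 0) (nat_lit 0) (nat_lit 0) (nat_lit 0x7dcd9548de) (nat_lit 1078375896)]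
noncomputable def e14_33 : List Rx := [
  Rx.mk (nat_lit 353) (nat_lit 1) (nat_lit 4) (nat_lit 5) (nat_lit 5) (nat_lit 178) (nat_lit 289) r7_178 r0_289 (nat_lit 0) (nat_lit 0) (nat_lit 0) (nat_lit 0x7b30873c5c) (nat_lit 2361219120),
  Rx.mk (nat_lit 361) (nat_lit 1) (nat_lit 5) (nat_lit 5) (nat_lit 7) (nat_lit 179) (nat_lit 290) r7_179 r0_290 (nat_lit 0) (nat_lit 0) (nat_lit 0) (nat_lit 0x7df79428c6) (nat_lit 997853688)]
noncomputable def e14_34 : List Rx := [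
  Rx.mk (nat_lit 353) (nat_lit 1) (nat_lit 4) (nat_lit 5) (nat_lit 5) (nat_lit 63) (nat_lit 185) r7_63 r0_185 (nat_lit 0) (nat_lit 0) (nat_lit 0) (nat_lit 0x7e2fea232e) (nat_lit 889835544),
  Rx.mk (nat_lit 357) (nat_lit 5) (nat_lit 4) (nat_lit 5) (nat_lit 5) (nat_lit 64) (nat_lit 186) r7_64 r0_186 (nat_lit 0) (nat_lit 0) (nat_lit 0) (nat_lit 0x7db1ff225c) (nat_lit 1131270192),
  Rx.mk (nat_lit 381) (nat_lit 5) (nat_lit 7) (nat_lit 5) (nat_lit 7) (nat_lit 65) (nat_lit 187) r7_65 r0_187 (nat_lit 0) (nat_lit 0) (nat_lit 0) (nat_lit 0x7dec1700a4) (nat_lit 1019882448)]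
noncomputable def e14_35 : List Rx := [
  Rx.mk (nat_lit 353) (nat_lit 1) (nat_lit 4) (nat_lit 5) (nat_lit 5) (nat_lit 184) (nat_lit 404) r7_184 r6_404 (nat_lit 0) (nat_lit 0) (nat_lit 0) (nat_lit 0x7de7386e92) (nat_lit 1029219048),
  Rx.mk (nat_lit 357) (nat_lit 5) (nat_lit 4) (nat_lit 5) (nat_lit 5) (nat_lit 185) (nat_lit 401) r7_185 r6_401 (nat_lit 0) (nat_lit 0) (nat_lit 0) (nat_lit 0x7d9c65fc04) (nat_lit 1172682576),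
  Rx.mk (nat_lit 361) (nat_lit 1) (nat_lit 5) (nat_lit 5) (nat_lit 7) (nat_lit 186) (nat_lit 405) r7_186 r6_405 (nat_lit 0) (nat_lit 0) (nat_lit 0) (nat_lit 0x7de4f1130a) (nat_lit 1033588296),
  Rx.mk (nat_lit 365) (nat_lit 5) (nat_lit 5) (nat_lit 5) (nat_lit 7) (nat_lit 187) (nat_lit 402) r7_187 r6_402 (nat_lit 0) (nat_lit 0) (nat_lit 0) (nat_lit 0x7dbbebe386) (nat_lit 1112240376),
  Rx.mk (nat_lit 381) (nat_lit 5) (nat_lit 7) (nat_lit 5) (nat_lit 7) (nat_lit 188) (nat_lit 403) r7_188 r6_403 (nat_lit 0) (nat_lit 0) (nat_lit 0) (nat_lit 0x7dbabc967c) (nat_lit 1114512048)]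
noncomputable def e14_36 : List Rx := [
  Rx.mk (nat_lit 292) (nat_lit 4) (nat_lit 4) (nat_lit 4) (nat_lit 0) (nat_lit 25) (nat_lit 203) r7_25 r2_203 (nat_lit 0) (nat_lit 0) (nat_lit 0) (nat_lit 0x29642f73aa) (nat_lit 42512151240),
  Rx.mk (nat_lit 293) (nat_lit 5) (nat_lit 4) (nat_lit 4) (nat_lit 1) (nat_lit 26) (nat_lit 204) r7_26 r2_204 (nat_lit 0) (nat_lit 0) (nat_lit 0) (nat_lit 0x7204dfa002) (nat_lit 6862603176),
  Rx.mk (nat_lit 316) (nat_lit 4) (nat_lit 7) (nat_lit 4) (nat_lit 2) (nat_lit 27) (nat_lit 209) r7_27 r2_209 (nat_lit 0) (nat_lit 0) (nat_lit 0) (nat_lit 0x7ba3736d26) (nat_lit 2140866936),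
  Rx.mk (nat_lit 317) (nat_lit 5) (nat_lit 7) (nat_lit 4) (nat_lit 3) (nat_lit 28) (nat_lit 210) r7_28 r2_210 (nat_lit 0) (nat_lit 0) (nat_lit 0) (nat_lit 0x7dded494d8) (nat_lit 1045306080),
  Rx.mk (nat_lit 319) (nat_lit 7) (nat_lit 7) (nat_lit 4) (nat_lit 3) (nat_lit 29) (nat_lit 211) r7_29 r2_211 (nat_lit 0) (nat_lit 0) (nat_lit 0) (nat_lit 0x7dacbf765c) (nat_lit 1141334064),
  Rx.mk (nat_lit 356) (nat_lit 4) (nat_lit 4) (nat_lit 5) (nat_lit 4) (nat_lit 30) (nat_lit 205) r7_30 r2_205 (nat_lit 0) (nat_lit 0) (nat_lit 0) (nat_lit 0x7afaf2d5d8) (nat_lit 2463952608),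
  Rx.mk (nat_lit 357) (nat_lit 5) (nat_lit 4) (nat_lit 5) (nat_lit 5) (nat_lit 31) (nat_lit 206) r7_31 r2_206 (nat_lit 0) (nat_lit 0) (nat_lit 0) (nat_lit 0x7d1ecd760a) (nat_lit 1413499464),
  Rx.mk (nat_lit 380) (nat_lit 4) (nat_lit 7) (nat_lit 5) (nat_lit 6) (nat_lit 32) (nat_lit 212) r7_32 r2_212 (nat_lit 0) (nat_lit 0) (nat_lit 0) (nat_lit 0x7de3209014) (nat_lit 1037067408),
  Rx.mk (nat_lit 381) (nat_lit 5) (nat_lit 7) (nat_lit 5) (nat_lit 7) (nat_lit 33) (nat_lit 213) r7_33 r2_213 (nat_lit 0) (nat_lit 0) (nat_lit 0) (nat_lit 0x7df944cdba) (nat_lit 994613256),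
  Rx.mk (nat_lit 383) (nat_lit 7) (nat_lit 7) (nat_lit 5) (nat_lit 7) (nat_lit 34) (nat_lit 214) r7_34 r2_214 (nat_lit 0) (nat_lit 0) (nat_lit 0) (nat_lit 0x7dd548ed9c) (nat_lit 1063608624),
  Rx.mk (nat_lit 420) (nat_lit 4) (nat_lit 4) (nat_lit 6) (nat_lit 4) (nat_lit 35) (nat_lit 207) r7_35 r2_207 (nat_lit 0) (nat_lit 0) (nat_lit 0) (nat_lit 0x7a45758e62) (nat_lit 2811939624),
  Rx.mk (nat_lit 421) (nat_lit 5) (nat_lit 4) (nat_lit 6) (nat_lit 5) (nat_lit 36) (nat_lit 208) r7_36 r2_208 (nat_lit 0) (nat_lit 0) (nat_lit 0) (nat_lit 0x7dd31cf05e) (nat_lit 1067772888),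
  Rx.mk (nat_lit 436) (nat_lit 4) (nat_lit 6) (nat_lit 6) (nat_lit 6) (nat_lit 37) (nat_lit 218) r7_37 r2_218 (nat_lit 0) (nat_lit 0) (nat_lit 0) (nat_lit 0x7ddea617c0) (nat_lit 1045654272),
  Rx.mk (nat_lit 437) (nat_lit 5) (nat_lit 6) (nat_lit 6) (nat_lit 7) (nat_lit 38) (nat_lit 219) r7_38 r2_219 (nat_lit 0) (nat_lit 0) (nat_lit 0) (nat_lit 0x7de929ef78) (nat_lit 1025492832),
  Rx.mk (nat_lit 438) (nat_lit 6) (nat_lit 6) (nat_lit 6) (nat_lit 7) (nat_lit 39) (nat_lit 220) r7_39 r2_220 (nat_lit 0) (nat_lit 0) (nat_lit 0) (nat_lit 0x7de105d1c2) (nat_lit 1041102504),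
  Rx.mk (nat_lit 444) (nat_lit 4) (nat_lit 7) (nat_lit 6) (nat_lit 6) (nat_lit 40) (nat_lit 216) r7_40 r2_216 (nat_lit 0) (nat_lit 0) (nat_lit 0) (nat_lit 0x7d9f1fb066) (nat_lit 1167456888),
  Rx.mk (nat_lit 445) (nat_lit 5) (nat_lit 7) (nat_lit 6) (nat_lit 7) (nat_lit 41) (nat_lit 217) r7_41 r2_217 (nat_lit 0) (nat_lit 0) (nat_lit 0) (nat_lit 0x7dcf8c696a) (nat_lit 1074607560),
  Rx.mk (nat_lit 511) (nat_lit 7) (nat_lit 7) (nat_lit 7) (nat_lit 7) (nat_lit 42) (nat_lit 215) r7_42 r2_215 (nat_lit 0) (nat_lit 0) (nat_lit 0) (nat_lit 0x7dd1b1471a) (nat_lit 1070496648)]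
noncomputable def e14_37 : List Rx := [
  Rx.mk (nat_lit 292) (nat_lit 4) (nat_lit 4) (nat_lit 4) (nat_lit 0) (nat_lit 159) (nat_lit 183) r7_159 r8_183 (nat_lit 0) (nat_lit 0) (nat_lit 0) (nat_lit 0xf50b40576) (nat_lit 55311694776),
  Rx.mk (nat_lit 293) (nat_lit 5) (nat_lit 4) (nat_lit 4) (nat_lit 1) (nat_lit 160) (nat_lit 184) r7_160 r8_184 (nat_lit 0) (nat_lit 0) (nat_lit 0) (nat_lit 0x6e6da8770c) (nat_lit 8625103344),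
  Rx.mk (nat_lit 301) (nat_lit 5) (nat_lit 5) (nat_lit 4) (nat_lit 3) (nat_lit 161) (nat_lit 189) r7_161 r8_189 (nat_lit 0) (nat_lit 0) (nat_lit 0) (nat_lit 0x7d74577d14) (nat_lit 1249486992),
  Rx.mk (nat_lit 316) (nat_lit 4) (nat_lit 7) (nat_lit 4) (nat_lit 2) (nat_lit 162) (nat_lit 192) r7_162 r8_192 (nat_lit 0) (nat_lit 0) (nat_lit 0) (nat_lit 0x69ea215402) (nat_lit 10840708008),
  Rx.mk (nat_lit 317) (nat_lit 5) (nat_lit 7) (nat_lit 4) (nat_lit 3) (nat_lit 163) (nat_lit 193) r7_163 r8_193 (nat_lit 0) (nat_lit 0) (nat_lit 0) (nat_lit 0x7dd111311c) (nat_lit 1071695664),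
  Rx.mk (nat_lit 319) (nat_lit 7) (nat_lit 7) (nat_lit 4) (nat_lit 3) (nat_lit 164) (nat_lit 194) r7_164 r8_194 (nat_lit 0) (nat_lit 0) (nat_lit 0) (nat_lit 0x7dde503d1e) (nat_lit 1046297304),
  Rx.mk (nat_lit 356) (nat_lit 4) (nat_lit 4) (nat_lit 5) (nat_lit 4) (nat_lit 165) (nat_lit 185) r7_165 r8_185 (nat_lit 0) (nat_lit 0) (nat_lit 0) (nat_lit 0x5ded7eea26) (nat_lit 16724495736),
  Rx.mk (nat_lit 357) (nat_lit 5) (nat_lit 4) (nat_lit 5) (nat_lit 5) (nat_lit 166) (nat_lit 186) r7_166 r8_186 (nat_lit 0) (nat_lit 0) (nat_lit 0) (nat_lit 0x7c45bbc7fe) (nat_lit 1829706840),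
  Rx.mk (nat_lit 365) (nat_lit 5) (nat_lit 5) (nat_lit 5) (nat_lit 7) (nat_lit 167) (nat_lit 190) r7_167 r8_190 (nat_lit 0) (nat_lit 0) (nat_lit 0) (nat_lit 0x7db6535d14) (nat_lit 1122969744),
  Rx.mk (nat_lit 380) (nat_lit 4) (nat_lit 7) (nat_lit 5) (nat_lit 6) (nat_lit 168) (nat_lit 195) r7_168 r8_195 (nat_lit 0) (nat_lit 0) (nat_lit 0) (nat_lit 0x7dc8110128) (nat_lit 1088953632),
  Rx.mk (nat_lit 381) (nat_lit 5) (nat_lit 7) (nat_lit 5) (nat_lit 7) (nat_lit 169) (nat_lit 196) r7_169 r8_196 (nat_lit 0) (nat_lit 0) (nat_lit 0) (nat_lit 0x7df38ba952) (nat_lit 1005586920),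
  Rx.mk (nat_lit 383) (nat_lit 7) (nat_lit 7) (nat_lit 5) (nat_lit 7) (nat_lit 170) (nat_lit 197) r7_170 r8_197 (nat_lit 0) (nat_lit 0) (nat_lit 0) (nat_lit 0x7df0e8138e) (nat_lit 1010646936),
  Rx.mk (nat_lit 420) (nat_lit 4) (nat_lit 4) (nat_lit 6) (nat_lit 4) (nat_lit 171) (nat_lit 187) r7_171 r8_187 (nat_lit 0) (nat_lit 0) (nat_lit 0) (nat_lit 0x6bc7e5f5da) (nat_lit 9924637320),
  Rx.mk (nat_lit 421) (nat_lit 5) (nat_lit 4) (nat_lit 6) (nat_lit 5) (nat_lit 172) (nat_lit 188) r7_172 r8_188 (nat_lit 0) (nat_lit 0) (nat_lit 0) (nat_lit 0x7d82afb782) (nat_lit 1221982632),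
  Rx.mk (nat_lit 429) (nat_lit 5) (nat_lit 5) (nat_lit 6) (nat_lit 7) (nat_lit 173) (nat_lit 191) r7_173 r8_191 (nat_lit 0) (nat_lit 0) (nat_lit 0) (nat_lit 0x7dea7a9a6c) (nat_lit 1022971248),
  Rx.mk (nat_lit 436) (nat_lit 4) (nat_lit 6) (nat_lit 6) (nat_lit 6) (nat_lit 174) (nat_lit 199) r7_174 r8_199 (nat_lit 0) (nat_lit 0) (nat_lit 0) (nat_lit 0x7dcf674bbc) (nat_lit 1074885552),
  Rx.mk (nat_lit 437) (nat_lit 5) (nat_lit 6) (nat_lit 6) (nat_lit 7) (nat_lit 175) (nat_lit 200) r7_175 r8_200 (nat_lit 0) (nat_lit 0) (nat_lit 0) (nat_lit 0x7ddabb966c) (nat_lit 1053162864),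
  Rx.mk (nat_lit 438) (nat_lit 6) (nat_lit 6) (nat_lit 6) (nat_lit 7) (nat_lit 176) (nat_lit 201) r7_176 r8_201 (nat_lit 0) (nat_lit 0) (nat_lit 0) (nat_lit 0x7dec61fbf4) (nat_lit 1019320848),
  Rx.mk (nat_lit 511) (nat_lit 7) (nat_lit 7) (nat_lit 7) (nat_lit 7) (nat_lit 177) (nat_lit 198) r7_177 r8_198 (nat_lit 0) (nat_lit 0) (nat_lit 0) (nat_lit 0x7ddc561cc2) (nat_lit 1050088104)]
noncomputable def e14_38 : List Rx := [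
  Rx.mk (nat_lit 292) (nat_lit 4) (nat_lit 4) (nat_lit 4) (nat_lit 0) (nat_lit 133) (nat_lit 86) r7_133 r8_86 (nat_lit 0) (nat_lit 0) (nat_lit 0) (nat_lit 0x4dd0ff623c) (nat_lit 24632792496),
  Rx.mk (nat_lit 293) (nat_lit 5) (nat_lit 4) (nat_lit 4) (nat_lit 1) (nat_lit 134) (nat_lit 87) r7_134 r8_87 (nat_lit 0) (nat_lit 0) (nat_lit 0) (nat_lit 0x726c30aa8a) (nat_lit 6664504392),
  Rx.mk (nat_lit 316) (nat_lit 4) (nat_lit 7) (nat_lit 4) (nat_lit 2) (nat_lit 135) (nat_lit 88) r7_135 r8_88 (nat_lit 0) (nat_lit 0) (nat_lit 0) (nat_lit 0x79a02d0390) (nat_lit 3128853312),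
  Rx.mk (nat_lit 317) (nat_lit 5) (nat_lit 7) (nat_lit 4) (nat_lit 3) (nat_lit 136) (nat_lit 89) r7_136 r8_89 (nat_lit 0) (nat_lit 0) (nat_lit 0) (nat_lit 0x7dcb1d3062) (nat_lit 1083110184),
  Rx.mk (nat_lit 319) (nat_lit 7) (nat_lit 7) (nat_lit 4) (nat_lit 3) (nat_lit 137) (nat_lit 90) r7_137 r8_90 (nat_lit 0) (nat_lit 0) (nat_lit 0) (nat_lit 0x7dc9350ee6) (nat_lit 1086766200),
  Rx.mk (nat_lit 420) (nat_lit 4) (nat_lit 4) (nat_lit 6) (nat_lit 4) (nat_lit 138) (nat_lit 92) r7_138 r8_92 (nat_lit 0) (nat_lit 0) (nat_lit 0) (nat_lit 0x72540acd00) (nat_lit 6710805504),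
  Rx.mk (nat_lit 421) (nat_lit 5) (nat_lit 4) (nat_lit 6) (nat_lit 5) (nat_lit 139) (nat_lit 93) r7_139 r8_93 (nat_lit 0) (nat_lit 0) (nat_lit 0) (nat_lit 0x7defee632a) (nat_lit 1012517064),
  Rx.mk (nat_lit 436) (nat_lit 4) (nat_lit 6) (nat_lit 6) (nat_lit 6) (nat_lit 140) (nat_lit 96) r7_140 r8_96 (nat_lit 0) (nat_lit 0) (nat_lit 0) (nat_lit 0x7da6639c20) (nat_lit 1153526400),
  Rx.mk (nat_lit 437) (nat_lit 5) (nat_lit 6) (nat_lit 6) (nat_lit 7) (nat_lit 141) (nat_lit 97) r7_141 r8_97 (nat_lit 0) (nat_lit 0) (nat_lit 0) (nat_lit 0x7dee723aee) (nat_lit 1015364376),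
  Rx.mk (nat_lit 438) (nat_lit 6) (nat_lit 6) (nat_lit 6) (nat_lit 7) (nat_lit 142) (nat_lit 98) r7_142 r8_98 (nat_lit 0) (nat_lit 0) (nat_lit 0) (nat_lit 0x7db8202046) (nat_lit 1119518712),
  Rx.mk (nat_lit 444) (nat_lit 4) (nat_lit 7) (nat_lit 6) (nat_lit 6) (nat_lit 143) (nat_lit 94) r7_143 r8_94 (nat_lit 0) (nat_lit 0) (nat_lit 0) (nat_lit 0x7de5f8a290) (nat_lit 1031614272),
  Rx.mk (nat_lit 445) (nat_lit 5) (nat_lit 7) (nat_lit 6) (nat_lit 7) (nat_lit 144) (nat_lit 95) r7_144 r8_95 (nat_lit 0) (nat_lit 0) (nat_lit 0) (nat_lit 0x7dd143cdf2) (nat_lit 1071316584),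
  Rx.mk (nat_lit 511) (nat_lit 7) (nat_lit 7) (nat_lit 7) (nat_lit 7) (nat_lit 145) (nat_lit 91) r7_145 r8_91 (nat_lit 0) (nat_lit 0) (nat_lit 0) (nat_lit 0x7df0bff610) (nat_lit 1010947392)]
noncomputable def e14_39 : List Rx := [
  Rx.mk (nat_lit 357) (nat_lit 5) (nat_lit 4) (nat_lit 5) (nat_lit 5) (nat_lit 66) (nat_lit 199) r7_66 r1_199 (nat_lit 0) (nat_lit 0) (nat_lit 0) (nat_lit 0x7d80f19366) (nat_lit 1225324152),
  Rx.mk (nat_lit 381) (nat_lit 5) (nat_lit 7) (nat_lit 5) (nat_lit 7) (nat_lit 67) (nat_lit 200) r7_67 r1_200 (nat_lit 0) (nat_lit 0) (nat_lit 0) (nat_lit 0x7df471daee) (nat_lit 1003862808)]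
noncomputable def e14_40 : List Rx := [
  Rx.mk (nat_lit 357) (nat_lit 5) (nat_lit 4) (nat_lit 5) (nat_lit 5) (nat_lit 191) (nat_lit 323) r7_191 r7_323 (nat_lit 0) (nat_lit 0) (nat_lit 0) (nat_lit 0x7cf1f683a6) (nat_lit 1499474808),
  Rx.mk (nat_lit 365) (nat_lit 5) (nat_lit 5) (nat_lit 5) (nat_lit 7) (nat_lit 192) (nat_lit 324) r7_192 r7_324 (nat_lit 0) (nat_lit 0) (nat_lit 0) (nat_lit 0x7dd911b10c) (nat_lit 1056352752),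
  Rx.mk (nat_lit 381) (nat_lit 5) (nat_lit 7) (nat_lit 5) (nat_lit 7) (nat_lit 193) (nat_lit 325) r7_193 r7_325 (nat_lit 0) (nat_lit 0) (nat_lit 0) (nat_lit 0x7ddc447ddc) (nat_lit 1050220080)]
noncomputable def e14_41 : List Rx := [
  Rx.mk (nat_lit 361) (nat_lit 1) (nat_lit 5) (nat_lit 5) (nat_lit 7) (nat_lit 180) (nat_lit 286) r7_180 r1_286 (nat_lit 0) (nat_lit 0) (nat_lit 0) (nat_lit 0x7de3424df8) (nat_lit 1036814688)]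
noncomputable def e14_42 : List Rx := [
  Rx.mk (nat_lit 73) (nat_lit 1) (nat_lit 1) (nat_lit 1) (nat_lit 7) (nat_lit 320) (nat_lit 314) r7_320 r2_314 (nat_lit 0) (nat_lit 0) (nat_lit 0) (nat_lit 0x7de672daec) (nat_lit 1030698864),
  Rx.mk (nat_lit 329) (nat_lit 1) (nat_lit 1) (nat_lit 5) (nat_lit 7) (nat_lit 321) (nat_lit 313) r7_321 r2_313 (nat_lit 0) (nat_lit 0) (nat_lit 0) (nat_lit 0x7dd04e3d4c) (nat_lit 1073155824),
  Rx.mk (nat_lit 361) (nat_lit 1) (nat_lit 5) (nat_lit 5) (nat_lit 7) (nat_lit 322) (nat_lit 312) r7_322 r2_312 (nat_lit 0) (nat_lit 0) (nat_lit 0) (nat_lit 0x7dacc2d626) (nat_lit 1141308792)]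
noncomputable def e14_43 : List Rx := [
  Rx.mk (nat_lit 361) (nat_lit 1) (nat_lit 5) (nat_lit 5) (nat_lit 7) (nat_lit 189) (nat_lit 189) r7_189 r7_189 (nat_lit 0) (nat_lit 0) (nat_lit 0) (nat_lit 0x7deaf8f286) (nat_lit 1022024952),
  Rx.mk (nat_lit 365) (nat_lit 5) (nat_lit 5) (nat_lit 5) (nat_lit 7) (nat_lit 190) (nat_lit 190) r7_190 r7_190 (nat_lit 0) (nat_lit 0) (nat_lit 0) (nat_lit 0x7de57f2a28) (nat_lit 1032524064)]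
noncomputable def e14_44 : List Rx := [
  Rx.mk (nat_lit 73) (nat_lit 1) (nat_lit 1) (nat_lit 1) (nat_lit 7) (nat_lit 327) (nat_lit 297) r7_327 r8_297 (nat_lit 0) (nat_lit 0) (nat_lit 0) (nat_lit 0x7de90d7140) (nat_lit 1025706240),
  Rx.mk (nat_lit 329) (nat_lit 1) (nat_lit 1) (nat_lit 5) (nat_lit 7) (nat_lit 328) (nat_lit 296) r7_328 r8_296 (nat_lit 0) (nat_lit 0) (nat_lit 0) (nat_lit 0x7dd57faa30) (nat_lit 1063198656),
  Rx.mk (nat_lit 361) (nat_lit 1) (nat_lit 5) (nat_lit 5) (nat_lit 7) (nat_lit 329) (nat_lit 295) r7_329 r8_295 (nat_lit 0) (nat_lit 0) (nat_lit 0) (nat_lit 0x7dafdd447c) (nat_lit 1135358640),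
  Rx.mk (nat_lit 365) (nat_lit 5) (nat_lit 5) (nat_lit 5) (nat_lit 7) (nat_lit 330) (nat_lit 294) r7_330 r8_294 (nat_lit 0) (nat_lit 0) (nat_lit 0) (nat_lit 0x7de241de00) (nat_lit 1038735360)]
noncomputable def e14_45 : List Rx := [
  Rx.mk (nat_lit 73) (nat_lit 1) (nat_lit 1) (nat_lit 1) (nat_lit 7) (nat_lit 326) (nat_lit 289) r7_326 r8_289 (nat_lit 0) (nat_lit 0) (nat_lit 0) (nat_lit 0x7df343add2) (nat_lit 1006126056)]
noncomputable def e14_46 : List Rx := [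
  Rx.mk (nat_lit 353) (nat_lit 1) (nat_lit 4) (nat_lit 5) (nat_lit 5) (nat_lit 181) (nat_lit 304) r7_181 r4_304 (nat_lit 0) (nat_lit 0) (nat_lit 0) (nat_lit 0x7de112f0f0) (nat_lit 1041004224),
  Rx.mk (nat_lit 361) (nat_lit 1) (nat_lit 5) (nat_lit 5) (nat_lit 7) (nat_lit 182) (nat_lit 305) r7_182 r4_305 (nat_lit 0) (nat_lit 0) (nat_lit 0) (nat_lit 0x7df79428c6) (nat_lit 997853688),
  Rx.mk (nat_lit 377) (nat_lit 1) (nat_lit 7) (nat_lit 5) (nat_lit 7) (nat_lit 183) (nat_lit 306) r7_183 r4_306 (nat_lit 0) (nat_lit 0) (nat_lit 0) (nat_lit 0x7df6d07502) (nat_lit 999319464)]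
noncomputable def e14_47 : List Rx := [
  Rx.mk (nat_lit 353) (nat_lit 1) (nat_lit 4) (nat_lit 5) (nat_lit 5) (nat_lit 68) (nat_lit 174) r7_68 r4_174 (nat_lit 0) (nat_lit 0) (nat_lit 0) (nat_lit 0x7d8ece758a) (nat_lit 1198743624),
  Rx.mk (nat_lit 377) (nat_lit 1) (nat_lit 7) (nat_lit 5) (nat_lit 7) (nat_lit 69) (nat_lit 175) r7_69 r4_175 (nat_lit 0) (nat_lit 0) (nat_lit 0) (nat_lit 0x7e35a76754) (nat_lit 878830992),
  Rx.mk (nat_lit 381) (nat_lit 5) (nat_lit 7) (nat_lit 5) (nat_lit 7) (nat_lit 70) (nat_lit 176) r7_70 r4_176 (nat_lit 0) (nat_lit 0) (nat_lit 0) (nat_lit 0x7ddc8799aa) (nat_lit 1049717448)]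
noncomputable def e14_48 : List Rx := [
  Rx.mk (nat_lit 353) (nat_lit 1) (nat_lit 4) (nat_lit 5) (nat_lit 5) (nat_lit 194) (nat_lit 326) r7_194 r9_326 (nat_lit 0) (nat_lit 0) (nat_lit 0) (nat_lit 0x7de3a84798) (nat_lit 1036050912),
  Rx.mk (nat_lit 361) (nat_lit 1) (nat_lit 5) (nat_lit 5) (nat_lit 7) (nat_lit 195) (nat_lit 327) r7_195 r9_327 (nat_lit 0) (nat_lit 0) (nat_lit 0) (nat_lit 0x7dd3600c2c) (nat_lit 1067270256),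
  Rx.mk (nat_lit 377) (nat_lit 1) (nat_lit 7) (nat_lit 5) (nat_lit 7) (nat_lit 196) (nat_lit 328) r7_196 r9_328 (nat_lit 0) (nat_lit 0) (nat_lit 0) (nat_lit 0x7de444fdcc) (nat_lit 1034877168),
  Rx.mk (nat_lit 381) (nat_lit 5) (nat_lit 7) (nat_lit 5) (nat_lit 7) (nat_lit 197) (nat_lit 325) r7_197 r9_325 (nat_lit 0) (nat_lit 0) (nat_lit 0) (nat_lit 0x7dea641bd4) (nat_lit 1023139728)]
noncomputable def e14_49 : List Rx := [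
  Rx.mk (nat_lit 377) (nat_lit 1) (nat_lit 7) (nat_lit 5) (nat_lit 7) (nat_lit 219) (nat_lit 344) r7_219 r10_344 (nat_lit 0) (nat_lit 0) (nat_lit 0) (nat_lit 0x7de8ed3344) (nat_lit 1025947728),
  Rx.mk (nat_lit 381) (nat_lit 5) (nat_lit 7) (nat_lit 5) (nat_lit 7) (nat_lit 220) (nat_lit 343) r7_220 r10_343 (nat_lit 0) (nat_lit 0) (nat_lit 0) (nat_lit 0x7de0f07318) (nat_lit 1041262560)]
noncomputable def e14_50 : List Rx := [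
  Rx.mk (nat_lit 353) (nat_lit 1) (nat_lit 4) (nat_lit 5) (nat_lit 5) (nat_lit 198) (nat_lit 219) r7_198 r10_219 (nat_lit 0) (nat_lit 0) (nat_lit 0) (nat_lit 0x7df20f8116) (nat_lit 1008434232),
  Rx.mk (nat_lit 361) (nat_lit 1) (nat_lit 5) (nat_lit 5) (nat_lit 7) (nat_lit 199) (nat_lit 220) r7_199 r10_220 (nat_lit 0) (nat_lit 0) (nat_lit 0) (nat_lit 0x7de83d5e42) (nat_lit 1027264680),
  Rx.mk (nat_lit 377) (nat_lit 1) (nat_lit 7) (nat_lit 5) (nat_lit 7) (nat_lit 200) (nat_lit 221) r7_200 r10_221 (nat_lit 0) (nat_lit 0) (nat_lit 0) (nat_lit 0x7deb8469ce) (nat_lit 1020980376)]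
noncomputable def e14_51 : List Rx := [
  Rx.mk (nat_lit 283) (nat_lit 3) (nat_lit 3) (nat_lit 4) (nat_lit 3) (nat_lit 201) (nat_lit 118) r7_201 r12_118 (nat_lit 0) (nat_lit 0) (nat_lit 0) (nat_lit 0x7cf07bdb52) (nat_lit 1502310888),
  Rx.mk (nat_lit 315) (nat_lit 3) (nat_lit 7) (nat_lit 4) (nat_lit 3) (nat_lit 202) (nat_lit 121) r7_202 r12_121 (nat_lit 0) (nat_lit 0) (nat_lit 0) (nat_lit 0x7def2a4f6c) (nat_lit 1013985648),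
  Rx.mk (nat_lit 347) (nat_lit 3) (nat_lit 3) (nat_lit 5) (nat_lit 7) (nat_lit 203) (nat_lit 119) r7_203 r12_119 (nat_lit 0) (nat_lit 0) (nat_lit 0) (nat_lit 0x7deb792a82) (nat_lit 1021064616),
  Rx.mk (nat_lit 379) (nat_lit 3) (nat_lit 7) (nat_lit 5) (nat_lit 7) (nat_lit 204) (nat_lit 122) r7_204 r12_122 (nat_lit 0) (nat_lit 0) (nat_lit 0) (nat_lit 0x7e4966ab4c) (nat_lit 840967920),
  Rx.mk (nat_lit 475) (nat_lit 3) (nat_lit 3) (nat_lit 7) (nat_lit 7) (nat_lit 205) (nat_lit 120) r7_205 r12_120 (nat_lit 0) (nat_lit 0) (nat_lit 0) (nat_lit 0x7df2ff7216) (nat_lit 1006637112)]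
noncomputable def e14_52 : List Rx := [
  Rx.mk (nat_lit 91) (nat_lit 3) (nat_lit 3) (nat_lit 1) (nat_lit 7) (nat_lit 361) (nat_lit 196) r7_361 r12_196 (nat_lit 0) (nat_lit 0) (nat_lit 0) (nat_lit 0x7dd7808a20) (nat_lit 1059357312),
  Rx.mk (nat_lit 320) (nat_lit 0) (nat_lit 0) (nat_lit 5) (nat_lit 4) (nat_lit 362) (nat_lit 191) r7_362 r12_191 (nat_lit 0) (nat_lit 0) (nat_lit 0) (nat_lit 0x6335d77f54) (nat_lit 14131512720),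
  Rx.mk (nat_lit 321) (nat_lit 1) (nat_lit 0) (nat_lit 5) (nat_lit 5) (nat_lit 363) (nat_lit 192) r7_363 r12_192 (nat_lit 0) (nat_lit 0) (nat_lit 0) (nat_lit 0x7da6297fc2) (nat_lit 1153961640),
  Rx.mk (nat_lit 344) (nat_lit 0) (nat_lit 3) (nat_lit 5) (nat_lit 6) (nat_lit 364) (nat_lit 193) r7_364 r12_193 (nat_lit 0) (nat_lit 0) (nat_lit 0) (nat_lit 0x7c2c753c80) (nat_lit 1878170112),
  Rx.mk (nat_lit 345) (nat_lit 1) (nat_lit 3) (nat_lit 5) (nat_lit 7) (nat_lit 365) (nat_lit 194) r7_365 r12_194 (nat_lit 0) (nat_lit 0) (nat_lit 0) (nat_lit 0x7ddfee8338) (nat_lit 1043194464),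
  Rx.mk (nat_lit 347) (nat_lit 3) (nat_lit 3) (nat_lit 5) (nat_lit 7) (nat_lit 366) (nat_lit 195) r7_366 r12_195 (nat_lit 0) (nat_lit 0) (nat_lit 0) (nat_lit 0x7dad63ac18) (nat_lit 1140104160)]
noncomputable def e14_53 : List Rx := [
  Rx.mk (nat_lit 315) (nat_lit 3) (nat_lit 7) (nat_lit 4) (nat_lit 3) (nat_lit 58) (nat_lit 115) r7_58 r12_115 (nat_lit 0) (nat_lit 0) (nat_lit 0) (nat_lit 0x7e3efef1d2) (nat_lit 860918760),
  Rx.mk (nat_lit 379) (nat_lit 3) (nat_lit 7) (nat_lit 5) (nat_lit 7) (nat_lit 59) (nat_lit 116) r7_59 r12_116 (nat_lit 0) (nat_lit 0) (nat_lit 0) (nat_lit 0x7e2750acce) (nat_lit 906324120),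
  Rx.mk (nat_lit 507) (nat_lit 3) (nat_lit 7) (nat_lit 7) (nat_lit 7) (nat_lit 60) (nat_lit 117) r7_60 r12_117 (nat_lit 0) (nat_lit 0) (nat_lit 0) (nat_lit 0x7de1ad6748) (nat_lit 1039847328)]
noncomputable def e14_54 : List Rx := [
  Rx.mk (nat_lit 88) (nat_lit 0) (nat_lit 3) (nat_lit 1) (nat_lit 6) (nat_lit 347) (nat_lit 269) r7_347 r12_269 (nat_lit 0) (nat_lit 0) (nat_lit 0) (nat_lit 0x7d3189aa34) (nat_lit 1377576720),
  Rx.mk (nat_lit 89) (nat_lit 1) (nat_lit 3) (nat_lit 1) (nat_lit 7) (nat_lit 348) (nat_lit 270) r7_348 r12_270 (nat_lit 0) (nat_lit 0) (nat_lit 0) (nat_lit 0x7df25e9c24) (nat_lit 1007841744),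
  Rx.mk (nat_lit 344) (nat_lit 0) (nat_lit 3) (nat_lit 5) (nat_lit 6) (nat_lit 349) (nat_lit 271) r7_349 r12_271 (nat_lit 0) (nat_lit 0) (nat_lit 0) (nat_lit 0x7d458d29e8) (nat_lit 1339202592),
  Rx.mk (nat_lit 345) (nat_lit 1) (nat_lit 3) (nat_lit 5) (nat_lit 7) (nat_lit 350) (nat_lit 272) r7_350 r12_272 (nat_lit 0) (nat_lit 0) (nat_lit 0) (nat_lit 0x7dcaa7d7b8) (nat_lit 1083989088)]
noncomputable def e14_55 : List Rx := [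
  Rx.mk (nat_lit 353) (nat_lit 1) (nat_lit 4) (nat_lit 5) (nat_lit 5) (nat_lit 61) (nat_lit 283) r7_61 r3_283 (nat_lit 0) (nat_lit 0) (nat_lit 0) (nat_lit 0x75b85a24a6) (nat_lit 5045911416),
  Rx.mk (nat_lit 377) (nat_lit 1) (nat_lit 7) (nat_lit 5) (nat_lit 7) (nat_lit 62) (nat_lit 284) r7_62 r3_284 (nat_lit 0) (nat_lit 0) (nat_lit 0) (nat_lit 0x7f3a485c40) (nat_lit 379102464)]
noncomputable def e14_56 : List Rx := [
  Rx.mk (nat_lit 377) (nat_lit 1) (nat_lit 7) (nat_lit 5) (nat_lit 7) (nat_lit 218) (nat_lit 285) r7_218 r12_285 (nat_lit 0) (nat_lit 0) (nat_lit 0) (nat_lit 0x7e67fac1ec) (nat_lit 782336880)]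
noncomputable def e14_57 : List Rx := [
  Rx.mk (nat_lit 353) (nat_lit 1) (nat_lit 4) (nat_lit 5) (nat_lit 5) (nat_lit 74) (nat_lit 189) r7_74 r12_189 (nat_lit 0) (nat_lit 0) (nat_lit 0) (nat_lit 0x7dea1aa06c) (nat_lit 1023690096),
  Rx.mk (nat_lit 377) (nat_lit 1) (nat_lit 7) (nat_lit 5) (nat_lit 7) (nat_lit 75) (nat_lit 190) r7_75 r12_190 (nat_lit 0) (nat_lit 0) (nat_lit 0) (nat_lit 0x7e3b884940) (nat_lit 867559680)]
noncomputable def e14 : List (List Rx) := [e14_0, e14_1, e14_2, e14_3, e14_4, e14_5, e14_6, e14_7, e14_8, e14_9, e14_10, e14_11, e14_12, e14_13, e14_14, e14_15, e14_16, e14_17, e14_18, e14_19, e14_20, e14_21, e14_22, e14_23, e14_24, e14_25, e14_26, e14_27, e14_28, e14_29, e14_30, e14_31, e14_32, e14_33, e14_34, e14_35, e14_36, e14_37, e14_38, e14_39, e14_40, e14_41, e14_42, e14_43, e14_44, e14_45, e14_46, e14_47, e14_48, e14_49,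 e14_50, e14_51, e14_52, e14_53, e14_54, e14_55, e14_56, e14_57]
noncomputable def e15_0 : List Rx := [
  Rx.mk (nat_lit 507) (nat_lit 3) (nat_lit 7) (nat_lit 7) (nat_lit 7) (nat_lit 0) (nat_lit 141) r8_0 r0_141 (nat_lit 0) (nat_lit 0) (nat_lit 0) (nat_lit 0x7dde1b0072) (nat_lit 1046696040)]
noncomputable def e15_1 : List Rx := [
  Rx.mk (nat_lit 507) (nat_lit 3) (nat_lit 7) (nat_lit 7) (nat_lit 7) (nat_lit 1) (nat_lit 153) r8_1 r1_153 (nat_lit 0) (nat_lit 0) (nat_lit 0) (nat_lit 0x7de94bad5c) (nat_lit 1025240112)]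
noncomputable def e15_2 : List Rx := [
  Rx.mk (nat_lit 0) (nat_lit 0) (nat_lit 0) (nat_lit 0) (nat_lit 0) (nat_lit 2) (nat_lit 146) r8_2 r2_146 (nat_lit 0) (nat_lit 0) (nat_lit 0) (nat_lit 0x22bc65d6ec) (nat_lit 45778986864),
  Rx.mk (nat_lit 2) (nat_lit 2) (nat_lit 0) (nat_lit 0) (nat_lit 1) (nat_lit 5) (nat_lit 152) r8_5 r2_152 (nat_lit 0) (nat_lit 0) (nat_lit 0) (nat_lit 0x6cc1809b36) (nat_lit 9446047416),
  Rx.mk (nat_lit 24) (nat_lit 0) (nat_lit 3) (nat_lit 0) (nat_lit 2) (nat_lit 3) (nat_lit 147) r8_3 r2_147 (nat_lit 0) (nat_lit 0) (nat_lit 0) (nat_lit 0x69ae26f3e4) (nat_lit 10955709648),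
  Rx.mk (nat_lit 26) (nat_lit 2) (nat_lit 3) (nat_lit 0) (nat_lit 3) (nat_lit 8) (nat_lit 154) r8_8 r2_154 (nat_lit 0) (nat_lit 0) (nat_lit 0) (nat_lit 0x7d4d86ea44) (nat_lit 1323910224),
  Rx.mk (nat_lit 130) (nat_lit 2) (nat_lit 0) (nat_lit 2) (nat_lit 5) (nat_lit 6) (nat_lit 153) r8_6 r2_153 (nat_lit 0) (nat_lit 0) (nat_lit 0) (nat_lit 0x7b78681e06) (nat_lit 2223399672),
  Rx.mk (nat_lit 146) (nat_lit 2) (nat_lit 2) (nat_lit 2) (nat_lit 7) (nat_lit 7) (nat_lit 157) r8_7 r2_157 (nat_lit 0) (nat_lit 0) (nat_lit 0) (nat_lit 0x7de2b616bc) (nat_lit 1037864880),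
  Rx.mk (nat_lit 154) (nat_lit 2) (nat_lit 3) (nat_lit 2) (nat_lit 7) (nat_lit 9) (nat_lit 156) r8_9 r2_156 (nat_lit 0) (nat_lit 0) (nat_lit 0) (nat_lit 0x7df040de02) (nat_lit 1011899304),
  Rx.mk (nat_lit 216) (nat_lit 0) (nat_lit 3) (nat_lit 3) (nat_lit 6) (nat_lit 4) (nat_lit 148) r8_4 r2_148 (nat_lit 0) (nat_lit 0) (nat_lit 0) (nat_lit 0x7bd6535ef4) (nat_lit 2043319824),
  Rx.mk (nat_lit 218) (nat_lit 2) (nat_lit 3) (nat_lit 3) (nat_lit 7) (nat_lit 10) (nat_lit 155) r8_10 r2_155 (nat_lit 0) (nat_lit 0) (nat_lit 0) (nat_lit 0x7da7826a32) (nat_lit 1151378280),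
  Rx.mk (nat_lit 219) (nat_lit 3) (nat_lit 3) (nat_lit 3) (nat_lit 7) (nat_lit 13) (nat_lit 149) r8_13 r2_149 (nat_lit 0) (nat_lit 0) (nat_lit 0) (nat_lit 0x7db8d11536) (nat_lit 1118193336),
  Rx.mk (nat_lit 251) (nat_lit 3) (nat_lit 7) (nat_lit 3) (nat_lit 7) (nat_lit 12) (nat_lit 150) r8_12 r2_150 (nat_lit 0) (nat_lit 0) (nat_lit 0) (nat_lit 0x7dd4cc7564) (nat_lit 1064540880),
  Rx.mk (nat_lit 507) (nat_lit 3) (nat_lit 7) (nat_lit 7) (nat_lit 7) (nat_lit 11) (nat_lit 151) r8_11 r2_151 (nat_lit 0) (nat_lit 0) (nat_lit 0) (nat_lit 0x7dc7103136) (nat_lit 1090877112)]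
noncomputable def e15_3 : List Rx := [
  Rx.mk (nat_lit 379) (nat_lit 3) (nat_lit 7) (nat_lit 5) (nat_lit 7) (nat_lit 14) (nat_lit 120) r8_14 r3_120 (nat_lit 0) (nat_lit 0) (nat_lit 0) (nat_lit 0x7ad52b5276) (nat_lit 2536390584)]
noncomputable def e15_4 : List Rx := [
  Rx.mk (nat_lit 315) (nat_lit 3) (nat_lit 7) (nat_lit 4) (nat_lit 3) (nat_lit 15) (nat_lit 128) r8_15 r4_128 (nat_lit 0) (nat_lit 0) (nat_lit 0) (nat_lit 0x7de2b8b692) (nat_lit 1037845224),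
  Rx.mk (nat_lit 379) (nat_lit 3) (nat_lit 7) (nat_lit 5) (nat_lit 7) (nat_lit 16) (nat_lit 129) r8_16 r4_129 (nat_lit 0) (nat_lit 0) (nat_lit 0) (nat_lit 0x7df79428c6) (nat_lit 997853688),
  Rx.mk (nat_lit 507) (nat_lit 3) (nat_lit 7) (nat_lit 7) (nat_lit 7) (nat_lit 17) (nat_lit 130) r8_17 r4_130 (nat_lit 0) (nat_lit 0) (nat_lit 0) (nat_lit 0x7dd77c6a62) (nat_lit 1059388200)]
noncomputable def e15_5 : List Rx := [
  Rx.mk (nat_lit 88) (nat_lit 0) (nat_lit 3) (nat_lit 1) (nat_lit 6) (nat_lit 19) (nat_lit 139) r8_19 r3_139 (nat_lit 0) (nat_lit 0) (nat_lit 0) (nat_lit 0x6e3f9218a0) (nat_lit 8713471104),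
  Rx.mk (nat_lit 89) (nat_lit 1) (nat_lit 3) (nat_lit 1) (nat_lit 7) (nat_lit 20) (nat_lit 140) r8_20 r3_140 (nat_lit 0) (nat_lit 0) (nat_lit 0) (nat_lit 0x7c4a3100a6) (nat_lit 1821159288),
  Rx.mk (nat_lit 91) (nat_lit 3) (nat_lit 3) (nat_lit 1) (nat_lit 7) (nat_lit 22) (nat_lit 141) r8_22 r3_141 (nat_lit 0) (nat_lit 0) (nat_lit 0) (nat_lit 0x7764b97d04) (nat_lit 4224551760),
  Rx.mk (nat_lit 123) (nat_lit 3) (nat_lit 7) (nat_lit 1) (nat_lit 7) (nat_lit 21) (nat_lit 138) r8_21 r3_138 (nat_lit 0) (nat_lit 0) (nat_lit 0) (nat_lit 0x7bb65c3e86) (nat_lit 2104610040)]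
noncomputable def e15_6 : List Rx := [
  Rx.mk (nat_lit 0) (nat_lit 0) (nat_lit 0) (nat_lit 0) (nat_lit 0) (nat_lit 23) (nat_lit 155) r8_23 r0_155 (nat_lit 0) (nat_lit 0) (nat_lit 0) (nat_lit 0x2380ce4fa0) (nat_lit 45402394752),
  Rx.mk (nat_lit 2) (nat_lit 2) (nat_lit 0) (nat_lit 0) (nat_lit 1) (nat_lit 29) (nat_lit 158) r8_29 r0_158 (nat_lit 0) (nat_lit 0) (nat_lit 0) (nat_lit 0x6bb29a6aa8) (nat_lit 9965468448),
  Rx.mk (nat_lit 24) (nat_lit 0) (nat_lit 3) (nat_lit 0) (nat_lit 2) (nat_lit 25) (nat_lit 161) r8_25 r0_161 (nat_lit 0) (nat_lit 0) (nat_lit 0) (nat_lit 0x6eebb9b57a) (nat_lit 8383382280),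
  Rx.mk (nat_lit 26) (nat_lit 2) (nat_lit 3) (nat_lit 0) (nat_lit 3) (nat_lit 33) (nat_lit 167) r8_33 r0_167 (nat_lit 0) (nat_lit 0) (nat_lit 0) (nat_lit 0x7db254fcfe) (nat_lit 1130627160),
  Rx.mk (nat_lit 27) (nat_lit 3) (nat_lit 3) (nat_lit 0) (nat_lit 3) (nat_lit 37) (nat_lit 164) r8_37 r0_164 (nat_lit 0) (nat_lit 0) (nat_lit 0) (nat_lit 0x7d6504125a) (nat_lit 1278872712),
  Rx.mk (nat_lit 64) (nat_lit 0) (nat_lit 0) (nat_lit 1) (nat_lit 4) (nat_lit 24) (nat_lit 156) r8_24 r0_156 (nat_lit 0) (nat_lit 0) (nat_lit 0) (nat_lit 0x68034003fe) (nat_lit 11774250072),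
  Rx.mk (nat_lit 65) (nat_lit 1) (nat_lit 0) (nat_lit 1) (nat_lit 5) (nat_lit 27) (nat_lit 157) r8_27 r0_157 (nat_lit 0) (nat_lit 0) (nat_lit 0) (nat_lit 0x7dafa1a836) (nat_lit 1135805112),
  Rx.mk (nat_lit 66) (nat_lit 2) (nat_lit 0) (nat_lit 1) (nat_lit 5) (nat_lit 30) (nat_lit 159) r8_30 r0_159 (nat_lit 0) (nat_lit 0) (nat_lit 0) (nat_lit 0x7dd4e773b4) (nat_lit 1064338704),
  Rx.mk (nat_lit 88) (nat_lit 0) (nat_lit 3) (nat_lit 1) (nat_lit 6) (nat_lit 26) (nat_lit 162) r8_26 r0_162 (nat_lit 0) (nat_lit 0) (nat_lit 0) (nat_lit 0x7dd9e10416) (nat_lit 1054799928),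
  Rx.mk (nat_lit 89) (nat_lit 1) (nat_lit 3) (nat_lit 1) (nat_lit 7) (nat_lit 28) (nat_lit 163) r8_28 r0_163 (nat_lit 0) (nat_lit 0) (nat_lit 0) (nat_lit 0x7df8ad5732) (nat_lit 995747688),
  Rx.mk (nat_lit 90) (nat_lit 2) (nat_lit 3) (nat_lit 1) (nat_lit 7) (nat_lit 34) (nat_lit 168) r8_34 r0_168 (nat_lit 0) (nat_lit 0) (nat_lit 0) (nat_lit 0x7df1b4c6c2) (nat_lit 1009113768),
  Rx.mk (nat_lit 91) (nat_lit 3) (nat_lit 3) (nat_lit 1) (nat_lit 7) (nat_lit 38) (nat_lit 165) r8_38 r0_165 (nat_lit 0) (nat_lit 0) (nat_lit 0) (nat_lit 0x7df299187c) (nat_lit 1007403696),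
  Rx.mk (nat_lit 130) (nat_lit 2) (nat_lit 0) (nat_lit 2) (nat_lit 5) (nat_lit 31) (nat_lit 160) r8_31 r0_160 (nat_lit 0) (nat_lit 0) (nat_lit 0) (nat_lit 0x7d2f99a936) (nat_lit 1381291704),
  Rx.mk (nat_lit 146) (nat_lit 2) (nat_lit 2) (nat_lit 2) (nat_lit 7) (nat_lit 32) (nat_lit 170) r8_32 r0_170 (nat_lit 0) (nat_lit 0) (nat_lit 0) (nat_lit 0x7d8f316f5a) (nat_lit 1198002312),
  Rx.mk (nat_lit 154) (nat_lit 2) (nat_lit 3) (nat_lit 2) (nat_lit 7) (nat_lit 35) (nat_lit 169) r8_35 r0_169 (nat_lit 0) (nat_lit 0) (nat_lit 0) (nat_lit 0x7df06cbb44) (nat_lit 1011570768),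
  Rx.mk (nat_lit 219) (nat_lit 3) (nat_lit 3) (nat_lit 3) (nat_lit 7) (nat_lit 39) (nat_lit 166) r8_39 r0_166 (nat_lit 0) (nat_lit 0) (nat_lit 0) (nat_lit 0x7dde5a5c7c) (nat_lit 1046221488),
  Rx.mk (nat_lit 251) (nat_lit 3) (nat_lit 7) (nat_lit 3) (nat_lit 7) (nat_lit 36) (nat_lit 154) r8_36 r0_154 (nat_lit 0) (nat_lit 0) (nat_lit 0) (nat_lit 0x7df79428c6) (nat_lit 997853688)]
noncomputable def e15_7 : List Rx := [
  Rx.mk (nat_lit 0) (nat_lit 0) (nat_lit 0) (nat_lit 0) (nat_lit 0) (nat_lit 40) (nat_lit 170) r8_40 r1_170 (nat_lit 0) (nat_lit 0) (nat_lit 0) (nat_lit 0x26a0315650) (nat_lit 43869653568),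
  Rx.mk (nat_lit 2) (nat_lit 2) (nat_lit 0) (nat_lit 0) (nat_lit 1) (nat_lit 42) (nat_lit 171) r8_42 r1_171 (nat_lit 0) (nat_lit 0) (nat_lit 0) (nat_lit 0x6aa9b3da1a) (nat_lit 10473387912),
  Rx.mk (nat_lit 24) (nat_lit 0) (nat_lit 3) (nat_lit 0) (nat_lit 2) (nat_lit 41) (nat_lit 173) r8_41 r1_173 (nat_lit 0) (nat_lit 0) (nat_lit 0) (nat_lit 0x67ac0677ee) (nat_lit 11941494552),
  Rx.mk (nat_lit 26) (nat_lit 2) (nat_lit 3) (nat_lit 0) (nat_lit 3) (nat_lit 45) (nat_lit 176) r8_45 r1_176 (nat_lit 0) (nat_lit 0) (nat_lit 0) (nat_lit 0x7dc7b886b0) (nat_lit 1089616320),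
  Rx.mk (nat_lit 27) (nat_lit 3) (nat_lit 3) (nat_lit 0) (nat_lit 3) (nat_lit 48) (nat_lit 174) r8_48 r1_174 (nat_lit 0) (nat_lit 0) (nat_lit 0) (nat_lit 0x7d65dd24c8) (nat_lit 1277246880),
  Rx.mk (nat_lit 130) (nat_lit 2) (nat_lit 0) (nat_lit 2) (nat_lit 5) (nat_lit 43) (nat_lit 172) r8_43 r1_172 (nat_lit 0) (nat_lit 0) (nat_lit 0) (nat_lit 0x7ccbdaa58a) (nat_lit 1572544584),
  Rx.mk (nat_lit 146) (nat_lit 2) (nat_lit 2) (nat_lit 2) (nat_lit 7) (nat_lit 44) (nat_lit 178) r8_44 r1_178 (nat_lit 0) (nat_lit 0) (nat_lit 0) (nat_lit 0x7d9c4f7d6c) (nat_lit 1172851056),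
  Rx.mk (nat_lit 154) (nat_lit 2) (nat_lit 3) (nat_lit 2) (nat_lit 7) (nat_lit 46) (nat_lit 177) r8_46 r1_177 (nat_lit 0) (nat_lit 0) (nat_lit 0) (nat_lit 0x7de6d574c2) (nat_lit 1029960360),
  Rx.mk (nat_lit 219) (nat_lit 3) (nat_lit 3) (nat_lit 3) (nat_lit 7) (nat_lit 49) (nat_lit 175) r8_49 r1_175 (nat_lit 0) (nat_lit 0) (nat_lit 0) (nat_lit 0x7dbc1ee056) (nat_lit 1111858488),
  Rx.mk (nat_lit 251) (nat_lit 3) (nat_lit 7) (nat_lit 3) (nat_lit 7) (nat_lit 47) (nat_lit 169) r8_47 r1_169 (nat_lit 0) (nat_lit 0) (nat_lit 0) (nat_lit 0x7df3ef031c) (nat_lit 1004842800)]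
noncomputable def e15_8 : List Rx := [
  Rx.mk (nat_lit 24) (nat_lit 0) (nat_lit 3) (nat_lit 0) (nat_lit 2) (nat_lit 50) (nat_lit 147) r8_50 r4_147 (nat_lit 0) (nat_lit 0) (nat_lit 0) (nat_lit 0x6c5214126e) (nat_lit 9659691288),
  Rx.mk (nat_lit 26) (nat_lit 2) (nat_lit 3) (nat_lit 0) (nat_lit 3) (nat_lit 53) (nat_lit 152) r8_53 r4_152 (nat_lit 0) (nat_lit 0) (nat_lit 0) (nat_lit 0x7ddbcbc568) (nat_lit 1051124256),
  Rx.mk (nat_lit 27) (nat_lit 3) (nat_lit 3) (nat_lit 0) (nat_lit 3) (nat_lit 59) (nat_lit 150) r8_59 r4_150 (nat_lit 0) (nat_lit 0) (nat_lit 0) (nat_lit 0x7dc71c9070) (nat_lit 1090784448),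
  Rx.mk (nat_lit 59) (nat_lit 3) (nat_lit 7) (nat_lit 0) (nat_lit 3) (nat_lit 56) (nat_lit 144) r8_56 r4_144 (nat_lit 0) (nat_lit 0) (nat_lit 0) (nat_lit 0x7db61d007a) (nat_lit 1123376904),
  Rx.mk (nat_lit 88) (nat_lit 0) (nat_lit 3) (nat_lit 1) (nat_lit 6) (nat_lit 51) (nat_lit 148) r8_51 r4_148 (nat_lit 0) (nat_lit 0) (nat_lit 0) (nat_lit 0x7dc4b916aa) (nat_lit 1095364296),
  Rx.mk (nat_lit 89) (nat_lit 1) (nat_lit 3) (nat_lit 1) (nat_lit 7) (nat_lit 52) (nat_lit 149) r8_52 r4_149 (nat_lit 0) (nat_lit 0) (nat_lit 0) (nat_lit 0x7df5dd2438) (nat_lit 1001141856),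
  Rx.mk (nat_lit 90) (nat_lit 2) (nat_lit 3) (nat_lit 1) (nat_lit 7) (nat_lit 54) (nat_lit 153) r8_54 r4_153 (nat_lit 0) (nat_lit 0) (nat_lit 0) (nat_lit 0x7de39ca852) (nat_lit 1036137960),
  Rx.mk (nat_lit 91) (nat_lit 3) (nat_lit 3) (nat_lit 1) (nat_lit 7) (nat_lit 60) (nat_lit 151) r8_60 r4_151 (nat_lit 0) (nat_lit 0) (nat_lit 0) (nat_lit 0x7df5b98672) (nat_lit 1001408616),
  Rx.mk (nat_lit 123) (nat_lit 3) (nat_lit 7) (nat_lit 1) (nat_lit 7) (nat_lit 57) (nat_lit 145) r8_57 r4_145 (nat_lit 0) (nat_lit 0) (nat_lit 0) (nat_lit 0x7dde50fd12) (nat_lit 1046291688),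
  Rx.mk (nat_lit 154) (nat_lit 2) (nat_lit 3) (nat_lit 2) (nat_lit 7) (nat_lit 55) (nat_lit 154) r8_55 r4_154 (nat_lit 0) (nat_lit 0) (nat_lit 0) (nat_lit 0x7df7378e90) (nat_lit 998547264),
  Rx.mk (nat_lit 251) (nat_lit 3) (nat_lit 7) (nat_lit 3) (nat_lit 7) (nat_lit 58) (nat_lit 146) r8_58 r4_146 (nat_lit 0) (nat_lit 0) (nat_lit 0) (nat_lit 0x7de458dc8e) (nat_lit 1034728344)]
noncomputable def e15_9 : List Rx := [
  Rx.mk (nat_lit 123) (nat_lit 3) (nat_lit 7) (nat_lit 1) (nat_lit 7) (nat_lit 62) (nat_lit 126) r8_62 r5_126 (nat_lit 0) (nat_lit 0) (nat_lit 0) (nat_lit 0x7df57b4a56) (nat_lit 1001874744),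
  Rx.mk (nat_lit 379) (nat_lit 3) (nat_lit 7) (nat_lit 5) (nat_lit 7) (nat_lit 61) (nat_lit 127) r8_61 r5_127 (nat_lit 0) (nat_lit 0) (nat_lit 0) (nat_lit 0x7dd1aea744) (nat_lit 1070516304)]
noncomputable def e15_10 : List Rx := [
  Rx.mk (nat_lit 356) (nat_lit 4) (nat_lit 4) (nat_lit 5) (nat_lit 4) (nat_lit 65) (nat_lit 262) r8_65 r0_262 (nat_lit 0) (nat_lit 0) (nat_lit 0) (nat_lit 0x69ec4571be) (nat_lit 10836602712),
  Rx.mk (nat_lit 359) (nat_lit 7) (nat_lit 4) (nat_lit 5) (nat_lit 5) (nat_lit 66) (nat_lit 263) r8_66 r0_263 (nat_lit 0) (nat_lit 0) (nat_lit 0) (nat_lit 0x7d93758b14) (nat_lit 1189822608),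
  Rx.mk (nat_lit 383) (nat_lit 7) (nat_lit 7) (nat_lit 5) (nat_lit 7) (nat_lit 67) (nat_lit 264) r8_67 r0_264 (nat_lit 0) (nat_lit 0) (nat_lit 0) (nat_lit 0x7ddc6c3b60) (nat_lit 1049922432)]
noncomputable def e15_11 : List Rx := [
  Rx.mk (nat_lit 292) (nat_lit 4) (nat_lit 4) (nat_lit 4) (nat_lit 0) (nat_lit 68) (nat_lit 161) r8_68 r6_161 (nat_lit 0) (nat_lit 0) (nat_lit 0) (nat_lit 0x1096296cda) (nat_lit 54687661704),
  Rx.mk (nat_lit 295) (nat_lit 7) (nat_lit 4) (nat_lit 4) (nat_lit 1) (nat_lit 74) (nat_lit 166) r8_74 r6_166 (nat_lit 0) (nat_lit 0) (nat_lit 0) (nat_lit 0x5019957692) (nat_lit 23511909096),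
  Rx.mk (nat_lit 308) (nat_lit 4) (nat_lit 6) (nat_lit 4) (nat_lit 2) (nat_lit 70) (nat_lit 163) r8_70 r6_163 (nat_lit 0) (nat_lit 0) (nat_lit 0) (nat_lit 0x6a853e8194) (nat_lit 10543293072),
  Rx.mk (nat_lit 311) (nat_lit 7) (nat_lit 6) (nat_lit 4) (nat_lit 3) (nat_lit 76) (nat_lit 171) r8_76 r6_171 (nat_lit 0) (nat_lit 0) (nat_lit 0) (nat_lit 0x7d87fec28c) (nat_lit 1211803632),
  Rx.mk (nat_lit 319) (nat_lit 7) (nat_lit 7) (nat_lit 4) (nat_lit 3) (nat_lit 79) (nat_lit 168) r8_79 r6_168 (nat_lit 0) (nat_lit 0) (nat_lit 0) (nat_lit 0x7d16a3b8ae) (nat_lit 1429151256),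
  Rx.mk (nat_lit 356) (nat_lit 4) (nat_lit 4) (nat_lit 5) (nat_lit 4) (nat_lit 69) (nat_lit 162) r8_69 r6_162 (nat_lit 0) (nat_lit 0) (nat_lit 0) (nat_lit 0x71f61f2c18) (nat_lit 6890888160),
  Rx.mk (nat_lit 359) (nat_lit 7) (nat_lit 4) (nat_lit 5) (nat_lit 5) (nat_lit 75) (nat_lit 167) r8_75 r6_167 (nat_lit 0) (nat_lit 0) (nat_lit 0) (nat_lit 0x7dd000422c) (nat_lit 1073739888),
  Rx.mk (nat_lit 372) (nat_lit 4) (nat_lit 6) (nat_lit 5) (nat_lit 6) (nat_lit 71) (nat_lit 164) r8_71 r6_164 (nat_lit 0) (nat_lit 0) (nat_lit 0) (nat_lit 0x7dc10491f6) (nat_lit 1102468536),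
  Rx.mk (nat_lit 375) (nat_lit 7) (nat_lit 6) (nat_lit 5) (nat_lit 7) (nat_lit 77) (nat_lit 172) r8_77 r6_172 (nat_lit 0) (nat_lit 0) (nat_lit 0) (nat_lit 0x7deecab566) (nat_lit 1014701688),
  Rx.mk (nat_lit 383) (nat_lit 7) (nat_lit 7) (nat_lit 5) (nat_lit 7) (nat_lit 80) (nat_lit 169) r8_80 r6_169 (nat_lit 0) (nat_lit 0) (nat_lit 0) (nat_lit 0x7de0fcd252) (nat_lit 1041169896),
  Rx.mk (nat_lit 436) (nat_lit 4) (nat_lit 6) (nat_lit 6) (nat_lit 6) (nat_lit 72) (nat_lit 165) r8_72 r6_165 (nat_lit 0) (nat_lit 0) (nat_lit 0) (nat_lit 0x7c9b768bfc) (nat_lit 1665329328),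
  Rx.mk (nat_lit 438) (nat_lit 6) (nat_lit 6) (nat_lit 6) (nat_lit 7) (nat_lit 73) (nat_lit 174) r8_73 r6_174 (nat_lit 0) (nat_lit 0) (nat_lit 0) (nat_lit 0x7de7e5a3be) (nat_lit 1027921752),
  Rx.mk (nat_lit 439) (nat_lit 7) (nat_lit 6) (nat_lit 6) (nat_lit 7) (nat_lit 78) (nat_lit 173) r8_78 r6_173 (nat_lit 0) (nat_lit 0) (nat_lit 0) (nat_lit 0x7de3b0e70e) (nat_lit 1035986328),
  Rx.mk (nat_lit 507) (nat_lit 3) (nat_lit 7) (nat_lit 7) (nat_lit 7) (nat_lit 82) (nat_lit 160) r8_82 r6_160 (nat_lit 0) (nat_lit 0) (nat_lit 0) (nat_lit 0x7ddda00822) (nat_lit 1047617064),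
  Rx.mk (nat_lit 511) (nat_lit 7) (nat_lit 7) (nat_lit 7) (nat_lit 7) (nat_lit 81) (nat_lit 170) r8_81 r6_170 (nat_lit 0) (nat_lit 0) (nat_lit 0) (nat_lit 0x7dc460fc2c) (nat_lit 1096024176)]
noncomputable def e15_12 : List Rx := [
  Rx.mk (nat_lit 356) (nat_lit 4) (nat_lit 4) (nat_lit 5) (nat_lit 4) (nat_lit 83) (nat_lit 269) r8_83 r1_269 (nat_lit 0) (nat_lit 0) (nat_lit 0) (nat_lit 0x6f59076032) (nat_lit 8173804392),
  Rx.mk (nat_lit 359) (nat_lit 7) (nat_lit 4) (nat_lit 5) (nat_lit 5) (nat_lit 84) (nat_lit 270) r8_84 r1_270 (nat_lit 0) (nat_lit 0) (nat_lit 0) (nat_lit 0x7dc4b5b6e0) (nat_lit 1095389568),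
  Rx.mk (nat_lit 383) (nat_lit 7) (nat_lit 7) (nat_lit 5) (nat_lit 7) (nat_lit 85) (nat_lit 271) r8_85 r1_271 (nat_lit 0) (nat_lit 0) (nat_lit 0) (nat_lit 0x7de721effa) (nat_lit 1029387528)]
noncomputable def e15_13 : List Rx := [
  Rx.mk (nat_lit 292) (nat_lit 4) (nat_lit 4) (nat_lit 4) (nat_lit 0) (nat_lit 86) (nat_lit 133) r8_86 r7_133 (nat_lit 0) (nat_lit 0) (nat_lit 0) (nat_lit 0x4dd0ff623c) (nat_lit 24632792496),
  Rx.mk (nat_lit 295) (nat_lit 7) (nat_lit 4) (nat_lit 4) (nat_lit 1) (nat_lit 92) (nat_lit 138) r8_92 r7_138 (nat_lit 0) (nat_lit 0) (nat_lit 0) (nat_lit 0x72540acd00) (nat_lit 6710805504),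
  Rx.mk (nat_lit 308) (nat_lit 4) (nat_lit 6) (nat_lit 4) (nat_lit 2) (nat_lit 88) (nat_lit 135) r8_88 r7_135 (nat_lit 0) (nat_lit 0) (nat_lit 0) (nat_lit 0x79a02d0390) (nat_lit 3128853312),
  Rx.mk (nat_lit 311) (nat_lit 7) (nat_lit 6) (nat_lit 4) (nat_lit 3) (nat_lit 94) (nat_lit 143) r8_94 r7_143 (nat_lit 0) (nat_lit 0) (nat_lit 0) (nat_lit 0x7de5f8a290) (nat_lit 1031614272),
  Rx.mk (nat_lit 319) (nat_lit 7) (nat_lit 7) (nat_lit 4) (nat_lit 3) (nat_lit 96) (nat_lit 140) r8_96 r7_140 (nat_lit 0) (nat_lit 0) (nat_lit 0) (nat_lit 0x7da6639c20) (nat_lit 1153526400),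
  Rx.mk (nat_lit 356) (nat_lit 4) (nat_lit 4) (nat_lit 5) (nat_lit 4) (nat_lit 87) (nat_lit 134) r8_87 r7_134 (nat_lit 0) (nat_lit 0) (nat_lit 0) (nat_lit 0x726c30aa8a) (nat_lit 6664504392),
  Rx.mk (nat_lit 359) (nat_lit 7) (nat_lit 4) (nat_lit 5) (nat_lit 5) (nat_lit 93) (nat_lit 139) r8_93 r7_139 (nat_lit 0) (nat_lit 0) (nat_lit 0) (nat_lit 0x7defee632a) (nat_lit 1012517064),
  Rx.mk (nat_lit 372) (nat_lit 4) (nat_lit 6) (nat_lit 5) (nat_lit 6) (nat_lit 89) (nat_lit 136) r8_89 r7_136 (nat_lit 0) (nat_lit 0) (nat_lit 0) (nat_lit 0x7dcb1d3062) (nat_lit 1083110184),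
  Rx.mk (nat_lit 375) (nat_lit 7) (nat_lit 6) (nat_lit 5) (nat_lit 7) (nat_lit 95) (nat_lit 144) r8_95 r7_144 (nat_lit 0) (nat_lit 0) (nat_lit 0) (nat_lit 0x7dd143cdf2) (nat_lit 1071316584),
  Rx.mk (nat_lit 383) (nat_lit 7) (nat_lit 7) (nat_lit 5) (nat_lit 7) (nat_lit 97) (nat_lit 141) r8_97 r7_141 (nat_lit 0) (nat_lit 0) (nat_lit 0) (nat_lit 0x7dee723aee) (nat_lit 1015364376),
  Rx.mk (nat_lit 436) (nat_lit 4) (nat_lit 6) (nat_lit 6) (nat_lit 6) (nat_lit 90) (nat_lit 137) r8_90 r7_137 (nat_lit 0) (nat_lit 0) (nat_lit 0) (nat_lit 0x7dc9350ee6) (nat_lit 1086766200),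
  Rx.mk (nat_lit 438) (nat_lit 6) (nat_lit 6) (nat_lit 6) (nat_lit 7) (nat_lit 91) (nat_lit 145) r8_91 r7_145 (nat_lit 0) (nat_lit 0) (nat_lit 0) (nat_lit 0x7df0bff610) (nat_lit 1010947392),
  Rx.mk (nat_lit 511) (nat_lit 7) (nat_lit 7) (nat_lit 7) (nat_lit 7) (nat_lit 98) (nat_lit 142) r8_98 r7_142 (nat_lit 0) (nat_lit 0) (nat_lit 0) (nat_lit 0x7db8202046) (nat_lit 1119518712)]
noncomputable def e15_14 : List Rx := [
  Rx.mk (nat_lit 292) (nat_lit 4) (nat_lit 4) (nat_lit 4) (nat_lit 0) (nat_lit 99) (nat_lit 273) r8_99 r7_273 (nat_lit 0) (nat_lit 0) (nat_lit 0) (nat_lit 0x5e013b8ec) (nat_lit 59945324400),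
  Rx.mk (nat_lit 295) (nat_lit 7) (nat_lit 4) (nat_lit 4) (nat_lit 1) (nat_lit 103) (nat_lit 274) r8_103 r7_274 (nat_lit 0) (nat_lit 0) (nat_lit 0) (nat_lit 0x6e391d1ff6) (nat_lit 8725851576),
  Rx.mk (nat_lit 308) (nat_lit 4) (nat_lit 6) (nat_lit 4) (nat_lit 2) (nat_lit 100) (nat_lit 276) r8_100 r7_276 (nat_lit 0) (nat_lit 0) (nat_lit 0) (nat_lit 0x70d5b03428) (nat_lit 7443929376),
  Rx.mk (nat_lit 311) (nat_lit 7) (nat_lit 6) (nat_lit 4) (nat_lit 3) (nat_lit 104) (nat_lit 277) r8_104 r7_277 (nat_lit 0) (nat_lit 0) (nat_lit 0) (nat_lit 0x7da28699f4) (nat_lit 1160933904),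
  Rx.mk (nat_lit 319) (nat_lit 7) (nat_lit 7) (nat_lit 4) (nat_lit 3) (nat_lit 106) (nat_lit 275) r8_106 r7_275 (nat_lit 0) (nat_lit 0) (nat_lit 0) (nat_lit 0x7cf6673c96) (nat_lit 1490960952),
  Rx.mk (nat_lit 436) (nat_lit 4) (nat_lit 6) (nat_lit 6) (nat_lit 6) (nat_lit 101) (nat_lit 280) r8_101 r7_280 (nat_lit 0) (nat_lit 0) (nat_lit 0) (nat_lit 0x7cfa07e288) (nat_lit 1484005536),
  Rx.mk (nat_lit 438) (nat_lit 6) (nat_lit 6) (nat_lit 6) (nat_lit 7) (nat_lit 102) (nat_lit 282) r8_102 r7_282 (nat_lit 0) (nat_lit 0) (nat_lit 0) (nat_lit 0x7dc4f5d2de) (nat_lit 1094909400),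
  Rx.mk (nat_lit 439) (nat_lit 7) (nat_lit 6) (nat_lit 6) (nat_lit 7) (nat_lit 105) (nat_lit 281) r8_105 r7_281 (nat_lit 0) (nat_lit 0) (nat_lit 0) (nat_lit 0x7df1f9c272) (nat_lit 1008597096),
  Rx.mk (nat_lit 507) (nat_lit 3) (nat_lit 7) (nat_lit 7) (nat_lit 7) (nat_lit 108) (nat_lit 279) r8_108 r7_279 (nat_lit 0) (nat_lit 0) (nat_lit 0) (nat_lit 0x7de4ad9742) (nat_lit 1034093736),
  Rx.mk (nat_lit 511) (nat_lit 7) (nat_lit 7) (nat_lit 7) (nat_lit 7) (nat_lit 107) (nat_lit 278) r8_107 r7_278 (nat_lit 0) (nat_lit 0) (nat_lit 0) (nat_lit 0x7dcea1581c) (nat_lit 1076368176)]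
noncomputable def e15_15 : List Rx := [
  Rx.mk (nat_lit 0) (nat_lit 0) (nat_lit 0) (nat_lit 0) (nat_lit 0) (nat_lit 121) (nat_lit 109) r8_121 r8_109 (nat_lit 0) (nat_lit 0) (nat_lit 0) (nat_lit 0x1d7bba276) (nat_lit 61924736952),
  Rx.mk (nat_lit 2) (nat_lit 2) (nat_lit 0) (nat_lit 0) (nat_lit 1) (nat_lit 124) (nat_lit 115) r8_124 r8_115 (nat_lit 0) (nat_lit 0) (nat_lit 0) (nat_lit 0x5ed8d0b41e) (nat_lit 16273295064),
  Rx.mk (nat_lit 24) (nat_lit 0) (nat_lit 3) (nat_lit 0) (nat_lit 2) (nat_lit 122) (nat_lit 110) r8_122 r8_110 (nat_lit 0) (nat_lit 0) (nat_lit 0) (nat_lit 0x532e67865c) (nat_lit 21999427632),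
  Rx.mk (nat_lit 26) (nat_lit 2) (nat_lit 3) (nat_lit 0) (nat_lit 3) (nat_lit 127) (nat_lit 117) r8_127 r8_117 (nat_lit 0) (nat_lit 0) (nat_lit 0) (nat_lit 0x7cadb6a7e8) (nat_lit 1630336032),
  Rx.mk (nat_lit 130) (nat_lit 2) (nat_lit 0) (nat_lit 2) (nat_lit 5) (nat_lit 125) (nat_lit 116) r8_125 r8_116 (nat_lit 0) (nat_lit 0) (nat_lit 0) (nat_lit 0x73b2d97eb6) (nat_lit 6038168760),
  Rx.mk (nat_lit 146) (nat_lit 2) (nat_lit 2) (nat_lit 2) (nat_lit 7) (nat_lit 126) (nat_lit 120) r8_126 r8_120 (nat_lit 0) (nat_lit 0) (nat_lit 0) (nat_lit 0x7daae6b3ea) (nat_lit 1144874952),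
  Rx.mk (nat_lit 150) (nat_lit 6) (nat_lit 2) (nat_lit 2) (nat_lit 7) (nat_lit 114) (nat_lit 130) r8_114 r8_130 (nat_lit 0) (nat_lit 0) (nat_lit 0) (nat_lit 0x7dbc3f7e4c) (nat_lit 1111614192),
  Rx.mk (nat_lit 154) (nat_lit 2) (nat_lit 3) (nat_lit 2) (nat_lit 7) (nat_lit 128) (nat_lit 119) r8_128 r8_119 (nat_lit 0) (nat_lit 0) (nat_lit 0) (nat_lit 0x7d78fd12b6) (nat_lit 1240577208),
  Rx.mk (nat_lit 216) (nat_lit 0) (nat_lit 3) (nat_lit 3) (nat_lit 6) (nat_lit 123) (nat_lit 111) r8_123 r8_111 (nat_lit 0) (nat_lit 0) (nat_lit 0) (nat_lit 0x79b20905be) (nat_lit 3094609752),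
  Rx.mk (nat_lit 218) (nat_lit 2) (nat_lit 3) (nat_lit 3) (nat_lit 7) (nat_lit 129) (nat_lit 118) r8_129 r8_118 (nat_lit 0) (nat_lit 0) (nat_lit 0) (nat_lit 0x7df4603c08) (nat_lit 1003994784),
  Rx.mk (nat_lit 219) (nat_lit 3) (nat_lit 3) (nat_lit 3) (nat_lit 7) (nat_lit 132) (nat_lit 112) r8_132 r8_112 (nat_lit 0) (nat_lit 0) (nat_lit 0) (nat_lit 0x7dbc36ded6) (nat_lit 1111678776),
  Rx.mk (nat_lit 251) (nat_lit 3) (nat_lit 7) (nat_lit 3) (nat_lit 7) (nat_lit 131) (nat_lit 113) r8_131 r8_113 (nat_lit 0) (nat_lit 0) (nat_lit 0) (nat_lit 0x7da45e3c78) (nat_lit 1157401440),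
  Rx.mk (nat_lit 292) (nat_lit 4) (nat_lit 4) (nat_lit 4) (nat_lit 0) (nat_lit 109) (nat_lit 121) r8_109 r8_121 (nat_lit 0) (nat_lit 0) (nat_lit 0) (nat_lit 0x1d7bba276) (nat_lit 61924736952),
  Rx.mk (nat_lit 295) (nat_lit 7) (nat_lit 4) (nat_lit 4) (nat_lit 1) (nat_lit 115) (nat_lit 124) r8_115 r8_124 (nat_lit 0) (nat_lit 0) (nat_lit 0) (nat_lit 0x5ed8d0b41e) (nat_lit 16273295064),
  Rx.mk (nat_lit 308) (nat_lit 4) (nat_lit 6) (nat_lit 4) (nat_lit 2) (nat_lit 110) (nat_lit 122) r8_110 r8_122 (nat_lit 0) (nat_lit 0) (nat_lit 0) (nat_lit 0x532e67865c) (nat_lit 21999427632),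
  Rx.mk (nat_lit 311) (nat_lit 7) (nat_lit 6) (nat_lit 4) (nat_lit 3) (nat_lit 117) (nat_lit 127) r8_117 r8_127 (nat_lit 0) (nat_lit 0) (nat_lit 0) (nat_lit 0x7cadb6a7e8) (nat_lit 1630336032),
  Rx.mk (nat_lit 406) (nat_lit 6) (nat_lit 2) (nat_lit 6) (nat_lit 7) (nat_lit 113) (nat_lit 131) r8_113 r8_131 (nat_lit 0) (nat_lit 0) (nat_lit 0) (nat_lit 0x7da45e3c78) (nat_lit 1157401440),
  Rx.mk (nat_lit 436) (nat_lit 4) (nat_lit 6) (nat_lit 6) (nat_lit 6) (nat_lit 111) (nat_lit 123) r8_111 r8_123 (nat_lit 0) (nat_lit 0) (nat_lit 0) (nat_lit 0x79b20905be) (nat_lit 3094609752),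
  Rx.mk (nat_lit 438) (nat_lit 6) (nat_lit 6) (nat_lit 6) (nat_lit 7) (nat_lit 112) (nat_lit 132) r8_112 r8_132 (nat_lit 0) (nat_lit 0) (nat_lit 0) (nat_lit 0x7dbc36ded6) (nat_lit 1111678776),
  Rx.mk (nat_lit 439) (nat_lit 7) (nat_lit 6) (nat_lit 6) (nat_lit 7) (nat_lit 118) (nat_lit 129) r8_118 r8_129 (nat_lit 0) (nat_lit 0) (nat_lit 0) (nat_lit 0x7df4603c08) (nat_lit 1003994784),
  Rx.mk (nat_lit 487) (nat_lit 7) (nat_lit 4) (nat_lit 7) (nat_lit 5) (nat_lit 116) (nat_lit 125) r8_116 r8_125 (nat_lit 0) (nat_lit 0) (nat_lit 0) (nat_lit 0x73b2d97eb6) (nat_lit 6038168760),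
  Rx.mk (nat_lit 503) (nat_lit 7) (nat_lit 6) (nat_lit 7) (nat_lit 7) (nat_lit 119) (nat_lit 128) r8_119 r8_128 (nat_lit 0) (nat_lit 0) (nat_lit 0) (nat_lit 0x7d78fd12b6) (nat_lit 1240577208),
  Rx.mk (nat_lit 507) (nat_lit 3) (nat_lit 7) (nat_lit 7) (nat_lit 7) (nat_lit 130) (nat_lit 114) r8_130 r8_114 (nat_lit 0) (nat_lit 0) (nat_lit 0) (nat_lit 0x7dbc3f7e4c) (nat_lit 1111614192),
  Rx.mk (nat_lit 511) (nat_lit 7) (nat_lit 7) (nat_lit 7) (nat_lit 7) (nat_lit 120) (nat_lit 126) r8_120 r8_126 (nat_lit 0) (nat_lit 0) (nat_lit 0) (nat_lit 0x7daae6b3ea) (nat_lit 1144874952)]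
noncomputable def e15_16 : List Rx := [
  Rx.mk (nat_lit 359) (nat_lit 7) (nat_lit 4) (nat_lit 5) (nat_lit 5) (nat_lit 133) (nat_lit 276) r8_133 r4_276 (nat_lit 0) (nat_lit 0) (nat_lit 0) (nat_lit 0x7cdf86cab4) (nat_lit 1534824720),
  Rx.mk (nat_lit 379) (nat_lit 3) (nat_lit 7) (nat_lit 5) (nat_lit 7) (nat_lit 135) (nat_lit 278) r8_135 r4_278 (nat_lit 0) (nat_lit 0) (nat_lit 0) (nat_lit 0x7deeb9d674) (nat_lit 1014828048),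
  Rx.mk (nat_lit 383) (nat_lit 7) (nat_lit 7) (nat_lit 5) (nat_lit 7) (nat_lit 134) (nat_lit 277) r8_134 r4_277 (nat_lit 0) (nat_lit 0) (nat_lit 0) (nat_lit 0x7debb286ec) (nat_lit 1020634992)]
noncomputable def e15_17 : List Rx := [
  Rx.mk (nat_lit 295) (nat_lit 7) (nat_lit 4) (nat_lit 4) (nat_lit 1) (nat_lit 136) (nat_lit 120) r8_136 r9_120 (nat_lit 0) (nat_lit 0) (nat_lit 0) (nat_lit 0x71a1bf9266) (nat_lit 7052665464),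
  Rx.mk (nat_lit 311) (nat_lit 7) (nat_lit 6) (nat_lit 4) (nat_lit 3) (nat_lit 138) (nat_lit 124) r8_138 r9_124 (nat_lit 0) (nat_lit 0) (nat_lit 0) (nat_lit 0x7ddb1ef036) (nat_lit 1052418744),
  Rx.mk (nat_lit 315) (nat_lit 3) (nat_lit 7) (nat_lit 4) (nat_lit 3) (nat_lit 143) (nat_lit 117) r8_143 r9_117 (nat_lit 0) (nat_lit 0) (nat_lit 0) (nat_lit 0x7dc6281fb8) (nat_lit 1092615264),
  Rx.mk (nat_lit 319) (nat_lit 7) (nat_lit 7) (nat_lit 4) (nat_lit 3) (nat_lit 141) (nat_lit 122) r8_141 r9_122 (nat_lit 0) (nat_lit 0) (nat_lit 0) (nat_lit 0x7db930af3c) (nat_lit 1117477296),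
  Rx.mk (nat_lit 359) (nat_lit 7) (nat_lit 4) (nat_lit 5) (nat_lit 5) (nat_lit 137) (nat_lit 121) r8_137 r9_121 (nat_lit 0) (nat_lit 0) (nat_lit 0) (nat_lit 0x7ce5b0c80e) (nat_lit 1523005848),
  Rx.mk (nat_lit 375) (nat_lit 7) (nat_lit 6) (nat_lit 5) (nat_lit 7) (nat_lit 139) (nat_lit 125) r8_139 r9_125 (nat_lit 0) (nat_lit 0) (nat_lit 0) (nat_lit 0x7debf422d2) (nat_lit 1020143592),
  Rx.mk (nat_lit 379) (nat_lit 3) (nat_lit 7) (nat_lit 5) (nat_lit 7) (nat_lit 144) (nat_lit 118) r8_144 r9_118 (nat_lit 0) (nat_lit 0) (nat_lit 0) (nat_lit 0x7de07d5a4a) (nat_lit 1042124616),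
  Rx.mk (nat_lit 383) (nat_lit 7) (nat_lit 7) (nat_lit 5) (nat_lit 7) (nat_lit 142) (nat_lit 123) r8_142 r9_123 (nat_lit 0) (nat_lit 0) (nat_lit 0) (nat_lit 0x7dda391e94) (nat_lit 1054140048),
  Rx.mk (nat_lit 439) (nat_lit 7) (nat_lit 6) (nat_lit 6) (nat_lit 7) (nat_lit 140) (nat_lit 126) r8_140 r9_126 (nat_lit 0) (nat_lit 0) (nat_lit 0) (nat_lit 0x7decfd923a) (nat_lit 1018155528),
  Rx.mk (nat_lit 507) (nat_lit 3) (nat_lit 7) (nat_lit 7) (nat_lit 7) (nat_lit 145) (nat_lit 119) r8_145 r9_119 (nat_lit 0) (nat_lit 0) (nat_lit 0) (nat_lit 0x7de96beb58) (nat_lit 1024998624)]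
noncomputable def e15_18 : List Rx := [
  Rx.mk (nat_lit 379) (nat_lit 3) (nat_lit 7) (nat_lit 5) (nat_lit 7) (nat_lit 147) (nat_lit 123) r8_147 r10_123 (nat_lit 0) (nat_lit 0) (nat_lit 0) (nat_lit 0x7df5dba450) (nat_lit 1001153088),
  Rx.mk (nat_lit 383) (nat_lit 7) (nat_lit 7) (nat_lit 5) (nat_lit 7) (nat_lit 146) (nat_lit 124) r8_146 r10_124 (nat_lit 0) (nat_lit 0) (nat_lit 0) (nat_lit 0x7df79428c6) (nat_lit 997853688)]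
noncomputable def e15_19 : List Rx := [
  Rx.mk (nat_lit 0) (nat_lit 0) (nat_lit 0) (nat_lit 0) (nat_lit 0) (nat_lit 148) (nat_lit 148) r8_148 r8_148 (nat_lit 0) (nat_lit 0) (nat_lit 0) (nat_lit 0x3e5d013194) (nat_lit 32217997968),
  Rx.mk (nat_lit 2) (nat_lit 2) (nat_lit 0) (nat_lit 0) (nat_lit 1) (nat_lit 151) (nat_lit 149) r8_151 r8_149 (nat_lit 0) (nat_lit 0) (nat_lit 0) (nat_lit 0x6d5949fe08) (nat_lit 9155012256),
  Rx.mk (nat_lit 24) (nat_lit 0) (nat_lit 3) (nat_lit 0) (nat_lit 2) (nat_lit 149) (nat_lit 151) r8_149 r8_151 (nat_lit 0) (nat_lit 0) (nat_lit 0) (nat_lit 0x6d5949fe08) (nat_lit 9155012256),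
  Rx.mk (nat_lit 130) (nat_lit 2) (nat_lit 0) (nat_lit 2) (nat_lit 5) (nat_lit 152) (nat_lit 150) r8_152 r8_150 (nat_lit 0) (nat_lit 0) (nat_lit 0) (nat_lit 0x7d406dbbe4) (nat_lit 1349024976),
  Rx.mk (nat_lit 146) (nat_lit 2) (nat_lit 2) (nat_lit 2) (nat_lit 7) (nat_lit 153) (nat_lit 154) r8_153 r8_154 (nat_lit 0) (nat_lit 0) (nat_lit 0) (nat_lit 0x7de2fc9254) (nat_lit 1037336976),
  Rx.mk (nat_lit 216) (nat_lit 0) (nat_lit 3) (nat_lit 3) (nat_lit 6) (nat_lit 150) (nat_lit 152) r8_150 r8_152 (nat_lit 0) (nat_lit 0) (nat_lit 0) (nat_lit 0x7d406dbbe4) (nat_lit 1349024976),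
  Rx.mk (nat_lit 219) (nat_lit 3) (nat_lit 3) (nat_lit 3) (nat_lit 7) (nat_lit 154) (nat_lit 153) r8_154 r8_153 (nat_lit 0) (nat_lit 0) (nat_lit 0) (nat_lit 0x7de2fc9254) (nat_lit 1037336976)]
noncomputable def e15_20 : List Rx := [
  Rx.mk (nat_lit 64) (nat_lit 0) (nat_lit 0) (nat_lit 1) (nat_lit 4) (nat_lit 155) (nat_lit 257) r8_155 r0_257 (nat_lit 0) (nat_lit 0) (nat_lit 0) (nat_lit 0x5d0382aad4) (nat_lit 17173138320),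
  Rx.mk (nat_lit 65) (nat_lit 1) (nat_lit 0) (nat_lit 1) (nat_lit 5) (nat_lit 157) (nat_lit 259) r8_157 r0_259 (nat_lit 0) (nat_lit 0) (nat_lit 0) (nat_lit 0x7c68fe73b0) (nat_lit 1762098624),
  Rx.mk (nat_lit 88) (nat_lit 0) (nat_lit 3) (nat_lit 1) (nat_lit 6) (nat_lit 156) (nat_lit 258) r8_156 r0_258 (nat_lit 0) (nat_lit 0) (nat_lit 0) (nat_lit 0x7d665dbcbe) (nat_lit 1276283736),
  Rx.mk (nat_lit 89) (nat_lit 1) (nat_lit 3) (nat_lit 1) (nat_lit 7) (nat_lit 158) (nat_lit 260) r8_158 r0_260 (nat_lit 0) (nat_lit 0) (nat_lit 0) (nat_lit 0x7de755acbe) (nat_lit 1029000024),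
  Rx.mk (nat_lit 91) (nat_lit 3) (nat_lit 3) (nat_lit 1) (nat_lit 7) (nat_lit 159) (nat_lit 261) r8_159 r0_261 (nat_lit 0) (nat_lit 0) (nat_lit 0) (nat_lit 0x7df3be4628) (nat_lit 1005207840)]
noncomputable def e15_21 : List Rx := [
  Rx.mk (nat_lit 64) (nat_lit 0) (nat_lit 0) (nat_lit 1) (nat_lit 4) (nat_lit 160) (nat_lit 262) r8_160 r1_262 (nat_lit 0) (nat_lit 0) (nat_lit 0) (nat_lit 0x5e5dca2502) (nat_lit 16509183912),
  Rx.mk (nat_lit 65) (nat_lit 1) (nat_lit 0) (nat_lit 1) (nat_lit 5) (nat_lit 163) (nat_lit 265) r8_163 r1_265 (nat_lit 0) (nat_lit 0) (nat_lit 0) (nat_lit 0x7d825a3cda) (nat_lit 1222622856),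
  Rx.mk (nat_lit 72) (nat_lit 0) (nat_lit 1) (nat_lit 1) (nat_lit 6) (nat_lit 161) (nat_lit 263) r8_161 r1_263 (nat_lit 0) (nat_lit 0) (nat_lit 0) (nat_lit 0x7bd73b1078) (nat_lit 2041584480),
  Rx.mk (nat_lit 73) (nat_lit 1) (nat_lit 1) (nat_lit 1) (nat_lit 7) (nat_lit 164) (nat_lit 266) r8_164 r1_266 (nat_lit 0) (nat_lit 0) (nat_lit 0) (nat_lit 0x7d867bdabc) (nat_lit 1214701488),
  Rx.mk (nat_lit 88) (nat_lit 0) (nat_lit 3) (nat_lit 1) (nat_lit 6) (nat_lit 162) (nat_lit 264) r8_162 r1_264 (nat_lit 0) (nat_lit 0) (nat_lit 0) (nat_lit 0x7d95c58612) (nat_lit 1185388776),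
  Rx.mk (nat_lit 89) (nat_lit 1) (nat_lit 3) (nat_lit 1) (nat_lit 7) (nat_lit 165) (nat_lit 267) r8_165 r1_267 (nat_lit 0) (nat_lit 0) (nat_lit 0) (nat_lit 0x7df4303f08) (nat_lit 1004354208),
  Rx.mk (nat_lit 91) (nat_lit 3) (nat_lit 3) (nat_lit 1) (nat_lit 7) (nat_lit 166) (nat_lit 268) r8_166 r1_268 (nat_lit 0) (nat_lit 0) (nat_lit 0) (nat_lit 0x7df1600c0e) (nat_lit 1009748376)]
noncomputable def e15_22 : List Rx := [
  Rx.mk (nat_lit 88) (nat_lit 0) (nat_lit 3) (nat_lit 1) (nat_lit 6) (nat_lit 167) (nat_lit 273) r8_167 r4_273 (nat_lit 0) (nat_lit 0) (nat_lit 0) (nat_lit 0x7db654dcfc) (nat_lit 1122958512),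
  Rx.mk (nat_lit 89) (nat_lit 1) (nat_lit 3) (nat_lit 1) (nat_lit 7) (nat_lit 168) (nat_lit 274) r8_168 r4_274 (nat_lit 0) (nat_lit 0) (nat_lit 0) (nat_lit 0x7de3238fe4) (nat_lit 1037044944),
  Rx.mk (nat_lit 91) (nat_lit 3) (nat_lit 3) (nat_lit 1) (nat_lit 7) (nat_lit 169) (nat_lit 275) r8_169 r4_275 (nat_lit 0) (nat_lit 0) (nat_lit 0) (nat_lit 0x7ddff0631a) (nat_lit 1043180424)]
noncomputable def e15_23 : List Rx := [
  Rx.mk (nat_lit 0) (nat_lit 0) (nat_lit 0) (nat_lit 0) (nat_lit 0) (nat_lit 170) (nat_lit 204) r8_170 r6_204 (nat_lit 0) (nat_lit 0) (nat_lit 0) (nat_lit 0xca49969cc) (nat_lit 56623393008),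
  Rx.mk (nat_lit 2) (nat_lit 2) (nat_lit 0) (nat_lit 0) (nat_lit 1) (nat_lit 176) (nat_lit 207) r8_176 r6_207 (nat_lit 0) (nat_lit 0) (nat_lit 0) (nat_lit 0x744f2f58bc) (nat_lit 5738411952),
  Rx.mk (nat_lit 24) (nat_lit 0) (nat_lit 3) (nat_lit 0) (nat_lit 2) (nat_lit 172) (nat_lit 210) r8_172 r6_210 (nat_lit 0) (nat_lit 0) (nat_lit 0) (nat_lit 0x700fb7547c) (nat_lit 7823520432),
  Rx.mk (nat_lit 27) (nat_lit 3) (nat_lit 3) (nat_lit 0) (nat_lit 3) (nat_lit 180) (nat_lit 213) r8_180 r6_213 (nat_lit 0) (nat_lit 0) (nat_lit 0) (nat_lit 0x7dd0e0d422) (nat_lit 1072057896),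
  Rx.mk (nat_lit 64) (nat_lit 0) (nat_lit 0) (nat_lit 1) (nat_lit 4) (nat_lit 171) (nat_lit 205) r8_171 r6_205 (nat_lit 0) (nat_lit 0) (nat_lit 0) (nat_lit 0x4c79c53736) (nat_lit 25290895032),
  Rx.mk (nat_lit 65) (nat_lit 1) (nat_lit 0) (nat_lit 1) (nat_lit 5) (nat_lit 174) (nat_lit 206) r8_174 r6_206 (nat_lit 0) (nat_lit 0) (nat_lit 0) (nat_lit 0x7d5bdfe4a6) (nat_lit 1296400248),
  Rx.mk (nat_lit 66) (nat_lit 2) (nat_lit 0) (nat_lit 1) (nat_lit 5) (nat_lit 177) (nat_lit 208) r8_177 r6_208 (nat_lit 0) (nat_lit 0) (nat_lit 0) (nat_lit 0x7dce02c206) (nat_lit 1077555960),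
  Rx.mk (nat_lit 88) (nat_lit 0) (nat_lit 3) (nat_lit 1) (nat_lit 6) (nat_lit 173) (nat_lit 211) r8_173 r6_211 (nat_lit 0) (nat_lit 0) (nat_lit 0) (nat_lit 0x7dad56ece4) (nat_lit 1140199632),
  Rx.mk (nat_lit 89) (nat_lit 1) (nat_lit 3) (nat_lit 1) (nat_lit 7) (nat_lit 175) (nat_lit 212) r8_175 r6_212 (nat_lit 0) (nat_lit 0) (nat_lit 0) (nat_lit 0x7dd092d902) (nat_lit 1072641960),
  Rx.mk (nat_lit 91) (nat_lit 3) (nat_lit 3) (nat_lit 1) (nat_lit 7) (nat_lit 181) (nat_lit 214) r8_181 r6_214 (nat_lit 0) (nat_lit 0) (nat_lit 0) (nat_lit 0x7dc2a09834) (nat_lit 1099382544),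
  Rx.mk (nat_lit 130) (nat_lit 2) (nat_lit 0) (nat_lit 2) (nat_lit 5) (nat_lit 178) (nat_lit 209) r8_178 r6_209 (nat_lit 0) (nat_lit 0) (nat_lit 0) (nat_lit 0x7db87bfa88) (nat_lit 1118830752),
  Rx.mk (nat_lit 146) (nat_lit 2) (nat_lit 2) (nat_lit 2) (nat_lit 7) (nat_lit 179) (nat_lit 216) r8_179 r6_216 (nat_lit 0) (nat_lit 0) (nat_lit 0) (nat_lit 0x7de59728a8) (nat_lit 1032344352),
  Rx.mk (nat_lit 219) (nat_lit 3) (nat_lit 3) (nat_lit 3) (nat_lit 7) (nat_lit 182) (nat_lit 215) r8_182 r6_215 (nat_lit 0) (nat_lit 0) (nat_lit 0) (nat_lit 0x7de5019202) (nat_lit 1033464744)]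
noncomputable def e15_24 : List Rx := [
  Rx.mk (nat_lit 0) (nat_lit 0) (nat_lit 0) (nat_lit 0) (nat_lit 0) (nat_lit 183) (nat_lit 159) r8_183 r7_159 (nat_lit 0) (nat_lit 0) (nat_lit 0) (nat_lit 0xf50b40576) (nat_lit 55311694776),
  Rx.mk (nat_lit 2) (nat_lit 2) (nat_lit 0) (nat_lit 0) (nat_lit 1) (nat_lit 192) (nat_lit 162) r8_192 r7_162 (nat_lit 0) (nat_lit 0) (nat_lit 0) (nat_lit 0x69ea215402) (nat_lit 10840708008),
  Rx.mk (nat_lit 8) (nat_lit 0) (nat_lit 1) (nat_lit 0) (nat_lit 2) (nat_lit 185) (nat_lit 165) r8_185 r7_165 (nat_lit 0) (nat_lit 0) (nat_lit 0) (nat_lit 0x5ded7eea26) (nat_lit 16724495736),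
  Rx.mk (nat_lit 10) (nat_lit 2) (nat_lit 1) (nat_lit 0) (nat_lit 3) (nat_lit 195) (nat_lit 168) r8_195 r7_168 (nat_lit 0) (nat_lit 0) (nat_lit 0) (nat_lit 0x7dc8110128) (nat_lit 1088953632),
  Rx.mk (nat_lit 24) (nat_lit 0) (nat_lit 3) (nat_lit 0) (nat_lit 2) (nat_lit 187) (nat_lit 171) r8_187 r7_171 (nat_lit 0) (nat_lit 0) (nat_lit 0) (nat_lit 0x6bc7e5f5da) (nat_lit 9924637320),
  Rx.mk (nat_lit 27) (nat_lit 3) (nat_lit 3) (nat_lit 0) (nat_lit 3) (nat_lit 199) (nat_lit 174) r8_199 r7_174 (nat_lit 0) (nat_lit 0) (nat_lit 0) (nat_lit 0x7dcf674bbc) (nat_lit 1074885552),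
  Rx.mk (nat_lit 64) (nat_lit 0) (nat_lit 0) (nat_lit 1) (nat_lit 4) (nat_lit 184) (nat_lit 160) r8_184 r7_160 (nat_lit 0) (nat_lit 0) (nat_lit 0) (nat_lit 0x6e6da8770c) (nat_lit 8625103344),
  Rx.mk (nat_lit 65) (nat_lit 1) (nat_lit 0) (nat_lit 1) (nat_lit 5) (nat_lit 189) (nat_lit 161) r8_189 r7_161 (nat_lit 0) (nat_lit 0) (nat_lit 0) (nat_lit 0x7d74577d14) (nat_lit 1249486992),
  Rx.mk (nat_lit 66) (nat_lit 2) (nat_lit 0) (nat_lit 1) (nat_lit 5) (nat_lit 193) (nat_lit 163) r8_193 r7_163 (nat_lit 0) (nat_lit 0) (nat_lit 0) (nat_lit 0x7dd111311c) (nat_lit 1071695664),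
  Rx.mk (nat_lit 72) (nat_lit 0) (nat_lit 1) (nat_lit 1) (nat_lit 6) (nat_lit 186) (nat_lit 166) r8_186 r7_166 (nat_lit 0) (nat_lit 0) (nat_lit 0) (nat_lit 0x7c45bbc7fe) (nat_lit 1829706840),
  Rx.mk (nat_lit 73) (nat_lit 1) (nat_lit 1) (nat_lit 1) (nat_lit 7) (nat_lit 190) (nat_lit 167) r8_190 r7_167 (nat_lit 0) (nat_lit 0) (nat_lit 0) (nat_lit 0x7db6535d14) (nat_lit 1122969744),
  Rx.mk (nat_lit 74) (nat_lit 2) (nat_lit 1) (nat_lit 1) (nat_lit 7) (nat_lit 196) (nat_lit 169) r8_196 r7_169 (nat_lit 0) (nat_lit 0) (nat_lit 0) (nat_lit 0x7df38ba952) (nat_lit 1005586920),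
  Rx.mk (nat_lit 88) (nat_lit 0) (nat_lit 3) (nat_lit 1) (nat_lit 6) (nat_lit 188) (nat_lit 172) r8_188 r7_172 (nat_lit 0) (nat_lit 0) (nat_lit 0) (nat_lit 0x7d82afb782) (nat_lit 1221982632),
  Rx.mk (nat_lit 89) (nat_lit 1) (nat_lit 3) (nat_lit 1) (nat_lit 7) (nat_lit 191) (nat_lit 173) r8_191 r7_173 (nat_lit 0) (nat_lit 0) (nat_lit 0) (nat_lit 0x7dea7a9a6c) (nat_lit 1022971248),
  Rx.mk (nat_lit 91) (nat_lit 3) (nat_lit 3) (nat_lit 1) (nat_lit 7) (nat_lit 200) (nat_lit 175) r8_200 r7_175 (nat_lit 0) (nat_lit 0) (nat_lit 0) (nat_lit 0x7ddabb966c) (nat_lit 1053162864),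
  Rx.mk (nat_lit 130) (nat_lit 2) (nat_lit 0) (nat_lit 2) (nat_lit 5) (nat_lit 194) (nat_lit 164) r8_194 r7_164 (nat_lit 0) (nat_lit 0) (nat_lit 0) (nat_lit 0x7dde503d1e) (nat_lit 1046297304),
  Rx.mk (nat_lit 138) (nat_lit 2) (nat_lit 1) (nat_lit 2) (nat_lit 7) (nat_lit 197) (nat_lit 170) r8_197 r7_170 (nat_lit 0) (nat_lit 0) (nat_lit 0) (nat_lit 0x7df0e8138e) (nat_lit 1010646936),
  Rx.mk (nat_lit 146) (nat_lit 2) (nat_lit 2) (nat_lit 2) (nat_lit 7) (nat_lit 198) (nat_lit 177) r8_198 r7_177 (nat_lit 0) (nat_lit 0) (nat_lit 0) (nat_lit 0x7ddc561cc2) (nat_lit 1050088104),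
  Rx.mk (nat_lit 219) (nat_lit 3) (nat_lit 3) (nat_lit 3) (nat_lit 7) (nat_lit 201) (nat_lit 176) r8_201 r7_176 (nat_lit 0) (nat_lit 0) (nat_lit 0) (nat_lit 0x7dec61fbf4) (nat_lit 1019320848)]
noncomputable def e15_25 : List Rx := [
  Rx.mk (nat_lit 0) (nat_lit 0) (nat_lit 0) (nat_lit 0) (nat_lit 0) (nat_lit 202) (nat_lit 266) r8_202 r7_266 (nat_lit 0) (nat_lit 0) (nat_lit 0) (nat_lit 0x2a267bae24) (nat_lit 42139605456),
  Rx.mk (nat_lit 2) (nat_lit 2) (nat_lit 0) (nat_lit 0) (nat_lit 1) (nat_lit 204) (nat_lit 269) r8_204 r7_269 (nat_lit 0) (nat_lit 0) (nat_lit 0) (nat_lit 0x795a3b62f0) (nat_lit 3262963392),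
  Rx.mk (nat_lit 24) (nat_lit 0) (nat_lit 3) (nat_lit 0) (nat_lit 2) (nat_lit 203) (nat_lit 267) r8_203 r7_267 (nat_lit 0) (nat_lit 0) (nat_lit 0) (nat_lit 0x6f84370d0c) (nat_lit 8090999280),
  Rx.mk (nat_lit 27) (nat_lit 3) (nat_lit 3) (nat_lit 0) (nat_lit 3) (nat_lit 207) (nat_lit 268) r8_207 r7_268 (nat_lit 0) (nat_lit 0) (nat_lit 0) (nat_lit 0x7d6bde44b0) (nat_lit 1265734080),
  Rx.mk (nat_lit 130) (nat_lit 2) (nat_lit 0) (nat_lit 2) (nat_lit 5) (nat_lit 205) (nat_lit 271) r8_205 r7_271 (nat_lit 0) (nat_lit 0) (nat_lit 0) (nat_lit 0x7d7fa68818) (nat_lit 1227803616),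
  Rx.mk (nat_lit 146) (nat_lit 2) (nat_lit 2) (nat_lit 2) (nat_lit 7) (nat_lit 206) (nat_lit 272) r8_206 r7_272 (nat_lit 0) (nat_lit 0) (nat_lit 0) (nat_lit 0x7dcfdbe472) (nat_lit 1074012264),
  Rx.mk (nat_lit 219) (nat_lit 3) (nat_lit 3) (nat_lit 3) (nat_lit 7) (nat_lit 208) (nat_lit 270) r8_208 r7_270 (nat_lit 0) (nat_lit 0) (nat_lit 0) (nat_lit 0x7dd1cb257c) (nat_lit 1070302896)]
noncomputable def e15_26 : List Rx := [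
  Rx.mk (nat_lit 24) (nat_lit 0) (nat_lit 3) (nat_lit 0) (nat_lit 2) (nat_lit 209) (nat_lit 161) r8_209 r9_161 (nat_lit 0) (nat_lit 0) (nat_lit 0) (nat_lit 0x6a74ad2aba) (nat_lit 10575059976),
  Rx.mk (nat_lit 27) (nat_lit 3) (nat_lit 3) (nat_lit 0) (nat_lit 3) (nat_lit 212) (nat_lit 164) r8_212 r9_164 (nat_lit 0) (nat_lit 0) (nat_lit 0) (nat_lit 0x7dd319309a) (nat_lit 1067800968),
  Rx.mk (nat_lit 88) (nat_lit 0) (nat_lit 3) (nat_lit 1) (nat_lit 6) (nat_lit 210) (nat_lit 162) r8_210 r9_162 (nat_lit 0) (nat_lit 0) (nat_lit 0) (nat_lit 0x7df31b305a) (nat_lit 1006429320),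
  Rx.mk (nat_lit 89) (nat_lit 1) (nat_lit 3) (nat_lit 1) (nat_lit 7) (nat_lit 211) (nat_lit 163) r8_211 r9_163 (nat_lit 0) (nat_lit 0) (nat_lit 0) (nat_lit 0x7df6743ac6) (nat_lit 1000010232),
  Rx.mk (nat_lit 91) (nat_lit 3) (nat_lit 3) (nat_lit 1) (nat_lit 7) (nat_lit 213) (nat_lit 165) r8_213 r9_165 (nat_lit 0) (nat_lit 0) (nat_lit 0) (nat_lit 0x7de391c900) (nat_lit 1036219392)]
noncomputable def e15_27 : List Rx := [
  Rx.mk (nat_lit 91) (nat_lit 3) (nat_lit 3) (nat_lit 1) (nat_lit 7) (nat_lit 214) (nat_lit 164) r8_214 r10_164 (nat_lit 0) (nat_lit 0) (nat_lit 0) (nat_lit 0x7df2523cea) (nat_lit 1007934408)]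
noncomputable def e15_28 : List Rx := [
  Rx.mk (nat_lit 315) (nat_lit 3) (nat_lit 7) (nat_lit 4) (nat_lit 3) (nat_lit 216) (nat_lit 330) r8_216 r10_330 (nat_lit 0) (nat_lit 0) (nat_lit 0) (nat_lit 0x7dca825a10) (nat_lit 1084269888),
  Rx.mk (nat_lit 379) (nat_lit 3) (nat_lit 7) (nat_lit 5) (nat_lit 7) (nat_lit 217) (nat_lit 331) r8_217 r10_331 (nat_lit 0) (nat_lit 0) (nat_lit 0) (nat_lit 0x7dde527cfa) (nat_lit 1046280456),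
  Rx.mk (nat_lit 507) (nat_lit 3) (nat_lit 7) (nat_lit 7) (nat_lit 7) (nat_lit 218) (nat_lit 332) r8_218 r10_332 (nat_lit 0) (nat_lit 0) (nat_lit 0) (nat_lit 0x7de88a996e) (nat_lit 1026686232)]
noncomputable def e15_29 : List Rx := [
  Rx.mk (nat_lit 120) (nat_lit 0) (nat_lit 7) (nat_lit 1) (nat_lit 6) (nat_lit 220) (nat_lit 315) r8_220 r5_315 (nat_lit 0) (nat_lit 0) (nat_lit 0) (nat_lit 0x7c922f207c) (nat_lit 1683120816),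
  Rx.mk (nat_lit 121) (nat_lit 1) (nat_lit 7) (nat_lit 1) (nat_lit 7) (nat_lit 222) (nat_lit 317) r8_222 r5_317 (nat_lit 0) (nat_lit 0) (nat_lit 0) (nat_lit 0x7dde539ce8) (nat_lit 1046272032),
  Rx.mk (nat_lit 123) (nat_lit 3) (nat_lit 7) (nat_lit 1) (nat_lit 7) (nat_lit 223) (nat_lit 318) r8_223 r5_318 (nat_lit 0) (nat_lit 0) (nat_lit 0) (nat_lit 0x7df2463daa) (nat_lit 1008024264),
  Rx.mk (nat_lit 376) (nat_lit 0) (nat_lit 7) (nat_lit 5) (nat_lit 6) (nat_lit 219) (nat_lit 314) r8_219 r5_314 (nat_lit 0) (nat_lit 0) (nat_lit 0) (nat_lit 0x7d4396095c) (nat_lit 1342970928),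
  Rx.mk (nat_lit 377) (nat_lit 1) (nat_lit 7) (nat_lit 5) (nat_lit 7) (nat_lit 221) (nat_lit 316) r8_221 r5_316 (nat_lit 0) (nat_lit 0) (nat_lit 0) (nat_lit 0x7de265dbc0) (nat_lit 1038465792)]
noncomputable def e15_30 : List Rx := [
  Rx.mk (nat_lit 24) (nat_lit 0) (nat_lit 3) (nat_lit 0) (nat_lit 2) (nat_lit 231) (nat_lit 318) r8_231 r10_318 (nat_lit 0) (nat_lit 0) (nat_lit 0) (nat_lit 0x74c5e86cb4) (nat_lit 5510773008),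
  Rx.mk (nat_lit 26) (nat_lit 2) (nat_lit 3) (nat_lit 0) (nat_lit 3) (nat_lit 235) (nat_lit 321) r8_235 r10_321 (nat_lit 0) (nat_lit 0) (nat_lit 0) (nat_lit 0x7de41b006c) (nat_lit 1035191664),
  Rx.mk (nat_lit 56) (nat_lit 0) (nat_lit 7) (nat_lit 0) (nat_lit 2) (nat_lit 229) (nat_lit 319) r8_229 r10_319 (nat_lit 0) (nat_lit 0) (nat_lit 0) (nat_lit 0x76844a04dc) (nat_lit 4654883376),
  Rx.mk (nat_lit 59) (nat_lit 3) (nat_lit 7) (nat_lit 0) (nat_lit 3) (nat_lit 238) (nat_lit 320) r8_238 r10_320 (nat_lit 0) (nat_lit 0) (nat_lit 0) (nat_lit 0x7db5be8662) (nat_lit 1124084520),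
  Rx.mk (nat_lit 88) (nat_lit 0) (nat_lit 3) (nat_lit 1) (nat_lit 6) (nat_lit 232) (nat_lit 322) r8_232 r10_322 (nat_lit 0) (nat_lit 0) (nat_lit 0) (nat_lit 0x7de5ce4536) (nat_lit 1031931576),
  Rx.mk (nat_lit 89) (nat_lit 1) (nat_lit 3) (nat_lit 1) (nat_lit 7) (nat_lit 234) (nat_lit 324) r8_234 r10_324 (nat_lit 0) (nat_lit 0) (nat_lit 0) (nat_lit 0x7deef3f2d2) (nat_lit 1014392808),
  Rx.mk (nat_lit 90) (nat_lit 2) (nat_lit 3) (nat_lit 1) (nat_lit 7) (nat_lit 236) (nat_lit 327) r8_236 r10_327 (nat_lit 0) (nat_lit 0) (nat_lit 0) (nat_lit 0x7dcf8f693a) (nat_lit 1074585096),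
  Rx.mk (nat_lit 120) (nat_lit 0) (nat_lit 7) (nat_lit 1) (nat_lit 6) (nat_lit 230) (nat_lit 323) r8_230 r10_323 (nat_lit 0) (nat_lit 0) (nat_lit 0) (nat_lit 0x7dd91db04c) (nat_lit 1056262896),
  Rx.mk (nat_lit 121) (nat_lit 1) (nat_lit 7) (nat_lit 1) (nat_lit 7) (nat_lit 233) (nat_lit 325) r8_233 r10_325 (nat_lit 0) (nat_lit 0) (nat_lit 0) (nat_lit 0x7df5994876) (nat_lit 1001650104),
  Rx.mk (nat_lit 123) (nat_lit 3) (nat_lit 7) (nat_lit 1) (nat_lit 7) (nat_lit 239) (nat_lit 326) r8_239 r10_326 (nat_lit 0) (nat_lit 0) (nat_lit 0) (nat_lit 0x7df0180090) (nat_lit 1012205376),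
  Rx.mk (nat_lit 154) (nat_lit 2) (nat_lit 3) (nat_lit 2) (nat_lit 7) (nat_lit 237) (nat_lit 329) r8_237 r10_329 (nat_lit 0) (nat_lit 0) (nat_lit 0) (nat_lit 0x7df16d2b3c) (nat_lit 1009650096),
  Rx.mk (nat_lit 251) (nat_lit 3) (nat_lit 7) (nat_lit 3) (nat_lit 7) (nat_lit 240) (nat_lit 328) r8_240 r10_328 (nat_lit 0) (nat_lit 0) (nat_lit 0) (nat_lit 0x7df39d4838) (nat_lit 1005454944)]
noncomputable def e15_31 : List Rx := [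
  Rx.mk (nat_lit 376) (nat_lit 0) (nat_lit 7) (nat_lit 5) (nat_lit 6) (nat_lit 241) (nat_lit 319) r8_241 r5_319 (nat_lit 0) (nat_lit 0) (nat_lit 0) (nat_lit 0x7d60a6d832) (nat_lit 1287240552),
  Rx.mk (nat_lit 377) (nat_lit 1) (nat_lit 7) (nat_lit 5) (nat_lit 7) (nat_lit 242) (nat_lit 320) r8_242 r5_320 (nat_lit 0) (nat_lit 0) (nat_lit 0) (nat_lit 0x7de9d244f2) (nat_lit 1024232040),
  Rx.mk (nat_lit 379) (nat_lit 3) (nat_lit 7) (nat_lit 5) (nat_lit 7) (nat_lit 243) (nat_lit 321) r8_243 r5_321 (nat_lit 0) (nat_lit 0) (nat_lit 0) (nat_lit 0x7dd8a1f808) (nat_lit 1057189536)]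
noncomputable def e15_32 : List Rx := [
  Rx.mk (nat_lit 123) (nat_lit 3) (nat_lit 7) (nat_lit 1) (nat_lit 7) (nat_lit 247) (nat_lit 124) r8_247 r11_124 (nat_lit 0) (nat_lit 0) (nat_lit 0) (nat_lit 0x7dbdfec256) (nat_lit 1108264248),
  Rx.mk (nat_lit 376) (nat_lit 0) (nat_lit 7) (nat_lit 5) (nat_lit 6) (nat_lit 244) (nat_lit 122) r8_244 r11_122 (nat_lit 0) (nat_lit 0) (nat_lit 0) (nat_lit 0x7d6133cf62) (nat_lit 1286184744),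
  Rx.mk (nat_lit 377) (nat_lit 1) (nat_lit 7) (nat_lit 5) (nat_lit 7) (nat_lit 245) (nat_lit 123) r8_245 r11_123 (nat_lit 0) (nat_lit 0) (nat_lit 0) (nat_lit 0x7de71770a2) (nat_lit 1029466152),
  Rx.mk (nat_lit 379) (nat_lit 3) (nat_lit 7) (nat_lit 5) (nat_lit 7) (nat_lit 246) (nat_lit 125) r8_246 r11_125 (nat_lit 0) (nat_lit 0) (nat_lit 0) (nat_lit 0x7de2f0331a) (nat_lit 1037429640)]
noncomputable def e15_33 : List Rx := [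
  Rx.mk (nat_lit 105) (nat_lit 1) (nat_lit 5) (nat_lit 1) (nat_lit 7) (nat_lit 249) (nat_lit 292) r8_249 r0_292 (nat_lit 0) (nat_lit 0) (nat_lit 0) (nat_lit 0x7ddc669bba) (nat_lit 1049964552),
  Rx.mk (nat_lit 361) (nat_lit 1) (nat_lit 5) (nat_lit 5) (nat_lit 7) (nat_lit 248) (nat_lit 291) r8_248 r0_291 (nat_lit 0) (nat_lit 0) (nat_lit 0) (nat_lit 0x7df24f9d14) (nat_lit 1007954064)]
noncomputable def e15_34 : List Rx := [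
  Rx.mk (nat_lit 97) (nat_lit 1) (nat_lit 4) (nat_lit 1) (nat_lit 5) (nat_lit 254) (nat_lit 293) r8_254 r0_293 (nat_lit 0) (nat_lit 0) (nat_lit 0) (nat_lit 0x7c454cceee) (nat_lit 1830538008),
  Rx.mk (nat_lit 105) (nat_lit 1) (nat_lit 5) (nat_lit 1) (nat_lit 7) (nat_lit 256) (nat_lit 296) r8_256 r0_296 (nat_lit 0) (nat_lit 0) (nat_lit 0) (nat_lit 0x7df79428c6) (nat_lit 997853688),
  Rx.mk (nat_lit 353) (nat_lit 1) (nat_lit 4) (nat_lit 5) (nat_lit 5) (nat_lit 253) (nat_lit 294) r8_253 r0_294 (nat_lit 0) (nat_lit 0) (nat_lit 0) (nat_lit 0x7d40db9506) (nat_lit 1348202232),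
  Rx.mk (nat_lit 357) (nat_lit 5) (nat_lit 4) (nat_lit 5) (nat_lit 5) (nat_lit 250) (nat_lit 295) r8_250 r0_295 (nat_lit 0) (nat_lit 0) (nat_lit 0) (nat_lit 0x7d3d9e48de) (nat_lit 1354413528),
  Rx.mk (nat_lit 361) (nat_lit 1) (nat_lit 5) (nat_lit 5) (nat_lit 7) (nat_lit 255) (nat_lit 297) r8_255 r0_297 (nat_lit 0) (nat_lit 0) (nat_lit 0) (nat_lit 0x7de02cbf54) (nat_lit 1042728336),
  Rx.mk (nat_lit 365) (nat_lit 5) (nat_lit 5) (nat_lit 5) (nat_lit 7) (nat_lit 251) (nat_lit 298) r8_251 r0_298 (nat_lit 0) (nat_lit 0) (nat_lit 0) (nat_lit 0x7df79428c6) (nat_lit 997853688),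
  Rx.mk (nat_lit 381) (nat_lit 5) (nat_lit 7) (nat_lit 5) (nat_lit 7) (nat_lit 252) (nat_lit 299) r8_252 r0_299 (nat_lit 0) (nat_lit 0) (nat_lit 0) (nat_lit 0x7dea449dcc) (nat_lit 1023375600)]
noncomputable def e15_35 : List Rx := [
  Rx.mk (nat_lit 105) (nat_lit 1) (nat_lit 5) (nat_lit 1) (nat_lit 7) (nat_lit 259) (nat_lit 408) r8_259 r6_408 (nat_lit 0) (nat_lit 0) (nat_lit 0) (nat_lit 0x7de3b8069c) (nat_lit 1035932976),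
  Rx.mk (nat_lit 361) (nat_lit 1) (nat_lit 5) (nat_lit 5) (nat_lit 7) (nat_lit 258) (nat_lit 407) r8_258 r6_407 (nat_lit 0) (nat_lit 0) (nat_lit 0) (nat_lit 0x7dd7634bf4) (nat_lit 1059576336),
  Rx.mk (nat_lit 365) (nat_lit 5) (nat_lit 5) (nat_lit 5) (nat_lit 7) (nat_lit 257) (nat_lit 406) r8_257 r6_406 (nat_lit 0) (nat_lit 0) (nat_lit 0) (nat_lit 0x7ddfeca356) (nat_lit 1043208504)]
noncomputable def e15_36 : List Rx := [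
  Rx.mk (nat_lit 356) (nat_lit 4) (nat_lit 4) (nat_lit 5) (nat_lit 4) (nat_lit 260) (nat_lit 316) r8_260 r2_316 (nat_lit 0) (nat_lit 0) (nat_lit 0) (nat_lit 0x6d72596cf8) (nat_lit 9106961760),
  Rx.mk (nat_lit 357) (nat_lit 5) (nat_lit 4) (nat_lit 5) (nat_lit 5) (nat_lit 262) (nat_lit 317) r8_262 r2_317 (nat_lit 0) (nat_lit 0) (nat_lit 0) (nat_lit 0x7cf90c5242) (nat_lit 1485889704),
  Rx.mk (nat_lit 365) (nat_lit 5) (nat_lit 5) (nat_lit 5) (nat_lit 7) (nat_lit 263) (nat_lit 318) r8_263 r2_318 (nat_lit 0) (nat_lit 0) (nat_lit 0) (nat_lit 0x7db6e7d3cc) (nat_lit 1121857776),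
  Rx.mk (nat_lit 380) (nat_lit 4) (nat_lit 7) (nat_lit 5) (nat_lit 6) (nat_lit 261) (nat_lit 319) r8_261 r2_319 (nat_lit 0) (nat_lit 0) (nat_lit 0) (nat_lit 0x7de2ed334a) (nat_lit 1037452104),
  Rx.mk (nat_lit 381) (nat_lit 5) (nat_lit 7) (nat_lit 5) (nat_lit 7) (nat_lit 264) (nat_lit 320) r8_264 r2_320 (nat_lit 0) (nat_lit 0) (nat_lit 0) (nat_lit 0x7de452dcee) (nat_lit 1034773272),
  Rx.mk (nat_lit 383) (nat_lit 7) (nat_lit 7) (nat_lit 5) (nat_lit 7) (nat_lit 265) (nat_lit 321) r8_265 r2_321 (nat_lit 0) (nat_lit 0) (nat_lit 0) (nat_lit 0x7df79428c6) (nat_lit 997853688)]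
noncomputable def e15_37 : List Rx := [
  Rx.mk (nat_lit 365) (nat_lit 5) (nat_lit 5) (nat_lit 5) (nat_lit 7) (nat_lit 266) (nat_lit 299) r8_266 r8_299 (nat_lit 0) (nat_lit 0) (nat_lit 0) (nat_lit 0x7de011610a) (nat_lit 1042933320)]
noncomputable def e15_38 : List Rx := [
  Rx.mk (nat_lit 292) (nat_lit 4) (nat_lit 4) (nat_lit 4) (nat_lit 0) (nat_lit 267) (nat_lit 267) r8_267 r8_267 (nat_lit 0) (nat_lit 0) (nat_lit 0) (nat_lit 0x35cba1d01c) (nat_lit 36423562032),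
  Rx.mk (nat_lit 293) (nat_lit 5) (nat_lit 4) (nat_lit 4) (nat_lit 1) (nat_lit 274) (nat_lit 268) r8_274 r8_268 (nat_lit 0) (nat_lit 0) (nat_lit 0) (nat_lit 0x686164415c) (nat_lit 11593743408),
  Rx.mk (nat_lit 308) (nat_lit 4) (nat_lit 6) (nat_lit 4) (nat_lit 2) (nat_lit 269) (nat_lit 272) r8_269 r8_272 (nat_lit 0) (nat_lit 0) (nat_lit 0) (nat_lit 0x78cd7eaf48) (nat_lit 3532812192),
  Rx.mk (nat_lit 309) (nat_lit 5) (nat_lit 6) (nat_lit 4) (nat_lit 3) (nat_lit 277) (nat_lit 273) r8_277 r8_273 (nat_lit 0) (nat_lit 0) (nat_lit 0) (nat_lit 0x7d8c7ffa74) (nat_lit 1203166224),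
  Rx.mk (nat_lit 316) (nat_lit 4) (nat_lit 7) (nat_lit 4) (nat_lit 2) (nat_lit 272) (nat_lit 269) r8_272 r8_269 (nat_lit 0) (nat_lit 0) (nat_lit 0) (nat_lit 0x78cd7eaf48) (nat_lit 3532812192),
  Rx.mk (nat_lit 317) (nat_lit 5) (nat_lit 7) (nat_lit 4) (nat_lit 3) (nat_lit 280) (nat_lit 270) r8_280 r8_270 (nat_lit 0) (nat_lit 0) (nat_lit 0) (nat_lit 0x7dc999e898) (nat_lit 1086010848),
  Rx.mk (nat_lit 319) (nat_lit 7) (nat_lit 7) (nat_lit 4) (nat_lit 3) (nat_lit 283) (nat_lit 271) r8_283 r8_271 (nat_lit 0) (nat_lit 0) (nat_lit 0) (nat_lit 0x7dc3dca472) (nat_lit 1097015400),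
  Rx.mk (nat_lit 356) (nat_lit 4) (nat_lit 4) (nat_lit 5) (nat_lit 4) (nat_lit 268) (nat_lit 274) r8_268 r8_274 (nat_lit 0) (nat_lit 0) (nat_lit 0) (nat_lit 0x686164415c) (nat_lit 11593743408),
  Rx.mk (nat_lit 357) (nat_lit 5) (nat_lit 4) (nat_lit 5) (nat_lit 5) (nat_lit 275) (nat_lit 275) r8_275 r8_275 (nat_lit 0) (nat_lit 0) (nat_lit 0) (nat_lit 0x7dccfb3280) (nat_lit 1079529984),
  Rx.mk (nat_lit 365) (nat_lit 5) (nat_lit 5) (nat_lit 5) (nat_lit 7) (nat_lit 276) (nat_lit 276) r8_276 r8_276 (nat_lit 0) (nat_lit 0) (nat_lit 0) (nat_lit 0x7dde0fc126) (nat_lit 1046780280),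
  Rx.mk (nat_lit 372) (nat_lit 4) (nat_lit 6) (nat_lit 5) (nat_lit 6) (nat_lit 270) (nat_lit 280) r8_270 r8_280 (nat_lit 0) (nat_lit 0) (nat_lit 0) (nat_lit 0x7dc999e898) (nat_lit 1086010848),
  Rx.mk (nat_lit 373) (nat_lit 5) (nat_lit 6) (nat_lit 5) (nat_lit 7) (nat_lit 278) (nat_lit 281) r8_278 r8_281 (nat_lit 0) (nat_lit 0) (nat_lit 0) (nat_lit 0x7dd3d864a6) (nat_lit 1066368888),
  Rx.mk (nat_lit 380) (nat_lit 4) (nat_lit 7) (nat_lit 5) (nat_lit 6) (nat_lit 273) (nat_lit 277) r8_273 r8_277 (nat_lit 0) (nat_lit 0) (nat_lit 0) (nat_lit 0x7d8c7ffa74) (nat_lit 1203166224),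
  Rx.mk (nat_lit 381) (nat_lit 5) (nat_lit 7) (nat_lit 5) (nat_lit 7) (nat_lit 281) (nat_lit 278) r8_281 r8_278 (nat_lit 0) (nat_lit 0) (nat_lit 0) (nat_lit 0x7dd3d864a6) (nat_lit 1066368888),
  Rx.mk (nat_lit 383) (nat_lit 7) (nat_lit 7) (nat_lit 5) (nat_lit 7) (nat_lit 284) (nat_lit 279) r8_284 r8_279 (nat_lit 0) (nat_lit 0) (nat_lit 0) (nat_lit 0x7dc4501d3a) (nat_lit 1096150536),
  Rx.mk (nat_lit 436) (nat_lit 4) (nat_lit 6) (nat_lit 6) (nat_lit 6) (nat_lit 271) (nat_lit 283) r8_271 r8_283 (nat_lit 0) (nat_lit 0) (nat_lit 0) (nat_lit 0x7dc3dca472) (nat_lit 1097015400),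
  Rx.mk (nat_lit 437) (nat_lit 5) (nat_lit 6) (nat_lit 6) (nat_lit 7) (nat_lit 279) (nat_lit 284) r8_279 r8_284 (nat_lit 0) (nat_lit 0) (nat_lit 0) (nat_lit 0x7dc4501d3a) (nat_lit 1096150536),
  Rx.mk (nat_lit 438) (nat_lit 6) (nat_lit 6) (nat_lit 6) (nat_lit 7) (nat_lit 282) (nat_lit 285) r8_282 r8_285 (nat_lit 0) (nat_lit 0) (nat_lit 0) (nat_lit 0x7dc62bdf7c) (nat_lit 1092587184),
  Rx.mk (nat_lit 511) (nat_lit 7) (nat_lit 7) (nat_lit 7) (nat_lit 7) (nat_lit 285) (nat_lit 282) r8_285 r8_282 (nat_lit 0) (nat_lit 0) (nat_lit 0) (nat_lit 0x7dc62bdf7c) (nat_lit 1092587184)]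
noncomputable def e15_39 : List Rx := [
  Rx.mk (nat_lit 357) (nat_lit 5) (nat_lit 4) (nat_lit 5) (nat_lit 5) (nat_lit 286) (nat_lit 290) r8_286 r1_290 (nat_lit 0) (nat_lit 0) (nat_lit 0) (nat_lit 0x7d689cd8ca) (nat_lit 1271976264),
  Rx.mk (nat_lit 365) (nat_lit 5) (nat_lit 5) (nat_lit 5) (nat_lit 7) (nat_lit 287) (nat_lit 291) r8_287 r1_291 (nat_lit 0) (nat_lit 0) (nat_lit 0) (nat_lit 0x7de70451d4) (nat_lit 1029609360),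
  Rx.mk (nat_lit 381) (nat_lit 5) (nat_lit 7) (nat_lit 5) (nat_lit 7) (nat_lit 288) (nat_lit 292) r8_288 r1_292 (nat_lit 0) (nat_lit 0) (nat_lit 0) (nat_lit 0x7df1630bde) (nat_lit 1009725912)]
noncomputable def e15_40 : List Rx := [
  Rx.mk (nat_lit 365) (nat_lit 5) (nat_lit 5) (nat_lit 5) (nat_lit 7) (nat_lit 289) (nat_lit 326) r8_289 r7_326 (nat_lit 0) (nat_lit 0) (nat_lit 0) (nat_lit 0x7df343add2) (nat_lit 1006126056)]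
noncomputable def e15_41 : List Rx := [
  Rx.mk (nat_lit 73) (nat_lit 1) (nat_lit 1) (nat_lit 1) (nat_lit 7) (nat_lit 292) (nat_lit 289) r8_292 r1_289 (nat_lit 0) (nat_lit 0) (nat_lit 0) (nat_lit 0x7de85cdc4a) (nat_lit 1027028808),
  Rx.mk (nat_lit 105) (nat_lit 1) (nat_lit 5) (nat_lit 1) (nat_lit 7) (nat_lit 291) (nat_lit 288) r8_291 r1_288 (nat_lit 0) (nat_lit 0) (nat_lit 0) (nat_lit 0x7de6571ca8) (nat_lit 1030906656),
  Rx.mk (nat_lit 361) (nat_lit 1) (nat_lit 5) (nat_lit 5) (nat_lit 7) (nat_lit 290) (nat_lit 287) r8_290 r1_287 (nat_lit 0) (nat_lit 0) (nat_lit 0) (nat_lit 0x7deadc744e) (nat_lit 1022238360)]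
noncomputable def e15_42 : List Rx := [
  Rx.mk (nat_lit 73) (nat_lit 1) (nat_lit 1) (nat_lit 1) (nat_lit 7) (nat_lit 293) (nat_lit 315) r8_293 r2_315 (nat_lit 0) (nat_lit 0) (nat_lit 0) (nat_lit 0x7dee79ba76) (nat_lit 1015308216)]
noncomputable def e15_43 : List Rx := [
  Rx.mk (nat_lit 73) (nat_lit 1) (nat_lit 1) (nat_lit 1) (nat_lit 7) (nat_lit 297) (nat_lit 327) r8_297 r7_327 (nat_lit 0) (nat_lit 0) (nat_lit 0) (nat_lit 0x7de90d7140) (nat_lit 1025706240),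
  Rx.mk (nat_lit 105) (nat_lit 1) (nat_lit 5) (nat_lit 1) (nat_lit 7) (nat_lit 296) (nat_lit 328) r8_296 r7_328 (nat_lit 0) (nat_lit 0) (nat_lit 0) (nat_lit 0x7dd57faa30) (nat_lit 1063198656),
  Rx.mk (nat_lit 361) (nat_lit 1) (nat_lit 5) (nat_lit 5) (nat_lit 7) (nat_lit 295) (nat_lit 329) r8_295 r7_329 (nat_lit 0) (nat_lit 0) (nat_lit 0) (nat_lit 0x7dafdd447c) (nat_lit 1135358640),
  Rx.mk (nat_lit 365) (nat_lit 5) (nat_lit 5) (nat_lit 5) (nat_lit 7) (nat_lit 294) (nat_lit 330) r8_294 r7_330 (nat_lit 0) (nat_lit 0) (nat_lit 0) (nat_lit 0x7de241de00) (nat_lit 1038735360)]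
noncomputable def e15_44 : List Rx := [
  Rx.mk (nat_lit 73) (nat_lit 1) (nat_lit 1) (nat_lit 1) (nat_lit 7) (nat_lit 298) (nat_lit 298) r8_298 r8_298 (nat_lit 0) (nat_lit 0) (nat_lit 0) (nat_lit 0x7de30ad170) (nat_lit 1037230272)]
noncomputable def e15_45 : List Rx := [
  Rx.mk (nat_lit 73) (nat_lit 1) (nat_lit 1) (nat_lit 1) (nat_lit 7) (nat_lit 299) (nat_lit 266) r8_299 r8_266 (nat_lit 0) (nat_lit 0) (nat_lit 0) (nat_lit 0x7de011610a) (nat_lit 1042933320)]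
noncomputable def e15_46 : List Rx := [
  Rx.mk (nat_lit 105) (nat_lit 1) (nat_lit 5) (nat_lit 1) (nat_lit 7) (nat_lit 306) (nat_lit 308) r8_306 r4_308 (nat_lit 0) (nat_lit 0) (nat_lit 0) (nat_lit 0x7de5612c08) (nat_lit 1032748704),
  Rx.mk (nat_lit 361) (nat_lit 1) (nat_lit 5) (nat_lit 5) (nat_lit 7) (nat_lit 305) (nat_lit 307) r8_305 r4_307 (nat_lit 0) (nat_lit 0) (nat_lit 0) (nat_lit 0x7dd68859a4) (nat_lit 1061216208)]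
noncomputable def e15_47 : List Rx := [
  Rx.mk (nat_lit 97) (nat_lit 1) (nat_lit 4) (nat_lit 1) (nat_lit 5) (nat_lit 313) (nat_lit 309) r8_313 r4_309 (nat_lit 0) (nat_lit 0) (nat_lit 0) (nat_lit 0x7cf628a080) (nat_lit 1491429888),
  Rx.mk (nat_lit 105) (nat_lit 1) (nat_lit 5) (nat_lit 1) (nat_lit 7) (nat_lit 315) (nat_lit 311) r8_315 r4_311 (nat_lit 0) (nat_lit 0) (nat_lit 0) (nat_lit 0x7de1440dde) (nat_lit 1040636376),
  Rx.mk (nat_lit 353) (nat_lit 1) (nat_lit 4) (nat_lit 5) (nat_lit 5) (nat_lit 312) (nat_lit 310) r8_312 r4_310 (nat_lit 0) (nat_lit 0) (nat_lit 0) (nat_lit 0x7bf32fb112) (nat_lit 1987982568),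
  Rx.mk (nat_lit 361) (nat_lit 1) (nat_lit 5) (nat_lit 5) (nat_lit 7) (nat_lit 314) (nat_lit 312) r8_314 r4_312 (nat_lit 0) (nat_lit 0) (nat_lit 0) (nat_lit 0x7ddd4f0d32) (nat_lit 1048223592),
  Rx.mk (nat_lit 377) (nat_lit 1) (nat_lit 7) (nat_lit 5) (nat_lit 7) (nat_lit 316) (nat_lit 313) r8_316 r4_313 (nat_lit 0) (nat_lit 0) (nat_lit 0) (nat_lit 0x7deb594c80) (nat_lit 1021303296),
  Rx.mk (nat_lit 381) (nat_lit 5) (nat_lit 7) (nat_lit 5) (nat_lit 7) (nat_lit 311) (nat_lit 314) r8_311 r4_314 (nat_lit 0) (nat_lit 0) (nat_lit 0) (nat_lit 0x7dc5e563e4) (nat_lit 1093115088)]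
noncomputable def e15_48 : List Rx := [
  Rx.mk (nat_lit 105) (nat_lit 1) (nat_lit 5) (nat_lit 1) (nat_lit 7) (nat_lit 318) (nat_lit 330) r8_318 r9_330 (nat_lit 0) (nat_lit 0) (nat_lit 0) (nat_lit 0x7df4a417ca) (nat_lit 1003486536),
  Rx.mk (nat_lit 361) (nat_lit 1) (nat_lit 5) (nat_lit 5) (nat_lit 7) (nat_lit 317) (nat_lit 329) r8_317 r9_329 (nat_lit 0) (nat_lit 0) (nat_lit 0) (nat_lit 0x7dd84fdd2a) (nat_lit 1057804488)]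
noncomputable def e15_49 : List Rx := [
  Rx.mk (nat_lit 97) (nat_lit 1) (nat_lit 4) (nat_lit 1) (nat_lit 5) (nat_lit 320) (nat_lit 347) r8_320 r10_347 (nat_lit 0) (nat_lit 0) (nat_lit 0) (nat_lit 0x7d5d8ae9f4) (nat_lit 1293201936),
  Rx.mk (nat_lit 105) (nat_lit 1) (nat_lit 5) (nat_lit 1) (nat_lit 7) (nat_lit 321) (nat_lit 348) r8_321 r10_348 (nat_lit 0) (nat_lit 0) (nat_lit 0) (nat_lit 0x7de98b6960) (nat_lit 1024762752),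
  Rx.mk (nat_lit 121) (nat_lit 1) (nat_lit 7) (nat_lit 1) (nat_lit 7) (nat_lit 323) (nat_lit 349) r8_323 r10_349 (nat_lit 0) (nat_lit 0) (nat_lit 0) (nat_lit 0x7dd48359f6) (nat_lit 1065088440),
  Rx.mk (nat_lit 377) (nat_lit 1) (nat_lit 7) (nat_lit 5) (nat_lit 7) (nat_lit 322) (nat_lit 346) r8_322 r10_346 (nat_lit 0) (nat_lit 0) (nat_lit 0) (nat_lit 0x7ddf600c20) (nat_lit 1044261504),
  Rx.mk (nat_lit 381) (nat_lit 5) (nat_lit 7) (nat_lit 5) (nat_lit 7) (nat_lit 319) (nat_lit 345) r8_319 r10_345 (nat_lit 0) (nat_lit 0) (nat_lit 0) (nat_lit 0x7de3095188) (nat_lit 1037241504)]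
noncomputable def e15_50 : List Rx := [
  Rx.mk (nat_lit 361) (nat_lit 1) (nat_lit 5) (nat_lit 5) (nat_lit 7) (nat_lit 327) (nat_lit 350) r8_327 r10_350 (nat_lit 0) (nat_lit 0) (nat_lit 0) (nat_lit 0x7ded710b02) (nat_lit 1017290664)]
noncomputable def e15_51 : List Rx := [
  Rx.mk (nat_lit 379) (nat_lit 3) (nat_lit 7) (nat_lit 5) (nat_lit 7) (nat_lit 18) (nat_lit 123) r8_18 r12_123 (nat_lit 0) (nat_lit 0) (nat_lit 0) (nat_lit 0x7ded19507e) (nat_lit 1017947736)]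
noncomputable def e15_52 : List Rx := [
  Rx.mk (nat_lit 91) (nat_lit 3) (nat_lit 3) (nat_lit 1) (nat_lit 7) (nat_lit 64) (nat_lit 151) r8_64 r12_151 (nat_lit 0) (nat_lit 0) (nat_lit 0) (nat_lit 0x7deb738adc) (nat_lit 1021106736),
  Rx.mk (nat_lit 123) (nat_lit 3) (nat_lit 7) (nat_lit 1) (nat_lit 7) (nat_lit 63) (nat_lit 150) r8_63 r12_150 (nat_lit 0) (nat_lit 0) (nat_lit 0) (nat_lit 0x7df198a884) (nat_lit 1009324368)]
noncomputable def e15_53 : List Rx := [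
  Rx.mk (nat_lit 379) (nat_lit 3) (nat_lit 7) (nat_lit 5) (nat_lit 7) (nat_lit 215) (nat_lit 266) r8_215 r12_266 (nat_lit 0) (nat_lit 0) (nat_lit 0) (nat_lit 0x7df0bb165e) (nat_lit 1010983896)]
noncomputable def e15_54 : List Rx := [
  Rx.mk (nat_lit 88) (nat_lit 0) (nat_lit 3) (nat_lit 1) (nat_lit 6) (nat_lit 225) (nat_lit 261) r8_225 r12_261 (nat_lit 0) (nat_lit 0) (nat_lit 0) (nat_lit 0x7cb54cae80) (nat_lit 1615790592),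
  Rx.mk (nat_lit 89) (nat_lit 1) (nat_lit 3) (nat_lit 1) (nat_lit 7) (nat_lit 227) (nat_lit 263) r8_227 r12_263 (nat_lit 0) (nat_lit 0) (nat_lit 0) (nat_lit 0x7dca3abe8a) (nat_lit 1084806216),
  Rx.mk (nat_lit 120) (nat_lit 0) (nat_lit 7) (nat_lit 1) (nat_lit 6) (nat_lit 224) (nat_lit 262) r8_224 r12_262 (nat_lit 0) (nat_lit 0) (nat_lit 0) (nat_lit 0x7dae17a0d8) (nat_lit 1138756320),
  Rx.mk (nat_lit 121) (nat_lit 1) (nat_lit 7) (nat_lit 1) (nat_lit 7) (nat_lit 226) (nat_lit 264) r8_226 r12_264 (nat_lit 0) (nat_lit 0) (nat_lit 0) (nat_lit 0x7de7338ee0) (nat_lit 1029255552),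
  Rx.mk (nat_lit 123) (nat_lit 3) (nat_lit 7) (nat_lit 1) (nat_lit 7) (nat_lit 228) (nat_lit 265) r8_228 r12_265 (nat_lit 0) (nat_lit 0) (nat_lit 0) (nat_lit 0x7de986e9a8) (nat_lit 1024796448)]
noncomputable def e15_55 : List Rx := [
  Rx.mk (nat_lit 97) (nat_lit 1) (nat_lit 4) (nat_lit 1) (nat_lit 5) (nat_lit 301) (nat_lit 288) r8_301 r3_288 (nat_lit 0) (nat_lit 0) (nat_lit 0) (nat_lit 0x6ab4f44608) (nat_lit 10451814048),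
  Rx.mk (nat_lit 105) (nat_lit 1) (nat_lit 5) (nat_lit 1) (nat_lit 7) (nat_lit 303) (nat_lit 289) r8_303 r3_289 (nat_lit 0) (nat_lit 0) (nat_lit 0) (nat_lit 0x795b231474) (nat_lit 3261228048),
  Rx.mk (nat_lit 353) (nat_lit 1) (nat_lit 4) (nat_lit 5) (nat_lit 5) (nat_lit 300) (nat_lit 285) r8_300 r3_285 (nat_lit 0) (nat_lit 0) (nat_lit 0) (nat_lit 0x6e55c73538) (nat_lit 8670890592),
  Rx.mk (nat_lit 361) (nat_lit 1) (nat_lit 5) (nat_lit 5) (nat_lit 7) (nat_lit 302) (nat_lit 286) r8_302 r3_286 (nat_lit 0) (nat_lit 0) (nat_lit 0) (nat_lit 0x7a6150509a) (nat_lit 2758531464),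
  Rx.mk (nat_lit 377) (nat_lit 1) (nat_lit 7) (nat_lit 5) (nat_lit 7) (nat_lit 304) (nat_lit 287) r8_304 r3_287 (nat_lit 0) (nat_lit 0) (nat_lit 0) (nat_lit 0x7191b1135e) (nat_lit 7083452376)]
noncomputable def e15_56 : List Rx := [
  Rx.mk (nat_lit 97) (nat_lit 1) (nat_lit 4) (nat_lit 1) (nat_lit 5) (nat_lit 307) (nat_lit 287) r8_307 r12_287 (nat_lit 0) (nat_lit 0) (nat_lit 0) (nat_lit 0x6ec70e6054) (nat_lit 8453691792),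
  Rx.mk (nat_lit 105) (nat_lit 1) (nat_lit 5) (nat_lit 1) (nat_lit 7) (nat_lit 308) (nat_lit 288) r8_308 r12_288 (nat_lit 0) (nat_lit 0) (nat_lit 0) (nat_lit 0x7dd07e9a46) (nat_lit 1072793592),
  Rx.mk (nat_lit 121) (nat_lit 1) (nat_lit 7) (nat_lit 1) (nat_lit 7) (nat_lit 310) (nat_lit 289) r8_310 r12_289 (nat_lit 0) (nat_lit 0) (nat_lit 0) (nat_lit 0x7dbce773cc) (nat_lit 1110356208),
  Rx.mk (nat_lit 377) (nat_lit 1) (nat_lit 7) (nat_lit 5) (nat_lit 7) (nat_lit 309) (nat_lit 286) r8_309 r12_286 (nat_lit 0) (nat_lit 0) (nat_lit 0) (nat_lit 0x7ddc31bf08) (nat_lit 1050360480)]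
noncomputable def e15_57 : List Rx := [
  Rx.mk (nat_lit 353) (nat_lit 1) (nat_lit 4) (nat_lit 5) (nat_lit 5) (nat_lit 324) (nat_lit 290) r8_324 r12_290 (nat_lit 0) (nat_lit 0) (nat_lit 0) (nat_lit 0x7cb8761be6) (nat_lit 1609728120),
  Rx.mk (nat_lit 361) (nat_lit 1) (nat_lit 5) (nat_lit 5) (nat_lit 7) (nat_lit 325) (nat_lit 291) r8_325 r12_291 (nat_lit 0) (nat_lit 0) (nat_lit 0) (nat_lit 0x7de9664bb2) (nat_lit 1025040744),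
  Rx.mk (nat_lit 377) (nat_lit 1) (nat_lit 7) (nat_lit 5) (nat_lit 7) (nat_lit 326) (nat_lit 292) r8_326 r12_292 (nat_lit 0) (nat_lit 0) (nat_lit 0) (nat_lit 0x7dda2b3f72) (nat_lit 1054243944)]
noncomputable def e15 : List (List Rx) := [e15_0, e15_1, e15_2, e15_3, e15_4, e15_5, e15_6, e15_7, e15_8, e15_9, e15_10, e15_11, e15_12, e15_13, e15_14, e15_15, e15_16, e15_17, e15_18, e15_19, e15_20, e15_21, e15_22, e15_23, e15_24, e15_25, e15_26, e15_27, e15_28, e15_29, e15_30, e15_31, e15_32, e15_33, e15_34, e15_35, e15_36, e15_37, e15_38, e15_39, e15_40, e15_41, e15_42, e15_43, e15_44, e15_45, e15_46, e15_47, e15_48, e15_49, e15_50, e15_51, e15_52, e15_53, e15_54, e15_55, e15_56, e15_57]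
noncomputable def e16_0 : List Rx := [
  Rx.mk (nat_lit 2) (nat_lit 2) (nat_lit 0) (nat_lit 0) (nat_lit 1) (nat_lit 93) (nat_lit 142) r4_93 r0_142 (nat_lit 0) (nat_lit 0) (nat_lit 0) (nat_lit 0x71b7297bb2) (nat_lit 7011606888),
  Rx.mk (nat_lit 18) (nat_lit 2) (nat_lit 2) (nat_lit 0) (nat_lit 3) (nat_lit 94) (nat_lit 145) r4_94 r0_145 (nat_lit 0) (nat_lit 0) (nat_lit 0) (nat_lit 0x7bb2a1ba32) (nat_lit 2111759208),
  Rx.mk (nat_lit 194) (nat_lit 2) (nat_lit 0) (nat_lit 3) (nat_lit 5) (nat_lit 95) (nat_lit 143) r4_95 r0_143 (nat_lit 0) (nat_lit 0) (nat_lit 0) (nat_lit 0x7ac67fdd3c) (nat_lit 2564518320),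
  Rx.mk (nat_lit 210) (nat_lit 2) (nat_lit 2) (nat_lit 3) (nat_lit 7) (nat_lit 96) (nat_lit 146) r4_96 r0_146 (nat_lit 0) (nat_lit 0) (nat_lit 0) (nat_lit 0x7e2f4f4cdc) (nat_lit 890995248),
  Rx.mk (nat_lit 218) (nat_lit 2) (nat_lit 3) (nat_lit 3) (nat_lit 7) (nat_lit 97) (nat_lit 144) r4_97 r0_144 (nat_lit 0) (nat_lit 0) (nat_lit 0) (nat_lit 0x7d94351f1a) (nat_lit 1188387720)]
noncomputable def e16_1 : List Rx := [
  Rx.mk (nat_lit 2) (nat_lit 2) (nat_lit 0) (nat_lit 0) (nat_lit 1) (nat_lit 107) (nat_lit 154) r4_107 r1_154 (nat_lit 0) (nat_lit 0) (nat_lit 0) (nat_lit 0x74634ad6f0) (nat_lit 5699858112),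
  Rx.mk (nat_lit 18) (nat_lit 2) (nat_lit 2) (nat_lit 0) (nat_lit 3) (nat_lit 108) (nat_lit 158) r4_108 r1_158 (nat_lit 0) (nat_lit 0) (nat_lit 0) (nat_lit 0x727dbfd186) (nat_lit 6630836472),
  Rx.mk (nat_lit 66) (nat_lit 2) (nat_lit 0) (nat_lit 1) (nat_lit 5) (nat_lit 109) (nat_lit 155) r4_109 r1_155 (nat_lit 0) (nat_lit 0) (nat_lit 0) (nat_lit 0x7dc2547cf6) (nat_lit 1099952568),
  Rx.mk (nat_lit 82) (nat_lit 2) (nat_lit 2) (nat_lit 1) (nat_lit 7) (nat_lit 110) (nat_lit 159) r4_110 r1_159 (nat_lit 0) (nat_lit 0) (nat_lit 0) (nat_lit 0x7dbbbc4680) (nat_lit 1112596992),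
  Rx.mk (nat_lit 194) (nat_lit 2) (nat_lit 0) (nat_lit 3) (nat_lit 5) (nat_lit 111) (nat_lit 156) r4_111 r1_156 (nat_lit 0) (nat_lit 0) (nat_lit 0) (nat_lit 0x7e11d58496) (nat_lit 947511864),
  Rx.mk (nat_lit 210) (nat_lit 2) (nat_lit 2) (nat_lit 3) (nat_lit 7) (nat_lit 112) (nat_lit 160) r4_112 r1_160 (nat_lit 0) (nat_lit 0) (nat_lit 0) (nat_lit 0x7dbe303f3e) (nat_lit 1107893592),
  Rx.mk (nat_lit 218) (nat_lit 2) (nat_lit 3) (nat_lit 3) (nat_lit 7) (nat_lit 113) (nat_lit 157) r4_113 r1_157 (nat_lit 0) (nat_lit 0) (nat_lit 0) (nat_lit 0x7df3f3e2ce) (nat_lit 1004806296)]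
noncomputable def e16_2 : List Rx := [
  Rx.mk (nat_lit 66) (nat_lit 2) (nat_lit 0) (nat_lit 1) (nat_lit 5) (nat_lit 271) (nat_lit 158) r4_271 r2_158 (nat_lit 0) (nat_lit 0) (nat_lit 0) (nat_lit 0x7dd5e96394) (nat_lit 1062406800),
  Rx.mk (nat_lit 82) (nat_lit 2) (nat_lit 2) (nat_lit 1) (nat_lit 7) (nat_lit 272) (nat_lit 159) r4_272 r2_159 (nat_lit 0) (nat_lit 0) (nat_lit 0) (nat_lit 0x7de99d6840) (nat_lit 1024627968)]
noncomputable def e16_3 : List Rx := [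
  Rx.mk (nat_lit 194) (nat_lit 2) (nat_lit 0) (nat_lit 3) (nat_lit 5) (nat_lit 31) (nat_lit 126) r4_31 r3_126 (nat_lit 0) (nat_lit 0) (nat_lit 0) (nat_lit 0x7ffbd9e266) (nat_lit 7955064),
  Rx.mk (nat_lit 210) (nat_lit 2) (nat_lit 2) (nat_lit 3) (nat_lit 7) (nat_lit 32) (nat_lit 129) r4_32 r3_129 (nat_lit 0) (nat_lit 0) (nat_lit 0) (nat_lit 0x7ae6c7f89a) (nat_lit 2502621576),
  Rx.mk (nat_lit 218) (nat_lit 2) (nat_lit 3) (nat_lit 3) (nat_lit 7) (nat_lit 33) (nat_lit 127) r4_33 r3_127 (nat_lit 0) (nat_lit 0) (nat_lit 0) (nat_lit 0x7e68443d54) (nat_lit 781786512),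
  Rx.mk (nat_lit 315) (nat_lit 3) (nat_lit 7) (nat_lit 4) (nat_lit 3) (nat_lit 34) (nat_lit 123) r4_34 r3_123 (nat_lit 0) (nat_lit 0) (nat_lit 0) (nat_lit 0x7f3136ed60) (nat_lit 396489600),
  Rx.mk (nat_lit 443) (nat_lit 3) (nat_lit 7) (nat_lit 6) (nat_lit 7) (nat_lit 35) (nat_lit 125) r4_35 r3_125 (nat_lit 0) (nat_lit 0) (nat_lit 0) (nat_lit 0x7f09322dd4) (nat_lit 473221008),
  Rx.mk (nat_lit 472) (nat_lit 0) (nat_lit 3) (nat_lit 7) (nat_lit 6) (nat_lit 36) (nat_lit 121) r4_36 r3_121 (nat_lit 0) (nat_lit 0) (nat_lit 0) (nat_lit 0x7db0793abc) (nat_lit 1134190512),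
  Rx.mk (nat_lit 474) (nat_lit 2) (nat_lit 3) (nat_lit 7) (nat_lit 7) (nat_lit 37) (nat_lit 128) r4_37 r3_128 (nat_lit 0) (nat_lit 0) (nat_lit 0) (nat_lit 0x7eb5bf2558) (nat_lit 633226464),
  Rx.mk (nat_lit 475) (nat_lit 3) (nat_lit 3) (nat_lit 7) (nat_lit 7) (nat_lit 38) (nat_lit 122) r4_38 r3_122 (nat_lit 0) (nat_lit 0) (nat_lit 0) (nat_lit 0x7e2eabd714) (nat_lit 892219536),
  Rx.mk (nat_lit 507) (nat_lit 3) (nat_lit 7) (nat_lit 7) (nat_lit 7) (nat_lit 39) (nat_lit 124) r4_39 r3_124 (nat_lit 0) (nat_lit 0) (nat_lit 0) (nat_lit 0x7e65b0c68e) (nat_lit 786725784)]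
noncomputable def e16_4 : List Rx := [
  Rx.mk (nat_lit 194) (nat_lit 2) (nat_lit 0) (nat_lit 3) (nat_lit 5) (nat_lit 131) (nat_lit 131) r4_131 r4_131 (nat_lit 0) (nat_lit 0) (nat_lit 0) (nat_lit 0x7e4c631b82) (nat_lit 835242408),
  Rx.mk (nat_lit 210) (nat_lit 2) (nat_lit 2) (nat_lit 3) (nat_lit 7) (nat_lit 132) (nat_lit 133) r4_132 r4_133 (nat_lit 0) (nat_lit 0) (nat_lit 0) (nat_lit 0x7e1048dd62) (nat_lit 950482728),
  Rx.mk (nat_lit 218) (nat_lit 2) (nat_lit 3) (nat_lit 3) (nat_lit 7) (nat_lit 133) (nat_lit 132) r4_133 r4_132 (nat_lit 0) (nat_lit 0) (nat_lit 0) (nat_lit 0x7e1048dd62) (nat_lit 950482728)]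
noncomputable def e16_5 : List Rx := [
  Rx.mk (nat_lit 256) (nat_lit 0) (nat_lit 0) (nat_lit 4) (nat_lit 0) (nat_lit 315) (nat_lit 152) r4_315 r3_152 (nat_lit 0) (nat_lit 0) (nat_lit 0) (nat_lit 0x72d96d1656) (nat_lit 6455055672),
  Rx.mk (nat_lit 257) (nat_lit 1) (nat_lit 0) (nat_lit 4) (nat_lit 1) (nat_lit 316) (nat_lit 154) r4_316 r3_154 (nat_lit 0) (nat_lit 0) (nat_lit 0) (nat_lit 0x790eef77fa) (nat_lit 3407336712),
  Rx.mk (nat_lit 258) (nat_lit 2) (nat_lit 0) (nat_lit 4) (nat_lit 1) (nat_lit 317) (nat_lit 156) r4_317 r3_156 (nat_lit 0) (nat_lit 0) (nat_lit 0) (nat_lit 0x79c6919d20) (nat_lit 3055238784),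
  Rx.mk (nat_lit 280) (nat_lit 0) (nat_lit 3) (nat_lit 4) (nat_lit 2) (nat_lit 318) (nat_lit 158) r4_318 r3_158 (nat_lit 0) (nat_lit 0) (nat_lit 0) (nat_lit 0x7a41dba804) (nat_lit 2818844496),
  Rx.mk (nat_lit 281) (nat_lit 1) (nat_lit 3) (nat_lit 4) (nat_lit 3) (nat_lit 319) (nat_lit 160) r4_319 r3_160 (nat_lit 0) (nat_lit 0) (nat_lit 0) (nat_lit 0x7e0ef89268) (nat_lit 953001504),
  Rx.mk (nat_lit 282) (nat_lit 2) (nat_lit 3) (nat_lit 4) (nat_lit 3) (nat_lit 320) (nat_lit 162) r4_320 r3_162 (nat_lit 0) (nat_lit 0) (nat_lit 0) (nat_lit 0x7c8fa6290e) (nat_lit 1687981464),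
  Rx.mk (nat_lit 320) (nat_lit 0) (nat_lit 0) (nat_lit 5) (nat_lit 4) (nat_lit 321) (nat_lit 153) r4_321 r3_153 (nat_lit 0) (nat_lit 0) (nat_lit 0) (nat_lit 0x7824867f74) (nat_lit 3856793616),
  Rx.mk (nat_lit 321) (nat_lit 1) (nat_lit 0) (nat_lit 5) (nat_lit 5) (nat_lit 322) (nat_lit 155) r4_322 r3_155 (nat_lit 0) (nat_lit 0) (nat_lit 0) (nat_lit 0x7cbf2d1070) (nat_lit 1596853440),
  Rx.mk (nat_lit 322) (nat_lit 2) (nat_lit 0) (nat_lit 5) (nat_lit 5) (nat_lit 323) (nat_lit 157) r4_323 r3_157 (nat_lit 0) (nat_lit 0) (nat_lit 0) (nat_lit 0x7cb07e3b6c) (nat_lit 1625006448),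
  Rx.mk (nat_lit 344) (nat_lit 0) (nat_lit 3) (nat_lit 5) (nat_lit 6) (nat_lit 324) (nat_lit 159) r4_324 r3_159 (nat_lit 0) (nat_lit 0) (nat_lit 0) (nat_lit 0x7e5e87d924) (nat_lit 800454096),
  Rx.mk (nat_lit 345) (nat_lit 1) (nat_lit 3) (nat_lit 5) (nat_lit 7) (nat_lit 325) (nat_lit 161) r4_325 r3_161 (nat_lit 0) (nat_lit 0) (nat_lit 0) (nat_lit 0x7eb281d930) (nat_lit 639437760),
  Rx.mk (nat_lit 346) (nat_lit 2) (nat_lit 3) (nat_lit 5) (nat_lit 7) (nat_lit 326) (nat_lit 163) r4_326 r3_163 (nat_lit 0) (nat_lit 0) (nat_lit 0) (nat_lit 0x7ea6169ff0) (nat_lit 663249600)]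
noncomputable def e16_6 : List Rx := [
  Rx.mk (nat_lit 320) (nat_lit 0) (nat_lit 0) (nat_lit 5) (nat_lit 4) (nat_lit 262) (nat_lit 174) r4_262 r0_174 (nat_lit 0) (nat_lit 0) (nat_lit 0) (nat_lit 0x67e873f0da) (nat_lit 11825630856),
  Rx.mk (nat_lit 321) (nat_lit 1) (nat_lit 0) (nat_lit 5) (nat_lit 5) (nat_lit 263) (nat_lit 175) r4_263 r0_175 (nat_lit 0) (nat_lit 0) (nat_lit 0) (nat_lit 0x7e1f5bcc24) (nat_lit 921579984),
  Rx.mk (nat_lit 322) (nat_lit 2) (nat_lit 0) (nat_lit 5) (nat_lit 5) (nat_lit 264) (nat_lit 176) r4_264 r0_176 (nat_lit 0) (nat_lit 0) (nat_lit 0) (nat_lit 0x75d49f6036) (nat_lit 4991705784)]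
noncomputable def e16_7 : List Rx := [
  Rx.mk (nat_lit 66) (nat_lit 2) (nat_lit 0) (nat_lit 1) (nat_lit 5) (nat_lit 279) (nat_lit 190) r4_279 r1_190 (nat_lit 0) (nat_lit 0) (nat_lit 0) (nat_lit 0x7deba2c7e8) (nat_lit 1020752928),
  Rx.mk (nat_lit 82) (nat_lit 2) (nat_lit 2) (nat_lit 1) (nat_lit 7) (nat_lit 280) (nat_lit 191) r4_280 r1_191 (nat_lit 0) (nat_lit 0) (nat_lit 0) (nat_lit 0x7965ed07ca) (nat_lit 3240541512),
  Rx.mk (nat_lit 320) (nat_lit 0) (nat_lit 0) (nat_lit 5) (nat_lit 4) (nat_lit 281) (nat_lit 187) r4_281 r1_187 (nat_lit 0) (nat_lit 0) (nat_lit 0) (nat_lit 0x680620b5f0) (nat_lit 11768732352),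
  Rx.mk (nat_lit 321) (nat_lit 1) (nat_lit 0) (nat_lit 5) (nat_lit 5) (nat_lit 282) (nat_lit 188) r4_282 r1_188 (nat_lit 0) (nat_lit 0) (nat_lit 0) (nat_lit 0x7cc75d8d60) (nat_lit 1581151104),
  Rx.mk (nat_lit 322) (nat_lit 2) (nat_lit 0) (nat_lit 5) (nat_lit 5) (nat_lit 283) (nat_lit 189) r4_283 r1_189 (nat_lit 0) (nat_lit 0) (nat_lit 0) (nat_lit 0x79612a93f6) (nat_lit 3249667512)]
noncomputable def e16_8 : List Rx := [
  Rx.mk (nat_lit 320) (nat_lit 0) (nat_lit 0) (nat_lit 5) (nat_lit 4) (nat_lit 349) (nat_lit 161) r4_349 r4_161 (nat_lit 0) (nat_lit 0) (nat_lit 0) (nat_lit 0x73692e19b6) (nat_lit 6179422392),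
  Rx.mk (nat_lit 321) (nat_lit 1) (nat_lit 0) (nat_lit 5) (nat_lit 5) (nat_lit 350) (nat_lit 162) r4_350 r4_162 (nat_lit 0) (nat_lit 0) (nat_lit 0) (nat_lit 0x7e146cbb20) (nat_lit 942544512),
  Rx.mk (nat_lit 322) (nat_lit 2) (nat_lit 0) (nat_lit 5) (nat_lit 5) (nat_lit 351) (nat_lit 163) r4_351 r4_163 (nat_lit 0) (nat_lit 0) (nat_lit 0) (nat_lit 0x7e740fc090) (nat_lit 759170880),
  Rx.mk (nat_lit 344) (nat_lit 0) (nat_lit 3) (nat_lit 5) (nat_lit 6) (nat_lit 352) (nat_lit 164) r4_352 r4_164 (nat_lit 0) (nat_lit 0) (nat_lit 0) (nat_lit 0x7e9dbce594) (nat_lit 679260816),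
  Rx.mk (nat_lit 345) (nat_lit 1) (nat_lit 3) (nat_lit 5) (nat_lit 7) (nat_lit 353) (nat_lit 165) r4_353 r4_165 (nat_lit 0) (nat_lit 0) (nat_lit 0) (nat_lit 0x7e61448d56) (nat_lit 795205944),
  Rx.mk (nat_lit 346) (nat_lit 2) (nat_lit 3) (nat_lit 5) (nat_lit 7) (nat_lit 354) (nat_lit 166) r4_354 r4_166 (nat_lit 0) (nat_lit 0) (nat_lit 0) (nat_lit 0x7e69115082) (nat_lit 780250536)]
noncomputable def e16_9 : List Rx := [
  Rx.mk (nat_lit 280) (nat_lit 0) (nat_lit 3) (nat_lit 4) (nat_lit 2) (nat_lit 229) (nat_lit 129) r4_229 r5_129 (nat_lit 0) (nat_lit 0) (nat_lit 0) (nat_lit 0x71fe96849a) (nat_lit 6874655112),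
  Rx.mk (nat_lit 281) (nat_lit 1) (nat_lit 3) (nat_lit 4) (nat_lit 3) (nat_lit 230) (nat_lit 132) r4_230 r5_132 (nat_lit 0) (nat_lit 0) (nat_lit 0) (nat_lit 0x7e314decf0) (nat_lit 887170752),
  Rx.mk (nat_lit 282) (nat_lit 2) (nat_lit 3) (nat_lit 4) (nat_lit 3) (nat_lit 231) (nat_lit 138) r4_231 r5_138 (nat_lit 0) (nat_lit 0) (nat_lit 0) (nat_lit 0x7e50b6f640) (nat_lit 826944768),
  Rx.mk (nat_lit 283) (nat_lit 3) (nat_lit 3) (nat_lit 4) (nat_lit 3) (nat_lit 232) (nat_lit 134) r4_232 r5_134 (nat_lit 0) (nat_lit 0) (nat_lit 0) (nat_lit 0x7d90cfb574) (nat_lit 1194899472),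
  Rx.mk (nat_lit 315) (nat_lit 3) (nat_lit 7) (nat_lit 4) (nat_lit 3) (nat_lit 233) (nat_lit 135) r4_233 r5_135 (nat_lit 0) (nat_lit 0) (nat_lit 0) (nat_lit 0x7e5fadc6c4) (nat_lit 798252624),
  Rx.mk (nat_lit 443) (nat_lit 3) (nat_lit 7) (nat_lit 6) (nat_lit 7) (nat_lit 234) (nat_lit 136) r4_234 r5_136 (nat_lit 0) (nat_lit 0) (nat_lit 0) (nat_lit 0x7ee10430dc) (nat_lit 550261296),
  Rx.mk (nat_lit 448) (nat_lit 0) (nat_lit 0) (nat_lit 7) (nat_lit 4) (nat_lit 235) (nat_lit 128) r4_235 r5_128 (nat_lit 0) (nat_lit 0) (nat_lit 0) (nat_lit 0x729cb2c238) (nat_lit 6571495008),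
  Rx.mk (nat_lit 449) (nat_lit 1) (nat_lit 0) (nat_lit 7) (nat_lit 5) (nat_lit 236) (nat_lit 131) r4_236 r5_131 (nat_lit 0) (nat_lit 0) (nat_lit 0) (nat_lit 0x7d7961ec68) (nat_lit 1239821856),
  Rx.mk (nat_lit 450) (nat_lit 2) (nat_lit 0) (nat_lit 7) (nat_lit 5) (nat_lit 237) (nat_lit 137) r4_237 r5_137 (nat_lit 0) (nat_lit 0) (nat_lit 0) (nat_lit 0x7e05ce051a) (nat_lit 970576776),
  Rx.mk (nat_lit 472) (nat_lit 0) (nat_lit 3) (nat_lit 7) (nat_lit 6) (nat_lit 238) (nat_lit 130) r4_238 r5_130 (nat_lit 0) (nat_lit 0) (nat_lit 0) (nat_lit 0x7e7092b864) (nat_lit 765859536),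
  Rx.mk (nat_lit 473) (nat_lit 1) (nat_lit 3) (nat_lit 7) (nat_lit 7) (nat_lit 239) (nat_lit 133) r4_239 r5_133 (nat_lit 0) (nat_lit 0) (nat_lit 0) (nat_lit 0x7e3b0f90cc) (nat_lit 868463856),
  Rx.mk (nat_lit 474) (nat_lit 2) (nat_lit 3) (nat_lit 7) (nat_lit 7) (nat_lit 240) (nat_lit 139) r4_240 r5_139 (nat_lit 0) (nat_lit 0) (nat_lit 0) (nat_lit 0x7e1ae6f376) (nat_lit 930124728)]
noncomputable def e16_10 : List Rx := [
  Rx.mk (nat_lit 18) (nat_lit 2) (nat_lit 2) (nat_lit 0) (nat_lit 3) (nat_lit 0) (nat_lit 58) r4_0 r0_58 (nat_lit 0) (nat_lit 0) (nat_lit 0) (nat_lit 0x6075ec00cc) (nat_lit 15481206000),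
  Rx.mk (nat_lit 22) (nat_lit 6) (nat_lit 2) (nat_lit 0) (nat_lit 3) (nat_lit 1) (nat_lit 57) r4_1 r0_57 (nat_lit 0) (nat_lit 0) (nat_lit 0) (nat_lit 0x79050af64c) (nat_lit 3426304752),
  Rx.mk (nat_lit 150) (nat_lit 6) (nat_lit 2) (nat_lit 2) (nat_lit 7) (nat_lit 2) (nat_lit 64) r4_2 r0_64 (nat_lit 0) (nat_lit 0) (nat_lit 0) (nat_lit 0x7d87d5e51a) (nat_lit 1212109704),
  Rx.mk (nat_lit 180) (nat_lit 4) (nat_lit 6) (nat_lit 2) (nat_lit 6) (nat_lit 3) (nat_lit 62) r4_3 r0_62 (nat_lit 0) (nat_lit 0) (nat_lit 0) (nat_lit 0x71ae0a8daa) (nat_lit 7029095112),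
  Rx.mk (nat_lit 182) (nat_lit 6) (nat_lit 6) (nat_lit 2) (nat_lit 7) (nat_lit 4) (nat_lit 63) r4_4 r0_63 (nat_lit 0) (nat_lit 0) (nat_lit 0) (nat_lit 0x7dd8cbf568) (nat_lit 1056875040),
  Rx.mk (nat_lit 194) (nat_lit 2) (nat_lit 0) (nat_lit 3) (nat_lit 5) (nat_lit 5) (nat_lit 59) r4_5 r0_59 (nat_lit 0) (nat_lit 0) (nat_lit 0) (nat_lit 0x73827b04ce) (nat_lit 6130911384),
  Rx.mk (nat_lit 210) (nat_lit 2) (nat_lit 2) (nat_lit 3) (nat_lit 7) (nat_lit 6) (nat_lit 61) r4_6 r0_61 (nat_lit 0) (nat_lit 0) (nat_lit 0) (nat_lit 0x769aeeda78) (nat_lit 4611466080),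
  Rx.mk (nat_lit 218) (nat_lit 2) (nat_lit 3) (nat_lit 3) (nat_lit 7) (nat_lit 7) (nat_lit 60) r4_7 r0_60 (nat_lit 0) (nat_lit 0) (nat_lit 0) (nat_lit 0x7dd9546ce0) (nat_lit 1055852928),
  Rx.mk (nat_lit 420) (nat_lit 4) (nat_lit 4) (nat_lit 6) (nat_lit 4) (nat_lit 8) (nat_lit 52) r4_8 r0_52 (nat_lit 0) (nat_lit 0) (nat_lit 0) (nat_lit 0x5b6197cb24) (nat_lit 17974451664),
  Rx.mk (nat_lit 423) (nat_lit 7) (nat_lit 4) (nat_lit 6) (nat_lit 5) (nat_lit 9) (nat_lit 53) r4_9 r0_53 (nat_lit 0) (nat_lit 0) (nat_lit 0) (nat_lit 0x6d58b6a73e) (nat_lit 9156115800),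
  Rx.mk (nat_lit 436) (nat_lit 4) (nat_lit 6) (nat_lit 6) (nat_lit 6) (nat_lit 10) (nat_lit 55) r4_10 r0_55 (nat_lit 0) (nat_lit 0) (nat_lit 0) (nat_lit 0x76957cf19c) (nat_lit 4621906224),
  Rx.mk (nat_lit 439) (nat_lit 7) (nat_lit 6) (nat_lit 6) (nat_lit 7) (nat_lit 11) (nat_lit 56) r4_11 r0_56 (nat_lit 0) (nat_lit 0) (nat_lit 0) (nat_lit 0x7dea5bdc58) (nat_lit 1023201504),
  Rx.mk (nat_lit 447) (nat_lit 7) (nat_lit 7) (nat_lit 6) (nat_lit 7) (nat_lit 12) (nat_lit 54) r4_12 r0_54 (nat_lit 0) (nat_lit 0) (nat_lit 0) (nat_lit 0x75a4e5dbfe) (nat_lit 5083212888)]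
noncomputable def e16_11 : List Rx := [
  Rx.mk (nat_lit 2) (nat_lit 2) (nat_lit 0) (nat_lit 0) (nat_lit 1) (nat_lit 98) (nat_lit 175) r4_98 r6_175 (nat_lit 0) (nat_lit 0) (nat_lit 0) (nat_lit 0x666c24b74a) (nat_lit 12554834760),
  Rx.mk (nat_lit 18) (nat_lit 2) (nat_lit 2) (nat_lit 0) (nat_lit 3) (nat_lit 99) (nat_lit 178) r4_99 r6_178 (nat_lit 0) (nat_lit 0) (nat_lit 0) (nat_lit 0x7e8603014a) (nat_lit 724753224),
  Rx.mk (nat_lit 22) (nat_lit 6) (nat_lit 2) (nat_lit 0) (nat_lit 3) (nat_lit 100) (nat_lit 181) r4_100 r6_181 (nat_lit 0) (nat_lit 0) (nat_lit 0) (nat_lit 0x7dd0537cf8) (nat_lit 1073116512),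
  Rx.mk (nat_lit 150) (nat_lit 6) (nat_lit 2) (nat_lit 2) (nat_lit 7) (nat_lit 101) (nat_lit 182) r4_101 r6_182 (nat_lit 0) (nat_lit 0) (nat_lit 0) (nat_lit 0x7df1d384d6) (nat_lit 1008883512),
  Rx.mk (nat_lit 180) (nat_lit 4) (nat_lit 6) (nat_lit 2) (nat_lit 6) (nat_lit 102) (nat_lit 180) r4_102 r6_180 (nat_lit 0) (nat_lit 0) (nat_lit 0) (nat_lit 0x7e14d85466) (nat_lit 941738616),
  Rx.mk (nat_lit 182) (nat_lit 6) (nat_lit 6) (nat_lit 2) (nat_lit 7) (nat_lit 103) (nat_lit 183) r4_103 r6_183 (nat_lit 0) (nat_lit 0) (nat_lit 0) (nat_lit 0x7dd10471e8) (nat_lit 1071791136),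
  Rx.mk (nat_lit 194) (nat_lit 2) (nat_lit 0) (nat_lit 3) (nat_lit 5) (nat_lit 104) (nat_lit 176) r4_104 r6_176 (nat_lit 0) (nat_lit 0) (nat_lit 0) (nat_lit 0x7d86242038) (nat_lit 1215358560),
  Rx.mk (nat_lit 210) (nat_lit 2) (nat_lit 2) (nat_lit 3) (nat_lit 7) (nat_lit 105) (nat_lit 179) r4_105 r6_179 (nat_lit 0) (nat_lit 0) (nat_lit 0) (nat_lit 0x7e6a93d858) (nat_lit 777355488),
  Rx.mk (nat_lit 218) (nat_lit 2) (nat_lit 3) (nat_lit 3) (nat_lit 7) (nat_lit 106) (nat_lit 177) r4_106 r6_177 (nat_lit 0) (nat_lit 0) (nat_lit 0) (nat_lit 0x7df79428c6) (nat_lit 997853688)]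
noncomputable def e16_12 : List Rx := [
  Rx.mk (nat_lit 150) (nat_lit 6) (nat_lit 2) (nat_lit 2) (nat_lit 7) (nat_lit 13) (nat_lit 57) r4_13 r1_57 (nat_lit 0) (nat_lit 0) (nat_lit 0) (nat_lit 0x7df4fbd24e) (nat_lit 1002829464),
  Rx.mk (nat_lit 180) (nat_lit 4) (nat_lit 6) (nat_lit 2) (nat_lit 6) (nat_lit 14) (nat_lit 55) r4_14 r1_55 (nat_lit 0) (nat_lit 0) (nat_lit 0) (nat_lit 0x7cf02600b0) (nat_lit 1502953920),
  Rx.mk (nat_lit 182) (nat_lit 6) (nat_lit 6) (nat_lit 2) (nat_lit 7) (nat_lit 15) (nat_lit 56) r4_15 r1_56 (nat_lit 0) (nat_lit 0) (nat_lit 0) (nat_lit 0x7e11b186d6) (nat_lit 947781432),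
  Rx.mk (nat_lit 420) (nat_lit 4) (nat_lit 4) (nat_lit 6) (nat_lit 4) (nat_lit 16) (nat_lit 50) r4_16 r1_50 (nat_lit 0) (nat_lit 0) (nat_lit 0) (nat_lit 0x6d02538dc6) (nat_lit 9321754104),
  Rx.mk (nat_lit 423) (nat_lit 7) (nat_lit 4) (nat_lit 6) (nat_lit 5) (nat_lit 17) (nat_lit 51) r4_17 r1_51 (nat_lit 0) (nat_lit 0) (nat_lit 0) (nat_lit 0x7e22f55288) (nat_lit 914677920),
  Rx.mk (nat_lit 436) (nat_lit 4) (nat_lit 6) (nat_lit 6) (nat_lit 6) (nat_lit 18) (nat_lit 53) r4_18 r1_53 (nat_lit 0) (nat_lit 0) (nat_lit 0) (nat_lit 0x7dd783e9ea) (nat_lit 1059332040),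
  Rx.mk (nat_lit 439) (nat_lit 7) (nat_lit 6) (nat_lit 6) (nat_lit 7) (nat_lit 19) (nat_lit 54) r4_19 r1_54 (nat_lit 0) (nat_lit 0) (nat_lit 0) (nat_lit 0x7e01526cd8) (nat_lit 979172064),
  Rx.mk (nat_lit 447) (nat_lit 7) (nat_lit 7) (nat_lit 6) (nat_lit 7) (nat_lit 20) (nat_lit 52) r4_20 r1_52 (nat_lit 0) (nat_lit 0) (nat_lit 0) (nat_lit 0x7eccb0762c) (nat_lit 589236336)]
noncomputable def e16_13 : List Rx := [
  Rx.mk (nat_lit 150) (nat_lit 6) (nat_lit 2) (nat_lit 2) (nat_lit 7) (nat_lit 125) (nat_lit 147) r4_125 r7_147 (nat_lit 0) (nat_lit 0) (nat_lit 0) (nat_lit 0x7dca705b30) (nat_lit 1084404672),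
  Rx.mk (nat_lit 180) (nat_lit 4) (nat_lit 6) (nat_lit 2) (nat_lit 6) (nat_lit 126) (nat_lit 146) r4_126 r7_146 (nat_lit 0) (nat_lit 0) (nat_lit 0) (nat_lit 0x7dc32eaf52) (nat_lit 1098318312),
  Rx.mk (nat_lit 182) (nat_lit 6) (nat_lit 6) (nat_lit 2) (nat_lit 7) (nat_lit 127) (nat_lit 148) r4_127 r7_148 (nat_lit 0) (nat_lit 0) (nat_lit 0) (nat_lit 0x7dedaca748) (nat_lit 1016844192)]
noncomputable def e16_14 : List Rx := [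
  Rx.mk (nat_lit 2) (nat_lit 2) (nat_lit 0) (nat_lit 0) (nat_lit 1) (nat_lit 114) (nat_lit 47) r4_114 r7_47 (nat_lit 0) (nat_lit 0) (nat_lit 0) (nat_lit 0x754e23e874) (nat_lit 5249561616),
  Rx.mk (nat_lit 18) (nat_lit 2) (nat_lit 2) (nat_lit 0) (nat_lit 3) (nat_lit 115) (nat_lit 49) r4_115 r7_49 (nat_lit 0) (nat_lit 0) (nat_lit 0) (nat_lit 0x7e2a789a4c) (nat_lit 900272880),
  Rx.mk (nat_lit 22) (nat_lit 6) (nat_lit 2) (nat_lit 0) (nat_lit 3) (nat_lit 116) (nat_lit 48) r4_116 r7_48 (nat_lit 0) (nat_lit 0) (nat_lit 0) (nat_lit 0x7da8e3f418) (nat_lit 1148730336),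
  Rx.mk (nat_lit 66) (nat_lit 2) (nat_lit 0) (nat_lit 1) (nat_lit 5) (nat_lit 117) (nat_lit 50) r4_117 r7_50 (nat_lit 0) (nat_lit 0) (nat_lit 0) (nat_lit 0x7dd0edf350) (nat_lit 1071959616),
  Rx.mk (nat_lit 82) (nat_lit 2) (nat_lit 2) (nat_lit 1) (nat_lit 7) (nat_lit 118) (nat_lit 52) r4_118 r7_52 (nat_lit 0) (nat_lit 0) (nat_lit 0) (nat_lit 0x7e35a4078a) (nat_lit 878856264),
  Rx.mk (nat_lit 86) (nat_lit 6) (nat_lit 2) (nat_lit 1) (nat_lit 7) (nat_lit 119) (nat_lit 51) r4_119 r7_51 (nat_lit 0) (nat_lit 0) (nat_lit 0) (nat_lit 0x7ddfec435c) (nat_lit 1043211312),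
  Rx.mk (nat_lit 150) (nat_lit 6) (nat_lit 2) (nat_lit 2) (nat_lit 7) (nat_lit 120) (nat_lit 57) r4_120 r7_57 (nat_lit 0) (nat_lit 0) (nat_lit 0) (nat_lit 0x7de493b8e0) (nat_lit 1034287488),
  Rx.mk (nat_lit 182) (nat_lit 6) (nat_lit 6) (nat_lit 2) (nat_lit 7) (nat_lit 121) (nat_lit 56) r4_121 r7_56 (nat_lit 0) (nat_lit 0) (nat_lit 0) (nat_lit 0x7df910b0fc) (nat_lit 995003568),
  Rx.mk (nat_lit 194) (nat_lit 2) (nat_lit 0) (nat_lit 3) (nat_lit 5) (nat_lit 122) (nat_lit 53) r4_122 r7_53 (nat_lit 0) (nat_lit 0) (nat_lit 0) (nat_lit 0x7dcf55acd6) (nat_lit 1075017528),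
  Rx.mk (nat_lit 210) (nat_lit 2) (nat_lit 2) (nat_lit 3) (nat_lit 7) (nat_lit 123) (nat_lit 55) r4_123 r7_55 (nat_lit 0) (nat_lit 0) (nat_lit 0) (nat_lit 0x7e28211fc6) (nat_lit 904762872),
  Rx.mk (nat_lit 218) (nat_lit 2) (nat_lit 3) (nat_lit 3) (nat_lit 7) (nat_lit 124) (nat_lit 54) r4_124 r7_54 (nat_lit 0) (nat_lit 0) (nat_lit 0) (nat_lit 0x7dd9115112) (nat_lit 1056355560)]
noncomputable def e16_15 : List Rx := [
  Rx.mk (nat_lit 66) (nat_lit 2) (nat_lit 0) (nat_lit 1) (nat_lit 5) (nat_lit 276) (nat_lit 133) r4_276 r8_133 (nat_lit 0) (nat_lit 0) (nat_lit 0) (nat_lit 0x7cdf86cab4) (nat_lit 1534824720),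
  Rx.mk (nat_lit 82) (nat_lit 2) (nat_lit 2) (nat_lit 1) (nat_lit 7) (nat_lit 277) (nat_lit 134) r4_277 r8_134 (nat_lit 0) (nat_lit 0) (nat_lit 0) (nat_lit 0x7debb286ec) (nat_lit 1020634992),
  Rx.mk (nat_lit 86) (nat_lit 6) (nat_lit 2) (nat_lit 1) (nat_lit 7) (nat_lit 278) (nat_lit 135) r4_278 r8_135 (nat_lit 0) (nat_lit 0) (nat_lit 0) (nat_lit 0x7deeb9d674) (nat_lit 1014828048)]
noncomputable def e16_16 : List Rx := [
  Rx.mk (nat_lit 22) (nat_lit 6) (nat_lit 2) (nat_lit 0) (nat_lit 3) (nat_lit 40) (nat_lit 49) r4_40 r4_49 (nat_lit 0) (nat_lit 0) (nat_lit 0) (nat_lit 0x7fbd70c936) (nat_lit 127620792),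
  Rx.mk (nat_lit 150) (nat_lit 6) (nat_lit 2) (nat_lit 2) (nat_lit 7) (nat_lit 41) (nat_lit 57) r4_41 r4_57 (nat_lit 0) (nat_lit 0) (nat_lit 0) (nat_lit 0x7d5376cb40) (nat_lit 1312526592),
  Rx.mk (nat_lit 180) (nat_lit 4) (nat_lit 6) (nat_lit 2) (nat_lit 6) (nat_lit 42) (nat_lit 54) r4_42 r4_54 (nat_lit 0) (nat_lit 0) (nat_lit 0) (nat_lit 0x729835aa0e) (nat_lit 6580101528),
  Rx.mk (nat_lit 182) (nat_lit 6) (nat_lit 6) (nat_lit 2) (nat_lit 7) (nat_lit 43) (nat_lit 56) r4_43 r4_56 (nat_lit 0) (nat_lit 0) (nat_lit 0) (nat_lit 0x7d1ac316b4) (nat_lit 1421246736),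
  Rx.mk (nat_lit 183) (nat_lit 7) (nat_lit 6) (nat_lit 2) (nat_lit 7) (nat_lit 44) (nat_lit 55) r4_44 r4_55 (nat_lit 0) (nat_lit 0) (nat_lit 0) (nat_lit 0x7df36e0b2c) (nat_lit 1005808752),
  Rx.mk (nat_lit 194) (nat_lit 2) (nat_lit 0) (nat_lit 3) (nat_lit 5) (nat_lit 45) (nat_lit 50) r4_45 r4_50 (nat_lit 0) (nat_lit 0) (nat_lit 0) (nat_lit 0x7fd96aa97c) (nat_lit 73979568),
  Rx.mk (nat_lit 210) (nat_lit 2) (nat_lit 2) (nat_lit 3) (nat_lit 7) (nat_lit 46) (nat_lit 53) r4_46 r4_53 (nat_lit 0) (nat_lit 0) (nat_lit 0) (nat_lit 0x79bce0783c) (nat_lit 3073822128),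
  Rx.mk (nat_lit 214) (nat_lit 6) (nat_lit 2) (nat_lit 3) (nat_lit 7) (nat_lit 47) (nat_lit 52) r4_47 r4_52 (nat_lit 0) (nat_lit 0) (nat_lit 0) (nat_lit 0x7de9700b16) (nat_lit 1024967736),
  Rx.mk (nat_lit 218) (nat_lit 2) (nat_lit 3) (nat_lit 3) (nat_lit 7) (nat_lit 48) (nat_lit 51) r4_48 r4_51 (nat_lit 0) (nat_lit 0) (nat_lit 0) (nat_lit 0x7ea89e1776) (nat_lit 658400184),
  Rx.mk (nat_lit 315) (nat_lit 3) (nat_lit 7) (nat_lit 4) (nat_lit 3) (nat_lit 49) (nat_lit 40) r4_49 r4_40 (nat_lit 0) (nat_lit 0) (nat_lit 0) (nat_lit 0x7fbd70c936) (nat_lit 127620792),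
  Rx.mk (nat_lit 423) (nat_lit 7) (nat_lit 4) (nat_lit 6) (nat_lit 5) (nat_lit 50) (nat_lit 45) r4_50 r4_45 (nat_lit 0) (nat_lit 0) (nat_lit 0) (nat_lit 0x7fd96aa97c) (nat_lit 73979568),
  Rx.mk (nat_lit 439) (nat_lit 7) (nat_lit 6) (nat_lit 6) (nat_lit 7) (nat_lit 51) (nat_lit 48) r4_51 r4_48 (nat_lit 0) (nat_lit 0) (nat_lit 0) (nat_lit 0x7ea89e1776) (nat_lit 658400184),
  Rx.mk (nat_lit 443) (nat_lit 3) (nat_lit 7) (nat_lit 6) (nat_lit 7) (nat_lit 52) (nat_lit 47) r4_52 r4_47 (nat_lit 0) (nat_lit 0) (nat_lit 0) (nat_lit 0x7de9700b16) (nat_lit 1024967736),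
  Rx.mk (nat_lit 447) (nat_lit 7) (nat_lit 7) (nat_lit 6) (nat_lit 7) (nat_lit 53) (nat_lit 46) r4_53 r4_46 (nat_lit 0) (nat_lit 0) (nat_lit 0) (nat_lit 0x79bce0783c) (nat_lit 3073822128),
  Rx.mk (nat_lit 472) (nat_lit 0) (nat_lit 3) (nat_lit 7) (nat_lit 6) (nat_lit 54) (nat_lit 42) r4_54 r4_42 (nat_lit 0) (nat_lit 0) (nat_lit 0) (nat_lit 0x729835aa0e) (nat_lit 6580101528),
  Rx.mk (nat_lit 474) (nat_lit 2) (nat_lit 3) (nat_lit 7) (nat_lit 7) (nat_lit 55) (nat_lit 44) r4_55 r4_44 (nat_lit 0) (nat_lit 0) (nat_lit 0) (nat_lit 0x7df36e0b2c) (nat_lit 1005808752),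
  Rx.mk (nat_lit 475) (nat_lit 3) (nat_lit 3) (nat_lit 7) (nat_lit 7) (nat_lit 56) (nat_lit 43) r4_56 r4_43 (nat_lit 0) (nat_lit 0) (nat_lit 0) (nat_lit 0x7d1ac316b4) (nat_lit 1421246736),
  Rx.mk (nat_lit 507) (nat_lit 3) (nat_lit 7) (nat_lit 7) (nat_lit 7) (nat_lit 57) (nat_lit 41) r4_57 r4_41 (nat_lit 0) (nat_lit 0) (nat_lit 0) (nat_lit 0x7d5376cb40) (nat_lit 1312526592)]
noncomputable def e16_17 : List Rx := [
  Rx.mk (nat_lit 22) (nat_lit 6) (nat_lit 2) (nat_lit 0) (nat_lit 3) (nat_lit 134) (nat_lit 132) r4_134 r9_132 (nat_lit 0) (nat_lit 0) (nat_lit 0) (nat_lit 0x7d77e26462) (nat_lit 1242694440),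
  Rx.mk (nat_lit 150) (nat_lit 6) (nat_lit 2) (nat_lit 2) (nat_lit 7) (nat_lit 135) (nat_lit 134) r4_135 r9_134 (nat_lit 0) (nat_lit 0) (nat_lit 0) (nat_lit 0x7df0f592b6) (nat_lit 1010545848),
  Rx.mk (nat_lit 180) (nat_lit 4) (nat_lit 6) (nat_lit 2) (nat_lit 6) (nat_lit 136) (nat_lit 130) r4_136 r9_130 (nat_lit 0) (nat_lit 0) (nat_lit 0) (nat_lit 0x7e412fcec2) (nat_lit 856717992),
  Rx.mk (nat_lit 182) (nat_lit 6) (nat_lit 6) (nat_lit 2) (nat_lit 7) (nat_lit 137) (nat_lit 135) r4_137 r9_135 (nat_lit 0) (nat_lit 0) (nat_lit 0) (nat_lit 0x7dee99387e) (nat_lit 1015072344),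
  Rx.mk (nat_lit 183) (nat_lit 7) (nat_lit 6) (nat_lit 2) (nat_lit 7) (nat_lit 138) (nat_lit 131) r4_138 r9_131 (nat_lit 0) (nat_lit 0) (nat_lit 0) (nat_lit 0x7dd37c8a64) (nat_lit 1067056848),
  Rx.mk (nat_lit 194) (nat_lit 2) (nat_lit 0) (nat_lit 3) (nat_lit 5) (nat_lit 139) (nat_lit 127) r4_139 r9_127 (nat_lit 0) (nat_lit 0) (nat_lit 0) (nat_lit 0x7afc995b6e) (nat_lit 2460787992),
  Rx.mk (nat_lit 210) (nat_lit 2) (nat_lit 2) (nat_lit 3) (nat_lit 7) (nat_lit 140) (nat_lit 129) r4_140 r9_129 (nat_lit 0) (nat_lit 0) (nat_lit 0) (nat_lit 0x7e4a4f1cc4) (nat_lit 839226960),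
  Rx.mk (nat_lit 214) (nat_lit 6) (nat_lit 2) (nat_lit 3) (nat_lit 7) (nat_lit 141) (nat_lit 133) r4_141 r9_133 (nat_lit 0) (nat_lit 0) (nat_lit 0) (nat_lit 0x7dede0640c) (nat_lit 1016456688),
  Rx.mk (nat_lit 218) (nat_lit 2) (nat_lit 3) (nat_lit 3) (nat_lit 7) (nat_lit 142) (nat_lit 128) r4_142 r9_128 (nat_lit 0) (nat_lit 0) (nat_lit 0) (nat_lit 0x7db07b1a9e) (nat_lit 1134176472)]
noncomputable def e16_18 : List Rx := [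
  Rx.mk (nat_lit 194) (nat_lit 2) (nat_lit 0) (nat_lit 3) (nat_lit 5) (nat_lit 205) (nat_lit 131) r4_205 r10_131 (nat_lit 0) (nat_lit 0) (nat_lit 0) (nat_lit 0x7227e22fb6) (nat_lit 6795475128),
  Rx.mk (nat_lit 210) (nat_lit 2) (nat_lit 2) (nat_lit 3) (nat_lit 7) (nat_lit 206) (nat_lit 134) r4_206 r10_134 (nat_lit 0) (nat_lit 0) (nat_lit 0) (nat_lit 0x7dc3644bf8) (nat_lit 1097916768),
  Rx.mk (nat_lit 214) (nat_lit 6) (nat_lit 2) (nat_lit 3) (nat_lit 7) (nat_lit 207) (nat_lit 136) r4_207 r10_136 (nat_lit 0) (nat_lit 0) (nat_lit 0) (nat_lit 0x7e23aee6ee) (nat_lit 913287960),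
  Rx.mk (nat_lit 283) (nat_lit 3) (nat_lit 3) (nat_lit 4) (nat_lit 3) (nat_lit 208) (nat_lit 127) r4_208 r10_127 (nat_lit 0) (nat_lit 0) (nat_lit 0) (nat_lit 0x72c34b188c) (nat_lit 6497492976),
  Rx.mk (nat_lit 315) (nat_lit 3) (nat_lit 7) (nat_lit 4) (nat_lit 3) (nat_lit 209) (nat_lit 129) r4_209 r10_129 (nat_lit 0) (nat_lit 0) (nat_lit 0) (nat_lit 0x757b9df0a6) (nat_lit 5162364792),
  Rx.mk (nat_lit 443) (nat_lit 3) (nat_lit 7) (nat_lit 6) (nat_lit 7) (nat_lit 210) (nat_lit 130) r4_210 r10_130 (nat_lit 0) (nat_lit 0) (nat_lit 0) (nat_lit 0x7e50fdd1d2) (nat_lit 826414056),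
  Rx.mk (nat_lit 447) (nat_lit 7) (nat_lit 7) (nat_lit 6) (nat_lit 7) (nat_lit 211) (nat_lit 135) r4_211 r10_135 (nat_lit 0) (nat_lit 0) (nat_lit 0) (nat_lit 0x7df1c665a8) (nat_lit 1008981792),
  Rx.mk (nat_lit 448) (nat_lit 0) (nat_lit 0) (nat_lit 7) (nat_lit 4) (nat_lit 212) (nat_lit 125) r4_212 r10_125 (nat_lit 0) (nat_lit 0) (nat_lit 0) (nat_lit 0x704a4c6af0) (nat_lit 7711194816),
  Rx.mk (nat_lit 450) (nat_lit 2) (nat_lit 0) (nat_lit 7) (nat_lit 5) (nat_lit 213) (nat_lit 132) r4_213 r10_132 (nat_lit 0) (nat_lit 0) (nat_lit 0) (nat_lit 0x77d5fc8862) (nat_lit 4007383848),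
  Rx.mk (nat_lit 472) (nat_lit 0) (nat_lit 3) (nat_lit 7) (nat_lit 6) (nat_lit 214) (nat_lit 126) r4_214 r10_126 (nat_lit 0) (nat_lit 0) (nat_lit 0) (nat_lit 0x7bb067ddd2) (nat_lit 2116027368),
  Rx.mk (nat_lit 474) (nat_lit 2) (nat_lit 3) (nat_lit 7) (nat_lit 7) (nat_lit 215) (nat_lit 133) r4_215 r10_133 (nat_lit 0) (nat_lit 0) (nat_lit 0) (nat_lit 0x7e0de80372) (nat_lit 955042920),
  Rx.mk (nat_lit 475) (nat_lit 3) (nat_lit 3) (nat_lit 7) (nat_lit 7) (nat_lit 216) (nat_lit 128) r4_216 r10_128 (nat_lit 0) (nat_lit 0) (nat_lit 0) (nat_lit 0x7d9fcc8598) (nat_lit 1166162400)]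
noncomputable def e16_19 : List Rx := [
  Rx.mk (nat_lit 66) (nat_lit 2) (nat_lit 0) (nat_lit 1) (nat_lit 5) (nat_lit 273) (nat_lit 167) r4_273 r8_167 (nat_lit 0) (nat_lit 0) (nat_lit 0) (nat_lit 0x7db654dcfc) (nat_lit 1122958512),
  Rx.mk (nat_lit 74) (nat_lit 2) (nat_lit 1) (nat_lit 1) (nat_lit 7) (nat_lit 274) (nat_lit 168) r4_274 r8_168 (nat_lit 0) (nat_lit 0) (nat_lit 0) (nat_lit 0x7de3238fe4) (nat_lit 1037044944),
  Rx.mk (nat_lit 82) (nat_lit 2) (nat_lit 2) (nat_lit 1) (nat_lit 7) (nat_lit 275) (nat_lit 169) r4_275 r8_169 (nat_lit 0) (nat_lit 0) (nat_lit 0) (nat_lit 0x7ddff0631a) (nat_lit 1043180424)]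
noncomputable def e16_20 : List Rx := [
  Rx.mk (nat_lit 264) (nat_lit 0) (nat_lit 1) (nat_lit 4) (nat_lit 2) (nat_lit 253) (nat_lit 305) r4_253 r0_305 (nat_lit 0) (nat_lit 0) (nat_lit 0) (nat_lit 0x72ea26eaa8) (nat_lit 6422985504),
  Rx.mk (nat_lit 265) (nat_lit 1) (nat_lit 1) (nat_lit 4) (nat_lit 3) (nat_lit 254) (nat_lit 306) r4_254 r0_306 (nat_lit 0) (nat_lit 0) (nat_lit 0) (nat_lit 0x765dc16d8c) (nat_lit 4728767472),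
  Rx.mk (nat_lit 266) (nat_lit 2) (nat_lit 1) (nat_lit 4) (nat_lit 3) (nat_lit 255) (nat_lit 307) r4_255 r0_307 (nat_lit 0) (nat_lit 0) (nat_lit 0) (nat_lit 0x7e1c8ad936) (nat_lit 926979768),
  Rx.mk (nat_lit 320) (nat_lit 0) (nat_lit 0) (nat_lit 5) (nat_lit 4) (nat_lit 256) (nat_lit 308) r4_256 r0_308 (nat_lit 0) (nat_lit 0) (nat_lit 0) (nat_lit 0x6d9ecf456e) (nat_lit 9021713688),
  Rx.mk (nat_lit 321) (nat_lit 1) (nat_lit 0) (nat_lit 5) (nat_lit 5) (nat_lit 257) (nat_lit 310) r4_257 r0_310 (nat_lit 0) (nat_lit 0) (nat_lit 0) (nat_lit 0x7da9e10446) (nat_lit 1146834936),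
  Rx.mk (nat_lit 322) (nat_lit 2) (nat_lit 0) (nat_lit 5) (nat_lit 5) (nat_lit 258) (nat_lit 312) r4_258 r0_312 (nat_lit 0) (nat_lit 0) (nat_lit 0) (nat_lit 0x76d4fe194a) (nat_lit 4500142920),
  Rx.mk (nat_lit 328) (nat_lit 0) (nat_lit 1) (nat_lit 5) (nat_lit 6) (nat_lit 259) (nat_lit 309) r4_259 r0_309 (nat_lit 0) (nat_lit 0) (nat_lit 0) (nat_lit 0x7d715ecca2) (nat_lit 1255184424),
  Rx.mk (nat_lit 329) (nat_lit 1) (nat_lit 1) (nat_lit 5) (nat_lit 7) (nat_lit 260) (nat_lit 311) r4_260 r0_311 (nat_lit 0) (nat_lit 0) (nat_lit 0) (nat_lit 0x7e65ac46d6) (nat_lit 786759480),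
  Rx.mk (nat_lit 330) (nat_lit 2) (nat_lit 1) (nat_lit 5) (nat_lit 7) (nat_lit 261) (nat_lit 313) r4_261 r0_313 (nat_lit 0) (nat_lit 0) (nat_lit 0) (nat_lit 0x7e5d9fc7a6) (nat_lit 802192248)]
noncomputable def e16_21 : List Rx := [
  Rx.mk (nat_lit 264) (nat_lit 0) (nat_lit 1) (nat_lit 4) (nat_lit 2) (nat_lit 293) (nat_lit 296) r4_293 r1_296 (nat_lit 0) (nat_lit 0) (nat_lit 0) (nat_lit 0x6a1ffcf612) (nat_lit 10737441000),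
  Rx.mk (nat_lit 265) (nat_lit 1) (nat_lit 1) (nat_lit 4) (nat_lit 3) (nat_lit 294) (nat_lit 297) r4_294 r1_297 (nat_lit 0) (nat_lit 0) (nat_lit 0) (nat_lit 0x7b9136b104) (nat_lit 2175834960),
  Rx.mk (nat_lit 266) (nat_lit 2) (nat_lit 1) (nat_lit 4) (nat_lit 3) (nat_lit 295) (nat_lit 298) r4_295 r1_298 (nat_lit 0) (nat_lit 0) (nat_lit 0) (nat_lit 0x7df1a98776) (nat_lit 1009198008),
  Rx.mk (nat_lit 328) (nat_lit 0) (nat_lit 1) (nat_lit 5) (nat_lit 6) (nat_lit 296) (nat_lit 299) r4_296 r1_299 (nat_lit 0) (nat_lit 0) (nat_lit 0) (nat_lit 0x7ce68fda1c) (nat_lit 1521335088),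
  Rx.mk (nat_lit 329) (nat_lit 1) (nat_lit 1) (nat_lit 5) (nat_lit 7) (nat_lit 297) (nat_lit 300) r4_297 r1_300 (nat_lit 0) (nat_lit 0) (nat_lit 0) (nat_lit 0x7e35b126b8) (nat_lit 878757984),
  Rx.mk (nat_lit 330) (nat_lit 2) (nat_lit 1) (nat_lit 5) (nat_lit 7) (nat_lit 298) (nat_lit 301) r4_298 r1_301 (nat_lit 0) (nat_lit 0) (nat_lit 0) (nat_lit 0x7db1b0c742) (nat_lit 1131857064)]
noncomputable def e16_22 : List Rx := [
  Rx.mk (nat_lit 256) (nat_lit 0) (nat_lit 0) (nat_lit 4) (nat_lit 0) (nat_lit 327) (nat_lit 327) r4_327 r4_327 (nat_lit 0) (nat_lit 0) (nat_lit 0) (nat_lit 0x60139186d6) (nat_lit 15669788472),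
  Rx.mk (nat_lit 257) (nat_lit 1) (nat_lit 0) (nat_lit 4) (nat_lit 1) (nat_lit 328) (nat_lit 330) r4_328 r4_330 (nat_lit 0) (nat_lit 0) (nat_lit 0) (nat_lit 0x778fc9abd6) (nat_lit 4141982520),
  Rx.mk (nat_lit 258) (nat_lit 2) (nat_lit 0) (nat_lit 4) (nat_lit 1) (nat_lit 329) (nat_lit 333) r4_329 r4_333 (nat_lit 0) (nat_lit 0) (nat_lit 0) (nat_lit 0x7be34caf52) (nat_lit 2018443752),
  Rx.mk (nat_lit 264) (nat_lit 0) (nat_lit 1) (nat_lit 4) (nat_lit 2) (nat_lit 330) (nat_lit 328) r4_330 r4_328 (nat_lit 0) (nat_lit 0) (nat_lit 0) (nat_lit 0x778fc9abd6) (nat_lit 4141982520),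
  Rx.mk (nat_lit 265) (nat_lit 1) (nat_lit 1) (nat_lit 4) (nat_lit 3) (nat_lit 331) (nat_lit 331) r4_331 r4_331 (nat_lit 0) (nat_lit 0) (nat_lit 0) (nat_lit 0x7e24555c86) (nat_lit 912041208),
  Rx.mk (nat_lit 266) (nat_lit 2) (nat_lit 1) (nat_lit 4) (nat_lit 3) (nat_lit 332) (nat_lit 334) r4_332 r4_334 (nat_lit 0) (nat_lit 0) (nat_lit 0) (nat_lit 0x7e41ede2e0) (nat_lit 855294336),
  Rx.mk (nat_lit 280) (nat_lit 0) (nat_lit 3) (nat_lit 4) (nat_lit 2) (nat_lit 333) (nat_lit 329) r4_333 r4_329 (nat_lit 0) (nat_lit 0) (nat_lit 0) (nat_lit 0x7be34caf52) (nat_lit 2018443752),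
  Rx.mk (nat_lit 281) (nat_lit 1) (nat_lit 3) (nat_lit 4) (nat_lit 3) (nat_lit 334) (nat_lit 332) r4_334 r4_332 (nat_lit 0) (nat_lit 0) (nat_lit 0) (nat_lit 0x7e41ede2e0) (nat_lit 855294336),
  Rx.mk (nat_lit 320) (nat_lit 0) (nat_lit 0) (nat_lit 5) (nat_lit 4) (nat_lit 335) (nat_lit 335) r4_335 r4_335 (nat_lit 0) (nat_lit 0) (nat_lit 0) (nat_lit 0x7ad70354f4) (nat_lit 2532855312),
  Rx.mk (nat_lit 321) (nat_lit 1) (nat_lit 0) (nat_lit 5) (nat_lit 5) (nat_lit 336) (nat_lit 338) r4_336 r4_338 (nat_lit 0) (nat_lit 0) (nat_lit 0) (nat_lit 0x7e3c95786c) (nat_lit 865543536),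
  Rx.mk (nat_lit 322) (nat_lit 2) (nat_lit 0) (nat_lit 5) (nat_lit 5) (nat_lit 337) (nat_lit 341) r4_337 r4_341 (nat_lit 0) (nat_lit 0) (nat_lit 0) (nat_lit 0x7e4a6b3b02) (nat_lit 839016360),
  Rx.mk (nat_lit 328) (nat_lit 0) (nat_lit 1) (nat_lit 5) (nat_lit 6) (nat_lit 338) (nat_lit 336) r4_338 r4_336 (nat_lit 0) (nat_lit 0) (nat_lit 0) (nat_lit 0x7e3c95786c) (nat_lit 865543536),
  Rx.mk (nat_lit 329) (nat_lit 1) (nat_lit 1) (nat_lit 5) (nat_lit 7) (nat_lit 339) (nat_lit 339) r4_339 r4_339 (nat_lit 0) (nat_lit 0) (nat_lit 0) (nat_lit 0x7dd9750ad6) (nat_lit 1055608632),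
  Rx.mk (nat_lit 330) (nat_lit 2) (nat_lit 1) (nat_lit 5) (nat_lit 7) (nat_lit 340) (nat_lit 342) r4_340 r4_342 (nat_lit 0) (nat_lit 0) (nat_lit 0) (nat_lit 0x7de0cb556a) (nat_lit 1041540552),
  Rx.mk (nat_lit 344) (nat_lit 0) (nat_lit 3) (nat_lit 5) (nat_lit 6) (nat_lit 341) (nat_lit 337) r4_341 r4_337 (nat_lit 0) (nat_lit 0) (nat_lit 0) (nat_lit 0x7e4a6b3b02) (nat_lit 839016360),
  Rx.mk (nat_lit 345) (nat_lit 1) (nat_lit 3) (nat_lit 5) (nat_lit 7) (nat_lit 342) (nat_lit 340) r4_342 r4_340 (nat_lit 0) (nat_lit 0) (nat_lit 0) (nat_lit 0x7de0cb556a) (nat_lit 1041540552)]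
noncomputable def e16_23 : List Rx := [
  Rx.mk (nat_lit 320) (nat_lit 0) (nat_lit 0) (nat_lit 5) (nat_lit 4) (nat_lit 265) (nat_lit 223) r4_265 r6_223 (nat_lit 0) (nat_lit 0) (nat_lit 0) (nat_lit 0x735924da5a) (nat_lit 6210169992),
  Rx.mk (nat_lit 321) (nat_lit 1) (nat_lit 0) (nat_lit 5) (nat_lit 5) (nat_lit 266) (nat_lit 224) r4_266 r6_224 (nat_lit 0) (nat_lit 0) (nat_lit 0) (nat_lit 0x7db466bbe0) (nat_lit 1126659456),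
  Rx.mk (nat_lit 322) (nat_lit 2) (nat_lit 0) (nat_lit 5) (nat_lit 5) (nat_lit 267) (nat_lit 225) r4_267 r6_225 (nat_lit 0) (nat_lit 0) (nat_lit 0) (nat_lit 0x7d7cbb56ce) (nat_lit 1233399960),
  Rx.mk (nat_lit 328) (nat_lit 0) (nat_lit 1) (nat_lit 5) (nat_lit 6) (nat_lit 268) (nat_lit 226) r4_268 r6_226 (nat_lit 0) (nat_lit 0) (nat_lit 0) (nat_lit 0x7db5f0c33e) (nat_lit 1123708248),
  Rx.mk (nat_lit 329) (nat_lit 1) (nat_lit 1) (nat_lit 5) (nat_lit 7) (nat_lit 269) (nat_lit 227) r4_269 r6_227 (nat_lit 0) (nat_lit 0) (nat_lit 0) (nat_lit 0x7dde701b20) (nat_lit 1046058624),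
  Rx.mk (nat_lit 330) (nat_lit 2) (nat_lit 1) (nat_lit 5) (nat_lit 7) (nat_lit 270) (nat_lit 228) r4_270 r6_228 (nat_lit 0) (nat_lit 0) (nat_lit 0) (nat_lit 0x7deda7c796) (nat_lit 1016880696)]
noncomputable def e16_24 : List Rx := [
  Rx.mk (nat_lit 328) (nat_lit 0) (nat_lit 1) (nat_lit 5) (nat_lit 6) (nat_lit 304) (nat_lit 181) r4_304 r7_181 (nat_lit 0) (nat_lit 0) (nat_lit 0) (nat_lit 0x7de112f0f0) (nat_lit 1041004224),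
  Rx.mk (nat_lit 329) (nat_lit 1) (nat_lit 1) (nat_lit 5) (nat_lit 7) (nat_lit 305) (nat_lit 182) r4_305 r7_182 (nat_lit 0) (nat_lit 0) (nat_lit 0) (nat_lit 0x7df79428c6) (nat_lit 997853688),
  Rx.mk (nat_lit 330) (nat_lit 2) (nat_lit 1) (nat_lit 5) (nat_lit 7) (nat_lit 306) (nat_lit 183) r4_306 r7_183 (nat_lit 0) (nat_lit 0) (nat_lit 0) (nat_lit 0x7df6d07502) (nat_lit 999319464)]
noncomputable def e16_25 : List Rx := [
  Rx.mk (nat_lit 66) (nat_lit 2) (nat_lit 0) (nat_lit 1) (nat_lit 5) (nat_lit 284) (nat_lit 338) r4_284 r7_338 (nat_lit 0) (nat_lit 0) (nat_lit 0) (nat_lit 0x7d63fb62e6) (nat_lit 1280855160),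
  Rx.mk (nat_lit 74) (nat_lit 2) (nat_lit 1) (nat_lit 1) (nat_lit 7) (nat_lit 285) (nat_lit 339) r4_285 r7_339 (nat_lit 0) (nat_lit 0) (nat_lit 0) (nat_lit 0x7de0ae173e) (nat_lit 1041759576),
  Rx.mk (nat_lit 82) (nat_lit 2) (nat_lit 2) (nat_lit 1) (nat_lit 7) (nat_lit 286) (nat_lit 340) r4_286 r7_340 (nat_lit 0) (nat_lit 0) (nat_lit 0) (nat_lit 0x7dec75dab6) (nat_lit 1019172024),
  Rx.mk (nat_lit 320) (nat_lit 0) (nat_lit 0) (nat_lit 5) (nat_lit 4) (nat_lit 287) (nat_lit 341) r4_287 r7_341 (nat_lit 0) (nat_lit 0) (nat_lit 0) (nat_lit 0x5c57ff43b6) (nat_lit 17501997240),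
  Rx.mk (nat_lit 321) (nat_lit 1) (nat_lit 0) (nat_lit 5) (nat_lit 5) (nat_lit 288) (nat_lit 343) r4_288 r7_343 (nat_lit 0) (nat_lit 0) (nat_lit 0) (nat_lit 0x7d836d6ba6) (nat_lit 1220561784),
  Rx.mk (nat_lit 322) (nat_lit 2) (nat_lit 0) (nat_lit 5) (nat_lit 5) (nat_lit 289) (nat_lit 345) r4_289 r7_345 (nat_lit 0) (nat_lit 0) (nat_lit 0) (nat_lit 0x7d43fd22ea) (nat_lit 1342198728),
  Rx.mk (nat_lit 328) (nat_lit 0) (nat_lit 1) (nat_lit 5) (nat_lit 6) (nat_lit 290) (nat_lit 342) r4_290 r7_342 (nat_lit 0) (nat_lit 0) (nat_lit 0) (nat_lit 0x7d03f443b8) (nat_lit 1464978528),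
  Rx.mk (nat_lit 329) (nat_lit 1) (nat_lit 1) (nat_lit 5) (nat_lit 7) (nat_lit 291) (nat_lit 344) r4_291 r7_344 (nat_lit 0) (nat_lit 0) (nat_lit 0) (nat_lit 0x7df0f9b274) (nat_lit 1010514960),
  Rx.mk (nat_lit 330) (nat_lit 2) (nat_lit 1) (nat_lit 5) (nat_lit 7) (nat_lit 292) (nat_lit 346) r4_292 r7_346 (nat_lit 0) (nat_lit 0) (nat_lit 0) (nat_lit 0x7de07e1a3e) (nat_lit 1042119000)]
noncomputable def e16_26 : List Rx := [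
  Rx.mk (nat_lit 320) (nat_lit 0) (nat_lit 0) (nat_lit 5) (nat_lit 4) (nat_lit 355) (nat_lit 175) r4_355 r9_175 (nat_lit 0) (nat_lit 0) (nat_lit 0) (nat_lit 0x79366ebfde) (nat_lit 3331604952),
  Rx.mk (nat_lit 321) (nat_lit 1) (nat_lit 0) (nat_lit 5) (nat_lit 5) (nat_lit 356) (nat_lit 176) r4_356 r9_176 (nat_lit 0) (nat_lit 0) (nat_lit 0) (nat_lit 0x7dac309f4a) (nat_lit 1142403912),
  Rx.mk (nat_lit 322) (nat_lit 2) (nat_lit 0) (nat_lit 5) (nat_lit 5) (nat_lit 357) (nat_lit 177) r4_357 r9_177 (nat_lit 0) (nat_lit 0) (nat_lit 0) (nat_lit 0x7dca67bbba) (nat_lit 1084469256),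
  Rx.mk (nat_lit 328) (nat_lit 0) (nat_lit 1) (nat_lit 5) (nat_lit 6) (nat_lit 358) (nat_lit 178) r4_358 r9_178 (nat_lit 0) (nat_lit 0) (nat_lit 0) (nat_lit 0x7ddad0951c) (nat_lit 1053005616),
  Rx.mk (nat_lit 329) (nat_lit 1) (nat_lit 1) (nat_lit 5) (nat_lit 7) (nat_lit 359) (nat_lit 179) r4_359 r9_179 (nat_lit 0) (nat_lit 0) (nat_lit 0) (nat_lit 0x7de7bc6652) (nat_lit 1028230632),
  Rx.mk (nat_lit 330) (nat_lit 2) (nat_lit 1) (nat_lit 5) (nat_lit 7) (nat_lit 360) (nat_lit 180) r4_360 r9_180 (nat_lit 0) (nat_lit 0) (nat_lit 0) (nat_lit 0x7dd0b316fe) (nat_lit 1072400472),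
  Rx.mk (nat_lit 344) (nat_lit 0) (nat_lit 3) (nat_lit 5) (nat_lit 6) (nat_lit 361) (nat_lit 181) r4_361 r9_181 (nat_lit 0) (nat_lit 0) (nat_lit 0) (nat_lit 0x7dbf61cc24) (nat_lit 1105605072),
  Rx.mk (nat_lit 345) (nat_lit 1) (nat_lit 3) (nat_lit 5) (nat_lit 7) (nat_lit 362) (nat_lit 182) r4_362 r9_182 (nat_lit 0) (nat_lit 0) (nat_lit 0) (nat_lit 0x7de1a88796) (nat_lit 1039883832)]
noncomputable def e16_27 : List Rx := [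
  Rx.mk (nat_lit 256) (nat_lit 0) (nat_lit 0) (nat_lit 4) (nat_lit 0) (nat_lit 381) (nat_lit 191) r4_381 r10_191 (nat_lit 0) (nat_lit 0) (nat_lit 0) (nat_lit 0x38e6b45bd8) (nat_lit 34899093216),
  Rx.mk (nat_lit 257) (nat_lit 1) (nat_lit 0) (nat_lit 4) (nat_lit 1) (nat_lit 382) (nat_lit 194) r4_382 r10_194 (nat_lit 0) (nat_lit 0) (nat_lit 0) (nat_lit 0x7d28250088) (nat_lit 1395587232),
  Rx.mk (nat_lit 258) (nat_lit 2) (nat_lit 0) (nat_lit 4) (nat_lit 1) (nat_lit 383) (nat_lit 196) r4_383 r10_196 (nat_lit 0) (nat_lit 0) (nat_lit 0) (nat_lit 0x7d70d954fa) (nat_lit 1256184072),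
  Rx.mk (nat_lit 264) (nat_lit 0) (nat_lit 1) (nat_lit 4) (nat_lit 2) (nat_lit 384) (nat_lit 199) r4_384 r10_199 (nat_lit 0) (nat_lit 0) (nat_lit 0) (nat_lit 0x7ba0e835dc) (nat_lit 2145744432),
  Rx.mk (nat_lit 265) (nat_lit 1) (nat_lit 1) (nat_lit 4) (nat_lit 3) (nat_lit 385) (nat_lit 202) r4_385 r10_202 (nat_lit 0) (nat_lit 0) (nat_lit 0) (nat_lit 0x7dce487daa) (nat_lit 1077033672),
  Rx.mk (nat_lit 266) (nat_lit 2) (nat_lit 1) (nat_lit 4) (nat_lit 3) (nat_lit 386) (nat_lit 204) r4_386 r10_204 (nat_lit 0) (nat_lit 0) (nat_lit 0) (nat_lit 0x7df210a104) (nat_lit 1008425808),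
  Rx.mk (nat_lit 280) (nat_lit 0) (nat_lit 3) (nat_lit 4) (nat_lit 2) (nat_lit 387) (nat_lit 207) r4_387 r10_207 (nat_lit 0) (nat_lit 0) (nat_lit 0) (nat_lit 0x7c3386eb5e) (nat_lit 1864615896),
  Rx.mk (nat_lit 281) (nat_lit 1) (nat_lit 3) (nat_lit 4) (nat_lit 3) (nat_lit 388) (nat_lit 209) r4_388 r10_209 (nat_lit 0) (nat_lit 0) (nat_lit 0) (nat_lit 0x7dcf0cf162) (nat_lit 1075562280),
  Rx.mk (nat_lit 283) (nat_lit 3) (nat_lit 3) (nat_lit 4) (nat_lit 3) (nat_lit 389) (nat_lit 210) r4_389 r10_210 (nat_lit 0) (nat_lit 0) (nat_lit 0) (nat_lit 0x7df1be8626) (nat_lit 1009040760),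
  Rx.mk (nat_lit 320) (nat_lit 0) (nat_lit 0) (nat_lit 5) (nat_lit 4) (nat_lit 390) (nat_lit 192) r4_390 r10_192 (nat_lit 0) (nat_lit 0) (nat_lit 0) (nat_lit 0x7c966bbcae) (nat_lit 1674997272),
  Rx.mk (nat_lit 322) (nat_lit 2) (nat_lit 0) (nat_lit 5) (nat_lit 5) (nat_lit 391) (nat_lit 197) r4_391 r10_197 (nat_lit 0) (nat_lit 0) (nat_lit 0) (nat_lit 0x7de4ce9532) (nat_lit 1033846632),
  Rx.mk (nat_lit 328) (nat_lit 0) (nat_lit 1) (nat_lit 5) (nat_lit 6) (nat_lit 392) (nat_lit 200) r4_392 r10_200 (nat_lit 0) (nat_lit 0) (nat_lit 0) (nat_lit 0x7ded13b0d8) (nat_lit 1017989856),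
  Rx.mk (nat_lit 330) (nat_lit 2) (nat_lit 1) (nat_lit 5) (nat_lit 7) (nat_lit 393) (nat_lit 205) r4_393 r10_205 (nat_lit 0) (nat_lit 0) (nat_lit 0) (nat_lit 0x7df01c204e) (nat_lit 1012174488),
  Rx.mk (nat_lit 344) (nat_lit 0) (nat_lit 3) (nat_lit 5) (nat_lit 6) (nat_lit 394) (nat_lit 208) r4_394 r10_208 (nat_lit 0) (nat_lit 0) (nat_lit 0) (nat_lit 0x7de439be80) (nat_lit 1034961408),
  Rx.mk (nat_lit 347) (nat_lit 3) (nat_lit 3) (nat_lit 5) (nat_lit 7) (nat_lit 395) (nat_lit 211) r4_395 r10_211 (nat_lit 0) (nat_lit 0) (nat_lit 0) (nat_lit 0x7df5724ae6) (nat_lit 1001942136),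
  Rx.mk (nat_lit 448) (nat_lit 0) (nat_lit 0) (nat_lit 7) (nat_lit 4) (nat_lit 396) (nat_lit 193) r4_396 r10_193 (nat_lit 0) (nat_lit 0) (nat_lit 0) (nat_lit 0x7ccea598d8) (nat_lit 1567189728),
  Rx.mk (nat_lit 449) (nat_lit 1) (nat_lit 0) (nat_lit 7) (nat_lit 5) (nat_lit 397) (nat_lit 195) r4_397 r10_195 (nat_lit 0) (nat_lit 0) (nat_lit 0) (nat_lit 0x7de473dade) (nat_lit 1034526168),
  Rx.mk (nat_lit 450) (nat_lit 2) (nat_lit 0) (nat_lit 7) (nat_lit 5) (nat_lit 398) (nat_lit 198) r4_398 r10_198 (nat_lit 0) (nat_lit 0) (nat_lit 0) (nat_lit 0x7dcd522d10) (nat_lit 1078878528),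
  Rx.mk (nat_lit 456) (nat_lit 0) (nat_lit 1) (nat_lit 7) (nat_lit 6) (nat_lit 399) (nat_lit 201) r4_399 r10_201 (nat_lit 0) (nat_lit 0) (nat_lit 0) (nat_lit 0x7dd7e563d2) (nat_lit 1058601960),
  Rx.mk (nat_lit 457) (nat_lit 1) (nat_lit 1) (nat_lit 7) (nat_lit 7) (nat_lit 400) (nat_lit 203) r4_400 r10_203 (nat_lit 0) (nat_lit 0) (nat_lit 0) (nat_lit 0x7df3488d84) (nat_lit 1006089552),
  Rx.mk (nat_lit 458) (nat_lit 2) (nat_lit 1) (nat_lit 7) (nat_lit 7) (nat_lit 401) (nat_lit 206) r4_401 r10_206 (nat_lit 0) (nat_lit 0) (nat_lit 0) (nat_lit 0x7df70fd10c) (nat_lit 998844912)]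
noncomputable def e16_28 : List Rx := [
  Rx.mk (nat_lit 218) (nat_lit 2) (nat_lit 3) (nat_lit 3) (nat_lit 7) (nat_lit 143) (nat_lit 8) r4_143 r10_8 (nat_lit 0) (nat_lit 0) (nat_lit 0) (nat_lit 0x7dd7d8a49e) (nat_lit 1058697432)]
noncomputable def e16_29 : List Rx := [
  Rx.mk (nat_lit 280) (nat_lit 0) (nat_lit 3) (nat_lit 4) (nat_lit 2) (nat_lit 217) (nat_lit 338) r4_217 r5_338 (nat_lit 0) (nat_lit 0) (nat_lit 0) (nat_lit 0x77438f4fc8) (nat_lit 4288141728),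
  Rx.mk (nat_lit 281) (nat_lit 1) (nat_lit 3) (nat_lit 4) (nat_lit 3) (nat_lit 218) (nat_lit 341) r4_218 r5_341 (nat_lit 0) (nat_lit 0) (nat_lit 0) (nat_lit 0x7e57d80428) (nat_lit 813275424),
  Rx.mk (nat_lit 282) (nat_lit 2) (nat_lit 3) (nat_lit 4) (nat_lit 3) (nat_lit 219) (nat_lit 343) r4_219 r5_343 (nat_lit 0) (nat_lit 0) (nat_lit 0) (nat_lit 0x7e42d95428) (nat_lit 853530912),
  Rx.mk (nat_lit 312) (nat_lit 0) (nat_lit 7) (nat_lit 4) (nat_lit 2) (nat_lit 220) (nat_lit 337) r4_220 r5_337 (nat_lit 0) (nat_lit 0) (nat_lit 0) (nat_lit 0x7037ba9420) (nat_lit 7746800256),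
  Rx.mk (nat_lit 313) (nat_lit 1) (nat_lit 7) (nat_lit 4) (nat_lit 3) (nat_lit 221) (nat_lit 340) r4_221 r5_340 (nat_lit 0) (nat_lit 0) (nat_lit 0) (nat_lit 0x7e80245f3a) (nat_lit 736007688),
  Rx.mk (nat_lit 440) (nat_lit 0) (nat_lit 7) (nat_lit 6) (nat_lit 6) (nat_lit 222) (nat_lit 339) r4_222 r5_339 (nat_lit 0) (nat_lit 0) (nat_lit 0) (nat_lit 0x7145321b9a) (nat_lit 7230125448),
  Rx.mk (nat_lit 441) (nat_lit 1) (nat_lit 7) (nat_lit 6) (nat_lit 7) (nat_lit 223) (nat_lit 342) r4_223 r5_342 (nat_lit 0) (nat_lit 0) (nat_lit 0) (nat_lit 0x7edd8ea838) (nat_lit 556893792)]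
noncomputable def e16_30 : List Rx := [
  Rx.mk (nat_lit 344) (nat_lit 0) (nat_lit 3) (nat_lit 5) (nat_lit 6) (nat_lit 363) (nat_lit 353) r4_363 r10_353 (nat_lit 0) (nat_lit 0) (nat_lit 0) (nat_lit 0x7e35dac41e) (nat_lit 878446296),
  Rx.mk (nat_lit 345) (nat_lit 1) (nat_lit 3) (nat_lit 5) (nat_lit 7) (nat_lit 364) (nat_lit 354) r4_364 r10_354 (nat_lit 0) (nat_lit 0) (nat_lit 0) (nat_lit 0x7df12eef20) (nat_lit 1010116224),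
  Rx.mk (nat_lit 346) (nat_lit 2) (nat_lit 3) (nat_lit 5) (nat_lit 7) (nat_lit 365) (nat_lit 355) r4_365 r10_355 (nat_lit 0) (nat_lit 0) (nat_lit 0) (nat_lit 0x7df06e3b2c) (nat_lit 1011559536)]
noncomputable def e16_31 : List Rx := [
  Rx.mk (nat_lit 312) (nat_lit 0) (nat_lit 7) (nat_lit 4) (nat_lit 2) (nat_lit 78) (nat_lit 62) r4_78 r5_62 (nat_lit 0) (nat_lit 0) (nat_lit 0) (nat_lit 0x73b85e8660) (nat_lit 6027585408),
  Rx.mk (nat_lit 313) (nat_lit 1) (nat_lit 7) (nat_lit 4) (nat_lit 3) (nat_lit 79) (nat_lit 63) r4_79 r5_63 (nat_lit 0) (nat_lit 0) (nat_lit 0) (nat_lit 0x7e786b1ad6) (nat_lit 750817080),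
  Rx.mk (nat_lit 315) (nat_lit 3) (nat_lit 7) (nat_lit 4) (nat_lit 3) (nat_lit 80) (nat_lit 64) r4_80 r5_64 (nat_lit 0) (nat_lit 0) (nat_lit 0) (nat_lit 0x7cf80582b0) (nat_lit 1487858112),
  Rx.mk (nat_lit 440) (nat_lit 0) (nat_lit 7) (nat_lit 6) (nat_lit 6) (nat_lit 81) (nat_lit 67) r4_81 r5_67 (nat_lit 0) (nat_lit 0) (nat_lit 0) (nat_lit 0x725645c94e) (nat_lit 6706528920),
  Rx.mk (nat_lit 441) (nat_lit 1) (nat_lit 7) (nat_lit 6) (nat_lit 7) (nat_lit 82) (nat_lit 68) r4_82 r5_68 (nat_lit 0) (nat_lit 0) (nat_lit 0) (nat_lit 0x7efcc334d0) (nat_lit 497060928),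
  Rx.mk (nat_lit 443) (nat_lit 3) (nat_lit 7) (nat_lit 6) (nat_lit 7) (nat_lit 83) (nat_lit 69) r4_83 r5_69 (nat_lit 0) (nat_lit 0) (nat_lit 0) (nat_lit 0x7ee231fdfe) (nat_lit 548000856),
  Rx.mk (nat_lit 472) (nat_lit 0) (nat_lit 3) (nat_lit 7) (nat_lit 6) (nat_lit 84) (nat_lit 59) r4_84 r5_59 (nat_lit 0) (nat_lit 0) (nat_lit 0) (nat_lit 0x7e271210b8) (nat_lit 906793056),
  Rx.mk (nat_lit 473) (nat_lit 1) (nat_lit 3) (nat_lit 7) (nat_lit 7) (nat_lit 85) (nat_lit 60) r4_85 r5_60 (nat_lit 0) (nat_lit 0) (nat_lit 0) (nat_lit 0x7e3b9e07e4) (nat_lit 867396816),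
  Rx.mk (nat_lit 474) (nat_lit 2) (nat_lit 3) (nat_lit 7) (nat_lit 7) (nat_lit 86) (nat_lit 61) r4_86 r5_61 (nat_lit 0) (nat_lit 0) (nat_lit 0) (nat_lit 0x7e2a2b5f20) (nat_lit 900851328),
  Rx.mk (nat_lit 504) (nat_lit 0) (nat_lit 7) (nat_lit 7) (nat_lit 6) (nat_lit 87) (nat_lit 65) r4_87 r5_65 (nat_lit 0) (nat_lit 0) (nat_lit 0) (nat_lit 0x7dc900f228) (nat_lit 1087156512),
  Rx.mk (nat_lit 505) (nat_lit 1) (nat_lit 7) (nat_lit 7) (nat_lit 7) (nat_lit 88) (nat_lit 66) r4_88 r5_66 (nat_lit 0) (nat_lit 0) (nat_lit 0) (nat_lit 0x7dda26bfba) (nat_lit 1054277640)]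
noncomputable def e16_32 : List Rx := [
  Rx.mk (nat_lit 280) (nat_lit 0) (nat_lit 3) (nat_lit 4) (nat_lit 2) (nat_lit 241) (nat_lit 126) r4_241 r11_126 (nat_lit 0) (nat_lit 0) (nat_lit 0) (nat_lit 0x75f067639a) (nat_lit 4938438024),
  Rx.mk (nat_lit 281) (nat_lit 1) (nat_lit 3) (nat_lit 4) (nat_lit 3) (nat_lit 242) (nat_lit 130) r4_242 r11_130 (nat_lit 0) (nat_lit 0) (nat_lit 0) (nat_lit 0x7e10d57498) (nat_lit 949429728),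
  Rx.mk (nat_lit 282) (nat_lit 2) (nat_lit 3) (nat_lit 4) (nat_lit 3) (nat_lit 243) (nat_lit 136) r4_243 r11_136 (nat_lit 0) (nat_lit 0) (nat_lit 0) (nat_lit 0x7e356d4af6) (nat_lit 879266232),
  Rx.mk (nat_lit 312) (nat_lit 0) (nat_lit 7) (nat_lit 4) (nat_lit 2) (nat_lit 244) (nat_lit 128) r4_244 r11_128 (nat_lit 0) (nat_lit 0) (nat_lit 0) (nat_lit 0x6bf3fab462) (nat_lit 9840116520),
  Rx.mk (nat_lit 313) (nat_lit 1) (nat_lit 7) (nat_lit 4) (nat_lit 3) (nat_lit 245) (nat_lit 132) r4_245 r11_132 (nat_lit 0) (nat_lit 0) (nat_lit 0) (nat_lit 0x7e8d7ec986) (nat_lit 710404344),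
  Rx.mk (nat_lit 315) (nat_lit 3) (nat_lit 7) (nat_lit 4) (nat_lit 3) (nat_lit 246) (nat_lit 134) r4_246 r11_134 (nat_lit 0) (nat_lit 0) (nat_lit 0) (nat_lit 0x7d40c096b6) (nat_lit 1348404408),
  Rx.mk (nat_lit 440) (nat_lit 0) (nat_lit 7) (nat_lit 6) (nat_lit 6) (nat_lit 247) (nat_lit 129) r4_247 r11_129 (nat_lit 0) (nat_lit 0) (nat_lit 0) (nat_lit 0x6e389aa81e) (nat_lit 8726828760),
  Rx.mk (nat_lit 441) (nat_lit 1) (nat_lit 7) (nat_lit 6) (nat_lit 7) (nat_lit 248) (nat_lit 133) r4_248 r11_133 (nat_lit 0) (nat_lit 0) (nat_lit 0) (nat_lit 0x7ef9498c6e) (nat_lit 503724312),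
  Rx.mk (nat_lit 443) (nat_lit 3) (nat_lit 7) (nat_lit 6) (nat_lit 7) (nat_lit 249) (nat_lit 135) r4_249 r11_135 (nat_lit 0) (nat_lit 0) (nat_lit 0) (nat_lit 0x7ea772ea2a) (nat_lit 660640968),
  Rx.mk (nat_lit 472) (nat_lit 0) (nat_lit 3) (nat_lit 7) (nat_lit 6) (nat_lit 250) (nat_lit 127) r4_250 r11_127 (nat_lit 0) (nat_lit 0) (nat_lit 0) (nat_lit 0x7dda8599cc) (nat_lit 1053567216),
  Rx.mk (nat_lit 473) (nat_lit 1) (nat_lit 3) (nat_lit 7) (nat_lit 7) (nat_lit 251) (nat_lit 131) r4_251 r11_131 (nat_lit 0) (nat_lit 0) (nat_lit 0) (nat_lit 0x7df52e0f2a) (nat_lit 1002453192),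
  Rx.mk (nat_lit 474) (nat_lit 2) (nat_lit 3) (nat_lit 7) (nat_lit 7) (nat_lit 252) (nat_lit 137) r4_252 r11_137 (nat_lit 0) (nat_lit 0) (nat_lit 0) (nat_lit 0x7e1d7e2a00) (nat_lit 925157376)]
noncomputable def e16_33 : List Rx := [
  Rx.mk (nat_lit 289) (nat_lit 1) (nat_lit 4) (nat_lit 4) (nat_lit 1) (nat_lit 155) (nat_lit 317) r4_155 r0_317 (nat_lit 0) (nat_lit 0) (nat_lit 0) (nat_lit 0x6ef1331dde) (nat_lit 8372885976),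
  Rx.mk (nat_lit 297) (nat_lit 1) (nat_lit 5) (nat_lit 4) (nat_lit 3) (nat_lit 156) (nat_lit 318) r4_156 r0_318 (nat_lit 0) (nat_lit 0) (nat_lit 0) (nat_lit 0x7d38edd3ea) (nat_lit 1363404744),
  Rx.mk (nat_lit 417) (nat_lit 1) (nat_lit 4) (nat_lit 6) (nat_lit 5) (nat_lit 157) (nat_lit 319) r4_157 r0_319 (nat_lit 0) (nat_lit 0) (nat_lit 0) (nat_lit 0x76db4494dc) (nat_lit 4488110640),
  Rx.mk (nat_lit 425) (nat_lit 1) (nat_lit 5) (nat_lit 6) (nat_lit 7) (nat_lit 158) (nat_lit 320) r4_158 r0_320 (nat_lit 0) (nat_lit 0) (nat_lit 0) (nat_lit 0x7ece365dcc) (nat_lit 586316016)]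
noncomputable def e16_34 : List Rx := [
  Rx.mk (nat_lit 417) (nat_lit 1) (nat_lit 4) (nat_lit 6) (nat_lit 5) (nat_lit 68) (nat_lit 79) r4_68 r0_79 (nat_lit 0) (nat_lit 0) (nat_lit 0) (nat_lit 0x6338dbcf0c) (nat_lit 14125728240),
  Rx.mk (nat_lit 421) (nat_lit 5) (nat_lit 4) (nat_lit 6) (nat_lit 5) (nat_lit 69) (nat_lit 80) r4_69 r0_80 (nat_lit 0) (nat_lit 0) (nat_lit 0) (nat_lit 0x7933197536) (nat_lit 3337995960),
  Rx.mk (nat_lit 445) (nat_lit 5) (nat_lit 7) (nat_lit 6) (nat_lit 7) (nat_lit 70) (nat_lit 81) r4_70 r0_81 (nat_lit 0) (nat_lit 0) (nat_lit 0) (nat_lit 0x7e7f2fee82) (nat_lit 737838504)]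
noncomputable def e16_35 : List Rx := [
  Rx.mk (nat_lit 289) (nat_lit 1) (nat_lit 4) (nat_lit 4) (nat_lit 1) (nat_lit 167) (nat_lit 427) r4_167 r6_427 (nat_lit 0) (nat_lit 0) (nat_lit 0) (nat_lit 0x6ce30222fc) (nat_lit 9381803184),
  Rx.mk (nat_lit 297) (nat_lit 1) (nat_lit 5) (nat_lit 4) (nat_lit 3) (nat_lit 168) (nat_lit 428) r4_168 r6_428 (nat_lit 0) (nat_lit 0) (nat_lit 0) (nat_lit 0x7cb6e0d53c) (nat_lit 1612763568),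
  Rx.mk (nat_lit 417) (nat_lit 1) (nat_lit 4) (nat_lit 6) (nat_lit 5) (nat_lit 169) (nat_lit 429) r4_169 r6_429 (nat_lit 0) (nat_lit 0) (nat_lit 0) (nat_lit 0x7e5529ef0c) (nat_lit 818414064),
  Rx.mk (nat_lit 421) (nat_lit 5) (nat_lit 4) (nat_lit 6) (nat_lit 5) (nat_lit 170) (nat_lit 424) r4_170 r6_424 (nat_lit 0) (nat_lit 0) (nat_lit 0) (nat_lit 0x7e444b5d06) (nat_lit 850759416),
  Rx.mk (nat_lit 425) (nat_lit 1) (nat_lit 5) (nat_lit 6) (nat_lit 7) (nat_lit 171) (nat_lit 430) r4_171 r6_430 (nat_lit 0) (nat_lit 0) (nat_lit 0) (nat_lit 0x7e5e361e40) (nat_lit 801066240),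
  Rx.mk (nat_lit 429) (nat_lit 5) (nat_lit 5) (nat_lit 6) (nat_lit 7) (nat_lit 172) (nat_lit 425) r4_172 r6_425 (nat_lit 0) (nat_lit 0) (nat_lit 0) (nat_lit 0x7df13cce42) (nat_lit 1010012328),
  Rx.mk (nat_lit 445) (nat_lit 5) (nat_lit 7) (nat_lit 6) (nat_lit 7) (nat_lit 173) (nat_lit 426) r4_173 r6_426 (nat_lit 0) (nat_lit 0) (nat_lit 0) (nat_lit 0x7dcf6e0b50) (nat_lit 1074835008)]
noncomputable def e16_36 : List Rx := [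
  Rx.mk (nat_lit 180) (nat_lit 4) (nat_lit 6) (nat_lit 2) (nat_lit 6) (nat_lit 21) (nat_lit 89) r4_21 r2_89 (nat_lit 0) (nat_lit 0) (nat_lit 0) (nat_lit 0x7e2db3a698) (nat_lit 894078432),
  Rx.mk (nat_lit 181) (nat_lit 5) (nat_lit 6) (nat_lit 2) (nat_lit 7) (nat_lit 22) (nat_lit 90) r4_22 r2_90 (nat_lit 0) (nat_lit 0) (nat_lit 0) (nat_lit 0x7dee60fc02) (nat_lit 1015493544),
  Rx.mk (nat_lit 182) (nat_lit 6) (nat_lit 6) (nat_lit 2) (nat_lit 7) (nat_lit 23) (nat_lit 91) r4_23 r2_91 (nat_lit 0) (nat_lit 0) (nat_lit 0) (nat_lit 0x7de8bc7650) (nat_lit 1026312768),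
  Rx.mk (nat_lit 420) (nat_lit 4) (nat_lit 4) (nat_lit 6) (nat_lit 4) (nat_lit 24) (nat_lit 84) r4_24 r2_84 (nat_lit 0) (nat_lit 0) (nat_lit 0) (nat_lit 0x6f9c53eb26) (nat_lit 8044765560),
  Rx.mk (nat_lit 421) (nat_lit 5) (nat_lit 4) (nat_lit 6) (nat_lit 5) (nat_lit 25) (nat_lit 85) r4_25 r2_85 (nat_lit 0) (nat_lit 0) (nat_lit 0) (nat_lit 0x7e46493d26) (nat_lit 846940536),
  Rx.mk (nat_lit 436) (nat_lit 4) (nat_lit 6) (nat_lit 6) (nat_lit 6) (nat_lit 26) (nat_lit 92) r4_26 r2_92 (nat_lit 0) (nat_lit 0) (nat_lit 0) (nat_lit 0x7e3762eb9a) (nat_lit 875509128),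
  Rx.mk (nat_lit 437) (nat_lit 5) (nat_lit 6) (nat_lit 6) (nat_lit 7) (nat_lit 27) (nat_lit 93) r4_27 r2_93 (nat_lit 0) (nat_lit 0) (nat_lit 0) (nat_lit 0x7dd9a4a7dc) (nat_lit 1055252016),
  Rx.mk (nat_lit 444) (nat_lit 4) (nat_lit 7) (nat_lit 6) (nat_lit 6) (nat_lit 28) (nat_lit 86) r4_28 r2_86 (nat_lit 0) (nat_lit 0) (nat_lit 0) (nat_lit 0x7ea641bd3e) (nat_lit 662926680),
  Rx.mk (nat_lit 445) (nat_lit 5) (nat_lit 7) (nat_lit 6) (nat_lit 7) (nat_lit 29) (nat_lit 87) r4_29 r2_87 (nat_lit 0) (nat_lit 0) (nat_lit 0) (nat_lit 0x7e85ff4186) (nat_lit 724781304),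
  Rx.mk (nat_lit 447) (nat_lit 7) (nat_lit 7) (nat_lit 6) (nat_lit 7) (nat_lit 30) (nat_lit 88) r4_30 r2_88 (nat_lit 0) (nat_lit 0) (nat_lit 0) (nat_lit 0x7e66fbd1dc) (nat_lit 784246320)]
noncomputable def e16_37 : List Rx := [
  Rx.mk (nat_lit 180) (nat_lit 4) (nat_lit 6) (nat_lit 2) (nat_lit 6) (nat_lit 144) (nat_lit 56) r4_144 r8_56 (nat_lit 0) (nat_lit 0) (nat_lit 0) (nat_lit 0x7db61d007a) (nat_lit 1123376904),
  Rx.mk (nat_lit 181) (nat_lit 5) (nat_lit 6) (nat_lit 2) (nat_lit 7) (nat_lit 145) (nat_lit 57) r4_145 r8_57 (nat_lit 0) (nat_lit 0) (nat_lit 0) (nat_lit 0x7dde50fd12) (nat_lit 1046291688),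
  Rx.mk (nat_lit 182) (nat_lit 6) (nat_lit 6) (nat_lit 2) (nat_lit 7) (nat_lit 146) (nat_lit 58) r4_146 r8_58 (nat_lit 0) (nat_lit 0) (nat_lit 0) (nat_lit 0x7de458dc8e) (nat_lit 1034728344),
  Rx.mk (nat_lit 420) (nat_lit 4) (nat_lit 4) (nat_lit 6) (nat_lit 4) (nat_lit 147) (nat_lit 50) r4_147 r8_50 (nat_lit 0) (nat_lit 0) (nat_lit 0) (nat_lit 0x6c5214126e) (nat_lit 9659691288),
  Rx.mk (nat_lit 421) (nat_lit 5) (nat_lit 4) (nat_lit 6) (nat_lit 5) (nat_lit 148) (nat_lit 51) r4_148 r8_51 (nat_lit 0) (nat_lit 0) (nat_lit 0) (nat_lit 0x7dc4b916aa) (nat_lit 1095364296),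
  Rx.mk (nat_lit 429) (nat_lit 5) (nat_lit 5) (nat_lit 6) (nat_lit 7) (nat_lit 149) (nat_lit 52) r4_149 r8_52 (nat_lit 0) (nat_lit 0) (nat_lit 0) (nat_lit 0x7df5dd2438) (nat_lit 1001141856),
  Rx.mk (nat_lit 436) (nat_lit 4) (nat_lit 6) (nat_lit 6) (nat_lit 6) (nat_lit 150) (nat_lit 59) r4_150 r8_59 (nat_lit 0) (nat_lit 0) (nat_lit 0) (nat_lit 0x7dc71c9070) (nat_lit 1090784448),
  Rx.mk (nat_lit 437) (nat_lit 5) (nat_lit 6) (nat_lit 6) (nat_lit 7) (nat_lit 151) (nat_lit 60) r4_151 r8_60 (nat_lit 0) (nat_lit 0) (nat_lit 0) (nat_lit 0x7df5b98672) (nat_lit 1001408616),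
  Rx.mk (nat_lit 444) (nat_lit 4) (nat_lit 7) (nat_lit 6) (nat_lit 6) (nat_lit 152) (nat_lit 53) r4_152 r8_53 (nat_lit 0) (nat_lit 0) (nat_lit 0) (nat_lit 0x7ddbcbc568) (nat_lit 1051124256),
  Rx.mk (nat_lit 445) (nat_lit 5) (nat_lit 7) (nat_lit 6) (nat_lit 7) (nat_lit 153) (nat_lit 54) r4_153 r8_54 (nat_lit 0) (nat_lit 0) (nat_lit 0) (nat_lit 0x7de39ca852) (nat_lit 1036137960),
  Rx.mk (nat_lit 447) (nat_lit 7) (nat_lit 7) (nat_lit 6) (nat_lit 7) (nat_lit 154) (nat_lit 55) r4_154 r8_55 (nat_lit 0) (nat_lit 0) (nat_lit 0) (nat_lit 0x7df7378e90) (nat_lit 998547264)]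
noncomputable def e16_38 : List Rx := [
  Rx.mk (nat_lit 180) (nat_lit 4) (nat_lit 6) (nat_lit 2) (nat_lit 6) (nat_lit 128) (nat_lit 15) r4_128 r8_15 (nat_lit 0) (nat_lit 0) (nat_lit 0) (nat_lit 0x7de2b8b692) (nat_lit 1037845224),
  Rx.mk (nat_lit 181) (nat_lit 5) (nat_lit 6) (nat_lit 2) (nat_lit 7) (nat_lit 129) (nat_lit 16) r4_129 r8_16 (nat_lit 0) (nat_lit 0) (nat_lit 0) (nat_lit 0x7df79428c6) (nat_lit 997853688),
  Rx.mk (nat_lit 182) (nat_lit 6) (nat_lit 6) (nat_lit 2) (nat_lit 7) (nat_lit 130) (nat_lit 17) r4_130 r8_17 (nat_lit 0) (nat_lit 0) (nat_lit 0) (nat_lit 0x7dd77c6a62) (nat_lit 1059388200)]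
noncomputable def e16_39 : List Rx := [
  Rx.mk (nat_lit 421) (nat_lit 5) (nat_lit 4) (nat_lit 6) (nat_lit 5) (nat_lit 71) (nat_lit 85) r4_71 r1_85 (nat_lit 0) (nat_lit 0) (nat_lit 0) (nat_lit 0x7de3bb066c) (nat_lit 1035910512),
  Rx.mk (nat_lit 437) (nat_lit 5) (nat_lit 6) (nat_lit 6) (nat_lit 7) (nat_lit 72) (nat_lit 87) r4_72 r1_87 (nat_lit 0) (nat_lit 0) (nat_lit 0) (nat_lit 0x7df5700b0a) (nat_lit 1001958984),
  Rx.mk (nat_lit 445) (nat_lit 5) (nat_lit 7) (nat_lit 6) (nat_lit 7) (nat_lit 73) (nat_lit 86) r4_73 r1_86 (nat_lit 0) (nat_lit 0) (nat_lit 0) (nat_lit 0x7eb127ced2) (nat_lit 642029544)]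
noncomputable def e16_40 : List Rx := [
  Rx.mk (nat_lit 421) (nat_lit 5) (nat_lit 4) (nat_lit 6) (nat_lit 5) (nat_lit 177) (nat_lit 351) r4_177 r7_351 (nat_lit 0) (nat_lit 0) (nat_lit 0) (nat_lit 0x7dec271fa2) (nat_lit 1019761704),
  Rx.mk (nat_lit 429) (nat_lit 5) (nat_lit 5) (nat_lit 6) (nat_lit 7) (nat_lit 178) (nat_lit 352) r4_178 r7_352 (nat_lit 0) (nat_lit 0) (nat_lit 0) (nat_lit 0x7de75b4c64) (nat_lit 1028957904),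
  Rx.mk (nat_lit 437) (nat_lit 5) (nat_lit 6) (nat_lit 6) (nat_lit 7) (nat_lit 179) (nat_lit 354) r4_179 r7_354 (nat_lit 0) (nat_lit 0) (nat_lit 0) (nat_lit 0x7ddcf03320) (nat_lit 1048934016),
  Rx.mk (nat_lit 445) (nat_lit 5) (nat_lit 7) (nat_lit 6) (nat_lit 7) (nat_lit 180) (nat_lit 353) r4_180 r7_353 (nat_lit 0) (nat_lit 0) (nat_lit 0) (nat_lit 0x7de78789a0) (nat_lit 1028626560)]
noncomputable def e16_41 : List Rx := [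
  Rx.mk (nat_lit 297) (nat_lit 1) (nat_lit 5) (nat_lit 4) (nat_lit 3) (nat_lit 159) (nat_lit 304) r4_159 r1_304 (nat_lit 0) (nat_lit 0) (nat_lit 0) (nat_lit 0x7e188df908) (nat_lit 934625952),
  Rx.mk (nat_lit 425) (nat_lit 1) (nat_lit 5) (nat_lit 6) (nat_lit 7) (nat_lit 160) (nat_lit 305) r4_160 r1_305 (nat_lit 0) (nat_lit 0) (nat_lit 0) (nat_lit 0x7e535d2bda) (nat_lit 821865096)]
noncomputable def e16_42 : List Rx := [
  Rx.mk (nat_lit 265) (nat_lit 1) (nat_lit 1) (nat_lit 4) (nat_lit 3) (nat_lit 299) (nat_lit 350) r4_299 r2_350 (nat_lit 0) (nat_lit 0) (nat_lit 0) (nat_lit 0x7dad9708e2) (nat_lit 1139719464),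
  Rx.mk (nat_lit 297) (nat_lit 1) (nat_lit 5) (nat_lit 4) (nat_lit 3) (nat_lit 300) (nat_lit 349) r4_300 r2_349 (nat_lit 0) (nat_lit 0) (nat_lit 0) (nat_lit 0x7dc103120e) (nat_lit 1102479768),
  Rx.mk (nat_lit 329) (nat_lit 1) (nat_lit 1) (nat_lit 5) (nat_lit 7) (nat_lit 301) (nat_lit 352) r4_301 r2_352 (nat_lit 0) (nat_lit 0) (nat_lit 0) (nat_lit 0x7de0307f18) (nat_lit 1042700256),
  Rx.mk (nat_lit 361) (nat_lit 1) (nat_lit 5) (nat_lit 5) (nat_lit 7) (nat_lit 302) (nat_lit 351) r4_302 r2_351 (nat_lit 0) (nat_lit 0) (nat_lit 0) (nat_lit 0x7de76c8b50) (nat_lit 1028828736),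
  Rx.mk (nat_lit 425) (nat_lit 1) (nat_lit 5) (nat_lit 6) (nat_lit 7) (nat_lit 303) (nat_lit 353) r4_303 r2_353 (nat_lit 0) (nat_lit 0) (nat_lit 0) (nat_lit 0x7df18be950) (nat_lit 1009419840)]
noncomputable def e16_43 : List Rx := [
  Rx.mk (nat_lit 297) (nat_lit 1) (nat_lit 5) (nat_lit 4) (nat_lit 3) (nat_lit 174) (nat_lit 68) r4_174 r7_68 (nat_lit 0) (nat_lit 0) (nat_lit 0) (nat_lit 0x7d8ece758a) (nat_lit 1198743624),
  Rx.mk (nat_lit 425) (nat_lit 1) (nat_lit 5) (nat_lit 6) (nat_lit 7) (nat_lit 175) (nat_lit 69) r4_175 r7_69 (nat_lit 0) (nat_lit 0) (nat_lit 0) (nat_lit 0x7e35a76754) (nat_lit 878830992),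
  Rx.mk (nat_lit 429) (nat_lit 5) (nat_lit 5) (nat_lit 6) (nat_lit 7) (nat_lit 176) (nat_lit 70) r4_176 r7_70 (nat_lit 0) (nat_lit 0) (nat_lit 0) (nat_lit 0x7ddc8799aa) (nat_lit 1049717448)]
noncomputable def e16_44 : List Rx := [
  Rx.mk (nat_lit 265) (nat_lit 1) (nat_lit 1) (nat_lit 4) (nat_lit 3) (nat_lit 309) (nat_lit 313) r4_309 r8_313 (nat_lit 0) (nat_lit 0) (nat_lit 0) (nat_lit 0x7cf628a080) (nat_lit 1491429888),
  Rx.mk (nat_lit 297) (nat_lit 1) (nat_lit 5) (nat_lit 4) (nat_lit 3) (nat_lit 310) (nat_lit 312) r4_310 r8_312 (nat_lit 0) (nat_lit 0) (nat_lit 0) (nat_lit 0x7bf32fb112) (nat_lit 1987982568),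
  Rx.mk (nat_lit 329) (nat_lit 1) (nat_lit 1) (nat_lit 5) (nat_lit 7) (nat_lit 311) (nat_lit 315) r4_311 r8_315 (nat_lit 0) (nat_lit 0) (nat_lit 0) (nat_lit 0x7de1440dde) (nat_lit 1040636376),
  Rx.mk (nat_lit 361) (nat_lit 1) (nat_lit 5) (nat_lit 5) (nat_lit 7) (nat_lit 312) (nat_lit 314) r4_312 r8_314 (nat_lit 0) (nat_lit 0) (nat_lit 0) (nat_lit 0x7ddd4f0d32) (nat_lit 1048223592),
  Rx.mk (nat_lit 425) (nat_lit 1) (nat_lit 5) (nat_lit 6) (nat_lit 7) (nat_lit 313) (nat_lit 316) r4_313 r8_316 (nat_lit 0) (nat_lit 0) (nat_lit 0) (nat_lit 0x7deb594c80) (nat_lit 1021303296),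
  Rx.mk (nat_lit 429) (nat_lit 5) (nat_lit 5) (nat_lit 6) (nat_lit 7) (nat_lit 314) (nat_lit 311) r4_314 r8_311 (nat_lit 0) (nat_lit 0) (nat_lit 0) (nat_lit 0x7dc5e563e4) (nat_lit 1093115088)]
noncomputable def e16_45 : List Rx := [
  Rx.mk (nat_lit 329) (nat_lit 1) (nat_lit 1) (nat_lit 5) (nat_lit 7) (nat_lit 307) (nat_lit 305) r4_307 r8_305 (nat_lit 0) (nat_lit 0) (nat_lit 0) (nat_lit 0x7dd68859a4) (nat_lit 1061216208),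
  Rx.mk (nat_lit 361) (nat_lit 1) (nat_lit 5) (nat_lit 5) (nat_lit 7) (nat_lit 308) (nat_lit 306) r4_308 r8_306 (nat_lit 0) (nat_lit 0) (nat_lit 0) (nat_lit 0x7de5612c08) (nat_lit 1032748704)]
noncomputable def e16_46 : List Rx := [
  Rx.mk (nat_lit 289) (nat_lit 1) (nat_lit 4) (nat_lit 4) (nat_lit 1) (nat_lit 161) (nat_lit 349) r4_161 r4_349 (nat_lit 0) (nat_lit 0) (nat_lit 0) (nat_lit 0x73692e19b6) (nat_lit 6179422392),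
  Rx.mk (nat_lit 297) (nat_lit 1) (nat_lit 5) (nat_lit 4) (nat_lit 3) (nat_lit 162) (nat_lit 350) r4_162 r4_350 (nat_lit 0) (nat_lit 0) (nat_lit 0) (nat_lit 0x7e146cbb20) (nat_lit 942544512),
  Rx.mk (nat_lit 313) (nat_lit 1) (nat_lit 7) (nat_lit 4) (nat_lit 3) (nat_lit 163) (nat_lit 351) r4_163 r4_351 (nat_lit 0) (nat_lit 0) (nat_lit 0) (nat_lit 0x7e740fc090) (nat_lit 759170880),
  Rx.mk (nat_lit 417) (nat_lit 1) (nat_lit 4) (nat_lit 6) (nat_lit 5) (nat_lit 164) (nat_lit 352) r4_164 r4_352 (nat_lit 0) (nat_lit 0) (nat_lit 0) (nat_lit 0x7e9dbce594) (nat_lit 679260816),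
  Rx.mk (nat_lit 425) (nat_lit 1) (nat_lit 5) (nat_lit 6) (nat_lit 7) (nat_lit 165) (nat_lit 353) r4_165 r4_353 (nat_lit 0) (nat_lit 0) (nat_lit 0) (nat_lit 0x7e61448d56) (nat_lit 795205944),
  Rx.mk (nat_lit 441) (nat_lit 1) (nat_lit 7) (nat_lit 6) (nat_lit 7) (nat_lit 166) (nat_lit 354) r4_166 r4_354 (nat_lit 0) (nat_lit 0) (nat_lit 0) (nat_lit 0x7e69115082) (nat_lit 780250536)]
noncomputable def e16_47 : List Rx := [
  Rx.mk (nat_lit 313) (nat_lit 1) (nat_lit 7) (nat_lit 4) (nat_lit 3) (nat_lit 74) (nat_lit 75) r4_74 r4_75 (nat_lit 0) (nat_lit 0) (nat_lit 0) (nat_lit 0x7df5478d92) (nat_lit 1002262248),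
  Rx.mk (nat_lit 417) (nat_lit 1) (nat_lit 4) (nat_lit 6) (nat_lit 5) (nat_lit 75) (nat_lit 74) r4_75 r4_74 (nat_lit 0) (nat_lit 0) (nat_lit 0) (nat_lit 0x7df5478d92) (nat_lit 1002262248),
  Rx.mk (nat_lit 441) (nat_lit 1) (nat_lit 7) (nat_lit 6) (nat_lit 7) (nat_lit 76) (nat_lit 76) r4_76 r4_76 (nat_lit 0) (nat_lit 0) (nat_lit 0) (nat_lit 0x78e27fff1e) (nat_lit 3492537048),
  Rx.mk (nat_lit 445) (nat_lit 5) (nat_lit 7) (nat_lit 6) (nat_lit 7) (nat_lit 77) (nat_lit 77) r4_77 r4_77 (nat_lit 0) (nat_lit 0) (nat_lit 0) (nat_lit 0x7e7ff5222e) (nat_lit 736361496)]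
noncomputable def e16_48 : List Rx := [
  Rx.mk (nat_lit 289) (nat_lit 1) (nat_lit 4) (nat_lit 4) (nat_lit 1) (nat_lit 181) (nat_lit 351) r4_181 r9_351 (nat_lit 0) (nat_lit 0) (nat_lit 0) (nat_lit 0x6d142270c6) (nat_lit 9287608824),
  Rx.mk (nat_lit 297) (nat_lit 1) (nat_lit 5) (nat_lit 4) (nat_lit 3) (nat_lit 182) (nat_lit 352) r4_182 r9_352 (nat_lit 0) (nat_lit 0) (nat_lit 0) (nat_lit 0x7d99734b32) (nat_lit 1178335080),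
  Rx.mk (nat_lit 313) (nat_lit 1) (nat_lit 7) (nat_lit 4) (nat_lit 3) (nat_lit 183) (nat_lit 353) r4_183 r9_353 (nat_lit 0) (nat_lit 0) (nat_lit 0) (nat_lit 0x7cf5efa410) (nat_lit 1491856704),
  Rx.mk (nat_lit 417) (nat_lit 1) (nat_lit 4) (nat_lit 6) (nat_lit 5) (nat_lit 184) (nat_lit 354) r4_184 r9_354 (nat_lit 0) (nat_lit 0) (nat_lit 0) (nat_lit 0x7db5be2668) (nat_lit 1124087328),
  Rx.mk (nat_lit 425) (nat_lit 1) (nat_lit 5) (nat_lit 6) (nat_lit 7) (nat_lit 185) (nat_lit 355) r4_185 r9_355 (nat_lit 0) (nat_lit 0) (nat_lit 0) (nat_lit 0x7e4eb4f662) (nat_lit 830794536),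
  Rx.mk (nat_lit 441) (nat_lit 1) (nat_lit 7) (nat_lit 6) (nat_lit 7) (nat_lit 186) (nat_lit 356) r4_186 r9_356 (nat_lit 0) (nat_lit 0) (nat_lit 0) (nat_lit 0x7e49616ba0) (nat_lit 841007232),
  Rx.mk (nat_lit 445) (nat_lit 5) (nat_lit 7) (nat_lit 6) (nat_lit 7) (nat_lit 187) (nat_lit 350) r4_187 r9_350 (nat_lit 0) (nat_lit 0) (nat_lit 0) (nat_lit 0x7de10331ec) (nat_lit 1041122160)]
noncomputable def e16_49 : List Rx := [
  Rx.mk (nat_lit 313) (nat_lit 1) (nat_lit 7) (nat_lit 4) (nat_lit 3) (nat_lit 226) (nat_lit 358) r4_226 r10_358 (nat_lit 0) (nat_lit 0) (nat_lit 0) (nat_lit 0x7adab11a14) (nat_lit 2525801616),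
  Rx.mk (nat_lit 441) (nat_lit 1) (nat_lit 7) (nat_lit 6) (nat_lit 7) (nat_lit 227) (nat_lit 359) r4_227 r10_359 (nat_lit 0) (nat_lit 0) (nat_lit 0) (nat_lit 0x7e63204f98) (nat_lit 791642592),
  Rx.mk (nat_lit 445) (nat_lit 5) (nat_lit 7) (nat_lit 6) (nat_lit 7) (nat_lit 228) (nat_lit 357) r4_228 r10_357 (nat_lit 0) (nat_lit 0) (nat_lit 0) (nat_lit 0x7e80048138) (nat_lit 736246368)]
noncomputable def e16_50 : List Rx := [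
  Rx.mk (nat_lit 289) (nat_lit 1) (nat_lit 4) (nat_lit 4) (nat_lit 1) (nat_lit 188) (nat_lit 46) r4_188 r10_46 (nat_lit 0) (nat_lit 0) (nat_lit 0) (nat_lit 0x7d74889a02) (nat_lit 1249119144),
  Rx.mk (nat_lit 297) (nat_lit 1) (nat_lit 5) (nat_lit 4) (nat_lit 3) (nat_lit 189) (nat_lit 48) r4_189 r10_48 (nat_lit 0) (nat_lit 0) (nat_lit 0) (nat_lit 0x7de345adc2) (nat_lit 1036789416),
  Rx.mk (nat_lit 313) (nat_lit 1) (nat_lit 7) (nat_lit 4) (nat_lit 3) (nat_lit 190) (nat_lit 50) r4_190 r10_50 (nat_lit 0) (nat_lit 0) (nat_lit 0) (nat_lit 0x7df171aaf4) (nat_lit 1009616400),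
  Rx.mk (nat_lit 417) (nat_lit 1) (nat_lit 4) (nat_lit 6) (nat_lit 5) (nat_lit 191) (nat_lit 47) r4_191 r10_47 (nat_lit 0) (nat_lit 0) (nat_lit 0) (nat_lit 0x7e25a6c76e) (nat_lit 909514008),
  Rx.mk (nat_lit 425) (nat_lit 1) (nat_lit 5) (nat_lit 6) (nat_lit 7) (nat_lit 192) (nat_lit 49) r4_192 r10_49 (nat_lit 0) (nat_lit 0) (nat_lit 0) (nat_lit 0x7df971caea) (nat_lit 994276296),
  Rx.mk (nat_lit 441) (nat_lit 1) (nat_lit 7) (nat_lit 6) (nat_lit 7) (nat_lit 193) (nat_lit 52) r4_193 r10_52 (nat_lit 0) (nat_lit 0) (nat_lit 0) (nat_lit 0x7df8e77390) (nat_lit 995312448),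
  Rx.mk (nat_lit 505) (nat_lit 1) (nat_lit 7) (nat_lit 7) (nat_lit 7) (nat_lit 194) (nat_lit 51) r4_194 r10_51 (nat_lit 0) (nat_lit 0) (nat_lit 0) (nat_lit 0x7e002a9f56) (nat_lit 981387576)]
noncomputable def e16_51 : List Rx := [
  Rx.mk (nat_lit 194) (nat_lit 2) (nat_lit 0) (nat_lit 3) (nat_lit 5) (nat_lit 195) (nat_lit 130) r4_195 r12_130 (nat_lit 0) (nat_lit 0) (nat_lit 0) (nat_lit 0x7bc8cf5742) (nat_lit 2069234856),
  Rx.mk (nat_lit 210) (nat_lit 2) (nat_lit 2) (nat_lit 3) (nat_lit 7) (nat_lit 196) (nat_lit 133) r4_196 r12_133 (nat_lit 0) (nat_lit 0) (nat_lit 0) (nat_lit 0x7dfbbbc648) (nat_lit 989887392),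
  Rx.mk (nat_lit 283) (nat_lit 3) (nat_lit 3) (nat_lit 4) (nat_lit 3) (nat_lit 197) (nat_lit 126) r4_197 r12_126 (nat_lit 0) (nat_lit 0) (nat_lit 0) (nat_lit 0x7853b78c34) (nat_lit 3766308624),
  Rx.mk (nat_lit 315) (nat_lit 3) (nat_lit 7) (nat_lit 4) (nat_lit 3) (nat_lit 198) (nat_lit 128) r4_198 r12_128 (nat_lit 0) (nat_lit 0) (nat_lit 0) (nat_lit 0x79e6f15704) (nat_lit 2993165136),
  Rx.mk (nat_lit 443) (nat_lit 3) (nat_lit 7) (nat_lit 6) (nat_lit 7) (nat_lit 199) (nat_lit 129) r4_199 r12_129 (nat_lit 0) (nat_lit 0) (nat_lit 0) (nat_lit 0x7e8a3edd88) (nat_lit 716635296),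
  Rx.mk (nat_lit 448) (nat_lit 0) (nat_lit 0) (nat_lit 7) (nat_lit 4) (nat_lit 200) (nat_lit 124) r4_200 r12_124 (nat_lit 0) (nat_lit 0) (nat_lit 0) (nat_lit 0x6c41dd75e8) (nat_lit 9690778656),
  Rx.mk (nat_lit 450) (nat_lit 2) (nat_lit 0) (nat_lit 7) (nat_lit 5) (nat_lit 201) (nat_lit 131) r4_201 r12_131 (nat_lit 0) (nat_lit 0) (nat_lit 0) (nat_lit 0x7a87b0ca6c) (nat_lit 2684947824),
  Rx.mk (nat_lit 472) (nat_lit 0) (nat_lit 3) (nat_lit 7) (nat_lit 6) (nat_lit 202) (nat_lit 125) r4_202 r12_125 (nat_lit 0) (nat_lit 0) (nat_lit 0) (nat_lit 0x7e00441dbe) (nat_lit 981196632),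
  Rx.mk (nat_lit 474) (nat_lit 2) (nat_lit 3) (nat_lit 7) (nat_lit 7) (nat_lit 203) (nat_lit 132) r4_203 r12_132 (nat_lit 0) (nat_lit 0) (nat_lit 0) (nat_lit 0x7e76bad5dc) (nat_lit 754054704),
  Rx.mk (nat_lit 475) (nat_lit 3) (nat_lit 3) (nat_lit 7) (nat_lit 7) (nat_lit 204) (nat_lit 127) r4_204 r12_127 (nat_lit 0) (nat_lit 0) (nat_lit 0) (nat_lit 0x7e302d3efc) (nat_lit 889332912)]
noncomputable def e16_52 : List Rx := [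
  Rx.mk (nat_lit 256) (nat_lit 0) (nat_lit 0) (nat_lit 4) (nat_lit 0) (nat_lit 366) (nat_lit 169) r4_366 r12_169 (nat_lit 0) (nat_lit 0) (nat_lit 0) (nat_lit 0x656168c414) (nat_lit 13066269840),
  Rx.mk (nat_lit 257) (nat_lit 1) (nat_lit 0) (nat_lit 4) (nat_lit 1) (nat_lit 367) (nat_lit 172) r4_367 r12_172 (nat_lit 0) (nat_lit 0) (nat_lit 0) (nat_lit 0x70f7fe6f22) (nat_lit 7378151976),
  Rx.mk (nat_lit 258) (nat_lit 2) (nat_lit 0) (nat_lit 4) (nat_lit 1) (nat_lit 368) (nat_lit 174) r4_368 r12_174 (nat_lit 0) (nat_lit 0) (nat_lit 0) (nat_lit 0x754ac05eb0) (nat_lit 5256059328),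
  Rx.mk (nat_lit 280) (nat_lit 0) (nat_lit 3) (nat_lit 4) (nat_lit 2) (nat_lit 369) (nat_lit 177) r4_369 r12_177 (nat_lit 0) (nat_lit 0) (nat_lit 0) (nat_lit 0x6fa2424c3a) (nat_lit 8033393160),
  Rx.mk (nat_lit 281) (nat_lit 1) (nat_lit 3) (nat_lit 4) (nat_lit 3) (nat_lit 370) (nat_lit 179) r4_370 r12_179 (nat_lit 0) (nat_lit 0) (nat_lit 0) (nat_lit 0x7e34af96d2) (nat_lit 880687080),
  Rx.mk (nat_lit 282) (nat_lit 2) (nat_lit 3) (nat_lit 4) (nat_lit 3) (nat_lit 371) (nat_lit 182) r4_371 r12_182 (nat_lit 0) (nat_lit 0) (nat_lit 0) (nat_lit 0x7e20a9174e) (nat_lit 919083672),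
  Rx.mk (nat_lit 283) (nat_lit 3) (nat_lit 3) (nat_lit 4) (nat_lit 3) (nat_lit 372) (nat_lit 180) r4_372 r12_180 (nat_lit 0) (nat_lit 0) (nat_lit 0) (nat_lit 0x7d88ecd3aa) (nat_lit 1210020552),
  Rx.mk (nat_lit 320) (nat_lit 0) (nat_lit 0) (nat_lit 5) (nat_lit 4) (nat_lit 373) (nat_lit 170) r4_373 r12_170 (nat_lit 0) (nat_lit 0) (nat_lit 0) (nat_lit 0x7171c2f260) (nat_lit 7144675200),
  Rx.mk (nat_lit 322) (nat_lit 2) (nat_lit 0) (nat_lit 5) (nat_lit 5) (nat_lit 374) (nat_lit 175) r4_374 r12_175 (nat_lit 0) (nat_lit 0) (nat_lit 0) (nat_lit 0x7d15e364b4) (nat_lit 1430591760),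
  Rx.mk (nat_lit 344) (nat_lit 0) (nat_lit 3) (nat_lit 5) (nat_lit 6) (nat_lit 375) (nat_lit 178) r4_375 r12_178 (nat_lit 0) (nat_lit 0) (nat_lit 0) (nat_lit 0x7dd9dfe428) (nat_lit 1054808352),
  Rx.mk (nat_lit 346) (nat_lit 2) (nat_lit 3) (nat_lit 5) (nat_lit 7) (nat_lit 376) (nat_lit 183) r4_376 r12_183 (nat_lit 0) (nat_lit 0) (nat_lit 0) (nat_lit 0x7e4606e14c) (nat_lit 847437552),
  Rx.mk (nat_lit 347) (nat_lit 3) (nat_lit 3) (nat_lit 5) (nat_lit 7) (nat_lit 377) (nat_lit 181) r4_377 r12_181 (nat_lit 0) (nat_lit 0) (nat_lit 0) (nat_lit 0x7e0fdfe3f2) (nat_lit 951268968),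
  Rx.mk (nat_lit 448) (nat_lit 0) (nat_lit 0) (nat_lit 7) (nat_lit 4) (nat_lit 378) (nat_lit 171) r4_378 r12_171 (nat_lit 0) (nat_lit 0) (nat_lit 0) (nat_lit 0x6e2f0d2100) (nat_lit 8745145344),
  Rx.mk (nat_lit 449) (nat_lit 1) (nat_lit 0) (nat_lit 7) (nat_lit 5) (nat_lit 379) (nat_lit 173) r4_379 r12_173 (nat_lit 0) (nat_lit 0) (nat_lit 0) (nat_lit 0x7dad2f8f5a) (nat_lit 1140494472),
  Rx.mk (nat_lit 450) (nat_lit 2) (nat_lit 0) (nat_lit 7) (nat_lit 5) (nat_lit 380) (nat_lit 176) r4_380 r12_176 (nat_lit 0) (nat_lit 0) (nat_lit 0) (nat_lit 0x7e2ee053cc) (nat_lit 891826416)]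
noncomputable def e16_53 : List Rx := [
  Rx.mk (nat_lit 218) (nat_lit 2) (nat_lit 3) (nat_lit 3) (nat_lit 7) (nat_lit 58) (nat_lit 33) r4_58 r12_33 (nat_lit 0) (nat_lit 0) (nat_lit 0) (nat_lit 0x7e581e7fc0) (nat_lit 812747520),
  Rx.mk (nat_lit 315) (nat_lit 3) (nat_lit 7) (nat_lit 4) (nat_lit 3) (nat_lit 59) (nat_lit 27) r4_59 r12_27 (nat_lit 0) (nat_lit 0) (nat_lit 0) (nat_lit 0x7e7c8d78ac) (nat_lit 742890096),
  Rx.mk (nat_lit 443) (nat_lit 3) (nat_lit 7) (nat_lit 6) (nat_lit 7) (nat_lit 60) (nat_lit 32) r4_60 r12_32 (nat_lit 0) (nat_lit 0) (nat_lit 0) (nat_lit 0x7edd36edb4) (nat_lit 557550864),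
  Rx.mk (nat_lit 472) (nat_lit 0) (nat_lit 3) (nat_lit 7) (nat_lit 6) (nat_lit 61) (nat_lit 30) r4_61 r12_30 (nat_lit 0) (nat_lit 0) (nat_lit 0) (nat_lit 0x7e3684f97a) (nat_lit 877171464),
  Rx.mk (nat_lit 474) (nat_lit 2) (nat_lit 3) (nat_lit 7) (nat_lit 7) (nat_lit 62) (nat_lit 31) r4_62 r12_31 (nat_lit 0) (nat_lit 0) (nat_lit 0) (nat_lit 0x7eac08c0c8) (nat_lit 651849120),
  Rx.mk (nat_lit 504) (nat_lit 0) (nat_lit 7) (nat_lit 7) (nat_lit 6) (nat_lit 63) (nat_lit 28) r4_63 r12_28 (nat_lit 0) (nat_lit 0) (nat_lit 0) (nat_lit 0x7bf02e0130) (nat_lit 1993747392),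
  Rx.mk (nat_lit 507) (nat_lit 3) (nat_lit 7) (nat_lit 7) (nat_lit 7) (nat_lit 64) (nat_lit 29) r4_64 r12_29 (nat_lit 0) (nat_lit 0) (nat_lit 0) (nat_lit 0x7d62493e0a) (nat_lit 1284106824)]
noncomputable def e16_54 : List Rx := [
  Rx.mk (nat_lit 280) (nat_lit 0) (nat_lit 3) (nat_lit 4) (nat_lit 2) (nat_lit 343) (nat_lit 296) r4_343 r12_296 (nat_lit 0) (nat_lit 0) (nat_lit 0) (nat_lit 0x752fda0d30) (nat_lit 5307636672),
  Rx.mk (nat_lit 281) (nat_lit 1) (nat_lit 3) (nat_lit 4) (nat_lit 3) (nat_lit 344) (nat_lit 297) r4_344 r12_297 (nat_lit 0) (nat_lit 0) (nat_lit 0) (nat_lit 0x7defaae762) (nat_lit 1013022504),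
  Rx.mk (nat_lit 282) (nat_lit 2) (nat_lit 3) (nat_lit 4) (nat_lit 3) (nat_lit 345) (nat_lit 298) r4_345 r12_298 (nat_lit 0) (nat_lit 0) (nat_lit 0) (nat_lit 0x7ddf492d8e) (nat_lit 1044432792),
  Rx.mk (nat_lit 344) (nat_lit 0) (nat_lit 3) (nat_lit 5) (nat_lit 6) (nat_lit 346) (nat_lit 299) r4_346 r12_299 (nat_lit 0) (nat_lit 0) (nat_lit 0) (nat_lit 0x79f1f206ee) (nat_lit 2972068632),
  Rx.mk (nat_lit 345) (nat_lit 1) (nat_lit 3) (nat_lit 5) (nat_lit 7) (nat_lit 347) (nat_lit 300) r4_347 r12_300 (nat_lit 0) (nat_lit 0) (nat_lit 0) (nat_lit 0x7e5fb6663a) (nat_lit 798188040),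
  Rx.mk (nat_lit 346) (nat_lit 2) (nat_lit 3) (nat_lit 5) (nat_lit 7) (nat_lit 348) (nat_lit 301) r4_348 r12_301 (nat_lit 0) (nat_lit 0) (nat_lit 0) (nat_lit 0x7e24ff91e2) (nat_lit 910766376)]
noncomputable def e16_55 : List Rx := [
  Rx.mk (nat_lit 313) (nat_lit 1) (nat_lit 7) (nat_lit 4) (nat_lit 3) (nat_lit 65) (nat_lit 314) r4_65 r3_314 (nat_lit 0) (nat_lit 0) (nat_lit 0) (nat_lit 0x7ffc241dc2) (nat_lit 7399080),
  Rx.mk (nat_lit 417) (nat_lit 1) (nat_lit 4) (nat_lit 6) (nat_lit 5) (nat_lit 66) (nat_lit 315) r4_66 r3_315 (nat_lit 0) (nat_lit 0) (nat_lit 0) (nat_lit 0x7f9a3d1c94) (nat_lit 195116688),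
  Rx.mk (nat_lit 441) (nat_lit 1) (nat_lit 7) (nat_lit 6) (nat_lit 7) (nat_lit 67) (nat_lit 316) r4_67 r3_316 (nat_lit 0) (nat_lit 0) (nat_lit 0) (nat_lit 0x7fe190a714) (nat_lit 58355856)]
noncomputable def e16_56 : List Rx := [
  Rx.mk (nat_lit 313) (nat_lit 1) (nat_lit 7) (nat_lit 4) (nat_lit 3) (nat_lit 224) (nat_lit 304) r4_224 r12_304 (nat_lit 0) (nat_lit 0) (nat_lit 0) (nat_lit 0x7b83692dea) (nat_lit 2202300360),
  Rx.mk (nat_lit 441) (nat_lit 1) (nat_lit 7) (nat_lit 6) (nat_lit 7) (nat_lit 225) (nat_lit 305) r4_225 r12_305 (nat_lit 0) (nat_lit 0) (nat_lit 0) (nat_lit 0x7b9dce877a) (nat_lit 2151688968)]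
noncomputable def e16_57 : List Rx := [
  Rx.mk (nat_lit 313) (nat_lit 1) (nat_lit 7) (nat_lit 4) (nat_lit 3) (nat_lit 89) (nat_lit 67) r4_89 r12_67 (nat_lit 0) (nat_lit 0) (nat_lit 0) (nat_lit 0x7e028ed910) (nat_lit 976802112),
  Rx.mk (nat_lit 417) (nat_lit 1) (nat_lit 4) (nat_lit 6) (nat_lit 5) (nat_lit 90) (nat_lit 66) r4_90 r12_66 (nat_lit 0) (nat_lit 0) (nat_lit 0) (nat_lit 0x7f16fd1118) (nat_lit 446775264),
  Rx.mk (nat_lit 441) (nat_lit 1) (nat_lit 7) (nat_lit 6) (nat_lit 7) (nat_lit 91) (nat_lit 69) r4_91 r12_69 (nat_lit 0) (nat_lit 0) (nat_lit 0) (nat_lit 0x7eff7569aa) (nat_lit 491891400),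
  Rx.mk (nat_lit 505) (nat_lit 1) (nat_lit 7) (nat_lit 7) (nat_lit 7) (nat_lit 92) (nat_lit 68) r4_92 r12_68 (nat_lit 0) (nat_lit 0) (nat_lit 0) (nat_lit 0x7e502f9eb6) (nat_lit 827958456)]
noncomputable def e16 : List (List Rx) := [e16_0, e16_1, e16_2, e16_3, e16_4, e16_5, e16_6, e16_7, e16_8, e16_9, e16_10, e16_11, e16_12, e16_13, e16_14, e16_15, e16_16, e16_17, e16_18, e16_19, e16_20, e16_21, e16_22, e16_23, e16_24, e16_25, e16_26, e16_27, e16_28, e16_29, e16_30, e16_31, e16_32, e16_33, e16_34, e16_35, e16_36, e16_37, e16_38, e16_39, e16_40, e16_41, e16_42, e16_43, e16_44, e16_45, e16_46, e16_47, e16_48, e16_49, e16_50, e16_51, e16_52, e16_53, e16_54, e16_55, e16_56, e16_57]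
noncomputable def e17_0 : List Rx := [
  Rx.mk (nat_lit 2) (nat_lit 2) (nat_lit 0) (nat_lit 0) (nat_lit 1) (nat_lit 0) (nat_lit 147) r9_0 r0_147 (nat_lit 0) (nat_lit 0) (nat_lit 0) (nat_lit 0x6b26bfc8de) (nat_lit 10233624024),
  Rx.mk (nat_lit 18) (nat_lit 2) (nat_lit 2) (nat_lit 0) (nat_lit 3) (nat_lit 2) (nat_lit 150) r9_2 r0_150 (nat_lit 0) (nat_lit 0) (nat_lit 0) (nat_lit 0x78a7e5a8fe) (nat_lit 3604901976),
  Rx.mk (nat_lit 194) (nat_lit 2) (nat_lit 0) (nat_lit 3) (nat_lit 5) (nat_lit 1) (nat_lit 148) r9_1 r0_148 (nat_lit 0) (nat_lit 0) (nat_lit 0) (nat_lit 0x776bc40c54) (nat_lit 4211050896),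
  Rx.mk (nat_lit 210) (nat_lit 2) (nat_lit 2) (nat_lit 3) (nat_lit 7) (nat_lit 3) (nat_lit 151) r9_3 r0_151 (nat_lit 0) (nat_lit 0) (nat_lit 0) (nat_lit 0x7de51cf04c) (nat_lit 1033259760),
  Rx.mk (nat_lit 218) (nat_lit 2) (nat_lit 3) (nat_lit 3) (nat_lit 7) (nat_lit 4) (nat_lit 149) r9_4 r0_149 (nat_lit 0) (nat_lit 0) (nat_lit 0) (nat_lit 0x7de318b092) (nat_lit 1037126376)]
noncomputable def e17_1 : List Rx := [
  Rx.mk (nat_lit 2) (nat_lit 2) (nat_lit 0) (nat_lit 0) (nat_lit 1) (nat_lit 5) (nat_lit 161) r9_5 r1_161 (nat_lit 0) (nat_lit 0) (nat_lit 0) (nat_lit 0x6ef8548bc0) (nat_lit 8359213824),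
  Rx.mk (nat_lit 18) (nat_lit 2) (nat_lit 2) (nat_lit 0) (nat_lit 3) (nat_lit 7) (nat_lit 164) r9_7 r1_164 (nat_lit 0) (nat_lit 0) (nat_lit 0) (nat_lit 0x7303d06ff6) (nat_lit 6373780920),
  Rx.mk (nat_lit 194) (nat_lit 2) (nat_lit 0) (nat_lit 3) (nat_lit 5) (nat_lit 6) (nat_lit 162) r9_6 r1_162 (nat_lit 0) (nat_lit 0) (nat_lit 0) (nat_lit 0x7d8f13d134) (nat_lit 1198224144),
  Rx.mk (nat_lit 210) (nat_lit 2) (nat_lit 2) (nat_lit 3) (nat_lit 7) (nat_lit 8) (nat_lit 165) r9_8 r1_165 (nat_lit 0) (nat_lit 0) (nat_lit 0) (nat_lit 0x7da7a24834) (nat_lit 1151139600),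
  Rx.mk (nat_lit 218) (nat_lit 2) (nat_lit 3) (nat_lit 3) (nat_lit 7) (nat_lit 9) (nat_lit 163) r9_9 r1_163 (nat_lit 0) (nat_lit 0) (nat_lit 0) (nat_lit 0x7dfc5f3c10) (nat_lit 988663104)]
noncomputable def e17_2 : List Rx := [
  Rx.mk (nat_lit 2) (nat_lit 2) (nat_lit 0) (nat_lit 0) (nat_lit 1) (nat_lit 10) (nat_lit 160) r9_10 r2_160 (nat_lit 0) (nat_lit 0) (nat_lit 0) (nat_lit 0x716992d56a) (nat_lit 7160374728),
  Rx.mk (nat_lit 18) (nat_lit 2) (nat_lit 2) (nat_lit 0) (nat_lit 3) (nat_lit 12) (nat_lit 165) r9_12 r2_165 (nat_lit 0) (nat_lit 0) (nat_lit 0) (nat_lit 0x7d6c413e80) (nat_lit 1264992768),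
  Rx.mk (nat_lit 26) (nat_lit 2) (nat_lit 3) (nat_lit 0) (nat_lit 3) (nat_lit 14) (nat_lit 162) r9_14 r2_162 (nat_lit 0) (nat_lit 0) (nat_lit 0) (nat_lit 0x7d8494d92e) (nat_lit 1218349080),
  Rx.mk (nat_lit 66) (nat_lit 2) (nat_lit 0) (nat_lit 1) (nat_lit 5) (nat_lit 11) (nat_lit 161) r9_11 r2_161 (nat_lit 0) (nat_lit 0) (nat_lit 0) (nat_lit 0x7c4aec14f4) (nat_lit 1819758096),
  Rx.mk (nat_lit 82) (nat_lit 2) (nat_lit 2) (nat_lit 1) (nat_lit 7) (nat_lit 13) (nat_lit 166) r9_13 r2_166 (nat_lit 0) (nat_lit 0) (nat_lit 0) (nat_lit 0x7dce829a08) (nat_lit 1076598432),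
  Rx.mk (nat_lit 90) (nat_lit 2) (nat_lit 3) (nat_lit 1) (nat_lit 7) (nat_lit 15) (nat_lit 163) r9_15 r2_163 (nat_lit 0) (nat_lit 0) (nat_lit 0) (nat_lit 0x7de22aff6e) (nat_lit 1038906648),
  Rx.mk (nat_lit 218) (nat_lit 2) (nat_lit 3) (nat_lit 3) (nat_lit 7) (nat_lit 16) (nat_lit 164) r9_16 r2_164 (nat_lit 0) (nat_lit 0) (nat_lit 0) (nat_lit 0x7ddafc725e) (nat_lit 1052677080)]
noncomputable def e17_3 : List Rx := [
  Rx.mk (nat_lit 315) (nat_lit 3) (nat_lit 7) (nat_lit 4) (nat_lit 3) (nat_lit 19) (nat_lit 132) r9_19 r3_132 (nat_lit 0) (nat_lit 0) (nat_lit 0) (nat_lit 0x7fdf7708b0) (nat_lit 62382528),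
  Rx.mk (nat_lit 443) (nat_lit 3) (nat_lit 7) (nat_lit 6) (nat_lit 7) (nat_lit 20) (nat_lit 134) r9_20 r3_134 (nat_lit 0) (nat_lit 0) (nat_lit 0) (nat_lit 0x7ef4f9d16e) (nat_lit 511991064),
  Rx.mk (nat_lit 472) (nat_lit 0) (nat_lit 3) (nat_lit 7) (nat_lit 6) (nat_lit 17) (nat_lit 130) r9_17 r3_130 (nat_lit 0) (nat_lit 0) (nat_lit 0) (nat_lit 0x7fdf7708b0) (nat_lit 62382528),
  Rx.mk (nat_lit 474) (nat_lit 2) (nat_lit 3) (nat_lit 7) (nat_lit 7) (nat_lit 18) (nat_lit 135) r9_18 r3_135 (nat_lit 0) (nat_lit 0) (nat_lit 0) (nat_lit 0x7ef4f9d16e) (nat_lit 511991064),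
  Rx.mk (nat_lit 475) (nat_lit 3) (nat_lit 3) (nat_lit 7) (nat_lit 7) (nat_lit 22) (nat_lit 131) r9_22 r3_131 (nat_lit 0) (nat_lit 0) (nat_lit 0) (nat_lit 0x7e9b536c2e) (nat_lit 683885592),
  Rx.mk (nat_lit 507) (nat_lit 3) (nat_lit 7) (nat_lit 7) (nat_lit 7) (nat_lit 21) (nat_lit 133) r9_21 r3_133 (nat_lit 0) (nat_lit 0) (nat_lit 0) (nat_lit 0x7e9b536c2e) (nat_lit 683885592)]
noncomputable def e17_4 : List Rx := [
  Rx.mk (nat_lit 194) (nat_lit 2) (nat_lit 0) (nat_lit 3) (nat_lit 5) (nat_lit 24) (nat_lit 139) r9_24 r4_139 (nat_lit 0) (nat_lit 0) (nat_lit 0) (nat_lit 0x7afc995b6e) (nat_lit 2460787992),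
  Rx.mk (nat_lit 210) (nat_lit 2) (nat_lit 2) (nat_lit 3) (nat_lit 7) (nat_lit 25) (nat_lit 142) r9_25 r4_142 (nat_lit 0) (nat_lit 0) (nat_lit 0) (nat_lit 0x7db07b1a9e) (nat_lit 1134176472),
  Rx.mk (nat_lit 218) (nat_lit 2) (nat_lit 3) (nat_lit 3) (nat_lit 7) (nat_lit 27) (nat_lit 140) r9_27 r4_140 (nat_lit 0) (nat_lit 0) (nat_lit 0) (nat_lit 0x7e4a4f1cc4) (nat_lit 839226960),
  Rx.mk (nat_lit 315) (nat_lit 3) (nat_lit 7) (nat_lit 4) (nat_lit 3) (nat_lit 28) (nat_lit 136) r9_28 r4_136 (nat_lit 0) (nat_lit 0) (nat_lit 0) (nat_lit 0x7e412fcec2) (nat_lit 856717992),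
  Rx.mk (nat_lit 443) (nat_lit 3) (nat_lit 7) (nat_lit 6) (nat_lit 7) (nat_lit 29) (nat_lit 138) r9_29 r4_138 (nat_lit 0) (nat_lit 0) (nat_lit 0) (nat_lit 0x7dd37c8a64) (nat_lit 1067056848),
  Rx.mk (nat_lit 472) (nat_lit 0) (nat_lit 3) (nat_lit 7) (nat_lit 6) (nat_lit 23) (nat_lit 134) r9_23 r4_134 (nat_lit 0) (nat_lit 0) (nat_lit 0) (nat_lit 0x7d77e26462) (nat_lit 1242694440),
  Rx.mk (nat_lit 474) (nat_lit 2) (nat_lit 3) (nat_lit 7) (nat_lit 7) (nat_lit 26) (nat_lit 141) r9_26 r4_141 (nat_lit 0) (nat_lit 0) (nat_lit 0) (nat_lit 0x7dede0640c) (nat_lit 1016456688),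
  Rx.mk (nat_lit 475) (nat_lit 3) (nat_lit 3) (nat_lit 7) (nat_lit 7) (nat_lit 31) (nat_lit 135) r9_31 r4_135 (nat_lit 0) (nat_lit 0) (nat_lit 0) (nat_lit 0x7df0f592b6) (nat_lit 1010545848),
  Rx.mk (nat_lit 507) (nat_lit 3) (nat_lit 7) (nat_lit 7) (nat_lit 7) (nat_lit 30) (nat_lit 137) r9_30 r4_137 (nat_lit 0) (nat_lit 0) (nat_lit 0) (nat_lit 0x7dee99387e) (nat_lit 1015072344)]
noncomputable def e17_5 : List Rx := [
  Rx.mk (nat_lit 320) (nat_lit 0) (nat_lit 0) (nat_lit 5) (nat_lit 4) (nat_lit 38) (nat_lit 177) r9_38 r3_177 (nat_lit 0) (nat_lit 0) (nat_lit 0) (nat_lit 0x7143ff0ecc) (nat_lit 7232425200),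
  Rx.mk (nat_lit 321) (nat_lit 1) (nat_lit 0) (nat_lit 5) (nat_lit 5) (nat_lit 40) (nat_lit 178) r9_40 r3_178 (nat_lit 0) (nat_lit 0) (nat_lit 0) (nat_lit 0x7b2d0a942a) (nat_lit 2367904968),
  Rx.mk (nat_lit 322) (nat_lit 2) (nat_lit 0) (nat_lit 5) (nat_lit 5) (nat_lit 42) (nat_lit 179) r9_42 r3_179 (nat_lit 0) (nat_lit 0) (nat_lit 0) (nat_lit 0x7b7cf61522) (nat_lit 2214666792),
  Rx.mk (nat_lit 344) (nat_lit 0) (nat_lit 3) (nat_lit 5) (nat_lit 6) (nat_lit 39) (nat_lit 180) r9_39 r3_180 (nat_lit 0) (nat_lit 0) (nat_lit 0) (nat_lit 0x7f9d302d60) (nat_lit 189461376),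
  Rx.mk (nat_lit 345) (nat_lit 1) (nat_lit 3) (nat_lit 5) (nat_lit 7) (nat_lit 41) (nat_lit 181) r9_41 r3_181 (nat_lit 0) (nat_lit 0) (nat_lit 0) (nat_lit 0x7f23fc011c) (nat_lit 421857072),
  Rx.mk (nat_lit 346) (nat_lit 2) (nat_lit 3) (nat_lit 5) (nat_lit 7) (nat_lit 43) (nat_lit 182) r9_43 r3_182 (nat_lit 0) (nat_lit 0) (nat_lit 0) (nat_lit 0x7eeb84a8ca) (nat_lit 530125128)]
noncomputable def e17_6 : List Rx := [
  Rx.mk (nat_lit 66) (nat_lit 2) (nat_lit 0) (nat_lit 1) (nat_lit 5) (nat_lit 47) (nat_lit 198) r9_47 r0_198 (nat_lit 0) (nat_lit 0) (nat_lit 0) (nat_lit 0x7ccb9f693e) (nat_lit 1572988248),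
  Rx.mk (nat_lit 90) (nat_lit 2) (nat_lit 3) (nat_lit 1) (nat_lit 7) (nat_lit 48) (nat_lit 199) r9_48 r0_199 (nat_lit 0) (nat_lit 0) (nat_lit 0) (nat_lit 0x7e3eef92c8) (nat_lit 861033888),
  Rx.mk (nat_lit 320) (nat_lit 0) (nat_lit 0) (nat_lit 5) (nat_lit 4) (nat_lit 44) (nat_lit 195) r9_44 r0_195 (nat_lit 0) (nat_lit 0) (nat_lit 0) (nat_lit 0x604e485b2e) (nat_lit 15557210136),
  Rx.mk (nat_lit 321) (nat_lit 1) (nat_lit 0) (nat_lit 5) (nat_lit 5) (nat_lit 45) (nat_lit 196) r9_45 r0_196 (nat_lit 0) (nat_lit 0) (nat_lit 0) (nat_lit 0x7d6198a914) (nat_lit 1285429392),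
  Rx.mk (nat_lit 322) (nat_lit 2) (nat_lit 0) (nat_lit 5) (nat_lit 5) (nat_lit 46) (nat_lit 197) r9_46 r0_197 (nat_lit 0) (nat_lit 0) (nat_lit 0) (nat_lit 0x7e0e1fdff4) (nat_lit 954624528)]
noncomputable def e17_7 : List Rx := [
  Rx.mk (nat_lit 66) (nat_lit 2) (nat_lit 0) (nat_lit 1) (nat_lit 5) (nat_lit 49) (nat_lit 217) r9_49 r1_217 (nat_lit 0) (nat_lit 0) (nat_lit 0) (nat_lit 0x7c9f940a20) (nat_lit 1657438848),
  Rx.mk (nat_lit 82) (nat_lit 2) (nat_lit 2) (nat_lit 1) (nat_lit 7) (nat_lit 50) (nat_lit 219) r9_50 r1_219 (nat_lit 0) (nat_lit 0) (nat_lit 0) (nat_lit 0x7e4c769a4a) (nat_lit 835096392),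
  Rx.mk (nat_lit 90) (nat_lit 2) (nat_lit 3) (nat_lit 1) (nat_lit 7) (nat_lit 51) (nat_lit 218) r9_51 r1_218 (nat_lit 0) (nat_lit 0) (nat_lit 0) (nat_lit 0x7de940ce0a) (nat_lit 1025321544)]
noncomputable def e17_8 : List Rx := [
  Rx.mk (nat_lit 90) (nat_lit 2) (nat_lit 3) (nat_lit 1) (nat_lit 7) (nat_lit 58) (nat_lit 187) r9_58 r4_187 (nat_lit 0) (nat_lit 0) (nat_lit 0) (nat_lit 0x7de10331ec) (nat_lit 1041122160),
  Rx.mk (nat_lit 320) (nat_lit 0) (nat_lit 0) (nat_lit 5) (nat_lit 4) (nat_lit 52) (nat_lit 181) r9_52 r4_181 (nat_lit 0) (nat_lit 0) (nat_lit 0) (nat_lit 0x6d142270c6) (nat_lit 9287608824),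
  Rx.mk (nat_lit 321) (nat_lit 1) (nat_lit 0) (nat_lit 5) (nat_lit 5) (nat_lit 54) (nat_lit 182) r9_54 r4_182 (nat_lit 0) (nat_lit 0) (nat_lit 0) (nat_lit 0x7d99734b32) (nat_lit 1178335080),
  Rx.mk (nat_lit 322) (nat_lit 2) (nat_lit 0) (nat_lit 5) (nat_lit 5) (nat_lit 56) (nat_lit 183) r9_56 r4_183 (nat_lit 0) (nat_lit 0) (nat_lit 0) (nat_lit 0x7cf5efa410) (nat_lit 1491856704),
  Rx.mk (nat_lit 344) (nat_lit 0) (nat_lit 3) (nat_lit 5) (nat_lit 6) (nat_lit 53) (nat_lit 184) r9_53 r4_184 (nat_lit 0) (nat_lit 0) (nat_lit 0) (nat_lit 0x7db5be2668) (nat_lit 1124087328),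
  Rx.mk (nat_lit 345) (nat_lit 1) (nat_lit 3) (nat_lit 5) (nat_lit 7) (nat_lit 55) (nat_lit 185) r9_55 r4_185 (nat_lit 0) (nat_lit 0) (nat_lit 0) (nat_lit 0x7e4eb4f662) (nat_lit 830794536),
  Rx.mk (nat_lit 346) (nat_lit 2) (nat_lit 3) (nat_lit 5) (nat_lit 7) (nat_lit 57) (nat_lit 186) r9_57 r4_186 (nat_lit 0) (nat_lit 0) (nat_lit 0) (nat_lit 0x7e49616ba0) (nat_lit 841007232)]
noncomputable def e17_9 : List Rx := [
  Rx.mk (nat_lit 280) (nat_lit 0) (nat_lit 3) (nat_lit 4) (nat_lit 2) (nat_lit 59) (nat_lit 140) r9_59 r5_140 (nat_lit 0) (nat_lit 0) (nat_lit 0) (nat_lit 0x73ce85c3d6) (nat_lit 5985108792),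
  Rx.mk (nat_lit 281) (nat_lit 1) (nat_lit 3) (nat_lit 4) (nat_lit 3) (nat_lit 62) (nat_lit 143) r9_62 r5_143 (nat_lit 0) (nat_lit 0) (nat_lit 0) (nat_lit 0x7e4ca1579e) (nat_lit 834776280),
  Rx.mk (nat_lit 282) (nat_lit 2) (nat_lit 3) (nat_lit 4) (nat_lit 3) (nat_lit 64) (nat_lit 150) r9_64 r5_150 (nat_lit 0) (nat_lit 0) (nat_lit 0) (nat_lit 0x7e38dd93ee) (nat_lit 872673048),
  Rx.mk (nat_lit 283) (nat_lit 3) (nat_lit 3) (nat_lit 4) (nat_lit 3) (nat_lit 70) (nat_lit 145) r9_70 r5_145 (nat_lit 0) (nat_lit 0) (nat_lit 0) (nat_lit 0x7d97e9a3ce) (nat_lit 1181283480),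
  Rx.mk (nat_lit 315) (nat_lit 3) (nat_lit 7) (nat_lit 4) (nat_lit 3) (nat_lit 67) (nat_lit 147) r9_67 r5_147 (nat_lit 0) (nat_lit 0) (nat_lit 0) (nat_lit 0x7e8b7789fc) (nat_lit 714293424),
  Rx.mk (nat_lit 344) (nat_lit 0) (nat_lit 3) (nat_lit 5) (nat_lit 6) (nat_lit 60) (nat_lit 141) r9_60 r5_141 (nat_lit 0) (nat_lit 0) (nat_lit 0) (nat_lit 0x7e23b6c670) (nat_lit 913228992),
  Rx.mk (nat_lit 346) (nat_lit 2) (nat_lit 3) (nat_lit 5) (nat_lit 7) (nat_lit 65) (nat_lit 151) r9_65 r5_151 (nat_lit 0) (nat_lit 0) (nat_lit 0) (nat_lit 0x7de0283f9c) (nat_lit 1042762032),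
  Rx.mk (nat_lit 347) (nat_lit 3) (nat_lit 3) (nat_lit 5) (nat_lit 7) (nat_lit 71) (nat_lit 146) r9_71 r5_146 (nat_lit 0) (nat_lit 0) (nat_lit 0) (nat_lit 0x7dedcb0562) (nat_lit 1016616744),
  Rx.mk (nat_lit 379) (nat_lit 3) (nat_lit 7) (nat_lit 5) (nat_lit 7) (nat_lit 68) (nat_lit 148) r9_68 r5_148 (nat_lit 0) (nat_lit 0) (nat_lit 0) (nat_lit 0x7e727d79b6) (nat_lit 762183864),
  Rx.mk (nat_lit 443) (nat_lit 3) (nat_lit 7) (nat_lit 6) (nat_lit 7) (nat_lit 69) (nat_lit 149) r9_69 r5_149 (nat_lit 0) (nat_lit 0) (nat_lit 0) (nat_lit 0x7e762bfeca) (nat_lit 755124552),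
  Rx.mk (nat_lit 472) (nat_lit 0) (nat_lit 3) (nat_lit 7) (nat_lit 6) (nat_lit 61) (nat_lit 142) r9_61 r5_142 (nat_lit 0) (nat_lit 0) (nat_lit 0) (nat_lit 0x7e66094106) (nat_lit 786063096),
  Rx.mk (nat_lit 473) (nat_lit 1) (nat_lit 3) (nat_lit 7) (nat_lit 7) (nat_lit 63) (nat_lit 144) r9_63 r5_144 (nat_lit 0) (nat_lit 0) (nat_lit 0) (nat_lit 0x7def760ab0) (nat_lit 1013418432),
  Rx.mk (nat_lit 474) (nat_lit 2) (nat_lit 3) (nat_lit 7) (nat_lit 7) (nat_lit 66) (nat_lit 152) r9_66 r5_152 (nat_lit 0) (nat_lit 0) (nat_lit 0) (nat_lit 0x7decc13600) (nat_lit 1018607616)]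
noncomputable def e17_10 : List Rx := [
  Rx.mk (nat_lit 420) (nat_lit 4) (nat_lit 4) (nat_lit 6) (nat_lit 4) (nat_lit 77) (nat_lit 147) r9_77 r0_147 (nat_lit 0) (nat_lit 0) (nat_lit 0) (nat_lit 0x6b26bfc8de) (nat_lit 10233624024),
  Rx.mk (nat_lit 423) (nat_lit 7) (nat_lit 4) (nat_lit 6) (nat_lit 5) (nat_lit 79) (nat_lit 148) r9_79 r0_148 (nat_lit 0) (nat_lit 0) (nat_lit 0) (nat_lit 0x776bc40c54) (nat_lit 4211050896),
  Rx.mk (nat_lit 436) (nat_lit 4) (nat_lit 6) (nat_lit 6) (nat_lit 6) (nat_lit 78) (nat_lit 150) r9_78 r0_150 (nat_lit 0) (nat_lit 0) (nat_lit 0) (nat_lit 0x78a7e5a8fe) (nat_lit 3604901976),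
  Rx.mk (nat_lit 439) (nat_lit 7) (nat_lit 6) (nat_lit 6) (nat_lit 7) (nat_lit 80) (nat_lit 151) r9_80 r0_151 (nat_lit 0) (nat_lit 0) (nat_lit 0) (nat_lit 0x7de51cf04c) (nat_lit 1033259760),
  Rx.mk (nat_lit 447) (nat_lit 7) (nat_lit 7) (nat_lit 6) (nat_lit 7) (nat_lit 81) (nat_lit 149) r9_81 r0_149 (nat_lit 0) (nat_lit 0) (nat_lit 0) (nat_lit 0x7de318b092) (nat_lit 1037126376)]
noncomputable def e17_11 : List Rx := [
  Rx.mk (nat_lit 2) (nat_lit 2) (nat_lit 0) (nat_lit 0) (nat_lit 1) (nat_lit 91) (nat_lit 184) r9_91 r6_184 (nat_lit 0) (nat_lit 0) (nat_lit 0) (nat_lit 0x7664114888) (nat_lit 4716664992),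
  Rx.mk (nat_lit 18) (nat_lit 2) (nat_lit 2) (nat_lit 0) (nat_lit 3) (nat_lit 93) (nat_lit 187) r9_93 r6_187 (nat_lit 0) (nat_lit 0) (nat_lit 0) (nat_lit 0x7df0b276e8) (nat_lit 1011048480),
  Rx.mk (nat_lit 22) (nat_lit 6) (nat_lit 2) (nat_lit 0) (nat_lit 3) (nat_lit 86) (nat_lit 195) r9_86 r6_195 (nat_lit 0) (nat_lit 0) (nat_lit 0) (nat_lit 0x7d9efc12a0) (nat_lit 1167723648),
  Rx.mk (nat_lit 150) (nat_lit 6) (nat_lit 2) (nat_lit 2) (nat_lit 7) (nat_lit 87) (nat_lit 196) r9_87 r6_196 (nat_lit 0) (nat_lit 0) (nat_lit 0) (nat_lit 0x7db9dc0486) (nat_lit 1116194040),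
  Rx.mk (nat_lit 180) (nat_lit 4) (nat_lit 6) (nat_lit 2) (nat_lit 6) (nat_lit 84) (nat_lit 190) r9_84 r6_190 (nat_lit 0) (nat_lit 0) (nat_lit 0) (nat_lit 0x7d9efc12a0) (nat_lit 1167723648),
  Rx.mk (nat_lit 182) (nat_lit 6) (nat_lit 6) (nat_lit 2) (nat_lit 7) (nat_lit 85) (nat_lit 197) r9_85 r6_197 (nat_lit 0) (nat_lit 0) (nat_lit 0) (nat_lit 0x7db9dc0486) (nat_lit 1116194040),
  Rx.mk (nat_lit 194) (nat_lit 2) (nat_lit 0) (nat_lit 3) (nat_lit 5) (nat_lit 92) (nat_lit 185) r9_92 r6_185 (nat_lit 0) (nat_lit 0) (nat_lit 0) (nat_lit 0x7d1458fd5c) (nat_lit 1433545776),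
  Rx.mk (nat_lit 210) (nat_lit 2) (nat_lit 2) (nat_lit 3) (nat_lit 7) (nat_lit 94) (nat_lit 188) r9_94 r6_188 (nat_lit 0) (nat_lit 0) (nat_lit 0) (nat_lit 0x7decc01612) (nat_lit 1018616040),
  Rx.mk (nat_lit 218) (nat_lit 2) (nat_lit 3) (nat_lit 3) (nat_lit 7) (nat_lit 95) (nat_lit 186) r9_95 r6_186 (nat_lit 0) (nat_lit 0) (nat_lit 0) (nat_lit 0x7deb8e2932) (nat_lit 1020907368),
  Rx.mk (nat_lit 420) (nat_lit 4) (nat_lit 4) (nat_lit 6) (nat_lit 4) (nat_lit 82) (nat_lit 189) r9_82 r6_189 (nat_lit 0) (nat_lit 0) (nat_lit 0) (nat_lit 0x7664114888) (nat_lit 4716664992),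
  Rx.mk (nat_lit 423) (nat_lit 7) (nat_lit 4) (nat_lit 6) (nat_lit 5) (nat_lit 88) (nat_lit 192) r9_88 r6_192 (nat_lit 0) (nat_lit 0) (nat_lit 0) (nat_lit 0x7d1458fd5c) (nat_lit 1433545776),
  Rx.mk (nat_lit 436) (nat_lit 4) (nat_lit 6) (nat_lit 6) (nat_lit 6) (nat_lit 83) (nat_lit 191) r9_83 r6_191 (nat_lit 0) (nat_lit 0) (nat_lit 0) (nat_lit 0x7df0b276e8) (nat_lit 1011048480),
  Rx.mk (nat_lit 439) (nat_lit 7) (nat_lit 6) (nat_lit 6) (nat_lit 7) (nat_lit 89) (nat_lit 194) r9_89 r6_194 (nat_lit 0) (nat_lit 0) (nat_lit 0) (nat_lit 0x7decc01612) (nat_lit 1018616040),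
  Rx.mk (nat_lit 447) (nat_lit 7) (nat_lit 7) (nat_lit 6) (nat_lit 7) (nat_lit 90) (nat_lit 193) r9_90 r6_193 (nat_lit 0) (nat_lit 0) (nat_lit 0) (nat_lit 0x7deb8e2932) (nat_lit 1020907368)]
noncomputable def e17_12 : List Rx := [
  Rx.mk (nat_lit 420) (nat_lit 4) (nat_lit 4) (nat_lit 6) (nat_lit 4) (nat_lit 96) (nat_lit 161) r9_96 r1_161 (nat_lit 0) (nat_lit 0) (nat_lit 0) (nat_lit 0x6ef8548bc0) (nat_lit 8359213824),
  Rx.mk (nat_lit 423) (nat_lit 7) (nat_lit 4) (nat_lit 6) (nat_lit 5) (nat_lit 98) (nat_lit 162) r9_98 r1_162 (nat_lit 0) (nat_lit 0) (nat_lit 0) (nat_lit 0x7d8f13d134) (nat_lit 1198224144),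
  Rx.mk (nat_lit 436) (nat_lit 4) (nat_lit 6) (nat_lit 6) (nat_lit 6) (nat_lit 97) (nat_lit 164) r9_97 r1_164 (nat_lit 0) (nat_lit 0) (nat_lit 0) (nat_lit 0x7303d06ff6) (nat_lit 6373780920),
  Rx.mk (nat_lit 439) (nat_lit 7) (nat_lit 6) (nat_lit 6) (nat_lit 7) (nat_lit 99) (nat_lit 165) r9_99 r1_165 (nat_lit 0) (nat_lit 0) (nat_lit 0) (nat_lit 0x7da7a24834) (nat_lit 1151139600),
  Rx.mk (nat_lit 447) (nat_lit 7) (nat_lit 7) (nat_lit 6) (nat_lit 7) (nat_lit 100) (nat_lit 163) r9_100 r1_163 (nat_lit 0) (nat_lit 0) (nat_lit 0) (nat_lit 0x7dfc5f3c10) (nat_lit 988663104)]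
noncomputable def e17_13 : List Rx := [
  Rx.mk (nat_lit 150) (nat_lit 6) (nat_lit 2) (nat_lit 2) (nat_lit 7) (nat_lit 105) (nat_lit 155) r9_105 r7_155 (nat_lit 0) (nat_lit 0) (nat_lit 0) (nat_lit 0x7dcddbc476) (nat_lit 1077847992),
  Rx.mk (nat_lit 180) (nat_lit 4) (nat_lit 6) (nat_lit 2) (nat_lit 6) (nat_lit 103) (nat_lit 150) r9_103 r7_150 (nat_lit 0) (nat_lit 0) (nat_lit 0) (nat_lit 0x7df79428c6) (nat_lit 997853688),
  Rx.mk (nat_lit 182) (nat_lit 6) (nat_lit 6) (nat_lit 2) (nat_lit 7) (nat_lit 104) (nat_lit 156) r9_104 r7_156 (nat_lit 0) (nat_lit 0) (nat_lit 0) (nat_lit 0x7dc2cfd540) (nat_lit 1099028736),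
  Rx.mk (nat_lit 420) (nat_lit 4) (nat_lit 4) (nat_lit 6) (nat_lit 4) (nat_lit 101) (nat_lit 149) r9_101 r7_149 (nat_lit 0) (nat_lit 0) (nat_lit 0) (nat_lit 0x697a4a51e2) (nat_lit 11055149352),
  Rx.mk (nat_lit 423) (nat_lit 7) (nat_lit 4) (nat_lit 6) (nat_lit 5) (nat_lit 106) (nat_lit 152) r9_106 r7_152 (nat_lit 0) (nat_lit 0) (nat_lit 0) (nat_lit 0x7d98e3b42c) (nat_lit 1179410544),
  Rx.mk (nat_lit 436) (nat_lit 4) (nat_lit 6) (nat_lit 6) (nat_lit 6) (nat_lit 102) (nat_lit 151) r9_102 r7_151 (nat_lit 0) (nat_lit 0) (nat_lit 0) (nat_lit 0x7d71a7281c) (nat_lit 1254642480),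
  Rx.mk (nat_lit 439) (nat_lit 7) (nat_lit 6) (nat_lit 6) (nat_lit 7) (nat_lit 107) (nat_lit 154) r9_107 r7_154 (nat_lit 0) (nat_lit 0) (nat_lit 0) (nat_lit 0x7df9b7868e) (nat_lit 993754008),
  Rx.mk (nat_lit 447) (nat_lit 7) (nat_lit 7) (nat_lit 6) (nat_lit 7) (nat_lit 108) (nat_lit 153) r9_108 r7_153 (nat_lit 0) (nat_lit 0) (nat_lit 0) (nat_lit 0x7dddb20702) (nat_lit 1047482280)]
noncomputable def e17_14 : List Rx := [
  Rx.mk (nat_lit 2) (nat_lit 2) (nat_lit 0) (nat_lit 0) (nat_lit 1) (nat_lit 112) (nat_lit 149) r9_112 r7_149 (nat_lit 0) (nat_lit 0) (nat_lit 0) (nat_lit 0x697a4a51e2) (nat_lit 11055149352),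
  Rx.mk (nat_lit 18) (nat_lit 2) (nat_lit 2) (nat_lit 0) (nat_lit 3) (nat_lit 114) (nat_lit 151) r9_114 r7_151 (nat_lit 0) (nat_lit 0) (nat_lit 0) (nat_lit 0x7d71a7281c) (nat_lit 1254642480),
  Rx.mk (nat_lit 22) (nat_lit 6) (nat_lit 2) (nat_lit 0) (nat_lit 3) (nat_lit 110) (nat_lit 150) r9_110 r7_150 (nat_lit 0) (nat_lit 0) (nat_lit 0) (nat_lit 0x7df79428c6) (nat_lit 997853688),
  Rx.mk (nat_lit 150) (nat_lit 6) (nat_lit 2) (nat_lit 2) (nat_lit 7) (nat_lit 111) (nat_lit 156) r9_111 r7_156 (nat_lit 0) (nat_lit 0) (nat_lit 0) (nat_lit 0x7dc2cfd540) (nat_lit 1099028736),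
  Rx.mk (nat_lit 182) (nat_lit 6) (nat_lit 6) (nat_lit 2) (nat_lit 7) (nat_lit 109) (nat_lit 155) r9_109 r7_155 (nat_lit 0) (nat_lit 0) (nat_lit 0) (nat_lit 0x7dcddbc476) (nat_lit 1077847992),
  Rx.mk (nat_lit 194) (nat_lit 2) (nat_lit 0) (nat_lit 3) (nat_lit 5) (nat_lit 113) (nat_lit 152) r9_113 r7_152 (nat_lit 0) (nat_lit 0) (nat_lit 0) (nat_lit 0x7d98e3b42c) (nat_lit 1179410544),
  Rx.mk (nat_lit 210) (nat_lit 2) (nat_lit 2) (nat_lit 3) (nat_lit 7) (nat_lit 115) (nat_lit 154) r9_115 r7_154 (nat_lit 0) (nat_lit 0) (nat_lit 0) (nat_lit 0x7df9b7868e) (nat_lit 993754008),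
  Rx.mk (nat_lit 218) (nat_lit 2) (nat_lit 3) (nat_lit 3) (nat_lit 7) (nat_lit 116) (nat_lit 153) r9_116 r7_153 (nat_lit 0) (nat_lit 0) (nat_lit 0) (nat_lit 0x7dddb20702) (nat_lit 1047482280)]
noncomputable def e17_15 : List Rx := [
  Rx.mk (nat_lit 2) (nat_lit 2) (nat_lit 0) (nat_lit 0) (nat_lit 1) (nat_lit 120) (nat_lit 136) r9_120 r8_136 (nat_lit 0) (nat_lit 0) (nat_lit 0) (nat_lit 0x71a1bf9266) (nat_lit 7052665464),
  Rx.mk (nat_lit 18) (nat_lit 2) (nat_lit 2) (nat_lit 0) (nat_lit 3) (nat_lit 122) (nat_lit 141) r9_122 r8_141 (nat_lit 0) (nat_lit 0) (nat_lit 0) (nat_lit 0x7db930af3c) (nat_lit 1117477296),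
  Rx.mk (nat_lit 22) (nat_lit 6) (nat_lit 2) (nat_lit 0) (nat_lit 3) (nat_lit 117) (nat_lit 143) r9_117 r8_143 (nat_lit 0) (nat_lit 0) (nat_lit 0) (nat_lit 0x7dc6281fb8) (nat_lit 1092615264),
  Rx.mk (nat_lit 26) (nat_lit 2) (nat_lit 3) (nat_lit 0) (nat_lit 3) (nat_lit 124) (nat_lit 138) r9_124 r8_138 (nat_lit 0) (nat_lit 0) (nat_lit 0) (nat_lit 0x7ddb1ef036) (nat_lit 1052418744),
  Rx.mk (nat_lit 66) (nat_lit 2) (nat_lit 0) (nat_lit 1) (nat_lit 5) (nat_lit 121) (nat_lit 137) r9_121 r8_137 (nat_lit 0) (nat_lit 0) (nat_lit 0) (nat_lit 0x7ce5b0c80e) (nat_lit 1523005848),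
  Rx.mk (nat_lit 82) (nat_lit 2) (nat_lit 2) (nat_lit 1) (nat_lit 7) (nat_lit 123) (nat_lit 142) r9_123 r8_142 (nat_lit 0) (nat_lit 0) (nat_lit 0) (nat_lit 0x7dda391e94) (nat_lit 1054140048),
  Rx.mk (nat_lit 86) (nat_lit 6) (nat_lit 2) (nat_lit 1) (nat_lit 7) (nat_lit 118) (nat_lit 144) r9_118 r8_144 (nat_lit 0) (nat_lit 0) (nat_lit 0) (nat_lit 0x7de07d5a4a) (nat_lit 1042124616),
  Rx.mk (nat_lit 90) (nat_lit 2) (nat_lit 3) (nat_lit 1) (nat_lit 7) (nat_lit 125) (nat_lit 139) r9_125 r8_139 (nat_lit 0) (nat_lit 0) (nat_lit 0) (nat_lit 0x7debf422d2) (nat_lit 1020143592),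
  Rx.mk (nat_lit 150) (nat_lit 6) (nat_lit 2) (nat_lit 2) (nat_lit 7) (nat_lit 119) (nat_lit 145) r9_119 r8_145 (nat_lit 0) (nat_lit 0) (nat_lit 0) (nat_lit 0x7de96beb58) (nat_lit 1024998624),
  Rx.mk (nat_lit 218) (nat_lit 2) (nat_lit 3) (nat_lit 3) (nat_lit 7) (nat_lit 126) (nat_lit 140) r9_126 r8_140 (nat_lit 0) (nat_lit 0) (nat_lit 0) (nat_lit 0x7decfd923a) (nat_lit 1018155528)]
noncomputable def e17_16 : List Rx := [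
  Rx.mk (nat_lit 315) (nat_lit 3) (nat_lit 7) (nat_lit 4) (nat_lit 3) (nat_lit 132) (nat_lit 134) r9_132 r4_134 (nat_lit 0) (nat_lit 0) (nat_lit 0) (nat_lit 0x7d77e26462) (nat_lit 1242694440),
  Rx.mk (nat_lit 423) (nat_lit 7) (nat_lit 4) (nat_lit 6) (nat_lit 5) (nat_lit 127) (nat_lit 139) r9_127 r4_139 (nat_lit 0) (nat_lit 0) (nat_lit 0) (nat_lit 0x7afc995b6e) (nat_lit 2460787992),
  Rx.mk (nat_lit 439) (nat_lit 7) (nat_lit 6) (nat_lit 6) (nat_lit 7) (nat_lit 128) (nat_lit 142) r9_128 r4_142 (nat_lit 0) (nat_lit 0) (nat_lit 0) (nat_lit 0x7db07b1a9e) (nat_lit 1134176472),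
  Rx.mk (nat_lit 443) (nat_lit 3) (nat_lit 7) (nat_lit 6) (nat_lit 7) (nat_lit 133) (nat_lit 141) r9_133 r4_141 (nat_lit 0) (nat_lit 0) (nat_lit 0) (nat_lit 0x7dede0640c) (nat_lit 1016456688),
  Rx.mk (nat_lit 447) (nat_lit 7) (nat_lit 7) (nat_lit 6) (nat_lit 7) (nat_lit 129) (nat_lit 140) r9_129 r4_140 (nat_lit 0) (nat_lit 0) (nat_lit 0) (nat_lit 0x7e4a4f1cc4) (nat_lit 839226960),
  Rx.mk (nat_lit 472) (nat_lit 0) (nat_lit 3) (nat_lit 7) (nat_lit 6) (nat_lit 130) (nat_lit 136) r9_130 r4_136 (nat_lit 0) (nat_lit 0) (nat_lit 0) (nat_lit 0x7e412fcec2) (nat_lit 856717992),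
  Rx.mk (nat_lit 474) (nat_lit 2) (nat_lit 3) (nat_lit 7) (nat_lit 7) (nat_lit 131) (nat_lit 138) r9_131 r4_138 (nat_lit 0) (nat_lit 0) (nat_lit 0) (nat_lit 0x7dd37c8a64) (nat_lit 1067056848),
  Rx.mk (nat_lit 475) (nat_lit 3) (nat_lit 3) (nat_lit 7) (nat_lit 7) (nat_lit 135) (nat_lit 137) r9_135 r4_137 (nat_lit 0) (nat_lit 0) (nat_lit 0) (nat_lit 0x7dee99387e) (nat_lit 1015072344),
  Rx.mk (nat_lit 507) (nat_lit 3) (nat_lit 7) (nat_lit 7) (nat_lit 7) (nat_lit 134) (nat_lit 135) r9_134 r4_135 (nat_lit 0) (nat_lit 0) (nat_lit 0) (nat_lit 0x7df0f592b6) (nat_lit 1010545848)]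
noncomputable def e17_17 : List Rx := [
  Rx.mk (nat_lit 22) (nat_lit 6) (nat_lit 2) (nat_lit 0) (nat_lit 3) (nat_lit 138) (nat_lit 150) r9_138 r9_150 (nat_lit 0) (nat_lit 0) (nat_lit 0) (nat_lit 0x7d9a3a5ec0) (nat_lit 1176844032),
  Rx.mk (nat_lit 150) (nat_lit 6) (nat_lit 2) (nat_lit 2) (nat_lit 7) (nat_lit 139) (nat_lit 152) r9_139 r9_152 (nat_lit 0) (nat_lit 0) (nat_lit 0) (nat_lit 0x7d9ed5d504) (nat_lit 1168010064),
  Rx.mk (nat_lit 180) (nat_lit 4) (nat_lit 6) (nat_lit 2) (nat_lit 6) (nat_lit 136) (nat_lit 145) r9_136 r9_145 (nat_lit 0) (nat_lit 0) (nat_lit 0) (nat_lit 0x7d9a3a5ec0) (nat_lit 1176844032),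
  Rx.mk (nat_lit 182) (nat_lit 6) (nat_lit 6) (nat_lit 2) (nat_lit 7) (nat_lit 137) (nat_lit 153) r9_137 r9_153 (nat_lit 0) (nat_lit 0) (nat_lit 0) (nat_lit 0x7d9ed5d504) (nat_lit 1168010064),
  Rx.mk (nat_lit 183) (nat_lit 7) (nat_lit 6) (nat_lit 2) (nat_lit 7) (nat_lit 143) (nat_lit 148) r9_143 r9_148 (nat_lit 0) (nat_lit 0) (nat_lit 0) (nat_lit 0x7d85a2085a) (nat_lit 1216332936),
  Rx.mk (nat_lit 194) (nat_lit 2) (nat_lit 0) (nat_lit 3) (nat_lit 5) (nat_lit 146) (nat_lit 141) r9_146 r9_141 (nat_lit 0) (nat_lit 0) (nat_lit 0) (nat_lit 0x7bb25cbe82) (nat_lit 2112275880),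
  Rx.mk (nat_lit 210) (nat_lit 2) (nat_lit 2) (nat_lit 3) (nat_lit 7) (nat_lit 147) (nat_lit 144) r9_147 r9_144 (nat_lit 0) (nat_lit 0) (nat_lit 0) (nat_lit 0x7d0c11a1da) (nat_lit 1449419400),
  Rx.mk (nat_lit 214) (nat_lit 6) (nat_lit 2) (nat_lit 3) (nat_lit 7) (nat_lit 140) (nat_lit 151) r9_140 r9_151 (nat_lit 0) (nat_lit 0) (nat_lit 0) (nat_lit 0x7d85a2085a) (nat_lit 1216332936),
  Rx.mk (nat_lit 218) (nat_lit 2) (nat_lit 3) (nat_lit 3) (nat_lit 7) (nat_lit 149) (nat_lit 142) r9_149 r9_142 (nat_lit 0) (nat_lit 0) (nat_lit 0) (nat_lit 0x7d0c11a1da) (nat_lit 1449419400),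
  Rx.mk (nat_lit 315) (nat_lit 3) (nat_lit 7) (nat_lit 4) (nat_lit 3) (nat_lit 150) (nat_lit 138) r9_150 r9_138 (nat_lit 0) (nat_lit 0) (nat_lit 0) (nat_lit 0x7d9a3a5ec0) (nat_lit 1176844032),
  Rx.mk (nat_lit 423) (nat_lit 7) (nat_lit 4) (nat_lit 6) (nat_lit 5) (nat_lit 141) (nat_lit 146) r9_141 r9_146 (nat_lit 0) (nat_lit 0) (nat_lit 0) (nat_lit 0x7bb25cbe82) (nat_lit 2112275880),
  Rx.mk (nat_lit 439) (nat_lit 7) (nat_lit 6) (nat_lit 6) (nat_lit 7) (nat_lit 142) (nat_lit 149) r9_142 r9_149 (nat_lit 0) (nat_lit 0) (nat_lit 0) (nat_lit 0x7d0c11a1da) (nat_lit 1449419400),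
  Rx.mk (nat_lit 443) (nat_lit 3) (nat_lit 7) (nat_lit 6) (nat_lit 7) (nat_lit 151) (nat_lit 140) r9_151 r9_140 (nat_lit 0) (nat_lit 0) (nat_lit 0) (nat_lit 0x7d85a2085a) (nat_lit 1216332936),
  Rx.mk (nat_lit 447) (nat_lit 7) (nat_lit 7) (nat_lit 6) (nat_lit 7) (nat_lit 144) (nat_lit 147) r9_144 r9_147 (nat_lit 0) (nat_lit 0) (nat_lit 0) (nat_lit 0x7d0c11a1da) (nat_lit 1449419400),
  Rx.mk (nat_lit 472) (nat_lit 0) (nat_lit 3) (nat_lit 7) (nat_lit 6) (nat_lit 145) (nat_lit 136) r9_145 r9_136 (nat_lit 0) (nat_lit 0) (nat_lit 0) (nat_lit 0x7d9a3a5ec0) (nat_lit 1176844032),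
  Rx.mk (nat_lit 474) (nat_lit 2) (nat_lit 3) (nat_lit 7) (nat_lit 7) (nat_lit 148) (nat_lit 143) r9_148 r9_143 (nat_lit 0) (nat_lit 0) (nat_lit 0) (nat_lit 0x7d85a2085a) (nat_lit 1216332936),
  Rx.mk (nat_lit 475) (nat_lit 3) (nat_lit 3) (nat_lit 7) (nat_lit 7) (nat_lit 153) (nat_lit 137) r9_153 r9_137 (nat_lit 0) (nat_lit 0) (nat_lit 0) (nat_lit 0x7d9ed5d504) (nat_lit 1168010064),
  Rx.mk (nat_lit 507) (nat_lit 3) (nat_lit 7) (nat_lit 7) (nat_lit 7) (nat_lit 152) (nat_lit 139) r9_152 r9_139 (nat_lit 0) (nat_lit 0) (nat_lit 0) (nat_lit 0x7d9ed5d504) (nat_lit 1168010064)]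
noncomputable def e17_18 : List Rx := [
  Rx.mk (nat_lit 283) (nat_lit 3) (nat_lit 3) (nat_lit 4) (nat_lit 3) (nat_lit 159) (nat_lit 138) r9_159 r10_138 (nat_lit 0) (nat_lit 0) (nat_lit 0) (nat_lit 0x7dcdcae584) (nat_lit 1077974352),
  Rx.mk (nat_lit 315) (nat_lit 3) (nat_lit 7) (nat_lit 4) (nat_lit 3) (nat_lit 157) (nat_lit 140) r9_157 r10_140 (nat_lit 0) (nat_lit 0) (nat_lit 0) (nat_lit 0x7dcfb546dc) (nat_lit 1074301488),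
  Rx.mk (nat_lit 443) (nat_lit 3) (nat_lit 7) (nat_lit 6) (nat_lit 7) (nat_lit 158) (nat_lit 141) r9_158 r10_141 (nat_lit 0) (nat_lit 0) (nat_lit 0) (nat_lit 0x7dfd420de2) (nat_lit 986964264),
  Rx.mk (nat_lit 447) (nat_lit 7) (nat_lit 7) (nat_lit 6) (nat_lit 7) (nat_lit 154) (nat_lit 143) r9_154 r10_143 (nat_lit 0) (nat_lit 0) (nat_lit 0) (nat_lit 0x7dd40501dc) (nat_lit 1066034736),
  Rx.mk (nat_lit 472) (nat_lit 0) (nat_lit 3) (nat_lit 7) (nat_lit 6) (nat_lit 155) (nat_lit 137) r9_155 r10_137 (nat_lit 0) (nat_lit 0) (nat_lit 0) (nat_lit 0x7df2fc7246) (nat_lit 1006659576),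
  Rx.mk (nat_lit 474) (nat_lit 2) (nat_lit 3) (nat_lit 7) (nat_lit 7) (nat_lit 156) (nat_lit 142) r9_156 r10_142 (nat_lit 0) (nat_lit 0) (nat_lit 0) (nat_lit 0x7df03efe20) (nat_lit 1011913344),
  Rx.mk (nat_lit 475) (nat_lit 3) (nat_lit 3) (nat_lit 7) (nat_lit 7) (nat_lit 160) (nat_lit 139) r9_160 r10_139 (nat_lit 0) (nat_lit 0) (nat_lit 0) (nat_lit 0x7df79428c6) (nat_lit 997853688)]
noncomputable def e17_19 : List Rx := [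
  Rx.mk (nat_lit 2) (nat_lit 2) (nat_lit 0) (nat_lit 0) (nat_lit 1) (nat_lit 161) (nat_lit 209) r9_161 r8_209 (nat_lit 0) (nat_lit 0) (nat_lit 0) (nat_lit 0x6a74ad2aba) (nat_lit 10575059976),
  Rx.mk (nat_lit 18) (nat_lit 2) (nat_lit 2) (nat_lit 0) (nat_lit 3) (nat_lit 164) (nat_lit 212) r9_164 r8_212 (nat_lit 0) (nat_lit 0) (nat_lit 0) (nat_lit 0x7dd319309a) (nat_lit 1067800968),
  Rx.mk (nat_lit 66) (nat_lit 2) (nat_lit 0) (nat_lit 1) (nat_lit 5) (nat_lit 162) (nat_lit 210) r9_162 r8_210 (nat_lit 0) (nat_lit 0) (nat_lit 0) (nat_lit 0x7df31b305a) (nat_lit 1006429320),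
  Rx.mk (nat_lit 74) (nat_lit 2) (nat_lit 1) (nat_lit 1) (nat_lit 7) (nat_lit 163) (nat_lit 211) r9_163 r8_211 (nat_lit 0) (nat_lit 0) (nat_lit 0) (nat_lit 0x7df6743ac6) (nat_lit 1000010232),
  Rx.mk (nat_lit 82) (nat_lit 2) (nat_lit 2) (nat_lit 1) (nat_lit 7) (nat_lit 165) (nat_lit 213) r9_165 r8_213 (nat_lit 0) (nat_lit 0) (nat_lit 0) (nat_lit 0x7de391c900) (nat_lit 1036219392)]
noncomputable def e17_20 : List Rx := [
  Rx.mk (nat_lit 320) (nat_lit 0) (nat_lit 0) (nat_lit 5) (nat_lit 4) (nat_lit 166) (nat_lit 321) r9_166 r0_321 (nat_lit 0) (nat_lit 0) (nat_lit 0) (nat_lit 0x6fbd3d3c70) (nat_lit 7981661376),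
  Rx.mk (nat_lit 321) (nat_lit 1) (nat_lit 0) (nat_lit 5) (nat_lit 5) (nat_lit 168) (nat_lit 323) r9_168 r0_323 (nat_lit 0) (nat_lit 0) (nat_lit 0) (nat_lit 0x7d7df942ee) (nat_lit 1231018776),
  Rx.mk (nat_lit 322) (nat_lit 2) (nat_lit 0) (nat_lit 5) (nat_lit 5) (nat_lit 170) (nat_lit 325) r9_170 r0_325 (nat_lit 0) (nat_lit 0) (nat_lit 0) (nat_lit 0x7a4fc4e962) (nat_lit 2792171304),
  Rx.mk (nat_lit 328) (nat_lit 0) (nat_lit 1) (nat_lit 5) (nat_lit 6) (nat_lit 167) (nat_lit 322) r9_167 r0_322 (nat_lit 0) (nat_lit 0) (nat_lit 0) (nat_lit 0x7d8ed7d4f4) (nat_lit 1198673424),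
  Rx.mk (nat_lit 329) (nat_lit 1) (nat_lit 1) (nat_lit 5) (nat_lit 7) (nat_lit 169) (nat_lit 324) r9_169 r0_324 (nat_lit 0) (nat_lit 0) (nat_lit 0) (nat_lit 0x7e0faa474c) (nat_lit 951670512),
  Rx.mk (nat_lit 330) (nat_lit 2) (nat_lit 1) (nat_lit 5) (nat_lit 7) (nat_lit 171) (nat_lit 326) r9_171 r0_326 (nat_lit 0) (nat_lit 0) (nat_lit 0) (nat_lit 0x7e1ddac436) (nat_lit 924463800)]
noncomputable def e17_21 : List Rx := [
  Rx.mk (nat_lit 328) (nat_lit 0) (nat_lit 1) (nat_lit 5) (nat_lit 6) (nat_lit 172) (nat_lit 306) r9_172 r1_306 (nat_lit 0) (nat_lit 0) (nat_lit 0) (nat_lit 0x7d78f9b2ec) (nat_lit 1240602480),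
  Rx.mk (nat_lit 329) (nat_lit 1) (nat_lit 1) (nat_lit 5) (nat_lit 7) (nat_lit 173) (nat_lit 307) r9_173 r1_307 (nat_lit 0) (nat_lit 0) (nat_lit 0) (nat_lit 0x7dea245fd0) (nat_lit 1023617088),
  Rx.mk (nat_lit 330) (nat_lit 2) (nat_lit 1) (nat_lit 5) (nat_lit 7) (nat_lit 174) (nat_lit 308) r9_174 r1_308 (nat_lit 0) (nat_lit 0) (nat_lit 0) (nat_lit 0x7d27c6e66a) (nat_lit 1396292040)]
noncomputable def e17_22 : List Rx := [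
  Rx.mk (nat_lit 320) (nat_lit 0) (nat_lit 0) (nat_lit 5) (nat_lit 4) (nat_lit 175) (nat_lit 355) r9_175 r4_355 (nat_lit 0) (nat_lit 0) (nat_lit 0) (nat_lit 0x79366ebfde) (nat_lit 3331604952),
  Rx.mk (nat_lit 321) (nat_lit 1) (nat_lit 0) (nat_lit 5) (nat_lit 5) (nat_lit 178) (nat_lit 358) r9_178 r4_358 (nat_lit 0) (nat_lit 0) (nat_lit 0) (nat_lit 0x7ddad0951c) (nat_lit 1053005616),
  Rx.mk (nat_lit 322) (nat_lit 2) (nat_lit 0) (nat_lit 5) (nat_lit 5) (nat_lit 181) (nat_lit 361) r9_181 r4_361 (nat_lit 0) (nat_lit 0) (nat_lit 0) (nat_lit 0x7dbf61cc24) (nat_lit 1105605072),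
  Rx.mk (nat_lit 328) (nat_lit 0) (nat_lit 1) (nat_lit 5) (nat_lit 6) (nat_lit 176) (nat_lit 356) r9_176 r4_356 (nat_lit 0) (nat_lit 0) (nat_lit 0) (nat_lit 0x7dac309f4a) (nat_lit 1142403912),
  Rx.mk (nat_lit 329) (nat_lit 1) (nat_lit 1) (nat_lit 5) (nat_lit 7) (nat_lit 179) (nat_lit 359) r9_179 r4_359 (nat_lit 0) (nat_lit 0) (nat_lit 0) (nat_lit 0x7de7bc6652) (nat_lit 1028230632),
  Rx.mk (nat_lit 330) (nat_lit 2) (nat_lit 1) (nat_lit 5) (nat_lit 7) (nat_lit 182) (nat_lit 362) r9_182 r4_362 (nat_lit 0) (nat_lit 0) (nat_lit 0) (nat_lit 0x7de1a88796) (nat_lit 1039883832),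
  Rx.mk (nat_lit 344) (nat_lit 0) (nat_lit 3) (nat_lit 5) (nat_lit 6) (nat_lit 177) (nat_lit 357) r9_177 r4_357 (nat_lit 0) (nat_lit 0) (nat_lit 0) (nat_lit 0x7dca67bbba) (nat_lit 1084469256),
  Rx.mk (nat_lit 345) (nat_lit 1) (nat_lit 3) (nat_lit 5) (nat_lit 7) (nat_lit 180) (nat_lit 360) r9_180 r4_360 (nat_lit 0) (nat_lit 0) (nat_lit 0) (nat_lit 0x7dd0b316fe) (nat_lit 1072400472)]
noncomputable def e17_23 : List Rx := [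
  Rx.mk (nat_lit 66) (nat_lit 2) (nat_lit 0) (nat_lit 1) (nat_lit 5) (nat_lit 188) (nat_lit 258) r9_188 r6_258 (nat_lit 0) (nat_lit 0) (nat_lit 0) (nat_lit 0x7dbd4fad48) (nat_lit 1109575584),
  Rx.mk (nat_lit 74) (nat_lit 2) (nat_lit 1) (nat_lit 1) (nat_lit 7) (nat_lit 190) (nat_lit 262) r9_190 r6_262 (nat_lit 0) (nat_lit 0) (nat_lit 0) (nat_lit 0x7deb762ab2) (nat_lit 1021087080),
  Rx.mk (nat_lit 320) (nat_lit 0) (nat_lit 0) (nat_lit 5) (nat_lit 4) (nat_lit 183) (nat_lit 255) r9_183 r6_255 (nat_lit 0) (nat_lit 0) (nat_lit 0) (nat_lit 0x753a13a98c) (nat_lit 5288031216),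
  Rx.mk (nat_lit 321) (nat_lit 1) (nat_lit 0) (nat_lit 5) (nat_lit 5) (nat_lit 185) (nat_lit 256) r9_185 r6_256 (nat_lit 0) (nat_lit 0) (nat_lit 0) (nat_lit 0x7dc0263fdc) (nat_lit 1104133680),
  Rx.mk (nat_lit 322) (nat_lit 2) (nat_lit 0) (nat_lit 5) (nat_lit 5) (nat_lit 187) (nat_lit 257) r9_187 r6_257 (nat_lit 0) (nat_lit 0) (nat_lit 0) (nat_lit 0x7de3610c0c) (nat_lit 1036584432),
  Rx.mk (nat_lit 328) (nat_lit 0) (nat_lit 1) (nat_lit 5) (nat_lit 6) (nat_lit 184) (nat_lit 259) r9_184 r6_259 (nat_lit 0) (nat_lit 0) (nat_lit 0) (nat_lit 0x7d8cac97aa) (nat_lit 1202832072),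
  Rx.mk (nat_lit 329) (nat_lit 1) (nat_lit 1) (nat_lit 5) (nat_lit 7) (nat_lit 186) (nat_lit 260) r9_186 r6_260 (nat_lit 0) (nat_lit 0) (nat_lit 0) (nat_lit 0x7deed8348e) (nat_lit 1014600600),
  Rx.mk (nat_lit 330) (nat_lit 2) (nat_lit 1) (nat_lit 5) (nat_lit 7) (nat_lit 189) (nat_lit 261) r9_189 r6_261 (nat_lit 0) (nat_lit 0) (nat_lit 0) (nat_lit 0x7df11510be) (nat_lit 1010309976)]
noncomputable def e17_24 : List Rx := [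
  Rx.mk (nat_lit 74) (nat_lit 2) (nat_lit 1) (nat_lit 1) (nat_lit 7) (nat_lit 194) (nat_lit 197) r9_194 r7_197 (nat_lit 0) (nat_lit 0) (nat_lit 0) (nat_lit 0x7dea641bd4) (nat_lit 1023139728),
  Rx.mk (nat_lit 328) (nat_lit 0) (nat_lit 1) (nat_lit 5) (nat_lit 6) (nat_lit 191) (nat_lit 194) r9_191 r7_194 (nat_lit 0) (nat_lit 0) (nat_lit 0) (nat_lit 0x7de3a84798) (nat_lit 1036050912),
  Rx.mk (nat_lit 329) (nat_lit 1) (nat_lit 1) (nat_lit 5) (nat_lit 7) (nat_lit 192) (nat_lit 195) r9_192 r7_195 (nat_lit 0) (nat_lit 0) (nat_lit 0) (nat_lit 0x7dd3600c2c) (nat_lit 1067270256),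
  Rx.mk (nat_lit 330) (nat_lit 2) (nat_lit 1) (nat_lit 5) (nat_lit 7) (nat_lit 193) (nat_lit 196) r9_193 r7_196 (nat_lit 0) (nat_lit 0) (nat_lit 0) (nat_lit 0x7de444fdcc) (nat_lit 1034877168)]
noncomputable def e17_25 : List Rx := [
  Rx.mk (nat_lit 66) (nat_lit 2) (nat_lit 0) (nat_lit 1) (nat_lit 5) (nat_lit 195) (nat_lit 355) r9_195 r7_355 (nat_lit 0) (nat_lit 0) (nat_lit 0) (nat_lit 0x7d5b2fafaa) (nat_lit 1297720008),
  Rx.mk (nat_lit 74) (nat_lit 2) (nat_lit 1) (nat_lit 1) (nat_lit 7) (nat_lit 196) (nat_lit 356) r9_196 r7_356 (nat_lit 0) (nat_lit 0) (nat_lit 0) (nat_lit 0x7db8a35812) (nat_lit 1118535912),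
  Rx.mk (nat_lit 82) (nat_lit 2) (nat_lit 2) (nat_lit 1) (nat_lit 7) (nat_lit 197) (nat_lit 357) r9_197 r7_357 (nat_lit 0) (nat_lit 0) (nat_lit 0) (nat_lit 0x7ded4a0d72) (nat_lit 1017582696)]
noncomputable def e17_26 : List Rx := [
  Rx.mk (nat_lit 320) (nat_lit 0) (nat_lit 0) (nat_lit 5) (nat_lit 4) (nat_lit 198) (nat_lit 198) r9_198 r9_198 (nat_lit 0) (nat_lit 0) (nat_lit 0) (nat_lit 0x72a5eb2ea8) (nat_lit 6553815840),
  Rx.mk (nat_lit 321) (nat_lit 1) (nat_lit 0) (nat_lit 5) (nat_lit 5) (nat_lit 201) (nat_lit 199) r9_201 r9_199 (nat_lit 0) (nat_lit 0) (nat_lit 0) (nat_lit 0x7d882f7f80) (nat_lit 1211438592),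
  Rx.mk (nat_lit 322) (nat_lit 2) (nat_lit 0) (nat_lit 5) (nat_lit 5) (nat_lit 204) (nat_lit 200) r9_204 r9_200 (nat_lit 0) (nat_lit 0) (nat_lit 0) (nat_lit 0x7dac8919c2) (nat_lit 1141741224),
  Rx.mk (nat_lit 328) (nat_lit 0) (nat_lit 1) (nat_lit 5) (nat_lit 6) (nat_lit 199) (nat_lit 201) r9_199 r9_201 (nat_lit 0) (nat_lit 0) (nat_lit 0) (nat_lit 0x7d882f7f80) (nat_lit 1211438592),
  Rx.mk (nat_lit 329) (nat_lit 1) (nat_lit 1) (nat_lit 5) (nat_lit 7) (nat_lit 202) (nat_lit 202) r9_202 r9_202 (nat_lit 0) (nat_lit 0) (nat_lit 0) (nat_lit 0x7de9472da4) (nat_lit 1025273808),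
  Rx.mk (nat_lit 330) (nat_lit 2) (nat_lit 1) (nat_lit 5) (nat_lit 7) (nat_lit 205) (nat_lit 203) r9_205 r9_203 (nat_lit 0) (nat_lit 0) (nat_lit 0) (nat_lit 0x7dd1b386f6) (nat_lit 1070479800),
  Rx.mk (nat_lit 344) (nat_lit 0) (nat_lit 3) (nat_lit 5) (nat_lit 6) (nat_lit 200) (nat_lit 204) r9_200 r9_204 (nat_lit 0) (nat_lit 0) (nat_lit 0) (nat_lit 0x7dac8919c2) (nat_lit 1141741224),
  Rx.mk (nat_lit 345) (nat_lit 1) (nat_lit 3) (nat_lit 5) (nat_lit 7) (nat_lit 203) (nat_lit 205) r9_203 r9_205 (nat_lit 0) (nat_lit 0) (nat_lit 0) (nat_lit 0x7dd1b386f6) (nat_lit 1070479800)]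
noncomputable def e17_27 : List Rx := [
  Rx.mk (nat_lit 320) (nat_lit 0) (nat_lit 0) (nat_lit 5) (nat_lit 4) (nat_lit 206) (nat_lit 230) r9_206 r10_230 (nat_lit 0) (nat_lit 0) (nat_lit 0) (nat_lit 0x7db50971b4) (nat_lit 1125440784),
  Rx.mk (nat_lit 322) (nat_lit 2) (nat_lit 0) (nat_lit 5) (nat_lit 5) (nat_lit 209) (nat_lit 231) r9_209 r10_231 (nat_lit 0) (nat_lit 0) (nat_lit 0) (nat_lit 0x7def382e8e) (nat_lit 1013881752),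
  Rx.mk (nat_lit 328) (nat_lit 0) (nat_lit 1) (nat_lit 5) (nat_lit 6) (nat_lit 207) (nat_lit 232) r9_207 r10_232 (nat_lit 0) (nat_lit 0) (nat_lit 0) (nat_lit 0x7defa427ce) (nat_lit 1013073048),
  Rx.mk (nat_lit 330) (nat_lit 2) (nat_lit 1) (nat_lit 5) (nat_lit 7) (nat_lit 210) (nat_lit 233) r9_210 r10_233 (nat_lit 0) (nat_lit 0) (nat_lit 0) (nat_lit 0x7df680f9fa) (nat_lit 999914760),
  Rx.mk (nat_lit 344) (nat_lit 0) (nat_lit 3) (nat_lit 5) (nat_lit 6) (nat_lit 208) (nat_lit 234) r9_208 r10_234 (nat_lit 0) (nat_lit 0) (nat_lit 0) (nat_lit 0x7de652fcea) (nat_lit 1030937544),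
  Rx.mk (nat_lit 347) (nat_lit 3) (nat_lit 3) (nat_lit 5) (nat_lit 7) (nat_lit 211) (nat_lit 235) r9_211 r10_235 (nat_lit 0) (nat_lit 0) (nat_lit 0) (nat_lit 0x7deffe8228) (nat_lit 1012396320)]
noncomputable def e17_28 : List Rx := [
  Rx.mk (nat_lit 218) (nat_lit 2) (nat_lit 3) (nat_lit 3) (nat_lit 7) (nat_lit 221) (nat_lit 143) r9_221 r10_143 (nat_lit 0) (nat_lit 0) (nat_lit 0) (nat_lit 0x7dd40501dc) (nat_lit 1066034736),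
  Rx.mk (nat_lit 315) (nat_lit 3) (nat_lit 7) (nat_lit 4) (nat_lit 3) (nat_lit 222) (nat_lit 137) r9_222 r10_137 (nat_lit 0) (nat_lit 0) (nat_lit 0) (nat_lit 0x7df2fc7246) (nat_lit 1006659576),
  Rx.mk (nat_lit 443) (nat_lit 3) (nat_lit 7) (nat_lit 6) (nat_lit 7) (nat_lit 223) (nat_lit 142) r9_223 r10_142 (nat_lit 0) (nat_lit 0) (nat_lit 0) (nat_lit 0x7df03efe20) (nat_lit 1011913344),
  Rx.mk (nat_lit 472) (nat_lit 0) (nat_lit 3) (nat_lit 7) (nat_lit 6) (nat_lit 219) (nat_lit 140) r9_219 r10_140 (nat_lit 0) (nat_lit 0) (nat_lit 0) (nat_lit 0x7dcfb546dc) (nat_lit 1074301488),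
  Rx.mk (nat_lit 474) (nat_lit 2) (nat_lit 3) (nat_lit 7) (nat_lit 7) (nat_lit 220) (nat_lit 141) r9_220 r10_141 (nat_lit 0) (nat_lit 0) (nat_lit 0) (nat_lit 0x7dfd420de2) (nat_lit 986964264),
  Rx.mk (nat_lit 504) (nat_lit 0) (nat_lit 7) (nat_lit 7) (nat_lit 6) (nat_lit 218) (nat_lit 138) r9_218 r10_138 (nat_lit 0) (nat_lit 0) (nat_lit 0) (nat_lit 0x7dcdcae584) (nat_lit 1077974352),
  Rx.mk (nat_lit 507) (nat_lit 3) (nat_lit 7) (nat_lit 7) (nat_lit 7) (nat_lit 224) (nat_lit 139) r9_224 r10_139 (nat_lit 0) (nat_lit 0) (nat_lit 0) (nat_lit 0x7df79428c6) (nat_lit 997853688)]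
noncomputable def e17_29 : List Rx := [
  Rx.mk (nat_lit 280) (nat_lit 0) (nat_lit 3) (nat_lit 4) (nat_lit 2) (nat_lit 228) (nat_lit 345) r9_228 r5_345 (nat_lit 0) (nat_lit 0) (nat_lit 0) (nat_lit 0x73c25986a6) (nat_lit 6008448888),
  Rx.mk (nat_lit 281) (nat_lit 1) (nat_lit 3) (nat_lit 4) (nat_lit 3) (nat_lit 233) (nat_lit 350) r9_233 r5_350 (nat_lit 0) (nat_lit 0) (nat_lit 0) (nat_lit 0x7e77980808) (nat_lit 752397984),
  Rx.mk (nat_lit 282) (nat_lit 2) (nat_lit 3) (nat_lit 4) (nat_lit 3) (nat_lit 235) (nat_lit 354) r9_235 r5_354 (nat_lit 0) (nat_lit 0) (nat_lit 0) (nat_lit 0x7e7a70da78) (nat_lit 746939232),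
  Rx.mk (nat_lit 312) (nat_lit 0) (nat_lit 7) (nat_lit 4) (nat_lit 2) (nat_lit 225) (nat_lit 344) r9_225 r5_344 (nat_lit 0) (nat_lit 0) (nat_lit 0) (nat_lit 0x73c25986a6) (nat_lit 6008448888),
  Rx.mk (nat_lit 313) (nat_lit 1) (nat_lit 7) (nat_lit 4) (nat_lit 3) (nat_lit 230) (nat_lit 349) r9_230 r5_349 (nat_lit 0) (nat_lit 0) (nat_lit 0) (nat_lit 0x7e53650b5c) (nat_lit 821806128),
  Rx.mk (nat_lit 344) (nat_lit 0) (nat_lit 3) (nat_lit 5) (nat_lit 6) (nat_lit 229) (nat_lit 347) r9_229 r5_347 (nat_lit 0) (nat_lit 0) (nat_lit 0) (nat_lit 0x7e53650b5c) (nat_lit 821806128),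
  Rx.mk (nat_lit 345) (nat_lit 1) (nat_lit 3) (nat_lit 5) (nat_lit 7) (nat_lit 234) (nat_lit 352) r9_234 r5_352 (nat_lit 0) (nat_lit 0) (nat_lit 0) (nat_lit 0x7dcfcb657a) (nat_lit 1074135816),
  Rx.mk (nat_lit 346) (nat_lit 2) (nat_lit 3) (nat_lit 5) (nat_lit 7) (nat_lit 236) (nat_lit 355) r9_236 r5_355 (nat_lit 0) (nat_lit 0) (nat_lit 0) (nat_lit 0x7dcbe9e396) (nat_lit 1081577016),
  Rx.mk (nat_lit 376) (nat_lit 0) (nat_lit 7) (nat_lit 5) (nat_lit 6) (nat_lit 226) (nat_lit 346) r9_226 r5_346 (nat_lit 0) (nat_lit 0) (nat_lit 0) (nat_lit 0x7e77980808) (nat_lit 752397984),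
  Rx.mk (nat_lit 377) (nat_lit 1) (nat_lit 7) (nat_lit 5) (nat_lit 7) (nat_lit 231) (nat_lit 351) r9_231 r5_351 (nat_lit 0) (nat_lit 0) (nat_lit 0) (nat_lit 0x7dcfcb657a) (nat_lit 1074135816),
  Rx.mk (nat_lit 440) (nat_lit 0) (nat_lit 7) (nat_lit 6) (nat_lit 6) (nat_lit 227) (nat_lit 348) r9_227 r5_348 (nat_lit 0) (nat_lit 0) (nat_lit 0) (nat_lit 0x7e7a70da78) (nat_lit 746939232),
  Rx.mk (nat_lit 441) (nat_lit 1) (nat_lit 7) (nat_lit 6) (nat_lit 7) (nat_lit 232) (nat_lit 353) r9_232 r5_353 (nat_lit 0) (nat_lit 0) (nat_lit 0) (nat_lit 0x7dcbe9e396) (nat_lit 1081577016)]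
noncomputable def e17_30 : List Rx := [
  Rx.mk (nat_lit 90) (nat_lit 2) (nat_lit 3) (nat_lit 1) (nat_lit 7) (nat_lit 243) (nat_lit 360) r9_243 r10_360 (nat_lit 0) (nat_lit 0) (nat_lit 0) (nat_lit 0x7de3898984) (nat_lit 1036281168),
  Rx.mk (nat_lit 344) (nat_lit 0) (nat_lit 3) (nat_lit 5) (nat_lit 6) (nat_lit 240) (nat_lit 361) r9_240 r10_361 (nat_lit 0) (nat_lit 0) (nat_lit 0) (nat_lit 0x7dee57fc92) (nat_lit 1015560936),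
  Rx.mk (nat_lit 345) (nat_lit 1) (nat_lit 3) (nat_lit 5) (nat_lit 7) (nat_lit 241) (nat_lit 362) r9_241 r10_362 (nat_lit 0) (nat_lit 0) (nat_lit 0) (nat_lit 0x7dded7f4a2) (nat_lit 1045280808),
  Rx.mk (nat_lit 346) (nat_lit 2) (nat_lit 3) (nat_lit 5) (nat_lit 7) (nat_lit 242) (nat_lit 363) r9_242 r10_363 (nat_lit 0) (nat_lit 0) (nat_lit 0) (nat_lit 0x7de67cfa4a) (nat_lit 1030623048)]
noncomputable def e17_31 : List Rx := [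
  Rx.mk (nat_lit 312) (nat_lit 0) (nat_lit 7) (nat_lit 4) (nat_lit 2) (nat_lit 244) (nat_lit 213) r9_244 r5_213 (nat_lit 0) (nat_lit 0) (nat_lit 0) (nat_lit 0x73ce85c3d6) (nat_lit 5985108792),
  Rx.mk (nat_lit 313) (nat_lit 1) (nat_lit 7) (nat_lit 4) (nat_lit 3) (nat_lit 249) (nat_lit 214) r9_249 r5_214 (nat_lit 0) (nat_lit 0) (nat_lit 0) (nat_lit 0x7e23b6c670) (nat_lit 913228992),
  Rx.mk (nat_lit 315) (nat_lit 3) (nat_lit 7) (nat_lit 4) (nat_lit 3) (nat_lit 254) (nat_lit 215) r9_254 r5_215 (nat_lit 0) (nat_lit 0) (nat_lit 0) (nat_lit 0x7e66094106) (nat_lit 786063096),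
  Rx.mk (nat_lit 376) (nat_lit 0) (nat_lit 7) (nat_lit 5) (nat_lit 6) (nat_lit 245) (nat_lit 216) r9_245 r5_216 (nat_lit 0) (nat_lit 0) (nat_lit 0) (nat_lit 0x7e4ca1579e) (nat_lit 834776280),
  Rx.mk (nat_lit 379) (nat_lit 3) (nat_lit 7) (nat_lit 5) (nat_lit 7) (nat_lit 255) (nat_lit 217) r9_255 r5_217 (nat_lit 0) (nat_lit 0) (nat_lit 0) (nat_lit 0x7def760ab0) (nat_lit 1013418432),
  Rx.mk (nat_lit 440) (nat_lit 0) (nat_lit 7) (nat_lit 6) (nat_lit 6) (nat_lit 246) (nat_lit 220) r9_246 r5_220 (nat_lit 0) (nat_lit 0) (nat_lit 0) (nat_lit 0x7e38dd93ee) (nat_lit 872673048),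
  Rx.mk (nat_lit 441) (nat_lit 1) (nat_lit 7) (nat_lit 6) (nat_lit 7) (nat_lit 250) (nat_lit 221) r9_250 r5_221 (nat_lit 0) (nat_lit 0) (nat_lit 0) (nat_lit 0x7de0283f9c) (nat_lit 1042762032),
  Rx.mk (nat_lit 443) (nat_lit 3) (nat_lit 7) (nat_lit 6) (nat_lit 7) (nat_lit 256) (nat_lit 222) r9_256 r5_222 (nat_lit 0) (nat_lit 0) (nat_lit 0) (nat_lit 0x7decc13600) (nat_lit 1018607616),
  Rx.mk (nat_lit 472) (nat_lit 0) (nat_lit 3) (nat_lit 7) (nat_lit 6) (nat_lit 248) (nat_lit 210) r9_248 r5_210 (nat_lit 0) (nat_lit 0) (nat_lit 0) (nat_lit 0x7e8b7789fc) (nat_lit 714293424),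
  Rx.mk (nat_lit 473) (nat_lit 1) (nat_lit 3) (nat_lit 7) (nat_lit 7) (nat_lit 252) (nat_lit 211) r9_252 r5_211 (nat_lit 0) (nat_lit 0) (nat_lit 0) (nat_lit 0x7e727d79b6) (nat_lit 762183864),
  Rx.mk (nat_lit 474) (nat_lit 2) (nat_lit 3) (nat_lit 7) (nat_lit 7) (nat_lit 253) (nat_lit 212) r9_253 r5_212 (nat_lit 0) (nat_lit 0) (nat_lit 0) (nat_lit 0x7e762bfeca) (nat_lit 755124552),
  Rx.mk (nat_lit 504) (nat_lit 0) (nat_lit 7) (nat_lit 7) (nat_lit 6) (nat_lit 247) (nat_lit 218) r9_247 r5_218 (nat_lit 0) (nat_lit 0) (nat_lit 0) (nat_lit 0x7d97e9a3ce) (nat_lit 1181283480),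
  Rx.mk (nat_lit 505) (nat_lit 1) (nat_lit 7) (nat_lit 7) (nat_lit 7) (nat_lit 251) (nat_lit 219) r9_251 r5_219 (nat_lit 0) (nat_lit 0) (nat_lit 0) (nat_lit 0x7dedcb0562) (nat_lit 1016616744)]
noncomputable def e17_32 : List Rx := [
  Rx.mk (nat_lit 280) (nat_lit 0) (nat_lit 3) (nat_lit 4) (nat_lit 2) (nat_lit 260) (nat_lit 138) r9_260 r11_138 (nat_lit 0) (nat_lit 0) (nat_lit 0) (nat_lit 0x7170076e1a) (nat_lit 7147997064),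
  Rx.mk (nat_lit 281) (nat_lit 1) (nat_lit 3) (nat_lit 4) (nat_lit 3) (nat_lit 265) (nat_lit 144) r9_265 r11_144 (nat_lit 0) (nat_lit 0) (nat_lit 0) (nat_lit 0x7e73fee19e) (nat_lit 759297240),
  Rx.mk (nat_lit 282) (nat_lit 2) (nat_lit 3) (nat_lit 4) (nat_lit 3) (nat_lit 267) (nat_lit 151) r9_267 r11_151 (nat_lit 0) (nat_lit 0) (nat_lit 0) (nat_lit 0x7e504d3cdc) (nat_lit 827736624),
  Rx.mk (nat_lit 312) (nat_lit 0) (nat_lit 7) (nat_lit 4) (nat_lit 2) (nat_lit 257) (nat_lit 141) r9_257 r11_141 (nat_lit 0) (nat_lit 0) (nat_lit 0) (nat_lit 0x7170076e1a) (nat_lit 7147997064),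
  Rx.mk (nat_lit 313) (nat_lit 1) (nat_lit 7) (nat_lit 4) (nat_lit 3) (nat_lit 263) (nat_lit 146) r9_263 r11_146 (nat_lit 0) (nat_lit 0) (nat_lit 0) (nat_lit 0x7e2a064172) (nat_lit 901129320),
  Rx.mk (nat_lit 315) (nat_lit 3) (nat_lit 7) (nat_lit 4) (nat_lit 3) (nat_lit 270) (nat_lit 148) r9_270 r11_148 (nat_lit 0) (nat_lit 0) (nat_lit 0) (nat_lit 0x7e7b750a34) (nat_lit 744990480),
  Rx.mk (nat_lit 344) (nat_lit 0) (nat_lit 3) (nat_lit 5) (nat_lit 6) (nat_lit 261) (nat_lit 139) r9_261 r11_139 (nat_lit 0) (nat_lit 0) (nat_lit 0) (nat_lit 0x7e2a064172) (nat_lit 901129320),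
  Rx.mk (nat_lit 346) (nat_lit 2) (nat_lit 3) (nat_lit 5) (nat_lit 7) (nat_lit 268) (nat_lit 152) r9_268 r11_152 (nat_lit 0) (nat_lit 0) (nat_lit 0) (nat_lit 0x7df1f96278) (nat_lit 1008599904),
  Rx.mk (nat_lit 376) (nat_lit 0) (nat_lit 7) (nat_lit 5) (nat_lit 6) (nat_lit 258) (nat_lit 142) r9_258 r11_142 (nat_lit 0) (nat_lit 0) (nat_lit 0) (nat_lit 0x7e73fee19e) (nat_lit 759297240),
  Rx.mk (nat_lit 379) (nat_lit 3) (nat_lit 7) (nat_lit 5) (nat_lit 7) (nat_lit 271) (nat_lit 149) r9_271 r11_149 (nat_lit 0) (nat_lit 0) (nat_lit 0) (nat_lit 0x7df00ea126) (nat_lit 1012275576),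
  Rx.mk (nat_lit 440) (nat_lit 0) (nat_lit 7) (nat_lit 6) (nat_lit 6) (nat_lit 259) (nat_lit 143) r9_259 r11_143 (nat_lit 0) (nat_lit 0) (nat_lit 0) (nat_lit 0x7e504d3cdc) (nat_lit 827736624),
  Rx.mk (nat_lit 441) (nat_lit 1) (nat_lit 7) (nat_lit 6) (nat_lit 7) (nat_lit 264) (nat_lit 147) r9_264 r11_147 (nat_lit 0) (nat_lit 0) (nat_lit 0) (nat_lit 0x7df1f96278) (nat_lit 1008599904),
  Rx.mk (nat_lit 443) (nat_lit 3) (nat_lit 7) (nat_lit 6) (nat_lit 7) (nat_lit 272) (nat_lit 150) r9_272 r11_150 (nat_lit 0) (nat_lit 0) (nat_lit 0) (nat_lit 0x7dd0d29506) (nat_lit 1072164600),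
  Rx.mk (nat_lit 472) (nat_lit 0) (nat_lit 3) (nat_lit 7) (nat_lit 6) (nat_lit 262) (nat_lit 140) r9_262 r11_140 (nat_lit 0) (nat_lit 0) (nat_lit 0) (nat_lit 0x7e7b750a34) (nat_lit 744990480),
  Rx.mk (nat_lit 473) (nat_lit 1) (nat_lit 3) (nat_lit 7) (nat_lit 7) (nat_lit 266) (nat_lit 145) r9_266 r11_145 (nat_lit 0) (nat_lit 0) (nat_lit 0) (nat_lit 0x7df00ea126) (nat_lit 1012275576),
  Rx.mk (nat_lit 474) (nat_lit 2) (nat_lit 3) (nat_lit 7) (nat_lit 7) (nat_lit 269) (nat_lit 153) r9_269 r11_153 (nat_lit 0) (nat_lit 0) (nat_lit 0) (nat_lit 0x7dd0d29506) (nat_lit 1072164600)]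
noncomputable def e17_33 : List Rx := [
  Rx.mk (nat_lit 289) (nat_lit 1) (nat_lit 4) (nat_lit 4) (nat_lit 1) (nat_lit 273) (nat_lit 321) r9_273 r0_321 (nat_lit 0) (nat_lit 0) (nat_lit 0) (nat_lit 0x6fbd3d3c70) (nat_lit 7981661376),
  Rx.mk (nat_lit 297) (nat_lit 1) (nat_lit 5) (nat_lit 4) (nat_lit 3) (nat_lit 276) (nat_lit 322) r9_276 r0_322 (nat_lit 0) (nat_lit 0) (nat_lit 0) (nat_lit 0x7d8ed7d4f4) (nat_lit 1198673424),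
  Rx.mk (nat_lit 353) (nat_lit 1) (nat_lit 4) (nat_lit 5) (nat_lit 5) (nat_lit 274) (nat_lit 323) r9_274 r0_323 (nat_lit 0) (nat_lit 0) (nat_lit 0) (nat_lit 0x7d7df942ee) (nat_lit 1231018776),
  Rx.mk (nat_lit 361) (nat_lit 1) (nat_lit 5) (nat_lit 5) (nat_lit 7) (nat_lit 277) (nat_lit 324) r9_277 r0_324 (nat_lit 0) (nat_lit 0) (nat_lit 0) (nat_lit 0x7e0faa474c) (nat_lit 951670512),
  Rx.mk (nat_lit 417) (nat_lit 1) (nat_lit 4) (nat_lit 6) (nat_lit 5) (nat_lit 275) (nat_lit 325) r9_275 r0_325 (nat_lit 0) (nat_lit 0) (nat_lit 0) (nat_lit 0x7a4fc4e962) (nat_lit 2792171304),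
  Rx.mk (nat_lit 425) (nat_lit 1) (nat_lit 5) (nat_lit 6) (nat_lit 7) (nat_lit 278) (nat_lit 326) r9_278 r0_326 (nat_lit 0) (nat_lit 0) (nat_lit 0) (nat_lit 0x7e1ddac436) (nat_lit 924463800)]
noncomputable def e17_34 : List Rx := [
  Rx.mk (nat_lit 289) (nat_lit 1) (nat_lit 4) (nat_lit 4) (nat_lit 1) (nat_lit 281) (nat_lit 195) r9_281 r0_195 (nat_lit 0) (nat_lit 0) (nat_lit 0) (nat_lit 0x604e485b2e) (nat_lit 15557210136),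
  Rx.mk (nat_lit 353) (nat_lit 1) (nat_lit 4) (nat_lit 5) (nat_lit 5) (nat_lit 282) (nat_lit 196) r9_282 r0_196 (nat_lit 0) (nat_lit 0) (nat_lit 0) (nat_lit 0x7d6198a914) (nat_lit 1285429392),
  Rx.mk (nat_lit 417) (nat_lit 1) (nat_lit 4) (nat_lit 6) (nat_lit 5) (nat_lit 283) (nat_lit 197) r9_283 r0_197 (nat_lit 0) (nat_lit 0) (nat_lit 0) (nat_lit 0x7e0e1fdff4) (nat_lit 954624528),
  Rx.mk (nat_lit 421) (nat_lit 5) (nat_lit 4) (nat_lit 6) (nat_lit 5) (nat_lit 279) (nat_lit 198) r9_279 r0_198 (nat_lit 0) (nat_lit 0) (nat_lit 0) (nat_lit 0x7ccb9f693e) (nat_lit 1572988248),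
  Rx.mk (nat_lit 445) (nat_lit 5) (nat_lit 7) (nat_lit 6) (nat_lit 7) (nat_lit 280) (nat_lit 199) r9_280 r0_199 (nat_lit 0) (nat_lit 0) (nat_lit 0) (nat_lit 0x7e3eef92c8) (nat_lit 861033888)]
noncomputable def e17_35 : List Rx := [
  Rx.mk (nat_lit 289) (nat_lit 1) (nat_lit 4) (nat_lit 4) (nat_lit 1) (nat_lit 286) (nat_lit 433) r9_286 r6_433 (nat_lit 0) (nat_lit 0) (nat_lit 0) (nat_lit 0x753a13a98c) (nat_lit 5288031216),
  Rx.mk (nat_lit 297) (nat_lit 1) (nat_lit 5) (nat_lit 4) (nat_lit 3) (nat_lit 289) (nat_lit 434) r9_289 r6_434 (nat_lit 0) (nat_lit 0) (nat_lit 0) (nat_lit 0x7d8cac97aa) (nat_lit 1202832072),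
  Rx.mk (nat_lit 353) (nat_lit 1) (nat_lit 4) (nat_lit 5) (nat_lit 5) (nat_lit 287) (nat_lit 435) r9_287 r6_435 (nat_lit 0) (nat_lit 0) (nat_lit 0) (nat_lit 0x7dc0263fdc) (nat_lit 1104133680),
  Rx.mk (nat_lit 361) (nat_lit 1) (nat_lit 5) (nat_lit 5) (nat_lit 7) (nat_lit 290) (nat_lit 436) r9_290 r6_436 (nat_lit 0) (nat_lit 0) (nat_lit 0) (nat_lit 0x7deed8348e) (nat_lit 1014600600),
  Rx.mk (nat_lit 417) (nat_lit 1) (nat_lit 4) (nat_lit 6) (nat_lit 5) (nat_lit 288) (nat_lit 437) r9_288 r6_437 (nat_lit 0) (nat_lit 0) (nat_lit 0) (nat_lit 0x7de3610c0c) (nat_lit 1036584432),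
  Rx.mk (nat_lit 421) (nat_lit 5) (nat_lit 4) (nat_lit 6) (nat_lit 5) (nat_lit 284) (nat_lit 431) r9_284 r6_431 (nat_lit 0) (nat_lit 0) (nat_lit 0) (nat_lit 0x7dbd4fad48) (nat_lit 1109575584),
  Rx.mk (nat_lit 425) (nat_lit 1) (nat_lit 5) (nat_lit 6) (nat_lit 7) (nat_lit 291) (nat_lit 438) r9_291 r6_438 (nat_lit 0) (nat_lit 0) (nat_lit 0) (nat_lit 0x7df11510be) (nat_lit 1010309976),
  Rx.mk (nat_lit 429) (nat_lit 5) (nat_lit 5) (nat_lit 6) (nat_lit 7) (nat_lit 285) (nat_lit 432) r9_285 r6_432 (nat_lit 0) (nat_lit 0) (nat_lit 0) (nat_lit 0x7deb762ab2) (nat_lit 1021087080)]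
noncomputable def e17_36 : List Rx := [
  Rx.mk (nat_lit 420) (nat_lit 4) (nat_lit 4) (nat_lit 6) (nat_lit 4) (nat_lit 292) (nat_lit 230) r9_292 r2_230 (nat_lit 0) (nat_lit 0) (nat_lit 0) (nat_lit 0x716992d56a) (nat_lit 7160374728),
  Rx.mk (nat_lit 421) (nat_lit 5) (nat_lit 4) (nat_lit 6) (nat_lit 5) (nat_lit 295) (nat_lit 231) r9_295 r2_231 (nat_lit 0) (nat_lit 0) (nat_lit 0) (nat_lit 0x7c4aec14f4) (nat_lit 1819758096),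
  Rx.mk (nat_lit 436) (nat_lit 4) (nat_lit 6) (nat_lit 6) (nat_lit 6) (nat_lit 293) (nat_lit 235) r9_293 r2_235 (nat_lit 0) (nat_lit 0) (nat_lit 0) (nat_lit 0x7d6c413e80) (nat_lit 1264992768),
  Rx.mk (nat_lit 437) (nat_lit 5) (nat_lit 6) (nat_lit 6) (nat_lit 7) (nat_lit 296) (nat_lit 236) r9_296 r2_236 (nat_lit 0) (nat_lit 0) (nat_lit 0) (nat_lit 0x7dce829a08) (nat_lit 1076598432),
  Rx.mk (nat_lit 444) (nat_lit 4) (nat_lit 7) (nat_lit 6) (nat_lit 6) (nat_lit 294) (nat_lit 232) r9_294 r2_232 (nat_lit 0) (nat_lit 0) (nat_lit 0) (nat_lit 0x7d8494d92e) (nat_lit 1218349080),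
  Rx.mk (nat_lit 445) (nat_lit 5) (nat_lit 7) (nat_lit 6) (nat_lit 7) (nat_lit 297) (nat_lit 233) r9_297 r2_233 (nat_lit 0) (nat_lit 0) (nat_lit 0) (nat_lit 0x7de22aff6e) (nat_lit 1038906648),
  Rx.mk (nat_lit 447) (nat_lit 7) (nat_lit 7) (nat_lit 6) (nat_lit 7) (nat_lit 298) (nat_lit 234) r9_298 r2_234 (nat_lit 0) (nat_lit 0) (nat_lit 0) (nat_lit 0x7ddafc725e) (nat_lit 1052677080)]
noncomputable def e17_37 : List Rx := [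
  Rx.mk (nat_lit 420) (nat_lit 4) (nat_lit 4) (nat_lit 6) (nat_lit 4) (nat_lit 299) (nat_lit 209) r9_299 r8_209 (nat_lit 0) (nat_lit 0) (nat_lit 0) (nat_lit 0x6a74ad2aba) (nat_lit 10575059976),
  Rx.mk (nat_lit 421) (nat_lit 5) (nat_lit 4) (nat_lit 6) (nat_lit 5) (nat_lit 301) (nat_lit 210) r9_301 r8_210 (nat_lit 0) (nat_lit 0) (nat_lit 0) (nat_lit 0x7df31b305a) (nat_lit 1006429320),
  Rx.mk (nat_lit 429) (nat_lit 5) (nat_lit 5) (nat_lit 6) (nat_lit 7) (nat_lit 302) (nat_lit 211) r9_302 r8_211 (nat_lit 0) (nat_lit 0) (nat_lit 0) (nat_lit 0x7df6743ac6) (nat_lit 1000010232),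
  Rx.mk (nat_lit 436) (nat_lit 4) (nat_lit 6) (nat_lit 6) (nat_lit 6) (nat_lit 300) (nat_lit 212) r9_300 r8_212 (nat_lit 0) (nat_lit 0) (nat_lit 0) (nat_lit 0x7dd319309a) (nat_lit 1067800968),
  Rx.mk (nat_lit 437) (nat_lit 5) (nat_lit 6) (nat_lit 6) (nat_lit 7) (nat_lit 303) (nat_lit 213) r9_303 r8_213 (nat_lit 0) (nat_lit 0) (nat_lit 0) (nat_lit 0x7de391c900) (nat_lit 1036219392)]
noncomputable def e17_38 : List Rx := [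
  Rx.mk (nat_lit 180) (nat_lit 4) (nat_lit 6) (nat_lit 2) (nat_lit 6) (nat_lit 306) (nat_lit 143) r9_306 r8_143 (nat_lit 0) (nat_lit 0) (nat_lit 0) (nat_lit 0x7dc6281fb8) (nat_lit 1092615264),
  Rx.mk (nat_lit 181) (nat_lit 5) (nat_lit 6) (nat_lit 2) (nat_lit 7) (nat_lit 310) (nat_lit 144) r9_310 r8_144 (nat_lit 0) (nat_lit 0) (nat_lit 0) (nat_lit 0x7de07d5a4a) (nat_lit 1042124616),
  Rx.mk (nat_lit 182) (nat_lit 6) (nat_lit 6) (nat_lit 2) (nat_lit 7) (nat_lit 312) (nat_lit 145) r9_312 r8_145 (nat_lit 0) (nat_lit 0) (nat_lit 0) (nat_lit 0x7de96beb58) (nat_lit 1024998624),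
  Rx.mk (nat_lit 420) (nat_lit 4) (nat_lit 4) (nat_lit 6) (nat_lit 4) (nat_lit 304) (nat_lit 136) r9_304 r8_136 (nat_lit 0) (nat_lit 0) (nat_lit 0) (nat_lit 0x71a1bf9266) (nat_lit 7052665464),
  Rx.mk (nat_lit 421) (nat_lit 5) (nat_lit 4) (nat_lit 6) (nat_lit 5) (nat_lit 308) (nat_lit 137) r9_308 r8_137 (nat_lit 0) (nat_lit 0) (nat_lit 0) (nat_lit 0x7ce5b0c80e) (nat_lit 1523005848),
  Rx.mk (nat_lit 436) (nat_lit 4) (nat_lit 6) (nat_lit 6) (nat_lit 6) (nat_lit 305) (nat_lit 141) r9_305 r8_141 (nat_lit 0) (nat_lit 0) (nat_lit 0) (nat_lit 0x7db930af3c) (nat_lit 1117477296),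
  Rx.mk (nat_lit 437) (nat_lit 5) (nat_lit 6) (nat_lit 6) (nat_lit 7) (nat_lit 309) (nat_lit 142) r9_309 r8_142 (nat_lit 0) (nat_lit 0) (nat_lit 0) (nat_lit 0x7dda391e94) (nat_lit 1054140048),
  Rx.mk (nat_lit 444) (nat_lit 4) (nat_lit 7) (nat_lit 6) (nat_lit 6) (nat_lit 307) (nat_lit 138) r9_307 r8_138 (nat_lit 0) (nat_lit 0) (nat_lit 0) (nat_lit 0x7ddb1ef036) (nat_lit 1052418744),
  Rx.mk (nat_lit 445) (nat_lit 5) (nat_lit 7) (nat_lit 6) (nat_lit 7) (nat_lit 311) (nat_lit 139) r9_311 r8_139 (nat_lit 0) (nat_lit 0) (nat_lit 0) (nat_lit 0x7debf422d2) (nat_lit 1020143592),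
  Rx.mk (nat_lit 447) (nat_lit 7) (nat_lit 7) (nat_lit 6) (nat_lit 7) (nat_lit 313) (nat_lit 140) r9_313 r8_140 (nat_lit 0) (nat_lit 0) (nat_lit 0) (nat_lit 0x7decfd923a) (nat_lit 1018155528)]
noncomputable def e17_39 : List Rx := [
  Rx.mk (nat_lit 421) (nat_lit 5) (nat_lit 4) (nat_lit 6) (nat_lit 5) (nat_lit 314) (nat_lit 217) r9_314 r1_217 (nat_lit 0) (nat_lit 0) (nat_lit 0) (nat_lit 0x7c9f940a20) (nat_lit 1657438848),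
  Rx.mk (nat_lit 437) (nat_lit 5) (nat_lit 6) (nat_lit 6) (nat_lit 7) (nat_lit 315) (nat_lit 219) r9_315 r1_219 (nat_lit 0) (nat_lit 0) (nat_lit 0) (nat_lit 0x7e4c769a4a) (nat_lit 835096392),
  Rx.mk (nat_lit 445) (nat_lit 5) (nat_lit 7) (nat_lit 6) (nat_lit 7) (nat_lit 316) (nat_lit 218) r9_316 r1_218 (nat_lit 0) (nat_lit 0) (nat_lit 0) (nat_lit 0x7de940ce0a) (nat_lit 1025321544)]
noncomputable def e17_40 : List Rx := [
  Rx.mk (nat_lit 421) (nat_lit 5) (nat_lit 4) (nat_lit 6) (nat_lit 5) (nat_lit 317) (nat_lit 355) r9_317 r7_355 (nat_lit 0) (nat_lit 0) (nat_lit 0) (nat_lit 0x7d5b2fafaa) (nat_lit 1297720008),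
  Rx.mk (nat_lit 429) (nat_lit 5) (nat_lit 5) (nat_lit 6) (nat_lit 7) (nat_lit 318) (nat_lit 356) r9_318 r7_356 (nat_lit 0) (nat_lit 0) (nat_lit 0) (nat_lit 0x7db8a35812) (nat_lit 1118535912),
  Rx.mk (nat_lit 437) (nat_lit 5) (nat_lit 6) (nat_lit 6) (nat_lit 7) (nat_lit 319) (nat_lit 357) r9_319 r7_357 (nat_lit 0) (nat_lit 0) (nat_lit 0) (nat_lit 0x7ded4a0d72) (nat_lit 1017582696)]
noncomputable def e17_41 : List Rx := [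
  Rx.mk (nat_lit 297) (nat_lit 1) (nat_lit 5) (nat_lit 4) (nat_lit 3) (nat_lit 320) (nat_lit 306) r9_320 r1_306 (nat_lit 0) (nat_lit 0) (nat_lit 0) (nat_lit 0x7d78f9b2ec) (nat_lit 1240602480),
  Rx.mk (nat_lit 361) (nat_lit 1) (nat_lit 5) (nat_lit 5) (nat_lit 7) (nat_lit 321) (nat_lit 307) r9_321 r1_307 (nat_lit 0) (nat_lit 0) (nat_lit 0) (nat_lit 0x7dea245fd0) (nat_lit 1023617088),
  Rx.mk (nat_lit 425) (nat_lit 1) (nat_lit 5) (nat_lit 6) (nat_lit 7) (nat_lit 322) (nat_lit 308) r9_322 r1_308 (nat_lit 0) (nat_lit 0) (nat_lit 0) (nat_lit 0x7d27c6e66a) (nat_lit 1396292040)]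
noncomputable def e17_42 : List Rx := [
  Rx.mk (nat_lit 329) (nat_lit 1) (nat_lit 1) (nat_lit 5) (nat_lit 7) (nat_lit 324) (nat_lit 355) r9_324 r2_355 (nat_lit 0) (nat_lit 0) (nat_lit 0) (nat_lit 0x7dd3c365f6) (nat_lit 1066526136),
  Rx.mk (nat_lit 361) (nat_lit 1) (nat_lit 5) (nat_lit 5) (nat_lit 7) (nat_lit 323) (nat_lit 354) r9_323 r2_354 (nat_lit 0) (nat_lit 0) (nat_lit 0) (nat_lit 0x7dd3c365f6) (nat_lit 1066526136)]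
noncomputable def e17_43 : List Rx := [
  Rx.mk (nat_lit 297) (nat_lit 1) (nat_lit 5) (nat_lit 4) (nat_lit 3) (nat_lit 326) (nat_lit 194) r9_326 r7_194 (nat_lit 0) (nat_lit 0) (nat_lit 0) (nat_lit 0x7de3a84798) (nat_lit 1036050912),
  Rx.mk (nat_lit 361) (nat_lit 1) (nat_lit 5) (nat_lit 5) (nat_lit 7) (nat_lit 327) (nat_lit 195) r9_327 r7_195 (nat_lit 0) (nat_lit 0) (nat_lit 0) (nat_lit 0x7dd3600c2c) (nat_lit 1067270256),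
  Rx.mk (nat_lit 425) (nat_lit 1) (nat_lit 5) (nat_lit 6) (nat_lit 7) (nat_lit 328) (nat_lit 196) r9_328 r7_196 (nat_lit 0) (nat_lit 0) (nat_lit 0) (nat_lit 0x7de444fdcc) (nat_lit 1034877168),
  Rx.mk (nat_lit 429) (nat_lit 5) (nat_lit 5) (nat_lit 6) (nat_lit 7) (nat_lit 325) (nat_lit 197) r9_325 r7_197 (nat_lit 0) (nat_lit 0) (nat_lit 0) (nat_lit 0x7dea641bd4) (nat_lit 1023139728)]
noncomputable def e17_44 : List Rx := [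
  Rx.mk (nat_lit 329) (nat_lit 1) (nat_lit 1) (nat_lit 5) (nat_lit 7) (nat_lit 330) (nat_lit 318) r9_330 r8_318 (nat_lit 0) (nat_lit 0) (nat_lit 0) (nat_lit 0x7df4a417ca) (nat_lit 1003486536),
  Rx.mk (nat_lit 361) (nat_lit 1) (nat_lit 5) (nat_lit 5) (nat_lit 7) (nat_lit 329) (nat_lit 317) r9_329 r8_317 (nat_lit 0) (nat_lit 0) (nat_lit 0) (nat_lit 0x7dd84fdd2a) (nat_lit 1057804488)]
noncomputable def e17_45 : List Rx := [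
  Rx.mk (nat_lit 329) (nat_lit 1) (nat_lit 1) (nat_lit 5) (nat_lit 7) (nat_lit 332) (nat_lit 317) r9_332 r8_317 (nat_lit 0) (nat_lit 0) (nat_lit 0) (nat_lit 0x7dd84fdd2a) (nat_lit 1057804488),
  Rx.mk (nat_lit 361) (nat_lit 1) (nat_lit 5) (nat_lit 5) (nat_lit 7) (nat_lit 331) (nat_lit 318) r9_331 r8_318 (nat_lit 0) (nat_lit 0) (nat_lit 0) (nat_lit 0x7df4a417ca) (nat_lit 1003486536)]
noncomputable def e17_46 : List Rx := [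
  Rx.mk (nat_lit 289) (nat_lit 1) (nat_lit 4) (nat_lit 4) (nat_lit 1) (nat_lit 339) (nat_lit 355) r9_339 r4_355 (nat_lit 0) (nat_lit 0) (nat_lit 0) (nat_lit 0x79366ebfde) (nat_lit 3331604952),
  Rx.mk (nat_lit 297) (nat_lit 1) (nat_lit 5) (nat_lit 4) (nat_lit 3) (nat_lit 342) (nat_lit 356) r9_342 r4_356 (nat_lit 0) (nat_lit 0) (nat_lit 0) (nat_lit 0x7dac309f4a) (nat_lit 1142403912),
  Rx.mk (nat_lit 313) (nat_lit 1) (nat_lit 7) (nat_lit 4) (nat_lit 3) (nat_lit 345) (nat_lit 357) r9_345 r4_357 (nat_lit 0) (nat_lit 0) (nat_lit 0) (nat_lit 0x7dca67bbba) (nat_lit 1084469256),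
  Rx.mk (nat_lit 353) (nat_lit 1) (nat_lit 4) (nat_lit 5) (nat_lit 5) (nat_lit 340) (nat_lit 358) r9_340 r4_358 (nat_lit 0) (nat_lit 0) (nat_lit 0) (nat_lit 0x7ddad0951c) (nat_lit 1053005616),
  Rx.mk (nat_lit 361) (nat_lit 1) (nat_lit 5) (nat_lit 5) (nat_lit 7) (nat_lit 343) (nat_lit 359) r9_343 r4_359 (nat_lit 0) (nat_lit 0) (nat_lit 0) (nat_lit 0x7de7bc6652) (nat_lit 1028230632),
  Rx.mk (nat_lit 377) (nat_lit 1) (nat_lit 7) (nat_lit 5) (nat_lit 7) (nat_lit 346) (nat_lit 360) r9_346 r4_360 (nat_lit 0) (nat_lit 0) (nat_lit 0) (nat_lit 0x7dd0b316fe) (nat_lit 1072400472),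
  Rx.mk (nat_lit 417) (nat_lit 1) (nat_lit 4) (nat_lit 6) (nat_lit 5) (nat_lit 341) (nat_lit 361) r9_341 r4_361 (nat_lit 0) (nat_lit 0) (nat_lit 0) (nat_lit 0x7dbf61cc24) (nat_lit 1105605072),
  Rx.mk (nat_lit 425) (nat_lit 1) (nat_lit 5) (nat_lit 6) (nat_lit 7) (nat_lit 344) (nat_lit 362) r9_344 r4_362 (nat_lit 0) (nat_lit 0) (nat_lit 0) (nat_lit 0x7de1a88796) (nat_lit 1039883832)]
noncomputable def e17_47 : List Rx := [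
  Rx.mk (nat_lit 289) (nat_lit 1) (nat_lit 4) (nat_lit 4) (nat_lit 1) (nat_lit 351) (nat_lit 181) r9_351 r4_181 (nat_lit 0) (nat_lit 0) (nat_lit 0) (nat_lit 0x6d142270c6) (nat_lit 9287608824),
  Rx.mk (nat_lit 313) (nat_lit 1) (nat_lit 7) (nat_lit 4) (nat_lit 3) (nat_lit 354) (nat_lit 184) r9_354 r4_184 (nat_lit 0) (nat_lit 0) (nat_lit 0) (nat_lit 0x7db5be2668) (nat_lit 1124087328),
  Rx.mk (nat_lit 353) (nat_lit 1) (nat_lit 4) (nat_lit 5) (nat_lit 5) (nat_lit 352) (nat_lit 182) r9_352 r4_182 (nat_lit 0) (nat_lit 0) (nat_lit 0) (nat_lit 0x7d99734b32) (nat_lit 1178335080),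
  Rx.mk (nat_lit 377) (nat_lit 1) (nat_lit 7) (nat_lit 5) (nat_lit 7) (nat_lit 355) (nat_lit 185) r9_355 r4_185 (nat_lit 0) (nat_lit 0) (nat_lit 0) (nat_lit 0x7e4eb4f662) (nat_lit 830794536),
  Rx.mk (nat_lit 417) (nat_lit 1) (nat_lit 4) (nat_lit 6) (nat_lit 5) (nat_lit 353) (nat_lit 183) r9_353 r4_183 (nat_lit 0) (nat_lit 0) (nat_lit 0) (nat_lit 0x7cf5efa410) (nat_lit 1491856704),
  Rx.mk (nat_lit 441) (nat_lit 1) (nat_lit 7) (nat_lit 6) (nat_lit 7) (nat_lit 356) (nat_lit 186) r9_356 r4_186 (nat_lit 0) (nat_lit 0) (nat_lit 0) (nat_lit 0x7e49616ba0) (nat_lit 841007232),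
  Rx.mk (nat_lit 445) (nat_lit 5) (nat_lit 7) (nat_lit 6) (nat_lit 7) (nat_lit 350) (nat_lit 187) r9_350 r4_187 (nat_lit 0) (nat_lit 0) (nat_lit 0) (nat_lit 0x7de10331ec) (nat_lit 1041122160)]
noncomputable def e17_48 : List Rx := [
  Rx.mk (nat_lit 289) (nat_lit 1) (nat_lit 4) (nat_lit 4) (nat_lit 1) (nat_lit 357) (nat_lit 357) r9_357 r9_357 (nat_lit 0) (nat_lit 0) (nat_lit 0) (nat_lit 0x72a5eb2ea8) (nat_lit 6553815840),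
  Rx.mk (nat_lit 297) (nat_lit 1) (nat_lit 5) (nat_lit 4) (nat_lit 3) (nat_lit 360) (nat_lit 358) r9_360 r9_358 (nat_lit 0) (nat_lit 0) (nat_lit 0) (nat_lit 0x7d882f7f80) (nat_lit 1211438592),
  Rx.mk (nat_lit 313) (nat_lit 1) (nat_lit 7) (nat_lit 4) (nat_lit 3) (nat_lit 363) (nat_lit 359) r9_363 r9_359 (nat_lit 0) (nat_lit 0) (nat_lit 0) (nat_lit 0x7dac8919c2) (nat_lit 1141741224),
  Rx.mk (nat_lit 353) (nat_lit 1) (nat_lit 4) (nat_lit 5) (nat_lit 5) (nat_lit 358) (nat_lit 360) r9_358 r9_360 (nat_lit 0) (nat_lit 0) (nat_lit 0) (nat_lit 0x7d882f7f80) (nat_lit 1211438592),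
  Rx.mk (nat_lit 361) (nat_lit 1) (nat_lit 5) (nat_lit 5) (nat_lit 7) (nat_lit 361) (nat_lit 361) r9_361 r9_361 (nat_lit 0) (nat_lit 0) (nat_lit 0) (nat_lit 0x7de9472da4) (nat_lit 1025273808),
  Rx.mk (nat_lit 377) (nat_lit 1) (nat_lit 7) (nat_lit 5) (nat_lit 7) (nat_lit 364) (nat_lit 362) r9_364 r9_362 (nat_lit 0) (nat_lit 0) (nat_lit 0) (nat_lit 0x7dd1b386f6) (nat_lit 1070479800),
  Rx.mk (nat_lit 417) (nat_lit 1) (nat_lit 4) (nat_lit 6) (nat_lit 5) (nat_lit 359) (nat_lit 363) r9_359 r9_363 (nat_lit 0) (nat_lit 0) (nat_lit 0) (nat_lit 0x7dac8919c2) (nat_lit 1141741224),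
  Rx.mk (nat_lit 425) (nat_lit 1) (nat_lit 5) (nat_lit 6) (nat_lit 7) (nat_lit 362) (nat_lit 364) r9_362 r9_364 (nat_lit 0) (nat_lit 0) (nat_lit 0) (nat_lit 0x7dd1b386f6) (nat_lit 1070479800)]
noncomputable def e17_49 : List Rx := [
  Rx.mk (nat_lit 313) (nat_lit 1) (nat_lit 7) (nat_lit 4) (nat_lit 3) (nat_lit 366) (nat_lit 361) r9_366 r10_361 (nat_lit 0) (nat_lit 0) (nat_lit 0) (nat_lit 0x7dee57fc92) (nat_lit 1015560936),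
  Rx.mk (nat_lit 377) (nat_lit 1) (nat_lit 7) (nat_lit 5) (nat_lit 7) (nat_lit 367) (nat_lit 362) r9_367 r10_362 (nat_lit 0) (nat_lit 0) (nat_lit 0) (nat_lit 0x7dded7f4a2) (nat_lit 1045280808),
  Rx.mk (nat_lit 441) (nat_lit 1) (nat_lit 7) (nat_lit 6) (nat_lit 7) (nat_lit 368) (nat_lit 363) r9_368 r10_363 (nat_lit 0) (nat_lit 0) (nat_lit 0) (nat_lit 0x7de67cfa4a) (nat_lit 1030623048),
  Rx.mk (nat_lit 445) (nat_lit 5) (nat_lit 7) (nat_lit 6) (nat_lit 7) (nat_lit 365) (nat_lit 360) r9_365 r10_360 (nat_lit 0) (nat_lit 0) (nat_lit 0) (nat_lit 0x7de3898984) (nat_lit 1036281168)]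
noncomputable def e17_50 : List Rx := [
  Rx.mk (nat_lit 289) (nat_lit 1) (nat_lit 4) (nat_lit 4) (nat_lit 1) (nat_lit 374) (nat_lit 230) r9_374 r10_230 (nat_lit 0) (nat_lit 0) (nat_lit 0) (nat_lit 0x7db50971b4) (nat_lit 1125440784),
  Rx.mk (nat_lit 297) (nat_lit 1) (nat_lit 5) (nat_lit 4) (nat_lit 3) (nat_lit 376) (nat_lit 232) r9_376 r10_232 (nat_lit 0) (nat_lit 0) (nat_lit 0) (nat_lit 0x7defa427ce) (nat_lit 1013073048),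
  Rx.mk (nat_lit 313) (nat_lit 1) (nat_lit 7) (nat_lit 4) (nat_lit 3) (nat_lit 378) (nat_lit 234) r9_378 r10_234 (nat_lit 0) (nat_lit 0) (nat_lit 0) (nat_lit 0x7de652fcea) (nat_lit 1030937544),
  Rx.mk (nat_lit 417) (nat_lit 1) (nat_lit 4) (nat_lit 6) (nat_lit 5) (nat_lit 375) (nat_lit 231) r9_375 r10_231 (nat_lit 0) (nat_lit 0) (nat_lit 0) (nat_lit 0x7def382e8e) (nat_lit 1013881752),
  Rx.mk (nat_lit 425) (nat_lit 1) (nat_lit 5) (nat_lit 6) (nat_lit 7) (nat_lit 377) (nat_lit 233) r9_377 r10_233 (nat_lit 0) (nat_lit 0) (nat_lit 0) (nat_lit 0x7df680f9fa) (nat_lit 999914760),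
  Rx.mk (nat_lit 505) (nat_lit 1) (nat_lit 7) (nat_lit 7) (nat_lit 7) (nat_lit 379) (nat_lit 235) r9_379 r10_235 (nat_lit 0) (nat_lit 0) (nat_lit 0) (nat_lit 0x7deffe8228) (nat_lit 1012396320)]
noncomputable def e17_51 : List Rx := [
  Rx.mk (nat_lit 283) (nat_lit 3) (nat_lit 3) (nat_lit 4) (nat_lit 3) (nat_lit 36) (nat_lit 135) r9_36 r12_135 (nat_lit 0) (nat_lit 0) (nat_lit 0) (nat_lit 0x7da88f3964) (nat_lit 1149364944),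
  Rx.mk (nat_lit 315) (nat_lit 3) (nat_lit 7) (nat_lit 4) (nat_lit 3) (nat_lit 34) (nat_lit 137) r9_34 r12_137 (nat_lit 0) (nat_lit 0) (nat_lit 0) (nat_lit 0x7e68347e50) (nat_lit 781904448),
  Rx.mk (nat_lit 443) (nat_lit 3) (nat_lit 7) (nat_lit 6) (nat_lit 7) (nat_lit 35) (nat_lit 138) r9_35 r12_138 (nat_lit 0) (nat_lit 0) (nat_lit 0) (nat_lit 0x7e84fe7194) (nat_lit 726704784),
  Rx.mk (nat_lit 472) (nat_lit 0) (nat_lit 3) (nat_lit 7) (nat_lit 6) (nat_lit 32) (nat_lit 134) r9_32 r12_134 (nat_lit 0) (nat_lit 0) (nat_lit 0) (nat_lit 0x7e7d860922) (nat_lit 741028392),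
  Rx.mk (nat_lit 474) (nat_lit 2) (nat_lit 3) (nat_lit 7) (nat_lit 7) (nat_lit 33) (nat_lit 139) r9_33 r12_139 (nat_lit 0) (nat_lit 0) (nat_lit 0) (nat_lit 0x7e0d9168dc) (nat_lit 955691568),
  Rx.mk (nat_lit 475) (nat_lit 3) (nat_lit 3) (nat_lit 7) (nat_lit 7) (nat_lit 37) (nat_lit 136) r9_37 r12_136 (nat_lit 0) (nat_lit 0) (nat_lit 0) (nat_lit 0x7db3658bf4) (nat_lit 1128585744)]
noncomputable def e17_52 : List Rx := [
  Rx.mk (nat_lit 320) (nat_lit 0) (nat_lit 0) (nat_lit 5) (nat_lit 4) (nat_lit 72) (nat_lit 197) r9_72 r12_197 (nat_lit 0) (nat_lit 0) (nat_lit 0) (nat_lit 0x6f5f417c8a) (nat_lit 8161864776),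
  Rx.mk (nat_lit 322) (nat_lit 2) (nat_lit 0) (nat_lit 5) (nat_lit 5) (nat_lit 74) (nat_lit 198) r9_74 r12_198 (nat_lit 0) (nat_lit 0) (nat_lit 0) (nat_lit 0x7d55b82728) (nat_lit 1308202272),
  Rx.mk (nat_lit 344) (nat_lit 0) (nat_lit 3) (nat_lit 5) (nat_lit 6) (nat_lit 73) (nat_lit 199) r9_73 r12_199 (nat_lit 0) (nat_lit 0) (nat_lit 0) (nat_lit 0x7e5a08811e) (nat_lit 809077464),
  Rx.mk (nat_lit 346) (nat_lit 2) (nat_lit 3) (nat_lit 5) (nat_lit 7) (nat_lit 75) (nat_lit 201) r9_75 r12_201 (nat_lit 0) (nat_lit 0) (nat_lit 0) (nat_lit 0x7e4050bcb4) (nat_lit 858388752),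
  Rx.mk (nat_lit 347) (nat_lit 3) (nat_lit 3) (nat_lit 5) (nat_lit 7) (nat_lit 76) (nat_lit 200) r9_76 r12_200 (nat_lit 0) (nat_lit 0) (nat_lit 0) (nat_lit 0x7dd2da9484) (nat_lit 1068269904)]
noncomputable def e17_53 : List Rx := [
  Rx.mk (nat_lit 315) (nat_lit 3) (nat_lit 7) (nat_lit 4) (nat_lit 3) (nat_lit 215) (nat_lit 134) r9_215 r12_134 (nat_lit 0) (nat_lit 0) (nat_lit 0) (nat_lit 0x7e7d860922) (nat_lit 741028392),
  Rx.mk (nat_lit 443) (nat_lit 3) (nat_lit 7) (nat_lit 6) (nat_lit 7) (nat_lit 216) (nat_lit 139) r9_216 r12_139 (nat_lit 0) (nat_lit 0) (nat_lit 0) (nat_lit 0x7e0d9168dc) (nat_lit 955691568),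
  Rx.mk (nat_lit 472) (nat_lit 0) (nat_lit 3) (nat_lit 7) (nat_lit 6) (nat_lit 213) (nat_lit 137) r9_213 r12_137 (nat_lit 0) (nat_lit 0) (nat_lit 0) (nat_lit 0x7e68347e50) (nat_lit 781904448),
  Rx.mk (nat_lit 474) (nat_lit 2) (nat_lit 3) (nat_lit 7) (nat_lit 7) (nat_lit 214) (nat_lit 138) r9_214 r12_138 (nat_lit 0) (nat_lit 0) (nat_lit 0) (nat_lit 0x7e84fe7194) (nat_lit 726704784),
  Rx.mk (nat_lit 504) (nat_lit 0) (nat_lit 7) (nat_lit 7) (nat_lit 6) (nat_lit 212) (nat_lit 135) r9_212 r12_135 (nat_lit 0) (nat_lit 0) (nat_lit 0) (nat_lit 0x7da88f3964) (nat_lit 1149364944),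
  Rx.mk (nat_lit 507) (nat_lit 3) (nat_lit 7) (nat_lit 7) (nat_lit 7) (nat_lit 217) (nat_lit 136) r9_217 r12_136 (nat_lit 0) (nat_lit 0) (nat_lit 0) (nat_lit 0x7db3658bf4) (nat_lit 1128585744)]
noncomputable def e17_54 : List Rx := [
  Rx.mk (nat_lit 344) (nat_lit 0) (nat_lit 3) (nat_lit 5) (nat_lit 6) (nat_lit 237) (nat_lit 306) r9_237 r12_306 (nat_lit 0) (nat_lit 0) (nat_lit 0) (nat_lit 0x7db5ac2788) (nat_lit 1124222112),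
  Rx.mk (nat_lit 345) (nat_lit 1) (nat_lit 3) (nat_lit 5) (nat_lit 7) (nat_lit 238) (nat_lit 307) r9_238 r12_307 (nat_lit 0) (nat_lit 0) (nat_lit 0) (nat_lit 0x7e63f48254) (nat_lit 790053264),
  Rx.mk (nat_lit 346) (nat_lit 2) (nat_lit 3) (nat_lit 5) (nat_lit 7) (nat_lit 239) (nat_lit 308) r9_239 r12_308 (nat_lit 0) (nat_lit 0) (nat_lit 0) (nat_lit 0x7e796d0ab6) (nat_lit 748885176)]
noncomputable def e17_55 : List Rx := [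
  Rx.mk (nat_lit 289) (nat_lit 1) (nat_lit 4) (nat_lit 4) (nat_lit 1) (nat_lit 333) (nat_lit 317) r9_333 r3_317 (nat_lit 0) (nat_lit 0) (nat_lit 0) (nat_lit 0x7143ff0ecc) (nat_lit 7232425200),
  Rx.mk (nat_lit 313) (nat_lit 1) (nat_lit 7) (nat_lit 4) (nat_lit 3) (nat_lit 336) (nat_lit 318) r9_336 r3_318 (nat_lit 0) (nat_lit 0) (nat_lit 0) (nat_lit 0x7f9d302d60) (nat_lit 189461376),
  Rx.mk (nat_lit 353) (nat_lit 1) (nat_lit 4) (nat_lit 5) (nat_lit 5) (nat_lit 334) (nat_lit 319) r9_334 r3_319 (nat_lit 0) (nat_lit 0) (nat_lit 0) (nat_lit 0x7b2d0a942a) (nat_lit 2367904968),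
  Rx.mk (nat_lit 377) (nat_lit 1) (nat_lit 7) (nat_lit 5) (nat_lit 7) (nat_lit 337) (nat_lit 320) r9_337 r3_320 (nat_lit 0) (nat_lit 0) (nat_lit 0) (nat_lit 0x7f23fc011c) (nat_lit 421857072),
  Rx.mk (nat_lit 417) (nat_lit 1) (nat_lit 4) (nat_lit 6) (nat_lit 5) (nat_lit 335) (nat_lit 321) r9_335 r3_321 (nat_lit 0) (nat_lit 0) (nat_lit 0) (nat_lit 0x7b7cf61522) (nat_lit 2214666792),
  Rx.mk (nat_lit 441) (nat_lit 1) (nat_lit 7) (nat_lit 6) (nat_lit 7) (nat_lit 338) (nat_lit 322) r9_338 r3_322 (nat_lit 0) (nat_lit 0) (nat_lit 0) (nat_lit 0x7eeb84a8ca) (nat_lit 530125128)]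
noncomputable def e17_56 : List Rx := [
  Rx.mk (nat_lit 313) (nat_lit 1) (nat_lit 7) (nat_lit 4) (nat_lit 3) (nat_lit 347) (nat_lit 306) r9_347 r12_306 (nat_lit 0) (nat_lit 0) (nat_lit 0) (nat_lit 0x7db5ac2788) (nat_lit 1124222112),
  Rx.mk (nat_lit 377) (nat_lit 1) (nat_lit 7) (nat_lit 5) (nat_lit 7) (nat_lit 348) (nat_lit 307) r9_348 r12_307 (nat_lit 0) (nat_lit 0) (nat_lit 0) (nat_lit 0x7e63f48254) (nat_lit 790053264),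
  Rx.mk (nat_lit 441) (nat_lit 1) (nat_lit 7) (nat_lit 6) (nat_lit 7) (nat_lit 349) (nat_lit 308) r9_349 r12_308 (nat_lit 0) (nat_lit 0) (nat_lit 0) (nat_lit 0x7e796d0ab6) (nat_lit 748885176)]
noncomputable def e17_57 : List Rx := [
  Rx.mk (nat_lit 289) (nat_lit 1) (nat_lit 4) (nat_lit 4) (nat_lit 1) (nat_lit 369) (nat_lit 197) r9_369 r12_197 (nat_lit 0) (nat_lit 0) (nat_lit 0) (nat_lit 0x6f5f417c8a) (nat_lit 8161864776),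
  Rx.mk (nat_lit 313) (nat_lit 1) (nat_lit 7) (nat_lit 4) (nat_lit 3) (nat_lit 371) (nat_lit 199) r9_371 r12_199 (nat_lit 0) (nat_lit 0) (nat_lit 0) (nat_lit 0x7e5a08811e) (nat_lit 809077464),
  Rx.mk (nat_lit 417) (nat_lit 1) (nat_lit 4) (nat_lit 6) (nat_lit 5) (nat_lit 370) (nat_lit 198) r9_370 r12_198 (nat_lit 0) (nat_lit 0) (nat_lit 0) (nat_lit 0x7d55b82728) (nat_lit 1308202272),
  Rx.mk (nat_lit 441) (nat_lit 1) (nat_lit 7) (nat_lit 6) (nat_lit 7) (nat_lit 372) (nat_lit 201) r9_372 r12_201 (nat_lit 0) (nat_lit 0) (nat_lit 0) (nat_lit 0x7e4050bcb4) (nat_lit 858388752),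
  Rx.mk (nat_lit 505) (nat_lit 1) (nat_lit 7) (nat_lit 7) (nat_lit 7) (nat_lit 373) (nat_lit 200) r9_373 r12_200 (nat_lit 0) (nat_lit 0) (nat_lit 0) (nat_lit 0x7dd2da9484) (nat_lit 1068269904)]
noncomputable def e17 : List (List Rx) := [e17_0, e17_1, e17_2, e17_3, e17_4, e17_5, e17_6, e17_7, e17_8, e17_9, e17_10, e17_11, e17_12, e17_13, e17_14, e17_15, e17_16, e17_17, e17_18, e17_19, e17_20, e17_21, e17_22, e17_23, e17_24, e17_25, e17_26, e17_27, e17_28, e17_29, e17_30, e17_31, e17_32, e17_33, e17_34, e17_35, e17_36, e17_37, e17_38, e17_39, e17_40, e17_41, e17_42, e17_43, e17_44, e17_45, e17_46, e17_47, e17_48, e17_49, e17_50, e17_51, e17_52, e17_53, e17_54, e17_55, e17_56, e17_57]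

end Pool.Agent.AKXS_0_25_WE
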