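import Pool.Agent.AKXS_0_25_WE.R0
import Pool.Agent.AKXS_0_25_WE.R1
import Pool.Agent.AKXS_0_25_WE.R2
import Pool.Agent.AKXS_0_25_WE.R3
import Pool.Agent.AKXS_0_25_WE.R4
import Pool.Agent.AKXS_0_25_WE.R5
import Pool.Agent.AKXS_0_25_WE.R6
import Pool.Agent.AKXS_0_25_WE.R7
import Pool.Agent.AKXS_0_25_WE.R8
import Pool.Agent.AKXS_0_25_WE.R9
import Pool.Agent.AKXS_0_25_WE.R10
import Pool.Agent.AKXS_0_25_WE.R11
import Pool.Agent.AKXS_0_25_WE.R12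

set_option autoImplicit false

namespace Pool.Agent.AKXS_0_25_WE

open Pool.Agent.AKX Pool.Agent.AKU

noncomputable def e18_0 : List Rx := [
  Rx.mk (nat_lit 18) (nat_lit 2) (nat_lit 2) (nat_lit 0) (nat_lit 3) (nat_lit 0) (nat_lit 152) r10_0 r0_152 (nat_lit 0) (nat_lit 0) (nat_lit 0) (nat_lit 0x7e1794a89e) (nat_lit 936493272),
  Rx.mk (nat_lit 210) (nat_lit 2) (nat_lit 2) (nat_lit 3) (nat_lit 7) (nat_lit 1) (nat_lit 153) r10_1 r0_153 (nat_lit 0) (nat_lit 0) (nat_lit 0) (nat_lit 0x7df4465da6) (nat_lit 1004188536)]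
noncomputable def e18_1 : List Rx := [
  Rx.mk (nat_lit 18) (nat_lit 2) (nat_lit 2) (nat_lit 0) (nat_lit 3) (nat_lit 2) (nat_lit 166) r10_2 r1_166 (nat_lit 0) (nat_lit 0) (nat_lit 0) (nat_lit 0x7d62cfd5a0) (nat_lit 1283098752),
  Rx.mk (nat_lit 82) (nat_lit 2) (nat_lit 2) (nat_lit 1) (nat_lit 7) (nat_lit 3) (nat_lit 167) r10_3 r1_167 (nat_lit 0) (nat_lit 0) (nat_lit 0) (nat_lit 0x7dfa55bcaa) (nat_lit 992569032),
  Rx.mk (nat_lit 210) (nat_lit 2) (nat_lit 2) (nat_lit 3) (nat_lit 7) (nat_lit 4) (nat_lit 168) r10_4 r1_168 (nat_lit 0) (nat_lit 0) (nat_lit 0) (nat_lit 0x7ddc34bed8) (nat_lit 1050338016)]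
noncomputable def e18_2 : List Rx := [
  Rx.mk (nat_lit 82) (nat_lit 2) (nat_lit 2) (nat_lit 1) (nat_lit 7) (nat_lit 5) (nat_lit 167) r10_5 r2_167 (nat_lit 0) (nat_lit 0) (nat_lit 0) (nat_lit 0x7dd3702b2a) (nat_lit 1067149512)]
noncomputable def e18_3 : List Rx := [
  Rx.mk (nat_lit 210) (nat_lit 2) (nat_lit 2) (nat_lit 3) (nat_lit 7) (nat_lit 6) (nat_lit 137) r10_6 r3_137 (nat_lit 0) (nat_lit 0) (nat_lit 0) (nat_lit 0x7f829c56b8) (nat_lit 240420960),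
  Rx.mk (nat_lit 443) (nat_lit 3) (nat_lit 7) (nat_lit 6) (nat_lit 7) (nat_lit 7) (nat_lit 136) r10_7 r3_136 (nat_lit 0) (nat_lit 0) (nat_lit 0) (nat_lit 0x7fc79746c4) (nat_lit 108158544)]
noncomputable def e18_4 : List Rx := [
  Rx.mk (nat_lit 210) (nat_lit 2) (nat_lit 2) (nat_lit 3) (nat_lit 7) (nat_lit 8) (nat_lit 143) r10_8 r4_143 (nat_lit 0) (nat_lit 0) (nat_lit 0) (nat_lit 0x7dd7d8a49e) (nat_lit 1058697432)]
noncomputable def e18_5 : List Rx := [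
  Rx.mk (nat_lit 256) (nat_lit 0) (nat_lit 0) (nat_lit 4) (nat_lit 0) (nat_lit 19) (nat_lit 183) r10_19 r3_183 (nat_lit 0) (nat_lit 0) (nat_lit 0) (nat_lit 0x611f400ae2) (nat_lit 15156536616),
  Rx.mk (nat_lit 257) (nat_lit 1) (nat_lit 0) (nat_lit 4) (nat_lit 1) (nat_lit 25) (nat_lit 186) r10_25 r3_186 (nat_lit 0) (nat_lit 0) (nat_lit 0) (nat_lit 0x6c0e76ec84) (nat_lit 9789333840),
  Rx.mk (nat_lit 258) (nat_lit 2) (nat_lit 0) (nat_lit 4) (nat_lit 1) (nat_lit 31) (nat_lit 189) r10_31 r3_189 (nat_lit 0) (nat_lit 0) (nat_lit 0) (nat_lit 0x6e8b4ffc76) (nat_lit 8568244152),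
  Rx.mk (nat_lit 274) (nat_lit 2) (nat_lit 2) (nat_lit 4) (nat_lit 3) (nat_lit 33) (nat_lit 199) r10_33 r3_199 (nat_lit 0) (nat_lit 0) (nat_lit 0) (nat_lit 0x7e061120e8) (nat_lit 970074144),
  Rx.mk (nat_lit 280) (nat_lit 0) (nat_lit 3) (nat_lit 4) (nat_lit 2) (nat_lit 22) (nat_lit 191) r10_22 r3_191 (nat_lit 0) (nat_lit 0) (nat_lit 0) (nat_lit 0x7199b2b33c) (nat_lit 7068101040),
  Rx.mk (nat_lit 281) (nat_lit 1) (nat_lit 3) (nat_lit 4) (nat_lit 3) (nat_lit 28) (nat_lit 194) r10_28 r3_194 (nat_lit 0) (nat_lit 0) (nat_lit 0) (nat_lit 0x7db4419e32) (nat_lit 1126937448),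
  Rx.mk (nat_lit 282) (nat_lit 2) (nat_lit 3) (nat_lit 4) (nat_lit 3) (nat_lit 35) (nat_lit 197) r10_35 r3_197 (nat_lit 0) (nat_lit 0) (nat_lit 0) (nat_lit 0x7ba330b152) (nat_lit 2141366760),
  Rx.mk (nat_lit 320) (nat_lit 0) (nat_lit 0) (nat_lit 5) (nat_lit 4) (nat_lit 20) (nat_lit 184) r10_20 r3_184 (nat_lit 0) (nat_lit 0) (nat_lit 0) (nat_lit 0x6c7064ad46) (nat_lit 9601565688),
  Rx.mk (nat_lit 321) (nat_lit 1) (nat_lit 0) (nat_lit 5) (nat_lit 5) (nat_lit 26) (nat_lit 187) r10_26 r3_187 (nat_lit 0) (nat_lit 0) (nat_lit 0) (nat_lit 0x7c9d740c22) (nat_lit 1661513256),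
  Rx.mk (nat_lit 322) (nat_lit 2) (nat_lit 0) (nat_lit 5) (nat_lit 5) (nat_lit 32) (nat_lit 190) r10_32 r3_190 (nat_lit 0) (nat_lit 0) (nat_lit 0) (nat_lit 0x7822d6fa6e) (nat_lit 3860025624),
  Rx.mk (nat_lit 338) (nat_lit 2) (nat_lit 2) (nat_lit 5) (nat_lit 7) (nat_lit 34) (nat_lit 200) r10_34 r3_200 (nat_lit 0) (nat_lit 0) (nat_lit 0) (nat_lit 0x7dec2adf66) (nat_lit 1019733624),
  Rx.mk (nat_lit 344) (nat_lit 0) (nat_lit 3) (nat_lit 5) (nat_lit 6) (nat_lit 23) (nat_lit 192) r10_23 r3_192 (nat_lit 0) (nat_lit 0) (nat_lit 0) (nat_lit 0x7bee1be254) (nat_lit 1997717904),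
  Rx.mk (nat_lit 345) (nat_lit 1) (nat_lit 3) (nat_lit 5) (nat_lit 7) (nat_lit 29) (nat_lit 195) r10_29 r3_195 (nat_lit 0) (nat_lit 0) (nat_lit 0) (nat_lit 0x7e26fad22c) (nat_lit 906967152),
  Rx.mk (nat_lit 346) (nat_lit 2) (nat_lit 3) (nat_lit 5) (nat_lit 7) (nat_lit 36) (nat_lit 198) r10_36 r3_198 (nat_lit 0) (nat_lit 0) (nat_lit 0) (nat_lit 0x7e079ac84c) (nat_lit 967125744),
  Rx.mk (nat_lit 384) (nat_lit 0) (nat_lit 0) (nat_lit 6) (nat_lit 4) (nat_lit 21) (nat_lit 185) r10_21 r3_185 (nat_lit 0) (nat_lit 0) (nat_lit 0) (nat_lit 0x6df68609aa) (nat_lit 8853531336),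
  Rx.mk (nat_lit 385) (nat_lit 1) (nat_lit 0) (nat_lit 6) (nat_lit 5) (nat_lit 27) (nat_lit 188) r10_27 r3_188 (nat_lit 0) (nat_lit 0) (nat_lit 0) (nat_lit 0x7aec04a4ca) (nat_lit 2492580168),
  Rx.mk (nat_lit 408) (nat_lit 0) (nat_lit 3) (nat_lit 6) (nat_lit 6) (nat_lit 24) (nat_lit 193) r10_24 r3_193 (nat_lit 0) (nat_lit 0) (nat_lit 0) (nat_lit 0x7846764056) (nat_lit 3791723832),
  Rx.mk (nat_lit 409) (nat_lit 1) (nat_lit 3) (nat_lit 6) (nat_lit 7) (nat_lit 30) (nat_lit 196) r10_30 r3_196 (nat_lit 0) (nat_lit 0) (nat_lit 0) (nat_lit 0x7e1c68bb58) (nat_lit 927235296)]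
noncomputable def e18_6 : List Rx := [
  Rx.mk (nat_lit 320) (nat_lit 0) (nat_lit 0) (nat_lit 5) (nat_lit 4) (nat_lit 37) (nat_lit 200) r10_37 r0_200 (nat_lit 0) (nat_lit 0) (nat_lit 0) (nat_lit 0x76da66a2bc) (nat_lit 4489772976),
  Rx.mk (nat_lit 321) (nat_lit 1) (nat_lit 0) (nat_lit 5) (nat_lit 5) (nat_lit 38) (nat_lit 201) r10_38 r0_201 (nat_lit 0) (nat_lit 0) (nat_lit 0) (nat_lit 0x7e09e4c3aa) (nat_lit 962736840),
  Rx.mk (nat_lit 322) (nat_lit 2) (nat_lit 0) (nat_lit 5) (nat_lit 5) (nat_lit 39) (nat_lit 202) r10_39 r0_202 (nat_lit 0) (nat_lit 0) (nat_lit 0) (nat_lit 0x7e49f042b2) (nat_lit 839937384),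
  Rx.mk (nat_lit 338) (nat_lit 2) (nat_lit 2) (nat_lit 5) (nat_lit 7) (nat_lit 40) (nat_lit 203) r10_40 r0_203 (nat_lit 0) (nat_lit 0) (nat_lit 0) (nat_lit 0x7e9eee1280) (nat_lit 676975104)]
noncomputable def e18_7 : List Rx := [
  Rx.mk (nat_lit 82) (nat_lit 2) (nat_lit 2) (nat_lit 1) (nat_lit 7) (nat_lit 45) (nat_lit 224) r10_45 r1_224 (nat_lit 0) (nat_lit 0) (nat_lit 0) (nat_lit 0x7de11ef030) (nat_lit 1040914368),
  Rx.mk (nat_lit 320) (nat_lit 0) (nat_lit 0) (nat_lit 5) (nat_lit 4) (nat_lit 41) (nat_lit 220) r10_41 r1_220 (nat_lit 0) (nat_lit 0) (nat_lit 0) (nat_lit 0x6745aa3e18) (nat_lit 12137759712),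
  Rx.mk (nat_lit 321) (nat_lit 1) (nat_lit 0) (nat_lit 5) (nat_lit 5) (nat_lit 42) (nat_lit 221) r10_42 r1_221 (nat_lit 0) (nat_lit 0) (nat_lit 0) (nat_lit 0x7dd2d19514) (nat_lit 1068337296),
  Rx.mk (nat_lit 322) (nat_lit 2) (nat_lit 0) (nat_lit 5) (nat_lit 5) (nat_lit 43) (nat_lit 222) r10_43 r1_222 (nat_lit 0) (nat_lit 0) (nat_lit 0) (nat_lit 0x7dc1f662d8) (nat_lit 1100657376),
  Rx.mk (nat_lit 338) (nat_lit 2) (nat_lit 2) (nat_lit 5) (nat_lit 7) (nat_lit 44) (nat_lit 223) r10_44 r1_223 (nat_lit 0) (nat_lit 0) (nat_lit 0) (nat_lit 0x7e5b3e8dbc) (nat_lit 806755248)]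
noncomputable def e18_8 : List Rx := [
  Rx.mk (nat_lit 320) (nat_lit 0) (nat_lit 0) (nat_lit 5) (nat_lit 4) (nat_lit 46) (nat_lit 188) r10_46 r4_188 (nat_lit 0) (nat_lit 0) (nat_lit 0) (nat_lit 0x7d74889a02) (nat_lit 1249119144),
  Rx.mk (nat_lit 321) (nat_lit 1) (nat_lit 0) (nat_lit 5) (nat_lit 5) (nat_lit 48) (nat_lit 189) r10_48 r4_189 (nat_lit 0) (nat_lit 0) (nat_lit 0) (nat_lit 0x7de345adc2) (nat_lit 1036789416),
  Rx.mk (nat_lit 322) (nat_lit 2) (nat_lit 0) (nat_lit 5) (nat_lit 5) (nat_lit 50) (nat_lit 190) r10_50 r4_190 (nat_lit 0) (nat_lit 0) (nat_lit 0) (nat_lit 0x7df171aaf4) (nat_lit 1009616400),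
  Rx.mk (nat_lit 338) (nat_lit 2) (nat_lit 2) (nat_lit 5) (nat_lit 7) (nat_lit 51) (nat_lit 194) r10_51 r4_194 (nat_lit 0) (nat_lit 0) (nat_lit 0) (nat_lit 0x7e002a9f56) (nat_lit 981387576),
  Rx.mk (nat_lit 344) (nat_lit 0) (nat_lit 3) (nat_lit 5) (nat_lit 6) (nat_lit 47) (nat_lit 191) r10_47 r4_191 (nat_lit 0) (nat_lit 0) (nat_lit 0) (nat_lit 0x7e25a6c76e) (nat_lit 909514008),
  Rx.mk (nat_lit 345) (nat_lit 1) (nat_lit 3) (nat_lit 5) (nat_lit 7) (nat_lit 49) (nat_lit 192) r10_49 r4_192 (nat_lit 0) (nat_lit 0) (nat_lit 0) (nat_lit 0x7df971caea) (nat_lit 994276296),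
  Rx.mk (nat_lit 346) (nat_lit 2) (nat_lit 3) (nat_lit 5) (nat_lit 7) (nat_lit 52) (nat_lit 193) r10_52 r4_193 (nat_lit 0) (nat_lit 0) (nat_lit 0) (nat_lit 0x7df8e77390) (nat_lit 995312448)]
noncomputable def e18_9 : List Rx := [
  Rx.mk (nat_lit 280) (nat_lit 0) (nat_lit 3) (nat_lit 4) (nat_lit 2) (nat_lit 54) (nat_lit 154) r10_54 r5_154 (nat_lit 0) (nat_lit 0) (nat_lit 0) (nat_lit 0x75b5e9ebac) (nat_lit 5050586736),
  Rx.mk (nat_lit 281) (nat_lit 1) (nat_lit 3) (nat_lit 4) (nat_lit 3) (nat_lit 58) (nat_lit 158) r10_58 r5_158 (nat_lit 0) (nat_lit 0) (nat_lit 0) (nat_lit 0x7de6df9420) (nat_lit 1029884544),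
  Rx.mk (nat_lit 282) (nat_lit 2) (nat_lit 3) (nat_lit 4) (nat_lit 3) (nat_lit 63) (nat_lit 165) r10_63 r5_165 (nat_lit 0) (nat_lit 0) (nat_lit 0) (nat_lit 0x7dd58429e8) (nat_lit 1063164960),
  Rx.mk (nat_lit 283) (nat_lit 3) (nat_lit 3) (nat_lit 4) (nat_lit 3) (nat_lit 66) (nat_lit 161) r10_66 r5_161 (nat_lit 0) (nat_lit 0) (nat_lit 0) (nat_lit 0x7db1f38316) (nat_lit 1131357240),
  Rx.mk (nat_lit 408) (nat_lit 0) (nat_lit 3) (nat_lit 6) (nat_lit 6) (nat_lit 55) (nat_lit 156) r10_55 r5_156 (nat_lit 0) (nat_lit 0) (nat_lit 0) (nat_lit 0x7d9fc50610) (nat_lit 1166218560),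
  Rx.mk (nat_lit 409) (nat_lit 1) (nat_lit 3) (nat_lit 6) (nat_lit 7) (nat_lit 59) (nat_lit 160) r10_59 r5_160 (nat_lit 0) (nat_lit 0) (nat_lit 0) (nat_lit 0x7df1199076) (nat_lit 1010276280),
  Rx.mk (nat_lit 411) (nat_lit 3) (nat_lit 3) (nat_lit 6) (nat_lit 7) (nat_lit 67) (nat_lit 162) r10_67 r5_162 (nat_lit 0) (nat_lit 0) (nat_lit 0) (nat_lit 0x7dc21520ec) (nat_lit 1100427120),
  Rx.mk (nat_lit 443) (nat_lit 3) (nat_lit 7) (nat_lit 6) (nat_lit 7) (nat_lit 65) (nat_lit 163) r10_65 r5_163 (nat_lit 0) (nat_lit 0) (nat_lit 0) (nat_lit 0x7eb9830916) (nat_lit 626007096),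
  Rx.mk (nat_lit 448) (nat_lit 0) (nat_lit 0) (nat_lit 7) (nat_lit 4) (nat_lit 53) (nat_lit 153) r10_53 r5_153 (nat_lit 0) (nat_lit 0) (nat_lit 0) (nat_lit 0x7b5c1d42d0) (nat_lit 2277647424),
  Rx.mk (nat_lit 449) (nat_lit 1) (nat_lit 0) (nat_lit 7) (nat_lit 5) (nat_lit 57) (nat_lit 157) r10_57 r5_157 (nat_lit 0) (nat_lit 0) (nat_lit 0) (nat_lit 0x7d9ee59408) (nat_lit 1167892128),
  Rx.mk (nat_lit 450) (nat_lit 2) (nat_lit 0) (nat_lit 7) (nat_lit 5) (nat_lit 61) (nat_lit 164) r10_61 r5_164 (nat_lit 0) (nat_lit 0) (nat_lit 0) (nat_lit 0x7df4237fd4) (nat_lit 1004449680),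
  Rx.mk (nat_lit 466) (nat_lit 2) (nat_lit 2) (nat_lit 7) (nat_lit 7) (nat_lit 62) (nat_lit 167) r10_62 r5_167 (nat_lit 0) (nat_lit 0) (nat_lit 0) (nat_lit 0x7df4675b96) (nat_lit 1003941432),
  Rx.mk (nat_lit 472) (nat_lit 0) (nat_lit 3) (nat_lit 7) (nat_lit 6) (nat_lit 56) (nat_lit 155) r10_56 r5_155 (nat_lit 0) (nat_lit 0) (nat_lit 0) (nat_lit 0x7e2b4d2d02) (nat_lit 898680744),
  Rx.mk (nat_lit 473) (nat_lit 1) (nat_lit 3) (nat_lit 7) (nat_lit 7) (nat_lit 60) (nat_lit 159) r10_60 r5_159 (nat_lit 0) (nat_lit 0) (nat_lit 0) (nat_lit 0x7df675baae) (nat_lit 999999000),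
  Rx.mk (nat_lit 474) (nat_lit 2) (nat_lit 3) (nat_lit 7) (nat_lit 7) (nat_lit 64) (nat_lit 166) r10_64 r5_166 (nat_lit 0) (nat_lit 0) (nat_lit 0) (nat_lit 0x7ddaeb3372) (nat_lit 1052806248)]
noncomputable def e18_10 : List Rx := [
  Rx.mk (nat_lit 18) (nat_lit 2) (nat_lit 2) (nat_lit 0) (nat_lit 3) (nat_lit 99) (nat_lit 217) r10_99 r0_217 (nat_lit 0) (nat_lit 0) (nat_lit 0) (nat_lit 0x7c2f7ecbe4) (nat_lit 1872346320),
  Rx.mk (nat_lit 22) (nat_lit 6) (nat_lit 2) (nat_lit 0) (nat_lit 3) (nat_lit 96) (nat_lit 216) r10_96 r0_216 (nat_lit 0) (nat_lit 0) (nat_lit 0) (nat_lit 0x7de857fc98) (nat_lit 1027065312),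
  Rx.mk (nat_lit 54) (nat_lit 6) (nat_lit 6) (nat_lit 0) (nat_lit 3) (nat_lit 94) (nat_lit 215) r10_94 r0_215 (nat_lit 0) (nat_lit 0) (nat_lit 0) (nat_lit 0x7d78b51736) (nat_lit 1241116344),
  Rx.mk (nat_lit 164) (nat_lit 4) (nat_lit 4) (nat_lit 2) (nat_lit 4) (nat_lit 92) (nat_lit 219) r10_92 r0_219 (nat_lit 0) (nat_lit 0) (nat_lit 0) (nat_lit 0x4965c57a46) (nat_lit 26801801208),
  Rx.mk (nat_lit 180) (nat_lit 4) (nat_lit 6) (nat_lit 2) (nat_lit 6) (nat_lit 93) (nat_lit 220) r10_93 r0_220 (nat_lit 0) (nat_lit 0) (nat_lit 0) (nat_lit 0x7d5dec63dc) (nat_lit 1292471856),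
  Rx.mk (nat_lit 182) (nat_lit 6) (nat_lit 6) (nat_lit 2) (nat_lit 7) (nat_lit 95) (nat_lit 221) r10_95 r0_221 (nat_lit 0) (nat_lit 0) (nat_lit 0) (nat_lit 0x7e428d38ea) (nat_lit 854100936),
  Rx.mk (nat_lit 210) (nat_lit 2) (nat_lit 2) (nat_lit 3) (nat_lit 7) (nat_lit 100) (nat_lit 218) r10_100 r0_218 (nat_lit 0) (nat_lit 0) (nat_lit 0) (nat_lit 0x7e0bdd0424) (nat_lit 958960080),
  Rx.mk (nat_lit 420) (nat_lit 4) (nat_lit 4) (nat_lit 6) (nat_lit 4) (nat_lit 91) (nat_lit 212) r10_91 r0_212 (nat_lit 0) (nat_lit 0) (nat_lit 0) (nat_lit 0x41b494b504) (nat_lit 30577519440),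
  Rx.mk (nat_lit 423) (nat_lit 7) (nat_lit 4) (nat_lit 6) (nat_lit 5) (nat_lit 97) (nat_lit 213) r10_97 r0_213 (nat_lit 0) (nat_lit 0) (nat_lit 0) (nat_lit 0x78034c9334) (nat_lit 3920501520),
  Rx.mk (nat_lit 447) (nat_lit 7) (nat_lit 7) (nat_lit 6) (nat_lit 7) (nat_lit 98) (nat_lit 214) r10_98 r0_214 (nat_lit 0) (nat_lit 0) (nat_lit 0) (nat_lit 0x7e314d2cfc) (nat_lit 887176368)]
noncomputable def e18_11 : List Rx := [
  Rx.mk (nat_lit 18) (nat_lit 2) (nat_lit 2) (nat_lit 0) (nat_lit 3) (nat_lit 105) (nat_lit 198) r10_105 r6_198 (nat_lit 0) (nat_lit 0) (nat_lit 0) (nat_lit 0x7d9e0ce194) (nat_lit 1169515152),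
  Rx.mk (nat_lit 22) (nat_lit 6) (nat_lit 2) (nat_lit 0) (nat_lit 3) (nat_lit 104) (nat_lit 201) r10_104 r6_201 (nat_lit 0) (nat_lit 0) (nat_lit 0) (nat_lit 0x7dd6555cd4) (nat_lit 1061598096),
  Rx.mk (nat_lit 54) (nat_lit 6) (nat_lit 6) (nat_lit 0) (nat_lit 3) (nat_lit 102) (nat_lit 202) r10_102 r6_202 (nat_lit 0) (nat_lit 0) (nat_lit 0) (nat_lit 0x7d8f376efa) (nat_lit 1197957384),
  Rx.mk (nat_lit 180) (nat_lit 4) (nat_lit 6) (nat_lit 2) (nat_lit 6) (nat_lit 101) (nat_lit 200) r10_101 r6_200 (nat_lit 0) (nat_lit 0) (nat_lit 0) (nat_lit 0x7de93d0e46) (nat_lit 1025349624),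
  Rx.mk (nat_lit 182) (nat_lit 6) (nat_lit 6) (nat_lit 2) (nat_lit 7) (nat_lit 103) (nat_lit 203) r10_103 r6_203 (nat_lit 0) (nat_lit 0) (nat_lit 0) (nat_lit 0x7df1366ea8) (nat_lit 1010060064),
  Rx.mk (nat_lit 210) (nat_lit 2) (nat_lit 2) (nat_lit 3) (nat_lit 7) (nat_lit 106) (nat_lit 199) r10_106 r6_199 (nat_lit 0) (nat_lit 0) (nat_lit 0) (nat_lit 0x7da1502d5c) (nat_lit 1163258928)]
noncomputable def e18_12 : List Rx := [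
  Rx.mk (nat_lit 164) (nat_lit 4) (nat_lit 4) (nat_lit 2) (nat_lit 4) (nat_lit 108) (nat_lit 237) r10_108 r1_237 (nat_lit 0) (nat_lit 0) (nat_lit 0) (nat_lit 0x6afa16f398) (nat_lit 10319253984),
  Rx.mk (nat_lit 180) (nat_lit 4) (nat_lit 6) (nat_lit 2) (nat_lit 6) (nat_lit 109) (nat_lit 238) r10_109 r1_238 (nat_lit 0) (nat_lit 0) (nat_lit 0) (nat_lit 0x7dd597a8b0) (nat_lit 1063018944),
  Rx.mk (nat_lit 182) (nat_lit 6) (nat_lit 6) (nat_lit 2) (nat_lit 7) (nat_lit 110) (nat_lit 239) r10_110 r1_239 (nat_lit 0) (nat_lit 0) (nat_lit 0) (nat_lit 0x7de4773aa8) (nat_lit 1034500896),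
  Rx.mk (nat_lit 420) (nat_lit 4) (nat_lit 4) (nat_lit 6) (nat_lit 4) (nat_lit 107) (nat_lit 234) r10_107 r1_234 (nat_lit 0) (nat_lit 0) (nat_lit 0) (nat_lit 0x79f253e0d0) (nat_lit 2971335744),
  Rx.mk (nat_lit 423) (nat_lit 7) (nat_lit 4) (nat_lit 6) (nat_lit 5) (nat_lit 111) (nat_lit 235) r10_111 r1_235 (nat_lit 0) (nat_lit 0) (nat_lit 0) (nat_lit 0x7de322cff0) (nat_lit 1037050560),
  Rx.mk (nat_lit 447) (nat_lit 7) (nat_lit 7) (nat_lit 6) (nat_lit 7) (nat_lit 112) (nat_lit 236) r10_112 r1_236 (nat_lit 0) (nat_lit 0) (nat_lit 0) (nat_lit 0x7e36429da0) (nat_lit 877668480)]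
noncomputable def e18_13 : List Rx := [
  Rx.mk (nat_lit 180) (nat_lit 4) (nat_lit 6) (nat_lit 2) (nat_lit 6) (nat_lit 113) (nat_lit 157) r10_113 r7_157 (nat_lit 0) (nat_lit 0) (nat_lit 0) (nat_lit 0x7dd4373eb8) (nat_lit 1065658464),
  Rx.mk (nat_lit 182) (nat_lit 6) (nat_lit 6) (nat_lit 2) (nat_lit 7) (nat_lit 114) (nat_lit 158) r10_114 r7_158 (nat_lit 0) (nat_lit 0) (nat_lit 0) (nat_lit 0x7deba267ee) (nat_lit 1020755736)]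
noncomputable def e18_14 : List Rx := [
  Rx.mk (nat_lit 18) (nat_lit 2) (nat_lit 2) (nat_lit 0) (nat_lit 3) (nat_lit 120) (nat_lit 208) r10_120 r7_208 (nat_lit 0) (nat_lit 0) (nat_lit 0) (nat_lit 0x7da81b00a8) (nat_lit 1150235424),
  Rx.mk (nat_lit 22) (nat_lit 6) (nat_lit 2) (nat_lit 0) (nat_lit 3) (nat_lit 118) (nat_lit 207) r10_118 r7_207 (nat_lit 0) (nat_lit 0) (nat_lit 0) (nat_lit 0x7dcad2f506) (nat_lit 1083666168),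
  Rx.mk (nat_lit 54) (nat_lit 6) (nat_lit 6) (nat_lit 0) (nat_lit 3) (nat_lit 115) (nat_lit 206) r10_115 r7_206 (nat_lit 0) (nat_lit 0) (nat_lit 0) (nat_lit 0x7d7cc21662) (nat_lit 1233349416),
  Rx.mk (nat_lit 82) (nat_lit 2) (nat_lit 2) (nat_lit 1) (nat_lit 7) (nat_lit 121) (nat_lit 211) r10_121 r7_211 (nat_lit 0) (nat_lit 0) (nat_lit 0) (nat_lit 0x7df45c7c44) (nat_lit 1004022864),
  Rx.mk (nat_lit 86) (nat_lit 6) (nat_lit 2) (nat_lit 1) (nat_lit 7) (nat_lit 119) (nat_lit 210) r10_119 r7_210 (nat_lit 0) (nat_lit 0) (nat_lit 0) (nat_lit 0x7de6733ae6) (nat_lit 1030696056),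
  Rx.mk (nat_lit 118) (nat_lit 6) (nat_lit 6) (nat_lit 1) (nat_lit 7) (nat_lit 116) (nat_lit 209) r10_116 r7_209 (nat_lit 0) (nat_lit 0) (nat_lit 0) (nat_lit 0x7deb46eda6) (nat_lit 1021440888),
  Rx.mk (nat_lit 182) (nat_lit 6) (nat_lit 6) (nat_lit 2) (nat_lit 7) (nat_lit 117) (nat_lit 213) r10_117 r7_213 (nat_lit 0) (nat_lit 0) (nat_lit 0) (nat_lit 0x7df08459ca) (nat_lit 1011393864),
  Rx.mk (nat_lit 210) (nat_lit 2) (nat_lit 2) (nat_lit 3) (nat_lit 7) (nat_lit 122) (nat_lit 212) r10_122 r7_212 (nat_lit 0) (nat_lit 0) (nat_lit 0) (nat_lit 0x7dd511d10e) (nat_lit 1064021400)]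
noncomputable def e18_15 : List Rx := [
  Rx.mk (nat_lit 82) (nat_lit 2) (nat_lit 2) (nat_lit 1) (nat_lit 7) (nat_lit 124) (nat_lit 146) r10_124 r8_146 (nat_lit 0) (nat_lit 0) (nat_lit 0) (nat_lit 0x7df79428c6) (nat_lit 997853688),
  Rx.mk (nat_lit 86) (nat_lit 6) (nat_lit 2) (nat_lit 1) (nat_lit 7) (nat_lit 123) (nat_lit 147) r10_123 r8_147 (nat_lit 0) (nat_lit 0) (nat_lit 0) (nat_lit 0x7df5dba450) (nat_lit 1001153088)]
noncomputable def e18_16 : List Rx := [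
  Rx.mk (nat_lit 22) (nat_lit 6) (nat_lit 2) (nat_lit 0) (nat_lit 3) (nat_lit 129) (nat_lit 209) r10_129 r4_209 (nat_lit 0) (nat_lit 0) (nat_lit 0) (nat_lit 0x757b9df0a6) (nat_lit 5162364792),
  Rx.mk (nat_lit 54) (nat_lit 6) (nat_lit 6) (nat_lit 0) (nat_lit 3) (nat_lit 127) (nat_lit 208) r10_127 r4_208 (nat_lit 0) (nat_lit 0) (nat_lit 0) (nat_lit 0x72c34b188c) (nat_lit 6497492976),
  Rx.mk (nat_lit 164) (nat_lit 4) (nat_lit 4) (nat_lit 2) (nat_lit 4) (nat_lit 125) (nat_lit 212) r10_125 r4_212 (nat_lit 0) (nat_lit 0) (nat_lit 0) (nat_lit 0x704a4c6af0) (nat_lit 7711194816),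
  Rx.mk (nat_lit 167) (nat_lit 7) (nat_lit 4) (nat_lit 2) (nat_lit 5) (nat_lit 132) (nat_lit 213) r10_132 r4_213 (nat_lit 0) (nat_lit 0) (nat_lit 0) (nat_lit 0x77d5fc8862) (nat_lit 4007383848),
  Rx.mk (nat_lit 180) (nat_lit 4) (nat_lit 6) (nat_lit 2) (nat_lit 6) (nat_lit 126) (nat_lit 214) r10_126 r4_214 (nat_lit 0) (nat_lit 0) (nat_lit 0) (nat_lit 0x7bb067ddd2) (nat_lit 2116027368),
  Rx.mk (nat_lit 182) (nat_lit 6) (nat_lit 6) (nat_lit 2) (nat_lit 7) (nat_lit 128) (nat_lit 216) r10_128 r4_216 (nat_lit 0) (nat_lit 0) (nat_lit 0) (nat_lit 0x7d9fcc8598) (nat_lit 1166162400),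
  Rx.mk (nat_lit 183) (nat_lit 7) (nat_lit 6) (nat_lit 2) (nat_lit 7) (nat_lit 133) (nat_lit 215) r10_133 r4_215 (nat_lit 0) (nat_lit 0) (nat_lit 0) (nat_lit 0x7e0de80372) (nat_lit 955042920),
  Rx.mk (nat_lit 210) (nat_lit 2) (nat_lit 2) (nat_lit 3) (nat_lit 7) (nat_lit 135) (nat_lit 211) r10_135 r4_211 (nat_lit 0) (nat_lit 0) (nat_lit 0) (nat_lit 0x7df1c665a8) (nat_lit 1008981792),
  Rx.mk (nat_lit 214) (nat_lit 6) (nat_lit 2) (nat_lit 3) (nat_lit 7) (nat_lit 130) (nat_lit 210) r10_130 r4_210 (nat_lit 0) (nat_lit 0) (nat_lit 0) (nat_lit 0x7e50fdd1d2) (nat_lit 826414056),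
  Rx.mk (nat_lit 423) (nat_lit 7) (nat_lit 4) (nat_lit 6) (nat_lit 5) (nat_lit 131) (nat_lit 205) r10_131 r4_205 (nat_lit 0) (nat_lit 0) (nat_lit 0) (nat_lit 0x7227e22fb6) (nat_lit 6795475128),
  Rx.mk (nat_lit 443) (nat_lit 3) (nat_lit 7) (nat_lit 6) (nat_lit 7) (nat_lit 136) (nat_lit 207) r10_136 r4_207 (nat_lit 0) (nat_lit 0) (nat_lit 0) (nat_lit 0x7e23aee6ee) (nat_lit 913287960),
  Rx.mk (nat_lit 447) (nat_lit 7) (nat_lit 7) (nat_lit 6) (nat_lit 7) (nat_lit 134) (nat_lit 206) r10_134 r4_206 (nat_lit 0) (nat_lit 0) (nat_lit 0) (nat_lit 0x7dc3644bf8) (nat_lit 1097916768)]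
noncomputable def e18_17 : List Rx := [
  Rx.mk (nat_lit 22) (nat_lit 6) (nat_lit 2) (nat_lit 0) (nat_lit 3) (nat_lit 140) (nat_lit 157) r10_140 r9_157 (nat_lit 0) (nat_lit 0) (nat_lit 0) (nat_lit 0x7dcfb546dc) (nat_lit 1074301488),
  Rx.mk (nat_lit 54) (nat_lit 6) (nat_lit 6) (nat_lit 0) (nat_lit 3) (nat_lit 138) (nat_lit 159) r10_138 r9_159 (nat_lit 0) (nat_lit 0) (nat_lit 0) (nat_lit 0x7dcdcae584) (nat_lit 1077974352),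
  Rx.mk (nat_lit 180) (nat_lit 4) (nat_lit 6) (nat_lit 2) (nat_lit 6) (nat_lit 137) (nat_lit 155) r10_137 r9_155 (nat_lit 0) (nat_lit 0) (nat_lit 0) (nat_lit 0x7df2fc7246) (nat_lit 1006659576),
  Rx.mk (nat_lit 182) (nat_lit 6) (nat_lit 6) (nat_lit 2) (nat_lit 7) (nat_lit 139) (nat_lit 160) r10_139 r9_160 (nat_lit 0) (nat_lit 0) (nat_lit 0) (nat_lit 0x7df79428c6) (nat_lit 997853688),
  Rx.mk (nat_lit 183) (nat_lit 7) (nat_lit 6) (nat_lit 2) (nat_lit 7) (nat_lit 142) (nat_lit 156) r10_142 r9_156 (nat_lit 0) (nat_lit 0) (nat_lit 0) (nat_lit 0x7df03efe20) (nat_lit 1011913344),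
  Rx.mk (nat_lit 210) (nat_lit 2) (nat_lit 2) (nat_lit 3) (nat_lit 7) (nat_lit 143) (nat_lit 154) r10_143 r9_154 (nat_lit 0) (nat_lit 0) (nat_lit 0) (nat_lit 0x7dd40501dc) (nat_lit 1066034736),
  Rx.mk (nat_lit 214) (nat_lit 6) (nat_lit 2) (nat_lit 3) (nat_lit 7) (nat_lit 141) (nat_lit 158) r10_141 r9_158 (nat_lit 0) (nat_lit 0) (nat_lit 0) (nat_lit 0x7dfd420de2) (nat_lit 986964264)]
noncomputable def e18_18 : List Rx := [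
  Rx.mk (nat_lit 54) (nat_lit 6) (nat_lit 6) (nat_lit 0) (nat_lit 3) (nat_lit 146) (nat_lit 161) r10_146 r10_161 (nat_lit 0) (nat_lit 0) (nat_lit 0) (nat_lit 0x78062ec50e) (nat_lit 3914972568),
  Rx.mk (nat_lit 164) (nat_lit 4) (nat_lit 4) (nat_lit 2) (nat_lit 4) (nat_lit 144) (nat_lit 154) r10_144 r10_154 (nat_lit 0) (nat_lit 0) (nat_lit 0) (nat_lit 0x5b3d173352) (nat_lit 18044441064),
  Rx.mk (nat_lit 167) (nat_lit 7) (nat_lit 4) (nat_lit 2) (nat_lit 5) (nat_lit 150) (nat_lit 156) r10_150 r10_156 (nat_lit 0) (nat_lit 0) (nat_lit 0) (nat_lit 0x7b7fa54a2c) (nat_lit 2209519728),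
  Rx.mk (nat_lit 180) (nat_lit 4) (nat_lit 6) (nat_lit 2) (nat_lit 6) (nat_lit 145) (nat_lit 155) r10_145 r10_155 (nat_lit 0) (nat_lit 0) (nat_lit 0) (nat_lit 0x7a843d21aa) (nat_lit 2691566280),
  Rx.mk (nat_lit 182) (nat_lit 6) (nat_lit 6) (nat_lit 2) (nat_lit 7) (nat_lit 147) (nat_lit 163) r10_147 r10_163 (nat_lit 0) (nat_lit 0) (nat_lit 0) (nat_lit 0x7d37d32596) (nat_lit 1365521976),
  Rx.mk (nat_lit 183) (nat_lit 7) (nat_lit 6) (nat_lit 2) (nat_lit 7) (nat_lit 151) (nat_lit 159) r10_151 r10_159 (nat_lit 0) (nat_lit 0) (nat_lit 0) (nat_lit 0x7e01d184e6) (nat_lit 978220152),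
  Rx.mk (nat_lit 191) (nat_lit 7) (nat_lit 7) (nat_lit 2) (nat_lit 7) (nat_lit 153) (nat_lit 157) r10_153 r10_157 (nat_lit 0) (nat_lit 0) (nat_lit 0) (nat_lit 0x7d97b22746) (nat_lit 1181699064),
  Rx.mk (nat_lit 210) (nat_lit 2) (nat_lit 2) (nat_lit 3) (nat_lit 7) (nat_lit 158) (nat_lit 152) r10_158 r10_152 (nat_lit 0) (nat_lit 0) (nat_lit 0) (nat_lit 0x77e99d6e40) (nat_lit 3969748224),
  Rx.mk (nat_lit 214) (nat_lit 6) (nat_lit 2) (nat_lit 3) (nat_lit 7) (nat_lit 149) (nat_lit 160) r10_149 r10_160 (nat_lit 0) (nat_lit 0) (nat_lit 0) (nat_lit 0x7d4d14f164) (nat_lit 1324763856),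
  Rx.mk (nat_lit 246) (nat_lit 6) (nat_lit 6) (nat_lit 3) (nat_lit 7) (nat_lit 148) (nat_lit 162) r10_148 r10_162 (nat_lit 0) (nat_lit 0) (nat_lit 0) (nat_lit 0x7d31852a7c) (nat_lit 1377610416),
  Rx.mk (nat_lit 283) (nat_lit 3) (nat_lit 3) (nat_lit 4) (nat_lit 3) (nat_lit 161) (nat_lit 146) r10_161 r10_146 (nat_lit 0) (nat_lit 0) (nat_lit 0) (nat_lit 0x78062ec50e) (nat_lit 3914972568),
  Rx.mk (nat_lit 411) (nat_lit 3) (nat_lit 3) (nat_lit 6) (nat_lit 7) (nat_lit 162) (nat_lit 148) r10_162 r10_148 (nat_lit 0) (nat_lit 0) (nat_lit 0) (nat_lit 0x7d31852a7c) (nat_lit 1377610416),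
  Rx.mk (nat_lit 443) (nat_lit 3) (nat_lit 7) (nat_lit 6) (nat_lit 7) (nat_lit 160) (nat_lit 149) r10_160 r10_149 (nat_lit 0) (nat_lit 0) (nat_lit 0) (nat_lit 0x7d4d14f164) (nat_lit 1324763856),
  Rx.mk (nat_lit 447) (nat_lit 7) (nat_lit 7) (nat_lit 6) (nat_lit 7) (nat_lit 152) (nat_lit 158) r10_152 r10_158 (nat_lit 0) (nat_lit 0) (nat_lit 0) (nat_lit 0x77e99d6e40) (nat_lit 3969748224),
  Rx.mk (nat_lit 448) (nat_lit 0) (nat_lit 0) (nat_lit 7) (nat_lit 4) (nat_lit 154) (nat_lit 144) r10_154 r10_144 (nat_lit 0) (nat_lit 0) (nat_lit 0) (nat_lit 0x5b3d173352) (nat_lit 18044441064),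
  Rx.mk (nat_lit 450) (nat_lit 2) (nat_lit 0) (nat_lit 7) (nat_lit 5) (nat_lit 156) (nat_lit 150) r10_156 r10_150 (nat_lit 0) (nat_lit 0) (nat_lit 0) (nat_lit 0x7b7fa54a2c) (nat_lit 2209519728),
  Rx.mk (nat_lit 466) (nat_lit 2) (nat_lit 2) (nat_lit 7) (nat_lit 7) (nat_lit 157) (nat_lit 153) r10_157 r10_153 (nat_lit 0) (nat_lit 0) (nat_lit 0) (nat_lit 0x7d97b22746) (nat_lit 1181699064),
  Rx.mk (nat_lit 472) (nat_lit 0) (nat_lit 3) (nat_lit 7) (nat_lit 6) (nat_lit 155) (nat_lit 145) r10_155 r10_145 (nat_lit 0) (nat_lit 0) (nat_lit 0) (nat_lit 0x7a843d21aa) (nat_lit 2691566280),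
  Rx.mk (nat_lit 474) (nat_lit 2) (nat_lit 3) (nat_lit 7) (nat_lit 7) (nat_lit 159) (nat_lit 151) r10_159 r10_151 (nat_lit 0) (nat_lit 0) (nat_lit 0) (nat_lit 0x7e01d184e6) (nat_lit 978220152),
  Rx.mk (nat_lit 475) (nat_lit 3) (nat_lit 3) (nat_lit 7) (nat_lit 7) (nat_lit 163) (nat_lit 147) r10_163 r10_147 (nat_lit 0) (nat_lit 0) (nat_lit 0) (nat_lit 0x7d37d32596) (nat_lit 1365521976)]
noncomputable def e18_19 : List Rx := [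
  Rx.mk (nat_lit 82) (nat_lit 2) (nat_lit 2) (nat_lit 1) (nat_lit 7) (nat_lit 164) (nat_lit 214) r10_164 r8_214 (nat_lit 0) (nat_lit 0) (nat_lit 0) (nat_lit 0x7df2523cea) (nat_lit 1007934408)]
noncomputable def e18_20 : List Rx := [
  Rx.mk (nat_lit 256) (nat_lit 0) (nat_lit 0) (nat_lit 4) (nat_lit 0) (nat_lit 165) (nat_lit 341) r10_165 r0_341 (nat_lit 0) (nat_lit 0) (nat_lit 0) (nat_lit 0x2d7a01d26e) (nat_lit 40506896664),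
  Rx.mk (nat_lit 257) (nat_lit 1) (nat_lit 0) (nat_lit 4) (nat_lit 1) (nat_lit 171) (nat_lit 343) r10_171 r0_343 (nat_lit 0) (nat_lit 0) (nat_lit 0) (nat_lit 0x79a5a2ac30) (nat_lit 3118385088),
  Rx.mk (nat_lit 258) (nat_lit 2) (nat_lit 0) (nat_lit 4) (nat_lit 1) (nat_lit 177) (nat_lit 345) r10_177 r0_345 (nat_lit 0) (nat_lit 0) (nat_lit 0) (nat_lit 0x7b95ea25c8) (nat_lit 2166821280),
  Rx.mk (nat_lit 264) (nat_lit 0) (nat_lit 1) (nat_lit 4) (nat_lit 2) (nat_lit 168) (nat_lit 342) r10_168 r0_342 (nat_lit 0) (nat_lit 0) (nat_lit 0) (nat_lit 0x7aa5ac4a96) (nat_lit 2627459640),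
  Rx.mk (nat_lit 265) (nat_lit 1) (nat_lit 1) (nat_lit 4) (nat_lit 3) (nat_lit 174) (nat_lit 344) r10_174 r0_344 (nat_lit 0) (nat_lit 0) (nat_lit 0) (nat_lit 0x7df905d1aa) (nat_lit 995085000),
  Rx.mk (nat_lit 266) (nat_lit 2) (nat_lit 1) (nat_lit 4) (nat_lit 3) (nat_lit 179) (nat_lit 346) r10_179 r0_346 (nat_lit 0) (nat_lit 0) (nat_lit 0) (nat_lit 0x7deff222ee) (nat_lit 1012488984),
  Rx.mk (nat_lit 274) (nat_lit 2) (nat_lit 2) (nat_lit 4) (nat_lit 3) (nat_lit 181) (nat_lit 347) r10_181 r0_347 (nat_lit 0) (nat_lit 0) (nat_lit 0) (nat_lit 0x7dc039bea4) (nat_lit 1103987664),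
  Rx.mk (nat_lit 320) (nat_lit 0) (nat_lit 0) (nat_lit 5) (nat_lit 4) (nat_lit 166) (nat_lit 348) r10_166 r0_348 (nat_lit 0) (nat_lit 0) (nat_lit 0) (nat_lit 0x7a5f28731a) (nat_lit 2762664840),
  Rx.mk (nat_lit 321) (nat_lit 1) (nat_lit 0) (nat_lit 5) (nat_lit 5) (nat_lit 172) (nat_lit 350) r10_172 r0_350 (nat_lit 0) (nat_lit 0) (nat_lit 0) (nat_lit 0x7dd895f8c8) (nat_lit 1057279392),
  Rx.mk (nat_lit 322) (nat_lit 2) (nat_lit 0) (nat_lit 5) (nat_lit 5) (nat_lit 178) (nat_lit 352) r10_178 r0_352 (nat_lit 0) (nat_lit 0) (nat_lit 0) (nat_lit 0x7df5b266e4) (nat_lit 1001461968),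
  Rx.mk (nat_lit 328) (nat_lit 0) (nat_lit 1) (nat_lit 5) (nat_lit 6) (nat_lit 169) (nat_lit 349) r10_169 r0_349 (nat_lit 0) (nat_lit 0) (nat_lit 0) (nat_lit 0x7dda7f3a32) (nat_lit 1053614952),
  Rx.mk (nat_lit 329) (nat_lit 1) (nat_lit 1) (nat_lit 5) (nat_lit 7) (nat_lit 175) (nat_lit 351) r10_175 r0_351 (nat_lit 0) (nat_lit 0) (nat_lit 0) (nat_lit 0x7df9cda52c) (nat_lit 993588336),
  Rx.mk (nat_lit 330) (nat_lit 2) (nat_lit 1) (nat_lit 5) (nat_lit 7) (nat_lit 180) (nat_lit 353) r10_180 r0_353 (nat_lit 0) (nat_lit 0) (nat_lit 0) (nat_lit 0x7dee0dc136) (nat_lit 1016116920),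
  Rx.mk (nat_lit 338) (nat_lit 2) (nat_lit 2) (nat_lit 5) (nat_lit 7) (nat_lit 182) (nat_lit 354) r10_182 r0_354 (nat_lit 0) (nat_lit 0) (nat_lit 0) (nat_lit 0x7df41fc010) (nat_lit 1004477760),
  Rx.mk (nat_lit 384) (nat_lit 0) (nat_lit 0) (nat_lit 6) (nat_lit 4) (nat_lit 167) (nat_lit 355) r10_167 r0_355 (nat_lit 0) (nat_lit 0) (nat_lit 0) (nat_lit 0x7cc600e32c) (nat_lit 1583762544),
  Rx.mk (nat_lit 385) (nat_lit 1) (nat_lit 0) (nat_lit 6) (nat_lit 5) (nat_lit 173) (nat_lit 357) r10_173 r0_357 (nat_lit 0) (nat_lit 0) (nat_lit 0) (nat_lit 0x7e5a0a0106) (nat_lit 809066232),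
  Rx.mk (nat_lit 392) (nat_lit 0) (nat_lit 1) (nat_lit 6) (nat_lit 6) (nat_lit 170) (nat_lit 356) r10_170 r0_356 (nat_lit 0) (nat_lit 0) (nat_lit 0) (nat_lit 0x7df00ea126) (nat_lit 1012275576),
  Rx.mk (nat_lit 393) (nat_lit 1) (nat_lit 1) (nat_lit 6) (nat_lit 7) (nat_lit 176) (nat_lit 358) r10_176 r0_358 (nat_lit 0) (nat_lit 0) (nat_lit 0) (nat_lit 0x7ea0391dce) (nat_lit 674495640)]
noncomputable def e18_21 : List Rx := [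
  Rx.mk (nat_lit 264) (nat_lit 0) (nat_lit 1) (nat_lit 4) (nat_lit 2) (nat_lit 183) (nat_lit 315) r10_183 r1_315 (nat_lit 0) (nat_lit 0) (nat_lit 0) (nat_lit 0x707b7d37b2) (nat_lit 7616876904),
  Rx.mk (nat_lit 265) (nat_lit 1) (nat_lit 1) (nat_lit 4) (nat_lit 3) (nat_lit 186) (nat_lit 316) r10_186 r1_316 (nat_lit 0) (nat_lit 0) (nat_lit 0) (nat_lit 0x7ddf77aaa6) (nat_lit 1044084600),
  Rx.mk (nat_lit 266) (nat_lit 2) (nat_lit 1) (nat_lit 4) (nat_lit 3) (nat_lit 189) (nat_lit 317) r10_189 r1_317 (nat_lit 0) (nat_lit 0) (nat_lit 0) (nat_lit 0x7de538ae90) (nat_lit 1033051968),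
  Rx.mk (nat_lit 328) (nat_lit 0) (nat_lit 1) (nat_lit 5) (nat_lit 6) (nat_lit 184) (nat_lit 318) r10_184 r1_318 (nat_lit 0) (nat_lit 0) (nat_lit 0) (nat_lit 0x7de8fc3254) (nat_lit 1025835408),
  Rx.mk (nat_lit 329) (nat_lit 1) (nat_lit 1) (nat_lit 5) (nat_lit 7) (nat_lit 187) (nat_lit 319) r10_187 r1_319 (nat_lit 0) (nat_lit 0) (nat_lit 0) (nat_lit 0x7df4ff3218) (nat_lit 1002804192),
  Rx.mk (nat_lit 330) (nat_lit 2) (nat_lit 1) (nat_lit 5) (nat_lit 7) (nat_lit 190) (nat_lit 320) r10_190 r1_320 (nat_lit 0) (nat_lit 0) (nat_lit 0) (nat_lit 0x7df62c9f40) (nat_lit 1000546560),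
  Rx.mk (nat_lit 392) (nat_lit 0) (nat_lit 1) (nat_lit 6) (nat_lit 6) (nat_lit 185) (nat_lit 321) r10_185 r1_321 (nat_lit 0) (nat_lit 0) (nat_lit 0) (nat_lit 0x7df99bc84a) (nat_lit 993961800),
  Rx.mk (nat_lit 393) (nat_lit 1) (nat_lit 1) (nat_lit 6) (nat_lit 7) (nat_lit 188) (nat_lit 322) r10_188 r1_322 (nat_lit 0) (nat_lit 0) (nat_lit 0) (nat_lit 0x7e5868bb1c) (nat_lit 812191536)]
noncomputable def e18_22 : List Rx := [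
  Rx.mk (nat_lit 256) (nat_lit 0) (nat_lit 0) (nat_lit 4) (nat_lit 0) (nat_lit 191) (nat_lit 381) r10_191 r4_381 (nat_lit 0) (nat_lit 0) (nat_lit 0) (nat_lit 0x38e6b45bd8) (nat_lit 34899093216),
  Rx.mk (nat_lit 257) (nat_lit 1) (nat_lit 0) (nat_lit 4) (nat_lit 1) (nat_lit 199) (nat_lit 384) r10_199 r4_384 (nat_lit 0) (nat_lit 0) (nat_lit 0) (nat_lit 0x7ba0e835dc) (nat_lit 2145744432),
  Rx.mk (nat_lit 258) (nat_lit 2) (nat_lit 0) (nat_lit 4) (nat_lit 1) (nat_lit 207) (nat_lit 387) r10_207 r4_387 (nat_lit 0) (nat_lit 0) (nat_lit 0) (nat_lit 0x7c3386eb5e) (nat_lit 1864615896),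
  Rx.mk (nat_lit 264) (nat_lit 0) (nat_lit 1) (nat_lit 4) (nat_lit 2) (nat_lit 194) (nat_lit 382) r10_194 r4_382 (nat_lit 0) (nat_lit 0) (nat_lit 0) (nat_lit 0x7d28250088) (nat_lit 1395587232),
  Rx.mk (nat_lit 265) (nat_lit 1) (nat_lit 1) (nat_lit 4) (nat_lit 3) (nat_lit 202) (nat_lit 385) r10_202 r4_385 (nat_lit 0) (nat_lit 0) (nat_lit 0) (nat_lit 0x7dce487daa) (nat_lit 1077033672),
  Rx.mk (nat_lit 266) (nat_lit 2) (nat_lit 1) (nat_lit 4) (nat_lit 3) (nat_lit 209) (nat_lit 388) r10_209 r4_388 (nat_lit 0) (nat_lit 0) (nat_lit 0) (nat_lit 0x7dcf0cf162) (nat_lit 1075562280),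
  Rx.mk (nat_lit 274) (nat_lit 2) (nat_lit 2) (nat_lit 4) (nat_lit 3) (nat_lit 210) (nat_lit 389) r10_210 r4_389 (nat_lit 0) (nat_lit 0) (nat_lit 0) (nat_lit 0x7df1be8626) (nat_lit 1009040760),
  Rx.mk (nat_lit 280) (nat_lit 0) (nat_lit 3) (nat_lit 4) (nat_lit 2) (nat_lit 196) (nat_lit 383) r10_196 r4_383 (nat_lit 0) (nat_lit 0) (nat_lit 0) (nat_lit 0x7d70d954fa) (nat_lit 1256184072),
  Rx.mk (nat_lit 281) (nat_lit 1) (nat_lit 3) (nat_lit 4) (nat_lit 3) (nat_lit 204) (nat_lit 386) r10_204 r4_386 (nat_lit 0) (nat_lit 0) (nat_lit 0) (nat_lit 0x7df210a104) (nat_lit 1008425808),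
  Rx.mk (nat_lit 320) (nat_lit 0) (nat_lit 0) (nat_lit 5) (nat_lit 4) (nat_lit 192) (nat_lit 390) r10_192 r4_390 (nat_lit 0) (nat_lit 0) (nat_lit 0) (nat_lit 0x7c966bbcae) (nat_lit 1674997272),
  Rx.mk (nat_lit 321) (nat_lit 1) (nat_lit 0) (nat_lit 5) (nat_lit 5) (nat_lit 200) (nat_lit 392) r10_200 r4_392 (nat_lit 0) (nat_lit 0) (nat_lit 0) (nat_lit 0x7ded13b0d8) (nat_lit 1017989856),
  Rx.mk (nat_lit 322) (nat_lit 2) (nat_lit 0) (nat_lit 5) (nat_lit 5) (nat_lit 208) (nat_lit 394) r10_208 r4_394 (nat_lit 0) (nat_lit 0) (nat_lit 0) (nat_lit 0x7de439be80) (nat_lit 1034961408),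
  Rx.mk (nat_lit 338) (nat_lit 2) (nat_lit 2) (nat_lit 5) (nat_lit 7) (nat_lit 211) (nat_lit 395) r10_211 r4_395 (nat_lit 0) (nat_lit 0) (nat_lit 0) (nat_lit 0x7df5724ae6) (nat_lit 1001942136),
  Rx.mk (nat_lit 344) (nat_lit 0) (nat_lit 3) (nat_lit 5) (nat_lit 6) (nat_lit 197) (nat_lit 391) r10_197 r4_391 (nat_lit 0) (nat_lit 0) (nat_lit 0) (nat_lit 0x7de4ce9532) (nat_lit 1033846632),
  Rx.mk (nat_lit 345) (nat_lit 1) (nat_lit 3) (nat_lit 5) (nat_lit 7) (nat_lit 205) (nat_lit 393) r10_205 r4_393 (nat_lit 0) (nat_lit 0) (nat_lit 0) (nat_lit 0x7df01c204e) (nat_lit 1012174488),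
  Rx.mk (nat_lit 384) (nat_lit 0) (nat_lit 0) (nat_lit 6) (nat_lit 4) (nat_lit 193) (nat_lit 396) r10_193 r4_396 (nat_lit 0) (nat_lit 0) (nat_lit 0) (nat_lit 0x7ccea598d8) (nat_lit 1567189728),
  Rx.mk (nat_lit 385) (nat_lit 1) (nat_lit 0) (nat_lit 6) (nat_lit 5) (nat_lit 201) (nat_lit 399) r10_201 r4_399 (nat_lit 0) (nat_lit 0) (nat_lit 0) (nat_lit 0x7dd7e563d2) (nat_lit 1058601960),
  Rx.mk (nat_lit 392) (nat_lit 0) (nat_lit 1) (nat_lit 6) (nat_lit 6) (nat_lit 195) (nat_lit 397) r10_195 r4_397 (nat_lit 0) (nat_lit 0) (nat_lit 0) (nat_lit 0x7de473dade) (nat_lit 1034526168),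
  Rx.mk (nat_lit 393) (nat_lit 1) (nat_lit 1) (nat_lit 6) (nat_lit 7) (nat_lit 203) (nat_lit 400) r10_203 r4_400 (nat_lit 0) (nat_lit 0) (nat_lit 0) (nat_lit 0x7df3488d84) (nat_lit 1006089552),
  Rx.mk (nat_lit 408) (nat_lit 0) (nat_lit 3) (nat_lit 6) (nat_lit 6) (nat_lit 198) (nat_lit 398) r10_198 r4_398 (nat_lit 0) (nat_lit 0) (nat_lit 0) (nat_lit 0x7dcd522d10) (nat_lit 1078878528),
  Rx.mk (nat_lit 409) (nat_lit 1) (nat_lit 3) (nat_lit 6) (nat_lit 7) (nat_lit 206) (nat_lit 401) r10_206 r4_401 (nat_lit 0) (nat_lit 0) (nat_lit 0) (nat_lit 0x7df70fd10c) (nat_lit 998844912)]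
noncomputable def e18_23 : List Rx := [
  Rx.mk (nat_lit 320) (nat_lit 0) (nat_lit 0) (nat_lit 5) (nat_lit 4) (nat_lit 212) (nat_lit 263) r10_212 r6_263 (nat_lit 0) (nat_lit 0) (nat_lit 0) (nat_lit 0x776214075e) (nat_lit 4229625816),
  Rx.mk (nat_lit 321) (nat_lit 1) (nat_lit 0) (nat_lit 5) (nat_lit 5) (nat_lit 214) (nat_lit 264) r10_214 r6_264 (nat_lit 0) (nat_lit 0) (nat_lit 0) (nat_lit 0x7df79428c6) (nat_lit 997853688),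
  Rx.mk (nat_lit 322) (nat_lit 2) (nat_lit 0) (nat_lit 5) (nat_lit 5) (nat_lit 216) (nat_lit 265) r10_216 r6_265 (nat_lit 0) (nat_lit 0) (nat_lit 0) (nat_lit 0x7dc96b0b86) (nat_lit 1086361848),
  Rx.mk (nat_lit 328) (nat_lit 0) (nat_lit 1) (nat_lit 5) (nat_lit 6) (nat_lit 213) (nat_lit 266) r10_213 r6_266 (nat_lit 0) (nat_lit 0) (nat_lit 0) (nat_lit 0x7dbb30cf38) (nat_lit 1113641568),
  Rx.mk (nat_lit 329) (nat_lit 1) (nat_lit 1) (nat_lit 5) (nat_lit 7) (nat_lit 215) (nat_lit 267) r10_215 r6_267 (nat_lit 0) (nat_lit 0) (nat_lit 0) (nat_lit 0x7de4fa127a) (nat_lit 1033520904),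
  Rx.mk (nat_lit 330) (nat_lit 2) (nat_lit 1) (nat_lit 5) (nat_lit 7) (nat_lit 217) (nat_lit 268) r10_217 r6_268 (nat_lit 0) (nat_lit 0) (nat_lit 0) (nat_lit 0x7dc83d9e5e) (nat_lit 1088619480),
  Rx.mk (nat_lit 338) (nat_lit 2) (nat_lit 2) (nat_lit 5) (nat_lit 7) (nat_lit 218) (nat_lit 269) r10_218 r6_269 (nat_lit 0) (nat_lit 0) (nat_lit 0) (nat_lit 0x7def592c7e) (nat_lit 1013634648)]
noncomputable def e18_24 : List Rx := [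
  Rx.mk (nat_lit 328) (nat_lit 0) (nat_lit 1) (nat_lit 5) (nat_lit 6) (nat_lit 219) (nat_lit 198) r10_219 r7_198 (nat_lit 0) (nat_lit 0) (nat_lit 0) (nat_lit 0x7df20f8116) (nat_lit 1008434232),
  Rx.mk (nat_lit 329) (nat_lit 1) (nat_lit 1) (nat_lit 5) (nat_lit 7) (nat_lit 220) (nat_lit 199) r10_220 r7_199 (nat_lit 0) (nat_lit 0) (nat_lit 0) (nat_lit 0x7de83d5e42) (nat_lit 1027264680),
  Rx.mk (nat_lit 330) (nat_lit 2) (nat_lit 1) (nat_lit 5) (nat_lit 7) (nat_lit 221) (nat_lit 200) r10_221 r7_200 (nat_lit 0) (nat_lit 0) (nat_lit 0) (nat_lit 0x7deb8469ce) (nat_lit 1020980376)]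
noncomputable def e18_25 : List Rx := [
  Rx.mk (nat_lit 82) (nat_lit 2) (nat_lit 2) (nat_lit 1) (nat_lit 7) (nat_lit 229) (nat_lit 367) r10_229 r7_367 (nat_lit 0) (nat_lit 0) (nat_lit 0) (nat_lit 0x7ddf1c9058) (nat_lit 1044766944),
  Rx.mk (nat_lit 320) (nat_lit 0) (nat_lit 0) (nat_lit 5) (nat_lit 4) (nat_lit 222) (nat_lit 368) r10_222 r7_368 (nat_lit 0) (nat_lit 0) (nat_lit 0) (nat_lit 0x6dd2a647ca) (nat_lit 8922316104),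
  Rx.mk (nat_lit 321) (nat_lit 1) (nat_lit 0) (nat_lit 5) (nat_lit 5) (nat_lit 224) (nat_lit 370) r10_224 r7_370 (nat_lit 0) (nat_lit 0) (nat_lit 0) (nat_lit 0x7dd5e543d6) (nat_lit 1062437688),
  Rx.mk (nat_lit 322) (nat_lit 2) (nat_lit 0) (nat_lit 5) (nat_lit 5) (nat_lit 226) (nat_lit 372) r10_226 r7_372 (nat_lit 0) (nat_lit 0) (nat_lit 0) (nat_lit 0x7d483d1ee6) (nat_lit 1334049912),
  Rx.mk (nat_lit 328) (nat_lit 0) (nat_lit 1) (nat_lit 5) (nat_lit 6) (nat_lit 223) (nat_lit 369) r10_223 r7_369 (nat_lit 0) (nat_lit 0) (nat_lit 0) (nat_lit 0x7dce8599d8) (nat_lit 1076575968),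
  Rx.mk (nat_lit 329) (nat_lit 1) (nat_lit 1) (nat_lit 5) (nat_lit 7) (nat_lit 225) (nat_lit 371) r10_225 r7_371 (nat_lit 0) (nat_lit 0) (nat_lit 0) (nat_lit 0x7df118d082) (nat_lit 1010281896),
  Rx.mk (nat_lit 330) (nat_lit 2) (nat_lit 1) (nat_lit 5) (nat_lit 7) (nat_lit 227) (nat_lit 373) r10_227 r7_373 (nat_lit 0) (nat_lit 0) (nat_lit 0) (nat_lit 0x7df32a2f6a) (nat_lit 1006317000),
  Rx.mk (nat_lit 338) (nat_lit 2) (nat_lit 2) (nat_lit 5) (nat_lit 7) (nat_lit 228) (nat_lit 374) r10_228 r7_374 (nat_lit 0) (nat_lit 0) (nat_lit 0) (nat_lit 0x7de7266fb2) (nat_lit 1029353832)]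
noncomputable def e18_26 : List Rx := [
  Rx.mk (nat_lit 320) (nat_lit 0) (nat_lit 0) (nat_lit 5) (nat_lit 4) (nat_lit 230) (nat_lit 206) r10_230 r9_206 (nat_lit 0) (nat_lit 0) (nat_lit 0) (nat_lit 0x7db50971b4) (nat_lit 1125440784),
  Rx.mk (nat_lit 321) (nat_lit 1) (nat_lit 0) (nat_lit 5) (nat_lit 5) (nat_lit 232) (nat_lit 207) r10_232 r9_207 (nat_lit 0) (nat_lit 0) (nat_lit 0) (nat_lit 0x7defa427ce) (nat_lit 1013073048),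
  Rx.mk (nat_lit 322) (nat_lit 2) (nat_lit 0) (nat_lit 5) (nat_lit 5) (nat_lit 234) (nat_lit 208) r10_234 r9_208 (nat_lit 0) (nat_lit 0) (nat_lit 0) (nat_lit 0x7de652fcea) (nat_lit 1030937544),
  Rx.mk (nat_lit 338) (nat_lit 2) (nat_lit 2) (nat_lit 5) (nat_lit 7) (nat_lit 235) (nat_lit 211) r10_235 r9_211 (nat_lit 0) (nat_lit 0) (nat_lit 0) (nat_lit 0x7deffe8228) (nat_lit 1012396320),
  Rx.mk (nat_lit 344) (nat_lit 0) (nat_lit 3) (nat_lit 5) (nat_lit 6) (nat_lit 231) (nat_lit 209) r10_231 r9_209 (nat_lit 0) (nat_lit 0) (nat_lit 0) (nat_lit 0x7def382e8e) (nat_lit 1013881752),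
  Rx.mk (nat_lit 345) (nat_lit 1) (nat_lit 3) (nat_lit 5) (nat_lit 7) (nat_lit 233) (nat_lit 210) r10_233 r9_210 (nat_lit 0) (nat_lit 0) (nat_lit 0) (nat_lit 0x7df680f9fa) (nat_lit 999914760)]
noncomputable def e18_27 : List Rx := [
  Rx.mk (nat_lit 256) (nat_lit 0) (nat_lit 0) (nat_lit 4) (nat_lit 0) (nat_lit 236) (nat_lit 236) r10_236 r10_236 (nat_lit 0) (nat_lit 0) (nat_lit 0) (nat_lit 0x540d4a5750) (nat_lit 21572066880),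
  Rx.mk (nat_lit 257) (nat_lit 1) (nat_lit 0) (nat_lit 4) (nat_lit 1) (nat_lit 246) (nat_lit 240) r10_246 r10_240 (nat_lit 0) (nat_lit 0) (nat_lit 0) (nat_lit 0x7da3588cd4) (nat_lit 1159361424),
  Rx.mk (nat_lit 258) (nat_lit 2) (nat_lit 0) (nat_lit 4) (nat_lit 1) (nat_lit 254) (nat_lit 243) r10_254 r10_243 (nat_lit 0) (nat_lit 0) (nat_lit 0) (nat_lit 0x7d57554d54) (nat_lit 1305107856),
  Rx.mk (nat_lit 264) (nat_lit 0) (nat_lit 1) (nat_lit 4) (nat_lit 2) (nat_lit 240) (nat_lit 246) r10_240 r10_246 (nat_lit 0) (nat_lit 0) (nat_lit 0) (nat_lit 0x7da3588cd4) (nat_lit 1159361424),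
  Rx.mk (nat_lit 265) (nat_lit 1) (nat_lit 1) (nat_lit 4) (nat_lit 3) (nat_lit 249) (nat_lit 249) r10_249 r10_249 (nat_lit 0) (nat_lit 0) (nat_lit 0) (nat_lit 0x7df2331edc) (nat_lit 1008167472),
  Rx.mk (nat_lit 266) (nat_lit 2) (nat_lit 1) (nat_lit 4) (nat_lit 3) (nat_lit 257) (nat_lit 252) r10_257 r10_252 (nat_lit 0) (nat_lit 0) (nat_lit 0) (nat_lit 0x7ddd346edc) (nat_lit 1048422960),
  Rx.mk (nat_lit 274) (nat_lit 2) (nat_lit 2) (nat_lit 4) (nat_lit 3) (nat_lit 259) (nat_lit 262) r10_259 r10_262 (nat_lit 0) (nat_lit 0) (nat_lit 0) (nat_lit 0x7df1402e0c) (nat_lit 1009987056),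
  Rx.mk (nat_lit 280) (nat_lit 0) (nat_lit 3) (nat_lit 4) (nat_lit 2) (nat_lit 243) (nat_lit 254) r10_243 r10_254 (nat_lit 0) (nat_lit 0) (nat_lit 0) (nat_lit 0x7d57554d54) (nat_lit 1305107856),
  Rx.mk (nat_lit 281) (nat_lit 1) (nat_lit 3) (nat_lit 4) (nat_lit 3) (nat_lit 252) (nat_lit 257) r10_252 r10_257 (nat_lit 0) (nat_lit 0) (nat_lit 0) (nat_lit 0x7ddd346edc) (nat_lit 1048422960),
  Rx.mk (nat_lit 283) (nat_lit 3) (nat_lit 3) (nat_lit 4) (nat_lit 3) (nat_lit 262) (nat_lit 259) r10_262 r10_259 (nat_lit 0) (nat_lit 0) (nat_lit 0) (nat_lit 0x7df1402e0c) (nat_lit 1009987056),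
  Rx.mk (nat_lit 320) (nat_lit 0) (nat_lit 0) (nat_lit 5) (nat_lit 4) (nat_lit 237) (nat_lit 237) r10_237 r10_237 (nat_lit 0) (nat_lit 0) (nat_lit 0) (nat_lit 0x7de7980898) (nat_lit 1028503008),
  Rx.mk (nat_lit 322) (nat_lit 2) (nat_lit 0) (nat_lit 5) (nat_lit 5) (nat_lit 255) (nat_lit 244) r10_255 r10_244 (nat_lit 0) (nat_lit 0) (nat_lit 0) (nat_lit 0x7df6641bc8) (nat_lit 1000130976),
  Rx.mk (nat_lit 338) (nat_lit 2) (nat_lit 2) (nat_lit 5) (nat_lit 7) (nat_lit 260) (nat_lit 263) r10_260 r10_263 (nat_lit 0) (nat_lit 0) (nat_lit 0) (nat_lit 0x7df1978896) (nat_lit 1009332792),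
  Rx.mk (nat_lit 344) (nat_lit 0) (nat_lit 3) (nat_lit 5) (nat_lit 6) (nat_lit 244) (nat_lit 255) r10_244 r10_255 (nat_lit 0) (nat_lit 0) (nat_lit 0) (nat_lit 0x7df6641bc8) (nat_lit 1000130976),
  Rx.mk (nat_lit 347) (nat_lit 3) (nat_lit 3) (nat_lit 5) (nat_lit 7) (nat_lit 263) (nat_lit 260) r10_263 r10_260 (nat_lit 0) (nat_lit 0) (nat_lit 0) (nat_lit 0x7df1978896) (nat_lit 1009332792),
  Rx.mk (nat_lit 384) (nat_lit 0) (nat_lit 0) (nat_lit 6) (nat_lit 4) (nat_lit 238) (nat_lit 239) r10_238 r10_239 (nat_lit 0) (nat_lit 0) (nat_lit 0) (nat_lit 0x7dbee7f3c2) (nat_lit 1106517672),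
  Rx.mk (nat_lit 385) (nat_lit 1) (nat_lit 0) (nat_lit 6) (nat_lit 5) (nat_lit 247) (nat_lit 242) r10_247 r10_242 (nat_lit 0) (nat_lit 0) (nat_lit 0) (nat_lit 0x7de958cc8a) (nat_lit 1025141832),
  Rx.mk (nat_lit 392) (nat_lit 0) (nat_lit 1) (nat_lit 6) (nat_lit 6) (nat_lit 241) (nat_lit 248) r10_241 r10_248 (nat_lit 0) (nat_lit 0) (nat_lit 0) (nat_lit 0x7df1b106fe) (nat_lit 1009141848),
  Rx.mk (nat_lit 393) (nat_lit 1) (nat_lit 1) (nat_lit 6) (nat_lit 7) (nat_lit 250) (nat_lit 251) r10_250 r10_251 (nat_lit 0) (nat_lit 0) (nat_lit 0) (nat_lit 0x7defa487c8) (nat_lit 1013070240),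
  Rx.mk (nat_lit 408) (nat_lit 0) (nat_lit 3) (nat_lit 6) (nat_lit 6) (nat_lit 245) (nat_lit 256) r10_245 r10_256 (nat_lit 0) (nat_lit 0) (nat_lit 0) (nat_lit 0x7dd66edb3c) (nat_lit 1061407152),
  Rx.mk (nat_lit 409) (nat_lit 1) (nat_lit 3) (nat_lit 6) (nat_lit 7) (nat_lit 253) (nat_lit 258) r10_253 r10_258 (nat_lit 0) (nat_lit 0) (nat_lit 0) (nat_lit 0x7df79428c6) (nat_lit 997853688),
  Rx.mk (nat_lit 411) (nat_lit 3) (nat_lit 3) (nat_lit 6) (nat_lit 7) (nat_lit 264) (nat_lit 261) r10_264 r10_261 (nat_lit 0) (nat_lit 0) (nat_lit 0) (nat_lit 0x7de80a0178) (nat_lit 1027649376),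
  Rx.mk (nat_lit 448) (nat_lit 0) (nat_lit 0) (nat_lit 7) (nat_lit 4) (nat_lit 239) (nat_lit 238) r10_239 r10_238 (nat_lit 0) (nat_lit 0) (nat_lit 0) (nat_lit 0x7dbee7f3c2) (nat_lit 1106517672),
  Rx.mk (nat_lit 449) (nat_lit 1) (nat_lit 0) (nat_lit 7) (nat_lit 5) (nat_lit 248) (nat_lit 241) r10_248 r10_241 (nat_lit 0) (nat_lit 0) (nat_lit 0) (nat_lit 0x7df1b106fe) (nat_lit 1009141848),
  Rx.mk (nat_lit 450) (nat_lit 2) (nat_lit 0) (nat_lit 7) (nat_lit 5) (nat_lit 256) (nat_lit 245) r10_256 r10_245 (nat_lit 0) (nat_lit 0) (nat_lit 0) (nat_lit 0x7dd66edb3c) (nat_lit 1061407152),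
  Rx.mk (nat_lit 456) (nat_lit 0) (nat_lit 1) (nat_lit 7) (nat_lit 6) (nat_lit 242) (nat_lit 247) r10_242 r10_247 (nat_lit 0) (nat_lit 0) (nat_lit 0) (nat_lit 0x7de958cc8a) (nat_lit 1025141832),
  Rx.mk (nat_lit 457) (nat_lit 1) (nat_lit 1) (nat_lit 7) (nat_lit 7) (nat_lit 251) (nat_lit 250) r10_251 r10_250 (nat_lit 0) (nat_lit 0) (nat_lit 0) (nat_lit 0x7defa487c8) (nat_lit 1013070240),
  Rx.mk (nat_lit 458) (nat_lit 2) (nat_lit 1) (nat_lit 7) (nat_lit 7) (nat_lit 258) (nat_lit 253) r10_258 r10_253 (nat_lit 0) (nat_lit 0) (nat_lit 0) (nat_lit 0x7df79428c6) (nat_lit 997853688),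
  Rx.mk (nat_lit 466) (nat_lit 2) (nat_lit 2) (nat_lit 7) (nat_lit 7) (nat_lit 261) (nat_lit 264) r10_261 r10_264 (nat_lit 0) (nat_lit 0) (nat_lit 0) (nat_lit 0x7de80a0178) (nat_lit 1027649376)]
noncomputable def e18_28 : List Rx := []
noncomputable def e18_29 : List Rx := [
  Rx.mk (nat_lit 280) (nat_lit 0) (nat_lit 3) (nat_lit 4) (nat_lit 2) (nat_lit 267) (nat_lit 356) r10_267 r5_356 (nat_lit 0) (nat_lit 0) (nat_lit 0) (nat_lit 0x79a5149512) (nat_lit 3119449320),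
  Rx.mk (nat_lit 281) (nat_lit 1) (nat_lit 3) (nat_lit 4) (nat_lit 3) (nat_lit 270) (nat_lit 359) r10_270 r5_359 (nat_lit 0) (nat_lit 0) (nat_lit 0) (nat_lit 0x7e01da245c) (nat_lit 978155568),
  Rx.mk (nat_lit 282) (nat_lit 2) (nat_lit 3) (nat_lit 4) (nat_lit 3) (nat_lit 272) (nat_lit 362) r10_272 r5_362 (nat_lit 0) (nat_lit 0) (nat_lit 0) (nat_lit 0x7df2dd5438) (nat_lit 1006892640),
  Rx.mk (nat_lit 408) (nat_lit 0) (nat_lit 3) (nat_lit 6) (nat_lit 6) (nat_lit 268) (nat_lit 358) r10_268 r5_358 (nat_lit 0) (nat_lit 0) (nat_lit 0) (nat_lit 0x7e095e2c14) (nat_lit 963744912),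
  Rx.mk (nat_lit 409) (nat_lit 1) (nat_lit 3) (nat_lit 6) (nat_lit 7) (nat_lit 271) (nat_lit 361) r10_271 r5_361 (nat_lit 0) (nat_lit 0) (nat_lit 0) (nat_lit 0x7df4315ef6) (nat_lit 1004345784),
  Rx.mk (nat_lit 440) (nat_lit 0) (nat_lit 7) (nat_lit 6) (nat_lit 6) (nat_lit 266) (nat_lit 357) r10_266 r5_357 (nat_lit 0) (nat_lit 0) (nat_lit 0) (nat_lit 0x7ed4e452e6) (nat_lit 573508728),
  Rx.mk (nat_lit 441) (nat_lit 1) (nat_lit 7) (nat_lit 6) (nat_lit 7) (nat_lit 269) (nat_lit 360) r10_269 r5_360 (nat_lit 0) (nat_lit 0) (nat_lit 0) (nat_lit 0x7eb07799d6) (nat_lit 643349304)]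
noncomputable def e18_30 : List Rx := [
  Rx.mk (nat_lit 344) (nat_lit 0) (nat_lit 3) (nat_lit 5) (nat_lit 6) (nat_lit 281) (nat_lit 368) r10_281 r10_368 (nat_lit 0) (nat_lit 0) (nat_lit 0) (nat_lit 0x7df1570c9e) (nat_lit 1009815768),
  Rx.mk (nat_lit 345) (nat_lit 1) (nat_lit 3) (nat_lit 5) (nat_lit 7) (nat_lit 282) (nat_lit 369) r10_282 r10_369 (nat_lit 0) (nat_lit 0) (nat_lit 0) (nat_lit 0x7df79428c6) (nat_lit 997853688),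
  Rx.mk (nat_lit 346) (nat_lit 2) (nat_lit 3) (nat_lit 5) (nat_lit 7) (nat_lit 283) (nat_lit 370) r10_283 r10_370 (nat_lit 0) (nat_lit 0) (nat_lit 0) (nat_lit 0x7df441ddee) (nat_lit 1004222232)]
noncomputable def e18_31 : List Rx := [
  Rx.mk (nat_lit 440) (nat_lit 0) (nat_lit 7) (nat_lit 6) (nat_lit 6) (nat_lit 284) (nat_lit 254) r10_284 r5_254 (nat_lit 0) (nat_lit 0) (nat_lit 0) (nat_lit 0x7e9ce972cc) (nat_lit 680844528),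
  Rx.mk (nat_lit 441) (nat_lit 1) (nat_lit 7) (nat_lit 6) (nat_lit 7) (nat_lit 285) (nat_lit 255) r10_285 r5_255 (nat_lit 0) (nat_lit 0) (nat_lit 0) (nat_lit 0x7eb3926826) (nat_lit 637396344),
  Rx.mk (nat_lit 443) (nat_lit 3) (nat_lit 7) (nat_lit 6) (nat_lit 7) (nat_lit 286) (nat_lit 256) r10_286 r5_256 (nat_lit 0) (nat_lit 0) (nat_lit 0) (nat_lit 0x7eba8a38a2) (nat_lit 624035880)]
noncomputable def e18_32 : List Rx := [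
  Rx.mk (nat_lit 280) (nat_lit 0) (nat_lit 3) (nat_lit 4) (nat_lit 2) (nat_lit 288) (nat_lit 154) r10_288 r11_154 (nat_lit 0) (nat_lit 0) (nat_lit 0) (nat_lit 0x73c76ed54c) (nat_lit 5998702320),
  Rx.mk (nat_lit 281) (nat_lit 1) (nat_lit 3) (nat_lit 4) (nat_lit 3) (nat_lit 292) (nat_lit 158) r10_292 r11_158 (nat_lit 0) (nat_lit 0) (nat_lit 0) (nat_lit 0x7dd14ded50) (nat_lit 1071240768),
  Rx.mk (nat_lit 282) (nat_lit 2) (nat_lit 3) (nat_lit 4) (nat_lit 3) (nat_lit 295) (nat_lit 163) r10_295 r11_163 (nat_lit 0) (nat_lit 0) (nat_lit 0) (nat_lit 0x7d8b3fce78) (nat_lit 1205564256),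
  Rx.mk (nat_lit 408) (nat_lit 0) (nat_lit 3) (nat_lit 6) (nat_lit 6) (nat_lit 289) (nat_lit 156) r10_289 r11_156 (nat_lit 0) (nat_lit 0) (nat_lit 0) (nat_lit 0x7d45698c22) (nat_lit 1339469352),
  Rx.mk (nat_lit 409) (nat_lit 1) (nat_lit 3) (nat_lit 6) (nat_lit 7) (nat_lit 293) (nat_lit 160) r10_293 r11_160 (nat_lit 0) (nat_lit 0) (nat_lit 0) (nat_lit 0x7df4f75296) (nat_lit 1002863160),
  Rx.mk (nat_lit 440) (nat_lit 0) (nat_lit 7) (nat_lit 6) (nat_lit 6) (nat_lit 287) (nat_lit 157) r10_287 r11_157 (nat_lit 0) (nat_lit 0) (nat_lit 0) (nat_lit 0x7eeaa716a4) (nat_lit 531784656),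
  Rx.mk (nat_lit 441) (nat_lit 1) (nat_lit 7) (nat_lit 6) (nat_lit 7) (nat_lit 291) (nat_lit 161) r10_291 r11_161 (nat_lit 0) (nat_lit 0) (nat_lit 0) (nat_lit 0x7ed7099090) (nat_lit 569395008),
  Rx.mk (nat_lit 443) (nat_lit 3) (nat_lit 7) (nat_lit 6) (nat_lit 7) (nat_lit 297) (nat_lit 162) r10_297 r11_162 (nat_lit 0) (nat_lit 0) (nat_lit 0) (nat_lit 0x7ed6cb5474) (nat_lit 569861136),
  Rx.mk (nat_lit 472) (nat_lit 0) (nat_lit 3) (nat_lit 7) (nat_lit 6) (nat_lit 290) (nat_lit 155) r10_290 r11_155 (nat_lit 0) (nat_lit 0) (nat_lit 0) (nat_lit 0x7e5f76aa36) (nat_lit 798665400),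
  Rx.mk (nat_lit 473) (nat_lit 1) (nat_lit 3) (nat_lit 7) (nat_lit 7) (nat_lit 294) (nat_lit 159) r10_294 r11_159 (nat_lit 0) (nat_lit 0) (nat_lit 0) (nat_lit 0x7df4cdb530) (nat_lit 1003174848),
  Rx.mk (nat_lit 474) (nat_lit 2) (nat_lit 3) (nat_lit 7) (nat_lit 7) (nat_lit 296) (nat_lit 164) r10_296 r11_164 (nat_lit 0) (nat_lit 0) (nat_lit 0) (nat_lit 0x7def628be8) (nat_lit 1013564448)]
noncomputable def e18_33 : List Rx := [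
  Rx.mk (nat_lit 417) (nat_lit 1) (nat_lit 4) (nat_lit 6) (nat_lit 5) (nat_lit 298) (nat_lit 327) r10_298 r0_327 (nat_lit 0) (nat_lit 0) (nat_lit 0) (nat_lit 0x7e2b75aa7a) (nat_lit 898377480),
  Rx.mk (nat_lit 425) (nat_lit 1) (nat_lit 5) (nat_lit 6) (nat_lit 7) (nat_lit 299) (nat_lit 328) r10_299 r0_328 (nat_lit 0) (nat_lit 0) (nat_lit 0) (nat_lit 0x7df79428c6) (nat_lit 997853688)]
noncomputable def e18_34 : List Rx := [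
  Rx.mk (nat_lit 417) (nat_lit 1) (nat_lit 4) (nat_lit 6) (nat_lit 5) (nat_lit 302) (nat_lit 225) r10_302 r0_225 (nat_lit 0) (nat_lit 0) (nat_lit 0) (nat_lit 0x7c7d384ffe) (nat_lit 1723317336),
  Rx.mk (nat_lit 421) (nat_lit 5) (nat_lit 4) (nat_lit 6) (nat_lit 5) (nat_lit 300) (nat_lit 226) r10_300 r0_226 (nat_lit 0) (nat_lit 0) (nat_lit 0) (nat_lit 0x7dddc22600) (nat_lit 1047361536),
  Rx.mk (nat_lit 445) (nat_lit 5) (nat_lit 7) (nat_lit 6) (nat_lit 7) (nat_lit 301) (nat_lit 227) r10_301 r0_227 (nat_lit 0) (nat_lit 0) (nat_lit 0) (nat_lit 0x7e9ab5f606) (nat_lit 685064952)]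
noncomputable def e18_35 : List Rx := [
  Rx.mk (nat_lit 417) (nat_lit 1) (nat_lit 4) (nat_lit 6) (nat_lit 5) (nat_lit 306) (nat_lit 442) r10_306 r6_442 (nat_lit 0) (nat_lit 0) (nat_lit 0) (nat_lit 0x7de08359ea) (nat_lit 1042079688),
  Rx.mk (nat_lit 421) (nat_lit 5) (nat_lit 4) (nat_lit 6) (nat_lit 5) (nat_lit 303) (nat_lit 439) r10_303 r6_439 (nat_lit 0) (nat_lit 0) (nat_lit 0) (nat_lit 0x7de1356ec8) (nat_lit 1040745888),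
  Rx.mk (nat_lit 425) (nat_lit 1) (nat_lit 5) (nat_lit 6) (nat_lit 7) (nat_lit 307) (nat_lit 443) r10_307 r6_443 (nat_lit 0) (nat_lit 0) (nat_lit 0) (nat_lit 0x7de6505d14) (nat_lit 1030957200),
  Rx.mk (nat_lit 429) (nat_lit 5) (nat_lit 5) (nat_lit 6) (nat_lit 7) (nat_lit 304) (nat_lit 440) r10_304 r6_440 (nat_lit 0) (nat_lit 0) (nat_lit 0) (nat_lit 0x7df52a4f66) (nat_lit 1002481272),
  Rx.mk (nat_lit 445) (nat_lit 5) (nat_lit 7) (nat_lit 6) (nat_lit 7) (nat_lit 305) (nat_lit 441) r10_305 r6_441 (nat_lit 0) (nat_lit 0) (nat_lit 0) (nat_lit 0x7dcf9d485c) (nat_lit 1074481200)]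
noncomputable def e18_36 : List Rx := [
  Rx.mk (nat_lit 164) (nat_lit 4) (nat_lit 4) (nat_lit 2) (nat_lit 4) (nat_lit 309) (nat_lit 258) r10_309 r2_258 (nat_lit 0) (nat_lit 0) (nat_lit 0) (nat_lit 0x66e4917006) (nat_lit 12323932920),
  Rx.mk (nat_lit 165) (nat_lit 5) (nat_lit 4) (nat_lit 2) (nat_lit 5) (nat_lit 313) (nat_lit 259) r10_313 r2_259 (nat_lit 0) (nat_lit 0) (nat_lit 0) (nat_lit 0x7dd88cf958) (nat_lit 1057346784),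
  Rx.mk (nat_lit 180) (nat_lit 4) (nat_lit 6) (nat_lit 2) (nat_lit 6) (nat_lit 310) (nat_lit 265) r10_310 r2_265 (nat_lit 0) (nat_lit 0) (nat_lit 0) (nat_lit 0x7dd287b9b2) (nat_lit 1068890472),
  Rx.mk (nat_lit 181) (nat_lit 5) (nat_lit 6) (nat_lit 2) (nat_lit 7) (nat_lit 314) (nat_lit 266) r10_314 r2_266 (nat_lit 0) (nat_lit 0) (nat_lit 0) (nat_lit 0x7dd90551d2) (nat_lit 1056445416),
  Rx.mk (nat_lit 182) (nat_lit 6) (nat_lit 6) (nat_lit 2) (nat_lit 7) (nat_lit 316) (nat_lit 267) r10_316 r2_267 (nat_lit 0) (nat_lit 0) (nat_lit 0) (nat_lit 0x7df6d8b47e) (nat_lit 999257688),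
  Rx.mk (nat_lit 420) (nat_lit 4) (nat_lit 4) (nat_lit 6) (nat_lit 4) (nat_lit 308) (nat_lit 260) r10_308 r2_260 (nat_lit 0) (nat_lit 0) (nat_lit 0) (nat_lit 0x6a7892cc5c) (nat_lit 10567587888),
  Rx.mk (nat_lit 421) (nat_lit 5) (nat_lit 4) (nat_lit 6) (nat_lit 5) (nat_lit 312) (nat_lit 261) r10_312 r2_261 (nat_lit 0) (nat_lit 0) (nat_lit 0) (nat_lit 0x7dda7c9a5c) (nat_lit 1053634608),
  Rx.mk (nat_lit 444) (nat_lit 4) (nat_lit 7) (nat_lit 6) (nat_lit 6) (nat_lit 311) (nat_lit 262) r10_311 r2_262 (nat_lit 0) (nat_lit 0) (nat_lit 0) (nat_lit 0x7dc32e4f58) (nat_lit 1098321120),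
  Rx.mk (nat_lit 445) (nat_lit 5) (nat_lit 7) (nat_lit 6) (nat_lit 7) (nat_lit 315) (nat_lit 263) r10_315 r2_263 (nat_lit 0) (nat_lit 0) (nat_lit 0) (nat_lit 0x7de6ab7762) (nat_lit 1030274856),
  Rx.mk (nat_lit 447) (nat_lit 7) (nat_lit 7) (nat_lit 6) (nat_lit 7) (nat_lit 317) (nat_lit 264) r10_317 r2_264 (nat_lit 0) (nat_lit 0) (nat_lit 0) (nat_lit 0x7df7510cf8) (nat_lit 998356320)]
noncomputable def e18_37 : List Rx := [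
  Rx.mk (nat_lit 164) (nat_lit 4) (nat_lit 4) (nat_lit 2) (nat_lit 4) (nat_lit 319) (nat_lit 229) r10_319 r8_229 (nat_lit 0) (nat_lit 0) (nat_lit 0) (nat_lit 0x76844a04dc) (nat_lit 4654883376),
  Rx.mk (nat_lit 165) (nat_lit 5) (nat_lit 4) (nat_lit 2) (nat_lit 5) (nat_lit 323) (nat_lit 230) r10_323 r8_230 (nat_lit 0) (nat_lit 0) (nat_lit 0) (nat_lit 0x7dd91db04c) (nat_lit 1056262896),
  Rx.mk (nat_lit 173) (nat_lit 5) (nat_lit 5) (nat_lit 2) (nat_lit 7) (nat_lit 325) (nat_lit 233) r10_325 r8_233 (nat_lit 0) (nat_lit 0) (nat_lit 0) (nat_lit 0x7df5994876) (nat_lit 1001650104),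
  Rx.mk (nat_lit 180) (nat_lit 4) (nat_lit 6) (nat_lit 2) (nat_lit 6) (nat_lit 320) (nat_lit 238) r10_320 r8_238 (nat_lit 0) (nat_lit 0) (nat_lit 0) (nat_lit 0x7db5be8662) (nat_lit 1124084520),
  Rx.mk (nat_lit 181) (nat_lit 5) (nat_lit 6) (nat_lit 2) (nat_lit 7) (nat_lit 326) (nat_lit 239) r10_326 r8_239 (nat_lit 0) (nat_lit 0) (nat_lit 0) (nat_lit 0x7df0180090) (nat_lit 1012205376),
  Rx.mk (nat_lit 182) (nat_lit 6) (nat_lit 6) (nat_lit 2) (nat_lit 7) (nat_lit 328) (nat_lit 240) r10_328 r8_240 (nat_lit 0) (nat_lit 0) (nat_lit 0) (nat_lit 0x7df39d4838) (nat_lit 1005454944),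
  Rx.mk (nat_lit 420) (nat_lit 4) (nat_lit 4) (nat_lit 6) (nat_lit 4) (nat_lit 318) (nat_lit 231) r10_318 r8_231 (nat_lit 0) (nat_lit 0) (nat_lit 0) (nat_lit 0x74c5e86cb4) (nat_lit 5510773008),
  Rx.mk (nat_lit 421) (nat_lit 5) (nat_lit 4) (nat_lit 6) (nat_lit 5) (nat_lit 322) (nat_lit 232) r10_322 r8_232 (nat_lit 0) (nat_lit 0) (nat_lit 0) (nat_lit 0x7de5ce4536) (nat_lit 1031931576),
  Rx.mk (nat_lit 429) (nat_lit 5) (nat_lit 5) (nat_lit 6) (nat_lit 7) (nat_lit 324) (nat_lit 234) r10_324 r8_234 (nat_lit 0) (nat_lit 0) (nat_lit 0) (nat_lit 0x7deef3f2d2) (nat_lit 1014392808),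
  Rx.mk (nat_lit 444) (nat_lit 4) (nat_lit 7) (nat_lit 6) (nat_lit 6) (nat_lit 321) (nat_lit 235) r10_321 r8_235 (nat_lit 0) (nat_lit 0) (nat_lit 0) (nat_lit 0x7de41b006c) (nat_lit 1035191664),
  Rx.mk (nat_lit 445) (nat_lit 5) (nat_lit 7) (nat_lit 6) (nat_lit 7) (nat_lit 327) (nat_lit 236) r10_327 r8_236 (nat_lit 0) (nat_lit 0) (nat_lit 0) (nat_lit 0x7dcf8f693a) (nat_lit 1074585096),
  Rx.mk (nat_lit 447) (nat_lit 7) (nat_lit 7) (nat_lit 6) (nat_lit 7) (nat_lit 329) (nat_lit 237) r10_329 r8_237 (nat_lit 0) (nat_lit 0) (nat_lit 0) (nat_lit 0x7df16d2b3c) (nat_lit 1009650096)]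
noncomputable def e18_38 : List Rx := [
  Rx.mk (nat_lit 180) (nat_lit 4) (nat_lit 6) (nat_lit 2) (nat_lit 6) (nat_lit 330) (nat_lit 216) r10_330 r8_216 (nat_lit 0) (nat_lit 0) (nat_lit 0) (nat_lit 0x7dca825a10) (nat_lit 1084269888),
  Rx.mk (nat_lit 181) (nat_lit 5) (nat_lit 6) (nat_lit 2) (nat_lit 7) (nat_lit 331) (nat_lit 217) r10_331 r8_217 (nat_lit 0) (nat_lit 0) (nat_lit 0) (nat_lit 0x7dde527cfa) (nat_lit 1046280456),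
  Rx.mk (nat_lit 182) (nat_lit 6) (nat_lit 6) (nat_lit 2) (nat_lit 7) (nat_lit 332) (nat_lit 218) r10_332 r8_218 (nat_lit 0) (nat_lit 0) (nat_lit 0) (nat_lit 0x7de88a996e) (nat_lit 1026686232)]
noncomputable def e18_39 : List Rx := [
  Rx.mk (nat_lit 421) (nat_lit 5) (nat_lit 4) (nat_lit 6) (nat_lit 5) (nat_lit 333) (nat_lit 244) r10_333 r1_244 (nat_lit 0) (nat_lit 0) (nat_lit 0) (nat_lit 0x7dc4b676d4) (nat_lit 1095383952),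
  Rx.mk (nat_lit 445) (nat_lit 5) (nat_lit 7) (nat_lit 6) (nat_lit 7) (nat_lit 334) (nat_lit 245) r10_334 r1_245 (nat_lit 0) (nat_lit 0) (nat_lit 0) (nat_lit 0x7e352a8f22) (nat_lit 879766056)]
noncomputable def e18_40 : List Rx := [
  Rx.mk (nat_lit 421) (nat_lit 5) (nat_lit 4) (nat_lit 6) (nat_lit 5) (nat_lit 335) (nat_lit 358) r10_335 r7_358 (nat_lit 0) (nat_lit 0) (nat_lit 0) (nat_lit 0x7de88259f2) (nat_lit 1026748008),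
  Rx.mk (nat_lit 429) (nat_lit 5) (nat_lit 5) (nat_lit 6) (nat_lit 7) (nat_lit 336) (nat_lit 359) r10_336 r7_359 (nat_lit 0) (nat_lit 0) (nat_lit 0) (nat_lit 0x7de822bfec) (nat_lit 1027464048),
  Rx.mk (nat_lit 445) (nat_lit 5) (nat_lit 7) (nat_lit 6) (nat_lit 7) (nat_lit 337) (nat_lit 360) r10_337 r7_360 (nat_lit 0) (nat_lit 0) (nat_lit 0) (nat_lit 0x7df139ce72) (nat_lit 1010034792)]
noncomputable def e18_41 : List Rx := [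
  Rx.mk (nat_lit 425) (nat_lit 1) (nat_lit 5) (nat_lit 6) (nat_lit 7) (nat_lit 338) (nat_lit 309) r10_338 r1_309 (nat_lit 0) (nat_lit 0) (nat_lit 0) (nat_lit 0x7df8d574b0) (nat_lit 995447232)]
noncomputable def e18_42 : List Rx := [
  Rx.mk (nat_lit 265) (nat_lit 1) (nat_lit 1) (nat_lit 4) (nat_lit 3) (nat_lit 340) (nat_lit 356) r10_340 r2_356 (nat_lit 0) (nat_lit 0) (nat_lit 0) (nat_lit 0x7da4f55306) (nat_lit 1156269816),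
  Rx.mk (nat_lit 329) (nat_lit 1) (nat_lit 1) (nat_lit 5) (nat_lit 7) (nat_lit 341) (nat_lit 357) r10_341 r2_357 (nat_lit 0) (nat_lit 0) (nat_lit 0) (nat_lit 0x7df51550b6) (nat_lit 1002638520),
  Rx.mk (nat_lit 393) (nat_lit 1) (nat_lit 1) (nat_lit 6) (nat_lit 7) (nat_lit 342) (nat_lit 359) r10_342 r2_359 (nat_lit 0) (nat_lit 0) (nat_lit 0) (nat_lit 0x7df79428c6) (nat_lit 997853688),
  Rx.mk (nat_lit 425) (nat_lit 1) (nat_lit 5) (nat_lit 6) (nat_lit 7) (nat_lit 339) (nat_lit 358) r10_339 r2_358 (nat_lit 0) (nat_lit 0) (nat_lit 0) (nat_lit 0x7dec0621b2) (nat_lit 1020008808)]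
noncomputable def e18_43 : List Rx := [
  Rx.mk (nat_lit 425) (nat_lit 1) (nat_lit 5) (nat_lit 6) (nat_lit 7) (nat_lit 344) (nat_lit 219) r10_344 r7_219 (nat_lit 0) (nat_lit 0) (nat_lit 0) (nat_lit 0x7de8ed3344) (nat_lit 1025947728),
  Rx.mk (nat_lit 429) (nat_lit 5) (nat_lit 5) (nat_lit 6) (nat_lit 7) (nat_lit 343) (nat_lit 220) r10_343 r7_220 (nat_lit 0) (nat_lit 0) (nat_lit 0) (nat_lit 0x7de0f07318) (nat_lit 1041262560)]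
noncomputable def e18_44 : List Rx := [
  Rx.mk (nat_lit 265) (nat_lit 1) (nat_lit 1) (nat_lit 4) (nat_lit 3) (nat_lit 347) (nat_lit 320) r10_347 r8_320 (nat_lit 0) (nat_lit 0) (nat_lit 0) (nat_lit 0x7d5d8ae9f4) (nat_lit 1293201936),
  Rx.mk (nat_lit 329) (nat_lit 1) (nat_lit 1) (nat_lit 5) (nat_lit 7) (nat_lit 348) (nat_lit 321) r10_348 r8_321 (nat_lit 0) (nat_lit 0) (nat_lit 0) (nat_lit 0x7de98b6960) (nat_lit 1024762752),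
  Rx.mk (nat_lit 393) (nat_lit 1) (nat_lit 1) (nat_lit 6) (nat_lit 7) (nat_lit 349) (nat_lit 323) r10_349 r8_323 (nat_lit 0) (nat_lit 0) (nat_lit 0) (nat_lit 0x7dd48359f6) (nat_lit 1065088440),
  Rx.mk (nat_lit 425) (nat_lit 1) (nat_lit 5) (nat_lit 6) (nat_lit 7) (nat_lit 346) (nat_lit 322) r10_346 r8_322 (nat_lit 0) (nat_lit 0) (nat_lit 0) (nat_lit 0x7ddf600c20) (nat_lit 1044261504),
  Rx.mk (nat_lit 429) (nat_lit 5) (nat_lit 5) (nat_lit 6) (nat_lit 7) (nat_lit 345) (nat_lit 319) r10_345 r8_319 (nat_lit 0) (nat_lit 0) (nat_lit 0) (nat_lit 0x7de3095188) (nat_lit 1037241504)]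
noncomputable def e18_45 : List Rx := [
  Rx.mk (nat_lit 329) (nat_lit 1) (nat_lit 1) (nat_lit 5) (nat_lit 7) (nat_lit 350) (nat_lit 327) r10_350 r8_327 (nat_lit 0) (nat_lit 0) (nat_lit 0) (nat_lit 0x7ded710b02) (nat_lit 1017290664)]
noncomputable def e18_46 : List Rx := [
  Rx.mk (nat_lit 417) (nat_lit 1) (nat_lit 4) (nat_lit 6) (nat_lit 5) (nat_lit 353) (nat_lit 363) r10_353 r4_363 (nat_lit 0) (nat_lit 0) (nat_lit 0) (nat_lit 0x7e35dac41e) (nat_lit 878446296),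
  Rx.mk (nat_lit 425) (nat_lit 1) (nat_lit 5) (nat_lit 6) (nat_lit 7) (nat_lit 354) (nat_lit 364) r10_354 r4_364 (nat_lit 0) (nat_lit 0) (nat_lit 0) (nat_lit 0x7df12eef20) (nat_lit 1010116224),
  Rx.mk (nat_lit 441) (nat_lit 1) (nat_lit 7) (nat_lit 6) (nat_lit 7) (nat_lit 355) (nat_lit 365) r10_355 r4_365 (nat_lit 0) (nat_lit 0) (nat_lit 0) (nat_lit 0x7df06e3b2c) (nat_lit 1011559536)]
noncomputable def e18_47 : List Rx := [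
  Rx.mk (nat_lit 417) (nat_lit 1) (nat_lit 4) (nat_lit 6) (nat_lit 5) (nat_lit 358) (nat_lit 226) r10_358 r4_226 (nat_lit 0) (nat_lit 0) (nat_lit 0) (nat_lit 0x7adab11a14) (nat_lit 2525801616),
  Rx.mk (nat_lit 441) (nat_lit 1) (nat_lit 7) (nat_lit 6) (nat_lit 7) (nat_lit 359) (nat_lit 227) r10_359 r4_227 (nat_lit 0) (nat_lit 0) (nat_lit 0) (nat_lit 0x7e63204f98) (nat_lit 791642592),
  Rx.mk (nat_lit 445) (nat_lit 5) (nat_lit 7) (nat_lit 6) (nat_lit 7) (nat_lit 357) (nat_lit 228) r10_357 r4_228 (nat_lit 0) (nat_lit 0) (nat_lit 0) (nat_lit 0x7e80048138) (nat_lit 736246368)]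
noncomputable def e18_48 : List Rx := [
  Rx.mk (nat_lit 417) (nat_lit 1) (nat_lit 4) (nat_lit 6) (nat_lit 5) (nat_lit 361) (nat_lit 366) r10_361 r9_366 (nat_lit 0) (nat_lit 0) (nat_lit 0) (nat_lit 0x7dee57fc92) (nat_lit 1015560936),
  Rx.mk (nat_lit 425) (nat_lit 1) (nat_lit 5) (nat_lit 6) (nat_lit 7) (nat_lit 362) (nat_lit 367) r10_362 r9_367 (nat_lit 0) (nat_lit 0) (nat_lit 0) (nat_lit 0x7dded7f4a2) (nat_lit 1045280808),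
  Rx.mk (nat_lit 441) (nat_lit 1) (nat_lit 7) (nat_lit 6) (nat_lit 7) (nat_lit 363) (nat_lit 368) r10_363 r9_368 (nat_lit 0) (nat_lit 0) (nat_lit 0) (nat_lit 0x7de67cfa4a) (nat_lit 1030623048),
  Rx.mk (nat_lit 445) (nat_lit 5) (nat_lit 7) (nat_lit 6) (nat_lit 7) (nat_lit 360) (nat_lit 365) r10_360 r9_365 (nat_lit 0) (nat_lit 0) (nat_lit 0) (nat_lit 0x7de3898984) (nat_lit 1036281168)]
noncomputable def e18_49 : List Rx := [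
  Rx.mk (nat_lit 441) (nat_lit 1) (nat_lit 7) (nat_lit 6) (nat_lit 7) (nat_lit 365) (nat_lit 365) r10_365 r10_365 (nat_lit 0) (nat_lit 0) (nat_lit 0) (nat_lit 0x7d95a7e7ec) (nat_lit 1185610608),
  Rx.mk (nat_lit 445) (nat_lit 5) (nat_lit 7) (nat_lit 6) (nat_lit 7) (nat_lit 364) (nat_lit 364) r10_364 r10_364 (nat_lit 0) (nat_lit 0) (nat_lit 0) (nat_lit 0x7dc8fcd26a) (nat_lit 1087187400)]
noncomputable def e18_50 : List Rx := [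
  Rx.mk (nat_lit 417) (nat_lit 1) (nat_lit 4) (nat_lit 6) (nat_lit 5) (nat_lit 368) (nat_lit 281) r10_368 r10_281 (nat_lit 0) (nat_lit 0) (nat_lit 0) (nat_lit 0x7df1570c9e) (nat_lit 1009815768),
  Rx.mk (nat_lit 425) (nat_lit 1) (nat_lit 5) (nat_lit 6) (nat_lit 7) (nat_lit 369) (nat_lit 282) r10_369 r10_282 (nat_lit 0) (nat_lit 0) (nat_lit 0) (nat_lit 0x7df79428c6) (nat_lit 997853688),
  Rx.mk (nat_lit 441) (nat_lit 1) (nat_lit 7) (nat_lit 6) (nat_lit 7) (nat_lit 370) (nat_lit 283) r10_370 r10_283 (nat_lit 0) (nat_lit 0) (nat_lit 0) (nat_lit 0x7df441ddee) (nat_lit 1004222232)]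
noncomputable def e18_51 : List Rx := [
  Rx.mk (nat_lit 210) (nat_lit 2) (nat_lit 2) (nat_lit 3) (nat_lit 7) (nat_lit 13) (nat_lit 148) r10_13 r12_148 (nat_lit 0) (nat_lit 0) (nat_lit 0) (nat_lit 0x7e96423d46) (nat_lit 693601272),
  Rx.mk (nat_lit 283) (nat_lit 3) (nat_lit 3) (nat_lit 4) (nat_lit 3) (nat_lit 16) (nat_lit 142) r10_16 r12_142 (nat_lit 0) (nat_lit 0) (nat_lit 0) (nat_lit 0x7d98a2d83a) (nat_lit 1179896328),
  Rx.mk (nat_lit 411) (nat_lit 3) (nat_lit 3) (nat_lit 6) (nat_lit 7) (nat_lit 17) (nat_lit 144) r10_17 r12_144 (nat_lit 0) (nat_lit 0) (nat_lit 0) (nat_lit 0x7e4ff8222e) (nat_lit 828374040),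
  Rx.mk (nat_lit 443) (nat_lit 3) (nat_lit 7) (nat_lit 6) (nat_lit 7) (nat_lit 15) (nat_lit 145) r10_15 r12_145 (nat_lit 0) (nat_lit 0) (nat_lit 0) (nat_lit 0x7eaff8e1c2) (nat_lit 644298408),
  Rx.mk (nat_lit 448) (nat_lit 0) (nat_lit 0) (nat_lit 7) (nat_lit 4) (nat_lit 9) (nat_lit 140) r10_9 r12_140 (nat_lit 0) (nat_lit 0) (nat_lit 0) (nat_lit 0x73e77d9440) (nat_lit 5937235200),
  Rx.mk (nat_lit 450) (nat_lit 2) (nat_lit 0) (nat_lit 7) (nat_lit 5) (nat_lit 11) (nat_lit 146) r10_11 r12_146 (nat_lit 0) (nat_lit 0) (nat_lit 0) (nat_lit 0x7e9f0970ca) (nat_lit 676770120),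
  Rx.mk (nat_lit 466) (nat_lit 2) (nat_lit 2) (nat_lit 7) (nat_lit 7) (nat_lit 12) (nat_lit 149) r10_12 r12_149 (nat_lit 0) (nat_lit 0) (nat_lit 0) (nat_lit 0x7e3496186a) (nat_lit 880878024),
  Rx.mk (nat_lit 472) (nat_lit 0) (nat_lit 3) (nat_lit 7) (nat_lit 6) (nat_lit 10) (nat_lit 141) r10_10 r12_141 (nat_lit 0) (nat_lit 0) (nat_lit 0) (nat_lit 0x7eaac05550) (nat_lit 654308928),
  Rx.mk (nat_lit 474) (nat_lit 2) (nat_lit 3) (nat_lit 7) (nat_lit 7) (nat_lit 14) (nat_lit 147) r10_14 r12_147 (nat_lit 0) (nat_lit 0) (nat_lit 0) (nat_lit 0x7ec4817924) (nat_lit 604927440),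
  Rx.mk (nat_lit 475) (nat_lit 3) (nat_lit 3) (nat_lit 7) (nat_lit 7) (nat_lit 18) (nat_lit 143) r10_18 r12_143 (nat_lit 0) (nat_lit 0) (nat_lit 0) (nat_lit 0x7e4d46ad48) (nat_lit 833537952)]
noncomputable def e18_52 : List Rx := [
  Rx.mk (nat_lit 256) (nat_lit 0) (nat_lit 0) (nat_lit 4) (nat_lit 0) (nat_lit 68) (nat_lit 202) r10_68 r12_202 (nat_lit 0) (nat_lit 0) (nat_lit 0) (nat_lit 0x4f8256cb14) (nat_lit 23801905296),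
  Rx.mk (nat_lit 257) (nat_lit 1) (nat_lit 0) (nat_lit 4) (nat_lit 1) (nat_lit 75) (nat_lit 206) r10_75 r12_206 (nat_lit 0) (nat_lit 0) (nat_lit 0) (nat_lit 0x762668e34c) (nat_lit 4834887408),
  Rx.mk (nat_lit 258) (nat_lit 2) (nat_lit 0) (nat_lit 4) (nat_lit 1) (nat_lit 80) (nat_lit 209) r10_80 r12_209 (nat_lit 0) (nat_lit 0) (nat_lit 0) (nat_lit 0x76d6a79eb0) (nat_lit 4496955840),
  Rx.mk (nat_lit 274) (nat_lit 2) (nat_lit 2) (nat_lit 4) (nat_lit 3) (nat_lit 83) (nat_lit 222) r10_83 r12_222 (nat_lit 0) (nat_lit 0) (nat_lit 0) (nat_lit 0x7d8a287fee) (nat_lit 1207656216),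
  Rx.mk (nat_lit 280) (nat_lit 0) (nat_lit 3) (nat_lit 4) (nat_lit 2) (nat_lit 72) (nat_lit 212) r10_72 r12_212 (nat_lit 0) (nat_lit 0) (nat_lit 0) (nat_lit 0x6f899876f0) (nat_lit 8080682688),
  Rx.mk (nat_lit 281) (nat_lit 1) (nat_lit 3) (nat_lit 4) (nat_lit 3) (nat_lit 78) (nat_lit 215) r10_78 r12_215 (nat_lit 0) (nat_lit 0) (nat_lit 0) (nat_lit 0x7e21a6277c) (nat_lit 917188272),
  Rx.mk (nat_lit 282) (nat_lit 2) (nat_lit 3) (nat_lit 4) (nat_lit 3) (nat_lit 86) (nat_lit 220) r10_86 r12_220 (nat_lit 0) (nat_lit 0) (nat_lit 0) (nat_lit 0x7e1455dc8e) (nat_lit 942715800),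
  Rx.mk (nat_lit 283) (nat_lit 3) (nat_lit 3) (nat_lit 4) (nat_lit 3) (nat_lit 88) (nat_lit 217) r10_88 r12_217 (nat_lit 0) (nat_lit 0) (nat_lit 0) (nat_lit 0x7d77f5e32a) (nat_lit 1242548424),
  Rx.mk (nat_lit 320) (nat_lit 0) (nat_lit 0) (nat_lit 5) (nat_lit 4) (nat_lit 69) (nat_lit 203) r10_69 r12_203 (nat_lit 0) (nat_lit 0) (nat_lit 0) (nat_lit 0x77191ff6e8) (nat_lit 4369506336),
  Rx.mk (nat_lit 322) (nat_lit 2) (nat_lit 0) (nat_lit 5) (nat_lit 5) (nat_lit 81) (nat_lit 210) r10_81 r12_210 (nat_lit 0) (nat_lit 0) (nat_lit 0) (nat_lit 0x7dd00b217e) (nat_lit 1073658456),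
  Rx.mk (nat_lit 338) (nat_lit 2) (nat_lit 2) (nat_lit 5) (nat_lit 7) (nat_lit 84) (nat_lit 223) r10_84 r12_223 (nat_lit 0) (nat_lit 0) (nat_lit 0) (nat_lit 0x7ddcad774c) (nat_lit 1049433840),
  Rx.mk (nat_lit 344) (nat_lit 0) (nat_lit 3) (nat_lit 5) (nat_lit 6) (nat_lit 73) (nat_lit 213) r10_73 r12_213 (nat_lit 0) (nat_lit 0) (nat_lit 0) (nat_lit 0x7dc0395eaa) (nat_lit 1103990472),
  Rx.mk (nat_lit 346) (nat_lit 2) (nat_lit 3) (nat_lit 5) (nat_lit 7) (nat_lit 87) (nat_lit 221) r10_87 r12_221 (nat_lit 0) (nat_lit 0) (nat_lit 0) (nat_lit 0x7df712d0dc) (nat_lit 998822448),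
  Rx.mk (nat_lit 347) (nat_lit 3) (nat_lit 3) (nat_lit 5) (nat_lit 7) (nat_lit 89) (nat_lit 218) r10_89 r12_218 (nat_lit 0) (nat_lit 0) (nat_lit 0) (nat_lit 0x7df35c0c4c) (nat_lit 1005943536),
  Rx.mk (nat_lit 384) (nat_lit 0) (nat_lit 0) (nat_lit 6) (nat_lit 4) (nat_lit 70) (nat_lit 205) r10_70 r12_205 (nat_lit 0) (nat_lit 0) (nat_lit 0) (nat_lit 0x749a460706) (nat_lit 5594437368),
  Rx.mk (nat_lit 385) (nat_lit 1) (nat_lit 0) (nat_lit 6) (nat_lit 5) (nat_lit 76) (nat_lit 208) r10_76 r12_208 (nat_lit 0) (nat_lit 0) (nat_lit 0) (nat_lit 0x7df4fc9242) (nat_lit 1002823848),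
  Rx.mk (nat_lit 408) (nat_lit 0) (nat_lit 3) (nat_lit 6) (nat_lit 6) (nat_lit 74) (nat_lit 214) r10_74 r12_214 (nat_lit 0) (nat_lit 0) (nat_lit 0) (nat_lit 0x7df140ee00) (nat_lit 1009981440),
  Rx.mk (nat_lit 409) (nat_lit 1) (nat_lit 3) (nat_lit 6) (nat_lit 7) (nat_lit 79) (nat_lit 216) r10_79 r12_216 (nat_lit 0) (nat_lit 0) (nat_lit 0) (nat_lit 0x7df9596c70) (nat_lit 994458816),
  Rx.mk (nat_lit 411) (nat_lit 3) (nat_lit 3) (nat_lit 6) (nat_lit 7) (nat_lit 90) (nat_lit 219) r10_90 r12_219 (nat_lit 0) (nat_lit 0) (nat_lit 0) (nat_lit 0x7df79428c6) (nat_lit 997853688),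
  Rx.mk (nat_lit 448) (nat_lit 0) (nat_lit 0) (nat_lit 7) (nat_lit 4) (nat_lit 71) (nat_lit 204) r10_71 r12_204 (nat_lit 0) (nat_lit 0) (nat_lit 0) (nat_lit 0x71d4c381f4) (nat_lit 6954848784),
  Rx.mk (nat_lit 449) (nat_lit 1) (nat_lit 0) (nat_lit 7) (nat_lit 5) (nat_lit 77) (nat_lit 207) r10_77 r12_207 (nat_lit 0) (nat_lit 0) (nat_lit 0) (nat_lit 0x7de5630bea) (nat_lit 1032734664),
  Rx.mk (nat_lit 450) (nat_lit 2) (nat_lit 0) (nat_lit 7) (nat_lit 5) (nat_lit 82) (nat_lit 211) r10_82 r12_211 (nat_lit 0) (nat_lit 0) (nat_lit 0) (nat_lit 0x7dc3830a0c) (nat_lit 1097686512),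
  Rx.mk (nat_lit 466) (nat_lit 2) (nat_lit 2) (nat_lit 7) (nat_lit 7) (nat_lit 85) (nat_lit 224) r10_85 r12_224 (nat_lit 0) (nat_lit 0) (nat_lit 0) (nat_lit 0x7ddf540ce0) (nat_lit 1044351360)]
noncomputable def e18_53 : List Rx := [
  Rx.mk (nat_lit 443) (nat_lit 3) (nat_lit 7) (nat_lit 6) (nat_lit 7) (nat_lit 265) (nat_lit 230) r10_265 r12_230 (nat_lit 0) (nat_lit 0) (nat_lit 0) (nat_lit 0x7ee7b225f6) (nat_lit 537454008)]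
noncomputable def e18_54 : List Rx := [
  Rx.mk (nat_lit 280) (nat_lit 0) (nat_lit 3) (nat_lit 4) (nat_lit 2) (nat_lit 273) (nat_lit 315) r10_273 r12_315 (nat_lit 0) (nat_lit 0) (nat_lit 0) (nat_lit 0x771b6bd228) (nat_lit 4365103392),
  Rx.mk (nat_lit 281) (nat_lit 1) (nat_lit 3) (nat_lit 4) (nat_lit 3) (nat_lit 276) (nat_lit 316) r10_276 r12_316 (nat_lit 0) (nat_lit 0) (nat_lit 0) (nat_lit 0x7d971a50c4) (nat_lit 1182836304),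
  Rx.mk (nat_lit 282) (nat_lit 2) (nat_lit 3) (nat_lit 4) (nat_lit 3) (nat_lit 279) (nat_lit 317) r10_279 r12_317 (nat_lit 0) (nat_lit 0) (nat_lit 0) (nat_lit 0x7dea0ba15c) (nat_lit 1023802416),
  Rx.mk (nat_lit 344) (nat_lit 0) (nat_lit 3) (nat_lit 5) (nat_lit 6) (nat_lit 274) (nat_lit 318) r10_274 r12_318 (nat_lit 0) (nat_lit 0) (nat_lit 0) (nat_lit 0x7d6315f13e) (nat_lit 1282573656),
  Rx.mk (nat_lit 345) (nat_lit 1) (nat_lit 3) (nat_lit 5) (nat_lit 7) (nat_lit 277) (nat_lit 319) r10_277 r12_319 (nat_lit 0) (nat_lit 0) (nat_lit 0) (nat_lit 0x7e00b1f6e0) (nat_lit 980373888),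
  Rx.mk (nat_lit 346) (nat_lit 2) (nat_lit 3) (nat_lit 5) (nat_lit 7) (nat_lit 280) (nat_lit 320) r10_280 r12_320 (nat_lit 0) (nat_lit 0) (nat_lit 0) (nat_lit 0x7de5e7c39e) (nat_lit 1031740632),
  Rx.mk (nat_lit 408) (nat_lit 0) (nat_lit 3) (nat_lit 6) (nat_lit 6) (nat_lit 275) (nat_lit 321) r10_275 r12_321 (nat_lit 0) (nat_lit 0) (nat_lit 0) (nat_lit 0x7dd6261fc8) (nat_lit 1061951904),
  Rx.mk (nat_lit 409) (nat_lit 1) (nat_lit 3) (nat_lit 6) (nat_lit 7) (nat_lit 278) (nat_lit 322) r10_278 r12_322 (nat_lit 0) (nat_lit 0) (nat_lit 0) (nat_lit 0x7ddda307f2) (nat_lit 1047594600)]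
noncomputable def e18_55 : List Rx := [
  Rx.mk (nat_lit 417) (nat_lit 1) (nat_lit 4) (nat_lit 6) (nat_lit 5) (nat_lit 351) (nat_lit 323) r10_351 r3_323 (nat_lit 0) (nat_lit 0) (nat_lit 0) (nat_lit 0x7ae9e266f0) (nat_lit 2496671424),
  Rx.mk (nat_lit 441) (nat_lit 1) (nat_lit 7) (nat_lit 6) (nat_lit 7) (nat_lit 352) (nat_lit 324) r10_352 r3_324 (nat_lit 0) (nat_lit 0) (nat_lit 0) (nat_lit 0x7fe8167eb0) (nat_lit 45849024)]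
noncomputable def e18_56 : List Rx := [
  Rx.mk (nat_lit 441) (nat_lit 1) (nat_lit 7) (nat_lit 6) (nat_lit 7) (nat_lit 356) (nat_lit 309) r10_356 r12_309 (nat_lit 0) (nat_lit 0) (nat_lit 0) (nat_lit 0x7f0597e77c) (nat_lit 480128688)]
noncomputable def e18_57 : List Rx := [
  Rx.mk (nat_lit 417) (nat_lit 1) (nat_lit 4) (nat_lit 6) (nat_lit 5) (nat_lit 366) (nat_lit 240) r10_366 r12_240 (nat_lit 0) (nat_lit 0) (nat_lit 0) (nat_lit 0x7e373cadfe) (nat_lit 875795544),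
  Rx.mk (nat_lit 441) (nat_lit 1) (nat_lit 7) (nat_lit 6) (nat_lit 7) (nat_lit 367) (nat_lit 241) r10_367 r12_241 (nat_lit 0) (nat_lit 0) (nat_lit 0) (nat_lit 0x7ee6adf63a) (nat_lit 539402760)]
noncomputable def e18 : List (List Rx) := [e18_0, e18_1, e18_2, e18_3, e18_4, e18_5, e18_6, e18_7, e18_8, e18_9, e18_10, e18_11, e18_12, e18_13, e18_14, e18_15, e18_16, e18_17, e18_18, e18_19, e18_20, e18_21, e18_22, e18_23, e18_24, e18_25, e18_26, e18_27, e18_28, e18_29, e18_30, e18_31, e18_32, e18_33, e18_34, e18_35, e18_36, e18_37, e18_38, e18_39, e18_40, e18_41, e18_42, e18_43, e18_44, e18_45, e18_46, e18_47, e18_48, e18_49, e18_50, e18_51, e18_52, e18_53, e18_54, e18_55, e18_56, e18_57]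
noncomputable def e19_0 : List Rx := [
  Rx.mk (nat_lit 292) (nat_lit 4) (nat_lit 4) (nat_lit 4) (nat_lit 0) (nat_lit 23) (nat_lit 155) r8_23 r0_155 (nat_lit 0) (nat_lit 0) (nat_lit 0) (nat_lit 0x2380ce4fa0) (nat_lit 45402394752),
  Rx.mk (nat_lit 295) (nat_lit 7) (nat_lit 4) (nat_lit 4) (nat_lit 1) (nat_lit 25) (nat_lit 161) r8_25 r0_161 (nat_lit 0) (nat_lit 0) (nat_lit 0) (nat_lit 0x6eebb9b57a) (nat_lit 8383382280),
  Rx.mk (nat_lit 308) (nat_lit 4) (nat_lit 6) (nat_lit 4) (nat_lit 2) (nat_lit 29) (nat_lit 158) r8_29 r0_158 (nat_lit 0) (nat_lit 0) (nat_lit 0) (nat_lit 0x6bb29a6aa8) (nat_lit 9965468448),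
  Rx.mk (nat_lit 311) (nat_lit 7) (nat_lit 6) (nat_lit 4) (nat_lit 3) (nat_lit 33) (nat_lit 167) r8_33 r0_167 (nat_lit 0) (nat_lit 0) (nat_lit 0) (nat_lit 0x7db254fcfe) (nat_lit 1130627160),
  Rx.mk (nat_lit 319) (nat_lit 7) (nat_lit 7) (nat_lit 4) (nat_lit 3) (nat_lit 37) (nat_lit 164) r8_37 r0_164 (nat_lit 0) (nat_lit 0) (nat_lit 0) (nat_lit 0x7d6504125a) (nat_lit 1278872712),
  Rx.mk (nat_lit 356) (nat_lit 4) (nat_lit 4) (nat_lit 5) (nat_lit 4) (nat_lit 24) (nat_lit 156) r8_24 r0_156 (nat_lit 0) (nat_lit 0) (nat_lit 0) (nat_lit 0x68034003fe) (nat_lit 11774250072),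
  Rx.mk (nat_lit 359) (nat_lit 7) (nat_lit 4) (nat_lit 5) (nat_lit 5) (nat_lit 26) (nat_lit 162) r8_26 r0_162 (nat_lit 0) (nat_lit 0) (nat_lit 0) (nat_lit 0x7dd9e10416) (nat_lit 1054799928),
  Rx.mk (nat_lit 364) (nat_lit 4) (nat_lit 5) (nat_lit 5) (nat_lit 6) (nat_lit 27) (nat_lit 157) r8_27 r0_157 (nat_lit 0) (nat_lit 0) (nat_lit 0) (nat_lit 0x7dafa1a836) (nat_lit 1135805112),
  Rx.mk (nat_lit 367) (nat_lit 7) (nat_lit 5) (nat_lit 5) (nat_lit 7) (nat_lit 28) (nat_lit 163) r8_28 r0_163 (nat_lit 0) (nat_lit 0) (nat_lit 0) (nat_lit 0x7df8ad5732) (nat_lit 995747688),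
  Rx.mk (nat_lit 372) (nat_lit 4) (nat_lit 6) (nat_lit 5) (nat_lit 6) (nat_lit 30) (nat_lit 159) r8_30 r0_159 (nat_lit 0) (nat_lit 0) (nat_lit 0) (nat_lit 0x7dd4e773b4) (nat_lit 1064338704),
  Rx.mk (nat_lit 375) (nat_lit 7) (nat_lit 6) (nat_lit 5) (nat_lit 7) (nat_lit 34) (nat_lit 168) r8_34 r0_168 (nat_lit 0) (nat_lit 0) (nat_lit 0) (nat_lit 0x7df1b4c6c2) (nat_lit 1009113768),
  Rx.mk (nat_lit 383) (nat_lit 7) (nat_lit 7) (nat_lit 5) (nat_lit 7) (nat_lit 38) (nat_lit 165) r8_38 r0_165 (nat_lit 0) (nat_lit 0) (nat_lit 0) (nat_lit 0x7df299187c) (nat_lit 1007403696),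
  Rx.mk (nat_lit 436) (nat_lit 4) (nat_lit 6) (nat_lit 6) (nat_lit 6) (nat_lit 31) (nat_lit 160) r8_31 r0_160 (nat_lit 0) (nat_lit 0) (nat_lit 0) (nat_lit 0x7d2f99a936) (nat_lit 1381291704),
  Rx.mk (nat_lit 438) (nat_lit 6) (nat_lit 6) (nat_lit 6) (nat_lit 7) (nat_lit 32) (nat_lit 170) r8_32 r0_170 (nat_lit 0) (nat_lit 0) (nat_lit 0) (nat_lit 0x7d8f316f5a) (nat_lit 1198002312),
  Rx.mk (nat_lit 439) (nat_lit 7) (nat_lit 6) (nat_lit 6) (nat_lit 7) (nat_lit 35) (nat_lit 169) r8_35 r0_169 (nat_lit 0) (nat_lit 0) (nat_lit 0) (nat_lit 0x7df06cbb44) (nat_lit 1011570768),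
  Rx.mk (nat_lit 507) (nat_lit 3) (nat_lit 7) (nat_lit 7) (nat_lit 7) (nat_lit 36) (nat_lit 154) r8_36 r0_154 (nat_lit 0) (nat_lit 0) (nat_lit 0) (nat_lit 0x7df79428c6) (nat_lit 997853688),
  Rx.mk (nat_lit 511) (nat_lit 7) (nat_lit 7) (nat_lit 7) (nat_lit 7) (nat_lit 39) (nat_lit 166) r8_39 r0_166 (nat_lit 0) (nat_lit 0) (nat_lit 0) (nat_lit 0x7dde5a5c7c) (nat_lit 1046221488)]
noncomputable def e19_1 : List Rx := [
  Rx.mk (nat_lit 292) (nat_lit 4) (nat_lit 4) (nat_lit 4) (nat_lit 0) (nat_lit 40) (nat_lit 170) r8_40 r1_170 (nat_lit 0) (nat_lit 0) (nat_lit 0) (nat_lit 0x26a0315650) (nat_lit 43869653568),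
  Rx.mk (nat_lit 295) (nat_lit 7) (nat_lit 4) (nat_lit 4) (nat_lit 1) (nat_lit 41) (nat_lit 173) r8_41 r1_173 (nat_lit 0) (nat_lit 0) (nat_lit 0) (nat_lit 0x67ac0677ee) (nat_lit 11941494552),
  Rx.mk (nat_lit 308) (nat_lit 4) (nat_lit 6) (nat_lit 4) (nat_lit 2) (nat_lit 42) (nat_lit 171) r8_42 r1_171 (nat_lit 0) (nat_lit 0) (nat_lit 0) (nat_lit 0x6aa9b3da1a) (nat_lit 10473387912),
  Rx.mk (nat_lit 311) (nat_lit 7) (nat_lit 6) (nat_lit 4) (nat_lit 3) (nat_lit 45) (nat_lit 176) r8_45 r1_176 (nat_lit 0) (nat_lit 0) (nat_lit 0) (nat_lit 0x7dc7b886b0) (nat_lit 1089616320),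
  Rx.mk (nat_lit 319) (nat_lit 7) (nat_lit 7) (nat_lit 4) (nat_lit 3) (nat_lit 48) (nat_lit 174) r8_48 r1_174 (nat_lit 0) (nat_lit 0) (nat_lit 0) (nat_lit 0x7d65dd24c8) (nat_lit 1277246880),
  Rx.mk (nat_lit 436) (nat_lit 4) (nat_lit 6) (nat_lit 6) (nat_lit 6) (nat_lit 43) (nat_lit 172) r8_43 r1_172 (nat_lit 0) (nat_lit 0) (nat_lit 0) (nat_lit 0x7ccbdaa58a) (nat_lit 1572544584),
  Rx.mk (nat_lit 438) (nat_lit 6) (nat_lit 6) (nat_lit 6) (nat_lit 7) (nat_lit 44) (nat_lit 178) r8_44 r1_178 (nat_lit 0) (nat_lit 0) (nat_lit 0) (nat_lit 0x7d9c4f7d6c) (nat_lit 1172851056),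
  Rx.mk (nat_lit 439) (nat_lit 7) (nat_lit 6) (nat_lit 6) (nat_lit 7) (nat_lit 46) (nat_lit 177) r8_46 r1_177 (nat_lit 0) (nat_lit 0) (nat_lit 0) (nat_lit 0x7de6d574c2) (nat_lit 1029960360),
  Rx.mk (nat_lit 507) (nat_lit 3) (nat_lit 7) (nat_lit 7) (nat_lit 7) (nat_lit 47) (nat_lit 169) r8_47 r1_169 (nat_lit 0) (nat_lit 0) (nat_lit 0) (nat_lit 0x7df3ef031c) (nat_lit 1004842800),
  Rx.mk (nat_lit 511) (nat_lit 7) (nat_lit 7) (nat_lit 7) (nat_lit 7) (nat_lit 49) (nat_lit 175) r8_49 r1_175 (nat_lit 0) (nat_lit 0) (nat_lit 0) (nat_lit 0x7dbc1ee056) (nat_lit 1111858488)]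
noncomputable def e19_2 : List Rx := [
  Rx.mk (nat_lit 251) (nat_lit 3) (nat_lit 7) (nat_lit 3) (nat_lit 7) (nat_lit 11) (nat_lit 168) r8_11 r2_168 (nat_lit 0) (nat_lit 0) (nat_lit 0) (nat_lit 0x7dc7103136) (nat_lit 1090877112),
  Rx.mk (nat_lit 292) (nat_lit 4) (nat_lit 4) (nat_lit 4) (nat_lit 0) (nat_lit 2) (nat_lit 170) r8_2 r2_170 (nat_lit 0) (nat_lit 0) (nat_lit 0) (nat_lit 0x22bc65d6ec) (nat_lit 45778986864),
  Rx.mk (nat_lit 295) (nat_lit 7) (nat_lit 4) (nat_lit 4) (nat_lit 1) (nat_lit 3) (nat_lit 173) r8_3 r2_173 (nat_lit 0) (nat_lit 0) (nat_lit 0) (nat_lit 0x69ae26f3e4) (nat_lit 10955709648),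
  Rx.mk (nat_lit 308) (nat_lit 4) (nat_lit 6) (nat_lit 4) (nat_lit 2) (nat_lit 5) (nat_lit 171) r8_5 r2_171 (nat_lit 0) (nat_lit 0) (nat_lit 0) (nat_lit 0x6cc1809b36) (nat_lit 9446047416),
  Rx.mk (nat_lit 311) (nat_lit 7) (nat_lit 6) (nat_lit 4) (nat_lit 3) (nat_lit 8) (nat_lit 176) r8_8 r2_176 (nat_lit 0) (nat_lit 0) (nat_lit 0) (nat_lit 0x7d4d86ea44) (nat_lit 1323910224),
  Rx.mk (nat_lit 436) (nat_lit 4) (nat_lit 6) (nat_lit 6) (nat_lit 6) (nat_lit 6) (nat_lit 172) r8_6 r2_172 (nat_lit 0) (nat_lit 0) (nat_lit 0) (nat_lit 0x7b78681e06) (nat_lit 2223399672),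
  Rx.mk (nat_lit 438) (nat_lit 6) (nat_lit 6) (nat_lit 6) (nat_lit 7) (nat_lit 7) (nat_lit 179) r8_7 r2_179 (nat_lit 0) (nat_lit 0) (nat_lit 0) (nat_lit 0x7de2b616bc) (nat_lit 1037864880),
  Rx.mk (nat_lit 439) (nat_lit 7) (nat_lit 6) (nat_lit 6) (nat_lit 7) (nat_lit 9) (nat_lit 178) r8_9 r2_178 (nat_lit 0) (nat_lit 0) (nat_lit 0) (nat_lit 0x7df040de02) (nat_lit 1011899304),
  Rx.mk (nat_lit 487) (nat_lit 7) (nat_lit 4) (nat_lit 7) (nat_lit 5) (nat_lit 4) (nat_lit 174) r8_4 r2_174 (nat_lit 0) (nat_lit 0) (nat_lit 0) (nat_lit 0x7bd6535ef4) (nat_lit 2043319824),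
  Rx.mk (nat_lit 503) (nat_lit 7) (nat_lit 6) (nat_lit 7) (nat_lit 7) (nat_lit 10) (nat_lit 177) r8_10 r2_177 (nat_lit 0) (nat_lit 0) (nat_lit 0) (nat_lit 0x7da7826a32) (nat_lit 1151378280),
  Rx.mk (nat_lit 507) (nat_lit 3) (nat_lit 7) (nat_lit 7) (nat_lit 7) (nat_lit 12) (nat_lit 169) r8_12 r2_169 (nat_lit 0) (nat_lit 0) (nat_lit 0) (nat_lit 0x7dd4cc7564) (nat_lit 1064540880),
  Rx.mk (nat_lit 511) (nat_lit 7) (nat_lit 7) (nat_lit 7) (nat_lit 7) (nat_lit 13) (nat_lit 175) r8_13 r2_175 (nat_lit 0) (nat_lit 0) (nat_lit 0) (nat_lit 0x7db8d11536) (nat_lit 1118193336)]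
noncomputable def e19_3 : List Rx := [
  Rx.mk (nat_lit 359) (nat_lit 7) (nat_lit 4) (nat_lit 5) (nat_lit 5) (nat_lit 19) (nat_lit 139) r8_19 r3_139 (nat_lit 0) (nat_lit 0) (nat_lit 0) (nat_lit 0x6e3f9218a0) (nat_lit 8713471104),
  Rx.mk (nat_lit 367) (nat_lit 7) (nat_lit 5) (nat_lit 5) (nat_lit 7) (nat_lit 20) (nat_lit 140) r8_20 r3_140 (nat_lit 0) (nat_lit 0) (nat_lit 0) (nat_lit 0x7c4a3100a6) (nat_lit 1821159288),
  Rx.mk (nat_lit 379) (nat_lit 3) (nat_lit 7) (nat_lit 5) (nat_lit 7) (nat_lit 21) (nat_lit 138) r8_21 r3_138 (nat_lit 0) (nat_lit 0) (nat_lit 0) (nat_lit 0x7bb65c3e86) (nat_lit 2104610040),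
  Rx.mk (nat_lit 383) (nat_lit 7) (nat_lit 7) (nat_lit 5) (nat_lit 7) (nat_lit 22) (nat_lit 141) r8_22 r3_141 (nat_lit 0) (nat_lit 0) (nat_lit 0) (nat_lit 0x7764b97d04) (nat_lit 4224551760)]
noncomputable def e19_4 : List Rx := [
  Rx.mk (nat_lit 295) (nat_lit 7) (nat_lit 4) (nat_lit 4) (nat_lit 1) (nat_lit 50) (nat_lit 147) r8_50 r4_147 (nat_lit 0) (nat_lit 0) (nat_lit 0) (nat_lit 0x6c5214126e) (nat_lit 9659691288),
  Rx.mk (nat_lit 311) (nat_lit 7) (nat_lit 6) (nat_lit 4) (nat_lit 3) (nat_lit 53) (nat_lit 152) r8_53 r4_152 (nat_lit 0) (nat_lit 0) (nat_lit 0) (nat_lit 0x7ddbcbc568) (nat_lit 1051124256),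
  Rx.mk (nat_lit 315) (nat_lit 3) (nat_lit 7) (nat_lit 4) (nat_lit 3) (nat_lit 56) (nat_lit 144) r8_56 r4_144 (nat_lit 0) (nat_lit 0) (nat_lit 0) (nat_lit 0x7db61d007a) (nat_lit 1123376904),
  Rx.mk (nat_lit 319) (nat_lit 7) (nat_lit 7) (nat_lit 4) (nat_lit 3) (nat_lit 59) (nat_lit 150) r8_59 r4_150 (nat_lit 0) (nat_lit 0) (nat_lit 0) (nat_lit 0x7dc71c9070) (nat_lit 1090784448),
  Rx.mk (nat_lit 359) (nat_lit 7) (nat_lit 4) (nat_lit 5) (nat_lit 5) (nat_lit 51) (nat_lit 148) r8_51 r4_148 (nat_lit 0) (nat_lit 0) (nat_lit 0) (nat_lit 0x7dc4b916aa) (nat_lit 1095364296),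
  Rx.mk (nat_lit 367) (nat_lit 7) (nat_lit 5) (nat_lit 5) (nat_lit 7) (nat_lit 52) (nat_lit 149) r8_52 r4_149 (nat_lit 0) (nat_lit 0) (nat_lit 0) (nat_lit 0x7df5dd2438) (nat_lit 1001141856),
  Rx.mk (nat_lit 375) (nat_lit 7) (nat_lit 6) (nat_lit 5) (nat_lit 7) (nat_lit 54) (nat_lit 153) r8_54 r4_153 (nat_lit 0) (nat_lit 0) (nat_lit 0) (nat_lit 0x7de39ca852) (nat_lit 1036137960),
  Rx.mk (nat_lit 379) (nat_lit 3) (nat_lit 7) (nat_lit 5) (nat_lit 7) (nat_lit 57) (nat_lit 145) r8_57 r4_145 (nat_lit 0) (nat_lit 0) (nat_lit 0) (nat_lit 0x7dde50fd12) (nat_lit 1046291688),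
  Rx.mk (nat_lit 383) (nat_lit 7) (nat_lit 7) (nat_lit 5) (nat_lit 7) (nat_lit 60) (nat_lit 151) r8_60 r4_151 (nat_lit 0) (nat_lit 0) (nat_lit 0) (nat_lit 0x7df5b98672) (nat_lit 1001408616),
  Rx.mk (nat_lit 439) (nat_lit 7) (nat_lit 6) (nat_lit 6) (nat_lit 7) (nat_lit 55) (nat_lit 154) r8_55 r4_154 (nat_lit 0) (nat_lit 0) (nat_lit 0) (nat_lit 0x7df7378e90) (nat_lit 998547264),
  Rx.mk (nat_lit 507) (nat_lit 3) (nat_lit 7) (nat_lit 7) (nat_lit 7) (nat_lit 58) (nat_lit 146) r8_58 r4_146 (nat_lit 0) (nat_lit 0) (nat_lit 0) (nat_lit 0x7de458dc8e) (nat_lit 1034728344)]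
noncomputable def e19_5 : List Rx := [
  Rx.mk (nat_lit 123) (nat_lit 3) (nat_lit 7) (nat_lit 1) (nat_lit 7) (nat_lit 14) (nat_lit 120) r8_14 r3_120 (nat_lit 0) (nat_lit 0) (nat_lit 0) (nat_lit 0x7ad52b5276) (nat_lit 2536390584)]
noncomputable def e19_6 : List Rx := [
  Rx.mk (nat_lit 251) (nat_lit 3) (nat_lit 7) (nat_lit 3) (nat_lit 7) (nat_lit 0) (nat_lit 141) r8_0 r0_141 (nat_lit 0) (nat_lit 0) (nat_lit 0) (nat_lit 0x7dde1b0072) (nat_lit 1046696040)]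
noncomputable def e19_7 : List Rx := [
  Rx.mk (nat_lit 251) (nat_lit 3) (nat_lit 7) (nat_lit 3) (nat_lit 7) (nat_lit 1) (nat_lit 153) r8_1 r1_153 (nat_lit 0) (nat_lit 0) (nat_lit 0) (nat_lit 0x7de94bad5c) (nat_lit 1025240112)]
noncomputable def e19_8 : List Rx := [
  Rx.mk (nat_lit 59) (nat_lit 3) (nat_lit 7) (nat_lit 0) (nat_lit 3) (nat_lit 15) (nat_lit 128) r8_15 r4_128 (nat_lit 0) (nat_lit 0) (nat_lit 0) (nat_lit 0x7de2b8b692) (nat_lit 1037845224),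
  Rx.mk (nat_lit 123) (nat_lit 3) (nat_lit 7) (nat_lit 1) (nat_lit 7) (nat_lit 16) (nat_lit 129) r8_16 r4_129 (nat_lit 0) (nat_lit 0) (nat_lit 0) (nat_lit 0x7df79428c6) (nat_lit 997853688),
  Rx.mk (nat_lit 251) (nat_lit 3) (nat_lit 7) (nat_lit 3) (nat_lit 7) (nat_lit 17) (nat_lit 130) r8_17 r4_130 (nat_lit 0) (nat_lit 0) (nat_lit 0) (nat_lit 0x7dd77c6a62) (nat_lit 1059388200)]
noncomputable def e19_9 : List Rx := [
  Rx.mk (nat_lit 123) (nat_lit 3) (nat_lit 7) (nat_lit 1) (nat_lit 7) (nat_lit 61) (nat_lit 168) r8_61 r5_168 (nat_lit 0) (nat_lit 0) (nat_lit 0) (nat_lit 0x7dd1aea744) (nat_lit 1070516304),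
  Rx.mk (nat_lit 379) (nat_lit 3) (nat_lit 7) (nat_lit 5) (nat_lit 7) (nat_lit 62) (nat_lit 169) r8_62 r5_169 (nat_lit 0) (nat_lit 0) (nat_lit 0) (nat_lit 0x7df57b4a56) (nat_lit 1001874744)]
noncomputable def e19_10 : List Rx := [
  Rx.mk (nat_lit 356) (nat_lit 4) (nat_lit 4) (nat_lit 5) (nat_lit 4) (nat_lit 155) (nat_lit 257) r8_155 r0_257 (nat_lit 0) (nat_lit 0) (nat_lit 0) (nat_lit 0x5d0382aad4) (nat_lit 17173138320),
  Rx.mk (nat_lit 359) (nat_lit 7) (nat_lit 4) (nat_lit 5) (nat_lit 5) (nat_lit 156) (nat_lit 258) r8_156 r0_258 (nat_lit 0) (nat_lit 0) (nat_lit 0) (nat_lit 0x7d665dbcbe) (nat_lit 1276283736),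
  Rx.mk (nat_lit 364) (nat_lit 4) (nat_lit 5) (nat_lit 5) (nat_lit 6) (nat_lit 157) (nat_lit 259) r8_157 r0_259 (nat_lit 0) (nat_lit 0) (nat_lit 0) (nat_lit 0x7c68fe73b0) (nat_lit 1762098624),
  Rx.mk (nat_lit 367) (nat_lit 7) (nat_lit 5) (nat_lit 5) (nat_lit 7) (nat_lit 158) (nat_lit 260) r8_158 r0_260 (nat_lit 0) (nat_lit 0) (nat_lit 0) (nat_lit 0x7de755acbe) (nat_lit 1029000024),
  Rx.mk (nat_lit 383) (nat_lit 7) (nat_lit 7) (nat_lit 5) (nat_lit 7) (nat_lit 159) (nat_lit 261) r8_159 r0_261 (nat_lit 0) (nat_lit 0) (nat_lit 0) (nat_lit 0x7df3be4628) (nat_lit 1005207840)]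
noncomputable def e19_11 : List Rx := [
  Rx.mk (nat_lit 292) (nat_lit 4) (nat_lit 4) (nat_lit 4) (nat_lit 0) (nat_lit 170) (nat_lit 204) r8_170 r6_204 (nat_lit 0) (nat_lit 0) (nat_lit 0) (nat_lit 0xca49969cc) (nat_lit 56623393008),
  Rx.mk (nat_lit 295) (nat_lit 7) (nat_lit 4) (nat_lit 4) (nat_lit 1) (nat_lit 172) (nat_lit 210) r8_172 r6_210 (nat_lit 0) (nat_lit 0) (nat_lit 0) (nat_lit 0x700fb7547c) (nat_lit 7823520432),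
  Rx.mk (nat_lit 308) (nat_lit 4) (nat_lit 6) (nat_lit 4) (nat_lit 2) (nat_lit 176) (nat_lit 207) r8_176 r6_207 (nat_lit 0) (nat_lit 0) (nat_lit 0) (nat_lit 0x744f2f58bc) (nat_lit 5738411952),
  Rx.mk (nat_lit 319) (nat_lit 7) (nat_lit 7) (nat_lit 4) (nat_lit 3) (nat_lit 180) (nat_lit 213) r8_180 r6_213 (nat_lit 0) (nat_lit 0) (nat_lit 0) (nat_lit 0x7dd0e0d422) (nat_lit 1072057896),
  Rx.mk (nat_lit 356) (nat_lit 4) (nat_lit 4) (nat_lit 5) (nat_lit 4) (nat_lit 171) (nat_lit 205) r8_171 r6_205 (nat_lit 0) (nat_lit 0) (nat_lit 0) (nat_lit 0x4c79c53736) (nat_lit 25290895032),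
  Rx.mk (nat_lit 359) (nat_lit 7) (nat_lit 4) (nat_lit 5) (nat_lit 5) (nat_lit 173) (nat_lit 211) r8_173 r6_211 (nat_lit 0) (nat_lit 0) (nat_lit 0) (nat_lit 0x7dad56ece4) (nat_lit 1140199632),
  Rx.mk (nat_lit 364) (nat_lit 4) (nat_lit 5) (nat_lit 5) (nat_lit 6) (nat_lit 174) (nat_lit 206) r8_174 r6_206 (nat_lit 0) (nat_lit 0) (nat_lit 0) (nat_lit 0x7d5bdfe4a6) (nat_lit 1296400248),
  Rx.mk (nat_lit 367) (nat_lit 7) (nat_lit 5) (nat_lit 5) (nat_lit 7) (nat_lit 175) (nat_lit 212) r8_175 r6_212 (nat_lit 0) (nat_lit 0) (nat_lit 0) (nat_lit 0x7dd092d902) (nat_lit 1072641960),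
  Rx.mk (nat_lit 372) (nat_lit 4) (nat_lit 6) (nat_lit 5) (nat_lit 6) (nat_lit 177) (nat_lit 208) r8_177 r6_208 (nat_lit 0) (nat_lit 0) (nat_lit 0) (nat_lit 0x7dce02c206) (nat_lit 1077555960),
  Rx.mk (nat_lit 383) (nat_lit 7) (nat_lit 7) (nat_lit 5) (nat_lit 7) (nat_lit 181) (nat_lit 214) r8_181 r6_214 (nat_lit 0) (nat_lit 0) (nat_lit 0) (nat_lit 0x7dc2a09834) (nat_lit 1099382544),
  Rx.mk (nat_lit 436) (nat_lit 4) (nat_lit 6) (nat_lit 6) (nat_lit 6) (nat_lit 178) (nat_lit 209) r8_178 r6_209 (nat_lit 0) (nat_lit 0) (nat_lit 0) (nat_lit 0x7db87bfa88) (nat_lit 1118830752),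
  Rx.mk (nat_lit 438) (nat_lit 6) (nat_lit 6) (nat_lit 6) (nat_lit 7) (nat_lit 179) (nat_lit 216) r8_179 r6_216 (nat_lit 0) (nat_lit 0) (nat_lit 0) (nat_lit 0x7de59728a8) (nat_lit 1032344352),
  Rx.mk (nat_lit 511) (nat_lit 7) (nat_lit 7) (nat_lit 7) (nat_lit 7) (nat_lit 182) (nat_lit 215) r8_182 r6_215 (nat_lit 0) (nat_lit 0) (nat_lit 0) (nat_lit 0x7de5019202) (nat_lit 1033464744)]
noncomputable def e19_12 : List Rx := [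
  Rx.mk (nat_lit 356) (nat_lit 4) (nat_lit 4) (nat_lit 5) (nat_lit 4) (nat_lit 160) (nat_lit 262) r8_160 r1_262 (nat_lit 0) (nat_lit 0) (nat_lit 0) (nat_lit 0x5e5dca2502) (nat_lit 16509183912),
  Rx.mk (nat_lit 357) (nat_lit 5) (nat_lit 4) (nat_lit 5) (nat_lit 5) (nat_lit 161) (nat_lit 263) r8_161 r1_263 (nat_lit 0) (nat_lit 0) (nat_lit 0) (nat_lit 0x7bd73b1078) (nat_lit 2041584480),
  Rx.mk (nat_lit 359) (nat_lit 7) (nat_lit 4) (nat_lit 5) (nat_lit 5) (nat_lit 162) (nat_lit 264) r8_162 r1_264 (nat_lit 0) (nat_lit 0) (nat_lit 0) (nat_lit 0x7d95c58612) (nat_lit 1185388776),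
  Rx.mk (nat_lit 364) (nat_lit 4) (nat_lit 5) (nat_lit 5) (nat_lit 6) (nat_lit 163) (nat_lit 265) r8_163 r1_265 (nat_lit 0) (nat_lit 0) (nat_lit 0) (nat_lit 0x7d825a3cda) (nat_lit 1222622856),
  Rx.mk (nat_lit 365) (nat_lit 5) (nat_lit 5) (nat_lit 5) (nat_lit 7) (nat_lit 164) (nat_lit 266) r8_164 r1_266 (nat_lit 0) (nat_lit 0) (nat_lit 0) (nat_lit 0x7d867bdabc) (nat_lit 1214701488),
  Rx.mk (nat_lit 367) (nat_lit 7) (nat_lit 5) (nat_lit 5) (nat_lit 7) (nat_lit 165) (nat_lit 267) r8_165 r1_267 (nat_lit 0) (nat_lit 0) (nat_lit 0) (nat_lit 0x7df4303f08) (nat_lit 1004354208),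
  Rx.mk (nat_lit 383) (nat_lit 7) (nat_lit 7) (nat_lit 5) (nat_lit 7) (nat_lit 166) (nat_lit 268) r8_166 r1_268 (nat_lit 0) (nat_lit 0) (nat_lit 0) (nat_lit 0x7df1600c0e) (nat_lit 1009748376)]
noncomputable def e19_13 : List Rx := [
  Rx.mk (nat_lit 292) (nat_lit 4) (nat_lit 4) (nat_lit 4) (nat_lit 0) (nat_lit 183) (nat_lit 159) r8_183 r7_159 (nat_lit 0) (nat_lit 0) (nat_lit 0) (nat_lit 0xf50b40576) (nat_lit 55311694776),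
  Rx.mk (nat_lit 293) (nat_lit 5) (nat_lit 4) (nat_lit 4) (nat_lit 1) (nat_lit 185) (nat_lit 165) r8_185 r7_165 (nat_lit 0) (nat_lit 0) (nat_lit 0) (nat_lit 0x5ded7eea26) (nat_lit 16724495736),
  Rx.mk (nat_lit 295) (nat_lit 7) (nat_lit 4) (nat_lit 4) (nat_lit 1) (nat_lit 187) (nat_lit 171) r8_187 r7_171 (nat_lit 0) (nat_lit 0) (nat_lit 0) (nat_lit 0x6bc7e5f5da) (nat_lit 9924637320),
  Rx.mk (nat_lit 308) (nat_lit 4) (nat_lit 6) (nat_lit 4) (nat_lit 2) (nat_lit 192) (nat_lit 162) r8_192 r7_162 (nat_lit 0) (nat_lit 0) (nat_lit 0) (nat_lit 0x69ea215402) (nat_lit 10840708008),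
  Rx.mk (nat_lit 309) (nat_lit 5) (nat_lit 6) (nat_lit 4) (nat_lit 3) (nat_lit 195) (nat_lit 168) r8_195 r7_168 (nat_lit 0) (nat_lit 0) (nat_lit 0) (nat_lit 0x7dc8110128) (nat_lit 1088953632),
  Rx.mk (nat_lit 319) (nat_lit 7) (nat_lit 7) (nat_lit 4) (nat_lit 3) (nat_lit 199) (nat_lit 174) r8_199 r7_174 (nat_lit 0) (nat_lit 0) (nat_lit 0) (nat_lit 0x7dcf674bbc) (nat_lit 1074885552),
  Rx.mk (nat_lit 356) (nat_lit 4) (nat_lit 4) (nat_lit 5) (nat_lit 4) (nat_lit 184) (nat_lit 160) r8_184 r7_160 (nat_lit 0) (nat_lit 0) (nat_lit 0) (nat_lit 0x6e6da8770c) (nat_lit 8625103344),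
  Rx.mk (nat_lit 357) (nat_lit 5) (nat_lit 4) (nat_lit 5) (nat_lit 5) (nat_lit 186) (nat_lit 166) r8_186 r7_166 (nat_lit 0) (nat_lit 0) (nat_lit 0) (nat_lit 0x7c45bbc7fe) (nat_lit 1829706840),
  Rx.mk (nat_lit 359) (nat_lit 7) (nat_lit 4) (nat_lit 5) (nat_lit 5) (nat_lit 188) (nat_lit 172) r8_188 r7_172 (nat_lit 0) (nat_lit 0) (nat_lit 0) (nat_lit 0x7d82afb782) (nat_lit 1221982632),
  Rx.mk (nat_lit 364) (nat_lit 4) (nat_lit 5) (nat_lit 5) (nat_lit 6) (nat_lit 189) (nat_lit 161) r8_189 r7_161 (nat_lit 0) (nat_lit 0) (nat_lit 0) (nat_lit 0x7d74577d14) (nat_lit 1249486992),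
  Rx.mk (nat_lit 365) (nat_lit 5) (nat_lit 5) (nat_lit 5) (nat_lit 7) (nat_lit 190) (nat_lit 167) r8_190 r7_167 (nat_lit 0) (nat_lit 0) (nat_lit 0) (nat_lit 0x7db6535d14) (nat_lit 1122969744),
  Rx.mk (nat_lit 367) (nat_lit 7) (nat_lit 5) (nat_lit 5) (nat_lit 7) (nat_lit 191) (nat_lit 173) r8_191 r7_173 (nat_lit 0) (nat_lit 0) (nat_lit 0) (nat_lit 0x7dea7a9a6c) (nat_lit 1022971248),
  Rx.mk (nat_lit 372) (nat_lit 4) (nat_lit 6) (nat_lit 5) (nat_lit 6) (nat_lit 193) (nat_lit 163) r8_193 r7_163 (nat_lit 0) (nat_lit 0) (nat_lit 0) (nat_lit 0x7dd111311c) (nat_lit 1071695664),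
  Rx.mk (nat_lit 373) (nat_lit 5) (nat_lit 6) (nat_lit 5) (nat_lit 7) (nat_lit 196) (nat_lit 169) r8_196 r7_169 (nat_lit 0) (nat_lit 0) (nat_lit 0) (nat_lit 0x7df38ba952) (nat_lit 1005586920),
  Rx.mk (nat_lit 383) (nat_lit 7) (nat_lit 7) (nat_lit 5) (nat_lit 7) (nat_lit 200) (nat_lit 175) r8_200 r7_175 (nat_lit 0) (nat_lit 0) (nat_lit 0) (nat_lit 0x7ddabb966c) (nat_lit 1053162864),
  Rx.mk (nat_lit 436) (nat_lit 4) (nat_lit 6) (nat_lit 6) (nat_lit 6) (nat_lit 194) (nat_lit 164) r8_194 r7_164 (nat_lit 0) (nat_lit 0) (nat_lit 0) (nat_lit 0x7dde503d1e) (nat_lit 1046297304),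
  Rx.mk (nat_lit 437) (nat_lit 5) (nat_lit 6) (nat_lit 6) (nat_lit 7) (nat_lit 197) (nat_lit 170) r8_197 r7_170 (nat_lit 0) (nat_lit 0) (nat_lit 0) (nat_lit 0x7df0e8138e) (nat_lit 1010646936),
  Rx.mk (nat_lit 438) (nat_lit 6) (nat_lit 6) (nat_lit 6) (nat_lit 7) (nat_lit 198) (nat_lit 177) r8_198 r7_177 (nat_lit 0) (nat_lit 0) (nat_lit 0) (nat_lit 0x7ddc561cc2) (nat_lit 1050088104),
  Rx.mk (nat_lit 511) (nat_lit 7) (nat_lit 7) (nat_lit 7) (nat_lit 7) (nat_lit 201) (nat_lit 176) r8_201 r7_176 (nat_lit 0) (nat_lit 0) (nat_lit 0) (nat_lit 0x7dec61fbf4) (nat_lit 1019320848)]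
noncomputable def e19_14 : List Rx := [
  Rx.mk (nat_lit 292) (nat_lit 4) (nat_lit 4) (nat_lit 4) (nat_lit 0) (nat_lit 202) (nat_lit 266) r8_202 r7_266 (nat_lit 0) (nat_lit 0) (nat_lit 0) (nat_lit 0x2a267bae24) (nat_lit 42139605456),
  Rx.mk (nat_lit 295) (nat_lit 7) (nat_lit 4) (nat_lit 4) (nat_lit 1) (nat_lit 203) (nat_lit 267) r8_203 r7_267 (nat_lit 0) (nat_lit 0) (nat_lit 0) (nat_lit 0x6f84370d0c) (nat_lit 8090999280),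
  Rx.mk (nat_lit 308) (nat_lit 4) (nat_lit 6) (nat_lit 4) (nat_lit 2) (nat_lit 204) (nat_lit 269) r8_204 r7_269 (nat_lit 0) (nat_lit 0) (nat_lit 0) (nat_lit 0x795a3b62f0) (nat_lit 3262963392),
  Rx.mk (nat_lit 319) (nat_lit 7) (nat_lit 7) (nat_lit 4) (nat_lit 3) (nat_lit 207) (nat_lit 268) r8_207 r7_268 (nat_lit 0) (nat_lit 0) (nat_lit 0) (nat_lit 0x7d6bde44b0) (nat_lit 1265734080),
  Rx.mk (nat_lit 436) (nat_lit 4) (nat_lit 6) (nat_lit 6) (nat_lit 6) (nat_lit 205) (nat_lit 271) r8_205 r7_271 (nat_lit 0) (nat_lit 0) (nat_lit 0) (nat_lit 0x7d7fa68818) (nat_lit 1227803616),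
  Rx.mk (nat_lit 438) (nat_lit 6) (nat_lit 6) (nat_lit 6) (nat_lit 7) (nat_lit 206) (nat_lit 272) r8_206 r7_272 (nat_lit 0) (nat_lit 0) (nat_lit 0) (nat_lit 0x7dcfdbe472) (nat_lit 1074012264),
  Rx.mk (nat_lit 511) (nat_lit 7) (nat_lit 7) (nat_lit 7) (nat_lit 7) (nat_lit 208) (nat_lit 270) r8_208 r7_270 (nat_lit 0) (nat_lit 0) (nat_lit 0) (nat_lit 0x7dd1cb257c) (nat_lit 1070302896)]
noncomputable def e19_15 : List Rx := [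
  Rx.mk (nat_lit 292) (nat_lit 4) (nat_lit 4) (nat_lit 4) (nat_lit 0) (nat_lit 148) (nat_lit 148) r8_148 r8_148 (nat_lit 0) (nat_lit 0) (nat_lit 0) (nat_lit 0x3e5d013194) (nat_lit 32217997968),
  Rx.mk (nat_lit 295) (nat_lit 7) (nat_lit 4) (nat_lit 4) (nat_lit 1) (nat_lit 149) (nat_lit 151) r8_149 r8_151 (nat_lit 0) (nat_lit 0) (nat_lit 0) (nat_lit 0x6d5949fe08) (nat_lit 9155012256),
  Rx.mk (nat_lit 308) (nat_lit 4) (nat_lit 6) (nat_lit 4) (nat_lit 2) (nat_lit 151) (nat_lit 149) r8_151 r8_149 (nat_lit 0) (nat_lit 0) (nat_lit 0) (nat_lit 0x6d5949fe08) (nat_lit 9155012256),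
  Rx.mk (nat_lit 436) (nat_lit 4) (nat_lit 6) (nat_lit 6) (nat_lit 6) (nat_lit 152) (nat_lit 150) r8_152 r8_150 (nat_lit 0) (nat_lit 0) (nat_lit 0) (nat_lit 0x7d406dbbe4) (nat_lit 1349024976),
  Rx.mk (nat_lit 438) (nat_lit 6) (nat_lit 6) (nat_lit 6) (nat_lit 7) (nat_lit 153) (nat_lit 154) r8_153 r8_154 (nat_lit 0) (nat_lit 0) (nat_lit 0) (nat_lit 0x7de2fc9254) (nat_lit 1037336976),
  Rx.mk (nat_lit 487) (nat_lit 7) (nat_lit 4) (nat_lit 7) (nat_lit 5) (nat_lit 150) (nat_lit 152) r8_150 r8_152 (nat_lit 0) (nat_lit 0) (nat_lit 0) (nat_lit 0x7d406dbbe4) (nat_lit 1349024976),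
  Rx.mk (nat_lit 511) (nat_lit 7) (nat_lit 7) (nat_lit 7) (nat_lit 7) (nat_lit 154) (nat_lit 153) r8_154 r8_153 (nat_lit 0) (nat_lit 0) (nat_lit 0) (nat_lit 0x7de2fc9254) (nat_lit 1037336976)]
noncomputable def e19_16 : List Rx := [
  Rx.mk (nat_lit 359) (nat_lit 7) (nat_lit 4) (nat_lit 5) (nat_lit 5) (nat_lit 167) (nat_lit 273) r8_167 r4_273 (nat_lit 0) (nat_lit 0) (nat_lit 0) (nat_lit 0x7db654dcfc) (nat_lit 1122958512),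
  Rx.mk (nat_lit 367) (nat_lit 7) (nat_lit 5) (nat_lit 5) (nat_lit 7) (nat_lit 168) (nat_lit 274) r8_168 r4_274 (nat_lit 0) (nat_lit 0) (nat_lit 0) (nat_lit 0x7de3238fe4) (nat_lit 1037044944),
  Rx.mk (nat_lit 383) (nat_lit 7) (nat_lit 7) (nat_lit 5) (nat_lit 7) (nat_lit 169) (nat_lit 275) r8_169 r4_275 (nat_lit 0) (nat_lit 0) (nat_lit 0) (nat_lit 0x7ddff0631a) (nat_lit 1043180424)]
noncomputable def e19_17 : List Rx := [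
  Rx.mk (nat_lit 295) (nat_lit 7) (nat_lit 4) (nat_lit 4) (nat_lit 1) (nat_lit 209) (nat_lit 161) r8_209 r9_161 (nat_lit 0) (nat_lit 0) (nat_lit 0) (nat_lit 0x6a74ad2aba) (nat_lit 10575059976),
  Rx.mk (nat_lit 319) (nat_lit 7) (nat_lit 7) (nat_lit 4) (nat_lit 3) (nat_lit 212) (nat_lit 164) r8_212 r9_164 (nat_lit 0) (nat_lit 0) (nat_lit 0) (nat_lit 0x7dd319309a) (nat_lit 1067800968),
  Rx.mk (nat_lit 359) (nat_lit 7) (nat_lit 4) (nat_lit 5) (nat_lit 5) (nat_lit 210) (nat_lit 162) r8_210 r9_162 (nat_lit 0) (nat_lit 0) (nat_lit 0) (nat_lit 0x7df31b305a) (nat_lit 1006429320),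
  Rx.mk (nat_lit 367) (nat_lit 7) (nat_lit 5) (nat_lit 5) (nat_lit 7) (nat_lit 211) (nat_lit 163) r8_211 r9_163 (nat_lit 0) (nat_lit 0) (nat_lit 0) (nat_lit 0x7df6743ac6) (nat_lit 1000010232),
  Rx.mk (nat_lit 383) (nat_lit 7) (nat_lit 7) (nat_lit 5) (nat_lit 7) (nat_lit 213) (nat_lit 165) r8_213 r9_165 (nat_lit 0) (nat_lit 0) (nat_lit 0) (nat_lit 0x7de391c900) (nat_lit 1036219392)]
noncomputable def e19_18 : List Rx := [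
  Rx.mk (nat_lit 383) (nat_lit 7) (nat_lit 7) (nat_lit 5) (nat_lit 7) (nat_lit 214) (nat_lit 164) r8_214 r10_164 (nat_lit 0) (nat_lit 0) (nat_lit 0) (nat_lit 0x7df2523cea) (nat_lit 1007934408)]
noncomputable def e19_19 : List Rx := [
  Rx.mk (nat_lit 0) (nat_lit 0) (nat_lit 0) (nat_lit 0) (nat_lit 0) (nat_lit 109) (nat_lit 121) r8_109 r8_121 (nat_lit 0) (nat_lit 0) (nat_lit 0) (nat_lit 0x1d7bba276) (nat_lit 61924736952),
  Rx.mk (nat_lit 2) (nat_lit 2) (nat_lit 0) (nat_lit 0) (nat_lit 1) (nat_lit 110) (nat_lit 122) r8_110 r8_122 (nat_lit 0) (nat_lit 0) (nat_lit 0) (nat_lit 0x532e67865c) (nat_lit 21999427632),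
  Rx.mk (nat_lit 24) (nat_lit 0) (nat_lit 3) (nat_lit 0) (nat_lit 2) (nat_lit 115) (nat_lit 124) r8_115 r8_124 (nat_lit 0) (nat_lit 0) (nat_lit 0) (nat_lit 0x5ed8d0b41e) (nat_lit 16273295064),
  Rx.mk (nat_lit 26) (nat_lit 2) (nat_lit 3) (nat_lit 0) (nat_lit 3) (nat_lit 117) (nat_lit 127) r8_117 r8_127 (nat_lit 0) (nat_lit 0) (nat_lit 0) (nat_lit 0x7cadb6a7e8) (nat_lit 1630336032),
  Rx.mk (nat_lit 130) (nat_lit 2) (nat_lit 0) (nat_lit 2) (nat_lit 5) (nat_lit 111) (nat_lit 123) r8_111 r8_123 (nat_lit 0) (nat_lit 0) (nat_lit 0) (nat_lit 0x79b20905be) (nat_lit 3094609752),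
  Rx.mk (nat_lit 146) (nat_lit 2) (nat_lit 2) (nat_lit 2) (nat_lit 7) (nat_lit 112) (nat_lit 132) r8_112 r8_132 (nat_lit 0) (nat_lit 0) (nat_lit 0) (nat_lit 0x7dbc36ded6) (nat_lit 1111678776),
  Rx.mk (nat_lit 150) (nat_lit 6) (nat_lit 2) (nat_lit 2) (nat_lit 7) (nat_lit 113) (nat_lit 131) r8_113 r8_131 (nat_lit 0) (nat_lit 0) (nat_lit 0) (nat_lit 0x7da45e3c78) (nat_lit 1157401440),
  Rx.mk (nat_lit 154) (nat_lit 2) (nat_lit 3) (nat_lit 2) (nat_lit 7) (nat_lit 118) (nat_lit 129) r8_118 r8_129 (nat_lit 0) (nat_lit 0) (nat_lit 0) (nat_lit 0x7df4603c08) (nat_lit 1003994784),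
  Rx.mk (nat_lit 216) (nat_lit 0) (nat_lit 3) (nat_lit 3) (nat_lit 6) (nat_lit 116) (nat_lit 125) r8_116 r8_125 (nat_lit 0) (nat_lit 0) (nat_lit 0) (nat_lit 0x73b2d97eb6) (nat_lit 6038168760),
  Rx.mk (nat_lit 218) (nat_lit 2) (nat_lit 3) (nat_lit 3) (nat_lit 7) (nat_lit 119) (nat_lit 128) r8_119 r8_128 (nat_lit 0) (nat_lit 0) (nat_lit 0) (nat_lit 0x7d78fd12b6) (nat_lit 1240577208),
  Rx.mk (nat_lit 219) (nat_lit 3) (nat_lit 3) (nat_lit 3) (nat_lit 7) (nat_lit 120) (nat_lit 126) r8_120 r8_126 (nat_lit 0) (nat_lit 0) (nat_lit 0) (nat_lit 0x7daae6b3ea) (nat_lit 1144874952),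
  Rx.mk (nat_lit 251) (nat_lit 3) (nat_lit 7) (nat_lit 3) (nat_lit 7) (nat_lit 130) (nat_lit 114) r8_130 r8_114 (nat_lit 0) (nat_lit 0) (nat_lit 0) (nat_lit 0x7dbc3f7e4c) (nat_lit 1111614192),
  Rx.mk (nat_lit 292) (nat_lit 4) (nat_lit 4) (nat_lit 4) (nat_lit 0) (nat_lit 121) (nat_lit 109) r8_121 r8_109 (nat_lit 0) (nat_lit 0) (nat_lit 0) (nat_lit 0x1d7bba276) (nat_lit 61924736952),
  Rx.mk (nat_lit 295) (nat_lit 7) (nat_lit 4) (nat_lit 4) (nat_lit 1) (nat_lit 122) (nat_lit 110) r8_122 r8_110 (nat_lit 0) (nat_lit 0) (nat_lit 0) (nat_lit 0x532e67865c) (nat_lit 21999427632),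
  Rx.mk (nat_lit 308) (nat_lit 4) (nat_lit 6) (nat_lit 4) (nat_lit 2) (nat_lit 124) (nat_lit 115) r8_124 r8_115 (nat_lit 0) (nat_lit 0) (nat_lit 0) (nat_lit 0x5ed8d0b41e) (nat_lit 16273295064),
  Rx.mk (nat_lit 311) (nat_lit 7) (nat_lit 6) (nat_lit 4) (nat_lit 3) (nat_lit 127) (nat_lit 117) r8_127 r8_117 (nat_lit 0) (nat_lit 0) (nat_lit 0) (nat_lit 0x7cadb6a7e8) (nat_lit 1630336032),
  Rx.mk (nat_lit 406) (nat_lit 6) (nat_lit 2) (nat_lit 6) (nat_lit 7) (nat_lit 114) (nat_lit 130) r8_114 r8_130 (nat_lit 0) (nat_lit 0) (nat_lit 0) (nat_lit 0x7dbc3f7e4c) (nat_lit 1111614192),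
  Rx.mk (nat_lit 436) (nat_lit 4) (nat_lit 6) (nat_lit 6) (nat_lit 6) (nat_lit 125) (nat_lit 116) r8_125 r8_116 (nat_lit 0) (nat_lit 0) (nat_lit 0) (nat_lit 0x73b2d97eb6) (nat_lit 6038168760),
  Rx.mk (nat_lit 438) (nat_lit 6) (nat_lit 6) (nat_lit 6) (nat_lit 7) (nat_lit 126) (nat_lit 120) r8_126 r8_120 (nat_lit 0) (nat_lit 0) (nat_lit 0) (nat_lit 0x7daae6b3ea) (nat_lit 1144874952),
  Rx.mk (nat_lit 439) (nat_lit 7) (nat_lit 6) (nat_lit 6) (nat_lit 7) (nat_lit 128) (nat_lit 119) r8_128 r8_119 (nat_lit 0) (nat_lit 0) (nat_lit 0) (nat_lit 0x7d78fd12b6) (nat_lit 1240577208),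
  Rx.mk (nat_lit 487) (nat_lit 7) (nat_lit 4) (nat_lit 7) (nat_lit 5) (nat_lit 123) (nat_lit 111) r8_123 r8_111 (nat_lit 0) (nat_lit 0) (nat_lit 0) (nat_lit 0x79b20905be) (nat_lit 3094609752),
  Rx.mk (nat_lit 503) (nat_lit 7) (nat_lit 6) (nat_lit 7) (nat_lit 7) (nat_lit 129) (nat_lit 118) r8_129 r8_118 (nat_lit 0) (nat_lit 0) (nat_lit 0) (nat_lit 0x7df4603c08) (nat_lit 1003994784),
  Rx.mk (nat_lit 507) (nat_lit 3) (nat_lit 7) (nat_lit 7) (nat_lit 7) (nat_lit 131) (nat_lit 113) r8_131 r8_113 (nat_lit 0) (nat_lit 0) (nat_lit 0) (nat_lit 0x7da45e3c78) (nat_lit 1157401440),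
  Rx.mk (nat_lit 511) (nat_lit 7) (nat_lit 7) (nat_lit 7) (nat_lit 7) (nat_lit 132) (nat_lit 112) r8_132 r8_112 (nat_lit 0) (nat_lit 0) (nat_lit 0) (nat_lit 0x7dbc36ded6) (nat_lit 1111678776)]
noncomputable def e19_20 : List Rx := [
  Rx.mk (nat_lit 64) (nat_lit 0) (nat_lit 0) (nat_lit 1) (nat_lit 4) (nat_lit 65) (nat_lit 262) r8_65 r0_262 (nat_lit 0) (nat_lit 0) (nat_lit 0) (nat_lit 0x69ec4571be) (nat_lit 10836602712),
  Rx.mk (nat_lit 88) (nat_lit 0) (nat_lit 3) (nat_lit 1) (nat_lit 6) (nat_lit 66) (nat_lit 263) r8_66 r0_263 (nat_lit 0) (nat_lit 0) (nat_lit 0) (nat_lit 0x7d93758b14) (nat_lit 1189822608),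
  Rx.mk (nat_lit 91) (nat_lit 3) (nat_lit 3) (nat_lit 1) (nat_lit 7) (nat_lit 67) (nat_lit 264) r8_67 r0_264 (nat_lit 0) (nat_lit 0) (nat_lit 0) (nat_lit 0x7ddc6c3b60) (nat_lit 1049922432)]
noncomputable def e19_21 : List Rx := [
  Rx.mk (nat_lit 64) (nat_lit 0) (nat_lit 0) (nat_lit 1) (nat_lit 4) (nat_lit 83) (nat_lit 269) r8_83 r1_269 (nat_lit 0) (nat_lit 0) (nat_lit 0) (nat_lit 0x6f59076032) (nat_lit 8173804392),
  Rx.mk (nat_lit 88) (nat_lit 0) (nat_lit 3) (nat_lit 1) (nat_lit 6) (nat_lit 84) (nat_lit 270) r8_84 r1_270 (nat_lit 0) (nat_lit 0) (nat_lit 0) (nat_lit 0x7dc4b5b6e0) (nat_lit 1095389568),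
  Rx.mk (nat_lit 91) (nat_lit 3) (nat_lit 3) (nat_lit 1) (nat_lit 7) (nat_lit 85) (nat_lit 271) r8_85 r1_271 (nat_lit 0) (nat_lit 0) (nat_lit 0) (nat_lit 0x7de721effa) (nat_lit 1029387528)]
noncomputable def e19_22 : List Rx := [
  Rx.mk (nat_lit 88) (nat_lit 0) (nat_lit 3) (nat_lit 1) (nat_lit 6) (nat_lit 133) (nat_lit 276) r8_133 r4_276 (nat_lit 0) (nat_lit 0) (nat_lit 0) (nat_lit 0x7cdf86cab4) (nat_lit 1534824720),
  Rx.mk (nat_lit 91) (nat_lit 3) (nat_lit 3) (nat_lit 1) (nat_lit 7) (nat_lit 134) (nat_lit 277) r8_134 r4_277 (nat_lit 0) (nat_lit 0) (nat_lit 0) (nat_lit 0x7debb286ec) (nat_lit 1020634992),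
  Rx.mk (nat_lit 123) (nat_lit 3) (nat_lit 7) (nat_lit 1) (nat_lit 7) (nat_lit 135) (nat_lit 278) r8_135 r4_278 (nat_lit 0) (nat_lit 0) (nat_lit 0) (nat_lit 0x7deeb9d674) (nat_lit 1014828048)]
noncomputable def e19_23 : List Rx := [
  Rx.mk (nat_lit 0) (nat_lit 0) (nat_lit 0) (nat_lit 0) (nat_lit 0) (nat_lit 68) (nat_lit 161) r8_68 r6_161 (nat_lit 0) (nat_lit 0) (nat_lit 0) (nat_lit 0x1096296cda) (nat_lit 54687661704),
  Rx.mk (nat_lit 2) (nat_lit 2) (nat_lit 0) (nat_lit 0) (nat_lit 1) (nat_lit 70) (nat_lit 163) r8_70 r6_163 (nat_lit 0) (nat_lit 0) (nat_lit 0) (nat_lit 0x6a853e8194) (nat_lit 10543293072),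
  Rx.mk (nat_lit 24) (nat_lit 0) (nat_lit 3) (nat_lit 0) (nat_lit 2) (nat_lit 74) (nat_lit 166) r8_74 r6_166 (nat_lit 0) (nat_lit 0) (nat_lit 0) (nat_lit 0x5019957692) (nat_lit 23511909096),
  Rx.mk (nat_lit 26) (nat_lit 2) (nat_lit 3) (nat_lit 0) (nat_lit 3) (nat_lit 76) (nat_lit 171) r8_76 r6_171 (nat_lit 0) (nat_lit 0) (nat_lit 0) (nat_lit 0x7d87fec28c) (nat_lit 1211803632),
  Rx.mk (nat_lit 27) (nat_lit 3) (nat_lit 3) (nat_lit 0) (nat_lit 3) (nat_lit 79) (nat_lit 168) r8_79 r6_168 (nat_lit 0) (nat_lit 0) (nat_lit 0) (nat_lit 0x7d16a3b8ae) (nat_lit 1429151256),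
  Rx.mk (nat_lit 64) (nat_lit 0) (nat_lit 0) (nat_lit 1) (nat_lit 4) (nat_lit 69) (nat_lit 162) r8_69 r6_162 (nat_lit 0) (nat_lit 0) (nat_lit 0) (nat_lit 0x71f61f2c18) (nat_lit 6890888160),
  Rx.mk (nat_lit 66) (nat_lit 2) (nat_lit 0) (nat_lit 1) (nat_lit 5) (nat_lit 71) (nat_lit 164) r8_71 r6_164 (nat_lit 0) (nat_lit 0) (nat_lit 0) (nat_lit 0x7dc10491f6) (nat_lit 1102468536),
  Rx.mk (nat_lit 88) (nat_lit 0) (nat_lit 3) (nat_lit 1) (nat_lit 6) (nat_lit 75) (nat_lit 167) r8_75 r6_167 (nat_lit 0) (nat_lit 0) (nat_lit 0) (nat_lit 0x7dd000422c) (nat_lit 1073739888),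
  Rx.mk (nat_lit 90) (nat_lit 2) (nat_lit 3) (nat_lit 1) (nat_lit 7) (nat_lit 77) (nat_lit 172) r8_77 r6_172 (nat_lit 0) (nat_lit 0) (nat_lit 0) (nat_lit 0x7deecab566) (nat_lit 1014701688),
  Rx.mk (nat_lit 91) (nat_lit 3) (nat_lit 3) (nat_lit 1) (nat_lit 7) (nat_lit 80) (nat_lit 169) r8_80 r6_169 (nat_lit 0) (nat_lit 0) (nat_lit 0) (nat_lit 0x7de0fcd252) (nat_lit 1041169896),
  Rx.mk (nat_lit 130) (nat_lit 2) (nat_lit 0) (nat_lit 2) (nat_lit 5) (nat_lit 72) (nat_lit 165) r8_72 r6_165 (nat_lit 0) (nat_lit 0) (nat_lit 0) (nat_lit 0x7c9b768bfc) (nat_lit 1665329328),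
  Rx.mk (nat_lit 146) (nat_lit 2) (nat_lit 2) (nat_lit 2) (nat_lit 7) (nat_lit 73) (nat_lit 174) r8_73 r6_174 (nat_lit 0) (nat_lit 0) (nat_lit 0) (nat_lit 0x7de7e5a3be) (nat_lit 1027921752),
  Rx.mk (nat_lit 154) (nat_lit 2) (nat_lit 3) (nat_lit 2) (nat_lit 7) (nat_lit 78) (nat_lit 173) r8_78 r6_173 (nat_lit 0) (nat_lit 0) (nat_lit 0) (nat_lit 0x7de3b0e70e) (nat_lit 1035986328),
  Rx.mk (nat_lit 219) (nat_lit 3) (nat_lit 3) (nat_lit 3) (nat_lit 7) (nat_lit 81) (nat_lit 170) r8_81 r6_170 (nat_lit 0) (nat_lit 0) (nat_lit 0) (nat_lit 0x7dc460fc2c) (nat_lit 1096024176),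
  Rx.mk (nat_lit 251) (nat_lit 3) (nat_lit 7) (nat_lit 3) (nat_lit 7) (nat_lit 82) (nat_lit 160) r8_82 r6_160 (nat_lit 0) (nat_lit 0) (nat_lit 0) (nat_lit 0x7ddda00822) (nat_lit 1047617064)]
noncomputable def e19_24 : List Rx := [
  Rx.mk (nat_lit 0) (nat_lit 0) (nat_lit 0) (nat_lit 0) (nat_lit 0) (nat_lit 86) (nat_lit 133) r8_86 r7_133 (nat_lit 0) (nat_lit 0) (nat_lit 0) (nat_lit 0x4dd0ff623c) (nat_lit 24632792496),
  Rx.mk (nat_lit 2) (nat_lit 2) (nat_lit 0) (nat_lit 0) (nat_lit 1) (nat_lit 88) (nat_lit 135) r8_88 r7_135 (nat_lit 0) (nat_lit 0) (nat_lit 0) (nat_lit 0x79a02d0390) (nat_lit 3128853312),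
  Rx.mk (nat_lit 24) (nat_lit 0) (nat_lit 3) (nat_lit 0) (nat_lit 2) (nat_lit 92) (nat_lit 138) r8_92 r7_138 (nat_lit 0) (nat_lit 0) (nat_lit 0) (nat_lit 0x72540acd00) (nat_lit 6710805504),
  Rx.mk (nat_lit 26) (nat_lit 2) (nat_lit 3) (nat_lit 0) (nat_lit 3) (nat_lit 94) (nat_lit 143) r8_94 r7_143 (nat_lit 0) (nat_lit 0) (nat_lit 0) (nat_lit 0x7de5f8a290) (nat_lit 1031614272),
  Rx.mk (nat_lit 27) (nat_lit 3) (nat_lit 3) (nat_lit 0) (nat_lit 3) (nat_lit 96) (nat_lit 140) r8_96 r7_140 (nat_lit 0) (nat_lit 0) (nat_lit 0) (nat_lit 0x7da6639c20) (nat_lit 1153526400),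
  Rx.mk (nat_lit 64) (nat_lit 0) (nat_lit 0) (nat_lit 1) (nat_lit 4) (nat_lit 87) (nat_lit 134) r8_87 r7_134 (nat_lit 0) (nat_lit 0) (nat_lit 0) (nat_lit 0x726c30aa8a) (nat_lit 6664504392),
  Rx.mk (nat_lit 66) (nat_lit 2) (nat_lit 0) (nat_lit 1) (nat_lit 5) (nat_lit 89) (nat_lit 136) r8_89 r7_136 (nat_lit 0) (nat_lit 0) (nat_lit 0) (nat_lit 0x7dcb1d3062) (nat_lit 1083110184),
  Rx.mk (nat_lit 88) (nat_lit 0) (nat_lit 3) (nat_lit 1) (nat_lit 6) (nat_lit 93) (nat_lit 139) r8_93 r7_139 (nat_lit 0) (nat_lit 0) (nat_lit 0) (nat_lit 0x7defee632a) (nat_lit 1012517064),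
  Rx.mk (nat_lit 90) (nat_lit 2) (nat_lit 3) (nat_lit 1) (nat_lit 7) (nat_lit 95) (nat_lit 144) r8_95 r7_144 (nat_lit 0) (nat_lit 0) (nat_lit 0) (nat_lit 0x7dd143cdf2) (nat_lit 1071316584),
  Rx.mk (nat_lit 91) (nat_lit 3) (nat_lit 3) (nat_lit 1) (nat_lit 7) (nat_lit 97) (nat_lit 141) r8_97 r7_141 (nat_lit 0) (nat_lit 0) (nat_lit 0) (nat_lit 0x7dee723aee) (nat_lit 1015364376),
  Rx.mk (nat_lit 130) (nat_lit 2) (nat_lit 0) (nat_lit 2) (nat_lit 5) (nat_lit 90) (nat_lit 137) r8_90 r7_137 (nat_lit 0) (nat_lit 0) (nat_lit 0) (nat_lit 0x7dc9350ee6) (nat_lit 1086766200),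
  Rx.mk (nat_lit 146) (nat_lit 2) (nat_lit 2) (nat_lit 2) (nat_lit 7) (nat_lit 91) (nat_lit 145) r8_91 r7_145 (nat_lit 0) (nat_lit 0) (nat_lit 0) (nat_lit 0x7df0bff610) (nat_lit 1010947392),
  Rx.mk (nat_lit 219) (nat_lit 3) (nat_lit 3) (nat_lit 3) (nat_lit 7) (nat_lit 98) (nat_lit 142) r8_98 r7_142 (nat_lit 0) (nat_lit 0) (nat_lit 0) (nat_lit 0x7db8202046) (nat_lit 1119518712)]
noncomputable def e19_25 : List Rx := [
  Rx.mk (nat_lit 0) (nat_lit 0) (nat_lit 0) (nat_lit 0) (nat_lit 0) (nat_lit 99) (nat_lit 273) r8_99 r7_273 (nat_lit 0) (nat_lit 0) (nat_lit 0) (nat_lit 0x5e013b8ec) (nat_lit 59945324400),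
  Rx.mk (nat_lit 2) (nat_lit 2) (nat_lit 0) (nat_lit 0) (nat_lit 1) (nat_lit 100) (nat_lit 276) r8_100 r7_276 (nat_lit 0) (nat_lit 0) (nat_lit 0) (nat_lit 0x70d5b03428) (nat_lit 7443929376),
  Rx.mk (nat_lit 24) (nat_lit 0) (nat_lit 3) (nat_lit 0) (nat_lit 2) (nat_lit 103) (nat_lit 274) r8_103 r7_274 (nat_lit 0) (nat_lit 0) (nat_lit 0) (nat_lit 0x6e391d1ff6) (nat_lit 8725851576),
  Rx.mk (nat_lit 26) (nat_lit 2) (nat_lit 3) (nat_lit 0) (nat_lit 3) (nat_lit 104) (nat_lit 277) r8_104 r7_277 (nat_lit 0) (nat_lit 0) (nat_lit 0) (nat_lit 0x7da28699f4) (nat_lit 1160933904),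
  Rx.mk (nat_lit 27) (nat_lit 3) (nat_lit 3) (nat_lit 0) (nat_lit 3) (nat_lit 106) (nat_lit 275) r8_106 r7_275 (nat_lit 0) (nat_lit 0) (nat_lit 0) (nat_lit 0x7cf6673c96) (nat_lit 1490960952),
  Rx.mk (nat_lit 130) (nat_lit 2) (nat_lit 0) (nat_lit 2) (nat_lit 5) (nat_lit 101) (nat_lit 280) r8_101 r7_280 (nat_lit 0) (nat_lit 0) (nat_lit 0) (nat_lit 0x7cfa07e288) (nat_lit 1484005536),
  Rx.mk (nat_lit 146) (nat_lit 2) (nat_lit 2) (nat_lit 2) (nat_lit 7) (nat_lit 102) (nat_lit 282) r8_102 r7_282 (nat_lit 0) (nat_lit 0) (nat_lit 0) (nat_lit 0x7dc4f5d2de) (nat_lit 1094909400),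
  Rx.mk (nat_lit 154) (nat_lit 2) (nat_lit 3) (nat_lit 2) (nat_lit 7) (nat_lit 105) (nat_lit 281) r8_105 r7_281 (nat_lit 0) (nat_lit 0) (nat_lit 0) (nat_lit 0x7df1f9c272) (nat_lit 1008597096),
  Rx.mk (nat_lit 219) (nat_lit 3) (nat_lit 3) (nat_lit 3) (nat_lit 7) (nat_lit 107) (nat_lit 278) r8_107 r7_278 (nat_lit 0) (nat_lit 0) (nat_lit 0) (nat_lit 0x7dcea1581c) (nat_lit 1076368176),
  Rx.mk (nat_lit 251) (nat_lit 3) (nat_lit 7) (nat_lit 3) (nat_lit 7) (nat_lit 108) (nat_lit 279) r8_108 r7_279 (nat_lit 0) (nat_lit 0) (nat_lit 0) (nat_lit 0x7de4ad9742) (nat_lit 1034093736)]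
noncomputable def e19_26 : List Rx := [
  Rx.mk (nat_lit 24) (nat_lit 0) (nat_lit 3) (nat_lit 0) (nat_lit 2) (nat_lit 136) (nat_lit 120) r8_136 r9_120 (nat_lit 0) (nat_lit 0) (nat_lit 0) (nat_lit 0x71a1bf9266) (nat_lit 7052665464),
  Rx.mk (nat_lit 26) (nat_lit 2) (nat_lit 3) (nat_lit 0) (nat_lit 3) (nat_lit 138) (nat_lit 124) r8_138 r9_124 (nat_lit 0) (nat_lit 0) (nat_lit 0) (nat_lit 0x7ddb1ef036) (nat_lit 1052418744),
  Rx.mk (nat_lit 27) (nat_lit 3) (nat_lit 3) (nat_lit 0) (nat_lit 3) (nat_lit 141) (nat_lit 122) r8_141 r9_122 (nat_lit 0) (nat_lit 0) (nat_lit 0) (nat_lit 0x7db930af3c) (nat_lit 1117477296),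
  Rx.mk (nat_lit 59) (nat_lit 3) (nat_lit 7) (nat_lit 0) (nat_lit 3) (nat_lit 143) (nat_lit 117) r8_143 r9_117 (nat_lit 0) (nat_lit 0) (nat_lit 0) (nat_lit 0x7dc6281fb8) (nat_lit 1092615264),
  Rx.mk (nat_lit 88) (nat_lit 0) (nat_lit 3) (nat_lit 1) (nat_lit 6) (nat_lit 137) (nat_lit 121) r8_137 r9_121 (nat_lit 0) (nat_lit 0) (nat_lit 0) (nat_lit 0x7ce5b0c80e) (nat_lit 1523005848),
  Rx.mk (nat_lit 90) (nat_lit 2) (nat_lit 3) (nat_lit 1) (nat_lit 7) (nat_lit 139) (nat_lit 125) r8_139 r9_125 (nat_lit 0) (nat_lit 0) (nat_lit 0) (nat_lit 0x7debf422d2) (nat_lit 1020143592),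
  Rx.mk (nat_lit 91) (nat_lit 3) (nat_lit 3) (nat_lit 1) (nat_lit 7) (nat_lit 142) (nat_lit 123) r8_142 r9_123 (nat_lit 0) (nat_lit 0) (nat_lit 0) (nat_lit 0x7dda391e94) (nat_lit 1054140048),
  Rx.mk (nat_lit 123) (nat_lit 3) (nat_lit 7) (nat_lit 1) (nat_lit 7) (nat_lit 144) (nat_lit 118) r8_144 r9_118 (nat_lit 0) (nat_lit 0) (nat_lit 0) (nat_lit 0x7de07d5a4a) (nat_lit 1042124616),
  Rx.mk (nat_lit 154) (nat_lit 2) (nat_lit 3) (nat_lit 2) (nat_lit 7) (nat_lit 140) (nat_lit 126) r8_140 r9_126 (nat_lit 0) (nat_lit 0) (nat_lit 0) (nat_lit 0x7decfd923a) (nat_lit 1018155528),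
  Rx.mk (nat_lit 251) (nat_lit 3) (nat_lit 7) (nat_lit 3) (nat_lit 7) (nat_lit 145) (nat_lit 119) r8_145 r9_119 (nat_lit 0) (nat_lit 0) (nat_lit 0) (nat_lit 0x7de96beb58) (nat_lit 1024998624)]
noncomputable def e19_27 : List Rx := [
  Rx.mk (nat_lit 91) (nat_lit 3) (nat_lit 3) (nat_lit 1) (nat_lit 7) (nat_lit 146) (nat_lit 124) r8_146 r10_124 (nat_lit 0) (nat_lit 0) (nat_lit 0) (nat_lit 0x7df79428c6) (nat_lit 997853688),
  Rx.mk (nat_lit 123) (nat_lit 3) (nat_lit 7) (nat_lit 1) (nat_lit 7) (nat_lit 147) (nat_lit 123) r8_147 r10_123 (nat_lit 0) (nat_lit 0) (nat_lit 0) (nat_lit 0x7df5dba450) (nat_lit 1001153088)]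
noncomputable def e19_28 : List Rx := [
  Rx.mk (nat_lit 291) (nat_lit 3) (nat_lit 4) (nat_lit 4) (nat_lit 1) (nat_lit 229) (nat_lit 319) r8_229 r10_319 (nat_lit 0) (nat_lit 0) (nat_lit 0) (nat_lit 0x76844a04dc) (nat_lit 4654883376),
  Rx.mk (nat_lit 295) (nat_lit 7) (nat_lit 4) (nat_lit 4) (nat_lit 1) (nat_lit 231) (nat_lit 318) r8_231 r10_318 (nat_lit 0) (nat_lit 0) (nat_lit 0) (nat_lit 0x74c5e86cb4) (nat_lit 5510773008),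
  Rx.mk (nat_lit 311) (nat_lit 7) (nat_lit 6) (nat_lit 4) (nat_lit 3) (nat_lit 235) (nat_lit 321) r8_235 r10_321 (nat_lit 0) (nat_lit 0) (nat_lit 0) (nat_lit 0x7de41b006c) (nat_lit 1035191664),
  Rx.mk (nat_lit 315) (nat_lit 3) (nat_lit 7) (nat_lit 4) (nat_lit 3) (nat_lit 238) (nat_lit 320) r8_238 r10_320 (nat_lit 0) (nat_lit 0) (nat_lit 0) (nat_lit 0x7db5be8662) (nat_lit 1124084520),
  Rx.mk (nat_lit 355) (nat_lit 3) (nat_lit 4) (nat_lit 5) (nat_lit 5) (nat_lit 230) (nat_lit 323) r8_230 r10_323 (nat_lit 0) (nat_lit 0) (nat_lit 0) (nat_lit 0x7dd91db04c) (nat_lit 1056262896),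
  Rx.mk (nat_lit 359) (nat_lit 7) (nat_lit 4) (nat_lit 5) (nat_lit 5) (nat_lit 232) (nat_lit 322) r8_232 r10_322 (nat_lit 0) (nat_lit 0) (nat_lit 0) (nat_lit 0x7de5ce4536) (nat_lit 1031931576),
  Rx.mk (nat_lit 363) (nat_lit 3) (nat_lit 5) (nat_lit 5) (nat_lit 7) (nat_lit 233) (nat_lit 325) r8_233 r10_325 (nat_lit 0) (nat_lit 0) (nat_lit 0) (nat_lit 0x7df5994876) (nat_lit 1001650104),
  Rx.mk (nat_lit 367) (nat_lit 7) (nat_lit 5) (nat_lit 5) (nat_lit 7) (nat_lit 234) (nat_lit 324) r8_234 r10_324 (nat_lit 0) (nat_lit 0) (nat_lit 0) (nat_lit 0x7deef3f2d2) (nat_lit 1014392808),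
  Rx.mk (nat_lit 375) (nat_lit 7) (nat_lit 6) (nat_lit 5) (nat_lit 7) (nat_lit 236) (nat_lit 327) r8_236 r10_327 (nat_lit 0) (nat_lit 0) (nat_lit 0) (nat_lit 0x7dcf8f693a) (nat_lit 1074585096),
  Rx.mk (nat_lit 379) (nat_lit 3) (nat_lit 7) (nat_lit 5) (nat_lit 7) (nat_lit 239) (nat_lit 326) r8_239 r10_326 (nat_lit 0) (nat_lit 0) (nat_lit 0) (nat_lit 0x7df0180090) (nat_lit 1012205376),
  Rx.mk (nat_lit 439) (nat_lit 7) (nat_lit 6) (nat_lit 6) (nat_lit 7) (nat_lit 237) (nat_lit 329) r8_237 r10_329 (nat_lit 0) (nat_lit 0) (nat_lit 0) (nat_lit 0x7df16d2b3c) (nat_lit 1009650096),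
  Rx.mk (nat_lit 507) (nat_lit 3) (nat_lit 7) (nat_lit 7) (nat_lit 7) (nat_lit 240) (nat_lit 328) r8_240 r10_328 (nat_lit 0) (nat_lit 0) (nat_lit 0) (nat_lit 0x7df39d4838) (nat_lit 1005454944)]
noncomputable def e19_29 : List Rx := [
  Rx.mk (nat_lit 99) (nat_lit 3) (nat_lit 4) (nat_lit 1) (nat_lit 5) (nat_lit 241) (nat_lit 319) r8_241 r5_319 (nat_lit 0) (nat_lit 0) (nat_lit 0) (nat_lit 0x7d60a6d832) (nat_lit 1287240552),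
  Rx.mk (nat_lit 107) (nat_lit 3) (nat_lit 5) (nat_lit 1) (nat_lit 7) (nat_lit 242) (nat_lit 320) r8_242 r5_320 (nat_lit 0) (nat_lit 0) (nat_lit 0) (nat_lit 0x7de9d244f2) (nat_lit 1024232040),
  Rx.mk (nat_lit 123) (nat_lit 3) (nat_lit 7) (nat_lit 1) (nat_lit 7) (nat_lit 243) (nat_lit 321) r8_243 r5_321 (nat_lit 0) (nat_lit 0) (nat_lit 0) (nat_lit 0x7dd8a1f808) (nat_lit 1057189536)]
noncomputable def e19_30 : List Rx := [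
  Rx.mk (nat_lit 59) (nat_lit 3) (nat_lit 7) (nat_lit 0) (nat_lit 3) (nat_lit 216) (nat_lit 330) r8_216 r10_330 (nat_lit 0) (nat_lit 0) (nat_lit 0) (nat_lit 0x7dca825a10) (nat_lit 1084269888),
  Rx.mk (nat_lit 123) (nat_lit 3) (nat_lit 7) (nat_lit 1) (nat_lit 7) (nat_lit 217) (nat_lit 331) r8_217 r10_331 (nat_lit 0) (nat_lit 0) (nat_lit 0) (nat_lit 0x7dde527cfa) (nat_lit 1046280456),
  Rx.mk (nat_lit 251) (nat_lit 3) (nat_lit 7) (nat_lit 3) (nat_lit 7) (nat_lit 218) (nat_lit 332) r8_218 r10_332 (nat_lit 0) (nat_lit 0) (nat_lit 0) (nat_lit 0x7de88a996e) (nat_lit 1026686232)]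
noncomputable def e19_31 : List Rx := [
  Rx.mk (nat_lit 99) (nat_lit 3) (nat_lit 4) (nat_lit 1) (nat_lit 5) (nat_lit 219) (nat_lit 314) r8_219 r5_314 (nat_lit 0) (nat_lit 0) (nat_lit 0) (nat_lit 0x7d4396095c) (nat_lit 1342970928),
  Rx.mk (nat_lit 107) (nat_lit 3) (nat_lit 5) (nat_lit 1) (nat_lit 7) (nat_lit 221) (nat_lit 316) r8_221 r5_316 (nat_lit 0) (nat_lit 0) (nat_lit 0) (nat_lit 0x7de265dbc0) (nat_lit 1038465792),
  Rx.mk (nat_lit 355) (nat_lit 3) (nat_lit 4) (nat_lit 5) (nat_lit 5) (nat_lit 220) (nat_lit 315) r8_220 r5_315 (nat_lit 0) (nat_lit 0) (nat_lit 0) (nat_lit 0x7c922f207c) (nat_lit 1683120816),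
  Rx.mk (nat_lit 363) (nat_lit 3) (nat_lit 5) (nat_lit 5) (nat_lit 7) (nat_lit 222) (nat_lit 317) r8_222 r5_317 (nat_lit 0) (nat_lit 0) (nat_lit 0) (nat_lit 0x7dde539ce8) (nat_lit 1046272032),
  Rx.mk (nat_lit 379) (nat_lit 3) (nat_lit 7) (nat_lit 5) (nat_lit 7) (nat_lit 223) (nat_lit 318) r8_223 r5_318 (nat_lit 0) (nat_lit 0) (nat_lit 0) (nat_lit 0x7df2463daa) (nat_lit 1008024264)]
noncomputable def e19_32 : List Rx := [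
  Rx.mk (nat_lit 99) (nat_lit 3) (nat_lit 4) (nat_lit 1) (nat_lit 5) (nat_lit 244) (nat_lit 165) r8_244 r11_165 (nat_lit 0) (nat_lit 0) (nat_lit 0) (nat_lit 0x7d6133cf62) (nat_lit 1286184744),
  Rx.mk (nat_lit 107) (nat_lit 3) (nat_lit 5) (nat_lit 1) (nat_lit 7) (nat_lit 245) (nat_lit 166) r8_245 r11_166 (nat_lit 0) (nat_lit 0) (nat_lit 0) (nat_lit 0x7de71770a2) (nat_lit 1029466152),
  Rx.mk (nat_lit 123) (nat_lit 3) (nat_lit 7) (nat_lit 1) (nat_lit 7) (nat_lit 246) (nat_lit 167) r8_246 r11_167 (nat_lit 0) (nat_lit 0) (nat_lit 0) (nat_lit 0x7de2f0331a) (nat_lit 1037429640),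
  Rx.mk (nat_lit 379) (nat_lit 3) (nat_lit 7) (nat_lit 5) (nat_lit 7) (nat_lit 247) (nat_lit 168) r8_247 r11_168 (nat_lit 0) (nat_lit 0) (nat_lit 0) (nat_lit 0x7dbdfec256) (nat_lit 1108264248)]
noncomputable def e19_33 : List Rx := [
  Rx.mk (nat_lit 72) (nat_lit 0) (nat_lit 1) (nat_lit 1) (nat_lit 6) (nat_lit 250) (nat_lit 295) r8_250 r0_295 (nat_lit 0) (nat_lit 0) (nat_lit 0) (nat_lit 0x7d3d9e48de) (nat_lit 1354413528),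
  Rx.mk (nat_lit 73) (nat_lit 1) (nat_lit 1) (nat_lit 1) (nat_lit 7) (nat_lit 251) (nat_lit 298) r8_251 r0_298 (nat_lit 0) (nat_lit 0) (nat_lit 0) (nat_lit 0x7df79428c6) (nat_lit 997853688),
  Rx.mk (nat_lit 75) (nat_lit 3) (nat_lit 1) (nat_lit 1) (nat_lit 7) (nat_lit 252) (nat_lit 299) r8_252 r0_299 (nat_lit 0) (nat_lit 0) (nat_lit 0) (nat_lit 0x7dea449dcc) (nat_lit 1023375600),
  Rx.mk (nat_lit 104) (nat_lit 0) (nat_lit 5) (nat_lit 1) (nat_lit 6) (nat_lit 253) (nat_lit 294) r8_253 r0_294 (nat_lit 0) (nat_lit 0) (nat_lit 0) (nat_lit 0x7d40db9506) (nat_lit 1348202232),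
  Rx.mk (nat_lit 105) (nat_lit 1) (nat_lit 5) (nat_lit 1) (nat_lit 7) (nat_lit 255) (nat_lit 297) r8_255 r0_297 (nat_lit 0) (nat_lit 0) (nat_lit 0) (nat_lit 0x7de02cbf54) (nat_lit 1042728336),
  Rx.mk (nat_lit 360) (nat_lit 0) (nat_lit 5) (nat_lit 5) (nat_lit 6) (nat_lit 254) (nat_lit 293) r8_254 r0_293 (nat_lit 0) (nat_lit 0) (nat_lit 0) (nat_lit 0x7c454cceee) (nat_lit 1830538008),
  Rx.mk (nat_lit 361) (nat_lit 1) (nat_lit 5) (nat_lit 5) (nat_lit 7) (nat_lit 256) (nat_lit 296) r8_256 r0_296 (nat_lit 0) (nat_lit 0) (nat_lit 0) (nat_lit 0x7df79428c6) (nat_lit 997853688)]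
noncomputable def e19_34 : List Rx := [
  Rx.mk (nat_lit 105) (nat_lit 1) (nat_lit 5) (nat_lit 1) (nat_lit 7) (nat_lit 248) (nat_lit 291) r8_248 r0_291 (nat_lit 0) (nat_lit 0) (nat_lit 0) (nat_lit 0x7df24f9d14) (nat_lit 1007954064),
  Rx.mk (nat_lit 361) (nat_lit 1) (nat_lit 5) (nat_lit 5) (nat_lit 7) (nat_lit 249) (nat_lit 292) r8_249 r0_292 (nat_lit 0) (nat_lit 0) (nat_lit 0) (nat_lit 0x7ddc669bba) (nat_lit 1049964552)]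
noncomputable def e19_35 : List Rx := [
  Rx.mk (nat_lit 73) (nat_lit 1) (nat_lit 1) (nat_lit 1) (nat_lit 7) (nat_lit 257) (nat_lit 411) r8_257 r6_411 (nat_lit 0) (nat_lit 0) (nat_lit 0) (nat_lit 0x7ddfeca356) (nat_lit 1043208504),
  Rx.mk (nat_lit 105) (nat_lit 1) (nat_lit 5) (nat_lit 1) (nat_lit 7) (nat_lit 258) (nat_lit 410) r8_258 r6_410 (nat_lit 0) (nat_lit 0) (nat_lit 0) (nat_lit 0x7dd7634bf4) (nat_lit 1059576336),
  Rx.mk (nat_lit 361) (nat_lit 1) (nat_lit 5) (nat_lit 5) (nat_lit 7) (nat_lit 259) (nat_lit 409) r8_259 r6_409 (nat_lit 0) (nat_lit 0) (nat_lit 0) (nat_lit 0x7de3b8069c) (nat_lit 1035932976)]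
noncomputable def e19_36 : List Rx := [
  Rx.mk (nat_lit 365) (nat_lit 5) (nat_lit 5) (nat_lit 5) (nat_lit 7) (nat_lit 293) (nat_lit 315) r8_293 r2_315 (nat_lit 0) (nat_lit 0) (nat_lit 0) (nat_lit 0x7dee79ba76) (nat_lit 1015308216)]
noncomputable def e19_37 : List Rx := [
  Rx.mk (nat_lit 365) (nat_lit 5) (nat_lit 5) (nat_lit 5) (nat_lit 7) (nat_lit 298) (nat_lit 298) r8_298 r8_298 (nat_lit 0) (nat_lit 0) (nat_lit 0) (nat_lit 0x7de30ad170) (nat_lit 1037230272)]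
noncomputable def e19_38 : List Rx := [
  Rx.mk (nat_lit 365) (nat_lit 5) (nat_lit 5) (nat_lit 5) (nat_lit 7) (nat_lit 299) (nat_lit 266) r8_299 r8_266 (nat_lit 0) (nat_lit 0) (nat_lit 0) (nat_lit 0x7de011610a) (nat_lit 1042933320)]
noncomputable def e19_39 : List Rx := [
  Rx.mk (nat_lit 105) (nat_lit 1) (nat_lit 5) (nat_lit 1) (nat_lit 7) (nat_lit 290) (nat_lit 287) r8_290 r1_287 (nat_lit 0) (nat_lit 0) (nat_lit 0) (nat_lit 0x7deadc744e) (nat_lit 1022238360),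
  Rx.mk (nat_lit 361) (nat_lit 1) (nat_lit 5) (nat_lit 5) (nat_lit 7) (nat_lit 291) (nat_lit 288) r8_291 r1_288 (nat_lit 0) (nat_lit 0) (nat_lit 0) (nat_lit 0x7de6571ca8) (nat_lit 1030906656),
  Rx.mk (nat_lit 365) (nat_lit 5) (nat_lit 5) (nat_lit 5) (nat_lit 7) (nat_lit 292) (nat_lit 289) r8_292 r1_289 (nat_lit 0) (nat_lit 0) (nat_lit 0) (nat_lit 0x7de85cdc4a) (nat_lit 1027028808)]
noncomputable def e19_40 : List Rx := [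
  Rx.mk (nat_lit 73) (nat_lit 1) (nat_lit 1) (nat_lit 1) (nat_lit 7) (nat_lit 294) (nat_lit 330) r8_294 r7_330 (nat_lit 0) (nat_lit 0) (nat_lit 0) (nat_lit 0x7de241de00) (nat_lit 1038735360),
  Rx.mk (nat_lit 105) (nat_lit 1) (nat_lit 5) (nat_lit 1) (nat_lit 7) (nat_lit 295) (nat_lit 329) r8_295 r7_329 (nat_lit 0) (nat_lit 0) (nat_lit 0) (nat_lit 0x7dafdd447c) (nat_lit 1135358640),
  Rx.mk (nat_lit 361) (nat_lit 1) (nat_lit 5) (nat_lit 5) (nat_lit 7) (nat_lit 296) (nat_lit 328) r8_296 r7_328 (nat_lit 0) (nat_lit 0) (nat_lit 0) (nat_lit 0x7dd57faa30) (nat_lit 1063198656),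
  Rx.mk (nat_lit 365) (nat_lit 5) (nat_lit 5) (nat_lit 5) (nat_lit 7) (nat_lit 297) (nat_lit 327) r8_297 r7_327 (nat_lit 0) (nat_lit 0) (nat_lit 0) (nat_lit 0x7de90d7140) (nat_lit 1025706240)]
noncomputable def e19_41 : List Rx := [
  Rx.mk (nat_lit 72) (nat_lit 0) (nat_lit 1) (nat_lit 1) (nat_lit 6) (nat_lit 286) (nat_lit 290) r8_286 r1_290 (nat_lit 0) (nat_lit 0) (nat_lit 0) (nat_lit 0x7d689cd8ca) (nat_lit 1271976264),
  Rx.mk (nat_lit 73) (nat_lit 1) (nat_lit 1) (nat_lit 1) (nat_lit 7) (nat_lit 287) (nat_lit 291) r8_287 r1_291 (nat_lit 0) (nat_lit 0) (nat_lit 0) (nat_lit 0x7de70451d4) (nat_lit 1029609360),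
  Rx.mk (nat_lit 75) (nat_lit 3) (nat_lit 1) (nat_lit 1) (nat_lit 7) (nat_lit 288) (nat_lit 292) r8_288 r1_292 (nat_lit 0) (nat_lit 0) (nat_lit 0) (nat_lit 0x7df1630bde) (nat_lit 1009725912)]
noncomputable def e19_42 : List Rx := [
  Rx.mk (nat_lit 64) (nat_lit 0) (nat_lit 0) (nat_lit 1) (nat_lit 4) (nat_lit 260) (nat_lit 316) r8_260 r2_316 (nat_lit 0) (nat_lit 0) (nat_lit 0) (nat_lit 0x6d72596cf8) (nat_lit 9106961760),
  Rx.mk (nat_lit 67) (nat_lit 3) (nat_lit 0) (nat_lit 1) (nat_lit 5) (nat_lit 261) (nat_lit 319) r8_261 r2_319 (nat_lit 0) (nat_lit 0) (nat_lit 0) (nat_lit 0x7de2ed334a) (nat_lit 1037452104),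
  Rx.mk (nat_lit 72) (nat_lit 0) (nat_lit 1) (nat_lit 1) (nat_lit 6) (nat_lit 262) (nat_lit 317) r8_262 r2_317 (nat_lit 0) (nat_lit 0) (nat_lit 0) (nat_lit 0x7cf90c5242) (nat_lit 1485889704),
  Rx.mk (nat_lit 73) (nat_lit 1) (nat_lit 1) (nat_lit 1) (nat_lit 7) (nat_lit 263) (nat_lit 318) r8_263 r2_318 (nat_lit 0) (nat_lit 0) (nat_lit 0) (nat_lit 0x7db6e7d3cc) (nat_lit 1121857776),
  Rx.mk (nat_lit 75) (nat_lit 3) (nat_lit 1) (nat_lit 1) (nat_lit 7) (nat_lit 264) (nat_lit 320) r8_264 r2_320 (nat_lit 0) (nat_lit 0) (nat_lit 0) (nat_lit 0x7de452dcee) (nat_lit 1034773272),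
  Rx.mk (nat_lit 91) (nat_lit 3) (nat_lit 3) (nat_lit 1) (nat_lit 7) (nat_lit 265) (nat_lit 321) r8_265 r2_321 (nat_lit 0) (nat_lit 0) (nat_lit 0) (nat_lit 0x7df79428c6) (nat_lit 997853688)]
noncomputable def e19_43 : List Rx := [
  Rx.mk (nat_lit 73) (nat_lit 1) (nat_lit 1) (nat_lit 1) (nat_lit 7) (nat_lit 289) (nat_lit 326) r8_289 r7_326 (nat_lit 0) (nat_lit 0) (nat_lit 0) (nat_lit 0x7df343add2) (nat_lit 1006126056)]
noncomputable def e19_44 : List Rx := [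
  Rx.mk (nat_lit 73) (nat_lit 1) (nat_lit 1) (nat_lit 1) (nat_lit 7) (nat_lit 266) (nat_lit 299) r8_266 r8_299 (nat_lit 0) (nat_lit 0) (nat_lit 0) (nat_lit 0x7de011610a) (nat_lit 1042933320)]
noncomputable def e19_45 : List Rx := [
  Rx.mk (nat_lit 0) (nat_lit 0) (nat_lit 0) (nat_lit 0) (nat_lit 0) (nat_lit 267) (nat_lit 267) r8_267 r8_267 (nat_lit 0) (nat_lit 0) (nat_lit 0) (nat_lit 0x35cba1d01c) (nat_lit 36423562032),
  Rx.mk (nat_lit 2) (nat_lit 2) (nat_lit 0) (nat_lit 0) (nat_lit 1) (nat_lit 269) (nat_lit 272) r8_269 r8_272 (nat_lit 0) (nat_lit 0) (nat_lit 0) (nat_lit 0x78cd7eaf48) (nat_lit 3532812192),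
  Rx.mk (nat_lit 3) (nat_lit 3) (nat_lit 0) (nat_lit 0) (nat_lit 1) (nat_lit 272) (nat_lit 269) r8_272 r8_269 (nat_lit 0) (nat_lit 0) (nat_lit 0) (nat_lit 0x78cd7eaf48) (nat_lit 3532812192),
  Rx.mk (nat_lit 8) (nat_lit 0) (nat_lit 1) (nat_lit 0) (nat_lit 2) (nat_lit 274) (nat_lit 268) r8_274 r8_268 (nat_lit 0) (nat_lit 0) (nat_lit 0) (nat_lit 0x686164415c) (nat_lit 11593743408),
  Rx.mk (nat_lit 10) (nat_lit 2) (nat_lit 1) (nat_lit 0) (nat_lit 3) (nat_lit 277) (nat_lit 273) r8_277 r8_273 (nat_lit 0) (nat_lit 0) (nat_lit 0) (nat_lit 0x7d8c7ffa74) (nat_lit 1203166224),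
  Rx.mk (nat_lit 11) (nat_lit 3) (nat_lit 1) (nat_lit 0) (nat_lit 3) (nat_lit 280) (nat_lit 270) r8_280 r8_270 (nat_lit 0) (nat_lit 0) (nat_lit 0) (nat_lit 0x7dc999e898) (nat_lit 1086010848),
  Rx.mk (nat_lit 27) (nat_lit 3) (nat_lit 3) (nat_lit 0) (nat_lit 3) (nat_lit 283) (nat_lit 271) r8_283 r8_271 (nat_lit 0) (nat_lit 0) (nat_lit 0) (nat_lit 0x7dc3dca472) (nat_lit 1097015400),
  Rx.mk (nat_lit 64) (nat_lit 0) (nat_lit 0) (nat_lit 1) (nat_lit 4) (nat_lit 268) (nat_lit 274) r8_268 r8_274 (nat_lit 0) (nat_lit 0) (nat_lit 0) (nat_lit 0x686164415c) (nat_lit 11593743408),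
  Rx.mk (nat_lit 66) (nat_lit 2) (nat_lit 0) (nat_lit 1) (nat_lit 5) (nat_lit 270) (nat_lit 280) r8_270 r8_280 (nat_lit 0) (nat_lit 0) (nat_lit 0) (nat_lit 0x7dc999e898) (nat_lit 1086010848),
  Rx.mk (nat_lit 67) (nat_lit 3) (nat_lit 0) (nat_lit 1) (nat_lit 5) (nat_lit 273) (nat_lit 277) r8_273 r8_277 (nat_lit 0) (nat_lit 0) (nat_lit 0) (nat_lit 0x7d8c7ffa74) (nat_lit 1203166224),
  Rx.mk (nat_lit 72) (nat_lit 0) (nat_lit 1) (nat_lit 1) (nat_lit 6) (nat_lit 275) (nat_lit 275) r8_275 r8_275 (nat_lit 0) (nat_lit 0) (nat_lit 0) (nat_lit 0x7dccfb3280) (nat_lit 1079529984),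
  Rx.mk (nat_lit 73) (nat_lit 1) (nat_lit 1) (nat_lit 1) (nat_lit 7) (nat_lit 276) (nat_lit 276) r8_276 r8_276 (nat_lit 0) (nat_lit 0) (nat_lit 0) (nat_lit 0x7dde0fc126) (nat_lit 1046780280),
  Rx.mk (nat_lit 74) (nat_lit 2) (nat_lit 1) (nat_lit 1) (nat_lit 7) (nat_lit 278) (nat_lit 281) r8_278 r8_281 (nat_lit 0) (nat_lit 0) (nat_lit 0) (nat_lit 0x7dd3d864a6) (nat_lit 1066368888),
  Rx.mk (nat_lit 75) (nat_lit 3) (nat_lit 1) (nat_lit 1) (nat_lit 7) (nat_lit 281) (nat_lit 278) r8_281 r8_278 (nat_lit 0) (nat_lit 0) (nat_lit 0) (nat_lit 0x7dd3d864a6) (nat_lit 1066368888),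
  Rx.mk (nat_lit 91) (nat_lit 3) (nat_lit 3) (nat_lit 1) (nat_lit 7) (nat_lit 284) (nat_lit 279) r8_284 r8_279 (nat_lit 0) (nat_lit 0) (nat_lit 0) (nat_lit 0x7dc4501d3a) (nat_lit 1096150536),
  Rx.mk (nat_lit 130) (nat_lit 2) (nat_lit 0) (nat_lit 2) (nat_lit 5) (nat_lit 271) (nat_lit 283) r8_271 r8_283 (nat_lit 0) (nat_lit 0) (nat_lit 0) (nat_lit 0x7dc3dca472) (nat_lit 1097015400),
  Rx.mk (nat_lit 138) (nat_lit 2) (nat_lit 1) (nat_lit 2) (nat_lit 7) (nat_lit 279) (nat_lit 284) r8_279 r8_284 (nat_lit 0) (nat_lit 0) (nat_lit 0) (nat_lit 0x7dc4501d3a) (nat_lit 1096150536),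
  Rx.mk (nat_lit 146) (nat_lit 2) (nat_lit 2) (nat_lit 2) (nat_lit 7) (nat_lit 282) (nat_lit 285) r8_282 r8_285 (nat_lit 0) (nat_lit 0) (nat_lit 0) (nat_lit 0x7dc62bdf7c) (nat_lit 1092587184),
  Rx.mk (nat_lit 219) (nat_lit 3) (nat_lit 3) (nat_lit 3) (nat_lit 7) (nat_lit 285) (nat_lit 282) r8_285 r8_282 (nat_lit 0) (nat_lit 0) (nat_lit 0) (nat_lit 0x7dc62bdf7c) (nat_lit 1092587184)]
noncomputable def e19_46 : List Rx := [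
  Rx.mk (nat_lit 75) (nat_lit 3) (nat_lit 1) (nat_lit 1) (nat_lit 7) (nat_lit 311) (nat_lit 314) r8_311 r4_314 (nat_lit 0) (nat_lit 0) (nat_lit 0) (nat_lit 0x7dc5e563e4) (nat_lit 1093115088),
  Rx.mk (nat_lit 104) (nat_lit 0) (nat_lit 5) (nat_lit 1) (nat_lit 6) (nat_lit 312) (nat_lit 310) r8_312 r4_310 (nat_lit 0) (nat_lit 0) (nat_lit 0) (nat_lit 0x7bf32fb112) (nat_lit 1987982568),
  Rx.mk (nat_lit 105) (nat_lit 1) (nat_lit 5) (nat_lit 1) (nat_lit 7) (nat_lit 314) (nat_lit 312) r8_314 r4_312 (nat_lit 0) (nat_lit 0) (nat_lit 0) (nat_lit 0x7ddd4f0d32) (nat_lit 1048223592),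
  Rx.mk (nat_lit 107) (nat_lit 3) (nat_lit 5) (nat_lit 1) (nat_lit 7) (nat_lit 316) (nat_lit 313) r8_316 r4_313 (nat_lit 0) (nat_lit 0) (nat_lit 0) (nat_lit 0x7deb594c80) (nat_lit 1021303296),
  Rx.mk (nat_lit 360) (nat_lit 0) (nat_lit 5) (nat_lit 5) (nat_lit 6) (nat_lit 313) (nat_lit 309) r8_313 r4_309 (nat_lit 0) (nat_lit 0) (nat_lit 0) (nat_lit 0x7cf628a080) (nat_lit 1491429888),
  Rx.mk (nat_lit 361) (nat_lit 1) (nat_lit 5) (nat_lit 5) (nat_lit 7) (nat_lit 315) (nat_lit 311) r8_315 r4_311 (nat_lit 0) (nat_lit 0) (nat_lit 0) (nat_lit 0x7de1440dde) (nat_lit 1040636376)]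
noncomputable def e19_47 : List Rx := [
  Rx.mk (nat_lit 105) (nat_lit 1) (nat_lit 5) (nat_lit 1) (nat_lit 7) (nat_lit 305) (nat_lit 307) r8_305 r4_307 (nat_lit 0) (nat_lit 0) (nat_lit 0) (nat_lit 0x7dd68859a4) (nat_lit 1061216208),
  Rx.mk (nat_lit 361) (nat_lit 1) (nat_lit 5) (nat_lit 5) (nat_lit 7) (nat_lit 306) (nat_lit 308) r8_306 r4_308 (nat_lit 0) (nat_lit 0) (nat_lit 0) (nat_lit 0x7de5612c08) (nat_lit 1032748704)]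
noncomputable def e19_48 : List Rx := [
  Rx.mk (nat_lit 105) (nat_lit 1) (nat_lit 5) (nat_lit 1) (nat_lit 7) (nat_lit 317) (nat_lit 332) r8_317 r9_332 (nat_lit 0) (nat_lit 0) (nat_lit 0) (nat_lit 0x7dd84fdd2a) (nat_lit 1057804488),
  Rx.mk (nat_lit 361) (nat_lit 1) (nat_lit 5) (nat_lit 5) (nat_lit 7) (nat_lit 318) (nat_lit 331) r8_318 r9_331 (nat_lit 0) (nat_lit 0) (nat_lit 0) (nat_lit 0x7df4a417ca) (nat_lit 1003486536)]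
noncomputable def e19_49 : List Rx := [
  Rx.mk (nat_lit 105) (nat_lit 1) (nat_lit 5) (nat_lit 1) (nat_lit 7) (nat_lit 327) (nat_lit 350) r8_327 r10_350 (nat_lit 0) (nat_lit 0) (nat_lit 0) (nat_lit 0x7ded710b02) (nat_lit 1017290664)]
noncomputable def e19_50 : List Rx := [
  Rx.mk (nat_lit 75) (nat_lit 3) (nat_lit 1) (nat_lit 1) (nat_lit 7) (nat_lit 319) (nat_lit 345) r8_319 r10_345 (nat_lit 0) (nat_lit 0) (nat_lit 0) (nat_lit 0x7de3095188) (nat_lit 1037241504),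
  Rx.mk (nat_lit 107) (nat_lit 3) (nat_lit 5) (nat_lit 1) (nat_lit 7) (nat_lit 322) (nat_lit 346) r8_322 r10_346 (nat_lit 0) (nat_lit 0) (nat_lit 0) (nat_lit 0x7ddf600c20) (nat_lit 1044261504),
  Rx.mk (nat_lit 360) (nat_lit 0) (nat_lit 5) (nat_lit 5) (nat_lit 6) (nat_lit 320) (nat_lit 347) r8_320 r10_347 (nat_lit 0) (nat_lit 0) (nat_lit 0) (nat_lit 0x7d5d8ae9f4) (nat_lit 1293201936),
  Rx.mk (nat_lit 361) (nat_lit 1) (nat_lit 5) (nat_lit 5) (nat_lit 7) (nat_lit 321) (nat_lit 348) r8_321 r10_348 (nat_lit 0) (nat_lit 0) (nat_lit 0) (nat_lit 0x7de98b6960) (nat_lit 1024762752),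
  Rx.mk (nat_lit 363) (nat_lit 3) (nat_lit 5) (nat_lit 5) (nat_lit 7) (nat_lit 323) (nat_lit 349) r8_323 r10_349 (nat_lit 0) (nat_lit 0) (nat_lit 0) (nat_lit 0x7dd48359f6) (nat_lit 1065088440)]
noncomputable def e19_51 : List Rx := [
  Rx.mk (nat_lit 379) (nat_lit 3) (nat_lit 7) (nat_lit 5) (nat_lit 7) (nat_lit 63) (nat_lit 150) r8_63 r12_150 (nat_lit 0) (nat_lit 0) (nat_lit 0) (nat_lit 0x7df198a884) (nat_lit 1009324368),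
  Rx.mk (nat_lit 383) (nat_lit 7) (nat_lit 7) (nat_lit 5) (nat_lit 7) (nat_lit 64) (nat_lit 151) r8_64 r12_151 (nat_lit 0) (nat_lit 0) (nat_lit 0) (nat_lit 0x7deb738adc) (nat_lit 1021106736)]
noncomputable def e19_52 : List Rx := [
  Rx.mk (nat_lit 123) (nat_lit 3) (nat_lit 7) (nat_lit 1) (nat_lit 7) (nat_lit 18) (nat_lit 123) r8_18 r12_123 (nat_lit 0) (nat_lit 0) (nat_lit 0) (nat_lit 0x7ded19507e) (nat_lit 1017947736)]
noncomputable def e19_53 : List Rx := [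
  Rx.mk (nat_lit 355) (nat_lit 3) (nat_lit 4) (nat_lit 5) (nat_lit 5) (nat_lit 224) (nat_lit 262) r8_224 r12_262 (nat_lit 0) (nat_lit 0) (nat_lit 0) (nat_lit 0x7dae17a0d8) (nat_lit 1138756320),
  Rx.mk (nat_lit 359) (nat_lit 7) (nat_lit 4) (nat_lit 5) (nat_lit 5) (nat_lit 225) (nat_lit 261) r8_225 r12_261 (nat_lit 0) (nat_lit 0) (nat_lit 0) (nat_lit 0x7cb54cae80) (nat_lit 1615790592),
  Rx.mk (nat_lit 363) (nat_lit 3) (nat_lit 5) (nat_lit 5) (nat_lit 7) (nat_lit 226) (nat_lit 264) r8_226 r12_264 (nat_lit 0) (nat_lit 0) (nat_lit 0) (nat_lit 0x7de7338ee0) (nat_lit 1029255552),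
  Rx.mk (nat_lit 367) (nat_lit 7) (nat_lit 5) (nat_lit 5) (nat_lit 7) (nat_lit 227) (nat_lit 263) r8_227 r12_263 (nat_lit 0) (nat_lit 0) (nat_lit 0) (nat_lit 0x7dca3abe8a) (nat_lit 1084806216),
  Rx.mk (nat_lit 379) (nat_lit 3) (nat_lit 7) (nat_lit 5) (nat_lit 7) (nat_lit 228) (nat_lit 265) r8_228 r12_265 (nat_lit 0) (nat_lit 0) (nat_lit 0) (nat_lit 0x7de986e9a8) (nat_lit 1024796448)]
noncomputable def e19_54 : List Rx := [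
  Rx.mk (nat_lit 123) (nat_lit 3) (nat_lit 7) (nat_lit 1) (nat_lit 7) (nat_lit 215) (nat_lit 266) r8_215 r12_266 (nat_lit 0) (nat_lit 0) (nat_lit 0) (nat_lit 0x7df0bb165e) (nat_lit 1010983896)]
noncomputable def e19_55 : List Rx := [
  Rx.mk (nat_lit 104) (nat_lit 0) (nat_lit 5) (nat_lit 1) (nat_lit 6) (nat_lit 300) (nat_lit 291) r8_300 r3_291 (nat_lit 0) (nat_lit 0) (nat_lit 0) (nat_lit 0x6e55c73538) (nat_lit 8670890592),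
  Rx.mk (nat_lit 105) (nat_lit 1) (nat_lit 5) (nat_lit 1) (nat_lit 7) (nat_lit 302) (nat_lit 293) r8_302 r3_293 (nat_lit 0) (nat_lit 0) (nat_lit 0) (nat_lit 0x7a6150509a) (nat_lit 2758531464),
  Rx.mk (nat_lit 107) (nat_lit 3) (nat_lit 5) (nat_lit 1) (nat_lit 7) (nat_lit 304) (nat_lit 294) r8_304 r3_294 (nat_lit 0) (nat_lit 0) (nat_lit 0) (nat_lit 0x7191b1135e) (nat_lit 7083452376),
  Rx.mk (nat_lit 360) (nat_lit 0) (nat_lit 5) (nat_lit 5) (nat_lit 6) (nat_lit 301) (nat_lit 290) r8_301 r3_290 (nat_lit 0) (nat_lit 0) (nat_lit 0) (nat_lit 0x6ab4f44608) (nat_lit 10451814048),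
  Rx.mk (nat_lit 361) (nat_lit 1) (nat_lit 5) (nat_lit 5) (nat_lit 7) (nat_lit 303) (nat_lit 292) r8_303 r3_292 (nat_lit 0) (nat_lit 0) (nat_lit 0) (nat_lit 0x795b231474) (nat_lit 3261228048)]
noncomputable def e19_56 : List Rx := [
  Rx.mk (nat_lit 104) (nat_lit 0) (nat_lit 5) (nat_lit 1) (nat_lit 6) (nat_lit 324) (nat_lit 290) r8_324 r12_290 (nat_lit 0) (nat_lit 0) (nat_lit 0) (nat_lit 0x7cb8761be6) (nat_lit 1609728120),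
  Rx.mk (nat_lit 105) (nat_lit 1) (nat_lit 5) (nat_lit 1) (nat_lit 7) (nat_lit 325) (nat_lit 291) r8_325 r12_291 (nat_lit 0) (nat_lit 0) (nat_lit 0) (nat_lit 0x7de9664bb2) (nat_lit 1025040744),
  Rx.mk (nat_lit 107) (nat_lit 3) (nat_lit 5) (nat_lit 1) (nat_lit 7) (nat_lit 326) (nat_lit 292) r8_326 r12_292 (nat_lit 0) (nat_lit 0) (nat_lit 0) (nat_lit 0x7dda2b3f72) (nat_lit 1054243944)]
noncomputable def e19_57 : List Rx := [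
  Rx.mk (nat_lit 107) (nat_lit 3) (nat_lit 5) (nat_lit 1) (nat_lit 7) (nat_lit 309) (nat_lit 286) r8_309 r12_286 (nat_lit 0) (nat_lit 0) (nat_lit 0) (nat_lit 0x7ddc31bf08) (nat_lit 1050360480),
  Rx.mk (nat_lit 360) (nat_lit 0) (nat_lit 5) (nat_lit 5) (nat_lit 6) (nat_lit 307) (nat_lit 287) r8_307 r12_287 (nat_lit 0) (nat_lit 0) (nat_lit 0) (nat_lit 0x6ec70e6054) (nat_lit 8453691792),
  Rx.mk (nat_lit 361) (nat_lit 1) (nat_lit 5) (nat_lit 5) (nat_lit 7) (nat_lit 308) (nat_lit 288) r8_308 r12_288 (nat_lit 0) (nat_lit 0) (nat_lit 0) (nat_lit 0x7dd07e9a46) (nat_lit 1072793592),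
  Rx.mk (nat_lit 363) (nat_lit 3) (nat_lit 5) (nat_lit 5) (nat_lit 7) (nat_lit 310) (nat_lit 289) r8_310 r12_289 (nat_lit 0) (nat_lit 0) (nat_lit 0) (nat_lit 0x7dbce773cc) (nat_lit 1110356208)]
noncomputable def e19 : List (List Rx) := [e19_0, e19_1, e19_2, e19_3, e19_4, e19_5, e19_6, e19_7, e19_8, e19_9, e19_10, e19_11, e19_12, e19_13, e19_14, e19_15, e19_16, e19_17, e19_18, e19_19, e19_20, e19_21, e19_22, e19_23, e19_24, e19_25, e19_26, e19_27, e19_28, e19_29, e19_30, e19_31, e19_32, e19_33, e19_34, e19_35, e19_36, e19_37, e19_38, e19_39, e19_40, e19_41, e19_42, e19_43, e19_44, e19_45, e19_46, e19_47, e19_48, e19_49, e19_50, e19_51, e19_52, e19_53, e19_54, e19_55, e19_56, e19_57]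
noncomputable def e20_0 : List Rx := [
  Rx.mk (nat_lit 100) (nat_lit 4) (nat_lit 4) (nat_lit 1) (nat_lit 4) (nat_lit 248) (nat_lit 171) r0_248 r0_171 (nat_lit 0) (nat_lit 0) (nat_lit 0) (nat_lit 0x7d82b5b722) (nat_lit 1221937704),
  Rx.mk (nat_lit 108) (nat_lit 4) (nat_lit 5) (nat_lit 1) (nat_lit 6) (nat_lit 249) (nat_lit 172) r0_249 r0_172 (nat_lit 0) (nat_lit 0) (nat_lit 0) (nat_lit 0x79e90615b6) (nat_lit 2989174968)]
noncomputable def e20_1 : List Rx := [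
  Rx.mk (nat_lit 100) (nat_lit 4) (nat_lit 4) (nat_lit 1) (nat_lit 4) (nat_lit 269) (nat_lit 179) r0_269 r1_179 (nat_lit 0) (nat_lit 0) (nat_lit 0) (nat_lit 0x7fe711eefa) (nat_lit 47800584),
  Rx.mk (nat_lit 108) (nat_lit 4) (nat_lit 5) (nat_lit 1) (nat_lit 6) (nat_lit 270) (nat_lit 181) r0_270 r1_181 (nat_lit 0) (nat_lit 0) (nat_lit 0) (nat_lit 0x7a861a03da) (nat_lit 2687994504),
  Rx.mk (nat_lit 356) (nat_lit 4) (nat_lit 4) (nat_lit 5) (nat_lit 4) (nat_lit 265) (nat_lit 180) r0_265 r1_180 (nat_lit 0) (nat_lit 0) (nat_lit 0) (nat_lit 0x5c4ea51962) (nat_lit 17519929128),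
  Rx.mk (nat_lit 364) (nat_lit 4) (nat_lit 5) (nat_lit 5) (nat_lit 6) (nat_lit 266) (nat_lit 182) r0_266 r1_182 (nat_lit 0) (nat_lit 0) (nat_lit 0) (nat_lit 0x77997950d2) (nat_lit 4123410408),
  Rx.mk (nat_lit 372) (nat_lit 4) (nat_lit 6) (nat_lit 5) (nat_lit 6) (nat_lit 267) (nat_lit 183) r0_267 r1_183 (nat_lit 0) (nat_lit 0) (nat_lit 0) (nat_lit 0x7389907370) (nat_lit 6117329088),
  Rx.mk (nat_lit 374) (nat_lit 6) (nat_lit 6) (nat_lit 5) (nat_lit 7) (nat_lit 268) (nat_lit 184) r0_268 r1_184 (nat_lit 0) (nat_lit 0) (nat_lit 0) (nat_lit 0x6ddb0661c0) (nat_lit 8906257152)]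
noncomputable def e20_2 : List Rx := [
  Rx.mk (nat_lit 356) (nat_lit 4) (nat_lit 4) (nat_lit 5) (nat_lit 4) (nat_lit 254) (nat_lit 180) r0_254 r2_180 (nat_lit 0) (nat_lit 0) (nat_lit 0) (nat_lit 0x58ede04910) (nat_lit 19178033472),
  Rx.mk (nat_lit 372) (nat_lit 4) (nat_lit 6) (nat_lit 5) (nat_lit 6) (nat_lit 255) (nat_lit 181) r0_255 r2_181 (nat_lit 0) (nat_lit 0) (nat_lit 0) (nat_lit 0x7c870832f6) (nat_lit 1704503736),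
  Rx.mk (nat_lit 374) (nat_lit 6) (nat_lit 6) (nat_lit 5) (nat_lit 7) (nat_lit 256) (nat_lit 182) r0_256 r2_182 (nat_lit 0) (nat_lit 0) (nat_lit 0) (nat_lit 0x7df272dae0) (nat_lit 1007690112)]
noncomputable def e20_3 : List Rx := [
  Rx.mk (nat_lit 44) (nat_lit 4) (nat_lit 5) (nat_lit 0) (nat_lit 2) (nat_lit 359) (nat_lit 143) r0_359 r3_143 (nat_lit 0) (nat_lit 0) (nat_lit 0) (nat_lit 0x8000000000) (nat_lit 0),
  Rx.mk (nat_lit 47) (nat_lit 7) (nat_lit 5) (nat_lit 0) (nat_lit 3) (nat_lit 300) (nat_lit 146) r0_300 r3_146 (nat_lit 0) (nat_lit 0) (nat_lit 0) (nat_lit 0x8000000000) (nat_lit 0),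
  Rx.mk (nat_lit 100) (nat_lit 4) (nat_lit 4) (nat_lit 1) (nat_lit 4) (nat_lit 301) (nat_lit 142) r0_301 r3_142 (nat_lit 0) (nat_lit 0) (nat_lit 0) (nat_lit 0x7ffd37ac88) (nat_lit 5335200),
  Rx.mk (nat_lit 103) (nat_lit 7) (nat_lit 4) (nat_lit 1) (nat_lit 5) (nat_lit 303) (nat_lit 145) r0_303 r3_145 (nat_lit 0) (nat_lit 0) (nat_lit 0) (nat_lit 0x7da58729e8) (nat_lit 1155177504),
  Rx.mk (nat_lit 108) (nat_lit 4) (nat_lit 5) (nat_lit 1) (nat_lit 6) (nat_lit 302) (nat_lit 144) r0_302 r3_144 (nat_lit 0) (nat_lit 0) (nat_lit 0) (nat_lit 0x7efff78188) (nat_lit 490917024),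
  Rx.mk (nat_lit 111) (nat_lit 7) (nat_lit 5) (nat_lit 1) (nat_lit 7) (nat_lit 304) (nat_lit 147) r0_304 r3_147 (nat_lit 0) (nat_lit 0) (nat_lit 0) (nat_lit 0x7feb704910) (nat_lit 39424320)]
noncomputable def e20_4 : List Rx := [
  Rx.mk (nat_lit 100) (nat_lit 4) (nat_lit 4) (nat_lit 1) (nat_lit 4) (nat_lit 317) (nat_lit 155) r0_317 r4_155 (nat_lit 0) (nat_lit 0) (nat_lit 0) (nat_lit 0x6ef1331dde) (nat_lit 8372885976),
  Rx.mk (nat_lit 103) (nat_lit 7) (nat_lit 4) (nat_lit 1) (nat_lit 5) (nat_lit 319) (nat_lit 157) r0_319 r4_157 (nat_lit 0) (nat_lit 0) (nat_lit 0) (nat_lit 0x76db4494dc) (nat_lit 4488110640),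
  Rx.mk (nat_lit 108) (nat_lit 4) (nat_lit 5) (nat_lit 1) (nat_lit 6) (nat_lit 318) (nat_lit 156) r0_318 r4_156 (nat_lit 0) (nat_lit 0) (nat_lit 0) (nat_lit 0x7d38edd3ea) (nat_lit 1363404744),
  Rx.mk (nat_lit 111) (nat_lit 7) (nat_lit 5) (nat_lit 1) (nat_lit 7) (nat_lit 320) (nat_lit 158) r0_320 r4_158 (nat_lit 0) (nat_lit 0) (nat_lit 0) (nat_lit 0x7ece365dcc) (nat_lit 586316016)]
noncomputable def e20_5 : List Rx := [
  Rx.mk (nat_lit 59) (nat_lit 3) (nat_lit 7) (nat_lit 0) (nat_lit 3) (nat_lit 48) (nat_lit 92) r0_48 r3_92 (nat_lit 0) (nat_lit 0) (nat_lit 0) (nat_lit 0x6dba6c2b84) (nat_lit 8968768848),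
  Rx.mk (nat_lit 231) (nat_lit 7) (nat_lit 4) (nat_lit 3) (nat_lit 5) (nat_lit 49) (nat_lit 90) r0_49 r3_90 (nat_lit 0) (nat_lit 0) (nat_lit 0) (nat_lit 0x7ef7fa0168) (nat_lit 506237472),
  Rx.mk (nat_lit 251) (nat_lit 3) (nat_lit 7) (nat_lit 3) (nat_lit 7) (nat_lit 51) (nat_lit 93) r0_51 r3_93 (nat_lit 0) (nat_lit 0) (nat_lit 0) (nat_lit 0x7b04e536a8) (nat_lit 2444880672),
  Rx.mk (nat_lit 255) (nat_lit 7) (nat_lit 7) (nat_lit 3) (nat_lit 7) (nat_lit 50) (nat_lit 91) r0_50 r3_91 (nat_lit 0) (nat_lit 0) (nat_lit 0) (nat_lit 0x7f3f0caff6) (nat_lit 369962424),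
  Rx.mk (nat_lit 484) (nat_lit 4) (nat_lit 4) (nat_lit 7) (nat_lit 4) (nat_lit 43) (nat_lit 88) r0_43 r3_88 (nat_lit 0) (nat_lit 0) (nat_lit 0) (nat_lit 0x8000000000) (nat_lit 0),
  Rx.mk (nat_lit 487) (nat_lit 7) (nat_lit 4) (nat_lit 7) (nat_lit 5) (nat_lit 46) (nat_lit 89) r0_46 r3_89 (nat_lit 0) (nat_lit 0) (nat_lit 0) (nat_lit 0x8000000000) (nat_lit 0),
  Rx.mk (nat_lit 500) (nat_lit 4) (nat_lit 6) (nat_lit 7) (nat_lit 6) (nat_lit 44) (nat_lit 94) r0_44 r3_94 (nat_lit 0) (nat_lit 0) (nat_lit 0) (nat_lit 0x789f9ccd94) (nat_lit 3620786832),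
  Rx.mk (nat_lit 502) (nat_lit 6) (nat_lit 6) (nat_lit 7) (nat_lit 7) (nat_lit 45) (nat_lit 96) r0_45 r3_96 (nat_lit 0) (nat_lit 0) (nat_lit 0) (nat_lit 0x7aaf35b1f6) (nat_lit 2609173944),
  Rx.mk (nat_lit 503) (nat_lit 7) (nat_lit 6) (nat_lit 7) (nat_lit 7) (nat_lit 47) (nat_lit 95) r0_47 r3_95 (nat_lit 0) (nat_lit 0) (nat_lit 0) (nat_lit 0x7c4bfa640e) (nat_lit 1817733528)]
noncomputable def e20_6 : List Rx := [
  Rx.mk (nat_lit 308) (nat_lit 4) (nat_lit 6) (nat_lit 4) (nat_lit 2) (nat_lit 91) (nat_lit 94) r0_91 r0_94 (nat_lit 0) (nat_lit 0) (nat_lit 0) (nat_lit 0x64497ea3ce) (nat_lit 13602976920),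
  Rx.mk (nat_lit 310) (nat_lit 6) (nat_lit 6) (nat_lit 4) (nat_lit 3) (nat_lit 92) (nat_lit 97) r0_92 r0_97 (nat_lit 0) (nat_lit 0) (nat_lit 0) (nat_lit 0x742628a950) (nat_lit 5817075264),
  Rx.mk (nat_lit 438) (nat_lit 6) (nat_lit 6) (nat_lit 6) (nat_lit 7) (nat_lit 93) (nat_lit 99) r0_93 r0_99 (nat_lit 0) (nat_lit 0) (nat_lit 0) (nat_lit 0x7e09c9c55a) (nat_lit 962939016),
  Rx.mk (nat_lit 484) (nat_lit 4) (nat_lit 4) (nat_lit 7) (nat_lit 4) (nat_lit 94) (nat_lit 91) r0_94 r0_91 (nat_lit 0) (nat_lit 0) (nat_lit 0) (nat_lit 0x64497ea3ce) (nat_lit 13602976920),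
  Rx.mk (nat_lit 487) (nat_lit 7) (nat_lit 4) (nat_lit 7) (nat_lit 5) (nat_lit 97) (nat_lit 92) r0_97 r0_92 (nat_lit 0) (nat_lit 0) (nat_lit 0) (nat_lit 0x742628a950) (nat_lit 5817075264),
  Rx.mk (nat_lit 500) (nat_lit 4) (nat_lit 6) (nat_lit 7) (nat_lit 6) (nat_lit 95) (nat_lit 95) r0_95 r0_95 (nat_lit 0) (nat_lit 0) (nat_lit 0) (nat_lit 0x799825c40c) (nat_lit 3144246768),
  Rx.mk (nat_lit 502) (nat_lit 6) (nat_lit 6) (nat_lit 7) (nat_lit 7) (nat_lit 96) (nat_lit 98) r0_96 r0_98 (nat_lit 0) (nat_lit 0) (nat_lit 0) (nat_lit 0x7db4a9d7ae) (nat_lit 1126156824),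
  Rx.mk (nat_lit 503) (nat_lit 7) (nat_lit 6) (nat_lit 7) (nat_lit 7) (nat_lit 98) (nat_lit 96) r0_98 r0_96 (nat_lit 0) (nat_lit 0) (nat_lit 0) (nat_lit 0x7db4a9d7ae) (nat_lit 1126156824),
  Rx.mk (nat_lit 511) (nat_lit 7) (nat_lit 7) (nat_lit 7) (nat_lit 7) (nat_lit 99) (nat_lit 93) r0_99 r0_93 (nat_lit 0) (nat_lit 0) (nat_lit 0) (nat_lit 0x7e09c9c55a) (nat_lit 962939016)]
noncomputable def e20_7 : List Rx := [
  Rx.mk (nat_lit 292) (nat_lit 4) (nat_lit 4) (nat_lit 4) (nat_lit 0) (nat_lit 111) (nat_lit 94) r0_111 r1_94 (nat_lit 0) (nat_lit 0) (nat_lit 0) (nat_lit 0x7fc651db1c) (nat_lit 110595888),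
  Rx.mk (nat_lit 308) (nat_lit 4) (nat_lit 6) (nat_lit 4) (nat_lit 2) (nat_lit 112) (nat_lit 99) r0_112 r1_99 (nat_lit 0) (nat_lit 0) (nat_lit 0) (nat_lit 0x6fba2ced78) (nat_lit 7987535712),
  Rx.mk (nat_lit 310) (nat_lit 6) (nat_lit 6) (nat_lit 4) (nat_lit 3) (nat_lit 113) (nat_lit 103) r0_113 r1_103 (nat_lit 0) (nat_lit 0) (nat_lit 0) (nat_lit 0x6f612c3ddc) (nat_lit 8158189104),
  Rx.mk (nat_lit 356) (nat_lit 4) (nat_lit 4) (nat_lit 5) (nat_lit 4) (nat_lit 114) (nat_lit 95) r0_114 r1_95 (nat_lit 0) (nat_lit 0) (nat_lit 0) (nat_lit 0x7c02729cd4) (nat_lit 1958720400),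
  Rx.mk (nat_lit 372) (nat_lit 4) (nat_lit 6) (nat_lit 5) (nat_lit 6) (nat_lit 115) (nat_lit 100) r0_115 r1_100 (nat_lit 0) (nat_lit 0) (nat_lit 0) (nat_lit 0x7d6029a006) (nat_lit 1288178424),
  Rx.mk (nat_lit 374) (nat_lit 6) (nat_lit 6) (nat_lit 5) (nat_lit 7) (nat_lit 116) (nat_lit 104) r0_116 r1_104 (nat_lit 0) (nat_lit 0) (nat_lit 0) (nat_lit 0x7daa421e34) (nat_lit 1146107664),
  Rx.mk (nat_lit 438) (nat_lit 6) (nat_lit 6) (nat_lit 6) (nat_lit 7) (nat_lit 117) (nat_lit 106) r0_117 r1_106 (nat_lit 0) (nat_lit 0) (nat_lit 0) (nat_lit 0x7d94a957d6) (nat_lit 1187517240),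
  Rx.mk (nat_lit 484) (nat_lit 4) (nat_lit 4) (nat_lit 7) (nat_lit 4) (nat_lit 118) (nat_lit 96) r0_118 r1_96 (nat_lit 0) (nat_lit 0) (nat_lit 0) (nat_lit 0x76fc4b844c) (nat_lit 4424784624),
  Rx.mk (nat_lit 487) (nat_lit 7) (nat_lit 4) (nat_lit 7) (nat_lit 5) (nat_lit 121) (nat_lit 97) r0_121 r1_97 (nat_lit 0) (nat_lit 0) (nat_lit 0) (nat_lit 0x7d51e2a484) (nat_lit 1315553616),
  Rx.mk (nat_lit 500) (nat_lit 4) (nat_lit 6) (nat_lit 7) (nat_lit 6) (nat_lit 119) (nat_lit 101) r0_119 r1_101 (nat_lit 0) (nat_lit 0) (nat_lit 0) (nat_lit 0x7ddf4a4d7c) (nat_lit 1044424368),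
  Rx.mk (nat_lit 502) (nat_lit 6) (nat_lit 6) (nat_lit 7) (nat_lit 7) (nat_lit 120) (nat_lit 105) r0_120 r1_105 (nat_lit 0) (nat_lit 0) (nat_lit 0) (nat_lit 0x7dd7b446e4) (nat_lit 1058969808),
  Rx.mk (nat_lit 503) (nat_lit 7) (nat_lit 6) (nat_lit 7) (nat_lit 7) (nat_lit 122) (nat_lit 102) r0_122 r1_102 (nat_lit 0) (nat_lit 0) (nat_lit 0) (nat_lit 0x7df6bc3646) (nat_lit 999471096),
  Rx.mk (nat_lit 511) (nat_lit 7) (nat_lit 7) (nat_lit 7) (nat_lit 7) (nat_lit 123) (nat_lit 98) r0_123 r1_98 (nat_lit 0) (nat_lit 0) (nat_lit 0) (nat_lit 0x7dd1bc8666) (nat_lit 1070412408)]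
noncomputable def e20_8 : List Rx := [
  Rx.mk (nat_lit 484) (nat_lit 4) (nat_lit 4) (nat_lit 7) (nat_lit 4) (nat_lit 142) (nat_lit 93) r0_142 r4_93 (nat_lit 0) (nat_lit 0) (nat_lit 0) (nat_lit 0x71b7297bb2) (nat_lit 7011606888),
  Rx.mk (nat_lit 487) (nat_lit 7) (nat_lit 4) (nat_lit 7) (nat_lit 5) (nat_lit 145) (nat_lit 94) r0_145 r4_94 (nat_lit 0) (nat_lit 0) (nat_lit 0) (nat_lit 0x7bb2a1ba32) (nat_lit 2111759208),
  Rx.mk (nat_lit 500) (nat_lit 4) (nat_lit 6) (nat_lit 7) (nat_lit 6) (nat_lit 143) (nat_lit 95) r0_143 r4_95 (nat_lit 0) (nat_lit 0) (nat_lit 0) (nat_lit 0x7ac67fdd3c) (nat_lit 2564518320),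
  Rx.mk (nat_lit 502) (nat_lit 6) (nat_lit 6) (nat_lit 7) (nat_lit 7) (nat_lit 144) (nat_lit 97) r0_144 r4_97 (nat_lit 0) (nat_lit 0) (nat_lit 0) (nat_lit 0x7d94351f1a) (nat_lit 1188387720),
  Rx.mk (nat_lit 503) (nat_lit 7) (nat_lit 6) (nat_lit 7) (nat_lit 7) (nat_lit 146) (nat_lit 96) r0_146 r4_96 (nat_lit 0) (nat_lit 0) (nat_lit 0) (nat_lit 0x7e2f4f4cdc) (nat_lit 890995248)]
noncomputable def e20_9 : List Rx := [
  Rx.mk (nat_lit 39) (nat_lit 7) (nat_lit 4) (nat_lit 0) (nat_lit 1) (nat_lit 228) (nat_lit 173) r0_228 r5_173 (nat_lit 0) (nat_lit 0) (nat_lit 0) (nat_lit 0x746fc68f28) (nat_lit 5675922720),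
  Rx.mk (nat_lit 47) (nat_lit 7) (nat_lit 5) (nat_lit 0) (nat_lit 3) (nat_lit 229) (nat_lit 175) r0_229 r5_175 (nat_lit 0) (nat_lit 0) (nat_lit 0) (nat_lit 0x7f864e9b90) (nat_lit 233333568),
  Rx.mk (nat_lit 59) (nat_lit 3) (nat_lit 7) (nat_lit 0) (nat_lit 3) (nat_lit 231) (nat_lit 170) r0_231 r5_170 (nat_lit 0) (nat_lit 0) (nat_lit 0) (nat_lit 0x7b678c2bd6) (nat_lit 2255725368),
  Rx.mk (nat_lit 63) (nat_lit 7) (nat_lit 7) (nat_lit 0) (nat_lit 3) (nat_lit 230) (nat_lit 177) r0_230 r5_177 (nat_lit 0) (nat_lit 0) (nat_lit 0) (nat_lit 0x7d3f0c91f8) (nat_lit 1351670112),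
  Rx.mk (nat_lit 228) (nat_lit 4) (nat_lit 4) (nat_lit 3) (nat_lit 4) (nat_lit 232) (nat_lit 171) r0_232 r5_171 (nat_lit 0) (nat_lit 0) (nat_lit 0) (nat_lit 0x75597c52e2) (nat_lit 5227808040),
  Rx.mk (nat_lit 231) (nat_lit 7) (nat_lit 4) (nat_lit 3) (nat_lit 5) (nat_lit 234) (nat_lit 174) r0_234 r5_174 (nat_lit 0) (nat_lit 0) (nat_lit 0) (nat_lit 0x7ee77f2926) (nat_lit 537835896),
  Rx.mk (nat_lit 236) (nat_lit 4) (nat_lit 5) (nat_lit 3) (nat_lit 6) (nat_lit 233) (nat_lit 172) r0_233 r5_172 (nat_lit 0) (nat_lit 0) (nat_lit 0) (nat_lit 0x7fa8fdf078) (nat_lit 166828896),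
  Rx.mk (nat_lit 239) (nat_lit 7) (nat_lit 5) (nat_lit 3) (nat_lit 7) (nat_lit 235) (nat_lit 176) r0_235 r5_176 (nat_lit 0) (nat_lit 0) (nat_lit 0) (nat_lit 0x7f62ec71d6) (nat_lit 301177656)]
noncomputable def e20_10 : List Rx := [
  Rx.mk (nat_lit 45) (nat_lit 5) (nat_lit 5) (nat_lit 0) (nat_lit 3) (nat_lit 243) (nat_lit 243) r0_243 r0_243 (nat_lit 0) (nat_lit 0) (nat_lit 0) (nat_lit 0x7feec413d0) (nat_lit 33044544),
  Rx.mk (nat_lit 100) (nat_lit 4) (nat_lit 4) (nat_lit 1) (nat_lit 4) (nat_lit 244) (nat_lit 244) r0_244 r0_244 (nat_lit 0) (nat_lit 0) (nat_lit 0) (nat_lit 0x563db2ae9a) (nat_lit 20497543560),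
  Rx.mk (nat_lit 101) (nat_lit 5) (nat_lit 4) (nat_lit 1) (nat_lit 5) (nat_lit 246) (nat_lit 245) r0_246 r0_245 (nat_lit 0) (nat_lit 0) (nat_lit 0) (nat_lit 0x72ec042cd2) (nat_lit 6419410920),
  Rx.mk (nat_lit 108) (nat_lit 4) (nat_lit 5) (nat_lit 1) (nat_lit 6) (nat_lit 245) (nat_lit 246) r0_245 r0_246 (nat_lit 0) (nat_lit 0) (nat_lit 0) (nat_lit 0x72ec042cd2) (nat_lit 6419410920),
  Rx.mk (nat_lit 109) (nat_lit 5) (nat_lit 5) (nat_lit 1) (nat_lit 7) (nat_lit 247) (nat_lit 247) r0_247 r0_247 (nat_lit 0) (nat_lit 0) (nat_lit 0) (nat_lit 0x7d475fecba) (nat_lit 1335706632)]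
noncomputable def e20_11 : List Rx := [
  Rx.mk (nat_lit 100) (nat_lit 4) (nat_lit 4) (nat_lit 1) (nat_lit 4) (nat_lit 250) (nat_lit 217) r0_250 r6_217 (nat_lit 0) (nat_lit 0) (nat_lit 0) (nat_lit 0x69df6adf74) (nat_lit 10861248528),
  Rx.mk (nat_lit 101) (nat_lit 5) (nat_lit 4) (nat_lit 1) (nat_lit 5) (nat_lit 252) (nat_lit 219) r0_252 r6_219 (nat_lit 0) (nat_lit 0) (nat_lit 0) (nat_lit 0x7bc64bff7a) (nat_lit 2074053384),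
  Rx.mk (nat_lit 108) (nat_lit 4) (nat_lit 5) (nat_lit 1) (nat_lit 6) (nat_lit 251) (nat_lit 218) r0_251 r6_218 (nat_lit 0) (nat_lit 0) (nat_lit 0) (nat_lit 0x7da3d1a542) (nat_lit 1158454440),
  Rx.mk (nat_lit 109) (nat_lit 5) (nat_lit 5) (nat_lit 1) (nat_lit 7) (nat_lit 253) (nat_lit 220) r0_253 r6_220 (nat_lit 0) (nat_lit 0) (nat_lit 0) (nat_lit 0x7e1cb5968a) (nat_lit 926659656)]
noncomputable def e20_12 : List Rx := [
  Rx.mk (nat_lit 45) (nat_lit 5) (nat_lit 5) (nat_lit 0) (nat_lit 3) (nat_lit 282) (nat_lit 252) r0_282 r1_252 (nat_lit 0) (nat_lit 0) (nat_lit 0) (nat_lit 0x7ff9bf840e) (nat_lit 11987352),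
  Rx.mk (nat_lit 101) (nat_lit 5) (nat_lit 4) (nat_lit 1) (nat_lit 5) (nat_lit 283) (nat_lit 253) r0_283 r1_253 (nat_lit 0) (nat_lit 0) (nat_lit 0) (nat_lit 0x7925b2abb0) (nat_lit 3363691968),
  Rx.mk (nat_lit 109) (nat_lit 5) (nat_lit 5) (nat_lit 1) (nat_lit 7) (nat_lit 284) (nat_lit 254) r0_284 r1_254 (nat_lit 0) (nat_lit 0) (nat_lit 0) (nat_lit 0x7bdf3f502c) (nat_lit 2026213488)]
noncomputable def e20_13 : List Rx := [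
  Rx.mk (nat_lit 101) (nat_lit 5) (nat_lit 4) (nat_lit 1) (nat_lit 5) (nat_lit 289) (nat_lit 178) r0_289 r7_178 (nat_lit 0) (nat_lit 0) (nat_lit 0) (nat_lit 0x7b30873c5c) (nat_lit 2361219120),
  Rx.mk (nat_lit 109) (nat_lit 5) (nat_lit 5) (nat_lit 1) (nat_lit 7) (nat_lit 290) (nat_lit 179) r0_290 r7_179 (nat_lit 0) (nat_lit 0) (nat_lit 0) (nat_lit 0x7df79428c6) (nat_lit 997853688)]
noncomputable def e20_14 : List Rx := [
  Rx.mk (nat_lit 100) (nat_lit 4) (nat_lit 4) (nat_lit 1) (nat_lit 4) (nat_lit 278) (nat_lit 237) r0_278 r7_237 (nat_lit 0) (nat_lit 0) (nat_lit 0) (nat_lit 0x5c996eec7a) (nat_lit 17376530184),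
  Rx.mk (nat_lit 101) (nat_lit 5) (nat_lit 4) (nat_lit 1) (nat_lit 5) (nat_lit 280) (nat_lit 238) r0_280 r7_238 (nat_lit 0) (nat_lit 0) (nat_lit 0) (nat_lit 0x7d503ebec4) (nat_lit 1318698576),
  Rx.mk (nat_lit 108) (nat_lit 4) (nat_lit 5) (nat_lit 1) (nat_lit 6) (nat_lit 279) (nat_lit 239) r0_279 r7_239 (nat_lit 0) (nat_lit 0) (nat_lit 0) (nat_lit 0x7c51f5245c) (nat_lit 1806268464),
  Rx.mk (nat_lit 109) (nat_lit 5) (nat_lit 5) (nat_lit 1) (nat_lit 7) (nat_lit 281) (nat_lit 240) r0_281 r7_240 (nat_lit 0) (nat_lit 0) (nat_lit 0) (nat_lit 0x7df400a202) (nat_lit 1004710824),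
  Rx.mk (nat_lit 356) (nat_lit 4) (nat_lit 4) (nat_lit 5) (nat_lit 4) (nat_lit 271) (nat_lit 230) r0_271 r7_230 (nat_lit 0) (nat_lit 0) (nat_lit 0) (nat_lit 0x52675b77e4) (nat_lit 22381079760),
  Rx.mk (nat_lit 357) (nat_lit 5) (nat_lit 4) (nat_lit 5) (nat_lit 5) (nat_lit 274) (nat_lit 231) r0_274 r7_231 (nat_lit 0) (nat_lit 0) (nat_lit 0) (nat_lit 0x7a2fb2caa4) (nat_lit 2853663696),
  Rx.mk (nat_lit 364) (nat_lit 4) (nat_lit 5) (nat_lit 5) (nat_lit 6) (nat_lit 272) (nat_lit 232) r0_272 r7_232 (nat_lit 0) (nat_lit 0) (nat_lit 0) (nat_lit 0x77e11e9636) (nat_lit 3986037432),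
  Rx.mk (nat_lit 365) (nat_lit 5) (nat_lit 5) (nat_lit 5) (nat_lit 7) (nat_lit 275) (nat_lit 233) r0_275 r7_233 (nat_lit 0) (nat_lit 0) (nat_lit 0) (nat_lit 0x7d51c5c652) (nat_lit 1315769832),
  Rx.mk (nat_lit 372) (nat_lit 4) (nat_lit 6) (nat_lit 5) (nat_lit 6) (nat_lit 273) (nat_lit 234) r0_273 r7_234 (nat_lit 0) (nat_lit 0) (nat_lit 0) (nat_lit 0x7d448d19ea) (nat_lit 1341120456),
  Rx.mk (nat_lit 373) (nat_lit 5) (nat_lit 6) (nat_lit 5) (nat_lit 7) (nat_lit 276) (nat_lit 235) r0_276 r7_235 (nat_lit 0) (nat_lit 0) (nat_lit 0) (nat_lit 0x7df2301f0c) (nat_lit 1008189936),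
  Rx.mk (nat_lit 374) (nat_lit 6) (nat_lit 6) (nat_lit 5) (nat_lit 7) (nat_lit 277) (nat_lit 236) r0_277 r7_236 (nat_lit 0) (nat_lit 0) (nat_lit 0) (nat_lit 0x7df55c2c48) (nat_lit 1002107808)]
noncomputable def e20_15 : List Rx := [
  Rx.mk (nat_lit 356) (nat_lit 4) (nat_lit 4) (nat_lit 5) (nat_lit 4) (nat_lit 257) (nat_lit 155) r0_257 r8_155 (nat_lit 0) (nat_lit 0) (nat_lit 0) (nat_lit 0x5d0382aad4) (nat_lit 17173138320),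
  Rx.mk (nat_lit 357) (nat_lit 5) (nat_lit 4) (nat_lit 5) (nat_lit 5) (nat_lit 259) (nat_lit 157) r0_259 r8_157 (nat_lit 0) (nat_lit 0) (nat_lit 0) (nat_lit 0x7c68fe73b0) (nat_lit 1762098624),
  Rx.mk (nat_lit 372) (nat_lit 4) (nat_lit 6) (nat_lit 5) (nat_lit 6) (nat_lit 258) (nat_lit 156) r0_258 r8_156 (nat_lit 0) (nat_lit 0) (nat_lit 0) (nat_lit 0x7d665dbcbe) (nat_lit 1276283736),
  Rx.mk (nat_lit 373) (nat_lit 5) (nat_lit 6) (nat_lit 5) (nat_lit 7) (nat_lit 260) (nat_lit 158) r0_260 r8_158 (nat_lit 0) (nat_lit 0) (nat_lit 0) (nat_lit 0x7de755acbe) (nat_lit 1029000024),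
  Rx.mk (nat_lit 374) (nat_lit 6) (nat_lit 6) (nat_lit 5) (nat_lit 7) (nat_lit 261) (nat_lit 159) r0_261 r8_159 (nat_lit 0) (nat_lit 0) (nat_lit 0) (nat_lit 0x7df3be4628) (nat_lit 1005207840)]
noncomputable def e20_16 : List Rx := [
  Rx.mk (nat_lit 44) (nat_lit 4) (nat_lit 5) (nat_lit 0) (nat_lit 2) (nat_lit 305) (nat_lit 253) r0_305 r4_253 (nat_lit 0) (nat_lit 0) (nat_lit 0) (nat_lit 0x72ea26eaa8) (nat_lit 6422985504),
  Rx.mk (nat_lit 45) (nat_lit 5) (nat_lit 5) (nat_lit 0) (nat_lit 3) (nat_lit 306) (nat_lit 254) r0_306 r4_254 (nat_lit 0) (nat_lit 0) (nat_lit 0) (nat_lit 0x765dc16d8c) (nat_lit 4728767472),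
  Rx.mk (nat_lit 47) (nat_lit 7) (nat_lit 5) (nat_lit 0) (nat_lit 3) (nat_lit 307) (nat_lit 255) r0_307 r4_255 (nat_lit 0) (nat_lit 0) (nat_lit 0) (nat_lit 0x7e1c8ad936) (nat_lit 926979768),
  Rx.mk (nat_lit 100) (nat_lit 4) (nat_lit 4) (nat_lit 1) (nat_lit 4) (nat_lit 308) (nat_lit 256) r0_308 r4_256 (nat_lit 0) (nat_lit 0) (nat_lit 0) (nat_lit 0x6d9ecf456e) (nat_lit 9021713688),
  Rx.mk (nat_lit 101) (nat_lit 5) (nat_lit 4) (nat_lit 1) (nat_lit 5) (nat_lit 310) (nat_lit 257) r0_310 r4_257 (nat_lit 0) (nat_lit 0) (nat_lit 0) (nat_lit 0x7da9e10446) (nat_lit 1146834936),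
  Rx.mk (nat_lit 103) (nat_lit 7) (nat_lit 4) (nat_lit 1) (nat_lit 5) (nat_lit 312) (nat_lit 258) r0_312 r4_258 (nat_lit 0) (nat_lit 0) (nat_lit 0) (nat_lit 0x76d4fe194a) (nat_lit 4500142920),
  Rx.mk (nat_lit 108) (nat_lit 4) (nat_lit 5) (nat_lit 1) (nat_lit 6) (nat_lit 309) (nat_lit 259) r0_309 r4_259 (nat_lit 0) (nat_lit 0) (nat_lit 0) (nat_lit 0x7d715ecca2) (nat_lit 1255184424),
  Rx.mk (nat_lit 109) (nat_lit 5) (nat_lit 5) (nat_lit 1) (nat_lit 7) (nat_lit 311) (nat_lit 260) r0_311 r4_260 (nat_lit 0) (nat_lit 0) (nat_lit 0) (nat_lit 0x7e65ac46d6) (nat_lit 786759480),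
  Rx.mk (nat_lit 111) (nat_lit 7) (nat_lit 5) (nat_lit 1) (nat_lit 7) (nat_lit 313) (nat_lit 261) r0_313 r4_261 (nat_lit 0) (nat_lit 0) (nat_lit 0) (nat_lit 0x7e5d9fc7a6) (nat_lit 802192248)]
noncomputable def e20_17 : List Rx := [
  Rx.mk (nat_lit 100) (nat_lit 4) (nat_lit 4) (nat_lit 1) (nat_lit 4) (nat_lit 321) (nat_lit 166) r0_321 r9_166 (nat_lit 0) (nat_lit 0) (nat_lit 0) (nat_lit 0x6fbd3d3c70) (nat_lit 7981661376),
  Rx.mk (nat_lit 101) (nat_lit 5) (nat_lit 4) (nat_lit 1) (nat_lit 5) (nat_lit 323) (nat_lit 168) r0_323 r9_168 (nat_lit 0) (nat_lit 0) (nat_lit 0) (nat_lit 0x7d7df942ee) (nat_lit 1231018776),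
  Rx.mk (nat_lit 103) (nat_lit 7) (nat_lit 4) (nat_lit 1) (nat_lit 5) (nat_lit 325) (nat_lit 170) r0_325 r9_170 (nat_lit 0) (nat_lit 0) (nat_lit 0) (nat_lit 0x7a4fc4e962) (nat_lit 2792171304),
  Rx.mk (nat_lit 108) (nat_lit 4) (nat_lit 5) (nat_lit 1) (nat_lit 6) (nat_lit 322) (nat_lit 167) r0_322 r9_167 (nat_lit 0) (nat_lit 0) (nat_lit 0) (nat_lit 0x7d8ed7d4f4) (nat_lit 1198673424),
  Rx.mk (nat_lit 109) (nat_lit 5) (nat_lit 5) (nat_lit 1) (nat_lit 7) (nat_lit 324) (nat_lit 169) r0_324 r9_169 (nat_lit 0) (nat_lit 0) (nat_lit 0) (nat_lit 0x7e0faa474c) (nat_lit 951670512),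
  Rx.mk (nat_lit 111) (nat_lit 7) (nat_lit 5) (nat_lit 1) (nat_lit 7) (nat_lit 326) (nat_lit 171) r0_326 r9_171 (nat_lit 0) (nat_lit 0) (nat_lit 0) (nat_lit 0x7e1ddac436) (nat_lit 924463800)]
noncomputable def e20_18 : List Rx := [
  Rx.mk (nat_lit 36) (nat_lit 4) (nat_lit 4) (nat_lit 0) (nat_lit 0) (nat_lit 341) (nat_lit 165) r0_341 r10_165 (nat_lit 0) (nat_lit 0) (nat_lit 0) (nat_lit 0x2d7a01d26e) (nat_lit 40506896664),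
  Rx.mk (nat_lit 37) (nat_lit 5) (nat_lit 4) (nat_lit 0) (nat_lit 1) (nat_lit 343) (nat_lit 171) r0_343 r10_171 (nat_lit 0) (nat_lit 0) (nat_lit 0) (nat_lit 0x79a5a2ac30) (nat_lit 3118385088),
  Rx.mk (nat_lit 39) (nat_lit 7) (nat_lit 4) (nat_lit 0) (nat_lit 1) (nat_lit 345) (nat_lit 177) r0_345 r10_177 (nat_lit 0) (nat_lit 0) (nat_lit 0) (nat_lit 0x7b95ea25c8) (nat_lit 2166821280),
  Rx.mk (nat_lit 44) (nat_lit 4) (nat_lit 5) (nat_lit 0) (nat_lit 2) (nat_lit 342) (nat_lit 168) r0_342 r10_168 (nat_lit 0) (nat_lit 0) (nat_lit 0) (nat_lit 0x7aa5ac4a96) (nat_lit 2627459640),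
  Rx.mk (nat_lit 45) (nat_lit 5) (nat_lit 5) (nat_lit 0) (nat_lit 3) (nat_lit 344) (nat_lit 174) r0_344 r10_174 (nat_lit 0) (nat_lit 0) (nat_lit 0) (nat_lit 0x7df905d1aa) (nat_lit 995085000),
  Rx.mk (nat_lit 47) (nat_lit 7) (nat_lit 5) (nat_lit 0) (nat_lit 3) (nat_lit 346) (nat_lit 179) r0_346 r10_179 (nat_lit 0) (nat_lit 0) (nat_lit 0) (nat_lit 0x7deff222ee) (nat_lit 1012488984),
  Rx.mk (nat_lit 63) (nat_lit 7) (nat_lit 7) (nat_lit 0) (nat_lit 3) (nat_lit 347) (nat_lit 181) r0_347 r10_181 (nat_lit 0) (nat_lit 0) (nat_lit 0) (nat_lit 0x7dc039bea4) (nat_lit 1103987664),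
  Rx.mk (nat_lit 100) (nat_lit 4) (nat_lit 4) (nat_lit 1) (nat_lit 4) (nat_lit 348) (nat_lit 166) r0_348 r10_166 (nat_lit 0) (nat_lit 0) (nat_lit 0) (nat_lit 0x7a5f28731a) (nat_lit 2762664840),
  Rx.mk (nat_lit 101) (nat_lit 5) (nat_lit 4) (nat_lit 1) (nat_lit 5) (nat_lit 350) (nat_lit 172) r0_350 r10_172 (nat_lit 0) (nat_lit 0) (nat_lit 0) (nat_lit 0x7dd895f8c8) (nat_lit 1057279392),
  Rx.mk (nat_lit 103) (nat_lit 7) (nat_lit 4) (nat_lit 1) (nat_lit 5) (nat_lit 352) (nat_lit 178) r0_352 r10_178 (nat_lit 0) (nat_lit 0) (nat_lit 0) (nat_lit 0x7df5b266e4) (nat_lit 1001461968),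
  Rx.mk (nat_lit 108) (nat_lit 4) (nat_lit 5) (nat_lit 1) (nat_lit 6) (nat_lit 349) (nat_lit 169) r0_349 r10_169 (nat_lit 0) (nat_lit 0) (nat_lit 0) (nat_lit 0x7dda7f3a32) (nat_lit 1053614952),
  Rx.mk (nat_lit 109) (nat_lit 5) (nat_lit 5) (nat_lit 1) (nat_lit 7) (nat_lit 351) (nat_lit 175) r0_351 r10_175 (nat_lit 0) (nat_lit 0) (nat_lit 0) (nat_lit 0x7df9cda52c) (nat_lit 993588336),
  Rx.mk (nat_lit 111) (nat_lit 7) (nat_lit 5) (nat_lit 1) (nat_lit 7) (nat_lit 353) (nat_lit 180) r0_353 r10_180 (nat_lit 0) (nat_lit 0) (nat_lit 0) (nat_lit 0x7dee0dc136) (nat_lit 1016116920),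
  Rx.mk (nat_lit 127) (nat_lit 7) (nat_lit 7) (nat_lit 1) (nat_lit 7) (nat_lit 354) (nat_lit 182) r0_354 r10_182 (nat_lit 0) (nat_lit 0) (nat_lit 0) (nat_lit 0x7df41fc010) (nat_lit 1004477760),
  Rx.mk (nat_lit 228) (nat_lit 4) (nat_lit 4) (nat_lit 3) (nat_lit 4) (nat_lit 355) (nat_lit 167) r0_355 r10_167 (nat_lit 0) (nat_lit 0) (nat_lit 0) (nat_lit 0x7cc600e32c) (nat_lit 1583762544),
  Rx.mk (nat_lit 229) (nat_lit 5) (nat_lit 4) (nat_lit 3) (nat_lit 5) (nat_lit 357) (nat_lit 173) r0_357 r10_173 (nat_lit 0) (nat_lit 0) (nat_lit 0) (nat_lit 0x7e5a0a0106) (nat_lit 809066232),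
  Rx.mk (nat_lit 236) (nat_lit 4) (nat_lit 5) (nat_lit 3) (nat_lit 6) (nat_lit 356) (nat_lit 170) r0_356 r10_170 (nat_lit 0) (nat_lit 0) (nat_lit 0) (nat_lit 0x7df00ea126) (nat_lit 1012275576),
  Rx.mk (nat_lit 237) (nat_lit 5) (nat_lit 5) (nat_lit 3) (nat_lit 7) (nat_lit 358) (nat_lit 176) r0_358 r10_176 (nat_lit 0) (nat_lit 0) (nat_lit 0) (nat_lit 0x7ea0391dce) (nat_lit 674495640)]
noncomputable def e20_19 : List Rx := [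
  Rx.mk (nat_lit 356) (nat_lit 4) (nat_lit 4) (nat_lit 5) (nat_lit 4) (nat_lit 262) (nat_lit 65) r0_262 r8_65 (nat_lit 0) (nat_lit 0) (nat_lit 0) (nat_lit 0x69ec4571be) (nat_lit 10836602712),
  Rx.mk (nat_lit 372) (nat_lit 4) (nat_lit 6) (nat_lit 5) (nat_lit 6) (nat_lit 263) (nat_lit 66) r0_263 r8_66 (nat_lit 0) (nat_lit 0) (nat_lit 0) (nat_lit 0x7d93758b14) (nat_lit 1189822608),
  Rx.mk (nat_lit 374) (nat_lit 6) (nat_lit 6) (nat_lit 5) (nat_lit 7) (nat_lit 264) (nat_lit 67) r0_264 r8_67 (nat_lit 0) (nat_lit 0) (nat_lit 0) (nat_lit 0x7ddc6c3b60) (nat_lit 1049922432)]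
noncomputable def e20_20 : List Rx := [
  Rx.mk (nat_lit 27) (nat_lit 3) (nat_lit 3) (nat_lit 0) (nat_lit 3) (nat_lit 10) (nat_lit 0) r0_10 r0_0 (nat_lit 0) (nat_lit 0) (nat_lit 0) (nat_lit 0x5a57b84a26) (nat_lit 18484235640),
  Rx.mk (nat_lit 128) (nat_lit 0) (nat_lit 0) (nat_lit 2) (nat_lit 4) (nat_lit 11) (nat_lit 4) r0_11 r0_4 (nat_lit 0) (nat_lit 0) (nat_lit 0) (nat_lit 0x6d8468cbf0) (nat_lit 9072333504),
  Rx.mk (nat_lit 130) (nat_lit 2) (nat_lit 0) (nat_lit 2) (nat_lit 5) (nat_lit 13) (nat_lit 7) r0_13 r0_7 (nat_lit 0) (nat_lit 0) (nat_lit 0) (nat_lit 0x7777281608) (nat_lit 4189210272),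
  Rx.mk (nat_lit 146) (nat_lit 2) (nat_lit 2) (nat_lit 2) (nat_lit 7) (nat_lit 14) (nat_lit 9) r0_14 r0_9 (nat_lit 0) (nat_lit 0) (nat_lit 0) (nat_lit 0x78a05961ca) (nat_lit 3619374408),
  Rx.mk (nat_lit 152) (nat_lit 0) (nat_lit 3) (nat_lit 2) (nat_lit 6) (nat_lit 12) (nat_lit 5) r0_12 r0_5 (nat_lit 0) (nat_lit 0) (nat_lit 0) (nat_lit 0x664f05495e) (nat_lit 12610674648),
  Rx.mk (nat_lit 154) (nat_lit 2) (nat_lit 3) (nat_lit 2) (nat_lit 7) (nat_lit 15) (nat_lit 8) r0_15 r0_8 (nat_lit 0) (nat_lit 0) (nat_lit 0) (nat_lit 0x7676fb99d0) (nat_lit 4680396864),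
  Rx.mk (nat_lit 155) (nat_lit 3) (nat_lit 3) (nat_lit 2) (nat_lit 7) (nat_lit 16) (nat_lit 6) r0_16 r0_6 (nat_lit 0) (nat_lit 0) (nat_lit 0) (nat_lit 0x7776fb78d2) (nat_lit 4189544424),
  Rx.mk (nat_lit 219) (nat_lit 3) (nat_lit 3) (nat_lit 3) (nat_lit 7) (nat_lit 19) (nat_lit 1) r0_19 r0_1 (nat_lit 0) (nat_lit 0) (nat_lit 0) (nat_lit 0x6c8afca3ac) (nat_lit 9550575216),
  Rx.mk (nat_lit 251) (nat_lit 3) (nat_lit 7) (nat_lit 3) (nat_lit 7) (nat_lit 18) (nat_lit 2) r0_18 r0_2 (nat_lit 0) (nat_lit 0) (nat_lit 0) (nat_lit 0x78399a2e24) (nat_lit 3816380880),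
  Rx.mk (nat_lit 255) (nat_lit 7) (nat_lit 7) (nat_lit 3) (nat_lit 7) (nat_lit 17) (nat_lit 3) r0_17 r0_3 (nat_lit 0) (nat_lit 0) (nat_lit 0) (nat_lit 0x763e65836a) (nat_lit 4788895176),
  Rx.mk (nat_lit 310) (nat_lit 6) (nat_lit 6) (nat_lit 4) (nat_lit 3) (nat_lit 0) (nat_lit 10) r0_0 r0_10 (nat_lit 0) (nat_lit 0) (nat_lit 0) (nat_lit 0x5a57b84a26) (nat_lit 18484235640),
  Rx.mk (nat_lit 402) (nat_lit 2) (nat_lit 2) (nat_lit 6) (nat_lit 7) (nat_lit 3) (nat_lit 17) r0_3 r0_17 (nat_lit 0) (nat_lit 0) (nat_lit 0) (nat_lit 0x763e65836a) (nat_lit 4788895176),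
  Rx.mk (nat_lit 406) (nat_lit 6) (nat_lit 2) (nat_lit 6) (nat_lit 7) (nat_lit 2) (nat_lit 18) r0_2 r0_18 (nat_lit 0) (nat_lit 0) (nat_lit 0) (nat_lit 0x78399a2e24) (nat_lit 3816380880),
  Rx.mk (nat_lit 438) (nat_lit 6) (nat_lit 6) (nat_lit 6) (nat_lit 7) (nat_lit 1) (nat_lit 19) r0_1 r0_19 (nat_lit 0) (nat_lit 0) (nat_lit 0) (nat_lit 0x6c8afca3ac) (nat_lit 9550575216),
  Rx.mk (nat_lit 484) (nat_lit 4) (nat_lit 4) (nat_lit 7) (nat_lit 4) (nat_lit 4) (nat_lit 11) r0_4 r0_11 (nat_lit 0) (nat_lit 0) (nat_lit 0) (nat_lit 0x6d8468cbf0) (nat_lit 9072333504),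
  Rx.mk (nat_lit 487) (nat_lit 7) (nat_lit 4) (nat_lit 7) (nat_lit 5) (nat_lit 7) (nat_lit 13) r0_7 r0_13 (nat_lit 0) (nat_lit 0) (nat_lit 0) (nat_lit 0x7777281608) (nat_lit 4189210272),
  Rx.mk (nat_lit 500) (nat_lit 4) (nat_lit 6) (nat_lit 7) (nat_lit 6) (nat_lit 5) (nat_lit 12) r0_5 r0_12 (nat_lit 0) (nat_lit 0) (nat_lit 0) (nat_lit 0x664f05495e) (nat_lit 12610674648),
  Rx.mk (nat_lit 502) (nat_lit 6) (nat_lit 6) (nat_lit 7) (nat_lit 7) (nat_lit 6) (nat_lit 16) r0_6 r0_16 (nat_lit 0) (nat_lit 0) (nat_lit 0) (nat_lit 0x7776fb78d2) (nat_lit 4189544424),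
  Rx.mk (nat_lit 503) (nat_lit 7) (nat_lit 6) (nat_lit 7) (nat_lit 7) (nat_lit 8) (nat_lit 15) r0_8 r0_15 (nat_lit 0) (nat_lit 0) (nat_lit 0) (nat_lit 0x7676fb99d0) (nat_lit 4680396864),
  Rx.mk (nat_lit 511) (nat_lit 7) (nat_lit 7) (nat_lit 7) (nat_lit 7) (nat_lit 9) (nat_lit 14) r0_9 r0_14 (nat_lit 0) (nat_lit 0) (nat_lit 0) (nat_lit 0x78a05961ca) (nat_lit 3619374408)]
noncomputable def e20_21 : List Rx := [
  Rx.mk (nat_lit 27) (nat_lit 3) (nat_lit 3) (nat_lit 0) (nat_lit 3) (nat_lit 22) (nat_lit 0) r0_22 r1_0 (nat_lit 0) (nat_lit 0) (nat_lit 0) (nat_lit 0x76832bf6be) (nat_lit 4657025880),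
  Rx.mk (nat_lit 128) (nat_lit 0) (nat_lit 0) (nat_lit 2) (nat_lit 4) (nat_lit 23) (nat_lit 2) r0_23 r1_2 (nat_lit 0) (nat_lit 0) (nat_lit 0) (nat_lit 0x6facf0e146) (nat_lit 8012911608),
  Rx.mk (nat_lit 130) (nat_lit 2) (nat_lit 0) (nat_lit 2) (nat_lit 5) (nat_lit 25) (nat_lit 5) r0_25 r1_5 (nat_lit 0) (nat_lit 0) (nat_lit 0) (nat_lit 0x780ee6f982) (nat_lit 3898253736),
  Rx.mk (nat_lit 146) (nat_lit 2) (nat_lit 2) (nat_lit 2) (nat_lit 7) (nat_lit 26) (nat_lit 7) r0_26 r1_7 (nat_lit 0) (nat_lit 0) (nat_lit 0) (nat_lit 0x7c8a811b64) (nat_lit 1697845968),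
  Rx.mk (nat_lit 152) (nat_lit 0) (nat_lit 3) (nat_lit 2) (nat_lit 6) (nat_lit 24) (nat_lit 3) r0_24 r1_3 (nat_lit 0) (nat_lit 0) (nat_lit 0) (nat_lit 0x78202e24fe) (nat_lit 3865124952),
  Rx.mk (nat_lit 154) (nat_lit 2) (nat_lit 3) (nat_lit 2) (nat_lit 7) (nat_lit 27) (nat_lit 6) r0_27 r1_6 (nat_lit 0) (nat_lit 0) (nat_lit 0) (nat_lit 0x7d16a418a8) (nat_lit 1429148448),
  Rx.mk (nat_lit 155) (nat_lit 3) (nat_lit 3) (nat_lit 2) (nat_lit 7) (nat_lit 28) (nat_lit 4) r0_28 r1_4 (nat_lit 0) (nat_lit 0) (nat_lit 0) (nat_lit 0x7efe491c70) (nat_lit 494140608),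
  Rx.mk (nat_lit 219) (nat_lit 3) (nat_lit 3) (nat_lit 3) (nat_lit 7) (nat_lit 29) (nat_lit 1) r0_29 r1_1 (nat_lit 0) (nat_lit 0) (nat_lit 0) (nat_lit 0x75ecc41dd2) (nat_lit 4945413096),
  Rx.mk (nat_lit 402) (nat_lit 2) (nat_lit 2) (nat_lit 6) (nat_lit 7) (nat_lit 21) (nat_lit 8) r0_21 r1_8 (nat_lit 0) (nat_lit 0) (nat_lit 0) (nat_lit 0x7c9e945a1c) (nat_lit 1659353904),
  Rx.mk (nat_lit 406) (nat_lit 6) (nat_lit 2) (nat_lit 6) (nat_lit 7) (nat_lit 20) (nat_lit 9) r0_20 r1_9 (nat_lit 0) (nat_lit 0) (nat_lit 0) (nat_lit 0x7ccb2590dc) (nat_lit 1573900848)]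
noncomputable def e20_22 : List Rx := [
  Rx.mk (nat_lit 27) (nat_lit 3) (nat_lit 3) (nat_lit 0) (nat_lit 3) (nat_lit 58) (nat_lit 0) r0_58 r4_0 (nat_lit 0) (nat_lit 0) (nat_lit 0) (nat_lit 0x6075ec00cc) (nat_lit 15481206000),
  Rx.mk (nat_lit 59) (nat_lit 3) (nat_lit 7) (nat_lit 0) (nat_lit 3) (nat_lit 57) (nat_lit 1) r0_57 r4_1 (nat_lit 0) (nat_lit 0) (nat_lit 0) (nat_lit 0x79050af64c) (nat_lit 3426304752),
  Rx.mk (nat_lit 152) (nat_lit 0) (nat_lit 3) (nat_lit 2) (nat_lit 6) (nat_lit 59) (nat_lit 5) r0_59 r4_5 (nat_lit 0) (nat_lit 0) (nat_lit 0) (nat_lit 0x73827b04ce) (nat_lit 6130911384),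
  Rx.mk (nat_lit 154) (nat_lit 2) (nat_lit 3) (nat_lit 2) (nat_lit 7) (nat_lit 60) (nat_lit 7) r0_60 r4_7 (nat_lit 0) (nat_lit 0) (nat_lit 0) (nat_lit 0x7dd9546ce0) (nat_lit 1055852928),
  Rx.mk (nat_lit 155) (nat_lit 3) (nat_lit 3) (nat_lit 2) (nat_lit 7) (nat_lit 61) (nat_lit 6) r0_61 r4_6 (nat_lit 0) (nat_lit 0) (nat_lit 0) (nat_lit 0x769aeeda78) (nat_lit 4611466080),
  Rx.mk (nat_lit 231) (nat_lit 7) (nat_lit 4) (nat_lit 3) (nat_lit 5) (nat_lit 62) (nat_lit 3) r0_62 r4_3 (nat_lit 0) (nat_lit 0) (nat_lit 0) (nat_lit 0x71ae0a8daa) (nat_lit 7029095112),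
  Rx.mk (nat_lit 251) (nat_lit 3) (nat_lit 7) (nat_lit 3) (nat_lit 7) (nat_lit 64) (nat_lit 2) r0_64 r4_2 (nat_lit 0) (nat_lit 0) (nat_lit 0) (nat_lit 0x7d87d5e51a) (nat_lit 1212109704),
  Rx.mk (nat_lit 255) (nat_lit 7) (nat_lit 7) (nat_lit 3) (nat_lit 7) (nat_lit 63) (nat_lit 4) r0_63 r4_4 (nat_lit 0) (nat_lit 0) (nat_lit 0) (nat_lit 0x7dd8cbf568) (nat_lit 1056875040),
  Rx.mk (nat_lit 484) (nat_lit 4) (nat_lit 4) (nat_lit 7) (nat_lit 4) (nat_lit 52) (nat_lit 8) r0_52 r4_8 (nat_lit 0) (nat_lit 0) (nat_lit 0) (nat_lit 0x5b6197cb24) (nat_lit 17974451664),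
  Rx.mk (nat_lit 487) (nat_lit 7) (nat_lit 4) (nat_lit 7) (nat_lit 5) (nat_lit 55) (nat_lit 10) r0_55 r4_10 (nat_lit 0) (nat_lit 0) (nat_lit 0) (nat_lit 0x76957cf19c) (nat_lit 4621906224),
  Rx.mk (nat_lit 500) (nat_lit 4) (nat_lit 6) (nat_lit 7) (nat_lit 6) (nat_lit 53) (nat_lit 9) r0_53 r4_9 (nat_lit 0) (nat_lit 0) (nat_lit 0) (nat_lit 0x6d58b6a73e) (nat_lit 9156115800),
  Rx.mk (nat_lit 502) (nat_lit 6) (nat_lit 6) (nat_lit 7) (nat_lit 7) (nat_lit 54) (nat_lit 12) r0_54 r4_12 (nat_lit 0) (nat_lit 0) (nat_lit 0) (nat_lit 0x75a4e5dbfe) (nat_lit 5083212888),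
  Rx.mk (nat_lit 503) (nat_lit 7) (nat_lit 6) (nat_lit 7) (nat_lit 7) (nat_lit 56) (nat_lit 11) r0_56 r4_11 (nat_lit 0) (nat_lit 0) (nat_lit 0) (nat_lit 0x7dea5bdc58) (nat_lit 1023201504)]
noncomputable def e20_23 : List Rx := [
  Rx.mk (nat_lit 308) (nat_lit 4) (nat_lit 6) (nat_lit 4) (nat_lit 2) (nat_lit 100) (nat_lit 96) r0_100 r6_96 (nat_lit 0) (nat_lit 0) (nat_lit 0) (nat_lit 0x5b048c5c38) (nat_lit 18152855136),
  Rx.mk (nat_lit 310) (nat_lit 6) (nat_lit 6) (nat_lit 4) (nat_lit 3) (nat_lit 101) (nat_lit 99) r0_101 r6_99 (nat_lit 0) (nat_lit 0) (nat_lit 0) (nat_lit 0x777f139748) (nat_lit 4174024608),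
  Rx.mk (nat_lit 402) (nat_lit 2) (nat_lit 2) (nat_lit 6) (nat_lit 7) (nat_lit 104) (nat_lit 103) r0_104 r6_103 (nat_lit 0) (nat_lit 0) (nat_lit 0) (nat_lit 0x7defce8528) (nat_lit 1012755744),
  Rx.mk (nat_lit 406) (nat_lit 6) (nat_lit 2) (nat_lit 6) (nat_lit 7) (nat_lit 103) (nat_lit 102) r0_103 r6_102 (nat_lit 0) (nat_lit 0) (nat_lit 0) (nat_lit 0x7df18ca944) (nat_lit 1009414224),
  Rx.mk (nat_lit 438) (nat_lit 6) (nat_lit 6) (nat_lit 6) (nat_lit 7) (nat_lit 102) (nat_lit 101) r0_102 r6_101 (nat_lit 0) (nat_lit 0) (nat_lit 0) (nat_lit 0x7cd66efc3a) (nat_lit 1552259592),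
  Rx.mk (nat_lit 484) (nat_lit 4) (nat_lit 4) (nat_lit 7) (nat_lit 4) (nat_lit 105) (nat_lit 93) r0_105 r6_93 (nat_lit 0) (nat_lit 0) (nat_lit 0) (nat_lit 0x66b9ed9a6e) (nat_lit 12405690648),
  Rx.mk (nat_lit 487) (nat_lit 7) (nat_lit 4) (nat_lit 7) (nat_lit 5) (nat_lit 108) (nat_lit 94) r0_108 r6_94 (nat_lit 0) (nat_lit 0) (nat_lit 0) (nat_lit 0x78a031444c) (nat_lit 3619674864),
  Rx.mk (nat_lit 500) (nat_lit 4) (nat_lit 6) (nat_lit 7) (nat_lit 6) (nat_lit 106) (nat_lit 97) r0_106 r6_97 (nat_lit 0) (nat_lit 0) (nat_lit 0) (nat_lit 0x77e3aa8d74) (nat_lit 3981154320),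
  Rx.mk (nat_lit 502) (nat_lit 6) (nat_lit 6) (nat_lit 7) (nat_lit 7) (nat_lit 107) (nat_lit 100) r0_107 r6_100 (nat_lit 0) (nat_lit 0) (nat_lit 0) (nat_lit 0x7e027b5a48) (nat_lit 976948128),
  Rx.mk (nat_lit 503) (nat_lit 7) (nat_lit 6) (nat_lit 7) (nat_lit 7) (nat_lit 109) (nat_lit 98) r0_109 r6_98 (nat_lit 0) (nat_lit 0) (nat_lit 0) (nat_lit 0x7de57b0a6a) (nat_lit 1032554952),
  Rx.mk (nat_lit 511) (nat_lit 7) (nat_lit 7) (nat_lit 7) (nat_lit 7) (nat_lit 110) (nat_lit 95) r0_110 r6_95 (nat_lit 0) (nat_lit 0) (nat_lit 0) (nat_lit 0x7d5af3b36a) (nat_lit 1298169288)]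
noncomputable def e20_24 : List Rx := [
  Rx.mk (nat_lit 402) (nat_lit 2) (nat_lit 2) (nat_lit 6) (nat_lit 7) (nat_lit 140) (nat_lit 77) r0_140 r7_77 (nat_lit 0) (nat_lit 0) (nat_lit 0) (nat_lit 0x7dbbc6c5d8) (nat_lit 1112518368),
  Rx.mk (nat_lit 406) (nat_lit 6) (nat_lit 2) (nat_lit 6) (nat_lit 7) (nat_lit 139) (nat_lit 76) r0_139 r7_76 (nat_lit 0) (nat_lit 0) (nat_lit 0) (nat_lit 0x7dbbc6c5d8) (nat_lit 1112518368)]
noncomputable def e20_25 : List Rx := [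
  Rx.mk (nat_lit 292) (nat_lit 4) (nat_lit 4) (nat_lit 4) (nat_lit 0) (nat_lit 124) (nat_lit 0) r0_124 r7_0 (nat_lit 0) (nat_lit 0) (nat_lit 0) (nat_lit 0x26656fa2a6) (nat_lit 43982313336),
  Rx.mk (nat_lit 308) (nat_lit 4) (nat_lit 6) (nat_lit 4) (nat_lit 2) (nat_lit 125) (nat_lit 1) r0_125 r7_1 (nat_lit 0) (nat_lit 0) (nat_lit 0) (nat_lit 0x5777047844) (nat_lit 19896786000),
  Rx.mk (nat_lit 310) (nat_lit 6) (nat_lit 6) (nat_lit 4) (nat_lit 3) (nat_lit 126) (nat_lit 2) r0_126 r7_2 (nat_lit 0) (nat_lit 0) (nat_lit 0) (nat_lit 0x7aa48cbc90) (nat_lit 2629613376),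
  Rx.mk (nat_lit 356) (nat_lit 4) (nat_lit 4) (nat_lit 5) (nat_lit 4) (nat_lit 127) (nat_lit 3) r0_127 r7_3 (nat_lit 0) (nat_lit 0) (nat_lit 0) (nat_lit 0x6ccff433ee) (nat_lit 9418338072),
  Rx.mk (nat_lit 372) (nat_lit 4) (nat_lit 6) (nat_lit 5) (nat_lit 6) (nat_lit 128) (nat_lit 4) r0_128 r7_4 (nat_lit 0) (nat_lit 0) (nat_lit 0) (nat_lit 0x7d33d4058c) (nat_lit 1373185008),
  Rx.mk (nat_lit 374) (nat_lit 6) (nat_lit 6) (nat_lit 5) (nat_lit 7) (nat_lit 129) (nat_lit 5) r0_129 r7_5 (nat_lit 0) (nat_lit 0) (nat_lit 0) (nat_lit 0x7dee6ffb12) (nat_lit 1015381224),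
  Rx.mk (nat_lit 402) (nat_lit 2) (nat_lit 2) (nat_lit 6) (nat_lit 7) (nat_lit 132) (nat_lit 12) r0_132 r7_12 (nat_lit 0) (nat_lit 0) (nat_lit 0) (nat_lit 0x7df4ed3338) (nat_lit 1002938976),
  Rx.mk (nat_lit 406) (nat_lit 6) (nat_lit 2) (nat_lit 6) (nat_lit 7) (nat_lit 131) (nat_lit 13) r0_131 r7_13 (nat_lit 0) (nat_lit 0) (nat_lit 0) (nat_lit 0x7dcfeb437c) (nat_lit 1073897136),
  Rx.mk (nat_lit 438) (nat_lit 6) (nat_lit 6) (nat_lit 6) (nat_lit 7) (nat_lit 130) (nat_lit 14) r0_130 r7_14 (nat_lit 0) (nat_lit 0) (nat_lit 0) (nat_lit 0x7da85dbc7c) (nat_lit 1149735600),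
  Rx.mk (nat_lit 484) (nat_lit 4) (nat_lit 4) (nat_lit 7) (nat_lit 4) (nat_lit 133) (nat_lit 6) r0_133 r7_6 (nat_lit 0) (nat_lit 0) (nat_lit 0) (nat_lit 0x62b0ff8d58) (nat_lit 14386226400),
  Rx.mk (nat_lit 487) (nat_lit 7) (nat_lit 4) (nat_lit 7) (nat_lit 5) (nat_lit 136) (nat_lit 8) r0_136 r7_8 (nat_lit 0) (nat_lit 0) (nat_lit 0) (nat_lit 0x7c3f4c0f00) (nat_lit 1842048000),
  Rx.mk (nat_lit 500) (nat_lit 4) (nat_lit 6) (nat_lit 7) (nat_lit 6) (nat_lit 134) (nat_lit 7) r0_134 r7_7 (nat_lit 0) (nat_lit 0) (nat_lit 0) (nat_lit 0x7d34a4d87e) (nat_lit 1371620952),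
  Rx.mk (nat_lit 502) (nat_lit 6) (nat_lit 6) (nat_lit 7) (nat_lit 7) (nat_lit 135) (nat_lit 11) r0_135 r7_11 (nat_lit 0) (nat_lit 0) (nat_lit 0) (nat_lit 0x7de50491d2) (nat_lit 1033442280),
  Rx.mk (nat_lit 503) (nat_lit 7) (nat_lit 6) (nat_lit 7) (nat_lit 7) (nat_lit 137) (nat_lit 10) r0_137 r7_10 (nat_lit 0) (nat_lit 0) (nat_lit 0) (nat_lit 0x7df1e163f8) (nat_lit 1008779616),
  Rx.mk (nat_lit 511) (nat_lit 7) (nat_lit 7) (nat_lit 7) (nat_lit 7) (nat_lit 138) (nat_lit 9) r0_138 r7_9 (nat_lit 0) (nat_lit 0) (nat_lit 0) (nat_lit 0x7db74b2d96) (nat_lit 1121113656)]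
noncomputable def e20_26 : List Rx := [
  Rx.mk (nat_lit 484) (nat_lit 4) (nat_lit 4) (nat_lit 7) (nat_lit 4) (nat_lit 147) (nat_lit 77) r0_147 r9_77 (nat_lit 0) (nat_lit 0) (nat_lit 0) (nat_lit 0x6b26bfc8de) (nat_lit 10233624024),
  Rx.mk (nat_lit 487) (nat_lit 7) (nat_lit 4) (nat_lit 7) (nat_lit 5) (nat_lit 150) (nat_lit 78) r0_150 r9_78 (nat_lit 0) (nat_lit 0) (nat_lit 0) (nat_lit 0x78a7e5a8fe) (nat_lit 3604901976),
  Rx.mk (nat_lit 500) (nat_lit 4) (nat_lit 6) (nat_lit 7) (nat_lit 6) (nat_lit 148) (nat_lit 79) r0_148 r9_79 (nat_lit 0) (nat_lit 0) (nat_lit 0) (nat_lit 0x776bc40c54) (nat_lit 4211050896),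
  Rx.mk (nat_lit 502) (nat_lit 6) (nat_lit 6) (nat_lit 7) (nat_lit 7) (nat_lit 149) (nat_lit 81) r0_149 r9_81 (nat_lit 0) (nat_lit 0) (nat_lit 0) (nat_lit 0x7de318b092) (nat_lit 1037126376),
  Rx.mk (nat_lit 503) (nat_lit 7) (nat_lit 6) (nat_lit 7) (nat_lit 7) (nat_lit 151) (nat_lit 80) r0_151 r9_80 (nat_lit 0) (nat_lit 0) (nat_lit 0) (nat_lit 0x7de51cf04c) (nat_lit 1033259760)]
noncomputable def e20_27 : List Rx := [
  Rx.mk (nat_lit 27) (nat_lit 3) (nat_lit 3) (nat_lit 0) (nat_lit 3) (nat_lit 217) (nat_lit 99) r0_217 r10_99 (nat_lit 0) (nat_lit 0) (nat_lit 0) (nat_lit 0x7c2f7ecbe4) (nat_lit 1872346320),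
  Rx.mk (nat_lit 59) (nat_lit 3) (nat_lit 7) (nat_lit 0) (nat_lit 3) (nat_lit 216) (nat_lit 96) r0_216 r10_96 (nat_lit 0) (nat_lit 0) (nat_lit 0) (nat_lit 0x7de857fc98) (nat_lit 1027065312),
  Rx.mk (nat_lit 63) (nat_lit 7) (nat_lit 7) (nat_lit 0) (nat_lit 3) (nat_lit 215) (nat_lit 94) r0_215 r10_94 (nat_lit 0) (nat_lit 0) (nat_lit 0) (nat_lit 0x7d78b51736) (nat_lit 1241116344),
  Rx.mk (nat_lit 155) (nat_lit 3) (nat_lit 3) (nat_lit 2) (nat_lit 7) (nat_lit 218) (nat_lit 100) r0_218 r10_100 (nat_lit 0) (nat_lit 0) (nat_lit 0) (nat_lit 0x7e0bdd0424) (nat_lit 958960080),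
  Rx.mk (nat_lit 228) (nat_lit 4) (nat_lit 4) (nat_lit 3) (nat_lit 4) (nat_lit 219) (nat_lit 92) r0_219 r10_92 (nat_lit 0) (nat_lit 0) (nat_lit 0) (nat_lit 0x4965c57a46) (nat_lit 26801801208),
  Rx.mk (nat_lit 231) (nat_lit 7) (nat_lit 4) (nat_lit 3) (nat_lit 5) (nat_lit 220) (nat_lit 93) r0_220 r10_93 (nat_lit 0) (nat_lit 0) (nat_lit 0) (nat_lit 0x7d5dec63dc) (nat_lit 1292471856),
  Rx.mk (nat_lit 255) (nat_lit 7) (nat_lit 7) (nat_lit 3) (nat_lit 7) (nat_lit 221) (nat_lit 95) r0_221 r10_95 (nat_lit 0) (nat_lit 0) (nat_lit 0) (nat_lit 0x7e428d38ea) (nat_lit 854100936),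
  Rx.mk (nat_lit 484) (nat_lit 4) (nat_lit 4) (nat_lit 7) (nat_lit 4) (nat_lit 212) (nat_lit 91) r0_212 r10_91 (nat_lit 0) (nat_lit 0) (nat_lit 0) (nat_lit 0x41b494b504) (nat_lit 30577519440),
  Rx.mk (nat_lit 500) (nat_lit 4) (nat_lit 6) (nat_lit 7) (nat_lit 6) (nat_lit 213) (nat_lit 97) r0_213 r10_97 (nat_lit 0) (nat_lit 0) (nat_lit 0) (nat_lit 0x78034c9334) (nat_lit 3920501520),
  Rx.mk (nat_lit 502) (nat_lit 6) (nat_lit 6) (nat_lit 7) (nat_lit 7) (nat_lit 214) (nat_lit 98) r0_214 r10_98 (nat_lit 0) (nat_lit 0) (nat_lit 0) (nat_lit 0x7e314d2cfc) (nat_lit 887176368)]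
noncomputable def e20_28 : List Rx := [
  Rx.mk (nat_lit 103) (nat_lit 7) (nat_lit 4) (nat_lit 1) (nat_lit 5) (nat_lit 327) (nat_lit 298) r0_327 r10_298 (nat_lit 0) (nat_lit 0) (nat_lit 0) (nat_lit 0x7e2b75aa7a) (nat_lit 898377480),
  Rx.mk (nat_lit 111) (nat_lit 7) (nat_lit 5) (nat_lit 1) (nat_lit 7) (nat_lit 328) (nat_lit 299) r0_328 r10_299 (nat_lit 0) (nat_lit 0) (nat_lit 0) (nat_lit 0x7df79428c6) (nat_lit 997853688)]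
noncomputable def e20_29 : List Rx := [
  Rx.mk (nat_lit 35) (nat_lit 3) (nat_lit 4) (nat_lit 0) (nat_lit 1) (nat_lit 82) (nat_lit 51) r0_82 r5_51 (nat_lit 0) (nat_lit 0) (nat_lit 0) (nat_lit 0x618a963514) (nat_lit 14950729872),
  Rx.mk (nat_lit 43) (nat_lit 3) (nat_lit 5) (nat_lit 0) (nat_lit 3) (nat_lit 83) (nat_lit 52) r0_83 r5_52 (nat_lit 0) (nat_lit 0) (nat_lit 0) (nat_lit 0x7c10d4f6a0) (nat_lit 1931140224),
  Rx.mk (nat_lit 59) (nat_lit 3) (nat_lit 7) (nat_lit 0) (nat_lit 3) (nat_lit 84) (nat_lit 53) r0_84 r5_53 (nat_lit 0) (nat_lit 0) (nat_lit 0) (nat_lit 0x7ba7d706e8) (nat_lit 2132451360),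
  Rx.mk (nat_lit 227) (nat_lit 3) (nat_lit 4) (nat_lit 3) (nat_lit 5) (nat_lit 87) (nat_lit 54) r0_87 r5_54 (nat_lit 0) (nat_lit 0) (nat_lit 0) (nat_lit 0x7a8f772dfe) (nat_lit 2670040152),
  Rx.mk (nat_lit 231) (nat_lit 7) (nat_lit 4) (nat_lit 3) (nat_lit 5) (nat_lit 85) (nat_lit 49) r0_85 r5_49 (nat_lit 0) (nat_lit 0) (nat_lit 0) (nat_lit 0x7e22c49594) (nat_lit 915042960),
  Rx.mk (nat_lit 235) (nat_lit 3) (nat_lit 5) (nat_lit 3) (nat_lit 7) (nat_lit 88) (nat_lit 55) r0_88 r5_55 (nat_lit 0) (nat_lit 0) (nat_lit 0) (nat_lit 0x7e4a371e44) (nat_lit 839406672),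
  Rx.mk (nat_lit 239) (nat_lit 7) (nat_lit 5) (nat_lit 3) (nat_lit 7) (nat_lit 86) (nat_lit 50) r0_86 r5_50 (nat_lit 0) (nat_lit 0) (nat_lit 0) (nat_lit 0x7f7c66ba18) (nat_lit 252326880)]
noncomputable def e20_30 : List Rx := [
  Rx.mk (nat_lit 487) (nat_lit 7) (nat_lit 4) (nat_lit 7) (nat_lit 5) (nat_lit 152) (nat_lit 0) r0_152 r10_0 (nat_lit 0) (nat_lit 0) (nat_lit 0) (nat_lit 0x7e1794a89e) (nat_lit 936493272),
  Rx.mk (nat_lit 503) (nat_lit 7) (nat_lit 6) (nat_lit 7) (nat_lit 7) (nat_lit 153) (nat_lit 1) r0_153 r10_1 (nat_lit 0) (nat_lit 0) (nat_lit 0) (nat_lit 0x7df4465da6) (nat_lit 1004188536)]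
noncomputable def e20_31 : List Rx := [
  Rx.mk (nat_lit 43) (nat_lit 3) (nat_lit 5) (nat_lit 0) (nat_lit 3) (nat_lit 223) (nat_lit 278) r0_223 r5_278 (nat_lit 0) (nat_lit 0) (nat_lit 0) (nat_lit 0x7c3f149278) (nat_lit 1842463584),
  Rx.mk (nat_lit 47) (nat_lit 7) (nat_lit 5) (nat_lit 0) (nat_lit 3) (nat_lit 222) (nat_lit 279) r0_222 r5_279 (nat_lit 0) (nat_lit 0) (nat_lit 0) (nat_lit 0x7ff5e6a1a0) (nat_lit 19363968)]
noncomputable def e20_32 : List Rx := [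
  Rx.mk (nat_lit 35) (nat_lit 3) (nat_lit 4) (nat_lit 0) (nat_lit 1) (nat_lit 238) (nat_lit 169) r0_238 r11_169 (nat_lit 0) (nat_lit 0) (nat_lit 0) (nat_lit 0x604a433b84) (nat_lit 15564918096),
  Rx.mk (nat_lit 39) (nat_lit 7) (nat_lit 4) (nat_lit 0) (nat_lit 1) (nat_lit 236) (nat_lit 172) r0_236 r11_172 (nat_lit 0) (nat_lit 0) (nat_lit 0) (nat_lit 0x7a6c44a14a) (nat_lit 2737527624),
  Rx.mk (nat_lit 43) (nat_lit 3) (nat_lit 5) (nat_lit 0) (nat_lit 3) (nat_lit 239) (nat_lit 170) r0_239 r11_170 (nat_lit 0) (nat_lit 0) (nat_lit 0) (nat_lit 0x7a40d59866) (nat_lit 2820807288),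
  Rx.mk (nat_lit 47) (nat_lit 7) (nat_lit 5) (nat_lit 0) (nat_lit 3) (nat_lit 237) (nat_lit 174) r0_237 r11_174 (nat_lit 0) (nat_lit 0) (nat_lit 0) (nat_lit 0x7ff1a7c592) (nat_lit 27504360),
  Rx.mk (nat_lit 59) (nat_lit 3) (nat_lit 7) (nat_lit 0) (nat_lit 3) (nat_lit 240) (nat_lit 171) r0_240 r11_171 (nat_lit 0) (nat_lit 0) (nat_lit 0) (nat_lit 0x7407d02ef6) (nat_lit 5875259832),
  Rx.mk (nat_lit 231) (nat_lit 7) (nat_lit 4) (nat_lit 3) (nat_lit 5) (nat_lit 241) (nat_lit 173) r0_241 r11_173 (nat_lit 0) (nat_lit 0) (nat_lit 0) (nat_lit 0x7e8bdea38a) (nat_lit 713521224),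
  Rx.mk (nat_lit 239) (nat_lit 7) (nat_lit 5) (nat_lit 3) (nat_lit 7) (nat_lit 242) (nat_lit 175) r0_242 r11_175 (nat_lit 0) (nat_lit 0) (nat_lit 0) (nat_lit 0x7fcf076fba) (nat_lit 93896712)]
noncomputable def e20_33 : List Rx := [
  Rx.mk (nat_lit 11) (nat_lit 3) (nat_lit 1) (nat_lit 0) (nat_lit 3) (nat_lit 72) (nat_lit 73) r0_72 r0_73 (nat_lit 0) (nat_lit 0) (nat_lit 0) (nat_lit 0x75b2e4dc00) (nat_lit 5056376832),
  Rx.mk (nat_lit 136) (nat_lit 0) (nat_lit 1) (nat_lit 2) (nat_lit 6) (nat_lit 73) (nat_lit 72) r0_73 r0_72 (nat_lit 0) (nat_lit 0) (nat_lit 0) (nat_lit 0x75b2e4dc00) (nat_lit 5056376832),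
  Rx.mk (nat_lit 139) (nat_lit 3) (nat_lit 1) (nat_lit 2) (nat_lit 7) (nat_lit 74) (nat_lit 74) r0_74 r0_74 (nat_lit 0) (nat_lit 0) (nat_lit 0) (nat_lit 0x7dc68519e8) (nat_lit 1091918880)]
noncomputable def e20_34 : List Rx := [
  Rx.mk (nat_lit 40) (nat_lit 0) (nat_lit 5) (nat_lit 0) (nat_lit 2) (nat_lit 171) (nat_lit 248) r0_171 r0_248 (nat_lit 0) (nat_lit 0) (nat_lit 0) (nat_lit 0x7d82b5b722) (nat_lit 1221937704),
  Rx.mk (nat_lit 41) (nat_lit 1) (nat_lit 5) (nat_lit 0) (nat_lit 3) (nat_lit 172) (nat_lit 249) r0_172 r0_249 (nat_lit 0) (nat_lit 0) (nat_lit 0) (nat_lit 0x79e90615b6) (nat_lit 2989174968)]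
noncomputable def e20_35 : List Rx := [
  Rx.mk (nat_lit 8) (nat_lit 0) (nat_lit 1) (nat_lit 0) (nat_lit 2) (nat_lit 178) (nat_lit 57) r0_178 r6_57 (nat_lit 0) (nat_lit 0) (nat_lit 0) (nat_lit 0x6d7c714b70) (nat_lit 9087609024),
  Rx.mk (nat_lit 9) (nat_lit 1) (nat_lit 1) (nat_lit 0) (nat_lit 3) (nat_lit 180) (nat_lit 60) r0_180 r6_60 (nat_lit 0) (nat_lit 0) (nat_lit 0) (nat_lit 0x7d7f2b2fce) (nat_lit 1228727448),
  Rx.mk (nat_lit 11) (nat_lit 3) (nat_lit 1) (nat_lit 0) (nat_lit 3) (nat_lit 181) (nat_lit 62) r0_181 r6_62 (nat_lit 0) (nat_lit 0) (nat_lit 0) (nat_lit 0x7e643c7dd4) (nat_lit 789514128),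
  Rx.mk (nat_lit 40) (nat_lit 0) (nat_lit 5) (nat_lit 0) (nat_lit 2) (nat_lit 177) (nat_lit 56) r0_177 r6_56 (nat_lit 0) (nat_lit 0) (nat_lit 0) (nat_lit 0x6042df11ce) (nat_lit 15579090072),
  Rx.mk (nat_lit 41) (nat_lit 1) (nat_lit 5) (nat_lit 0) (nat_lit 3) (nat_lit 179) (nat_lit 59) r0_179 r6_59 (nat_lit 0) (nat_lit 0) (nat_lit 0) (nat_lit 0x7d961fe06c) (nat_lit 1184712048),
  Rx.mk (nat_lit 136) (nat_lit 0) (nat_lit 1) (nat_lit 2) (nat_lit 6) (nat_lit 182) (nat_lit 58) r0_182 r6_58 (nat_lit 0) (nat_lit 0) (nat_lit 0) (nat_lit 0x7e87fa21d6) (nat_lit 720984888),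
  Rx.mk (nat_lit 137) (nat_lit 1) (nat_lit 1) (nat_lit 2) (nat_lit 7) (nat_lit 183) (nat_lit 61) r0_183 r6_61 (nat_lit 0) (nat_lit 0) (nat_lit 0) (nat_lit 0x7e596ecaba) (nat_lit 810228744),
  Rx.mk (nat_lit 139) (nat_lit 3) (nat_lit 1) (nat_lit 2) (nat_lit 7) (nat_lit 184) (nat_lit 63) r0_184 r6_63 (nat_lit 0) (nat_lit 0) (nat_lit 0) (nat_lit 0x7e6c393e00) (nat_lit 774199296)]
noncomputable def e20_36 : List Rx := [
  Rx.mk (nat_lit 41) (nat_lit 1) (nat_lit 5) (nat_lit 0) (nat_lit 3) (nat_lit 286) (nat_lit 280) r0_286 r2_280 (nat_lit 0) (nat_lit 0) (nat_lit 0) (nat_lit 0x7e0b17707e) (nat_lit 960439896),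
  Rx.mk (nat_lit 45) (nat_lit 5) (nat_lit 5) (nat_lit 0) (nat_lit 3) (nat_lit 285) (nat_lit 281) r0_285 r2_281 (nat_lit 0) (nat_lit 0) (nat_lit 0) (nat_lit 0x7e3ae53372) (nat_lit 868781160),
  Rx.mk (nat_lit 105) (nat_lit 1) (nat_lit 5) (nat_lit 1) (nat_lit 7) (nat_lit 288) (nat_lit 282) r0_288 r2_282 (nat_lit 0) (nat_lit 0) (nat_lit 0) (nat_lit 0x7de13f8e26) (nat_lit 1040670072),
  Rx.mk (nat_lit 109) (nat_lit 5) (nat_lit 5) (nat_lit 1) (nat_lit 7) (nat_lit 287) (nat_lit 283) r0_287 r2_283 (nat_lit 0) (nat_lit 0) (nat_lit 0) (nat_lit 0x7de4b8169a) (nat_lit 1034015112)]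
noncomputable def e20_37 : List Rx := [
  Rx.mk (nat_lit 9) (nat_lit 1) (nat_lit 1) (nat_lit 0) (nat_lit 3) (nat_lit 295) (nat_lit 250) r0_295 r8_250 (nat_lit 0) (nat_lit 0) (nat_lit 0) (nat_lit 0x7d3d9e48de) (nat_lit 1354413528),
  Rx.mk (nat_lit 41) (nat_lit 1) (nat_lit 5) (nat_lit 0) (nat_lit 3) (nat_lit 294) (nat_lit 253) r0_294 r8_253 (nat_lit 0) (nat_lit 0) (nat_lit 0) (nat_lit 0x7d40db9506) (nat_lit 1348202232),
  Rx.mk (nat_lit 45) (nat_lit 5) (nat_lit 5) (nat_lit 0) (nat_lit 3) (nat_lit 293) (nat_lit 254) r0_293 r8_254 (nat_lit 0) (nat_lit 0) (nat_lit 0) (nat_lit 0x7c454cceee) (nat_lit 1830538008),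
  Rx.mk (nat_lit 73) (nat_lit 1) (nat_lit 1) (nat_lit 1) (nat_lit 7) (nat_lit 298) (nat_lit 251) r0_298 r8_251 (nat_lit 0) (nat_lit 0) (nat_lit 0) (nat_lit 0x7df79428c6) (nat_lit 997853688),
  Rx.mk (nat_lit 105) (nat_lit 1) (nat_lit 5) (nat_lit 1) (nat_lit 7) (nat_lit 297) (nat_lit 255) r0_297 r8_255 (nat_lit 0) (nat_lit 0) (nat_lit 0) (nat_lit 0x7de02cbf54) (nat_lit 1042728336),
  Rx.mk (nat_lit 109) (nat_lit 5) (nat_lit 5) (nat_lit 1) (nat_lit 7) (nat_lit 296) (nat_lit 256) r0_296 r8_256 (nat_lit 0) (nat_lit 0) (nat_lit 0) (nat_lit 0x7df79428c6) (nat_lit 997853688),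
  Rx.mk (nat_lit 137) (nat_lit 1) (nat_lit 1) (nat_lit 2) (nat_lit 7) (nat_lit 299) (nat_lit 252) r0_299 r8_252 (nat_lit 0) (nat_lit 0) (nat_lit 0) (nat_lit 0x7dea449dcc) (nat_lit 1023375600)]
noncomputable def e20_38 : List Rx := [
  Rx.mk (nat_lit 105) (nat_lit 1) (nat_lit 5) (nat_lit 1) (nat_lit 7) (nat_lit 292) (nat_lit 249) r0_292 r8_249 (nat_lit 0) (nat_lit 0) (nat_lit 0) (nat_lit 0x7ddc669bba) (nat_lit 1049964552),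
  Rx.mk (nat_lit 109) (nat_lit 5) (nat_lit 5) (nat_lit 1) (nat_lit 7) (nat_lit 291) (nat_lit 248) r0_291 r8_248 (nat_lit 0) (nat_lit 0) (nat_lit 0) (nat_lit 0x7df24f9d14) (nat_lit 1007954064)]
noncomputable def e20_39 : List Rx := [
  Rx.mk (nat_lit 41) (nat_lit 1) (nat_lit 5) (nat_lit 0) (nat_lit 3) (nat_lit 173) (nat_lit 255) r0_173 r1_255 (nat_lit 0) (nat_lit 0) (nat_lit 0) (nat_lit 0x7da5614c46) (nat_lit 1155461112)]
noncomputable def e20_40 : List Rx := [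
  Rx.mk (nat_lit 9) (nat_lit 1) (nat_lit 1) (nat_lit 0) (nat_lit 3) (nat_lit 186) (nat_lit 64) r0_186 r7_64 (nat_lit 0) (nat_lit 0) (nat_lit 0) (nat_lit 0x7db1ff225c) (nat_lit 1131270192),
  Rx.mk (nat_lit 41) (nat_lit 1) (nat_lit 5) (nat_lit 0) (nat_lit 3) (nat_lit 185) (nat_lit 63) r0_185 r7_63 (nat_lit 0) (nat_lit 0) (nat_lit 0) (nat_lit 0x7e2fea232e) (nat_lit 889835544),
  Rx.mk (nat_lit 137) (nat_lit 1) (nat_lit 1) (nat_lit 2) (nat_lit 7) (nat_lit 187) (nat_lit 65) r0_187 r7_65 (nat_lit 0) (nat_lit 0) (nat_lit 0) (nat_lit 0x7dec1700a4) (nat_lit 1019882448)]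
noncomputable def e20_41 : List Rx := [
  Rx.mk (nat_lit 11) (nat_lit 3) (nat_lit 1) (nat_lit 0) (nat_lit 3) (nat_lit 75) (nat_lit 70) r0_75 r1_70 (nat_lit 0) (nat_lit 0) (nat_lit 0) (nat_lit 0x7de3d424da) (nat_lit 1035722376),
  Rx.mk (nat_lit 136) (nat_lit 0) (nat_lit 1) (nat_lit 2) (nat_lit 6) (nat_lit 76) (nat_lit 69) r0_76 r1_69 (nat_lit 0) (nat_lit 0) (nat_lit 0) (nat_lit 0x7d345c1d0a) (nat_lit 1372165704),
  Rx.mk (nat_lit 138) (nat_lit 2) (nat_lit 1) (nat_lit 2) (nat_lit 7) (nat_lit 77) (nat_lit 72) r0_77 r1_72 (nat_lit 0) (nat_lit 0) (nat_lit 0) (nat_lit 0x7d7df4633c) (nat_lit 1231055280),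
  Rx.mk (nat_lit 139) (nat_lit 3) (nat_lit 1) (nat_lit 2) (nat_lit 7) (nat_lit 78) (nat_lit 71) r0_78 r1_71 (nat_lit 0) (nat_lit 0) (nat_lit 0) (nat_lit 0x7ea4197fc4) (nat_lit 667062864)]
noncomputable def e20_42 : List Rx := [
  Rx.mk (nat_lit 3) (nat_lit 3) (nat_lit 0) (nat_lit 0) (nat_lit 1) (nat_lit 31) (nat_lit 64) r0_31 r2_64 (nat_lit 0) (nat_lit 0) (nat_lit 0) (nat_lit 0x6b355bdf0e) (nat_lit 10205611416),
  Rx.mk (nat_lit 11) (nat_lit 3) (nat_lit 1) (nat_lit 0) (nat_lit 3) (nat_lit 32) (nat_lit 65) r0_32 r2_65 (nat_lit 0) (nat_lit 0) (nat_lit 0) (nat_lit 0x7e4b276f3e) (nat_lit 837606744),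
  Rx.mk (nat_lit 27) (nat_lit 3) (nat_lit 3) (nat_lit 0) (nat_lit 3) (nat_lit 33) (nat_lit 66) r0_33 r2_66 (nat_lit 0) (nat_lit 0) (nat_lit 0) (nat_lit 0x7dc39c287a) (nat_lit 1097498376),
  Rx.mk (nat_lit 128) (nat_lit 0) (nat_lit 0) (nat_lit 2) (nat_lit 4) (nat_lit 34) (nat_lit 62) r0_34 r2_62 (nat_lit 0) (nat_lit 0) (nat_lit 0) (nat_lit 0x66c500a932) (nat_lit 12384456552),
  Rx.mk (nat_lit 130) (nat_lit 2) (nat_lit 0) (nat_lit 2) (nat_lit 5) (nat_lit 36) (nat_lit 72) r0_36 r2_72 (nat_lit 0) (nat_lit 0) (nat_lit 0) (nat_lit 0x7dce709b28) (nat_lit 1076733216),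
  Rx.mk (nat_lit 131) (nat_lit 3) (nat_lit 0) (nat_lit 2) (nat_lit 5) (nat_lit 39) (nat_lit 68) r0_39 r2_68 (nat_lit 0) (nat_lit 0) (nat_lit 0) (nat_lit 0x7e5ff6223e) (nat_lit 797710680),
  Rx.mk (nat_lit 136) (nat_lit 0) (nat_lit 1) (nat_lit 2) (nat_lit 6) (nat_lit 35) (nat_lit 63) r0_35 r2_63 (nat_lit 0) (nat_lit 0) (nat_lit 0) (nat_lit 0x7ddc9338f0) (nat_lit 1049630400),
  Rx.mk (nat_lit 138) (nat_lit 2) (nat_lit 1) (nat_lit 2) (nat_lit 7) (nat_lit 37) (nat_lit 73) r0_37 r2_73 (nat_lit 0) (nat_lit 0) (nat_lit 0) (nat_lit 0x7df79428c6) (nat_lit 997853688),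
  Rx.mk (nat_lit 139) (nat_lit 3) (nat_lit 1) (nat_lit 2) (nat_lit 7) (nat_lit 40) (nat_lit 69) r0_40 r2_69 (nat_lit 0) (nat_lit 0) (nat_lit 0) (nat_lit 0x7e8b2b6ebe) (nat_lit 714863448),
  Rx.mk (nat_lit 146) (nat_lit 2) (nat_lit 2) (nat_lit 2) (nat_lit 7) (nat_lit 38) (nat_lit 74) r0_38 r2_74 (nat_lit 0) (nat_lit 0) (nat_lit 0) (nat_lit 0x7ded8609b2) (nat_lit 1017133416),
  Rx.mk (nat_lit 155) (nat_lit 3) (nat_lit 3) (nat_lit 2) (nat_lit 7) (nat_lit 41) (nat_lit 70) r0_41 r2_70 (nat_lit 0) (nat_lit 0) (nat_lit 0) (nat_lit 0x7e6254bc52) (nat_lit 793167336),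
  Rx.mk (nat_lit 219) (nat_lit 3) (nat_lit 3) (nat_lit 3) (nat_lit 7) (nat_lit 42) (nat_lit 67) r0_42 r2_67 (nat_lit 0) (nat_lit 0) (nat_lit 0) (nat_lit 0x7ddddb446e) (nat_lit 1047173400),
  Rx.mk (nat_lit 402) (nat_lit 2) (nat_lit 2) (nat_lit 6) (nat_lit 7) (nat_lit 30) (nat_lit 71) r0_30 r2_71 (nat_lit 0) (nat_lit 0) (nat_lit 0) (nat_lit 0x7df6905904) (nat_lit 999799632)]
noncomputable def e20_43 : List Rx := [
  Rx.mk (nat_lit 8) (nat_lit 0) (nat_lit 1) (nat_lit 0) (nat_lit 2) (nat_lit 188) (nat_lit 241) r0_188 r7_241 (nat_lit 0) (nat_lit 0) (nat_lit 0) (nat_lit 0x6c14ae090c) (nat_lit 9777416688),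
  Rx.mk (nat_lit 9) (nat_lit 1) (nat_lit 1) (nat_lit 0) (nat_lit 3) (nat_lit 189) (nat_lit 242) r0_189 r7_242 (nat_lit 0) (nat_lit 0) (nat_lit 0) (nat_lit 0x7d632fcfa0) (nat_lit 1282379904),
  Rx.mk (nat_lit 11) (nat_lit 3) (nat_lit 1) (nat_lit 0) (nat_lit 3) (nat_lit 190) (nat_lit 243) r0_190 r7_243 (nat_lit 0) (nat_lit 0) (nat_lit 0) (nat_lit 0x7e4de063ac) (nat_lit 832386672),
  Rx.mk (nat_lit 136) (nat_lit 0) (nat_lit 1) (nat_lit 2) (nat_lit 6) (nat_lit 191) (nat_lit 244) r0_191 r7_244 (nat_lit 0) (nat_lit 0) (nat_lit 0) (nat_lit 0x7dd6cb7572) (nat_lit 1060713576),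
  Rx.mk (nat_lit 137) (nat_lit 1) (nat_lit 1) (nat_lit 2) (nat_lit 7) (nat_lit 192) (nat_lit 245) r0_192 r7_245 (nat_lit 0) (nat_lit 0) (nat_lit 0) (nat_lit 0x7df79428c6) (nat_lit 997853688),
  Rx.mk (nat_lit 138) (nat_lit 2) (nat_lit 1) (nat_lit 2) (nat_lit 7) (nat_lit 193) (nat_lit 247) r0_193 r7_247 (nat_lit 0) (nat_lit 0) (nat_lit 0) (nat_lit 0x7de7422df6) (nat_lit 1029146040),
  Rx.mk (nat_lit 139) (nat_lit 3) (nat_lit 1) (nat_lit 2) (nat_lit 7) (nat_lit 194) (nat_lit 246) r0_194 r7_246 (nat_lit 0) (nat_lit 0) (nat_lit 0) (nat_lit 0x7de0607c18) (nat_lit 1042340832)]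
noncomputable def e20_44 : List Rx := [
  Rx.mk (nat_lit 0) (nat_lit 0) (nat_lit 0) (nat_lit 0) (nat_lit 0) (nat_lit 155) (nat_lit 23) r0_155 r8_23 (nat_lit 0) (nat_lit 0) (nat_lit 0) (nat_lit 0x2380ce4fa0) (nat_lit 45402394752),
  Rx.mk (nat_lit 3) (nat_lit 3) (nat_lit 0) (nat_lit 0) (nat_lit 1) (nat_lit 158) (nat_lit 29) r0_158 r8_29 (nat_lit 0) (nat_lit 0) (nat_lit 0) (nat_lit 0x6bb29a6aa8) (nat_lit 9965468448),
  Rx.mk (nat_lit 8) (nat_lit 0) (nat_lit 1) (nat_lit 0) (nat_lit 2) (nat_lit 156) (nat_lit 24) r0_156 r8_24 (nat_lit 0) (nat_lit 0) (nat_lit 0) (nat_lit 0x68034003fe) (nat_lit 11774250072),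
  Rx.mk (nat_lit 9) (nat_lit 1) (nat_lit 1) (nat_lit 0) (nat_lit 3) (nat_lit 157) (nat_lit 27) r0_157 r8_27 (nat_lit 0) (nat_lit 0) (nat_lit 0) (nat_lit 0x7dafa1a836) (nat_lit 1135805112),
  Rx.mk (nat_lit 11) (nat_lit 3) (nat_lit 1) (nat_lit 0) (nat_lit 3) (nat_lit 159) (nat_lit 30) r0_159 r8_30 (nat_lit 0) (nat_lit 0) (nat_lit 0) (nat_lit 0x7dd4e773b4) (nat_lit 1064338704),
  Rx.mk (nat_lit 27) (nat_lit 3) (nat_lit 3) (nat_lit 0) (nat_lit 3) (nat_lit 160) (nat_lit 31) r0_160 r8_31 (nat_lit 0) (nat_lit 0) (nat_lit 0) (nat_lit 0x7d2f99a936) (nat_lit 1381291704),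
  Rx.mk (nat_lit 128) (nat_lit 0) (nat_lit 0) (nat_lit 2) (nat_lit 4) (nat_lit 161) (nat_lit 25) r0_161 r8_25 (nat_lit 0) (nat_lit 0) (nat_lit 0) (nat_lit 0x6eebb9b57a) (nat_lit 8383382280),
  Rx.mk (nat_lit 130) (nat_lit 2) (nat_lit 0) (nat_lit 2) (nat_lit 5) (nat_lit 164) (nat_lit 37) r0_164 r8_37 (nat_lit 0) (nat_lit 0) (nat_lit 0) (nat_lit 0x7d6504125a) (nat_lit 1278872712),
  Rx.mk (nat_lit 131) (nat_lit 3) (nat_lit 0) (nat_lit 2) (nat_lit 5) (nat_lit 167) (nat_lit 33) r0_167 r8_33 (nat_lit 0) (nat_lit 0) (nat_lit 0) (nat_lit 0x7db254fcfe) (nat_lit 1130627160),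
  Rx.mk (nat_lit 136) (nat_lit 0) (nat_lit 1) (nat_lit 2) (nat_lit 6) (nat_lit 162) (nat_lit 26) r0_162 r8_26 (nat_lit 0) (nat_lit 0) (nat_lit 0) (nat_lit 0x7dd9e10416) (nat_lit 1054799928),
  Rx.mk (nat_lit 137) (nat_lit 1) (nat_lit 1) (nat_lit 2) (nat_lit 7) (nat_lit 163) (nat_lit 28) r0_163 r8_28 (nat_lit 0) (nat_lit 0) (nat_lit 0) (nat_lit 0x7df8ad5732) (nat_lit 995747688),
  Rx.mk (nat_lit 138) (nat_lit 2) (nat_lit 1) (nat_lit 2) (nat_lit 7) (nat_lit 165) (nat_lit 38) r0_165 r8_38 (nat_lit 0) (nat_lit 0) (nat_lit 0) (nat_lit 0x7df299187c) (nat_lit 1007403696),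
  Rx.mk (nat_lit 139) (nat_lit 3) (nat_lit 1) (nat_lit 2) (nat_lit 7) (nat_lit 168) (nat_lit 34) r0_168 r8_34 (nat_lit 0) (nat_lit 0) (nat_lit 0) (nat_lit 0x7df1b4c6c2) (nat_lit 1009113768),
  Rx.mk (nat_lit 146) (nat_lit 2) (nat_lit 2) (nat_lit 2) (nat_lit 7) (nat_lit 166) (nat_lit 39) r0_166 r8_39 (nat_lit 0) (nat_lit 0) (nat_lit 0) (nat_lit 0x7dde5a5c7c) (nat_lit 1046221488),
  Rx.mk (nat_lit 155) (nat_lit 3) (nat_lit 3) (nat_lit 2) (nat_lit 7) (nat_lit 169) (nat_lit 35) r0_169 r8_35 (nat_lit 0) (nat_lit 0) (nat_lit 0) (nat_lit 0x7df06cbb44) (nat_lit 1011570768),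
  Rx.mk (nat_lit 219) (nat_lit 3) (nat_lit 3) (nat_lit 3) (nat_lit 7) (nat_lit 170) (nat_lit 32) r0_170 r8_32 (nat_lit 0) (nat_lit 0) (nat_lit 0) (nat_lit 0x7d8f316f5a) (nat_lit 1198002312),
  Rx.mk (nat_lit 402) (nat_lit 2) (nat_lit 2) (nat_lit 6) (nat_lit 7) (nat_lit 154) (nat_lit 36) r0_154 r8_36 (nat_lit 0) (nat_lit 0) (nat_lit 0) (nat_lit 0x7df79428c6) (nat_lit 997853688)]
noncomputable def e20_45 : List Rx := [
  Rx.mk (nat_lit 402) (nat_lit 2) (nat_lit 2) (nat_lit 6) (nat_lit 7) (nat_lit 141) (nat_lit 0) r0_141 r8_0 (nat_lit 0) (nat_lit 0) (nat_lit 0) (nat_lit 0x7dde1b0072) (nat_lit 1046696040)]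
noncomputable def e20_46 : List Rx := [
  Rx.mk (nat_lit 11) (nat_lit 3) (nat_lit 1) (nat_lit 0) (nat_lit 3) (nat_lit 80) (nat_lit 69) r0_80 r4_69 (nat_lit 0) (nat_lit 0) (nat_lit 0) (nat_lit 0x7933197536) (nat_lit 3337995960),
  Rx.mk (nat_lit 43) (nat_lit 3) (nat_lit 5) (nat_lit 0) (nat_lit 3) (nat_lit 79) (nat_lit 68) r0_79 r4_68 (nat_lit 0) (nat_lit 0) (nat_lit 0) (nat_lit 0x6338dbcf0c) (nat_lit 14125728240),
  Rx.mk (nat_lit 139) (nat_lit 3) (nat_lit 1) (nat_lit 2) (nat_lit 7) (nat_lit 81) (nat_lit 70) r0_81 r4_70 (nat_lit 0) (nat_lit 0) (nat_lit 0) (nat_lit 0x7e7f2fee82) (nat_lit 737838504)]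
noncomputable def e20_47 : List Rx := [
  Rx.mk (nat_lit 40) (nat_lit 0) (nat_lit 5) (nat_lit 0) (nat_lit 2) (nat_lit 174) (nat_lit 262) r0_174 r4_262 (nat_lit 0) (nat_lit 0) (nat_lit 0) (nat_lit 0x67e873f0da) (nat_lit 11825630856),
  Rx.mk (nat_lit 41) (nat_lit 1) (nat_lit 5) (nat_lit 0) (nat_lit 3) (nat_lit 175) (nat_lit 263) r0_175 r4_263 (nat_lit 0) (nat_lit 0) (nat_lit 0) (nat_lit 0x7e1f5bcc24) (nat_lit 921579984),
  Rx.mk (nat_lit 43) (nat_lit 3) (nat_lit 5) (nat_lit 0) (nat_lit 3) (nat_lit 176) (nat_lit 264) r0_176 r4_264 (nat_lit 0) (nat_lit 0) (nat_lit 0) (nat_lit 0x75d49f6036) (nat_lit 4991705784)]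
noncomputable def e20_48 : List Rx := [
  Rx.mk (nat_lit 11) (nat_lit 3) (nat_lit 1) (nat_lit 0) (nat_lit 3) (nat_lit 198) (nat_lit 47) r0_198 r9_47 (nat_lit 0) (nat_lit 0) (nat_lit 0) (nat_lit 0x7ccb9f693e) (nat_lit 1572988248),
  Rx.mk (nat_lit 40) (nat_lit 0) (nat_lit 5) (nat_lit 0) (nat_lit 2) (nat_lit 195) (nat_lit 44) r0_195 r9_44 (nat_lit 0) (nat_lit 0) (nat_lit 0) (nat_lit 0x604e485b2e) (nat_lit 15557210136),
  Rx.mk (nat_lit 41) (nat_lit 1) (nat_lit 5) (nat_lit 0) (nat_lit 3) (nat_lit 196) (nat_lit 45) r0_196 r9_45 (nat_lit 0) (nat_lit 0) (nat_lit 0) (nat_lit 0x7d6198a914) (nat_lit 1285429392),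
  Rx.mk (nat_lit 43) (nat_lit 3) (nat_lit 5) (nat_lit 0) (nat_lit 3) (nat_lit 197) (nat_lit 46) r0_197 r9_46 (nat_lit 0) (nat_lit 0) (nat_lit 0) (nat_lit 0x7e0e1fdff4) (nat_lit 954624528),
  Rx.mk (nat_lit 139) (nat_lit 3) (nat_lit 1) (nat_lit 2) (nat_lit 7) (nat_lit 199) (nat_lit 48) r0_199 r9_48 (nat_lit 0) (nat_lit 0) (nat_lit 0) (nat_lit 0x7e3eef92c8) (nat_lit 861033888)]
noncomputable def e20_49 : List Rx := [
  Rx.mk (nat_lit 40) (nat_lit 0) (nat_lit 5) (nat_lit 0) (nat_lit 2) (nat_lit 200) (nat_lit 37) r0_200 r10_37 (nat_lit 0) (nat_lit 0) (nat_lit 0) (nat_lit 0x76da66a2bc) (nat_lit 4489772976),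
  Rx.mk (nat_lit 41) (nat_lit 1) (nat_lit 5) (nat_lit 0) (nat_lit 3) (nat_lit 201) (nat_lit 38) r0_201 r10_38 (nat_lit 0) (nat_lit 0) (nat_lit 0) (nat_lit 0x7e09e4c3aa) (nat_lit 962736840),
  Rx.mk (nat_lit 43) (nat_lit 3) (nat_lit 5) (nat_lit 0) (nat_lit 3) (nat_lit 202) (nat_lit 39) r0_202 r10_39 (nat_lit 0) (nat_lit 0) (nat_lit 0) (nat_lit 0x7e49f042b2) (nat_lit 839937384),
  Rx.mk (nat_lit 235) (nat_lit 3) (nat_lit 5) (nat_lit 3) (nat_lit 7) (nat_lit 203) (nat_lit 40) r0_203 r10_40 (nat_lit 0) (nat_lit 0) (nat_lit 0) (nat_lit 0x7e9eee1280) (nat_lit 676975104)]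
noncomputable def e20_50 : List Rx := [
  Rx.mk (nat_lit 11) (nat_lit 3) (nat_lit 1) (nat_lit 0) (nat_lit 3) (nat_lit 226) (nat_lit 300) r0_226 r10_300 (nat_lit 0) (nat_lit 0) (nat_lit 0) (nat_lit 0x7dddc22600) (nat_lit 1047361536),
  Rx.mk (nat_lit 43) (nat_lit 3) (nat_lit 5) (nat_lit 0) (nat_lit 3) (nat_lit 225) (nat_lit 302) r0_225 r10_302 (nat_lit 0) (nat_lit 0) (nat_lit 0) (nat_lit 0x7c7d384ffe) (nat_lit 1723317336),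
  Rx.mk (nat_lit 139) (nat_lit 3) (nat_lit 1) (nat_lit 2) (nat_lit 7) (nat_lit 227) (nat_lit 301) r0_227 r10_301 (nat_lit 0) (nat_lit 0) (nat_lit 0) (nat_lit 0x7e9ab5f606) (nat_lit 685064952)]
noncomputable def e20_51 : List Rx := [
  Rx.mk (nat_lit 36) (nat_lit 4) (nat_lit 4) (nat_lit 0) (nat_lit 0) (nat_lit 329) (nat_lit 152) r0_329 r12_152 (nat_lit 0) (nat_lit 0) (nat_lit 0) (nat_lit 0x8000000000) (nat_lit 0),
  Rx.mk (nat_lit 39) (nat_lit 7) (nat_lit 4) (nat_lit 0) (nat_lit 1) (nat_lit 331) (nat_lit 158) r0_331 r12_158 (nat_lit 0) (nat_lit 0) (nat_lit 0) (nat_lit 0x6fbb66b9da) (nat_lit 7985185416),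
  Rx.mk (nat_lit 44) (nat_lit 4) (nat_lit 5) (nat_lit 0) (nat_lit 2) (nat_lit 330) (nat_lit 155) r0_330 r12_155 (nat_lit 0) (nat_lit 0) (nat_lit 0) (nat_lit 0x7542556568) (nat_lit 5272199712),
  Rx.mk (nat_lit 47) (nat_lit 7) (nat_lit 5) (nat_lit 0) (nat_lit 3) (nat_lit 332) (nat_lit 160) r0_332 r12_160 (nat_lit 0) (nat_lit 0) (nat_lit 0) (nat_lit 0x7dd134cee2) (nat_lit 1071428904),
  Rx.mk (nat_lit 63) (nat_lit 7) (nat_lit 7) (nat_lit 0) (nat_lit 3) (nat_lit 333) (nat_lit 162) r0_333 r12_162 (nat_lit 0) (nat_lit 0) (nat_lit 0) (nat_lit 0x7ac0cd7868) (nat_lit 2575441440),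
  Rx.mk (nat_lit 100) (nat_lit 4) (nat_lit 4) (nat_lit 1) (nat_lit 4) (nat_lit 334) (nat_lit 153) r0_334 r12_153 (nat_lit 0) (nat_lit 0) (nat_lit 0) (nat_lit 0x7328f59d7e) (nat_lit 6302558808),
  Rx.mk (nat_lit 103) (nat_lit 7) (nat_lit 4) (nat_lit 1) (nat_lit 5) (nat_lit 336) (nat_lit 159) r0_336 r12_159 (nat_lit 0) (nat_lit 0) (nat_lit 0) (nat_lit 0x7a9bd7e7e6) (nat_lit 2646306936),
  Rx.mk (nat_lit 108) (nat_lit 4) (nat_lit 5) (nat_lit 1) (nat_lit 6) (nat_lit 335) (nat_lit 156) r0_335 r12_156 (nat_lit 0) (nat_lit 0) (nat_lit 0) (nat_lit 0x7e0833bebc) (nat_lit 965980080),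
  Rx.mk (nat_lit 111) (nat_lit 7) (nat_lit 5) (nat_lit 1) (nat_lit 7) (nat_lit 337) (nat_lit 161) r0_337 r12_161 (nat_lit 0) (nat_lit 0) (nat_lit 0) (nat_lit 0x7e78339e4e) (nat_lit 751232664),
  Rx.mk (nat_lit 127) (nat_lit 7) (nat_lit 7) (nat_lit 1) (nat_lit 7) (nat_lit 338) (nat_lit 163) r0_338 r12_163 (nat_lit 0) (nat_lit 0) (nat_lit 0) (nat_lit 0x7e24231faa) (nat_lit 912417480),
  Rx.mk (nat_lit 228) (nat_lit 4) (nat_lit 4) (nat_lit 3) (nat_lit 4) (nat_lit 339) (nat_lit 154) r0_339 r12_154 (nat_lit 0) (nat_lit 0) (nat_lit 0) (nat_lit 0x8000000000) (nat_lit 0),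
  Rx.mk (nat_lit 236) (nat_lit 4) (nat_lit 5) (nat_lit 3) (nat_lit 6) (nat_lit 340) (nat_lit 157) r0_340 r12_157 (nat_lit 0) (nat_lit 0) (nat_lit 0) (nat_lit 0x7b4610a3b0) (nat_lit 2319924672)]
noncomputable def e20_52 : List Rx := [
  Rx.mk (nat_lit 59) (nat_lit 3) (nat_lit 7) (nat_lit 0) (nat_lit 3) (nat_lit 208) (nat_lit 99) r0_208 r12_99 (nat_lit 0) (nat_lit 0) (nat_lit 0) (nat_lit 0x6c8ed0a668) (nat_lit 9543235104),
  Rx.mk (nat_lit 63) (nat_lit 7) (nat_lit 7) (nat_lit 0) (nat_lit 3) (nat_lit 207) (nat_lit 97) r0_207 r12_97 (nat_lit 0) (nat_lit 0) (nat_lit 0) (nat_lit 0x7b7e747d3a) (nat_lit 2211802632),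
  Rx.mk (nat_lit 228) (nat_lit 4) (nat_lit 4) (nat_lit 3) (nat_lit 4) (nat_lit 209) (nat_lit 95) r0_209 r12_95 (nat_lit 0) (nat_lit 0) (nat_lit 0) (nat_lit 0x749db7cfe6) (nat_lit 5587832952),
  Rx.mk (nat_lit 231) (nat_lit 7) (nat_lit 4) (nat_lit 3) (nat_lit 5) (nat_lit 210) (nat_lit 96) r0_210 r12_96 (nat_lit 0) (nat_lit 0) (nat_lit 0) (nat_lit 0x7d52e9d410) (nat_lit 1313582400),
  Rx.mk (nat_lit 255) (nat_lit 7) (nat_lit 7) (nat_lit 3) (nat_lit 7) (nat_lit 211) (nat_lit 98) r0_211 r12_98 (nat_lit 0) (nat_lit 0) (nat_lit 0) (nat_lit 0x7df6c1d5ec) (nat_lit 999428976),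
  Rx.mk (nat_lit 484) (nat_lit 4) (nat_lit 4) (nat_lit 7) (nat_lit 4) (nat_lit 204) (nat_lit 94) r0_204 r12_94 (nat_lit 0) (nat_lit 0) (nat_lit 0) (nat_lit 0x8000000000) (nat_lit 0),
  Rx.mk (nat_lit 500) (nat_lit 4) (nat_lit 6) (nat_lit 7) (nat_lit 6) (nat_lit 205) (nat_lit 100) r0_205 r12_100 (nat_lit 0) (nat_lit 0) (nat_lit 0) (nat_lit 0x769593103a) (nat_lit 4621740552),
  Rx.mk (nat_lit 502) (nat_lit 6) (nat_lit 6) (nat_lit 7) (nat_lit 7) (nat_lit 206) (nat_lit 101) r0_206 r12_101 (nat_lit 0) (nat_lit 0) (nat_lit 0) (nat_lit 0x67426092b6) (nat_lit 12144063672)]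
noncomputable def e20_53 : List Rx := [
  Rx.mk (nat_lit 47) (nat_lit 7) (nat_lit 5) (nat_lit 0) (nat_lit 3) (nat_lit 314) (nat_lit 252) r0_314 r12_252 (nat_lit 0) (nat_lit 0) (nat_lit 0) (nat_lit 0x7c8c873b00) (nat_lit 1693965312),
  Rx.mk (nat_lit 103) (nat_lit 7) (nat_lit 4) (nat_lit 1) (nat_lit 5) (nat_lit 315) (nat_lit 253) r0_315 r12_253 (nat_lit 0) (nat_lit 0) (nat_lit 0) (nat_lit 0x7ac9315222) (nat_lit 2559354408),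
  Rx.mk (nat_lit 111) (nat_lit 7) (nat_lit 5) (nat_lit 1) (nat_lit 7) (nat_lit 316) (nat_lit 254) r0_316 r12_254 (nat_lit 0) (nat_lit 0) (nat_lit 0) (nat_lit 0x7ef9c72494) (nat_lit 502783632)]
noncomputable def e20_54 : List Rx := [
  Rx.mk (nat_lit 59) (nat_lit 3) (nat_lit 7) (nat_lit 0) (nat_lit 3) (nat_lit 67) (nat_lit 0) r0_67 r12_0 (nat_lit 0) (nat_lit 0) (nat_lit 0) (nat_lit 0x765c6d02d4) (nat_lit 4731317136),
  Rx.mk (nat_lit 227) (nat_lit 3) (nat_lit 4) (nat_lit 3) (nat_lit 5) (nat_lit 69) (nat_lit 1) r0_69 r12_1 (nat_lit 0) (nat_lit 0) (nat_lit 0) (nat_lit 0x71e33a1a7c) (nat_lit 6927116976),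
  Rx.mk (nat_lit 231) (nat_lit 7) (nat_lit 4) (nat_lit 3) (nat_lit 5) (nat_lit 68) (nat_lit 3) r0_68 r12_3 (nat_lit 0) (nat_lit 0) (nat_lit 0) (nat_lit 0x75cf3f763a) (nat_lit 5002011144),
  Rx.mk (nat_lit 251) (nat_lit 3) (nat_lit 7) (nat_lit 3) (nat_lit 7) (nat_lit 70) (nat_lit 2) r0_70 r12_2 (nat_lit 0) (nat_lit 0) (nat_lit 0) (nat_lit 0x7690a69f06) (nat_lit 4631181048),
  Rx.mk (nat_lit 487) (nat_lit 7) (nat_lit 4) (nat_lit 7) (nat_lit 5) (nat_lit 65) (nat_lit 4) r0_65 r12_4 (nat_lit 0) (nat_lit 0) (nat_lit 0) (nat_lit 0x720f3cda24) (nat_lit 6842730960),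
  Rx.mk (nat_lit 503) (nat_lit 7) (nat_lit 6) (nat_lit 7) (nat_lit 7) (nat_lit 66) (nat_lit 5) r0_66 r12_5 (nat_lit 0) (nat_lit 0) (nat_lit 0) (nat_lit 0x7df1ba066e) (nat_lit 1009074456)]
noncomputable def e20_55 : List Rx := [
  Rx.mk (nat_lit 43) (nat_lit 3) (nat_lit 5) (nat_lit 0) (nat_lit 3) (nat_lit 71) (nat_lit 65) r0_71 r3_65 (nat_lit 0) (nat_lit 0) (nat_lit 0) (nat_lit 0x8000000000) (nat_lit 0)]
noncomputable def e20_56 : List Rx := [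
  Rx.mk (nat_lit 43) (nat_lit 3) (nat_lit 5) (nat_lit 0) (nat_lit 3) (nat_lit 89) (nat_lit 61) r0_89 r12_61 (nat_lit 0) (nat_lit 0) (nat_lit 0) (nat_lit 0x75d5ae0f4a) (nat_lit 4989678408),
  Rx.mk (nat_lit 235) (nat_lit 3) (nat_lit 5) (nat_lit 3) (nat_lit 7) (nat_lit 90) (nat_lit 62) r0_90 r12_62 (nat_lit 0) (nat_lit 0) (nat_lit 0) (nat_lit 0x7ec6f5d1dc) (nat_lit 600221232)]
noncomputable def e20_57 : List Rx := [
  Rx.mk (nat_lit 43) (nat_lit 3) (nat_lit 5) (nat_lit 0) (nat_lit 3) (nat_lit 224) (nat_lit 255) r0_224 r12_255 (nat_lit 0) (nat_lit 0) (nat_lit 0) (nat_lit 0x8000000000) (nat_lit 0)]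
noncomputable def e20 : List (List Rx) := [e20_0, e20_1, e20_2, e20_3, e20_4, e20_5, e20_6, e20_7, e20_8, e20_9, e20_10, e20_11, e20_12, e20_13, e20_14, e20_15, e20_16, e20_17, e20_18, e20_19, e20_20, e20_21, e20_22, e20_23, e20_24, e20_25, e20_26, e20_27, e20_28, e20_29, e20_30, e20_31, e20_32, e20_33, e20_34, e20_35, e20_36, e20_37, e20_38, e20_39, e20_40, e20_41, e20_42, e20_43, e20_44, e20_45, e20_46, e20_47, e20_48, e20_49, e20_50, e20_51, e20_52, e20_53, e20_54, e20_55, e20_56, e20_57]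
noncomputable def e21_0 : List Rx := [
  Rx.mk (nat_lit 108) (nat_lit 4) (nat_lit 5) (nat_lit 1) (nat_lit 6) (nat_lit 255) (nat_lit 173) r1_255 r0_173 (nat_lit 0) (nat_lit 0) (nat_lit 0) (nat_lit 0x7da5614c46) (nat_lit 1155461112)]
noncomputable def e21_1 : List Rx := [
  Rx.mk (nat_lit 108) (nat_lit 4) (nat_lit 5) (nat_lit 1) (nat_lit 6) (nat_lit 273) (nat_lit 185) r1_273 r1_185 (nat_lit 0) (nat_lit 0) (nat_lit 0) (nat_lit 0x7db8bf7650) (nat_lit 1118325312),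
  Rx.mk (nat_lit 364) (nat_lit 4) (nat_lit 5) (nat_lit 5) (nat_lit 6) (nat_lit 272) (nat_lit 186) r1_272 r1_186 (nat_lit 0) (nat_lit 0) (nat_lit 0) (nat_lit 0x7dbb600c44) (nat_lit 1113287760)]
noncomputable def e21_2 : List Rx := [
  Rx.mk (nat_lit 356) (nat_lit 4) (nat_lit 4) (nat_lit 5) (nat_lit 4) (nat_lit 258) (nat_lit 183) r1_258 r2_183 (nat_lit 0) (nat_lit 0) (nat_lit 0) (nat_lit 0x64fea130f0) (nat_lit 13255669440),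
  Rx.mk (nat_lit 364) (nat_lit 4) (nat_lit 5) (nat_lit 5) (nat_lit 6) (nat_lit 259) (nat_lit 184) r1_259 r2_184 (nat_lit 0) (nat_lit 0) (nat_lit 0) (nat_lit 0x7d01d9256c) (nat_lit 1469016432),
  Rx.mk (nat_lit 372) (nat_lit 4) (nat_lit 6) (nat_lit 5) (nat_lit 6) (nat_lit 260) (nat_lit 185) r1_260 r2_185 (nat_lit 0) (nat_lit 0) (nat_lit 0) (nat_lit 0x7dc4639c02) (nat_lit 1096004520),
  Rx.mk (nat_lit 374) (nat_lit 6) (nat_lit 6) (nat_lit 5) (nat_lit 7) (nat_lit 261) (nat_lit 186) r1_261 r2_186 (nat_lit 0) (nat_lit 0) (nat_lit 0) (nat_lit 0x7deee313e0) (nat_lit 1014519168)]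
noncomputable def e21_3 : List Rx := [
  Rx.mk (nat_lit 44) (nat_lit 4) (nat_lit 5) (nat_lit 0) (nat_lit 2) (nat_lit 323) (nat_lit 148) r1_323 r3_148 (nat_lit 0) (nat_lit 0) (nat_lit 0) (nat_lit 0x8000000000) (nat_lit 0),
  Rx.mk (nat_lit 47) (nat_lit 7) (nat_lit 5) (nat_lit 0) (nat_lit 3) (nat_lit 293) (nat_lit 150) r1_293 r3_150 (nat_lit 0) (nat_lit 0) (nat_lit 0) (nat_lit 0x7f34c65466) (nat_lit 389663352),
  Rx.mk (nat_lit 108) (nat_lit 4) (nat_lit 5) (nat_lit 1) (nat_lit 6) (nat_lit 294) (nat_lit 149) r1_294 r3_149 (nat_lit 0) (nat_lit 0) (nat_lit 0) (nat_lit 0x7f3dabe604) (nat_lit 372604752),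
  Rx.mk (nat_lit 111) (nat_lit 7) (nat_lit 5) (nat_lit 1) (nat_lit 7) (nat_lit 295) (nat_lit 151) r1_295 r3_151 (nat_lit 0) (nat_lit 0) (nat_lit 0) (nat_lit 0x7f46a79640) (nat_lit 355380480)]
noncomputable def e21_4 : List Rx := [
  Rx.mk (nat_lit 108) (nat_lit 4) (nat_lit 5) (nat_lit 1) (nat_lit 6) (nat_lit 304) (nat_lit 159) r1_304 r4_159 (nat_lit 0) (nat_lit 0) (nat_lit 0) (nat_lit 0x7e188df908) (nat_lit 934625952),
  Rx.mk (nat_lit 111) (nat_lit 7) (nat_lit 5) (nat_lit 1) (nat_lit 7) (nat_lit 305) (nat_lit 160) r1_305 r4_160 (nat_lit 0) (nat_lit 0) (nat_lit 0) (nat_lit 0x7e535d2bda) (nat_lit 821865096)]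
noncomputable def e21_5 : List Rx := [
  Rx.mk (nat_lit 231) (nat_lit 7) (nat_lit 4) (nat_lit 3) (nat_lit 5) (nat_lit 46) (nat_lit 103) r1_46 r3_103 (nat_lit 0) (nat_lit 0) (nat_lit 0) (nat_lit 0x7c72d45648) (nat_lit 1743240096),
  Rx.mk (nat_lit 239) (nat_lit 7) (nat_lit 5) (nat_lit 3) (nat_lit 7) (nat_lit 47) (nat_lit 106) r1_47 r3_106 (nat_lit 0) (nat_lit 0) (nat_lit 0) (nat_lit 0x7f3b894830) (nat_lit 376698816),
  Rx.mk (nat_lit 251) (nat_lit 3) (nat_lit 7) (nat_lit 3) (nat_lit 7) (nat_lit 49) (nat_lit 108) r1_49 r3_108 (nat_lit 0) (nat_lit 0) (nat_lit 0) (nat_lit 0x7e2ce9f334) (nat_lit 895589136),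
  Rx.mk (nat_lit 255) (nat_lit 7) (nat_lit 7) (nat_lit 3) (nat_lit 7) (nat_lit 48) (nat_lit 107) r1_48 r3_107 (nat_lit 0) (nat_lit 0) (nat_lit 0) (nat_lit 0x7ee53b2d68) (nat_lit 542179872),
  Rx.mk (nat_lit 484) (nat_lit 4) (nat_lit 4) (nat_lit 7) (nat_lit 4) (nat_lit 39) (nat_lit 101) r1_39 r3_101 (nat_lit 0) (nat_lit 0) (nat_lit 0) (nat_lit 0x8000000000) (nat_lit 0),
  Rx.mk (nat_lit 487) (nat_lit 7) (nat_lit 4) (nat_lit 7) (nat_lit 5) (nat_lit 43) (nat_lit 102) r1_43 r3_102 (nat_lit 0) (nat_lit 0) (nat_lit 0) (nat_lit 0x7d89c9a5dc) (nat_lit 1208366640),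
  Rx.mk (nat_lit 492) (nat_lit 4) (nat_lit 5) (nat_lit 7) (nat_lit 6) (nat_lit 40) (nat_lit 104) r1_40 r3_104 (nat_lit 0) (nat_lit 0) (nat_lit 0) (nat_lit 0x7ecc02e106) (nat_lit 590536440),
  Rx.mk (nat_lit 495) (nat_lit 7) (nat_lit 5) (nat_lit 7) (nat_lit 7) (nat_lit 44) (nat_lit 105) r1_44 r3_105 (nat_lit 0) (nat_lit 0) (nat_lit 0) (nat_lit 0x7ed104b0e4) (nat_lit 580935888),
  Rx.mk (nat_lit 500) (nat_lit 4) (nat_lit 6) (nat_lit 7) (nat_lit 6) (nat_lit 41) (nat_lit 109) r1_41 r3_109 (nat_lit 0) (nat_lit 0) (nat_lit 0) (nat_lit 0x7e2853bc9c) (nat_lit 904383792),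
  Rx.mk (nat_lit 502) (nat_lit 6) (nat_lit 6) (nat_lit 7) (nat_lit 7) (nat_lit 42) (nat_lit 111) r1_42 r3_111 (nat_lit 0) (nat_lit 0) (nat_lit 0) (nat_lit 0x7efab4d5b8) (nat_lit 501003360),
  Rx.mk (nat_lit 503) (nat_lit 7) (nat_lit 6) (nat_lit 7) (nat_lit 7) (nat_lit 45) (nat_lit 110) r1_45 r3_110 (nat_lit 0) (nat_lit 0) (nat_lit 0) (nat_lit 0x7e3f27cf44) (nat_lit 860612688)]
noncomputable def e21_6 : List Rx := [
  Rx.mk (nat_lit 292) (nat_lit 4) (nat_lit 4) (nat_lit 4) (nat_lit 0) (nat_lit 94) (nat_lit 111) r1_94 r0_111 (nat_lit 0) (nat_lit 0) (nat_lit 0) (nat_lit 0x7fc651db1c) (nat_lit 110595888),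
  Rx.mk (nat_lit 300) (nat_lit 4) (nat_lit 5) (nat_lit 4) (nat_lit 2) (nat_lit 95) (nat_lit 114) r1_95 r0_114 (nat_lit 0) (nat_lit 0) (nat_lit 0) (nat_lit 0x7c02729cd4) (nat_lit 1958720400),
  Rx.mk (nat_lit 308) (nat_lit 4) (nat_lit 6) (nat_lit 4) (nat_lit 2) (nat_lit 96) (nat_lit 118) r1_96 r0_118 (nat_lit 0) (nat_lit 0) (nat_lit 0) (nat_lit 0x76fc4b844c) (nat_lit 4424784624),
  Rx.mk (nat_lit 310) (nat_lit 6) (nat_lit 6) (nat_lit 4) (nat_lit 3) (nat_lit 97) (nat_lit 121) r1_97 r0_121 (nat_lit 0) (nat_lit 0) (nat_lit 0) (nat_lit 0x7d51e2a484) (nat_lit 1315553616),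
  Rx.mk (nat_lit 438) (nat_lit 6) (nat_lit 6) (nat_lit 6) (nat_lit 7) (nat_lit 98) (nat_lit 123) r1_98 r0_123 (nat_lit 0) (nat_lit 0) (nat_lit 0) (nat_lit 0x7dd1bc8666) (nat_lit 1070412408),
  Rx.mk (nat_lit 484) (nat_lit 4) (nat_lit 4) (nat_lit 7) (nat_lit 4) (nat_lit 99) (nat_lit 112) r1_99 r0_112 (nat_lit 0) (nat_lit 0) (nat_lit 0) (nat_lit 0x6fba2ced78) (nat_lit 7987535712),
  Rx.mk (nat_lit 487) (nat_lit 7) (nat_lit 4) (nat_lit 7) (nat_lit 5) (nat_lit 103) (nat_lit 113) r1_103 r0_113 (nat_lit 0) (nat_lit 0) (nat_lit 0) (nat_lit 0x6f612c3ddc) (nat_lit 8158189104),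
  Rx.mk (nat_lit 492) (nat_lit 4) (nat_lit 5) (nat_lit 7) (nat_lit 6) (nat_lit 100) (nat_lit 115) r1_100 r0_115 (nat_lit 0) (nat_lit 0) (nat_lit 0) (nat_lit 0x7d6029a006) (nat_lit 1288178424),
  Rx.mk (nat_lit 495) (nat_lit 7) (nat_lit 5) (nat_lit 7) (nat_lit 7) (nat_lit 104) (nat_lit 116) r1_104 r0_116 (nat_lit 0) (nat_lit 0) (nat_lit 0) (nat_lit 0x7daa421e34) (nat_lit 1146107664),
  Rx.mk (nat_lit 500) (nat_lit 4) (nat_lit 6) (nat_lit 7) (nat_lit 6) (nat_lit 101) (nat_lit 119) r1_101 r0_119 (nat_lit 0) (nat_lit 0) (nat_lit 0) (nat_lit 0x7ddf4a4d7c) (nat_lit 1044424368),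
  Rx.mk (nat_lit 502) (nat_lit 6) (nat_lit 6) (nat_lit 7) (nat_lit 7) (nat_lit 102) (nat_lit 122) r1_102 r0_122 (nat_lit 0) (nat_lit 0) (nat_lit 0) (nat_lit 0x7df6bc3646) (nat_lit 999471096),
  Rx.mk (nat_lit 503) (nat_lit 7) (nat_lit 6) (nat_lit 7) (nat_lit 7) (nat_lit 105) (nat_lit 120) r1_105 r0_120 (nat_lit 0) (nat_lit 0) (nat_lit 0) (nat_lit 0x7dd7b446e4) (nat_lit 1058969808),
  Rx.mk (nat_lit 511) (nat_lit 7) (nat_lit 7) (nat_lit 7) (nat_lit 7) (nat_lit 106) (nat_lit 117) r1_106 r0_117 (nat_lit 0) (nat_lit 0) (nat_lit 0) (nat_lit 0x7d94a957d6) (nat_lit 1187517240)]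
noncomputable def e21_7 : List Rx := [
  Rx.mk (nat_lit 292) (nat_lit 4) (nat_lit 4) (nat_lit 4) (nat_lit 0) (nat_lit 117) (nat_lit 117) r1_117 r1_117 (nat_lit 0) (nat_lit 0) (nat_lit 0) (nat_lit 0x7c410b530a) (nat_lit 1838698056),
  Rx.mk (nat_lit 300) (nat_lit 4) (nat_lit 5) (nat_lit 4) (nat_lit 2) (nat_lit 118) (nat_lit 121) r1_118 r1_121 (nat_lit 0) (nat_lit 0) (nat_lit 0) (nat_lit 0x7ce0ba377c) (nat_lit 1532522160),
  Rx.mk (nat_lit 308) (nat_lit 4) (nat_lit 6) (nat_lit 4) (nat_lit 2) (nat_lit 119) (nat_lit 126) r1_119 r1_126 (nat_lit 0) (nat_lit 0) (nat_lit 0) (nat_lit 0x7ca72d7082) (nat_lit 1642868136),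
  Rx.mk (nat_lit 310) (nat_lit 6) (nat_lit 6) (nat_lit 4) (nat_lit 3) (nat_lit 120) (nat_lit 128) r1_120 r1_128 (nat_lit 0) (nat_lit 0) (nat_lit 0) (nat_lit 0x7d10ae380c) (nat_lit 1440577008),
  Rx.mk (nat_lit 356) (nat_lit 4) (nat_lit 4) (nat_lit 5) (nat_lit 4) (nat_lit 121) (nat_lit 118) r1_121 r1_118 (nat_lit 0) (nat_lit 0) (nat_lit 0) (nat_lit 0x7ce0ba377c) (nat_lit 1532522160),
  Rx.mk (nat_lit 364) (nat_lit 4) (nat_lit 5) (nat_lit 5) (nat_lit 6) (nat_lit 122) (nat_lit 122) r1_122 r1_122 (nat_lit 0) (nat_lit 0) (nat_lit 0) (nat_lit 0x7de869fb78) (nat_lit 1026930528),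
  Rx.mk (nat_lit 372) (nat_lit 4) (nat_lit 6) (nat_lit 5) (nat_lit 6) (nat_lit 123) (nat_lit 127) r1_123 r1_127 (nat_lit 0) (nat_lit 0) (nat_lit 0) (nat_lit 0x7dead0d508) (nat_lit 1022325408),
  Rx.mk (nat_lit 374) (nat_lit 6) (nat_lit 6) (nat_lit 5) (nat_lit 7) (nat_lit 124) (nat_lit 129) r1_124 r1_129 (nat_lit 0) (nat_lit 0) (nat_lit 0) (nat_lit 0x7de5b9a680) (nat_lit 1032086016),
  Rx.mk (nat_lit 438) (nat_lit 6) (nat_lit 6) (nat_lit 6) (nat_lit 7) (nat_lit 125) (nat_lit 130) r1_125 r1_130 (nat_lit 0) (nat_lit 0) (nat_lit 0) (nat_lit 0x7de650bd0e) (nat_lit 1030954392),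
  Rx.mk (nat_lit 484) (nat_lit 4) (nat_lit 4) (nat_lit 7) (nat_lit 4) (nat_lit 126) (nat_lit 119) r1_126 r1_119 (nat_lit 0) (nat_lit 0) (nat_lit 0) (nat_lit 0x7ca72d7082) (nat_lit 1642868136),
  Rx.mk (nat_lit 487) (nat_lit 7) (nat_lit 4) (nat_lit 7) (nat_lit 5) (nat_lit 128) (nat_lit 120) r1_128 r1_120 (nat_lit 0) (nat_lit 0) (nat_lit 0) (nat_lit 0x7d10ae380c) (nat_lit 1440577008),
  Rx.mk (nat_lit 492) (nat_lit 4) (nat_lit 5) (nat_lit 7) (nat_lit 6) (nat_lit 127) (nat_lit 123) r1_127 r1_123 (nat_lit 0) (nat_lit 0) (nat_lit 0) (nat_lit 0x7dead0d508) (nat_lit 1022325408),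
  Rx.mk (nat_lit 495) (nat_lit 7) (nat_lit 5) (nat_lit 7) (nat_lit 7) (nat_lit 129) (nat_lit 124) r1_129 r1_124 (nat_lit 0) (nat_lit 0) (nat_lit 0) (nat_lit 0x7de5b9a680) (nat_lit 1032086016),
  Rx.mk (nat_lit 511) (nat_lit 7) (nat_lit 7) (nat_lit 7) (nat_lit 7) (nat_lit 130) (nat_lit 125) r1_130 r1_125 (nat_lit 0) (nat_lit 0) (nat_lit 0) (nat_lit 0x7de650bd0e) (nat_lit 1030954392)]
noncomputable def e21_8 : List Rx := [
  Rx.mk (nat_lit 484) (nat_lit 4) (nat_lit 4) (nat_lit 7) (nat_lit 4) (nat_lit 154) (nat_lit 107) r1_154 r4_107 (nat_lit 0) (nat_lit 0) (nat_lit 0) (nat_lit 0x74634ad6f0) (nat_lit 5699858112),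
  Rx.mk (nat_lit 487) (nat_lit 7) (nat_lit 4) (nat_lit 7) (nat_lit 5) (nat_lit 158) (nat_lit 108) r1_158 r4_108 (nat_lit 0) (nat_lit 0) (nat_lit 0) (nat_lit 0x727dbfd186) (nat_lit 6630836472),
  Rx.mk (nat_lit 492) (nat_lit 4) (nat_lit 5) (nat_lit 7) (nat_lit 6) (nat_lit 155) (nat_lit 109) r1_155 r4_109 (nat_lit 0) (nat_lit 0) (nat_lit 0) (nat_lit 0x7dc2547cf6) (nat_lit 1099952568),
  Rx.mk (nat_lit 495) (nat_lit 7) (nat_lit 5) (nat_lit 7) (nat_lit 7) (nat_lit 159) (nat_lit 110) r1_159 r4_110 (nat_lit 0) (nat_lit 0) (nat_lit 0) (nat_lit 0x7dbbbc4680) (nat_lit 1112596992),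
  Rx.mk (nat_lit 500) (nat_lit 4) (nat_lit 6) (nat_lit 7) (nat_lit 6) (nat_lit 156) (nat_lit 111) r1_156 r4_111 (nat_lit 0) (nat_lit 0) (nat_lit 0) (nat_lit 0x7e11d58496) (nat_lit 947511864),
  Rx.mk (nat_lit 502) (nat_lit 6) (nat_lit 6) (nat_lit 7) (nat_lit 7) (nat_lit 157) (nat_lit 113) r1_157 r4_113 (nat_lit 0) (nat_lit 0) (nat_lit 0) (nat_lit 0x7df3f3e2ce) (nat_lit 1004806296),
  Rx.mk (nat_lit 503) (nat_lit 7) (nat_lit 6) (nat_lit 7) (nat_lit 7) (nat_lit 160) (nat_lit 112) r1_160 r4_112 (nat_lit 0) (nat_lit 0) (nat_lit 0) (nat_lit 0x7dbe303f3e) (nat_lit 1107893592)]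
noncomputable def e21_9 : List Rx := [
  Rx.mk (nat_lit 47) (nat_lit 7) (nat_lit 5) (nat_lit 0) (nat_lit 3) (nat_lit 246) (nat_lit 179) r1_246 r5_179 (nat_lit 0) (nat_lit 0) (nat_lit 0) (nat_lit 0x7f6760ea8a) (nat_lit 292635720),
  Rx.mk (nat_lit 236) (nat_lit 4) (nat_lit 5) (nat_lit 3) (nat_lit 6) (nat_lit 247) (nat_lit 178) r1_247 r5_178 (nat_lit 0) (nat_lit 0) (nat_lit 0) (nat_lit 0x7f624a1bfc) (nat_lit 302393520),
  Rx.mk (nat_lit 239) (nat_lit 7) (nat_lit 5) (nat_lit 3) (nat_lit 7) (nat_lit 248) (nat_lit 180) r1_248 r5_180 (nat_lit 0) (nat_lit 0) (nat_lit 0) (nat_lit 0x7e75103088) (nat_lit 757250208)]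
noncomputable def e21_10 : List Rx := [
  Rx.mk (nat_lit 45) (nat_lit 5) (nat_lit 5) (nat_lit 0) (nat_lit 3) (nat_lit 252) (nat_lit 282) r1_252 r0_282 (nat_lit 0) (nat_lit 0) (nat_lit 0) (nat_lit 0x7ff9bf840e) (nat_lit 11987352),
  Rx.mk (nat_lit 108) (nat_lit 4) (nat_lit 5) (nat_lit 1) (nat_lit 6) (nat_lit 253) (nat_lit 283) r1_253 r0_283 (nat_lit 0) (nat_lit 0) (nat_lit 0) (nat_lit 0x7925b2abb0) (nat_lit 3363691968),
  Rx.mk (nat_lit 109) (nat_lit 5) (nat_lit 5) (nat_lit 1) (nat_lit 7) (nat_lit 254) (nat_lit 284) r1_254 r0_284 (nat_lit 0) (nat_lit 0) (nat_lit 0) (nat_lit 0x7bdf3f502c) (nat_lit 2026213488)]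
noncomputable def e21_11 : List Rx := [
  Rx.mk (nat_lit 108) (nat_lit 4) (nat_lit 5) (nat_lit 1) (nat_lit 6) (nat_lit 256) (nat_lit 221) r1_256 r6_221 (nat_lit 0) (nat_lit 0) (nat_lit 0) (nat_lit 0x7d23d005dc) (nat_lit 1403893296),
  Rx.mk (nat_lit 109) (nat_lit 5) (nat_lit 5) (nat_lit 1) (nat_lit 7) (nat_lit 257) (nat_lit 222) r1_257 r6_222 (nat_lit 0) (nat_lit 0) (nat_lit 0) (nat_lit 0x7dde737aea) (nat_lit 1046033352)]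
noncomputable def e21_12 : List Rx := [
  Rx.mk (nat_lit 45) (nat_lit 5) (nat_lit 5) (nat_lit 0) (nat_lit 3) (nat_lit 278) (nat_lit 278) r1_278 r1_278 (nat_lit 0) (nat_lit 0) (nat_lit 0) (nat_lit 0x7f91b3053e) (nat_lit 211490136),
  Rx.mk (nat_lit 109) (nat_lit 5) (nat_lit 5) (nat_lit 1) (nat_lit 7) (nat_lit 279) (nat_lit 279) r1_279 r1_279 (nat_lit 0) (nat_lit 0) (nat_lit 0) (nat_lit 0x7df2be9624) (nat_lit 1007122896)]
noncomputable def e21_13 : List Rx := [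
  Rx.mk (nat_lit 109) (nat_lit 5) (nat_lit 5) (nat_lit 1) (nat_lit 7) (nat_lit 286) (nat_lit 180) r1_286 r7_180 (nat_lit 0) (nat_lit 0) (nat_lit 0) (nat_lit 0x7de3424df8) (nat_lit 1036814688)]
noncomputable def e21_14 : List Rx := [
  Rx.mk (nat_lit 108) (nat_lit 4) (nat_lit 5) (nat_lit 1) (nat_lit 6) (nat_lit 276) (nat_lit 318) r1_276 r7_318 (nat_lit 0) (nat_lit 0) (nat_lit 0) (nat_lit 0x7ba392eb2e) (nat_lit 2140631064),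
  Rx.mk (nat_lit 109) (nat_lit 5) (nat_lit 5) (nat_lit 1) (nat_lit 7) (nat_lit 277) (nat_lit 319) r1_277 r7_319 (nat_lit 0) (nat_lit 0) (nat_lit 0) (nat_lit 0x7de06f7b28) (nat_lit 1042228512),
  Rx.mk (nat_lit 364) (nat_lit 4) (nat_lit 5) (nat_lit 5) (nat_lit 6) (nat_lit 274) (nat_lit 316) r1_274 r7_316 (nat_lit 0) (nat_lit 0) (nat_lit 0) (nat_lit 0x7a2aa01bd4) (nat_lit 2863390608),
  Rx.mk (nat_lit 365) (nat_lit 5) (nat_lit 5) (nat_lit 5) (nat_lit 7) (nat_lit 275) (nat_lit 317) r1_275 r7_317 (nat_lit 0) (nat_lit 0) (nat_lit 0) (nat_lit 0x7dab10b14a) (nat_lit 1144560456)]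
noncomputable def e21_15 : List Rx := [
  Rx.mk (nat_lit 356) (nat_lit 4) (nat_lit 4) (nat_lit 5) (nat_lit 4) (nat_lit 262) (nat_lit 160) r1_262 r8_160 (nat_lit 0) (nat_lit 0) (nat_lit 0) (nat_lit 0x5e5dca2502) (nat_lit 16509183912),
  Rx.mk (nat_lit 357) (nat_lit 5) (nat_lit 4) (nat_lit 5) (nat_lit 5) (nat_lit 265) (nat_lit 163) r1_265 r8_163 (nat_lit 0) (nat_lit 0) (nat_lit 0) (nat_lit 0x7d825a3cda) (nat_lit 1222622856),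
  Rx.mk (nat_lit 364) (nat_lit 4) (nat_lit 5) (nat_lit 5) (nat_lit 6) (nat_lit 263) (nat_lit 161) r1_263 r8_161 (nat_lit 0) (nat_lit 0) (nat_lit 0) (nat_lit 0x7bd73b1078) (nat_lit 2041584480),
  Rx.mk (nat_lit 365) (nat_lit 5) (nat_lit 5) (nat_lit 5) (nat_lit 7) (nat_lit 266) (nat_lit 164) r1_266 r8_164 (nat_lit 0) (nat_lit 0) (nat_lit 0) (nat_lit 0x7d867bdabc) (nat_lit 1214701488),
  Rx.mk (nat_lit 372) (nat_lit 4) (nat_lit 6) (nat_lit 5) (nat_lit 6) (nat_lit 264) (nat_lit 162) r1_264 r8_162 (nat_lit 0) (nat_lit 0) (nat_lit 0) (nat_lit 0x7d95c58612) (nat_lit 1185388776),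
  Rx.mk (nat_lit 373) (nat_lit 5) (nat_lit 6) (nat_lit 5) (nat_lit 7) (nat_lit 267) (nat_lit 165) r1_267 r8_165 (nat_lit 0) (nat_lit 0) (nat_lit 0) (nat_lit 0x7df4303f08) (nat_lit 1004354208),
  Rx.mk (nat_lit 374) (nat_lit 6) (nat_lit 6) (nat_lit 5) (nat_lit 7) (nat_lit 268) (nat_lit 166) r1_268 r8_166 (nat_lit 0) (nat_lit 0) (nat_lit 0) (nat_lit 0x7df1600c0e) (nat_lit 1009748376)]
noncomputable def e21_16 : List Rx := [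
  Rx.mk (nat_lit 44) (nat_lit 4) (nat_lit 5) (nat_lit 0) (nat_lit 2) (nat_lit 296) (nat_lit 293) r1_296 r4_293 (nat_lit 0) (nat_lit 0) (nat_lit 0) (nat_lit 0x6a1ffcf612) (nat_lit 10737441000),
  Rx.mk (nat_lit 45) (nat_lit 5) (nat_lit 5) (nat_lit 0) (nat_lit 3) (nat_lit 297) (nat_lit 294) r1_297 r4_294 (nat_lit 0) (nat_lit 0) (nat_lit 0) (nat_lit 0x7b9136b104) (nat_lit 2175834960),
  Rx.mk (nat_lit 47) (nat_lit 7) (nat_lit 5) (nat_lit 0) (nat_lit 3) (nat_lit 298) (nat_lit 295) r1_298 r4_295 (nat_lit 0) (nat_lit 0) (nat_lit 0) (nat_lit 0x7df1a98776) (nat_lit 1009198008),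
  Rx.mk (nat_lit 108) (nat_lit 4) (nat_lit 5) (nat_lit 1) (nat_lit 6) (nat_lit 299) (nat_lit 296) r1_299 r4_296 (nat_lit 0) (nat_lit 0) (nat_lit 0) (nat_lit 0x7ce68fda1c) (nat_lit 1521335088),
  Rx.mk (nat_lit 109) (nat_lit 5) (nat_lit 5) (nat_lit 1) (nat_lit 7) (nat_lit 300) (nat_lit 297) r1_300 r4_297 (nat_lit 0) (nat_lit 0) (nat_lit 0) (nat_lit 0x7e35b126b8) (nat_lit 878757984),
  Rx.mk (nat_lit 111) (nat_lit 7) (nat_lit 5) (nat_lit 1) (nat_lit 7) (nat_lit 301) (nat_lit 298) r1_301 r4_298 (nat_lit 0) (nat_lit 0) (nat_lit 0) (nat_lit 0x7db1b0c742) (nat_lit 1131857064)]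
noncomputable def e21_17 : List Rx := [
  Rx.mk (nat_lit 108) (nat_lit 4) (nat_lit 5) (nat_lit 1) (nat_lit 6) (nat_lit 306) (nat_lit 172) r1_306 r9_172 (nat_lit 0) (nat_lit 0) (nat_lit 0) (nat_lit 0x7d78f9b2ec) (nat_lit 1240602480),
  Rx.mk (nat_lit 109) (nat_lit 5) (nat_lit 5) (nat_lit 1) (nat_lit 7) (nat_lit 307) (nat_lit 173) r1_307 r9_173 (nat_lit 0) (nat_lit 0) (nat_lit 0) (nat_lit 0x7dea245fd0) (nat_lit 1023617088),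
  Rx.mk (nat_lit 111) (nat_lit 7) (nat_lit 5) (nat_lit 1) (nat_lit 7) (nat_lit 308) (nat_lit 174) r1_308 r9_174 (nat_lit 0) (nat_lit 0) (nat_lit 0) (nat_lit 0x7d27c6e66a) (nat_lit 1396292040)]
noncomputable def e21_18 : List Rx := [
  Rx.mk (nat_lit 44) (nat_lit 4) (nat_lit 5) (nat_lit 0) (nat_lit 2) (nat_lit 315) (nat_lit 183) r1_315 r10_183 (nat_lit 0) (nat_lit 0) (nat_lit 0) (nat_lit 0x707b7d37b2) (nat_lit 7616876904),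
  Rx.mk (nat_lit 45) (nat_lit 5) (nat_lit 5) (nat_lit 0) (nat_lit 3) (nat_lit 316) (nat_lit 186) r1_316 r10_186 (nat_lit 0) (nat_lit 0) (nat_lit 0) (nat_lit 0x7ddf77aaa6) (nat_lit 1044084600),
  Rx.mk (nat_lit 47) (nat_lit 7) (nat_lit 5) (nat_lit 0) (nat_lit 3) (nat_lit 317) (nat_lit 189) r1_317 r10_189 (nat_lit 0) (nat_lit 0) (nat_lit 0) (nat_lit 0x7de538ae90) (nat_lit 1033051968),
  Rx.mk (nat_lit 108) (nat_lit 4) (nat_lit 5) (nat_lit 1) (nat_lit 6) (nat_lit 318) (nat_lit 184) r1_318 r10_184 (nat_lit 0) (nat_lit 0) (nat_lit 0) (nat_lit 0x7de8fc3254) (nat_lit 1025835408),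
  Rx.mk (nat_lit 109) (nat_lit 5) (nat_lit 5) (nat_lit 1) (nat_lit 7) (nat_lit 319) (nat_lit 187) r1_319 r10_187 (nat_lit 0) (nat_lit 0) (nat_lit 0) (nat_lit 0x7df4ff3218) (nat_lit 1002804192),
  Rx.mk (nat_lit 111) (nat_lit 7) (nat_lit 5) (nat_lit 1) (nat_lit 7) (nat_lit 320) (nat_lit 190) r1_320 r10_190 (nat_lit 0) (nat_lit 0) (nat_lit 0) (nat_lit 0x7df62c9f40) (nat_lit 1000546560),
  Rx.mk (nat_lit 236) (nat_lit 4) (nat_lit 5) (nat_lit 3) (nat_lit 6) (nat_lit 321) (nat_lit 185) r1_321 r10_185 (nat_lit 0) (nat_lit 0) (nat_lit 0) (nat_lit 0x7df99bc84a) (nat_lit 993961800),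
  Rx.mk (nat_lit 237) (nat_lit 5) (nat_lit 5) (nat_lit 3) (nat_lit 7) (nat_lit 322) (nat_lit 188) r1_322 r10_188 (nat_lit 0) (nat_lit 0) (nat_lit 0) (nat_lit 0x7e5868bb1c) (nat_lit 812191536)]
noncomputable def e21_19 : List Rx := [
  Rx.mk (nat_lit 356) (nat_lit 4) (nat_lit 4) (nat_lit 5) (nat_lit 4) (nat_lit 269) (nat_lit 83) r1_269 r8_83 (nat_lit 0) (nat_lit 0) (nat_lit 0) (nat_lit 0x6f59076032) (nat_lit 8173804392),
  Rx.mk (nat_lit 372) (nat_lit 4) (nat_lit 6) (nat_lit 5) (nat_lit 6) (nat_lit 270) (nat_lit 84) r1_270 r8_84 (nat_lit 0) (nat_lit 0) (nat_lit 0) (nat_lit 0x7dc4b5b6e0) (nat_lit 1095389568),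
  Rx.mk (nat_lit 374) (nat_lit 6) (nat_lit 6) (nat_lit 5) (nat_lit 7) (nat_lit 271) (nat_lit 85) r1_271 r8_85 (nat_lit 0) (nat_lit 0) (nat_lit 0) (nat_lit 0x7de721effa) (nat_lit 1029387528)]
noncomputable def e21_20 : List Rx := [
  Rx.mk (nat_lit 251) (nat_lit 3) (nat_lit 7) (nat_lit 3) (nat_lit 7) (nat_lit 9) (nat_lit 20) r1_9 r0_20 (nat_lit 0) (nat_lit 0) (nat_lit 0) (nat_lit 0x7ccb2590dc) (nat_lit 1573900848),
  Rx.mk (nat_lit 255) (nat_lit 7) (nat_lit 7) (nat_lit 3) (nat_lit 7) (nat_lit 8) (nat_lit 21) r1_8 r0_21 (nat_lit 0) (nat_lit 0) (nat_lit 0) (nat_lit 0x7c9e945a1c) (nat_lit 1659353904),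
  Rx.mk (nat_lit 310) (nat_lit 6) (nat_lit 6) (nat_lit 4) (nat_lit 3) (nat_lit 0) (nat_lit 22) r1_0 r0_22 (nat_lit 0) (nat_lit 0) (nat_lit 0) (nat_lit 0x76832bf6be) (nat_lit 4657025880),
  Rx.mk (nat_lit 438) (nat_lit 6) (nat_lit 6) (nat_lit 6) (nat_lit 7) (nat_lit 1) (nat_lit 29) r1_1 r0_29 (nat_lit 0) (nat_lit 0) (nat_lit 0) (nat_lit 0x75ecc41dd2) (nat_lit 4945413096),
  Rx.mk (nat_lit 484) (nat_lit 4) (nat_lit 4) (nat_lit 7) (nat_lit 4) (nat_lit 2) (nat_lit 23) r1_2 r0_23 (nat_lit 0) (nat_lit 0) (nat_lit 0) (nat_lit 0x6facf0e146) (nat_lit 8012911608),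
  Rx.mk (nat_lit 487) (nat_lit 7) (nat_lit 4) (nat_lit 7) (nat_lit 5) (nat_lit 5) (nat_lit 25) r1_5 r0_25 (nat_lit 0) (nat_lit 0) (nat_lit 0) (nat_lit 0x780ee6f982) (nat_lit 3898253736),
  Rx.mk (nat_lit 500) (nat_lit 4) (nat_lit 6) (nat_lit 7) (nat_lit 6) (nat_lit 3) (nat_lit 24) r1_3 r0_24 (nat_lit 0) (nat_lit 0) (nat_lit 0) (nat_lit 0x78202e24fe) (nat_lit 3865124952),
  Rx.mk (nat_lit 502) (nat_lit 6) (nat_lit 6) (nat_lit 7) (nat_lit 7) (nat_lit 4) (nat_lit 28) r1_4 r0_28 (nat_lit 0) (nat_lit 0) (nat_lit 0) (nat_lit 0x7efe491c70) (nat_lit 494140608),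
  Rx.mk (nat_lit 503) (nat_lit 7) (nat_lit 6) (nat_lit 7) (nat_lit 7) (nat_lit 6) (nat_lit 27) r1_6 r0_27 (nat_lit 0) (nat_lit 0) (nat_lit 0) (nat_lit 0x7d16a418a8) (nat_lit 1429148448),
  Rx.mk (nat_lit 511) (nat_lit 7) (nat_lit 7) (nat_lit 7) (nat_lit 7) (nat_lit 7) (nat_lit 26) r1_7 r0_26 (nat_lit 0) (nat_lit 0) (nat_lit 0) (nat_lit 0x7c8a811b64) (nat_lit 1697845968)]
noncomputable def e21_21 : List Rx := [
  Rx.mk (nat_lit 27) (nat_lit 3) (nat_lit 3) (nat_lit 0) (nat_lit 3) (nat_lit 20) (nat_lit 10) r1_20 r1_10 (nat_lit 0) (nat_lit 0) (nat_lit 0) (nat_lit 0x712bfdeef6) (nat_lit 7278451128),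
  Rx.mk (nat_lit 128) (nat_lit 0) (nat_lit 0) (nat_lit 2) (nat_lit 4) (nat_lit 21) (nat_lit 14) r1_21 r1_14 (nat_lit 0) (nat_lit 0) (nat_lit 0) (nat_lit 0x7511bccf22) (nat_lit 5365377576),
  Rx.mk (nat_lit 130) (nat_lit 2) (nat_lit 0) (nat_lit 2) (nat_lit 5) (nat_lit 23) (nat_lit 17) r1_23 r1_17 (nat_lit 0) (nat_lit 0) (nat_lit 0) (nat_lit 0x77664f23a8) (nat_lit 4221513504),
  Rx.mk (nat_lit 146) (nat_lit 2) (nat_lit 2) (nat_lit 2) (nat_lit 7) (nat_lit 24) (nat_lit 19) r1_24 r1_19 (nat_lit 0) (nat_lit 0) (nat_lit 0) (nat_lit 0x7be9926af0) (nat_lit 2006417088),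
  Rx.mk (nat_lit 152) (nat_lit 0) (nat_lit 3) (nat_lit 2) (nat_lit 6) (nat_lit 22) (nat_lit 15) r1_22 r1_15 (nat_lit 0) (nat_lit 0) (nat_lit 0) (nat_lit 0x7413b350b8) (nat_lit 5852467296),
  Rx.mk (nat_lit 154) (nat_lit 2) (nat_lit 3) (nat_lit 2) (nat_lit 7) (nat_lit 25) (nat_lit 18) r1_25 r1_18 (nat_lit 0) (nat_lit 0) (nat_lit 0) (nat_lit 0x7cb7724c24) (nat_lit 1611674064),
  Rx.mk (nat_lit 155) (nat_lit 3) (nat_lit 3) (nat_lit 2) (nat_lit 7) (nat_lit 26) (nat_lit 16) r1_26 r1_16 (nat_lit 0) (nat_lit 0) (nat_lit 0) (nat_lit 0x7f02b315cc) (nat_lit 485677296),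
  Rx.mk (nat_lit 219) (nat_lit 3) (nat_lit 3) (nat_lit 3) (nat_lit 7) (nat_lit 29) (nat_lit 11) r1_29 r1_11 (nat_lit 0) (nat_lit 0) (nat_lit 0) (nat_lit 0x763058a446) (nat_lit 4815835128),
  Rx.mk (nat_lit 251) (nat_lit 3) (nat_lit 7) (nat_lit 3) (nat_lit 7) (nat_lit 28) (nat_lit 12) r1_28 r1_12 (nat_lit 0) (nat_lit 0) (nat_lit 0) (nat_lit 0x7c9dd0a658) (nat_lit 1660819680),
  Rx.mk (nat_lit 255) (nat_lit 7) (nat_lit 7) (nat_lit 3) (nat_lit 7) (nat_lit 27) (nat_lit 13) r1_27 r1_13 (nat_lit 0) (nat_lit 0) (nat_lit 0) (nat_lit 0x7e13742aaa) (nat_lit 944406216),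
  Rx.mk (nat_lit 310) (nat_lit 6) (nat_lit 6) (nat_lit 4) (nat_lit 3) (nat_lit 10) (nat_lit 20) r1_10 r1_20 (nat_lit 0) (nat_lit 0) (nat_lit 0) (nat_lit 0x712bfdeef6) (nat_lit 7278451128),
  Rx.mk (nat_lit 402) (nat_lit 2) (nat_lit 2) (nat_lit 6) (nat_lit 7) (nat_lit 13) (nat_lit 27) r1_13 r1_27 (nat_lit 0) (nat_lit 0) (nat_lit 0) (nat_lit 0x7e13742aaa) (nat_lit 944406216),
  Rx.mk (nat_lit 406) (nat_lit 6) (nat_lit 2) (nat_lit 6) (nat_lit 7) (nat_lit 12) (nat_lit 28) r1_12 r1_28 (nat_lit 0) (nat_lit 0) (nat_lit 0) (nat_lit 0x7c9dd0a658) (nat_lit 1660819680),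
  Rx.mk (nat_lit 438) (nat_lit 6) (nat_lit 6) (nat_lit 6) (nat_lit 7) (nat_lit 11) (nat_lit 29) r1_11 r1_29 (nat_lit 0) (nat_lit 0) (nat_lit 0) (nat_lit 0x763058a446) (nat_lit 4815835128),
  Rx.mk (nat_lit 484) (nat_lit 4) (nat_lit 4) (nat_lit 7) (nat_lit 4) (nat_lit 14) (nat_lit 21) r1_14 r1_21 (nat_lit 0) (nat_lit 0) (nat_lit 0) (nat_lit 0x7511bccf22) (nat_lit 5365377576),
  Rx.mk (nat_lit 487) (nat_lit 7) (nat_lit 4) (nat_lit 7) (nat_lit 5) (nat_lit 17) (nat_lit 23) r1_17 r1_23 (nat_lit 0) (nat_lit 0) (nat_lit 0) (nat_lit 0x77664f23a8) (nat_lit 4221513504),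
  Rx.mk (nat_lit 500) (nat_lit 4) (nat_lit 6) (nat_lit 7) (nat_lit 6) (nat_lit 15) (nat_lit 22) r1_15 r1_22 (nat_lit 0) (nat_lit 0) (nat_lit 0) (nat_lit 0x7413b350b8) (nat_lit 5852467296),
  Rx.mk (nat_lit 502) (nat_lit 6) (nat_lit 6) (nat_lit 7) (nat_lit 7) (nat_lit 16) (nat_lit 26) r1_16 r1_26 (nat_lit 0) (nat_lit 0) (nat_lit 0) (nat_lit 0x7f02b315cc) (nat_lit 485677296),
  Rx.mk (nat_lit 503) (nat_lit 7) (nat_lit 6) (nat_lit 7) (nat_lit 7) (nat_lit 18) (nat_lit 25) r1_18 r1_25 (nat_lit 0) (nat_lit 0) (nat_lit 0) (nat_lit 0x7cb7724c24) (nat_lit 1611674064),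
  Rx.mk (nat_lit 511) (nat_lit 7) (nat_lit 7) (nat_lit 7) (nat_lit 7) (nat_lit 19) (nat_lit 24) r1_19 r1_24 (nat_lit 0) (nat_lit 0) (nat_lit 0) (nat_lit 0x7be9926af0) (nat_lit 2006417088)]
noncomputable def e21_22 : List Rx := [
  Rx.mk (nat_lit 231) (nat_lit 7) (nat_lit 4) (nat_lit 3) (nat_lit 5) (nat_lit 55) (nat_lit 14) r1_55 r4_14 (nat_lit 0) (nat_lit 0) (nat_lit 0) (nat_lit 0x7cf02600b0) (nat_lit 1502953920),
  Rx.mk (nat_lit 251) (nat_lit 3) (nat_lit 7) (nat_lit 3) (nat_lit 7) (nat_lit 57) (nat_lit 13) r1_57 r4_13 (nat_lit 0) (nat_lit 0) (nat_lit 0) (nat_lit 0x7df4fbd24e) (nat_lit 1002829464),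
  Rx.mk (nat_lit 255) (nat_lit 7) (nat_lit 7) (nat_lit 3) (nat_lit 7) (nat_lit 56) (nat_lit 15) r1_56 r4_15 (nat_lit 0) (nat_lit 0) (nat_lit 0) (nat_lit 0x7e11b186d6) (nat_lit 947781432),
  Rx.mk (nat_lit 484) (nat_lit 4) (nat_lit 4) (nat_lit 7) (nat_lit 4) (nat_lit 50) (nat_lit 16) r1_50 r4_16 (nat_lit 0) (nat_lit 0) (nat_lit 0) (nat_lit 0x6d02538dc6) (nat_lit 9321754104),
  Rx.mk (nat_lit 487) (nat_lit 7) (nat_lit 4) (nat_lit 7) (nat_lit 5) (nat_lit 53) (nat_lit 18) r1_53 r4_18 (nat_lit 0) (nat_lit 0) (nat_lit 0) (nat_lit 0x7dd783e9ea) (nat_lit 1059332040),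
  Rx.mk (nat_lit 500) (nat_lit 4) (nat_lit 6) (nat_lit 7) (nat_lit 6) (nat_lit 51) (nat_lit 17) r1_51 r4_17 (nat_lit 0) (nat_lit 0) (nat_lit 0) (nat_lit 0x7e22f55288) (nat_lit 914677920),
  Rx.mk (nat_lit 502) (nat_lit 6) (nat_lit 6) (nat_lit 7) (nat_lit 7) (nat_lit 52) (nat_lit 20) r1_52 r4_20 (nat_lit 0) (nat_lit 0) (nat_lit 0) (nat_lit 0x7eccb0762c) (nat_lit 589236336),
  Rx.mk (nat_lit 503) (nat_lit 7) (nat_lit 6) (nat_lit 7) (nat_lit 7) (nat_lit 54) (nat_lit 19) r1_54 r4_19 (nat_lit 0) (nat_lit 0) (nat_lit 0) (nat_lit 0x7e01526cd8) (nat_lit 979172064)]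
noncomputable def e21_23 : List Rx := [
  Rx.mk (nat_lit 292) (nat_lit 4) (nat_lit 4) (nat_lit 4) (nat_lit 0) (nat_lit 107) (nat_lit 126) r1_107 r6_126 (nat_lit 0) (nat_lit 0) (nat_lit 0) (nat_lit 0x55073477b4) (nat_lit 21092881680),
  Rx.mk (nat_lit 308) (nat_lit 4) (nat_lit 6) (nat_lit 4) (nat_lit 2) (nat_lit 108) (nat_lit 130) r1_108 r6_130 (nat_lit 0) (nat_lit 0) (nat_lit 0) (nat_lit 0x6c89b37840) (nat_lit 9553040640),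
  Rx.mk (nat_lit 310) (nat_lit 6) (nat_lit 6) (nat_lit 4) (nat_lit 3) (nat_lit 109) (nat_lit 133) r1_109 r6_133 (nat_lit 0) (nat_lit 0) (nat_lit 0) (nat_lit 0x7c894ceea8) (nat_lit 1700154144),
  Rx.mk (nat_lit 438) (nat_lit 6) (nat_lit 6) (nat_lit 6) (nat_lit 7) (nat_lit 110) (nat_lit 135) r1_110 r6_135 (nat_lit 0) (nat_lit 0) (nat_lit 0) (nat_lit 0x7de4f8f28c) (nat_lit 1033529328),
  Rx.mk (nat_lit 484) (nat_lit 4) (nat_lit 4) (nat_lit 7) (nat_lit 4) (nat_lit 111) (nat_lit 127) r1_111 r6_127 (nat_lit 0) (nat_lit 0) (nat_lit 0) (nat_lit 0x67e0964ebc) (nat_lit 11840712624),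
  Rx.mk (nat_lit 487) (nat_lit 7) (nat_lit 4) (nat_lit 7) (nat_lit 5) (nat_lit 114) (nat_lit 128) r1_114 r6_128 (nat_lit 0) (nat_lit 0) (nat_lit 0) (nat_lit 0x6d67741b58) (nat_lit 9127853280),
  Rx.mk (nat_lit 500) (nat_lit 4) (nat_lit 6) (nat_lit 7) (nat_lit 6) (nat_lit 112) (nat_lit 131) r1_112 r6_131 (nat_lit 0) (nat_lit 0) (nat_lit 0) (nat_lit 0x7d6284da50) (nat_lit 1283660352),
  Rx.mk (nat_lit 502) (nat_lit 6) (nat_lit 6) (nat_lit 7) (nat_lit 7) (nat_lit 113) (nat_lit 134) r1_113 r6_134 (nat_lit 0) (nat_lit 0) (nat_lit 0) (nat_lit 0x7de1bde640) (nat_lit 1039723776),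
  Rx.mk (nat_lit 503) (nat_lit 7) (nat_lit 6) (nat_lit 7) (nat_lit 7) (nat_lit 115) (nat_lit 132) r1_115 r6_132 (nat_lit 0) (nat_lit 0) (nat_lit 0) (nat_lit 0x7da9ea63b0) (nat_lit 1146764736),
  Rx.mk (nat_lit 511) (nat_lit 7) (nat_lit 7) (nat_lit 7) (nat_lit 7) (nat_lit 116) (nat_lit 129) r1_116 r6_129 (nat_lit 0) (nat_lit 0) (nat_lit 0) (nat_lit 0x7ce256fdae) (nat_lit 1529430552)]
noncomputable def e21_24 : List Rx := [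
  Rx.mk (nat_lit 292) (nat_lit 4) (nat_lit 4) (nat_lit 4) (nat_lit 0) (nat_lit 141) (nat_lit 90) r1_141 r7_90 (nat_lit 0) (nat_lit 0) (nat_lit 0) (nat_lit 0x3f2c1ddefa) (nat_lit 31820882184),
  Rx.mk (nat_lit 308) (nat_lit 4) (nat_lit 6) (nat_lit 4) (nat_lit 2) (nat_lit 142) (nat_lit 94) r1_142 r7_94 (nat_lit 0) (nat_lit 0) (nat_lit 0) (nat_lit 0x60f77387d2) (nat_lit 15232846824),
  Rx.mk (nat_lit 310) (nat_lit 6) (nat_lit 6) (nat_lit 4) (nat_lit 3) (nat_lit 143) (nat_lit 97) r1_143 r7_97 (nat_lit 0) (nat_lit 0) (nat_lit 0) (nat_lit 0x79f20f451a) (nat_lit 2971849608),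
  Rx.mk (nat_lit 402) (nat_lit 2) (nat_lit 2) (nat_lit 6) (nat_lit 7) (nat_lit 146) (nat_lit 101) r1_146 r7_101 (nat_lit 0) (nat_lit 0) (nat_lit 0) (nat_lit 0x7db6f07342) (nat_lit 1121793192),
  Rx.mk (nat_lit 406) (nat_lit 6) (nat_lit 2) (nat_lit 6) (nat_lit 7) (nat_lit 145) (nat_lit 100) r1_145 r7_100 (nat_lit 0) (nat_lit 0) (nat_lit 0) (nat_lit 0x7dec661bb2) (nat_lit 1019289960),
  Rx.mk (nat_lit 438) (nat_lit 6) (nat_lit 6) (nat_lit 6) (nat_lit 7) (nat_lit 144) (nat_lit 99) r1_144 r7_99 (nat_lit 0) (nat_lit 0) (nat_lit 0) (nat_lit 0x7dd6fab27e) (nat_lit 1060359768),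
  Rx.mk (nat_lit 484) (nat_lit 4) (nat_lit 4) (nat_lit 7) (nat_lit 4) (nat_lit 147) (nat_lit 91) r1_147 r7_91 (nat_lit 0) (nat_lit 0) (nat_lit 0) (nat_lit 0x6698457512) (nat_lit 12470224104),
  Rx.mk (nat_lit 487) (nat_lit 7) (nat_lit 4) (nat_lit 7) (nat_lit 5) (nat_lit 150) (nat_lit 92) r1_150 r7_92 (nat_lit 0) (nat_lit 0) (nat_lit 0) (nat_lit 0x6657bb3df6) (nat_lit 12593972664),
  Rx.mk (nat_lit 500) (nat_lit 4) (nat_lit 6) (nat_lit 7) (nat_lit 6) (nat_lit 148) (nat_lit 95) r1_148 r7_95 (nat_lit 0) (nat_lit 0) (nat_lit 0) (nat_lit 0x7d04f5d39e) (nat_lit 1463049432),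
  Rx.mk (nat_lit 502) (nat_lit 6) (nat_lit 6) (nat_lit 7) (nat_lit 7) (nat_lit 149) (nat_lit 98) r1_149 r7_98 (nat_lit 0) (nat_lit 0) (nat_lit 0) (nat_lit 0x7df4f572b4) (nat_lit 1002877200),
  Rx.mk (nat_lit 503) (nat_lit 7) (nat_lit 6) (nat_lit 7) (nat_lit 7) (nat_lit 151) (nat_lit 96) r1_151 r7_96 (nat_lit 0) (nat_lit 0) (nat_lit 0) (nat_lit 0x7d83c7c600) (nat_lit 1219885056),
  Rx.mk (nat_lit 511) (nat_lit 7) (nat_lit 7) (nat_lit 7) (nat_lit 7) (nat_lit 152) (nat_lit 93) r1_152 r7_93 (nat_lit 0) (nat_lit 0) (nat_lit 0) (nat_lit 0x7cef2530be) (nat_lit 1504877400)]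
noncomputable def e21_25 : List Rx := [
  Rx.mk (nat_lit 292) (nat_lit 4) (nat_lit 4) (nat_lit 4) (nat_lit 0) (nat_lit 131) (nat_lit 15) r1_131 r7_15 (nat_lit 0) (nat_lit 0) (nat_lit 0) (nat_lit 0x3a4548f130) (nat_lit 34226891712),
  Rx.mk (nat_lit 308) (nat_lit 4) (nat_lit 6) (nat_lit 4) (nat_lit 2) (nat_lit 132) (nat_lit 16) r1_132 r7_16 (nat_lit 0) (nat_lit 0) (nat_lit 0) (nat_lit 0x719cb8e2d6) (nat_lit 7062302520),
  Rx.mk (nat_lit 310) (nat_lit 6) (nat_lit 6) (nat_lit 4) (nat_lit 3) (nat_lit 133) (nat_lit 17) r1_133 r7_17 (nat_lit 0) (nat_lit 0) (nat_lit 0) (nat_lit 0x7d4b722b92) (nat_lit 1327900392),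
  Rx.mk (nat_lit 356) (nat_lit 4) (nat_lit 4) (nat_lit 5) (nat_lit 4) (nat_lit 134) (nat_lit 18) r1_134 r7_18 (nat_lit 0) (nat_lit 0) (nat_lit 0) (nat_lit 0x713c198d2c) (nat_lit 7247565936),
  Rx.mk (nat_lit 372) (nat_lit 4) (nat_lit 6) (nat_lit 5) (nat_lit 6) (nat_lit 135) (nat_lit 19) r1_135 r7_19 (nat_lit 0) (nat_lit 0) (nat_lit 0) (nat_lit 0x7dcb8c896c) (nat_lit 1082276208),
  Rx.mk (nat_lit 374) (nat_lit 6) (nat_lit 6) (nat_lit 5) (nat_lit 7) (nat_lit 136) (nat_lit 20) r1_136 r7_20 (nat_lit 0) (nat_lit 0) (nat_lit 0) (nat_lit 0x7ddfbee632) (nat_lit 1043551080),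
  Rx.mk (nat_lit 438) (nat_lit 6) (nat_lit 6) (nat_lit 6) (nat_lit 7) (nat_lit 137) (nat_lit 24) r1_137 r7_24 (nat_lit 0) (nat_lit 0) (nat_lit 0) (nat_lit 0x7dd37a4a88) (nat_lit 1067073696),
  Rx.mk (nat_lit 484) (nat_lit 4) (nat_lit 4) (nat_lit 7) (nat_lit 4) (nat_lit 138) (nat_lit 21) r1_138 r7_21 (nat_lit 0) (nat_lit 0) (nat_lit 0) (nat_lit 0x6d86155126) (nat_lit 9069123960),
  Rx.mk (nat_lit 487) (nat_lit 7) (nat_lit 4) (nat_lit 7) (nat_lit 5) (nat_lit 139) (nat_lit 22) r1_139 r7_22 (nat_lit 0) (nat_lit 0) (nat_lit 0) (nat_lit 0x78d44382f4) (nat_lit 3519833616),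
  Rx.mk (nat_lit 511) (nat_lit 7) (nat_lit 7) (nat_lit 7) (nat_lit 7) (nat_lit 140) (nat_lit 23) r1_140 r7_23 (nat_lit 0) (nat_lit 0) (nat_lit 0) (nat_lit 0x7d782dbfac) (nat_lit 1242130032)]
noncomputable def e21_26 : List Rx := [
  Rx.mk (nat_lit 484) (nat_lit 4) (nat_lit 4) (nat_lit 7) (nat_lit 4) (nat_lit 161) (nat_lit 96) r1_161 r9_96 (nat_lit 0) (nat_lit 0) (nat_lit 0) (nat_lit 0x6ef8548bc0) (nat_lit 8359213824),
  Rx.mk (nat_lit 487) (nat_lit 7) (nat_lit 4) (nat_lit 7) (nat_lit 5) (nat_lit 164) (nat_lit 97) r1_164 r9_97 (nat_lit 0) (nat_lit 0) (nat_lit 0) (nat_lit 0x7303d06ff6) (nat_lit 6373780920),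
  Rx.mk (nat_lit 500) (nat_lit 4) (nat_lit 6) (nat_lit 7) (nat_lit 6) (nat_lit 162) (nat_lit 98) r1_162 r9_98 (nat_lit 0) (nat_lit 0) (nat_lit 0) (nat_lit 0x7d8f13d134) (nat_lit 1198224144),
  Rx.mk (nat_lit 502) (nat_lit 6) (nat_lit 6) (nat_lit 7) (nat_lit 7) (nat_lit 163) (nat_lit 100) r1_163 r9_100 (nat_lit 0) (nat_lit 0) (nat_lit 0) (nat_lit 0x7dfc5f3c10) (nat_lit 988663104),
  Rx.mk (nat_lit 503) (nat_lit 7) (nat_lit 6) (nat_lit 7) (nat_lit 7) (nat_lit 165) (nat_lit 99) r1_165 r9_99 (nat_lit 0) (nat_lit 0) (nat_lit 0) (nat_lit 0x7da7a24834) (nat_lit 1151139600)]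
noncomputable def e21_27 : List Rx := [
  Rx.mk (nat_lit 228) (nat_lit 4) (nat_lit 4) (nat_lit 3) (nat_lit 4) (nat_lit 237) (nat_lit 108) r1_237 r10_108 (nat_lit 0) (nat_lit 0) (nat_lit 0) (nat_lit 0x6afa16f398) (nat_lit 10319253984),
  Rx.mk (nat_lit 231) (nat_lit 7) (nat_lit 4) (nat_lit 3) (nat_lit 5) (nat_lit 238) (nat_lit 109) r1_238 r10_109 (nat_lit 0) (nat_lit 0) (nat_lit 0) (nat_lit 0x7dd597a8b0) (nat_lit 1063018944),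
  Rx.mk (nat_lit 255) (nat_lit 7) (nat_lit 7) (nat_lit 3) (nat_lit 7) (nat_lit 239) (nat_lit 110) r1_239 r10_110 (nat_lit 0) (nat_lit 0) (nat_lit 0) (nat_lit 0x7de4773aa8) (nat_lit 1034500896),
  Rx.mk (nat_lit 484) (nat_lit 4) (nat_lit 4) (nat_lit 7) (nat_lit 4) (nat_lit 234) (nat_lit 107) r1_234 r10_107 (nat_lit 0) (nat_lit 0) (nat_lit 0) (nat_lit 0x79f253e0d0) (nat_lit 2971335744),
  Rx.mk (nat_lit 500) (nat_lit 4) (nat_lit 6) (nat_lit 7) (nat_lit 6) (nat_lit 235) (nat_lit 111) r1_235 r10_111 (nat_lit 0) (nat_lit 0) (nat_lit 0) (nat_lit 0x7de322cff0) (nat_lit 1037050560),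
  Rx.mk (nat_lit 502) (nat_lit 6) (nat_lit 6) (nat_lit 7) (nat_lit 7) (nat_lit 236) (nat_lit 112) r1_236 r10_112 (nat_lit 0) (nat_lit 0) (nat_lit 0) (nat_lit 0x7e36429da0) (nat_lit 877668480)]
noncomputable def e21_28 : List Rx := [
  Rx.mk (nat_lit 111) (nat_lit 7) (nat_lit 5) (nat_lit 1) (nat_lit 7) (nat_lit 309) (nat_lit 338) r1_309 r10_338 (nat_lit 0) (nat_lit 0) (nat_lit 0) (nat_lit 0x7df8d574b0) (nat_lit 995447232)]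
noncomputable def e21_29 : List Rx := [
  Rx.mk (nat_lit 43) (nat_lit 3) (nat_lit 5) (nat_lit 0) (nat_lit 3) (nat_lit 88) (nat_lit 57) r1_88 r5_57 (nat_lit 0) (nat_lit 0) (nat_lit 0) (nat_lit 0x7e6bb54640) (nat_lit 775187712),
  Rx.mk (nat_lit 235) (nat_lit 3) (nat_lit 5) (nat_lit 3) (nat_lit 7) (nat_lit 90) (nat_lit 58) r1_90 r5_58 (nat_lit 0) (nat_lit 0) (nat_lit 0) (nat_lit 0x7e406c7af8) (nat_lit 858180960),
  Rx.mk (nat_lit 239) (nat_lit 7) (nat_lit 5) (nat_lit 3) (nat_lit 7) (nat_lit 89) (nat_lit 56) r1_89 r5_56 (nat_lit 0) (nat_lit 0) (nat_lit 0) (nat_lit 0x7f31e242aa) (nat_lit 395206344)]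
noncomputable def e21_30 : List Rx := [
  Rx.mk (nat_lit 487) (nat_lit 7) (nat_lit 4) (nat_lit 7) (nat_lit 5) (nat_lit 166) (nat_lit 2) r1_166 r10_2 (nat_lit 0) (nat_lit 0) (nat_lit 0) (nat_lit 0x7d62cfd5a0) (nat_lit 1283098752),
  Rx.mk (nat_lit 495) (nat_lit 7) (nat_lit 5) (nat_lit 7) (nat_lit 7) (nat_lit 167) (nat_lit 3) r1_167 r10_3 (nat_lit 0) (nat_lit 0) (nat_lit 0) (nat_lit 0x7dfa55bcaa) (nat_lit 992569032),
  Rx.mk (nat_lit 503) (nat_lit 7) (nat_lit 6) (nat_lit 7) (nat_lit 7) (nat_lit 168) (nat_lit 4) r1_168 r10_4 (nat_lit 0) (nat_lit 0) (nat_lit 0) (nat_lit 0x7ddc34bed8) (nat_lit 1050338016)]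
noncomputable def e21_31 : List Rx := [
  Rx.mk (nat_lit 43) (nat_lit 3) (nat_lit 5) (nat_lit 0) (nat_lit 3) (nat_lit 241) (nat_lit 298) r1_241 r5_298 (nat_lit 0) (nat_lit 0) (nat_lit 0) (nat_lit 0x7ecf8b287e) (nat_lit 583763544),
  Rx.mk (nat_lit 47) (nat_lit 7) (nat_lit 5) (nat_lit 0) (nat_lit 3) (nat_lit 240) (nat_lit 299) r1_240 r5_299 (nat_lit 0) (nat_lit 0) (nat_lit 0) (nat_lit 0x7f67c7a41e) (nat_lit 291866328)]
noncomputable def e21_32 : List Rx := [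
  Rx.mk (nat_lit 43) (nat_lit 3) (nat_lit 5) (nat_lit 0) (nat_lit 3) (nat_lit 250) (nat_lit 176) r1_250 r11_176 (nat_lit 0) (nat_lit 0) (nat_lit 0) (nat_lit 0x7e7e4b3cce) (nat_lit 739551384),
  Rx.mk (nat_lit 47) (nat_lit 7) (nat_lit 5) (nat_lit 0) (nat_lit 3) (nat_lit 249) (nat_lit 177) r1_249 r11_177 (nat_lit 0) (nat_lit 0) (nat_lit 0) (nat_lit 0x7fd9fb0076) (nat_lit 72898488),
  Rx.mk (nat_lit 239) (nat_lit 7) (nat_lit 5) (nat_lit 3) (nat_lit 7) (nat_lit 251) (nat_lit 178) r1_251 r11_178 (nat_lit 0) (nat_lit 0) (nat_lit 0) (nat_lit 0x7f3f574b4c) (nat_lit 369403632)]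
noncomputable def e21_33 : List Rx := [
  Rx.mk (nat_lit 11) (nat_lit 3) (nat_lit 1) (nat_lit 0) (nat_lit 3) (nat_lit 69) (nat_lit 76) r1_69 r0_76 (nat_lit 0) (nat_lit 0) (nat_lit 0) (nat_lit 0x7d345c1d0a) (nat_lit 1372165704),
  Rx.mk (nat_lit 136) (nat_lit 0) (nat_lit 1) (nat_lit 2) (nat_lit 6) (nat_lit 70) (nat_lit 75) r1_70 r0_75 (nat_lit 0) (nat_lit 0) (nat_lit 0) (nat_lit 0x7de3d424da) (nat_lit 1035722376),
  Rx.mk (nat_lit 139) (nat_lit 3) (nat_lit 1) (nat_lit 2) (nat_lit 7) (nat_lit 71) (nat_lit 78) r1_71 r0_78 (nat_lit 0) (nat_lit 0) (nat_lit 0) (nat_lit 0x7ea4197fc4) (nat_lit 667062864),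
  Rx.mk (nat_lit 203) (nat_lit 3) (nat_lit 1) (nat_lit 3) (nat_lit 7) (nat_lit 72) (nat_lit 77) r1_72 r0_77 (nat_lit 0) (nat_lit 0) (nat_lit 0) (nat_lit 0x7d7df4633c) (nat_lit 1231055280)]
noncomputable def e21_34 : List Rx := [
  Rx.mk (nat_lit 8) (nat_lit 0) (nat_lit 1) (nat_lit 0) (nat_lit 2) (nat_lit 180) (nat_lit 265) r1_180 r0_265 (nat_lit 0) (nat_lit 0) (nat_lit 0) (nat_lit 0x5c4ea51962) (nat_lit 17519929128),
  Rx.mk (nat_lit 9) (nat_lit 1) (nat_lit 1) (nat_lit 0) (nat_lit 3) (nat_lit 182) (nat_lit 266) r1_182 r0_266 (nat_lit 0) (nat_lit 0) (nat_lit 0) (nat_lit 0x77997950d2) (nat_lit 4123410408),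
  Rx.mk (nat_lit 11) (nat_lit 3) (nat_lit 1) (nat_lit 0) (nat_lit 3) (nat_lit 183) (nat_lit 267) r1_183 r0_267 (nat_lit 0) (nat_lit 0) (nat_lit 0) (nat_lit 0x7389907370) (nat_lit 6117329088),
  Rx.mk (nat_lit 40) (nat_lit 0) (nat_lit 5) (nat_lit 0) (nat_lit 2) (nat_lit 179) (nat_lit 269) r1_179 r0_269 (nat_lit 0) (nat_lit 0) (nat_lit 0) (nat_lit 0x7fe711eefa) (nat_lit 47800584),
  Rx.mk (nat_lit 41) (nat_lit 1) (nat_lit 5) (nat_lit 0) (nat_lit 3) (nat_lit 181) (nat_lit 270) r1_181 r0_270 (nat_lit 0) (nat_lit 0) (nat_lit 0) (nat_lit 0x7a861a03da) (nat_lit 2687994504),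
  Rx.mk (nat_lit 203) (nat_lit 3) (nat_lit 1) (nat_lit 3) (nat_lit 7) (nat_lit 184) (nat_lit 268) r1_184 r0_268 (nat_lit 0) (nat_lit 0) (nat_lit 0) (nat_lit 0x6ddb0661c0) (nat_lit 8906257152)]
noncomputable def e21_35 : List Rx := [
  Rx.mk (nat_lit 8) (nat_lit 0) (nat_lit 1) (nat_lit 0) (nat_lit 2) (nat_lit 192) (nat_lit 64) r1_192 r6_64 (nat_lit 0) (nat_lit 0) (nat_lit 0) (nat_lit 0x722130dad2) (nat_lit 6808307688),
  Rx.mk (nat_lit 9) (nat_lit 1) (nat_lit 1) (nat_lit 0) (nat_lit 3) (nat_lit 193) (nat_lit 66) r1_193 r6_66 (nat_lit 0) (nat_lit 0) (nat_lit 0) (nat_lit 0x7d814b2dcc) (nat_lit 1224653040),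
  Rx.mk (nat_lit 11) (nat_lit 3) (nat_lit 1) (nat_lit 0) (nat_lit 3) (nat_lit 194) (nat_lit 68) r1_194 r6_68 (nat_lit 0) (nat_lit 0) (nat_lit 0) (nat_lit 0x7dcda1a818) (nat_lit 1078283232),
  Rx.mk (nat_lit 136) (nat_lit 0) (nat_lit 1) (nat_lit 2) (nat_lit 6) (nat_lit 195) (nat_lit 65) r1_195 r6_65 (nat_lit 0) (nat_lit 0) (nat_lit 0) (nat_lit 0x7d8beb23c2) (nat_lit 1204281000),
  Rx.mk (nat_lit 137) (nat_lit 1) (nat_lit 1) (nat_lit 2) (nat_lit 7) (nat_lit 196) (nat_lit 67) r1_196 r6_67 (nat_lit 0) (nat_lit 0) (nat_lit 0) (nat_lit 0x7df3680b8c) (nat_lit 1005853680),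
  Rx.mk (nat_lit 139) (nat_lit 3) (nat_lit 1) (nat_lit 2) (nat_lit 7) (nat_lit 197) (nat_lit 70) r1_197 r6_70 (nat_lit 0) (nat_lit 0) (nat_lit 0) (nat_lit 0x7dd2126108) (nat_lit 1069769376),
  Rx.mk (nat_lit 203) (nat_lit 3) (nat_lit 1) (nat_lit 3) (nat_lit 7) (nat_lit 198) (nat_lit 69) r1_198 r6_69 (nat_lit 0) (nat_lit 0) (nat_lit 0) (nat_lit 0x7d43cb4608) (nat_lit 1342572192)]
noncomputable def e21_36 : List Rx := [
  Rx.mk (nat_lit 9) (nat_lit 1) (nat_lit 1) (nat_lit 0) (nat_lit 3) (nat_lit 282) (nat_lit 295) r1_282 r2_295 (nat_lit 0) (nat_lit 0) (nat_lit 0) (nat_lit 0x7d8d92694c) (nat_lit 1201110768),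
  Rx.mk (nat_lit 41) (nat_lit 1) (nat_lit 5) (nat_lit 0) (nat_lit 3) (nat_lit 281) (nat_lit 297) r1_281 r2_297 (nat_lit 0) (nat_lit 0) (nat_lit 0) (nat_lit 0x7dda1280fe) (nat_lit 1054429272),
  Rx.mk (nat_lit 45) (nat_lit 5) (nat_lit 5) (nat_lit 0) (nat_lit 3) (nat_lit 280) (nat_lit 298) r1_280 r2_298 (nat_lit 0) (nat_lit 0) (nat_lit 0) (nat_lit 0x7dd800c21c) (nat_lit 1058396976),
  Rx.mk (nat_lit 73) (nat_lit 1) (nat_lit 1) (nat_lit 1) (nat_lit 7) (nat_lit 285) (nat_lit 296) r1_285 r2_296 (nat_lit 0) (nat_lit 0) (nat_lit 0) (nat_lit 0x7df759ac6e) (nat_lit 998291736),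
  Rx.mk (nat_lit 105) (nat_lit 1) (nat_lit 5) (nat_lit 1) (nat_lit 7) (nat_lit 284) (nat_lit 299) r1_284 r2_299 (nat_lit 0) (nat_lit 0) (nat_lit 0) (nat_lit 0x7dd891d90a) (nat_lit 1057310280),
  Rx.mk (nat_lit 109) (nat_lit 5) (nat_lit 5) (nat_lit 1) (nat_lit 7) (nat_lit 283) (nat_lit 300) r1_283 r2_300 (nat_lit 0) (nat_lit 0) (nat_lit 0) (nat_lit 0x7df5d6c49e) (nat_lit 1001189592)]
noncomputable def e21_37 : List Rx := [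
  Rx.mk (nat_lit 9) (nat_lit 1) (nat_lit 1) (nat_lit 0) (nat_lit 3) (nat_lit 290) (nat_lit 286) r1_290 r8_286 (nat_lit 0) (nat_lit 0) (nat_lit 0) (nat_lit 0x7d689cd8ca) (nat_lit 1271976264),
  Rx.mk (nat_lit 73) (nat_lit 1) (nat_lit 1) (nat_lit 1) (nat_lit 7) (nat_lit 291) (nat_lit 287) r1_291 r8_287 (nat_lit 0) (nat_lit 0) (nat_lit 0) (nat_lit 0x7de70451d4) (nat_lit 1029609360),
  Rx.mk (nat_lit 137) (nat_lit 1) (nat_lit 1) (nat_lit 2) (nat_lit 7) (nat_lit 292) (nat_lit 288) r1_292 r8_288 (nat_lit 0) (nat_lit 0) (nat_lit 0) (nat_lit 0x7df1630bde) (nat_lit 1009725912)]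
noncomputable def e21_38 : List Rx := [
  Rx.mk (nat_lit 73) (nat_lit 1) (nat_lit 1) (nat_lit 1) (nat_lit 7) (nat_lit 289) (nat_lit 292) r1_289 r8_292 (nat_lit 0) (nat_lit 0) (nat_lit 0) (nat_lit 0x7de85cdc4a) (nat_lit 1027028808),
  Rx.mk (nat_lit 105) (nat_lit 1) (nat_lit 5) (nat_lit 1) (nat_lit 7) (nat_lit 288) (nat_lit 291) r1_288 r8_291 (nat_lit 0) (nat_lit 0) (nat_lit 0) (nat_lit 0x7de6571ca8) (nat_lit 1030906656),
  Rx.mk (nat_lit 109) (nat_lit 5) (nat_lit 5) (nat_lit 1) (nat_lit 7) (nat_lit 287) (nat_lit 290) r1_287 r8_290 (nat_lit 0) (nat_lit 0) (nat_lit 0) (nat_lit 0x7deadc744e) (nat_lit 1022238360)]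
noncomputable def e21_39 : List Rx := [
  Rx.mk (nat_lit 9) (nat_lit 1) (nat_lit 1) (nat_lit 0) (nat_lit 3) (nat_lit 186) (nat_lit 272) r1_186 r1_272 (nat_lit 0) (nat_lit 0) (nat_lit 0) (nat_lit 0x7dbb600c44) (nat_lit 1113287760),
  Rx.mk (nat_lit 41) (nat_lit 1) (nat_lit 5) (nat_lit 0) (nat_lit 3) (nat_lit 185) (nat_lit 273) r1_185 r1_273 (nat_lit 0) (nat_lit 0) (nat_lit 0) (nat_lit 0x7db8bf7650) (nat_lit 1118325312)]
noncomputable def e21_40 : List Rx := [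
  Rx.mk (nat_lit 9) (nat_lit 1) (nat_lit 1) (nat_lit 0) (nat_lit 3) (nat_lit 199) (nat_lit 66) r1_199 r7_66 (nat_lit 0) (nat_lit 0) (nat_lit 0) (nat_lit 0x7d80f19366) (nat_lit 1225324152),
  Rx.mk (nat_lit 137) (nat_lit 1) (nat_lit 1) (nat_lit 2) (nat_lit 7) (nat_lit 200) (nat_lit 67) r1_200 r7_67 (nat_lit 0) (nat_lit 0) (nat_lit 0) (nat_lit 0x7df471daee) (nat_lit 1003862808)]
noncomputable def e21_41 : List Rx := [
  Rx.mk (nat_lit 3) (nat_lit 3) (nat_lit 0) (nat_lit 0) (nat_lit 1) (nat_lit 73) (nat_lit 75) r1_73 r1_75 (nat_lit 0) (nat_lit 0) (nat_lit 0) (nat_lit 0x762c24a78a) (nat_lit 4823894088),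
  Rx.mk (nat_lit 11) (nat_lit 3) (nat_lit 1) (nat_lit 0) (nat_lit 3) (nat_lit 74) (nat_lit 76) r1_74 r1_76 (nat_lit 0) (nat_lit 0) (nat_lit 0) (nat_lit 0x7df46bdb4e) (nat_lit 1003907736),
  Rx.mk (nat_lit 128) (nat_lit 0) (nat_lit 0) (nat_lit 2) (nat_lit 4) (nat_lit 75) (nat_lit 73) r1_75 r1_73 (nat_lit 0) (nat_lit 0) (nat_lit 0) (nat_lit 0x762c24a78a) (nat_lit 4823894088),
  Rx.mk (nat_lit 130) (nat_lit 2) (nat_lit 0) (nat_lit 2) (nat_lit 5) (nat_lit 77) (nat_lit 82) r1_77 r1_82 (nat_lit 0) (nat_lit 0) (nat_lit 0) (nat_lit 0x7d3afc3302) (nat_lit 1359462312),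
  Rx.mk (nat_lit 131) (nat_lit 3) (nat_lit 0) (nat_lit 2) (nat_lit 5) (nat_lit 80) (nat_lit 80) r1_80 r1_80 (nat_lit 0) (nat_lit 0) (nat_lit 0) (nat_lit 0x7e4e579c38) (nat_lit 831493728),
  Rx.mk (nat_lit 136) (nat_lit 0) (nat_lit 1) (nat_lit 2) (nat_lit 6) (nat_lit 76) (nat_lit 74) r1_76 r1_74 (nat_lit 0) (nat_lit 0) (nat_lit 0) (nat_lit 0x7df46bdb4e) (nat_lit 1003907736),
  Rx.mk (nat_lit 138) (nat_lit 2) (nat_lit 1) (nat_lit 2) (nat_lit 7) (nat_lit 78) (nat_lit 83) r1_78 r1_83 (nat_lit 0) (nat_lit 0) (nat_lit 0) (nat_lit 0x7deae81394) (nat_lit 1022151312),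
  Rx.mk (nat_lit 139) (nat_lit 3) (nat_lit 1) (nat_lit 2) (nat_lit 7) (nat_lit 81) (nat_lit 81) r1_81 r1_81 (nat_lit 0) (nat_lit 0) (nat_lit 0) (nat_lit 0x7e40235f8a) (nat_lit 858728520),
  Rx.mk (nat_lit 146) (nat_lit 2) (nat_lit 2) (nat_lit 2) (nat_lit 7) (nat_lit 79) (nat_lit 84) r1_79 r1_84 (nat_lit 0) (nat_lit 0) (nat_lit 0) (nat_lit 0x7df79428c6) (nat_lit 997853688),
  Rx.mk (nat_lit 195) (nat_lit 3) (nat_lit 0) (nat_lit 3) (nat_lit 5) (nat_lit 82) (nat_lit 77) r1_82 r1_77 (nat_lit 0) (nat_lit 0) (nat_lit 0) (nat_lit 0x7d3afc3302) (nat_lit 1359462312),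
  Rx.mk (nat_lit 203) (nat_lit 3) (nat_lit 1) (nat_lit 3) (nat_lit 7) (nat_lit 83) (nat_lit 78) r1_83 r1_78 (nat_lit 0) (nat_lit 0) (nat_lit 0) (nat_lit 0x7deae81394) (nat_lit 1022151312),
  Rx.mk (nat_lit 219) (nat_lit 3) (nat_lit 3) (nat_lit 3) (nat_lit 7) (nat_lit 84) (nat_lit 79) r1_84 r1_79 (nat_lit 0) (nat_lit 0) (nat_lit 0) (nat_lit 0x7df79428c6) (nat_lit 997853688)]
noncomputable def e21_42 : List Rx := [
  Rx.mk (nat_lit 3) (nat_lit 3) (nat_lit 0) (nat_lit 0) (nat_lit 1) (nat_lit 31) (nat_lit 76) r1_31 r2_76 (nat_lit 0) (nat_lit 0) (nat_lit 0) (nat_lit 0x68c0f427fe) (nat_lit 11410512984),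
  Rx.mk (nat_lit 27) (nat_lit 3) (nat_lit 3) (nat_lit 0) (nat_lit 3) (nat_lit 32) (nat_lit 77) r1_32 r2_77 (nat_lit 0) (nat_lit 0) (nat_lit 0) (nat_lit 0x7d4e539d78) (nat_lit 1322377056),
  Rx.mk (nat_lit 128) (nat_lit 0) (nat_lit 0) (nat_lit 2) (nat_lit 4) (nat_lit 33) (nat_lit 75) r1_33 r2_75 (nat_lit 0) (nat_lit 0) (nat_lit 0) (nat_lit 0x70f45ca942) (nat_lit 7385115816),
  Rx.mk (nat_lit 130) (nat_lit 2) (nat_lit 0) (nat_lit 2) (nat_lit 5) (nat_lit 34) (nat_lit 82) r1_34 r2_82 (nat_lit 0) (nat_lit 0) (nat_lit 0) (nat_lit 0x7d5dee43be) (nat_lit 1292457816),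
  Rx.mk (nat_lit 131) (nat_lit 3) (nat_lit 0) (nat_lit 2) (nat_lit 5) (nat_lit 36) (nat_lit 79) r1_36 r2_79 (nat_lit 0) (nat_lit 0) (nat_lit 0) (nat_lit 0x7e35c32598) (nat_lit 878623200),
  Rx.mk (nat_lit 146) (nat_lit 2) (nat_lit 2) (nat_lit 2) (nat_lit 7) (nat_lit 35) (nat_lit 83) r1_35 r2_83 (nat_lit 0) (nat_lit 0) (nat_lit 0) (nat_lit 0x7dad1d3080) (nat_lit 1140632064),
  Rx.mk (nat_lit 155) (nat_lit 3) (nat_lit 3) (nat_lit 2) (nat_lit 7) (nat_lit 37) (nat_lit 80) r1_37 r2_80 (nat_lit 0) (nat_lit 0) (nat_lit 0) (nat_lit 0x7de79fe81a) (nat_lit 1028444040),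
  Rx.mk (nat_lit 219) (nat_lit 3) (nat_lit 3) (nat_lit 3) (nat_lit 7) (nat_lit 38) (nat_lit 78) r1_38 r2_78 (nat_lit 0) (nat_lit 0) (nat_lit 0) (nat_lit 0x7dd4655bd6) (nat_lit 1065313080),
  Rx.mk (nat_lit 402) (nat_lit 2) (nat_lit 2) (nat_lit 6) (nat_lit 7) (nat_lit 30) (nat_lit 81) r1_30 r2_81 (nat_lit 0) (nat_lit 0) (nat_lit 0) (nat_lit 0x7de7ede33a) (nat_lit 1027859976)]
noncomputable def e21_43 : List Rx := [
  Rx.mk (nat_lit 0) (nat_lit 0) (nat_lit 0) (nat_lit 0) (nat_lit 0) (nat_lit 201) (nat_lit 283) r1_201 r7_283 (nat_lit 0) (nat_lit 0) (nat_lit 0) (nat_lit 0x34358c330c) (nat_lit 37202186736),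
  Rx.mk (nat_lit 3) (nat_lit 3) (nat_lit 0) (nat_lit 0) (nat_lit 1) (nat_lit 204) (nat_lit 284) r1_204 r7_284 (nat_lit 0) (nat_lit 0) (nat_lit 0) (nat_lit 0x689c4c929c) (nat_lit 11480794416),
  Rx.mk (nat_lit 8) (nat_lit 0) (nat_lit 1) (nat_lit 0) (nat_lit 2) (nat_lit 202) (nat_lit 289) r1_202 r7_289 (nat_lit 0) (nat_lit 0) (nat_lit 0) (nat_lit 0x694567a042) (nat_lit 11156551848),
  Rx.mk (nat_lit 9) (nat_lit 1) (nat_lit 1) (nat_lit 0) (nat_lit 3) (nat_lit 203) (nat_lit 290) r1_203 r7_290 (nat_lit 0) (nat_lit 0) (nat_lit 0) (nat_lit 0x7d333feece) (nat_lit 1374294168),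
  Rx.mk (nat_lit 11) (nat_lit 3) (nat_lit 1) (nat_lit 0) (nat_lit 3) (nat_lit 205) (nat_lit 291) r1_205 r7_291 (nat_lit 0) (nat_lit 0) (nat_lit 0) (nat_lit 0x7d4016c154) (nat_lit 1349676432),
  Rx.mk (nat_lit 128) (nat_lit 0) (nat_lit 0) (nat_lit 2) (nat_lit 4) (nat_lit 206) (nat_lit 286) r1_206 r7_286 (nat_lit 0) (nat_lit 0) (nat_lit 0) (nat_lit 0x6ddf3cfe52) (nat_lit 8898178536),
  Rx.mk (nat_lit 130) (nat_lit 2) (nat_lit 0) (nat_lit 2) (nat_lit 5) (nat_lit 209) (nat_lit 288) r1_209 r7_288 (nat_lit 0) (nat_lit 0) (nat_lit 0) (nat_lit 0x7de4743ad8) (nat_lit 1034523360),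
  Rx.mk (nat_lit 131) (nat_lit 3) (nat_lit 0) (nat_lit 2) (nat_lit 5) (nat_lit 212) (nat_lit 287) r1_212 r7_287 (nat_lit 0) (nat_lit 0) (nat_lit 0) (nat_lit 0x7db4c29622) (nat_lit 1125971496),
  Rx.mk (nat_lit 136) (nat_lit 0) (nat_lit 1) (nat_lit 2) (nat_lit 6) (nat_lit 207) (nat_lit 293) r1_207 r7_293 (nat_lit 0) (nat_lit 0) (nat_lit 0) (nat_lit 0x7c8fc726fe) (nat_lit 1687734360),
  Rx.mk (nat_lit 137) (nat_lit 1) (nat_lit 1) (nat_lit 2) (nat_lit 7) (nat_lit 208) (nat_lit 294) r1_208 r7_294 (nat_lit 0) (nat_lit 0) (nat_lit 0) (nat_lit 0x7db7bde66a) (nat_lit 1120254408),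
  Rx.mk (nat_lit 138) (nat_lit 2) (nat_lit 1) (nat_lit 2) (nat_lit 7) (nat_lit 210) (nat_lit 296) r1_210 r7_296 (nat_lit 0) (nat_lit 0) (nat_lit 0) (nat_lit 0x7dd2f1d310) (nat_lit 1068095808),
  Rx.mk (nat_lit 139) (nat_lit 3) (nat_lit 1) (nat_lit 2) (nat_lit 7) (nat_lit 213) (nat_lit 295) r1_213 r7_295 (nat_lit 0) (nat_lit 0) (nat_lit 0) (nat_lit 0x7db90e3164) (nat_lit 1117735632),
  Rx.mk (nat_lit 146) (nat_lit 2) (nat_lit 2) (nat_lit 2) (nat_lit 7) (nat_lit 211) (nat_lit 298) r1_211 r7_298 (nat_lit 0) (nat_lit 0) (nat_lit 0) (nat_lit 0x7deaa7f796) (nat_lit 1022631480),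
  Rx.mk (nat_lit 195) (nat_lit 3) (nat_lit 0) (nat_lit 3) (nat_lit 5) (nat_lit 214) (nat_lit 285) r1_214 r7_285 (nat_lit 0) (nat_lit 0) (nat_lit 0) (nat_lit 0x5d3c3f5ed0) (nat_lit 17064350784),
  Rx.mk (nat_lit 203) (nat_lit 3) (nat_lit 1) (nat_lit 3) (nat_lit 7) (nat_lit 215) (nat_lit 292) r1_215 r7_292 (nat_lit 0) (nat_lit 0) (nat_lit 0) (nat_lit 0x7c3cb238a0) (nat_lit 1847035008),
  Rx.mk (nat_lit 219) (nat_lit 3) (nat_lit 3) (nat_lit 3) (nat_lit 7) (nat_lit 216) (nat_lit 297) r1_216 r7_297 (nat_lit 0) (nat_lit 0) (nat_lit 0) (nat_lit 0x78ed89ae78) (nat_lit 3471373152)]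
noncomputable def e21_44 : List Rx := [
  Rx.mk (nat_lit 0) (nat_lit 0) (nat_lit 0) (nat_lit 0) (nat_lit 0) (nat_lit 170) (nat_lit 40) r1_170 r8_40 (nat_lit 0) (nat_lit 0) (nat_lit 0) (nat_lit 0x26a0315650) (nat_lit 43869653568),
  Rx.mk (nat_lit 3) (nat_lit 3) (nat_lit 0) (nat_lit 0) (nat_lit 1) (nat_lit 171) (nat_lit 42) r1_171 r8_42 (nat_lit 0) (nat_lit 0) (nat_lit 0) (nat_lit 0x6aa9b3da1a) (nat_lit 10473387912),
  Rx.mk (nat_lit 27) (nat_lit 3) (nat_lit 3) (nat_lit 0) (nat_lit 3) (nat_lit 172) (nat_lit 43) r1_172 r8_43 (nat_lit 0) (nat_lit 0) (nat_lit 0) (nat_lit 0x7ccbdaa58a) (nat_lit 1572544584),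
  Rx.mk (nat_lit 128) (nat_lit 0) (nat_lit 0) (nat_lit 2) (nat_lit 4) (nat_lit 173) (nat_lit 41) r1_173 r8_41 (nat_lit 0) (nat_lit 0) (nat_lit 0) (nat_lit 0x67ac0677ee) (nat_lit 11941494552),
  Rx.mk (nat_lit 130) (nat_lit 2) (nat_lit 0) (nat_lit 2) (nat_lit 5) (nat_lit 174) (nat_lit 48) r1_174 r8_48 (nat_lit 0) (nat_lit 0) (nat_lit 0) (nat_lit 0x7d65dd24c8) (nat_lit 1277246880),
  Rx.mk (nat_lit 131) (nat_lit 3) (nat_lit 0) (nat_lit 2) (nat_lit 5) (nat_lit 176) (nat_lit 45) r1_176 r8_45 (nat_lit 0) (nat_lit 0) (nat_lit 0) (nat_lit 0x7dc7b886b0) (nat_lit 1089616320),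
  Rx.mk (nat_lit 146) (nat_lit 2) (nat_lit 2) (nat_lit 2) (nat_lit 7) (nat_lit 175) (nat_lit 49) r1_175 r8_49 (nat_lit 0) (nat_lit 0) (nat_lit 0) (nat_lit 0x7dbc1ee056) (nat_lit 1111858488),
  Rx.mk (nat_lit 155) (nat_lit 3) (nat_lit 3) (nat_lit 2) (nat_lit 7) (nat_lit 177) (nat_lit 46) r1_177 r8_46 (nat_lit 0) (nat_lit 0) (nat_lit 0) (nat_lit 0x7de6d574c2) (nat_lit 1029960360),
  Rx.mk (nat_lit 219) (nat_lit 3) (nat_lit 3) (nat_lit 3) (nat_lit 7) (nat_lit 178) (nat_lit 44) r1_178 r8_44 (nat_lit 0) (nat_lit 0) (nat_lit 0) (nat_lit 0x7d9c4f7d6c) (nat_lit 1172851056),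
  Rx.mk (nat_lit 402) (nat_lit 2) (nat_lit 2) (nat_lit 6) (nat_lit 7) (nat_lit 169) (nat_lit 47) r1_169 r8_47 (nat_lit 0) (nat_lit 0) (nat_lit 0) (nat_lit 0x7df3ef031c) (nat_lit 1004842800)]
noncomputable def e21_45 : List Rx := [
  Rx.mk (nat_lit 402) (nat_lit 2) (nat_lit 2) (nat_lit 6) (nat_lit 7) (nat_lit 153) (nat_lit 1) r1_153 r8_1 (nat_lit 0) (nat_lit 0) (nat_lit 0) (nat_lit 0x7de94bad5c) (nat_lit 1025240112)]
noncomputable def e21_46 : List Rx := [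
  Rx.mk (nat_lit 11) (nat_lit 3) (nat_lit 1) (nat_lit 0) (nat_lit 3) (nat_lit 85) (nat_lit 71) r1_85 r4_71 (nat_lit 0) (nat_lit 0) (nat_lit 0) (nat_lit 0x7de3bb066c) (nat_lit 1035910512),
  Rx.mk (nat_lit 139) (nat_lit 3) (nat_lit 1) (nat_lit 2) (nat_lit 7) (nat_lit 86) (nat_lit 73) r1_86 r4_73 (nat_lit 0) (nat_lit 0) (nat_lit 0) (nat_lit 0x7eb127ced2) (nat_lit 642029544),
  Rx.mk (nat_lit 203) (nat_lit 3) (nat_lit 1) (nat_lit 3) (nat_lit 7) (nat_lit 87) (nat_lit 72) r1_87 r4_72 (nat_lit 0) (nat_lit 0) (nat_lit 0) (nat_lit 0x7df5700b0a) (nat_lit 1001958984)]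
noncomputable def e21_47 : List Rx := [
  Rx.mk (nat_lit 11) (nat_lit 3) (nat_lit 1) (nat_lit 0) (nat_lit 3) (nat_lit 190) (nat_lit 279) r1_190 r4_279 (nat_lit 0) (nat_lit 0) (nat_lit 0) (nat_lit 0x7deba2c7e8) (nat_lit 1020752928),
  Rx.mk (nat_lit 40) (nat_lit 0) (nat_lit 5) (nat_lit 0) (nat_lit 2) (nat_lit 187) (nat_lit 281) r1_187 r4_281 (nat_lit 0) (nat_lit 0) (nat_lit 0) (nat_lit 0x680620b5f0) (nat_lit 11768732352),
  Rx.mk (nat_lit 41) (nat_lit 1) (nat_lit 5) (nat_lit 0) (nat_lit 3) (nat_lit 188) (nat_lit 282) r1_188 r4_282 (nat_lit 0) (nat_lit 0) (nat_lit 0) (nat_lit 0x7cc75d8d60) (nat_lit 1581151104),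
  Rx.mk (nat_lit 43) (nat_lit 3) (nat_lit 5) (nat_lit 0) (nat_lit 3) (nat_lit 189) (nat_lit 283) r1_189 r4_283 (nat_lit 0) (nat_lit 0) (nat_lit 0) (nat_lit 0x79612a93f6) (nat_lit 3249667512),
  Rx.mk (nat_lit 203) (nat_lit 3) (nat_lit 1) (nat_lit 3) (nat_lit 7) (nat_lit 191) (nat_lit 280) r1_191 r4_280 (nat_lit 0) (nat_lit 0) (nat_lit 0) (nat_lit 0x7965ed07ca) (nat_lit 3240541512)]
noncomputable def e21_48 : List Rx := [
  Rx.mk (nat_lit 11) (nat_lit 3) (nat_lit 1) (nat_lit 0) (nat_lit 3) (nat_lit 217) (nat_lit 49) r1_217 r9_49 (nat_lit 0) (nat_lit 0) (nat_lit 0) (nat_lit 0x7c9f940a20) (nat_lit 1657438848),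
  Rx.mk (nat_lit 139) (nat_lit 3) (nat_lit 1) (nat_lit 2) (nat_lit 7) (nat_lit 218) (nat_lit 51) r1_218 r9_51 (nat_lit 0) (nat_lit 0) (nat_lit 0) (nat_lit 0x7de940ce0a) (nat_lit 1025321544),
  Rx.mk (nat_lit 203) (nat_lit 3) (nat_lit 1) (nat_lit 3) (nat_lit 7) (nat_lit 219) (nat_lit 50) r1_219 r9_50 (nat_lit 0) (nat_lit 0) (nat_lit 0) (nat_lit 0x7e4c769a4a) (nat_lit 835096392)]
noncomputable def e21_49 : List Rx := [
  Rx.mk (nat_lit 40) (nat_lit 0) (nat_lit 5) (nat_lit 0) (nat_lit 2) (nat_lit 220) (nat_lit 41) r1_220 r10_41 (nat_lit 0) (nat_lit 0) (nat_lit 0) (nat_lit 0x6745aa3e18) (nat_lit 12137759712),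
  Rx.mk (nat_lit 41) (nat_lit 1) (nat_lit 5) (nat_lit 0) (nat_lit 3) (nat_lit 221) (nat_lit 42) r1_221 r10_42 (nat_lit 0) (nat_lit 0) (nat_lit 0) (nat_lit 0x7dd2d19514) (nat_lit 1068337296),
  Rx.mk (nat_lit 43) (nat_lit 3) (nat_lit 5) (nat_lit 0) (nat_lit 3) (nat_lit 222) (nat_lit 43) r1_222 r10_43 (nat_lit 0) (nat_lit 0) (nat_lit 0) (nat_lit 0x7dc1f662d8) (nat_lit 1100657376),
  Rx.mk (nat_lit 203) (nat_lit 3) (nat_lit 1) (nat_lit 3) (nat_lit 7) (nat_lit 224) (nat_lit 45) r1_224 r10_45 (nat_lit 0) (nat_lit 0) (nat_lit 0) (nat_lit 0x7de11ef030) (nat_lit 1040914368),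
  Rx.mk (nat_lit 235) (nat_lit 3) (nat_lit 5) (nat_lit 3) (nat_lit 7) (nat_lit 223) (nat_lit 44) r1_223 r10_44 (nat_lit 0) (nat_lit 0) (nat_lit 0) (nat_lit 0x7e5b3e8dbc) (nat_lit 806755248)]
noncomputable def e21_50 : List Rx := [
  Rx.mk (nat_lit 11) (nat_lit 3) (nat_lit 1) (nat_lit 0) (nat_lit 3) (nat_lit 244) (nat_lit 333) r1_244 r10_333 (nat_lit 0) (nat_lit 0) (nat_lit 0) (nat_lit 0x7dc4b676d4) (nat_lit 1095383952),
  Rx.mk (nat_lit 139) (nat_lit 3) (nat_lit 1) (nat_lit 2) (nat_lit 7) (nat_lit 245) (nat_lit 334) r1_245 r10_334 (nat_lit 0) (nat_lit 0) (nat_lit 0) (nat_lit 0x7e352a8f22) (nat_lit 879766056)]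
noncomputable def e21_51 : List Rx := [
  Rx.mk (nat_lit 44) (nat_lit 4) (nat_lit 5) (nat_lit 0) (nat_lit 2) (nat_lit 310) (nat_lit 164) r1_310 r12_164 (nat_lit 0) (nat_lit 0) (nat_lit 0) (nat_lit 0x776b6e91ac) (nat_lit 4211691120),
  Rx.mk (nat_lit 47) (nat_lit 7) (nat_lit 5) (nat_lit 0) (nat_lit 3) (nat_lit 311) (nat_lit 167) r1_311 r12_167 (nat_lit 0) (nat_lit 0) (nat_lit 0) (nat_lit 0x7e69f1827e) (nat_lit 778571352),
  Rx.mk (nat_lit 108) (nat_lit 4) (nat_lit 5) (nat_lit 1) (nat_lit 6) (nat_lit 312) (nat_lit 165) r1_312 r12_165 (nat_lit 0) (nat_lit 0) (nat_lit 0) (nat_lit 0x7da1e863d8) (nat_lit 1162118880),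
  Rx.mk (nat_lit 111) (nat_lit 7) (nat_lit 5) (nat_lit 1) (nat_lit 7) (nat_lit 313) (nat_lit 168) r1_313 r12_168 (nat_lit 0) (nat_lit 0) (nat_lit 0) (nat_lit 0x7db533cf0e) (nat_lit 1125123480),
  Rx.mk (nat_lit 236) (nat_lit 4) (nat_lit 5) (nat_lit 3) (nat_lit 6) (nat_lit 314) (nat_lit 166) r1_314 r12_166 (nat_lit 0) (nat_lit 0) (nat_lit 0) (nat_lit 0x7decb6b6a8) (nat_lit 1018686240)]
noncomputable def e21_52 : List Rx := [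
  Rx.mk (nat_lit 228) (nat_lit 4) (nat_lit 4) (nat_lit 3) (nat_lit 4) (nat_lit 229) (nat_lit 107) r1_229 r12_107 (nat_lit 0) (nat_lit 0) (nat_lit 0) (nat_lit 0x71c5b3f2fc) (nat_lit 6983726256),
  Rx.mk (nat_lit 231) (nat_lit 7) (nat_lit 4) (nat_lit 3) (nat_lit 5) (nat_lit 231) (nat_lit 108) r1_231 r12_108 (nat_lit 0) (nat_lit 0) (nat_lit 0) (nat_lit 0x7d8932ef48) (nat_lit 1209495456),
  Rx.mk (nat_lit 236) (nat_lit 4) (nat_lit 5) (nat_lit 3) (nat_lit 6) (nat_lit 230) (nat_lit 110) r1_230 r12_110 (nat_lit 0) (nat_lit 0) (nat_lit 0) (nat_lit 0x7dfcd1f4e4) (nat_lit 987803856),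
  Rx.mk (nat_lit 239) (nat_lit 7) (nat_lit 5) (nat_lit 3) (nat_lit 7) (nat_lit 232) (nat_lit 111) r1_232 r12_111 (nat_lit 0) (nat_lit 0) (nat_lit 0) (nat_lit 0x7e706b5ada) (nat_lit 766154376),
  Rx.mk (nat_lit 255) (nat_lit 7) (nat_lit 7) (nat_lit 3) (nat_lit 7) (nat_lit 233) (nat_lit 112) r1_233 r12_112 (nat_lit 0) (nat_lit 0) (nat_lit 0) (nat_lit 0x7dda421e04) (nat_lit 1054072656),
  Rx.mk (nat_lit 484) (nat_lit 4) (nat_lit 4) (nat_lit 7) (nat_lit 4) (nat_lit 225) (nat_lit 106) r1_225 r12_106 (nat_lit 0) (nat_lit 0) (nat_lit 0) (nat_lit 0x8000000000) (nat_lit 0),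
  Rx.mk (nat_lit 492) (nat_lit 4) (nat_lit 5) (nat_lit 7) (nat_lit 6) (nat_lit 226) (nat_lit 109) r1_226 r12_109 (nat_lit 0) (nat_lit 0) (nat_lit 0) (nat_lit 0x7eb6a736d6) (nat_lit 631488312),
  Rx.mk (nat_lit 500) (nat_lit 4) (nat_lit 6) (nat_lit 7) (nat_lit 6) (nat_lit 227) (nat_lit 113) r1_227 r12_113 (nat_lit 0) (nat_lit 0) (nat_lit 0) (nat_lit 0x7dc65abc8e) (nat_lit 1092236184),
  Rx.mk (nat_lit 502) (nat_lit 6) (nat_lit 6) (nat_lit 7) (nat_lit 7) (nat_lit 228) (nat_lit 114) r1_228 r12_114 (nat_lit 0) (nat_lit 0) (nat_lit 0) (nat_lit 0x7d334cae02) (nat_lit 1374198696)]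
noncomputable def e21_53 : List Rx := [
  Rx.mk (nat_lit 47) (nat_lit 7) (nat_lit 5) (nat_lit 0) (nat_lit 3) (nat_lit 302) (nat_lit 273) r1_302 r12_273 (nat_lit 0) (nat_lit 0) (nat_lit 0) (nat_lit 0x7e59f0e298) (nat_lit 809254368),
  Rx.mk (nat_lit 111) (nat_lit 7) (nat_lit 5) (nat_lit 1) (nat_lit 7) (nat_lit 303) (nat_lit 274) r1_303 r12_274 (nat_lit 0) (nat_lit 0) (nat_lit 0) (nat_lit 0x7d5c1b80ec) (nat_lit 1295953776)]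
noncomputable def e21_54 : List Rx := [
  Rx.mk (nat_lit 227) (nat_lit 3) (nat_lit 4) (nat_lit 3) (nat_lit 5) (nat_lit 63) (nat_lit 6) r1_63 r12_6 (nat_lit 0) (nat_lit 0) (nat_lit 0) (nat_lit 0x7a1cc1b9c8) (nat_lit 2889982368),
  Rx.mk (nat_lit 231) (nat_lit 7) (nat_lit 4) (nat_lit 3) (nat_lit 5) (nat_lit 61) (nat_lit 9) r1_61 r12_9 (nat_lit 0) (nat_lit 0) (nat_lit 0) (nat_lit 0x7a959c4ba6) (nat_lit 2658257784),
  Rx.mk (nat_lit 235) (nat_lit 3) (nat_lit 5) (nat_lit 3) (nat_lit 7) (nat_lit 64) (nat_lit 7) r1_64 r12_7 (nat_lit 0) (nat_lit 0) (nat_lit 0) (nat_lit 0x7e3ee0f3b2) (nat_lit 861143400),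
  Rx.mk (nat_lit 239) (nat_lit 7) (nat_lit 5) (nat_lit 3) (nat_lit 7) (nat_lit 62) (nat_lit 10) r1_62 r12_10 (nat_lit 0) (nat_lit 0) (nat_lit 0) (nat_lit 0x7effe88278) (nat_lit 491029344),
  Rx.mk (nat_lit 251) (nat_lit 3) (nat_lit 7) (nat_lit 3) (nat_lit 7) (nat_lit 65) (nat_lit 8) r1_65 r12_8 (nat_lit 0) (nat_lit 0) (nat_lit 0) (nat_lit 0x7c03ca075c) (nat_lit 1956148272),
  Rx.mk (nat_lit 487) (nat_lit 7) (nat_lit 4) (nat_lit 7) (nat_lit 5) (nat_lit 58) (nat_lit 11) r1_58 r12_11 (nat_lit 0) (nat_lit 0) (nat_lit 0) (nat_lit 0x76758bd0ce) (nat_lit 4683151512),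
  Rx.mk (nat_lit 495) (nat_lit 7) (nat_lit 5) (nat_lit 7) (nat_lit 7) (nat_lit 59) (nat_lit 12) r1_59 r12_12 (nat_lit 0) (nat_lit 0) (nat_lit 0) (nat_lit 0x7e4f838978) (nat_lit 829247328),
  Rx.mk (nat_lit 503) (nat_lit 7) (nat_lit 6) (nat_lit 7) (nat_lit 7) (nat_lit 60) (nat_lit 13) r1_60 r12_13 (nat_lit 0) (nat_lit 0) (nat_lit 0) (nat_lit 0x7d35e3e48c) (nat_lit 1369231344)]
noncomputable def e21_55 : List Rx := [
  Rx.mk (nat_lit 11) (nat_lit 3) (nat_lit 1) (nat_lit 0) (nat_lit 3) (nat_lit 67) (nat_lit 67) r1_67 r3_67 (nat_lit 0) (nat_lit 0) (nat_lit 0) (nat_lit 0x7cedd90582) (nat_lit 1507365288),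
  Rx.mk (nat_lit 43) (nat_lit 3) (nat_lit 5) (nat_lit 0) (nat_lit 3) (nat_lit 66) (nat_lit 66) r1_66 r3_66 (nat_lit 0) (nat_lit 0) (nat_lit 0) (nat_lit 0x8000000000) (nat_lit 0),
  Rx.mk (nat_lit 203) (nat_lit 3) (nat_lit 1) (nat_lit 3) (nat_lit 7) (nat_lit 68) (nat_lit 68) r1_68 r3_68 (nat_lit 0) (nat_lit 0) (nat_lit 0) (nat_lit 0x7c2bd226b2) (nat_lit 1879391592)]
noncomputable def e21_56 : List Rx := [
  Rx.mk (nat_lit 43) (nat_lit 3) (nat_lit 5) (nat_lit 0) (nat_lit 3) (nat_lit 91) (nat_lit 63) r1_91 r12_63 (nat_lit 0) (nat_lit 0) (nat_lit 0) (nat_lit 0x7a1ced3710) (nat_lit 2889656640),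
  Rx.mk (nat_lit 203) (nat_lit 3) (nat_lit 1) (nat_lit 3) (nat_lit 7) (nat_lit 93) (nat_lit 65) r1_93 r12_65 (nat_lit 0) (nat_lit 0) (nat_lit 0) (nat_lit 0x7e7f436d4a) (nat_lit 737692488),
  Rx.mk (nat_lit 235) (nat_lit 3) (nat_lit 5) (nat_lit 3) (nat_lit 7) (nat_lit 92) (nat_lit 64) r1_92 r12_64 (nat_lit 0) (nat_lit 0) (nat_lit 0) (nat_lit 0x7adb1c5360) (nat_lit 2524998528)]
noncomputable def e21_57 : List Rx := [
  Rx.mk (nat_lit 11) (nat_lit 3) (nat_lit 1) (nat_lit 0) (nat_lit 3) (nat_lit 243) (nat_lit 267) r1_243 r12_267 (nat_lit 0) (nat_lit 0) (nat_lit 0) (nat_lit 0x7d19eca41c) (nat_lit 1422852912),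
  Rx.mk (nat_lit 43) (nat_lit 3) (nat_lit 5) (nat_lit 0) (nat_lit 3) (nat_lit 242) (nat_lit 268) r1_242 r12_268 (nat_lit 0) (nat_lit 0) (nat_lit 0) (nat_lit 0x8000000000) (nat_lit 0)]
noncomputable def e21 : List (List Rx) := [e21_0, e21_1, e21_2, e21_3, e21_4, e21_5, e21_6, e21_7, e21_8, e21_9, e21_10, e21_11, e21_12, e21_13, e21_14, e21_15, e21_16, e21_17, e21_18, e21_19, e21_20, e21_21, e21_22, e21_23, e21_24, e21_25, e21_26, e21_27, e21_28, e21_29, e21_30, e21_31, e21_32, e21_33, e21_34, e21_35, e21_36, e21_37, e21_38, e21_39, e21_40, e21_41, e21_42, e21_43, e21_44, e21_45, e21_46, e21_47, e21_48, e21_49, e21_50, e21_51, e21_52, e21_53, e21_54, e21_55, e21_56, e21_57]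
noncomputable def e22_0 : List Rx := [
  Rx.mk (nat_lit 100) (nat_lit 4) (nat_lit 4) (nat_lit 1) (nat_lit 4) (nat_lit 262) (nat_lit 174) r4_262 r0_174 (nat_lit 0) (nat_lit 0) (nat_lit 0) (nat_lit 0x67e873f0da) (nat_lit 11825630856),
  Rx.mk (nat_lit 108) (nat_lit 4) (nat_lit 5) (nat_lit 1) (nat_lit 6) (nat_lit 263) (nat_lit 175) r4_263 r0_175 (nat_lit 0) (nat_lit 0) (nat_lit 0) (nat_lit 0x7e1f5bcc24) (nat_lit 921579984),
  Rx.mk (nat_lit 116) (nat_lit 4) (nat_lit 6) (nat_lit 1) (nat_lit 6) (nat_lit 264) (nat_lit 176) r4_264 r0_176 (nat_lit 0) (nat_lit 0) (nat_lit 0) (nat_lit 0x75d49f6036) (nat_lit 4991705784)]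
noncomputable def e22_1 : List Rx := [
  Rx.mk (nat_lit 100) (nat_lit 4) (nat_lit 4) (nat_lit 1) (nat_lit 4) (nat_lit 281) (nat_lit 187) r4_281 r1_187 (nat_lit 0) (nat_lit 0) (nat_lit 0) (nat_lit 0x680620b5f0) (nat_lit 11768732352),
  Rx.mk (nat_lit 108) (nat_lit 4) (nat_lit 5) (nat_lit 1) (nat_lit 6) (nat_lit 282) (nat_lit 188) r4_282 r1_188 (nat_lit 0) (nat_lit 0) (nat_lit 0) (nat_lit 0x7cc75d8d60) (nat_lit 1581151104),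
  Rx.mk (nat_lit 116) (nat_lit 4) (nat_lit 6) (nat_lit 1) (nat_lit 6) (nat_lit 283) (nat_lit 189) r4_283 r1_189 (nat_lit 0) (nat_lit 0) (nat_lit 0) (nat_lit 0x79612a93f6) (nat_lit 3249667512),
  Rx.mk (nat_lit 372) (nat_lit 4) (nat_lit 6) (nat_lit 5) (nat_lit 6) (nat_lit 279) (nat_lit 190) r4_279 r1_190 (nat_lit 0) (nat_lit 0) (nat_lit 0) (nat_lit 0x7deba2c7e8) (nat_lit 1020752928),
  Rx.mk (nat_lit 374) (nat_lit 6) (nat_lit 6) (nat_lit 5) (nat_lit 7) (nat_lit 280) (nat_lit 191) r4_280 r1_191 (nat_lit 0) (nat_lit 0) (nat_lit 0) (nat_lit 0x7965ed07ca) (nat_lit 3240541512)]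
noncomputable def e22_2 : List Rx := [
  Rx.mk (nat_lit 372) (nat_lit 4) (nat_lit 6) (nat_lit 5) (nat_lit 6) (nat_lit 271) (nat_lit 187) r4_271 r2_187 (nat_lit 0) (nat_lit 0) (nat_lit 0) (nat_lit 0x7dd5e96394) (nat_lit 1062406800),
  Rx.mk (nat_lit 374) (nat_lit 6) (nat_lit 6) (nat_lit 5) (nat_lit 7) (nat_lit 272) (nat_lit 188) r4_272 r2_188 (nat_lit 0) (nat_lit 0) (nat_lit 0) (nat_lit 0x7de99d6840) (nat_lit 1024627968)]
noncomputable def e22_3 : List Rx := [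
  Rx.mk (nat_lit 36) (nat_lit 4) (nat_lit 4) (nat_lit 0) (nat_lit 0) (nat_lit 315) (nat_lit 152) r4_315 r3_152 (nat_lit 0) (nat_lit 0) (nat_lit 0) (nat_lit 0x72d96d1656) (nat_lit 6455055672),
  Rx.mk (nat_lit 39) (nat_lit 7) (nat_lit 4) (nat_lit 0) (nat_lit 1) (nat_lit 318) (nat_lit 158) r4_318 r3_158 (nat_lit 0) (nat_lit 0) (nat_lit 0) (nat_lit 0x7a41dba804) (nat_lit 2818844496),
  Rx.mk (nat_lit 44) (nat_lit 4) (nat_lit 5) (nat_lit 0) (nat_lit 2) (nat_lit 316) (nat_lit 154) r4_316 r3_154 (nat_lit 0) (nat_lit 0) (nat_lit 0) (nat_lit 0x790eef77fa) (nat_lit 3407336712),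
  Rx.mk (nat_lit 47) (nat_lit 7) (nat_lit 5) (nat_lit 0) (nat_lit 3) (nat_lit 319) (nat_lit 160) r4_319 r3_160 (nat_lit 0) (nat_lit 0) (nat_lit 0) (nat_lit 0x7e0ef89268) (nat_lit 953001504),
  Rx.mk (nat_lit 52) (nat_lit 4) (nat_lit 6) (nat_lit 0) (nat_lit 2) (nat_lit 317) (nat_lit 156) r4_317 r3_156 (nat_lit 0) (nat_lit 0) (nat_lit 0) (nat_lit 0x79c6919d20) (nat_lit 3055238784),
  Rx.mk (nat_lit 55) (nat_lit 7) (nat_lit 6) (nat_lit 0) (nat_lit 3) (nat_lit 320) (nat_lit 162) r4_320 r3_162 (nat_lit 0) (nat_lit 0) (nat_lit 0) (nat_lit 0x7c8fa6290e) (nat_lit 1687981464),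
  Rx.mk (nat_lit 100) (nat_lit 4) (nat_lit 4) (nat_lit 1) (nat_lit 4) (nat_lit 321) (nat_lit 153) r4_321 r3_153 (nat_lit 0) (nat_lit 0) (nat_lit 0) (nat_lit 0x7824867f74) (nat_lit 3856793616),
  Rx.mk (nat_lit 103) (nat_lit 7) (nat_lit 4) (nat_lit 1) (nat_lit 5) (nat_lit 324) (nat_lit 159) r4_324 r3_159 (nat_lit 0) (nat_lit 0) (nat_lit 0) (nat_lit 0x7e5e87d924) (nat_lit 800454096),
  Rx.mk (nat_lit 108) (nat_lit 4) (nat_lit 5) (nat_lit 1) (nat_lit 6) (nat_lit 322) (nat_lit 155) r4_322 r3_155 (nat_lit 0) (nat_lit 0) (nat_lit 0) (nat_lit 0x7cbf2d1070) (nat_lit 1596853440),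
  Rx.mk (nat_lit 111) (nat_lit 7) (nat_lit 5) (nat_lit 1) (nat_lit 7) (nat_lit 325) (nat_lit 161) r4_325 r3_161 (nat_lit 0) (nat_lit 0) (nat_lit 0) (nat_lit 0x7eb281d930) (nat_lit 639437760),
  Rx.mk (nat_lit 116) (nat_lit 4) (nat_lit 6) (nat_lit 1) (nat_lit 6) (nat_lit 323) (nat_lit 157) r4_323 r3_157 (nat_lit 0) (nat_lit 0) (nat_lit 0) (nat_lit 0x7cb07e3b6c) (nat_lit 1625006448),
  Rx.mk (nat_lit 119) (nat_lit 7) (nat_lit 6) (nat_lit 1) (nat_lit 7) (nat_lit 326) (nat_lit 163) r4_326 r3_163 (nat_lit 0) (nat_lit 0) (nat_lit 0) (nat_lit 0x7ea6169ff0) (nat_lit 663249600)]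
noncomputable def e22_4 : List Rx := [
  Rx.mk (nat_lit 100) (nat_lit 4) (nat_lit 4) (nat_lit 1) (nat_lit 4) (nat_lit 349) (nat_lit 161) r4_349 r4_161 (nat_lit 0) (nat_lit 0) (nat_lit 0) (nat_lit 0x73692e19b6) (nat_lit 6179422392),
  Rx.mk (nat_lit 103) (nat_lit 7) (nat_lit 4) (nat_lit 1) (nat_lit 5) (nat_lit 352) (nat_lit 164) r4_352 r4_164 (nat_lit 0) (nat_lit 0) (nat_lit 0) (nat_lit 0x7e9dbce594) (nat_lit 679260816),
  Rx.mk (nat_lit 108) (nat_lit 4) (nat_lit 5) (nat_lit 1) (nat_lit 6) (nat_lit 350) (nat_lit 162) r4_350 r4_162 (nat_lit 0) (nat_lit 0) (nat_lit 0) (nat_lit 0x7e146cbb20) (nat_lit 942544512),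
  Rx.mk (nat_lit 111) (nat_lit 7) (nat_lit 5) (nat_lit 1) (nat_lit 7) (nat_lit 353) (nat_lit 165) r4_353 r4_165 (nat_lit 0) (nat_lit 0) (nat_lit 0) (nat_lit 0x7e61448d56) (nat_lit 795205944),
  Rx.mk (nat_lit 116) (nat_lit 4) (nat_lit 6) (nat_lit 1) (nat_lit 6) (nat_lit 351) (nat_lit 163) r4_351 r4_163 (nat_lit 0) (nat_lit 0) (nat_lit 0) (nat_lit 0x7e740fc090) (nat_lit 759170880),
  Rx.mk (nat_lit 119) (nat_lit 7) (nat_lit 6) (nat_lit 1) (nat_lit 7) (nat_lit 354) (nat_lit 166) r4_354 r4_166 (nat_lit 0) (nat_lit 0) (nat_lit 0) (nat_lit 0x7e69115082) (nat_lit 780250536)]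
noncomputable def e22_5 : List Rx := [
  Rx.mk (nat_lit 59) (nat_lit 3) (nat_lit 7) (nat_lit 0) (nat_lit 3) (nat_lit 34) (nat_lit 123) r4_34 r3_123 (nat_lit 0) (nat_lit 0) (nat_lit 0) (nat_lit 0x7f3136ed60) (nat_lit 396489600),
  Rx.mk (nat_lit 187) (nat_lit 3) (nat_lit 7) (nat_lit 2) (nat_lit 7) (nat_lit 35) (nat_lit 125) r4_35 r3_125 (nat_lit 0) (nat_lit 0) (nat_lit 0) (nat_lit 0x7f09322dd4) (nat_lit 473221008),
  Rx.mk (nat_lit 231) (nat_lit 7) (nat_lit 4) (nat_lit 3) (nat_lit 5) (nat_lit 36) (nat_lit 121) r4_36 r3_121 (nat_lit 0) (nat_lit 0) (nat_lit 0) (nat_lit 0x7db0793abc) (nat_lit 1134190512),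
  Rx.mk (nat_lit 247) (nat_lit 7) (nat_lit 6) (nat_lit 3) (nat_lit 7) (nat_lit 37) (nat_lit 128) r4_37 r3_128 (nat_lit 0) (nat_lit 0) (nat_lit 0) (nat_lit 0x7eb5bf2558) (nat_lit 633226464),
  Rx.mk (nat_lit 251) (nat_lit 3) (nat_lit 7) (nat_lit 3) (nat_lit 7) (nat_lit 39) (nat_lit 124) r4_39 r3_124 (nat_lit 0) (nat_lit 0) (nat_lit 0) (nat_lit 0x7e65b0c68e) (nat_lit 786725784),
  Rx.mk (nat_lit 255) (nat_lit 7) (nat_lit 7) (nat_lit 3) (nat_lit 7) (nat_lit 38) (nat_lit 122) r4_38 r3_122 (nat_lit 0) (nat_lit 0) (nat_lit 0) (nat_lit 0x7e2eabd714) (nat_lit 892219536),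
  Rx.mk (nat_lit 500) (nat_lit 4) (nat_lit 6) (nat_lit 7) (nat_lit 6) (nat_lit 31) (nat_lit 126) r4_31 r3_126 (nat_lit 0) (nat_lit 0) (nat_lit 0) (nat_lit 0x7ffbd9e266) (nat_lit 7955064),
  Rx.mk (nat_lit 502) (nat_lit 6) (nat_lit 6) (nat_lit 7) (nat_lit 7) (nat_lit 32) (nat_lit 129) r4_32 r3_129 (nat_lit 0) (nat_lit 0) (nat_lit 0) (nat_lit 0x7ae6c7f89a) (nat_lit 2502621576),
  Rx.mk (nat_lit 503) (nat_lit 7) (nat_lit 6) (nat_lit 7) (nat_lit 7) (nat_lit 33) (nat_lit 127) r4_33 r3_127 (nat_lit 0) (nat_lit 0) (nat_lit 0) (nat_lit 0x7e68443d54) (nat_lit 781786512)]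
noncomputable def e22_6 : List Rx := [
  Rx.mk (nat_lit 308) (nat_lit 4) (nat_lit 6) (nat_lit 4) (nat_lit 2) (nat_lit 93) (nat_lit 142) r4_93 r0_142 (nat_lit 0) (nat_lit 0) (nat_lit 0) (nat_lit 0x71b7297bb2) (nat_lit 7011606888),
  Rx.mk (nat_lit 310) (nat_lit 6) (nat_lit 6) (nat_lit 4) (nat_lit 3) (nat_lit 94) (nat_lit 145) r4_94 r0_145 (nat_lit 0) (nat_lit 0) (nat_lit 0) (nat_lit 0x7bb2a1ba32) (nat_lit 2111759208),
  Rx.mk (nat_lit 500) (nat_lit 4) (nat_lit 6) (nat_lit 7) (nat_lit 6) (nat_lit 95) (nat_lit 143) r4_95 r0_143 (nat_lit 0) (nat_lit 0) (nat_lit 0) (nat_lit 0x7ac67fdd3c) (nat_lit 2564518320),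
  Rx.mk (nat_lit 502) (nat_lit 6) (nat_lit 6) (nat_lit 7) (nat_lit 7) (nat_lit 96) (nat_lit 146) r4_96 r0_146 (nat_lit 0) (nat_lit 0) (nat_lit 0) (nat_lit 0x7e2f4f4cdc) (nat_lit 890995248),
  Rx.mk (nat_lit 503) (nat_lit 7) (nat_lit 6) (nat_lit 7) (nat_lit 7) (nat_lit 97) (nat_lit 144) r4_97 r0_144 (nat_lit 0) (nat_lit 0) (nat_lit 0) (nat_lit 0x7d94351f1a) (nat_lit 1188387720)]
noncomputable def e22_7 : List Rx := [
  Rx.mk (nat_lit 308) (nat_lit 4) (nat_lit 6) (nat_lit 4) (nat_lit 2) (nat_lit 107) (nat_lit 154) r4_107 r1_154 (nat_lit 0) (nat_lit 0) (nat_lit 0) (nat_lit 0x74634ad6f0) (nat_lit 5699858112),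
  Rx.mk (nat_lit 310) (nat_lit 6) (nat_lit 6) (nat_lit 4) (nat_lit 3) (nat_lit 108) (nat_lit 158) r4_108 r1_158 (nat_lit 0) (nat_lit 0) (nat_lit 0) (nat_lit 0x727dbfd186) (nat_lit 6630836472),
  Rx.mk (nat_lit 372) (nat_lit 4) (nat_lit 6) (nat_lit 5) (nat_lit 6) (nat_lit 109) (nat_lit 155) r4_109 r1_155 (nat_lit 0) (nat_lit 0) (nat_lit 0) (nat_lit 0x7dc2547cf6) (nat_lit 1099952568),
  Rx.mk (nat_lit 374) (nat_lit 6) (nat_lit 6) (nat_lit 5) (nat_lit 7) (nat_lit 110) (nat_lit 159) r4_110 r1_159 (nat_lit 0) (nat_lit 0) (nat_lit 0) (nat_lit 0x7dbbbc4680) (nat_lit 1112596992),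
  Rx.mk (nat_lit 500) (nat_lit 4) (nat_lit 6) (nat_lit 7) (nat_lit 6) (nat_lit 111) (nat_lit 156) r4_111 r1_156 (nat_lit 0) (nat_lit 0) (nat_lit 0) (nat_lit 0x7e11d58496) (nat_lit 947511864),
  Rx.mk (nat_lit 502) (nat_lit 6) (nat_lit 6) (nat_lit 7) (nat_lit 7) (nat_lit 112) (nat_lit 160) r4_112 r1_160 (nat_lit 0) (nat_lit 0) (nat_lit 0) (nat_lit 0x7dbe303f3e) (nat_lit 1107893592),
  Rx.mk (nat_lit 503) (nat_lit 7) (nat_lit 6) (nat_lit 7) (nat_lit 7) (nat_lit 113) (nat_lit 157) r4_113 r1_157 (nat_lit 0) (nat_lit 0) (nat_lit 0) (nat_lit 0x7df3f3e2ce) (nat_lit 1004806296)]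
noncomputable def e22_8 : List Rx := [
  Rx.mk (nat_lit 500) (nat_lit 4) (nat_lit 6) (nat_lit 7) (nat_lit 6) (nat_lit 131) (nat_lit 131) r4_131 r4_131 (nat_lit 0) (nat_lit 0) (nat_lit 0) (nat_lit 0x7e4c631b82) (nat_lit 835242408),
  Rx.mk (nat_lit 502) (nat_lit 6) (nat_lit 6) (nat_lit 7) (nat_lit 7) (nat_lit 132) (nat_lit 133) r4_132 r4_133 (nat_lit 0) (nat_lit 0) (nat_lit 0) (nat_lit 0x7e1048dd62) (nat_lit 950482728),
  Rx.mk (nat_lit 503) (nat_lit 7) (nat_lit 6) (nat_lit 7) (nat_lit 7) (nat_lit 133) (nat_lit 132) r4_133 r4_132 (nat_lit 0) (nat_lit 0) (nat_lit 0) (nat_lit 0x7e1048dd62) (nat_lit 950482728)]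
noncomputable def e22_9 : List Rx := [
  Rx.mk (nat_lit 39) (nat_lit 7) (nat_lit 4) (nat_lit 0) (nat_lit 1) (nat_lit 229) (nat_lit 186) r4_229 r5_186 (nat_lit 0) (nat_lit 0) (nat_lit 0) (nat_lit 0x71fe96849a) (nat_lit 6874655112),
  Rx.mk (nat_lit 47) (nat_lit 7) (nat_lit 5) (nat_lit 0) (nat_lit 3) (nat_lit 230) (nat_lit 188) r4_230 r5_188 (nat_lit 0) (nat_lit 0) (nat_lit 0) (nat_lit 0x7e314decf0) (nat_lit 887170752),
  Rx.mk (nat_lit 55) (nat_lit 7) (nat_lit 6) (nat_lit 0) (nat_lit 3) (nat_lit 231) (nat_lit 191) r4_231 r5_191 (nat_lit 0) (nat_lit 0) (nat_lit 0) (nat_lit 0x7e50b6f640) (nat_lit 826944768),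
  Rx.mk (nat_lit 59) (nat_lit 3) (nat_lit 7) (nat_lit 0) (nat_lit 3) (nat_lit 233) (nat_lit 181) r4_233 r5_181 (nat_lit 0) (nat_lit 0) (nat_lit 0) (nat_lit 0x7e5fadc6c4) (nat_lit 798252624),
  Rx.mk (nat_lit 63) (nat_lit 7) (nat_lit 7) (nat_lit 0) (nat_lit 3) (nat_lit 232) (nat_lit 190) r4_232 r5_190 (nat_lit 0) (nat_lit 0) (nat_lit 0) (nat_lit 0x7d90cfb574) (nat_lit 1194899472),
  Rx.mk (nat_lit 187) (nat_lit 3) (nat_lit 7) (nat_lit 2) (nat_lit 7) (nat_lit 234) (nat_lit 182) r4_234 r5_182 (nat_lit 0) (nat_lit 0) (nat_lit 0) (nat_lit 0x7ee10430dc) (nat_lit 550261296),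
  Rx.mk (nat_lit 228) (nat_lit 4) (nat_lit 4) (nat_lit 3) (nat_lit 4) (nat_lit 235) (nat_lit 183) r4_235 r5_183 (nat_lit 0) (nat_lit 0) (nat_lit 0) (nat_lit 0x729cb2c238) (nat_lit 6571495008),
  Rx.mk (nat_lit 231) (nat_lit 7) (nat_lit 4) (nat_lit 3) (nat_lit 5) (nat_lit 238) (nat_lit 187) r4_238 r5_187 (nat_lit 0) (nat_lit 0) (nat_lit 0) (nat_lit 0x7e7092b864) (nat_lit 765859536),
  Rx.mk (nat_lit 236) (nat_lit 4) (nat_lit 5) (nat_lit 3) (nat_lit 6) (nat_lit 236) (nat_lit 184) r4_236 r5_184 (nat_lit 0) (nat_lit 0) (nat_lit 0) (nat_lit 0x7d7961ec68) (nat_lit 1239821856),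
  Rx.mk (nat_lit 239) (nat_lit 7) (nat_lit 5) (nat_lit 3) (nat_lit 7) (nat_lit 239) (nat_lit 189) r4_239 r5_189 (nat_lit 0) (nat_lit 0) (nat_lit 0) (nat_lit 0x7e3b0f90cc) (nat_lit 868463856),
  Rx.mk (nat_lit 244) (nat_lit 4) (nat_lit 6) (nat_lit 3) (nat_lit 6) (nat_lit 237) (nat_lit 185) r4_237 r5_185 (nat_lit 0) (nat_lit 0) (nat_lit 0) (nat_lit 0x7e05ce051a) (nat_lit 970576776),
  Rx.mk (nat_lit 247) (nat_lit 7) (nat_lit 6) (nat_lit 3) (nat_lit 7) (nat_lit 240) (nat_lit 192) r4_240 r5_192 (nat_lit 0) (nat_lit 0) (nat_lit 0) (nat_lit 0x7e1ae6f376) (nat_lit 930124728)]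
noncomputable def e22_10 : List Rx := [
  Rx.mk (nat_lit 37) (nat_lit 5) (nat_lit 4) (nat_lit 0) (nat_lit 1) (nat_lit 253) (nat_lit 305) r4_253 r0_305 (nat_lit 0) (nat_lit 0) (nat_lit 0) (nat_lit 0x72ea26eaa8) (nat_lit 6422985504),
  Rx.mk (nat_lit 45) (nat_lit 5) (nat_lit 5) (nat_lit 0) (nat_lit 3) (nat_lit 254) (nat_lit 306) r4_254 r0_306 (nat_lit 0) (nat_lit 0) (nat_lit 0) (nat_lit 0x765dc16d8c) (nat_lit 4728767472),
  Rx.mk (nat_lit 53) (nat_lit 5) (nat_lit 6) (nat_lit 0) (nat_lit 3) (nat_lit 255) (nat_lit 307) r4_255 r0_307 (nat_lit 0) (nat_lit 0) (nat_lit 0) (nat_lit 0x7e1c8ad936) (nat_lit 926979768),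
  Rx.mk (nat_lit 100) (nat_lit 4) (nat_lit 4) (nat_lit 1) (nat_lit 4) (nat_lit 256) (nat_lit 308) r4_256 r0_308 (nat_lit 0) (nat_lit 0) (nat_lit 0) (nat_lit 0x6d9ecf456e) (nat_lit 9021713688),
  Rx.mk (nat_lit 101) (nat_lit 5) (nat_lit 4) (nat_lit 1) (nat_lit 5) (nat_lit 259) (nat_lit 309) r4_259 r0_309 (nat_lit 0) (nat_lit 0) (nat_lit 0) (nat_lit 0x7d715ecca2) (nat_lit 1255184424),
  Rx.mk (nat_lit 108) (nat_lit 4) (nat_lit 5) (nat_lit 1) (nat_lit 6) (nat_lit 257) (nat_lit 310) r4_257 r0_310 (nat_lit 0) (nat_lit 0) (nat_lit 0) (nat_lit 0x7da9e10446) (nat_lit 1146834936),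
  Rx.mk (nat_lit 109) (nat_lit 5) (nat_lit 5) (nat_lit 1) (nat_lit 7) (nat_lit 260) (nat_lit 311) r4_260 r0_311 (nat_lit 0) (nat_lit 0) (nat_lit 0) (nat_lit 0x7e65ac46d6) (nat_lit 786759480),
  Rx.mk (nat_lit 116) (nat_lit 4) (nat_lit 6) (nat_lit 1) (nat_lit 6) (nat_lit 258) (nat_lit 312) r4_258 r0_312 (nat_lit 0) (nat_lit 0) (nat_lit 0) (nat_lit 0x76d4fe194a) (nat_lit 4500142920),
  Rx.mk (nat_lit 117) (nat_lit 5) (nat_lit 6) (nat_lit 1) (nat_lit 7) (nat_lit 261) (nat_lit 313) r4_261 r0_313 (nat_lit 0) (nat_lit 0) (nat_lit 0) (nat_lit 0x7e5d9fc7a6) (nat_lit 802192248)]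
noncomputable def e22_11 : List Rx := [
  Rx.mk (nat_lit 100) (nat_lit 4) (nat_lit 4) (nat_lit 1) (nat_lit 4) (nat_lit 265) (nat_lit 223) r4_265 r6_223 (nat_lit 0) (nat_lit 0) (nat_lit 0) (nat_lit 0x735924da5a) (nat_lit 6210169992),
  Rx.mk (nat_lit 101) (nat_lit 5) (nat_lit 4) (nat_lit 1) (nat_lit 5) (nat_lit 268) (nat_lit 226) r4_268 r6_226 (nat_lit 0) (nat_lit 0) (nat_lit 0) (nat_lit 0x7db5f0c33e) (nat_lit 1123708248),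
  Rx.mk (nat_lit 108) (nat_lit 4) (nat_lit 5) (nat_lit 1) (nat_lit 6) (nat_lit 266) (nat_lit 224) r4_266 r6_224 (nat_lit 0) (nat_lit 0) (nat_lit 0) (nat_lit 0x7db466bbe0) (nat_lit 1126659456),
  Rx.mk (nat_lit 109) (nat_lit 5) (nat_lit 5) (nat_lit 1) (nat_lit 7) (nat_lit 269) (nat_lit 227) r4_269 r6_227 (nat_lit 0) (nat_lit 0) (nat_lit 0) (nat_lit 0x7dde701b20) (nat_lit 1046058624),
  Rx.mk (nat_lit 116) (nat_lit 4) (nat_lit 6) (nat_lit 1) (nat_lit 6) (nat_lit 267) (nat_lit 225) r4_267 r6_225 (nat_lit 0) (nat_lit 0) (nat_lit 0) (nat_lit 0x7d7cbb56ce) (nat_lit 1233399960),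
  Rx.mk (nat_lit 117) (nat_lit 5) (nat_lit 6) (nat_lit 1) (nat_lit 7) (nat_lit 270) (nat_lit 228) r4_270 r6_228 (nat_lit 0) (nat_lit 0) (nat_lit 0) (nat_lit 0x7deda7c796) (nat_lit 1016880696)]
noncomputable def e22_12 : List Rx := [
  Rx.mk (nat_lit 37) (nat_lit 5) (nat_lit 4) (nat_lit 0) (nat_lit 1) (nat_lit 293) (nat_lit 296) r4_293 r1_296 (nat_lit 0) (nat_lit 0) (nat_lit 0) (nat_lit 0x6a1ffcf612) (nat_lit 10737441000),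
  Rx.mk (nat_lit 45) (nat_lit 5) (nat_lit 5) (nat_lit 0) (nat_lit 3) (nat_lit 294) (nat_lit 297) r4_294 r1_297 (nat_lit 0) (nat_lit 0) (nat_lit 0) (nat_lit 0x7b9136b104) (nat_lit 2175834960),
  Rx.mk (nat_lit 53) (nat_lit 5) (nat_lit 6) (nat_lit 0) (nat_lit 3) (nat_lit 295) (nat_lit 298) r4_295 r1_298 (nat_lit 0) (nat_lit 0) (nat_lit 0) (nat_lit 0x7df1a98776) (nat_lit 1009198008),
  Rx.mk (nat_lit 101) (nat_lit 5) (nat_lit 4) (nat_lit 1) (nat_lit 5) (nat_lit 296) (nat_lit 299) r4_296 r1_299 (nat_lit 0) (nat_lit 0) (nat_lit 0) (nat_lit 0x7ce68fda1c) (nat_lit 1521335088),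
  Rx.mk (nat_lit 109) (nat_lit 5) (nat_lit 5) (nat_lit 1) (nat_lit 7) (nat_lit 297) (nat_lit 300) r4_297 r1_300 (nat_lit 0) (nat_lit 0) (nat_lit 0) (nat_lit 0x7e35b126b8) (nat_lit 878757984),
  Rx.mk (nat_lit 117) (nat_lit 5) (nat_lit 6) (nat_lit 1) (nat_lit 7) (nat_lit 298) (nat_lit 301) r4_298 r1_301 (nat_lit 0) (nat_lit 0) (nat_lit 0) (nat_lit 0x7db1b0c742) (nat_lit 1131857064)]
noncomputable def e22_13 : List Rx := [
  Rx.mk (nat_lit 101) (nat_lit 5) (nat_lit 4) (nat_lit 1) (nat_lit 5) (nat_lit 304) (nat_lit 181) r4_304 r7_181 (nat_lit 0) (nat_lit 0) (nat_lit 0) (nat_lit 0x7de112f0f0) (nat_lit 1041004224),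
  Rx.mk (nat_lit 109) (nat_lit 5) (nat_lit 5) (nat_lit 1) (nat_lit 7) (nat_lit 305) (nat_lit 182) r4_305 r7_182 (nat_lit 0) (nat_lit 0) (nat_lit 0) (nat_lit 0x7df79428c6) (nat_lit 997853688),
  Rx.mk (nat_lit 117) (nat_lit 5) (nat_lit 6) (nat_lit 1) (nat_lit 7) (nat_lit 306) (nat_lit 183) r4_306 r7_183 (nat_lit 0) (nat_lit 0) (nat_lit 0) (nat_lit 0x7df6d07502) (nat_lit 999319464)]
noncomputable def e22_14 : List Rx := [
  Rx.mk (nat_lit 100) (nat_lit 4) (nat_lit 4) (nat_lit 1) (nat_lit 4) (nat_lit 287) (nat_lit 341) r4_287 r7_341 (nat_lit 0) (nat_lit 0) (nat_lit 0) (nat_lit 0x5c57ff43b6) (nat_lit 17501997240),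
  Rx.mk (nat_lit 101) (nat_lit 5) (nat_lit 4) (nat_lit 1) (nat_lit 5) (nat_lit 290) (nat_lit 342) r4_290 r7_342 (nat_lit 0) (nat_lit 0) (nat_lit 0) (nat_lit 0x7d03f443b8) (nat_lit 1464978528),
  Rx.mk (nat_lit 108) (nat_lit 4) (nat_lit 5) (nat_lit 1) (nat_lit 6) (nat_lit 288) (nat_lit 343) r4_288 r7_343 (nat_lit 0) (nat_lit 0) (nat_lit 0) (nat_lit 0x7d836d6ba6) (nat_lit 1220561784),
  Rx.mk (nat_lit 109) (nat_lit 5) (nat_lit 5) (nat_lit 1) (nat_lit 7) (nat_lit 291) (nat_lit 344) r4_291 r7_344 (nat_lit 0) (nat_lit 0) (nat_lit 0) (nat_lit 0x7df0f9b274) (nat_lit 1010514960),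
  Rx.mk (nat_lit 116) (nat_lit 4) (nat_lit 6) (nat_lit 1) (nat_lit 6) (nat_lit 289) (nat_lit 345) r4_289 r7_345 (nat_lit 0) (nat_lit 0) (nat_lit 0) (nat_lit 0x7d43fd22ea) (nat_lit 1342198728),
  Rx.mk (nat_lit 117) (nat_lit 5) (nat_lit 6) (nat_lit 1) (nat_lit 7) (nat_lit 292) (nat_lit 346) r4_292 r7_346 (nat_lit 0) (nat_lit 0) (nat_lit 0) (nat_lit 0x7de07e1a3e) (nat_lit 1042119000),
  Rx.mk (nat_lit 372) (nat_lit 4) (nat_lit 6) (nat_lit 5) (nat_lit 6) (nat_lit 284) (nat_lit 338) r4_284 r7_338 (nat_lit 0) (nat_lit 0) (nat_lit 0) (nat_lit 0x7d63fb62e6) (nat_lit 1280855160),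
  Rx.mk (nat_lit 373) (nat_lit 5) (nat_lit 6) (nat_lit 5) (nat_lit 7) (nat_lit 285) (nat_lit 339) r4_285 r7_339 (nat_lit 0) (nat_lit 0) (nat_lit 0) (nat_lit 0x7de0ae173e) (nat_lit 1041759576),
  Rx.mk (nat_lit 374) (nat_lit 6) (nat_lit 6) (nat_lit 5) (nat_lit 7) (nat_lit 286) (nat_lit 340) r4_286 r7_340 (nat_lit 0) (nat_lit 0) (nat_lit 0) (nat_lit 0x7dec75dab6) (nat_lit 1019172024)]
noncomputable def e22_15 : List Rx := [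
  Rx.mk (nat_lit 372) (nat_lit 4) (nat_lit 6) (nat_lit 5) (nat_lit 6) (nat_lit 273) (nat_lit 167) r4_273 r8_167 (nat_lit 0) (nat_lit 0) (nat_lit 0) (nat_lit 0x7db654dcfc) (nat_lit 1122958512),
  Rx.mk (nat_lit 373) (nat_lit 5) (nat_lit 6) (nat_lit 5) (nat_lit 7) (nat_lit 274) (nat_lit 168) r4_274 r8_168 (nat_lit 0) (nat_lit 0) (nat_lit 0) (nat_lit 0x7de3238fe4) (nat_lit 1037044944),
  Rx.mk (nat_lit 374) (nat_lit 6) (nat_lit 6) (nat_lit 5) (nat_lit 7) (nat_lit 275) (nat_lit 169) r4_275 r8_169 (nat_lit 0) (nat_lit 0) (nat_lit 0) (nat_lit 0x7ddff0631a) (nat_lit 1043180424)]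
noncomputable def e22_16 : List Rx := [
  Rx.mk (nat_lit 36) (nat_lit 4) (nat_lit 4) (nat_lit 0) (nat_lit 0) (nat_lit 327) (nat_lit 327) r4_327 r4_327 (nat_lit 0) (nat_lit 0) (nat_lit 0) (nat_lit 0x60139186d6) (nat_lit 15669788472),
  Rx.mk (nat_lit 37) (nat_lit 5) (nat_lit 4) (nat_lit 0) (nat_lit 1) (nat_lit 330) (nat_lit 328) r4_330 r4_328 (nat_lit 0) (nat_lit 0) (nat_lit 0) (nat_lit 0x778fc9abd6) (nat_lit 4141982520),
  Rx.mk (nat_lit 39) (nat_lit 7) (nat_lit 4) (nat_lit 0) (nat_lit 1) (nat_lit 333) (nat_lit 329) r4_333 r4_329 (nat_lit 0) (nat_lit 0) (nat_lit 0) (nat_lit 0x7be34caf52) (nat_lit 2018443752),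
  Rx.mk (nat_lit 44) (nat_lit 4) (nat_lit 5) (nat_lit 0) (nat_lit 2) (nat_lit 328) (nat_lit 330) r4_328 r4_330 (nat_lit 0) (nat_lit 0) (nat_lit 0) (nat_lit 0x778fc9abd6) (nat_lit 4141982520),
  Rx.mk (nat_lit 45) (nat_lit 5) (nat_lit 5) (nat_lit 0) (nat_lit 3) (nat_lit 331) (nat_lit 331) r4_331 r4_331 (nat_lit 0) (nat_lit 0) (nat_lit 0) (nat_lit 0x7e24555c86) (nat_lit 912041208),
  Rx.mk (nat_lit 47) (nat_lit 7) (nat_lit 5) (nat_lit 0) (nat_lit 3) (nat_lit 334) (nat_lit 332) r4_334 r4_332 (nat_lit 0) (nat_lit 0) (nat_lit 0) (nat_lit 0x7e41ede2e0) (nat_lit 855294336),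
  Rx.mk (nat_lit 52) (nat_lit 4) (nat_lit 6) (nat_lit 0) (nat_lit 2) (nat_lit 329) (nat_lit 333) r4_329 r4_333 (nat_lit 0) (nat_lit 0) (nat_lit 0) (nat_lit 0x7be34caf52) (nat_lit 2018443752),
  Rx.mk (nat_lit 53) (nat_lit 5) (nat_lit 6) (nat_lit 0) (nat_lit 3) (nat_lit 332) (nat_lit 334) r4_332 r4_334 (nat_lit 0) (nat_lit 0) (nat_lit 0) (nat_lit 0x7e41ede2e0) (nat_lit 855294336),
  Rx.mk (nat_lit 100) (nat_lit 4) (nat_lit 4) (nat_lit 1) (nat_lit 4) (nat_lit 335) (nat_lit 335) r4_335 r4_335 (nat_lit 0) (nat_lit 0) (nat_lit 0) (nat_lit 0x7ad70354f4) (nat_lit 2532855312),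
  Rx.mk (nat_lit 101) (nat_lit 5) (nat_lit 4) (nat_lit 1) (nat_lit 5) (nat_lit 338) (nat_lit 336) r4_338 r4_336 (nat_lit 0) (nat_lit 0) (nat_lit 0) (nat_lit 0x7e3c95786c) (nat_lit 865543536),
  Rx.mk (nat_lit 103) (nat_lit 7) (nat_lit 4) (nat_lit 1) (nat_lit 5) (nat_lit 341) (nat_lit 337) r4_341 r4_337 (nat_lit 0) (nat_lit 0) (nat_lit 0) (nat_lit 0x7e4a6b3b02) (nat_lit 839016360),
  Rx.mk (nat_lit 108) (nat_lit 4) (nat_lit 5) (nat_lit 1) (nat_lit 6) (nat_lit 336) (nat_lit 338) r4_336 r4_338 (nat_lit 0) (nat_lit 0) (nat_lit 0) (nat_lit 0x7e3c95786c) (nat_lit 865543536),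
  Rx.mk (nat_lit 109) (nat_lit 5) (nat_lit 5) (nat_lit 1) (nat_lit 7) (nat_lit 339) (nat_lit 339) r4_339 r4_339 (nat_lit 0) (nat_lit 0) (nat_lit 0) (nat_lit 0x7dd9750ad6) (nat_lit 1055608632),
  Rx.mk (nat_lit 111) (nat_lit 7) (nat_lit 5) (nat_lit 1) (nat_lit 7) (nat_lit 342) (nat_lit 340) r4_342 r4_340 (nat_lit 0) (nat_lit 0) (nat_lit 0) (nat_lit 0x7de0cb556a) (nat_lit 1041540552),
  Rx.mk (nat_lit 116) (nat_lit 4) (nat_lit 6) (nat_lit 1) (nat_lit 6) (nat_lit 337) (nat_lit 341) r4_337 r4_341 (nat_lit 0) (nat_lit 0) (nat_lit 0) (nat_lit 0x7e4a6b3b02) (nat_lit 839016360),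
  Rx.mk (nat_lit 117) (nat_lit 5) (nat_lit 6) (nat_lit 1) (nat_lit 7) (nat_lit 340) (nat_lit 342) r4_340 r4_342 (nat_lit 0) (nat_lit 0) (nat_lit 0) (nat_lit 0x7de0cb556a) (nat_lit 1041540552)]
noncomputable def e22_17 : List Rx := [
  Rx.mk (nat_lit 100) (nat_lit 4) (nat_lit 4) (nat_lit 1) (nat_lit 4) (nat_lit 355) (nat_lit 175) r4_355 r9_175 (nat_lit 0) (nat_lit 0) (nat_lit 0) (nat_lit 0x79366ebfde) (nat_lit 3331604952),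
  Rx.mk (nat_lit 101) (nat_lit 5) (nat_lit 4) (nat_lit 1) (nat_lit 5) (nat_lit 358) (nat_lit 178) r4_358 r9_178 (nat_lit 0) (nat_lit 0) (nat_lit 0) (nat_lit 0x7ddad0951c) (nat_lit 1053005616),
  Rx.mk (nat_lit 103) (nat_lit 7) (nat_lit 4) (nat_lit 1) (nat_lit 5) (nat_lit 361) (nat_lit 181) r4_361 r9_181 (nat_lit 0) (nat_lit 0) (nat_lit 0) (nat_lit 0x7dbf61cc24) (nat_lit 1105605072),
  Rx.mk (nat_lit 108) (nat_lit 4) (nat_lit 5) (nat_lit 1) (nat_lit 6) (nat_lit 356) (nat_lit 176) r4_356 r9_176 (nat_lit 0) (nat_lit 0) (nat_lit 0) (nat_lit 0x7dac309f4a) (nat_lit 1142403912),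
  Rx.mk (nat_lit 109) (nat_lit 5) (nat_lit 5) (nat_lit 1) (nat_lit 7) (nat_lit 359) (nat_lit 179) r4_359 r9_179 (nat_lit 0) (nat_lit 0) (nat_lit 0) (nat_lit 0x7de7bc6652) (nat_lit 1028230632),
  Rx.mk (nat_lit 111) (nat_lit 7) (nat_lit 5) (nat_lit 1) (nat_lit 7) (nat_lit 362) (nat_lit 182) r4_362 r9_182 (nat_lit 0) (nat_lit 0) (nat_lit 0) (nat_lit 0x7de1a88796) (nat_lit 1039883832),
  Rx.mk (nat_lit 116) (nat_lit 4) (nat_lit 6) (nat_lit 1) (nat_lit 6) (nat_lit 357) (nat_lit 177) r4_357 r9_177 (nat_lit 0) (nat_lit 0) (nat_lit 0) (nat_lit 0x7dca67bbba) (nat_lit 1084469256),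
  Rx.mk (nat_lit 117) (nat_lit 5) (nat_lit 6) (nat_lit 1) (nat_lit 7) (nat_lit 360) (nat_lit 180) r4_360 r9_180 (nat_lit 0) (nat_lit 0) (nat_lit 0) (nat_lit 0x7dd0b316fe) (nat_lit 1072400472)]
noncomputable def e22_18 : List Rx := [
  Rx.mk (nat_lit 36) (nat_lit 4) (nat_lit 4) (nat_lit 0) (nat_lit 0) (nat_lit 381) (nat_lit 191) r4_381 r10_191 (nat_lit 0) (nat_lit 0) (nat_lit 0) (nat_lit 0x38e6b45bd8) (nat_lit 34899093216),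
  Rx.mk (nat_lit 37) (nat_lit 5) (nat_lit 4) (nat_lit 0) (nat_lit 1) (nat_lit 384) (nat_lit 199) r4_384 r10_199 (nat_lit 0) (nat_lit 0) (nat_lit 0) (nat_lit 0x7ba0e835dc) (nat_lit 2145744432),
  Rx.mk (nat_lit 39) (nat_lit 7) (nat_lit 4) (nat_lit 0) (nat_lit 1) (nat_lit 387) (nat_lit 207) r4_387 r10_207 (nat_lit 0) (nat_lit 0) (nat_lit 0) (nat_lit 0x7c3386eb5e) (nat_lit 1864615896),
  Rx.mk (nat_lit 44) (nat_lit 4) (nat_lit 5) (nat_lit 0) (nat_lit 2) (nat_lit 382) (nat_lit 194) r4_382 r10_194 (nat_lit 0) (nat_lit 0) (nat_lit 0) (nat_lit 0x7d28250088) (nat_lit 1395587232),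
  Rx.mk (nat_lit 45) (nat_lit 5) (nat_lit 5) (nat_lit 0) (nat_lit 3) (nat_lit 385) (nat_lit 202) r4_385 r10_202 (nat_lit 0) (nat_lit 0) (nat_lit 0) (nat_lit 0x7dce487daa) (nat_lit 1077033672),
  Rx.mk (nat_lit 47) (nat_lit 7) (nat_lit 5) (nat_lit 0) (nat_lit 3) (nat_lit 388) (nat_lit 209) r4_388 r10_209 (nat_lit 0) (nat_lit 0) (nat_lit 0) (nat_lit 0x7dcf0cf162) (nat_lit 1075562280),
  Rx.mk (nat_lit 52) (nat_lit 4) (nat_lit 6) (nat_lit 0) (nat_lit 2) (nat_lit 383) (nat_lit 196) r4_383 r10_196 (nat_lit 0) (nat_lit 0) (nat_lit 0) (nat_lit 0x7d70d954fa) (nat_lit 1256184072),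
  Rx.mk (nat_lit 53) (nat_lit 5) (nat_lit 6) (nat_lit 0) (nat_lit 3) (nat_lit 386) (nat_lit 204) r4_386 r10_204 (nat_lit 0) (nat_lit 0) (nat_lit 0) (nat_lit 0x7df210a104) (nat_lit 1008425808),
  Rx.mk (nat_lit 63) (nat_lit 7) (nat_lit 7) (nat_lit 0) (nat_lit 3) (nat_lit 389) (nat_lit 210) r4_389 r10_210 (nat_lit 0) (nat_lit 0) (nat_lit 0) (nat_lit 0x7df1be8626) (nat_lit 1009040760),
  Rx.mk (nat_lit 100) (nat_lit 4) (nat_lit 4) (nat_lit 1) (nat_lit 4) (nat_lit 390) (nat_lit 192) r4_390 r10_192 (nat_lit 0) (nat_lit 0) (nat_lit 0) (nat_lit 0x7c966bbcae) (nat_lit 1674997272),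
  Rx.mk (nat_lit 101) (nat_lit 5) (nat_lit 4) (nat_lit 1) (nat_lit 5) (nat_lit 392) (nat_lit 200) r4_392 r10_200 (nat_lit 0) (nat_lit 0) (nat_lit 0) (nat_lit 0x7ded13b0d8) (nat_lit 1017989856),
  Rx.mk (nat_lit 103) (nat_lit 7) (nat_lit 4) (nat_lit 1) (nat_lit 5) (nat_lit 394) (nat_lit 208) r4_394 r10_208 (nat_lit 0) (nat_lit 0) (nat_lit 0) (nat_lit 0x7de439be80) (nat_lit 1034961408),
  Rx.mk (nat_lit 116) (nat_lit 4) (nat_lit 6) (nat_lit 1) (nat_lit 6) (nat_lit 391) (nat_lit 197) r4_391 r10_197 (nat_lit 0) (nat_lit 0) (nat_lit 0) (nat_lit 0x7de4ce9532) (nat_lit 1033846632),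
  Rx.mk (nat_lit 117) (nat_lit 5) (nat_lit 6) (nat_lit 1) (nat_lit 7) (nat_lit 393) (nat_lit 205) r4_393 r10_205 (nat_lit 0) (nat_lit 0) (nat_lit 0) (nat_lit 0x7df01c204e) (nat_lit 1012174488),
  Rx.mk (nat_lit 127) (nat_lit 7) (nat_lit 7) (nat_lit 1) (nat_lit 7) (nat_lit 395) (nat_lit 211) r4_395 r10_211 (nat_lit 0) (nat_lit 0) (nat_lit 0) (nat_lit 0x7df5724ae6) (nat_lit 1001942136),
  Rx.mk (nat_lit 228) (nat_lit 4) (nat_lit 4) (nat_lit 3) (nat_lit 4) (nat_lit 396) (nat_lit 193) r4_396 r10_193 (nat_lit 0) (nat_lit 0) (nat_lit 0) (nat_lit 0x7ccea598d8) (nat_lit 1567189728),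
  Rx.mk (nat_lit 229) (nat_lit 5) (nat_lit 4) (nat_lit 3) (nat_lit 5) (nat_lit 399) (nat_lit 201) r4_399 r10_201 (nat_lit 0) (nat_lit 0) (nat_lit 0) (nat_lit 0x7dd7e563d2) (nat_lit 1058601960),
  Rx.mk (nat_lit 236) (nat_lit 4) (nat_lit 5) (nat_lit 3) (nat_lit 6) (nat_lit 397) (nat_lit 195) r4_397 r10_195 (nat_lit 0) (nat_lit 0) (nat_lit 0) (nat_lit 0x7de473dade) (nat_lit 1034526168),
  Rx.mk (nat_lit 237) (nat_lit 5) (nat_lit 5) (nat_lit 3) (nat_lit 7) (nat_lit 400) (nat_lit 203) r4_400 r10_203 (nat_lit 0) (nat_lit 0) (nat_lit 0) (nat_lit 0x7df3488d84) (nat_lit 1006089552),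
  Rx.mk (nat_lit 244) (nat_lit 4) (nat_lit 6) (nat_lit 3) (nat_lit 6) (nat_lit 398) (nat_lit 198) r4_398 r10_198 (nat_lit 0) (nat_lit 0) (nat_lit 0) (nat_lit 0x7dcd522d10) (nat_lit 1078878528),
  Rx.mk (nat_lit 245) (nat_lit 5) (nat_lit 6) (nat_lit 3) (nat_lit 7) (nat_lit 401) (nat_lit 206) r4_401 r10_206 (nat_lit 0) (nat_lit 0) (nat_lit 0) (nat_lit 0x7df70fd10c) (nat_lit 998844912)]
noncomputable def e22_19 : List Rx := [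
  Rx.mk (nat_lit 342) (nat_lit 6) (nat_lit 2) (nat_lit 5) (nat_lit 7) (nat_lit 278) (nat_lit 135) r4_278 r8_135 (nat_lit 0) (nat_lit 0) (nat_lit 0) (nat_lit 0x7deeb9d674) (nat_lit 1014828048),
  Rx.mk (nat_lit 372) (nat_lit 4) (nat_lit 6) (nat_lit 5) (nat_lit 6) (nat_lit 276) (nat_lit 133) r4_276 r8_133 (nat_lit 0) (nat_lit 0) (nat_lit 0) (nat_lit 0x7cdf86cab4) (nat_lit 1534824720),
  Rx.mk (nat_lit 374) (nat_lit 6) (nat_lit 6) (nat_lit 5) (nat_lit 7) (nat_lit 277) (nat_lit 134) r4_277 r8_134 (nat_lit 0) (nat_lit 0) (nat_lit 0) (nat_lit 0x7debb286ec) (nat_lit 1020634992)]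
noncomputable def e22_20 : List Rx := [
  Rx.mk (nat_lit 128) (nat_lit 0) (nat_lit 0) (nat_lit 2) (nat_lit 4) (nat_lit 8) (nat_lit 52) r4_8 r0_52 (nat_lit 0) (nat_lit 0) (nat_lit 0) (nat_lit 0x5b6197cb24) (nat_lit 17974451664),
  Rx.mk (nat_lit 130) (nat_lit 2) (nat_lit 0) (nat_lit 2) (nat_lit 5) (nat_lit 10) (nat_lit 55) r4_10 r0_55 (nat_lit 0) (nat_lit 0) (nat_lit 0) (nat_lit 0x76957cf19c) (nat_lit 4621906224),
  Rx.mk (nat_lit 152) (nat_lit 0) (nat_lit 3) (nat_lit 2) (nat_lit 6) (nat_lit 9) (nat_lit 53) r4_9 r0_53 (nat_lit 0) (nat_lit 0) (nat_lit 0) (nat_lit 0x6d58b6a73e) (nat_lit 9156115800),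
  Rx.mk (nat_lit 154) (nat_lit 2) (nat_lit 3) (nat_lit 2) (nat_lit 7) (nat_lit 11) (nat_lit 56) r4_11 r0_56 (nat_lit 0) (nat_lit 0) (nat_lit 0) (nat_lit 0x7dea5bdc58) (nat_lit 1023201504),
  Rx.mk (nat_lit 155) (nat_lit 3) (nat_lit 3) (nat_lit 2) (nat_lit 7) (nat_lit 12) (nat_lit 54) r4_12 r0_54 (nat_lit 0) (nat_lit 0) (nat_lit 0) (nat_lit 0x75a4e5dbfe) (nat_lit 5083212888),
  Rx.mk (nat_lit 278) (nat_lit 6) (nat_lit 2) (nat_lit 4) (nat_lit 3) (nat_lit 1) (nat_lit 57) r4_1 r0_57 (nat_lit 0) (nat_lit 0) (nat_lit 0) (nat_lit 0x79050af64c) (nat_lit 3426304752),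
  Rx.mk (nat_lit 310) (nat_lit 6) (nat_lit 6) (nat_lit 4) (nat_lit 3) (nat_lit 0) (nat_lit 58) r4_0 r0_58 (nat_lit 0) (nat_lit 0) (nat_lit 0) (nat_lit 0x6075ec00cc) (nat_lit 15481206000),
  Rx.mk (nat_lit 386) (nat_lit 2) (nat_lit 0) (nat_lit 6) (nat_lit 5) (nat_lit 3) (nat_lit 62) r4_3 r0_62 (nat_lit 0) (nat_lit 0) (nat_lit 0) (nat_lit 0x71ae0a8daa) (nat_lit 7029095112),
  Rx.mk (nat_lit 402) (nat_lit 2) (nat_lit 2) (nat_lit 6) (nat_lit 7) (nat_lit 4) (nat_lit 63) r4_4 r0_63 (nat_lit 0) (nat_lit 0) (nat_lit 0) (nat_lit 0x7dd8cbf568) (nat_lit 1056875040),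
  Rx.mk (nat_lit 406) (nat_lit 6) (nat_lit 2) (nat_lit 6) (nat_lit 7) (nat_lit 2) (nat_lit 64) r4_2 r0_64 (nat_lit 0) (nat_lit 0) (nat_lit 0) (nat_lit 0x7d87d5e51a) (nat_lit 1212109704),
  Rx.mk (nat_lit 500) (nat_lit 4) (nat_lit 6) (nat_lit 7) (nat_lit 6) (nat_lit 5) (nat_lit 59) r4_5 r0_59 (nat_lit 0) (nat_lit 0) (nat_lit 0) (nat_lit 0x73827b04ce) (nat_lit 6130911384),
  Rx.mk (nat_lit 502) (nat_lit 6) (nat_lit 6) (nat_lit 7) (nat_lit 7) (nat_lit 6) (nat_lit 61) r4_6 r0_61 (nat_lit 0) (nat_lit 0) (nat_lit 0) (nat_lit 0x769aeeda78) (nat_lit 4611466080),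
  Rx.mk (nat_lit 503) (nat_lit 7) (nat_lit 6) (nat_lit 7) (nat_lit 7) (nat_lit 7) (nat_lit 60) r4_7 r0_60 (nat_lit 0) (nat_lit 0) (nat_lit 0) (nat_lit 0x7dd9546ce0) (nat_lit 1055852928)]
noncomputable def e22_21 : List Rx := [
  Rx.mk (nat_lit 128) (nat_lit 0) (nat_lit 0) (nat_lit 2) (nat_lit 4) (nat_lit 16) (nat_lit 50) r4_16 r1_50 (nat_lit 0) (nat_lit 0) (nat_lit 0) (nat_lit 0x6d02538dc6) (nat_lit 9321754104),
  Rx.mk (nat_lit 130) (nat_lit 2) (nat_lit 0) (nat_lit 2) (nat_lit 5) (nat_lit 18) (nat_lit 53) r4_18 r1_53 (nat_lit 0) (nat_lit 0) (nat_lit 0) (nat_lit 0x7dd783e9ea) (nat_lit 1059332040),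
  Rx.mk (nat_lit 152) (nat_lit 0) (nat_lit 3) (nat_lit 2) (nat_lit 6) (nat_lit 17) (nat_lit 51) r4_17 r1_51 (nat_lit 0) (nat_lit 0) (nat_lit 0) (nat_lit 0x7e22f55288) (nat_lit 914677920),
  Rx.mk (nat_lit 154) (nat_lit 2) (nat_lit 3) (nat_lit 2) (nat_lit 7) (nat_lit 19) (nat_lit 54) r4_19 r1_54 (nat_lit 0) (nat_lit 0) (nat_lit 0) (nat_lit 0x7e01526cd8) (nat_lit 979172064),
  Rx.mk (nat_lit 155) (nat_lit 3) (nat_lit 3) (nat_lit 2) (nat_lit 7) (nat_lit 20) (nat_lit 52) r4_20 r1_52 (nat_lit 0) (nat_lit 0) (nat_lit 0) (nat_lit 0x7eccb0762c) (nat_lit 589236336),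
  Rx.mk (nat_lit 386) (nat_lit 2) (nat_lit 0) (nat_lit 6) (nat_lit 5) (nat_lit 14) (nat_lit 55) r4_14 r1_55 (nat_lit 0) (nat_lit 0) (nat_lit 0) (nat_lit 0x7cf02600b0) (nat_lit 1502953920),
  Rx.mk (nat_lit 402) (nat_lit 2) (nat_lit 2) (nat_lit 6) (nat_lit 7) (nat_lit 15) (nat_lit 56) r4_15 r1_56 (nat_lit 0) (nat_lit 0) (nat_lit 0) (nat_lit 0x7e11b186d6) (nat_lit 947781432),
  Rx.mk (nat_lit 406) (nat_lit 6) (nat_lit 2) (nat_lit 6) (nat_lit 7) (nat_lit 13) (nat_lit 57) r4_13 r1_57 (nat_lit 0) (nat_lit 0) (nat_lit 0) (nat_lit 0x7df4fbd24e) (nat_lit 1002829464)]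
noncomputable def e22_22 : List Rx := [
  Rx.mk (nat_lit 59) (nat_lit 3) (nat_lit 7) (nat_lit 0) (nat_lit 3) (nat_lit 49) (nat_lit 40) r4_49 r4_40 (nat_lit 0) (nat_lit 0) (nat_lit 0) (nat_lit 0x7fbd70c936) (nat_lit 127620792),
  Rx.mk (nat_lit 152) (nat_lit 0) (nat_lit 3) (nat_lit 2) (nat_lit 6) (nat_lit 50) (nat_lit 45) r4_50 r4_45 (nat_lit 0) (nat_lit 0) (nat_lit 0) (nat_lit 0x7fd96aa97c) (nat_lit 73979568),
  Rx.mk (nat_lit 154) (nat_lit 2) (nat_lit 3) (nat_lit 2) (nat_lit 7) (nat_lit 51) (nat_lit 48) r4_51 r4_48 (nat_lit 0) (nat_lit 0) (nat_lit 0) (nat_lit 0x7ea89e1776) (nat_lit 658400184),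
  Rx.mk (nat_lit 155) (nat_lit 3) (nat_lit 3) (nat_lit 2) (nat_lit 7) (nat_lit 53) (nat_lit 46) r4_53 r4_46 (nat_lit 0) (nat_lit 0) (nat_lit 0) (nat_lit 0x79bce0783c) (nat_lit 3073822128),
  Rx.mk (nat_lit 187) (nat_lit 3) (nat_lit 7) (nat_lit 2) (nat_lit 7) (nat_lit 52) (nat_lit 47) r4_52 r4_47 (nat_lit 0) (nat_lit 0) (nat_lit 0) (nat_lit 0x7de9700b16) (nat_lit 1024967736),
  Rx.mk (nat_lit 231) (nat_lit 7) (nat_lit 4) (nat_lit 3) (nat_lit 5) (nat_lit 54) (nat_lit 42) r4_54 r4_42 (nat_lit 0) (nat_lit 0) (nat_lit 0) (nat_lit 0x729835aa0e) (nat_lit 6580101528),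
  Rx.mk (nat_lit 247) (nat_lit 7) (nat_lit 6) (nat_lit 3) (nat_lit 7) (nat_lit 55) (nat_lit 44) r4_55 r4_44 (nat_lit 0) (nat_lit 0) (nat_lit 0) (nat_lit 0x7df36e0b2c) (nat_lit 1005808752),
  Rx.mk (nat_lit 251) (nat_lit 3) (nat_lit 7) (nat_lit 3) (nat_lit 7) (nat_lit 57) (nat_lit 41) r4_57 r4_41 (nat_lit 0) (nat_lit 0) (nat_lit 0) (nat_lit 0x7d5376cb40) (nat_lit 1312526592),
  Rx.mk (nat_lit 255) (nat_lit 7) (nat_lit 7) (nat_lit 3) (nat_lit 7) (nat_lit 56) (nat_lit 43) r4_56 r4_43 (nat_lit 0) (nat_lit 0) (nat_lit 0) (nat_lit 0x7d1ac316b4) (nat_lit 1421246736),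
  Rx.mk (nat_lit 278) (nat_lit 6) (nat_lit 2) (nat_lit 4) (nat_lit 3) (nat_lit 40) (nat_lit 49) r4_40 r4_49 (nat_lit 0) (nat_lit 0) (nat_lit 0) (nat_lit 0x7fbd70c936) (nat_lit 127620792),
  Rx.mk (nat_lit 386) (nat_lit 2) (nat_lit 0) (nat_lit 6) (nat_lit 5) (nat_lit 42) (nat_lit 54) r4_42 r4_54 (nat_lit 0) (nat_lit 0) (nat_lit 0) (nat_lit 0x729835aa0e) (nat_lit 6580101528),
  Rx.mk (nat_lit 402) (nat_lit 2) (nat_lit 2) (nat_lit 6) (nat_lit 7) (nat_lit 43) (nat_lit 56) r4_43 r4_56 (nat_lit 0) (nat_lit 0) (nat_lit 0) (nat_lit 0x7d1ac316b4) (nat_lit 1421246736),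
  Rx.mk (nat_lit 406) (nat_lit 6) (nat_lit 2) (nat_lit 6) (nat_lit 7) (nat_lit 41) (nat_lit 57) r4_41 r4_57 (nat_lit 0) (nat_lit 0) (nat_lit 0) (nat_lit 0x7d5376cb40) (nat_lit 1312526592),
  Rx.mk (nat_lit 410) (nat_lit 2) (nat_lit 3) (nat_lit 6) (nat_lit 7) (nat_lit 44) (nat_lit 55) r4_44 r4_55 (nat_lit 0) (nat_lit 0) (nat_lit 0) (nat_lit 0x7df36e0b2c) (nat_lit 1005808752),
  Rx.mk (nat_lit 470) (nat_lit 6) (nat_lit 2) (nat_lit 7) (nat_lit 7) (nat_lit 47) (nat_lit 52) r4_47 r4_52 (nat_lit 0) (nat_lit 0) (nat_lit 0) (nat_lit 0x7de9700b16) (nat_lit 1024967736),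
  Rx.mk (nat_lit 500) (nat_lit 4) (nat_lit 6) (nat_lit 7) (nat_lit 6) (nat_lit 45) (nat_lit 50) r4_45 r4_50 (nat_lit 0) (nat_lit 0) (nat_lit 0) (nat_lit 0x7fd96aa97c) (nat_lit 73979568),
  Rx.mk (nat_lit 502) (nat_lit 6) (nat_lit 6) (nat_lit 7) (nat_lit 7) (nat_lit 46) (nat_lit 53) r4_46 r4_53 (nat_lit 0) (nat_lit 0) (nat_lit 0) (nat_lit 0x79bce0783c) (nat_lit 3073822128),
  Rx.mk (nat_lit 503) (nat_lit 7) (nat_lit 6) (nat_lit 7) (nat_lit 7) (nat_lit 48) (nat_lit 51) r4_48 r4_51 (nat_lit 0) (nat_lit 0) (nat_lit 0) (nat_lit 0x7ea89e1776) (nat_lit 658400184)]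
noncomputable def e22_23 : List Rx := [
  Rx.mk (nat_lit 278) (nat_lit 6) (nat_lit 2) (nat_lit 4) (nat_lit 3) (nat_lit 100) (nat_lit 181) r4_100 r6_181 (nat_lit 0) (nat_lit 0) (nat_lit 0) (nat_lit 0x7dd0537cf8) (nat_lit 1073116512),
  Rx.mk (nat_lit 308) (nat_lit 4) (nat_lit 6) (nat_lit 4) (nat_lit 2) (nat_lit 98) (nat_lit 175) r4_98 r6_175 (nat_lit 0) (nat_lit 0) (nat_lit 0) (nat_lit 0x666c24b74a) (nat_lit 12554834760),
  Rx.mk (nat_lit 310) (nat_lit 6) (nat_lit 6) (nat_lit 4) (nat_lit 3) (nat_lit 99) (nat_lit 178) r4_99 r6_178 (nat_lit 0) (nat_lit 0) (nat_lit 0) (nat_lit 0x7e8603014a) (nat_lit 724753224),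
  Rx.mk (nat_lit 386) (nat_lit 2) (nat_lit 0) (nat_lit 6) (nat_lit 5) (nat_lit 102) (nat_lit 180) r4_102 r6_180 (nat_lit 0) (nat_lit 0) (nat_lit 0) (nat_lit 0x7e14d85466) (nat_lit 941738616),
  Rx.mk (nat_lit 402) (nat_lit 2) (nat_lit 2) (nat_lit 6) (nat_lit 7) (nat_lit 103) (nat_lit 183) r4_103 r6_183 (nat_lit 0) (nat_lit 0) (nat_lit 0) (nat_lit 0x7dd10471e8) (nat_lit 1071791136),
  Rx.mk (nat_lit 406) (nat_lit 6) (nat_lit 2) (nat_lit 6) (nat_lit 7) (nat_lit 101) (nat_lit 182) r4_101 r6_182 (nat_lit 0) (nat_lit 0) (nat_lit 0) (nat_lit 0x7df1d384d6) (nat_lit 1008883512),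
  Rx.mk (nat_lit 500) (nat_lit 4) (nat_lit 6) (nat_lit 7) (nat_lit 6) (nat_lit 104) (nat_lit 176) r4_104 r6_176 (nat_lit 0) (nat_lit 0) (nat_lit 0) (nat_lit 0x7d86242038) (nat_lit 1215358560),
  Rx.mk (nat_lit 502) (nat_lit 6) (nat_lit 6) (nat_lit 7) (nat_lit 7) (nat_lit 105) (nat_lit 179) r4_105 r6_179 (nat_lit 0) (nat_lit 0) (nat_lit 0) (nat_lit 0x7e6a93d858) (nat_lit 777355488),
  Rx.mk (nat_lit 503) (nat_lit 7) (nat_lit 6) (nat_lit 7) (nat_lit 7) (nat_lit 106) (nat_lit 177) r4_106 r6_177 (nat_lit 0) (nat_lit 0) (nat_lit 0) (nat_lit 0x7df79428c6) (nat_lit 997853688)]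
noncomputable def e22_24 : List Rx := [
  Rx.mk (nat_lit 386) (nat_lit 2) (nat_lit 0) (nat_lit 6) (nat_lit 5) (nat_lit 126) (nat_lit 146) r4_126 r7_146 (nat_lit 0) (nat_lit 0) (nat_lit 0) (nat_lit 0x7dc32eaf52) (nat_lit 1098318312),
  Rx.mk (nat_lit 402) (nat_lit 2) (nat_lit 2) (nat_lit 6) (nat_lit 7) (nat_lit 127) (nat_lit 148) r4_127 r7_148 (nat_lit 0) (nat_lit 0) (nat_lit 0) (nat_lit 0x7dedaca748) (nat_lit 1016844192),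
  Rx.mk (nat_lit 406) (nat_lit 6) (nat_lit 2) (nat_lit 6) (nat_lit 7) (nat_lit 125) (nat_lit 147) r4_125 r7_147 (nat_lit 0) (nat_lit 0) (nat_lit 0) (nat_lit 0x7dca705b30) (nat_lit 1084404672)]
noncomputable def e22_25 : List Rx := [
  Rx.mk (nat_lit 278) (nat_lit 6) (nat_lit 2) (nat_lit 4) (nat_lit 3) (nat_lit 116) (nat_lit 48) r4_116 r7_48 (nat_lit 0) (nat_lit 0) (nat_lit 0) (nat_lit 0x7da8e3f418) (nat_lit 1148730336),
  Rx.mk (nat_lit 308) (nat_lit 4) (nat_lit 6) (nat_lit 4) (nat_lit 2) (nat_lit 114) (nat_lit 47) r4_114 r7_47 (nat_lit 0) (nat_lit 0) (nat_lit 0) (nat_lit 0x754e23e874) (nat_lit 5249561616),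
  Rx.mk (nat_lit 310) (nat_lit 6) (nat_lit 6) (nat_lit 4) (nat_lit 3) (nat_lit 115) (nat_lit 49) r4_115 r7_49 (nat_lit 0) (nat_lit 0) (nat_lit 0) (nat_lit 0x7e2a789a4c) (nat_lit 900272880),
  Rx.mk (nat_lit 342) (nat_lit 6) (nat_lit 2) (nat_lit 5) (nat_lit 7) (nat_lit 119) (nat_lit 51) r4_119 r7_51 (nat_lit 0) (nat_lit 0) (nat_lit 0) (nat_lit 0x7ddfec435c) (nat_lit 1043211312),
  Rx.mk (nat_lit 372) (nat_lit 4) (nat_lit 6) (nat_lit 5) (nat_lit 6) (nat_lit 117) (nat_lit 50) r4_117 r7_50 (nat_lit 0) (nat_lit 0) (nat_lit 0) (nat_lit 0x7dd0edf350) (nat_lit 1071959616),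
  Rx.mk (nat_lit 374) (nat_lit 6) (nat_lit 6) (nat_lit 5) (nat_lit 7) (nat_lit 118) (nat_lit 52) r4_118 r7_52 (nat_lit 0) (nat_lit 0) (nat_lit 0) (nat_lit 0x7e35a4078a) (nat_lit 878856264),
  Rx.mk (nat_lit 402) (nat_lit 2) (nat_lit 2) (nat_lit 6) (nat_lit 7) (nat_lit 121) (nat_lit 56) r4_121 r7_56 (nat_lit 0) (nat_lit 0) (nat_lit 0) (nat_lit 0x7df910b0fc) (nat_lit 995003568),
  Rx.mk (nat_lit 406) (nat_lit 6) (nat_lit 2) (nat_lit 6) (nat_lit 7) (nat_lit 120) (nat_lit 57) r4_120 r7_57 (nat_lit 0) (nat_lit 0) (nat_lit 0) (nat_lit 0x7de493b8e0) (nat_lit 1034287488),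
  Rx.mk (nat_lit 500) (nat_lit 4) (nat_lit 6) (nat_lit 7) (nat_lit 6) (nat_lit 122) (nat_lit 53) r4_122 r7_53 (nat_lit 0) (nat_lit 0) (nat_lit 0) (nat_lit 0x7dcf55acd6) (nat_lit 1075017528),
  Rx.mk (nat_lit 502) (nat_lit 6) (nat_lit 6) (nat_lit 7) (nat_lit 7) (nat_lit 123) (nat_lit 55) r4_123 r7_55 (nat_lit 0) (nat_lit 0) (nat_lit 0) (nat_lit 0x7e28211fc6) (nat_lit 904762872),
  Rx.mk (nat_lit 503) (nat_lit 7) (nat_lit 6) (nat_lit 7) (nat_lit 7) (nat_lit 124) (nat_lit 54) r4_124 r7_54 (nat_lit 0) (nat_lit 0) (nat_lit 0) (nat_lit 0x7dd9115112) (nat_lit 1056355560)]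
noncomputable def e22_26 : List Rx := [
  Rx.mk (nat_lit 278) (nat_lit 6) (nat_lit 2) (nat_lit 4) (nat_lit 3) (nat_lit 134) (nat_lit 132) r4_134 r9_132 (nat_lit 0) (nat_lit 0) (nat_lit 0) (nat_lit 0x7d77e26462) (nat_lit 1242694440),
  Rx.mk (nat_lit 386) (nat_lit 2) (nat_lit 0) (nat_lit 6) (nat_lit 5) (nat_lit 136) (nat_lit 130) r4_136 r9_130 (nat_lit 0) (nat_lit 0) (nat_lit 0) (nat_lit 0x7e412fcec2) (nat_lit 856717992),
  Rx.mk (nat_lit 402) (nat_lit 2) (nat_lit 2) (nat_lit 6) (nat_lit 7) (nat_lit 137) (nat_lit 135) r4_137 r9_135 (nat_lit 0) (nat_lit 0) (nat_lit 0) (nat_lit 0x7dee99387e) (nat_lit 1015072344),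
  Rx.mk (nat_lit 406) (nat_lit 6) (nat_lit 2) (nat_lit 6) (nat_lit 7) (nat_lit 135) (nat_lit 134) r4_135 r9_134 (nat_lit 0) (nat_lit 0) (nat_lit 0) (nat_lit 0x7df0f592b6) (nat_lit 1010545848),
  Rx.mk (nat_lit 410) (nat_lit 2) (nat_lit 3) (nat_lit 6) (nat_lit 7) (nat_lit 138) (nat_lit 131) r4_138 r9_131 (nat_lit 0) (nat_lit 0) (nat_lit 0) (nat_lit 0x7dd37c8a64) (nat_lit 1067056848),
  Rx.mk (nat_lit 470) (nat_lit 6) (nat_lit 2) (nat_lit 7) (nat_lit 7) (nat_lit 141) (nat_lit 133) r4_141 r9_133 (nat_lit 0) (nat_lit 0) (nat_lit 0) (nat_lit 0x7dede0640c) (nat_lit 1016456688),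
  Rx.mk (nat_lit 500) (nat_lit 4) (nat_lit 6) (nat_lit 7) (nat_lit 6) (nat_lit 139) (nat_lit 127) r4_139 r9_127 (nat_lit 0) (nat_lit 0) (nat_lit 0) (nat_lit 0x7afc995b6e) (nat_lit 2460787992),
  Rx.mk (nat_lit 502) (nat_lit 6) (nat_lit 6) (nat_lit 7) (nat_lit 7) (nat_lit 140) (nat_lit 129) r4_140 r9_129 (nat_lit 0) (nat_lit 0) (nat_lit 0) (nat_lit 0x7e4a4f1cc4) (nat_lit 839226960),
  Rx.mk (nat_lit 503) (nat_lit 7) (nat_lit 6) (nat_lit 7) (nat_lit 7) (nat_lit 142) (nat_lit 128) r4_142 r9_128 (nat_lit 0) (nat_lit 0) (nat_lit 0) (nat_lit 0x7db07b1a9e) (nat_lit 1134176472)]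
noncomputable def e22_27 : List Rx := [
  Rx.mk (nat_lit 59) (nat_lit 3) (nat_lit 7) (nat_lit 0) (nat_lit 3) (nat_lit 209) (nat_lit 129) r4_209 r10_129 (nat_lit 0) (nat_lit 0) (nat_lit 0) (nat_lit 0x757b9df0a6) (nat_lit 5162364792),
  Rx.mk (nat_lit 63) (nat_lit 7) (nat_lit 7) (nat_lit 0) (nat_lit 3) (nat_lit 208) (nat_lit 127) r4_208 r10_127 (nat_lit 0) (nat_lit 0) (nat_lit 0) (nat_lit 0x72c34b188c) (nat_lit 6497492976),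
  Rx.mk (nat_lit 155) (nat_lit 3) (nat_lit 3) (nat_lit 2) (nat_lit 7) (nat_lit 211) (nat_lit 135) r4_211 r10_135 (nat_lit 0) (nat_lit 0) (nat_lit 0) (nat_lit 0x7df1c665a8) (nat_lit 1008981792),
  Rx.mk (nat_lit 187) (nat_lit 3) (nat_lit 7) (nat_lit 2) (nat_lit 7) (nat_lit 210) (nat_lit 130) r4_210 r10_130 (nat_lit 0) (nat_lit 0) (nat_lit 0) (nat_lit 0x7e50fdd1d2) (nat_lit 826414056),
  Rx.mk (nat_lit 228) (nat_lit 4) (nat_lit 4) (nat_lit 3) (nat_lit 4) (nat_lit 212) (nat_lit 125) r4_212 r10_125 (nat_lit 0) (nat_lit 0) (nat_lit 0) (nat_lit 0x704a4c6af0) (nat_lit 7711194816),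
  Rx.mk (nat_lit 231) (nat_lit 7) (nat_lit 4) (nat_lit 3) (nat_lit 5) (nat_lit 214) (nat_lit 126) r4_214 r10_126 (nat_lit 0) (nat_lit 0) (nat_lit 0) (nat_lit 0x7bb067ddd2) (nat_lit 2116027368),
  Rx.mk (nat_lit 244) (nat_lit 4) (nat_lit 6) (nat_lit 3) (nat_lit 6) (nat_lit 213) (nat_lit 132) r4_213 r10_132 (nat_lit 0) (nat_lit 0) (nat_lit 0) (nat_lit 0x77d5fc8862) (nat_lit 4007383848),
  Rx.mk (nat_lit 247) (nat_lit 7) (nat_lit 6) (nat_lit 3) (nat_lit 7) (nat_lit 215) (nat_lit 133) r4_215 r10_133 (nat_lit 0) (nat_lit 0) (nat_lit 0) (nat_lit 0x7e0de80372) (nat_lit 955042920),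
  Rx.mk (nat_lit 255) (nat_lit 7) (nat_lit 7) (nat_lit 3) (nat_lit 7) (nat_lit 216) (nat_lit 128) r4_216 r10_128 (nat_lit 0) (nat_lit 0) (nat_lit 0) (nat_lit 0x7d9fcc8598) (nat_lit 1166162400),
  Rx.mk (nat_lit 470) (nat_lit 6) (nat_lit 2) (nat_lit 7) (nat_lit 7) (nat_lit 207) (nat_lit 136) r4_207 r10_136 (nat_lit 0) (nat_lit 0) (nat_lit 0) (nat_lit 0x7e23aee6ee) (nat_lit 913287960),
  Rx.mk (nat_lit 500) (nat_lit 4) (nat_lit 6) (nat_lit 7) (nat_lit 6) (nat_lit 205) (nat_lit 131) r4_205 r10_131 (nat_lit 0) (nat_lit 0) (nat_lit 0) (nat_lit 0x7227e22fb6) (nat_lit 6795475128),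
  Rx.mk (nat_lit 502) (nat_lit 6) (nat_lit 6) (nat_lit 7) (nat_lit 7) (nat_lit 206) (nat_lit 134) r4_206 r10_134 (nat_lit 0) (nat_lit 0) (nat_lit 0) (nat_lit 0x7dc3644bf8) (nat_lit 1097916768)]
noncomputable def e22_28 : List Rx := [
  Rx.mk (nat_lit 103) (nat_lit 7) (nat_lit 4) (nat_lit 1) (nat_lit 5) (nat_lit 363) (nat_lit 353) r4_363 r10_353 (nat_lit 0) (nat_lit 0) (nat_lit 0) (nat_lit 0x7e35dac41e) (nat_lit 878446296),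
  Rx.mk (nat_lit 111) (nat_lit 7) (nat_lit 5) (nat_lit 1) (nat_lit 7) (nat_lit 364) (nat_lit 354) r4_364 r10_354 (nat_lit 0) (nat_lit 0) (nat_lit 0) (nat_lit 0x7df12eef20) (nat_lit 1010116224),
  Rx.mk (nat_lit 119) (nat_lit 7) (nat_lit 6) (nat_lit 1) (nat_lit 7) (nat_lit 365) (nat_lit 355) r4_365 r10_355 (nat_lit 0) (nat_lit 0) (nat_lit 0) (nat_lit 0x7df06e3b2c) (nat_lit 1011559536)]
noncomputable def e22_29 : List Rx := [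
  Rx.mk (nat_lit 35) (nat_lit 3) (nat_lit 4) (nat_lit 0) (nat_lit 1) (nat_lit 78) (nat_lit 62) r4_78 r5_62 (nat_lit 0) (nat_lit 0) (nat_lit 0) (nat_lit 0x73b85e8660) (nat_lit 6027585408),
  Rx.mk (nat_lit 43) (nat_lit 3) (nat_lit 5) (nat_lit 0) (nat_lit 3) (nat_lit 79) (nat_lit 63) r4_79 r5_63 (nat_lit 0) (nat_lit 0) (nat_lit 0) (nat_lit 0x7e786b1ad6) (nat_lit 750817080),
  Rx.mk (nat_lit 59) (nat_lit 3) (nat_lit 7) (nat_lit 0) (nat_lit 3) (nat_lit 80) (nat_lit 64) r4_80 r5_64 (nat_lit 0) (nat_lit 0) (nat_lit 0) (nat_lit 0x7cf80582b0) (nat_lit 1487858112),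
  Rx.mk (nat_lit 163) (nat_lit 3) (nat_lit 4) (nat_lit 2) (nat_lit 5) (nat_lit 81) (nat_lit 67) r4_81 r5_67 (nat_lit 0) (nat_lit 0) (nat_lit 0) (nat_lit 0x725645c94e) (nat_lit 6706528920),
  Rx.mk (nat_lit 171) (nat_lit 3) (nat_lit 5) (nat_lit 2) (nat_lit 7) (nat_lit 82) (nat_lit 68) r4_82 r5_68 (nat_lit 0) (nat_lit 0) (nat_lit 0) (nat_lit 0x7efcc334d0) (nat_lit 497060928),
  Rx.mk (nat_lit 187) (nat_lit 3) (nat_lit 7) (nat_lit 2) (nat_lit 7) (nat_lit 83) (nat_lit 69) r4_83 r5_69 (nat_lit 0) (nat_lit 0) (nat_lit 0) (nat_lit 0x7ee231fdfe) (nat_lit 548000856),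
  Rx.mk (nat_lit 227) (nat_lit 3) (nat_lit 4) (nat_lit 3) (nat_lit 5) (nat_lit 87) (nat_lit 65) r4_87 r5_65 (nat_lit 0) (nat_lit 0) (nat_lit 0) (nat_lit 0x7dc900f228) (nat_lit 1087156512),
  Rx.mk (nat_lit 231) (nat_lit 7) (nat_lit 4) (nat_lit 3) (nat_lit 5) (nat_lit 84) (nat_lit 59) r4_84 r5_59 (nat_lit 0) (nat_lit 0) (nat_lit 0) (nat_lit 0x7e271210b8) (nat_lit 906793056),
  Rx.mk (nat_lit 235) (nat_lit 3) (nat_lit 5) (nat_lit 3) (nat_lit 7) (nat_lit 88) (nat_lit 66) r4_88 r5_66 (nat_lit 0) (nat_lit 0) (nat_lit 0) (nat_lit 0x7dda26bfba) (nat_lit 1054277640),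
  Rx.mk (nat_lit 239) (nat_lit 7) (nat_lit 5) (nat_lit 3) (nat_lit 7) (nat_lit 85) (nat_lit 60) r4_85 r5_60 (nat_lit 0) (nat_lit 0) (nat_lit 0) (nat_lit 0x7e3b9e07e4) (nat_lit 867396816),
  Rx.mk (nat_lit 247) (nat_lit 7) (nat_lit 6) (nat_lit 3) (nat_lit 7) (nat_lit 86) (nat_lit 61) r4_86 r5_61 (nat_lit 0) (nat_lit 0) (nat_lit 0) (nat_lit 0x7e2a2b5f20) (nat_lit 900851328)]
noncomputable def e22_30 : List Rx := [
  Rx.mk (nat_lit 503) (nat_lit 7) (nat_lit 6) (nat_lit 7) (nat_lit 7) (nat_lit 143) (nat_lit 8) r4_143 r10_8 (nat_lit 0) (nat_lit 0) (nat_lit 0) (nat_lit 0x7dd7d8a49e) (nat_lit 1058697432)]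
noncomputable def e22_31 : List Rx := [
  Rx.mk (nat_lit 35) (nat_lit 3) (nat_lit 4) (nat_lit 0) (nat_lit 1) (nat_lit 220) (nat_lit 337) r4_220 r5_337 (nat_lit 0) (nat_lit 0) (nat_lit 0) (nat_lit 0x7037ba9420) (nat_lit 7746800256),
  Rx.mk (nat_lit 39) (nat_lit 7) (nat_lit 4) (nat_lit 0) (nat_lit 1) (nat_lit 217) (nat_lit 338) r4_217 r5_338 (nat_lit 0) (nat_lit 0) (nat_lit 0) (nat_lit 0x77438f4fc8) (nat_lit 4288141728),
  Rx.mk (nat_lit 43) (nat_lit 3) (nat_lit 5) (nat_lit 0) (nat_lit 3) (nat_lit 221) (nat_lit 340) r4_221 r5_340 (nat_lit 0) (nat_lit 0) (nat_lit 0) (nat_lit 0x7e80245f3a) (nat_lit 736007688),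
  Rx.mk (nat_lit 47) (nat_lit 7) (nat_lit 5) (nat_lit 0) (nat_lit 3) (nat_lit 218) (nat_lit 341) r4_218 r5_341 (nat_lit 0) (nat_lit 0) (nat_lit 0) (nat_lit 0x7e57d80428) (nat_lit 813275424),
  Rx.mk (nat_lit 55) (nat_lit 7) (nat_lit 6) (nat_lit 0) (nat_lit 3) (nat_lit 219) (nat_lit 343) r4_219 r5_343 (nat_lit 0) (nat_lit 0) (nat_lit 0) (nat_lit 0x7e42d95428) (nat_lit 853530912),
  Rx.mk (nat_lit 163) (nat_lit 3) (nat_lit 4) (nat_lit 2) (nat_lit 5) (nat_lit 222) (nat_lit 339) r4_222 r5_339 (nat_lit 0) (nat_lit 0) (nat_lit 0) (nat_lit 0x7145321b9a) (nat_lit 7230125448),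
  Rx.mk (nat_lit 171) (nat_lit 3) (nat_lit 5) (nat_lit 2) (nat_lit 7) (nat_lit 223) (nat_lit 342) r4_223 r5_342 (nat_lit 0) (nat_lit 0) (nat_lit 0) (nat_lit 0x7edd8ea838) (nat_lit 556893792)]
noncomputable def e22_32 : List Rx := [
  Rx.mk (nat_lit 35) (nat_lit 3) (nat_lit 4) (nat_lit 0) (nat_lit 1) (nat_lit 244) (nat_lit 179) r4_244 r11_179 (nat_lit 0) (nat_lit 0) (nat_lit 0) (nat_lit 0x6bf3fab462) (nat_lit 9840116520),
  Rx.mk (nat_lit 39) (nat_lit 7) (nat_lit 4) (nat_lit 0) (nat_lit 1) (nat_lit 241) (nat_lit 185) r4_241 r11_185 (nat_lit 0) (nat_lit 0) (nat_lit 0) (nat_lit 0x75f067639a) (nat_lit 4938438024),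
  Rx.mk (nat_lit 43) (nat_lit 3) (nat_lit 5) (nat_lit 0) (nat_lit 3) (nat_lit 245) (nat_lit 181) r4_245 r11_181 (nat_lit 0) (nat_lit 0) (nat_lit 0) (nat_lit 0x7e8d7ec986) (nat_lit 710404344),
  Rx.mk (nat_lit 47) (nat_lit 7) (nat_lit 5) (nat_lit 0) (nat_lit 3) (nat_lit 242) (nat_lit 187) r4_242 r11_187 (nat_lit 0) (nat_lit 0) (nat_lit 0) (nat_lit 0x7e10d57498) (nat_lit 949429728),
  Rx.mk (nat_lit 55) (nat_lit 7) (nat_lit 6) (nat_lit 0) (nat_lit 3) (nat_lit 243) (nat_lit 189) r4_243 r11_189 (nat_lit 0) (nat_lit 0) (nat_lit 0) (nat_lit 0x7e356d4af6) (nat_lit 879266232),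
  Rx.mk (nat_lit 59) (nat_lit 3) (nat_lit 7) (nat_lit 0) (nat_lit 3) (nat_lit 246) (nat_lit 183) r4_246 r11_183 (nat_lit 0) (nat_lit 0) (nat_lit 0) (nat_lit 0x7d40c096b6) (nat_lit 1348404408),
  Rx.mk (nat_lit 163) (nat_lit 3) (nat_lit 4) (nat_lit 2) (nat_lit 5) (nat_lit 247) (nat_lit 180) r4_247 r11_180 (nat_lit 0) (nat_lit 0) (nat_lit 0) (nat_lit 0x6e389aa81e) (nat_lit 8726828760),
  Rx.mk (nat_lit 171) (nat_lit 3) (nat_lit 5) (nat_lit 2) (nat_lit 7) (nat_lit 248) (nat_lit 182) r4_248 r11_182 (nat_lit 0) (nat_lit 0) (nat_lit 0) (nat_lit 0x7ef9498c6e) (nat_lit 503724312),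
  Rx.mk (nat_lit 187) (nat_lit 3) (nat_lit 7) (nat_lit 2) (nat_lit 7) (nat_lit 249) (nat_lit 184) r4_249 r11_184 (nat_lit 0) (nat_lit 0) (nat_lit 0) (nat_lit 0x7ea772ea2a) (nat_lit 660640968),
  Rx.mk (nat_lit 231) (nat_lit 7) (nat_lit 4) (nat_lit 3) (nat_lit 5) (nat_lit 250) (nat_lit 186) r4_250 r11_186 (nat_lit 0) (nat_lit 0) (nat_lit 0) (nat_lit 0x7dda8599cc) (nat_lit 1053567216),
  Rx.mk (nat_lit 239) (nat_lit 7) (nat_lit 5) (nat_lit 3) (nat_lit 7) (nat_lit 251) (nat_lit 188) r4_251 r11_188 (nat_lit 0) (nat_lit 0) (nat_lit 0) (nat_lit 0x7df52e0f2a) (nat_lit 1002453192),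
  Rx.mk (nat_lit 247) (nat_lit 7) (nat_lit 6) (nat_lit 3) (nat_lit 7) (nat_lit 252) (nat_lit 190) r4_252 r11_190 (nat_lit 0) (nat_lit 0) (nat_lit 0) (nat_lit 0x7e1d7e2a00) (nat_lit 925157376)]
noncomputable def e22_33 : List Rx := [
  Rx.mk (nat_lit 136) (nat_lit 0) (nat_lit 1) (nat_lit 2) (nat_lit 6) (nat_lit 69) (nat_lit 80) r4_69 r0_80 (nat_lit 0) (nat_lit 0) (nat_lit 0) (nat_lit 0x7933197536) (nat_lit 3337995960),
  Rx.mk (nat_lit 139) (nat_lit 3) (nat_lit 1) (nat_lit 2) (nat_lit 7) (nat_lit 70) (nat_lit 81) r4_70 r0_81 (nat_lit 0) (nat_lit 0) (nat_lit 0) (nat_lit 0x7e7f2fee82) (nat_lit 737838504),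
  Rx.mk (nat_lit 168) (nat_lit 0) (nat_lit 5) (nat_lit 2) (nat_lit 6) (nat_lit 68) (nat_lit 79) r4_68 r0_79 (nat_lit 0) (nat_lit 0) (nat_lit 0) (nat_lit 0x6338dbcf0c) (nat_lit 14125728240)]
noncomputable def e22_34 : List Rx := [
  Rx.mk (nat_lit 40) (nat_lit 0) (nat_lit 5) (nat_lit 0) (nat_lit 2) (nat_lit 155) (nat_lit 317) r4_155 r0_317 (nat_lit 0) (nat_lit 0) (nat_lit 0) (nat_lit 0x6ef1331dde) (nat_lit 8372885976),
  Rx.mk (nat_lit 41) (nat_lit 1) (nat_lit 5) (nat_lit 0) (nat_lit 3) (nat_lit 156) (nat_lit 318) r4_156 r0_318 (nat_lit 0) (nat_lit 0) (nat_lit 0) (nat_lit 0x7d38edd3ea) (nat_lit 1363404744),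
  Rx.mk (nat_lit 168) (nat_lit 0) (nat_lit 5) (nat_lit 2) (nat_lit 6) (nat_lit 157) (nat_lit 319) r4_157 r0_319 (nat_lit 0) (nat_lit 0) (nat_lit 0) (nat_lit 0x76db4494dc) (nat_lit 4488110640),
  Rx.mk (nat_lit 169) (nat_lit 1) (nat_lit 5) (nat_lit 2) (nat_lit 7) (nat_lit 158) (nat_lit 320) r4_158 r0_320 (nat_lit 0) (nat_lit 0) (nat_lit 0) (nat_lit 0x7ece365dcc) (nat_lit 586316016)]
noncomputable def e22_35 : List Rx := [
  Rx.mk (nat_lit 40) (nat_lit 0) (nat_lit 5) (nat_lit 0) (nat_lit 2) (nat_lit 167) (nat_lit 71) r4_167 r6_71 (nat_lit 0) (nat_lit 0) (nat_lit 0) (nat_lit 0x6ce30222fc) (nat_lit 9381803184),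
  Rx.mk (nat_lit 41) (nat_lit 1) (nat_lit 5) (nat_lit 0) (nat_lit 3) (nat_lit 168) (nat_lit 74) r4_168 r6_74 (nat_lit 0) (nat_lit 0) (nat_lit 0) (nat_lit 0x7cb6e0d53c) (nat_lit 1612763568),
  Rx.mk (nat_lit 136) (nat_lit 0) (nat_lit 1) (nat_lit 2) (nat_lit 6) (nat_lit 170) (nat_lit 73) r4_170 r6_73 (nat_lit 0) (nat_lit 0) (nat_lit 0) (nat_lit 0x7e444b5d06) (nat_lit 850759416),
  Rx.mk (nat_lit 137) (nat_lit 1) (nat_lit 1) (nat_lit 2) (nat_lit 7) (nat_lit 172) (nat_lit 76) r4_172 r6_76 (nat_lit 0) (nat_lit 0) (nat_lit 0) (nat_lit 0x7df13cce42) (nat_lit 1010012328),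
  Rx.mk (nat_lit 139) (nat_lit 3) (nat_lit 1) (nat_lit 2) (nat_lit 7) (nat_lit 173) (nat_lit 77) r4_173 r6_77 (nat_lit 0) (nat_lit 0) (nat_lit 0) (nat_lit 0x7dcf6e0b50) (nat_lit 1074835008),
  Rx.mk (nat_lit 168) (nat_lit 0) (nat_lit 5) (nat_lit 2) (nat_lit 6) (nat_lit 169) (nat_lit 72) r4_169 r6_72 (nat_lit 0) (nat_lit 0) (nat_lit 0) (nat_lit 0x7e5529ef0c) (nat_lit 818414064),
  Rx.mk (nat_lit 169) (nat_lit 1) (nat_lit 5) (nat_lit 2) (nat_lit 7) (nat_lit 171) (nat_lit 75) r4_171 r6_75 (nat_lit 0) (nat_lit 0) (nat_lit 0) (nat_lit 0x7e5e361e40) (nat_lit 801066240)]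
noncomputable def e22_36 : List Rx := [
  Rx.mk (nat_lit 41) (nat_lit 1) (nat_lit 5) (nat_lit 0) (nat_lit 3) (nat_lit 300) (nat_lit 349) r4_300 r2_349 (nat_lit 0) (nat_lit 0) (nat_lit 0) (nat_lit 0x7dc103120e) (nat_lit 1102479768),
  Rx.mk (nat_lit 45) (nat_lit 5) (nat_lit 5) (nat_lit 0) (nat_lit 3) (nat_lit 299) (nat_lit 350) r4_299 r2_350 (nat_lit 0) (nat_lit 0) (nat_lit 0) (nat_lit 0x7dad9708e2) (nat_lit 1139719464),
  Rx.mk (nat_lit 105) (nat_lit 1) (nat_lit 5) (nat_lit 1) (nat_lit 7) (nat_lit 302) (nat_lit 351) r4_302 r2_351 (nat_lit 0) (nat_lit 0) (nat_lit 0) (nat_lit 0x7de76c8b50) (nat_lit 1028828736),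
  Rx.mk (nat_lit 109) (nat_lit 5) (nat_lit 5) (nat_lit 1) (nat_lit 7) (nat_lit 301) (nat_lit 352) r4_301 r2_352 (nat_lit 0) (nat_lit 0) (nat_lit 0) (nat_lit 0x7de0307f18) (nat_lit 1042700256),
  Rx.mk (nat_lit 169) (nat_lit 1) (nat_lit 5) (nat_lit 2) (nat_lit 7) (nat_lit 303) (nat_lit 353) r4_303 r2_353 (nat_lit 0) (nat_lit 0) (nat_lit 0) (nat_lit 0x7df18be950) (nat_lit 1009419840)]
noncomputable def e22_37 : List Rx := [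
  Rx.mk (nat_lit 41) (nat_lit 1) (nat_lit 5) (nat_lit 0) (nat_lit 3) (nat_lit 310) (nat_lit 312) r4_310 r8_312 (nat_lit 0) (nat_lit 0) (nat_lit 0) (nat_lit 0x7bf32fb112) (nat_lit 1987982568),
  Rx.mk (nat_lit 45) (nat_lit 5) (nat_lit 5) (nat_lit 0) (nat_lit 3) (nat_lit 309) (nat_lit 313) r4_309 r8_313 (nat_lit 0) (nat_lit 0) (nat_lit 0) (nat_lit 0x7cf628a080) (nat_lit 1491429888),
  Rx.mk (nat_lit 105) (nat_lit 1) (nat_lit 5) (nat_lit 1) (nat_lit 7) (nat_lit 312) (nat_lit 314) r4_312 r8_314 (nat_lit 0) (nat_lit 0) (nat_lit 0) (nat_lit 0x7ddd4f0d32) (nat_lit 1048223592),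
  Rx.mk (nat_lit 109) (nat_lit 5) (nat_lit 5) (nat_lit 1) (nat_lit 7) (nat_lit 311) (nat_lit 315) r4_311 r8_315 (nat_lit 0) (nat_lit 0) (nat_lit 0) (nat_lit 0x7de1440dde) (nat_lit 1040636376),
  Rx.mk (nat_lit 137) (nat_lit 1) (nat_lit 1) (nat_lit 2) (nat_lit 7) (nat_lit 314) (nat_lit 311) r4_314 r8_311 (nat_lit 0) (nat_lit 0) (nat_lit 0) (nat_lit 0x7dc5e563e4) (nat_lit 1093115088),
  Rx.mk (nat_lit 169) (nat_lit 1) (nat_lit 5) (nat_lit 2) (nat_lit 7) (nat_lit 313) (nat_lit 316) r4_313 r8_316 (nat_lit 0) (nat_lit 0) (nat_lit 0) (nat_lit 0x7deb594c80) (nat_lit 1021303296)]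
noncomputable def e22_38 : List Rx := [
  Rx.mk (nat_lit 105) (nat_lit 1) (nat_lit 5) (nat_lit 1) (nat_lit 7) (nat_lit 308) (nat_lit 306) r4_308 r8_306 (nat_lit 0) (nat_lit 0) (nat_lit 0) (nat_lit 0x7de5612c08) (nat_lit 1032748704),
  Rx.mk (nat_lit 109) (nat_lit 5) (nat_lit 5) (nat_lit 1) (nat_lit 7) (nat_lit 307) (nat_lit 305) r4_307 r8_305 (nat_lit 0) (nat_lit 0) (nat_lit 0) (nat_lit 0x7dd68859a4) (nat_lit 1061216208)]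
noncomputable def e22_39 : List Rx := [
  Rx.mk (nat_lit 41) (nat_lit 1) (nat_lit 5) (nat_lit 0) (nat_lit 3) (nat_lit 159) (nat_lit 304) r4_159 r1_304 (nat_lit 0) (nat_lit 0) (nat_lit 0) (nat_lit 0x7e188df908) (nat_lit 934625952),
  Rx.mk (nat_lit 169) (nat_lit 1) (nat_lit 5) (nat_lit 2) (nat_lit 7) (nat_lit 160) (nat_lit 305) r4_160 r1_305 (nat_lit 0) (nat_lit 0) (nat_lit 0) (nat_lit 0x7e535d2bda) (nat_lit 821865096)]
noncomputable def e22_40 : List Rx := [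
  Rx.mk (nat_lit 41) (nat_lit 1) (nat_lit 5) (nat_lit 0) (nat_lit 3) (nat_lit 174) (nat_lit 68) r4_174 r7_68 (nat_lit 0) (nat_lit 0) (nat_lit 0) (nat_lit 0x7d8ece758a) (nat_lit 1198743624),
  Rx.mk (nat_lit 137) (nat_lit 1) (nat_lit 1) (nat_lit 2) (nat_lit 7) (nat_lit 176) (nat_lit 70) r4_176 r7_70 (nat_lit 0) (nat_lit 0) (nat_lit 0) (nat_lit 0x7ddc8799aa) (nat_lit 1049717448),
  Rx.mk (nat_lit 169) (nat_lit 1) (nat_lit 5) (nat_lit 2) (nat_lit 7) (nat_lit 175) (nat_lit 69) r4_175 r7_69 (nat_lit 0) (nat_lit 0) (nat_lit 0) (nat_lit 0x7e35a76754) (nat_lit 878830992)]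
noncomputable def e22_41 : List Rx := [
  Rx.mk (nat_lit 136) (nat_lit 0) (nat_lit 1) (nat_lit 2) (nat_lit 6) (nat_lit 71) (nat_lit 85) r4_71 r1_85 (nat_lit 0) (nat_lit 0) (nat_lit 0) (nat_lit 0x7de3bb066c) (nat_lit 1035910512),
  Rx.mk (nat_lit 138) (nat_lit 2) (nat_lit 1) (nat_lit 2) (nat_lit 7) (nat_lit 72) (nat_lit 87) r4_72 r1_87 (nat_lit 0) (nat_lit 0) (nat_lit 0) (nat_lit 0x7df5700b0a) (nat_lit 1001958984),
  Rx.mk (nat_lit 139) (nat_lit 3) (nat_lit 1) (nat_lit 2) (nat_lit 7) (nat_lit 73) (nat_lit 86) r4_73 r1_86 (nat_lit 0) (nat_lit 0) (nat_lit 0) (nat_lit 0x7eb127ced2) (nat_lit 642029544)]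
noncomputable def e22_42 : List Rx := [
  Rx.mk (nat_lit 128) (nat_lit 0) (nat_lit 0) (nat_lit 2) (nat_lit 4) (nat_lit 24) (nat_lit 84) r4_24 r2_84 (nat_lit 0) (nat_lit 0) (nat_lit 0) (nat_lit 0x6f9c53eb26) (nat_lit 8044765560),
  Rx.mk (nat_lit 130) (nat_lit 2) (nat_lit 0) (nat_lit 2) (nat_lit 5) (nat_lit 26) (nat_lit 92) r4_26 r2_92 (nat_lit 0) (nat_lit 0) (nat_lit 0) (nat_lit 0x7e3762eb9a) (nat_lit 875509128),
  Rx.mk (nat_lit 131) (nat_lit 3) (nat_lit 0) (nat_lit 2) (nat_lit 5) (nat_lit 28) (nat_lit 86) r4_28 r2_86 (nat_lit 0) (nat_lit 0) (nat_lit 0) (nat_lit 0x7ea641bd3e) (nat_lit 662926680),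
  Rx.mk (nat_lit 136) (nat_lit 0) (nat_lit 1) (nat_lit 2) (nat_lit 6) (nat_lit 25) (nat_lit 85) r4_25 r2_85 (nat_lit 0) (nat_lit 0) (nat_lit 0) (nat_lit 0x7e46493d26) (nat_lit 846940536),
  Rx.mk (nat_lit 138) (nat_lit 2) (nat_lit 1) (nat_lit 2) (nat_lit 7) (nat_lit 27) (nat_lit 93) r4_27 r2_93 (nat_lit 0) (nat_lit 0) (nat_lit 0) (nat_lit 0x7dd9a4a7dc) (nat_lit 1055252016),
  Rx.mk (nat_lit 139) (nat_lit 3) (nat_lit 1) (nat_lit 2) (nat_lit 7) (nat_lit 29) (nat_lit 87) r4_29 r2_87 (nat_lit 0) (nat_lit 0) (nat_lit 0) (nat_lit 0x7e85ff4186) (nat_lit 724781304),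
  Rx.mk (nat_lit 155) (nat_lit 3) (nat_lit 3) (nat_lit 2) (nat_lit 7) (nat_lit 30) (nat_lit 88) r4_30 r2_88 (nat_lit 0) (nat_lit 0) (nat_lit 0) (nat_lit 0x7e66fbd1dc) (nat_lit 784246320),
  Rx.mk (nat_lit 386) (nat_lit 2) (nat_lit 0) (nat_lit 6) (nat_lit 5) (nat_lit 21) (nat_lit 89) r4_21 r2_89 (nat_lit 0) (nat_lit 0) (nat_lit 0) (nat_lit 0x7e2db3a698) (nat_lit 894078432),
  Rx.mk (nat_lit 394) (nat_lit 2) (nat_lit 1) (nat_lit 6) (nat_lit 7) (nat_lit 22) (nat_lit 90) r4_22 r2_90 (nat_lit 0) (nat_lit 0) (nat_lit 0) (nat_lit 0x7dee60fc02) (nat_lit 1015493544),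
  Rx.mk (nat_lit 402) (nat_lit 2) (nat_lit 2) (nat_lit 6) (nat_lit 7) (nat_lit 23) (nat_lit 91) r4_23 r2_91 (nat_lit 0) (nat_lit 0) (nat_lit 0) (nat_lit 0x7de8bc7650) (nat_lit 1026312768)]
noncomputable def e22_43 : List Rx := [
  Rx.mk (nat_lit 136) (nat_lit 0) (nat_lit 1) (nat_lit 2) (nat_lit 6) (nat_lit 177) (nat_lit 351) r4_177 r7_351 (nat_lit 0) (nat_lit 0) (nat_lit 0) (nat_lit 0x7dec271fa2) (nat_lit 1019761704),
  Rx.mk (nat_lit 137) (nat_lit 1) (nat_lit 1) (nat_lit 2) (nat_lit 7) (nat_lit 178) (nat_lit 352) r4_178 r7_352 (nat_lit 0) (nat_lit 0) (nat_lit 0) (nat_lit 0x7de75b4c64) (nat_lit 1028957904),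
  Rx.mk (nat_lit 138) (nat_lit 2) (nat_lit 1) (nat_lit 2) (nat_lit 7) (nat_lit 179) (nat_lit 354) r4_179 r7_354 (nat_lit 0) (nat_lit 0) (nat_lit 0) (nat_lit 0x7ddcf03320) (nat_lit 1048934016),
  Rx.mk (nat_lit 139) (nat_lit 3) (nat_lit 1) (nat_lit 2) (nat_lit 7) (nat_lit 180) (nat_lit 353) r4_180 r7_353 (nat_lit 0) (nat_lit 0) (nat_lit 0) (nat_lit 0x7de78789a0) (nat_lit 1028626560)]
noncomputable def e22_44 : List Rx := [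
  Rx.mk (nat_lit 128) (nat_lit 0) (nat_lit 0) (nat_lit 2) (nat_lit 4) (nat_lit 147) (nat_lit 50) r4_147 r8_50 (nat_lit 0) (nat_lit 0) (nat_lit 0) (nat_lit 0x6c5214126e) (nat_lit 9659691288),
  Rx.mk (nat_lit 130) (nat_lit 2) (nat_lit 0) (nat_lit 2) (nat_lit 5) (nat_lit 150) (nat_lit 59) r4_150 r8_59 (nat_lit 0) (nat_lit 0) (nat_lit 0) (nat_lit 0x7dc71c9070) (nat_lit 1090784448),
  Rx.mk (nat_lit 131) (nat_lit 3) (nat_lit 0) (nat_lit 2) (nat_lit 5) (nat_lit 152) (nat_lit 53) r4_152 r8_53 (nat_lit 0) (nat_lit 0) (nat_lit 0) (nat_lit 0x7ddbcbc568) (nat_lit 1051124256),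
  Rx.mk (nat_lit 136) (nat_lit 0) (nat_lit 1) (nat_lit 2) (nat_lit 6) (nat_lit 148) (nat_lit 51) r4_148 r8_51 (nat_lit 0) (nat_lit 0) (nat_lit 0) (nat_lit 0x7dc4b916aa) (nat_lit 1095364296),
  Rx.mk (nat_lit 137) (nat_lit 1) (nat_lit 1) (nat_lit 2) (nat_lit 7) (nat_lit 149) (nat_lit 52) r4_149 r8_52 (nat_lit 0) (nat_lit 0) (nat_lit 0) (nat_lit 0x7df5dd2438) (nat_lit 1001141856),
  Rx.mk (nat_lit 138) (nat_lit 2) (nat_lit 1) (nat_lit 2) (nat_lit 7) (nat_lit 151) (nat_lit 60) r4_151 r8_60 (nat_lit 0) (nat_lit 0) (nat_lit 0) (nat_lit 0x7df5b98672) (nat_lit 1001408616),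
  Rx.mk (nat_lit 139) (nat_lit 3) (nat_lit 1) (nat_lit 2) (nat_lit 7) (nat_lit 153) (nat_lit 54) r4_153 r8_54 (nat_lit 0) (nat_lit 0) (nat_lit 0) (nat_lit 0x7de39ca852) (nat_lit 1036137960),
  Rx.mk (nat_lit 155) (nat_lit 3) (nat_lit 3) (nat_lit 2) (nat_lit 7) (nat_lit 154) (nat_lit 55) r4_154 r8_55 (nat_lit 0) (nat_lit 0) (nat_lit 0) (nat_lit 0x7df7378e90) (nat_lit 998547264),
  Rx.mk (nat_lit 386) (nat_lit 2) (nat_lit 0) (nat_lit 6) (nat_lit 5) (nat_lit 144) (nat_lit 56) r4_144 r8_56 (nat_lit 0) (nat_lit 0) (nat_lit 0) (nat_lit 0x7db61d007a) (nat_lit 1123376904),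
  Rx.mk (nat_lit 394) (nat_lit 2) (nat_lit 1) (nat_lit 6) (nat_lit 7) (nat_lit 145) (nat_lit 57) r4_145 r8_57 (nat_lit 0) (nat_lit 0) (nat_lit 0) (nat_lit 0x7dde50fd12) (nat_lit 1046291688),
  Rx.mk (nat_lit 402) (nat_lit 2) (nat_lit 2) (nat_lit 6) (nat_lit 7) (nat_lit 146) (nat_lit 58) r4_146 r8_58 (nat_lit 0) (nat_lit 0) (nat_lit 0) (nat_lit 0x7de458dc8e) (nat_lit 1034728344)]
noncomputable def e22_45 : List Rx := [
  Rx.mk (nat_lit 386) (nat_lit 2) (nat_lit 0) (nat_lit 6) (nat_lit 5) (nat_lit 128) (nat_lit 15) r4_128 r8_15 (nat_lit 0) (nat_lit 0) (nat_lit 0) (nat_lit 0x7de2b8b692) (nat_lit 1037845224),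
  Rx.mk (nat_lit 394) (nat_lit 2) (nat_lit 1) (nat_lit 6) (nat_lit 7) (nat_lit 129) (nat_lit 16) r4_129 r8_16 (nat_lit 0) (nat_lit 0) (nat_lit 0) (nat_lit 0x7df79428c6) (nat_lit 997853688),
  Rx.mk (nat_lit 402) (nat_lit 2) (nat_lit 2) (nat_lit 6) (nat_lit 7) (nat_lit 130) (nat_lit 17) r4_130 r8_17 (nat_lit 0) (nat_lit 0) (nat_lit 0) (nat_lit 0x7dd77c6a62) (nat_lit 1059388200)]
noncomputable def e22_46 : List Rx := [
  Rx.mk (nat_lit 43) (nat_lit 3) (nat_lit 5) (nat_lit 0) (nat_lit 3) (nat_lit 74) (nat_lit 75) r4_74 r4_75 (nat_lit 0) (nat_lit 0) (nat_lit 0) (nat_lit 0x7df5478d92) (nat_lit 1002262248),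
  Rx.mk (nat_lit 139) (nat_lit 3) (nat_lit 1) (nat_lit 2) (nat_lit 7) (nat_lit 77) (nat_lit 77) r4_77 r4_77 (nat_lit 0) (nat_lit 0) (nat_lit 0) (nat_lit 0x7e7ff5222e) (nat_lit 736361496),
  Rx.mk (nat_lit 168) (nat_lit 0) (nat_lit 5) (nat_lit 2) (nat_lit 6) (nat_lit 75) (nat_lit 74) r4_75 r4_74 (nat_lit 0) (nat_lit 0) (nat_lit 0) (nat_lit 0x7df5478d92) (nat_lit 1002262248),
  Rx.mk (nat_lit 171) (nat_lit 3) (nat_lit 5) (nat_lit 2) (nat_lit 7) (nat_lit 76) (nat_lit 76) r4_76 r4_76 (nat_lit 0) (nat_lit 0) (nat_lit 0) (nat_lit 0x78e27fff1e) (nat_lit 3492537048)]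
noncomputable def e22_47 : List Rx := [
  Rx.mk (nat_lit 40) (nat_lit 0) (nat_lit 5) (nat_lit 0) (nat_lit 2) (nat_lit 161) (nat_lit 349) r4_161 r4_349 (nat_lit 0) (nat_lit 0) (nat_lit 0) (nat_lit 0x73692e19b6) (nat_lit 6179422392),
  Rx.mk (nat_lit 41) (nat_lit 1) (nat_lit 5) (nat_lit 0) (nat_lit 3) (nat_lit 162) (nat_lit 350) r4_162 r4_350 (nat_lit 0) (nat_lit 0) (nat_lit 0) (nat_lit 0x7e146cbb20) (nat_lit 942544512),
  Rx.mk (nat_lit 43) (nat_lit 3) (nat_lit 5) (nat_lit 0) (nat_lit 3) (nat_lit 163) (nat_lit 351) r4_163 r4_351 (nat_lit 0) (nat_lit 0) (nat_lit 0) (nat_lit 0x7e740fc090) (nat_lit 759170880),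
  Rx.mk (nat_lit 168) (nat_lit 0) (nat_lit 5) (nat_lit 2) (nat_lit 6) (nat_lit 164) (nat_lit 352) r4_164 r4_352 (nat_lit 0) (nat_lit 0) (nat_lit 0) (nat_lit 0x7e9dbce594) (nat_lit 679260816),
  Rx.mk (nat_lit 169) (nat_lit 1) (nat_lit 5) (nat_lit 2) (nat_lit 7) (nat_lit 165) (nat_lit 353) r4_165 r4_353 (nat_lit 0) (nat_lit 0) (nat_lit 0) (nat_lit 0x7e61448d56) (nat_lit 795205944),
  Rx.mk (nat_lit 171) (nat_lit 3) (nat_lit 5) (nat_lit 2) (nat_lit 7) (nat_lit 166) (nat_lit 354) r4_166 r4_354 (nat_lit 0) (nat_lit 0) (nat_lit 0) (nat_lit 0x7e69115082) (nat_lit 780250536)]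
noncomputable def e22_48 : List Rx := [
  Rx.mk (nat_lit 40) (nat_lit 0) (nat_lit 5) (nat_lit 0) (nat_lit 2) (nat_lit 181) (nat_lit 52) r4_181 r9_52 (nat_lit 0) (nat_lit 0) (nat_lit 0) (nat_lit 0x6d142270c6) (nat_lit 9287608824),
  Rx.mk (nat_lit 41) (nat_lit 1) (nat_lit 5) (nat_lit 0) (nat_lit 3) (nat_lit 182) (nat_lit 54) r4_182 r9_54 (nat_lit 0) (nat_lit 0) (nat_lit 0) (nat_lit 0x7d99734b32) (nat_lit 1178335080),
  Rx.mk (nat_lit 43) (nat_lit 3) (nat_lit 5) (nat_lit 0) (nat_lit 3) (nat_lit 183) (nat_lit 56) r4_183 r9_56 (nat_lit 0) (nat_lit 0) (nat_lit 0) (nat_lit 0x7cf5efa410) (nat_lit 1491856704),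
  Rx.mk (nat_lit 139) (nat_lit 3) (nat_lit 1) (nat_lit 2) (nat_lit 7) (nat_lit 187) (nat_lit 58) r4_187 r9_58 (nat_lit 0) (nat_lit 0) (nat_lit 0) (nat_lit 0x7de10331ec) (nat_lit 1041122160),
  Rx.mk (nat_lit 168) (nat_lit 0) (nat_lit 5) (nat_lit 2) (nat_lit 6) (nat_lit 184) (nat_lit 53) r4_184 r9_53 (nat_lit 0) (nat_lit 0) (nat_lit 0) (nat_lit 0x7db5be2668) (nat_lit 1124087328),
  Rx.mk (nat_lit 169) (nat_lit 1) (nat_lit 5) (nat_lit 2) (nat_lit 7) (nat_lit 185) (nat_lit 55) r4_185 r9_55 (nat_lit 0) (nat_lit 0) (nat_lit 0) (nat_lit 0x7e4eb4f662) (nat_lit 830794536),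
  Rx.mk (nat_lit 171) (nat_lit 3) (nat_lit 5) (nat_lit 2) (nat_lit 7) (nat_lit 186) (nat_lit 57) r4_186 r9_57 (nat_lit 0) (nat_lit 0) (nat_lit 0) (nat_lit 0x7e49616ba0) (nat_lit 841007232)]
noncomputable def e22_49 : List Rx := [
  Rx.mk (nat_lit 40) (nat_lit 0) (nat_lit 5) (nat_lit 0) (nat_lit 2) (nat_lit 188) (nat_lit 46) r4_188 r10_46 (nat_lit 0) (nat_lit 0) (nat_lit 0) (nat_lit 0x7d74889a02) (nat_lit 1249119144),
  Rx.mk (nat_lit 41) (nat_lit 1) (nat_lit 5) (nat_lit 0) (nat_lit 3) (nat_lit 189) (nat_lit 48) r4_189 r10_48 (nat_lit 0) (nat_lit 0) (nat_lit 0) (nat_lit 0x7de345adc2) (nat_lit 1036789416),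
  Rx.mk (nat_lit 43) (nat_lit 3) (nat_lit 5) (nat_lit 0) (nat_lit 3) (nat_lit 190) (nat_lit 50) r4_190 r10_50 (nat_lit 0) (nat_lit 0) (nat_lit 0) (nat_lit 0x7df171aaf4) (nat_lit 1009616400),
  Rx.mk (nat_lit 168) (nat_lit 0) (nat_lit 5) (nat_lit 2) (nat_lit 6) (nat_lit 191) (nat_lit 47) r4_191 r10_47 (nat_lit 0) (nat_lit 0) (nat_lit 0) (nat_lit 0x7e25a6c76e) (nat_lit 909514008),
  Rx.mk (nat_lit 169) (nat_lit 1) (nat_lit 5) (nat_lit 2) (nat_lit 7) (nat_lit 192) (nat_lit 49) r4_192 r10_49 (nat_lit 0) (nat_lit 0) (nat_lit 0) (nat_lit 0x7df971caea) (nat_lit 994276296),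
  Rx.mk (nat_lit 171) (nat_lit 3) (nat_lit 5) (nat_lit 2) (nat_lit 7) (nat_lit 193) (nat_lit 52) r4_193 r10_52 (nat_lit 0) (nat_lit 0) (nat_lit 0) (nat_lit 0x7df8e77390) (nat_lit 995312448),
  Rx.mk (nat_lit 235) (nat_lit 3) (nat_lit 5) (nat_lit 3) (nat_lit 7) (nat_lit 194) (nat_lit 51) r4_194 r10_51 (nat_lit 0) (nat_lit 0) (nat_lit 0) (nat_lit 0x7e002a9f56) (nat_lit 981387576)]
noncomputable def e22_50 : List Rx := [
  Rx.mk (nat_lit 43) (nat_lit 3) (nat_lit 5) (nat_lit 0) (nat_lit 3) (nat_lit 226) (nat_lit 358) r4_226 r10_358 (nat_lit 0) (nat_lit 0) (nat_lit 0) (nat_lit 0x7adab11a14) (nat_lit 2525801616),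
  Rx.mk (nat_lit 139) (nat_lit 3) (nat_lit 1) (nat_lit 2) (nat_lit 7) (nat_lit 228) (nat_lit 357) r4_228 r10_357 (nat_lit 0) (nat_lit 0) (nat_lit 0) (nat_lit 0x7e80048138) (nat_lit 736246368),
  Rx.mk (nat_lit 171) (nat_lit 3) (nat_lit 5) (nat_lit 2) (nat_lit 7) (nat_lit 227) (nat_lit 359) r4_227 r10_359 (nat_lit 0) (nat_lit 0) (nat_lit 0) (nat_lit 0x7e63204f98) (nat_lit 791642592)]
noncomputable def e22_51 : List Rx := [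
  Rx.mk (nat_lit 36) (nat_lit 4) (nat_lit 4) (nat_lit 0) (nat_lit 0) (nat_lit 366) (nat_lit 169) r4_366 r12_169 (nat_lit 0) (nat_lit 0) (nat_lit 0) (nat_lit 0x656168c414) (nat_lit 13066269840),
  Rx.mk (nat_lit 39) (nat_lit 7) (nat_lit 4) (nat_lit 0) (nat_lit 1) (nat_lit 369) (nat_lit 177) r4_369 r12_177 (nat_lit 0) (nat_lit 0) (nat_lit 0) (nat_lit 0x6fa2424c3a) (nat_lit 8033393160),
  Rx.mk (nat_lit 44) (nat_lit 4) (nat_lit 5) (nat_lit 0) (nat_lit 2) (nat_lit 367) (nat_lit 172) r4_367 r12_172 (nat_lit 0) (nat_lit 0) (nat_lit 0) (nat_lit 0x70f7fe6f22) (nat_lit 7378151976),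
  Rx.mk (nat_lit 47) (nat_lit 7) (nat_lit 5) (nat_lit 0) (nat_lit 3) (nat_lit 370) (nat_lit 179) r4_370 r12_179 (nat_lit 0) (nat_lit 0) (nat_lit 0) (nat_lit 0x7e34af96d2) (nat_lit 880687080),
  Rx.mk (nat_lit 52) (nat_lit 4) (nat_lit 6) (nat_lit 0) (nat_lit 2) (nat_lit 368) (nat_lit 174) r4_368 r12_174 (nat_lit 0) (nat_lit 0) (nat_lit 0) (nat_lit 0x754ac05eb0) (nat_lit 5256059328),
  Rx.mk (nat_lit 55) (nat_lit 7) (nat_lit 6) (nat_lit 0) (nat_lit 3) (nat_lit 371) (nat_lit 182) r4_371 r12_182 (nat_lit 0) (nat_lit 0) (nat_lit 0) (nat_lit 0x7e20a9174e) (nat_lit 919083672),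
  Rx.mk (nat_lit 63) (nat_lit 7) (nat_lit 7) (nat_lit 0) (nat_lit 3) (nat_lit 372) (nat_lit 180) r4_372 r12_180 (nat_lit 0) (nat_lit 0) (nat_lit 0) (nat_lit 0x7d88ecd3aa) (nat_lit 1210020552),
  Rx.mk (nat_lit 100) (nat_lit 4) (nat_lit 4) (nat_lit 1) (nat_lit 4) (nat_lit 373) (nat_lit 170) r4_373 r12_170 (nat_lit 0) (nat_lit 0) (nat_lit 0) (nat_lit 0x7171c2f260) (nat_lit 7144675200),
  Rx.mk (nat_lit 103) (nat_lit 7) (nat_lit 4) (nat_lit 1) (nat_lit 5) (nat_lit 375) (nat_lit 178) r4_375 r12_178 (nat_lit 0) (nat_lit 0) (nat_lit 0) (nat_lit 0x7dd9dfe428) (nat_lit 1054808352),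
  Rx.mk (nat_lit 116) (nat_lit 4) (nat_lit 6) (nat_lit 1) (nat_lit 6) (nat_lit 374) (nat_lit 175) r4_374 r12_175 (nat_lit 0) (nat_lit 0) (nat_lit 0) (nat_lit 0x7d15e364b4) (nat_lit 1430591760),
  Rx.mk (nat_lit 119) (nat_lit 7) (nat_lit 6) (nat_lit 1) (nat_lit 7) (nat_lit 376) (nat_lit 183) r4_376 r12_183 (nat_lit 0) (nat_lit 0) (nat_lit 0) (nat_lit 0x7e4606e14c) (nat_lit 847437552),
  Rx.mk (nat_lit 127) (nat_lit 7) (nat_lit 7) (nat_lit 1) (nat_lit 7) (nat_lit 377) (nat_lit 181) r4_377 r12_181 (nat_lit 0) (nat_lit 0) (nat_lit 0) (nat_lit 0x7e0fdfe3f2) (nat_lit 951268968),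
  Rx.mk (nat_lit 228) (nat_lit 4) (nat_lit 4) (nat_lit 3) (nat_lit 4) (nat_lit 378) (nat_lit 171) r4_378 r12_171 (nat_lit 0) (nat_lit 0) (nat_lit 0) (nat_lit 0x6e2f0d2100) (nat_lit 8745145344),
  Rx.mk (nat_lit 236) (nat_lit 4) (nat_lit 5) (nat_lit 3) (nat_lit 6) (nat_lit 379) (nat_lit 173) r4_379 r12_173 (nat_lit 0) (nat_lit 0) (nat_lit 0) (nat_lit 0x7dad2f8f5a) (nat_lit 1140494472),
  Rx.mk (nat_lit 244) (nat_lit 4) (nat_lit 6) (nat_lit 3) (nat_lit 6) (nat_lit 380) (nat_lit 176) r4_380 r12_176 (nat_lit 0) (nat_lit 0) (nat_lit 0) (nat_lit 0x7e2ee053cc) (nat_lit 891826416)]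
noncomputable def e22_52 : List Rx := [
  Rx.mk (nat_lit 59) (nat_lit 3) (nat_lit 7) (nat_lit 0) (nat_lit 3) (nat_lit 198) (nat_lit 128) r4_198 r12_128 (nat_lit 0) (nat_lit 0) (nat_lit 0) (nat_lit 0x79e6f15704) (nat_lit 2993165136),
  Rx.mk (nat_lit 63) (nat_lit 7) (nat_lit 7) (nat_lit 0) (nat_lit 3) (nat_lit 197) (nat_lit 126) r4_197 r12_126 (nat_lit 0) (nat_lit 0) (nat_lit 0) (nat_lit 0x7853b78c34) (nat_lit 3766308624),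
  Rx.mk (nat_lit 187) (nat_lit 3) (nat_lit 7) (nat_lit 2) (nat_lit 7) (nat_lit 199) (nat_lit 129) r4_199 r12_129 (nat_lit 0) (nat_lit 0) (nat_lit 0) (nat_lit 0x7e8a3edd88) (nat_lit 716635296),
  Rx.mk (nat_lit 228) (nat_lit 4) (nat_lit 4) (nat_lit 3) (nat_lit 4) (nat_lit 200) (nat_lit 124) r4_200 r12_124 (nat_lit 0) (nat_lit 0) (nat_lit 0) (nat_lit 0x6c41dd75e8) (nat_lit 9690778656),
  Rx.mk (nat_lit 231) (nat_lit 7) (nat_lit 4) (nat_lit 3) (nat_lit 5) (nat_lit 202) (nat_lit 125) r4_202 r12_125 (nat_lit 0) (nat_lit 0) (nat_lit 0) (nat_lit 0x7e00441dbe) (nat_lit 981196632),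
  Rx.mk (nat_lit 244) (nat_lit 4) (nat_lit 6) (nat_lit 3) (nat_lit 6) (nat_lit 201) (nat_lit 131) r4_201 r12_131 (nat_lit 0) (nat_lit 0) (nat_lit 0) (nat_lit 0x7a87b0ca6c) (nat_lit 2684947824),
  Rx.mk (nat_lit 247) (nat_lit 7) (nat_lit 6) (nat_lit 3) (nat_lit 7) (nat_lit 203) (nat_lit 132) r4_203 r12_132 (nat_lit 0) (nat_lit 0) (nat_lit 0) (nat_lit 0x7e76bad5dc) (nat_lit 754054704),
  Rx.mk (nat_lit 255) (nat_lit 7) (nat_lit 7) (nat_lit 3) (nat_lit 7) (nat_lit 204) (nat_lit 127) r4_204 r12_127 (nat_lit 0) (nat_lit 0) (nat_lit 0) (nat_lit 0x7e302d3efc) (nat_lit 889332912),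
  Rx.mk (nat_lit 500) (nat_lit 4) (nat_lit 6) (nat_lit 7) (nat_lit 6) (nat_lit 195) (nat_lit 130) r4_195 r12_130 (nat_lit 0) (nat_lit 0) (nat_lit 0) (nat_lit 0x7bc8cf5742) (nat_lit 2069234856),
  Rx.mk (nat_lit 502) (nat_lit 6) (nat_lit 6) (nat_lit 7) (nat_lit 7) (nat_lit 196) (nat_lit 133) r4_196 r12_133 (nat_lit 0) (nat_lit 0) (nat_lit 0) (nat_lit 0x7dfbbbc648) (nat_lit 989887392)]
noncomputable def e22_53 : List Rx := [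
  Rx.mk (nat_lit 39) (nat_lit 7) (nat_lit 4) (nat_lit 0) (nat_lit 1) (nat_lit 343) (nat_lit 296) r4_343 r12_296 (nat_lit 0) (nat_lit 0) (nat_lit 0) (nat_lit 0x752fda0d30) (nat_lit 5307636672),
  Rx.mk (nat_lit 47) (nat_lit 7) (nat_lit 5) (nat_lit 0) (nat_lit 3) (nat_lit 344) (nat_lit 297) r4_344 r12_297 (nat_lit 0) (nat_lit 0) (nat_lit 0) (nat_lit 0x7defaae762) (nat_lit 1013022504),
  Rx.mk (nat_lit 55) (nat_lit 7) (nat_lit 6) (nat_lit 0) (nat_lit 3) (nat_lit 345) (nat_lit 298) r4_345 r12_298 (nat_lit 0) (nat_lit 0) (nat_lit 0) (nat_lit 0x7ddf492d8e) (nat_lit 1044432792),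
  Rx.mk (nat_lit 103) (nat_lit 7) (nat_lit 4) (nat_lit 1) (nat_lit 5) (nat_lit 346) (nat_lit 299) r4_346 r12_299 (nat_lit 0) (nat_lit 0) (nat_lit 0) (nat_lit 0x79f1f206ee) (nat_lit 2972068632),
  Rx.mk (nat_lit 111) (nat_lit 7) (nat_lit 5) (nat_lit 1) (nat_lit 7) (nat_lit 347) (nat_lit 300) r4_347 r12_300 (nat_lit 0) (nat_lit 0) (nat_lit 0) (nat_lit 0x7e5fb6663a) (nat_lit 798188040),
  Rx.mk (nat_lit 119) (nat_lit 7) (nat_lit 6) (nat_lit 1) (nat_lit 7) (nat_lit 348) (nat_lit 301) r4_348 r12_301 (nat_lit 0) (nat_lit 0) (nat_lit 0) (nat_lit 0x7e24ff91e2) (nat_lit 910766376)]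
noncomputable def e22_54 : List Rx := [
  Rx.mk (nat_lit 59) (nat_lit 3) (nat_lit 7) (nat_lit 0) (nat_lit 3) (nat_lit 59) (nat_lit 27) r4_59 r12_27 (nat_lit 0) (nat_lit 0) (nat_lit 0) (nat_lit 0x7e7c8d78ac) (nat_lit 742890096),
  Rx.mk (nat_lit 187) (nat_lit 3) (nat_lit 7) (nat_lit 2) (nat_lit 7) (nat_lit 60) (nat_lit 32) r4_60 r12_32 (nat_lit 0) (nat_lit 0) (nat_lit 0) (nat_lit 0x7edd36edb4) (nat_lit 557550864),
  Rx.mk (nat_lit 227) (nat_lit 3) (nat_lit 4) (nat_lit 3) (nat_lit 5) (nat_lit 63) (nat_lit 28) r4_63 r12_28 (nat_lit 0) (nat_lit 0) (nat_lit 0) (nat_lit 0x7bf02e0130) (nat_lit 1993747392),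
  Rx.mk (nat_lit 231) (nat_lit 7) (nat_lit 4) (nat_lit 3) (nat_lit 5) (nat_lit 61) (nat_lit 30) r4_61 r12_30 (nat_lit 0) (nat_lit 0) (nat_lit 0) (nat_lit 0x7e3684f97a) (nat_lit 877171464),
  Rx.mk (nat_lit 247) (nat_lit 7) (nat_lit 6) (nat_lit 3) (nat_lit 7) (nat_lit 62) (nat_lit 31) r4_62 r12_31 (nat_lit 0) (nat_lit 0) (nat_lit 0) (nat_lit 0x7eac08c0c8) (nat_lit 651849120),
  Rx.mk (nat_lit 251) (nat_lit 3) (nat_lit 7) (nat_lit 3) (nat_lit 7) (nat_lit 64) (nat_lit 29) r4_64 r12_29 (nat_lit 0) (nat_lit 0) (nat_lit 0) (nat_lit 0x7d62493e0a) (nat_lit 1284106824),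
  Rx.mk (nat_lit 503) (nat_lit 7) (nat_lit 6) (nat_lit 7) (nat_lit 7) (nat_lit 58) (nat_lit 33) r4_58 r12_33 (nat_lit 0) (nat_lit 0) (nat_lit 0) (nat_lit 0x7e581e7fc0) (nat_lit 812747520)]
noncomputable def e22_55 : List Rx := [
  Rx.mk (nat_lit 43) (nat_lit 3) (nat_lit 5) (nat_lit 0) (nat_lit 3) (nat_lit 65) (nat_lit 70) r4_65 r3_70 (nat_lit 0) (nat_lit 0) (nat_lit 0) (nat_lit 0x7ffc241dc2) (nat_lit 7399080),
  Rx.mk (nat_lit 168) (nat_lit 0) (nat_lit 5) (nat_lit 2) (nat_lit 6) (nat_lit 66) (nat_lit 69) r4_66 r3_69 (nat_lit 0) (nat_lit 0) (nat_lit 0) (nat_lit 0x7f9a3d1c94) (nat_lit 195116688),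
  Rx.mk (nat_lit 171) (nat_lit 3) (nat_lit 5) (nat_lit 2) (nat_lit 7) (nat_lit 67) (nat_lit 71) r4_67 r3_71 (nat_lit 0) (nat_lit 0) (nat_lit 0) (nat_lit 0x7fe190a714) (nat_lit 58355856)]
noncomputable def e22_56 : List Rx := [
  Rx.mk (nat_lit 43) (nat_lit 3) (nat_lit 5) (nat_lit 0) (nat_lit 3) (nat_lit 89) (nat_lit 67) r4_89 r12_67 (nat_lit 0) (nat_lit 0) (nat_lit 0) (nat_lit 0x7e028ed910) (nat_lit 976802112),
  Rx.mk (nat_lit 168) (nat_lit 0) (nat_lit 5) (nat_lit 2) (nat_lit 6) (nat_lit 90) (nat_lit 66) r4_90 r12_66 (nat_lit 0) (nat_lit 0) (nat_lit 0) (nat_lit 0x7f16fd1118) (nat_lit 446775264),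
  Rx.mk (nat_lit 171) (nat_lit 3) (nat_lit 5) (nat_lit 2) (nat_lit 7) (nat_lit 91) (nat_lit 69) r4_91 r12_69 (nat_lit 0) (nat_lit 0) (nat_lit 0) (nat_lit 0x7eff7569aa) (nat_lit 491891400),
  Rx.mk (nat_lit 235) (nat_lit 3) (nat_lit 5) (nat_lit 3) (nat_lit 7) (nat_lit 92) (nat_lit 68) r4_92 r12_68 (nat_lit 0) (nat_lit 0) (nat_lit 0) (nat_lit 0x7e502f9eb6) (nat_lit 827958456)]
noncomputable def e22_57 : List Rx := [
  Rx.mk (nat_lit 43) (nat_lit 3) (nat_lit 5) (nat_lit 0) (nat_lit 3) (nat_lit 224) (nat_lit 304) r4_224 r12_304 (nat_lit 0) (nat_lit 0) (nat_lit 0) (nat_lit 0x7b83692dea) (nat_lit 2202300360),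
  Rx.mk (nat_lit 171) (nat_lit 3) (nat_lit 5) (nat_lit 2) (nat_lit 7) (nat_lit 225) (nat_lit 305) r4_225 r12_305 (nat_lit 0) (nat_lit 0) (nat_lit 0) (nat_lit 0x7b9dce877a) (nat_lit 2151688968)]
noncomputable def e22 : List (List Rx) := [e22_0, e22_1, e22_2, e22_3, e22_4, e22_5, e22_6, e22_7, e22_8, e22_9, e22_10, e22_11, e22_12, e22_13, e22_14, e22_15, e22_16, e22_17, e22_18, e22_19, e22_20, e22_21, e22_22, e22_23, e22_24, e22_25, e22_26, e22_27, e22_28, e22_29, e22_30, e22_31, e22_32, e22_33, e22_34, e22_35, e22_36, e22_37, e22_38, e22_39, e22_40, e22_41, e22_42, e22_43, e22_44, e22_45, e22_46, e22_47, e22_48, e22_49, e22_50, e22_51, e22_52, e22_53, e22_54, e22_55, e22_56, e22_57]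
noncomputable def e23_0 : List Rx := [
  Rx.mk (nat_lit 100) (nat_lit 4) (nat_lit 4) (nat_lit 1) (nat_lit 4) (nat_lit 56) (nat_lit 177) r6_56 r0_177 (nat_lit 0) (nat_lit 0) (nat_lit 0) (nat_lit 0x6042df11ce) (nat_lit 15579090072),
  Rx.mk (nat_lit 108) (nat_lit 4) (nat_lit 5) (nat_lit 1) (nat_lit 6) (nat_lit 59) (nat_lit 179) r6_59 r0_179 (nat_lit 0) (nat_lit 0) (nat_lit 0) (nat_lit 0x7d961fe06c) (nat_lit 1184712048),
  Rx.mk (nat_lit 356) (nat_lit 4) (nat_lit 4) (nat_lit 5) (nat_lit 4) (nat_lit 57) (nat_lit 178) r6_57 r0_178 (nat_lit 0) (nat_lit 0) (nat_lit 0) (nat_lit 0x6d7c714b70) (nat_lit 9087609024),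
  Rx.mk (nat_lit 359) (nat_lit 7) (nat_lit 4) (nat_lit 5) (nat_lit 5) (nat_lit 58) (nat_lit 182) r6_58 r0_182 (nat_lit 0) (nat_lit 0) (nat_lit 0) (nat_lit 0x7e87fa21d6) (nat_lit 720984888),
  Rx.mk (nat_lit 364) (nat_lit 4) (nat_lit 5) (nat_lit 5) (nat_lit 6) (nat_lit 60) (nat_lit 180) r6_60 r0_180 (nat_lit 0) (nat_lit 0) (nat_lit 0) (nat_lit 0x7d7f2b2fce) (nat_lit 1228727448),
  Rx.mk (nat_lit 367) (nat_lit 7) (nat_lit 5) (nat_lit 5) (nat_lit 7) (nat_lit 61) (nat_lit 183) r6_61 r0_183 (nat_lit 0) (nat_lit 0) (nat_lit 0) (nat_lit 0x7e596ecaba) (nat_lit 810228744),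
  Rx.mk (nat_lit 372) (nat_lit 4) (nat_lit 6) (nat_lit 5) (nat_lit 6) (nat_lit 62) (nat_lit 181) r6_62 r0_181 (nat_lit 0) (nat_lit 0) (nat_lit 0) (nat_lit 0x7e643c7dd4) (nat_lit 789514128),
  Rx.mk (nat_lit 375) (nat_lit 7) (nat_lit 6) (nat_lit 5) (nat_lit 7) (nat_lit 63) (nat_lit 184) r6_63 r0_184 (nat_lit 0) (nat_lit 0) (nat_lit 0) (nat_lit 0x7e6c393e00) (nat_lit 774199296)]
noncomputable def e23_1 : List Rx := [
  Rx.mk (nat_lit 356) (nat_lit 4) (nat_lit 4) (nat_lit 5) (nat_lit 4) (nat_lit 64) (nat_lit 192) r6_64 r1_192 (nat_lit 0) (nat_lit 0) (nat_lit 0) (nat_lit 0x722130dad2) (nat_lit 6808307688),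
  Rx.mk (nat_lit 359) (nat_lit 7) (nat_lit 4) (nat_lit 5) (nat_lit 5) (nat_lit 65) (nat_lit 195) r6_65 r1_195 (nat_lit 0) (nat_lit 0) (nat_lit 0) (nat_lit 0x7d8beb23c2) (nat_lit 1204281000),
  Rx.mk (nat_lit 364) (nat_lit 4) (nat_lit 5) (nat_lit 5) (nat_lit 6) (nat_lit 66) (nat_lit 193) r6_66 r1_193 (nat_lit 0) (nat_lit 0) (nat_lit 0) (nat_lit 0x7d814b2dcc) (nat_lit 1224653040),
  Rx.mk (nat_lit 367) (nat_lit 7) (nat_lit 5) (nat_lit 5) (nat_lit 7) (nat_lit 67) (nat_lit 196) r6_67 r1_196 (nat_lit 0) (nat_lit 0) (nat_lit 0) (nat_lit 0x7df3680b8c) (nat_lit 1005853680),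
  Rx.mk (nat_lit 372) (nat_lit 4) (nat_lit 6) (nat_lit 5) (nat_lit 6) (nat_lit 68) (nat_lit 194) r6_68 r1_194 (nat_lit 0) (nat_lit 0) (nat_lit 0) (nat_lit 0x7dcda1a818) (nat_lit 1078283232),
  Rx.mk (nat_lit 374) (nat_lit 6) (nat_lit 6) (nat_lit 5) (nat_lit 7) (nat_lit 69) (nat_lit 198) r6_69 r1_198 (nat_lit 0) (nat_lit 0) (nat_lit 0) (nat_lit 0x7d43cb4608) (nat_lit 1342572192),
  Rx.mk (nat_lit 375) (nat_lit 7) (nat_lit 6) (nat_lit 5) (nat_lit 7) (nat_lit 70) (nat_lit 197) r6_70 r1_197 (nat_lit 0) (nat_lit 0) (nat_lit 0) (nat_lit 0x7dd2126108) (nat_lit 1069769376)]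
noncomputable def e23_2 : List Rx := [
  Rx.mk (nat_lit 292) (nat_lit 4) (nat_lit 4) (nat_lit 4) (nat_lit 0) (nat_lit 21) (nat_lit 189) r6_21 r2_189 (nat_lit 0) (nat_lit 0) (nat_lit 0) (nat_lit 0x3b982e8184) (nat_lit 33577092432),
  Rx.mk (nat_lit 295) (nat_lit 7) (nat_lit 4) (nat_lit 4) (nat_lit 1) (nat_lit 23) (nat_lit 193) r6_23 r2_193 (nat_lit 0) (nat_lit 0) (nat_lit 0) (nat_lit 0x75dc704320) (nat_lit 4976719488),
  Rx.mk (nat_lit 308) (nat_lit 4) (nat_lit 6) (nat_lit 4) (nat_lit 2) (nat_lit 26) (nat_lit 191) r6_26 r2_191 (nat_lit 0) (nat_lit 0) (nat_lit 0) (nat_lit 0x6e2c488d4c) (nat_lit 8750452464),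
  Rx.mk (nat_lit 310) (nat_lit 6) (nat_lit 6) (nat_lit 4) (nat_lit 3) (nat_lit 28) (nat_lit 200) r6_28 r2_200 (nat_lit 0) (nat_lit 0) (nat_lit 0) (nat_lit 0x7d86aa57d4) (nat_lit 1214353296),
  Rx.mk (nat_lit 311) (nat_lit 7) (nat_lit 6) (nat_lit 4) (nat_lit 3) (nat_lit 31) (nat_lit 197) r6_31 r2_197 (nat_lit 0) (nat_lit 0) (nat_lit 0) (nat_lit 0x7dd93fce2a) (nat_lit 1056007368),
  Rx.mk (nat_lit 356) (nat_lit 4) (nat_lit 4) (nat_lit 5) (nat_lit 4) (nat_lit 22) (nat_lit 190) r6_22 r2_190 (nat_lit 0) (nat_lit 0) (nat_lit 0) (nat_lit 0x68b79d5d74) (nat_lit 11428419600),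
  Rx.mk (nat_lit 359) (nat_lit 7) (nat_lit 4) (nat_lit 5) (nat_lit 5) (nat_lit 24) (nat_lit 194) r6_24 r2_194 (nat_lit 0) (nat_lit 0) (nat_lit 0) (nat_lit 0x7d6beb63de) (nat_lit 1265635800),
  Rx.mk (nat_lit 372) (nat_lit 4) (nat_lit 6) (nat_lit 5) (nat_lit 6) (nat_lit 27) (nat_lit 192) r6_27 r2_192 (nat_lit 0) (nat_lit 0) (nat_lit 0) (nat_lit 0x7dcd510d22) (nat_lit 1078886952),
  Rx.mk (nat_lit 374) (nat_lit 6) (nat_lit 6) (nat_lit 5) (nat_lit 7) (nat_lit 29) (nat_lit 201) r6_29 r2_201 (nat_lit 0) (nat_lit 0) (nat_lit 0) (nat_lit 0x7dfc7eba18) (nat_lit 988427232),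
  Rx.mk (nat_lit 375) (nat_lit 7) (nat_lit 6) (nat_lit 5) (nat_lit 7) (nat_lit 32) (nat_lit 198) r6_32 r2_198 (nat_lit 0) (nat_lit 0) (nat_lit 0) (nat_lit 0x7ddcd23500) (nat_lit 1049158656),
  Rx.mk (nat_lit 438) (nat_lit 6) (nat_lit 6) (nat_lit 6) (nat_lit 7) (nat_lit 30) (nat_lit 202) r6_30 r2_202 (nat_lit 0) (nat_lit 0) (nat_lit 0) (nat_lit 0x7dda493d92) (nat_lit 1054019304),
  Rx.mk (nat_lit 487) (nat_lit 7) (nat_lit 4) (nat_lit 7) (nat_lit 5) (nat_lit 25) (nat_lit 195) r6_25 r2_195 (nat_lit 0) (nat_lit 0) (nat_lit 0) (nat_lit 0x7d26cf15e8) (nat_lit 1398148128),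
  Rx.mk (nat_lit 503) (nat_lit 7) (nat_lit 6) (nat_lit 7) (nat_lit 7) (nat_lit 33) (nat_lit 199) r6_33 r2_199 (nat_lit 0) (nat_lit 0) (nat_lit 0) (nat_lit 0x7df6c535b6) (nat_lit 999403704),
  Rx.mk (nat_lit 511) (nat_lit 7) (nat_lit 7) (nat_lit 7) (nat_lit 7) (nat_lit 34) (nat_lit 196) r6_34 r2_196 (nat_lit 0) (nat_lit 0) (nat_lit 0) (nat_lit 0x7dc2f852b8) (nat_lit 1098725472)]
noncomputable def e23_3 : List Rx := [
  Rx.mk (nat_lit 100) (nat_lit 4) (nat_lit 4) (nat_lit 1) (nat_lit 4) (nat_lit 52) (nat_lit 164) r6_52 r3_164 (nat_lit 0) (nat_lit 0) (nat_lit 0) (nat_lit 0x70137118dc) (nat_lit 7816376880),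
  Rx.mk (nat_lit 103) (nat_lit 7) (nat_lit 4) (nat_lit 1) (nat_lit 5) (nat_lit 53) (nat_lit 166) r6_53 r3_166 (nat_lit 0) (nat_lit 0) (nat_lit 0) (nat_lit 0x7ed67c9960) (nat_lit 570450816),
  Rx.mk (nat_lit 108) (nat_lit 4) (nat_lit 5) (nat_lit 1) (nat_lit 6) (nat_lit 54) (nat_lit 165) r6_54 r3_165 (nat_lit 0) (nat_lit 0) (nat_lit 0) (nat_lit 0x721a4209c6) (nat_lit 6821600760),
  Rx.mk (nat_lit 111) (nat_lit 7) (nat_lit 5) (nat_lit 1) (nat_lit 7) (nat_lit 55) (nat_lit 167) r6_55 r3_167 (nat_lit 0) (nat_lit 0) (nat_lit 0) (nat_lit 0x7eecb9f574) (nat_lit 527808528)]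
noncomputable def e23_4 : List Rx := [
  Rx.mk (nat_lit 100) (nat_lit 4) (nat_lit 4) (nat_lit 1) (nat_lit 4) (nat_lit 71) (nat_lit 167) r6_71 r4_167 (nat_lit 0) (nat_lit 0) (nat_lit 0) (nat_lit 0x6ce30222fc) (nat_lit 9381803184),
  Rx.mk (nat_lit 103) (nat_lit 7) (nat_lit 4) (nat_lit 1) (nat_lit 5) (nat_lit 72) (nat_lit 169) r6_72 r4_169 (nat_lit 0) (nat_lit 0) (nat_lit 0) (nat_lit 0x7e5529ef0c) (nat_lit 818414064),
  Rx.mk (nat_lit 108) (nat_lit 4) (nat_lit 5) (nat_lit 1) (nat_lit 6) (nat_lit 74) (nat_lit 168) r6_74 r4_168 (nat_lit 0) (nat_lit 0) (nat_lit 0) (nat_lit 0x7cb6e0d53c) (nat_lit 1612763568),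
  Rx.mk (nat_lit 111) (nat_lit 7) (nat_lit 5) (nat_lit 1) (nat_lit 7) (nat_lit 75) (nat_lit 171) r6_75 r4_171 (nat_lit 0) (nat_lit 0) (nat_lit 0) (nat_lit 0x7e5e361e40) (nat_lit 801066240),
  Rx.mk (nat_lit 359) (nat_lit 7) (nat_lit 4) (nat_lit 5) (nat_lit 5) (nat_lit 73) (nat_lit 170) r6_73 r4_170 (nat_lit 0) (nat_lit 0) (nat_lit 0) (nat_lit 0x7e444b5d06) (nat_lit 850759416),
  Rx.mk (nat_lit 367) (nat_lit 7) (nat_lit 5) (nat_lit 5) (nat_lit 7) (nat_lit 76) (nat_lit 172) r6_76 r4_172 (nat_lit 0) (nat_lit 0) (nat_lit 0) (nat_lit 0x7df13cce42) (nat_lit 1010012328),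
  Rx.mk (nat_lit 375) (nat_lit 7) (nat_lit 6) (nat_lit 5) (nat_lit 7) (nat_lit 77) (nat_lit 173) r6_77 r4_173 (nat_lit 0) (nat_lit 0) (nat_lit 0) (nat_lit 0x7dcf6e0b50) (nat_lit 1074835008)]
noncomputable def e23_5 : List Rx := [
  Rx.mk (nat_lit 59) (nat_lit 3) (nat_lit 7) (nat_lit 0) (nat_lit 3) (nat_lit 36) (nat_lit 99) r6_36 r3_99 (nat_lit 0) (nat_lit 0) (nat_lit 0) (nat_lit 0x7fdd138eea) (nat_lit 66962376),
  Rx.mk (nat_lit 231) (nat_lit 7) (nat_lit 4) (nat_lit 3) (nat_lit 5) (nat_lit 35) (nat_lit 97) r6_35 r3_97 (nat_lit 0) (nat_lit 0) (nat_lit 0) (nat_lit 0x7fdd138eea) (nat_lit 66962376),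
  Rx.mk (nat_lit 251) (nat_lit 3) (nat_lit 7) (nat_lit 3) (nat_lit 7) (nat_lit 37) (nat_lit 100) r6_37 r3_100 (nat_lit 0) (nat_lit 0) (nat_lit 0) (nat_lit 0x7e36b136b6) (nat_lit 876840120),
  Rx.mk (nat_lit 255) (nat_lit 7) (nat_lit 7) (nat_lit 3) (nat_lit 7) (nat_lit 38) (nat_lit 98) r6_38 r3_98 (nat_lit 0) (nat_lit 0) (nat_lit 0) (nat_lit 0x7e36b136b6) (nat_lit 876840120)]
noncomputable def e23_6 : List Rx := [
  Rx.mk (nat_lit 251) (nat_lit 3) (nat_lit 7) (nat_lit 3) (nat_lit 7) (nat_lit 8) (nat_lit 104) r6_8 r0_104 (nat_lit 0) (nat_lit 0) (nat_lit 0) (nat_lit 0x7defce8528) (nat_lit 1012755744),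
  Rx.mk (nat_lit 255) (nat_lit 7) (nat_lit 7) (nat_lit 3) (nat_lit 7) (nat_lit 9) (nat_lit 103) r6_9 r0_103 (nat_lit 0) (nat_lit 0) (nat_lit 0) (nat_lit 0x7df18ca944) (nat_lit 1009414224),
  Rx.mk (nat_lit 308) (nat_lit 4) (nat_lit 6) (nat_lit 4) (nat_lit 2) (nat_lit 2) (nat_lit 105) r6_2 r0_105 (nat_lit 0) (nat_lit 0) (nat_lit 0) (nat_lit 0x66b9ed9a6e) (nat_lit 12405690648),
  Rx.mk (nat_lit 310) (nat_lit 6) (nat_lit 6) (nat_lit 4) (nat_lit 3) (nat_lit 4) (nat_lit 108) r6_4 r0_108 (nat_lit 0) (nat_lit 0) (nat_lit 0) (nat_lit 0x78a031444c) (nat_lit 3619674864),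
  Rx.mk (nat_lit 438) (nat_lit 6) (nat_lit 6) (nat_lit 6) (nat_lit 7) (nat_lit 5) (nat_lit 110) r6_5 r0_110 (nat_lit 0) (nat_lit 0) (nat_lit 0) (nat_lit 0x7d5af3b36a) (nat_lit 1298169288),
  Rx.mk (nat_lit 484) (nat_lit 4) (nat_lit 4) (nat_lit 7) (nat_lit 4) (nat_lit 0) (nat_lit 100) r6_0 r0_100 (nat_lit 0) (nat_lit 0) (nat_lit 0) (nat_lit 0x5b048c5c38) (nat_lit 18152855136),
  Rx.mk (nat_lit 487) (nat_lit 7) (nat_lit 4) (nat_lit 7) (nat_lit 5) (nat_lit 1) (nat_lit 101) r6_1 r0_101 (nat_lit 0) (nat_lit 0) (nat_lit 0) (nat_lit 0x777f139748) (nat_lit 4174024608),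
  Rx.mk (nat_lit 500) (nat_lit 4) (nat_lit 6) (nat_lit 7) (nat_lit 6) (nat_lit 3) (nat_lit 106) r6_3 r0_106 (nat_lit 0) (nat_lit 0) (nat_lit 0) (nat_lit 0x77e3aa8d74) (nat_lit 3981154320),
  Rx.mk (nat_lit 502) (nat_lit 6) (nat_lit 6) (nat_lit 7) (nat_lit 7) (nat_lit 6) (nat_lit 109) r6_6 r0_109 (nat_lit 0) (nat_lit 0) (nat_lit 0) (nat_lit 0x7de57b0a6a) (nat_lit 1032554952),
  Rx.mk (nat_lit 503) (nat_lit 7) (nat_lit 6) (nat_lit 7) (nat_lit 7) (nat_lit 7) (nat_lit 107) r6_7 r0_107 (nat_lit 0) (nat_lit 0) (nat_lit 0) (nat_lit 0x7e027b5a48) (nat_lit 976948128),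
  Rx.mk (nat_lit 511) (nat_lit 7) (nat_lit 7) (nat_lit 7) (nat_lit 7) (nat_lit 10) (nat_lit 102) r6_10 r0_102 (nat_lit 0) (nat_lit 0) (nat_lit 0) (nat_lit 0x7cd66efc3a) (nat_lit 1552259592)]
noncomputable def e23_7 : List Rx := [
  Rx.mk (nat_lit 292) (nat_lit 4) (nat_lit 4) (nat_lit 4) (nat_lit 0) (nat_lit 11) (nat_lit 107) r6_11 r1_107 (nat_lit 0) (nat_lit 0) (nat_lit 0) (nat_lit 0x55073477b4) (nat_lit 21092881680),
  Rx.mk (nat_lit 308) (nat_lit 4) (nat_lit 6) (nat_lit 4) (nat_lit 2) (nat_lit 14) (nat_lit 111) r6_14 r1_111 (nat_lit 0) (nat_lit 0) (nat_lit 0) (nat_lit 0x67e0964ebc) (nat_lit 11840712624),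
  Rx.mk (nat_lit 310) (nat_lit 6) (nat_lit 6) (nat_lit 4) (nat_lit 3) (nat_lit 16) (nat_lit 114) r6_16 r1_114 (nat_lit 0) (nat_lit 0) (nat_lit 0) (nat_lit 0x6d67741b58) (nat_lit 9127853280),
  Rx.mk (nat_lit 438) (nat_lit 6) (nat_lit 6) (nat_lit 6) (nat_lit 7) (nat_lit 17) (nat_lit 116) r6_17 r1_116 (nat_lit 0) (nat_lit 0) (nat_lit 0) (nat_lit 0x7ce256fdae) (nat_lit 1529430552),
  Rx.mk (nat_lit 484) (nat_lit 4) (nat_lit 4) (nat_lit 7) (nat_lit 4) (nat_lit 12) (nat_lit 108) r6_12 r1_108 (nat_lit 0) (nat_lit 0) (nat_lit 0) (nat_lit 0x6c89b37840) (nat_lit 9553040640),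
  Rx.mk (nat_lit 487) (nat_lit 7) (nat_lit 4) (nat_lit 7) (nat_lit 5) (nat_lit 13) (nat_lit 109) r6_13 r1_109 (nat_lit 0) (nat_lit 0) (nat_lit 0) (nat_lit 0x7c894ceea8) (nat_lit 1700154144),
  Rx.mk (nat_lit 500) (nat_lit 4) (nat_lit 6) (nat_lit 7) (nat_lit 6) (nat_lit 15) (nat_lit 112) r6_15 r1_112 (nat_lit 0) (nat_lit 0) (nat_lit 0) (nat_lit 0x7d6284da50) (nat_lit 1283660352),
  Rx.mk (nat_lit 502) (nat_lit 6) (nat_lit 6) (nat_lit 7) (nat_lit 7) (nat_lit 18) (nat_lit 115) r6_18 r1_115 (nat_lit 0) (nat_lit 0) (nat_lit 0) (nat_lit 0x7da9ea63b0) (nat_lit 1146764736),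
  Rx.mk (nat_lit 503) (nat_lit 7) (nat_lit 6) (nat_lit 7) (nat_lit 7) (nat_lit 19) (nat_lit 113) r6_19 r1_113 (nat_lit 0) (nat_lit 0) (nat_lit 0) (nat_lit 0x7de1bde640) (nat_lit 1039723776),
  Rx.mk (nat_lit 511) (nat_lit 7) (nat_lit 7) (nat_lit 7) (nat_lit 7) (nat_lit 20) (nat_lit 110) r6_20 r1_110 (nat_lit 0) (nat_lit 0) (nat_lit 0) (nat_lit 0x7de4f8f28c) (nat_lit 1033529328)]
noncomputable def e23_8 : List Rx := [
  Rx.mk (nat_lit 59) (nat_lit 3) (nat_lit 7) (nat_lit 0) (nat_lit 3) (nat_lit 45) (nat_lit 102) r6_45 r4_102 (nat_lit 0) (nat_lit 0) (nat_lit 0) (nat_lit 0x7e14d85466) (nat_lit 941738616),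
  Rx.mk (nat_lit 231) (nat_lit 7) (nat_lit 4) (nat_lit 3) (nat_lit 5) (nat_lit 40) (nat_lit 100) r6_40 r4_100 (nat_lit 0) (nat_lit 0) (nat_lit 0) (nat_lit 0x7dd0537cf8) (nat_lit 1073116512),
  Rx.mk (nat_lit 251) (nat_lit 3) (nat_lit 7) (nat_lit 3) (nat_lit 7) (nat_lit 46) (nat_lit 103) r6_46 r4_103 (nat_lit 0) (nat_lit 0) (nat_lit 0) (nat_lit 0x7dd10471e8) (nat_lit 1071791136),
  Rx.mk (nat_lit 255) (nat_lit 7) (nat_lit 7) (nat_lit 3) (nat_lit 7) (nat_lit 47) (nat_lit 101) r6_47 r4_101 (nat_lit 0) (nat_lit 0) (nat_lit 0) (nat_lit 0x7df1d384d6) (nat_lit 1008883512),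
  Rx.mk (nat_lit 484) (nat_lit 4) (nat_lit 4) (nat_lit 7) (nat_lit 4) (nat_lit 39) (nat_lit 98) r6_39 r4_98 (nat_lit 0) (nat_lit 0) (nat_lit 0) (nat_lit 0x666c24b74a) (nat_lit 12554834760),
  Rx.mk (nat_lit 487) (nat_lit 7) (nat_lit 4) (nat_lit 7) (nat_lit 5) (nat_lit 41) (nat_lit 99) r6_41 r4_99 (nat_lit 0) (nat_lit 0) (nat_lit 0) (nat_lit 0x7e8603014a) (nat_lit 724753224),
  Rx.mk (nat_lit 500) (nat_lit 4) (nat_lit 6) (nat_lit 7) (nat_lit 6) (nat_lit 42) (nat_lit 104) r6_42 r4_104 (nat_lit 0) (nat_lit 0) (nat_lit 0) (nat_lit 0x7d86242038) (nat_lit 1215358560),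
  Rx.mk (nat_lit 502) (nat_lit 6) (nat_lit 6) (nat_lit 7) (nat_lit 7) (nat_lit 43) (nat_lit 106) r6_43 r4_106 (nat_lit 0) (nat_lit 0) (nat_lit 0) (nat_lit 0x7df79428c6) (nat_lit 997853688),
  Rx.mk (nat_lit 503) (nat_lit 7) (nat_lit 6) (nat_lit 7) (nat_lit 7) (nat_lit 44) (nat_lit 105) r6_44 r4_105 (nat_lit 0) (nat_lit 0) (nat_lit 0) (nat_lit 0x7e6a93d858) (nat_lit 777355488)]
noncomputable def e23_9 : List Rx := [
  Rx.mk (nat_lit 39) (nat_lit 7) (nat_lit 4) (nat_lit 0) (nat_lit 1) (nat_lit 78) (nat_lit 195) r6_78 r5_195 (nat_lit 0) (nat_lit 0) (nat_lit 0) (nat_lit 0x75d0a39ff6) (nat_lit 4999343544),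
  Rx.mk (nat_lit 47) (nat_lit 7) (nat_lit 5) (nat_lit 0) (nat_lit 3) (nat_lit 81) (nat_lit 198) r6_81 r5_198 (nat_lit 0) (nat_lit 0) (nat_lit 0) (nat_lit 0x7e658ba8e0) (nat_lit 787003776),
  Rx.mk (nat_lit 59) (nat_lit 3) (nat_lit 7) (nat_lit 0) (nat_lit 3) (nat_lit 84) (nat_lit 193) r6_84 r5_193 (nat_lit 0) (nat_lit 0) (nat_lit 0) (nat_lit 0x7e9d322e40) (nat_lit 680299776),
  Rx.mk (nat_lit 63) (nat_lit 7) (nat_lit 7) (nat_lit 0) (nat_lit 3) (nat_lit 86) (nat_lit 201) r6_86 r5_201 (nat_lit 0) (nat_lit 0) (nat_lit 0) (nat_lit 0x7dc43a5e96) (nat_lit 1096313400),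
  Rx.mk (nat_lit 103) (nat_lit 7) (nat_lit 4) (nat_lit 1) (nat_lit 5) (nat_lit 79) (nat_lit 196) r6_79 r5_196 (nat_lit 0) (nat_lit 0) (nat_lit 0) (nat_lit 0x7e3c4d7cec) (nat_lit 866082672),
  Rx.mk (nat_lit 111) (nat_lit 7) (nat_lit 5) (nat_lit 1) (nat_lit 7) (nat_lit 82) (nat_lit 199) r6_82 r5_199 (nat_lit 0) (nat_lit 0) (nat_lit 0) (nat_lit 0x7dd032df02) (nat_lit 1073360808),
  Rx.mk (nat_lit 123) (nat_lit 3) (nat_lit 7) (nat_lit 1) (nat_lit 7) (nat_lit 85) (nat_lit 194) r6_85 r5_194 (nat_lit 0) (nat_lit 0) (nat_lit 0) (nat_lit 0x7e6dd4e444) (nat_lit 771116112),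
  Rx.mk (nat_lit 127) (nat_lit 7) (nat_lit 7) (nat_lit 1) (nat_lit 7) (nat_lit 87) (nat_lit 202) r6_87 r5_202 (nat_lit 0) (nat_lit 0) (nat_lit 0) (nat_lit 0x7dd8ca1586) (nat_lit 1056889080),
  Rx.mk (nat_lit 231) (nat_lit 7) (nat_lit 4) (nat_lit 3) (nat_lit 5) (nat_lit 80) (nat_lit 197) r6_80 r5_197 (nat_lit 0) (nat_lit 0) (nat_lit 0) (nat_lit 0x7e7262db60) (nat_lit 762383232),
  Rx.mk (nat_lit 239) (nat_lit 7) (nat_lit 5) (nat_lit 3) (nat_lit 7) (nat_lit 83) (nat_lit 200) r6_83 r5_200 (nat_lit 0) (nat_lit 0) (nat_lit 0) (nat_lit 0x7e468179a2) (nat_lit 846519336)]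
noncomputable def e23_10 : List Rx := [
  Rx.mk (nat_lit 100) (nat_lit 4) (nat_lit 4) (nat_lit 1) (nat_lit 4) (nat_lit 217) (nat_lit 250) r6_217 r0_250 (nat_lit 0) (nat_lit 0) (nat_lit 0) (nat_lit 0x69df6adf74) (nat_lit 10861248528),
  Rx.mk (nat_lit 101) (nat_lit 5) (nat_lit 4) (nat_lit 1) (nat_lit 5) (nat_lit 218) (nat_lit 251) r6_218 r0_251 (nat_lit 0) (nat_lit 0) (nat_lit 0) (nat_lit 0x7da3d1a542) (nat_lit 1158454440),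
  Rx.mk (nat_lit 108) (nat_lit 4) (nat_lit 5) (nat_lit 1) (nat_lit 6) (nat_lit 219) (nat_lit 252) r6_219 r0_252 (nat_lit 0) (nat_lit 0) (nat_lit 0) (nat_lit 0x7bc64bff7a) (nat_lit 2074053384),
  Rx.mk (nat_lit 109) (nat_lit 5) (nat_lit 5) (nat_lit 1) (nat_lit 7) (nat_lit 220) (nat_lit 253) r6_220 r0_253 (nat_lit 0) (nat_lit 0) (nat_lit 0) (nat_lit 0x7e1cb5968a) (nat_lit 926659656)]
noncomputable def e23_11 : List Rx := [
  Rx.mk (nat_lit 100) (nat_lit 4) (nat_lit 4) (nat_lit 1) (nat_lit 4) (nat_lit 229) (nat_lit 229) r6_229 r6_229 (nat_lit 0) (nat_lit 0) (nat_lit 0) (nat_lit 0x734b1afb06) (nat_lit 6237087480),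
  Rx.mk (nat_lit 101) (nat_lit 5) (nat_lit 4) (nat_lit 1) (nat_lit 5) (nat_lit 231) (nat_lit 234) r6_231 r6_234 (nat_lit 0) (nat_lit 0) (nat_lit 0) (nat_lit 0x7ddb0691bc) (nat_lit 1052601264),
  Rx.mk (nat_lit 108) (nat_lit 4) (nat_lit 5) (nat_lit 1) (nat_lit 6) (nat_lit 234) (nat_lit 231) r6_234 r6_231 (nat_lit 0) (nat_lit 0) (nat_lit 0) (nat_lit 0x7ddb0691bc) (nat_lit 1052601264),
  Rx.mk (nat_lit 109) (nat_lit 5) (nat_lit 5) (nat_lit 1) (nat_lit 7) (nat_lit 236) (nat_lit 236) r6_236 r6_236 (nat_lit 0) (nat_lit 0) (nat_lit 0) (nat_lit 0x7de269fb7e) (nat_lit 1038434904),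
  Rx.mk (nat_lit 356) (nat_lit 4) (nat_lit 4) (nat_lit 5) (nat_lit 4) (nat_lit 230) (nat_lit 230) r6_230 r6_230 (nat_lit 0) (nat_lit 0) (nat_lit 0) (nat_lit 0x7169e07090) (nat_lit 7159793472),
  Rx.mk (nat_lit 357) (nat_lit 5) (nat_lit 4) (nat_lit 5) (nat_lit 5) (nat_lit 232) (nat_lit 235) r6_232 r6_235 (nat_lit 0) (nat_lit 0) (nat_lit 0) (nat_lit 0x7d6392097c) (nat_lit 1281644208),
  Rx.mk (nat_lit 359) (nat_lit 7) (nat_lit 4) (nat_lit 5) (nat_lit 5) (nat_lit 233) (nat_lit 239) r6_233 r6_239 (nat_lit 0) (nat_lit 0) (nat_lit 0) (nat_lit 0x7ddc67bba8) (nat_lit 1049956128),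
  Rx.mk (nat_lit 364) (nat_lit 4) (nat_lit 5) (nat_lit 5) (nat_lit 6) (nat_lit 235) (nat_lit 232) r6_235 r6_232 (nat_lit 0) (nat_lit 0) (nat_lit 0) (nat_lit 0x7d6392097c) (nat_lit 1281644208),
  Rx.mk (nat_lit 365) (nat_lit 5) (nat_lit 5) (nat_lit 5) (nat_lit 7) (nat_lit 237) (nat_lit 237) r6_237 r6_237 (nat_lit 0) (nat_lit 0) (nat_lit 0) (nat_lit 0x7dd0afb734) (nat_lit 1072425744),
  Rx.mk (nat_lit 367) (nat_lit 7) (nat_lit 5) (nat_lit 5) (nat_lit 7) (nat_lit 238) (nat_lit 240) r6_238 r6_240 (nat_lit 0) (nat_lit 0) (nat_lit 0) (nat_lit 0x7de8a95782) (nat_lit 1026455976),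
  Rx.mk (nat_lit 372) (nat_lit 4) (nat_lit 6) (nat_lit 5) (nat_lit 6) (nat_lit 239) (nat_lit 233) r6_239 r6_233 (nat_lit 0) (nat_lit 0) (nat_lit 0) (nat_lit 0x7ddc67bba8) (nat_lit 1049956128),
  Rx.mk (nat_lit 373) (nat_lit 5) (nat_lit 6) (nat_lit 5) (nat_lit 7) (nat_lit 240) (nat_lit 238) r6_240 r6_238 (nat_lit 0) (nat_lit 0) (nat_lit 0) (nat_lit 0x7de8a95782) (nat_lit 1026455976)]
noncomputable def e23_12 : List Rx := [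
  Rx.mk (nat_lit 101) (nat_lit 5) (nat_lit 4) (nat_lit 1) (nat_lit 5) (nat_lit 221) (nat_lit 256) r6_221 r1_256 (nat_lit 0) (nat_lit 0) (nat_lit 0) (nat_lit 0x7d23d005dc) (nat_lit 1403893296),
  Rx.mk (nat_lit 109) (nat_lit 5) (nat_lit 5) (nat_lit 1) (nat_lit 7) (nat_lit 222) (nat_lit 257) r6_222 r1_257 (nat_lit 0) (nat_lit 0) (nat_lit 0) (nat_lit 0x7dde737aea) (nat_lit 1046033352)]
noncomputable def e23_13 : List Rx := [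
  Rx.mk (nat_lit 101) (nat_lit 5) (nat_lit 4) (nat_lit 1) (nat_lit 5) (nat_lit 241) (nat_lit 184) r6_241 r7_184 (nat_lit 0) (nat_lit 0) (nat_lit 0) (nat_lit 0x7de7386e92) (nat_lit 1029219048),
  Rx.mk (nat_lit 109) (nat_lit 5) (nat_lit 5) (nat_lit 1) (nat_lit 7) (nat_lit 243) (nat_lit 186) r6_243 r7_186 (nat_lit 0) (nat_lit 0) (nat_lit 0) (nat_lit 0x7de4f1130a) (nat_lit 1033588296),
  Rx.mk (nat_lit 357) (nat_lit 5) (nat_lit 4) (nat_lit 5) (nat_lit 5) (nat_lit 242) (nat_lit 185) r6_242 r7_185 (nat_lit 0) (nat_lit 0) (nat_lit 0) (nat_lit 0x7d9c65fc04) (nat_lit 1172682576),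
  Rx.mk (nat_lit 365) (nat_lit 5) (nat_lit 5) (nat_lit 5) (nat_lit 7) (nat_lit 244) (nat_lit 187) r6_244 r7_187 (nat_lit 0) (nat_lit 0) (nat_lit 0) (nat_lit 0x7dbbebe386) (nat_lit 1112240376),
  Rx.mk (nat_lit 373) (nat_lit 5) (nat_lit 6) (nat_lit 5) (nat_lit 7) (nat_lit 245) (nat_lit 188) r6_245 r7_188 (nat_lit 0) (nat_lit 0) (nat_lit 0) (nat_lit 0x7dbabc967c) (nat_lit 1114512048)]
noncomputable def e23_14 : List Rx := [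
  Rx.mk (nat_lit 356) (nat_lit 4) (nat_lit 4) (nat_lit 5) (nat_lit 4) (nat_lit 246) (nat_lit 248) r6_246 r7_248 (nat_lit 0) (nat_lit 0) (nat_lit 0) (nat_lit 0x66291d8800) (nat_lit 12683354112),
  Rx.mk (nat_lit 357) (nat_lit 5) (nat_lit 4) (nat_lit 5) (nat_lit 5) (nat_lit 247) (nat_lit 249) r6_247 r7_249 (nat_lit 0) (nat_lit 0) (nat_lit 0) (nat_lit 0x7d55b76734) (nat_lit 1308207888),
  Rx.mk (nat_lit 359) (nat_lit 7) (nat_lit 4) (nat_lit 5) (nat_lit 5) (nat_lit 248) (nat_lit 250) r6_248 r7_250 (nat_lit 0) (nat_lit 0) (nat_lit 0) (nat_lit 0x7d88d17560) (nat_lit 1210225536),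
  Rx.mk (nat_lit 364) (nat_lit 4) (nat_lit 5) (nat_lit 5) (nat_lit 6) (nat_lit 249) (nat_lit 251) r6_249 r7_251 (nat_lit 0) (nat_lit 0) (nat_lit 0) (nat_lit 0x7d509b58fa) (nat_lit 1318005000),
  Rx.mk (nat_lit 365) (nat_lit 5) (nat_lit 5) (nat_lit 5) (nat_lit 7) (nat_lit 250) (nat_lit 252) r6_250 r7_252 (nat_lit 0) (nat_lit 0) (nat_lit 0) (nat_lit 0x7de766ebaa) (nat_lit 1028870856),
  Rx.mk (nat_lit 367) (nat_lit 7) (nat_lit 5) (nat_lit 5) (nat_lit 7) (nat_lit 251) (nat_lit 253) r6_251 r7_253 (nat_lit 0) (nat_lit 0) (nat_lit 0) (nat_lit 0x7dd5e5a3d0) (nat_lit 1062434880),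
  Rx.mk (nat_lit 372) (nat_lit 4) (nat_lit 6) (nat_lit 5) (nat_lit 6) (nat_lit 252) (nat_lit 254) r6_252 r7_254 (nat_lit 0) (nat_lit 0) (nat_lit 0) (nat_lit 0x7dcd22900a) (nat_lit 1079235144),
  Rx.mk (nat_lit 373) (nat_lit 5) (nat_lit 6) (nat_lit 5) (nat_lit 7) (nat_lit 253) (nat_lit 255) r6_253 r7_255 (nat_lit 0) (nat_lit 0) (nat_lit 0) (nat_lit 0x7dc7720b18) (nat_lit 1090144224),
  Rx.mk (nat_lit 374) (nat_lit 6) (nat_lit 6) (nat_lit 5) (nat_lit 7) (nat_lit 254) (nat_lit 256) r6_254 r7_256 (nat_lit 0) (nat_lit 0) (nat_lit 0) (nat_lit 0x7dee7e3a2e) (nat_lit 1015274520)]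
noncomputable def e23_15 : List Rx := [
  Rx.mk (nat_lit 292) (nat_lit 4) (nat_lit 4) (nat_lit 4) (nat_lit 0) (nat_lit 204) (nat_lit 170) r6_204 r8_170 (nat_lit 0) (nat_lit 0) (nat_lit 0) (nat_lit 0xca49969cc) (nat_lit 56623393008),
  Rx.mk (nat_lit 295) (nat_lit 7) (nat_lit 4) (nat_lit 4) (nat_lit 1) (nat_lit 207) (nat_lit 176) r6_207 r8_176 (nat_lit 0) (nat_lit 0) (nat_lit 0) (nat_lit 0x744f2f58bc) (nat_lit 5738411952),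
  Rx.mk (nat_lit 308) (nat_lit 4) (nat_lit 6) (nat_lit 4) (nat_lit 2) (nat_lit 210) (nat_lit 172) r6_210 r8_172 (nat_lit 0) (nat_lit 0) (nat_lit 0) (nat_lit 0x700fb7547c) (nat_lit 7823520432),
  Rx.mk (nat_lit 310) (nat_lit 6) (nat_lit 6) (nat_lit 4) (nat_lit 3) (nat_lit 213) (nat_lit 180) r6_213 r8_180 (nat_lit 0) (nat_lit 0) (nat_lit 0) (nat_lit 0x7dd0e0d422) (nat_lit 1072057896),
  Rx.mk (nat_lit 356) (nat_lit 4) (nat_lit 4) (nat_lit 5) (nat_lit 4) (nat_lit 205) (nat_lit 171) r6_205 r8_171 (nat_lit 0) (nat_lit 0) (nat_lit 0) (nat_lit 0x4c79c53736) (nat_lit 25290895032),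
  Rx.mk (nat_lit 357) (nat_lit 5) (nat_lit 4) (nat_lit 5) (nat_lit 5) (nat_lit 206) (nat_lit 174) r6_206 r8_174 (nat_lit 0) (nat_lit 0) (nat_lit 0) (nat_lit 0x7d5bdfe4a6) (nat_lit 1296400248),
  Rx.mk (nat_lit 359) (nat_lit 7) (nat_lit 4) (nat_lit 5) (nat_lit 5) (nat_lit 208) (nat_lit 177) r6_208 r8_177 (nat_lit 0) (nat_lit 0) (nat_lit 0) (nat_lit 0x7dce02c206) (nat_lit 1077555960),
  Rx.mk (nat_lit 372) (nat_lit 4) (nat_lit 6) (nat_lit 5) (nat_lit 6) (nat_lit 211) (nat_lit 173) r6_211 r8_173 (nat_lit 0) (nat_lit 0) (nat_lit 0) (nat_lit 0x7dad56ece4) (nat_lit 1140199632),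
  Rx.mk (nat_lit 373) (nat_lit 5) (nat_lit 6) (nat_lit 5) (nat_lit 7) (nat_lit 212) (nat_lit 175) r6_212 r8_175 (nat_lit 0) (nat_lit 0) (nat_lit 0) (nat_lit 0x7dd092d902) (nat_lit 1072641960),
  Rx.mk (nat_lit 374) (nat_lit 6) (nat_lit 6) (nat_lit 5) (nat_lit 7) (nat_lit 214) (nat_lit 181) r6_214 r8_181 (nat_lit 0) (nat_lit 0) (nat_lit 0) (nat_lit 0x7dc2a09834) (nat_lit 1099382544),
  Rx.mk (nat_lit 438) (nat_lit 6) (nat_lit 6) (nat_lit 6) (nat_lit 7) (nat_lit 215) (nat_lit 182) r6_215 r8_182 (nat_lit 0) (nat_lit 0) (nat_lit 0) (nat_lit 0x7de5019202) (nat_lit 1033464744),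
  Rx.mk (nat_lit 487) (nat_lit 7) (nat_lit 4) (nat_lit 7) (nat_lit 5) (nat_lit 209) (nat_lit 178) r6_209 r8_178 (nat_lit 0) (nat_lit 0) (nat_lit 0) (nat_lit 0x7db87bfa88) (nat_lit 1118830752),
  Rx.mk (nat_lit 511) (nat_lit 7) (nat_lit 7) (nat_lit 7) (nat_lit 7) (nat_lit 216) (nat_lit 179) r6_216 r8_179 (nat_lit 0) (nat_lit 0) (nat_lit 0) (nat_lit 0x7de59728a8) (nat_lit 1032344352)]
noncomputable def e23_16 : List Rx := [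
  Rx.mk (nat_lit 100) (nat_lit 4) (nat_lit 4) (nat_lit 1) (nat_lit 4) (nat_lit 223) (nat_lit 265) r6_223 r4_265 (nat_lit 0) (nat_lit 0) (nat_lit 0) (nat_lit 0x735924da5a) (nat_lit 6210169992),
  Rx.mk (nat_lit 101) (nat_lit 5) (nat_lit 4) (nat_lit 1) (nat_lit 5) (nat_lit 224) (nat_lit 266) r6_224 r4_266 (nat_lit 0) (nat_lit 0) (nat_lit 0) (nat_lit 0x7db466bbe0) (nat_lit 1126659456),
  Rx.mk (nat_lit 103) (nat_lit 7) (nat_lit 4) (nat_lit 1) (nat_lit 5) (nat_lit 225) (nat_lit 267) r6_225 r4_267 (nat_lit 0) (nat_lit 0) (nat_lit 0) (nat_lit 0x7d7cbb56ce) (nat_lit 1233399960),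
  Rx.mk (nat_lit 108) (nat_lit 4) (nat_lit 5) (nat_lit 1) (nat_lit 6) (nat_lit 226) (nat_lit 268) r6_226 r4_268 (nat_lit 0) (nat_lit 0) (nat_lit 0) (nat_lit 0x7db5f0c33e) (nat_lit 1123708248),
  Rx.mk (nat_lit 109) (nat_lit 5) (nat_lit 5) (nat_lit 1) (nat_lit 7) (nat_lit 227) (nat_lit 269) r6_227 r4_269 (nat_lit 0) (nat_lit 0) (nat_lit 0) (nat_lit 0x7dde701b20) (nat_lit 1046058624),
  Rx.mk (nat_lit 111) (nat_lit 7) (nat_lit 5) (nat_lit 1) (nat_lit 7) (nat_lit 228) (nat_lit 270) r6_228 r4_270 (nat_lit 0) (nat_lit 0) (nat_lit 0) (nat_lit 0x7deda7c796) (nat_lit 1016880696)]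
noncomputable def e23_17 : List Rx := [
  Rx.mk (nat_lit 100) (nat_lit 4) (nat_lit 4) (nat_lit 1) (nat_lit 4) (nat_lit 255) (nat_lit 183) r6_255 r9_183 (nat_lit 0) (nat_lit 0) (nat_lit 0) (nat_lit 0x753a13a98c) (nat_lit 5288031216),
  Rx.mk (nat_lit 101) (nat_lit 5) (nat_lit 4) (nat_lit 1) (nat_lit 5) (nat_lit 256) (nat_lit 185) r6_256 r9_185 (nat_lit 0) (nat_lit 0) (nat_lit 0) (nat_lit 0x7dc0263fdc) (nat_lit 1104133680),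
  Rx.mk (nat_lit 103) (nat_lit 7) (nat_lit 4) (nat_lit 1) (nat_lit 5) (nat_lit 257) (nat_lit 187) r6_257 r9_187 (nat_lit 0) (nat_lit 0) (nat_lit 0) (nat_lit 0x7de3610c0c) (nat_lit 1036584432),
  Rx.mk (nat_lit 108) (nat_lit 4) (nat_lit 5) (nat_lit 1) (nat_lit 6) (nat_lit 259) (nat_lit 184) r6_259 r9_184 (nat_lit 0) (nat_lit 0) (nat_lit 0) (nat_lit 0x7d8cac97aa) (nat_lit 1202832072),
  Rx.mk (nat_lit 109) (nat_lit 5) (nat_lit 5) (nat_lit 1) (nat_lit 7) (nat_lit 260) (nat_lit 186) r6_260 r9_186 (nat_lit 0) (nat_lit 0) (nat_lit 0) (nat_lit 0x7deed8348e) (nat_lit 1014600600),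
  Rx.mk (nat_lit 111) (nat_lit 7) (nat_lit 5) (nat_lit 1) (nat_lit 7) (nat_lit 261) (nat_lit 189) r6_261 r9_189 (nat_lit 0) (nat_lit 0) (nat_lit 0) (nat_lit 0x7df11510be) (nat_lit 1010309976),
  Rx.mk (nat_lit 359) (nat_lit 7) (nat_lit 4) (nat_lit 5) (nat_lit 5) (nat_lit 258) (nat_lit 188) r6_258 r9_188 (nat_lit 0) (nat_lit 0) (nat_lit 0) (nat_lit 0x7dbd4fad48) (nat_lit 1109575584),
  Rx.mk (nat_lit 367) (nat_lit 7) (nat_lit 5) (nat_lit 5) (nat_lit 7) (nat_lit 262) (nat_lit 190) r6_262 r9_190 (nat_lit 0) (nat_lit 0) (nat_lit 0) (nat_lit 0x7deb762ab2) (nat_lit 1021087080)]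
noncomputable def e23_18 : List Rx := [
  Rx.mk (nat_lit 100) (nat_lit 4) (nat_lit 4) (nat_lit 1) (nat_lit 4) (nat_lit 263) (nat_lit 212) r6_263 r10_212 (nat_lit 0) (nat_lit 0) (nat_lit 0) (nat_lit 0x776214075e) (nat_lit 4229625816),
  Rx.mk (nat_lit 101) (nat_lit 5) (nat_lit 4) (nat_lit 1) (nat_lit 5) (nat_lit 264) (nat_lit 214) r6_264 r10_214 (nat_lit 0) (nat_lit 0) (nat_lit 0) (nat_lit 0x7df79428c6) (nat_lit 997853688),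
  Rx.mk (nat_lit 103) (nat_lit 7) (nat_lit 4) (nat_lit 1) (nat_lit 5) (nat_lit 265) (nat_lit 216) r6_265 r10_216 (nat_lit 0) (nat_lit 0) (nat_lit 0) (nat_lit 0x7dc96b0b86) (nat_lit 1086361848),
  Rx.mk (nat_lit 108) (nat_lit 4) (nat_lit 5) (nat_lit 1) (nat_lit 6) (nat_lit 266) (nat_lit 213) r6_266 r10_213 (nat_lit 0) (nat_lit 0) (nat_lit 0) (nat_lit 0x7dbb30cf38) (nat_lit 1113641568),
  Rx.mk (nat_lit 109) (nat_lit 5) (nat_lit 5) (nat_lit 1) (nat_lit 7) (nat_lit 267) (nat_lit 215) r6_267 r10_215 (nat_lit 0) (nat_lit 0) (nat_lit 0) (nat_lit 0x7de4fa127a) (nat_lit 1033520904),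
  Rx.mk (nat_lit 111) (nat_lit 7) (nat_lit 5) (nat_lit 1) (nat_lit 7) (nat_lit 268) (nat_lit 217) r6_268 r10_217 (nat_lit 0) (nat_lit 0) (nat_lit 0) (nat_lit 0x7dc83d9e5e) (nat_lit 1088619480),
  Rx.mk (nat_lit 127) (nat_lit 7) (nat_lit 7) (nat_lit 1) (nat_lit 7) (nat_lit 269) (nat_lit 218) r6_269 r10_218 (nat_lit 0) (nat_lit 0) (nat_lit 0) (nat_lit 0x7def592c7e) (nat_lit 1013634648)]
noncomputable def e23_19 : List Rx := [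
  Rx.mk (nat_lit 292) (nat_lit 4) (nat_lit 4) (nat_lit 4) (nat_lit 0) (nat_lit 161) (nat_lit 68) r6_161 r8_68 (nat_lit 0) (nat_lit 0) (nat_lit 0) (nat_lit 0x1096296cda) (nat_lit 54687661704),
  Rx.mk (nat_lit 295) (nat_lit 7) (nat_lit 4) (nat_lit 4) (nat_lit 1) (nat_lit 163) (nat_lit 70) r6_163 r8_70 (nat_lit 0) (nat_lit 0) (nat_lit 0) (nat_lit 0x6a853e8194) (nat_lit 10543293072),
  Rx.mk (nat_lit 308) (nat_lit 4) (nat_lit 6) (nat_lit 4) (nat_lit 2) (nat_lit 166) (nat_lit 74) r6_166 r8_74 (nat_lit 0) (nat_lit 0) (nat_lit 0) (nat_lit 0x5019957692) (nat_lit 23511909096),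
  Rx.mk (nat_lit 310) (nat_lit 6) (nat_lit 6) (nat_lit 4) (nat_lit 3) (nat_lit 168) (nat_lit 79) r6_168 r8_79 (nat_lit 0) (nat_lit 0) (nat_lit 0) (nat_lit 0x7d16a3b8ae) (nat_lit 1429151256),
  Rx.mk (nat_lit 311) (nat_lit 7) (nat_lit 6) (nat_lit 4) (nat_lit 3) (nat_lit 171) (nat_lit 76) r6_171 r8_76 (nat_lit 0) (nat_lit 0) (nat_lit 0) (nat_lit 0x7d87fec28c) (nat_lit 1211803632),
  Rx.mk (nat_lit 356) (nat_lit 4) (nat_lit 4) (nat_lit 5) (nat_lit 4) (nat_lit 162) (nat_lit 69) r6_162 r8_69 (nat_lit 0) (nat_lit 0) (nat_lit 0) (nat_lit 0x71f61f2c18) (nat_lit 6890888160),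
  Rx.mk (nat_lit 359) (nat_lit 7) (nat_lit 4) (nat_lit 5) (nat_lit 5) (nat_lit 164) (nat_lit 71) r6_164 r8_71 (nat_lit 0) (nat_lit 0) (nat_lit 0) (nat_lit 0x7dc10491f6) (nat_lit 1102468536),
  Rx.mk (nat_lit 372) (nat_lit 4) (nat_lit 6) (nat_lit 5) (nat_lit 6) (nat_lit 167) (nat_lit 75) r6_167 r8_75 (nat_lit 0) (nat_lit 0) (nat_lit 0) (nat_lit 0x7dd000422c) (nat_lit 1073739888),
  Rx.mk (nat_lit 374) (nat_lit 6) (nat_lit 6) (nat_lit 5) (nat_lit 7) (nat_lit 169) (nat_lit 80) r6_169 r8_80 (nat_lit 0) (nat_lit 0) (nat_lit 0) (nat_lit 0x7de0fcd252) (nat_lit 1041169896),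
  Rx.mk (nat_lit 375) (nat_lit 7) (nat_lit 6) (nat_lit 5) (nat_lit 7) (nat_lit 172) (nat_lit 77) r6_172 r8_77 (nat_lit 0) (nat_lit 0) (nat_lit 0) (nat_lit 0x7deecab566) (nat_lit 1014701688),
  Rx.mk (nat_lit 406) (nat_lit 6) (nat_lit 2) (nat_lit 6) (nat_lit 7) (nat_lit 160) (nat_lit 82) r6_160 r8_82 (nat_lit 0) (nat_lit 0) (nat_lit 0) (nat_lit 0x7ddda00822) (nat_lit 1047617064),
  Rx.mk (nat_lit 438) (nat_lit 6) (nat_lit 6) (nat_lit 6) (nat_lit 7) (nat_lit 170) (nat_lit 81) r6_170 r8_81 (nat_lit 0) (nat_lit 0) (nat_lit 0) (nat_lit 0x7dc460fc2c) (nat_lit 1096024176),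
  Rx.mk (nat_lit 487) (nat_lit 7) (nat_lit 4) (nat_lit 7) (nat_lit 5) (nat_lit 165) (nat_lit 72) r6_165 r8_72 (nat_lit 0) (nat_lit 0) (nat_lit 0) (nat_lit 0x7c9b768bfc) (nat_lit 1665329328),
  Rx.mk (nat_lit 503) (nat_lit 7) (nat_lit 6) (nat_lit 7) (nat_lit 7) (nat_lit 173) (nat_lit 78) r6_173 r8_78 (nat_lit 0) (nat_lit 0) (nat_lit 0) (nat_lit 0x7de3b0e70e) (nat_lit 1035986328),
  Rx.mk (nat_lit 511) (nat_lit 7) (nat_lit 7) (nat_lit 7) (nat_lit 7) (nat_lit 174) (nat_lit 73) r6_174 r8_73 (nat_lit 0) (nat_lit 0) (nat_lit 0) (nat_lit 0x7de7e5a3be) (nat_lit 1027921752)]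
noncomputable def e23_20 : List Rx := [
  Rx.mk (nat_lit 24) (nat_lit 0) (nat_lit 3) (nat_lit 0) (nat_lit 2) (nat_lit 96) (nat_lit 100) r6_96 r0_100 (nat_lit 0) (nat_lit 0) (nat_lit 0) (nat_lit 0x5b048c5c38) (nat_lit 18152855136),
  Rx.mk (nat_lit 27) (nat_lit 3) (nat_lit 3) (nat_lit 0) (nat_lit 3) (nat_lit 99) (nat_lit 101) r6_99 r0_101 (nat_lit 0) (nat_lit 0) (nat_lit 0) (nat_lit 0x777f139748) (nat_lit 4174024608),
  Rx.mk (nat_lit 128) (nat_lit 0) (nat_lit 0) (nat_lit 2) (nat_lit 4) (nat_lit 93) (nat_lit 105) r6_93 r0_105 (nat_lit 0) (nat_lit 0) (nat_lit 0) (nat_lit 0x66b9ed9a6e) (nat_lit 12405690648),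
  Rx.mk (nat_lit 130) (nat_lit 2) (nat_lit 0) (nat_lit 2) (nat_lit 5) (nat_lit 94) (nat_lit 108) r6_94 r0_108 (nat_lit 0) (nat_lit 0) (nat_lit 0) (nat_lit 0x78a031444c) (nat_lit 3619674864),
  Rx.mk (nat_lit 146) (nat_lit 2) (nat_lit 2) (nat_lit 2) (nat_lit 7) (nat_lit 95) (nat_lit 110) r6_95 r0_110 (nat_lit 0) (nat_lit 0) (nat_lit 0) (nat_lit 0x7d5af3b36a) (nat_lit 1298169288),
  Rx.mk (nat_lit 152) (nat_lit 0) (nat_lit 3) (nat_lit 2) (nat_lit 6) (nat_lit 97) (nat_lit 106) r6_97 r0_106 (nat_lit 0) (nat_lit 0) (nat_lit 0) (nat_lit 0x77e3aa8d74) (nat_lit 3981154320),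
  Rx.mk (nat_lit 154) (nat_lit 2) (nat_lit 3) (nat_lit 2) (nat_lit 7) (nat_lit 98) (nat_lit 109) r6_98 r0_109 (nat_lit 0) (nat_lit 0) (nat_lit 0) (nat_lit 0x7de57b0a6a) (nat_lit 1032554952),
  Rx.mk (nat_lit 155) (nat_lit 3) (nat_lit 3) (nat_lit 2) (nat_lit 7) (nat_lit 100) (nat_lit 107) r6_100 r0_107 (nat_lit 0) (nat_lit 0) (nat_lit 0) (nat_lit 0x7e027b5a48) (nat_lit 976948128),
  Rx.mk (nat_lit 219) (nat_lit 3) (nat_lit 3) (nat_lit 3) (nat_lit 7) (nat_lit 101) (nat_lit 102) r6_101 r0_102 (nat_lit 0) (nat_lit 0) (nat_lit 0) (nat_lit 0x7cd66efc3a) (nat_lit 1552259592),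
  Rx.mk (nat_lit 251) (nat_lit 3) (nat_lit 7) (nat_lit 3) (nat_lit 7) (nat_lit 102) (nat_lit 103) r6_102 r0_103 (nat_lit 0) (nat_lit 0) (nat_lit 0) (nat_lit 0x7df18ca944) (nat_lit 1009414224),
  Rx.mk (nat_lit 255) (nat_lit 7) (nat_lit 7) (nat_lit 3) (nat_lit 7) (nat_lit 103) (nat_lit 104) r6_103 r0_104 (nat_lit 0) (nat_lit 0) (nat_lit 0) (nat_lit 0x7defce8528) (nat_lit 1012755744)]
noncomputable def e23_21 : List Rx := [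
  Rx.mk (nat_lit 0) (nat_lit 0) (nat_lit 0) (nat_lit 0) (nat_lit 0) (nat_lit 126) (nat_lit 107) r6_126 r1_107 (nat_lit 0) (nat_lit 0) (nat_lit 0) (nat_lit 0x55073477b4) (nat_lit 21092881680),
  Rx.mk (nat_lit 24) (nat_lit 0) (nat_lit 3) (nat_lit 0) (nat_lit 2) (nat_lit 130) (nat_lit 108) r6_130 r1_108 (nat_lit 0) (nat_lit 0) (nat_lit 0) (nat_lit 0x6c89b37840) (nat_lit 9553040640),
  Rx.mk (nat_lit 27) (nat_lit 3) (nat_lit 3) (nat_lit 0) (nat_lit 3) (nat_lit 133) (nat_lit 109) r6_133 r1_109 (nat_lit 0) (nat_lit 0) (nat_lit 0) (nat_lit 0x7c894ceea8) (nat_lit 1700154144),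
  Rx.mk (nat_lit 128) (nat_lit 0) (nat_lit 0) (nat_lit 2) (nat_lit 4) (nat_lit 127) (nat_lit 111) r6_127 r1_111 (nat_lit 0) (nat_lit 0) (nat_lit 0) (nat_lit 0x67e0964ebc) (nat_lit 11840712624),
  Rx.mk (nat_lit 130) (nat_lit 2) (nat_lit 0) (nat_lit 2) (nat_lit 5) (nat_lit 128) (nat_lit 114) r6_128 r1_114 (nat_lit 0) (nat_lit 0) (nat_lit 0) (nat_lit 0x6d67741b58) (nat_lit 9127853280),
  Rx.mk (nat_lit 146) (nat_lit 2) (nat_lit 2) (nat_lit 2) (nat_lit 7) (nat_lit 129) (nat_lit 116) r6_129 r1_116 (nat_lit 0) (nat_lit 0) (nat_lit 0) (nat_lit 0x7ce256fdae) (nat_lit 1529430552),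
  Rx.mk (nat_lit 152) (nat_lit 0) (nat_lit 3) (nat_lit 2) (nat_lit 6) (nat_lit 131) (nat_lit 112) r6_131 r1_112 (nat_lit 0) (nat_lit 0) (nat_lit 0) (nat_lit 0x7d6284da50) (nat_lit 1283660352),
  Rx.mk (nat_lit 154) (nat_lit 2) (nat_lit 3) (nat_lit 2) (nat_lit 7) (nat_lit 132) (nat_lit 115) r6_132 r1_115 (nat_lit 0) (nat_lit 0) (nat_lit 0) (nat_lit 0x7da9ea63b0) (nat_lit 1146764736),
  Rx.mk (nat_lit 155) (nat_lit 3) (nat_lit 3) (nat_lit 2) (nat_lit 7) (nat_lit 134) (nat_lit 113) r6_134 r1_113 (nat_lit 0) (nat_lit 0) (nat_lit 0) (nat_lit 0x7de1bde640) (nat_lit 1039723776),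
  Rx.mk (nat_lit 219) (nat_lit 3) (nat_lit 3) (nat_lit 3) (nat_lit 7) (nat_lit 135) (nat_lit 110) r6_135 r1_110 (nat_lit 0) (nat_lit 0) (nat_lit 0) (nat_lit 0x7de4f8f28c) (nat_lit 1033529328)]
noncomputable def e23_22 : List Rx := [
  Rx.mk (nat_lit 24) (nat_lit 0) (nat_lit 3) (nat_lit 0) (nat_lit 2) (nat_lit 175) (nat_lit 98) r6_175 r4_98 (nat_lit 0) (nat_lit 0) (nat_lit 0) (nat_lit 0x666c24b74a) (nat_lit 12554834760),
  Rx.mk (nat_lit 27) (nat_lit 3) (nat_lit 3) (nat_lit 0) (nat_lit 3) (nat_lit 178) (nat_lit 99) r6_178 r4_99 (nat_lit 0) (nat_lit 0) (nat_lit 0) (nat_lit 0x7e8603014a) (nat_lit 724753224),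
  Rx.mk (nat_lit 59) (nat_lit 3) (nat_lit 7) (nat_lit 0) (nat_lit 3) (nat_lit 181) (nat_lit 100) r6_181 r4_100 (nat_lit 0) (nat_lit 0) (nat_lit 0) (nat_lit 0x7dd0537cf8) (nat_lit 1073116512),
  Rx.mk (nat_lit 152) (nat_lit 0) (nat_lit 3) (nat_lit 2) (nat_lit 6) (nat_lit 176) (nat_lit 104) r6_176 r4_104 (nat_lit 0) (nat_lit 0) (nat_lit 0) (nat_lit 0x7d86242038) (nat_lit 1215358560),
  Rx.mk (nat_lit 154) (nat_lit 2) (nat_lit 3) (nat_lit 2) (nat_lit 7) (nat_lit 177) (nat_lit 106) r6_177 r4_106 (nat_lit 0) (nat_lit 0) (nat_lit 0) (nat_lit 0x7df79428c6) (nat_lit 997853688),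
  Rx.mk (nat_lit 155) (nat_lit 3) (nat_lit 3) (nat_lit 2) (nat_lit 7) (nat_lit 179) (nat_lit 105) r6_179 r4_105 (nat_lit 0) (nat_lit 0) (nat_lit 0) (nat_lit 0x7e6a93d858) (nat_lit 777355488),
  Rx.mk (nat_lit 231) (nat_lit 7) (nat_lit 4) (nat_lit 3) (nat_lit 5) (nat_lit 180) (nat_lit 102) r6_180 r4_102 (nat_lit 0) (nat_lit 0) (nat_lit 0) (nat_lit 0x7e14d85466) (nat_lit 941738616),
  Rx.mk (nat_lit 251) (nat_lit 3) (nat_lit 7) (nat_lit 3) (nat_lit 7) (nat_lit 182) (nat_lit 101) r6_182 r4_101 (nat_lit 0) (nat_lit 0) (nat_lit 0) (nat_lit 0x7df1d384d6) (nat_lit 1008883512),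
  Rx.mk (nat_lit 255) (nat_lit 7) (nat_lit 7) (nat_lit 3) (nat_lit 7) (nat_lit 183) (nat_lit 103) r6_183 r4_103 (nat_lit 0) (nat_lit 0) (nat_lit 0) (nat_lit 0x7dd10471e8) (nat_lit 1071791136)]
noncomputable def e23_23 : List Rx := [
  Rx.mk (nat_lit 24) (nat_lit 0) (nat_lit 3) (nat_lit 0) (nat_lit 2) (nat_lit 109) (nat_lit 117) r6_109 r6_117 (nat_lit 0) (nat_lit 0) (nat_lit 0) (nat_lit 0x6fddb01522) (nat_lit 7919444520),
  Rx.mk (nat_lit 27) (nat_lit 3) (nat_lit 3) (nat_lit 0) (nat_lit 3) (nat_lit 112) (nat_lit 119) r6_112 r6_119 (nat_lit 0) (nat_lit 0) (nat_lit 0) (nat_lit 0x7c81394fea) (nat_lit 1715640264),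
  Rx.mk (nat_lit 128) (nat_lit 0) (nat_lit 0) (nat_lit 2) (nat_lit 4) (nat_lit 104) (nat_lit 115) r6_104 r6_115 (nat_lit 0) (nat_lit 0) (nat_lit 0) (nat_lit 0x6fddb01522) (nat_lit 7919444520),
  Rx.mk (nat_lit 130) (nat_lit 2) (nat_lit 0) (nat_lit 2) (nat_lit 5) (nat_lit 105) (nat_lit 116) r6_105 r6_116 (nat_lit 0) (nat_lit 0) (nat_lit 0) (nat_lit 0x7c81394fea) (nat_lit 1715640264),
  Rx.mk (nat_lit 146) (nat_lit 2) (nat_lit 2) (nat_lit 2) (nat_lit 7) (nat_lit 106) (nat_lit 125) r6_106 r6_125 (nat_lit 0) (nat_lit 0) (nat_lit 0) (nat_lit 0x7d97af2776) (nat_lit 1181721528),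
  Rx.mk (nat_lit 152) (nat_lit 0) (nat_lit 3) (nat_lit 2) (nat_lit 6) (nat_lit 110) (nat_lit 118) r6_110 r6_118 (nat_lit 0) (nat_lit 0) (nat_lit 0) (nat_lit 0x7bf4691d7a) (nat_lit 1985635080),
  Rx.mk (nat_lit 154) (nat_lit 2) (nat_lit 3) (nat_lit 2) (nat_lit 7) (nat_lit 111) (nat_lit 122) r6_111 r6_122 (nat_lit 0) (nat_lit 0) (nat_lit 0) (nat_lit 0x7de64f3d26) (nat_lit 1030965624),
  Rx.mk (nat_lit 155) (nat_lit 3) (nat_lit 3) (nat_lit 2) (nat_lit 7) (nat_lit 113) (nat_lit 121) r6_113 r6_121 (nat_lit 0) (nat_lit 0) (nat_lit 0) (nat_lit 0x7de64f3d26) (nat_lit 1030965624),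
  Rx.mk (nat_lit 219) (nat_lit 3) (nat_lit 3) (nat_lit 3) (nat_lit 7) (nat_lit 114) (nat_lit 120) r6_114 r6_120 (nat_lit 0) (nat_lit 0) (nat_lit 0) (nat_lit 0x7d97af2776) (nat_lit 1181721528),
  Rx.mk (nat_lit 251) (nat_lit 3) (nat_lit 7) (nat_lit 3) (nat_lit 7) (nat_lit 123) (nat_lit 108) r6_123 r6_108 (nat_lit 0) (nat_lit 0) (nat_lit 0) (nat_lit 0x7de3119104) (nat_lit 1037179728),
  Rx.mk (nat_lit 255) (nat_lit 7) (nat_lit 7) (nat_lit 3) (nat_lit 7) (nat_lit 124) (nat_lit 107) r6_124 r6_107 (nat_lit 0) (nat_lit 0) (nat_lit 0) (nat_lit 0x7de3119104) (nat_lit 1037179728),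
  Rx.mk (nat_lit 308) (nat_lit 4) (nat_lit 6) (nat_lit 4) (nat_lit 2) (nat_lit 117) (nat_lit 109) r6_117 r6_109 (nat_lit 0) (nat_lit 0) (nat_lit 0) (nat_lit 0x6fddb01522) (nat_lit 7919444520),
  Rx.mk (nat_lit 310) (nat_lit 6) (nat_lit 6) (nat_lit 4) (nat_lit 3) (nat_lit 119) (nat_lit 112) r6_119 r6_112 (nat_lit 0) (nat_lit 0) (nat_lit 0) (nat_lit 0x7c81394fea) (nat_lit 1715640264),
  Rx.mk (nat_lit 402) (nat_lit 2) (nat_lit 2) (nat_lit 6) (nat_lit 7) (nat_lit 107) (nat_lit 124) r6_107 r6_124 (nat_lit 0) (nat_lit 0) (nat_lit 0) (nat_lit 0x7de3119104) (nat_lit 1037179728),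
  Rx.mk (nat_lit 406) (nat_lit 6) (nat_lit 2) (nat_lit 6) (nat_lit 7) (nat_lit 108) (nat_lit 123) r6_108 r6_123 (nat_lit 0) (nat_lit 0) (nat_lit 0) (nat_lit 0x7de3119104) (nat_lit 1037179728),
  Rx.mk (nat_lit 438) (nat_lit 6) (nat_lit 6) (nat_lit 6) (nat_lit 7) (nat_lit 120) (nat_lit 114) r6_120 r6_114 (nat_lit 0) (nat_lit 0) (nat_lit 0) (nat_lit 0x7d97af2776) (nat_lit 1181721528),
  Rx.mk (nat_lit 484) (nat_lit 4) (nat_lit 4) (nat_lit 7) (nat_lit 4) (nat_lit 115) (nat_lit 104) r6_115 r6_104 (nat_lit 0) (nat_lit 0) (nat_lit 0) (nat_lit 0x6fddb01522) (nat_lit 7919444520),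
  Rx.mk (nat_lit 487) (nat_lit 7) (nat_lit 4) (nat_lit 7) (nat_lit 5) (nat_lit 116) (nat_lit 105) r6_116 r6_105 (nat_lit 0) (nat_lit 0) (nat_lit 0) (nat_lit 0x7c81394fea) (nat_lit 1715640264),
  Rx.mk (nat_lit 500) (nat_lit 4) (nat_lit 6) (nat_lit 7) (nat_lit 6) (nat_lit 118) (nat_lit 110) r6_118 r6_110 (nat_lit 0) (nat_lit 0) (nat_lit 0) (nat_lit 0x7bf4691d7a) (nat_lit 1985635080),
  Rx.mk (nat_lit 502) (nat_lit 6) (nat_lit 6) (nat_lit 7) (nat_lit 7) (nat_lit 121) (nat_lit 113) r6_121 r6_113 (nat_lit 0) (nat_lit 0) (nat_lit 0) (nat_lit 0x7de64f3d26) (nat_lit 1030965624),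
  Rx.mk (nat_lit 503) (nat_lit 7) (nat_lit 6) (nat_lit 7) (nat_lit 7) (nat_lit 122) (nat_lit 111) r6_122 r6_111 (nat_lit 0) (nat_lit 0) (nat_lit 0) (nat_lit 0x7de64f3d26) (nat_lit 1030965624),
  Rx.mk (nat_lit 511) (nat_lit 7) (nat_lit 7) (nat_lit 7) (nat_lit 7) (nat_lit 125) (nat_lit 106) r6_125 r6_106 (nat_lit 0) (nat_lit 0) (nat_lit 0) (nat_lit 0x7d97af2776) (nat_lit 1181721528)]
noncomputable def e23_24 : List Rx := [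
  Rx.mk (nat_lit 0) (nat_lit 0) (nat_lit 0) (nat_lit 0) (nat_lit 0) (nat_lit 136) (nat_lit 78) r6_136 r7_78 (nat_lit 0) (nat_lit 0) (nat_lit 0) (nat_lit 0x1522d75d6e) (nat_lit 52454509848),
  Rx.mk (nat_lit 24) (nat_lit 0) (nat_lit 3) (nat_lit 0) (nat_lit 2) (nat_lit 142) (nat_lit 81) r6_142 r7_81 (nat_lit 0) (nat_lit 0) (nat_lit 0) (nat_lit 0x5f26a1d6be) (nat_lit 16124089176),
  Rx.mk (nat_lit 27) (nat_lit 3) (nat_lit 3) (nat_lit 0) (nat_lit 3) (nat_lit 145) (nat_lit 83) r6_145 r7_83 (nat_lit 0) (nat_lit 0) (nat_lit 0) (nat_lit 0x7cf5e524b8) (nat_lit 1491935328),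
  Rx.mk (nat_lit 128) (nat_lit 0) (nat_lit 0) (nat_lit 2) (nat_lit 4) (nat_lit 137) (nat_lit 79) r6_137 r7_79 (nat_lit 0) (nat_lit 0) (nat_lit 0) (nat_lit 0x4c4a1c91f0) (nat_lit 25382275776),
  Rx.mk (nat_lit 130) (nat_lit 2) (nat_lit 0) (nat_lit 2) (nat_lit 5) (nat_lit 138) (nat_lit 80) r6_138 r7_80 (nat_lit 0) (nat_lit 0) (nat_lit 0) (nat_lit 0x7cc30772c6) (nat_lit 1589465592),
  Rx.mk (nat_lit 146) (nat_lit 2) (nat_lit 2) (nat_lit 2) (nat_lit 7) (nat_lit 139) (nat_lit 89) r6_139 r7_89 (nat_lit 0) (nat_lit 0) (nat_lit 0) (nat_lit 0x7d97b946d4) (nat_lit 1181645712),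
  Rx.mk (nat_lit 152) (nat_lit 0) (nat_lit 3) (nat_lit 2) (nat_lit 6) (nat_lit 143) (nat_lit 82) r6_143 r7_82 (nat_lit 0) (nat_lit 0) (nat_lit 0) (nat_lit 0x7d7099f8f0) (nat_lit 1256658624),
  Rx.mk (nat_lit 154) (nat_lit 2) (nat_lit 3) (nat_lit 2) (nat_lit 7) (nat_lit 144) (nat_lit 86) r6_144 r7_86 (nat_lit 0) (nat_lit 0) (nat_lit 0) (nat_lit 0x7da9f1833e) (nat_lit 1146711384),
  Rx.mk (nat_lit 155) (nat_lit 3) (nat_lit 3) (nat_lit 2) (nat_lit 7) (nat_lit 146) (nat_lit 85) r6_146 r7_85 (nat_lit 0) (nat_lit 0) (nat_lit 0) (nat_lit 0x7de9a4e7c8) (nat_lit 1024571808),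
  Rx.mk (nat_lit 219) (nat_lit 3) (nat_lit 3) (nat_lit 3) (nat_lit 7) (nat_lit 147) (nat_lit 84) r6_147 r7_84 (nat_lit 0) (nat_lit 0) (nat_lit 0) (nat_lit 0x7daf4b6d9a) (nat_lit 1136450952),
  Rx.mk (nat_lit 402) (nat_lit 2) (nat_lit 2) (nat_lit 6) (nat_lit 7) (nat_lit 140) (nat_lit 88) r6_140 r7_88 (nat_lit 0) (nat_lit 0) (nat_lit 0) (nat_lit 0x7de5d2c4ee) (nat_lit 1031897880),
  Rx.mk (nat_lit 406) (nat_lit 6) (nat_lit 2) (nat_lit 6) (nat_lit 7) (nat_lit 141) (nat_lit 87) r6_141 r7_87 (nat_lit 0) (nat_lit 0) (nat_lit 0) (nat_lit 0x7df4627be4) (nat_lit 1003977936)]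
noncomputable def e23_25 : List Rx := [
  Rx.mk (nat_lit 292) (nat_lit 4) (nat_lit 4) (nat_lit 4) (nat_lit 0) (nat_lit 150) (nat_lit 78) r6_150 r7_78 (nat_lit 0) (nat_lit 0) (nat_lit 0) (nat_lit 0x1522d75d6e) (nat_lit 52454509848),
  Rx.mk (nat_lit 308) (nat_lit 4) (nat_lit 6) (nat_lit 4) (nat_lit 2) (nat_lit 153) (nat_lit 79) r6_153 r7_79 (nat_lit 0) (nat_lit 0) (nat_lit 0) (nat_lit 0x4c4a1c91f0) (nat_lit 25382275776),
  Rx.mk (nat_lit 310) (nat_lit 6) (nat_lit 6) (nat_lit 4) (nat_lit 3) (nat_lit 155) (nat_lit 80) r6_155 r7_80 (nat_lit 0) (nat_lit 0) (nat_lit 0) (nat_lit 0x7cc30772c6) (nat_lit 1589465592),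
  Rx.mk (nat_lit 402) (nat_lit 2) (nat_lit 2) (nat_lit 6) (nat_lit 7) (nat_lit 148) (nat_lit 87) r6_148 r7_87 (nat_lit 0) (nat_lit 0) (nat_lit 0) (nat_lit 0x7df4627be4) (nat_lit 1003977936),
  Rx.mk (nat_lit 406) (nat_lit 6) (nat_lit 2) (nat_lit 6) (nat_lit 7) (nat_lit 149) (nat_lit 88) r6_149 r7_88 (nat_lit 0) (nat_lit 0) (nat_lit 0) (nat_lit 0x7de5d2c4ee) (nat_lit 1031897880),
  Rx.mk (nat_lit 438) (nat_lit 6) (nat_lit 6) (nat_lit 6) (nat_lit 7) (nat_lit 156) (nat_lit 89) r6_156 r7_89 (nat_lit 0) (nat_lit 0) (nat_lit 0) (nat_lit 0x7d97b946d4) (nat_lit 1181645712),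
  Rx.mk (nat_lit 484) (nat_lit 4) (nat_lit 4) (nat_lit 7) (nat_lit 4) (nat_lit 151) (nat_lit 81) r6_151 r7_81 (nat_lit 0) (nat_lit 0) (nat_lit 0) (nat_lit 0x5f26a1d6be) (nat_lit 16124089176),
  Rx.mk (nat_lit 487) (nat_lit 7) (nat_lit 4) (nat_lit 7) (nat_lit 5) (nat_lit 152) (nat_lit 83) r6_152 r7_83 (nat_lit 0) (nat_lit 0) (nat_lit 0) (nat_lit 0x7cf5e524b8) (nat_lit 1491935328),
  Rx.mk (nat_lit 500) (nat_lit 4) (nat_lit 6) (nat_lit 7) (nat_lit 6) (nat_lit 154) (nat_lit 82) r6_154 r7_82 (nat_lit 0) (nat_lit 0) (nat_lit 0) (nat_lit 0x7d7099f8f0) (nat_lit 1256658624),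
  Rx.mk (nat_lit 502) (nat_lit 6) (nat_lit 6) (nat_lit 7) (nat_lit 7) (nat_lit 157) (nat_lit 86) r6_157 r7_86 (nat_lit 0) (nat_lit 0) (nat_lit 0) (nat_lit 0x7da9f1833e) (nat_lit 1146711384),
  Rx.mk (nat_lit 503) (nat_lit 7) (nat_lit 6) (nat_lit 7) (nat_lit 7) (nat_lit 158) (nat_lit 85) r6_158 r7_85 (nat_lit 0) (nat_lit 0) (nat_lit 0) (nat_lit 0x7de9a4e7c8) (nat_lit 1024571808),
  Rx.mk (nat_lit 511) (nat_lit 7) (nat_lit 7) (nat_lit 7) (nat_lit 7) (nat_lit 159) (nat_lit 84) r6_159 r7_84 (nat_lit 0) (nat_lit 0) (nat_lit 0) (nat_lit 0x7daf4b6d9a) (nat_lit 1136450952)]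
noncomputable def e23_26 : List Rx := [
  Rx.mk (nat_lit 24) (nat_lit 0) (nat_lit 3) (nat_lit 0) (nat_lit 2) (nat_lit 184) (nat_lit 91) r6_184 r9_91 (nat_lit 0) (nat_lit 0) (nat_lit 0) (nat_lit 0x7664114888) (nat_lit 4716664992),
  Rx.mk (nat_lit 27) (nat_lit 3) (nat_lit 3) (nat_lit 0) (nat_lit 3) (nat_lit 187) (nat_lit 93) r6_187 r9_93 (nat_lit 0) (nat_lit 0) (nat_lit 0) (nat_lit 0x7df0b276e8) (nat_lit 1011048480),
  Rx.mk (nat_lit 59) (nat_lit 3) (nat_lit 7) (nat_lit 0) (nat_lit 3) (nat_lit 195) (nat_lit 86) r6_195 r9_86 (nat_lit 0) (nat_lit 0) (nat_lit 0) (nat_lit 0x7d9efc12a0) (nat_lit 1167723648),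
  Rx.mk (nat_lit 152) (nat_lit 0) (nat_lit 3) (nat_lit 2) (nat_lit 6) (nat_lit 185) (nat_lit 92) r6_185 r9_92 (nat_lit 0) (nat_lit 0) (nat_lit 0) (nat_lit 0x7d1458fd5c) (nat_lit 1433545776),
  Rx.mk (nat_lit 154) (nat_lit 2) (nat_lit 3) (nat_lit 2) (nat_lit 7) (nat_lit 186) (nat_lit 95) r6_186 r9_95 (nat_lit 0) (nat_lit 0) (nat_lit 0) (nat_lit 0x7deb8e2932) (nat_lit 1020907368),
  Rx.mk (nat_lit 155) (nat_lit 3) (nat_lit 3) (nat_lit 2) (nat_lit 7) (nat_lit 188) (nat_lit 94) r6_188 r9_94 (nat_lit 0) (nat_lit 0) (nat_lit 0) (nat_lit 0x7decc01612) (nat_lit 1018616040),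
  Rx.mk (nat_lit 231) (nat_lit 7) (nat_lit 4) (nat_lit 3) (nat_lit 5) (nat_lit 190) (nat_lit 84) r6_190 r9_84 (nat_lit 0) (nat_lit 0) (nat_lit 0) (nat_lit 0x7d9efc12a0) (nat_lit 1167723648),
  Rx.mk (nat_lit 251) (nat_lit 3) (nat_lit 7) (nat_lit 3) (nat_lit 7) (nat_lit 196) (nat_lit 87) r6_196 r9_87 (nat_lit 0) (nat_lit 0) (nat_lit 0) (nat_lit 0x7db9dc0486) (nat_lit 1116194040),
  Rx.mk (nat_lit 255) (nat_lit 7) (nat_lit 7) (nat_lit 3) (nat_lit 7) (nat_lit 197) (nat_lit 85) r6_197 r9_85 (nat_lit 0) (nat_lit 0) (nat_lit 0) (nat_lit 0x7db9dc0486) (nat_lit 1116194040),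
  Rx.mk (nat_lit 484) (nat_lit 4) (nat_lit 4) (nat_lit 7) (nat_lit 4) (nat_lit 189) (nat_lit 82) r6_189 r9_82 (nat_lit 0) (nat_lit 0) (nat_lit 0) (nat_lit 0x7664114888) (nat_lit 4716664992),
  Rx.mk (nat_lit 487) (nat_lit 7) (nat_lit 4) (nat_lit 7) (nat_lit 5) (nat_lit 191) (nat_lit 83) r6_191 r9_83 (nat_lit 0) (nat_lit 0) (nat_lit 0) (nat_lit 0x7df0b276e8) (nat_lit 1011048480),
  Rx.mk (nat_lit 500) (nat_lit 4) (nat_lit 6) (nat_lit 7) (nat_lit 6) (nat_lit 192) (nat_lit 88) r6_192 r9_88 (nat_lit 0) (nat_lit 0) (nat_lit 0) (nat_lit 0x7d1458fd5c) (nat_lit 1433545776),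
  Rx.mk (nat_lit 502) (nat_lit 6) (nat_lit 6) (nat_lit 7) (nat_lit 7) (nat_lit 193) (nat_lit 90) r6_193 r9_90 (nat_lit 0) (nat_lit 0) (nat_lit 0) (nat_lit 0x7deb8e2932) (nat_lit 1020907368),
  Rx.mk (nat_lit 503) (nat_lit 7) (nat_lit 6) (nat_lit 7) (nat_lit 7) (nat_lit 194) (nat_lit 89) r6_194 r9_89 (nat_lit 0) (nat_lit 0) (nat_lit 0) (nat_lit 0x7decc01612) (nat_lit 1018616040)]
noncomputable def e23_27 : List Rx := [
  Rx.mk (nat_lit 27) (nat_lit 3) (nat_lit 3) (nat_lit 0) (nat_lit 3) (nat_lit 198) (nat_lit 105) r6_198 r10_105 (nat_lit 0) (nat_lit 0) (nat_lit 0) (nat_lit 0x7d9e0ce194) (nat_lit 1169515152),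
  Rx.mk (nat_lit 59) (nat_lit 3) (nat_lit 7) (nat_lit 0) (nat_lit 3) (nat_lit 201) (nat_lit 104) r6_201 r10_104 (nat_lit 0) (nat_lit 0) (nat_lit 0) (nat_lit 0x7dd6555cd4) (nat_lit 1061598096),
  Rx.mk (nat_lit 63) (nat_lit 7) (nat_lit 7) (nat_lit 0) (nat_lit 3) (nat_lit 202) (nat_lit 102) r6_202 r10_102 (nat_lit 0) (nat_lit 0) (nat_lit 0) (nat_lit 0x7d8f376efa) (nat_lit 1197957384),
  Rx.mk (nat_lit 155) (nat_lit 3) (nat_lit 3) (nat_lit 2) (nat_lit 7) (nat_lit 199) (nat_lit 106) r6_199 r10_106 (nat_lit 0) (nat_lit 0) (nat_lit 0) (nat_lit 0x7da1502d5c) (nat_lit 1163258928),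
  Rx.mk (nat_lit 231) (nat_lit 7) (nat_lit 4) (nat_lit 3) (nat_lit 5) (nat_lit 200) (nat_lit 101) r6_200 r10_101 (nat_lit 0) (nat_lit 0) (nat_lit 0) (nat_lit 0x7de93d0e46) (nat_lit 1025349624),
  Rx.mk (nat_lit 255) (nat_lit 7) (nat_lit 7) (nat_lit 3) (nat_lit 7) (nat_lit 203) (nat_lit 103) r6_203 r10_103 (nat_lit 0) (nat_lit 0) (nat_lit 0) (nat_lit 0x7df1366ea8) (nat_lit 1010060064)]
noncomputable def e23_28 : List Rx := [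
  Rx.mk (nat_lit 103) (nat_lit 7) (nat_lit 4) (nat_lit 1) (nat_lit 5) (nat_lit 288) (nat_lit 306) r6_288 r10_306 (nat_lit 0) (nat_lit 0) (nat_lit 0) (nat_lit 0x7de08359ea) (nat_lit 1042079688),
  Rx.mk (nat_lit 111) (nat_lit 7) (nat_lit 5) (nat_lit 1) (nat_lit 7) (nat_lit 290) (nat_lit 307) r6_290 r10_307 (nat_lit 0) (nat_lit 0) (nat_lit 0) (nat_lit 0x7de6505d14) (nat_lit 1030957200),
  Rx.mk (nat_lit 359) (nat_lit 7) (nat_lit 4) (nat_lit 5) (nat_lit 5) (nat_lit 289) (nat_lit 303) r6_289 r10_303 (nat_lit 0) (nat_lit 0) (nat_lit 0) (nat_lit 0x7de1356ec8) (nat_lit 1040745888),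
  Rx.mk (nat_lit 367) (nat_lit 7) (nat_lit 5) (nat_lit 5) (nat_lit 7) (nat_lit 291) (nat_lit 304) r6_291 r10_304 (nat_lit 0) (nat_lit 0) (nat_lit 0) (nat_lit 0x7df52a4f66) (nat_lit 1002481272),
  Rx.mk (nat_lit 375) (nat_lit 7) (nat_lit 6) (nat_lit 5) (nat_lit 7) (nat_lit 292) (nat_lit 305) r6_292 r10_305 (nat_lit 0) (nat_lit 0) (nat_lit 0) (nat_lit 0x7dcf9d485c) (nat_lit 1074481200)]
noncomputable def e23_29 : List Rx := [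
  Rx.mk (nat_lit 35) (nat_lit 3) (nat_lit 4) (nat_lit 0) (nat_lit 1) (nat_lit 293) (nat_lit 195) r6_293 r5_195 (nat_lit 0) (nat_lit 0) (nat_lit 0) (nat_lit 0x75d0a39ff6) (nat_lit 4999343544),
  Rx.mk (nat_lit 43) (nat_lit 3) (nat_lit 5) (nat_lit 0) (nat_lit 3) (nat_lit 297) (nat_lit 196) r6_297 r5_196 (nat_lit 0) (nat_lit 0) (nat_lit 0) (nat_lit 0x7e3c4d7cec) (nat_lit 866082672),
  Rx.mk (nat_lit 59) (nat_lit 3) (nat_lit 7) (nat_lit 0) (nat_lit 3) (nat_lit 301) (nat_lit 197) r6_301 r5_197 (nat_lit 0) (nat_lit 0) (nat_lit 0) (nat_lit 0x7e7262db60) (nat_lit 762383232),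
  Rx.mk (nat_lit 99) (nat_lit 3) (nat_lit 4) (nat_lit 1) (nat_lit 5) (nat_lit 294) (nat_lit 198) r6_294 r5_198 (nat_lit 0) (nat_lit 0) (nat_lit 0) (nat_lit 0x7e658ba8e0) (nat_lit 787003776),
  Rx.mk (nat_lit 107) (nat_lit 3) (nat_lit 5) (nat_lit 1) (nat_lit 7) (nat_lit 298) (nat_lit 199) r6_298 r5_199 (nat_lit 0) (nat_lit 0) (nat_lit 0) (nat_lit 0x7dd032df02) (nat_lit 1073360808),
  Rx.mk (nat_lit 123) (nat_lit 3) (nat_lit 7) (nat_lit 1) (nat_lit 7) (nat_lit 302) (nat_lit 200) r6_302 r5_200 (nat_lit 0) (nat_lit 0) (nat_lit 0) (nat_lit 0x7e468179a2) (nat_lit 846519336),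
  Rx.mk (nat_lit 227) (nat_lit 3) (nat_lit 4) (nat_lit 3) (nat_lit 5) (nat_lit 295) (nat_lit 201) r6_295 r5_201 (nat_lit 0) (nat_lit 0) (nat_lit 0) (nat_lit 0x7dc43a5e96) (nat_lit 1096313400),
  Rx.mk (nat_lit 231) (nat_lit 7) (nat_lit 4) (nat_lit 3) (nat_lit 5) (nat_lit 296) (nat_lit 193) r6_296 r5_193 (nat_lit 0) (nat_lit 0) (nat_lit 0) (nat_lit 0x7e9d322e40) (nat_lit 680299776),
  Rx.mk (nat_lit 235) (nat_lit 3) (nat_lit 5) (nat_lit 3) (nat_lit 7) (nat_lit 299) (nat_lit 202) r6_299 r5_202 (nat_lit 0) (nat_lit 0) (nat_lit 0) (nat_lit 0x7dd8ca1586) (nat_lit 1056889080),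
  Rx.mk (nat_lit 239) (nat_lit 7) (nat_lit 5) (nat_lit 3) (nat_lit 7) (nat_lit 300) (nat_lit 194) r6_300 r5_194 (nat_lit 0) (nat_lit 0) (nat_lit 0) (nat_lit 0x7e6dd4e444) (nat_lit 771116112)]
noncomputable def e23_30 : List Rx := [
  Rx.mk (nat_lit 59) (nat_lit 3) (nat_lit 7) (nat_lit 0) (nat_lit 3) (nat_lit 278) (nat_lit 101) r6_278 r10_101 (nat_lit 0) (nat_lit 0) (nat_lit 0) (nat_lit 0x7de93d0e46) (nat_lit 1025349624),
  Rx.mk (nat_lit 227) (nat_lit 3) (nat_lit 4) (nat_lit 3) (nat_lit 5) (nat_lit 274) (nat_lit 102) r6_274 r10_102 (nat_lit 0) (nat_lit 0) (nat_lit 0) (nat_lit 0x7d8f376efa) (nat_lit 1197957384),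
  Rx.mk (nat_lit 231) (nat_lit 7) (nat_lit 4) (nat_lit 3) (nat_lit 5) (nat_lit 275) (nat_lit 104) r6_275 r10_104 (nat_lit 0) (nat_lit 0) (nat_lit 0) (nat_lit 0x7dd6555cd4) (nat_lit 1061598096),
  Rx.mk (nat_lit 251) (nat_lit 3) (nat_lit 7) (nat_lit 3) (nat_lit 7) (nat_lit 279) (nat_lit 103) r6_279 r10_103 (nat_lit 0) (nat_lit 0) (nat_lit 0) (nat_lit 0x7df1366ea8) (nat_lit 1010060064),
  Rx.mk (nat_lit 487) (nat_lit 7) (nat_lit 4) (nat_lit 7) (nat_lit 5) (nat_lit 276) (nat_lit 105) r6_276 r10_105 (nat_lit 0) (nat_lit 0) (nat_lit 0) (nat_lit 0x7d9e0ce194) (nat_lit 1169515152),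
  Rx.mk (nat_lit 503) (nat_lit 7) (nat_lit 6) (nat_lit 7) (nat_lit 7) (nat_lit 277) (nat_lit 106) r6_277 r10_106 (nat_lit 0) (nat_lit 0) (nat_lit 0) (nat_lit 0x7da1502d5c) (nat_lit 1163258928)]
noncomputable def e23_31 : List Rx := [
  Rx.mk (nat_lit 43) (nat_lit 3) (nat_lit 5) (nat_lit 0) (nat_lit 3) (nat_lit 282) (nat_lit 282) r6_282 r5_282 (nat_lit 0) (nat_lit 0) (nat_lit 0) (nat_lit 0x7e3d97c846) (nat_lit 863608824),
  Rx.mk (nat_lit 47) (nat_lit 7) (nat_lit 5) (nat_lit 0) (nat_lit 3) (nat_lit 284) (nat_lit 283) r6_284 r5_283 (nat_lit 0) (nat_lit 0) (nat_lit 0) (nat_lit 0x7e8bdea38a) (nat_lit 713521224),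
  Rx.mk (nat_lit 99) (nat_lit 3) (nat_lit 4) (nat_lit 1) (nat_lit 5) (nat_lit 280) (nat_lit 280) r6_280 r5_280 (nat_lit 0) (nat_lit 0) (nat_lit 0) (nat_lit 0x7e8bdea38a) (nat_lit 713521224),
  Rx.mk (nat_lit 103) (nat_lit 7) (nat_lit 4) (nat_lit 1) (nat_lit 5) (nat_lit 281) (nat_lit 281) r6_281 r5_281 (nat_lit 0) (nat_lit 0) (nat_lit 0) (nat_lit 0x7e3d97c846) (nat_lit 863608824),
  Rx.mk (nat_lit 107) (nat_lit 3) (nat_lit 5) (nat_lit 1) (nat_lit 7) (nat_lit 283) (nat_lit 284) r6_283 r5_284 (nat_lit 0) (nat_lit 0) (nat_lit 0) (nat_lit 0x7e3ec5f562) (nat_lit 861345576),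
  Rx.mk (nat_lit 111) (nat_lit 7) (nat_lit 5) (nat_lit 1) (nat_lit 7) (nat_lit 285) (nat_lit 285) r6_285 r5_285 (nat_lit 0) (nat_lit 0) (nat_lit 0) (nat_lit 0x7e3ec5f562) (nat_lit 861345576)]
noncomputable def e23_32 : List Rx := [
  Rx.mk (nat_lit 35) (nat_lit 3) (nat_lit 4) (nat_lit 0) (nat_lit 1) (nat_lit 303) (nat_lit 191) r6_303 r11_191 (nat_lit 0) (nat_lit 0) (nat_lit 0) (nat_lit 0x76404205a0) (nat_lit 4785326208),
  Rx.mk (nat_lit 39) (nat_lit 7) (nat_lit 4) (nat_lit 0) (nat_lit 1) (nat_lit 305) (nat_lit 197) r6_305 r11_197 (nat_lit 0) (nat_lit 0) (nat_lit 0) (nat_lit 0x76404205a0) (nat_lit 4785326208),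
  Rx.mk (nat_lit 43) (nat_lit 3) (nat_lit 5) (nat_lit 0) (nat_lit 3) (nat_lit 308) (nat_lit 193) r6_308 r11_193 (nat_lit 0) (nat_lit 0) (nat_lit 0) (nat_lit 0x7e4cddb3d8) (nat_lit 834324192),
  Rx.mk (nat_lit 47) (nat_lit 7) (nat_lit 5) (nat_lit 0) (nat_lit 3) (nat_lit 310) (nat_lit 200) r6_310 r11_200 (nat_lit 0) (nat_lit 0) (nat_lit 0) (nat_lit 0x7e974b4cb4) (nat_lit 691616016),
  Rx.mk (nat_lit 59) (nat_lit 3) (nat_lit 7) (nat_lit 0) (nat_lit 3) (nat_lit 313) (nat_lit 195) r6_313 r11_195 (nat_lit 0) (nat_lit 0) (nat_lit 0) (nat_lit 0x7e9290b862) (nat_lit 700683048),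
  Rx.mk (nat_lit 99) (nat_lit 3) (nat_lit 4) (nat_lit 1) (nat_lit 5) (nat_lit 304) (nat_lit 192) r6_304 r11_192 (nat_lit 0) (nat_lit 0) (nat_lit 0) (nat_lit 0x7e974b4cb4) (nat_lit 691616016),
  Rx.mk (nat_lit 103) (nat_lit 7) (nat_lit 4) (nat_lit 1) (nat_lit 5) (nat_lit 306) (nat_lit 198) r6_306 r11_198 (nat_lit 0) (nat_lit 0) (nat_lit 0) (nat_lit 0x7e4cddb3d8) (nat_lit 834324192),
  Rx.mk (nat_lit 107) (nat_lit 3) (nat_lit 5) (nat_lit 1) (nat_lit 7) (nat_lit 309) (nat_lit 194) r6_309 r11_194 (nat_lit 0) (nat_lit 0) (nat_lit 0) (nat_lit 0x7deae7b39a) (nat_lit 1022154120),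
  Rx.mk (nat_lit 111) (nat_lit 7) (nat_lit 5) (nat_lit 1) (nat_lit 7) (nat_lit 311) (nat_lit 201) r6_311 r11_201 (nat_lit 0) (nat_lit 0) (nat_lit 0) (nat_lit 0x7deae7b39a) (nat_lit 1022154120),
  Rx.mk (nat_lit 123) (nat_lit 3) (nat_lit 7) (nat_lit 1) (nat_lit 7) (nat_lit 314) (nat_lit 196) r6_314 r11_196 (nat_lit 0) (nat_lit 0) (nat_lit 0) (nat_lit 0x7e672d4ec4) (nat_lit 783875664),
  Rx.mk (nat_lit 231) (nat_lit 7) (nat_lit 4) (nat_lit 3) (nat_lit 5) (nat_lit 307) (nat_lit 199) r6_307 r11_199 (nat_lit 0) (nat_lit 0) (nat_lit 0) (nat_lit 0x7e9290b862) (nat_lit 700683048),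
  Rx.mk (nat_lit 239) (nat_lit 7) (nat_lit 5) (nat_lit 3) (nat_lit 7) (nat_lit 312) (nat_lit 202) r6_312 r11_202 (nat_lit 0) (nat_lit 0) (nat_lit 0) (nat_lit 0x7e672d4ec4) (nat_lit 783875664)]
noncomputable def e23_33 : List Rx := [
  Rx.mk (nat_lit 8) (nat_lit 0) (nat_lit 1) (nat_lit 0) (nat_lit 2) (nat_lit 319) (nat_lit 178) r6_319 r0_178 (nat_lit 0) (nat_lit 0) (nat_lit 0) (nat_lit 0x6d7c714b70) (nat_lit 9087609024),
  Rx.mk (nat_lit 11) (nat_lit 3) (nat_lit 1) (nat_lit 0) (nat_lit 3) (nat_lit 322) (nat_lit 182) r6_322 r0_182 (nat_lit 0) (nat_lit 0) (nat_lit 0) (nat_lit 0x7e87fa21d6) (nat_lit 720984888),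
  Rx.mk (nat_lit 40) (nat_lit 0) (nat_lit 5) (nat_lit 0) (nat_lit 2) (nat_lit 325) (nat_lit 177) r6_325 r0_177 (nat_lit 0) (nat_lit 0) (nat_lit 0) (nat_lit 0x6042df11ce) (nat_lit 15579090072),
  Rx.mk (nat_lit 72) (nat_lit 0) (nat_lit 1) (nat_lit 1) (nat_lit 6) (nat_lit 320) (nat_lit 180) r6_320 r0_180 (nat_lit 0) (nat_lit 0) (nat_lit 0) (nat_lit 0x7d7f2b2fce) (nat_lit 1228727448),
  Rx.mk (nat_lit 75) (nat_lit 3) (nat_lit 1) (nat_lit 1) (nat_lit 7) (nat_lit 323) (nat_lit 183) r6_323 r0_183 (nat_lit 0) (nat_lit 0) (nat_lit 0) (nat_lit 0x7e596ecaba) (nat_lit 810228744),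
  Rx.mk (nat_lit 104) (nat_lit 0) (nat_lit 5) (nat_lit 1) (nat_lit 6) (nat_lit 326) (nat_lit 179) r6_326 r0_179 (nat_lit 0) (nat_lit 0) (nat_lit 0) (nat_lit 0x7d961fe06c) (nat_lit 1184712048),
  Rx.mk (nat_lit 136) (nat_lit 0) (nat_lit 1) (nat_lit 2) (nat_lit 6) (nat_lit 321) (nat_lit 181) r6_321 r0_181 (nat_lit 0) (nat_lit 0) (nat_lit 0) (nat_lit 0x7e643c7dd4) (nat_lit 789514128),
  Rx.mk (nat_lit 139) (nat_lit 3) (nat_lit 1) (nat_lit 2) (nat_lit 7) (nat_lit 324) (nat_lit 184) r6_324 r0_184 (nat_lit 0) (nat_lit 0) (nat_lit 0) (nat_lit 0x7e6c393e00) (nat_lit 774199296)]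
noncomputable def e23_34 : List Rx := [
  Rx.mk (nat_lit 40) (nat_lit 0) (nat_lit 5) (nat_lit 0) (nat_lit 2) (nat_lit 315) (nat_lit 250) r6_315 r0_250 (nat_lit 0) (nat_lit 0) (nat_lit 0) (nat_lit 0x69df6adf74) (nat_lit 10861248528),
  Rx.mk (nat_lit 41) (nat_lit 1) (nat_lit 5) (nat_lit 0) (nat_lit 3) (nat_lit 317) (nat_lit 251) r6_317 r0_251 (nat_lit 0) (nat_lit 0) (nat_lit 0) (nat_lit 0x7da3d1a542) (nat_lit 1158454440),
  Rx.mk (nat_lit 104) (nat_lit 0) (nat_lit 5) (nat_lit 1) (nat_lit 6) (nat_lit 316) (nat_lit 252) r6_316 r0_252 (nat_lit 0) (nat_lit 0) (nat_lit 0) (nat_lit 0x7bc64bff7a) (nat_lit 2074053384),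
  Rx.mk (nat_lit 105) (nat_lit 1) (nat_lit 5) (nat_lit 1) (nat_lit 7) (nat_lit 318) (nat_lit 253) r6_318 r0_253 (nat_lit 0) (nat_lit 0) (nat_lit 0) (nat_lit 0x7e1cb5968a) (nat_lit 926659656)]
noncomputable def e23_35 : List Rx := [
  Rx.mk (nat_lit 8) (nat_lit 0) (nat_lit 1) (nat_lit 0) (nat_lit 2) (nat_lit 327) (nat_lit 230) r6_327 r6_230 (nat_lit 0) (nat_lit 0) (nat_lit 0) (nat_lit 0x7169e07090) (nat_lit 7159793472),
  Rx.mk (nat_lit 9) (nat_lit 1) (nat_lit 1) (nat_lit 0) (nat_lit 3) (nat_lit 330) (nat_lit 235) r6_330 r6_235 (nat_lit 0) (nat_lit 0) (nat_lit 0) (nat_lit 0x7d6392097c) (nat_lit 1281644208),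
  Rx.mk (nat_lit 11) (nat_lit 3) (nat_lit 1) (nat_lit 0) (nat_lit 3) (nat_lit 333) (nat_lit 239) r6_333 r6_239 (nat_lit 0) (nat_lit 0) (nat_lit 0) (nat_lit 0x7ddc67bba8) (nat_lit 1049956128),
  Rx.mk (nat_lit 40) (nat_lit 0) (nat_lit 5) (nat_lit 0) (nat_lit 2) (nat_lit 335) (nat_lit 229) r6_335 r6_229 (nat_lit 0) (nat_lit 0) (nat_lit 0) (nat_lit 0x734b1afb06) (nat_lit 6237087480),
  Rx.mk (nat_lit 41) (nat_lit 1) (nat_lit 5) (nat_lit 0) (nat_lit 3) (nat_lit 337) (nat_lit 234) r6_337 r6_234 (nat_lit 0) (nat_lit 0) (nat_lit 0) (nat_lit 0x7ddb0691bc) (nat_lit 1052601264),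
  Rx.mk (nat_lit 72) (nat_lit 0) (nat_lit 1) (nat_lit 1) (nat_lit 6) (nat_lit 328) (nat_lit 232) r6_328 r6_232 (nat_lit 0) (nat_lit 0) (nat_lit 0) (nat_lit 0x7d6392097c) (nat_lit 1281644208),
  Rx.mk (nat_lit 73) (nat_lit 1) (nat_lit 1) (nat_lit 1) (nat_lit 7) (nat_lit 331) (nat_lit 237) r6_331 r6_237 (nat_lit 0) (nat_lit 0) (nat_lit 0) (nat_lit 0x7dd0afb734) (nat_lit 1072425744),
  Rx.mk (nat_lit 75) (nat_lit 3) (nat_lit 1) (nat_lit 1) (nat_lit 7) (nat_lit 334) (nat_lit 240) r6_334 r6_240 (nat_lit 0) (nat_lit 0) (nat_lit 0) (nat_lit 0x7de8a95782) (nat_lit 1026455976),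
  Rx.mk (nat_lit 104) (nat_lit 0) (nat_lit 5) (nat_lit 1) (nat_lit 6) (nat_lit 336) (nat_lit 231) r6_336 r6_231 (nat_lit 0) (nat_lit 0) (nat_lit 0) (nat_lit 0x7ddb0691bc) (nat_lit 1052601264),
  Rx.mk (nat_lit 105) (nat_lit 1) (nat_lit 5) (nat_lit 1) (nat_lit 7) (nat_lit 338) (nat_lit 236) r6_338 r6_236 (nat_lit 0) (nat_lit 0) (nat_lit 0) (nat_lit 0x7de269fb7e) (nat_lit 1038434904),
  Rx.mk (nat_lit 136) (nat_lit 0) (nat_lit 1) (nat_lit 2) (nat_lit 6) (nat_lit 329) (nat_lit 233) r6_329 r6_233 (nat_lit 0) (nat_lit 0) (nat_lit 0) (nat_lit 0x7ddc67bba8) (nat_lit 1049956128),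
  Rx.mk (nat_lit 137) (nat_lit 1) (nat_lit 1) (nat_lit 2) (nat_lit 7) (nat_lit 332) (nat_lit 238) r6_332 r6_238 (nat_lit 0) (nat_lit 0) (nat_lit 0) (nat_lit 0x7de8a95782) (nat_lit 1026455976)]
noncomputable def e23_36 : List Rx := [
  Rx.mk (nat_lit 105) (nat_lit 1) (nat_lit 5) (nat_lit 1) (nat_lit 7) (nat_lit 399) (nat_lit 284) r6_399 r2_284 (nat_lit 0) (nat_lit 0) (nat_lit 0) (nat_lit 0x7ddbba867c) (nat_lit 1051253424),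
  Rx.mk (nat_lit 109) (nat_lit 5) (nat_lit 5) (nat_lit 1) (nat_lit 7) (nat_lit 400) (nat_lit 285) r6_400 r2_285 (nat_lit 0) (nat_lit 0) (nat_lit 0) (nat_lit 0x7ddbba867c) (nat_lit 1051253424)]
noncomputable def e23_37 : List Rx := [
  Rx.mk (nat_lit 73) (nat_lit 1) (nat_lit 1) (nat_lit 1) (nat_lit 7) (nat_lit 406) (nat_lit 257) r6_406 r8_257 (nat_lit 0) (nat_lit 0) (nat_lit 0) (nat_lit 0x7ddfeca356) (nat_lit 1043208504),
  Rx.mk (nat_lit 105) (nat_lit 1) (nat_lit 5) (nat_lit 1) (nat_lit 7) (nat_lit 407) (nat_lit 258) r6_407 r8_258 (nat_lit 0) (nat_lit 0) (nat_lit 0) (nat_lit 0x7dd7634bf4) (nat_lit 1059576336),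
  Rx.mk (nat_lit 109) (nat_lit 5) (nat_lit 5) (nat_lit 1) (nat_lit 7) (nat_lit 408) (nat_lit 259) r6_408 r8_259 (nat_lit 0) (nat_lit 0) (nat_lit 0) (nat_lit 0x7de3b8069c) (nat_lit 1035932976)]
noncomputable def e23_38 : List Rx := [
  Rx.mk (nat_lit 105) (nat_lit 1) (nat_lit 5) (nat_lit 1) (nat_lit 7) (nat_lit 409) (nat_lit 259) r6_409 r8_259 (nat_lit 0) (nat_lit 0) (nat_lit 0) (nat_lit 0x7de3b8069c) (nat_lit 1035932976),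
  Rx.mk (nat_lit 109) (nat_lit 5) (nat_lit 5) (nat_lit 1) (nat_lit 7) (nat_lit 410) (nat_lit 258) r6_410 r8_258 (nat_lit 0) (nat_lit 0) (nat_lit 0) (nat_lit 0x7dd7634bf4) (nat_lit 1059576336),
  Rx.mk (nat_lit 365) (nat_lit 5) (nat_lit 5) (nat_lit 5) (nat_lit 7) (nat_lit 411) (nat_lit 257) r6_411 r8_257 (nat_lit 0) (nat_lit 0) (nat_lit 0) (nat_lit 0x7ddfeca356) (nat_lit 1043208504)]
noncomputable def e23_39 : List Rx := [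
  Rx.mk (nat_lit 41) (nat_lit 1) (nat_lit 5) (nat_lit 0) (nat_lit 3) (nat_lit 397) (nat_lit 256) r6_397 r1_256 (nat_lit 0) (nat_lit 0) (nat_lit 0) (nat_lit 0x7d23d005dc) (nat_lit 1403893296),
  Rx.mk (nat_lit 105) (nat_lit 1) (nat_lit 5) (nat_lit 1) (nat_lit 7) (nat_lit 398) (nat_lit 257) r6_398 r1_257 (nat_lit 0) (nat_lit 0) (nat_lit 0) (nat_lit 0x7dde737aea) (nat_lit 1046033352)]
noncomputable def e23_40 : List Rx := [
  Rx.mk (nat_lit 9) (nat_lit 1) (nat_lit 1) (nat_lit 0) (nat_lit 3) (nat_lit 401) (nat_lit 185) r6_401 r7_185 (nat_lit 0) (nat_lit 0) (nat_lit 0) (nat_lit 0x7d9c65fc04) (nat_lit 1172682576),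
  Rx.mk (nat_lit 41) (nat_lit 1) (nat_lit 5) (nat_lit 0) (nat_lit 3) (nat_lit 404) (nat_lit 184) r6_404 r7_184 (nat_lit 0) (nat_lit 0) (nat_lit 0) (nat_lit 0x7de7386e92) (nat_lit 1029219048),
  Rx.mk (nat_lit 73) (nat_lit 1) (nat_lit 1) (nat_lit 1) (nat_lit 7) (nat_lit 402) (nat_lit 187) r6_402 r7_187 (nat_lit 0) (nat_lit 0) (nat_lit 0) (nat_lit 0x7dbbebe386) (nat_lit 1112240376),
  Rx.mk (nat_lit 105) (nat_lit 1) (nat_lit 5) (nat_lit 1) (nat_lit 7) (nat_lit 405) (nat_lit 186) r6_405 r7_186 (nat_lit 0) (nat_lit 0) (nat_lit 0) (nat_lit 0x7de4f1130a) (nat_lit 1033588296),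
  Rx.mk (nat_lit 137) (nat_lit 1) (nat_lit 1) (nat_lit 2) (nat_lit 7) (nat_lit 403) (nat_lit 188) r6_403 r7_188 (nat_lit 0) (nat_lit 0) (nat_lit 0) (nat_lit 0x7dbabc967c) (nat_lit 1114512048)]
noncomputable def e23_41 : List Rx := [
  Rx.mk (nat_lit 8) (nat_lit 0) (nat_lit 1) (nat_lit 0) (nat_lit 2) (nat_lit 381) (nat_lit 192) r6_381 r1_192 (nat_lit 0) (nat_lit 0) (nat_lit 0) (nat_lit 0x722130dad2) (nat_lit 6808307688),
  Rx.mk (nat_lit 11) (nat_lit 3) (nat_lit 1) (nat_lit 0) (nat_lit 3) (nat_lit 385) (nat_lit 195) r6_385 r1_195 (nat_lit 0) (nat_lit 0) (nat_lit 0) (nat_lit 0x7d8beb23c2) (nat_lit 1204281000),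
  Rx.mk (nat_lit 72) (nat_lit 0) (nat_lit 1) (nat_lit 1) (nat_lit 6) (nat_lit 382) (nat_lit 193) r6_382 r1_193 (nat_lit 0) (nat_lit 0) (nat_lit 0) (nat_lit 0x7d814b2dcc) (nat_lit 1224653040),
  Rx.mk (nat_lit 75) (nat_lit 3) (nat_lit 1) (nat_lit 1) (nat_lit 7) (nat_lit 386) (nat_lit 196) r6_386 r1_196 (nat_lit 0) (nat_lit 0) (nat_lit 0) (nat_lit 0x7df3680b8c) (nat_lit 1005853680),
  Rx.mk (nat_lit 136) (nat_lit 0) (nat_lit 1) (nat_lit 2) (nat_lit 6) (nat_lit 383) (nat_lit 194) r6_383 r1_194 (nat_lit 0) (nat_lit 0) (nat_lit 0) (nat_lit 0x7dcda1a818) (nat_lit 1078283232),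
  Rx.mk (nat_lit 138) (nat_lit 2) (nat_lit 1) (nat_lit 2) (nat_lit 7) (nat_lit 384) (nat_lit 198) r6_384 r1_198 (nat_lit 0) (nat_lit 0) (nat_lit 0) (nat_lit 0x7d43cb4608) (nat_lit 1342572192),
  Rx.mk (nat_lit 139) (nat_lit 3) (nat_lit 1) (nat_lit 2) (nat_lit 7) (nat_lit 387) (nat_lit 197) r6_387 r1_197 (nat_lit 0) (nat_lit 0) (nat_lit 0) (nat_lit 0x7dd2126108) (nat_lit 1069769376)]
noncomputable def e23_42 : List Rx := [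
  Rx.mk (nat_lit 0) (nat_lit 0) (nat_lit 0) (nat_lit 0) (nat_lit 0) (nat_lit 339) (nat_lit 189) r6_339 r2_189 (nat_lit 0) (nat_lit 0) (nat_lit 0) (nat_lit 0x3b982e8184) (nat_lit 33577092432),
  Rx.mk (nat_lit 3) (nat_lit 3) (nat_lit 0) (nat_lit 0) (nat_lit 1) (nat_lit 342) (nat_lit 193) r6_342 r2_193 (nat_lit 0) (nat_lit 0) (nat_lit 0) (nat_lit 0x75dc704320) (nat_lit 4976719488),
  Rx.mk (nat_lit 8) (nat_lit 0) (nat_lit 1) (nat_lit 0) (nat_lit 2) (nat_lit 344) (nat_lit 190) r6_344 r2_190 (nat_lit 0) (nat_lit 0) (nat_lit 0) (nat_lit 0x68b79d5d74) (nat_lit 11428419600),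
  Rx.mk (nat_lit 11) (nat_lit 3) (nat_lit 1) (nat_lit 0) (nat_lit 3) (nat_lit 347) (nat_lit 194) r6_347 r2_194 (nat_lit 0) (nat_lit 0) (nat_lit 0) (nat_lit 0x7d6beb63de) (nat_lit 1265635800),
  Rx.mk (nat_lit 27) (nat_lit 3) (nat_lit 3) (nat_lit 0) (nat_lit 3) (nat_lit 350) (nat_lit 195) r6_350 r2_195 (nat_lit 0) (nat_lit 0) (nat_lit 0) (nat_lit 0x7d26cf15e8) (nat_lit 1398148128),
  Rx.mk (nat_lit 128) (nat_lit 0) (nat_lit 0) (nat_lit 2) (nat_lit 4) (nat_lit 340) (nat_lit 191) r6_340 r2_191 (nat_lit 0) (nat_lit 0) (nat_lit 0) (nat_lit 0x6e2c488d4c) (nat_lit 8750452464),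
  Rx.mk (nat_lit 130) (nat_lit 2) (nat_lit 0) (nat_lit 2) (nat_lit 5) (nat_lit 341) (nat_lit 200) r6_341 r2_200 (nat_lit 0) (nat_lit 0) (nat_lit 0) (nat_lit 0x7d86aa57d4) (nat_lit 1214353296),
  Rx.mk (nat_lit 131) (nat_lit 3) (nat_lit 0) (nat_lit 2) (nat_lit 5) (nat_lit 343) (nat_lit 197) r6_343 r2_197 (nat_lit 0) (nat_lit 0) (nat_lit 0) (nat_lit 0x7dd93fce2a) (nat_lit 1056007368),
  Rx.mk (nat_lit 136) (nat_lit 0) (nat_lit 1) (nat_lit 2) (nat_lit 6) (nat_lit 345) (nat_lit 192) r6_345 r2_192 (nat_lit 0) (nat_lit 0) (nat_lit 0) (nat_lit 0x7dcd510d22) (nat_lit 1078886952),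
  Rx.mk (nat_lit 138) (nat_lit 2) (nat_lit 1) (nat_lit 2) (nat_lit 7) (nat_lit 346) (nat_lit 201) r6_346 r2_201 (nat_lit 0) (nat_lit 0) (nat_lit 0) (nat_lit 0x7dfc7eba18) (nat_lit 988427232),
  Rx.mk (nat_lit 139) (nat_lit 3) (nat_lit 1) (nat_lit 2) (nat_lit 7) (nat_lit 348) (nat_lit 198) r6_348 r2_198 (nat_lit 0) (nat_lit 0) (nat_lit 0) (nat_lit 0x7ddcd23500) (nat_lit 1049158656),
  Rx.mk (nat_lit 146) (nat_lit 2) (nat_lit 2) (nat_lit 2) (nat_lit 7) (nat_lit 349) (nat_lit 202) r6_349 r2_202 (nat_lit 0) (nat_lit 0) (nat_lit 0) (nat_lit 0x7dda493d92) (nat_lit 1054019304),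
  Rx.mk (nat_lit 155) (nat_lit 3) (nat_lit 3) (nat_lit 2) (nat_lit 7) (nat_lit 351) (nat_lit 199) r6_351 r2_199 (nat_lit 0) (nat_lit 0) (nat_lit 0) (nat_lit 0x7df6c535b6) (nat_lit 999403704),
  Rx.mk (nat_lit 219) (nat_lit 3) (nat_lit 3) (nat_lit 3) (nat_lit 7) (nat_lit 352) (nat_lit 196) r6_352 r2_196 (nat_lit 0) (nat_lit 0) (nat_lit 0) (nat_lit 0x7dc2f852b8) (nat_lit 1098725472)]
noncomputable def e23_43 : List Rx := [
  Rx.mk (nat_lit 8) (nat_lit 0) (nat_lit 1) (nat_lit 0) (nat_lit 2) (nat_lit 388) (nat_lit 248) r6_388 r7_248 (nat_lit 0) (nat_lit 0) (nat_lit 0) (nat_lit 0x66291d8800) (nat_lit 12683354112),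
  Rx.mk (nat_lit 9) (nat_lit 1) (nat_lit 1) (nat_lit 0) (nat_lit 3) (nat_lit 391) (nat_lit 249) r6_391 r7_249 (nat_lit 0) (nat_lit 0) (nat_lit 0) (nat_lit 0x7d55b76734) (nat_lit 1308207888),
  Rx.mk (nat_lit 11) (nat_lit 3) (nat_lit 1) (nat_lit 0) (nat_lit 3) (nat_lit 395) (nat_lit 250) r6_395 r7_250 (nat_lit 0) (nat_lit 0) (nat_lit 0) (nat_lit 0x7d88d17560) (nat_lit 1210225536),
  Rx.mk (nat_lit 72) (nat_lit 0) (nat_lit 1) (nat_lit 1) (nat_lit 6) (nat_lit 389) (nat_lit 251) r6_389 r7_251 (nat_lit 0) (nat_lit 0) (nat_lit 0) (nat_lit 0x7d509b58fa) (nat_lit 1318005000),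
  Rx.mk (nat_lit 73) (nat_lit 1) (nat_lit 1) (nat_lit 1) (nat_lit 7) (nat_lit 392) (nat_lit 252) r6_392 r7_252 (nat_lit 0) (nat_lit 0) (nat_lit 0) (nat_lit 0x7de766ebaa) (nat_lit 1028870856),
  Rx.mk (nat_lit 75) (nat_lit 3) (nat_lit 1) (nat_lit 1) (nat_lit 7) (nat_lit 396) (nat_lit 253) r6_396 r7_253 (nat_lit 0) (nat_lit 0) (nat_lit 0) (nat_lit 0x7dd5e5a3d0) (nat_lit 1062434880),
  Rx.mk (nat_lit 136) (nat_lit 0) (nat_lit 1) (nat_lit 2) (nat_lit 6) (nat_lit 390) (nat_lit 254) r6_390 r7_254 (nat_lit 0) (nat_lit 0) (nat_lit 0) (nat_lit 0x7dcd22900a) (nat_lit 1079235144),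
  Rx.mk (nat_lit 137) (nat_lit 1) (nat_lit 1) (nat_lit 2) (nat_lit 7) (nat_lit 393) (nat_lit 255) r6_393 r7_255 (nat_lit 0) (nat_lit 0) (nat_lit 0) (nat_lit 0x7dc7720b18) (nat_lit 1090144224),
  Rx.mk (nat_lit 138) (nat_lit 2) (nat_lit 1) (nat_lit 2) (nat_lit 7) (nat_lit 394) (nat_lit 256) r6_394 r7_256 (nat_lit 0) (nat_lit 0) (nat_lit 0) (nat_lit 0x7dee7e3a2e) (nat_lit 1015274520)]
noncomputable def e23_44 : List Rx := [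
  Rx.mk (nat_lit 0) (nat_lit 0) (nat_lit 0) (nat_lit 0) (nat_lit 0) (nat_lit 353) (nat_lit 170) r6_353 r8_170 (nat_lit 0) (nat_lit 0) (nat_lit 0) (nat_lit 0xca49969cc) (nat_lit 56623393008),
  Rx.mk (nat_lit 3) (nat_lit 3) (nat_lit 0) (nat_lit 0) (nat_lit 1) (nat_lit 356) (nat_lit 176) r6_356 r8_176 (nat_lit 0) (nat_lit 0) (nat_lit 0) (nat_lit 0x744f2f58bc) (nat_lit 5738411952),
  Rx.mk (nat_lit 8) (nat_lit 0) (nat_lit 1) (nat_lit 0) (nat_lit 2) (nat_lit 357) (nat_lit 171) r6_357 r8_171 (nat_lit 0) (nat_lit 0) (nat_lit 0) (nat_lit 0x4c79c53736) (nat_lit 25290895032),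
  Rx.mk (nat_lit 9) (nat_lit 1) (nat_lit 1) (nat_lit 0) (nat_lit 3) (nat_lit 359) (nat_lit 174) r6_359 r8_174 (nat_lit 0) (nat_lit 0) (nat_lit 0) (nat_lit 0x7d5bdfe4a6) (nat_lit 1296400248),
  Rx.mk (nat_lit 11) (nat_lit 3) (nat_lit 1) (nat_lit 0) (nat_lit 3) (nat_lit 362) (nat_lit 177) r6_362 r8_177 (nat_lit 0) (nat_lit 0) (nat_lit 0) (nat_lit 0x7dce02c206) (nat_lit 1077555960),
  Rx.mk (nat_lit 27) (nat_lit 3) (nat_lit 3) (nat_lit 0) (nat_lit 3) (nat_lit 364) (nat_lit 178) r6_364 r8_178 (nat_lit 0) (nat_lit 0) (nat_lit 0) (nat_lit 0x7db87bfa88) (nat_lit 1118830752),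
  Rx.mk (nat_lit 128) (nat_lit 0) (nat_lit 0) (nat_lit 2) (nat_lit 4) (nat_lit 354) (nat_lit 172) r6_354 r8_172 (nat_lit 0) (nat_lit 0) (nat_lit 0) (nat_lit 0x700fb7547c) (nat_lit 7823520432),
  Rx.mk (nat_lit 130) (nat_lit 2) (nat_lit 0) (nat_lit 2) (nat_lit 5) (nat_lit 355) (nat_lit 180) r6_355 r8_180 (nat_lit 0) (nat_lit 0) (nat_lit 0) (nat_lit 0x7dd0e0d422) (nat_lit 1072057896),
  Rx.mk (nat_lit 136) (nat_lit 0) (nat_lit 1) (nat_lit 2) (nat_lit 6) (nat_lit 358) (nat_lit 173) r6_358 r8_173 (nat_lit 0) (nat_lit 0) (nat_lit 0) (nat_lit 0x7dad56ece4) (nat_lit 1140199632),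
  Rx.mk (nat_lit 137) (nat_lit 1) (nat_lit 1) (nat_lit 2) (nat_lit 7) (nat_lit 360) (nat_lit 175) r6_360 r8_175 (nat_lit 0) (nat_lit 0) (nat_lit 0) (nat_lit 0x7dd092d902) (nat_lit 1072641960),
  Rx.mk (nat_lit 138) (nat_lit 2) (nat_lit 1) (nat_lit 2) (nat_lit 7) (nat_lit 361) (nat_lit 181) r6_361 r8_181 (nat_lit 0) (nat_lit 0) (nat_lit 0) (nat_lit 0x7dc2a09834) (nat_lit 1099382544),
  Rx.mk (nat_lit 146) (nat_lit 2) (nat_lit 2) (nat_lit 2) (nat_lit 7) (nat_lit 363) (nat_lit 182) r6_363 r8_182 (nat_lit 0) (nat_lit 0) (nat_lit 0) (nat_lit 0x7de5019202) (nat_lit 1033464744),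
  Rx.mk (nat_lit 219) (nat_lit 3) (nat_lit 3) (nat_lit 3) (nat_lit 7) (nat_lit 365) (nat_lit 179) r6_365 r8_179 (nat_lit 0) (nat_lit 0) (nat_lit 0) (nat_lit 0x7de59728a8) (nat_lit 1032344352)]
noncomputable def e23_45 : List Rx := [
  Rx.mk (nat_lit 0) (nat_lit 0) (nat_lit 0) (nat_lit 0) (nat_lit 0) (nat_lit 366) (nat_lit 68) r6_366 r8_68 (nat_lit 0) (nat_lit 0) (nat_lit 0) (nat_lit 0x1096296cda) (nat_lit 54687661704),
  Rx.mk (nat_lit 3) (nat_lit 3) (nat_lit 0) (nat_lit 0) (nat_lit 1) (nat_lit 369) (nat_lit 70) r6_369 r8_70 (nat_lit 0) (nat_lit 0) (nat_lit 0) (nat_lit 0x6a853e8194) (nat_lit 10543293072),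
  Rx.mk (nat_lit 8) (nat_lit 0) (nat_lit 1) (nat_lit 0) (nat_lit 2) (nat_lit 371) (nat_lit 69) r6_371 r8_69 (nat_lit 0) (nat_lit 0) (nat_lit 0) (nat_lit 0x71f61f2c18) (nat_lit 6890888160),
  Rx.mk (nat_lit 11) (nat_lit 3) (nat_lit 1) (nat_lit 0) (nat_lit 3) (nat_lit 374) (nat_lit 71) r6_374 r8_71 (nat_lit 0) (nat_lit 0) (nat_lit 0) (nat_lit 0x7dc10491f6) (nat_lit 1102468536),
  Rx.mk (nat_lit 27) (nat_lit 3) (nat_lit 3) (nat_lit 0) (nat_lit 3) (nat_lit 378) (nat_lit 72) r6_378 r8_72 (nat_lit 0) (nat_lit 0) (nat_lit 0) (nat_lit 0x7c9b768bfc) (nat_lit 1665329328),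
  Rx.mk (nat_lit 128) (nat_lit 0) (nat_lit 0) (nat_lit 2) (nat_lit 4) (nat_lit 367) (nat_lit 74) r6_367 r8_74 (nat_lit 0) (nat_lit 0) (nat_lit 0) (nat_lit 0x5019957692) (nat_lit 23511909096),
  Rx.mk (nat_lit 130) (nat_lit 2) (nat_lit 0) (nat_lit 2) (nat_lit 5) (nat_lit 368) (nat_lit 79) r6_368 r8_79 (nat_lit 0) (nat_lit 0) (nat_lit 0) (nat_lit 0x7d16a3b8ae) (nat_lit 1429151256),
  Rx.mk (nat_lit 131) (nat_lit 3) (nat_lit 0) (nat_lit 2) (nat_lit 5) (nat_lit 370) (nat_lit 76) r6_370 r8_76 (nat_lit 0) (nat_lit 0) (nat_lit 0) (nat_lit 0x7d87fec28c) (nat_lit 1211803632),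
  Rx.mk (nat_lit 136) (nat_lit 0) (nat_lit 1) (nat_lit 2) (nat_lit 6) (nat_lit 372) (nat_lit 75) r6_372 r8_75 (nat_lit 0) (nat_lit 0) (nat_lit 0) (nat_lit 0x7dd000422c) (nat_lit 1073739888),
  Rx.mk (nat_lit 138) (nat_lit 2) (nat_lit 1) (nat_lit 2) (nat_lit 7) (nat_lit 373) (nat_lit 80) r6_373 r8_80 (nat_lit 0) (nat_lit 0) (nat_lit 0) (nat_lit 0x7de0fcd252) (nat_lit 1041169896),
  Rx.mk (nat_lit 139) (nat_lit 3) (nat_lit 1) (nat_lit 2) (nat_lit 7) (nat_lit 375) (nat_lit 77) r6_375 r8_77 (nat_lit 0) (nat_lit 0) (nat_lit 0) (nat_lit 0x7deecab566) (nat_lit 1014701688),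
  Rx.mk (nat_lit 146) (nat_lit 2) (nat_lit 2) (nat_lit 2) (nat_lit 7) (nat_lit 376) (nat_lit 81) r6_376 r8_81 (nat_lit 0) (nat_lit 0) (nat_lit 0) (nat_lit 0x7dc460fc2c) (nat_lit 1096024176),
  Rx.mk (nat_lit 155) (nat_lit 3) (nat_lit 3) (nat_lit 2) (nat_lit 7) (nat_lit 379) (nat_lit 78) r6_379 r8_78 (nat_lit 0) (nat_lit 0) (nat_lit 0) (nat_lit 0x7de3b0e70e) (nat_lit 1035986328),
  Rx.mk (nat_lit 219) (nat_lit 3) (nat_lit 3) (nat_lit 3) (nat_lit 7) (nat_lit 380) (nat_lit 73) r6_380 r8_73 (nat_lit 0) (nat_lit 0) (nat_lit 0) (nat_lit 0x7de7e5a3be) (nat_lit 1027921752),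
  Rx.mk (nat_lit 402) (nat_lit 2) (nat_lit 2) (nat_lit 6) (nat_lit 7) (nat_lit 377) (nat_lit 82) r6_377 r8_82 (nat_lit 0) (nat_lit 0) (nat_lit 0) (nat_lit 0x7ddda00822) (nat_lit 1047617064)]
noncomputable def e23_46 : List Rx := [
  Rx.mk (nat_lit 11) (nat_lit 3) (nat_lit 1) (nat_lit 0) (nat_lit 3) (nat_lit 424) (nat_lit 170) r6_424 r4_170 (nat_lit 0) (nat_lit 0) (nat_lit 0) (nat_lit 0x7e444b5d06) (nat_lit 850759416),
  Rx.mk (nat_lit 40) (nat_lit 0) (nat_lit 5) (nat_lit 0) (nat_lit 2) (nat_lit 427) (nat_lit 167) r6_427 r4_167 (nat_lit 0) (nat_lit 0) (nat_lit 0) (nat_lit 0x6ce30222fc) (nat_lit 9381803184),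
  Rx.mk (nat_lit 43) (nat_lit 3) (nat_lit 5) (nat_lit 0) (nat_lit 3) (nat_lit 429) (nat_lit 169) r6_429 r4_169 (nat_lit 0) (nat_lit 0) (nat_lit 0) (nat_lit 0x7e5529ef0c) (nat_lit 818414064),
  Rx.mk (nat_lit 75) (nat_lit 3) (nat_lit 1) (nat_lit 1) (nat_lit 7) (nat_lit 425) (nat_lit 172) r6_425 r4_172 (nat_lit 0) (nat_lit 0) (nat_lit 0) (nat_lit 0x7df13cce42) (nat_lit 1010012328),
  Rx.mk (nat_lit 104) (nat_lit 0) (nat_lit 5) (nat_lit 1) (nat_lit 6) (nat_lit 428) (nat_lit 168) r6_428 r4_168 (nat_lit 0) (nat_lit 0) (nat_lit 0) (nat_lit 0x7cb6e0d53c) (nat_lit 1612763568),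
  Rx.mk (nat_lit 107) (nat_lit 3) (nat_lit 5) (nat_lit 1) (nat_lit 7) (nat_lit 430) (nat_lit 171) r6_430 r4_171 (nat_lit 0) (nat_lit 0) (nat_lit 0) (nat_lit 0x7e5e361e40) (nat_lit 801066240),
  Rx.mk (nat_lit 139) (nat_lit 3) (nat_lit 1) (nat_lit 2) (nat_lit 7) (nat_lit 426) (nat_lit 173) r6_426 r4_173 (nat_lit 0) (nat_lit 0) (nat_lit 0) (nat_lit 0x7dcf6e0b50) (nat_lit 1074835008)]
noncomputable def e23_47 : List Rx := [
  Rx.mk (nat_lit 40) (nat_lit 0) (nat_lit 5) (nat_lit 0) (nat_lit 2) (nat_lit 416) (nat_lit 265) r6_416 r4_265 (nat_lit 0) (nat_lit 0) (nat_lit 0) (nat_lit 0x735924da5a) (nat_lit 6210169992),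
  Rx.mk (nat_lit 41) (nat_lit 1) (nat_lit 5) (nat_lit 0) (nat_lit 3) (nat_lit 418) (nat_lit 266) r6_418 r4_266 (nat_lit 0) (nat_lit 0) (nat_lit 0) (nat_lit 0x7db466bbe0) (nat_lit 1126659456),
  Rx.mk (nat_lit 43) (nat_lit 3) (nat_lit 5) (nat_lit 0) (nat_lit 3) (nat_lit 420) (nat_lit 267) r6_420 r4_267 (nat_lit 0) (nat_lit 0) (nat_lit 0) (nat_lit 0x7d7cbb56ce) (nat_lit 1233399960),
  Rx.mk (nat_lit 104) (nat_lit 0) (nat_lit 5) (nat_lit 1) (nat_lit 6) (nat_lit 417) (nat_lit 268) r6_417 r4_268 (nat_lit 0) (nat_lit 0) (nat_lit 0) (nat_lit 0x7db5f0c33e) (nat_lit 1123708248),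
  Rx.mk (nat_lit 105) (nat_lit 1) (nat_lit 5) (nat_lit 1) (nat_lit 7) (nat_lit 419) (nat_lit 269) r6_419 r4_269 (nat_lit 0) (nat_lit 0) (nat_lit 0) (nat_lit 0x7dde701b20) (nat_lit 1046058624),
  Rx.mk (nat_lit 107) (nat_lit 3) (nat_lit 5) (nat_lit 1) (nat_lit 7) (nat_lit 421) (nat_lit 270) r6_421 r4_270 (nat_lit 0) (nat_lit 0) (nat_lit 0) (nat_lit 0x7deda7c796) (nat_lit 1016880696)]
noncomputable def e23_48 : List Rx := [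
  Rx.mk (nat_lit 11) (nat_lit 3) (nat_lit 1) (nat_lit 0) (nat_lit 3) (nat_lit 431) (nat_lit 188) r6_431 r9_188 (nat_lit 0) (nat_lit 0) (nat_lit 0) (nat_lit 0x7dbd4fad48) (nat_lit 1109575584),
  Rx.mk (nat_lit 40) (nat_lit 0) (nat_lit 5) (nat_lit 0) (nat_lit 2) (nat_lit 433) (nat_lit 183) r6_433 r9_183 (nat_lit 0) (nat_lit 0) (nat_lit 0) (nat_lit 0x753a13a98c) (nat_lit 5288031216),
  Rx.mk (nat_lit 41) (nat_lit 1) (nat_lit 5) (nat_lit 0) (nat_lit 3) (nat_lit 435) (nat_lit 185) r6_435 r9_185 (nat_lit 0) (nat_lit 0) (nat_lit 0) (nat_lit 0x7dc0263fdc) (nat_lit 1104133680),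
  Rx.mk (nat_lit 43) (nat_lit 3) (nat_lit 5) (nat_lit 0) (nat_lit 3) (nat_lit 437) (nat_lit 187) r6_437 r9_187 (nat_lit 0) (nat_lit 0) (nat_lit 0) (nat_lit 0x7de3610c0c) (nat_lit 1036584432),
  Rx.mk (nat_lit 75) (nat_lit 3) (nat_lit 1) (nat_lit 1) (nat_lit 7) (nat_lit 432) (nat_lit 190) r6_432 r9_190 (nat_lit 0) (nat_lit 0) (nat_lit 0) (nat_lit 0x7deb762ab2) (nat_lit 1021087080),
  Rx.mk (nat_lit 104) (nat_lit 0) (nat_lit 5) (nat_lit 1) (nat_lit 6) (nat_lit 434) (nat_lit 184) r6_434 r9_184 (nat_lit 0) (nat_lit 0) (nat_lit 0) (nat_lit 0x7d8cac97aa) (nat_lit 1202832072),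
  Rx.mk (nat_lit 105) (nat_lit 1) (nat_lit 5) (nat_lit 1) (nat_lit 7) (nat_lit 436) (nat_lit 186) r6_436 r9_186 (nat_lit 0) (nat_lit 0) (nat_lit 0) (nat_lit 0x7deed8348e) (nat_lit 1014600600),
  Rx.mk (nat_lit 107) (nat_lit 3) (nat_lit 5) (nat_lit 1) (nat_lit 7) (nat_lit 438) (nat_lit 189) r6_438 r9_189 (nat_lit 0) (nat_lit 0) (nat_lit 0) (nat_lit 0x7df11510be) (nat_lit 1010309976)]
noncomputable def e23_49 : List Rx := [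
  Rx.mk (nat_lit 40) (nat_lit 0) (nat_lit 5) (nat_lit 0) (nat_lit 2) (nat_lit 449) (nat_lit 212) r6_449 r10_212 (nat_lit 0) (nat_lit 0) (nat_lit 0) (nat_lit 0x776214075e) (nat_lit 4229625816),
  Rx.mk (nat_lit 41) (nat_lit 1) (nat_lit 5) (nat_lit 0) (nat_lit 3) (nat_lit 451) (nat_lit 214) r6_451 r10_214 (nat_lit 0) (nat_lit 0) (nat_lit 0) (nat_lit 0x7df79428c6) (nat_lit 997853688),
  Rx.mk (nat_lit 43) (nat_lit 3) (nat_lit 5) (nat_lit 0) (nat_lit 3) (nat_lit 453) (nat_lit 216) r6_453 r10_216 (nat_lit 0) (nat_lit 0) (nat_lit 0) (nat_lit 0x7dc96b0b86) (nat_lit 1086361848),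
  Rx.mk (nat_lit 104) (nat_lit 0) (nat_lit 5) (nat_lit 1) (nat_lit 6) (nat_lit 450) (nat_lit 213) r6_450 r10_213 (nat_lit 0) (nat_lit 0) (nat_lit 0) (nat_lit 0x7dbb30cf38) (nat_lit 1113641568),
  Rx.mk (nat_lit 105) (nat_lit 1) (nat_lit 5) (nat_lit 1) (nat_lit 7) (nat_lit 452) (nat_lit 215) r6_452 r10_215 (nat_lit 0) (nat_lit 0) (nat_lit 0) (nat_lit 0x7de4fa127a) (nat_lit 1033520904),
  Rx.mk (nat_lit 107) (nat_lit 3) (nat_lit 5) (nat_lit 1) (nat_lit 7) (nat_lit 454) (nat_lit 217) r6_454 r10_217 (nat_lit 0) (nat_lit 0) (nat_lit 0) (nat_lit 0x7dc83d9e5e) (nat_lit 1088619480),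
  Rx.mk (nat_lit 235) (nat_lit 3) (nat_lit 5) (nat_lit 3) (nat_lit 7) (nat_lit 455) (nat_lit 218) r6_455 r10_218 (nat_lit 0) (nat_lit 0) (nat_lit 0) (nat_lit 0x7def592c7e) (nat_lit 1013634648)]
noncomputable def e23_50 : List Rx := [
  Rx.mk (nat_lit 11) (nat_lit 3) (nat_lit 1) (nat_lit 0) (nat_lit 3) (nat_lit 439) (nat_lit 303) r6_439 r10_303 (nat_lit 0) (nat_lit 0) (nat_lit 0) (nat_lit 0x7de1356ec8) (nat_lit 1040745888),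
  Rx.mk (nat_lit 43) (nat_lit 3) (nat_lit 5) (nat_lit 0) (nat_lit 3) (nat_lit 442) (nat_lit 306) r6_442 r10_306 (nat_lit 0) (nat_lit 0) (nat_lit 0) (nat_lit 0x7de08359ea) (nat_lit 1042079688),
  Rx.mk (nat_lit 75) (nat_lit 3) (nat_lit 1) (nat_lit 1) (nat_lit 7) (nat_lit 440) (nat_lit 304) r6_440 r10_304 (nat_lit 0) (nat_lit 0) (nat_lit 0) (nat_lit 0x7df52a4f66) (nat_lit 1002481272),
  Rx.mk (nat_lit 107) (nat_lit 3) (nat_lit 5) (nat_lit 1) (nat_lit 7) (nat_lit 443) (nat_lit 307) r6_443 r10_307 (nat_lit 0) (nat_lit 0) (nat_lit 0) (nat_lit 0x7de6505d14) (nat_lit 1030957200),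
  Rx.mk (nat_lit 139) (nat_lit 3) (nat_lit 1) (nat_lit 2) (nat_lit 7) (nat_lit 441) (nat_lit 305) r6_441 r10_305 (nat_lit 0) (nat_lit 0) (nat_lit 0) (nat_lit 0x7dcf9d485c) (nat_lit 1074481200)]
noncomputable def e23_51 : List Rx := [
  Rx.mk (nat_lit 100) (nat_lit 4) (nat_lit 4) (nat_lit 1) (nat_lit 4) (nat_lit 88) (nat_lit 184) r6_88 r12_184 (nat_lit 0) (nat_lit 0) (nat_lit 0) (nat_lit 0x6f2aece208) (nat_lit 8262203040),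
  Rx.mk (nat_lit 103) (nat_lit 7) (nat_lit 4) (nat_lit 1) (nat_lit 5) (nat_lit 89) (nat_lit 186) r6_89 r12_186 (nat_lit 0) (nat_lit 0) (nat_lit 0) (nat_lit 0x7e3ff4227e) (nat_lit 859082328),
  Rx.mk (nat_lit 108) (nat_lit 4) (nat_lit 5) (nat_lit 1) (nat_lit 6) (nat_lit 90) (nat_lit 185) r6_90 r12_185 (nat_lit 0) (nat_lit 0) (nat_lit 0) (nat_lit 0x7dece293ea) (nat_lit 1018357704),
  Rx.mk (nat_lit 111) (nat_lit 7) (nat_lit 5) (nat_lit 1) (nat_lit 7) (nat_lit 91) (nat_lit 187) r6_91 r12_187 (nat_lit 0) (nat_lit 0) (nat_lit 0) (nat_lit 0x7e49bf85be) (nat_lit 840302424),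
  Rx.mk (nat_lit 127) (nat_lit 7) (nat_lit 7) (nat_lit 1) (nat_lit 7) (nat_lit 92) (nat_lit 188) r6_92 r12_188 (nat_lit 0) (nat_lit 0) (nat_lit 0) (nat_lit 0x7dfaf092fc) (nat_lit 991409328)]
noncomputable def e23_52 : List Rx := [
  Rx.mk (nat_lit 59) (nat_lit 3) (nat_lit 7) (nat_lit 0) (nat_lit 3) (nat_lit 49) (nat_lit 105) r6_49 r12_105 (nat_lit 0) (nat_lit 0) (nat_lit 0) (nat_lit 0x7cd666bcbe) (nat_lit 1552321368),
  Rx.mk (nat_lit 63) (nat_lit 7) (nat_lit 7) (nat_lit 0) (nat_lit 3) (nat_lit 50) (nat_lit 103) r6_50 r12_103 (nat_lit 0) (nat_lit 0) (nat_lit 0) (nat_lit 0x7d8621e05c) (nat_lit 1215375408),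
  Rx.mk (nat_lit 231) (nat_lit 7) (nat_lit 4) (nat_lit 3) (nat_lit 5) (nat_lit 48) (nat_lit 102) r6_48 r12_102 (nat_lit 0) (nat_lit 0) (nat_lit 0) (nat_lit 0x7ecbf921a2) (nat_lit 590609448),
  Rx.mk (nat_lit 255) (nat_lit 7) (nat_lit 7) (nat_lit 3) (nat_lit 7) (nat_lit 51) (nat_lit 104) r6_51 r12_104 (nat_lit 0) (nat_lit 0) (nat_lit 0) (nat_lit 0x7dbc727b1c) (nat_lit 1111232304)]
noncomputable def e23_53 : List Rx := [
  Rx.mk (nat_lit 103) (nat_lit 7) (nat_lit 4) (nat_lit 1) (nat_lit 5) (nat_lit 286) (nat_lit 256) r6_286 r12_256 (nat_lit 0) (nat_lit 0) (nat_lit 0) (nat_lit 0x7e13f5229a) (nat_lit 943440264),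
  Rx.mk (nat_lit 111) (nat_lit 7) (nat_lit 5) (nat_lit 1) (nat_lit 7) (nat_lit 287) (nat_lit 257) r6_287 r12_257 (nat_lit 0) (nat_lit 0) (nat_lit 0) (nat_lit 0x7e7b9907f4) (nat_lit 744720912)]
noncomputable def e23_54 : List Rx := [
  Rx.mk (nat_lit 59) (nat_lit 3) (nat_lit 7) (nat_lit 0) (nat_lit 3) (nat_lit 272) (nat_lit 102) r6_272 r12_102 (nat_lit 0) (nat_lit 0) (nat_lit 0) (nat_lit 0x7ecbf921a2) (nat_lit 590609448),
  Rx.mk (nat_lit 227) (nat_lit 3) (nat_lit 4) (nat_lit 3) (nat_lit 5) (nat_lit 270) (nat_lit 103) r6_270 r12_103 (nat_lit 0) (nat_lit 0) (nat_lit 0) (nat_lit 0x7d8621e05c) (nat_lit 1215375408),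
  Rx.mk (nat_lit 231) (nat_lit 7) (nat_lit 4) (nat_lit 3) (nat_lit 5) (nat_lit 271) (nat_lit 105) r6_271 r12_105 (nat_lit 0) (nat_lit 0) (nat_lit 0) (nat_lit 0x7cd666bcbe) (nat_lit 1552321368),
  Rx.mk (nat_lit 251) (nat_lit 3) (nat_lit 7) (nat_lit 3) (nat_lit 7) (nat_lit 273) (nat_lit 104) r6_273 r12_104 (nat_lit 0) (nat_lit 0) (nat_lit 0) (nat_lit 0x7dbc727b1c) (nat_lit 1111232304)]
noncomputable def e23_55 : List Rx := [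
  Rx.mk (nat_lit 40) (nat_lit 0) (nat_lit 5) (nat_lit 0) (nat_lit 2) (nat_lit 412) (nat_lit 164) r6_412 r3_164 (nat_lit 0) (nat_lit 0) (nat_lit 0) (nat_lit 0x70137118dc) (nat_lit 7816376880),
  Rx.mk (nat_lit 43) (nat_lit 3) (nat_lit 5) (nat_lit 0) (nat_lit 3) (nat_lit 414) (nat_lit 166) r6_414 r3_166 (nat_lit 0) (nat_lit 0) (nat_lit 0) (nat_lit 0x7ed67c9960) (nat_lit 570450816),
  Rx.mk (nat_lit 104) (nat_lit 0) (nat_lit 5) (nat_lit 1) (nat_lit 6) (nat_lit 413) (nat_lit 165) r6_413 r3_165 (nat_lit 0) (nat_lit 0) (nat_lit 0) (nat_lit 0x721a4209c6) (nat_lit 6821600760),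
  Rx.mk (nat_lit 107) (nat_lit 3) (nat_lit 5) (nat_lit 1) (nat_lit 7) (nat_lit 415) (nat_lit 167) r6_415 r3_167 (nat_lit 0) (nat_lit 0) (nat_lit 0) (nat_lit 0x7eecb9f574) (nat_lit 527808528)]
noncomputable def e23_56 : List Rx := [
  Rx.mk (nat_lit 40) (nat_lit 0) (nat_lit 5) (nat_lit 0) (nat_lit 2) (nat_lit 444) (nat_lit 184) r6_444 r12_184 (nat_lit 0) (nat_lit 0) (nat_lit 0) (nat_lit 0x6f2aece208) (nat_lit 8262203040),
  Rx.mk (nat_lit 43) (nat_lit 3) (nat_lit 5) (nat_lit 0) (nat_lit 3) (nat_lit 446) (nat_lit 186) r6_446 r12_186 (nat_lit 0) (nat_lit 0) (nat_lit 0) (nat_lit 0x7e3ff4227e) (nat_lit 859082328),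
  Rx.mk (nat_lit 104) (nat_lit 0) (nat_lit 5) (nat_lit 1) (nat_lit 6) (nat_lit 445) (nat_lit 185) r6_445 r12_185 (nat_lit 0) (nat_lit 0) (nat_lit 0) (nat_lit 0x7dece293ea) (nat_lit 1018357704),
  Rx.mk (nat_lit 107) (nat_lit 3) (nat_lit 5) (nat_lit 1) (nat_lit 7) (nat_lit 447) (nat_lit 187) r6_447 r12_187 (nat_lit 0) (nat_lit 0) (nat_lit 0) (nat_lit 0x7e49bf85be) (nat_lit 840302424),
  Rx.mk (nat_lit 235) (nat_lit 3) (nat_lit 5) (nat_lit 3) (nat_lit 7) (nat_lit 448) (nat_lit 188) r6_448 r12_188 (nat_lit 0) (nat_lit 0) (nat_lit 0) (nat_lit 0x7dfaf092fc) (nat_lit 991409328)]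
noncomputable def e23_57 : List Rx := [
  Rx.mk (nat_lit 43) (nat_lit 3) (nat_lit 5) (nat_lit 0) (nat_lit 3) (nat_lit 422) (nat_lit 256) r6_422 r12_256 (nat_lit 0) (nat_lit 0) (nat_lit 0) (nat_lit 0x7e13f5229a) (nat_lit 943440264),
  Rx.mk (nat_lit 107) (nat_lit 3) (nat_lit 5) (nat_lit 1) (nat_lit 7) (nat_lit 423) (nat_lit 257) r6_423 r12_257 (nat_lit 0) (nat_lit 0) (nat_lit 0) (nat_lit 0x7e7b9907f4) (nat_lit 744720912)]
noncomputable def e23 : List (List Rx) := [e23_0, e23_1, e23_2, e23_3, e23_4, e23_5, e23_6, e23_7, e23_8, e23_9, e23_10, e23_11, e23_12, e23_13, e23_14, e23_15, e23_16, e23_17, e23_18, e23_19, e23_20, e23_21, e23_22, e23_23, e23_24, e23_25, e23_26, e23_27, e23_28, e23_29, e23_30, e23_31, e23_32, e23_33, e23_34, e23_35, e23_36, e23_37, e23_38, e23_39, e23_40, e23_41, e23_42, e23_43, e23_44, e23_45, e23_46, e23_47, e23_48, e23_49,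 e23_50, e23_51, e23_52, e23_53, e23_54, e23_55, e23_56, e23_57]

end Pool.Agent.AKXS_0_25_WE
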