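import Pool.Agent.AKXS_0_25_WE.R0
import Pool.Agent.AKXS_0_25_WE.R1
import Pool.Agent.AKXS_0_25_WE.R2
import Pool.Agent.AKXS_0_25_WE.R3
import Pool.Agent.AKXS_0_25_WE.R4
import Pool.Agent.AKXS_0_25_WE.R5
import Pool.Agent.AKXS_0_25_WE.R6
import Pool.Agent.AKXS_0_25_WE.R7
import Pool.Agent.AKXS_0_25_WE.R8
import Pool.Agent.AKXS_0_25_WE.R9
import Pool.Agent.AKXS_0_25_WE.R10
import Pool.Agent.AKXS_0_25_WE.R11
import Pool.Agent.AKXS_0_25_WE.R12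

set_option autoImplicit false

namespace Pool.Agent.AKXS_0_25_WE

open Pool.Agent.AKX Pool.Agent.AKU

noncomputable def e24_0 : List Rx := [
  Rx.mk (nat_lit 108) (nat_lit 4) (nat_lit 5) (nat_lit 1) (nat_lit 6) (nat_lit 63) (nat_lit 185) r7_63 r0_185 (nat_lit 0) (nat_lit 0) (nat_lit 0) (nat_lit 0x7e2fea232e) (nat_lit 889835544),
  Rx.mk (nat_lit 364) (nat_lit 4) (nat_lit 5) (nat_lit 5) (nat_lit 6) (nat_lit 64) (nat_lit 186) r7_64 r0_186 (nat_lit 0) (nat_lit 0) (nat_lit 0) (nat_lit 0x7db1ff225c) (nat_lit 1131270192),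
  Rx.mk (nat_lit 367) (nat_lit 7) (nat_lit 5) (nat_lit 5) (nat_lit 7) (nat_lit 65) (nat_lit 187) r7_65 r0_187 (nat_lit 0) (nat_lit 0) (nat_lit 0) (nat_lit 0x7dec1700a4) (nat_lit 1019882448)]
noncomputable def e24_1 : List Rx := [
  Rx.mk (nat_lit 364) (nat_lit 4) (nat_lit 5) (nat_lit 5) (nat_lit 6) (nat_lit 66) (nat_lit 199) r7_66 r1_199 (nat_lit 0) (nat_lit 0) (nat_lit 0) (nat_lit 0x7d80f19366) (nat_lit 1225324152),
  Rx.mk (nat_lit 367) (nat_lit 7) (nat_lit 5) (nat_lit 5) (nat_lit 7) (nat_lit 67) (nat_lit 200) r7_67 r1_200 (nat_lit 0) (nat_lit 0) (nat_lit 0) (nat_lit 0x7df471daee) (nat_lit 1003862808)]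
noncomputable def e24_2 : List Rx := [
  Rx.mk (nat_lit 292) (nat_lit 4) (nat_lit 4) (nat_lit 4) (nat_lit 0) (nat_lit 25) (nat_lit 203) r7_25 r2_203 (nat_lit 0) (nat_lit 0) (nat_lit 0) (nat_lit 0x29642f73aa) (nat_lit 42512151240),
  Rx.mk (nat_lit 295) (nat_lit 7) (nat_lit 4) (nat_lit 4) (nat_lit 1) (nat_lit 27) (nat_lit 209) r7_27 r2_209 (nat_lit 0) (nat_lit 0) (nat_lit 0) (nat_lit 0x7ba3736d26) (nat_lit 2140866936),
  Rx.mk (nat_lit 300) (nat_lit 4) (nat_lit 5) (nat_lit 4) (nat_lit 2) (nat_lit 30) (nat_lit 205) r7_30 r2_205 (nat_lit 0) (nat_lit 0) (nat_lit 0) (nat_lit 0x7afaf2d5d8) (nat_lit 2463952608),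
  Rx.mk (nat_lit 303) (nat_lit 7) (nat_lit 5) (nat_lit 4) (nat_lit 3) (nat_lit 32) (nat_lit 212) r7_32 r2_212 (nat_lit 0) (nat_lit 0) (nat_lit 0) (nat_lit 0x7de3209014) (nat_lit 1037067408),
  Rx.mk (nat_lit 308) (nat_lit 4) (nat_lit 6) (nat_lit 4) (nat_lit 2) (nat_lit 35) (nat_lit 207) r7_35 r2_207 (nat_lit 0) (nat_lit 0) (nat_lit 0) (nat_lit 0x7a45758e62) (nat_lit 2811939624),
  Rx.mk (nat_lit 310) (nat_lit 6) (nat_lit 6) (nat_lit 4) (nat_lit 3) (nat_lit 37) (nat_lit 218) r7_37 r2_218 (nat_lit 0) (nat_lit 0) (nat_lit 0) (nat_lit 0x7ddea617c0) (nat_lit 1045654272),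
  Rx.mk (nat_lit 311) (nat_lit 7) (nat_lit 6) (nat_lit 4) (nat_lit 3) (nat_lit 40) (nat_lit 216) r7_40 r2_216 (nat_lit 0) (nat_lit 0) (nat_lit 0) (nat_lit 0x7d9f1fb066) (nat_lit 1167456888),
  Rx.mk (nat_lit 356) (nat_lit 4) (nat_lit 4) (nat_lit 5) (nat_lit 4) (nat_lit 26) (nat_lit 204) r7_26 r2_204 (nat_lit 0) (nat_lit 0) (nat_lit 0) (nat_lit 0x7204dfa002) (nat_lit 6862603176),
  Rx.mk (nat_lit 359) (nat_lit 7) (nat_lit 4) (nat_lit 5) (nat_lit 5) (nat_lit 28) (nat_lit 210) r7_28 r2_210 (nat_lit 0) (nat_lit 0) (nat_lit 0) (nat_lit 0x7dded494d8) (nat_lit 1045306080),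
  Rx.mk (nat_lit 364) (nat_lit 4) (nat_lit 5) (nat_lit 5) (nat_lit 6) (nat_lit 31) (nat_lit 206) r7_31 r2_206 (nat_lit 0) (nat_lit 0) (nat_lit 0) (nat_lit 0x7d1ecd760a) (nat_lit 1413499464),
  Rx.mk (nat_lit 367) (nat_lit 7) (nat_lit 5) (nat_lit 5) (nat_lit 7) (nat_lit 33) (nat_lit 213) r7_33 r2_213 (nat_lit 0) (nat_lit 0) (nat_lit 0) (nat_lit 0x7df944cdba) (nat_lit 994613256),
  Rx.mk (nat_lit 372) (nat_lit 4) (nat_lit 6) (nat_lit 5) (nat_lit 6) (nat_lit 36) (nat_lit 208) r7_36 r2_208 (nat_lit 0) (nat_lit 0) (nat_lit 0) (nat_lit 0x7dd31cf05e) (nat_lit 1067772888),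
  Rx.mk (nat_lit 374) (nat_lit 6) (nat_lit 6) (nat_lit 5) (nat_lit 7) (nat_lit 38) (nat_lit 219) r7_38 r2_219 (nat_lit 0) (nat_lit 0) (nat_lit 0) (nat_lit 0x7de929ef78) (nat_lit 1025492832),
  Rx.mk (nat_lit 375) (nat_lit 7) (nat_lit 6) (nat_lit 5) (nat_lit 7) (nat_lit 41) (nat_lit 217) r7_41 r2_217 (nat_lit 0) (nat_lit 0) (nat_lit 0) (nat_lit 0x7dcf8c696a) (nat_lit 1074607560),
  Rx.mk (nat_lit 438) (nat_lit 6) (nat_lit 6) (nat_lit 6) (nat_lit 7) (nat_lit 39) (nat_lit 220) r7_39 r2_220 (nat_lit 0) (nat_lit 0) (nat_lit 0) (nat_lit 0x7de105d1c2) (nat_lit 1041102504),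
  Rx.mk (nat_lit 487) (nat_lit 7) (nat_lit 4) (nat_lit 7) (nat_lit 5) (nat_lit 29) (nat_lit 211) r7_29 r2_211 (nat_lit 0) (nat_lit 0) (nat_lit 0) (nat_lit 0x7dacbf765c) (nat_lit 1141334064),
  Rx.mk (nat_lit 495) (nat_lit 7) (nat_lit 5) (nat_lit 7) (nat_lit 7) (nat_lit 34) (nat_lit 214) r7_34 r2_214 (nat_lit 0) (nat_lit 0) (nat_lit 0) (nat_lit 0x7dd548ed9c) (nat_lit 1063608624),
  Rx.mk (nat_lit 511) (nat_lit 7) (nat_lit 7) (nat_lit 7) (nat_lit 7) (nat_lit 42) (nat_lit 215) r7_42 r2_215 (nat_lit 0) (nat_lit 0) (nat_lit 0) (nat_lit 0x7dd1b1471a) (nat_lit 1070496648)]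
noncomputable def e24_3 : List Rx := [
  Rx.mk (nat_lit 108) (nat_lit 4) (nat_lit 5) (nat_lit 1) (nat_lit 6) (nat_lit 61) (nat_lit 168) r7_61 r3_168 (nat_lit 0) (nat_lit 0) (nat_lit 0) (nat_lit 0x75b85a24a6) (nat_lit 5045911416),
  Rx.mk (nat_lit 111) (nat_lit 7) (nat_lit 5) (nat_lit 1) (nat_lit 7) (nat_lit 62) (nat_lit 169) r7_62 r3_169 (nat_lit 0) (nat_lit 0) (nat_lit 0) (nat_lit 0x7f3a485c40) (nat_lit 379102464)]
noncomputable def e24_4 : List Rx := [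
  Rx.mk (nat_lit 108) (nat_lit 4) (nat_lit 5) (nat_lit 1) (nat_lit 6) (nat_lit 68) (nat_lit 174) r7_68 r4_174 (nat_lit 0) (nat_lit 0) (nat_lit 0) (nat_lit 0x7d8ece758a) (nat_lit 1198743624),
  Rx.mk (nat_lit 111) (nat_lit 7) (nat_lit 5) (nat_lit 1) (nat_lit 7) (nat_lit 69) (nat_lit 175) r7_69 r4_175 (nat_lit 0) (nat_lit 0) (nat_lit 0) (nat_lit 0x7e35a76754) (nat_lit 878830992),
  Rx.mk (nat_lit 367) (nat_lit 7) (nat_lit 5) (nat_lit 5) (nat_lit 7) (nat_lit 70) (nat_lit 176) r7_70 r4_176 (nat_lit 0) (nat_lit 0) (nat_lit 0) (nat_lit 0x7ddc8799aa) (nat_lit 1049717448)]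
noncomputable def e24_5 : List Rx := [
  Rx.mk (nat_lit 231) (nat_lit 7) (nat_lit 4) (nat_lit 3) (nat_lit 5) (nat_lit 43) (nat_lit 112) r7_43 r3_112 (nat_lit 0) (nat_lit 0) (nat_lit 0) (nat_lit 0x78cfd7a9b6) (nat_lit 3528310968),
  Rx.mk (nat_lit 239) (nat_lit 7) (nat_lit 5) (nat_lit 3) (nat_lit 7) (nat_lit 44) (nat_lit 113) r7_44 r3_113 (nat_lit 0) (nat_lit 0) (nat_lit 0) (nat_lit 0x7ed1aa068e) (nat_lit 579697560),
  Rx.mk (nat_lit 251) (nat_lit 3) (nat_lit 7) (nat_lit 3) (nat_lit 7) (nat_lit 45) (nat_lit 115) r7_45 r3_115 (nat_lit 0) (nat_lit 0) (nat_lit 0) (nat_lit 0x7c4848df2a) (nat_lit 1824815304),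
  Rx.mk (nat_lit 255) (nat_lit 7) (nat_lit 7) (nat_lit 3) (nat_lit 7) (nat_lit 46) (nat_lit 114) r7_46 r3_114 (nat_lit 0) (nat_lit 0) (nat_lit 0) (nat_lit 0x7c243dfffc) (nat_lit 1893922992)]
noncomputable def e24_6 : List Rx := [
  Rx.mk (nat_lit 251) (nat_lit 3) (nat_lit 7) (nat_lit 3) (nat_lit 7) (nat_lit 12) (nat_lit 132) r7_12 r0_132 (nat_lit 0) (nat_lit 0) (nat_lit 0) (nat_lit 0x7df4ed3338) (nat_lit 1002938976),
  Rx.mk (nat_lit 255) (nat_lit 7) (nat_lit 7) (nat_lit 3) (nat_lit 7) (nat_lit 13) (nat_lit 131) r7_13 r0_131 (nat_lit 0) (nat_lit 0) (nat_lit 0) (nat_lit 0x7dcfeb437c) (nat_lit 1073897136),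
  Rx.mk (nat_lit 292) (nat_lit 4) (nat_lit 4) (nat_lit 4) (nat_lit 0) (nat_lit 0) (nat_lit 124) r7_0 r0_124 (nat_lit 0) (nat_lit 0) (nat_lit 0) (nat_lit 0x26656fa2a6) (nat_lit 43982313336),
  Rx.mk (nat_lit 300) (nat_lit 4) (nat_lit 5) (nat_lit 4) (nat_lit 2) (nat_lit 3) (nat_lit 127) r7_3 r0_127 (nat_lit 0) (nat_lit 0) (nat_lit 0) (nat_lit 0x6ccff433ee) (nat_lit 9418338072),
  Rx.mk (nat_lit 308) (nat_lit 4) (nat_lit 6) (nat_lit 4) (nat_lit 2) (nat_lit 6) (nat_lit 133) r7_6 r0_133 (nat_lit 0) (nat_lit 0) (nat_lit 0) (nat_lit 0x62b0ff8d58) (nat_lit 14386226400),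
  Rx.mk (nat_lit 310) (nat_lit 6) (nat_lit 6) (nat_lit 4) (nat_lit 3) (nat_lit 8) (nat_lit 136) r7_8 r0_136 (nat_lit 0) (nat_lit 0) (nat_lit 0) (nat_lit 0x7c3f4c0f00) (nat_lit 1842048000),
  Rx.mk (nat_lit 438) (nat_lit 6) (nat_lit 6) (nat_lit 6) (nat_lit 7) (nat_lit 9) (nat_lit 138) r7_9 r0_138 (nat_lit 0) (nat_lit 0) (nat_lit 0) (nat_lit 0x7db74b2d96) (nat_lit 1121113656),
  Rx.mk (nat_lit 484) (nat_lit 4) (nat_lit 4) (nat_lit 7) (nat_lit 4) (nat_lit 1) (nat_lit 125) r7_1 r0_125 (nat_lit 0) (nat_lit 0) (nat_lit 0) (nat_lit 0x5777047844) (nat_lit 19896786000),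
  Rx.mk (nat_lit 487) (nat_lit 7) (nat_lit 4) (nat_lit 7) (nat_lit 5) (nat_lit 2) (nat_lit 126) r7_2 r0_126 (nat_lit 0) (nat_lit 0) (nat_lit 0) (nat_lit 0x7aa48cbc90) (nat_lit 2629613376),
  Rx.mk (nat_lit 492) (nat_lit 4) (nat_lit 5) (nat_lit 7) (nat_lit 6) (nat_lit 4) (nat_lit 128) r7_4 r0_128 (nat_lit 0) (nat_lit 0) (nat_lit 0) (nat_lit 0x7d33d4058c) (nat_lit 1373185008),
  Rx.mk (nat_lit 495) (nat_lit 7) (nat_lit 5) (nat_lit 7) (nat_lit 7) (nat_lit 5) (nat_lit 129) r7_5 r0_129 (nat_lit 0) (nat_lit 0) (nat_lit 0) (nat_lit 0x7dee6ffb12) (nat_lit 1015381224),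
  Rx.mk (nat_lit 500) (nat_lit 4) (nat_lit 6) (nat_lit 7) (nat_lit 6) (nat_lit 7) (nat_lit 134) r7_7 r0_134 (nat_lit 0) (nat_lit 0) (nat_lit 0) (nat_lit 0x7d34a4d87e) (nat_lit 1371620952),
  Rx.mk (nat_lit 502) (nat_lit 6) (nat_lit 6) (nat_lit 7) (nat_lit 7) (nat_lit 10) (nat_lit 137) r7_10 r0_137 (nat_lit 0) (nat_lit 0) (nat_lit 0) (nat_lit 0x7df1e163f8) (nat_lit 1008779616),
  Rx.mk (nat_lit 503) (nat_lit 7) (nat_lit 6) (nat_lit 7) (nat_lit 7) (nat_lit 11) (nat_lit 135) r7_11 r0_135 (nat_lit 0) (nat_lit 0) (nat_lit 0) (nat_lit 0x7de50491d2) (nat_lit 1033442280),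
  Rx.mk (nat_lit 511) (nat_lit 7) (nat_lit 7) (nat_lit 7) (nat_lit 7) (nat_lit 14) (nat_lit 130) r7_14 r0_130 (nat_lit 0) (nat_lit 0) (nat_lit 0) (nat_lit 0x7da85dbc7c) (nat_lit 1149735600)]
noncomputable def e24_7 : List Rx := [
  Rx.mk (nat_lit 292) (nat_lit 4) (nat_lit 4) (nat_lit 4) (nat_lit 0) (nat_lit 15) (nat_lit 131) r7_15 r1_131 (nat_lit 0) (nat_lit 0) (nat_lit 0) (nat_lit 0x3a4548f130) (nat_lit 34226891712),
  Rx.mk (nat_lit 300) (nat_lit 4) (nat_lit 5) (nat_lit 4) (nat_lit 2) (nat_lit 18) (nat_lit 134) r7_18 r1_134 (nat_lit 0) (nat_lit 0) (nat_lit 0) (nat_lit 0x713c198d2c) (nat_lit 7247565936),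
  Rx.mk (nat_lit 308) (nat_lit 4) (nat_lit 6) (nat_lit 4) (nat_lit 2) (nat_lit 21) (nat_lit 138) r7_21 r1_138 (nat_lit 0) (nat_lit 0) (nat_lit 0) (nat_lit 0x6d86155126) (nat_lit 9069123960),
  Rx.mk (nat_lit 310) (nat_lit 6) (nat_lit 6) (nat_lit 4) (nat_lit 3) (nat_lit 22) (nat_lit 139) r7_22 r1_139 (nat_lit 0) (nat_lit 0) (nat_lit 0) (nat_lit 0x78d44382f4) (nat_lit 3519833616),
  Rx.mk (nat_lit 438) (nat_lit 6) (nat_lit 6) (nat_lit 6) (nat_lit 7) (nat_lit 23) (nat_lit 140) r7_23 r1_140 (nat_lit 0) (nat_lit 0) (nat_lit 0) (nat_lit 0x7d782dbfac) (nat_lit 1242130032),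
  Rx.mk (nat_lit 484) (nat_lit 4) (nat_lit 4) (nat_lit 7) (nat_lit 4) (nat_lit 16) (nat_lit 132) r7_16 r1_132 (nat_lit 0) (nat_lit 0) (nat_lit 0) (nat_lit 0x719cb8e2d6) (nat_lit 7062302520),
  Rx.mk (nat_lit 487) (nat_lit 7) (nat_lit 4) (nat_lit 7) (nat_lit 5) (nat_lit 17) (nat_lit 133) r7_17 r1_133 (nat_lit 0) (nat_lit 0) (nat_lit 0) (nat_lit 0x7d4b722b92) (nat_lit 1327900392),
  Rx.mk (nat_lit 492) (nat_lit 4) (nat_lit 5) (nat_lit 7) (nat_lit 6) (nat_lit 19) (nat_lit 135) r7_19 r1_135 (nat_lit 0) (nat_lit 0) (nat_lit 0) (nat_lit 0x7dcb8c896c) (nat_lit 1082276208),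
  Rx.mk (nat_lit 495) (nat_lit 7) (nat_lit 5) (nat_lit 7) (nat_lit 7) (nat_lit 20) (nat_lit 136) r7_20 r1_136 (nat_lit 0) (nat_lit 0) (nat_lit 0) (nat_lit 0x7ddfbee632) (nat_lit 1043551080),
  Rx.mk (nat_lit 511) (nat_lit 7) (nat_lit 7) (nat_lit 7) (nat_lit 7) (nat_lit 24) (nat_lit 137) r7_24 r1_137 (nat_lit 0) (nat_lit 0) (nat_lit 0) (nat_lit 0x7dd37a4a88) (nat_lit 1067073696)]
noncomputable def e24_8 : List Rx := [
  Rx.mk (nat_lit 231) (nat_lit 7) (nat_lit 4) (nat_lit 3) (nat_lit 5) (nat_lit 48) (nat_lit 116) r7_48 r4_116 (nat_lit 0) (nat_lit 0) (nat_lit 0) (nat_lit 0x7da8e3f418) (nat_lit 1148730336),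
  Rx.mk (nat_lit 239) (nat_lit 7) (nat_lit 5) (nat_lit 3) (nat_lit 7) (nat_lit 51) (nat_lit 119) r7_51 r4_119 (nat_lit 0) (nat_lit 0) (nat_lit 0) (nat_lit 0x7ddfec435c) (nat_lit 1043211312),
  Rx.mk (nat_lit 251) (nat_lit 3) (nat_lit 7) (nat_lit 3) (nat_lit 7) (nat_lit 56) (nat_lit 121) r7_56 r4_121 (nat_lit 0) (nat_lit 0) (nat_lit 0) (nat_lit 0x7df910b0fc) (nat_lit 995003568),
  Rx.mk (nat_lit 255) (nat_lit 7) (nat_lit 7) (nat_lit 3) (nat_lit 7) (nat_lit 57) (nat_lit 120) r7_57 r4_120 (nat_lit 0) (nat_lit 0) (nat_lit 0) (nat_lit 0x7de493b8e0) (nat_lit 1034287488),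
  Rx.mk (nat_lit 484) (nat_lit 4) (nat_lit 4) (nat_lit 7) (nat_lit 4) (nat_lit 47) (nat_lit 114) r7_47 r4_114 (nat_lit 0) (nat_lit 0) (nat_lit 0) (nat_lit 0x754e23e874) (nat_lit 5249561616),
  Rx.mk (nat_lit 487) (nat_lit 7) (nat_lit 4) (nat_lit 7) (nat_lit 5) (nat_lit 49) (nat_lit 115) r7_49 r4_115 (nat_lit 0) (nat_lit 0) (nat_lit 0) (nat_lit 0x7e2a789a4c) (nat_lit 900272880),
  Rx.mk (nat_lit 492) (nat_lit 4) (nat_lit 5) (nat_lit 7) (nat_lit 6) (nat_lit 50) (nat_lit 117) r7_50 r4_117 (nat_lit 0) (nat_lit 0) (nat_lit 0) (nat_lit 0x7dd0edf350) (nat_lit 1071959616),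
  Rx.mk (nat_lit 495) (nat_lit 7) (nat_lit 5) (nat_lit 7) (nat_lit 7) (nat_lit 52) (nat_lit 118) r7_52 r4_118 (nat_lit 0) (nat_lit 0) (nat_lit 0) (nat_lit 0x7e35a4078a) (nat_lit 878856264),
  Rx.mk (nat_lit 500) (nat_lit 4) (nat_lit 6) (nat_lit 7) (nat_lit 6) (nat_lit 53) (nat_lit 122) r7_53 r4_122 (nat_lit 0) (nat_lit 0) (nat_lit 0) (nat_lit 0x7dcf55acd6) (nat_lit 1075017528),
  Rx.mk (nat_lit 502) (nat_lit 6) (nat_lit 6) (nat_lit 7) (nat_lit 7) (nat_lit 54) (nat_lit 124) r7_54 r4_124 (nat_lit 0) (nat_lit 0) (nat_lit 0) (nat_lit 0x7dd9115112) (nat_lit 1056355560),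
  Rx.mk (nat_lit 503) (nat_lit 7) (nat_lit 6) (nat_lit 7) (nat_lit 7) (nat_lit 55) (nat_lit 123) r7_55 r4_123 (nat_lit 0) (nat_lit 0) (nat_lit 0) (nat_lit 0x7e28211fc6) (nat_lit 904762872)]
noncomputable def e24_9 : List Rx := [
  Rx.mk (nat_lit 47) (nat_lit 7) (nat_lit 5) (nat_lit 0) (nat_lit 3) (nat_lit 71) (nat_lit 203) r7_71 r5_203 (nat_lit 0) (nat_lit 0) (nat_lit 0) (nat_lit 0x7e43268f54) (nat_lit 852952464),
  Rx.mk (nat_lit 111) (nat_lit 7) (nat_lit 5) (nat_lit 1) (nat_lit 7) (nat_lit 72) (nat_lit 204) r7_72 r5_204 (nat_lit 0) (nat_lit 0) (nat_lit 0) (nat_lit 0x7df5604c06) (nat_lit 1002076920),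
  Rx.mk (nat_lit 239) (nat_lit 7) (nat_lit 5) (nat_lit 3) (nat_lit 7) (nat_lit 73) (nat_lit 205) r7_73 r5_205 (nat_lit 0) (nat_lit 0) (nat_lit 0) (nat_lit 0x7dbca6f7d4) (nat_lit 1110839184)]
noncomputable def e24_10 : List Rx := [
  Rx.mk (nat_lit 108) (nat_lit 4) (nat_lit 5) (nat_lit 1) (nat_lit 6) (nat_lit 178) (nat_lit 289) r7_178 r0_289 (nat_lit 0) (nat_lit 0) (nat_lit 0) (nat_lit 0x7b30873c5c) (nat_lit 2361219120),
  Rx.mk (nat_lit 109) (nat_lit 5) (nat_lit 5) (nat_lit 1) (nat_lit 7) (nat_lit 179) (nat_lit 290) r7_179 r0_290 (nat_lit 0) (nat_lit 0) (nat_lit 0) (nat_lit 0x7df79428c6) (nat_lit 997853688)]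
noncomputable def e24_11 : List Rx := [
  Rx.mk (nat_lit 108) (nat_lit 4) (nat_lit 5) (nat_lit 1) (nat_lit 6) (nat_lit 184) (nat_lit 241) r7_184 r6_241 (nat_lit 0) (nat_lit 0) (nat_lit 0) (nat_lit 0x7de7386e92) (nat_lit 1029219048),
  Rx.mk (nat_lit 109) (nat_lit 5) (nat_lit 5) (nat_lit 1) (nat_lit 7) (nat_lit 186) (nat_lit 243) r7_186 r6_243 (nat_lit 0) (nat_lit 0) (nat_lit 0) (nat_lit 0x7de4f1130a) (nat_lit 1033588296),
  Rx.mk (nat_lit 364) (nat_lit 4) (nat_lit 5) (nat_lit 5) (nat_lit 6) (nat_lit 185) (nat_lit 242) r7_185 r6_242 (nat_lit 0) (nat_lit 0) (nat_lit 0) (nat_lit 0x7d9c65fc04) (nat_lit 1172682576),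
  Rx.mk (nat_lit 365) (nat_lit 5) (nat_lit 5) (nat_lit 5) (nat_lit 7) (nat_lit 187) (nat_lit 244) r7_187 r6_244 (nat_lit 0) (nat_lit 0) (nat_lit 0) (nat_lit 0x7dbbebe386) (nat_lit 1112240376),
  Rx.mk (nat_lit 367) (nat_lit 7) (nat_lit 5) (nat_lit 5) (nat_lit 7) (nat_lit 188) (nat_lit 245) r7_188 r6_245 (nat_lit 0) (nat_lit 0) (nat_lit 0) (nat_lit 0x7dbabc967c) (nat_lit 1114512048)]
noncomputable def e24_12 : List Rx := [
  Rx.mk (nat_lit 109) (nat_lit 5) (nat_lit 5) (nat_lit 1) (nat_lit 7) (nat_lit 180) (nat_lit 286) r7_180 r1_286 (nat_lit 0) (nat_lit 0) (nat_lit 0) (nat_lit 0x7de3424df8) (nat_lit 1036814688)]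
noncomputable def e24_13 : List Rx := [
  Rx.mk (nat_lit 109) (nat_lit 5) (nat_lit 5) (nat_lit 1) (nat_lit 7) (nat_lit 189) (nat_lit 189) r7_189 r7_189 (nat_lit 0) (nat_lit 0) (nat_lit 0) (nat_lit 0x7deaf8f286) (nat_lit 1022024952),
  Rx.mk (nat_lit 365) (nat_lit 5) (nat_lit 5) (nat_lit 5) (nat_lit 7) (nat_lit 190) (nat_lit 190) r7_190 r7_190 (nat_lit 0) (nat_lit 0) (nat_lit 0) (nat_lit 0x7de57f2a28) (nat_lit 1032524064)]
noncomputable def e24_14 : List Rx := [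
  Rx.mk (nat_lit 364) (nat_lit 4) (nat_lit 5) (nat_lit 5) (nat_lit 6) (nat_lit 191) (nat_lit 323) r7_191 r7_323 (nat_lit 0) (nat_lit 0) (nat_lit 0) (nat_lit 0x7cf1f683a6) (nat_lit 1499474808),
  Rx.mk (nat_lit 365) (nat_lit 5) (nat_lit 5) (nat_lit 5) (nat_lit 7) (nat_lit 192) (nat_lit 324) r7_192 r7_324 (nat_lit 0) (nat_lit 0) (nat_lit 0) (nat_lit 0x7dd911b10c) (nat_lit 1056352752),
  Rx.mk (nat_lit 367) (nat_lit 7) (nat_lit 5) (nat_lit 5) (nat_lit 7) (nat_lit 193) (nat_lit 325) r7_193 r7_325 (nat_lit 0) (nat_lit 0) (nat_lit 0) (nat_lit 0x7ddc447ddc) (nat_lit 1050220080)]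
noncomputable def e24_15 : List Rx := [
  Rx.mk (nat_lit 292) (nat_lit 4) (nat_lit 4) (nat_lit 4) (nat_lit 0) (nat_lit 159) (nat_lit 183) r7_159 r8_183 (nat_lit 0) (nat_lit 0) (nat_lit 0) (nat_lit 0xf50b40576) (nat_lit 55311694776),
  Rx.mk (nat_lit 295) (nat_lit 7) (nat_lit 4) (nat_lit 4) (nat_lit 1) (nat_lit 162) (nat_lit 192) r7_162 r8_192 (nat_lit 0) (nat_lit 0) (nat_lit 0) (nat_lit 0x69ea215402) (nat_lit 10840708008),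
  Rx.mk (nat_lit 300) (nat_lit 4) (nat_lit 5) (nat_lit 4) (nat_lit 2) (nat_lit 165) (nat_lit 185) r7_165 r8_185 (nat_lit 0) (nat_lit 0) (nat_lit 0) (nat_lit 0x5ded7eea26) (nat_lit 16724495736),
  Rx.mk (nat_lit 303) (nat_lit 7) (nat_lit 5) (nat_lit 4) (nat_lit 3) (nat_lit 168) (nat_lit 195) r7_168 r8_195 (nat_lit 0) (nat_lit 0) (nat_lit 0) (nat_lit 0x7dc8110128) (nat_lit 1088953632),
  Rx.mk (nat_lit 308) (nat_lit 4) (nat_lit 6) (nat_lit 4) (nat_lit 2) (nat_lit 171) (nat_lit 187) r7_171 r8_187 (nat_lit 0) (nat_lit 0) (nat_lit 0) (nat_lit 0x6bc7e5f5da) (nat_lit 9924637320),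
  Rx.mk (nat_lit 310) (nat_lit 6) (nat_lit 6) (nat_lit 4) (nat_lit 3) (nat_lit 174) (nat_lit 199) r7_174 r8_199 (nat_lit 0) (nat_lit 0) (nat_lit 0) (nat_lit 0x7dcf674bbc) (nat_lit 1074885552),
  Rx.mk (nat_lit 356) (nat_lit 4) (nat_lit 4) (nat_lit 5) (nat_lit 4) (nat_lit 160) (nat_lit 184) r7_160 r8_184 (nat_lit 0) (nat_lit 0) (nat_lit 0) (nat_lit 0x6e6da8770c) (nat_lit 8625103344),
  Rx.mk (nat_lit 357) (nat_lit 5) (nat_lit 4) (nat_lit 5) (nat_lit 5) (nat_lit 161) (nat_lit 189) r7_161 r8_189 (nat_lit 0) (nat_lit 0) (nat_lit 0) (nat_lit 0x7d74577d14) (nat_lit 1249486992),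
  Rx.mk (nat_lit 359) (nat_lit 7) (nat_lit 4) (nat_lit 5) (nat_lit 5) (nat_lit 163) (nat_lit 193) r7_163 r8_193 (nat_lit 0) (nat_lit 0) (nat_lit 0) (nat_lit 0x7dd111311c) (nat_lit 1071695664),
  Rx.mk (nat_lit 364) (nat_lit 4) (nat_lit 5) (nat_lit 5) (nat_lit 6) (nat_lit 166) (nat_lit 186) r7_166 r8_186 (nat_lit 0) (nat_lit 0) (nat_lit 0) (nat_lit 0x7c45bbc7fe) (nat_lit 1829706840),
  Rx.mk (nat_lit 365) (nat_lit 5) (nat_lit 5) (nat_lit 5) (nat_lit 7) (nat_lit 167) (nat_lit 190) r7_167 r8_190 (nat_lit 0) (nat_lit 0) (nat_lit 0) (nat_lit 0x7db6535d14) (nat_lit 1122969744),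
  Rx.mk (nat_lit 367) (nat_lit 7) (nat_lit 5) (nat_lit 5) (nat_lit 7) (nat_lit 169) (nat_lit 196) r7_169 r8_196 (nat_lit 0) (nat_lit 0) (nat_lit 0) (nat_lit 0x7df38ba952) (nat_lit 1005586920),
  Rx.mk (nat_lit 372) (nat_lit 4) (nat_lit 6) (nat_lit 5) (nat_lit 6) (nat_lit 172) (nat_lit 188) r7_172 r8_188 (nat_lit 0) (nat_lit 0) (nat_lit 0) (nat_lit 0x7d82afb782) (nat_lit 1221982632),
  Rx.mk (nat_lit 373) (nat_lit 5) (nat_lit 6) (nat_lit 5) (nat_lit 7) (nat_lit 173) (nat_lit 191) r7_173 r8_191 (nat_lit 0) (nat_lit 0) (nat_lit 0) (nat_lit 0x7dea7a9a6c) (nat_lit 1022971248),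
  Rx.mk (nat_lit 374) (nat_lit 6) (nat_lit 6) (nat_lit 5) (nat_lit 7) (nat_lit 175) (nat_lit 200) r7_175 r8_200 (nat_lit 0) (nat_lit 0) (nat_lit 0) (nat_lit 0x7ddabb966c) (nat_lit 1053162864),
  Rx.mk (nat_lit 438) (nat_lit 6) (nat_lit 6) (nat_lit 6) (nat_lit 7) (nat_lit 176) (nat_lit 201) r7_176 r8_201 (nat_lit 0) (nat_lit 0) (nat_lit 0) (nat_lit 0x7dec61fbf4) (nat_lit 1019320848),
  Rx.mk (nat_lit 487) (nat_lit 7) (nat_lit 4) (nat_lit 7) (nat_lit 5) (nat_lit 164) (nat_lit 194) r7_164 r8_194 (nat_lit 0) (nat_lit 0) (nat_lit 0) (nat_lit 0x7dde503d1e) (nat_lit 1046297304),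
  Rx.mk (nat_lit 495) (nat_lit 7) (nat_lit 5) (nat_lit 7) (nat_lit 7) (nat_lit 170) (nat_lit 197) r7_170 r8_197 (nat_lit 0) (nat_lit 0) (nat_lit 0) (nat_lit 0x7df0e8138e) (nat_lit 1010646936),
  Rx.mk (nat_lit 511) (nat_lit 7) (nat_lit 7) (nat_lit 7) (nat_lit 7) (nat_lit 177) (nat_lit 198) r7_177 r8_198 (nat_lit 0) (nat_lit 0) (nat_lit 0) (nat_lit 0x7ddc561cc2) (nat_lit 1050088104)]
noncomputable def e24_16 : List Rx := [
  Rx.mk (nat_lit 108) (nat_lit 4) (nat_lit 5) (nat_lit 1) (nat_lit 6) (nat_lit 181) (nat_lit 304) r7_181 r4_304 (nat_lit 0) (nat_lit 0) (nat_lit 0) (nat_lit 0x7de112f0f0) (nat_lit 1041004224),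
  Rx.mk (nat_lit 109) (nat_lit 5) (nat_lit 5) (nat_lit 1) (nat_lit 7) (nat_lit 182) (nat_lit 305) r7_182 r4_305 (nat_lit 0) (nat_lit 0) (nat_lit 0) (nat_lit 0x7df79428c6) (nat_lit 997853688),
  Rx.mk (nat_lit 111) (nat_lit 7) (nat_lit 5) (nat_lit 1) (nat_lit 7) (nat_lit 183) (nat_lit 306) r7_183 r4_306 (nat_lit 0) (nat_lit 0) (nat_lit 0) (nat_lit 0x7df6d07502) (nat_lit 999319464)]
noncomputable def e24_17 : List Rx := [
  Rx.mk (nat_lit 108) (nat_lit 4) (nat_lit 5) (nat_lit 1) (nat_lit 6) (nat_lit 194) (nat_lit 191) r7_194 r9_191 (nat_lit 0) (nat_lit 0) (nat_lit 0) (nat_lit 0x7de3a84798) (nat_lit 1036050912),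
  Rx.mk (nat_lit 109) (nat_lit 5) (nat_lit 5) (nat_lit 1) (nat_lit 7) (nat_lit 195) (nat_lit 192) r7_195 r9_192 (nat_lit 0) (nat_lit 0) (nat_lit 0) (nat_lit 0x7dd3600c2c) (nat_lit 1067270256),
  Rx.mk (nat_lit 111) (nat_lit 7) (nat_lit 5) (nat_lit 1) (nat_lit 7) (nat_lit 196) (nat_lit 193) r7_196 r9_193 (nat_lit 0) (nat_lit 0) (nat_lit 0) (nat_lit 0x7de444fdcc) (nat_lit 1034877168),
  Rx.mk (nat_lit 367) (nat_lit 7) (nat_lit 5) (nat_lit 5) (nat_lit 7) (nat_lit 197) (nat_lit 194) r7_197 r9_194 (nat_lit 0) (nat_lit 0) (nat_lit 0) (nat_lit 0x7dea641bd4) (nat_lit 1023139728)]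
noncomputable def e24_18 : List Rx := [
  Rx.mk (nat_lit 108) (nat_lit 4) (nat_lit 5) (nat_lit 1) (nat_lit 6) (nat_lit 198) (nat_lit 219) r7_198 r10_219 (nat_lit 0) (nat_lit 0) (nat_lit 0) (nat_lit 0x7df20f8116) (nat_lit 1008434232),
  Rx.mk (nat_lit 109) (nat_lit 5) (nat_lit 5) (nat_lit 1) (nat_lit 7) (nat_lit 199) (nat_lit 220) r7_199 r10_220 (nat_lit 0) (nat_lit 0) (nat_lit 0) (nat_lit 0x7de83d5e42) (nat_lit 1027264680),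
  Rx.mk (nat_lit 111) (nat_lit 7) (nat_lit 5) (nat_lit 1) (nat_lit 7) (nat_lit 200) (nat_lit 221) r7_200 r10_221 (nat_lit 0) (nat_lit 0) (nat_lit 0) (nat_lit 0x7deb8469ce) (nat_lit 1020980376)]
noncomputable def e24_19 : List Rx := [
  Rx.mk (nat_lit 292) (nat_lit 4) (nat_lit 4) (nat_lit 4) (nat_lit 0) (nat_lit 133) (nat_lit 86) r7_133 r8_86 (nat_lit 0) (nat_lit 0) (nat_lit 0) (nat_lit 0x4dd0ff623c) (nat_lit 24632792496),
  Rx.mk (nat_lit 295) (nat_lit 7) (nat_lit 4) (nat_lit 4) (nat_lit 1) (nat_lit 135) (nat_lit 88) r7_135 r8_88 (nat_lit 0) (nat_lit 0) (nat_lit 0) (nat_lit 0x79a02d0390) (nat_lit 3128853312),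
  Rx.mk (nat_lit 308) (nat_lit 4) (nat_lit 6) (nat_lit 4) (nat_lit 2) (nat_lit 138) (nat_lit 92) r7_138 r8_92 (nat_lit 0) (nat_lit 0) (nat_lit 0) (nat_lit 0x72540acd00) (nat_lit 6710805504),
  Rx.mk (nat_lit 310) (nat_lit 6) (nat_lit 6) (nat_lit 4) (nat_lit 3) (nat_lit 140) (nat_lit 96) r7_140 r8_96 (nat_lit 0) (nat_lit 0) (nat_lit 0) (nat_lit 0x7da6639c20) (nat_lit 1153526400),
  Rx.mk (nat_lit 311) (nat_lit 7) (nat_lit 6) (nat_lit 4) (nat_lit 3) (nat_lit 143) (nat_lit 94) r7_143 r8_94 (nat_lit 0) (nat_lit 0) (nat_lit 0) (nat_lit 0x7de5f8a290) (nat_lit 1031614272),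
  Rx.mk (nat_lit 356) (nat_lit 4) (nat_lit 4) (nat_lit 5) (nat_lit 4) (nat_lit 134) (nat_lit 87) r7_134 r8_87 (nat_lit 0) (nat_lit 0) (nat_lit 0) (nat_lit 0x726c30aa8a) (nat_lit 6664504392),
  Rx.mk (nat_lit 359) (nat_lit 7) (nat_lit 4) (nat_lit 5) (nat_lit 5) (nat_lit 136) (nat_lit 89) r7_136 r8_89 (nat_lit 0) (nat_lit 0) (nat_lit 0) (nat_lit 0x7dcb1d3062) (nat_lit 1083110184),
  Rx.mk (nat_lit 372) (nat_lit 4) (nat_lit 6) (nat_lit 5) (nat_lit 6) (nat_lit 139) (nat_lit 93) r7_139 r8_93 (nat_lit 0) (nat_lit 0) (nat_lit 0) (nat_lit 0x7defee632a) (nat_lit 1012517064),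
  Rx.mk (nat_lit 374) (nat_lit 6) (nat_lit 6) (nat_lit 5) (nat_lit 7) (nat_lit 141) (nat_lit 97) r7_141 r8_97 (nat_lit 0) (nat_lit 0) (nat_lit 0) (nat_lit 0x7dee723aee) (nat_lit 1015364376),
  Rx.mk (nat_lit 375) (nat_lit 7) (nat_lit 6) (nat_lit 5) (nat_lit 7) (nat_lit 144) (nat_lit 95) r7_144 r8_95 (nat_lit 0) (nat_lit 0) (nat_lit 0) (nat_lit 0x7dd143cdf2) (nat_lit 1071316584),
  Rx.mk (nat_lit 438) (nat_lit 6) (nat_lit 6) (nat_lit 6) (nat_lit 7) (nat_lit 142) (nat_lit 98) r7_142 r8_98 (nat_lit 0) (nat_lit 0) (nat_lit 0) (nat_lit 0x7db8202046) (nat_lit 1119518712),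
  Rx.mk (nat_lit 487) (nat_lit 7) (nat_lit 4) (nat_lit 7) (nat_lit 5) (nat_lit 137) (nat_lit 90) r7_137 r8_90 (nat_lit 0) (nat_lit 0) (nat_lit 0) (nat_lit 0x7dc9350ee6) (nat_lit 1086766200),
  Rx.mk (nat_lit 511) (nat_lit 7) (nat_lit 7) (nat_lit 7) (nat_lit 7) (nat_lit 145) (nat_lit 91) r7_145 r8_91 (nat_lit 0) (nat_lit 0) (nat_lit 0) (nat_lit 0x7df0bff610) (nat_lit 1010947392)]
noncomputable def e24_20 : List Rx := [
  Rx.mk (nat_lit 251) (nat_lit 3) (nat_lit 7) (nat_lit 3) (nat_lit 7) (nat_lit 76) (nat_lit 139) r7_76 r0_139 (nat_lit 0) (nat_lit 0) (nat_lit 0) (nat_lit 0x7dbbc6c5d8) (nat_lit 1112518368),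
  Rx.mk (nat_lit 255) (nat_lit 7) (nat_lit 7) (nat_lit 3) (nat_lit 7) (nat_lit 77) (nat_lit 140) r7_77 r0_140 (nat_lit 0) (nat_lit 0) (nat_lit 0) (nat_lit 0x7dbbc6c5d8) (nat_lit 1112518368)]
noncomputable def e24_21 : List Rx := [
  Rx.mk (nat_lit 0) (nat_lit 0) (nat_lit 0) (nat_lit 0) (nat_lit 0) (nat_lit 90) (nat_lit 141) r7_90 r1_141 (nat_lit 0) (nat_lit 0) (nat_lit 0) (nat_lit 0x3f2c1ddefa) (nat_lit 31820882184),
  Rx.mk (nat_lit 24) (nat_lit 0) (nat_lit 3) (nat_lit 0) (nat_lit 2) (nat_lit 94) (nat_lit 142) r7_94 r1_142 (nat_lit 0) (nat_lit 0) (nat_lit 0) (nat_lit 0x60f77387d2) (nat_lit 15232846824),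
  Rx.mk (nat_lit 27) (nat_lit 3) (nat_lit 3) (nat_lit 0) (nat_lit 3) (nat_lit 97) (nat_lit 143) r7_97 r1_143 (nat_lit 0) (nat_lit 0) (nat_lit 0) (nat_lit 0x79f20f451a) (nat_lit 2971849608),
  Rx.mk (nat_lit 128) (nat_lit 0) (nat_lit 0) (nat_lit 2) (nat_lit 4) (nat_lit 91) (nat_lit 147) r7_91 r1_147 (nat_lit 0) (nat_lit 0) (nat_lit 0) (nat_lit 0x6698457512) (nat_lit 12470224104),
  Rx.mk (nat_lit 130) (nat_lit 2) (nat_lit 0) (nat_lit 2) (nat_lit 5) (nat_lit 92) (nat_lit 150) r7_92 r1_150 (nat_lit 0) (nat_lit 0) (nat_lit 0) (nat_lit 0x6657bb3df6) (nat_lit 12593972664),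
  Rx.mk (nat_lit 146) (nat_lit 2) (nat_lit 2) (nat_lit 2) (nat_lit 7) (nat_lit 93) (nat_lit 152) r7_93 r1_152 (nat_lit 0) (nat_lit 0) (nat_lit 0) (nat_lit 0x7cef2530be) (nat_lit 1504877400),
  Rx.mk (nat_lit 152) (nat_lit 0) (nat_lit 3) (nat_lit 2) (nat_lit 6) (nat_lit 95) (nat_lit 148) r7_95 r1_148 (nat_lit 0) (nat_lit 0) (nat_lit 0) (nat_lit 0x7d04f5d39e) (nat_lit 1463049432),
  Rx.mk (nat_lit 154) (nat_lit 2) (nat_lit 3) (nat_lit 2) (nat_lit 7) (nat_lit 96) (nat_lit 151) r7_96 r1_151 (nat_lit 0) (nat_lit 0) (nat_lit 0) (nat_lit 0x7d83c7c600) (nat_lit 1219885056),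
  Rx.mk (nat_lit 155) (nat_lit 3) (nat_lit 3) (nat_lit 2) (nat_lit 7) (nat_lit 98) (nat_lit 149) r7_98 r1_149 (nat_lit 0) (nat_lit 0) (nat_lit 0) (nat_lit 0x7df4f572b4) (nat_lit 1002877200),
  Rx.mk (nat_lit 219) (nat_lit 3) (nat_lit 3) (nat_lit 3) (nat_lit 7) (nat_lit 99) (nat_lit 144) r7_99 r1_144 (nat_lit 0) (nat_lit 0) (nat_lit 0) (nat_lit 0x7dd6fab27e) (nat_lit 1060359768),
  Rx.mk (nat_lit 251) (nat_lit 3) (nat_lit 7) (nat_lit 3) (nat_lit 7) (nat_lit 100) (nat_lit 145) r7_100 r1_145 (nat_lit 0) (nat_lit 0) (nat_lit 0) (nat_lit 0x7dec661bb2) (nat_lit 1019289960),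
  Rx.mk (nat_lit 255) (nat_lit 7) (nat_lit 7) (nat_lit 3) (nat_lit 7) (nat_lit 101) (nat_lit 146) r7_101 r1_146 (nat_lit 0) (nat_lit 0) (nat_lit 0) (nat_lit 0x7db6f07342) (nat_lit 1121793192)]
noncomputable def e24_22 : List Rx := [
  Rx.mk (nat_lit 231) (nat_lit 7) (nat_lit 4) (nat_lit 3) (nat_lit 5) (nat_lit 146) (nat_lit 126) r7_146 r4_126 (nat_lit 0) (nat_lit 0) (nat_lit 0) (nat_lit 0x7dc32eaf52) (nat_lit 1098318312),
  Rx.mk (nat_lit 251) (nat_lit 3) (nat_lit 7) (nat_lit 3) (nat_lit 7) (nat_lit 147) (nat_lit 125) r7_147 r4_125 (nat_lit 0) (nat_lit 0) (nat_lit 0) (nat_lit 0x7dca705b30) (nat_lit 1084404672),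
  Rx.mk (nat_lit 255) (nat_lit 7) (nat_lit 7) (nat_lit 3) (nat_lit 7) (nat_lit 148) (nat_lit 127) r7_148 r4_127 (nat_lit 0) (nat_lit 0) (nat_lit 0) (nat_lit 0x7dedaca748) (nat_lit 1016844192)]
noncomputable def e24_23 : List Rx := [
  Rx.mk (nat_lit 251) (nat_lit 3) (nat_lit 7) (nat_lit 3) (nat_lit 7) (nat_lit 87) (nat_lit 141) r7_87 r6_141 (nat_lit 0) (nat_lit 0) (nat_lit 0) (nat_lit 0x7df4627be4) (nat_lit 1003977936),
  Rx.mk (nat_lit 255) (nat_lit 7) (nat_lit 7) (nat_lit 3) (nat_lit 7) (nat_lit 88) (nat_lit 140) r7_88 r6_140 (nat_lit 0) (nat_lit 0) (nat_lit 0) (nat_lit 0x7de5d2c4ee) (nat_lit 1031897880),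
  Rx.mk (nat_lit 292) (nat_lit 4) (nat_lit 4) (nat_lit 4) (nat_lit 0) (nat_lit 78) (nat_lit 136) r7_78 r6_136 (nat_lit 0) (nat_lit 0) (nat_lit 0) (nat_lit 0x1522d75d6e) (nat_lit 52454509848),
  Rx.mk (nat_lit 308) (nat_lit 4) (nat_lit 6) (nat_lit 4) (nat_lit 2) (nat_lit 81) (nat_lit 142) r7_81 r6_142 (nat_lit 0) (nat_lit 0) (nat_lit 0) (nat_lit 0x5f26a1d6be) (nat_lit 16124089176),
  Rx.mk (nat_lit 310) (nat_lit 6) (nat_lit 6) (nat_lit 4) (nat_lit 3) (nat_lit 83) (nat_lit 145) r7_83 r6_145 (nat_lit 0) (nat_lit 0) (nat_lit 0) (nat_lit 0x7cf5e524b8) (nat_lit 1491935328),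
  Rx.mk (nat_lit 438) (nat_lit 6) (nat_lit 6) (nat_lit 6) (nat_lit 7) (nat_lit 84) (nat_lit 147) r7_84 r6_147 (nat_lit 0) (nat_lit 0) (nat_lit 0) (nat_lit 0x7daf4b6d9a) (nat_lit 1136450952),
  Rx.mk (nat_lit 484) (nat_lit 4) (nat_lit 4) (nat_lit 7) (nat_lit 4) (nat_lit 79) (nat_lit 137) r7_79 r6_137 (nat_lit 0) (nat_lit 0) (nat_lit 0) (nat_lit 0x4c4a1c91f0) (nat_lit 25382275776),
  Rx.mk (nat_lit 487) (nat_lit 7) (nat_lit 4) (nat_lit 7) (nat_lit 5) (nat_lit 80) (nat_lit 138) r7_80 r6_138 (nat_lit 0) (nat_lit 0) (nat_lit 0) (nat_lit 0x7cc30772c6) (nat_lit 1589465592),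
  Rx.mk (nat_lit 500) (nat_lit 4) (nat_lit 6) (nat_lit 7) (nat_lit 6) (nat_lit 82) (nat_lit 143) r7_82 r6_143 (nat_lit 0) (nat_lit 0) (nat_lit 0) (nat_lit 0x7d7099f8f0) (nat_lit 1256658624),
  Rx.mk (nat_lit 502) (nat_lit 6) (nat_lit 6) (nat_lit 7) (nat_lit 7) (nat_lit 85) (nat_lit 146) r7_85 r6_146 (nat_lit 0) (nat_lit 0) (nat_lit 0) (nat_lit 0x7de9a4e7c8) (nat_lit 1024571808),
  Rx.mk (nat_lit 503) (nat_lit 7) (nat_lit 6) (nat_lit 7) (nat_lit 7) (nat_lit 86) (nat_lit 144) r7_86 r6_144 (nat_lit 0) (nat_lit 0) (nat_lit 0) (nat_lit 0x7da9f1833e) (nat_lit 1146711384),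
  Rx.mk (nat_lit 511) (nat_lit 7) (nat_lit 7) (nat_lit 7) (nat_lit 7) (nat_lit 89) (nat_lit 139) r7_89 r6_139 (nat_lit 0) (nat_lit 0) (nat_lit 0) (nat_lit 0x7d97b946d4) (nat_lit 1181645712)]
noncomputable def e24_24 : List Rx := [
  Rx.mk (nat_lit 0) (nat_lit 0) (nat_lit 0) (nat_lit 0) (nat_lit 0) (nat_lit 102) (nat_lit 114) r7_102 r7_114 (nat_lit 0) (nat_lit 0) (nat_lit 0) (nat_lit 0x37e5b76ca8) (nat_lit 35391841056),
  Rx.mk (nat_lit 24) (nat_lit 0) (nat_lit 3) (nat_lit 0) (nat_lit 2) (nat_lit 108) (nat_lit 117) r7_108 r7_117 (nat_lit 0) (nat_lit 0) (nat_lit 0) (nat_lit 0x5ed3604b2a) (nat_lit 16283723976),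
  Rx.mk (nat_lit 27) (nat_lit 3) (nat_lit 3) (nat_lit 0) (nat_lit 3) (nat_lit 111) (nat_lit 119) r7_111 r7_119 (nat_lit 0) (nat_lit 0) (nat_lit 0) (nat_lit 0x7b14dd3718) (nat_lit 2414262240),
  Rx.mk (nat_lit 128) (nat_lit 0) (nat_lit 0) (nat_lit 2) (nat_lit 4) (nat_lit 103) (nat_lit 115) r7_103 r7_115 (nat_lit 0) (nat_lit 0) (nat_lit 0) (nat_lit 0x4cd945bece) (nat_lit 25107779736),
  Rx.mk (nat_lit 130) (nat_lit 2) (nat_lit 0) (nat_lit 2) (nat_lit 5) (nat_lit 104) (nat_lit 116) r7_104 r7_116 (nat_lit 0) (nat_lit 0) (nat_lit 0) (nat_lit 0x768ec17d5a) (nat_lit 4634814600),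
  Rx.mk (nat_lit 146) (nat_lit 2) (nat_lit 2) (nat_lit 2) (nat_lit 7) (nat_lit 105) (nat_lit 125) r7_105 r7_125 (nat_lit 0) (nat_lit 0) (nat_lit 0) (nat_lit 0x7d9bc765ee) (nat_lit 1173870360),
  Rx.mk (nat_lit 152) (nat_lit 0) (nat_lit 3) (nat_lit 2) (nat_lit 6) (nat_lit 109) (nat_lit 118) r7_109 r7_118 (nat_lit 0) (nat_lit 0) (nat_lit 0) (nat_lit 0x7cd4dc5566) (nat_lit 1555275384),
  Rx.mk (nat_lit 154) (nat_lit 2) (nat_lit 3) (nat_lit 2) (nat_lit 7) (nat_lit 110) (nat_lit 122) r7_110 r7_122 (nat_lit 0) (nat_lit 0) (nat_lit 0) (nat_lit 0x7df5730ada) (nat_lit 1001936520),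
  Rx.mk (nat_lit 155) (nat_lit 3) (nat_lit 3) (nat_lit 2) (nat_lit 7) (nat_lit 112) (nat_lit 121) r7_112 r7_121 (nat_lit 0) (nat_lit 0) (nat_lit 0) (nat_lit 0x7de25d3c4a) (nat_lit 1038530376),
  Rx.mk (nat_lit 219) (nat_lit 3) (nat_lit 3) (nat_lit 3) (nat_lit 7) (nat_lit 113) (nat_lit 120) r7_113 r7_120 (nat_lit 0) (nat_lit 0) (nat_lit 0) (nat_lit 0x7da43f1e6a) (nat_lit 1157634504),
  Rx.mk (nat_lit 251) (nat_lit 3) (nat_lit 7) (nat_lit 3) (nat_lit 7) (nat_lit 123) (nat_lit 107) r7_123 r7_107 (nat_lit 0) (nat_lit 0) (nat_lit 0) (nat_lit 0x7d7c97b908) (nat_lit 1233666720),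
  Rx.mk (nat_lit 255) (nat_lit 7) (nat_lit 7) (nat_lit 3) (nat_lit 7) (nat_lit 124) (nat_lit 106) r7_124 r7_106 (nat_lit 0) (nat_lit 0) (nat_lit 0) (nat_lit 0x7de62b9f60) (nat_lit 1031232384),
  Rx.mk (nat_lit 292) (nat_lit 4) (nat_lit 4) (nat_lit 4) (nat_lit 0) (nat_lit 114) (nat_lit 102) r7_114 r7_102 (nat_lit 0) (nat_lit 0) (nat_lit 0) (nat_lit 0x37e5b76ca8) (nat_lit 35391841056),
  Rx.mk (nat_lit 308) (nat_lit 4) (nat_lit 6) (nat_lit 4) (nat_lit 2) (nat_lit 117) (nat_lit 108) r7_117 r7_108 (nat_lit 0) (nat_lit 0) (nat_lit 0) (nat_lit 0x5ed3604b2a) (nat_lit 16283723976),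
  Rx.mk (nat_lit 310) (nat_lit 6) (nat_lit 6) (nat_lit 4) (nat_lit 3) (nat_lit 119) (nat_lit 111) r7_119 r7_111 (nat_lit 0) (nat_lit 0) (nat_lit 0) (nat_lit 0x7b14dd3718) (nat_lit 2414262240),
  Rx.mk (nat_lit 402) (nat_lit 2) (nat_lit 2) (nat_lit 6) (nat_lit 7) (nat_lit 106) (nat_lit 124) r7_106 r7_124 (nat_lit 0) (nat_lit 0) (nat_lit 0) (nat_lit 0x7de62b9f60) (nat_lit 1031232384),
  Rx.mk (nat_lit 406) (nat_lit 6) (nat_lit 2) (nat_lit 6) (nat_lit 7) (nat_lit 107) (nat_lit 123) r7_107 r7_123 (nat_lit 0) (nat_lit 0) (nat_lit 0) (nat_lit 0x7d7c97b908) (nat_lit 1233666720),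
  Rx.mk (nat_lit 438) (nat_lit 6) (nat_lit 6) (nat_lit 6) (nat_lit 7) (nat_lit 120) (nat_lit 113) r7_120 r7_113 (nat_lit 0) (nat_lit 0) (nat_lit 0) (nat_lit 0x7da43f1e6a) (nat_lit 1157634504),
  Rx.mk (nat_lit 484) (nat_lit 4) (nat_lit 4) (nat_lit 7) (nat_lit 4) (nat_lit 115) (nat_lit 103) r7_115 r7_103 (nat_lit 0) (nat_lit 0) (nat_lit 0) (nat_lit 0x4cd945bece) (nat_lit 25107779736),
  Rx.mk (nat_lit 487) (nat_lit 7) (nat_lit 4) (nat_lit 7) (nat_lit 5) (nat_lit 116) (nat_lit 104) r7_116 r7_104 (nat_lit 0) (nat_lit 0) (nat_lit 0) (nat_lit 0x768ec17d5a) (nat_lit 4634814600),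
  Rx.mk (nat_lit 500) (nat_lit 4) (nat_lit 6) (nat_lit 7) (nat_lit 6) (nat_lit 118) (nat_lit 109) r7_118 r7_109 (nat_lit 0) (nat_lit 0) (nat_lit 0) (nat_lit 0x7cd4dc5566) (nat_lit 1555275384),
  Rx.mk (nat_lit 502) (nat_lit 6) (nat_lit 6) (nat_lit 7) (nat_lit 7) (nat_lit 121) (nat_lit 112) r7_121 r7_112 (nat_lit 0) (nat_lit 0) (nat_lit 0) (nat_lit 0x7de25d3c4a) (nat_lit 1038530376),
  Rx.mk (nat_lit 503) (nat_lit 7) (nat_lit 6) (nat_lit 7) (nat_lit 7) (nat_lit 122) (nat_lit 110) r7_122 r7_110 (nat_lit 0) (nat_lit 0) (nat_lit 0) (nat_lit 0x7df5730ada) (nat_lit 1001936520),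
  Rx.mk (nat_lit 511) (nat_lit 7) (nat_lit 7) (nat_lit 7) (nat_lit 7) (nat_lit 125) (nat_lit 105) r7_125 r7_105 (nat_lit 0) (nat_lit 0) (nat_lit 0) (nat_lit 0x7d9bc765ee) (nat_lit 1173870360)]
noncomputable def e24_25 : List Rx := [
  Rx.mk (nat_lit 292) (nat_lit 4) (nat_lit 4) (nat_lit 4) (nat_lit 0) (nat_lit 126) (nat_lit 126) r7_126 r7_126 (nat_lit 0) (nat_lit 0) (nat_lit 0) (nat_lit 0x57c45ec252) (nat_lit 19748470248),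
  Rx.mk (nat_lit 308) (nat_lit 4) (nat_lit 6) (nat_lit 4) (nat_lit 2) (nat_lit 129) (nat_lit 127) r7_129 r7_127 (nat_lit 0) (nat_lit 0) (nat_lit 0) (nat_lit 0x62d0065ccc) (nat_lit 14326736112),
  Rx.mk (nat_lit 310) (nat_lit 6) (nat_lit 6) (nat_lit 4) (nat_lit 3) (nat_lit 130) (nat_lit 128) r7_130 r7_128 (nat_lit 0) (nat_lit 0) (nat_lit 0) (nat_lit 0x7d8535af20) (nat_lit 1217144448),
  Rx.mk (nat_lit 438) (nat_lit 6) (nat_lit 6) (nat_lit 6) (nat_lit 7) (nat_lit 131) (nat_lit 132) r7_131 r7_132 (nat_lit 0) (nat_lit 0) (nat_lit 0) (nat_lit 0x7dc303320a) (nat_lit 1098644040),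
  Rx.mk (nat_lit 484) (nat_lit 4) (nat_lit 4) (nat_lit 7) (nat_lit 4) (nat_lit 127) (nat_lit 129) r7_127 r7_129 (nat_lit 0) (nat_lit 0) (nat_lit 0) (nat_lit 0x62d0065ccc) (nat_lit 14326736112),
  Rx.mk (nat_lit 487) (nat_lit 7) (nat_lit 4) (nat_lit 7) (nat_lit 5) (nat_lit 128) (nat_lit 130) r7_128 r7_130 (nat_lit 0) (nat_lit 0) (nat_lit 0) (nat_lit 0x7d8535af20) (nat_lit 1217144448),
  Rx.mk (nat_lit 511) (nat_lit 7) (nat_lit 7) (nat_lit 7) (nat_lit 7) (nat_lit 132) (nat_lit 131) r7_132 r7_131 (nat_lit 0) (nat_lit 0) (nat_lit 0) (nat_lit 0x7dc303320a) (nat_lit 1098644040)]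
noncomputable def e24_26 : List Rx := [
  Rx.mk (nat_lit 231) (nat_lit 7) (nat_lit 4) (nat_lit 3) (nat_lit 5) (nat_lit 150) (nat_lit 103) r7_150 r9_103 (nat_lit 0) (nat_lit 0) (nat_lit 0) (nat_lit 0x7df79428c6) (nat_lit 997853688),
  Rx.mk (nat_lit 251) (nat_lit 3) (nat_lit 7) (nat_lit 3) (nat_lit 7) (nat_lit 155) (nat_lit 105) r7_155 r9_105 (nat_lit 0) (nat_lit 0) (nat_lit 0) (nat_lit 0x7dcddbc476) (nat_lit 1077847992),
  Rx.mk (nat_lit 255) (nat_lit 7) (nat_lit 7) (nat_lit 3) (nat_lit 7) (nat_lit 156) (nat_lit 104) r7_156 r9_104 (nat_lit 0) (nat_lit 0) (nat_lit 0) (nat_lit 0x7dc2cfd540) (nat_lit 1099028736),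
  Rx.mk (nat_lit 484) (nat_lit 4) (nat_lit 4) (nat_lit 7) (nat_lit 4) (nat_lit 149) (nat_lit 101) r7_149 r9_101 (nat_lit 0) (nat_lit 0) (nat_lit 0) (nat_lit 0x697a4a51e2) (nat_lit 11055149352),
  Rx.mk (nat_lit 487) (nat_lit 7) (nat_lit 4) (nat_lit 7) (nat_lit 5) (nat_lit 151) (nat_lit 102) r7_151 r9_102 (nat_lit 0) (nat_lit 0) (nat_lit 0) (nat_lit 0x7d71a7281c) (nat_lit 1254642480),
  Rx.mk (nat_lit 500) (nat_lit 4) (nat_lit 6) (nat_lit 7) (nat_lit 6) (nat_lit 152) (nat_lit 106) r7_152 r9_106 (nat_lit 0) (nat_lit 0) (nat_lit 0) (nat_lit 0x7d98e3b42c) (nat_lit 1179410544),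
  Rx.mk (nat_lit 502) (nat_lit 6) (nat_lit 6) (nat_lit 7) (nat_lit 7) (nat_lit 153) (nat_lit 108) r7_153 r9_108 (nat_lit 0) (nat_lit 0) (nat_lit 0) (nat_lit 0x7dddb20702) (nat_lit 1047482280),
  Rx.mk (nat_lit 503) (nat_lit 7) (nat_lit 6) (nat_lit 7) (nat_lit 7) (nat_lit 154) (nat_lit 107) r7_154 r9_107 (nat_lit 0) (nat_lit 0) (nat_lit 0) (nat_lit 0x7df9b7868e) (nat_lit 993754008)]
noncomputable def e24_27 : List Rx := [
  Rx.mk (nat_lit 231) (nat_lit 7) (nat_lit 4) (nat_lit 3) (nat_lit 5) (nat_lit 157) (nat_lit 113) r7_157 r10_113 (nat_lit 0) (nat_lit 0) (nat_lit 0) (nat_lit 0x7dd4373eb8) (nat_lit 1065658464),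
  Rx.mk (nat_lit 255) (nat_lit 7) (nat_lit 7) (nat_lit 3) (nat_lit 7) (nat_lit 158) (nat_lit 114) r7_158 r10_114 (nat_lit 0) (nat_lit 0) (nat_lit 0) (nat_lit 0x7deba267ee) (nat_lit 1020755736)]
noncomputable def e24_28 : List Rx := [
  Rx.mk (nat_lit 111) (nat_lit 7) (nat_lit 5) (nat_lit 1) (nat_lit 7) (nat_lit 219) (nat_lit 344) r7_219 r10_344 (nat_lit 0) (nat_lit 0) (nat_lit 0) (nat_lit 0x7de8ed3344) (nat_lit 1025947728),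
  Rx.mk (nat_lit 367) (nat_lit 7) (nat_lit 5) (nat_lit 5) (nat_lit 7) (nat_lit 220) (nat_lit 343) r7_220 r10_343 (nat_lit 0) (nat_lit 0) (nat_lit 0) (nat_lit 0x7de0f07318) (nat_lit 1041262560)]
noncomputable def e24_29 : List Rx := [
  Rx.mk (nat_lit 43) (nat_lit 3) (nat_lit 5) (nat_lit 0) (nat_lit 3) (nat_lit 221) (nat_lit 207) r7_221 r5_207 (nat_lit 0) (nat_lit 0) (nat_lit 0) (nat_lit 0x7dbcf8b2b8) (nat_lit 1110227040),
  Rx.mk (nat_lit 107) (nat_lit 3) (nat_lit 5) (nat_lit 1) (nat_lit 7) (nat_lit 222) (nat_lit 208) r7_222 r5_208 (nat_lit 0) (nat_lit 0) (nat_lit 0) (nat_lit 0x7e020c013e) (nat_lit 977782104),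
  Rx.mk (nat_lit 235) (nat_lit 3) (nat_lit 5) (nat_lit 3) (nat_lit 7) (nat_lit 223) (nat_lit 209) r7_223 r5_209 (nat_lit 0) (nat_lit 0) (nat_lit 0) (nat_lit 0x7dedf682aa) (nat_lit 1016291016),
  Rx.mk (nat_lit 239) (nat_lit 7) (nat_lit 5) (nat_lit 3) (nat_lit 7) (nat_lit 224) (nat_lit 206) r7_224 r5_206 (nat_lit 0) (nat_lit 0) (nat_lit 0) (nat_lit 0x7dd520102a) (nat_lit 1063914696)]
noncomputable def e24_30 : List Rx := [
  Rx.mk (nat_lit 227) (nat_lit 3) (nat_lit 4) (nat_lit 3) (nat_lit 5) (nat_lit 206) (nat_lit 115) r7_206 r10_115 (nat_lit 0) (nat_lit 0) (nat_lit 0) (nat_lit 0x7d7cc21662) (nat_lit 1233349416),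
  Rx.mk (nat_lit 231) (nat_lit 7) (nat_lit 4) (nat_lit 3) (nat_lit 5) (nat_lit 207) (nat_lit 118) r7_207 r10_118 (nat_lit 0) (nat_lit 0) (nat_lit 0) (nat_lit 0x7dcad2f506) (nat_lit 1083666168),
  Rx.mk (nat_lit 235) (nat_lit 3) (nat_lit 5) (nat_lit 3) (nat_lit 7) (nat_lit 209) (nat_lit 116) r7_209 r10_116 (nat_lit 0) (nat_lit 0) (nat_lit 0) (nat_lit 0x7deb46eda6) (nat_lit 1021440888),
  Rx.mk (nat_lit 239) (nat_lit 7) (nat_lit 5) (nat_lit 3) (nat_lit 7) (nat_lit 210) (nat_lit 119) r7_210 r10_119 (nat_lit 0) (nat_lit 0) (nat_lit 0) (nat_lit 0x7de6733ae6) (nat_lit 1030696056),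
  Rx.mk (nat_lit 251) (nat_lit 3) (nat_lit 7) (nat_lit 3) (nat_lit 7) (nat_lit 213) (nat_lit 117) r7_213 r10_117 (nat_lit 0) (nat_lit 0) (nat_lit 0) (nat_lit 0x7df08459ca) (nat_lit 1011393864),
  Rx.mk (nat_lit 487) (nat_lit 7) (nat_lit 4) (nat_lit 7) (nat_lit 5) (nat_lit 208) (nat_lit 120) r7_208 r10_120 (nat_lit 0) (nat_lit 0) (nat_lit 0) (nat_lit 0x7da81b00a8) (nat_lit 1150235424),
  Rx.mk (nat_lit 495) (nat_lit 7) (nat_lit 5) (nat_lit 7) (nat_lit 7) (nat_lit 211) (nat_lit 121) r7_211 r10_121 (nat_lit 0) (nat_lit 0) (nat_lit 0) (nat_lit 0x7df45c7c44) (nat_lit 1004022864),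
  Rx.mk (nat_lit 503) (nat_lit 7) (nat_lit 6) (nat_lit 7) (nat_lit 7) (nat_lit 212) (nat_lit 122) r7_212 r10_122 (nat_lit 0) (nat_lit 0) (nat_lit 0) (nat_lit 0x7dd511d10e) (nat_lit 1064021400)]
noncomputable def e24_31 : List Rx := [
  Rx.mk (nat_lit 43) (nat_lit 3) (nat_lit 5) (nat_lit 0) (nat_lit 3) (nat_lit 214) (nat_lit 300) r7_214 r5_300 (nat_lit 0) (nat_lit 0) (nat_lit 0) (nat_lit 0x7de4c1160a) (nat_lit 1033947720),
  Rx.mk (nat_lit 47) (nat_lit 7) (nat_lit 5) (nat_lit 0) (nat_lit 3) (nat_lit 216) (nat_lit 301) r7_216 r5_301 (nat_lit 0) (nat_lit 0) (nat_lit 0) (nat_lit 0x7e615cebd0) (nat_lit 795023424),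
  Rx.mk (nat_lit 107) (nat_lit 3) (nat_lit 5) (nat_lit 1) (nat_lit 7) (nat_lit 215) (nat_lit 302) r7_215 r5_302 (nat_lit 0) (nat_lit 0) (nat_lit 0) (nat_lit 0x7dec1be056) (nat_lit 1019845944),
  Rx.mk (nat_lit 111) (nat_lit 7) (nat_lit 5) (nat_lit 1) (nat_lit 7) (nat_lit 217) (nat_lit 303) r7_217 r5_303 (nat_lit 0) (nat_lit 0) (nat_lit 0) (nat_lit 0x7defd5a4b6) (nat_lit 1012702392)]
noncomputable def e24_32 : List Rx := [
  Rx.mk (nat_lit 43) (nat_lit 3) (nat_lit 5) (nat_lit 0) (nat_lit 3) (nat_lit 225) (nat_lit 203) r7_225 r11_203 (nat_lit 0) (nat_lit 0) (nat_lit 0) (nat_lit 0x7da1c16648) (nat_lit 1162410912),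
  Rx.mk (nat_lit 47) (nat_lit 7) (nat_lit 5) (nat_lit 0) (nat_lit 3) (nat_lit 227) (nat_lit 205) r7_227 r11_205 (nat_lit 0) (nat_lit 0) (nat_lit 0) (nat_lit 0x7e01a8a774) (nat_lit 978526224),
  Rx.mk (nat_lit 107) (nat_lit 3) (nat_lit 5) (nat_lit 1) (nat_lit 7) (nat_lit 226) (nat_lit 204) r7_226 r11_204 (nat_lit 0) (nat_lit 0) (nat_lit 0) (nat_lit 0x7dc9a2e808) (nat_lit 1085943456),
  Rx.mk (nat_lit 111) (nat_lit 7) (nat_lit 5) (nat_lit 1) (nat_lit 7) (nat_lit 228) (nat_lit 206) r7_228 r11_206 (nat_lit 0) (nat_lit 0) (nat_lit 0) (nat_lit 0x7dddf522d0) (nat_lit 1046979648),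
  Rx.mk (nat_lit 239) (nat_lit 7) (nat_lit 5) (nat_lit 3) (nat_lit 7) (nat_lit 229) (nat_lit 207) r7_229 r11_207 (nat_lit 0) (nat_lit 0) (nat_lit 0) (nat_lit 0x7dcd9548de) (nat_lit 1078375896)]
noncomputable def e24_33 : List Rx := [
  Rx.mk (nat_lit 8) (nat_lit 0) (nat_lit 1) (nat_lit 0) (nat_lit 2) (nat_lit 241) (nat_lit 188) r7_241 r0_188 (nat_lit 0) (nat_lit 0) (nat_lit 0) (nat_lit 0x6c14ae090c) (nat_lit 9777416688),
  Rx.mk (nat_lit 11) (nat_lit 3) (nat_lit 1) (nat_lit 0) (nat_lit 3) (nat_lit 244) (nat_lit 191) r7_244 r0_191 (nat_lit 0) (nat_lit 0) (nat_lit 0) (nat_lit 0x7dd6cb7572) (nat_lit 1060713576),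
  Rx.mk (nat_lit 72) (nat_lit 0) (nat_lit 1) (nat_lit 1) (nat_lit 6) (nat_lit 242) (nat_lit 189) r7_242 r0_189 (nat_lit 0) (nat_lit 0) (nat_lit 0) (nat_lit 0x7d632fcfa0) (nat_lit 1282379904),
  Rx.mk (nat_lit 75) (nat_lit 3) (nat_lit 1) (nat_lit 1) (nat_lit 7) (nat_lit 245) (nat_lit 192) r7_245 r0_192 (nat_lit 0) (nat_lit 0) (nat_lit 0) (nat_lit 0x7df79428c6) (nat_lit 997853688),
  Rx.mk (nat_lit 136) (nat_lit 0) (nat_lit 1) (nat_lit 2) (nat_lit 6) (nat_lit 243) (nat_lit 190) r7_243 r0_190 (nat_lit 0) (nat_lit 0) (nat_lit 0) (nat_lit 0x7e4de063ac) (nat_lit 832386672),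
  Rx.mk (nat_lit 139) (nat_lit 3) (nat_lit 1) (nat_lit 2) (nat_lit 7) (nat_lit 246) (nat_lit 194) r7_246 r0_194 (nat_lit 0) (nat_lit 0) (nat_lit 0) (nat_lit 0x7de0607c18) (nat_lit 1042340832),
  Rx.mk (nat_lit 203) (nat_lit 3) (nat_lit 1) (nat_lit 3) (nat_lit 7) (nat_lit 247) (nat_lit 193) r7_247 r0_193 (nat_lit 0) (nat_lit 0) (nat_lit 0) (nat_lit 0x7de7422df6) (nat_lit 1029146040)]
noncomputable def e24_34 : List Rx := [
  Rx.mk (nat_lit 8) (nat_lit 0) (nat_lit 1) (nat_lit 0) (nat_lit 2) (nat_lit 230) (nat_lit 271) r7_230 r0_271 (nat_lit 0) (nat_lit 0) (nat_lit 0) (nat_lit 0x52675b77e4) (nat_lit 22381079760),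
  Rx.mk (nat_lit 9) (nat_lit 1) (nat_lit 1) (nat_lit 0) (nat_lit 3) (nat_lit 232) (nat_lit 272) r7_232 r0_272 (nat_lit 0) (nat_lit 0) (nat_lit 0) (nat_lit 0x77e11e9636) (nat_lit 3986037432),
  Rx.mk (nat_lit 11) (nat_lit 3) (nat_lit 1) (nat_lit 0) (nat_lit 3) (nat_lit 234) (nat_lit 273) r7_234 r0_273 (nat_lit 0) (nat_lit 0) (nat_lit 0) (nat_lit 0x7d448d19ea) (nat_lit 1341120456),
  Rx.mk (nat_lit 40) (nat_lit 0) (nat_lit 5) (nat_lit 0) (nat_lit 2) (nat_lit 237) (nat_lit 278) r7_237 r0_278 (nat_lit 0) (nat_lit 0) (nat_lit 0) (nat_lit 0x5c996eec7a) (nat_lit 17376530184),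
  Rx.mk (nat_lit 41) (nat_lit 1) (nat_lit 5) (nat_lit 0) (nat_lit 3) (nat_lit 239) (nat_lit 279) r7_239 r0_279 (nat_lit 0) (nat_lit 0) (nat_lit 0) (nat_lit 0x7c51f5245c) (nat_lit 1806268464),
  Rx.mk (nat_lit 72) (nat_lit 0) (nat_lit 1) (nat_lit 1) (nat_lit 6) (nat_lit 231) (nat_lit 274) r7_231 r0_274 (nat_lit 0) (nat_lit 0) (nat_lit 0) (nat_lit 0x7a2fb2caa4) (nat_lit 2853663696),
  Rx.mk (nat_lit 73) (nat_lit 1) (nat_lit 1) (nat_lit 1) (nat_lit 7) (nat_lit 233) (nat_lit 275) r7_233 r0_275 (nat_lit 0) (nat_lit 0) (nat_lit 0) (nat_lit 0x7d51c5c652) (nat_lit 1315769832),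
  Rx.mk (nat_lit 75) (nat_lit 3) (nat_lit 1) (nat_lit 1) (nat_lit 7) (nat_lit 235) (nat_lit 276) r7_235 r0_276 (nat_lit 0) (nat_lit 0) (nat_lit 0) (nat_lit 0x7df2301f0c) (nat_lit 1008189936),
  Rx.mk (nat_lit 104) (nat_lit 0) (nat_lit 5) (nat_lit 1) (nat_lit 6) (nat_lit 238) (nat_lit 280) r7_238 r0_280 (nat_lit 0) (nat_lit 0) (nat_lit 0) (nat_lit 0x7d503ebec4) (nat_lit 1318698576),
  Rx.mk (nat_lit 105) (nat_lit 1) (nat_lit 5) (nat_lit 1) (nat_lit 7) (nat_lit 240) (nat_lit 281) r7_240 r0_281 (nat_lit 0) (nat_lit 0) (nat_lit 0) (nat_lit 0x7df400a202) (nat_lit 1004710824),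
  Rx.mk (nat_lit 203) (nat_lit 3) (nat_lit 1) (nat_lit 3) (nat_lit 7) (nat_lit 236) (nat_lit 277) r7_236 r0_277 (nat_lit 0) (nat_lit 0) (nat_lit 0) (nat_lit 0x7df55c2c48) (nat_lit 1002107808)]
noncomputable def e24_35 : List Rx := [
  Rx.mk (nat_lit 8) (nat_lit 0) (nat_lit 1) (nat_lit 0) (nat_lit 2) (nat_lit 248) (nat_lit 246) r7_248 r6_246 (nat_lit 0) (nat_lit 0) (nat_lit 0) (nat_lit 0x66291d8800) (nat_lit 12683354112),
  Rx.mk (nat_lit 9) (nat_lit 1) (nat_lit 1) (nat_lit 0) (nat_lit 3) (nat_lit 251) (nat_lit 249) r7_251 r6_249 (nat_lit 0) (nat_lit 0) (nat_lit 0) (nat_lit 0x7d509b58fa) (nat_lit 1318005000),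
  Rx.mk (nat_lit 11) (nat_lit 3) (nat_lit 1) (nat_lit 0) (nat_lit 3) (nat_lit 254) (nat_lit 252) r7_254 r6_252 (nat_lit 0) (nat_lit 0) (nat_lit 0) (nat_lit 0x7dcd22900a) (nat_lit 1079235144),
  Rx.mk (nat_lit 72) (nat_lit 0) (nat_lit 1) (nat_lit 1) (nat_lit 6) (nat_lit 249) (nat_lit 247) r7_249 r6_247 (nat_lit 0) (nat_lit 0) (nat_lit 0) (nat_lit 0x7d55b76734) (nat_lit 1308207888),
  Rx.mk (nat_lit 73) (nat_lit 1) (nat_lit 1) (nat_lit 1) (nat_lit 7) (nat_lit 252) (nat_lit 250) r7_252 r6_250 (nat_lit 0) (nat_lit 0) (nat_lit 0) (nat_lit 0x7de766ebaa) (nat_lit 1028870856),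
  Rx.mk (nat_lit 75) (nat_lit 3) (nat_lit 1) (nat_lit 1) (nat_lit 7) (nat_lit 255) (nat_lit 253) r7_255 r6_253 (nat_lit 0) (nat_lit 0) (nat_lit 0) (nat_lit 0x7dc7720b18) (nat_lit 1090144224),
  Rx.mk (nat_lit 136) (nat_lit 0) (nat_lit 1) (nat_lit 2) (nat_lit 6) (nat_lit 250) (nat_lit 248) r7_250 r6_248 (nat_lit 0) (nat_lit 0) (nat_lit 0) (nat_lit 0x7d88d17560) (nat_lit 1210225536),
  Rx.mk (nat_lit 137) (nat_lit 1) (nat_lit 1) (nat_lit 2) (nat_lit 7) (nat_lit 253) (nat_lit 251) r7_253 r6_251 (nat_lit 0) (nat_lit 0) (nat_lit 0) (nat_lit 0x7dd5e5a3d0) (nat_lit 1062434880),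
  Rx.mk (nat_lit 203) (nat_lit 3) (nat_lit 1) (nat_lit 3) (nat_lit 7) (nat_lit 256) (nat_lit 254) r7_256 r6_254 (nat_lit 0) (nat_lit 0) (nat_lit 0) (nat_lit 0x7dee7e3a2e) (nat_lit 1015274520)]
noncomputable def e24_36 : List Rx := [
  Rx.mk (nat_lit 73) (nat_lit 1) (nat_lit 1) (nat_lit 1) (nat_lit 7) (nat_lit 320) (nat_lit 301) r7_320 r2_301 (nat_lit 0) (nat_lit 0) (nat_lit 0) (nat_lit 0x7de672daec) (nat_lit 1030698864),
  Rx.mk (nat_lit 105) (nat_lit 1) (nat_lit 5) (nat_lit 1) (nat_lit 7) (nat_lit 321) (nat_lit 302) r7_321 r2_302 (nat_lit 0) (nat_lit 0) (nat_lit 0) (nat_lit 0x7dd04e3d4c) (nat_lit 1073155824),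
  Rx.mk (nat_lit 109) (nat_lit 5) (nat_lit 5) (nat_lit 1) (nat_lit 7) (nat_lit 322) (nat_lit 303) r7_322 r2_303 (nat_lit 0) (nat_lit 0) (nat_lit 0) (nat_lit 0x7dacc2d626) (nat_lit 1141308792)]
noncomputable def e24_37 : List Rx := [
  Rx.mk (nat_lit 73) (nat_lit 1) (nat_lit 1) (nat_lit 1) (nat_lit 7) (nat_lit 326) (nat_lit 289) r7_326 r8_289 (nat_lit 0) (nat_lit 0) (nat_lit 0) (nat_lit 0x7df343add2) (nat_lit 1006126056)]
noncomputable def e24_38 : List Rx := [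
  Rx.mk (nat_lit 73) (nat_lit 1) (nat_lit 1) (nat_lit 1) (nat_lit 7) (nat_lit 327) (nat_lit 297) r7_327 r8_297 (nat_lit 0) (nat_lit 0) (nat_lit 0) (nat_lit 0x7de90d7140) (nat_lit 1025706240),
  Rx.mk (nat_lit 105) (nat_lit 1) (nat_lit 5) (nat_lit 1) (nat_lit 7) (nat_lit 328) (nat_lit 296) r7_328 r8_296 (nat_lit 0) (nat_lit 0) (nat_lit 0) (nat_lit 0x7dd57faa30) (nat_lit 1063198656),
  Rx.mk (nat_lit 109) (nat_lit 5) (nat_lit 5) (nat_lit 1) (nat_lit 7) (nat_lit 329) (nat_lit 295) r7_329 r8_295 (nat_lit 0) (nat_lit 0) (nat_lit 0) (nat_lit 0x7dafdd447c) (nat_lit 1135358640),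
  Rx.mk (nat_lit 365) (nat_lit 5) (nat_lit 5) (nat_lit 5) (nat_lit 7) (nat_lit 330) (nat_lit 294) r7_330 r8_294 (nat_lit 0) (nat_lit 0) (nat_lit 0) (nat_lit 0x7de241de00) (nat_lit 1038735360)]
noncomputable def e24_39 : List Rx := [
  Rx.mk (nat_lit 9) (nat_lit 1) (nat_lit 1) (nat_lit 0) (nat_lit 3) (nat_lit 316) (nat_lit 274) r7_316 r1_274 (nat_lit 0) (nat_lit 0) (nat_lit 0) (nat_lit 0x7a2aa01bd4) (nat_lit 2863390608),
  Rx.mk (nat_lit 41) (nat_lit 1) (nat_lit 5) (nat_lit 0) (nat_lit 3) (nat_lit 318) (nat_lit 276) r7_318 r1_276 (nat_lit 0) (nat_lit 0) (nat_lit 0) (nat_lit 0x7ba392eb2e) (nat_lit 2140631064),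
  Rx.mk (nat_lit 73) (nat_lit 1) (nat_lit 1) (nat_lit 1) (nat_lit 7) (nat_lit 317) (nat_lit 275) r7_317 r1_275 (nat_lit 0) (nat_lit 0) (nat_lit 0) (nat_lit 0x7dab10b14a) (nat_lit 1144560456),
  Rx.mk (nat_lit 105) (nat_lit 1) (nat_lit 5) (nat_lit 1) (nat_lit 7) (nat_lit 319) (nat_lit 277) r7_319 r1_277 (nat_lit 0) (nat_lit 0) (nat_lit 0) (nat_lit 0x7de06f7b28) (nat_lit 1042228512)]
noncomputable def e24_40 : List Rx := [
  Rx.mk (nat_lit 9) (nat_lit 1) (nat_lit 1) (nat_lit 0) (nat_lit 3) (nat_lit 323) (nat_lit 191) r7_323 r7_191 (nat_lit 0) (nat_lit 0) (nat_lit 0) (nat_lit 0x7cf1f683a6) (nat_lit 1499474808),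
  Rx.mk (nat_lit 73) (nat_lit 1) (nat_lit 1) (nat_lit 1) (nat_lit 7) (nat_lit 324) (nat_lit 192) r7_324 r7_192 (nat_lit 0) (nat_lit 0) (nat_lit 0) (nat_lit 0x7dd911b10c) (nat_lit 1056352752),
  Rx.mk (nat_lit 137) (nat_lit 1) (nat_lit 1) (nat_lit 2) (nat_lit 7) (nat_lit 325) (nat_lit 193) r7_325 r7_193 (nat_lit 0) (nat_lit 0) (nat_lit 0) (nat_lit 0x7ddc447ddc) (nat_lit 1050220080)]
noncomputable def e24_41 : List Rx := [
  Rx.mk (nat_lit 0) (nat_lit 0) (nat_lit 0) (nat_lit 0) (nat_lit 0) (nat_lit 283) (nat_lit 201) r7_283 r1_201 (nat_lit 0) (nat_lit 0) (nat_lit 0) (nat_lit 0x34358c330c) (nat_lit 37202186736),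
  Rx.mk (nat_lit 3) (nat_lit 3) (nat_lit 0) (nat_lit 0) (nat_lit 1) (nat_lit 286) (nat_lit 206) r7_286 r1_206 (nat_lit 0) (nat_lit 0) (nat_lit 0) (nat_lit 0x6ddf3cfe52) (nat_lit 8898178536),
  Rx.mk (nat_lit 8) (nat_lit 0) (nat_lit 1) (nat_lit 0) (nat_lit 2) (nat_lit 289) (nat_lit 202) r7_289 r1_202 (nat_lit 0) (nat_lit 0) (nat_lit 0) (nat_lit 0x694567a042) (nat_lit 11156551848),
  Rx.mk (nat_lit 11) (nat_lit 3) (nat_lit 1) (nat_lit 0) (nat_lit 3) (nat_lit 293) (nat_lit 207) r7_293 r1_207 (nat_lit 0) (nat_lit 0) (nat_lit 0) (nat_lit 0x7c8fc726fe) (nat_lit 1687734360),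
  Rx.mk (nat_lit 72) (nat_lit 0) (nat_lit 1) (nat_lit 1) (nat_lit 6) (nat_lit 290) (nat_lit 203) r7_290 r1_203 (nat_lit 0) (nat_lit 0) (nat_lit 0) (nat_lit 0x7d333feece) (nat_lit 1374294168),
  Rx.mk (nat_lit 75) (nat_lit 3) (nat_lit 1) (nat_lit 1) (nat_lit 7) (nat_lit 294) (nat_lit 208) r7_294 r1_208 (nat_lit 0) (nat_lit 0) (nat_lit 0) (nat_lit 0x7db7bde66a) (nat_lit 1120254408),
  Rx.mk (nat_lit 128) (nat_lit 0) (nat_lit 0) (nat_lit 2) (nat_lit 4) (nat_lit 284) (nat_lit 204) r7_284 r1_204 (nat_lit 0) (nat_lit 0) (nat_lit 0) (nat_lit 0x689c4c929c) (nat_lit 11480794416),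
  Rx.mk (nat_lit 130) (nat_lit 2) (nat_lit 0) (nat_lit 2) (nat_lit 5) (nat_lit 285) (nat_lit 214) r7_285 r1_214 (nat_lit 0) (nat_lit 0) (nat_lit 0) (nat_lit 0x5d3c3f5ed0) (nat_lit 17064350784),
  Rx.mk (nat_lit 131) (nat_lit 3) (nat_lit 0) (nat_lit 2) (nat_lit 5) (nat_lit 287) (nat_lit 212) r7_287 r1_212 (nat_lit 0) (nat_lit 0) (nat_lit 0) (nat_lit 0x7db4c29622) (nat_lit 1125971496),
  Rx.mk (nat_lit 136) (nat_lit 0) (nat_lit 1) (nat_lit 2) (nat_lit 6) (nat_lit 291) (nat_lit 205) r7_291 r1_205 (nat_lit 0) (nat_lit 0) (nat_lit 0) (nat_lit 0x7d4016c154) (nat_lit 1349676432),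
  Rx.mk (nat_lit 138) (nat_lit 2) (nat_lit 1) (nat_lit 2) (nat_lit 7) (nat_lit 292) (nat_lit 215) r7_292 r1_215 (nat_lit 0) (nat_lit 0) (nat_lit 0) (nat_lit 0x7c3cb238a0) (nat_lit 1847035008),
  Rx.mk (nat_lit 139) (nat_lit 3) (nat_lit 1) (nat_lit 2) (nat_lit 7) (nat_lit 295) (nat_lit 213) r7_295 r1_213 (nat_lit 0) (nat_lit 0) (nat_lit 0) (nat_lit 0x7db90e3164) (nat_lit 1117735632),
  Rx.mk (nat_lit 146) (nat_lit 2) (nat_lit 2) (nat_lit 2) (nat_lit 7) (nat_lit 297) (nat_lit 216) r7_297 r1_216 (nat_lit 0) (nat_lit 0) (nat_lit 0) (nat_lit 0x78ed89ae78) (nat_lit 3471373152),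
  Rx.mk (nat_lit 195) (nat_lit 3) (nat_lit 0) (nat_lit 3) (nat_lit 5) (nat_lit 288) (nat_lit 209) r7_288 r1_209 (nat_lit 0) (nat_lit 0) (nat_lit 0) (nat_lit 0x7de4743ad8) (nat_lit 1034523360),
  Rx.mk (nat_lit 203) (nat_lit 3) (nat_lit 1) (nat_lit 3) (nat_lit 7) (nat_lit 296) (nat_lit 210) r7_296 r1_210 (nat_lit 0) (nat_lit 0) (nat_lit 0) (nat_lit 0x7dd2f1d310) (nat_lit 1068095808),
  Rx.mk (nat_lit 219) (nat_lit 3) (nat_lit 3) (nat_lit 3) (nat_lit 7) (nat_lit 298) (nat_lit 211) r7_298 r1_211 (nat_lit 0) (nat_lit 0) (nat_lit 0) (nat_lit 0x7deaa7f796) (nat_lit 1022631480)]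
noncomputable def e24_42 : List Rx := [
  Rx.mk (nat_lit 0) (nat_lit 0) (nat_lit 0) (nat_lit 0) (nat_lit 0) (nat_lit 257) (nat_lit 221) r7_257 r2_221 (nat_lit 0) (nat_lit 0) (nat_lit 0) (nat_lit 0x1e5f4facac) (nat_lit 47920884336),
  Rx.mk (nat_lit 3) (nat_lit 3) (nat_lit 0) (nat_lit 0) (nat_lit 1) (nat_lit 260) (nat_lit 223) r7_260 r2_223 (nat_lit 0) (nat_lit 0) (nat_lit 0) (nat_lit 0x69fe864d9e) (nat_lit 10801603800),
  Rx.mk (nat_lit 27) (nat_lit 3) (nat_lit 3) (nat_lit 0) (nat_lit 3) (nat_lit 263) (nat_lit 224) r7_263 r2_224 (nat_lit 0) (nat_lit 0) (nat_lit 0) (nat_lit 0x7cb4d0f63c) (nat_lit 1616717232),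
  Rx.mk (nat_lit 128) (nat_lit 0) (nat_lit 0) (nat_lit 2) (nat_lit 4) (nat_lit 258) (nat_lit 222) r7_258 r2_222 (nat_lit 0) (nat_lit 0) (nat_lit 0) (nat_lit 0x645245d752) (nat_lit 13586145768),
  Rx.mk (nat_lit 130) (nat_lit 2) (nat_lit 0) (nat_lit 2) (nat_lit 5) (nat_lit 259) (nat_lit 228) r7_259 r2_228 (nat_lit 0) (nat_lit 0) (nat_lit 0) (nat_lit 0x7d4b54ed66) (nat_lit 1328119416),
  Rx.mk (nat_lit 131) (nat_lit 3) (nat_lit 0) (nat_lit 2) (nat_lit 5) (nat_lit 261) (nat_lit 226) r7_261 r2_226 (nat_lit 0) (nat_lit 0) (nat_lit 0) (nat_lit 0x7d878d89a0) (nat_lit 1212651648),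
  Rx.mk (nat_lit 146) (nat_lit 2) (nat_lit 2) (nat_lit 2) (nat_lit 7) (nat_lit 262) (nat_lit 229) r7_262 r2_229 (nat_lit 0) (nat_lit 0) (nat_lit 0) (nat_lit 0x7dbed954ac) (nat_lit 1106627184),
  Rx.mk (nat_lit 155) (nat_lit 3) (nat_lit 3) (nat_lit 2) (nat_lit 7) (nat_lit 264) (nat_lit 227) r7_264 r2_227 (nat_lit 0) (nat_lit 0) (nat_lit 0) (nat_lit 0x7dbd458dea) (nat_lit 1109651400),
  Rx.mk (nat_lit 219) (nat_lit 3) (nat_lit 3) (nat_lit 3) (nat_lit 7) (nat_lit 265) (nat_lit 225) r7_265 r2_225 (nat_lit 0) (nat_lit 0) (nat_lit 0) (nat_lit 0x7dc01560ea) (nat_lit 1104260040)]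
noncomputable def e24_43 : List Rx := [
  Rx.mk (nat_lit 0) (nat_lit 0) (nat_lit 0) (nat_lit 0) (nat_lit 0) (nat_lit 299) (nat_lit 299) r7_299 r7_299 (nat_lit 0) (nat_lit 0) (nat_lit 0) (nat_lit 0x4a170bc530) (nat_lit 26461895616),
  Rx.mk (nat_lit 3) (nat_lit 3) (nat_lit 0) (nat_lit 0) (nat_lit 1) (nat_lit 302) (nat_lit 300) r7_302 r7_300 (nat_lit 0) (nat_lit 0) (nat_lit 0) (nat_lit 0x71bb073dd2) (nat_lit 7004193768),
  Rx.mk (nat_lit 8) (nat_lit 0) (nat_lit 1) (nat_lit 0) (nat_lit 2) (nat_lit 304) (nat_lit 304) r7_304 r7_304 (nat_lit 0) (nat_lit 0) (nat_lit 0) (nat_lit 0x7813e3e9ae) (nat_lit 3888689688),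
  Rx.mk (nat_lit 9) (nat_lit 1) (nat_lit 1) (nat_lit 0) (nat_lit 3) (nat_lit 307) (nat_lit 305) r7_307 r7_305 (nat_lit 0) (nat_lit 0) (nat_lit 0) (nat_lit 0x7daee1543c) (nat_lit 1137245616),
  Rx.mk (nat_lit 11) (nat_lit 3) (nat_lit 1) (nat_lit 0) (nat_lit 3) (nat_lit 311) (nat_lit 306) r7_311 r7_306 (nat_lit 0) (nat_lit 0) (nat_lit 0) (nat_lit 0x7dcd630c02) (nat_lit 1078752168),
  Rx.mk (nat_lit 72) (nat_lit 0) (nat_lit 1) (nat_lit 1) (nat_lit 6) (nat_lit 305) (nat_lit 307) r7_305 r7_307 (nat_lit 0) (nat_lit 0) (nat_lit 0) (nat_lit 0x7daee1543c) (nat_lit 1137245616),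
  Rx.mk (nat_lit 73) (nat_lit 1) (nat_lit 1) (nat_lit 1) (nat_lit 7) (nat_lit 308) (nat_lit 308) r7_308 r7_308 (nat_lit 0) (nat_lit 0) (nat_lit 0) (nat_lit 0x7df2d1b4f2) (nat_lit 1006979688),
  Rx.mk (nat_lit 75) (nat_lit 3) (nat_lit 1) (nat_lit 1) (nat_lit 7) (nat_lit 312) (nat_lit 309) r7_312 r7_309 (nat_lit 0) (nat_lit 0) (nat_lit 0) (nat_lit 0x7dd44e1d4a) (nat_lit 1065487176),
  Rx.mk (nat_lit 128) (nat_lit 0) (nat_lit 0) (nat_lit 2) (nat_lit 4) (nat_lit 300) (nat_lit 302) r7_300 r7_302 (nat_lit 0) (nat_lit 0) (nat_lit 0) (nat_lit 0x71bb073dd2) (nat_lit 7004193768),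
  Rx.mk (nat_lit 130) (nat_lit 2) (nat_lit 0) (nat_lit 2) (nat_lit 5) (nat_lit 301) (nat_lit 303) r7_301 r7_303 (nat_lit 0) (nat_lit 0) (nat_lit 0) (nat_lit 0x7da575eafc) (nat_lit 1155306672),
  Rx.mk (nat_lit 136) (nat_lit 0) (nat_lit 1) (nat_lit 2) (nat_lit 6) (nat_lit 306) (nat_lit 311) r7_306 r7_311 (nat_lit 0) (nat_lit 0) (nat_lit 0) (nat_lit 0x7dcd630c02) (nat_lit 1078752168),
  Rx.mk (nat_lit 137) (nat_lit 1) (nat_lit 1) (nat_lit 2) (nat_lit 7) (nat_lit 309) (nat_lit 312) r7_309 r7_312 (nat_lit 0) (nat_lit 0) (nat_lit 0) (nat_lit 0x7dd44e1d4a) (nat_lit 1065487176),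
  Rx.mk (nat_lit 138) (nat_lit 2) (nat_lit 1) (nat_lit 2) (nat_lit 7) (nat_lit 310) (nat_lit 313) r7_310 r7_313 (nat_lit 0) (nat_lit 0) (nat_lit 0) (nat_lit 0x7dd446fdbc) (nat_lit 1065540528),
  Rx.mk (nat_lit 146) (nat_lit 2) (nat_lit 2) (nat_lit 2) (nat_lit 7) (nat_lit 314) (nat_lit 315) r7_314 r7_315 (nat_lit 0) (nat_lit 0) (nat_lit 0) (nat_lit 0x7df79428c6) (nat_lit 997853688),
  Rx.mk (nat_lit 195) (nat_lit 3) (nat_lit 0) (nat_lit 3) (nat_lit 5) (nat_lit 303) (nat_lit 301) r7_303 r7_301 (nat_lit 0) (nat_lit 0) (nat_lit 0) (nat_lit 0x7da575eafc) (nat_lit 1155306672),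
  Rx.mk (nat_lit 203) (nat_lit 3) (nat_lit 1) (nat_lit 3) (nat_lit 7) (nat_lit 313) (nat_lit 310) r7_313 r7_310 (nat_lit 0) (nat_lit 0) (nat_lit 0) (nat_lit 0x7dd446fdbc) (nat_lit 1065540528),
  Rx.mk (nat_lit 219) (nat_lit 3) (nat_lit 3) (nat_lit 3) (nat_lit 7) (nat_lit 315) (nat_lit 314) r7_315 r7_314 (nat_lit 0) (nat_lit 0) (nat_lit 0) (nat_lit 0x7df79428c6) (nat_lit 997853688)]
noncomputable def e24_44 : List Rx := [
  Rx.mk (nat_lit 0) (nat_lit 0) (nat_lit 0) (nat_lit 0) (nat_lit 0) (nat_lit 266) (nat_lit 202) r7_266 r8_202 (nat_lit 0) (nat_lit 0) (nat_lit 0) (nat_lit 0x2a267bae24) (nat_lit 42139605456),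
  Rx.mk (nat_lit 3) (nat_lit 3) (nat_lit 0) (nat_lit 0) (nat_lit 1) (nat_lit 269) (nat_lit 204) r7_269 r8_204 (nat_lit 0) (nat_lit 0) (nat_lit 0) (nat_lit 0x795a3b62f0) (nat_lit 3262963392),
  Rx.mk (nat_lit 27) (nat_lit 3) (nat_lit 3) (nat_lit 0) (nat_lit 3) (nat_lit 271) (nat_lit 205) r7_271 r8_205 (nat_lit 0) (nat_lit 0) (nat_lit 0) (nat_lit 0x7d7fa68818) (nat_lit 1227803616),
  Rx.mk (nat_lit 128) (nat_lit 0) (nat_lit 0) (nat_lit 2) (nat_lit 4) (nat_lit 267) (nat_lit 203) r7_267 r8_203 (nat_lit 0) (nat_lit 0) (nat_lit 0) (nat_lit 0x6f84370d0c) (nat_lit 8090999280),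
  Rx.mk (nat_lit 130) (nat_lit 2) (nat_lit 0) (nat_lit 2) (nat_lit 5) (nat_lit 268) (nat_lit 207) r7_268 r8_207 (nat_lit 0) (nat_lit 0) (nat_lit 0) (nat_lit 0x7d6bde44b0) (nat_lit 1265734080),
  Rx.mk (nat_lit 146) (nat_lit 2) (nat_lit 2) (nat_lit 2) (nat_lit 7) (nat_lit 270) (nat_lit 208) r7_270 r8_208 (nat_lit 0) (nat_lit 0) (nat_lit 0) (nat_lit 0x7dd1cb257c) (nat_lit 1070302896),
  Rx.mk (nat_lit 219) (nat_lit 3) (nat_lit 3) (nat_lit 3) (nat_lit 7) (nat_lit 272) (nat_lit 206) r7_272 r8_206 (nat_lit 0) (nat_lit 0) (nat_lit 0) (nat_lit 0x7dcfdbe472) (nat_lit 1074012264)]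
noncomputable def e24_45 : List Rx := [
  Rx.mk (nat_lit 0) (nat_lit 0) (nat_lit 0) (nat_lit 0) (nat_lit 0) (nat_lit 273) (nat_lit 99) r7_273 r8_99 (nat_lit 0) (nat_lit 0) (nat_lit 0) (nat_lit 0x5e013b8ec) (nat_lit 59945324400),
  Rx.mk (nat_lit 3) (nat_lit 3) (nat_lit 0) (nat_lit 0) (nat_lit 1) (nat_lit 276) (nat_lit 100) r7_276 r8_100 (nat_lit 0) (nat_lit 0) (nat_lit 0) (nat_lit 0x70d5b03428) (nat_lit 7443929376),
  Rx.mk (nat_lit 27) (nat_lit 3) (nat_lit 3) (nat_lit 0) (nat_lit 3) (nat_lit 280) (nat_lit 101) r7_280 r8_101 (nat_lit 0) (nat_lit 0) (nat_lit 0) (nat_lit 0x7cfa07e288) (nat_lit 1484005536),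
  Rx.mk (nat_lit 128) (nat_lit 0) (nat_lit 0) (nat_lit 2) (nat_lit 4) (nat_lit 274) (nat_lit 103) r7_274 r8_103 (nat_lit 0) (nat_lit 0) (nat_lit 0) (nat_lit 0x6e391d1ff6) (nat_lit 8725851576),
  Rx.mk (nat_lit 130) (nat_lit 2) (nat_lit 0) (nat_lit 2) (nat_lit 5) (nat_lit 275) (nat_lit 106) r7_275 r8_106 (nat_lit 0) (nat_lit 0) (nat_lit 0) (nat_lit 0x7cf6673c96) (nat_lit 1490960952),
  Rx.mk (nat_lit 131) (nat_lit 3) (nat_lit 0) (nat_lit 2) (nat_lit 5) (nat_lit 277) (nat_lit 104) r7_277 r8_104 (nat_lit 0) (nat_lit 0) (nat_lit 0) (nat_lit 0x7da28699f4) (nat_lit 1160933904),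
  Rx.mk (nat_lit 146) (nat_lit 2) (nat_lit 2) (nat_lit 2) (nat_lit 7) (nat_lit 278) (nat_lit 107) r7_278 r8_107 (nat_lit 0) (nat_lit 0) (nat_lit 0) (nat_lit 0x7dcea1581c) (nat_lit 1076368176),
  Rx.mk (nat_lit 155) (nat_lit 3) (nat_lit 3) (nat_lit 2) (nat_lit 7) (nat_lit 281) (nat_lit 105) r7_281 r8_105 (nat_lit 0) (nat_lit 0) (nat_lit 0) (nat_lit 0x7df1f9c272) (nat_lit 1008597096),
  Rx.mk (nat_lit 219) (nat_lit 3) (nat_lit 3) (nat_lit 3) (nat_lit 7) (nat_lit 282) (nat_lit 102) r7_282 r8_102 (nat_lit 0) (nat_lit 0) (nat_lit 0) (nat_lit 0x7dc4f5d2de) (nat_lit 1094909400),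
  Rx.mk (nat_lit 402) (nat_lit 2) (nat_lit 2) (nat_lit 6) (nat_lit 7) (nat_lit 279) (nat_lit 108) r7_279 r8_108 (nat_lit 0) (nat_lit 0) (nat_lit 0) (nat_lit 0x7de4ad9742) (nat_lit 1034093736)]
noncomputable def e24_46 : List Rx := [
  Rx.mk (nat_lit 11) (nat_lit 3) (nat_lit 1) (nat_lit 0) (nat_lit 3) (nat_lit 351) (nat_lit 177) r7_351 r4_177 (nat_lit 0) (nat_lit 0) (nat_lit 0) (nat_lit 0x7dec271fa2) (nat_lit 1019761704),
  Rx.mk (nat_lit 75) (nat_lit 3) (nat_lit 1) (nat_lit 1) (nat_lit 7) (nat_lit 352) (nat_lit 178) r7_352 r4_178 (nat_lit 0) (nat_lit 0) (nat_lit 0) (nat_lit 0x7de75b4c64) (nat_lit 1028957904),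
  Rx.mk (nat_lit 139) (nat_lit 3) (nat_lit 1) (nat_lit 2) (nat_lit 7) (nat_lit 353) (nat_lit 180) r7_353 r4_180 (nat_lit 0) (nat_lit 0) (nat_lit 0) (nat_lit 0x7de78789a0) (nat_lit 1028626560),
  Rx.mk (nat_lit 203) (nat_lit 3) (nat_lit 1) (nat_lit 3) (nat_lit 7) (nat_lit 354) (nat_lit 179) r7_354 r4_179 (nat_lit 0) (nat_lit 0) (nat_lit 0) (nat_lit 0x7ddcf03320) (nat_lit 1048934016)]
noncomputable def e24_47 : List Rx := [
  Rx.mk (nat_lit 11) (nat_lit 3) (nat_lit 1) (nat_lit 0) (nat_lit 3) (nat_lit 338) (nat_lit 284) r7_338 r4_284 (nat_lit 0) (nat_lit 0) (nat_lit 0) (nat_lit 0x7d63fb62e6) (nat_lit 1280855160),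
  Rx.mk (nat_lit 40) (nat_lit 0) (nat_lit 5) (nat_lit 0) (nat_lit 2) (nat_lit 341) (nat_lit 287) r7_341 r4_287 (nat_lit 0) (nat_lit 0) (nat_lit 0) (nat_lit 0x5c57ff43b6) (nat_lit 17501997240),
  Rx.mk (nat_lit 41) (nat_lit 1) (nat_lit 5) (nat_lit 0) (nat_lit 3) (nat_lit 343) (nat_lit 288) r7_343 r4_288 (nat_lit 0) (nat_lit 0) (nat_lit 0) (nat_lit 0x7d836d6ba6) (nat_lit 1220561784),
  Rx.mk (nat_lit 43) (nat_lit 3) (nat_lit 5) (nat_lit 0) (nat_lit 3) (nat_lit 345) (nat_lit 289) r7_345 r4_289 (nat_lit 0) (nat_lit 0) (nat_lit 0) (nat_lit 0x7d43fd22ea) (nat_lit 1342198728),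
  Rx.mk (nat_lit 75) (nat_lit 3) (nat_lit 1) (nat_lit 1) (nat_lit 7) (nat_lit 339) (nat_lit 285) r7_339 r4_285 (nat_lit 0) (nat_lit 0) (nat_lit 0) (nat_lit 0x7de0ae173e) (nat_lit 1041759576),
  Rx.mk (nat_lit 104) (nat_lit 0) (nat_lit 5) (nat_lit 1) (nat_lit 6) (nat_lit 342) (nat_lit 290) r7_342 r4_290 (nat_lit 0) (nat_lit 0) (nat_lit 0) (nat_lit 0x7d03f443b8) (nat_lit 1464978528),
  Rx.mk (nat_lit 105) (nat_lit 1) (nat_lit 5) (nat_lit 1) (nat_lit 7) (nat_lit 344) (nat_lit 291) r7_344 r4_291 (nat_lit 0) (nat_lit 0) (nat_lit 0) (nat_lit 0x7df0f9b274) (nat_lit 1010514960),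
  Rx.mk (nat_lit 107) (nat_lit 3) (nat_lit 5) (nat_lit 1) (nat_lit 7) (nat_lit 346) (nat_lit 292) r7_346 r4_292 (nat_lit 0) (nat_lit 0) (nat_lit 0) (nat_lit 0x7de07e1a3e) (nat_lit 1042119000),
  Rx.mk (nat_lit 203) (nat_lit 3) (nat_lit 1) (nat_lit 3) (nat_lit 7) (nat_lit 340) (nat_lit 286) r7_340 r4_286 (nat_lit 0) (nat_lit 0) (nat_lit 0) (nat_lit 0x7dec75dab6) (nat_lit 1019172024)]
noncomputable def e24_48 : List Rx := [
  Rx.mk (nat_lit 11) (nat_lit 3) (nat_lit 1) (nat_lit 0) (nat_lit 3) (nat_lit 355) (nat_lit 195) r7_355 r9_195 (nat_lit 0) (nat_lit 0) (nat_lit 0) (nat_lit 0x7d5b2fafaa) (nat_lit 1297720008),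
  Rx.mk (nat_lit 75) (nat_lit 3) (nat_lit 1) (nat_lit 1) (nat_lit 7) (nat_lit 356) (nat_lit 196) r7_356 r9_196 (nat_lit 0) (nat_lit 0) (nat_lit 0) (nat_lit 0x7db8a35812) (nat_lit 1118535912),
  Rx.mk (nat_lit 203) (nat_lit 3) (nat_lit 1) (nat_lit 3) (nat_lit 7) (nat_lit 357) (nat_lit 197) r7_357 r9_197 (nat_lit 0) (nat_lit 0) (nat_lit 0) (nat_lit 0x7ded4a0d72) (nat_lit 1017582696)]
noncomputable def e24_49 : List Rx := [
  Rx.mk (nat_lit 40) (nat_lit 0) (nat_lit 5) (nat_lit 0) (nat_lit 2) (nat_lit 368) (nat_lit 222) r7_368 r10_222 (nat_lit 0) (nat_lit 0) (nat_lit 0) (nat_lit 0x6dd2a647ca) (nat_lit 8922316104),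
  Rx.mk (nat_lit 41) (nat_lit 1) (nat_lit 5) (nat_lit 0) (nat_lit 3) (nat_lit 370) (nat_lit 224) r7_370 r10_224 (nat_lit 0) (nat_lit 0) (nat_lit 0) (nat_lit 0x7dd5e543d6) (nat_lit 1062437688),
  Rx.mk (nat_lit 43) (nat_lit 3) (nat_lit 5) (nat_lit 0) (nat_lit 3) (nat_lit 372) (nat_lit 226) r7_372 r10_226 (nat_lit 0) (nat_lit 0) (nat_lit 0) (nat_lit 0x7d483d1ee6) (nat_lit 1334049912),
  Rx.mk (nat_lit 104) (nat_lit 0) (nat_lit 5) (nat_lit 1) (nat_lit 6) (nat_lit 369) (nat_lit 223) r7_369 r10_223 (nat_lit 0) (nat_lit 0) (nat_lit 0) (nat_lit 0x7dce8599d8) (nat_lit 1076575968),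
  Rx.mk (nat_lit 105) (nat_lit 1) (nat_lit 5) (nat_lit 1) (nat_lit 7) (nat_lit 371) (nat_lit 225) r7_371 r10_225 (nat_lit 0) (nat_lit 0) (nat_lit 0) (nat_lit 0x7df118d082) (nat_lit 1010281896),
  Rx.mk (nat_lit 107) (nat_lit 3) (nat_lit 5) (nat_lit 1) (nat_lit 7) (nat_lit 373) (nat_lit 227) r7_373 r10_227 (nat_lit 0) (nat_lit 0) (nat_lit 0) (nat_lit 0x7df32a2f6a) (nat_lit 1006317000),
  Rx.mk (nat_lit 203) (nat_lit 3) (nat_lit 1) (nat_lit 3) (nat_lit 7) (nat_lit 367) (nat_lit 229) r7_367 r10_229 (nat_lit 0) (nat_lit 0) (nat_lit 0) (nat_lit 0x7ddf1c9058) (nat_lit 1044766944),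
  Rx.mk (nat_lit 235) (nat_lit 3) (nat_lit 5) (nat_lit 3) (nat_lit 7) (nat_lit 374) (nat_lit 228) r7_374 r10_228 (nat_lit 0) (nat_lit 0) (nat_lit 0) (nat_lit 0x7de7266fb2) (nat_lit 1029353832)]
noncomputable def e24_50 : List Rx := [
  Rx.mk (nat_lit 11) (nat_lit 3) (nat_lit 1) (nat_lit 0) (nat_lit 3) (nat_lit 358) (nat_lit 335) r7_358 r10_335 (nat_lit 0) (nat_lit 0) (nat_lit 0) (nat_lit 0x7de88259f2) (nat_lit 1026748008),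
  Rx.mk (nat_lit 75) (nat_lit 3) (nat_lit 1) (nat_lit 1) (nat_lit 7) (nat_lit 359) (nat_lit 336) r7_359 r10_336 (nat_lit 0) (nat_lit 0) (nat_lit 0) (nat_lit 0x7de822bfec) (nat_lit 1027464048),
  Rx.mk (nat_lit 139) (nat_lit 3) (nat_lit 1) (nat_lit 2) (nat_lit 7) (nat_lit 360) (nat_lit 337) r7_360 r10_337 (nat_lit 0) (nat_lit 0) (nat_lit 0) (nat_lit 0x7df139ce72) (nat_lit 1010034792)]
noncomputable def e24_51 : List Rx := [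
  Rx.mk (nat_lit 108) (nat_lit 4) (nat_lit 5) (nat_lit 1) (nat_lit 6) (nat_lit 74) (nat_lit 189) r7_74 r12_189 (nat_lit 0) (nat_lit 0) (nat_lit 0) (nat_lit 0x7dea1aa06c) (nat_lit 1023690096),
  Rx.mk (nat_lit 111) (nat_lit 7) (nat_lit 5) (nat_lit 1) (nat_lit 7) (nat_lit 75) (nat_lit 190) r7_75 r12_190 (nat_lit 0) (nat_lit 0) (nat_lit 0) (nat_lit 0x7e3b884940) (nat_lit 867559680)]
noncomputable def e24_52 : List Rx := [
  Rx.mk (nat_lit 231) (nat_lit 7) (nat_lit 4) (nat_lit 3) (nat_lit 5) (nat_lit 58) (nat_lit 115) r7_58 r12_115 (nat_lit 0) (nat_lit 0) (nat_lit 0) (nat_lit 0x7e3efef1d2) (nat_lit 860918760),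
  Rx.mk (nat_lit 239) (nat_lit 7) (nat_lit 5) (nat_lit 3) (nat_lit 7) (nat_lit 59) (nat_lit 116) r7_59 r12_116 (nat_lit 0) (nat_lit 0) (nat_lit 0) (nat_lit 0x7e2750acce) (nat_lit 906324120),
  Rx.mk (nat_lit 255) (nat_lit 7) (nat_lit 7) (nat_lit 3) (nat_lit 7) (nat_lit 60) (nat_lit 117) r7_60 r12_117 (nat_lit 0) (nat_lit 0) (nat_lit 0) (nat_lit 0x7de1ad6748) (nat_lit 1039847328)]
noncomputable def e24_53 : List Rx := [
  Rx.mk (nat_lit 111) (nat_lit 7) (nat_lit 5) (nat_lit 1) (nat_lit 7) (nat_lit 218) (nat_lit 285) r7_218 r12_285 (nat_lit 0) (nat_lit 0) (nat_lit 0) (nat_lit 0x7e67fac1ec) (nat_lit 782336880)]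
noncomputable def e24_54 : List Rx := [
  Rx.mk (nat_lit 227) (nat_lit 3) (nat_lit 4) (nat_lit 3) (nat_lit 5) (nat_lit 201) (nat_lit 118) r7_201 r12_118 (nat_lit 0) (nat_lit 0) (nat_lit 0) (nat_lit 0x7cf07bdb52) (nat_lit 1502310888),
  Rx.mk (nat_lit 231) (nat_lit 7) (nat_lit 4) (nat_lit 3) (nat_lit 5) (nat_lit 202) (nat_lit 121) r7_202 r12_121 (nat_lit 0) (nat_lit 0) (nat_lit 0) (nat_lit 0x7def2a4f6c) (nat_lit 1013985648),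
  Rx.mk (nat_lit 235) (nat_lit 3) (nat_lit 5) (nat_lit 3) (nat_lit 7) (nat_lit 203) (nat_lit 119) r7_203 r12_119 (nat_lit 0) (nat_lit 0) (nat_lit 0) (nat_lit 0x7deb792a82) (nat_lit 1021064616),
  Rx.mk (nat_lit 239) (nat_lit 7) (nat_lit 5) (nat_lit 3) (nat_lit 7) (nat_lit 204) (nat_lit 122) r7_204 r12_122 (nat_lit 0) (nat_lit 0) (nat_lit 0) (nat_lit 0x7e4966ab4c) (nat_lit 840967920),
  Rx.mk (nat_lit 251) (nat_lit 3) (nat_lit 7) (nat_lit 3) (nat_lit 7) (nat_lit 205) (nat_lit 120) r7_205 r12_120 (nat_lit 0) (nat_lit 0) (nat_lit 0) (nat_lit 0x7df2ff7216) (nat_lit 1006637112)]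
noncomputable def e24_55 : List Rx := [
  Rx.mk (nat_lit 11) (nat_lit 3) (nat_lit 1) (nat_lit 0) (nat_lit 3) (nat_lit 331) (nat_lit 173) r7_331 r3_173 (nat_lit 0) (nat_lit 0) (nat_lit 0) (nat_lit 0x6e724f8c96) (nat_lit 8616182328),
  Rx.mk (nat_lit 40) (nat_lit 0) (nat_lit 5) (nat_lit 0) (nat_lit 2) (nat_lit 334) (nat_lit 170) r7_334 r3_170 (nat_lit 0) (nat_lit 0) (nat_lit 0) (nat_lit 0x6b3e98cb36) (nat_lit 10187898552),
  Rx.mk (nat_lit 43) (nat_lit 3) (nat_lit 5) (nat_lit 0) (nat_lit 3) (nat_lit 336) (nat_lit 172) r7_336 r3_172 (nat_lit 0) (nat_lit 0) (nat_lit 0) (nat_lit 0x73f40d8b34) (nat_lit 5913148176),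
  Rx.mk (nat_lit 75) (nat_lit 3) (nat_lit 1) (nat_lit 1) (nat_lit 7) (nat_lit 332) (nat_lit 175) r7_332 r3_175 (nat_lit 0) (nat_lit 0) (nat_lit 0) (nat_lit 0x7bddb1e904) (nat_lit 2029189968),
  Rx.mk (nat_lit 104) (nat_lit 0) (nat_lit 5) (nat_lit 1) (nat_lit 6) (nat_lit 335) (nat_lit 171) r7_335 r3_171 (nat_lit 0) (nat_lit 0) (nat_lit 0) (nat_lit 0x732efe9ce8) (nat_lit 6290987040),
  Rx.mk (nat_lit 107) (nat_lit 3) (nat_lit 5) (nat_lit 1) (nat_lit 7) (nat_lit 337) (nat_lit 174) r7_337 r3_174 (nat_lit 0) (nat_lit 0) (nat_lit 0) (nat_lit 0x7c2ead98f8) (nat_lit 1873913184),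
  Rx.mk (nat_lit 203) (nat_lit 3) (nat_lit 1) (nat_lit 3) (nat_lit 7) (nat_lit 333) (nat_lit 176) r7_333 r3_176 (nat_lit 0) (nat_lit 0) (nat_lit 0) (nat_lit 0x7cba1941b2) (nat_lit 1606588776)]
noncomputable def e24_56 : List Rx := [
  Rx.mk (nat_lit 40) (nat_lit 0) (nat_lit 5) (nat_lit 0) (nat_lit 2) (nat_lit 362) (nat_lit 191) r7_362 r12_191 (nat_lit 0) (nat_lit 0) (nat_lit 0) (nat_lit 0x6335d77f54) (nat_lit 14131512720),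
  Rx.mk (nat_lit 43) (nat_lit 3) (nat_lit 5) (nat_lit 0) (nat_lit 3) (nat_lit 364) (nat_lit 193) r7_364 r12_193 (nat_lit 0) (nat_lit 0) (nat_lit 0) (nat_lit 0x7c2c753c80) (nat_lit 1878170112),
  Rx.mk (nat_lit 104) (nat_lit 0) (nat_lit 5) (nat_lit 1) (nat_lit 6) (nat_lit 363) (nat_lit 192) r7_363 r12_192 (nat_lit 0) (nat_lit 0) (nat_lit 0) (nat_lit 0x7da6297fc2) (nat_lit 1153961640),
  Rx.mk (nat_lit 107) (nat_lit 3) (nat_lit 5) (nat_lit 1) (nat_lit 7) (nat_lit 365) (nat_lit 194) r7_365 r12_194 (nat_lit 0) (nat_lit 0) (nat_lit 0) (nat_lit 0x7ddfee8338) (nat_lit 1043194464),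
  Rx.mk (nat_lit 203) (nat_lit 3) (nat_lit 1) (nat_lit 3) (nat_lit 7) (nat_lit 361) (nat_lit 196) r7_361 r12_196 (nat_lit 0) (nat_lit 0) (nat_lit 0) (nat_lit 0x7dd7808a20) (nat_lit 1059357312),
  Rx.mk (nat_lit 235) (nat_lit 3) (nat_lit 5) (nat_lit 3) (nat_lit 7) (nat_lit 366) (nat_lit 195) r7_366 r12_195 (nat_lit 0) (nat_lit 0) (nat_lit 0) (nat_lit 0x7dad63ac18) (nat_lit 1140104160)]
noncomputable def e24_57 : List Rx := [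
  Rx.mk (nat_lit 11) (nat_lit 3) (nat_lit 1) (nat_lit 0) (nat_lit 3) (nat_lit 347) (nat_lit 269) r7_347 r12_269 (nat_lit 0) (nat_lit 0) (nat_lit 0) (nat_lit 0x7d3189aa34) (nat_lit 1377576720),
  Rx.mk (nat_lit 43) (nat_lit 3) (nat_lit 5) (nat_lit 0) (nat_lit 3) (nat_lit 349) (nat_lit 271) r7_349 r12_271 (nat_lit 0) (nat_lit 0) (nat_lit 0) (nat_lit 0x7d458d29e8) (nat_lit 1339202592),
  Rx.mk (nat_lit 75) (nat_lit 3) (nat_lit 1) (nat_lit 1) (nat_lit 7) (nat_lit 348) (nat_lit 270) r7_348 r12_270 (nat_lit 0) (nat_lit 0) (nat_lit 0) (nat_lit 0x7df25e9c24) (nat_lit 1007841744),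
  Rx.mk (nat_lit 107) (nat_lit 3) (nat_lit 5) (nat_lit 1) (nat_lit 7) (nat_lit 350) (nat_lit 272) r7_350 r12_272 (nat_lit 0) (nat_lit 0) (nat_lit 0) (nat_lit 0x7dcaa7d7b8) (nat_lit 1083989088)]
noncomputable def e24 : List (List Rx) := [e24_0, e24_1, e24_2, e24_3, e24_4, e24_5, e24_6, e24_7, e24_8, e24_9, e24_10, e24_11, e24_12, e24_13, e24_14, e24_15, e24_16, e24_17, e24_18, e24_19, e24_20, e24_21, e24_22, e24_23, e24_24, e24_25, e24_26, e24_27, e24_28, e24_29, e24_30, e24_31, e24_32, e24_33, e24_34, e24_35, e24_36, e24_37, e24_38, e24_39, e24_40, e24_41, e24_42, e24_43, e24_44, e24_45, e24_46, e24_47, e24_48, e24_49, e24_50, e24_51, e24_52, e24_53, e24_54, e24_55, e24_56, e24_57]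
noncomputable def e25_0 : List Rx := [
  Rx.mk (nat_lit 356) (nat_lit 4) (nat_lit 4) (nat_lit 5) (nat_lit 4) (nat_lit 241) (nat_lit 188) r7_241 r0_188 (nat_lit 0) (nat_lit 0) (nat_lit 0) (nat_lit 0x6c14ae090c) (nat_lit 9777416688),
  Rx.mk (nat_lit 359) (nat_lit 7) (nat_lit 4) (nat_lit 5) (nat_lit 5) (nat_lit 244) (nat_lit 191) r7_244 r0_191 (nat_lit 0) (nat_lit 0) (nat_lit 0) (nat_lit 0x7dd6cb7572) (nat_lit 1060713576),
  Rx.mk (nat_lit 364) (nat_lit 4) (nat_lit 5) (nat_lit 5) (nat_lit 6) (nat_lit 242) (nat_lit 189) r7_242 r0_189 (nat_lit 0) (nat_lit 0) (nat_lit 0) (nat_lit 0x7d632fcfa0) (nat_lit 1282379904),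
  Rx.mk (nat_lit 367) (nat_lit 7) (nat_lit 5) (nat_lit 5) (nat_lit 7) (nat_lit 245) (nat_lit 192) r7_245 r0_192 (nat_lit 0) (nat_lit 0) (nat_lit 0) (nat_lit 0x7df79428c6) (nat_lit 997853688),
  Rx.mk (nat_lit 372) (nat_lit 4) (nat_lit 6) (nat_lit 5) (nat_lit 6) (nat_lit 243) (nat_lit 190) r7_243 r0_190 (nat_lit 0) (nat_lit 0) (nat_lit 0) (nat_lit 0x7e4de063ac) (nat_lit 832386672),
  Rx.mk (nat_lit 375) (nat_lit 7) (nat_lit 6) (nat_lit 5) (nat_lit 7) (nat_lit 246) (nat_lit 194) r7_246 r0_194 (nat_lit 0) (nat_lit 0) (nat_lit 0) (nat_lit 0x7de0607c18) (nat_lit 1042340832),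
  Rx.mk (nat_lit 383) (nat_lit 7) (nat_lit 7) (nat_lit 5) (nat_lit 7) (nat_lit 247) (nat_lit 193) r7_247 r0_193 (nat_lit 0) (nat_lit 0) (nat_lit 0) (nat_lit 0x7de7422df6) (nat_lit 1029146040)]
noncomputable def e25_1 : List Rx := [
  Rx.mk (nat_lit 292) (nat_lit 4) (nat_lit 4) (nat_lit 4) (nat_lit 0) (nat_lit 283) (nat_lit 201) r7_283 r1_201 (nat_lit 0) (nat_lit 0) (nat_lit 0) (nat_lit 0x34358c330c) (nat_lit 37202186736),
  Rx.mk (nat_lit 295) (nat_lit 7) (nat_lit 4) (nat_lit 4) (nat_lit 1) (nat_lit 286) (nat_lit 206) r7_286 r1_206 (nat_lit 0) (nat_lit 0) (nat_lit 0) (nat_lit 0x6ddf3cfe52) (nat_lit 8898178536),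
  Rx.mk (nat_lit 308) (nat_lit 4) (nat_lit 6) (nat_lit 4) (nat_lit 2) (nat_lit 284) (nat_lit 204) r7_284 r1_204 (nat_lit 0) (nat_lit 0) (nat_lit 0) (nat_lit 0x689c4c929c) (nat_lit 11480794416),
  Rx.mk (nat_lit 310) (nat_lit 6) (nat_lit 6) (nat_lit 4) (nat_lit 3) (nat_lit 285) (nat_lit 214) r7_285 r1_214 (nat_lit 0) (nat_lit 0) (nat_lit 0) (nat_lit 0x5d3c3f5ed0) (nat_lit 17064350784),
  Rx.mk (nat_lit 311) (nat_lit 7) (nat_lit 6) (nat_lit 4) (nat_lit 3) (nat_lit 287) (nat_lit 212) r7_287 r1_212 (nat_lit 0) (nat_lit 0) (nat_lit 0) (nat_lit 0x7db4c29622) (nat_lit 1125971496),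
  Rx.mk (nat_lit 319) (nat_lit 7) (nat_lit 7) (nat_lit 4) (nat_lit 3) (nat_lit 288) (nat_lit 209) r7_288 r1_209 (nat_lit 0) (nat_lit 0) (nat_lit 0) (nat_lit 0x7de4743ad8) (nat_lit 1034523360),
  Rx.mk (nat_lit 356) (nat_lit 4) (nat_lit 4) (nat_lit 5) (nat_lit 4) (nat_lit 289) (nat_lit 202) r7_289 r1_202 (nat_lit 0) (nat_lit 0) (nat_lit 0) (nat_lit 0x694567a042) (nat_lit 11156551848),
  Rx.mk (nat_lit 359) (nat_lit 7) (nat_lit 4) (nat_lit 5) (nat_lit 5) (nat_lit 293) (nat_lit 207) r7_293 r1_207 (nat_lit 0) (nat_lit 0) (nat_lit 0) (nat_lit 0x7c8fc726fe) (nat_lit 1687734360),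
  Rx.mk (nat_lit 364) (nat_lit 4) (nat_lit 5) (nat_lit 5) (nat_lit 6) (nat_lit 290) (nat_lit 203) r7_290 r1_203 (nat_lit 0) (nat_lit 0) (nat_lit 0) (nat_lit 0x7d333feece) (nat_lit 1374294168),
  Rx.mk (nat_lit 367) (nat_lit 7) (nat_lit 5) (nat_lit 5) (nat_lit 7) (nat_lit 294) (nat_lit 208) r7_294 r1_208 (nat_lit 0) (nat_lit 0) (nat_lit 0) (nat_lit 0x7db7bde66a) (nat_lit 1120254408),
  Rx.mk (nat_lit 372) (nat_lit 4) (nat_lit 6) (nat_lit 5) (nat_lit 6) (nat_lit 291) (nat_lit 205) r7_291 r1_205 (nat_lit 0) (nat_lit 0) (nat_lit 0) (nat_lit 0x7d4016c154) (nat_lit 1349676432),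
  Rx.mk (nat_lit 374) (nat_lit 6) (nat_lit 6) (nat_lit 5) (nat_lit 7) (nat_lit 292) (nat_lit 215) r7_292 r1_215 (nat_lit 0) (nat_lit 0) (nat_lit 0) (nat_lit 0x7c3cb238a0) (nat_lit 1847035008),
  Rx.mk (nat_lit 375) (nat_lit 7) (nat_lit 6) (nat_lit 5) (nat_lit 7) (nat_lit 295) (nat_lit 213) r7_295 r1_213 (nat_lit 0) (nat_lit 0) (nat_lit 0) (nat_lit 0x7db90e3164) (nat_lit 1117735632),
  Rx.mk (nat_lit 383) (nat_lit 7) (nat_lit 7) (nat_lit 5) (nat_lit 7) (nat_lit 296) (nat_lit 210) r7_296 r1_210 (nat_lit 0) (nat_lit 0) (nat_lit 0) (nat_lit 0x7dd2f1d310) (nat_lit 1068095808),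
  Rx.mk (nat_lit 438) (nat_lit 6) (nat_lit 6) (nat_lit 6) (nat_lit 7) (nat_lit 297) (nat_lit 216) r7_297 r1_216 (nat_lit 0) (nat_lit 0) (nat_lit 0) (nat_lit 0x78ed89ae78) (nat_lit 3471373152),
  Rx.mk (nat_lit 511) (nat_lit 7) (nat_lit 7) (nat_lit 7) (nat_lit 7) (nat_lit 298) (nat_lit 211) r7_298 r1_211 (nat_lit 0) (nat_lit 0) (nat_lit 0) (nat_lit 0x7deaa7f796) (nat_lit 1022631480)]
noncomputable def e25_2 : List Rx := [
  Rx.mk (nat_lit 292) (nat_lit 4) (nat_lit 4) (nat_lit 4) (nat_lit 0) (nat_lit 257) (nat_lit 221) r7_257 r2_221 (nat_lit 0) (nat_lit 0) (nat_lit 0) (nat_lit 0x1e5f4facac) (nat_lit 47920884336),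
  Rx.mk (nat_lit 295) (nat_lit 7) (nat_lit 4) (nat_lit 4) (nat_lit 1) (nat_lit 260) (nat_lit 223) r7_260 r2_223 (nat_lit 0) (nat_lit 0) (nat_lit 0) (nat_lit 0x69fe864d9e) (nat_lit 10801603800),
  Rx.mk (nat_lit 308) (nat_lit 4) (nat_lit 6) (nat_lit 4) (nat_lit 2) (nat_lit 258) (nat_lit 222) r7_258 r2_222 (nat_lit 0) (nat_lit 0) (nat_lit 0) (nat_lit 0x645245d752) (nat_lit 13586145768),
  Rx.mk (nat_lit 310) (nat_lit 6) (nat_lit 6) (nat_lit 4) (nat_lit 3) (nat_lit 259) (nat_lit 228) r7_259 r2_228 (nat_lit 0) (nat_lit 0) (nat_lit 0) (nat_lit 0x7d4b54ed66) (nat_lit 1328119416),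
  Rx.mk (nat_lit 311) (nat_lit 7) (nat_lit 6) (nat_lit 4) (nat_lit 3) (nat_lit 261) (nat_lit 226) r7_261 r2_226 (nat_lit 0) (nat_lit 0) (nat_lit 0) (nat_lit 0x7d878d89a0) (nat_lit 1212651648),
  Rx.mk (nat_lit 438) (nat_lit 6) (nat_lit 6) (nat_lit 6) (nat_lit 7) (nat_lit 262) (nat_lit 229) r7_262 r2_229 (nat_lit 0) (nat_lit 0) (nat_lit 0) (nat_lit 0x7dbed954ac) (nat_lit 1106627184),
  Rx.mk (nat_lit 487) (nat_lit 7) (nat_lit 4) (nat_lit 7) (nat_lit 5) (nat_lit 263) (nat_lit 224) r7_263 r2_224 (nat_lit 0) (nat_lit 0) (nat_lit 0) (nat_lit 0x7cb4d0f63c) (nat_lit 1616717232),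
  Rx.mk (nat_lit 503) (nat_lit 7) (nat_lit 6) (nat_lit 7) (nat_lit 7) (nat_lit 264) (nat_lit 227) r7_264 r2_227 (nat_lit 0) (nat_lit 0) (nat_lit 0) (nat_lit 0x7dbd458dea) (nat_lit 1109651400),
  Rx.mk (nat_lit 511) (nat_lit 7) (nat_lit 7) (nat_lit 7) (nat_lit 7) (nat_lit 265) (nat_lit 225) r7_265 r2_225 (nat_lit 0) (nat_lit 0) (nat_lit 0) (nat_lit 0x7dc01560ea) (nat_lit 1104260040)]
noncomputable def e25_3 : List Rx := [
  Rx.mk (nat_lit 100) (nat_lit 4) (nat_lit 4) (nat_lit 1) (nat_lit 4) (nat_lit 334) (nat_lit 170) r7_334 r3_170 (nat_lit 0) (nat_lit 0) (nat_lit 0) (nat_lit 0x6b3e98cb36) (nat_lit 10187898552),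
  Rx.mk (nat_lit 103) (nat_lit 7) (nat_lit 4) (nat_lit 1) (nat_lit 5) (nat_lit 336) (nat_lit 172) r7_336 r3_172 (nat_lit 0) (nat_lit 0) (nat_lit 0) (nat_lit 0x73f40d8b34) (nat_lit 5913148176),
  Rx.mk (nat_lit 108) (nat_lit 4) (nat_lit 5) (nat_lit 1) (nat_lit 6) (nat_lit 335) (nat_lit 171) r7_335 r3_171 (nat_lit 0) (nat_lit 0) (nat_lit 0) (nat_lit 0x732efe9ce8) (nat_lit 6290987040),
  Rx.mk (nat_lit 111) (nat_lit 7) (nat_lit 5) (nat_lit 1) (nat_lit 7) (nat_lit 337) (nat_lit 174) r7_337 r3_174 (nat_lit 0) (nat_lit 0) (nat_lit 0) (nat_lit 0x7c2ead98f8) (nat_lit 1873913184),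
  Rx.mk (nat_lit 359) (nat_lit 7) (nat_lit 4) (nat_lit 5) (nat_lit 5) (nat_lit 331) (nat_lit 173) r7_331 r3_173 (nat_lit 0) (nat_lit 0) (nat_lit 0) (nat_lit 0x6e724f8c96) (nat_lit 8616182328),
  Rx.mk (nat_lit 367) (nat_lit 7) (nat_lit 5) (nat_lit 5) (nat_lit 7) (nat_lit 332) (nat_lit 175) r7_332 r3_175 (nat_lit 0) (nat_lit 0) (nat_lit 0) (nat_lit 0x7bddb1e904) (nat_lit 2029189968),
  Rx.mk (nat_lit 383) (nat_lit 7) (nat_lit 7) (nat_lit 5) (nat_lit 7) (nat_lit 333) (nat_lit 176) r7_333 r3_176 (nat_lit 0) (nat_lit 0) (nat_lit 0) (nat_lit 0x7cba1941b2) (nat_lit 1606588776)]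
noncomputable def e25_4 : List Rx := [
  Rx.mk (nat_lit 359) (nat_lit 7) (nat_lit 4) (nat_lit 5) (nat_lit 5) (nat_lit 351) (nat_lit 177) r7_351 r4_177 (nat_lit 0) (nat_lit 0) (nat_lit 0) (nat_lit 0x7dec271fa2) (nat_lit 1019761704),
  Rx.mk (nat_lit 367) (nat_lit 7) (nat_lit 5) (nat_lit 5) (nat_lit 7) (nat_lit 352) (nat_lit 178) r7_352 r4_178 (nat_lit 0) (nat_lit 0) (nat_lit 0) (nat_lit 0x7de75b4c64) (nat_lit 1028957904),
  Rx.mk (nat_lit 375) (nat_lit 7) (nat_lit 6) (nat_lit 5) (nat_lit 7) (nat_lit 353) (nat_lit 180) r7_353 r4_180 (nat_lit 0) (nat_lit 0) (nat_lit 0) (nat_lit 0x7de78789a0) (nat_lit 1028626560),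
  Rx.mk (nat_lit 383) (nat_lit 7) (nat_lit 7) (nat_lit 5) (nat_lit 7) (nat_lit 354) (nat_lit 179) r7_354 r4_179 (nat_lit 0) (nat_lit 0) (nat_lit 0) (nat_lit 0x7ddcf03320) (nat_lit 1048934016)]
noncomputable def e25_5 : List Rx := [
  Rx.mk (nat_lit 59) (nat_lit 3) (nat_lit 7) (nat_lit 0) (nat_lit 3) (nat_lit 43) (nat_lit 117) r7_43 r3_117 (nat_lit 0) (nat_lit 0) (nat_lit 0) (nat_lit 0x78cfd7a9b6) (nat_lit 3528310968),
  Rx.mk (nat_lit 123) (nat_lit 3) (nat_lit 7) (nat_lit 1) (nat_lit 7) (nat_lit 44) (nat_lit 118) r7_44 r3_118 (nat_lit 0) (nat_lit 0) (nat_lit 0) (nat_lit 0x7ed1aa068e) (nat_lit 579697560),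
  Rx.mk (nat_lit 251) (nat_lit 3) (nat_lit 7) (nat_lit 3) (nat_lit 7) (nat_lit 46) (nat_lit 119) r7_46 r3_119 (nat_lit 0) (nat_lit 0) (nat_lit 0) (nat_lit 0x7c243dfffc) (nat_lit 1893922992),
  Rx.mk (nat_lit 255) (nat_lit 7) (nat_lit 7) (nat_lit 3) (nat_lit 7) (nat_lit 45) (nat_lit 116) r7_45 r3_116 (nat_lit 0) (nat_lit 0) (nat_lit 0) (nat_lit 0x7c4848df2a) (nat_lit 1824815304)]
noncomputable def e25_6 : List Rx := [
  Rx.mk (nat_lit 251) (nat_lit 3) (nat_lit 7) (nat_lit 3) (nat_lit 7) (nat_lit 77) (nat_lit 140) r7_77 r0_140 (nat_lit 0) (nat_lit 0) (nat_lit 0) (nat_lit 0x7dbbc6c5d8) (nat_lit 1112518368),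
  Rx.mk (nat_lit 255) (nat_lit 7) (nat_lit 7) (nat_lit 3) (nat_lit 7) (nat_lit 76) (nat_lit 139) r7_76 r0_139 (nat_lit 0) (nat_lit 0) (nat_lit 0) (nat_lit 0x7dbbc6c5d8) (nat_lit 1112518368)]
noncomputable def e25_7 : List Rx := [
  Rx.mk (nat_lit 251) (nat_lit 3) (nat_lit 7) (nat_lit 3) (nat_lit 7) (nat_lit 101) (nat_lit 146) r7_101 r1_146 (nat_lit 0) (nat_lit 0) (nat_lit 0) (nat_lit 0x7db6f07342) (nat_lit 1121793192),
  Rx.mk (nat_lit 255) (nat_lit 7) (nat_lit 7) (nat_lit 3) (nat_lit 7) (nat_lit 100) (nat_lit 145) r7_100 r1_145 (nat_lit 0) (nat_lit 0) (nat_lit 0) (nat_lit 0x7dec661bb2) (nat_lit 1019289960),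
  Rx.mk (nat_lit 292) (nat_lit 4) (nat_lit 4) (nat_lit 4) (nat_lit 0) (nat_lit 90) (nat_lit 141) r7_90 r1_141 (nat_lit 0) (nat_lit 0) (nat_lit 0) (nat_lit 0x3f2c1ddefa) (nat_lit 31820882184),
  Rx.mk (nat_lit 308) (nat_lit 4) (nat_lit 6) (nat_lit 4) (nat_lit 2) (nat_lit 91) (nat_lit 147) r7_91 r1_147 (nat_lit 0) (nat_lit 0) (nat_lit 0) (nat_lit 0x6698457512) (nat_lit 12470224104),
  Rx.mk (nat_lit 310) (nat_lit 6) (nat_lit 6) (nat_lit 4) (nat_lit 3) (nat_lit 92) (nat_lit 150) r7_92 r1_150 (nat_lit 0) (nat_lit 0) (nat_lit 0) (nat_lit 0x6657bb3df6) (nat_lit 12593972664),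
  Rx.mk (nat_lit 438) (nat_lit 6) (nat_lit 6) (nat_lit 6) (nat_lit 7) (nat_lit 93) (nat_lit 152) r7_93 r1_152 (nat_lit 0) (nat_lit 0) (nat_lit 0) (nat_lit 0x7cef2530be) (nat_lit 1504877400),
  Rx.mk (nat_lit 484) (nat_lit 4) (nat_lit 4) (nat_lit 7) (nat_lit 4) (nat_lit 94) (nat_lit 142) r7_94 r1_142 (nat_lit 0) (nat_lit 0) (nat_lit 0) (nat_lit 0x60f77387d2) (nat_lit 15232846824),
  Rx.mk (nat_lit 487) (nat_lit 7) (nat_lit 4) (nat_lit 7) (nat_lit 5) (nat_lit 97) (nat_lit 143) r7_97 r1_143 (nat_lit 0) (nat_lit 0) (nat_lit 0) (nat_lit 0x79f20f451a) (nat_lit 2971849608),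
  Rx.mk (nat_lit 500) (nat_lit 4) (nat_lit 6) (nat_lit 7) (nat_lit 6) (nat_lit 95) (nat_lit 148) r7_95 r1_148 (nat_lit 0) (nat_lit 0) (nat_lit 0) (nat_lit 0x7d04f5d39e) (nat_lit 1463049432),
  Rx.mk (nat_lit 502) (nat_lit 6) (nat_lit 6) (nat_lit 7) (nat_lit 7) (nat_lit 96) (nat_lit 151) r7_96 r1_151 (nat_lit 0) (nat_lit 0) (nat_lit 0) (nat_lit 0x7d83c7c600) (nat_lit 1219885056),
  Rx.mk (nat_lit 503) (nat_lit 7) (nat_lit 6) (nat_lit 7) (nat_lit 7) (nat_lit 98) (nat_lit 149) r7_98 r1_149 (nat_lit 0) (nat_lit 0) (nat_lit 0) (nat_lit 0x7df4f572b4) (nat_lit 1002877200),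
  Rx.mk (nat_lit 511) (nat_lit 7) (nat_lit 7) (nat_lit 7) (nat_lit 7) (nat_lit 99) (nat_lit 144) r7_99 r1_144 (nat_lit 0) (nat_lit 0) (nat_lit 0) (nat_lit 0x7dd6fab27e) (nat_lit 1060359768)]
noncomputable def e25_8 : List Rx := [
  Rx.mk (nat_lit 59) (nat_lit 3) (nat_lit 7) (nat_lit 0) (nat_lit 3) (nat_lit 146) (nat_lit 126) r7_146 r4_126 (nat_lit 0) (nat_lit 0) (nat_lit 0) (nat_lit 0x7dc32eaf52) (nat_lit 1098318312),
  Rx.mk (nat_lit 251) (nat_lit 3) (nat_lit 7) (nat_lit 3) (nat_lit 7) (nat_lit 148) (nat_lit 127) r7_148 r4_127 (nat_lit 0) (nat_lit 0) (nat_lit 0) (nat_lit 0x7dedaca748) (nat_lit 1016844192),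
  Rx.mk (nat_lit 255) (nat_lit 7) (nat_lit 7) (nat_lit 3) (nat_lit 7) (nat_lit 147) (nat_lit 125) r7_147 r4_125 (nat_lit 0) (nat_lit 0) (nat_lit 0) (nat_lit 0x7dca705b30) (nat_lit 1084404672)]
noncomputable def e25_9 : List Rx := [
  Rx.mk (nat_lit 103) (nat_lit 7) (nat_lit 4) (nat_lit 1) (nat_lit 5) (nat_lit 221) (nat_lit 207) r7_221 r5_207 (nat_lit 0) (nat_lit 0) (nat_lit 0) (nat_lit 0x7dbcf8b2b8) (nat_lit 1110227040),
  Rx.mk (nat_lit 111) (nat_lit 7) (nat_lit 5) (nat_lit 1) (nat_lit 7) (nat_lit 222) (nat_lit 208) r7_222 r5_208 (nat_lit 0) (nat_lit 0) (nat_lit 0) (nat_lit 0x7e020c013e) (nat_lit 977782104),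
  Rx.mk (nat_lit 123) (nat_lit 3) (nat_lit 7) (nat_lit 1) (nat_lit 7) (nat_lit 224) (nat_lit 206) r7_224 r5_206 (nat_lit 0) (nat_lit 0) (nat_lit 0) (nat_lit 0x7dd520102a) (nat_lit 1063914696),
  Rx.mk (nat_lit 127) (nat_lit 7) (nat_lit 7) (nat_lit 1) (nat_lit 7) (nat_lit 223) (nat_lit 209) r7_223 r5_209 (nat_lit 0) (nat_lit 0) (nat_lit 0) (nat_lit 0x7dedf682aa) (nat_lit 1016291016)]
noncomputable def e25_10 : List Rx := [
  Rx.mk (nat_lit 100) (nat_lit 4) (nat_lit 4) (nat_lit 1) (nat_lit 4) (nat_lit 237) (nat_lit 278) r7_237 r0_278 (nat_lit 0) (nat_lit 0) (nat_lit 0) (nat_lit 0x5c996eec7a) (nat_lit 17376530184),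
  Rx.mk (nat_lit 101) (nat_lit 5) (nat_lit 4) (nat_lit 1) (nat_lit 5) (nat_lit 239) (nat_lit 279) r7_239 r0_279 (nat_lit 0) (nat_lit 0) (nat_lit 0) (nat_lit 0x7c51f5245c) (nat_lit 1806268464),
  Rx.mk (nat_lit 108) (nat_lit 4) (nat_lit 5) (nat_lit 1) (nat_lit 6) (nat_lit 238) (nat_lit 280) r7_238 r0_280 (nat_lit 0) (nat_lit 0) (nat_lit 0) (nat_lit 0x7d503ebec4) (nat_lit 1318698576),
  Rx.mk (nat_lit 109) (nat_lit 5) (nat_lit 5) (nat_lit 1) (nat_lit 7) (nat_lit 240) (nat_lit 281) r7_240 r0_281 (nat_lit 0) (nat_lit 0) (nat_lit 0) (nat_lit 0x7df400a202) (nat_lit 1004710824),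
  Rx.mk (nat_lit 356) (nat_lit 4) (nat_lit 4) (nat_lit 5) (nat_lit 4) (nat_lit 230) (nat_lit 271) r7_230 r0_271 (nat_lit 0) (nat_lit 0) (nat_lit 0) (nat_lit 0x52675b77e4) (nat_lit 22381079760),
  Rx.mk (nat_lit 357) (nat_lit 5) (nat_lit 4) (nat_lit 5) (nat_lit 5) (nat_lit 232) (nat_lit 272) r7_232 r0_272 (nat_lit 0) (nat_lit 0) (nat_lit 0) (nat_lit 0x77e11e9636) (nat_lit 3986037432),
  Rx.mk (nat_lit 359) (nat_lit 7) (nat_lit 4) (nat_lit 5) (nat_lit 5) (nat_lit 234) (nat_lit 273) r7_234 r0_273 (nat_lit 0) (nat_lit 0) (nat_lit 0) (nat_lit 0x7d448d19ea) (nat_lit 1341120456),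
  Rx.mk (nat_lit 364) (nat_lit 4) (nat_lit 5) (nat_lit 5) (nat_lit 6) (nat_lit 231) (nat_lit 274) r7_231 r0_274 (nat_lit 0) (nat_lit 0) (nat_lit 0) (nat_lit 0x7a2fb2caa4) (nat_lit 2853663696),
  Rx.mk (nat_lit 365) (nat_lit 5) (nat_lit 5) (nat_lit 5) (nat_lit 7) (nat_lit 233) (nat_lit 275) r7_233 r0_275 (nat_lit 0) (nat_lit 0) (nat_lit 0) (nat_lit 0x7d51c5c652) (nat_lit 1315769832),
  Rx.mk (nat_lit 367) (nat_lit 7) (nat_lit 5) (nat_lit 5) (nat_lit 7) (nat_lit 235) (nat_lit 276) r7_235 r0_276 (nat_lit 0) (nat_lit 0) (nat_lit 0) (nat_lit 0x7df2301f0c) (nat_lit 1008189936),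
  Rx.mk (nat_lit 383) (nat_lit 7) (nat_lit 7) (nat_lit 5) (nat_lit 7) (nat_lit 236) (nat_lit 277) r7_236 r0_277 (nat_lit 0) (nat_lit 0) (nat_lit 0) (nat_lit 0x7df55c2c48) (nat_lit 1002107808)]
noncomputable def e25_11 : List Rx := [
  Rx.mk (nat_lit 356) (nat_lit 4) (nat_lit 4) (nat_lit 5) (nat_lit 4) (nat_lit 248) (nat_lit 246) r7_248 r6_246 (nat_lit 0) (nat_lit 0) (nat_lit 0) (nat_lit 0x66291d8800) (nat_lit 12683354112),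
  Rx.mk (nat_lit 357) (nat_lit 5) (nat_lit 4) (nat_lit 5) (nat_lit 5) (nat_lit 251) (nat_lit 249) r7_251 r6_249 (nat_lit 0) (nat_lit 0) (nat_lit 0) (nat_lit 0x7d509b58fa) (nat_lit 1318005000),
  Rx.mk (nat_lit 359) (nat_lit 7) (nat_lit 4) (nat_lit 5) (nat_lit 5) (nat_lit 254) (nat_lit 252) r7_254 r6_252 (nat_lit 0) (nat_lit 0) (nat_lit 0) (nat_lit 0x7dcd22900a) (nat_lit 1079235144),
  Rx.mk (nat_lit 364) (nat_lit 4) (nat_lit 5) (nat_lit 5) (nat_lit 6) (nat_lit 249) (nat_lit 247) r7_249 r6_247 (nat_lit 0) (nat_lit 0) (nat_lit 0) (nat_lit 0x7d55b76734) (nat_lit 1308207888),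
  Rx.mk (nat_lit 365) (nat_lit 5) (nat_lit 5) (nat_lit 5) (nat_lit 7) (nat_lit 252) (nat_lit 250) r7_252 r6_250 (nat_lit 0) (nat_lit 0) (nat_lit 0) (nat_lit 0x7de766ebaa) (nat_lit 1028870856),
  Rx.mk (nat_lit 367) (nat_lit 7) (nat_lit 5) (nat_lit 5) (nat_lit 7) (nat_lit 255) (nat_lit 253) r7_255 r6_253 (nat_lit 0) (nat_lit 0) (nat_lit 0) (nat_lit 0x7dc7720b18) (nat_lit 1090144224),
  Rx.mk (nat_lit 372) (nat_lit 4) (nat_lit 6) (nat_lit 5) (nat_lit 6) (nat_lit 250) (nat_lit 248) r7_250 r6_248 (nat_lit 0) (nat_lit 0) (nat_lit 0) (nat_lit 0x7d88d17560) (nat_lit 1210225536),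
  Rx.mk (nat_lit 373) (nat_lit 5) (nat_lit 6) (nat_lit 5) (nat_lit 7) (nat_lit 253) (nat_lit 251) r7_253 r6_251 (nat_lit 0) (nat_lit 0) (nat_lit 0) (nat_lit 0x7dd5e5a3d0) (nat_lit 1062434880),
  Rx.mk (nat_lit 383) (nat_lit 7) (nat_lit 7) (nat_lit 5) (nat_lit 7) (nat_lit 256) (nat_lit 254) r7_256 r6_254 (nat_lit 0) (nat_lit 0) (nat_lit 0) (nat_lit 0x7dee7e3a2e) (nat_lit 1015274520)]
noncomputable def e25_12 : List Rx := [
  Rx.mk (nat_lit 101) (nat_lit 5) (nat_lit 4) (nat_lit 1) (nat_lit 5) (nat_lit 318) (nat_lit 276) r7_318 r1_276 (nat_lit 0) (nat_lit 0) (nat_lit 0) (nat_lit 0x7ba392eb2e) (nat_lit 2140631064),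
  Rx.mk (nat_lit 109) (nat_lit 5) (nat_lit 5) (nat_lit 1) (nat_lit 7) (nat_lit 319) (nat_lit 277) r7_319 r1_277 (nat_lit 0) (nat_lit 0) (nat_lit 0) (nat_lit 0x7de06f7b28) (nat_lit 1042228512),
  Rx.mk (nat_lit 357) (nat_lit 5) (nat_lit 4) (nat_lit 5) (nat_lit 5) (nat_lit 316) (nat_lit 274) r7_316 r1_274 (nat_lit 0) (nat_lit 0) (nat_lit 0) (nat_lit 0x7a2aa01bd4) (nat_lit 2863390608),
  Rx.mk (nat_lit 365) (nat_lit 5) (nat_lit 5) (nat_lit 5) (nat_lit 7) (nat_lit 317) (nat_lit 275) r7_317 r1_275 (nat_lit 0) (nat_lit 0) (nat_lit 0) (nat_lit 0x7dab10b14a) (nat_lit 1144560456)]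
noncomputable def e25_13 : List Rx := [
  Rx.mk (nat_lit 357) (nat_lit 5) (nat_lit 4) (nat_lit 5) (nat_lit 5) (nat_lit 323) (nat_lit 191) r7_323 r7_191 (nat_lit 0) (nat_lit 0) (nat_lit 0) (nat_lit 0x7cf1f683a6) (nat_lit 1499474808),
  Rx.mk (nat_lit 365) (nat_lit 5) (nat_lit 5) (nat_lit 5) (nat_lit 7) (nat_lit 324) (nat_lit 192) r7_324 r7_192 (nat_lit 0) (nat_lit 0) (nat_lit 0) (nat_lit 0x7dd911b10c) (nat_lit 1056352752),
  Rx.mk (nat_lit 373) (nat_lit 5) (nat_lit 6) (nat_lit 5) (nat_lit 7) (nat_lit 325) (nat_lit 193) r7_325 r7_193 (nat_lit 0) (nat_lit 0) (nat_lit 0) (nat_lit 0x7ddc447ddc) (nat_lit 1050220080)]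
noncomputable def e25_14 : List Rx := [
  Rx.mk (nat_lit 292) (nat_lit 4) (nat_lit 4) (nat_lit 4) (nat_lit 0) (nat_lit 299) (nat_lit 299) r7_299 r7_299 (nat_lit 0) (nat_lit 0) (nat_lit 0) (nat_lit 0x4a170bc530) (nat_lit 26461895616),
  Rx.mk (nat_lit 295) (nat_lit 7) (nat_lit 4) (nat_lit 4) (nat_lit 1) (nat_lit 302) (nat_lit 300) r7_302 r7_300 (nat_lit 0) (nat_lit 0) (nat_lit 0) (nat_lit 0x71bb073dd2) (nat_lit 7004193768),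
  Rx.mk (nat_lit 308) (nat_lit 4) (nat_lit 6) (nat_lit 4) (nat_lit 2) (nat_lit 300) (nat_lit 302) r7_300 r7_302 (nat_lit 0) (nat_lit 0) (nat_lit 0) (nat_lit 0x71bb073dd2) (nat_lit 7004193768),
  Rx.mk (nat_lit 310) (nat_lit 6) (nat_lit 6) (nat_lit 4) (nat_lit 3) (nat_lit 301) (nat_lit 303) r7_301 r7_303 (nat_lit 0) (nat_lit 0) (nat_lit 0) (nat_lit 0x7da575eafc) (nat_lit 1155306672),
  Rx.mk (nat_lit 319) (nat_lit 7) (nat_lit 7) (nat_lit 4) (nat_lit 3) (nat_lit 303) (nat_lit 301) r7_303 r7_301 (nat_lit 0) (nat_lit 0) (nat_lit 0) (nat_lit 0x7da575eafc) (nat_lit 1155306672),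
  Rx.mk (nat_lit 356) (nat_lit 4) (nat_lit 4) (nat_lit 5) (nat_lit 4) (nat_lit 304) (nat_lit 304) r7_304 r7_304 (nat_lit 0) (nat_lit 0) (nat_lit 0) (nat_lit 0x7813e3e9ae) (nat_lit 3888689688),
  Rx.mk (nat_lit 357) (nat_lit 5) (nat_lit 4) (nat_lit 5) (nat_lit 5) (nat_lit 307) (nat_lit 305) r7_307 r7_305 (nat_lit 0) (nat_lit 0) (nat_lit 0) (nat_lit 0x7daee1543c) (nat_lit 1137245616),
  Rx.mk (nat_lit 359) (nat_lit 7) (nat_lit 4) (nat_lit 5) (nat_lit 5) (nat_lit 311) (nat_lit 306) r7_311 r7_306 (nat_lit 0) (nat_lit 0) (nat_lit 0) (nat_lit 0x7dcd630c02) (nat_lit 1078752168),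
  Rx.mk (nat_lit 364) (nat_lit 4) (nat_lit 5) (nat_lit 5) (nat_lit 6) (nat_lit 305) (nat_lit 307) r7_305 r7_307 (nat_lit 0) (nat_lit 0) (nat_lit 0) (nat_lit 0x7daee1543c) (nat_lit 1137245616),
  Rx.mk (nat_lit 365) (nat_lit 5) (nat_lit 5) (nat_lit 5) (nat_lit 7) (nat_lit 308) (nat_lit 308) r7_308 r7_308 (nat_lit 0) (nat_lit 0) (nat_lit 0) (nat_lit 0x7df2d1b4f2) (nat_lit 1006979688),
  Rx.mk (nat_lit 367) (nat_lit 7) (nat_lit 5) (nat_lit 5) (nat_lit 7) (nat_lit 312) (nat_lit 309) r7_312 r7_309 (nat_lit 0) (nat_lit 0) (nat_lit 0) (nat_lit 0x7dd44e1d4a) (nat_lit 1065487176),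
  Rx.mk (nat_lit 372) (nat_lit 4) (nat_lit 6) (nat_lit 5) (nat_lit 6) (nat_lit 306) (nat_lit 311) r7_306 r7_311 (nat_lit 0) (nat_lit 0) (nat_lit 0) (nat_lit 0x7dcd630c02) (nat_lit 1078752168),
  Rx.mk (nat_lit 373) (nat_lit 5) (nat_lit 6) (nat_lit 5) (nat_lit 7) (nat_lit 309) (nat_lit 312) r7_309 r7_312 (nat_lit 0) (nat_lit 0) (nat_lit 0) (nat_lit 0x7dd44e1d4a) (nat_lit 1065487176),
  Rx.mk (nat_lit 374) (nat_lit 6) (nat_lit 6) (nat_lit 5) (nat_lit 7) (nat_lit 310) (nat_lit 313) r7_310 r7_313 (nat_lit 0) (nat_lit 0) (nat_lit 0) (nat_lit 0x7dd446fdbc) (nat_lit 1065540528),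
  Rx.mk (nat_lit 383) (nat_lit 7) (nat_lit 7) (nat_lit 5) (nat_lit 7) (nat_lit 313) (nat_lit 310) r7_313 r7_310 (nat_lit 0) (nat_lit 0) (nat_lit 0) (nat_lit 0x7dd446fdbc) (nat_lit 1065540528),
  Rx.mk (nat_lit 438) (nat_lit 6) (nat_lit 6) (nat_lit 6) (nat_lit 7) (nat_lit 314) (nat_lit 315) r7_314 r7_315 (nat_lit 0) (nat_lit 0) (nat_lit 0) (nat_lit 0x7df79428c6) (nat_lit 997853688),
  Rx.mk (nat_lit 511) (nat_lit 7) (nat_lit 7) (nat_lit 7) (nat_lit 7) (nat_lit 315) (nat_lit 314) r7_315 r7_314 (nat_lit 0) (nat_lit 0) (nat_lit 0) (nat_lit 0x7df79428c6) (nat_lit 997853688)]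
noncomputable def e25_15 : List Rx := [
  Rx.mk (nat_lit 292) (nat_lit 4) (nat_lit 4) (nat_lit 4) (nat_lit 0) (nat_lit 266) (nat_lit 202) r7_266 r8_202 (nat_lit 0) (nat_lit 0) (nat_lit 0) (nat_lit 0x2a267bae24) (nat_lit 42139605456),
  Rx.mk (nat_lit 295) (nat_lit 7) (nat_lit 4) (nat_lit 4) (nat_lit 1) (nat_lit 269) (nat_lit 204) r7_269 r8_204 (nat_lit 0) (nat_lit 0) (nat_lit 0) (nat_lit 0x795a3b62f0) (nat_lit 3262963392),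
  Rx.mk (nat_lit 308) (nat_lit 4) (nat_lit 6) (nat_lit 4) (nat_lit 2) (nat_lit 267) (nat_lit 203) r7_267 r8_203 (nat_lit 0) (nat_lit 0) (nat_lit 0) (nat_lit 0x6f84370d0c) (nat_lit 8090999280),
  Rx.mk (nat_lit 310) (nat_lit 6) (nat_lit 6) (nat_lit 4) (nat_lit 3) (nat_lit 268) (nat_lit 207) r7_268 r8_207 (nat_lit 0) (nat_lit 0) (nat_lit 0) (nat_lit 0x7d6bde44b0) (nat_lit 1265734080),
  Rx.mk (nat_lit 438) (nat_lit 6) (nat_lit 6) (nat_lit 6) (nat_lit 7) (nat_lit 270) (nat_lit 208) r7_270 r8_208 (nat_lit 0) (nat_lit 0) (nat_lit 0) (nat_lit 0x7dd1cb257c) (nat_lit 1070302896),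
  Rx.mk (nat_lit 487) (nat_lit 7) (nat_lit 4) (nat_lit 7) (nat_lit 5) (nat_lit 271) (nat_lit 205) r7_271 r8_205 (nat_lit 0) (nat_lit 0) (nat_lit 0) (nat_lit 0x7d7fa68818) (nat_lit 1227803616),
  Rx.mk (nat_lit 511) (nat_lit 7) (nat_lit 7) (nat_lit 7) (nat_lit 7) (nat_lit 272) (nat_lit 206) r7_272 r8_206 (nat_lit 0) (nat_lit 0) (nat_lit 0) (nat_lit 0x7dcfdbe472) (nat_lit 1074012264)]
noncomputable def e25_16 : List Rx := [
  Rx.mk (nat_lit 100) (nat_lit 4) (nat_lit 4) (nat_lit 1) (nat_lit 4) (nat_lit 341) (nat_lit 287) r7_341 r4_287 (nat_lit 0) (nat_lit 0) (nat_lit 0) (nat_lit 0x5c57ff43b6) (nat_lit 17501997240),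
  Rx.mk (nat_lit 101) (nat_lit 5) (nat_lit 4) (nat_lit 1) (nat_lit 5) (nat_lit 343) (nat_lit 288) r7_343 r4_288 (nat_lit 0) (nat_lit 0) (nat_lit 0) (nat_lit 0x7d836d6ba6) (nat_lit 1220561784),
  Rx.mk (nat_lit 103) (nat_lit 7) (nat_lit 4) (nat_lit 1) (nat_lit 5) (nat_lit 345) (nat_lit 289) r7_345 r4_289 (nat_lit 0) (nat_lit 0) (nat_lit 0) (nat_lit 0x7d43fd22ea) (nat_lit 1342198728),
  Rx.mk (nat_lit 108) (nat_lit 4) (nat_lit 5) (nat_lit 1) (nat_lit 6) (nat_lit 342) (nat_lit 290) r7_342 r4_290 (nat_lit 0) (nat_lit 0) (nat_lit 0) (nat_lit 0x7d03f443b8) (nat_lit 1464978528),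
  Rx.mk (nat_lit 109) (nat_lit 5) (nat_lit 5) (nat_lit 1) (nat_lit 7) (nat_lit 344) (nat_lit 291) r7_344 r4_291 (nat_lit 0) (nat_lit 0) (nat_lit 0) (nat_lit 0x7df0f9b274) (nat_lit 1010514960),
  Rx.mk (nat_lit 111) (nat_lit 7) (nat_lit 5) (nat_lit 1) (nat_lit 7) (nat_lit 346) (nat_lit 292) r7_346 r4_292 (nat_lit 0) (nat_lit 0) (nat_lit 0) (nat_lit 0x7de07e1a3e) (nat_lit 1042119000),
  Rx.mk (nat_lit 359) (nat_lit 7) (nat_lit 4) (nat_lit 5) (nat_lit 5) (nat_lit 338) (nat_lit 284) r7_338 r4_284 (nat_lit 0) (nat_lit 0) (nat_lit 0) (nat_lit 0x7d63fb62e6) (nat_lit 1280855160),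
  Rx.mk (nat_lit 367) (nat_lit 7) (nat_lit 5) (nat_lit 5) (nat_lit 7) (nat_lit 339) (nat_lit 285) r7_339 r4_285 (nat_lit 0) (nat_lit 0) (nat_lit 0) (nat_lit 0x7de0ae173e) (nat_lit 1041759576),
  Rx.mk (nat_lit 383) (nat_lit 7) (nat_lit 7) (nat_lit 5) (nat_lit 7) (nat_lit 340) (nat_lit 286) r7_340 r4_286 (nat_lit 0) (nat_lit 0) (nat_lit 0) (nat_lit 0x7dec75dab6) (nat_lit 1019172024)]
noncomputable def e25_17 : List Rx := [
  Rx.mk (nat_lit 359) (nat_lit 7) (nat_lit 4) (nat_lit 5) (nat_lit 5) (nat_lit 355) (nat_lit 195) r7_355 r9_195 (nat_lit 0) (nat_lit 0) (nat_lit 0) (nat_lit 0x7d5b2fafaa) (nat_lit 1297720008),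
  Rx.mk (nat_lit 367) (nat_lit 7) (nat_lit 5) (nat_lit 5) (nat_lit 7) (nat_lit 356) (nat_lit 196) r7_356 r9_196 (nat_lit 0) (nat_lit 0) (nat_lit 0) (nat_lit 0x7db8a35812) (nat_lit 1118535912),
  Rx.mk (nat_lit 383) (nat_lit 7) (nat_lit 7) (nat_lit 5) (nat_lit 7) (nat_lit 357) (nat_lit 197) r7_357 r9_197 (nat_lit 0) (nat_lit 0) (nat_lit 0) (nat_lit 0x7ded4a0d72) (nat_lit 1017582696)]
noncomputable def e25_18 : List Rx := [
  Rx.mk (nat_lit 100) (nat_lit 4) (nat_lit 4) (nat_lit 1) (nat_lit 4) (nat_lit 368) (nat_lit 222) r7_368 r10_222 (nat_lit 0) (nat_lit 0) (nat_lit 0) (nat_lit 0x6dd2a647ca) (nat_lit 8922316104),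
  Rx.mk (nat_lit 101) (nat_lit 5) (nat_lit 4) (nat_lit 1) (nat_lit 5) (nat_lit 370) (nat_lit 224) r7_370 r10_224 (nat_lit 0) (nat_lit 0) (nat_lit 0) (nat_lit 0x7dd5e543d6) (nat_lit 1062437688),
  Rx.mk (nat_lit 103) (nat_lit 7) (nat_lit 4) (nat_lit 1) (nat_lit 5) (nat_lit 372) (nat_lit 226) r7_372 r10_226 (nat_lit 0) (nat_lit 0) (nat_lit 0) (nat_lit 0x7d483d1ee6) (nat_lit 1334049912),
  Rx.mk (nat_lit 108) (nat_lit 4) (nat_lit 5) (nat_lit 1) (nat_lit 6) (nat_lit 369) (nat_lit 223) r7_369 r10_223 (nat_lit 0) (nat_lit 0) (nat_lit 0) (nat_lit 0x7dce8599d8) (nat_lit 1076575968),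
  Rx.mk (nat_lit 109) (nat_lit 5) (nat_lit 5) (nat_lit 1) (nat_lit 7) (nat_lit 371) (nat_lit 225) r7_371 r10_225 (nat_lit 0) (nat_lit 0) (nat_lit 0) (nat_lit 0x7df118d082) (nat_lit 1010281896),
  Rx.mk (nat_lit 111) (nat_lit 7) (nat_lit 5) (nat_lit 1) (nat_lit 7) (nat_lit 373) (nat_lit 227) r7_373 r10_227 (nat_lit 0) (nat_lit 0) (nat_lit 0) (nat_lit 0x7df32a2f6a) (nat_lit 1006317000),
  Rx.mk (nat_lit 127) (nat_lit 7) (nat_lit 7) (nat_lit 1) (nat_lit 7) (nat_lit 374) (nat_lit 228) r7_374 r10_228 (nat_lit 0) (nat_lit 0) (nat_lit 0) (nat_lit 0x7de7266fb2) (nat_lit 1029353832),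
  Rx.mk (nat_lit 383) (nat_lit 7) (nat_lit 7) (nat_lit 5) (nat_lit 7) (nat_lit 367) (nat_lit 229) r7_367 r10_229 (nat_lit 0) (nat_lit 0) (nat_lit 0) (nat_lit 0x7ddf1c9058) (nat_lit 1044766944)]
noncomputable def e25_19 : List Rx := [
  Rx.mk (nat_lit 292) (nat_lit 4) (nat_lit 4) (nat_lit 4) (nat_lit 0) (nat_lit 273) (nat_lit 99) r7_273 r8_99 (nat_lit 0) (nat_lit 0) (nat_lit 0) (nat_lit 0x5e013b8ec) (nat_lit 59945324400),
  Rx.mk (nat_lit 295) (nat_lit 7) (nat_lit 4) (nat_lit 4) (nat_lit 1) (nat_lit 276) (nat_lit 100) r7_276 r8_100 (nat_lit 0) (nat_lit 0) (nat_lit 0) (nat_lit 0x70d5b03428) (nat_lit 7443929376),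
  Rx.mk (nat_lit 308) (nat_lit 4) (nat_lit 6) (nat_lit 4) (nat_lit 2) (nat_lit 274) (nat_lit 103) r7_274 r8_103 (nat_lit 0) (nat_lit 0) (nat_lit 0) (nat_lit 0x6e391d1ff6) (nat_lit 8725851576),
  Rx.mk (nat_lit 310) (nat_lit 6) (nat_lit 6) (nat_lit 4) (nat_lit 3) (nat_lit 275) (nat_lit 106) r7_275 r8_106 (nat_lit 0) (nat_lit 0) (nat_lit 0) (nat_lit 0x7cf6673c96) (nat_lit 1490960952),
  Rx.mk (nat_lit 311) (nat_lit 7) (nat_lit 6) (nat_lit 4) (nat_lit 3) (nat_lit 277) (nat_lit 104) r7_277 r8_104 (nat_lit 0) (nat_lit 0) (nat_lit 0) (nat_lit 0x7da28699f4) (nat_lit 1160933904),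
  Rx.mk (nat_lit 406) (nat_lit 6) (nat_lit 2) (nat_lit 6) (nat_lit 7) (nat_lit 279) (nat_lit 108) r7_279 r8_108 (nat_lit 0) (nat_lit 0) (nat_lit 0) (nat_lit 0x7de4ad9742) (nat_lit 1034093736),
  Rx.mk (nat_lit 438) (nat_lit 6) (nat_lit 6) (nat_lit 6) (nat_lit 7) (nat_lit 278) (nat_lit 107) r7_278 r8_107 (nat_lit 0) (nat_lit 0) (nat_lit 0) (nat_lit 0x7dcea1581c) (nat_lit 1076368176),
  Rx.mk (nat_lit 487) (nat_lit 7) (nat_lit 4) (nat_lit 7) (nat_lit 5) (nat_lit 280) (nat_lit 101) r7_280 r8_101 (nat_lit 0) (nat_lit 0) (nat_lit 0) (nat_lit 0x7cfa07e288) (nat_lit 1484005536),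
  Rx.mk (nat_lit 503) (nat_lit 7) (nat_lit 6) (nat_lit 7) (nat_lit 7) (nat_lit 281) (nat_lit 105) r7_281 r8_105 (nat_lit 0) (nat_lit 0) (nat_lit 0) (nat_lit 0x7df1f9c272) (nat_lit 1008597096),
  Rx.mk (nat_lit 511) (nat_lit 7) (nat_lit 7) (nat_lit 7) (nat_lit 7) (nat_lit 282) (nat_lit 102) r7_282 r8_102 (nat_lit 0) (nat_lit 0) (nat_lit 0) (nat_lit 0x7dc4f5d2de) (nat_lit 1094909400)]
noncomputable def e25_20 : List Rx := [
  Rx.mk (nat_lit 0) (nat_lit 0) (nat_lit 0) (nat_lit 0) (nat_lit 0) (nat_lit 0) (nat_lit 124) r7_0 r0_124 (nat_lit 0) (nat_lit 0) (nat_lit 0) (nat_lit 0x26656fa2a6) (nat_lit 43982313336),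
  Rx.mk (nat_lit 24) (nat_lit 0) (nat_lit 3) (nat_lit 0) (nat_lit 2) (nat_lit 1) (nat_lit 125) r7_1 r0_125 (nat_lit 0) (nat_lit 0) (nat_lit 0) (nat_lit 0x5777047844) (nat_lit 19896786000),
  Rx.mk (nat_lit 27) (nat_lit 3) (nat_lit 3) (nat_lit 0) (nat_lit 3) (nat_lit 2) (nat_lit 126) r7_2 r0_126 (nat_lit 0) (nat_lit 0) (nat_lit 0) (nat_lit 0x7aa48cbc90) (nat_lit 2629613376),
  Rx.mk (nat_lit 64) (nat_lit 0) (nat_lit 0) (nat_lit 1) (nat_lit 4) (nat_lit 3) (nat_lit 127) r7_3 r0_127 (nat_lit 0) (nat_lit 0) (nat_lit 0) (nat_lit 0x6ccff433ee) (nat_lit 9418338072),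
  Rx.mk (nat_lit 88) (nat_lit 0) (nat_lit 3) (nat_lit 1) (nat_lit 6) (nat_lit 4) (nat_lit 128) r7_4 r0_128 (nat_lit 0) (nat_lit 0) (nat_lit 0) (nat_lit 0x7d33d4058c) (nat_lit 1373185008),
  Rx.mk (nat_lit 91) (nat_lit 3) (nat_lit 3) (nat_lit 1) (nat_lit 7) (nat_lit 5) (nat_lit 129) r7_5 r0_129 (nat_lit 0) (nat_lit 0) (nat_lit 0) (nat_lit 0x7dee6ffb12) (nat_lit 1015381224),
  Rx.mk (nat_lit 128) (nat_lit 0) (nat_lit 0) (nat_lit 2) (nat_lit 4) (nat_lit 6) (nat_lit 133) r7_6 r0_133 (nat_lit 0) (nat_lit 0) (nat_lit 0) (nat_lit 0x62b0ff8d58) (nat_lit 14386226400),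
  Rx.mk (nat_lit 130) (nat_lit 2) (nat_lit 0) (nat_lit 2) (nat_lit 5) (nat_lit 8) (nat_lit 136) r7_8 r0_136 (nat_lit 0) (nat_lit 0) (nat_lit 0) (nat_lit 0x7c3f4c0f00) (nat_lit 1842048000),
  Rx.mk (nat_lit 146) (nat_lit 2) (nat_lit 2) (nat_lit 2) (nat_lit 7) (nat_lit 9) (nat_lit 138) r7_9 r0_138 (nat_lit 0) (nat_lit 0) (nat_lit 0) (nat_lit 0x7db74b2d96) (nat_lit 1121113656),
  Rx.mk (nat_lit 152) (nat_lit 0) (nat_lit 3) (nat_lit 2) (nat_lit 6) (nat_lit 7) (nat_lit 134) r7_7 r0_134 (nat_lit 0) (nat_lit 0) (nat_lit 0) (nat_lit 0x7d34a4d87e) (nat_lit 1371620952),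
  Rx.mk (nat_lit 154) (nat_lit 2) (nat_lit 3) (nat_lit 2) (nat_lit 7) (nat_lit 10) (nat_lit 137) r7_10 r0_137 (nat_lit 0) (nat_lit 0) (nat_lit 0) (nat_lit 0x7df1e163f8) (nat_lit 1008779616),
  Rx.mk (nat_lit 155) (nat_lit 3) (nat_lit 3) (nat_lit 2) (nat_lit 7) (nat_lit 11) (nat_lit 135) r7_11 r0_135 (nat_lit 0) (nat_lit 0) (nat_lit 0) (nat_lit 0x7de50491d2) (nat_lit 1033442280),
  Rx.mk (nat_lit 219) (nat_lit 3) (nat_lit 3) (nat_lit 3) (nat_lit 7) (nat_lit 14) (nat_lit 130) r7_14 r0_130 (nat_lit 0) (nat_lit 0) (nat_lit 0) (nat_lit 0x7da85dbc7c) (nat_lit 1149735600),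
  Rx.mk (nat_lit 251) (nat_lit 3) (nat_lit 7) (nat_lit 3) (nat_lit 7) (nat_lit 13) (nat_lit 131) r7_13 r0_131 (nat_lit 0) (nat_lit 0) (nat_lit 0) (nat_lit 0x7dcfeb437c) (nat_lit 1073897136),
  Rx.mk (nat_lit 255) (nat_lit 7) (nat_lit 7) (nat_lit 3) (nat_lit 7) (nat_lit 12) (nat_lit 132) r7_12 r0_132 (nat_lit 0) (nat_lit 0) (nat_lit 0) (nat_lit 0x7df4ed3338) (nat_lit 1002938976)]
noncomputable def e25_21 : List Rx := [
  Rx.mk (nat_lit 0) (nat_lit 0) (nat_lit 0) (nat_lit 0) (nat_lit 0) (nat_lit 15) (nat_lit 131) r7_15 r1_131 (nat_lit 0) (nat_lit 0) (nat_lit 0) (nat_lit 0x3a4548f130) (nat_lit 34226891712),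
  Rx.mk (nat_lit 24) (nat_lit 0) (nat_lit 3) (nat_lit 0) (nat_lit 2) (nat_lit 16) (nat_lit 132) r7_16 r1_132 (nat_lit 0) (nat_lit 0) (nat_lit 0) (nat_lit 0x719cb8e2d6) (nat_lit 7062302520),
  Rx.mk (nat_lit 27) (nat_lit 3) (nat_lit 3) (nat_lit 0) (nat_lit 3) (nat_lit 17) (nat_lit 133) r7_17 r1_133 (nat_lit 0) (nat_lit 0) (nat_lit 0) (nat_lit 0x7d4b722b92) (nat_lit 1327900392),
  Rx.mk (nat_lit 64) (nat_lit 0) (nat_lit 0) (nat_lit 1) (nat_lit 4) (nat_lit 18) (nat_lit 134) r7_18 r1_134 (nat_lit 0) (nat_lit 0) (nat_lit 0) (nat_lit 0x713c198d2c) (nat_lit 7247565936),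
  Rx.mk (nat_lit 88) (nat_lit 0) (nat_lit 3) (nat_lit 1) (nat_lit 6) (nat_lit 19) (nat_lit 135) r7_19 r1_135 (nat_lit 0) (nat_lit 0) (nat_lit 0) (nat_lit 0x7dcb8c896c) (nat_lit 1082276208),
  Rx.mk (nat_lit 91) (nat_lit 3) (nat_lit 3) (nat_lit 1) (nat_lit 7) (nat_lit 20) (nat_lit 136) r7_20 r1_136 (nat_lit 0) (nat_lit 0) (nat_lit 0) (nat_lit 0x7ddfbee632) (nat_lit 1043551080),
  Rx.mk (nat_lit 128) (nat_lit 0) (nat_lit 0) (nat_lit 2) (nat_lit 4) (nat_lit 21) (nat_lit 138) r7_21 r1_138 (nat_lit 0) (nat_lit 0) (nat_lit 0) (nat_lit 0x6d86155126) (nat_lit 9069123960),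
  Rx.mk (nat_lit 130) (nat_lit 2) (nat_lit 0) (nat_lit 2) (nat_lit 5) (nat_lit 22) (nat_lit 139) r7_22 r1_139 (nat_lit 0) (nat_lit 0) (nat_lit 0) (nat_lit 0x78d44382f4) (nat_lit 3519833616),
  Rx.mk (nat_lit 146) (nat_lit 2) (nat_lit 2) (nat_lit 2) (nat_lit 7) (nat_lit 23) (nat_lit 140) r7_23 r1_140 (nat_lit 0) (nat_lit 0) (nat_lit 0) (nat_lit 0x7d782dbfac) (nat_lit 1242130032),
  Rx.mk (nat_lit 219) (nat_lit 3) (nat_lit 3) (nat_lit 3) (nat_lit 7) (nat_lit 24) (nat_lit 137) r7_24 r1_137 (nat_lit 0) (nat_lit 0) (nat_lit 0) (nat_lit 0x7dd37a4a88) (nat_lit 1067073696)]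
noncomputable def e25_22 : List Rx := [
  Rx.mk (nat_lit 24) (nat_lit 0) (nat_lit 3) (nat_lit 0) (nat_lit 2) (nat_lit 47) (nat_lit 114) r7_47 r4_114 (nat_lit 0) (nat_lit 0) (nat_lit 0) (nat_lit 0x754e23e874) (nat_lit 5249561616),
  Rx.mk (nat_lit 27) (nat_lit 3) (nat_lit 3) (nat_lit 0) (nat_lit 3) (nat_lit 49) (nat_lit 115) r7_49 r4_115 (nat_lit 0) (nat_lit 0) (nat_lit 0) (nat_lit 0x7e2a789a4c) (nat_lit 900272880),
  Rx.mk (nat_lit 59) (nat_lit 3) (nat_lit 7) (nat_lit 0) (nat_lit 3) (nat_lit 48) (nat_lit 116) r7_48 r4_116 (nat_lit 0) (nat_lit 0) (nat_lit 0) (nat_lit 0x7da8e3f418) (nat_lit 1148730336),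
  Rx.mk (nat_lit 88) (nat_lit 0) (nat_lit 3) (nat_lit 1) (nat_lit 6) (nat_lit 50) (nat_lit 117) r7_50 r4_117 (nat_lit 0) (nat_lit 0) (nat_lit 0) (nat_lit 0x7dd0edf350) (nat_lit 1071959616),
  Rx.mk (nat_lit 91) (nat_lit 3) (nat_lit 3) (nat_lit 1) (nat_lit 7) (nat_lit 52) (nat_lit 118) r7_52 r4_118 (nat_lit 0) (nat_lit 0) (nat_lit 0) (nat_lit 0x7e35a4078a) (nat_lit 878856264),
  Rx.mk (nat_lit 123) (nat_lit 3) (nat_lit 7) (nat_lit 1) (nat_lit 7) (nat_lit 51) (nat_lit 119) r7_51 r4_119 (nat_lit 0) (nat_lit 0) (nat_lit 0) (nat_lit 0x7ddfec435c) (nat_lit 1043211312),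
  Rx.mk (nat_lit 152) (nat_lit 0) (nat_lit 3) (nat_lit 2) (nat_lit 6) (nat_lit 53) (nat_lit 122) r7_53 r4_122 (nat_lit 0) (nat_lit 0) (nat_lit 0) (nat_lit 0x7dcf55acd6) (nat_lit 1075017528),
  Rx.mk (nat_lit 154) (nat_lit 2) (nat_lit 3) (nat_lit 2) (nat_lit 7) (nat_lit 54) (nat_lit 124) r7_54 r4_124 (nat_lit 0) (nat_lit 0) (nat_lit 0) (nat_lit 0x7dd9115112) (nat_lit 1056355560),
  Rx.mk (nat_lit 155) (nat_lit 3) (nat_lit 3) (nat_lit 2) (nat_lit 7) (nat_lit 55) (nat_lit 123) r7_55 r4_123 (nat_lit 0) (nat_lit 0) (nat_lit 0) (nat_lit 0x7e28211fc6) (nat_lit 904762872),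
  Rx.mk (nat_lit 251) (nat_lit 3) (nat_lit 7) (nat_lit 3) (nat_lit 7) (nat_lit 57) (nat_lit 120) r7_57 r4_120 (nat_lit 0) (nat_lit 0) (nat_lit 0) (nat_lit 0x7de493b8e0) (nat_lit 1034287488),
  Rx.mk (nat_lit 255) (nat_lit 7) (nat_lit 7) (nat_lit 3) (nat_lit 7) (nat_lit 56) (nat_lit 121) r7_56 r4_121 (nat_lit 0) (nat_lit 0) (nat_lit 0) (nat_lit 0x7df910b0fc) (nat_lit 995003568)]
noncomputable def e25_23 : List Rx := [
  Rx.mk (nat_lit 0) (nat_lit 0) (nat_lit 0) (nat_lit 0) (nat_lit 0) (nat_lit 78) (nat_lit 150) r7_78 r6_150 (nat_lit 0) (nat_lit 0) (nat_lit 0) (nat_lit 0x1522d75d6e) (nat_lit 52454509848),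
  Rx.mk (nat_lit 24) (nat_lit 0) (nat_lit 3) (nat_lit 0) (nat_lit 2) (nat_lit 79) (nat_lit 153) r7_79 r6_153 (nat_lit 0) (nat_lit 0) (nat_lit 0) (nat_lit 0x4c4a1c91f0) (nat_lit 25382275776),
  Rx.mk (nat_lit 27) (nat_lit 3) (nat_lit 3) (nat_lit 0) (nat_lit 3) (nat_lit 80) (nat_lit 155) r7_80 r6_155 (nat_lit 0) (nat_lit 0) (nat_lit 0) (nat_lit 0x7cc30772c6) (nat_lit 1589465592),
  Rx.mk (nat_lit 128) (nat_lit 0) (nat_lit 0) (nat_lit 2) (nat_lit 4) (nat_lit 81) (nat_lit 151) r7_81 r6_151 (nat_lit 0) (nat_lit 0) (nat_lit 0) (nat_lit 0x5f26a1d6be) (nat_lit 16124089176),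
  Rx.mk (nat_lit 130) (nat_lit 2) (nat_lit 0) (nat_lit 2) (nat_lit 5) (nat_lit 83) (nat_lit 152) r7_83 r6_152 (nat_lit 0) (nat_lit 0) (nat_lit 0) (nat_lit 0x7cf5e524b8) (nat_lit 1491935328),
  Rx.mk (nat_lit 146) (nat_lit 2) (nat_lit 2) (nat_lit 2) (nat_lit 7) (nat_lit 84) (nat_lit 159) r7_84 r6_159 (nat_lit 0) (nat_lit 0) (nat_lit 0) (nat_lit 0x7daf4b6d9a) (nat_lit 1136450952),
  Rx.mk (nat_lit 152) (nat_lit 0) (nat_lit 3) (nat_lit 2) (nat_lit 6) (nat_lit 82) (nat_lit 154) r7_82 r6_154 (nat_lit 0) (nat_lit 0) (nat_lit 0) (nat_lit 0x7d7099f8f0) (nat_lit 1256658624),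
  Rx.mk (nat_lit 154) (nat_lit 2) (nat_lit 3) (nat_lit 2) (nat_lit 7) (nat_lit 85) (nat_lit 158) r7_85 r6_158 (nat_lit 0) (nat_lit 0) (nat_lit 0) (nat_lit 0x7de9a4e7c8) (nat_lit 1024571808),
  Rx.mk (nat_lit 155) (nat_lit 3) (nat_lit 3) (nat_lit 2) (nat_lit 7) (nat_lit 86) (nat_lit 157) r7_86 r6_157 (nat_lit 0) (nat_lit 0) (nat_lit 0) (nat_lit 0x7da9f1833e) (nat_lit 1146711384),
  Rx.mk (nat_lit 219) (nat_lit 3) (nat_lit 3) (nat_lit 3) (nat_lit 7) (nat_lit 89) (nat_lit 156) r7_89 r6_156 (nat_lit 0) (nat_lit 0) (nat_lit 0) (nat_lit 0x7d97b946d4) (nat_lit 1181645712),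
  Rx.mk (nat_lit 251) (nat_lit 3) (nat_lit 7) (nat_lit 3) (nat_lit 7) (nat_lit 88) (nat_lit 149) r7_88 r6_149 (nat_lit 0) (nat_lit 0) (nat_lit 0) (nat_lit 0x7de5d2c4ee) (nat_lit 1031897880),
  Rx.mk (nat_lit 255) (nat_lit 7) (nat_lit 7) (nat_lit 3) (nat_lit 7) (nat_lit 87) (nat_lit 148) r7_87 r6_148 (nat_lit 0) (nat_lit 0) (nat_lit 0) (nat_lit 0x7df4627be4) (nat_lit 1003977936)]
noncomputable def e25_24 : List Rx := [
  Rx.mk (nat_lit 0) (nat_lit 0) (nat_lit 0) (nat_lit 0) (nat_lit 0) (nat_lit 126) (nat_lit 126) r7_126 r7_126 (nat_lit 0) (nat_lit 0) (nat_lit 0) (nat_lit 0x57c45ec252) (nat_lit 19748470248),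
  Rx.mk (nat_lit 24) (nat_lit 0) (nat_lit 3) (nat_lit 0) (nat_lit 2) (nat_lit 127) (nat_lit 129) r7_127 r7_129 (nat_lit 0) (nat_lit 0) (nat_lit 0) (nat_lit 0x62d0065ccc) (nat_lit 14326736112),
  Rx.mk (nat_lit 27) (nat_lit 3) (nat_lit 3) (nat_lit 0) (nat_lit 3) (nat_lit 128) (nat_lit 130) r7_128 r7_130 (nat_lit 0) (nat_lit 0) (nat_lit 0) (nat_lit 0x7d8535af20) (nat_lit 1217144448),
  Rx.mk (nat_lit 128) (nat_lit 0) (nat_lit 0) (nat_lit 2) (nat_lit 4) (nat_lit 129) (nat_lit 127) r7_129 r7_127 (nat_lit 0) (nat_lit 0) (nat_lit 0) (nat_lit 0x62d0065ccc) (nat_lit 14326736112),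
  Rx.mk (nat_lit 130) (nat_lit 2) (nat_lit 0) (nat_lit 2) (nat_lit 5) (nat_lit 130) (nat_lit 128) r7_130 r7_128 (nat_lit 0) (nat_lit 0) (nat_lit 0) (nat_lit 0x7d8535af20) (nat_lit 1217144448),
  Rx.mk (nat_lit 146) (nat_lit 2) (nat_lit 2) (nat_lit 2) (nat_lit 7) (nat_lit 131) (nat_lit 132) r7_131 r7_132 (nat_lit 0) (nat_lit 0) (nat_lit 0) (nat_lit 0x7dc303320a) (nat_lit 1098644040),
  Rx.mk (nat_lit 219) (nat_lit 3) (nat_lit 3) (nat_lit 3) (nat_lit 7) (nat_lit 132) (nat_lit 131) r7_132 r7_131 (nat_lit 0) (nat_lit 0) (nat_lit 0) (nat_lit 0x7dc303320a) (nat_lit 1098644040)]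
noncomputable def e25_25 : List Rx := [
  Rx.mk (nat_lit 0) (nat_lit 0) (nat_lit 0) (nat_lit 0) (nat_lit 0) (nat_lit 114) (nat_lit 102) r7_114 r7_102 (nat_lit 0) (nat_lit 0) (nat_lit 0) (nat_lit 0x37e5b76ca8) (nat_lit 35391841056),
  Rx.mk (nat_lit 24) (nat_lit 0) (nat_lit 3) (nat_lit 0) (nat_lit 2) (nat_lit 115) (nat_lit 103) r7_115 r7_103 (nat_lit 0) (nat_lit 0) (nat_lit 0) (nat_lit 0x4cd945bece) (nat_lit 25107779736),
  Rx.mk (nat_lit 27) (nat_lit 3) (nat_lit 3) (nat_lit 0) (nat_lit 3) (nat_lit 116) (nat_lit 104) r7_116 r7_104 (nat_lit 0) (nat_lit 0) (nat_lit 0) (nat_lit 0x768ec17d5a) (nat_lit 4634814600),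
  Rx.mk (nat_lit 128) (nat_lit 0) (nat_lit 0) (nat_lit 2) (nat_lit 4) (nat_lit 117) (nat_lit 108) r7_117 r7_108 (nat_lit 0) (nat_lit 0) (nat_lit 0) (nat_lit 0x5ed3604b2a) (nat_lit 16283723976),
  Rx.mk (nat_lit 130) (nat_lit 2) (nat_lit 0) (nat_lit 2) (nat_lit 5) (nat_lit 119) (nat_lit 111) r7_119 r7_111 (nat_lit 0) (nat_lit 0) (nat_lit 0) (nat_lit 0x7b14dd3718) (nat_lit 2414262240),
  Rx.mk (nat_lit 146) (nat_lit 2) (nat_lit 2) (nat_lit 2) (nat_lit 7) (nat_lit 120) (nat_lit 113) r7_120 r7_113 (nat_lit 0) (nat_lit 0) (nat_lit 0) (nat_lit 0x7da43f1e6a) (nat_lit 1157634504),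
  Rx.mk (nat_lit 152) (nat_lit 0) (nat_lit 3) (nat_lit 2) (nat_lit 6) (nat_lit 118) (nat_lit 109) r7_118 r7_109 (nat_lit 0) (nat_lit 0) (nat_lit 0) (nat_lit 0x7cd4dc5566) (nat_lit 1555275384),
  Rx.mk (nat_lit 154) (nat_lit 2) (nat_lit 3) (nat_lit 2) (nat_lit 7) (nat_lit 121) (nat_lit 112) r7_121 r7_112 (nat_lit 0) (nat_lit 0) (nat_lit 0) (nat_lit 0x7de25d3c4a) (nat_lit 1038530376),
  Rx.mk (nat_lit 155) (nat_lit 3) (nat_lit 3) (nat_lit 2) (nat_lit 7) (nat_lit 122) (nat_lit 110) r7_122 r7_110 (nat_lit 0) (nat_lit 0) (nat_lit 0) (nat_lit 0x7df5730ada) (nat_lit 1001936520),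
  Rx.mk (nat_lit 219) (nat_lit 3) (nat_lit 3) (nat_lit 3) (nat_lit 7) (nat_lit 125) (nat_lit 105) r7_125 r7_105 (nat_lit 0) (nat_lit 0) (nat_lit 0) (nat_lit 0x7d9bc765ee) (nat_lit 1173870360),
  Rx.mk (nat_lit 251) (nat_lit 3) (nat_lit 7) (nat_lit 3) (nat_lit 7) (nat_lit 124) (nat_lit 106) r7_124 r7_106 (nat_lit 0) (nat_lit 0) (nat_lit 0) (nat_lit 0x7de62b9f60) (nat_lit 1031232384),
  Rx.mk (nat_lit 255) (nat_lit 7) (nat_lit 7) (nat_lit 3) (nat_lit 7) (nat_lit 123) (nat_lit 107) r7_123 r7_107 (nat_lit 0) (nat_lit 0) (nat_lit 0) (nat_lit 0x7d7c97b908) (nat_lit 1233666720),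
  Rx.mk (nat_lit 292) (nat_lit 4) (nat_lit 4) (nat_lit 4) (nat_lit 0) (nat_lit 102) (nat_lit 114) r7_102 r7_114 (nat_lit 0) (nat_lit 0) (nat_lit 0) (nat_lit 0x37e5b76ca8) (nat_lit 35391841056),
  Rx.mk (nat_lit 308) (nat_lit 4) (nat_lit 6) (nat_lit 4) (nat_lit 2) (nat_lit 103) (nat_lit 115) r7_103 r7_115 (nat_lit 0) (nat_lit 0) (nat_lit 0) (nat_lit 0x4cd945bece) (nat_lit 25107779736),
  Rx.mk (nat_lit 310) (nat_lit 6) (nat_lit 6) (nat_lit 4) (nat_lit 3) (nat_lit 104) (nat_lit 116) r7_104 r7_116 (nat_lit 0) (nat_lit 0) (nat_lit 0) (nat_lit 0x768ec17d5a) (nat_lit 4634814600),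
  Rx.mk (nat_lit 402) (nat_lit 2) (nat_lit 2) (nat_lit 6) (nat_lit 7) (nat_lit 107) (nat_lit 123) r7_107 r7_123 (nat_lit 0) (nat_lit 0) (nat_lit 0) (nat_lit 0x7d7c97b908) (nat_lit 1233666720),
  Rx.mk (nat_lit 406) (nat_lit 6) (nat_lit 2) (nat_lit 6) (nat_lit 7) (nat_lit 106) (nat_lit 124) r7_106 r7_124 (nat_lit 0) (nat_lit 0) (nat_lit 0) (nat_lit 0x7de62b9f60) (nat_lit 1031232384),
  Rx.mk (nat_lit 438) (nat_lit 6) (nat_lit 6) (nat_lit 6) (nat_lit 7) (nat_lit 105) (nat_lit 125) r7_105 r7_125 (nat_lit 0) (nat_lit 0) (nat_lit 0) (nat_lit 0x7d9bc765ee) (nat_lit 1173870360),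
  Rx.mk (nat_lit 484) (nat_lit 4) (nat_lit 4) (nat_lit 7) (nat_lit 4) (nat_lit 108) (nat_lit 117) r7_108 r7_117 (nat_lit 0) (nat_lit 0) (nat_lit 0) (nat_lit 0x5ed3604b2a) (nat_lit 16283723976),
  Rx.mk (nat_lit 487) (nat_lit 7) (nat_lit 4) (nat_lit 7) (nat_lit 5) (nat_lit 111) (nat_lit 119) r7_111 r7_119 (nat_lit 0) (nat_lit 0) (nat_lit 0) (nat_lit 0x7b14dd3718) (nat_lit 2414262240),
  Rx.mk (nat_lit 500) (nat_lit 4) (nat_lit 6) (nat_lit 7) (nat_lit 6) (nat_lit 109) (nat_lit 118) r7_109 r7_118 (nat_lit 0) (nat_lit 0) (nat_lit 0) (nat_lit 0x7cd4dc5566) (nat_lit 1555275384),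
  Rx.mk (nat_lit 502) (nat_lit 6) (nat_lit 6) (nat_lit 7) (nat_lit 7) (nat_lit 110) (nat_lit 122) r7_110 r7_122 (nat_lit 0) (nat_lit 0) (nat_lit 0) (nat_lit 0x7df5730ada) (nat_lit 1001936520),
  Rx.mk (nat_lit 503) (nat_lit 7) (nat_lit 6) (nat_lit 7) (nat_lit 7) (nat_lit 112) (nat_lit 121) r7_112 r7_121 (nat_lit 0) (nat_lit 0) (nat_lit 0) (nat_lit 0x7de25d3c4a) (nat_lit 1038530376),
  Rx.mk (nat_lit 511) (nat_lit 7) (nat_lit 7) (nat_lit 7) (nat_lit 7) (nat_lit 113) (nat_lit 120) r7_113 r7_120 (nat_lit 0) (nat_lit 0) (nat_lit 0) (nat_lit 0x7da43f1e6a) (nat_lit 1157634504)]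
noncomputable def e25_26 : List Rx := [
  Rx.mk (nat_lit 24) (nat_lit 0) (nat_lit 3) (nat_lit 0) (nat_lit 2) (nat_lit 149) (nat_lit 112) r7_149 r9_112 (nat_lit 0) (nat_lit 0) (nat_lit 0) (nat_lit 0x697a4a51e2) (nat_lit 11055149352),
  Rx.mk (nat_lit 27) (nat_lit 3) (nat_lit 3) (nat_lit 0) (nat_lit 3) (nat_lit 151) (nat_lit 114) r7_151 r9_114 (nat_lit 0) (nat_lit 0) (nat_lit 0) (nat_lit 0x7d71a7281c) (nat_lit 1254642480),
  Rx.mk (nat_lit 59) (nat_lit 3) (nat_lit 7) (nat_lit 0) (nat_lit 3) (nat_lit 150) (nat_lit 110) r7_150 r9_110 (nat_lit 0) (nat_lit 0) (nat_lit 0) (nat_lit 0x7df79428c6) (nat_lit 997853688),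
  Rx.mk (nat_lit 152) (nat_lit 0) (nat_lit 3) (nat_lit 2) (nat_lit 6) (nat_lit 152) (nat_lit 113) r7_152 r9_113 (nat_lit 0) (nat_lit 0) (nat_lit 0) (nat_lit 0x7d98e3b42c) (nat_lit 1179410544),
  Rx.mk (nat_lit 154) (nat_lit 2) (nat_lit 3) (nat_lit 2) (nat_lit 7) (nat_lit 153) (nat_lit 116) r7_153 r9_116 (nat_lit 0) (nat_lit 0) (nat_lit 0) (nat_lit 0x7dddb20702) (nat_lit 1047482280),
  Rx.mk (nat_lit 155) (nat_lit 3) (nat_lit 3) (nat_lit 2) (nat_lit 7) (nat_lit 154) (nat_lit 115) r7_154 r9_115 (nat_lit 0) (nat_lit 0) (nat_lit 0) (nat_lit 0x7df9b7868e) (nat_lit 993754008),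
  Rx.mk (nat_lit 251) (nat_lit 3) (nat_lit 7) (nat_lit 3) (nat_lit 7) (nat_lit 156) (nat_lit 111) r7_156 r9_111 (nat_lit 0) (nat_lit 0) (nat_lit 0) (nat_lit 0x7dc2cfd540) (nat_lit 1099028736),
  Rx.mk (nat_lit 255) (nat_lit 7) (nat_lit 7) (nat_lit 3) (nat_lit 7) (nat_lit 155) (nat_lit 109) r7_155 r9_109 (nat_lit 0) (nat_lit 0) (nat_lit 0) (nat_lit 0x7dcddbc476) (nat_lit 1077847992)]
noncomputable def e25_27 : List Rx := [
  Rx.mk (nat_lit 27) (nat_lit 3) (nat_lit 3) (nat_lit 0) (nat_lit 3) (nat_lit 208) (nat_lit 120) r7_208 r10_120 (nat_lit 0) (nat_lit 0) (nat_lit 0) (nat_lit 0x7da81b00a8) (nat_lit 1150235424),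
  Rx.mk (nat_lit 59) (nat_lit 3) (nat_lit 7) (nat_lit 0) (nat_lit 3) (nat_lit 207) (nat_lit 118) r7_207 r10_118 (nat_lit 0) (nat_lit 0) (nat_lit 0) (nat_lit 0x7dcad2f506) (nat_lit 1083666168),
  Rx.mk (nat_lit 63) (nat_lit 7) (nat_lit 7) (nat_lit 0) (nat_lit 3) (nat_lit 206) (nat_lit 115) r7_206 r10_115 (nat_lit 0) (nat_lit 0) (nat_lit 0) (nat_lit 0x7d7cc21662) (nat_lit 1233349416),
  Rx.mk (nat_lit 91) (nat_lit 3) (nat_lit 3) (nat_lit 1) (nat_lit 7) (nat_lit 211) (nat_lit 121) r7_211 r10_121 (nat_lit 0) (nat_lit 0) (nat_lit 0) (nat_lit 0x7df45c7c44) (nat_lit 1004022864),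
  Rx.mk (nat_lit 123) (nat_lit 3) (nat_lit 7) (nat_lit 1) (nat_lit 7) (nat_lit 210) (nat_lit 119) r7_210 r10_119 (nat_lit 0) (nat_lit 0) (nat_lit 0) (nat_lit 0x7de6733ae6) (nat_lit 1030696056),
  Rx.mk (nat_lit 127) (nat_lit 7) (nat_lit 7) (nat_lit 1) (nat_lit 7) (nat_lit 209) (nat_lit 116) r7_209 r10_116 (nat_lit 0) (nat_lit 0) (nat_lit 0) (nat_lit 0x7deb46eda6) (nat_lit 1021440888),
  Rx.mk (nat_lit 155) (nat_lit 3) (nat_lit 3) (nat_lit 2) (nat_lit 7) (nat_lit 212) (nat_lit 122) r7_212 r10_122 (nat_lit 0) (nat_lit 0) (nat_lit 0) (nat_lit 0x7dd511d10e) (nat_lit 1064021400),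
  Rx.mk (nat_lit 255) (nat_lit 7) (nat_lit 7) (nat_lit 3) (nat_lit 7) (nat_lit 213) (nat_lit 117) r7_213 r10_117 (nat_lit 0) (nat_lit 0) (nat_lit 0) (nat_lit 0x7df08459ca) (nat_lit 1011393864)]
noncomputable def e25_28 : List Rx := [
  Rx.mk (nat_lit 359) (nat_lit 7) (nat_lit 4) (nat_lit 5) (nat_lit 5) (nat_lit 358) (nat_lit 335) r7_358 r10_335 (nat_lit 0) (nat_lit 0) (nat_lit 0) (nat_lit 0x7de88259f2) (nat_lit 1026748008),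
  Rx.mk (nat_lit 367) (nat_lit 7) (nat_lit 5) (nat_lit 5) (nat_lit 7) (nat_lit 359) (nat_lit 336) r7_359 r10_336 (nat_lit 0) (nat_lit 0) (nat_lit 0) (nat_lit 0x7de822bfec) (nat_lit 1027464048),
  Rx.mk (nat_lit 375) (nat_lit 7) (nat_lit 6) (nat_lit 5) (nat_lit 7) (nat_lit 360) (nat_lit 337) r7_360 r10_337 (nat_lit 0) (nat_lit 0) (nat_lit 0) (nat_lit 0x7df139ce72) (nat_lit 1010034792)]
noncomputable def e25_29 : List Rx := [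
  Rx.mk (nat_lit 99) (nat_lit 3) (nat_lit 4) (nat_lit 1) (nat_lit 5) (nat_lit 71) (nat_lit 203) r7_71 r5_203 (nat_lit 0) (nat_lit 0) (nat_lit 0) (nat_lit 0x7e43268f54) (nat_lit 852952464),
  Rx.mk (nat_lit 107) (nat_lit 3) (nat_lit 5) (nat_lit 1) (nat_lit 7) (nat_lit 72) (nat_lit 204) r7_72 r5_204 (nat_lit 0) (nat_lit 0) (nat_lit 0) (nat_lit 0x7df5604c06) (nat_lit 1002076920),
  Rx.mk (nat_lit 123) (nat_lit 3) (nat_lit 7) (nat_lit 1) (nat_lit 7) (nat_lit 73) (nat_lit 205) r7_73 r5_205 (nat_lit 0) (nat_lit 0) (nat_lit 0) (nat_lit 0x7dbca6f7d4) (nat_lit 1110839184)]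
noncomputable def e25_30 : List Rx := [
  Rx.mk (nat_lit 59) (nat_lit 3) (nat_lit 7) (nat_lit 0) (nat_lit 3) (nat_lit 157) (nat_lit 113) r7_157 r10_113 (nat_lit 0) (nat_lit 0) (nat_lit 0) (nat_lit 0x7dd4373eb8) (nat_lit 1065658464),
  Rx.mk (nat_lit 251) (nat_lit 3) (nat_lit 7) (nat_lit 3) (nat_lit 7) (nat_lit 158) (nat_lit 114) r7_158 r10_114 (nat_lit 0) (nat_lit 0) (nat_lit 0) (nat_lit 0x7deba267ee) (nat_lit 1020755736)]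
noncomputable def e25_31 : List Rx := [
  Rx.mk (nat_lit 99) (nat_lit 3) (nat_lit 4) (nat_lit 1) (nat_lit 5) (nat_lit 216) (nat_lit 310) r7_216 r5_310 (nat_lit 0) (nat_lit 0) (nat_lit 0) (nat_lit 0x7e615cebd0) (nat_lit 795023424),
  Rx.mk (nat_lit 103) (nat_lit 7) (nat_lit 4) (nat_lit 1) (nat_lit 5) (nat_lit 214) (nat_lit 311) r7_214 r5_311 (nat_lit 0) (nat_lit 0) (nat_lit 0) (nat_lit 0x7de4c1160a) (nat_lit 1033947720),
  Rx.mk (nat_lit 107) (nat_lit 3) (nat_lit 5) (nat_lit 1) (nat_lit 7) (nat_lit 217) (nat_lit 312) r7_217 r5_312 (nat_lit 0) (nat_lit 0) (nat_lit 0) (nat_lit 0x7defd5a4b6) (nat_lit 1012702392),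
  Rx.mk (nat_lit 111) (nat_lit 7) (nat_lit 5) (nat_lit 1) (nat_lit 7) (nat_lit 215) (nat_lit 313) r7_215 r5_313 (nat_lit 0) (nat_lit 0) (nat_lit 0) (nat_lit 0x7dec1be056) (nat_lit 1019845944)]
noncomputable def e25_32 : List Rx := [
  Rx.mk (nat_lit 99) (nat_lit 3) (nat_lit 4) (nat_lit 1) (nat_lit 5) (nat_lit 227) (nat_lit 208) r7_227 r11_208 (nat_lit 0) (nat_lit 0) (nat_lit 0) (nat_lit 0x7e01a8a774) (nat_lit 978526224),
  Rx.mk (nat_lit 103) (nat_lit 7) (nat_lit 4) (nat_lit 1) (nat_lit 5) (nat_lit 225) (nat_lit 211) r7_225 r11_211 (nat_lit 0) (nat_lit 0) (nat_lit 0) (nat_lit 0x7da1c16648) (nat_lit 1162410912),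
  Rx.mk (nat_lit 107) (nat_lit 3) (nat_lit 5) (nat_lit 1) (nat_lit 7) (nat_lit 228) (nat_lit 209) r7_228 r11_209 (nat_lit 0) (nat_lit 0) (nat_lit 0) (nat_lit 0x7dddf522d0) (nat_lit 1046979648),
  Rx.mk (nat_lit 111) (nat_lit 7) (nat_lit 5) (nat_lit 1) (nat_lit 7) (nat_lit 226) (nat_lit 212) r7_226 r11_212 (nat_lit 0) (nat_lit 0) (nat_lit 0) (nat_lit 0x7dc9a2e808) (nat_lit 1085943456),
  Rx.mk (nat_lit 123) (nat_lit 3) (nat_lit 7) (nat_lit 1) (nat_lit 7) (nat_lit 229) (nat_lit 210) r7_229 r11_210 (nat_lit 0) (nat_lit 0) (nat_lit 0) (nat_lit 0x7dcd9548de) (nat_lit 1078375896)]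
noncomputable def e25_33 : List Rx := [
  Rx.mk (nat_lit 72) (nat_lit 0) (nat_lit 1) (nat_lit 1) (nat_lit 6) (nat_lit 64) (nat_lit 186) r7_64 r0_186 (nat_lit 0) (nat_lit 0) (nat_lit 0) (nat_lit 0x7db1ff225c) (nat_lit 1131270192),
  Rx.mk (nat_lit 75) (nat_lit 3) (nat_lit 1) (nat_lit 1) (nat_lit 7) (nat_lit 65) (nat_lit 187) r7_65 r0_187 (nat_lit 0) (nat_lit 0) (nat_lit 0) (nat_lit 0x7dec1700a4) (nat_lit 1019882448),
  Rx.mk (nat_lit 104) (nat_lit 0) (nat_lit 5) (nat_lit 1) (nat_lit 6) (nat_lit 63) (nat_lit 185) r7_63 r0_185 (nat_lit 0) (nat_lit 0) (nat_lit 0) (nat_lit 0x7e2fea232e) (nat_lit 889835544)]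
noncomputable def e25_34 : List Rx := [
  Rx.mk (nat_lit 104) (nat_lit 0) (nat_lit 5) (nat_lit 1) (nat_lit 6) (nat_lit 178) (nat_lit 289) r7_178 r0_289 (nat_lit 0) (nat_lit 0) (nat_lit 0) (nat_lit 0x7b30873c5c) (nat_lit 2361219120),
  Rx.mk (nat_lit 105) (nat_lit 1) (nat_lit 5) (nat_lit 1) (nat_lit 7) (nat_lit 179) (nat_lit 290) r7_179 r0_290 (nat_lit 0) (nat_lit 0) (nat_lit 0) (nat_lit 0x7df79428c6) (nat_lit 997853688)]
noncomputable def e25_35 : List Rx := [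
  Rx.mk (nat_lit 72) (nat_lit 0) (nat_lit 1) (nat_lit 1) (nat_lit 6) (nat_lit 185) (nat_lit 242) r7_185 r6_242 (nat_lit 0) (nat_lit 0) (nat_lit 0) (nat_lit 0x7d9c65fc04) (nat_lit 1172682576),
  Rx.mk (nat_lit 73) (nat_lit 1) (nat_lit 1) (nat_lit 1) (nat_lit 7) (nat_lit 187) (nat_lit 244) r7_187 r6_244 (nat_lit 0) (nat_lit 0) (nat_lit 0) (nat_lit 0x7dbbebe386) (nat_lit 1112240376),
  Rx.mk (nat_lit 75) (nat_lit 3) (nat_lit 1) (nat_lit 1) (nat_lit 7) (nat_lit 188) (nat_lit 245) r7_188 r6_245 (nat_lit 0) (nat_lit 0) (nat_lit 0) (nat_lit 0x7dbabc967c) (nat_lit 1114512048),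
  Rx.mk (nat_lit 104) (nat_lit 0) (nat_lit 5) (nat_lit 1) (nat_lit 6) (nat_lit 184) (nat_lit 241) r7_184 r6_241 (nat_lit 0) (nat_lit 0) (nat_lit 0) (nat_lit 0x7de7386e92) (nat_lit 1029219048),
  Rx.mk (nat_lit 105) (nat_lit 1) (nat_lit 5) (nat_lit 1) (nat_lit 7) (nat_lit 186) (nat_lit 243) r7_186 r6_243 (nat_lit 0) (nat_lit 0) (nat_lit 0) (nat_lit 0x7de4f1130a) (nat_lit 1033588296)]
noncomputable def e25_36 : List Rx := [
  Rx.mk (nat_lit 105) (nat_lit 1) (nat_lit 5) (nat_lit 1) (nat_lit 7) (nat_lit 322) (nat_lit 312) r7_322 r2_312 (nat_lit 0) (nat_lit 0) (nat_lit 0) (nat_lit 0x7dacc2d626) (nat_lit 1141308792),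
  Rx.mk (nat_lit 109) (nat_lit 5) (nat_lit 5) (nat_lit 1) (nat_lit 7) (nat_lit 321) (nat_lit 313) r7_321 r2_313 (nat_lit 0) (nat_lit 0) (nat_lit 0) (nat_lit 0x7dd04e3d4c) (nat_lit 1073155824),
  Rx.mk (nat_lit 365) (nat_lit 5) (nat_lit 5) (nat_lit 5) (nat_lit 7) (nat_lit 320) (nat_lit 314) r7_320 r2_314 (nat_lit 0) (nat_lit 0) (nat_lit 0) (nat_lit 0x7de672daec) (nat_lit 1030698864)]
noncomputable def e25_37 : List Rx := [
  Rx.mk (nat_lit 73) (nat_lit 1) (nat_lit 1) (nat_lit 1) (nat_lit 7) (nat_lit 330) (nat_lit 294) r7_330 r8_294 (nat_lit 0) (nat_lit 0) (nat_lit 0) (nat_lit 0x7de241de00) (nat_lit 1038735360),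
  Rx.mk (nat_lit 105) (nat_lit 1) (nat_lit 5) (nat_lit 1) (nat_lit 7) (nat_lit 329) (nat_lit 295) r7_329 r8_295 (nat_lit 0) (nat_lit 0) (nat_lit 0) (nat_lit 0x7dafdd447c) (nat_lit 1135358640),
  Rx.mk (nat_lit 109) (nat_lit 5) (nat_lit 5) (nat_lit 1) (nat_lit 7) (nat_lit 328) (nat_lit 296) r7_328 r8_296 (nat_lit 0) (nat_lit 0) (nat_lit 0) (nat_lit 0x7dd57faa30) (nat_lit 1063198656),
  Rx.mk (nat_lit 365) (nat_lit 5) (nat_lit 5) (nat_lit 5) (nat_lit 7) (nat_lit 327) (nat_lit 297) r7_327 r8_297 (nat_lit 0) (nat_lit 0) (nat_lit 0) (nat_lit 0x7de90d7140) (nat_lit 1025706240)]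
noncomputable def e25_38 : List Rx := [
  Rx.mk (nat_lit 365) (nat_lit 5) (nat_lit 5) (nat_lit 5) (nat_lit 7) (nat_lit 326) (nat_lit 289) r7_326 r8_289 (nat_lit 0) (nat_lit 0) (nat_lit 0) (nat_lit 0x7df343add2) (nat_lit 1006126056)]
noncomputable def e25_39 : List Rx := [
  Rx.mk (nat_lit 105) (nat_lit 1) (nat_lit 5) (nat_lit 1) (nat_lit 7) (nat_lit 180) (nat_lit 286) r7_180 r1_286 (nat_lit 0) (nat_lit 0) (nat_lit 0) (nat_lit 0x7de3424df8) (nat_lit 1036814688)]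
noncomputable def e25_40 : List Rx := [
  Rx.mk (nat_lit 73) (nat_lit 1) (nat_lit 1) (nat_lit 1) (nat_lit 7) (nat_lit 190) (nat_lit 190) r7_190 r7_190 (nat_lit 0) (nat_lit 0) (nat_lit 0) (nat_lit 0x7de57f2a28) (nat_lit 1032524064),
  Rx.mk (nat_lit 105) (nat_lit 1) (nat_lit 5) (nat_lit 1) (nat_lit 7) (nat_lit 189) (nat_lit 189) r7_189 r7_189 (nat_lit 0) (nat_lit 0) (nat_lit 0) (nat_lit 0x7deaf8f286) (nat_lit 1022024952)]
noncomputable def e25_41 : List Rx := [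
  Rx.mk (nat_lit 72) (nat_lit 0) (nat_lit 1) (nat_lit 1) (nat_lit 6) (nat_lit 66) (nat_lit 199) r7_66 r1_199 (nat_lit 0) (nat_lit 0) (nat_lit 0) (nat_lit 0x7d80f19366) (nat_lit 1225324152),
  Rx.mk (nat_lit 75) (nat_lit 3) (nat_lit 1) (nat_lit 1) (nat_lit 7) (nat_lit 67) (nat_lit 200) r7_67 r1_200 (nat_lit 0) (nat_lit 0) (nat_lit 0) (nat_lit 0x7df471daee) (nat_lit 1003862808)]
noncomputable def e25_42 : List Rx := [
  Rx.mk (nat_lit 0) (nat_lit 0) (nat_lit 0) (nat_lit 0) (nat_lit 0) (nat_lit 25) (nat_lit 203) r7_25 r2_203 (nat_lit 0) (nat_lit 0) (nat_lit 0) (nat_lit 0x29642f73aa) (nat_lit 42512151240),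
  Rx.mk (nat_lit 3) (nat_lit 3) (nat_lit 0) (nat_lit 0) (nat_lit 1) (nat_lit 27) (nat_lit 209) r7_27 r2_209 (nat_lit 0) (nat_lit 0) (nat_lit 0) (nat_lit 0x7ba3736d26) (nat_lit 2140866936),
  Rx.mk (nat_lit 8) (nat_lit 0) (nat_lit 1) (nat_lit 0) (nat_lit 2) (nat_lit 26) (nat_lit 204) r7_26 r2_204 (nat_lit 0) (nat_lit 0) (nat_lit 0) (nat_lit 0x7204dfa002) (nat_lit 6862603176),
  Rx.mk (nat_lit 11) (nat_lit 3) (nat_lit 1) (nat_lit 0) (nat_lit 3) (nat_lit 28) (nat_lit 210) r7_28 r2_210 (nat_lit 0) (nat_lit 0) (nat_lit 0) (nat_lit 0x7dded494d8) (nat_lit 1045306080),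
  Rx.mk (nat_lit 27) (nat_lit 3) (nat_lit 3) (nat_lit 0) (nat_lit 3) (nat_lit 29) (nat_lit 211) r7_29 r2_211 (nat_lit 0) (nat_lit 0) (nat_lit 0) (nat_lit 0x7dacbf765c) (nat_lit 1141334064),
  Rx.mk (nat_lit 64) (nat_lit 0) (nat_lit 0) (nat_lit 1) (nat_lit 4) (nat_lit 30) (nat_lit 205) r7_30 r2_205 (nat_lit 0) (nat_lit 0) (nat_lit 0) (nat_lit 0x7afaf2d5d8) (nat_lit 2463952608),
  Rx.mk (nat_lit 67) (nat_lit 3) (nat_lit 0) (nat_lit 1) (nat_lit 5) (nat_lit 32) (nat_lit 212) r7_32 r2_212 (nat_lit 0) (nat_lit 0) (nat_lit 0) (nat_lit 0x7de3209014) (nat_lit 1037067408),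
  Rx.mk (nat_lit 72) (nat_lit 0) (nat_lit 1) (nat_lit 1) (nat_lit 6) (nat_lit 31) (nat_lit 206) r7_31 r2_206 (nat_lit 0) (nat_lit 0) (nat_lit 0) (nat_lit 0x7d1ecd760a) (nat_lit 1413499464),
  Rx.mk (nat_lit 75) (nat_lit 3) (nat_lit 1) (nat_lit 1) (nat_lit 7) (nat_lit 33) (nat_lit 213) r7_33 r2_213 (nat_lit 0) (nat_lit 0) (nat_lit 0) (nat_lit 0x7df944cdba) (nat_lit 994613256),
  Rx.mk (nat_lit 91) (nat_lit 3) (nat_lit 3) (nat_lit 1) (nat_lit 7) (nat_lit 34) (nat_lit 214) r7_34 r2_214 (nat_lit 0) (nat_lit 0) (nat_lit 0) (nat_lit 0x7dd548ed9c) (nat_lit 1063608624),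
  Rx.mk (nat_lit 128) (nat_lit 0) (nat_lit 0) (nat_lit 2) (nat_lit 4) (nat_lit 35) (nat_lit 207) r7_35 r2_207 (nat_lit 0) (nat_lit 0) (nat_lit 0) (nat_lit 0x7a45758e62) (nat_lit 2811939624),
  Rx.mk (nat_lit 130) (nat_lit 2) (nat_lit 0) (nat_lit 2) (nat_lit 5) (nat_lit 37) (nat_lit 218) r7_37 r2_218 (nat_lit 0) (nat_lit 0) (nat_lit 0) (nat_lit 0x7ddea617c0) (nat_lit 1045654272),
  Rx.mk (nat_lit 131) (nat_lit 3) (nat_lit 0) (nat_lit 2) (nat_lit 5) (nat_lit 40) (nat_lit 216) r7_40 r2_216 (nat_lit 0) (nat_lit 0) (nat_lit 0) (nat_lit 0x7d9f1fb066) (nat_lit 1167456888),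
  Rx.mk (nat_lit 136) (nat_lit 0) (nat_lit 1) (nat_lit 2) (nat_lit 6) (nat_lit 36) (nat_lit 208) r7_36 r2_208 (nat_lit 0) (nat_lit 0) (nat_lit 0) (nat_lit 0x7dd31cf05e) (nat_lit 1067772888),
  Rx.mk (nat_lit 138) (nat_lit 2) (nat_lit 1) (nat_lit 2) (nat_lit 7) (nat_lit 38) (nat_lit 219) r7_38 r2_219 (nat_lit 0) (nat_lit 0) (nat_lit 0) (nat_lit 0x7de929ef78) (nat_lit 1025492832),
  Rx.mk (nat_lit 139) (nat_lit 3) (nat_lit 1) (nat_lit 2) (nat_lit 7) (nat_lit 41) (nat_lit 217) r7_41 r2_217 (nat_lit 0) (nat_lit 0) (nat_lit 0) (nat_lit 0x7dcf8c696a) (nat_lit 1074607560),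
  Rx.mk (nat_lit 146) (nat_lit 2) (nat_lit 2) (nat_lit 2) (nat_lit 7) (nat_lit 39) (nat_lit 220) r7_39 r2_220 (nat_lit 0) (nat_lit 0) (nat_lit 0) (nat_lit 0x7de105d1c2) (nat_lit 1041102504),
  Rx.mk (nat_lit 219) (nat_lit 3) (nat_lit 3) (nat_lit 3) (nat_lit 7) (nat_lit 42) (nat_lit 215) r7_42 r2_215 (nat_lit 0) (nat_lit 0) (nat_lit 0) (nat_lit 0x7dd1b1471a) (nat_lit 1070496648)]
noncomputable def e25_43 : List Rx := [
  Rx.mk (nat_lit 72) (nat_lit 0) (nat_lit 1) (nat_lit 1) (nat_lit 6) (nat_lit 191) (nat_lit 323) r7_191 r7_323 (nat_lit 0) (nat_lit 0) (nat_lit 0) (nat_lit 0x7cf1f683a6) (nat_lit 1499474808),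
  Rx.mk (nat_lit 73) (nat_lit 1) (nat_lit 1) (nat_lit 1) (nat_lit 7) (nat_lit 192) (nat_lit 324) r7_192 r7_324 (nat_lit 0) (nat_lit 0) (nat_lit 0) (nat_lit 0x7dd911b10c) (nat_lit 1056352752),
  Rx.mk (nat_lit 75) (nat_lit 3) (nat_lit 1) (nat_lit 1) (nat_lit 7) (nat_lit 193) (nat_lit 325) r7_193 r7_325 (nat_lit 0) (nat_lit 0) (nat_lit 0) (nat_lit 0x7ddc447ddc) (nat_lit 1050220080)]
noncomputable def e25_44 : List Rx := [
  Rx.mk (nat_lit 0) (nat_lit 0) (nat_lit 0) (nat_lit 0) (nat_lit 0) (nat_lit 159) (nat_lit 183) r7_159 r8_183 (nat_lit 0) (nat_lit 0) (nat_lit 0) (nat_lit 0xf50b40576) (nat_lit 55311694776),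
  Rx.mk (nat_lit 3) (nat_lit 3) (nat_lit 0) (nat_lit 0) (nat_lit 1) (nat_lit 162) (nat_lit 192) r7_162 r8_192 (nat_lit 0) (nat_lit 0) (nat_lit 0) (nat_lit 0x69ea215402) (nat_lit 10840708008),
  Rx.mk (nat_lit 8) (nat_lit 0) (nat_lit 1) (nat_lit 0) (nat_lit 2) (nat_lit 160) (nat_lit 184) r7_160 r8_184 (nat_lit 0) (nat_lit 0) (nat_lit 0) (nat_lit 0x6e6da8770c) (nat_lit 8625103344),
  Rx.mk (nat_lit 9) (nat_lit 1) (nat_lit 1) (nat_lit 0) (nat_lit 3) (nat_lit 161) (nat_lit 189) r7_161 r8_189 (nat_lit 0) (nat_lit 0) (nat_lit 0) (nat_lit 0x7d74577d14) (nat_lit 1249486992),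
  Rx.mk (nat_lit 11) (nat_lit 3) (nat_lit 1) (nat_lit 0) (nat_lit 3) (nat_lit 163) (nat_lit 193) r7_163 r8_193 (nat_lit 0) (nat_lit 0) (nat_lit 0) (nat_lit 0x7dd111311c) (nat_lit 1071695664),
  Rx.mk (nat_lit 27) (nat_lit 3) (nat_lit 3) (nat_lit 0) (nat_lit 3) (nat_lit 164) (nat_lit 194) r7_164 r8_194 (nat_lit 0) (nat_lit 0) (nat_lit 0) (nat_lit 0x7dde503d1e) (nat_lit 1046297304),
  Rx.mk (nat_lit 64) (nat_lit 0) (nat_lit 0) (nat_lit 1) (nat_lit 4) (nat_lit 165) (nat_lit 185) r7_165 r8_185 (nat_lit 0) (nat_lit 0) (nat_lit 0) (nat_lit 0x5ded7eea26) (nat_lit 16724495736),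
  Rx.mk (nat_lit 67) (nat_lit 3) (nat_lit 0) (nat_lit 1) (nat_lit 5) (nat_lit 168) (nat_lit 195) r7_168 r8_195 (nat_lit 0) (nat_lit 0) (nat_lit 0) (nat_lit 0x7dc8110128) (nat_lit 1088953632),
  Rx.mk (nat_lit 72) (nat_lit 0) (nat_lit 1) (nat_lit 1) (nat_lit 6) (nat_lit 166) (nat_lit 186) r7_166 r8_186 (nat_lit 0) (nat_lit 0) (nat_lit 0) (nat_lit 0x7c45bbc7fe) (nat_lit 1829706840),
  Rx.mk (nat_lit 73) (nat_lit 1) (nat_lit 1) (nat_lit 1) (nat_lit 7) (nat_lit 167) (nat_lit 190) r7_167 r8_190 (nat_lit 0) (nat_lit 0) (nat_lit 0) (nat_lit 0x7db6535d14) (nat_lit 1122969744),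
  Rx.mk (nat_lit 75) (nat_lit 3) (nat_lit 1) (nat_lit 1) (nat_lit 7) (nat_lit 169) (nat_lit 196) r7_169 r8_196 (nat_lit 0) (nat_lit 0) (nat_lit 0) (nat_lit 0x7df38ba952) (nat_lit 1005586920),
  Rx.mk (nat_lit 91) (nat_lit 3) (nat_lit 3) (nat_lit 1) (nat_lit 7) (nat_lit 170) (nat_lit 197) r7_170 r8_197 (nat_lit 0) (nat_lit 0) (nat_lit 0) (nat_lit 0x7df0e8138e) (nat_lit 1010646936),
  Rx.mk (nat_lit 128) (nat_lit 0) (nat_lit 0) (nat_lit 2) (nat_lit 4) (nat_lit 171) (nat_lit 187) r7_171 r8_187 (nat_lit 0) (nat_lit 0) (nat_lit 0) (nat_lit 0x6bc7e5f5da) (nat_lit 9924637320),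
  Rx.mk (nat_lit 130) (nat_lit 2) (nat_lit 0) (nat_lit 2) (nat_lit 5) (nat_lit 174) (nat_lit 199) r7_174 r8_199 (nat_lit 0) (nat_lit 0) (nat_lit 0) (nat_lit 0x7dcf674bbc) (nat_lit 1074885552),
  Rx.mk (nat_lit 136) (nat_lit 0) (nat_lit 1) (nat_lit 2) (nat_lit 6) (nat_lit 172) (nat_lit 188) r7_172 r8_188 (nat_lit 0) (nat_lit 0) (nat_lit 0) (nat_lit 0x7d82afb782) (nat_lit 1221982632),
  Rx.mk (nat_lit 137) (nat_lit 1) (nat_lit 1) (nat_lit 2) (nat_lit 7) (nat_lit 173) (nat_lit 191) r7_173 r8_191 (nat_lit 0) (nat_lit 0) (nat_lit 0) (nat_lit 0x7dea7a9a6c) (nat_lit 1022971248),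
  Rx.mk (nat_lit 138) (nat_lit 2) (nat_lit 1) (nat_lit 2) (nat_lit 7) (nat_lit 175) (nat_lit 200) r7_175 r8_200 (nat_lit 0) (nat_lit 0) (nat_lit 0) (nat_lit 0x7ddabb966c) (nat_lit 1053162864),
  Rx.mk (nat_lit 146) (nat_lit 2) (nat_lit 2) (nat_lit 2) (nat_lit 7) (nat_lit 176) (nat_lit 201) r7_176 r8_201 (nat_lit 0) (nat_lit 0) (nat_lit 0) (nat_lit 0x7dec61fbf4) (nat_lit 1019320848),
  Rx.mk (nat_lit 219) (nat_lit 3) (nat_lit 3) (nat_lit 3) (nat_lit 7) (nat_lit 177) (nat_lit 198) r7_177 r8_198 (nat_lit 0) (nat_lit 0) (nat_lit 0) (nat_lit 0x7ddc561cc2) (nat_lit 1050088104)]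
noncomputable def e25_45 : List Rx := [
  Rx.mk (nat_lit 0) (nat_lit 0) (nat_lit 0) (nat_lit 0) (nat_lit 0) (nat_lit 133) (nat_lit 86) r7_133 r8_86 (nat_lit 0) (nat_lit 0) (nat_lit 0) (nat_lit 0x4dd0ff623c) (nat_lit 24632792496),
  Rx.mk (nat_lit 3) (nat_lit 3) (nat_lit 0) (nat_lit 0) (nat_lit 1) (nat_lit 135) (nat_lit 88) r7_135 r8_88 (nat_lit 0) (nat_lit 0) (nat_lit 0) (nat_lit 0x79a02d0390) (nat_lit 3128853312),
  Rx.mk (nat_lit 8) (nat_lit 0) (nat_lit 1) (nat_lit 0) (nat_lit 2) (nat_lit 134) (nat_lit 87) r7_134 r8_87 (nat_lit 0) (nat_lit 0) (nat_lit 0) (nat_lit 0x726c30aa8a) (nat_lit 6664504392),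
  Rx.mk (nat_lit 11) (nat_lit 3) (nat_lit 1) (nat_lit 0) (nat_lit 3) (nat_lit 136) (nat_lit 89) r7_136 r8_89 (nat_lit 0) (nat_lit 0) (nat_lit 0) (nat_lit 0x7dcb1d3062) (nat_lit 1083110184),
  Rx.mk (nat_lit 27) (nat_lit 3) (nat_lit 3) (nat_lit 0) (nat_lit 3) (nat_lit 137) (nat_lit 90) r7_137 r8_90 (nat_lit 0) (nat_lit 0) (nat_lit 0) (nat_lit 0x7dc9350ee6) (nat_lit 1086766200),
  Rx.mk (nat_lit 128) (nat_lit 0) (nat_lit 0) (nat_lit 2) (nat_lit 4) (nat_lit 138) (nat_lit 92) r7_138 r8_92 (nat_lit 0) (nat_lit 0) (nat_lit 0) (nat_lit 0x72540acd00) (nat_lit 6710805504),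
  Rx.mk (nat_lit 130) (nat_lit 2) (nat_lit 0) (nat_lit 2) (nat_lit 5) (nat_lit 140) (nat_lit 96) r7_140 r8_96 (nat_lit 0) (nat_lit 0) (nat_lit 0) (nat_lit 0x7da6639c20) (nat_lit 1153526400),
  Rx.mk (nat_lit 131) (nat_lit 3) (nat_lit 0) (nat_lit 2) (nat_lit 5) (nat_lit 143) (nat_lit 94) r7_143 r8_94 (nat_lit 0) (nat_lit 0) (nat_lit 0) (nat_lit 0x7de5f8a290) (nat_lit 1031614272),
  Rx.mk (nat_lit 136) (nat_lit 0) (nat_lit 1) (nat_lit 2) (nat_lit 6) (nat_lit 139) (nat_lit 93) r7_139 r8_93 (nat_lit 0) (nat_lit 0) (nat_lit 0) (nat_lit 0x7defee632a) (nat_lit 1012517064),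
  Rx.mk (nat_lit 138) (nat_lit 2) (nat_lit 1) (nat_lit 2) (nat_lit 7) (nat_lit 141) (nat_lit 97) r7_141 r8_97 (nat_lit 0) (nat_lit 0) (nat_lit 0) (nat_lit 0x7dee723aee) (nat_lit 1015364376),
  Rx.mk (nat_lit 139) (nat_lit 3) (nat_lit 1) (nat_lit 2) (nat_lit 7) (nat_lit 144) (nat_lit 95) r7_144 r8_95 (nat_lit 0) (nat_lit 0) (nat_lit 0) (nat_lit 0x7dd143cdf2) (nat_lit 1071316584),
  Rx.mk (nat_lit 146) (nat_lit 2) (nat_lit 2) (nat_lit 2) (nat_lit 7) (nat_lit 142) (nat_lit 98) r7_142 r8_98 (nat_lit 0) (nat_lit 0) (nat_lit 0) (nat_lit 0x7db8202046) (nat_lit 1119518712),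
  Rx.mk (nat_lit 219) (nat_lit 3) (nat_lit 3) (nat_lit 3) (nat_lit 7) (nat_lit 145) (nat_lit 91) r7_145 r8_91 (nat_lit 0) (nat_lit 0) (nat_lit 0) (nat_lit 0x7df0bff610) (nat_lit 1010947392)]
noncomputable def e25_46 : List Rx := [
  Rx.mk (nat_lit 75) (nat_lit 3) (nat_lit 1) (nat_lit 1) (nat_lit 7) (nat_lit 70) (nat_lit 176) r7_70 r4_176 (nat_lit 0) (nat_lit 0) (nat_lit 0) (nat_lit 0x7ddc8799aa) (nat_lit 1049717448),
  Rx.mk (nat_lit 104) (nat_lit 0) (nat_lit 5) (nat_lit 1) (nat_lit 6) (nat_lit 68) (nat_lit 174) r7_68 r4_174 (nat_lit 0) (nat_lit 0) (nat_lit 0) (nat_lit 0x7d8ece758a) (nat_lit 1198743624),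
  Rx.mk (nat_lit 107) (nat_lit 3) (nat_lit 5) (nat_lit 1) (nat_lit 7) (nat_lit 69) (nat_lit 175) r7_69 r4_175 (nat_lit 0) (nat_lit 0) (nat_lit 0) (nat_lit 0x7e35a76754) (nat_lit 878830992)]
noncomputable def e25_47 : List Rx := [
  Rx.mk (nat_lit 104) (nat_lit 0) (nat_lit 5) (nat_lit 1) (nat_lit 6) (nat_lit 181) (nat_lit 304) r7_181 r4_304 (nat_lit 0) (nat_lit 0) (nat_lit 0) (nat_lit 0x7de112f0f0) (nat_lit 1041004224),
  Rx.mk (nat_lit 105) (nat_lit 1) (nat_lit 5) (nat_lit 1) (nat_lit 7) (nat_lit 182) (nat_lit 305) r7_182 r4_305 (nat_lit 0) (nat_lit 0) (nat_lit 0) (nat_lit 0x7df79428c6) (nat_lit 997853688),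
  Rx.mk (nat_lit 107) (nat_lit 3) (nat_lit 5) (nat_lit 1) (nat_lit 7) (nat_lit 183) (nat_lit 306) r7_183 r4_306 (nat_lit 0) (nat_lit 0) (nat_lit 0) (nat_lit 0x7df6d07502) (nat_lit 999319464)]
noncomputable def e25_48 : List Rx := [
  Rx.mk (nat_lit 75) (nat_lit 3) (nat_lit 1) (nat_lit 1) (nat_lit 7) (nat_lit 197) (nat_lit 194) r7_197 r9_194 (nat_lit 0) (nat_lit 0) (nat_lit 0) (nat_lit 0x7dea641bd4) (nat_lit 1023139728),
  Rx.mk (nat_lit 104) (nat_lit 0) (nat_lit 5) (nat_lit 1) (nat_lit 6) (nat_lit 194) (nat_lit 191) r7_194 r9_191 (nat_lit 0) (nat_lit 0) (nat_lit 0) (nat_lit 0x7de3a84798) (nat_lit 1036050912),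
  Rx.mk (nat_lit 105) (nat_lit 1) (nat_lit 5) (nat_lit 1) (nat_lit 7) (nat_lit 195) (nat_lit 192) r7_195 r9_192 (nat_lit 0) (nat_lit 0) (nat_lit 0) (nat_lit 0x7dd3600c2c) (nat_lit 1067270256),
  Rx.mk (nat_lit 107) (nat_lit 3) (nat_lit 5) (nat_lit 1) (nat_lit 7) (nat_lit 196) (nat_lit 193) r7_196 r9_193 (nat_lit 0) (nat_lit 0) (nat_lit 0) (nat_lit 0x7de444fdcc) (nat_lit 1034877168)]
noncomputable def e25_49 : List Rx := [
  Rx.mk (nat_lit 104) (nat_lit 0) (nat_lit 5) (nat_lit 1) (nat_lit 6) (nat_lit 198) (nat_lit 219) r7_198 r10_219 (nat_lit 0) (nat_lit 0) (nat_lit 0) (nat_lit 0x7df20f8116) (nat_lit 1008434232),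
  Rx.mk (nat_lit 105) (nat_lit 1) (nat_lit 5) (nat_lit 1) (nat_lit 7) (nat_lit 199) (nat_lit 220) r7_199 r10_220 (nat_lit 0) (nat_lit 0) (nat_lit 0) (nat_lit 0x7de83d5e42) (nat_lit 1027264680),
  Rx.mk (nat_lit 107) (nat_lit 3) (nat_lit 5) (nat_lit 1) (nat_lit 7) (nat_lit 200) (nat_lit 221) r7_200 r10_221 (nat_lit 0) (nat_lit 0) (nat_lit 0) (nat_lit 0x7deb8469ce) (nat_lit 1020980376)]
noncomputable def e25_50 : List Rx := [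
  Rx.mk (nat_lit 75) (nat_lit 3) (nat_lit 1) (nat_lit 1) (nat_lit 7) (nat_lit 220) (nat_lit 343) r7_220 r10_343 (nat_lit 0) (nat_lit 0) (nat_lit 0) (nat_lit 0x7de0f07318) (nat_lit 1041262560),
  Rx.mk (nat_lit 107) (nat_lit 3) (nat_lit 5) (nat_lit 1) (nat_lit 7) (nat_lit 219) (nat_lit 344) r7_219 r10_344 (nat_lit 0) (nat_lit 0) (nat_lit 0) (nat_lit 0x7de8ed3344) (nat_lit 1025947728)]
noncomputable def e25_51 : List Rx := [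
  Rx.mk (nat_lit 100) (nat_lit 4) (nat_lit 4) (nat_lit 1) (nat_lit 4) (nat_lit 362) (nat_lit 191) r7_362 r12_191 (nat_lit 0) (nat_lit 0) (nat_lit 0) (nat_lit 0x6335d77f54) (nat_lit 14131512720),
  Rx.mk (nat_lit 103) (nat_lit 7) (nat_lit 4) (nat_lit 1) (nat_lit 5) (nat_lit 364) (nat_lit 193) r7_364 r12_193 (nat_lit 0) (nat_lit 0) (nat_lit 0) (nat_lit 0x7c2c753c80) (nat_lit 1878170112),
  Rx.mk (nat_lit 108) (nat_lit 4) (nat_lit 5) (nat_lit 1) (nat_lit 6) (nat_lit 363) (nat_lit 192) r7_363 r12_192 (nat_lit 0) (nat_lit 0) (nat_lit 0) (nat_lit 0x7da6297fc2) (nat_lit 1153961640),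
  Rx.mk (nat_lit 111) (nat_lit 7) (nat_lit 5) (nat_lit 1) (nat_lit 7) (nat_lit 365) (nat_lit 194) r7_365 r12_194 (nat_lit 0) (nat_lit 0) (nat_lit 0) (nat_lit 0x7ddfee8338) (nat_lit 1043194464),
  Rx.mk (nat_lit 127) (nat_lit 7) (nat_lit 7) (nat_lit 1) (nat_lit 7) (nat_lit 366) (nat_lit 195) r7_366 r12_195 (nat_lit 0) (nat_lit 0) (nat_lit 0) (nat_lit 0x7dad63ac18) (nat_lit 1140104160),
  Rx.mk (nat_lit 383) (nat_lit 7) (nat_lit 7) (nat_lit 5) (nat_lit 7) (nat_lit 361) (nat_lit 196) r7_361 r12_196 (nat_lit 0) (nat_lit 0) (nat_lit 0) (nat_lit 0x7dd7808a20) (nat_lit 1059357312)]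
noncomputable def e25_52 : List Rx := [
  Rx.mk (nat_lit 59) (nat_lit 3) (nat_lit 7) (nat_lit 0) (nat_lit 3) (nat_lit 202) (nat_lit 121) r7_202 r12_121 (nat_lit 0) (nat_lit 0) (nat_lit 0) (nat_lit 0x7def2a4f6c) (nat_lit 1013985648),
  Rx.mk (nat_lit 63) (nat_lit 7) (nat_lit 7) (nat_lit 0) (nat_lit 3) (nat_lit 201) (nat_lit 118) r7_201 r12_118 (nat_lit 0) (nat_lit 0) (nat_lit 0) (nat_lit 0x7cf07bdb52) (nat_lit 1502310888),
  Rx.mk (nat_lit 123) (nat_lit 3) (nat_lit 7) (nat_lit 1) (nat_lit 7) (nat_lit 204) (nat_lit 122) r7_204 r12_122 (nat_lit 0) (nat_lit 0) (nat_lit 0) (nat_lit 0x7e4966ab4c) (nat_lit 840967920),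
  Rx.mk (nat_lit 127) (nat_lit 7) (nat_lit 7) (nat_lit 1) (nat_lit 7) (nat_lit 203) (nat_lit 119) r7_203 r12_119 (nat_lit 0) (nat_lit 0) (nat_lit 0) (nat_lit 0x7deb792a82) (nat_lit 1021064616),
  Rx.mk (nat_lit 255) (nat_lit 7) (nat_lit 7) (nat_lit 3) (nat_lit 7) (nat_lit 205) (nat_lit 120) r7_205 r12_120 (nat_lit 0) (nat_lit 0) (nat_lit 0) (nat_lit 0x7df2ff7216) (nat_lit 1006637112)]
noncomputable def e25_53 : List Rx := [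
  Rx.mk (nat_lit 103) (nat_lit 7) (nat_lit 4) (nat_lit 1) (nat_lit 5) (nat_lit 349) (nat_lit 271) r7_349 r12_271 (nat_lit 0) (nat_lit 0) (nat_lit 0) (nat_lit 0x7d458d29e8) (nat_lit 1339202592),
  Rx.mk (nat_lit 111) (nat_lit 7) (nat_lit 5) (nat_lit 1) (nat_lit 7) (nat_lit 350) (nat_lit 272) r7_350 r12_272 (nat_lit 0) (nat_lit 0) (nat_lit 0) (nat_lit 0x7dcaa7d7b8) (nat_lit 1083989088),
  Rx.mk (nat_lit 359) (nat_lit 7) (nat_lit 4) (nat_lit 5) (nat_lit 5) (nat_lit 347) (nat_lit 269) r7_347 r12_269 (nat_lit 0) (nat_lit 0) (nat_lit 0) (nat_lit 0x7d3189aa34) (nat_lit 1377576720),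
  Rx.mk (nat_lit 367) (nat_lit 7) (nat_lit 5) (nat_lit 5) (nat_lit 7) (nat_lit 348) (nat_lit 270) r7_348 r12_270 (nat_lit 0) (nat_lit 0) (nat_lit 0) (nat_lit 0x7df25e9c24) (nat_lit 1007841744)]
noncomputable def e25_54 : List Rx := [
  Rx.mk (nat_lit 59) (nat_lit 3) (nat_lit 7) (nat_lit 0) (nat_lit 3) (nat_lit 58) (nat_lit 115) r7_58 r12_115 (nat_lit 0) (nat_lit 0) (nat_lit 0) (nat_lit 0x7e3efef1d2) (nat_lit 860918760),
  Rx.mk (nat_lit 123) (nat_lit 3) (nat_lit 7) (nat_lit 1) (nat_lit 7) (nat_lit 59) (nat_lit 116) r7_59 r12_116 (nat_lit 0) (nat_lit 0) (nat_lit 0) (nat_lit 0x7e2750acce) (nat_lit 906324120),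
  Rx.mk (nat_lit 251) (nat_lit 3) (nat_lit 7) (nat_lit 3) (nat_lit 7) (nat_lit 60) (nat_lit 117) r7_60 r12_117 (nat_lit 0) (nat_lit 0) (nat_lit 0) (nat_lit 0x7de1ad6748) (nat_lit 1039847328)]
noncomputable def e25_55 : List Rx := [
  Rx.mk (nat_lit 104) (nat_lit 0) (nat_lit 5) (nat_lit 1) (nat_lit 6) (nat_lit 61) (nat_lit 168) r7_61 r3_168 (nat_lit 0) (nat_lit 0) (nat_lit 0) (nat_lit 0x75b85a24a6) (nat_lit 5045911416),
  Rx.mk (nat_lit 107) (nat_lit 3) (nat_lit 5) (nat_lit 1) (nat_lit 7) (nat_lit 62) (nat_lit 169) r7_62 r3_169 (nat_lit 0) (nat_lit 0) (nat_lit 0) (nat_lit 0x7f3a485c40) (nat_lit 379102464)]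
noncomputable def e25_56 : List Rx := [
  Rx.mk (nat_lit 104) (nat_lit 0) (nat_lit 5) (nat_lit 1) (nat_lit 6) (nat_lit 74) (nat_lit 189) r7_74 r12_189 (nat_lit 0) (nat_lit 0) (nat_lit 0) (nat_lit 0x7dea1aa06c) (nat_lit 1023690096),
  Rx.mk (nat_lit 107) (nat_lit 3) (nat_lit 5) (nat_lit 1) (nat_lit 7) (nat_lit 75) (nat_lit 190) r7_75 r12_190 (nat_lit 0) (nat_lit 0) (nat_lit 0) (nat_lit 0x7e3b884940) (nat_lit 867559680)]
noncomputable def e25_57 : List Rx := [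
  Rx.mk (nat_lit 107) (nat_lit 3) (nat_lit 5) (nat_lit 1) (nat_lit 7) (nat_lit 218) (nat_lit 285) r7_218 r12_285 (nat_lit 0) (nat_lit 0) (nat_lit 0) (nat_lit 0x7e67fac1ec) (nat_lit 782336880)]
noncomputable def e25 : List (List Rx) := [e25_0, e25_1, e25_2, e25_3, e25_4, e25_5, e25_6, e25_7, e25_8, e25_9, e25_10, e25_11, e25_12, e25_13, e25_14, e25_15, e25_16, e25_17, e25_18, e25_19, e25_20, e25_21, e25_22, e25_23, e25_24, e25_25, e25_26, e25_27, e25_28, e25_29, e25_30, e25_31, e25_32, e25_33, e25_34, e25_35, e25_36, e25_37, e25_38, e25_39, e25_40, e25_41, e25_42, e25_43, e25_44, e25_45, e25_46, e25_47, e25_48, e25_49, e25_50, e25_51, e25_52, e25_53, e25_54, e25_55, e25_56, e25_57]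
noncomputable def e26_0 : List Rx := [
  Rx.mk (nat_lit 100) (nat_lit 4) (nat_lit 4) (nat_lit 1) (nat_lit 4) (nat_lit 44) (nat_lit 195) r9_44 r0_195 (nat_lit 0) (nat_lit 0) (nat_lit 0) (nat_lit 0x604e485b2e) (nat_lit 15557210136),
  Rx.mk (nat_lit 108) (nat_lit 4) (nat_lit 5) (nat_lit 1) (nat_lit 6) (nat_lit 45) (nat_lit 196) r9_45 r0_196 (nat_lit 0) (nat_lit 0) (nat_lit 0) (nat_lit 0x7d6198a914) (nat_lit 1285429392),
  Rx.mk (nat_lit 116) (nat_lit 4) (nat_lit 6) (nat_lit 1) (nat_lit 6) (nat_lit 46) (nat_lit 197) r9_46 r0_197 (nat_lit 0) (nat_lit 0) (nat_lit 0) (nat_lit 0x7e0e1fdff4) (nat_lit 954624528),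
  Rx.mk (nat_lit 372) (nat_lit 4) (nat_lit 6) (nat_lit 5) (nat_lit 6) (nat_lit 47) (nat_lit 198) r9_47 r0_198 (nat_lit 0) (nat_lit 0) (nat_lit 0) (nat_lit 0x7ccb9f693e) (nat_lit 1572988248),
  Rx.mk (nat_lit 375) (nat_lit 7) (nat_lit 6) (nat_lit 5) (nat_lit 7) (nat_lit 48) (nat_lit 199) r9_48 r0_199 (nat_lit 0) (nat_lit 0) (nat_lit 0) (nat_lit 0x7e3eef92c8) (nat_lit 861033888)]
noncomputable def e26_1 : List Rx := [
  Rx.mk (nat_lit 372) (nat_lit 4) (nat_lit 6) (nat_lit 5) (nat_lit 6) (nat_lit 49) (nat_lit 217) r9_49 r1_217 (nat_lit 0) (nat_lit 0) (nat_lit 0) (nat_lit 0x7c9f940a20) (nat_lit 1657438848),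
  Rx.mk (nat_lit 374) (nat_lit 6) (nat_lit 6) (nat_lit 5) (nat_lit 7) (nat_lit 50) (nat_lit 219) r9_50 r1_219 (nat_lit 0) (nat_lit 0) (nat_lit 0) (nat_lit 0x7e4c769a4a) (nat_lit 835096392),
  Rx.mk (nat_lit 375) (nat_lit 7) (nat_lit 6) (nat_lit 5) (nat_lit 7) (nat_lit 51) (nat_lit 218) r9_51 r1_218 (nat_lit 0) (nat_lit 0) (nat_lit 0) (nat_lit 0x7de940ce0a) (nat_lit 1025321544)]
noncomputable def e26_2 : List Rx := [
  Rx.mk (nat_lit 308) (nat_lit 4) (nat_lit 6) (nat_lit 4) (nat_lit 2) (nat_lit 10) (nat_lit 230) r9_10 r2_230 (nat_lit 0) (nat_lit 0) (nat_lit 0) (nat_lit 0x716992d56a) (nat_lit 7160374728),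
  Rx.mk (nat_lit 310) (nat_lit 6) (nat_lit 6) (nat_lit 4) (nat_lit 3) (nat_lit 12) (nat_lit 235) r9_12 r2_235 (nat_lit 0) (nat_lit 0) (nat_lit 0) (nat_lit 0x7d6c413e80) (nat_lit 1264992768),
  Rx.mk (nat_lit 311) (nat_lit 7) (nat_lit 6) (nat_lit 4) (nat_lit 3) (nat_lit 14) (nat_lit 232) r9_14 r2_232 (nat_lit 0) (nat_lit 0) (nat_lit 0) (nat_lit 0x7d8494d92e) (nat_lit 1218349080),
  Rx.mk (nat_lit 372) (nat_lit 4) (nat_lit 6) (nat_lit 5) (nat_lit 6) (nat_lit 11) (nat_lit 231) r9_11 r2_231 (nat_lit 0) (nat_lit 0) (nat_lit 0) (nat_lit 0x7c4aec14f4) (nat_lit 1819758096),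
  Rx.mk (nat_lit 374) (nat_lit 6) (nat_lit 6) (nat_lit 5) (nat_lit 7) (nat_lit 13) (nat_lit 236) r9_13 r2_236 (nat_lit 0) (nat_lit 0) (nat_lit 0) (nat_lit 0x7dce829a08) (nat_lit 1076598432),
  Rx.mk (nat_lit 375) (nat_lit 7) (nat_lit 6) (nat_lit 5) (nat_lit 7) (nat_lit 15) (nat_lit 233) r9_15 r2_233 (nat_lit 0) (nat_lit 0) (nat_lit 0) (nat_lit 0x7de22aff6e) (nat_lit 1038906648),
  Rx.mk (nat_lit 503) (nat_lit 7) (nat_lit 6) (nat_lit 7) (nat_lit 7) (nat_lit 16) (nat_lit 234) r9_16 r2_234 (nat_lit 0) (nat_lit 0) (nat_lit 0) (nat_lit 0x7ddafc725e) (nat_lit 1052677080)]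
noncomputable def e26_3 : List Rx := [
  Rx.mk (nat_lit 100) (nat_lit 4) (nat_lit 4) (nat_lit 1) (nat_lit 4) (nat_lit 38) (nat_lit 177) r9_38 r3_177 (nat_lit 0) (nat_lit 0) (nat_lit 0) (nat_lit 0x7143ff0ecc) (nat_lit 7232425200),
  Rx.mk (nat_lit 103) (nat_lit 7) (nat_lit 4) (nat_lit 1) (nat_lit 5) (nat_lit 39) (nat_lit 180) r9_39 r3_180 (nat_lit 0) (nat_lit 0) (nat_lit 0) (nat_lit 0x7f9d302d60) (nat_lit 189461376),
  Rx.mk (nat_lit 108) (nat_lit 4) (nat_lit 5) (nat_lit 1) (nat_lit 6) (nat_lit 40) (nat_lit 178) r9_40 r3_178 (nat_lit 0) (nat_lit 0) (nat_lit 0) (nat_lit 0x7b2d0a942a) (nat_lit 2367904968),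
  Rx.mk (nat_lit 111) (nat_lit 7) (nat_lit 5) (nat_lit 1) (nat_lit 7) (nat_lit 41) (nat_lit 181) r9_41 r3_181 (nat_lit 0) (nat_lit 0) (nat_lit 0) (nat_lit 0x7f23fc011c) (nat_lit 421857072),
  Rx.mk (nat_lit 116) (nat_lit 4) (nat_lit 6) (nat_lit 1) (nat_lit 6) (nat_lit 42) (nat_lit 179) r9_42 r3_179 (nat_lit 0) (nat_lit 0) (nat_lit 0) (nat_lit 0x7b7cf61522) (nat_lit 2214666792),
  Rx.mk (nat_lit 119) (nat_lit 7) (nat_lit 6) (nat_lit 1) (nat_lit 7) (nat_lit 43) (nat_lit 182) r9_43 r3_182 (nat_lit 0) (nat_lit 0) (nat_lit 0) (nat_lit 0x7eeb84a8ca) (nat_lit 530125128)]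
noncomputable def e26_4 : List Rx := [
  Rx.mk (nat_lit 100) (nat_lit 4) (nat_lit 4) (nat_lit 1) (nat_lit 4) (nat_lit 52) (nat_lit 181) r9_52 r4_181 (nat_lit 0) (nat_lit 0) (nat_lit 0) (nat_lit 0x6d142270c6) (nat_lit 9287608824),
  Rx.mk (nat_lit 103) (nat_lit 7) (nat_lit 4) (nat_lit 1) (nat_lit 5) (nat_lit 53) (nat_lit 184) r9_53 r4_184 (nat_lit 0) (nat_lit 0) (nat_lit 0) (nat_lit 0x7db5be2668) (nat_lit 1124087328),
  Rx.mk (nat_lit 108) (nat_lit 4) (nat_lit 5) (nat_lit 1) (nat_lit 6) (nat_lit 54) (nat_lit 182) r9_54 r4_182 (nat_lit 0) (nat_lit 0) (nat_lit 0) (nat_lit 0x7d99734b32) (nat_lit 1178335080),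
  Rx.mk (nat_lit 111) (nat_lit 7) (nat_lit 5) (nat_lit 1) (nat_lit 7) (nat_lit 55) (nat_lit 185) r9_55 r4_185 (nat_lit 0) (nat_lit 0) (nat_lit 0) (nat_lit 0x7e4eb4f662) (nat_lit 830794536),
  Rx.mk (nat_lit 116) (nat_lit 4) (nat_lit 6) (nat_lit 1) (nat_lit 6) (nat_lit 56) (nat_lit 183) r9_56 r4_183 (nat_lit 0) (nat_lit 0) (nat_lit 0) (nat_lit 0x7cf5efa410) (nat_lit 1491856704),
  Rx.mk (nat_lit 119) (nat_lit 7) (nat_lit 6) (nat_lit 1) (nat_lit 7) (nat_lit 57) (nat_lit 186) r9_57 r4_186 (nat_lit 0) (nat_lit 0) (nat_lit 0) (nat_lit 0x7e49616ba0) (nat_lit 841007232),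
  Rx.mk (nat_lit 375) (nat_lit 7) (nat_lit 6) (nat_lit 5) (nat_lit 7) (nat_lit 58) (nat_lit 187) r9_58 r4_187 (nat_lit 0) (nat_lit 0) (nat_lit 0) (nat_lit 0x7de10331ec) (nat_lit 1041122160)]
noncomputable def e26_5 : List Rx := [
  Rx.mk (nat_lit 59) (nat_lit 3) (nat_lit 7) (nat_lit 0) (nat_lit 3) (nat_lit 19) (nat_lit 132) r9_19 r3_132 (nat_lit 0) (nat_lit 0) (nat_lit 0) (nat_lit 0x7fdf7708b0) (nat_lit 62382528),
  Rx.mk (nat_lit 187) (nat_lit 3) (nat_lit 7) (nat_lit 2) (nat_lit 7) (nat_lit 20) (nat_lit 134) r9_20 r3_134 (nat_lit 0) (nat_lit 0) (nat_lit 0) (nat_lit 0x7ef4f9d16e) (nat_lit 511991064),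
  Rx.mk (nat_lit 231) (nat_lit 7) (nat_lit 4) (nat_lit 3) (nat_lit 5) (nat_lit 17) (nat_lit 130) r9_17 r3_130 (nat_lit 0) (nat_lit 0) (nat_lit 0) (nat_lit 0x7fdf7708b0) (nat_lit 62382528),
  Rx.mk (nat_lit 247) (nat_lit 7) (nat_lit 6) (nat_lit 3) (nat_lit 7) (nat_lit 18) (nat_lit 135) r9_18 r3_135 (nat_lit 0) (nat_lit 0) (nat_lit 0) (nat_lit 0x7ef4f9d16e) (nat_lit 511991064),
  Rx.mk (nat_lit 251) (nat_lit 3) (nat_lit 7) (nat_lit 3) (nat_lit 7) (nat_lit 21) (nat_lit 133) r9_21 r3_133 (nat_lit 0) (nat_lit 0) (nat_lit 0) (nat_lit 0x7e9b536c2e) (nat_lit 683885592),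
  Rx.mk (nat_lit 255) (nat_lit 7) (nat_lit 7) (nat_lit 3) (nat_lit 7) (nat_lit 22) (nat_lit 131) r9_22 r3_131 (nat_lit 0) (nat_lit 0) (nat_lit 0) (nat_lit 0x7e9b536c2e) (nat_lit 683885592)]
noncomputable def e26_6 : List Rx := [
  Rx.mk (nat_lit 308) (nat_lit 4) (nat_lit 6) (nat_lit 4) (nat_lit 2) (nat_lit 0) (nat_lit 147) r9_0 r0_147 (nat_lit 0) (nat_lit 0) (nat_lit 0) (nat_lit 0x6b26bfc8de) (nat_lit 10233624024),
  Rx.mk (nat_lit 310) (nat_lit 6) (nat_lit 6) (nat_lit 4) (nat_lit 3) (nat_lit 2) (nat_lit 150) r9_2 r0_150 (nat_lit 0) (nat_lit 0) (nat_lit 0) (nat_lit 0x78a7e5a8fe) (nat_lit 3604901976),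
  Rx.mk (nat_lit 500) (nat_lit 4) (nat_lit 6) (nat_lit 7) (nat_lit 6) (nat_lit 1) (nat_lit 148) r9_1 r0_148 (nat_lit 0) (nat_lit 0) (nat_lit 0) (nat_lit 0x776bc40c54) (nat_lit 4211050896),
  Rx.mk (nat_lit 502) (nat_lit 6) (nat_lit 6) (nat_lit 7) (nat_lit 7) (nat_lit 3) (nat_lit 151) r9_3 r0_151 (nat_lit 0) (nat_lit 0) (nat_lit 0) (nat_lit 0x7de51cf04c) (nat_lit 1033259760),
  Rx.mk (nat_lit 503) (nat_lit 7) (nat_lit 6) (nat_lit 7) (nat_lit 7) (nat_lit 4) (nat_lit 149) r9_4 r0_149 (nat_lit 0) (nat_lit 0) (nat_lit 0) (nat_lit 0x7de318b092) (nat_lit 1037126376)]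
noncomputable def e26_7 : List Rx := [
  Rx.mk (nat_lit 308) (nat_lit 4) (nat_lit 6) (nat_lit 4) (nat_lit 2) (nat_lit 5) (nat_lit 161) r9_5 r1_161 (nat_lit 0) (nat_lit 0) (nat_lit 0) (nat_lit 0x6ef8548bc0) (nat_lit 8359213824),
  Rx.mk (nat_lit 310) (nat_lit 6) (nat_lit 6) (nat_lit 4) (nat_lit 3) (nat_lit 7) (nat_lit 164) r9_7 r1_164 (nat_lit 0) (nat_lit 0) (nat_lit 0) (nat_lit 0x7303d06ff6) (nat_lit 6373780920),
  Rx.mk (nat_lit 500) (nat_lit 4) (nat_lit 6) (nat_lit 7) (nat_lit 6) (nat_lit 6) (nat_lit 162) r9_6 r1_162 (nat_lit 0) (nat_lit 0) (nat_lit 0) (nat_lit 0x7d8f13d134) (nat_lit 1198224144),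
  Rx.mk (nat_lit 502) (nat_lit 6) (nat_lit 6) (nat_lit 7) (nat_lit 7) (nat_lit 8) (nat_lit 165) r9_8 r1_165 (nat_lit 0) (nat_lit 0) (nat_lit 0) (nat_lit 0x7da7a24834) (nat_lit 1151139600),
  Rx.mk (nat_lit 503) (nat_lit 7) (nat_lit 6) (nat_lit 7) (nat_lit 7) (nat_lit 9) (nat_lit 163) r9_9 r1_163 (nat_lit 0) (nat_lit 0) (nat_lit 0) (nat_lit 0x7dfc5f3c10) (nat_lit 988663104)]
noncomputable def e26_8 : List Rx := [
  Rx.mk (nat_lit 59) (nat_lit 3) (nat_lit 7) (nat_lit 0) (nat_lit 3) (nat_lit 28) (nat_lit 136) r9_28 r4_136 (nat_lit 0) (nat_lit 0) (nat_lit 0) (nat_lit 0x7e412fcec2) (nat_lit 856717992),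
  Rx.mk (nat_lit 187) (nat_lit 3) (nat_lit 7) (nat_lit 2) (nat_lit 7) (nat_lit 29) (nat_lit 138) r9_29 r4_138 (nat_lit 0) (nat_lit 0) (nat_lit 0) (nat_lit 0x7dd37c8a64) (nat_lit 1067056848),
  Rx.mk (nat_lit 231) (nat_lit 7) (nat_lit 4) (nat_lit 3) (nat_lit 5) (nat_lit 23) (nat_lit 134) r9_23 r4_134 (nat_lit 0) (nat_lit 0) (nat_lit 0) (nat_lit 0x7d77e26462) (nat_lit 1242694440),
  Rx.mk (nat_lit 247) (nat_lit 7) (nat_lit 6) (nat_lit 3) (nat_lit 7) (nat_lit 26) (nat_lit 141) r9_26 r4_141 (nat_lit 0) (nat_lit 0) (nat_lit 0) (nat_lit 0x7dede0640c) (nat_lit 1016456688),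
  Rx.mk (nat_lit 251) (nat_lit 3) (nat_lit 7) (nat_lit 3) (nat_lit 7) (nat_lit 30) (nat_lit 137) r9_30 r4_137 (nat_lit 0) (nat_lit 0) (nat_lit 0) (nat_lit 0x7dee99387e) (nat_lit 1015072344),
  Rx.mk (nat_lit 255) (nat_lit 7) (nat_lit 7) (nat_lit 3) (nat_lit 7) (nat_lit 31) (nat_lit 135) r9_31 r4_135 (nat_lit 0) (nat_lit 0) (nat_lit 0) (nat_lit 0x7df0f592b6) (nat_lit 1010545848),
  Rx.mk (nat_lit 500) (nat_lit 4) (nat_lit 6) (nat_lit 7) (nat_lit 6) (nat_lit 24) (nat_lit 139) r9_24 r4_139 (nat_lit 0) (nat_lit 0) (nat_lit 0) (nat_lit 0x7afc995b6e) (nat_lit 2460787992),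
  Rx.mk (nat_lit 502) (nat_lit 6) (nat_lit 6) (nat_lit 7) (nat_lit 7) (nat_lit 25) (nat_lit 142) r9_25 r4_142 (nat_lit 0) (nat_lit 0) (nat_lit 0) (nat_lit 0x7db07b1a9e) (nat_lit 1134176472),
  Rx.mk (nat_lit 503) (nat_lit 7) (nat_lit 6) (nat_lit 7) (nat_lit 7) (nat_lit 27) (nat_lit 140) r9_27 r4_140 (nat_lit 0) (nat_lit 0) (nat_lit 0) (nat_lit 0x7e4a4f1cc4) (nat_lit 839226960)]
noncomputable def e26_9 : List Rx := [
  Rx.mk (nat_lit 39) (nat_lit 7) (nat_lit 4) (nat_lit 0) (nat_lit 1) (nat_lit 59) (nat_lit 213) r9_59 r5_213 (nat_lit 0) (nat_lit 0) (nat_lit 0) (nat_lit 0x73ce85c3d6) (nat_lit 5985108792),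
  Rx.mk (nat_lit 47) (nat_lit 7) (nat_lit 5) (nat_lit 0) (nat_lit 3) (nat_lit 62) (nat_lit 216) r9_62 r5_216 (nat_lit 0) (nat_lit 0) (nat_lit 0) (nat_lit 0x7e4ca1579e) (nat_lit 834776280),
  Rx.mk (nat_lit 55) (nat_lit 7) (nat_lit 6) (nat_lit 0) (nat_lit 3) (nat_lit 64) (nat_lit 220) r9_64 r5_220 (nat_lit 0) (nat_lit 0) (nat_lit 0) (nat_lit 0x7e38dd93ee) (nat_lit 872673048),
  Rx.mk (nat_lit 59) (nat_lit 3) (nat_lit 7) (nat_lit 0) (nat_lit 3) (nat_lit 67) (nat_lit 210) r9_67 r5_210 (nat_lit 0) (nat_lit 0) (nat_lit 0) (nat_lit 0x7e8b7789fc) (nat_lit 714293424),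
  Rx.mk (nat_lit 63) (nat_lit 7) (nat_lit 7) (nat_lit 0) (nat_lit 3) (nat_lit 70) (nat_lit 218) r9_70 r5_218 (nat_lit 0) (nat_lit 0) (nat_lit 0) (nat_lit 0x7d97e9a3ce) (nat_lit 1181283480),
  Rx.mk (nat_lit 103) (nat_lit 7) (nat_lit 4) (nat_lit 1) (nat_lit 5) (nat_lit 60) (nat_lit 214) r9_60 r5_214 (nat_lit 0) (nat_lit 0) (nat_lit 0) (nat_lit 0x7e23b6c670) (nat_lit 913228992),
  Rx.mk (nat_lit 119) (nat_lit 7) (nat_lit 6) (nat_lit 1) (nat_lit 7) (nat_lit 65) (nat_lit 221) r9_65 r5_221 (nat_lit 0) (nat_lit 0) (nat_lit 0) (nat_lit 0x7de0283f9c) (nat_lit 1042762032),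
  Rx.mk (nat_lit 123) (nat_lit 3) (nat_lit 7) (nat_lit 1) (nat_lit 7) (nat_lit 68) (nat_lit 211) r9_68 r5_211 (nat_lit 0) (nat_lit 0) (nat_lit 0) (nat_lit 0x7e727d79b6) (nat_lit 762183864),
  Rx.mk (nat_lit 127) (nat_lit 7) (nat_lit 7) (nat_lit 1) (nat_lit 7) (nat_lit 71) (nat_lit 219) r9_71 r5_219 (nat_lit 0) (nat_lit 0) (nat_lit 0) (nat_lit 0x7dedcb0562) (nat_lit 1016616744),
  Rx.mk (nat_lit 187) (nat_lit 3) (nat_lit 7) (nat_lit 2) (nat_lit 7) (nat_lit 69) (nat_lit 212) r9_69 r5_212 (nat_lit 0) (nat_lit 0) (nat_lit 0) (nat_lit 0x7e762bfeca) (nat_lit 755124552),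
  Rx.mk (nat_lit 231) (nat_lit 7) (nat_lit 4) (nat_lit 3) (nat_lit 5) (nat_lit 61) (nat_lit 215) r9_61 r5_215 (nat_lit 0) (nat_lit 0) (nat_lit 0) (nat_lit 0x7e66094106) (nat_lit 786063096),
  Rx.mk (nat_lit 239) (nat_lit 7) (nat_lit 5) (nat_lit 3) (nat_lit 7) (nat_lit 63) (nat_lit 217) r9_63 r5_217 (nat_lit 0) (nat_lit 0) (nat_lit 0) (nat_lit 0x7def760ab0) (nat_lit 1013418432),
  Rx.mk (nat_lit 247) (nat_lit 7) (nat_lit 6) (nat_lit 3) (nat_lit 7) (nat_lit 66) (nat_lit 222) r9_66 r5_222 (nat_lit 0) (nat_lit 0) (nat_lit 0) (nat_lit 0x7decc13600) (nat_lit 1018607616)]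
noncomputable def e26_10 : List Rx := [
  Rx.mk (nat_lit 100) (nat_lit 4) (nat_lit 4) (nat_lit 1) (nat_lit 4) (nat_lit 166) (nat_lit 321) r9_166 r0_321 (nat_lit 0) (nat_lit 0) (nat_lit 0) (nat_lit 0x6fbd3d3c70) (nat_lit 7981661376),
  Rx.mk (nat_lit 101) (nat_lit 5) (nat_lit 4) (nat_lit 1) (nat_lit 5) (nat_lit 167) (nat_lit 322) r9_167 r0_322 (nat_lit 0) (nat_lit 0) (nat_lit 0) (nat_lit 0x7d8ed7d4f4) (nat_lit 1198673424),
  Rx.mk (nat_lit 108) (nat_lit 4) (nat_lit 5) (nat_lit 1) (nat_lit 6) (nat_lit 168) (nat_lit 323) r9_168 r0_323 (nat_lit 0) (nat_lit 0) (nat_lit 0) (nat_lit 0x7d7df942ee) (nat_lit 1231018776),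
  Rx.mk (nat_lit 109) (nat_lit 5) (nat_lit 5) (nat_lit 1) (nat_lit 7) (nat_lit 169) (nat_lit 324) r9_169 r0_324 (nat_lit 0) (nat_lit 0) (nat_lit 0) (nat_lit 0x7e0faa474c) (nat_lit 951670512),
  Rx.mk (nat_lit 116) (nat_lit 4) (nat_lit 6) (nat_lit 1) (nat_lit 6) (nat_lit 170) (nat_lit 325) r9_170 r0_325 (nat_lit 0) (nat_lit 0) (nat_lit 0) (nat_lit 0x7a4fc4e962) (nat_lit 2792171304),
  Rx.mk (nat_lit 117) (nat_lit 5) (nat_lit 6) (nat_lit 1) (nat_lit 7) (nat_lit 171) (nat_lit 326) r9_171 r0_326 (nat_lit 0) (nat_lit 0) (nat_lit 0) (nat_lit 0x7e1ddac436) (nat_lit 924463800)]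
noncomputable def e26_11 : List Rx := [
  Rx.mk (nat_lit 100) (nat_lit 4) (nat_lit 4) (nat_lit 1) (nat_lit 4) (nat_lit 183) (nat_lit 255) r9_183 r6_255 (nat_lit 0) (nat_lit 0) (nat_lit 0) (nat_lit 0x753a13a98c) (nat_lit 5288031216),
  Rx.mk (nat_lit 101) (nat_lit 5) (nat_lit 4) (nat_lit 1) (nat_lit 5) (nat_lit 184) (nat_lit 259) r9_184 r6_259 (nat_lit 0) (nat_lit 0) (nat_lit 0) (nat_lit 0x7d8cac97aa) (nat_lit 1202832072),
  Rx.mk (nat_lit 108) (nat_lit 4) (nat_lit 5) (nat_lit 1) (nat_lit 6) (nat_lit 185) (nat_lit 256) r9_185 r6_256 (nat_lit 0) (nat_lit 0) (nat_lit 0) (nat_lit 0x7dc0263fdc) (nat_lit 1104133680),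
  Rx.mk (nat_lit 109) (nat_lit 5) (nat_lit 5) (nat_lit 1) (nat_lit 7) (nat_lit 186) (nat_lit 260) r9_186 r6_260 (nat_lit 0) (nat_lit 0) (nat_lit 0) (nat_lit 0x7deed8348e) (nat_lit 1014600600),
  Rx.mk (nat_lit 116) (nat_lit 4) (nat_lit 6) (nat_lit 1) (nat_lit 6) (nat_lit 187) (nat_lit 257) r9_187 r6_257 (nat_lit 0) (nat_lit 0) (nat_lit 0) (nat_lit 0x7de3610c0c) (nat_lit 1036584432),
  Rx.mk (nat_lit 117) (nat_lit 5) (nat_lit 6) (nat_lit 1) (nat_lit 7) (nat_lit 189) (nat_lit 261) r9_189 r6_261 (nat_lit 0) (nat_lit 0) (nat_lit 0) (nat_lit 0x7df11510be) (nat_lit 1010309976),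
  Rx.mk (nat_lit 372) (nat_lit 4) (nat_lit 6) (nat_lit 5) (nat_lit 6) (nat_lit 188) (nat_lit 258) r9_188 r6_258 (nat_lit 0) (nat_lit 0) (nat_lit 0) (nat_lit 0x7dbd4fad48) (nat_lit 1109575584),
  Rx.mk (nat_lit 373) (nat_lit 5) (nat_lit 6) (nat_lit 5) (nat_lit 7) (nat_lit 190) (nat_lit 262) r9_190 r6_262 (nat_lit 0) (nat_lit 0) (nat_lit 0) (nat_lit 0x7deb762ab2) (nat_lit 1021087080)]
noncomputable def e26_12 : List Rx := [
  Rx.mk (nat_lit 101) (nat_lit 5) (nat_lit 4) (nat_lit 1) (nat_lit 5) (nat_lit 172) (nat_lit 306) r9_172 r1_306 (nat_lit 0) (nat_lit 0) (nat_lit 0) (nat_lit 0x7d78f9b2ec) (nat_lit 1240602480),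
  Rx.mk (nat_lit 109) (nat_lit 5) (nat_lit 5) (nat_lit 1) (nat_lit 7) (nat_lit 173) (nat_lit 307) r9_173 r1_307 (nat_lit 0) (nat_lit 0) (nat_lit 0) (nat_lit 0x7dea245fd0) (nat_lit 1023617088),
  Rx.mk (nat_lit 117) (nat_lit 5) (nat_lit 6) (nat_lit 1) (nat_lit 7) (nat_lit 174) (nat_lit 308) r9_174 r1_308 (nat_lit 0) (nat_lit 0) (nat_lit 0) (nat_lit 0x7d27c6e66a) (nat_lit 1396292040)]
noncomputable def e26_13 : List Rx := [
  Rx.mk (nat_lit 101) (nat_lit 5) (nat_lit 4) (nat_lit 1) (nat_lit 5) (nat_lit 191) (nat_lit 194) r9_191 r7_194 (nat_lit 0) (nat_lit 0) (nat_lit 0) (nat_lit 0x7de3a84798) (nat_lit 1036050912),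
  Rx.mk (nat_lit 109) (nat_lit 5) (nat_lit 5) (nat_lit 1) (nat_lit 7) (nat_lit 192) (nat_lit 195) r9_192 r7_195 (nat_lit 0) (nat_lit 0) (nat_lit 0) (nat_lit 0x7dd3600c2c) (nat_lit 1067270256),
  Rx.mk (nat_lit 117) (nat_lit 5) (nat_lit 6) (nat_lit 1) (nat_lit 7) (nat_lit 193) (nat_lit 196) r9_193 r7_196 (nat_lit 0) (nat_lit 0) (nat_lit 0) (nat_lit 0x7de444fdcc) (nat_lit 1034877168),
  Rx.mk (nat_lit 373) (nat_lit 5) (nat_lit 6) (nat_lit 5) (nat_lit 7) (nat_lit 194) (nat_lit 197) r9_194 r7_197 (nat_lit 0) (nat_lit 0) (nat_lit 0) (nat_lit 0x7dea641bd4) (nat_lit 1023139728)]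
noncomputable def e26_14 : List Rx := [
  Rx.mk (nat_lit 372) (nat_lit 4) (nat_lit 6) (nat_lit 5) (nat_lit 6) (nat_lit 195) (nat_lit 355) r9_195 r7_355 (nat_lit 0) (nat_lit 0) (nat_lit 0) (nat_lit 0x7d5b2fafaa) (nat_lit 1297720008),
  Rx.mk (nat_lit 373) (nat_lit 5) (nat_lit 6) (nat_lit 5) (nat_lit 7) (nat_lit 196) (nat_lit 356) r9_196 r7_356 (nat_lit 0) (nat_lit 0) (nat_lit 0) (nat_lit 0x7db8a35812) (nat_lit 1118535912),
  Rx.mk (nat_lit 374) (nat_lit 6) (nat_lit 6) (nat_lit 5) (nat_lit 7) (nat_lit 197) (nat_lit 357) r9_197 r7_357 (nat_lit 0) (nat_lit 0) (nat_lit 0) (nat_lit 0x7ded4a0d72) (nat_lit 1017582696)]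
noncomputable def e26_15 : List Rx := [
  Rx.mk (nat_lit 308) (nat_lit 4) (nat_lit 6) (nat_lit 4) (nat_lit 2) (nat_lit 161) (nat_lit 209) r9_161 r8_209 (nat_lit 0) (nat_lit 0) (nat_lit 0) (nat_lit 0x6a74ad2aba) (nat_lit 10575059976),
  Rx.mk (nat_lit 310) (nat_lit 6) (nat_lit 6) (nat_lit 4) (nat_lit 3) (nat_lit 164) (nat_lit 212) r9_164 r8_212 (nat_lit 0) (nat_lit 0) (nat_lit 0) (nat_lit 0x7dd319309a) (nat_lit 1067800968),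
  Rx.mk (nat_lit 372) (nat_lit 4) (nat_lit 6) (nat_lit 5) (nat_lit 6) (nat_lit 162) (nat_lit 210) r9_162 r8_210 (nat_lit 0) (nat_lit 0) (nat_lit 0) (nat_lit 0x7df31b305a) (nat_lit 1006429320),
  Rx.mk (nat_lit 373) (nat_lit 5) (nat_lit 6) (nat_lit 5) (nat_lit 7) (nat_lit 163) (nat_lit 211) r9_163 r8_211 (nat_lit 0) (nat_lit 0) (nat_lit 0) (nat_lit 0x7df6743ac6) (nat_lit 1000010232),
  Rx.mk (nat_lit 374) (nat_lit 6) (nat_lit 6) (nat_lit 5) (nat_lit 7) (nat_lit 165) (nat_lit 213) r9_165 r8_213 (nat_lit 0) (nat_lit 0) (nat_lit 0) (nat_lit 0x7de391c900) (nat_lit 1036219392)]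
noncomputable def e26_16 : List Rx := [
  Rx.mk (nat_lit 100) (nat_lit 4) (nat_lit 4) (nat_lit 1) (nat_lit 4) (nat_lit 175) (nat_lit 355) r9_175 r4_355 (nat_lit 0) (nat_lit 0) (nat_lit 0) (nat_lit 0x79366ebfde) (nat_lit 3331604952),
  Rx.mk (nat_lit 101) (nat_lit 5) (nat_lit 4) (nat_lit 1) (nat_lit 5) (nat_lit 176) (nat_lit 356) r9_176 r4_356 (nat_lit 0) (nat_lit 0) (nat_lit 0) (nat_lit 0x7dac309f4a) (nat_lit 1142403912),
  Rx.mk (nat_lit 103) (nat_lit 7) (nat_lit 4) (nat_lit 1) (nat_lit 5) (nat_lit 177) (nat_lit 357) r9_177 r4_357 (nat_lit 0) (nat_lit 0) (nat_lit 0) (nat_lit 0x7dca67bbba) (nat_lit 1084469256),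
  Rx.mk (nat_lit 108) (nat_lit 4) (nat_lit 5) (nat_lit 1) (nat_lit 6) (nat_lit 178) (nat_lit 358) r9_178 r4_358 (nat_lit 0) (nat_lit 0) (nat_lit 0) (nat_lit 0x7ddad0951c) (nat_lit 1053005616),
  Rx.mk (nat_lit 109) (nat_lit 5) (nat_lit 5) (nat_lit 1) (nat_lit 7) (nat_lit 179) (nat_lit 359) r9_179 r4_359 (nat_lit 0) (nat_lit 0) (nat_lit 0) (nat_lit 0x7de7bc6652) (nat_lit 1028230632),
  Rx.mk (nat_lit 111) (nat_lit 7) (nat_lit 5) (nat_lit 1) (nat_lit 7) (nat_lit 180) (nat_lit 360) r9_180 r4_360 (nat_lit 0) (nat_lit 0) (nat_lit 0) (nat_lit 0x7dd0b316fe) (nat_lit 1072400472),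
  Rx.mk (nat_lit 116) (nat_lit 4) (nat_lit 6) (nat_lit 1) (nat_lit 6) (nat_lit 181) (nat_lit 361) r9_181 r4_361 (nat_lit 0) (nat_lit 0) (nat_lit 0) (nat_lit 0x7dbf61cc24) (nat_lit 1105605072),
  Rx.mk (nat_lit 117) (nat_lit 5) (nat_lit 6) (nat_lit 1) (nat_lit 7) (nat_lit 182) (nat_lit 362) r9_182 r4_362 (nat_lit 0) (nat_lit 0) (nat_lit 0) (nat_lit 0x7de1a88796) (nat_lit 1039883832)]
noncomputable def e26_17 : List Rx := [
  Rx.mk (nat_lit 100) (nat_lit 4) (nat_lit 4) (nat_lit 1) (nat_lit 4) (nat_lit 198) (nat_lit 198) r9_198 r9_198 (nat_lit 0) (nat_lit 0) (nat_lit 0) (nat_lit 0x72a5eb2ea8) (nat_lit 6553815840),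
  Rx.mk (nat_lit 101) (nat_lit 5) (nat_lit 4) (nat_lit 1) (nat_lit 5) (nat_lit 199) (nat_lit 201) r9_199 r9_201 (nat_lit 0) (nat_lit 0) (nat_lit 0) (nat_lit 0x7d882f7f80) (nat_lit 1211438592),
  Rx.mk (nat_lit 103) (nat_lit 7) (nat_lit 4) (nat_lit 1) (nat_lit 5) (nat_lit 200) (nat_lit 204) r9_200 r9_204 (nat_lit 0) (nat_lit 0) (nat_lit 0) (nat_lit 0x7dac8919c2) (nat_lit 1141741224),
  Rx.mk (nat_lit 108) (nat_lit 4) (nat_lit 5) (nat_lit 1) (nat_lit 6) (nat_lit 201) (nat_lit 199) r9_201 r9_199 (nat_lit 0) (nat_lit 0) (nat_lit 0) (nat_lit 0x7d882f7f80) (nat_lit 1211438592),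
  Rx.mk (nat_lit 109) (nat_lit 5) (nat_lit 5) (nat_lit 1) (nat_lit 7) (nat_lit 202) (nat_lit 202) r9_202 r9_202 (nat_lit 0) (nat_lit 0) (nat_lit 0) (nat_lit 0x7de9472da4) (nat_lit 1025273808),
  Rx.mk (nat_lit 111) (nat_lit 7) (nat_lit 5) (nat_lit 1) (nat_lit 7) (nat_lit 203) (nat_lit 205) r9_203 r9_205 (nat_lit 0) (nat_lit 0) (nat_lit 0) (nat_lit 0x7dd1b386f6) (nat_lit 1070479800),
  Rx.mk (nat_lit 116) (nat_lit 4) (nat_lit 6) (nat_lit 1) (nat_lit 6) (nat_lit 204) (nat_lit 200) r9_204 r9_200 (nat_lit 0) (nat_lit 0) (nat_lit 0) (nat_lit 0x7dac8919c2) (nat_lit 1141741224),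
  Rx.mk (nat_lit 117) (nat_lit 5) (nat_lit 6) (nat_lit 1) (nat_lit 7) (nat_lit 205) (nat_lit 203) r9_205 r9_203 (nat_lit 0) (nat_lit 0) (nat_lit 0) (nat_lit 0x7dd1b386f6) (nat_lit 1070479800)]
noncomputable def e26_18 : List Rx := [
  Rx.mk (nat_lit 100) (nat_lit 4) (nat_lit 4) (nat_lit 1) (nat_lit 4) (nat_lit 206) (nat_lit 230) r9_206 r10_230 (nat_lit 0) (nat_lit 0) (nat_lit 0) (nat_lit 0x7db50971b4) (nat_lit 1125440784),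
  Rx.mk (nat_lit 101) (nat_lit 5) (nat_lit 4) (nat_lit 1) (nat_lit 5) (nat_lit 207) (nat_lit 232) r9_207 r10_232 (nat_lit 0) (nat_lit 0) (nat_lit 0) (nat_lit 0x7defa427ce) (nat_lit 1013073048),
  Rx.mk (nat_lit 103) (nat_lit 7) (nat_lit 4) (nat_lit 1) (nat_lit 5) (nat_lit 208) (nat_lit 234) r9_208 r10_234 (nat_lit 0) (nat_lit 0) (nat_lit 0) (nat_lit 0x7de652fcea) (nat_lit 1030937544),
  Rx.mk (nat_lit 116) (nat_lit 4) (nat_lit 6) (nat_lit 1) (nat_lit 6) (nat_lit 209) (nat_lit 231) r9_209 r10_231 (nat_lit 0) (nat_lit 0) (nat_lit 0) (nat_lit 0x7def382e8e) (nat_lit 1013881752),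
  Rx.mk (nat_lit 117) (nat_lit 5) (nat_lit 6) (nat_lit 1) (nat_lit 7) (nat_lit 210) (nat_lit 233) r9_210 r10_233 (nat_lit 0) (nat_lit 0) (nat_lit 0) (nat_lit 0x7df680f9fa) (nat_lit 999914760),
  Rx.mk (nat_lit 127) (nat_lit 7) (nat_lit 7) (nat_lit 1) (nat_lit 7) (nat_lit 211) (nat_lit 235) r9_211 r10_235 (nat_lit 0) (nat_lit 0) (nat_lit 0) (nat_lit 0x7deffe8228) (nat_lit 1012396320)]
noncomputable def e26_19 : List Rx := [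
  Rx.mk (nat_lit 278) (nat_lit 6) (nat_lit 2) (nat_lit 4) (nat_lit 3) (nat_lit 117) (nat_lit 143) r9_117 r8_143 (nat_lit 0) (nat_lit 0) (nat_lit 0) (nat_lit 0x7dc6281fb8) (nat_lit 1092615264),
  Rx.mk (nat_lit 308) (nat_lit 4) (nat_lit 6) (nat_lit 4) (nat_lit 2) (nat_lit 120) (nat_lit 136) r9_120 r8_136 (nat_lit 0) (nat_lit 0) (nat_lit 0) (nat_lit 0x71a1bf9266) (nat_lit 7052665464),
  Rx.mk (nat_lit 310) (nat_lit 6) (nat_lit 6) (nat_lit 4) (nat_lit 3) (nat_lit 122) (nat_lit 141) r9_122 r8_141 (nat_lit 0) (nat_lit 0) (nat_lit 0) (nat_lit 0x7db930af3c) (nat_lit 1117477296),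
  Rx.mk (nat_lit 311) (nat_lit 7) (nat_lit 6) (nat_lit 4) (nat_lit 3) (nat_lit 124) (nat_lit 138) r9_124 r8_138 (nat_lit 0) (nat_lit 0) (nat_lit 0) (nat_lit 0x7ddb1ef036) (nat_lit 1052418744),
  Rx.mk (nat_lit 342) (nat_lit 6) (nat_lit 2) (nat_lit 5) (nat_lit 7) (nat_lit 118) (nat_lit 144) r9_118 r8_144 (nat_lit 0) (nat_lit 0) (nat_lit 0) (nat_lit 0x7de07d5a4a) (nat_lit 1042124616),
  Rx.mk (nat_lit 372) (nat_lit 4) (nat_lit 6) (nat_lit 5) (nat_lit 6) (nat_lit 121) (nat_lit 137) r9_121 r8_137 (nat_lit 0) (nat_lit 0) (nat_lit 0) (nat_lit 0x7ce5b0c80e) (nat_lit 1523005848),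
  Rx.mk (nat_lit 374) (nat_lit 6) (nat_lit 6) (nat_lit 5) (nat_lit 7) (nat_lit 123) (nat_lit 142) r9_123 r8_142 (nat_lit 0) (nat_lit 0) (nat_lit 0) (nat_lit 0x7dda391e94) (nat_lit 1054140048),
  Rx.mk (nat_lit 375) (nat_lit 7) (nat_lit 6) (nat_lit 5) (nat_lit 7) (nat_lit 125) (nat_lit 139) r9_125 r8_139 (nat_lit 0) (nat_lit 0) (nat_lit 0) (nat_lit 0x7debf422d2) (nat_lit 1020143592),
  Rx.mk (nat_lit 406) (nat_lit 6) (nat_lit 2) (nat_lit 6) (nat_lit 7) (nat_lit 119) (nat_lit 145) r9_119 r8_145 (nat_lit 0) (nat_lit 0) (nat_lit 0) (nat_lit 0x7de96beb58) (nat_lit 1024998624),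
  Rx.mk (nat_lit 503) (nat_lit 7) (nat_lit 6) (nat_lit 7) (nat_lit 7) (nat_lit 126) (nat_lit 140) r9_126 r8_140 (nat_lit 0) (nat_lit 0) (nat_lit 0) (nat_lit 0x7decfd923a) (nat_lit 1018155528)]
noncomputable def e26_20 : List Rx := [
  Rx.mk (nat_lit 128) (nat_lit 0) (nat_lit 0) (nat_lit 2) (nat_lit 4) (nat_lit 77) (nat_lit 147) r9_77 r0_147 (nat_lit 0) (nat_lit 0) (nat_lit 0) (nat_lit 0x6b26bfc8de) (nat_lit 10233624024),
  Rx.mk (nat_lit 130) (nat_lit 2) (nat_lit 0) (nat_lit 2) (nat_lit 5) (nat_lit 78) (nat_lit 150) r9_78 r0_150 (nat_lit 0) (nat_lit 0) (nat_lit 0) (nat_lit 0x78a7e5a8fe) (nat_lit 3604901976),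
  Rx.mk (nat_lit 152) (nat_lit 0) (nat_lit 3) (nat_lit 2) (nat_lit 6) (nat_lit 79) (nat_lit 148) r9_79 r0_148 (nat_lit 0) (nat_lit 0) (nat_lit 0) (nat_lit 0x776bc40c54) (nat_lit 4211050896),
  Rx.mk (nat_lit 154) (nat_lit 2) (nat_lit 3) (nat_lit 2) (nat_lit 7) (nat_lit 80) (nat_lit 151) r9_80 r0_151 (nat_lit 0) (nat_lit 0) (nat_lit 0) (nat_lit 0x7de51cf04c) (nat_lit 1033259760),
  Rx.mk (nat_lit 155) (nat_lit 3) (nat_lit 3) (nat_lit 2) (nat_lit 7) (nat_lit 81) (nat_lit 149) r9_81 r0_149 (nat_lit 0) (nat_lit 0) (nat_lit 0) (nat_lit 0x7de318b092) (nat_lit 1037126376)]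
noncomputable def e26_21 : List Rx := [
  Rx.mk (nat_lit 128) (nat_lit 0) (nat_lit 0) (nat_lit 2) (nat_lit 4) (nat_lit 96) (nat_lit 161) r9_96 r1_161 (nat_lit 0) (nat_lit 0) (nat_lit 0) (nat_lit 0x6ef8548bc0) (nat_lit 8359213824),
  Rx.mk (nat_lit 130) (nat_lit 2) (nat_lit 0) (nat_lit 2) (nat_lit 5) (nat_lit 97) (nat_lit 164) r9_97 r1_164 (nat_lit 0) (nat_lit 0) (nat_lit 0) (nat_lit 0x7303d06ff6) (nat_lit 6373780920),
  Rx.mk (nat_lit 152) (nat_lit 0) (nat_lit 3) (nat_lit 2) (nat_lit 6) (nat_lit 98) (nat_lit 162) r9_98 r1_162 (nat_lit 0) (nat_lit 0) (nat_lit 0) (nat_lit 0x7d8f13d134) (nat_lit 1198224144),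
  Rx.mk (nat_lit 154) (nat_lit 2) (nat_lit 3) (nat_lit 2) (nat_lit 7) (nat_lit 99) (nat_lit 165) r9_99 r1_165 (nat_lit 0) (nat_lit 0) (nat_lit 0) (nat_lit 0x7da7a24834) (nat_lit 1151139600),
  Rx.mk (nat_lit 155) (nat_lit 3) (nat_lit 3) (nat_lit 2) (nat_lit 7) (nat_lit 100) (nat_lit 163) r9_100 r1_163 (nat_lit 0) (nat_lit 0) (nat_lit 0) (nat_lit 0x7dfc5f3c10) (nat_lit 988663104)]
noncomputable def e26_22 : List Rx := [
  Rx.mk (nat_lit 59) (nat_lit 3) (nat_lit 7) (nat_lit 0) (nat_lit 3) (nat_lit 132) (nat_lit 134) r9_132 r4_134 (nat_lit 0) (nat_lit 0) (nat_lit 0) (nat_lit 0x7d77e26462) (nat_lit 1242694440),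
  Rx.mk (nat_lit 152) (nat_lit 0) (nat_lit 3) (nat_lit 2) (nat_lit 6) (nat_lit 127) (nat_lit 139) r9_127 r4_139 (nat_lit 0) (nat_lit 0) (nat_lit 0) (nat_lit 0x7afc995b6e) (nat_lit 2460787992),
  Rx.mk (nat_lit 154) (nat_lit 2) (nat_lit 3) (nat_lit 2) (nat_lit 7) (nat_lit 128) (nat_lit 142) r9_128 r4_142 (nat_lit 0) (nat_lit 0) (nat_lit 0) (nat_lit 0x7db07b1a9e) (nat_lit 1134176472),
  Rx.mk (nat_lit 155) (nat_lit 3) (nat_lit 3) (nat_lit 2) (nat_lit 7) (nat_lit 129) (nat_lit 140) r9_129 r4_140 (nat_lit 0) (nat_lit 0) (nat_lit 0) (nat_lit 0x7e4a4f1cc4) (nat_lit 839226960),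
  Rx.mk (nat_lit 187) (nat_lit 3) (nat_lit 7) (nat_lit 2) (nat_lit 7) (nat_lit 133) (nat_lit 141) r9_133 r4_141 (nat_lit 0) (nat_lit 0) (nat_lit 0) (nat_lit 0x7dede0640c) (nat_lit 1016456688),
  Rx.mk (nat_lit 231) (nat_lit 7) (nat_lit 4) (nat_lit 3) (nat_lit 5) (nat_lit 130) (nat_lit 136) r9_130 r4_136 (nat_lit 0) (nat_lit 0) (nat_lit 0) (nat_lit 0x7e412fcec2) (nat_lit 856717992),
  Rx.mk (nat_lit 247) (nat_lit 7) (nat_lit 6) (nat_lit 3) (nat_lit 7) (nat_lit 131) (nat_lit 138) r9_131 r4_138 (nat_lit 0) (nat_lit 0) (nat_lit 0) (nat_lit 0x7dd37c8a64) (nat_lit 1067056848),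
  Rx.mk (nat_lit 251) (nat_lit 3) (nat_lit 7) (nat_lit 3) (nat_lit 7) (nat_lit 134) (nat_lit 135) r9_134 r4_135 (nat_lit 0) (nat_lit 0) (nat_lit 0) (nat_lit 0x7df0f592b6) (nat_lit 1010545848),
  Rx.mk (nat_lit 255) (nat_lit 7) (nat_lit 7) (nat_lit 3) (nat_lit 7) (nat_lit 135) (nat_lit 137) r9_135 r4_137 (nat_lit 0) (nat_lit 0) (nat_lit 0) (nat_lit 0x7dee99387e) (nat_lit 1015072344)]
noncomputable def e26_23 : List Rx := [
  Rx.mk (nat_lit 128) (nat_lit 0) (nat_lit 0) (nat_lit 2) (nat_lit 4) (nat_lit 82) (nat_lit 189) r9_82 r6_189 (nat_lit 0) (nat_lit 0) (nat_lit 0) (nat_lit 0x7664114888) (nat_lit 4716664992),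
  Rx.mk (nat_lit 130) (nat_lit 2) (nat_lit 0) (nat_lit 2) (nat_lit 5) (nat_lit 83) (nat_lit 191) r9_83 r6_191 (nat_lit 0) (nat_lit 0) (nat_lit 0) (nat_lit 0x7df0b276e8) (nat_lit 1011048480),
  Rx.mk (nat_lit 152) (nat_lit 0) (nat_lit 3) (nat_lit 2) (nat_lit 6) (nat_lit 88) (nat_lit 192) r9_88 r6_192 (nat_lit 0) (nat_lit 0) (nat_lit 0) (nat_lit 0x7d1458fd5c) (nat_lit 1433545776),
  Rx.mk (nat_lit 154) (nat_lit 2) (nat_lit 3) (nat_lit 2) (nat_lit 7) (nat_lit 89) (nat_lit 194) r9_89 r6_194 (nat_lit 0) (nat_lit 0) (nat_lit 0) (nat_lit 0x7decc01612) (nat_lit 1018616040),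
  Rx.mk (nat_lit 155) (nat_lit 3) (nat_lit 3) (nat_lit 2) (nat_lit 7) (nat_lit 90) (nat_lit 193) r9_90 r6_193 (nat_lit 0) (nat_lit 0) (nat_lit 0) (nat_lit 0x7deb8e2932) (nat_lit 1020907368),
  Rx.mk (nat_lit 278) (nat_lit 6) (nat_lit 2) (nat_lit 4) (nat_lit 3) (nat_lit 86) (nat_lit 195) r9_86 r6_195 (nat_lit 0) (nat_lit 0) (nat_lit 0) (nat_lit 0x7d9efc12a0) (nat_lit 1167723648),
  Rx.mk (nat_lit 308) (nat_lit 4) (nat_lit 6) (nat_lit 4) (nat_lit 2) (nat_lit 91) (nat_lit 184) r9_91 r6_184 (nat_lit 0) (nat_lit 0) (nat_lit 0) (nat_lit 0x7664114888) (nat_lit 4716664992),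
  Rx.mk (nat_lit 310) (nat_lit 6) (nat_lit 6) (nat_lit 4) (nat_lit 3) (nat_lit 93) (nat_lit 187) r9_93 r6_187 (nat_lit 0) (nat_lit 0) (nat_lit 0) (nat_lit 0x7df0b276e8) (nat_lit 1011048480),
  Rx.mk (nat_lit 386) (nat_lit 2) (nat_lit 0) (nat_lit 6) (nat_lit 5) (nat_lit 84) (nat_lit 190) r9_84 r6_190 (nat_lit 0) (nat_lit 0) (nat_lit 0) (nat_lit 0x7d9efc12a0) (nat_lit 1167723648),
  Rx.mk (nat_lit 402) (nat_lit 2) (nat_lit 2) (nat_lit 6) (nat_lit 7) (nat_lit 85) (nat_lit 197) r9_85 r6_197 (nat_lit 0) (nat_lit 0) (nat_lit 0) (nat_lit 0x7db9dc0486) (nat_lit 1116194040),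
  Rx.mk (nat_lit 406) (nat_lit 6) (nat_lit 2) (nat_lit 6) (nat_lit 7) (nat_lit 87) (nat_lit 196) r9_87 r6_196 (nat_lit 0) (nat_lit 0) (nat_lit 0) (nat_lit 0x7db9dc0486) (nat_lit 1116194040),
  Rx.mk (nat_lit 500) (nat_lit 4) (nat_lit 6) (nat_lit 7) (nat_lit 6) (nat_lit 92) (nat_lit 185) r9_92 r6_185 (nat_lit 0) (nat_lit 0) (nat_lit 0) (nat_lit 0x7d1458fd5c) (nat_lit 1433545776),
  Rx.mk (nat_lit 502) (nat_lit 6) (nat_lit 6) (nat_lit 7) (nat_lit 7) (nat_lit 94) (nat_lit 188) r9_94 r6_188 (nat_lit 0) (nat_lit 0) (nat_lit 0) (nat_lit 0x7decc01612) (nat_lit 1018616040),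
  Rx.mk (nat_lit 503) (nat_lit 7) (nat_lit 6) (nat_lit 7) (nat_lit 7) (nat_lit 95) (nat_lit 186) r9_95 r6_186 (nat_lit 0) (nat_lit 0) (nat_lit 0) (nat_lit 0x7deb8e2932) (nat_lit 1020907368)]
noncomputable def e26_24 : List Rx := [
  Rx.mk (nat_lit 128) (nat_lit 0) (nat_lit 0) (nat_lit 2) (nat_lit 4) (nat_lit 101) (nat_lit 149) r9_101 r7_149 (nat_lit 0) (nat_lit 0) (nat_lit 0) (nat_lit 0x697a4a51e2) (nat_lit 11055149352),
  Rx.mk (nat_lit 130) (nat_lit 2) (nat_lit 0) (nat_lit 2) (nat_lit 5) (nat_lit 102) (nat_lit 151) r9_102 r7_151 (nat_lit 0) (nat_lit 0) (nat_lit 0) (nat_lit 0x7d71a7281c) (nat_lit 1254642480),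
  Rx.mk (nat_lit 152) (nat_lit 0) (nat_lit 3) (nat_lit 2) (nat_lit 6) (nat_lit 106) (nat_lit 152) r9_106 r7_152 (nat_lit 0) (nat_lit 0) (nat_lit 0) (nat_lit 0x7d98e3b42c) (nat_lit 1179410544),
  Rx.mk (nat_lit 154) (nat_lit 2) (nat_lit 3) (nat_lit 2) (nat_lit 7) (nat_lit 107) (nat_lit 154) r9_107 r7_154 (nat_lit 0) (nat_lit 0) (nat_lit 0) (nat_lit 0x7df9b7868e) (nat_lit 993754008),
  Rx.mk (nat_lit 155) (nat_lit 3) (nat_lit 3) (nat_lit 2) (nat_lit 7) (nat_lit 108) (nat_lit 153) r9_108 r7_153 (nat_lit 0) (nat_lit 0) (nat_lit 0) (nat_lit 0x7dddb20702) (nat_lit 1047482280),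
  Rx.mk (nat_lit 386) (nat_lit 2) (nat_lit 0) (nat_lit 6) (nat_lit 5) (nat_lit 103) (nat_lit 150) r9_103 r7_150 (nat_lit 0) (nat_lit 0) (nat_lit 0) (nat_lit 0x7df79428c6) (nat_lit 997853688),
  Rx.mk (nat_lit 402) (nat_lit 2) (nat_lit 2) (nat_lit 6) (nat_lit 7) (nat_lit 104) (nat_lit 156) r9_104 r7_156 (nat_lit 0) (nat_lit 0) (nat_lit 0) (nat_lit 0x7dc2cfd540) (nat_lit 1099028736),
  Rx.mk (nat_lit 406) (nat_lit 6) (nat_lit 2) (nat_lit 6) (nat_lit 7) (nat_lit 105) (nat_lit 155) r9_105 r7_155 (nat_lit 0) (nat_lit 0) (nat_lit 0) (nat_lit 0x7dcddbc476) (nat_lit 1077847992)]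
noncomputable def e26_25 : List Rx := [
  Rx.mk (nat_lit 278) (nat_lit 6) (nat_lit 2) (nat_lit 4) (nat_lit 3) (nat_lit 110) (nat_lit 150) r9_110 r7_150 (nat_lit 0) (nat_lit 0) (nat_lit 0) (nat_lit 0x7df79428c6) (nat_lit 997853688),
  Rx.mk (nat_lit 308) (nat_lit 4) (nat_lit 6) (nat_lit 4) (nat_lit 2) (nat_lit 112) (nat_lit 149) r9_112 r7_149 (nat_lit 0) (nat_lit 0) (nat_lit 0) (nat_lit 0x697a4a51e2) (nat_lit 11055149352),
  Rx.mk (nat_lit 310) (nat_lit 6) (nat_lit 6) (nat_lit 4) (nat_lit 3) (nat_lit 114) (nat_lit 151) r9_114 r7_151 (nat_lit 0) (nat_lit 0) (nat_lit 0) (nat_lit 0x7d71a7281c) (nat_lit 1254642480),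
  Rx.mk (nat_lit 402) (nat_lit 2) (nat_lit 2) (nat_lit 6) (nat_lit 7) (nat_lit 109) (nat_lit 155) r9_109 r7_155 (nat_lit 0) (nat_lit 0) (nat_lit 0) (nat_lit 0x7dcddbc476) (nat_lit 1077847992),
  Rx.mk (nat_lit 406) (nat_lit 6) (nat_lit 2) (nat_lit 6) (nat_lit 7) (nat_lit 111) (nat_lit 156) r9_111 r7_156 (nat_lit 0) (nat_lit 0) (nat_lit 0) (nat_lit 0x7dc2cfd540) (nat_lit 1099028736),
  Rx.mk (nat_lit 500) (nat_lit 4) (nat_lit 6) (nat_lit 7) (nat_lit 6) (nat_lit 113) (nat_lit 152) r9_113 r7_152 (nat_lit 0) (nat_lit 0) (nat_lit 0) (nat_lit 0x7d98e3b42c) (nat_lit 1179410544),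
  Rx.mk (nat_lit 502) (nat_lit 6) (nat_lit 6) (nat_lit 7) (nat_lit 7) (nat_lit 115) (nat_lit 154) r9_115 r7_154 (nat_lit 0) (nat_lit 0) (nat_lit 0) (nat_lit 0x7df9b7868e) (nat_lit 993754008),
  Rx.mk (nat_lit 503) (nat_lit 7) (nat_lit 6) (nat_lit 7) (nat_lit 7) (nat_lit 116) (nat_lit 153) r9_116 r7_153 (nat_lit 0) (nat_lit 0) (nat_lit 0) (nat_lit 0x7dddb20702) (nat_lit 1047482280)]
noncomputable def e26_26 : List Rx := [
  Rx.mk (nat_lit 59) (nat_lit 3) (nat_lit 7) (nat_lit 0) (nat_lit 3) (nat_lit 150) (nat_lit 138) r9_150 r9_138 (nat_lit 0) (nat_lit 0) (nat_lit 0) (nat_lit 0x7d9a3a5ec0) (nat_lit 1176844032),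
  Rx.mk (nat_lit 152) (nat_lit 0) (nat_lit 3) (nat_lit 2) (nat_lit 6) (nat_lit 141) (nat_lit 146) r9_141 r9_146 (nat_lit 0) (nat_lit 0) (nat_lit 0) (nat_lit 0x7bb25cbe82) (nat_lit 2112275880),
  Rx.mk (nat_lit 154) (nat_lit 2) (nat_lit 3) (nat_lit 2) (nat_lit 7) (nat_lit 142) (nat_lit 149) r9_142 r9_149 (nat_lit 0) (nat_lit 0) (nat_lit 0) (nat_lit 0x7d0c11a1da) (nat_lit 1449419400),
  Rx.mk (nat_lit 155) (nat_lit 3) (nat_lit 3) (nat_lit 2) (nat_lit 7) (nat_lit 144) (nat_lit 147) r9_144 r9_147 (nat_lit 0) (nat_lit 0) (nat_lit 0) (nat_lit 0x7d0c11a1da) (nat_lit 1449419400),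
  Rx.mk (nat_lit 187) (nat_lit 3) (nat_lit 7) (nat_lit 2) (nat_lit 7) (nat_lit 151) (nat_lit 140) r9_151 r9_140 (nat_lit 0) (nat_lit 0) (nat_lit 0) (nat_lit 0x7d85a2085a) (nat_lit 1216332936),
  Rx.mk (nat_lit 231) (nat_lit 7) (nat_lit 4) (nat_lit 3) (nat_lit 5) (nat_lit 145) (nat_lit 136) r9_145 r9_136 (nat_lit 0) (nat_lit 0) (nat_lit 0) (nat_lit 0x7d9a3a5ec0) (nat_lit 1176844032),
  Rx.mk (nat_lit 247) (nat_lit 7) (nat_lit 6) (nat_lit 3) (nat_lit 7) (nat_lit 148) (nat_lit 143) r9_148 r9_143 (nat_lit 0) (nat_lit 0) (nat_lit 0) (nat_lit 0x7d85a2085a) (nat_lit 1216332936),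
  Rx.mk (nat_lit 251) (nat_lit 3) (nat_lit 7) (nat_lit 3) (nat_lit 7) (nat_lit 152) (nat_lit 139) r9_152 r9_139 (nat_lit 0) (nat_lit 0) (nat_lit 0) (nat_lit 0x7d9ed5d504) (nat_lit 1168010064),
  Rx.mk (nat_lit 255) (nat_lit 7) (nat_lit 7) (nat_lit 3) (nat_lit 7) (nat_lit 153) (nat_lit 137) r9_153 r9_137 (nat_lit 0) (nat_lit 0) (nat_lit 0) (nat_lit 0x7d9ed5d504) (nat_lit 1168010064),
  Rx.mk (nat_lit 278) (nat_lit 6) (nat_lit 2) (nat_lit 4) (nat_lit 3) (nat_lit 138) (nat_lit 150) r9_138 r9_150 (nat_lit 0) (nat_lit 0) (nat_lit 0) (nat_lit 0x7d9a3a5ec0) (nat_lit 1176844032),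
  Rx.mk (nat_lit 386) (nat_lit 2) (nat_lit 0) (nat_lit 6) (nat_lit 5) (nat_lit 136) (nat_lit 145) r9_136 r9_145 (nat_lit 0) (nat_lit 0) (nat_lit 0) (nat_lit 0x7d9a3a5ec0) (nat_lit 1176844032),
  Rx.mk (nat_lit 402) (nat_lit 2) (nat_lit 2) (nat_lit 6) (nat_lit 7) (nat_lit 137) (nat_lit 153) r9_137 r9_153 (nat_lit 0) (nat_lit 0) (nat_lit 0) (nat_lit 0x7d9ed5d504) (nat_lit 1168010064),
  Rx.mk (nat_lit 406) (nat_lit 6) (nat_lit 2) (nat_lit 6) (nat_lit 7) (nat_lit 139) (nat_lit 152) r9_139 r9_152 (nat_lit 0) (nat_lit 0) (nat_lit 0) (nat_lit 0x7d9ed5d504) (nat_lit 1168010064),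
  Rx.mk (nat_lit 410) (nat_lit 2) (nat_lit 3) (nat_lit 6) (nat_lit 7) (nat_lit 143) (nat_lit 148) r9_143 r9_148 (nat_lit 0) (nat_lit 0) (nat_lit 0) (nat_lit 0x7d85a2085a) (nat_lit 1216332936),
  Rx.mk (nat_lit 470) (nat_lit 6) (nat_lit 2) (nat_lit 7) (nat_lit 7) (nat_lit 140) (nat_lit 151) r9_140 r9_151 (nat_lit 0) (nat_lit 0) (nat_lit 0) (nat_lit 0x7d85a2085a) (nat_lit 1216332936),
  Rx.mk (nat_lit 500) (nat_lit 4) (nat_lit 6) (nat_lit 7) (nat_lit 6) (nat_lit 146) (nat_lit 141) r9_146 r9_141 (nat_lit 0) (nat_lit 0) (nat_lit 0) (nat_lit 0x7bb25cbe82) (nat_lit 2112275880),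
  Rx.mk (nat_lit 502) (nat_lit 6) (nat_lit 6) (nat_lit 7) (nat_lit 7) (nat_lit 147) (nat_lit 144) r9_147 r9_144 (nat_lit 0) (nat_lit 0) (nat_lit 0) (nat_lit 0x7d0c11a1da) (nat_lit 1449419400),
  Rx.mk (nat_lit 503) (nat_lit 7) (nat_lit 6) (nat_lit 7) (nat_lit 7) (nat_lit 149) (nat_lit 142) r9_149 r9_142 (nat_lit 0) (nat_lit 0) (nat_lit 0) (nat_lit 0x7d0c11a1da) (nat_lit 1449419400)]
noncomputable def e26_27 : List Rx := [
  Rx.mk (nat_lit 59) (nat_lit 3) (nat_lit 7) (nat_lit 0) (nat_lit 3) (nat_lit 157) (nat_lit 140) r9_157 r10_140 (nat_lit 0) (nat_lit 0) (nat_lit 0) (nat_lit 0x7dcfb546dc) (nat_lit 1074301488),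
  Rx.mk (nat_lit 63) (nat_lit 7) (nat_lit 7) (nat_lit 0) (nat_lit 3) (nat_lit 159) (nat_lit 138) r9_159 r10_138 (nat_lit 0) (nat_lit 0) (nat_lit 0) (nat_lit 0x7dcdcae584) (nat_lit 1077974352),
  Rx.mk (nat_lit 155) (nat_lit 3) (nat_lit 3) (nat_lit 2) (nat_lit 7) (nat_lit 154) (nat_lit 143) r9_154 r10_143 (nat_lit 0) (nat_lit 0) (nat_lit 0) (nat_lit 0x7dd40501dc) (nat_lit 1066034736),
  Rx.mk (nat_lit 187) (nat_lit 3) (nat_lit 7) (nat_lit 2) (nat_lit 7) (nat_lit 158) (nat_lit 141) r9_158 r10_141 (nat_lit 0) (nat_lit 0) (nat_lit 0) (nat_lit 0x7dfd420de2) (nat_lit 986964264),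
  Rx.mk (nat_lit 231) (nat_lit 7) (nat_lit 4) (nat_lit 3) (nat_lit 5) (nat_lit 155) (nat_lit 137) r9_155 r10_137 (nat_lit 0) (nat_lit 0) (nat_lit 0) (nat_lit 0x7df2fc7246) (nat_lit 1006659576),
  Rx.mk (nat_lit 247) (nat_lit 7) (nat_lit 6) (nat_lit 3) (nat_lit 7) (nat_lit 156) (nat_lit 142) r9_156 r10_142 (nat_lit 0) (nat_lit 0) (nat_lit 0) (nat_lit 0x7df03efe20) (nat_lit 1011913344),
  Rx.mk (nat_lit 255) (nat_lit 7) (nat_lit 7) (nat_lit 3) (nat_lit 7) (nat_lit 160) (nat_lit 139) r9_160 r10_139 (nat_lit 0) (nat_lit 0) (nat_lit 0) (nat_lit 0x7df79428c6) (nat_lit 997853688)]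
noncomputable def e26_28 : List Rx := [
  Rx.mk (nat_lit 103) (nat_lit 7) (nat_lit 4) (nat_lit 1) (nat_lit 5) (nat_lit 240) (nat_lit 361) r9_240 r10_361 (nat_lit 0) (nat_lit 0) (nat_lit 0) (nat_lit 0x7dee57fc92) (nat_lit 1015560936),
  Rx.mk (nat_lit 111) (nat_lit 7) (nat_lit 5) (nat_lit 1) (nat_lit 7) (nat_lit 241) (nat_lit 362) r9_241 r10_362 (nat_lit 0) (nat_lit 0) (nat_lit 0) (nat_lit 0x7dded7f4a2) (nat_lit 1045280808),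
  Rx.mk (nat_lit 119) (nat_lit 7) (nat_lit 6) (nat_lit 1) (nat_lit 7) (nat_lit 242) (nat_lit 363) r9_242 r10_363 (nat_lit 0) (nat_lit 0) (nat_lit 0) (nat_lit 0x7de67cfa4a) (nat_lit 1030623048),
  Rx.mk (nat_lit 375) (nat_lit 7) (nat_lit 6) (nat_lit 5) (nat_lit 7) (nat_lit 243) (nat_lit 360) r9_243 r10_360 (nat_lit 0) (nat_lit 0) (nat_lit 0) (nat_lit 0x7de3898984) (nat_lit 1036281168)]
noncomputable def e26_29 : List Rx := [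
  Rx.mk (nat_lit 35) (nat_lit 3) (nat_lit 4) (nat_lit 0) (nat_lit 1) (nat_lit 244) (nat_lit 213) r9_244 r5_213 (nat_lit 0) (nat_lit 0) (nat_lit 0) (nat_lit 0x73ce85c3d6) (nat_lit 5985108792),
  Rx.mk (nat_lit 43) (nat_lit 3) (nat_lit 5) (nat_lit 0) (nat_lit 3) (nat_lit 249) (nat_lit 214) r9_249 r5_214 (nat_lit 0) (nat_lit 0) (nat_lit 0) (nat_lit 0x7e23b6c670) (nat_lit 913228992),
  Rx.mk (nat_lit 59) (nat_lit 3) (nat_lit 7) (nat_lit 0) (nat_lit 3) (nat_lit 254) (nat_lit 215) r9_254 r5_215 (nat_lit 0) (nat_lit 0) (nat_lit 0) (nat_lit 0x7e66094106) (nat_lit 786063096),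
  Rx.mk (nat_lit 99) (nat_lit 3) (nat_lit 4) (nat_lit 1) (nat_lit 5) (nat_lit 245) (nat_lit 216) r9_245 r5_216 (nat_lit 0) (nat_lit 0) (nat_lit 0) (nat_lit 0x7e4ca1579e) (nat_lit 834776280),
  Rx.mk (nat_lit 123) (nat_lit 3) (nat_lit 7) (nat_lit 1) (nat_lit 7) (nat_lit 255) (nat_lit 217) r9_255 r5_217 (nat_lit 0) (nat_lit 0) (nat_lit 0) (nat_lit 0x7def760ab0) (nat_lit 1013418432),
  Rx.mk (nat_lit 163) (nat_lit 3) (nat_lit 4) (nat_lit 2) (nat_lit 5) (nat_lit 246) (nat_lit 220) r9_246 r5_220 (nat_lit 0) (nat_lit 0) (nat_lit 0) (nat_lit 0x7e38dd93ee) (nat_lit 872673048),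
  Rx.mk (nat_lit 171) (nat_lit 3) (nat_lit 5) (nat_lit 2) (nat_lit 7) (nat_lit 250) (nat_lit 221) r9_250 r5_221 (nat_lit 0) (nat_lit 0) (nat_lit 0) (nat_lit 0x7de0283f9c) (nat_lit 1042762032),
  Rx.mk (nat_lit 187) (nat_lit 3) (nat_lit 7) (nat_lit 2) (nat_lit 7) (nat_lit 256) (nat_lit 222) r9_256 r5_222 (nat_lit 0) (nat_lit 0) (nat_lit 0) (nat_lit 0x7decc13600) (nat_lit 1018607616),
  Rx.mk (nat_lit 227) (nat_lit 3) (nat_lit 4) (nat_lit 3) (nat_lit 5) (nat_lit 247) (nat_lit 218) r9_247 r5_218 (nat_lit 0) (nat_lit 0) (nat_lit 0) (nat_lit 0x7d97e9a3ce) (nat_lit 1181283480),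
  Rx.mk (nat_lit 231) (nat_lit 7) (nat_lit 4) (nat_lit 3) (nat_lit 5) (nat_lit 248) (nat_lit 210) r9_248 r5_210 (nat_lit 0) (nat_lit 0) (nat_lit 0) (nat_lit 0x7e8b7789fc) (nat_lit 714293424),
  Rx.mk (nat_lit 235) (nat_lit 3) (nat_lit 5) (nat_lit 3) (nat_lit 7) (nat_lit 251) (nat_lit 219) r9_251 r5_219 (nat_lit 0) (nat_lit 0) (nat_lit 0) (nat_lit 0x7dedcb0562) (nat_lit 1016616744),
  Rx.mk (nat_lit 239) (nat_lit 7) (nat_lit 5) (nat_lit 3) (nat_lit 7) (nat_lit 252) (nat_lit 211) r9_252 r5_211 (nat_lit 0) (nat_lit 0) (nat_lit 0) (nat_lit 0x7e727d79b6) (nat_lit 762183864),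
  Rx.mk (nat_lit 247) (nat_lit 7) (nat_lit 6) (nat_lit 3) (nat_lit 7) (nat_lit 253) (nat_lit 212) r9_253 r5_212 (nat_lit 0) (nat_lit 0) (nat_lit 0) (nat_lit 0x7e762bfeca) (nat_lit 755124552)]
noncomputable def e26_30 : List Rx := [
  Rx.mk (nat_lit 59) (nat_lit 3) (nat_lit 7) (nat_lit 0) (nat_lit 3) (nat_lit 222) (nat_lit 137) r9_222 r10_137 (nat_lit 0) (nat_lit 0) (nat_lit 0) (nat_lit 0x7df2fc7246) (nat_lit 1006659576),
  Rx.mk (nat_lit 187) (nat_lit 3) (nat_lit 7) (nat_lit 2) (nat_lit 7) (nat_lit 223) (nat_lit 142) r9_223 r10_142 (nat_lit 0) (nat_lit 0) (nat_lit 0) (nat_lit 0x7df03efe20) (nat_lit 1011913344),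
  Rx.mk (nat_lit 227) (nat_lit 3) (nat_lit 4) (nat_lit 3) (nat_lit 5) (nat_lit 218) (nat_lit 138) r9_218 r10_138 (nat_lit 0) (nat_lit 0) (nat_lit 0) (nat_lit 0x7dcdcae584) (nat_lit 1077974352),
  Rx.mk (nat_lit 231) (nat_lit 7) (nat_lit 4) (nat_lit 3) (nat_lit 5) (nat_lit 219) (nat_lit 140) r9_219 r10_140 (nat_lit 0) (nat_lit 0) (nat_lit 0) (nat_lit 0x7dcfb546dc) (nat_lit 1074301488),
  Rx.mk (nat_lit 247) (nat_lit 7) (nat_lit 6) (nat_lit 3) (nat_lit 7) (nat_lit 220) (nat_lit 141) r9_220 r10_141 (nat_lit 0) (nat_lit 0) (nat_lit 0) (nat_lit 0x7dfd420de2) (nat_lit 986964264),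
  Rx.mk (nat_lit 251) (nat_lit 3) (nat_lit 7) (nat_lit 3) (nat_lit 7) (nat_lit 224) (nat_lit 139) r9_224 r10_139 (nat_lit 0) (nat_lit 0) (nat_lit 0) (nat_lit 0x7df79428c6) (nat_lit 997853688),
  Rx.mk (nat_lit 503) (nat_lit 7) (nat_lit 6) (nat_lit 7) (nat_lit 7) (nat_lit 221) (nat_lit 143) r9_221 r10_143 (nat_lit 0) (nat_lit 0) (nat_lit 0) (nat_lit 0x7dd40501dc) (nat_lit 1066034736)]
noncomputable def e26_31 : List Rx := [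
  Rx.mk (nat_lit 35) (nat_lit 3) (nat_lit 4) (nat_lit 0) (nat_lit 1) (nat_lit 225) (nat_lit 344) r9_225 r5_344 (nat_lit 0) (nat_lit 0) (nat_lit 0) (nat_lit 0x73c25986a6) (nat_lit 6008448888),
  Rx.mk (nat_lit 39) (nat_lit 7) (nat_lit 4) (nat_lit 0) (nat_lit 1) (nat_lit 228) (nat_lit 345) r9_228 r5_345 (nat_lit 0) (nat_lit 0) (nat_lit 0) (nat_lit 0x73c25986a6) (nat_lit 6008448888),
  Rx.mk (nat_lit 43) (nat_lit 3) (nat_lit 5) (nat_lit 0) (nat_lit 3) (nat_lit 230) (nat_lit 349) r9_230 r5_349 (nat_lit 0) (nat_lit 0) (nat_lit 0) (nat_lit 0x7e53650b5c) (nat_lit 821806128),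
  Rx.mk (nat_lit 47) (nat_lit 7) (nat_lit 5) (nat_lit 0) (nat_lit 3) (nat_lit 233) (nat_lit 350) r9_233 r5_350 (nat_lit 0) (nat_lit 0) (nat_lit 0) (nat_lit 0x7e77980808) (nat_lit 752397984),
  Rx.mk (nat_lit 55) (nat_lit 7) (nat_lit 6) (nat_lit 0) (nat_lit 3) (nat_lit 235) (nat_lit 354) r9_235 r5_354 (nat_lit 0) (nat_lit 0) (nat_lit 0) (nat_lit 0x7e7a70da78) (nat_lit 746939232),
  Rx.mk (nat_lit 99) (nat_lit 3) (nat_lit 4) (nat_lit 1) (nat_lit 5) (nat_lit 226) (nat_lit 346) r9_226 r5_346 (nat_lit 0) (nat_lit 0) (nat_lit 0) (nat_lit 0x7e77980808) (nat_lit 752397984),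
  Rx.mk (nat_lit 103) (nat_lit 7) (nat_lit 4) (nat_lit 1) (nat_lit 5) (nat_lit 229) (nat_lit 347) r9_229 r5_347 (nat_lit 0) (nat_lit 0) (nat_lit 0) (nat_lit 0x7e53650b5c) (nat_lit 821806128),
  Rx.mk (nat_lit 107) (nat_lit 3) (nat_lit 5) (nat_lit 1) (nat_lit 7) (nat_lit 231) (nat_lit 351) r9_231 r5_351 (nat_lit 0) (nat_lit 0) (nat_lit 0) (nat_lit 0x7dcfcb657a) (nat_lit 1074135816),
  Rx.mk (nat_lit 111) (nat_lit 7) (nat_lit 5) (nat_lit 1) (nat_lit 7) (nat_lit 234) (nat_lit 352) r9_234 r5_352 (nat_lit 0) (nat_lit 0) (nat_lit 0) (nat_lit 0x7dcfcb657a) (nat_lit 1074135816),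
  Rx.mk (nat_lit 119) (nat_lit 7) (nat_lit 6) (nat_lit 1) (nat_lit 7) (nat_lit 236) (nat_lit 355) r9_236 r5_355 (nat_lit 0) (nat_lit 0) (nat_lit 0) (nat_lit 0x7dcbe9e396) (nat_lit 1081577016),
  Rx.mk (nat_lit 163) (nat_lit 3) (nat_lit 4) (nat_lit 2) (nat_lit 5) (nat_lit 227) (nat_lit 348) r9_227 r5_348 (nat_lit 0) (nat_lit 0) (nat_lit 0) (nat_lit 0x7e7a70da78) (nat_lit 746939232),
  Rx.mk (nat_lit 171) (nat_lit 3) (nat_lit 5) (nat_lit 2) (nat_lit 7) (nat_lit 232) (nat_lit 353) r9_232 r5_353 (nat_lit 0) (nat_lit 0) (nat_lit 0) (nat_lit 0x7dcbe9e396) (nat_lit 1081577016)]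
noncomputable def e26_32 : List Rx := [
  Rx.mk (nat_lit 35) (nat_lit 3) (nat_lit 4) (nat_lit 0) (nat_lit 1) (nat_lit 257) (nat_lit 213) r9_257 r11_213 (nat_lit 0) (nat_lit 0) (nat_lit 0) (nat_lit 0x7170076e1a) (nat_lit 7147997064),
  Rx.mk (nat_lit 39) (nat_lit 7) (nat_lit 4) (nat_lit 0) (nat_lit 1) (nat_lit 260) (nat_lit 221) r9_260 r11_221 (nat_lit 0) (nat_lit 0) (nat_lit 0) (nat_lit 0x7170076e1a) (nat_lit 7147997064),
  Rx.mk (nat_lit 43) (nat_lit 3) (nat_lit 5) (nat_lit 0) (nat_lit 3) (nat_lit 263) (nat_lit 216) r9_263 r11_216 (nat_lit 0) (nat_lit 0) (nat_lit 0) (nat_lit 0x7e2a064172) (nat_lit 901129320),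
  Rx.mk (nat_lit 47) (nat_lit 7) (nat_lit 5) (nat_lit 0) (nat_lit 3) (nat_lit 265) (nat_lit 224) r9_265 r11_224 (nat_lit 0) (nat_lit 0) (nat_lit 0) (nat_lit 0x7e73fee19e) (nat_lit 759297240),
  Rx.mk (nat_lit 55) (nat_lit 7) (nat_lit 6) (nat_lit 0) (nat_lit 3) (nat_lit 267) (nat_lit 226) r9_267 r11_226 (nat_lit 0) (nat_lit 0) (nat_lit 0) (nat_lit 0x7e504d3cdc) (nat_lit 827736624),
  Rx.mk (nat_lit 59) (nat_lit 3) (nat_lit 7) (nat_lit 0) (nat_lit 3) (nat_lit 270) (nat_lit 218) r9_270 r11_218 (nat_lit 0) (nat_lit 0) (nat_lit 0) (nat_lit 0x7e7b750a34) (nat_lit 744990480),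
  Rx.mk (nat_lit 99) (nat_lit 3) (nat_lit 4) (nat_lit 1) (nat_lit 5) (nat_lit 258) (nat_lit 214) r9_258 r11_214 (nat_lit 0) (nat_lit 0) (nat_lit 0) (nat_lit 0x7e73fee19e) (nat_lit 759297240),
  Rx.mk (nat_lit 103) (nat_lit 7) (nat_lit 4) (nat_lit 1) (nat_lit 5) (nat_lit 261) (nat_lit 222) r9_261 r11_222 (nat_lit 0) (nat_lit 0) (nat_lit 0) (nat_lit 0x7e2a064172) (nat_lit 901129320),
  Rx.mk (nat_lit 119) (nat_lit 7) (nat_lit 6) (nat_lit 1) (nat_lit 7) (nat_lit 268) (nat_lit 227) r9_268 r11_227 (nat_lit 0) (nat_lit 0) (nat_lit 0) (nat_lit 0x7df1f96278) (nat_lit 1008599904),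
  Rx.mk (nat_lit 123) (nat_lit 3) (nat_lit 7) (nat_lit 1) (nat_lit 7) (nat_lit 271) (nat_lit 219) r9_271 r11_219 (nat_lit 0) (nat_lit 0) (nat_lit 0) (nat_lit 0x7df00ea126) (nat_lit 1012275576),
  Rx.mk (nat_lit 163) (nat_lit 3) (nat_lit 4) (nat_lit 2) (nat_lit 5) (nat_lit 259) (nat_lit 215) r9_259 r11_215 (nat_lit 0) (nat_lit 0) (nat_lit 0) (nat_lit 0x7e504d3cdc) (nat_lit 827736624),
  Rx.mk (nat_lit 171) (nat_lit 3) (nat_lit 5) (nat_lit 2) (nat_lit 7) (nat_lit 264) (nat_lit 217) r9_264 r11_217 (nat_lit 0) (nat_lit 0) (nat_lit 0) (nat_lit 0x7df1f96278) (nat_lit 1008599904),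
  Rx.mk (nat_lit 187) (nat_lit 3) (nat_lit 7) (nat_lit 2) (nat_lit 7) (nat_lit 272) (nat_lit 220) r9_272 r11_220 (nat_lit 0) (nat_lit 0) (nat_lit 0) (nat_lit 0x7dd0d29506) (nat_lit 1072164600),
  Rx.mk (nat_lit 231) (nat_lit 7) (nat_lit 4) (nat_lit 3) (nat_lit 5) (nat_lit 262) (nat_lit 223) r9_262 r11_223 (nat_lit 0) (nat_lit 0) (nat_lit 0) (nat_lit 0x7e7b750a34) (nat_lit 744990480),
  Rx.mk (nat_lit 239) (nat_lit 7) (nat_lit 5) (nat_lit 3) (nat_lit 7) (nat_lit 266) (nat_lit 225) r9_266 r11_225 (nat_lit 0) (nat_lit 0) (nat_lit 0) (nat_lit 0x7df00ea126) (nat_lit 1012275576),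
  Rx.mk (nat_lit 247) (nat_lit 7) (nat_lit 6) (nat_lit 3) (nat_lit 7) (nat_lit 269) (nat_lit 228) r9_269 r11_228 (nat_lit 0) (nat_lit 0) (nat_lit 0) (nat_lit 0x7dd0d29506) (nat_lit 1072164600)]
noncomputable def e26_33 : List Rx := [
  Rx.mk (nat_lit 40) (nat_lit 0) (nat_lit 5) (nat_lit 0) (nat_lit 2) (nat_lit 281) (nat_lit 195) r9_281 r0_195 (nat_lit 0) (nat_lit 0) (nat_lit 0) (nat_lit 0x604e485b2e) (nat_lit 15557210136),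
  Rx.mk (nat_lit 104) (nat_lit 0) (nat_lit 5) (nat_lit 1) (nat_lit 6) (nat_lit 282) (nat_lit 196) r9_282 r0_196 (nat_lit 0) (nat_lit 0) (nat_lit 0) (nat_lit 0x7d6198a914) (nat_lit 1285429392),
  Rx.mk (nat_lit 136) (nat_lit 0) (nat_lit 1) (nat_lit 2) (nat_lit 6) (nat_lit 279) (nat_lit 198) r9_279 r0_198 (nat_lit 0) (nat_lit 0) (nat_lit 0) (nat_lit 0x7ccb9f693e) (nat_lit 1572988248),
  Rx.mk (nat_lit 139) (nat_lit 3) (nat_lit 1) (nat_lit 2) (nat_lit 7) (nat_lit 280) (nat_lit 199) r9_280 r0_199 (nat_lit 0) (nat_lit 0) (nat_lit 0) (nat_lit 0x7e3eef92c8) (nat_lit 861033888),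
  Rx.mk (nat_lit 168) (nat_lit 0) (nat_lit 5) (nat_lit 2) (nat_lit 6) (nat_lit 283) (nat_lit 197) r9_283 r0_197 (nat_lit 0) (nat_lit 0) (nat_lit 0) (nat_lit 0x7e0e1fdff4) (nat_lit 954624528)]
noncomputable def e26_34 : List Rx := [
  Rx.mk (nat_lit 40) (nat_lit 0) (nat_lit 5) (nat_lit 0) (nat_lit 2) (nat_lit 273) (nat_lit 321) r9_273 r0_321 (nat_lit 0) (nat_lit 0) (nat_lit 0) (nat_lit 0x6fbd3d3c70) (nat_lit 7981661376),
  Rx.mk (nat_lit 41) (nat_lit 1) (nat_lit 5) (nat_lit 0) (nat_lit 3) (nat_lit 276) (nat_lit 322) r9_276 r0_322 (nat_lit 0) (nat_lit 0) (nat_lit 0) (nat_lit 0x7d8ed7d4f4) (nat_lit 1198673424),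
  Rx.mk (nat_lit 104) (nat_lit 0) (nat_lit 5) (nat_lit 1) (nat_lit 6) (nat_lit 274) (nat_lit 323) r9_274 r0_323 (nat_lit 0) (nat_lit 0) (nat_lit 0) (nat_lit 0x7d7df942ee) (nat_lit 1231018776),
  Rx.mk (nat_lit 105) (nat_lit 1) (nat_lit 5) (nat_lit 1) (nat_lit 7) (nat_lit 277) (nat_lit 324) r9_277 r0_324 (nat_lit 0) (nat_lit 0) (nat_lit 0) (nat_lit 0x7e0faa474c) (nat_lit 951670512),
  Rx.mk (nat_lit 168) (nat_lit 0) (nat_lit 5) (nat_lit 2) (nat_lit 6) (nat_lit 275) (nat_lit 325) r9_275 r0_325 (nat_lit 0) (nat_lit 0) (nat_lit 0) (nat_lit 0x7a4fc4e962) (nat_lit 2792171304),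
  Rx.mk (nat_lit 169) (nat_lit 1) (nat_lit 5) (nat_lit 2) (nat_lit 7) (nat_lit 278) (nat_lit 326) r9_278 r0_326 (nat_lit 0) (nat_lit 0) (nat_lit 0) (nat_lit 0x7e1ddac436) (nat_lit 924463800)]
noncomputable def e26_35 : List Rx := [
  Rx.mk (nat_lit 40) (nat_lit 0) (nat_lit 5) (nat_lit 0) (nat_lit 2) (nat_lit 286) (nat_lit 255) r9_286 r6_255 (nat_lit 0) (nat_lit 0) (nat_lit 0) (nat_lit 0x753a13a98c) (nat_lit 5288031216),
  Rx.mk (nat_lit 41) (nat_lit 1) (nat_lit 5) (nat_lit 0) (nat_lit 3) (nat_lit 289) (nat_lit 259) r9_289 r6_259 (nat_lit 0) (nat_lit 0) (nat_lit 0) (nat_lit 0x7d8cac97aa) (nat_lit 1202832072),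
  Rx.mk (nat_lit 104) (nat_lit 0) (nat_lit 5) (nat_lit 1) (nat_lit 6) (nat_lit 287) (nat_lit 256) r9_287 r6_256 (nat_lit 0) (nat_lit 0) (nat_lit 0) (nat_lit 0x7dc0263fdc) (nat_lit 1104133680),
  Rx.mk (nat_lit 105) (nat_lit 1) (nat_lit 5) (nat_lit 1) (nat_lit 7) (nat_lit 290) (nat_lit 260) r9_290 r6_260 (nat_lit 0) (nat_lit 0) (nat_lit 0) (nat_lit 0x7deed8348e) (nat_lit 1014600600),
  Rx.mk (nat_lit 136) (nat_lit 0) (nat_lit 1) (nat_lit 2) (nat_lit 6) (nat_lit 284) (nat_lit 258) r9_284 r6_258 (nat_lit 0) (nat_lit 0) (nat_lit 0) (nat_lit 0x7dbd4fad48) (nat_lit 1109575584),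
  Rx.mk (nat_lit 137) (nat_lit 1) (nat_lit 1) (nat_lit 2) (nat_lit 7) (nat_lit 285) (nat_lit 262) r9_285 r6_262 (nat_lit 0) (nat_lit 0) (nat_lit 0) (nat_lit 0x7deb762ab2) (nat_lit 1021087080),
  Rx.mk (nat_lit 168) (nat_lit 0) (nat_lit 5) (nat_lit 2) (nat_lit 6) (nat_lit 288) (nat_lit 257) r9_288 r6_257 (nat_lit 0) (nat_lit 0) (nat_lit 0) (nat_lit 0x7de3610c0c) (nat_lit 1036584432),
  Rx.mk (nat_lit 169) (nat_lit 1) (nat_lit 5) (nat_lit 2) (nat_lit 7) (nat_lit 291) (nat_lit 261) r9_291 r6_261 (nat_lit 0) (nat_lit 0) (nat_lit 0) (nat_lit 0x7df11510be) (nat_lit 1010309976)]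
noncomputable def e26_36 : List Rx := [
  Rx.mk (nat_lit 105) (nat_lit 1) (nat_lit 5) (nat_lit 1) (nat_lit 7) (nat_lit 323) (nat_lit 354) r9_323 r2_354 (nat_lit 0) (nat_lit 0) (nat_lit 0) (nat_lit 0x7dd3c365f6) (nat_lit 1066526136),
  Rx.mk (nat_lit 109) (nat_lit 5) (nat_lit 5) (nat_lit 1) (nat_lit 7) (nat_lit 324) (nat_lit 355) r9_324 r2_355 (nat_lit 0) (nat_lit 0) (nat_lit 0) (nat_lit 0x7dd3c365f6) (nat_lit 1066526136)]
noncomputable def e26_37 : List Rx := [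
  Rx.mk (nat_lit 105) (nat_lit 1) (nat_lit 5) (nat_lit 1) (nat_lit 7) (nat_lit 329) (nat_lit 317) r9_329 r8_317 (nat_lit 0) (nat_lit 0) (nat_lit 0) (nat_lit 0x7dd84fdd2a) (nat_lit 1057804488),
  Rx.mk (nat_lit 109) (nat_lit 5) (nat_lit 5) (nat_lit 1) (nat_lit 7) (nat_lit 330) (nat_lit 318) r9_330 r8_318 (nat_lit 0) (nat_lit 0) (nat_lit 0) (nat_lit 0x7df4a417ca) (nat_lit 1003486536)]
noncomputable def e26_38 : List Rx := [
  Rx.mk (nat_lit 105) (nat_lit 1) (nat_lit 5) (nat_lit 1) (nat_lit 7) (nat_lit 331) (nat_lit 318) r9_331 r8_318 (nat_lit 0) (nat_lit 0) (nat_lit 0) (nat_lit 0x7df4a417ca) (nat_lit 1003486536),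
  Rx.mk (nat_lit 109) (nat_lit 5) (nat_lit 5) (nat_lit 1) (nat_lit 7) (nat_lit 332) (nat_lit 317) r9_332 r8_317 (nat_lit 0) (nat_lit 0) (nat_lit 0) (nat_lit 0x7dd84fdd2a) (nat_lit 1057804488)]
noncomputable def e26_39 : List Rx := [
  Rx.mk (nat_lit 41) (nat_lit 1) (nat_lit 5) (nat_lit 0) (nat_lit 3) (nat_lit 320) (nat_lit 306) r9_320 r1_306 (nat_lit 0) (nat_lit 0) (nat_lit 0) (nat_lit 0x7d78f9b2ec) (nat_lit 1240602480),
  Rx.mk (nat_lit 105) (nat_lit 1) (nat_lit 5) (nat_lit 1) (nat_lit 7) (nat_lit 321) (nat_lit 307) r9_321 r1_307 (nat_lit 0) (nat_lit 0) (nat_lit 0) (nat_lit 0x7dea245fd0) (nat_lit 1023617088),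
  Rx.mk (nat_lit 169) (nat_lit 1) (nat_lit 5) (nat_lit 2) (nat_lit 7) (nat_lit 322) (nat_lit 308) r9_322 r1_308 (nat_lit 0) (nat_lit 0) (nat_lit 0) (nat_lit 0x7d27c6e66a) (nat_lit 1396292040)]
noncomputable def e26_40 : List Rx := [
  Rx.mk (nat_lit 41) (nat_lit 1) (nat_lit 5) (nat_lit 0) (nat_lit 3) (nat_lit 326) (nat_lit 194) r9_326 r7_194 (nat_lit 0) (nat_lit 0) (nat_lit 0) (nat_lit 0x7de3a84798) (nat_lit 1036050912),
  Rx.mk (nat_lit 105) (nat_lit 1) (nat_lit 5) (nat_lit 1) (nat_lit 7) (nat_lit 327) (nat_lit 195) r9_327 r7_195 (nat_lit 0) (nat_lit 0) (nat_lit 0) (nat_lit 0x7dd3600c2c) (nat_lit 1067270256),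
  Rx.mk (nat_lit 137) (nat_lit 1) (nat_lit 1) (nat_lit 2) (nat_lit 7) (nat_lit 325) (nat_lit 197) r9_325 r7_197 (nat_lit 0) (nat_lit 0) (nat_lit 0) (nat_lit 0x7dea641bd4) (nat_lit 1023139728),
  Rx.mk (nat_lit 169) (nat_lit 1) (nat_lit 5) (nat_lit 2) (nat_lit 7) (nat_lit 328) (nat_lit 196) r9_328 r7_196 (nat_lit 0) (nat_lit 0) (nat_lit 0) (nat_lit 0x7de444fdcc) (nat_lit 1034877168)]
noncomputable def e26_41 : List Rx := [
  Rx.mk (nat_lit 136) (nat_lit 0) (nat_lit 1) (nat_lit 2) (nat_lit 6) (nat_lit 314) (nat_lit 217) r9_314 r1_217 (nat_lit 0) (nat_lit 0) (nat_lit 0) (nat_lit 0x7c9f940a20) (nat_lit 1657438848),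
  Rx.mk (nat_lit 138) (nat_lit 2) (nat_lit 1) (nat_lit 2) (nat_lit 7) (nat_lit 315) (nat_lit 219) r9_315 r1_219 (nat_lit 0) (nat_lit 0) (nat_lit 0) (nat_lit 0x7e4c769a4a) (nat_lit 835096392),
  Rx.mk (nat_lit 139) (nat_lit 3) (nat_lit 1) (nat_lit 2) (nat_lit 7) (nat_lit 316) (nat_lit 218) r9_316 r1_218 (nat_lit 0) (nat_lit 0) (nat_lit 0) (nat_lit 0x7de940ce0a) (nat_lit 1025321544)]
noncomputable def e26_42 : List Rx := [
  Rx.mk (nat_lit 128) (nat_lit 0) (nat_lit 0) (nat_lit 2) (nat_lit 4) (nat_lit 292) (nat_lit 230) r9_292 r2_230 (nat_lit 0) (nat_lit 0) (nat_lit 0) (nat_lit 0x716992d56a) (nat_lit 7160374728),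
  Rx.mk (nat_lit 130) (nat_lit 2) (nat_lit 0) (nat_lit 2) (nat_lit 5) (nat_lit 293) (nat_lit 235) r9_293 r2_235 (nat_lit 0) (nat_lit 0) (nat_lit 0) (nat_lit 0x7d6c413e80) (nat_lit 1264992768),
  Rx.mk (nat_lit 131) (nat_lit 3) (nat_lit 0) (nat_lit 2) (nat_lit 5) (nat_lit 294) (nat_lit 232) r9_294 r2_232 (nat_lit 0) (nat_lit 0) (nat_lit 0) (nat_lit 0x7d8494d92e) (nat_lit 1218349080),
  Rx.mk (nat_lit 136) (nat_lit 0) (nat_lit 1) (nat_lit 2) (nat_lit 6) (nat_lit 295) (nat_lit 231) r9_295 r2_231 (nat_lit 0) (nat_lit 0) (nat_lit 0) (nat_lit 0x7c4aec14f4) (nat_lit 1819758096),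
  Rx.mk (nat_lit 138) (nat_lit 2) (nat_lit 1) (nat_lit 2) (nat_lit 7) (nat_lit 296) (nat_lit 236) r9_296 r2_236 (nat_lit 0) (nat_lit 0) (nat_lit 0) (nat_lit 0x7dce829a08) (nat_lit 1076598432),
  Rx.mk (nat_lit 139) (nat_lit 3) (nat_lit 1) (nat_lit 2) (nat_lit 7) (nat_lit 297) (nat_lit 233) r9_297 r2_233 (nat_lit 0) (nat_lit 0) (nat_lit 0) (nat_lit 0x7de22aff6e) (nat_lit 1038906648),
  Rx.mk (nat_lit 155) (nat_lit 3) (nat_lit 3) (nat_lit 2) (nat_lit 7) (nat_lit 298) (nat_lit 234) r9_298 r2_234 (nat_lit 0) (nat_lit 0) (nat_lit 0) (nat_lit 0x7ddafc725e) (nat_lit 1052677080)]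
noncomputable def e26_43 : List Rx := [
  Rx.mk (nat_lit 136) (nat_lit 0) (nat_lit 1) (nat_lit 2) (nat_lit 6) (nat_lit 317) (nat_lit 355) r9_317 r7_355 (nat_lit 0) (nat_lit 0) (nat_lit 0) (nat_lit 0x7d5b2fafaa) (nat_lit 1297720008),
  Rx.mk (nat_lit 137) (nat_lit 1) (nat_lit 1) (nat_lit 2) (nat_lit 7) (nat_lit 318) (nat_lit 356) r9_318 r7_356 (nat_lit 0) (nat_lit 0) (nat_lit 0) (nat_lit 0x7db8a35812) (nat_lit 1118535912),
  Rx.mk (nat_lit 138) (nat_lit 2) (nat_lit 1) (nat_lit 2) (nat_lit 7) (nat_lit 319) (nat_lit 357) r9_319 r7_357 (nat_lit 0) (nat_lit 0) (nat_lit 0) (nat_lit 0x7ded4a0d72) (nat_lit 1017582696)]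
noncomputable def e26_44 : List Rx := [
  Rx.mk (nat_lit 128) (nat_lit 0) (nat_lit 0) (nat_lit 2) (nat_lit 4) (nat_lit 299) (nat_lit 209) r9_299 r8_209 (nat_lit 0) (nat_lit 0) (nat_lit 0) (nat_lit 0x6a74ad2aba) (nat_lit 10575059976),
  Rx.mk (nat_lit 130) (nat_lit 2) (nat_lit 0) (nat_lit 2) (nat_lit 5) (nat_lit 300) (nat_lit 212) r9_300 r8_212 (nat_lit 0) (nat_lit 0) (nat_lit 0) (nat_lit 0x7dd319309a) (nat_lit 1067800968),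
  Rx.mk (nat_lit 136) (nat_lit 0) (nat_lit 1) (nat_lit 2) (nat_lit 6) (nat_lit 301) (nat_lit 210) r9_301 r8_210 (nat_lit 0) (nat_lit 0) (nat_lit 0) (nat_lit 0x7df31b305a) (nat_lit 1006429320),
  Rx.mk (nat_lit 137) (nat_lit 1) (nat_lit 1) (nat_lit 2) (nat_lit 7) (nat_lit 302) (nat_lit 211) r9_302 r8_211 (nat_lit 0) (nat_lit 0) (nat_lit 0) (nat_lit 0x7df6743ac6) (nat_lit 1000010232),
  Rx.mk (nat_lit 138) (nat_lit 2) (nat_lit 1) (nat_lit 2) (nat_lit 7) (nat_lit 303) (nat_lit 213) r9_303 r8_213 (nat_lit 0) (nat_lit 0) (nat_lit 0) (nat_lit 0x7de391c900) (nat_lit 1036219392)]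
noncomputable def e26_45 : List Rx := [
  Rx.mk (nat_lit 128) (nat_lit 0) (nat_lit 0) (nat_lit 2) (nat_lit 4) (nat_lit 304) (nat_lit 136) r9_304 r8_136 (nat_lit 0) (nat_lit 0) (nat_lit 0) (nat_lit 0x71a1bf9266) (nat_lit 7052665464),
  Rx.mk (nat_lit 130) (nat_lit 2) (nat_lit 0) (nat_lit 2) (nat_lit 5) (nat_lit 305) (nat_lit 141) r9_305 r8_141 (nat_lit 0) (nat_lit 0) (nat_lit 0) (nat_lit 0x7db930af3c) (nat_lit 1117477296),
  Rx.mk (nat_lit 131) (nat_lit 3) (nat_lit 0) (nat_lit 2) (nat_lit 5) (nat_lit 307) (nat_lit 138) r9_307 r8_138 (nat_lit 0) (nat_lit 0) (nat_lit 0) (nat_lit 0x7ddb1ef036) (nat_lit 1052418744),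
  Rx.mk (nat_lit 136) (nat_lit 0) (nat_lit 1) (nat_lit 2) (nat_lit 6) (nat_lit 308) (nat_lit 137) r9_308 r8_137 (nat_lit 0) (nat_lit 0) (nat_lit 0) (nat_lit 0x7ce5b0c80e) (nat_lit 1523005848),
  Rx.mk (nat_lit 138) (nat_lit 2) (nat_lit 1) (nat_lit 2) (nat_lit 7) (nat_lit 309) (nat_lit 142) r9_309 r8_142 (nat_lit 0) (nat_lit 0) (nat_lit 0) (nat_lit 0x7dda391e94) (nat_lit 1054140048),
  Rx.mk (nat_lit 139) (nat_lit 3) (nat_lit 1) (nat_lit 2) (nat_lit 7) (nat_lit 311) (nat_lit 139) r9_311 r8_139 (nat_lit 0) (nat_lit 0) (nat_lit 0) (nat_lit 0x7debf422d2) (nat_lit 1020143592),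
  Rx.mk (nat_lit 155) (nat_lit 3) (nat_lit 3) (nat_lit 2) (nat_lit 7) (nat_lit 313) (nat_lit 140) r9_313 r8_140 (nat_lit 0) (nat_lit 0) (nat_lit 0) (nat_lit 0x7decfd923a) (nat_lit 1018155528),
  Rx.mk (nat_lit 386) (nat_lit 2) (nat_lit 0) (nat_lit 6) (nat_lit 5) (nat_lit 306) (nat_lit 143) r9_306 r8_143 (nat_lit 0) (nat_lit 0) (nat_lit 0) (nat_lit 0x7dc6281fb8) (nat_lit 1092615264),
  Rx.mk (nat_lit 394) (nat_lit 2) (nat_lit 1) (nat_lit 6) (nat_lit 7) (nat_lit 310) (nat_lit 144) r9_310 r8_144 (nat_lit 0) (nat_lit 0) (nat_lit 0) (nat_lit 0x7de07d5a4a) (nat_lit 1042124616),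
  Rx.mk (nat_lit 402) (nat_lit 2) (nat_lit 2) (nat_lit 6) (nat_lit 7) (nat_lit 312) (nat_lit 145) r9_312 r8_145 (nat_lit 0) (nat_lit 0) (nat_lit 0) (nat_lit 0x7de96beb58) (nat_lit 1024998624)]
noncomputable def e26_46 : List Rx := [
  Rx.mk (nat_lit 40) (nat_lit 0) (nat_lit 5) (nat_lit 0) (nat_lit 2) (nat_lit 351) (nat_lit 181) r9_351 r4_181 (nat_lit 0) (nat_lit 0) (nat_lit 0) (nat_lit 0x6d142270c6) (nat_lit 9287608824),
  Rx.mk (nat_lit 43) (nat_lit 3) (nat_lit 5) (nat_lit 0) (nat_lit 3) (nat_lit 354) (nat_lit 184) r9_354 r4_184 (nat_lit 0) (nat_lit 0) (nat_lit 0) (nat_lit 0x7db5be2668) (nat_lit 1124087328),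
  Rx.mk (nat_lit 104) (nat_lit 0) (nat_lit 5) (nat_lit 1) (nat_lit 6) (nat_lit 352) (nat_lit 182) r9_352 r4_182 (nat_lit 0) (nat_lit 0) (nat_lit 0) (nat_lit 0x7d99734b32) (nat_lit 1178335080),
  Rx.mk (nat_lit 107) (nat_lit 3) (nat_lit 5) (nat_lit 1) (nat_lit 7) (nat_lit 355) (nat_lit 185) r9_355 r4_185 (nat_lit 0) (nat_lit 0) (nat_lit 0) (nat_lit 0x7e4eb4f662) (nat_lit 830794536),
  Rx.mk (nat_lit 139) (nat_lit 3) (nat_lit 1) (nat_lit 2) (nat_lit 7) (nat_lit 350) (nat_lit 187) r9_350 r4_187 (nat_lit 0) (nat_lit 0) (nat_lit 0) (nat_lit 0x7de10331ec) (nat_lit 1041122160),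
  Rx.mk (nat_lit 168) (nat_lit 0) (nat_lit 5) (nat_lit 2) (nat_lit 6) (nat_lit 353) (nat_lit 183) r9_353 r4_183 (nat_lit 0) (nat_lit 0) (nat_lit 0) (nat_lit 0x7cf5efa410) (nat_lit 1491856704),
  Rx.mk (nat_lit 171) (nat_lit 3) (nat_lit 5) (nat_lit 2) (nat_lit 7) (nat_lit 356) (nat_lit 186) r9_356 r4_186 (nat_lit 0) (nat_lit 0) (nat_lit 0) (nat_lit 0x7e49616ba0) (nat_lit 841007232)]
noncomputable def e26_47 : List Rx := [
  Rx.mk (nat_lit 40) (nat_lit 0) (nat_lit 5) (nat_lit 0) (nat_lit 2) (nat_lit 339) (nat_lit 355) r9_339 r4_355 (nat_lit 0) (nat_lit 0) (nat_lit 0) (nat_lit 0x79366ebfde) (nat_lit 3331604952),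
  Rx.mk (nat_lit 41) (nat_lit 1) (nat_lit 5) (nat_lit 0) (nat_lit 3) (nat_lit 342) (nat_lit 356) r9_342 r4_356 (nat_lit 0) (nat_lit 0) (nat_lit 0) (nat_lit 0x7dac309f4a) (nat_lit 1142403912),
  Rx.mk (nat_lit 43) (nat_lit 3) (nat_lit 5) (nat_lit 0) (nat_lit 3) (nat_lit 345) (nat_lit 357) r9_345 r4_357 (nat_lit 0) (nat_lit 0) (nat_lit 0) (nat_lit 0x7dca67bbba) (nat_lit 1084469256),
  Rx.mk (nat_lit 104) (nat_lit 0) (nat_lit 5) (nat_lit 1) (nat_lit 6) (nat_lit 340) (nat_lit 358) r9_340 r4_358 (nat_lit 0) (nat_lit 0) (nat_lit 0) (nat_lit 0x7ddad0951c) (nat_lit 1053005616),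
  Rx.mk (nat_lit 105) (nat_lit 1) (nat_lit 5) (nat_lit 1) (nat_lit 7) (nat_lit 343) (nat_lit 359) r9_343 r4_359 (nat_lit 0) (nat_lit 0) (nat_lit 0) (nat_lit 0x7de7bc6652) (nat_lit 1028230632),
  Rx.mk (nat_lit 107) (nat_lit 3) (nat_lit 5) (nat_lit 1) (nat_lit 7) (nat_lit 346) (nat_lit 360) r9_346 r4_360 (nat_lit 0) (nat_lit 0) (nat_lit 0) (nat_lit 0x7dd0b316fe) (nat_lit 1072400472),
  Rx.mk (nat_lit 168) (nat_lit 0) (nat_lit 5) (nat_lit 2) (nat_lit 6) (nat_lit 341) (nat_lit 361) r9_341 r4_361 (nat_lit 0) (nat_lit 0) (nat_lit 0) (nat_lit 0x7dbf61cc24) (nat_lit 1105605072),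
  Rx.mk (nat_lit 169) (nat_lit 1) (nat_lit 5) (nat_lit 2) (nat_lit 7) (nat_lit 344) (nat_lit 362) r9_344 r4_362 (nat_lit 0) (nat_lit 0) (nat_lit 0) (nat_lit 0x7de1a88796) (nat_lit 1039883832)]
noncomputable def e26_48 : List Rx := [
  Rx.mk (nat_lit 40) (nat_lit 0) (nat_lit 5) (nat_lit 0) (nat_lit 2) (nat_lit 357) (nat_lit 198) r9_357 r9_198 (nat_lit 0) (nat_lit 0) (nat_lit 0) (nat_lit 0x72a5eb2ea8) (nat_lit 6553815840),
  Rx.mk (nat_lit 41) (nat_lit 1) (nat_lit 5) (nat_lit 0) (nat_lit 3) (nat_lit 360) (nat_lit 201) r9_360 r9_201 (nat_lit 0) (nat_lit 0) (nat_lit 0) (nat_lit 0x7d882f7f80) (nat_lit 1211438592),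
  Rx.mk (nat_lit 43) (nat_lit 3) (nat_lit 5) (nat_lit 0) (nat_lit 3) (nat_lit 363) (nat_lit 204) r9_363 r9_204 (nat_lit 0) (nat_lit 0) (nat_lit 0) (nat_lit 0x7dac8919c2) (nat_lit 1141741224),
  Rx.mk (nat_lit 104) (nat_lit 0) (nat_lit 5) (nat_lit 1) (nat_lit 6) (nat_lit 358) (nat_lit 199) r9_358 r9_199 (nat_lit 0) (nat_lit 0) (nat_lit 0) (nat_lit 0x7d882f7f80) (nat_lit 1211438592),
  Rx.mk (nat_lit 105) (nat_lit 1) (nat_lit 5) (nat_lit 1) (nat_lit 7) (nat_lit 361) (nat_lit 202) r9_361 r9_202 (nat_lit 0) (nat_lit 0) (nat_lit 0) (nat_lit 0x7de9472da4) (nat_lit 1025273808),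
  Rx.mk (nat_lit 107) (nat_lit 3) (nat_lit 5) (nat_lit 1) (nat_lit 7) (nat_lit 364) (nat_lit 205) r9_364 r9_205 (nat_lit 0) (nat_lit 0) (nat_lit 0) (nat_lit 0x7dd1b386f6) (nat_lit 1070479800),
  Rx.mk (nat_lit 168) (nat_lit 0) (nat_lit 5) (nat_lit 2) (nat_lit 6) (nat_lit 359) (nat_lit 200) r9_359 r9_200 (nat_lit 0) (nat_lit 0) (nat_lit 0) (nat_lit 0x7dac8919c2) (nat_lit 1141741224),
  Rx.mk (nat_lit 169) (nat_lit 1) (nat_lit 5) (nat_lit 2) (nat_lit 7) (nat_lit 362) (nat_lit 203) r9_362 r9_203 (nat_lit 0) (nat_lit 0) (nat_lit 0) (nat_lit 0x7dd1b386f6) (nat_lit 1070479800)]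
noncomputable def e26_49 : List Rx := [
  Rx.mk (nat_lit 40) (nat_lit 0) (nat_lit 5) (nat_lit 0) (nat_lit 2) (nat_lit 374) (nat_lit 230) r9_374 r10_230 (nat_lit 0) (nat_lit 0) (nat_lit 0) (nat_lit 0x7db50971b4) (nat_lit 1125440784),
  Rx.mk (nat_lit 41) (nat_lit 1) (nat_lit 5) (nat_lit 0) (nat_lit 3) (nat_lit 376) (nat_lit 232) r9_376 r10_232 (nat_lit 0) (nat_lit 0) (nat_lit 0) (nat_lit 0x7defa427ce) (nat_lit 1013073048),
  Rx.mk (nat_lit 43) (nat_lit 3) (nat_lit 5) (nat_lit 0) (nat_lit 3) (nat_lit 378) (nat_lit 234) r9_378 r10_234 (nat_lit 0) (nat_lit 0) (nat_lit 0) (nat_lit 0x7de652fcea) (nat_lit 1030937544),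
  Rx.mk (nat_lit 168) (nat_lit 0) (nat_lit 5) (nat_lit 2) (nat_lit 6) (nat_lit 375) (nat_lit 231) r9_375 r10_231 (nat_lit 0) (nat_lit 0) (nat_lit 0) (nat_lit 0x7def382e8e) (nat_lit 1013881752),
  Rx.mk (nat_lit 169) (nat_lit 1) (nat_lit 5) (nat_lit 2) (nat_lit 7) (nat_lit 377) (nat_lit 233) r9_377 r10_233 (nat_lit 0) (nat_lit 0) (nat_lit 0) (nat_lit 0x7df680f9fa) (nat_lit 999914760),
  Rx.mk (nat_lit 235) (nat_lit 3) (nat_lit 5) (nat_lit 3) (nat_lit 7) (nat_lit 379) (nat_lit 235) r9_379 r10_235 (nat_lit 0) (nat_lit 0) (nat_lit 0) (nat_lit 0x7deffe8228) (nat_lit 1012396320)]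
noncomputable def e26_50 : List Rx := [
  Rx.mk (nat_lit 43) (nat_lit 3) (nat_lit 5) (nat_lit 0) (nat_lit 3) (nat_lit 366) (nat_lit 361) r9_366 r10_361 (nat_lit 0) (nat_lit 0) (nat_lit 0) (nat_lit 0x7dee57fc92) (nat_lit 1015560936),
  Rx.mk (nat_lit 107) (nat_lit 3) (nat_lit 5) (nat_lit 1) (nat_lit 7) (nat_lit 367) (nat_lit 362) r9_367 r10_362 (nat_lit 0) (nat_lit 0) (nat_lit 0) (nat_lit 0x7dded7f4a2) (nat_lit 1045280808),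
  Rx.mk (nat_lit 139) (nat_lit 3) (nat_lit 1) (nat_lit 2) (nat_lit 7) (nat_lit 365) (nat_lit 360) r9_365 r10_360 (nat_lit 0) (nat_lit 0) (nat_lit 0) (nat_lit 0x7de3898984) (nat_lit 1036281168),
  Rx.mk (nat_lit 171) (nat_lit 3) (nat_lit 5) (nat_lit 2) (nat_lit 7) (nat_lit 368) (nat_lit 363) r9_368 r10_363 (nat_lit 0) (nat_lit 0) (nat_lit 0) (nat_lit 0x7de67cfa4a) (nat_lit 1030623048)]
noncomputable def e26_51 : List Rx := [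
  Rx.mk (nat_lit 100) (nat_lit 4) (nat_lit 4) (nat_lit 1) (nat_lit 4) (nat_lit 72) (nat_lit 197) r9_72 r12_197 (nat_lit 0) (nat_lit 0) (nat_lit 0) (nat_lit 0x6f5f417c8a) (nat_lit 8161864776),
  Rx.mk (nat_lit 103) (nat_lit 7) (nat_lit 4) (nat_lit 1) (nat_lit 5) (nat_lit 73) (nat_lit 199) r9_73 r12_199 (nat_lit 0) (nat_lit 0) (nat_lit 0) (nat_lit 0x7e5a08811e) (nat_lit 809077464),
  Rx.mk (nat_lit 116) (nat_lit 4) (nat_lit 6) (nat_lit 1) (nat_lit 6) (nat_lit 74) (nat_lit 198) r9_74 r12_198 (nat_lit 0) (nat_lit 0) (nat_lit 0) (nat_lit 0x7d55b82728) (nat_lit 1308202272),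
  Rx.mk (nat_lit 119) (nat_lit 7) (nat_lit 6) (nat_lit 1) (nat_lit 7) (nat_lit 75) (nat_lit 201) r9_75 r12_201 (nat_lit 0) (nat_lit 0) (nat_lit 0) (nat_lit 0x7e4050bcb4) (nat_lit 858388752),
  Rx.mk (nat_lit 127) (nat_lit 7) (nat_lit 7) (nat_lit 1) (nat_lit 7) (nat_lit 76) (nat_lit 200) r9_76 r12_200 (nat_lit 0) (nat_lit 0) (nat_lit 0) (nat_lit 0x7dd2da9484) (nat_lit 1068269904)]
noncomputable def e26_52 : List Rx := [
  Rx.mk (nat_lit 59) (nat_lit 3) (nat_lit 7) (nat_lit 0) (nat_lit 3) (nat_lit 34) (nat_lit 137) r9_34 r12_137 (nat_lit 0) (nat_lit 0) (nat_lit 0) (nat_lit 0x7e68347e50) (nat_lit 781904448),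
  Rx.mk (nat_lit 63) (nat_lit 7) (nat_lit 7) (nat_lit 0) (nat_lit 3) (nat_lit 36) (nat_lit 135) r9_36 r12_135 (nat_lit 0) (nat_lit 0) (nat_lit 0) (nat_lit 0x7da88f3964) (nat_lit 1149364944),
  Rx.mk (nat_lit 187) (nat_lit 3) (nat_lit 7) (nat_lit 2) (nat_lit 7) (nat_lit 35) (nat_lit 138) r9_35 r12_138 (nat_lit 0) (nat_lit 0) (nat_lit 0) (nat_lit 0x7e84fe7194) (nat_lit 726704784),
  Rx.mk (nat_lit 231) (nat_lit 7) (nat_lit 4) (nat_lit 3) (nat_lit 5) (nat_lit 32) (nat_lit 134) r9_32 r12_134 (nat_lit 0) (nat_lit 0) (nat_lit 0) (nat_lit 0x7e7d860922) (nat_lit 741028392),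
  Rx.mk (nat_lit 247) (nat_lit 7) (nat_lit 6) (nat_lit 3) (nat_lit 7) (nat_lit 33) (nat_lit 139) r9_33 r12_139 (nat_lit 0) (nat_lit 0) (nat_lit 0) (nat_lit 0x7e0d9168dc) (nat_lit 955691568),
  Rx.mk (nat_lit 255) (nat_lit 7) (nat_lit 7) (nat_lit 3) (nat_lit 7) (nat_lit 37) (nat_lit 136) r9_37 r12_136 (nat_lit 0) (nat_lit 0) (nat_lit 0) (nat_lit 0x7db3658bf4) (nat_lit 1128585744)]
noncomputable def e26_53 : List Rx := [
  Rx.mk (nat_lit 103) (nat_lit 7) (nat_lit 4) (nat_lit 1) (nat_lit 5) (nat_lit 237) (nat_lit 306) r9_237 r12_306 (nat_lit 0) (nat_lit 0) (nat_lit 0) (nat_lit 0x7db5ac2788) (nat_lit 1124222112),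
  Rx.mk (nat_lit 111) (nat_lit 7) (nat_lit 5) (nat_lit 1) (nat_lit 7) (nat_lit 238) (nat_lit 307) r9_238 r12_307 (nat_lit 0) (nat_lit 0) (nat_lit 0) (nat_lit 0x7e63f48254) (nat_lit 790053264),
  Rx.mk (nat_lit 119) (nat_lit 7) (nat_lit 6) (nat_lit 1) (nat_lit 7) (nat_lit 239) (nat_lit 308) r9_239 r12_308 (nat_lit 0) (nat_lit 0) (nat_lit 0) (nat_lit 0x7e796d0ab6) (nat_lit 748885176)]
noncomputable def e26_54 : List Rx := [
  Rx.mk (nat_lit 59) (nat_lit 3) (nat_lit 7) (nat_lit 0) (nat_lit 3) (nat_lit 215) (nat_lit 134) r9_215 r12_134 (nat_lit 0) (nat_lit 0) (nat_lit 0) (nat_lit 0x7e7d860922) (nat_lit 741028392),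
  Rx.mk (nat_lit 187) (nat_lit 3) (nat_lit 7) (nat_lit 2) (nat_lit 7) (nat_lit 216) (nat_lit 139) r9_216 r12_139 (nat_lit 0) (nat_lit 0) (nat_lit 0) (nat_lit 0x7e0d9168dc) (nat_lit 955691568),
  Rx.mk (nat_lit 227) (nat_lit 3) (nat_lit 4) (nat_lit 3) (nat_lit 5) (nat_lit 212) (nat_lit 135) r9_212 r12_135 (nat_lit 0) (nat_lit 0) (nat_lit 0) (nat_lit 0x7da88f3964) (nat_lit 1149364944),
  Rx.mk (nat_lit 231) (nat_lit 7) (nat_lit 4) (nat_lit 3) (nat_lit 5) (nat_lit 213) (nat_lit 137) r9_213 r12_137 (nat_lit 0) (nat_lit 0) (nat_lit 0) (nat_lit 0x7e68347e50) (nat_lit 781904448),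
  Rx.mk (nat_lit 247) (nat_lit 7) (nat_lit 6) (nat_lit 3) (nat_lit 7) (nat_lit 214) (nat_lit 138) r9_214 r12_138 (nat_lit 0) (nat_lit 0) (nat_lit 0) (nat_lit 0x7e84fe7194) (nat_lit 726704784),
  Rx.mk (nat_lit 251) (nat_lit 3) (nat_lit 7) (nat_lit 3) (nat_lit 7) (nat_lit 217) (nat_lit 136) r9_217 r12_136 (nat_lit 0) (nat_lit 0) (nat_lit 0) (nat_lit 0x7db3658bf4) (nat_lit 1128585744)]
noncomputable def e26_55 : List Rx := [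
  Rx.mk (nat_lit 40) (nat_lit 0) (nat_lit 5) (nat_lit 0) (nat_lit 2) (nat_lit 333) (nat_lit 177) r9_333 r3_177 (nat_lit 0) (nat_lit 0) (nat_lit 0) (nat_lit 0x7143ff0ecc) (nat_lit 7232425200),
  Rx.mk (nat_lit 43) (nat_lit 3) (nat_lit 5) (nat_lit 0) (nat_lit 3) (nat_lit 336) (nat_lit 180) r9_336 r3_180 (nat_lit 0) (nat_lit 0) (nat_lit 0) (nat_lit 0x7f9d302d60) (nat_lit 189461376),
  Rx.mk (nat_lit 104) (nat_lit 0) (nat_lit 5) (nat_lit 1) (nat_lit 6) (nat_lit 334) (nat_lit 178) r9_334 r3_178 (nat_lit 0) (nat_lit 0) (nat_lit 0) (nat_lit 0x7b2d0a942a) (nat_lit 2367904968),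
  Rx.mk (nat_lit 107) (nat_lit 3) (nat_lit 5) (nat_lit 1) (nat_lit 7) (nat_lit 337) (nat_lit 181) r9_337 r3_181 (nat_lit 0) (nat_lit 0) (nat_lit 0) (nat_lit 0x7f23fc011c) (nat_lit 421857072),
  Rx.mk (nat_lit 168) (nat_lit 0) (nat_lit 5) (nat_lit 2) (nat_lit 6) (nat_lit 335) (nat_lit 179) r9_335 r3_179 (nat_lit 0) (nat_lit 0) (nat_lit 0) (nat_lit 0x7b7cf61522) (nat_lit 2214666792),
  Rx.mk (nat_lit 171) (nat_lit 3) (nat_lit 5) (nat_lit 2) (nat_lit 7) (nat_lit 338) (nat_lit 182) r9_338 r3_182 (nat_lit 0) (nat_lit 0) (nat_lit 0) (nat_lit 0x7eeb84a8ca) (nat_lit 530125128)]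
noncomputable def e26_56 : List Rx := [
  Rx.mk (nat_lit 40) (nat_lit 0) (nat_lit 5) (nat_lit 0) (nat_lit 2) (nat_lit 369) (nat_lit 197) r9_369 r12_197 (nat_lit 0) (nat_lit 0) (nat_lit 0) (nat_lit 0x6f5f417c8a) (nat_lit 8161864776),
  Rx.mk (nat_lit 43) (nat_lit 3) (nat_lit 5) (nat_lit 0) (nat_lit 3) (nat_lit 371) (nat_lit 199) r9_371 r12_199 (nat_lit 0) (nat_lit 0) (nat_lit 0) (nat_lit 0x7e5a08811e) (nat_lit 809077464),
  Rx.mk (nat_lit 168) (nat_lit 0) (nat_lit 5) (nat_lit 2) (nat_lit 6) (nat_lit 370) (nat_lit 198) r9_370 r12_198 (nat_lit 0) (nat_lit 0) (nat_lit 0) (nat_lit 0x7d55b82728) (nat_lit 1308202272),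
  Rx.mk (nat_lit 171) (nat_lit 3) (nat_lit 5) (nat_lit 2) (nat_lit 7) (nat_lit 372) (nat_lit 201) r9_372 r12_201 (nat_lit 0) (nat_lit 0) (nat_lit 0) (nat_lit 0x7e4050bcb4) (nat_lit 858388752),
  Rx.mk (nat_lit 235) (nat_lit 3) (nat_lit 5) (nat_lit 3) (nat_lit 7) (nat_lit 373) (nat_lit 200) r9_373 r12_200 (nat_lit 0) (nat_lit 0) (nat_lit 0) (nat_lit 0x7dd2da9484) (nat_lit 1068269904)]
noncomputable def e26_57 : List Rx := [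
  Rx.mk (nat_lit 43) (nat_lit 3) (nat_lit 5) (nat_lit 0) (nat_lit 3) (nat_lit 347) (nat_lit 306) r9_347 r12_306 (nat_lit 0) (nat_lit 0) (nat_lit 0) (nat_lit 0x7db5ac2788) (nat_lit 1124222112),
  Rx.mk (nat_lit 107) (nat_lit 3) (nat_lit 5) (nat_lit 1) (nat_lit 7) (nat_lit 348) (nat_lit 307) r9_348 r12_307 (nat_lit 0) (nat_lit 0) (nat_lit 0) (nat_lit 0x7e63f48254) (nat_lit 790053264),
  Rx.mk (nat_lit 171) (nat_lit 3) (nat_lit 5) (nat_lit 2) (nat_lit 7) (nat_lit 349) (nat_lit 308) r9_349 r12_308 (nat_lit 0) (nat_lit 0) (nat_lit 0) (nat_lit 0x7e796d0ab6) (nat_lit 748885176)]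
noncomputable def e26 : List (List Rx) := [e26_0, e26_1, e26_2, e26_3, e26_4, e26_5, e26_6, e26_7, e26_8, e26_9, e26_10, e26_11, e26_12, e26_13, e26_14, e26_15, e26_16, e26_17, e26_18, e26_19, e26_20, e26_21, e26_22, e26_23, e26_24, e26_25, e26_26, e26_27, e26_28, e26_29, e26_30, e26_31, e26_32, e26_33, e26_34, e26_35, e26_36, e26_37, e26_38, e26_39, e26_40, e26_41, e26_42, e26_43, e26_44, e26_45, e26_46, e26_47, e26_48, e26_49, e26_50, e26_51, e26_52, e26_53, e26_54, e26_55, e26_56, e26_57]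
noncomputable def e27_0 : List Rx := [
  Rx.mk (nat_lit 100) (nat_lit 4) (nat_lit 4) (nat_lit 1) (nat_lit 4) (nat_lit 37) (nat_lit 200) r10_37 r0_200 (nat_lit 0) (nat_lit 0) (nat_lit 0) (nat_lit 0x76da66a2bc) (nat_lit 4489772976),
  Rx.mk (nat_lit 108) (nat_lit 4) (nat_lit 5) (nat_lit 1) (nat_lit 6) (nat_lit 38) (nat_lit 201) r10_38 r0_201 (nat_lit 0) (nat_lit 0) (nat_lit 0) (nat_lit 0x7e09e4c3aa) (nat_lit 962736840),
  Rx.mk (nat_lit 116) (nat_lit 4) (nat_lit 6) (nat_lit 1) (nat_lit 6) (nat_lit 39) (nat_lit 202) r10_39 r0_202 (nat_lit 0) (nat_lit 0) (nat_lit 0) (nat_lit 0x7e49f042b2) (nat_lit 839937384),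
  Rx.mk (nat_lit 118) (nat_lit 6) (nat_lit 6) (nat_lit 1) (nat_lit 7) (nat_lit 40) (nat_lit 203) r10_40 r0_203 (nat_lit 0) (nat_lit 0) (nat_lit 0) (nat_lit 0x7e9eee1280) (nat_lit 676975104)]
noncomputable def e27_1 : List Rx := [
  Rx.mk (nat_lit 100) (nat_lit 4) (nat_lit 4) (nat_lit 1) (nat_lit 4) (nat_lit 41) (nat_lit 220) r10_41 r1_220 (nat_lit 0) (nat_lit 0) (nat_lit 0) (nat_lit 0x6745aa3e18) (nat_lit 12137759712),
  Rx.mk (nat_lit 108) (nat_lit 4) (nat_lit 5) (nat_lit 1) (nat_lit 6) (nat_lit 42) (nat_lit 221) r10_42 r1_221 (nat_lit 0) (nat_lit 0) (nat_lit 0) (nat_lit 0x7dd2d19514) (nat_lit 1068337296),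
  Rx.mk (nat_lit 116) (nat_lit 4) (nat_lit 6) (nat_lit 1) (nat_lit 6) (nat_lit 43) (nat_lit 222) r10_43 r1_222 (nat_lit 0) (nat_lit 0) (nat_lit 0) (nat_lit 0x7dc1f662d8) (nat_lit 1100657376),
  Rx.mk (nat_lit 118) (nat_lit 6) (nat_lit 6) (nat_lit 1) (nat_lit 7) (nat_lit 44) (nat_lit 223) r10_44 r1_223 (nat_lit 0) (nat_lit 0) (nat_lit 0) (nat_lit 0x7e5b3e8dbc) (nat_lit 806755248),
  Rx.mk (nat_lit 374) (nat_lit 6) (nat_lit 6) (nat_lit 5) (nat_lit 7) (nat_lit 45) (nat_lit 224) r10_45 r1_224 (nat_lit 0) (nat_lit 0) (nat_lit 0) (nat_lit 0x7de11ef030) (nat_lit 1040914368)]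
noncomputable def e27_2 : List Rx := [
  Rx.mk (nat_lit 374) (nat_lit 6) (nat_lit 6) (nat_lit 5) (nat_lit 7) (nat_lit 5) (nat_lit 237) r10_5 r2_237 (nat_lit 0) (nat_lit 0) (nat_lit 0) (nat_lit 0x7dd3702b2a) (nat_lit 1067149512)]
noncomputable def e27_3 : List Rx := [
  Rx.mk (nat_lit 36) (nat_lit 4) (nat_lit 4) (nat_lit 0) (nat_lit 0) (nat_lit 19) (nat_lit 183) r10_19 r3_183 (nat_lit 0) (nat_lit 0) (nat_lit 0) (nat_lit 0x611f400ae2) (nat_lit 15156536616),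
  Rx.mk (nat_lit 39) (nat_lit 7) (nat_lit 4) (nat_lit 0) (nat_lit 1) (nat_lit 22) (nat_lit 191) r10_22 r3_191 (nat_lit 0) (nat_lit 0) (nat_lit 0) (nat_lit 0x7199b2b33c) (nat_lit 7068101040),
  Rx.mk (nat_lit 44) (nat_lit 4) (nat_lit 5) (nat_lit 0) (nat_lit 2) (nat_lit 25) (nat_lit 186) r10_25 r3_186 (nat_lit 0) (nat_lit 0) (nat_lit 0) (nat_lit 0x6c0e76ec84) (nat_lit 9789333840),
  Rx.mk (nat_lit 47) (nat_lit 7) (nat_lit 5) (nat_lit 0) (nat_lit 3) (nat_lit 28) (nat_lit 194) r10_28 r3_194 (nat_lit 0) (nat_lit 0) (nat_lit 0) (nat_lit 0x7db4419e32) (nat_lit 1126937448),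
  Rx.mk (nat_lit 52) (nat_lit 4) (nat_lit 6) (nat_lit 0) (nat_lit 2) (nat_lit 31) (nat_lit 189) r10_31 r3_189 (nat_lit 0) (nat_lit 0) (nat_lit 0) (nat_lit 0x6e8b4ffc76) (nat_lit 8568244152),
  Rx.mk (nat_lit 54) (nat_lit 6) (nat_lit 6) (nat_lit 0) (nat_lit 3) (nat_lit 33) (nat_lit 199) r10_33 r3_199 (nat_lit 0) (nat_lit 0) (nat_lit 0) (nat_lit 0x7e061120e8) (nat_lit 970074144),
  Rx.mk (nat_lit 55) (nat_lit 7) (nat_lit 6) (nat_lit 0) (nat_lit 3) (nat_lit 35) (nat_lit 197) r10_35 r3_197 (nat_lit 0) (nat_lit 0) (nat_lit 0) (nat_lit 0x7ba330b152) (nat_lit 2141366760),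
  Rx.mk (nat_lit 100) (nat_lit 4) (nat_lit 4) (nat_lit 1) (nat_lit 4) (nat_lit 20) (nat_lit 184) r10_20 r3_184 (nat_lit 0) (nat_lit 0) (nat_lit 0) (nat_lit 0x6c7064ad46) (nat_lit 9601565688),
  Rx.mk (nat_lit 103) (nat_lit 7) (nat_lit 4) (nat_lit 1) (nat_lit 5) (nat_lit 23) (nat_lit 192) r10_23 r3_192 (nat_lit 0) (nat_lit 0) (nat_lit 0) (nat_lit 0x7bee1be254) (nat_lit 1997717904),
  Rx.mk (nat_lit 108) (nat_lit 4) (nat_lit 5) (nat_lit 1) (nat_lit 6) (nat_lit 26) (nat_lit 187) r10_26 r3_187 (nat_lit 0) (nat_lit 0) (nat_lit 0) (nat_lit 0x7c9d740c22) (nat_lit 1661513256),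
  Rx.mk (nat_lit 111) (nat_lit 7) (nat_lit 5) (nat_lit 1) (nat_lit 7) (nat_lit 29) (nat_lit 195) r10_29 r3_195 (nat_lit 0) (nat_lit 0) (nat_lit 0) (nat_lit 0x7e26fad22c) (nat_lit 906967152),
  Rx.mk (nat_lit 116) (nat_lit 4) (nat_lit 6) (nat_lit 1) (nat_lit 6) (nat_lit 32) (nat_lit 190) r10_32 r3_190 (nat_lit 0) (nat_lit 0) (nat_lit 0) (nat_lit 0x7822d6fa6e) (nat_lit 3860025624),
  Rx.mk (nat_lit 118) (nat_lit 6) (nat_lit 6) (nat_lit 1) (nat_lit 7) (nat_lit 34) (nat_lit 200) r10_34 r3_200 (nat_lit 0) (nat_lit 0) (nat_lit 0) (nat_lit 0x7dec2adf66) (nat_lit 1019733624),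
  Rx.mk (nat_lit 119) (nat_lit 7) (nat_lit 6) (nat_lit 1) (nat_lit 7) (nat_lit 36) (nat_lit 198) r10_36 r3_198 (nat_lit 0) (nat_lit 0) (nat_lit 0) (nat_lit 0x7e079ac84c) (nat_lit 967125744),
  Rx.mk (nat_lit 164) (nat_lit 4) (nat_lit 4) (nat_lit 2) (nat_lit 4) (nat_lit 21) (nat_lit 185) r10_21 r3_185 (nat_lit 0) (nat_lit 0) (nat_lit 0) (nat_lit 0x6df68609aa) (nat_lit 8853531336),
  Rx.mk (nat_lit 167) (nat_lit 7) (nat_lit 4) (nat_lit 2) (nat_lit 5) (nat_lit 24) (nat_lit 193) r10_24 r3_193 (nat_lit 0) (nat_lit 0) (nat_lit 0) (nat_lit 0x7846764056) (nat_lit 3791723832),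
  Rx.mk (nat_lit 172) (nat_lit 4) (nat_lit 5) (nat_lit 2) (nat_lit 6) (nat_lit 27) (nat_lit 188) r10_27 r3_188 (nat_lit 0) (nat_lit 0) (nat_lit 0) (nat_lit 0x7aec04a4ca) (nat_lit 2492580168),
  Rx.mk (nat_lit 175) (nat_lit 7) (nat_lit 5) (nat_lit 2) (nat_lit 7) (nat_lit 30) (nat_lit 196) r10_30 r3_196 (nat_lit 0) (nat_lit 0) (nat_lit 0) (nat_lit 0x7e1c68bb58) (nat_lit 927235296)]
noncomputable def e27_4 : List Rx := [
  Rx.mk (nat_lit 100) (nat_lit 4) (nat_lit 4) (nat_lit 1) (nat_lit 4) (nat_lit 46) (nat_lit 188) r10_46 r4_188 (nat_lit 0) (nat_lit 0) (nat_lit 0) (nat_lit 0x7d74889a02) (nat_lit 1249119144),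
  Rx.mk (nat_lit 103) (nat_lit 7) (nat_lit 4) (nat_lit 1) (nat_lit 5) (nat_lit 47) (nat_lit 191) r10_47 r4_191 (nat_lit 0) (nat_lit 0) (nat_lit 0) (nat_lit 0x7e25a6c76e) (nat_lit 909514008),
  Rx.mk (nat_lit 108) (nat_lit 4) (nat_lit 5) (nat_lit 1) (nat_lit 6) (nat_lit 48) (nat_lit 189) r10_48 r4_189 (nat_lit 0) (nat_lit 0) (nat_lit 0) (nat_lit 0x7de345adc2) (nat_lit 1036789416),
  Rx.mk (nat_lit 111) (nat_lit 7) (nat_lit 5) (nat_lit 1) (nat_lit 7) (nat_lit 49) (nat_lit 192) r10_49 r4_192 (nat_lit 0) (nat_lit 0) (nat_lit 0) (nat_lit 0x7df971caea) (nat_lit 994276296),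
  Rx.mk (nat_lit 116) (nat_lit 4) (nat_lit 6) (nat_lit 1) (nat_lit 6) (nat_lit 50) (nat_lit 190) r10_50 r4_190 (nat_lit 0) (nat_lit 0) (nat_lit 0) (nat_lit 0x7df171aaf4) (nat_lit 1009616400),
  Rx.mk (nat_lit 118) (nat_lit 6) (nat_lit 6) (nat_lit 1) (nat_lit 7) (nat_lit 51) (nat_lit 194) r10_51 r4_194 (nat_lit 0) (nat_lit 0) (nat_lit 0) (nat_lit 0x7e002a9f56) (nat_lit 981387576),
  Rx.mk (nat_lit 119) (nat_lit 7) (nat_lit 6) (nat_lit 1) (nat_lit 7) (nat_lit 52) (nat_lit 193) r10_52 r4_193 (nat_lit 0) (nat_lit 0) (nat_lit 0) (nat_lit 0x7df8e77390) (nat_lit 995312448)]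
noncomputable def e27_5 : List Rx := [
  Rx.mk (nat_lit 187) (nat_lit 3) (nat_lit 7) (nat_lit 2) (nat_lit 7) (nat_lit 7) (nat_lit 136) r10_7 r3_136 (nat_lit 0) (nat_lit 0) (nat_lit 0) (nat_lit 0x7fc79746c4) (nat_lit 108158544),
  Rx.mk (nat_lit 502) (nat_lit 6) (nat_lit 6) (nat_lit 7) (nat_lit 7) (nat_lit 6) (nat_lit 137) r10_6 r3_137 (nat_lit 0) (nat_lit 0) (nat_lit 0) (nat_lit 0x7f829c56b8) (nat_lit 240420960)]
noncomputable def e27_6 : List Rx := [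
  Rx.mk (nat_lit 310) (nat_lit 6) (nat_lit 6) (nat_lit 4) (nat_lit 3) (nat_lit 0) (nat_lit 152) r10_0 r0_152 (nat_lit 0) (nat_lit 0) (nat_lit 0) (nat_lit 0x7e1794a89e) (nat_lit 936493272),
  Rx.mk (nat_lit 502) (nat_lit 6) (nat_lit 6) (nat_lit 7) (nat_lit 7) (nat_lit 1) (nat_lit 153) r10_1 r0_153 (nat_lit 0) (nat_lit 0) (nat_lit 0) (nat_lit 0x7df4465da6) (nat_lit 1004188536)]
noncomputable def e27_7 : List Rx := [
  Rx.mk (nat_lit 310) (nat_lit 6) (nat_lit 6) (nat_lit 4) (nat_lit 3) (nat_lit 2) (nat_lit 166) r10_2 r1_166 (nat_lit 0) (nat_lit 0) (nat_lit 0) (nat_lit 0x7d62cfd5a0) (nat_lit 1283098752),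
  Rx.mk (nat_lit 374) (nat_lit 6) (nat_lit 6) (nat_lit 5) (nat_lit 7) (nat_lit 3) (nat_lit 167) r10_3 r1_167 (nat_lit 0) (nat_lit 0) (nat_lit 0) (nat_lit 0x7dfa55bcaa) (nat_lit 992569032),
  Rx.mk (nat_lit 502) (nat_lit 6) (nat_lit 6) (nat_lit 7) (nat_lit 7) (nat_lit 4) (nat_lit 168) r10_4 r1_168 (nat_lit 0) (nat_lit 0) (nat_lit 0) (nat_lit 0x7ddc34bed8) (nat_lit 1050338016)]
noncomputable def e27_8 : List Rx := [
  Rx.mk (nat_lit 502) (nat_lit 6) (nat_lit 6) (nat_lit 7) (nat_lit 7) (nat_lit 8) (nat_lit 143) r10_8 r4_143 (nat_lit 0) (nat_lit 0) (nat_lit 0) (nat_lit 0x7dd7d8a49e) (nat_lit 1058697432)]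
noncomputable def e27_9 : List Rx := [
  Rx.mk (nat_lit 39) (nat_lit 7) (nat_lit 4) (nat_lit 0) (nat_lit 1) (nat_lit 54) (nat_lit 227) r10_54 r5_227 (nat_lit 0) (nat_lit 0) (nat_lit 0) (nat_lit 0x75b5e9ebac) (nat_lit 5050586736),
  Rx.mk (nat_lit 47) (nat_lit 7) (nat_lit 5) (nat_lit 0) (nat_lit 3) (nat_lit 58) (nat_lit 230) r10_58 r5_230 (nat_lit 0) (nat_lit 0) (nat_lit 0) (nat_lit 0x7de6df9420) (nat_lit 1029884544),
  Rx.mk (nat_lit 55) (nat_lit 7) (nat_lit 6) (nat_lit 0) (nat_lit 3) (nat_lit 63) (nat_lit 235) r10_63 r5_235 (nat_lit 0) (nat_lit 0) (nat_lit 0) (nat_lit 0x7dd58429e8) (nat_lit 1063164960),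
  Rx.mk (nat_lit 63) (nat_lit 7) (nat_lit 7) (nat_lit 0) (nat_lit 3) (nat_lit 66) (nat_lit 233) r10_66 r5_233 (nat_lit 0) (nat_lit 0) (nat_lit 0) (nat_lit 0x7db1f38316) (nat_lit 1131357240),
  Rx.mk (nat_lit 167) (nat_lit 7) (nat_lit 4) (nat_lit 2) (nat_lit 5) (nat_lit 55) (nat_lit 229) r10_55 r5_229 (nat_lit 0) (nat_lit 0) (nat_lit 0) (nat_lit 0x7d9fc50610) (nat_lit 1166218560),
  Rx.mk (nat_lit 175) (nat_lit 7) (nat_lit 5) (nat_lit 2) (nat_lit 7) (nat_lit 59) (nat_lit 232) r10_59 r5_232 (nat_lit 0) (nat_lit 0) (nat_lit 0) (nat_lit 0x7df1199076) (nat_lit 1010276280),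
  Rx.mk (nat_lit 187) (nat_lit 3) (nat_lit 7) (nat_lit 2) (nat_lit 7) (nat_lit 65) (nat_lit 223) r10_65 r5_223 (nat_lit 0) (nat_lit 0) (nat_lit 0) (nat_lit 0x7eb9830916) (nat_lit 626007096),
  Rx.mk (nat_lit 191) (nat_lit 7) (nat_lit 7) (nat_lit 2) (nat_lit 7) (nat_lit 67) (nat_lit 234) r10_67 r5_234 (nat_lit 0) (nat_lit 0) (nat_lit 0) (nat_lit 0x7dc21520ec) (nat_lit 1100427120),
  Rx.mk (nat_lit 228) (nat_lit 4) (nat_lit 4) (nat_lit 3) (nat_lit 4) (nat_lit 53) (nat_lit 224) r10_53 r5_224 (nat_lit 0) (nat_lit 0) (nat_lit 0) (nat_lit 0x7b5c1d42d0) (nat_lit 2277647424),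
  Rx.mk (nat_lit 231) (nat_lit 7) (nat_lit 4) (nat_lit 3) (nat_lit 5) (nat_lit 56) (nat_lit 228) r10_56 r5_228 (nat_lit 0) (nat_lit 0) (nat_lit 0) (nat_lit 0x7e2b4d2d02) (nat_lit 898680744),
  Rx.mk (nat_lit 236) (nat_lit 4) (nat_lit 5) (nat_lit 3) (nat_lit 6) (nat_lit 57) (nat_lit 225) r10_57 r5_225 (nat_lit 0) (nat_lit 0) (nat_lit 0) (nat_lit 0x7d9ee59408) (nat_lit 1167892128),
  Rx.mk (nat_lit 239) (nat_lit 7) (nat_lit 5) (nat_lit 3) (nat_lit 7) (nat_lit 60) (nat_lit 231) r10_60 r5_231 (nat_lit 0) (nat_lit 0) (nat_lit 0) (nat_lit 0x7df675baae) (nat_lit 999999000),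
  Rx.mk (nat_lit 244) (nat_lit 4) (nat_lit 6) (nat_lit 3) (nat_lit 6) (nat_lit 61) (nat_lit 226) r10_61 r5_226 (nat_lit 0) (nat_lit 0) (nat_lit 0) (nat_lit 0x7df4237fd4) (nat_lit 1004449680),
  Rx.mk (nat_lit 246) (nat_lit 6) (nat_lit 6) (nat_lit 3) (nat_lit 7) (nat_lit 62) (nat_lit 237) r10_62 r5_237 (nat_lit 0) (nat_lit 0) (nat_lit 0) (nat_lit 0x7df4675b96) (nat_lit 1003941432),
  Rx.mk (nat_lit 247) (nat_lit 7) (nat_lit 6) (nat_lit 3) (nat_lit 7) (nat_lit 64) (nat_lit 236) r10_64 r5_236 (nat_lit 0) (nat_lit 0) (nat_lit 0) (nat_lit 0x7ddaeb3372) (nat_lit 1052806248)]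
noncomputable def e27_10 : List Rx := [
  Rx.mk (nat_lit 36) (nat_lit 4) (nat_lit 4) (nat_lit 0) (nat_lit 0) (nat_lit 165) (nat_lit 341) r10_165 r0_341 (nat_lit 0) (nat_lit 0) (nat_lit 0) (nat_lit 0x2d7a01d26e) (nat_lit 40506896664),
  Rx.mk (nat_lit 37) (nat_lit 5) (nat_lit 4) (nat_lit 0) (nat_lit 1) (nat_lit 168) (nat_lit 342) r10_168 r0_342 (nat_lit 0) (nat_lit 0) (nat_lit 0) (nat_lit 0x7aa5ac4a96) (nat_lit 2627459640),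
  Rx.mk (nat_lit 44) (nat_lit 4) (nat_lit 5) (nat_lit 0) (nat_lit 2) (nat_lit 171) (nat_lit 343) r10_171 r0_343 (nat_lit 0) (nat_lit 0) (nat_lit 0) (nat_lit 0x79a5a2ac30) (nat_lit 3118385088),
  Rx.mk (nat_lit 45) (nat_lit 5) (nat_lit 5) (nat_lit 0) (nat_lit 3) (nat_lit 174) (nat_lit 344) r10_174 r0_344 (nat_lit 0) (nat_lit 0) (nat_lit 0) (nat_lit 0x7df905d1aa) (nat_lit 995085000),
  Rx.mk (nat_lit 52) (nat_lit 4) (nat_lit 6) (nat_lit 0) (nat_lit 2) (nat_lit 177) (nat_lit 345) r10_177 r0_345 (nat_lit 0) (nat_lit 0) (nat_lit 0) (nat_lit 0x7b95ea25c8) (nat_lit 2166821280),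
  Rx.mk (nat_lit 53) (nat_lit 5) (nat_lit 6) (nat_lit 0) (nat_lit 3) (nat_lit 179) (nat_lit 346) r10_179 r0_346 (nat_lit 0) (nat_lit 0) (nat_lit 0) (nat_lit 0x7deff222ee) (nat_lit 1012488984),
  Rx.mk (nat_lit 54) (nat_lit 6) (nat_lit 6) (nat_lit 0) (nat_lit 3) (nat_lit 181) (nat_lit 347) r10_181 r0_347 (nat_lit 0) (nat_lit 0) (nat_lit 0) (nat_lit 0x7dc039bea4) (nat_lit 1103987664),
  Rx.mk (nat_lit 100) (nat_lit 4) (nat_lit 4) (nat_lit 1) (nat_lit 4) (nat_lit 166) (nat_lit 348) r10_166 r0_348 (nat_lit 0) (nat_lit 0) (nat_lit 0) (nat_lit 0x7a5f28731a) (nat_lit 2762664840),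
  Rx.mk (nat_lit 101) (nat_lit 5) (nat_lit 4) (nat_lit 1) (nat_lit 5) (nat_lit 169) (nat_lit 349) r10_169 r0_349 (nat_lit 0) (nat_lit 0) (nat_lit 0) (nat_lit 0x7dda7f3a32) (nat_lit 1053614952),
  Rx.mk (nat_lit 108) (nat_lit 4) (nat_lit 5) (nat_lit 1) (nat_lit 6) (nat_lit 172) (nat_lit 350) r10_172 r0_350 (nat_lit 0) (nat_lit 0) (nat_lit 0) (nat_lit 0x7dd895f8c8) (nat_lit 1057279392),
  Rx.mk (nat_lit 109) (nat_lit 5) (nat_lit 5) (nat_lit 1) (nat_lit 7) (nat_lit 175) (nat_lit 351) r10_175 r0_351 (nat_lit 0) (nat_lit 0) (nat_lit 0) (nat_lit 0x7df9cda52c) (nat_lit 993588336),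
  Rx.mk (nat_lit 116) (nat_lit 4) (nat_lit 6) (nat_lit 1) (nat_lit 6) (nat_lit 178) (nat_lit 352) r10_178 r0_352 (nat_lit 0) (nat_lit 0) (nat_lit 0) (nat_lit 0x7df5b266e4) (nat_lit 1001461968),
  Rx.mk (nat_lit 117) (nat_lit 5) (nat_lit 6) (nat_lit 1) (nat_lit 7) (nat_lit 180) (nat_lit 353) r10_180 r0_353 (nat_lit 0) (nat_lit 0) (nat_lit 0) (nat_lit 0x7dee0dc136) (nat_lit 1016116920),
  Rx.mk (nat_lit 118) (nat_lit 6) (nat_lit 6) (nat_lit 1) (nat_lit 7) (nat_lit 182) (nat_lit 354) r10_182 r0_354 (nat_lit 0) (nat_lit 0) (nat_lit 0) (nat_lit 0x7df41fc010) (nat_lit 1004477760),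
  Rx.mk (nat_lit 164) (nat_lit 4) (nat_lit 4) (nat_lit 2) (nat_lit 4) (nat_lit 167) (nat_lit 355) r10_167 r0_355 (nat_lit 0) (nat_lit 0) (nat_lit 0) (nat_lit 0x7cc600e32c) (nat_lit 1583762544),
  Rx.mk (nat_lit 165) (nat_lit 5) (nat_lit 4) (nat_lit 2) (nat_lit 5) (nat_lit 170) (nat_lit 356) r10_170 r0_356 (nat_lit 0) (nat_lit 0) (nat_lit 0) (nat_lit 0x7df00ea126) (nat_lit 1012275576),
  Rx.mk (nat_lit 172) (nat_lit 4) (nat_lit 5) (nat_lit 2) (nat_lit 6) (nat_lit 173) (nat_lit 357) r10_173 r0_357 (nat_lit 0) (nat_lit 0) (nat_lit 0) (nat_lit 0x7e5a0a0106) (nat_lit 809066232),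
  Rx.mk (nat_lit 173) (nat_lit 5) (nat_lit 5) (nat_lit 2) (nat_lit 7) (nat_lit 176) (nat_lit 358) r10_176 r0_358 (nat_lit 0) (nat_lit 0) (nat_lit 0) (nat_lit 0x7ea0391dce) (nat_lit 674495640)]
noncomputable def e27_11 : List Rx := [
  Rx.mk (nat_lit 100) (nat_lit 4) (nat_lit 4) (nat_lit 1) (nat_lit 4) (nat_lit 212) (nat_lit 263) r10_212 r6_263 (nat_lit 0) (nat_lit 0) (nat_lit 0) (nat_lit 0x776214075e) (nat_lit 4229625816),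
  Rx.mk (nat_lit 101) (nat_lit 5) (nat_lit 4) (nat_lit 1) (nat_lit 5) (nat_lit 213) (nat_lit 266) r10_213 r6_266 (nat_lit 0) (nat_lit 0) (nat_lit 0) (nat_lit 0x7dbb30cf38) (nat_lit 1113641568),
  Rx.mk (nat_lit 108) (nat_lit 4) (nat_lit 5) (nat_lit 1) (nat_lit 6) (nat_lit 214) (nat_lit 264) r10_214 r6_264 (nat_lit 0) (nat_lit 0) (nat_lit 0) (nat_lit 0x7df79428c6) (nat_lit 997853688),
  Rx.mk (nat_lit 109) (nat_lit 5) (nat_lit 5) (nat_lit 1) (nat_lit 7) (nat_lit 215) (nat_lit 267) r10_215 r6_267 (nat_lit 0) (nat_lit 0) (nat_lit 0) (nat_lit 0x7de4fa127a) (nat_lit 1033520904),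
  Rx.mk (nat_lit 116) (nat_lit 4) (nat_lit 6) (nat_lit 1) (nat_lit 6) (nat_lit 216) (nat_lit 265) r10_216 r6_265 (nat_lit 0) (nat_lit 0) (nat_lit 0) (nat_lit 0x7dc96b0b86) (nat_lit 1086361848),
  Rx.mk (nat_lit 117) (nat_lit 5) (nat_lit 6) (nat_lit 1) (nat_lit 7) (nat_lit 217) (nat_lit 268) r10_217 r6_268 (nat_lit 0) (nat_lit 0) (nat_lit 0) (nat_lit 0x7dc83d9e5e) (nat_lit 1088619480),
  Rx.mk (nat_lit 118) (nat_lit 6) (nat_lit 6) (nat_lit 1) (nat_lit 7) (nat_lit 218) (nat_lit 269) r10_218 r6_269 (nat_lit 0) (nat_lit 0) (nat_lit 0) (nat_lit 0x7def592c7e) (nat_lit 1013634648)]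
noncomputable def e27_12 : List Rx := [
  Rx.mk (nat_lit 37) (nat_lit 5) (nat_lit 4) (nat_lit 0) (nat_lit 1) (nat_lit 183) (nat_lit 315) r10_183 r1_315 (nat_lit 0) (nat_lit 0) (nat_lit 0) (nat_lit 0x707b7d37b2) (nat_lit 7616876904),
  Rx.mk (nat_lit 45) (nat_lit 5) (nat_lit 5) (nat_lit 0) (nat_lit 3) (nat_lit 186) (nat_lit 316) r10_186 r1_316 (nat_lit 0) (nat_lit 0) (nat_lit 0) (nat_lit 0x7ddf77aaa6) (nat_lit 1044084600),
  Rx.mk (nat_lit 53) (nat_lit 5) (nat_lit 6) (nat_lit 0) (nat_lit 3) (nat_lit 189) (nat_lit 317) r10_189 r1_317 (nat_lit 0) (nat_lit 0) (nat_lit 0) (nat_lit 0x7de538ae90) (nat_lit 1033051968),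
  Rx.mk (nat_lit 101) (nat_lit 5) (nat_lit 4) (nat_lit 1) (nat_lit 5) (nat_lit 184) (nat_lit 318) r10_184 r1_318 (nat_lit 0) (nat_lit 0) (nat_lit 0) (nat_lit 0x7de8fc3254) (nat_lit 1025835408),
  Rx.mk (nat_lit 109) (nat_lit 5) (nat_lit 5) (nat_lit 1) (nat_lit 7) (nat_lit 187) (nat_lit 319) r10_187 r1_319 (nat_lit 0) (nat_lit 0) (nat_lit 0) (nat_lit 0x7df4ff3218) (nat_lit 1002804192),
  Rx.mk (nat_lit 117) (nat_lit 5) (nat_lit 6) (nat_lit 1) (nat_lit 7) (nat_lit 190) (nat_lit 320) r10_190 r1_320 (nat_lit 0) (nat_lit 0) (nat_lit 0) (nat_lit 0x7df62c9f40) (nat_lit 1000546560),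
  Rx.mk (nat_lit 165) (nat_lit 5) (nat_lit 4) (nat_lit 2) (nat_lit 5) (nat_lit 185) (nat_lit 321) r10_185 r1_321 (nat_lit 0) (nat_lit 0) (nat_lit 0) (nat_lit 0x7df99bc84a) (nat_lit 993961800),
  Rx.mk (nat_lit 173) (nat_lit 5) (nat_lit 5) (nat_lit 2) (nat_lit 7) (nat_lit 188) (nat_lit 322) r10_188 r1_322 (nat_lit 0) (nat_lit 0) (nat_lit 0) (nat_lit 0x7e5868bb1c) (nat_lit 812191536)]
noncomputable def e27_13 : List Rx := [
  Rx.mk (nat_lit 101) (nat_lit 5) (nat_lit 4) (nat_lit 1) (nat_lit 5) (nat_lit 219) (nat_lit 198) r10_219 r7_198 (nat_lit 0) (nat_lit 0) (nat_lit 0) (nat_lit 0x7df20f8116) (nat_lit 1008434232),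
  Rx.mk (nat_lit 109) (nat_lit 5) (nat_lit 5) (nat_lit 1) (nat_lit 7) (nat_lit 220) (nat_lit 199) r10_220 r7_199 (nat_lit 0) (nat_lit 0) (nat_lit 0) (nat_lit 0x7de83d5e42) (nat_lit 1027264680),
  Rx.mk (nat_lit 117) (nat_lit 5) (nat_lit 6) (nat_lit 1) (nat_lit 7) (nat_lit 221) (nat_lit 200) r10_221 r7_200 (nat_lit 0) (nat_lit 0) (nat_lit 0) (nat_lit 0x7deb8469ce) (nat_lit 1020980376)]
noncomputable def e27_14 : List Rx := [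
  Rx.mk (nat_lit 100) (nat_lit 4) (nat_lit 4) (nat_lit 1) (nat_lit 4) (nat_lit 222) (nat_lit 368) r10_222 r7_368 (nat_lit 0) (nat_lit 0) (nat_lit 0) (nat_lit 0x6dd2a647ca) (nat_lit 8922316104),
  Rx.mk (nat_lit 101) (nat_lit 5) (nat_lit 4) (nat_lit 1) (nat_lit 5) (nat_lit 223) (nat_lit 369) r10_223 r7_369 (nat_lit 0) (nat_lit 0) (nat_lit 0) (nat_lit 0x7dce8599d8) (nat_lit 1076575968),
  Rx.mk (nat_lit 108) (nat_lit 4) (nat_lit 5) (nat_lit 1) (nat_lit 6) (nat_lit 224) (nat_lit 370) r10_224 r7_370 (nat_lit 0) (nat_lit 0) (nat_lit 0) (nat_lit 0x7dd5e543d6) (nat_lit 1062437688),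
  Rx.mk (nat_lit 109) (nat_lit 5) (nat_lit 5) (nat_lit 1) (nat_lit 7) (nat_lit 225) (nat_lit 371) r10_225 r7_371 (nat_lit 0) (nat_lit 0) (nat_lit 0) (nat_lit 0x7df118d082) (nat_lit 1010281896),
  Rx.mk (nat_lit 116) (nat_lit 4) (nat_lit 6) (nat_lit 1) (nat_lit 6) (nat_lit 226) (nat_lit 372) r10_226 r7_372 (nat_lit 0) (nat_lit 0) (nat_lit 0) (nat_lit 0x7d483d1ee6) (nat_lit 1334049912),
  Rx.mk (nat_lit 117) (nat_lit 5) (nat_lit 6) (nat_lit 1) (nat_lit 7) (nat_lit 227) (nat_lit 373) r10_227 r7_373 (nat_lit 0) (nat_lit 0) (nat_lit 0) (nat_lit 0x7df32a2f6a) (nat_lit 1006317000),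
  Rx.mk (nat_lit 118) (nat_lit 6) (nat_lit 6) (nat_lit 1) (nat_lit 7) (nat_lit 228) (nat_lit 374) r10_228 r7_374 (nat_lit 0) (nat_lit 0) (nat_lit 0) (nat_lit 0x7de7266fb2) (nat_lit 1029353832),
  Rx.mk (nat_lit 374) (nat_lit 6) (nat_lit 6) (nat_lit 5) (nat_lit 7) (nat_lit 229) (nat_lit 367) r10_229 r7_367 (nat_lit 0) (nat_lit 0) (nat_lit 0) (nat_lit 0x7ddf1c9058) (nat_lit 1044766944)]
noncomputable def e27_15 : List Rx := [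
  Rx.mk (nat_lit 374) (nat_lit 6) (nat_lit 6) (nat_lit 5) (nat_lit 7) (nat_lit 164) (nat_lit 214) r10_164 r8_214 (nat_lit 0) (nat_lit 0) (nat_lit 0) (nat_lit 0x7df2523cea) (nat_lit 1007934408)]
noncomputable def e27_16 : List Rx := [
  Rx.mk (nat_lit 36) (nat_lit 4) (nat_lit 4) (nat_lit 0) (nat_lit 0) (nat_lit 191) (nat_lit 381) r10_191 r4_381 (nat_lit 0) (nat_lit 0) (nat_lit 0) (nat_lit 0x38e6b45bd8) (nat_lit 34899093216),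
  Rx.mk (nat_lit 37) (nat_lit 5) (nat_lit 4) (nat_lit 0) (nat_lit 1) (nat_lit 194) (nat_lit 382) r10_194 r4_382 (nat_lit 0) (nat_lit 0) (nat_lit 0) (nat_lit 0x7d28250088) (nat_lit 1395587232),
  Rx.mk (nat_lit 39) (nat_lit 7) (nat_lit 4) (nat_lit 0) (nat_lit 1) (nat_lit 196) (nat_lit 383) r10_196 r4_383 (nat_lit 0) (nat_lit 0) (nat_lit 0) (nat_lit 0x7d70d954fa) (nat_lit 1256184072),
  Rx.mk (nat_lit 44) (nat_lit 4) (nat_lit 5) (nat_lit 0) (nat_lit 2) (nat_lit 199) (nat_lit 384) r10_199 r4_384 (nat_lit 0) (nat_lit 0) (nat_lit 0) (nat_lit 0x7ba0e835dc) (nat_lit 2145744432),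
  Rx.mk (nat_lit 45) (nat_lit 5) (nat_lit 5) (nat_lit 0) (nat_lit 3) (nat_lit 202) (nat_lit 385) r10_202 r4_385 (nat_lit 0) (nat_lit 0) (nat_lit 0) (nat_lit 0x7dce487daa) (nat_lit 1077033672),
  Rx.mk (nat_lit 47) (nat_lit 7) (nat_lit 5) (nat_lit 0) (nat_lit 3) (nat_lit 204) (nat_lit 386) r10_204 r4_386 (nat_lit 0) (nat_lit 0) (nat_lit 0) (nat_lit 0x7df210a104) (nat_lit 1008425808),
  Rx.mk (nat_lit 52) (nat_lit 4) (nat_lit 6) (nat_lit 0) (nat_lit 2) (nat_lit 207) (nat_lit 387) r10_207 r4_387 (nat_lit 0) (nat_lit 0) (nat_lit 0) (nat_lit 0x7c3386eb5e) (nat_lit 1864615896),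
  Rx.mk (nat_lit 53) (nat_lit 5) (nat_lit 6) (nat_lit 0) (nat_lit 3) (nat_lit 209) (nat_lit 388) r10_209 r4_388 (nat_lit 0) (nat_lit 0) (nat_lit 0) (nat_lit 0x7dcf0cf162) (nat_lit 1075562280),
  Rx.mk (nat_lit 54) (nat_lit 6) (nat_lit 6) (nat_lit 0) (nat_lit 3) (nat_lit 210) (nat_lit 389) r10_210 r4_389 (nat_lit 0) (nat_lit 0) (nat_lit 0) (nat_lit 0x7df1be8626) (nat_lit 1009040760),
  Rx.mk (nat_lit 100) (nat_lit 4) (nat_lit 4) (nat_lit 1) (nat_lit 4) (nat_lit 192) (nat_lit 390) r10_192 r4_390 (nat_lit 0) (nat_lit 0) (nat_lit 0) (nat_lit 0x7c966bbcae) (nat_lit 1674997272),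
  Rx.mk (nat_lit 103) (nat_lit 7) (nat_lit 4) (nat_lit 1) (nat_lit 5) (nat_lit 197) (nat_lit 391) r10_197 r4_391 (nat_lit 0) (nat_lit 0) (nat_lit 0) (nat_lit 0x7de4ce9532) (nat_lit 1033846632),
  Rx.mk (nat_lit 108) (nat_lit 4) (nat_lit 5) (nat_lit 1) (nat_lit 6) (nat_lit 200) (nat_lit 392) r10_200 r4_392 (nat_lit 0) (nat_lit 0) (nat_lit 0) (nat_lit 0x7ded13b0d8) (nat_lit 1017989856),
  Rx.mk (nat_lit 111) (nat_lit 7) (nat_lit 5) (nat_lit 1) (nat_lit 7) (nat_lit 205) (nat_lit 393) r10_205 r4_393 (nat_lit 0) (nat_lit 0) (nat_lit 0) (nat_lit 0x7df01c204e) (nat_lit 1012174488),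
  Rx.mk (nat_lit 116) (nat_lit 4) (nat_lit 6) (nat_lit 1) (nat_lit 6) (nat_lit 208) (nat_lit 394) r10_208 r4_394 (nat_lit 0) (nat_lit 0) (nat_lit 0) (nat_lit 0x7de439be80) (nat_lit 1034961408),
  Rx.mk (nat_lit 118) (nat_lit 6) (nat_lit 6) (nat_lit 1) (nat_lit 7) (nat_lit 211) (nat_lit 395) r10_211 r4_395 (nat_lit 0) (nat_lit 0) (nat_lit 0) (nat_lit 0x7df5724ae6) (nat_lit 1001942136),
  Rx.mk (nat_lit 164) (nat_lit 4) (nat_lit 4) (nat_lit 2) (nat_lit 4) (nat_lit 193) (nat_lit 396) r10_193 r4_396 (nat_lit 0) (nat_lit 0) (nat_lit 0) (nat_lit 0x7ccea598d8) (nat_lit 1567189728),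
  Rx.mk (nat_lit 165) (nat_lit 5) (nat_lit 4) (nat_lit 2) (nat_lit 5) (nat_lit 195) (nat_lit 397) r10_195 r4_397 (nat_lit 0) (nat_lit 0) (nat_lit 0) (nat_lit 0x7de473dade) (nat_lit 1034526168),
  Rx.mk (nat_lit 167) (nat_lit 7) (nat_lit 4) (nat_lit 2) (nat_lit 5) (nat_lit 198) (nat_lit 398) r10_198 r4_398 (nat_lit 0) (nat_lit 0) (nat_lit 0) (nat_lit 0x7dcd522d10) (nat_lit 1078878528),
  Rx.mk (nat_lit 172) (nat_lit 4) (nat_lit 5) (nat_lit 2) (nat_lit 6) (nat_lit 201) (nat_lit 399) r10_201 r4_399 (nat_lit 0) (nat_lit 0) (nat_lit 0) (nat_lit 0x7dd7e563d2) (nat_lit 1058601960),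
  Rx.mk (nat_lit 173) (nat_lit 5) (nat_lit 5) (nat_lit 2) (nat_lit 7) (nat_lit 203) (nat_lit 400) r10_203 r4_400 (nat_lit 0) (nat_lit 0) (nat_lit 0) (nat_lit 0x7df3488d84) (nat_lit 1006089552),
  Rx.mk (nat_lit 175) (nat_lit 7) (nat_lit 5) (nat_lit 2) (nat_lit 7) (nat_lit 206) (nat_lit 401) r10_206 r4_401 (nat_lit 0) (nat_lit 0) (nat_lit 0) (nat_lit 0x7df70fd10c) (nat_lit 998844912)]
noncomputable def e27_17 : List Rx := [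
  Rx.mk (nat_lit 100) (nat_lit 4) (nat_lit 4) (nat_lit 1) (nat_lit 4) (nat_lit 230) (nat_lit 206) r10_230 r9_206 (nat_lit 0) (nat_lit 0) (nat_lit 0) (nat_lit 0x7db50971b4) (nat_lit 1125440784),
  Rx.mk (nat_lit 103) (nat_lit 7) (nat_lit 4) (nat_lit 1) (nat_lit 5) (nat_lit 231) (nat_lit 209) r10_231 r9_209 (nat_lit 0) (nat_lit 0) (nat_lit 0) (nat_lit 0x7def382e8e) (nat_lit 1013881752),
  Rx.mk (nat_lit 108) (nat_lit 4) (nat_lit 5) (nat_lit 1) (nat_lit 6) (nat_lit 232) (nat_lit 207) r10_232 r9_207 (nat_lit 0) (nat_lit 0) (nat_lit 0) (nat_lit 0x7defa427ce) (nat_lit 1013073048),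
  Rx.mk (nat_lit 111) (nat_lit 7) (nat_lit 5) (nat_lit 1) (nat_lit 7) (nat_lit 233) (nat_lit 210) r10_233 r9_210 (nat_lit 0) (nat_lit 0) (nat_lit 0) (nat_lit 0x7df680f9fa) (nat_lit 999914760),
  Rx.mk (nat_lit 116) (nat_lit 4) (nat_lit 6) (nat_lit 1) (nat_lit 6) (nat_lit 234) (nat_lit 208) r10_234 r9_208 (nat_lit 0) (nat_lit 0) (nat_lit 0) (nat_lit 0x7de652fcea) (nat_lit 1030937544),
  Rx.mk (nat_lit 118) (nat_lit 6) (nat_lit 6) (nat_lit 1) (nat_lit 7) (nat_lit 235) (nat_lit 211) r10_235 r9_211 (nat_lit 0) (nat_lit 0) (nat_lit 0) (nat_lit 0x7deffe8228) (nat_lit 1012396320)]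
noncomputable def e27_18 : List Rx := [
  Rx.mk (nat_lit 36) (nat_lit 4) (nat_lit 4) (nat_lit 0) (nat_lit 0) (nat_lit 236) (nat_lit 236) r10_236 r10_236 (nat_lit 0) (nat_lit 0) (nat_lit 0) (nat_lit 0x540d4a5750) (nat_lit 21572066880),
  Rx.mk (nat_lit 37) (nat_lit 5) (nat_lit 4) (nat_lit 0) (nat_lit 1) (nat_lit 240) (nat_lit 246) r10_240 r10_246 (nat_lit 0) (nat_lit 0) (nat_lit 0) (nat_lit 0x7da3588cd4) (nat_lit 1159361424),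
  Rx.mk (nat_lit 39) (nat_lit 7) (nat_lit 4) (nat_lit 0) (nat_lit 1) (nat_lit 243) (nat_lit 254) r10_243 r10_254 (nat_lit 0) (nat_lit 0) (nat_lit 0) (nat_lit 0x7d57554d54) (nat_lit 1305107856),
  Rx.mk (nat_lit 44) (nat_lit 4) (nat_lit 5) (nat_lit 0) (nat_lit 2) (nat_lit 246) (nat_lit 240) r10_246 r10_240 (nat_lit 0) (nat_lit 0) (nat_lit 0) (nat_lit 0x7da3588cd4) (nat_lit 1159361424),
  Rx.mk (nat_lit 45) (nat_lit 5) (nat_lit 5) (nat_lit 0) (nat_lit 3) (nat_lit 249) (nat_lit 249) r10_249 r10_249 (nat_lit 0) (nat_lit 0) (nat_lit 0) (nat_lit 0x7df2331edc) (nat_lit 1008167472),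
  Rx.mk (nat_lit 47) (nat_lit 7) (nat_lit 5) (nat_lit 0) (nat_lit 3) (nat_lit 252) (nat_lit 257) r10_252 r10_257 (nat_lit 0) (nat_lit 0) (nat_lit 0) (nat_lit 0x7ddd346edc) (nat_lit 1048422960),
  Rx.mk (nat_lit 52) (nat_lit 4) (nat_lit 6) (nat_lit 0) (nat_lit 2) (nat_lit 254) (nat_lit 243) r10_254 r10_243 (nat_lit 0) (nat_lit 0) (nat_lit 0) (nat_lit 0x7d57554d54) (nat_lit 1305107856),
  Rx.mk (nat_lit 53) (nat_lit 5) (nat_lit 6) (nat_lit 0) (nat_lit 3) (nat_lit 257) (nat_lit 252) r10_257 r10_252 (nat_lit 0) (nat_lit 0) (nat_lit 0) (nat_lit 0x7ddd346edc) (nat_lit 1048422960),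
  Rx.mk (nat_lit 54) (nat_lit 6) (nat_lit 6) (nat_lit 0) (nat_lit 3) (nat_lit 259) (nat_lit 262) r10_259 r10_262 (nat_lit 0) (nat_lit 0) (nat_lit 0) (nat_lit 0x7df1402e0c) (nat_lit 1009987056),
  Rx.mk (nat_lit 63) (nat_lit 7) (nat_lit 7) (nat_lit 0) (nat_lit 3) (nat_lit 262) (nat_lit 259) r10_262 r10_259 (nat_lit 0) (nat_lit 0) (nat_lit 0) (nat_lit 0x7df1402e0c) (nat_lit 1009987056),
  Rx.mk (nat_lit 100) (nat_lit 4) (nat_lit 4) (nat_lit 1) (nat_lit 4) (nat_lit 237) (nat_lit 237) r10_237 r10_237 (nat_lit 0) (nat_lit 0) (nat_lit 0) (nat_lit 0x7de7980898) (nat_lit 1028503008),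
  Rx.mk (nat_lit 103) (nat_lit 7) (nat_lit 4) (nat_lit 1) (nat_lit 5) (nat_lit 244) (nat_lit 255) r10_244 r10_255 (nat_lit 0) (nat_lit 0) (nat_lit 0) (nat_lit 0x7df6641bc8) (nat_lit 1000130976),
  Rx.mk (nat_lit 116) (nat_lit 4) (nat_lit 6) (nat_lit 1) (nat_lit 6) (nat_lit 255) (nat_lit 244) r10_255 r10_244 (nat_lit 0) (nat_lit 0) (nat_lit 0) (nat_lit 0x7df6641bc8) (nat_lit 1000130976),
  Rx.mk (nat_lit 118) (nat_lit 6) (nat_lit 6) (nat_lit 1) (nat_lit 7) (nat_lit 260) (nat_lit 263) r10_260 r10_263 (nat_lit 0) (nat_lit 0) (nat_lit 0) (nat_lit 0x7df1978896) (nat_lit 1009332792),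
  Rx.mk (nat_lit 127) (nat_lit 7) (nat_lit 7) (nat_lit 1) (nat_lit 7) (nat_lit 263) (nat_lit 260) r10_263 r10_260 (nat_lit 0) (nat_lit 0) (nat_lit 0) (nat_lit 0x7df1978896) (nat_lit 1009332792),
  Rx.mk (nat_lit 164) (nat_lit 4) (nat_lit 4) (nat_lit 2) (nat_lit 4) (nat_lit 238) (nat_lit 239) r10_238 r10_239 (nat_lit 0) (nat_lit 0) (nat_lit 0) (nat_lit 0x7dbee7f3c2) (nat_lit 1106517672),
  Rx.mk (nat_lit 165) (nat_lit 5) (nat_lit 4) (nat_lit 2) (nat_lit 5) (nat_lit 241) (nat_lit 248) r10_241 r10_248 (nat_lit 0) (nat_lit 0) (nat_lit 0) (nat_lit 0x7df1b106fe) (nat_lit 1009141848),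
  Rx.mk (nat_lit 167) (nat_lit 7) (nat_lit 4) (nat_lit 2) (nat_lit 5) (nat_lit 245) (nat_lit 256) r10_245 r10_256 (nat_lit 0) (nat_lit 0) (nat_lit 0) (nat_lit 0x7dd66edb3c) (nat_lit 1061407152),
  Rx.mk (nat_lit 172) (nat_lit 4) (nat_lit 5) (nat_lit 2) (nat_lit 6) (nat_lit 247) (nat_lit 242) r10_247 r10_242 (nat_lit 0) (nat_lit 0) (nat_lit 0) (nat_lit 0x7de958cc8a) (nat_lit 1025141832),
  Rx.mk (nat_lit 173) (nat_lit 5) (nat_lit 5) (nat_lit 2) (nat_lit 7) (nat_lit 250) (nat_lit 251) r10_250 r10_251 (nat_lit 0) (nat_lit 0) (nat_lit 0) (nat_lit 0x7defa487c8) (nat_lit 1013070240),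
  Rx.mk (nat_lit 175) (nat_lit 7) (nat_lit 5) (nat_lit 2) (nat_lit 7) (nat_lit 253) (nat_lit 258) r10_253 r10_258 (nat_lit 0) (nat_lit 0) (nat_lit 0) (nat_lit 0x7df79428c6) (nat_lit 997853688),
  Rx.mk (nat_lit 191) (nat_lit 7) (nat_lit 7) (nat_lit 2) (nat_lit 7) (nat_lit 264) (nat_lit 261) r10_264 r10_261 (nat_lit 0) (nat_lit 0) (nat_lit 0) (nat_lit 0x7de80a0178) (nat_lit 1027649376),
  Rx.mk (nat_lit 228) (nat_lit 4) (nat_lit 4) (nat_lit 3) (nat_lit 4) (nat_lit 239) (nat_lit 238) r10_239 r10_238 (nat_lit 0) (nat_lit 0) (nat_lit 0) (nat_lit 0x7dbee7f3c2) (nat_lit 1106517672),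
  Rx.mk (nat_lit 229) (nat_lit 5) (nat_lit 4) (nat_lit 3) (nat_lit 5) (nat_lit 242) (nat_lit 247) r10_242 r10_247 (nat_lit 0) (nat_lit 0) (nat_lit 0) (nat_lit 0x7de958cc8a) (nat_lit 1025141832),
  Rx.mk (nat_lit 236) (nat_lit 4) (nat_lit 5) (nat_lit 3) (nat_lit 6) (nat_lit 248) (nat_lit 241) r10_248 r10_241 (nat_lit 0) (nat_lit 0) (nat_lit 0) (nat_lit 0x7df1b106fe) (nat_lit 1009141848),
  Rx.mk (nat_lit 237) (nat_lit 5) (nat_lit 5) (nat_lit 3) (nat_lit 7) (nat_lit 251) (nat_lit 250) r10_251 r10_250 (nat_lit 0) (nat_lit 0) (nat_lit 0) (nat_lit 0x7defa487c8) (nat_lit 1013070240),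
  Rx.mk (nat_lit 244) (nat_lit 4) (nat_lit 6) (nat_lit 3) (nat_lit 6) (nat_lit 256) (nat_lit 245) r10_256 r10_245 (nat_lit 0) (nat_lit 0) (nat_lit 0) (nat_lit 0x7dd66edb3c) (nat_lit 1061407152),
  Rx.mk (nat_lit 245) (nat_lit 5) (nat_lit 6) (nat_lit 3) (nat_lit 7) (nat_lit 258) (nat_lit 253) r10_258 r10_253 (nat_lit 0) (nat_lit 0) (nat_lit 0) (nat_lit 0x7df79428c6) (nat_lit 997853688),
  Rx.mk (nat_lit 246) (nat_lit 6) (nat_lit 6) (nat_lit 3) (nat_lit 7) (nat_lit 261) (nat_lit 264) r10_261 r10_264 (nat_lit 0) (nat_lit 0) (nat_lit 0) (nat_lit 0x7de80a0178) (nat_lit 1027649376)]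
noncomputable def e27_19 : List Rx := [
  Rx.mk (nat_lit 342) (nat_lit 6) (nat_lit 2) (nat_lit 5) (nat_lit 7) (nat_lit 123) (nat_lit 147) r10_123 r8_147 (nat_lit 0) (nat_lit 0) (nat_lit 0) (nat_lit 0x7df5dba450) (nat_lit 1001153088),
  Rx.mk (nat_lit 374) (nat_lit 6) (nat_lit 6) (nat_lit 5) (nat_lit 7) (nat_lit 124) (nat_lit 146) r10_124 r8_146 (nat_lit 0) (nat_lit 0) (nat_lit 0) (nat_lit 0x7df79428c6) (nat_lit 997853688)]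
noncomputable def e27_20 : List Rx := [
  Rx.mk (nat_lit 128) (nat_lit 0) (nat_lit 0) (nat_lit 2) (nat_lit 4) (nat_lit 91) (nat_lit 212) r10_91 r0_212 (nat_lit 0) (nat_lit 0) (nat_lit 0) (nat_lit 0x41b494b504) (nat_lit 30577519440),
  Rx.mk (nat_lit 152) (nat_lit 0) (nat_lit 3) (nat_lit 2) (nat_lit 6) (nat_lit 97) (nat_lit 213) r10_97 r0_213 (nat_lit 0) (nat_lit 0) (nat_lit 0) (nat_lit 0x78034c9334) (nat_lit 3920501520),
  Rx.mk (nat_lit 155) (nat_lit 3) (nat_lit 3) (nat_lit 2) (nat_lit 7) (nat_lit 98) (nat_lit 214) r10_98 r0_214 (nat_lit 0) (nat_lit 0) (nat_lit 0) (nat_lit 0x7e314d2cfc) (nat_lit 887176368),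
  Rx.mk (nat_lit 274) (nat_lit 2) (nat_lit 2) (nat_lit 4) (nat_lit 3) (nat_lit 94) (nat_lit 215) r10_94 r0_215 (nat_lit 0) (nat_lit 0) (nat_lit 0) (nat_lit 0x7d78b51736) (nat_lit 1241116344),
  Rx.mk (nat_lit 278) (nat_lit 6) (nat_lit 2) (nat_lit 4) (nat_lit 3) (nat_lit 96) (nat_lit 216) r10_96 r0_216 (nat_lit 0) (nat_lit 0) (nat_lit 0) (nat_lit 0x7de857fc98) (nat_lit 1027065312),
  Rx.mk (nat_lit 310) (nat_lit 6) (nat_lit 6) (nat_lit 4) (nat_lit 3) (nat_lit 99) (nat_lit 217) r10_99 r0_217 (nat_lit 0) (nat_lit 0) (nat_lit 0) (nat_lit 0x7c2f7ecbe4) (nat_lit 1872346320),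
  Rx.mk (nat_lit 384) (nat_lit 0) (nat_lit 0) (nat_lit 6) (nat_lit 4) (nat_lit 92) (nat_lit 219) r10_92 r0_219 (nat_lit 0) (nat_lit 0) (nat_lit 0) (nat_lit 0x4965c57a46) (nat_lit 26801801208),
  Rx.mk (nat_lit 386) (nat_lit 2) (nat_lit 0) (nat_lit 6) (nat_lit 5) (nat_lit 93) (nat_lit 220) r10_93 r0_220 (nat_lit 0) (nat_lit 0) (nat_lit 0) (nat_lit 0x7d5dec63dc) (nat_lit 1292471856),
  Rx.mk (nat_lit 402) (nat_lit 2) (nat_lit 2) (nat_lit 6) (nat_lit 7) (nat_lit 95) (nat_lit 221) r10_95 r0_221 (nat_lit 0) (nat_lit 0) (nat_lit 0) (nat_lit 0x7e428d38ea) (nat_lit 854100936),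
  Rx.mk (nat_lit 502) (nat_lit 6) (nat_lit 6) (nat_lit 7) (nat_lit 7) (nat_lit 100) (nat_lit 218) r10_100 r0_218 (nat_lit 0) (nat_lit 0) (nat_lit 0) (nat_lit 0x7e0bdd0424) (nat_lit 958960080)]
noncomputable def e27_21 : List Rx := [
  Rx.mk (nat_lit 128) (nat_lit 0) (nat_lit 0) (nat_lit 2) (nat_lit 4) (nat_lit 107) (nat_lit 234) r10_107 r1_234 (nat_lit 0) (nat_lit 0) (nat_lit 0) (nat_lit 0x79f253e0d0) (nat_lit 2971335744),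
  Rx.mk (nat_lit 152) (nat_lit 0) (nat_lit 3) (nat_lit 2) (nat_lit 6) (nat_lit 111) (nat_lit 235) r10_111 r1_235 (nat_lit 0) (nat_lit 0) (nat_lit 0) (nat_lit 0x7de322cff0) (nat_lit 1037050560),
  Rx.mk (nat_lit 155) (nat_lit 3) (nat_lit 3) (nat_lit 2) (nat_lit 7) (nat_lit 112) (nat_lit 236) r10_112 r1_236 (nat_lit 0) (nat_lit 0) (nat_lit 0) (nat_lit 0x7e36429da0) (nat_lit 877668480),
  Rx.mk (nat_lit 384) (nat_lit 0) (nat_lit 0) (nat_lit 6) (nat_lit 4) (nat_lit 108) (nat_lit 237) r10_108 r1_237 (nat_lit 0) (nat_lit 0) (nat_lit 0) (nat_lit 0x6afa16f398) (nat_lit 10319253984),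
  Rx.mk (nat_lit 386) (nat_lit 2) (nat_lit 0) (nat_lit 6) (nat_lit 5) (nat_lit 109) (nat_lit 238) r10_109 r1_238 (nat_lit 0) (nat_lit 0) (nat_lit 0) (nat_lit 0x7dd597a8b0) (nat_lit 1063018944),
  Rx.mk (nat_lit 402) (nat_lit 2) (nat_lit 2) (nat_lit 6) (nat_lit 7) (nat_lit 110) (nat_lit 239) r10_110 r1_239 (nat_lit 0) (nat_lit 0) (nat_lit 0) (nat_lit 0x7de4773aa8) (nat_lit 1034500896)]
noncomputable def e27_22 : List Rx := [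
  Rx.mk (nat_lit 152) (nat_lit 0) (nat_lit 3) (nat_lit 2) (nat_lit 6) (nat_lit 131) (nat_lit 205) r10_131 r4_205 (nat_lit 0) (nat_lit 0) (nat_lit 0) (nat_lit 0x7227e22fb6) (nat_lit 6795475128),
  Rx.mk (nat_lit 155) (nat_lit 3) (nat_lit 3) (nat_lit 2) (nat_lit 7) (nat_lit 134) (nat_lit 206) r10_134 r4_206 (nat_lit 0) (nat_lit 0) (nat_lit 0) (nat_lit 0x7dc3644bf8) (nat_lit 1097916768),
  Rx.mk (nat_lit 187) (nat_lit 3) (nat_lit 7) (nat_lit 2) (nat_lit 7) (nat_lit 136) (nat_lit 207) r10_136 r4_207 (nat_lit 0) (nat_lit 0) (nat_lit 0) (nat_lit 0x7e23aee6ee) (nat_lit 913287960),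
  Rx.mk (nat_lit 274) (nat_lit 2) (nat_lit 2) (nat_lit 4) (nat_lit 3) (nat_lit 127) (nat_lit 208) r10_127 r4_208 (nat_lit 0) (nat_lit 0) (nat_lit 0) (nat_lit 0x72c34b188c) (nat_lit 6497492976),
  Rx.mk (nat_lit 278) (nat_lit 6) (nat_lit 2) (nat_lit 4) (nat_lit 3) (nat_lit 129) (nat_lit 209) r10_129 r4_209 (nat_lit 0) (nat_lit 0) (nat_lit 0) (nat_lit 0x757b9df0a6) (nat_lit 5162364792),
  Rx.mk (nat_lit 384) (nat_lit 0) (nat_lit 0) (nat_lit 6) (nat_lit 4) (nat_lit 125) (nat_lit 212) r10_125 r4_212 (nat_lit 0) (nat_lit 0) (nat_lit 0) (nat_lit 0x704a4c6af0) (nat_lit 7711194816),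
  Rx.mk (nat_lit 386) (nat_lit 2) (nat_lit 0) (nat_lit 6) (nat_lit 5) (nat_lit 126) (nat_lit 214) r10_126 r4_214 (nat_lit 0) (nat_lit 0) (nat_lit 0) (nat_lit 0x7bb067ddd2) (nat_lit 2116027368),
  Rx.mk (nat_lit 402) (nat_lit 2) (nat_lit 2) (nat_lit 6) (nat_lit 7) (nat_lit 128) (nat_lit 216) r10_128 r4_216 (nat_lit 0) (nat_lit 0) (nat_lit 0) (nat_lit 0x7d9fcc8598) (nat_lit 1166162400),
  Rx.mk (nat_lit 408) (nat_lit 0) (nat_lit 3) (nat_lit 6) (nat_lit 6) (nat_lit 132) (nat_lit 213) r10_132 r4_213 (nat_lit 0) (nat_lit 0) (nat_lit 0) (nat_lit 0x77d5fc8862) (nat_lit 4007383848),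
  Rx.mk (nat_lit 410) (nat_lit 2) (nat_lit 3) (nat_lit 6) (nat_lit 7) (nat_lit 133) (nat_lit 215) r10_133 r4_215 (nat_lit 0) (nat_lit 0) (nat_lit 0) (nat_lit 0x7e0de80372) (nat_lit 955042920),
  Rx.mk (nat_lit 470) (nat_lit 6) (nat_lit 2) (nat_lit 7) (nat_lit 7) (nat_lit 130) (nat_lit 210) r10_130 r4_210 (nat_lit 0) (nat_lit 0) (nat_lit 0) (nat_lit 0x7e50fdd1d2) (nat_lit 826414056),
  Rx.mk (nat_lit 502) (nat_lit 6) (nat_lit 6) (nat_lit 7) (nat_lit 7) (nat_lit 135) (nat_lit 211) r10_135 r4_211 (nat_lit 0) (nat_lit 0) (nat_lit 0) (nat_lit 0x7df1c665a8) (nat_lit 1008981792)]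
noncomputable def e27_23 : List Rx := [
  Rx.mk (nat_lit 274) (nat_lit 2) (nat_lit 2) (nat_lit 4) (nat_lit 3) (nat_lit 102) (nat_lit 202) r10_102 r6_202 (nat_lit 0) (nat_lit 0) (nat_lit 0) (nat_lit 0x7d8f376efa) (nat_lit 1197957384),
  Rx.mk (nat_lit 278) (nat_lit 6) (nat_lit 2) (nat_lit 4) (nat_lit 3) (nat_lit 104) (nat_lit 201) r10_104 r6_201 (nat_lit 0) (nat_lit 0) (nat_lit 0) (nat_lit 0x7dd6555cd4) (nat_lit 1061598096),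
  Rx.mk (nat_lit 310) (nat_lit 6) (nat_lit 6) (nat_lit 4) (nat_lit 3) (nat_lit 105) (nat_lit 198) r10_105 r6_198 (nat_lit 0) (nat_lit 0) (nat_lit 0) (nat_lit 0x7d9e0ce194) (nat_lit 1169515152),
  Rx.mk (nat_lit 386) (nat_lit 2) (nat_lit 0) (nat_lit 6) (nat_lit 5) (nat_lit 101) (nat_lit 200) r10_101 r6_200 (nat_lit 0) (nat_lit 0) (nat_lit 0) (nat_lit 0x7de93d0e46) (nat_lit 1025349624),
  Rx.mk (nat_lit 402) (nat_lit 2) (nat_lit 2) (nat_lit 6) (nat_lit 7) (nat_lit 103) (nat_lit 203) r10_103 r6_203 (nat_lit 0) (nat_lit 0) (nat_lit 0) (nat_lit 0x7df1366ea8) (nat_lit 1010060064),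
  Rx.mk (nat_lit 502) (nat_lit 6) (nat_lit 6) (nat_lit 7) (nat_lit 7) (nat_lit 106) (nat_lit 199) r10_106 r6_199 (nat_lit 0) (nat_lit 0) (nat_lit 0) (nat_lit 0x7da1502d5c) (nat_lit 1163258928)]
noncomputable def e27_24 : List Rx := [
  Rx.mk (nat_lit 386) (nat_lit 2) (nat_lit 0) (nat_lit 6) (nat_lit 5) (nat_lit 113) (nat_lit 157) r10_113 r7_157 (nat_lit 0) (nat_lit 0) (nat_lit 0) (nat_lit 0x7dd4373eb8) (nat_lit 1065658464),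
  Rx.mk (nat_lit 402) (nat_lit 2) (nat_lit 2) (nat_lit 6) (nat_lit 7) (nat_lit 114) (nat_lit 158) r10_114 r7_158 (nat_lit 0) (nat_lit 0) (nat_lit 0) (nat_lit 0x7deba267ee) (nat_lit 1020755736)]
noncomputable def e27_25 : List Rx := [
  Rx.mk (nat_lit 274) (nat_lit 2) (nat_lit 2) (nat_lit 4) (nat_lit 3) (nat_lit 115) (nat_lit 206) r10_115 r7_206 (nat_lit 0) (nat_lit 0) (nat_lit 0) (nat_lit 0x7d7cc21662) (nat_lit 1233349416),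
  Rx.mk (nat_lit 278) (nat_lit 6) (nat_lit 2) (nat_lit 4) (nat_lit 3) (nat_lit 118) (nat_lit 207) r10_118 r7_207 (nat_lit 0) (nat_lit 0) (nat_lit 0) (nat_lit 0x7dcad2f506) (nat_lit 1083666168),
  Rx.mk (nat_lit 310) (nat_lit 6) (nat_lit 6) (nat_lit 4) (nat_lit 3) (nat_lit 120) (nat_lit 208) r10_120 r7_208 (nat_lit 0) (nat_lit 0) (nat_lit 0) (nat_lit 0x7da81b00a8) (nat_lit 1150235424),
  Rx.mk (nat_lit 338) (nat_lit 2) (nat_lit 2) (nat_lit 5) (nat_lit 7) (nat_lit 116) (nat_lit 209) r10_116 r7_209 (nat_lit 0) (nat_lit 0) (nat_lit 0) (nat_lit 0x7deb46eda6) (nat_lit 1021440888),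
  Rx.mk (nat_lit 342) (nat_lit 6) (nat_lit 2) (nat_lit 5) (nat_lit 7) (nat_lit 119) (nat_lit 210) r10_119 r7_210 (nat_lit 0) (nat_lit 0) (nat_lit 0) (nat_lit 0x7de6733ae6) (nat_lit 1030696056),
  Rx.mk (nat_lit 374) (nat_lit 6) (nat_lit 6) (nat_lit 5) (nat_lit 7) (nat_lit 121) (nat_lit 211) r10_121 r7_211 (nat_lit 0) (nat_lit 0) (nat_lit 0) (nat_lit 0x7df45c7c44) (nat_lit 1004022864),
  Rx.mk (nat_lit 402) (nat_lit 2) (nat_lit 2) (nat_lit 6) (nat_lit 7) (nat_lit 117) (nat_lit 213) r10_117 r7_213 (nat_lit 0) (nat_lit 0) (nat_lit 0) (nat_lit 0x7df08459ca) (nat_lit 1011393864),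
  Rx.mk (nat_lit 502) (nat_lit 6) (nat_lit 6) (nat_lit 7) (nat_lit 7) (nat_lit 122) (nat_lit 212) r10_122 r7_212 (nat_lit 0) (nat_lit 0) (nat_lit 0) (nat_lit 0x7dd511d10e) (nat_lit 1064021400)]
noncomputable def e27_26 : List Rx := [
  Rx.mk (nat_lit 274) (nat_lit 2) (nat_lit 2) (nat_lit 4) (nat_lit 3) (nat_lit 138) (nat_lit 159) r10_138 r9_159 (nat_lit 0) (nat_lit 0) (nat_lit 0) (nat_lit 0x7dcdcae584) (nat_lit 1077974352),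
  Rx.mk (nat_lit 278) (nat_lit 6) (nat_lit 2) (nat_lit 4) (nat_lit 3) (nat_lit 140) (nat_lit 157) r10_140 r9_157 (nat_lit 0) (nat_lit 0) (nat_lit 0) (nat_lit 0x7dcfb546dc) (nat_lit 1074301488),
  Rx.mk (nat_lit 386) (nat_lit 2) (nat_lit 0) (nat_lit 6) (nat_lit 5) (nat_lit 137) (nat_lit 155) r10_137 r9_155 (nat_lit 0) (nat_lit 0) (nat_lit 0) (nat_lit 0x7df2fc7246) (nat_lit 1006659576),
  Rx.mk (nat_lit 402) (nat_lit 2) (nat_lit 2) (nat_lit 6) (nat_lit 7) (nat_lit 139) (nat_lit 160) r10_139 r9_160 (nat_lit 0) (nat_lit 0) (nat_lit 0) (nat_lit 0x7df79428c6) (nat_lit 997853688),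
  Rx.mk (nat_lit 410) (nat_lit 2) (nat_lit 3) (nat_lit 6) (nat_lit 7) (nat_lit 142) (nat_lit 156) r10_142 r9_156 (nat_lit 0) (nat_lit 0) (nat_lit 0) (nat_lit 0x7df03efe20) (nat_lit 1011913344),
  Rx.mk (nat_lit 470) (nat_lit 6) (nat_lit 2) (nat_lit 7) (nat_lit 7) (nat_lit 141) (nat_lit 158) r10_141 r9_158 (nat_lit 0) (nat_lit 0) (nat_lit 0) (nat_lit 0x7dfd420de2) (nat_lit 986964264),
  Rx.mk (nat_lit 502) (nat_lit 6) (nat_lit 6) (nat_lit 7) (nat_lit 7) (nat_lit 143) (nat_lit 154) r10_143 r9_154 (nat_lit 0) (nat_lit 0) (nat_lit 0) (nat_lit 0x7dd40501dc) (nat_lit 1066034736)]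
noncomputable def e27_27 : List Rx := [
  Rx.mk (nat_lit 63) (nat_lit 7) (nat_lit 7) (nat_lit 0) (nat_lit 3) (nat_lit 161) (nat_lit 146) r10_161 r10_146 (nat_lit 0) (nat_lit 0) (nat_lit 0) (nat_lit 0x78062ec50e) (nat_lit 3914972568),
  Rx.mk (nat_lit 155) (nat_lit 3) (nat_lit 3) (nat_lit 2) (nat_lit 7) (nat_lit 152) (nat_lit 158) r10_152 r10_158 (nat_lit 0) (nat_lit 0) (nat_lit 0) (nat_lit 0x77e99d6e40) (nat_lit 3969748224),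
  Rx.mk (nat_lit 187) (nat_lit 3) (nat_lit 7) (nat_lit 2) (nat_lit 7) (nat_lit 160) (nat_lit 149) r10_160 r10_149 (nat_lit 0) (nat_lit 0) (nat_lit 0) (nat_lit 0x7d4d14f164) (nat_lit 1324763856),
  Rx.mk (nat_lit 191) (nat_lit 7) (nat_lit 7) (nat_lit 2) (nat_lit 7) (nat_lit 162) (nat_lit 148) r10_162 r10_148 (nat_lit 0) (nat_lit 0) (nat_lit 0) (nat_lit 0x7d31852a7c) (nat_lit 1377610416),
  Rx.mk (nat_lit 228) (nat_lit 4) (nat_lit 4) (nat_lit 3) (nat_lit 4) (nat_lit 154) (nat_lit 144) r10_154 r10_144 (nat_lit 0) (nat_lit 0) (nat_lit 0) (nat_lit 0x5b3d173352) (nat_lit 18044441064),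
  Rx.mk (nat_lit 231) (nat_lit 7) (nat_lit 4) (nat_lit 3) (nat_lit 5) (nat_lit 155) (nat_lit 145) r10_155 r10_145 (nat_lit 0) (nat_lit 0) (nat_lit 0) (nat_lit 0x7a843d21aa) (nat_lit 2691566280),
  Rx.mk (nat_lit 244) (nat_lit 4) (nat_lit 6) (nat_lit 3) (nat_lit 6) (nat_lit 156) (nat_lit 150) r10_156 r10_150 (nat_lit 0) (nat_lit 0) (nat_lit 0) (nat_lit 0x7b7fa54a2c) (nat_lit 2209519728),
  Rx.mk (nat_lit 246) (nat_lit 6) (nat_lit 6) (nat_lit 3) (nat_lit 7) (nat_lit 157) (nat_lit 153) r10_157 r10_153 (nat_lit 0) (nat_lit 0) (nat_lit 0) (nat_lit 0x7d97b22746) (nat_lit 1181699064),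
  Rx.mk (nat_lit 247) (nat_lit 7) (nat_lit 6) (nat_lit 3) (nat_lit 7) (nat_lit 159) (nat_lit 151) r10_159 r10_151 (nat_lit 0) (nat_lit 0) (nat_lit 0) (nat_lit 0x7e01d184e6) (nat_lit 978220152),
  Rx.mk (nat_lit 255) (nat_lit 7) (nat_lit 7) (nat_lit 3) (nat_lit 7) (nat_lit 163) (nat_lit 147) r10_163 r10_147 (nat_lit 0) (nat_lit 0) (nat_lit 0) (nat_lit 0x7d37d32596) (nat_lit 1365521976),
  Rx.mk (nat_lit 274) (nat_lit 2) (nat_lit 2) (nat_lit 4) (nat_lit 3) (nat_lit 146) (nat_lit 161) r10_146 r10_161 (nat_lit 0) (nat_lit 0) (nat_lit 0) (nat_lit 0x78062ec50e) (nat_lit 3914972568),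
  Rx.mk (nat_lit 384) (nat_lit 0) (nat_lit 0) (nat_lit 6) (nat_lit 4) (nat_lit 144) (nat_lit 154) r10_144 r10_154 (nat_lit 0) (nat_lit 0) (nat_lit 0) (nat_lit 0x5b3d173352) (nat_lit 18044441064),
  Rx.mk (nat_lit 386) (nat_lit 2) (nat_lit 0) (nat_lit 6) (nat_lit 5) (nat_lit 145) (nat_lit 155) r10_145 r10_155 (nat_lit 0) (nat_lit 0) (nat_lit 0) (nat_lit 0x7a843d21aa) (nat_lit 2691566280),
  Rx.mk (nat_lit 402) (nat_lit 2) (nat_lit 2) (nat_lit 6) (nat_lit 7) (nat_lit 147) (nat_lit 163) r10_147 r10_163 (nat_lit 0) (nat_lit 0) (nat_lit 0) (nat_lit 0x7d37d32596) (nat_lit 1365521976),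
  Rx.mk (nat_lit 408) (nat_lit 0) (nat_lit 3) (nat_lit 6) (nat_lit 6) (nat_lit 150) (nat_lit 156) r10_150 r10_156 (nat_lit 0) (nat_lit 0) (nat_lit 0) (nat_lit 0x7b7fa54a2c) (nat_lit 2209519728),
  Rx.mk (nat_lit 410) (nat_lit 2) (nat_lit 3) (nat_lit 6) (nat_lit 7) (nat_lit 151) (nat_lit 159) r10_151 r10_159 (nat_lit 0) (nat_lit 0) (nat_lit 0) (nat_lit 0x7e01d184e6) (nat_lit 978220152),
  Rx.mk (nat_lit 411) (nat_lit 3) (nat_lit 3) (nat_lit 6) (nat_lit 7) (nat_lit 153) (nat_lit 157) r10_153 r10_157 (nat_lit 0) (nat_lit 0) (nat_lit 0) (nat_lit 0x7d97b22746) (nat_lit 1181699064),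
  Rx.mk (nat_lit 466) (nat_lit 2) (nat_lit 2) (nat_lit 7) (nat_lit 7) (nat_lit 148) (nat_lit 162) r10_148 r10_162 (nat_lit 0) (nat_lit 0) (nat_lit 0) (nat_lit 0x7d31852a7c) (nat_lit 1377610416),
  Rx.mk (nat_lit 470) (nat_lit 6) (nat_lit 2) (nat_lit 7) (nat_lit 7) (nat_lit 149) (nat_lit 160) r10_149 r10_160 (nat_lit 0) (nat_lit 0) (nat_lit 0) (nat_lit 0x7d4d14f164) (nat_lit 1324763856),
  Rx.mk (nat_lit 502) (nat_lit 6) (nat_lit 6) (nat_lit 7) (nat_lit 7) (nat_lit 158) (nat_lit 152) r10_158 r10_152 (nat_lit 0) (nat_lit 0) (nat_lit 0) (nat_lit 0x77e99d6e40) (nat_lit 3969748224)]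
noncomputable def e27_28 : List Rx := [
  Rx.mk (nat_lit 103) (nat_lit 7) (nat_lit 4) (nat_lit 1) (nat_lit 5) (nat_lit 281) (nat_lit 368) r10_281 r10_368 (nat_lit 0) (nat_lit 0) (nat_lit 0) (nat_lit 0x7df1570c9e) (nat_lit 1009815768),
  Rx.mk (nat_lit 111) (nat_lit 7) (nat_lit 5) (nat_lit 1) (nat_lit 7) (nat_lit 282) (nat_lit 369) r10_282 r10_369 (nat_lit 0) (nat_lit 0) (nat_lit 0) (nat_lit 0x7df79428c6) (nat_lit 997853688),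
  Rx.mk (nat_lit 119) (nat_lit 7) (nat_lit 6) (nat_lit 1) (nat_lit 7) (nat_lit 283) (nat_lit 370) r10_283 r10_370 (nat_lit 0) (nat_lit 0) (nat_lit 0) (nat_lit 0x7df441ddee) (nat_lit 1004222232)]
noncomputable def e27_29 : List Rx := [
  Rx.mk (nat_lit 163) (nat_lit 3) (nat_lit 4) (nat_lit 2) (nat_lit 5) (nat_lit 284) (nat_lit 254) r10_284 r5_254 (nat_lit 0) (nat_lit 0) (nat_lit 0) (nat_lit 0x7e9ce972cc) (nat_lit 680844528),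
  Rx.mk (nat_lit 171) (nat_lit 3) (nat_lit 5) (nat_lit 2) (nat_lit 7) (nat_lit 285) (nat_lit 255) r10_285 r5_255 (nat_lit 0) (nat_lit 0) (nat_lit 0) (nat_lit 0x7eb3926826) (nat_lit 637396344),
  Rx.mk (nat_lit 187) (nat_lit 3) (nat_lit 7) (nat_lit 2) (nat_lit 7) (nat_lit 286) (nat_lit 256) r10_286 r5_256 (nat_lit 0) (nat_lit 0) (nat_lit 0) (nat_lit 0x7eba8a38a2) (nat_lit 624035880)]
noncomputable def e27_30 : List Rx := []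
noncomputable def e27_31 : List Rx := [
  Rx.mk (nat_lit 39) (nat_lit 7) (nat_lit 4) (nat_lit 0) (nat_lit 1) (nat_lit 267) (nat_lit 356) r10_267 r5_356 (nat_lit 0) (nat_lit 0) (nat_lit 0) (nat_lit 0x79a5149512) (nat_lit 3119449320),
  Rx.mk (nat_lit 47) (nat_lit 7) (nat_lit 5) (nat_lit 0) (nat_lit 3) (nat_lit 270) (nat_lit 359) r10_270 r5_359 (nat_lit 0) (nat_lit 0) (nat_lit 0) (nat_lit 0x7e01da245c) (nat_lit 978155568),
  Rx.mk (nat_lit 55) (nat_lit 7) (nat_lit 6) (nat_lit 0) (nat_lit 3) (nat_lit 272) (nat_lit 362) r10_272 r5_362 (nat_lit 0) (nat_lit 0) (nat_lit 0) (nat_lit 0x7df2dd5438) (nat_lit 1006892640),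
  Rx.mk (nat_lit 163) (nat_lit 3) (nat_lit 4) (nat_lit 2) (nat_lit 5) (nat_lit 266) (nat_lit 357) r10_266 r5_357 (nat_lit 0) (nat_lit 0) (nat_lit 0) (nat_lit 0x7ed4e452e6) (nat_lit 573508728),
  Rx.mk (nat_lit 167) (nat_lit 7) (nat_lit 4) (nat_lit 2) (nat_lit 5) (nat_lit 268) (nat_lit 358) r10_268 r5_358 (nat_lit 0) (nat_lit 0) (nat_lit 0) (nat_lit 0x7e095e2c14) (nat_lit 963744912),
  Rx.mk (nat_lit 171) (nat_lit 3) (nat_lit 5) (nat_lit 2) (nat_lit 7) (nat_lit 269) (nat_lit 360) r10_269 r5_360 (nat_lit 0) (nat_lit 0) (nat_lit 0) (nat_lit 0x7eb07799d6) (nat_lit 643349304),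
  Rx.mk (nat_lit 175) (nat_lit 7) (nat_lit 5) (nat_lit 2) (nat_lit 7) (nat_lit 271) (nat_lit 361) r10_271 r5_361 (nat_lit 0) (nat_lit 0) (nat_lit 0) (nat_lit 0x7df4315ef6) (nat_lit 1004345784)]
noncomputable def e27_32 : List Rx := [
  Rx.mk (nat_lit 39) (nat_lit 7) (nat_lit 4) (nat_lit 0) (nat_lit 1) (nat_lit 288) (nat_lit 232) r10_288 r11_232 (nat_lit 0) (nat_lit 0) (nat_lit 0) (nat_lit 0x73c76ed54c) (nat_lit 5998702320),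
  Rx.mk (nat_lit 47) (nat_lit 7) (nat_lit 5) (nat_lit 0) (nat_lit 3) (nat_lit 292) (nat_lit 235) r10_292 r11_235 (nat_lit 0) (nat_lit 0) (nat_lit 0) (nat_lit 0x7dd14ded50) (nat_lit 1071240768),
  Rx.mk (nat_lit 55) (nat_lit 7) (nat_lit 6) (nat_lit 0) (nat_lit 3) (nat_lit 295) (nat_lit 238) r10_295 r11_238 (nat_lit 0) (nat_lit 0) (nat_lit 0) (nat_lit 0x7d8b3fce78) (nat_lit 1205564256),
  Rx.mk (nat_lit 163) (nat_lit 3) (nat_lit 4) (nat_lit 2) (nat_lit 5) (nat_lit 287) (nat_lit 229) r10_287 r11_229 (nat_lit 0) (nat_lit 0) (nat_lit 0) (nat_lit 0x7eeaa716a4) (nat_lit 531784656),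
  Rx.mk (nat_lit 167) (nat_lit 7) (nat_lit 4) (nat_lit 2) (nat_lit 5) (nat_lit 289) (nat_lit 234) r10_289 r11_234 (nat_lit 0) (nat_lit 0) (nat_lit 0) (nat_lit 0x7d45698c22) (nat_lit 1339469352),
  Rx.mk (nat_lit 171) (nat_lit 3) (nat_lit 5) (nat_lit 2) (nat_lit 7) (nat_lit 291) (nat_lit 230) r10_291 r11_230 (nat_lit 0) (nat_lit 0) (nat_lit 0) (nat_lit 0x7ed7099090) (nat_lit 569395008),
  Rx.mk (nat_lit 175) (nat_lit 7) (nat_lit 5) (nat_lit 2) (nat_lit 7) (nat_lit 293) (nat_lit 237) r10_293 r11_237 (nat_lit 0) (nat_lit 0) (nat_lit 0) (nat_lit 0x7df4f75296) (nat_lit 1002863160),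
  Rx.mk (nat_lit 187) (nat_lit 3) (nat_lit 7) (nat_lit 2) (nat_lit 7) (nat_lit 297) (nat_lit 231) r10_297 r11_231 (nat_lit 0) (nat_lit 0) (nat_lit 0) (nat_lit 0x7ed6cb5474) (nat_lit 569861136),
  Rx.mk (nat_lit 231) (nat_lit 7) (nat_lit 4) (nat_lit 3) (nat_lit 5) (nat_lit 290) (nat_lit 233) r10_290 r11_233 (nat_lit 0) (nat_lit 0) (nat_lit 0) (nat_lit 0x7e5f76aa36) (nat_lit 798665400),
  Rx.mk (nat_lit 239) (nat_lit 7) (nat_lit 5) (nat_lit 3) (nat_lit 7) (nat_lit 294) (nat_lit 236) r10_294 r11_236 (nat_lit 0) (nat_lit 0) (nat_lit 0) (nat_lit 0x7df4cdb530) (nat_lit 1003174848),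
  Rx.mk (nat_lit 247) (nat_lit 7) (nat_lit 6) (nat_lit 3) (nat_lit 7) (nat_lit 296) (nat_lit 239) r10_296 r11_239 (nat_lit 0) (nat_lit 0) (nat_lit 0) (nat_lit 0x7def628be8) (nat_lit 1013564448)]
noncomputable def e27_33 : List Rx := [
  Rx.mk (nat_lit 136) (nat_lit 0) (nat_lit 1) (nat_lit 2) (nat_lit 6) (nat_lit 300) (nat_lit 226) r10_300 r0_226 (nat_lit 0) (nat_lit 0) (nat_lit 0) (nat_lit 0x7dddc22600) (nat_lit 1047361536),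
  Rx.mk (nat_lit 139) (nat_lit 3) (nat_lit 1) (nat_lit 2) (nat_lit 7) (nat_lit 301) (nat_lit 227) r10_301 r0_227 (nat_lit 0) (nat_lit 0) (nat_lit 0) (nat_lit 0x7e9ab5f606) (nat_lit 685064952),
  Rx.mk (nat_lit 168) (nat_lit 0) (nat_lit 5) (nat_lit 2) (nat_lit 6) (nat_lit 302) (nat_lit 225) r10_302 r0_225 (nat_lit 0) (nat_lit 0) (nat_lit 0) (nat_lit 0x7c7d384ffe) (nat_lit 1723317336)]
noncomputable def e27_34 : List Rx := [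
  Rx.mk (nat_lit 168) (nat_lit 0) (nat_lit 5) (nat_lit 2) (nat_lit 6) (nat_lit 298) (nat_lit 327) r10_298 r0_327 (nat_lit 0) (nat_lit 0) (nat_lit 0) (nat_lit 0x7e2b75aa7a) (nat_lit 898377480),
  Rx.mk (nat_lit 169) (nat_lit 1) (nat_lit 5) (nat_lit 2) (nat_lit 7) (nat_lit 299) (nat_lit 328) r10_299 r0_328 (nat_lit 0) (nat_lit 0) (nat_lit 0) (nat_lit 0x7df79428c6) (nat_lit 997853688)]
noncomputable def e27_35 : List Rx := [
  Rx.mk (nat_lit 136) (nat_lit 0) (nat_lit 1) (nat_lit 2) (nat_lit 6) (nat_lit 303) (nat_lit 289) r10_303 r6_289 (nat_lit 0) (nat_lit 0) (nat_lit 0) (nat_lit 0x7de1356ec8) (nat_lit 1040745888),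
  Rx.mk (nat_lit 137) (nat_lit 1) (nat_lit 1) (nat_lit 2) (nat_lit 7) (nat_lit 304) (nat_lit 291) r10_304 r6_291 (nat_lit 0) (nat_lit 0) (nat_lit 0) (nat_lit 0x7df52a4f66) (nat_lit 1002481272),
  Rx.mk (nat_lit 139) (nat_lit 3) (nat_lit 1) (nat_lit 2) (nat_lit 7) (nat_lit 305) (nat_lit 292) r10_305 r6_292 (nat_lit 0) (nat_lit 0) (nat_lit 0) (nat_lit 0x7dcf9d485c) (nat_lit 1074481200),
  Rx.mk (nat_lit 168) (nat_lit 0) (nat_lit 5) (nat_lit 2) (nat_lit 6) (nat_lit 306) (nat_lit 288) r10_306 r6_288 (nat_lit 0) (nat_lit 0) (nat_lit 0) (nat_lit 0x7de08359ea) (nat_lit 1042079688),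
  Rx.mk (nat_lit 169) (nat_lit 1) (nat_lit 5) (nat_lit 2) (nat_lit 7) (nat_lit 307) (nat_lit 290) r10_307 r6_290 (nat_lit 0) (nat_lit 0) (nat_lit 0) (nat_lit 0x7de6505d14) (nat_lit 1030957200)]
noncomputable def e27_36 : List Rx := [
  Rx.mk (nat_lit 45) (nat_lit 5) (nat_lit 5) (nat_lit 0) (nat_lit 3) (nat_lit 340) (nat_lit 356) r10_340 r2_356 (nat_lit 0) (nat_lit 0) (nat_lit 0) (nat_lit 0x7da4f55306) (nat_lit 1156269816),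
  Rx.mk (nat_lit 109) (nat_lit 5) (nat_lit 5) (nat_lit 1) (nat_lit 7) (nat_lit 341) (nat_lit 357) r10_341 r2_357 (nat_lit 0) (nat_lit 0) (nat_lit 0) (nat_lit 0x7df51550b6) (nat_lit 1002638520),
  Rx.mk (nat_lit 169) (nat_lit 1) (nat_lit 5) (nat_lit 2) (nat_lit 7) (nat_lit 339) (nat_lit 358) r10_339 r2_358 (nat_lit 0) (nat_lit 0) (nat_lit 0) (nat_lit 0x7dec0621b2) (nat_lit 1020008808),
  Rx.mk (nat_lit 173) (nat_lit 5) (nat_lit 5) (nat_lit 2) (nat_lit 7) (nat_lit 342) (nat_lit 359) r10_342 r2_359 (nat_lit 0) (nat_lit 0) (nat_lit 0) (nat_lit 0x7df79428c6) (nat_lit 997853688)]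
noncomputable def e27_37 : List Rx := [
  Rx.mk (nat_lit 45) (nat_lit 5) (nat_lit 5) (nat_lit 0) (nat_lit 3) (nat_lit 347) (nat_lit 320) r10_347 r8_320 (nat_lit 0) (nat_lit 0) (nat_lit 0) (nat_lit 0x7d5d8ae9f4) (nat_lit 1293201936),
  Rx.mk (nat_lit 109) (nat_lit 5) (nat_lit 5) (nat_lit 1) (nat_lit 7) (nat_lit 348) (nat_lit 321) r10_348 r8_321 (nat_lit 0) (nat_lit 0) (nat_lit 0) (nat_lit 0x7de98b6960) (nat_lit 1024762752),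
  Rx.mk (nat_lit 137) (nat_lit 1) (nat_lit 1) (nat_lit 2) (nat_lit 7) (nat_lit 345) (nat_lit 319) r10_345 r8_319 (nat_lit 0) (nat_lit 0) (nat_lit 0) (nat_lit 0x7de3095188) (nat_lit 1037241504),
  Rx.mk (nat_lit 169) (nat_lit 1) (nat_lit 5) (nat_lit 2) (nat_lit 7) (nat_lit 346) (nat_lit 322) r10_346 r8_322 (nat_lit 0) (nat_lit 0) (nat_lit 0) (nat_lit 0x7ddf600c20) (nat_lit 1044261504),
  Rx.mk (nat_lit 173) (nat_lit 5) (nat_lit 5) (nat_lit 2) (nat_lit 7) (nat_lit 349) (nat_lit 323) r10_349 r8_323 (nat_lit 0) (nat_lit 0) (nat_lit 0) (nat_lit 0x7dd48359f6) (nat_lit 1065088440)]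
noncomputable def e27_38 : List Rx := [
  Rx.mk (nat_lit 109) (nat_lit 5) (nat_lit 5) (nat_lit 1) (nat_lit 7) (nat_lit 350) (nat_lit 327) r10_350 r8_327 (nat_lit 0) (nat_lit 0) (nat_lit 0) (nat_lit 0x7ded710b02) (nat_lit 1017290664)]
noncomputable def e27_39 : List Rx := [
  Rx.mk (nat_lit 169) (nat_lit 1) (nat_lit 5) (nat_lit 2) (nat_lit 7) (nat_lit 338) (nat_lit 309) r10_338 r1_309 (nat_lit 0) (nat_lit 0) (nat_lit 0) (nat_lit 0x7df8d574b0) (nat_lit 995447232)]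
noncomputable def e27_40 : List Rx := [
  Rx.mk (nat_lit 137) (nat_lit 1) (nat_lit 1) (nat_lit 2) (nat_lit 7) (nat_lit 343) (nat_lit 220) r10_343 r7_220 (nat_lit 0) (nat_lit 0) (nat_lit 0) (nat_lit 0x7de0f07318) (nat_lit 1041262560),
  Rx.mk (nat_lit 169) (nat_lit 1) (nat_lit 5) (nat_lit 2) (nat_lit 7) (nat_lit 344) (nat_lit 219) r10_344 r7_219 (nat_lit 0) (nat_lit 0) (nat_lit 0) (nat_lit 0x7de8ed3344) (nat_lit 1025947728)]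
noncomputable def e27_41 : List Rx := [
  Rx.mk (nat_lit 136) (nat_lit 0) (nat_lit 1) (nat_lit 2) (nat_lit 6) (nat_lit 333) (nat_lit 244) r10_333 r1_244 (nat_lit 0) (nat_lit 0) (nat_lit 0) (nat_lit 0x7dc4b676d4) (nat_lit 1095383952),
  Rx.mk (nat_lit 139) (nat_lit 3) (nat_lit 1) (nat_lit 2) (nat_lit 7) (nat_lit 334) (nat_lit 245) r10_334 r1_245 (nat_lit 0) (nat_lit 0) (nat_lit 0) (nat_lit 0x7e352a8f22) (nat_lit 879766056)]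
noncomputable def e27_42 : List Rx := [
  Rx.mk (nat_lit 128) (nat_lit 0) (nat_lit 0) (nat_lit 2) (nat_lit 4) (nat_lit 308) (nat_lit 260) r10_308 r2_260 (nat_lit 0) (nat_lit 0) (nat_lit 0) (nat_lit 0x6a7892cc5c) (nat_lit 10567587888),
  Rx.mk (nat_lit 131) (nat_lit 3) (nat_lit 0) (nat_lit 2) (nat_lit 5) (nat_lit 311) (nat_lit 262) r10_311 r2_262 (nat_lit 0) (nat_lit 0) (nat_lit 0) (nat_lit 0x7dc32e4f58) (nat_lit 1098321120),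
  Rx.mk (nat_lit 136) (nat_lit 0) (nat_lit 1) (nat_lit 2) (nat_lit 6) (nat_lit 312) (nat_lit 261) r10_312 r2_261 (nat_lit 0) (nat_lit 0) (nat_lit 0) (nat_lit 0x7dda7c9a5c) (nat_lit 1053634608),
  Rx.mk (nat_lit 139) (nat_lit 3) (nat_lit 1) (nat_lit 2) (nat_lit 7) (nat_lit 315) (nat_lit 263) r10_315 r2_263 (nat_lit 0) (nat_lit 0) (nat_lit 0) (nat_lit 0x7de6ab7762) (nat_lit 1030274856),
  Rx.mk (nat_lit 155) (nat_lit 3) (nat_lit 3) (nat_lit 2) (nat_lit 7) (nat_lit 317) (nat_lit 264) r10_317 r2_264 (nat_lit 0) (nat_lit 0) (nat_lit 0) (nat_lit 0x7df7510cf8) (nat_lit 998356320),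
  Rx.mk (nat_lit 384) (nat_lit 0) (nat_lit 0) (nat_lit 6) (nat_lit 4) (nat_lit 309) (nat_lit 258) r10_309 r2_258 (nat_lit 0) (nat_lit 0) (nat_lit 0) (nat_lit 0x66e4917006) (nat_lit 12323932920),
  Rx.mk (nat_lit 386) (nat_lit 2) (nat_lit 0) (nat_lit 6) (nat_lit 5) (nat_lit 310) (nat_lit 265) r10_310 r2_265 (nat_lit 0) (nat_lit 0) (nat_lit 0) (nat_lit 0x7dd287b9b2) (nat_lit 1068890472),
  Rx.mk (nat_lit 392) (nat_lit 0) (nat_lit 1) (nat_lit 6) (nat_lit 6) (nat_lit 313) (nat_lit 259) r10_313 r2_259 (nat_lit 0) (nat_lit 0) (nat_lit 0) (nat_lit 0x7dd88cf958) (nat_lit 1057346784),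
  Rx.mk (nat_lit 394) (nat_lit 2) (nat_lit 1) (nat_lit 6) (nat_lit 7) (nat_lit 314) (nat_lit 266) r10_314 r2_266 (nat_lit 0) (nat_lit 0) (nat_lit 0) (nat_lit 0x7dd90551d2) (nat_lit 1056445416),
  Rx.mk (nat_lit 402) (nat_lit 2) (nat_lit 2) (nat_lit 6) (nat_lit 7) (nat_lit 316) (nat_lit 267) r10_316 r2_267 (nat_lit 0) (nat_lit 0) (nat_lit 0) (nat_lit 0x7df6d8b47e) (nat_lit 999257688)]
noncomputable def e27_43 : List Rx := [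
  Rx.mk (nat_lit 136) (nat_lit 0) (nat_lit 1) (nat_lit 2) (nat_lit 6) (nat_lit 335) (nat_lit 358) r10_335 r7_358 (nat_lit 0) (nat_lit 0) (nat_lit 0) (nat_lit 0x7de88259f2) (nat_lit 1026748008),
  Rx.mk (nat_lit 137) (nat_lit 1) (nat_lit 1) (nat_lit 2) (nat_lit 7) (nat_lit 336) (nat_lit 359) r10_336 r7_359 (nat_lit 0) (nat_lit 0) (nat_lit 0) (nat_lit 0x7de822bfec) (nat_lit 1027464048),
  Rx.mk (nat_lit 139) (nat_lit 3) (nat_lit 1) (nat_lit 2) (nat_lit 7) (nat_lit 337) (nat_lit 360) r10_337 r7_360 (nat_lit 0) (nat_lit 0) (nat_lit 0) (nat_lit 0x7df139ce72) (nat_lit 1010034792)]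
noncomputable def e27_44 : List Rx := [
  Rx.mk (nat_lit 128) (nat_lit 0) (nat_lit 0) (nat_lit 2) (nat_lit 4) (nat_lit 318) (nat_lit 231) r10_318 r8_231 (nat_lit 0) (nat_lit 0) (nat_lit 0) (nat_lit 0x74c5e86cb4) (nat_lit 5510773008),
  Rx.mk (nat_lit 131) (nat_lit 3) (nat_lit 0) (nat_lit 2) (nat_lit 5) (nat_lit 321) (nat_lit 235) r10_321 r8_235 (nat_lit 0) (nat_lit 0) (nat_lit 0) (nat_lit 0x7de41b006c) (nat_lit 1035191664),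
  Rx.mk (nat_lit 136) (nat_lit 0) (nat_lit 1) (nat_lit 2) (nat_lit 6) (nat_lit 322) (nat_lit 232) r10_322 r8_232 (nat_lit 0) (nat_lit 0) (nat_lit 0) (nat_lit 0x7de5ce4536) (nat_lit 1031931576),
  Rx.mk (nat_lit 137) (nat_lit 1) (nat_lit 1) (nat_lit 2) (nat_lit 7) (nat_lit 324) (nat_lit 234) r10_324 r8_234 (nat_lit 0) (nat_lit 0) (nat_lit 0) (nat_lit 0x7deef3f2d2) (nat_lit 1014392808),
  Rx.mk (nat_lit 139) (nat_lit 3) (nat_lit 1) (nat_lit 2) (nat_lit 7) (nat_lit 327) (nat_lit 236) r10_327 r8_236 (nat_lit 0) (nat_lit 0) (nat_lit 0) (nat_lit 0x7dcf8f693a) (nat_lit 1074585096),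
  Rx.mk (nat_lit 155) (nat_lit 3) (nat_lit 3) (nat_lit 2) (nat_lit 7) (nat_lit 329) (nat_lit 237) r10_329 r8_237 (nat_lit 0) (nat_lit 0) (nat_lit 0) (nat_lit 0x7df16d2b3c) (nat_lit 1009650096),
  Rx.mk (nat_lit 384) (nat_lit 0) (nat_lit 0) (nat_lit 6) (nat_lit 4) (nat_lit 319) (nat_lit 229) r10_319 r8_229 (nat_lit 0) (nat_lit 0) (nat_lit 0) (nat_lit 0x76844a04dc) (nat_lit 4654883376),
  Rx.mk (nat_lit 386) (nat_lit 2) (nat_lit 0) (nat_lit 6) (nat_lit 5) (nat_lit 320) (nat_lit 238) r10_320 r8_238 (nat_lit 0) (nat_lit 0) (nat_lit 0) (nat_lit 0x7db5be8662) (nat_lit 1124084520),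
  Rx.mk (nat_lit 392) (nat_lit 0) (nat_lit 1) (nat_lit 6) (nat_lit 6) (nat_lit 323) (nat_lit 230) r10_323 r8_230 (nat_lit 0) (nat_lit 0) (nat_lit 0) (nat_lit 0x7dd91db04c) (nat_lit 1056262896),
  Rx.mk (nat_lit 393) (nat_lit 1) (nat_lit 1) (nat_lit 6) (nat_lit 7) (nat_lit 325) (nat_lit 233) r10_325 r8_233 (nat_lit 0) (nat_lit 0) (nat_lit 0) (nat_lit 0x7df5994876) (nat_lit 1001650104),
  Rx.mk (nat_lit 394) (nat_lit 2) (nat_lit 1) (nat_lit 6) (nat_lit 7) (nat_lit 326) (nat_lit 239) r10_326 r8_239 (nat_lit 0) (nat_lit 0) (nat_lit 0) (nat_lit 0x7df0180090) (nat_lit 1012205376),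
  Rx.mk (nat_lit 402) (nat_lit 2) (nat_lit 2) (nat_lit 6) (nat_lit 7) (nat_lit 328) (nat_lit 240) r10_328 r8_240 (nat_lit 0) (nat_lit 0) (nat_lit 0) (nat_lit 0x7df39d4838) (nat_lit 1005454944)]
noncomputable def e27_45 : List Rx := [
  Rx.mk (nat_lit 386) (nat_lit 2) (nat_lit 0) (nat_lit 6) (nat_lit 5) (nat_lit 330) (nat_lit 216) r10_330 r8_216 (nat_lit 0) (nat_lit 0) (nat_lit 0) (nat_lit 0x7dca825a10) (nat_lit 1084269888),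
  Rx.mk (nat_lit 394) (nat_lit 2) (nat_lit 1) (nat_lit 6) (nat_lit 7) (nat_lit 331) (nat_lit 217) r10_331 r8_217 (nat_lit 0) (nat_lit 0) (nat_lit 0) (nat_lit 0x7dde527cfa) (nat_lit 1046280456),
  Rx.mk (nat_lit 402) (nat_lit 2) (nat_lit 2) (nat_lit 6) (nat_lit 7) (nat_lit 332) (nat_lit 218) r10_332 r8_218 (nat_lit 0) (nat_lit 0) (nat_lit 0) (nat_lit 0x7de88a996e) (nat_lit 1026686232)]
noncomputable def e27_46 : List Rx := [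
  Rx.mk (nat_lit 139) (nat_lit 3) (nat_lit 1) (nat_lit 2) (nat_lit 7) (nat_lit 357) (nat_lit 228) r10_357 r4_228 (nat_lit 0) (nat_lit 0) (nat_lit 0) (nat_lit 0x7e80048138) (nat_lit 736246368),
  Rx.mk (nat_lit 168) (nat_lit 0) (nat_lit 5) (nat_lit 2) (nat_lit 6) (nat_lit 358) (nat_lit 226) r10_358 r4_226 (nat_lit 0) (nat_lit 0) (nat_lit 0) (nat_lit 0x7adab11a14) (nat_lit 2525801616),
  Rx.mk (nat_lit 171) (nat_lit 3) (nat_lit 5) (nat_lit 2) (nat_lit 7) (nat_lit 359) (nat_lit 227) r10_359 r4_227 (nat_lit 0) (nat_lit 0) (nat_lit 0) (nat_lit 0x7e63204f98) (nat_lit 791642592)]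
noncomputable def e27_47 : List Rx := [
  Rx.mk (nat_lit 168) (nat_lit 0) (nat_lit 5) (nat_lit 2) (nat_lit 6) (nat_lit 353) (nat_lit 363) r10_353 r4_363 (nat_lit 0) (nat_lit 0) (nat_lit 0) (nat_lit 0x7e35dac41e) (nat_lit 878446296),
  Rx.mk (nat_lit 169) (nat_lit 1) (nat_lit 5) (nat_lit 2) (nat_lit 7) (nat_lit 354) (nat_lit 364) r10_354 r4_364 (nat_lit 0) (nat_lit 0) (nat_lit 0) (nat_lit 0x7df12eef20) (nat_lit 1010116224),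
  Rx.mk (nat_lit 171) (nat_lit 3) (nat_lit 5) (nat_lit 2) (nat_lit 7) (nat_lit 355) (nat_lit 365) r10_355 r4_365 (nat_lit 0) (nat_lit 0) (nat_lit 0) (nat_lit 0x7df06e3b2c) (nat_lit 1011559536)]
noncomputable def e27_48 : List Rx := [
  Rx.mk (nat_lit 139) (nat_lit 3) (nat_lit 1) (nat_lit 2) (nat_lit 7) (nat_lit 360) (nat_lit 243) r10_360 r9_243 (nat_lit 0) (nat_lit 0) (nat_lit 0) (nat_lit 0x7de3898984) (nat_lit 1036281168),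
  Rx.mk (nat_lit 168) (nat_lit 0) (nat_lit 5) (nat_lit 2) (nat_lit 6) (nat_lit 361) (nat_lit 240) r10_361 r9_240 (nat_lit 0) (nat_lit 0) (nat_lit 0) (nat_lit 0x7dee57fc92) (nat_lit 1015560936),
  Rx.mk (nat_lit 169) (nat_lit 1) (nat_lit 5) (nat_lit 2) (nat_lit 7) (nat_lit 362) (nat_lit 241) r10_362 r9_241 (nat_lit 0) (nat_lit 0) (nat_lit 0) (nat_lit 0x7dded7f4a2) (nat_lit 1045280808),
  Rx.mk (nat_lit 171) (nat_lit 3) (nat_lit 5) (nat_lit 2) (nat_lit 7) (nat_lit 363) (nat_lit 242) r10_363 r9_242 (nat_lit 0) (nat_lit 0) (nat_lit 0) (nat_lit 0x7de67cfa4a) (nat_lit 1030623048)]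
noncomputable def e27_49 : List Rx := [
  Rx.mk (nat_lit 168) (nat_lit 0) (nat_lit 5) (nat_lit 2) (nat_lit 6) (nat_lit 368) (nat_lit 281) r10_368 r10_281 (nat_lit 0) (nat_lit 0) (nat_lit 0) (nat_lit 0x7df1570c9e) (nat_lit 1009815768),
  Rx.mk (nat_lit 169) (nat_lit 1) (nat_lit 5) (nat_lit 2) (nat_lit 7) (nat_lit 369) (nat_lit 282) r10_369 r10_282 (nat_lit 0) (nat_lit 0) (nat_lit 0) (nat_lit 0x7df79428c6) (nat_lit 997853688),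
  Rx.mk (nat_lit 171) (nat_lit 3) (nat_lit 5) (nat_lit 2) (nat_lit 7) (nat_lit 370) (nat_lit 283) r10_370 r10_283 (nat_lit 0) (nat_lit 0) (nat_lit 0) (nat_lit 0x7df441ddee) (nat_lit 1004222232)]
noncomputable def e27_50 : List Rx := [
  Rx.mk (nat_lit 139) (nat_lit 3) (nat_lit 1) (nat_lit 2) (nat_lit 7) (nat_lit 364) (nat_lit 364) r10_364 r10_364 (nat_lit 0) (nat_lit 0) (nat_lit 0) (nat_lit 0x7dc8fcd26a) (nat_lit 1087187400),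
  Rx.mk (nat_lit 171) (nat_lit 3) (nat_lit 5) (nat_lit 2) (nat_lit 7) (nat_lit 365) (nat_lit 365) r10_365 r10_365 (nat_lit 0) (nat_lit 0) (nat_lit 0) (nat_lit 0x7d95a7e7ec) (nat_lit 1185610608)]
noncomputable def e27_51 : List Rx := [
  Rx.mk (nat_lit 36) (nat_lit 4) (nat_lit 4) (nat_lit 0) (nat_lit 0) (nat_lit 68) (nat_lit 202) r10_68 r12_202 (nat_lit 0) (nat_lit 0) (nat_lit 0) (nat_lit 0x4f8256cb14) (nat_lit 23801905296),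
  Rx.mk (nat_lit 39) (nat_lit 7) (nat_lit 4) (nat_lit 0) (nat_lit 1) (nat_lit 72) (nat_lit 212) r10_72 r12_212 (nat_lit 0) (nat_lit 0) (nat_lit 0) (nat_lit 0x6f899876f0) (nat_lit 8080682688),
  Rx.mk (nat_lit 44) (nat_lit 4) (nat_lit 5) (nat_lit 0) (nat_lit 2) (nat_lit 75) (nat_lit 206) r10_75 r12_206 (nat_lit 0) (nat_lit 0) (nat_lit 0) (nat_lit 0x762668e34c) (nat_lit 4834887408),
  Rx.mk (nat_lit 47) (nat_lit 7) (nat_lit 5) (nat_lit 0) (nat_lit 3) (nat_lit 78) (nat_lit 215) r10_78 r12_215 (nat_lit 0) (nat_lit 0) (nat_lit 0) (nat_lit 0x7e21a6277c) (nat_lit 917188272),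
  Rx.mk (nat_lit 52) (nat_lit 4) (nat_lit 6) (nat_lit 0) (nat_lit 2) (nat_lit 80) (nat_lit 209) r10_80 r12_209 (nat_lit 0) (nat_lit 0) (nat_lit 0) (nat_lit 0x76d6a79eb0) (nat_lit 4496955840),
  Rx.mk (nat_lit 54) (nat_lit 6) (nat_lit 6) (nat_lit 0) (nat_lit 3) (nat_lit 83) (nat_lit 222) r10_83 r12_222 (nat_lit 0) (nat_lit 0) (nat_lit 0) (nat_lit 0x7d8a287fee) (nat_lit 1207656216),
  Rx.mk (nat_lit 55) (nat_lit 7) (nat_lit 6) (nat_lit 0) (nat_lit 3) (nat_lit 86) (nat_lit 220) r10_86 r12_220 (nat_lit 0) (nat_lit 0) (nat_lit 0) (nat_lit 0x7e1455dc8e) (nat_lit 942715800),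
  Rx.mk (nat_lit 63) (nat_lit 7) (nat_lit 7) (nat_lit 0) (nat_lit 3) (nat_lit 88) (nat_lit 217) r10_88 r12_217 (nat_lit 0) (nat_lit 0) (nat_lit 0) (nat_lit 0x7d77f5e32a) (nat_lit 1242548424),
  Rx.mk (nat_lit 100) (nat_lit 4) (nat_lit 4) (nat_lit 1) (nat_lit 4) (nat_lit 69) (nat_lit 203) r10_69 r12_203 (nat_lit 0) (nat_lit 0) (nat_lit 0) (nat_lit 0x77191ff6e8) (nat_lit 4369506336),
  Rx.mk (nat_lit 103) (nat_lit 7) (nat_lit 4) (nat_lit 1) (nat_lit 5) (nat_lit 73) (nat_lit 213) r10_73 r12_213 (nat_lit 0) (nat_lit 0) (nat_lit 0) (nat_lit 0x7dc0395eaa) (nat_lit 1103990472),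
  Rx.mk (nat_lit 116) (nat_lit 4) (nat_lit 6) (nat_lit 1) (nat_lit 6) (nat_lit 81) (nat_lit 210) r10_81 r12_210 (nat_lit 0) (nat_lit 0) (nat_lit 0) (nat_lit 0x7dd00b217e) (nat_lit 1073658456),
  Rx.mk (nat_lit 118) (nat_lit 6) (nat_lit 6) (nat_lit 1) (nat_lit 7) (nat_lit 84) (nat_lit 223) r10_84 r12_223 (nat_lit 0) (nat_lit 0) (nat_lit 0) (nat_lit 0x7ddcad774c) (nat_lit 1049433840),
  Rx.mk (nat_lit 119) (nat_lit 7) (nat_lit 6) (nat_lit 1) (nat_lit 7) (nat_lit 87) (nat_lit 221) r10_87 r12_221 (nat_lit 0) (nat_lit 0) (nat_lit 0) (nat_lit 0x7df712d0dc) (nat_lit 998822448),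
  Rx.mk (nat_lit 127) (nat_lit 7) (nat_lit 7) (nat_lit 1) (nat_lit 7) (nat_lit 89) (nat_lit 218) r10_89 r12_218 (nat_lit 0) (nat_lit 0) (nat_lit 0) (nat_lit 0x7df35c0c4c) (nat_lit 1005943536),
  Rx.mk (nat_lit 164) (nat_lit 4) (nat_lit 4) (nat_lit 2) (nat_lit 4) (nat_lit 70) (nat_lit 205) r10_70 r12_205 (nat_lit 0) (nat_lit 0) (nat_lit 0) (nat_lit 0x749a460706) (nat_lit 5594437368),
  Rx.mk (nat_lit 167) (nat_lit 7) (nat_lit 4) (nat_lit 2) (nat_lit 5) (nat_lit 74) (nat_lit 214) r10_74 r12_214 (nat_lit 0) (nat_lit 0) (nat_lit 0) (nat_lit 0x7df140ee00) (nat_lit 1009981440),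
  Rx.mk (nat_lit 172) (nat_lit 4) (nat_lit 5) (nat_lit 2) (nat_lit 6) (nat_lit 76) (nat_lit 208) r10_76 r12_208 (nat_lit 0) (nat_lit 0) (nat_lit 0) (nat_lit 0x7df4fc9242) (nat_lit 1002823848),
  Rx.mk (nat_lit 175) (nat_lit 7) (nat_lit 5) (nat_lit 2) (nat_lit 7) (nat_lit 79) (nat_lit 216) r10_79 r12_216 (nat_lit 0) (nat_lit 0) (nat_lit 0) (nat_lit 0x7df9596c70) (nat_lit 994458816),
  Rx.mk (nat_lit 191) (nat_lit 7) (nat_lit 7) (nat_lit 2) (nat_lit 7) (nat_lit 90) (nat_lit 219) r10_90 r12_219 (nat_lit 0) (nat_lit 0) (nat_lit 0) (nat_lit 0x7df79428c6) (nat_lit 997853688),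
  Rx.mk (nat_lit 228) (nat_lit 4) (nat_lit 4) (nat_lit 3) (nat_lit 4) (nat_lit 71) (nat_lit 204) r10_71 r12_204 (nat_lit 0) (nat_lit 0) (nat_lit 0) (nat_lit 0x71d4c381f4) (nat_lit 6954848784),
  Rx.mk (nat_lit 236) (nat_lit 4) (nat_lit 5) (nat_lit 3) (nat_lit 6) (nat_lit 77) (nat_lit 207) r10_77 r12_207 (nat_lit 0) (nat_lit 0) (nat_lit 0) (nat_lit 0x7de5630bea) (nat_lit 1032734664),
  Rx.mk (nat_lit 244) (nat_lit 4) (nat_lit 6) (nat_lit 3) (nat_lit 6) (nat_lit 82) (nat_lit 211) r10_82 r12_211 (nat_lit 0) (nat_lit 0) (nat_lit 0) (nat_lit 0x7dc3830a0c) (nat_lit 1097686512),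
  Rx.mk (nat_lit 246) (nat_lit 6) (nat_lit 6) (nat_lit 3) (nat_lit 7) (nat_lit 85) (nat_lit 224) r10_85 r12_224 (nat_lit 0) (nat_lit 0) (nat_lit 0) (nat_lit 0x7ddf540ce0) (nat_lit 1044351360)]
noncomputable def e27_52 : List Rx := [
  Rx.mk (nat_lit 63) (nat_lit 7) (nat_lit 7) (nat_lit 0) (nat_lit 3) (nat_lit 16) (nat_lit 142) r10_16 r12_142 (nat_lit 0) (nat_lit 0) (nat_lit 0) (nat_lit 0x7d98a2d83a) (nat_lit 1179896328),
  Rx.mk (nat_lit 187) (nat_lit 3) (nat_lit 7) (nat_lit 2) (nat_lit 7) (nat_lit 15) (nat_lit 145) r10_15 r12_145 (nat_lit 0) (nat_lit 0) (nat_lit 0) (nat_lit 0x7eaff8e1c2) (nat_lit 644298408),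
  Rx.mk (nat_lit 191) (nat_lit 7) (nat_lit 7) (nat_lit 2) (nat_lit 7) (nat_lit 17) (nat_lit 144) r10_17 r12_144 (nat_lit 0) (nat_lit 0) (nat_lit 0) (nat_lit 0x7e4ff8222e) (nat_lit 828374040),
  Rx.mk (nat_lit 228) (nat_lit 4) (nat_lit 4) (nat_lit 3) (nat_lit 4) (nat_lit 9) (nat_lit 140) r10_9 r12_140 (nat_lit 0) (nat_lit 0) (nat_lit 0) (nat_lit 0x73e77d9440) (nat_lit 5937235200),
  Rx.mk (nat_lit 231) (nat_lit 7) (nat_lit 4) (nat_lit 3) (nat_lit 5) (nat_lit 10) (nat_lit 141) r10_10 r12_141 (nat_lit 0) (nat_lit 0) (nat_lit 0) (nat_lit 0x7eaac05550) (nat_lit 654308928),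
  Rx.mk (nat_lit 244) (nat_lit 4) (nat_lit 6) (nat_lit 3) (nat_lit 6) (nat_lit 11) (nat_lit 146) r10_11 r12_146 (nat_lit 0) (nat_lit 0) (nat_lit 0) (nat_lit 0x7e9f0970ca) (nat_lit 676770120),
  Rx.mk (nat_lit 246) (nat_lit 6) (nat_lit 6) (nat_lit 3) (nat_lit 7) (nat_lit 12) (nat_lit 149) r10_12 r12_149 (nat_lit 0) (nat_lit 0) (nat_lit 0) (nat_lit 0x7e3496186a) (nat_lit 880878024),
  Rx.mk (nat_lit 247) (nat_lit 7) (nat_lit 6) (nat_lit 3) (nat_lit 7) (nat_lit 14) (nat_lit 147) r10_14 r12_147 (nat_lit 0) (nat_lit 0) (nat_lit 0) (nat_lit 0x7ec4817924) (nat_lit 604927440),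
  Rx.mk (nat_lit 255) (nat_lit 7) (nat_lit 7) (nat_lit 3) (nat_lit 7) (nat_lit 18) (nat_lit 143) r10_18 r12_143 (nat_lit 0) (nat_lit 0) (nat_lit 0) (nat_lit 0x7e4d46ad48) (nat_lit 833537952),
  Rx.mk (nat_lit 502) (nat_lit 6) (nat_lit 6) (nat_lit 7) (nat_lit 7) (nat_lit 13) (nat_lit 148) r10_13 r12_148 (nat_lit 0) (nat_lit 0) (nat_lit 0) (nat_lit 0x7e96423d46) (nat_lit 693601272)]
noncomputable def e27_53 : List Rx := [
  Rx.mk (nat_lit 39) (nat_lit 7) (nat_lit 4) (nat_lit 0) (nat_lit 1) (nat_lit 273) (nat_lit 315) r10_273 r12_315 (nat_lit 0) (nat_lit 0) (nat_lit 0) (nat_lit 0x771b6bd228) (nat_lit 4365103392),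
  Rx.mk (nat_lit 47) (nat_lit 7) (nat_lit 5) (nat_lit 0) (nat_lit 3) (nat_lit 276) (nat_lit 316) r10_276 r12_316 (nat_lit 0) (nat_lit 0) (nat_lit 0) (nat_lit 0x7d971a50c4) (nat_lit 1182836304),
  Rx.mk (nat_lit 55) (nat_lit 7) (nat_lit 6) (nat_lit 0) (nat_lit 3) (nat_lit 279) (nat_lit 317) r10_279 r12_317 (nat_lit 0) (nat_lit 0) (nat_lit 0) (nat_lit 0x7dea0ba15c) (nat_lit 1023802416),
  Rx.mk (nat_lit 103) (nat_lit 7) (nat_lit 4) (nat_lit 1) (nat_lit 5) (nat_lit 274) (nat_lit 318) r10_274 r12_318 (nat_lit 0) (nat_lit 0) (nat_lit 0) (nat_lit 0x7d6315f13e) (nat_lit 1282573656),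
  Rx.mk (nat_lit 111) (nat_lit 7) (nat_lit 5) (nat_lit 1) (nat_lit 7) (nat_lit 277) (nat_lit 319) r10_277 r12_319 (nat_lit 0) (nat_lit 0) (nat_lit 0) (nat_lit 0x7e00b1f6e0) (nat_lit 980373888),
  Rx.mk (nat_lit 119) (nat_lit 7) (nat_lit 6) (nat_lit 1) (nat_lit 7) (nat_lit 280) (nat_lit 320) r10_280 r12_320 (nat_lit 0) (nat_lit 0) (nat_lit 0) (nat_lit 0x7de5e7c39e) (nat_lit 1031740632),
  Rx.mk (nat_lit 167) (nat_lit 7) (nat_lit 4) (nat_lit 2) (nat_lit 5) (nat_lit 275) (nat_lit 321) r10_275 r12_321 (nat_lit 0) (nat_lit 0) (nat_lit 0) (nat_lit 0x7dd6261fc8) (nat_lit 1061951904),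
  Rx.mk (nat_lit 175) (nat_lit 7) (nat_lit 5) (nat_lit 2) (nat_lit 7) (nat_lit 278) (nat_lit 322) r10_278 r12_322 (nat_lit 0) (nat_lit 0) (nat_lit 0) (nat_lit 0x7ddda307f2) (nat_lit 1047594600)]
noncomputable def e27_54 : List Rx := [
  Rx.mk (nat_lit 187) (nat_lit 3) (nat_lit 7) (nat_lit 2) (nat_lit 7) (nat_lit 265) (nat_lit 230) r10_265 r12_230 (nat_lit 0) (nat_lit 0) (nat_lit 0) (nat_lit 0x7ee7b225f6) (nat_lit 537454008)]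
noncomputable def e27_55 : List Rx := [
  Rx.mk (nat_lit 168) (nat_lit 0) (nat_lit 5) (nat_lit 2) (nat_lit 6) (nat_lit 351) (nat_lit 220) r10_351 r3_220 (nat_lit 0) (nat_lit 0) (nat_lit 0) (nat_lit 0x7ae9e266f0) (nat_lit 2496671424),
  Rx.mk (nat_lit 171) (nat_lit 3) (nat_lit 5) (nat_lit 2) (nat_lit 7) (nat_lit 352) (nat_lit 221) r10_352 r3_221 (nat_lit 0) (nat_lit 0) (nat_lit 0) (nat_lit 0x7fe8167eb0) (nat_lit 45849024)]
noncomputable def e27_56 : List Rx := [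
  Rx.mk (nat_lit 168) (nat_lit 0) (nat_lit 5) (nat_lit 2) (nat_lit 6) (nat_lit 366) (nat_lit 240) r10_366 r12_240 (nat_lit 0) (nat_lit 0) (nat_lit 0) (nat_lit 0x7e373cadfe) (nat_lit 875795544),
  Rx.mk (nat_lit 171) (nat_lit 3) (nat_lit 5) (nat_lit 2) (nat_lit 7) (nat_lit 367) (nat_lit 241) r10_367 r12_241 (nat_lit 0) (nat_lit 0) (nat_lit 0) (nat_lit 0x7ee6adf63a) (nat_lit 539402760)]
noncomputable def e27_57 : List Rx := [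
  Rx.mk (nat_lit 171) (nat_lit 3) (nat_lit 5) (nat_lit 2) (nat_lit 7) (nat_lit 356) (nat_lit 309) r10_356 r12_309 (nat_lit 0) (nat_lit 0) (nat_lit 0) (nat_lit 0x7f0597e77c) (nat_lit 480128688)]
noncomputable def e27 : List (List Rx) := [e27_0, e27_1, e27_2, e27_3, e27_4, e27_5, e27_6, e27_7, e27_8, e27_9, e27_10, e27_11, e27_12, e27_13, e27_14, e27_15, e27_16, e27_17, e27_18, e27_19, e27_20, e27_21, e27_22, e27_23, e27_24, e27_25, e27_26, e27_27, e27_28, e27_29, e27_30, e27_31, e27_32, e27_33, e27_34, e27_35, e27_36, e27_37, e27_38, e27_39, e27_40, e27_41, e27_42, e27_43, e27_44, e27_45, e27_46, e27_47, e27_48, e27_49, e27_50, e27_51, e27_52, e27_53, e27_54, e27_55, e27_56, e27_57]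
noncomputable def e28_0 : List Rx := [
  Rx.mk (nat_lit 2) (nat_lit 2) (nat_lit 0) (nat_lit 0) (nat_lit 1) (nat_lit 91) (nat_lit 212) r10_91 r0_212 (nat_lit 0) (nat_lit 0) (nat_lit 0) (nat_lit 0x41b494b504) (nat_lit 30577519440),
  Rx.mk (nat_lit 6) (nat_lit 6) (nat_lit 0) (nat_lit 0) (nat_lit 1) (nat_lit 92) (nat_lit 219) r10_92 r0_219 (nat_lit 0) (nat_lit 0) (nat_lit 0) (nat_lit 0x4965c57a46) (nat_lit 26801801208),
  Rx.mk (nat_lit 22) (nat_lit 6) (nat_lit 2) (nat_lit 0) (nat_lit 3) (nat_lit 93) (nat_lit 220) r10_93 r0_220 (nat_lit 0) (nat_lit 0) (nat_lit 0) (nat_lit 0x7d5dec63dc) (nat_lit 1292471856),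
  Rx.mk (nat_lit 148) (nat_lit 4) (nat_lit 2) (nat_lit 2) (nat_lit 6) (nat_lit 94) (nat_lit 215) r10_94 r0_215 (nat_lit 0) (nat_lit 0) (nat_lit 0) (nat_lit 0x7d78b51736) (nat_lit 1241116344),
  Rx.mk (nat_lit 150) (nat_lit 6) (nat_lit 2) (nat_lit 2) (nat_lit 7) (nat_lit 95) (nat_lit 221) r10_95 r0_221 (nat_lit 0) (nat_lit 0) (nat_lit 0) (nat_lit 0x7e428d38ea) (nat_lit 854100936),
  Rx.mk (nat_lit 180) (nat_lit 4) (nat_lit 6) (nat_lit 2) (nat_lit 6) (nat_lit 96) (nat_lit 216) r10_96 r0_216 (nat_lit 0) (nat_lit 0) (nat_lit 0) (nat_lit 0x7de857fc98) (nat_lit 1027065312),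
  Rx.mk (nat_lit 194) (nat_lit 2) (nat_lit 0) (nat_lit 3) (nat_lit 5) (nat_lit 97) (nat_lit 213) r10_97 r0_213 (nat_lit 0) (nat_lit 0) (nat_lit 0) (nat_lit 0x78034c9334) (nat_lit 3920501520),
  Rx.mk (nat_lit 218) (nat_lit 2) (nat_lit 3) (nat_lit 3) (nat_lit 7) (nat_lit 98) (nat_lit 214) r10_98 r0_214 (nat_lit 0) (nat_lit 0) (nat_lit 0) (nat_lit 0x7e314d2cfc) (nat_lit 887176368),
  Rx.mk (nat_lit 436) (nat_lit 4) (nat_lit 6) (nat_lit 6) (nat_lit 6) (nat_lit 99) (nat_lit 217) r10_99 r0_217 (nat_lit 0) (nat_lit 0) (nat_lit 0) (nat_lit 0x7c2f7ecbe4) (nat_lit 1872346320),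
  Rx.mk (nat_lit 439) (nat_lit 7) (nat_lit 6) (nat_lit 6) (nat_lit 7) (nat_lit 100) (nat_lit 218) r10_100 r0_218 (nat_lit 0) (nat_lit 0) (nat_lit 0) (nat_lit 0x7e0bdd0424) (nat_lit 958960080)]
noncomputable def e28_1 : List Rx := [
  Rx.mk (nat_lit 2) (nat_lit 2) (nat_lit 0) (nat_lit 0) (nat_lit 1) (nat_lit 107) (nat_lit 234) r10_107 r1_234 (nat_lit 0) (nat_lit 0) (nat_lit 0) (nat_lit 0x79f253e0d0) (nat_lit 2971335744),
  Rx.mk (nat_lit 6) (nat_lit 6) (nat_lit 0) (nat_lit 0) (nat_lit 1) (nat_lit 108) (nat_lit 237) r10_108 r1_237 (nat_lit 0) (nat_lit 0) (nat_lit 0) (nat_lit 0x6afa16f398) (nat_lit 10319253984),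
  Rx.mk (nat_lit 22) (nat_lit 6) (nat_lit 2) (nat_lit 0) (nat_lit 3) (nat_lit 109) (nat_lit 238) r10_109 r1_238 (nat_lit 0) (nat_lit 0) (nat_lit 0) (nat_lit 0x7dd597a8b0) (nat_lit 1063018944),
  Rx.mk (nat_lit 150) (nat_lit 6) (nat_lit 2) (nat_lit 2) (nat_lit 7) (nat_lit 110) (nat_lit 239) r10_110 r1_239 (nat_lit 0) (nat_lit 0) (nat_lit 0) (nat_lit 0x7de4773aa8) (nat_lit 1034500896),
  Rx.mk (nat_lit 194) (nat_lit 2) (nat_lit 0) (nat_lit 3) (nat_lit 5) (nat_lit 111) (nat_lit 235) r10_111 r1_235 (nat_lit 0) (nat_lit 0) (nat_lit 0) (nat_lit 0x7de322cff0) (nat_lit 1037050560),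
  Rx.mk (nat_lit 218) (nat_lit 2) (nat_lit 3) (nat_lit 3) (nat_lit 7) (nat_lit 112) (nat_lit 236) r10_112 r1_236 (nat_lit 0) (nat_lit 0) (nat_lit 0) (nat_lit 0x7e36429da0) (nat_lit 877668480)]
noncomputable def e28_2 : List Rx := [
  Rx.mk (nat_lit 2) (nat_lit 2) (nat_lit 0) (nat_lit 0) (nat_lit 1) (nat_lit 308) (nat_lit 241) r10_308 r2_241 (nat_lit 0) (nat_lit 0) (nat_lit 0) (nat_lit 0x6a7892cc5c) (nat_lit 10567587888),
  Rx.mk (nat_lit 6) (nat_lit 6) (nat_lit 0) (nat_lit 0) (nat_lit 1) (nat_lit 309) (nat_lit 246) r10_309 r2_246 (nat_lit 0) (nat_lit 0) (nat_lit 0) (nat_lit 0x66e4917006) (nat_lit 12323932920),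
  Rx.mk (nat_lit 22) (nat_lit 6) (nat_lit 2) (nat_lit 0) (nat_lit 3) (nat_lit 310) (nat_lit 248) r10_310 r2_248 (nat_lit 0) (nat_lit 0) (nat_lit 0) (nat_lit 0x7dd287b9b2) (nat_lit 1068890472),
  Rx.mk (nat_lit 26) (nat_lit 2) (nat_lit 3) (nat_lit 0) (nat_lit 3) (nat_lit 311) (nat_lit 243) r10_311 r2_243 (nat_lit 0) (nat_lit 0) (nat_lit 0) (nat_lit 0x7dc32e4f58) (nat_lit 1098321120),
  Rx.mk (nat_lit 66) (nat_lit 2) (nat_lit 0) (nat_lit 1) (nat_lit 5) (nat_lit 312) (nat_lit 242) r10_312 r2_242 (nat_lit 0) (nat_lit 0) (nat_lit 0) (nat_lit 0x7dda7c9a5c) (nat_lit 1053634608),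
  Rx.mk (nat_lit 70) (nat_lit 6) (nat_lit 0) (nat_lit 1) (nat_lit 5) (nat_lit 313) (nat_lit 247) r10_313 r2_247 (nat_lit 0) (nat_lit 0) (nat_lit 0) (nat_lit 0x7dd88cf958) (nat_lit 1057346784),
  Rx.mk (nat_lit 86) (nat_lit 6) (nat_lit 2) (nat_lit 1) (nat_lit 7) (nat_lit 314) (nat_lit 249) r10_314 r2_249 (nat_lit 0) (nat_lit 0) (nat_lit 0) (nat_lit 0x7dd90551d2) (nat_lit 1056445416),
  Rx.mk (nat_lit 90) (nat_lit 2) (nat_lit 3) (nat_lit 1) (nat_lit 7) (nat_lit 315) (nat_lit 244) r10_315 r2_244 (nat_lit 0) (nat_lit 0) (nat_lit 0) (nat_lit 0x7de6ab7762) (nat_lit 1030274856),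
  Rx.mk (nat_lit 150) (nat_lit 6) (nat_lit 2) (nat_lit 2) (nat_lit 7) (nat_lit 316) (nat_lit 250) r10_316 r2_250 (nat_lit 0) (nat_lit 0) (nat_lit 0) (nat_lit 0x7df6d8b47e) (nat_lit 999257688),
  Rx.mk (nat_lit 218) (nat_lit 2) (nat_lit 3) (nat_lit 3) (nat_lit 7) (nat_lit 317) (nat_lit 245) r10_317 r2_245 (nat_lit 0) (nat_lit 0) (nat_lit 0) (nat_lit 0x7df7510cf8) (nat_lit 998356320)]
noncomputable def e28_3 : List Rx := [
  Rx.mk (nat_lit 439) (nat_lit 7) (nat_lit 6) (nat_lit 6) (nat_lit 7) (nat_lit 6) (nat_lit 212) r10_6 r3_212 (nat_lit 0) (nat_lit 0) (nat_lit 0) (nat_lit 0x7f829c56b8) (nat_lit 240420960),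
  Rx.mk (nat_lit 474) (nat_lit 2) (nat_lit 3) (nat_lit 7) (nat_lit 7) (nat_lit 7) (nat_lit 211) r10_7 r3_211 (nat_lit 0) (nat_lit 0) (nat_lit 0) (nat_lit 0x7fc79746c4) (nat_lit 108158544)]
noncomputable def e28_4 : List Rx := [
  Rx.mk (nat_lit 6) (nat_lit 6) (nat_lit 0) (nat_lit 0) (nat_lit 1) (nat_lit 125) (nat_lit 212) r10_125 r4_212 (nat_lit 0) (nat_lit 0) (nat_lit 0) (nat_lit 0x704a4c6af0) (nat_lit 7711194816),
  Rx.mk (nat_lit 22) (nat_lit 6) (nat_lit 2) (nat_lit 0) (nat_lit 3) (nat_lit 126) (nat_lit 214) r10_126 r4_214 (nat_lit 0) (nat_lit 0) (nat_lit 0) (nat_lit 0x7bb067ddd2) (nat_lit 2116027368),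
  Rx.mk (nat_lit 148) (nat_lit 4) (nat_lit 2) (nat_lit 2) (nat_lit 6) (nat_lit 127) (nat_lit 208) r10_127 r4_208 (nat_lit 0) (nat_lit 0) (nat_lit 0) (nat_lit 0x72c34b188c) (nat_lit 6497492976),
  Rx.mk (nat_lit 150) (nat_lit 6) (nat_lit 2) (nat_lit 2) (nat_lit 7) (nat_lit 128) (nat_lit 216) r10_128 r4_216 (nat_lit 0) (nat_lit 0) (nat_lit 0) (nat_lit 0x7d9fcc8598) (nat_lit 1166162400),
  Rx.mk (nat_lit 180) (nat_lit 4) (nat_lit 6) (nat_lit 2) (nat_lit 6) (nat_lit 129) (nat_lit 209) r10_129 r4_209 (nat_lit 0) (nat_lit 0) (nat_lit 0) (nat_lit 0x757b9df0a6) (nat_lit 5162364792),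
  Rx.mk (nat_lit 183) (nat_lit 7) (nat_lit 6) (nat_lit 2) (nat_lit 7) (nat_lit 130) (nat_lit 210) r10_130 r4_210 (nat_lit 0) (nat_lit 0) (nat_lit 0) (nat_lit 0x7e50fdd1d2) (nat_lit 826414056),
  Rx.mk (nat_lit 194) (nat_lit 2) (nat_lit 0) (nat_lit 3) (nat_lit 5) (nat_lit 131) (nat_lit 205) r10_131 r4_205 (nat_lit 0) (nat_lit 0) (nat_lit 0) (nat_lit 0x7227e22fb6) (nat_lit 6795475128),
  Rx.mk (nat_lit 198) (nat_lit 6) (nat_lit 0) (nat_lit 3) (nat_lit 5) (nat_lit 132) (nat_lit 213) r10_132 r4_213 (nat_lit 0) (nat_lit 0) (nat_lit 0) (nat_lit 0x77d5fc8862) (nat_lit 4007383848),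
  Rx.mk (nat_lit 214) (nat_lit 6) (nat_lit 2) (nat_lit 3) (nat_lit 7) (nat_lit 133) (nat_lit 215) r10_133 r4_215 (nat_lit 0) (nat_lit 0) (nat_lit 0) (nat_lit 0x7e0de80372) (nat_lit 955042920),
  Rx.mk (nat_lit 218) (nat_lit 2) (nat_lit 3) (nat_lit 3) (nat_lit 7) (nat_lit 134) (nat_lit 206) r10_134 r4_206 (nat_lit 0) (nat_lit 0) (nat_lit 0) (nat_lit 0x7dc3644bf8) (nat_lit 1097916768),
  Rx.mk (nat_lit 439) (nat_lit 7) (nat_lit 6) (nat_lit 6) (nat_lit 7) (nat_lit 135) (nat_lit 211) r10_135 r4_211 (nat_lit 0) (nat_lit 0) (nat_lit 0) (nat_lit 0x7df1c665a8) (nat_lit 1008981792),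
  Rx.mk (nat_lit 474) (nat_lit 2) (nat_lit 3) (nat_lit 7) (nat_lit 7) (nat_lit 136) (nat_lit 207) r10_136 r4_207 (nat_lit 0) (nat_lit 0) (nat_lit 0) (nat_lit 0x7e23aee6ee) (nat_lit 913287960)]
noncomputable def e28_5 : List Rx := [
  Rx.mk (nat_lit 322) (nat_lit 2) (nat_lit 0) (nat_lit 5) (nat_lit 5) (nat_lit 351) (nat_lit 220) r10_351 r3_220 (nat_lit 0) (nat_lit 0) (nat_lit 0) (nat_lit 0x7ae9e266f0) (nat_lit 2496671424),
  Rx.mk (nat_lit 346) (nat_lit 2) (nat_lit 3) (nat_lit 5) (nat_lit 7) (nat_lit 352) (nat_lit 221) r10_352 r3_221 (nat_lit 0) (nat_lit 0) (nat_lit 0) (nat_lit 0x7fe8167eb0) (nat_lit 45849024)]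
noncomputable def e28_6 : List Rx := [
  Rx.mk (nat_lit 66) (nat_lit 2) (nat_lit 0) (nat_lit 1) (nat_lit 5) (nat_lit 300) (nat_lit 226) r10_300 r0_226 (nat_lit 0) (nat_lit 0) (nat_lit 0) (nat_lit 0x7dddc22600) (nat_lit 1047361536),
  Rx.mk (nat_lit 90) (nat_lit 2) (nat_lit 3) (nat_lit 1) (nat_lit 7) (nat_lit 301) (nat_lit 227) r10_301 r0_227 (nat_lit 0) (nat_lit 0) (nat_lit 0) (nat_lit 0x7e9ab5f606) (nat_lit 685064952),
  Rx.mk (nat_lit 322) (nat_lit 2) (nat_lit 0) (nat_lit 5) (nat_lit 5) (nat_lit 302) (nat_lit 225) r10_302 r0_225 (nat_lit 0) (nat_lit 0) (nat_lit 0) (nat_lit 0x7c7d384ffe) (nat_lit 1723317336)]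
noncomputable def e28_7 : List Rx := [
  Rx.mk (nat_lit 66) (nat_lit 2) (nat_lit 0) (nat_lit 1) (nat_lit 5) (nat_lit 333) (nat_lit 244) r10_333 r1_244 (nat_lit 0) (nat_lit 0) (nat_lit 0) (nat_lit 0x7dc4b676d4) (nat_lit 1095383952),
  Rx.mk (nat_lit 90) (nat_lit 2) (nat_lit 3) (nat_lit 1) (nat_lit 7) (nat_lit 334) (nat_lit 245) r10_334 r1_245 (nat_lit 0) (nat_lit 0) (nat_lit 0) (nat_lit 0x7e352a8f22) (nat_lit 879766056)]
noncomputable def e28_8 : List Rx := [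
  Rx.mk (nat_lit 90) (nat_lit 2) (nat_lit 3) (nat_lit 1) (nat_lit 7) (nat_lit 357) (nat_lit 228) r10_357 r4_228 (nat_lit 0) (nat_lit 0) (nat_lit 0) (nat_lit 0x7e80048138) (nat_lit 736246368),
  Rx.mk (nat_lit 322) (nat_lit 2) (nat_lit 0) (nat_lit 5) (nat_lit 5) (nat_lit 358) (nat_lit 226) r10_358 r4_226 (nat_lit 0) (nat_lit 0) (nat_lit 0) (nat_lit 0x7adab11a14) (nat_lit 2525801616),
  Rx.mk (nat_lit 346) (nat_lit 2) (nat_lit 3) (nat_lit 5) (nat_lit 7) (nat_lit 359) (nat_lit 227) r10_359 r4_227 (nat_lit 0) (nat_lit 0) (nat_lit 0) (nat_lit 0x7e63204f98) (nat_lit 791642592)]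
noncomputable def e28_9 : List Rx := [
  Rx.mk (nat_lit 282) (nat_lit 2) (nat_lit 3) (nat_lit 4) (nat_lit 3) (nat_lit 284) (nat_lit 241) r10_284 r5_241 (nat_lit 0) (nat_lit 0) (nat_lit 0) (nat_lit 0x7e9ce972cc) (nat_lit 680844528),
  Rx.mk (nat_lit 346) (nat_lit 2) (nat_lit 3) (nat_lit 5) (nat_lit 7) (nat_lit 285) (nat_lit 242) r10_285 r5_242 (nat_lit 0) (nat_lit 0) (nat_lit 0) (nat_lit 0x7eb3926826) (nat_lit 637396344),
  Rx.mk (nat_lit 474) (nat_lit 2) (nat_lit 3) (nat_lit 7) (nat_lit 7) (nat_lit 286) (nat_lit 243) r10_286 r5_243 (nat_lit 0) (nat_lit 0) (nat_lit 0) (nat_lit 0x7eba8a38a2) (nat_lit 624035880)]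
noncomputable def e28_10 : List Rx := [
  Rx.mk (nat_lit 436) (nat_lit 4) (nat_lit 6) (nat_lit 6) (nat_lit 6) (nat_lit 0) (nat_lit 152) r10_0 r0_152 (nat_lit 0) (nat_lit 0) (nat_lit 0) (nat_lit 0x7e1794a89e) (nat_lit 936493272),
  Rx.mk (nat_lit 439) (nat_lit 7) (nat_lit 6) (nat_lit 6) (nat_lit 7) (nat_lit 1) (nat_lit 153) r10_1 r0_153 (nat_lit 0) (nat_lit 0) (nat_lit 0) (nat_lit 0x7df4465da6) (nat_lit 1004188536)]
noncomputable def e28_11 : List Rx := [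
  Rx.mk (nat_lit 22) (nat_lit 6) (nat_lit 2) (nat_lit 0) (nat_lit 3) (nat_lit 101) (nat_lit 278) r10_101 r6_278 (nat_lit 0) (nat_lit 0) (nat_lit 0) (nat_lit 0x7de93d0e46) (nat_lit 1025349624),
  Rx.mk (nat_lit 148) (nat_lit 4) (nat_lit 2) (nat_lit 2) (nat_lit 6) (nat_lit 102) (nat_lit 274) r10_102 r6_274 (nat_lit 0) (nat_lit 0) (nat_lit 0) (nat_lit 0x7d8f376efa) (nat_lit 1197957384),
  Rx.mk (nat_lit 150) (nat_lit 6) (nat_lit 2) (nat_lit 2) (nat_lit 7) (nat_lit 103) (nat_lit 279) r10_103 r6_279 (nat_lit 0) (nat_lit 0) (nat_lit 0) (nat_lit 0x7df1366ea8) (nat_lit 1010060064),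
  Rx.mk (nat_lit 180) (nat_lit 4) (nat_lit 6) (nat_lit 2) (nat_lit 6) (nat_lit 104) (nat_lit 275) r10_104 r6_275 (nat_lit 0) (nat_lit 0) (nat_lit 0) (nat_lit 0x7dd6555cd4) (nat_lit 1061598096),
  Rx.mk (nat_lit 436) (nat_lit 4) (nat_lit 6) (nat_lit 6) (nat_lit 6) (nat_lit 105) (nat_lit 276) r10_105 r6_276 (nat_lit 0) (nat_lit 0) (nat_lit 0) (nat_lit 0x7d9e0ce194) (nat_lit 1169515152),
  Rx.mk (nat_lit 439) (nat_lit 7) (nat_lit 6) (nat_lit 6) (nat_lit 7) (nat_lit 106) (nat_lit 277) r10_106 r6_277 (nat_lit 0) (nat_lit 0) (nat_lit 0) (nat_lit 0x7da1502d5c) (nat_lit 1163258928)]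
noncomputable def e28_12 : List Rx := [
  Rx.mk (nat_lit 436) (nat_lit 4) (nat_lit 6) (nat_lit 6) (nat_lit 6) (nat_lit 2) (nat_lit 166) r10_2 r1_166 (nat_lit 0) (nat_lit 0) (nat_lit 0) (nat_lit 0x7d62cfd5a0) (nat_lit 1283098752),
  Rx.mk (nat_lit 437) (nat_lit 5) (nat_lit 6) (nat_lit 6) (nat_lit 7) (nat_lit 3) (nat_lit 167) r10_3 r1_167 (nat_lit 0) (nat_lit 0) (nat_lit 0) (nat_lit 0x7dfa55bcaa) (nat_lit 992569032),
  Rx.mk (nat_lit 439) (nat_lit 7) (nat_lit 6) (nat_lit 6) (nat_lit 7) (nat_lit 4) (nat_lit 168) r10_4 r1_168 (nat_lit 0) (nat_lit 0) (nat_lit 0) (nat_lit 0x7ddc34bed8) (nat_lit 1050338016)]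
noncomputable def e28_13 : List Rx := [
  Rx.mk (nat_lit 148) (nat_lit 4) (nat_lit 2) (nat_lit 2) (nat_lit 6) (nat_lit 115) (nat_lit 206) r10_115 r7_206 (nat_lit 0) (nat_lit 0) (nat_lit 0) (nat_lit 0x7d7cc21662) (nat_lit 1233349416),
  Rx.mk (nat_lit 149) (nat_lit 5) (nat_lit 2) (nat_lit 2) (nat_lit 7) (nat_lit 116) (nat_lit 209) r10_116 r7_209 (nat_lit 0) (nat_lit 0) (nat_lit 0) (nat_lit 0x7deb46eda6) (nat_lit 1021440888),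
  Rx.mk (nat_lit 150) (nat_lit 6) (nat_lit 2) (nat_lit 2) (nat_lit 7) (nat_lit 117) (nat_lit 213) r10_117 r7_213 (nat_lit 0) (nat_lit 0) (nat_lit 0) (nat_lit 0x7df08459ca) (nat_lit 1011393864),
  Rx.mk (nat_lit 180) (nat_lit 4) (nat_lit 6) (nat_lit 2) (nat_lit 6) (nat_lit 118) (nat_lit 207) r10_118 r7_207 (nat_lit 0) (nat_lit 0) (nat_lit 0) (nat_lit 0x7dcad2f506) (nat_lit 1083666168),
  Rx.mk (nat_lit 181) (nat_lit 5) (nat_lit 6) (nat_lit 2) (nat_lit 7) (nat_lit 119) (nat_lit 210) r10_119 r7_210 (nat_lit 0) (nat_lit 0) (nat_lit 0) (nat_lit 0x7de6733ae6) (nat_lit 1030696056),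
  Rx.mk (nat_lit 436) (nat_lit 4) (nat_lit 6) (nat_lit 6) (nat_lit 6) (nat_lit 120) (nat_lit 208) r10_120 r7_208 (nat_lit 0) (nat_lit 0) (nat_lit 0) (nat_lit 0x7da81b00a8) (nat_lit 1150235424),
  Rx.mk (nat_lit 437) (nat_lit 5) (nat_lit 6) (nat_lit 6) (nat_lit 7) (nat_lit 121) (nat_lit 211) r10_121 r7_211 (nat_lit 0) (nat_lit 0) (nat_lit 0) (nat_lit 0x7df45c7c44) (nat_lit 1004022864),
  Rx.mk (nat_lit 439) (nat_lit 7) (nat_lit 6) (nat_lit 6) (nat_lit 7) (nat_lit 122) (nat_lit 212) r10_122 r7_212 (nat_lit 0) (nat_lit 0) (nat_lit 0) (nat_lit 0x7dd511d10e) (nat_lit 1064021400)]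
noncomputable def e28_14 : List Rx := [
  Rx.mk (nat_lit 22) (nat_lit 6) (nat_lit 2) (nat_lit 0) (nat_lit 3) (nat_lit 113) (nat_lit 157) r10_113 r7_157 (nat_lit 0) (nat_lit 0) (nat_lit 0) (nat_lit 0x7dd4373eb8) (nat_lit 1065658464),
  Rx.mk (nat_lit 150) (nat_lit 6) (nat_lit 2) (nat_lit 2) (nat_lit 7) (nat_lit 114) (nat_lit 158) r10_114 r7_158 (nat_lit 0) (nat_lit 0) (nat_lit 0) (nat_lit 0x7deba267ee) (nat_lit 1020755736)]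
noncomputable def e28_15 : List Rx := [
  Rx.mk (nat_lit 22) (nat_lit 6) (nat_lit 2) (nat_lit 0) (nat_lit 3) (nat_lit 330) (nat_lit 216) r10_330 r8_216 (nat_lit 0) (nat_lit 0) (nat_lit 0) (nat_lit 0x7dca825a10) (nat_lit 1084269888),
  Rx.mk (nat_lit 86) (nat_lit 6) (nat_lit 2) (nat_lit 1) (nat_lit 7) (nat_lit 331) (nat_lit 217) r10_331 r8_217 (nat_lit 0) (nat_lit 0) (nat_lit 0) (nat_lit 0x7dde527cfa) (nat_lit 1046280456),
  Rx.mk (nat_lit 150) (nat_lit 6) (nat_lit 2) (nat_lit 2) (nat_lit 7) (nat_lit 332) (nat_lit 218) r10_332 r8_218 (nat_lit 0) (nat_lit 0) (nat_lit 0) (nat_lit 0x7de88a996e) (nat_lit 1026686232)]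
noncomputable def e28_16 : List Rx := [
  Rx.mk (nat_lit 439) (nat_lit 7) (nat_lit 6) (nat_lit 6) (nat_lit 7) (nat_lit 8) (nat_lit 143) r10_8 r4_143 (nat_lit 0) (nat_lit 0) (nat_lit 0) (nat_lit 0x7dd7d8a49e) (nat_lit 1058697432)]
noncomputable def e28_17 : List Rx := [
  Rx.mk (nat_lit 22) (nat_lit 6) (nat_lit 2) (nat_lit 0) (nat_lit 3) (nat_lit 137) (nat_lit 222) r10_137 r9_222 (nat_lit 0) (nat_lit 0) (nat_lit 0) (nat_lit 0x7df2fc7246) (nat_lit 1006659576),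
  Rx.mk (nat_lit 148) (nat_lit 4) (nat_lit 2) (nat_lit 2) (nat_lit 6) (nat_lit 138) (nat_lit 218) r10_138 r9_218 (nat_lit 0) (nat_lit 0) (nat_lit 0) (nat_lit 0x7dcdcae584) (nat_lit 1077974352),
  Rx.mk (nat_lit 150) (nat_lit 6) (nat_lit 2) (nat_lit 2) (nat_lit 7) (nat_lit 139) (nat_lit 224) r10_139 r9_224 (nat_lit 0) (nat_lit 0) (nat_lit 0) (nat_lit 0x7df79428c6) (nat_lit 997853688),
  Rx.mk (nat_lit 180) (nat_lit 4) (nat_lit 6) (nat_lit 2) (nat_lit 6) (nat_lit 140) (nat_lit 219) r10_140 r9_219 (nat_lit 0) (nat_lit 0) (nat_lit 0) (nat_lit 0x7dcfb546dc) (nat_lit 1074301488),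
  Rx.mk (nat_lit 183) (nat_lit 7) (nat_lit 6) (nat_lit 2) (nat_lit 7) (nat_lit 141) (nat_lit 220) r10_141 r9_220 (nat_lit 0) (nat_lit 0) (nat_lit 0) (nat_lit 0x7dfd420de2) (nat_lit 986964264),
  Rx.mk (nat_lit 214) (nat_lit 6) (nat_lit 2) (nat_lit 3) (nat_lit 7) (nat_lit 142) (nat_lit 223) r10_142 r9_223 (nat_lit 0) (nat_lit 0) (nat_lit 0) (nat_lit 0x7df03efe20) (nat_lit 1011913344),
  Rx.mk (nat_lit 439) (nat_lit 7) (nat_lit 6) (nat_lit 6) (nat_lit 7) (nat_lit 143) (nat_lit 221) r10_143 r9_221 (nat_lit 0) (nat_lit 0) (nat_lit 0) (nat_lit 0x7dd40501dc) (nat_lit 1066034736)]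
noncomputable def e28_18 : List Rx := []
noncomputable def e28_19 : List Rx := [
  Rx.mk (nat_lit 2) (nat_lit 2) (nat_lit 0) (nat_lit 0) (nat_lit 1) (nat_lit 318) (nat_lit 231) r10_318 r8_231 (nat_lit 0) (nat_lit 0) (nat_lit 0) (nat_lit 0x74c5e86cb4) (nat_lit 5510773008),
  Rx.mk (nat_lit 6) (nat_lit 6) (nat_lit 0) (nat_lit 0) (nat_lit 1) (nat_lit 319) (nat_lit 229) r10_319 r8_229 (nat_lit 0) (nat_lit 0) (nat_lit 0) (nat_lit 0x76844a04dc) (nat_lit 4654883376),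
  Rx.mk (nat_lit 22) (nat_lit 6) (nat_lit 2) (nat_lit 0) (nat_lit 3) (nat_lit 320) (nat_lit 238) r10_320 r8_238 (nat_lit 0) (nat_lit 0) (nat_lit 0) (nat_lit 0x7db5be8662) (nat_lit 1124084520),
  Rx.mk (nat_lit 26) (nat_lit 2) (nat_lit 3) (nat_lit 0) (nat_lit 3) (nat_lit 321) (nat_lit 235) r10_321 r8_235 (nat_lit 0) (nat_lit 0) (nat_lit 0) (nat_lit 0x7de41b006c) (nat_lit 1035191664),
  Rx.mk (nat_lit 66) (nat_lit 2) (nat_lit 0) (nat_lit 1) (nat_lit 5) (nat_lit 322) (nat_lit 232) r10_322 r8_232 (nat_lit 0) (nat_lit 0) (nat_lit 0) (nat_lit 0x7de5ce4536) (nat_lit 1031931576),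
  Rx.mk (nat_lit 70) (nat_lit 6) (nat_lit 0) (nat_lit 1) (nat_lit 5) (nat_lit 323) (nat_lit 230) r10_323 r8_230 (nat_lit 0) (nat_lit 0) (nat_lit 0) (nat_lit 0x7dd91db04c) (nat_lit 1056262896),
  Rx.mk (nat_lit 74) (nat_lit 2) (nat_lit 1) (nat_lit 1) (nat_lit 7) (nat_lit 324) (nat_lit 234) r10_324 r8_234 (nat_lit 0) (nat_lit 0) (nat_lit 0) (nat_lit 0x7deef3f2d2) (nat_lit 1014392808),
  Rx.mk (nat_lit 78) (nat_lit 6) (nat_lit 1) (nat_lit 1) (nat_lit 7) (nat_lit 325) (nat_lit 233) r10_325 r8_233 (nat_lit 0) (nat_lit 0) (nat_lit 0) (nat_lit 0x7df5994876) (nat_lit 1001650104),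
  Rx.mk (nat_lit 86) (nat_lit 6) (nat_lit 2) (nat_lit 1) (nat_lit 7) (nat_lit 326) (nat_lit 239) r10_326 r8_239 (nat_lit 0) (nat_lit 0) (nat_lit 0) (nat_lit 0x7df0180090) (nat_lit 1012205376),
  Rx.mk (nat_lit 90) (nat_lit 2) (nat_lit 3) (nat_lit 1) (nat_lit 7) (nat_lit 327) (nat_lit 236) r10_327 r8_236 (nat_lit 0) (nat_lit 0) (nat_lit 0) (nat_lit 0x7dcf8f693a) (nat_lit 1074585096),
  Rx.mk (nat_lit 150) (nat_lit 6) (nat_lit 2) (nat_lit 2) (nat_lit 7) (nat_lit 328) (nat_lit 240) r10_328 r8_240 (nat_lit 0) (nat_lit 0) (nat_lit 0) (nat_lit 0x7df39d4838) (nat_lit 1005454944),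
  Rx.mk (nat_lit 218) (nat_lit 2) (nat_lit 3) (nat_lit 3) (nat_lit 7) (nat_lit 329) (nat_lit 237) r10_329 r8_237 (nat_lit 0) (nat_lit 0) (nat_lit 0) (nat_lit 0x7df16d2b3c) (nat_lit 1009650096)]
noncomputable def e28_20 : List Rx := [
  Rx.mk (nat_lit 322) (nat_lit 2) (nat_lit 0) (nat_lit 5) (nat_lit 5) (nat_lit 298) (nat_lit 327) r10_298 r0_327 (nat_lit 0) (nat_lit 0) (nat_lit 0) (nat_lit 0x7e2b75aa7a) (nat_lit 898377480),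
  Rx.mk (nat_lit 330) (nat_lit 2) (nat_lit 1) (nat_lit 5) (nat_lit 7) (nat_lit 299) (nat_lit 328) r10_299 r0_328 (nat_lit 0) (nat_lit 0) (nat_lit 0) (nat_lit 0x7df79428c6) (nat_lit 997853688)]
noncomputable def e28_21 : List Rx := [
  Rx.mk (nat_lit 330) (nat_lit 2) (nat_lit 1) (nat_lit 5) (nat_lit 7) (nat_lit 338) (nat_lit 309) r10_338 r1_309 (nat_lit 0) (nat_lit 0) (nat_lit 0) (nat_lit 0x7df8d574b0) (nat_lit 995447232)]
noncomputable def e28_22 : List Rx := [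
  Rx.mk (nat_lit 322) (nat_lit 2) (nat_lit 0) (nat_lit 5) (nat_lit 5) (nat_lit 353) (nat_lit 363) r10_353 r4_363 (nat_lit 0) (nat_lit 0) (nat_lit 0) (nat_lit 0x7e35dac41e) (nat_lit 878446296),
  Rx.mk (nat_lit 330) (nat_lit 2) (nat_lit 1) (nat_lit 5) (nat_lit 7) (nat_lit 354) (nat_lit 364) r10_354 r4_364 (nat_lit 0) (nat_lit 0) (nat_lit 0) (nat_lit 0x7df12eef20) (nat_lit 1010116224),
  Rx.mk (nat_lit 346) (nat_lit 2) (nat_lit 3) (nat_lit 5) (nat_lit 7) (nat_lit 355) (nat_lit 365) r10_355 r4_365 (nat_lit 0) (nat_lit 0) (nat_lit 0) (nat_lit 0x7df06e3b2c) (nat_lit 1011559536)]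
noncomputable def e28_23 : List Rx := [
  Rx.mk (nat_lit 66) (nat_lit 2) (nat_lit 0) (nat_lit 1) (nat_lit 5) (nat_lit 303) (nat_lit 289) r10_303 r6_289 (nat_lit 0) (nat_lit 0) (nat_lit 0) (nat_lit 0x7de1356ec8) (nat_lit 1040745888),
  Rx.mk (nat_lit 74) (nat_lit 2) (nat_lit 1) (nat_lit 1) (nat_lit 7) (nat_lit 304) (nat_lit 291) r10_304 r6_291 (nat_lit 0) (nat_lit 0) (nat_lit 0) (nat_lit 0x7df52a4f66) (nat_lit 1002481272),
  Rx.mk (nat_lit 90) (nat_lit 2) (nat_lit 3) (nat_lit 1) (nat_lit 7) (nat_lit 305) (nat_lit 292) r10_305 r6_292 (nat_lit 0) (nat_lit 0) (nat_lit 0) (nat_lit 0x7dcf9d485c) (nat_lit 1074481200),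
  Rx.mk (nat_lit 322) (nat_lit 2) (nat_lit 0) (nat_lit 5) (nat_lit 5) (nat_lit 306) (nat_lit 288) r10_306 r6_288 (nat_lit 0) (nat_lit 0) (nat_lit 0) (nat_lit 0x7de08359ea) (nat_lit 1042079688),
  Rx.mk (nat_lit 330) (nat_lit 2) (nat_lit 1) (nat_lit 5) (nat_lit 7) (nat_lit 307) (nat_lit 290) r10_307 r6_290 (nat_lit 0) (nat_lit 0) (nat_lit 0) (nat_lit 0x7de6505d14) (nat_lit 1030957200)]
noncomputable def e28_24 : List Rx := [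
  Rx.mk (nat_lit 74) (nat_lit 2) (nat_lit 1) (nat_lit 1) (nat_lit 7) (nat_lit 343) (nat_lit 220) r10_343 r7_220 (nat_lit 0) (nat_lit 0) (nat_lit 0) (nat_lit 0x7de0f07318) (nat_lit 1041262560),
  Rx.mk (nat_lit 330) (nat_lit 2) (nat_lit 1) (nat_lit 5) (nat_lit 7) (nat_lit 344) (nat_lit 219) r10_344 r7_219 (nat_lit 0) (nat_lit 0) (nat_lit 0) (nat_lit 0x7de8ed3344) (nat_lit 1025947728)]
noncomputable def e28_25 : List Rx := [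
  Rx.mk (nat_lit 66) (nat_lit 2) (nat_lit 0) (nat_lit 1) (nat_lit 5) (nat_lit 335) (nat_lit 358) r10_335 r7_358 (nat_lit 0) (nat_lit 0) (nat_lit 0) (nat_lit 0x7de88259f2) (nat_lit 1026748008),
  Rx.mk (nat_lit 74) (nat_lit 2) (nat_lit 1) (nat_lit 1) (nat_lit 7) (nat_lit 336) (nat_lit 359) r10_336 r7_359 (nat_lit 0) (nat_lit 0) (nat_lit 0) (nat_lit 0x7de822bfec) (nat_lit 1027464048),
  Rx.mk (nat_lit 90) (nat_lit 2) (nat_lit 3) (nat_lit 1) (nat_lit 7) (nat_lit 337) (nat_lit 360) r10_337 r7_360 (nat_lit 0) (nat_lit 0) (nat_lit 0) (nat_lit 0x7df139ce72) (nat_lit 1010034792)]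
noncomputable def e28_26 : List Rx := [
  Rx.mk (nat_lit 90) (nat_lit 2) (nat_lit 3) (nat_lit 1) (nat_lit 7) (nat_lit 360) (nat_lit 243) r10_360 r9_243 (nat_lit 0) (nat_lit 0) (nat_lit 0) (nat_lit 0x7de3898984) (nat_lit 1036281168),
  Rx.mk (nat_lit 322) (nat_lit 2) (nat_lit 0) (nat_lit 5) (nat_lit 5) (nat_lit 361) (nat_lit 240) r10_361 r9_240 (nat_lit 0) (nat_lit 0) (nat_lit 0) (nat_lit 0x7dee57fc92) (nat_lit 1015560936),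
  Rx.mk (nat_lit 330) (nat_lit 2) (nat_lit 1) (nat_lit 5) (nat_lit 7) (nat_lit 362) (nat_lit 241) r10_362 r9_241 (nat_lit 0) (nat_lit 0) (nat_lit 0) (nat_lit 0x7dded7f4a2) (nat_lit 1045280808),
  Rx.mk (nat_lit 346) (nat_lit 2) (nat_lit 3) (nat_lit 5) (nat_lit 7) (nat_lit 363) (nat_lit 242) r10_363 r9_242 (nat_lit 0) (nat_lit 0) (nat_lit 0) (nat_lit 0x7de67cfa4a) (nat_lit 1030623048)]
noncomputable def e28_27 : List Rx := [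
  Rx.mk (nat_lit 322) (nat_lit 2) (nat_lit 0) (nat_lit 5) (nat_lit 5) (nat_lit 368) (nat_lit 281) r10_368 r10_281 (nat_lit 0) (nat_lit 0) (nat_lit 0) (nat_lit 0x7df1570c9e) (nat_lit 1009815768),
  Rx.mk (nat_lit 330) (nat_lit 2) (nat_lit 1) (nat_lit 5) (nat_lit 7) (nat_lit 369) (nat_lit 282) r10_369 r10_282 (nat_lit 0) (nat_lit 0) (nat_lit 0) (nat_lit 0x7df79428c6) (nat_lit 997853688),
  Rx.mk (nat_lit 346) (nat_lit 2) (nat_lit 3) (nat_lit 5) (nat_lit 7) (nat_lit 370) (nat_lit 283) r10_370 r10_283 (nat_lit 0) (nat_lit 0) (nat_lit 0) (nat_lit 0x7df441ddee) (nat_lit 1004222232)]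
noncomputable def e28_28 : List Rx := [
  Rx.mk (nat_lit 6) (nat_lit 6) (nat_lit 0) (nat_lit 0) (nat_lit 1) (nat_lit 144) (nat_lit 154) r10_144 r10_154 (nat_lit 0) (nat_lit 0) (nat_lit 0) (nat_lit 0x5b3d173352) (nat_lit 18044441064),
  Rx.mk (nat_lit 22) (nat_lit 6) (nat_lit 2) (nat_lit 0) (nat_lit 3) (nat_lit 145) (nat_lit 155) r10_145 r10_155 (nat_lit 0) (nat_lit 0) (nat_lit 0) (nat_lit 0x7a843d21aa) (nat_lit 2691566280),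
  Rx.mk (nat_lit 148) (nat_lit 4) (nat_lit 2) (nat_lit 2) (nat_lit 6) (nat_lit 146) (nat_lit 161) r10_146 r10_161 (nat_lit 0) (nat_lit 0) (nat_lit 0) (nat_lit 0x78062ec50e) (nat_lit 3914972568),
  Rx.mk (nat_lit 150) (nat_lit 6) (nat_lit 2) (nat_lit 2) (nat_lit 7) (nat_lit 147) (nat_lit 163) r10_147 r10_163 (nat_lit 0) (nat_lit 0) (nat_lit 0) (nat_lit 0x7d37d32596) (nat_lit 1365521976),
  Rx.mk (nat_lit 151) (nat_lit 7) (nat_lit 2) (nat_lit 2) (nat_lit 7) (nat_lit 148) (nat_lit 162) r10_148 r10_162 (nat_lit 0) (nat_lit 0) (nat_lit 0) (nat_lit 0x7d31852a7c) (nat_lit 1377610416),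
  Rx.mk (nat_lit 183) (nat_lit 7) (nat_lit 6) (nat_lit 2) (nat_lit 7) (nat_lit 149) (nat_lit 160) r10_149 r10_160 (nat_lit 0) (nat_lit 0) (nat_lit 0) (nat_lit 0x7d4d14f164) (nat_lit 1324763856),
  Rx.mk (nat_lit 198) (nat_lit 6) (nat_lit 0) (nat_lit 3) (nat_lit 5) (nat_lit 150) (nat_lit 156) r10_150 r10_156 (nat_lit 0) (nat_lit 0) (nat_lit 0) (nat_lit 0x7b7fa54a2c) (nat_lit 2209519728),
  Rx.mk (nat_lit 214) (nat_lit 6) (nat_lit 2) (nat_lit 3) (nat_lit 7) (nat_lit 151) (nat_lit 159) r10_151 r10_159 (nat_lit 0) (nat_lit 0) (nat_lit 0) (nat_lit 0x7e01d184e6) (nat_lit 978220152),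
  Rx.mk (nat_lit 218) (nat_lit 2) (nat_lit 3) (nat_lit 3) (nat_lit 7) (nat_lit 152) (nat_lit 158) r10_152 r10_158 (nat_lit 0) (nat_lit 0) (nat_lit 0) (nat_lit 0x77e99d6e40) (nat_lit 3969748224),
  Rx.mk (nat_lit 222) (nat_lit 6) (nat_lit 3) (nat_lit 3) (nat_lit 7) (nat_lit 153) (nat_lit 157) r10_153 r10_157 (nat_lit 0) (nat_lit 0) (nat_lit 0) (nat_lit 0x7d97b22746) (nat_lit 1181699064),
  Rx.mk (nat_lit 291) (nat_lit 3) (nat_lit 4) (nat_lit 4) (nat_lit 1) (nat_lit 154) (nat_lit 144) r10_154 r10_144 (nat_lit 0) (nat_lit 0) (nat_lit 0) (nat_lit 0x5b3d173352) (nat_lit 18044441064),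
  Rx.mk (nat_lit 315) (nat_lit 3) (nat_lit 7) (nat_lit 4) (nat_lit 3) (nat_lit 155) (nat_lit 145) r10_155 r10_145 (nat_lit 0) (nat_lit 0) (nat_lit 0) (nat_lit 0x7a843d21aa) (nat_lit 2691566280),
  Rx.mk (nat_lit 419) (nat_lit 3) (nat_lit 4) (nat_lit 6) (nat_lit 5) (nat_lit 156) (nat_lit 150) r10_156 r10_150 (nat_lit 0) (nat_lit 0) (nat_lit 0) (nat_lit 0x7b7fa54a2c) (nat_lit 2209519728),
  Rx.mk (nat_lit 435) (nat_lit 3) (nat_lit 6) (nat_lit 6) (nat_lit 7) (nat_lit 157) (nat_lit 153) r10_157 r10_153 (nat_lit 0) (nat_lit 0) (nat_lit 0) (nat_lit 0x7d97b22746) (nat_lit 1181699064),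
  Rx.mk (nat_lit 439) (nat_lit 7) (nat_lit 6) (nat_lit 6) (nat_lit 7) (nat_lit 158) (nat_lit 152) r10_158 r10_152 (nat_lit 0) (nat_lit 0) (nat_lit 0) (nat_lit 0x77e99d6e40) (nat_lit 3969748224),
  Rx.mk (nat_lit 443) (nat_lit 3) (nat_lit 7) (nat_lit 6) (nat_lit 7) (nat_lit 159) (nat_lit 151) r10_159 r10_151 (nat_lit 0) (nat_lit 0) (nat_lit 0) (nat_lit 0x7e01d184e6) (nat_lit 978220152),
  Rx.mk (nat_lit 474) (nat_lit 2) (nat_lit 3) (nat_lit 7) (nat_lit 7) (nat_lit 160) (nat_lit 149) r10_160 r10_149 (nat_lit 0) (nat_lit 0) (nat_lit 0) (nat_lit 0x7d4d14f164) (nat_lit 1324763856),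
  Rx.mk (nat_lit 504) (nat_lit 0) (nat_lit 7) (nat_lit 7) (nat_lit 6) (nat_lit 161) (nat_lit 146) r10_161 r10_146 (nat_lit 0) (nat_lit 0) (nat_lit 0) (nat_lit 0x78062ec50e) (nat_lit 3914972568),
  Rx.mk (nat_lit 506) (nat_lit 2) (nat_lit 7) (nat_lit 7) (nat_lit 7) (nat_lit 162) (nat_lit 148) r10_162 r10_148 (nat_lit 0) (nat_lit 0) (nat_lit 0) (nat_lit 0x7d31852a7c) (nat_lit 1377610416),
  Rx.mk (nat_lit 507) (nat_lit 3) (nat_lit 7) (nat_lit 7) (nat_lit 7) (nat_lit 163) (nat_lit 147) r10_163 r10_147 (nat_lit 0) (nat_lit 0) (nat_lit 0) (nat_lit 0x7d37d32596) (nat_lit 1365521976)]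
noncomputable def e28_29 : List Rx := [
  Rx.mk (nat_lit 282) (nat_lit 2) (nat_lit 3) (nat_lit 4) (nat_lit 3) (nat_lit 266) (nat_lit 371) r10_266 r5_371 (nat_lit 0) (nat_lit 0) (nat_lit 0) (nat_lit 0x7ed4e452e6) (nat_lit 573508728),
  Rx.mk (nat_lit 312) (nat_lit 0) (nat_lit 7) (nat_lit 4) (nat_lit 2) (nat_lit 267) (nat_lit 367) r10_267 r5_367 (nat_lit 0) (nat_lit 0) (nat_lit 0) (nat_lit 0x79a5149512) (nat_lit 3119449320),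
  Rx.mk (nat_lit 314) (nat_lit 2) (nat_lit 7) (nat_lit 4) (nat_lit 3) (nat_lit 268) (nat_lit 370) r10_268 r5_370 (nat_lit 0) (nat_lit 0) (nat_lit 0) (nat_lit 0x7e095e2c14) (nat_lit 963744912),
  Rx.mk (nat_lit 346) (nat_lit 2) (nat_lit 3) (nat_lit 5) (nat_lit 7) (nat_lit 269) (nat_lit 373) r10_269 r5_373 (nat_lit 0) (nat_lit 0) (nat_lit 0) (nat_lit 0x7eb07799d6) (nat_lit 643349304),
  Rx.mk (nat_lit 376) (nat_lit 0) (nat_lit 7) (nat_lit 5) (nat_lit 6) (nat_lit 270) (nat_lit 368) r10_270 r5_368 (nat_lit 0) (nat_lit 0) (nat_lit 0) (nat_lit 0x7e01da245c) (nat_lit 978155568),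
  Rx.mk (nat_lit 378) (nat_lit 2) (nat_lit 7) (nat_lit 5) (nat_lit 7) (nat_lit 271) (nat_lit 372) r10_271 r5_372 (nat_lit 0) (nat_lit 0) (nat_lit 0) (nat_lit 0x7df4315ef6) (nat_lit 1004345784),
  Rx.mk (nat_lit 440) (nat_lit 0) (nat_lit 7) (nat_lit 6) (nat_lit 6) (nat_lit 272) (nat_lit 369) r10_272 r5_369 (nat_lit 0) (nat_lit 0) (nat_lit 0) (nat_lit 0x7df2dd5438) (nat_lit 1006892640)]
noncomputable def e28_30 : List Rx := [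
  Rx.mk (nat_lit 90) (nat_lit 2) (nat_lit 3) (nat_lit 1) (nat_lit 7) (nat_lit 364) (nat_lit 364) r10_364 r10_364 (nat_lit 0) (nat_lit 0) (nat_lit 0) (nat_lit 0x7dc8fcd26a) (nat_lit 1087187400),
  Rx.mk (nat_lit 346) (nat_lit 2) (nat_lit 3) (nat_lit 5) (nat_lit 7) (nat_lit 365) (nat_lit 365) r10_365 r10_365 (nat_lit 0) (nat_lit 0) (nat_lit 0) (nat_lit 0x7d95a7e7ec) (nat_lit 1185610608)]
noncomputable def e28_31 : List Rx := [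
  Rx.mk (nat_lit 291) (nat_lit 3) (nat_lit 4) (nat_lit 4) (nat_lit 1) (nat_lit 53) (nat_lit 224) r10_53 r5_224 (nat_lit 0) (nat_lit 0) (nat_lit 0) (nat_lit 0x7b5c1d42d0) (nat_lit 2277647424),
  Rx.mk (nat_lit 312) (nat_lit 0) (nat_lit 7) (nat_lit 4) (nat_lit 2) (nat_lit 54) (nat_lit 227) r10_54 r5_227 (nat_lit 0) (nat_lit 0) (nat_lit 0) (nat_lit 0x75b5e9ebac) (nat_lit 5050586736),
  Rx.mk (nat_lit 314) (nat_lit 2) (nat_lit 7) (nat_lit 4) (nat_lit 3) (nat_lit 55) (nat_lit 229) r10_55 r5_229 (nat_lit 0) (nat_lit 0) (nat_lit 0) (nat_lit 0x7d9fc50610) (nat_lit 1166218560),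
  Rx.mk (nat_lit 315) (nat_lit 3) (nat_lit 7) (nat_lit 4) (nat_lit 3) (nat_lit 56) (nat_lit 228) r10_56 r5_228 (nat_lit 0) (nat_lit 0) (nat_lit 0) (nat_lit 0x7e2b4d2d02) (nat_lit 898680744),
  Rx.mk (nat_lit 355) (nat_lit 3) (nat_lit 4) (nat_lit 5) (nat_lit 5) (nat_lit 57) (nat_lit 225) r10_57 r5_225 (nat_lit 0) (nat_lit 0) (nat_lit 0) (nat_lit 0x7d9ee59408) (nat_lit 1167892128),
  Rx.mk (nat_lit 376) (nat_lit 0) (nat_lit 7) (nat_lit 5) (nat_lit 6) (nat_lit 58) (nat_lit 230) r10_58 r5_230 (nat_lit 0) (nat_lit 0) (nat_lit 0) (nat_lit 0x7de6df9420) (nat_lit 1029884544),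
  Rx.mk (nat_lit 378) (nat_lit 2) (nat_lit 7) (nat_lit 5) (nat_lit 7) (nat_lit 59) (nat_lit 232) r10_59 r5_232 (nat_lit 0) (nat_lit 0) (nat_lit 0) (nat_lit 0x7df1199076) (nat_lit 1010276280),
  Rx.mk (nat_lit 379) (nat_lit 3) (nat_lit 7) (nat_lit 5) (nat_lit 7) (nat_lit 60) (nat_lit 231) r10_60 r5_231 (nat_lit 0) (nat_lit 0) (nat_lit 0) (nat_lit 0x7df675baae) (nat_lit 999999000),
  Rx.mk (nat_lit 419) (nat_lit 3) (nat_lit 4) (nat_lit 6) (nat_lit 5) (nat_lit 61) (nat_lit 226) r10_61 r5_226 (nat_lit 0) (nat_lit 0) (nat_lit 0) (nat_lit 0x7df4237fd4) (nat_lit 1004449680),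
  Rx.mk (nat_lit 435) (nat_lit 3) (nat_lit 6) (nat_lit 6) (nat_lit 7) (nat_lit 62) (nat_lit 237) r10_62 r5_237 (nat_lit 0) (nat_lit 0) (nat_lit 0) (nat_lit 0x7df4675b96) (nat_lit 1003941432),
  Rx.mk (nat_lit 440) (nat_lit 0) (nat_lit 7) (nat_lit 6) (nat_lit 6) (nat_lit 63) (nat_lit 235) r10_63 r5_235 (nat_lit 0) (nat_lit 0) (nat_lit 0) (nat_lit 0x7dd58429e8) (nat_lit 1063164960),
  Rx.mk (nat_lit 443) (nat_lit 3) (nat_lit 7) (nat_lit 6) (nat_lit 7) (nat_lit 64) (nat_lit 236) r10_64 r5_236 (nat_lit 0) (nat_lit 0) (nat_lit 0) (nat_lit 0x7ddaeb3372) (nat_lit 1052806248),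
  Rx.mk (nat_lit 474) (nat_lit 2) (nat_lit 3) (nat_lit 7) (nat_lit 7) (nat_lit 65) (nat_lit 223) r10_65 r5_223 (nat_lit 0) (nat_lit 0) (nat_lit 0) (nat_lit 0x7eb9830916) (nat_lit 626007096),
  Rx.mk (nat_lit 504) (nat_lit 0) (nat_lit 7) (nat_lit 7) (nat_lit 6) (nat_lit 66) (nat_lit 233) r10_66 r5_233 (nat_lit 0) (nat_lit 0) (nat_lit 0) (nat_lit 0x7db1f38316) (nat_lit 1131357240),
  Rx.mk (nat_lit 506) (nat_lit 2) (nat_lit 7) (nat_lit 7) (nat_lit 7) (nat_lit 67) (nat_lit 234) r10_67 r5_234 (nat_lit 0) (nat_lit 0) (nat_lit 0) (nat_lit 0x7dc21520ec) (nat_lit 1100427120)]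
noncomputable def e28_32 : List Rx := [
  Rx.mk (nat_lit 282) (nat_lit 2) (nat_lit 3) (nat_lit 4) (nat_lit 3) (nat_lit 287) (nat_lit 253) r10_287 r11_253 (nat_lit 0) (nat_lit 0) (nat_lit 0) (nat_lit 0x7eeaa716a4) (nat_lit 531784656),
  Rx.mk (nat_lit 312) (nat_lit 0) (nat_lit 7) (nat_lit 4) (nat_lit 2) (nat_lit 288) (nat_lit 247) r10_288 r11_247 (nat_lit 0) (nat_lit 0) (nat_lit 0) (nat_lit 0x73c76ed54c) (nat_lit 5998702320),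
  Rx.mk (nat_lit 314) (nat_lit 2) (nat_lit 7) (nat_lit 4) (nat_lit 3) (nat_lit 289) (nat_lit 256) r10_289 r11_256 (nat_lit 0) (nat_lit 0) (nat_lit 0) (nat_lit 0x7d45698c22) (nat_lit 1339469352),
  Rx.mk (nat_lit 315) (nat_lit 3) (nat_lit 7) (nat_lit 4) (nat_lit 3) (nat_lit 290) (nat_lit 250) r10_290 r11_250 (nat_lit 0) (nat_lit 0) (nat_lit 0) (nat_lit 0x7e5f76aa36) (nat_lit 798665400),
  Rx.mk (nat_lit 346) (nat_lit 2) (nat_lit 3) (nat_lit 5) (nat_lit 7) (nat_lit 291) (nat_lit 254) r10_291 r11_254 (nat_lit 0) (nat_lit 0) (nat_lit 0) (nat_lit 0x7ed7099090) (nat_lit 569395008),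
  Rx.mk (nat_lit 376) (nat_lit 0) (nat_lit 7) (nat_lit 5) (nat_lit 6) (nat_lit 292) (nat_lit 248) r10_292 r11_248 (nat_lit 0) (nat_lit 0) (nat_lit 0) (nat_lit 0x7dd14ded50) (nat_lit 1071240768),
  Rx.mk (nat_lit 378) (nat_lit 2) (nat_lit 7) (nat_lit 5) (nat_lit 7) (nat_lit 293) (nat_lit 257) r10_293 r11_257 (nat_lit 0) (nat_lit 0) (nat_lit 0) (nat_lit 0x7df4f75296) (nat_lit 1002863160),
  Rx.mk (nat_lit 379) (nat_lit 3) (nat_lit 7) (nat_lit 5) (nat_lit 7) (nat_lit 294) (nat_lit 251) r10_294 r11_251 (nat_lit 0) (nat_lit 0) (nat_lit 0) (nat_lit 0x7df4cdb530) (nat_lit 1003174848),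
  Rx.mk (nat_lit 440) (nat_lit 0) (nat_lit 7) (nat_lit 6) (nat_lit 6) (nat_lit 295) (nat_lit 249) r10_295 r11_249 (nat_lit 0) (nat_lit 0) (nat_lit 0) (nat_lit 0x7d8b3fce78) (nat_lit 1205564256),
  Rx.mk (nat_lit 443) (nat_lit 3) (nat_lit 7) (nat_lit 6) (nat_lit 7) (nat_lit 296) (nat_lit 252) r10_296 r11_252 (nat_lit 0) (nat_lit 0) (nat_lit 0) (nat_lit 0x7def628be8) (nat_lit 1013564448),
  Rx.mk (nat_lit 474) (nat_lit 2) (nat_lit 3) (nat_lit 7) (nat_lit 7) (nat_lit 297) (nat_lit 255) r10_297 r11_255 (nat_lit 0) (nat_lit 0) (nat_lit 0) (nat_lit 0x7ed6cb5474) (nat_lit 569861136)]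
noncomputable def e28_33 : List Rx := [
  Rx.mk (nat_lit 288) (nat_lit 0) (nat_lit 4) (nat_lit 4) (nat_lit 0) (nat_lit 165) (nat_lit 341) r10_165 r0_341 (nat_lit 0) (nat_lit 0) (nat_lit 0) (nat_lit 0x2d7a01d26e) (nat_lit 40506896664),
  Rx.mk (nat_lit 289) (nat_lit 1) (nat_lit 4) (nat_lit 4) (nat_lit 1) (nat_lit 166) (nat_lit 348) r10_166 r0_348 (nat_lit 0) (nat_lit 0) (nat_lit 0) (nat_lit 0x7a5f28731a) (nat_lit 2762664840),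
  Rx.mk (nat_lit 290) (nat_lit 2) (nat_lit 4) (nat_lit 4) (nat_lit 1) (nat_lit 167) (nat_lit 355) r10_167 r0_355 (nat_lit 0) (nat_lit 0) (nat_lit 0) (nat_lit 0x7cc600e32c) (nat_lit 1583762544),
  Rx.mk (nat_lit 296) (nat_lit 0) (nat_lit 5) (nat_lit 4) (nat_lit 2) (nat_lit 168) (nat_lit 342) r10_168 r0_342 (nat_lit 0) (nat_lit 0) (nat_lit 0) (nat_lit 0x7aa5ac4a96) (nat_lit 2627459640),
  Rx.mk (nat_lit 297) (nat_lit 1) (nat_lit 5) (nat_lit 4) (nat_lit 3) (nat_lit 169) (nat_lit 349) r10_169 r0_349 (nat_lit 0) (nat_lit 0) (nat_lit 0) (nat_lit 0x7dda7f3a32) (nat_lit 1053614952),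
  Rx.mk (nat_lit 298) (nat_lit 2) (nat_lit 5) (nat_lit 4) (nat_lit 3) (nat_lit 170) (nat_lit 356) r10_170 r0_356 (nat_lit 0) (nat_lit 0) (nat_lit 0) (nat_lit 0x7df00ea126) (nat_lit 1012275576),
  Rx.mk (nat_lit 352) (nat_lit 0) (nat_lit 4) (nat_lit 5) (nat_lit 4) (nat_lit 171) (nat_lit 343) r10_171 r0_343 (nat_lit 0) (nat_lit 0) (nat_lit 0) (nat_lit 0x79a5a2ac30) (nat_lit 3118385088),
  Rx.mk (nat_lit 353) (nat_lit 1) (nat_lit 4) (nat_lit 5) (nat_lit 5) (nat_lit 172) (nat_lit 350) r10_172 r0_350 (nat_lit 0) (nat_lit 0) (nat_lit 0) (nat_lit 0x7dd895f8c8) (nat_lit 1057279392),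
  Rx.mk (nat_lit 354) (nat_lit 2) (nat_lit 4) (nat_lit 5) (nat_lit 5) (nat_lit 173) (nat_lit 357) r10_173 r0_357 (nat_lit 0) (nat_lit 0) (nat_lit 0) (nat_lit 0x7e5a0a0106) (nat_lit 809066232),
  Rx.mk (nat_lit 360) (nat_lit 0) (nat_lit 5) (nat_lit 5) (nat_lit 6) (nat_lit 174) (nat_lit 344) r10_174 r0_344 (nat_lit 0) (nat_lit 0) (nat_lit 0) (nat_lit 0x7df905d1aa) (nat_lit 995085000),
  Rx.mk (nat_lit 361) (nat_lit 1) (nat_lit 5) (nat_lit 5) (nat_lit 7) (nat_lit 175) (nat_lit 351) r10_175 r0_351 (nat_lit 0) (nat_lit 0) (nat_lit 0) (nat_lit 0x7df9cda52c) (nat_lit 993588336),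
  Rx.mk (nat_lit 362) (nat_lit 2) (nat_lit 5) (nat_lit 5) (nat_lit 7) (nat_lit 176) (nat_lit 358) r10_176 r0_358 (nat_lit 0) (nat_lit 0) (nat_lit 0) (nat_lit 0x7ea0391dce) (nat_lit 674495640),
  Rx.mk (nat_lit 416) (nat_lit 0) (nat_lit 4) (nat_lit 6) (nat_lit 4) (nat_lit 177) (nat_lit 345) r10_177 r0_345 (nat_lit 0) (nat_lit 0) (nat_lit 0) (nat_lit 0x7b95ea25c8) (nat_lit 2166821280),
  Rx.mk (nat_lit 417) (nat_lit 1) (nat_lit 4) (nat_lit 6) (nat_lit 5) (nat_lit 178) (nat_lit 352) r10_178 r0_352 (nat_lit 0) (nat_lit 0) (nat_lit 0) (nat_lit 0x7df5b266e4) (nat_lit 1001461968),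
  Rx.mk (nat_lit 424) (nat_lit 0) (nat_lit 5) (nat_lit 6) (nat_lit 6) (nat_lit 179) (nat_lit 346) r10_179 r0_346 (nat_lit 0) (nat_lit 0) (nat_lit 0) (nat_lit 0x7deff222ee) (nat_lit 1012488984),
  Rx.mk (nat_lit 425) (nat_lit 1) (nat_lit 5) (nat_lit 6) (nat_lit 7) (nat_lit 180) (nat_lit 353) r10_180 r0_353 (nat_lit 0) (nat_lit 0) (nat_lit 0) (nat_lit 0x7dee0dc136) (nat_lit 1016116920),
  Rx.mk (nat_lit 432) (nat_lit 0) (nat_lit 6) (nat_lit 6) (nat_lit 6) (nat_lit 181) (nat_lit 347) r10_181 r0_347 (nat_lit 0) (nat_lit 0) (nat_lit 0) (nat_lit 0x7dc039bea4) (nat_lit 1103987664),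
  Rx.mk (nat_lit 433) (nat_lit 1) (nat_lit 6) (nat_lit 6) (nat_lit 7) (nat_lit 182) (nat_lit 354) r10_182 r0_354 (nat_lit 0) (nat_lit 0) (nat_lit 0) (nat_lit 0x7df41fc010) (nat_lit 1004477760)]
noncomputable def e28_34 : List Rx := [
  Rx.mk (nat_lit 289) (nat_lit 1) (nat_lit 4) (nat_lit 4) (nat_lit 1) (nat_lit 37) (nat_lit 200) r10_37 r0_200 (nat_lit 0) (nat_lit 0) (nat_lit 0) (nat_lit 0x76da66a2bc) (nat_lit 4489772976),
  Rx.mk (nat_lit 353) (nat_lit 1) (nat_lit 4) (nat_lit 5) (nat_lit 5) (nat_lit 38) (nat_lit 201) r10_38 r0_201 (nat_lit 0) (nat_lit 0) (nat_lit 0) (nat_lit 0x7e09e4c3aa) (nat_lit 962736840),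
  Rx.mk (nat_lit 417) (nat_lit 1) (nat_lit 4) (nat_lit 6) (nat_lit 5) (nat_lit 39) (nat_lit 202) r10_39 r0_202 (nat_lit 0) (nat_lit 0) (nat_lit 0) (nat_lit 0x7e49f042b2) (nat_lit 839937384),
  Rx.mk (nat_lit 433) (nat_lit 1) (nat_lit 6) (nat_lit 6) (nat_lit 7) (nat_lit 40) (nat_lit 203) r10_40 r0_203 (nat_lit 0) (nat_lit 0) (nat_lit 0) (nat_lit 0x7e9eee1280) (nat_lit 676975104)]
noncomputable def e28_35 : List Rx := [
  Rx.mk (nat_lit 289) (nat_lit 1) (nat_lit 4) (nat_lit 4) (nat_lit 1) (nat_lit 212) (nat_lit 449) r10_212 r6_449 (nat_lit 0) (nat_lit 0) (nat_lit 0) (nat_lit 0x776214075e) (nat_lit 4229625816),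
  Rx.mk (nat_lit 297) (nat_lit 1) (nat_lit 5) (nat_lit 4) (nat_lit 3) (nat_lit 213) (nat_lit 450) r10_213 r6_450 (nat_lit 0) (nat_lit 0) (nat_lit 0) (nat_lit 0x7dbb30cf38) (nat_lit 1113641568),
  Rx.mk (nat_lit 353) (nat_lit 1) (nat_lit 4) (nat_lit 5) (nat_lit 5) (nat_lit 214) (nat_lit 451) r10_214 r6_451 (nat_lit 0) (nat_lit 0) (nat_lit 0) (nat_lit 0x7df79428c6) (nat_lit 997853688),
  Rx.mk (nat_lit 361) (nat_lit 1) (nat_lit 5) (nat_lit 5) (nat_lit 7) (nat_lit 215) (nat_lit 452) r10_215 r6_452 (nat_lit 0) (nat_lit 0) (nat_lit 0) (nat_lit 0x7de4fa127a) (nat_lit 1033520904),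
  Rx.mk (nat_lit 417) (nat_lit 1) (nat_lit 4) (nat_lit 6) (nat_lit 5) (nat_lit 216) (nat_lit 453) r10_216 r6_453 (nat_lit 0) (nat_lit 0) (nat_lit 0) (nat_lit 0x7dc96b0b86) (nat_lit 1086361848),
  Rx.mk (nat_lit 425) (nat_lit 1) (nat_lit 5) (nat_lit 6) (nat_lit 7) (nat_lit 217) (nat_lit 454) r10_217 r6_454 (nat_lit 0) (nat_lit 0) (nat_lit 0) (nat_lit 0x7dc83d9e5e) (nat_lit 1088619480),
  Rx.mk (nat_lit 433) (nat_lit 1) (nat_lit 6) (nat_lit 6) (nat_lit 7) (nat_lit 218) (nat_lit 455) r10_218 r6_455 (nat_lit 0) (nat_lit 0) (nat_lit 0) (nat_lit 0x7def592c7e) (nat_lit 1013634648)]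
noncomputable def e28_36 : List Rx := [
  Rx.mk (nat_lit 437) (nat_lit 5) (nat_lit 6) (nat_lit 6) (nat_lit 7) (nat_lit 5) (nat_lit 237) r10_5 r2_237 (nat_lit 0) (nat_lit 0) (nat_lit 0) (nat_lit 0x7dd3702b2a) (nat_lit 1067149512)]
noncomputable def e28_37 : List Rx := [
  Rx.mk (nat_lit 437) (nat_lit 5) (nat_lit 6) (nat_lit 6) (nat_lit 7) (nat_lit 164) (nat_lit 214) r10_164 r8_214 (nat_lit 0) (nat_lit 0) (nat_lit 0) (nat_lit 0x7df2523cea) (nat_lit 1007934408)]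
noncomputable def e28_38 : List Rx := [
  Rx.mk (nat_lit 181) (nat_lit 5) (nat_lit 6) (nat_lit 2) (nat_lit 7) (nat_lit 123) (nat_lit 147) r10_123 r8_147 (nat_lit 0) (nat_lit 0) (nat_lit 0) (nat_lit 0x7df5dba450) (nat_lit 1001153088),
  Rx.mk (nat_lit 437) (nat_lit 5) (nat_lit 6) (nat_lit 6) (nat_lit 7) (nat_lit 124) (nat_lit 146) r10_124 r8_146 (nat_lit 0) (nat_lit 0) (nat_lit 0) (nat_lit 0x7df79428c6) (nat_lit 997853688)]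
noncomputable def e28_39 : List Rx := [
  Rx.mk (nat_lit 289) (nat_lit 1) (nat_lit 4) (nat_lit 4) (nat_lit 1) (nat_lit 41) (nat_lit 220) r10_41 r1_220 (nat_lit 0) (nat_lit 0) (nat_lit 0) (nat_lit 0x6745aa3e18) (nat_lit 12137759712),
  Rx.mk (nat_lit 353) (nat_lit 1) (nat_lit 4) (nat_lit 5) (nat_lit 5) (nat_lit 42) (nat_lit 221) r10_42 r1_221 (nat_lit 0) (nat_lit 0) (nat_lit 0) (nat_lit 0x7dd2d19514) (nat_lit 1068337296),
  Rx.mk (nat_lit 417) (nat_lit 1) (nat_lit 4) (nat_lit 6) (nat_lit 5) (nat_lit 43) (nat_lit 222) r10_43 r1_222 (nat_lit 0) (nat_lit 0) (nat_lit 0) (nat_lit 0x7dc1f662d8) (nat_lit 1100657376),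
  Rx.mk (nat_lit 433) (nat_lit 1) (nat_lit 6) (nat_lit 6) (nat_lit 7) (nat_lit 44) (nat_lit 223) r10_44 r1_223 (nat_lit 0) (nat_lit 0) (nat_lit 0) (nat_lit 0x7e5b3e8dbc) (nat_lit 806755248),
  Rx.mk (nat_lit 437) (nat_lit 5) (nat_lit 6) (nat_lit 6) (nat_lit 7) (nat_lit 45) (nat_lit 224) r10_45 r1_224 (nat_lit 0) (nat_lit 0) (nat_lit 0) (nat_lit 0x7de11ef030) (nat_lit 1040914368)]
noncomputable def e28_40 : List Rx := [
  Rx.mk (nat_lit 289) (nat_lit 1) (nat_lit 4) (nat_lit 4) (nat_lit 1) (nat_lit 222) (nat_lit 368) r10_222 r7_368 (nat_lit 0) (nat_lit 0) (nat_lit 0) (nat_lit 0x6dd2a647ca) (nat_lit 8922316104),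
  Rx.mk (nat_lit 297) (nat_lit 1) (nat_lit 5) (nat_lit 4) (nat_lit 3) (nat_lit 223) (nat_lit 369) r10_223 r7_369 (nat_lit 0) (nat_lit 0) (nat_lit 0) (nat_lit 0x7dce8599d8) (nat_lit 1076575968),
  Rx.mk (nat_lit 353) (nat_lit 1) (nat_lit 4) (nat_lit 5) (nat_lit 5) (nat_lit 224) (nat_lit 370) r10_224 r7_370 (nat_lit 0) (nat_lit 0) (nat_lit 0) (nat_lit 0x7dd5e543d6) (nat_lit 1062437688),
  Rx.mk (nat_lit 361) (nat_lit 1) (nat_lit 5) (nat_lit 5) (nat_lit 7) (nat_lit 225) (nat_lit 371) r10_225 r7_371 (nat_lit 0) (nat_lit 0) (nat_lit 0) (nat_lit 0x7df118d082) (nat_lit 1010281896),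
  Rx.mk (nat_lit 417) (nat_lit 1) (nat_lit 4) (nat_lit 6) (nat_lit 5) (nat_lit 226) (nat_lit 372) r10_226 r7_372 (nat_lit 0) (nat_lit 0) (nat_lit 0) (nat_lit 0x7d483d1ee6) (nat_lit 1334049912),
  Rx.mk (nat_lit 425) (nat_lit 1) (nat_lit 5) (nat_lit 6) (nat_lit 7) (nat_lit 227) (nat_lit 373) r10_227 r7_373 (nat_lit 0) (nat_lit 0) (nat_lit 0) (nat_lit 0x7df32a2f6a) (nat_lit 1006317000),
  Rx.mk (nat_lit 433) (nat_lit 1) (nat_lit 6) (nat_lit 6) (nat_lit 7) (nat_lit 228) (nat_lit 374) r10_228 r7_374 (nat_lit 0) (nat_lit 0) (nat_lit 0) (nat_lit 0x7de7266fb2) (nat_lit 1029353832),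
  Rx.mk (nat_lit 437) (nat_lit 5) (nat_lit 6) (nat_lit 6) (nat_lit 7) (nat_lit 229) (nat_lit 367) r10_229 r7_367 (nat_lit 0) (nat_lit 0) (nat_lit 0) (nat_lit 0x7ddf1c9058) (nat_lit 1044766944)]
noncomputable def e28_41 : List Rx := [
  Rx.mk (nat_lit 296) (nat_lit 0) (nat_lit 5) (nat_lit 4) (nat_lit 2) (nat_lit 183) (nat_lit 315) r10_183 r1_315 (nat_lit 0) (nat_lit 0) (nat_lit 0) (nat_lit 0x707b7d37b2) (nat_lit 7616876904),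
  Rx.mk (nat_lit 297) (nat_lit 1) (nat_lit 5) (nat_lit 4) (nat_lit 3) (nat_lit 184) (nat_lit 318) r10_184 r1_318 (nat_lit 0) (nat_lit 0) (nat_lit 0) (nat_lit 0x7de8fc3254) (nat_lit 1025835408),
  Rx.mk (nat_lit 298) (nat_lit 2) (nat_lit 5) (nat_lit 4) (nat_lit 3) (nat_lit 185) (nat_lit 321) r10_185 r1_321 (nat_lit 0) (nat_lit 0) (nat_lit 0) (nat_lit 0x7df99bc84a) (nat_lit 993961800),
  Rx.mk (nat_lit 360) (nat_lit 0) (nat_lit 5) (nat_lit 5) (nat_lit 6) (nat_lit 186) (nat_lit 316) r10_186 r1_316 (nat_lit 0) (nat_lit 0) (nat_lit 0) (nat_lit 0x7ddf77aaa6) (nat_lit 1044084600),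
  Rx.mk (nat_lit 361) (nat_lit 1) (nat_lit 5) (nat_lit 5) (nat_lit 7) (nat_lit 187) (nat_lit 319) r10_187 r1_319 (nat_lit 0) (nat_lit 0) (nat_lit 0) (nat_lit 0x7df4ff3218) (nat_lit 1002804192),
  Rx.mk (nat_lit 362) (nat_lit 2) (nat_lit 5) (nat_lit 5) (nat_lit 7) (nat_lit 188) (nat_lit 322) r10_188 r1_322 (nat_lit 0) (nat_lit 0) (nat_lit 0) (nat_lit 0x7e5868bb1c) (nat_lit 812191536),
  Rx.mk (nat_lit 424) (nat_lit 0) (nat_lit 5) (nat_lit 6) (nat_lit 6) (nat_lit 189) (nat_lit 317) r10_189 r1_317 (nat_lit 0) (nat_lit 0) (nat_lit 0) (nat_lit 0x7de538ae90) (nat_lit 1033051968),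
  Rx.mk (nat_lit 425) (nat_lit 1) (nat_lit 5) (nat_lit 6) (nat_lit 7) (nat_lit 190) (nat_lit 320) r10_190 r1_320 (nat_lit 0) (nat_lit 0) (nat_lit 0) (nat_lit 0x7df62c9f40) (nat_lit 1000546560)]
noncomputable def e28_42 : List Rx := [
  Rx.mk (nat_lit 330) (nat_lit 2) (nat_lit 1) (nat_lit 5) (nat_lit 7) (nat_lit 339) (nat_lit 373) r10_339 r2_373 (nat_lit 0) (nat_lit 0) (nat_lit 0) (nat_lit 0x7dec0621b2) (nat_lit 1020008808),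
  Rx.mk (nat_lit 360) (nat_lit 0) (nat_lit 5) (nat_lit 5) (nat_lit 6) (nat_lit 340) (nat_lit 370) r10_340 r2_370 (nat_lit 0) (nat_lit 0) (nat_lit 0) (nat_lit 0x7da4f55306) (nat_lit 1156269816),
  Rx.mk (nat_lit 361) (nat_lit 1) (nat_lit 5) (nat_lit 5) (nat_lit 7) (nat_lit 341) (nat_lit 371) r10_341 r2_371 (nat_lit 0) (nat_lit 0) (nat_lit 0) (nat_lit 0x7df51550b6) (nat_lit 1002638520),
  Rx.mk (nat_lit 362) (nat_lit 2) (nat_lit 5) (nat_lit 5) (nat_lit 7) (nat_lit 342) (nat_lit 372) r10_342 r2_372 (nat_lit 0) (nat_lit 0) (nat_lit 0) (nat_lit 0x7df79428c6) (nat_lit 997853688)]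
noncomputable def e28_43 : List Rx := [
  Rx.mk (nat_lit 297) (nat_lit 1) (nat_lit 5) (nat_lit 4) (nat_lit 3) (nat_lit 219) (nat_lit 198) r10_219 r7_198 (nat_lit 0) (nat_lit 0) (nat_lit 0) (nat_lit 0x7df20f8116) (nat_lit 1008434232),
  Rx.mk (nat_lit 361) (nat_lit 1) (nat_lit 5) (nat_lit 5) (nat_lit 7) (nat_lit 220) (nat_lit 199) r10_220 r7_199 (nat_lit 0) (nat_lit 0) (nat_lit 0) (nat_lit 0x7de83d5e42) (nat_lit 1027264680),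
  Rx.mk (nat_lit 425) (nat_lit 1) (nat_lit 5) (nat_lit 6) (nat_lit 7) (nat_lit 221) (nat_lit 200) r10_221 r7_200 (nat_lit 0) (nat_lit 0) (nat_lit 0) (nat_lit 0x7deb8469ce) (nat_lit 1020980376)]
noncomputable def e28_44 : List Rx := [
  Rx.mk (nat_lit 361) (nat_lit 1) (nat_lit 5) (nat_lit 5) (nat_lit 7) (nat_lit 350) (nat_lit 327) r10_350 r8_327 (nat_lit 0) (nat_lit 0) (nat_lit 0) (nat_lit 0x7ded710b02) (nat_lit 1017290664)]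
noncomputable def e28_45 : List Rx := [
  Rx.mk (nat_lit 74) (nat_lit 2) (nat_lit 1) (nat_lit 1) (nat_lit 7) (nat_lit 345) (nat_lit 319) r10_345 r8_319 (nat_lit 0) (nat_lit 0) (nat_lit 0) (nat_lit 0x7de3095188) (nat_lit 1037241504),
  Rx.mk (nat_lit 330) (nat_lit 2) (nat_lit 1) (nat_lit 5) (nat_lit 7) (nat_lit 346) (nat_lit 322) r10_346 r8_322 (nat_lit 0) (nat_lit 0) (nat_lit 0) (nat_lit 0x7ddf600c20) (nat_lit 1044261504),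
  Rx.mk (nat_lit 360) (nat_lit 0) (nat_lit 5) (nat_lit 5) (nat_lit 6) (nat_lit 347) (nat_lit 320) r10_347 r8_320 (nat_lit 0) (nat_lit 0) (nat_lit 0) (nat_lit 0x7d5d8ae9f4) (nat_lit 1293201936),
  Rx.mk (nat_lit 361) (nat_lit 1) (nat_lit 5) (nat_lit 5) (nat_lit 7) (nat_lit 348) (nat_lit 321) r10_348 r8_321 (nat_lit 0) (nat_lit 0) (nat_lit 0) (nat_lit 0x7de98b6960) (nat_lit 1024762752),
  Rx.mk (nat_lit 362) (nat_lit 2) (nat_lit 5) (nat_lit 5) (nat_lit 7) (nat_lit 349) (nat_lit 323) r10_349 r8_323 (nat_lit 0) (nat_lit 0) (nat_lit 0) (nat_lit 0x7dd48359f6) (nat_lit 1065088440)]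
noncomputable def e28_46 : List Rx := [
  Rx.mk (nat_lit 288) (nat_lit 0) (nat_lit 4) (nat_lit 4) (nat_lit 0) (nat_lit 191) (nat_lit 381) r10_191 r4_381 (nat_lit 0) (nat_lit 0) (nat_lit 0) (nat_lit 0x38e6b45bd8) (nat_lit 34899093216),
  Rx.mk (nat_lit 289) (nat_lit 1) (nat_lit 4) (nat_lit 4) (nat_lit 1) (nat_lit 192) (nat_lit 390) r10_192 r4_390 (nat_lit 0) (nat_lit 0) (nat_lit 0) (nat_lit 0x7c966bbcae) (nat_lit 1674997272),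
  Rx.mk (nat_lit 290) (nat_lit 2) (nat_lit 4) (nat_lit 4) (nat_lit 1) (nat_lit 193) (nat_lit 396) r10_193 r4_396 (nat_lit 0) (nat_lit 0) (nat_lit 0) (nat_lit 0x7ccea598d8) (nat_lit 1567189728),
  Rx.mk (nat_lit 296) (nat_lit 0) (nat_lit 5) (nat_lit 4) (nat_lit 2) (nat_lit 194) (nat_lit 382) r10_194 r4_382 (nat_lit 0) (nat_lit 0) (nat_lit 0) (nat_lit 0x7d28250088) (nat_lit 1395587232),
  Rx.mk (nat_lit 298) (nat_lit 2) (nat_lit 5) (nat_lit 4) (nat_lit 3) (nat_lit 195) (nat_lit 397) r10_195 r4_397 (nat_lit 0) (nat_lit 0) (nat_lit 0) (nat_lit 0x7de473dade) (nat_lit 1034526168),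
  Rx.mk (nat_lit 312) (nat_lit 0) (nat_lit 7) (nat_lit 4) (nat_lit 2) (nat_lit 196) (nat_lit 383) r10_196 r4_383 (nat_lit 0) (nat_lit 0) (nat_lit 0) (nat_lit 0x7d70d954fa) (nat_lit 1256184072),
  Rx.mk (nat_lit 313) (nat_lit 1) (nat_lit 7) (nat_lit 4) (nat_lit 3) (nat_lit 197) (nat_lit 391) r10_197 r4_391 (nat_lit 0) (nat_lit 0) (nat_lit 0) (nat_lit 0x7de4ce9532) (nat_lit 1033846632),
  Rx.mk (nat_lit 314) (nat_lit 2) (nat_lit 7) (nat_lit 4) (nat_lit 3) (nat_lit 198) (nat_lit 398) r10_198 r4_398 (nat_lit 0) (nat_lit 0) (nat_lit 0) (nat_lit 0x7dcd522d10) (nat_lit 1078878528),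
  Rx.mk (nat_lit 352) (nat_lit 0) (nat_lit 4) (nat_lit 5) (nat_lit 4) (nat_lit 199) (nat_lit 384) r10_199 r4_384 (nat_lit 0) (nat_lit 0) (nat_lit 0) (nat_lit 0x7ba0e835dc) (nat_lit 2145744432),
  Rx.mk (nat_lit 353) (nat_lit 1) (nat_lit 4) (nat_lit 5) (nat_lit 5) (nat_lit 200) (nat_lit 392) r10_200 r4_392 (nat_lit 0) (nat_lit 0) (nat_lit 0) (nat_lit 0x7ded13b0d8) (nat_lit 1017989856),
  Rx.mk (nat_lit 354) (nat_lit 2) (nat_lit 4) (nat_lit 5) (nat_lit 5) (nat_lit 201) (nat_lit 399) r10_201 r4_399 (nat_lit 0) (nat_lit 0) (nat_lit 0) (nat_lit 0x7dd7e563d2) (nat_lit 1058601960),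
  Rx.mk (nat_lit 360) (nat_lit 0) (nat_lit 5) (nat_lit 5) (nat_lit 6) (nat_lit 202) (nat_lit 385) r10_202 r4_385 (nat_lit 0) (nat_lit 0) (nat_lit 0) (nat_lit 0x7dce487daa) (nat_lit 1077033672),
  Rx.mk (nat_lit 362) (nat_lit 2) (nat_lit 5) (nat_lit 5) (nat_lit 7) (nat_lit 203) (nat_lit 400) r10_203 r4_400 (nat_lit 0) (nat_lit 0) (nat_lit 0) (nat_lit 0x7df3488d84) (nat_lit 1006089552),
  Rx.mk (nat_lit 376) (nat_lit 0) (nat_lit 7) (nat_lit 5) (nat_lit 6) (nat_lit 204) (nat_lit 386) r10_204 r4_386 (nat_lit 0) (nat_lit 0) (nat_lit 0) (nat_lit 0x7df210a104) (nat_lit 1008425808),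
  Rx.mk (nat_lit 377) (nat_lit 1) (nat_lit 7) (nat_lit 5) (nat_lit 7) (nat_lit 205) (nat_lit 393) r10_205 r4_393 (nat_lit 0) (nat_lit 0) (nat_lit 0) (nat_lit 0x7df01c204e) (nat_lit 1012174488),
  Rx.mk (nat_lit 378) (nat_lit 2) (nat_lit 7) (nat_lit 5) (nat_lit 7) (nat_lit 206) (nat_lit 401) r10_206 r4_401 (nat_lit 0) (nat_lit 0) (nat_lit 0) (nat_lit 0x7df70fd10c) (nat_lit 998844912),
  Rx.mk (nat_lit 416) (nat_lit 0) (nat_lit 4) (nat_lit 6) (nat_lit 4) (nat_lit 207) (nat_lit 387) r10_207 r4_387 (nat_lit 0) (nat_lit 0) (nat_lit 0) (nat_lit 0x7c3386eb5e) (nat_lit 1864615896),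
  Rx.mk (nat_lit 417) (nat_lit 1) (nat_lit 4) (nat_lit 6) (nat_lit 5) (nat_lit 208) (nat_lit 394) r10_208 r4_394 (nat_lit 0) (nat_lit 0) (nat_lit 0) (nat_lit 0x7de439be80) (nat_lit 1034961408),
  Rx.mk (nat_lit 424) (nat_lit 0) (nat_lit 5) (nat_lit 6) (nat_lit 6) (nat_lit 209) (nat_lit 388) r10_209 r4_388 (nat_lit 0) (nat_lit 0) (nat_lit 0) (nat_lit 0x7dcf0cf162) (nat_lit 1075562280),
  Rx.mk (nat_lit 432) (nat_lit 0) (nat_lit 6) (nat_lit 6) (nat_lit 6) (nat_lit 210) (nat_lit 389) r10_210 r4_389 (nat_lit 0) (nat_lit 0) (nat_lit 0) (nat_lit 0x7df1be8626) (nat_lit 1009040760),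
  Rx.mk (nat_lit 433) (nat_lit 1) (nat_lit 6) (nat_lit 6) (nat_lit 7) (nat_lit 211) (nat_lit 395) r10_211 r4_395 (nat_lit 0) (nat_lit 0) (nat_lit 0) (nat_lit 0x7df5724ae6) (nat_lit 1001942136)]
noncomputable def e28_47 : List Rx := [
  Rx.mk (nat_lit 289) (nat_lit 1) (nat_lit 4) (nat_lit 4) (nat_lit 1) (nat_lit 46) (nat_lit 188) r10_46 r4_188 (nat_lit 0) (nat_lit 0) (nat_lit 0) (nat_lit 0x7d74889a02) (nat_lit 1249119144),
  Rx.mk (nat_lit 313) (nat_lit 1) (nat_lit 7) (nat_lit 4) (nat_lit 3) (nat_lit 47) (nat_lit 191) r10_47 r4_191 (nat_lit 0) (nat_lit 0) (nat_lit 0) (nat_lit 0x7e25a6c76e) (nat_lit 909514008),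
  Rx.mk (nat_lit 353) (nat_lit 1) (nat_lit 4) (nat_lit 5) (nat_lit 5) (nat_lit 48) (nat_lit 189) r10_48 r4_189 (nat_lit 0) (nat_lit 0) (nat_lit 0) (nat_lit 0x7de345adc2) (nat_lit 1036789416),
  Rx.mk (nat_lit 377) (nat_lit 1) (nat_lit 7) (nat_lit 5) (nat_lit 7) (nat_lit 49) (nat_lit 192) r10_49 r4_192 (nat_lit 0) (nat_lit 0) (nat_lit 0) (nat_lit 0x7df971caea) (nat_lit 994276296),
  Rx.mk (nat_lit 417) (nat_lit 1) (nat_lit 4) (nat_lit 6) (nat_lit 5) (nat_lit 50) (nat_lit 190) r10_50 r4_190 (nat_lit 0) (nat_lit 0) (nat_lit 0) (nat_lit 0x7df171aaf4) (nat_lit 1009616400),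
  Rx.mk (nat_lit 433) (nat_lit 1) (nat_lit 6) (nat_lit 6) (nat_lit 7) (nat_lit 51) (nat_lit 194) r10_51 r4_194 (nat_lit 0) (nat_lit 0) (nat_lit 0) (nat_lit 0x7e002a9f56) (nat_lit 981387576),
  Rx.mk (nat_lit 441) (nat_lit 1) (nat_lit 7) (nat_lit 6) (nat_lit 7) (nat_lit 52) (nat_lit 193) r10_52 r4_193 (nat_lit 0) (nat_lit 0) (nat_lit 0) (nat_lit 0x7df8e77390) (nat_lit 995312448)]
noncomputable def e28_48 : List Rx := [
  Rx.mk (nat_lit 289) (nat_lit 1) (nat_lit 4) (nat_lit 4) (nat_lit 1) (nat_lit 230) (nat_lit 374) r10_230 r9_374 (nat_lit 0) (nat_lit 0) (nat_lit 0) (nat_lit 0x7db50971b4) (nat_lit 1125440784),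
  Rx.mk (nat_lit 313) (nat_lit 1) (nat_lit 7) (nat_lit 4) (nat_lit 3) (nat_lit 231) (nat_lit 375) r10_231 r9_375 (nat_lit 0) (nat_lit 0) (nat_lit 0) (nat_lit 0x7def382e8e) (nat_lit 1013881752),
  Rx.mk (nat_lit 353) (nat_lit 1) (nat_lit 4) (nat_lit 5) (nat_lit 5) (nat_lit 232) (nat_lit 376) r10_232 r9_376 (nat_lit 0) (nat_lit 0) (nat_lit 0) (nat_lit 0x7defa427ce) (nat_lit 1013073048),
  Rx.mk (nat_lit 377) (nat_lit 1) (nat_lit 7) (nat_lit 5) (nat_lit 7) (nat_lit 233) (nat_lit 377) r10_233 r9_377 (nat_lit 0) (nat_lit 0) (nat_lit 0) (nat_lit 0x7df680f9fa) (nat_lit 999914760),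
  Rx.mk (nat_lit 417) (nat_lit 1) (nat_lit 4) (nat_lit 6) (nat_lit 5) (nat_lit 234) (nat_lit 378) r10_234 r9_378 (nat_lit 0) (nat_lit 0) (nat_lit 0) (nat_lit 0x7de652fcea) (nat_lit 1030937544),
  Rx.mk (nat_lit 433) (nat_lit 1) (nat_lit 6) (nat_lit 6) (nat_lit 7) (nat_lit 235) (nat_lit 379) r10_235 r9_379 (nat_lit 0) (nat_lit 0) (nat_lit 0) (nat_lit 0x7deffe8228) (nat_lit 1012396320)]
noncomputable def e28_49 : List Rx := [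
  Rx.mk (nat_lit 313) (nat_lit 1) (nat_lit 7) (nat_lit 4) (nat_lit 3) (nat_lit 281) (nat_lit 368) r10_281 r10_368 (nat_lit 0) (nat_lit 0) (nat_lit 0) (nat_lit 0x7df1570c9e) (nat_lit 1009815768),
  Rx.mk (nat_lit 377) (nat_lit 1) (nat_lit 7) (nat_lit 5) (nat_lit 7) (nat_lit 282) (nat_lit 369) r10_282 r10_369 (nat_lit 0) (nat_lit 0) (nat_lit 0) (nat_lit 0x7df79428c6) (nat_lit 997853688),
  Rx.mk (nat_lit 441) (nat_lit 1) (nat_lit 7) (nat_lit 6) (nat_lit 7) (nat_lit 283) (nat_lit 370) r10_283 r10_370 (nat_lit 0) (nat_lit 0) (nat_lit 0) (nat_lit 0x7df441ddee) (nat_lit 1004222232)]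
noncomputable def e28_50 : List Rx := [
  Rx.mk (nat_lit 288) (nat_lit 0) (nat_lit 4) (nat_lit 4) (nat_lit 0) (nat_lit 236) (nat_lit 236) r10_236 r10_236 (nat_lit 0) (nat_lit 0) (nat_lit 0) (nat_lit 0x540d4a5750) (nat_lit 21572066880),
  Rx.mk (nat_lit 289) (nat_lit 1) (nat_lit 4) (nat_lit 4) (nat_lit 1) (nat_lit 237) (nat_lit 237) r10_237 r10_237 (nat_lit 0) (nat_lit 0) (nat_lit 0) (nat_lit 0x7de7980898) (nat_lit 1028503008),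
  Rx.mk (nat_lit 290) (nat_lit 2) (nat_lit 4) (nat_lit 4) (nat_lit 1) (nat_lit 238) (nat_lit 239) r10_238 r10_239 (nat_lit 0) (nat_lit 0) (nat_lit 0) (nat_lit 0x7dbee7f3c2) (nat_lit 1106517672),
  Rx.mk (nat_lit 291) (nat_lit 3) (nat_lit 4) (nat_lit 4) (nat_lit 1) (nat_lit 239) (nat_lit 238) r10_239 r10_238 (nat_lit 0) (nat_lit 0) (nat_lit 0) (nat_lit 0x7dbee7f3c2) (nat_lit 1106517672),
  Rx.mk (nat_lit 296) (nat_lit 0) (nat_lit 5) (nat_lit 4) (nat_lit 2) (nat_lit 240) (nat_lit 246) r10_240 r10_246 (nat_lit 0) (nat_lit 0) (nat_lit 0) (nat_lit 0x7da3588cd4) (nat_lit 1159361424),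
  Rx.mk (nat_lit 298) (nat_lit 2) (nat_lit 5) (nat_lit 4) (nat_lit 3) (nat_lit 241) (nat_lit 248) r10_241 r10_248 (nat_lit 0) (nat_lit 0) (nat_lit 0) (nat_lit 0x7df1b106fe) (nat_lit 1009141848),
  Rx.mk (nat_lit 299) (nat_lit 3) (nat_lit 5) (nat_lit 4) (nat_lit 3) (nat_lit 242) (nat_lit 247) r10_242 r10_247 (nat_lit 0) (nat_lit 0) (nat_lit 0) (nat_lit 0x7de958cc8a) (nat_lit 1025141832),
  Rx.mk (nat_lit 312) (nat_lit 0) (nat_lit 7) (nat_lit 4) (nat_lit 2) (nat_lit 243) (nat_lit 254) r10_243 r10_254 (nat_lit 0) (nat_lit 0) (nat_lit 0) (nat_lit 0x7d57554d54) (nat_lit 1305107856),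
  Rx.mk (nat_lit 313) (nat_lit 1) (nat_lit 7) (nat_lit 4) (nat_lit 3) (nat_lit 244) (nat_lit 255) r10_244 r10_255 (nat_lit 0) (nat_lit 0) (nat_lit 0) (nat_lit 0x7df6641bc8) (nat_lit 1000130976),
  Rx.mk (nat_lit 314) (nat_lit 2) (nat_lit 7) (nat_lit 4) (nat_lit 3) (nat_lit 245) (nat_lit 256) r10_245 r10_256 (nat_lit 0) (nat_lit 0) (nat_lit 0) (nat_lit 0x7dd66edb3c) (nat_lit 1061407152),
  Rx.mk (nat_lit 352) (nat_lit 0) (nat_lit 4) (nat_lit 5) (nat_lit 4) (nat_lit 246) (nat_lit 240) r10_246 r10_240 (nat_lit 0) (nat_lit 0) (nat_lit 0) (nat_lit 0x7da3588cd4) (nat_lit 1159361424),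
  Rx.mk (nat_lit 354) (nat_lit 2) (nat_lit 4) (nat_lit 5) (nat_lit 5) (nat_lit 247) (nat_lit 242) r10_247 r10_242 (nat_lit 0) (nat_lit 0) (nat_lit 0) (nat_lit 0x7de958cc8a) (nat_lit 1025141832),
  Rx.mk (nat_lit 355) (nat_lit 3) (nat_lit 4) (nat_lit 5) (nat_lit 5) (nat_lit 248) (nat_lit 241) r10_248 r10_241 (nat_lit 0) (nat_lit 0) (nat_lit 0) (nat_lit 0x7df1b106fe) (nat_lit 1009141848),
  Rx.mk (nat_lit 360) (nat_lit 0) (nat_lit 5) (nat_lit 5) (nat_lit 6) (nat_lit 249) (nat_lit 249) r10_249 r10_249 (nat_lit 0) (nat_lit 0) (nat_lit 0) (nat_lit 0x7df2331edc) (nat_lit 1008167472),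
  Rx.mk (nat_lit 362) (nat_lit 2) (nat_lit 5) (nat_lit 5) (nat_lit 7) (nat_lit 250) (nat_lit 251) r10_250 r10_251 (nat_lit 0) (nat_lit 0) (nat_lit 0) (nat_lit 0x7defa487c8) (nat_lit 1013070240),
  Rx.mk (nat_lit 363) (nat_lit 3) (nat_lit 5) (nat_lit 5) (nat_lit 7) (nat_lit 251) (nat_lit 250) r10_251 r10_250 (nat_lit 0) (nat_lit 0) (nat_lit 0) (nat_lit 0x7defa487c8) (nat_lit 1013070240),
  Rx.mk (nat_lit 376) (nat_lit 0) (nat_lit 7) (nat_lit 5) (nat_lit 6) (nat_lit 252) (nat_lit 257) r10_252 r10_257 (nat_lit 0) (nat_lit 0) (nat_lit 0) (nat_lit 0x7ddd346edc) (nat_lit 1048422960),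
  Rx.mk (nat_lit 378) (nat_lit 2) (nat_lit 7) (nat_lit 5) (nat_lit 7) (nat_lit 253) (nat_lit 258) r10_253 r10_258 (nat_lit 0) (nat_lit 0) (nat_lit 0) (nat_lit 0x7df79428c6) (nat_lit 997853688),
  Rx.mk (nat_lit 416) (nat_lit 0) (nat_lit 4) (nat_lit 6) (nat_lit 4) (nat_lit 254) (nat_lit 243) r10_254 r10_243 (nat_lit 0) (nat_lit 0) (nat_lit 0) (nat_lit 0x7d57554d54) (nat_lit 1305107856),
  Rx.mk (nat_lit 417) (nat_lit 1) (nat_lit 4) (nat_lit 6) (nat_lit 5) (nat_lit 255) (nat_lit 244) r10_255 r10_244 (nat_lit 0) (nat_lit 0) (nat_lit 0) (nat_lit 0x7df6641bc8) (nat_lit 1000130976),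
  Rx.mk (nat_lit 419) (nat_lit 3) (nat_lit 4) (nat_lit 6) (nat_lit 5) (nat_lit 256) (nat_lit 245) r10_256 r10_245 (nat_lit 0) (nat_lit 0) (nat_lit 0) (nat_lit 0x7dd66edb3c) (nat_lit 1061407152),
  Rx.mk (nat_lit 424) (nat_lit 0) (nat_lit 5) (nat_lit 6) (nat_lit 6) (nat_lit 257) (nat_lit 252) r10_257 r10_252 (nat_lit 0) (nat_lit 0) (nat_lit 0) (nat_lit 0x7ddd346edc) (nat_lit 1048422960),
  Rx.mk (nat_lit 427) (nat_lit 3) (nat_lit 5) (nat_lit 6) (nat_lit 7) (nat_lit 258) (nat_lit 253) r10_258 r10_253 (nat_lit 0) (nat_lit 0) (nat_lit 0) (nat_lit 0x7df79428c6) (nat_lit 997853688),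
  Rx.mk (nat_lit 432) (nat_lit 0) (nat_lit 6) (nat_lit 6) (nat_lit 6) (nat_lit 259) (nat_lit 262) r10_259 r10_262 (nat_lit 0) (nat_lit 0) (nat_lit 0) (nat_lit 0x7df1402e0c) (nat_lit 1009987056),
  Rx.mk (nat_lit 433) (nat_lit 1) (nat_lit 6) (nat_lit 6) (nat_lit 7) (nat_lit 260) (nat_lit 263) r10_260 r10_263 (nat_lit 0) (nat_lit 0) (nat_lit 0) (nat_lit 0x7df1978896) (nat_lit 1009332792),
  Rx.mk (nat_lit 435) (nat_lit 3) (nat_lit 6) (nat_lit 6) (nat_lit 7) (nat_lit 261) (nat_lit 264) r10_261 r10_264 (nat_lit 0) (nat_lit 0) (nat_lit 0) (nat_lit 0x7de80a0178) (nat_lit 1027649376),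
  Rx.mk (nat_lit 504) (nat_lit 0) (nat_lit 7) (nat_lit 7) (nat_lit 6) (nat_lit 262) (nat_lit 259) r10_262 r10_259 (nat_lit 0) (nat_lit 0) (nat_lit 0) (nat_lit 0x7df1402e0c) (nat_lit 1009987056),
  Rx.mk (nat_lit 505) (nat_lit 1) (nat_lit 7) (nat_lit 7) (nat_lit 7) (nat_lit 263) (nat_lit 260) r10_263 r10_260 (nat_lit 0) (nat_lit 0) (nat_lit 0) (nat_lit 0x7df1978896) (nat_lit 1009332792),
  Rx.mk (nat_lit 506) (nat_lit 2) (nat_lit 7) (nat_lit 7) (nat_lit 7) (nat_lit 264) (nat_lit 261) r10_264 r10_261 (nat_lit 0) (nat_lit 0) (nat_lit 0) (nat_lit 0x7de80a0178) (nat_lit 1027649376)]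
noncomputable def e28_51 : List Rx := [
  Rx.mk (nat_lit 474) (nat_lit 2) (nat_lit 3) (nat_lit 7) (nat_lit 7) (nat_lit 265) (nat_lit 230) r10_265 r12_230 (nat_lit 0) (nat_lit 0) (nat_lit 0) (nat_lit 0x7ee7b225f6) (nat_lit 537454008)]
noncomputable def e28_52 : List Rx := [
  Rx.mk (nat_lit 322) (nat_lit 2) (nat_lit 0) (nat_lit 5) (nat_lit 5) (nat_lit 366) (nat_lit 240) r10_366 r12_240 (nat_lit 0) (nat_lit 0) (nat_lit 0) (nat_lit 0x7e373cadfe) (nat_lit 875795544),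
  Rx.mk (nat_lit 346) (nat_lit 2) (nat_lit 3) (nat_lit 5) (nat_lit 7) (nat_lit 367) (nat_lit 241) r10_367 r12_241 (nat_lit 0) (nat_lit 0) (nat_lit 0) (nat_lit 0x7ee6adf63a) (nat_lit 539402760)]
noncomputable def e28_53 : List Rx := [
  Rx.mk (nat_lit 291) (nat_lit 3) (nat_lit 4) (nat_lit 4) (nat_lit 1) (nat_lit 9) (nat_lit 140) r10_9 r12_140 (nat_lit 0) (nat_lit 0) (nat_lit 0) (nat_lit 0x73e77d9440) (nat_lit 5937235200),
  Rx.mk (nat_lit 315) (nat_lit 3) (nat_lit 7) (nat_lit 4) (nat_lit 3) (nat_lit 10) (nat_lit 141) r10_10 r12_141 (nat_lit 0) (nat_lit 0) (nat_lit 0) (nat_lit 0x7eaac05550) (nat_lit 654308928),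
  Rx.mk (nat_lit 419) (nat_lit 3) (nat_lit 4) (nat_lit 6) (nat_lit 5) (nat_lit 11) (nat_lit 146) r10_11 r12_146 (nat_lit 0) (nat_lit 0) (nat_lit 0) (nat_lit 0x7e9f0970ca) (nat_lit 676770120),
  Rx.mk (nat_lit 435) (nat_lit 3) (nat_lit 6) (nat_lit 6) (nat_lit 7) (nat_lit 12) (nat_lit 149) r10_12 r12_149 (nat_lit 0) (nat_lit 0) (nat_lit 0) (nat_lit 0x7e3496186a) (nat_lit 880878024),
  Rx.mk (nat_lit 439) (nat_lit 7) (nat_lit 6) (nat_lit 6) (nat_lit 7) (nat_lit 13) (nat_lit 148) r10_13 r12_148 (nat_lit 0) (nat_lit 0) (nat_lit 0) (nat_lit 0x7e96423d46) (nat_lit 693601272),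
  Rx.mk (nat_lit 443) (nat_lit 3) (nat_lit 7) (nat_lit 6) (nat_lit 7) (nat_lit 14) (nat_lit 147) r10_14 r12_147 (nat_lit 0) (nat_lit 0) (nat_lit 0) (nat_lit 0x7ec4817924) (nat_lit 604927440),
  Rx.mk (nat_lit 474) (nat_lit 2) (nat_lit 3) (nat_lit 7) (nat_lit 7) (nat_lit 15) (nat_lit 145) r10_15 r12_145 (nat_lit 0) (nat_lit 0) (nat_lit 0) (nat_lit 0x7eaff8e1c2) (nat_lit 644298408),
  Rx.mk (nat_lit 504) (nat_lit 0) (nat_lit 7) (nat_lit 7) (nat_lit 6) (nat_lit 16) (nat_lit 142) r10_16 r12_142 (nat_lit 0) (nat_lit 0) (nat_lit 0) (nat_lit 0x7d98a2d83a) (nat_lit 1179896328),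
  Rx.mk (nat_lit 506) (nat_lit 2) (nat_lit 7) (nat_lit 7) (nat_lit 7) (nat_lit 17) (nat_lit 144) r10_17 r12_144 (nat_lit 0) (nat_lit 0) (nat_lit 0) (nat_lit 0x7e4ff8222e) (nat_lit 828374040),
  Rx.mk (nat_lit 507) (nat_lit 3) (nat_lit 7) (nat_lit 7) (nat_lit 7) (nat_lit 18) (nat_lit 143) r10_18 r12_143 (nat_lit 0) (nat_lit 0) (nat_lit 0) (nat_lit 0x7e4d46ad48) (nat_lit 833537952)]
noncomputable def e28_54 : List Rx := [
  Rx.mk (nat_lit 346) (nat_lit 2) (nat_lit 3) (nat_lit 5) (nat_lit 7) (nat_lit 356) (nat_lit 309) r10_356 r12_309 (nat_lit 0) (nat_lit 0) (nat_lit 0) (nat_lit 0x7f0597e77c) (nat_lit 480128688)]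
noncomputable def e28_55 : List Rx := [
  Rx.mk (nat_lit 288) (nat_lit 0) (nat_lit 4) (nat_lit 4) (nat_lit 0) (nat_lit 19) (nat_lit 333) r10_19 r3_333 (nat_lit 0) (nat_lit 0) (nat_lit 0) (nat_lit 0x611f400ae2) (nat_lit 15156536616),
  Rx.mk (nat_lit 289) (nat_lit 1) (nat_lit 4) (nat_lit 4) (nat_lit 1) (nat_lit 20) (nat_lit 340) r10_20 r3_340 (nat_lit 0) (nat_lit 0) (nat_lit 0) (nat_lit 0x6c7064ad46) (nat_lit 9601565688),
  Rx.mk (nat_lit 290) (nat_lit 2) (nat_lit 4) (nat_lit 4) (nat_lit 1) (nat_lit 21) (nat_lit 347) r10_21 r3_347 (nat_lit 0) (nat_lit 0) (nat_lit 0) (nat_lit 0x6df68609aa) (nat_lit 8853531336),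
  Rx.mk (nat_lit 312) (nat_lit 0) (nat_lit 7) (nat_lit 4) (nat_lit 2) (nat_lit 22) (nat_lit 334) r10_22 r3_334 (nat_lit 0) (nat_lit 0) (nat_lit 0) (nat_lit 0x7199b2b33c) (nat_lit 7068101040),
  Rx.mk (nat_lit 313) (nat_lit 1) (nat_lit 7) (nat_lit 4) (nat_lit 3) (nat_lit 23) (nat_lit 341) r10_23 r3_341 (nat_lit 0) (nat_lit 0) (nat_lit 0) (nat_lit 0x7bee1be254) (nat_lit 1997717904),
  Rx.mk (nat_lit 314) (nat_lit 2) (nat_lit 7) (nat_lit 4) (nat_lit 3) (nat_lit 24) (nat_lit 348) r10_24 r3_348 (nat_lit 0) (nat_lit 0) (nat_lit 0) (nat_lit 0x7846764056) (nat_lit 3791723832),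
  Rx.mk (nat_lit 352) (nat_lit 0) (nat_lit 4) (nat_lit 5) (nat_lit 4) (nat_lit 25) (nat_lit 335) r10_25 r3_335 (nat_lit 0) (nat_lit 0) (nat_lit 0) (nat_lit 0x6c0e76ec84) (nat_lit 9789333840),
  Rx.mk (nat_lit 353) (nat_lit 1) (nat_lit 4) (nat_lit 5) (nat_lit 5) (nat_lit 26) (nat_lit 342) r10_26 r3_342 (nat_lit 0) (nat_lit 0) (nat_lit 0) (nat_lit 0x7c9d740c22) (nat_lit 1661513256),
  Rx.mk (nat_lit 354) (nat_lit 2) (nat_lit 4) (nat_lit 5) (nat_lit 5) (nat_lit 27) (nat_lit 349) r10_27 r3_349 (nat_lit 0) (nat_lit 0) (nat_lit 0) (nat_lit 0x7aec04a4ca) (nat_lit 2492580168),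
  Rx.mk (nat_lit 376) (nat_lit 0) (nat_lit 7) (nat_lit 5) (nat_lit 6) (nat_lit 28) (nat_lit 336) r10_28 r3_336 (nat_lit 0) (nat_lit 0) (nat_lit 0) (nat_lit 0x7db4419e32) (nat_lit 1126937448),
  Rx.mk (nat_lit 377) (nat_lit 1) (nat_lit 7) (nat_lit 5) (nat_lit 7) (nat_lit 29) (nat_lit 343) r10_29 r3_343 (nat_lit 0) (nat_lit 0) (nat_lit 0) (nat_lit 0x7e26fad22c) (nat_lit 906967152),
  Rx.mk (nat_lit 378) (nat_lit 2) (nat_lit 7) (nat_lit 5) (nat_lit 7) (nat_lit 30) (nat_lit 350) r10_30 r3_350 (nat_lit 0) (nat_lit 0) (nat_lit 0) (nat_lit 0x7e1c68bb58) (nat_lit 927235296),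
  Rx.mk (nat_lit 416) (nat_lit 0) (nat_lit 4) (nat_lit 6) (nat_lit 4) (nat_lit 31) (nat_lit 337) r10_31 r3_337 (nat_lit 0) (nat_lit 0) (nat_lit 0) (nat_lit 0x6e8b4ffc76) (nat_lit 8568244152),
  Rx.mk (nat_lit 417) (nat_lit 1) (nat_lit 4) (nat_lit 6) (nat_lit 5) (nat_lit 32) (nat_lit 344) r10_32 r3_344 (nat_lit 0) (nat_lit 0) (nat_lit 0) (nat_lit 0x7822d6fa6e) (nat_lit 3860025624),
  Rx.mk (nat_lit 432) (nat_lit 0) (nat_lit 6) (nat_lit 6) (nat_lit 6) (nat_lit 33) (nat_lit 339) r10_33 r3_339 (nat_lit 0) (nat_lit 0) (nat_lit 0) (nat_lit 0x7e061120e8) (nat_lit 970074144),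
  Rx.mk (nat_lit 433) (nat_lit 1) (nat_lit 6) (nat_lit 6) (nat_lit 7) (nat_lit 34) (nat_lit 346) r10_34 r3_346 (nat_lit 0) (nat_lit 0) (nat_lit 0) (nat_lit 0x7dec2adf66) (nat_lit 1019733624),
  Rx.mk (nat_lit 440) (nat_lit 0) (nat_lit 7) (nat_lit 6) (nat_lit 6) (nat_lit 35) (nat_lit 338) r10_35 r3_338 (nat_lit 0) (nat_lit 0) (nat_lit 0) (nat_lit 0x7ba330b152) (nat_lit 2141366760),
  Rx.mk (nat_lit 441) (nat_lit 1) (nat_lit 7) (nat_lit 6) (nat_lit 7) (nat_lit 36) (nat_lit 345) r10_36 r3_345 (nat_lit 0) (nat_lit 0) (nat_lit 0) (nat_lit 0x7e079ac84c) (nat_lit 967125744)]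
noncomputable def e28_56 : List Rx := [
  Rx.mk (nat_lit 312) (nat_lit 0) (nat_lit 7) (nat_lit 4) (nat_lit 2) (nat_lit 273) (nat_lit 315) r10_273 r12_315 (nat_lit 0) (nat_lit 0) (nat_lit 0) (nat_lit 0x771b6bd228) (nat_lit 4365103392),
  Rx.mk (nat_lit 313) (nat_lit 1) (nat_lit 7) (nat_lit 4) (nat_lit 3) (nat_lit 274) (nat_lit 318) r10_274 r12_318 (nat_lit 0) (nat_lit 0) (nat_lit 0) (nat_lit 0x7d6315f13e) (nat_lit 1282573656),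
  Rx.mk (nat_lit 314) (nat_lit 2) (nat_lit 7) (nat_lit 4) (nat_lit 3) (nat_lit 275) (nat_lit 321) r10_275 r12_321 (nat_lit 0) (nat_lit 0) (nat_lit 0) (nat_lit 0x7dd6261fc8) (nat_lit 1061951904),
  Rx.mk (nat_lit 376) (nat_lit 0) (nat_lit 7) (nat_lit 5) (nat_lit 6) (nat_lit 276) (nat_lit 316) r10_276 r12_316 (nat_lit 0) (nat_lit 0) (nat_lit 0) (nat_lit 0x7d971a50c4) (nat_lit 1182836304),
  Rx.mk (nat_lit 377) (nat_lit 1) (nat_lit 7) (nat_lit 5) (nat_lit 7) (nat_lit 277) (nat_lit 319) r10_277 r12_319 (nat_lit 0) (nat_lit 0) (nat_lit 0) (nat_lit 0x7e00b1f6e0) (nat_lit 980373888),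
  Rx.mk (nat_lit 378) (nat_lit 2) (nat_lit 7) (nat_lit 5) (nat_lit 7) (nat_lit 278) (nat_lit 322) r10_278 r12_322 (nat_lit 0) (nat_lit 0) (nat_lit 0) (nat_lit 0x7ddda307f2) (nat_lit 1047594600),
  Rx.mk (nat_lit 440) (nat_lit 0) (nat_lit 7) (nat_lit 6) (nat_lit 6) (nat_lit 279) (nat_lit 317) r10_279 r12_317 (nat_lit 0) (nat_lit 0) (nat_lit 0) (nat_lit 0x7dea0ba15c) (nat_lit 1023802416),
  Rx.mk (nat_lit 441) (nat_lit 1) (nat_lit 7) (nat_lit 6) (nat_lit 7) (nat_lit 280) (nat_lit 320) r10_280 r12_320 (nat_lit 0) (nat_lit 0) (nat_lit 0) (nat_lit 0x7de5e7c39e) (nat_lit 1031740632)]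
noncomputable def e28_57 : List Rx := [
  Rx.mk (nat_lit 288) (nat_lit 0) (nat_lit 4) (nat_lit 4) (nat_lit 0) (nat_lit 68) (nat_lit 202) r10_68 r12_202 (nat_lit 0) (nat_lit 0) (nat_lit 0) (nat_lit 0x4f8256cb14) (nat_lit 23801905296),
  Rx.mk (nat_lit 289) (nat_lit 1) (nat_lit 4) (nat_lit 4) (nat_lit 1) (nat_lit 69) (nat_lit 203) r10_69 r12_203 (nat_lit 0) (nat_lit 0) (nat_lit 0) (nat_lit 0x77191ff6e8) (nat_lit 4369506336),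
  Rx.mk (nat_lit 290) (nat_lit 2) (nat_lit 4) (nat_lit 4) (nat_lit 1) (nat_lit 70) (nat_lit 205) r10_70 r12_205 (nat_lit 0) (nat_lit 0) (nat_lit 0) (nat_lit 0x749a460706) (nat_lit 5594437368),
  Rx.mk (nat_lit 291) (nat_lit 3) (nat_lit 4) (nat_lit 4) (nat_lit 1) (nat_lit 71) (nat_lit 204) r10_71 r12_204 (nat_lit 0) (nat_lit 0) (nat_lit 0) (nat_lit 0x71d4c381f4) (nat_lit 6954848784),
  Rx.mk (nat_lit 312) (nat_lit 0) (nat_lit 7) (nat_lit 4) (nat_lit 2) (nat_lit 72) (nat_lit 212) r10_72 r12_212 (nat_lit 0) (nat_lit 0) (nat_lit 0) (nat_lit 0x6f899876f0) (nat_lit 8080682688),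
  Rx.mk (nat_lit 313) (nat_lit 1) (nat_lit 7) (nat_lit 4) (nat_lit 3) (nat_lit 73) (nat_lit 213) r10_73 r12_213 (nat_lit 0) (nat_lit 0) (nat_lit 0) (nat_lit 0x7dc0395eaa) (nat_lit 1103990472),
  Rx.mk (nat_lit 314) (nat_lit 2) (nat_lit 7) (nat_lit 4) (nat_lit 3) (nat_lit 74) (nat_lit 214) r10_74 r12_214 (nat_lit 0) (nat_lit 0) (nat_lit 0) (nat_lit 0x7df140ee00) (nat_lit 1009981440),
  Rx.mk (nat_lit 352) (nat_lit 0) (nat_lit 4) (nat_lit 5) (nat_lit 4) (nat_lit 75) (nat_lit 206) r10_75 r12_206 (nat_lit 0) (nat_lit 0) (nat_lit 0) (nat_lit 0x762668e34c) (nat_lit 4834887408),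
  Rx.mk (nat_lit 354) (nat_lit 2) (nat_lit 4) (nat_lit 5) (nat_lit 5) (nat_lit 76) (nat_lit 208) r10_76 r12_208 (nat_lit 0) (nat_lit 0) (nat_lit 0) (nat_lit 0x7df4fc9242) (nat_lit 1002823848),
  Rx.mk (nat_lit 355) (nat_lit 3) (nat_lit 4) (nat_lit 5) (nat_lit 5) (nat_lit 77) (nat_lit 207) r10_77 r12_207 (nat_lit 0) (nat_lit 0) (nat_lit 0) (nat_lit 0x7de5630bea) (nat_lit 1032734664),
  Rx.mk (nat_lit 376) (nat_lit 0) (nat_lit 7) (nat_lit 5) (nat_lit 6) (nat_lit 78) (nat_lit 215) r10_78 r12_215 (nat_lit 0) (nat_lit 0) (nat_lit 0) (nat_lit 0x7e21a6277c) (nat_lit 917188272),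
  Rx.mk (nat_lit 378) (nat_lit 2) (nat_lit 7) (nat_lit 5) (nat_lit 7) (nat_lit 79) (nat_lit 216) r10_79 r12_216 (nat_lit 0) (nat_lit 0) (nat_lit 0) (nat_lit 0x7df9596c70) (nat_lit 994458816),
  Rx.mk (nat_lit 416) (nat_lit 0) (nat_lit 4) (nat_lit 6) (nat_lit 4) (nat_lit 80) (nat_lit 209) r10_80 r12_209 (nat_lit 0) (nat_lit 0) (nat_lit 0) (nat_lit 0x76d6a79eb0) (nat_lit 4496955840),
  Rx.mk (nat_lit 417) (nat_lit 1) (nat_lit 4) (nat_lit 6) (nat_lit 5) (nat_lit 81) (nat_lit 210) r10_81 r12_210 (nat_lit 0) (nat_lit 0) (nat_lit 0) (nat_lit 0x7dd00b217e) (nat_lit 1073658456),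
  Rx.mk (nat_lit 419) (nat_lit 3) (nat_lit 4) (nat_lit 6) (nat_lit 5) (nat_lit 82) (nat_lit 211) r10_82 r12_211 (nat_lit 0) (nat_lit 0) (nat_lit 0) (nat_lit 0x7dc3830a0c) (nat_lit 1097686512),
  Rx.mk (nat_lit 432) (nat_lit 0) (nat_lit 6) (nat_lit 6) (nat_lit 6) (nat_lit 83) (nat_lit 222) r10_83 r12_222 (nat_lit 0) (nat_lit 0) (nat_lit 0) (nat_lit 0x7d8a287fee) (nat_lit 1207656216),
  Rx.mk (nat_lit 433) (nat_lit 1) (nat_lit 6) (nat_lit 6) (nat_lit 7) (nat_lit 84) (nat_lit 223) r10_84 r12_223 (nat_lit 0) (nat_lit 0) (nat_lit 0) (nat_lit 0x7ddcad774c) (nat_lit 1049433840),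
  Rx.mk (nat_lit 435) (nat_lit 3) (nat_lit 6) (nat_lit 6) (nat_lit 7) (nat_lit 85) (nat_lit 224) r10_85 r12_224 (nat_lit 0) (nat_lit 0) (nat_lit 0) (nat_lit 0x7ddf540ce0) (nat_lit 1044351360),
  Rx.mk (nat_lit 440) (nat_lit 0) (nat_lit 7) (nat_lit 6) (nat_lit 6) (nat_lit 86) (nat_lit 220) r10_86 r12_220 (nat_lit 0) (nat_lit 0) (nat_lit 0) (nat_lit 0x7e1455dc8e) (nat_lit 942715800),
  Rx.mk (nat_lit 441) (nat_lit 1) (nat_lit 7) (nat_lit 6) (nat_lit 7) (nat_lit 87) (nat_lit 221) r10_87 r12_221 (nat_lit 0) (nat_lit 0) (nat_lit 0) (nat_lit 0x7df712d0dc) (nat_lit 998822448),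
  Rx.mk (nat_lit 504) (nat_lit 0) (nat_lit 7) (nat_lit 7) (nat_lit 6) (nat_lit 88) (nat_lit 217) r10_88 r12_217 (nat_lit 0) (nat_lit 0) (nat_lit 0) (nat_lit 0x7d77f5e32a) (nat_lit 1242548424),
  Rx.mk (nat_lit 505) (nat_lit 1) (nat_lit 7) (nat_lit 7) (nat_lit 7) (nat_lit 89) (nat_lit 218) r10_89 r12_218 (nat_lit 0) (nat_lit 0) (nat_lit 0) (nat_lit 0x7df35c0c4c) (nat_lit 1005943536),
  Rx.mk (nat_lit 506) (nat_lit 2) (nat_lit 7) (nat_lit 7) (nat_lit 7) (nat_lit 90) (nat_lit 219) r10_90 r12_219 (nat_lit 0) (nat_lit 0) (nat_lit 0) (nat_lit 0x7df79428c6) (nat_lit 997853688)]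
noncomputable def e28 : List (List Rx) := [e28_0, e28_1, e28_2, e28_3, e28_4, e28_5, e28_6, e28_7, e28_8, e28_9, e28_10, e28_11, e28_12, e28_13, e28_14, e28_15, e28_16, e28_17, e28_18, e28_19, e28_20, e28_21, e28_22, e28_23, e28_24, e28_25, e28_26, e28_27, e28_28, e28_29, e28_30, e28_31, e28_32, e28_33, e28_34, e28_35, e28_36, e28_37, e28_38, e28_39, e28_40, e28_41, e28_42, e28_43, e28_44, e28_45, e28_46, e28_47, e28_48, e28_49, e28_50, e28_51, e28_52, e28_53, e28_54, e28_55, e28_56, e28_57]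

end Pool.Agent.AKXS_0_25_WE
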