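import Pool.Agent.AKXS_0_25_WE.R0
import Pool.Agent.AKXS_0_25_WE.R1
import Pool.Agent.AKXS_0_25_WE.R2
import Pool.Agent.AKXS_0_25_WE.R3
import Pool.Agent.AKXS_0_25_WE.R4
import Pool.Agent.AKXS_0_25_WE.R5
import Pool.Agent.AKXS_0_25_WE.R6
import Pool.Agent.AKXS_0_25_WE.R7
import Pool.Agent.AKXS_0_25_WE.R8
import Pool.Agent.AKXS_0_25_WE.R9
import Pool.Agent.AKXS_0_25_WE.R10
import Pool.Agent.AKXS_0_25_WE.R11
import Pool.Agent.AKXS_0_25_WE.R12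

set_option autoImplicit false

namespace Pool.Agent.AKXS_0_25_WE

open Pool.Agent.AKX Pool.Agent.AKU

noncomputable def e29_0 : List Rx := [
  Rx.mk (nat_lit 84) (nat_lit 4) (nat_lit 2) (nat_lit 1) (nat_lit 6) (nat_lit 276) (nat_lit 222) r5_276 r0_222 (nat_lit 0) (nat_lit 0) (nat_lit 0) (nat_lit 0x7ff5e6a1a0) (nat_lit 19363968),
  Rx.mk (nat_lit 116) (nat_lit 4) (nat_lit 6) (nat_lit 1) (nat_lit 6) (nat_lit 277) (nat_lit 223) r5_277 r0_223 (nat_lit 0) (nat_lit 0) (nat_lit 0) (nat_lit 0x7c3f149278) (nat_lit 1842463584)]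
noncomputable def e29_1 : List Rx := [
  Rx.mk (nat_lit 84) (nat_lit 4) (nat_lit 2) (nat_lit 1) (nat_lit 6) (nat_lit 304) (nat_lit 240) r5_304 r1_240 (nat_lit 0) (nat_lit 0) (nat_lit 0) (nat_lit 0x7f67c7a41e) (nat_lit 291866328),
  Rx.mk (nat_lit 116) (nat_lit 4) (nat_lit 6) (nat_lit 1) (nat_lit 6) (nat_lit 305) (nat_lit 241) r5_305 r1_241 (nat_lit 0) (nat_lit 0) (nat_lit 0) (nat_lit 0x7ecf8b287e) (nat_lit 583763544)]
noncomputable def e29_2 : List Rx := [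
  Rx.mk (nat_lit 84) (nat_lit 4) (nat_lit 2) (nat_lit 1) (nat_lit 6) (nat_lit 306) (nat_lit 251) r5_306 r2_251 (nat_lit 0) (nat_lit 0) (nat_lit 0) (nat_lit 0x7d0b86ea86) (nat_lit 1450458360),
  Rx.mk (nat_lit 326) (nat_lit 6) (nat_lit 0) (nat_lit 5) (nat_lit 5) (nat_lit 308) (nat_lit 253) r5_308 r2_253 (nat_lit 0) (nat_lit 0) (nat_lit 0) (nat_lit 0x7d47970948) (nat_lit 1335293856),
  Rx.mk (nat_lit 340) (nat_lit 4) (nat_lit 2) (nat_lit 5) (nat_lit 6) (nat_lit 307) (nat_lit 252) r5_307 r2_252 (nat_lit 0) (nat_lit 0) (nat_lit 0) (nat_lit 0x7d5005c254) (nat_lit 1319125392),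
  Rx.mk (nat_lit 342) (nat_lit 6) (nat_lit 2) (nat_lit 5) (nat_lit 7) (nat_lit 309) (nat_lit 254) r5_309 r2_254 (nat_lit 0) (nat_lit 0) (nat_lit 0) (nat_lit 0x7de4629bf2) (nat_lit 1034655336)]
noncomputable def e29_3 : List Rx := [
  Rx.mk (nat_lit 20) (nat_lit 4) (nat_lit 2) (nat_lit 0) (nat_lit 2) (nat_lit 322) (nat_lit 213) r5_322 r3_213 (nat_lit 0) (nat_lit 0) (nat_lit 0) (nat_lit 0x7fdc245dde) (nat_lit 68753880),
  Rx.mk (nat_lit 52) (nat_lit 4) (nat_lit 6) (nat_lit 0) (nat_lit 2) (nat_lit 323) (nat_lit 215) r5_323 r3_215 (nat_lit 0) (nat_lit 0) (nat_lit 0) (nat_lit 0x7fdc245dde) (nat_lit 68753880),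
  Rx.mk (nat_lit 55) (nat_lit 7) (nat_lit 6) (nat_lit 0) (nat_lit 3) (nat_lit 325) (nat_lit 216) r5_325 r3_216 (nat_lit 0) (nat_lit 0) (nat_lit 0) (nat_lit 0x7f8fdd429c) (nat_lit 215008560),
  Rx.mk (nat_lit 212) (nat_lit 4) (nat_lit 2) (nat_lit 3) (nat_lit 6) (nat_lit 324) (nat_lit 214) r5_324 r3_214 (nat_lit 0) (nat_lit 0) (nat_lit 0) (nat_lit 0x7f8fdd429c) (nat_lit 215008560)]
noncomputable def e29_4 : List Rx := [
  Rx.mk (nat_lit 20) (nat_lit 4) (nat_lit 2) (nat_lit 0) (nat_lit 2) (nat_lit 326) (nat_lit 217) r5_326 r4_217 (nat_lit 0) (nat_lit 0) (nat_lit 0) (nat_lit 0x77438f4fc8) (nat_lit 4288141728),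
  Rx.mk (nat_lit 52) (nat_lit 4) (nat_lit 6) (nat_lit 0) (nat_lit 2) (nat_lit 327) (nat_lit 220) r5_327 r4_220 (nat_lit 0) (nat_lit 0) (nat_lit 0) (nat_lit 0x7037ba9420) (nat_lit 7746800256),
  Rx.mk (nat_lit 55) (nat_lit 7) (nat_lit 6) (nat_lit 0) (nat_lit 3) (nat_lit 331) (nat_lit 222) r5_331 r4_222 (nat_lit 0) (nat_lit 0) (nat_lit 0) (nat_lit 0x7145321b9a) (nat_lit 7230125448),
  Rx.mk (nat_lit 84) (nat_lit 4) (nat_lit 2) (nat_lit 1) (nat_lit 6) (nat_lit 328) (nat_lit 218) r5_328 r4_218 (nat_lit 0) (nat_lit 0) (nat_lit 0) (nat_lit 0x7e57d80428) (nat_lit 813275424),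
  Rx.mk (nat_lit 116) (nat_lit 4) (nat_lit 6) (nat_lit 1) (nat_lit 6) (nat_lit 329) (nat_lit 221) r5_329 r4_221 (nat_lit 0) (nat_lit 0) (nat_lit 0) (nat_lit 0x7e80245f3a) (nat_lit 736007688),
  Rx.mk (nat_lit 119) (nat_lit 7) (nat_lit 6) (nat_lit 1) (nat_lit 7) (nat_lit 332) (nat_lit 223) r5_332 r4_223 (nat_lit 0) (nat_lit 0) (nat_lit 0) (nat_lit 0x7edd8ea838) (nat_lit 556893792),
  Rx.mk (nat_lit 212) (nat_lit 4) (nat_lit 2) (nat_lit 3) (nat_lit 6) (nat_lit 330) (nat_lit 219) r5_330 r4_219 (nat_lit 0) (nat_lit 0) (nat_lit 0) (nat_lit 0x7e42d95428) (nat_lit 853530912)]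
noncomputable def e29_5 : List Rx := [
  Rx.mk (nat_lit 262) (nat_lit 6) (nat_lit 0) (nat_lit 4) (nat_lit 1) (nat_lit 44) (nat_lit 222) r5_44 r3_222 (nat_lit 0) (nat_lit 0) (nat_lit 0) (nat_lit 0x7ffa96b69a) (nat_lit 10375560),
  Rx.mk (nat_lit 278) (nat_lit 6) (nat_lit 2) (nat_lit 4) (nat_lit 3) (nat_lit 45) (nat_lit 228) r5_45 r3_228 (nat_lit 0) (nat_lit 0) (nat_lit 0) (nat_lit 0x78c2869ed4) (nat_lit 3553844112),
  Rx.mk (nat_lit 386) (nat_lit 2) (nat_lit 0) (nat_lit 6) (nat_lit 5) (nat_lit 41) (nat_lit 225) r5_41 r3_225 (nat_lit 0) (nat_lit 0) (nat_lit 0) (nat_lit 0x770d966f8c) (nat_lit 4391627760),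
  Rx.mk (nat_lit 390) (nat_lit 6) (nat_lit 0) (nat_lit 6) (nat_lit 5) (nat_lit 46) (nat_lit 224) r5_46 r3_224 (nat_lit 0) (nat_lit 0) (nat_lit 0) (nat_lit 0x783b195630) (nat_lit 3813511104),
  Rx.mk (nat_lit 410) (nat_lit 2) (nat_lit 3) (nat_lit 6) (nat_lit 7) (nat_lit 42) (nat_lit 226) r5_42 r3_226 (nat_lit 0) (nat_lit 0) (nat_lit 0) (nat_lit 0x7f3a4a3c22) (nat_lit 379088424),
  Rx.mk (nat_lit 454) (nat_lit 6) (nat_lit 0) (nat_lit 7) (nat_lit 5) (nat_lit 47) (nat_lit 223) r5_47 r3_223 (nat_lit 0) (nat_lit 0) (nat_lit 0) (nat_lit 0x7ea6edd27c) (nat_lit 661637808),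
  Rx.mk (nat_lit 468) (nat_lit 4) (nat_lit 2) (nat_lit 7) (nat_lit 6) (nat_lit 43) (nat_lit 227) r5_43 r3_227 (nat_lit 0) (nat_lit 0) (nat_lit 0) (nat_lit 0x7ec8641af6) (nat_lit 597477816),
  Rx.mk (nat_lit 470) (nat_lit 6) (nat_lit 2) (nat_lit 7) (nat_lit 7) (nat_lit 48) (nat_lit 229) r5_48 r3_229 (nat_lit 0) (nat_lit 0) (nat_lit 0) (nat_lit 0x7f51b98516) (nat_lit 334154808)]
noncomputable def e29_6 : List Rx := [
  Rx.mk (nat_lit 262) (nat_lit 6) (nat_lit 0) (nat_lit 4) (nat_lit 1) (nat_lit 173) (nat_lit 228) r5_173 r0_228 (nat_lit 0) (nat_lit 0) (nat_lit 0) (nat_lit 0x746fc68f28) (nat_lit 5675922720),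
  Rx.mk (nat_lit 276) (nat_lit 4) (nat_lit 2) (nat_lit 4) (nat_lit 2) (nat_lit 171) (nat_lit 232) r5_171 r0_232 (nat_lit 0) (nat_lit 0) (nat_lit 0) (nat_lit 0x75597c52e2) (nat_lit 5227808040),
  Rx.mk (nat_lit 278) (nat_lit 6) (nat_lit 2) (nat_lit 4) (nat_lit 3) (nat_lit 174) (nat_lit 234) r5_174 r0_234 (nat_lit 0) (nat_lit 0) (nat_lit 0) (nat_lit 0x7ee77f2926) (nat_lit 537835896),
  Rx.mk (nat_lit 326) (nat_lit 6) (nat_lit 0) (nat_lit 5) (nat_lit 5) (nat_lit 175) (nat_lit 229) r5_175 r0_229 (nat_lit 0) (nat_lit 0) (nat_lit 0) (nat_lit 0x7f864e9b90) (nat_lit 233333568),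
  Rx.mk (nat_lit 340) (nat_lit 4) (nat_lit 2) (nat_lit 5) (nat_lit 6) (nat_lit 172) (nat_lit 233) r5_172 r0_233 (nat_lit 0) (nat_lit 0) (nat_lit 0) (nat_lit 0x7fa8fdf078) (nat_lit 166828896),
  Rx.mk (nat_lit 342) (nat_lit 6) (nat_lit 2) (nat_lit 5) (nat_lit 7) (nat_lit 176) (nat_lit 235) r5_176 r0_235 (nat_lit 0) (nat_lit 0) (nat_lit 0) (nat_lit 0x7f62ec71d6) (nat_lit 301177656),
  Rx.mk (nat_lit 386) (nat_lit 2) (nat_lit 0) (nat_lit 6) (nat_lit 5) (nat_lit 170) (nat_lit 231) r5_170 r0_231 (nat_lit 0) (nat_lit 0) (nat_lit 0) (nat_lit 0x7b678c2bd6) (nat_lit 2255725368),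
  Rx.mk (nat_lit 390) (nat_lit 6) (nat_lit 0) (nat_lit 6) (nat_lit 5) (nat_lit 177) (nat_lit 230) r5_177 r0_230 (nat_lit 0) (nat_lit 0) (nat_lit 0) (nat_lit 0x7d3f0c91f8) (nat_lit 1351670112)]
noncomputable def e29_7 : List Rx := [
  Rx.mk (nat_lit 326) (nat_lit 6) (nat_lit 0) (nat_lit 5) (nat_lit 5) (nat_lit 179) (nat_lit 246) r5_179 r1_246 (nat_lit 0) (nat_lit 0) (nat_lit 0) (nat_lit 0x7f6760ea8a) (nat_lit 292635720),
  Rx.mk (nat_lit 340) (nat_lit 4) (nat_lit 2) (nat_lit 5) (nat_lit 6) (nat_lit 178) (nat_lit 247) r5_178 r1_247 (nat_lit 0) (nat_lit 0) (nat_lit 0) (nat_lit 0x7f624a1bfc) (nat_lit 302393520),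
  Rx.mk (nat_lit 342) (nat_lit 6) (nat_lit 2) (nat_lit 5) (nat_lit 7) (nat_lit 180) (nat_lit 248) r5_180 r1_248 (nat_lit 0) (nat_lit 0) (nat_lit 0) (nat_lit 0x7e75103088) (nat_lit 757250208)]
noncomputable def e29_8 : List Rx := [
  Rx.mk (nat_lit 262) (nat_lit 6) (nat_lit 0) (nat_lit 4) (nat_lit 1) (nat_lit 186) (nat_lit 229) r5_186 r4_229 (nat_lit 0) (nat_lit 0) (nat_lit 0) (nat_lit 0x71fe96849a) (nat_lit 6874655112),
  Rx.mk (nat_lit 276) (nat_lit 4) (nat_lit 2) (nat_lit 4) (nat_lit 2) (nat_lit 183) (nat_lit 235) r5_183 r4_235 (nat_lit 0) (nat_lit 0) (nat_lit 0) (nat_lit 0x729cb2c238) (nat_lit 6571495008),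
  Rx.mk (nat_lit 278) (nat_lit 6) (nat_lit 2) (nat_lit 4) (nat_lit 3) (nat_lit 187) (nat_lit 238) r5_187 r4_238 (nat_lit 0) (nat_lit 0) (nat_lit 0) (nat_lit 0x7e7092b864) (nat_lit 765859536),
  Rx.mk (nat_lit 326) (nat_lit 6) (nat_lit 0) (nat_lit 5) (nat_lit 5) (nat_lit 188) (nat_lit 230) r5_188 r4_230 (nat_lit 0) (nat_lit 0) (nat_lit 0) (nat_lit 0x7e314decf0) (nat_lit 887170752),
  Rx.mk (nat_lit 340) (nat_lit 4) (nat_lit 2) (nat_lit 5) (nat_lit 6) (nat_lit 184) (nat_lit 236) r5_184 r4_236 (nat_lit 0) (nat_lit 0) (nat_lit 0) (nat_lit 0x7d7961ec68) (nat_lit 1239821856),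
  Rx.mk (nat_lit 342) (nat_lit 6) (nat_lit 2) (nat_lit 5) (nat_lit 7) (nat_lit 189) (nat_lit 239) r5_189 r4_239 (nat_lit 0) (nat_lit 0) (nat_lit 0) (nat_lit 0x7e3b0f90cc) (nat_lit 868463856),
  Rx.mk (nat_lit 386) (nat_lit 2) (nat_lit 0) (nat_lit 6) (nat_lit 5) (nat_lit 181) (nat_lit 233) r5_181 r4_233 (nat_lit 0) (nat_lit 0) (nat_lit 0) (nat_lit 0x7e5fadc6c4) (nat_lit 798252624),
  Rx.mk (nat_lit 390) (nat_lit 6) (nat_lit 0) (nat_lit 6) (nat_lit 5) (nat_lit 190) (nat_lit 232) r5_190 r4_232 (nat_lit 0) (nat_lit 0) (nat_lit 0) (nat_lit 0x7d90cfb574) (nat_lit 1194899472),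
  Rx.mk (nat_lit 410) (nat_lit 2) (nat_lit 3) (nat_lit 6) (nat_lit 7) (nat_lit 182) (nat_lit 234) r5_182 r4_234 (nat_lit 0) (nat_lit 0) (nat_lit 0) (nat_lit 0x7ee10430dc) (nat_lit 550261296),
  Rx.mk (nat_lit 454) (nat_lit 6) (nat_lit 0) (nat_lit 7) (nat_lit 5) (nat_lit 191) (nat_lit 231) r5_191 r4_231 (nat_lit 0) (nat_lit 0) (nat_lit 0) (nat_lit 0x7e50b6f640) (nat_lit 826944768),
  Rx.mk (nat_lit 468) (nat_lit 4) (nat_lit 2) (nat_lit 7) (nat_lit 6) (nat_lit 185) (nat_lit 237) r5_185 r4_237 (nat_lit 0) (nat_lit 0) (nat_lit 0) (nat_lit 0x7e05ce051a) (nat_lit 970576776),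
  Rx.mk (nat_lit 470) (nat_lit 6) (nat_lit 2) (nat_lit 7) (nat_lit 7) (nat_lit 192) (nat_lit 240) r5_192 r4_240 (nat_lit 0) (nat_lit 0) (nat_lit 0) (nat_lit 0x7e1ae6f376) (nat_lit 930124728)]
noncomputable def e29_9 : List Rx := [
  Rx.mk (nat_lit 55) (nat_lit 7) (nat_lit 6) (nat_lit 0) (nat_lit 3) (nat_lit 249) (nat_lit 247) r5_249 r5_247 (nat_lit 0) (nat_lit 0) (nat_lit 0) (nat_lit 0x7dd172ab04) (nat_lit 1070965584),
  Rx.mk (nat_lit 212) (nat_lit 4) (nat_lit 2) (nat_lit 3) (nat_lit 6) (nat_lit 244) (nat_lit 244) r5_244 r5_244 (nat_lit 0) (nat_lit 0) (nat_lit 0) (nat_lit 0x7b8b7f6c7e) (nat_lit 2186794584),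
  Rx.mk (nat_lit 244) (nat_lit 4) (nat_lit 6) (nat_lit 3) (nat_lit 6) (nat_lit 245) (nat_lit 246) r5_245 r5_246 (nat_lit 0) (nat_lit 0) (nat_lit 0) (nat_lit 0x7c65eb24e8) (nat_lit 1767995424),
  Rx.mk (nat_lit 247) (nat_lit 7) (nat_lit 6) (nat_lit 3) (nat_lit 7) (nat_lit 250) (nat_lit 248) r5_250 r5_248 (nat_lit 0) (nat_lit 0) (nat_lit 0) (nat_lit 0x7efe08a078) (nat_lit 494623584),
  Rx.mk (nat_lit 454) (nat_lit 6) (nat_lit 0) (nat_lit 7) (nat_lit 5) (nat_lit 247) (nat_lit 249) r5_247 r5_249 (nat_lit 0) (nat_lit 0) (nat_lit 0) (nat_lit 0x7dd172ab04) (nat_lit 1070965584),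
  Rx.mk (nat_lit 468) (nat_lit 4) (nat_lit 2) (nat_lit 7) (nat_lit 6) (nat_lit 246) (nat_lit 245) r5_246 r5_245 (nat_lit 0) (nat_lit 0) (nat_lit 0) (nat_lit 0x7c65eb24e8) (nat_lit 1767995424),
  Rx.mk (nat_lit 470) (nat_lit 6) (nat_lit 2) (nat_lit 7) (nat_lit 7) (nat_lit 248) (nat_lit 250) r5_248 r5_250 (nat_lit 0) (nat_lit 0) (nat_lit 0) (nat_lit 0x7efe08a078) (nat_lit 494623584)]
noncomputable def e29_10 : List Rx := [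
  Rx.mk (nat_lit 21) (nat_lit 5) (nat_lit 2) (nat_lit 0) (nat_lit 3) (nat_lit 278) (nat_lit 223) r5_278 r0_223 (nat_lit 0) (nat_lit 0) (nat_lit 0) (nat_lit 0x7c3f149278) (nat_lit 1842463584),
  Rx.mk (nat_lit 53) (nat_lit 5) (nat_lit 6) (nat_lit 0) (nat_lit 3) (nat_lit 279) (nat_lit 222) r5_279 r0_222 (nat_lit 0) (nat_lit 0) (nat_lit 0) (nat_lit 0x7ff5e6a1a0) (nat_lit 19363968)]
noncomputable def e29_11 : List Rx := [
  Rx.mk (nat_lit 21) (nat_lit 5) (nat_lit 2) (nat_lit 0) (nat_lit 3) (nat_lit 282) (nat_lit 282) r5_282 r6_282 (nat_lit 0) (nat_lit 0) (nat_lit 0) (nat_lit 0x7e3d97c846) (nat_lit 863608824),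
  Rx.mk (nat_lit 53) (nat_lit 5) (nat_lit 6) (nat_lit 0) (nat_lit 3) (nat_lit 283) (nat_lit 284) r5_283 r6_284 (nat_lit 0) (nat_lit 0) (nat_lit 0) (nat_lit 0x7e8bdea38a) (nat_lit 713521224),
  Rx.mk (nat_lit 84) (nat_lit 4) (nat_lit 2) (nat_lit 1) (nat_lit 6) (nat_lit 280) (nat_lit 280) r5_280 r6_280 (nat_lit 0) (nat_lit 0) (nat_lit 0) (nat_lit 0x7e8bdea38a) (nat_lit 713521224),
  Rx.mk (nat_lit 85) (nat_lit 5) (nat_lit 2) (nat_lit 1) (nat_lit 7) (nat_lit 284) (nat_lit 283) r5_284 r6_283 (nat_lit 0) (nat_lit 0) (nat_lit 0) (nat_lit 0x7e3ec5f562) (nat_lit 861345576),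
  Rx.mk (nat_lit 116) (nat_lit 4) (nat_lit 6) (nat_lit 1) (nat_lit 6) (nat_lit 281) (nat_lit 281) r5_281 r6_281 (nat_lit 0) (nat_lit 0) (nat_lit 0) (nat_lit 0x7e3d97c846) (nat_lit 863608824),
  Rx.mk (nat_lit 117) (nat_lit 5) (nat_lit 6) (nat_lit 1) (nat_lit 7) (nat_lit 285) (nat_lit 285) r5_285 r6_285 (nat_lit 0) (nat_lit 0) (nat_lit 0) (nat_lit 0x7e3ec5f562) (nat_lit 861345576)]
noncomputable def e29_12 : List Rx := [
  Rx.mk (nat_lit 21) (nat_lit 5) (nat_lit 2) (nat_lit 0) (nat_lit 3) (nat_lit 298) (nat_lit 241) r5_298 r1_241 (nat_lit 0) (nat_lit 0) (nat_lit 0) (nat_lit 0x7ecf8b287e) (nat_lit 583763544),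
  Rx.mk (nat_lit 53) (nat_lit 5) (nat_lit 6) (nat_lit 0) (nat_lit 3) (nat_lit 299) (nat_lit 240) r5_299 r1_240 (nat_lit 0) (nat_lit 0) (nat_lit 0) (nat_lit 0x7f67c7a41e) (nat_lit 291866328)]
noncomputable def e29_13 : List Rx := [
  Rx.mk (nat_lit 21) (nat_lit 5) (nat_lit 2) (nat_lit 0) (nat_lit 3) (nat_lit 300) (nat_lit 214) r5_300 r7_214 (nat_lit 0) (nat_lit 0) (nat_lit 0) (nat_lit 0x7de4c1160a) (nat_lit 1033947720),
  Rx.mk (nat_lit 53) (nat_lit 5) (nat_lit 6) (nat_lit 0) (nat_lit 3) (nat_lit 301) (nat_lit 216) r5_301 r7_216 (nat_lit 0) (nat_lit 0) (nat_lit 0) (nat_lit 0x7e615cebd0) (nat_lit 795023424),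
  Rx.mk (nat_lit 85) (nat_lit 5) (nat_lit 2) (nat_lit 1) (nat_lit 7) (nat_lit 302) (nat_lit 215) r5_302 r7_215 (nat_lit 0) (nat_lit 0) (nat_lit 0) (nat_lit 0x7dec1be056) (nat_lit 1019845944),
  Rx.mk (nat_lit 117) (nat_lit 5) (nat_lit 6) (nat_lit 1) (nat_lit 7) (nat_lit 303) (nat_lit 217) r5_303 r7_217 (nat_lit 0) (nat_lit 0) (nat_lit 0) (nat_lit 0x7defd5a4b6) (nat_lit 1012702392)]
noncomputable def e29_14 : List Rx := [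
  Rx.mk (nat_lit 84) (nat_lit 4) (nat_lit 2) (nat_lit 1) (nat_lit 6) (nat_lit 310) (nat_lit 216) r5_310 r7_216 (nat_lit 0) (nat_lit 0) (nat_lit 0) (nat_lit 0x7e615cebd0) (nat_lit 795023424),
  Rx.mk (nat_lit 85) (nat_lit 5) (nat_lit 2) (nat_lit 1) (nat_lit 7) (nat_lit 312) (nat_lit 217) r5_312 r7_217 (nat_lit 0) (nat_lit 0) (nat_lit 0) (nat_lit 0x7defd5a4b6) (nat_lit 1012702392),
  Rx.mk (nat_lit 116) (nat_lit 4) (nat_lit 6) (nat_lit 1) (nat_lit 6) (nat_lit 311) (nat_lit 214) r5_311 r7_214 (nat_lit 0) (nat_lit 0) (nat_lit 0) (nat_lit 0x7de4c1160a) (nat_lit 1033947720),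
  Rx.mk (nat_lit 117) (nat_lit 5) (nat_lit 6) (nat_lit 1) (nat_lit 7) (nat_lit 313) (nat_lit 215) r5_313 r7_215 (nat_lit 0) (nat_lit 0) (nat_lit 0) (nat_lit 0x7dec1be056) (nat_lit 1019845944)]
noncomputable def e29_15 : List Rx := [
  Rx.mk (nat_lit 84) (nat_lit 4) (nat_lit 2) (nat_lit 1) (nat_lit 6) (nat_lit 314) (nat_lit 219) r5_314 r8_219 (nat_lit 0) (nat_lit 0) (nat_lit 0) (nat_lit 0x7d4396095c) (nat_lit 1342970928),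
  Rx.mk (nat_lit 85) (nat_lit 5) (nat_lit 2) (nat_lit 1) (nat_lit 7) (nat_lit 316) (nat_lit 221) r5_316 r8_221 (nat_lit 0) (nat_lit 0) (nat_lit 0) (nat_lit 0x7de265dbc0) (nat_lit 1038465792),
  Rx.mk (nat_lit 340) (nat_lit 4) (nat_lit 2) (nat_lit 5) (nat_lit 6) (nat_lit 315) (nat_lit 220) r5_315 r8_220 (nat_lit 0) (nat_lit 0) (nat_lit 0) (nat_lit 0x7c922f207c) (nat_lit 1683120816),
  Rx.mk (nat_lit 341) (nat_lit 5) (nat_lit 2) (nat_lit 5) (nat_lit 7) (nat_lit 317) (nat_lit 222) r5_317 r8_222 (nat_lit 0) (nat_lit 0) (nat_lit 0) (nat_lit 0x7dde539ce8) (nat_lit 1046272032),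
  Rx.mk (nat_lit 342) (nat_lit 6) (nat_lit 2) (nat_lit 5) (nat_lit 7) (nat_lit 318) (nat_lit 223) r5_318 r8_223 (nat_lit 0) (nat_lit 0) (nat_lit 0) (nat_lit 0x7df2463daa) (nat_lit 1008024264)]
noncomputable def e29_16 : List Rx := [
  Rx.mk (nat_lit 20) (nat_lit 4) (nat_lit 2) (nat_lit 0) (nat_lit 2) (nat_lit 337) (nat_lit 220) r5_337 r4_220 (nat_lit 0) (nat_lit 0) (nat_lit 0) (nat_lit 0x7037ba9420) (nat_lit 7746800256),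
  Rx.mk (nat_lit 21) (nat_lit 5) (nat_lit 2) (nat_lit 0) (nat_lit 3) (nat_lit 340) (nat_lit 221) r5_340 r4_221 (nat_lit 0) (nat_lit 0) (nat_lit 0) (nat_lit 0x7e80245f3a) (nat_lit 736007688),
  Rx.mk (nat_lit 52) (nat_lit 4) (nat_lit 6) (nat_lit 0) (nat_lit 2) (nat_lit 338) (nat_lit 217) r5_338 r4_217 (nat_lit 0) (nat_lit 0) (nat_lit 0) (nat_lit 0x77438f4fc8) (nat_lit 4288141728),
  Rx.mk (nat_lit 53) (nat_lit 5) (nat_lit 6) (nat_lit 0) (nat_lit 3) (nat_lit 341) (nat_lit 218) r5_341 r4_218 (nat_lit 0) (nat_lit 0) (nat_lit 0) (nat_lit 0x7e57d80428) (nat_lit 813275424),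
  Rx.mk (nat_lit 55) (nat_lit 7) (nat_lit 6) (nat_lit 0) (nat_lit 3) (nat_lit 343) (nat_lit 219) r5_343 r4_219 (nat_lit 0) (nat_lit 0) (nat_lit 0) (nat_lit 0x7e42d95428) (nat_lit 853530912),
  Rx.mk (nat_lit 212) (nat_lit 4) (nat_lit 2) (nat_lit 3) (nat_lit 6) (nat_lit 339) (nat_lit 222) r5_339 r4_222 (nat_lit 0) (nat_lit 0) (nat_lit 0) (nat_lit 0x7145321b9a) (nat_lit 7230125448),
  Rx.mk (nat_lit 213) (nat_lit 5) (nat_lit 2) (nat_lit 3) (nat_lit 7) (nat_lit 342) (nat_lit 223) r5_342 r4_223 (nat_lit 0) (nat_lit 0) (nat_lit 0) (nat_lit 0x7edd8ea838) (nat_lit 556893792)]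
noncomputable def e29_17 : List Rx := [
  Rx.mk (nat_lit 20) (nat_lit 4) (nat_lit 2) (nat_lit 0) (nat_lit 2) (nat_lit 344) (nat_lit 225) r5_344 r9_225 (nat_lit 0) (nat_lit 0) (nat_lit 0) (nat_lit 0x73c25986a6) (nat_lit 6008448888),
  Rx.mk (nat_lit 21) (nat_lit 5) (nat_lit 2) (nat_lit 0) (nat_lit 3) (nat_lit 349) (nat_lit 230) r5_349 r9_230 (nat_lit 0) (nat_lit 0) (nat_lit 0) (nat_lit 0x7e53650b5c) (nat_lit 821806128),
  Rx.mk (nat_lit 52) (nat_lit 4) (nat_lit 6) (nat_lit 0) (nat_lit 2) (nat_lit 345) (nat_lit 228) r5_345 r9_228 (nat_lit 0) (nat_lit 0) (nat_lit 0) (nat_lit 0x73c25986a6) (nat_lit 6008448888),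
  Rx.mk (nat_lit 53) (nat_lit 5) (nat_lit 6) (nat_lit 0) (nat_lit 3) (nat_lit 350) (nat_lit 233) r5_350 r9_233 (nat_lit 0) (nat_lit 0) (nat_lit 0) (nat_lit 0x7e77980808) (nat_lit 752397984),
  Rx.mk (nat_lit 55) (nat_lit 7) (nat_lit 6) (nat_lit 0) (nat_lit 3) (nat_lit 354) (nat_lit 235) r5_354 r9_235 (nat_lit 0) (nat_lit 0) (nat_lit 0) (nat_lit 0x7e7a70da78) (nat_lit 746939232),
  Rx.mk (nat_lit 84) (nat_lit 4) (nat_lit 2) (nat_lit 1) (nat_lit 6) (nat_lit 346) (nat_lit 226) r5_346 r9_226 (nat_lit 0) (nat_lit 0) (nat_lit 0) (nat_lit 0x7e77980808) (nat_lit 752397984),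
  Rx.mk (nat_lit 85) (nat_lit 5) (nat_lit 2) (nat_lit 1) (nat_lit 7) (nat_lit 351) (nat_lit 231) r5_351 r9_231 (nat_lit 0) (nat_lit 0) (nat_lit 0) (nat_lit 0x7dcfcb657a) (nat_lit 1074135816),
  Rx.mk (nat_lit 116) (nat_lit 4) (nat_lit 6) (nat_lit 1) (nat_lit 6) (nat_lit 347) (nat_lit 229) r5_347 r9_229 (nat_lit 0) (nat_lit 0) (nat_lit 0) (nat_lit 0x7e53650b5c) (nat_lit 821806128),
  Rx.mk (nat_lit 117) (nat_lit 5) (nat_lit 6) (nat_lit 1) (nat_lit 7) (nat_lit 352) (nat_lit 234) r5_352 r9_234 (nat_lit 0) (nat_lit 0) (nat_lit 0) (nat_lit 0x7dcfcb657a) (nat_lit 1074135816),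
  Rx.mk (nat_lit 119) (nat_lit 7) (nat_lit 6) (nat_lit 1) (nat_lit 7) (nat_lit 355) (nat_lit 236) r5_355 r9_236 (nat_lit 0) (nat_lit 0) (nat_lit 0) (nat_lit 0x7dcbe9e396) (nat_lit 1081577016),
  Rx.mk (nat_lit 212) (nat_lit 4) (nat_lit 2) (nat_lit 3) (nat_lit 6) (nat_lit 348) (nat_lit 227) r5_348 r9_227 (nat_lit 0) (nat_lit 0) (nat_lit 0) (nat_lit 0x7e7a70da78) (nat_lit 746939232),
  Rx.mk (nat_lit 213) (nat_lit 5) (nat_lit 2) (nat_lit 3) (nat_lit 7) (nat_lit 353) (nat_lit 232) r5_353 r9_232 (nat_lit 0) (nat_lit 0) (nat_lit 0) (nat_lit 0x7dcbe9e396) (nat_lit 1081577016)]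
noncomputable def e29_18 : List Rx := [
  Rx.mk (nat_lit 52) (nat_lit 4) (nat_lit 6) (nat_lit 0) (nat_lit 2) (nat_lit 356) (nat_lit 267) r5_356 r10_267 (nat_lit 0) (nat_lit 0) (nat_lit 0) (nat_lit 0x79a5149512) (nat_lit 3119449320),
  Rx.mk (nat_lit 53) (nat_lit 5) (nat_lit 6) (nat_lit 0) (nat_lit 3) (nat_lit 359) (nat_lit 270) r5_359 r10_270 (nat_lit 0) (nat_lit 0) (nat_lit 0) (nat_lit 0x7e01da245c) (nat_lit 978155568),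
  Rx.mk (nat_lit 55) (nat_lit 7) (nat_lit 6) (nat_lit 0) (nat_lit 3) (nat_lit 362) (nat_lit 272) r5_362 r10_272 (nat_lit 0) (nat_lit 0) (nat_lit 0) (nat_lit 0x7df2dd5438) (nat_lit 1006892640),
  Rx.mk (nat_lit 212) (nat_lit 4) (nat_lit 2) (nat_lit 3) (nat_lit 6) (nat_lit 357) (nat_lit 266) r5_357 r10_266 (nat_lit 0) (nat_lit 0) (nat_lit 0) (nat_lit 0x7ed4e452e6) (nat_lit 573508728),
  Rx.mk (nat_lit 213) (nat_lit 5) (nat_lit 2) (nat_lit 3) (nat_lit 7) (nat_lit 360) (nat_lit 269) r5_360 r10_269 (nat_lit 0) (nat_lit 0) (nat_lit 0) (nat_lit 0x7eb07799d6) (nat_lit 643349304),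
  Rx.mk (nat_lit 244) (nat_lit 4) (nat_lit 6) (nat_lit 3) (nat_lit 6) (nat_lit 358) (nat_lit 268) r5_358 r10_268 (nat_lit 0) (nat_lit 0) (nat_lit 0) (nat_lit 0x7e095e2c14) (nat_lit 963744912),
  Rx.mk (nat_lit 245) (nat_lit 5) (nat_lit 6) (nat_lit 3) (nat_lit 7) (nat_lit 361) (nat_lit 271) r5_361 r10_271 (nat_lit 0) (nat_lit 0) (nat_lit 0) (nat_lit 0x7df4315ef6) (nat_lit 1004345784)]
noncomputable def e29_19 : List Rx := [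
  Rx.mk (nat_lit 326) (nat_lit 6) (nat_lit 0) (nat_lit 5) (nat_lit 5) (nat_lit 319) (nat_lit 241) r5_319 r8_241 (nat_lit 0) (nat_lit 0) (nat_lit 0) (nat_lit 0x7d60a6d832) (nat_lit 1287240552),
  Rx.mk (nat_lit 334) (nat_lit 6) (nat_lit 1) (nat_lit 5) (nat_lit 7) (nat_lit 320) (nat_lit 242) r5_320 r8_242 (nat_lit 0) (nat_lit 0) (nat_lit 0) (nat_lit 0x7de9d244f2) (nat_lit 1024232040),
  Rx.mk (nat_lit 342) (nat_lit 6) (nat_lit 2) (nat_lit 5) (nat_lit 7) (nat_lit 321) (nat_lit 243) r5_321 r8_243 (nat_lit 0) (nat_lit 0) (nat_lit 0) (nat_lit 0x7dd8a1f808) (nat_lit 1057189536)]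
noncomputable def e29_20 : List Rx := [
  Rx.mk (nat_lit 262) (nat_lit 6) (nat_lit 0) (nat_lit 4) (nat_lit 1) (nat_lit 51) (nat_lit 82) r5_51 r0_82 (nat_lit 0) (nat_lit 0) (nat_lit 0) (nat_lit 0x618a963514) (nat_lit 14950729872),
  Rx.mk (nat_lit 270) (nat_lit 6) (nat_lit 1) (nat_lit 4) (nat_lit 3) (nat_lit 52) (nat_lit 83) r5_52 r0_83 (nat_lit 0) (nat_lit 0) (nat_lit 0) (nat_lit 0x7c10d4f6a0) (nat_lit 1931140224),
  Rx.mk (nat_lit 278) (nat_lit 6) (nat_lit 2) (nat_lit 4) (nat_lit 3) (nat_lit 53) (nat_lit 84) r5_53 r0_84 (nat_lit 0) (nat_lit 0) (nat_lit 0) (nat_lit 0x7ba7d706e8) (nat_lit 2132451360),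
  Rx.mk (nat_lit 386) (nat_lit 2) (nat_lit 0) (nat_lit 6) (nat_lit 5) (nat_lit 49) (nat_lit 85) r5_49 r0_85 (nat_lit 0) (nat_lit 0) (nat_lit 0) (nat_lit 0x7e22c49594) (nat_lit 915042960),
  Rx.mk (nat_lit 390) (nat_lit 6) (nat_lit 0) (nat_lit 6) (nat_lit 5) (nat_lit 54) (nat_lit 87) r5_54 r0_87 (nat_lit 0) (nat_lit 0) (nat_lit 0) (nat_lit 0x7a8f772dfe) (nat_lit 2670040152),
  Rx.mk (nat_lit 394) (nat_lit 2) (nat_lit 1) (nat_lit 6) (nat_lit 7) (nat_lit 50) (nat_lit 86) r5_50 r0_86 (nat_lit 0) (nat_lit 0) (nat_lit 0) (nat_lit 0x7f7c66ba18) (nat_lit 252326880),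
  Rx.mk (nat_lit 398) (nat_lit 6) (nat_lit 1) (nat_lit 6) (nat_lit 7) (nat_lit 55) (nat_lit 88) r5_55 r0_88 (nat_lit 0) (nat_lit 0) (nat_lit 0) (nat_lit 0x7e4a371e44) (nat_lit 839406672)]
noncomputable def e29_21 : List Rx := [
  Rx.mk (nat_lit 270) (nat_lit 6) (nat_lit 1) (nat_lit 4) (nat_lit 3) (nat_lit 57) (nat_lit 88) r5_57 r1_88 (nat_lit 0) (nat_lit 0) (nat_lit 0) (nat_lit 0x7e6bb54640) (nat_lit 775187712),
  Rx.mk (nat_lit 394) (nat_lit 2) (nat_lit 1) (nat_lit 6) (nat_lit 7) (nat_lit 56) (nat_lit 89) r5_56 r1_89 (nat_lit 0) (nat_lit 0) (nat_lit 0) (nat_lit 0x7f31e242aa) (nat_lit 395206344),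
  Rx.mk (nat_lit 398) (nat_lit 6) (nat_lit 1) (nat_lit 6) (nat_lit 7) (nat_lit 58) (nat_lit 90) r5_58 r1_90 (nat_lit 0) (nat_lit 0) (nat_lit 0) (nat_lit 0x7e406c7af8) (nat_lit 858180960)]
noncomputable def e29_22 : List Rx := [
  Rx.mk (nat_lit 262) (nat_lit 6) (nat_lit 0) (nat_lit 4) (nat_lit 1) (nat_lit 62) (nat_lit 78) r5_62 r4_78 (nat_lit 0) (nat_lit 0) (nat_lit 0) (nat_lit 0x73b85e8660) (nat_lit 6027585408),
  Rx.mk (nat_lit 270) (nat_lit 6) (nat_lit 1) (nat_lit 4) (nat_lit 3) (nat_lit 63) (nat_lit 79) r5_63 r4_79 (nat_lit 0) (nat_lit 0) (nat_lit 0) (nat_lit 0x7e786b1ad6) (nat_lit 750817080),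
  Rx.mk (nat_lit 278) (nat_lit 6) (nat_lit 2) (nat_lit 4) (nat_lit 3) (nat_lit 64) (nat_lit 80) r5_64 r4_80 (nat_lit 0) (nat_lit 0) (nat_lit 0) (nat_lit 0x7cf80582b0) (nat_lit 1487858112),
  Rx.mk (nat_lit 386) (nat_lit 2) (nat_lit 0) (nat_lit 6) (nat_lit 5) (nat_lit 59) (nat_lit 84) r5_59 r4_84 (nat_lit 0) (nat_lit 0) (nat_lit 0) (nat_lit 0x7e271210b8) (nat_lit 906793056),
  Rx.mk (nat_lit 390) (nat_lit 6) (nat_lit 0) (nat_lit 6) (nat_lit 5) (nat_lit 65) (nat_lit 87) r5_65 r4_87 (nat_lit 0) (nat_lit 0) (nat_lit 0) (nat_lit 0x7dc900f228) (nat_lit 1087156512),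
  Rx.mk (nat_lit 394) (nat_lit 2) (nat_lit 1) (nat_lit 6) (nat_lit 7) (nat_lit 60) (nat_lit 85) r5_60 r4_85 (nat_lit 0) (nat_lit 0) (nat_lit 0) (nat_lit 0x7e3b9e07e4) (nat_lit 867396816),
  Rx.mk (nat_lit 398) (nat_lit 6) (nat_lit 1) (nat_lit 6) (nat_lit 7) (nat_lit 66) (nat_lit 88) r5_66 r4_88 (nat_lit 0) (nat_lit 0) (nat_lit 0) (nat_lit 0x7dda26bfba) (nat_lit 1054277640),
  Rx.mk (nat_lit 410) (nat_lit 2) (nat_lit 3) (nat_lit 6) (nat_lit 7) (nat_lit 61) (nat_lit 86) r5_61 r4_86 (nat_lit 0) (nat_lit 0) (nat_lit 0) (nat_lit 0x7e2a2b5f20) (nat_lit 900851328),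
  Rx.mk (nat_lit 454) (nat_lit 6) (nat_lit 0) (nat_lit 7) (nat_lit 5) (nat_lit 67) (nat_lit 81) r5_67 r4_81 (nat_lit 0) (nat_lit 0) (nat_lit 0) (nat_lit 0x725645c94e) (nat_lit 6706528920),
  Rx.mk (nat_lit 462) (nat_lit 6) (nat_lit 1) (nat_lit 7) (nat_lit 7) (nat_lit 68) (nat_lit 82) r5_68 r4_82 (nat_lit 0) (nat_lit 0) (nat_lit 0) (nat_lit 0x7efcc334d0) (nat_lit 497060928),
  Rx.mk (nat_lit 470) (nat_lit 6) (nat_lit 2) (nat_lit 7) (nat_lit 7) (nat_lit 69) (nat_lit 83) r5_69 r4_83 (nat_lit 0) (nat_lit 0) (nat_lit 0) (nat_lit 0x7ee231fdfe) (nat_lit 548000856)]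
noncomputable def e29_23 : List Rx := [
  Rx.mk (nat_lit 262) (nat_lit 6) (nat_lit 0) (nat_lit 4) (nat_lit 1) (nat_lit 195) (nat_lit 293) r5_195 r6_293 (nat_lit 0) (nat_lit 0) (nat_lit 0) (nat_lit 0x75d0a39ff6) (nat_lit 4999343544),
  Rx.mk (nat_lit 270) (nat_lit 6) (nat_lit 1) (nat_lit 4) (nat_lit 3) (nat_lit 196) (nat_lit 297) r5_196 r6_297 (nat_lit 0) (nat_lit 0) (nat_lit 0) (nat_lit 0x7e3c4d7cec) (nat_lit 866082672),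
  Rx.mk (nat_lit 278) (nat_lit 6) (nat_lit 2) (nat_lit 4) (nat_lit 3) (nat_lit 197) (nat_lit 301) r5_197 r6_301 (nat_lit 0) (nat_lit 0) (nat_lit 0) (nat_lit 0x7e7262db60) (nat_lit 762383232),
  Rx.mk (nat_lit 326) (nat_lit 6) (nat_lit 0) (nat_lit 5) (nat_lit 5) (nat_lit 198) (nat_lit 294) r5_198 r6_294 (nat_lit 0) (nat_lit 0) (nat_lit 0) (nat_lit 0x7e658ba8e0) (nat_lit 787003776),
  Rx.mk (nat_lit 334) (nat_lit 6) (nat_lit 1) (nat_lit 5) (nat_lit 7) (nat_lit 199) (nat_lit 298) r5_199 r6_298 (nat_lit 0) (nat_lit 0) (nat_lit 0) (nat_lit 0x7dd032df02) (nat_lit 1073360808),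
  Rx.mk (nat_lit 342) (nat_lit 6) (nat_lit 2) (nat_lit 5) (nat_lit 7) (nat_lit 200) (nat_lit 302) r5_200 r6_302 (nat_lit 0) (nat_lit 0) (nat_lit 0) (nat_lit 0x7e468179a2) (nat_lit 846519336),
  Rx.mk (nat_lit 386) (nat_lit 2) (nat_lit 0) (nat_lit 6) (nat_lit 5) (nat_lit 193) (nat_lit 296) r5_193 r6_296 (nat_lit 0) (nat_lit 0) (nat_lit 0) (nat_lit 0x7e9d322e40) (nat_lit 680299776),
  Rx.mk (nat_lit 390) (nat_lit 6) (nat_lit 0) (nat_lit 6) (nat_lit 5) (nat_lit 201) (nat_lit 295) r5_201 r6_295 (nat_lit 0) (nat_lit 0) (nat_lit 0) (nat_lit 0x7dc43a5e96) (nat_lit 1096313400),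
  Rx.mk (nat_lit 394) (nat_lit 2) (nat_lit 1) (nat_lit 6) (nat_lit 7) (nat_lit 194) (nat_lit 300) r5_194 r6_300 (nat_lit 0) (nat_lit 0) (nat_lit 0) (nat_lit 0x7e6dd4e444) (nat_lit 771116112),
  Rx.mk (nat_lit 398) (nat_lit 6) (nat_lit 1) (nat_lit 6) (nat_lit 7) (nat_lit 202) (nat_lit 299) r5_202 r6_299 (nat_lit 0) (nat_lit 0) (nat_lit 0) (nat_lit 0x7dd8ca1586) (nat_lit 1056889080)]
noncomputable def e29_24 : List Rx := [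
  Rx.mk (nat_lit 270) (nat_lit 6) (nat_lit 1) (nat_lit 4) (nat_lit 3) (nat_lit 207) (nat_lit 221) r5_207 r7_221 (nat_lit 0) (nat_lit 0) (nat_lit 0) (nat_lit 0x7dbcf8b2b8) (nat_lit 1110227040),
  Rx.mk (nat_lit 334) (nat_lit 6) (nat_lit 1) (nat_lit 5) (nat_lit 7) (nat_lit 208) (nat_lit 222) r5_208 r7_222 (nat_lit 0) (nat_lit 0) (nat_lit 0) (nat_lit 0x7e020c013e) (nat_lit 977782104),
  Rx.mk (nat_lit 394) (nat_lit 2) (nat_lit 1) (nat_lit 6) (nat_lit 7) (nat_lit 206) (nat_lit 224) r5_206 r7_224 (nat_lit 0) (nat_lit 0) (nat_lit 0) (nat_lit 0x7dd520102a) (nat_lit 1063914696),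
  Rx.mk (nat_lit 398) (nat_lit 6) (nat_lit 1) (nat_lit 6) (nat_lit 7) (nat_lit 209) (nat_lit 223) r5_209 r7_223 (nat_lit 0) (nat_lit 0) (nat_lit 0) (nat_lit 0x7dedf682aa) (nat_lit 1016291016)]
noncomputable def e29_25 : List Rx := [
  Rx.mk (nat_lit 326) (nat_lit 6) (nat_lit 0) (nat_lit 5) (nat_lit 5) (nat_lit 203) (nat_lit 71) r5_203 r7_71 (nat_lit 0) (nat_lit 0) (nat_lit 0) (nat_lit 0x7e43268f54) (nat_lit 852952464),
  Rx.mk (nat_lit 334) (nat_lit 6) (nat_lit 1) (nat_lit 5) (nat_lit 7) (nat_lit 204) (nat_lit 72) r5_204 r7_72 (nat_lit 0) (nat_lit 0) (nat_lit 0) (nat_lit 0x7df5604c06) (nat_lit 1002076920),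
  Rx.mk (nat_lit 342) (nat_lit 6) (nat_lit 2) (nat_lit 5) (nat_lit 7) (nat_lit 205) (nat_lit 73) r5_205 r7_73 (nat_lit 0) (nat_lit 0) (nat_lit 0) (nat_lit 0x7dbca6f7d4) (nat_lit 1110839184)]
noncomputable def e29_26 : List Rx := [
  Rx.mk (nat_lit 262) (nat_lit 6) (nat_lit 0) (nat_lit 4) (nat_lit 1) (nat_lit 213) (nat_lit 244) r5_213 r9_244 (nat_lit 0) (nat_lit 0) (nat_lit 0) (nat_lit 0x73ce85c3d6) (nat_lit 5985108792),
  Rx.mk (nat_lit 270) (nat_lit 6) (nat_lit 1) (nat_lit 4) (nat_lit 3) (nat_lit 214) (nat_lit 249) r5_214 r9_249 (nat_lit 0) (nat_lit 0) (nat_lit 0) (nat_lit 0x7e23b6c670) (nat_lit 913228992),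
  Rx.mk (nat_lit 278) (nat_lit 6) (nat_lit 2) (nat_lit 4) (nat_lit 3) (nat_lit 215) (nat_lit 254) r5_215 r9_254 (nat_lit 0) (nat_lit 0) (nat_lit 0) (nat_lit 0x7e66094106) (nat_lit 786063096),
  Rx.mk (nat_lit 326) (nat_lit 6) (nat_lit 0) (nat_lit 5) (nat_lit 5) (nat_lit 216) (nat_lit 245) r5_216 r9_245 (nat_lit 0) (nat_lit 0) (nat_lit 0) (nat_lit 0x7e4ca1579e) (nat_lit 834776280),
  Rx.mk (nat_lit 342) (nat_lit 6) (nat_lit 2) (nat_lit 5) (nat_lit 7) (nat_lit 217) (nat_lit 255) r5_217 r9_255 (nat_lit 0) (nat_lit 0) (nat_lit 0) (nat_lit 0x7def760ab0) (nat_lit 1013418432),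
  Rx.mk (nat_lit 386) (nat_lit 2) (nat_lit 0) (nat_lit 6) (nat_lit 5) (nat_lit 210) (nat_lit 248) r5_210 r9_248 (nat_lit 0) (nat_lit 0) (nat_lit 0) (nat_lit 0x7e8b7789fc) (nat_lit 714293424),
  Rx.mk (nat_lit 390) (nat_lit 6) (nat_lit 0) (nat_lit 6) (nat_lit 5) (nat_lit 218) (nat_lit 247) r5_218 r9_247 (nat_lit 0) (nat_lit 0) (nat_lit 0) (nat_lit 0x7d97e9a3ce) (nat_lit 1181283480),
  Rx.mk (nat_lit 394) (nat_lit 2) (nat_lit 1) (nat_lit 6) (nat_lit 7) (nat_lit 211) (nat_lit 252) r5_211 r9_252 (nat_lit 0) (nat_lit 0) (nat_lit 0) (nat_lit 0x7e727d79b6) (nat_lit 762183864),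
  Rx.mk (nat_lit 398) (nat_lit 6) (nat_lit 1) (nat_lit 6) (nat_lit 7) (nat_lit 219) (nat_lit 251) r5_219 r9_251 (nat_lit 0) (nat_lit 0) (nat_lit 0) (nat_lit 0x7dedcb0562) (nat_lit 1016616744),
  Rx.mk (nat_lit 410) (nat_lit 2) (nat_lit 3) (nat_lit 6) (nat_lit 7) (nat_lit 212) (nat_lit 253) r5_212 r9_253 (nat_lit 0) (nat_lit 0) (nat_lit 0) (nat_lit 0x7e762bfeca) (nat_lit 755124552),
  Rx.mk (nat_lit 454) (nat_lit 6) (nat_lit 0) (nat_lit 7) (nat_lit 5) (nat_lit 220) (nat_lit 246) r5_220 r9_246 (nat_lit 0) (nat_lit 0) (nat_lit 0) (nat_lit 0x7e38dd93ee) (nat_lit 872673048),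
  Rx.mk (nat_lit 462) (nat_lit 6) (nat_lit 1) (nat_lit 7) (nat_lit 7) (nat_lit 221) (nat_lit 250) r5_221 r9_250 (nat_lit 0) (nat_lit 0) (nat_lit 0) (nat_lit 0x7de0283f9c) (nat_lit 1042762032),
  Rx.mk (nat_lit 470) (nat_lit 6) (nat_lit 2) (nat_lit 7) (nat_lit 7) (nat_lit 222) (nat_lit 256) r5_222 r9_256 (nat_lit 0) (nat_lit 0) (nat_lit 0) (nat_lit 0x7decc13600) (nat_lit 1018607616)]
noncomputable def e29_27 : List Rx := [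
  Rx.mk (nat_lit 454) (nat_lit 6) (nat_lit 0) (nat_lit 7) (nat_lit 5) (nat_lit 254) (nat_lit 284) r5_254 r10_284 (nat_lit 0) (nat_lit 0) (nat_lit 0) (nat_lit 0x7e9ce972cc) (nat_lit 680844528),
  Rx.mk (nat_lit 462) (nat_lit 6) (nat_lit 1) (nat_lit 7) (nat_lit 7) (nat_lit 255) (nat_lit 285) r5_255 r10_285 (nat_lit 0) (nat_lit 0) (nat_lit 0) (nat_lit 0x7eb3926826) (nat_lit 637396344),
  Rx.mk (nat_lit 470) (nat_lit 6) (nat_lit 2) (nat_lit 7) (nat_lit 7) (nat_lit 256) (nat_lit 286) r5_256 r10_286 (nat_lit 0) (nat_lit 0) (nat_lit 0) (nat_lit 0x7eba8a38a2) (nat_lit 624035880)]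
noncomputable def e29_28 : List Rx := [
  Rx.mk (nat_lit 20) (nat_lit 4) (nat_lit 2) (nat_lit 0) (nat_lit 2) (nat_lit 367) (nat_lit 267) r5_367 r10_267 (nat_lit 0) (nat_lit 0) (nat_lit 0) (nat_lit 0x79a5149512) (nat_lit 3119449320),
  Rx.mk (nat_lit 23) (nat_lit 7) (nat_lit 2) (nat_lit 0) (nat_lit 3) (nat_lit 370) (nat_lit 268) r5_370 r10_268 (nat_lit 0) (nat_lit 0) (nat_lit 0) (nat_lit 0x7e095e2c14) (nat_lit 963744912),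
  Rx.mk (nat_lit 55) (nat_lit 7) (nat_lit 6) (nat_lit 0) (nat_lit 3) (nat_lit 371) (nat_lit 266) r5_371 r10_266 (nat_lit 0) (nat_lit 0) (nat_lit 0) (nat_lit 0x7ed4e452e6) (nat_lit 573508728),
  Rx.mk (nat_lit 84) (nat_lit 4) (nat_lit 2) (nat_lit 1) (nat_lit 6) (nat_lit 368) (nat_lit 270) r5_368 r10_270 (nat_lit 0) (nat_lit 0) (nat_lit 0) (nat_lit 0x7e01da245c) (nat_lit 978155568),
  Rx.mk (nat_lit 87) (nat_lit 7) (nat_lit 2) (nat_lit 1) (nat_lit 7) (nat_lit 372) (nat_lit 271) r5_372 r10_271 (nat_lit 0) (nat_lit 0) (nat_lit 0) (nat_lit 0x7df4315ef6) (nat_lit 1004345784),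
  Rx.mk (nat_lit 119) (nat_lit 7) (nat_lit 6) (nat_lit 1) (nat_lit 7) (nat_lit 373) (nat_lit 269) r5_373 r10_269 (nat_lit 0) (nat_lit 0) (nat_lit 0) (nat_lit 0x7eb07799d6) (nat_lit 643349304),
  Rx.mk (nat_lit 212) (nat_lit 4) (nat_lit 2) (nat_lit 3) (nat_lit 6) (nat_lit 369) (nat_lit 272) r5_369 r10_272 (nat_lit 0) (nat_lit 0) (nat_lit 0) (nat_lit 0x7df2dd5438) (nat_lit 1006892640)]
noncomputable def e29_29 : List Rx := [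
  Rx.mk (nat_lit 51) (nat_lit 3) (nat_lit 6) (nat_lit 0) (nat_lit 3) (nat_lit 74) (nat_lit 80) r5_74 r5_80 (nat_lit 0) (nat_lit 0) (nat_lit 0) (nat_lit 0x7f1b9167ce) (nat_lit 437994648),
  Rx.mk (nat_lit 163) (nat_lit 3) (nat_lit 4) (nat_lit 2) (nat_lit 5) (nat_lit 75) (nat_lit 82) r5_75 r5_82 (nat_lit 0) (nat_lit 0) (nat_lit 0) (nat_lit 0x7c72d1b672) (nat_lit 1743259752),
  Rx.mk (nat_lit 179) (nat_lit 3) (nat_lit 6) (nat_lit 2) (nat_lit 7) (nat_lit 76) (nat_lit 84) r5_76 r5_84 (nat_lit 0) (nat_lit 0) (nat_lit 0) (nat_lit 0x7f92b974d6) (nat_lit 209524536),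
  Rx.mk (nat_lit 184) (nat_lit 0) (nat_lit 7) (nat_lit 2) (nat_lit 6) (nat_lit 70) (nat_lit 79) r5_70 r5_79 (nat_lit 0) (nat_lit 0) (nat_lit 0) (nat_lit 0x7f1b9167ce) (nat_lit 437994648),
  Rx.mk (nat_lit 186) (nat_lit 2) (nat_lit 7) (nat_lit 2) (nat_lit 7) (nat_lit 71) (nat_lit 87) r5_71 r5_87 (nat_lit 0) (nat_lit 0) (nat_lit 0) (nat_lit 0x7b9a5a7ebe) (nat_lit 2158310232),
  Rx.mk (nat_lit 187) (nat_lit 3) (nat_lit 7) (nat_lit 2) (nat_lit 7) (nat_lit 77) (nat_lit 83) r5_77 r5_83 (nat_lit 0) (nat_lit 0) (nat_lit 0) (nat_lit 0x7f92b974d6) (nat_lit 209524536),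
  Rx.mk (nat_lit 215) (nat_lit 7) (nat_lit 2) (nat_lit 3) (nat_lit 7) (nat_lit 85) (nat_lit 73) r5_85 r5_73 (nat_lit 0) (nat_lit 0) (nat_lit 0) (nat_lit 0x7f4c02a08a) (nat_lit 345111624),
  Rx.mk (nat_lit 243) (nat_lit 3) (nat_lit 6) (nat_lit 3) (nat_lit 7) (nat_lit 78) (nat_lit 81) r5_78 r5_81 (nat_lit 0) (nat_lit 0) (nat_lit 0) (nat_lit 0x7b9a5a7ebe) (nat_lit 2158310232),
  Rx.mk (nat_lit 247) (nat_lit 7) (nat_lit 6) (nat_lit 3) (nat_lit 7) (nat_lit 86) (nat_lit 72) r5_86 r5_72 (nat_lit 0) (nat_lit 0) (nat_lit 0) (nat_lit 0x7f4c02a08a) (nat_lit 345111624),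
  Rx.mk (nat_lit 286) (nat_lit 6) (nat_lit 3) (nat_lit 4) (nat_lit 3) (nat_lit 80) (nat_lit 74) r5_80 r5_74 (nat_lit 0) (nat_lit 0) (nat_lit 0) (nat_lit 0x7f1b9167ce) (nat_lit 437994648),
  Rx.mk (nat_lit 410) (nat_lit 2) (nat_lit 3) (nat_lit 6) (nat_lit 7) (nat_lit 72) (nat_lit 86) r5_72 r5_86 (nat_lit 0) (nat_lit 0) (nat_lit 0) (nat_lit 0x7f4c02a08a) (nat_lit 345111624),
  Rx.mk (nat_lit 414) (nat_lit 6) (nat_lit 3) (nat_lit 6) (nat_lit 7) (nat_lit 81) (nat_lit 78) r5_81 r5_78 (nat_lit 0) (nat_lit 0) (nat_lit 0) (nat_lit 0x7b9a5a7ebe) (nat_lit 2158310232),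
  Rx.mk (nat_lit 442) (nat_lit 2) (nat_lit 7) (nat_lit 6) (nat_lit 7) (nat_lit 73) (nat_lit 85) r5_73 r5_85 (nat_lit 0) (nat_lit 0) (nat_lit 0) (nat_lit 0x7f4c02a08a) (nat_lit 345111624),
  Rx.mk (nat_lit 454) (nat_lit 6) (nat_lit 0) (nat_lit 7) (nat_lit 5) (nat_lit 82) (nat_lit 75) r5_82 r5_75 (nat_lit 0) (nat_lit 0) (nat_lit 0) (nat_lit 0x7c72d1b672) (nat_lit 1743259752),
  Rx.mk (nat_lit 468) (nat_lit 4) (nat_lit 2) (nat_lit 7) (nat_lit 6) (nat_lit 79) (nat_lit 70) r5_79 r5_70 (nat_lit 0) (nat_lit 0) (nat_lit 0) (nat_lit 0x7f1b9167ce) (nat_lit 437994648),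
  Rx.mk (nat_lit 470) (nat_lit 6) (nat_lit 2) (nat_lit 7) (nat_lit 7) (nat_lit 83) (nat_lit 77) r5_83 r5_77 (nat_lit 0) (nat_lit 0) (nat_lit 0) (nat_lit 0x7f92b974d6) (nat_lit 209524536),
  Rx.mk (nat_lit 471) (nat_lit 7) (nat_lit 2) (nat_lit 7) (nat_lit 7) (nat_lit 87) (nat_lit 71) r5_87 r5_71 (nat_lit 0) (nat_lit 0) (nat_lit 0) (nat_lit 0x7b9a5a7ebe) (nat_lit 2158310232),
  Rx.mk (nat_lit 478) (nat_lit 6) (nat_lit 3) (nat_lit 7) (nat_lit 7) (nat_lit 84) (nat_lit 76) r5_84 r5_76 (nat_lit 0) (nat_lit 0) (nat_lit 0) (nat_lit 0x7f92b974d6) (nat_lit 209524536)]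
noncomputable def e29_30 : List Rx := [
  Rx.mk (nat_lit 262) (nat_lit 6) (nat_lit 0) (nat_lit 4) (nat_lit 1) (nat_lit 227) (nat_lit 54) r5_227 r10_54 (nat_lit 0) (nat_lit 0) (nat_lit 0) (nat_lit 0x75b5e9ebac) (nat_lit 5050586736),
  Rx.mk (nat_lit 276) (nat_lit 4) (nat_lit 2) (nat_lit 4) (nat_lit 2) (nat_lit 224) (nat_lit 53) r5_224 r10_53 (nat_lit 0) (nat_lit 0) (nat_lit 0) (nat_lit 0x7b5c1d42d0) (nat_lit 2277647424),
  Rx.mk (nat_lit 278) (nat_lit 6) (nat_lit 2) (nat_lit 4) (nat_lit 3) (nat_lit 228) (nat_lit 56) r5_228 r10_56 (nat_lit 0) (nat_lit 0) (nat_lit 0) (nat_lit 0x7e2b4d2d02) (nat_lit 898680744),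
  Rx.mk (nat_lit 286) (nat_lit 6) (nat_lit 3) (nat_lit 4) (nat_lit 3) (nat_lit 229) (nat_lit 55) r5_229 r10_55 (nat_lit 0) (nat_lit 0) (nat_lit 0) (nat_lit 0x7d9fc50610) (nat_lit 1166218560),
  Rx.mk (nat_lit 326) (nat_lit 6) (nat_lit 0) (nat_lit 5) (nat_lit 5) (nat_lit 230) (nat_lit 58) r5_230 r10_58 (nat_lit 0) (nat_lit 0) (nat_lit 0) (nat_lit 0x7de6df9420) (nat_lit 1029884544),
  Rx.mk (nat_lit 340) (nat_lit 4) (nat_lit 2) (nat_lit 5) (nat_lit 6) (nat_lit 225) (nat_lit 57) r5_225 r10_57 (nat_lit 0) (nat_lit 0) (nat_lit 0) (nat_lit 0x7d9ee59408) (nat_lit 1167892128),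
  Rx.mk (nat_lit 342) (nat_lit 6) (nat_lit 2) (nat_lit 5) (nat_lit 7) (nat_lit 231) (nat_lit 60) r5_231 r10_60 (nat_lit 0) (nat_lit 0) (nat_lit 0) (nat_lit 0x7df675baae) (nat_lit 999999000),
  Rx.mk (nat_lit 350) (nat_lit 6) (nat_lit 3) (nat_lit 5) (nat_lit 7) (nat_lit 232) (nat_lit 59) r5_232 r10_59 (nat_lit 0) (nat_lit 0) (nat_lit 0) (nat_lit 0x7df1199076) (nat_lit 1010276280),
  Rx.mk (nat_lit 390) (nat_lit 6) (nat_lit 0) (nat_lit 6) (nat_lit 5) (nat_lit 233) (nat_lit 66) r5_233 r10_66 (nat_lit 0) (nat_lit 0) (nat_lit 0) (nat_lit 0x7db1f38316) (nat_lit 1131357240),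
  Rx.mk (nat_lit 410) (nat_lit 2) (nat_lit 3) (nat_lit 6) (nat_lit 7) (nat_lit 223) (nat_lit 65) r5_223 r10_65 (nat_lit 0) (nat_lit 0) (nat_lit 0) (nat_lit 0x7eb9830916) (nat_lit 626007096),
  Rx.mk (nat_lit 414) (nat_lit 6) (nat_lit 3) (nat_lit 6) (nat_lit 7) (nat_lit 234) (nat_lit 67) r5_234 r10_67 (nat_lit 0) (nat_lit 0) (nat_lit 0) (nat_lit 0x7dc21520ec) (nat_lit 1100427120),
  Rx.mk (nat_lit 454) (nat_lit 6) (nat_lit 0) (nat_lit 7) (nat_lit 5) (nat_lit 235) (nat_lit 63) r5_235 r10_63 (nat_lit 0) (nat_lit 0) (nat_lit 0) (nat_lit 0x7dd58429e8) (nat_lit 1063164960),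
  Rx.mk (nat_lit 468) (nat_lit 4) (nat_lit 2) (nat_lit 7) (nat_lit 6) (nat_lit 226) (nat_lit 61) r5_226 r10_61 (nat_lit 0) (nat_lit 0) (nat_lit 0) (nat_lit 0x7df4237fd4) (nat_lit 1004449680),
  Rx.mk (nat_lit 470) (nat_lit 6) (nat_lit 2) (nat_lit 7) (nat_lit 7) (nat_lit 236) (nat_lit 64) r5_236 r10_64 (nat_lit 0) (nat_lit 0) (nat_lit 0) (nat_lit 0x7ddaeb3372) (nat_lit 1052806248),
  Rx.mk (nat_lit 471) (nat_lit 7) (nat_lit 2) (nat_lit 7) (nat_lit 7) (nat_lit 237) (nat_lit 62) r5_237 r10_62 (nat_lit 0) (nat_lit 0) (nat_lit 0) (nat_lit 0x7df4675b96) (nat_lit 1003941432)]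
noncomputable def e29_31 : List Rx := [
  Rx.mk (nat_lit 23) (nat_lit 7) (nat_lit 2) (nat_lit 0) (nat_lit 3) (nat_lit 261) (nat_lit 257) r5_261 r5_257 (nat_lit 0) (nat_lit 0) (nat_lit 0) (nat_lit 0x7c65eb24e8) (nat_lit 1767995424),
  Rx.mk (nat_lit 51) (nat_lit 3) (nat_lit 6) (nat_lit 0) (nat_lit 3) (nat_lit 257) (nat_lit 261) r5_257 r5_261 (nat_lit 0) (nat_lit 0) (nat_lit 0) (nat_lit 0x7c65eb24e8) (nat_lit 1767995424),
  Rx.mk (nat_lit 55) (nat_lit 7) (nat_lit 6) (nat_lit 0) (nat_lit 3) (nat_lit 262) (nat_lit 262) r5_262 r5_262 (nat_lit 0) (nat_lit 0) (nat_lit 0) (nat_lit 0x7b8b7f6c7e) (nat_lit 2186794584),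
  Rx.mk (nat_lit 163) (nat_lit 3) (nat_lit 4) (nat_lit 2) (nat_lit 5) (nat_lit 258) (nat_lit 260) r5_258 r5_260 (nat_lit 0) (nat_lit 0) (nat_lit 0) (nat_lit 0x7dd172ab04) (nat_lit 1070965584),
  Rx.mk (nat_lit 179) (nat_lit 3) (nat_lit 6) (nat_lit 2) (nat_lit 7) (nat_lit 259) (nat_lit 263) r5_259 r5_263 (nat_lit 0) (nat_lit 0) (nat_lit 0) (nat_lit 0x7efe08a078) (nat_lit 494623584),
  Rx.mk (nat_lit 212) (nat_lit 4) (nat_lit 2) (nat_lit 3) (nat_lit 6) (nat_lit 260) (nat_lit 258) r5_260 r5_258 (nat_lit 0) (nat_lit 0) (nat_lit 0) (nat_lit 0x7dd172ab04) (nat_lit 1070965584),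
  Rx.mk (nat_lit 215) (nat_lit 7) (nat_lit 2) (nat_lit 3) (nat_lit 7) (nat_lit 263) (nat_lit 259) r5_263 r5_259 (nat_lit 0) (nat_lit 0) (nat_lit 0) (nat_lit 0x7efe08a078) (nat_lit 494623584)]
noncomputable def e29_32 : List Rx := [
  Rx.mk (nat_lit 51) (nat_lit 3) (nat_lit 6) (nat_lit 0) (nat_lit 3) (nat_lit 264) (nat_lit 260) r5_264 r11_260 (nat_lit 0) (nat_lit 0) (nat_lit 0) (nat_lit 0x7e74b4b640) (nat_lit 757935360),
  Rx.mk (nat_lit 55) (nat_lit 7) (nat_lit 6) (nat_lit 0) (nat_lit 3) (nat_lit 273) (nat_lit 265) r5_273 r11_265 (nat_lit 0) (nat_lit 0) (nat_lit 0) (nat_lit 0x7f06f551a4) (nat_lit 477511632),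
  Rx.mk (nat_lit 163) (nat_lit 3) (nat_lit 4) (nat_lit 2) (nat_lit 5) (nat_lit 265) (nat_lit 258) r5_265 r11_258 (nat_lit 0) (nat_lit 0) (nat_lit 0) (nat_lit 0x7edcd813a2) (nat_lit 558261288),
  Rx.mk (nat_lit 179) (nat_lit 3) (nat_lit 6) (nat_lit 2) (nat_lit 7) (nat_lit 266) (nat_lit 261) r5_266 r11_261 (nat_lit 0) (nat_lit 0) (nat_lit 0) (nat_lit 0x7f6f268e28) (nat_lit 277733664),
  Rx.mk (nat_lit 187) (nat_lit 3) (nat_lit 7) (nat_lit 2) (nat_lit 7) (nat_lit 267) (nat_lit 259) r5_267 r11_259 (nat_lit 0) (nat_lit 0) (nat_lit 0) (nat_lit 0x7f668ad7ec) (nat_lit 294239088),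
  Rx.mk (nat_lit 212) (nat_lit 4) (nat_lit 2) (nat_lit 3) (nat_lit 6) (nat_lit 268) (nat_lit 262) r5_268 r11_262 (nat_lit 0) (nat_lit 0) (nat_lit 0) (nat_lit 0x7f06f551a4) (nat_lit 477511632),
  Rx.mk (nat_lit 215) (nat_lit 7) (nat_lit 2) (nat_lit 3) (nat_lit 7) (nat_lit 274) (nat_lit 264) r5_274 r11_264 (nat_lit 0) (nat_lit 0) (nat_lit 0) (nat_lit 0x7f7f7d08b0) (nat_lit 246407616),
  Rx.mk (nat_lit 247) (nat_lit 7) (nat_lit 6) (nat_lit 3) (nat_lit 7) (nat_lit 275) (nat_lit 266) r5_275 r11_266 (nat_lit 0) (nat_lit 0) (nat_lit 0) (nat_lit 0x7f7f7d08b0) (nat_lit 246407616),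
  Rx.mk (nat_lit 454) (nat_lit 6) (nat_lit 0) (nat_lit 7) (nat_lit 5) (nat_lit 270) (nat_lit 267) r5_270 r11_267 (nat_lit 0) (nat_lit 0) (nat_lit 0) (nat_lit 0x7edcd813a2) (nat_lit 558261288),
  Rx.mk (nat_lit 468) (nat_lit 4) (nat_lit 2) (nat_lit 7) (nat_lit 6) (nat_lit 269) (nat_lit 263) r5_269 r11_263 (nat_lit 0) (nat_lit 0) (nat_lit 0) (nat_lit 0x7e74b4b640) (nat_lit 757935360),
  Rx.mk (nat_lit 470) (nat_lit 6) (nat_lit 2) (nat_lit 7) (nat_lit 7) (nat_lit 271) (nat_lit 269) r5_271 r11_269 (nat_lit 0) (nat_lit 0) (nat_lit 0) (nat_lit 0x7f6f268e28) (nat_lit 277733664),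
  Rx.mk (nat_lit 478) (nat_lit 6) (nat_lit 3) (nat_lit 7) (nat_lit 7) (nat_lit 272) (nat_lit 268) r5_272 r11_268 (nat_lit 0) (nat_lit 0) (nat_lit 0) (nat_lit 0x7f668ad7ec) (nat_lit 294239088)]
noncomputable def e29_33 : List Rx := [
  Rx.mk (nat_lit 160) (nat_lit 0) (nat_lit 4) (nat_lit 2) (nat_lit 4) (nat_lit 0) (nat_lit 82) r5_0 r0_82 (nat_lit 0) (nat_lit 0) (nat_lit 0) (nat_lit 0x618a963514) (nat_lit 14950729872),
  Rx.mk (nat_lit 162) (nat_lit 2) (nat_lit 4) (nat_lit 2) (nat_lit 5) (nat_lit 3) (nat_lit 87) r5_3 r0_87 (nat_lit 0) (nat_lit 0) (nat_lit 0) (nat_lit 0x7a8f772dfe) (nat_lit 2670040152),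
  Rx.mk (nat_lit 168) (nat_lit 0) (nat_lit 5) (nat_lit 2) (nat_lit 6) (nat_lit 1) (nat_lit 83) r5_1 r0_83 (nat_lit 0) (nat_lit 0) (nat_lit 0) (nat_lit 0x7c10d4f6a0) (nat_lit 1931140224),
  Rx.mk (nat_lit 170) (nat_lit 2) (nat_lit 5) (nat_lit 2) (nat_lit 7) (nat_lit 4) (nat_lit 88) r5_4 r0_88 (nat_lit 0) (nat_lit 0) (nat_lit 0) (nat_lit 0x7e4a371e44) (nat_lit 839406672),
  Rx.mk (nat_lit 176) (nat_lit 0) (nat_lit 6) (nat_lit 2) (nat_lit 6) (nat_lit 2) (nat_lit 84) r5_2 r0_84 (nat_lit 0) (nat_lit 0) (nat_lit 0) (nat_lit 0x7ba7d706e8) (nat_lit 2132451360),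
  Rx.mk (nat_lit 418) (nat_lit 2) (nat_lit 4) (nat_lit 6) (nat_lit 5) (nat_lit 5) (nat_lit 85) r5_5 r0_85 (nat_lit 0) (nat_lit 0) (nat_lit 0) (nat_lit 0x7e22c49594) (nat_lit 915042960),
  Rx.mk (nat_lit 426) (nat_lit 2) (nat_lit 5) (nat_lit 6) (nat_lit 7) (nat_lit 6) (nat_lit 86) r5_6 r0_86 (nat_lit 0) (nat_lit 0) (nat_lit 0) (nat_lit 0x7f7c66ba18) (nat_lit 252326880)]
noncomputable def e29_34 : List Rx := [
  Rx.mk (nat_lit 48) (nat_lit 0) (nat_lit 6) (nat_lit 0) (nat_lit 2) (nat_lit 98) (nat_lit 232) r5_98 r0_232 (nat_lit 0) (nat_lit 0) (nat_lit 0) (nat_lit 0x75597c52e2) (nat_lit 5227808040),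
  Rx.mk (nat_lit 49) (nat_lit 1) (nat_lit 6) (nat_lit 0) (nat_lit 3) (nat_lit 101) (nat_lit 233) r5_101 r0_233 (nat_lit 0) (nat_lit 0) (nat_lit 0) (nat_lit 0x7fa8fdf078) (nat_lit 166828896),
  Rx.mk (nat_lit 160) (nat_lit 0) (nat_lit 4) (nat_lit 2) (nat_lit 4) (nat_lit 99) (nat_lit 228) r5_99 r0_228 (nat_lit 0) (nat_lit 0) (nat_lit 0) (nat_lit 0x746fc68f28) (nat_lit 5675922720),
  Rx.mk (nat_lit 161) (nat_lit 1) (nat_lit 4) (nat_lit 2) (nat_lit 5) (nat_lit 102) (nat_lit 229) r5_102 r0_229 (nat_lit 0) (nat_lit 0) (nat_lit 0) (nat_lit 0x7f864e9b90) (nat_lit 233333568),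
  Rx.mk (nat_lit 162) (nat_lit 2) (nat_lit 4) (nat_lit 2) (nat_lit 5) (nat_lit 104) (nat_lit 230) r5_104 r0_230 (nat_lit 0) (nat_lit 0) (nat_lit 0) (nat_lit 0x7d3f0c91f8) (nat_lit 1351670112),
  Rx.mk (nat_lit 176) (nat_lit 0) (nat_lit 6) (nat_lit 2) (nat_lit 6) (nat_lit 100) (nat_lit 234) r5_100 r0_234 (nat_lit 0) (nat_lit 0) (nat_lit 0) (nat_lit 0x7ee77f2926) (nat_lit 537835896),
  Rx.mk (nat_lit 177) (nat_lit 1) (nat_lit 6) (nat_lit 2) (nat_lit 7) (nat_lit 103) (nat_lit 235) r5_103 r0_235 (nat_lit 0) (nat_lit 0) (nat_lit 0) (nat_lit 0x7f62ec71d6) (nat_lit 301177656),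
  Rx.mk (nat_lit 418) (nat_lit 2) (nat_lit 4) (nat_lit 6) (nat_lit 5) (nat_lit 105) (nat_lit 231) r5_105 r0_231 (nat_lit 0) (nat_lit 0) (nat_lit 0) (nat_lit 0x7b678c2bd6) (nat_lit 2255725368)]
noncomputable def e29_35 : List Rx := [
  Rx.mk (nat_lit 160) (nat_lit 0) (nat_lit 4) (nat_lit 2) (nat_lit 4) (nat_lit 106) (nat_lit 78) r5_106 r6_78 (nat_lit 0) (nat_lit 0) (nat_lit 0) (nat_lit 0x75d0a39ff6) (nat_lit 4999343544),
  Rx.mk (nat_lit 161) (nat_lit 1) (nat_lit 4) (nat_lit 2) (nat_lit 5) (nat_lit 109) (nat_lit 81) r5_109 r6_81 (nat_lit 0) (nat_lit 0) (nat_lit 0) (nat_lit 0x7e658ba8e0) (nat_lit 787003776),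
  Rx.mk (nat_lit 162) (nat_lit 2) (nat_lit 4) (nat_lit 2) (nat_lit 5) (nat_lit 112) (nat_lit 86) r5_112 r6_86 (nat_lit 0) (nat_lit 0) (nat_lit 0) (nat_lit 0x7dc43a5e96) (nat_lit 1096313400),
  Rx.mk (nat_lit 168) (nat_lit 0) (nat_lit 5) (nat_lit 2) (nat_lit 6) (nat_lit 107) (nat_lit 79) r5_107 r6_79 (nat_lit 0) (nat_lit 0) (nat_lit 0) (nat_lit 0x7e3c4d7cec) (nat_lit 866082672),
  Rx.mk (nat_lit 169) (nat_lit 1) (nat_lit 5) (nat_lit 2) (nat_lit 7) (nat_lit 110) (nat_lit 82) r5_110 r6_82 (nat_lit 0) (nat_lit 0) (nat_lit 0) (nat_lit 0x7dd032df02) (nat_lit 1073360808),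
  Rx.mk (nat_lit 170) (nat_lit 2) (nat_lit 5) (nat_lit 2) (nat_lit 7) (nat_lit 113) (nat_lit 87) r5_113 r6_87 (nat_lit 0) (nat_lit 0) (nat_lit 0) (nat_lit 0x7dd8ca1586) (nat_lit 1056889080),
  Rx.mk (nat_lit 176) (nat_lit 0) (nat_lit 6) (nat_lit 2) (nat_lit 6) (nat_lit 108) (nat_lit 80) r5_108 r6_80 (nat_lit 0) (nat_lit 0) (nat_lit 0) (nat_lit 0x7e7262db60) (nat_lit 762383232),
  Rx.mk (nat_lit 177) (nat_lit 1) (nat_lit 6) (nat_lit 2) (nat_lit 7) (nat_lit 111) (nat_lit 83) r5_111 r6_83 (nat_lit 0) (nat_lit 0) (nat_lit 0) (nat_lit 0x7e468179a2) (nat_lit 846519336),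
  Rx.mk (nat_lit 418) (nat_lit 2) (nat_lit 4) (nat_lit 6) (nat_lit 5) (nat_lit 114) (nat_lit 84) r5_114 r6_84 (nat_lit 0) (nat_lit 0) (nat_lit 0) (nat_lit 0x7e9d322e40) (nat_lit 680299776),
  Rx.mk (nat_lit 426) (nat_lit 2) (nat_lit 5) (nat_lit 6) (nat_lit 7) (nat_lit 115) (nat_lit 85) r5_115 r6_85 (nat_lit 0) (nat_lit 0) (nat_lit 0) (nat_lit 0x7e6dd4e444) (nat_lit 771116112)]
noncomputable def e29_36 : List Rx := [
  Rx.mk (nat_lit 49) (nat_lit 1) (nat_lit 6) (nat_lit 0) (nat_lit 3) (nat_lit 286) (nat_lit 269) r5_286 r2_269 (nat_lit 0) (nat_lit 0) (nat_lit 0) (nat_lit 0x7d5005c254) (nat_lit 1319125392),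
  Rx.mk (nat_lit 53) (nat_lit 5) (nat_lit 6) (nat_lit 0) (nat_lit 3) (nat_lit 289) (nat_lit 270) r5_289 r2_270 (nat_lit 0) (nat_lit 0) (nat_lit 0) (nat_lit 0x7d0b86ea86) (nat_lit 1450458360),
  Rx.mk (nat_lit 161) (nat_lit 1) (nat_lit 4) (nat_lit 2) (nat_lit 5) (nat_lit 287) (nat_lit 268) r5_287 r2_268 (nat_lit 0) (nat_lit 0) (nat_lit 0) (nat_lit 0x7d47970948) (nat_lit 1335293856),
  Rx.mk (nat_lit 177) (nat_lit 1) (nat_lit 6) (nat_lit 2) (nat_lit 7) (nat_lit 288) (nat_lit 271) r5_288 r2_271 (nat_lit 0) (nat_lit 0) (nat_lit 0) (nat_lit 0x7de4629bf2) (nat_lit 1034655336)]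
noncomputable def e29_37 : List Rx := [
  Rx.mk (nat_lit 161) (nat_lit 1) (nat_lit 4) (nat_lit 2) (nat_lit 5) (nat_lit 295) (nat_lit 241) r5_295 r8_241 (nat_lit 0) (nat_lit 0) (nat_lit 0) (nat_lit 0x7d60a6d832) (nat_lit 1287240552),
  Rx.mk (nat_lit 169) (nat_lit 1) (nat_lit 5) (nat_lit 2) (nat_lit 7) (nat_lit 296) (nat_lit 242) r5_296 r8_242 (nat_lit 0) (nat_lit 0) (nat_lit 0) (nat_lit 0x7de9d244f2) (nat_lit 1024232040),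
  Rx.mk (nat_lit 177) (nat_lit 1) (nat_lit 6) (nat_lit 2) (nat_lit 7) (nat_lit 297) (nat_lit 243) r5_297 r8_243 (nat_lit 0) (nat_lit 0) (nat_lit 0) (nat_lit 0x7dd8a1f808) (nat_lit 1057189536)]
noncomputable def e29_38 : List Rx := [
  Rx.mk (nat_lit 49) (nat_lit 1) (nat_lit 6) (nat_lit 0) (nat_lit 3) (nat_lit 290) (nat_lit 220) r5_290 r8_220 (nat_lit 0) (nat_lit 0) (nat_lit 0) (nat_lit 0x7c922f207c) (nat_lit 1683120816),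
  Rx.mk (nat_lit 53) (nat_lit 5) (nat_lit 6) (nat_lit 0) (nat_lit 3) (nat_lit 293) (nat_lit 219) r5_293 r8_219 (nat_lit 0) (nat_lit 0) (nat_lit 0) (nat_lit 0x7d4396095c) (nat_lit 1342970928),
  Rx.mk (nat_lit 113) (nat_lit 1) (nat_lit 6) (nat_lit 1) (nat_lit 7) (nat_lit 291) (nat_lit 222) r5_291 r8_222 (nat_lit 0) (nat_lit 0) (nat_lit 0) (nat_lit 0x7dde539ce8) (nat_lit 1046272032),
  Rx.mk (nat_lit 117) (nat_lit 5) (nat_lit 6) (nat_lit 1) (nat_lit 7) (nat_lit 294) (nat_lit 221) r5_294 r8_221 (nat_lit 0) (nat_lit 0) (nat_lit 0) (nat_lit 0x7de265dbc0) (nat_lit 1038465792),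
  Rx.mk (nat_lit 177) (nat_lit 1) (nat_lit 6) (nat_lit 2) (nat_lit 7) (nat_lit 292) (nat_lit 223) r5_292 r8_223 (nat_lit 0) (nat_lit 0) (nat_lit 0) (nat_lit 0x7df2463daa) (nat_lit 1008024264)]
noncomputable def e29_39 : List Rx := [
  Rx.mk (nat_lit 49) (nat_lit 1) (nat_lit 6) (nat_lit 0) (nat_lit 3) (nat_lit 116) (nat_lit 247) r5_116 r1_247 (nat_lit 0) (nat_lit 0) (nat_lit 0) (nat_lit 0x7f624a1bfc) (nat_lit 302393520),
  Rx.mk (nat_lit 161) (nat_lit 1) (nat_lit 4) (nat_lit 2) (nat_lit 5) (nat_lit 117) (nat_lit 246) r5_117 r1_246 (nat_lit 0) (nat_lit 0) (nat_lit 0) (nat_lit 0x7f6760ea8a) (nat_lit 292635720),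
  Rx.mk (nat_lit 177) (nat_lit 1) (nat_lit 6) (nat_lit 2) (nat_lit 7) (nat_lit 118) (nat_lit 248) r5_118 r1_248 (nat_lit 0) (nat_lit 0) (nat_lit 0) (nat_lit 0x7e75103088) (nat_lit 757250208)]
noncomputable def e29_40 : List Rx := [
  Rx.mk (nat_lit 161) (nat_lit 1) (nat_lit 4) (nat_lit 2) (nat_lit 5) (nat_lit 119) (nat_lit 71) r5_119 r7_71 (nat_lit 0) (nat_lit 0) (nat_lit 0) (nat_lit 0x7e43268f54) (nat_lit 852952464),
  Rx.mk (nat_lit 169) (nat_lit 1) (nat_lit 5) (nat_lit 2) (nat_lit 7) (nat_lit 120) (nat_lit 72) r5_120 r7_72 (nat_lit 0) (nat_lit 0) (nat_lit 0) (nat_lit 0x7df5604c06) (nat_lit 1002076920),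
  Rx.mk (nat_lit 177) (nat_lit 1) (nat_lit 6) (nat_lit 2) (nat_lit 7) (nat_lit 121) (nat_lit 73) r5_121 r7_73 (nat_lit 0) (nat_lit 0) (nat_lit 0) (nat_lit 0x7dbca6f7d4) (nat_lit 1110839184)]
noncomputable def e29_41 : List Rx := [
  Rx.mk (nat_lit 168) (nat_lit 0) (nat_lit 5) (nat_lit 2) (nat_lit 6) (nat_lit 7) (nat_lit 88) r5_7 r1_88 (nat_lit 0) (nat_lit 0) (nat_lit 0) (nat_lit 0x7e6bb54640) (nat_lit 775187712),
  Rx.mk (nat_lit 170) (nat_lit 2) (nat_lit 5) (nat_lit 2) (nat_lit 7) (nat_lit 8) (nat_lit 90) r5_8 r1_90 (nat_lit 0) (nat_lit 0) (nat_lit 0) (nat_lit 0x7e406c7af8) (nat_lit 858180960),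
  Rx.mk (nat_lit 426) (nat_lit 2) (nat_lit 5) (nat_lit 6) (nat_lit 7) (nat_lit 9) (nat_lit 89) r5_9 r1_89 (nat_lit 0) (nat_lit 0) (nat_lit 0) (nat_lit 0x7f31e242aa) (nat_lit 395206344)]
noncomputable def e29_42 : List Rx := [
  Rx.mk (nat_lit 394) (nat_lit 2) (nat_lit 1) (nat_lit 6) (nat_lit 7) (nat_lit 10) (nat_lit 95) r5_10 r2_95 (nat_lit 0) (nat_lit 0) (nat_lit 0) (nat_lit 0x7de5390e8a) (nat_lit 1033049160),
  Rx.mk (nat_lit 426) (nat_lit 2) (nat_lit 5) (nat_lit 6) (nat_lit 7) (nat_lit 11) (nat_lit 94) r5_11 r2_94 (nat_lit 0) (nat_lit 0) (nat_lit 0) (nat_lit 0x7de5390e8a) (nat_lit 1033049160)]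
noncomputable def e29_43 : List Rx := [
  Rx.mk (nat_lit 168) (nat_lit 0) (nat_lit 5) (nat_lit 2) (nat_lit 6) (nat_lit 122) (nat_lit 221) r5_122 r7_221 (nat_lit 0) (nat_lit 0) (nat_lit 0) (nat_lit 0x7dbcf8b2b8) (nat_lit 1110227040),
  Rx.mk (nat_lit 169) (nat_lit 1) (nat_lit 5) (nat_lit 2) (nat_lit 7) (nat_lit 123) (nat_lit 222) r5_123 r7_222 (nat_lit 0) (nat_lit 0) (nat_lit 0) (nat_lit 0x7e020c013e) (nat_lit 977782104),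
  Rx.mk (nat_lit 170) (nat_lit 2) (nat_lit 5) (nat_lit 2) (nat_lit 7) (nat_lit 124) (nat_lit 223) r5_124 r7_223 (nat_lit 0) (nat_lit 0) (nat_lit 0) (nat_lit 0x7dedf682aa) (nat_lit 1016291016),
  Rx.mk (nat_lit 426) (nat_lit 2) (nat_lit 5) (nat_lit 6) (nat_lit 7) (nat_lit 125) (nat_lit 224) r5_125 r7_224 (nat_lit 0) (nat_lit 0) (nat_lit 0) (nat_lit 0x7dd520102a) (nat_lit 1063914696)]
noncomputable def e29_44 : List Rx := [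
  Rx.mk (nat_lit 394) (nat_lit 2) (nat_lit 1) (nat_lit 6) (nat_lit 7) (nat_lit 126) (nat_lit 62) r5_126 r8_62 (nat_lit 0) (nat_lit 0) (nat_lit 0) (nat_lit 0x7df57b4a56) (nat_lit 1001874744),
  Rx.mk (nat_lit 426) (nat_lit 2) (nat_lit 5) (nat_lit 6) (nat_lit 7) (nat_lit 127) (nat_lit 61) r5_127 r8_61 (nat_lit 0) (nat_lit 0) (nat_lit 0) (nat_lit 0x7dd1aea744) (nat_lit 1070516304)]
noncomputable def e29_45 : List Rx := [
  Rx.mk (nat_lit 394) (nat_lit 2) (nat_lit 1) (nat_lit 6) (nat_lit 7) (nat_lit 168) (nat_lit 61) r5_168 r8_61 (nat_lit 0) (nat_lit 0) (nat_lit 0) (nat_lit 0x7dd1aea744) (nat_lit 1070516304),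
  Rx.mk (nat_lit 426) (nat_lit 2) (nat_lit 5) (nat_lit 6) (nat_lit 7) (nat_lit 169) (nat_lit 62) r5_169 r8_62 (nat_lit 0) (nat_lit 0) (nat_lit 0) (nat_lit 0x7df57b4a56) (nat_lit 1001874744)]
noncomputable def e29_46 : List Rx := [
  Rx.mk (nat_lit 160) (nat_lit 0) (nat_lit 4) (nat_lit 2) (nat_lit 4) (nat_lit 20) (nat_lit 78) r5_20 r4_78 (nat_lit 0) (nat_lit 0) (nat_lit 0) (nat_lit 0x73b85e8660) (nat_lit 6027585408),
  Rx.mk (nat_lit 162) (nat_lit 2) (nat_lit 4) (nat_lit 2) (nat_lit 5) (nat_lit 23) (nat_lit 87) r5_23 r4_87 (nat_lit 0) (nat_lit 0) (nat_lit 0) (nat_lit 0x7dc900f228) (nat_lit 1087156512),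
  Rx.mk (nat_lit 163) (nat_lit 3) (nat_lit 4) (nat_lit 2) (nat_lit 5) (nat_lit 28) (nat_lit 81) r5_28 r4_81 (nat_lit 0) (nat_lit 0) (nat_lit 0) (nat_lit 0x725645c94e) (nat_lit 6706528920),
  Rx.mk (nat_lit 168) (nat_lit 0) (nat_lit 5) (nat_lit 2) (nat_lit 6) (nat_lit 21) (nat_lit 79) r5_21 r4_79 (nat_lit 0) (nat_lit 0) (nat_lit 0) (nat_lit 0x7e786b1ad6) (nat_lit 750817080),
  Rx.mk (nat_lit 170) (nat_lit 2) (nat_lit 5) (nat_lit 2) (nat_lit 7) (nat_lit 24) (nat_lit 88) r5_24 r4_88 (nat_lit 0) (nat_lit 0) (nat_lit 0) (nat_lit 0x7dda26bfba) (nat_lit 1054277640),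
  Rx.mk (nat_lit 171) (nat_lit 3) (nat_lit 5) (nat_lit 2) (nat_lit 7) (nat_lit 29) (nat_lit 82) r5_29 r4_82 (nat_lit 0) (nat_lit 0) (nat_lit 0) (nat_lit 0x7efcc334d0) (nat_lit 497060928),
  Rx.mk (nat_lit 176) (nat_lit 0) (nat_lit 6) (nat_lit 2) (nat_lit 6) (nat_lit 22) (nat_lit 80) r5_22 r4_80 (nat_lit 0) (nat_lit 0) (nat_lit 0) (nat_lit 0x7cf80582b0) (nat_lit 1487858112),
  Rx.mk (nat_lit 179) (nat_lit 3) (nat_lit 6) (nat_lit 2) (nat_lit 7) (nat_lit 30) (nat_lit 83) r5_30 r4_83 (nat_lit 0) (nat_lit 0) (nat_lit 0) (nat_lit 0x7ee231fdfe) (nat_lit 548000856),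
  Rx.mk (nat_lit 418) (nat_lit 2) (nat_lit 4) (nat_lit 6) (nat_lit 5) (nat_lit 25) (nat_lit 84) r5_25 r4_84 (nat_lit 0) (nat_lit 0) (nat_lit 0) (nat_lit 0x7e271210b8) (nat_lit 906793056),
  Rx.mk (nat_lit 426) (nat_lit 2) (nat_lit 5) (nat_lit 6) (nat_lit 7) (nat_lit 26) (nat_lit 85) r5_26 r4_85 (nat_lit 0) (nat_lit 0) (nat_lit 0) (nat_lit 0x7e3b9e07e4) (nat_lit 867396816),
  Rx.mk (nat_lit 442) (nat_lit 2) (nat_lit 7) (nat_lit 6) (nat_lit 7) (nat_lit 27) (nat_lit 86) r5_27 r4_86 (nat_lit 0) (nat_lit 0) (nat_lit 0) (nat_lit 0x7e2a2b5f20) (nat_lit 900851328)]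
noncomputable def e29_47 : List Rx := [
  Rx.mk (nat_lit 48) (nat_lit 0) (nat_lit 6) (nat_lit 0) (nat_lit 2) (nat_lit 128) (nat_lit 235) r5_128 r4_235 (nat_lit 0) (nat_lit 0) (nat_lit 0) (nat_lit 0x729cb2c238) (nat_lit 6571495008),
  Rx.mk (nat_lit 49) (nat_lit 1) (nat_lit 6) (nat_lit 0) (nat_lit 3) (nat_lit 131) (nat_lit 236) r5_131 r4_236 (nat_lit 0) (nat_lit 0) (nat_lit 0) (nat_lit 0x7d7961ec68) (nat_lit 1239821856),
  Rx.mk (nat_lit 51) (nat_lit 3) (nat_lit 6) (nat_lit 0) (nat_lit 3) (nat_lit 137) (nat_lit 237) r5_137 r4_237 (nat_lit 0) (nat_lit 0) (nat_lit 0) (nat_lit 0x7e05ce051a) (nat_lit 970576776),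
  Rx.mk (nat_lit 160) (nat_lit 0) (nat_lit 4) (nat_lit 2) (nat_lit 4) (nat_lit 129) (nat_lit 229) r5_129 r4_229 (nat_lit 0) (nat_lit 0) (nat_lit 0) (nat_lit 0x71fe96849a) (nat_lit 6874655112),
  Rx.mk (nat_lit 161) (nat_lit 1) (nat_lit 4) (nat_lit 2) (nat_lit 5) (nat_lit 132) (nat_lit 230) r5_132 r4_230 (nat_lit 0) (nat_lit 0) (nat_lit 0) (nat_lit 0x7e314decf0) (nat_lit 887170752),
  Rx.mk (nat_lit 162) (nat_lit 2) (nat_lit 4) (nat_lit 2) (nat_lit 5) (nat_lit 134) (nat_lit 232) r5_134 r4_232 (nat_lit 0) (nat_lit 0) (nat_lit 0) (nat_lit 0x7d90cfb574) (nat_lit 1194899472),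
  Rx.mk (nat_lit 163) (nat_lit 3) (nat_lit 4) (nat_lit 2) (nat_lit 5) (nat_lit 138) (nat_lit 231) r5_138 r4_231 (nat_lit 0) (nat_lit 0) (nat_lit 0) (nat_lit 0x7e50b6f640) (nat_lit 826944768),
  Rx.mk (nat_lit 176) (nat_lit 0) (nat_lit 6) (nat_lit 2) (nat_lit 6) (nat_lit 130) (nat_lit 238) r5_130 r4_238 (nat_lit 0) (nat_lit 0) (nat_lit 0) (nat_lit 0x7e7092b864) (nat_lit 765859536),
  Rx.mk (nat_lit 177) (nat_lit 1) (nat_lit 6) (nat_lit 2) (nat_lit 7) (nat_lit 133) (nat_lit 239) r5_133 r4_239 (nat_lit 0) (nat_lit 0) (nat_lit 0) (nat_lit 0x7e3b0f90cc) (nat_lit 868463856),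
  Rx.mk (nat_lit 179) (nat_lit 3) (nat_lit 6) (nat_lit 2) (nat_lit 7) (nat_lit 139) (nat_lit 240) r5_139 r4_240 (nat_lit 0) (nat_lit 0) (nat_lit 0) (nat_lit 0x7e1ae6f376) (nat_lit 930124728),
  Rx.mk (nat_lit 418) (nat_lit 2) (nat_lit 4) (nat_lit 6) (nat_lit 5) (nat_lit 135) (nat_lit 233) r5_135 r4_233 (nat_lit 0) (nat_lit 0) (nat_lit 0) (nat_lit 0x7e5fadc6c4) (nat_lit 798252624),
  Rx.mk (nat_lit 442) (nat_lit 2) (nat_lit 7) (nat_lit 6) (nat_lit 7) (nat_lit 136) (nat_lit 234) r5_136 r4_234 (nat_lit 0) (nat_lit 0) (nat_lit 0) (nat_lit 0x7ee10430dc) (nat_lit 550261296)]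
noncomputable def e29_48 : List Rx := [
  Rx.mk (nat_lit 160) (nat_lit 0) (nat_lit 4) (nat_lit 2) (nat_lit 4) (nat_lit 140) (nat_lit 59) r5_140 r9_59 (nat_lit 0) (nat_lit 0) (nat_lit 0) (nat_lit 0x73ce85c3d6) (nat_lit 5985108792),
  Rx.mk (nat_lit 161) (nat_lit 1) (nat_lit 4) (nat_lit 2) (nat_lit 5) (nat_lit 143) (nat_lit 62) r5_143 r9_62 (nat_lit 0) (nat_lit 0) (nat_lit 0) (nat_lit 0x7e4ca1579e) (nat_lit 834776280),
  Rx.mk (nat_lit 162) (nat_lit 2) (nat_lit 4) (nat_lit 2) (nat_lit 5) (nat_lit 145) (nat_lit 70) r5_145 r9_70 (nat_lit 0) (nat_lit 0) (nat_lit 0) (nat_lit 0x7d97e9a3ce) (nat_lit 1181283480),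
  Rx.mk (nat_lit 163) (nat_lit 3) (nat_lit 4) (nat_lit 2) (nat_lit 5) (nat_lit 150) (nat_lit 64) r5_150 r9_64 (nat_lit 0) (nat_lit 0) (nat_lit 0) (nat_lit 0x7e38dd93ee) (nat_lit 872673048),
  Rx.mk (nat_lit 168) (nat_lit 0) (nat_lit 5) (nat_lit 2) (nat_lit 6) (nat_lit 141) (nat_lit 60) r5_141 r9_60 (nat_lit 0) (nat_lit 0) (nat_lit 0) (nat_lit 0x7e23b6c670) (nat_lit 913228992),
  Rx.mk (nat_lit 170) (nat_lit 2) (nat_lit 5) (nat_lit 2) (nat_lit 7) (nat_lit 146) (nat_lit 71) r5_146 r9_71 (nat_lit 0) (nat_lit 0) (nat_lit 0) (nat_lit 0x7dedcb0562) (nat_lit 1016616744),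
  Rx.mk (nat_lit 171) (nat_lit 3) (nat_lit 5) (nat_lit 2) (nat_lit 7) (nat_lit 151) (nat_lit 65) r5_151 r9_65 (nat_lit 0) (nat_lit 0) (nat_lit 0) (nat_lit 0x7de0283f9c) (nat_lit 1042762032),
  Rx.mk (nat_lit 176) (nat_lit 0) (nat_lit 6) (nat_lit 2) (nat_lit 6) (nat_lit 142) (nat_lit 61) r5_142 r9_61 (nat_lit 0) (nat_lit 0) (nat_lit 0) (nat_lit 0x7e66094106) (nat_lit 786063096),
  Rx.mk (nat_lit 177) (nat_lit 1) (nat_lit 6) (nat_lit 2) (nat_lit 7) (nat_lit 144) (nat_lit 63) r5_144 r9_63 (nat_lit 0) (nat_lit 0) (nat_lit 0) (nat_lit 0x7def760ab0) (nat_lit 1013418432),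
  Rx.mk (nat_lit 179) (nat_lit 3) (nat_lit 6) (nat_lit 2) (nat_lit 7) (nat_lit 152) (nat_lit 66) r5_152 r9_66 (nat_lit 0) (nat_lit 0) (nat_lit 0) (nat_lit 0x7decc13600) (nat_lit 1018607616),
  Rx.mk (nat_lit 418) (nat_lit 2) (nat_lit 4) (nat_lit 6) (nat_lit 5) (nat_lit 147) (nat_lit 67) r5_147 r9_67 (nat_lit 0) (nat_lit 0) (nat_lit 0) (nat_lit 0x7e8b7789fc) (nat_lit 714293424),
  Rx.mk (nat_lit 426) (nat_lit 2) (nat_lit 5) (nat_lit 6) (nat_lit 7) (nat_lit 148) (nat_lit 68) r5_148 r9_68 (nat_lit 0) (nat_lit 0) (nat_lit 0) (nat_lit 0x7e727d79b6) (nat_lit 762183864),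
  Rx.mk (nat_lit 442) (nat_lit 2) (nat_lit 7) (nat_lit 6) (nat_lit 7) (nat_lit 149) (nat_lit 69) r5_149 r9_69 (nat_lit 0) (nat_lit 0) (nat_lit 0) (nat_lit 0x7e762bfeca) (nat_lit 755124552)]
noncomputable def e29_49 : List Rx := [
  Rx.mk (nat_lit 48) (nat_lit 0) (nat_lit 6) (nat_lit 0) (nat_lit 2) (nat_lit 153) (nat_lit 53) r5_153 r10_53 (nat_lit 0) (nat_lit 0) (nat_lit 0) (nat_lit 0x7b5c1d42d0) (nat_lit 2277647424),
  Rx.mk (nat_lit 49) (nat_lit 1) (nat_lit 6) (nat_lit 0) (nat_lit 3) (nat_lit 157) (nat_lit 57) r5_157 r10_57 (nat_lit 0) (nat_lit 0) (nat_lit 0) (nat_lit 0x7d9ee59408) (nat_lit 1167892128),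
  Rx.mk (nat_lit 51) (nat_lit 3) (nat_lit 6) (nat_lit 0) (nat_lit 3) (nat_lit 164) (nat_lit 61) r5_164 r10_61 (nat_lit 0) (nat_lit 0) (nat_lit 0) (nat_lit 0x7df4237fd4) (nat_lit 1004449680),
  Rx.mk (nat_lit 160) (nat_lit 0) (nat_lit 4) (nat_lit 2) (nat_lit 4) (nat_lit 154) (nat_lit 54) r5_154 r10_54 (nat_lit 0) (nat_lit 0) (nat_lit 0) (nat_lit 0x75b5e9ebac) (nat_lit 5050586736),
  Rx.mk (nat_lit 161) (nat_lit 1) (nat_lit 4) (nat_lit 2) (nat_lit 5) (nat_lit 158) (nat_lit 58) r5_158 r10_58 (nat_lit 0) (nat_lit 0) (nat_lit 0) (nat_lit 0x7de6df9420) (nat_lit 1029884544),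
  Rx.mk (nat_lit 162) (nat_lit 2) (nat_lit 4) (nat_lit 2) (nat_lit 5) (nat_lit 161) (nat_lit 66) r5_161 r10_66 (nat_lit 0) (nat_lit 0) (nat_lit 0) (nat_lit 0x7db1f38316) (nat_lit 1131357240),
  Rx.mk (nat_lit 163) (nat_lit 3) (nat_lit 4) (nat_lit 2) (nat_lit 5) (nat_lit 165) (nat_lit 63) r5_165 r10_63 (nat_lit 0) (nat_lit 0) (nat_lit 0) (nat_lit 0x7dd58429e8) (nat_lit 1063164960),
  Rx.mk (nat_lit 176) (nat_lit 0) (nat_lit 6) (nat_lit 2) (nat_lit 6) (nat_lit 155) (nat_lit 56) r5_155 r10_56 (nat_lit 0) (nat_lit 0) (nat_lit 0) (nat_lit 0x7e2b4d2d02) (nat_lit 898680744),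
  Rx.mk (nat_lit 177) (nat_lit 1) (nat_lit 6) (nat_lit 2) (nat_lit 7) (nat_lit 159) (nat_lit 60) r5_159 r10_60 (nat_lit 0) (nat_lit 0) (nat_lit 0) (nat_lit 0x7df675baae) (nat_lit 999999000),
  Rx.mk (nat_lit 179) (nat_lit 3) (nat_lit 6) (nat_lit 2) (nat_lit 7) (nat_lit 166) (nat_lit 64) r5_166 r10_64 (nat_lit 0) (nat_lit 0) (nat_lit 0) (nat_lit 0x7ddaeb3372) (nat_lit 1052806248),
  Rx.mk (nat_lit 184) (nat_lit 0) (nat_lit 7) (nat_lit 2) (nat_lit 6) (nat_lit 156) (nat_lit 55) r5_156 r10_55 (nat_lit 0) (nat_lit 0) (nat_lit 0) (nat_lit 0x7d9fc50610) (nat_lit 1166218560),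
  Rx.mk (nat_lit 185) (nat_lit 1) (nat_lit 7) (nat_lit 2) (nat_lit 7) (nat_lit 160) (nat_lit 59) r5_160 r10_59 (nat_lit 0) (nat_lit 0) (nat_lit 0) (nat_lit 0x7df1199076) (nat_lit 1010276280),
  Rx.mk (nat_lit 186) (nat_lit 2) (nat_lit 7) (nat_lit 2) (nat_lit 7) (nat_lit 162) (nat_lit 67) r5_162 r10_67 (nat_lit 0) (nat_lit 0) (nat_lit 0) (nat_lit 0x7dc21520ec) (nat_lit 1100427120),
  Rx.mk (nat_lit 243) (nat_lit 3) (nat_lit 6) (nat_lit 3) (nat_lit 7) (nat_lit 167) (nat_lit 62) r5_167 r10_62 (nat_lit 0) (nat_lit 0) (nat_lit 0) (nat_lit 0x7df4675b96) (nat_lit 1003941432),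
  Rx.mk (nat_lit 442) (nat_lit 2) (nat_lit 7) (nat_lit 6) (nat_lit 7) (nat_lit 163) (nat_lit 65) r5_163 r10_65 (nat_lit 0) (nat_lit 0) (nat_lit 0) (nat_lit 0x7eb9830916) (nat_lit 626007096)]
noncomputable def e29_50 : List Rx := [
  Rx.mk (nat_lit 163) (nat_lit 3) (nat_lit 4) (nat_lit 2) (nat_lit 5) (nat_lit 241) (nat_lit 284) r5_241 r10_284 (nat_lit 0) (nat_lit 0) (nat_lit 0) (nat_lit 0x7e9ce972cc) (nat_lit 680844528),
  Rx.mk (nat_lit 171) (nat_lit 3) (nat_lit 5) (nat_lit 2) (nat_lit 7) (nat_lit 242) (nat_lit 285) r5_242 r10_285 (nat_lit 0) (nat_lit 0) (nat_lit 0) (nat_lit 0x7eb3926826) (nat_lit 637396344),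
  Rx.mk (nat_lit 179) (nat_lit 3) (nat_lit 6) (nat_lit 2) (nat_lit 7) (nat_lit 243) (nat_lit 286) r5_243 r10_286 (nat_lit 0) (nat_lit 0) (nat_lit 0) (nat_lit 0x7eba8a38a2) (nat_lit 624035880)]
noncomputable def e29_51 : List Rx := [
  Rx.mk (nat_lit 52) (nat_lit 4) (nat_lit 6) (nat_lit 0) (nat_lit 2) (nat_lit 333) (nat_lit 232) r5_333 r12_232 (nat_lit 0) (nat_lit 0) (nat_lit 0) (nat_lit 0x7b7d41d066) (nat_lit 2214099576),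
  Rx.mk (nat_lit 55) (nat_lit 7) (nat_lit 6) (nat_lit 0) (nat_lit 3) (nat_lit 336) (nat_lit 234) r5_336 r12_234 (nat_lit 0) (nat_lit 0) (nat_lit 0) (nat_lit 0x7dd76d0b58) (nat_lit 1059503328),
  Rx.mk (nat_lit 212) (nat_lit 4) (nat_lit 2) (nat_lit 3) (nat_lit 6) (nat_lit 334) (nat_lit 231) r5_334 r12_231 (nat_lit 0) (nat_lit 0) (nat_lit 0) (nat_lit 0x7fe0d652ba) (nat_lit 59751432),
  Rx.mk (nat_lit 244) (nat_lit 4) (nat_lit 6) (nat_lit 3) (nat_lit 6) (nat_lit 335) (nat_lit 233) r5_335 r12_233 (nat_lit 0) (nat_lit 0) (nat_lit 0) (nat_lit 0x7f189437a4) (nat_lit 443725776)]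
noncomputable def e29_52 : List Rx := [
  Rx.mk (nat_lit 454) (nat_lit 6) (nat_lit 0) (nat_lit 7) (nat_lit 5) (nat_lit 252) (nat_lit 242) r5_252 r12_242 (nat_lit 0) (nat_lit 0) (nat_lit 0) (nat_lit 0x7d25bb2728) (nat_lit 1400214816),
  Rx.mk (nat_lit 468) (nat_lit 4) (nat_lit 2) (nat_lit 7) (nat_lit 6) (nat_lit 251) (nat_lit 243) r5_251 r12_243 (nat_lit 0) (nat_lit 0) (nat_lit 0) (nat_lit 0x7fed08ef84) (nat_lit 36363600),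
  Rx.mk (nat_lit 470) (nat_lit 6) (nat_lit 2) (nat_lit 7) (nat_lit 7) (nat_lit 253) (nat_lit 244) r5_253 r12_244 (nat_lit 0) (nat_lit 0) (nat_lit 0) (nat_lit 0x7ef7d3c3cc) (nat_lit 506523888)]
noncomputable def e29_53 : List Rx := [
  Rx.mk (nat_lit 20) (nat_lit 4) (nat_lit 2) (nat_lit 0) (nat_lit 2) (nat_lit 363) (nat_lit 232) r5_363 r12_232 (nat_lit 0) (nat_lit 0) (nat_lit 0) (nat_lit 0x7b7d41d066) (nat_lit 2214099576),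
  Rx.mk (nat_lit 23) (nat_lit 7) (nat_lit 2) (nat_lit 0) (nat_lit 3) (nat_lit 365) (nat_lit 233) r5_365 r12_233 (nat_lit 0) (nat_lit 0) (nat_lit 0) (nat_lit 0x7f189437a4) (nat_lit 443725776),
  Rx.mk (nat_lit 55) (nat_lit 7) (nat_lit 6) (nat_lit 0) (nat_lit 3) (nat_lit 366) (nat_lit 231) r5_366 r12_231 (nat_lit 0) (nat_lit 0) (nat_lit 0) (nat_lit 0x7fe0d652ba) (nat_lit 59751432),
  Rx.mk (nat_lit 212) (nat_lit 4) (nat_lit 2) (nat_lit 3) (nat_lit 6) (nat_lit 364) (nat_lit 234) r5_364 r12_234 (nat_lit 0) (nat_lit 0) (nat_lit 0) (nat_lit 0x7dd76d0b58) (nat_lit 1059503328)]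
noncomputable def e29_54 : List Rx := [
  Rx.mk (nat_lit 262) (nat_lit 6) (nat_lit 0) (nat_lit 4) (nat_lit 1) (nat_lit 90) (nat_lit 70) r5_90 r12_70 (nat_lit 0) (nat_lit 0) (nat_lit 0) (nat_lit 0x7e042adf4e) (nat_lit 973716120),
  Rx.mk (nat_lit 278) (nat_lit 6) (nat_lit 2) (nat_lit 4) (nat_lit 3) (nat_lit 91) (nat_lit 72) r5_91 r12_72 (nat_lit 0) (nat_lit 0) (nat_lit 0) (nat_lit 0x7c7bbb67ce) (nat_lit 1726170264),
  Rx.mk (nat_lit 286) (nat_lit 6) (nat_lit 3) (nat_lit 4) (nat_lit 3) (nat_lit 92) (nat_lit 71) r5_92 r12_71 (nat_lit 0) (nat_lit 0) (nat_lit 0) (nat_lit 0x7f16d5b38e) (nat_lit 447070104),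
  Rx.mk (nat_lit 390) (nat_lit 6) (nat_lit 0) (nat_lit 6) (nat_lit 5) (nat_lit 93) (nat_lit 78) r5_93 r12_78 (nat_lit 0) (nat_lit 0) (nat_lit 0) (nat_lit 0x7a93662f0a) (nat_lit 2662497864),
  Rx.mk (nat_lit 410) (nat_lit 2) (nat_lit 3) (nat_lit 6) (nat_lit 7) (nat_lit 88) (nat_lit 77) r5_88 r12_77 (nat_lit 0) (nat_lit 0) (nat_lit 0) (nat_lit 0x7e41ba8616) (nat_lit 855679032),
  Rx.mk (nat_lit 414) (nat_lit 6) (nat_lit 3) (nat_lit 6) (nat_lit 7) (nat_lit 94) (nat_lit 79) r5_94 r12_79 (nat_lit 0) (nat_lit 0) (nat_lit 0) (nat_lit 0x7e52dd53d8) (nat_lit 822822624),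
  Rx.mk (nat_lit 454) (nat_lit 6) (nat_lit 0) (nat_lit 7) (nat_lit 5) (nat_lit 95) (nat_lit 75) r5_95 r12_75 (nat_lit 0) (nat_lit 0) (nat_lit 0) (nat_lit 0x7dee681b90) (nat_lit 1015440192),
  Rx.mk (nat_lit 468) (nat_lit 4) (nat_lit 2) (nat_lit 7) (nat_lit 6) (nat_lit 89) (nat_lit 73) r5_89 r12_73 (nat_lit 0) (nat_lit 0) (nat_lit 0) (nat_lit 0x7e46331e88) (nat_lit 847106208),
  Rx.mk (nat_lit 470) (nat_lit 6) (nat_lit 2) (nat_lit 7) (nat_lit 7) (nat_lit 96) (nat_lit 76) r5_96 r12_76 (nat_lit 0) (nat_lit 0) (nat_lit 0) (nat_lit 0x7f0fa006f0) (nat_lit 460893888),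
  Rx.mk (nat_lit 471) (nat_lit 7) (nat_lit 2) (nat_lit 7) (nat_lit 7) (nat_lit 97) (nat_lit 74) r5_97 r12_74 (nat_lit 0) (nat_lit 0) (nat_lit 0) (nat_lit 0x7e5cc7752c) (nat_lit 803812464)]
noncomputable def e29_55 : List Rx := [
  Rx.mk (nat_lit 51) (nat_lit 3) (nat_lit 6) (nat_lit 0) (nat_lit 3) (nat_lit 17) (nat_lit 74) r5_17 r3_74 (nat_lit 0) (nat_lit 0) (nat_lit 0) (nat_lit 0x7ec8641af6) (nat_lit 597477816),
  Rx.mk (nat_lit 160) (nat_lit 0) (nat_lit 4) (nat_lit 2) (nat_lit 4) (nat_lit 12) (nat_lit 72) r5_12 r3_72 (nat_lit 0) (nat_lit 0) (nat_lit 0) (nat_lit 0x7ffa96b69a) (nat_lit 10375560),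
  Rx.mk (nat_lit 162) (nat_lit 2) (nat_lit 4) (nat_lit 2) (nat_lit 5) (nat_lit 14) (nat_lit 79) r5_14 r3_79 (nat_lit 0) (nat_lit 0) (nat_lit 0) (nat_lit 0x783b195630) (nat_lit 3813511104),
  Rx.mk (nat_lit 163) (nat_lit 3) (nat_lit 4) (nat_lit 2) (nat_lit 5) (nat_lit 18) (nat_lit 75) r5_18 r3_75 (nat_lit 0) (nat_lit 0) (nat_lit 0) (nat_lit 0x7ea6edd27c) (nat_lit 661637808),
  Rx.mk (nat_lit 176) (nat_lit 0) (nat_lit 6) (nat_lit 2) (nat_lit 6) (nat_lit 13) (nat_lit 73) r5_13 r3_73 (nat_lit 0) (nat_lit 0) (nat_lit 0) (nat_lit 0x78c2869ed4) (nat_lit 3553844112),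
  Rx.mk (nat_lit 179) (nat_lit 3) (nat_lit 6) (nat_lit 2) (nat_lit 7) (nat_lit 19) (nat_lit 76) r5_19 r3_76 (nat_lit 0) (nat_lit 0) (nat_lit 0) (nat_lit 0x7f51b98516) (nat_lit 334154808),
  Rx.mk (nat_lit 418) (nat_lit 2) (nat_lit 4) (nat_lit 6) (nat_lit 5) (nat_lit 15) (nat_lit 77) r5_15 r3_77 (nat_lit 0) (nat_lit 0) (nat_lit 0) (nat_lit 0x770d966f8c) (nat_lit 4391627760),
  Rx.mk (nat_lit 442) (nat_lit 2) (nat_lit 7) (nat_lit 6) (nat_lit 7) (nat_lit 16) (nat_lit 78) r5_16 r3_78 (nat_lit 0) (nat_lit 0) (nat_lit 0) (nat_lit 0x7f3a4a3c22) (nat_lit 379088424)]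
noncomputable def e29_56 : List Rx := [
  Rx.mk (nat_lit 51) (nat_lit 3) (nat_lit 6) (nat_lit 0) (nat_lit 3) (nat_lit 37) (nat_lit 73) r5_37 r12_73 (nat_lit 0) (nat_lit 0) (nat_lit 0) (nat_lit 0x7e46331e88) (nat_lit 847106208),
  Rx.mk (nat_lit 160) (nat_lit 0) (nat_lit 4) (nat_lit 2) (nat_lit 4) (nat_lit 31) (nat_lit 70) r5_31 r12_70 (nat_lit 0) (nat_lit 0) (nat_lit 0) (nat_lit 0x7e042adf4e) (nat_lit 973716120),
  Rx.mk (nat_lit 162) (nat_lit 2) (nat_lit 4) (nat_lit 2) (nat_lit 5) (nat_lit 34) (nat_lit 78) r5_34 r12_78 (nat_lit 0) (nat_lit 0) (nat_lit 0) (nat_lit 0x7a93662f0a) (nat_lit 2662497864),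
  Rx.mk (nat_lit 163) (nat_lit 3) (nat_lit 4) (nat_lit 2) (nat_lit 5) (nat_lit 38) (nat_lit 75) r5_38 r12_75 (nat_lit 0) (nat_lit 0) (nat_lit 0) (nat_lit 0x7dee681b90) (nat_lit 1015440192),
  Rx.mk (nat_lit 176) (nat_lit 0) (nat_lit 6) (nat_lit 2) (nat_lit 6) (nat_lit 32) (nat_lit 72) r5_32 r12_72 (nat_lit 0) (nat_lit 0) (nat_lit 0) (nat_lit 0x7c7bbb67ce) (nat_lit 1726170264),
  Rx.mk (nat_lit 179) (nat_lit 3) (nat_lit 6) (nat_lit 2) (nat_lit 7) (nat_lit 39) (nat_lit 76) r5_39 r12_76 (nat_lit 0) (nat_lit 0) (nat_lit 0) (nat_lit 0x7f0fa006f0) (nat_lit 460893888),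
  Rx.mk (nat_lit 184) (nat_lit 0) (nat_lit 7) (nat_lit 2) (nat_lit 6) (nat_lit 33) (nat_lit 71) r5_33 r12_71 (nat_lit 0) (nat_lit 0) (nat_lit 0) (nat_lit 0x7f16d5b38e) (nat_lit 447070104),
  Rx.mk (nat_lit 186) (nat_lit 2) (nat_lit 7) (nat_lit 2) (nat_lit 7) (nat_lit 35) (nat_lit 79) r5_35 r12_79 (nat_lit 0) (nat_lit 0) (nat_lit 0) (nat_lit 0x7e52dd53d8) (nat_lit 822822624),
  Rx.mk (nat_lit 243) (nat_lit 3) (nat_lit 6) (nat_lit 3) (nat_lit 7) (nat_lit 40) (nat_lit 74) r5_40 r12_74 (nat_lit 0) (nat_lit 0) (nat_lit 0) (nat_lit 0x7e5cc7752c) (nat_lit 803812464),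
  Rx.mk (nat_lit 442) (nat_lit 2) (nat_lit 7) (nat_lit 6) (nat_lit 7) (nat_lit 36) (nat_lit 77) r5_36 r12_77 (nat_lit 0) (nat_lit 0) (nat_lit 0) (nat_lit 0x7e41ba8616) (nat_lit 855679032)]
noncomputable def e29_57 : List Rx := [
  Rx.mk (nat_lit 51) (nat_lit 3) (nat_lit 6) (nat_lit 0) (nat_lit 3) (nat_lit 238) (nat_lit 243) r5_238 r12_243 (nat_lit 0) (nat_lit 0) (nat_lit 0) (nat_lit 0x7fed08ef84) (nat_lit 36363600),
  Rx.mk (nat_lit 163) (nat_lit 3) (nat_lit 4) (nat_lit 2) (nat_lit 5) (nat_lit 239) (nat_lit 242) r5_239 r12_242 (nat_lit 0) (nat_lit 0) (nat_lit 0) (nat_lit 0x7d25bb2728) (nat_lit 1400214816),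
  Rx.mk (nat_lit 179) (nat_lit 3) (nat_lit 6) (nat_lit 2) (nat_lit 7) (nat_lit 240) (nat_lit 244) r5_240 r12_244 (nat_lit 0) (nat_lit 0) (nat_lit 0) (nat_lit 0x7ef7d3c3cc) (nat_lit 506523888)]
noncomputable def e29 : List (List Rx) := [e29_0, e29_1, e29_2, e29_3, e29_4, e29_5, e29_6, e29_7, e29_8, e29_9, e29_10, e29_11, e29_12, e29_13, e29_14, e29_15, e29_16, e29_17, e29_18, e29_19, e29_20, e29_21, e29_22, e29_23, e29_24, e29_25, e29_26, e29_27, e29_28, e29_29, e29_30, e29_31, e29_32, e29_33, e29_34, e29_35, e29_36, e29_37, e29_38, e29_39, e29_40, e29_41, e29_42, e29_43, e29_44, e29_45, e29_46, e29_47, e29_48, e29_49, e29_50, e29_51, e29_52, e29_53, e29_54, e29_55, e29_56, e29_57]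
noncomputable def e30_0 : List Rx := [
  Rx.mk (nat_lit 116) (nat_lit 4) (nat_lit 6) (nat_lit 1) (nat_lit 6) (nat_lit 302) (nat_lit 225) r10_302 r0_225 (nat_lit 0) (nat_lit 0) (nat_lit 0) (nat_lit 0x7c7d384ffe) (nat_lit 1723317336),
  Rx.mk (nat_lit 372) (nat_lit 4) (nat_lit 6) (nat_lit 5) (nat_lit 6) (nat_lit 300) (nat_lit 226) r10_300 r0_226 (nat_lit 0) (nat_lit 0) (nat_lit 0) (nat_lit 0x7dddc22600) (nat_lit 1047361536),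
  Rx.mk (nat_lit 375) (nat_lit 7) (nat_lit 6) (nat_lit 5) (nat_lit 7) (nat_lit 301) (nat_lit 227) r10_301 r0_227 (nat_lit 0) (nat_lit 0) (nat_lit 0) (nat_lit 0x7e9ab5f606) (nat_lit 685064952)]
noncomputable def e30_1 : List Rx := [
  Rx.mk (nat_lit 372) (nat_lit 4) (nat_lit 6) (nat_lit 5) (nat_lit 6) (nat_lit 333) (nat_lit 244) r10_333 r1_244 (nat_lit 0) (nat_lit 0) (nat_lit 0) (nat_lit 0x7dc4b676d4) (nat_lit 1095383952),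
  Rx.mk (nat_lit 375) (nat_lit 7) (nat_lit 6) (nat_lit 5) (nat_lit 7) (nat_lit 334) (nat_lit 245) r10_334 r1_245 (nat_lit 0) (nat_lit 0) (nat_lit 0) (nat_lit 0x7e352a8f22) (nat_lit 879766056)]
noncomputable def e30_2 : List Rx := [
  Rx.mk (nat_lit 276) (nat_lit 4) (nat_lit 2) (nat_lit 4) (nat_lit 2) (nat_lit 309) (nat_lit 258) r10_309 r2_258 (nat_lit 0) (nat_lit 0) (nat_lit 0) (nat_lit 0x66e4917006) (nat_lit 12323932920),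
  Rx.mk (nat_lit 278) (nat_lit 6) (nat_lit 2) (nat_lit 4) (nat_lit 3) (nat_lit 310) (nat_lit 265) r10_310 r2_265 (nat_lit 0) (nat_lit 0) (nat_lit 0) (nat_lit 0x7dd287b9b2) (nat_lit 1068890472),
  Rx.mk (nat_lit 308) (nat_lit 4) (nat_lit 6) (nat_lit 4) (nat_lit 2) (nat_lit 308) (nat_lit 260) r10_308 r2_260 (nat_lit 0) (nat_lit 0) (nat_lit 0) (nat_lit 0x6a7892cc5c) (nat_lit 10567587888),
  Rx.mk (nat_lit 311) (nat_lit 7) (nat_lit 6) (nat_lit 4) (nat_lit 3) (nat_lit 311) (nat_lit 262) r10_311 r2_262 (nat_lit 0) (nat_lit 0) (nat_lit 0) (nat_lit 0x7dc32e4f58) (nat_lit 1098321120),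
  Rx.mk (nat_lit 340) (nat_lit 4) (nat_lit 2) (nat_lit 5) (nat_lit 6) (nat_lit 313) (nat_lit 259) r10_313 r2_259 (nat_lit 0) (nat_lit 0) (nat_lit 0) (nat_lit 0x7dd88cf958) (nat_lit 1057346784),
  Rx.mk (nat_lit 342) (nat_lit 6) (nat_lit 2) (nat_lit 5) (nat_lit 7) (nat_lit 314) (nat_lit 266) r10_314 r2_266 (nat_lit 0) (nat_lit 0) (nat_lit 0) (nat_lit 0x7dd90551d2) (nat_lit 1056445416),
  Rx.mk (nat_lit 372) (nat_lit 4) (nat_lit 6) (nat_lit 5) (nat_lit 6) (nat_lit 312) (nat_lit 261) r10_312 r2_261 (nat_lit 0) (nat_lit 0) (nat_lit 0) (nat_lit 0x7dda7c9a5c) (nat_lit 1053634608),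
  Rx.mk (nat_lit 375) (nat_lit 7) (nat_lit 6) (nat_lit 5) (nat_lit 7) (nat_lit 315) (nat_lit 263) r10_315 r2_263 (nat_lit 0) (nat_lit 0) (nat_lit 0) (nat_lit 0x7de6ab7762) (nat_lit 1030274856),
  Rx.mk (nat_lit 406) (nat_lit 6) (nat_lit 2) (nat_lit 6) (nat_lit 7) (nat_lit 316) (nat_lit 267) r10_316 r2_267 (nat_lit 0) (nat_lit 0) (nat_lit 0) (nat_lit 0x7df6d8b47e) (nat_lit 999257688),
  Rx.mk (nat_lit 503) (nat_lit 7) (nat_lit 6) (nat_lit 7) (nat_lit 7) (nat_lit 317) (nat_lit 264) r10_317 r2_264 (nat_lit 0) (nat_lit 0) (nat_lit 0) (nat_lit 0x7df7510cf8) (nat_lit 998356320)]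
noncomputable def e30_3 : List Rx := [
  Rx.mk (nat_lit 116) (nat_lit 4) (nat_lit 6) (nat_lit 1) (nat_lit 6) (nat_lit 351) (nat_lit 220) r10_351 r3_220 (nat_lit 0) (nat_lit 0) (nat_lit 0) (nat_lit 0x7ae9e266f0) (nat_lit 2496671424),
  Rx.mk (nat_lit 119) (nat_lit 7) (nat_lit 6) (nat_lit 1) (nat_lit 7) (nat_lit 352) (nat_lit 221) r10_352 r3_221 (nat_lit 0) (nat_lit 0) (nat_lit 0) (nat_lit 0x7fe8167eb0) (nat_lit 45849024)]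
noncomputable def e30_4 : List Rx := [
  Rx.mk (nat_lit 116) (nat_lit 4) (nat_lit 6) (nat_lit 1) (nat_lit 6) (nat_lit 358) (nat_lit 226) r10_358 r4_226 (nat_lit 0) (nat_lit 0) (nat_lit 0) (nat_lit 0x7adab11a14) (nat_lit 2525801616),
  Rx.mk (nat_lit 119) (nat_lit 7) (nat_lit 6) (nat_lit 1) (nat_lit 7) (nat_lit 359) (nat_lit 227) r10_359 r4_227 (nat_lit 0) (nat_lit 0) (nat_lit 0) (nat_lit 0x7e63204f98) (nat_lit 791642592),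
  Rx.mk (nat_lit 375) (nat_lit 7) (nat_lit 6) (nat_lit 5) (nat_lit 7) (nat_lit 357) (nat_lit 228) r10_357 r4_228 (nat_lit 0) (nat_lit 0) (nat_lit 0) (nat_lit 0x7e80048138) (nat_lit 736246368)]
noncomputable def e30_5 : List Rx := [
  Rx.mk (nat_lit 154) (nat_lit 2) (nat_lit 3) (nat_lit 2) (nat_lit 7) (nat_lit 6) (nat_lit 212) r10_6 r3_212 (nat_lit 0) (nat_lit 0) (nat_lit 0) (nat_lit 0x7f829c56b8) (nat_lit 240420960),
  Rx.mk (nat_lit 247) (nat_lit 7) (nat_lit 6) (nat_lit 3) (nat_lit 7) (nat_lit 7) (nat_lit 211) r10_7 r3_211 (nat_lit 0) (nat_lit 0) (nat_lit 0) (nat_lit 0x7fc79746c4) (nat_lit 108158544)]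
noncomputable def e30_6 : List Rx := [
  Rx.mk (nat_lit 130) (nat_lit 2) (nat_lit 0) (nat_lit 2) (nat_lit 5) (nat_lit 99) (nat_lit 217) r10_99 r0_217 (nat_lit 0) (nat_lit 0) (nat_lit 0) (nat_lit 0x7c2f7ecbe4) (nat_lit 1872346320),
  Rx.mk (nat_lit 154) (nat_lit 2) (nat_lit 3) (nat_lit 2) (nat_lit 7) (nat_lit 100) (nat_lit 218) r10_100 r0_218 (nat_lit 0) (nat_lit 0) (nat_lit 0) (nat_lit 0x7e0bdd0424) (nat_lit 958960080),
  Rx.mk (nat_lit 276) (nat_lit 4) (nat_lit 2) (nat_lit 4) (nat_lit 2) (nat_lit 92) (nat_lit 219) r10_92 r0_219 (nat_lit 0) (nat_lit 0) (nat_lit 0) (nat_lit 0x4965c57a46) (nat_lit 26801801208),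
  Rx.mk (nat_lit 278) (nat_lit 6) (nat_lit 2) (nat_lit 4) (nat_lit 3) (nat_lit 93) (nat_lit 220) r10_93 r0_220 (nat_lit 0) (nat_lit 0) (nat_lit 0) (nat_lit 0x7d5dec63dc) (nat_lit 1292471856),
  Rx.mk (nat_lit 308) (nat_lit 4) (nat_lit 6) (nat_lit 4) (nat_lit 2) (nat_lit 91) (nat_lit 212) r10_91 r0_212 (nat_lit 0) (nat_lit 0) (nat_lit 0) (nat_lit 0x41b494b504) (nat_lit 30577519440),
  Rx.mk (nat_lit 386) (nat_lit 2) (nat_lit 0) (nat_lit 6) (nat_lit 5) (nat_lit 96) (nat_lit 216) r10_96 r0_216 (nat_lit 0) (nat_lit 0) (nat_lit 0) (nat_lit 0x7de857fc98) (nat_lit 1027065312),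
  Rx.mk (nat_lit 390) (nat_lit 6) (nat_lit 0) (nat_lit 6) (nat_lit 5) (nat_lit 94) (nat_lit 215) r10_94 r0_215 (nat_lit 0) (nat_lit 0) (nat_lit 0) (nat_lit 0x7d78b51736) (nat_lit 1241116344),
  Rx.mk (nat_lit 406) (nat_lit 6) (nat_lit 2) (nat_lit 6) (nat_lit 7) (nat_lit 95) (nat_lit 221) r10_95 r0_221 (nat_lit 0) (nat_lit 0) (nat_lit 0) (nat_lit 0x7e428d38ea) (nat_lit 854100936),
  Rx.mk (nat_lit 500) (nat_lit 4) (nat_lit 6) (nat_lit 7) (nat_lit 6) (nat_lit 97) (nat_lit 213) r10_97 r0_213 (nat_lit 0) (nat_lit 0) (nat_lit 0) (nat_lit 0x78034c9334) (nat_lit 3920501520),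
  Rx.mk (nat_lit 503) (nat_lit 7) (nat_lit 6) (nat_lit 7) (nat_lit 7) (nat_lit 98) (nat_lit 214) r10_98 r0_214 (nat_lit 0) (nat_lit 0) (nat_lit 0) (nat_lit 0x7e314d2cfc) (nat_lit 887176368)]
noncomputable def e30_7 : List Rx := [
  Rx.mk (nat_lit 276) (nat_lit 4) (nat_lit 2) (nat_lit 4) (nat_lit 2) (nat_lit 108) (nat_lit 237) r10_108 r1_237 (nat_lit 0) (nat_lit 0) (nat_lit 0) (nat_lit 0x6afa16f398) (nat_lit 10319253984),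
  Rx.mk (nat_lit 278) (nat_lit 6) (nat_lit 2) (nat_lit 4) (nat_lit 3) (nat_lit 109) (nat_lit 238) r10_109 r1_238 (nat_lit 0) (nat_lit 0) (nat_lit 0) (nat_lit 0x7dd597a8b0) (nat_lit 1063018944),
  Rx.mk (nat_lit 308) (nat_lit 4) (nat_lit 6) (nat_lit 4) (nat_lit 2) (nat_lit 107) (nat_lit 234) r10_107 r1_234 (nat_lit 0) (nat_lit 0) (nat_lit 0) (nat_lit 0x79f253e0d0) (nat_lit 2971335744),
  Rx.mk (nat_lit 406) (nat_lit 6) (nat_lit 2) (nat_lit 6) (nat_lit 7) (nat_lit 110) (nat_lit 239) r10_110 r1_239 (nat_lit 0) (nat_lit 0) (nat_lit 0) (nat_lit 0x7de4773aa8) (nat_lit 1034500896),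
  Rx.mk (nat_lit 500) (nat_lit 4) (nat_lit 6) (nat_lit 7) (nat_lit 6) (nat_lit 111) (nat_lit 235) r10_111 r1_235 (nat_lit 0) (nat_lit 0) (nat_lit 0) (nat_lit 0x7de322cff0) (nat_lit 1037050560),
  Rx.mk (nat_lit 503) (nat_lit 7) (nat_lit 6) (nat_lit 7) (nat_lit 7) (nat_lit 112) (nat_lit 236) r10_112 r1_236 (nat_lit 0) (nat_lit 0) (nat_lit 0) (nat_lit 0x7e36429da0) (nat_lit 877668480)]
noncomputable def e30_8 : List Rx := [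
  Rx.mk (nat_lit 154) (nat_lit 2) (nat_lit 3) (nat_lit 2) (nat_lit 7) (nat_lit 135) (nat_lit 211) r10_135 r4_211 (nat_lit 0) (nat_lit 0) (nat_lit 0) (nat_lit 0x7df1c665a8) (nat_lit 1008981792),
  Rx.mk (nat_lit 247) (nat_lit 7) (nat_lit 6) (nat_lit 3) (nat_lit 7) (nat_lit 136) (nat_lit 207) r10_136 r4_207 (nat_lit 0) (nat_lit 0) (nat_lit 0) (nat_lit 0x7e23aee6ee) (nat_lit 913287960),
  Rx.mk (nat_lit 276) (nat_lit 4) (nat_lit 2) (nat_lit 4) (nat_lit 2) (nat_lit 125) (nat_lit 212) r10_125 r4_212 (nat_lit 0) (nat_lit 0) (nat_lit 0) (nat_lit 0x704a4c6af0) (nat_lit 7711194816),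
  Rx.mk (nat_lit 278) (nat_lit 6) (nat_lit 2) (nat_lit 4) (nat_lit 3) (nat_lit 126) (nat_lit 214) r10_126 r4_214 (nat_lit 0) (nat_lit 0) (nat_lit 0) (nat_lit 0x7bb067ddd2) (nat_lit 2116027368),
  Rx.mk (nat_lit 386) (nat_lit 2) (nat_lit 0) (nat_lit 6) (nat_lit 5) (nat_lit 129) (nat_lit 209) r10_129 r4_209 (nat_lit 0) (nat_lit 0) (nat_lit 0) (nat_lit 0x757b9df0a6) (nat_lit 5162364792),
  Rx.mk (nat_lit 390) (nat_lit 6) (nat_lit 0) (nat_lit 6) (nat_lit 5) (nat_lit 127) (nat_lit 208) r10_127 r4_208 (nat_lit 0) (nat_lit 0) (nat_lit 0) (nat_lit 0x72c34b188c) (nat_lit 6497492976),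
  Rx.mk (nat_lit 406) (nat_lit 6) (nat_lit 2) (nat_lit 6) (nat_lit 7) (nat_lit 128) (nat_lit 216) r10_128 r4_216 (nat_lit 0) (nat_lit 0) (nat_lit 0) (nat_lit 0x7d9fcc8598) (nat_lit 1166162400),
  Rx.mk (nat_lit 410) (nat_lit 2) (nat_lit 3) (nat_lit 6) (nat_lit 7) (nat_lit 130) (nat_lit 210) r10_130 r4_210 (nat_lit 0) (nat_lit 0) (nat_lit 0) (nat_lit 0x7e50fdd1d2) (nat_lit 826414056),
  Rx.mk (nat_lit 468) (nat_lit 4) (nat_lit 2) (nat_lit 7) (nat_lit 6) (nat_lit 132) (nat_lit 213) r10_132 r4_213 (nat_lit 0) (nat_lit 0) (nat_lit 0) (nat_lit 0x77d5fc8862) (nat_lit 4007383848),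
  Rx.mk (nat_lit 470) (nat_lit 6) (nat_lit 2) (nat_lit 7) (nat_lit 7) (nat_lit 133) (nat_lit 215) r10_133 r4_215 (nat_lit 0) (nat_lit 0) (nat_lit 0) (nat_lit 0x7e0de80372) (nat_lit 955042920),
  Rx.mk (nat_lit 500) (nat_lit 4) (nat_lit 6) (nat_lit 7) (nat_lit 6) (nat_lit 131) (nat_lit 205) r10_131 r4_205 (nat_lit 0) (nat_lit 0) (nat_lit 0) (nat_lit 0x7227e22fb6) (nat_lit 6795475128),
  Rx.mk (nat_lit 503) (nat_lit 7) (nat_lit 6) (nat_lit 7) (nat_lit 7) (nat_lit 134) (nat_lit 206) r10_134 r4_206 (nat_lit 0) (nat_lit 0) (nat_lit 0) (nat_lit 0x7dc3644bf8) (nat_lit 1097916768)]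
noncomputable def e30_9 : List Rx := [
  Rx.mk (nat_lit 55) (nat_lit 7) (nat_lit 6) (nat_lit 0) (nat_lit 3) (nat_lit 284) (nat_lit 254) r10_284 r5_254 (nat_lit 0) (nat_lit 0) (nat_lit 0) (nat_lit 0x7e9ce972cc) (nat_lit 680844528),
  Rx.mk (nat_lit 119) (nat_lit 7) (nat_lit 6) (nat_lit 1) (nat_lit 7) (nat_lit 285) (nat_lit 255) r10_285 r5_255 (nat_lit 0) (nat_lit 0) (nat_lit 0) (nat_lit 0x7eb3926826) (nat_lit 637396344),
  Rx.mk (nat_lit 247) (nat_lit 7) (nat_lit 6) (nat_lit 3) (nat_lit 7) (nat_lit 286) (nat_lit 256) r10_286 r5_256 (nat_lit 0) (nat_lit 0) (nat_lit 0) (nat_lit 0x7eba8a38a2) (nat_lit 624035880)]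
noncomputable def e30_10 : List Rx := [
  Rx.mk (nat_lit 116) (nat_lit 4) (nat_lit 6) (nat_lit 1) (nat_lit 6) (nat_lit 298) (nat_lit 327) r10_298 r0_327 (nat_lit 0) (nat_lit 0) (nat_lit 0) (nat_lit 0x7e2b75aa7a) (nat_lit 898377480),
  Rx.mk (nat_lit 117) (nat_lit 5) (nat_lit 6) (nat_lit 1) (nat_lit 7) (nat_lit 299) (nat_lit 328) r10_299 r0_328 (nat_lit 0) (nat_lit 0) (nat_lit 0) (nat_lit 0x7df79428c6) (nat_lit 997853688)]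
noncomputable def e30_11 : List Rx := [
  Rx.mk (nat_lit 116) (nat_lit 4) (nat_lit 6) (nat_lit 1) (nat_lit 6) (nat_lit 306) (nat_lit 288) r10_306 r6_288 (nat_lit 0) (nat_lit 0) (nat_lit 0) (nat_lit 0x7de08359ea) (nat_lit 1042079688),
  Rx.mk (nat_lit 117) (nat_lit 5) (nat_lit 6) (nat_lit 1) (nat_lit 7) (nat_lit 307) (nat_lit 290) r10_307 r6_290 (nat_lit 0) (nat_lit 0) (nat_lit 0) (nat_lit 0x7de6505d14) (nat_lit 1030957200),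
  Rx.mk (nat_lit 372) (nat_lit 4) (nat_lit 6) (nat_lit 5) (nat_lit 6) (nat_lit 303) (nat_lit 289) r10_303 r6_289 (nat_lit 0) (nat_lit 0) (nat_lit 0) (nat_lit 0x7de1356ec8) (nat_lit 1040745888),
  Rx.mk (nat_lit 373) (nat_lit 5) (nat_lit 6) (nat_lit 5) (nat_lit 7) (nat_lit 304) (nat_lit 291) r10_304 r6_291 (nat_lit 0) (nat_lit 0) (nat_lit 0) (nat_lit 0x7df52a4f66) (nat_lit 1002481272),
  Rx.mk (nat_lit 375) (nat_lit 7) (nat_lit 6) (nat_lit 5) (nat_lit 7) (nat_lit 305) (nat_lit 292) r10_305 r6_292 (nat_lit 0) (nat_lit 0) (nat_lit 0) (nat_lit 0x7dcf9d485c) (nat_lit 1074481200)]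
noncomputable def e30_12 : List Rx := [
  Rx.mk (nat_lit 117) (nat_lit 5) (nat_lit 6) (nat_lit 1) (nat_lit 7) (nat_lit 338) (nat_lit 309) r10_338 r1_309 (nat_lit 0) (nat_lit 0) (nat_lit 0) (nat_lit 0x7df8d574b0) (nat_lit 995447232)]
noncomputable def e30_13 : List Rx := [
  Rx.mk (nat_lit 117) (nat_lit 5) (nat_lit 6) (nat_lit 1) (nat_lit 7) (nat_lit 344) (nat_lit 219) r10_344 r7_219 (nat_lit 0) (nat_lit 0) (nat_lit 0) (nat_lit 0x7de8ed3344) (nat_lit 1025947728),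
  Rx.mk (nat_lit 373) (nat_lit 5) (nat_lit 6) (nat_lit 5) (nat_lit 7) (nat_lit 343) (nat_lit 220) r10_343 r7_220 (nat_lit 0) (nat_lit 0) (nat_lit 0) (nat_lit 0x7de0f07318) (nat_lit 1041262560)]
noncomputable def e30_14 : List Rx := [
  Rx.mk (nat_lit 372) (nat_lit 4) (nat_lit 6) (nat_lit 5) (nat_lit 6) (nat_lit 335) (nat_lit 358) r10_335 r7_358 (nat_lit 0) (nat_lit 0) (nat_lit 0) (nat_lit 0x7de88259f2) (nat_lit 1026748008),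
  Rx.mk (nat_lit 373) (nat_lit 5) (nat_lit 6) (nat_lit 5) (nat_lit 7) (nat_lit 336) (nat_lit 359) r10_336 r7_359 (nat_lit 0) (nat_lit 0) (nat_lit 0) (nat_lit 0x7de822bfec) (nat_lit 1027464048),
  Rx.mk (nat_lit 375) (nat_lit 7) (nat_lit 6) (nat_lit 5) (nat_lit 7) (nat_lit 337) (nat_lit 360) r10_337 r7_360 (nat_lit 0) (nat_lit 0) (nat_lit 0) (nat_lit 0x7df139ce72) (nat_lit 1010034792)]
noncomputable def e30_15 : List Rx := [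
  Rx.mk (nat_lit 276) (nat_lit 4) (nat_lit 2) (nat_lit 4) (nat_lit 2) (nat_lit 319) (nat_lit 229) r10_319 r8_229 (nat_lit 0) (nat_lit 0) (nat_lit 0) (nat_lit 0x76844a04dc) (nat_lit 4654883376),
  Rx.mk (nat_lit 278) (nat_lit 6) (nat_lit 2) (nat_lit 4) (nat_lit 3) (nat_lit 320) (nat_lit 238) r10_320 r8_238 (nat_lit 0) (nat_lit 0) (nat_lit 0) (nat_lit 0x7db5be8662) (nat_lit 1124084520),
  Rx.mk (nat_lit 308) (nat_lit 4) (nat_lit 6) (nat_lit 4) (nat_lit 2) (nat_lit 318) (nat_lit 231) r10_318 r8_231 (nat_lit 0) (nat_lit 0) (nat_lit 0) (nat_lit 0x74c5e86cb4) (nat_lit 5510773008),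
  Rx.mk (nat_lit 311) (nat_lit 7) (nat_lit 6) (nat_lit 4) (nat_lit 3) (nat_lit 321) (nat_lit 235) r10_321 r8_235 (nat_lit 0) (nat_lit 0) (nat_lit 0) (nat_lit 0x7de41b006c) (nat_lit 1035191664),
  Rx.mk (nat_lit 340) (nat_lit 4) (nat_lit 2) (nat_lit 5) (nat_lit 6) (nat_lit 323) (nat_lit 230) r10_323 r8_230 (nat_lit 0) (nat_lit 0) (nat_lit 0) (nat_lit 0x7dd91db04c) (nat_lit 1056262896),
  Rx.mk (nat_lit 341) (nat_lit 5) (nat_lit 2) (nat_lit 5) (nat_lit 7) (nat_lit 325) (nat_lit 233) r10_325 r8_233 (nat_lit 0) (nat_lit 0) (nat_lit 0) (nat_lit 0x7df5994876) (nat_lit 1001650104),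
  Rx.mk (nat_lit 342) (nat_lit 6) (nat_lit 2) (nat_lit 5) (nat_lit 7) (nat_lit 326) (nat_lit 239) r10_326 r8_239 (nat_lit 0) (nat_lit 0) (nat_lit 0) (nat_lit 0x7df0180090) (nat_lit 1012205376),
  Rx.mk (nat_lit 372) (nat_lit 4) (nat_lit 6) (nat_lit 5) (nat_lit 6) (nat_lit 322) (nat_lit 232) r10_322 r8_232 (nat_lit 0) (nat_lit 0) (nat_lit 0) (nat_lit 0x7de5ce4536) (nat_lit 1031931576),
  Rx.mk (nat_lit 373) (nat_lit 5) (nat_lit 6) (nat_lit 5) (nat_lit 7) (nat_lit 324) (nat_lit 234) r10_324 r8_234 (nat_lit 0) (nat_lit 0) (nat_lit 0) (nat_lit 0x7deef3f2d2) (nat_lit 1014392808),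
  Rx.mk (nat_lit 375) (nat_lit 7) (nat_lit 6) (nat_lit 5) (nat_lit 7) (nat_lit 327) (nat_lit 236) r10_327 r8_236 (nat_lit 0) (nat_lit 0) (nat_lit 0) (nat_lit 0x7dcf8f693a) (nat_lit 1074585096),
  Rx.mk (nat_lit 406) (nat_lit 6) (nat_lit 2) (nat_lit 6) (nat_lit 7) (nat_lit 328) (nat_lit 240) r10_328 r8_240 (nat_lit 0) (nat_lit 0) (nat_lit 0) (nat_lit 0x7df39d4838) (nat_lit 1005454944),
  Rx.mk (nat_lit 503) (nat_lit 7) (nat_lit 6) (nat_lit 7) (nat_lit 7) (nat_lit 329) (nat_lit 237) r10_329 r8_237 (nat_lit 0) (nat_lit 0) (nat_lit 0) (nat_lit 0x7df16d2b3c) (nat_lit 1009650096)]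
noncomputable def e30_16 : List Rx := [
  Rx.mk (nat_lit 116) (nat_lit 4) (nat_lit 6) (nat_lit 1) (nat_lit 6) (nat_lit 353) (nat_lit 363) r10_353 r4_363 (nat_lit 0) (nat_lit 0) (nat_lit 0) (nat_lit 0x7e35dac41e) (nat_lit 878446296),
  Rx.mk (nat_lit 117) (nat_lit 5) (nat_lit 6) (nat_lit 1) (nat_lit 7) (nat_lit 354) (nat_lit 364) r10_354 r4_364 (nat_lit 0) (nat_lit 0) (nat_lit 0) (nat_lit 0x7df12eef20) (nat_lit 1010116224),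
  Rx.mk (nat_lit 119) (nat_lit 7) (nat_lit 6) (nat_lit 1) (nat_lit 7) (nat_lit 355) (nat_lit 365) r10_355 r4_365 (nat_lit 0) (nat_lit 0) (nat_lit 0) (nat_lit 0x7df06e3b2c) (nat_lit 1011559536)]
noncomputable def e30_17 : List Rx := [
  Rx.mk (nat_lit 116) (nat_lit 4) (nat_lit 6) (nat_lit 1) (nat_lit 6) (nat_lit 361) (nat_lit 240) r10_361 r9_240 (nat_lit 0) (nat_lit 0) (nat_lit 0) (nat_lit 0x7dee57fc92) (nat_lit 1015560936),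
  Rx.mk (nat_lit 117) (nat_lit 5) (nat_lit 6) (nat_lit 1) (nat_lit 7) (nat_lit 362) (nat_lit 241) r10_362 r9_241 (nat_lit 0) (nat_lit 0) (nat_lit 0) (nat_lit 0x7dded7f4a2) (nat_lit 1045280808),
  Rx.mk (nat_lit 119) (nat_lit 7) (nat_lit 6) (nat_lit 1) (nat_lit 7) (nat_lit 363) (nat_lit 242) r10_363 r9_242 (nat_lit 0) (nat_lit 0) (nat_lit 0) (nat_lit 0x7de67cfa4a) (nat_lit 1030623048),
  Rx.mk (nat_lit 375) (nat_lit 7) (nat_lit 6) (nat_lit 5) (nat_lit 7) (nat_lit 360) (nat_lit 243) r10_360 r9_243 (nat_lit 0) (nat_lit 0) (nat_lit 0) (nat_lit 0x7de3898984) (nat_lit 1036281168)]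
noncomputable def e30_18 : List Rx := [
  Rx.mk (nat_lit 116) (nat_lit 4) (nat_lit 6) (nat_lit 1) (nat_lit 6) (nat_lit 368) (nat_lit 281) r10_368 r10_281 (nat_lit 0) (nat_lit 0) (nat_lit 0) (nat_lit 0x7df1570c9e) (nat_lit 1009815768),
  Rx.mk (nat_lit 117) (nat_lit 5) (nat_lit 6) (nat_lit 1) (nat_lit 7) (nat_lit 369) (nat_lit 282) r10_369 r10_282 (nat_lit 0) (nat_lit 0) (nat_lit 0) (nat_lit 0x7df79428c6) (nat_lit 997853688),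
  Rx.mk (nat_lit 119) (nat_lit 7) (nat_lit 6) (nat_lit 1) (nat_lit 7) (nat_lit 370) (nat_lit 283) r10_370 r10_283 (nat_lit 0) (nat_lit 0) (nat_lit 0) (nat_lit 0x7df441ddee) (nat_lit 1004222232)]
noncomputable def e30_19 : List Rx := [
  Rx.mk (nat_lit 278) (nat_lit 6) (nat_lit 2) (nat_lit 4) (nat_lit 3) (nat_lit 330) (nat_lit 216) r10_330 r8_216 (nat_lit 0) (nat_lit 0) (nat_lit 0) (nat_lit 0x7dca825a10) (nat_lit 1084269888),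
  Rx.mk (nat_lit 342) (nat_lit 6) (nat_lit 2) (nat_lit 5) (nat_lit 7) (nat_lit 331) (nat_lit 217) r10_331 r8_217 (nat_lit 0) (nat_lit 0) (nat_lit 0) (nat_lit 0x7dde527cfa) (nat_lit 1046280456),
  Rx.mk (nat_lit 406) (nat_lit 6) (nat_lit 2) (nat_lit 6) (nat_lit 7) (nat_lit 332) (nat_lit 218) r10_332 r8_218 (nat_lit 0) (nat_lit 0) (nat_lit 0) (nat_lit 0x7de88a996e) (nat_lit 1026686232)]
noncomputable def e30_20 : List Rx := [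
  Rx.mk (nat_lit 130) (nat_lit 2) (nat_lit 0) (nat_lit 2) (nat_lit 5) (nat_lit 0) (nat_lit 152) r10_0 r0_152 (nat_lit 0) (nat_lit 0) (nat_lit 0) (nat_lit 0x7e1794a89e) (nat_lit 936493272),
  Rx.mk (nat_lit 154) (nat_lit 2) (nat_lit 3) (nat_lit 2) (nat_lit 7) (nat_lit 1) (nat_lit 153) r10_1 r0_153 (nat_lit 0) (nat_lit 0) (nat_lit 0) (nat_lit 0x7df4465da6) (nat_lit 1004188536)]
noncomputable def e30_21 : List Rx := [
  Rx.mk (nat_lit 130) (nat_lit 2) (nat_lit 0) (nat_lit 2) (nat_lit 5) (nat_lit 2) (nat_lit 166) r10_2 r1_166 (nat_lit 0) (nat_lit 0) (nat_lit 0) (nat_lit 0x7d62cfd5a0) (nat_lit 1283098752),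
  Rx.mk (nat_lit 138) (nat_lit 2) (nat_lit 1) (nat_lit 2) (nat_lit 7) (nat_lit 3) (nat_lit 167) r10_3 r1_167 (nat_lit 0) (nat_lit 0) (nat_lit 0) (nat_lit 0x7dfa55bcaa) (nat_lit 992569032),
  Rx.mk (nat_lit 154) (nat_lit 2) (nat_lit 3) (nat_lit 2) (nat_lit 7) (nat_lit 4) (nat_lit 168) r10_4 r1_168 (nat_lit 0) (nat_lit 0) (nat_lit 0) (nat_lit 0x7ddc34bed8) (nat_lit 1050338016)]
noncomputable def e30_22 : List Rx := [
  Rx.mk (nat_lit 154) (nat_lit 2) (nat_lit 3) (nat_lit 2) (nat_lit 7) (nat_lit 8) (nat_lit 143) r10_8 r4_143 (nat_lit 0) (nat_lit 0) (nat_lit 0) (nat_lit 0x7dd7d8a49e) (nat_lit 1058697432)]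
noncomputable def e30_23 : List Rx := [
  Rx.mk (nat_lit 130) (nat_lit 2) (nat_lit 0) (nat_lit 2) (nat_lit 5) (nat_lit 105) (nat_lit 276) r10_105 r6_276 (nat_lit 0) (nat_lit 0) (nat_lit 0) (nat_lit 0x7d9e0ce194) (nat_lit 1169515152),
  Rx.mk (nat_lit 154) (nat_lit 2) (nat_lit 3) (nat_lit 2) (nat_lit 7) (nat_lit 106) (nat_lit 277) r10_106 r6_277 (nat_lit 0) (nat_lit 0) (nat_lit 0) (nat_lit 0x7da1502d5c) (nat_lit 1163258928),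
  Rx.mk (nat_lit 278) (nat_lit 6) (nat_lit 2) (nat_lit 4) (nat_lit 3) (nat_lit 101) (nat_lit 278) r10_101 r6_278 (nat_lit 0) (nat_lit 0) (nat_lit 0) (nat_lit 0x7de93d0e46) (nat_lit 1025349624),
  Rx.mk (nat_lit 386) (nat_lit 2) (nat_lit 0) (nat_lit 6) (nat_lit 5) (nat_lit 104) (nat_lit 275) r10_104 r6_275 (nat_lit 0) (nat_lit 0) (nat_lit 0) (nat_lit 0x7dd6555cd4) (nat_lit 1061598096),
  Rx.mk (nat_lit 390) (nat_lit 6) (nat_lit 0) (nat_lit 6) (nat_lit 5) (nat_lit 102) (nat_lit 274) r10_102 r6_274 (nat_lit 0) (nat_lit 0) (nat_lit 0) (nat_lit 0x7d8f376efa) (nat_lit 1197957384),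
  Rx.mk (nat_lit 406) (nat_lit 6) (nat_lit 2) (nat_lit 6) (nat_lit 7) (nat_lit 103) (nat_lit 279) r10_103 r6_279 (nat_lit 0) (nat_lit 0) (nat_lit 0) (nat_lit 0x7df1366ea8) (nat_lit 1010060064)]
noncomputable def e30_24 : List Rx := [
  Rx.mk (nat_lit 130) (nat_lit 2) (nat_lit 0) (nat_lit 2) (nat_lit 5) (nat_lit 120) (nat_lit 208) r10_120 r7_208 (nat_lit 0) (nat_lit 0) (nat_lit 0) (nat_lit 0x7da81b00a8) (nat_lit 1150235424),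
  Rx.mk (nat_lit 138) (nat_lit 2) (nat_lit 1) (nat_lit 2) (nat_lit 7) (nat_lit 121) (nat_lit 211) r10_121 r7_211 (nat_lit 0) (nat_lit 0) (nat_lit 0) (nat_lit 0x7df45c7c44) (nat_lit 1004022864),
  Rx.mk (nat_lit 154) (nat_lit 2) (nat_lit 3) (nat_lit 2) (nat_lit 7) (nat_lit 122) (nat_lit 212) r10_122 r7_212 (nat_lit 0) (nat_lit 0) (nat_lit 0) (nat_lit 0x7dd511d10e) (nat_lit 1064021400),
  Rx.mk (nat_lit 386) (nat_lit 2) (nat_lit 0) (nat_lit 6) (nat_lit 5) (nat_lit 118) (nat_lit 207) r10_118 r7_207 (nat_lit 0) (nat_lit 0) (nat_lit 0) (nat_lit 0x7dcad2f506) (nat_lit 1083666168),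
  Rx.mk (nat_lit 390) (nat_lit 6) (nat_lit 0) (nat_lit 6) (nat_lit 5) (nat_lit 115) (nat_lit 206) r10_115 r7_206 (nat_lit 0) (nat_lit 0) (nat_lit 0) (nat_lit 0x7d7cc21662) (nat_lit 1233349416),
  Rx.mk (nat_lit 394) (nat_lit 2) (nat_lit 1) (nat_lit 6) (nat_lit 7) (nat_lit 119) (nat_lit 210) r10_119 r7_210 (nat_lit 0) (nat_lit 0) (nat_lit 0) (nat_lit 0x7de6733ae6) (nat_lit 1030696056),
  Rx.mk (nat_lit 398) (nat_lit 6) (nat_lit 1) (nat_lit 6) (nat_lit 7) (nat_lit 116) (nat_lit 209) r10_116 r7_209 (nat_lit 0) (nat_lit 0) (nat_lit 0) (nat_lit 0x7deb46eda6) (nat_lit 1021440888),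
  Rx.mk (nat_lit 406) (nat_lit 6) (nat_lit 2) (nat_lit 6) (nat_lit 7) (nat_lit 117) (nat_lit 213) r10_117 r7_213 (nat_lit 0) (nat_lit 0) (nat_lit 0) (nat_lit 0x7df08459ca) (nat_lit 1011393864)]
noncomputable def e30_25 : List Rx := [
  Rx.mk (nat_lit 278) (nat_lit 6) (nat_lit 2) (nat_lit 4) (nat_lit 3) (nat_lit 113) (nat_lit 157) r10_113 r7_157 (nat_lit 0) (nat_lit 0) (nat_lit 0) (nat_lit 0x7dd4373eb8) (nat_lit 1065658464),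
  Rx.mk (nat_lit 406) (nat_lit 6) (nat_lit 2) (nat_lit 6) (nat_lit 7) (nat_lit 114) (nat_lit 158) r10_114 r7_158 (nat_lit 0) (nat_lit 0) (nat_lit 0) (nat_lit 0x7deba267ee) (nat_lit 1020755736)]
noncomputable def e30_26 : List Rx := [
  Rx.mk (nat_lit 154) (nat_lit 2) (nat_lit 3) (nat_lit 2) (nat_lit 7) (nat_lit 143) (nat_lit 221) r10_143 r9_221 (nat_lit 0) (nat_lit 0) (nat_lit 0) (nat_lit 0x7dd40501dc) (nat_lit 1066034736),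
  Rx.mk (nat_lit 278) (nat_lit 6) (nat_lit 2) (nat_lit 4) (nat_lit 3) (nat_lit 137) (nat_lit 222) r10_137 r9_222 (nat_lit 0) (nat_lit 0) (nat_lit 0) (nat_lit 0x7df2fc7246) (nat_lit 1006659576),
  Rx.mk (nat_lit 386) (nat_lit 2) (nat_lit 0) (nat_lit 6) (nat_lit 5) (nat_lit 140) (nat_lit 219) r10_140 r9_219 (nat_lit 0) (nat_lit 0) (nat_lit 0) (nat_lit 0x7dcfb546dc) (nat_lit 1074301488),
  Rx.mk (nat_lit 390) (nat_lit 6) (nat_lit 0) (nat_lit 6) (nat_lit 5) (nat_lit 138) (nat_lit 218) r10_138 r9_218 (nat_lit 0) (nat_lit 0) (nat_lit 0) (nat_lit 0x7dcdcae584) (nat_lit 1077974352),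
  Rx.mk (nat_lit 406) (nat_lit 6) (nat_lit 2) (nat_lit 6) (nat_lit 7) (nat_lit 139) (nat_lit 224) r10_139 r9_224 (nat_lit 0) (nat_lit 0) (nat_lit 0) (nat_lit 0x7df79428c6) (nat_lit 997853688),
  Rx.mk (nat_lit 410) (nat_lit 2) (nat_lit 3) (nat_lit 6) (nat_lit 7) (nat_lit 141) (nat_lit 220) r10_141 r9_220 (nat_lit 0) (nat_lit 0) (nat_lit 0) (nat_lit 0x7dfd420de2) (nat_lit 986964264),
  Rx.mk (nat_lit 470) (nat_lit 6) (nat_lit 2) (nat_lit 7) (nat_lit 7) (nat_lit 142) (nat_lit 223) r10_142 r9_223 (nat_lit 0) (nat_lit 0) (nat_lit 0) (nat_lit 0x7df03efe20) (nat_lit 1011913344)]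
noncomputable def e30_27 : List Rx := []
noncomputable def e30_28 : List Rx := [
  Rx.mk (nat_lit 119) (nat_lit 7) (nat_lit 6) (nat_lit 1) (nat_lit 7) (nat_lit 365) (nat_lit 365) r10_365 r10_365 (nat_lit 0) (nat_lit 0) (nat_lit 0) (nat_lit 0x7d95a7e7ec) (nat_lit 1185610608),
  Rx.mk (nat_lit 375) (nat_lit 7) (nat_lit 6) (nat_lit 5) (nat_lit 7) (nat_lit 364) (nat_lit 364) r10_364 r10_364 (nat_lit 0) (nat_lit 0) (nat_lit 0) (nat_lit 0x7dc8fcd26a) (nat_lit 1087187400)]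
noncomputable def e30_29 : List Rx := [
  Rx.mk (nat_lit 35) (nat_lit 3) (nat_lit 4) (nat_lit 0) (nat_lit 1) (nat_lit 54) (nat_lit 227) r10_54 r5_227 (nat_lit 0) (nat_lit 0) (nat_lit 0) (nat_lit 0x75b5e9ebac) (nat_lit 5050586736),
  Rx.mk (nat_lit 51) (nat_lit 3) (nat_lit 6) (nat_lit 0) (nat_lit 3) (nat_lit 55) (nat_lit 229) r10_55 r5_229 (nat_lit 0) (nat_lit 0) (nat_lit 0) (nat_lit 0x7d9fc50610) (nat_lit 1166218560),
  Rx.mk (nat_lit 56) (nat_lit 0) (nat_lit 7) (nat_lit 0) (nat_lit 2) (nat_lit 53) (nat_lit 224) r10_53 r5_224 (nat_lit 0) (nat_lit 0) (nat_lit 0) (nat_lit 0x7b5c1d42d0) (nat_lit 2277647424),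
  Rx.mk (nat_lit 59) (nat_lit 3) (nat_lit 7) (nat_lit 0) (nat_lit 3) (nat_lit 56) (nat_lit 228) r10_56 r5_228 (nat_lit 0) (nat_lit 0) (nat_lit 0) (nat_lit 0x7e2b4d2d02) (nat_lit 898680744),
  Rx.mk (nat_lit 99) (nat_lit 3) (nat_lit 4) (nat_lit 1) (nat_lit 5) (nat_lit 58) (nat_lit 230) r10_58 r5_230 (nat_lit 0) (nat_lit 0) (nat_lit 0) (nat_lit 0x7de6df9420) (nat_lit 1029884544),
  Rx.mk (nat_lit 115) (nat_lit 3) (nat_lit 6) (nat_lit 1) (nat_lit 7) (nat_lit 59) (nat_lit 232) r10_59 r5_232 (nat_lit 0) (nat_lit 0) (nat_lit 0) (nat_lit 0x7df1199076) (nat_lit 1010276280),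
  Rx.mk (nat_lit 120) (nat_lit 0) (nat_lit 7) (nat_lit 1) (nat_lit 6) (nat_lit 57) (nat_lit 225) r10_57 r5_225 (nat_lit 0) (nat_lit 0) (nat_lit 0) (nat_lit 0x7d9ee59408) (nat_lit 1167892128),
  Rx.mk (nat_lit 123) (nat_lit 3) (nat_lit 7) (nat_lit 1) (nat_lit 7) (nat_lit 60) (nat_lit 231) r10_60 r5_231 (nat_lit 0) (nat_lit 0) (nat_lit 0) (nat_lit 0x7df675baae) (nat_lit 999999000),
  Rx.mk (nat_lit 163) (nat_lit 3) (nat_lit 4) (nat_lit 2) (nat_lit 5) (nat_lit 63) (nat_lit 235) r10_63 r5_235 (nat_lit 0) (nat_lit 0) (nat_lit 0) (nat_lit 0x7dd58429e8) (nat_lit 1063164960),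
  Rx.mk (nat_lit 184) (nat_lit 0) (nat_lit 7) (nat_lit 2) (nat_lit 6) (nat_lit 61) (nat_lit 226) r10_61 r5_226 (nat_lit 0) (nat_lit 0) (nat_lit 0) (nat_lit 0x7df4237fd4) (nat_lit 1004449680),
  Rx.mk (nat_lit 186) (nat_lit 2) (nat_lit 7) (nat_lit 2) (nat_lit 7) (nat_lit 62) (nat_lit 237) r10_62 r5_237 (nat_lit 0) (nat_lit 0) (nat_lit 0) (nat_lit 0x7df4675b96) (nat_lit 1003941432),
  Rx.mk (nat_lit 187) (nat_lit 3) (nat_lit 7) (nat_lit 2) (nat_lit 7) (nat_lit 64) (nat_lit 236) r10_64 r5_236 (nat_lit 0) (nat_lit 0) (nat_lit 0) (nat_lit 0x7ddaeb3372) (nat_lit 1052806248),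
  Rx.mk (nat_lit 227) (nat_lit 3) (nat_lit 4) (nat_lit 3) (nat_lit 5) (nat_lit 66) (nat_lit 233) r10_66 r5_233 (nat_lit 0) (nat_lit 0) (nat_lit 0) (nat_lit 0x7db1f38316) (nat_lit 1131357240),
  Rx.mk (nat_lit 243) (nat_lit 3) (nat_lit 6) (nat_lit 3) (nat_lit 7) (nat_lit 67) (nat_lit 234) r10_67 r5_234 (nat_lit 0) (nat_lit 0) (nat_lit 0) (nat_lit 0x7dc21520ec) (nat_lit 1100427120),
  Rx.mk (nat_lit 247) (nat_lit 7) (nat_lit 6) (nat_lit 3) (nat_lit 7) (nat_lit 65) (nat_lit 223) r10_65 r5_223 (nat_lit 0) (nat_lit 0) (nat_lit 0) (nat_lit 0x7eb9830916) (nat_lit 626007096)]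
noncomputable def e30_30 : List Rx := [
  Rx.mk (nat_lit 56) (nat_lit 0) (nat_lit 7) (nat_lit 0) (nat_lit 2) (nat_lit 154) (nat_lit 144) r10_154 r10_144 (nat_lit 0) (nat_lit 0) (nat_lit 0) (nat_lit 0x5b3d173352) (nat_lit 18044441064),
  Rx.mk (nat_lit 59) (nat_lit 3) (nat_lit 7) (nat_lit 0) (nat_lit 3) (nat_lit 155) (nat_lit 145) r10_155 r10_145 (nat_lit 0) (nat_lit 0) (nat_lit 0) (nat_lit 0x7a843d21aa) (nat_lit 2691566280),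
  Rx.mk (nat_lit 154) (nat_lit 2) (nat_lit 3) (nat_lit 2) (nat_lit 7) (nat_lit 158) (nat_lit 152) r10_158 r10_152 (nat_lit 0) (nat_lit 0) (nat_lit 0) (nat_lit 0x77e99d6e40) (nat_lit 3969748224),
  Rx.mk (nat_lit 184) (nat_lit 0) (nat_lit 7) (nat_lit 2) (nat_lit 6) (nat_lit 156) (nat_lit 150) r10_156 r10_150 (nat_lit 0) (nat_lit 0) (nat_lit 0) (nat_lit 0x7b7fa54a2c) (nat_lit 2209519728),
  Rx.mk (nat_lit 186) (nat_lit 2) (nat_lit 7) (nat_lit 2) (nat_lit 7) (nat_lit 157) (nat_lit 153) r10_157 r10_153 (nat_lit 0) (nat_lit 0) (nat_lit 0) (nat_lit 0x7d97b22746) (nat_lit 1181699064),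
  Rx.mk (nat_lit 187) (nat_lit 3) (nat_lit 7) (nat_lit 2) (nat_lit 7) (nat_lit 159) (nat_lit 151) r10_159 r10_151 (nat_lit 0) (nat_lit 0) (nat_lit 0) (nat_lit 0x7e01d184e6) (nat_lit 978220152),
  Rx.mk (nat_lit 227) (nat_lit 3) (nat_lit 4) (nat_lit 3) (nat_lit 5) (nat_lit 161) (nat_lit 146) r10_161 r10_146 (nat_lit 0) (nat_lit 0) (nat_lit 0) (nat_lit 0x78062ec50e) (nat_lit 3914972568),
  Rx.mk (nat_lit 243) (nat_lit 3) (nat_lit 6) (nat_lit 3) (nat_lit 7) (nat_lit 162) (nat_lit 148) r10_162 r10_148 (nat_lit 0) (nat_lit 0) (nat_lit 0) (nat_lit 0x7d31852a7c) (nat_lit 1377610416),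
  Rx.mk (nat_lit 247) (nat_lit 7) (nat_lit 6) (nat_lit 3) (nat_lit 7) (nat_lit 160) (nat_lit 149) r10_160 r10_149 (nat_lit 0) (nat_lit 0) (nat_lit 0) (nat_lit 0x7d4d14f164) (nat_lit 1324763856),
  Rx.mk (nat_lit 251) (nat_lit 3) (nat_lit 7) (nat_lit 3) (nat_lit 7) (nat_lit 163) (nat_lit 147) r10_163 r10_147 (nat_lit 0) (nat_lit 0) (nat_lit 0) (nat_lit 0x7d37d32596) (nat_lit 1365521976),
  Rx.mk (nat_lit 276) (nat_lit 4) (nat_lit 2) (nat_lit 4) (nat_lit 2) (nat_lit 144) (nat_lit 154) r10_144 r10_154 (nat_lit 0) (nat_lit 0) (nat_lit 0) (nat_lit 0x5b3d173352) (nat_lit 18044441064),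
  Rx.mk (nat_lit 278) (nat_lit 6) (nat_lit 2) (nat_lit 4) (nat_lit 3) (nat_lit 145) (nat_lit 155) r10_145 r10_155 (nat_lit 0) (nat_lit 0) (nat_lit 0) (nat_lit 0x7a843d21aa) (nat_lit 2691566280),
  Rx.mk (nat_lit 390) (nat_lit 6) (nat_lit 0) (nat_lit 6) (nat_lit 5) (nat_lit 146) (nat_lit 161) r10_146 r10_161 (nat_lit 0) (nat_lit 0) (nat_lit 0) (nat_lit 0x78062ec50e) (nat_lit 3914972568),
  Rx.mk (nat_lit 406) (nat_lit 6) (nat_lit 2) (nat_lit 6) (nat_lit 7) (nat_lit 147) (nat_lit 163) r10_147 r10_163 (nat_lit 0) (nat_lit 0) (nat_lit 0) (nat_lit 0x7d37d32596) (nat_lit 1365521976),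
  Rx.mk (nat_lit 410) (nat_lit 2) (nat_lit 3) (nat_lit 6) (nat_lit 7) (nat_lit 149) (nat_lit 160) r10_149 r10_160 (nat_lit 0) (nat_lit 0) (nat_lit 0) (nat_lit 0x7d4d14f164) (nat_lit 1324763856),
  Rx.mk (nat_lit 414) (nat_lit 6) (nat_lit 3) (nat_lit 6) (nat_lit 7) (nat_lit 148) (nat_lit 162) r10_148 r10_162 (nat_lit 0) (nat_lit 0) (nat_lit 0) (nat_lit 0x7d31852a7c) (nat_lit 1377610416),
  Rx.mk (nat_lit 468) (nat_lit 4) (nat_lit 2) (nat_lit 7) (nat_lit 6) (nat_lit 150) (nat_lit 156) r10_150 r10_156 (nat_lit 0) (nat_lit 0) (nat_lit 0) (nat_lit 0x7b7fa54a2c) (nat_lit 2209519728),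
  Rx.mk (nat_lit 470) (nat_lit 6) (nat_lit 2) (nat_lit 7) (nat_lit 7) (nat_lit 151) (nat_lit 159) r10_151 r10_159 (nat_lit 0) (nat_lit 0) (nat_lit 0) (nat_lit 0x7e01d184e6) (nat_lit 978220152),
  Rx.mk (nat_lit 471) (nat_lit 7) (nat_lit 2) (nat_lit 7) (nat_lit 7) (nat_lit 153) (nat_lit 157) r10_153 r10_157 (nat_lit 0) (nat_lit 0) (nat_lit 0) (nat_lit 0x7d97b22746) (nat_lit 1181699064),
  Rx.mk (nat_lit 503) (nat_lit 7) (nat_lit 6) (nat_lit 7) (nat_lit 7) (nat_lit 152) (nat_lit 158) r10_152 r10_158 (nat_lit 0) (nat_lit 0) (nat_lit 0) (nat_lit 0x77e99d6e40) (nat_lit 3969748224)]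
noncomputable def e30_31 : List Rx := [
  Rx.mk (nat_lit 35) (nat_lit 3) (nat_lit 4) (nat_lit 0) (nat_lit 1) (nat_lit 267) (nat_lit 367) r10_267 r5_367 (nat_lit 0) (nat_lit 0) (nat_lit 0) (nat_lit 0x79a5149512) (nat_lit 3119449320),
  Rx.mk (nat_lit 51) (nat_lit 3) (nat_lit 6) (nat_lit 0) (nat_lit 3) (nat_lit 268) (nat_lit 370) r10_268 r5_370 (nat_lit 0) (nat_lit 0) (nat_lit 0) (nat_lit 0x7e095e2c14) (nat_lit 963744912),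
  Rx.mk (nat_lit 55) (nat_lit 7) (nat_lit 6) (nat_lit 0) (nat_lit 3) (nat_lit 266) (nat_lit 371) r10_266 r5_371 (nat_lit 0) (nat_lit 0) (nat_lit 0) (nat_lit 0x7ed4e452e6) (nat_lit 573508728),
  Rx.mk (nat_lit 99) (nat_lit 3) (nat_lit 4) (nat_lit 1) (nat_lit 5) (nat_lit 270) (nat_lit 368) r10_270 r5_368 (nat_lit 0) (nat_lit 0) (nat_lit 0) (nat_lit 0x7e01da245c) (nat_lit 978155568),
  Rx.mk (nat_lit 115) (nat_lit 3) (nat_lit 6) (nat_lit 1) (nat_lit 7) (nat_lit 271) (nat_lit 372) r10_271 r5_372 (nat_lit 0) (nat_lit 0) (nat_lit 0) (nat_lit 0x7df4315ef6) (nat_lit 1004345784),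
  Rx.mk (nat_lit 119) (nat_lit 7) (nat_lit 6) (nat_lit 1) (nat_lit 7) (nat_lit 269) (nat_lit 373) r10_269 r5_373 (nat_lit 0) (nat_lit 0) (nat_lit 0) (nat_lit 0x7eb07799d6) (nat_lit 643349304),
  Rx.mk (nat_lit 163) (nat_lit 3) (nat_lit 4) (nat_lit 2) (nat_lit 5) (nat_lit 272) (nat_lit 369) r10_272 r5_369 (nat_lit 0) (nat_lit 0) (nat_lit 0) (nat_lit 0x7df2dd5438) (nat_lit 1006892640)]
noncomputable def e30_32 : List Rx := [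
  Rx.mk (nat_lit 35) (nat_lit 3) (nat_lit 4) (nat_lit 0) (nat_lit 1) (nat_lit 288) (nat_lit 277) r10_288 r11_277 (nat_lit 0) (nat_lit 0) (nat_lit 0) (nat_lit 0x73c76ed54c) (nat_lit 5998702320),
  Rx.mk (nat_lit 51) (nat_lit 3) (nat_lit 6) (nat_lit 0) (nat_lit 3) (nat_lit 289) (nat_lit 283) r10_289 r11_283 (nat_lit 0) (nat_lit 0) (nat_lit 0) (nat_lit 0x7d45698c22) (nat_lit 1339469352),
  Rx.mk (nat_lit 55) (nat_lit 7) (nat_lit 6) (nat_lit 0) (nat_lit 3) (nat_lit 287) (nat_lit 285) r10_287 r11_285 (nat_lit 0) (nat_lit 0) (nat_lit 0) (nat_lit 0x7eeaa716a4) (nat_lit 531784656),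
  Rx.mk (nat_lit 59) (nat_lit 3) (nat_lit 7) (nat_lit 0) (nat_lit 3) (nat_lit 290) (nat_lit 280) r10_290 r11_280 (nat_lit 0) (nat_lit 0) (nat_lit 0) (nat_lit 0x7e5f76aa36) (nat_lit 798665400),
  Rx.mk (nat_lit 99) (nat_lit 3) (nat_lit 4) (nat_lit 1) (nat_lit 5) (nat_lit 292) (nat_lit 278) r10_292 r11_278 (nat_lit 0) (nat_lit 0) (nat_lit 0) (nat_lit 0x7dd14ded50) (nat_lit 1071240768),
  Rx.mk (nat_lit 115) (nat_lit 3) (nat_lit 6) (nat_lit 1) (nat_lit 7) (nat_lit 293) (nat_lit 284) r10_293 r11_284 (nat_lit 0) (nat_lit 0) (nat_lit 0) (nat_lit 0x7df4f75296) (nat_lit 1002863160),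
  Rx.mk (nat_lit 119) (nat_lit 7) (nat_lit 6) (nat_lit 1) (nat_lit 7) (nat_lit 291) (nat_lit 286) r10_291 r11_286 (nat_lit 0) (nat_lit 0) (nat_lit 0) (nat_lit 0x7ed7099090) (nat_lit 569395008),
  Rx.mk (nat_lit 123) (nat_lit 3) (nat_lit 7) (nat_lit 1) (nat_lit 7) (nat_lit 294) (nat_lit 281) r10_294 r11_281 (nat_lit 0) (nat_lit 0) (nat_lit 0) (nat_lit 0x7df4cdb530) (nat_lit 1003174848),
  Rx.mk (nat_lit 163) (nat_lit 3) (nat_lit 4) (nat_lit 2) (nat_lit 5) (nat_lit 295) (nat_lit 279) r10_295 r11_279 (nat_lit 0) (nat_lit 0) (nat_lit 0) (nat_lit 0x7d8b3fce78) (nat_lit 1205564256),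
  Rx.mk (nat_lit 187) (nat_lit 3) (nat_lit 7) (nat_lit 2) (nat_lit 7) (nat_lit 296) (nat_lit 282) r10_296 r11_282 (nat_lit 0) (nat_lit 0) (nat_lit 0) (nat_lit 0x7def628be8) (nat_lit 1013564448),
  Rx.mk (nat_lit 247) (nat_lit 7) (nat_lit 6) (nat_lit 3) (nat_lit 7) (nat_lit 297) (nat_lit 287) r10_297 r11_287 (nat_lit 0) (nat_lit 0) (nat_lit 0) (nat_lit 0x7ed6cb5474) (nat_lit 569861136)]
noncomputable def e30_33 : List Rx := [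
  Rx.mk (nat_lit 40) (nat_lit 0) (nat_lit 5) (nat_lit 0) (nat_lit 2) (nat_lit 37) (nat_lit 200) r10_37 r0_200 (nat_lit 0) (nat_lit 0) (nat_lit 0) (nat_lit 0x76da66a2bc) (nat_lit 4489772976),
  Rx.mk (nat_lit 104) (nat_lit 0) (nat_lit 5) (nat_lit 1) (nat_lit 6) (nat_lit 38) (nat_lit 201) r10_38 r0_201 (nat_lit 0) (nat_lit 0) (nat_lit 0) (nat_lit 0x7e09e4c3aa) (nat_lit 962736840),
  Rx.mk (nat_lit 168) (nat_lit 0) (nat_lit 5) (nat_lit 2) (nat_lit 6) (nat_lit 39) (nat_lit 202) r10_39 r0_202 (nat_lit 0) (nat_lit 0) (nat_lit 0) (nat_lit 0x7e49f042b2) (nat_lit 839937384),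
  Rx.mk (nat_lit 170) (nat_lit 2) (nat_lit 5) (nat_lit 2) (nat_lit 7) (nat_lit 40) (nat_lit 203) r10_40 r0_203 (nat_lit 0) (nat_lit 0) (nat_lit 0) (nat_lit 0x7e9eee1280) (nat_lit 676975104)]
noncomputable def e30_34 : List Rx := [
  Rx.mk (nat_lit 32) (nat_lit 0) (nat_lit 4) (nat_lit 0) (nat_lit 0) (nat_lit 165) (nat_lit 341) r10_165 r0_341 (nat_lit 0) (nat_lit 0) (nat_lit 0) (nat_lit 0x2d7a01d26e) (nat_lit 40506896664),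
  Rx.mk (nat_lit 33) (nat_lit 1) (nat_lit 4) (nat_lit 0) (nat_lit 1) (nat_lit 168) (nat_lit 342) r10_168 r0_342 (nat_lit 0) (nat_lit 0) (nat_lit 0) (nat_lit 0x7aa5ac4a96) (nat_lit 2627459640),
  Rx.mk (nat_lit 40) (nat_lit 0) (nat_lit 5) (nat_lit 0) (nat_lit 2) (nat_lit 166) (nat_lit 348) r10_166 r0_348 (nat_lit 0) (nat_lit 0) (nat_lit 0) (nat_lit 0x7a5f28731a) (nat_lit 2762664840),
  Rx.mk (nat_lit 41) (nat_lit 1) (nat_lit 5) (nat_lit 0) (nat_lit 3) (nat_lit 169) (nat_lit 349) r10_169 r0_349 (nat_lit 0) (nat_lit 0) (nat_lit 0) (nat_lit 0x7dda7f3a32) (nat_lit 1053614952),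
  Rx.mk (nat_lit 48) (nat_lit 0) (nat_lit 6) (nat_lit 0) (nat_lit 2) (nat_lit 167) (nat_lit 355) r10_167 r0_355 (nat_lit 0) (nat_lit 0) (nat_lit 0) (nat_lit 0x7cc600e32c) (nat_lit 1583762544),
  Rx.mk (nat_lit 49) (nat_lit 1) (nat_lit 6) (nat_lit 0) (nat_lit 3) (nat_lit 170) (nat_lit 356) r10_170 r0_356 (nat_lit 0) (nat_lit 0) (nat_lit 0) (nat_lit 0x7df00ea126) (nat_lit 1012275576),
  Rx.mk (nat_lit 96) (nat_lit 0) (nat_lit 4) (nat_lit 1) (nat_lit 4) (nat_lit 171) (nat_lit 343) r10_171 r0_343 (nat_lit 0) (nat_lit 0) (nat_lit 0) (nat_lit 0x79a5a2ac30) (nat_lit 3118385088),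
  Rx.mk (nat_lit 97) (nat_lit 1) (nat_lit 4) (nat_lit 1) (nat_lit 5) (nat_lit 174) (nat_lit 344) r10_174 r0_344 (nat_lit 0) (nat_lit 0) (nat_lit 0) (nat_lit 0x7df905d1aa) (nat_lit 995085000),
  Rx.mk (nat_lit 104) (nat_lit 0) (nat_lit 5) (nat_lit 1) (nat_lit 6) (nat_lit 172) (nat_lit 350) r10_172 r0_350 (nat_lit 0) (nat_lit 0) (nat_lit 0) (nat_lit 0x7dd895f8c8) (nat_lit 1057279392),
  Rx.mk (nat_lit 105) (nat_lit 1) (nat_lit 5) (nat_lit 1) (nat_lit 7) (nat_lit 175) (nat_lit 351) r10_175 r0_351 (nat_lit 0) (nat_lit 0) (nat_lit 0) (nat_lit 0x7df9cda52c) (nat_lit 993588336),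
  Rx.mk (nat_lit 112) (nat_lit 0) (nat_lit 6) (nat_lit 1) (nat_lit 6) (nat_lit 173) (nat_lit 357) r10_173 r0_357 (nat_lit 0) (nat_lit 0) (nat_lit 0) (nat_lit 0x7e5a0a0106) (nat_lit 809066232),
  Rx.mk (nat_lit 113) (nat_lit 1) (nat_lit 6) (nat_lit 1) (nat_lit 7) (nat_lit 176) (nat_lit 358) r10_176 r0_358 (nat_lit 0) (nat_lit 0) (nat_lit 0) (nat_lit 0x7ea0391dce) (nat_lit 674495640),
  Rx.mk (nat_lit 160) (nat_lit 0) (nat_lit 4) (nat_lit 2) (nat_lit 4) (nat_lit 177) (nat_lit 345) r10_177 r0_345 (nat_lit 0) (nat_lit 0) (nat_lit 0) (nat_lit 0x7b95ea25c8) (nat_lit 2166821280),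
  Rx.mk (nat_lit 161) (nat_lit 1) (nat_lit 4) (nat_lit 2) (nat_lit 5) (nat_lit 179) (nat_lit 346) r10_179 r0_346 (nat_lit 0) (nat_lit 0) (nat_lit 0) (nat_lit 0x7deff222ee) (nat_lit 1012488984),
  Rx.mk (nat_lit 162) (nat_lit 2) (nat_lit 4) (nat_lit 2) (nat_lit 5) (nat_lit 181) (nat_lit 347) r10_181 r0_347 (nat_lit 0) (nat_lit 0) (nat_lit 0) (nat_lit 0x7dc039bea4) (nat_lit 1103987664),
  Rx.mk (nat_lit 168) (nat_lit 0) (nat_lit 5) (nat_lit 2) (nat_lit 6) (nat_lit 178) (nat_lit 352) r10_178 r0_352 (nat_lit 0) (nat_lit 0) (nat_lit 0) (nat_lit 0x7df5b266e4) (nat_lit 1001461968),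
  Rx.mk (nat_lit 169) (nat_lit 1) (nat_lit 5) (nat_lit 2) (nat_lit 7) (nat_lit 180) (nat_lit 353) r10_180 r0_353 (nat_lit 0) (nat_lit 0) (nat_lit 0) (nat_lit 0x7dee0dc136) (nat_lit 1016116920),
  Rx.mk (nat_lit 170) (nat_lit 2) (nat_lit 5) (nat_lit 2) (nat_lit 7) (nat_lit 182) (nat_lit 354) r10_182 r0_354 (nat_lit 0) (nat_lit 0) (nat_lit 0) (nat_lit 0x7df41fc010) (nat_lit 1004477760)]
noncomputable def e30_35 : List Rx := [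
  Rx.mk (nat_lit 40) (nat_lit 0) (nat_lit 5) (nat_lit 0) (nat_lit 2) (nat_lit 212) (nat_lit 263) r10_212 r6_263 (nat_lit 0) (nat_lit 0) (nat_lit 0) (nat_lit 0x776214075e) (nat_lit 4229625816),
  Rx.mk (nat_lit 41) (nat_lit 1) (nat_lit 5) (nat_lit 0) (nat_lit 3) (nat_lit 213) (nat_lit 266) r10_213 r6_266 (nat_lit 0) (nat_lit 0) (nat_lit 0) (nat_lit 0x7dbb30cf38) (nat_lit 1113641568),
  Rx.mk (nat_lit 104) (nat_lit 0) (nat_lit 5) (nat_lit 1) (nat_lit 6) (nat_lit 214) (nat_lit 264) r10_214 r6_264 (nat_lit 0) (nat_lit 0) (nat_lit 0) (nat_lit 0x7df79428c6) (nat_lit 997853688),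
  Rx.mk (nat_lit 105) (nat_lit 1) (nat_lit 5) (nat_lit 1) (nat_lit 7) (nat_lit 215) (nat_lit 267) r10_215 r6_267 (nat_lit 0) (nat_lit 0) (nat_lit 0) (nat_lit 0x7de4fa127a) (nat_lit 1033520904),
  Rx.mk (nat_lit 168) (nat_lit 0) (nat_lit 5) (nat_lit 2) (nat_lit 6) (nat_lit 216) (nat_lit 265) r10_216 r6_265 (nat_lit 0) (nat_lit 0) (nat_lit 0) (nat_lit 0x7dc96b0b86) (nat_lit 1086361848),
  Rx.mk (nat_lit 169) (nat_lit 1) (nat_lit 5) (nat_lit 2) (nat_lit 7) (nat_lit 217) (nat_lit 268) r10_217 r6_268 (nat_lit 0) (nat_lit 0) (nat_lit 0) (nat_lit 0x7dc83d9e5e) (nat_lit 1088619480),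
  Rx.mk (nat_lit 170) (nat_lit 2) (nat_lit 5) (nat_lit 2) (nat_lit 7) (nat_lit 218) (nat_lit 269) r10_218 r6_269 (nat_lit 0) (nat_lit 0) (nat_lit 0) (nat_lit 0x7def592c7e) (nat_lit 1013634648)]
noncomputable def e30_36 : List Rx := [
  Rx.mk (nat_lit 97) (nat_lit 1) (nat_lit 4) (nat_lit 1) (nat_lit 5) (nat_lit 340) (nat_lit 370) r10_340 r2_370 (nat_lit 0) (nat_lit 0) (nat_lit 0) (nat_lit 0x7da4f55306) (nat_lit 1156269816),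
  Rx.mk (nat_lit 105) (nat_lit 1) (nat_lit 5) (nat_lit 1) (nat_lit 7) (nat_lit 341) (nat_lit 371) r10_341 r2_371 (nat_lit 0) (nat_lit 0) (nat_lit 0) (nat_lit 0x7df51550b6) (nat_lit 1002638520),
  Rx.mk (nat_lit 113) (nat_lit 1) (nat_lit 6) (nat_lit 1) (nat_lit 7) (nat_lit 342) (nat_lit 372) r10_342 r2_372 (nat_lit 0) (nat_lit 0) (nat_lit 0) (nat_lit 0x7df79428c6) (nat_lit 997853688),
  Rx.mk (nat_lit 117) (nat_lit 5) (nat_lit 6) (nat_lit 1) (nat_lit 7) (nat_lit 339) (nat_lit 373) r10_339 r2_373 (nat_lit 0) (nat_lit 0) (nat_lit 0) (nat_lit 0x7dec0621b2) (nat_lit 1020008808)]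
noncomputable def e30_37 : List Rx := [
  Rx.mk (nat_lit 105) (nat_lit 1) (nat_lit 5) (nat_lit 1) (nat_lit 7) (nat_lit 350) (nat_lit 327) r10_350 r8_327 (nat_lit 0) (nat_lit 0) (nat_lit 0) (nat_lit 0x7ded710b02) (nat_lit 1017290664)]
noncomputable def e30_38 : List Rx := [
  Rx.mk (nat_lit 97) (nat_lit 1) (nat_lit 4) (nat_lit 1) (nat_lit 5) (nat_lit 347) (nat_lit 320) r10_347 r8_320 (nat_lit 0) (nat_lit 0) (nat_lit 0) (nat_lit 0x7d5d8ae9f4) (nat_lit 1293201936),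
  Rx.mk (nat_lit 105) (nat_lit 1) (nat_lit 5) (nat_lit 1) (nat_lit 7) (nat_lit 348) (nat_lit 321) r10_348 r8_321 (nat_lit 0) (nat_lit 0) (nat_lit 0) (nat_lit 0x7de98b6960) (nat_lit 1024762752),
  Rx.mk (nat_lit 113) (nat_lit 1) (nat_lit 6) (nat_lit 1) (nat_lit 7) (nat_lit 349) (nat_lit 323) r10_349 r8_323 (nat_lit 0) (nat_lit 0) (nat_lit 0) (nat_lit 0x7dd48359f6) (nat_lit 1065088440),
  Rx.mk (nat_lit 117) (nat_lit 5) (nat_lit 6) (nat_lit 1) (nat_lit 7) (nat_lit 346) (nat_lit 322) r10_346 r8_322 (nat_lit 0) (nat_lit 0) (nat_lit 0) (nat_lit 0x7ddf600c20) (nat_lit 1044261504),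
  Rx.mk (nat_lit 373) (nat_lit 5) (nat_lit 6) (nat_lit 5) (nat_lit 7) (nat_lit 345) (nat_lit 319) r10_345 r8_319 (nat_lit 0) (nat_lit 0) (nat_lit 0) (nat_lit 0x7de3095188) (nat_lit 1037241504)]
noncomputable def e30_39 : List Rx := [
  Rx.mk (nat_lit 33) (nat_lit 1) (nat_lit 4) (nat_lit 0) (nat_lit 1) (nat_lit 183) (nat_lit 315) r10_183 r1_315 (nat_lit 0) (nat_lit 0) (nat_lit 0) (nat_lit 0x707b7d37b2) (nat_lit 7616876904),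
  Rx.mk (nat_lit 41) (nat_lit 1) (nat_lit 5) (nat_lit 0) (nat_lit 3) (nat_lit 184) (nat_lit 318) r10_184 r1_318 (nat_lit 0) (nat_lit 0) (nat_lit 0) (nat_lit 0x7de8fc3254) (nat_lit 1025835408),
  Rx.mk (nat_lit 49) (nat_lit 1) (nat_lit 6) (nat_lit 0) (nat_lit 3) (nat_lit 185) (nat_lit 321) r10_185 r1_321 (nat_lit 0) (nat_lit 0) (nat_lit 0) (nat_lit 0x7df99bc84a) (nat_lit 993961800),
  Rx.mk (nat_lit 97) (nat_lit 1) (nat_lit 4) (nat_lit 1) (nat_lit 5) (nat_lit 186) (nat_lit 316) r10_186 r1_316 (nat_lit 0) (nat_lit 0) (nat_lit 0) (nat_lit 0x7ddf77aaa6) (nat_lit 1044084600),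
  Rx.mk (nat_lit 105) (nat_lit 1) (nat_lit 5) (nat_lit 1) (nat_lit 7) (nat_lit 187) (nat_lit 319) r10_187 r1_319 (nat_lit 0) (nat_lit 0) (nat_lit 0) (nat_lit 0x7df4ff3218) (nat_lit 1002804192),
  Rx.mk (nat_lit 113) (nat_lit 1) (nat_lit 6) (nat_lit 1) (nat_lit 7) (nat_lit 188) (nat_lit 322) r10_188 r1_322 (nat_lit 0) (nat_lit 0) (nat_lit 0) (nat_lit 0x7e5868bb1c) (nat_lit 812191536),
  Rx.mk (nat_lit 161) (nat_lit 1) (nat_lit 4) (nat_lit 2) (nat_lit 5) (nat_lit 189) (nat_lit 317) r10_189 r1_317 (nat_lit 0) (nat_lit 0) (nat_lit 0) (nat_lit 0x7de538ae90) (nat_lit 1033051968),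
  Rx.mk (nat_lit 169) (nat_lit 1) (nat_lit 5) (nat_lit 2) (nat_lit 7) (nat_lit 190) (nat_lit 320) r10_190 r1_320 (nat_lit 0) (nat_lit 0) (nat_lit 0) (nat_lit 0x7df62c9f40) (nat_lit 1000546560)]
noncomputable def e30_40 : List Rx := [
  Rx.mk (nat_lit 41) (nat_lit 1) (nat_lit 5) (nat_lit 0) (nat_lit 3) (nat_lit 219) (nat_lit 198) r10_219 r7_198 (nat_lit 0) (nat_lit 0) (nat_lit 0) (nat_lit 0x7df20f8116) (nat_lit 1008434232),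
  Rx.mk (nat_lit 105) (nat_lit 1) (nat_lit 5) (nat_lit 1) (nat_lit 7) (nat_lit 220) (nat_lit 199) r10_220 r7_199 (nat_lit 0) (nat_lit 0) (nat_lit 0) (nat_lit 0x7de83d5e42) (nat_lit 1027264680),
  Rx.mk (nat_lit 169) (nat_lit 1) (nat_lit 5) (nat_lit 2) (nat_lit 7) (nat_lit 221) (nat_lit 200) r10_221 r7_200 (nat_lit 0) (nat_lit 0) (nat_lit 0) (nat_lit 0x7deb8469ce) (nat_lit 1020980376)]
noncomputable def e30_41 : List Rx := [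
  Rx.mk (nat_lit 40) (nat_lit 0) (nat_lit 5) (nat_lit 0) (nat_lit 2) (nat_lit 41) (nat_lit 220) r10_41 r1_220 (nat_lit 0) (nat_lit 0) (nat_lit 0) (nat_lit 0x6745aa3e18) (nat_lit 12137759712),
  Rx.mk (nat_lit 104) (nat_lit 0) (nat_lit 5) (nat_lit 1) (nat_lit 6) (nat_lit 42) (nat_lit 221) r10_42 r1_221 (nat_lit 0) (nat_lit 0) (nat_lit 0) (nat_lit 0x7dd2d19514) (nat_lit 1068337296),
  Rx.mk (nat_lit 138) (nat_lit 2) (nat_lit 1) (nat_lit 2) (nat_lit 7) (nat_lit 45) (nat_lit 224) r10_45 r1_224 (nat_lit 0) (nat_lit 0) (nat_lit 0) (nat_lit 0x7de11ef030) (nat_lit 1040914368),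
  Rx.mk (nat_lit 168) (nat_lit 0) (nat_lit 5) (nat_lit 2) (nat_lit 6) (nat_lit 43) (nat_lit 222) r10_43 r1_222 (nat_lit 0) (nat_lit 0) (nat_lit 0) (nat_lit 0x7dc1f662d8) (nat_lit 1100657376),
  Rx.mk (nat_lit 170) (nat_lit 2) (nat_lit 5) (nat_lit 2) (nat_lit 7) (nat_lit 44) (nat_lit 223) r10_44 r1_223 (nat_lit 0) (nat_lit 0) (nat_lit 0) (nat_lit 0x7e5b3e8dbc) (nat_lit 806755248)]
noncomputable def e30_42 : List Rx := [
  Rx.mk (nat_lit 138) (nat_lit 2) (nat_lit 1) (nat_lit 2) (nat_lit 7) (nat_lit 5) (nat_lit 237) r10_5 r2_237 (nat_lit 0) (nat_lit 0) (nat_lit 0) (nat_lit 0x7dd3702b2a) (nat_lit 1067149512)]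
noncomputable def e30_43 : List Rx := [
  Rx.mk (nat_lit 40) (nat_lit 0) (nat_lit 5) (nat_lit 0) (nat_lit 2) (nat_lit 222) (nat_lit 368) r10_222 r7_368 (nat_lit 0) (nat_lit 0) (nat_lit 0) (nat_lit 0x6dd2a647ca) (nat_lit 8922316104),
  Rx.mk (nat_lit 41) (nat_lit 1) (nat_lit 5) (nat_lit 0) (nat_lit 3) (nat_lit 223) (nat_lit 369) r10_223 r7_369 (nat_lit 0) (nat_lit 0) (nat_lit 0) (nat_lit 0x7dce8599d8) (nat_lit 1076575968),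
  Rx.mk (nat_lit 104) (nat_lit 0) (nat_lit 5) (nat_lit 1) (nat_lit 6) (nat_lit 224) (nat_lit 370) r10_224 r7_370 (nat_lit 0) (nat_lit 0) (nat_lit 0) (nat_lit 0x7dd5e543d6) (nat_lit 1062437688),
  Rx.mk (nat_lit 105) (nat_lit 1) (nat_lit 5) (nat_lit 1) (nat_lit 7) (nat_lit 225) (nat_lit 371) r10_225 r7_371 (nat_lit 0) (nat_lit 0) (nat_lit 0) (nat_lit 0x7df118d082) (nat_lit 1010281896),
  Rx.mk (nat_lit 138) (nat_lit 2) (nat_lit 1) (nat_lit 2) (nat_lit 7) (nat_lit 229) (nat_lit 367) r10_229 r7_367 (nat_lit 0) (nat_lit 0) (nat_lit 0) (nat_lit 0x7ddf1c9058) (nat_lit 1044766944),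
  Rx.mk (nat_lit 168) (nat_lit 0) (nat_lit 5) (nat_lit 2) (nat_lit 6) (nat_lit 226) (nat_lit 372) r10_226 r7_372 (nat_lit 0) (nat_lit 0) (nat_lit 0) (nat_lit 0x7d483d1ee6) (nat_lit 1334049912),
  Rx.mk (nat_lit 169) (nat_lit 1) (nat_lit 5) (nat_lit 2) (nat_lit 7) (nat_lit 227) (nat_lit 373) r10_227 r7_373 (nat_lit 0) (nat_lit 0) (nat_lit 0) (nat_lit 0x7df32a2f6a) (nat_lit 1006317000),
  Rx.mk (nat_lit 170) (nat_lit 2) (nat_lit 5) (nat_lit 2) (nat_lit 7) (nat_lit 228) (nat_lit 374) r10_228 r7_374 (nat_lit 0) (nat_lit 0) (nat_lit 0) (nat_lit 0x7de7266fb2) (nat_lit 1029353832)]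
noncomputable def e30_44 : List Rx := [
  Rx.mk (nat_lit 138) (nat_lit 2) (nat_lit 1) (nat_lit 2) (nat_lit 7) (nat_lit 164) (nat_lit 214) r10_164 r8_214 (nat_lit 0) (nat_lit 0) (nat_lit 0) (nat_lit 0x7df2523cea) (nat_lit 1007934408)]
noncomputable def e30_45 : List Rx := [
  Rx.mk (nat_lit 138) (nat_lit 2) (nat_lit 1) (nat_lit 2) (nat_lit 7) (nat_lit 124) (nat_lit 146) r10_124 r8_146 (nat_lit 0) (nat_lit 0) (nat_lit 0) (nat_lit 0x7df79428c6) (nat_lit 997853688),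
  Rx.mk (nat_lit 394) (nat_lit 2) (nat_lit 1) (nat_lit 6) (nat_lit 7) (nat_lit 123) (nat_lit 147) r10_123 r8_147 (nat_lit 0) (nat_lit 0) (nat_lit 0) (nat_lit 0x7df5dba450) (nat_lit 1001153088)]
noncomputable def e30_46 : List Rx := [
  Rx.mk (nat_lit 40) (nat_lit 0) (nat_lit 5) (nat_lit 0) (nat_lit 2) (nat_lit 46) (nat_lit 188) r10_46 r4_188 (nat_lit 0) (nat_lit 0) (nat_lit 0) (nat_lit 0x7d74889a02) (nat_lit 1249119144),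
  Rx.mk (nat_lit 43) (nat_lit 3) (nat_lit 5) (nat_lit 0) (nat_lit 3) (nat_lit 47) (nat_lit 191) r10_47 r4_191 (nat_lit 0) (nat_lit 0) (nat_lit 0) (nat_lit 0x7e25a6c76e) (nat_lit 909514008),
  Rx.mk (nat_lit 104) (nat_lit 0) (nat_lit 5) (nat_lit 1) (nat_lit 6) (nat_lit 48) (nat_lit 189) r10_48 r4_189 (nat_lit 0) (nat_lit 0) (nat_lit 0) (nat_lit 0x7de345adc2) (nat_lit 1036789416),
  Rx.mk (nat_lit 107) (nat_lit 3) (nat_lit 5) (nat_lit 1) (nat_lit 7) (nat_lit 49) (nat_lit 192) r10_49 r4_192 (nat_lit 0) (nat_lit 0) (nat_lit 0) (nat_lit 0x7df971caea) (nat_lit 994276296),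
  Rx.mk (nat_lit 168) (nat_lit 0) (nat_lit 5) (nat_lit 2) (nat_lit 6) (nat_lit 50) (nat_lit 190) r10_50 r4_190 (nat_lit 0) (nat_lit 0) (nat_lit 0) (nat_lit 0x7df171aaf4) (nat_lit 1009616400),
  Rx.mk (nat_lit 170) (nat_lit 2) (nat_lit 5) (nat_lit 2) (nat_lit 7) (nat_lit 51) (nat_lit 194) r10_51 r4_194 (nat_lit 0) (nat_lit 0) (nat_lit 0) (nat_lit 0x7e002a9f56) (nat_lit 981387576),
  Rx.mk (nat_lit 171) (nat_lit 3) (nat_lit 5) (nat_lit 2) (nat_lit 7) (nat_lit 52) (nat_lit 193) r10_52 r4_193 (nat_lit 0) (nat_lit 0) (nat_lit 0) (nat_lit 0x7df8e77390) (nat_lit 995312448)]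
noncomputable def e30_47 : List Rx := [
  Rx.mk (nat_lit 32) (nat_lit 0) (nat_lit 4) (nat_lit 0) (nat_lit 0) (nat_lit 191) (nat_lit 381) r10_191 r4_381 (nat_lit 0) (nat_lit 0) (nat_lit 0) (nat_lit 0x38e6b45bd8) (nat_lit 34899093216),
  Rx.mk (nat_lit 33) (nat_lit 1) (nat_lit 4) (nat_lit 0) (nat_lit 1) (nat_lit 194) (nat_lit 382) r10_194 r4_382 (nat_lit 0) (nat_lit 0) (nat_lit 0) (nat_lit 0x7d28250088) (nat_lit 1395587232),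
  Rx.mk (nat_lit 35) (nat_lit 3) (nat_lit 4) (nat_lit 0) (nat_lit 1) (nat_lit 196) (nat_lit 383) r10_196 r4_383 (nat_lit 0) (nat_lit 0) (nat_lit 0) (nat_lit 0x7d70d954fa) (nat_lit 1256184072),
  Rx.mk (nat_lit 40) (nat_lit 0) (nat_lit 5) (nat_lit 0) (nat_lit 2) (nat_lit 192) (nat_lit 390) r10_192 r4_390 (nat_lit 0) (nat_lit 0) (nat_lit 0) (nat_lit 0x7c966bbcae) (nat_lit 1674997272),
  Rx.mk (nat_lit 43) (nat_lit 3) (nat_lit 5) (nat_lit 0) (nat_lit 3) (nat_lit 197) (nat_lit 391) r10_197 r4_391 (nat_lit 0) (nat_lit 0) (nat_lit 0) (nat_lit 0x7de4ce9532) (nat_lit 1033846632),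
  Rx.mk (nat_lit 48) (nat_lit 0) (nat_lit 6) (nat_lit 0) (nat_lit 2) (nat_lit 193) (nat_lit 396) r10_193 r4_396 (nat_lit 0) (nat_lit 0) (nat_lit 0) (nat_lit 0x7ccea598d8) (nat_lit 1567189728),
  Rx.mk (nat_lit 49) (nat_lit 1) (nat_lit 6) (nat_lit 0) (nat_lit 3) (nat_lit 195) (nat_lit 397) r10_195 r4_397 (nat_lit 0) (nat_lit 0) (nat_lit 0) (nat_lit 0x7de473dade) (nat_lit 1034526168),
  Rx.mk (nat_lit 51) (nat_lit 3) (nat_lit 6) (nat_lit 0) (nat_lit 3) (nat_lit 198) (nat_lit 398) r10_198 r4_398 (nat_lit 0) (nat_lit 0) (nat_lit 0) (nat_lit 0x7dcd522d10) (nat_lit 1078878528),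
  Rx.mk (nat_lit 96) (nat_lit 0) (nat_lit 4) (nat_lit 1) (nat_lit 4) (nat_lit 199) (nat_lit 384) r10_199 r4_384 (nat_lit 0) (nat_lit 0) (nat_lit 0) (nat_lit 0x7ba0e835dc) (nat_lit 2145744432),
  Rx.mk (nat_lit 97) (nat_lit 1) (nat_lit 4) (nat_lit 1) (nat_lit 5) (nat_lit 202) (nat_lit 385) r10_202 r4_385 (nat_lit 0) (nat_lit 0) (nat_lit 0) (nat_lit 0x7dce487daa) (nat_lit 1077033672),
  Rx.mk (nat_lit 99) (nat_lit 3) (nat_lit 4) (nat_lit 1) (nat_lit 5) (nat_lit 204) (nat_lit 386) r10_204 r4_386 (nat_lit 0) (nat_lit 0) (nat_lit 0) (nat_lit 0x7df210a104) (nat_lit 1008425808),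
  Rx.mk (nat_lit 104) (nat_lit 0) (nat_lit 5) (nat_lit 1) (nat_lit 6) (nat_lit 200) (nat_lit 392) r10_200 r4_392 (nat_lit 0) (nat_lit 0) (nat_lit 0) (nat_lit 0x7ded13b0d8) (nat_lit 1017989856),
  Rx.mk (nat_lit 107) (nat_lit 3) (nat_lit 5) (nat_lit 1) (nat_lit 7) (nat_lit 205) (nat_lit 393) r10_205 r4_393 (nat_lit 0) (nat_lit 0) (nat_lit 0) (nat_lit 0x7df01c204e) (nat_lit 1012174488),
  Rx.mk (nat_lit 112) (nat_lit 0) (nat_lit 6) (nat_lit 1) (nat_lit 6) (nat_lit 201) (nat_lit 399) r10_201 r4_399 (nat_lit 0) (nat_lit 0) (nat_lit 0) (nat_lit 0x7dd7e563d2) (nat_lit 1058601960),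
  Rx.mk (nat_lit 113) (nat_lit 1) (nat_lit 6) (nat_lit 1) (nat_lit 7) (nat_lit 203) (nat_lit 400) r10_203 r4_400 (nat_lit 0) (nat_lit 0) (nat_lit 0) (nat_lit 0x7df3488d84) (nat_lit 1006089552),
  Rx.mk (nat_lit 115) (nat_lit 3) (nat_lit 6) (nat_lit 1) (nat_lit 7) (nat_lit 206) (nat_lit 401) r10_206 r4_401 (nat_lit 0) (nat_lit 0) (nat_lit 0) (nat_lit 0x7df70fd10c) (nat_lit 998844912),
  Rx.mk (nat_lit 160) (nat_lit 0) (nat_lit 4) (nat_lit 2) (nat_lit 4) (nat_lit 207) (nat_lit 387) r10_207 r4_387 (nat_lit 0) (nat_lit 0) (nat_lit 0) (nat_lit 0x7c3386eb5e) (nat_lit 1864615896),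
  Rx.mk (nat_lit 161) (nat_lit 1) (nat_lit 4) (nat_lit 2) (nat_lit 5) (nat_lit 209) (nat_lit 388) r10_209 r4_388 (nat_lit 0) (nat_lit 0) (nat_lit 0) (nat_lit 0x7dcf0cf162) (nat_lit 1075562280),
  Rx.mk (nat_lit 162) (nat_lit 2) (nat_lit 4) (nat_lit 2) (nat_lit 5) (nat_lit 210) (nat_lit 389) r10_210 r4_389 (nat_lit 0) (nat_lit 0) (nat_lit 0) (nat_lit 0x7df1be8626) (nat_lit 1009040760),
  Rx.mk (nat_lit 168) (nat_lit 0) (nat_lit 5) (nat_lit 2) (nat_lit 6) (nat_lit 208) (nat_lit 394) r10_208 r4_394 (nat_lit 0) (nat_lit 0) (nat_lit 0) (nat_lit 0x7de439be80) (nat_lit 1034961408),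
  Rx.mk (nat_lit 170) (nat_lit 2) (nat_lit 5) (nat_lit 2) (nat_lit 7) (nat_lit 211) (nat_lit 395) r10_211 r4_395 (nat_lit 0) (nat_lit 0) (nat_lit 0) (nat_lit 0x7df5724ae6) (nat_lit 1001942136)]
noncomputable def e30_48 : List Rx := [
  Rx.mk (nat_lit 40) (nat_lit 0) (nat_lit 5) (nat_lit 0) (nat_lit 2) (nat_lit 230) (nat_lit 206) r10_230 r9_206 (nat_lit 0) (nat_lit 0) (nat_lit 0) (nat_lit 0x7db50971b4) (nat_lit 1125440784),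
  Rx.mk (nat_lit 43) (nat_lit 3) (nat_lit 5) (nat_lit 0) (nat_lit 3) (nat_lit 231) (nat_lit 209) r10_231 r9_209 (nat_lit 0) (nat_lit 0) (nat_lit 0) (nat_lit 0x7def382e8e) (nat_lit 1013881752),
  Rx.mk (nat_lit 104) (nat_lit 0) (nat_lit 5) (nat_lit 1) (nat_lit 6) (nat_lit 232) (nat_lit 207) r10_232 r9_207 (nat_lit 0) (nat_lit 0) (nat_lit 0) (nat_lit 0x7defa427ce) (nat_lit 1013073048),
  Rx.mk (nat_lit 107) (nat_lit 3) (nat_lit 5) (nat_lit 1) (nat_lit 7) (nat_lit 233) (nat_lit 210) r10_233 r9_210 (nat_lit 0) (nat_lit 0) (nat_lit 0) (nat_lit 0x7df680f9fa) (nat_lit 999914760),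
  Rx.mk (nat_lit 168) (nat_lit 0) (nat_lit 5) (nat_lit 2) (nat_lit 6) (nat_lit 234) (nat_lit 208) r10_234 r9_208 (nat_lit 0) (nat_lit 0) (nat_lit 0) (nat_lit 0x7de652fcea) (nat_lit 1030937544),
  Rx.mk (nat_lit 170) (nat_lit 2) (nat_lit 5) (nat_lit 2) (nat_lit 7) (nat_lit 235) (nat_lit 211) r10_235 r9_211 (nat_lit 0) (nat_lit 0) (nat_lit 0) (nat_lit 0x7deffe8228) (nat_lit 1012396320)]
noncomputable def e30_49 : List Rx := [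
  Rx.mk (nat_lit 32) (nat_lit 0) (nat_lit 4) (nat_lit 0) (nat_lit 0) (nat_lit 236) (nat_lit 236) r10_236 r10_236 (nat_lit 0) (nat_lit 0) (nat_lit 0) (nat_lit 0x540d4a5750) (nat_lit 21572066880),
  Rx.mk (nat_lit 33) (nat_lit 1) (nat_lit 4) (nat_lit 0) (nat_lit 1) (nat_lit 240) (nat_lit 246) r10_240 r10_246 (nat_lit 0) (nat_lit 0) (nat_lit 0) (nat_lit 0x7da3588cd4) (nat_lit 1159361424),
  Rx.mk (nat_lit 35) (nat_lit 3) (nat_lit 4) (nat_lit 0) (nat_lit 1) (nat_lit 243) (nat_lit 254) r10_243 r10_254 (nat_lit 0) (nat_lit 0) (nat_lit 0) (nat_lit 0x7d57554d54) (nat_lit 1305107856),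
  Rx.mk (nat_lit 40) (nat_lit 0) (nat_lit 5) (nat_lit 0) (nat_lit 2) (nat_lit 237) (nat_lit 237) r10_237 r10_237 (nat_lit 0) (nat_lit 0) (nat_lit 0) (nat_lit 0x7de7980898) (nat_lit 1028503008),
  Rx.mk (nat_lit 43) (nat_lit 3) (nat_lit 5) (nat_lit 0) (nat_lit 3) (nat_lit 244) (nat_lit 255) r10_244 r10_255 (nat_lit 0) (nat_lit 0) (nat_lit 0) (nat_lit 0x7df6641bc8) (nat_lit 1000130976),
  Rx.mk (nat_lit 48) (nat_lit 0) (nat_lit 6) (nat_lit 0) (nat_lit 2) (nat_lit 238) (nat_lit 239) r10_238 r10_239 (nat_lit 0) (nat_lit 0) (nat_lit 0) (nat_lit 0x7dbee7f3c2) (nat_lit 1106517672),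
  Rx.mk (nat_lit 49) (nat_lit 1) (nat_lit 6) (nat_lit 0) (nat_lit 3) (nat_lit 241) (nat_lit 248) r10_241 r10_248 (nat_lit 0) (nat_lit 0) (nat_lit 0) (nat_lit 0x7df1b106fe) (nat_lit 1009141848),
  Rx.mk (nat_lit 51) (nat_lit 3) (nat_lit 6) (nat_lit 0) (nat_lit 3) (nat_lit 245) (nat_lit 256) r10_245 r10_256 (nat_lit 0) (nat_lit 0) (nat_lit 0) (nat_lit 0x7dd66edb3c) (nat_lit 1061407152),
  Rx.mk (nat_lit 56) (nat_lit 0) (nat_lit 7) (nat_lit 0) (nat_lit 2) (nat_lit 239) (nat_lit 238) r10_239 r10_238 (nat_lit 0) (nat_lit 0) (nat_lit 0) (nat_lit 0x7dbee7f3c2) (nat_lit 1106517672),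
  Rx.mk (nat_lit 57) (nat_lit 1) (nat_lit 7) (nat_lit 0) (nat_lit 3) (nat_lit 242) (nat_lit 247) r10_242 r10_247 (nat_lit 0) (nat_lit 0) (nat_lit 0) (nat_lit 0x7de958cc8a) (nat_lit 1025141832),
  Rx.mk (nat_lit 96) (nat_lit 0) (nat_lit 4) (nat_lit 1) (nat_lit 4) (nat_lit 246) (nat_lit 240) r10_246 r10_240 (nat_lit 0) (nat_lit 0) (nat_lit 0) (nat_lit 0x7da3588cd4) (nat_lit 1159361424),
  Rx.mk (nat_lit 97) (nat_lit 1) (nat_lit 4) (nat_lit 1) (nat_lit 5) (nat_lit 249) (nat_lit 249) r10_249 r10_249 (nat_lit 0) (nat_lit 0) (nat_lit 0) (nat_lit 0x7df2331edc) (nat_lit 1008167472),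
  Rx.mk (nat_lit 99) (nat_lit 3) (nat_lit 4) (nat_lit 1) (nat_lit 5) (nat_lit 252) (nat_lit 257) r10_252 r10_257 (nat_lit 0) (nat_lit 0) (nat_lit 0) (nat_lit 0x7ddd346edc) (nat_lit 1048422960),
  Rx.mk (nat_lit 112) (nat_lit 0) (nat_lit 6) (nat_lit 1) (nat_lit 6) (nat_lit 247) (nat_lit 242) r10_247 r10_242 (nat_lit 0) (nat_lit 0) (nat_lit 0) (nat_lit 0x7de958cc8a) (nat_lit 1025141832),
  Rx.mk (nat_lit 113) (nat_lit 1) (nat_lit 6) (nat_lit 1) (nat_lit 7) (nat_lit 250) (nat_lit 251) r10_250 r10_251 (nat_lit 0) (nat_lit 0) (nat_lit 0) (nat_lit 0x7defa487c8) (nat_lit 1013070240),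
  Rx.mk (nat_lit 115) (nat_lit 3) (nat_lit 6) (nat_lit 1) (nat_lit 7) (nat_lit 253) (nat_lit 258) r10_253 r10_258 (nat_lit 0) (nat_lit 0) (nat_lit 0) (nat_lit 0x7df79428c6) (nat_lit 997853688),
  Rx.mk (nat_lit 120) (nat_lit 0) (nat_lit 7) (nat_lit 1) (nat_lit 6) (nat_lit 248) (nat_lit 241) r10_248 r10_241 (nat_lit 0) (nat_lit 0) (nat_lit 0) (nat_lit 0x7df1b106fe) (nat_lit 1009141848),
  Rx.mk (nat_lit 121) (nat_lit 1) (nat_lit 7) (nat_lit 1) (nat_lit 7) (nat_lit 251) (nat_lit 250) r10_251 r10_250 (nat_lit 0) (nat_lit 0) (nat_lit 0) (nat_lit 0x7defa487c8) (nat_lit 1013070240),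
  Rx.mk (nat_lit 160) (nat_lit 0) (nat_lit 4) (nat_lit 2) (nat_lit 4) (nat_lit 254) (nat_lit 243) r10_254 r10_243 (nat_lit 0) (nat_lit 0) (nat_lit 0) (nat_lit 0x7d57554d54) (nat_lit 1305107856),
  Rx.mk (nat_lit 161) (nat_lit 1) (nat_lit 4) (nat_lit 2) (nat_lit 5) (nat_lit 257) (nat_lit 252) r10_257 r10_252 (nat_lit 0) (nat_lit 0) (nat_lit 0) (nat_lit 0x7ddd346edc) (nat_lit 1048422960),
  Rx.mk (nat_lit 162) (nat_lit 2) (nat_lit 4) (nat_lit 2) (nat_lit 5) (nat_lit 259) (nat_lit 262) r10_259 r10_262 (nat_lit 0) (nat_lit 0) (nat_lit 0) (nat_lit 0x7df1402e0c) (nat_lit 1009987056),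
  Rx.mk (nat_lit 168) (nat_lit 0) (nat_lit 5) (nat_lit 2) (nat_lit 6) (nat_lit 255) (nat_lit 244) r10_255 r10_244 (nat_lit 0) (nat_lit 0) (nat_lit 0) (nat_lit 0x7df6641bc8) (nat_lit 1000130976),
  Rx.mk (nat_lit 170) (nat_lit 2) (nat_lit 5) (nat_lit 2) (nat_lit 7) (nat_lit 260) (nat_lit 263) r10_260 r10_263 (nat_lit 0) (nat_lit 0) (nat_lit 0) (nat_lit 0x7df1978896) (nat_lit 1009332792),
  Rx.mk (nat_lit 184) (nat_lit 0) (nat_lit 7) (nat_lit 2) (nat_lit 6) (nat_lit 256) (nat_lit 245) r10_256 r10_245 (nat_lit 0) (nat_lit 0) (nat_lit 0) (nat_lit 0x7dd66edb3c) (nat_lit 1061407152),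
  Rx.mk (nat_lit 185) (nat_lit 1) (nat_lit 7) (nat_lit 2) (nat_lit 7) (nat_lit 258) (nat_lit 253) r10_258 r10_253 (nat_lit 0) (nat_lit 0) (nat_lit 0) (nat_lit 0x7df79428c6) (nat_lit 997853688),
  Rx.mk (nat_lit 186) (nat_lit 2) (nat_lit 7) (nat_lit 2) (nat_lit 7) (nat_lit 261) (nat_lit 264) r10_261 r10_264 (nat_lit 0) (nat_lit 0) (nat_lit 0) (nat_lit 0x7de80a0178) (nat_lit 1027649376),
  Rx.mk (nat_lit 227) (nat_lit 3) (nat_lit 4) (nat_lit 3) (nat_lit 5) (nat_lit 262) (nat_lit 259) r10_262 r10_259 (nat_lit 0) (nat_lit 0) (nat_lit 0) (nat_lit 0x7df1402e0c) (nat_lit 1009987056),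
  Rx.mk (nat_lit 235) (nat_lit 3) (nat_lit 5) (nat_lit 3) (nat_lit 7) (nat_lit 263) (nat_lit 260) r10_263 r10_260 (nat_lit 0) (nat_lit 0) (nat_lit 0) (nat_lit 0x7df1978896) (nat_lit 1009332792),
  Rx.mk (nat_lit 243) (nat_lit 3) (nat_lit 6) (nat_lit 3) (nat_lit 7) (nat_lit 264) (nat_lit 261) r10_264 r10_261 (nat_lit 0) (nat_lit 0) (nat_lit 0) (nat_lit 0x7de80a0178) (nat_lit 1027649376)]
noncomputable def e30_50 : List Rx := [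
  Rx.mk (nat_lit 43) (nat_lit 3) (nat_lit 5) (nat_lit 0) (nat_lit 3) (nat_lit 281) (nat_lit 368) r10_281 r10_368 (nat_lit 0) (nat_lit 0) (nat_lit 0) (nat_lit 0x7df1570c9e) (nat_lit 1009815768),
  Rx.mk (nat_lit 107) (nat_lit 3) (nat_lit 5) (nat_lit 1) (nat_lit 7) (nat_lit 282) (nat_lit 369) r10_282 r10_369 (nat_lit 0) (nat_lit 0) (nat_lit 0) (nat_lit 0x7df79428c6) (nat_lit 997853688),
  Rx.mk (nat_lit 171) (nat_lit 3) (nat_lit 5) (nat_lit 2) (nat_lit 7) (nat_lit 283) (nat_lit 370) r10_283 r10_370 (nat_lit 0) (nat_lit 0) (nat_lit 0) (nat_lit 0x7df441ddee) (nat_lit 1004222232)]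
noncomputable def e30_51 : List Rx := [
  Rx.mk (nat_lit 116) (nat_lit 4) (nat_lit 6) (nat_lit 1) (nat_lit 6) (nat_lit 366) (nat_lit 240) r10_366 r12_240 (nat_lit 0) (nat_lit 0) (nat_lit 0) (nat_lit 0x7e373cadfe) (nat_lit 875795544),
  Rx.mk (nat_lit 119) (nat_lit 7) (nat_lit 6) (nat_lit 1) (nat_lit 7) (nat_lit 367) (nat_lit 241) r10_367 r12_241 (nat_lit 0) (nat_lit 0) (nat_lit 0) (nat_lit 0x7ee6adf63a) (nat_lit 539402760)]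
noncomputable def e30_52 : List Rx := [
  Rx.mk (nat_lit 247) (nat_lit 7) (nat_lit 6) (nat_lit 3) (nat_lit 7) (nat_lit 265) (nat_lit 230) r10_265 r12_230 (nat_lit 0) (nat_lit 0) (nat_lit 0) (nat_lit 0x7ee7b225f6) (nat_lit 537454008)]
noncomputable def e30_53 : List Rx := [
  Rx.mk (nat_lit 119) (nat_lit 7) (nat_lit 6) (nat_lit 1) (nat_lit 7) (nat_lit 356) (nat_lit 309) r10_356 r12_309 (nat_lit 0) (nat_lit 0) (nat_lit 0) (nat_lit 0x7f0597e77c) (nat_lit 480128688)]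
noncomputable def e30_54 : List Rx := [
  Rx.mk (nat_lit 56) (nat_lit 0) (nat_lit 7) (nat_lit 0) (nat_lit 2) (nat_lit 9) (nat_lit 140) r10_9 r12_140 (nat_lit 0) (nat_lit 0) (nat_lit 0) (nat_lit 0x73e77d9440) (nat_lit 5937235200),
  Rx.mk (nat_lit 59) (nat_lit 3) (nat_lit 7) (nat_lit 0) (nat_lit 3) (nat_lit 10) (nat_lit 141) r10_10 r12_141 (nat_lit 0) (nat_lit 0) (nat_lit 0) (nat_lit 0x7eaac05550) (nat_lit 654308928),
  Rx.mk (nat_lit 154) (nat_lit 2) (nat_lit 3) (nat_lit 2) (nat_lit 7) (nat_lit 13) (nat_lit 148) r10_13 r12_148 (nat_lit 0) (nat_lit 0) (nat_lit 0) (nat_lit 0x7e96423d46) (nat_lit 693601272),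
  Rx.mk (nat_lit 184) (nat_lit 0) (nat_lit 7) (nat_lit 2) (nat_lit 6) (nat_lit 11) (nat_lit 146) r10_11 r12_146 (nat_lit 0) (nat_lit 0) (nat_lit 0) (nat_lit 0x7e9f0970ca) (nat_lit 676770120),
  Rx.mk (nat_lit 186) (nat_lit 2) (nat_lit 7) (nat_lit 2) (nat_lit 7) (nat_lit 12) (nat_lit 149) r10_12 r12_149 (nat_lit 0) (nat_lit 0) (nat_lit 0) (nat_lit 0x7e3496186a) (nat_lit 880878024),
  Rx.mk (nat_lit 187) (nat_lit 3) (nat_lit 7) (nat_lit 2) (nat_lit 7) (nat_lit 14) (nat_lit 147) r10_14 r12_147 (nat_lit 0) (nat_lit 0) (nat_lit 0) (nat_lit 0x7ec4817924) (nat_lit 604927440),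
  Rx.mk (nat_lit 227) (nat_lit 3) (nat_lit 4) (nat_lit 3) (nat_lit 5) (nat_lit 16) (nat_lit 142) r10_16 r12_142 (nat_lit 0) (nat_lit 0) (nat_lit 0) (nat_lit 0x7d98a2d83a) (nat_lit 1179896328),
  Rx.mk (nat_lit 243) (nat_lit 3) (nat_lit 6) (nat_lit 3) (nat_lit 7) (nat_lit 17) (nat_lit 144) r10_17 r12_144 (nat_lit 0) (nat_lit 0) (nat_lit 0) (nat_lit 0x7e4ff8222e) (nat_lit 828374040),
  Rx.mk (nat_lit 247) (nat_lit 7) (nat_lit 6) (nat_lit 3) (nat_lit 7) (nat_lit 15) (nat_lit 145) r10_15 r12_145 (nat_lit 0) (nat_lit 0) (nat_lit 0) (nat_lit 0x7eaff8e1c2) (nat_lit 644298408),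
  Rx.mk (nat_lit 251) (nat_lit 3) (nat_lit 7) (nat_lit 3) (nat_lit 7) (nat_lit 18) (nat_lit 143) r10_18 r12_143 (nat_lit 0) (nat_lit 0) (nat_lit 0) (nat_lit 0x7e4d46ad48) (nat_lit 833537952)]
noncomputable def e30_55 : List Rx := [
  Rx.mk (nat_lit 32) (nat_lit 0) (nat_lit 4) (nat_lit 0) (nat_lit 0) (nat_lit 19) (nat_lit 183) r10_19 r3_183 (nat_lit 0) (nat_lit 0) (nat_lit 0) (nat_lit 0x611f400ae2) (nat_lit 15156536616),
  Rx.mk (nat_lit 35) (nat_lit 3) (nat_lit 4) (nat_lit 0) (nat_lit 1) (nat_lit 22) (nat_lit 191) r10_22 r3_191 (nat_lit 0) (nat_lit 0) (nat_lit 0) (nat_lit 0x7199b2b33c) (nat_lit 7068101040),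
  Rx.mk (nat_lit 40) (nat_lit 0) (nat_lit 5) (nat_lit 0) (nat_lit 2) (nat_lit 20) (nat_lit 184) r10_20 r3_184 (nat_lit 0) (nat_lit 0) (nat_lit 0) (nat_lit 0x6c7064ad46) (nat_lit 9601565688),
  Rx.mk (nat_lit 43) (nat_lit 3) (nat_lit 5) (nat_lit 0) (nat_lit 3) (nat_lit 23) (nat_lit 192) r10_23 r3_192 (nat_lit 0) (nat_lit 0) (nat_lit 0) (nat_lit 0x7bee1be254) (nat_lit 1997717904),
  Rx.mk (nat_lit 48) (nat_lit 0) (nat_lit 6) (nat_lit 0) (nat_lit 2) (nat_lit 21) (nat_lit 185) r10_21 r3_185 (nat_lit 0) (nat_lit 0) (nat_lit 0) (nat_lit 0x6df68609aa) (nat_lit 8853531336),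
  Rx.mk (nat_lit 51) (nat_lit 3) (nat_lit 6) (nat_lit 0) (nat_lit 3) (nat_lit 24) (nat_lit 193) r10_24 r3_193 (nat_lit 0) (nat_lit 0) (nat_lit 0) (nat_lit 0x7846764056) (nat_lit 3791723832),
  Rx.mk (nat_lit 96) (nat_lit 0) (nat_lit 4) (nat_lit 1) (nat_lit 4) (nat_lit 25) (nat_lit 186) r10_25 r3_186 (nat_lit 0) (nat_lit 0) (nat_lit 0) (nat_lit 0x6c0e76ec84) (nat_lit 9789333840),
  Rx.mk (nat_lit 99) (nat_lit 3) (nat_lit 4) (nat_lit 1) (nat_lit 5) (nat_lit 28) (nat_lit 194) r10_28 r3_194 (nat_lit 0) (nat_lit 0) (nat_lit 0) (nat_lit 0x7db4419e32) (nat_lit 1126937448),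
  Rx.mk (nat_lit 104) (nat_lit 0) (nat_lit 5) (nat_lit 1) (nat_lit 6) (nat_lit 26) (nat_lit 187) r10_26 r3_187 (nat_lit 0) (nat_lit 0) (nat_lit 0) (nat_lit 0x7c9d740c22) (nat_lit 1661513256),
  Rx.mk (nat_lit 107) (nat_lit 3) (nat_lit 5) (nat_lit 1) (nat_lit 7) (nat_lit 29) (nat_lit 195) r10_29 r3_195 (nat_lit 0) (nat_lit 0) (nat_lit 0) (nat_lit 0x7e26fad22c) (nat_lit 906967152),
  Rx.mk (nat_lit 112) (nat_lit 0) (nat_lit 6) (nat_lit 1) (nat_lit 6) (nat_lit 27) (nat_lit 188) r10_27 r3_188 (nat_lit 0) (nat_lit 0) (nat_lit 0) (nat_lit 0x7aec04a4ca) (nat_lit 2492580168),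
  Rx.mk (nat_lit 115) (nat_lit 3) (nat_lit 6) (nat_lit 1) (nat_lit 7) (nat_lit 30) (nat_lit 196) r10_30 r3_196 (nat_lit 0) (nat_lit 0) (nat_lit 0) (nat_lit 0x7e1c68bb58) (nat_lit 927235296),
  Rx.mk (nat_lit 160) (nat_lit 0) (nat_lit 4) (nat_lit 2) (nat_lit 4) (nat_lit 31) (nat_lit 189) r10_31 r3_189 (nat_lit 0) (nat_lit 0) (nat_lit 0) (nat_lit 0x6e8b4ffc76) (nat_lit 8568244152),
  Rx.mk (nat_lit 162) (nat_lit 2) (nat_lit 4) (nat_lit 2) (nat_lit 5) (nat_lit 33) (nat_lit 199) r10_33 r3_199 (nat_lit 0) (nat_lit 0) (nat_lit 0) (nat_lit 0x7e061120e8) (nat_lit 970074144),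
  Rx.mk (nat_lit 163) (nat_lit 3) (nat_lit 4) (nat_lit 2) (nat_lit 5) (nat_lit 35) (nat_lit 197) r10_35 r3_197 (nat_lit 0) (nat_lit 0) (nat_lit 0) (nat_lit 0x7ba330b152) (nat_lit 2141366760),
  Rx.mk (nat_lit 168) (nat_lit 0) (nat_lit 5) (nat_lit 2) (nat_lit 6) (nat_lit 32) (nat_lit 190) r10_32 r3_190 (nat_lit 0) (nat_lit 0) (nat_lit 0) (nat_lit 0x7822d6fa6e) (nat_lit 3860025624),
  Rx.mk (nat_lit 170) (nat_lit 2) (nat_lit 5) (nat_lit 2) (nat_lit 7) (nat_lit 34) (nat_lit 200) r10_34 r3_200 (nat_lit 0) (nat_lit 0) (nat_lit 0) (nat_lit 0x7dec2adf66) (nat_lit 1019733624),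
  Rx.mk (nat_lit 171) (nat_lit 3) (nat_lit 5) (nat_lit 2) (nat_lit 7) (nat_lit 36) (nat_lit 198) r10_36 r3_198 (nat_lit 0) (nat_lit 0) (nat_lit 0) (nat_lit 0x7e079ac84c) (nat_lit 967125744)]
noncomputable def e30_56 : List Rx := [
  Rx.mk (nat_lit 32) (nat_lit 0) (nat_lit 4) (nat_lit 0) (nat_lit 0) (nat_lit 68) (nat_lit 202) r10_68 r12_202 (nat_lit 0) (nat_lit 0) (nat_lit 0) (nat_lit 0x4f8256cb14) (nat_lit 23801905296),
  Rx.mk (nat_lit 35) (nat_lit 3) (nat_lit 4) (nat_lit 0) (nat_lit 1) (nat_lit 72) (nat_lit 212) r10_72 r12_212 (nat_lit 0) (nat_lit 0) (nat_lit 0) (nat_lit 0x6f899876f0) (nat_lit 8080682688),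
  Rx.mk (nat_lit 40) (nat_lit 0) (nat_lit 5) (nat_lit 0) (nat_lit 2) (nat_lit 69) (nat_lit 203) r10_69 r12_203 (nat_lit 0) (nat_lit 0) (nat_lit 0) (nat_lit 0x77191ff6e8) (nat_lit 4369506336),
  Rx.mk (nat_lit 43) (nat_lit 3) (nat_lit 5) (nat_lit 0) (nat_lit 3) (nat_lit 73) (nat_lit 213) r10_73 r12_213 (nat_lit 0) (nat_lit 0) (nat_lit 0) (nat_lit 0x7dc0395eaa) (nat_lit 1103990472),
  Rx.mk (nat_lit 48) (nat_lit 0) (nat_lit 6) (nat_lit 0) (nat_lit 2) (nat_lit 70) (nat_lit 205) r10_70 r12_205 (nat_lit 0) (nat_lit 0) (nat_lit 0) (nat_lit 0x749a460706) (nat_lit 5594437368),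
  Rx.mk (nat_lit 51) (nat_lit 3) (nat_lit 6) (nat_lit 0) (nat_lit 3) (nat_lit 74) (nat_lit 214) r10_74 r12_214 (nat_lit 0) (nat_lit 0) (nat_lit 0) (nat_lit 0x7df140ee00) (nat_lit 1009981440),
  Rx.mk (nat_lit 56) (nat_lit 0) (nat_lit 7) (nat_lit 0) (nat_lit 2) (nat_lit 71) (nat_lit 204) r10_71 r12_204 (nat_lit 0) (nat_lit 0) (nat_lit 0) (nat_lit 0x71d4c381f4) (nat_lit 6954848784),
  Rx.mk (nat_lit 96) (nat_lit 0) (nat_lit 4) (nat_lit 1) (nat_lit 4) (nat_lit 75) (nat_lit 206) r10_75 r12_206 (nat_lit 0) (nat_lit 0) (nat_lit 0) (nat_lit 0x762668e34c) (nat_lit 4834887408),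
  Rx.mk (nat_lit 99) (nat_lit 3) (nat_lit 4) (nat_lit 1) (nat_lit 5) (nat_lit 78) (nat_lit 215) r10_78 r12_215 (nat_lit 0) (nat_lit 0) (nat_lit 0) (nat_lit 0x7e21a6277c) (nat_lit 917188272),
  Rx.mk (nat_lit 112) (nat_lit 0) (nat_lit 6) (nat_lit 1) (nat_lit 6) (nat_lit 76) (nat_lit 208) r10_76 r12_208 (nat_lit 0) (nat_lit 0) (nat_lit 0) (nat_lit 0x7df4fc9242) (nat_lit 1002823848),
  Rx.mk (nat_lit 115) (nat_lit 3) (nat_lit 6) (nat_lit 1) (nat_lit 7) (nat_lit 79) (nat_lit 216) r10_79 r12_216 (nat_lit 0) (nat_lit 0) (nat_lit 0) (nat_lit 0x7df9596c70) (nat_lit 994458816),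
  Rx.mk (nat_lit 120) (nat_lit 0) (nat_lit 7) (nat_lit 1) (nat_lit 6) (nat_lit 77) (nat_lit 207) r10_77 r12_207 (nat_lit 0) (nat_lit 0) (nat_lit 0) (nat_lit 0x7de5630bea) (nat_lit 1032734664),
  Rx.mk (nat_lit 160) (nat_lit 0) (nat_lit 4) (nat_lit 2) (nat_lit 4) (nat_lit 80) (nat_lit 209) r10_80 r12_209 (nat_lit 0) (nat_lit 0) (nat_lit 0) (nat_lit 0x76d6a79eb0) (nat_lit 4496955840),
  Rx.mk (nat_lit 162) (nat_lit 2) (nat_lit 4) (nat_lit 2) (nat_lit 5) (nat_lit 83) (nat_lit 222) r10_83 r12_222 (nat_lit 0) (nat_lit 0) (nat_lit 0) (nat_lit 0x7d8a287fee) (nat_lit 1207656216),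
  Rx.mk (nat_lit 163) (nat_lit 3) (nat_lit 4) (nat_lit 2) (nat_lit 5) (nat_lit 86) (nat_lit 220) r10_86 r12_220 (nat_lit 0) (nat_lit 0) (nat_lit 0) (nat_lit 0x7e1455dc8e) (nat_lit 942715800),
  Rx.mk (nat_lit 168) (nat_lit 0) (nat_lit 5) (nat_lit 2) (nat_lit 6) (nat_lit 81) (nat_lit 210) r10_81 r12_210 (nat_lit 0) (nat_lit 0) (nat_lit 0) (nat_lit 0x7dd00b217e) (nat_lit 1073658456),
  Rx.mk (nat_lit 170) (nat_lit 2) (nat_lit 5) (nat_lit 2) (nat_lit 7) (nat_lit 84) (nat_lit 223) r10_84 r12_223 (nat_lit 0) (nat_lit 0) (nat_lit 0) (nat_lit 0x7ddcad774c) (nat_lit 1049433840),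
  Rx.mk (nat_lit 171) (nat_lit 3) (nat_lit 5) (nat_lit 2) (nat_lit 7) (nat_lit 87) (nat_lit 221) r10_87 r12_221 (nat_lit 0) (nat_lit 0) (nat_lit 0) (nat_lit 0x7df712d0dc) (nat_lit 998822448),
  Rx.mk (nat_lit 184) (nat_lit 0) (nat_lit 7) (nat_lit 2) (nat_lit 6) (nat_lit 82) (nat_lit 211) r10_82 r12_211 (nat_lit 0) (nat_lit 0) (nat_lit 0) (nat_lit 0x7dc3830a0c) (nat_lit 1097686512),
  Rx.mk (nat_lit 186) (nat_lit 2) (nat_lit 7) (nat_lit 2) (nat_lit 7) (nat_lit 85) (nat_lit 224) r10_85 r12_224 (nat_lit 0) (nat_lit 0) (nat_lit 0) (nat_lit 0x7ddf540ce0) (nat_lit 1044351360),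
  Rx.mk (nat_lit 227) (nat_lit 3) (nat_lit 4) (nat_lit 3) (nat_lit 5) (nat_lit 88) (nat_lit 217) r10_88 r12_217 (nat_lit 0) (nat_lit 0) (nat_lit 0) (nat_lit 0x7d77f5e32a) (nat_lit 1242548424),
  Rx.mk (nat_lit 235) (nat_lit 3) (nat_lit 5) (nat_lit 3) (nat_lit 7) (nat_lit 89) (nat_lit 218) r10_89 r12_218 (nat_lit 0) (nat_lit 0) (nat_lit 0) (nat_lit 0x7df35c0c4c) (nat_lit 1005943536),
  Rx.mk (nat_lit 243) (nat_lit 3) (nat_lit 6) (nat_lit 3) (nat_lit 7) (nat_lit 90) (nat_lit 219) r10_90 r12_219 (nat_lit 0) (nat_lit 0) (nat_lit 0) (nat_lit 0x7df79428c6) (nat_lit 997853688)]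
noncomputable def e30_57 : List Rx := [
  Rx.mk (nat_lit 35) (nat_lit 3) (nat_lit 4) (nat_lit 0) (nat_lit 1) (nat_lit 273) (nat_lit 315) r10_273 r12_315 (nat_lit 0) (nat_lit 0) (nat_lit 0) (nat_lit 0x771b6bd228) (nat_lit 4365103392),
  Rx.mk (nat_lit 43) (nat_lit 3) (nat_lit 5) (nat_lit 0) (nat_lit 3) (nat_lit 274) (nat_lit 318) r10_274 r12_318 (nat_lit 0) (nat_lit 0) (nat_lit 0) (nat_lit 0x7d6315f13e) (nat_lit 1282573656),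
  Rx.mk (nat_lit 51) (nat_lit 3) (nat_lit 6) (nat_lit 0) (nat_lit 3) (nat_lit 275) (nat_lit 321) r10_275 r12_321 (nat_lit 0) (nat_lit 0) (nat_lit 0) (nat_lit 0x7dd6261fc8) (nat_lit 1061951904),
  Rx.mk (nat_lit 99) (nat_lit 3) (nat_lit 4) (nat_lit 1) (nat_lit 5) (nat_lit 276) (nat_lit 316) r10_276 r12_316 (nat_lit 0) (nat_lit 0) (nat_lit 0) (nat_lit 0x7d971a50c4) (nat_lit 1182836304),
  Rx.mk (nat_lit 107) (nat_lit 3) (nat_lit 5) (nat_lit 1) (nat_lit 7) (nat_lit 277) (nat_lit 319) r10_277 r12_319 (nat_lit 0) (nat_lit 0) (nat_lit 0) (nat_lit 0x7e00b1f6e0) (nat_lit 980373888),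
  Rx.mk (nat_lit 115) (nat_lit 3) (nat_lit 6) (nat_lit 1) (nat_lit 7) (nat_lit 278) (nat_lit 322) r10_278 r12_322 (nat_lit 0) (nat_lit 0) (nat_lit 0) (nat_lit 0x7ddda307f2) (nat_lit 1047594600),
  Rx.mk (nat_lit 163) (nat_lit 3) (nat_lit 4) (nat_lit 2) (nat_lit 5) (nat_lit 279) (nat_lit 317) r10_279 r12_317 (nat_lit 0) (nat_lit 0) (nat_lit 0) (nat_lit 0x7dea0ba15c) (nat_lit 1023802416),
  Rx.mk (nat_lit 171) (nat_lit 3) (nat_lit 5) (nat_lit 2) (nat_lit 7) (nat_lit 280) (nat_lit 320) r10_280 r12_320 (nat_lit 0) (nat_lit 0) (nat_lit 0) (nat_lit 0x7de5e7c39e) (nat_lit 1031740632)]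
noncomputable def e30 : List (List Rx) := [e30_0, e30_1, e30_2, e30_3, e30_4, e30_5, e30_6, e30_7, e30_8, e30_9, e30_10, e30_11, e30_12, e30_13, e30_14, e30_15, e30_16, e30_17, e30_18, e30_19, e30_20, e30_21, e30_22, e30_23, e30_24, e30_25, e30_26, e30_27, e30_28, e30_29, e30_30, e30_31, e30_32, e30_33, e30_34, e30_35, e30_36, e30_37, e30_38, e30_39, e30_40, e30_41, e30_42, e30_43, e30_44, e30_45, e30_46, e30_47, e30_48, e30_49, e30_50, e30_51, e30_52, e30_53, e30_54, e30_55, e30_56, e30_57]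
noncomputable def e31_0 : List Rx := [
  Rx.mk (nat_lit 6) (nat_lit 6) (nat_lit 0) (nat_lit 0) (nat_lit 1) (nat_lit 171) (nat_lit 232) r5_171 r0_232 (nat_lit 0) (nat_lit 0) (nat_lit 0) (nat_lit 0x75597c52e2) (nat_lit 5227808040),
  Rx.mk (nat_lit 20) (nat_lit 4) (nat_lit 2) (nat_lit 0) (nat_lit 2) (nat_lit 173) (nat_lit 228) r5_173 r0_228 (nat_lit 0) (nat_lit 0) (nat_lit 0) (nat_lit 0x746fc68f28) (nat_lit 5675922720),
  Rx.mk (nat_lit 22) (nat_lit 6) (nat_lit 2) (nat_lit 0) (nat_lit 3) (nat_lit 174) (nat_lit 234) r5_174 r0_234 (nat_lit 0) (nat_lit 0) (nat_lit 0) (nat_lit 0x7ee77f2926) (nat_lit 537835896),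
  Rx.mk (nat_lit 70) (nat_lit 6) (nat_lit 0) (nat_lit 1) (nat_lit 5) (nat_lit 172) (nat_lit 233) r5_172 r0_233 (nat_lit 0) (nat_lit 0) (nat_lit 0) (nat_lit 0x7fa8fdf078) (nat_lit 166828896),
  Rx.mk (nat_lit 84) (nat_lit 4) (nat_lit 2) (nat_lit 1) (nat_lit 6) (nat_lit 175) (nat_lit 229) r5_175 r0_229 (nat_lit 0) (nat_lit 0) (nat_lit 0) (nat_lit 0x7f864e9b90) (nat_lit 233333568),
  Rx.mk (nat_lit 86) (nat_lit 6) (nat_lit 2) (nat_lit 1) (nat_lit 7) (nat_lit 176) (nat_lit 235) r5_176 r0_235 (nat_lit 0) (nat_lit 0) (nat_lit 0) (nat_lit 0x7f62ec71d6) (nat_lit 301177656),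
  Rx.mk (nat_lit 148) (nat_lit 4) (nat_lit 2) (nat_lit 2) (nat_lit 6) (nat_lit 177) (nat_lit 230) r5_177 r0_230 (nat_lit 0) (nat_lit 0) (nat_lit 0) (nat_lit 0x7d3f0c91f8) (nat_lit 1351670112),
  Rx.mk (nat_lit 180) (nat_lit 4) (nat_lit 6) (nat_lit 2) (nat_lit 6) (nat_lit 170) (nat_lit 231) r5_170 r0_231 (nat_lit 0) (nat_lit 0) (nat_lit 0) (nat_lit 0x7b678c2bd6) (nat_lit 2255725368)]
noncomputable def e31_1 : List Rx := [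
  Rx.mk (nat_lit 70) (nat_lit 6) (nat_lit 0) (nat_lit 1) (nat_lit 5) (nat_lit 178) (nat_lit 247) r5_178 r1_247 (nat_lit 0) (nat_lit 0) (nat_lit 0) (nat_lit 0x7f624a1bfc) (nat_lit 302393520),
  Rx.mk (nat_lit 84) (nat_lit 4) (nat_lit 2) (nat_lit 1) (nat_lit 6) (nat_lit 179) (nat_lit 246) r5_179 r1_246 (nat_lit 0) (nat_lit 0) (nat_lit 0) (nat_lit 0x7f6760ea8a) (nat_lit 292635720),
  Rx.mk (nat_lit 86) (nat_lit 6) (nat_lit 2) (nat_lit 1) (nat_lit 7) (nat_lit 180) (nat_lit 248) r5_180 r1_248 (nat_lit 0) (nat_lit 0) (nat_lit 0) (nat_lit 0x7e75103088) (nat_lit 757250208)]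
noncomputable def e31_2 : List Rx := [
  Rx.mk (nat_lit 70) (nat_lit 6) (nat_lit 0) (nat_lit 1) (nat_lit 5) (nat_lit 307) (nat_lit 269) r5_307 r2_269 (nat_lit 0) (nat_lit 0) (nat_lit 0) (nat_lit 0x7d5005c254) (nat_lit 1319125392),
  Rx.mk (nat_lit 84) (nat_lit 4) (nat_lit 2) (nat_lit 1) (nat_lit 6) (nat_lit 308) (nat_lit 268) r5_308 r2_268 (nat_lit 0) (nat_lit 0) (nat_lit 0) (nat_lit 0x7d47970948) (nat_lit 1335293856),
  Rx.mk (nat_lit 86) (nat_lit 6) (nat_lit 2) (nat_lit 1) (nat_lit 7) (nat_lit 309) (nat_lit 271) r5_309 r2_271 (nat_lit 0) (nat_lit 0) (nat_lit 0) (nat_lit 0x7de4629bf2) (nat_lit 1034655336),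
  Rx.mk (nat_lit 326) (nat_lit 6) (nat_lit 0) (nat_lit 5) (nat_lit 5) (nat_lit 306) (nat_lit 270) r5_306 r2_270 (nat_lit 0) (nat_lit 0) (nat_lit 0) (nat_lit 0x7d0b86ea86) (nat_lit 1450458360)]
noncomputable def e31_3 : List Rx := [
  Rx.mk (nat_lit 20) (nat_lit 4) (nat_lit 2) (nat_lit 0) (nat_lit 2) (nat_lit 44) (nat_lit 222) r5_44 r3_222 (nat_lit 0) (nat_lit 0) (nat_lit 0) (nat_lit 0x7ffa96b69a) (nat_lit 10375560),
  Rx.mk (nat_lit 22) (nat_lit 6) (nat_lit 2) (nat_lit 0) (nat_lit 3) (nat_lit 45) (nat_lit 228) r5_45 r3_228 (nat_lit 0) (nat_lit 0) (nat_lit 0) (nat_lit 0x78c2869ed4) (nat_lit 3553844112),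
  Rx.mk (nat_lit 148) (nat_lit 4) (nat_lit 2) (nat_lit 2) (nat_lit 6) (nat_lit 46) (nat_lit 224) r5_46 r3_224 (nat_lit 0) (nat_lit 0) (nat_lit 0) (nat_lit 0x783b195630) (nat_lit 3813511104),
  Rx.mk (nat_lit 180) (nat_lit 4) (nat_lit 6) (nat_lit 2) (nat_lit 6) (nat_lit 41) (nat_lit 225) r5_41 r3_225 (nat_lit 0) (nat_lit 0) (nat_lit 0) (nat_lit 0x770d966f8c) (nat_lit 4391627760),
  Rx.mk (nat_lit 183) (nat_lit 7) (nat_lit 6) (nat_lit 2) (nat_lit 7) (nat_lit 42) (nat_lit 226) r5_42 r3_226 (nat_lit 0) (nat_lit 0) (nat_lit 0) (nat_lit 0x7f3a4a3c22) (nat_lit 379088424),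
  Rx.mk (nat_lit 198) (nat_lit 6) (nat_lit 0) (nat_lit 3) (nat_lit 5) (nat_lit 43) (nat_lit 227) r5_43 r3_227 (nat_lit 0) (nat_lit 0) (nat_lit 0) (nat_lit 0x7ec8641af6) (nat_lit 597477816),
  Rx.mk (nat_lit 212) (nat_lit 4) (nat_lit 2) (nat_lit 3) (nat_lit 6) (nat_lit 47) (nat_lit 223) r5_47 r3_223 (nat_lit 0) (nat_lit 0) (nat_lit 0) (nat_lit 0x7ea6edd27c) (nat_lit 661637808),
  Rx.mk (nat_lit 214) (nat_lit 6) (nat_lit 2) (nat_lit 3) (nat_lit 7) (nat_lit 48) (nat_lit 229) r5_48 r3_229 (nat_lit 0) (nat_lit 0) (nat_lit 0) (nat_lit 0x7f51b98516) (nat_lit 334154808)]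
noncomputable def e31_4 : List Rx := [
  Rx.mk (nat_lit 6) (nat_lit 6) (nat_lit 0) (nat_lit 0) (nat_lit 1) (nat_lit 183) (nat_lit 235) r5_183 r4_235 (nat_lit 0) (nat_lit 0) (nat_lit 0) (nat_lit 0x729cb2c238) (nat_lit 6571495008),
  Rx.mk (nat_lit 20) (nat_lit 4) (nat_lit 2) (nat_lit 0) (nat_lit 2) (nat_lit 186) (nat_lit 229) r5_186 r4_229 (nat_lit 0) (nat_lit 0) (nat_lit 0) (nat_lit 0x71fe96849a) (nat_lit 6874655112),
  Rx.mk (nat_lit 22) (nat_lit 6) (nat_lit 2) (nat_lit 0) (nat_lit 3) (nat_lit 187) (nat_lit 238) r5_187 r4_238 (nat_lit 0) (nat_lit 0) (nat_lit 0) (nat_lit 0x7e7092b864) (nat_lit 765859536),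
  Rx.mk (nat_lit 70) (nat_lit 6) (nat_lit 0) (nat_lit 1) (nat_lit 5) (nat_lit 184) (nat_lit 236) r5_184 r4_236 (nat_lit 0) (nat_lit 0) (nat_lit 0) (nat_lit 0x7d7961ec68) (nat_lit 1239821856),
  Rx.mk (nat_lit 84) (nat_lit 4) (nat_lit 2) (nat_lit 1) (nat_lit 6) (nat_lit 188) (nat_lit 230) r5_188 r4_230 (nat_lit 0) (nat_lit 0) (nat_lit 0) (nat_lit 0x7e314decf0) (nat_lit 887170752),
  Rx.mk (nat_lit 86) (nat_lit 6) (nat_lit 2) (nat_lit 1) (nat_lit 7) (nat_lit 189) (nat_lit 239) r5_189 r4_239 (nat_lit 0) (nat_lit 0) (nat_lit 0) (nat_lit 0x7e3b0f90cc) (nat_lit 868463856),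
  Rx.mk (nat_lit 148) (nat_lit 4) (nat_lit 2) (nat_lit 2) (nat_lit 6) (nat_lit 190) (nat_lit 232) r5_190 r4_232 (nat_lit 0) (nat_lit 0) (nat_lit 0) (nat_lit 0x7d90cfb574) (nat_lit 1194899472),
  Rx.mk (nat_lit 180) (nat_lit 4) (nat_lit 6) (nat_lit 2) (nat_lit 6) (nat_lit 181) (nat_lit 233) r5_181 r4_233 (nat_lit 0) (nat_lit 0) (nat_lit 0) (nat_lit 0x7e5fadc6c4) (nat_lit 798252624),
  Rx.mk (nat_lit 183) (nat_lit 7) (nat_lit 6) (nat_lit 2) (nat_lit 7) (nat_lit 182) (nat_lit 234) r5_182 r4_234 (nat_lit 0) (nat_lit 0) (nat_lit 0) (nat_lit 0x7ee10430dc) (nat_lit 550261296),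
  Rx.mk (nat_lit 198) (nat_lit 6) (nat_lit 0) (nat_lit 3) (nat_lit 5) (nat_lit 185) (nat_lit 237) r5_185 r4_237 (nat_lit 0) (nat_lit 0) (nat_lit 0) (nat_lit 0x7e05ce051a) (nat_lit 970576776),
  Rx.mk (nat_lit 212) (nat_lit 4) (nat_lit 2) (nat_lit 3) (nat_lit 6) (nat_lit 191) (nat_lit 231) r5_191 r4_231 (nat_lit 0) (nat_lit 0) (nat_lit 0) (nat_lit 0x7e50b6f640) (nat_lit 826944768),
  Rx.mk (nat_lit 214) (nat_lit 6) (nat_lit 2) (nat_lit 3) (nat_lit 7) (nat_lit 192) (nat_lit 240) r5_192 r4_240 (nat_lit 0) (nat_lit 0) (nat_lit 0) (nat_lit 0x7e1ae6f376) (nat_lit 930124728)]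
noncomputable def e31_5 : List Rx := [
  Rx.mk (nat_lit 258) (nat_lit 2) (nat_lit 0) (nat_lit 4) (nat_lit 1) (nat_lit 323) (nat_lit 215) r5_323 r3_215 (nat_lit 0) (nat_lit 0) (nat_lit 0) (nat_lit 0x7fdc245dde) (nat_lit 68753880),
  Rx.mk (nat_lit 262) (nat_lit 6) (nat_lit 0) (nat_lit 4) (nat_lit 1) (nat_lit 322) (nat_lit 213) r5_322 r3_213 (nat_lit 0) (nat_lit 0) (nat_lit 0) (nat_lit 0x7fdc245dde) (nat_lit 68753880),
  Rx.mk (nat_lit 282) (nat_lit 2) (nat_lit 3) (nat_lit 4) (nat_lit 3) (nat_lit 325) (nat_lit 216) r5_325 r3_216 (nat_lit 0) (nat_lit 0) (nat_lit 0) (nat_lit 0x7f8fdd429c) (nat_lit 215008560),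
  Rx.mk (nat_lit 454) (nat_lit 6) (nat_lit 0) (nat_lit 7) (nat_lit 5) (nat_lit 324) (nat_lit 214) r5_324 r3_214 (nat_lit 0) (nat_lit 0) (nat_lit 0) (nat_lit 0x7f8fdd429c) (nat_lit 215008560)]
noncomputable def e31_6 : List Rx := [
  Rx.mk (nat_lit 322) (nat_lit 2) (nat_lit 0) (nat_lit 5) (nat_lit 5) (nat_lit 277) (nat_lit 223) r5_277 r0_223 (nat_lit 0) (nat_lit 0) (nat_lit 0) (nat_lit 0x7c3f149278) (nat_lit 1842463584),
  Rx.mk (nat_lit 326) (nat_lit 6) (nat_lit 0) (nat_lit 5) (nat_lit 5) (nat_lit 276) (nat_lit 222) r5_276 r0_222 (nat_lit 0) (nat_lit 0) (nat_lit 0) (nat_lit 0x7ff5e6a1a0) (nat_lit 19363968)]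
noncomputable def e31_7 : List Rx := [
  Rx.mk (nat_lit 322) (nat_lit 2) (nat_lit 0) (nat_lit 5) (nat_lit 5) (nat_lit 305) (nat_lit 241) r5_305 r1_241 (nat_lit 0) (nat_lit 0) (nat_lit 0) (nat_lit 0x7ecf8b287e) (nat_lit 583763544),
  Rx.mk (nat_lit 326) (nat_lit 6) (nat_lit 0) (nat_lit 5) (nat_lit 5) (nat_lit 304) (nat_lit 240) r5_304 r1_240 (nat_lit 0) (nat_lit 0) (nat_lit 0) (nat_lit 0x7f67c7a41e) (nat_lit 291866328)]
noncomputable def e31_8 : List Rx := [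
  Rx.mk (nat_lit 258) (nat_lit 2) (nat_lit 0) (nat_lit 4) (nat_lit 1) (nat_lit 327) (nat_lit 220) r5_327 r4_220 (nat_lit 0) (nat_lit 0) (nat_lit 0) (nat_lit 0x7037ba9420) (nat_lit 7746800256),
  Rx.mk (nat_lit 262) (nat_lit 6) (nat_lit 0) (nat_lit 4) (nat_lit 1) (nat_lit 326) (nat_lit 217) r5_326 r4_217 (nat_lit 0) (nat_lit 0) (nat_lit 0) (nat_lit 0x77438f4fc8) (nat_lit 4288141728),
  Rx.mk (nat_lit 282) (nat_lit 2) (nat_lit 3) (nat_lit 4) (nat_lit 3) (nat_lit 331) (nat_lit 222) r5_331 r4_222 (nat_lit 0) (nat_lit 0) (nat_lit 0) (nat_lit 0x7145321b9a) (nat_lit 7230125448),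
  Rx.mk (nat_lit 322) (nat_lit 2) (nat_lit 0) (nat_lit 5) (nat_lit 5) (nat_lit 329) (nat_lit 221) r5_329 r4_221 (nat_lit 0) (nat_lit 0) (nat_lit 0) (nat_lit 0x7e80245f3a) (nat_lit 736007688),
  Rx.mk (nat_lit 326) (nat_lit 6) (nat_lit 0) (nat_lit 5) (nat_lit 5) (nat_lit 328) (nat_lit 218) r5_328 r4_218 (nat_lit 0) (nat_lit 0) (nat_lit 0) (nat_lit 0x7e57d80428) (nat_lit 813275424),
  Rx.mk (nat_lit 346) (nat_lit 2) (nat_lit 3) (nat_lit 5) (nat_lit 7) (nat_lit 332) (nat_lit 223) r5_332 r4_223 (nat_lit 0) (nat_lit 0) (nat_lit 0) (nat_lit 0x7edd8ea838) (nat_lit 556893792),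
  Rx.mk (nat_lit 454) (nat_lit 6) (nat_lit 0) (nat_lit 7) (nat_lit 5) (nat_lit 330) (nat_lit 219) r5_330 r4_219 (nat_lit 0) (nat_lit 0) (nat_lit 0) (nat_lit 0x7e42d95428) (nat_lit 853530912)]
noncomputable def e31_9 : List Rx := [
  Rx.mk (nat_lit 198) (nat_lit 6) (nat_lit 0) (nat_lit 3) (nat_lit 5) (nat_lit 246) (nat_lit 261) r5_246 r5_261 (nat_lit 0) (nat_lit 0) (nat_lit 0) (nat_lit 0x7c65eb24e8) (nat_lit 1767995424),
  Rx.mk (nat_lit 212) (nat_lit 4) (nat_lit 2) (nat_lit 3) (nat_lit 6) (nat_lit 247) (nat_lit 260) r5_247 r5_260 (nat_lit 0) (nat_lit 0) (nat_lit 0) (nat_lit 0x7dd172ab04) (nat_lit 1070965584),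
  Rx.mk (nat_lit 214) (nat_lit 6) (nat_lit 2) (nat_lit 3) (nat_lit 7) (nat_lit 248) (nat_lit 263) r5_248 r5_263 (nat_lit 0) (nat_lit 0) (nat_lit 0) (nat_lit 0x7efe08a078) (nat_lit 494623584),
  Rx.mk (nat_lit 282) (nat_lit 2) (nat_lit 3) (nat_lit 4) (nat_lit 3) (nat_lit 249) (nat_lit 258) r5_249 r5_258 (nat_lit 0) (nat_lit 0) (nat_lit 0) (nat_lit 0x7dd172ab04) (nat_lit 1070965584),
  Rx.mk (nat_lit 450) (nat_lit 2) (nat_lit 0) (nat_lit 7) (nat_lit 5) (nat_lit 245) (nat_lit 257) r5_245 r5_257 (nat_lit 0) (nat_lit 0) (nat_lit 0) (nat_lit 0x7c65eb24e8) (nat_lit 1767995424),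
  Rx.mk (nat_lit 454) (nat_lit 6) (nat_lit 0) (nat_lit 7) (nat_lit 5) (nat_lit 244) (nat_lit 262) r5_244 r5_262 (nat_lit 0) (nat_lit 0) (nat_lit 0) (nat_lit 0x7b8b7f6c7e) (nat_lit 2186794584),
  Rx.mk (nat_lit 474) (nat_lit 2) (nat_lit 3) (nat_lit 7) (nat_lit 7) (nat_lit 250) (nat_lit 259) r5_250 r5_259 (nat_lit 0) (nat_lit 0) (nat_lit 0) (nat_lit 0x7efe08a078) (nat_lit 494623584)]
noncomputable def e31_10 : List Rx := [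
  Rx.mk (nat_lit 20) (nat_lit 4) (nat_lit 2) (nat_lit 0) (nat_lit 2) (nat_lit 51) (nat_lit 82) r5_51 r0_82 (nat_lit 0) (nat_lit 0) (nat_lit 0) (nat_lit 0x618a963514) (nat_lit 14950729872),
  Rx.mk (nat_lit 21) (nat_lit 5) (nat_lit 2) (nat_lit 0) (nat_lit 3) (nat_lit 52) (nat_lit 83) r5_52 r0_83 (nat_lit 0) (nat_lit 0) (nat_lit 0) (nat_lit 0x7c10d4f6a0) (nat_lit 1931140224),
  Rx.mk (nat_lit 22) (nat_lit 6) (nat_lit 2) (nat_lit 0) (nat_lit 3) (nat_lit 53) (nat_lit 84) r5_53 r0_84 (nat_lit 0) (nat_lit 0) (nat_lit 0) (nat_lit 0x7ba7d706e8) (nat_lit 2132451360),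
  Rx.mk (nat_lit 148) (nat_lit 4) (nat_lit 2) (nat_lit 2) (nat_lit 6) (nat_lit 54) (nat_lit 87) r5_54 r0_87 (nat_lit 0) (nat_lit 0) (nat_lit 0) (nat_lit 0x7a8f772dfe) (nat_lit 2670040152),
  Rx.mk (nat_lit 149) (nat_lit 5) (nat_lit 2) (nat_lit 2) (nat_lit 7) (nat_lit 55) (nat_lit 88) r5_55 r0_88 (nat_lit 0) (nat_lit 0) (nat_lit 0) (nat_lit 0x7e4a371e44) (nat_lit 839406672),
  Rx.mk (nat_lit 180) (nat_lit 4) (nat_lit 6) (nat_lit 2) (nat_lit 6) (nat_lit 49) (nat_lit 85) r5_49 r0_85 (nat_lit 0) (nat_lit 0) (nat_lit 0) (nat_lit 0x7e22c49594) (nat_lit 915042960),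
  Rx.mk (nat_lit 181) (nat_lit 5) (nat_lit 6) (nat_lit 2) (nat_lit 7) (nat_lit 50) (nat_lit 86) r5_50 r0_86 (nat_lit 0) (nat_lit 0) (nat_lit 0) (nat_lit 0x7f7c66ba18) (nat_lit 252326880)]
noncomputable def e31_11 : List Rx := [
  Rx.mk (nat_lit 20) (nat_lit 4) (nat_lit 2) (nat_lit 0) (nat_lit 2) (nat_lit 195) (nat_lit 293) r5_195 r6_293 (nat_lit 0) (nat_lit 0) (nat_lit 0) (nat_lit 0x75d0a39ff6) (nat_lit 4999343544),
  Rx.mk (nat_lit 21) (nat_lit 5) (nat_lit 2) (nat_lit 0) (nat_lit 3) (nat_lit 196) (nat_lit 297) r5_196 r6_297 (nat_lit 0) (nat_lit 0) (nat_lit 0) (nat_lit 0x7e3c4d7cec) (nat_lit 866082672),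
  Rx.mk (nat_lit 22) (nat_lit 6) (nat_lit 2) (nat_lit 0) (nat_lit 3) (nat_lit 197) (nat_lit 301) r5_197 r6_301 (nat_lit 0) (nat_lit 0) (nat_lit 0) (nat_lit 0x7e7262db60) (nat_lit 762383232),
  Rx.mk (nat_lit 84) (nat_lit 4) (nat_lit 2) (nat_lit 1) (nat_lit 6) (nat_lit 198) (nat_lit 294) r5_198 r6_294 (nat_lit 0) (nat_lit 0) (nat_lit 0) (nat_lit 0x7e658ba8e0) (nat_lit 787003776),
  Rx.mk (nat_lit 85) (nat_lit 5) (nat_lit 2) (nat_lit 1) (nat_lit 7) (nat_lit 199) (nat_lit 298) r5_199 r6_298 (nat_lit 0) (nat_lit 0) (nat_lit 0) (nat_lit 0x7dd032df02) (nat_lit 1073360808),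
  Rx.mk (nat_lit 86) (nat_lit 6) (nat_lit 2) (nat_lit 1) (nat_lit 7) (nat_lit 200) (nat_lit 302) r5_200 r6_302 (nat_lit 0) (nat_lit 0) (nat_lit 0) (nat_lit 0x7e468179a2) (nat_lit 846519336),
  Rx.mk (nat_lit 148) (nat_lit 4) (nat_lit 2) (nat_lit 2) (nat_lit 6) (nat_lit 201) (nat_lit 295) r5_201 r6_295 (nat_lit 0) (nat_lit 0) (nat_lit 0) (nat_lit 0x7dc43a5e96) (nat_lit 1096313400),
  Rx.mk (nat_lit 149) (nat_lit 5) (nat_lit 2) (nat_lit 2) (nat_lit 7) (nat_lit 202) (nat_lit 299) r5_202 r6_299 (nat_lit 0) (nat_lit 0) (nat_lit 0) (nat_lit 0x7dd8ca1586) (nat_lit 1056889080),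
  Rx.mk (nat_lit 180) (nat_lit 4) (nat_lit 6) (nat_lit 2) (nat_lit 6) (nat_lit 193) (nat_lit 296) r5_193 r6_296 (nat_lit 0) (nat_lit 0) (nat_lit 0) (nat_lit 0x7e9d322e40) (nat_lit 680299776),
  Rx.mk (nat_lit 181) (nat_lit 5) (nat_lit 6) (nat_lit 2) (nat_lit 7) (nat_lit 194) (nat_lit 300) r5_194 r6_300 (nat_lit 0) (nat_lit 0) (nat_lit 0) (nat_lit 0x7e6dd4e444) (nat_lit 771116112)]
noncomputable def e31_12 : List Rx := [
  Rx.mk (nat_lit 21) (nat_lit 5) (nat_lit 2) (nat_lit 0) (nat_lit 3) (nat_lit 57) (nat_lit 88) r5_57 r1_88 (nat_lit 0) (nat_lit 0) (nat_lit 0) (nat_lit 0x7e6bb54640) (nat_lit 775187712),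
  Rx.mk (nat_lit 149) (nat_lit 5) (nat_lit 2) (nat_lit 2) (nat_lit 7) (nat_lit 58) (nat_lit 90) r5_58 r1_90 (nat_lit 0) (nat_lit 0) (nat_lit 0) (nat_lit 0x7e406c7af8) (nat_lit 858180960),
  Rx.mk (nat_lit 181) (nat_lit 5) (nat_lit 6) (nat_lit 2) (nat_lit 7) (nat_lit 56) (nat_lit 89) r5_56 r1_89 (nat_lit 0) (nat_lit 0) (nat_lit 0) (nat_lit 0x7f31e242aa) (nat_lit 395206344)]
noncomputable def e31_13 : List Rx := [
  Rx.mk (nat_lit 21) (nat_lit 5) (nat_lit 2) (nat_lit 0) (nat_lit 3) (nat_lit 207) (nat_lit 221) r5_207 r7_221 (nat_lit 0) (nat_lit 0) (nat_lit 0) (nat_lit 0x7dbcf8b2b8) (nat_lit 1110227040),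
  Rx.mk (nat_lit 85) (nat_lit 5) (nat_lit 2) (nat_lit 1) (nat_lit 7) (nat_lit 208) (nat_lit 222) r5_208 r7_222 (nat_lit 0) (nat_lit 0) (nat_lit 0) (nat_lit 0x7e020c013e) (nat_lit 977782104),
  Rx.mk (nat_lit 149) (nat_lit 5) (nat_lit 2) (nat_lit 2) (nat_lit 7) (nat_lit 209) (nat_lit 223) r5_209 r7_223 (nat_lit 0) (nat_lit 0) (nat_lit 0) (nat_lit 0x7dedf682aa) (nat_lit 1016291016),
  Rx.mk (nat_lit 181) (nat_lit 5) (nat_lit 6) (nat_lit 2) (nat_lit 7) (nat_lit 206) (nat_lit 224) r5_206 r7_224 (nat_lit 0) (nat_lit 0) (nat_lit 0) (nat_lit 0x7dd520102a) (nat_lit 1063914696)]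
noncomputable def e31_14 : List Rx := [
  Rx.mk (nat_lit 84) (nat_lit 4) (nat_lit 2) (nat_lit 1) (nat_lit 6) (nat_lit 203) (nat_lit 71) r5_203 r7_71 (nat_lit 0) (nat_lit 0) (nat_lit 0) (nat_lit 0x7e43268f54) (nat_lit 852952464),
  Rx.mk (nat_lit 85) (nat_lit 5) (nat_lit 2) (nat_lit 1) (nat_lit 7) (nat_lit 204) (nat_lit 72) r5_204 r7_72 (nat_lit 0) (nat_lit 0) (nat_lit 0) (nat_lit 0x7df5604c06) (nat_lit 1002076920),
  Rx.mk (nat_lit 86) (nat_lit 6) (nat_lit 2) (nat_lit 1) (nat_lit 7) (nat_lit 205) (nat_lit 73) r5_205 r7_73 (nat_lit 0) (nat_lit 0) (nat_lit 0) (nat_lit 0x7dbca6f7d4) (nat_lit 1110839184)]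
noncomputable def e31_15 : List Rx := [
  Rx.mk (nat_lit 84) (nat_lit 4) (nat_lit 2) (nat_lit 1) (nat_lit 6) (nat_lit 319) (nat_lit 241) r5_319 r8_241 (nat_lit 0) (nat_lit 0) (nat_lit 0) (nat_lit 0x7d60a6d832) (nat_lit 1287240552),
  Rx.mk (nat_lit 85) (nat_lit 5) (nat_lit 2) (nat_lit 1) (nat_lit 7) (nat_lit 320) (nat_lit 242) r5_320 r8_242 (nat_lit 0) (nat_lit 0) (nat_lit 0) (nat_lit 0x7de9d244f2) (nat_lit 1024232040),
  Rx.mk (nat_lit 86) (nat_lit 6) (nat_lit 2) (nat_lit 1) (nat_lit 7) (nat_lit 321) (nat_lit 243) r5_321 r8_243 (nat_lit 0) (nat_lit 0) (nat_lit 0) (nat_lit 0x7dd8a1f808) (nat_lit 1057189536)]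
noncomputable def e31_16 : List Rx := [
  Rx.mk (nat_lit 20) (nat_lit 4) (nat_lit 2) (nat_lit 0) (nat_lit 2) (nat_lit 62) (nat_lit 78) r5_62 r4_78 (nat_lit 0) (nat_lit 0) (nat_lit 0) (nat_lit 0x73b85e8660) (nat_lit 6027585408),
  Rx.mk (nat_lit 21) (nat_lit 5) (nat_lit 2) (nat_lit 0) (nat_lit 3) (nat_lit 63) (nat_lit 79) r5_63 r4_79 (nat_lit 0) (nat_lit 0) (nat_lit 0) (nat_lit 0x7e786b1ad6) (nat_lit 750817080),
  Rx.mk (nat_lit 22) (nat_lit 6) (nat_lit 2) (nat_lit 0) (nat_lit 3) (nat_lit 64) (nat_lit 80) r5_64 r4_80 (nat_lit 0) (nat_lit 0) (nat_lit 0) (nat_lit 0x7cf80582b0) (nat_lit 1487858112),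
  Rx.mk (nat_lit 148) (nat_lit 4) (nat_lit 2) (nat_lit 2) (nat_lit 6) (nat_lit 65) (nat_lit 87) r5_65 r4_87 (nat_lit 0) (nat_lit 0) (nat_lit 0) (nat_lit 0x7dc900f228) (nat_lit 1087156512),
  Rx.mk (nat_lit 149) (nat_lit 5) (nat_lit 2) (nat_lit 2) (nat_lit 7) (nat_lit 66) (nat_lit 88) r5_66 r4_88 (nat_lit 0) (nat_lit 0) (nat_lit 0) (nat_lit 0x7dda26bfba) (nat_lit 1054277640),
  Rx.mk (nat_lit 180) (nat_lit 4) (nat_lit 6) (nat_lit 2) (nat_lit 6) (nat_lit 59) (nat_lit 84) r5_59 r4_84 (nat_lit 0) (nat_lit 0) (nat_lit 0) (nat_lit 0x7e271210b8) (nat_lit 906793056),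
  Rx.mk (nat_lit 181) (nat_lit 5) (nat_lit 6) (nat_lit 2) (nat_lit 7) (nat_lit 60) (nat_lit 85) r5_60 r4_85 (nat_lit 0) (nat_lit 0) (nat_lit 0) (nat_lit 0x7e3b9e07e4) (nat_lit 867396816),
  Rx.mk (nat_lit 183) (nat_lit 7) (nat_lit 6) (nat_lit 2) (nat_lit 7) (nat_lit 61) (nat_lit 86) r5_61 r4_86 (nat_lit 0) (nat_lit 0) (nat_lit 0) (nat_lit 0x7e2a2b5f20) (nat_lit 900851328),
  Rx.mk (nat_lit 212) (nat_lit 4) (nat_lit 2) (nat_lit 3) (nat_lit 6) (nat_lit 67) (nat_lit 81) r5_67 r4_81 (nat_lit 0) (nat_lit 0) (nat_lit 0) (nat_lit 0x725645c94e) (nat_lit 6706528920),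
  Rx.mk (nat_lit 213) (nat_lit 5) (nat_lit 2) (nat_lit 3) (nat_lit 7) (nat_lit 68) (nat_lit 82) r5_68 r4_82 (nat_lit 0) (nat_lit 0) (nat_lit 0) (nat_lit 0x7efcc334d0) (nat_lit 497060928),
  Rx.mk (nat_lit 214) (nat_lit 6) (nat_lit 2) (nat_lit 3) (nat_lit 7) (nat_lit 69) (nat_lit 83) r5_69 r4_83 (nat_lit 0) (nat_lit 0) (nat_lit 0) (nat_lit 0x7ee231fdfe) (nat_lit 548000856)]
noncomputable def e31_17 : List Rx := [
  Rx.mk (nat_lit 20) (nat_lit 4) (nat_lit 2) (nat_lit 0) (nat_lit 2) (nat_lit 213) (nat_lit 244) r5_213 r9_244 (nat_lit 0) (nat_lit 0) (nat_lit 0) (nat_lit 0x73ce85c3d6) (nat_lit 5985108792),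
  Rx.mk (nat_lit 21) (nat_lit 5) (nat_lit 2) (nat_lit 0) (nat_lit 3) (nat_lit 214) (nat_lit 249) r5_214 r9_249 (nat_lit 0) (nat_lit 0) (nat_lit 0) (nat_lit 0x7e23b6c670) (nat_lit 913228992),
  Rx.mk (nat_lit 22) (nat_lit 6) (nat_lit 2) (nat_lit 0) (nat_lit 3) (nat_lit 215) (nat_lit 254) r5_215 r9_254 (nat_lit 0) (nat_lit 0) (nat_lit 0) (nat_lit 0x7e66094106) (nat_lit 786063096),
  Rx.mk (nat_lit 84) (nat_lit 4) (nat_lit 2) (nat_lit 1) (nat_lit 6) (nat_lit 216) (nat_lit 245) r5_216 r9_245 (nat_lit 0) (nat_lit 0) (nat_lit 0) (nat_lit 0x7e4ca1579e) (nat_lit 834776280),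
  Rx.mk (nat_lit 86) (nat_lit 6) (nat_lit 2) (nat_lit 1) (nat_lit 7) (nat_lit 217) (nat_lit 255) r5_217 r9_255 (nat_lit 0) (nat_lit 0) (nat_lit 0) (nat_lit 0x7def760ab0) (nat_lit 1013418432),
  Rx.mk (nat_lit 148) (nat_lit 4) (nat_lit 2) (nat_lit 2) (nat_lit 6) (nat_lit 218) (nat_lit 247) r5_218 r9_247 (nat_lit 0) (nat_lit 0) (nat_lit 0) (nat_lit 0x7d97e9a3ce) (nat_lit 1181283480),
  Rx.mk (nat_lit 149) (nat_lit 5) (nat_lit 2) (nat_lit 2) (nat_lit 7) (nat_lit 219) (nat_lit 251) r5_219 r9_251 (nat_lit 0) (nat_lit 0) (nat_lit 0) (nat_lit 0x7dedcb0562) (nat_lit 1016616744),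
  Rx.mk (nat_lit 180) (nat_lit 4) (nat_lit 6) (nat_lit 2) (nat_lit 6) (nat_lit 210) (nat_lit 248) r5_210 r9_248 (nat_lit 0) (nat_lit 0) (nat_lit 0) (nat_lit 0x7e8b7789fc) (nat_lit 714293424),
  Rx.mk (nat_lit 181) (nat_lit 5) (nat_lit 6) (nat_lit 2) (nat_lit 7) (nat_lit 211) (nat_lit 252) r5_211 r9_252 (nat_lit 0) (nat_lit 0) (nat_lit 0) (nat_lit 0x7e727d79b6) (nat_lit 762183864),
  Rx.mk (nat_lit 183) (nat_lit 7) (nat_lit 6) (nat_lit 2) (nat_lit 7) (nat_lit 212) (nat_lit 253) r5_212 r9_253 (nat_lit 0) (nat_lit 0) (nat_lit 0) (nat_lit 0x7e762bfeca) (nat_lit 755124552),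
  Rx.mk (nat_lit 212) (nat_lit 4) (nat_lit 2) (nat_lit 3) (nat_lit 6) (nat_lit 220) (nat_lit 246) r5_220 r9_246 (nat_lit 0) (nat_lit 0) (nat_lit 0) (nat_lit 0x7e38dd93ee) (nat_lit 872673048),
  Rx.mk (nat_lit 213) (nat_lit 5) (nat_lit 2) (nat_lit 3) (nat_lit 7) (nat_lit 221) (nat_lit 250) r5_221 r9_250 (nat_lit 0) (nat_lit 0) (nat_lit 0) (nat_lit 0x7de0283f9c) (nat_lit 1042762032),
  Rx.mk (nat_lit 214) (nat_lit 6) (nat_lit 2) (nat_lit 3) (nat_lit 7) (nat_lit 222) (nat_lit 256) r5_222 r9_256 (nat_lit 0) (nat_lit 0) (nat_lit 0) (nat_lit 0x7decc13600) (nat_lit 1018607616)]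
noncomputable def e31_18 : List Rx := [
  Rx.mk (nat_lit 212) (nat_lit 4) (nat_lit 2) (nat_lit 3) (nat_lit 6) (nat_lit 254) (nat_lit 284) r5_254 r10_284 (nat_lit 0) (nat_lit 0) (nat_lit 0) (nat_lit 0x7e9ce972cc) (nat_lit 680844528),
  Rx.mk (nat_lit 213) (nat_lit 5) (nat_lit 2) (nat_lit 3) (nat_lit 7) (nat_lit 255) (nat_lit 285) r5_255 r10_285 (nat_lit 0) (nat_lit 0) (nat_lit 0) (nat_lit 0x7eb3926826) (nat_lit 637396344),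
  Rx.mk (nat_lit 214) (nat_lit 6) (nat_lit 2) (nat_lit 3) (nat_lit 7) (nat_lit 256) (nat_lit 286) r5_256 r10_286 (nat_lit 0) (nat_lit 0) (nat_lit 0) (nat_lit 0x7eba8a38a2) (nat_lit 624035880)]
noncomputable def e31_19 : List Rx := [
  Rx.mk (nat_lit 70) (nat_lit 6) (nat_lit 0) (nat_lit 1) (nat_lit 5) (nat_lit 315) (nat_lit 220) r5_315 r8_220 (nat_lit 0) (nat_lit 0) (nat_lit 0) (nat_lit 0x7c922f207c) (nat_lit 1683120816),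
  Rx.mk (nat_lit 78) (nat_lit 6) (nat_lit 1) (nat_lit 1) (nat_lit 7) (nat_lit 317) (nat_lit 222) r5_317 r8_222 (nat_lit 0) (nat_lit 0) (nat_lit 0) (nat_lit 0x7dde539ce8) (nat_lit 1046272032),
  Rx.mk (nat_lit 86) (nat_lit 6) (nat_lit 2) (nat_lit 1) (nat_lit 7) (nat_lit 318) (nat_lit 223) r5_318 r8_223 (nat_lit 0) (nat_lit 0) (nat_lit 0) (nat_lit 0x7df2463daa) (nat_lit 1008024264),
  Rx.mk (nat_lit 326) (nat_lit 6) (nat_lit 0) (nat_lit 5) (nat_lit 5) (nat_lit 314) (nat_lit 219) r5_314 r8_219 (nat_lit 0) (nat_lit 0) (nat_lit 0) (nat_lit 0x7d4396095c) (nat_lit 1342970928),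
  Rx.mk (nat_lit 334) (nat_lit 6) (nat_lit 1) (nat_lit 5) (nat_lit 7) (nat_lit 316) (nat_lit 221) r5_316 r8_221 (nat_lit 0) (nat_lit 0) (nat_lit 0) (nat_lit 0x7de265dbc0) (nat_lit 1038465792)]
noncomputable def e31_20 : List Rx := [
  Rx.mk (nat_lit 266) (nat_lit 2) (nat_lit 1) (nat_lit 4) (nat_lit 3) (nat_lit 279) (nat_lit 222) r5_279 r0_222 (nat_lit 0) (nat_lit 0) (nat_lit 0) (nat_lit 0x7ff5e6a1a0) (nat_lit 19363968),
  Rx.mk (nat_lit 270) (nat_lit 6) (nat_lit 1) (nat_lit 4) (nat_lit 3) (nat_lit 278) (nat_lit 223) r5_278 r0_223 (nat_lit 0) (nat_lit 0) (nat_lit 0) (nat_lit 0x7c3f149278) (nat_lit 1842463584)]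
noncomputable def e31_21 : List Rx := [
  Rx.mk (nat_lit 266) (nat_lit 2) (nat_lit 1) (nat_lit 4) (nat_lit 3) (nat_lit 299) (nat_lit 240) r5_299 r1_240 (nat_lit 0) (nat_lit 0) (nat_lit 0) (nat_lit 0x7f67c7a41e) (nat_lit 291866328),
  Rx.mk (nat_lit 270) (nat_lit 6) (nat_lit 1) (nat_lit 4) (nat_lit 3) (nat_lit 298) (nat_lit 241) r5_298 r1_241 (nat_lit 0) (nat_lit 0) (nat_lit 0) (nat_lit 0x7ecf8b287e) (nat_lit 583763544)]
noncomputable def e31_22 : List Rx := [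
  Rx.mk (nat_lit 258) (nat_lit 2) (nat_lit 0) (nat_lit 4) (nat_lit 1) (nat_lit 338) (nat_lit 217) r5_338 r4_217 (nat_lit 0) (nat_lit 0) (nat_lit 0) (nat_lit 0x77438f4fc8) (nat_lit 4288141728),
  Rx.mk (nat_lit 262) (nat_lit 6) (nat_lit 0) (nat_lit 4) (nat_lit 1) (nat_lit 337) (nat_lit 220) r5_337 r4_220 (nat_lit 0) (nat_lit 0) (nat_lit 0) (nat_lit 0x7037ba9420) (nat_lit 7746800256),
  Rx.mk (nat_lit 266) (nat_lit 2) (nat_lit 1) (nat_lit 4) (nat_lit 3) (nat_lit 341) (nat_lit 218) r5_341 r4_218 (nat_lit 0) (nat_lit 0) (nat_lit 0) (nat_lit 0x7e57d80428) (nat_lit 813275424),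
  Rx.mk (nat_lit 270) (nat_lit 6) (nat_lit 1) (nat_lit 4) (nat_lit 3) (nat_lit 340) (nat_lit 221) r5_340 r4_221 (nat_lit 0) (nat_lit 0) (nat_lit 0) (nat_lit 0x7e80245f3a) (nat_lit 736007688),
  Rx.mk (nat_lit 282) (nat_lit 2) (nat_lit 3) (nat_lit 4) (nat_lit 3) (nat_lit 343) (nat_lit 219) r5_343 r4_219 (nat_lit 0) (nat_lit 0) (nat_lit 0) (nat_lit 0x7e42d95428) (nat_lit 853530912),
  Rx.mk (nat_lit 454) (nat_lit 6) (nat_lit 0) (nat_lit 7) (nat_lit 5) (nat_lit 339) (nat_lit 222) r5_339 r4_222 (nat_lit 0) (nat_lit 0) (nat_lit 0) (nat_lit 0x7145321b9a) (nat_lit 7230125448),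
  Rx.mk (nat_lit 462) (nat_lit 6) (nat_lit 1) (nat_lit 7) (nat_lit 7) (nat_lit 342) (nat_lit 223) r5_342 r4_223 (nat_lit 0) (nat_lit 0) (nat_lit 0) (nat_lit 0x7edd8ea838) (nat_lit 556893792)]
noncomputable def e31_23 : List Rx := [
  Rx.mk (nat_lit 266) (nat_lit 2) (nat_lit 1) (nat_lit 4) (nat_lit 3) (nat_lit 283) (nat_lit 284) r5_283 r6_284 (nat_lit 0) (nat_lit 0) (nat_lit 0) (nat_lit 0x7e8bdea38a) (nat_lit 713521224),
  Rx.mk (nat_lit 270) (nat_lit 6) (nat_lit 1) (nat_lit 4) (nat_lit 3) (nat_lit 282) (nat_lit 282) r5_282 r6_282 (nat_lit 0) (nat_lit 0) (nat_lit 0) (nat_lit 0x7e3d97c846) (nat_lit 863608824),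
  Rx.mk (nat_lit 322) (nat_lit 2) (nat_lit 0) (nat_lit 5) (nat_lit 5) (nat_lit 281) (nat_lit 281) r5_281 r6_281 (nat_lit 0) (nat_lit 0) (nat_lit 0) (nat_lit 0x7e3d97c846) (nat_lit 863608824),
  Rx.mk (nat_lit 326) (nat_lit 6) (nat_lit 0) (nat_lit 5) (nat_lit 5) (nat_lit 280) (nat_lit 280) r5_280 r6_280 (nat_lit 0) (nat_lit 0) (nat_lit 0) (nat_lit 0x7e8bdea38a) (nat_lit 713521224),
  Rx.mk (nat_lit 330) (nat_lit 2) (nat_lit 1) (nat_lit 5) (nat_lit 7) (nat_lit 285) (nat_lit 285) r5_285 r6_285 (nat_lit 0) (nat_lit 0) (nat_lit 0) (nat_lit 0x7e3ec5f562) (nat_lit 861345576),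
  Rx.mk (nat_lit 334) (nat_lit 6) (nat_lit 1) (nat_lit 5) (nat_lit 7) (nat_lit 284) (nat_lit 283) r5_284 r6_283 (nat_lit 0) (nat_lit 0) (nat_lit 0) (nat_lit 0x7e3ec5f562) (nat_lit 861345576)]
noncomputable def e31_24 : List Rx := [
  Rx.mk (nat_lit 266) (nat_lit 2) (nat_lit 1) (nat_lit 4) (nat_lit 3) (nat_lit 301) (nat_lit 216) r5_301 r7_216 (nat_lit 0) (nat_lit 0) (nat_lit 0) (nat_lit 0x7e615cebd0) (nat_lit 795023424),
  Rx.mk (nat_lit 270) (nat_lit 6) (nat_lit 1) (nat_lit 4) (nat_lit 3) (nat_lit 300) (nat_lit 214) r5_300 r7_214 (nat_lit 0) (nat_lit 0) (nat_lit 0) (nat_lit 0x7de4c1160a) (nat_lit 1033947720),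
  Rx.mk (nat_lit 330) (nat_lit 2) (nat_lit 1) (nat_lit 5) (nat_lit 7) (nat_lit 303) (nat_lit 217) r5_303 r7_217 (nat_lit 0) (nat_lit 0) (nat_lit 0) (nat_lit 0x7defd5a4b6) (nat_lit 1012702392),
  Rx.mk (nat_lit 334) (nat_lit 6) (nat_lit 1) (nat_lit 5) (nat_lit 7) (nat_lit 302) (nat_lit 215) r5_302 r7_215 (nat_lit 0) (nat_lit 0) (nat_lit 0) (nat_lit 0x7dec1be056) (nat_lit 1019845944)]
noncomputable def e31_25 : List Rx := [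
  Rx.mk (nat_lit 322) (nat_lit 2) (nat_lit 0) (nat_lit 5) (nat_lit 5) (nat_lit 311) (nat_lit 214) r5_311 r7_214 (nat_lit 0) (nat_lit 0) (nat_lit 0) (nat_lit 0x7de4c1160a) (nat_lit 1033947720),
  Rx.mk (nat_lit 326) (nat_lit 6) (nat_lit 0) (nat_lit 5) (nat_lit 5) (nat_lit 310) (nat_lit 216) r5_310 r7_216 (nat_lit 0) (nat_lit 0) (nat_lit 0) (nat_lit 0x7e615cebd0) (nat_lit 795023424),
  Rx.mk (nat_lit 330) (nat_lit 2) (nat_lit 1) (nat_lit 5) (nat_lit 7) (nat_lit 313) (nat_lit 215) r5_313 r7_215 (nat_lit 0) (nat_lit 0) (nat_lit 0) (nat_lit 0x7dec1be056) (nat_lit 1019845944),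
  Rx.mk (nat_lit 334) (nat_lit 6) (nat_lit 1) (nat_lit 5) (nat_lit 7) (nat_lit 312) (nat_lit 217) r5_312 r7_217 (nat_lit 0) (nat_lit 0) (nat_lit 0) (nat_lit 0x7defd5a4b6) (nat_lit 1012702392)]
noncomputable def e31_26 : List Rx := [
  Rx.mk (nat_lit 258) (nat_lit 2) (nat_lit 0) (nat_lit 4) (nat_lit 1) (nat_lit 345) (nat_lit 228) r5_345 r9_228 (nat_lit 0) (nat_lit 0) (nat_lit 0) (nat_lit 0x73c25986a6) (nat_lit 6008448888),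
  Rx.mk (nat_lit 262) (nat_lit 6) (nat_lit 0) (nat_lit 4) (nat_lit 1) (nat_lit 344) (nat_lit 225) r5_344 r9_225 (nat_lit 0) (nat_lit 0) (nat_lit 0) (nat_lit 0x73c25986a6) (nat_lit 6008448888),
  Rx.mk (nat_lit 266) (nat_lit 2) (nat_lit 1) (nat_lit 4) (nat_lit 3) (nat_lit 350) (nat_lit 233) r5_350 r9_233 (nat_lit 0) (nat_lit 0) (nat_lit 0) (nat_lit 0x7e77980808) (nat_lit 752397984),
  Rx.mk (nat_lit 270) (nat_lit 6) (nat_lit 1) (nat_lit 4) (nat_lit 3) (nat_lit 349) (nat_lit 230) r5_349 r9_230 (nat_lit 0) (nat_lit 0) (nat_lit 0) (nat_lit 0x7e53650b5c) (nat_lit 821806128),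
  Rx.mk (nat_lit 282) (nat_lit 2) (nat_lit 3) (nat_lit 4) (nat_lit 3) (nat_lit 354) (nat_lit 235) r5_354 r9_235 (nat_lit 0) (nat_lit 0) (nat_lit 0) (nat_lit 0x7e7a70da78) (nat_lit 746939232),
  Rx.mk (nat_lit 322) (nat_lit 2) (nat_lit 0) (nat_lit 5) (nat_lit 5) (nat_lit 347) (nat_lit 229) r5_347 r9_229 (nat_lit 0) (nat_lit 0) (nat_lit 0) (nat_lit 0x7e53650b5c) (nat_lit 821806128),
  Rx.mk (nat_lit 326) (nat_lit 6) (nat_lit 0) (nat_lit 5) (nat_lit 5) (nat_lit 346) (nat_lit 226) r5_346 r9_226 (nat_lit 0) (nat_lit 0) (nat_lit 0) (nat_lit 0x7e77980808) (nat_lit 752397984),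
  Rx.mk (nat_lit 330) (nat_lit 2) (nat_lit 1) (nat_lit 5) (nat_lit 7) (nat_lit 352) (nat_lit 234) r5_352 r9_234 (nat_lit 0) (nat_lit 0) (nat_lit 0) (nat_lit 0x7dcfcb657a) (nat_lit 1074135816),
  Rx.mk (nat_lit 334) (nat_lit 6) (nat_lit 1) (nat_lit 5) (nat_lit 7) (nat_lit 351) (nat_lit 231) r5_351 r9_231 (nat_lit 0) (nat_lit 0) (nat_lit 0) (nat_lit 0x7dcfcb657a) (nat_lit 1074135816),
  Rx.mk (nat_lit 346) (nat_lit 2) (nat_lit 3) (nat_lit 5) (nat_lit 7) (nat_lit 355) (nat_lit 236) r5_355 r9_236 (nat_lit 0) (nat_lit 0) (nat_lit 0) (nat_lit 0x7dcbe9e396) (nat_lit 1081577016),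
  Rx.mk (nat_lit 454) (nat_lit 6) (nat_lit 0) (nat_lit 7) (nat_lit 5) (nat_lit 348) (nat_lit 227) r5_348 r9_227 (nat_lit 0) (nat_lit 0) (nat_lit 0) (nat_lit 0x7e7a70da78) (nat_lit 746939232),
  Rx.mk (nat_lit 462) (nat_lit 6) (nat_lit 1) (nat_lit 7) (nat_lit 7) (nat_lit 353) (nat_lit 232) r5_353 r9_232 (nat_lit 0) (nat_lit 0) (nat_lit 0) (nat_lit 0x7dcbe9e396) (nat_lit 1081577016)]
noncomputable def e31_27 : List Rx := [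
  Rx.mk (nat_lit 258) (nat_lit 2) (nat_lit 0) (nat_lit 4) (nat_lit 1) (nat_lit 356) (nat_lit 267) r5_356 r10_267 (nat_lit 0) (nat_lit 0) (nat_lit 0) (nat_lit 0x79a5149512) (nat_lit 3119449320),
  Rx.mk (nat_lit 266) (nat_lit 2) (nat_lit 1) (nat_lit 4) (nat_lit 3) (nat_lit 359) (nat_lit 270) r5_359 r10_270 (nat_lit 0) (nat_lit 0) (nat_lit 0) (nat_lit 0x7e01da245c) (nat_lit 978155568),
  Rx.mk (nat_lit 282) (nat_lit 2) (nat_lit 3) (nat_lit 4) (nat_lit 3) (nat_lit 362) (nat_lit 272) r5_362 r10_272 (nat_lit 0) (nat_lit 0) (nat_lit 0) (nat_lit 0x7df2dd5438) (nat_lit 1006892640),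
  Rx.mk (nat_lit 450) (nat_lit 2) (nat_lit 0) (nat_lit 7) (nat_lit 5) (nat_lit 358) (nat_lit 268) r5_358 r10_268 (nat_lit 0) (nat_lit 0) (nat_lit 0) (nat_lit 0x7e095e2c14) (nat_lit 963744912),
  Rx.mk (nat_lit 454) (nat_lit 6) (nat_lit 0) (nat_lit 7) (nat_lit 5) (nat_lit 357) (nat_lit 266) r5_357 r10_266 (nat_lit 0) (nat_lit 0) (nat_lit 0) (nat_lit 0x7ed4e452e6) (nat_lit 573508728),
  Rx.mk (nat_lit 458) (nat_lit 2) (nat_lit 1) (nat_lit 7) (nat_lit 7) (nat_lit 361) (nat_lit 271) r5_361 r10_271 (nat_lit 0) (nat_lit 0) (nat_lit 0) (nat_lit 0x7df4315ef6) (nat_lit 1004345784),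
  Rx.mk (nat_lit 462) (nat_lit 6) (nat_lit 1) (nat_lit 7) (nat_lit 7) (nat_lit 360) (nat_lit 269) r5_360 r10_269 (nat_lit 0) (nat_lit 0) (nat_lit 0) (nat_lit 0x7eb07799d6) (nat_lit 643349304)]
noncomputable def e31_28 : List Rx := [
  Rx.mk (nat_lit 6) (nat_lit 6) (nat_lit 0) (nat_lit 0) (nat_lit 1) (nat_lit 224) (nat_lit 53) r5_224 r10_53 (nat_lit 0) (nat_lit 0) (nat_lit 0) (nat_lit 0x7b5c1d42d0) (nat_lit 2277647424),
  Rx.mk (nat_lit 20) (nat_lit 4) (nat_lit 2) (nat_lit 0) (nat_lit 2) (nat_lit 227) (nat_lit 54) r5_227 r10_54 (nat_lit 0) (nat_lit 0) (nat_lit 0) (nat_lit 0x75b5e9ebac) (nat_lit 5050586736),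
  Rx.mk (nat_lit 22) (nat_lit 6) (nat_lit 2) (nat_lit 0) (nat_lit 3) (nat_lit 228) (nat_lit 56) r5_228 r10_56 (nat_lit 0) (nat_lit 0) (nat_lit 0) (nat_lit 0x7e2b4d2d02) (nat_lit 898680744),
  Rx.mk (nat_lit 23) (nat_lit 7) (nat_lit 2) (nat_lit 0) (nat_lit 3) (nat_lit 229) (nat_lit 55) r5_229 r10_55 (nat_lit 0) (nat_lit 0) (nat_lit 0) (nat_lit 0x7d9fc50610) (nat_lit 1166218560),
  Rx.mk (nat_lit 70) (nat_lit 6) (nat_lit 0) (nat_lit 1) (nat_lit 5) (nat_lit 225) (nat_lit 57) r5_225 r10_57 (nat_lit 0) (nat_lit 0) (nat_lit 0) (nat_lit 0x7d9ee59408) (nat_lit 1167892128),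
  Rx.mk (nat_lit 84) (nat_lit 4) (nat_lit 2) (nat_lit 1) (nat_lit 6) (nat_lit 230) (nat_lit 58) r5_230 r10_58 (nat_lit 0) (nat_lit 0) (nat_lit 0) (nat_lit 0x7de6df9420) (nat_lit 1029884544),
  Rx.mk (nat_lit 86) (nat_lit 6) (nat_lit 2) (nat_lit 1) (nat_lit 7) (nat_lit 231) (nat_lit 60) r5_231 r10_60 (nat_lit 0) (nat_lit 0) (nat_lit 0) (nat_lit 0x7df675baae) (nat_lit 999999000),
  Rx.mk (nat_lit 87) (nat_lit 7) (nat_lit 2) (nat_lit 1) (nat_lit 7) (nat_lit 232) (nat_lit 59) r5_232 r10_59 (nat_lit 0) (nat_lit 0) (nat_lit 0) (nat_lit 0x7df1199076) (nat_lit 1010276280),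
  Rx.mk (nat_lit 148) (nat_lit 4) (nat_lit 2) (nat_lit 2) (nat_lit 6) (nat_lit 233) (nat_lit 66) r5_233 r10_66 (nat_lit 0) (nat_lit 0) (nat_lit 0) (nat_lit 0x7db1f38316) (nat_lit 1131357240),
  Rx.mk (nat_lit 151) (nat_lit 7) (nat_lit 2) (nat_lit 2) (nat_lit 7) (nat_lit 234) (nat_lit 67) r5_234 r10_67 (nat_lit 0) (nat_lit 0) (nat_lit 0) (nat_lit 0x7dc21520ec) (nat_lit 1100427120),
  Rx.mk (nat_lit 183) (nat_lit 7) (nat_lit 6) (nat_lit 2) (nat_lit 7) (nat_lit 223) (nat_lit 65) r5_223 r10_65 (nat_lit 0) (nat_lit 0) (nat_lit 0) (nat_lit 0x7eb9830916) (nat_lit 626007096),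
  Rx.mk (nat_lit 198) (nat_lit 6) (nat_lit 0) (nat_lit 3) (nat_lit 5) (nat_lit 226) (nat_lit 61) r5_226 r10_61 (nat_lit 0) (nat_lit 0) (nat_lit 0) (nat_lit 0x7df4237fd4) (nat_lit 1004449680),
  Rx.mk (nat_lit 212) (nat_lit 4) (nat_lit 2) (nat_lit 3) (nat_lit 6) (nat_lit 235) (nat_lit 63) r5_235 r10_63 (nat_lit 0) (nat_lit 0) (nat_lit 0) (nat_lit 0x7dd58429e8) (nat_lit 1063164960),
  Rx.mk (nat_lit 214) (nat_lit 6) (nat_lit 2) (nat_lit 3) (nat_lit 7) (nat_lit 236) (nat_lit 64) r5_236 r10_64 (nat_lit 0) (nat_lit 0) (nat_lit 0) (nat_lit 0x7ddaeb3372) (nat_lit 1052806248),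
  Rx.mk (nat_lit 222) (nat_lit 6) (nat_lit 3) (nat_lit 3) (nat_lit 7) (nat_lit 237) (nat_lit 62) r5_237 r10_62 (nat_lit 0) (nat_lit 0) (nat_lit 0) (nat_lit 0x7df4675b96) (nat_lit 1003941432)]
noncomputable def e31_29 : List Rx := [
  Rx.mk (nat_lit 282) (nat_lit 2) (nat_lit 3) (nat_lit 4) (nat_lit 3) (nat_lit 262) (nat_lit 262) r5_262 r5_262 (nat_lit 0) (nat_lit 0) (nat_lit 0) (nat_lit 0x7b8b7f6c7e) (nat_lit 2186794584),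
  Rx.mk (nat_lit 286) (nat_lit 6) (nat_lit 3) (nat_lit 4) (nat_lit 3) (nat_lit 261) (nat_lit 257) r5_261 r5_257 (nat_lit 0) (nat_lit 0) (nat_lit 0) (nat_lit 0x7c65eb24e8) (nat_lit 1767995424),
  Rx.mk (nat_lit 314) (nat_lit 2) (nat_lit 7) (nat_lit 4) (nat_lit 3) (nat_lit 257) (nat_lit 261) r5_257 r5_261 (nat_lit 0) (nat_lit 0) (nat_lit 0) (nat_lit 0x7c65eb24e8) (nat_lit 1767995424),
  Rx.mk (nat_lit 440) (nat_lit 0) (nat_lit 7) (nat_lit 6) (nat_lit 6) (nat_lit 258) (nat_lit 260) r5_258 r5_260 (nat_lit 0) (nat_lit 0) (nat_lit 0) (nat_lit 0x7dd172ab04) (nat_lit 1070965584),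
  Rx.mk (nat_lit 442) (nat_lit 2) (nat_lit 7) (nat_lit 6) (nat_lit 7) (nat_lit 259) (nat_lit 263) r5_259 r5_263 (nat_lit 0) (nat_lit 0) (nat_lit 0) (nat_lit 0x7efe08a078) (nat_lit 494623584),
  Rx.mk (nat_lit 454) (nat_lit 6) (nat_lit 0) (nat_lit 7) (nat_lit 5) (nat_lit 260) (nat_lit 258) r5_260 r5_258 (nat_lit 0) (nat_lit 0) (nat_lit 0) (nat_lit 0x7dd172ab04) (nat_lit 1070965584),
  Rx.mk (nat_lit 478) (nat_lit 6) (nat_lit 3) (nat_lit 7) (nat_lit 7) (nat_lit 263) (nat_lit 259) r5_263 r5_259 (nat_lit 0) (nat_lit 0) (nat_lit 0) (nat_lit 0x7efe08a078) (nat_lit 494623584)]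
noncomputable def e31_30 : List Rx := [
  Rx.mk (nat_lit 262) (nat_lit 6) (nat_lit 0) (nat_lit 4) (nat_lit 1) (nat_lit 367) (nat_lit 267) r5_367 r10_267 (nat_lit 0) (nat_lit 0) (nat_lit 0) (nat_lit 0x79a5149512) (nat_lit 3119449320),
  Rx.mk (nat_lit 282) (nat_lit 2) (nat_lit 3) (nat_lit 4) (nat_lit 3) (nat_lit 371) (nat_lit 266) r5_371 r10_266 (nat_lit 0) (nat_lit 0) (nat_lit 0) (nat_lit 0x7ed4e452e6) (nat_lit 573508728),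
  Rx.mk (nat_lit 286) (nat_lit 6) (nat_lit 3) (nat_lit 4) (nat_lit 3) (nat_lit 370) (nat_lit 268) r5_370 r10_268 (nat_lit 0) (nat_lit 0) (nat_lit 0) (nat_lit 0x7e095e2c14) (nat_lit 963744912),
  Rx.mk (nat_lit 326) (nat_lit 6) (nat_lit 0) (nat_lit 5) (nat_lit 5) (nat_lit 368) (nat_lit 270) r5_368 r10_270 (nat_lit 0) (nat_lit 0) (nat_lit 0) (nat_lit 0x7e01da245c) (nat_lit 978155568),
  Rx.mk (nat_lit 346) (nat_lit 2) (nat_lit 3) (nat_lit 5) (nat_lit 7) (nat_lit 373) (nat_lit 269) r5_373 r10_269 (nat_lit 0) (nat_lit 0) (nat_lit 0) (nat_lit 0x7eb07799d6) (nat_lit 643349304),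
  Rx.mk (nat_lit 350) (nat_lit 6) (nat_lit 3) (nat_lit 5) (nat_lit 7) (nat_lit 372) (nat_lit 271) r5_372 r10_271 (nat_lit 0) (nat_lit 0) (nat_lit 0) (nat_lit 0x7df4315ef6) (nat_lit 1004345784),
  Rx.mk (nat_lit 454) (nat_lit 6) (nat_lit 0) (nat_lit 7) (nat_lit 5) (nat_lit 369) (nat_lit 272) r5_369 r10_272 (nat_lit 0) (nat_lit 0) (nat_lit 0) (nat_lit 0x7df2dd5438) (nat_lit 1006892640)]
noncomputable def e31_31 : List Rx := [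
  Rx.mk (nat_lit 23) (nat_lit 7) (nat_lit 2) (nat_lit 0) (nat_lit 3) (nat_lit 80) (nat_lit 74) r5_80 r5_74 (nat_lit 0) (nat_lit 0) (nat_lit 0) (nat_lit 0x7f1b9167ce) (nat_lit 437994648),
  Rx.mk (nat_lit 151) (nat_lit 7) (nat_lit 2) (nat_lit 2) (nat_lit 7) (nat_lit 81) (nat_lit 78) r5_81 r5_78 (nat_lit 0) (nat_lit 0) (nat_lit 0) (nat_lit 0x7b9a5a7ebe) (nat_lit 2158310232),
  Rx.mk (nat_lit 179) (nat_lit 3) (nat_lit 6) (nat_lit 2) (nat_lit 7) (nat_lit 73) (nat_lit 85) r5_73 r5_85 (nat_lit 0) (nat_lit 0) (nat_lit 0) (nat_lit 0x7f4c02a08a) (nat_lit 345111624),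
  Rx.mk (nat_lit 183) (nat_lit 7) (nat_lit 6) (nat_lit 2) (nat_lit 7) (nat_lit 72) (nat_lit 86) r5_72 r5_86 (nat_lit 0) (nat_lit 0) (nat_lit 0) (nat_lit 0x7f4c02a08a) (nat_lit 345111624),
  Rx.mk (nat_lit 198) (nat_lit 6) (nat_lit 0) (nat_lit 3) (nat_lit 5) (nat_lit 79) (nat_lit 70) r5_79 r5_70 (nat_lit 0) (nat_lit 0) (nat_lit 0) (nat_lit 0x7f1b9167ce) (nat_lit 437994648),
  Rx.mk (nat_lit 212) (nat_lit 4) (nat_lit 2) (nat_lit 3) (nat_lit 6) (nat_lit 82) (nat_lit 75) r5_82 r5_75 (nat_lit 0) (nat_lit 0) (nat_lit 0) (nat_lit 0x7c72d1b672) (nat_lit 1743259752),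
  Rx.mk (nat_lit 214) (nat_lit 6) (nat_lit 2) (nat_lit 3) (nat_lit 7) (nat_lit 83) (nat_lit 77) r5_83 r5_77 (nat_lit 0) (nat_lit 0) (nat_lit 0) (nat_lit 0x7f92b974d6) (nat_lit 209524536),
  Rx.mk (nat_lit 215) (nat_lit 7) (nat_lit 2) (nat_lit 3) (nat_lit 7) (nat_lit 84) (nat_lit 76) r5_84 r5_76 (nat_lit 0) (nat_lit 0) (nat_lit 0) (nat_lit 0x7f92b974d6) (nat_lit 209524536),
  Rx.mk (nat_lit 222) (nat_lit 6) (nat_lit 3) (nat_lit 3) (nat_lit 7) (nat_lit 87) (nat_lit 71) r5_87 r5_71 (nat_lit 0) (nat_lit 0) (nat_lit 0) (nat_lit 0x7b9a5a7ebe) (nat_lit 2158310232),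
  Rx.mk (nat_lit 314) (nat_lit 2) (nat_lit 7) (nat_lit 4) (nat_lit 3) (nat_lit 74) (nat_lit 80) r5_74 r5_80 (nat_lit 0) (nat_lit 0) (nat_lit 0) (nat_lit 0x7f1b9167ce) (nat_lit 437994648),
  Rx.mk (nat_lit 419) (nat_lit 3) (nat_lit 4) (nat_lit 6) (nat_lit 5) (nat_lit 70) (nat_lit 79) r5_70 r5_79 (nat_lit 0) (nat_lit 0) (nat_lit 0) (nat_lit 0x7f1b9167ce) (nat_lit 437994648),
  Rx.mk (nat_lit 435) (nat_lit 3) (nat_lit 6) (nat_lit 6) (nat_lit 7) (nat_lit 71) (nat_lit 87) r5_71 r5_87 (nat_lit 0) (nat_lit 0) (nat_lit 0) (nat_lit 0x7b9a5a7ebe) (nat_lit 2158310232),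
  Rx.mk (nat_lit 440) (nat_lit 0) (nat_lit 7) (nat_lit 6) (nat_lit 6) (nat_lit 75) (nat_lit 82) r5_75 r5_82 (nat_lit 0) (nat_lit 0) (nat_lit 0) (nat_lit 0x7c72d1b672) (nat_lit 1743259752),
  Rx.mk (nat_lit 442) (nat_lit 2) (nat_lit 7) (nat_lit 6) (nat_lit 7) (nat_lit 76) (nat_lit 84) r5_76 r5_84 (nat_lit 0) (nat_lit 0) (nat_lit 0) (nat_lit 0x7f92b974d6) (nat_lit 209524536),
  Rx.mk (nat_lit 443) (nat_lit 3) (nat_lit 7) (nat_lit 6) (nat_lit 7) (nat_lit 77) (nat_lit 83) r5_77 r5_83 (nat_lit 0) (nat_lit 0) (nat_lit 0) (nat_lit 0x7f92b974d6) (nat_lit 209524536),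
  Rx.mk (nat_lit 474) (nat_lit 2) (nat_lit 3) (nat_lit 7) (nat_lit 7) (nat_lit 86) (nat_lit 72) r5_86 r5_72 (nat_lit 0) (nat_lit 0) (nat_lit 0) (nat_lit 0x7f4c02a08a) (nat_lit 345111624),
  Rx.mk (nat_lit 478) (nat_lit 6) (nat_lit 3) (nat_lit 7) (nat_lit 7) (nat_lit 85) (nat_lit 73) r5_85 r5_73 (nat_lit 0) (nat_lit 0) (nat_lit 0) (nat_lit 0x7f4c02a08a) (nat_lit 345111624),
  Rx.mk (nat_lit 506) (nat_lit 2) (nat_lit 7) (nat_lit 7) (nat_lit 7) (nat_lit 78) (nat_lit 81) r5_78 r5_81 (nat_lit 0) (nat_lit 0) (nat_lit 0) (nat_lit 0x7b9a5a7ebe) (nat_lit 2158310232)]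
noncomputable def e31_32 : List Rx := [
  Rx.mk (nat_lit 198) (nat_lit 6) (nat_lit 0) (nat_lit 3) (nat_lit 5) (nat_lit 269) (nat_lit 296) r5_269 r11_296 (nat_lit 0) (nat_lit 0) (nat_lit 0) (nat_lit 0x7e74b4b640) (nat_lit 757935360),
  Rx.mk (nat_lit 212) (nat_lit 4) (nat_lit 2) (nat_lit 3) (nat_lit 6) (nat_lit 270) (nat_lit 294) r5_270 r11_294 (nat_lit 0) (nat_lit 0) (nat_lit 0) (nat_lit 0x7edcd813a2) (nat_lit 558261288),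
  Rx.mk (nat_lit 214) (nat_lit 6) (nat_lit 2) (nat_lit 3) (nat_lit 7) (nat_lit 271) (nat_lit 299) r5_271 r11_299 (nat_lit 0) (nat_lit 0) (nat_lit 0) (nat_lit 0x7f6f268e28) (nat_lit 277733664),
  Rx.mk (nat_lit 215) (nat_lit 7) (nat_lit 2) (nat_lit 3) (nat_lit 7) (nat_lit 272) (nat_lit 295) r5_272 r11_295 (nat_lit 0) (nat_lit 0) (nat_lit 0) (nat_lit 0x7f668ad7ec) (nat_lit 294239088),
  Rx.mk (nat_lit 282) (nat_lit 2) (nat_lit 3) (nat_lit 4) (nat_lit 3) (nat_lit 273) (nat_lit 290) r5_273 r11_290 (nat_lit 0) (nat_lit 0) (nat_lit 0) (nat_lit 0x7f06f551a4) (nat_lit 477511632),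
  Rx.mk (nat_lit 314) (nat_lit 2) (nat_lit 7) (nat_lit 4) (nat_lit 3) (nat_lit 264) (nat_lit 292) r5_264 r11_292 (nat_lit 0) (nat_lit 0) (nat_lit 0) (nat_lit 0x7e74b4b640) (nat_lit 757935360),
  Rx.mk (nat_lit 440) (nat_lit 0) (nat_lit 7) (nat_lit 6) (nat_lit 6) (nat_lit 265) (nat_lit 288) r5_265 r11_288 (nat_lit 0) (nat_lit 0) (nat_lit 0) (nat_lit 0x7edcd813a2) (nat_lit 558261288),
  Rx.mk (nat_lit 442) (nat_lit 2) (nat_lit 7) (nat_lit 6) (nat_lit 7) (nat_lit 266) (nat_lit 293) r5_266 r11_293 (nat_lit 0) (nat_lit 0) (nat_lit 0) (nat_lit 0x7f6f268e28) (nat_lit 277733664),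
  Rx.mk (nat_lit 443) (nat_lit 3) (nat_lit 7) (nat_lit 6) (nat_lit 7) (nat_lit 267) (nat_lit 289) r5_267 r11_289 (nat_lit 0) (nat_lit 0) (nat_lit 0) (nat_lit 0x7f668ad7ec) (nat_lit 294239088),
  Rx.mk (nat_lit 454) (nat_lit 6) (nat_lit 0) (nat_lit 7) (nat_lit 5) (nat_lit 268) (nat_lit 297) r5_268 r11_297 (nat_lit 0) (nat_lit 0) (nat_lit 0) (nat_lit 0x7f06f551a4) (nat_lit 477511632),
  Rx.mk (nat_lit 474) (nat_lit 2) (nat_lit 3) (nat_lit 7) (nat_lit 7) (nat_lit 275) (nat_lit 291) r5_275 r11_291 (nat_lit 0) (nat_lit 0) (nat_lit 0) (nat_lit 0x7f7f7d08b0) (nat_lit 246407616),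
  Rx.mk (nat_lit 478) (nat_lit 6) (nat_lit 3) (nat_lit 7) (nat_lit 7) (nat_lit 274) (nat_lit 298) r5_274 r11_298 (nat_lit 0) (nat_lit 0) (nat_lit 0) (nat_lit 0x7f7f7d08b0) (nat_lit 246407616)]
noncomputable def e31_33 : List Rx := [
  Rx.mk (nat_lit 176) (nat_lit 0) (nat_lit 6) (nat_lit 2) (nat_lit 6) (nat_lit 105) (nat_lit 231) r5_105 r0_231 (nat_lit 0) (nat_lit 0) (nat_lit 0) (nat_lit 0x7b678c2bd6) (nat_lit 2255725368),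
  Rx.mk (nat_lit 290) (nat_lit 2) (nat_lit 4) (nat_lit 4) (nat_lit 1) (nat_lit 98) (nat_lit 232) r5_98 r0_232 (nat_lit 0) (nat_lit 0) (nat_lit 0) (nat_lit 0x75597c52e2) (nat_lit 5227808040),
  Rx.mk (nat_lit 298) (nat_lit 2) (nat_lit 5) (nat_lit 4) (nat_lit 3) (nat_lit 101) (nat_lit 233) r5_101 r0_233 (nat_lit 0) (nat_lit 0) (nat_lit 0) (nat_lit 0x7fa8fdf078) (nat_lit 166828896),
  Rx.mk (nat_lit 416) (nat_lit 0) (nat_lit 4) (nat_lit 6) (nat_lit 4) (nat_lit 99) (nat_lit 228) r5_99 r0_228 (nat_lit 0) (nat_lit 0) (nat_lit 0) (nat_lit 0x746fc68f28) (nat_lit 5675922720),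
  Rx.mk (nat_lit 418) (nat_lit 2) (nat_lit 4) (nat_lit 6) (nat_lit 5) (nat_lit 100) (nat_lit 234) r5_100 r0_234 (nat_lit 0) (nat_lit 0) (nat_lit 0) (nat_lit 0x7ee77f2926) (nat_lit 537835896),
  Rx.mk (nat_lit 424) (nat_lit 0) (nat_lit 5) (nat_lit 6) (nat_lit 6) (nat_lit 102) (nat_lit 229) r5_102 r0_229 (nat_lit 0) (nat_lit 0) (nat_lit 0) (nat_lit 0x7f864e9b90) (nat_lit 233333568),
  Rx.mk (nat_lit 426) (nat_lit 2) (nat_lit 5) (nat_lit 6) (nat_lit 7) (nat_lit 103) (nat_lit 235) r5_103 r0_235 (nat_lit 0) (nat_lit 0) (nat_lit 0) (nat_lit 0x7f62ec71d6) (nat_lit 301177656),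
  Rx.mk (nat_lit 432) (nat_lit 0) (nat_lit 6) (nat_lit 6) (nat_lit 6) (nat_lit 104) (nat_lit 230) r5_104 r0_230 (nat_lit 0) (nat_lit 0) (nat_lit 0) (nat_lit 0x7d3f0c91f8) (nat_lit 1351670112)]
noncomputable def e31_34 : List Rx := [
  Rx.mk (nat_lit 176) (nat_lit 0) (nat_lit 6) (nat_lit 2) (nat_lit 6) (nat_lit 5) (nat_lit 85) r5_5 r0_85 (nat_lit 0) (nat_lit 0) (nat_lit 0) (nat_lit 0x7e22c49594) (nat_lit 915042960),
  Rx.mk (nat_lit 177) (nat_lit 1) (nat_lit 6) (nat_lit 2) (nat_lit 7) (nat_lit 6) (nat_lit 86) r5_6 r0_86 (nat_lit 0) (nat_lit 0) (nat_lit 0) (nat_lit 0x7f7c66ba18) (nat_lit 252326880),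
  Rx.mk (nat_lit 416) (nat_lit 0) (nat_lit 4) (nat_lit 6) (nat_lit 4) (nat_lit 0) (nat_lit 82) r5_0 r0_82 (nat_lit 0) (nat_lit 0) (nat_lit 0) (nat_lit 0x618a963514) (nat_lit 14950729872),
  Rx.mk (nat_lit 417) (nat_lit 1) (nat_lit 4) (nat_lit 6) (nat_lit 5) (nat_lit 1) (nat_lit 83) r5_1 r0_83 (nat_lit 0) (nat_lit 0) (nat_lit 0) (nat_lit 0x7c10d4f6a0) (nat_lit 1931140224),
  Rx.mk (nat_lit 418) (nat_lit 2) (nat_lit 4) (nat_lit 6) (nat_lit 5) (nat_lit 2) (nat_lit 84) r5_2 r0_84 (nat_lit 0) (nat_lit 0) (nat_lit 0) (nat_lit 0x7ba7d706e8) (nat_lit 2132451360),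
  Rx.mk (nat_lit 432) (nat_lit 0) (nat_lit 6) (nat_lit 6) (nat_lit 6) (nat_lit 3) (nat_lit 87) r5_3 r0_87 (nat_lit 0) (nat_lit 0) (nat_lit 0) (nat_lit 0x7a8f772dfe) (nat_lit 2670040152),
  Rx.mk (nat_lit 433) (nat_lit 1) (nat_lit 6) (nat_lit 6) (nat_lit 7) (nat_lit 4) (nat_lit 88) r5_4 r0_88 (nat_lit 0) (nat_lit 0) (nat_lit 0) (nat_lit 0x7e4a371e44) (nat_lit 839406672)]
noncomputable def e31_35 : List Rx := [
  Rx.mk (nat_lit 176) (nat_lit 0) (nat_lit 6) (nat_lit 2) (nat_lit 6) (nat_lit 114) (nat_lit 296) r5_114 r6_296 (nat_lit 0) (nat_lit 0) (nat_lit 0) (nat_lit 0x7e9d322e40) (nat_lit 680299776),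
  Rx.mk (nat_lit 177) (nat_lit 1) (nat_lit 6) (nat_lit 2) (nat_lit 7) (nat_lit 115) (nat_lit 300) r5_115 r6_300 (nat_lit 0) (nat_lit 0) (nat_lit 0) (nat_lit 0x7e6dd4e444) (nat_lit 771116112),
  Rx.mk (nat_lit 416) (nat_lit 0) (nat_lit 4) (nat_lit 6) (nat_lit 4) (nat_lit 106) (nat_lit 293) r5_106 r6_293 (nat_lit 0) (nat_lit 0) (nat_lit 0) (nat_lit 0x75d0a39ff6) (nat_lit 4999343544),
  Rx.mk (nat_lit 417) (nat_lit 1) (nat_lit 4) (nat_lit 6) (nat_lit 5) (nat_lit 107) (nat_lit 297) r5_107 r6_297 (nat_lit 0) (nat_lit 0) (nat_lit 0) (nat_lit 0x7e3c4d7cec) (nat_lit 866082672),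
  Rx.mk (nat_lit 418) (nat_lit 2) (nat_lit 4) (nat_lit 6) (nat_lit 5) (nat_lit 108) (nat_lit 301) r5_108 r6_301 (nat_lit 0) (nat_lit 0) (nat_lit 0) (nat_lit 0x7e7262db60) (nat_lit 762383232),
  Rx.mk (nat_lit 424) (nat_lit 0) (nat_lit 5) (nat_lit 6) (nat_lit 6) (nat_lit 109) (nat_lit 294) r5_109 r6_294 (nat_lit 0) (nat_lit 0) (nat_lit 0) (nat_lit 0x7e658ba8e0) (nat_lit 787003776),
  Rx.mk (nat_lit 425) (nat_lit 1) (nat_lit 5) (nat_lit 6) (nat_lit 7) (nat_lit 110) (nat_lit 298) r5_110 r6_298 (nat_lit 0) (nat_lit 0) (nat_lit 0) (nat_lit 0x7dd032df02) (nat_lit 1073360808),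
  Rx.mk (nat_lit 426) (nat_lit 2) (nat_lit 5) (nat_lit 6) (nat_lit 7) (nat_lit 111) (nat_lit 302) r5_111 r6_302 (nat_lit 0) (nat_lit 0) (nat_lit 0) (nat_lit 0x7e468179a2) (nat_lit 846519336),
  Rx.mk (nat_lit 432) (nat_lit 0) (nat_lit 6) (nat_lit 6) (nat_lit 6) (nat_lit 112) (nat_lit 295) r5_112 r6_295 (nat_lit 0) (nat_lit 0) (nat_lit 0) (nat_lit 0x7dc43a5e96) (nat_lit 1096313400),
  Rx.mk (nat_lit 433) (nat_lit 1) (nat_lit 6) (nat_lit 6) (nat_lit 7) (nat_lit 113) (nat_lit 299) r5_113 r6_299 (nat_lit 0) (nat_lit 0) (nat_lit 0) (nat_lit 0x7dd8ca1586) (nat_lit 1056889080)]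
noncomputable def e31_36 : List Rx := [
  Rx.mk (nat_lit 177) (nat_lit 1) (nat_lit 6) (nat_lit 2) (nat_lit 7) (nat_lit 11) (nat_lit 94) r5_11 r2_94 (nat_lit 0) (nat_lit 0) (nat_lit 0) (nat_lit 0x7de5390e8a) (nat_lit 1033049160),
  Rx.mk (nat_lit 181) (nat_lit 5) (nat_lit 6) (nat_lit 2) (nat_lit 7) (nat_lit 10) (nat_lit 95) r5_10 r2_95 (nat_lit 0) (nat_lit 0) (nat_lit 0) (nat_lit 0x7de5390e8a) (nat_lit 1033049160)]
noncomputable def e31_37 : List Rx := [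
  Rx.mk (nat_lit 177) (nat_lit 1) (nat_lit 6) (nat_lit 2) (nat_lit 7) (nat_lit 127) (nat_lit 61) r5_127 r8_61 (nat_lit 0) (nat_lit 0) (nat_lit 0) (nat_lit 0x7dd1aea744) (nat_lit 1070516304),
  Rx.mk (nat_lit 181) (nat_lit 5) (nat_lit 6) (nat_lit 2) (nat_lit 7) (nat_lit 126) (nat_lit 62) r5_126 r8_62 (nat_lit 0) (nat_lit 0) (nat_lit 0) (nat_lit 0x7df57b4a56) (nat_lit 1001874744)]
noncomputable def e31_38 : List Rx := [
  Rx.mk (nat_lit 177) (nat_lit 1) (nat_lit 6) (nat_lit 2) (nat_lit 7) (nat_lit 169) (nat_lit 62) r5_169 r8_62 (nat_lit 0) (nat_lit 0) (nat_lit 0) (nat_lit 0x7df57b4a56) (nat_lit 1001874744),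
  Rx.mk (nat_lit 181) (nat_lit 5) (nat_lit 6) (nat_lit 2) (nat_lit 7) (nat_lit 168) (nat_lit 61) r5_168 r8_61 (nat_lit 0) (nat_lit 0) (nat_lit 0) (nat_lit 0x7dd1aea744) (nat_lit 1070516304)]
noncomputable def e31_39 : List Rx := [
  Rx.mk (nat_lit 177) (nat_lit 1) (nat_lit 6) (nat_lit 2) (nat_lit 7) (nat_lit 9) (nat_lit 89) r5_9 r1_89 (nat_lit 0) (nat_lit 0) (nat_lit 0) (nat_lit 0x7f31e242aa) (nat_lit 395206344),
  Rx.mk (nat_lit 417) (nat_lit 1) (nat_lit 4) (nat_lit 6) (nat_lit 5) (nat_lit 7) (nat_lit 88) r5_7 r1_88 (nat_lit 0) (nat_lit 0) (nat_lit 0) (nat_lit 0x7e6bb54640) (nat_lit 775187712),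
  Rx.mk (nat_lit 433) (nat_lit 1) (nat_lit 6) (nat_lit 6) (nat_lit 7) (nat_lit 8) (nat_lit 90) r5_8 r1_90 (nat_lit 0) (nat_lit 0) (nat_lit 0) (nat_lit 0x7e406c7af8) (nat_lit 858180960)]
noncomputable def e31_40 : List Rx := [
  Rx.mk (nat_lit 177) (nat_lit 1) (nat_lit 6) (nat_lit 2) (nat_lit 7) (nat_lit 125) (nat_lit 224) r5_125 r7_224 (nat_lit 0) (nat_lit 0) (nat_lit 0) (nat_lit 0x7dd520102a) (nat_lit 1063914696),
  Rx.mk (nat_lit 417) (nat_lit 1) (nat_lit 4) (nat_lit 6) (nat_lit 5) (nat_lit 122) (nat_lit 221) r5_122 r7_221 (nat_lit 0) (nat_lit 0) (nat_lit 0) (nat_lit 0x7dbcf8b2b8) (nat_lit 1110227040),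
  Rx.mk (nat_lit 425) (nat_lit 1) (nat_lit 5) (nat_lit 6) (nat_lit 7) (nat_lit 123) (nat_lit 222) r5_123 r7_222 (nat_lit 0) (nat_lit 0) (nat_lit 0) (nat_lit 0x7e020c013e) (nat_lit 977782104),
  Rx.mk (nat_lit 433) (nat_lit 1) (nat_lit 6) (nat_lit 6) (nat_lit 7) (nat_lit 124) (nat_lit 223) r5_124 r7_223 (nat_lit 0) (nat_lit 0) (nat_lit 0) (nat_lit 0x7dedf682aa) (nat_lit 1016291016)]
noncomputable def e31_41 : List Rx := [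
  Rx.mk (nat_lit 298) (nat_lit 2) (nat_lit 5) (nat_lit 4) (nat_lit 3) (nat_lit 116) (nat_lit 247) r5_116 r1_247 (nat_lit 0) (nat_lit 0) (nat_lit 0) (nat_lit 0x7f624a1bfc) (nat_lit 302393520),
  Rx.mk (nat_lit 424) (nat_lit 0) (nat_lit 5) (nat_lit 6) (nat_lit 6) (nat_lit 117) (nat_lit 246) r5_117 r1_246 (nat_lit 0) (nat_lit 0) (nat_lit 0) (nat_lit 0x7f6760ea8a) (nat_lit 292635720),
  Rx.mk (nat_lit 426) (nat_lit 2) (nat_lit 5) (nat_lit 6) (nat_lit 7) (nat_lit 118) (nat_lit 248) r5_118 r1_248 (nat_lit 0) (nat_lit 0) (nat_lit 0) (nat_lit 0x7e75103088) (nat_lit 757250208)]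
noncomputable def e31_42 : List Rx := [
  Rx.mk (nat_lit 266) (nat_lit 2) (nat_lit 1) (nat_lit 4) (nat_lit 3) (nat_lit 289) (nat_lit 270) r5_289 r2_270 (nat_lit 0) (nat_lit 0) (nat_lit 0) (nat_lit 0x7d0b86ea86) (nat_lit 1450458360),
  Rx.mk (nat_lit 298) (nat_lit 2) (nat_lit 5) (nat_lit 4) (nat_lit 3) (nat_lit 286) (nat_lit 269) r5_286 r2_269 (nat_lit 0) (nat_lit 0) (nat_lit 0) (nat_lit 0x7d5005c254) (nat_lit 1319125392),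
  Rx.mk (nat_lit 424) (nat_lit 0) (nat_lit 5) (nat_lit 6) (nat_lit 6) (nat_lit 287) (nat_lit 268) r5_287 r2_268 (nat_lit 0) (nat_lit 0) (nat_lit 0) (nat_lit 0x7d47970948) (nat_lit 1335293856),
  Rx.mk (nat_lit 426) (nat_lit 2) (nat_lit 5) (nat_lit 6) (nat_lit 7) (nat_lit 288) (nat_lit 271) r5_288 r2_271 (nat_lit 0) (nat_lit 0) (nat_lit 0) (nat_lit 0x7de4629bf2) (nat_lit 1034655336)]
noncomputable def e31_43 : List Rx := [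
  Rx.mk (nat_lit 424) (nat_lit 0) (nat_lit 5) (nat_lit 6) (nat_lit 6) (nat_lit 119) (nat_lit 71) r5_119 r7_71 (nat_lit 0) (nat_lit 0) (nat_lit 0) (nat_lit 0x7e43268f54) (nat_lit 852952464),
  Rx.mk (nat_lit 425) (nat_lit 1) (nat_lit 5) (nat_lit 6) (nat_lit 7) (nat_lit 120) (nat_lit 72) r5_120 r7_72 (nat_lit 0) (nat_lit 0) (nat_lit 0) (nat_lit 0x7df5604c06) (nat_lit 1002076920),
  Rx.mk (nat_lit 426) (nat_lit 2) (nat_lit 5) (nat_lit 6) (nat_lit 7) (nat_lit 121) (nat_lit 73) r5_121 r7_73 (nat_lit 0) (nat_lit 0) (nat_lit 0) (nat_lit 0x7dbca6f7d4) (nat_lit 1110839184)]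
noncomputable def e31_44 : List Rx := [
  Rx.mk (nat_lit 424) (nat_lit 0) (nat_lit 5) (nat_lit 6) (nat_lit 6) (nat_lit 295) (nat_lit 241) r5_295 r8_241 (nat_lit 0) (nat_lit 0) (nat_lit 0) (nat_lit 0x7d60a6d832) (nat_lit 1287240552),
  Rx.mk (nat_lit 425) (nat_lit 1) (nat_lit 5) (nat_lit 6) (nat_lit 7) (nat_lit 296) (nat_lit 242) r5_296 r8_242 (nat_lit 0) (nat_lit 0) (nat_lit 0) (nat_lit 0x7de9d244f2) (nat_lit 1024232040),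
  Rx.mk (nat_lit 426) (nat_lit 2) (nat_lit 5) (nat_lit 6) (nat_lit 7) (nat_lit 297) (nat_lit 243) r5_297 r8_243 (nat_lit 0) (nat_lit 0) (nat_lit 0) (nat_lit 0x7dd8a1f808) (nat_lit 1057189536)]
noncomputable def e31_45 : List Rx := [
  Rx.mk (nat_lit 266) (nat_lit 2) (nat_lit 1) (nat_lit 4) (nat_lit 3) (nat_lit 293) (nat_lit 219) r5_293 r8_219 (nat_lit 0) (nat_lit 0) (nat_lit 0) (nat_lit 0x7d4396095c) (nat_lit 1342970928),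
  Rx.mk (nat_lit 298) (nat_lit 2) (nat_lit 5) (nat_lit 4) (nat_lit 3) (nat_lit 290) (nat_lit 220) r5_290 r8_220 (nat_lit 0) (nat_lit 0) (nat_lit 0) (nat_lit 0x7c922f207c) (nat_lit 1683120816),
  Rx.mk (nat_lit 330) (nat_lit 2) (nat_lit 1) (nat_lit 5) (nat_lit 7) (nat_lit 294) (nat_lit 221) r5_294 r8_221 (nat_lit 0) (nat_lit 0) (nat_lit 0) (nat_lit 0x7de265dbc0) (nat_lit 1038465792),
  Rx.mk (nat_lit 362) (nat_lit 2) (nat_lit 5) (nat_lit 5) (nat_lit 7) (nat_lit 291) (nat_lit 222) r5_291 r8_222 (nat_lit 0) (nat_lit 0) (nat_lit 0) (nat_lit 0x7dde539ce8) (nat_lit 1046272032),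
  Rx.mk (nat_lit 426) (nat_lit 2) (nat_lit 5) (nat_lit 6) (nat_lit 7) (nat_lit 292) (nat_lit 223) r5_292 r8_223 (nat_lit 0) (nat_lit 0) (nat_lit 0) (nat_lit 0x7df2463daa) (nat_lit 1008024264)]
noncomputable def e31_46 : List Rx := [
  Rx.mk (nat_lit 176) (nat_lit 0) (nat_lit 6) (nat_lit 2) (nat_lit 6) (nat_lit 135) (nat_lit 233) r5_135 r4_233 (nat_lit 0) (nat_lit 0) (nat_lit 0) (nat_lit 0x7e5fadc6c4) (nat_lit 798252624),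
  Rx.mk (nat_lit 179) (nat_lit 3) (nat_lit 6) (nat_lit 2) (nat_lit 7) (nat_lit 136) (nat_lit 234) r5_136 r4_234 (nat_lit 0) (nat_lit 0) (nat_lit 0) (nat_lit 0x7ee10430dc) (nat_lit 550261296),
  Rx.mk (nat_lit 290) (nat_lit 2) (nat_lit 4) (nat_lit 4) (nat_lit 1) (nat_lit 128) (nat_lit 235) r5_128 r4_235 (nat_lit 0) (nat_lit 0) (nat_lit 0) (nat_lit 0x729cb2c238) (nat_lit 6571495008),
  Rx.mk (nat_lit 298) (nat_lit 2) (nat_lit 5) (nat_lit 4) (nat_lit 3) (nat_lit 131) (nat_lit 236) r5_131 r4_236 (nat_lit 0) (nat_lit 0) (nat_lit 0) (nat_lit 0x7d7961ec68) (nat_lit 1239821856),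
  Rx.mk (nat_lit 314) (nat_lit 2) (nat_lit 7) (nat_lit 4) (nat_lit 3) (nat_lit 137) (nat_lit 237) r5_137 r4_237 (nat_lit 0) (nat_lit 0) (nat_lit 0) (nat_lit 0x7e05ce051a) (nat_lit 970576776),
  Rx.mk (nat_lit 416) (nat_lit 0) (nat_lit 4) (nat_lit 6) (nat_lit 4) (nat_lit 129) (nat_lit 229) r5_129 r4_229 (nat_lit 0) (nat_lit 0) (nat_lit 0) (nat_lit 0x71fe96849a) (nat_lit 6874655112),
  Rx.mk (nat_lit 418) (nat_lit 2) (nat_lit 4) (nat_lit 6) (nat_lit 5) (nat_lit 130) (nat_lit 238) r5_130 r4_238 (nat_lit 0) (nat_lit 0) (nat_lit 0) (nat_lit 0x7e7092b864) (nat_lit 765859536),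
  Rx.mk (nat_lit 424) (nat_lit 0) (nat_lit 5) (nat_lit 6) (nat_lit 6) (nat_lit 132) (nat_lit 230) r5_132 r4_230 (nat_lit 0) (nat_lit 0) (nat_lit 0) (nat_lit 0x7e314decf0) (nat_lit 887170752),
  Rx.mk (nat_lit 426) (nat_lit 2) (nat_lit 5) (nat_lit 6) (nat_lit 7) (nat_lit 133) (nat_lit 239) r5_133 r4_239 (nat_lit 0) (nat_lit 0) (nat_lit 0) (nat_lit 0x7e3b0f90cc) (nat_lit 868463856),
  Rx.mk (nat_lit 432) (nat_lit 0) (nat_lit 6) (nat_lit 6) (nat_lit 6) (nat_lit 134) (nat_lit 232) r5_134 r4_232 (nat_lit 0) (nat_lit 0) (nat_lit 0) (nat_lit 0x7d90cfb574) (nat_lit 1194899472),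
  Rx.mk (nat_lit 440) (nat_lit 0) (nat_lit 7) (nat_lit 6) (nat_lit 6) (nat_lit 138) (nat_lit 231) r5_138 r4_231 (nat_lit 0) (nat_lit 0) (nat_lit 0) (nat_lit 0x7e50b6f640) (nat_lit 826944768),
  Rx.mk (nat_lit 442) (nat_lit 2) (nat_lit 7) (nat_lit 6) (nat_lit 7) (nat_lit 139) (nat_lit 240) r5_139 r4_240 (nat_lit 0) (nat_lit 0) (nat_lit 0) (nat_lit 0x7e1ae6f376) (nat_lit 930124728)]
noncomputable def e31_47 : List Rx := [
  Rx.mk (nat_lit 176) (nat_lit 0) (nat_lit 6) (nat_lit 2) (nat_lit 6) (nat_lit 25) (nat_lit 84) r5_25 r4_84 (nat_lit 0) (nat_lit 0) (nat_lit 0) (nat_lit 0x7e271210b8) (nat_lit 906793056),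
  Rx.mk (nat_lit 177) (nat_lit 1) (nat_lit 6) (nat_lit 2) (nat_lit 7) (nat_lit 26) (nat_lit 85) r5_26 r4_85 (nat_lit 0) (nat_lit 0) (nat_lit 0) (nat_lit 0x7e3b9e07e4) (nat_lit 867396816),
  Rx.mk (nat_lit 179) (nat_lit 3) (nat_lit 6) (nat_lit 2) (nat_lit 7) (nat_lit 27) (nat_lit 86) r5_27 r4_86 (nat_lit 0) (nat_lit 0) (nat_lit 0) (nat_lit 0x7e2a2b5f20) (nat_lit 900851328),
  Rx.mk (nat_lit 416) (nat_lit 0) (nat_lit 4) (nat_lit 6) (nat_lit 4) (nat_lit 20) (nat_lit 78) r5_20 r4_78 (nat_lit 0) (nat_lit 0) (nat_lit 0) (nat_lit 0x73b85e8660) (nat_lit 6027585408),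
  Rx.mk (nat_lit 417) (nat_lit 1) (nat_lit 4) (nat_lit 6) (nat_lit 5) (nat_lit 21) (nat_lit 79) r5_21 r4_79 (nat_lit 0) (nat_lit 0) (nat_lit 0) (nat_lit 0x7e786b1ad6) (nat_lit 750817080),
  Rx.mk (nat_lit 418) (nat_lit 2) (nat_lit 4) (nat_lit 6) (nat_lit 5) (nat_lit 22) (nat_lit 80) r5_22 r4_80 (nat_lit 0) (nat_lit 0) (nat_lit 0) (nat_lit 0x7cf80582b0) (nat_lit 1487858112),
  Rx.mk (nat_lit 432) (nat_lit 0) (nat_lit 6) (nat_lit 6) (nat_lit 6) (nat_lit 23) (nat_lit 87) r5_23 r4_87 (nat_lit 0) (nat_lit 0) (nat_lit 0) (nat_lit 0x7dc900f228) (nat_lit 1087156512),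
  Rx.mk (nat_lit 433) (nat_lit 1) (nat_lit 6) (nat_lit 6) (nat_lit 7) (nat_lit 24) (nat_lit 88) r5_24 r4_88 (nat_lit 0) (nat_lit 0) (nat_lit 0) (nat_lit 0x7dda26bfba) (nat_lit 1054277640),
  Rx.mk (nat_lit 440) (nat_lit 0) (nat_lit 7) (nat_lit 6) (nat_lit 6) (nat_lit 28) (nat_lit 81) r5_28 r4_81 (nat_lit 0) (nat_lit 0) (nat_lit 0) (nat_lit 0x725645c94e) (nat_lit 6706528920),
  Rx.mk (nat_lit 441) (nat_lit 1) (nat_lit 7) (nat_lit 6) (nat_lit 7) (nat_lit 29) (nat_lit 82) r5_29 r4_82 (nat_lit 0) (nat_lit 0) (nat_lit 0) (nat_lit 0x7efcc334d0) (nat_lit 497060928),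
  Rx.mk (nat_lit 442) (nat_lit 2) (nat_lit 7) (nat_lit 6) (nat_lit 7) (nat_lit 30) (nat_lit 83) r5_30 r4_83 (nat_lit 0) (nat_lit 0) (nat_lit 0) (nat_lit 0x7ee231fdfe) (nat_lit 548000856)]
noncomputable def e31_48 : List Rx := [
  Rx.mk (nat_lit 176) (nat_lit 0) (nat_lit 6) (nat_lit 2) (nat_lit 6) (nat_lit 147) (nat_lit 248) r5_147 r9_248 (nat_lit 0) (nat_lit 0) (nat_lit 0) (nat_lit 0x7e8b7789fc) (nat_lit 714293424),
  Rx.mk (nat_lit 177) (nat_lit 1) (nat_lit 6) (nat_lit 2) (nat_lit 7) (nat_lit 148) (nat_lit 252) r5_148 r9_252 (nat_lit 0) (nat_lit 0) (nat_lit 0) (nat_lit 0x7e727d79b6) (nat_lit 762183864),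
  Rx.mk (nat_lit 179) (nat_lit 3) (nat_lit 6) (nat_lit 2) (nat_lit 7) (nat_lit 149) (nat_lit 253) r5_149 r9_253 (nat_lit 0) (nat_lit 0) (nat_lit 0) (nat_lit 0x7e762bfeca) (nat_lit 755124552),
  Rx.mk (nat_lit 416) (nat_lit 0) (nat_lit 4) (nat_lit 6) (nat_lit 4) (nat_lit 140) (nat_lit 244) r5_140 r9_244 (nat_lit 0) (nat_lit 0) (nat_lit 0) (nat_lit 0x73ce85c3d6) (nat_lit 5985108792),
  Rx.mk (nat_lit 417) (nat_lit 1) (nat_lit 4) (nat_lit 6) (nat_lit 5) (nat_lit 141) (nat_lit 249) r5_141 r9_249 (nat_lit 0) (nat_lit 0) (nat_lit 0) (nat_lit 0x7e23b6c670) (nat_lit 913228992),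
  Rx.mk (nat_lit 418) (nat_lit 2) (nat_lit 4) (nat_lit 6) (nat_lit 5) (nat_lit 142) (nat_lit 254) r5_142 r9_254 (nat_lit 0) (nat_lit 0) (nat_lit 0) (nat_lit 0x7e66094106) (nat_lit 786063096),
  Rx.mk (nat_lit 424) (nat_lit 0) (nat_lit 5) (nat_lit 6) (nat_lit 6) (nat_lit 143) (nat_lit 245) r5_143 r9_245 (nat_lit 0) (nat_lit 0) (nat_lit 0) (nat_lit 0x7e4ca1579e) (nat_lit 834776280),
  Rx.mk (nat_lit 426) (nat_lit 2) (nat_lit 5) (nat_lit 6) (nat_lit 7) (nat_lit 144) (nat_lit 255) r5_144 r9_255 (nat_lit 0) (nat_lit 0) (nat_lit 0) (nat_lit 0x7def760ab0) (nat_lit 1013418432),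
  Rx.mk (nat_lit 432) (nat_lit 0) (nat_lit 6) (nat_lit 6) (nat_lit 6) (nat_lit 145) (nat_lit 247) r5_145 r9_247 (nat_lit 0) (nat_lit 0) (nat_lit 0) (nat_lit 0x7d97e9a3ce) (nat_lit 1181283480),
  Rx.mk (nat_lit 433) (nat_lit 1) (nat_lit 6) (nat_lit 6) (nat_lit 7) (nat_lit 146) (nat_lit 251) r5_146 r9_251 (nat_lit 0) (nat_lit 0) (nat_lit 0) (nat_lit 0x7dedcb0562) (nat_lit 1016616744),
  Rx.mk (nat_lit 440) (nat_lit 0) (nat_lit 7) (nat_lit 6) (nat_lit 6) (nat_lit 150) (nat_lit 246) r5_150 r9_246 (nat_lit 0) (nat_lit 0) (nat_lit 0) (nat_lit 0x7e38dd93ee) (nat_lit 872673048),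
  Rx.mk (nat_lit 441) (nat_lit 1) (nat_lit 7) (nat_lit 6) (nat_lit 7) (nat_lit 151) (nat_lit 250) r5_151 r9_250 (nat_lit 0) (nat_lit 0) (nat_lit 0) (nat_lit 0x7de0283f9c) (nat_lit 1042762032),
  Rx.mk (nat_lit 442) (nat_lit 2) (nat_lit 7) (nat_lit 6) (nat_lit 7) (nat_lit 152) (nat_lit 256) r5_152 r9_256 (nat_lit 0) (nat_lit 0) (nat_lit 0) (nat_lit 0x7decc13600) (nat_lit 1018607616)]
noncomputable def e31_49 : List Rx := [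
  Rx.mk (nat_lit 440) (nat_lit 0) (nat_lit 7) (nat_lit 6) (nat_lit 6) (nat_lit 241) (nat_lit 284) r5_241 r10_284 (nat_lit 0) (nat_lit 0) (nat_lit 0) (nat_lit 0x7e9ce972cc) (nat_lit 680844528),
  Rx.mk (nat_lit 441) (nat_lit 1) (nat_lit 7) (nat_lit 6) (nat_lit 7) (nat_lit 242) (nat_lit 285) r5_242 r10_285 (nat_lit 0) (nat_lit 0) (nat_lit 0) (nat_lit 0x7eb3926826) (nat_lit 637396344),
  Rx.mk (nat_lit 442) (nat_lit 2) (nat_lit 7) (nat_lit 6) (nat_lit 7) (nat_lit 243) (nat_lit 286) r5_243 r10_286 (nat_lit 0) (nat_lit 0) (nat_lit 0) (nat_lit 0x7eba8a38a2) (nat_lit 624035880)]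
noncomputable def e31_50 : List Rx := [
  Rx.mk (nat_lit 179) (nat_lit 3) (nat_lit 6) (nat_lit 2) (nat_lit 7) (nat_lit 163) (nat_lit 65) r5_163 r10_65 (nat_lit 0) (nat_lit 0) (nat_lit 0) (nat_lit 0x7eb9830916) (nat_lit 626007096),
  Rx.mk (nat_lit 290) (nat_lit 2) (nat_lit 4) (nat_lit 4) (nat_lit 1) (nat_lit 153) (nat_lit 53) r5_153 r10_53 (nat_lit 0) (nat_lit 0) (nat_lit 0) (nat_lit 0x7b5c1d42d0) (nat_lit 2277647424),
  Rx.mk (nat_lit 298) (nat_lit 2) (nat_lit 5) (nat_lit 4) (nat_lit 3) (nat_lit 157) (nat_lit 57) r5_157 r10_57 (nat_lit 0) (nat_lit 0) (nat_lit 0) (nat_lit 0x7d9ee59408) (nat_lit 1167892128),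
  Rx.mk (nat_lit 314) (nat_lit 2) (nat_lit 7) (nat_lit 4) (nat_lit 3) (nat_lit 164) (nat_lit 61) r5_164 r10_61 (nat_lit 0) (nat_lit 0) (nat_lit 0) (nat_lit 0x7df4237fd4) (nat_lit 1004449680),
  Rx.mk (nat_lit 416) (nat_lit 0) (nat_lit 4) (nat_lit 6) (nat_lit 4) (nat_lit 154) (nat_lit 54) r5_154 r10_54 (nat_lit 0) (nat_lit 0) (nat_lit 0) (nat_lit 0x75b5e9ebac) (nat_lit 5050586736),
  Rx.mk (nat_lit 418) (nat_lit 2) (nat_lit 4) (nat_lit 6) (nat_lit 5) (nat_lit 155) (nat_lit 56) r5_155 r10_56 (nat_lit 0) (nat_lit 0) (nat_lit 0) (nat_lit 0x7e2b4d2d02) (nat_lit 898680744),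
  Rx.mk (nat_lit 419) (nat_lit 3) (nat_lit 4) (nat_lit 6) (nat_lit 5) (nat_lit 156) (nat_lit 55) r5_156 r10_55 (nat_lit 0) (nat_lit 0) (nat_lit 0) (nat_lit 0x7d9fc50610) (nat_lit 1166218560),
  Rx.mk (nat_lit 424) (nat_lit 0) (nat_lit 5) (nat_lit 6) (nat_lit 6) (nat_lit 158) (nat_lit 58) r5_158 r10_58 (nat_lit 0) (nat_lit 0) (nat_lit 0) (nat_lit 0x7de6df9420) (nat_lit 1029884544),
  Rx.mk (nat_lit 426) (nat_lit 2) (nat_lit 5) (nat_lit 6) (nat_lit 7) (nat_lit 159) (nat_lit 60) r5_159 r10_60 (nat_lit 0) (nat_lit 0) (nat_lit 0) (nat_lit 0x7df675baae) (nat_lit 999999000),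
  Rx.mk (nat_lit 427) (nat_lit 3) (nat_lit 5) (nat_lit 6) (nat_lit 7) (nat_lit 160) (nat_lit 59) r5_160 r10_59 (nat_lit 0) (nat_lit 0) (nat_lit 0) (nat_lit 0x7df1199076) (nat_lit 1010276280),
  Rx.mk (nat_lit 432) (nat_lit 0) (nat_lit 6) (nat_lit 6) (nat_lit 6) (nat_lit 161) (nat_lit 66) r5_161 r10_66 (nat_lit 0) (nat_lit 0) (nat_lit 0) (nat_lit 0x7db1f38316) (nat_lit 1131357240),
  Rx.mk (nat_lit 435) (nat_lit 3) (nat_lit 6) (nat_lit 6) (nat_lit 7) (nat_lit 162) (nat_lit 67) r5_162 r10_67 (nat_lit 0) (nat_lit 0) (nat_lit 0) (nat_lit 0x7dc21520ec) (nat_lit 1100427120),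
  Rx.mk (nat_lit 440) (nat_lit 0) (nat_lit 7) (nat_lit 6) (nat_lit 6) (nat_lit 165) (nat_lit 63) r5_165 r10_63 (nat_lit 0) (nat_lit 0) (nat_lit 0) (nat_lit 0x7dd58429e8) (nat_lit 1063164960),
  Rx.mk (nat_lit 442) (nat_lit 2) (nat_lit 7) (nat_lit 6) (nat_lit 7) (nat_lit 166) (nat_lit 64) r5_166 r10_64 (nat_lit 0) (nat_lit 0) (nat_lit 0) (nat_lit 0x7ddaeb3372) (nat_lit 1052806248),
  Rx.mk (nat_lit 506) (nat_lit 2) (nat_lit 7) (nat_lit 7) (nat_lit 7) (nat_lit 167) (nat_lit 62) r5_167 r10_62 (nat_lit 0) (nat_lit 0) (nat_lit 0) (nat_lit 0x7df4675b96) (nat_lit 1003941432)]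
noncomputable def e31_51 : List Rx := [
  Rx.mk (nat_lit 198) (nat_lit 6) (nat_lit 0) (nat_lit 3) (nat_lit 5) (nat_lit 251) (nat_lit 243) r5_251 r12_243 (nat_lit 0) (nat_lit 0) (nat_lit 0) (nat_lit 0x7fed08ef84) (nat_lit 36363600),
  Rx.mk (nat_lit 212) (nat_lit 4) (nat_lit 2) (nat_lit 3) (nat_lit 6) (nat_lit 252) (nat_lit 242) r5_252 r12_242 (nat_lit 0) (nat_lit 0) (nat_lit 0) (nat_lit 0x7d25bb2728) (nat_lit 1400214816),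
  Rx.mk (nat_lit 214) (nat_lit 6) (nat_lit 2) (nat_lit 3) (nat_lit 7) (nat_lit 253) (nat_lit 244) r5_253 r12_244 (nat_lit 0) (nat_lit 0) (nat_lit 0) (nat_lit 0x7ef7d3c3cc) (nat_lit 506523888)]
noncomputable def e31_52 : List Rx := [
  Rx.mk (nat_lit 258) (nat_lit 2) (nat_lit 0) (nat_lit 4) (nat_lit 1) (nat_lit 333) (nat_lit 232) r5_333 r12_232 (nat_lit 0) (nat_lit 0) (nat_lit 0) (nat_lit 0x7b7d41d066) (nat_lit 2214099576),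
  Rx.mk (nat_lit 282) (nat_lit 2) (nat_lit 3) (nat_lit 4) (nat_lit 3) (nat_lit 336) (nat_lit 234) r5_336 r12_234 (nat_lit 0) (nat_lit 0) (nat_lit 0) (nat_lit 0x7dd76d0b58) (nat_lit 1059503328),
  Rx.mk (nat_lit 450) (nat_lit 2) (nat_lit 0) (nat_lit 7) (nat_lit 5) (nat_lit 335) (nat_lit 233) r5_335 r12_233 (nat_lit 0) (nat_lit 0) (nat_lit 0) (nat_lit 0x7f189437a4) (nat_lit 443725776),
  Rx.mk (nat_lit 454) (nat_lit 6) (nat_lit 0) (nat_lit 7) (nat_lit 5) (nat_lit 334) (nat_lit 231) r5_334 r12_231 (nat_lit 0) (nat_lit 0) (nat_lit 0) (nat_lit 0x7fe0d652ba) (nat_lit 59751432)]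
noncomputable def e31_53 : List Rx := [
  Rx.mk (nat_lit 20) (nat_lit 4) (nat_lit 2) (nat_lit 0) (nat_lit 2) (nat_lit 90) (nat_lit 70) r5_90 r12_70 (nat_lit 0) (nat_lit 0) (nat_lit 0) (nat_lit 0x7e042adf4e) (nat_lit 973716120),
  Rx.mk (nat_lit 22) (nat_lit 6) (nat_lit 2) (nat_lit 0) (nat_lit 3) (nat_lit 91) (nat_lit 72) r5_91 r12_72 (nat_lit 0) (nat_lit 0) (nat_lit 0) (nat_lit 0x7c7bbb67ce) (nat_lit 1726170264),
  Rx.mk (nat_lit 23) (nat_lit 7) (nat_lit 2) (nat_lit 0) (nat_lit 3) (nat_lit 92) (nat_lit 71) r5_92 r12_71 (nat_lit 0) (nat_lit 0) (nat_lit 0) (nat_lit 0x7f16d5b38e) (nat_lit 447070104),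
  Rx.mk (nat_lit 148) (nat_lit 4) (nat_lit 2) (nat_lit 2) (nat_lit 6) (nat_lit 93) (nat_lit 78) r5_93 r12_78 (nat_lit 0) (nat_lit 0) (nat_lit 0) (nat_lit 0x7a93662f0a) (nat_lit 2662497864),
  Rx.mk (nat_lit 151) (nat_lit 7) (nat_lit 2) (nat_lit 2) (nat_lit 7) (nat_lit 94) (nat_lit 79) r5_94 r12_79 (nat_lit 0) (nat_lit 0) (nat_lit 0) (nat_lit 0x7e52dd53d8) (nat_lit 822822624),
  Rx.mk (nat_lit 183) (nat_lit 7) (nat_lit 6) (nat_lit 2) (nat_lit 7) (nat_lit 88) (nat_lit 77) r5_88 r12_77 (nat_lit 0) (nat_lit 0) (nat_lit 0) (nat_lit 0x7e41ba8616) (nat_lit 855679032),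
  Rx.mk (nat_lit 198) (nat_lit 6) (nat_lit 0) (nat_lit 3) (nat_lit 5) (nat_lit 89) (nat_lit 73) r5_89 r12_73 (nat_lit 0) (nat_lit 0) (nat_lit 0) (nat_lit 0x7e46331e88) (nat_lit 847106208),
  Rx.mk (nat_lit 212) (nat_lit 4) (nat_lit 2) (nat_lit 3) (nat_lit 6) (nat_lit 95) (nat_lit 75) r5_95 r12_75 (nat_lit 0) (nat_lit 0) (nat_lit 0) (nat_lit 0x7dee681b90) (nat_lit 1015440192),
  Rx.mk (nat_lit 214) (nat_lit 6) (nat_lit 2) (nat_lit 3) (nat_lit 7) (nat_lit 96) (nat_lit 76) r5_96 r12_76 (nat_lit 0) (nat_lit 0) (nat_lit 0) (nat_lit 0x7f0fa006f0) (nat_lit 460893888),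
  Rx.mk (nat_lit 222) (nat_lit 6) (nat_lit 3) (nat_lit 3) (nat_lit 7) (nat_lit 97) (nat_lit 74) r5_97 r12_74 (nat_lit 0) (nat_lit 0) (nat_lit 0) (nat_lit 0x7e5cc7752c) (nat_lit 803812464)]
noncomputable def e31_54 : List Rx := [
  Rx.mk (nat_lit 262) (nat_lit 6) (nat_lit 0) (nat_lit 4) (nat_lit 1) (nat_lit 363) (nat_lit 232) r5_363 r12_232 (nat_lit 0) (nat_lit 0) (nat_lit 0) (nat_lit 0x7b7d41d066) (nat_lit 2214099576),
  Rx.mk (nat_lit 282) (nat_lit 2) (nat_lit 3) (nat_lit 4) (nat_lit 3) (nat_lit 366) (nat_lit 231) r5_366 r12_231 (nat_lit 0) (nat_lit 0) (nat_lit 0) (nat_lit 0x7fe0d652ba) (nat_lit 59751432),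
  Rx.mk (nat_lit 286) (nat_lit 6) (nat_lit 3) (nat_lit 4) (nat_lit 3) (nat_lit 365) (nat_lit 233) r5_365 r12_233 (nat_lit 0) (nat_lit 0) (nat_lit 0) (nat_lit 0x7f189437a4) (nat_lit 443725776),
  Rx.mk (nat_lit 454) (nat_lit 6) (nat_lit 0) (nat_lit 7) (nat_lit 5) (nat_lit 364) (nat_lit 234) r5_364 r12_234 (nat_lit 0) (nat_lit 0) (nat_lit 0) (nat_lit 0x7dd76d0b58) (nat_lit 1059503328)]
noncomputable def e31_55 : List Rx := [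
  Rx.mk (nat_lit 176) (nat_lit 0) (nat_lit 6) (nat_lit 2) (nat_lit 6) (nat_lit 15) (nat_lit 225) r5_15 r3_225 (nat_lit 0) (nat_lit 0) (nat_lit 0) (nat_lit 0x770d966f8c) (nat_lit 4391627760),
  Rx.mk (nat_lit 179) (nat_lit 3) (nat_lit 6) (nat_lit 2) (nat_lit 7) (nat_lit 16) (nat_lit 226) r5_16 r3_226 (nat_lit 0) (nat_lit 0) (nat_lit 0) (nat_lit 0x7f3a4a3c22) (nat_lit 379088424),
  Rx.mk (nat_lit 314) (nat_lit 2) (nat_lit 7) (nat_lit 4) (nat_lit 3) (nat_lit 17) (nat_lit 227) r5_17 r3_227 (nat_lit 0) (nat_lit 0) (nat_lit 0) (nat_lit 0x7ec8641af6) (nat_lit 597477816),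
  Rx.mk (nat_lit 416) (nat_lit 0) (nat_lit 4) (nat_lit 6) (nat_lit 4) (nat_lit 12) (nat_lit 222) r5_12 r3_222 (nat_lit 0) (nat_lit 0) (nat_lit 0) (nat_lit 0x7ffa96b69a) (nat_lit 10375560),
  Rx.mk (nat_lit 418) (nat_lit 2) (nat_lit 4) (nat_lit 6) (nat_lit 5) (nat_lit 13) (nat_lit 228) r5_13 r3_228 (nat_lit 0) (nat_lit 0) (nat_lit 0) (nat_lit 0x78c2869ed4) (nat_lit 3553844112),
  Rx.mk (nat_lit 432) (nat_lit 0) (nat_lit 6) (nat_lit 6) (nat_lit 6) (nat_lit 14) (nat_lit 224) r5_14 r3_224 (nat_lit 0) (nat_lit 0) (nat_lit 0) (nat_lit 0x783b195630) (nat_lit 3813511104),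
  Rx.mk (nat_lit 440) (nat_lit 0) (nat_lit 7) (nat_lit 6) (nat_lit 6) (nat_lit 18) (nat_lit 223) r5_18 r3_223 (nat_lit 0) (nat_lit 0) (nat_lit 0) (nat_lit 0x7ea6edd27c) (nat_lit 661637808),
  Rx.mk (nat_lit 442) (nat_lit 2) (nat_lit 7) (nat_lit 6) (nat_lit 7) (nat_lit 19) (nat_lit 229) r5_19 r3_229 (nat_lit 0) (nat_lit 0) (nat_lit 0) (nat_lit 0x7f51b98516) (nat_lit 334154808)]
noncomputable def e31_56 : List Rx := [
  Rx.mk (nat_lit 314) (nat_lit 2) (nat_lit 7) (nat_lit 4) (nat_lit 3) (nat_lit 238) (nat_lit 243) r5_238 r12_243 (nat_lit 0) (nat_lit 0) (nat_lit 0) (nat_lit 0x7fed08ef84) (nat_lit 36363600),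
  Rx.mk (nat_lit 440) (nat_lit 0) (nat_lit 7) (nat_lit 6) (nat_lit 6) (nat_lit 239) (nat_lit 242) r5_239 r12_242 (nat_lit 0) (nat_lit 0) (nat_lit 0) (nat_lit 0x7d25bb2728) (nat_lit 1400214816),
  Rx.mk (nat_lit 442) (nat_lit 2) (nat_lit 7) (nat_lit 6) (nat_lit 7) (nat_lit 240) (nat_lit 244) r5_240 r12_244 (nat_lit 0) (nat_lit 0) (nat_lit 0) (nat_lit 0x7ef7d3c3cc) (nat_lit 506523888)]
noncomputable def e31_57 : List Rx := [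
  Rx.mk (nat_lit 179) (nat_lit 3) (nat_lit 6) (nat_lit 2) (nat_lit 7) (nat_lit 36) (nat_lit 77) r5_36 r12_77 (nat_lit 0) (nat_lit 0) (nat_lit 0) (nat_lit 0x7e41ba8616) (nat_lit 855679032),
  Rx.mk (nat_lit 314) (nat_lit 2) (nat_lit 7) (nat_lit 4) (nat_lit 3) (nat_lit 37) (nat_lit 73) r5_37 r12_73 (nat_lit 0) (nat_lit 0) (nat_lit 0) (nat_lit 0x7e46331e88) (nat_lit 847106208),
  Rx.mk (nat_lit 416) (nat_lit 0) (nat_lit 4) (nat_lit 6) (nat_lit 4) (nat_lit 31) (nat_lit 70) r5_31 r12_70 (nat_lit 0) (nat_lit 0) (nat_lit 0) (nat_lit 0x7e042adf4e) (nat_lit 973716120),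
  Rx.mk (nat_lit 418) (nat_lit 2) (nat_lit 4) (nat_lit 6) (nat_lit 5) (nat_lit 32) (nat_lit 72) r5_32 r12_72 (nat_lit 0) (nat_lit 0) (nat_lit 0) (nat_lit 0x7c7bbb67ce) (nat_lit 1726170264),
  Rx.mk (nat_lit 419) (nat_lit 3) (nat_lit 4) (nat_lit 6) (nat_lit 5) (nat_lit 33) (nat_lit 71) r5_33 r12_71 (nat_lit 0) (nat_lit 0) (nat_lit 0) (nat_lit 0x7f16d5b38e) (nat_lit 447070104),
  Rx.mk (nat_lit 432) (nat_lit 0) (nat_lit 6) (nat_lit 6) (nat_lit 6) (nat_lit 34) (nat_lit 78) r5_34 r12_78 (nat_lit 0) (nat_lit 0) (nat_lit 0) (nat_lit 0x7a93662f0a) (nat_lit 2662497864),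
  Rx.mk (nat_lit 435) (nat_lit 3) (nat_lit 6) (nat_lit 6) (nat_lit 7) (nat_lit 35) (nat_lit 79) r5_35 r12_79 (nat_lit 0) (nat_lit 0) (nat_lit 0) (nat_lit 0x7e52dd53d8) (nat_lit 822822624),
  Rx.mk (nat_lit 440) (nat_lit 0) (nat_lit 7) (nat_lit 6) (nat_lit 6) (nat_lit 38) (nat_lit 75) r5_38 r12_75 (nat_lit 0) (nat_lit 0) (nat_lit 0) (nat_lit 0x7dee681b90) (nat_lit 1015440192),
  Rx.mk (nat_lit 442) (nat_lit 2) (nat_lit 7) (nat_lit 6) (nat_lit 7) (nat_lit 39) (nat_lit 76) r5_39 r12_76 (nat_lit 0) (nat_lit 0) (nat_lit 0) (nat_lit 0x7f0fa006f0) (nat_lit 460893888),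
  Rx.mk (nat_lit 506) (nat_lit 2) (nat_lit 7) (nat_lit 7) (nat_lit 7) (nat_lit 40) (nat_lit 74) r5_40 r12_74 (nat_lit 0) (nat_lit 0) (nat_lit 0) (nat_lit 0x7e5cc7752c) (nat_lit 803812464)]
noncomputable def e31 : List (List Rx) := [e31_0, e31_1, e31_2, e31_3, e31_4, e31_5, e31_6, e31_7, e31_8, e31_9, e31_10, e31_11, e31_12, e31_13, e31_14, e31_15, e31_16, e31_17, e31_18, e31_19, e31_20, e31_21, e31_22, e31_23, e31_24, e31_25, e31_26, e31_27, e31_28, e31_29, e31_30, e31_31, e31_32, e31_33, e31_34, e31_35, e31_36, e31_37, e31_38, e31_39, e31_40, e31_41, e31_42, e31_43, e31_44, e31_45, e31_46, e31_47, e31_48, e31_49, e31_50, e31_51, e31_52, e31_53, e31_54, e31_55, e31_56, e31_57]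
noncomputable def e32_0 : List Rx := [
  Rx.mk (nat_lit 20) (nat_lit 4) (nat_lit 2) (nat_lit 0) (nat_lit 2) (nat_lit 3) (nat_lit 236) r11_3 r0_236 (nat_lit 0) (nat_lit 0) (nat_lit 0) (nat_lit 0x7a6c44a14a) (nat_lit 2737527624),
  Rx.mk (nat_lit 22) (nat_lit 6) (nat_lit 2) (nat_lit 0) (nat_lit 3) (nat_lit 5) (nat_lit 241) r11_5 r0_241 (nat_lit 0) (nat_lit 0) (nat_lit 0) (nat_lit 0x7e8bdea38a) (nat_lit 713521224),
  Rx.mk (nat_lit 52) (nat_lit 4) (nat_lit 6) (nat_lit 0) (nat_lit 2) (nat_lit 0) (nat_lit 238) r11_0 r0_238 (nat_lit 0) (nat_lit 0) (nat_lit 0) (nat_lit 0x604a433b84) (nat_lit 15564918096),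
  Rx.mk (nat_lit 84) (nat_lit 4) (nat_lit 2) (nat_lit 1) (nat_lit 6) (nat_lit 4) (nat_lit 237) r11_4 r0_237 (nat_lit 0) (nat_lit 0) (nat_lit 0) (nat_lit 0x7ff1a7c592) (nat_lit 27504360),
  Rx.mk (nat_lit 86) (nat_lit 6) (nat_lit 2) (nat_lit 1) (nat_lit 7) (nat_lit 6) (nat_lit 242) r11_6 r0_242 (nat_lit 0) (nat_lit 0) (nat_lit 0) (nat_lit 0x7fcf076fba) (nat_lit 93896712),
  Rx.mk (nat_lit 116) (nat_lit 4) (nat_lit 6) (nat_lit 1) (nat_lit 6) (nat_lit 1) (nat_lit 239) r11_1 r0_239 (nat_lit 0) (nat_lit 0) (nat_lit 0) (nat_lit 0x7a40d59866) (nat_lit 2820807288),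
  Rx.mk (nat_lit 180) (nat_lit 4) (nat_lit 6) (nat_lit 2) (nat_lit 6) (nat_lit 2) (nat_lit 240) r11_2 r0_240 (nat_lit 0) (nat_lit 0) (nat_lit 0) (nat_lit 0x7407d02ef6) (nat_lit 5875259832)]
noncomputable def e32_1 : List Rx := [
  Rx.mk (nat_lit 84) (nat_lit 4) (nat_lit 2) (nat_lit 1) (nat_lit 6) (nat_lit 8) (nat_lit 249) r11_8 r1_249 (nat_lit 0) (nat_lit 0) (nat_lit 0) (nat_lit 0x7fd9fb0076) (nat_lit 72898488),
  Rx.mk (nat_lit 86) (nat_lit 6) (nat_lit 2) (nat_lit 1) (nat_lit 7) (nat_lit 9) (nat_lit 251) r11_9 r1_251 (nat_lit 0) (nat_lit 0) (nat_lit 0) (nat_lit 0x7f3f574b4c) (nat_lit 369403632),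
  Rx.mk (nat_lit 116) (nat_lit 4) (nat_lit 6) (nat_lit 1) (nat_lit 6) (nat_lit 7) (nat_lit 250) r11_7 r1_250 (nat_lit 0) (nat_lit 0) (nat_lit 0) (nat_lit 0x7e7e4b3cce) (nat_lit 739551384)]
noncomputable def e32_2 : List Rx := [
  Rx.mk (nat_lit 84) (nat_lit 4) (nat_lit 2) (nat_lit 1) (nat_lit 6) (nat_lit 10) (nat_lit 272) r11_10 r2_272 (nat_lit 0) (nat_lit 0) (nat_lit 0) (nat_lit 0x7d2c30dfc6) (nat_lit 1387828728),
  Rx.mk (nat_lit 86) (nat_lit 6) (nat_lit 2) (nat_lit 1) (nat_lit 7) (nat_lit 13) (nat_lit 274) r11_13 r2_274 (nat_lit 0) (nat_lit 0) (nat_lit 0) (nat_lit 0x7dc1c905ae) (nat_lit 1100997144),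
  Rx.mk (nat_lit 326) (nat_lit 6) (nat_lit 0) (nat_lit 5) (nat_lit 5) (nat_lit 11) (nat_lit 273) r11_11 r2_273 (nat_lit 0) (nat_lit 0) (nat_lit 0) (nat_lit 0x7d2c30dfc6) (nat_lit 1387828728),
  Rx.mk (nat_lit 342) (nat_lit 6) (nat_lit 2) (nat_lit 5) (nat_lit 7) (nat_lit 12) (nat_lit 275) r11_12 r2_275 (nat_lit 0) (nat_lit 0) (nat_lit 0) (nat_lit 0x7dc1c905ae) (nat_lit 1100997144)]
noncomputable def e32_3 : List Rx := [
  Rx.mk (nat_lit 20) (nat_lit 4) (nat_lit 2) (nat_lit 0) (nat_lit 2) (nat_lit 16) (nat_lit 230) r11_16 r3_230 (nat_lit 0) (nat_lit 0) (nat_lit 0) (nat_lit 0x7f8a217e5e) (nat_lit 226001880),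
  Rx.mk (nat_lit 22) (nat_lit 6) (nat_lit 2) (nat_lit 0) (nat_lit 3) (nat_lit 18) (nat_lit 236) r11_18 r3_236 (nat_lit 0) (nat_lit 0) (nat_lit 0) (nat_lit 0x74e254a5d4) (nat_lit 5456275344),
  Rx.mk (nat_lit 52) (nat_lit 4) (nat_lit 6) (nat_lit 0) (nat_lit 2) (nat_lit 14) (nat_lit 232) r11_14 r3_232 (nat_lit 0) (nat_lit 0) (nat_lit 0) (nat_lit 0x7f8a217e5e) (nat_lit 226001880),
  Rx.mk (nat_lit 55) (nat_lit 7) (nat_lit 6) (nat_lit 0) (nat_lit 3) (nat_lit 20) (nat_lit 234) r11_20 r3_234 (nat_lit 0) (nat_lit 0) (nat_lit 0) (nat_lit 0x7f1946ac7c) (nat_lit 442389168),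
  Rx.mk (nat_lit 180) (nat_lit 4) (nat_lit 6) (nat_lit 2) (nat_lit 6) (nat_lit 15) (nat_lit 233) r11_15 r3_233 (nat_lit 0) (nat_lit 0) (nat_lit 0) (nat_lit 0x74e254a5d4) (nat_lit 5456275344),
  Rx.mk (nat_lit 183) (nat_lit 7) (nat_lit 6) (nat_lit 2) (nat_lit 7) (nat_lit 21) (nat_lit 235) r11_21 r3_235 (nat_lit 0) (nat_lit 0) (nat_lit 0) (nat_lit 0x7f616e09be) (nat_lit 304041816),
  Rx.mk (nat_lit 212) (nat_lit 4) (nat_lit 2) (nat_lit 3) (nat_lit 6) (nat_lit 17) (nat_lit 231) r11_17 r3_231 (nat_lit 0) (nat_lit 0) (nat_lit 0) (nat_lit 0x7f1946ac7c) (nat_lit 442389168),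
  Rx.mk (nat_lit 214) (nat_lit 6) (nat_lit 2) (nat_lit 3) (nat_lit 7) (nat_lit 19) (nat_lit 237) r11_19 r3_237 (nat_lit 0) (nat_lit 0) (nat_lit 0) (nat_lit 0x7f616e09be) (nat_lit 304041816)]
noncomputable def e32_4 : List Rx := [
  Rx.mk (nat_lit 20) (nat_lit 4) (nat_lit 2) (nat_lit 0) (nat_lit 2) (nat_lit 25) (nat_lit 241) r11_25 r4_241 (nat_lit 0) (nat_lit 0) (nat_lit 0) (nat_lit 0x75f067639a) (nat_lit 4938438024),
  Rx.mk (nat_lit 22) (nat_lit 6) (nat_lit 2) (nat_lit 0) (nat_lit 3) (nat_lit 28) (nat_lit 250) r11_28 r4_250 (nat_lit 0) (nat_lit 0) (nat_lit 0) (nat_lit 0x7dda8599cc) (nat_lit 1053567216),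
  Rx.mk (nat_lit 52) (nat_lit 4) (nat_lit 6) (nat_lit 0) (nat_lit 2) (nat_lit 22) (nat_lit 244) r11_22 r4_244 (nat_lit 0) (nat_lit 0) (nat_lit 0) (nat_lit 0x6bf3fab462) (nat_lit 9840116520),
  Rx.mk (nat_lit 55) (nat_lit 7) (nat_lit 6) (nat_lit 0) (nat_lit 3) (nat_lit 31) (nat_lit 247) r11_31 r4_247 (nat_lit 0) (nat_lit 0) (nat_lit 0) (nat_lit 0x6e389aa81e) (nat_lit 8726828760),
  Rx.mk (nat_lit 84) (nat_lit 4) (nat_lit 2) (nat_lit 1) (nat_lit 6) (nat_lit 26) (nat_lit 242) r11_26 r4_242 (nat_lit 0) (nat_lit 0) (nat_lit 0) (nat_lit 0x7e10d57498) (nat_lit 949429728),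
  Rx.mk (nat_lit 86) (nat_lit 6) (nat_lit 2) (nat_lit 1) (nat_lit 7) (nat_lit 29) (nat_lit 251) r11_29 r4_251 (nat_lit 0) (nat_lit 0) (nat_lit 0) (nat_lit 0x7df52e0f2a) (nat_lit 1002453192),
  Rx.mk (nat_lit 116) (nat_lit 4) (nat_lit 6) (nat_lit 1) (nat_lit 6) (nat_lit 23) (nat_lit 245) r11_23 r4_245 (nat_lit 0) (nat_lit 0) (nat_lit 0) (nat_lit 0x7e8d7ec986) (nat_lit 710404344),
  Rx.mk (nat_lit 119) (nat_lit 7) (nat_lit 6) (nat_lit 1) (nat_lit 7) (nat_lit 32) (nat_lit 248) r11_32 r4_248 (nat_lit 0) (nat_lit 0) (nat_lit 0) (nat_lit 0x7ef9498c6e) (nat_lit 503724312),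
  Rx.mk (nat_lit 180) (nat_lit 4) (nat_lit 6) (nat_lit 2) (nat_lit 6) (nat_lit 24) (nat_lit 246) r11_24 r4_246 (nat_lit 0) (nat_lit 0) (nat_lit 0) (nat_lit 0x7d40c096b6) (nat_lit 1348404408),
  Rx.mk (nat_lit 183) (nat_lit 7) (nat_lit 6) (nat_lit 2) (nat_lit 7) (nat_lit 33) (nat_lit 249) r11_33 r4_249 (nat_lit 0) (nat_lit 0) (nat_lit 0) (nat_lit 0x7ea772ea2a) (nat_lit 660640968),
  Rx.mk (nat_lit 212) (nat_lit 4) (nat_lit 2) (nat_lit 3) (nat_lit 6) (nat_lit 27) (nat_lit 243) r11_27 r4_243 (nat_lit 0) (nat_lit 0) (nat_lit 0) (nat_lit 0x7e356d4af6) (nat_lit 879266232),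
  Rx.mk (nat_lit 214) (nat_lit 6) (nat_lit 2) (nat_lit 3) (nat_lit 7) (nat_lit 30) (nat_lit 252) r11_30 r4_252 (nat_lit 0) (nat_lit 0) (nat_lit 0) (nat_lit 0x7e1d7e2a00) (nat_lit 925157376)]
noncomputable def e32_5 : List Rx := [
  Rx.mk (nat_lit 258) (nat_lit 2) (nat_lit 0) (nat_lit 4) (nat_lit 1) (nat_lit 45) (nat_lit 232) r11_45 r3_232 (nat_lit 0) (nat_lit 0) (nat_lit 0) (nat_lit 0x7f8a217e5e) (nat_lit 226001880),
  Rx.mk (nat_lit 262) (nat_lit 6) (nat_lit 0) (nat_lit 4) (nat_lit 1) (nat_lit 41) (nat_lit 230) r11_41 r3_230 (nat_lit 0) (nat_lit 0) (nat_lit 0) (nat_lit 0x7f8a217e5e) (nat_lit 226001880),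
  Rx.mk (nat_lit 278) (nat_lit 6) (nat_lit 2) (nat_lit 4) (nat_lit 3) (nat_lit 43) (nat_lit 236) r11_43 r3_236 (nat_lit 0) (nat_lit 0) (nat_lit 0) (nat_lit 0x74e254a5d4) (nat_lit 5456275344),
  Rx.mk (nat_lit 282) (nat_lit 2) (nat_lit 3) (nat_lit 4) (nat_lit 3) (nat_lit 47) (nat_lit 234) r11_47 r3_234 (nat_lit 0) (nat_lit 0) (nat_lit 0) (nat_lit 0x7f1946ac7c) (nat_lit 442389168),
  Rx.mk (nat_lit 386) (nat_lit 2) (nat_lit 0) (nat_lit 6) (nat_lit 5) (nat_lit 46) (nat_lit 233) r11_46 r3_233 (nat_lit 0) (nat_lit 0) (nat_lit 0) (nat_lit 0x74e254a5d4) (nat_lit 5456275344),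
  Rx.mk (nat_lit 410) (nat_lit 2) (nat_lit 3) (nat_lit 6) (nat_lit 7) (nat_lit 48) (nat_lit 235) r11_48 r3_235 (nat_lit 0) (nat_lit 0) (nat_lit 0) (nat_lit 0x7f616e09be) (nat_lit 304041816),
  Rx.mk (nat_lit 454) (nat_lit 6) (nat_lit 0) (nat_lit 7) (nat_lit 5) (nat_lit 42) (nat_lit 231) r11_42 r3_231 (nat_lit 0) (nat_lit 0) (nat_lit 0) (nat_lit 0x7f1946ac7c) (nat_lit 442389168),
  Rx.mk (nat_lit 470) (nat_lit 6) (nat_lit 2) (nat_lit 7) (nat_lit 7) (nat_lit 44) (nat_lit 237) r11_44 r3_237 (nat_lit 0) (nat_lit 0) (nat_lit 0) (nat_lit 0x7f616e09be) (nat_lit 304041816)]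
noncomputable def e32_6 : List Rx := [
  Rx.mk (nat_lit 258) (nat_lit 2) (nat_lit 0) (nat_lit 4) (nat_lit 1) (nat_lit 53) (nat_lit 238) r11_53 r0_238 (nat_lit 0) (nat_lit 0) (nat_lit 0) (nat_lit 0x604a433b84) (nat_lit 15564918096),
  Rx.mk (nat_lit 262) (nat_lit 6) (nat_lit 0) (nat_lit 4) (nat_lit 1) (nat_lit 49) (nat_lit 236) r11_49 r0_236 (nat_lit 0) (nat_lit 0) (nat_lit 0) (nat_lit 0x7a6c44a14a) (nat_lit 2737527624),
  Rx.mk (nat_lit 278) (nat_lit 6) (nat_lit 2) (nat_lit 4) (nat_lit 3) (nat_lit 51) (nat_lit 241) r11_51 r0_241 (nat_lit 0) (nat_lit 0) (nat_lit 0) (nat_lit 0x7e8bdea38a) (nat_lit 713521224),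
  Rx.mk (nat_lit 322) (nat_lit 2) (nat_lit 0) (nat_lit 5) (nat_lit 5) (nat_lit 54) (nat_lit 239) r11_54 r0_239 (nat_lit 0) (nat_lit 0) (nat_lit 0) (nat_lit 0x7a40d59866) (nat_lit 2820807288),
  Rx.mk (nat_lit 326) (nat_lit 6) (nat_lit 0) (nat_lit 5) (nat_lit 5) (nat_lit 50) (nat_lit 237) r11_50 r0_237 (nat_lit 0) (nat_lit 0) (nat_lit 0) (nat_lit 0x7ff1a7c592) (nat_lit 27504360),
  Rx.mk (nat_lit 342) (nat_lit 6) (nat_lit 2) (nat_lit 5) (nat_lit 7) (nat_lit 52) (nat_lit 242) r11_52 r0_242 (nat_lit 0) (nat_lit 0) (nat_lit 0) (nat_lit 0x7fcf076fba) (nat_lit 93896712),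
  Rx.mk (nat_lit 386) (nat_lit 2) (nat_lit 0) (nat_lit 6) (nat_lit 5) (nat_lit 55) (nat_lit 240) r11_55 r0_240 (nat_lit 0) (nat_lit 0) (nat_lit 0) (nat_lit 0x7407d02ef6) (nat_lit 5875259832)]
noncomputable def e32_7 : List Rx := [
  Rx.mk (nat_lit 322) (nat_lit 2) (nat_lit 0) (nat_lit 5) (nat_lit 5) (nat_lit 58) (nat_lit 250) r11_58 r1_250 (nat_lit 0) (nat_lit 0) (nat_lit 0) (nat_lit 0x7e7e4b3cce) (nat_lit 739551384),
  Rx.mk (nat_lit 326) (nat_lit 6) (nat_lit 0) (nat_lit 5) (nat_lit 5) (nat_lit 56) (nat_lit 249) r11_56 r1_249 (nat_lit 0) (nat_lit 0) (nat_lit 0) (nat_lit 0x7fd9fb0076) (nat_lit 72898488),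
  Rx.mk (nat_lit 342) (nat_lit 6) (nat_lit 2) (nat_lit 5) (nat_lit 7) (nat_lit 57) (nat_lit 251) r11_57 r1_251 (nat_lit 0) (nat_lit 0) (nat_lit 0) (nat_lit 0x7f3f574b4c) (nat_lit 369403632)]
noncomputable def e32_8 : List Rx := [
  Rx.mk (nat_lit 258) (nat_lit 2) (nat_lit 0) (nat_lit 4) (nat_lit 1) (nat_lit 65) (nat_lit 244) r11_65 r4_244 (nat_lit 0) (nat_lit 0) (nat_lit 0) (nat_lit 0x6bf3fab462) (nat_lit 9840116520),
  Rx.mk (nat_lit 262) (nat_lit 6) (nat_lit 0) (nat_lit 4) (nat_lit 1) (nat_lit 59) (nat_lit 241) r11_59 r4_241 (nat_lit 0) (nat_lit 0) (nat_lit 0) (nat_lit 0x75f067639a) (nat_lit 4938438024),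
  Rx.mk (nat_lit 278) (nat_lit 6) (nat_lit 2) (nat_lit 4) (nat_lit 3) (nat_lit 62) (nat_lit 250) r11_62 r4_250 (nat_lit 0) (nat_lit 0) (nat_lit 0) (nat_lit 0x7dda8599cc) (nat_lit 1053567216),
  Rx.mk (nat_lit 282) (nat_lit 2) (nat_lit 3) (nat_lit 4) (nat_lit 3) (nat_lit 68) (nat_lit 247) r11_68 r4_247 (nat_lit 0) (nat_lit 0) (nat_lit 0) (nat_lit 0x6e389aa81e) (nat_lit 8726828760),
  Rx.mk (nat_lit 322) (nat_lit 2) (nat_lit 0) (nat_lit 5) (nat_lit 5) (nat_lit 66) (nat_lit 245) r11_66 r4_245 (nat_lit 0) (nat_lit 0) (nat_lit 0) (nat_lit 0x7e8d7ec986) (nat_lit 710404344),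
  Rx.mk (nat_lit 326) (nat_lit 6) (nat_lit 0) (nat_lit 5) (nat_lit 5) (nat_lit 60) (nat_lit 242) r11_60 r4_242 (nat_lit 0) (nat_lit 0) (nat_lit 0) (nat_lit 0x7e10d57498) (nat_lit 949429728),
  Rx.mk (nat_lit 342) (nat_lit 6) (nat_lit 2) (nat_lit 5) (nat_lit 7) (nat_lit 63) (nat_lit 251) r11_63 r4_251 (nat_lit 0) (nat_lit 0) (nat_lit 0) (nat_lit 0x7df52e0f2a) (nat_lit 1002453192),
  Rx.mk (nat_lit 346) (nat_lit 2) (nat_lit 3) (nat_lit 5) (nat_lit 7) (nat_lit 69) (nat_lit 248) r11_69 r4_248 (nat_lit 0) (nat_lit 0) (nat_lit 0) (nat_lit 0x7ef9498c6e) (nat_lit 503724312),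
  Rx.mk (nat_lit 386) (nat_lit 2) (nat_lit 0) (nat_lit 6) (nat_lit 5) (nat_lit 67) (nat_lit 246) r11_67 r4_246 (nat_lit 0) (nat_lit 0) (nat_lit 0) (nat_lit 0x7d40c096b6) (nat_lit 1348404408),
  Rx.mk (nat_lit 410) (nat_lit 2) (nat_lit 3) (nat_lit 6) (nat_lit 7) (nat_lit 70) (nat_lit 249) r11_70 r4_249 (nat_lit 0) (nat_lit 0) (nat_lit 0) (nat_lit 0x7ea772ea2a) (nat_lit 660640968),
  Rx.mk (nat_lit 454) (nat_lit 6) (nat_lit 0) (nat_lit 7) (nat_lit 5) (nat_lit 61) (nat_lit 243) r11_61 r4_243 (nat_lit 0) (nat_lit 0) (nat_lit 0) (nat_lit 0x7e356d4af6) (nat_lit 879266232),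
  Rx.mk (nat_lit 470) (nat_lit 6) (nat_lit 2) (nat_lit 7) (nat_lit 7) (nat_lit 64) (nat_lit 252) r11_64 r4_252 (nat_lit 0) (nat_lit 0) (nat_lit 0) (nat_lit 0x7e1d7e2a00) (nat_lit 925157376)]
noncomputable def e32_9 : List Rx := [
  Rx.mk (nat_lit 55) (nat_lit 7) (nat_lit 6) (nat_lit 0) (nat_lit 3) (nat_lit 76) (nat_lit 270) r11_76 r5_270 (nat_lit 0) (nat_lit 0) (nat_lit 0) (nat_lit 0x7edcd813a2) (nat_lit 558261288),
  Rx.mk (nat_lit 183) (nat_lit 7) (nat_lit 6) (nat_lit 2) (nat_lit 7) (nat_lit 77) (nat_lit 272) r11_77 r5_272 (nat_lit 0) (nat_lit 0) (nat_lit 0) (nat_lit 0x7f668ad7ec) (nat_lit 294239088),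
  Rx.mk (nat_lit 212) (nat_lit 4) (nat_lit 2) (nat_lit 3) (nat_lit 6) (nat_lit 72) (nat_lit 268) r11_72 r5_268 (nat_lit 0) (nat_lit 0) (nat_lit 0) (nat_lit 0x7f06f551a4) (nat_lit 477511632),
  Rx.mk (nat_lit 214) (nat_lit 6) (nat_lit 2) (nat_lit 3) (nat_lit 7) (nat_lit 75) (nat_lit 274) r11_75 r5_274 (nat_lit 0) (nat_lit 0) (nat_lit 0) (nat_lit 0x7f7f7d08b0) (nat_lit 246407616),
  Rx.mk (nat_lit 244) (nat_lit 4) (nat_lit 6) (nat_lit 3) (nat_lit 6) (nat_lit 71) (nat_lit 269) r11_71 r5_269 (nat_lit 0) (nat_lit 0) (nat_lit 0) (nat_lit 0x7e74b4b640) (nat_lit 757935360),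
  Rx.mk (nat_lit 247) (nat_lit 7) (nat_lit 6) (nat_lit 3) (nat_lit 7) (nat_lit 78) (nat_lit 271) r11_78 r5_271 (nat_lit 0) (nat_lit 0) (nat_lit 0) (nat_lit 0x7f6f268e28) (nat_lit 277733664),
  Rx.mk (nat_lit 282) (nat_lit 2) (nat_lit 3) (nat_lit 4) (nat_lit 3) (nat_lit 80) (nat_lit 265) r11_80 r5_265 (nat_lit 0) (nat_lit 0) (nat_lit 0) (nat_lit 0x7edcd813a2) (nat_lit 558261288),
  Rx.mk (nat_lit 410) (nat_lit 2) (nat_lit 3) (nat_lit 6) (nat_lit 7) (nat_lit 81) (nat_lit 267) r11_81 r5_267 (nat_lit 0) (nat_lit 0) (nat_lit 0) (nat_lit 0x7f668ad7ec) (nat_lit 294239088),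
  Rx.mk (nat_lit 450) (nat_lit 2) (nat_lit 0) (nat_lit 7) (nat_lit 5) (nat_lit 79) (nat_lit 264) r11_79 r5_264 (nat_lit 0) (nat_lit 0) (nat_lit 0) (nat_lit 0x7e74b4b640) (nat_lit 757935360),
  Rx.mk (nat_lit 454) (nat_lit 6) (nat_lit 0) (nat_lit 7) (nat_lit 5) (nat_lit 73) (nat_lit 273) r11_73 r5_273 (nat_lit 0) (nat_lit 0) (nat_lit 0) (nat_lit 0x7f06f551a4) (nat_lit 477511632),
  Rx.mk (nat_lit 470) (nat_lit 6) (nat_lit 2) (nat_lit 7) (nat_lit 7) (nat_lit 74) (nat_lit 275) r11_74 r5_275 (nat_lit 0) (nat_lit 0) (nat_lit 0) (nat_lit 0x7f7f7d08b0) (nat_lit 246407616),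
  Rx.mk (nat_lit 474) (nat_lit 2) (nat_lit 3) (nat_lit 7) (nat_lit 7) (nat_lit 82) (nat_lit 266) r11_82 r5_266 (nat_lit 0) (nat_lit 0) (nat_lit 0) (nat_lit 0x7f6f268e28) (nat_lit 277733664)]
noncomputable def e32_10 : List Rx := [
  Rx.mk (nat_lit 20) (nat_lit 4) (nat_lit 2) (nat_lit 0) (nat_lit 2) (nat_lit 92) (nat_lit 238) r11_92 r0_238 (nat_lit 0) (nat_lit 0) (nat_lit 0) (nat_lit 0x604a433b84) (nat_lit 15564918096),
  Rx.mk (nat_lit 21) (nat_lit 5) (nat_lit 2) (nat_lit 0) (nat_lit 3) (nat_lit 95) (nat_lit 239) r11_95 r0_239 (nat_lit 0) (nat_lit 0) (nat_lit 0) (nat_lit 0x7a40d59866) (nat_lit 2820807288),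
  Rx.mk (nat_lit 22) (nat_lit 6) (nat_lit 2) (nat_lit 0) (nat_lit 3) (nat_lit 96) (nat_lit 240) r11_96 r0_240 (nat_lit 0) (nat_lit 0) (nat_lit 0) (nat_lit 0x7407d02ef6) (nat_lit 5875259832),
  Rx.mk (nat_lit 52) (nat_lit 4) (nat_lit 6) (nat_lit 0) (nat_lit 2) (nat_lit 90) (nat_lit 236) r11_90 r0_236 (nat_lit 0) (nat_lit 0) (nat_lit 0) (nat_lit 0x7a6c44a14a) (nat_lit 2737527624),
  Rx.mk (nat_lit 53) (nat_lit 5) (nat_lit 6) (nat_lit 0) (nat_lit 3) (nat_lit 93) (nat_lit 237) r11_93 r0_237 (nat_lit 0) (nat_lit 0) (nat_lit 0) (nat_lit 0x7ff1a7c592) (nat_lit 27504360),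
  Rx.mk (nat_lit 180) (nat_lit 4) (nat_lit 6) (nat_lit 2) (nat_lit 6) (nat_lit 91) (nat_lit 241) r11_91 r0_241 (nat_lit 0) (nat_lit 0) (nat_lit 0) (nat_lit 0x7e8bdea38a) (nat_lit 713521224),
  Rx.mk (nat_lit 181) (nat_lit 5) (nat_lit 6) (nat_lit 2) (nat_lit 7) (nat_lit 94) (nat_lit 242) r11_94 r0_242 (nat_lit 0) (nat_lit 0) (nat_lit 0) (nat_lit 0x7fcf076fba) (nat_lit 93896712)]
noncomputable def e32_11 : List Rx := [
  Rx.mk (nat_lit 20) (nat_lit 4) (nat_lit 2) (nat_lit 0) (nat_lit 2) (nat_lit 100) (nat_lit 303) r11_100 r6_303 (nat_lit 0) (nat_lit 0) (nat_lit 0) (nat_lit 0x76404205a0) (nat_lit 4785326208),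
  Rx.mk (nat_lit 21) (nat_lit 5) (nat_lit 2) (nat_lit 0) (nat_lit 3) (nat_lit 105) (nat_lit 308) r11_105 r6_308 (nat_lit 0) (nat_lit 0) (nat_lit 0) (nat_lit 0x7e4cddb3d8) (nat_lit 834324192),
  Rx.mk (nat_lit 22) (nat_lit 6) (nat_lit 2) (nat_lit 0) (nat_lit 3) (nat_lit 107) (nat_lit 313) r11_107 r6_313 (nat_lit 0) (nat_lit 0) (nat_lit 0) (nat_lit 0x7e9290b862) (nat_lit 700683048),
  Rx.mk (nat_lit 52) (nat_lit 4) (nat_lit 6) (nat_lit 0) (nat_lit 2) (nat_lit 97) (nat_lit 305) r11_97 r6_305 (nat_lit 0) (nat_lit 0) (nat_lit 0) (nat_lit 0x76404205a0) (nat_lit 4785326208),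
  Rx.mk (nat_lit 53) (nat_lit 5) (nat_lit 6) (nat_lit 0) (nat_lit 3) (nat_lit 102) (nat_lit 310) r11_102 r6_310 (nat_lit 0) (nat_lit 0) (nat_lit 0) (nat_lit 0x7e974b4cb4) (nat_lit 691616016),
  Rx.mk (nat_lit 84) (nat_lit 4) (nat_lit 2) (nat_lit 1) (nat_lit 6) (nat_lit 101) (nat_lit 304) r11_101 r6_304 (nat_lit 0) (nat_lit 0) (nat_lit 0) (nat_lit 0x7e974b4cb4) (nat_lit 691616016),
  Rx.mk (nat_lit 85) (nat_lit 5) (nat_lit 2) (nat_lit 1) (nat_lit 7) (nat_lit 106) (nat_lit 309) r11_106 r6_309 (nat_lit 0) (nat_lit 0) (nat_lit 0) (nat_lit 0x7deae7b39a) (nat_lit 1022154120),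
  Rx.mk (nat_lit 86) (nat_lit 6) (nat_lit 2) (nat_lit 1) (nat_lit 7) (nat_lit 108) (nat_lit 314) r11_108 r6_314 (nat_lit 0) (nat_lit 0) (nat_lit 0) (nat_lit 0x7e672d4ec4) (nat_lit 783875664),
  Rx.mk (nat_lit 116) (nat_lit 4) (nat_lit 6) (nat_lit 1) (nat_lit 6) (nat_lit 98) (nat_lit 306) r11_98 r6_306 (nat_lit 0) (nat_lit 0) (nat_lit 0) (nat_lit 0x7e4cddb3d8) (nat_lit 834324192),
  Rx.mk (nat_lit 117) (nat_lit 5) (nat_lit 6) (nat_lit 1) (nat_lit 7) (nat_lit 103) (nat_lit 311) r11_103 r6_311 (nat_lit 0) (nat_lit 0) (nat_lit 0) (nat_lit 0x7deae7b39a) (nat_lit 1022154120),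
  Rx.mk (nat_lit 180) (nat_lit 4) (nat_lit 6) (nat_lit 2) (nat_lit 6) (nat_lit 99) (nat_lit 307) r11_99 r6_307 (nat_lit 0) (nat_lit 0) (nat_lit 0) (nat_lit 0x7e9290b862) (nat_lit 700683048),
  Rx.mk (nat_lit 181) (nat_lit 5) (nat_lit 6) (nat_lit 2) (nat_lit 7) (nat_lit 104) (nat_lit 312) r11_104 r6_312 (nat_lit 0) (nat_lit 0) (nat_lit 0) (nat_lit 0x7e672d4ec4) (nat_lit 783875664)]
noncomputable def e32_12 : List Rx := [
  Rx.mk (nat_lit 21) (nat_lit 5) (nat_lit 2) (nat_lit 0) (nat_lit 3) (nat_lit 111) (nat_lit 250) r11_111 r1_250 (nat_lit 0) (nat_lit 0) (nat_lit 0) (nat_lit 0x7e7e4b3cce) (nat_lit 739551384),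
  Rx.mk (nat_lit 53) (nat_lit 5) (nat_lit 6) (nat_lit 0) (nat_lit 3) (nat_lit 109) (nat_lit 249) r11_109 r1_249 (nat_lit 0) (nat_lit 0) (nat_lit 0) (nat_lit 0x7fd9fb0076) (nat_lit 72898488),
  Rx.mk (nat_lit 181) (nat_lit 5) (nat_lit 6) (nat_lit 2) (nat_lit 7) (nat_lit 110) (nat_lit 251) r11_110 r1_251 (nat_lit 0) (nat_lit 0) (nat_lit 0) (nat_lit 0x7f3f574b4c) (nat_lit 369403632)]
noncomputable def e32_13 : List Rx := [
  Rx.mk (nat_lit 21) (nat_lit 5) (nat_lit 2) (nat_lit 0) (nat_lit 3) (nat_lit 115) (nat_lit 225) r11_115 r7_225 (nat_lit 0) (nat_lit 0) (nat_lit 0) (nat_lit 0x7da1c16648) (nat_lit 1162410912),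
  Rx.mk (nat_lit 53) (nat_lit 5) (nat_lit 6) (nat_lit 0) (nat_lit 3) (nat_lit 112) (nat_lit 227) r11_112 r7_227 (nat_lit 0) (nat_lit 0) (nat_lit 0) (nat_lit 0x7e01a8a774) (nat_lit 978526224),
  Rx.mk (nat_lit 85) (nat_lit 5) (nat_lit 2) (nat_lit 1) (nat_lit 7) (nat_lit 116) (nat_lit 226) r11_116 r7_226 (nat_lit 0) (nat_lit 0) (nat_lit 0) (nat_lit 0x7dc9a2e808) (nat_lit 1085943456),
  Rx.mk (nat_lit 117) (nat_lit 5) (nat_lit 6) (nat_lit 1) (nat_lit 7) (nat_lit 113) (nat_lit 228) r11_113 r7_228 (nat_lit 0) (nat_lit 0) (nat_lit 0) (nat_lit 0x7dddf522d0) (nat_lit 1046979648),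
  Rx.mk (nat_lit 181) (nat_lit 5) (nat_lit 6) (nat_lit 2) (nat_lit 7) (nat_lit 114) (nat_lit 229) r11_114 r7_229 (nat_lit 0) (nat_lit 0) (nat_lit 0) (nat_lit 0x7dcd9548de) (nat_lit 1078375896)]
noncomputable def e32_14 : List Rx := [
  Rx.mk (nat_lit 84) (nat_lit 4) (nat_lit 2) (nat_lit 1) (nat_lit 6) (nat_lit 118) (nat_lit 227) r11_118 r7_227 (nat_lit 0) (nat_lit 0) (nat_lit 0) (nat_lit 0x7e01a8a774) (nat_lit 978526224),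
  Rx.mk (nat_lit 85) (nat_lit 5) (nat_lit 2) (nat_lit 1) (nat_lit 7) (nat_lit 120) (nat_lit 228) r11_120 r7_228 (nat_lit 0) (nat_lit 0) (nat_lit 0) (nat_lit 0x7dddf522d0) (nat_lit 1046979648),
  Rx.mk (nat_lit 86) (nat_lit 6) (nat_lit 2) (nat_lit 1) (nat_lit 7) (nat_lit 121) (nat_lit 229) r11_121 r7_229 (nat_lit 0) (nat_lit 0) (nat_lit 0) (nat_lit 0x7dcd9548de) (nat_lit 1078375896),
  Rx.mk (nat_lit 116) (nat_lit 4) (nat_lit 6) (nat_lit 1) (nat_lit 6) (nat_lit 117) (nat_lit 225) r11_117 r7_225 (nat_lit 0) (nat_lit 0) (nat_lit 0) (nat_lit 0x7da1c16648) (nat_lit 1162410912),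
  Rx.mk (nat_lit 117) (nat_lit 5) (nat_lit 6) (nat_lit 1) (nat_lit 7) (nat_lit 119) (nat_lit 226) r11_119 r7_226 (nat_lit 0) (nat_lit 0) (nat_lit 0) (nat_lit 0x7dc9a2e808) (nat_lit 1085943456)]
noncomputable def e32_15 : List Rx := [
  Rx.mk (nat_lit 84) (nat_lit 4) (nat_lit 2) (nat_lit 1) (nat_lit 6) (nat_lit 122) (nat_lit 244) r11_122 r8_244 (nat_lit 0) (nat_lit 0) (nat_lit 0) (nat_lit 0x7d6133cf62) (nat_lit 1286184744),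
  Rx.mk (nat_lit 85) (nat_lit 5) (nat_lit 2) (nat_lit 1) (nat_lit 7) (nat_lit 123) (nat_lit 245) r11_123 r8_245 (nat_lit 0) (nat_lit 0) (nat_lit 0) (nat_lit 0x7de71770a2) (nat_lit 1029466152),
  Rx.mk (nat_lit 86) (nat_lit 6) (nat_lit 2) (nat_lit 1) (nat_lit 7) (nat_lit 125) (nat_lit 246) r11_125 r8_246 (nat_lit 0) (nat_lit 0) (nat_lit 0) (nat_lit 0x7de2f0331a) (nat_lit 1037429640),
  Rx.mk (nat_lit 342) (nat_lit 6) (nat_lit 2) (nat_lit 5) (nat_lit 7) (nat_lit 124) (nat_lit 247) r11_124 r8_247 (nat_lit 0) (nat_lit 0) (nat_lit 0) (nat_lit 0x7dbdfec256) (nat_lit 1108264248)]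
noncomputable def e32_16 : List Rx := [
  Rx.mk (nat_lit 20) (nat_lit 4) (nat_lit 2) (nat_lit 0) (nat_lit 2) (nat_lit 128) (nat_lit 244) r11_128 r4_244 (nat_lit 0) (nat_lit 0) (nat_lit 0) (nat_lit 0x6bf3fab462) (nat_lit 9840116520),
  Rx.mk (nat_lit 21) (nat_lit 5) (nat_lit 2) (nat_lit 0) (nat_lit 3) (nat_lit 132) (nat_lit 245) r11_132 r4_245 (nat_lit 0) (nat_lit 0) (nat_lit 0) (nat_lit 0x7e8d7ec986) (nat_lit 710404344),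
  Rx.mk (nat_lit 22) (nat_lit 6) (nat_lit 2) (nat_lit 0) (nat_lit 3) (nat_lit 134) (nat_lit 246) r11_134 r4_246 (nat_lit 0) (nat_lit 0) (nat_lit 0) (nat_lit 0x7d40c096b6) (nat_lit 1348404408),
  Rx.mk (nat_lit 52) (nat_lit 4) (nat_lit 6) (nat_lit 0) (nat_lit 2) (nat_lit 126) (nat_lit 241) r11_126 r4_241 (nat_lit 0) (nat_lit 0) (nat_lit 0) (nat_lit 0x75f067639a) (nat_lit 4938438024),
  Rx.mk (nat_lit 53) (nat_lit 5) (nat_lit 6) (nat_lit 0) (nat_lit 3) (nat_lit 130) (nat_lit 242) r11_130 r4_242 (nat_lit 0) (nat_lit 0) (nat_lit 0) (nat_lit 0x7e10d57498) (nat_lit 949429728),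
  Rx.mk (nat_lit 55) (nat_lit 7) (nat_lit 6) (nat_lit 0) (nat_lit 3) (nat_lit 136) (nat_lit 243) r11_136 r4_243 (nat_lit 0) (nat_lit 0) (nat_lit 0) (nat_lit 0x7e356d4af6) (nat_lit 879266232),
  Rx.mk (nat_lit 180) (nat_lit 4) (nat_lit 6) (nat_lit 2) (nat_lit 6) (nat_lit 127) (nat_lit 250) r11_127 r4_250 (nat_lit 0) (nat_lit 0) (nat_lit 0) (nat_lit 0x7dda8599cc) (nat_lit 1053567216),
  Rx.mk (nat_lit 181) (nat_lit 5) (nat_lit 6) (nat_lit 2) (nat_lit 7) (nat_lit 131) (nat_lit 251) r11_131 r4_251 (nat_lit 0) (nat_lit 0) (nat_lit 0) (nat_lit 0x7df52e0f2a) (nat_lit 1002453192),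
  Rx.mk (nat_lit 183) (nat_lit 7) (nat_lit 6) (nat_lit 2) (nat_lit 7) (nat_lit 137) (nat_lit 252) r11_137 r4_252 (nat_lit 0) (nat_lit 0) (nat_lit 0) (nat_lit 0x7e1d7e2a00) (nat_lit 925157376),
  Rx.mk (nat_lit 212) (nat_lit 4) (nat_lit 2) (nat_lit 3) (nat_lit 6) (nat_lit 129) (nat_lit 247) r11_129 r4_247 (nat_lit 0) (nat_lit 0) (nat_lit 0) (nat_lit 0x6e389aa81e) (nat_lit 8726828760),
  Rx.mk (nat_lit 213) (nat_lit 5) (nat_lit 2) (nat_lit 3) (nat_lit 7) (nat_lit 133) (nat_lit 248) r11_133 r4_248 (nat_lit 0) (nat_lit 0) (nat_lit 0) (nat_lit 0x7ef9498c6e) (nat_lit 503724312),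
  Rx.mk (nat_lit 214) (nat_lit 6) (nat_lit 2) (nat_lit 3) (nat_lit 7) (nat_lit 135) (nat_lit 249) r11_135 r4_249 (nat_lit 0) (nat_lit 0) (nat_lit 0) (nat_lit 0x7ea772ea2a) (nat_lit 660640968)]
noncomputable def e32_17 : List Rx := [
  Rx.mk (nat_lit 20) (nat_lit 4) (nat_lit 2) (nat_lit 0) (nat_lit 2) (nat_lit 141) (nat_lit 257) r11_141 r9_257 (nat_lit 0) (nat_lit 0) (nat_lit 0) (nat_lit 0x7170076e1a) (nat_lit 7147997064),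
  Rx.mk (nat_lit 21) (nat_lit 5) (nat_lit 2) (nat_lit 0) (nat_lit 3) (nat_lit 146) (nat_lit 263) r11_146 r9_263 (nat_lit 0) (nat_lit 0) (nat_lit 0) (nat_lit 0x7e2a064172) (nat_lit 901129320),
  Rx.mk (nat_lit 22) (nat_lit 6) (nat_lit 2) (nat_lit 0) (nat_lit 3) (nat_lit 148) (nat_lit 270) r11_148 r9_270 (nat_lit 0) (nat_lit 0) (nat_lit 0) (nat_lit 0x7e7b750a34) (nat_lit 744990480),
  Rx.mk (nat_lit 52) (nat_lit 4) (nat_lit 6) (nat_lit 0) (nat_lit 2) (nat_lit 138) (nat_lit 260) r11_138 r9_260 (nat_lit 0) (nat_lit 0) (nat_lit 0) (nat_lit 0x7170076e1a) (nat_lit 7147997064),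
  Rx.mk (nat_lit 53) (nat_lit 5) (nat_lit 6) (nat_lit 0) (nat_lit 3) (nat_lit 144) (nat_lit 265) r11_144 r9_265 (nat_lit 0) (nat_lit 0) (nat_lit 0) (nat_lit 0x7e73fee19e) (nat_lit 759297240),
  Rx.mk (nat_lit 55) (nat_lit 7) (nat_lit 6) (nat_lit 0) (nat_lit 3) (nat_lit 151) (nat_lit 267) r11_151 r9_267 (nat_lit 0) (nat_lit 0) (nat_lit 0) (nat_lit 0x7e504d3cdc) (nat_lit 827736624),
  Rx.mk (nat_lit 84) (nat_lit 4) (nat_lit 2) (nat_lit 1) (nat_lit 6) (nat_lit 142) (nat_lit 258) r11_142 r9_258 (nat_lit 0) (nat_lit 0) (nat_lit 0) (nat_lit 0x7e73fee19e) (nat_lit 759297240),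
  Rx.mk (nat_lit 86) (nat_lit 6) (nat_lit 2) (nat_lit 1) (nat_lit 7) (nat_lit 149) (nat_lit 271) r11_149 r9_271 (nat_lit 0) (nat_lit 0) (nat_lit 0) (nat_lit 0x7df00ea126) (nat_lit 1012275576),
  Rx.mk (nat_lit 116) (nat_lit 4) (nat_lit 6) (nat_lit 1) (nat_lit 6) (nat_lit 139) (nat_lit 261) r11_139 r9_261 (nat_lit 0) (nat_lit 0) (nat_lit 0) (nat_lit 0x7e2a064172) (nat_lit 901129320),
  Rx.mk (nat_lit 119) (nat_lit 7) (nat_lit 6) (nat_lit 1) (nat_lit 7) (nat_lit 152) (nat_lit 268) r11_152 r9_268 (nat_lit 0) (nat_lit 0) (nat_lit 0) (nat_lit 0x7df1f96278) (nat_lit 1008599904),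
  Rx.mk (nat_lit 180) (nat_lit 4) (nat_lit 6) (nat_lit 2) (nat_lit 6) (nat_lit 140) (nat_lit 262) r11_140 r9_262 (nat_lit 0) (nat_lit 0) (nat_lit 0) (nat_lit 0x7e7b750a34) (nat_lit 744990480),
  Rx.mk (nat_lit 181) (nat_lit 5) (nat_lit 6) (nat_lit 2) (nat_lit 7) (nat_lit 145) (nat_lit 266) r11_145 r9_266 (nat_lit 0) (nat_lit 0) (nat_lit 0) (nat_lit 0x7df00ea126) (nat_lit 1012275576),
  Rx.mk (nat_lit 183) (nat_lit 7) (nat_lit 6) (nat_lit 2) (nat_lit 7) (nat_lit 153) (nat_lit 269) r11_153 r9_269 (nat_lit 0) (nat_lit 0) (nat_lit 0) (nat_lit 0x7dd0d29506) (nat_lit 1072164600),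
  Rx.mk (nat_lit 212) (nat_lit 4) (nat_lit 2) (nat_lit 3) (nat_lit 6) (nat_lit 143) (nat_lit 259) r11_143 r9_259 (nat_lit 0) (nat_lit 0) (nat_lit 0) (nat_lit 0x7e504d3cdc) (nat_lit 827736624),
  Rx.mk (nat_lit 213) (nat_lit 5) (nat_lit 2) (nat_lit 3) (nat_lit 7) (nat_lit 147) (nat_lit 264) r11_147 r9_264 (nat_lit 0) (nat_lit 0) (nat_lit 0) (nat_lit 0x7df1f96278) (nat_lit 1008599904),
  Rx.mk (nat_lit 214) (nat_lit 6) (nat_lit 2) (nat_lit 3) (nat_lit 7) (nat_lit 150) (nat_lit 272) r11_150 r9_272 (nat_lit 0) (nat_lit 0) (nat_lit 0) (nat_lit 0x7dd0d29506) (nat_lit 1072164600)]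
noncomputable def e32_18 : List Rx := [
  Rx.mk (nat_lit 52) (nat_lit 4) (nat_lit 6) (nat_lit 0) (nat_lit 2) (nat_lit 154) (nat_lit 288) r11_154 r10_288 (nat_lit 0) (nat_lit 0) (nat_lit 0) (nat_lit 0x73c76ed54c) (nat_lit 5998702320),
  Rx.mk (nat_lit 53) (nat_lit 5) (nat_lit 6) (nat_lit 0) (nat_lit 3) (nat_lit 158) (nat_lit 292) r11_158 r10_292 (nat_lit 0) (nat_lit 0) (nat_lit 0) (nat_lit 0x7dd14ded50) (nat_lit 1071240768),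
  Rx.mk (nat_lit 55) (nat_lit 7) (nat_lit 6) (nat_lit 0) (nat_lit 3) (nat_lit 163) (nat_lit 295) r11_163 r10_295 (nat_lit 0) (nat_lit 0) (nat_lit 0) (nat_lit 0x7d8b3fce78) (nat_lit 1205564256),
  Rx.mk (nat_lit 180) (nat_lit 4) (nat_lit 6) (nat_lit 2) (nat_lit 6) (nat_lit 155) (nat_lit 290) r11_155 r10_290 (nat_lit 0) (nat_lit 0) (nat_lit 0) (nat_lit 0x7e5f76aa36) (nat_lit 798665400),
  Rx.mk (nat_lit 181) (nat_lit 5) (nat_lit 6) (nat_lit 2) (nat_lit 7) (nat_lit 159) (nat_lit 294) r11_159 r10_294 (nat_lit 0) (nat_lit 0) (nat_lit 0) (nat_lit 0x7df4cdb530) (nat_lit 1003174848),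
  Rx.mk (nat_lit 183) (nat_lit 7) (nat_lit 6) (nat_lit 2) (nat_lit 7) (nat_lit 164) (nat_lit 296) r11_164 r10_296 (nat_lit 0) (nat_lit 0) (nat_lit 0) (nat_lit 0x7def628be8) (nat_lit 1013564448),
  Rx.mk (nat_lit 212) (nat_lit 4) (nat_lit 2) (nat_lit 3) (nat_lit 6) (nat_lit 157) (nat_lit 287) r11_157 r10_287 (nat_lit 0) (nat_lit 0) (nat_lit 0) (nat_lit 0x7eeaa716a4) (nat_lit 531784656),
  Rx.mk (nat_lit 213) (nat_lit 5) (nat_lit 2) (nat_lit 3) (nat_lit 7) (nat_lit 161) (nat_lit 291) r11_161 r10_291 (nat_lit 0) (nat_lit 0) (nat_lit 0) (nat_lit 0x7ed7099090) (nat_lit 569395008),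
  Rx.mk (nat_lit 214) (nat_lit 6) (nat_lit 2) (nat_lit 3) (nat_lit 7) (nat_lit 162) (nat_lit 297) r11_162 r10_297 (nat_lit 0) (nat_lit 0) (nat_lit 0) (nat_lit 0x7ed6cb5474) (nat_lit 569861136),
  Rx.mk (nat_lit 244) (nat_lit 4) (nat_lit 6) (nat_lit 3) (nat_lit 6) (nat_lit 156) (nat_lit 289) r11_156 r10_289 (nat_lit 0) (nat_lit 0) (nat_lit 0) (nat_lit 0x7d45698c22) (nat_lit 1339469352),
  Rx.mk (nat_lit 245) (nat_lit 5) (nat_lit 6) (nat_lit 3) (nat_lit 7) (nat_lit 160) (nat_lit 293) r11_160 r10_293 (nat_lit 0) (nat_lit 0) (nat_lit 0) (nat_lit 0x7df4f75296) (nat_lit 1002863160)]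
noncomputable def e32_19 : List Rx := [
  Rx.mk (nat_lit 86) (nat_lit 6) (nat_lit 2) (nat_lit 1) (nat_lit 7) (nat_lit 168) (nat_lit 247) r11_168 r8_247 (nat_lit 0) (nat_lit 0) (nat_lit 0) (nat_lit 0x7dbdfec256) (nat_lit 1108264248),
  Rx.mk (nat_lit 326) (nat_lit 6) (nat_lit 0) (nat_lit 5) (nat_lit 5) (nat_lit 165) (nat_lit 244) r11_165 r8_244 (nat_lit 0) (nat_lit 0) (nat_lit 0) (nat_lit 0x7d6133cf62) (nat_lit 1286184744),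
  Rx.mk (nat_lit 334) (nat_lit 6) (nat_lit 1) (nat_lit 5) (nat_lit 7) (nat_lit 166) (nat_lit 245) r11_166 r8_245 (nat_lit 0) (nat_lit 0) (nat_lit 0) (nat_lit 0x7de71770a2) (nat_lit 1029466152),
  Rx.mk (nat_lit 342) (nat_lit 6) (nat_lit 2) (nat_lit 5) (nat_lit 7) (nat_lit 167) (nat_lit 246) r11_167 r8_246 (nat_lit 0) (nat_lit 0) (nat_lit 0) (nat_lit 0x7de2f0331a) (nat_lit 1037429640)]
noncomputable def e32_20 : List Rx := [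
  Rx.mk (nat_lit 258) (nat_lit 2) (nat_lit 0) (nat_lit 4) (nat_lit 1) (nat_lit 172) (nat_lit 236) r11_172 r0_236 (nat_lit 0) (nat_lit 0) (nat_lit 0) (nat_lit 0x7a6c44a14a) (nat_lit 2737527624),
  Rx.mk (nat_lit 262) (nat_lit 6) (nat_lit 0) (nat_lit 4) (nat_lit 1) (nat_lit 169) (nat_lit 238) r11_169 r0_238 (nat_lit 0) (nat_lit 0) (nat_lit 0) (nat_lit 0x604a433b84) (nat_lit 15564918096),
  Rx.mk (nat_lit 266) (nat_lit 2) (nat_lit 1) (nat_lit 4) (nat_lit 3) (nat_lit 174) (nat_lit 237) r11_174 r0_237 (nat_lit 0) (nat_lit 0) (nat_lit 0) (nat_lit 0x7ff1a7c592) (nat_lit 27504360),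
  Rx.mk (nat_lit 270) (nat_lit 6) (nat_lit 1) (nat_lit 4) (nat_lit 3) (nat_lit 170) (nat_lit 239) r11_170 r0_239 (nat_lit 0) (nat_lit 0) (nat_lit 0) (nat_lit 0x7a40d59866) (nat_lit 2820807288),
  Rx.mk (nat_lit 278) (nat_lit 6) (nat_lit 2) (nat_lit 4) (nat_lit 3) (nat_lit 171) (nat_lit 240) r11_171 r0_240 (nat_lit 0) (nat_lit 0) (nat_lit 0) (nat_lit 0x7407d02ef6) (nat_lit 5875259832),
  Rx.mk (nat_lit 386) (nat_lit 2) (nat_lit 0) (nat_lit 6) (nat_lit 5) (nat_lit 173) (nat_lit 241) r11_173 r0_241 (nat_lit 0) (nat_lit 0) (nat_lit 0) (nat_lit 0x7e8bdea38a) (nat_lit 713521224),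
  Rx.mk (nat_lit 394) (nat_lit 2) (nat_lit 1) (nat_lit 6) (nat_lit 7) (nat_lit 175) (nat_lit 242) r11_175 r0_242 (nat_lit 0) (nat_lit 0) (nat_lit 0) (nat_lit 0x7fcf076fba) (nat_lit 93896712)]
noncomputable def e32_21 : List Rx := [
  Rx.mk (nat_lit 266) (nat_lit 2) (nat_lit 1) (nat_lit 4) (nat_lit 3) (nat_lit 177) (nat_lit 249) r11_177 r1_249 (nat_lit 0) (nat_lit 0) (nat_lit 0) (nat_lit 0x7fd9fb0076) (nat_lit 72898488),
  Rx.mk (nat_lit 270) (nat_lit 6) (nat_lit 1) (nat_lit 4) (nat_lit 3) (nat_lit 176) (nat_lit 250) r11_176 r1_250 (nat_lit 0) (nat_lit 0) (nat_lit 0) (nat_lit 0x7e7e4b3cce) (nat_lit 739551384),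
  Rx.mk (nat_lit 394) (nat_lit 2) (nat_lit 1) (nat_lit 6) (nat_lit 7) (nat_lit 178) (nat_lit 251) r11_178 r1_251 (nat_lit 0) (nat_lit 0) (nat_lit 0) (nat_lit 0x7f3f574b4c) (nat_lit 369403632)]
noncomputable def e32_22 : List Rx := [
  Rx.mk (nat_lit 258) (nat_lit 2) (nat_lit 0) (nat_lit 4) (nat_lit 1) (nat_lit 185) (nat_lit 241) r11_185 r4_241 (nat_lit 0) (nat_lit 0) (nat_lit 0) (nat_lit 0x75f067639a) (nat_lit 4938438024),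
  Rx.mk (nat_lit 262) (nat_lit 6) (nat_lit 0) (nat_lit 4) (nat_lit 1) (nat_lit 179) (nat_lit 244) r11_179 r4_244 (nat_lit 0) (nat_lit 0) (nat_lit 0) (nat_lit 0x6bf3fab462) (nat_lit 9840116520),
  Rx.mk (nat_lit 266) (nat_lit 2) (nat_lit 1) (nat_lit 4) (nat_lit 3) (nat_lit 187) (nat_lit 242) r11_187 r4_242 (nat_lit 0) (nat_lit 0) (nat_lit 0) (nat_lit 0x7e10d57498) (nat_lit 949429728),
  Rx.mk (nat_lit 270) (nat_lit 6) (nat_lit 1) (nat_lit 4) (nat_lit 3) (nat_lit 181) (nat_lit 245) r11_181 r4_245 (nat_lit 0) (nat_lit 0) (nat_lit 0) (nat_lit 0x7e8d7ec986) (nat_lit 710404344),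
  Rx.mk (nat_lit 278) (nat_lit 6) (nat_lit 2) (nat_lit 4) (nat_lit 3) (nat_lit 183) (nat_lit 246) r11_183 r4_246 (nat_lit 0) (nat_lit 0) (nat_lit 0) (nat_lit 0x7d40c096b6) (nat_lit 1348404408),
  Rx.mk (nat_lit 282) (nat_lit 2) (nat_lit 3) (nat_lit 4) (nat_lit 3) (nat_lit 189) (nat_lit 243) r11_189 r4_243 (nat_lit 0) (nat_lit 0) (nat_lit 0) (nat_lit 0x7e356d4af6) (nat_lit 879266232),
  Rx.mk (nat_lit 386) (nat_lit 2) (nat_lit 0) (nat_lit 6) (nat_lit 5) (nat_lit 186) (nat_lit 250) r11_186 r4_250 (nat_lit 0) (nat_lit 0) (nat_lit 0) (nat_lit 0x7dda8599cc) (nat_lit 1053567216),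
  Rx.mk (nat_lit 394) (nat_lit 2) (nat_lit 1) (nat_lit 6) (nat_lit 7) (nat_lit 188) (nat_lit 251) r11_188 r4_251 (nat_lit 0) (nat_lit 0) (nat_lit 0) (nat_lit 0x7df52e0f2a) (nat_lit 1002453192),
  Rx.mk (nat_lit 410) (nat_lit 2) (nat_lit 3) (nat_lit 6) (nat_lit 7) (nat_lit 190) (nat_lit 252) r11_190 r4_252 (nat_lit 0) (nat_lit 0) (nat_lit 0) (nat_lit 0x7e1d7e2a00) (nat_lit 925157376),
  Rx.mk (nat_lit 454) (nat_lit 6) (nat_lit 0) (nat_lit 7) (nat_lit 5) (nat_lit 180) (nat_lit 247) r11_180 r4_247 (nat_lit 0) (nat_lit 0) (nat_lit 0) (nat_lit 0x6e389aa81e) (nat_lit 8726828760),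
  Rx.mk (nat_lit 462) (nat_lit 6) (nat_lit 1) (nat_lit 7) (nat_lit 7) (nat_lit 182) (nat_lit 248) r11_182 r4_248 (nat_lit 0) (nat_lit 0) (nat_lit 0) (nat_lit 0x7ef9498c6e) (nat_lit 503724312),
  Rx.mk (nat_lit 470) (nat_lit 6) (nat_lit 2) (nat_lit 7) (nat_lit 7) (nat_lit 184) (nat_lit 249) r11_184 r4_249 (nat_lit 0) (nat_lit 0) (nat_lit 0) (nat_lit 0x7ea772ea2a) (nat_lit 660640968)]
noncomputable def e32_23 : List Rx := [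
  Rx.mk (nat_lit 258) (nat_lit 2) (nat_lit 0) (nat_lit 4) (nat_lit 1) (nat_lit 197) (nat_lit 305) r11_197 r6_305 (nat_lit 0) (nat_lit 0) (nat_lit 0) (nat_lit 0x76404205a0) (nat_lit 4785326208),
  Rx.mk (nat_lit 262) (nat_lit 6) (nat_lit 0) (nat_lit 4) (nat_lit 1) (nat_lit 191) (nat_lit 303) r11_191 r6_303 (nat_lit 0) (nat_lit 0) (nat_lit 0) (nat_lit 0x76404205a0) (nat_lit 4785326208),
  Rx.mk (nat_lit 266) (nat_lit 2) (nat_lit 1) (nat_lit 4) (nat_lit 3) (nat_lit 200) (nat_lit 310) r11_200 r6_310 (nat_lit 0) (nat_lit 0) (nat_lit 0) (nat_lit 0x7e974b4cb4) (nat_lit 691616016),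
  Rx.mk (nat_lit 270) (nat_lit 6) (nat_lit 1) (nat_lit 4) (nat_lit 3) (nat_lit 193) (nat_lit 308) r11_193 r6_308 (nat_lit 0) (nat_lit 0) (nat_lit 0) (nat_lit 0x7e4cddb3d8) (nat_lit 834324192),
  Rx.mk (nat_lit 278) (nat_lit 6) (nat_lit 2) (nat_lit 4) (nat_lit 3) (nat_lit 195) (nat_lit 313) r11_195 r6_313 (nat_lit 0) (nat_lit 0) (nat_lit 0) (nat_lit 0x7e9290b862) (nat_lit 700683048),
  Rx.mk (nat_lit 322) (nat_lit 2) (nat_lit 0) (nat_lit 5) (nat_lit 5) (nat_lit 198) (nat_lit 306) r11_198 r6_306 (nat_lit 0) (nat_lit 0) (nat_lit 0) (nat_lit 0x7e4cddb3d8) (nat_lit 834324192),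
  Rx.mk (nat_lit 326) (nat_lit 6) (nat_lit 0) (nat_lit 5) (nat_lit 5) (nat_lit 192) (nat_lit 304) r11_192 r6_304 (nat_lit 0) (nat_lit 0) (nat_lit 0) (nat_lit 0x7e974b4cb4) (nat_lit 691616016),
  Rx.mk (nat_lit 330) (nat_lit 2) (nat_lit 1) (nat_lit 5) (nat_lit 7) (nat_lit 201) (nat_lit 311) r11_201 r6_311 (nat_lit 0) (nat_lit 0) (nat_lit 0) (nat_lit 0x7deae7b39a) (nat_lit 1022154120),
  Rx.mk (nat_lit 334) (nat_lit 6) (nat_lit 1) (nat_lit 5) (nat_lit 7) (nat_lit 194) (nat_lit 309) r11_194 r6_309 (nat_lit 0) (nat_lit 0) (nat_lit 0) (nat_lit 0x7deae7b39a) (nat_lit 1022154120),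
  Rx.mk (nat_lit 342) (nat_lit 6) (nat_lit 2) (nat_lit 5) (nat_lit 7) (nat_lit 196) (nat_lit 314) r11_196 r6_314 (nat_lit 0) (nat_lit 0) (nat_lit 0) (nat_lit 0x7e672d4ec4) (nat_lit 783875664),
  Rx.mk (nat_lit 386) (nat_lit 2) (nat_lit 0) (nat_lit 6) (nat_lit 5) (nat_lit 199) (nat_lit 307) r11_199 r6_307 (nat_lit 0) (nat_lit 0) (nat_lit 0) (nat_lit 0x7e9290b862) (nat_lit 700683048),
  Rx.mk (nat_lit 394) (nat_lit 2) (nat_lit 1) (nat_lit 6) (nat_lit 7) (nat_lit 202) (nat_lit 312) r11_202 r6_312 (nat_lit 0) (nat_lit 0) (nat_lit 0) (nat_lit 0x7e672d4ec4) (nat_lit 783875664)]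
noncomputable def e32_24 : List Rx := [
  Rx.mk (nat_lit 266) (nat_lit 2) (nat_lit 1) (nat_lit 4) (nat_lit 3) (nat_lit 205) (nat_lit 227) r11_205 r7_227 (nat_lit 0) (nat_lit 0) (nat_lit 0) (nat_lit 0x7e01a8a774) (nat_lit 978526224),
  Rx.mk (nat_lit 270) (nat_lit 6) (nat_lit 1) (nat_lit 4) (nat_lit 3) (nat_lit 203) (nat_lit 225) r11_203 r7_225 (nat_lit 0) (nat_lit 0) (nat_lit 0) (nat_lit 0x7da1c16648) (nat_lit 1162410912),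
  Rx.mk (nat_lit 330) (nat_lit 2) (nat_lit 1) (nat_lit 5) (nat_lit 7) (nat_lit 206) (nat_lit 228) r11_206 r7_228 (nat_lit 0) (nat_lit 0) (nat_lit 0) (nat_lit 0x7dddf522d0) (nat_lit 1046979648),
  Rx.mk (nat_lit 334) (nat_lit 6) (nat_lit 1) (nat_lit 5) (nat_lit 7) (nat_lit 204) (nat_lit 226) r11_204 r7_226 (nat_lit 0) (nat_lit 0) (nat_lit 0) (nat_lit 0x7dc9a2e808) (nat_lit 1085943456),
  Rx.mk (nat_lit 394) (nat_lit 2) (nat_lit 1) (nat_lit 6) (nat_lit 7) (nat_lit 207) (nat_lit 229) r11_207 r7_229 (nat_lit 0) (nat_lit 0) (nat_lit 0) (nat_lit 0x7dcd9548de) (nat_lit 1078375896)]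
noncomputable def e32_25 : List Rx := [
  Rx.mk (nat_lit 322) (nat_lit 2) (nat_lit 0) (nat_lit 5) (nat_lit 5) (nat_lit 211) (nat_lit 225) r11_211 r7_225 (nat_lit 0) (nat_lit 0) (nat_lit 0) (nat_lit 0x7da1c16648) (nat_lit 1162410912),
  Rx.mk (nat_lit 326) (nat_lit 6) (nat_lit 0) (nat_lit 5) (nat_lit 5) (nat_lit 208) (nat_lit 227) r11_208 r7_227 (nat_lit 0) (nat_lit 0) (nat_lit 0) (nat_lit 0x7e01a8a774) (nat_lit 978526224),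
  Rx.mk (nat_lit 330) (nat_lit 2) (nat_lit 1) (nat_lit 5) (nat_lit 7) (nat_lit 212) (nat_lit 226) r11_212 r7_226 (nat_lit 0) (nat_lit 0) (nat_lit 0) (nat_lit 0x7dc9a2e808) (nat_lit 1085943456),
  Rx.mk (nat_lit 334) (nat_lit 6) (nat_lit 1) (nat_lit 5) (nat_lit 7) (nat_lit 209) (nat_lit 228) r11_209 r7_228 (nat_lit 0) (nat_lit 0) (nat_lit 0) (nat_lit 0x7dddf522d0) (nat_lit 1046979648),
  Rx.mk (nat_lit 342) (nat_lit 6) (nat_lit 2) (nat_lit 5) (nat_lit 7) (nat_lit 210) (nat_lit 229) r11_210 r7_229 (nat_lit 0) (nat_lit 0) (nat_lit 0) (nat_lit 0x7dcd9548de) (nat_lit 1078375896)]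
noncomputable def e32_26 : List Rx := [
  Rx.mk (nat_lit 258) (nat_lit 2) (nat_lit 0) (nat_lit 4) (nat_lit 1) (nat_lit 221) (nat_lit 260) r11_221 r9_260 (nat_lit 0) (nat_lit 0) (nat_lit 0) (nat_lit 0x7170076e1a) (nat_lit 7147997064),
  Rx.mk (nat_lit 262) (nat_lit 6) (nat_lit 0) (nat_lit 4) (nat_lit 1) (nat_lit 213) (nat_lit 257) r11_213 r9_257 (nat_lit 0) (nat_lit 0) (nat_lit 0) (nat_lit 0x7170076e1a) (nat_lit 7147997064),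
  Rx.mk (nat_lit 266) (nat_lit 2) (nat_lit 1) (nat_lit 4) (nat_lit 3) (nat_lit 224) (nat_lit 265) r11_224 r9_265 (nat_lit 0) (nat_lit 0) (nat_lit 0) (nat_lit 0x7e73fee19e) (nat_lit 759297240),
  Rx.mk (nat_lit 270) (nat_lit 6) (nat_lit 1) (nat_lit 4) (nat_lit 3) (nat_lit 216) (nat_lit 263) r11_216 r9_263 (nat_lit 0) (nat_lit 0) (nat_lit 0) (nat_lit 0x7e2a064172) (nat_lit 901129320),
  Rx.mk (nat_lit 278) (nat_lit 6) (nat_lit 2) (nat_lit 4) (nat_lit 3) (nat_lit 218) (nat_lit 270) r11_218 r9_270 (nat_lit 0) (nat_lit 0) (nat_lit 0) (nat_lit 0x7e7b750a34) (nat_lit 744990480),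
  Rx.mk (nat_lit 282) (nat_lit 2) (nat_lit 3) (nat_lit 4) (nat_lit 3) (nat_lit 226) (nat_lit 267) r11_226 r9_267 (nat_lit 0) (nat_lit 0) (nat_lit 0) (nat_lit 0x7e504d3cdc) (nat_lit 827736624),
  Rx.mk (nat_lit 322) (nat_lit 2) (nat_lit 0) (nat_lit 5) (nat_lit 5) (nat_lit 222) (nat_lit 261) r11_222 r9_261 (nat_lit 0) (nat_lit 0) (nat_lit 0) (nat_lit 0x7e2a064172) (nat_lit 901129320),
  Rx.mk (nat_lit 326) (nat_lit 6) (nat_lit 0) (nat_lit 5) (nat_lit 5) (nat_lit 214) (nat_lit 258) r11_214 r9_258 (nat_lit 0) (nat_lit 0) (nat_lit 0) (nat_lit 0x7e73fee19e) (nat_lit 759297240),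
  Rx.mk (nat_lit 342) (nat_lit 6) (nat_lit 2) (nat_lit 5) (nat_lit 7) (nat_lit 219) (nat_lit 271) r11_219 r9_271 (nat_lit 0) (nat_lit 0) (nat_lit 0) (nat_lit 0x7df00ea126) (nat_lit 1012275576),
  Rx.mk (nat_lit 346) (nat_lit 2) (nat_lit 3) (nat_lit 5) (nat_lit 7) (nat_lit 227) (nat_lit 268) r11_227 r9_268 (nat_lit 0) (nat_lit 0) (nat_lit 0) (nat_lit 0x7df1f96278) (nat_lit 1008599904),
  Rx.mk (nat_lit 386) (nat_lit 2) (nat_lit 0) (nat_lit 6) (nat_lit 5) (nat_lit 223) (nat_lit 262) r11_223 r9_262 (nat_lit 0) (nat_lit 0) (nat_lit 0) (nat_lit 0x7e7b750a34) (nat_lit 744990480),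
  Rx.mk (nat_lit 394) (nat_lit 2) (nat_lit 1) (nat_lit 6) (nat_lit 7) (nat_lit 225) (nat_lit 266) r11_225 r9_266 (nat_lit 0) (nat_lit 0) (nat_lit 0) (nat_lit 0x7df00ea126) (nat_lit 1012275576),
  Rx.mk (nat_lit 410) (nat_lit 2) (nat_lit 3) (nat_lit 6) (nat_lit 7) (nat_lit 228) (nat_lit 269) r11_228 r9_269 (nat_lit 0) (nat_lit 0) (nat_lit 0) (nat_lit 0x7dd0d29506) (nat_lit 1072164600),
  Rx.mk (nat_lit 454) (nat_lit 6) (nat_lit 0) (nat_lit 7) (nat_lit 5) (nat_lit 215) (nat_lit 259) r11_215 r9_259 (nat_lit 0) (nat_lit 0) (nat_lit 0) (nat_lit 0x7e504d3cdc) (nat_lit 827736624),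
  Rx.mk (nat_lit 462) (nat_lit 6) (nat_lit 1) (nat_lit 7) (nat_lit 7) (nat_lit 217) (nat_lit 264) r11_217 r9_264 (nat_lit 0) (nat_lit 0) (nat_lit 0) (nat_lit 0x7df1f96278) (nat_lit 1008599904),
  Rx.mk (nat_lit 470) (nat_lit 6) (nat_lit 2) (nat_lit 7) (nat_lit 7) (nat_lit 220) (nat_lit 272) r11_220 r9_272 (nat_lit 0) (nat_lit 0) (nat_lit 0) (nat_lit 0x7dd0d29506) (nat_lit 1072164600)]
noncomputable def e32_27 : List Rx := [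
  Rx.mk (nat_lit 258) (nat_lit 2) (nat_lit 0) (nat_lit 4) (nat_lit 1) (nat_lit 232) (nat_lit 288) r11_232 r10_288 (nat_lit 0) (nat_lit 0) (nat_lit 0) (nat_lit 0x73c76ed54c) (nat_lit 5998702320),
  Rx.mk (nat_lit 266) (nat_lit 2) (nat_lit 1) (nat_lit 4) (nat_lit 3) (nat_lit 235) (nat_lit 292) r11_235 r10_292 (nat_lit 0) (nat_lit 0) (nat_lit 0) (nat_lit 0x7dd14ded50) (nat_lit 1071240768),
  Rx.mk (nat_lit 282) (nat_lit 2) (nat_lit 3) (nat_lit 4) (nat_lit 3) (nat_lit 238) (nat_lit 295) r11_238 r10_295 (nat_lit 0) (nat_lit 0) (nat_lit 0) (nat_lit 0x7d8b3fce78) (nat_lit 1205564256),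
  Rx.mk (nat_lit 386) (nat_lit 2) (nat_lit 0) (nat_lit 6) (nat_lit 5) (nat_lit 233) (nat_lit 290) r11_233 r10_290 (nat_lit 0) (nat_lit 0) (nat_lit 0) (nat_lit 0x7e5f76aa36) (nat_lit 798665400),
  Rx.mk (nat_lit 394) (nat_lit 2) (nat_lit 1) (nat_lit 6) (nat_lit 7) (nat_lit 236) (nat_lit 294) r11_236 r10_294 (nat_lit 0) (nat_lit 0) (nat_lit 0) (nat_lit 0x7df4cdb530) (nat_lit 1003174848),
  Rx.mk (nat_lit 410) (nat_lit 2) (nat_lit 3) (nat_lit 6) (nat_lit 7) (nat_lit 239) (nat_lit 296) r11_239 r10_296 (nat_lit 0) (nat_lit 0) (nat_lit 0) (nat_lit 0x7def628be8) (nat_lit 1013564448),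
  Rx.mk (nat_lit 450) (nat_lit 2) (nat_lit 0) (nat_lit 7) (nat_lit 5) (nat_lit 234) (nat_lit 289) r11_234 r10_289 (nat_lit 0) (nat_lit 0) (nat_lit 0) (nat_lit 0x7d45698c22) (nat_lit 1339469352),
  Rx.mk (nat_lit 454) (nat_lit 6) (nat_lit 0) (nat_lit 7) (nat_lit 5) (nat_lit 229) (nat_lit 287) r11_229 r10_287 (nat_lit 0) (nat_lit 0) (nat_lit 0) (nat_lit 0x7eeaa716a4) (nat_lit 531784656),
  Rx.mk (nat_lit 458) (nat_lit 2) (nat_lit 1) (nat_lit 7) (nat_lit 7) (nat_lit 237) (nat_lit 293) r11_237 r10_293 (nat_lit 0) (nat_lit 0) (nat_lit 0) (nat_lit 0x7df4f75296) (nat_lit 1002863160),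
  Rx.mk (nat_lit 462) (nat_lit 6) (nat_lit 1) (nat_lit 7) (nat_lit 7) (nat_lit 230) (nat_lit 291) r11_230 r10_291 (nat_lit 0) (nat_lit 0) (nat_lit 0) (nat_lit 0x7ed7099090) (nat_lit 569395008),
  Rx.mk (nat_lit 470) (nat_lit 6) (nat_lit 2) (nat_lit 7) (nat_lit 7) (nat_lit 231) (nat_lit 297) r11_231 r10_297 (nat_lit 0) (nat_lit 0) (nat_lit 0) (nat_lit 0x7ed6cb5474) (nat_lit 569861136)]
noncomputable def e32_28 : List Rx := [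
  Rx.mk (nat_lit 20) (nat_lit 4) (nat_lit 2) (nat_lit 0) (nat_lit 2) (nat_lit 247) (nat_lit 288) r11_247 r10_288 (nat_lit 0) (nat_lit 0) (nat_lit 0) (nat_lit 0x73c76ed54c) (nat_lit 5998702320),
  Rx.mk (nat_lit 22) (nat_lit 6) (nat_lit 2) (nat_lit 0) (nat_lit 3) (nat_lit 250) (nat_lit 290) r11_250 r10_290 (nat_lit 0) (nat_lit 0) (nat_lit 0) (nat_lit 0x7e5f76aa36) (nat_lit 798665400),
  Rx.mk (nat_lit 23) (nat_lit 7) (nat_lit 2) (nat_lit 0) (nat_lit 3) (nat_lit 256) (nat_lit 289) r11_256 r10_289 (nat_lit 0) (nat_lit 0) (nat_lit 0) (nat_lit 0x7d45698c22) (nat_lit 1339469352),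
  Rx.mk (nat_lit 55) (nat_lit 7) (nat_lit 6) (nat_lit 0) (nat_lit 3) (nat_lit 253) (nat_lit 287) r11_253 r10_287 (nat_lit 0) (nat_lit 0) (nat_lit 0) (nat_lit 0x7eeaa716a4) (nat_lit 531784656),
  Rx.mk (nat_lit 84) (nat_lit 4) (nat_lit 2) (nat_lit 1) (nat_lit 6) (nat_lit 248) (nat_lit 292) r11_248 r10_292 (nat_lit 0) (nat_lit 0) (nat_lit 0) (nat_lit 0x7dd14ded50) (nat_lit 1071240768),
  Rx.mk (nat_lit 86) (nat_lit 6) (nat_lit 2) (nat_lit 1) (nat_lit 7) (nat_lit 251) (nat_lit 294) r11_251 r10_294 (nat_lit 0) (nat_lit 0) (nat_lit 0) (nat_lit 0x7df4cdb530) (nat_lit 1003174848),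
  Rx.mk (nat_lit 87) (nat_lit 7) (nat_lit 2) (nat_lit 1) (nat_lit 7) (nat_lit 257) (nat_lit 293) r11_257 r10_293 (nat_lit 0) (nat_lit 0) (nat_lit 0) (nat_lit 0x7df4f75296) (nat_lit 1002863160),
  Rx.mk (nat_lit 119) (nat_lit 7) (nat_lit 6) (nat_lit 1) (nat_lit 7) (nat_lit 254) (nat_lit 291) r11_254 r10_291 (nat_lit 0) (nat_lit 0) (nat_lit 0) (nat_lit 0x7ed7099090) (nat_lit 569395008),
  Rx.mk (nat_lit 183) (nat_lit 7) (nat_lit 6) (nat_lit 2) (nat_lit 7) (nat_lit 255) (nat_lit 297) r11_255 r10_297 (nat_lit 0) (nat_lit 0) (nat_lit 0) (nat_lit 0x7ed6cb5474) (nat_lit 569861136),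
  Rx.mk (nat_lit 212) (nat_lit 4) (nat_lit 2) (nat_lit 3) (nat_lit 6) (nat_lit 249) (nat_lit 295) r11_249 r10_295 (nat_lit 0) (nat_lit 0) (nat_lit 0) (nat_lit 0x7d8b3fce78) (nat_lit 1205564256),
  Rx.mk (nat_lit 214) (nat_lit 6) (nat_lit 2) (nat_lit 3) (nat_lit 7) (nat_lit 252) (nat_lit 296) r11_252 r10_296 (nat_lit 0) (nat_lit 0) (nat_lit 0) (nat_lit 0x7def628be8) (nat_lit 1013564448)]
noncomputable def e32_29 : List Rx := [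
  Rx.mk (nat_lit 163) (nat_lit 3) (nat_lit 4) (nat_lit 2) (nat_lit 5) (nat_lit 267) (nat_lit 270) r11_267 r5_270 (nat_lit 0) (nat_lit 0) (nat_lit 0) (nat_lit 0x7edcd813a2) (nat_lit 558261288),
  Rx.mk (nat_lit 179) (nat_lit 3) (nat_lit 6) (nat_lit 2) (nat_lit 7) (nat_lit 268) (nat_lit 272) r11_268 r5_272 (nat_lit 0) (nat_lit 0) (nat_lit 0) (nat_lit 0x7f668ad7ec) (nat_lit 294239088),
  Rx.mk (nat_lit 184) (nat_lit 0) (nat_lit 7) (nat_lit 2) (nat_lit 6) (nat_lit 263) (nat_lit 269) r11_263 r5_269 (nat_lit 0) (nat_lit 0) (nat_lit 0) (nat_lit 0x7e74b4b640) (nat_lit 757935360),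
  Rx.mk (nat_lit 187) (nat_lit 3) (nat_lit 7) (nat_lit 2) (nat_lit 7) (nat_lit 269) (nat_lit 271) r11_269 r5_271 (nat_lit 0) (nat_lit 0) (nat_lit 0) (nat_lit 0x7f6f268e28) (nat_lit 277733664),
  Rx.mk (nat_lit 282) (nat_lit 2) (nat_lit 3) (nat_lit 4) (nat_lit 3) (nat_lit 265) (nat_lit 273) r11_265 r5_273 (nat_lit 0) (nat_lit 0) (nat_lit 0) (nat_lit 0x7f06f551a4) (nat_lit 477511632),
  Rx.mk (nat_lit 286) (nat_lit 6) (nat_lit 3) (nat_lit 4) (nat_lit 3) (nat_lit 260) (nat_lit 264) r11_260 r5_264 (nat_lit 0) (nat_lit 0) (nat_lit 0) (nat_lit 0x7e74b4b640) (nat_lit 757935360),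
  Rx.mk (nat_lit 410) (nat_lit 2) (nat_lit 3) (nat_lit 6) (nat_lit 7) (nat_lit 266) (nat_lit 275) r11_266 r5_275 (nat_lit 0) (nat_lit 0) (nat_lit 0) (nat_lit 0x7f7f7d08b0) (nat_lit 246407616),
  Rx.mk (nat_lit 440) (nat_lit 0) (nat_lit 7) (nat_lit 6) (nat_lit 6) (nat_lit 262) (nat_lit 268) r11_262 r5_268 (nat_lit 0) (nat_lit 0) (nat_lit 0) (nat_lit 0x7f06f551a4) (nat_lit 477511632),
  Rx.mk (nat_lit 442) (nat_lit 2) (nat_lit 7) (nat_lit 6) (nat_lit 7) (nat_lit 264) (nat_lit 274) r11_264 r5_274 (nat_lit 0) (nat_lit 0) (nat_lit 0) (nat_lit 0x7f7f7d08b0) (nat_lit 246407616),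
  Rx.mk (nat_lit 454) (nat_lit 6) (nat_lit 0) (nat_lit 7) (nat_lit 5) (nat_lit 258) (nat_lit 265) r11_258 r5_265 (nat_lit 0) (nat_lit 0) (nat_lit 0) (nat_lit 0x7edcd813a2) (nat_lit 558261288),
  Rx.mk (nat_lit 470) (nat_lit 6) (nat_lit 2) (nat_lit 7) (nat_lit 7) (nat_lit 259) (nat_lit 267) r11_259 r5_267 (nat_lit 0) (nat_lit 0) (nat_lit 0) (nat_lit 0x7f668ad7ec) (nat_lit 294239088),
  Rx.mk (nat_lit 478) (nat_lit 6) (nat_lit 3) (nat_lit 7) (nat_lit 7) (nat_lit 261) (nat_lit 266) r11_261 r5_266 (nat_lit 0) (nat_lit 0) (nat_lit 0) (nat_lit 0x7f6f268e28) (nat_lit 277733664)]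
noncomputable def e32_30 : List Rx := [
  Rx.mk (nat_lit 262) (nat_lit 6) (nat_lit 0) (nat_lit 4) (nat_lit 1) (nat_lit 277) (nat_lit 288) r11_277 r10_288 (nat_lit 0) (nat_lit 0) (nat_lit 0) (nat_lit 0x73c76ed54c) (nat_lit 5998702320),
  Rx.mk (nat_lit 278) (nat_lit 6) (nat_lit 2) (nat_lit 4) (nat_lit 3) (nat_lit 280) (nat_lit 290) r11_280 r10_290 (nat_lit 0) (nat_lit 0) (nat_lit 0) (nat_lit 0x7e5f76aa36) (nat_lit 798665400),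
  Rx.mk (nat_lit 282) (nat_lit 2) (nat_lit 3) (nat_lit 4) (nat_lit 3) (nat_lit 285) (nat_lit 287) r11_285 r10_287 (nat_lit 0) (nat_lit 0) (nat_lit 0) (nat_lit 0x7eeaa716a4) (nat_lit 531784656),
  Rx.mk (nat_lit 286) (nat_lit 6) (nat_lit 3) (nat_lit 4) (nat_lit 3) (nat_lit 283) (nat_lit 289) r11_283 r10_289 (nat_lit 0) (nat_lit 0) (nat_lit 0) (nat_lit 0x7d45698c22) (nat_lit 1339469352),
  Rx.mk (nat_lit 326) (nat_lit 6) (nat_lit 0) (nat_lit 5) (nat_lit 5) (nat_lit 278) (nat_lit 292) r11_278 r10_292 (nat_lit 0) (nat_lit 0) (nat_lit 0) (nat_lit 0x7dd14ded50) (nat_lit 1071240768),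
  Rx.mk (nat_lit 342) (nat_lit 6) (nat_lit 2) (nat_lit 5) (nat_lit 7) (nat_lit 281) (nat_lit 294) r11_281 r10_294 (nat_lit 0) (nat_lit 0) (nat_lit 0) (nat_lit 0x7df4cdb530) (nat_lit 1003174848),
  Rx.mk (nat_lit 346) (nat_lit 2) (nat_lit 3) (nat_lit 5) (nat_lit 7) (nat_lit 286) (nat_lit 291) r11_286 r10_291 (nat_lit 0) (nat_lit 0) (nat_lit 0) (nat_lit 0x7ed7099090) (nat_lit 569395008),
  Rx.mk (nat_lit 350) (nat_lit 6) (nat_lit 3) (nat_lit 5) (nat_lit 7) (nat_lit 284) (nat_lit 293) r11_284 r10_293 (nat_lit 0) (nat_lit 0) (nat_lit 0) (nat_lit 0x7df4f75296) (nat_lit 1002863160),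
  Rx.mk (nat_lit 410) (nat_lit 2) (nat_lit 3) (nat_lit 6) (nat_lit 7) (nat_lit 287) (nat_lit 297) r11_287 r10_297 (nat_lit 0) (nat_lit 0) (nat_lit 0) (nat_lit 0x7ed6cb5474) (nat_lit 569861136),
  Rx.mk (nat_lit 454) (nat_lit 6) (nat_lit 0) (nat_lit 7) (nat_lit 5) (nat_lit 279) (nat_lit 295) r11_279 r10_295 (nat_lit 0) (nat_lit 0) (nat_lit 0) (nat_lit 0x7d8b3fce78) (nat_lit 1205564256),
  Rx.mk (nat_lit 470) (nat_lit 6) (nat_lit 2) (nat_lit 7) (nat_lit 7) (nat_lit 282) (nat_lit 296) r11_282 r10_296 (nat_lit 0) (nat_lit 0) (nat_lit 0) (nat_lit 0x7def628be8) (nat_lit 1013564448)]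
noncomputable def e32_31 : List Rx := [
  Rx.mk (nat_lit 23) (nat_lit 7) (nat_lit 2) (nat_lit 0) (nat_lit 3) (nat_lit 292) (nat_lit 264) r11_292 r5_264 (nat_lit 0) (nat_lit 0) (nat_lit 0) (nat_lit 0x7e74b4b640) (nat_lit 757935360),
  Rx.mk (nat_lit 55) (nat_lit 7) (nat_lit 6) (nat_lit 0) (nat_lit 3) (nat_lit 290) (nat_lit 273) r11_290 r5_273 (nat_lit 0) (nat_lit 0) (nat_lit 0) (nat_lit 0x7f06f551a4) (nat_lit 477511632),
  Rx.mk (nat_lit 163) (nat_lit 3) (nat_lit 4) (nat_lit 2) (nat_lit 5) (nat_lit 297) (nat_lit 268) r11_297 r5_268 (nat_lit 0) (nat_lit 0) (nat_lit 0) (nat_lit 0x7f06f551a4) (nat_lit 477511632),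
  Rx.mk (nat_lit 179) (nat_lit 3) (nat_lit 6) (nat_lit 2) (nat_lit 7) (nat_lit 298) (nat_lit 274) r11_298 r5_274 (nat_lit 0) (nat_lit 0) (nat_lit 0) (nat_lit 0x7f7f7d08b0) (nat_lit 246407616),
  Rx.mk (nat_lit 183) (nat_lit 7) (nat_lit 6) (nat_lit 2) (nat_lit 7) (nat_lit 291) (nat_lit 275) r11_291 r5_275 (nat_lit 0) (nat_lit 0) (nat_lit 0) (nat_lit 0x7f7f7d08b0) (nat_lit 246407616),
  Rx.mk (nat_lit 212) (nat_lit 4) (nat_lit 2) (nat_lit 3) (nat_lit 6) (nat_lit 288) (nat_lit 265) r11_288 r5_265 (nat_lit 0) (nat_lit 0) (nat_lit 0) (nat_lit 0x7edcd813a2) (nat_lit 558261288),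
  Rx.mk (nat_lit 214) (nat_lit 6) (nat_lit 2) (nat_lit 3) (nat_lit 7) (nat_lit 289) (nat_lit 267) r11_289 r5_267 (nat_lit 0) (nat_lit 0) (nat_lit 0) (nat_lit 0x7f668ad7ec) (nat_lit 294239088),
  Rx.mk (nat_lit 215) (nat_lit 7) (nat_lit 2) (nat_lit 3) (nat_lit 7) (nat_lit 293) (nat_lit 266) r11_293 r5_266 (nat_lit 0) (nat_lit 0) (nat_lit 0) (nat_lit 0x7f6f268e28) (nat_lit 277733664),
  Rx.mk (nat_lit 419) (nat_lit 3) (nat_lit 4) (nat_lit 6) (nat_lit 5) (nat_lit 296) (nat_lit 269) r11_296 r5_269 (nat_lit 0) (nat_lit 0) (nat_lit 0) (nat_lit 0x7e74b4b640) (nat_lit 757935360),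
  Rx.mk (nat_lit 440) (nat_lit 0) (nat_lit 7) (nat_lit 6) (nat_lit 6) (nat_lit 294) (nat_lit 270) r11_294 r5_270 (nat_lit 0) (nat_lit 0) (nat_lit 0) (nat_lit 0x7edcd813a2) (nat_lit 558261288),
  Rx.mk (nat_lit 442) (nat_lit 2) (nat_lit 7) (nat_lit 6) (nat_lit 7) (nat_lit 295) (nat_lit 272) r11_295 r5_272 (nat_lit 0) (nat_lit 0) (nat_lit 0) (nat_lit 0x7f668ad7ec) (nat_lit 294239088),
  Rx.mk (nat_lit 443) (nat_lit 3) (nat_lit 7) (nat_lit 6) (nat_lit 7) (nat_lit 299) (nat_lit 271) r11_299 r5_271 (nat_lit 0) (nat_lit 0) (nat_lit 0) (nat_lit 0x7f6f268e28) (nat_lit 277733664)]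
noncomputable def e32_32 : List Rx := [
  Rx.mk (nat_lit 55) (nat_lit 7) (nat_lit 6) (nat_lit 0) (nat_lit 3) (nat_lit 305) (nat_lit 311) r11_305 r11_311 (nat_lit 0) (nat_lit 0) (nat_lit 0) (nat_lit 0x7ef8395d72) (nat_lit 505762920),
  Rx.mk (nat_lit 163) (nat_lit 3) (nat_lit 4) (nat_lit 2) (nat_lit 5) (nat_lit 314) (nat_lit 301) r11_314 r11_301 (nat_lit 0) (nat_lit 0) (nat_lit 0) (nat_lit 0x7ef8395d72) (nat_lit 505762920),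
  Rx.mk (nat_lit 179) (nat_lit 3) (nat_lit 6) (nat_lit 2) (nat_lit 7) (nat_lit 315) (nat_lit 304) r11_315 r11_304 (nat_lit 0) (nat_lit 0) (nat_lit 0) (nat_lit 0x7fc1cda364) (nat_lit 119255760),
  Rx.mk (nat_lit 183) (nat_lit 7) (nat_lit 6) (nat_lit 2) (nat_lit 7) (nat_lit 306) (nat_lit 313) r11_306 r11_313 (nat_lit 0) (nat_lit 0) (nat_lit 0) (nat_lit 0x7fc1cda364) (nat_lit 119255760),
  Rx.mk (nat_lit 187) (nat_lit 3) (nat_lit 7) (nat_lit 2) (nat_lit 7) (nat_lit 317) (nat_lit 302) r11_317 r11_302 (nat_lit 0) (nat_lit 0) (nat_lit 0) (nat_lit 0x7fc1cda364) (nat_lit 119255760),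
  Rx.mk (nat_lit 212) (nat_lit 4) (nat_lit 2) (nat_lit 3) (nat_lit 6) (nat_lit 300) (nat_lit 309) r11_300 r11_309 (nat_lit 0) (nat_lit 0) (nat_lit 0) (nat_lit 0x7ef8395d72) (nat_lit 505762920),
  Rx.mk (nat_lit 214) (nat_lit 6) (nat_lit 2) (nat_lit 3) (nat_lit 7) (nat_lit 303) (nat_lit 316) r11_303 r11_316 (nat_lit 0) (nat_lit 0) (nat_lit 0) (nat_lit 0x7fc1cda364) (nat_lit 119255760),
  Rx.mk (nat_lit 215) (nat_lit 7) (nat_lit 2) (nat_lit 3) (nat_lit 7) (nat_lit 308) (nat_lit 310) r11_308 r11_310 (nat_lit 0) (nat_lit 0) (nat_lit 0) (nat_lit 0x7fc1cda364) (nat_lit 119255760),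
  Rx.mk (nat_lit 247) (nat_lit 7) (nat_lit 6) (nat_lit 3) (nat_lit 7) (nat_lit 307) (nat_lit 312) r11_307 r11_312 (nat_lit 0) (nat_lit 0) (nat_lit 0) (nat_lit 0x7fc1cda364) (nat_lit 119255760),
  Rx.mk (nat_lit 282) (nat_lit 2) (nat_lit 3) (nat_lit 4) (nat_lit 3) (nat_lit 311) (nat_lit 305) r11_311 r11_305 (nat_lit 0) (nat_lit 0) (nat_lit 0) (nat_lit 0x7ef8395d72) (nat_lit 505762920),
  Rx.mk (nat_lit 410) (nat_lit 2) (nat_lit 3) (nat_lit 6) (nat_lit 7) (nat_lit 312) (nat_lit 307) r11_312 r11_307 (nat_lit 0) (nat_lit 0) (nat_lit 0) (nat_lit 0x7fc1cda364) (nat_lit 119255760),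
  Rx.mk (nat_lit 440) (nat_lit 0) (nat_lit 7) (nat_lit 6) (nat_lit 6) (nat_lit 309) (nat_lit 300) r11_309 r11_300 (nat_lit 0) (nat_lit 0) (nat_lit 0) (nat_lit 0x7ef8395d72) (nat_lit 505762920),
  Rx.mk (nat_lit 442) (nat_lit 2) (nat_lit 7) (nat_lit 6) (nat_lit 7) (nat_lit 310) (nat_lit 308) r11_310 r11_308 (nat_lit 0) (nat_lit 0) (nat_lit 0) (nat_lit 0x7fc1cda364) (nat_lit 119255760),
  Rx.mk (nat_lit 443) (nat_lit 3) (nat_lit 7) (nat_lit 6) (nat_lit 7) (nat_lit 316) (nat_lit 303) r11_316 r11_303 (nat_lit 0) (nat_lit 0) (nat_lit 0) (nat_lit 0x7fc1cda364) (nat_lit 119255760),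
  Rx.mk (nat_lit 454) (nat_lit 6) (nat_lit 0) (nat_lit 7) (nat_lit 5) (nat_lit 301) (nat_lit 314) r11_301 r11_314 (nat_lit 0) (nat_lit 0) (nat_lit 0) (nat_lit 0x7ef8395d72) (nat_lit 505762920),
  Rx.mk (nat_lit 470) (nat_lit 6) (nat_lit 2) (nat_lit 7) (nat_lit 7) (nat_lit 302) (nat_lit 317) r11_302 r11_317 (nat_lit 0) (nat_lit 0) (nat_lit 0) (nat_lit 0x7fc1cda364) (nat_lit 119255760),
  Rx.mk (nat_lit 474) (nat_lit 2) (nat_lit 3) (nat_lit 7) (nat_lit 7) (nat_lit 313) (nat_lit 306) r11_313 r11_306 (nat_lit 0) (nat_lit 0) (nat_lit 0) (nat_lit 0x7fc1cda364) (nat_lit 119255760),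
  Rx.mk (nat_lit 478) (nat_lit 6) (nat_lit 3) (nat_lit 7) (nat_lit 7) (nat_lit 304) (nat_lit 315) r11_304 r11_315 (nat_lit 0) (nat_lit 0) (nat_lit 0) (nat_lit 0x7fc1cda364) (nat_lit 119255760)]
noncomputable def e32_33 : List Rx := [
  Rx.mk (nat_lit 160) (nat_lit 0) (nat_lit 4) (nat_lit 2) (nat_lit 4) (nat_lit 319) (nat_lit 238) r11_319 r0_238 (nat_lit 0) (nat_lit 0) (nat_lit 0) (nat_lit 0x604a433b84) (nat_lit 15564918096),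
  Rx.mk (nat_lit 168) (nat_lit 0) (nat_lit 5) (nat_lit 2) (nat_lit 6) (nat_lit 321) (nat_lit 239) r11_321 r0_239 (nat_lit 0) (nat_lit 0) (nat_lit 0) (nat_lit 0x7a40d59866) (nat_lit 2820807288),
  Rx.mk (nat_lit 176) (nat_lit 0) (nat_lit 6) (nat_lit 2) (nat_lit 6) (nat_lit 322) (nat_lit 240) r11_322 r0_240 (nat_lit 0) (nat_lit 0) (nat_lit 0) (nat_lit 0x7407d02ef6) (nat_lit 5875259832),
  Rx.mk (nat_lit 416) (nat_lit 0) (nat_lit 4) (nat_lit 6) (nat_lit 4) (nat_lit 318) (nat_lit 236) r11_318 r0_236 (nat_lit 0) (nat_lit 0) (nat_lit 0) (nat_lit 0x7a6c44a14a) (nat_lit 2737527624),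
  Rx.mk (nat_lit 418) (nat_lit 2) (nat_lit 4) (nat_lit 6) (nat_lit 5) (nat_lit 323) (nat_lit 241) r11_323 r0_241 (nat_lit 0) (nat_lit 0) (nat_lit 0) (nat_lit 0x7e8bdea38a) (nat_lit 713521224),
  Rx.mk (nat_lit 424) (nat_lit 0) (nat_lit 5) (nat_lit 6) (nat_lit 6) (nat_lit 320) (nat_lit 237) r11_320 r0_237 (nat_lit 0) (nat_lit 0) (nat_lit 0) (nat_lit 0x7ff1a7c592) (nat_lit 27504360),
  Rx.mk (nat_lit 426) (nat_lit 2) (nat_lit 5) (nat_lit 6) (nat_lit 7) (nat_lit 324) (nat_lit 242) r11_324 r0_242 (nat_lit 0) (nat_lit 0) (nat_lit 0) (nat_lit 0x7fcf076fba) (nat_lit 93896712)]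
noncomputable def e32_34 : List Rx := [
  Rx.mk (nat_lit 160) (nat_lit 0) (nat_lit 4) (nat_lit 2) (nat_lit 4) (nat_lit 326) (nat_lit 236) r11_326 r0_236 (nat_lit 0) (nat_lit 0) (nat_lit 0) (nat_lit 0x7a6c44a14a) (nat_lit 2737527624),
  Rx.mk (nat_lit 161) (nat_lit 1) (nat_lit 4) (nat_lit 2) (nat_lit 5) (nat_lit 329) (nat_lit 237) r11_329 r0_237 (nat_lit 0) (nat_lit 0) (nat_lit 0) (nat_lit 0x7ff1a7c592) (nat_lit 27504360),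
  Rx.mk (nat_lit 176) (nat_lit 0) (nat_lit 6) (nat_lit 2) (nat_lit 6) (nat_lit 327) (nat_lit 241) r11_327 r0_241 (nat_lit 0) (nat_lit 0) (nat_lit 0) (nat_lit 0x7e8bdea38a) (nat_lit 713521224),
  Rx.mk (nat_lit 177) (nat_lit 1) (nat_lit 6) (nat_lit 2) (nat_lit 7) (nat_lit 330) (nat_lit 242) r11_330 r0_242 (nat_lit 0) (nat_lit 0) (nat_lit 0) (nat_lit 0x7fcf076fba) (nat_lit 93896712),
  Rx.mk (nat_lit 416) (nat_lit 0) (nat_lit 4) (nat_lit 6) (nat_lit 4) (nat_lit 325) (nat_lit 238) r11_325 r0_238 (nat_lit 0) (nat_lit 0) (nat_lit 0) (nat_lit 0x604a433b84) (nat_lit 15564918096),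
  Rx.mk (nat_lit 417) (nat_lit 1) (nat_lit 4) (nat_lit 6) (nat_lit 5) (nat_lit 328) (nat_lit 239) r11_328 r0_239 (nat_lit 0) (nat_lit 0) (nat_lit 0) (nat_lit 0x7a40d59866) (nat_lit 2820807288),
  Rx.mk (nat_lit 418) (nat_lit 2) (nat_lit 4) (nat_lit 6) (nat_lit 5) (nat_lit 331) (nat_lit 240) r11_331 r0_240 (nat_lit 0) (nat_lit 0) (nat_lit 0) (nat_lit 0x7407d02ef6) (nat_lit 5875259832)]
noncomputable def e32_35 : List Rx := [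
  Rx.mk (nat_lit 160) (nat_lit 0) (nat_lit 4) (nat_lit 2) (nat_lit 4) (nat_lit 333) (nat_lit 305) r11_333 r6_305 (nat_lit 0) (nat_lit 0) (nat_lit 0) (nat_lit 0x76404205a0) (nat_lit 4785326208),
  Rx.mk (nat_lit 161) (nat_lit 1) (nat_lit 4) (nat_lit 2) (nat_lit 5) (nat_lit 338) (nat_lit 310) r11_338 r6_310 (nat_lit 0) (nat_lit 0) (nat_lit 0) (nat_lit 0x7e974b4cb4) (nat_lit 691616016),
  Rx.mk (nat_lit 168) (nat_lit 0) (nat_lit 5) (nat_lit 2) (nat_lit 6) (nat_lit 335) (nat_lit 306) r11_335 r6_306 (nat_lit 0) (nat_lit 0) (nat_lit 0) (nat_lit 0x7e4cddb3d8) (nat_lit 834324192),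
  Rx.mk (nat_lit 169) (nat_lit 1) (nat_lit 5) (nat_lit 2) (nat_lit 7) (nat_lit 340) (nat_lit 311) r11_340 r6_311 (nat_lit 0) (nat_lit 0) (nat_lit 0) (nat_lit 0x7deae7b39a) (nat_lit 1022154120),
  Rx.mk (nat_lit 176) (nat_lit 0) (nat_lit 6) (nat_lit 2) (nat_lit 6) (nat_lit 336) (nat_lit 307) r11_336 r6_307 (nat_lit 0) (nat_lit 0) (nat_lit 0) (nat_lit 0x7e9290b862) (nat_lit 700683048),
  Rx.mk (nat_lit 177) (nat_lit 1) (nat_lit 6) (nat_lit 2) (nat_lit 7) (nat_lit 341) (nat_lit 312) r11_341 r6_312 (nat_lit 0) (nat_lit 0) (nat_lit 0) (nat_lit 0x7e672d4ec4) (nat_lit 783875664),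
  Rx.mk (nat_lit 416) (nat_lit 0) (nat_lit 4) (nat_lit 6) (nat_lit 4) (nat_lit 332) (nat_lit 303) r11_332 r6_303 (nat_lit 0) (nat_lit 0) (nat_lit 0) (nat_lit 0x76404205a0) (nat_lit 4785326208),
  Rx.mk (nat_lit 417) (nat_lit 1) (nat_lit 4) (nat_lit 6) (nat_lit 5) (nat_lit 337) (nat_lit 308) r11_337 r6_308 (nat_lit 0) (nat_lit 0) (nat_lit 0) (nat_lit 0x7e4cddb3d8) (nat_lit 834324192),
  Rx.mk (nat_lit 418) (nat_lit 2) (nat_lit 4) (nat_lit 6) (nat_lit 5) (nat_lit 342) (nat_lit 313) r11_342 r6_313 (nat_lit 0) (nat_lit 0) (nat_lit 0) (nat_lit 0x7e9290b862) (nat_lit 700683048),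
  Rx.mk (nat_lit 424) (nat_lit 0) (nat_lit 5) (nat_lit 6) (nat_lit 6) (nat_lit 334) (nat_lit 304) r11_334 r6_304 (nat_lit 0) (nat_lit 0) (nat_lit 0) (nat_lit 0x7e974b4cb4) (nat_lit 691616016),
  Rx.mk (nat_lit 425) (nat_lit 1) (nat_lit 5) (nat_lit 6) (nat_lit 7) (nat_lit 339) (nat_lit 309) r11_339 r6_309 (nat_lit 0) (nat_lit 0) (nat_lit 0) (nat_lit 0x7deae7b39a) (nat_lit 1022154120),
  Rx.mk (nat_lit 426) (nat_lit 2) (nat_lit 5) (nat_lit 6) (nat_lit 7) (nat_lit 343) (nat_lit 314) r11_343 r6_314 (nat_lit 0) (nat_lit 0) (nat_lit 0) (nat_lit 0x7e672d4ec4) (nat_lit 783875664)]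
noncomputable def e32_36 : List Rx := [
  Rx.mk (nat_lit 53) (nat_lit 5) (nat_lit 6) (nat_lit 0) (nat_lit 3) (nat_lit 344) (nat_lit 273) r11_344 r2_273 (nat_lit 0) (nat_lit 0) (nat_lit 0) (nat_lit 0x7d2c30dfc6) (nat_lit 1387828728),
  Rx.mk (nat_lit 161) (nat_lit 1) (nat_lit 4) (nat_lit 2) (nat_lit 5) (nat_lit 346) (nat_lit 272) r11_346 r2_272 (nat_lit 0) (nat_lit 0) (nat_lit 0) (nat_lit 0x7d2c30dfc6) (nat_lit 1387828728),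
  Rx.mk (nat_lit 177) (nat_lit 1) (nat_lit 6) (nat_lit 2) (nat_lit 7) (nat_lit 347) (nat_lit 274) r11_347 r2_274 (nat_lit 0) (nat_lit 0) (nat_lit 0) (nat_lit 0x7dc1c905ae) (nat_lit 1100997144),
  Rx.mk (nat_lit 181) (nat_lit 5) (nat_lit 6) (nat_lit 2) (nat_lit 7) (nat_lit 345) (nat_lit 275) r11_345 r2_275 (nat_lit 0) (nat_lit 0) (nat_lit 0) (nat_lit 0x7dc1c905ae) (nat_lit 1100997144)]
noncomputable def e32_37 : List Rx := [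
  Rx.mk (nat_lit 161) (nat_lit 1) (nat_lit 4) (nat_lit 2) (nat_lit 5) (nat_lit 349) (nat_lit 244) r11_349 r8_244 (nat_lit 0) (nat_lit 0) (nat_lit 0) (nat_lit 0x7d6133cf62) (nat_lit 1286184744),
  Rx.mk (nat_lit 169) (nat_lit 1) (nat_lit 5) (nat_lit 2) (nat_lit 7) (nat_lit 350) (nat_lit 245) r11_350 r8_245 (nat_lit 0) (nat_lit 0) (nat_lit 0) (nat_lit 0x7de71770a2) (nat_lit 1029466152),
  Rx.mk (nat_lit 177) (nat_lit 1) (nat_lit 6) (nat_lit 2) (nat_lit 7) (nat_lit 351) (nat_lit 246) r11_351 r8_246 (nat_lit 0) (nat_lit 0) (nat_lit 0) (nat_lit 0x7de2f0331a) (nat_lit 1037429640),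
  Rx.mk (nat_lit 181) (nat_lit 5) (nat_lit 6) (nat_lit 2) (nat_lit 7) (nat_lit 348) (nat_lit 247) r11_348 r8_247 (nat_lit 0) (nat_lit 0) (nat_lit 0) (nat_lit 0x7dbdfec256) (nat_lit 1108264248)]
noncomputable def e32_38 : List Rx := [
  Rx.mk (nat_lit 53) (nat_lit 5) (nat_lit 6) (nat_lit 0) (nat_lit 3) (nat_lit 352) (nat_lit 244) r11_352 r8_244 (nat_lit 0) (nat_lit 0) (nat_lit 0) (nat_lit 0x7d6133cf62) (nat_lit 1286184744),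
  Rx.mk (nat_lit 117) (nat_lit 5) (nat_lit 6) (nat_lit 1) (nat_lit 7) (nat_lit 353) (nat_lit 245) r11_353 r8_245 (nat_lit 0) (nat_lit 0) (nat_lit 0) (nat_lit 0x7de71770a2) (nat_lit 1029466152),
  Rx.mk (nat_lit 177) (nat_lit 1) (nat_lit 6) (nat_lit 2) (nat_lit 7) (nat_lit 355) (nat_lit 247) r11_355 r8_247 (nat_lit 0) (nat_lit 0) (nat_lit 0) (nat_lit 0x7dbdfec256) (nat_lit 1108264248),
  Rx.mk (nat_lit 181) (nat_lit 5) (nat_lit 6) (nat_lit 2) (nat_lit 7) (nat_lit 354) (nat_lit 246) r11_354 r8_246 (nat_lit 0) (nat_lit 0) (nat_lit 0) (nat_lit 0x7de2f0331a) (nat_lit 1037429640)]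
noncomputable def e32_39 : List Rx := [
  Rx.mk (nat_lit 161) (nat_lit 1) (nat_lit 4) (nat_lit 2) (nat_lit 5) (nat_lit 357) (nat_lit 249) r11_357 r1_249 (nat_lit 0) (nat_lit 0) (nat_lit 0) (nat_lit 0x7fd9fb0076) (nat_lit 72898488),
  Rx.mk (nat_lit 177) (nat_lit 1) (nat_lit 6) (nat_lit 2) (nat_lit 7) (nat_lit 358) (nat_lit 251) r11_358 r1_251 (nat_lit 0) (nat_lit 0) (nat_lit 0) (nat_lit 0x7f3f574b4c) (nat_lit 369403632),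
  Rx.mk (nat_lit 417) (nat_lit 1) (nat_lit 4) (nat_lit 6) (nat_lit 5) (nat_lit 356) (nat_lit 250) r11_356 r1_250 (nat_lit 0) (nat_lit 0) (nat_lit 0) (nat_lit 0x7e7e4b3cce) (nat_lit 739551384)]
noncomputable def e32_40 : List Rx := [
  Rx.mk (nat_lit 161) (nat_lit 1) (nat_lit 4) (nat_lit 2) (nat_lit 5) (nat_lit 360) (nat_lit 227) r11_360 r7_227 (nat_lit 0) (nat_lit 0) (nat_lit 0) (nat_lit 0x7e01a8a774) (nat_lit 978526224),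
  Rx.mk (nat_lit 169) (nat_lit 1) (nat_lit 5) (nat_lit 2) (nat_lit 7) (nat_lit 362) (nat_lit 228) r11_362 r7_228 (nat_lit 0) (nat_lit 0) (nat_lit 0) (nat_lit 0x7dddf522d0) (nat_lit 1046979648),
  Rx.mk (nat_lit 177) (nat_lit 1) (nat_lit 6) (nat_lit 2) (nat_lit 7) (nat_lit 363) (nat_lit 229) r11_363 r7_229 (nat_lit 0) (nat_lit 0) (nat_lit 0) (nat_lit 0x7dcd9548de) (nat_lit 1078375896),
  Rx.mk (nat_lit 417) (nat_lit 1) (nat_lit 4) (nat_lit 6) (nat_lit 5) (nat_lit 359) (nat_lit 225) r11_359 r7_225 (nat_lit 0) (nat_lit 0) (nat_lit 0) (nat_lit 0x7da1c16648) (nat_lit 1162410912),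
  Rx.mk (nat_lit 425) (nat_lit 1) (nat_lit 5) (nat_lit 6) (nat_lit 7) (nat_lit 361) (nat_lit 226) r11_361 r7_226 (nat_lit 0) (nat_lit 0) (nat_lit 0) (nat_lit 0x7dc9a2e808) (nat_lit 1085943456)]
noncomputable def e32_41 : List Rx := [
  Rx.mk (nat_lit 168) (nat_lit 0) (nat_lit 5) (nat_lit 2) (nat_lit 6) (nat_lit 365) (nat_lit 250) r11_365 r1_250 (nat_lit 0) (nat_lit 0) (nat_lit 0) (nat_lit 0x7e7e4b3cce) (nat_lit 739551384),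
  Rx.mk (nat_lit 424) (nat_lit 0) (nat_lit 5) (nat_lit 6) (nat_lit 6) (nat_lit 364) (nat_lit 249) r11_364 r1_249 (nat_lit 0) (nat_lit 0) (nat_lit 0) (nat_lit 0x7fd9fb0076) (nat_lit 72898488),
  Rx.mk (nat_lit 426) (nat_lit 2) (nat_lit 5) (nat_lit 6) (nat_lit 7) (nat_lit 366) (nat_lit 251) r11_366 r1_251 (nat_lit 0) (nat_lit 0) (nat_lit 0) (nat_lit 0x7f3f574b4c) (nat_lit 369403632)]
noncomputable def e32_42 : List Rx := [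
  Rx.mk (nat_lit 266) (nat_lit 2) (nat_lit 1) (nat_lit 4) (nat_lit 3) (nat_lit 369) (nat_lit 273) r11_369 r2_273 (nat_lit 0) (nat_lit 0) (nat_lit 0) (nat_lit 0x7d2c30dfc6) (nat_lit 1387828728),
  Rx.mk (nat_lit 394) (nat_lit 2) (nat_lit 1) (nat_lit 6) (nat_lit 7) (nat_lit 370) (nat_lit 275) r11_370 r2_275 (nat_lit 0) (nat_lit 0) (nat_lit 0) (nat_lit 0x7dc1c905ae) (nat_lit 1100997144),
  Rx.mk (nat_lit 424) (nat_lit 0) (nat_lit 5) (nat_lit 6) (nat_lit 6) (nat_lit 367) (nat_lit 272) r11_367 r2_272 (nat_lit 0) (nat_lit 0) (nat_lit 0) (nat_lit 0x7d2c30dfc6) (nat_lit 1387828728),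
  Rx.mk (nat_lit 426) (nat_lit 2) (nat_lit 5) (nat_lit 6) (nat_lit 7) (nat_lit 368) (nat_lit 274) r11_368 r2_274 (nat_lit 0) (nat_lit 0) (nat_lit 0) (nat_lit 0x7dc1c905ae) (nat_lit 1100997144)]
noncomputable def e32_43 : List Rx := [
  Rx.mk (nat_lit 168) (nat_lit 0) (nat_lit 5) (nat_lit 2) (nat_lit 6) (nat_lit 372) (nat_lit 225) r11_372 r7_225 (nat_lit 0) (nat_lit 0) (nat_lit 0) (nat_lit 0x7da1c16648) (nat_lit 1162410912),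
  Rx.mk (nat_lit 169) (nat_lit 1) (nat_lit 5) (nat_lit 2) (nat_lit 7) (nat_lit 374) (nat_lit 226) r11_374 r7_226 (nat_lit 0) (nat_lit 0) (nat_lit 0) (nat_lit 0x7dc9a2e808) (nat_lit 1085943456),
  Rx.mk (nat_lit 424) (nat_lit 0) (nat_lit 5) (nat_lit 6) (nat_lit 6) (nat_lit 371) (nat_lit 227) r11_371 r7_227 (nat_lit 0) (nat_lit 0) (nat_lit 0) (nat_lit 0x7e01a8a774) (nat_lit 978526224),
  Rx.mk (nat_lit 425) (nat_lit 1) (nat_lit 5) (nat_lit 6) (nat_lit 7) (nat_lit 373) (nat_lit 228) r11_373 r7_228 (nat_lit 0) (nat_lit 0) (nat_lit 0) (nat_lit 0x7dddf522d0) (nat_lit 1046979648),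
  Rx.mk (nat_lit 426) (nat_lit 2) (nat_lit 5) (nat_lit 6) (nat_lit 7) (nat_lit 375) (nat_lit 229) r11_375 r7_229 (nat_lit 0) (nat_lit 0) (nat_lit 0) (nat_lit 0x7dcd9548de) (nat_lit 1078375896)]
noncomputable def e32_44 : List Rx := [
  Rx.mk (nat_lit 394) (nat_lit 2) (nat_lit 1) (nat_lit 6) (nat_lit 7) (nat_lit 379) (nat_lit 247) r11_379 r8_247 (nat_lit 0) (nat_lit 0) (nat_lit 0) (nat_lit 0x7dbdfec256) (nat_lit 1108264248),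
  Rx.mk (nat_lit 424) (nat_lit 0) (nat_lit 5) (nat_lit 6) (nat_lit 6) (nat_lit 376) (nat_lit 244) r11_376 r8_244 (nat_lit 0) (nat_lit 0) (nat_lit 0) (nat_lit 0x7d6133cf62) (nat_lit 1286184744),
  Rx.mk (nat_lit 425) (nat_lit 1) (nat_lit 5) (nat_lit 6) (nat_lit 7) (nat_lit 377) (nat_lit 245) r11_377 r8_245 (nat_lit 0) (nat_lit 0) (nat_lit 0) (nat_lit 0x7de71770a2) (nat_lit 1029466152),
  Rx.mk (nat_lit 426) (nat_lit 2) (nat_lit 5) (nat_lit 6) (nat_lit 7) (nat_lit 378) (nat_lit 246) r11_378 r8_246 (nat_lit 0) (nat_lit 0) (nat_lit 0) (nat_lit 0x7de2f0331a) (nat_lit 1037429640)]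
noncomputable def e32_45 : List Rx := [
  Rx.mk (nat_lit 266) (nat_lit 2) (nat_lit 1) (nat_lit 4) (nat_lit 3) (nat_lit 381) (nat_lit 244) r11_381 r8_244 (nat_lit 0) (nat_lit 0) (nat_lit 0) (nat_lit 0x7d6133cf62) (nat_lit 1286184744),
  Rx.mk (nat_lit 330) (nat_lit 2) (nat_lit 1) (nat_lit 5) (nat_lit 7) (nat_lit 382) (nat_lit 245) r11_382 r8_245 (nat_lit 0) (nat_lit 0) (nat_lit 0) (nat_lit 0x7de71770a2) (nat_lit 1029466152),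
  Rx.mk (nat_lit 394) (nat_lit 2) (nat_lit 1) (nat_lit 6) (nat_lit 7) (nat_lit 383) (nat_lit 246) r11_383 r8_246 (nat_lit 0) (nat_lit 0) (nat_lit 0) (nat_lit 0x7de2f0331a) (nat_lit 1037429640),
  Rx.mk (nat_lit 426) (nat_lit 2) (nat_lit 5) (nat_lit 6) (nat_lit 7) (nat_lit 380) (nat_lit 247) r11_380 r8_247 (nat_lit 0) (nat_lit 0) (nat_lit 0) (nat_lit 0x7dbdfec256) (nat_lit 1108264248)]
noncomputable def e32_46 : List Rx := [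
  Rx.mk (nat_lit 160) (nat_lit 0) (nat_lit 4) (nat_lit 2) (nat_lit 4) (nat_lit 393) (nat_lit 244) r11_393 r4_244 (nat_lit 0) (nat_lit 0) (nat_lit 0) (nat_lit 0x6bf3fab462) (nat_lit 9840116520),
  Rx.mk (nat_lit 163) (nat_lit 3) (nat_lit 4) (nat_lit 2) (nat_lit 5) (nat_lit 401) (nat_lit 247) r11_401 r4_247 (nat_lit 0) (nat_lit 0) (nat_lit 0) (nat_lit 0x6e389aa81e) (nat_lit 8726828760),
  Rx.mk (nat_lit 168) (nat_lit 0) (nat_lit 5) (nat_lit 2) (nat_lit 6) (nat_lit 395) (nat_lit 245) r11_395 r4_245 (nat_lit 0) (nat_lit 0) (nat_lit 0) (nat_lit 0x7e8d7ec986) (nat_lit 710404344),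
  Rx.mk (nat_lit 171) (nat_lit 3) (nat_lit 5) (nat_lit 2) (nat_lit 7) (nat_lit 402) (nat_lit 248) r11_402 r4_248 (nat_lit 0) (nat_lit 0) (nat_lit 0) (nat_lit 0x7ef9498c6e) (nat_lit 503724312),
  Rx.mk (nat_lit 176) (nat_lit 0) (nat_lit 6) (nat_lit 2) (nat_lit 6) (nat_lit 396) (nat_lit 246) r11_396 r4_246 (nat_lit 0) (nat_lit 0) (nat_lit 0) (nat_lit 0x7d40c096b6) (nat_lit 1348404408),
  Rx.mk (nat_lit 179) (nat_lit 3) (nat_lit 6) (nat_lit 2) (nat_lit 7) (nat_lit 403) (nat_lit 249) r11_403 r4_249 (nat_lit 0) (nat_lit 0) (nat_lit 0) (nat_lit 0x7ea772ea2a) (nat_lit 660640968),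
  Rx.mk (nat_lit 416) (nat_lit 0) (nat_lit 4) (nat_lit 6) (nat_lit 4) (nat_lit 392) (nat_lit 241) r11_392 r4_241 (nat_lit 0) (nat_lit 0) (nat_lit 0) (nat_lit 0x75f067639a) (nat_lit 4938438024),
  Rx.mk (nat_lit 418) (nat_lit 2) (nat_lit 4) (nat_lit 6) (nat_lit 5) (nat_lit 398) (nat_lit 250) r11_398 r4_250 (nat_lit 0) (nat_lit 0) (nat_lit 0) (nat_lit 0x7dda8599cc) (nat_lit 1053567216),
  Rx.mk (nat_lit 424) (nat_lit 0) (nat_lit 5) (nat_lit 6) (nat_lit 6) (nat_lit 394) (nat_lit 242) r11_394 r4_242 (nat_lit 0) (nat_lit 0) (nat_lit 0) (nat_lit 0x7e10d57498) (nat_lit 949429728),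
  Rx.mk (nat_lit 426) (nat_lit 2) (nat_lit 5) (nat_lit 6) (nat_lit 7) (nat_lit 399) (nat_lit 251) r11_399 r4_251 (nat_lit 0) (nat_lit 0) (nat_lit 0) (nat_lit 0x7df52e0f2a) (nat_lit 1002453192),
  Rx.mk (nat_lit 440) (nat_lit 0) (nat_lit 7) (nat_lit 6) (nat_lit 6) (nat_lit 397) (nat_lit 243) r11_397 r4_243 (nat_lit 0) (nat_lit 0) (nat_lit 0) (nat_lit 0x7e356d4af6) (nat_lit 879266232),
  Rx.mk (nat_lit 442) (nat_lit 2) (nat_lit 7) (nat_lit 6) (nat_lit 7) (nat_lit 400) (nat_lit 252) r11_400 r4_252 (nat_lit 0) (nat_lit 0) (nat_lit 0) (nat_lit 0x7e1d7e2a00) (nat_lit 925157376)]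
noncomputable def e32_47 : List Rx := [
  Rx.mk (nat_lit 160) (nat_lit 0) (nat_lit 4) (nat_lit 2) (nat_lit 4) (nat_lit 412) (nat_lit 241) r11_412 r4_241 (nat_lit 0) (nat_lit 0) (nat_lit 0) (nat_lit 0x75f067639a) (nat_lit 4938438024),
  Rx.mk (nat_lit 161) (nat_lit 1) (nat_lit 4) (nat_lit 2) (nat_lit 5) (nat_lit 416) (nat_lit 242) r11_416 r4_242 (nat_lit 0) (nat_lit 0) (nat_lit 0) (nat_lit 0x7e10d57498) (nat_lit 949429728),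
  Rx.mk (nat_lit 163) (nat_lit 3) (nat_lit 4) (nat_lit 2) (nat_lit 5) (nat_lit 421) (nat_lit 243) r11_421 r4_243 (nat_lit 0) (nat_lit 0) (nat_lit 0) (nat_lit 0x7e356d4af6) (nat_lit 879266232),
  Rx.mk (nat_lit 176) (nat_lit 0) (nat_lit 6) (nat_lit 2) (nat_lit 6) (nat_lit 413) (nat_lit 250) r11_413 r4_250 (nat_lit 0) (nat_lit 0) (nat_lit 0) (nat_lit 0x7dda8599cc) (nat_lit 1053567216),
  Rx.mk (nat_lit 177) (nat_lit 1) (nat_lit 6) (nat_lit 2) (nat_lit 7) (nat_lit 417) (nat_lit 251) r11_417 r4_251 (nat_lit 0) (nat_lit 0) (nat_lit 0) (nat_lit 0x7df52e0f2a) (nat_lit 1002453192),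
  Rx.mk (nat_lit 179) (nat_lit 3) (nat_lit 6) (nat_lit 2) (nat_lit 7) (nat_lit 422) (nat_lit 252) r11_422 r4_252 (nat_lit 0) (nat_lit 0) (nat_lit 0) (nat_lit 0x7e1d7e2a00) (nat_lit 925157376),
  Rx.mk (nat_lit 416) (nat_lit 0) (nat_lit 4) (nat_lit 6) (nat_lit 4) (nat_lit 411) (nat_lit 244) r11_411 r4_244 (nat_lit 0) (nat_lit 0) (nat_lit 0) (nat_lit 0x6bf3fab462) (nat_lit 9840116520),
  Rx.mk (nat_lit 417) (nat_lit 1) (nat_lit 4) (nat_lit 6) (nat_lit 5) (nat_lit 415) (nat_lit 245) r11_415 r4_245 (nat_lit 0) (nat_lit 0) (nat_lit 0) (nat_lit 0x7e8d7ec986) (nat_lit 710404344),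
  Rx.mk (nat_lit 418) (nat_lit 2) (nat_lit 4) (nat_lit 6) (nat_lit 5) (nat_lit 419) (nat_lit 246) r11_419 r4_246 (nat_lit 0) (nat_lit 0) (nat_lit 0) (nat_lit 0x7d40c096b6) (nat_lit 1348404408),
  Rx.mk (nat_lit 440) (nat_lit 0) (nat_lit 7) (nat_lit 6) (nat_lit 6) (nat_lit 414) (nat_lit 247) r11_414 r4_247 (nat_lit 0) (nat_lit 0) (nat_lit 0) (nat_lit 0x6e389aa81e) (nat_lit 8726828760),
  Rx.mk (nat_lit 441) (nat_lit 1) (nat_lit 7) (nat_lit 6) (nat_lit 7) (nat_lit 418) (nat_lit 248) r11_418 r4_248 (nat_lit 0) (nat_lit 0) (nat_lit 0) (nat_lit 0x7ef9498c6e) (nat_lit 503724312),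
  Rx.mk (nat_lit 442) (nat_lit 2) (nat_lit 7) (nat_lit 6) (nat_lit 7) (nat_lit 420) (nat_lit 249) r11_420 r4_249 (nat_lit 0) (nat_lit 0) (nat_lit 0) (nat_lit 0x7ea772ea2a) (nat_lit 660640968)]
noncomputable def e32_48 : List Rx := [
  Rx.mk (nat_lit 160) (nat_lit 0) (nat_lit 4) (nat_lit 2) (nat_lit 4) (nat_lit 424) (nat_lit 260) r11_424 r9_260 (nat_lit 0) (nat_lit 0) (nat_lit 0) (nat_lit 0x7170076e1a) (nat_lit 7147997064),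
  Rx.mk (nat_lit 161) (nat_lit 1) (nat_lit 4) (nat_lit 2) (nat_lit 5) (nat_lit 430) (nat_lit 265) r11_430 r9_265 (nat_lit 0) (nat_lit 0) (nat_lit 0) (nat_lit 0x7e73fee19e) (nat_lit 759297240),
  Rx.mk (nat_lit 163) (nat_lit 3) (nat_lit 4) (nat_lit 2) (nat_lit 5) (nat_lit 436) (nat_lit 267) r11_436 r9_267 (nat_lit 0) (nat_lit 0) (nat_lit 0) (nat_lit 0x7e504d3cdc) (nat_lit 827736624),
  Rx.mk (nat_lit 168) (nat_lit 0) (nat_lit 5) (nat_lit 2) (nat_lit 6) (nat_lit 426) (nat_lit 261) r11_426 r9_261 (nat_lit 0) (nat_lit 0) (nat_lit 0) (nat_lit 0x7e2a064172) (nat_lit 901129320),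
  Rx.mk (nat_lit 171) (nat_lit 3) (nat_lit 5) (nat_lit 2) (nat_lit 7) (nat_lit 437) (nat_lit 268) r11_437 r9_268 (nat_lit 0) (nat_lit 0) (nat_lit 0) (nat_lit 0x7df1f96278) (nat_lit 1008599904),
  Rx.mk (nat_lit 176) (nat_lit 0) (nat_lit 6) (nat_lit 2) (nat_lit 6) (nat_lit 427) (nat_lit 262) r11_427 r9_262 (nat_lit 0) (nat_lit 0) (nat_lit 0) (nat_lit 0x7e7b750a34) (nat_lit 744990480),
  Rx.mk (nat_lit 177) (nat_lit 1) (nat_lit 6) (nat_lit 2) (nat_lit 7) (nat_lit 431) (nat_lit 266) r11_431 r9_266 (nat_lit 0) (nat_lit 0) (nat_lit 0) (nat_lit 0x7df00ea126) (nat_lit 1012275576),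
  Rx.mk (nat_lit 179) (nat_lit 3) (nat_lit 6) (nat_lit 2) (nat_lit 7) (nat_lit 438) (nat_lit 269) r11_438 r9_269 (nat_lit 0) (nat_lit 0) (nat_lit 0) (nat_lit 0x7dd0d29506) (nat_lit 1072164600),
  Rx.mk (nat_lit 416) (nat_lit 0) (nat_lit 4) (nat_lit 6) (nat_lit 4) (nat_lit 423) (nat_lit 257) r11_423 r9_257 (nat_lit 0) (nat_lit 0) (nat_lit 0) (nat_lit 0x7170076e1a) (nat_lit 7147997064),
  Rx.mk (nat_lit 417) (nat_lit 1) (nat_lit 4) (nat_lit 6) (nat_lit 5) (nat_lit 429) (nat_lit 263) r11_429 r9_263 (nat_lit 0) (nat_lit 0) (nat_lit 0) (nat_lit 0x7e2a064172) (nat_lit 901129320),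
  Rx.mk (nat_lit 418) (nat_lit 2) (nat_lit 4) (nat_lit 6) (nat_lit 5) (nat_lit 433) (nat_lit 270) r11_433 r9_270 (nat_lit 0) (nat_lit 0) (nat_lit 0) (nat_lit 0x7e7b750a34) (nat_lit 744990480),
  Rx.mk (nat_lit 424) (nat_lit 0) (nat_lit 5) (nat_lit 6) (nat_lit 6) (nat_lit 425) (nat_lit 258) r11_425 r9_258 (nat_lit 0) (nat_lit 0) (nat_lit 0) (nat_lit 0x7e73fee19e) (nat_lit 759297240),
  Rx.mk (nat_lit 426) (nat_lit 2) (nat_lit 5) (nat_lit 6) (nat_lit 7) (nat_lit 434) (nat_lit 271) r11_434 r9_271 (nat_lit 0) (nat_lit 0) (nat_lit 0) (nat_lit 0x7df00ea126) (nat_lit 1012275576),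
  Rx.mk (nat_lit 440) (nat_lit 0) (nat_lit 7) (nat_lit 6) (nat_lit 6) (nat_lit 428) (nat_lit 259) r11_428 r9_259 (nat_lit 0) (nat_lit 0) (nat_lit 0) (nat_lit 0x7e504d3cdc) (nat_lit 827736624),
  Rx.mk (nat_lit 441) (nat_lit 1) (nat_lit 7) (nat_lit 6) (nat_lit 7) (nat_lit 432) (nat_lit 264) r11_432 r9_264 (nat_lit 0) (nat_lit 0) (nat_lit 0) (nat_lit 0x7df1f96278) (nat_lit 1008599904),
  Rx.mk (nat_lit 442) (nat_lit 2) (nat_lit 7) (nat_lit 6) (nat_lit 7) (nat_lit 435) (nat_lit 272) r11_435 r9_272 (nat_lit 0) (nat_lit 0) (nat_lit 0) (nat_lit 0x7dd0d29506) (nat_lit 1072164600)]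
noncomputable def e32_49 : List Rx := [
  Rx.mk (nat_lit 160) (nat_lit 0) (nat_lit 4) (nat_lit 2) (nat_lit 4) (nat_lit 439) (nat_lit 288) r11_439 r10_288 (nat_lit 0) (nat_lit 0) (nat_lit 0) (nat_lit 0x73c76ed54c) (nat_lit 5998702320),
  Rx.mk (nat_lit 161) (nat_lit 1) (nat_lit 4) (nat_lit 2) (nat_lit 5) (nat_lit 443) (nat_lit 292) r11_443 r10_292 (nat_lit 0) (nat_lit 0) (nat_lit 0) (nat_lit 0x7dd14ded50) (nat_lit 1071240768),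
  Rx.mk (nat_lit 163) (nat_lit 3) (nat_lit 4) (nat_lit 2) (nat_lit 5) (nat_lit 448) (nat_lit 295) r11_448 r10_295 (nat_lit 0) (nat_lit 0) (nat_lit 0) (nat_lit 0x7d8b3fce78) (nat_lit 1205564256),
  Rx.mk (nat_lit 176) (nat_lit 0) (nat_lit 6) (nat_lit 2) (nat_lit 6) (nat_lit 440) (nat_lit 290) r11_440 r10_290 (nat_lit 0) (nat_lit 0) (nat_lit 0) (nat_lit 0x7e5f76aa36) (nat_lit 798665400),
  Rx.mk (nat_lit 177) (nat_lit 1) (nat_lit 6) (nat_lit 2) (nat_lit 7) (nat_lit 444) (nat_lit 294) r11_444 r10_294 (nat_lit 0) (nat_lit 0) (nat_lit 0) (nat_lit 0x7df4cdb530) (nat_lit 1003174848),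
  Rx.mk (nat_lit 179) (nat_lit 3) (nat_lit 6) (nat_lit 2) (nat_lit 7) (nat_lit 449) (nat_lit 296) r11_449 r10_296 (nat_lit 0) (nat_lit 0) (nat_lit 0) (nat_lit 0x7def628be8) (nat_lit 1013564448),
  Rx.mk (nat_lit 184) (nat_lit 0) (nat_lit 7) (nat_lit 2) (nat_lit 6) (nat_lit 442) (nat_lit 289) r11_442 r10_289 (nat_lit 0) (nat_lit 0) (nat_lit 0) (nat_lit 0x7d45698c22) (nat_lit 1339469352),
  Rx.mk (nat_lit 185) (nat_lit 1) (nat_lit 7) (nat_lit 2) (nat_lit 7) (nat_lit 446) (nat_lit 293) r11_446 r10_293 (nat_lit 0) (nat_lit 0) (nat_lit 0) (nat_lit 0x7df4f75296) (nat_lit 1002863160),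
  Rx.mk (nat_lit 440) (nat_lit 0) (nat_lit 7) (nat_lit 6) (nat_lit 6) (nat_lit 441) (nat_lit 287) r11_441 r10_287 (nat_lit 0) (nat_lit 0) (nat_lit 0) (nat_lit 0x7eeaa716a4) (nat_lit 531784656),
  Rx.mk (nat_lit 441) (nat_lit 1) (nat_lit 7) (nat_lit 6) (nat_lit 7) (nat_lit 445) (nat_lit 291) r11_445 r10_291 (nat_lit 0) (nat_lit 0) (nat_lit 0) (nat_lit 0x7ed7099090) (nat_lit 569395008),
  Rx.mk (nat_lit 442) (nat_lit 2) (nat_lit 7) (nat_lit 6) (nat_lit 7) (nat_lit 447) (nat_lit 297) r11_447 r10_297 (nat_lit 0) (nat_lit 0) (nat_lit 0) (nat_lit 0x7ed6cb5474) (nat_lit 569861136)]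
noncomputable def e32_50 : List Rx := [
  Rx.mk (nat_lit 163) (nat_lit 3) (nat_lit 4) (nat_lit 2) (nat_lit 5) (nat_lit 464) (nat_lit 287) r11_464 r10_287 (nat_lit 0) (nat_lit 0) (nat_lit 0) (nat_lit 0x7eeaa716a4) (nat_lit 531784656),
  Rx.mk (nat_lit 171) (nat_lit 3) (nat_lit 5) (nat_lit 2) (nat_lit 7) (nat_lit 466) (nat_lit 291) r11_466 r10_291 (nat_lit 0) (nat_lit 0) (nat_lit 0) (nat_lit 0x7ed7099090) (nat_lit 569395008),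
  Rx.mk (nat_lit 179) (nat_lit 3) (nat_lit 6) (nat_lit 2) (nat_lit 7) (nat_lit 467) (nat_lit 297) r11_467 r10_297 (nat_lit 0) (nat_lit 0) (nat_lit 0) (nat_lit 0x7ed6cb5474) (nat_lit 569861136),
  Rx.mk (nat_lit 416) (nat_lit 0) (nat_lit 4) (nat_lit 6) (nat_lit 4) (nat_lit 457) (nat_lit 288) r11_457 r10_288 (nat_lit 0) (nat_lit 0) (nat_lit 0) (nat_lit 0x73c76ed54c) (nat_lit 5998702320),
  Rx.mk (nat_lit 418) (nat_lit 2) (nat_lit 4) (nat_lit 6) (nat_lit 5) (nat_lit 460) (nat_lit 290) r11_460 r10_290 (nat_lit 0) (nat_lit 0) (nat_lit 0) (nat_lit 0x7e5f76aa36) (nat_lit 798665400),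
  Rx.mk (nat_lit 419) (nat_lit 3) (nat_lit 4) (nat_lit 6) (nat_lit 5) (nat_lit 463) (nat_lit 289) r11_463 r10_289 (nat_lit 0) (nat_lit 0) (nat_lit 0) (nat_lit 0x7d45698c22) (nat_lit 1339469352),
  Rx.mk (nat_lit 424) (nat_lit 0) (nat_lit 5) (nat_lit 6) (nat_lit 6) (nat_lit 458) (nat_lit 292) r11_458 r10_292 (nat_lit 0) (nat_lit 0) (nat_lit 0) (nat_lit 0x7dd14ded50) (nat_lit 1071240768),
  Rx.mk (nat_lit 426) (nat_lit 2) (nat_lit 5) (nat_lit 6) (nat_lit 7) (nat_lit 461) (nat_lit 294) r11_461 r10_294 (nat_lit 0) (nat_lit 0) (nat_lit 0) (nat_lit 0x7df4cdb530) (nat_lit 1003174848),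
  Rx.mk (nat_lit 427) (nat_lit 3) (nat_lit 5) (nat_lit 6) (nat_lit 7) (nat_lit 465) (nat_lit 293) r11_465 r10_293 (nat_lit 0) (nat_lit 0) (nat_lit 0) (nat_lit 0x7df4f75296) (nat_lit 1002863160),
  Rx.mk (nat_lit 440) (nat_lit 0) (nat_lit 7) (nat_lit 6) (nat_lit 6) (nat_lit 459) (nat_lit 295) r11_459 r10_295 (nat_lit 0) (nat_lit 0) (nat_lit 0) (nat_lit 0x7d8b3fce78) (nat_lit 1205564256),
  Rx.mk (nat_lit 442) (nat_lit 2) (nat_lit 7) (nat_lit 6) (nat_lit 7) (nat_lit 462) (nat_lit 296) r11_462 r10_296 (nat_lit 0) (nat_lit 0) (nat_lit 0) (nat_lit 0x7def628be8) (nat_lit 1013564448)]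
noncomputable def e32_51 : List Rx := [
  Rx.mk (nat_lit 52) (nat_lit 4) (nat_lit 6) (nat_lit 0) (nat_lit 2) (nat_lit 34) (nat_lit 246) r11_34 r12_246 (nat_lit 0) (nat_lit 0) (nat_lit 0) (nat_lit 0x78fb4dd228) (nat_lit 3444977952),
  Rx.mk (nat_lit 55) (nat_lit 7) (nat_lit 6) (nat_lit 0) (nat_lit 3) (nat_lit 39) (nat_lit 249) r11_39 r12_249 (nat_lit 0) (nat_lit 0) (nat_lit 0) (nat_lit 0x7d5ad6d538) (nat_lit 1298385504),
  Rx.mk (nat_lit 180) (nat_lit 4) (nat_lit 6) (nat_lit 2) (nat_lit 6) (nat_lit 35) (nat_lit 248) r11_35 r12_248 (nat_lit 0) (nat_lit 0) (nat_lit 0) (nat_lit 0x79aa5aa0ac) (nat_lit 3109337712),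
  Rx.mk (nat_lit 183) (nat_lit 7) (nat_lit 6) (nat_lit 2) (nat_lit 7) (nat_lit 40) (nat_lit 250) r11_40 r12_250 (nat_lit 0) (nat_lit 0) (nat_lit 0) (nat_lit 0x7f04293e68) (nat_lit 482874912),
  Rx.mk (nat_lit 212) (nat_lit 4) (nat_lit 2) (nat_lit 3) (nat_lit 6) (nat_lit 37) (nat_lit 245) r11_37 r12_245 (nat_lit 0) (nat_lit 0) (nat_lit 0) (nat_lit 0x7fd8517b10) (nat_lit 76085568),
  Rx.mk (nat_lit 214) (nat_lit 6) (nat_lit 2) (nat_lit 3) (nat_lit 7) (nat_lit 38) (nat_lit 251) r11_38 r12_251 (nat_lit 0) (nat_lit 0) (nat_lit 0) (nat_lit 0x7e9f9a27be) (nat_lit 675686232),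
  Rx.mk (nat_lit 244) (nat_lit 4) (nat_lit 6) (nat_lit 3) (nat_lit 6) (nat_lit 36) (nat_lit 247) r11_36 r12_247 (nat_lit 0) (nat_lit 0) (nat_lit 0) (nat_lit 0x7f3052fba0) (nat_lit 398196864)]
noncomputable def e32_52 : List Rx := [
  Rx.mk (nat_lit 258) (nat_lit 2) (nat_lit 0) (nat_lit 4) (nat_lit 1) (nat_lit 85) (nat_lit 246) r11_85 r12_246 (nat_lit 0) (nat_lit 0) (nat_lit 0) (nat_lit 0x78fb4dd228) (nat_lit 3444977952),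
  Rx.mk (nat_lit 282) (nat_lit 2) (nat_lit 3) (nat_lit 4) (nat_lit 3) (nat_lit 88) (nat_lit 249) r11_88 r12_249 (nat_lit 0) (nat_lit 0) (nat_lit 0) (nat_lit 0x7d5ad6d538) (nat_lit 1298385504),
  Rx.mk (nat_lit 386) (nat_lit 2) (nat_lit 0) (nat_lit 6) (nat_lit 5) (nat_lit 86) (nat_lit 248) r11_86 r12_248 (nat_lit 0) (nat_lit 0) (nat_lit 0) (nat_lit 0x79aa5aa0ac) (nat_lit 3109337712),
  Rx.mk (nat_lit 410) (nat_lit 2) (nat_lit 3) (nat_lit 6) (nat_lit 7) (nat_lit 89) (nat_lit 250) r11_89 r12_250 (nat_lit 0) (nat_lit 0) (nat_lit 0) (nat_lit 0x7f04293e68) (nat_lit 482874912),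
  Rx.mk (nat_lit 450) (nat_lit 2) (nat_lit 0) (nat_lit 7) (nat_lit 5) (nat_lit 87) (nat_lit 247) r11_87 r12_247 (nat_lit 0) (nat_lit 0) (nat_lit 0) (nat_lit 0x7f3052fba0) (nat_lit 398196864),
  Rx.mk (nat_lit 454) (nat_lit 6) (nat_lit 0) (nat_lit 7) (nat_lit 5) (nat_lit 83) (nat_lit 245) r11_83 r12_245 (nat_lit 0) (nat_lit 0) (nat_lit 0) (nat_lit 0x7fd8517b10) (nat_lit 76085568),
  Rx.mk (nat_lit 470) (nat_lit 6) (nat_lit 2) (nat_lit 7) (nat_lit 7) (nat_lit 84) (nat_lit 251) r11_84 r12_251 (nat_lit 0) (nat_lit 0) (nat_lit 0) (nat_lit 0x7e9f9a27be) (nat_lit 675686232)]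
noncomputable def e32_53 : List Rx := [
  Rx.mk (nat_lit 20) (nat_lit 4) (nat_lit 2) (nat_lit 0) (nat_lit 2) (nat_lit 240) (nat_lit 246) r11_240 r12_246 (nat_lit 0) (nat_lit 0) (nat_lit 0) (nat_lit 0x78fb4dd228) (nat_lit 3444977952),
  Rx.mk (nat_lit 22) (nat_lit 6) (nat_lit 2) (nat_lit 0) (nat_lit 3) (nat_lit 242) (nat_lit 248) r11_242 r12_248 (nat_lit 0) (nat_lit 0) (nat_lit 0) (nat_lit 0x79aa5aa0ac) (nat_lit 3109337712),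
  Rx.mk (nat_lit 23) (nat_lit 7) (nat_lit 2) (nat_lit 0) (nat_lit 3) (nat_lit 246) (nat_lit 247) r11_246 r12_247 (nat_lit 0) (nat_lit 0) (nat_lit 0) (nat_lit 0x7f3052fba0) (nat_lit 398196864),
  Rx.mk (nat_lit 55) (nat_lit 7) (nat_lit 6) (nat_lit 0) (nat_lit 3) (nat_lit 244) (nat_lit 245) r11_244 r12_245 (nat_lit 0) (nat_lit 0) (nat_lit 0) (nat_lit 0x7fd8517b10) (nat_lit 76085568),
  Rx.mk (nat_lit 183) (nat_lit 7) (nat_lit 6) (nat_lit 2) (nat_lit 7) (nat_lit 245) (nat_lit 251) r11_245 r12_251 (nat_lit 0) (nat_lit 0) (nat_lit 0) (nat_lit 0x7e9f9a27be) (nat_lit 675686232),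
  Rx.mk (nat_lit 212) (nat_lit 4) (nat_lit 2) (nat_lit 3) (nat_lit 6) (nat_lit 241) (nat_lit 249) r11_241 r12_249 (nat_lit 0) (nat_lit 0) (nat_lit 0) (nat_lit 0x7d5ad6d538) (nat_lit 1298385504),
  Rx.mk (nat_lit 214) (nat_lit 6) (nat_lit 2) (nat_lit 3) (nat_lit 7) (nat_lit 243) (nat_lit 250) r11_243 r12_250 (nat_lit 0) (nat_lit 0) (nat_lit 0) (nat_lit 0x7f04293e68) (nat_lit 482874912)]
noncomputable def e32_54 : List Rx := [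
  Rx.mk (nat_lit 262) (nat_lit 6) (nat_lit 0) (nat_lit 4) (nat_lit 1) (nat_lit 270) (nat_lit 246) r11_270 r12_246 (nat_lit 0) (nat_lit 0) (nat_lit 0) (nat_lit 0x78fb4dd228) (nat_lit 3444977952),
  Rx.mk (nat_lit 278) (nat_lit 6) (nat_lit 2) (nat_lit 4) (nat_lit 3) (nat_lit 272) (nat_lit 248) r11_272 r12_248 (nat_lit 0) (nat_lit 0) (nat_lit 0) (nat_lit 0x79aa5aa0ac) (nat_lit 3109337712),
  Rx.mk (nat_lit 282) (nat_lit 2) (nat_lit 3) (nat_lit 4) (nat_lit 3) (nat_lit 275) (nat_lit 245) r11_275 r12_245 (nat_lit 0) (nat_lit 0) (nat_lit 0) (nat_lit 0x7fd8517b10) (nat_lit 76085568),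
  Rx.mk (nat_lit 286) (nat_lit 6) (nat_lit 3) (nat_lit 4) (nat_lit 3) (nat_lit 274) (nat_lit 247) r11_274 r12_247 (nat_lit 0) (nat_lit 0) (nat_lit 0) (nat_lit 0x7f3052fba0) (nat_lit 398196864),
  Rx.mk (nat_lit 410) (nat_lit 2) (nat_lit 3) (nat_lit 6) (nat_lit 7) (nat_lit 276) (nat_lit 251) r11_276 r12_251 (nat_lit 0) (nat_lit 0) (nat_lit 0) (nat_lit 0x7e9f9a27be) (nat_lit 675686232),
  Rx.mk (nat_lit 454) (nat_lit 6) (nat_lit 0) (nat_lit 7) (nat_lit 5) (nat_lit 271) (nat_lit 249) r11_271 r12_249 (nat_lit 0) (nat_lit 0) (nat_lit 0) (nat_lit 0x7d5ad6d538) (nat_lit 1298385504),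
  Rx.mk (nat_lit 470) (nat_lit 6) (nat_lit 2) (nat_lit 7) (nat_lit 7) (nat_lit 273) (nat_lit 250) r11_273 r12_250 (nat_lit 0) (nat_lit 0) (nat_lit 0) (nat_lit 0x7f04293e68) (nat_lit 482874912)]
noncomputable def e32_55 : List Rx := [
  Rx.mk (nat_lit 160) (nat_lit 0) (nat_lit 4) (nat_lit 2) (nat_lit 4) (nat_lit 385) (nat_lit 232) r11_385 r3_232 (nat_lit 0) (nat_lit 0) (nat_lit 0) (nat_lit 0x7f8a217e5e) (nat_lit 226001880),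
  Rx.mk (nat_lit 163) (nat_lit 3) (nat_lit 4) (nat_lit 2) (nat_lit 5) (nat_lit 390) (nat_lit 234) r11_390 r3_234 (nat_lit 0) (nat_lit 0) (nat_lit 0) (nat_lit 0x7f1946ac7c) (nat_lit 442389168),
  Rx.mk (nat_lit 176) (nat_lit 0) (nat_lit 6) (nat_lit 2) (nat_lit 6) (nat_lit 386) (nat_lit 233) r11_386 r3_233 (nat_lit 0) (nat_lit 0) (nat_lit 0) (nat_lit 0x74e254a5d4) (nat_lit 5456275344),
  Rx.mk (nat_lit 179) (nat_lit 3) (nat_lit 6) (nat_lit 2) (nat_lit 7) (nat_lit 391) (nat_lit 235) r11_391 r3_235 (nat_lit 0) (nat_lit 0) (nat_lit 0) (nat_lit 0x7f616e09be) (nat_lit 304041816),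
  Rx.mk (nat_lit 416) (nat_lit 0) (nat_lit 4) (nat_lit 6) (nat_lit 4) (nat_lit 384) (nat_lit 230) r11_384 r3_230 (nat_lit 0) (nat_lit 0) (nat_lit 0) (nat_lit 0x7f8a217e5e) (nat_lit 226001880),
  Rx.mk (nat_lit 418) (nat_lit 2) (nat_lit 4) (nat_lit 6) (nat_lit 5) (nat_lit 388) (nat_lit 236) r11_388 r3_236 (nat_lit 0) (nat_lit 0) (nat_lit 0) (nat_lit 0x74e254a5d4) (nat_lit 5456275344),
  Rx.mk (nat_lit 440) (nat_lit 0) (nat_lit 7) (nat_lit 6) (nat_lit 6) (nat_lit 387) (nat_lit 231) r11_387 r3_231 (nat_lit 0) (nat_lit 0) (nat_lit 0) (nat_lit 0x7f1946ac7c) (nat_lit 442389168),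
  Rx.mk (nat_lit 442) (nat_lit 2) (nat_lit 7) (nat_lit 6) (nat_lit 7) (nat_lit 389) (nat_lit 237) r11_389 r3_237 (nat_lit 0) (nat_lit 0) (nat_lit 0) (nat_lit 0x7f616e09be) (nat_lit 304041816)]
noncomputable def e32_56 : List Rx := [
  Rx.mk (nat_lit 160) (nat_lit 0) (nat_lit 4) (nat_lit 2) (nat_lit 4) (nat_lit 404) (nat_lit 246) r11_404 r12_246 (nat_lit 0) (nat_lit 0) (nat_lit 0) (nat_lit 0x78fb4dd228) (nat_lit 3444977952),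
  Rx.mk (nat_lit 163) (nat_lit 3) (nat_lit 4) (nat_lit 2) (nat_lit 5) (nat_lit 409) (nat_lit 249) r11_409 r12_249 (nat_lit 0) (nat_lit 0) (nat_lit 0) (nat_lit 0x7d5ad6d538) (nat_lit 1298385504),
  Rx.mk (nat_lit 176) (nat_lit 0) (nat_lit 6) (nat_lit 2) (nat_lit 6) (nat_lit 405) (nat_lit 248) r11_405 r12_248 (nat_lit 0) (nat_lit 0) (nat_lit 0) (nat_lit 0x79aa5aa0ac) (nat_lit 3109337712),
  Rx.mk (nat_lit 179) (nat_lit 3) (nat_lit 6) (nat_lit 2) (nat_lit 7) (nat_lit 410) (nat_lit 250) r11_410 r12_250 (nat_lit 0) (nat_lit 0) (nat_lit 0) (nat_lit 0x7f04293e68) (nat_lit 482874912),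
  Rx.mk (nat_lit 184) (nat_lit 0) (nat_lit 7) (nat_lit 2) (nat_lit 6) (nat_lit 407) (nat_lit 247) r11_407 r12_247 (nat_lit 0) (nat_lit 0) (nat_lit 0) (nat_lit 0x7f3052fba0) (nat_lit 398196864),
  Rx.mk (nat_lit 440) (nat_lit 0) (nat_lit 7) (nat_lit 6) (nat_lit 6) (nat_lit 406) (nat_lit 245) r11_406 r12_245 (nat_lit 0) (nat_lit 0) (nat_lit 0) (nat_lit 0x7fd8517b10) (nat_lit 76085568),
  Rx.mk (nat_lit 442) (nat_lit 2) (nat_lit 7) (nat_lit 6) (nat_lit 7) (nat_lit 408) (nat_lit 251) r11_408 r12_251 (nat_lit 0) (nat_lit 0) (nat_lit 0) (nat_lit 0x7e9f9a27be) (nat_lit 675686232)]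
noncomputable def e32_57 : List Rx := [
  Rx.mk (nat_lit 163) (nat_lit 3) (nat_lit 4) (nat_lit 2) (nat_lit 5) (nat_lit 455) (nat_lit 245) r11_455 r12_245 (nat_lit 0) (nat_lit 0) (nat_lit 0) (nat_lit 0x7fd8517b10) (nat_lit 76085568),
  Rx.mk (nat_lit 179) (nat_lit 3) (nat_lit 6) (nat_lit 2) (nat_lit 7) (nat_lit 456) (nat_lit 251) r11_456 r12_251 (nat_lit 0) (nat_lit 0) (nat_lit 0) (nat_lit 0x7e9f9a27be) (nat_lit 675686232),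
  Rx.mk (nat_lit 416) (nat_lit 0) (nat_lit 4) (nat_lit 6) (nat_lit 4) (nat_lit 450) (nat_lit 246) r11_450 r12_246 (nat_lit 0) (nat_lit 0) (nat_lit 0) (nat_lit 0x78fb4dd228) (nat_lit 3444977952),
  Rx.mk (nat_lit 418) (nat_lit 2) (nat_lit 4) (nat_lit 6) (nat_lit 5) (nat_lit 452) (nat_lit 248) r11_452 r12_248 (nat_lit 0) (nat_lit 0) (nat_lit 0) (nat_lit 0x79aa5aa0ac) (nat_lit 3109337712),
  Rx.mk (nat_lit 419) (nat_lit 3) (nat_lit 4) (nat_lit 6) (nat_lit 5) (nat_lit 454) (nat_lit 247) r11_454 r12_247 (nat_lit 0) (nat_lit 0) (nat_lit 0) (nat_lit 0x7f3052fba0) (nat_lit 398196864),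
  Rx.mk (nat_lit 440) (nat_lit 0) (nat_lit 7) (nat_lit 6) (nat_lit 6) (nat_lit 451) (nat_lit 249) r11_451 r12_249 (nat_lit 0) (nat_lit 0) (nat_lit 0) (nat_lit 0x7d5ad6d538) (nat_lit 1298385504),
  Rx.mk (nat_lit 442) (nat_lit 2) (nat_lit 7) (nat_lit 6) (nat_lit 7) (nat_lit 453) (nat_lit 250) r11_453 r12_250 (nat_lit 0) (nat_lit 0) (nat_lit 0) (nat_lit 0x7f04293e68) (nat_lit 482874912)]
noncomputable def e32 : List (List Rx) := [e32_0, e32_1, e32_2, e32_3, e32_4, e32_5, e32_6, e32_7, e32_8, e32_9, e32_10, e32_11, e32_12, e32_13, e32_14, e32_15, e32_16, e32_17, e32_18, e32_19, e32_20, e32_21, e32_22, e32_23, e32_24, e32_25, e32_26, e32_27, e32_28, e32_29, e32_30, e32_31, e32_32, e32_33, e32_34, e32_35, e32_36, e32_37, e32_38, e32_39, e32_40, e32_41, e32_42, e32_43, e32_44, e32_45, e32_46, e32_47, e32_48, e32_49, e32_50, e32_51, e32_52, e32_53,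 e32_54, e32_55, e32_56, e32_57]
noncomputable def e33_0 : List Rx := [
  Rx.mk (nat_lit 5) (nat_lit 5) (nat_lit 0) (nat_lit 0) (nat_lit 1) (nat_lit 244) (nat_lit 244) r0_244 r0_244 (nat_lit 0) (nat_lit 0) (nat_lit 0) (nat_lit 0x563db2ae9a) (nat_lit 20497543560),
  Rx.mk (nat_lit 13) (nat_lit 5) (nat_lit 1) (nat_lit 0) (nat_lit 3) (nat_lit 245) (nat_lit 246) r0_245 r0_246 (nat_lit 0) (nat_lit 0) (nat_lit 0) (nat_lit 0x72ec042cd2) (nat_lit 6419410920),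
  Rx.mk (nat_lit 69) (nat_lit 5) (nat_lit 0) (nat_lit 1) (nat_lit 5) (nat_lit 246) (nat_lit 245) r0_246 r0_245 (nat_lit 0) (nat_lit 0) (nat_lit 0) (nat_lit 0x72ec042cd2) (nat_lit 6419410920),
  Rx.mk (nat_lit 76) (nat_lit 4) (nat_lit 1) (nat_lit 1) (nat_lit 6) (nat_lit 243) (nat_lit 243) r0_243 r0_243 (nat_lit 0) (nat_lit 0) (nat_lit 0) (nat_lit 0x7feec413d0) (nat_lit 33044544),
  Rx.mk (nat_lit 77) (nat_lit 5) (nat_lit 1) (nat_lit 1) (nat_lit 7) (nat_lit 247) (nat_lit 247) r0_247 r0_247 (nat_lit 0) (nat_lit 0) (nat_lit 0) (nat_lit 0x7d475fecba) (nat_lit 1335706632)]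
noncomputable def e33_1 : List Rx := [
  Rx.mk (nat_lit 69) (nat_lit 5) (nat_lit 0) (nat_lit 1) (nat_lit 5) (nat_lit 283) (nat_lit 253) r0_283 r1_253 (nat_lit 0) (nat_lit 0) (nat_lit 0) (nat_lit 0x7925b2abb0) (nat_lit 3363691968),
  Rx.mk (nat_lit 76) (nat_lit 4) (nat_lit 1) (nat_lit 1) (nat_lit 6) (nat_lit 282) (nat_lit 252) r0_282 r1_252 (nat_lit 0) (nat_lit 0) (nat_lit 0) (nat_lit 0x7ff9bf840e) (nat_lit 11987352),
  Rx.mk (nat_lit 77) (nat_lit 5) (nat_lit 1) (nat_lit 1) (nat_lit 7) (nat_lit 284) (nat_lit 254) r0_284 r1_254 (nat_lit 0) (nat_lit 0) (nat_lit 0) (nat_lit 0x7bdf3f502c) (nat_lit 2026213488)]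
noncomputable def e33_2 : List Rx := [
  Rx.mk (nat_lit 76) (nat_lit 4) (nat_lit 1) (nat_lit 1) (nat_lit 6) (nat_lit 285) (nat_lit 276) r0_285 r2_276 (nat_lit 0) (nat_lit 0) (nat_lit 0) (nat_lit 0x7e3ae53372) (nat_lit 868781160),
  Rx.mk (nat_lit 77) (nat_lit 5) (nat_lit 1) (nat_lit 1) (nat_lit 7) (nat_lit 287) (nat_lit 278) r0_287 r2_278 (nat_lit 0) (nat_lit 0) (nat_lit 0) (nat_lit 0x7de4b8169a) (nat_lit 1034015112),
  Rx.mk (nat_lit 332) (nat_lit 4) (nat_lit 1) (nat_lit 5) (nat_lit 6) (nat_lit 286) (nat_lit 277) r0_286 r2_277 (nat_lit 0) (nat_lit 0) (nat_lit 0) (nat_lit 0x7e0b17707e) (nat_lit 960439896),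
  Rx.mk (nat_lit 333) (nat_lit 5) (nat_lit 1) (nat_lit 5) (nat_lit 7) (nat_lit 288) (nat_lit 279) r0_288 r2_279 (nat_lit 0) (nat_lit 0) (nat_lit 0) (nat_lit 0x7de13f8e26) (nat_lit 1040670072)]
noncomputable def e33_3 : List Rx := [
  Rx.mk (nat_lit 5) (nat_lit 5) (nat_lit 0) (nat_lit 0) (nat_lit 1) (nat_lit 301) (nat_lit 240) r0_301 r3_240 (nat_lit 0) (nat_lit 0) (nat_lit 0) (nat_lit 0x7ffd37ac88) (nat_lit 5335200),
  Rx.mk (nat_lit 12) (nat_lit 4) (nat_lit 1) (nat_lit 0) (nat_lit 2) (nat_lit 359) (nat_lit 238) r0_359 r3_238 (nat_lit 0) (nat_lit 0) (nat_lit 0) (nat_lit 0x8000000000) (nat_lit 0),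
  Rx.mk (nat_lit 13) (nat_lit 5) (nat_lit 1) (nat_lit 0) (nat_lit 3) (nat_lit 302) (nat_lit 242) r0_302 r3_242 (nat_lit 0) (nat_lit 0) (nat_lit 0) (nat_lit 0x7efff78188) (nat_lit 490917024),
  Rx.mk (nat_lit 197) (nat_lit 5) (nat_lit 0) (nat_lit 3) (nat_lit 5) (nat_lit 303) (nat_lit 241) r0_303 r3_241 (nat_lit 0) (nat_lit 0) (nat_lit 0) (nat_lit 0x7da58729e8) (nat_lit 1155177504),
  Rx.mk (nat_lit 204) (nat_lit 4) (nat_lit 1) (nat_lit 3) (nat_lit 6) (nat_lit 300) (nat_lit 239) r0_300 r3_239 (nat_lit 0) (nat_lit 0) (nat_lit 0) (nat_lit 0x8000000000) (nat_lit 0),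
  Rx.mk (nat_lit 205) (nat_lit 5) (nat_lit 1) (nat_lit 3) (nat_lit 7) (nat_lit 304) (nat_lit 243) r0_304 r3_243 (nat_lit 0) (nat_lit 0) (nat_lit 0) (nat_lit 0x7feb704910) (nat_lit 39424320)]
noncomputable def e33_4 : List Rx := [
  Rx.mk (nat_lit 5) (nat_lit 5) (nat_lit 0) (nat_lit 0) (nat_lit 1) (nat_lit 308) (nat_lit 256) r0_308 r4_256 (nat_lit 0) (nat_lit 0) (nat_lit 0) (nat_lit 0x6d9ecf456e) (nat_lit 9021713688),
  Rx.mk (nat_lit 12) (nat_lit 4) (nat_lit 1) (nat_lit 0) (nat_lit 2) (nat_lit 305) (nat_lit 253) r0_305 r4_253 (nat_lit 0) (nat_lit 0) (nat_lit 0) (nat_lit 0x72ea26eaa8) (nat_lit 6422985504),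
  Rx.mk (nat_lit 13) (nat_lit 5) (nat_lit 1) (nat_lit 0) (nat_lit 3) (nat_lit 309) (nat_lit 259) r0_309 r4_259 (nat_lit 0) (nat_lit 0) (nat_lit 0) (nat_lit 0x7d715ecca2) (nat_lit 1255184424),
  Rx.mk (nat_lit 69) (nat_lit 5) (nat_lit 0) (nat_lit 1) (nat_lit 5) (nat_lit 310) (nat_lit 257) r0_310 r4_257 (nat_lit 0) (nat_lit 0) (nat_lit 0) (nat_lit 0x7da9e10446) (nat_lit 1146834936),
  Rx.mk (nat_lit 76) (nat_lit 4) (nat_lit 1) (nat_lit 1) (nat_lit 6) (nat_lit 306) (nat_lit 254) r0_306 r4_254 (nat_lit 0) (nat_lit 0) (nat_lit 0) (nat_lit 0x765dc16d8c) (nat_lit 4728767472),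
  Rx.mk (nat_lit 77) (nat_lit 5) (nat_lit 1) (nat_lit 1) (nat_lit 7) (nat_lit 311) (nat_lit 260) r0_311 r4_260 (nat_lit 0) (nat_lit 0) (nat_lit 0) (nat_lit 0x7e65ac46d6) (nat_lit 786759480),
  Rx.mk (nat_lit 197) (nat_lit 5) (nat_lit 0) (nat_lit 3) (nat_lit 5) (nat_lit 312) (nat_lit 258) r0_312 r4_258 (nat_lit 0) (nat_lit 0) (nat_lit 0) (nat_lit 0x76d4fe194a) (nat_lit 4500142920),
  Rx.mk (nat_lit 204) (nat_lit 4) (nat_lit 1) (nat_lit 3) (nat_lit 6) (nat_lit 307) (nat_lit 255) r0_307 r4_255 (nat_lit 0) (nat_lit 0) (nat_lit 0) (nat_lit 0x7e1c8ad936) (nat_lit 926979768),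
  Rx.mk (nat_lit 205) (nat_lit 5) (nat_lit 1) (nat_lit 3) (nat_lit 7) (nat_lit 313) (nat_lit 261) r0_313 r4_261 (nat_lit 0) (nat_lit 0) (nat_lit 0) (nat_lit 0x7e5d9fc7a6) (nat_lit 802192248)]
noncomputable def e33_5 : List Rx := [
  Rx.mk (nat_lit 460) (nat_lit 4) (nat_lit 1) (nat_lit 7) (nat_lit 6) (nat_lit 71) (nat_lit 244) r0_71 r3_244 (nat_lit 0) (nat_lit 0) (nat_lit 0) (nat_lit 0x8000000000) (nat_lit 0)]
noncomputable def e33_6 : List Rx := [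
  Rx.mk (nat_lit 268) (nat_lit 4) (nat_lit 1) (nat_lit 4) (nat_lit 2) (nat_lit 171) (nat_lit 248) r0_171 r0_248 (nat_lit 0) (nat_lit 0) (nat_lit 0) (nat_lit 0x7d82b5b722) (nat_lit 1221937704),
  Rx.mk (nat_lit 332) (nat_lit 4) (nat_lit 1) (nat_lit 5) (nat_lit 6) (nat_lit 172) (nat_lit 249) r0_172 r0_249 (nat_lit 0) (nat_lit 0) (nat_lit 0) (nat_lit 0x79e90615b6) (nat_lit 2989174968)]
noncomputable def e33_7 : List Rx := [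
  Rx.mk (nat_lit 332) (nat_lit 4) (nat_lit 1) (nat_lit 5) (nat_lit 6) (nat_lit 173) (nat_lit 255) r0_173 r1_255 (nat_lit 0) (nat_lit 0) (nat_lit 0) (nat_lit 0x7da5614c46) (nat_lit 1155461112)]
noncomputable def e33_8 : List Rx := [
  Rx.mk (nat_lit 268) (nat_lit 4) (nat_lit 1) (nat_lit 4) (nat_lit 2) (nat_lit 174) (nat_lit 262) r0_174 r4_262 (nat_lit 0) (nat_lit 0) (nat_lit 0) (nat_lit 0x67e873f0da) (nat_lit 11825630856),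
  Rx.mk (nat_lit 332) (nat_lit 4) (nat_lit 1) (nat_lit 5) (nat_lit 6) (nat_lit 175) (nat_lit 263) r0_175 r4_263 (nat_lit 0) (nat_lit 0) (nat_lit 0) (nat_lit 0x7e1f5bcc24) (nat_lit 921579984),
  Rx.mk (nat_lit 460) (nat_lit 4) (nat_lit 1) (nat_lit 7) (nat_lit 6) (nat_lit 176) (nat_lit 264) r0_176 r4_264 (nat_lit 0) (nat_lit 0) (nat_lit 0) (nat_lit 0x75d49f6036) (nat_lit 4991705784)]
noncomputable def e33_9 : List Rx := [
  Rx.mk (nat_lit 204) (nat_lit 4) (nat_lit 1) (nat_lit 3) (nat_lit 6) (nat_lit 222) (nat_lit 276) r0_222 r5_276 (nat_lit 0) (nat_lit 0) (nat_lit 0) (nat_lit 0x7ff5e6a1a0) (nat_lit 19363968),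
  Rx.mk (nat_lit 460) (nat_lit 4) (nat_lit 1) (nat_lit 7) (nat_lit 6) (nat_lit 223) (nat_lit 277) r0_223 r5_277 (nat_lit 0) (nat_lit 0) (nat_lit 0) (nat_lit 0x7c3f149278) (nat_lit 1842463584)]
noncomputable def e33_10 : List Rx := [
  Rx.mk (nat_lit 5) (nat_lit 5) (nat_lit 0) (nat_lit 0) (nat_lit 1) (nat_lit 248) (nat_lit 171) r0_248 r0_171 (nat_lit 0) (nat_lit 0) (nat_lit 0) (nat_lit 0x7d82b5b722) (nat_lit 1221937704),
  Rx.mk (nat_lit 13) (nat_lit 5) (nat_lit 1) (nat_lit 0) (nat_lit 3) (nat_lit 249) (nat_lit 172) r0_249 r0_172 (nat_lit 0) (nat_lit 0) (nat_lit 0) (nat_lit 0x79e90615b6) (nat_lit 2989174968)]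
noncomputable def e33_11 : List Rx := [
  Rx.mk (nat_lit 5) (nat_lit 5) (nat_lit 0) (nat_lit 0) (nat_lit 1) (nat_lit 250) (nat_lit 315) r0_250 r6_315 (nat_lit 0) (nat_lit 0) (nat_lit 0) (nat_lit 0x69df6adf74) (nat_lit 10861248528),
  Rx.mk (nat_lit 13) (nat_lit 5) (nat_lit 1) (nat_lit 0) (nat_lit 3) (nat_lit 251) (nat_lit 317) r0_251 r6_317 (nat_lit 0) (nat_lit 0) (nat_lit 0) (nat_lit 0x7da3d1a542) (nat_lit 1158454440),
  Rx.mk (nat_lit 69) (nat_lit 5) (nat_lit 0) (nat_lit 1) (nat_lit 5) (nat_lit 252) (nat_lit 316) r0_252 r6_316 (nat_lit 0) (nat_lit 0) (nat_lit 0) (nat_lit 0x7bc64bff7a) (nat_lit 2074053384),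
  Rx.mk (nat_lit 77) (nat_lit 5) (nat_lit 1) (nat_lit 1) (nat_lit 7) (nat_lit 253) (nat_lit 318) r0_253 r6_318 (nat_lit 0) (nat_lit 0) (nat_lit 0) (nat_lit 0x7e1cb5968a) (nat_lit 926659656)]
noncomputable def e33_12 : List Rx := [
  Rx.mk (nat_lit 1) (nat_lit 1) (nat_lit 0) (nat_lit 0) (nat_lit 1) (nat_lit 265) (nat_lit 180) r0_265 r1_180 (nat_lit 0) (nat_lit 0) (nat_lit 0) (nat_lit 0x5c4ea51962) (nat_lit 17519929128),
  Rx.mk (nat_lit 5) (nat_lit 5) (nat_lit 0) (nat_lit 0) (nat_lit 1) (nat_lit 269) (nat_lit 179) r0_269 r1_179 (nat_lit 0) (nat_lit 0) (nat_lit 0) (nat_lit 0x7fe711eefa) (nat_lit 47800584),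
  Rx.mk (nat_lit 9) (nat_lit 1) (nat_lit 1) (nat_lit 0) (nat_lit 3) (nat_lit 266) (nat_lit 182) r0_266 r1_182 (nat_lit 0) (nat_lit 0) (nat_lit 0) (nat_lit 0x77997950d2) (nat_lit 4123410408),
  Rx.mk (nat_lit 13) (nat_lit 5) (nat_lit 1) (nat_lit 0) (nat_lit 3) (nat_lit 270) (nat_lit 181) r0_270 r1_181 (nat_lit 0) (nat_lit 0) (nat_lit 0) (nat_lit 0x7a861a03da) (nat_lit 2687994504),
  Rx.mk (nat_lit 17) (nat_lit 1) (nat_lit 2) (nat_lit 0) (nat_lit 3) (nat_lit 267) (nat_lit 183) r0_267 r1_183 (nat_lit 0) (nat_lit 0) (nat_lit 0) (nat_lit 0x7389907370) (nat_lit 6117329088),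
  Rx.mk (nat_lit 145) (nat_lit 1) (nat_lit 2) (nat_lit 2) (nat_lit 7) (nat_lit 268) (nat_lit 184) r0_268 r1_184 (nat_lit 0) (nat_lit 0) (nat_lit 0) (nat_lit 0x6ddb0661c0) (nat_lit 8906257152)]
noncomputable def e33_13 : List Rx := [
  Rx.mk (nat_lit 1) (nat_lit 1) (nat_lit 0) (nat_lit 0) (nat_lit 1) (nat_lit 271) (nat_lit 230) r0_271 r7_230 (nat_lit 0) (nat_lit 0) (nat_lit 0) (nat_lit 0x52675b77e4) (nat_lit 22381079760),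
  Rx.mk (nat_lit 5) (nat_lit 5) (nat_lit 0) (nat_lit 0) (nat_lit 1) (nat_lit 278) (nat_lit 237) r0_278 r7_237 (nat_lit 0) (nat_lit 0) (nat_lit 0) (nat_lit 0x5c996eec7a) (nat_lit 17376530184),
  Rx.mk (nat_lit 9) (nat_lit 1) (nat_lit 1) (nat_lit 0) (nat_lit 3) (nat_lit 272) (nat_lit 232) r0_272 r7_232 (nat_lit 0) (nat_lit 0) (nat_lit 0) (nat_lit 0x77e11e9636) (nat_lit 3986037432),
  Rx.mk (nat_lit 13) (nat_lit 5) (nat_lit 1) (nat_lit 0) (nat_lit 3) (nat_lit 279) (nat_lit 239) r0_279 r7_239 (nat_lit 0) (nat_lit 0) (nat_lit 0) (nat_lit 0x7c51f5245c) (nat_lit 1806268464),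
  Rx.mk (nat_lit 17) (nat_lit 1) (nat_lit 2) (nat_lit 0) (nat_lit 3) (nat_lit 273) (nat_lit 234) r0_273 r7_234 (nat_lit 0) (nat_lit 0) (nat_lit 0) (nat_lit 0x7d448d19ea) (nat_lit 1341120456),
  Rx.mk (nat_lit 65) (nat_lit 1) (nat_lit 0) (nat_lit 1) (nat_lit 5) (nat_lit 274) (nat_lit 231) r0_274 r7_231 (nat_lit 0) (nat_lit 0) (nat_lit 0) (nat_lit 0x7a2fb2caa4) (nat_lit 2853663696),
  Rx.mk (nat_lit 69) (nat_lit 5) (nat_lit 0) (nat_lit 1) (nat_lit 5) (nat_lit 280) (nat_lit 238) r0_280 r7_238 (nat_lit 0) (nat_lit 0) (nat_lit 0) (nat_lit 0x7d503ebec4) (nat_lit 1318698576),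
  Rx.mk (nat_lit 73) (nat_lit 1) (nat_lit 1) (nat_lit 1) (nat_lit 7) (nat_lit 275) (nat_lit 233) r0_275 r7_233 (nat_lit 0) (nat_lit 0) (nat_lit 0) (nat_lit 0x7d51c5c652) (nat_lit 1315769832),
  Rx.mk (nat_lit 77) (nat_lit 5) (nat_lit 1) (nat_lit 1) (nat_lit 7) (nat_lit 281) (nat_lit 240) r0_281 r7_240 (nat_lit 0) (nat_lit 0) (nat_lit 0) (nat_lit 0x7df400a202) (nat_lit 1004710824),
  Rx.mk (nat_lit 81) (nat_lit 1) (nat_lit 2) (nat_lit 1) (nat_lit 7) (nat_lit 276) (nat_lit 235) r0_276 r7_235 (nat_lit 0) (nat_lit 0) (nat_lit 0) (nat_lit 0x7df2301f0c) (nat_lit 1008189936),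
  Rx.mk (nat_lit 145) (nat_lit 1) (nat_lit 2) (nat_lit 2) (nat_lit 7) (nat_lit 277) (nat_lit 236) r0_277 r7_236 (nat_lit 0) (nat_lit 0) (nat_lit 0) (nat_lit 0x7df55c2c48) (nat_lit 1002107808)]
noncomputable def e33_14 : List Rx := [
  Rx.mk (nat_lit 69) (nat_lit 5) (nat_lit 0) (nat_lit 1) (nat_lit 5) (nat_lit 289) (nat_lit 178) r0_289 r7_178 (nat_lit 0) (nat_lit 0) (nat_lit 0) (nat_lit 0x7b30873c5c) (nat_lit 2361219120),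
  Rx.mk (nat_lit 77) (nat_lit 5) (nat_lit 1) (nat_lit 1) (nat_lit 7) (nat_lit 290) (nat_lit 179) r0_290 r7_179 (nat_lit 0) (nat_lit 0) (nat_lit 0) (nat_lit 0x7df79428c6) (nat_lit 997853688)]
noncomputable def e33_15 : List Rx := [
  Rx.mk (nat_lit 77) (nat_lit 5) (nat_lit 1) (nat_lit 1) (nat_lit 7) (nat_lit 291) (nat_lit 248) r0_291 r8_248 (nat_lit 0) (nat_lit 0) (nat_lit 0) (nat_lit 0x7df24f9d14) (nat_lit 1007954064),
  Rx.mk (nat_lit 333) (nat_lit 5) (nat_lit 1) (nat_lit 5) (nat_lit 7) (nat_lit 292) (nat_lit 249) r0_292 r8_249 (nat_lit 0) (nat_lit 0) (nat_lit 0) (nat_lit 0x7ddc669bba) (nat_lit 1049964552)]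
noncomputable def e33_16 : List Rx := [
  Rx.mk (nat_lit 5) (nat_lit 5) (nat_lit 0) (nat_lit 0) (nat_lit 1) (nat_lit 317) (nat_lit 155) r0_317 r4_155 (nat_lit 0) (nat_lit 0) (nat_lit 0) (nat_lit 0x6ef1331dde) (nat_lit 8372885976),
  Rx.mk (nat_lit 13) (nat_lit 5) (nat_lit 1) (nat_lit 0) (nat_lit 3) (nat_lit 318) (nat_lit 156) r0_318 r4_156 (nat_lit 0) (nat_lit 0) (nat_lit 0) (nat_lit 0x7d38edd3ea) (nat_lit 1363404744),
  Rx.mk (nat_lit 197) (nat_lit 5) (nat_lit 0) (nat_lit 3) (nat_lit 5) (nat_lit 319) (nat_lit 157) r0_319 r4_157 (nat_lit 0) (nat_lit 0) (nat_lit 0) (nat_lit 0x76db4494dc) (nat_lit 4488110640),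
  Rx.mk (nat_lit 205) (nat_lit 5) (nat_lit 1) (nat_lit 3) (nat_lit 7) (nat_lit 320) (nat_lit 158) r0_320 r4_158 (nat_lit 0) (nat_lit 0) (nat_lit 0) (nat_lit 0x7ece365dcc) (nat_lit 586316016)]
noncomputable def e33_17 : List Rx := [
  Rx.mk (nat_lit 5) (nat_lit 5) (nat_lit 0) (nat_lit 0) (nat_lit 1) (nat_lit 321) (nat_lit 273) r0_321 r9_273 (nat_lit 0) (nat_lit 0) (nat_lit 0) (nat_lit 0x6fbd3d3c70) (nat_lit 7981661376),
  Rx.mk (nat_lit 13) (nat_lit 5) (nat_lit 1) (nat_lit 0) (nat_lit 3) (nat_lit 322) (nat_lit 276) r0_322 r9_276 (nat_lit 0) (nat_lit 0) (nat_lit 0) (nat_lit 0x7d8ed7d4f4) (nat_lit 1198673424),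
  Rx.mk (nat_lit 69) (nat_lit 5) (nat_lit 0) (nat_lit 1) (nat_lit 5) (nat_lit 323) (nat_lit 274) r0_323 r9_274 (nat_lit 0) (nat_lit 0) (nat_lit 0) (nat_lit 0x7d7df942ee) (nat_lit 1231018776),
  Rx.mk (nat_lit 77) (nat_lit 5) (nat_lit 1) (nat_lit 1) (nat_lit 7) (nat_lit 324) (nat_lit 277) r0_324 r9_277 (nat_lit 0) (nat_lit 0) (nat_lit 0) (nat_lit 0x7e0faa474c) (nat_lit 951670512),
  Rx.mk (nat_lit 197) (nat_lit 5) (nat_lit 0) (nat_lit 3) (nat_lit 5) (nat_lit 325) (nat_lit 275) r0_325 r9_275 (nat_lit 0) (nat_lit 0) (nat_lit 0) (nat_lit 0x7a4fc4e962) (nat_lit 2792171304),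
  Rx.mk (nat_lit 205) (nat_lit 5) (nat_lit 1) (nat_lit 3) (nat_lit 7) (nat_lit 326) (nat_lit 278) r0_326 r9_278 (nat_lit 0) (nat_lit 0) (nat_lit 0) (nat_lit 0x7e1ddac436) (nat_lit 924463800)]
noncomputable def e33_18 : List Rx := [
  Rx.mk (nat_lit 197) (nat_lit 5) (nat_lit 0) (nat_lit 3) (nat_lit 5) (nat_lit 327) (nat_lit 298) r0_327 r10_298 (nat_lit 0) (nat_lit 0) (nat_lit 0) (nat_lit 0x7e2b75aa7a) (nat_lit 898377480),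
  Rx.mk (nat_lit 205) (nat_lit 5) (nat_lit 1) (nat_lit 3) (nat_lit 7) (nat_lit 328) (nat_lit 299) r0_328 r10_299 (nat_lit 0) (nat_lit 0) (nat_lit 0) (nat_lit 0x7df79428c6) (nat_lit 997853688)]
noncomputable def e33_19 : List Rx := [
  Rx.mk (nat_lit 76) (nat_lit 4) (nat_lit 1) (nat_lit 1) (nat_lit 6) (nat_lit 293) (nat_lit 254) r0_293 r8_254 (nat_lit 0) (nat_lit 0) (nat_lit 0) (nat_lit 0x7c454cceee) (nat_lit 1830538008),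
  Rx.mk (nat_lit 77) (nat_lit 5) (nat_lit 1) (nat_lit 1) (nat_lit 7) (nat_lit 296) (nat_lit 256) r0_296 r8_256 (nat_lit 0) (nat_lit 0) (nat_lit 0) (nat_lit 0x7df79428c6) (nat_lit 997853688),
  Rx.mk (nat_lit 332) (nat_lit 4) (nat_lit 1) (nat_lit 5) (nat_lit 6) (nat_lit 294) (nat_lit 253) r0_294 r8_253 (nat_lit 0) (nat_lit 0) (nat_lit 0) (nat_lit 0x7d40db9506) (nat_lit 1348202232),
  Rx.mk (nat_lit 333) (nat_lit 5) (nat_lit 1) (nat_lit 5) (nat_lit 7) (nat_lit 297) (nat_lit 255) r0_297 r8_255 (nat_lit 0) (nat_lit 0) (nat_lit 0) (nat_lit 0x7de02cbf54) (nat_lit 1042728336),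
  Rx.mk (nat_lit 364) (nat_lit 4) (nat_lit 5) (nat_lit 5) (nat_lit 6) (nat_lit 295) (nat_lit 250) r0_295 r8_250 (nat_lit 0) (nat_lit 0) (nat_lit 0) (nat_lit 0x7d3d9e48de) (nat_lit 1354413528),
  Rx.mk (nat_lit 365) (nat_lit 5) (nat_lit 5) (nat_lit 5) (nat_lit 7) (nat_lit 298) (nat_lit 251) r0_298 r8_251 (nat_lit 0) (nat_lit 0) (nat_lit 0) (nat_lit 0x7df79428c6) (nat_lit 997853688),
  Rx.mk (nat_lit 366) (nat_lit 6) (nat_lit 5) (nat_lit 5) (nat_lit 7) (nat_lit 299) (nat_lit 252) r0_299 r8_252 (nat_lit 0) (nat_lit 0) (nat_lit 0) (nat_lit 0x7dea449dcc) (nat_lit 1023375600)]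
noncomputable def e33_20 : List Rx := [
  Rx.mk (nat_lit 302) (nat_lit 6) (nat_lit 5) (nat_lit 4) (nat_lit 3) (nat_lit 73) (nat_lit 72) r0_73 r0_72 (nat_lit 0) (nat_lit 0) (nat_lit 0) (nat_lit 0x75b2e4dc00) (nat_lit 5056376832),
  Rx.mk (nat_lit 492) (nat_lit 4) (nat_lit 5) (nat_lit 7) (nat_lit 6) (nat_lit 72) (nat_lit 73) r0_72 r0_73 (nat_lit 0) (nat_lit 0) (nat_lit 0) (nat_lit 0x75b2e4dc00) (nat_lit 5056376832),
  Rx.mk (nat_lit 494) (nat_lit 6) (nat_lit 5) (nat_lit 7) (nat_lit 7) (nat_lit 74) (nat_lit 74) r0_74 r0_74 (nat_lit 0) (nat_lit 0) (nat_lit 0) (nat_lit 0x7dc68519e8) (nat_lit 1091918880)]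
noncomputable def e33_21 : List Rx := [
  Rx.mk (nat_lit 302) (nat_lit 6) (nat_lit 5) (nat_lit 4) (nat_lit 3) (nat_lit 76) (nat_lit 69) r0_76 r1_69 (nat_lit 0) (nat_lit 0) (nat_lit 0) (nat_lit 0x7d345c1d0a) (nat_lit 1372165704),
  Rx.mk (nat_lit 430) (nat_lit 6) (nat_lit 5) (nat_lit 6) (nat_lit 7) (nat_lit 77) (nat_lit 72) r0_77 r1_72 (nat_lit 0) (nat_lit 0) (nat_lit 0) (nat_lit 0x7d7df4633c) (nat_lit 1231055280),
  Rx.mk (nat_lit 492) (nat_lit 4) (nat_lit 5) (nat_lit 7) (nat_lit 6) (nat_lit 75) (nat_lit 70) r0_75 r1_70 (nat_lit 0) (nat_lit 0) (nat_lit 0) (nat_lit 0x7de3d424da) (nat_lit 1035722376),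
  Rx.mk (nat_lit 494) (nat_lit 6) (nat_lit 5) (nat_lit 7) (nat_lit 7) (nat_lit 78) (nat_lit 71) r0_78 r1_71 (nat_lit 0) (nat_lit 0) (nat_lit 0) (nat_lit 0x7ea4197fc4) (nat_lit 667062864)]
noncomputable def e33_22 : List Rx := [
  Rx.mk (nat_lit 460) (nat_lit 4) (nat_lit 1) (nat_lit 7) (nat_lit 6) (nat_lit 79) (nat_lit 68) r0_79 r4_68 (nat_lit 0) (nat_lit 0) (nat_lit 0) (nat_lit 0x6338dbcf0c) (nat_lit 14125728240),
  Rx.mk (nat_lit 492) (nat_lit 4) (nat_lit 5) (nat_lit 7) (nat_lit 6) (nat_lit 80) (nat_lit 69) r0_80 r4_69 (nat_lit 0) (nat_lit 0) (nat_lit 0) (nat_lit 0x7933197536) (nat_lit 3337995960),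
  Rx.mk (nat_lit 494) (nat_lit 6) (nat_lit 5) (nat_lit 7) (nat_lit 7) (nat_lit 81) (nat_lit 70) r0_81 r4_70 (nat_lit 0) (nat_lit 0) (nat_lit 0) (nat_lit 0x7e7f2fee82) (nat_lit 737838504)]
noncomputable def e33_23 : List Rx := [
  Rx.mk (nat_lit 268) (nat_lit 4) (nat_lit 1) (nat_lit 4) (nat_lit 2) (nat_lit 177) (nat_lit 325) r0_177 r6_325 (nat_lit 0) (nat_lit 0) (nat_lit 0) (nat_lit 0x6042df11ce) (nat_lit 15579090072),
  Rx.mk (nat_lit 300) (nat_lit 4) (nat_lit 5) (nat_lit 4) (nat_lit 2) (nat_lit 178) (nat_lit 319) r0_178 r6_319 (nat_lit 0) (nat_lit 0) (nat_lit 0) (nat_lit 0x6d7c714b70) (nat_lit 9087609024),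
  Rx.mk (nat_lit 302) (nat_lit 6) (nat_lit 5) (nat_lit 4) (nat_lit 3) (nat_lit 182) (nat_lit 322) r0_182 r6_322 (nat_lit 0) (nat_lit 0) (nat_lit 0) (nat_lit 0x7e87fa21d6) (nat_lit 720984888),
  Rx.mk (nat_lit 332) (nat_lit 4) (nat_lit 1) (nat_lit 5) (nat_lit 6) (nat_lit 179) (nat_lit 326) r0_179 r6_326 (nat_lit 0) (nat_lit 0) (nat_lit 0) (nat_lit 0x7d961fe06c) (nat_lit 1184712048),
  Rx.mk (nat_lit 364) (nat_lit 4) (nat_lit 5) (nat_lit 5) (nat_lit 6) (nat_lit 180) (nat_lit 320) r0_180 r6_320 (nat_lit 0) (nat_lit 0) (nat_lit 0) (nat_lit 0x7d7f2b2fce) (nat_lit 1228727448),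
  Rx.mk (nat_lit 366) (nat_lit 6) (nat_lit 5) (nat_lit 5) (nat_lit 7) (nat_lit 183) (nat_lit 323) r0_183 r6_323 (nat_lit 0) (nat_lit 0) (nat_lit 0) (nat_lit 0x7e596ecaba) (nat_lit 810228744),
  Rx.mk (nat_lit 492) (nat_lit 4) (nat_lit 5) (nat_lit 7) (nat_lit 6) (nat_lit 181) (nat_lit 321) r0_181 r6_321 (nat_lit 0) (nat_lit 0) (nat_lit 0) (nat_lit 0x7e643c7dd4) (nat_lit 789514128),
  Rx.mk (nat_lit 494) (nat_lit 6) (nat_lit 5) (nat_lit 7) (nat_lit 7) (nat_lit 184) (nat_lit 324) r0_184 r6_324 (nat_lit 0) (nat_lit 0) (nat_lit 0) (nat_lit 0x7e6c393e00) (nat_lit 774199296)]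
noncomputable def e33_24 : List Rx := [
  Rx.mk (nat_lit 300) (nat_lit 4) (nat_lit 5) (nat_lit 4) (nat_lit 2) (nat_lit 188) (nat_lit 241) r0_188 r7_241 (nat_lit 0) (nat_lit 0) (nat_lit 0) (nat_lit 0x6c14ae090c) (nat_lit 9777416688),
  Rx.mk (nat_lit 302) (nat_lit 6) (nat_lit 5) (nat_lit 4) (nat_lit 3) (nat_lit 191) (nat_lit 244) r0_191 r7_244 (nat_lit 0) (nat_lit 0) (nat_lit 0) (nat_lit 0x7dd6cb7572) (nat_lit 1060713576),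
  Rx.mk (nat_lit 364) (nat_lit 4) (nat_lit 5) (nat_lit 5) (nat_lit 6) (nat_lit 189) (nat_lit 242) r0_189 r7_242 (nat_lit 0) (nat_lit 0) (nat_lit 0) (nat_lit 0x7d632fcfa0) (nat_lit 1282379904),
  Rx.mk (nat_lit 366) (nat_lit 6) (nat_lit 5) (nat_lit 5) (nat_lit 7) (nat_lit 192) (nat_lit 245) r0_192 r7_245 (nat_lit 0) (nat_lit 0) (nat_lit 0) (nat_lit 0x7df79428c6) (nat_lit 997853688),
  Rx.mk (nat_lit 430) (nat_lit 6) (nat_lit 5) (nat_lit 6) (nat_lit 7) (nat_lit 193) (nat_lit 247) r0_193 r7_247 (nat_lit 0) (nat_lit 0) (nat_lit 0) (nat_lit 0x7de7422df6) (nat_lit 1029146040),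
  Rx.mk (nat_lit 492) (nat_lit 4) (nat_lit 5) (nat_lit 7) (nat_lit 6) (nat_lit 190) (nat_lit 243) r0_190 r7_243 (nat_lit 0) (nat_lit 0) (nat_lit 0) (nat_lit 0x7e4de063ac) (nat_lit 832386672),
  Rx.mk (nat_lit 494) (nat_lit 6) (nat_lit 5) (nat_lit 7) (nat_lit 7) (nat_lit 194) (nat_lit 246) r0_194 r7_246 (nat_lit 0) (nat_lit 0) (nat_lit 0) (nat_lit 0x7de0607c18) (nat_lit 1042340832)]
noncomputable def e33_25 : List Rx := [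
  Rx.mk (nat_lit 332) (nat_lit 4) (nat_lit 1) (nat_lit 5) (nat_lit 6) (nat_lit 185) (nat_lit 63) r0_185 r7_63 (nat_lit 0) (nat_lit 0) (nat_lit 0) (nat_lit 0x7e2fea232e) (nat_lit 889835544),
  Rx.mk (nat_lit 364) (nat_lit 4) (nat_lit 5) (nat_lit 5) (nat_lit 6) (nat_lit 186) (nat_lit 64) r0_186 r7_64 (nat_lit 0) (nat_lit 0) (nat_lit 0) (nat_lit 0x7db1ff225c) (nat_lit 1131270192),
  Rx.mk (nat_lit 366) (nat_lit 6) (nat_lit 5) (nat_lit 5) (nat_lit 7) (nat_lit 187) (nat_lit 65) r0_187 r7_65 (nat_lit 0) (nat_lit 0) (nat_lit 0) (nat_lit 0x7dec1700a4) (nat_lit 1019882448)]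
noncomputable def e33_26 : List Rx := [
  Rx.mk (nat_lit 268) (nat_lit 4) (nat_lit 1) (nat_lit 4) (nat_lit 2) (nat_lit 195) (nat_lit 281) r0_195 r9_281 (nat_lit 0) (nat_lit 0) (nat_lit 0) (nat_lit 0x604e485b2e) (nat_lit 15557210136),
  Rx.mk (nat_lit 332) (nat_lit 4) (nat_lit 1) (nat_lit 5) (nat_lit 6) (nat_lit 196) (nat_lit 282) r0_196 r9_282 (nat_lit 0) (nat_lit 0) (nat_lit 0) (nat_lit 0x7d6198a914) (nat_lit 1285429392),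
  Rx.mk (nat_lit 460) (nat_lit 4) (nat_lit 1) (nat_lit 7) (nat_lit 6) (nat_lit 197) (nat_lit 283) r0_197 r9_283 (nat_lit 0) (nat_lit 0) (nat_lit 0) (nat_lit 0x7e0e1fdff4) (nat_lit 954624528),
  Rx.mk (nat_lit 492) (nat_lit 4) (nat_lit 5) (nat_lit 7) (nat_lit 6) (nat_lit 198) (nat_lit 279) r0_198 r9_279 (nat_lit 0) (nat_lit 0) (nat_lit 0) (nat_lit 0x7ccb9f693e) (nat_lit 1572988248),
  Rx.mk (nat_lit 494) (nat_lit 6) (nat_lit 5) (nat_lit 7) (nat_lit 7) (nat_lit 199) (nat_lit 280) r0_199 r9_280 (nat_lit 0) (nat_lit 0) (nat_lit 0) (nat_lit 0x7e3eef92c8) (nat_lit 861033888)]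
noncomputable def e33_27 : List Rx := [
  Rx.mk (nat_lit 460) (nat_lit 4) (nat_lit 1) (nat_lit 7) (nat_lit 6) (nat_lit 225) (nat_lit 302) r0_225 r10_302 (nat_lit 0) (nat_lit 0) (nat_lit 0) (nat_lit 0x7c7d384ffe) (nat_lit 1723317336),
  Rx.mk (nat_lit 492) (nat_lit 4) (nat_lit 5) (nat_lit 7) (nat_lit 6) (nat_lit 226) (nat_lit 300) r0_226 r10_300 (nat_lit 0) (nat_lit 0) (nat_lit 0) (nat_lit 0x7dddc22600) (nat_lit 1047361536),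
  Rx.mk (nat_lit 494) (nat_lit 6) (nat_lit 5) (nat_lit 7) (nat_lit 7) (nat_lit 227) (nat_lit 301) r0_227 r10_301 (nat_lit 0) (nat_lit 0) (nat_lit 0) (nat_lit 0x7e9ab5f606) (nat_lit 685064952)]
noncomputable def e33_28 : List Rx := [
  Rx.mk (nat_lit 4) (nat_lit 4) (nat_lit 0) (nat_lit 0) (nat_lit 0) (nat_lit 341) (nat_lit 165) r0_341 r10_165 (nat_lit 0) (nat_lit 0) (nat_lit 0) (nat_lit 0x2d7a01d26e) (nat_lit 40506896664),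
  Rx.mk (nat_lit 5) (nat_lit 5) (nat_lit 0) (nat_lit 0) (nat_lit 1) (nat_lit 348) (nat_lit 166) r0_348 r10_166 (nat_lit 0) (nat_lit 0) (nat_lit 0) (nat_lit 0x7a5f28731a) (nat_lit 2762664840),
  Rx.mk (nat_lit 7) (nat_lit 7) (nat_lit 0) (nat_lit 0) (nat_lit 1) (nat_lit 355) (nat_lit 167) r0_355 r10_167 (nat_lit 0) (nat_lit 0) (nat_lit 0) (nat_lit 0x7cc600e32c) (nat_lit 1583762544),
  Rx.mk (nat_lit 12) (nat_lit 4) (nat_lit 1) (nat_lit 0) (nat_lit 2) (nat_lit 342) (nat_lit 168) r0_342 r10_168 (nat_lit 0) (nat_lit 0) (nat_lit 0) (nat_lit 0x7aa5ac4a96) (nat_lit 2627459640),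
  Rx.mk (nat_lit 13) (nat_lit 5) (nat_lit 1) (nat_lit 0) (nat_lit 3) (nat_lit 349) (nat_lit 169) r0_349 r10_169 (nat_lit 0) (nat_lit 0) (nat_lit 0) (nat_lit 0x7dda7f3a32) (nat_lit 1053614952),
  Rx.mk (nat_lit 15) (nat_lit 7) (nat_lit 1) (nat_lit 0) (nat_lit 3) (nat_lit 356) (nat_lit 170) r0_356 r10_170 (nat_lit 0) (nat_lit 0) (nat_lit 0) (nat_lit 0x7df00ea126) (nat_lit 1012275576),
  Rx.mk (nat_lit 68) (nat_lit 4) (nat_lit 0) (nat_lit 1) (nat_lit 4) (nat_lit 343) (nat_lit 171) r0_343 r10_171 (nat_lit 0) (nat_lit 0) (nat_lit 0) (nat_lit 0x79a5a2ac30) (nat_lit 3118385088),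
  Rx.mk (nat_lit 69) (nat_lit 5) (nat_lit 0) (nat_lit 1) (nat_lit 5) (nat_lit 350) (nat_lit 172) r0_350 r10_172 (nat_lit 0) (nat_lit 0) (nat_lit 0) (nat_lit 0x7dd895f8c8) (nat_lit 1057279392),
  Rx.mk (nat_lit 71) (nat_lit 7) (nat_lit 0) (nat_lit 1) (nat_lit 5) (nat_lit 357) (nat_lit 173) r0_357 r10_173 (nat_lit 0) (nat_lit 0) (nat_lit 0) (nat_lit 0x7e5a0a0106) (nat_lit 809066232),
  Rx.mk (nat_lit 76) (nat_lit 4) (nat_lit 1) (nat_lit 1) (nat_lit 6) (nat_lit 344) (nat_lit 174) r0_344 r10_174 (nat_lit 0) (nat_lit 0) (nat_lit 0) (nat_lit 0x7df905d1aa) (nat_lit 995085000),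
  Rx.mk (nat_lit 77) (nat_lit 5) (nat_lit 1) (nat_lit 1) (nat_lit 7) (nat_lit 351) (nat_lit 175) r0_351 r10_175 (nat_lit 0) (nat_lit 0) (nat_lit 0) (nat_lit 0x7df9cda52c) (nat_lit 993588336),
  Rx.mk (nat_lit 79) (nat_lit 7) (nat_lit 1) (nat_lit 1) (nat_lit 7) (nat_lit 358) (nat_lit 176) r0_358 r10_176 (nat_lit 0) (nat_lit 0) (nat_lit 0) (nat_lit 0x7ea0391dce) (nat_lit 674495640),
  Rx.mk (nat_lit 196) (nat_lit 4) (nat_lit 0) (nat_lit 3) (nat_lit 4) (nat_lit 345) (nat_lit 177) r0_345 r10_177 (nat_lit 0) (nat_lit 0) (nat_lit 0) (nat_lit 0x7b95ea25c8) (nat_lit 2166821280),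
  Rx.mk (nat_lit 197) (nat_lit 5) (nat_lit 0) (nat_lit 3) (nat_lit 5) (nat_lit 352) (nat_lit 178) r0_352 r10_178 (nat_lit 0) (nat_lit 0) (nat_lit 0) (nat_lit 0x7df5b266e4) (nat_lit 1001461968),
  Rx.mk (nat_lit 204) (nat_lit 4) (nat_lit 1) (nat_lit 3) (nat_lit 6) (nat_lit 346) (nat_lit 179) r0_346 r10_179 (nat_lit 0) (nat_lit 0) (nat_lit 0) (nat_lit 0x7deff222ee) (nat_lit 1012488984),
  Rx.mk (nat_lit 205) (nat_lit 5) (nat_lit 1) (nat_lit 3) (nat_lit 7) (nat_lit 353) (nat_lit 180) r0_353 r10_180 (nat_lit 0) (nat_lit 0) (nat_lit 0) (nat_lit 0x7dee0dc136) (nat_lit 1016116920),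
  Rx.mk (nat_lit 220) (nat_lit 4) (nat_lit 3) (nat_lit 3) (nat_lit 6) (nat_lit 347) (nat_lit 181) r0_347 r10_181 (nat_lit 0) (nat_lit 0) (nat_lit 0) (nat_lit 0x7dc039bea4) (nat_lit 1103987664),
  Rx.mk (nat_lit 221) (nat_lit 5) (nat_lit 3) (nat_lit 3) (nat_lit 7) (nat_lit 354) (nat_lit 182) r0_354 r10_182 (nat_lit 0) (nat_lit 0) (nat_lit 0) (nat_lit 0x7df41fc010) (nat_lit 1004477760)]
noncomputable def e33_29 : List Rx := [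
  Rx.mk (nat_lit 199) (nat_lit 7) (nat_lit 0) (nat_lit 3) (nat_lit 5) (nat_lit 85) (nat_lit 5) r0_85 r5_5 (nat_lit 0) (nat_lit 0) (nat_lit 0) (nat_lit 0x7e22c49594) (nat_lit 915042960),
  Rx.mk (nat_lit 207) (nat_lit 7) (nat_lit 1) (nat_lit 3) (nat_lit 7) (nat_lit 86) (nat_lit 6) r0_86 r5_6 (nat_lit 0) (nat_lit 0) (nat_lit 0) (nat_lit 0x7f7c66ba18) (nat_lit 252326880),
  Rx.mk (nat_lit 452) (nat_lit 4) (nat_lit 0) (nat_lit 7) (nat_lit 4) (nat_lit 82) (nat_lit 0) r0_82 r5_0 (nat_lit 0) (nat_lit 0) (nat_lit 0) (nat_lit 0x618a963514) (nat_lit 14950729872),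
  Rx.mk (nat_lit 455) (nat_lit 7) (nat_lit 0) (nat_lit 7) (nat_lit 5) (nat_lit 87) (nat_lit 3) r0_87 r5_3 (nat_lit 0) (nat_lit 0) (nat_lit 0) (nat_lit 0x7a8f772dfe) (nat_lit 2670040152),
  Rx.mk (nat_lit 460) (nat_lit 4) (nat_lit 1) (nat_lit 7) (nat_lit 6) (nat_lit 83) (nat_lit 1) r0_83 r5_1 (nat_lit 0) (nat_lit 0) (nat_lit 0) (nat_lit 0x7c10d4f6a0) (nat_lit 1931140224),
  Rx.mk (nat_lit 463) (nat_lit 7) (nat_lit 1) (nat_lit 7) (nat_lit 7) (nat_lit 88) (nat_lit 4) r0_88 r5_4 (nat_lit 0) (nat_lit 0) (nat_lit 0) (nat_lit 0x7e4a371e44) (nat_lit 839406672),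
  Rx.mk (nat_lit 476) (nat_lit 4) (nat_lit 3) (nat_lit 7) (nat_lit 6) (nat_lit 84) (nat_lit 2) r0_84 r5_2 (nat_lit 0) (nat_lit 0) (nat_lit 0) (nat_lit 0x7ba7d706e8) (nat_lit 2132451360)]
noncomputable def e33_30 : List Rx := [
  Rx.mk (nat_lit 268) (nat_lit 4) (nat_lit 1) (nat_lit 4) (nat_lit 2) (nat_lit 200) (nat_lit 37) r0_200 r10_37 (nat_lit 0) (nat_lit 0) (nat_lit 0) (nat_lit 0x76da66a2bc) (nat_lit 4489772976),
  Rx.mk (nat_lit 332) (nat_lit 4) (nat_lit 1) (nat_lit 5) (nat_lit 6) (nat_lit 201) (nat_lit 38) r0_201 r10_38 (nat_lit 0) (nat_lit 0) (nat_lit 0) (nat_lit 0x7e09e4c3aa) (nat_lit 962736840),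
  Rx.mk (nat_lit 460) (nat_lit 4) (nat_lit 1) (nat_lit 7) (nat_lit 6) (nat_lit 202) (nat_lit 39) r0_202 r10_39 (nat_lit 0) (nat_lit 0) (nat_lit 0) (nat_lit 0x7e49f042b2) (nat_lit 839937384),
  Rx.mk (nat_lit 463) (nat_lit 7) (nat_lit 1) (nat_lit 7) (nat_lit 7) (nat_lit 203) (nat_lit 40) r0_203 r10_40 (nat_lit 0) (nat_lit 0) (nat_lit 0) (nat_lit 0x7e9eee1280) (nat_lit 676975104)]
noncomputable def e33_31 : List Rx := [
  Rx.mk (nat_lit 7) (nat_lit 7) (nat_lit 0) (nat_lit 0) (nat_lit 1) (nat_lit 232) (nat_lit 98) r0_232 r5_98 (nat_lit 0) (nat_lit 0) (nat_lit 0) (nat_lit 0x75597c52e2) (nat_lit 5227808040),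
  Rx.mk (nat_lit 15) (nat_lit 7) (nat_lit 1) (nat_lit 0) (nat_lit 3) (nat_lit 233) (nat_lit 101) r0_233 r5_101 (nat_lit 0) (nat_lit 0) (nat_lit 0) (nat_lit 0x7fa8fdf078) (nat_lit 166828896),
  Rx.mk (nat_lit 196) (nat_lit 4) (nat_lit 0) (nat_lit 3) (nat_lit 4) (nat_lit 228) (nat_lit 99) r0_228 r5_99 (nat_lit 0) (nat_lit 0) (nat_lit 0) (nat_lit 0x746fc68f28) (nat_lit 5675922720),
  Rx.mk (nat_lit 199) (nat_lit 7) (nat_lit 0) (nat_lit 3) (nat_lit 5) (nat_lit 234) (nat_lit 100) r0_234 r5_100 (nat_lit 0) (nat_lit 0) (nat_lit 0) (nat_lit 0x7ee77f2926) (nat_lit 537835896),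
  Rx.mk (nat_lit 204) (nat_lit 4) (nat_lit 1) (nat_lit 3) (nat_lit 6) (nat_lit 229) (nat_lit 102) r0_229 r5_102 (nat_lit 0) (nat_lit 0) (nat_lit 0) (nat_lit 0x7f864e9b90) (nat_lit 233333568),
  Rx.mk (nat_lit 207) (nat_lit 7) (nat_lit 1) (nat_lit 3) (nat_lit 7) (nat_lit 235) (nat_lit 103) r0_235 r5_103 (nat_lit 0) (nat_lit 0) (nat_lit 0) (nat_lit 0x7f62ec71d6) (nat_lit 301177656),
  Rx.mk (nat_lit 220) (nat_lit 4) (nat_lit 3) (nat_lit 3) (nat_lit 6) (nat_lit 230) (nat_lit 104) r0_230 r5_104 (nat_lit 0) (nat_lit 0) (nat_lit 0) (nat_lit 0x7d3f0c91f8) (nat_lit 1351670112),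
  Rx.mk (nat_lit 476) (nat_lit 4) (nat_lit 3) (nat_lit 7) (nat_lit 6) (nat_lit 231) (nat_lit 105) r0_231 r5_105 (nat_lit 0) (nat_lit 0) (nat_lit 0) (nat_lit 0x7b678c2bd6) (nat_lit 2255725368)]
noncomputable def e33_32 : List Rx := [
  Rx.mk (nat_lit 196) (nat_lit 4) (nat_lit 0) (nat_lit 3) (nat_lit 4) (nat_lit 236) (nat_lit 318) r0_236 r11_318 (nat_lit 0) (nat_lit 0) (nat_lit 0) (nat_lit 0x7a6c44a14a) (nat_lit 2737527624),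
  Rx.mk (nat_lit 199) (nat_lit 7) (nat_lit 0) (nat_lit 3) (nat_lit 5) (nat_lit 241) (nat_lit 323) r0_241 r11_323 (nat_lit 0) (nat_lit 0) (nat_lit 0) (nat_lit 0x7e8bdea38a) (nat_lit 713521224),
  Rx.mk (nat_lit 204) (nat_lit 4) (nat_lit 1) (nat_lit 3) (nat_lit 6) (nat_lit 237) (nat_lit 320) r0_237 r11_320 (nat_lit 0) (nat_lit 0) (nat_lit 0) (nat_lit 0x7ff1a7c592) (nat_lit 27504360),
  Rx.mk (nat_lit 207) (nat_lit 7) (nat_lit 1) (nat_lit 3) (nat_lit 7) (nat_lit 242) (nat_lit 324) r0_242 r11_324 (nat_lit 0) (nat_lit 0) (nat_lit 0) (nat_lit 0x7fcf076fba) (nat_lit 93896712),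
  Rx.mk (nat_lit 452) (nat_lit 4) (nat_lit 0) (nat_lit 7) (nat_lit 4) (nat_lit 238) (nat_lit 319) r0_238 r11_319 (nat_lit 0) (nat_lit 0) (nat_lit 0) (nat_lit 0x604a433b84) (nat_lit 15564918096),
  Rx.mk (nat_lit 460) (nat_lit 4) (nat_lit 1) (nat_lit 7) (nat_lit 6) (nat_lit 239) (nat_lit 321) r0_239 r11_321 (nat_lit 0) (nat_lit 0) (nat_lit 0) (nat_lit 0x7a40d59866) (nat_lit 2820807288),
  Rx.mk (nat_lit 476) (nat_lit 4) (nat_lit 3) (nat_lit 7) (nat_lit 6) (nat_lit 240) (nat_lit 322) r0_240 r11_322 (nat_lit 0) (nat_lit 0) (nat_lit 0) (nat_lit 0x7407d02ef6) (nat_lit 5875259832)]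
noncomputable def e33_33 : List Rx := [
  Rx.mk (nat_lit 3) (nat_lit 3) (nat_lit 0) (nat_lit 0) (nat_lit 1) (nat_lit 4) (nat_lit 11) r0_4 r0_11 (nat_lit 0) (nat_lit 0) (nat_lit 0) (nat_lit 0x6d8468cbf0) (nat_lit 9072333504),
  Rx.mk (nat_lit 19) (nat_lit 3) (nat_lit 2) (nat_lit 0) (nat_lit 3) (nat_lit 5) (nat_lit 12) r0_5 r0_12 (nat_lit 0) (nat_lit 0) (nat_lit 0) (nat_lit 0x664f05495e) (nat_lit 12610674648),
  Rx.mk (nat_lit 144) (nat_lit 0) (nat_lit 2) (nat_lit 2) (nat_lit 6) (nat_lit 0) (nat_lit 10) r0_0 r0_10 (nat_lit 0) (nat_lit 0) (nat_lit 0) (nat_lit 0x5a57b84a26) (nat_lit 18484235640),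
  Rx.mk (nat_lit 146) (nat_lit 2) (nat_lit 2) (nat_lit 2) (nat_lit 7) (nat_lit 1) (nat_lit 19) r0_1 r0_19 (nat_lit 0) (nat_lit 0) (nat_lit 0) (nat_lit 0x6c8afca3ac) (nat_lit 9550575216),
  Rx.mk (nat_lit 147) (nat_lit 3) (nat_lit 2) (nat_lit 2) (nat_lit 7) (nat_lit 6) (nat_lit 16) r0_6 r0_16 (nat_lit 0) (nat_lit 0) (nat_lit 0) (nat_lit 0x7776fb78d2) (nat_lit 4189544424),
  Rx.mk (nat_lit 178) (nat_lit 2) (nat_lit 6) (nat_lit 2) (nat_lit 7) (nat_lit 2) (nat_lit 18) r0_2 r0_18 (nat_lit 0) (nat_lit 0) (nat_lit 0) (nat_lit 0x78399a2e24) (nat_lit 3816380880),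
  Rx.mk (nat_lit 195) (nat_lit 3) (nat_lit 0) (nat_lit 3) (nat_lit 5) (nat_lit 7) (nat_lit 13) r0_7 r0_13 (nat_lit 0) (nat_lit 0) (nat_lit 0) (nat_lit 0x7777281608) (nat_lit 4189210272),
  Rx.mk (nat_lit 211) (nat_lit 3) (nat_lit 2) (nat_lit 3) (nat_lit 7) (nat_lit 8) (nat_lit 15) r0_8 r0_15 (nat_lit 0) (nat_lit 0) (nat_lit 0) (nat_lit 0x7676fb99d0) (nat_lit 4680396864),
  Rx.mk (nat_lit 219) (nat_lit 3) (nat_lit 3) (nat_lit 3) (nat_lit 7) (nat_lit 9) (nat_lit 14) r0_9 r0_14 (nat_lit 0) (nat_lit 0) (nat_lit 0) (nat_lit 0x78a05961ca) (nat_lit 3619374408),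
  Rx.mk (nat_lit 223) (nat_lit 7) (nat_lit 3) (nat_lit 3) (nat_lit 7) (nat_lit 17) (nat_lit 3) r0_17 r0_3 (nat_lit 0) (nat_lit 0) (nat_lit 0) (nat_lit 0x763e65836a) (nat_lit 4788895176),
  Rx.mk (nat_lit 294) (nat_lit 6) (nat_lit 4) (nat_lit 4) (nat_lit 1) (nat_lit 11) (nat_lit 4) r0_11 r0_4 (nat_lit 0) (nat_lit 0) (nat_lit 0) (nat_lit 0x6d8468cbf0) (nat_lit 9072333504),
  Rx.mk (nat_lit 318) (nat_lit 6) (nat_lit 7) (nat_lit 4) (nat_lit 3) (nat_lit 12) (nat_lit 5) r0_12 r0_5 (nat_lit 0) (nat_lit 0) (nat_lit 0) (nat_lit 0x664f05495e) (nat_lit 12610674648),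
  Rx.mk (nat_lit 422) (nat_lit 6) (nat_lit 4) (nat_lit 6) (nat_lit 5) (nat_lit 13) (nat_lit 7) r0_13 r0_7 (nat_lit 0) (nat_lit 0) (nat_lit 0) (nat_lit 0x7777281608) (nat_lit 4189210272),
  Rx.mk (nat_lit 434) (nat_lit 2) (nat_lit 6) (nat_lit 6) (nat_lit 7) (nat_lit 3) (nat_lit 17) r0_3 r0_17 (nat_lit 0) (nat_lit 0) (nat_lit 0) (nat_lit 0x763e65836a) (nat_lit 4788895176),
  Rx.mk (nat_lit 438) (nat_lit 6) (nat_lit 6) (nat_lit 6) (nat_lit 7) (nat_lit 14) (nat_lit 9) r0_14 r0_9 (nat_lit 0) (nat_lit 0) (nat_lit 0) (nat_lit 0x78a05961ca) (nat_lit 3619374408),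
  Rx.mk (nat_lit 446) (nat_lit 6) (nat_lit 7) (nat_lit 6) (nat_lit 7) (nat_lit 15) (nat_lit 8) r0_15 r0_8 (nat_lit 0) (nat_lit 0) (nat_lit 0) (nat_lit 0x7676fb99d0) (nat_lit 4680396864),
  Rx.mk (nat_lit 479) (nat_lit 7) (nat_lit 3) (nat_lit 7) (nat_lit 7) (nat_lit 18) (nat_lit 2) r0_18 r0_2 (nat_lit 0) (nat_lit 0) (nat_lit 0) (nat_lit 0x78399a2e24) (nat_lit 3816380880),
  Rx.mk (nat_lit 508) (nat_lit 4) (nat_lit 7) (nat_lit 7) (nat_lit 6) (nat_lit 10) (nat_lit 0) r0_10 r0_0 (nat_lit 0) (nat_lit 0) (nat_lit 0) (nat_lit 0x5a57b84a26) (nat_lit 18484235640),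
  Rx.mk (nat_lit 510) (nat_lit 6) (nat_lit 7) (nat_lit 7) (nat_lit 7) (nat_lit 16) (nat_lit 6) r0_16 r0_6 (nat_lit 0) (nat_lit 0) (nat_lit 0) (nat_lit 0x7776fb78d2) (nat_lit 4189544424),
  Rx.mk (nat_lit 511) (nat_lit 7) (nat_lit 7) (nat_lit 7) (nat_lit 7) (nat_lit 19) (nat_lit 1) r0_19 r0_1 (nat_lit 0) (nat_lit 0) (nat_lit 0) (nat_lit 0x6c8afca3ac) (nat_lit 9550575216)]
noncomputable def e33_34 : List Rx := [
  Rx.mk (nat_lit 3) (nat_lit 3) (nat_lit 0) (nat_lit 0) (nat_lit 1) (nat_lit 94) (nat_lit 91) r0_94 r0_91 (nat_lit 0) (nat_lit 0) (nat_lit 0) (nat_lit 0x64497ea3ce) (nat_lit 13602976920),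
  Rx.mk (nat_lit 16) (nat_lit 0) (nat_lit 2) (nat_lit 0) (nat_lit 2) (nat_lit 91) (nat_lit 94) r0_91 r0_94 (nat_lit 0) (nat_lit 0) (nat_lit 0) (nat_lit 0x64497ea3ce) (nat_lit 13602976920),
  Rx.mk (nat_lit 19) (nat_lit 3) (nat_lit 2) (nat_lit 0) (nat_lit 3) (nat_lit 95) (nat_lit 95) r0_95 r0_95 (nat_lit 0) (nat_lit 0) (nat_lit 0) (nat_lit 0x799825c40c) (nat_lit 3144246768),
  Rx.mk (nat_lit 144) (nat_lit 0) (nat_lit 2) (nat_lit 2) (nat_lit 6) (nat_lit 92) (nat_lit 97) r0_92 r0_97 (nat_lit 0) (nat_lit 0) (nat_lit 0) (nat_lit 0x742628a950) (nat_lit 5817075264),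
  Rx.mk (nat_lit 146) (nat_lit 2) (nat_lit 2) (nat_lit 2) (nat_lit 7) (nat_lit 93) (nat_lit 99) r0_93 r0_99 (nat_lit 0) (nat_lit 0) (nat_lit 0) (nat_lit 0x7e09c9c55a) (nat_lit 962939016),
  Rx.mk (nat_lit 147) (nat_lit 3) (nat_lit 2) (nat_lit 2) (nat_lit 7) (nat_lit 96) (nat_lit 98) r0_96 r0_98 (nat_lit 0) (nat_lit 0) (nat_lit 0) (nat_lit 0x7db4a9d7ae) (nat_lit 1126156824),
  Rx.mk (nat_lit 195) (nat_lit 3) (nat_lit 0) (nat_lit 3) (nat_lit 5) (nat_lit 97) (nat_lit 92) r0_97 r0_92 (nat_lit 0) (nat_lit 0) (nat_lit 0) (nat_lit 0x742628a950) (nat_lit 5817075264),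
  Rx.mk (nat_lit 211) (nat_lit 3) (nat_lit 2) (nat_lit 3) (nat_lit 7) (nat_lit 98) (nat_lit 96) r0_98 r0_96 (nat_lit 0) (nat_lit 0) (nat_lit 0) (nat_lit 0x7db4a9d7ae) (nat_lit 1126156824),
  Rx.mk (nat_lit 219) (nat_lit 3) (nat_lit 3) (nat_lit 3) (nat_lit 7) (nat_lit 99) (nat_lit 93) r0_99 r0_93 (nat_lit 0) (nat_lit 0) (nat_lit 0) (nat_lit 0x7e09c9c55a) (nat_lit 962939016)]
noncomputable def e33_35 : List Rx := [
  Rx.mk (nat_lit 3) (nat_lit 3) (nat_lit 0) (nat_lit 0) (nat_lit 1) (nat_lit 105) (nat_lit 2) r0_105 r6_2 (nat_lit 0) (nat_lit 0) (nat_lit 0) (nat_lit 0x66b9ed9a6e) (nat_lit 12405690648),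
  Rx.mk (nat_lit 16) (nat_lit 0) (nat_lit 2) (nat_lit 0) (nat_lit 2) (nat_lit 100) (nat_lit 0) r0_100 r6_0 (nat_lit 0) (nat_lit 0) (nat_lit 0) (nat_lit 0x5b048c5c38) (nat_lit 18152855136),
  Rx.mk (nat_lit 19) (nat_lit 3) (nat_lit 2) (nat_lit 0) (nat_lit 3) (nat_lit 106) (nat_lit 3) r0_106 r6_3 (nat_lit 0) (nat_lit 0) (nat_lit 0) (nat_lit 0x77e3aa8d74) (nat_lit 3981154320),
  Rx.mk (nat_lit 144) (nat_lit 0) (nat_lit 2) (nat_lit 2) (nat_lit 6) (nat_lit 101) (nat_lit 1) r0_101 r6_1 (nat_lit 0) (nat_lit 0) (nat_lit 0) (nat_lit 0x777f139748) (nat_lit 4174024608),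
  Rx.mk (nat_lit 146) (nat_lit 2) (nat_lit 2) (nat_lit 2) (nat_lit 7) (nat_lit 102) (nat_lit 10) r0_102 r6_10 (nat_lit 0) (nat_lit 0) (nat_lit 0) (nat_lit 0x7cd66efc3a) (nat_lit 1552259592),
  Rx.mk (nat_lit 147) (nat_lit 3) (nat_lit 2) (nat_lit 2) (nat_lit 7) (nat_lit 107) (nat_lit 7) r0_107 r6_7 (nat_lit 0) (nat_lit 0) (nat_lit 0) (nat_lit 0x7e027b5a48) (nat_lit 976948128),
  Rx.mk (nat_lit 178) (nat_lit 2) (nat_lit 6) (nat_lit 2) (nat_lit 7) (nat_lit 103) (nat_lit 9) r0_103 r6_9 (nat_lit 0) (nat_lit 0) (nat_lit 0) (nat_lit 0x7df18ca944) (nat_lit 1009414224),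
  Rx.mk (nat_lit 195) (nat_lit 3) (nat_lit 0) (nat_lit 3) (nat_lit 5) (nat_lit 108) (nat_lit 4) r0_108 r6_4 (nat_lit 0) (nat_lit 0) (nat_lit 0) (nat_lit 0x78a031444c) (nat_lit 3619674864),
  Rx.mk (nat_lit 211) (nat_lit 3) (nat_lit 2) (nat_lit 3) (nat_lit 7) (nat_lit 109) (nat_lit 6) r0_109 r6_6 (nat_lit 0) (nat_lit 0) (nat_lit 0) (nat_lit 0x7de57b0a6a) (nat_lit 1032554952),
  Rx.mk (nat_lit 219) (nat_lit 3) (nat_lit 3) (nat_lit 3) (nat_lit 7) (nat_lit 110) (nat_lit 5) r0_110 r6_5 (nat_lit 0) (nat_lit 0) (nat_lit 0) (nat_lit 0x7d5af3b36a) (nat_lit 1298169288),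
  Rx.mk (nat_lit 434) (nat_lit 2) (nat_lit 6) (nat_lit 6) (nat_lit 7) (nat_lit 104) (nat_lit 8) r0_104 r6_8 (nat_lit 0) (nat_lit 0) (nat_lit 0) (nat_lit 0x7defce8528) (nat_lit 1012755744)]
noncomputable def e33_36 : List Rx := [
  Rx.mk (nat_lit 1) (nat_lit 1) (nat_lit 0) (nat_lit 0) (nat_lit 1) (nat_lit 254) (nat_lit 98) r0_254 r2_98 (nat_lit 0) (nat_lit 0) (nat_lit 0) (nat_lit 0x58ede04910) (nat_lit 19178033472),
  Rx.mk (nat_lit 17) (nat_lit 1) (nat_lit 2) (nat_lit 0) (nat_lit 3) (nat_lit 255) (nat_lit 99) r0_255 r2_99 (nat_lit 0) (nat_lit 0) (nat_lit 0) (nat_lit 0x7c870832f6) (nat_lit 1704503736),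
  Rx.mk (nat_lit 145) (nat_lit 1) (nat_lit 2) (nat_lit 2) (nat_lit 7) (nat_lit 256) (nat_lit 100) r0_256 r2_100 (nat_lit 0) (nat_lit 0) (nat_lit 0) (nat_lit 0x7df272dae0) (nat_lit 1007690112)]
noncomputable def e33_37 : List Rx := [
  Rx.mk (nat_lit 1) (nat_lit 1) (nat_lit 0) (nat_lit 0) (nat_lit 1) (nat_lit 262) (nat_lit 65) r0_262 r8_65 (nat_lit 0) (nat_lit 0) (nat_lit 0) (nat_lit 0x69ec4571be) (nat_lit 10836602712),
  Rx.mk (nat_lit 17) (nat_lit 1) (nat_lit 2) (nat_lit 0) (nat_lit 3) (nat_lit 263) (nat_lit 66) r0_263 r8_66 (nat_lit 0) (nat_lit 0) (nat_lit 0) (nat_lit 0x7d93758b14) (nat_lit 1189822608),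
  Rx.mk (nat_lit 145) (nat_lit 1) (nat_lit 2) (nat_lit 2) (nat_lit 7) (nat_lit 264) (nat_lit 67) r0_264 r8_67 (nat_lit 0) (nat_lit 0) (nat_lit 0) (nat_lit 0x7ddc6c3b60) (nat_lit 1049922432)]
noncomputable def e33_38 : List Rx := [
  Rx.mk (nat_lit 1) (nat_lit 1) (nat_lit 0) (nat_lit 0) (nat_lit 1) (nat_lit 257) (nat_lit 155) r0_257 r8_155 (nat_lit 0) (nat_lit 0) (nat_lit 0) (nat_lit 0x5d0382aad4) (nat_lit 17173138320),
  Rx.mk (nat_lit 17) (nat_lit 1) (nat_lit 2) (nat_lit 0) (nat_lit 3) (nat_lit 258) (nat_lit 156) r0_258 r8_156 (nat_lit 0) (nat_lit 0) (nat_lit 0) (nat_lit 0x7d665dbcbe) (nat_lit 1276283736),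
  Rx.mk (nat_lit 65) (nat_lit 1) (nat_lit 0) (nat_lit 1) (nat_lit 5) (nat_lit 259) (nat_lit 157) r0_259 r8_157 (nat_lit 0) (nat_lit 0) (nat_lit 0) (nat_lit 0x7c68fe73b0) (nat_lit 1762098624),
  Rx.mk (nat_lit 81) (nat_lit 1) (nat_lit 2) (nat_lit 1) (nat_lit 7) (nat_lit 260) (nat_lit 158) r0_260 r8_158 (nat_lit 0) (nat_lit 0) (nat_lit 0) (nat_lit 0x7de755acbe) (nat_lit 1029000024),
  Rx.mk (nat_lit 145) (nat_lit 1) (nat_lit 2) (nat_lit 2) (nat_lit 7) (nat_lit 261) (nat_lit 159) r0_261 r8_159 (nat_lit 0) (nat_lit 0) (nat_lit 0) (nat_lit 0x7df3be4628) (nat_lit 1005207840)]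
noncomputable def e33_39 : List Rx := [
  Rx.mk (nat_lit 0) (nat_lit 0) (nat_lit 0) (nat_lit 0) (nat_lit 0) (nat_lit 111) (nat_lit 94) r0_111 r1_94 (nat_lit 0) (nat_lit 0) (nat_lit 0) (nat_lit 0x7fc651db1c) (nat_lit 110595888),
  Rx.mk (nat_lit 1) (nat_lit 1) (nat_lit 0) (nat_lit 0) (nat_lit 1) (nat_lit 114) (nat_lit 95) r0_114 r1_95 (nat_lit 0) (nat_lit 0) (nat_lit 0) (nat_lit 0x7c02729cd4) (nat_lit 1958720400),
  Rx.mk (nat_lit 3) (nat_lit 3) (nat_lit 0) (nat_lit 0) (nat_lit 1) (nat_lit 118) (nat_lit 96) r0_118 r1_96 (nat_lit 0) (nat_lit 0) (nat_lit 0) (nat_lit 0x76fc4b844c) (nat_lit 4424784624),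
  Rx.mk (nat_lit 16) (nat_lit 0) (nat_lit 2) (nat_lit 0) (nat_lit 2) (nat_lit 112) (nat_lit 99) r0_112 r1_99 (nat_lit 0) (nat_lit 0) (nat_lit 0) (nat_lit 0x6fba2ced78) (nat_lit 7987535712),
  Rx.mk (nat_lit 17) (nat_lit 1) (nat_lit 2) (nat_lit 0) (nat_lit 3) (nat_lit 115) (nat_lit 100) r0_115 r1_100 (nat_lit 0) (nat_lit 0) (nat_lit 0) (nat_lit 0x7d6029a006) (nat_lit 1288178424),
  Rx.mk (nat_lit 19) (nat_lit 3) (nat_lit 2) (nat_lit 0) (nat_lit 3) (nat_lit 119) (nat_lit 101) r0_119 r1_101 (nat_lit 0) (nat_lit 0) (nat_lit 0) (nat_lit 0x7ddf4a4d7c) (nat_lit 1044424368),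
  Rx.mk (nat_lit 144) (nat_lit 0) (nat_lit 2) (nat_lit 2) (nat_lit 6) (nat_lit 113) (nat_lit 103) r0_113 r1_103 (nat_lit 0) (nat_lit 0) (nat_lit 0) (nat_lit 0x6f612c3ddc) (nat_lit 8158189104),
  Rx.mk (nat_lit 145) (nat_lit 1) (nat_lit 2) (nat_lit 2) (nat_lit 7) (nat_lit 116) (nat_lit 104) r0_116 r1_104 (nat_lit 0) (nat_lit 0) (nat_lit 0) (nat_lit 0x7daa421e34) (nat_lit 1146107664),
  Rx.mk (nat_lit 146) (nat_lit 2) (nat_lit 2) (nat_lit 2) (nat_lit 7) (nat_lit 117) (nat_lit 106) r0_117 r1_106 (nat_lit 0) (nat_lit 0) (nat_lit 0) (nat_lit 0x7d94a957d6) (nat_lit 1187517240),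
  Rx.mk (nat_lit 147) (nat_lit 3) (nat_lit 2) (nat_lit 2) (nat_lit 7) (nat_lit 120) (nat_lit 105) r0_120 r1_105 (nat_lit 0) (nat_lit 0) (nat_lit 0) (nat_lit 0x7dd7b446e4) (nat_lit 1058969808),
  Rx.mk (nat_lit 195) (nat_lit 3) (nat_lit 0) (nat_lit 3) (nat_lit 5) (nat_lit 121) (nat_lit 97) r0_121 r1_97 (nat_lit 0) (nat_lit 0) (nat_lit 0) (nat_lit 0x7d51e2a484) (nat_lit 1315553616),
  Rx.mk (nat_lit 211) (nat_lit 3) (nat_lit 2) (nat_lit 3) (nat_lit 7) (nat_lit 122) (nat_lit 102) r0_122 r1_102 (nat_lit 0) (nat_lit 0) (nat_lit 0) (nat_lit 0x7df6bc3646) (nat_lit 999471096),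
  Rx.mk (nat_lit 219) (nat_lit 3) (nat_lit 3) (nat_lit 3) (nat_lit 7) (nat_lit 123) (nat_lit 98) r0_123 r1_98 (nat_lit 0) (nat_lit 0) (nat_lit 0) (nat_lit 0x7dd1bc8666) (nat_lit 1070412408)]
noncomputable def e33_40 : List Rx := [
  Rx.mk (nat_lit 0) (nat_lit 0) (nat_lit 0) (nat_lit 0) (nat_lit 0) (nat_lit 124) (nat_lit 0) r0_124 r7_0 (nat_lit 0) (nat_lit 0) (nat_lit 0) (nat_lit 0x26656fa2a6) (nat_lit 43982313336),
  Rx.mk (nat_lit 1) (nat_lit 1) (nat_lit 0) (nat_lit 0) (nat_lit 1) (nat_lit 127) (nat_lit 3) r0_127 r7_3 (nat_lit 0) (nat_lit 0) (nat_lit 0) (nat_lit 0x6ccff433ee) (nat_lit 9418338072),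
  Rx.mk (nat_lit 3) (nat_lit 3) (nat_lit 0) (nat_lit 0) (nat_lit 1) (nat_lit 133) (nat_lit 6) r0_133 r7_6 (nat_lit 0) (nat_lit 0) (nat_lit 0) (nat_lit 0x62b0ff8d58) (nat_lit 14386226400),
  Rx.mk (nat_lit 16) (nat_lit 0) (nat_lit 2) (nat_lit 0) (nat_lit 2) (nat_lit 125) (nat_lit 1) r0_125 r7_1 (nat_lit 0) (nat_lit 0) (nat_lit 0) (nat_lit 0x5777047844) (nat_lit 19896786000),
  Rx.mk (nat_lit 17) (nat_lit 1) (nat_lit 2) (nat_lit 0) (nat_lit 3) (nat_lit 128) (nat_lit 4) r0_128 r7_4 (nat_lit 0) (nat_lit 0) (nat_lit 0) (nat_lit 0x7d33d4058c) (nat_lit 1373185008),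
  Rx.mk (nat_lit 19) (nat_lit 3) (nat_lit 2) (nat_lit 0) (nat_lit 3) (nat_lit 134) (nat_lit 7) r0_134 r7_7 (nat_lit 0) (nat_lit 0) (nat_lit 0) (nat_lit 0x7d34a4d87e) (nat_lit 1371620952),
  Rx.mk (nat_lit 144) (nat_lit 0) (nat_lit 2) (nat_lit 2) (nat_lit 6) (nat_lit 126) (nat_lit 2) r0_126 r7_2 (nat_lit 0) (nat_lit 0) (nat_lit 0) (nat_lit 0x7aa48cbc90) (nat_lit 2629613376),
  Rx.mk (nat_lit 145) (nat_lit 1) (nat_lit 2) (nat_lit 2) (nat_lit 7) (nat_lit 129) (nat_lit 5) r0_129 r7_5 (nat_lit 0) (nat_lit 0) (nat_lit 0) (nat_lit 0x7dee6ffb12) (nat_lit 1015381224),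
  Rx.mk (nat_lit 146) (nat_lit 2) (nat_lit 2) (nat_lit 2) (nat_lit 7) (nat_lit 130) (nat_lit 14) r0_130 r7_14 (nat_lit 0) (nat_lit 0) (nat_lit 0) (nat_lit 0x7da85dbc7c) (nat_lit 1149735600),
  Rx.mk (nat_lit 147) (nat_lit 3) (nat_lit 2) (nat_lit 2) (nat_lit 7) (nat_lit 135) (nat_lit 11) r0_135 r7_11 (nat_lit 0) (nat_lit 0) (nat_lit 0) (nat_lit 0x7de50491d2) (nat_lit 1033442280),
  Rx.mk (nat_lit 178) (nat_lit 2) (nat_lit 6) (nat_lit 2) (nat_lit 7) (nat_lit 131) (nat_lit 13) r0_131 r7_13 (nat_lit 0) (nat_lit 0) (nat_lit 0) (nat_lit 0x7dcfeb437c) (nat_lit 1073897136),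
  Rx.mk (nat_lit 195) (nat_lit 3) (nat_lit 0) (nat_lit 3) (nat_lit 5) (nat_lit 136) (nat_lit 8) r0_136 r7_8 (nat_lit 0) (nat_lit 0) (nat_lit 0) (nat_lit 0x7c3f4c0f00) (nat_lit 1842048000),
  Rx.mk (nat_lit 211) (nat_lit 3) (nat_lit 2) (nat_lit 3) (nat_lit 7) (nat_lit 137) (nat_lit 10) r0_137 r7_10 (nat_lit 0) (nat_lit 0) (nat_lit 0) (nat_lit 0x7df1e163f8) (nat_lit 1008779616),
  Rx.mk (nat_lit 219) (nat_lit 3) (nat_lit 3) (nat_lit 3) (nat_lit 7) (nat_lit 138) (nat_lit 9) r0_138 r7_9 (nat_lit 0) (nat_lit 0) (nat_lit 0) (nat_lit 0x7db74b2d96) (nat_lit 1121113656),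
  Rx.mk (nat_lit 434) (nat_lit 2) (nat_lit 6) (nat_lit 6) (nat_lit 7) (nat_lit 132) (nat_lit 12) r0_132 r7_12 (nat_lit 0) (nat_lit 0) (nat_lit 0) (nat_lit 0x7df4ed3338) (nat_lit 1002938976)]
noncomputable def e33_41 : List Rx := [
  Rx.mk (nat_lit 178) (nat_lit 2) (nat_lit 6) (nat_lit 2) (nat_lit 7) (nat_lit 20) (nat_lit 9) r0_20 r1_9 (nat_lit 0) (nat_lit 0) (nat_lit 0) (nat_lit 0x7ccb2590dc) (nat_lit 1573900848),
  Rx.mk (nat_lit 294) (nat_lit 6) (nat_lit 4) (nat_lit 4) (nat_lit 1) (nat_lit 23) (nat_lit 2) r0_23 r1_2 (nat_lit 0) (nat_lit 0) (nat_lit 0) (nat_lit 0x6facf0e146) (nat_lit 8012911608),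
  Rx.mk (nat_lit 318) (nat_lit 6) (nat_lit 7) (nat_lit 4) (nat_lit 3) (nat_lit 24) (nat_lit 3) r0_24 r1_3 (nat_lit 0) (nat_lit 0) (nat_lit 0) (nat_lit 0x78202e24fe) (nat_lit 3865124952),
  Rx.mk (nat_lit 422) (nat_lit 6) (nat_lit 4) (nat_lit 6) (nat_lit 5) (nat_lit 25) (nat_lit 5) r0_25 r1_5 (nat_lit 0) (nat_lit 0) (nat_lit 0) (nat_lit 0x780ee6f982) (nat_lit 3898253736),
  Rx.mk (nat_lit 434) (nat_lit 2) (nat_lit 6) (nat_lit 6) (nat_lit 7) (nat_lit 21) (nat_lit 8) r0_21 r1_8 (nat_lit 0) (nat_lit 0) (nat_lit 0) (nat_lit 0x7c9e945a1c) (nat_lit 1659353904),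
  Rx.mk (nat_lit 438) (nat_lit 6) (nat_lit 6) (nat_lit 6) (nat_lit 7) (nat_lit 26) (nat_lit 7) r0_26 r1_7 (nat_lit 0) (nat_lit 0) (nat_lit 0) (nat_lit 0x7c8a811b64) (nat_lit 1697845968),
  Rx.mk (nat_lit 446) (nat_lit 6) (nat_lit 7) (nat_lit 6) (nat_lit 7) (nat_lit 27) (nat_lit 6) r0_27 r1_6 (nat_lit 0) (nat_lit 0) (nat_lit 0) (nat_lit 0x7d16a418a8) (nat_lit 1429148448),
  Rx.mk (nat_lit 508) (nat_lit 4) (nat_lit 7) (nat_lit 7) (nat_lit 6) (nat_lit 22) (nat_lit 0) r0_22 r1_0 (nat_lit 0) (nat_lit 0) (nat_lit 0) (nat_lit 0x76832bf6be) (nat_lit 4657025880),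
  Rx.mk (nat_lit 510) (nat_lit 6) (nat_lit 7) (nat_lit 7) (nat_lit 7) (nat_lit 28) (nat_lit 4) r0_28 r1_4 (nat_lit 0) (nat_lit 0) (nat_lit 0) (nat_lit 0x7efe491c70) (nat_lit 494140608),
  Rx.mk (nat_lit 511) (nat_lit 7) (nat_lit 7) (nat_lit 7) (nat_lit 7) (nat_lit 29) (nat_lit 1) r0_29 r1_1 (nat_lit 0) (nat_lit 0) (nat_lit 0) (nat_lit 0x75ecc41dd2) (nat_lit 4945413096)]
noncomputable def e33_42 : List Rx := [
  Rx.mk (nat_lit 294) (nat_lit 6) (nat_lit 4) (nat_lit 4) (nat_lit 1) (nat_lit 34) (nat_lit 4) r0_34 r2_4 (nat_lit 0) (nat_lit 0) (nat_lit 0) (nat_lit 0x66c500a932) (nat_lit 12384456552),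
  Rx.mk (nat_lit 302) (nat_lit 6) (nat_lit 5) (nat_lit 4) (nat_lit 3) (nat_lit 35) (nat_lit 5) r0_35 r2_5 (nat_lit 0) (nat_lit 0) (nat_lit 0) (nat_lit 0x7ddc9338f0) (nat_lit 1049630400),
  Rx.mk (nat_lit 422) (nat_lit 6) (nat_lit 4) (nat_lit 6) (nat_lit 5) (nat_lit 36) (nat_lit 9) r0_36 r2_9 (nat_lit 0) (nat_lit 0) (nat_lit 0) (nat_lit 0x7dce709b28) (nat_lit 1076733216),
  Rx.mk (nat_lit 430) (nat_lit 6) (nat_lit 5) (nat_lit 6) (nat_lit 7) (nat_lit 37) (nat_lit 10) r0_37 r2_10 (nat_lit 0) (nat_lit 0) (nat_lit 0) (nat_lit 0x7df79428c6) (nat_lit 997853688),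
  Rx.mk (nat_lit 434) (nat_lit 2) (nat_lit 6) (nat_lit 6) (nat_lit 7) (nat_lit 30) (nat_lit 12) r0_30 r2_12 (nat_lit 0) (nat_lit 0) (nat_lit 0) (nat_lit 0x7df6905904) (nat_lit 999799632),
  Rx.mk (nat_lit 438) (nat_lit 6) (nat_lit 6) (nat_lit 6) (nat_lit 7) (nat_lit 38) (nat_lit 11) r0_38 r2_11 (nat_lit 0) (nat_lit 0) (nat_lit 0) (nat_lit 0x7ded8609b2) (nat_lit 1017133416),
  Rx.mk (nat_lit 484) (nat_lit 4) (nat_lit 4) (nat_lit 7) (nat_lit 4) (nat_lit 31) (nat_lit 0) r0_31 r2_0 (nat_lit 0) (nat_lit 0) (nat_lit 0) (nat_lit 0x6b355bdf0e) (nat_lit 10205611416),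
  Rx.mk (nat_lit 486) (nat_lit 6) (nat_lit 4) (nat_lit 7) (nat_lit 5) (nat_lit 39) (nat_lit 6) r0_39 r2_6 (nat_lit 0) (nat_lit 0) (nat_lit 0) (nat_lit 0x7e5ff6223e) (nat_lit 797710680),
  Rx.mk (nat_lit 492) (nat_lit 4) (nat_lit 5) (nat_lit 7) (nat_lit 6) (nat_lit 32) (nat_lit 1) r0_32 r2_1 (nat_lit 0) (nat_lit 0) (nat_lit 0) (nat_lit 0x7e4b276f3e) (nat_lit 837606744),
  Rx.mk (nat_lit 494) (nat_lit 6) (nat_lit 5) (nat_lit 7) (nat_lit 7) (nat_lit 40) (nat_lit 7) r0_40 r2_7 (nat_lit 0) (nat_lit 0) (nat_lit 0) (nat_lit 0x7e8b2b6ebe) (nat_lit 714863448),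
  Rx.mk (nat_lit 508) (nat_lit 4) (nat_lit 7) (nat_lit 7) (nat_lit 6) (nat_lit 33) (nat_lit 2) r0_33 r2_2 (nat_lit 0) (nat_lit 0) (nat_lit 0) (nat_lit 0x7dc39c287a) (nat_lit 1097498376),
  Rx.mk (nat_lit 510) (nat_lit 6) (nat_lit 7) (nat_lit 7) (nat_lit 7) (nat_lit 41) (nat_lit 8) r0_41 r2_8 (nat_lit 0) (nat_lit 0) (nat_lit 0) (nat_lit 0x7e6254bc52) (nat_lit 793167336),
  Rx.mk (nat_lit 511) (nat_lit 7) (nat_lit 7) (nat_lit 7) (nat_lit 7) (nat_lit 42) (nat_lit 3) r0_42 r2_3 (nat_lit 0) (nat_lit 0) (nat_lit 0) (nat_lit 0x7ddddb446e) (nat_lit 1047173400)]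
noncomputable def e33_43 : List Rx := [
  Rx.mk (nat_lit 178) (nat_lit 2) (nat_lit 6) (nat_lit 2) (nat_lit 7) (nat_lit 139) (nat_lit 76) r0_139 r7_76 (nat_lit 0) (nat_lit 0) (nat_lit 0) (nat_lit 0x7dbbc6c5d8) (nat_lit 1112518368),
  Rx.mk (nat_lit 434) (nat_lit 2) (nat_lit 6) (nat_lit 6) (nat_lit 7) (nat_lit 140) (nat_lit 77) r0_140 r7_77 (nat_lit 0) (nat_lit 0) (nat_lit 0) (nat_lit 0x7dbbc6c5d8) (nat_lit 1112518368)]
noncomputable def e33_44 : List Rx := [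
  Rx.mk (nat_lit 434) (nat_lit 2) (nat_lit 6) (nat_lit 6) (nat_lit 7) (nat_lit 141) (nat_lit 0) r0_141 r8_0 (nat_lit 0) (nat_lit 0) (nat_lit 0) (nat_lit 0x7dde1b0072) (nat_lit 1046696040)]
noncomputable def e33_45 : List Rx := [
  Rx.mk (nat_lit 292) (nat_lit 4) (nat_lit 4) (nat_lit 4) (nat_lit 0) (nat_lit 155) (nat_lit 23) r0_155 r8_23 (nat_lit 0) (nat_lit 0) (nat_lit 0) (nat_lit 0x2380ce4fa0) (nat_lit 45402394752),
  Rx.mk (nat_lit 294) (nat_lit 6) (nat_lit 4) (nat_lit 4) (nat_lit 1) (nat_lit 161) (nat_lit 25) r0_161 r8_25 (nat_lit 0) (nat_lit 0) (nat_lit 0) (nat_lit 0x6eebb9b57a) (nat_lit 8383382280),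
  Rx.mk (nat_lit 300) (nat_lit 4) (nat_lit 5) (nat_lit 4) (nat_lit 2) (nat_lit 156) (nat_lit 24) r0_156 r8_24 (nat_lit 0) (nat_lit 0) (nat_lit 0) (nat_lit 0x68034003fe) (nat_lit 11774250072),
  Rx.mk (nat_lit 302) (nat_lit 6) (nat_lit 5) (nat_lit 4) (nat_lit 3) (nat_lit 162) (nat_lit 26) r0_162 r8_26 (nat_lit 0) (nat_lit 0) (nat_lit 0) (nat_lit 0x7dd9e10416) (nat_lit 1054799928),
  Rx.mk (nat_lit 364) (nat_lit 4) (nat_lit 5) (nat_lit 5) (nat_lit 6) (nat_lit 157) (nat_lit 27) r0_157 r8_27 (nat_lit 0) (nat_lit 0) (nat_lit 0) (nat_lit 0x7dafa1a836) (nat_lit 1135805112),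
  Rx.mk (nat_lit 366) (nat_lit 6) (nat_lit 5) (nat_lit 5) (nat_lit 7) (nat_lit 163) (nat_lit 28) r0_163 r8_28 (nat_lit 0) (nat_lit 0) (nat_lit 0) (nat_lit 0x7df8ad5732) (nat_lit 995747688),
  Rx.mk (nat_lit 422) (nat_lit 6) (nat_lit 4) (nat_lit 6) (nat_lit 5) (nat_lit 164) (nat_lit 37) r0_164 r8_37 (nat_lit 0) (nat_lit 0) (nat_lit 0) (nat_lit 0x7d6504125a) (nat_lit 1278872712),
  Rx.mk (nat_lit 430) (nat_lit 6) (nat_lit 5) (nat_lit 6) (nat_lit 7) (nat_lit 165) (nat_lit 38) r0_165 r8_38 (nat_lit 0) (nat_lit 0) (nat_lit 0) (nat_lit 0x7df299187c) (nat_lit 1007403696),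
  Rx.mk (nat_lit 434) (nat_lit 2) (nat_lit 6) (nat_lit 6) (nat_lit 7) (nat_lit 154) (nat_lit 36) r0_154 r8_36 (nat_lit 0) (nat_lit 0) (nat_lit 0) (nat_lit 0x7df79428c6) (nat_lit 997853688),
  Rx.mk (nat_lit 438) (nat_lit 6) (nat_lit 6) (nat_lit 6) (nat_lit 7) (nat_lit 166) (nat_lit 39) r0_166 r8_39 (nat_lit 0) (nat_lit 0) (nat_lit 0) (nat_lit 0x7dde5a5c7c) (nat_lit 1046221488),
  Rx.mk (nat_lit 484) (nat_lit 4) (nat_lit 4) (nat_lit 7) (nat_lit 4) (nat_lit 158) (nat_lit 29) r0_158 r8_29 (nat_lit 0) (nat_lit 0) (nat_lit 0) (nat_lit 0x6bb29a6aa8) (nat_lit 9965468448),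
  Rx.mk (nat_lit 486) (nat_lit 6) (nat_lit 4) (nat_lit 7) (nat_lit 5) (nat_lit 167) (nat_lit 33) r0_167 r8_33 (nat_lit 0) (nat_lit 0) (nat_lit 0) (nat_lit 0x7db254fcfe) (nat_lit 1130627160),
  Rx.mk (nat_lit 492) (nat_lit 4) (nat_lit 5) (nat_lit 7) (nat_lit 6) (nat_lit 159) (nat_lit 30) r0_159 r8_30 (nat_lit 0) (nat_lit 0) (nat_lit 0) (nat_lit 0x7dd4e773b4) (nat_lit 1064338704),
  Rx.mk (nat_lit 494) (nat_lit 6) (nat_lit 5) (nat_lit 7) (nat_lit 7) (nat_lit 168) (nat_lit 34) r0_168 r8_34 (nat_lit 0) (nat_lit 0) (nat_lit 0) (nat_lit 0x7df1b4c6c2) (nat_lit 1009113768),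
  Rx.mk (nat_lit 508) (nat_lit 4) (nat_lit 7) (nat_lit 7) (nat_lit 6) (nat_lit 160) (nat_lit 31) r0_160 r8_31 (nat_lit 0) (nat_lit 0) (nat_lit 0) (nat_lit 0x7d2f99a936) (nat_lit 1381291704),
  Rx.mk (nat_lit 510) (nat_lit 6) (nat_lit 7) (nat_lit 7) (nat_lit 7) (nat_lit 169) (nat_lit 35) r0_169 r8_35 (nat_lit 0) (nat_lit 0) (nat_lit 0) (nat_lit 0x7df06cbb44) (nat_lit 1011570768),
  Rx.mk (nat_lit 511) (nat_lit 7) (nat_lit 7) (nat_lit 7) (nat_lit 7) (nat_lit 170) (nat_lit 32) r0_170 r8_32 (nat_lit 0) (nat_lit 0) (nat_lit 0) (nat_lit 0x7d8f316f5a) (nat_lit 1198002312)]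
noncomputable def e33_46 : List Rx := [
  Rx.mk (nat_lit 3) (nat_lit 3) (nat_lit 0) (nat_lit 0) (nat_lit 1) (nat_lit 52) (nat_lit 8) r0_52 r4_8 (nat_lit 0) (nat_lit 0) (nat_lit 0) (nat_lit 0x5b6197cb24) (nat_lit 17974451664),
  Rx.mk (nat_lit 19) (nat_lit 3) (nat_lit 2) (nat_lit 0) (nat_lit 3) (nat_lit 53) (nat_lit 9) r0_53 r4_9 (nat_lit 0) (nat_lit 0) (nat_lit 0) (nat_lit 0x6d58b6a73e) (nat_lit 9156115800),
  Rx.mk (nat_lit 147) (nat_lit 3) (nat_lit 2) (nat_lit 2) (nat_lit 7) (nat_lit 54) (nat_lit 12) r0_54 r4_12 (nat_lit 0) (nat_lit 0) (nat_lit 0) (nat_lit 0x75a4e5dbfe) (nat_lit 5083212888),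
  Rx.mk (nat_lit 195) (nat_lit 3) (nat_lit 0) (nat_lit 3) (nat_lit 5) (nat_lit 55) (nat_lit 10) r0_55 r4_10 (nat_lit 0) (nat_lit 0) (nat_lit 0) (nat_lit 0x76957cf19c) (nat_lit 4621906224),
  Rx.mk (nat_lit 199) (nat_lit 7) (nat_lit 0) (nat_lit 3) (nat_lit 5) (nat_lit 62) (nat_lit 3) r0_62 r4_3 (nat_lit 0) (nat_lit 0) (nat_lit 0) (nat_lit 0x71ae0a8daa) (nat_lit 7029095112),
  Rx.mk (nat_lit 211) (nat_lit 3) (nat_lit 2) (nat_lit 3) (nat_lit 7) (nat_lit 56) (nat_lit 11) r0_56 r4_11 (nat_lit 0) (nat_lit 0) (nat_lit 0) (nat_lit 0x7dea5bdc58) (nat_lit 1023201504),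
  Rx.mk (nat_lit 223) (nat_lit 7) (nat_lit 3) (nat_lit 3) (nat_lit 7) (nat_lit 63) (nat_lit 4) r0_63 r4_4 (nat_lit 0) (nat_lit 0) (nat_lit 0) (nat_lit 0x7dd8cbf568) (nat_lit 1056875040),
  Rx.mk (nat_lit 318) (nat_lit 6) (nat_lit 7) (nat_lit 4) (nat_lit 3) (nat_lit 59) (nat_lit 5) r0_59 r4_5 (nat_lit 0) (nat_lit 0) (nat_lit 0) (nat_lit 0x73827b04ce) (nat_lit 6130911384),
  Rx.mk (nat_lit 446) (nat_lit 6) (nat_lit 7) (nat_lit 6) (nat_lit 7) (nat_lit 60) (nat_lit 7) r0_60 r4_7 (nat_lit 0) (nat_lit 0) (nat_lit 0) (nat_lit 0x7dd9546ce0) (nat_lit 1055852928),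
  Rx.mk (nat_lit 476) (nat_lit 4) (nat_lit 3) (nat_lit 7) (nat_lit 6) (nat_lit 57) (nat_lit 1) r0_57 r4_1 (nat_lit 0) (nat_lit 0) (nat_lit 0) (nat_lit 0x79050af64c) (nat_lit 3426304752),
  Rx.mk (nat_lit 479) (nat_lit 7) (nat_lit 3) (nat_lit 7) (nat_lit 7) (nat_lit 64) (nat_lit 2) r0_64 r4_2 (nat_lit 0) (nat_lit 0) (nat_lit 0) (nat_lit 0x7d87d5e51a) (nat_lit 1212109704),
  Rx.mk (nat_lit 508) (nat_lit 4) (nat_lit 7) (nat_lit 7) (nat_lit 6) (nat_lit 58) (nat_lit 0) r0_58 r4_0 (nat_lit 0) (nat_lit 0) (nat_lit 0) (nat_lit 0x6075ec00cc) (nat_lit 15481206000),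
  Rx.mk (nat_lit 510) (nat_lit 6) (nat_lit 7) (nat_lit 7) (nat_lit 7) (nat_lit 61) (nat_lit 6) r0_61 r4_6 (nat_lit 0) (nat_lit 0) (nat_lit 0) (nat_lit 0x769aeeda78) (nat_lit 4611466080)]
noncomputable def e33_47 : List Rx := [
  Rx.mk (nat_lit 3) (nat_lit 3) (nat_lit 0) (nat_lit 0) (nat_lit 1) (nat_lit 142) (nat_lit 93) r0_142 r4_93 (nat_lit 0) (nat_lit 0) (nat_lit 0) (nat_lit 0x71b7297bb2) (nat_lit 7011606888),
  Rx.mk (nat_lit 19) (nat_lit 3) (nat_lit 2) (nat_lit 0) (nat_lit 3) (nat_lit 143) (nat_lit 95) r0_143 r4_95 (nat_lit 0) (nat_lit 0) (nat_lit 0) (nat_lit 0x7ac67fdd3c) (nat_lit 2564518320),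
  Rx.mk (nat_lit 147) (nat_lit 3) (nat_lit 2) (nat_lit 2) (nat_lit 7) (nat_lit 144) (nat_lit 97) r0_144 r4_97 (nat_lit 0) (nat_lit 0) (nat_lit 0) (nat_lit 0x7d94351f1a) (nat_lit 1188387720),
  Rx.mk (nat_lit 195) (nat_lit 3) (nat_lit 0) (nat_lit 3) (nat_lit 5) (nat_lit 145) (nat_lit 94) r0_145 r4_94 (nat_lit 0) (nat_lit 0) (nat_lit 0) (nat_lit 0x7bb2a1ba32) (nat_lit 2111759208),
  Rx.mk (nat_lit 211) (nat_lit 3) (nat_lit 2) (nat_lit 3) (nat_lit 7) (nat_lit 146) (nat_lit 96) r0_146 r4_96 (nat_lit 0) (nat_lit 0) (nat_lit 0) (nat_lit 0x7e2f4f4cdc) (nat_lit 890995248)]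
noncomputable def e33_48 : List Rx := [
  Rx.mk (nat_lit 3) (nat_lit 3) (nat_lit 0) (nat_lit 0) (nat_lit 1) (nat_lit 147) (nat_lit 0) r0_147 r9_0 (nat_lit 0) (nat_lit 0) (nat_lit 0) (nat_lit 0x6b26bfc8de) (nat_lit 10233624024),
  Rx.mk (nat_lit 19) (nat_lit 3) (nat_lit 2) (nat_lit 0) (nat_lit 3) (nat_lit 148) (nat_lit 1) r0_148 r9_1 (nat_lit 0) (nat_lit 0) (nat_lit 0) (nat_lit 0x776bc40c54) (nat_lit 4211050896),
  Rx.mk (nat_lit 147) (nat_lit 3) (nat_lit 2) (nat_lit 2) (nat_lit 7) (nat_lit 149) (nat_lit 4) r0_149 r9_4 (nat_lit 0) (nat_lit 0) (nat_lit 0) (nat_lit 0x7de318b092) (nat_lit 1037126376),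
  Rx.mk (nat_lit 195) (nat_lit 3) (nat_lit 0) (nat_lit 3) (nat_lit 5) (nat_lit 150) (nat_lit 2) r0_150 r9_2 (nat_lit 0) (nat_lit 0) (nat_lit 0) (nat_lit 0x78a7e5a8fe) (nat_lit 3604901976),
  Rx.mk (nat_lit 211) (nat_lit 3) (nat_lit 2) (nat_lit 3) (nat_lit 7) (nat_lit 151) (nat_lit 3) r0_151 r9_3 (nat_lit 0) (nat_lit 0) (nat_lit 0) (nat_lit 0x7de51cf04c) (nat_lit 1033259760)]
noncomputable def e33_49 : List Rx := [
  Rx.mk (nat_lit 195) (nat_lit 3) (nat_lit 0) (nat_lit 3) (nat_lit 5) (nat_lit 152) (nat_lit 0) r0_152 r10_0 (nat_lit 0) (nat_lit 0) (nat_lit 0) (nat_lit 0x7e1794a89e) (nat_lit 936493272),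
  Rx.mk (nat_lit 211) (nat_lit 3) (nat_lit 2) (nat_lit 3) (nat_lit 7) (nat_lit 153) (nat_lit 1) r0_153 r10_1 (nat_lit 0) (nat_lit 0) (nat_lit 0) (nat_lit 0x7df4465da6) (nat_lit 1004188536)]
noncomputable def e33_50 : List Rx := [
  Rx.mk (nat_lit 3) (nat_lit 3) (nat_lit 0) (nat_lit 0) (nat_lit 1) (nat_lit 212) (nat_lit 91) r0_212 r10_91 (nat_lit 0) (nat_lit 0) (nat_lit 0) (nat_lit 0x41b494b504) (nat_lit 30577519440),
  Rx.mk (nat_lit 7) (nat_lit 7) (nat_lit 0) (nat_lit 0) (nat_lit 1) (nat_lit 219) (nat_lit 92) r0_219 r10_92 (nat_lit 0) (nat_lit 0) (nat_lit 0) (nat_lit 0x4965c57a46) (nat_lit 26801801208),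
  Rx.mk (nat_lit 19) (nat_lit 3) (nat_lit 2) (nat_lit 0) (nat_lit 3) (nat_lit 213) (nat_lit 97) r0_213 r10_97 (nat_lit 0) (nat_lit 0) (nat_lit 0) (nat_lit 0x78034c9334) (nat_lit 3920501520),
  Rx.mk (nat_lit 147) (nat_lit 3) (nat_lit 2) (nat_lit 2) (nat_lit 7) (nat_lit 214) (nat_lit 98) r0_214 r10_98 (nat_lit 0) (nat_lit 0) (nat_lit 0) (nat_lit 0x7e314d2cfc) (nat_lit 887176368),
  Rx.mk (nat_lit 199) (nat_lit 7) (nat_lit 0) (nat_lit 3) (nat_lit 5) (nat_lit 220) (nat_lit 93) r0_220 r10_93 (nat_lit 0) (nat_lit 0) (nat_lit 0) (nat_lit 0x7d5dec63dc) (nat_lit 1292471856),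
  Rx.mk (nat_lit 220) (nat_lit 4) (nat_lit 3) (nat_lit 3) (nat_lit 6) (nat_lit 215) (nat_lit 94) r0_215 r10_94 (nat_lit 0) (nat_lit 0) (nat_lit 0) (nat_lit 0x7d78b51736) (nat_lit 1241116344),
  Rx.mk (nat_lit 223) (nat_lit 7) (nat_lit 3) (nat_lit 3) (nat_lit 7) (nat_lit 221) (nat_lit 95) r0_221 r10_95 (nat_lit 0) (nat_lit 0) (nat_lit 0) (nat_lit 0x7e428d38ea) (nat_lit 854100936),
  Rx.mk (nat_lit 476) (nat_lit 4) (nat_lit 3) (nat_lit 7) (nat_lit 6) (nat_lit 216) (nat_lit 96) r0_216 r10_96 (nat_lit 0) (nat_lit 0) (nat_lit 0) (nat_lit 0x7de857fc98) (nat_lit 1027065312),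
  Rx.mk (nat_lit 508) (nat_lit 4) (nat_lit 7) (nat_lit 7) (nat_lit 6) (nat_lit 217) (nat_lit 99) r0_217 r10_99 (nat_lit 0) (nat_lit 0) (nat_lit 0) (nat_lit 0x7c2f7ecbe4) (nat_lit 1872346320),
  Rx.mk (nat_lit 510) (nat_lit 6) (nat_lit 7) (nat_lit 7) (nat_lit 7) (nat_lit 218) (nat_lit 100) r0_218 r10_100 (nat_lit 0) (nat_lit 0) (nat_lit 0) (nat_lit 0x7e0bdd0424) (nat_lit 958960080)]
noncomputable def e33_51 : List Rx := [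
  Rx.mk (nat_lit 197) (nat_lit 5) (nat_lit 0) (nat_lit 3) (nat_lit 5) (nat_lit 315) (nat_lit 253) r0_315 r12_253 (nat_lit 0) (nat_lit 0) (nat_lit 0) (nat_lit 0x7ac9315222) (nat_lit 2559354408),
  Rx.mk (nat_lit 204) (nat_lit 4) (nat_lit 1) (nat_lit 3) (nat_lit 6) (nat_lit 314) (nat_lit 252) r0_314 r12_252 (nat_lit 0) (nat_lit 0) (nat_lit 0) (nat_lit 0x7c8c873b00) (nat_lit 1693965312),
  Rx.mk (nat_lit 205) (nat_lit 5) (nat_lit 1) (nat_lit 3) (nat_lit 7) (nat_lit 316) (nat_lit 254) r0_316 r12_254 (nat_lit 0) (nat_lit 0) (nat_lit 0) (nat_lit 0x7ef9c72494) (nat_lit 502783632)]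
noncomputable def e33_52 : List Rx := [
  Rx.mk (nat_lit 460) (nat_lit 4) (nat_lit 1) (nat_lit 7) (nat_lit 6) (nat_lit 224) (nat_lit 255) r0_224 r12_255 (nat_lit 0) (nat_lit 0) (nat_lit 0) (nat_lit 0x8000000000) (nat_lit 0)]
noncomputable def e33_53 : List Rx := [
  Rx.mk (nat_lit 4) (nat_lit 4) (nat_lit 0) (nat_lit 0) (nat_lit 0) (nat_lit 329) (nat_lit 152) r0_329 r12_152 (nat_lit 0) (nat_lit 0) (nat_lit 0) (nat_lit 0x8000000000) (nat_lit 0),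
  Rx.mk (nat_lit 5) (nat_lit 5) (nat_lit 0) (nat_lit 0) (nat_lit 1) (nat_lit 334) (nat_lit 153) r0_334 r12_153 (nat_lit 0) (nat_lit 0) (nat_lit 0) (nat_lit 0x7328f59d7e) (nat_lit 6302558808),
  Rx.mk (nat_lit 7) (nat_lit 7) (nat_lit 0) (nat_lit 0) (nat_lit 1) (nat_lit 339) (nat_lit 154) r0_339 r12_154 (nat_lit 0) (nat_lit 0) (nat_lit 0) (nat_lit 0x8000000000) (nat_lit 0),
  Rx.mk (nat_lit 12) (nat_lit 4) (nat_lit 1) (nat_lit 0) (nat_lit 2) (nat_lit 330) (nat_lit 155) r0_330 r12_155 (nat_lit 0) (nat_lit 0) (nat_lit 0) (nat_lit 0x7542556568) (nat_lit 5272199712),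
  Rx.mk (nat_lit 13) (nat_lit 5) (nat_lit 1) (nat_lit 0) (nat_lit 3) (nat_lit 335) (nat_lit 156) r0_335 r12_156 (nat_lit 0) (nat_lit 0) (nat_lit 0) (nat_lit 0x7e0833bebc) (nat_lit 965980080),
  Rx.mk (nat_lit 15) (nat_lit 7) (nat_lit 1) (nat_lit 0) (nat_lit 3) (nat_lit 340) (nat_lit 157) r0_340 r12_157 (nat_lit 0) (nat_lit 0) (nat_lit 0) (nat_lit 0x7b4610a3b0) (nat_lit 2319924672),
  Rx.mk (nat_lit 196) (nat_lit 4) (nat_lit 0) (nat_lit 3) (nat_lit 4) (nat_lit 331) (nat_lit 158) r0_331 r12_158 (nat_lit 0) (nat_lit 0) (nat_lit 0) (nat_lit 0x6fbb66b9da) (nat_lit 7985185416),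
  Rx.mk (nat_lit 197) (nat_lit 5) (nat_lit 0) (nat_lit 3) (nat_lit 5) (nat_lit 336) (nat_lit 159) r0_336 r12_159 (nat_lit 0) (nat_lit 0) (nat_lit 0) (nat_lit 0x7a9bd7e7e6) (nat_lit 2646306936),
  Rx.mk (nat_lit 204) (nat_lit 4) (nat_lit 1) (nat_lit 3) (nat_lit 6) (nat_lit 332) (nat_lit 160) r0_332 r12_160 (nat_lit 0) (nat_lit 0) (nat_lit 0) (nat_lit 0x7dd134cee2) (nat_lit 1071428904),
  Rx.mk (nat_lit 205) (nat_lit 5) (nat_lit 1) (nat_lit 3) (nat_lit 7) (nat_lit 337) (nat_lit 161) r0_337 r12_161 (nat_lit 0) (nat_lit 0) (nat_lit 0) (nat_lit 0x7e78339e4e) (nat_lit 751232664),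
  Rx.mk (nat_lit 220) (nat_lit 4) (nat_lit 3) (nat_lit 3) (nat_lit 6) (nat_lit 333) (nat_lit 162) r0_333 r12_162 (nat_lit 0) (nat_lit 0) (nat_lit 0) (nat_lit 0x7ac0cd7868) (nat_lit 2575441440),
  Rx.mk (nat_lit 221) (nat_lit 5) (nat_lit 3) (nat_lit 3) (nat_lit 7) (nat_lit 338) (nat_lit 163) r0_338 r12_163 (nat_lit 0) (nat_lit 0) (nat_lit 0) (nat_lit 0x7e24231faa) (nat_lit 912417480)]
noncomputable def e33_54 : List Rx := [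
  Rx.mk (nat_lit 460) (nat_lit 4) (nat_lit 1) (nat_lit 7) (nat_lit 6) (nat_lit 89) (nat_lit 61) r0_89 r12_61 (nat_lit 0) (nat_lit 0) (nat_lit 0) (nat_lit 0x75d5ae0f4a) (nat_lit 4989678408),
  Rx.mk (nat_lit 463) (nat_lit 7) (nat_lit 1) (nat_lit 7) (nat_lit 7) (nat_lit 90) (nat_lit 62) r0_90 r12_62 (nat_lit 0) (nat_lit 0) (nat_lit 0) (nat_lit 0x7ec6f5d1dc) (nat_lit 600221232)]
noncomputable def e33_55 : List Rx := [
  Rx.mk (nat_lit 3) (nat_lit 3) (nat_lit 0) (nat_lit 0) (nat_lit 1) (nat_lit 43) (nat_lit 4) r0_43 r3_4 (nat_lit 0) (nat_lit 0) (nat_lit 0) (nat_lit 0x8000000000) (nat_lit 0),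
  Rx.mk (nat_lit 19) (nat_lit 3) (nat_lit 2) (nat_lit 0) (nat_lit 3) (nat_lit 44) (nat_lit 5) r0_44 r3_5 (nat_lit 0) (nat_lit 0) (nat_lit 0) (nat_lit 0x789f9ccd94) (nat_lit 3620786832),
  Rx.mk (nat_lit 147) (nat_lit 3) (nat_lit 2) (nat_lit 2) (nat_lit 7) (nat_lit 45) (nat_lit 8) r0_45 r3_8 (nat_lit 0) (nat_lit 0) (nat_lit 0) (nat_lit 0x7aaf35b1f6) (nat_lit 2609173944),
  Rx.mk (nat_lit 195) (nat_lit 3) (nat_lit 0) (nat_lit 3) (nat_lit 5) (nat_lit 46) (nat_lit 6) r0_46 r3_6 (nat_lit 0) (nat_lit 0) (nat_lit 0) (nat_lit 0x8000000000) (nat_lit 0),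
  Rx.mk (nat_lit 199) (nat_lit 7) (nat_lit 0) (nat_lit 3) (nat_lit 5) (nat_lit 49) (nat_lit 2) r0_49 r3_2 (nat_lit 0) (nat_lit 0) (nat_lit 0) (nat_lit 0x7ef7fa0168) (nat_lit 506237472),
  Rx.mk (nat_lit 211) (nat_lit 3) (nat_lit 2) (nat_lit 3) (nat_lit 7) (nat_lit 47) (nat_lit 7) r0_47 r3_7 (nat_lit 0) (nat_lit 0) (nat_lit 0) (nat_lit 0x7c4bfa640e) (nat_lit 1817733528),
  Rx.mk (nat_lit 223) (nat_lit 7) (nat_lit 3) (nat_lit 3) (nat_lit 7) (nat_lit 50) (nat_lit 3) r0_50 r3_3 (nat_lit 0) (nat_lit 0) (nat_lit 0) (nat_lit 0x7f3f0caff6) (nat_lit 369962424),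
  Rx.mk (nat_lit 476) (nat_lit 4) (nat_lit 3) (nat_lit 7) (nat_lit 6) (nat_lit 48) (nat_lit 0) r0_48 r3_0 (nat_lit 0) (nat_lit 0) (nat_lit 0) (nat_lit 0x6dba6c2b84) (nat_lit 8968768848),
  Rx.mk (nat_lit 479) (nat_lit 7) (nat_lit 3) (nat_lit 7) (nat_lit 7) (nat_lit 51) (nat_lit 1) r0_51 r3_1 (nat_lit 0) (nat_lit 0) (nat_lit 0) (nat_lit 0x7b04e536a8) (nat_lit 2444880672)]
noncomputable def e33_56 : List Rx := [
  Rx.mk (nat_lit 195) (nat_lit 3) (nat_lit 0) (nat_lit 3) (nat_lit 5) (nat_lit 65) (nat_lit 4) r0_65 r12_4 (nat_lit 0) (nat_lit 0) (nat_lit 0) (nat_lit 0x720f3cda24) (nat_lit 6842730960),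
  Rx.mk (nat_lit 199) (nat_lit 7) (nat_lit 0) (nat_lit 3) (nat_lit 5) (nat_lit 68) (nat_lit 3) r0_68 r12_3 (nat_lit 0) (nat_lit 0) (nat_lit 0) (nat_lit 0x75cf3f763a) (nat_lit 5002011144),
  Rx.mk (nat_lit 211) (nat_lit 3) (nat_lit 2) (nat_lit 3) (nat_lit 7) (nat_lit 66) (nat_lit 5) r0_66 r12_5 (nat_lit 0) (nat_lit 0) (nat_lit 0) (nat_lit 0x7df1ba066e) (nat_lit 1009074456),
  Rx.mk (nat_lit 455) (nat_lit 7) (nat_lit 0) (nat_lit 7) (nat_lit 5) (nat_lit 69) (nat_lit 1) r0_69 r12_1 (nat_lit 0) (nat_lit 0) (nat_lit 0) (nat_lit 0x71e33a1a7c) (nat_lit 6927116976),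
  Rx.mk (nat_lit 476) (nat_lit 4) (nat_lit 3) (nat_lit 7) (nat_lit 6) (nat_lit 67) (nat_lit 0) r0_67 r12_0 (nat_lit 0) (nat_lit 0) (nat_lit 0) (nat_lit 0x765c6d02d4) (nat_lit 4731317136),
  Rx.mk (nat_lit 479) (nat_lit 7) (nat_lit 3) (nat_lit 7) (nat_lit 7) (nat_lit 70) (nat_lit 2) r0_70 r12_2 (nat_lit 0) (nat_lit 0) (nat_lit 0) (nat_lit 0x7690a69f06) (nat_lit 4631181048)]
noncomputable def e33_57 : List Rx := [
  Rx.mk (nat_lit 3) (nat_lit 3) (nat_lit 0) (nat_lit 0) (nat_lit 1) (nat_lit 204) (nat_lit 94) r0_204 r12_94 (nat_lit 0) (nat_lit 0) (nat_lit 0) (nat_lit 0x8000000000) (nat_lit 0),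
  Rx.mk (nat_lit 7) (nat_lit 7) (nat_lit 0) (nat_lit 0) (nat_lit 1) (nat_lit 209) (nat_lit 95) r0_209 r12_95 (nat_lit 0) (nat_lit 0) (nat_lit 0) (nat_lit 0x749db7cfe6) (nat_lit 5587832952),
  Rx.mk (nat_lit 19) (nat_lit 3) (nat_lit 2) (nat_lit 0) (nat_lit 3) (nat_lit 205) (nat_lit 100) r0_205 r12_100 (nat_lit 0) (nat_lit 0) (nat_lit 0) (nat_lit 0x769593103a) (nat_lit 4621740552),
  Rx.mk (nat_lit 147) (nat_lit 3) (nat_lit 2) (nat_lit 2) (nat_lit 7) (nat_lit 206) (nat_lit 101) r0_206 r12_101 (nat_lit 0) (nat_lit 0) (nat_lit 0) (nat_lit 0x67426092b6) (nat_lit 12144063672),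
  Rx.mk (nat_lit 199) (nat_lit 7) (nat_lit 0) (nat_lit 3) (nat_lit 5) (nat_lit 210) (nat_lit 96) r0_210 r12_96 (nat_lit 0) (nat_lit 0) (nat_lit 0) (nat_lit 0x7d52e9d410) (nat_lit 1313582400),
  Rx.mk (nat_lit 220) (nat_lit 4) (nat_lit 3) (nat_lit 3) (nat_lit 6) (nat_lit 207) (nat_lit 97) r0_207 r12_97 (nat_lit 0) (nat_lit 0) (nat_lit 0) (nat_lit 0x7b7e747d3a) (nat_lit 2211802632),
  Rx.mk (nat_lit 223) (nat_lit 7) (nat_lit 3) (nat_lit 3) (nat_lit 7) (nat_lit 211) (nat_lit 98) r0_211 r12_98 (nat_lit 0) (nat_lit 0) (nat_lit 0) (nat_lit 0x7df6c1d5ec) (nat_lit 999428976),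
  Rx.mk (nat_lit 476) (nat_lit 4) (nat_lit 3) (nat_lit 7) (nat_lit 6) (nat_lit 208) (nat_lit 99) r0_208 r12_99 (nat_lit 0) (nat_lit 0) (nat_lit 0) (nat_lit 0x6c8ed0a668) (nat_lit 9543235104)]
noncomputable def e33 : List (List Rx) := [e33_0, e33_1, e33_2, e33_3, e33_4, e33_5, e33_6, e33_7, e33_8, e33_9, e33_10, e33_11, e33_12, e33_13, e33_14, e33_15, e33_16, e33_17, e33_18, e33_19, e33_20, e33_21, e33_22, e33_23, e33_24, e33_25, e33_26, e33_27, e33_28, e33_29, e33_30, e33_31, e33_32, e33_33, e33_34, e33_35, e33_36, e33_37, e33_38, e33_39, e33_40, e33_41, e33_42, e33_43, e33_44, e33_45, e33_46, e33_47, e33_48, e33_49, e33_50, e33_51, e33_52, e33_53, e33_54, e33_55, e33_56, e33_57]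
noncomputable def e34_0 : List Rx := [
  Rx.mk (nat_lit 5) (nat_lit 5) (nat_lit 0) (nat_lit 0) (nat_lit 1) (nat_lit 171) (nat_lit 248) r0_171 r0_248 (nat_lit 0) (nat_lit 0) (nat_lit 0) (nat_lit 0x7d82b5b722) (nat_lit 1221937704),
  Rx.mk (nat_lit 69) (nat_lit 5) (nat_lit 0) (nat_lit 1) (nat_lit 5) (nat_lit 172) (nat_lit 249) r0_172 r0_249 (nat_lit 0) (nat_lit 0) (nat_lit 0) (nat_lit 0x79e90615b6) (nat_lit 2989174968)]
noncomputable def e34_1 : List Rx := [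
  Rx.mk (nat_lit 69) (nat_lit 5) (nat_lit 0) (nat_lit 1) (nat_lit 5) (nat_lit 173) (nat_lit 255) r0_173 r1_255 (nat_lit 0) (nat_lit 0) (nat_lit 0) (nat_lit 0x7da5614c46) (nat_lit 1155461112)]
noncomputable def e34_2 : List Rx := [
  Rx.mk (nat_lit 69) (nat_lit 5) (nat_lit 0) (nat_lit 1) (nat_lit 5) (nat_lit 286) (nat_lit 280) r0_286 r2_280 (nat_lit 0) (nat_lit 0) (nat_lit 0) (nat_lit 0x7e0b17707e) (nat_lit 960439896),
  Rx.mk (nat_lit 77) (nat_lit 5) (nat_lit 1) (nat_lit 1) (nat_lit 7) (nat_lit 288) (nat_lit 282) r0_288 r2_282 (nat_lit 0) (nat_lit 0) (nat_lit 0) (nat_lit 0x7de13f8e26) (nat_lit 1040670072),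
  Rx.mk (nat_lit 325) (nat_lit 5) (nat_lit 0) (nat_lit 5) (nat_lit 5) (nat_lit 285) (nat_lit 281) r0_285 r2_281 (nat_lit 0) (nat_lit 0) (nat_lit 0) (nat_lit 0x7e3ae53372) (nat_lit 868781160),
  Rx.mk (nat_lit 333) (nat_lit 5) (nat_lit 1) (nat_lit 5) (nat_lit 7) (nat_lit 287) (nat_lit 283) r0_287 r2_283 (nat_lit 0) (nat_lit 0) (nat_lit 0) (nat_lit 0x7de4b8169a) (nat_lit 1034015112)]
noncomputable def e34_3 : List Rx := [
  Rx.mk (nat_lit 197) (nat_lit 5) (nat_lit 0) (nat_lit 3) (nat_lit 5) (nat_lit 71) (nat_lit 244) r0_71 r3_244 (nat_lit 0) (nat_lit 0) (nat_lit 0) (nat_lit 0x8000000000) (nat_lit 0)]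
noncomputable def e34_4 : List Rx := [
  Rx.mk (nat_lit 5) (nat_lit 5) (nat_lit 0) (nat_lit 0) (nat_lit 1) (nat_lit 174) (nat_lit 262) r0_174 r4_262 (nat_lit 0) (nat_lit 0) (nat_lit 0) (nat_lit 0x67e873f0da) (nat_lit 11825630856),
  Rx.mk (nat_lit 69) (nat_lit 5) (nat_lit 0) (nat_lit 1) (nat_lit 5) (nat_lit 175) (nat_lit 263) r0_175 r4_263 (nat_lit 0) (nat_lit 0) (nat_lit 0) (nat_lit 0x7e1f5bcc24) (nat_lit 921579984),
  Rx.mk (nat_lit 197) (nat_lit 5) (nat_lit 0) (nat_lit 3) (nat_lit 5) (nat_lit 176) (nat_lit 264) r0_176 r4_264 (nat_lit 0) (nat_lit 0) (nat_lit 0) (nat_lit 0x75d49f6036) (nat_lit 4991705784)]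
noncomputable def e34_5 : List Rx := [
  Rx.mk (nat_lit 261) (nat_lit 5) (nat_lit 0) (nat_lit 4) (nat_lit 1) (nat_lit 359) (nat_lit 238) r0_359 r3_238 (nat_lit 0) (nat_lit 0) (nat_lit 0) (nat_lit 0x8000000000) (nat_lit 0),
  Rx.mk (nat_lit 268) (nat_lit 4) (nat_lit 1) (nat_lit 4) (nat_lit 2) (nat_lit 301) (nat_lit 240) r0_301 r3_240 (nat_lit 0) (nat_lit 0) (nat_lit 0) (nat_lit 0x7ffd37ac88) (nat_lit 5335200),
  Rx.mk (nat_lit 269) (nat_lit 5) (nat_lit 1) (nat_lit 4) (nat_lit 3) (nat_lit 302) (nat_lit 242) r0_302 r3_242 (nat_lit 0) (nat_lit 0) (nat_lit 0) (nat_lit 0x7efff78188) (nat_lit 490917024),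
  Rx.mk (nat_lit 453) (nat_lit 5) (nat_lit 0) (nat_lit 7) (nat_lit 5) (nat_lit 300) (nat_lit 239) r0_300 r3_239 (nat_lit 0) (nat_lit 0) (nat_lit 0) (nat_lit 0x8000000000) (nat_lit 0),
  Rx.mk (nat_lit 460) (nat_lit 4) (nat_lit 1) (nat_lit 7) (nat_lit 6) (nat_lit 303) (nat_lit 241) r0_303 r3_241 (nat_lit 0) (nat_lit 0) (nat_lit 0) (nat_lit 0x7da58729e8) (nat_lit 1155177504),
  Rx.mk (nat_lit 461) (nat_lit 5) (nat_lit 1) (nat_lit 7) (nat_lit 7) (nat_lit 304) (nat_lit 243) r0_304 r3_243 (nat_lit 0) (nat_lit 0) (nat_lit 0) (nat_lit 0x7feb704910) (nat_lit 39424320)]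
noncomputable def e34_6 : List Rx := [
  Rx.mk (nat_lit 268) (nat_lit 4) (nat_lit 1) (nat_lit 4) (nat_lit 2) (nat_lit 244) (nat_lit 244) r0_244 r0_244 (nat_lit 0) (nat_lit 0) (nat_lit 0) (nat_lit 0x563db2ae9a) (nat_lit 20497543560),
  Rx.mk (nat_lit 269) (nat_lit 5) (nat_lit 1) (nat_lit 4) (nat_lit 3) (nat_lit 245) (nat_lit 246) r0_245 r0_246 (nat_lit 0) (nat_lit 0) (nat_lit 0) (nat_lit 0x72ec042cd2) (nat_lit 6419410920),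
  Rx.mk (nat_lit 325) (nat_lit 5) (nat_lit 0) (nat_lit 5) (nat_lit 5) (nat_lit 243) (nat_lit 243) r0_243 r0_243 (nat_lit 0) (nat_lit 0) (nat_lit 0) (nat_lit 0x7feec413d0) (nat_lit 33044544),
  Rx.mk (nat_lit 332) (nat_lit 4) (nat_lit 1) (nat_lit 5) (nat_lit 6) (nat_lit 246) (nat_lit 245) r0_246 r0_245 (nat_lit 0) (nat_lit 0) (nat_lit 0) (nat_lit 0x72ec042cd2) (nat_lit 6419410920),
  Rx.mk (nat_lit 333) (nat_lit 5) (nat_lit 1) (nat_lit 5) (nat_lit 7) (nat_lit 247) (nat_lit 247) r0_247 r0_247 (nat_lit 0) (nat_lit 0) (nat_lit 0) (nat_lit 0x7d475fecba) (nat_lit 1335706632)]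
noncomputable def e34_7 : List Rx := [
  Rx.mk (nat_lit 325) (nat_lit 5) (nat_lit 0) (nat_lit 5) (nat_lit 5) (nat_lit 282) (nat_lit 252) r0_282 r1_252 (nat_lit 0) (nat_lit 0) (nat_lit 0) (nat_lit 0x7ff9bf840e) (nat_lit 11987352),
  Rx.mk (nat_lit 332) (nat_lit 4) (nat_lit 1) (nat_lit 5) (nat_lit 6) (nat_lit 283) (nat_lit 253) r0_283 r1_253 (nat_lit 0) (nat_lit 0) (nat_lit 0) (nat_lit 0x7925b2abb0) (nat_lit 3363691968),
  Rx.mk (nat_lit 333) (nat_lit 5) (nat_lit 1) (nat_lit 5) (nat_lit 7) (nat_lit 284) (nat_lit 254) r0_284 r1_254 (nat_lit 0) (nat_lit 0) (nat_lit 0) (nat_lit 0x7bdf3f502c) (nat_lit 2026213488)]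
noncomputable def e34_8 : List Rx := [
  Rx.mk (nat_lit 261) (nat_lit 5) (nat_lit 0) (nat_lit 4) (nat_lit 1) (nat_lit 305) (nat_lit 253) r0_305 r4_253 (nat_lit 0) (nat_lit 0) (nat_lit 0) (nat_lit 0x72ea26eaa8) (nat_lit 6422985504),
  Rx.mk (nat_lit 268) (nat_lit 4) (nat_lit 1) (nat_lit 4) (nat_lit 2) (nat_lit 308) (nat_lit 256) r0_308 r4_256 (nat_lit 0) (nat_lit 0) (nat_lit 0) (nat_lit 0x6d9ecf456e) (nat_lit 9021713688),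
  Rx.mk (nat_lit 269) (nat_lit 5) (nat_lit 1) (nat_lit 4) (nat_lit 3) (nat_lit 309) (nat_lit 259) r0_309 r4_259 (nat_lit 0) (nat_lit 0) (nat_lit 0) (nat_lit 0x7d715ecca2) (nat_lit 1255184424),
  Rx.mk (nat_lit 325) (nat_lit 5) (nat_lit 0) (nat_lit 5) (nat_lit 5) (nat_lit 306) (nat_lit 254) r0_306 r4_254 (nat_lit 0) (nat_lit 0) (nat_lit 0) (nat_lit 0x765dc16d8c) (nat_lit 4728767472),
  Rx.mk (nat_lit 332) (nat_lit 4) (nat_lit 1) (nat_lit 5) (nat_lit 6) (nat_lit 310) (nat_lit 257) r0_310 r4_257 (nat_lit 0) (nat_lit 0) (nat_lit 0) (nat_lit 0x7da9e10446) (nat_lit 1146834936),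
  Rx.mk (nat_lit 333) (nat_lit 5) (nat_lit 1) (nat_lit 5) (nat_lit 7) (nat_lit 311) (nat_lit 260) r0_311 r4_260 (nat_lit 0) (nat_lit 0) (nat_lit 0) (nat_lit 0x7e65ac46d6) (nat_lit 786759480),
  Rx.mk (nat_lit 453) (nat_lit 5) (nat_lit 0) (nat_lit 7) (nat_lit 5) (nat_lit 307) (nat_lit 255) r0_307 r4_255 (nat_lit 0) (nat_lit 0) (nat_lit 0) (nat_lit 0x7e1c8ad936) (nat_lit 926979768),
  Rx.mk (nat_lit 460) (nat_lit 4) (nat_lit 1) (nat_lit 7) (nat_lit 6) (nat_lit 312) (nat_lit 258) r0_312 r4_258 (nat_lit 0) (nat_lit 0) (nat_lit 0) (nat_lit 0x76d4fe194a) (nat_lit 4500142920),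
  Rx.mk (nat_lit 461) (nat_lit 5) (nat_lit 1) (nat_lit 7) (nat_lit 7) (nat_lit 313) (nat_lit 261) r0_313 r4_261 (nat_lit 0) (nat_lit 0) (nat_lit 0) (nat_lit 0x7e5d9fc7a6) (nat_lit 802192248)]
noncomputable def e34_9 : List Rx := [
  Rx.mk (nat_lit 197) (nat_lit 5) (nat_lit 0) (nat_lit 3) (nat_lit 5) (nat_lit 223) (nat_lit 278) r0_223 r5_278 (nat_lit 0) (nat_lit 0) (nat_lit 0) (nat_lit 0x7c3f149278) (nat_lit 1842463584),
  Rx.mk (nat_lit 453) (nat_lit 5) (nat_lit 0) (nat_lit 7) (nat_lit 5) (nat_lit 222) (nat_lit 279) r0_222 r5_279 (nat_lit 0) (nat_lit 0) (nat_lit 0) (nat_lit 0x7ff5e6a1a0) (nat_lit 19363968)]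
noncomputable def e34_10 : List Rx := [
  Rx.mk (nat_lit 17) (nat_lit 1) (nat_lit 2) (nat_lit 0) (nat_lit 3) (nat_lit 73) (nat_lit 72) r0_73 r0_72 (nat_lit 0) (nat_lit 0) (nat_lit 0) (nat_lit 0x75b2e4dc00) (nat_lit 5056376832),
  Rx.mk (nat_lit 193) (nat_lit 1) (nat_lit 0) (nat_lit 3) (nat_lit 5) (nat_lit 72) (nat_lit 73) r0_72 r0_73 (nat_lit 0) (nat_lit 0) (nat_lit 0) (nat_lit 0x75b2e4dc00) (nat_lit 5056376832),
  Rx.mk (nat_lit 209) (nat_lit 1) (nat_lit 2) (nat_lit 3) (nat_lit 7) (nat_lit 74) (nat_lit 74) r0_74 r0_74 (nat_lit 0) (nat_lit 0) (nat_lit 0) (nat_lit 0x7dc68519e8) (nat_lit 1091918880)]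
noncomputable def e34_11 : List Rx := [
  Rx.mk (nat_lit 1) (nat_lit 1) (nat_lit 0) (nat_lit 0) (nat_lit 1) (nat_lit 178) (nat_lit 319) r0_178 r6_319 (nat_lit 0) (nat_lit 0) (nat_lit 0) (nat_lit 0x6d7c714b70) (nat_lit 9087609024),
  Rx.mk (nat_lit 5) (nat_lit 5) (nat_lit 0) (nat_lit 0) (nat_lit 1) (nat_lit 177) (nat_lit 325) r0_177 r6_325 (nat_lit 0) (nat_lit 0) (nat_lit 0) (nat_lit 0x6042df11ce) (nat_lit 15579090072),
  Rx.mk (nat_lit 17) (nat_lit 1) (nat_lit 2) (nat_lit 0) (nat_lit 3) (nat_lit 182) (nat_lit 322) r0_182 r6_322 (nat_lit 0) (nat_lit 0) (nat_lit 0) (nat_lit 0x7e87fa21d6) (nat_lit 720984888),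
  Rx.mk (nat_lit 65) (nat_lit 1) (nat_lit 0) (nat_lit 1) (nat_lit 5) (nat_lit 180) (nat_lit 320) r0_180 r6_320 (nat_lit 0) (nat_lit 0) (nat_lit 0) (nat_lit 0x7d7f2b2fce) (nat_lit 1228727448),
  Rx.mk (nat_lit 69) (nat_lit 5) (nat_lit 0) (nat_lit 1) (nat_lit 5) (nat_lit 179) (nat_lit 326) r0_179 r6_326 (nat_lit 0) (nat_lit 0) (nat_lit 0) (nat_lit 0x7d961fe06c) (nat_lit 1184712048),
  Rx.mk (nat_lit 81) (nat_lit 1) (nat_lit 2) (nat_lit 1) (nat_lit 7) (nat_lit 183) (nat_lit 323) r0_183 r6_323 (nat_lit 0) (nat_lit 0) (nat_lit 0) (nat_lit 0x7e596ecaba) (nat_lit 810228744),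
  Rx.mk (nat_lit 193) (nat_lit 1) (nat_lit 0) (nat_lit 3) (nat_lit 5) (nat_lit 181) (nat_lit 321) r0_181 r6_321 (nat_lit 0) (nat_lit 0) (nat_lit 0) (nat_lit 0x7e643c7dd4) (nat_lit 789514128),
  Rx.mk (nat_lit 209) (nat_lit 1) (nat_lit 2) (nat_lit 3) (nat_lit 7) (nat_lit 184) (nat_lit 324) r0_184 r6_324 (nat_lit 0) (nat_lit 0) (nat_lit 0) (nat_lit 0x7e6c393e00) (nat_lit 774199296)]
noncomputable def e34_12 : List Rx := [
  Rx.mk (nat_lit 17) (nat_lit 1) (nat_lit 2) (nat_lit 0) (nat_lit 3) (nat_lit 76) (nat_lit 69) r0_76 r1_69 (nat_lit 0) (nat_lit 0) (nat_lit 0) (nat_lit 0x7d345c1d0a) (nat_lit 1372165704),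
  Rx.mk (nat_lit 145) (nat_lit 1) (nat_lit 2) (nat_lit 2) (nat_lit 7) (nat_lit 77) (nat_lit 72) r0_77 r1_72 (nat_lit 0) (nat_lit 0) (nat_lit 0) (nat_lit 0x7d7df4633c) (nat_lit 1231055280),
  Rx.mk (nat_lit 193) (nat_lit 1) (nat_lit 0) (nat_lit 3) (nat_lit 5) (nat_lit 75) (nat_lit 70) r0_75 r1_70 (nat_lit 0) (nat_lit 0) (nat_lit 0) (nat_lit 0x7de3d424da) (nat_lit 1035722376),
  Rx.mk (nat_lit 209) (nat_lit 1) (nat_lit 2) (nat_lit 3) (nat_lit 7) (nat_lit 78) (nat_lit 71) r0_78 r1_71 (nat_lit 0) (nat_lit 0) (nat_lit 0) (nat_lit 0x7ea4197fc4) (nat_lit 667062864)]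
noncomputable def e34_13 : List Rx := [
  Rx.mk (nat_lit 1) (nat_lit 1) (nat_lit 0) (nat_lit 0) (nat_lit 1) (nat_lit 188) (nat_lit 241) r0_188 r7_241 (nat_lit 0) (nat_lit 0) (nat_lit 0) (nat_lit 0x6c14ae090c) (nat_lit 9777416688),
  Rx.mk (nat_lit 17) (nat_lit 1) (nat_lit 2) (nat_lit 0) (nat_lit 3) (nat_lit 191) (nat_lit 244) r0_191 r7_244 (nat_lit 0) (nat_lit 0) (nat_lit 0) (nat_lit 0x7dd6cb7572) (nat_lit 1060713576),
  Rx.mk (nat_lit 65) (nat_lit 1) (nat_lit 0) (nat_lit 1) (nat_lit 5) (nat_lit 189) (nat_lit 242) r0_189 r7_242 (nat_lit 0) (nat_lit 0) (nat_lit 0) (nat_lit 0x7d632fcfa0) (nat_lit 1282379904),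
  Rx.mk (nat_lit 81) (nat_lit 1) (nat_lit 2) (nat_lit 1) (nat_lit 7) (nat_lit 192) (nat_lit 245) r0_192 r7_245 (nat_lit 0) (nat_lit 0) (nat_lit 0) (nat_lit 0x7df79428c6) (nat_lit 997853688),
  Rx.mk (nat_lit 145) (nat_lit 1) (nat_lit 2) (nat_lit 2) (nat_lit 7) (nat_lit 193) (nat_lit 247) r0_193 r7_247 (nat_lit 0) (nat_lit 0) (nat_lit 0) (nat_lit 0x7de7422df6) (nat_lit 1029146040),
  Rx.mk (nat_lit 193) (nat_lit 1) (nat_lit 0) (nat_lit 3) (nat_lit 5) (nat_lit 190) (nat_lit 243) r0_190 r7_243 (nat_lit 0) (nat_lit 0) (nat_lit 0) (nat_lit 0x7e4de063ac) (nat_lit 832386672),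
  Rx.mk (nat_lit 209) (nat_lit 1) (nat_lit 2) (nat_lit 3) (nat_lit 7) (nat_lit 194) (nat_lit 246) r0_194 r7_246 (nat_lit 0) (nat_lit 0) (nat_lit 0) (nat_lit 0x7de0607c18) (nat_lit 1042340832)]
noncomputable def e34_14 : List Rx := [
  Rx.mk (nat_lit 65) (nat_lit 1) (nat_lit 0) (nat_lit 1) (nat_lit 5) (nat_lit 186) (nat_lit 64) r0_186 r7_64 (nat_lit 0) (nat_lit 0) (nat_lit 0) (nat_lit 0x7db1ff225c) (nat_lit 1131270192),
  Rx.mk (nat_lit 69) (nat_lit 5) (nat_lit 0) (nat_lit 1) (nat_lit 5) (nat_lit 185) (nat_lit 63) r0_185 r7_63 (nat_lit 0) (nat_lit 0) (nat_lit 0) (nat_lit 0x7e2fea232e) (nat_lit 889835544),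
  Rx.mk (nat_lit 81) (nat_lit 1) (nat_lit 2) (nat_lit 1) (nat_lit 7) (nat_lit 187) (nat_lit 65) r0_187 r7_65 (nat_lit 0) (nat_lit 0) (nat_lit 0) (nat_lit 0x7dec1700a4) (nat_lit 1019882448)]
noncomputable def e34_15 : List Rx := [
  Rx.mk (nat_lit 65) (nat_lit 1) (nat_lit 0) (nat_lit 1) (nat_lit 5) (nat_lit 295) (nat_lit 250) r0_295 r8_250 (nat_lit 0) (nat_lit 0) (nat_lit 0) (nat_lit 0x7d3d9e48de) (nat_lit 1354413528),
  Rx.mk (nat_lit 69) (nat_lit 5) (nat_lit 0) (nat_lit 1) (nat_lit 5) (nat_lit 294) (nat_lit 253) r0_294 r8_253 (nat_lit 0) (nat_lit 0) (nat_lit 0) (nat_lit 0x7d40db9506) (nat_lit 1348202232),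
  Rx.mk (nat_lit 73) (nat_lit 1) (nat_lit 1) (nat_lit 1) (nat_lit 7) (nat_lit 298) (nat_lit 251) r0_298 r8_251 (nat_lit 0) (nat_lit 0) (nat_lit 0) (nat_lit 0x7df79428c6) (nat_lit 997853688),
  Rx.mk (nat_lit 77) (nat_lit 5) (nat_lit 1) (nat_lit 1) (nat_lit 7) (nat_lit 297) (nat_lit 255) r0_297 r8_255 (nat_lit 0) (nat_lit 0) (nat_lit 0) (nat_lit 0x7de02cbf54) (nat_lit 1042728336),
  Rx.mk (nat_lit 81) (nat_lit 1) (nat_lit 2) (nat_lit 1) (nat_lit 7) (nat_lit 299) (nat_lit 252) r0_299 r8_252 (nat_lit 0) (nat_lit 0) (nat_lit 0) (nat_lit 0x7dea449dcc) (nat_lit 1023375600),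
  Rx.mk (nat_lit 325) (nat_lit 5) (nat_lit 0) (nat_lit 5) (nat_lit 5) (nat_lit 293) (nat_lit 254) r0_293 r8_254 (nat_lit 0) (nat_lit 0) (nat_lit 0) (nat_lit 0x7c454cceee) (nat_lit 1830538008),
  Rx.mk (nat_lit 333) (nat_lit 5) (nat_lit 1) (nat_lit 5) (nat_lit 7) (nat_lit 296) (nat_lit 256) r0_296 r8_256 (nat_lit 0) (nat_lit 0) (nat_lit 0) (nat_lit 0x7df79428c6) (nat_lit 997853688)]
noncomputable def e34_16 : List Rx := [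
  Rx.mk (nat_lit 193) (nat_lit 1) (nat_lit 0) (nat_lit 3) (nat_lit 5) (nat_lit 80) (nat_lit 69) r0_80 r4_69 (nat_lit 0) (nat_lit 0) (nat_lit 0) (nat_lit 0x7933197536) (nat_lit 3337995960),
  Rx.mk (nat_lit 197) (nat_lit 5) (nat_lit 0) (nat_lit 3) (nat_lit 5) (nat_lit 79) (nat_lit 68) r0_79 r4_68 (nat_lit 0) (nat_lit 0) (nat_lit 0) (nat_lit 0x6338dbcf0c) (nat_lit 14125728240),
  Rx.mk (nat_lit 209) (nat_lit 1) (nat_lit 2) (nat_lit 3) (nat_lit 7) (nat_lit 81) (nat_lit 70) r0_81 r4_70 (nat_lit 0) (nat_lit 0) (nat_lit 0) (nat_lit 0x7e7f2fee82) (nat_lit 737838504)]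
noncomputable def e34_17 : List Rx := [
  Rx.mk (nat_lit 5) (nat_lit 5) (nat_lit 0) (nat_lit 0) (nat_lit 1) (nat_lit 195) (nat_lit 281) r0_195 r9_281 (nat_lit 0) (nat_lit 0) (nat_lit 0) (nat_lit 0x604e485b2e) (nat_lit 15557210136),
  Rx.mk (nat_lit 69) (nat_lit 5) (nat_lit 0) (nat_lit 1) (nat_lit 5) (nat_lit 196) (nat_lit 282) r0_196 r9_282 (nat_lit 0) (nat_lit 0) (nat_lit 0) (nat_lit 0x7d6198a914) (nat_lit 1285429392),
  Rx.mk (nat_lit 193) (nat_lit 1) (nat_lit 0) (nat_lit 3) (nat_lit 5) (nat_lit 198) (nat_lit 279) r0_198 r9_279 (nat_lit 0) (nat_lit 0) (nat_lit 0) (nat_lit 0x7ccb9f693e) (nat_lit 1572988248),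
  Rx.mk (nat_lit 197) (nat_lit 5) (nat_lit 0) (nat_lit 3) (nat_lit 5) (nat_lit 197) (nat_lit 283) r0_197 r9_283 (nat_lit 0) (nat_lit 0) (nat_lit 0) (nat_lit 0x7e0e1fdff4) (nat_lit 954624528),
  Rx.mk (nat_lit 209) (nat_lit 1) (nat_lit 2) (nat_lit 3) (nat_lit 7) (nat_lit 199) (nat_lit 280) r0_199 r9_280 (nat_lit 0) (nat_lit 0) (nat_lit 0) (nat_lit 0x7e3eef92c8) (nat_lit 861033888)]
noncomputable def e34_18 : List Rx := [
  Rx.mk (nat_lit 193) (nat_lit 1) (nat_lit 0) (nat_lit 3) (nat_lit 5) (nat_lit 226) (nat_lit 300) r0_226 r10_300 (nat_lit 0) (nat_lit 0) (nat_lit 0) (nat_lit 0x7dddc22600) (nat_lit 1047361536),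
  Rx.mk (nat_lit 197) (nat_lit 5) (nat_lit 0) (nat_lit 3) (nat_lit 5) (nat_lit 225) (nat_lit 302) r0_225 r10_302 (nat_lit 0) (nat_lit 0) (nat_lit 0) (nat_lit 0x7c7d384ffe) (nat_lit 1723317336),
  Rx.mk (nat_lit 209) (nat_lit 1) (nat_lit 2) (nat_lit 3) (nat_lit 7) (nat_lit 227) (nat_lit 301) r0_227 r10_301 (nat_lit 0) (nat_lit 0) (nat_lit 0) (nat_lit 0x7e9ab5f606) (nat_lit 685064952)]
noncomputable def e34_19 : List Rx := [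
  Rx.mk (nat_lit 77) (nat_lit 5) (nat_lit 1) (nat_lit 1) (nat_lit 7) (nat_lit 292) (nat_lit 249) r0_292 r8_249 (nat_lit 0) (nat_lit 0) (nat_lit 0) (nat_lit 0x7ddc669bba) (nat_lit 1049964552),
  Rx.mk (nat_lit 333) (nat_lit 5) (nat_lit 1) (nat_lit 5) (nat_lit 7) (nat_lit 291) (nat_lit 248) r0_291 r8_248 (nat_lit 0) (nat_lit 0) (nat_lit 0) (nat_lit 0x7df24f9d14) (nat_lit 1007954064)]
noncomputable def e34_20 : List Rx := [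
  Rx.mk (nat_lit 268) (nat_lit 4) (nat_lit 1) (nat_lit 4) (nat_lit 2) (nat_lit 248) (nat_lit 171) r0_248 r0_171 (nat_lit 0) (nat_lit 0) (nat_lit 0) (nat_lit 0x7d82b5b722) (nat_lit 1221937704),
  Rx.mk (nat_lit 269) (nat_lit 5) (nat_lit 1) (nat_lit 4) (nat_lit 3) (nat_lit 249) (nat_lit 172) r0_249 r0_172 (nat_lit 0) (nat_lit 0) (nat_lit 0) (nat_lit 0x79e90615b6) (nat_lit 2989174968)]
noncomputable def e34_21 : List Rx := [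
  Rx.mk (nat_lit 268) (nat_lit 4) (nat_lit 1) (nat_lit 4) (nat_lit 2) (nat_lit 269) (nat_lit 179) r0_269 r1_179 (nat_lit 0) (nat_lit 0) (nat_lit 0) (nat_lit 0x7fe711eefa) (nat_lit 47800584),
  Rx.mk (nat_lit 269) (nat_lit 5) (nat_lit 1) (nat_lit 4) (nat_lit 3) (nat_lit 270) (nat_lit 181) r0_270 r1_181 (nat_lit 0) (nat_lit 0) (nat_lit 0) (nat_lit 0x7a861a03da) (nat_lit 2687994504),
  Rx.mk (nat_lit 300) (nat_lit 4) (nat_lit 5) (nat_lit 4) (nat_lit 2) (nat_lit 265) (nat_lit 180) r0_265 r1_180 (nat_lit 0) (nat_lit 0) (nat_lit 0) (nat_lit 0x5c4ea51962) (nat_lit 17519929128),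
  Rx.mk (nat_lit 301) (nat_lit 5) (nat_lit 5) (nat_lit 4) (nat_lit 3) (nat_lit 266) (nat_lit 182) r0_266 r1_182 (nat_lit 0) (nat_lit 0) (nat_lit 0) (nat_lit 0x77997950d2) (nat_lit 4123410408),
  Rx.mk (nat_lit 302) (nat_lit 6) (nat_lit 5) (nat_lit 4) (nat_lit 3) (nat_lit 267) (nat_lit 183) r0_267 r1_183 (nat_lit 0) (nat_lit 0) (nat_lit 0) (nat_lit 0x7389907370) (nat_lit 6117329088),
  Rx.mk (nat_lit 430) (nat_lit 6) (nat_lit 5) (nat_lit 6) (nat_lit 7) (nat_lit 268) (nat_lit 184) r0_268 r1_184 (nat_lit 0) (nat_lit 0) (nat_lit 0) (nat_lit 0x6ddb0661c0) (nat_lit 8906257152)]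
noncomputable def e34_22 : List Rx := [
  Rx.mk (nat_lit 268) (nat_lit 4) (nat_lit 1) (nat_lit 4) (nat_lit 2) (nat_lit 317) (nat_lit 155) r0_317 r4_155 (nat_lit 0) (nat_lit 0) (nat_lit 0) (nat_lit 0x6ef1331dde) (nat_lit 8372885976),
  Rx.mk (nat_lit 269) (nat_lit 5) (nat_lit 1) (nat_lit 4) (nat_lit 3) (nat_lit 318) (nat_lit 156) r0_318 r4_156 (nat_lit 0) (nat_lit 0) (nat_lit 0) (nat_lit 0x7d38edd3ea) (nat_lit 1363404744),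
  Rx.mk (nat_lit 460) (nat_lit 4) (nat_lit 1) (nat_lit 7) (nat_lit 6) (nat_lit 319) (nat_lit 157) r0_319 r4_157 (nat_lit 0) (nat_lit 0) (nat_lit 0) (nat_lit 0x76db4494dc) (nat_lit 4488110640),
  Rx.mk (nat_lit 461) (nat_lit 5) (nat_lit 1) (nat_lit 7) (nat_lit 7) (nat_lit 320) (nat_lit 158) r0_320 r4_158 (nat_lit 0) (nat_lit 0) (nat_lit 0) (nat_lit 0x7ece365dcc) (nat_lit 586316016)]
noncomputable def e34_23 : List Rx := [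
  Rx.mk (nat_lit 268) (nat_lit 4) (nat_lit 1) (nat_lit 4) (nat_lit 2) (nat_lit 250) (nat_lit 315) r0_250 r6_315 (nat_lit 0) (nat_lit 0) (nat_lit 0) (nat_lit 0x69df6adf74) (nat_lit 10861248528),
  Rx.mk (nat_lit 269) (nat_lit 5) (nat_lit 1) (nat_lit 4) (nat_lit 3) (nat_lit 251) (nat_lit 317) r0_251 r6_317 (nat_lit 0) (nat_lit 0) (nat_lit 0) (nat_lit 0x7da3d1a542) (nat_lit 1158454440),
  Rx.mk (nat_lit 332) (nat_lit 4) (nat_lit 1) (nat_lit 5) (nat_lit 6) (nat_lit 252) (nat_lit 316) r0_252 r6_316 (nat_lit 0) (nat_lit 0) (nat_lit 0) (nat_lit 0x7bc64bff7a) (nat_lit 2074053384),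
  Rx.mk (nat_lit 333) (nat_lit 5) (nat_lit 1) (nat_lit 5) (nat_lit 7) (nat_lit 253) (nat_lit 318) r0_253 r6_318 (nat_lit 0) (nat_lit 0) (nat_lit 0) (nat_lit 0x7e1cb5968a) (nat_lit 926659656)]
noncomputable def e34_24 : List Rx := [
  Rx.mk (nat_lit 268) (nat_lit 4) (nat_lit 1) (nat_lit 4) (nat_lit 2) (nat_lit 278) (nat_lit 237) r0_278 r7_237 (nat_lit 0) (nat_lit 0) (nat_lit 0) (nat_lit 0x5c996eec7a) (nat_lit 17376530184),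
  Rx.mk (nat_lit 269) (nat_lit 5) (nat_lit 1) (nat_lit 4) (nat_lit 3) (nat_lit 279) (nat_lit 239) r0_279 r7_239 (nat_lit 0) (nat_lit 0) (nat_lit 0) (nat_lit 0x7c51f5245c) (nat_lit 1806268464),
  Rx.mk (nat_lit 300) (nat_lit 4) (nat_lit 5) (nat_lit 4) (nat_lit 2) (nat_lit 271) (nat_lit 230) r0_271 r7_230 (nat_lit 0) (nat_lit 0) (nat_lit 0) (nat_lit 0x52675b77e4) (nat_lit 22381079760),
  Rx.mk (nat_lit 301) (nat_lit 5) (nat_lit 5) (nat_lit 4) (nat_lit 3) (nat_lit 272) (nat_lit 232) r0_272 r7_232 (nat_lit 0) (nat_lit 0) (nat_lit 0) (nat_lit 0x77e11e9636) (nat_lit 3986037432),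
  Rx.mk (nat_lit 302) (nat_lit 6) (nat_lit 5) (nat_lit 4) (nat_lit 3) (nat_lit 273) (nat_lit 234) r0_273 r7_234 (nat_lit 0) (nat_lit 0) (nat_lit 0) (nat_lit 0x7d448d19ea) (nat_lit 1341120456),
  Rx.mk (nat_lit 332) (nat_lit 4) (nat_lit 1) (nat_lit 5) (nat_lit 6) (nat_lit 280) (nat_lit 238) r0_280 r7_238 (nat_lit 0) (nat_lit 0) (nat_lit 0) (nat_lit 0x7d503ebec4) (nat_lit 1318698576),
  Rx.mk (nat_lit 333) (nat_lit 5) (nat_lit 1) (nat_lit 5) (nat_lit 7) (nat_lit 281) (nat_lit 240) r0_281 r7_240 (nat_lit 0) (nat_lit 0) (nat_lit 0) (nat_lit 0x7df400a202) (nat_lit 1004710824),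
  Rx.mk (nat_lit 364) (nat_lit 4) (nat_lit 5) (nat_lit 5) (nat_lit 6) (nat_lit 274) (nat_lit 231) r0_274 r7_231 (nat_lit 0) (nat_lit 0) (nat_lit 0) (nat_lit 0x7a2fb2caa4) (nat_lit 2853663696),
  Rx.mk (nat_lit 365) (nat_lit 5) (nat_lit 5) (nat_lit 5) (nat_lit 7) (nat_lit 275) (nat_lit 233) r0_275 r7_233 (nat_lit 0) (nat_lit 0) (nat_lit 0) (nat_lit 0x7d51c5c652) (nat_lit 1315769832),
  Rx.mk (nat_lit 366) (nat_lit 6) (nat_lit 5) (nat_lit 5) (nat_lit 7) (nat_lit 276) (nat_lit 235) r0_276 r7_235 (nat_lit 0) (nat_lit 0) (nat_lit 0) (nat_lit 0x7df2301f0c) (nat_lit 1008189936),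
  Rx.mk (nat_lit 430) (nat_lit 6) (nat_lit 5) (nat_lit 6) (nat_lit 7) (nat_lit 277) (nat_lit 236) r0_277 r7_236 (nat_lit 0) (nat_lit 0) (nat_lit 0) (nat_lit 0x7df55c2c48) (nat_lit 1002107808)]
noncomputable def e34_25 : List Rx := [
  Rx.mk (nat_lit 332) (nat_lit 4) (nat_lit 1) (nat_lit 5) (nat_lit 6) (nat_lit 289) (nat_lit 178) r0_289 r7_178 (nat_lit 0) (nat_lit 0) (nat_lit 0) (nat_lit 0x7b30873c5c) (nat_lit 2361219120),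
  Rx.mk (nat_lit 333) (nat_lit 5) (nat_lit 1) (nat_lit 5) (nat_lit 7) (nat_lit 290) (nat_lit 179) r0_290 r7_179 (nat_lit 0) (nat_lit 0) (nat_lit 0) (nat_lit 0x7df79428c6) (nat_lit 997853688)]
noncomputable def e34_26 : List Rx := [
  Rx.mk (nat_lit 268) (nat_lit 4) (nat_lit 1) (nat_lit 4) (nat_lit 2) (nat_lit 321) (nat_lit 273) r0_321 r9_273 (nat_lit 0) (nat_lit 0) (nat_lit 0) (nat_lit 0x6fbd3d3c70) (nat_lit 7981661376),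
  Rx.mk (nat_lit 269) (nat_lit 5) (nat_lit 1) (nat_lit 4) (nat_lit 3) (nat_lit 322) (nat_lit 276) r0_322 r9_276 (nat_lit 0) (nat_lit 0) (nat_lit 0) (nat_lit 0x7d8ed7d4f4) (nat_lit 1198673424),
  Rx.mk (nat_lit 332) (nat_lit 4) (nat_lit 1) (nat_lit 5) (nat_lit 6) (nat_lit 323) (nat_lit 274) r0_323 r9_274 (nat_lit 0) (nat_lit 0) (nat_lit 0) (nat_lit 0x7d7df942ee) (nat_lit 1231018776),
  Rx.mk (nat_lit 333) (nat_lit 5) (nat_lit 1) (nat_lit 5) (nat_lit 7) (nat_lit 324) (nat_lit 277) r0_324 r9_277 (nat_lit 0) (nat_lit 0) (nat_lit 0) (nat_lit 0x7e0faa474c) (nat_lit 951670512),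
  Rx.mk (nat_lit 460) (nat_lit 4) (nat_lit 1) (nat_lit 7) (nat_lit 6) (nat_lit 325) (nat_lit 275) r0_325 r9_275 (nat_lit 0) (nat_lit 0) (nat_lit 0) (nat_lit 0x7a4fc4e962) (nat_lit 2792171304),
  Rx.mk (nat_lit 461) (nat_lit 5) (nat_lit 1) (nat_lit 7) (nat_lit 7) (nat_lit 326) (nat_lit 278) r0_326 r9_278 (nat_lit 0) (nat_lit 0) (nat_lit 0) (nat_lit 0x7e1ddac436) (nat_lit 924463800)]
noncomputable def e34_27 : List Rx := [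
  Rx.mk (nat_lit 460) (nat_lit 4) (nat_lit 1) (nat_lit 7) (nat_lit 6) (nat_lit 327) (nat_lit 298) r0_327 r10_298 (nat_lit 0) (nat_lit 0) (nat_lit 0) (nat_lit 0x7e2b75aa7a) (nat_lit 898377480),
  Rx.mk (nat_lit 461) (nat_lit 5) (nat_lit 1) (nat_lit 7) (nat_lit 7) (nat_lit 328) (nat_lit 299) r0_328 r10_299 (nat_lit 0) (nat_lit 0) (nat_lit 0) (nat_lit 0x7df79428c6) (nat_lit 997853688)]
noncomputable def e34_28 : List Rx := [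
  Rx.mk (nat_lit 5) (nat_lit 5) (nat_lit 0) (nat_lit 0) (nat_lit 1) (nat_lit 200) (nat_lit 37) r0_200 r10_37 (nat_lit 0) (nat_lit 0) (nat_lit 0) (nat_lit 0x76da66a2bc) (nat_lit 4489772976),
  Rx.mk (nat_lit 69) (nat_lit 5) (nat_lit 0) (nat_lit 1) (nat_lit 5) (nat_lit 201) (nat_lit 38) r0_201 r10_38 (nat_lit 0) (nat_lit 0) (nat_lit 0) (nat_lit 0x7e09e4c3aa) (nat_lit 962736840),
  Rx.mk (nat_lit 197) (nat_lit 5) (nat_lit 0) (nat_lit 3) (nat_lit 5) (nat_lit 202) (nat_lit 39) r0_202 r10_39 (nat_lit 0) (nat_lit 0) (nat_lit 0) (nat_lit 0x7e49f042b2) (nat_lit 839937384),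
  Rx.mk (nat_lit 221) (nat_lit 5) (nat_lit 3) (nat_lit 3) (nat_lit 7) (nat_lit 203) (nat_lit 40) r0_203 r10_40 (nat_lit 0) (nat_lit 0) (nat_lit 0) (nat_lit 0x7e9eee1280) (nat_lit 676975104)]
noncomputable def e34_29 : List Rx := [
  Rx.mk (nat_lit 199) (nat_lit 7) (nat_lit 0) (nat_lit 3) (nat_lit 5) (nat_lit 231) (nat_lit 105) r0_231 r5_105 (nat_lit 0) (nat_lit 0) (nat_lit 0) (nat_lit 0x7b678c2bd6) (nat_lit 2255725368),
  Rx.mk (nat_lit 284) (nat_lit 4) (nat_lit 3) (nat_lit 4) (nat_lit 2) (nat_lit 232) (nat_lit 98) r0_232 r5_98 (nat_lit 0) (nat_lit 0) (nat_lit 0) (nat_lit 0x75597c52e2) (nat_lit 5227808040),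
  Rx.mk (nat_lit 285) (nat_lit 5) (nat_lit 3) (nat_lit 4) (nat_lit 3) (nat_lit 233) (nat_lit 101) r0_233 r5_101 (nat_lit 0) (nat_lit 0) (nat_lit 0) (nat_lit 0x7fa8fdf078) (nat_lit 166828896),
  Rx.mk (nat_lit 452) (nat_lit 4) (nat_lit 0) (nat_lit 7) (nat_lit 4) (nat_lit 228) (nat_lit 99) r0_228 r5_99 (nat_lit 0) (nat_lit 0) (nat_lit 0) (nat_lit 0x746fc68f28) (nat_lit 5675922720),
  Rx.mk (nat_lit 453) (nat_lit 5) (nat_lit 0) (nat_lit 7) (nat_lit 5) (nat_lit 229) (nat_lit 102) r0_229 r5_102 (nat_lit 0) (nat_lit 0) (nat_lit 0) (nat_lit 0x7f864e9b90) (nat_lit 233333568),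
  Rx.mk (nat_lit 455) (nat_lit 7) (nat_lit 0) (nat_lit 7) (nat_lit 5) (nat_lit 230) (nat_lit 104) r0_230 r5_104 (nat_lit 0) (nat_lit 0) (nat_lit 0) (nat_lit 0x7d3f0c91f8) (nat_lit 1351670112),
  Rx.mk (nat_lit 476) (nat_lit 4) (nat_lit 3) (nat_lit 7) (nat_lit 6) (nat_lit 234) (nat_lit 100) r0_234 r5_100 (nat_lit 0) (nat_lit 0) (nat_lit 0) (nat_lit 0x7ee77f2926) (nat_lit 537835896),
  Rx.mk (nat_lit 477) (nat_lit 5) (nat_lit 3) (nat_lit 7) (nat_lit 7) (nat_lit 235) (nat_lit 103) r0_235 r5_103 (nat_lit 0) (nat_lit 0) (nat_lit 0) (nat_lit 0x7f62ec71d6) (nat_lit 301177656)]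
noncomputable def e34_30 : List Rx := [
  Rx.mk (nat_lit 260) (nat_lit 4) (nat_lit 0) (nat_lit 4) (nat_lit 0) (nat_lit 341) (nat_lit 165) r0_341 r10_165 (nat_lit 0) (nat_lit 0) (nat_lit 0) (nat_lit 0x2d7a01d26e) (nat_lit 40506896664),
  Rx.mk (nat_lit 261) (nat_lit 5) (nat_lit 0) (nat_lit 4) (nat_lit 1) (nat_lit 342) (nat_lit 168) r0_342 r10_168 (nat_lit 0) (nat_lit 0) (nat_lit 0) (nat_lit 0x7aa5ac4a96) (nat_lit 2627459640),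
  Rx.mk (nat_lit 268) (nat_lit 4) (nat_lit 1) (nat_lit 4) (nat_lit 2) (nat_lit 348) (nat_lit 166) r0_348 r10_166 (nat_lit 0) (nat_lit 0) (nat_lit 0) (nat_lit 0x7a5f28731a) (nat_lit 2762664840),
  Rx.mk (nat_lit 269) (nat_lit 5) (nat_lit 1) (nat_lit 4) (nat_lit 3) (nat_lit 349) (nat_lit 169) r0_349 r10_169 (nat_lit 0) (nat_lit 0) (nat_lit 0) (nat_lit 0x7dda7f3a32) (nat_lit 1053614952),
  Rx.mk (nat_lit 284) (nat_lit 4) (nat_lit 3) (nat_lit 4) (nat_lit 2) (nat_lit 355) (nat_lit 167) r0_355 r10_167 (nat_lit 0) (nat_lit 0) (nat_lit 0) (nat_lit 0x7cc600e32c) (nat_lit 1583762544),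
  Rx.mk (nat_lit 285) (nat_lit 5) (nat_lit 3) (nat_lit 4) (nat_lit 3) (nat_lit 356) (nat_lit 170) r0_356 r10_170 (nat_lit 0) (nat_lit 0) (nat_lit 0) (nat_lit 0x7df00ea126) (nat_lit 1012275576),
  Rx.mk (nat_lit 324) (nat_lit 4) (nat_lit 0) (nat_lit 5) (nat_lit 4) (nat_lit 343) (nat_lit 171) r0_343 r10_171 (nat_lit 0) (nat_lit 0) (nat_lit 0) (nat_lit 0x79a5a2ac30) (nat_lit 3118385088),
  Rx.mk (nat_lit 325) (nat_lit 5) (nat_lit 0) (nat_lit 5) (nat_lit 5) (nat_lit 344) (nat_lit 174) r0_344 r10_174 (nat_lit 0) (nat_lit 0) (nat_lit 0) (nat_lit 0x7df905d1aa) (nat_lit 995085000),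
  Rx.mk (nat_lit 332) (nat_lit 4) (nat_lit 1) (nat_lit 5) (nat_lit 6) (nat_lit 350) (nat_lit 172) r0_350 r10_172 (nat_lit 0) (nat_lit 0) (nat_lit 0) (nat_lit 0x7dd895f8c8) (nat_lit 1057279392),
  Rx.mk (nat_lit 333) (nat_lit 5) (nat_lit 1) (nat_lit 5) (nat_lit 7) (nat_lit 351) (nat_lit 175) r0_351 r10_175 (nat_lit 0) (nat_lit 0) (nat_lit 0) (nat_lit 0x7df9cda52c) (nat_lit 993588336),
  Rx.mk (nat_lit 348) (nat_lit 4) (nat_lit 3) (nat_lit 5) (nat_lit 6) (nat_lit 357) (nat_lit 173) r0_357 r10_173 (nat_lit 0) (nat_lit 0) (nat_lit 0) (nat_lit 0x7e5a0a0106) (nat_lit 809066232),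
  Rx.mk (nat_lit 349) (nat_lit 5) (nat_lit 3) (nat_lit 5) (nat_lit 7) (nat_lit 358) (nat_lit 176) r0_358 r10_176 (nat_lit 0) (nat_lit 0) (nat_lit 0) (nat_lit 0x7ea0391dce) (nat_lit 674495640),
  Rx.mk (nat_lit 452) (nat_lit 4) (nat_lit 0) (nat_lit 7) (nat_lit 4) (nat_lit 345) (nat_lit 177) r0_345 r10_177 (nat_lit 0) (nat_lit 0) (nat_lit 0) (nat_lit 0x7b95ea25c8) (nat_lit 2166821280),
  Rx.mk (nat_lit 453) (nat_lit 5) (nat_lit 0) (nat_lit 7) (nat_lit 5) (nat_lit 346) (nat_lit 179) r0_346 r10_179 (nat_lit 0) (nat_lit 0) (nat_lit 0) (nat_lit 0x7deff222ee) (nat_lit 1012488984),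
  Rx.mk (nat_lit 455) (nat_lit 7) (nat_lit 0) (nat_lit 7) (nat_lit 5) (nat_lit 347) (nat_lit 181) r0_347 r10_181 (nat_lit 0) (nat_lit 0) (nat_lit 0) (nat_lit 0x7dc039bea4) (nat_lit 1103987664),
  Rx.mk (nat_lit 460) (nat_lit 4) (nat_lit 1) (nat_lit 7) (nat_lit 6) (nat_lit 352) (nat_lit 178) r0_352 r10_178 (nat_lit 0) (nat_lit 0) (nat_lit 0) (nat_lit 0x7df5b266e4) (nat_lit 1001461968),
  Rx.mk (nat_lit 461) (nat_lit 5) (nat_lit 1) (nat_lit 7) (nat_lit 7) (nat_lit 353) (nat_lit 180) r0_353 r10_180 (nat_lit 0) (nat_lit 0) (nat_lit 0) (nat_lit 0x7dee0dc136) (nat_lit 1016116920),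
  Rx.mk (nat_lit 463) (nat_lit 7) (nat_lit 1) (nat_lit 7) (nat_lit 7) (nat_lit 354) (nat_lit 182) r0_354 r10_182 (nat_lit 0) (nat_lit 0) (nat_lit 0) (nat_lit 0x7df41fc010) (nat_lit 1004477760)]
noncomputable def e34_31 : List Rx := [
  Rx.mk (nat_lit 196) (nat_lit 4) (nat_lit 0) (nat_lit 3) (nat_lit 4) (nat_lit 82) (nat_lit 0) r0_82 r5_0 (nat_lit 0) (nat_lit 0) (nat_lit 0) (nat_lit 0x618a963514) (nat_lit 14950729872),
  Rx.mk (nat_lit 197) (nat_lit 5) (nat_lit 0) (nat_lit 3) (nat_lit 5) (nat_lit 83) (nat_lit 1) r0_83 r5_1 (nat_lit 0) (nat_lit 0) (nat_lit 0) (nat_lit 0x7c10d4f6a0) (nat_lit 1931140224),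
  Rx.mk (nat_lit 199) (nat_lit 7) (nat_lit 0) (nat_lit 3) (nat_lit 5) (nat_lit 84) (nat_lit 2) r0_84 r5_2 (nat_lit 0) (nat_lit 0) (nat_lit 0) (nat_lit 0x7ba7d706e8) (nat_lit 2132451360),
  Rx.mk (nat_lit 220) (nat_lit 4) (nat_lit 3) (nat_lit 3) (nat_lit 6) (nat_lit 87) (nat_lit 3) r0_87 r5_3 (nat_lit 0) (nat_lit 0) (nat_lit 0) (nat_lit 0x7a8f772dfe) (nat_lit 2670040152),
  Rx.mk (nat_lit 221) (nat_lit 5) (nat_lit 3) (nat_lit 3) (nat_lit 7) (nat_lit 88) (nat_lit 4) r0_88 r5_4 (nat_lit 0) (nat_lit 0) (nat_lit 0) (nat_lit 0x7e4a371e44) (nat_lit 839406672),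
  Rx.mk (nat_lit 476) (nat_lit 4) (nat_lit 3) (nat_lit 7) (nat_lit 6) (nat_lit 85) (nat_lit 5) r0_85 r5_5 (nat_lit 0) (nat_lit 0) (nat_lit 0) (nat_lit 0x7e22c49594) (nat_lit 915042960),
  Rx.mk (nat_lit 477) (nat_lit 5) (nat_lit 3) (nat_lit 7) (nat_lit 7) (nat_lit 86) (nat_lit 6) r0_86 r5_6 (nat_lit 0) (nat_lit 0) (nat_lit 0) (nat_lit 0x7f7c66ba18) (nat_lit 252326880)]
noncomputable def e34_32 : List Rx := [
  Rx.mk (nat_lit 196) (nat_lit 4) (nat_lit 0) (nat_lit 3) (nat_lit 4) (nat_lit 238) (nat_lit 325) r0_238 r11_325 (nat_lit 0) (nat_lit 0) (nat_lit 0) (nat_lit 0x604a433b84) (nat_lit 15564918096),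
  Rx.mk (nat_lit 197) (nat_lit 5) (nat_lit 0) (nat_lit 3) (nat_lit 5) (nat_lit 239) (nat_lit 328) r0_239 r11_328 (nat_lit 0) (nat_lit 0) (nat_lit 0) (nat_lit 0x7a40d59866) (nat_lit 2820807288),
  Rx.mk (nat_lit 199) (nat_lit 7) (nat_lit 0) (nat_lit 3) (nat_lit 5) (nat_lit 240) (nat_lit 331) r0_240 r11_331 (nat_lit 0) (nat_lit 0) (nat_lit 0) (nat_lit 0x7407d02ef6) (nat_lit 5875259832),
  Rx.mk (nat_lit 452) (nat_lit 4) (nat_lit 0) (nat_lit 7) (nat_lit 4) (nat_lit 236) (nat_lit 326) r0_236 r11_326 (nat_lit 0) (nat_lit 0) (nat_lit 0) (nat_lit 0x7a6c44a14a) (nat_lit 2737527624),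
  Rx.mk (nat_lit 453) (nat_lit 5) (nat_lit 0) (nat_lit 7) (nat_lit 5) (nat_lit 237) (nat_lit 329) r0_237 r11_329 (nat_lit 0) (nat_lit 0) (nat_lit 0) (nat_lit 0x7ff1a7c592) (nat_lit 27504360),
  Rx.mk (nat_lit 476) (nat_lit 4) (nat_lit 3) (nat_lit 7) (nat_lit 6) (nat_lit 241) (nat_lit 327) r0_241 r11_327 (nat_lit 0) (nat_lit 0) (nat_lit 0) (nat_lit 0x7e8bdea38a) (nat_lit 713521224),
  Rx.mk (nat_lit 477) (nat_lit 5) (nat_lit 3) (nat_lit 7) (nat_lit 7) (nat_lit 242) (nat_lit 330) r0_242 r11_330 (nat_lit 0) (nat_lit 0) (nat_lit 0) (nat_lit 0x7fcf076fba) (nat_lit 93896712)]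
noncomputable def e34_33 : List Rx := [
  Rx.mk (nat_lit 294) (nat_lit 6) (nat_lit 4) (nat_lit 4) (nat_lit 1) (nat_lit 91) (nat_lit 94) r0_91 r0_94 (nat_lit 0) (nat_lit 0) (nat_lit 0) (nat_lit 0x64497ea3ce) (nat_lit 13602976920),
  Rx.mk (nat_lit 316) (nat_lit 4) (nat_lit 7) (nat_lit 4) (nat_lit 2) (nat_lit 94) (nat_lit 91) r0_94 r0_91 (nat_lit 0) (nat_lit 0) (nat_lit 0) (nat_lit 0x64497ea3ce) (nat_lit 13602976920),
  Rx.mk (nat_lit 318) (nat_lit 6) (nat_lit 7) (nat_lit 4) (nat_lit 3) (nat_lit 95) (nat_lit 95) r0_95 r0_95 (nat_lit 0) (nat_lit 0) (nat_lit 0) (nat_lit 0x799825c40c) (nat_lit 3144246768),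
  Rx.mk (nat_lit 422) (nat_lit 6) (nat_lit 4) (nat_lit 6) (nat_lit 5) (nat_lit 92) (nat_lit 97) r0_92 r0_97 (nat_lit 0) (nat_lit 0) (nat_lit 0) (nat_lit 0x742628a950) (nat_lit 5817075264),
  Rx.mk (nat_lit 438) (nat_lit 6) (nat_lit 6) (nat_lit 6) (nat_lit 7) (nat_lit 93) (nat_lit 99) r0_93 r0_99 (nat_lit 0) (nat_lit 0) (nat_lit 0) (nat_lit 0x7e09c9c55a) (nat_lit 962939016),
  Rx.mk (nat_lit 446) (nat_lit 6) (nat_lit 7) (nat_lit 6) (nat_lit 7) (nat_lit 96) (nat_lit 98) r0_96 r0_98 (nat_lit 0) (nat_lit 0) (nat_lit 0) (nat_lit 0x7db4a9d7ae) (nat_lit 1126156824),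
  Rx.mk (nat_lit 508) (nat_lit 4) (nat_lit 7) (nat_lit 7) (nat_lit 6) (nat_lit 97) (nat_lit 92) r0_97 r0_92 (nat_lit 0) (nat_lit 0) (nat_lit 0) (nat_lit 0x742628a950) (nat_lit 5817075264),
  Rx.mk (nat_lit 510) (nat_lit 6) (nat_lit 7) (nat_lit 7) (nat_lit 7) (nat_lit 98) (nat_lit 96) r0_98 r0_96 (nat_lit 0) (nat_lit 0) (nat_lit 0) (nat_lit 0x7db4a9d7ae) (nat_lit 1126156824),
  Rx.mk (nat_lit 511) (nat_lit 7) (nat_lit 7) (nat_lit 7) (nat_lit 7) (nat_lit 99) (nat_lit 93) r0_99 r0_93 (nat_lit 0) (nat_lit 0) (nat_lit 0) (nat_lit 0x7e09c9c55a) (nat_lit 962939016)]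
noncomputable def e34_34 : List Rx := [
  Rx.mk (nat_lit 16) (nat_lit 0) (nat_lit 2) (nat_lit 0) (nat_lit 2) (nat_lit 11) (nat_lit 4) r0_11 r0_4 (nat_lit 0) (nat_lit 0) (nat_lit 0) (nat_lit 0x6d8468cbf0) (nat_lit 9072333504),
  Rx.mk (nat_lit 19) (nat_lit 3) (nat_lit 2) (nat_lit 0) (nat_lit 3) (nat_lit 12) (nat_lit 5) r0_12 r0_5 (nat_lit 0) (nat_lit 0) (nat_lit 0) (nat_lit 0x664f05495e) (nat_lit 12610674648),
  Rx.mk (nat_lit 144) (nat_lit 0) (nat_lit 2) (nat_lit 2) (nat_lit 6) (nat_lit 13) (nat_lit 7) r0_13 r0_7 (nat_lit 0) (nat_lit 0) (nat_lit 0) (nat_lit 0x7777281608) (nat_lit 4189210272),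
  Rx.mk (nat_lit 146) (nat_lit 2) (nat_lit 2) (nat_lit 2) (nat_lit 7) (nat_lit 14) (nat_lit 9) r0_14 r0_9 (nat_lit 0) (nat_lit 0) (nat_lit 0) (nat_lit 0x78a05961ca) (nat_lit 3619374408),
  Rx.mk (nat_lit 147) (nat_lit 3) (nat_lit 2) (nat_lit 2) (nat_lit 7) (nat_lit 15) (nat_lit 8) r0_15 r0_8 (nat_lit 0) (nat_lit 0) (nat_lit 0) (nat_lit 0x7676fb99d0) (nat_lit 4680396864),
  Rx.mk (nat_lit 178) (nat_lit 2) (nat_lit 6) (nat_lit 2) (nat_lit 7) (nat_lit 3) (nat_lit 17) r0_3 r0_17 (nat_lit 0) (nat_lit 0) (nat_lit 0) (nat_lit 0x763e65836a) (nat_lit 4788895176),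
  Rx.mk (nat_lit 195) (nat_lit 3) (nat_lit 0) (nat_lit 3) (nat_lit 5) (nat_lit 10) (nat_lit 0) r0_10 r0_0 (nat_lit 0) (nat_lit 0) (nat_lit 0) (nat_lit 0x5a57b84a26) (nat_lit 18484235640),
  Rx.mk (nat_lit 211) (nat_lit 3) (nat_lit 2) (nat_lit 3) (nat_lit 7) (nat_lit 16) (nat_lit 6) r0_16 r0_6 (nat_lit 0) (nat_lit 0) (nat_lit 0) (nat_lit 0x7776fb78d2) (nat_lit 4189544424),
  Rx.mk (nat_lit 219) (nat_lit 3) (nat_lit 3) (nat_lit 3) (nat_lit 7) (nat_lit 19) (nat_lit 1) r0_19 r0_1 (nat_lit 0) (nat_lit 0) (nat_lit 0) (nat_lit 0x6c8afca3ac) (nat_lit 9550575216),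
  Rx.mk (nat_lit 223) (nat_lit 7) (nat_lit 3) (nat_lit 3) (nat_lit 7) (nat_lit 18) (nat_lit 2) r0_18 r0_2 (nat_lit 0) (nat_lit 0) (nat_lit 0) (nat_lit 0x78399a2e24) (nat_lit 3816380880),
  Rx.mk (nat_lit 316) (nat_lit 4) (nat_lit 7) (nat_lit 4) (nat_lit 2) (nat_lit 4) (nat_lit 11) r0_4 r0_11 (nat_lit 0) (nat_lit 0) (nat_lit 0) (nat_lit 0x6d8468cbf0) (nat_lit 9072333504),
  Rx.mk (nat_lit 318) (nat_lit 6) (nat_lit 7) (nat_lit 4) (nat_lit 3) (nat_lit 5) (nat_lit 12) r0_5 r0_12 (nat_lit 0) (nat_lit 0) (nat_lit 0) (nat_lit 0x664f05495e) (nat_lit 12610674648),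
  Rx.mk (nat_lit 422) (nat_lit 6) (nat_lit 4) (nat_lit 6) (nat_lit 5) (nat_lit 0) (nat_lit 10) r0_0 r0_10 (nat_lit 0) (nat_lit 0) (nat_lit 0) (nat_lit 0x5a57b84a26) (nat_lit 18484235640),
  Rx.mk (nat_lit 434) (nat_lit 2) (nat_lit 6) (nat_lit 6) (nat_lit 7) (nat_lit 2) (nat_lit 18) r0_2 r0_18 (nat_lit 0) (nat_lit 0) (nat_lit 0) (nat_lit 0x78399a2e24) (nat_lit 3816380880),
  Rx.mk (nat_lit 438) (nat_lit 6) (nat_lit 6) (nat_lit 6) (nat_lit 7) (nat_lit 1) (nat_lit 19) r0_1 r0_19 (nat_lit 0) (nat_lit 0) (nat_lit 0) (nat_lit 0x6c8afca3ac) (nat_lit 9550575216),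
  Rx.mk (nat_lit 446) (nat_lit 6) (nat_lit 7) (nat_lit 6) (nat_lit 7) (nat_lit 6) (nat_lit 16) r0_6 r0_16 (nat_lit 0) (nat_lit 0) (nat_lit 0) (nat_lit 0x7776fb78d2) (nat_lit 4189544424),
  Rx.mk (nat_lit 479) (nat_lit 7) (nat_lit 3) (nat_lit 7) (nat_lit 7) (nat_lit 17) (nat_lit 3) r0_17 r0_3 (nat_lit 0) (nat_lit 0) (nat_lit 0) (nat_lit 0x763e65836a) (nat_lit 4788895176),
  Rx.mk (nat_lit 508) (nat_lit 4) (nat_lit 7) (nat_lit 7) (nat_lit 6) (nat_lit 7) (nat_lit 13) r0_7 r0_13 (nat_lit 0) (nat_lit 0) (nat_lit 0) (nat_lit 0x7777281608) (nat_lit 4189210272),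
  Rx.mk (nat_lit 510) (nat_lit 6) (nat_lit 7) (nat_lit 7) (nat_lit 7) (nat_lit 8) (nat_lit 15) r0_8 r0_15 (nat_lit 0) (nat_lit 0) (nat_lit 0) (nat_lit 0x7676fb99d0) (nat_lit 4680396864),
  Rx.mk (nat_lit 511) (nat_lit 7) (nat_lit 7) (nat_lit 7) (nat_lit 7) (nat_lit 9) (nat_lit 14) r0_9 r0_14 (nat_lit 0) (nat_lit 0) (nat_lit 0) (nat_lit 0x78a05961ca) (nat_lit 3619374408)]
noncomputable def e34_35 : List Rx := [
  Rx.mk (nat_lit 178) (nat_lit 2) (nat_lit 6) (nat_lit 2) (nat_lit 7) (nat_lit 104) (nat_lit 103) r0_104 r6_103 (nat_lit 0) (nat_lit 0) (nat_lit 0) (nat_lit 0x7defce8528) (nat_lit 1012755744),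
  Rx.mk (nat_lit 294) (nat_lit 6) (nat_lit 4) (nat_lit 4) (nat_lit 1) (nat_lit 100) (nat_lit 96) r0_100 r6_96 (nat_lit 0) (nat_lit 0) (nat_lit 0) (nat_lit 0x5b048c5c38) (nat_lit 18152855136),
  Rx.mk (nat_lit 316) (nat_lit 4) (nat_lit 7) (nat_lit 4) (nat_lit 2) (nat_lit 105) (nat_lit 93) r0_105 r6_93 (nat_lit 0) (nat_lit 0) (nat_lit 0) (nat_lit 0x66b9ed9a6e) (nat_lit 12405690648),
  Rx.mk (nat_lit 318) (nat_lit 6) (nat_lit 7) (nat_lit 4) (nat_lit 3) (nat_lit 106) (nat_lit 97) r0_106 r6_97 (nat_lit 0) (nat_lit 0) (nat_lit 0) (nat_lit 0x77e3aa8d74) (nat_lit 3981154320),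
  Rx.mk (nat_lit 422) (nat_lit 6) (nat_lit 4) (nat_lit 6) (nat_lit 5) (nat_lit 101) (nat_lit 99) r0_101 r6_99 (nat_lit 0) (nat_lit 0) (nat_lit 0) (nat_lit 0x777f139748) (nat_lit 4174024608),
  Rx.mk (nat_lit 434) (nat_lit 2) (nat_lit 6) (nat_lit 6) (nat_lit 7) (nat_lit 103) (nat_lit 102) r0_103 r6_102 (nat_lit 0) (nat_lit 0) (nat_lit 0) (nat_lit 0x7df18ca944) (nat_lit 1009414224),
  Rx.mk (nat_lit 438) (nat_lit 6) (nat_lit 6) (nat_lit 6) (nat_lit 7) (nat_lit 102) (nat_lit 101) r0_102 r6_101 (nat_lit 0) (nat_lit 0) (nat_lit 0) (nat_lit 0x7cd66efc3a) (nat_lit 1552259592),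
  Rx.mk (nat_lit 446) (nat_lit 6) (nat_lit 7) (nat_lit 6) (nat_lit 7) (nat_lit 107) (nat_lit 100) r0_107 r6_100 (nat_lit 0) (nat_lit 0) (nat_lit 0) (nat_lit 0x7e027b5a48) (nat_lit 976948128),
  Rx.mk (nat_lit 508) (nat_lit 4) (nat_lit 7) (nat_lit 7) (nat_lit 6) (nat_lit 108) (nat_lit 94) r0_108 r6_94 (nat_lit 0) (nat_lit 0) (nat_lit 0) (nat_lit 0x78a031444c) (nat_lit 3619674864),
  Rx.mk (nat_lit 510) (nat_lit 6) (nat_lit 7) (nat_lit 7) (nat_lit 7) (nat_lit 109) (nat_lit 98) r0_109 r6_98 (nat_lit 0) (nat_lit 0) (nat_lit 0) (nat_lit 0x7de57b0a6a) (nat_lit 1032554952),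
  Rx.mk (nat_lit 511) (nat_lit 7) (nat_lit 7) (nat_lit 7) (nat_lit 7) (nat_lit 110) (nat_lit 95) r0_110 r6_95 (nat_lit 0) (nat_lit 0) (nat_lit 0) (nat_lit 0x7d5af3b36a) (nat_lit 1298169288)]
noncomputable def e34_36 : List Rx := [
  Rx.mk (nat_lit 16) (nat_lit 0) (nat_lit 2) (nat_lit 0) (nat_lit 2) (nat_lit 34) (nat_lit 4) r0_34 r2_4 (nat_lit 0) (nat_lit 0) (nat_lit 0) (nat_lit 0x66c500a932) (nat_lit 12384456552),
  Rx.mk (nat_lit 17) (nat_lit 1) (nat_lit 2) (nat_lit 0) (nat_lit 3) (nat_lit 35) (nat_lit 5) r0_35 r2_5 (nat_lit 0) (nat_lit 0) (nat_lit 0) (nat_lit 0x7ddc9338f0) (nat_lit 1049630400),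
  Rx.mk (nat_lit 144) (nat_lit 0) (nat_lit 2) (nat_lit 2) (nat_lit 6) (nat_lit 36) (nat_lit 9) r0_36 r2_9 (nat_lit 0) (nat_lit 0) (nat_lit 0) (nat_lit 0x7dce709b28) (nat_lit 1076733216),
  Rx.mk (nat_lit 145) (nat_lit 1) (nat_lit 2) (nat_lit 2) (nat_lit 7) (nat_lit 37) (nat_lit 10) r0_37 r2_10 (nat_lit 0) (nat_lit 0) (nat_lit 0) (nat_lit 0x7df79428c6) (nat_lit 997853688),
  Rx.mk (nat_lit 146) (nat_lit 2) (nat_lit 2) (nat_lit 2) (nat_lit 7) (nat_lit 38) (nat_lit 11) r0_38 r2_11 (nat_lit 0) (nat_lit 0) (nat_lit 0) (nat_lit 0x7ded8609b2) (nat_lit 1017133416),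
  Rx.mk (nat_lit 178) (nat_lit 2) (nat_lit 6) (nat_lit 2) (nat_lit 7) (nat_lit 30) (nat_lit 12) r0_30 r2_12 (nat_lit 0) (nat_lit 0) (nat_lit 0) (nat_lit 0x7df6905904) (nat_lit 999799632),
  Rx.mk (nat_lit 192) (nat_lit 0) (nat_lit 0) (nat_lit 3) (nat_lit 4) (nat_lit 31) (nat_lit 0) r0_31 r2_0 (nat_lit 0) (nat_lit 0) (nat_lit 0) (nat_lit 0x6b355bdf0e) (nat_lit 10205611416),
  Rx.mk (nat_lit 193) (nat_lit 1) (nat_lit 0) (nat_lit 3) (nat_lit 5) (nat_lit 32) (nat_lit 1) r0_32 r2_1 (nat_lit 0) (nat_lit 0) (nat_lit 0) (nat_lit 0x7e4b276f3e) (nat_lit 837606744),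
  Rx.mk (nat_lit 195) (nat_lit 3) (nat_lit 0) (nat_lit 3) (nat_lit 5) (nat_lit 33) (nat_lit 2) r0_33 r2_2 (nat_lit 0) (nat_lit 0) (nat_lit 0) (nat_lit 0x7dc39c287a) (nat_lit 1097498376),
  Rx.mk (nat_lit 208) (nat_lit 0) (nat_lit 2) (nat_lit 3) (nat_lit 6) (nat_lit 39) (nat_lit 6) r0_39 r2_6 (nat_lit 0) (nat_lit 0) (nat_lit 0) (nat_lit 0x7e5ff6223e) (nat_lit 797710680),
  Rx.mk (nat_lit 209) (nat_lit 1) (nat_lit 2) (nat_lit 3) (nat_lit 7) (nat_lit 40) (nat_lit 7) r0_40 r2_7 (nat_lit 0) (nat_lit 0) (nat_lit 0) (nat_lit 0x7e8b2b6ebe) (nat_lit 714863448),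
  Rx.mk (nat_lit 211) (nat_lit 3) (nat_lit 2) (nat_lit 3) (nat_lit 7) (nat_lit 41) (nat_lit 8) r0_41 r2_8 (nat_lit 0) (nat_lit 0) (nat_lit 0) (nat_lit 0x7e6254bc52) (nat_lit 793167336),
  Rx.mk (nat_lit 219) (nat_lit 3) (nat_lit 3) (nat_lit 3) (nat_lit 7) (nat_lit 42) (nat_lit 3) r0_42 r2_3 (nat_lit 0) (nat_lit 0) (nat_lit 0) (nat_lit 0x7ddddb446e) (nat_lit 1047173400)]
noncomputable def e34_37 : List Rx := [
  Rx.mk (nat_lit 178) (nat_lit 2) (nat_lit 6) (nat_lit 2) (nat_lit 7) (nat_lit 141) (nat_lit 0) r0_141 r8_0 (nat_lit 0) (nat_lit 0) (nat_lit 0) (nat_lit 0x7dde1b0072) (nat_lit 1046696040)]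
noncomputable def e34_38 : List Rx := [
  Rx.mk (nat_lit 0) (nat_lit 0) (nat_lit 0) (nat_lit 0) (nat_lit 0) (nat_lit 155) (nat_lit 23) r0_155 r8_23 (nat_lit 0) (nat_lit 0) (nat_lit 0) (nat_lit 0x2380ce4fa0) (nat_lit 45402394752),
  Rx.mk (nat_lit 1) (nat_lit 1) (nat_lit 0) (nat_lit 0) (nat_lit 1) (nat_lit 156) (nat_lit 24) r0_156 r8_24 (nat_lit 0) (nat_lit 0) (nat_lit 0) (nat_lit 0x68034003fe) (nat_lit 11774250072),
  Rx.mk (nat_lit 16) (nat_lit 0) (nat_lit 2) (nat_lit 0) (nat_lit 2) (nat_lit 161) (nat_lit 25) r0_161 r8_25 (nat_lit 0) (nat_lit 0) (nat_lit 0) (nat_lit 0x6eebb9b57a) (nat_lit 8383382280),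
  Rx.mk (nat_lit 17) (nat_lit 1) (nat_lit 2) (nat_lit 0) (nat_lit 3) (nat_lit 162) (nat_lit 26) r0_162 r8_26 (nat_lit 0) (nat_lit 0) (nat_lit 0) (nat_lit 0x7dd9e10416) (nat_lit 1054799928),
  Rx.mk (nat_lit 65) (nat_lit 1) (nat_lit 0) (nat_lit 1) (nat_lit 5) (nat_lit 157) (nat_lit 27) r0_157 r8_27 (nat_lit 0) (nat_lit 0) (nat_lit 0) (nat_lit 0x7dafa1a836) (nat_lit 1135805112),
  Rx.mk (nat_lit 81) (nat_lit 1) (nat_lit 2) (nat_lit 1) (nat_lit 7) (nat_lit 163) (nat_lit 28) r0_163 r8_28 (nat_lit 0) (nat_lit 0) (nat_lit 0) (nat_lit 0x7df8ad5732) (nat_lit 995747688),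
  Rx.mk (nat_lit 144) (nat_lit 0) (nat_lit 2) (nat_lit 2) (nat_lit 6) (nat_lit 164) (nat_lit 37) r0_164 r8_37 (nat_lit 0) (nat_lit 0) (nat_lit 0) (nat_lit 0x7d6504125a) (nat_lit 1278872712),
  Rx.mk (nat_lit 145) (nat_lit 1) (nat_lit 2) (nat_lit 2) (nat_lit 7) (nat_lit 165) (nat_lit 38) r0_165 r8_38 (nat_lit 0) (nat_lit 0) (nat_lit 0) (nat_lit 0x7df299187c) (nat_lit 1007403696),
  Rx.mk (nat_lit 146) (nat_lit 2) (nat_lit 2) (nat_lit 2) (nat_lit 7) (nat_lit 166) (nat_lit 39) r0_166 r8_39 (nat_lit 0) (nat_lit 0) (nat_lit 0) (nat_lit 0x7dde5a5c7c) (nat_lit 1046221488),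
  Rx.mk (nat_lit 178) (nat_lit 2) (nat_lit 6) (nat_lit 2) (nat_lit 7) (nat_lit 154) (nat_lit 36) r0_154 r8_36 (nat_lit 0) (nat_lit 0) (nat_lit 0) (nat_lit 0x7df79428c6) (nat_lit 997853688),
  Rx.mk (nat_lit 192) (nat_lit 0) (nat_lit 0) (nat_lit 3) (nat_lit 4) (nat_lit 158) (nat_lit 29) r0_158 r8_29 (nat_lit 0) (nat_lit 0) (nat_lit 0) (nat_lit 0x6bb29a6aa8) (nat_lit 9965468448),
  Rx.mk (nat_lit 193) (nat_lit 1) (nat_lit 0) (nat_lit 3) (nat_lit 5) (nat_lit 159) (nat_lit 30) r0_159 r8_30 (nat_lit 0) (nat_lit 0) (nat_lit 0) (nat_lit 0x7dd4e773b4) (nat_lit 1064338704),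
  Rx.mk (nat_lit 195) (nat_lit 3) (nat_lit 0) (nat_lit 3) (nat_lit 5) (nat_lit 160) (nat_lit 31) r0_160 r8_31 (nat_lit 0) (nat_lit 0) (nat_lit 0) (nat_lit 0x7d2f99a936) (nat_lit 1381291704),
  Rx.mk (nat_lit 208) (nat_lit 0) (nat_lit 2) (nat_lit 3) (nat_lit 6) (nat_lit 167) (nat_lit 33) r0_167 r8_33 (nat_lit 0) (nat_lit 0) (nat_lit 0) (nat_lit 0x7db254fcfe) (nat_lit 1130627160),
  Rx.mk (nat_lit 209) (nat_lit 1) (nat_lit 2) (nat_lit 3) (nat_lit 7) (nat_lit 168) (nat_lit 34) r0_168 r8_34 (nat_lit 0) (nat_lit 0) (nat_lit 0) (nat_lit 0x7df1b4c6c2) (nat_lit 1009113768),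
  Rx.mk (nat_lit 211) (nat_lit 3) (nat_lit 2) (nat_lit 3) (nat_lit 7) (nat_lit 169) (nat_lit 35) r0_169 r8_35 (nat_lit 0) (nat_lit 0) (nat_lit 0) (nat_lit 0x7df06cbb44) (nat_lit 1011570768),
  Rx.mk (nat_lit 219) (nat_lit 3) (nat_lit 3) (nat_lit 3) (nat_lit 7) (nat_lit 170) (nat_lit 32) r0_170 r8_32 (nat_lit 0) (nat_lit 0) (nat_lit 0) (nat_lit 0x7d8f316f5a) (nat_lit 1198002312)]
noncomputable def e34_39 : List Rx := [
  Rx.mk (nat_lit 16) (nat_lit 0) (nat_lit 2) (nat_lit 0) (nat_lit 2) (nat_lit 23) (nat_lit 2) r0_23 r1_2 (nat_lit 0) (nat_lit 0) (nat_lit 0) (nat_lit 0x6facf0e146) (nat_lit 8012911608),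
  Rx.mk (nat_lit 19) (nat_lit 3) (nat_lit 2) (nat_lit 0) (nat_lit 3) (nat_lit 24) (nat_lit 3) r0_24 r1_3 (nat_lit 0) (nat_lit 0) (nat_lit 0) (nat_lit 0x78202e24fe) (nat_lit 3865124952),
  Rx.mk (nat_lit 144) (nat_lit 0) (nat_lit 2) (nat_lit 2) (nat_lit 6) (nat_lit 25) (nat_lit 5) r0_25 r1_5 (nat_lit 0) (nat_lit 0) (nat_lit 0) (nat_lit 0x780ee6f982) (nat_lit 3898253736),
  Rx.mk (nat_lit 146) (nat_lit 2) (nat_lit 2) (nat_lit 2) (nat_lit 7) (nat_lit 26) (nat_lit 7) r0_26 r1_7 (nat_lit 0) (nat_lit 0) (nat_lit 0) (nat_lit 0x7c8a811b64) (nat_lit 1697845968),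
  Rx.mk (nat_lit 147) (nat_lit 3) (nat_lit 2) (nat_lit 2) (nat_lit 7) (nat_lit 27) (nat_lit 6) r0_27 r1_6 (nat_lit 0) (nat_lit 0) (nat_lit 0) (nat_lit 0x7d16a418a8) (nat_lit 1429148448),
  Rx.mk (nat_lit 178) (nat_lit 2) (nat_lit 6) (nat_lit 2) (nat_lit 7) (nat_lit 21) (nat_lit 8) r0_21 r1_8 (nat_lit 0) (nat_lit 0) (nat_lit 0) (nat_lit 0x7c9e945a1c) (nat_lit 1659353904),
  Rx.mk (nat_lit 195) (nat_lit 3) (nat_lit 0) (nat_lit 3) (nat_lit 5) (nat_lit 22) (nat_lit 0) r0_22 r1_0 (nat_lit 0) (nat_lit 0) (nat_lit 0) (nat_lit 0x76832bf6be) (nat_lit 4657025880),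
  Rx.mk (nat_lit 211) (nat_lit 3) (nat_lit 2) (nat_lit 3) (nat_lit 7) (nat_lit 28) (nat_lit 4) r0_28 r1_4 (nat_lit 0) (nat_lit 0) (nat_lit 0) (nat_lit 0x7efe491c70) (nat_lit 494140608),
  Rx.mk (nat_lit 219) (nat_lit 3) (nat_lit 3) (nat_lit 3) (nat_lit 7) (nat_lit 29) (nat_lit 1) r0_29 r1_1 (nat_lit 0) (nat_lit 0) (nat_lit 0) (nat_lit 0x75ecc41dd2) (nat_lit 4945413096),
  Rx.mk (nat_lit 434) (nat_lit 2) (nat_lit 6) (nat_lit 6) (nat_lit 7) (nat_lit 20) (nat_lit 9) r0_20 r1_9 (nat_lit 0) (nat_lit 0) (nat_lit 0) (nat_lit 0x7ccb2590dc) (nat_lit 1573900848)]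
noncomputable def e34_40 : List Rx := [
  Rx.mk (nat_lit 178) (nat_lit 2) (nat_lit 6) (nat_lit 2) (nat_lit 7) (nat_lit 140) (nat_lit 77) r0_140 r7_77 (nat_lit 0) (nat_lit 0) (nat_lit 0) (nat_lit 0x7dbbc6c5d8) (nat_lit 1112518368),
  Rx.mk (nat_lit 434) (nat_lit 2) (nat_lit 6) (nat_lit 6) (nat_lit 7) (nat_lit 139) (nat_lit 76) r0_139 r7_76 (nat_lit 0) (nat_lit 0) (nat_lit 0) (nat_lit 0x7dbbc6c5d8) (nat_lit 1112518368)]
noncomputable def e34_41 : List Rx := [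
  Rx.mk (nat_lit 292) (nat_lit 4) (nat_lit 4) (nat_lit 4) (nat_lit 0) (nat_lit 111) (nat_lit 94) r0_111 r1_94 (nat_lit 0) (nat_lit 0) (nat_lit 0) (nat_lit 0x7fc651db1c) (nat_lit 110595888),
  Rx.mk (nat_lit 294) (nat_lit 6) (nat_lit 4) (nat_lit 4) (nat_lit 1) (nat_lit 112) (nat_lit 99) r0_112 r1_99 (nat_lit 0) (nat_lit 0) (nat_lit 0) (nat_lit 0x6fba2ced78) (nat_lit 7987535712),
  Rx.mk (nat_lit 300) (nat_lit 4) (nat_lit 5) (nat_lit 4) (nat_lit 2) (nat_lit 114) (nat_lit 95) r0_114 r1_95 (nat_lit 0) (nat_lit 0) (nat_lit 0) (nat_lit 0x7c02729cd4) (nat_lit 1958720400),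
  Rx.mk (nat_lit 302) (nat_lit 6) (nat_lit 5) (nat_lit 4) (nat_lit 3) (nat_lit 115) (nat_lit 100) r0_115 r1_100 (nat_lit 0) (nat_lit 0) (nat_lit 0) (nat_lit 0x7d6029a006) (nat_lit 1288178424),
  Rx.mk (nat_lit 316) (nat_lit 4) (nat_lit 7) (nat_lit 4) (nat_lit 2) (nat_lit 118) (nat_lit 96) r0_118 r1_96 (nat_lit 0) (nat_lit 0) (nat_lit 0) (nat_lit 0x76fc4b844c) (nat_lit 4424784624),
  Rx.mk (nat_lit 318) (nat_lit 6) (nat_lit 7) (nat_lit 4) (nat_lit 3) (nat_lit 119) (nat_lit 101) r0_119 r1_101 (nat_lit 0) (nat_lit 0) (nat_lit 0) (nat_lit 0x7ddf4a4d7c) (nat_lit 1044424368),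
  Rx.mk (nat_lit 422) (nat_lit 6) (nat_lit 4) (nat_lit 6) (nat_lit 5) (nat_lit 113) (nat_lit 103) r0_113 r1_103 (nat_lit 0) (nat_lit 0) (nat_lit 0) (nat_lit 0x6f612c3ddc) (nat_lit 8158189104),
  Rx.mk (nat_lit 430) (nat_lit 6) (nat_lit 5) (nat_lit 6) (nat_lit 7) (nat_lit 116) (nat_lit 104) r0_116 r1_104 (nat_lit 0) (nat_lit 0) (nat_lit 0) (nat_lit 0x7daa421e34) (nat_lit 1146107664),
  Rx.mk (nat_lit 438) (nat_lit 6) (nat_lit 6) (nat_lit 6) (nat_lit 7) (nat_lit 117) (nat_lit 106) r0_117 r1_106 (nat_lit 0) (nat_lit 0) (nat_lit 0) (nat_lit 0x7d94a957d6) (nat_lit 1187517240),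
  Rx.mk (nat_lit 446) (nat_lit 6) (nat_lit 7) (nat_lit 6) (nat_lit 7) (nat_lit 120) (nat_lit 105) r0_120 r1_105 (nat_lit 0) (nat_lit 0) (nat_lit 0) (nat_lit 0x7dd7b446e4) (nat_lit 1058969808),
  Rx.mk (nat_lit 508) (nat_lit 4) (nat_lit 7) (nat_lit 7) (nat_lit 6) (nat_lit 121) (nat_lit 97) r0_121 r1_97 (nat_lit 0) (nat_lit 0) (nat_lit 0) (nat_lit 0x7d51e2a484) (nat_lit 1315553616),
  Rx.mk (nat_lit 510) (nat_lit 6) (nat_lit 7) (nat_lit 7) (nat_lit 7) (nat_lit 122) (nat_lit 102) r0_122 r1_102 (nat_lit 0) (nat_lit 0) (nat_lit 0) (nat_lit 0x7df6bc3646) (nat_lit 999471096),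
  Rx.mk (nat_lit 511) (nat_lit 7) (nat_lit 7) (nat_lit 7) (nat_lit 7) (nat_lit 123) (nat_lit 98) r0_123 r1_98 (nat_lit 0) (nat_lit 0) (nat_lit 0) (nat_lit 0x7dd1bc8666) (nat_lit 1070412408)]
noncomputable def e34_42 : List Rx := [
  Rx.mk (nat_lit 300) (nat_lit 4) (nat_lit 5) (nat_lit 4) (nat_lit 2) (nat_lit 254) (nat_lit 98) r0_254 r2_98 (nat_lit 0) (nat_lit 0) (nat_lit 0) (nat_lit 0x58ede04910) (nat_lit 19178033472),
  Rx.mk (nat_lit 302) (nat_lit 6) (nat_lit 5) (nat_lit 4) (nat_lit 3) (nat_lit 255) (nat_lit 99) r0_255 r2_99 (nat_lit 0) (nat_lit 0) (nat_lit 0) (nat_lit 0x7c870832f6) (nat_lit 1704503736),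
  Rx.mk (nat_lit 430) (nat_lit 6) (nat_lit 5) (nat_lit 6) (nat_lit 7) (nat_lit 256) (nat_lit 100) r0_256 r2_100 (nat_lit 0) (nat_lit 0) (nat_lit 0) (nat_lit 0x7df272dae0) (nat_lit 1007690112)]
noncomputable def e34_43 : List Rx := [
  Rx.mk (nat_lit 178) (nat_lit 2) (nat_lit 6) (nat_lit 2) (nat_lit 7) (nat_lit 132) (nat_lit 12) r0_132 r7_12 (nat_lit 0) (nat_lit 0) (nat_lit 0) (nat_lit 0x7df4ed3338) (nat_lit 1002938976),
  Rx.mk (nat_lit 292) (nat_lit 4) (nat_lit 4) (nat_lit 4) (nat_lit 0) (nat_lit 124) (nat_lit 0) r0_124 r7_0 (nat_lit 0) (nat_lit 0) (nat_lit 0) (nat_lit 0x26656fa2a6) (nat_lit 43982313336),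
  Rx.mk (nat_lit 294) (nat_lit 6) (nat_lit 4) (nat_lit 4) (nat_lit 1) (nat_lit 125) (nat_lit 1) r0_125 r7_1 (nat_lit 0) (nat_lit 0) (nat_lit 0) (nat_lit 0x5777047844) (nat_lit 19896786000),
  Rx.mk (nat_lit 300) (nat_lit 4) (nat_lit 5) (nat_lit 4) (nat_lit 2) (nat_lit 127) (nat_lit 3) r0_127 r7_3 (nat_lit 0) (nat_lit 0) (nat_lit 0) (nat_lit 0x6ccff433ee) (nat_lit 9418338072),
  Rx.mk (nat_lit 302) (nat_lit 6) (nat_lit 5) (nat_lit 4) (nat_lit 3) (nat_lit 128) (nat_lit 4) r0_128 r7_4 (nat_lit 0) (nat_lit 0) (nat_lit 0) (nat_lit 0x7d33d4058c) (nat_lit 1373185008),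
  Rx.mk (nat_lit 316) (nat_lit 4) (nat_lit 7) (nat_lit 4) (nat_lit 2) (nat_lit 133) (nat_lit 6) r0_133 r7_6 (nat_lit 0) (nat_lit 0) (nat_lit 0) (nat_lit 0x62b0ff8d58) (nat_lit 14386226400),
  Rx.mk (nat_lit 318) (nat_lit 6) (nat_lit 7) (nat_lit 4) (nat_lit 3) (nat_lit 134) (nat_lit 7) r0_134 r7_7 (nat_lit 0) (nat_lit 0) (nat_lit 0) (nat_lit 0x7d34a4d87e) (nat_lit 1371620952),
  Rx.mk (nat_lit 422) (nat_lit 6) (nat_lit 4) (nat_lit 6) (nat_lit 5) (nat_lit 126) (nat_lit 2) r0_126 r7_2 (nat_lit 0) (nat_lit 0) (nat_lit 0) (nat_lit 0x7aa48cbc90) (nat_lit 2629613376),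
  Rx.mk (nat_lit 430) (nat_lit 6) (nat_lit 5) (nat_lit 6) (nat_lit 7) (nat_lit 129) (nat_lit 5) r0_129 r7_5 (nat_lit 0) (nat_lit 0) (nat_lit 0) (nat_lit 0x7dee6ffb12) (nat_lit 1015381224),
  Rx.mk (nat_lit 434) (nat_lit 2) (nat_lit 6) (nat_lit 6) (nat_lit 7) (nat_lit 131) (nat_lit 13) r0_131 r7_13 (nat_lit 0) (nat_lit 0) (nat_lit 0) (nat_lit 0x7dcfeb437c) (nat_lit 1073897136),
  Rx.mk (nat_lit 438) (nat_lit 6) (nat_lit 6) (nat_lit 6) (nat_lit 7) (nat_lit 130) (nat_lit 14) r0_130 r7_14 (nat_lit 0) (nat_lit 0) (nat_lit 0) (nat_lit 0x7da85dbc7c) (nat_lit 1149735600),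
  Rx.mk (nat_lit 446) (nat_lit 6) (nat_lit 7) (nat_lit 6) (nat_lit 7) (nat_lit 135) (nat_lit 11) r0_135 r7_11 (nat_lit 0) (nat_lit 0) (nat_lit 0) (nat_lit 0x7de50491d2) (nat_lit 1033442280),
  Rx.mk (nat_lit 508) (nat_lit 4) (nat_lit 7) (nat_lit 7) (nat_lit 6) (nat_lit 136) (nat_lit 8) r0_136 r7_8 (nat_lit 0) (nat_lit 0) (nat_lit 0) (nat_lit 0x7c3f4c0f00) (nat_lit 1842048000),
  Rx.mk (nat_lit 510) (nat_lit 6) (nat_lit 7) (nat_lit 7) (nat_lit 7) (nat_lit 137) (nat_lit 10) r0_137 r7_10 (nat_lit 0) (nat_lit 0) (nat_lit 0) (nat_lit 0x7df1e163f8) (nat_lit 1008779616),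
  Rx.mk (nat_lit 511) (nat_lit 7) (nat_lit 7) (nat_lit 7) (nat_lit 7) (nat_lit 138) (nat_lit 9) r0_138 r7_9 (nat_lit 0) (nat_lit 0) (nat_lit 0) (nat_lit 0x7db74b2d96) (nat_lit 1121113656)]
noncomputable def e34_44 : List Rx := [
  Rx.mk (nat_lit 300) (nat_lit 4) (nat_lit 5) (nat_lit 4) (nat_lit 2) (nat_lit 262) (nat_lit 65) r0_262 r8_65 (nat_lit 0) (nat_lit 0) (nat_lit 0) (nat_lit 0x69ec4571be) (nat_lit 10836602712),
  Rx.mk (nat_lit 302) (nat_lit 6) (nat_lit 5) (nat_lit 4) (nat_lit 3) (nat_lit 263) (nat_lit 66) r0_263 r8_66 (nat_lit 0) (nat_lit 0) (nat_lit 0) (nat_lit 0x7d93758b14) (nat_lit 1189822608),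
  Rx.mk (nat_lit 430) (nat_lit 6) (nat_lit 5) (nat_lit 6) (nat_lit 7) (nat_lit 264) (nat_lit 67) r0_264 r8_67 (nat_lit 0) (nat_lit 0) (nat_lit 0) (nat_lit 0x7ddc6c3b60) (nat_lit 1049922432)]
noncomputable def e34_45 : List Rx := [
  Rx.mk (nat_lit 300) (nat_lit 4) (nat_lit 5) (nat_lit 4) (nat_lit 2) (nat_lit 257) (nat_lit 155) r0_257 r8_155 (nat_lit 0) (nat_lit 0) (nat_lit 0) (nat_lit 0x5d0382aad4) (nat_lit 17173138320),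
  Rx.mk (nat_lit 302) (nat_lit 6) (nat_lit 5) (nat_lit 4) (nat_lit 3) (nat_lit 258) (nat_lit 156) r0_258 r8_156 (nat_lit 0) (nat_lit 0) (nat_lit 0) (nat_lit 0x7d665dbcbe) (nat_lit 1276283736),
  Rx.mk (nat_lit 364) (nat_lit 4) (nat_lit 5) (nat_lit 5) (nat_lit 6) (nat_lit 259) (nat_lit 157) r0_259 r8_157 (nat_lit 0) (nat_lit 0) (nat_lit 0) (nat_lit 0x7c68fe73b0) (nat_lit 1762098624),
  Rx.mk (nat_lit 366) (nat_lit 6) (nat_lit 5) (nat_lit 5) (nat_lit 7) (nat_lit 260) (nat_lit 158) r0_260 r8_158 (nat_lit 0) (nat_lit 0) (nat_lit 0) (nat_lit 0x7de755acbe) (nat_lit 1029000024),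
  Rx.mk (nat_lit 430) (nat_lit 6) (nat_lit 5) (nat_lit 6) (nat_lit 7) (nat_lit 261) (nat_lit 159) r0_261 r8_159 (nat_lit 0) (nat_lit 0) (nat_lit 0) (nat_lit 0x7df3be4628) (nat_lit 1005207840)]
noncomputable def e34_46 : List Rx := [
  Rx.mk (nat_lit 316) (nat_lit 4) (nat_lit 7) (nat_lit 4) (nat_lit 2) (nat_lit 142) (nat_lit 93) r0_142 r4_93 (nat_lit 0) (nat_lit 0) (nat_lit 0) (nat_lit 0x71b7297bb2) (nat_lit 7011606888),
  Rx.mk (nat_lit 318) (nat_lit 6) (nat_lit 7) (nat_lit 4) (nat_lit 3) (nat_lit 143) (nat_lit 95) r0_143 r4_95 (nat_lit 0) (nat_lit 0) (nat_lit 0) (nat_lit 0x7ac67fdd3c) (nat_lit 2564518320),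
  Rx.mk (nat_lit 446) (nat_lit 6) (nat_lit 7) (nat_lit 6) (nat_lit 7) (nat_lit 144) (nat_lit 97) r0_144 r4_97 (nat_lit 0) (nat_lit 0) (nat_lit 0) (nat_lit 0x7d94351f1a) (nat_lit 1188387720),
  Rx.mk (nat_lit 508) (nat_lit 4) (nat_lit 7) (nat_lit 7) (nat_lit 6) (nat_lit 145) (nat_lit 94) r0_145 r4_94 (nat_lit 0) (nat_lit 0) (nat_lit 0) (nat_lit 0x7bb2a1ba32) (nat_lit 2111759208),
  Rx.mk (nat_lit 510) (nat_lit 6) (nat_lit 7) (nat_lit 7) (nat_lit 7) (nat_lit 146) (nat_lit 96) r0_146 r4_96 (nat_lit 0) (nat_lit 0) (nat_lit 0) (nat_lit 0x7e2f4f4cdc) (nat_lit 890995248)]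
noncomputable def e34_47 : List Rx := [
  Rx.mk (nat_lit 19) (nat_lit 3) (nat_lit 2) (nat_lit 0) (nat_lit 3) (nat_lit 59) (nat_lit 5) r0_59 r4_5 (nat_lit 0) (nat_lit 0) (nat_lit 0) (nat_lit 0x73827b04ce) (nat_lit 6130911384),
  Rx.mk (nat_lit 147) (nat_lit 3) (nat_lit 2) (nat_lit 2) (nat_lit 7) (nat_lit 60) (nat_lit 7) r0_60 r4_7 (nat_lit 0) (nat_lit 0) (nat_lit 0) (nat_lit 0x7dd9546ce0) (nat_lit 1055852928),
  Rx.mk (nat_lit 195) (nat_lit 3) (nat_lit 0) (nat_lit 3) (nat_lit 5) (nat_lit 58) (nat_lit 0) r0_58 r4_0 (nat_lit 0) (nat_lit 0) (nat_lit 0) (nat_lit 0x6075ec00cc) (nat_lit 15481206000),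
  Rx.mk (nat_lit 199) (nat_lit 7) (nat_lit 0) (nat_lit 3) (nat_lit 5) (nat_lit 57) (nat_lit 1) r0_57 r4_1 (nat_lit 0) (nat_lit 0) (nat_lit 0) (nat_lit 0x79050af64c) (nat_lit 3426304752),
  Rx.mk (nat_lit 211) (nat_lit 3) (nat_lit 2) (nat_lit 3) (nat_lit 7) (nat_lit 61) (nat_lit 6) r0_61 r4_6 (nat_lit 0) (nat_lit 0) (nat_lit 0) (nat_lit 0x769aeeda78) (nat_lit 4611466080),
  Rx.mk (nat_lit 223) (nat_lit 7) (nat_lit 3) (nat_lit 3) (nat_lit 7) (nat_lit 64) (nat_lit 2) r0_64 r4_2 (nat_lit 0) (nat_lit 0) (nat_lit 0) (nat_lit 0x7d87d5e51a) (nat_lit 1212109704),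
  Rx.mk (nat_lit 316) (nat_lit 4) (nat_lit 7) (nat_lit 4) (nat_lit 2) (nat_lit 52) (nat_lit 8) r0_52 r4_8 (nat_lit 0) (nat_lit 0) (nat_lit 0) (nat_lit 0x5b6197cb24) (nat_lit 17974451664),
  Rx.mk (nat_lit 318) (nat_lit 6) (nat_lit 7) (nat_lit 4) (nat_lit 3) (nat_lit 53) (nat_lit 9) r0_53 r4_9 (nat_lit 0) (nat_lit 0) (nat_lit 0) (nat_lit 0x6d58b6a73e) (nat_lit 9156115800),
  Rx.mk (nat_lit 446) (nat_lit 6) (nat_lit 7) (nat_lit 6) (nat_lit 7) (nat_lit 54) (nat_lit 12) r0_54 r4_12 (nat_lit 0) (nat_lit 0) (nat_lit 0) (nat_lit 0x75a4e5dbfe) (nat_lit 5083212888),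
  Rx.mk (nat_lit 476) (nat_lit 4) (nat_lit 3) (nat_lit 7) (nat_lit 6) (nat_lit 62) (nat_lit 3) r0_62 r4_3 (nat_lit 0) (nat_lit 0) (nat_lit 0) (nat_lit 0x71ae0a8daa) (nat_lit 7029095112),
  Rx.mk (nat_lit 479) (nat_lit 7) (nat_lit 3) (nat_lit 7) (nat_lit 7) (nat_lit 63) (nat_lit 4) r0_63 r4_4 (nat_lit 0) (nat_lit 0) (nat_lit 0) (nat_lit 0x7dd8cbf568) (nat_lit 1056875040),
  Rx.mk (nat_lit 508) (nat_lit 4) (nat_lit 7) (nat_lit 7) (nat_lit 6) (nat_lit 55) (nat_lit 10) r0_55 r4_10 (nat_lit 0) (nat_lit 0) (nat_lit 0) (nat_lit 0x76957cf19c) (nat_lit 4621906224),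
  Rx.mk (nat_lit 510) (nat_lit 6) (nat_lit 7) (nat_lit 7) (nat_lit 7) (nat_lit 56) (nat_lit 11) r0_56 r4_11 (nat_lit 0) (nat_lit 0) (nat_lit 0) (nat_lit 0x7dea5bdc58) (nat_lit 1023201504)]
noncomputable def e34_48 : List Rx := [
  Rx.mk (nat_lit 316) (nat_lit 4) (nat_lit 7) (nat_lit 4) (nat_lit 2) (nat_lit 147) (nat_lit 77) r0_147 r9_77 (nat_lit 0) (nat_lit 0) (nat_lit 0) (nat_lit 0x6b26bfc8de) (nat_lit 10233624024),
  Rx.mk (nat_lit 318) (nat_lit 6) (nat_lit 7) (nat_lit 4) (nat_lit 3) (nat_lit 148) (nat_lit 79) r0_148 r9_79 (nat_lit 0) (nat_lit 0) (nat_lit 0) (nat_lit 0x776bc40c54) (nat_lit 4211050896),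
  Rx.mk (nat_lit 446) (nat_lit 6) (nat_lit 7) (nat_lit 6) (nat_lit 7) (nat_lit 149) (nat_lit 81) r0_149 r9_81 (nat_lit 0) (nat_lit 0) (nat_lit 0) (nat_lit 0x7de318b092) (nat_lit 1037126376),
  Rx.mk (nat_lit 508) (nat_lit 4) (nat_lit 7) (nat_lit 7) (nat_lit 6) (nat_lit 150) (nat_lit 78) r0_150 r9_78 (nat_lit 0) (nat_lit 0) (nat_lit 0) (nat_lit 0x78a7e5a8fe) (nat_lit 3604901976),
  Rx.mk (nat_lit 510) (nat_lit 6) (nat_lit 7) (nat_lit 7) (nat_lit 7) (nat_lit 151) (nat_lit 80) r0_151 r9_80 (nat_lit 0) (nat_lit 0) (nat_lit 0) (nat_lit 0x7de51cf04c) (nat_lit 1033259760)]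
noncomputable def e34_49 : List Rx := [
  Rx.mk (nat_lit 195) (nat_lit 3) (nat_lit 0) (nat_lit 3) (nat_lit 5) (nat_lit 217) (nat_lit 99) r0_217 r10_99 (nat_lit 0) (nat_lit 0) (nat_lit 0) (nat_lit 0x7c2f7ecbe4) (nat_lit 1872346320),
  Rx.mk (nat_lit 199) (nat_lit 7) (nat_lit 0) (nat_lit 3) (nat_lit 5) (nat_lit 216) (nat_lit 96) r0_216 r10_96 (nat_lit 0) (nat_lit 0) (nat_lit 0) (nat_lit 0x7de857fc98) (nat_lit 1027065312),
  Rx.mk (nat_lit 211) (nat_lit 3) (nat_lit 2) (nat_lit 3) (nat_lit 7) (nat_lit 218) (nat_lit 100) r0_218 r10_100 (nat_lit 0) (nat_lit 0) (nat_lit 0) (nat_lit 0x7e0bdd0424) (nat_lit 958960080),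
  Rx.mk (nat_lit 284) (nat_lit 4) (nat_lit 3) (nat_lit 4) (nat_lit 2) (nat_lit 219) (nat_lit 92) r0_219 r10_92 (nat_lit 0) (nat_lit 0) (nat_lit 0) (nat_lit 0x4965c57a46) (nat_lit 26801801208),
  Rx.mk (nat_lit 316) (nat_lit 4) (nat_lit 7) (nat_lit 4) (nat_lit 2) (nat_lit 212) (nat_lit 91) r0_212 r10_91 (nat_lit 0) (nat_lit 0) (nat_lit 0) (nat_lit 0x41b494b504) (nat_lit 30577519440),
  Rx.mk (nat_lit 318) (nat_lit 6) (nat_lit 7) (nat_lit 4) (nat_lit 3) (nat_lit 213) (nat_lit 97) r0_213 r10_97 (nat_lit 0) (nat_lit 0) (nat_lit 0) (nat_lit 0x78034c9334) (nat_lit 3920501520),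
  Rx.mk (nat_lit 446) (nat_lit 6) (nat_lit 7) (nat_lit 6) (nat_lit 7) (nat_lit 214) (nat_lit 98) r0_214 r10_98 (nat_lit 0) (nat_lit 0) (nat_lit 0) (nat_lit 0x7e314d2cfc) (nat_lit 887176368),
  Rx.mk (nat_lit 455) (nat_lit 7) (nat_lit 0) (nat_lit 7) (nat_lit 5) (nat_lit 215) (nat_lit 94) r0_215 r10_94 (nat_lit 0) (nat_lit 0) (nat_lit 0) (nat_lit 0x7d78b51736) (nat_lit 1241116344),
  Rx.mk (nat_lit 476) (nat_lit 4) (nat_lit 3) (nat_lit 7) (nat_lit 6) (nat_lit 220) (nat_lit 93) r0_220 r10_93 (nat_lit 0) (nat_lit 0) (nat_lit 0) (nat_lit 0x7d5dec63dc) (nat_lit 1292471856),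
  Rx.mk (nat_lit 479) (nat_lit 7) (nat_lit 3) (nat_lit 7) (nat_lit 7) (nat_lit 221) (nat_lit 95) r0_221 r10_95 (nat_lit 0) (nat_lit 0) (nat_lit 0) (nat_lit 0x7e428d38ea) (nat_lit 854100936)]
noncomputable def e34_50 : List Rx := [
  Rx.mk (nat_lit 508) (nat_lit 4) (nat_lit 7) (nat_lit 7) (nat_lit 6) (nat_lit 152) (nat_lit 0) r0_152 r10_0 (nat_lit 0) (nat_lit 0) (nat_lit 0) (nat_lit 0x7e1794a89e) (nat_lit 936493272),
  Rx.mk (nat_lit 510) (nat_lit 6) (nat_lit 7) (nat_lit 7) (nat_lit 7) (nat_lit 153) (nat_lit 1) r0_153 r10_1 (nat_lit 0) (nat_lit 0) (nat_lit 0) (nat_lit 0x7df4465da6) (nat_lit 1004188536)]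
noncomputable def e34_51 : List Rx := [
  Rx.mk (nat_lit 197) (nat_lit 5) (nat_lit 0) (nat_lit 3) (nat_lit 5) (nat_lit 224) (nat_lit 255) r0_224 r12_255 (nat_lit 0) (nat_lit 0) (nat_lit 0) (nat_lit 0x8000000000) (nat_lit 0)]
noncomputable def e34_52 : List Rx := [
  Rx.mk (nat_lit 453) (nat_lit 5) (nat_lit 0) (nat_lit 7) (nat_lit 5) (nat_lit 314) (nat_lit 252) r0_314 r12_252 (nat_lit 0) (nat_lit 0) (nat_lit 0) (nat_lit 0x7c8c873b00) (nat_lit 1693965312),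
  Rx.mk (nat_lit 460) (nat_lit 4) (nat_lit 1) (nat_lit 7) (nat_lit 6) (nat_lit 315) (nat_lit 253) r0_315 r12_253 (nat_lit 0) (nat_lit 0) (nat_lit 0) (nat_lit 0x7ac9315222) (nat_lit 2559354408),
  Rx.mk (nat_lit 461) (nat_lit 5) (nat_lit 1) (nat_lit 7) (nat_lit 7) (nat_lit 316) (nat_lit 254) r0_316 r12_254 (nat_lit 0) (nat_lit 0) (nat_lit 0) (nat_lit 0x7ef9c72494) (nat_lit 502783632)]
noncomputable def e34_53 : List Rx := [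
  Rx.mk (nat_lit 197) (nat_lit 5) (nat_lit 0) (nat_lit 3) (nat_lit 5) (nat_lit 89) (nat_lit 61) r0_89 r12_61 (nat_lit 0) (nat_lit 0) (nat_lit 0) (nat_lit 0x75d5ae0f4a) (nat_lit 4989678408),
  Rx.mk (nat_lit 221) (nat_lit 5) (nat_lit 3) (nat_lit 3) (nat_lit 7) (nat_lit 90) (nat_lit 62) r0_90 r12_62 (nat_lit 0) (nat_lit 0) (nat_lit 0) (nat_lit 0x7ec6f5d1dc) (nat_lit 600221232)]
noncomputable def e34_54 : List Rx := [
  Rx.mk (nat_lit 260) (nat_lit 4) (nat_lit 0) (nat_lit 4) (nat_lit 0) (nat_lit 329) (nat_lit 152) r0_329 r12_152 (nat_lit 0) (nat_lit 0) (nat_lit 0) (nat_lit 0x8000000000) (nat_lit 0),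
  Rx.mk (nat_lit 261) (nat_lit 5) (nat_lit 0) (nat_lit 4) (nat_lit 1) (nat_lit 330) (nat_lit 155) r0_330 r12_155 (nat_lit 0) (nat_lit 0) (nat_lit 0) (nat_lit 0x7542556568) (nat_lit 5272199712),
  Rx.mk (nat_lit 268) (nat_lit 4) (nat_lit 1) (nat_lit 4) (nat_lit 2) (nat_lit 334) (nat_lit 153) r0_334 r12_153 (nat_lit 0) (nat_lit 0) (nat_lit 0) (nat_lit 0x7328f59d7e) (nat_lit 6302558808),
  Rx.mk (nat_lit 269) (nat_lit 5) (nat_lit 1) (nat_lit 4) (nat_lit 3) (nat_lit 335) (nat_lit 156) r0_335 r12_156 (nat_lit 0) (nat_lit 0) (nat_lit 0) (nat_lit 0x7e0833bebc) (nat_lit 965980080),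
  Rx.mk (nat_lit 284) (nat_lit 4) (nat_lit 3) (nat_lit 4) (nat_lit 2) (nat_lit 339) (nat_lit 154) r0_339 r12_154 (nat_lit 0) (nat_lit 0) (nat_lit 0) (nat_lit 0x8000000000) (nat_lit 0),
  Rx.mk (nat_lit 285) (nat_lit 5) (nat_lit 3) (nat_lit 4) (nat_lit 3) (nat_lit 340) (nat_lit 157) r0_340 r12_157 (nat_lit 0) (nat_lit 0) (nat_lit 0) (nat_lit 0x7b4610a3b0) (nat_lit 2319924672),
  Rx.mk (nat_lit 452) (nat_lit 4) (nat_lit 0) (nat_lit 7) (nat_lit 4) (nat_lit 331) (nat_lit 158) r0_331 r12_158 (nat_lit 0) (nat_lit 0) (nat_lit 0) (nat_lit 0x6fbb66b9da) (nat_lit 7985185416),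
  Rx.mk (nat_lit 453) (nat_lit 5) (nat_lit 0) (nat_lit 7) (nat_lit 5) (nat_lit 332) (nat_lit 160) r0_332 r12_160 (nat_lit 0) (nat_lit 0) (nat_lit 0) (nat_lit 0x7dd134cee2) (nat_lit 1071428904),
  Rx.mk (nat_lit 455) (nat_lit 7) (nat_lit 0) (nat_lit 7) (nat_lit 5) (nat_lit 333) (nat_lit 162) r0_333 r12_162 (nat_lit 0) (nat_lit 0) (nat_lit 0) (nat_lit 0x7ac0cd7868) (nat_lit 2575441440),
  Rx.mk (nat_lit 460) (nat_lit 4) (nat_lit 1) (nat_lit 7) (nat_lit 6) (nat_lit 336) (nat_lit 159) r0_336 r12_159 (nat_lit 0) (nat_lit 0) (nat_lit 0) (nat_lit 0x7a9bd7e7e6) (nat_lit 2646306936),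
  Rx.mk (nat_lit 461) (nat_lit 5) (nat_lit 1) (nat_lit 7) (nat_lit 7) (nat_lit 337) (nat_lit 161) r0_337 r12_161 (nat_lit 0) (nat_lit 0) (nat_lit 0) (nat_lit 0x7e78339e4e) (nat_lit 751232664),
  Rx.mk (nat_lit 463) (nat_lit 7) (nat_lit 1) (nat_lit 7) (nat_lit 7) (nat_lit 338) (nat_lit 163) r0_338 r12_163 (nat_lit 0) (nat_lit 0) (nat_lit 0) (nat_lit 0x7e24231faa) (nat_lit 912417480)]
noncomputable def e34_55 : List Rx := [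
  Rx.mk (nat_lit 199) (nat_lit 7) (nat_lit 0) (nat_lit 3) (nat_lit 5) (nat_lit 48) (nat_lit 92) r0_48 r3_92 (nat_lit 0) (nat_lit 0) (nat_lit 0) (nat_lit 0x6dba6c2b84) (nat_lit 8968768848),
  Rx.mk (nat_lit 223) (nat_lit 7) (nat_lit 3) (nat_lit 3) (nat_lit 7) (nat_lit 51) (nat_lit 93) r0_51 r3_93 (nat_lit 0) (nat_lit 0) (nat_lit 0) (nat_lit 0x7b04e536a8) (nat_lit 2444880672),
  Rx.mk (nat_lit 316) (nat_lit 4) (nat_lit 7) (nat_lit 4) (nat_lit 2) (nat_lit 43) (nat_lit 88) r0_43 r3_88 (nat_lit 0) (nat_lit 0) (nat_lit 0) (nat_lit 0x8000000000) (nat_lit 0),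
  Rx.mk (nat_lit 318) (nat_lit 6) (nat_lit 7) (nat_lit 4) (nat_lit 3) (nat_lit 44) (nat_lit 94) r0_44 r3_94 (nat_lit 0) (nat_lit 0) (nat_lit 0) (nat_lit 0x789f9ccd94) (nat_lit 3620786832),
  Rx.mk (nat_lit 446) (nat_lit 6) (nat_lit 7) (nat_lit 6) (nat_lit 7) (nat_lit 45) (nat_lit 96) r0_45 r3_96 (nat_lit 0) (nat_lit 0) (nat_lit 0) (nat_lit 0x7aaf35b1f6) (nat_lit 2609173944),
  Rx.mk (nat_lit 476) (nat_lit 4) (nat_lit 3) (nat_lit 7) (nat_lit 6) (nat_lit 49) (nat_lit 90) r0_49 r3_90 (nat_lit 0) (nat_lit 0) (nat_lit 0) (nat_lit 0x7ef7fa0168) (nat_lit 506237472),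
  Rx.mk (nat_lit 479) (nat_lit 7) (nat_lit 3) (nat_lit 7) (nat_lit 7) (nat_lit 50) (nat_lit 91) r0_50 r3_91 (nat_lit 0) (nat_lit 0) (nat_lit 0) (nat_lit 0x7f3f0caff6) (nat_lit 369962424),
  Rx.mk (nat_lit 508) (nat_lit 4) (nat_lit 7) (nat_lit 7) (nat_lit 6) (nat_lit 46) (nat_lit 89) r0_46 r3_89 (nat_lit 0) (nat_lit 0) (nat_lit 0) (nat_lit 0x8000000000) (nat_lit 0),
  Rx.mk (nat_lit 510) (nat_lit 6) (nat_lit 7) (nat_lit 7) (nat_lit 7) (nat_lit 47) (nat_lit 95) r0_47 r3_95 (nat_lit 0) (nat_lit 0) (nat_lit 0) (nat_lit 0x7c4bfa640e) (nat_lit 1817733528)]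
noncomputable def e34_56 : List Rx := [
  Rx.mk (nat_lit 199) (nat_lit 7) (nat_lit 0) (nat_lit 3) (nat_lit 5) (nat_lit 208) (nat_lit 99) r0_208 r12_99 (nat_lit 0) (nat_lit 0) (nat_lit 0) (nat_lit 0x6c8ed0a668) (nat_lit 9543235104),
  Rx.mk (nat_lit 284) (nat_lit 4) (nat_lit 3) (nat_lit 4) (nat_lit 2) (nat_lit 209) (nat_lit 95) r0_209 r12_95 (nat_lit 0) (nat_lit 0) (nat_lit 0) (nat_lit 0x749db7cfe6) (nat_lit 5587832952),
  Rx.mk (nat_lit 316) (nat_lit 4) (nat_lit 7) (nat_lit 4) (nat_lit 2) (nat_lit 204) (nat_lit 94) r0_204 r12_94 (nat_lit 0) (nat_lit 0) (nat_lit 0) (nat_lit 0x8000000000) (nat_lit 0),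
  Rx.mk (nat_lit 318) (nat_lit 6) (nat_lit 7) (nat_lit 4) (nat_lit 3) (nat_lit 205) (nat_lit 100) r0_205 r12_100 (nat_lit 0) (nat_lit 0) (nat_lit 0) (nat_lit 0x769593103a) (nat_lit 4621740552),
  Rx.mk (nat_lit 446) (nat_lit 6) (nat_lit 7) (nat_lit 6) (nat_lit 7) (nat_lit 206) (nat_lit 101) r0_206 r12_101 (nat_lit 0) (nat_lit 0) (nat_lit 0) (nat_lit 0x67426092b6) (nat_lit 12144063672),
  Rx.mk (nat_lit 455) (nat_lit 7) (nat_lit 0) (nat_lit 7) (nat_lit 5) (nat_lit 207) (nat_lit 97) r0_207 r12_97 (nat_lit 0) (nat_lit 0) (nat_lit 0) (nat_lit 0x7b7e747d3a) (nat_lit 2211802632),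
  Rx.mk (nat_lit 476) (nat_lit 4) (nat_lit 3) (nat_lit 7) (nat_lit 6) (nat_lit 210) (nat_lit 96) r0_210 r12_96 (nat_lit 0) (nat_lit 0) (nat_lit 0) (nat_lit 0x7d52e9d410) (nat_lit 1313582400),
  Rx.mk (nat_lit 479) (nat_lit 7) (nat_lit 3) (nat_lit 7) (nat_lit 7) (nat_lit 211) (nat_lit 98) r0_211 r12_98 (nat_lit 0) (nat_lit 0) (nat_lit 0) (nat_lit 0x7df6c1d5ec) (nat_lit 999428976)]
noncomputable def e34_57 : List Rx := [
  Rx.mk (nat_lit 199) (nat_lit 7) (nat_lit 0) (nat_lit 3) (nat_lit 5) (nat_lit 67) (nat_lit 0) r0_67 r12_0 (nat_lit 0) (nat_lit 0) (nat_lit 0) (nat_lit 0x765c6d02d4) (nat_lit 4731317136),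
  Rx.mk (nat_lit 220) (nat_lit 4) (nat_lit 3) (nat_lit 3) (nat_lit 6) (nat_lit 69) (nat_lit 1) r0_69 r12_1 (nat_lit 0) (nat_lit 0) (nat_lit 0) (nat_lit 0x71e33a1a7c) (nat_lit 6927116976),
  Rx.mk (nat_lit 223) (nat_lit 7) (nat_lit 3) (nat_lit 3) (nat_lit 7) (nat_lit 70) (nat_lit 2) r0_70 r12_2 (nat_lit 0) (nat_lit 0) (nat_lit 0) (nat_lit 0x7690a69f06) (nat_lit 4631181048),
  Rx.mk (nat_lit 476) (nat_lit 4) (nat_lit 3) (nat_lit 7) (nat_lit 6) (nat_lit 68) (nat_lit 3) r0_68 r12_3 (nat_lit 0) (nat_lit 0) (nat_lit 0) (nat_lit 0x75cf3f763a) (nat_lit 5002011144),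
  Rx.mk (nat_lit 508) (nat_lit 4) (nat_lit 7) (nat_lit 7) (nat_lit 6) (nat_lit 65) (nat_lit 4) r0_65 r12_4 (nat_lit 0) (nat_lit 0) (nat_lit 0) (nat_lit 0x720f3cda24) (nat_lit 6842730960),
  Rx.mk (nat_lit 510) (nat_lit 6) (nat_lit 7) (nat_lit 7) (nat_lit 7) (nat_lit 66) (nat_lit 5) r0_66 r12_5 (nat_lit 0) (nat_lit 0) (nat_lit 0) (nat_lit 0x7df1ba066e) (nat_lit 1009074456)]
noncomputable def e34 : List (List Rx) := [e34_0, e34_1, e34_2, e34_3, e34_4, e34_5, e34_6, e34_7, e34_8, e34_9, e34_10, e34_11, e34_12, e34_13, e34_14, e34_15, e34_16, e34_17, e34_18, e34_19, e34_20, e34_21, e34_22, e34_23, e34_24, e34_25, e34_26, e34_27, e34_28, e34_29, e34_30, e34_31, e34_32, e34_33, e34_34, e34_35, e34_36, e34_37, e34_38, e34_39, e34_40, e34_41, e34_42, e34_43, e34_44, e34_45, e34_46, e34_47, e34_48, e34_49, e34_50, e34_51, e34_52, e34_53, e34_54, e34_55,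 e34_56, e34_57]

end Pool.Agent.AKXS_0_25_WE
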