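import Pool.Agent.AKXS_0_25_WE.R0
import Pool.Agent.AKXS_0_25_WE.R1
import Pool.Agent.AKXS_0_25_WE.R2
import Pool.Agent.AKXS_0_25_WE.R3
import Pool.Agent.AKXS_0_25_WE.R4
import Pool.Agent.AKXS_0_25_WE.R5
import Pool.Agent.AKXS_0_25_WE.R6
import Pool.Agent.AKXS_0_25_WE.R7
import Pool.Agent.AKXS_0_25_WE.R8
import Pool.Agent.AKXS_0_25_WE.R9
import Pool.Agent.AKXS_0_25_WE.R10
import Pool.Agent.AKXS_0_25_WE.R11
import Pool.Agent.AKXS_0_25_WE.R12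

set_option autoImplicit false

namespace Pool.Agent.AKXS_0_25_WE

open Pool.Agent.AKX Pool.Agent.AKU

noncomputable def e41_0 : List Rx := [
  Rx.mk (nat_lit 13) (nat_lit 5) (nat_lit 1) (nat_lit 0) (nat_lit 3) (nat_lit 253) (nat_lit 283) r1_253 r0_283 (nat_lit 0) (nat_lit 0) (nat_lit 0) (nat_lit 0x7925b2abb0) (nat_lit 3363691968),
  Rx.mk (nat_lit 76) (nat_lit 4) (nat_lit 1) (nat_lit 1) (nat_lit 6) (nat_lit 252) (nat_lit 282) r1_252 r0_282 (nat_lit 0) (nat_lit 0) (nat_lit 0) (nat_lit 0x7ff9bf840e) (nat_lit 11987352),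
  Rx.mk (nat_lit 77) (nat_lit 5) (nat_lit 1) (nat_lit 1) (nat_lit 7) (nat_lit 254) (nat_lit 284) r1_254 r0_284 (nat_lit 0) (nat_lit 0) (nat_lit 0) (nat_lit 0x7bdf3f502c) (nat_lit 2026213488)]
noncomputable def e41_1 : List Rx := [
  Rx.mk (nat_lit 76) (nat_lit 4) (nat_lit 1) (nat_lit 1) (nat_lit 6) (nat_lit 278) (nat_lit 278) r1_278 r1_278 (nat_lit 0) (nat_lit 0) (nat_lit 0) (nat_lit 0x7f91b3053e) (nat_lit 211490136),
  Rx.mk (nat_lit 77) (nat_lit 5) (nat_lit 1) (nat_lit 1) (nat_lit 7) (nat_lit 279) (nat_lit 279) r1_279 r1_279 (nat_lit 0) (nat_lit 0) (nat_lit 0) (nat_lit 0x7df2be9624) (nat_lit 1007122896)]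
noncomputable def e41_2 : List Rx := [
  Rx.mk (nat_lit 76) (nat_lit 4) (nat_lit 1) (nat_lit 1) (nat_lit 6) (nat_lit 280) (nat_lit 304) r1_280 r2_304 (nat_lit 0) (nat_lit 0) (nat_lit 0) (nat_lit 0x7dd800c21c) (nat_lit 1058396976),
  Rx.mk (nat_lit 77) (nat_lit 5) (nat_lit 1) (nat_lit 1) (nat_lit 7) (nat_lit 283) (nat_lit 307) r1_283 r2_307 (nat_lit 0) (nat_lit 0) (nat_lit 0) (nat_lit 0x7df5d6c49e) (nat_lit 1001189592),
  Rx.mk (nat_lit 332) (nat_lit 4) (nat_lit 1) (nat_lit 5) (nat_lit 6) (nat_lit 281) (nat_lit 305) r1_281 r2_305 (nat_lit 0) (nat_lit 0) (nat_lit 0) (nat_lit 0x7dda1280fe) (nat_lit 1054429272),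
  Rx.mk (nat_lit 333) (nat_lit 5) (nat_lit 1) (nat_lit 5) (nat_lit 7) (nat_lit 284) (nat_lit 308) r1_284 r2_308 (nat_lit 0) (nat_lit 0) (nat_lit 0) (nat_lit 0x7dd891d90a) (nat_lit 1057310280),
  Rx.mk (nat_lit 364) (nat_lit 4) (nat_lit 5) (nat_lit 5) (nat_lit 6) (nat_lit 282) (nat_lit 306) r1_282 r2_306 (nat_lit 0) (nat_lit 0) (nat_lit 0) (nat_lit 0x7d8d92694c) (nat_lit 1201110768),
  Rx.mk (nat_lit 365) (nat_lit 5) (nat_lit 5) (nat_lit 5) (nat_lit 7) (nat_lit 285) (nat_lit 309) r1_285 r2_309 (nat_lit 0) (nat_lit 0) (nat_lit 0) (nat_lit 0x7df759ac6e) (nat_lit 998291736)]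
noncomputable def e41_3 : List Rx := [
  Rx.mk (nat_lit 12) (nat_lit 4) (nat_lit 1) (nat_lit 0) (nat_lit 2) (nat_lit 323) (nat_lit 267) r1_323 r3_267 (nat_lit 0) (nat_lit 0) (nat_lit 0) (nat_lit 0x8000000000) (nat_lit 0),
  Rx.mk (nat_lit 13) (nat_lit 5) (nat_lit 1) (nat_lit 0) (nat_lit 3) (nat_lit 294) (nat_lit 269) r1_294 r3_269 (nat_lit 0) (nat_lit 0) (nat_lit 0) (nat_lit 0x7f3dabe604) (nat_lit 372604752),
  Rx.mk (nat_lit 204) (nat_lit 4) (nat_lit 1) (nat_lit 3) (nat_lit 6) (nat_lit 293) (nat_lit 268) r1_293 r3_268 (nat_lit 0) (nat_lit 0) (nat_lit 0) (nat_lit 0x7f34c65466) (nat_lit 389663352),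
  Rx.mk (nat_lit 205) (nat_lit 5) (nat_lit 1) (nat_lit 3) (nat_lit 7) (nat_lit 295) (nat_lit 270) r1_295 r3_270 (nat_lit 0) (nat_lit 0) (nat_lit 0) (nat_lit 0x7f46a79640) (nat_lit 355380480)]
noncomputable def e41_4 : List Rx := [
  Rx.mk (nat_lit 12) (nat_lit 4) (nat_lit 1) (nat_lit 0) (nat_lit 2) (nat_lit 296) (nat_lit 293) r1_296 r4_293 (nat_lit 0) (nat_lit 0) (nat_lit 0) (nat_lit 0x6a1ffcf612) (nat_lit 10737441000),
  Rx.mk (nat_lit 13) (nat_lit 5) (nat_lit 1) (nat_lit 0) (nat_lit 3) (nat_lit 299) (nat_lit 296) r1_299 r4_296 (nat_lit 0) (nat_lit 0) (nat_lit 0) (nat_lit 0x7ce68fda1c) (nat_lit 1521335088),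
  Rx.mk (nat_lit 76) (nat_lit 4) (nat_lit 1) (nat_lit 1) (nat_lit 6) (nat_lit 297) (nat_lit 294) r1_297 r4_294 (nat_lit 0) (nat_lit 0) (nat_lit 0) (nat_lit 0x7b9136b104) (nat_lit 2175834960),
  Rx.mk (nat_lit 77) (nat_lit 5) (nat_lit 1) (nat_lit 1) (nat_lit 7) (nat_lit 300) (nat_lit 297) r1_300 r4_297 (nat_lit 0) (nat_lit 0) (nat_lit 0) (nat_lit 0x7e35b126b8) (nat_lit 878757984),
  Rx.mk (nat_lit 204) (nat_lit 4) (nat_lit 1) (nat_lit 3) (nat_lit 6) (nat_lit 298) (nat_lit 295) r1_298 r4_295 (nat_lit 0) (nat_lit 0) (nat_lit 0) (nat_lit 0x7df1a98776) (nat_lit 1009198008),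
  Rx.mk (nat_lit 205) (nat_lit 5) (nat_lit 1) (nat_lit 3) (nat_lit 7) (nat_lit 301) (nat_lit 298) r1_301 r4_298 (nat_lit 0) (nat_lit 0) (nat_lit 0) (nat_lit 0x7db1b0c742) (nat_lit 1131857064)]
noncomputable def e41_5 : List Rx := [
  Rx.mk (nat_lit 460) (nat_lit 4) (nat_lit 1) (nat_lit 7) (nat_lit 6) (nat_lit 66) (nat_lit 259) r1_66 r3_259 (nat_lit 0) (nat_lit 0) (nat_lit 0) (nat_lit 0x8000000000) (nat_lit 0),
  Rx.mk (nat_lit 492) (nat_lit 4) (nat_lit 5) (nat_lit 7) (nat_lit 6) (nat_lit 67) (nat_lit 257) r1_67 r3_257 (nat_lit 0) (nat_lit 0) (nat_lit 0) (nat_lit 0x7cedd90582) (nat_lit 1507365288),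
  Rx.mk (nat_lit 495) (nat_lit 7) (nat_lit 5) (nat_lit 7) (nat_lit 7) (nat_lit 68) (nat_lit 258) r1_68 r3_258 (nat_lit 0) (nat_lit 0) (nat_lit 0) (nat_lit 0x7c2bd226b2) (nat_lit 1879391592)]
noncomputable def e41_6 : List Rx := [
  Rx.mk (nat_lit 268) (nat_lit 4) (nat_lit 1) (nat_lit 4) (nat_lit 2) (nat_lit 179) (nat_lit 269) r1_179 r0_269 (nat_lit 0) (nat_lit 0) (nat_lit 0) (nat_lit 0x7fe711eefa) (nat_lit 47800584),
  Rx.mk (nat_lit 300) (nat_lit 4) (nat_lit 5) (nat_lit 4) (nat_lit 2) (nat_lit 180) (nat_lit 265) r1_180 r0_265 (nat_lit 0) (nat_lit 0) (nat_lit 0) (nat_lit 0x5c4ea51962) (nat_lit 17519929128),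
  Rx.mk (nat_lit 332) (nat_lit 4) (nat_lit 1) (nat_lit 5) (nat_lit 6) (nat_lit 181) (nat_lit 270) r1_181 r0_270 (nat_lit 0) (nat_lit 0) (nat_lit 0) (nat_lit 0x7a861a03da) (nat_lit 2687994504),
  Rx.mk (nat_lit 364) (nat_lit 4) (nat_lit 5) (nat_lit 5) (nat_lit 6) (nat_lit 182) (nat_lit 266) r1_182 r0_266 (nat_lit 0) (nat_lit 0) (nat_lit 0) (nat_lit 0x77997950d2) (nat_lit 4123410408),
  Rx.mk (nat_lit 492) (nat_lit 4) (nat_lit 5) (nat_lit 7) (nat_lit 6) (nat_lit 183) (nat_lit 267) r1_183 r0_267 (nat_lit 0) (nat_lit 0) (nat_lit 0) (nat_lit 0x7389907370) (nat_lit 6117329088),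
  Rx.mk (nat_lit 495) (nat_lit 7) (nat_lit 5) (nat_lit 7) (nat_lit 7) (nat_lit 184) (nat_lit 268) r1_184 r0_268 (nat_lit 0) (nat_lit 0) (nat_lit 0) (nat_lit 0x6ddb0661c0) (nat_lit 8906257152)]
noncomputable def e41_7 : List Rx := [
  Rx.mk (nat_lit 332) (nat_lit 4) (nat_lit 1) (nat_lit 5) (nat_lit 6) (nat_lit 185) (nat_lit 273) r1_185 r1_273 (nat_lit 0) (nat_lit 0) (nat_lit 0) (nat_lit 0x7db8bf7650) (nat_lit 1118325312),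
  Rx.mk (nat_lit 364) (nat_lit 4) (nat_lit 5) (nat_lit 5) (nat_lit 6) (nat_lit 186) (nat_lit 272) r1_186 r1_272 (nat_lit 0) (nat_lit 0) (nat_lit 0) (nat_lit 0x7dbb600c44) (nat_lit 1113287760)]
noncomputable def e41_8 : List Rx := [
  Rx.mk (nat_lit 268) (nat_lit 4) (nat_lit 1) (nat_lit 4) (nat_lit 2) (nat_lit 187) (nat_lit 281) r1_187 r4_281 (nat_lit 0) (nat_lit 0) (nat_lit 0) (nat_lit 0x680620b5f0) (nat_lit 11768732352),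
  Rx.mk (nat_lit 332) (nat_lit 4) (nat_lit 1) (nat_lit 5) (nat_lit 6) (nat_lit 188) (nat_lit 282) r1_188 r4_282 (nat_lit 0) (nat_lit 0) (nat_lit 0) (nat_lit 0x7cc75d8d60) (nat_lit 1581151104),
  Rx.mk (nat_lit 460) (nat_lit 4) (nat_lit 1) (nat_lit 7) (nat_lit 6) (nat_lit 189) (nat_lit 283) r1_189 r4_283 (nat_lit 0) (nat_lit 0) (nat_lit 0) (nat_lit 0x79612a93f6) (nat_lit 3249667512),
  Rx.mk (nat_lit 492) (nat_lit 4) (nat_lit 5) (nat_lit 7) (nat_lit 6) (nat_lit 190) (nat_lit 279) r1_190 r4_279 (nat_lit 0) (nat_lit 0) (nat_lit 0) (nat_lit 0x7deba2c7e8) (nat_lit 1020752928),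
  Rx.mk (nat_lit 495) (nat_lit 7) (nat_lit 5) (nat_lit 7) (nat_lit 7) (nat_lit 191) (nat_lit 280) r1_191 r4_280 (nat_lit 0) (nat_lit 0) (nat_lit 0) (nat_lit 0x7965ed07ca) (nat_lit 3240541512)]
noncomputable def e41_9 : List Rx := [
  Rx.mk (nat_lit 204) (nat_lit 4) (nat_lit 1) (nat_lit 3) (nat_lit 6) (nat_lit 240) (nat_lit 304) r1_240 r5_304 (nat_lit 0) (nat_lit 0) (nat_lit 0) (nat_lit 0x7f67c7a41e) (nat_lit 291866328),
  Rx.mk (nat_lit 460) (nat_lit 4) (nat_lit 1) (nat_lit 7) (nat_lit 6) (nat_lit 241) (nat_lit 305) r1_241 r5_305 (nat_lit 0) (nat_lit 0) (nat_lit 0) (nat_lit 0x7ecf8b287e) (nat_lit 583763544)]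
noncomputable def e41_10 : List Rx := [
  Rx.mk (nat_lit 13) (nat_lit 5) (nat_lit 1) (nat_lit 0) (nat_lit 3) (nat_lit 255) (nat_lit 173) r1_255 r0_173 (nat_lit 0) (nat_lit 0) (nat_lit 0) (nat_lit 0x7da5614c46) (nat_lit 1155461112)]
noncomputable def e41_11 : List Rx := [
  Rx.mk (nat_lit 13) (nat_lit 5) (nat_lit 1) (nat_lit 0) (nat_lit 3) (nat_lit 256) (nat_lit 397) r1_256 r6_397 (nat_lit 0) (nat_lit 0) (nat_lit 0) (nat_lit 0x7d23d005dc) (nat_lit 1403893296),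
  Rx.mk (nat_lit 77) (nat_lit 5) (nat_lit 1) (nat_lit 1) (nat_lit 7) (nat_lit 257) (nat_lit 398) r1_257 r6_398 (nat_lit 0) (nat_lit 0) (nat_lit 0) (nat_lit 0x7dde737aea) (nat_lit 1046033352)]
noncomputable def e41_12 : List Rx := [
  Rx.mk (nat_lit 9) (nat_lit 1) (nat_lit 1) (nat_lit 0) (nat_lit 3) (nat_lit 272) (nat_lit 186) r1_272 r1_186 (nat_lit 0) (nat_lit 0) (nat_lit 0) (nat_lit 0x7dbb600c44) (nat_lit 1113287760),
  Rx.mk (nat_lit 13) (nat_lit 5) (nat_lit 1) (nat_lit 0) (nat_lit 3) (nat_lit 273) (nat_lit 185) r1_273 r1_185 (nat_lit 0) (nat_lit 0) (nat_lit 0) (nat_lit 0x7db8bf7650) (nat_lit 1118325312)]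
noncomputable def e41_13 : List Rx := [
  Rx.mk (nat_lit 9) (nat_lit 1) (nat_lit 1) (nat_lit 0) (nat_lit 3) (nat_lit 274) (nat_lit 316) r1_274 r7_316 (nat_lit 0) (nat_lit 0) (nat_lit 0) (nat_lit 0x7a2aa01bd4) (nat_lit 2863390608),
  Rx.mk (nat_lit 13) (nat_lit 5) (nat_lit 1) (nat_lit 0) (nat_lit 3) (nat_lit 276) (nat_lit 318) r1_276 r7_318 (nat_lit 0) (nat_lit 0) (nat_lit 0) (nat_lit 0x7ba392eb2e) (nat_lit 2140631064),
  Rx.mk (nat_lit 73) (nat_lit 1) (nat_lit 1) (nat_lit 1) (nat_lit 7) (nat_lit 275) (nat_lit 317) r1_275 r7_317 (nat_lit 0) (nat_lit 0) (nat_lit 0) (nat_lit 0x7dab10b14a) (nat_lit 1144560456),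
  Rx.mk (nat_lit 77) (nat_lit 5) (nat_lit 1) (nat_lit 1) (nat_lit 7) (nat_lit 277) (nat_lit 319) r1_277 r7_319 (nat_lit 0) (nat_lit 0) (nat_lit 0) (nat_lit 0x7de06f7b28) (nat_lit 1042228512)]
noncomputable def e41_14 : List Rx := [
  Rx.mk (nat_lit 77) (nat_lit 5) (nat_lit 1) (nat_lit 1) (nat_lit 7) (nat_lit 286) (nat_lit 180) r1_286 r7_180 (nat_lit 0) (nat_lit 0) (nat_lit 0) (nat_lit 0x7de3424df8) (nat_lit 1036814688)]
noncomputable def e41_15 : List Rx := [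
  Rx.mk (nat_lit 77) (nat_lit 5) (nat_lit 1) (nat_lit 1) (nat_lit 7) (nat_lit 287) (nat_lit 290) r1_287 r8_290 (nat_lit 0) (nat_lit 0) (nat_lit 0) (nat_lit 0x7deadc744e) (nat_lit 1022238360),
  Rx.mk (nat_lit 333) (nat_lit 5) (nat_lit 1) (nat_lit 5) (nat_lit 7) (nat_lit 288) (nat_lit 291) r1_288 r8_291 (nat_lit 0) (nat_lit 0) (nat_lit 0) (nat_lit 0x7de6571ca8) (nat_lit 1030906656),
  Rx.mk (nat_lit 365) (nat_lit 5) (nat_lit 5) (nat_lit 5) (nat_lit 7) (nat_lit 289) (nat_lit 292) r1_289 r8_292 (nat_lit 0) (nat_lit 0) (nat_lit 0) (nat_lit 0x7de85cdc4a) (nat_lit 1027028808)]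
noncomputable def e41_16 : List Rx := [
  Rx.mk (nat_lit 13) (nat_lit 5) (nat_lit 1) (nat_lit 0) (nat_lit 3) (nat_lit 304) (nat_lit 159) r1_304 r4_159 (nat_lit 0) (nat_lit 0) (nat_lit 0) (nat_lit 0x7e188df908) (nat_lit 934625952),
  Rx.mk (nat_lit 205) (nat_lit 5) (nat_lit 1) (nat_lit 3) (nat_lit 7) (nat_lit 305) (nat_lit 160) r1_305 r4_160 (nat_lit 0) (nat_lit 0) (nat_lit 0) (nat_lit 0x7e535d2bda) (nat_lit 821865096)]
noncomputable def e41_17 : List Rx := [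
  Rx.mk (nat_lit 13) (nat_lit 5) (nat_lit 1) (nat_lit 0) (nat_lit 3) (nat_lit 306) (nat_lit 320) r1_306 r9_320 (nat_lit 0) (nat_lit 0) (nat_lit 0) (nat_lit 0x7d78f9b2ec) (nat_lit 1240602480),
  Rx.mk (nat_lit 77) (nat_lit 5) (nat_lit 1) (nat_lit 1) (nat_lit 7) (nat_lit 307) (nat_lit 321) r1_307 r9_321 (nat_lit 0) (nat_lit 0) (nat_lit 0) (nat_lit 0x7dea245fd0) (nat_lit 1023617088),
  Rx.mk (nat_lit 205) (nat_lit 5) (nat_lit 1) (nat_lit 3) (nat_lit 7) (nat_lit 308) (nat_lit 322) r1_308 r9_322 (nat_lit 0) (nat_lit 0) (nat_lit 0) (nat_lit 0x7d27c6e66a) (nat_lit 1396292040)]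
noncomputable def e41_18 : List Rx := [
  Rx.mk (nat_lit 205) (nat_lit 5) (nat_lit 1) (nat_lit 3) (nat_lit 7) (nat_lit 309) (nat_lit 338) r1_309 r10_338 (nat_lit 0) (nat_lit 0) (nat_lit 0) (nat_lit 0x7df8d574b0) (nat_lit 995447232)]
noncomputable def e41_19 : List Rx := [
  Rx.mk (nat_lit 364) (nat_lit 4) (nat_lit 5) (nat_lit 5) (nat_lit 6) (nat_lit 290) (nat_lit 286) r1_290 r8_286 (nat_lit 0) (nat_lit 0) (nat_lit 0) (nat_lit 0x7d689cd8ca) (nat_lit 1271976264),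
  Rx.mk (nat_lit 365) (nat_lit 5) (nat_lit 5) (nat_lit 5) (nat_lit 7) (nat_lit 291) (nat_lit 287) r1_291 r8_287 (nat_lit 0) (nat_lit 0) (nat_lit 0) (nat_lit 0x7de70451d4) (nat_lit 1029609360),
  Rx.mk (nat_lit 366) (nat_lit 6) (nat_lit 5) (nat_lit 5) (nat_lit 7) (nat_lit 292) (nat_lit 288) r1_292 r8_288 (nat_lit 0) (nat_lit 0) (nat_lit 0) (nat_lit 0x7df1630bde) (nat_lit 1009725912)]
noncomputable def e41_20 : List Rx := [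
  Rx.mk (nat_lit 302) (nat_lit 6) (nat_lit 5) (nat_lit 4) (nat_lit 3) (nat_lit 70) (nat_lit 75) r1_70 r0_75 (nat_lit 0) (nat_lit 0) (nat_lit 0) (nat_lit 0x7de3d424da) (nat_lit 1035722376),
  Rx.mk (nat_lit 492) (nat_lit 4) (nat_lit 5) (nat_lit 7) (nat_lit 6) (nat_lit 69) (nat_lit 76) r1_69 r0_76 (nat_lit 0) (nat_lit 0) (nat_lit 0) (nat_lit 0x7d345c1d0a) (nat_lit 1372165704),
  Rx.mk (nat_lit 494) (nat_lit 6) (nat_lit 5) (nat_lit 7) (nat_lit 7) (nat_lit 71) (nat_lit 78) r1_71 r0_78 (nat_lit 0) (nat_lit 0) (nat_lit 0) (nat_lit 0x7ea4197fc4) (nat_lit 667062864),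
  Rx.mk (nat_lit 495) (nat_lit 7) (nat_lit 5) (nat_lit 7) (nat_lit 7) (nat_lit 72) (nat_lit 77) r1_72 r0_77 (nat_lit 0) (nat_lit 0) (nat_lit 0) (nat_lit 0x7d7df4633c) (nat_lit 1231055280)]
noncomputable def e41_21 : List Rx := [
  Rx.mk (nat_lit 294) (nat_lit 6) (nat_lit 4) (nat_lit 4) (nat_lit 1) (nat_lit 75) (nat_lit 73) r1_75 r1_73 (nat_lit 0) (nat_lit 0) (nat_lit 0) (nat_lit 0x762c24a78a) (nat_lit 4823894088),
  Rx.mk (nat_lit 302) (nat_lit 6) (nat_lit 5) (nat_lit 4) (nat_lit 3) (nat_lit 76) (nat_lit 74) r1_76 r1_74 (nat_lit 0) (nat_lit 0) (nat_lit 0) (nat_lit 0x7df46bdb4e) (nat_lit 1003907736),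
  Rx.mk (nat_lit 422) (nat_lit 6) (nat_lit 4) (nat_lit 6) (nat_lit 5) (nat_lit 77) (nat_lit 82) r1_77 r1_82 (nat_lit 0) (nat_lit 0) (nat_lit 0) (nat_lit 0x7d3afc3302) (nat_lit 1359462312),
  Rx.mk (nat_lit 430) (nat_lit 6) (nat_lit 5) (nat_lit 6) (nat_lit 7) (nat_lit 78) (nat_lit 83) r1_78 r1_83 (nat_lit 0) (nat_lit 0) (nat_lit 0) (nat_lit 0x7deae81394) (nat_lit 1022151312),
  Rx.mk (nat_lit 438) (nat_lit 6) (nat_lit 6) (nat_lit 6) (nat_lit 7) (nat_lit 79) (nat_lit 84) r1_79 r1_84 (nat_lit 0) (nat_lit 0) (nat_lit 0) (nat_lit 0x7df79428c6) (nat_lit 997853688),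
  Rx.mk (nat_lit 484) (nat_lit 4) (nat_lit 4) (nat_lit 7) (nat_lit 4) (nat_lit 73) (nat_lit 75) r1_73 r1_75 (nat_lit 0) (nat_lit 0) (nat_lit 0) (nat_lit 0x762c24a78a) (nat_lit 4823894088),
  Rx.mk (nat_lit 486) (nat_lit 6) (nat_lit 4) (nat_lit 7) (nat_lit 5) (nat_lit 80) (nat_lit 80) r1_80 r1_80 (nat_lit 0) (nat_lit 0) (nat_lit 0) (nat_lit 0x7e4e579c38) (nat_lit 831493728),
  Rx.mk (nat_lit 487) (nat_lit 7) (nat_lit 4) (nat_lit 7) (nat_lit 5) (nat_lit 82) (nat_lit 77) r1_82 r1_77 (nat_lit 0) (nat_lit 0) (nat_lit 0) (nat_lit 0x7d3afc3302) (nat_lit 1359462312),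
  Rx.mk (nat_lit 492) (nat_lit 4) (nat_lit 5) (nat_lit 7) (nat_lit 6) (nat_lit 74) (nat_lit 76) r1_74 r1_76 (nat_lit 0) (nat_lit 0) (nat_lit 0) (nat_lit 0x7df46bdb4e) (nat_lit 1003907736),
  Rx.mk (nat_lit 494) (nat_lit 6) (nat_lit 5) (nat_lit 7) (nat_lit 7) (nat_lit 81) (nat_lit 81) r1_81 r1_81 (nat_lit 0) (nat_lit 0) (nat_lit 0) (nat_lit 0x7e40235f8a) (nat_lit 858728520),
  Rx.mk (nat_lit 495) (nat_lit 7) (nat_lit 5) (nat_lit 7) (nat_lit 7) (nat_lit 83) (nat_lit 78) r1_83 r1_78 (nat_lit 0) (nat_lit 0) (nat_lit 0) (nat_lit 0x7deae81394) (nat_lit 1022151312),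
  Rx.mk (nat_lit 511) (nat_lit 7) (nat_lit 7) (nat_lit 7) (nat_lit 7) (nat_lit 84) (nat_lit 79) r1_84 r1_79 (nat_lit 0) (nat_lit 0) (nat_lit 0) (nat_lit 0x7df79428c6) (nat_lit 997853688)]
noncomputable def e41_22 : List Rx := [
  Rx.mk (nat_lit 492) (nat_lit 4) (nat_lit 5) (nat_lit 7) (nat_lit 6) (nat_lit 85) (nat_lit 71) r1_85 r4_71 (nat_lit 0) (nat_lit 0) (nat_lit 0) (nat_lit 0x7de3bb066c) (nat_lit 1035910512),
  Rx.mk (nat_lit 494) (nat_lit 6) (nat_lit 5) (nat_lit 7) (nat_lit 7) (nat_lit 86) (nat_lit 73) r1_86 r4_73 (nat_lit 0) (nat_lit 0) (nat_lit 0) (nat_lit 0x7eb127ced2) (nat_lit 642029544),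
  Rx.mk (nat_lit 495) (nat_lit 7) (nat_lit 5) (nat_lit 7) (nat_lit 7) (nat_lit 87) (nat_lit 72) r1_87 r4_72 (nat_lit 0) (nat_lit 0) (nat_lit 0) (nat_lit 0x7df5700b0a) (nat_lit 1001958984)]
noncomputable def e41_23 : List Rx := [
  Rx.mk (nat_lit 300) (nat_lit 4) (nat_lit 5) (nat_lit 4) (nat_lit 2) (nat_lit 192) (nat_lit 381) r1_192 r6_381 (nat_lit 0) (nat_lit 0) (nat_lit 0) (nat_lit 0x722130dad2) (nat_lit 6808307688),
  Rx.mk (nat_lit 302) (nat_lit 6) (nat_lit 5) (nat_lit 4) (nat_lit 3) (nat_lit 195) (nat_lit 385) r1_195 r6_385 (nat_lit 0) (nat_lit 0) (nat_lit 0) (nat_lit 0x7d8beb23c2) (nat_lit 1204281000),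
  Rx.mk (nat_lit 364) (nat_lit 4) (nat_lit 5) (nat_lit 5) (nat_lit 6) (nat_lit 193) (nat_lit 382) r1_193 r6_382 (nat_lit 0) (nat_lit 0) (nat_lit 0) (nat_lit 0x7d814b2dcc) (nat_lit 1224653040),
  Rx.mk (nat_lit 366) (nat_lit 6) (nat_lit 5) (nat_lit 5) (nat_lit 7) (nat_lit 196) (nat_lit 386) r1_196 r6_386 (nat_lit 0) (nat_lit 0) (nat_lit 0) (nat_lit 0x7df3680b8c) (nat_lit 1005853680),
  Rx.mk (nat_lit 492) (nat_lit 4) (nat_lit 5) (nat_lit 7) (nat_lit 6) (nat_lit 194) (nat_lit 383) r1_194 r6_383 (nat_lit 0) (nat_lit 0) (nat_lit 0) (nat_lit 0x7dcda1a818) (nat_lit 1078283232),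
  Rx.mk (nat_lit 494) (nat_lit 6) (nat_lit 5) (nat_lit 7) (nat_lit 7) (nat_lit 197) (nat_lit 387) r1_197 r6_387 (nat_lit 0) (nat_lit 0) (nat_lit 0) (nat_lit 0x7dd2126108) (nat_lit 1069769376),
  Rx.mk (nat_lit 495) (nat_lit 7) (nat_lit 5) (nat_lit 7) (nat_lit 7) (nat_lit 198) (nat_lit 384) r1_198 r6_384 (nat_lit 0) (nat_lit 0) (nat_lit 0) (nat_lit 0x7d43cb4608) (nat_lit 1342572192)]
noncomputable def e41_24 : List Rx := [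
  Rx.mk (nat_lit 292) (nat_lit 4) (nat_lit 4) (nat_lit 4) (nat_lit 0) (nat_lit 201) (nat_lit 283) r1_201 r7_283 (nat_lit 0) (nat_lit 0) (nat_lit 0) (nat_lit 0x34358c330c) (nat_lit 37202186736),
  Rx.mk (nat_lit 294) (nat_lit 6) (nat_lit 4) (nat_lit 4) (nat_lit 1) (nat_lit 206) (nat_lit 286) r1_206 r7_286 (nat_lit 0) (nat_lit 0) (nat_lit 0) (nat_lit 0x6ddf3cfe52) (nat_lit 8898178536),
  Rx.mk (nat_lit 300) (nat_lit 4) (nat_lit 5) (nat_lit 4) (nat_lit 2) (nat_lit 202) (nat_lit 289) r1_202 r7_289 (nat_lit 0) (nat_lit 0) (nat_lit 0) (nat_lit 0x694567a042) (nat_lit 11156551848),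
  Rx.mk (nat_lit 302) (nat_lit 6) (nat_lit 5) (nat_lit 4) (nat_lit 3) (nat_lit 207) (nat_lit 293) r1_207 r7_293 (nat_lit 0) (nat_lit 0) (nat_lit 0) (nat_lit 0x7c8fc726fe) (nat_lit 1687734360),
  Rx.mk (nat_lit 364) (nat_lit 4) (nat_lit 5) (nat_lit 5) (nat_lit 6) (nat_lit 203) (nat_lit 290) r1_203 r7_290 (nat_lit 0) (nat_lit 0) (nat_lit 0) (nat_lit 0x7d333feece) (nat_lit 1374294168),
  Rx.mk (nat_lit 366) (nat_lit 6) (nat_lit 5) (nat_lit 5) (nat_lit 7) (nat_lit 208) (nat_lit 294) r1_208 r7_294 (nat_lit 0) (nat_lit 0) (nat_lit 0) (nat_lit 0x7db7bde66a) (nat_lit 1120254408),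
  Rx.mk (nat_lit 422) (nat_lit 6) (nat_lit 4) (nat_lit 6) (nat_lit 5) (nat_lit 209) (nat_lit 288) r1_209 r7_288 (nat_lit 0) (nat_lit 0) (nat_lit 0) (nat_lit 0x7de4743ad8) (nat_lit 1034523360),
  Rx.mk (nat_lit 430) (nat_lit 6) (nat_lit 5) (nat_lit 6) (nat_lit 7) (nat_lit 210) (nat_lit 296) r1_210 r7_296 (nat_lit 0) (nat_lit 0) (nat_lit 0) (nat_lit 0x7dd2f1d310) (nat_lit 1068095808),
  Rx.mk (nat_lit 438) (nat_lit 6) (nat_lit 6) (nat_lit 6) (nat_lit 7) (nat_lit 211) (nat_lit 298) r1_211 r7_298 (nat_lit 0) (nat_lit 0) (nat_lit 0) (nat_lit 0x7deaa7f796) (nat_lit 1022631480),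
  Rx.mk (nat_lit 484) (nat_lit 4) (nat_lit 4) (nat_lit 7) (nat_lit 4) (nat_lit 204) (nat_lit 284) r1_204 r7_284 (nat_lit 0) (nat_lit 0) (nat_lit 0) (nat_lit 0x689c4c929c) (nat_lit 11480794416),
  Rx.mk (nat_lit 486) (nat_lit 6) (nat_lit 4) (nat_lit 7) (nat_lit 5) (nat_lit 212) (nat_lit 287) r1_212 r7_287 (nat_lit 0) (nat_lit 0) (nat_lit 0) (nat_lit 0x7db4c29622) (nat_lit 1125971496),
  Rx.mk (nat_lit 487) (nat_lit 7) (nat_lit 4) (nat_lit 7) (nat_lit 5) (nat_lit 214) (nat_lit 285) r1_214 r7_285 (nat_lit 0) (nat_lit 0) (nat_lit 0) (nat_lit 0x5d3c3f5ed0) (nat_lit 17064350784),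
  Rx.mk (nat_lit 492) (nat_lit 4) (nat_lit 5) (nat_lit 7) (nat_lit 6) (nat_lit 205) (nat_lit 291) r1_205 r7_291 (nat_lit 0) (nat_lit 0) (nat_lit 0) (nat_lit 0x7d4016c154) (nat_lit 1349676432),
  Rx.mk (nat_lit 494) (nat_lit 6) (nat_lit 5) (nat_lit 7) (nat_lit 7) (nat_lit 213) (nat_lit 295) r1_213 r7_295 (nat_lit 0) (nat_lit 0) (nat_lit 0) (nat_lit 0x7db90e3164) (nat_lit 1117735632),
  Rx.mk (nat_lit 495) (nat_lit 7) (nat_lit 5) (nat_lit 7) (nat_lit 7) (nat_lit 215) (nat_lit 292) r1_215 r7_292 (nat_lit 0) (nat_lit 0) (nat_lit 0) (nat_lit 0x7c3cb238a0) (nat_lit 1847035008),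
  Rx.mk (nat_lit 511) (nat_lit 7) (nat_lit 7) (nat_lit 7) (nat_lit 7) (nat_lit 216) (nat_lit 297) r1_216 r7_297 (nat_lit 0) (nat_lit 0) (nat_lit 0) (nat_lit 0x78ed89ae78) (nat_lit 3471373152)]
noncomputable def e41_25 : List Rx := [
  Rx.mk (nat_lit 364) (nat_lit 4) (nat_lit 5) (nat_lit 5) (nat_lit 6) (nat_lit 199) (nat_lit 66) r1_199 r7_66 (nat_lit 0) (nat_lit 0) (nat_lit 0) (nat_lit 0x7d80f19366) (nat_lit 1225324152),
  Rx.mk (nat_lit 366) (nat_lit 6) (nat_lit 5) (nat_lit 5) (nat_lit 7) (nat_lit 200) (nat_lit 67) r1_200 r7_67 (nat_lit 0) (nat_lit 0) (nat_lit 0) (nat_lit 0x7df471daee) (nat_lit 1003862808)]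
noncomputable def e41_26 : List Rx := [
  Rx.mk (nat_lit 492) (nat_lit 4) (nat_lit 5) (nat_lit 7) (nat_lit 6) (nat_lit 217) (nat_lit 314) r1_217 r9_314 (nat_lit 0) (nat_lit 0) (nat_lit 0) (nat_lit 0x7c9f940a20) (nat_lit 1657438848),
  Rx.mk (nat_lit 494) (nat_lit 6) (nat_lit 5) (nat_lit 7) (nat_lit 7) (nat_lit 218) (nat_lit 316) r1_218 r9_316 (nat_lit 0) (nat_lit 0) (nat_lit 0) (nat_lit 0x7de940ce0a) (nat_lit 1025321544),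
  Rx.mk (nat_lit 495) (nat_lit 7) (nat_lit 5) (nat_lit 7) (nat_lit 7) (nat_lit 219) (nat_lit 315) r1_219 r9_315 (nat_lit 0) (nat_lit 0) (nat_lit 0) (nat_lit 0x7e4c769a4a) (nat_lit 835096392)]
noncomputable def e41_27 : List Rx := [
  Rx.mk (nat_lit 492) (nat_lit 4) (nat_lit 5) (nat_lit 7) (nat_lit 6) (nat_lit 244) (nat_lit 333) r1_244 r10_333 (nat_lit 0) (nat_lit 0) (nat_lit 0) (nat_lit 0x7dc4b676d4) (nat_lit 1095383952),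
  Rx.mk (nat_lit 494) (nat_lit 6) (nat_lit 5) (nat_lit 7) (nat_lit 7) (nat_lit 245) (nat_lit 334) r1_245 r10_334 (nat_lit 0) (nat_lit 0) (nat_lit 0) (nat_lit 0x7e352a8f22) (nat_lit 879766056)]
noncomputable def e41_28 : List Rx := [
  Rx.mk (nat_lit 12) (nat_lit 4) (nat_lit 1) (nat_lit 0) (nat_lit 2) (nat_lit 315) (nat_lit 183) r1_315 r10_183 (nat_lit 0) (nat_lit 0) (nat_lit 0) (nat_lit 0x707b7d37b2) (nat_lit 7616876904),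
  Rx.mk (nat_lit 13) (nat_lit 5) (nat_lit 1) (nat_lit 0) (nat_lit 3) (nat_lit 318) (nat_lit 184) r1_318 r10_184 (nat_lit 0) (nat_lit 0) (nat_lit 0) (nat_lit 0x7de8fc3254) (nat_lit 1025835408),
  Rx.mk (nat_lit 15) (nat_lit 7) (nat_lit 1) (nat_lit 0) (nat_lit 3) (nat_lit 321) (nat_lit 185) r1_321 r10_185 (nat_lit 0) (nat_lit 0) (nat_lit 0) (nat_lit 0x7df99bc84a) (nat_lit 993961800),
  Rx.mk (nat_lit 76) (nat_lit 4) (nat_lit 1) (nat_lit 1) (nat_lit 6) (nat_lit 316) (nat_lit 186) r1_316 r10_186 (nat_lit 0) (nat_lit 0) (nat_lit 0) (nat_lit 0x7ddf77aaa6) (nat_lit 1044084600),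
  Rx.mk (nat_lit 77) (nat_lit 5) (nat_lit 1) (nat_lit 1) (nat_lit 7) (nat_lit 319) (nat_lit 187) r1_319 r10_187 (nat_lit 0) (nat_lit 0) (nat_lit 0) (nat_lit 0x7df4ff3218) (nat_lit 1002804192),
  Rx.mk (nat_lit 79) (nat_lit 7) (nat_lit 1) (nat_lit 1) (nat_lit 7) (nat_lit 322) (nat_lit 188) r1_322 r10_188 (nat_lit 0) (nat_lit 0) (nat_lit 0) (nat_lit 0x7e5868bb1c) (nat_lit 812191536),
  Rx.mk (nat_lit 204) (nat_lit 4) (nat_lit 1) (nat_lit 3) (nat_lit 6) (nat_lit 317) (nat_lit 189) r1_317 r10_189 (nat_lit 0) (nat_lit 0) (nat_lit 0) (nat_lit 0x7de538ae90) (nat_lit 1033051968),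
  Rx.mk (nat_lit 205) (nat_lit 5) (nat_lit 1) (nat_lit 3) (nat_lit 7) (nat_lit 320) (nat_lit 190) r1_320 r10_190 (nat_lit 0) (nat_lit 0) (nat_lit 0) (nat_lit 0x7df62c9f40) (nat_lit 1000546560)]
noncomputable def e41_29 : List Rx := [
  Rx.mk (nat_lit 207) (nat_lit 7) (nat_lit 1) (nat_lit 3) (nat_lit 7) (nat_lit 89) (nat_lit 9) r1_89 r5_9 (nat_lit 0) (nat_lit 0) (nat_lit 0) (nat_lit 0x7f31e242aa) (nat_lit 395206344),
  Rx.mk (nat_lit 460) (nat_lit 4) (nat_lit 1) (nat_lit 7) (nat_lit 6) (nat_lit 88) (nat_lit 7) r1_88 r5_7 (nat_lit 0) (nat_lit 0) (nat_lit 0) (nat_lit 0x7e6bb54640) (nat_lit 775187712),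
  Rx.mk (nat_lit 463) (nat_lit 7) (nat_lit 1) (nat_lit 7) (nat_lit 7) (nat_lit 90) (nat_lit 8) r1_90 r5_8 (nat_lit 0) (nat_lit 0) (nat_lit 0) (nat_lit 0x7e406c7af8) (nat_lit 858180960)]
noncomputable def e41_30 : List Rx := [
  Rx.mk (nat_lit 268) (nat_lit 4) (nat_lit 1) (nat_lit 4) (nat_lit 2) (nat_lit 220) (nat_lit 41) r1_220 r10_41 (nat_lit 0) (nat_lit 0) (nat_lit 0) (nat_lit 0x6745aa3e18) (nat_lit 12137759712),
  Rx.mk (nat_lit 332) (nat_lit 4) (nat_lit 1) (nat_lit 5) (nat_lit 6) (nat_lit 221) (nat_lit 42) r1_221 r10_42 (nat_lit 0) (nat_lit 0) (nat_lit 0) (nat_lit 0x7dd2d19514) (nat_lit 1068337296),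
  Rx.mk (nat_lit 460) (nat_lit 4) (nat_lit 1) (nat_lit 7) (nat_lit 6) (nat_lit 222) (nat_lit 43) r1_222 r10_43 (nat_lit 0) (nat_lit 0) (nat_lit 0) (nat_lit 0x7dc1f662d8) (nat_lit 1100657376),
  Rx.mk (nat_lit 463) (nat_lit 7) (nat_lit 1) (nat_lit 7) (nat_lit 7) (nat_lit 223) (nat_lit 44) r1_223 r10_44 (nat_lit 0) (nat_lit 0) (nat_lit 0) (nat_lit 0x7e5b3e8dbc) (nat_lit 806755248),
  Rx.mk (nat_lit 495) (nat_lit 7) (nat_lit 5) (nat_lit 7) (nat_lit 7) (nat_lit 224) (nat_lit 45) r1_224 r10_45 (nat_lit 0) (nat_lit 0) (nat_lit 0) (nat_lit 0x7de11ef030) (nat_lit 1040914368)]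
noncomputable def e41_31 : List Rx := [
  Rx.mk (nat_lit 15) (nat_lit 7) (nat_lit 1) (nat_lit 0) (nat_lit 3) (nat_lit 247) (nat_lit 116) r1_247 r5_116 (nat_lit 0) (nat_lit 0) (nat_lit 0) (nat_lit 0x7f624a1bfc) (nat_lit 302393520),
  Rx.mk (nat_lit 204) (nat_lit 4) (nat_lit 1) (nat_lit 3) (nat_lit 6) (nat_lit 246) (nat_lit 117) r1_246 r5_117 (nat_lit 0) (nat_lit 0) (nat_lit 0) (nat_lit 0x7f6760ea8a) (nat_lit 292635720),
  Rx.mk (nat_lit 207) (nat_lit 7) (nat_lit 1) (nat_lit 3) (nat_lit 7) (nat_lit 248) (nat_lit 118) r1_248 r5_118 (nat_lit 0) (nat_lit 0) (nat_lit 0) (nat_lit 0x7e75103088) (nat_lit 757250208)]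
noncomputable def e41_32 : List Rx := [
  Rx.mk (nat_lit 204) (nat_lit 4) (nat_lit 1) (nat_lit 3) (nat_lit 6) (nat_lit 249) (nat_lit 364) r1_249 r11_364 (nat_lit 0) (nat_lit 0) (nat_lit 0) (nat_lit 0x7fd9fb0076) (nat_lit 72898488),
  Rx.mk (nat_lit 207) (nat_lit 7) (nat_lit 1) (nat_lit 3) (nat_lit 7) (nat_lit 251) (nat_lit 366) r1_251 r11_366 (nat_lit 0) (nat_lit 0) (nat_lit 0) (nat_lit 0x7f3f574b4c) (nat_lit 369403632),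
  Rx.mk (nat_lit 460) (nat_lit 4) (nat_lit 1) (nat_lit 7) (nat_lit 6) (nat_lit 250) (nat_lit 365) r1_250 r11_365 (nat_lit 0) (nat_lit 0) (nat_lit 0) (nat_lit 0x7e7e4b3cce) (nat_lit 739551384)]
noncomputable def e41_33 : List Rx := [
  Rx.mk (nat_lit 3) (nat_lit 3) (nat_lit 0) (nat_lit 0) (nat_lit 1) (nat_lit 2) (nat_lit 23) r1_2 r0_23 (nat_lit 0) (nat_lit 0) (nat_lit 0) (nat_lit 0x6facf0e146) (nat_lit 8012911608),
  Rx.mk (nat_lit 19) (nat_lit 3) (nat_lit 2) (nat_lit 0) (nat_lit 3) (nat_lit 3) (nat_lit 24) r1_3 r0_24 (nat_lit 0) (nat_lit 0) (nat_lit 0) (nat_lit 0x78202e24fe) (nat_lit 3865124952),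
  Rx.mk (nat_lit 144) (nat_lit 0) (nat_lit 2) (nat_lit 2) (nat_lit 6) (nat_lit 0) (nat_lit 22) r1_0 r0_22 (nat_lit 0) (nat_lit 0) (nat_lit 0) (nat_lit 0x76832bf6be) (nat_lit 4657025880),
  Rx.mk (nat_lit 146) (nat_lit 2) (nat_lit 2) (nat_lit 2) (nat_lit 7) (nat_lit 1) (nat_lit 29) r1_1 r0_29 (nat_lit 0) (nat_lit 0) (nat_lit 0) (nat_lit 0x75ecc41dd2) (nat_lit 4945413096),
  Rx.mk (nat_lit 147) (nat_lit 3) (nat_lit 2) (nat_lit 2) (nat_lit 7) (nat_lit 4) (nat_lit 28) r1_4 r0_28 (nat_lit 0) (nat_lit 0) (nat_lit 0) (nat_lit 0x7efe491c70) (nat_lit 494140608),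
  Rx.mk (nat_lit 195) (nat_lit 3) (nat_lit 0) (nat_lit 3) (nat_lit 5) (nat_lit 5) (nat_lit 25) r1_5 r0_25 (nat_lit 0) (nat_lit 0) (nat_lit 0) (nat_lit 0x780ee6f982) (nat_lit 3898253736),
  Rx.mk (nat_lit 211) (nat_lit 3) (nat_lit 2) (nat_lit 3) (nat_lit 7) (nat_lit 6) (nat_lit 27) r1_6 r0_27 (nat_lit 0) (nat_lit 0) (nat_lit 0) (nat_lit 0x7d16a418a8) (nat_lit 1429148448),
  Rx.mk (nat_lit 219) (nat_lit 3) (nat_lit 3) (nat_lit 3) (nat_lit 7) (nat_lit 7) (nat_lit 26) r1_7 r0_26 (nat_lit 0) (nat_lit 0) (nat_lit 0) (nat_lit 0x7c8a811b64) (nat_lit 1697845968),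
  Rx.mk (nat_lit 223) (nat_lit 7) (nat_lit 3) (nat_lit 3) (nat_lit 7) (nat_lit 8) (nat_lit 21) r1_8 r0_21 (nat_lit 0) (nat_lit 0) (nat_lit 0) (nat_lit 0x7c9e945a1c) (nat_lit 1659353904),
  Rx.mk (nat_lit 479) (nat_lit 7) (nat_lit 3) (nat_lit 7) (nat_lit 7) (nat_lit 9) (nat_lit 20) r1_9 r0_20 (nat_lit 0) (nat_lit 0) (nat_lit 0) (nat_lit 0x7ccb2590dc) (nat_lit 1573900848)]
noncomputable def e41_34 : List Rx := [
  Rx.mk (nat_lit 0) (nat_lit 0) (nat_lit 0) (nat_lit 0) (nat_lit 0) (nat_lit 94) (nat_lit 111) r1_94 r0_111 (nat_lit 0) (nat_lit 0) (nat_lit 0) (nat_lit 0x7fc651db1c) (nat_lit 110595888),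
  Rx.mk (nat_lit 3) (nat_lit 3) (nat_lit 0) (nat_lit 0) (nat_lit 1) (nat_lit 99) (nat_lit 112) r1_99 r0_112 (nat_lit 0) (nat_lit 0) (nat_lit 0) (nat_lit 0x6fba2ced78) (nat_lit 7987535712),
  Rx.mk (nat_lit 8) (nat_lit 0) (nat_lit 1) (nat_lit 0) (nat_lit 2) (nat_lit 95) (nat_lit 114) r1_95 r0_114 (nat_lit 0) (nat_lit 0) (nat_lit 0) (nat_lit 0x7c02729cd4) (nat_lit 1958720400),
  Rx.mk (nat_lit 11) (nat_lit 3) (nat_lit 1) (nat_lit 0) (nat_lit 3) (nat_lit 100) (nat_lit 115) r1_100 r0_115 (nat_lit 0) (nat_lit 0) (nat_lit 0) (nat_lit 0x7d6029a006) (nat_lit 1288178424),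
  Rx.mk (nat_lit 16) (nat_lit 0) (nat_lit 2) (nat_lit 0) (nat_lit 2) (nat_lit 96) (nat_lit 118) r1_96 r0_118 (nat_lit 0) (nat_lit 0) (nat_lit 0) (nat_lit 0x76fc4b844c) (nat_lit 4424784624),
  Rx.mk (nat_lit 19) (nat_lit 3) (nat_lit 2) (nat_lit 0) (nat_lit 3) (nat_lit 101) (nat_lit 119) r1_101 r0_119 (nat_lit 0) (nat_lit 0) (nat_lit 0) (nat_lit 0x7ddf4a4d7c) (nat_lit 1044424368),
  Rx.mk (nat_lit 144) (nat_lit 0) (nat_lit 2) (nat_lit 2) (nat_lit 6) (nat_lit 97) (nat_lit 121) r1_97 r0_121 (nat_lit 0) (nat_lit 0) (nat_lit 0) (nat_lit 0x7d51e2a484) (nat_lit 1315553616),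
  Rx.mk (nat_lit 146) (nat_lit 2) (nat_lit 2) (nat_lit 2) (nat_lit 7) (nat_lit 98) (nat_lit 123) r1_98 r0_123 (nat_lit 0) (nat_lit 0) (nat_lit 0) (nat_lit 0x7dd1bc8666) (nat_lit 1070412408),
  Rx.mk (nat_lit 147) (nat_lit 3) (nat_lit 2) (nat_lit 2) (nat_lit 7) (nat_lit 102) (nat_lit 122) r1_102 r0_122 (nat_lit 0) (nat_lit 0) (nat_lit 0) (nat_lit 0x7df6bc3646) (nat_lit 999471096),
  Rx.mk (nat_lit 195) (nat_lit 3) (nat_lit 0) (nat_lit 3) (nat_lit 5) (nat_lit 103) (nat_lit 113) r1_103 r0_113 (nat_lit 0) (nat_lit 0) (nat_lit 0) (nat_lit 0x6f612c3ddc) (nat_lit 8158189104),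
  Rx.mk (nat_lit 203) (nat_lit 3) (nat_lit 1) (nat_lit 3) (nat_lit 7) (nat_lit 104) (nat_lit 116) r1_104 r0_116 (nat_lit 0) (nat_lit 0) (nat_lit 0) (nat_lit 0x7daa421e34) (nat_lit 1146107664),
  Rx.mk (nat_lit 211) (nat_lit 3) (nat_lit 2) (nat_lit 3) (nat_lit 7) (nat_lit 105) (nat_lit 120) r1_105 r0_120 (nat_lit 0) (nat_lit 0) (nat_lit 0) (nat_lit 0x7dd7b446e4) (nat_lit 1058969808),
  Rx.mk (nat_lit 219) (nat_lit 3) (nat_lit 3) (nat_lit 3) (nat_lit 7) (nat_lit 106) (nat_lit 117) r1_106 r0_117 (nat_lit 0) (nat_lit 0) (nat_lit 0) (nat_lit 0x7d94a957d6) (nat_lit 1187517240)]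
noncomputable def e41_35 : List Rx := [
  Rx.mk (nat_lit 0) (nat_lit 0) (nat_lit 0) (nat_lit 0) (nat_lit 0) (nat_lit 107) (nat_lit 11) r1_107 r6_11 (nat_lit 0) (nat_lit 0) (nat_lit 0) (nat_lit 0x55073477b4) (nat_lit 21092881680),
  Rx.mk (nat_lit 3) (nat_lit 3) (nat_lit 0) (nat_lit 0) (nat_lit 1) (nat_lit 111) (nat_lit 14) r1_111 r6_14 (nat_lit 0) (nat_lit 0) (nat_lit 0) (nat_lit 0x67e0964ebc) (nat_lit 11840712624),
  Rx.mk (nat_lit 16) (nat_lit 0) (nat_lit 2) (nat_lit 0) (nat_lit 2) (nat_lit 108) (nat_lit 12) r1_108 r6_12 (nat_lit 0) (nat_lit 0) (nat_lit 0) (nat_lit 0x6c89b37840) (nat_lit 9553040640),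
  Rx.mk (nat_lit 19) (nat_lit 3) (nat_lit 2) (nat_lit 0) (nat_lit 3) (nat_lit 112) (nat_lit 15) r1_112 r6_15 (nat_lit 0) (nat_lit 0) (nat_lit 0) (nat_lit 0x7d6284da50) (nat_lit 1283660352),
  Rx.mk (nat_lit 144) (nat_lit 0) (nat_lit 2) (nat_lit 2) (nat_lit 6) (nat_lit 109) (nat_lit 13) r1_109 r6_13 (nat_lit 0) (nat_lit 0) (nat_lit 0) (nat_lit 0x7c894ceea8) (nat_lit 1700154144),
  Rx.mk (nat_lit 146) (nat_lit 2) (nat_lit 2) (nat_lit 2) (nat_lit 7) (nat_lit 110) (nat_lit 20) r1_110 r6_20 (nat_lit 0) (nat_lit 0) (nat_lit 0) (nat_lit 0x7de4f8f28c) (nat_lit 1033529328),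
  Rx.mk (nat_lit 147) (nat_lit 3) (nat_lit 2) (nat_lit 2) (nat_lit 7) (nat_lit 113) (nat_lit 19) r1_113 r6_19 (nat_lit 0) (nat_lit 0) (nat_lit 0) (nat_lit 0x7de1bde640) (nat_lit 1039723776),
  Rx.mk (nat_lit 195) (nat_lit 3) (nat_lit 0) (nat_lit 3) (nat_lit 5) (nat_lit 114) (nat_lit 16) r1_114 r6_16 (nat_lit 0) (nat_lit 0) (nat_lit 0) (nat_lit 0x6d67741b58) (nat_lit 9127853280),
  Rx.mk (nat_lit 211) (nat_lit 3) (nat_lit 2) (nat_lit 3) (nat_lit 7) (nat_lit 115) (nat_lit 18) r1_115 r6_18 (nat_lit 0) (nat_lit 0) (nat_lit 0) (nat_lit 0x7da9ea63b0) (nat_lit 1146764736),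
  Rx.mk (nat_lit 219) (nat_lit 3) (nat_lit 3) (nat_lit 3) (nat_lit 7) (nat_lit 116) (nat_lit 17) r1_116 r6_17 (nat_lit 0) (nat_lit 0) (nat_lit 0) (nat_lit 0x7ce256fdae) (nat_lit 1529430552)]
noncomputable def e41_36 : List Rx := [
  Rx.mk (nat_lit 1) (nat_lit 1) (nat_lit 0) (nat_lit 0) (nat_lit 1) (nat_lit 258) (nat_lit 115) r1_258 r2_115 (nat_lit 0) (nat_lit 0) (nat_lit 0) (nat_lit 0x64fea130f0) (nat_lit 13255669440),
  Rx.mk (nat_lit 9) (nat_lit 1) (nat_lit 1) (nat_lit 0) (nat_lit 3) (nat_lit 259) (nat_lit 116) r1_259 r2_116 (nat_lit 0) (nat_lit 0) (nat_lit 0) (nat_lit 0x7d01d9256c) (nat_lit 1469016432),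
  Rx.mk (nat_lit 17) (nat_lit 1) (nat_lit 2) (nat_lit 0) (nat_lit 3) (nat_lit 260) (nat_lit 117) r1_260 r2_117 (nat_lit 0) (nat_lit 0) (nat_lit 0) (nat_lit 0x7dc4639c02) (nat_lit 1096004520),
  Rx.mk (nat_lit 145) (nat_lit 1) (nat_lit 2) (nat_lit 2) (nat_lit 7) (nat_lit 261) (nat_lit 118) r1_261 r2_118 (nat_lit 0) (nat_lit 0) (nat_lit 0) (nat_lit 0x7deee313e0) (nat_lit 1014519168)]
noncomputable def e41_37 : List Rx := [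
  Rx.mk (nat_lit 1) (nat_lit 1) (nat_lit 0) (nat_lit 0) (nat_lit 1) (nat_lit 269) (nat_lit 83) r1_269 r8_83 (nat_lit 0) (nat_lit 0) (nat_lit 0) (nat_lit 0x6f59076032) (nat_lit 8173804392),
  Rx.mk (nat_lit 17) (nat_lit 1) (nat_lit 2) (nat_lit 0) (nat_lit 3) (nat_lit 270) (nat_lit 84) r1_270 r8_84 (nat_lit 0) (nat_lit 0) (nat_lit 0) (nat_lit 0x7dc4b5b6e0) (nat_lit 1095389568),
  Rx.mk (nat_lit 145) (nat_lit 1) (nat_lit 2) (nat_lit 2) (nat_lit 7) (nat_lit 271) (nat_lit 85) r1_271 r8_85 (nat_lit 0) (nat_lit 0) (nat_lit 0) (nat_lit 0x7de721effa) (nat_lit 1029387528)]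
noncomputable def e41_38 : List Rx := [
  Rx.mk (nat_lit 1) (nat_lit 1) (nat_lit 0) (nat_lit 0) (nat_lit 1) (nat_lit 262) (nat_lit 160) r1_262 r8_160 (nat_lit 0) (nat_lit 0) (nat_lit 0) (nat_lit 0x5e5dca2502) (nat_lit 16509183912),
  Rx.mk (nat_lit 9) (nat_lit 1) (nat_lit 1) (nat_lit 0) (nat_lit 3) (nat_lit 263) (nat_lit 161) r1_263 r8_161 (nat_lit 0) (nat_lit 0) (nat_lit 0) (nat_lit 0x7bd73b1078) (nat_lit 2041584480),
  Rx.mk (nat_lit 17) (nat_lit 1) (nat_lit 2) (nat_lit 0) (nat_lit 3) (nat_lit 264) (nat_lit 162) r1_264 r8_162 (nat_lit 0) (nat_lit 0) (nat_lit 0) (nat_lit 0x7d95c58612) (nat_lit 1185388776),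
  Rx.mk (nat_lit 65) (nat_lit 1) (nat_lit 0) (nat_lit 1) (nat_lit 5) (nat_lit 265) (nat_lit 163) r1_265 r8_163 (nat_lit 0) (nat_lit 0) (nat_lit 0) (nat_lit 0x7d825a3cda) (nat_lit 1222622856),
  Rx.mk (nat_lit 73) (nat_lit 1) (nat_lit 1) (nat_lit 1) (nat_lit 7) (nat_lit 266) (nat_lit 164) r1_266 r8_164 (nat_lit 0) (nat_lit 0) (nat_lit 0) (nat_lit 0x7d867bdabc) (nat_lit 1214701488),
  Rx.mk (nat_lit 81) (nat_lit 1) (nat_lit 2) (nat_lit 1) (nat_lit 7) (nat_lit 267) (nat_lit 165) r1_267 r8_165 (nat_lit 0) (nat_lit 0) (nat_lit 0) (nat_lit 0x7df4303f08) (nat_lit 1004354208),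
  Rx.mk (nat_lit 145) (nat_lit 1) (nat_lit 2) (nat_lit 2) (nat_lit 7) (nat_lit 268) (nat_lit 166) r1_268 r8_166 (nat_lit 0) (nat_lit 0) (nat_lit 0) (nat_lit 0x7df1600c0e) (nat_lit 1009748376)]
noncomputable def e41_39 : List Rx := [
  Rx.mk (nat_lit 0) (nat_lit 0) (nat_lit 0) (nat_lit 0) (nat_lit 0) (nat_lit 117) (nat_lit 117) r1_117 r1_117 (nat_lit 0) (nat_lit 0) (nat_lit 0) (nat_lit 0x7c410b530a) (nat_lit 1838698056),
  Rx.mk (nat_lit 1) (nat_lit 1) (nat_lit 0) (nat_lit 0) (nat_lit 1) (nat_lit 121) (nat_lit 118) r1_121 r1_118 (nat_lit 0) (nat_lit 0) (nat_lit 0) (nat_lit 0x7ce0ba377c) (nat_lit 1532522160),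
  Rx.mk (nat_lit 3) (nat_lit 3) (nat_lit 0) (nat_lit 0) (nat_lit 1) (nat_lit 126) (nat_lit 119) r1_126 r1_119 (nat_lit 0) (nat_lit 0) (nat_lit 0) (nat_lit 0x7ca72d7082) (nat_lit 1642868136),
  Rx.mk (nat_lit 8) (nat_lit 0) (nat_lit 1) (nat_lit 0) (nat_lit 2) (nat_lit 118) (nat_lit 121) r1_118 r1_121 (nat_lit 0) (nat_lit 0) (nat_lit 0) (nat_lit 0x7ce0ba377c) (nat_lit 1532522160),
  Rx.mk (nat_lit 9) (nat_lit 1) (nat_lit 1) (nat_lit 0) (nat_lit 3) (nat_lit 122) (nat_lit 122) r1_122 r1_122 (nat_lit 0) (nat_lit 0) (nat_lit 0) (nat_lit 0x7de869fb78) (nat_lit 1026930528),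
  Rx.mk (nat_lit 11) (nat_lit 3) (nat_lit 1) (nat_lit 0) (nat_lit 3) (nat_lit 127) (nat_lit 123) r1_127 r1_123 (nat_lit 0) (nat_lit 0) (nat_lit 0) (nat_lit 0x7dead0d508) (nat_lit 1022325408),
  Rx.mk (nat_lit 16) (nat_lit 0) (nat_lit 2) (nat_lit 0) (nat_lit 2) (nat_lit 119) (nat_lit 126) r1_119 r1_126 (nat_lit 0) (nat_lit 0) (nat_lit 0) (nat_lit 0x7ca72d7082) (nat_lit 1642868136),
  Rx.mk (nat_lit 17) (nat_lit 1) (nat_lit 2) (nat_lit 0) (nat_lit 3) (nat_lit 123) (nat_lit 127) r1_123 r1_127 (nat_lit 0) (nat_lit 0) (nat_lit 0) (nat_lit 0x7dead0d508) (nat_lit 1022325408),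
  Rx.mk (nat_lit 144) (nat_lit 0) (nat_lit 2) (nat_lit 2) (nat_lit 6) (nat_lit 120) (nat_lit 128) r1_120 r1_128 (nat_lit 0) (nat_lit 0) (nat_lit 0) (nat_lit 0x7d10ae380c) (nat_lit 1440577008),
  Rx.mk (nat_lit 145) (nat_lit 1) (nat_lit 2) (nat_lit 2) (nat_lit 7) (nat_lit 124) (nat_lit 129) r1_124 r1_129 (nat_lit 0) (nat_lit 0) (nat_lit 0) (nat_lit 0x7de5b9a680) (nat_lit 1032086016),
  Rx.mk (nat_lit 146) (nat_lit 2) (nat_lit 2) (nat_lit 2) (nat_lit 7) (nat_lit 125) (nat_lit 130) r1_125 r1_130 (nat_lit 0) (nat_lit 0) (nat_lit 0) (nat_lit 0x7de650bd0e) (nat_lit 1030954392),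
  Rx.mk (nat_lit 195) (nat_lit 3) (nat_lit 0) (nat_lit 3) (nat_lit 5) (nat_lit 128) (nat_lit 120) r1_128 r1_120 (nat_lit 0) (nat_lit 0) (nat_lit 0) (nat_lit 0x7d10ae380c) (nat_lit 1440577008),
  Rx.mk (nat_lit 203) (nat_lit 3) (nat_lit 1) (nat_lit 3) (nat_lit 7) (nat_lit 129) (nat_lit 124) r1_129 r1_124 (nat_lit 0) (nat_lit 0) (nat_lit 0) (nat_lit 0x7de5b9a680) (nat_lit 1032086016),
  Rx.mk (nat_lit 219) (nat_lit 3) (nat_lit 3) (nat_lit 3) (nat_lit 7) (nat_lit 130) (nat_lit 125) r1_130 r1_125 (nat_lit 0) (nat_lit 0) (nat_lit 0) (nat_lit 0x7de650bd0e) (nat_lit 1030954392)]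
noncomputable def e41_40 : List Rx := [
  Rx.mk (nat_lit 0) (nat_lit 0) (nat_lit 0) (nat_lit 0) (nat_lit 0) (nat_lit 131) (nat_lit 15) r1_131 r7_15 (nat_lit 0) (nat_lit 0) (nat_lit 0) (nat_lit 0x3a4548f130) (nat_lit 34226891712),
  Rx.mk (nat_lit 1) (nat_lit 1) (nat_lit 0) (nat_lit 0) (nat_lit 1) (nat_lit 134) (nat_lit 18) r1_134 r7_18 (nat_lit 0) (nat_lit 0) (nat_lit 0) (nat_lit 0x713c198d2c) (nat_lit 7247565936),
  Rx.mk (nat_lit 3) (nat_lit 3) (nat_lit 0) (nat_lit 0) (nat_lit 1) (nat_lit 138) (nat_lit 21) r1_138 r7_21 (nat_lit 0) (nat_lit 0) (nat_lit 0) (nat_lit 0x6d86155126) (nat_lit 9069123960),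
  Rx.mk (nat_lit 16) (nat_lit 0) (nat_lit 2) (nat_lit 0) (nat_lit 2) (nat_lit 132) (nat_lit 16) r1_132 r7_16 (nat_lit 0) (nat_lit 0) (nat_lit 0) (nat_lit 0x719cb8e2d6) (nat_lit 7062302520),
  Rx.mk (nat_lit 17) (nat_lit 1) (nat_lit 2) (nat_lit 0) (nat_lit 3) (nat_lit 135) (nat_lit 19) r1_135 r7_19 (nat_lit 0) (nat_lit 0) (nat_lit 0) (nat_lit 0x7dcb8c896c) (nat_lit 1082276208),
  Rx.mk (nat_lit 144) (nat_lit 0) (nat_lit 2) (nat_lit 2) (nat_lit 6) (nat_lit 133) (nat_lit 17) r1_133 r7_17 (nat_lit 0) (nat_lit 0) (nat_lit 0) (nat_lit 0x7d4b722b92) (nat_lit 1327900392),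
  Rx.mk (nat_lit 145) (nat_lit 1) (nat_lit 2) (nat_lit 2) (nat_lit 7) (nat_lit 136) (nat_lit 20) r1_136 r7_20 (nat_lit 0) (nat_lit 0) (nat_lit 0) (nat_lit 0x7ddfbee632) (nat_lit 1043551080),
  Rx.mk (nat_lit 146) (nat_lit 2) (nat_lit 2) (nat_lit 2) (nat_lit 7) (nat_lit 137) (nat_lit 24) r1_137 r7_24 (nat_lit 0) (nat_lit 0) (nat_lit 0) (nat_lit 0x7dd37a4a88) (nat_lit 1067073696),
  Rx.mk (nat_lit 195) (nat_lit 3) (nat_lit 0) (nat_lit 3) (nat_lit 5) (nat_lit 139) (nat_lit 22) r1_139 r7_22 (nat_lit 0) (nat_lit 0) (nat_lit 0) (nat_lit 0x78d44382f4) (nat_lit 3519833616),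
  Rx.mk (nat_lit 219) (nat_lit 3) (nat_lit 3) (nat_lit 3) (nat_lit 7) (nat_lit 140) (nat_lit 23) r1_140 r7_23 (nat_lit 0) (nat_lit 0) (nat_lit 0) (nat_lit 0x7d782dbfac) (nat_lit 1242130032)]
noncomputable def e41_41 : List Rx := [
  Rx.mk (nat_lit 3) (nat_lit 3) (nat_lit 0) (nat_lit 0) (nat_lit 1) (nat_lit 14) (nat_lit 21) r1_14 r1_21 (nat_lit 0) (nat_lit 0) (nat_lit 0) (nat_lit 0x7511bccf22) (nat_lit 5365377576),
  Rx.mk (nat_lit 19) (nat_lit 3) (nat_lit 2) (nat_lit 0) (nat_lit 3) (nat_lit 15) (nat_lit 22) r1_15 r1_22 (nat_lit 0) (nat_lit 0) (nat_lit 0) (nat_lit 0x7413b350b8) (nat_lit 5852467296),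
  Rx.mk (nat_lit 144) (nat_lit 0) (nat_lit 2) (nat_lit 2) (nat_lit 6) (nat_lit 10) (nat_lit 20) r1_10 r1_20 (nat_lit 0) (nat_lit 0) (nat_lit 0) (nat_lit 0x712bfdeef6) (nat_lit 7278451128),
  Rx.mk (nat_lit 146) (nat_lit 2) (nat_lit 2) (nat_lit 2) (nat_lit 7) (nat_lit 11) (nat_lit 29) r1_11 r1_29 (nat_lit 0) (nat_lit 0) (nat_lit 0) (nat_lit 0x763058a446) (nat_lit 4815835128),
  Rx.mk (nat_lit 147) (nat_lit 3) (nat_lit 2) (nat_lit 2) (nat_lit 7) (nat_lit 16) (nat_lit 26) r1_16 r1_26 (nat_lit 0) (nat_lit 0) (nat_lit 0) (nat_lit 0x7f02b315cc) (nat_lit 485677296),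
  Rx.mk (nat_lit 178) (nat_lit 2) (nat_lit 6) (nat_lit 2) (nat_lit 7) (nat_lit 12) (nat_lit 28) r1_12 r1_28 (nat_lit 0) (nat_lit 0) (nat_lit 0) (nat_lit 0x7c9dd0a658) (nat_lit 1660819680),
  Rx.mk (nat_lit 195) (nat_lit 3) (nat_lit 0) (nat_lit 3) (nat_lit 5) (nat_lit 17) (nat_lit 23) r1_17 r1_23 (nat_lit 0) (nat_lit 0) (nat_lit 0) (nat_lit 0x77664f23a8) (nat_lit 4221513504),
  Rx.mk (nat_lit 211) (nat_lit 3) (nat_lit 2) (nat_lit 3) (nat_lit 7) (nat_lit 18) (nat_lit 25) r1_18 r1_25 (nat_lit 0) (nat_lit 0) (nat_lit 0) (nat_lit 0x7cb7724c24) (nat_lit 1611674064),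
  Rx.mk (nat_lit 219) (nat_lit 3) (nat_lit 3) (nat_lit 3) (nat_lit 7) (nat_lit 19) (nat_lit 24) r1_19 r1_24 (nat_lit 0) (nat_lit 0) (nat_lit 0) (nat_lit 0x7be9926af0) (nat_lit 2006417088),
  Rx.mk (nat_lit 223) (nat_lit 7) (nat_lit 3) (nat_lit 3) (nat_lit 7) (nat_lit 27) (nat_lit 13) r1_27 r1_13 (nat_lit 0) (nat_lit 0) (nat_lit 0) (nat_lit 0x7e13742aaa) (nat_lit 944406216),
  Rx.mk (nat_lit 294) (nat_lit 6) (nat_lit 4) (nat_lit 4) (nat_lit 1) (nat_lit 21) (nat_lit 14) r1_21 r1_14 (nat_lit 0) (nat_lit 0) (nat_lit 0) (nat_lit 0x7511bccf22) (nat_lit 5365377576),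
  Rx.mk (nat_lit 318) (nat_lit 6) (nat_lit 7) (nat_lit 4) (nat_lit 3) (nat_lit 22) (nat_lit 15) r1_22 r1_15 (nat_lit 0) (nat_lit 0) (nat_lit 0) (nat_lit 0x7413b350b8) (nat_lit 5852467296),
  Rx.mk (nat_lit 422) (nat_lit 6) (nat_lit 4) (nat_lit 6) (nat_lit 5) (nat_lit 23) (nat_lit 17) r1_23 r1_17 (nat_lit 0) (nat_lit 0) (nat_lit 0) (nat_lit 0x77664f23a8) (nat_lit 4221513504),
  Rx.mk (nat_lit 434) (nat_lit 2) (nat_lit 6) (nat_lit 6) (nat_lit 7) (nat_lit 13) (nat_lit 27) r1_13 r1_27 (nat_lit 0) (nat_lit 0) (nat_lit 0) (nat_lit 0x7e13742aaa) (nat_lit 944406216),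
  Rx.mk (nat_lit 438) (nat_lit 6) (nat_lit 6) (nat_lit 6) (nat_lit 7) (nat_lit 24) (nat_lit 19) r1_24 r1_19 (nat_lit 0) (nat_lit 0) (nat_lit 0) (nat_lit 0x7be9926af0) (nat_lit 2006417088),
  Rx.mk (nat_lit 446) (nat_lit 6) (nat_lit 7) (nat_lit 6) (nat_lit 7) (nat_lit 25) (nat_lit 18) r1_25 r1_18 (nat_lit 0) (nat_lit 0) (nat_lit 0) (nat_lit 0x7cb7724c24) (nat_lit 1611674064),
  Rx.mk (nat_lit 479) (nat_lit 7) (nat_lit 3) (nat_lit 7) (nat_lit 7) (nat_lit 28) (nat_lit 12) r1_28 r1_12 (nat_lit 0) (nat_lit 0) (nat_lit 0) (nat_lit 0x7c9dd0a658) (nat_lit 1660819680),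
  Rx.mk (nat_lit 508) (nat_lit 4) (nat_lit 7) (nat_lit 7) (nat_lit 6) (nat_lit 20) (nat_lit 10) r1_20 r1_10 (nat_lit 0) (nat_lit 0) (nat_lit 0) (nat_lit 0x712bfdeef6) (nat_lit 7278451128),
  Rx.mk (nat_lit 510) (nat_lit 6) (nat_lit 7) (nat_lit 7) (nat_lit 7) (nat_lit 26) (nat_lit 16) r1_26 r1_16 (nat_lit 0) (nat_lit 0) (nat_lit 0) (nat_lit 0x7f02b315cc) (nat_lit 485677296),
  Rx.mk (nat_lit 511) (nat_lit 7) (nat_lit 7) (nat_lit 7) (nat_lit 7) (nat_lit 29) (nat_lit 11) r1_29 r1_11 (nat_lit 0) (nat_lit 0) (nat_lit 0) (nat_lit 0x763058a446) (nat_lit 4815835128)]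
noncomputable def e41_42 : List Rx := [
  Rx.mk (nat_lit 294) (nat_lit 6) (nat_lit 4) (nat_lit 4) (nat_lit 1) (nat_lit 33) (nat_lit 16) r1_33 r2_16 (nat_lit 0) (nat_lit 0) (nat_lit 0) (nat_lit 0x70f45ca942) (nat_lit 7385115816),
  Rx.mk (nat_lit 422) (nat_lit 6) (nat_lit 4) (nat_lit 6) (nat_lit 5) (nat_lit 34) (nat_lit 19) r1_34 r2_19 (nat_lit 0) (nat_lit 0) (nat_lit 0) (nat_lit 0x7d5dee43be) (nat_lit 1292457816),
  Rx.mk (nat_lit 434) (nat_lit 2) (nat_lit 6) (nat_lit 6) (nat_lit 7) (nat_lit 30) (nat_lit 21) r1_30 r2_21 (nat_lit 0) (nat_lit 0) (nat_lit 0) (nat_lit 0x7de7ede33a) (nat_lit 1027859976),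
  Rx.mk (nat_lit 438) (nat_lit 6) (nat_lit 6) (nat_lit 6) (nat_lit 7) (nat_lit 35) (nat_lit 20) r1_35 r2_20 (nat_lit 0) (nat_lit 0) (nat_lit 0) (nat_lit 0x7dad1d3080) (nat_lit 1140632064),
  Rx.mk (nat_lit 484) (nat_lit 4) (nat_lit 4) (nat_lit 7) (nat_lit 4) (nat_lit 31) (nat_lit 13) r1_31 r2_13 (nat_lit 0) (nat_lit 0) (nat_lit 0) (nat_lit 0x68c0f427fe) (nat_lit 11410512984),
  Rx.mk (nat_lit 486) (nat_lit 6) (nat_lit 4) (nat_lit 7) (nat_lit 5) (nat_lit 36) (nat_lit 17) r1_36 r2_17 (nat_lit 0) (nat_lit 0) (nat_lit 0) (nat_lit 0x7e35c32598) (nat_lit 878623200),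
  Rx.mk (nat_lit 508) (nat_lit 4) (nat_lit 7) (nat_lit 7) (nat_lit 6) (nat_lit 32) (nat_lit 14) r1_32 r2_14 (nat_lit 0) (nat_lit 0) (nat_lit 0) (nat_lit 0x7d4e539d78) (nat_lit 1322377056),
  Rx.mk (nat_lit 510) (nat_lit 6) (nat_lit 7) (nat_lit 7) (nat_lit 7) (nat_lit 37) (nat_lit 18) r1_37 r2_18 (nat_lit 0) (nat_lit 0) (nat_lit 0) (nat_lit 0x7de79fe81a) (nat_lit 1028444040),
  Rx.mk (nat_lit 511) (nat_lit 7) (nat_lit 7) (nat_lit 7) (nat_lit 7) (nat_lit 38) (nat_lit 15) r1_38 r2_15 (nat_lit 0) (nat_lit 0) (nat_lit 0) (nat_lit 0x7dd4655bd6) (nat_lit 1065313080)]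
noncomputable def e41_43 : List Rx := [
  Rx.mk (nat_lit 0) (nat_lit 0) (nat_lit 0) (nat_lit 0) (nat_lit 0) (nat_lit 141) (nat_lit 90) r1_141 r7_90 (nat_lit 0) (nat_lit 0) (nat_lit 0) (nat_lit 0x3f2c1ddefa) (nat_lit 31820882184),
  Rx.mk (nat_lit 3) (nat_lit 3) (nat_lit 0) (nat_lit 0) (nat_lit 1) (nat_lit 147) (nat_lit 91) r1_147 r7_91 (nat_lit 0) (nat_lit 0) (nat_lit 0) (nat_lit 0x6698457512) (nat_lit 12470224104),
  Rx.mk (nat_lit 16) (nat_lit 0) (nat_lit 2) (nat_lit 0) (nat_lit 2) (nat_lit 142) (nat_lit 94) r1_142 r7_94 (nat_lit 0) (nat_lit 0) (nat_lit 0) (nat_lit 0x60f77387d2) (nat_lit 15232846824),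
  Rx.mk (nat_lit 19) (nat_lit 3) (nat_lit 2) (nat_lit 0) (nat_lit 3) (nat_lit 148) (nat_lit 95) r1_148 r7_95 (nat_lit 0) (nat_lit 0) (nat_lit 0) (nat_lit 0x7d04f5d39e) (nat_lit 1463049432),
  Rx.mk (nat_lit 144) (nat_lit 0) (nat_lit 2) (nat_lit 2) (nat_lit 6) (nat_lit 143) (nat_lit 97) r1_143 r7_97 (nat_lit 0) (nat_lit 0) (nat_lit 0) (nat_lit 0x79f20f451a) (nat_lit 2971849608),
  Rx.mk (nat_lit 146) (nat_lit 2) (nat_lit 2) (nat_lit 2) (nat_lit 7) (nat_lit 144) (nat_lit 99) r1_144 r7_99 (nat_lit 0) (nat_lit 0) (nat_lit 0) (nat_lit 0x7dd6fab27e) (nat_lit 1060359768),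
  Rx.mk (nat_lit 147) (nat_lit 3) (nat_lit 2) (nat_lit 2) (nat_lit 7) (nat_lit 149) (nat_lit 98) r1_149 r7_98 (nat_lit 0) (nat_lit 0) (nat_lit 0) (nat_lit 0x7df4f572b4) (nat_lit 1002877200),
  Rx.mk (nat_lit 178) (nat_lit 2) (nat_lit 6) (nat_lit 2) (nat_lit 7) (nat_lit 145) (nat_lit 100) r1_145 r7_100 (nat_lit 0) (nat_lit 0) (nat_lit 0) (nat_lit 0x7dec661bb2) (nat_lit 1019289960),
  Rx.mk (nat_lit 195) (nat_lit 3) (nat_lit 0) (nat_lit 3) (nat_lit 5) (nat_lit 150) (nat_lit 92) r1_150 r7_92 (nat_lit 0) (nat_lit 0) (nat_lit 0) (nat_lit 0x6657bb3df6) (nat_lit 12593972664),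
  Rx.mk (nat_lit 211) (nat_lit 3) (nat_lit 2) (nat_lit 3) (nat_lit 7) (nat_lit 151) (nat_lit 96) r1_151 r7_96 (nat_lit 0) (nat_lit 0) (nat_lit 0) (nat_lit 0x7d83c7c600) (nat_lit 1219885056),
  Rx.mk (nat_lit 219) (nat_lit 3) (nat_lit 3) (nat_lit 3) (nat_lit 7) (nat_lit 152) (nat_lit 93) r1_152 r7_93 (nat_lit 0) (nat_lit 0) (nat_lit 0) (nat_lit 0x7cef2530be) (nat_lit 1504877400),
  Rx.mk (nat_lit 434) (nat_lit 2) (nat_lit 6) (nat_lit 6) (nat_lit 7) (nat_lit 146) (nat_lit 101) r1_146 r7_101 (nat_lit 0) (nat_lit 0) (nat_lit 0) (nat_lit 0x7db6f07342) (nat_lit 1121793192)]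
noncomputable def e41_44 : List Rx := [
  Rx.mk (nat_lit 434) (nat_lit 2) (nat_lit 6) (nat_lit 6) (nat_lit 7) (nat_lit 153) (nat_lit 1) r1_153 r8_1 (nat_lit 0) (nat_lit 0) (nat_lit 0) (nat_lit 0x7de94bad5c) (nat_lit 1025240112)]
noncomputable def e41_45 : List Rx := [
  Rx.mk (nat_lit 292) (nat_lit 4) (nat_lit 4) (nat_lit 4) (nat_lit 0) (nat_lit 170) (nat_lit 40) r1_170 r8_40 (nat_lit 0) (nat_lit 0) (nat_lit 0) (nat_lit 0x26a0315650) (nat_lit 43869653568),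
  Rx.mk (nat_lit 294) (nat_lit 6) (nat_lit 4) (nat_lit 4) (nat_lit 1) (nat_lit 173) (nat_lit 41) r1_173 r8_41 (nat_lit 0) (nat_lit 0) (nat_lit 0) (nat_lit 0x67ac0677ee) (nat_lit 11941494552),
  Rx.mk (nat_lit 422) (nat_lit 6) (nat_lit 4) (nat_lit 6) (nat_lit 5) (nat_lit 174) (nat_lit 48) r1_174 r8_48 (nat_lit 0) (nat_lit 0) (nat_lit 0) (nat_lit 0x7d65dd24c8) (nat_lit 1277246880),
  Rx.mk (nat_lit 434) (nat_lit 2) (nat_lit 6) (nat_lit 6) (nat_lit 7) (nat_lit 169) (nat_lit 47) r1_169 r8_47 (nat_lit 0) (nat_lit 0) (nat_lit 0) (nat_lit 0x7df3ef031c) (nat_lit 1004842800),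
  Rx.mk (nat_lit 438) (nat_lit 6) (nat_lit 6) (nat_lit 6) (nat_lit 7) (nat_lit 175) (nat_lit 49) r1_175 r8_49 (nat_lit 0) (nat_lit 0) (nat_lit 0) (nat_lit 0x7dbc1ee056) (nat_lit 1111858488),
  Rx.mk (nat_lit 484) (nat_lit 4) (nat_lit 4) (nat_lit 7) (nat_lit 4) (nat_lit 171) (nat_lit 42) r1_171 r8_42 (nat_lit 0) (nat_lit 0) (nat_lit 0) (nat_lit 0x6aa9b3da1a) (nat_lit 10473387912),
  Rx.mk (nat_lit 486) (nat_lit 6) (nat_lit 4) (nat_lit 7) (nat_lit 5) (nat_lit 176) (nat_lit 45) r1_176 r8_45 (nat_lit 0) (nat_lit 0) (nat_lit 0) (nat_lit 0x7dc7b886b0) (nat_lit 1089616320),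
  Rx.mk (nat_lit 508) (nat_lit 4) (nat_lit 7) (nat_lit 7) (nat_lit 6) (nat_lit 172) (nat_lit 43) r1_172 r8_43 (nat_lit 0) (nat_lit 0) (nat_lit 0) (nat_lit 0x7ccbdaa58a) (nat_lit 1572544584),
  Rx.mk (nat_lit 510) (nat_lit 6) (nat_lit 7) (nat_lit 7) (nat_lit 7) (nat_lit 177) (nat_lit 46) r1_177 r8_46 (nat_lit 0) (nat_lit 0) (nat_lit 0) (nat_lit 0x7de6d574c2) (nat_lit 1029960360),
  Rx.mk (nat_lit 511) (nat_lit 7) (nat_lit 7) (nat_lit 7) (nat_lit 7) (nat_lit 178) (nat_lit 44) r1_178 r8_44 (nat_lit 0) (nat_lit 0) (nat_lit 0) (nat_lit 0x7d9c4f7d6c) (nat_lit 1172851056)]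
noncomputable def e41_46 : List Rx := [
  Rx.mk (nat_lit 3) (nat_lit 3) (nat_lit 0) (nat_lit 0) (nat_lit 1) (nat_lit 50) (nat_lit 16) r1_50 r4_16 (nat_lit 0) (nat_lit 0) (nat_lit 0) (nat_lit 0x6d02538dc6) (nat_lit 9321754104),
  Rx.mk (nat_lit 19) (nat_lit 3) (nat_lit 2) (nat_lit 0) (nat_lit 3) (nat_lit 51) (nat_lit 17) r1_51 r4_17 (nat_lit 0) (nat_lit 0) (nat_lit 0) (nat_lit 0x7e22f55288) (nat_lit 914677920),
  Rx.mk (nat_lit 147) (nat_lit 3) (nat_lit 2) (nat_lit 2) (nat_lit 7) (nat_lit 52) (nat_lit 20) r1_52 r4_20 (nat_lit 0) (nat_lit 0) (nat_lit 0) (nat_lit 0x7eccb0762c) (nat_lit 589236336),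
  Rx.mk (nat_lit 195) (nat_lit 3) (nat_lit 0) (nat_lit 3) (nat_lit 5) (nat_lit 53) (nat_lit 18) r1_53 r4_18 (nat_lit 0) (nat_lit 0) (nat_lit 0) (nat_lit 0x7dd783e9ea) (nat_lit 1059332040),
  Rx.mk (nat_lit 199) (nat_lit 7) (nat_lit 0) (nat_lit 3) (nat_lit 5) (nat_lit 55) (nat_lit 14) r1_55 r4_14 (nat_lit 0) (nat_lit 0) (nat_lit 0) (nat_lit 0x7cf02600b0) (nat_lit 1502953920),
  Rx.mk (nat_lit 211) (nat_lit 3) (nat_lit 2) (nat_lit 3) (nat_lit 7) (nat_lit 54) (nat_lit 19) r1_54 r4_19 (nat_lit 0) (nat_lit 0) (nat_lit 0) (nat_lit 0x7e01526cd8) (nat_lit 979172064),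
  Rx.mk (nat_lit 223) (nat_lit 7) (nat_lit 3) (nat_lit 3) (nat_lit 7) (nat_lit 56) (nat_lit 15) r1_56 r4_15 (nat_lit 0) (nat_lit 0) (nat_lit 0) (nat_lit 0x7e11b186d6) (nat_lit 947781432),
  Rx.mk (nat_lit 479) (nat_lit 7) (nat_lit 3) (nat_lit 7) (nat_lit 7) (nat_lit 57) (nat_lit 13) r1_57 r4_13 (nat_lit 0) (nat_lit 0) (nat_lit 0) (nat_lit 0x7df4fbd24e) (nat_lit 1002829464)]
noncomputable def e41_47 : List Rx := [
  Rx.mk (nat_lit 3) (nat_lit 3) (nat_lit 0) (nat_lit 0) (nat_lit 1) (nat_lit 154) (nat_lit 107) r1_154 r4_107 (nat_lit 0) (nat_lit 0) (nat_lit 0) (nat_lit 0x74634ad6f0) (nat_lit 5699858112),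
  Rx.mk (nat_lit 11) (nat_lit 3) (nat_lit 1) (nat_lit 0) (nat_lit 3) (nat_lit 155) (nat_lit 109) r1_155 r4_109 (nat_lit 0) (nat_lit 0) (nat_lit 0) (nat_lit 0x7dc2547cf6) (nat_lit 1099952568),
  Rx.mk (nat_lit 19) (nat_lit 3) (nat_lit 2) (nat_lit 0) (nat_lit 3) (nat_lit 156) (nat_lit 111) r1_156 r4_111 (nat_lit 0) (nat_lit 0) (nat_lit 0) (nat_lit 0x7e11d58496) (nat_lit 947511864),
  Rx.mk (nat_lit 147) (nat_lit 3) (nat_lit 2) (nat_lit 2) (nat_lit 7) (nat_lit 157) (nat_lit 113) r1_157 r4_113 (nat_lit 0) (nat_lit 0) (nat_lit 0) (nat_lit 0x7df3f3e2ce) (nat_lit 1004806296),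
  Rx.mk (nat_lit 195) (nat_lit 3) (nat_lit 0) (nat_lit 3) (nat_lit 5) (nat_lit 158) (nat_lit 108) r1_158 r4_108 (nat_lit 0) (nat_lit 0) (nat_lit 0) (nat_lit 0x727dbfd186) (nat_lit 6630836472),
  Rx.mk (nat_lit 203) (nat_lit 3) (nat_lit 1) (nat_lit 3) (nat_lit 7) (nat_lit 159) (nat_lit 110) r1_159 r4_110 (nat_lit 0) (nat_lit 0) (nat_lit 0) (nat_lit 0x7dbbbc4680) (nat_lit 1112596992),
  Rx.mk (nat_lit 211) (nat_lit 3) (nat_lit 2) (nat_lit 3) (nat_lit 7) (nat_lit 160) (nat_lit 112) r1_160 r4_112 (nat_lit 0) (nat_lit 0) (nat_lit 0) (nat_lit 0x7dbe303f3e) (nat_lit 1107893592)]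
noncomputable def e41_48 : List Rx := [
  Rx.mk (nat_lit 3) (nat_lit 3) (nat_lit 0) (nat_lit 0) (nat_lit 1) (nat_lit 161) (nat_lit 5) r1_161 r9_5 (nat_lit 0) (nat_lit 0) (nat_lit 0) (nat_lit 0x6ef8548bc0) (nat_lit 8359213824),
  Rx.mk (nat_lit 19) (nat_lit 3) (nat_lit 2) (nat_lit 0) (nat_lit 3) (nat_lit 162) (nat_lit 6) r1_162 r9_6 (nat_lit 0) (nat_lit 0) (nat_lit 0) (nat_lit 0x7d8f13d134) (nat_lit 1198224144),
  Rx.mk (nat_lit 147) (nat_lit 3) (nat_lit 2) (nat_lit 2) (nat_lit 7) (nat_lit 163) (nat_lit 9) r1_163 r9_9 (nat_lit 0) (nat_lit 0) (nat_lit 0) (nat_lit 0x7dfc5f3c10) (nat_lit 988663104),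
  Rx.mk (nat_lit 195) (nat_lit 3) (nat_lit 0) (nat_lit 3) (nat_lit 5) (nat_lit 164) (nat_lit 7) r1_164 r9_7 (nat_lit 0) (nat_lit 0) (nat_lit 0) (nat_lit 0x7303d06ff6) (nat_lit 6373780920),
  Rx.mk (nat_lit 211) (nat_lit 3) (nat_lit 2) (nat_lit 3) (nat_lit 7) (nat_lit 165) (nat_lit 8) r1_165 r9_8 (nat_lit 0) (nat_lit 0) (nat_lit 0) (nat_lit 0x7da7a24834) (nat_lit 1151139600)]
noncomputable def e41_49 : List Rx := [
  Rx.mk (nat_lit 195) (nat_lit 3) (nat_lit 0) (nat_lit 3) (nat_lit 5) (nat_lit 166) (nat_lit 2) r1_166 r10_2 (nat_lit 0) (nat_lit 0) (nat_lit 0) (nat_lit 0x7d62cfd5a0) (nat_lit 1283098752),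
  Rx.mk (nat_lit 203) (nat_lit 3) (nat_lit 1) (nat_lit 3) (nat_lit 7) (nat_lit 167) (nat_lit 3) r1_167 r10_3 (nat_lit 0) (nat_lit 0) (nat_lit 0) (nat_lit 0x7dfa55bcaa) (nat_lit 992569032),
  Rx.mk (nat_lit 211) (nat_lit 3) (nat_lit 2) (nat_lit 3) (nat_lit 7) (nat_lit 168) (nat_lit 4) r1_168 r10_4 (nat_lit 0) (nat_lit 0) (nat_lit 0) (nat_lit 0x7ddc34bed8) (nat_lit 1050338016)]
noncomputable def e41_50 : List Rx := [
  Rx.mk (nat_lit 3) (nat_lit 3) (nat_lit 0) (nat_lit 0) (nat_lit 1) (nat_lit 234) (nat_lit 107) r1_234 r10_107 (nat_lit 0) (nat_lit 0) (nat_lit 0) (nat_lit 0x79f253e0d0) (nat_lit 2971335744),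
  Rx.mk (nat_lit 7) (nat_lit 7) (nat_lit 0) (nat_lit 0) (nat_lit 1) (nat_lit 237) (nat_lit 108) r1_237 r10_108 (nat_lit 0) (nat_lit 0) (nat_lit 0) (nat_lit 0x6afa16f398) (nat_lit 10319253984),
  Rx.mk (nat_lit 19) (nat_lit 3) (nat_lit 2) (nat_lit 0) (nat_lit 3) (nat_lit 235) (nat_lit 111) r1_235 r10_111 (nat_lit 0) (nat_lit 0) (nat_lit 0) (nat_lit 0x7de322cff0) (nat_lit 1037050560),
  Rx.mk (nat_lit 147) (nat_lit 3) (nat_lit 2) (nat_lit 2) (nat_lit 7) (nat_lit 236) (nat_lit 112) r1_236 r10_112 (nat_lit 0) (nat_lit 0) (nat_lit 0) (nat_lit 0x7e36429da0) (nat_lit 877668480),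
  Rx.mk (nat_lit 199) (nat_lit 7) (nat_lit 0) (nat_lit 3) (nat_lit 5) (nat_lit 238) (nat_lit 109) r1_238 r10_109 (nat_lit 0) (nat_lit 0) (nat_lit 0) (nat_lit 0x7dd597a8b0) (nat_lit 1063018944),
  Rx.mk (nat_lit 223) (nat_lit 7) (nat_lit 3) (nat_lit 3) (nat_lit 7) (nat_lit 239) (nat_lit 110) r1_239 r10_110 (nat_lit 0) (nat_lit 0) (nat_lit 0) (nat_lit 0x7de4773aa8) (nat_lit 1034500896)]
noncomputable def e41_51 : List Rx := [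
  Rx.mk (nat_lit 204) (nat_lit 4) (nat_lit 1) (nat_lit 3) (nat_lit 6) (nat_lit 302) (nat_lit 273) r1_302 r12_273 (nat_lit 0) (nat_lit 0) (nat_lit 0) (nat_lit 0x7e59f0e298) (nat_lit 809254368),
  Rx.mk (nat_lit 205) (nat_lit 5) (nat_lit 1) (nat_lit 3) (nat_lit 7) (nat_lit 303) (nat_lit 274) r1_303 r12_274 (nat_lit 0) (nat_lit 0) (nat_lit 0) (nat_lit 0x7d5c1b80ec) (nat_lit 1295953776)]
noncomputable def e41_52 : List Rx := [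
  Rx.mk (nat_lit 460) (nat_lit 4) (nat_lit 1) (nat_lit 7) (nat_lit 6) (nat_lit 242) (nat_lit 268) r1_242 r12_268 (nat_lit 0) (nat_lit 0) (nat_lit 0) (nat_lit 0x8000000000) (nat_lit 0),
  Rx.mk (nat_lit 492) (nat_lit 4) (nat_lit 5) (nat_lit 7) (nat_lit 6) (nat_lit 243) (nat_lit 267) r1_243 r12_267 (nat_lit 0) (nat_lit 0) (nat_lit 0) (nat_lit 0x7d19eca41c) (nat_lit 1422852912)]
noncomputable def e41_53 : List Rx := [
  Rx.mk (nat_lit 12) (nat_lit 4) (nat_lit 1) (nat_lit 0) (nat_lit 2) (nat_lit 310) (nat_lit 164) r1_310 r12_164 (nat_lit 0) (nat_lit 0) (nat_lit 0) (nat_lit 0x776b6e91ac) (nat_lit 4211691120),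
  Rx.mk (nat_lit 13) (nat_lit 5) (nat_lit 1) (nat_lit 0) (nat_lit 3) (nat_lit 312) (nat_lit 165) r1_312 r12_165 (nat_lit 0) (nat_lit 0) (nat_lit 0) (nat_lit 0x7da1e863d8) (nat_lit 1162118880),
  Rx.mk (nat_lit 15) (nat_lit 7) (nat_lit 1) (nat_lit 0) (nat_lit 3) (nat_lit 314) (nat_lit 166) r1_314 r12_166 (nat_lit 0) (nat_lit 0) (nat_lit 0) (nat_lit 0x7decb6b6a8) (nat_lit 1018686240),
  Rx.mk (nat_lit 204) (nat_lit 4) (nat_lit 1) (nat_lit 3) (nat_lit 6) (nat_lit 311) (nat_lit 167) r1_311 r12_167 (nat_lit 0) (nat_lit 0) (nat_lit 0) (nat_lit 0x7e69f1827e) (nat_lit 778571352),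
  Rx.mk (nat_lit 205) (nat_lit 5) (nat_lit 1) (nat_lit 3) (nat_lit 7) (nat_lit 313) (nat_lit 168) r1_313 r12_168 (nat_lit 0) (nat_lit 0) (nat_lit 0) (nat_lit 0x7db533cf0e) (nat_lit 1125123480)]
noncomputable def e41_54 : List Rx := [
  Rx.mk (nat_lit 460) (nat_lit 4) (nat_lit 1) (nat_lit 7) (nat_lit 6) (nat_lit 91) (nat_lit 63) r1_91 r12_63 (nat_lit 0) (nat_lit 0) (nat_lit 0) (nat_lit 0x7a1ced3710) (nat_lit 2889656640),
  Rx.mk (nat_lit 463) (nat_lit 7) (nat_lit 1) (nat_lit 7) (nat_lit 7) (nat_lit 92) (nat_lit 64) r1_92 r12_64 (nat_lit 0) (nat_lit 0) (nat_lit 0) (nat_lit 0x7adb1c5360) (nat_lit 2524998528),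
  Rx.mk (nat_lit 495) (nat_lit 7) (nat_lit 5) (nat_lit 7) (nat_lit 7) (nat_lit 93) (nat_lit 65) r1_93 r12_65 (nat_lit 0) (nat_lit 0) (nat_lit 0) (nat_lit 0x7e7f436d4a) (nat_lit 737692488)]
noncomputable def e41_55 : List Rx := [
  Rx.mk (nat_lit 3) (nat_lit 3) (nat_lit 0) (nat_lit 0) (nat_lit 1) (nat_lit 39) (nat_lit 13) r1_39 r3_13 (nat_lit 0) (nat_lit 0) (nat_lit 0) (nat_lit 0x8000000000) (nat_lit 0),
  Rx.mk (nat_lit 11) (nat_lit 3) (nat_lit 1) (nat_lit 0) (nat_lit 3) (nat_lit 40) (nat_lit 14) r1_40 r3_14 (nat_lit 0) (nat_lit 0) (nat_lit 0) (nat_lit 0x7ecc02e106) (nat_lit 590536440),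
  Rx.mk (nat_lit 19) (nat_lit 3) (nat_lit 2) (nat_lit 0) (nat_lit 3) (nat_lit 41) (nat_lit 15) r1_41 r3_15 (nat_lit 0) (nat_lit 0) (nat_lit 0) (nat_lit 0x7e2853bc9c) (nat_lit 904383792),
  Rx.mk (nat_lit 147) (nat_lit 3) (nat_lit 2) (nat_lit 2) (nat_lit 7) (nat_lit 42) (nat_lit 19) r1_42 r3_19 (nat_lit 0) (nat_lit 0) (nat_lit 0) (nat_lit 0x7efab4d5b8) (nat_lit 501003360),
  Rx.mk (nat_lit 195) (nat_lit 3) (nat_lit 0) (nat_lit 3) (nat_lit 5) (nat_lit 43) (nat_lit 16) r1_43 r3_16 (nat_lit 0) (nat_lit 0) (nat_lit 0) (nat_lit 0x7d89c9a5dc) (nat_lit 1208366640),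
  Rx.mk (nat_lit 199) (nat_lit 7) (nat_lit 0) (nat_lit 3) (nat_lit 5) (nat_lit 46) (nat_lit 10) r1_46 r3_10 (nat_lit 0) (nat_lit 0) (nat_lit 0) (nat_lit 0x7c72d45648) (nat_lit 1743240096),
  Rx.mk (nat_lit 203) (nat_lit 3) (nat_lit 1) (nat_lit 3) (nat_lit 7) (nat_lit 44) (nat_lit 17) r1_44 r3_17 (nat_lit 0) (nat_lit 0) (nat_lit 0) (nat_lit 0x7ed104b0e4) (nat_lit 580935888),
  Rx.mk (nat_lit 207) (nat_lit 7) (nat_lit 1) (nat_lit 3) (nat_lit 7) (nat_lit 47) (nat_lit 11) r1_47 r3_11 (nat_lit 0) (nat_lit 0) (nat_lit 0) (nat_lit 0x7f3b894830) (nat_lit 376698816),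
  Rx.mk (nat_lit 211) (nat_lit 3) (nat_lit 2) (nat_lit 3) (nat_lit 7) (nat_lit 45) (nat_lit 18) r1_45 r3_18 (nat_lit 0) (nat_lit 0) (nat_lit 0) (nat_lit 0x7e3f27cf44) (nat_lit 860612688),
  Rx.mk (nat_lit 223) (nat_lit 7) (nat_lit 3) (nat_lit 3) (nat_lit 7) (nat_lit 48) (nat_lit 12) r1_48 r3_12 (nat_lit 0) (nat_lit 0) (nat_lit 0) (nat_lit 0x7ee53b2d68) (nat_lit 542179872),
  Rx.mk (nat_lit 479) (nat_lit 7) (nat_lit 3) (nat_lit 7) (nat_lit 7) (nat_lit 49) (nat_lit 9) r1_49 r3_9 (nat_lit 0) (nat_lit 0) (nat_lit 0) (nat_lit 0x7e2ce9f334) (nat_lit 895589136)]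
noncomputable def e41_56 : List Rx := [
  Rx.mk (nat_lit 195) (nat_lit 3) (nat_lit 0) (nat_lit 3) (nat_lit 5) (nat_lit 58) (nat_lit 11) r1_58 r12_11 (nat_lit 0) (nat_lit 0) (nat_lit 0) (nat_lit 0x76758bd0ce) (nat_lit 4683151512),
  Rx.mk (nat_lit 199) (nat_lit 7) (nat_lit 0) (nat_lit 3) (nat_lit 5) (nat_lit 61) (nat_lit 9) r1_61 r12_9 (nat_lit 0) (nat_lit 0) (nat_lit 0) (nat_lit 0x7a959c4ba6) (nat_lit 2658257784),
  Rx.mk (nat_lit 203) (nat_lit 3) (nat_lit 1) (nat_lit 3) (nat_lit 7) (nat_lit 59) (nat_lit 12) r1_59 r12_12 (nat_lit 0) (nat_lit 0) (nat_lit 0) (nat_lit 0x7e4f838978) (nat_lit 829247328),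
  Rx.mk (nat_lit 207) (nat_lit 7) (nat_lit 1) (nat_lit 3) (nat_lit 7) (nat_lit 62) (nat_lit 10) r1_62 r12_10 (nat_lit 0) (nat_lit 0) (nat_lit 0) (nat_lit 0x7effe88278) (nat_lit 491029344),
  Rx.mk (nat_lit 211) (nat_lit 3) (nat_lit 2) (nat_lit 3) (nat_lit 7) (nat_lit 60) (nat_lit 13) r1_60 r12_13 (nat_lit 0) (nat_lit 0) (nat_lit 0) (nat_lit 0x7d35e3e48c) (nat_lit 1369231344),
  Rx.mk (nat_lit 455) (nat_lit 7) (nat_lit 0) (nat_lit 7) (nat_lit 5) (nat_lit 63) (nat_lit 6) r1_63 r12_6 (nat_lit 0) (nat_lit 0) (nat_lit 0) (nat_lit 0x7a1cc1b9c8) (nat_lit 2889982368),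
  Rx.mk (nat_lit 463) (nat_lit 7) (nat_lit 1) (nat_lit 7) (nat_lit 7) (nat_lit 64) (nat_lit 7) r1_64 r12_7 (nat_lit 0) (nat_lit 0) (nat_lit 0) (nat_lit 0x7e3ee0f3b2) (nat_lit 861143400),
  Rx.mk (nat_lit 479) (nat_lit 7) (nat_lit 3) (nat_lit 7) (nat_lit 7) (nat_lit 65) (nat_lit 8) r1_65 r12_8 (nat_lit 0) (nat_lit 0) (nat_lit 0) (nat_lit 0x7c03ca075c) (nat_lit 1956148272)]
noncomputable def e41_57 : List Rx := [
  Rx.mk (nat_lit 3) (nat_lit 3) (nat_lit 0) (nat_lit 0) (nat_lit 1) (nat_lit 225) (nat_lit 106) r1_225 r12_106 (nat_lit 0) (nat_lit 0) (nat_lit 0) (nat_lit 0x8000000000) (nat_lit 0),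
  Rx.mk (nat_lit 7) (nat_lit 7) (nat_lit 0) (nat_lit 0) (nat_lit 1) (nat_lit 229) (nat_lit 107) r1_229 r12_107 (nat_lit 0) (nat_lit 0) (nat_lit 0) (nat_lit 0x71c5b3f2fc) (nat_lit 6983726256),
  Rx.mk (nat_lit 11) (nat_lit 3) (nat_lit 1) (nat_lit 0) (nat_lit 3) (nat_lit 226) (nat_lit 109) r1_226 r12_109 (nat_lit 0) (nat_lit 0) (nat_lit 0) (nat_lit 0x7eb6a736d6) (nat_lit 631488312),
  Rx.mk (nat_lit 15) (nat_lit 7) (nat_lit 1) (nat_lit 0) (nat_lit 3) (nat_lit 230) (nat_lit 110) r1_230 r12_110 (nat_lit 0) (nat_lit 0) (nat_lit 0) (nat_lit 0x7dfcd1f4e4) (nat_lit 987803856),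
  Rx.mk (nat_lit 19) (nat_lit 3) (nat_lit 2) (nat_lit 0) (nat_lit 3) (nat_lit 227) (nat_lit 113) r1_227 r12_113 (nat_lit 0) (nat_lit 0) (nat_lit 0) (nat_lit 0x7dc65abc8e) (nat_lit 1092236184),
  Rx.mk (nat_lit 147) (nat_lit 3) (nat_lit 2) (nat_lit 2) (nat_lit 7) (nat_lit 228) (nat_lit 114) r1_228 r12_114 (nat_lit 0) (nat_lit 0) (nat_lit 0) (nat_lit 0x7d334cae02) (nat_lit 1374198696),
  Rx.mk (nat_lit 199) (nat_lit 7) (nat_lit 0) (nat_lit 3) (nat_lit 5) (nat_lit 231) (nat_lit 108) r1_231 r12_108 (nat_lit 0) (nat_lit 0) (nat_lit 0) (nat_lit 0x7d8932ef48) (nat_lit 1209495456),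
  Rx.mk (nat_lit 207) (nat_lit 7) (nat_lit 1) (nat_lit 3) (nat_lit 7) (nat_lit 232) (nat_lit 111) r1_232 r12_111 (nat_lit 0) (nat_lit 0) (nat_lit 0) (nat_lit 0x7e706b5ada) (nat_lit 766154376),
  Rx.mk (nat_lit 223) (nat_lit 7) (nat_lit 3) (nat_lit 3) (nat_lit 7) (nat_lit 233) (nat_lit 112) r1_233 r12_112 (nat_lit 0) (nat_lit 0) (nat_lit 0) (nat_lit 0x7dda421e04) (nat_lit 1054072656)]
noncomputable def e41 : List (List Rx) := [e41_0, e41_1, e41_2, e41_3, e41_4, e41_5, e41_6, e41_7, e41_8, e41_9, e41_10, e41_11, e41_12, e41_13, e41_14, e41_15, e41_16, e41_17, e41_18, e41_19, e41_20, e41_21, e41_22, e41_23, e41_24, e41_25, e41_26, e41_27, e41_28, e41_29, e41_30, e41_31, e41_32, e41_33, e41_34, e41_35, e41_36, e41_37, e41_38, e41_39, e41_40, e41_41, e41_42, e41_43, e41_44, e41_45, e41_46, e41_47, e41_48, e41_49, e41_50, e41_51, e41_52, e41_53,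 e41_54, e41_55, e41_56, e41_57]
noncomputable def e42_0 : List Rx := [
  Rx.mk (nat_lit 76) (nat_lit 4) (nat_lit 1) (nat_lit 1) (nat_lit 6) (nat_lit 276) (nat_lit 285) r2_276 r0_285 (nat_lit 0) (nat_lit 0) (nat_lit 0) (nat_lit 0x7e3ae53372) (nat_lit 868781160),
  Rx.mk (nat_lit 77) (nat_lit 5) (nat_lit 1) (nat_lit 1) (nat_lit 7) (nat_lit 278) (nat_lit 287) r2_278 r0_287 (nat_lit 0) (nat_lit 0) (nat_lit 0) (nat_lit 0x7de4b8169a) (nat_lit 1034015112),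
  Rx.mk (nat_lit 108) (nat_lit 4) (nat_lit 5) (nat_lit 1) (nat_lit 6) (nat_lit 277) (nat_lit 286) r2_277 r0_286 (nat_lit 0) (nat_lit 0) (nat_lit 0) (nat_lit 0x7e0b17707e) (nat_lit 960439896),
  Rx.mk (nat_lit 109) (nat_lit 5) (nat_lit 5) (nat_lit 1) (nat_lit 7) (nat_lit 279) (nat_lit 288) r2_279 r0_288 (nat_lit 0) (nat_lit 0) (nat_lit 0) (nat_lit 0x7de13f8e26) (nat_lit 1040670072)]
noncomputable def e42_1 : List Rx := [
  Rx.mk (nat_lit 76) (nat_lit 4) (nat_lit 1) (nat_lit 1) (nat_lit 6) (nat_lit 304) (nat_lit 280) r2_304 r1_280 (nat_lit 0) (nat_lit 0) (nat_lit 0) (nat_lit 0x7dd800c21c) (nat_lit 1058396976),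
  Rx.mk (nat_lit 77) (nat_lit 5) (nat_lit 1) (nat_lit 1) (nat_lit 7) (nat_lit 307) (nat_lit 283) r2_307 r1_283 (nat_lit 0) (nat_lit 0) (nat_lit 0) (nat_lit 0x7df5d6c49e) (nat_lit 1001189592),
  Rx.mk (nat_lit 108) (nat_lit 4) (nat_lit 5) (nat_lit 1) (nat_lit 6) (nat_lit 305) (nat_lit 281) r2_305 r1_281 (nat_lit 0) (nat_lit 0) (nat_lit 0) (nat_lit 0x7dda1280fe) (nat_lit 1054429272),
  Rx.mk (nat_lit 109) (nat_lit 5) (nat_lit 5) (nat_lit 1) (nat_lit 7) (nat_lit 308) (nat_lit 284) r2_308 r1_284 (nat_lit 0) (nat_lit 0) (nat_lit 0) (nat_lit 0x7dd891d90a) (nat_lit 1057310280),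
  Rx.mk (nat_lit 364) (nat_lit 4) (nat_lit 5) (nat_lit 5) (nat_lit 6) (nat_lit 306) (nat_lit 282) r2_306 r1_282 (nat_lit 0) (nat_lit 0) (nat_lit 0) (nat_lit 0x7d8d92694c) (nat_lit 1201110768),
  Rx.mk (nat_lit 365) (nat_lit 5) (nat_lit 5) (nat_lit 5) (nat_lit 7) (nat_lit 309) (nat_lit 285) r2_309 r1_285 (nat_lit 0) (nat_lit 0) (nat_lit 0) (nat_lit 0x7df759ac6e) (nat_lit 998291736)]
noncomputable def e42_2 : List Rx := [
  Rx.mk (nat_lit 364) (nat_lit 4) (nat_lit 5) (nat_lit 5) (nat_lit 6) (nat_lit 310) (nat_lit 310) r2_310 r2_310 (nat_lit 0) (nat_lit 0) (nat_lit 0) (nat_lit 0x7b91b0e960) (nat_lit 2174919552),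
  Rx.mk (nat_lit 365) (nat_lit 5) (nat_lit 5) (nat_lit 5) (nat_lit 7) (nat_lit 311) (nat_lit 311) r2_311 r2_311 (nat_lit 0) (nat_lit 0) (nat_lit 0) (nat_lit 0x7de334ced0) (nat_lit 1036915776)]
noncomputable def e42_3 : List Rx := [
  Rx.mk (nat_lit 12) (nat_lit 4) (nat_lit 1) (nat_lit 0) (nat_lit 2) (nat_lit 322) (nat_lit 271) r2_322 r3_271 (nat_lit 0) (nat_lit 0) (nat_lit 0) (nat_lit 0x703cef60ce) (nat_lit 7736817816),
  Rx.mk (nat_lit 13) (nat_lit 5) (nat_lit 1) (nat_lit 0) (nat_lit 3) (nat_lit 327) (nat_lit 276) r2_327 r3_276 (nat_lit 0) (nat_lit 0) (nat_lit 0) (nat_lit 0x756abadee8) (nat_lit 5194743840),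
  Rx.mk (nat_lit 44) (nat_lit 4) (nat_lit 5) (nat_lit 0) (nat_lit 2) (nat_lit 323) (nat_lit 274) r2_323 r3_274 (nat_lit 0) (nat_lit 0) (nat_lit 0) (nat_lit 0x703cef60ce) (nat_lit 7736817816),
  Rx.mk (nat_lit 45) (nat_lit 5) (nat_lit 5) (nat_lit 0) (nat_lit 3) (nat_lit 328) (nat_lit 279) r2_328 r3_279 (nat_lit 0) (nat_lit 0) (nat_lit 0) (nat_lit 0x6f33ce53e8) (nat_lit 8245175328),
  Rx.mk (nat_lit 47) (nat_lit 7) (nat_lit 5) (nat_lit 0) (nat_lit 3) (nat_lit 332) (nat_lit 281) r2_332 r3_281 (nat_lit 0) (nat_lit 0) (nat_lit 0) (nat_lit 0x7741baad14) (nat_lit 4291651728),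
  Rx.mk (nat_lit 76) (nat_lit 4) (nat_lit 1) (nat_lit 1) (nat_lit 6) (nat_lit 324) (nat_lit 272) r2_324 r3_272 (nat_lit 0) (nat_lit 0) (nat_lit 0) (nat_lit 0x6f33ce53e8) (nat_lit 8245175328),
  Rx.mk (nat_lit 77) (nat_lit 5) (nat_lit 1) (nat_lit 1) (nat_lit 7) (nat_lit 329) (nat_lit 277) r2_329 r3_277 (nat_lit 0) (nat_lit 0) (nat_lit 0) (nat_lit 0x7d272070d2) (nat_lit 1397538792),
  Rx.mk (nat_lit 108) (nat_lit 4) (nat_lit 5) (nat_lit 1) (nat_lit 6) (nat_lit 325) (nat_lit 275) r2_325 r3_275 (nat_lit 0) (nat_lit 0) (nat_lit 0) (nat_lit 0x756abadee8) (nat_lit 5194743840),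
  Rx.mk (nat_lit 109) (nat_lit 5) (nat_lit 5) (nat_lit 1) (nat_lit 7) (nat_lit 330) (nat_lit 280) r2_330 r3_280 (nat_lit 0) (nat_lit 0) (nat_lit 0) (nat_lit 0x7d272070d2) (nat_lit 1397538792),
  Rx.mk (nat_lit 111) (nat_lit 7) (nat_lit 5) (nat_lit 1) (nat_lit 7) (nat_lit 333) (nat_lit 282) r2_333 r3_282 (nat_lit 0) (nat_lit 0) (nat_lit 0) (nat_lit 0x7e104edd02) (nat_lit 950437800),
  Rx.mk (nat_lit 204) (nat_lit 4) (nat_lit 1) (nat_lit 3) (nat_lit 6) (nat_lit 326) (nat_lit 273) r2_326 r3_273 (nat_lit 0) (nat_lit 0) (nat_lit 0) (nat_lit 0x7741baad14) (nat_lit 4291651728),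
  Rx.mk (nat_lit 205) (nat_lit 5) (nat_lit 1) (nat_lit 3) (nat_lit 7) (nat_lit 331) (nat_lit 278) r2_331 r3_278 (nat_lit 0) (nat_lit 0) (nat_lit 0) (nat_lit 0x7e104edd02) (nat_lit 950437800)]
noncomputable def e42_4 : List Rx := [
  Rx.mk (nat_lit 76) (nat_lit 4) (nat_lit 1) (nat_lit 1) (nat_lit 6) (nat_lit 334) (nat_lit 299) r2_334 r4_299 (nat_lit 0) (nat_lit 0) (nat_lit 0) (nat_lit 0x7dad9708e2) (nat_lit 1139719464),
  Rx.mk (nat_lit 77) (nat_lit 5) (nat_lit 1) (nat_lit 1) (nat_lit 7) (nat_lit 336) (nat_lit 301) r2_336 r4_301 (nat_lit 0) (nat_lit 0) (nat_lit 0) (nat_lit 0x7de0307f18) (nat_lit 1042700256),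
  Rx.mk (nat_lit 108) (nat_lit 4) (nat_lit 5) (nat_lit 1) (nat_lit 6) (nat_lit 335) (nat_lit 300) r2_335 r4_300 (nat_lit 0) (nat_lit 0) (nat_lit 0) (nat_lit 0x7dc103120e) (nat_lit 1102479768),
  Rx.mk (nat_lit 109) (nat_lit 5) (nat_lit 5) (nat_lit 1) (nat_lit 7) (nat_lit 337) (nat_lit 302) r2_337 r4_302 (nat_lit 0) (nat_lit 0) (nat_lit 0) (nat_lit 0x7de76c8b50) (nat_lit 1028828736),
  Rx.mk (nat_lit 111) (nat_lit 7) (nat_lit 5) (nat_lit 1) (nat_lit 7) (nat_lit 338) (nat_lit 303) r2_338 r4_303 (nat_lit 0) (nat_lit 0) (nat_lit 0) (nat_lit 0x7df18be950) (nat_lit 1009419840)]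
noncomputable def e42_5 : List Rx := [
  Rx.mk (nat_lit 239) (nat_lit 7) (nat_lit 5) (nat_lit 3) (nat_lit 7) (nat_lit 60) (nat_lit 251) r2_60 r3_251 (nat_lit 0) (nat_lit 0) (nat_lit 0) (nat_lit 0x7f3a2d5df0) (nat_lit 379304640),
  Rx.mk (nat_lit 492) (nat_lit 4) (nat_lit 5) (nat_lit 7) (nat_lit 6) (nat_lit 59) (nat_lit 249) r2_59 r3_249 (nat_lit 0) (nat_lit 0) (nat_lit 0) (nat_lit 0x7fc66c7972) (nat_lit 110396520),
  Rx.mk (nat_lit 495) (nat_lit 7) (nat_lit 5) (nat_lit 7) (nat_lit 7) (nat_lit 61) (nat_lit 250) r2_61 r3_250 (nat_lit 0) (nat_lit 0) (nat_lit 0) (nat_lit 0x7f19302de4) (nat_lit 442557648)]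
noncomputable def e42_6 : List Rx := [
  Rx.mk (nat_lit 300) (nat_lit 4) (nat_lit 5) (nat_lit 4) (nat_lit 2) (nat_lit 180) (nat_lit 254) r2_180 r0_254 (nat_lit 0) (nat_lit 0) (nat_lit 0) (nat_lit 0x58ede04910) (nat_lit 19178033472),
  Rx.mk (nat_lit 492) (nat_lit 4) (nat_lit 5) (nat_lit 7) (nat_lit 6) (nat_lit 181) (nat_lit 255) r2_181 r0_255 (nat_lit 0) (nat_lit 0) (nat_lit 0) (nat_lit 0x7c870832f6) (nat_lit 1704503736),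
  Rx.mk (nat_lit 495) (nat_lit 7) (nat_lit 5) (nat_lit 7) (nat_lit 7) (nat_lit 182) (nat_lit 256) r2_182 r0_256 (nat_lit 0) (nat_lit 0) (nat_lit 0) (nat_lit 0x7df272dae0) (nat_lit 1007690112)]
noncomputable def e42_7 : List Rx := [
  Rx.mk (nat_lit 300) (nat_lit 4) (nat_lit 5) (nat_lit 4) (nat_lit 2) (nat_lit 183) (nat_lit 258) r2_183 r1_258 (nat_lit 0) (nat_lit 0) (nat_lit 0) (nat_lit 0x64fea130f0) (nat_lit 13255669440),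
  Rx.mk (nat_lit 364) (nat_lit 4) (nat_lit 5) (nat_lit 5) (nat_lit 6) (nat_lit 184) (nat_lit 259) r2_184 r1_259 (nat_lit 0) (nat_lit 0) (nat_lit 0) (nat_lit 0x7d01d9256c) (nat_lit 1469016432),
  Rx.mk (nat_lit 492) (nat_lit 4) (nat_lit 5) (nat_lit 7) (nat_lit 6) (nat_lit 185) (nat_lit 260) r2_185 r1_260 (nat_lit 0) (nat_lit 0) (nat_lit 0) (nat_lit 0x7dc4639c02) (nat_lit 1096004520),
  Rx.mk (nat_lit 495) (nat_lit 7) (nat_lit 5) (nat_lit 7) (nat_lit 7) (nat_lit 186) (nat_lit 261) r2_186 r1_261 (nat_lit 0) (nat_lit 0) (nat_lit 0) (nat_lit 0x7deee313e0) (nat_lit 1014519168)]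
noncomputable def e42_8 : List Rx := [
  Rx.mk (nat_lit 492) (nat_lit 4) (nat_lit 5) (nat_lit 7) (nat_lit 6) (nat_lit 187) (nat_lit 271) r2_187 r4_271 (nat_lit 0) (nat_lit 0) (nat_lit 0) (nat_lit 0x7dd5e96394) (nat_lit 1062406800),
  Rx.mk (nat_lit 495) (nat_lit 7) (nat_lit 5) (nat_lit 7) (nat_lit 7) (nat_lit 188) (nat_lit 272) r2_188 r4_272 (nat_lit 0) (nat_lit 0) (nat_lit 0) (nat_lit 0x7de99d6840) (nat_lit 1024627968)]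
noncomputable def e42_9 : List Rx := [
  Rx.mk (nat_lit 47) (nat_lit 7) (nat_lit 5) (nat_lit 0) (nat_lit 3) (nat_lit 253) (nat_lit 308) r2_253 r5_308 (nat_lit 0) (nat_lit 0) (nat_lit 0) (nat_lit 0x7d47970948) (nat_lit 1335293856),
  Rx.mk (nat_lit 204) (nat_lit 4) (nat_lit 1) (nat_lit 3) (nat_lit 6) (nat_lit 251) (nat_lit 306) r2_251 r5_306 (nat_lit 0) (nat_lit 0) (nat_lit 0) (nat_lit 0x7d0b86ea86) (nat_lit 1450458360),
  Rx.mk (nat_lit 236) (nat_lit 4) (nat_lit 5) (nat_lit 3) (nat_lit 6) (nat_lit 252) (nat_lit 307) r2_252 r5_307 (nat_lit 0) (nat_lit 0) (nat_lit 0) (nat_lit 0x7d5005c254) (nat_lit 1319125392),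
  Rx.mk (nat_lit 239) (nat_lit 7) (nat_lit 5) (nat_lit 3) (nat_lit 7) (nat_lit 254) (nat_lit 309) r2_254 r5_309 (nat_lit 0) (nat_lit 0) (nat_lit 0) (nat_lit 0x7de4629bf2) (nat_lit 1034655336)]
noncomputable def e42_10 : List Rx := [
  Rx.mk (nat_lit 13) (nat_lit 5) (nat_lit 1) (nat_lit 0) (nat_lit 3) (nat_lit 280) (nat_lit 286) r2_280 r0_286 (nat_lit 0) (nat_lit 0) (nat_lit 0) (nat_lit 0x7e0b17707e) (nat_lit 960439896),
  Rx.mk (nat_lit 45) (nat_lit 5) (nat_lit 5) (nat_lit 0) (nat_lit 3) (nat_lit 281) (nat_lit 285) r2_281 r0_285 (nat_lit 0) (nat_lit 0) (nat_lit 0) (nat_lit 0x7e3ae53372) (nat_lit 868781160),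
  Rx.mk (nat_lit 77) (nat_lit 5) (nat_lit 1) (nat_lit 1) (nat_lit 7) (nat_lit 282) (nat_lit 288) r2_282 r0_288 (nat_lit 0) (nat_lit 0) (nat_lit 0) (nat_lit 0x7de13f8e26) (nat_lit 1040670072),
  Rx.mk (nat_lit 109) (nat_lit 5) (nat_lit 5) (nat_lit 1) (nat_lit 7) (nat_lit 283) (nat_lit 287) r2_283 r0_287 (nat_lit 0) (nat_lit 0) (nat_lit 0) (nat_lit 0x7de4b8169a) (nat_lit 1034015112)]
noncomputable def e42_11 : List Rx := [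
  Rx.mk (nat_lit 77) (nat_lit 5) (nat_lit 1) (nat_lit 1) (nat_lit 7) (nat_lit 284) (nat_lit 399) r2_284 r6_399 (nat_lit 0) (nat_lit 0) (nat_lit 0) (nat_lit 0x7ddbba867c) (nat_lit 1051253424),
  Rx.mk (nat_lit 109) (nat_lit 5) (nat_lit 5) (nat_lit 1) (nat_lit 7) (nat_lit 285) (nat_lit 400) r2_285 r6_400 (nat_lit 0) (nat_lit 0) (nat_lit 0) (nat_lit 0x7ddbba867c) (nat_lit 1051253424)]
noncomputable def e42_12 : List Rx := [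
  Rx.mk (nat_lit 9) (nat_lit 1) (nat_lit 1) (nat_lit 0) (nat_lit 3) (nat_lit 295) (nat_lit 282) r2_295 r1_282 (nat_lit 0) (nat_lit 0) (nat_lit 0) (nat_lit 0x7d8d92694c) (nat_lit 1201110768),
  Rx.mk (nat_lit 13) (nat_lit 5) (nat_lit 1) (nat_lit 0) (nat_lit 3) (nat_lit 297) (nat_lit 281) r2_297 r1_281 (nat_lit 0) (nat_lit 0) (nat_lit 0) (nat_lit 0x7dda1280fe) (nat_lit 1054429272),
  Rx.mk (nat_lit 45) (nat_lit 5) (nat_lit 5) (nat_lit 0) (nat_lit 3) (nat_lit 298) (nat_lit 280) r2_298 r1_280 (nat_lit 0) (nat_lit 0) (nat_lit 0) (nat_lit 0x7dd800c21c) (nat_lit 1058396976),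
  Rx.mk (nat_lit 73) (nat_lit 1) (nat_lit 1) (nat_lit 1) (nat_lit 7) (nat_lit 296) (nat_lit 285) r2_296 r1_285 (nat_lit 0) (nat_lit 0) (nat_lit 0) (nat_lit 0x7df759ac6e) (nat_lit 998291736),
  Rx.mk (nat_lit 77) (nat_lit 5) (nat_lit 1) (nat_lit 1) (nat_lit 7) (nat_lit 299) (nat_lit 284) r2_299 r1_284 (nat_lit 0) (nat_lit 0) (nat_lit 0) (nat_lit 0x7dd891d90a) (nat_lit 1057310280),
  Rx.mk (nat_lit 109) (nat_lit 5) (nat_lit 5) (nat_lit 1) (nat_lit 7) (nat_lit 300) (nat_lit 283) r2_300 r1_283 (nat_lit 0) (nat_lit 0) (nat_lit 0) (nat_lit 0x7df5d6c49e) (nat_lit 1001189592)]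
noncomputable def e42_13 : List Rx := [
  Rx.mk (nat_lit 73) (nat_lit 1) (nat_lit 1) (nat_lit 1) (nat_lit 7) (nat_lit 301) (nat_lit 320) r2_301 r7_320 (nat_lit 0) (nat_lit 0) (nat_lit 0) (nat_lit 0x7de672daec) (nat_lit 1030698864),
  Rx.mk (nat_lit 77) (nat_lit 5) (nat_lit 1) (nat_lit 1) (nat_lit 7) (nat_lit 302) (nat_lit 321) r2_302 r7_321 (nat_lit 0) (nat_lit 0) (nat_lit 0) (nat_lit 0x7dd04e3d4c) (nat_lit 1073155824),
  Rx.mk (nat_lit 109) (nat_lit 5) (nat_lit 5) (nat_lit 1) (nat_lit 7) (nat_lit 303) (nat_lit 322) r2_303 r7_322 (nat_lit 0) (nat_lit 0) (nat_lit 0) (nat_lit 0x7dacc2d626) (nat_lit 1141308792)]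
noncomputable def e42_14 : List Rx := [
  Rx.mk (nat_lit 77) (nat_lit 5) (nat_lit 1) (nat_lit 1) (nat_lit 7) (nat_lit 312) (nat_lit 322) r2_312 r7_322 (nat_lit 0) (nat_lit 0) (nat_lit 0) (nat_lit 0x7dacc2d626) (nat_lit 1141308792),
  Rx.mk (nat_lit 109) (nat_lit 5) (nat_lit 5) (nat_lit 1) (nat_lit 7) (nat_lit 313) (nat_lit 321) r2_313 r7_321 (nat_lit 0) (nat_lit 0) (nat_lit 0) (nat_lit 0x7dd04e3d4c) (nat_lit 1073155824),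
  Rx.mk (nat_lit 365) (nat_lit 5) (nat_lit 5) (nat_lit 5) (nat_lit 7) (nat_lit 314) (nat_lit 320) r2_314 r7_320 (nat_lit 0) (nat_lit 0) (nat_lit 0) (nat_lit 0x7de672daec) (nat_lit 1030698864)]
noncomputable def e42_15 : List Rx := [
  Rx.mk (nat_lit 365) (nat_lit 5) (nat_lit 5) (nat_lit 5) (nat_lit 7) (nat_lit 315) (nat_lit 293) r2_315 r8_293 (nat_lit 0) (nat_lit 0) (nat_lit 0) (nat_lit 0x7dee79ba76) (nat_lit 1015308216)]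
noncomputable def e42_16 : List Rx := [
  Rx.mk (nat_lit 13) (nat_lit 5) (nat_lit 1) (nat_lit 0) (nat_lit 3) (nat_lit 349) (nat_lit 300) r2_349 r4_300 (nat_lit 0) (nat_lit 0) (nat_lit 0) (nat_lit 0x7dc103120e) (nat_lit 1102479768),
  Rx.mk (nat_lit 45) (nat_lit 5) (nat_lit 5) (nat_lit 0) (nat_lit 3) (nat_lit 350) (nat_lit 299) r2_350 r4_299 (nat_lit 0) (nat_lit 0) (nat_lit 0) (nat_lit 0x7dad9708e2) (nat_lit 1139719464),
  Rx.mk (nat_lit 77) (nat_lit 5) (nat_lit 1) (nat_lit 1) (nat_lit 7) (nat_lit 351) (nat_lit 302) r2_351 r4_302 (nat_lit 0) (nat_lit 0) (nat_lit 0) (nat_lit 0x7de76c8b50) (nat_lit 1028828736),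
  Rx.mk (nat_lit 109) (nat_lit 5) (nat_lit 5) (nat_lit 1) (nat_lit 7) (nat_lit 352) (nat_lit 301) r2_352 r4_301 (nat_lit 0) (nat_lit 0) (nat_lit 0) (nat_lit 0x7de0307f18) (nat_lit 1042700256),
  Rx.mk (nat_lit 205) (nat_lit 5) (nat_lit 1) (nat_lit 3) (nat_lit 7) (nat_lit 353) (nat_lit 303) r2_353 r4_303 (nat_lit 0) (nat_lit 0) (nat_lit 0) (nat_lit 0x7df18be950) (nat_lit 1009419840)]
noncomputable def e42_17 : List Rx := [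
  Rx.mk (nat_lit 77) (nat_lit 5) (nat_lit 1) (nat_lit 1) (nat_lit 7) (nat_lit 354) (nat_lit 323) r2_354 r9_323 (nat_lit 0) (nat_lit 0) (nat_lit 0) (nat_lit 0x7dd3c365f6) (nat_lit 1066526136),
  Rx.mk (nat_lit 109) (nat_lit 5) (nat_lit 5) (nat_lit 1) (nat_lit 7) (nat_lit 355) (nat_lit 324) r2_355 r9_324 (nat_lit 0) (nat_lit 0) (nat_lit 0) (nat_lit 0x7dd3c365f6) (nat_lit 1066526136)]
noncomputable def e42_18 : List Rx := [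
  Rx.mk (nat_lit 45) (nat_lit 5) (nat_lit 5) (nat_lit 0) (nat_lit 3) (nat_lit 356) (nat_lit 340) r2_356 r10_340 (nat_lit 0) (nat_lit 0) (nat_lit 0) (nat_lit 0x7da4f55306) (nat_lit 1156269816),
  Rx.mk (nat_lit 109) (nat_lit 5) (nat_lit 5) (nat_lit 1) (nat_lit 7) (nat_lit 357) (nat_lit 341) r2_357 r10_341 (nat_lit 0) (nat_lit 0) (nat_lit 0) (nat_lit 0x7df51550b6) (nat_lit 1002638520),
  Rx.mk (nat_lit 205) (nat_lit 5) (nat_lit 1) (nat_lit 3) (nat_lit 7) (nat_lit 358) (nat_lit 339) r2_358 r10_339 (nat_lit 0) (nat_lit 0) (nat_lit 0) (nat_lit 0x7dec0621b2) (nat_lit 1020008808),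
  Rx.mk (nat_lit 237) (nat_lit 5) (nat_lit 5) (nat_lit 3) (nat_lit 7) (nat_lit 359) (nat_lit 342) r2_359 r10_342 (nat_lit 0) (nat_lit 0) (nat_lit 0) (nat_lit 0x7df79428c6) (nat_lit 997853688)]
noncomputable def e42_19 : List Rx := [
  Rx.mk (nat_lit 356) (nat_lit 4) (nat_lit 4) (nat_lit 5) (nat_lit 4) (nat_lit 316) (nat_lit 260) r2_316 r8_260 (nat_lit 0) (nat_lit 0) (nat_lit 0) (nat_lit 0x6d72596cf8) (nat_lit 9106961760),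
  Rx.mk (nat_lit 358) (nat_lit 6) (nat_lit 4) (nat_lit 5) (nat_lit 5) (nat_lit 319) (nat_lit 261) r2_319 r8_261 (nat_lit 0) (nat_lit 0) (nat_lit 0) (nat_lit 0x7de2ed334a) (nat_lit 1037452104),
  Rx.mk (nat_lit 364) (nat_lit 4) (nat_lit 5) (nat_lit 5) (nat_lit 6) (nat_lit 317) (nat_lit 262) r2_317 r8_262 (nat_lit 0) (nat_lit 0) (nat_lit 0) (nat_lit 0x7cf90c5242) (nat_lit 1485889704),
  Rx.mk (nat_lit 365) (nat_lit 5) (nat_lit 5) (nat_lit 5) (nat_lit 7) (nat_lit 318) (nat_lit 263) r2_318 r8_263 (nat_lit 0) (nat_lit 0) (nat_lit 0) (nat_lit 0x7db6e7d3cc) (nat_lit 1121857776),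
  Rx.mk (nat_lit 366) (nat_lit 6) (nat_lit 5) (nat_lit 5) (nat_lit 7) (nat_lit 320) (nat_lit 264) r2_320 r8_264 (nat_lit 0) (nat_lit 0) (nat_lit 0) (nat_lit 0x7de452dcee) (nat_lit 1034773272),
  Rx.mk (nat_lit 374) (nat_lit 6) (nat_lit 6) (nat_lit 5) (nat_lit 7) (nat_lit 321) (nat_lit 265) r2_321 r8_265 (nat_lit 0) (nat_lit 0) (nat_lit 0) (nat_lit 0x7df79428c6) (nat_lit 997853688)]
noncomputable def e42_20 : List Rx := [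
  Rx.mk (nat_lit 255) (nat_lit 7) (nat_lit 7) (nat_lit 3) (nat_lit 7) (nat_lit 71) (nat_lit 30) r2_71 r0_30 (nat_lit 0) (nat_lit 0) (nat_lit 0) (nat_lit 0x7df6905904) (nat_lit 999799632),
  Rx.mk (nat_lit 294) (nat_lit 6) (nat_lit 4) (nat_lit 4) (nat_lit 1) (nat_lit 64) (nat_lit 31) r2_64 r0_31 (nat_lit 0) (nat_lit 0) (nat_lit 0) (nat_lit 0x6b355bdf0e) (nat_lit 10205611416),
  Rx.mk (nat_lit 302) (nat_lit 6) (nat_lit 5) (nat_lit 4) (nat_lit 3) (nat_lit 65) (nat_lit 32) r2_65 r0_32 (nat_lit 0) (nat_lit 0) (nat_lit 0) (nat_lit 0x7e4b276f3e) (nat_lit 837606744),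
  Rx.mk (nat_lit 310) (nat_lit 6) (nat_lit 6) (nat_lit 4) (nat_lit 3) (nat_lit 66) (nat_lit 33) r2_66 r0_33 (nat_lit 0) (nat_lit 0) (nat_lit 0) (nat_lit 0x7dc39c287a) (nat_lit 1097498376),
  Rx.mk (nat_lit 438) (nat_lit 6) (nat_lit 6) (nat_lit 6) (nat_lit 7) (nat_lit 67) (nat_lit 42) r2_67 r0_42 (nat_lit 0) (nat_lit 0) (nat_lit 0) (nat_lit 0x7ddddb446e) (nat_lit 1047173400),
  Rx.mk (nat_lit 484) (nat_lit 4) (nat_lit 4) (nat_lit 7) (nat_lit 4) (nat_lit 62) (nat_lit 34) r2_62 r0_34 (nat_lit 0) (nat_lit 0) (nat_lit 0) (nat_lit 0x66c500a932) (nat_lit 12384456552),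
  Rx.mk (nat_lit 486) (nat_lit 6) (nat_lit 4) (nat_lit 7) (nat_lit 5) (nat_lit 68) (nat_lit 39) r2_68 r0_39 (nat_lit 0) (nat_lit 0) (nat_lit 0) (nat_lit 0x7e5ff6223e) (nat_lit 797710680),
  Rx.mk (nat_lit 487) (nat_lit 7) (nat_lit 4) (nat_lit 7) (nat_lit 5) (nat_lit 72) (nat_lit 36) r2_72 r0_36 (nat_lit 0) (nat_lit 0) (nat_lit 0) (nat_lit 0x7dce709b28) (nat_lit 1076733216),
  Rx.mk (nat_lit 492) (nat_lit 4) (nat_lit 5) (nat_lit 7) (nat_lit 6) (nat_lit 63) (nat_lit 35) r2_63 r0_35 (nat_lit 0) (nat_lit 0) (nat_lit 0) (nat_lit 0x7ddc9338f0) (nat_lit 1049630400),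
  Rx.mk (nat_lit 494) (nat_lit 6) (nat_lit 5) (nat_lit 7) (nat_lit 7) (nat_lit 69) (nat_lit 40) r2_69 r0_40 (nat_lit 0) (nat_lit 0) (nat_lit 0) (nat_lit 0x7e8b2b6ebe) (nat_lit 714863448),
  Rx.mk (nat_lit 495) (nat_lit 7) (nat_lit 5) (nat_lit 7) (nat_lit 7) (nat_lit 73) (nat_lit 37) r2_73 r0_37 (nat_lit 0) (nat_lit 0) (nat_lit 0) (nat_lit 0x7df79428c6) (nat_lit 997853688),
  Rx.mk (nat_lit 502) (nat_lit 6) (nat_lit 6) (nat_lit 7) (nat_lit 7) (nat_lit 70) (nat_lit 41) r2_70 r0_41 (nat_lit 0) (nat_lit 0) (nat_lit 0) (nat_lit 0x7e6254bc52) (nat_lit 793167336),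
  Rx.mk (nat_lit 511) (nat_lit 7) (nat_lit 7) (nat_lit 7) (nat_lit 7) (nat_lit 74) (nat_lit 38) r2_74 r0_38 (nat_lit 0) (nat_lit 0) (nat_lit 0) (nat_lit 0x7ded8609b2) (nat_lit 1017133416)]
noncomputable def e42_21 : List Rx := [
  Rx.mk (nat_lit 255) (nat_lit 7) (nat_lit 7) (nat_lit 3) (nat_lit 7) (nat_lit 81) (nat_lit 30) r2_81 r1_30 (nat_lit 0) (nat_lit 0) (nat_lit 0) (nat_lit 0x7de7ede33a) (nat_lit 1027859976),
  Rx.mk (nat_lit 294) (nat_lit 6) (nat_lit 4) (nat_lit 4) (nat_lit 1) (nat_lit 76) (nat_lit 31) r2_76 r1_31 (nat_lit 0) (nat_lit 0) (nat_lit 0) (nat_lit 0x68c0f427fe) (nat_lit 11410512984),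
  Rx.mk (nat_lit 310) (nat_lit 6) (nat_lit 6) (nat_lit 4) (nat_lit 3) (nat_lit 77) (nat_lit 32) r2_77 r1_32 (nat_lit 0) (nat_lit 0) (nat_lit 0) (nat_lit 0x7d4e539d78) (nat_lit 1322377056),
  Rx.mk (nat_lit 438) (nat_lit 6) (nat_lit 6) (nat_lit 6) (nat_lit 7) (nat_lit 78) (nat_lit 38) r2_78 r1_38 (nat_lit 0) (nat_lit 0) (nat_lit 0) (nat_lit 0x7dd4655bd6) (nat_lit 1065313080),
  Rx.mk (nat_lit 484) (nat_lit 4) (nat_lit 4) (nat_lit 7) (nat_lit 4) (nat_lit 75) (nat_lit 33) r2_75 r1_33 (nat_lit 0) (nat_lit 0) (nat_lit 0) (nat_lit 0x70f45ca942) (nat_lit 7385115816),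
  Rx.mk (nat_lit 486) (nat_lit 6) (nat_lit 4) (nat_lit 7) (nat_lit 5) (nat_lit 79) (nat_lit 36) r2_79 r1_36 (nat_lit 0) (nat_lit 0) (nat_lit 0) (nat_lit 0x7e35c32598) (nat_lit 878623200),
  Rx.mk (nat_lit 487) (nat_lit 7) (nat_lit 4) (nat_lit 7) (nat_lit 5) (nat_lit 82) (nat_lit 34) r2_82 r1_34 (nat_lit 0) (nat_lit 0) (nat_lit 0) (nat_lit 0x7d5dee43be) (nat_lit 1292457816),
  Rx.mk (nat_lit 502) (nat_lit 6) (nat_lit 6) (nat_lit 7) (nat_lit 7) (nat_lit 80) (nat_lit 37) r2_80 r1_37 (nat_lit 0) (nat_lit 0) (nat_lit 0) (nat_lit 0x7de79fe81a) (nat_lit 1028444040),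
  Rx.mk (nat_lit 511) (nat_lit 7) (nat_lit 7) (nat_lit 7) (nat_lit 7) (nat_lit 83) (nat_lit 35) r2_83 r1_35 (nat_lit 0) (nat_lit 0) (nat_lit 0) (nat_lit 0x7dad1d3080) (nat_lit 1140632064)]
noncomputable def e42_22 : List Rx := [
  Rx.mk (nat_lit 231) (nat_lit 7) (nat_lit 4) (nat_lit 3) (nat_lit 5) (nat_lit 89) (nat_lit 21) r2_89 r4_21 (nat_lit 0) (nat_lit 0) (nat_lit 0) (nat_lit 0x7e2db3a698) (nat_lit 894078432),
  Rx.mk (nat_lit 239) (nat_lit 7) (nat_lit 5) (nat_lit 3) (nat_lit 7) (nat_lit 90) (nat_lit 22) r2_90 r4_22 (nat_lit 0) (nat_lit 0) (nat_lit 0) (nat_lit 0x7dee60fc02) (nat_lit 1015493544),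
  Rx.mk (nat_lit 255) (nat_lit 7) (nat_lit 7) (nat_lit 3) (nat_lit 7) (nat_lit 91) (nat_lit 23) r2_91 r4_23 (nat_lit 0) (nat_lit 0) (nat_lit 0) (nat_lit 0x7de8bc7650) (nat_lit 1026312768),
  Rx.mk (nat_lit 484) (nat_lit 4) (nat_lit 4) (nat_lit 7) (nat_lit 4) (nat_lit 84) (nat_lit 24) r2_84 r4_24 (nat_lit 0) (nat_lit 0) (nat_lit 0) (nat_lit 0x6f9c53eb26) (nat_lit 8044765560),
  Rx.mk (nat_lit 486) (nat_lit 6) (nat_lit 4) (nat_lit 7) (nat_lit 5) (nat_lit 86) (nat_lit 28) r2_86 r4_28 (nat_lit 0) (nat_lit 0) (nat_lit 0) (nat_lit 0x7ea641bd3e) (nat_lit 662926680),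
  Rx.mk (nat_lit 487) (nat_lit 7) (nat_lit 4) (nat_lit 7) (nat_lit 5) (nat_lit 92) (nat_lit 26) r2_92 r4_26 (nat_lit 0) (nat_lit 0) (nat_lit 0) (nat_lit 0x7e3762eb9a) (nat_lit 875509128),
  Rx.mk (nat_lit 492) (nat_lit 4) (nat_lit 5) (nat_lit 7) (nat_lit 6) (nat_lit 85) (nat_lit 25) r2_85 r4_25 (nat_lit 0) (nat_lit 0) (nat_lit 0) (nat_lit 0x7e46493d26) (nat_lit 846940536),
  Rx.mk (nat_lit 494) (nat_lit 6) (nat_lit 5) (nat_lit 7) (nat_lit 7) (nat_lit 87) (nat_lit 29) r2_87 r4_29 (nat_lit 0) (nat_lit 0) (nat_lit 0) (nat_lit 0x7e85ff4186) (nat_lit 724781304),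
  Rx.mk (nat_lit 495) (nat_lit 7) (nat_lit 5) (nat_lit 7) (nat_lit 7) (nat_lit 93) (nat_lit 27) r2_93 r4_27 (nat_lit 0) (nat_lit 0) (nat_lit 0) (nat_lit 0x7dd9a4a7dc) (nat_lit 1055252016),
  Rx.mk (nat_lit 502) (nat_lit 6) (nat_lit 6) (nat_lit 7) (nat_lit 7) (nat_lit 88) (nat_lit 30) r2_88 r4_30 (nat_lit 0) (nat_lit 0) (nat_lit 0) (nat_lit 0x7e66fbd1dc) (nat_lit 784246320)]
noncomputable def e42_23 : List Rx := [
  Rx.mk (nat_lit 292) (nat_lit 4) (nat_lit 4) (nat_lit 4) (nat_lit 0) (nat_lit 189) (nat_lit 339) r2_189 r6_339 (nat_lit 0) (nat_lit 0) (nat_lit 0) (nat_lit 0x3b982e8184) (nat_lit 33577092432),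
  Rx.mk (nat_lit 294) (nat_lit 6) (nat_lit 4) (nat_lit 4) (nat_lit 1) (nat_lit 193) (nat_lit 342) r2_193 r6_342 (nat_lit 0) (nat_lit 0) (nat_lit 0) (nat_lit 0x75dc704320) (nat_lit 4976719488),
  Rx.mk (nat_lit 300) (nat_lit 4) (nat_lit 5) (nat_lit 4) (nat_lit 2) (nat_lit 190) (nat_lit 344) r2_190 r6_344 (nat_lit 0) (nat_lit 0) (nat_lit 0) (nat_lit 0x68b79d5d74) (nat_lit 11428419600),
  Rx.mk (nat_lit 302) (nat_lit 6) (nat_lit 5) (nat_lit 4) (nat_lit 3) (nat_lit 194) (nat_lit 347) r2_194 r6_347 (nat_lit 0) (nat_lit 0) (nat_lit 0) (nat_lit 0x7d6beb63de) (nat_lit 1265635800),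
  Rx.mk (nat_lit 310) (nat_lit 6) (nat_lit 6) (nat_lit 4) (nat_lit 3) (nat_lit 195) (nat_lit 350) r2_195 r6_350 (nat_lit 0) (nat_lit 0) (nat_lit 0) (nat_lit 0x7d26cf15e8) (nat_lit 1398148128),
  Rx.mk (nat_lit 438) (nat_lit 6) (nat_lit 6) (nat_lit 6) (nat_lit 7) (nat_lit 196) (nat_lit 352) r2_196 r6_352 (nat_lit 0) (nat_lit 0) (nat_lit 0) (nat_lit 0x7dc2f852b8) (nat_lit 1098725472),
  Rx.mk (nat_lit 484) (nat_lit 4) (nat_lit 4) (nat_lit 7) (nat_lit 4) (nat_lit 191) (nat_lit 340) r2_191 r6_340 (nat_lit 0) (nat_lit 0) (nat_lit 0) (nat_lit 0x6e2c488d4c) (nat_lit 8750452464),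
  Rx.mk (nat_lit 486) (nat_lit 6) (nat_lit 4) (nat_lit 7) (nat_lit 5) (nat_lit 197) (nat_lit 343) r2_197 r6_343 (nat_lit 0) (nat_lit 0) (nat_lit 0) (nat_lit 0x7dd93fce2a) (nat_lit 1056007368),
  Rx.mk (nat_lit 487) (nat_lit 7) (nat_lit 4) (nat_lit 7) (nat_lit 5) (nat_lit 200) (nat_lit 341) r2_200 r6_341 (nat_lit 0) (nat_lit 0) (nat_lit 0) (nat_lit 0x7d86aa57d4) (nat_lit 1214353296),
  Rx.mk (nat_lit 492) (nat_lit 4) (nat_lit 5) (nat_lit 7) (nat_lit 6) (nat_lit 192) (nat_lit 345) r2_192 r6_345 (nat_lit 0) (nat_lit 0) (nat_lit 0) (nat_lit 0x7dcd510d22) (nat_lit 1078886952),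
  Rx.mk (nat_lit 494) (nat_lit 6) (nat_lit 5) (nat_lit 7) (nat_lit 7) (nat_lit 198) (nat_lit 348) r2_198 r6_348 (nat_lit 0) (nat_lit 0) (nat_lit 0) (nat_lit 0x7ddcd23500) (nat_lit 1049158656),
  Rx.mk (nat_lit 495) (nat_lit 7) (nat_lit 5) (nat_lit 7) (nat_lit 7) (nat_lit 201) (nat_lit 346) r2_201 r6_346 (nat_lit 0) (nat_lit 0) (nat_lit 0) (nat_lit 0x7dfc7eba18) (nat_lit 988427232),
  Rx.mk (nat_lit 502) (nat_lit 6) (nat_lit 6) (nat_lit 7) (nat_lit 7) (nat_lit 199) (nat_lit 351) r2_199 r6_351 (nat_lit 0) (nat_lit 0) (nat_lit 0) (nat_lit 0x7df6c535b6) (nat_lit 999403704),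
  Rx.mk (nat_lit 511) (nat_lit 7) (nat_lit 7) (nat_lit 7) (nat_lit 7) (nat_lit 202) (nat_lit 349) r2_202 r6_349 (nat_lit 0) (nat_lit 0) (nat_lit 0) (nat_lit 0x7dda493d92) (nat_lit 1054019304)]
noncomputable def e42_24 : List Rx := [
  Rx.mk (nat_lit 292) (nat_lit 4) (nat_lit 4) (nat_lit 4) (nat_lit 0) (nat_lit 221) (nat_lit 257) r2_221 r7_257 (nat_lit 0) (nat_lit 0) (nat_lit 0) (nat_lit 0x1e5f4facac) (nat_lit 47920884336),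
  Rx.mk (nat_lit 294) (nat_lit 6) (nat_lit 4) (nat_lit 4) (nat_lit 1) (nat_lit 223) (nat_lit 260) r2_223 r7_260 (nat_lit 0) (nat_lit 0) (nat_lit 0) (nat_lit 0x69fe864d9e) (nat_lit 10801603800),
  Rx.mk (nat_lit 310) (nat_lit 6) (nat_lit 6) (nat_lit 4) (nat_lit 3) (nat_lit 224) (nat_lit 263) r2_224 r7_263 (nat_lit 0) (nat_lit 0) (nat_lit 0) (nat_lit 0x7cb4d0f63c) (nat_lit 1616717232),
  Rx.mk (nat_lit 438) (nat_lit 6) (nat_lit 6) (nat_lit 6) (nat_lit 7) (nat_lit 225) (nat_lit 265) r2_225 r7_265 (nat_lit 0) (nat_lit 0) (nat_lit 0) (nat_lit 0x7dc01560ea) (nat_lit 1104260040),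
  Rx.mk (nat_lit 484) (nat_lit 4) (nat_lit 4) (nat_lit 7) (nat_lit 4) (nat_lit 222) (nat_lit 258) r2_222 r7_258 (nat_lit 0) (nat_lit 0) (nat_lit 0) (nat_lit 0x645245d752) (nat_lit 13586145768),
  Rx.mk (nat_lit 486) (nat_lit 6) (nat_lit 4) (nat_lit 7) (nat_lit 5) (nat_lit 226) (nat_lit 261) r2_226 r7_261 (nat_lit 0) (nat_lit 0) (nat_lit 0) (nat_lit 0x7d878d89a0) (nat_lit 1212651648),
  Rx.mk (nat_lit 487) (nat_lit 7) (nat_lit 4) (nat_lit 7) (nat_lit 5) (nat_lit 228) (nat_lit 259) r2_228 r7_259 (nat_lit 0) (nat_lit 0) (nat_lit 0) (nat_lit 0x7d4b54ed66) (nat_lit 1328119416),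
  Rx.mk (nat_lit 502) (nat_lit 6) (nat_lit 6) (nat_lit 7) (nat_lit 7) (nat_lit 227) (nat_lit 264) r2_227 r7_264 (nat_lit 0) (nat_lit 0) (nat_lit 0) (nat_lit 0x7dbd458dea) (nat_lit 1109651400),
  Rx.mk (nat_lit 511) (nat_lit 7) (nat_lit 7) (nat_lit 7) (nat_lit 7) (nat_lit 229) (nat_lit 262) r2_229 r7_262 (nat_lit 0) (nat_lit 0) (nat_lit 0) (nat_lit 0x7dbed954ac) (nat_lit 1106627184)]
noncomputable def e42_25 : List Rx := [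
  Rx.mk (nat_lit 292) (nat_lit 4) (nat_lit 4) (nat_lit 4) (nat_lit 0) (nat_lit 203) (nat_lit 25) r2_203 r7_25 (nat_lit 0) (nat_lit 0) (nat_lit 0) (nat_lit 0x29642f73aa) (nat_lit 42512151240),
  Rx.mk (nat_lit 294) (nat_lit 6) (nat_lit 4) (nat_lit 4) (nat_lit 1) (nat_lit 209) (nat_lit 27) r2_209 r7_27 (nat_lit 0) (nat_lit 0) (nat_lit 0) (nat_lit 0x7ba3736d26) (nat_lit 2140866936),
  Rx.mk (nat_lit 300) (nat_lit 4) (nat_lit 5) (nat_lit 4) (nat_lit 2) (nat_lit 204) (nat_lit 26) r2_204 r7_26 (nat_lit 0) (nat_lit 0) (nat_lit 0) (nat_lit 0x7204dfa002) (nat_lit 6862603176),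
  Rx.mk (nat_lit 302) (nat_lit 6) (nat_lit 5) (nat_lit 4) (nat_lit 3) (nat_lit 210) (nat_lit 28) r2_210 r7_28 (nat_lit 0) (nat_lit 0) (nat_lit 0) (nat_lit 0x7dded494d8) (nat_lit 1045306080),
  Rx.mk (nat_lit 310) (nat_lit 6) (nat_lit 6) (nat_lit 4) (nat_lit 3) (nat_lit 211) (nat_lit 29) r2_211 r7_29 (nat_lit 0) (nat_lit 0) (nat_lit 0) (nat_lit 0x7dacbf765c) (nat_lit 1141334064),
  Rx.mk (nat_lit 356) (nat_lit 4) (nat_lit 4) (nat_lit 5) (nat_lit 4) (nat_lit 205) (nat_lit 30) r2_205 r7_30 (nat_lit 0) (nat_lit 0) (nat_lit 0) (nat_lit 0x7afaf2d5d8) (nat_lit 2463952608),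
  Rx.mk (nat_lit 358) (nat_lit 6) (nat_lit 4) (nat_lit 5) (nat_lit 5) (nat_lit 212) (nat_lit 32) r2_212 r7_32 (nat_lit 0) (nat_lit 0) (nat_lit 0) (nat_lit 0x7de3209014) (nat_lit 1037067408),
  Rx.mk (nat_lit 364) (nat_lit 4) (nat_lit 5) (nat_lit 5) (nat_lit 6) (nat_lit 206) (nat_lit 31) r2_206 r7_31 (nat_lit 0) (nat_lit 0) (nat_lit 0) (nat_lit 0x7d1ecd760a) (nat_lit 1413499464),
  Rx.mk (nat_lit 366) (nat_lit 6) (nat_lit 5) (nat_lit 5) (nat_lit 7) (nat_lit 213) (nat_lit 33) r2_213 r7_33 (nat_lit 0) (nat_lit 0) (nat_lit 0) (nat_lit 0x7df944cdba) (nat_lit 994613256),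
  Rx.mk (nat_lit 374) (nat_lit 6) (nat_lit 6) (nat_lit 5) (nat_lit 7) (nat_lit 214) (nat_lit 34) r2_214 r7_34 (nat_lit 0) (nat_lit 0) (nat_lit 0) (nat_lit 0x7dd548ed9c) (nat_lit 1063608624),
  Rx.mk (nat_lit 438) (nat_lit 6) (nat_lit 6) (nat_lit 6) (nat_lit 7) (nat_lit 215) (nat_lit 42) r2_215 r7_42 (nat_lit 0) (nat_lit 0) (nat_lit 0) (nat_lit 0x7dd1b1471a) (nat_lit 1070496648),
  Rx.mk (nat_lit 484) (nat_lit 4) (nat_lit 4) (nat_lit 7) (nat_lit 4) (nat_lit 207) (nat_lit 35) r2_207 r7_35 (nat_lit 0) (nat_lit 0) (nat_lit 0) (nat_lit 0x7a45758e62) (nat_lit 2811939624),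
  Rx.mk (nat_lit 486) (nat_lit 6) (nat_lit 4) (nat_lit 7) (nat_lit 5) (nat_lit 216) (nat_lit 40) r2_216 r7_40 (nat_lit 0) (nat_lit 0) (nat_lit 0) (nat_lit 0x7d9f1fb066) (nat_lit 1167456888),
  Rx.mk (nat_lit 487) (nat_lit 7) (nat_lit 4) (nat_lit 7) (nat_lit 5) (nat_lit 218) (nat_lit 37) r2_218 r7_37 (nat_lit 0) (nat_lit 0) (nat_lit 0) (nat_lit 0x7ddea617c0) (nat_lit 1045654272),
  Rx.mk (nat_lit 492) (nat_lit 4) (nat_lit 5) (nat_lit 7) (nat_lit 6) (nat_lit 208) (nat_lit 36) r2_208 r7_36 (nat_lit 0) (nat_lit 0) (nat_lit 0) (nat_lit 0x7dd31cf05e) (nat_lit 1067772888),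
  Rx.mk (nat_lit 494) (nat_lit 6) (nat_lit 5) (nat_lit 7) (nat_lit 7) (nat_lit 217) (nat_lit 41) r2_217 r7_41 (nat_lit 0) (nat_lit 0) (nat_lit 0) (nat_lit 0x7dcf8c696a) (nat_lit 1074607560),
  Rx.mk (nat_lit 495) (nat_lit 7) (nat_lit 5) (nat_lit 7) (nat_lit 7) (nat_lit 219) (nat_lit 38) r2_219 r7_38 (nat_lit 0) (nat_lit 0) (nat_lit 0) (nat_lit 0x7de929ef78) (nat_lit 1025492832),
  Rx.mk (nat_lit 511) (nat_lit 7) (nat_lit 7) (nat_lit 7) (nat_lit 7) (nat_lit 220) (nat_lit 39) r2_220 r7_39 (nat_lit 0) (nat_lit 0) (nat_lit 0) (nat_lit 0x7de105d1c2) (nat_lit 1041102504)]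
noncomputable def e42_26 : List Rx := [
  Rx.mk (nat_lit 484) (nat_lit 4) (nat_lit 4) (nat_lit 7) (nat_lit 4) (nat_lit 230) (nat_lit 292) r2_230 r9_292 (nat_lit 0) (nat_lit 0) (nat_lit 0) (nat_lit 0x716992d56a) (nat_lit 7160374728),
  Rx.mk (nat_lit 486) (nat_lit 6) (nat_lit 4) (nat_lit 7) (nat_lit 5) (nat_lit 232) (nat_lit 294) r2_232 r9_294 (nat_lit 0) (nat_lit 0) (nat_lit 0) (nat_lit 0x7d8494d92e) (nat_lit 1218349080),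
  Rx.mk (nat_lit 487) (nat_lit 7) (nat_lit 4) (nat_lit 7) (nat_lit 5) (nat_lit 235) (nat_lit 293) r2_235 r9_293 (nat_lit 0) (nat_lit 0) (nat_lit 0) (nat_lit 0x7d6c413e80) (nat_lit 1264992768),
  Rx.mk (nat_lit 492) (nat_lit 4) (nat_lit 5) (nat_lit 7) (nat_lit 6) (nat_lit 231) (nat_lit 295) r2_231 r9_295 (nat_lit 0) (nat_lit 0) (nat_lit 0) (nat_lit 0x7c4aec14f4) (nat_lit 1819758096),
  Rx.mk (nat_lit 494) (nat_lit 6) (nat_lit 5) (nat_lit 7) (nat_lit 7) (nat_lit 233) (nat_lit 297) r2_233 r9_297 (nat_lit 0) (nat_lit 0) (nat_lit 0) (nat_lit 0x7de22aff6e) (nat_lit 1038906648),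
  Rx.mk (nat_lit 495) (nat_lit 7) (nat_lit 5) (nat_lit 7) (nat_lit 7) (nat_lit 236) (nat_lit 296) r2_236 r9_296 (nat_lit 0) (nat_lit 0) (nat_lit 0) (nat_lit 0x7dce829a08) (nat_lit 1076598432),
  Rx.mk (nat_lit 502) (nat_lit 6) (nat_lit 6) (nat_lit 7) (nat_lit 7) (nat_lit 234) (nat_lit 298) r2_234 r9_298 (nat_lit 0) (nat_lit 0) (nat_lit 0) (nat_lit 0x7ddafc725e) (nat_lit 1052677080)]
noncomputable def e42_27 : List Rx := [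
  Rx.mk (nat_lit 228) (nat_lit 4) (nat_lit 4) (nat_lit 3) (nat_lit 4) (nat_lit 258) (nat_lit 309) r2_258 r10_309 (nat_lit 0) (nat_lit 0) (nat_lit 0) (nat_lit 0x66e4917006) (nat_lit 12323932920),
  Rx.mk (nat_lit 231) (nat_lit 7) (nat_lit 4) (nat_lit 3) (nat_lit 5) (nat_lit 265) (nat_lit 310) r2_265 r10_310 (nat_lit 0) (nat_lit 0) (nat_lit 0) (nat_lit 0x7dd287b9b2) (nat_lit 1068890472),
  Rx.mk (nat_lit 236) (nat_lit 4) (nat_lit 5) (nat_lit 3) (nat_lit 6) (nat_lit 259) (nat_lit 313) r2_259 r10_313 (nat_lit 0) (nat_lit 0) (nat_lit 0) (nat_lit 0x7dd88cf958) (nat_lit 1057346784),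
  Rx.mk (nat_lit 239) (nat_lit 7) (nat_lit 5) (nat_lit 3) (nat_lit 7) (nat_lit 266) (nat_lit 314) r2_266 r10_314 (nat_lit 0) (nat_lit 0) (nat_lit 0) (nat_lit 0x7dd90551d2) (nat_lit 1056445416),
  Rx.mk (nat_lit 255) (nat_lit 7) (nat_lit 7) (nat_lit 3) (nat_lit 7) (nat_lit 267) (nat_lit 316) r2_267 r10_316 (nat_lit 0) (nat_lit 0) (nat_lit 0) (nat_lit 0x7df6d8b47e) (nat_lit 999257688),
  Rx.mk (nat_lit 484) (nat_lit 4) (nat_lit 4) (nat_lit 7) (nat_lit 4) (nat_lit 260) (nat_lit 308) r2_260 r10_308 (nat_lit 0) (nat_lit 0) (nat_lit 0) (nat_lit 0x6a7892cc5c) (nat_lit 10567587888),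
  Rx.mk (nat_lit 486) (nat_lit 6) (nat_lit 4) (nat_lit 7) (nat_lit 5) (nat_lit 262) (nat_lit 311) r2_262 r10_311 (nat_lit 0) (nat_lit 0) (nat_lit 0) (nat_lit 0x7dc32e4f58) (nat_lit 1098321120),
  Rx.mk (nat_lit 492) (nat_lit 4) (nat_lit 5) (nat_lit 7) (nat_lit 6) (nat_lit 261) (nat_lit 312) r2_261 r10_312 (nat_lit 0) (nat_lit 0) (nat_lit 0) (nat_lit 0x7dda7c9a5c) (nat_lit 1053634608),
  Rx.mk (nat_lit 494) (nat_lit 6) (nat_lit 5) (nat_lit 7) (nat_lit 7) (nat_lit 263) (nat_lit 315) r2_263 r10_315 (nat_lit 0) (nat_lit 0) (nat_lit 0) (nat_lit 0x7de6ab7762) (nat_lit 1030274856),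
  Rx.mk (nat_lit 502) (nat_lit 6) (nat_lit 6) (nat_lit 7) (nat_lit 7) (nat_lit 264) (nat_lit 317) r2_264 r10_317 (nat_lit 0) (nat_lit 0) (nat_lit 0) (nat_lit 0x7df7510cf8) (nat_lit 998356320)]
noncomputable def e42_28 : List Rx := [
  Rx.mk (nat_lit 76) (nat_lit 4) (nat_lit 1) (nat_lit 1) (nat_lit 6) (nat_lit 370) (nat_lit 340) r2_370 r10_340 (nat_lit 0) (nat_lit 0) (nat_lit 0) (nat_lit 0x7da4f55306) (nat_lit 1156269816),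
  Rx.mk (nat_lit 77) (nat_lit 5) (nat_lit 1) (nat_lit 1) (nat_lit 7) (nat_lit 371) (nat_lit 341) r2_371 r10_341 (nat_lit 0) (nat_lit 0) (nat_lit 0) (nat_lit 0x7df51550b6) (nat_lit 1002638520),
  Rx.mk (nat_lit 79) (nat_lit 7) (nat_lit 1) (nat_lit 1) (nat_lit 7) (nat_lit 372) (nat_lit 342) r2_372 r10_342 (nat_lit 0) (nat_lit 0) (nat_lit 0) (nat_lit 0x7df79428c6) (nat_lit 997853688),
  Rx.mk (nat_lit 111) (nat_lit 7) (nat_lit 5) (nat_lit 1) (nat_lit 7) (nat_lit 373) (nat_lit 339) r2_373 r10_339 (nat_lit 0) (nat_lit 0) (nat_lit 0) (nat_lit 0x7dec0621b2) (nat_lit 1020008808)]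
noncomputable def e42_29 : List Rx := [
  Rx.mk (nat_lit 207) (nat_lit 7) (nat_lit 1) (nat_lit 3) (nat_lit 7) (nat_lit 94) (nat_lit 11) r2_94 r5_11 (nat_lit 0) (nat_lit 0) (nat_lit 0) (nat_lit 0x7de5390e8a) (nat_lit 1033049160),
  Rx.mk (nat_lit 239) (nat_lit 7) (nat_lit 5) (nat_lit 3) (nat_lit 7) (nat_lit 95) (nat_lit 10) r2_95 r5_10 (nat_lit 0) (nat_lit 0) (nat_lit 0) (nat_lit 0x7de5390e8a) (nat_lit 1033049160)]
noncomputable def e42_30 : List Rx := [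
  Rx.mk (nat_lit 495) (nat_lit 7) (nat_lit 5) (nat_lit 7) (nat_lit 7) (nat_lit 237) (nat_lit 5) r2_237 r10_5 (nat_lit 0) (nat_lit 0) (nat_lit 0) (nat_lit 0x7dd3702b2a) (nat_lit 1067149512)]
noncomputable def e42_31 : List Rx := [
  Rx.mk (nat_lit 15) (nat_lit 7) (nat_lit 1) (nat_lit 0) (nat_lit 3) (nat_lit 269) (nat_lit 286) r2_269 r5_286 (nat_lit 0) (nat_lit 0) (nat_lit 0) (nat_lit 0x7d5005c254) (nat_lit 1319125392),
  Rx.mk (nat_lit 47) (nat_lit 7) (nat_lit 5) (nat_lit 0) (nat_lit 3) (nat_lit 270) (nat_lit 289) r2_270 r5_289 (nat_lit 0) (nat_lit 0) (nat_lit 0) (nat_lit 0x7d0b86ea86) (nat_lit 1450458360),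
  Rx.mk (nat_lit 204) (nat_lit 4) (nat_lit 1) (nat_lit 3) (nat_lit 6) (nat_lit 268) (nat_lit 287) r2_268 r5_287 (nat_lit 0) (nat_lit 0) (nat_lit 0) (nat_lit 0x7d47970948) (nat_lit 1335293856),
  Rx.mk (nat_lit 207) (nat_lit 7) (nat_lit 1) (nat_lit 3) (nat_lit 7) (nat_lit 271) (nat_lit 288) r2_271 r5_288 (nat_lit 0) (nat_lit 0) (nat_lit 0) (nat_lit 0x7de4629bf2) (nat_lit 1034655336)]
noncomputable def e42_32 : List Rx := [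
  Rx.mk (nat_lit 47) (nat_lit 7) (nat_lit 5) (nat_lit 0) (nat_lit 3) (nat_lit 273) (nat_lit 369) r2_273 r11_369 (nat_lit 0) (nat_lit 0) (nat_lit 0) (nat_lit 0x7d2c30dfc6) (nat_lit 1387828728),
  Rx.mk (nat_lit 204) (nat_lit 4) (nat_lit 1) (nat_lit 3) (nat_lit 6) (nat_lit 272) (nat_lit 367) r2_272 r11_367 (nat_lit 0) (nat_lit 0) (nat_lit 0) (nat_lit 0x7d2c30dfc6) (nat_lit 1387828728),
  Rx.mk (nat_lit 207) (nat_lit 7) (nat_lit 1) (nat_lit 3) (nat_lit 7) (nat_lit 274) (nat_lit 368) r2_274 r11_368 (nat_lit 0) (nat_lit 0) (nat_lit 0) (nat_lit 0x7dc1c905ae) (nat_lit 1100997144),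
  Rx.mk (nat_lit 239) (nat_lit 7) (nat_lit 5) (nat_lit 3) (nat_lit 7) (nat_lit 275) (nat_lit 370) r2_275 r11_370 (nat_lit 0) (nat_lit 0) (nat_lit 0) (nat_lit 0x7dc1c905ae) (nat_lit 1100997144)]
noncomputable def e42_33 : List Rx := [
  Rx.mk (nat_lit 3) (nat_lit 3) (nat_lit 0) (nat_lit 0) (nat_lit 1) (nat_lit 4) (nat_lit 34) r2_4 r0_34 (nat_lit 0) (nat_lit 0) (nat_lit 0) (nat_lit 0x66c500a932) (nat_lit 12384456552),
  Rx.mk (nat_lit 11) (nat_lit 3) (nat_lit 1) (nat_lit 0) (nat_lit 3) (nat_lit 5) (nat_lit 35) r2_5 r0_35 (nat_lit 0) (nat_lit 0) (nat_lit 0) (nat_lit 0x7ddc9338f0) (nat_lit 1049630400),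
  Rx.mk (nat_lit 128) (nat_lit 0) (nat_lit 0) (nat_lit 2) (nat_lit 4) (nat_lit 0) (nat_lit 31) r2_0 r0_31 (nat_lit 0) (nat_lit 0) (nat_lit 0) (nat_lit 0x6b355bdf0e) (nat_lit 10205611416),
  Rx.mk (nat_lit 131) (nat_lit 3) (nat_lit 0) (nat_lit 2) (nat_lit 5) (nat_lit 6) (nat_lit 39) r2_6 r0_39 (nat_lit 0) (nat_lit 0) (nat_lit 0) (nat_lit 0x7e5ff6223e) (nat_lit 797710680),
  Rx.mk (nat_lit 136) (nat_lit 0) (nat_lit 1) (nat_lit 2) (nat_lit 6) (nat_lit 1) (nat_lit 32) r2_1 r0_32 (nat_lit 0) (nat_lit 0) (nat_lit 0) (nat_lit 0x7e4b276f3e) (nat_lit 837606744),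
  Rx.mk (nat_lit 139) (nat_lit 3) (nat_lit 1) (nat_lit 2) (nat_lit 7) (nat_lit 7) (nat_lit 40) r2_7 r0_40 (nat_lit 0) (nat_lit 0) (nat_lit 0) (nat_lit 0x7e8b2b6ebe) (nat_lit 714863448),
  Rx.mk (nat_lit 144) (nat_lit 0) (nat_lit 2) (nat_lit 2) (nat_lit 6) (nat_lit 2) (nat_lit 33) r2_2 r0_33 (nat_lit 0) (nat_lit 0) (nat_lit 0) (nat_lit 0x7dc39c287a) (nat_lit 1097498376),
  Rx.mk (nat_lit 146) (nat_lit 2) (nat_lit 2) (nat_lit 2) (nat_lit 7) (nat_lit 3) (nat_lit 42) r2_3 r0_42 (nat_lit 0) (nat_lit 0) (nat_lit 0) (nat_lit 0x7ddddb446e) (nat_lit 1047173400),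
  Rx.mk (nat_lit 147) (nat_lit 3) (nat_lit 2) (nat_lit 2) (nat_lit 7) (nat_lit 8) (nat_lit 41) r2_8 r0_41 (nat_lit 0) (nat_lit 0) (nat_lit 0) (nat_lit 0x7e6254bc52) (nat_lit 793167336),
  Rx.mk (nat_lit 195) (nat_lit 3) (nat_lit 0) (nat_lit 3) (nat_lit 5) (nat_lit 9) (nat_lit 36) r2_9 r0_36 (nat_lit 0) (nat_lit 0) (nat_lit 0) (nat_lit 0x7dce709b28) (nat_lit 1076733216),
  Rx.mk (nat_lit 203) (nat_lit 3) (nat_lit 1) (nat_lit 3) (nat_lit 7) (nat_lit 10) (nat_lit 37) r2_10 r0_37 (nat_lit 0) (nat_lit 0) (nat_lit 0) (nat_lit 0x7df79428c6) (nat_lit 997853688),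
  Rx.mk (nat_lit 219) (nat_lit 3) (nat_lit 3) (nat_lit 3) (nat_lit 7) (nat_lit 11) (nat_lit 38) r2_11 r0_38 (nat_lit 0) (nat_lit 0) (nat_lit 0) (nat_lit 0x7ded8609b2) (nat_lit 1017133416),
  Rx.mk (nat_lit 223) (nat_lit 7) (nat_lit 3) (nat_lit 3) (nat_lit 7) (nat_lit 12) (nat_lit 30) r2_12 r0_30 (nat_lit 0) (nat_lit 0) (nat_lit 0) (nat_lit 0x7df6905904) (nat_lit 999799632)]
noncomputable def e42_34 : List Rx := [
  Rx.mk (nat_lit 8) (nat_lit 0) (nat_lit 1) (nat_lit 0) (nat_lit 2) (nat_lit 98) (nat_lit 254) r2_98 r0_254 (nat_lit 0) (nat_lit 0) (nat_lit 0) (nat_lit 0x58ede04910) (nat_lit 19178033472),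
  Rx.mk (nat_lit 11) (nat_lit 3) (nat_lit 1) (nat_lit 0) (nat_lit 3) (nat_lit 99) (nat_lit 255) r2_99 r0_255 (nat_lit 0) (nat_lit 0) (nat_lit 0) (nat_lit 0x7c870832f6) (nat_lit 1704503736),
  Rx.mk (nat_lit 203) (nat_lit 3) (nat_lit 1) (nat_lit 3) (nat_lit 7) (nat_lit 100) (nat_lit 256) r2_100 r0_256 (nat_lit 0) (nat_lit 0) (nat_lit 0) (nat_lit 0x7df272dae0) (nat_lit 1007690112)]
noncomputable def e42_35 : List Rx := [
  Rx.mk (nat_lit 0) (nat_lit 0) (nat_lit 0) (nat_lit 0) (nat_lit 0) (nat_lit 101) (nat_lit 21) r2_101 r6_21 (nat_lit 0) (nat_lit 0) (nat_lit 0) (nat_lit 0x3b982e8184) (nat_lit 33577092432),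
  Rx.mk (nat_lit 3) (nat_lit 3) (nat_lit 0) (nat_lit 0) (nat_lit 1) (nat_lit 107) (nat_lit 26) r2_107 r6_26 (nat_lit 0) (nat_lit 0) (nat_lit 0) (nat_lit 0x6e2c488d4c) (nat_lit 8750452464),
  Rx.mk (nat_lit 8) (nat_lit 0) (nat_lit 1) (nat_lit 0) (nat_lit 2) (nat_lit 102) (nat_lit 22) r2_102 r6_22 (nat_lit 0) (nat_lit 0) (nat_lit 0) (nat_lit 0x68b79d5d74) (nat_lit 11428419600),
  Rx.mk (nat_lit 11) (nat_lit 3) (nat_lit 1) (nat_lit 0) (nat_lit 3) (nat_lit 108) (nat_lit 27) r2_108 r6_27 (nat_lit 0) (nat_lit 0) (nat_lit 0) (nat_lit 0x7dcd510d22) (nat_lit 1078886952),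
  Rx.mk (nat_lit 128) (nat_lit 0) (nat_lit 0) (nat_lit 2) (nat_lit 4) (nat_lit 103) (nat_lit 23) r2_103 r6_23 (nat_lit 0) (nat_lit 0) (nat_lit 0) (nat_lit 0x75dc704320) (nat_lit 4976719488),
  Rx.mk (nat_lit 131) (nat_lit 3) (nat_lit 0) (nat_lit 2) (nat_lit 5) (nat_lit 109) (nat_lit 31) r2_109 r6_31 (nat_lit 0) (nat_lit 0) (nat_lit 0) (nat_lit 0x7dd93fce2a) (nat_lit 1056007368),
  Rx.mk (nat_lit 136) (nat_lit 0) (nat_lit 1) (nat_lit 2) (nat_lit 6) (nat_lit 104) (nat_lit 24) r2_104 r6_24 (nat_lit 0) (nat_lit 0) (nat_lit 0) (nat_lit 0x7d6beb63de) (nat_lit 1265635800),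
  Rx.mk (nat_lit 139) (nat_lit 3) (nat_lit 1) (nat_lit 2) (nat_lit 7) (nat_lit 110) (nat_lit 32) r2_110 r6_32 (nat_lit 0) (nat_lit 0) (nat_lit 0) (nat_lit 0x7ddcd23500) (nat_lit 1049158656),
  Rx.mk (nat_lit 144) (nat_lit 0) (nat_lit 2) (nat_lit 2) (nat_lit 6) (nat_lit 105) (nat_lit 25) r2_105 r6_25 (nat_lit 0) (nat_lit 0) (nat_lit 0) (nat_lit 0x7d26cf15e8) (nat_lit 1398148128),
  Rx.mk (nat_lit 146) (nat_lit 2) (nat_lit 2) (nat_lit 2) (nat_lit 7) (nat_lit 106) (nat_lit 34) r2_106 r6_34 (nat_lit 0) (nat_lit 0) (nat_lit 0) (nat_lit 0x7dc2f852b8) (nat_lit 1098725472),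
  Rx.mk (nat_lit 147) (nat_lit 3) (nat_lit 2) (nat_lit 2) (nat_lit 7) (nat_lit 111) (nat_lit 33) r2_111 r6_33 (nat_lit 0) (nat_lit 0) (nat_lit 0) (nat_lit 0x7df6c535b6) (nat_lit 999403704),
  Rx.mk (nat_lit 195) (nat_lit 3) (nat_lit 0) (nat_lit 3) (nat_lit 5) (nat_lit 112) (nat_lit 28) r2_112 r6_28 (nat_lit 0) (nat_lit 0) (nat_lit 0) (nat_lit 0x7d86aa57d4) (nat_lit 1214353296),
  Rx.mk (nat_lit 203) (nat_lit 3) (nat_lit 1) (nat_lit 3) (nat_lit 7) (nat_lit 113) (nat_lit 29) r2_113 r6_29 (nat_lit 0) (nat_lit 0) (nat_lit 0) (nat_lit 0x7dfc7eba18) (nat_lit 988427232),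
  Rx.mk (nat_lit 219) (nat_lit 3) (nat_lit 3) (nat_lit 3) (nat_lit 7) (nat_lit 114) (nat_lit 30) r2_114 r6_30 (nat_lit 0) (nat_lit 0) (nat_lit 0) (nat_lit 0x7dda493d92) (nat_lit 1054019304)]
noncomputable def e42_36 : List Rx := [
  Rx.mk (nat_lit 9) (nat_lit 1) (nat_lit 1) (nat_lit 0) (nat_lit 3) (nat_lit 286) (nat_lit 286) r2_286 r2_286 (nat_lit 0) (nat_lit 0) (nat_lit 0) (nat_lit 0x7b91b0e960) (nat_lit 2174919552),
  Rx.mk (nat_lit 73) (nat_lit 1) (nat_lit 1) (nat_lit 1) (nat_lit 7) (nat_lit 287) (nat_lit 287) r2_287 r2_287 (nat_lit 0) (nat_lit 0) (nat_lit 0) (nat_lit 0x7de334ced0) (nat_lit 1036915776)]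
noncomputable def e42_37 : List Rx := [
  Rx.mk (nat_lit 1) (nat_lit 1) (nat_lit 0) (nat_lit 0) (nat_lit 1) (nat_lit 289) (nat_lit 260) r2_289 r8_260 (nat_lit 0) (nat_lit 0) (nat_lit 0) (nat_lit 0x6d72596cf8) (nat_lit 9106961760),
  Rx.mk (nat_lit 9) (nat_lit 1) (nat_lit 1) (nat_lit 0) (nat_lit 3) (nat_lit 290) (nat_lit 262) r2_290 r8_262 (nat_lit 0) (nat_lit 0) (nat_lit 0) (nat_lit 0x7cf90c5242) (nat_lit 1485889704),
  Rx.mk (nat_lit 73) (nat_lit 1) (nat_lit 1) (nat_lit 1) (nat_lit 7) (nat_lit 291) (nat_lit 263) r2_291 r8_263 (nat_lit 0) (nat_lit 0) (nat_lit 0) (nat_lit 0x7db6e7d3cc) (nat_lit 1121857776),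
  Rx.mk (nat_lit 129) (nat_lit 1) (nat_lit 0) (nat_lit 2) (nat_lit 5) (nat_lit 292) (nat_lit 261) r2_292 r8_261 (nat_lit 0) (nat_lit 0) (nat_lit 0) (nat_lit 0x7de2ed334a) (nat_lit 1037452104),
  Rx.mk (nat_lit 137) (nat_lit 1) (nat_lit 1) (nat_lit 2) (nat_lit 7) (nat_lit 293) (nat_lit 264) r2_293 r8_264 (nat_lit 0) (nat_lit 0) (nat_lit 0) (nat_lit 0x7de452dcee) (nat_lit 1034773272),
  Rx.mk (nat_lit 145) (nat_lit 1) (nat_lit 2) (nat_lit 2) (nat_lit 7) (nat_lit 294) (nat_lit 265) r2_294 r8_265 (nat_lit 0) (nat_lit 0) (nat_lit 0) (nat_lit 0x7df79428c6) (nat_lit 997853688)]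
noncomputable def e42_38 : List Rx := [
  Rx.mk (nat_lit 73) (nat_lit 1) (nat_lit 1) (nat_lit 1) (nat_lit 7) (nat_lit 288) (nat_lit 293) r2_288 r8_293 (nat_lit 0) (nat_lit 0) (nat_lit 0) (nat_lit 0x7dee79ba76) (nat_lit 1015308216)]
noncomputable def e42_39 : List Rx := [
  Rx.mk (nat_lit 8) (nat_lit 0) (nat_lit 1) (nat_lit 0) (nat_lit 2) (nat_lit 115) (nat_lit 258) r2_115 r1_258 (nat_lit 0) (nat_lit 0) (nat_lit 0) (nat_lit 0x64fea130f0) (nat_lit 13255669440),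
  Rx.mk (nat_lit 9) (nat_lit 1) (nat_lit 1) (nat_lit 0) (nat_lit 3) (nat_lit 116) (nat_lit 259) r2_116 r1_259 (nat_lit 0) (nat_lit 0) (nat_lit 0) (nat_lit 0x7d01d9256c) (nat_lit 1469016432),
  Rx.mk (nat_lit 11) (nat_lit 3) (nat_lit 1) (nat_lit 0) (nat_lit 3) (nat_lit 117) (nat_lit 260) r2_117 r1_260 (nat_lit 0) (nat_lit 0) (nat_lit 0) (nat_lit 0x7dc4639c02) (nat_lit 1096004520),
  Rx.mk (nat_lit 203) (nat_lit 3) (nat_lit 1) (nat_lit 3) (nat_lit 7) (nat_lit 118) (nat_lit 261) r2_118 r1_261 (nat_lit 0) (nat_lit 0) (nat_lit 0) (nat_lit 0x7deee313e0) (nat_lit 1014519168)]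
noncomputable def e42_40 : List Rx := [
  Rx.mk (nat_lit 0) (nat_lit 0) (nat_lit 0) (nat_lit 0) (nat_lit 0) (nat_lit 119) (nat_lit 25) r2_119 r7_25 (nat_lit 0) (nat_lit 0) (nat_lit 0) (nat_lit 0x29642f73aa) (nat_lit 42512151240),
  Rx.mk (nat_lit 1) (nat_lit 1) (nat_lit 0) (nat_lit 0) (nat_lit 1) (nat_lit 124) (nat_lit 30) r2_124 r7_30 (nat_lit 0) (nat_lit 0) (nat_lit 0) (nat_lit 0x7afaf2d5d8) (nat_lit 2463952608),
  Rx.mk (nat_lit 3) (nat_lit 3) (nat_lit 0) (nat_lit 0) (nat_lit 1) (nat_lit 130) (nat_lit 35) r2_130 r7_35 (nat_lit 0) (nat_lit 0) (nat_lit 0) (nat_lit 0x7a45758e62) (nat_lit 2811939624),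
  Rx.mk (nat_lit 8) (nat_lit 0) (nat_lit 1) (nat_lit 0) (nat_lit 2) (nat_lit 120) (nat_lit 26) r2_120 r7_26 (nat_lit 0) (nat_lit 0) (nat_lit 0) (nat_lit 0x7204dfa002) (nat_lit 6862603176),
  Rx.mk (nat_lit 9) (nat_lit 1) (nat_lit 1) (nat_lit 0) (nat_lit 3) (nat_lit 125) (nat_lit 31) r2_125 r7_31 (nat_lit 0) (nat_lit 0) (nat_lit 0) (nat_lit 0x7d1ecd760a) (nat_lit 1413499464),
  Rx.mk (nat_lit 11) (nat_lit 3) (nat_lit 1) (nat_lit 0) (nat_lit 3) (nat_lit 131) (nat_lit 36) r2_131 r7_36 (nat_lit 0) (nat_lit 0) (nat_lit 0) (nat_lit 0x7dd31cf05e) (nat_lit 1067772888),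
  Rx.mk (nat_lit 128) (nat_lit 0) (nat_lit 0) (nat_lit 2) (nat_lit 4) (nat_lit 121) (nat_lit 27) r2_121 r7_27 (nat_lit 0) (nat_lit 0) (nat_lit 0) (nat_lit 0x7ba3736d26) (nat_lit 2140866936),
  Rx.mk (nat_lit 129) (nat_lit 1) (nat_lit 0) (nat_lit 2) (nat_lit 5) (nat_lit 126) (nat_lit 32) r2_126 r7_32 (nat_lit 0) (nat_lit 0) (nat_lit 0) (nat_lit 0x7de3209014) (nat_lit 1037067408),
  Rx.mk (nat_lit 131) (nat_lit 3) (nat_lit 0) (nat_lit 2) (nat_lit 5) (nat_lit 132) (nat_lit 40) r2_132 r7_40 (nat_lit 0) (nat_lit 0) (nat_lit 0) (nat_lit 0x7d9f1fb066) (nat_lit 1167456888),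
  Rx.mk (nat_lit 136) (nat_lit 0) (nat_lit 1) (nat_lit 2) (nat_lit 6) (nat_lit 122) (nat_lit 28) r2_122 r7_28 (nat_lit 0) (nat_lit 0) (nat_lit 0) (nat_lit 0x7dded494d8) (nat_lit 1045306080),
  Rx.mk (nat_lit 137) (nat_lit 1) (nat_lit 1) (nat_lit 2) (nat_lit 7) (nat_lit 127) (nat_lit 33) r2_127 r7_33 (nat_lit 0) (nat_lit 0) (nat_lit 0) (nat_lit 0x7df944cdba) (nat_lit 994613256),
  Rx.mk (nat_lit 139) (nat_lit 3) (nat_lit 1) (nat_lit 2) (nat_lit 7) (nat_lit 133) (nat_lit 41) r2_133 r7_41 (nat_lit 0) (nat_lit 0) (nat_lit 0) (nat_lit 0x7dcf8c696a) (nat_lit 1074607560),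
  Rx.mk (nat_lit 144) (nat_lit 0) (nat_lit 2) (nat_lit 2) (nat_lit 6) (nat_lit 123) (nat_lit 29) r2_123 r7_29 (nat_lit 0) (nat_lit 0) (nat_lit 0) (nat_lit 0x7dacbf765c) (nat_lit 1141334064),
  Rx.mk (nat_lit 145) (nat_lit 1) (nat_lit 2) (nat_lit 2) (nat_lit 7) (nat_lit 128) (nat_lit 34) r2_128 r7_34 (nat_lit 0) (nat_lit 0) (nat_lit 0) (nat_lit 0x7dd548ed9c) (nat_lit 1063608624),
  Rx.mk (nat_lit 146) (nat_lit 2) (nat_lit 2) (nat_lit 2) (nat_lit 7) (nat_lit 129) (nat_lit 42) r2_129 r7_42 (nat_lit 0) (nat_lit 0) (nat_lit 0) (nat_lit 0x7dd1b1471a) (nat_lit 1070496648),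
  Rx.mk (nat_lit 195) (nat_lit 3) (nat_lit 0) (nat_lit 3) (nat_lit 5) (nat_lit 134) (nat_lit 37) r2_134 r7_37 (nat_lit 0) (nat_lit 0) (nat_lit 0) (nat_lit 0x7ddea617c0) (nat_lit 1045654272),
  Rx.mk (nat_lit 203) (nat_lit 3) (nat_lit 1) (nat_lit 3) (nat_lit 7) (nat_lit 135) (nat_lit 38) r2_135 r7_38 (nat_lit 0) (nat_lit 0) (nat_lit 0) (nat_lit 0x7de929ef78) (nat_lit 1025492832),
  Rx.mk (nat_lit 219) (nat_lit 3) (nat_lit 3) (nat_lit 3) (nat_lit 7) (nat_lit 136) (nat_lit 39) r2_136 r7_39 (nat_lit 0) (nat_lit 0) (nat_lit 0) (nat_lit 0x7de105d1c2) (nat_lit 1041102504)]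
noncomputable def e42_41 : List Rx := [
  Rx.mk (nat_lit 3) (nat_lit 3) (nat_lit 0) (nat_lit 0) (nat_lit 1) (nat_lit 16) (nat_lit 33) r2_16 r1_33 (nat_lit 0) (nat_lit 0) (nat_lit 0) (nat_lit 0x70f45ca942) (nat_lit 7385115816),
  Rx.mk (nat_lit 128) (nat_lit 0) (nat_lit 0) (nat_lit 2) (nat_lit 4) (nat_lit 13) (nat_lit 31) r2_13 r1_31 (nat_lit 0) (nat_lit 0) (nat_lit 0) (nat_lit 0x68c0f427fe) (nat_lit 11410512984),
  Rx.mk (nat_lit 131) (nat_lit 3) (nat_lit 0) (nat_lit 2) (nat_lit 5) (nat_lit 17) (nat_lit 36) r2_17 r1_36 (nat_lit 0) (nat_lit 0) (nat_lit 0) (nat_lit 0x7e35c32598) (nat_lit 878623200),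
  Rx.mk (nat_lit 144) (nat_lit 0) (nat_lit 2) (nat_lit 2) (nat_lit 6) (nat_lit 14) (nat_lit 32) r2_14 r1_32 (nat_lit 0) (nat_lit 0) (nat_lit 0) (nat_lit 0x7d4e539d78) (nat_lit 1322377056),
  Rx.mk (nat_lit 146) (nat_lit 2) (nat_lit 2) (nat_lit 2) (nat_lit 7) (nat_lit 15) (nat_lit 38) r2_15 r1_38 (nat_lit 0) (nat_lit 0) (nat_lit 0) (nat_lit 0x7dd4655bd6) (nat_lit 1065313080),
  Rx.mk (nat_lit 147) (nat_lit 3) (nat_lit 2) (nat_lit 2) (nat_lit 7) (nat_lit 18) (nat_lit 37) r2_18 r1_37 (nat_lit 0) (nat_lit 0) (nat_lit 0) (nat_lit 0x7de79fe81a) (nat_lit 1028444040),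
  Rx.mk (nat_lit 195) (nat_lit 3) (nat_lit 0) (nat_lit 3) (nat_lit 5) (nat_lit 19) (nat_lit 34) r2_19 r1_34 (nat_lit 0) (nat_lit 0) (nat_lit 0) (nat_lit 0x7d5dee43be) (nat_lit 1292457816),
  Rx.mk (nat_lit 219) (nat_lit 3) (nat_lit 3) (nat_lit 3) (nat_lit 7) (nat_lit 20) (nat_lit 35) r2_20 r1_35 (nat_lit 0) (nat_lit 0) (nat_lit 0) (nat_lit 0x7dad1d3080) (nat_lit 1140632064),
  Rx.mk (nat_lit 223) (nat_lit 7) (nat_lit 3) (nat_lit 3) (nat_lit 7) (nat_lit 21) (nat_lit 30) r2_21 r1_30 (nat_lit 0) (nat_lit 0) (nat_lit 0) (nat_lit 0x7de7ede33a) (nat_lit 1027859976)]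
noncomputable def e42_42 : List Rx := [
  Rx.mk (nat_lit 3) (nat_lit 3) (nat_lit 0) (nat_lit 0) (nat_lit 1) (nat_lit 27) (nat_lit 35) r2_27 r2_35 (nat_lit 0) (nat_lit 0) (nat_lit 0) (nat_lit 0x550354d5b2) (nat_lit 21100308840),
  Rx.mk (nat_lit 27) (nat_lit 3) (nat_lit 3) (nat_lit 0) (nat_lit 3) (nat_lit 28) (nat_lit 36) r2_28 r2_36 (nat_lit 0) (nat_lit 0) (nat_lit 0) (nat_lit 0x6a1206358c) (nat_lit 10764215280),
  Rx.mk (nat_lit 128) (nat_lit 0) (nat_lit 0) (nat_lit 2) (nat_lit 4) (nat_lit 22) (nat_lit 33) r2_22 r2_33 (nat_lit 0) (nat_lit 0) (nat_lit 0) (nat_lit 0x550354d5b2) (nat_lit 21100308840),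
  Rx.mk (nat_lit 131) (nat_lit 3) (nat_lit 0) (nat_lit 2) (nat_lit 5) (nat_lit 29) (nat_lit 38) r2_29 r2_38 (nat_lit 0) (nat_lit 0) (nat_lit 0) (nat_lit 0x7ad471be10) (nat_lit 2537780544),
  Rx.mk (nat_lit 144) (nat_lit 0) (nat_lit 2) (nat_lit 2) (nat_lit 6) (nat_lit 23) (nat_lit 34) r2_23 r2_34 (nat_lit 0) (nat_lit 0) (nat_lit 0) (nat_lit 0x6a1206358c) (nat_lit 10764215280),
  Rx.mk (nat_lit 146) (nat_lit 2) (nat_lit 2) (nat_lit 2) (nat_lit 7) (nat_lit 24) (nat_lit 43) r2_24 r2_43 (nat_lit 0) (nat_lit 0) (nat_lit 0) (nat_lit 0x7d20e4d492) (nat_lit 1409489640),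
  Rx.mk (nat_lit 147) (nat_lit 3) (nat_lit 2) (nat_lit 2) (nat_lit 7) (nat_lit 30) (nat_lit 40) r2_30 r2_40 (nat_lit 0) (nat_lit 0) (nat_lit 0) (nat_lit 0x7d654c0dda) (nat_lit 1278333576),
  Rx.mk (nat_lit 155) (nat_lit 3) (nat_lit 3) (nat_lit 2) (nat_lit 7) (nat_lit 31) (nat_lit 39) r2_31 r2_39 (nat_lit 0) (nat_lit 0) (nat_lit 0) (nat_lit 0x7d654c0dda) (nat_lit 1278333576),
  Rx.mk (nat_lit 219) (nat_lit 3) (nat_lit 3) (nat_lit 3) (nat_lit 7) (nat_lit 32) (nat_lit 37) r2_32 r2_37 (nat_lit 0) (nat_lit 0) (nat_lit 0) (nat_lit 0x7d20e4d492) (nat_lit 1409489640),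
  Rx.mk (nat_lit 223) (nat_lit 7) (nat_lit 3) (nat_lit 3) (nat_lit 7) (nat_lit 41) (nat_lit 26) r2_41 r2_26 (nat_lit 0) (nat_lit 0) (nat_lit 0) (nat_lit 0x7d3b442e82) (nat_lit 1358923176),
  Rx.mk (nat_lit 255) (nat_lit 7) (nat_lit 7) (nat_lit 3) (nat_lit 7) (nat_lit 42) (nat_lit 25) r2_42 r2_25 (nat_lit 0) (nat_lit 0) (nat_lit 0) (nat_lit 0x7d3b442e82) (nat_lit 1358923176),
  Rx.mk (nat_lit 294) (nat_lit 6) (nat_lit 4) (nat_lit 4) (nat_lit 1) (nat_lit 35) (nat_lit 27) r2_35 r2_27 (nat_lit 0) (nat_lit 0) (nat_lit 0) (nat_lit 0x550354d5b2) (nat_lit 21100308840),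
  Rx.mk (nat_lit 310) (nat_lit 6) (nat_lit 6) (nat_lit 4) (nat_lit 3) (nat_lit 36) (nat_lit 28) r2_36 r2_28 (nat_lit 0) (nat_lit 0) (nat_lit 0) (nat_lit 0x6a1206358c) (nat_lit 10764215280),
  Rx.mk (nat_lit 402) (nat_lit 2) (nat_lit 2) (nat_lit 6) (nat_lit 7) (nat_lit 25) (nat_lit 42) r2_25 r2_42 (nat_lit 0) (nat_lit 0) (nat_lit 0) (nat_lit 0x7d3b442e82) (nat_lit 1358923176),
  Rx.mk (nat_lit 434) (nat_lit 2) (nat_lit 6) (nat_lit 6) (nat_lit 7) (nat_lit 26) (nat_lit 41) r2_26 r2_41 (nat_lit 0) (nat_lit 0) (nat_lit 0) (nat_lit 0x7d3b442e82) (nat_lit 1358923176),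
  Rx.mk (nat_lit 438) (nat_lit 6) (nat_lit 6) (nat_lit 6) (nat_lit 7) (nat_lit 37) (nat_lit 32) r2_37 r2_32 (nat_lit 0) (nat_lit 0) (nat_lit 0) (nat_lit 0x7d20e4d492) (nat_lit 1409489640),
  Rx.mk (nat_lit 484) (nat_lit 4) (nat_lit 4) (nat_lit 7) (nat_lit 4) (nat_lit 33) (nat_lit 22) r2_33 r2_22 (nat_lit 0) (nat_lit 0) (nat_lit 0) (nat_lit 0x550354d5b2) (nat_lit 21100308840),
  Rx.mk (nat_lit 486) (nat_lit 6) (nat_lit 4) (nat_lit 7) (nat_lit 5) (nat_lit 38) (nat_lit 29) r2_38 r2_29 (nat_lit 0) (nat_lit 0) (nat_lit 0) (nat_lit 0x7ad471be10) (nat_lit 2537780544),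
  Rx.mk (nat_lit 502) (nat_lit 6) (nat_lit 6) (nat_lit 7) (nat_lit 7) (nat_lit 39) (nat_lit 31) r2_39 r2_31 (nat_lit 0) (nat_lit 0) (nat_lit 0) (nat_lit 0x7d654c0dda) (nat_lit 1278333576),
  Rx.mk (nat_lit 508) (nat_lit 4) (nat_lit 7) (nat_lit 7) (nat_lit 6) (nat_lit 34) (nat_lit 23) r2_34 r2_23 (nat_lit 0) (nat_lit 0) (nat_lit 0) (nat_lit 0x6a1206358c) (nat_lit 10764215280),
  Rx.mk (nat_lit 510) (nat_lit 6) (nat_lit 7) (nat_lit 7) (nat_lit 7) (nat_lit 40) (nat_lit 30) r2_40 r2_30 (nat_lit 0) (nat_lit 0) (nat_lit 0) (nat_lit 0x7d654c0dda) (nat_lit 1278333576),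
  Rx.mk (nat_lit 511) (nat_lit 7) (nat_lit 7) (nat_lit 7) (nat_lit 7) (nat_lit 43) (nat_lit 24) r2_43 r2_24 (nat_lit 0) (nat_lit 0) (nat_lit 0) (nat_lit 0x7d20e4d492) (nat_lit 1409489640)]
noncomputable def e42_43 : List Rx := [
  Rx.mk (nat_lit 0) (nat_lit 0) (nat_lit 0) (nat_lit 0) (nat_lit 0) (nat_lit 137) (nat_lit 257) r2_137 r7_257 (nat_lit 0) (nat_lit 0) (nat_lit 0) (nat_lit 0x1e5f4facac) (nat_lit 47920884336),
  Rx.mk (nat_lit 3) (nat_lit 3) (nat_lit 0) (nat_lit 0) (nat_lit 1) (nat_lit 141) (nat_lit 258) r2_141 r7_258 (nat_lit 0) (nat_lit 0) (nat_lit 0) (nat_lit 0x645245d752) (nat_lit 13586145768),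
  Rx.mk (nat_lit 128) (nat_lit 0) (nat_lit 0) (nat_lit 2) (nat_lit 4) (nat_lit 138) (nat_lit 260) r2_138 r7_260 (nat_lit 0) (nat_lit 0) (nat_lit 0) (nat_lit 0x69fe864d9e) (nat_lit 10801603800),
  Rx.mk (nat_lit 131) (nat_lit 3) (nat_lit 0) (nat_lit 2) (nat_lit 5) (nat_lit 142) (nat_lit 261) r2_142 r7_261 (nat_lit 0) (nat_lit 0) (nat_lit 0) (nat_lit 0x7d878d89a0) (nat_lit 1212651648),
  Rx.mk (nat_lit 144) (nat_lit 0) (nat_lit 2) (nat_lit 2) (nat_lit 6) (nat_lit 139) (nat_lit 263) r2_139 r7_263 (nat_lit 0) (nat_lit 0) (nat_lit 0) (nat_lit 0x7cb4d0f63c) (nat_lit 1616717232),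
  Rx.mk (nat_lit 146) (nat_lit 2) (nat_lit 2) (nat_lit 2) (nat_lit 7) (nat_lit 140) (nat_lit 265) r2_140 r7_265 (nat_lit 0) (nat_lit 0) (nat_lit 0) (nat_lit 0x7dc01560ea) (nat_lit 1104260040),
  Rx.mk (nat_lit 147) (nat_lit 3) (nat_lit 2) (nat_lit 2) (nat_lit 7) (nat_lit 143) (nat_lit 264) r2_143 r7_264 (nat_lit 0) (nat_lit 0) (nat_lit 0) (nat_lit 0x7dbd458dea) (nat_lit 1109651400),
  Rx.mk (nat_lit 195) (nat_lit 3) (nat_lit 0) (nat_lit 3) (nat_lit 5) (nat_lit 144) (nat_lit 259) r2_144 r7_259 (nat_lit 0) (nat_lit 0) (nat_lit 0) (nat_lit 0x7d4b54ed66) (nat_lit 1328119416),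
  Rx.mk (nat_lit 219) (nat_lit 3) (nat_lit 3) (nat_lit 3) (nat_lit 7) (nat_lit 145) (nat_lit 262) r2_145 r7_262 (nat_lit 0) (nat_lit 0) (nat_lit 0) (nat_lit 0x7dbed954ac) (nat_lit 1106627184)]
noncomputable def e42_44 : List Rx := [
  Rx.mk (nat_lit 0) (nat_lit 0) (nat_lit 0) (nat_lit 0) (nat_lit 0) (nat_lit 146) (nat_lit 2) r2_146 r8_2 (nat_lit 0) (nat_lit 0) (nat_lit 0) (nat_lit 0x22bc65d6ec) (nat_lit 45778986864),
  Rx.mk (nat_lit 3) (nat_lit 3) (nat_lit 0) (nat_lit 0) (nat_lit 1) (nat_lit 152) (nat_lit 5) r2_152 r8_5 (nat_lit 0) (nat_lit 0) (nat_lit 0) (nat_lit 0x6cc1809b36) (nat_lit 9446047416),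
  Rx.mk (nat_lit 27) (nat_lit 3) (nat_lit 3) (nat_lit 0) (nat_lit 3) (nat_lit 153) (nat_lit 6) r2_153 r8_6 (nat_lit 0) (nat_lit 0) (nat_lit 0) (nat_lit 0x7b78681e06) (nat_lit 2223399672),
  Rx.mk (nat_lit 128) (nat_lit 0) (nat_lit 0) (nat_lit 2) (nat_lit 4) (nat_lit 147) (nat_lit 3) r2_147 r8_3 (nat_lit 0) (nat_lit 0) (nat_lit 0) (nat_lit 0x69ae26f3e4) (nat_lit 10955709648),
  Rx.mk (nat_lit 131) (nat_lit 3) (nat_lit 0) (nat_lit 2) (nat_lit 5) (nat_lit 154) (nat_lit 8) r2_154 r8_8 (nat_lit 0) (nat_lit 0) (nat_lit 0) (nat_lit 0x7d4d86ea44) (nat_lit 1323910224),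
  Rx.mk (nat_lit 144) (nat_lit 0) (nat_lit 2) (nat_lit 2) (nat_lit 6) (nat_lit 148) (nat_lit 4) r2_148 r8_4 (nat_lit 0) (nat_lit 0) (nat_lit 0) (nat_lit 0x7bd6535ef4) (nat_lit 2043319824),
  Rx.mk (nat_lit 146) (nat_lit 2) (nat_lit 2) (nat_lit 2) (nat_lit 7) (nat_lit 149) (nat_lit 13) r2_149 r8_13 (nat_lit 0) (nat_lit 0) (nat_lit 0) (nat_lit 0x7db8d11536) (nat_lit 1118193336),
  Rx.mk (nat_lit 147) (nat_lit 3) (nat_lit 2) (nat_lit 2) (nat_lit 7) (nat_lit 155) (nat_lit 10) r2_155 r8_10 (nat_lit 0) (nat_lit 0) (nat_lit 0) (nat_lit 0x7da7826a32) (nat_lit 1151378280),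
  Rx.mk (nat_lit 155) (nat_lit 3) (nat_lit 3) (nat_lit 2) (nat_lit 7) (nat_lit 156) (nat_lit 9) r2_156 r8_9 (nat_lit 0) (nat_lit 0) (nat_lit 0) (nat_lit 0x7df040de02) (nat_lit 1011899304),
  Rx.mk (nat_lit 219) (nat_lit 3) (nat_lit 3) (nat_lit 3) (nat_lit 7) (nat_lit 157) (nat_lit 7) r2_157 r8_7 (nat_lit 0) (nat_lit 0) (nat_lit 0) (nat_lit 0x7de2b616bc) (nat_lit 1037864880),
  Rx.mk (nat_lit 402) (nat_lit 2) (nat_lit 2) (nat_lit 6) (nat_lit 7) (nat_lit 150) (nat_lit 12) r2_150 r8_12 (nat_lit 0) (nat_lit 0) (nat_lit 0) (nat_lit 0x7dd4cc7564) (nat_lit 1064540880),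
  Rx.mk (nat_lit 434) (nat_lit 2) (nat_lit 6) (nat_lit 6) (nat_lit 7) (nat_lit 151) (nat_lit 11) r2_151 r8_11 (nat_lit 0) (nat_lit 0) (nat_lit 0) (nat_lit 0x7dc7103136) (nat_lit 1090877112)]
noncomputable def e42_45 : List Rx := [
  Rx.mk (nat_lit 292) (nat_lit 4) (nat_lit 4) (nat_lit 4) (nat_lit 0) (nat_lit 170) (nat_lit 2) r2_170 r8_2 (nat_lit 0) (nat_lit 0) (nat_lit 0) (nat_lit 0x22bc65d6ec) (nat_lit 45778986864),
  Rx.mk (nat_lit 294) (nat_lit 6) (nat_lit 4) (nat_lit 4) (nat_lit 1) (nat_lit 173) (nat_lit 3) r2_173 r8_3 (nat_lit 0) (nat_lit 0) (nat_lit 0) (nat_lit 0x69ae26f3e4) (nat_lit 10955709648),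
  Rx.mk (nat_lit 310) (nat_lit 6) (nat_lit 6) (nat_lit 4) (nat_lit 3) (nat_lit 174) (nat_lit 4) r2_174 r8_4 (nat_lit 0) (nat_lit 0) (nat_lit 0) (nat_lit 0x7bd6535ef4) (nat_lit 2043319824),
  Rx.mk (nat_lit 402) (nat_lit 2) (nat_lit 2) (nat_lit 6) (nat_lit 7) (nat_lit 168) (nat_lit 11) r2_168 r8_11 (nat_lit 0) (nat_lit 0) (nat_lit 0) (nat_lit 0x7dc7103136) (nat_lit 1090877112),
  Rx.mk (nat_lit 434) (nat_lit 2) (nat_lit 6) (nat_lit 6) (nat_lit 7) (nat_lit 169) (nat_lit 12) r2_169 r8_12 (nat_lit 0) (nat_lit 0) (nat_lit 0) (nat_lit 0x7dd4cc7564) (nat_lit 1064540880),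
  Rx.mk (nat_lit 438) (nat_lit 6) (nat_lit 6) (nat_lit 6) (nat_lit 7) (nat_lit 175) (nat_lit 13) r2_175 r8_13 (nat_lit 0) (nat_lit 0) (nat_lit 0) (nat_lit 0x7db8d11536) (nat_lit 1118193336),
  Rx.mk (nat_lit 484) (nat_lit 4) (nat_lit 4) (nat_lit 7) (nat_lit 4) (nat_lit 171) (nat_lit 5) r2_171 r8_5 (nat_lit 0) (nat_lit 0) (nat_lit 0) (nat_lit 0x6cc1809b36) (nat_lit 9446047416),
  Rx.mk (nat_lit 486) (nat_lit 6) (nat_lit 4) (nat_lit 7) (nat_lit 5) (nat_lit 176) (nat_lit 8) r2_176 r8_8 (nat_lit 0) (nat_lit 0) (nat_lit 0) (nat_lit 0x7d4d86ea44) (nat_lit 1323910224),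
  Rx.mk (nat_lit 502) (nat_lit 6) (nat_lit 6) (nat_lit 7) (nat_lit 7) (nat_lit 177) (nat_lit 10) r2_177 r8_10 (nat_lit 0) (nat_lit 0) (nat_lit 0) (nat_lit 0x7da7826a32) (nat_lit 1151378280),
  Rx.mk (nat_lit 508) (nat_lit 4) (nat_lit 7) (nat_lit 7) (nat_lit 6) (nat_lit 172) (nat_lit 6) r2_172 r8_6 (nat_lit 0) (nat_lit 0) (nat_lit 0) (nat_lit 0x7b78681e06) (nat_lit 2223399672),
  Rx.mk (nat_lit 510) (nat_lit 6) (nat_lit 7) (nat_lit 7) (nat_lit 7) (nat_lit 178) (nat_lit 9) r2_178 r8_9 (nat_lit 0) (nat_lit 0) (nat_lit 0) (nat_lit 0x7df040de02) (nat_lit 1011899304),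
  Rx.mk (nat_lit 511) (nat_lit 7) (nat_lit 7) (nat_lit 7) (nat_lit 7) (nat_lit 179) (nat_lit 7) r2_179 r8_7 (nat_lit 0) (nat_lit 0) (nat_lit 0) (nat_lit 0x7de2b616bc) (nat_lit 1037864880)]
noncomputable def e42_46 : List Rx := [
  Rx.mk (nat_lit 3) (nat_lit 3) (nat_lit 0) (nat_lit 0) (nat_lit 1) (nat_lit 47) (nat_lit 24) r2_47 r4_24 (nat_lit 0) (nat_lit 0) (nat_lit 0) (nat_lit 0x6f9c53eb26) (nat_lit 8044765560),
  Rx.mk (nat_lit 11) (nat_lit 3) (nat_lit 1) (nat_lit 0) (nat_lit 3) (nat_lit 48) (nat_lit 25) r2_48 r4_25 (nat_lit 0) (nat_lit 0) (nat_lit 0) (nat_lit 0x7e46493d26) (nat_lit 846940536),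
  Rx.mk (nat_lit 131) (nat_lit 3) (nat_lit 0) (nat_lit 2) (nat_lit 5) (nat_lit 49) (nat_lit 28) r2_49 r4_28 (nat_lit 0) (nat_lit 0) (nat_lit 0) (nat_lit 0x7ea641bd3e) (nat_lit 662926680),
  Rx.mk (nat_lit 139) (nat_lit 3) (nat_lit 1) (nat_lit 2) (nat_lit 7) (nat_lit 50) (nat_lit 29) r2_50 r4_29 (nat_lit 0) (nat_lit 0) (nat_lit 0) (nat_lit 0x7e85ff4186) (nat_lit 724781304),
  Rx.mk (nat_lit 147) (nat_lit 3) (nat_lit 2) (nat_lit 2) (nat_lit 7) (nat_lit 51) (nat_lit 30) r2_51 r4_30 (nat_lit 0) (nat_lit 0) (nat_lit 0) (nat_lit 0x7e66fbd1dc) (nat_lit 784246320),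
  Rx.mk (nat_lit 195) (nat_lit 3) (nat_lit 0) (nat_lit 3) (nat_lit 5) (nat_lit 52) (nat_lit 26) r2_52 r4_26 (nat_lit 0) (nat_lit 0) (nat_lit 0) (nat_lit 0x7e3762eb9a) (nat_lit 875509128),
  Rx.mk (nat_lit 199) (nat_lit 7) (nat_lit 0) (nat_lit 3) (nat_lit 5) (nat_lit 54) (nat_lit 21) r2_54 r4_21 (nat_lit 0) (nat_lit 0) (nat_lit 0) (nat_lit 0x7e2db3a698) (nat_lit 894078432),
  Rx.mk (nat_lit 203) (nat_lit 3) (nat_lit 1) (nat_lit 3) (nat_lit 7) (nat_lit 53) (nat_lit 27) r2_53 r4_27 (nat_lit 0) (nat_lit 0) (nat_lit 0) (nat_lit 0x7dd9a4a7dc) (nat_lit 1055252016),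
  Rx.mk (nat_lit 207) (nat_lit 7) (nat_lit 1) (nat_lit 3) (nat_lit 7) (nat_lit 55) (nat_lit 22) r2_55 r4_22 (nat_lit 0) (nat_lit 0) (nat_lit 0) (nat_lit 0x7dee60fc02) (nat_lit 1015493544),
  Rx.mk (nat_lit 223) (nat_lit 7) (nat_lit 3) (nat_lit 3) (nat_lit 7) (nat_lit 56) (nat_lit 23) r2_56 r4_23 (nat_lit 0) (nat_lit 0) (nat_lit 0) (nat_lit 0x7de8bc7650) (nat_lit 1026312768)]
noncomputable def e42_47 : List Rx := [
  Rx.mk (nat_lit 11) (nat_lit 3) (nat_lit 1) (nat_lit 0) (nat_lit 3) (nat_lit 158) (nat_lit 271) r2_158 r4_271 (nat_lit 0) (nat_lit 0) (nat_lit 0) (nat_lit 0x7dd5e96394) (nat_lit 1062406800),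
  Rx.mk (nat_lit 203) (nat_lit 3) (nat_lit 1) (nat_lit 3) (nat_lit 7) (nat_lit 159) (nat_lit 272) r2_159 r4_272 (nat_lit 0) (nat_lit 0) (nat_lit 0) (nat_lit 0x7de99d6840) (nat_lit 1024627968)]
noncomputable def e42_48 : List Rx := [
  Rx.mk (nat_lit 3) (nat_lit 3) (nat_lit 0) (nat_lit 0) (nat_lit 1) (nat_lit 160) (nat_lit 10) r2_160 r9_10 (nat_lit 0) (nat_lit 0) (nat_lit 0) (nat_lit 0x716992d56a) (nat_lit 7160374728),
  Rx.mk (nat_lit 11) (nat_lit 3) (nat_lit 1) (nat_lit 0) (nat_lit 3) (nat_lit 161) (nat_lit 11) r2_161 r9_11 (nat_lit 0) (nat_lit 0) (nat_lit 0) (nat_lit 0x7c4aec14f4) (nat_lit 1819758096),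
  Rx.mk (nat_lit 131) (nat_lit 3) (nat_lit 0) (nat_lit 2) (nat_lit 5) (nat_lit 162) (nat_lit 14) r2_162 r9_14 (nat_lit 0) (nat_lit 0) (nat_lit 0) (nat_lit 0x7d8494d92e) (nat_lit 1218349080),
  Rx.mk (nat_lit 139) (nat_lit 3) (nat_lit 1) (nat_lit 2) (nat_lit 7) (nat_lit 163) (nat_lit 15) r2_163 r9_15 (nat_lit 0) (nat_lit 0) (nat_lit 0) (nat_lit 0x7de22aff6e) (nat_lit 1038906648),
  Rx.mk (nat_lit 147) (nat_lit 3) (nat_lit 2) (nat_lit 2) (nat_lit 7) (nat_lit 164) (nat_lit 16) r2_164 r9_16 (nat_lit 0) (nat_lit 0) (nat_lit 0) (nat_lit 0x7ddafc725e) (nat_lit 1052677080),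
  Rx.mk (nat_lit 195) (nat_lit 3) (nat_lit 0) (nat_lit 3) (nat_lit 5) (nat_lit 165) (nat_lit 12) r2_165 r9_12 (nat_lit 0) (nat_lit 0) (nat_lit 0) (nat_lit 0x7d6c413e80) (nat_lit 1264992768),
  Rx.mk (nat_lit 203) (nat_lit 3) (nat_lit 1) (nat_lit 3) (nat_lit 7) (nat_lit 166) (nat_lit 13) r2_166 r9_13 (nat_lit 0) (nat_lit 0) (nat_lit 0) (nat_lit 0x7dce829a08) (nat_lit 1076598432)]
noncomputable def e42_49 : List Rx := [
  Rx.mk (nat_lit 203) (nat_lit 3) (nat_lit 1) (nat_lit 3) (nat_lit 7) (nat_lit 167) (nat_lit 5) r2_167 r10_5 (nat_lit 0) (nat_lit 0) (nat_lit 0) (nat_lit 0x7dd3702b2a) (nat_lit 1067149512)]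
noncomputable def e42_50 : List Rx := [
  Rx.mk (nat_lit 3) (nat_lit 3) (nat_lit 0) (nat_lit 0) (nat_lit 1) (nat_lit 241) (nat_lit 308) r2_241 r10_308 (nat_lit 0) (nat_lit 0) (nat_lit 0) (nat_lit 0x6a7892cc5c) (nat_lit 10567587888),
  Rx.mk (nat_lit 7) (nat_lit 7) (nat_lit 0) (nat_lit 0) (nat_lit 1) (nat_lit 246) (nat_lit 309) r2_246 r10_309 (nat_lit 0) (nat_lit 0) (nat_lit 0) (nat_lit 0x66e4917006) (nat_lit 12323932920),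
  Rx.mk (nat_lit 11) (nat_lit 3) (nat_lit 1) (nat_lit 0) (nat_lit 3) (nat_lit 242) (nat_lit 312) r2_242 r10_312 (nat_lit 0) (nat_lit 0) (nat_lit 0) (nat_lit 0x7dda7c9a5c) (nat_lit 1053634608),
  Rx.mk (nat_lit 15) (nat_lit 7) (nat_lit 1) (nat_lit 0) (nat_lit 3) (nat_lit 247) (nat_lit 313) r2_247 r10_313 (nat_lit 0) (nat_lit 0) (nat_lit 0) (nat_lit 0x7dd88cf958) (nat_lit 1057346784),
  Rx.mk (nat_lit 131) (nat_lit 3) (nat_lit 0) (nat_lit 2) (nat_lit 5) (nat_lit 243) (nat_lit 311) r2_243 r10_311 (nat_lit 0) (nat_lit 0) (nat_lit 0) (nat_lit 0x7dc32e4f58) (nat_lit 1098321120),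
  Rx.mk (nat_lit 139) (nat_lit 3) (nat_lit 1) (nat_lit 2) (nat_lit 7) (nat_lit 244) (nat_lit 315) r2_244 r10_315 (nat_lit 0) (nat_lit 0) (nat_lit 0) (nat_lit 0x7de6ab7762) (nat_lit 1030274856),
  Rx.mk (nat_lit 147) (nat_lit 3) (nat_lit 2) (nat_lit 2) (nat_lit 7) (nat_lit 245) (nat_lit 317) r2_245 r10_317 (nat_lit 0) (nat_lit 0) (nat_lit 0) (nat_lit 0x7df7510cf8) (nat_lit 998356320),
  Rx.mk (nat_lit 199) (nat_lit 7) (nat_lit 0) (nat_lit 3) (nat_lit 5) (nat_lit 248) (nat_lit 310) r2_248 r10_310 (nat_lit 0) (nat_lit 0) (nat_lit 0) (nat_lit 0x7dd287b9b2) (nat_lit 1068890472),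
  Rx.mk (nat_lit 207) (nat_lit 7) (nat_lit 1) (nat_lit 3) (nat_lit 7) (nat_lit 249) (nat_lit 314) r2_249 r10_314 (nat_lit 0) (nat_lit 0) (nat_lit 0) (nat_lit 0x7dd90551d2) (nat_lit 1056445416),
  Rx.mk (nat_lit 223) (nat_lit 7) (nat_lit 3) (nat_lit 3) (nat_lit 7) (nat_lit 250) (nat_lit 316) r2_250 r10_316 (nat_lit 0) (nat_lit 0) (nat_lit 0) (nat_lit 0x7df6d8b47e) (nat_lit 999257688)]
noncomputable def e42_51 : List Rx := [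
  Rx.mk (nat_lit 44) (nat_lit 4) (nat_lit 5) (nat_lit 0) (nat_lit 2) (nat_lit 339) (nat_lit 276) r2_339 r12_276 (nat_lit 0) (nat_lit 0) (nat_lit 0) (nat_lit 0x666f99dff4) (nat_lit 12548205072),
  Rx.mk (nat_lit 45) (nat_lit 5) (nat_lit 5) (nat_lit 0) (nat_lit 3) (nat_lit 343) (nat_lit 280) r2_343 r12_280 (nat_lit 0) (nat_lit 0) (nat_lit 0) (nat_lit 0x749ef5bc06) (nat_lit 5585451768),
  Rx.mk (nat_lit 47) (nat_lit 7) (nat_lit 5) (nat_lit 0) (nat_lit 3) (nat_lit 347) (nat_lit 283) r2_347 r12_283 (nat_lit 0) (nat_lit 0) (nat_lit 0) (nat_lit 0x7dc98549e2) (nat_lit 1086165288),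
  Rx.mk (nat_lit 108) (nat_lit 4) (nat_lit 5) (nat_lit 1) (nat_lit 6) (nat_lit 340) (nat_lit 277) r2_340 r12_277 (nat_lit 0) (nat_lit 0) (nat_lit 0) (nat_lit 0x7d42e99424) (nat_lit 1344262608),
  Rx.mk (nat_lit 109) (nat_lit 5) (nat_lit 5) (nat_lit 1) (nat_lit 7) (nat_lit 344) (nat_lit 281) r2_344 r12_281 (nat_lit 0) (nat_lit 0) (nat_lit 0) (nat_lit 0x7ddceeb338) (nat_lit 1048945248),
  Rx.mk (nat_lit 111) (nat_lit 7) (nat_lit 5) (nat_lit 1) (nat_lit 7) (nat_lit 348) (nat_lit 284) r2_348 r12_284 (nat_lit 0) (nat_lit 0) (nat_lit 0) (nat_lit 0x7deb366eae) (nat_lit 1021564440),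
  Rx.mk (nat_lit 204) (nat_lit 4) (nat_lit 1) (nat_lit 3) (nat_lit 6) (nat_lit 341) (nat_lit 275) r2_341 r12_275 (nat_lit 0) (nat_lit 0) (nat_lit 0) (nat_lit 0x7ddc2f1f32) (nat_lit 1050380136),
  Rx.mk (nat_lit 205) (nat_lit 5) (nat_lit 1) (nat_lit 3) (nat_lit 7) (nat_lit 345) (nat_lit 279) r2_345 r12_279 (nat_lit 0) (nat_lit 0) (nat_lit 0) (nat_lit 0x7de974eac8) (nat_lit 1024931232),
  Rx.mk (nat_lit 236) (nat_lit 4) (nat_lit 5) (nat_lit 3) (nat_lit 6) (nat_lit 342) (nat_lit 278) r2_342 r12_278 (nat_lit 0) (nat_lit 0) (nat_lit 0) (nat_lit 0x7cf9c166f0) (nat_lit 1484533440),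
  Rx.mk (nat_lit 237) (nat_lit 5) (nat_lit 5) (nat_lit 3) (nat_lit 7) (nat_lit 346) (nat_lit 282) r2_346 r12_282 (nat_lit 0) (nat_lit 0) (nat_lit 0) (nat_lit 0x7df79428c6) (nat_lit 997853688)]
noncomputable def e42_52 : List Rx := [
  Rx.mk (nat_lit 236) (nat_lit 4) (nat_lit 5) (nat_lit 3) (nat_lit 6) (nat_lit 255) (nat_lit 259) r2_255 r12_259 (nat_lit 0) (nat_lit 0) (nat_lit 0) (nat_lit 0x7e4fef22be) (nat_lit 828441432),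
  Rx.mk (nat_lit 239) (nat_lit 7) (nat_lit 5) (nat_lit 3) (nat_lit 7) (nat_lit 257) (nat_lit 260) r2_257 r12_260 (nat_lit 0) (nat_lit 0) (nat_lit 0) (nat_lit 0x7e0dc225d0) (nat_lit 955326528),
  Rx.mk (nat_lit 492) (nat_lit 4) (nat_lit 5) (nat_lit 7) (nat_lit 6) (nat_lit 256) (nat_lit 258) r2_256 r12_258 (nat_lit 0) (nat_lit 0) (nat_lit 0) (nat_lit 0x7e39f90236) (nat_lit 870550200)]
noncomputable def e42_53 : List Rx := [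
  Rx.mk (nat_lit 12) (nat_lit 4) (nat_lit 1) (nat_lit 0) (nat_lit 2) (nat_lit 360) (nat_lit 276) r2_360 r12_276 (nat_lit 0) (nat_lit 0) (nat_lit 0) (nat_lit 0x666f99dff4) (nat_lit 12548205072),
  Rx.mk (nat_lit 13) (nat_lit 5) (nat_lit 1) (nat_lit 0) (nat_lit 3) (nat_lit 363) (nat_lit 277) r2_363 r12_277 (nat_lit 0) (nat_lit 0) (nat_lit 0) (nat_lit 0x7d42e99424) (nat_lit 1344262608),
  Rx.mk (nat_lit 15) (nat_lit 7) (nat_lit 1) (nat_lit 0) (nat_lit 3) (nat_lit 366) (nat_lit 278) r2_366 r12_278 (nat_lit 0) (nat_lit 0) (nat_lit 0) (nat_lit 0x7cf9c166f0) (nat_lit 1484533440),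
  Rx.mk (nat_lit 47) (nat_lit 7) (nat_lit 5) (nat_lit 0) (nat_lit 3) (nat_lit 367) (nat_lit 275) r2_367 r12_275 (nat_lit 0) (nat_lit 0) (nat_lit 0) (nat_lit 0x7ddc2f1f32) (nat_lit 1050380136),
  Rx.mk (nat_lit 76) (nat_lit 4) (nat_lit 1) (nat_lit 1) (nat_lit 6) (nat_lit 361) (nat_lit 280) r2_361 r12_280 (nat_lit 0) (nat_lit 0) (nat_lit 0) (nat_lit 0x749ef5bc06) (nat_lit 5585451768),
  Rx.mk (nat_lit 77) (nat_lit 5) (nat_lit 1) (nat_lit 1) (nat_lit 7) (nat_lit 364) (nat_lit 281) r2_364 r12_281 (nat_lit 0) (nat_lit 0) (nat_lit 0) (nat_lit 0x7ddceeb338) (nat_lit 1048945248),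
  Rx.mk (nat_lit 79) (nat_lit 7) (nat_lit 1) (nat_lit 1) (nat_lit 7) (nat_lit 368) (nat_lit 282) r2_368 r12_282 (nat_lit 0) (nat_lit 0) (nat_lit 0) (nat_lit 0x7df79428c6) (nat_lit 997853688),
  Rx.mk (nat_lit 111) (nat_lit 7) (nat_lit 5) (nat_lit 1) (nat_lit 7) (nat_lit 369) (nat_lit 279) r2_369 r12_279 (nat_lit 0) (nat_lit 0) (nat_lit 0) (nat_lit 0x7de974eac8) (nat_lit 1024931232),
  Rx.mk (nat_lit 204) (nat_lit 4) (nat_lit 1) (nat_lit 3) (nat_lit 6) (nat_lit 362) (nat_lit 283) r2_362 r12_283 (nat_lit 0) (nat_lit 0) (nat_lit 0) (nat_lit 0x7dc98549e2) (nat_lit 1086165288),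
  Rx.mk (nat_lit 205) (nat_lit 5) (nat_lit 1) (nat_lit 3) (nat_lit 7) (nat_lit 365) (nat_lit 284) r2_365 r12_284 (nat_lit 0) (nat_lit 0) (nat_lit 0) (nat_lit 0x7deb366eae) (nat_lit 1021564440)]
noncomputable def e42_54 : List Rx := [
  Rx.mk (nat_lit 239) (nat_lit 7) (nat_lit 5) (nat_lit 3) (nat_lit 7) (nat_lit 96) (nat_lit 14) r2_96 r12_14 (nat_lit 0) (nat_lit 0) (nat_lit 0) (nat_lit 0x7df79428c6) (nat_lit 997853688),
  Rx.mk (nat_lit 495) (nat_lit 7) (nat_lit 5) (nat_lit 7) (nat_lit 7) (nat_lit 97) (nat_lit 15) r2_97 r12_15 (nat_lit 0) (nat_lit 0) (nat_lit 0) (nat_lit 0x7e3bb246a0) (nat_lit 867245184)]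
noncomputable def e42_55 : List Rx := [
  Rx.mk (nat_lit 11) (nat_lit 3) (nat_lit 1) (nat_lit 0) (nat_lit 3) (nat_lit 44) (nat_lit 21) r2_44 r3_21 (nat_lit 0) (nat_lit 0) (nat_lit 0) (nat_lit 0x7fc66c7972) (nat_lit 110396520),
  Rx.mk (nat_lit 203) (nat_lit 3) (nat_lit 1) (nat_lit 3) (nat_lit 7) (nat_lit 45) (nat_lit 22) r2_45 r3_22 (nat_lit 0) (nat_lit 0) (nat_lit 0) (nat_lit 0x7f19302de4) (nat_lit 442557648),
  Rx.mk (nat_lit 207) (nat_lit 7) (nat_lit 1) (nat_lit 3) (nat_lit 7) (nat_lit 46) (nat_lit 20) r2_46 r3_20 (nat_lit 0) (nat_lit 0) (nat_lit 0) (nat_lit 0x7f3a2d5df0) (nat_lit 379304640)]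
noncomputable def e42_56 : List Rx := [
  Rx.mk (nat_lit 203) (nat_lit 3) (nat_lit 1) (nat_lit 3) (nat_lit 7) (nat_lit 57) (nat_lit 15) r2_57 r12_15 (nat_lit 0) (nat_lit 0) (nat_lit 0) (nat_lit 0x7e3bb246a0) (nat_lit 867245184),
  Rx.mk (nat_lit 207) (nat_lit 7) (nat_lit 1) (nat_lit 3) (nat_lit 7) (nat_lit 58) (nat_lit 14) r2_58 r12_14 (nat_lit 0) (nat_lit 0) (nat_lit 0) (nat_lit 0x7df79428c6) (nat_lit 997853688)]
noncomputable def e42_57 : List Rx := [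
  Rx.mk (nat_lit 11) (nat_lit 3) (nat_lit 1) (nat_lit 0) (nat_lit 3) (nat_lit 238) (nat_lit 258) r2_238 r12_258 (nat_lit 0) (nat_lit 0) (nat_lit 0) (nat_lit 0x7e39f90236) (nat_lit 870550200),
  Rx.mk (nat_lit 15) (nat_lit 7) (nat_lit 1) (nat_lit 0) (nat_lit 3) (nat_lit 239) (nat_lit 259) r2_239 r12_259 (nat_lit 0) (nat_lit 0) (nat_lit 0) (nat_lit 0x7e4fef22be) (nat_lit 828441432),
  Rx.mk (nat_lit 207) (nat_lit 7) (nat_lit 1) (nat_lit 3) (nat_lit 7) (nat_lit 240) (nat_lit 260) r2_240 r12_260 (nat_lit 0) (nat_lit 0) (nat_lit 0) (nat_lit 0x7e0dc225d0) (nat_lit 955326528)]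
noncomputable def e42 : List (List Rx) := [e42_0, e42_1, e42_2, e42_3, e42_4, e42_5, e42_6, e42_7, e42_8, e42_9, e42_10, e42_11, e42_12, e42_13, e42_14, e42_15, e42_16, e42_17, e42_18, e42_19, e42_20, e42_21, e42_22, e42_23, e42_24, e42_25, e42_26, e42_27, e42_28, e42_29, e42_30, e42_31, e42_32, e42_33, e42_34, e42_35, e42_36, e42_37, e42_38, e42_39, e42_40, e42_41, e42_42, e42_43, e42_44, e42_45, e42_46, e42_47, e42_48, e42_49, e42_50, e42_51, e42_52, e42_53, e42_54, e42_55, e42_56, e42_57]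
noncomputable def e43_0 : List Rx := [
  Rx.mk (nat_lit 13) (nat_lit 5) (nat_lit 1) (nat_lit 0) (nat_lit 3) (nat_lit 178) (nat_lit 289) r7_178 r0_289 (nat_lit 0) (nat_lit 0) (nat_lit 0) (nat_lit 0x7b30873c5c) (nat_lit 2361219120),
  Rx.mk (nat_lit 77) (nat_lit 5) (nat_lit 1) (nat_lit 1) (nat_lit 7) (nat_lit 179) (nat_lit 290) r7_179 r0_290 (nat_lit 0) (nat_lit 0) (nat_lit 0) (nat_lit 0x7df79428c6) (nat_lit 997853688)]
noncomputable def e43_1 : List Rx := [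
  Rx.mk (nat_lit 77) (nat_lit 5) (nat_lit 1) (nat_lit 1) (nat_lit 7) (nat_lit 180) (nat_lit 286) r7_180 r1_286 (nat_lit 0) (nat_lit 0) (nat_lit 0) (nat_lit 0x7de3424df8) (nat_lit 1036814688)]
noncomputable def e43_2 : List Rx := [
  Rx.mk (nat_lit 77) (nat_lit 5) (nat_lit 1) (nat_lit 1) (nat_lit 7) (nat_lit 322) (nat_lit 312) r7_322 r2_312 (nat_lit 0) (nat_lit 0) (nat_lit 0) (nat_lit 0x7dacc2d626) (nat_lit 1141308792),
  Rx.mk (nat_lit 333) (nat_lit 5) (nat_lit 1) (nat_lit 5) (nat_lit 7) (nat_lit 321) (nat_lit 313) r7_321 r2_313 (nat_lit 0) (nat_lit 0) (nat_lit 0) (nat_lit 0x7dd04e3d4c) (nat_lit 1073155824),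
  Rx.mk (nat_lit 365) (nat_lit 5) (nat_lit 5) (nat_lit 5) (nat_lit 7) (nat_lit 320) (nat_lit 314) r7_320 r2_314 (nat_lit 0) (nat_lit 0) (nat_lit 0) (nat_lit 0x7de672daec) (nat_lit 1030698864)]
noncomputable def e43_3 : List Rx := [
  Rx.mk (nat_lit 13) (nat_lit 5) (nat_lit 1) (nat_lit 0) (nat_lit 3) (nat_lit 61) (nat_lit 283) r7_61 r3_283 (nat_lit 0) (nat_lit 0) (nat_lit 0) (nat_lit 0x75b85a24a6) (nat_lit 5045911416),
  Rx.mk (nat_lit 205) (nat_lit 5) (nat_lit 1) (nat_lit 3) (nat_lit 7) (nat_lit 62) (nat_lit 284) r7_62 r3_284 (nat_lit 0) (nat_lit 0) (nat_lit 0) (nat_lit 0x7f3a485c40) (nat_lit 379102464)]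
noncomputable def e43_4 : List Rx := [
  Rx.mk (nat_lit 13) (nat_lit 5) (nat_lit 1) (nat_lit 0) (nat_lit 3) (nat_lit 181) (nat_lit 304) r7_181 r4_304 (nat_lit 0) (nat_lit 0) (nat_lit 0) (nat_lit 0x7de112f0f0) (nat_lit 1041004224),
  Rx.mk (nat_lit 77) (nat_lit 5) (nat_lit 1) (nat_lit 1) (nat_lit 7) (nat_lit 182) (nat_lit 305) r7_182 r4_305 (nat_lit 0) (nat_lit 0) (nat_lit 0) (nat_lit 0x7df79428c6) (nat_lit 997853688),
  Rx.mk (nat_lit 205) (nat_lit 5) (nat_lit 1) (nat_lit 3) (nat_lit 7) (nat_lit 183) (nat_lit 306) r7_183 r4_306 (nat_lit 0) (nat_lit 0) (nat_lit 0) (nat_lit 0x7df6d07502) (nat_lit 999319464)]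
noncomputable def e43_5 : List Rx := [
  Rx.mk (nat_lit 268) (nat_lit 4) (nat_lit 1) (nat_lit 4) (nat_lit 2) (nat_lit 334) (nat_lit 263) r7_334 r3_263 (nat_lit 0) (nat_lit 0) (nat_lit 0) (nat_lit 0x6b3e98cb36) (nat_lit 10187898552),
  Rx.mk (nat_lit 269) (nat_lit 5) (nat_lit 1) (nat_lit 4) (nat_lit 3) (nat_lit 335) (nat_lit 265) r7_335 r3_265 (nat_lit 0) (nat_lit 0) (nat_lit 0) (nat_lit 0x732efe9ce8) (nat_lit 6290987040),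
  Rx.mk (nat_lit 460) (nat_lit 4) (nat_lit 1) (nat_lit 7) (nat_lit 6) (nat_lit 336) (nat_lit 264) r7_336 r3_264 (nat_lit 0) (nat_lit 0) (nat_lit 0) (nat_lit 0x73f40d8b34) (nat_lit 5913148176),
  Rx.mk (nat_lit 461) (nat_lit 5) (nat_lit 1) (nat_lit 7) (nat_lit 7) (nat_lit 337) (nat_lit 266) r7_337 r3_266 (nat_lit 0) (nat_lit 0) (nat_lit 0) (nat_lit 0x7c2ead98f8) (nat_lit 1873913184),
  Rx.mk (nat_lit 492) (nat_lit 4) (nat_lit 5) (nat_lit 7) (nat_lit 6) (nat_lit 331) (nat_lit 260) r7_331 r3_260 (nat_lit 0) (nat_lit 0) (nat_lit 0) (nat_lit 0x6e724f8c96) (nat_lit 8616182328),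
  Rx.mk (nat_lit 493) (nat_lit 5) (nat_lit 5) (nat_lit 7) (nat_lit 7) (nat_lit 332) (nat_lit 261) r7_332 r3_261 (nat_lit 0) (nat_lit 0) (nat_lit 0) (nat_lit 0x7bddb1e904) (nat_lit 2029189968),
  Rx.mk (nat_lit 495) (nat_lit 7) (nat_lit 5) (nat_lit 7) (nat_lit 7) (nat_lit 333) (nat_lit 262) r7_333 r3_262 (nat_lit 0) (nat_lit 0) (nat_lit 0) (nat_lit 0x7cba1941b2) (nat_lit 1606588776)]
noncomputable def e43_6 : List Rx := [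
  Rx.mk (nat_lit 268) (nat_lit 4) (nat_lit 1) (nat_lit 4) (nat_lit 2) (nat_lit 237) (nat_lit 278) r7_237 r0_278 (nat_lit 0) (nat_lit 0) (nat_lit 0) (nat_lit 0x5c996eec7a) (nat_lit 17376530184),
  Rx.mk (nat_lit 269) (nat_lit 5) (nat_lit 1) (nat_lit 4) (nat_lit 3) (nat_lit 238) (nat_lit 280) r7_238 r0_280 (nat_lit 0) (nat_lit 0) (nat_lit 0) (nat_lit 0x7d503ebec4) (nat_lit 1318698576),
  Rx.mk (nat_lit 300) (nat_lit 4) (nat_lit 5) (nat_lit 4) (nat_lit 2) (nat_lit 230) (nat_lit 271) r7_230 r0_271 (nat_lit 0) (nat_lit 0) (nat_lit 0) (nat_lit 0x52675b77e4) (nat_lit 22381079760),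
  Rx.mk (nat_lit 301) (nat_lit 5) (nat_lit 5) (nat_lit 4) (nat_lit 3) (nat_lit 231) (nat_lit 274) r7_231 r0_274 (nat_lit 0) (nat_lit 0) (nat_lit 0) (nat_lit 0x7a2fb2caa4) (nat_lit 2853663696),
  Rx.mk (nat_lit 332) (nat_lit 4) (nat_lit 1) (nat_lit 5) (nat_lit 6) (nat_lit 239) (nat_lit 279) r7_239 r0_279 (nat_lit 0) (nat_lit 0) (nat_lit 0) (nat_lit 0x7c51f5245c) (nat_lit 1806268464),
  Rx.mk (nat_lit 333) (nat_lit 5) (nat_lit 1) (nat_lit 5) (nat_lit 7) (nat_lit 240) (nat_lit 281) r7_240 r0_281 (nat_lit 0) (nat_lit 0) (nat_lit 0) (nat_lit 0x7df400a202) (nat_lit 1004710824),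
  Rx.mk (nat_lit 364) (nat_lit 4) (nat_lit 5) (nat_lit 5) (nat_lit 6) (nat_lit 232) (nat_lit 272) r7_232 r0_272 (nat_lit 0) (nat_lit 0) (nat_lit 0) (nat_lit 0x77e11e9636) (nat_lit 3986037432),
  Rx.mk (nat_lit 365) (nat_lit 5) (nat_lit 5) (nat_lit 5) (nat_lit 7) (nat_lit 233) (nat_lit 275) r7_233 r0_275 (nat_lit 0) (nat_lit 0) (nat_lit 0) (nat_lit 0x7d51c5c652) (nat_lit 1315769832),
  Rx.mk (nat_lit 492) (nat_lit 4) (nat_lit 5) (nat_lit 7) (nat_lit 6) (nat_lit 234) (nat_lit 273) r7_234 r0_273 (nat_lit 0) (nat_lit 0) (nat_lit 0) (nat_lit 0x7d448d19ea) (nat_lit 1341120456),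
  Rx.mk (nat_lit 493) (nat_lit 5) (nat_lit 5) (nat_lit 7) (nat_lit 7) (nat_lit 235) (nat_lit 276) r7_235 r0_276 (nat_lit 0) (nat_lit 0) (nat_lit 0) (nat_lit 0x7df2301f0c) (nat_lit 1008189936),
  Rx.mk (nat_lit 495) (nat_lit 7) (nat_lit 5) (nat_lit 7) (nat_lit 7) (nat_lit 236) (nat_lit 277) r7_236 r0_277 (nat_lit 0) (nat_lit 0) (nat_lit 0) (nat_lit 0x7df55c2c48) (nat_lit 1002107808)]
noncomputable def e43_7 : List Rx := [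
  Rx.mk (nat_lit 332) (nat_lit 4) (nat_lit 1) (nat_lit 5) (nat_lit 6) (nat_lit 318) (nat_lit 276) r7_318 r1_276 (nat_lit 0) (nat_lit 0) (nat_lit 0) (nat_lit 0x7ba392eb2e) (nat_lit 2140631064),
  Rx.mk (nat_lit 333) (nat_lit 5) (nat_lit 1) (nat_lit 5) (nat_lit 7) (nat_lit 319) (nat_lit 277) r7_319 r1_277 (nat_lit 0) (nat_lit 0) (nat_lit 0) (nat_lit 0x7de06f7b28) (nat_lit 1042228512),
  Rx.mk (nat_lit 364) (nat_lit 4) (nat_lit 5) (nat_lit 5) (nat_lit 6) (nat_lit 316) (nat_lit 274) r7_316 r1_274 (nat_lit 0) (nat_lit 0) (nat_lit 0) (nat_lit 0x7a2aa01bd4) (nat_lit 2863390608),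
  Rx.mk (nat_lit 365) (nat_lit 5) (nat_lit 5) (nat_lit 5) (nat_lit 7) (nat_lit 317) (nat_lit 275) r7_317 r1_275 (nat_lit 0) (nat_lit 0) (nat_lit 0) (nat_lit 0x7dab10b14a) (nat_lit 1144560456)]
noncomputable def e43_8 : List Rx := [
  Rx.mk (nat_lit 268) (nat_lit 4) (nat_lit 1) (nat_lit 4) (nat_lit 2) (nat_lit 341) (nat_lit 287) r7_341 r4_287 (nat_lit 0) (nat_lit 0) (nat_lit 0) (nat_lit 0x5c57ff43b6) (nat_lit 17501997240),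
  Rx.mk (nat_lit 269) (nat_lit 5) (nat_lit 1) (nat_lit 4) (nat_lit 3) (nat_lit 342) (nat_lit 290) r7_342 r4_290 (nat_lit 0) (nat_lit 0) (nat_lit 0) (nat_lit 0x7d03f443b8) (nat_lit 1464978528),
  Rx.mk (nat_lit 332) (nat_lit 4) (nat_lit 1) (nat_lit 5) (nat_lit 6) (nat_lit 343) (nat_lit 288) r7_343 r4_288 (nat_lit 0) (nat_lit 0) (nat_lit 0) (nat_lit 0x7d836d6ba6) (nat_lit 1220561784),
  Rx.mk (nat_lit 333) (nat_lit 5) (nat_lit 1) (nat_lit 5) (nat_lit 7) (nat_lit 344) (nat_lit 291) r7_344 r4_291 (nat_lit 0) (nat_lit 0) (nat_lit 0) (nat_lit 0x7df0f9b274) (nat_lit 1010514960),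
  Rx.mk (nat_lit 460) (nat_lit 4) (nat_lit 1) (nat_lit 7) (nat_lit 6) (nat_lit 345) (nat_lit 289) r7_345 r4_289 (nat_lit 0) (nat_lit 0) (nat_lit 0) (nat_lit 0x7d43fd22ea) (nat_lit 1342198728),
  Rx.mk (nat_lit 461) (nat_lit 5) (nat_lit 1) (nat_lit 7) (nat_lit 7) (nat_lit 346) (nat_lit 292) r7_346 r4_292 (nat_lit 0) (nat_lit 0) (nat_lit 0) (nat_lit 0x7de07e1a3e) (nat_lit 1042119000),
  Rx.mk (nat_lit 492) (nat_lit 4) (nat_lit 5) (nat_lit 7) (nat_lit 6) (nat_lit 338) (nat_lit 284) r7_338 r4_284 (nat_lit 0) (nat_lit 0) (nat_lit 0) (nat_lit 0x7d63fb62e6) (nat_lit 1280855160),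
  Rx.mk (nat_lit 493) (nat_lit 5) (nat_lit 5) (nat_lit 7) (nat_lit 7) (nat_lit 339) (nat_lit 285) r7_339 r4_285 (nat_lit 0) (nat_lit 0) (nat_lit 0) (nat_lit 0x7de0ae173e) (nat_lit 1041759576),
  Rx.mk (nat_lit 495) (nat_lit 7) (nat_lit 5) (nat_lit 7) (nat_lit 7) (nat_lit 340) (nat_lit 286) r7_340 r4_286 (nat_lit 0) (nat_lit 0) (nat_lit 0) (nat_lit 0x7dec75dab6) (nat_lit 1019172024)]
noncomputable def e43_9 : List Rx := [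
  Rx.mk (nat_lit 204) (nat_lit 4) (nat_lit 1) (nat_lit 3) (nat_lit 6) (nat_lit 216) (nat_lit 310) r7_216 r5_310 (nat_lit 0) (nat_lit 0) (nat_lit 0) (nat_lit 0x7e615cebd0) (nat_lit 795023424),
  Rx.mk (nat_lit 205) (nat_lit 5) (nat_lit 1) (nat_lit 3) (nat_lit 7) (nat_lit 217) (nat_lit 312) r7_217 r5_312 (nat_lit 0) (nat_lit 0) (nat_lit 0) (nat_lit 0x7defd5a4b6) (nat_lit 1012702392),
  Rx.mk (nat_lit 460) (nat_lit 4) (nat_lit 1) (nat_lit 7) (nat_lit 6) (nat_lit 214) (nat_lit 311) r7_214 r5_311 (nat_lit 0) (nat_lit 0) (nat_lit 0) (nat_lit 0x7de4c1160a) (nat_lit 1033947720),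
  Rx.mk (nat_lit 461) (nat_lit 5) (nat_lit 1) (nat_lit 7) (nat_lit 7) (nat_lit 215) (nat_lit 313) r7_215 r5_313 (nat_lit 0) (nat_lit 0) (nat_lit 0) (nat_lit 0x7dec1be056) (nat_lit 1019845944)]
noncomputable def e43_10 : List Rx := [
  Rx.mk (nat_lit 9) (nat_lit 1) (nat_lit 1) (nat_lit 0) (nat_lit 3) (nat_lit 64) (nat_lit 186) r7_64 r0_186 (nat_lit 0) (nat_lit 0) (nat_lit 0) (nat_lit 0x7db1ff225c) (nat_lit 1131270192),
  Rx.mk (nat_lit 13) (nat_lit 5) (nat_lit 1) (nat_lit 0) (nat_lit 3) (nat_lit 63) (nat_lit 185) r7_63 r0_185 (nat_lit 0) (nat_lit 0) (nat_lit 0) (nat_lit 0x7e2fea232e) (nat_lit 889835544),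
  Rx.mk (nat_lit 201) (nat_lit 1) (nat_lit 1) (nat_lit 3) (nat_lit 7) (nat_lit 65) (nat_lit 187) r7_65 r0_187 (nat_lit 0) (nat_lit 0) (nat_lit 0) (nat_lit 0x7dec1700a4) (nat_lit 1019882448)]
noncomputable def e43_11 : List Rx := [
  Rx.mk (nat_lit 9) (nat_lit 1) (nat_lit 1) (nat_lit 0) (nat_lit 3) (nat_lit 185) (nat_lit 401) r7_185 r6_401 (nat_lit 0) (nat_lit 0) (nat_lit 0) (nat_lit 0x7d9c65fc04) (nat_lit 1172682576),
  Rx.mk (nat_lit 13) (nat_lit 5) (nat_lit 1) (nat_lit 0) (nat_lit 3) (nat_lit 184) (nat_lit 404) r7_184 r6_404 (nat_lit 0) (nat_lit 0) (nat_lit 0) (nat_lit 0x7de7386e92) (nat_lit 1029219048),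
  Rx.mk (nat_lit 73) (nat_lit 1) (nat_lit 1) (nat_lit 1) (nat_lit 7) (nat_lit 187) (nat_lit 402) r7_187 r6_402 (nat_lit 0) (nat_lit 0) (nat_lit 0) (nat_lit 0x7dbbebe386) (nat_lit 1112240376),
  Rx.mk (nat_lit 77) (nat_lit 5) (nat_lit 1) (nat_lit 1) (nat_lit 7) (nat_lit 186) (nat_lit 405) r7_186 r6_405 (nat_lit 0) (nat_lit 0) (nat_lit 0) (nat_lit 0x7de4f1130a) (nat_lit 1033588296),
  Rx.mk (nat_lit 201) (nat_lit 1) (nat_lit 1) (nat_lit 3) (nat_lit 7) (nat_lit 188) (nat_lit 403) r7_188 r6_403 (nat_lit 0) (nat_lit 0) (nat_lit 0) (nat_lit 0x7dbabc967c) (nat_lit 1114512048)]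
noncomputable def e43_12 : List Rx := [
  Rx.mk (nat_lit 9) (nat_lit 1) (nat_lit 1) (nat_lit 0) (nat_lit 3) (nat_lit 66) (nat_lit 199) r7_66 r1_199 (nat_lit 0) (nat_lit 0) (nat_lit 0) (nat_lit 0x7d80f19366) (nat_lit 1225324152),
  Rx.mk (nat_lit 201) (nat_lit 1) (nat_lit 1) (nat_lit 3) (nat_lit 7) (nat_lit 67) (nat_lit 200) r7_67 r1_200 (nat_lit 0) (nat_lit 0) (nat_lit 0) (nat_lit 0x7df471daee) (nat_lit 1003862808)]
noncomputable def e43_13 : List Rx := [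
  Rx.mk (nat_lit 9) (nat_lit 1) (nat_lit 1) (nat_lit 0) (nat_lit 3) (nat_lit 191) (nat_lit 323) r7_191 r7_323 (nat_lit 0) (nat_lit 0) (nat_lit 0) (nat_lit 0x7cf1f683a6) (nat_lit 1499474808),
  Rx.mk (nat_lit 73) (nat_lit 1) (nat_lit 1) (nat_lit 1) (nat_lit 7) (nat_lit 192) (nat_lit 324) r7_192 r7_324 (nat_lit 0) (nat_lit 0) (nat_lit 0) (nat_lit 0x7dd911b10c) (nat_lit 1056352752),
  Rx.mk (nat_lit 201) (nat_lit 1) (nat_lit 1) (nat_lit 3) (nat_lit 7) (nat_lit 193) (nat_lit 325) r7_193 r7_325 (nat_lit 0) (nat_lit 0) (nat_lit 0) (nat_lit 0x7ddc447ddc) (nat_lit 1050220080)]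
noncomputable def e43_14 : List Rx := [
  Rx.mk (nat_lit 73) (nat_lit 1) (nat_lit 1) (nat_lit 1) (nat_lit 7) (nat_lit 190) (nat_lit 190) r7_190 r7_190 (nat_lit 0) (nat_lit 0) (nat_lit 0) (nat_lit 0x7de57f2a28) (nat_lit 1032524064),
  Rx.mk (nat_lit 77) (nat_lit 5) (nat_lit 1) (nat_lit 1) (nat_lit 7) (nat_lit 189) (nat_lit 189) r7_189 r7_189 (nat_lit 0) (nat_lit 0) (nat_lit 0) (nat_lit 0x7deaf8f286) (nat_lit 1022024952)]
noncomputable def e43_15 : List Rx := [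
  Rx.mk (nat_lit 73) (nat_lit 1) (nat_lit 1) (nat_lit 1) (nat_lit 7) (nat_lit 330) (nat_lit 294) r7_330 r8_294 (nat_lit 0) (nat_lit 0) (nat_lit 0) (nat_lit 0x7de241de00) (nat_lit 1038735360),
  Rx.mk (nat_lit 77) (nat_lit 5) (nat_lit 1) (nat_lit 1) (nat_lit 7) (nat_lit 329) (nat_lit 295) r7_329 r8_295 (nat_lit 0) (nat_lit 0) (nat_lit 0) (nat_lit 0x7dafdd447c) (nat_lit 1135358640),
  Rx.mk (nat_lit 333) (nat_lit 5) (nat_lit 1) (nat_lit 5) (nat_lit 7) (nat_lit 328) (nat_lit 296) r7_328 r8_296 (nat_lit 0) (nat_lit 0) (nat_lit 0) (nat_lit 0x7dd57faa30) (nat_lit 1063198656),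
  Rx.mk (nat_lit 365) (nat_lit 5) (nat_lit 5) (nat_lit 5) (nat_lit 7) (nat_lit 327) (nat_lit 297) r7_327 r8_297 (nat_lit 0) (nat_lit 0) (nat_lit 0) (nat_lit 0x7de90d7140) (nat_lit 1025706240)]
noncomputable def e43_16 : List Rx := [
  Rx.mk (nat_lit 13) (nat_lit 5) (nat_lit 1) (nat_lit 0) (nat_lit 3) (nat_lit 68) (nat_lit 174) r7_68 r4_174 (nat_lit 0) (nat_lit 0) (nat_lit 0) (nat_lit 0x7d8ece758a) (nat_lit 1198743624),
  Rx.mk (nat_lit 201) (nat_lit 1) (nat_lit 1) (nat_lit 3) (nat_lit 7) (nat_lit 70) (nat_lit 176) r7_70 r4_176 (nat_lit 0) (nat_lit 0) (nat_lit 0) (nat_lit 0x7ddc8799aa) (nat_lit 1049717448),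
  Rx.mk (nat_lit 205) (nat_lit 5) (nat_lit 1) (nat_lit 3) (nat_lit 7) (nat_lit 69) (nat_lit 175) r7_69 r4_175 (nat_lit 0) (nat_lit 0) (nat_lit 0) (nat_lit 0x7e35a76754) (nat_lit 878830992)]
noncomputable def e43_17 : List Rx := [
  Rx.mk (nat_lit 13) (nat_lit 5) (nat_lit 1) (nat_lit 0) (nat_lit 3) (nat_lit 194) (nat_lit 326) r7_194 r9_326 (nat_lit 0) (nat_lit 0) (nat_lit 0) (nat_lit 0x7de3a84798) (nat_lit 1036050912),
  Rx.mk (nat_lit 77) (nat_lit 5) (nat_lit 1) (nat_lit 1) (nat_lit 7) (nat_lit 195) (nat_lit 327) r7_195 r9_327 (nat_lit 0) (nat_lit 0) (nat_lit 0) (nat_lit 0x7dd3600c2c) (nat_lit 1067270256),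
  Rx.mk (nat_lit 201) (nat_lit 1) (nat_lit 1) (nat_lit 3) (nat_lit 7) (nat_lit 197) (nat_lit 325) r7_197 r9_325 (nat_lit 0) (nat_lit 0) (nat_lit 0) (nat_lit 0x7dea641bd4) (nat_lit 1023139728),
  Rx.mk (nat_lit 205) (nat_lit 5) (nat_lit 1) (nat_lit 3) (nat_lit 7) (nat_lit 196) (nat_lit 328) r7_196 r9_328 (nat_lit 0) (nat_lit 0) (nat_lit 0) (nat_lit 0x7de444fdcc) (nat_lit 1034877168)]
noncomputable def e43_18 : List Rx := [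
  Rx.mk (nat_lit 201) (nat_lit 1) (nat_lit 1) (nat_lit 3) (nat_lit 7) (nat_lit 220) (nat_lit 343) r7_220 r10_343 (nat_lit 0) (nat_lit 0) (nat_lit 0) (nat_lit 0x7de0f07318) (nat_lit 1041262560),
  Rx.mk (nat_lit 205) (nat_lit 5) (nat_lit 1) (nat_lit 3) (nat_lit 7) (nat_lit 219) (nat_lit 344) r7_219 r10_344 (nat_lit 0) (nat_lit 0) (nat_lit 0) (nat_lit 0x7de8ed3344) (nat_lit 1025947728)]
noncomputable def e43_19 : List Rx := [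
  Rx.mk (nat_lit 365) (nat_lit 5) (nat_lit 5) (nat_lit 5) (nat_lit 7) (nat_lit 326) (nat_lit 289) r7_326 r8_289 (nat_lit 0) (nat_lit 0) (nat_lit 0) (nat_lit 0x7df343add2) (nat_lit 1006126056)]
noncomputable def e43_20 : List Rx := [
  Rx.mk (nat_lit 300) (nat_lit 4) (nat_lit 5) (nat_lit 4) (nat_lit 2) (nat_lit 241) (nat_lit 188) r7_241 r0_188 (nat_lit 0) (nat_lit 0) (nat_lit 0) (nat_lit 0x6c14ae090c) (nat_lit 9777416688),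
  Rx.mk (nat_lit 301) (nat_lit 5) (nat_lit 5) (nat_lit 4) (nat_lit 3) (nat_lit 242) (nat_lit 189) r7_242 r0_189 (nat_lit 0) (nat_lit 0) (nat_lit 0) (nat_lit 0x7d632fcfa0) (nat_lit 1282379904),
  Rx.mk (nat_lit 302) (nat_lit 6) (nat_lit 5) (nat_lit 4) (nat_lit 3) (nat_lit 243) (nat_lit 190) r7_243 r0_190 (nat_lit 0) (nat_lit 0) (nat_lit 0) (nat_lit 0x7e4de063ac) (nat_lit 832386672),
  Rx.mk (nat_lit 492) (nat_lit 4) (nat_lit 5) (nat_lit 7) (nat_lit 6) (nat_lit 244) (nat_lit 191) r7_244 r0_191 (nat_lit 0) (nat_lit 0) (nat_lit 0) (nat_lit 0x7dd6cb7572) (nat_lit 1060713576),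
  Rx.mk (nat_lit 493) (nat_lit 5) (nat_lit 5) (nat_lit 7) (nat_lit 7) (nat_lit 245) (nat_lit 192) r7_245 r0_192 (nat_lit 0) (nat_lit 0) (nat_lit 0) (nat_lit 0x7df79428c6) (nat_lit 997853688),
  Rx.mk (nat_lit 494) (nat_lit 6) (nat_lit 5) (nat_lit 7) (nat_lit 7) (nat_lit 246) (nat_lit 194) r7_246 r0_194 (nat_lit 0) (nat_lit 0) (nat_lit 0) (nat_lit 0x7de0607c18) (nat_lit 1042340832),
  Rx.mk (nat_lit 495) (nat_lit 7) (nat_lit 5) (nat_lit 7) (nat_lit 7) (nat_lit 247) (nat_lit 193) r7_247 r0_193 (nat_lit 0) (nat_lit 0) (nat_lit 0) (nat_lit 0x7de7422df6) (nat_lit 1029146040)]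
noncomputable def e43_21 : List Rx := [
  Rx.mk (nat_lit 292) (nat_lit 4) (nat_lit 4) (nat_lit 4) (nat_lit 0) (nat_lit 283) (nat_lit 201) r7_283 r1_201 (nat_lit 0) (nat_lit 0) (nat_lit 0) (nat_lit 0x34358c330c) (nat_lit 37202186736),
  Rx.mk (nat_lit 294) (nat_lit 6) (nat_lit 4) (nat_lit 4) (nat_lit 1) (nat_lit 284) (nat_lit 204) r7_284 r1_204 (nat_lit 0) (nat_lit 0) (nat_lit 0) (nat_lit 0x689c4c929c) (nat_lit 11480794416),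
  Rx.mk (nat_lit 300) (nat_lit 4) (nat_lit 5) (nat_lit 4) (nat_lit 2) (nat_lit 289) (nat_lit 202) r7_289 r1_202 (nat_lit 0) (nat_lit 0) (nat_lit 0) (nat_lit 0x694567a042) (nat_lit 11156551848),
  Rx.mk (nat_lit 301) (nat_lit 5) (nat_lit 5) (nat_lit 4) (nat_lit 3) (nat_lit 290) (nat_lit 203) r7_290 r1_203 (nat_lit 0) (nat_lit 0) (nat_lit 0) (nat_lit 0x7d333feece) (nat_lit 1374294168),
  Rx.mk (nat_lit 302) (nat_lit 6) (nat_lit 5) (nat_lit 4) (nat_lit 3) (nat_lit 291) (nat_lit 205) r7_291 r1_205 (nat_lit 0) (nat_lit 0) (nat_lit 0) (nat_lit 0x7d4016c154) (nat_lit 1349676432),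
  Rx.mk (nat_lit 422) (nat_lit 6) (nat_lit 4) (nat_lit 6) (nat_lit 5) (nat_lit 285) (nat_lit 214) r7_285 r1_214 (nat_lit 0) (nat_lit 0) (nat_lit 0) (nat_lit 0x5d3c3f5ed0) (nat_lit 17064350784),
  Rx.mk (nat_lit 430) (nat_lit 6) (nat_lit 5) (nat_lit 6) (nat_lit 7) (nat_lit 292) (nat_lit 215) r7_292 r1_215 (nat_lit 0) (nat_lit 0) (nat_lit 0) (nat_lit 0x7c3cb238a0) (nat_lit 1847035008),
  Rx.mk (nat_lit 438) (nat_lit 6) (nat_lit 6) (nat_lit 6) (nat_lit 7) (nat_lit 297) (nat_lit 216) r7_297 r1_216 (nat_lit 0) (nat_lit 0) (nat_lit 0) (nat_lit 0x78ed89ae78) (nat_lit 3471373152),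
  Rx.mk (nat_lit 484) (nat_lit 4) (nat_lit 4) (nat_lit 7) (nat_lit 4) (nat_lit 286) (nat_lit 206) r7_286 r1_206 (nat_lit 0) (nat_lit 0) (nat_lit 0) (nat_lit 0x6ddf3cfe52) (nat_lit 8898178536),
  Rx.mk (nat_lit 486) (nat_lit 6) (nat_lit 4) (nat_lit 7) (nat_lit 5) (nat_lit 287) (nat_lit 212) r7_287 r1_212 (nat_lit 0) (nat_lit 0) (nat_lit 0) (nat_lit 0x7db4c29622) (nat_lit 1125971496),
  Rx.mk (nat_lit 487) (nat_lit 7) (nat_lit 4) (nat_lit 7) (nat_lit 5) (nat_lit 288) (nat_lit 209) r7_288 r1_209 (nat_lit 0) (nat_lit 0) (nat_lit 0) (nat_lit 0x7de4743ad8) (nat_lit 1034523360),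
  Rx.mk (nat_lit 492) (nat_lit 4) (nat_lit 5) (nat_lit 7) (nat_lit 6) (nat_lit 293) (nat_lit 207) r7_293 r1_207 (nat_lit 0) (nat_lit 0) (nat_lit 0) (nat_lit 0x7c8fc726fe) (nat_lit 1687734360),
  Rx.mk (nat_lit 493) (nat_lit 5) (nat_lit 5) (nat_lit 7) (nat_lit 7) (nat_lit 294) (nat_lit 208) r7_294 r1_208 (nat_lit 0) (nat_lit 0) (nat_lit 0) (nat_lit 0x7db7bde66a) (nat_lit 1120254408),
  Rx.mk (nat_lit 494) (nat_lit 6) (nat_lit 5) (nat_lit 7) (nat_lit 7) (nat_lit 295) (nat_lit 213) r7_295 r1_213 (nat_lit 0) (nat_lit 0) (nat_lit 0) (nat_lit 0x7db90e3164) (nat_lit 1117735632),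
  Rx.mk (nat_lit 495) (nat_lit 7) (nat_lit 5) (nat_lit 7) (nat_lit 7) (nat_lit 296) (nat_lit 210) r7_296 r1_210 (nat_lit 0) (nat_lit 0) (nat_lit 0) (nat_lit 0x7dd2f1d310) (nat_lit 1068095808),
  Rx.mk (nat_lit 511) (nat_lit 7) (nat_lit 7) (nat_lit 7) (nat_lit 7) (nat_lit 298) (nat_lit 211) r7_298 r1_211 (nat_lit 0) (nat_lit 0) (nat_lit 0) (nat_lit 0x7deaa7f796) (nat_lit 1022631480)]
noncomputable def e43_22 : List Rx := [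
  Rx.mk (nat_lit 492) (nat_lit 4) (nat_lit 5) (nat_lit 7) (nat_lit 6) (nat_lit 351) (nat_lit 177) r7_351 r4_177 (nat_lit 0) (nat_lit 0) (nat_lit 0) (nat_lit 0x7dec271fa2) (nat_lit 1019761704),
  Rx.mk (nat_lit 493) (nat_lit 5) (nat_lit 5) (nat_lit 7) (nat_lit 7) (nat_lit 352) (nat_lit 178) r7_352 r4_178 (nat_lit 0) (nat_lit 0) (nat_lit 0) (nat_lit 0x7de75b4c64) (nat_lit 1028957904),
  Rx.mk (nat_lit 494) (nat_lit 6) (nat_lit 5) (nat_lit 7) (nat_lit 7) (nat_lit 353) (nat_lit 180) r7_353 r4_180 (nat_lit 0) (nat_lit 0) (nat_lit 0) (nat_lit 0x7de78789a0) (nat_lit 1028626560),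
  Rx.mk (nat_lit 495) (nat_lit 7) (nat_lit 5) (nat_lit 7) (nat_lit 7) (nat_lit 354) (nat_lit 179) r7_354 r4_179 (nat_lit 0) (nat_lit 0) (nat_lit 0) (nat_lit 0x7ddcf03320) (nat_lit 1048934016)]
noncomputable def e43_23 : List Rx := [
  Rx.mk (nat_lit 300) (nat_lit 4) (nat_lit 5) (nat_lit 4) (nat_lit 2) (nat_lit 248) (nat_lit 388) r7_248 r6_388 (nat_lit 0) (nat_lit 0) (nat_lit 0) (nat_lit 0x66291d8800) (nat_lit 12683354112),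
  Rx.mk (nat_lit 301) (nat_lit 5) (nat_lit 5) (nat_lit 4) (nat_lit 3) (nat_lit 249) (nat_lit 391) r7_249 r6_391 (nat_lit 0) (nat_lit 0) (nat_lit 0) (nat_lit 0x7d55b76734) (nat_lit 1308207888),
  Rx.mk (nat_lit 302) (nat_lit 6) (nat_lit 5) (nat_lit 4) (nat_lit 3) (nat_lit 250) (nat_lit 395) r7_250 r6_395 (nat_lit 0) (nat_lit 0) (nat_lit 0) (nat_lit 0x7d88d17560) (nat_lit 1210225536),
  Rx.mk (nat_lit 364) (nat_lit 4) (nat_lit 5) (nat_lit 5) (nat_lit 6) (nat_lit 251) (nat_lit 389) r7_251 r6_389 (nat_lit 0) (nat_lit 0) (nat_lit 0) (nat_lit 0x7d509b58fa) (nat_lit 1318005000),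
  Rx.mk (nat_lit 365) (nat_lit 5) (nat_lit 5) (nat_lit 5) (nat_lit 7) (nat_lit 252) (nat_lit 392) r7_252 r6_392 (nat_lit 0) (nat_lit 0) (nat_lit 0) (nat_lit 0x7de766ebaa) (nat_lit 1028870856),
  Rx.mk (nat_lit 366) (nat_lit 6) (nat_lit 5) (nat_lit 5) (nat_lit 7) (nat_lit 253) (nat_lit 396) r7_253 r6_396 (nat_lit 0) (nat_lit 0) (nat_lit 0) (nat_lit 0x7dd5e5a3d0) (nat_lit 1062434880),
  Rx.mk (nat_lit 492) (nat_lit 4) (nat_lit 5) (nat_lit 7) (nat_lit 6) (nat_lit 254) (nat_lit 390) r7_254 r6_390 (nat_lit 0) (nat_lit 0) (nat_lit 0) (nat_lit 0x7dcd22900a) (nat_lit 1079235144),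
  Rx.mk (nat_lit 493) (nat_lit 5) (nat_lit 5) (nat_lit 7) (nat_lit 7) (nat_lit 255) (nat_lit 393) r7_255 r6_393 (nat_lit 0) (nat_lit 0) (nat_lit 0) (nat_lit 0x7dc7720b18) (nat_lit 1090144224),
  Rx.mk (nat_lit 495) (nat_lit 7) (nat_lit 5) (nat_lit 7) (nat_lit 7) (nat_lit 256) (nat_lit 394) r7_256 r6_394 (nat_lit 0) (nat_lit 0) (nat_lit 0) (nat_lit 0x7dee7e3a2e) (nat_lit 1015274520)]
noncomputable def e43_24 : List Rx := [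
  Rx.mk (nat_lit 292) (nat_lit 4) (nat_lit 4) (nat_lit 4) (nat_lit 0) (nat_lit 299) (nat_lit 299) r7_299 r7_299 (nat_lit 0) (nat_lit 0) (nat_lit 0) (nat_lit 0x4a170bc530) (nat_lit 26461895616),
  Rx.mk (nat_lit 294) (nat_lit 6) (nat_lit 4) (nat_lit 4) (nat_lit 1) (nat_lit 300) (nat_lit 302) r7_300 r7_302 (nat_lit 0) (nat_lit 0) (nat_lit 0) (nat_lit 0x71bb073dd2) (nat_lit 7004193768),
  Rx.mk (nat_lit 300) (nat_lit 4) (nat_lit 5) (nat_lit 4) (nat_lit 2) (nat_lit 304) (nat_lit 304) r7_304 r7_304 (nat_lit 0) (nat_lit 0) (nat_lit 0) (nat_lit 0x7813e3e9ae) (nat_lit 3888689688),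
  Rx.mk (nat_lit 301) (nat_lit 5) (nat_lit 5) (nat_lit 4) (nat_lit 3) (nat_lit 305) (nat_lit 307) r7_305 r7_307 (nat_lit 0) (nat_lit 0) (nat_lit 0) (nat_lit 0x7daee1543c) (nat_lit 1137245616),
  Rx.mk (nat_lit 302) (nat_lit 6) (nat_lit 5) (nat_lit 4) (nat_lit 3) (nat_lit 306) (nat_lit 311) r7_306 r7_311 (nat_lit 0) (nat_lit 0) (nat_lit 0) (nat_lit 0x7dcd630c02) (nat_lit 1078752168),
  Rx.mk (nat_lit 364) (nat_lit 4) (nat_lit 5) (nat_lit 5) (nat_lit 6) (nat_lit 307) (nat_lit 305) r7_307 r7_305 (nat_lit 0) (nat_lit 0) (nat_lit 0) (nat_lit 0x7daee1543c) (nat_lit 1137245616),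
  Rx.mk (nat_lit 365) (nat_lit 5) (nat_lit 5) (nat_lit 5) (nat_lit 7) (nat_lit 308) (nat_lit 308) r7_308 r7_308 (nat_lit 0) (nat_lit 0) (nat_lit 0) (nat_lit 0x7df2d1b4f2) (nat_lit 1006979688),
  Rx.mk (nat_lit 366) (nat_lit 6) (nat_lit 5) (nat_lit 5) (nat_lit 7) (nat_lit 309) (nat_lit 312) r7_309 r7_312 (nat_lit 0) (nat_lit 0) (nat_lit 0) (nat_lit 0x7dd44e1d4a) (nat_lit 1065487176),
  Rx.mk (nat_lit 422) (nat_lit 6) (nat_lit 4) (nat_lit 6) (nat_lit 5) (nat_lit 301) (nat_lit 303) r7_301 r7_303 (nat_lit 0) (nat_lit 0) (nat_lit 0) (nat_lit 0x7da575eafc) (nat_lit 1155306672),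
  Rx.mk (nat_lit 430) (nat_lit 6) (nat_lit 5) (nat_lit 6) (nat_lit 7) (nat_lit 310) (nat_lit 313) r7_310 r7_313 (nat_lit 0) (nat_lit 0) (nat_lit 0) (nat_lit 0x7dd446fdbc) (nat_lit 1065540528),
  Rx.mk (nat_lit 438) (nat_lit 6) (nat_lit 6) (nat_lit 6) (nat_lit 7) (nat_lit 314) (nat_lit 315) r7_314 r7_315 (nat_lit 0) (nat_lit 0) (nat_lit 0) (nat_lit 0x7df79428c6) (nat_lit 997853688),
  Rx.mk (nat_lit 484) (nat_lit 4) (nat_lit 4) (nat_lit 7) (nat_lit 4) (nat_lit 302) (nat_lit 300) r7_302 r7_300 (nat_lit 0) (nat_lit 0) (nat_lit 0) (nat_lit 0x71bb073dd2) (nat_lit 7004193768),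
  Rx.mk (nat_lit 487) (nat_lit 7) (nat_lit 4) (nat_lit 7) (nat_lit 5) (nat_lit 303) (nat_lit 301) r7_303 r7_301 (nat_lit 0) (nat_lit 0) (nat_lit 0) (nat_lit 0x7da575eafc) (nat_lit 1155306672),
  Rx.mk (nat_lit 492) (nat_lit 4) (nat_lit 5) (nat_lit 7) (nat_lit 6) (nat_lit 311) (nat_lit 306) r7_311 r7_306 (nat_lit 0) (nat_lit 0) (nat_lit 0) (nat_lit 0x7dcd630c02) (nat_lit 1078752168),
  Rx.mk (nat_lit 493) (nat_lit 5) (nat_lit 5) (nat_lit 7) (nat_lit 7) (nat_lit 312) (nat_lit 309) r7_312 r7_309 (nat_lit 0) (nat_lit 0) (nat_lit 0) (nat_lit 0x7dd44e1d4a) (nat_lit 1065487176),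
  Rx.mk (nat_lit 495) (nat_lit 7) (nat_lit 5) (nat_lit 7) (nat_lit 7) (nat_lit 313) (nat_lit 310) r7_313 r7_310 (nat_lit 0) (nat_lit 0) (nat_lit 0) (nat_lit 0x7dd446fdbc) (nat_lit 1065540528),
  Rx.mk (nat_lit 511) (nat_lit 7) (nat_lit 7) (nat_lit 7) (nat_lit 7) (nat_lit 315) (nat_lit 314) r7_315 r7_314 (nat_lit 0) (nat_lit 0) (nat_lit 0) (nat_lit 0x7df79428c6) (nat_lit 997853688)]
noncomputable def e43_25 : List Rx := [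
  Rx.mk (nat_lit 364) (nat_lit 4) (nat_lit 5) (nat_lit 5) (nat_lit 6) (nat_lit 323) (nat_lit 191) r7_323 r7_191 (nat_lit 0) (nat_lit 0) (nat_lit 0) (nat_lit 0x7cf1f683a6) (nat_lit 1499474808),
  Rx.mk (nat_lit 365) (nat_lit 5) (nat_lit 5) (nat_lit 5) (nat_lit 7) (nat_lit 324) (nat_lit 192) r7_324 r7_192 (nat_lit 0) (nat_lit 0) (nat_lit 0) (nat_lit 0x7dd911b10c) (nat_lit 1056352752),
  Rx.mk (nat_lit 366) (nat_lit 6) (nat_lit 5) (nat_lit 5) (nat_lit 7) (nat_lit 325) (nat_lit 193) r7_325 r7_193 (nat_lit 0) (nat_lit 0) (nat_lit 0) (nat_lit 0x7ddc447ddc) (nat_lit 1050220080)]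
noncomputable def e43_26 : List Rx := [
  Rx.mk (nat_lit 492) (nat_lit 4) (nat_lit 5) (nat_lit 7) (nat_lit 6) (nat_lit 355) (nat_lit 317) r7_355 r9_317 (nat_lit 0) (nat_lit 0) (nat_lit 0) (nat_lit 0x7d5b2fafaa) (nat_lit 1297720008),
  Rx.mk (nat_lit 493) (nat_lit 5) (nat_lit 5) (nat_lit 7) (nat_lit 7) (nat_lit 356) (nat_lit 318) r7_356 r9_318 (nat_lit 0) (nat_lit 0) (nat_lit 0) (nat_lit 0x7db8a35812) (nat_lit 1118535912),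
  Rx.mk (nat_lit 495) (nat_lit 7) (nat_lit 5) (nat_lit 7) (nat_lit 7) (nat_lit 357) (nat_lit 319) r7_357 r9_319 (nat_lit 0) (nat_lit 0) (nat_lit 0) (nat_lit 0x7ded4a0d72) (nat_lit 1017582696)]
noncomputable def e43_27 : List Rx := [
  Rx.mk (nat_lit 492) (nat_lit 4) (nat_lit 5) (nat_lit 7) (nat_lit 6) (nat_lit 358) (nat_lit 335) r7_358 r10_335 (nat_lit 0) (nat_lit 0) (nat_lit 0) (nat_lit 0x7de88259f2) (nat_lit 1026748008),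
  Rx.mk (nat_lit 493) (nat_lit 5) (nat_lit 5) (nat_lit 7) (nat_lit 7) (nat_lit 359) (nat_lit 336) r7_359 r10_336 (nat_lit 0) (nat_lit 0) (nat_lit 0) (nat_lit 0x7de822bfec) (nat_lit 1027464048),
  Rx.mk (nat_lit 494) (nat_lit 6) (nat_lit 5) (nat_lit 7) (nat_lit 7) (nat_lit 360) (nat_lit 337) r7_360 r10_337 (nat_lit 0) (nat_lit 0) (nat_lit 0) (nat_lit 0x7df139ce72) (nat_lit 1010034792)]
noncomputable def e43_28 : List Rx := [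
  Rx.mk (nat_lit 13) (nat_lit 5) (nat_lit 1) (nat_lit 0) (nat_lit 3) (nat_lit 198) (nat_lit 219) r7_198 r10_219 (nat_lit 0) (nat_lit 0) (nat_lit 0) (nat_lit 0x7df20f8116) (nat_lit 1008434232),
  Rx.mk (nat_lit 77) (nat_lit 5) (nat_lit 1) (nat_lit 1) (nat_lit 7) (nat_lit 199) (nat_lit 220) r7_199 r10_220 (nat_lit 0) (nat_lit 0) (nat_lit 0) (nat_lit 0x7de83d5e42) (nat_lit 1027264680),
  Rx.mk (nat_lit 205) (nat_lit 5) (nat_lit 1) (nat_lit 3) (nat_lit 7) (nat_lit 200) (nat_lit 221) r7_200 r10_221 (nat_lit 0) (nat_lit 0) (nat_lit 0) (nat_lit 0x7deb8469ce) (nat_lit 1020980376)]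
noncomputable def e43_29 : List Rx := [
  Rx.mk (nat_lit 207) (nat_lit 7) (nat_lit 1) (nat_lit 3) (nat_lit 7) (nat_lit 224) (nat_lit 125) r7_224 r5_125 (nat_lit 0) (nat_lit 0) (nat_lit 0) (nat_lit 0x7dd520102a) (nat_lit 1063914696),
  Rx.mk (nat_lit 460) (nat_lit 4) (nat_lit 1) (nat_lit 7) (nat_lit 6) (nat_lit 221) (nat_lit 122) r7_221 r5_122 (nat_lit 0) (nat_lit 0) (nat_lit 0) (nat_lit 0x7dbcf8b2b8) (nat_lit 1110227040),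
  Rx.mk (nat_lit 461) (nat_lit 5) (nat_lit 1) (nat_lit 7) (nat_lit 7) (nat_lit 222) (nat_lit 123) r7_222 r5_123 (nat_lit 0) (nat_lit 0) (nat_lit 0) (nat_lit 0x7e020c013e) (nat_lit 977782104),
  Rx.mk (nat_lit 463) (nat_lit 7) (nat_lit 1) (nat_lit 7) (nat_lit 7) (nat_lit 223) (nat_lit 124) r7_223 r5_124 (nat_lit 0) (nat_lit 0) (nat_lit 0) (nat_lit 0x7dedf682aa) (nat_lit 1016291016)]
noncomputable def e43_30 : List Rx := [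
  Rx.mk (nat_lit 268) (nat_lit 4) (nat_lit 1) (nat_lit 4) (nat_lit 2) (nat_lit 368) (nat_lit 222) r7_368 r10_222 (nat_lit 0) (nat_lit 0) (nat_lit 0) (nat_lit 0x6dd2a647ca) (nat_lit 8922316104),
  Rx.mk (nat_lit 269) (nat_lit 5) (nat_lit 1) (nat_lit 4) (nat_lit 3) (nat_lit 369) (nat_lit 223) r7_369 r10_223 (nat_lit 0) (nat_lit 0) (nat_lit 0) (nat_lit 0x7dce8599d8) (nat_lit 1076575968),
  Rx.mk (nat_lit 332) (nat_lit 4) (nat_lit 1) (nat_lit 5) (nat_lit 6) (nat_lit 370) (nat_lit 224) r7_370 r10_224 (nat_lit 0) (nat_lit 0) (nat_lit 0) (nat_lit 0x7dd5e543d6) (nat_lit 1062437688),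
  Rx.mk (nat_lit 333) (nat_lit 5) (nat_lit 1) (nat_lit 5) (nat_lit 7) (nat_lit 371) (nat_lit 225) r7_371 r10_225 (nat_lit 0) (nat_lit 0) (nat_lit 0) (nat_lit 0x7df118d082) (nat_lit 1010281896),
  Rx.mk (nat_lit 460) (nat_lit 4) (nat_lit 1) (nat_lit 7) (nat_lit 6) (nat_lit 372) (nat_lit 226) r7_372 r10_226 (nat_lit 0) (nat_lit 0) (nat_lit 0) (nat_lit 0x7d483d1ee6) (nat_lit 1334049912),
  Rx.mk (nat_lit 461) (nat_lit 5) (nat_lit 1) (nat_lit 7) (nat_lit 7) (nat_lit 373) (nat_lit 227) r7_373 r10_227 (nat_lit 0) (nat_lit 0) (nat_lit 0) (nat_lit 0x7df32a2f6a) (nat_lit 1006317000),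
  Rx.mk (nat_lit 463) (nat_lit 7) (nat_lit 1) (nat_lit 7) (nat_lit 7) (nat_lit 374) (nat_lit 228) r7_374 r10_228 (nat_lit 0) (nat_lit 0) (nat_lit 0) (nat_lit 0x7de7266fb2) (nat_lit 1029353832),
  Rx.mk (nat_lit 495) (nat_lit 7) (nat_lit 5) (nat_lit 7) (nat_lit 7) (nat_lit 367) (nat_lit 229) r7_367 r10_229 (nat_lit 0) (nat_lit 0) (nat_lit 0) (nat_lit 0x7ddf1c9058) (nat_lit 1044766944)]
noncomputable def e43_31 : List Rx := [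
  Rx.mk (nat_lit 204) (nat_lit 4) (nat_lit 1) (nat_lit 3) (nat_lit 6) (nat_lit 71) (nat_lit 119) r7_71 r5_119 (nat_lit 0) (nat_lit 0) (nat_lit 0) (nat_lit 0x7e43268f54) (nat_lit 852952464),
  Rx.mk (nat_lit 205) (nat_lit 5) (nat_lit 1) (nat_lit 3) (nat_lit 7) (nat_lit 72) (nat_lit 120) r7_72 r5_120 (nat_lit 0) (nat_lit 0) (nat_lit 0) (nat_lit 0x7df5604c06) (nat_lit 1002076920),
  Rx.mk (nat_lit 207) (nat_lit 7) (nat_lit 1) (nat_lit 3) (nat_lit 7) (nat_lit 73) (nat_lit 121) r7_73 r5_121 (nat_lit 0) (nat_lit 0) (nat_lit 0) (nat_lit 0x7dbca6f7d4) (nat_lit 1110839184)]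
noncomputable def e43_32 : List Rx := [
  Rx.mk (nat_lit 204) (nat_lit 4) (nat_lit 1) (nat_lit 3) (nat_lit 6) (nat_lit 227) (nat_lit 371) r7_227 r11_371 (nat_lit 0) (nat_lit 0) (nat_lit 0) (nat_lit 0x7e01a8a774) (nat_lit 978526224),
  Rx.mk (nat_lit 205) (nat_lit 5) (nat_lit 1) (nat_lit 3) (nat_lit 7) (nat_lit 228) (nat_lit 373) r7_228 r11_373 (nat_lit 0) (nat_lit 0) (nat_lit 0) (nat_lit 0x7dddf522d0) (nat_lit 1046979648),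
  Rx.mk (nat_lit 207) (nat_lit 7) (nat_lit 1) (nat_lit 3) (nat_lit 7) (nat_lit 229) (nat_lit 375) r7_229 r11_375 (nat_lit 0) (nat_lit 0) (nat_lit 0) (nat_lit 0x7dcd9548de) (nat_lit 1078375896),
  Rx.mk (nat_lit 460) (nat_lit 4) (nat_lit 1) (nat_lit 7) (nat_lit 6) (nat_lit 225) (nat_lit 372) r7_225 r11_372 (nat_lit 0) (nat_lit 0) (nat_lit 0) (nat_lit 0x7da1c16648) (nat_lit 1162410912),
  Rx.mk (nat_lit 461) (nat_lit 5) (nat_lit 1) (nat_lit 7) (nat_lit 7) (nat_lit 226) (nat_lit 374) r7_226 r11_374 (nat_lit 0) (nat_lit 0) (nat_lit 0) (nat_lit 0x7dc9a2e808) (nat_lit 1085943456)]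
noncomputable def e43_33 : List Rx := [
  Rx.mk (nat_lit 223) (nat_lit 7) (nat_lit 3) (nat_lit 3) (nat_lit 7) (nat_lit 77) (nat_lit 140) r7_77 r0_140 (nat_lit 0) (nat_lit 0) (nat_lit 0) (nat_lit 0x7dbbc6c5d8) (nat_lit 1112518368),
  Rx.mk (nat_lit 479) (nat_lit 7) (nat_lit 3) (nat_lit 7) (nat_lit 7) (nat_lit 76) (nat_lit 139) r7_76 r0_139 (nat_lit 0) (nat_lit 0) (nat_lit 0) (nat_lit 0x7dbbc6c5d8) (nat_lit 1112518368)]
noncomputable def e43_34 : List Rx := [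
  Rx.mk (nat_lit 0) (nat_lit 0) (nat_lit 0) (nat_lit 0) (nat_lit 0) (nat_lit 0) (nat_lit 124) r7_0 r0_124 (nat_lit 0) (nat_lit 0) (nat_lit 0) (nat_lit 0x26656fa2a6) (nat_lit 43982313336),
  Rx.mk (nat_lit 3) (nat_lit 3) (nat_lit 0) (nat_lit 0) (nat_lit 1) (nat_lit 1) (nat_lit 125) r7_1 r0_125 (nat_lit 0) (nat_lit 0) (nat_lit 0) (nat_lit 0x5777047844) (nat_lit 19896786000),
  Rx.mk (nat_lit 8) (nat_lit 0) (nat_lit 1) (nat_lit 0) (nat_lit 2) (nat_lit 3) (nat_lit 127) r7_3 r0_127 (nat_lit 0) (nat_lit 0) (nat_lit 0) (nat_lit 0x6ccff433ee) (nat_lit 9418338072),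
  Rx.mk (nat_lit 11) (nat_lit 3) (nat_lit 1) (nat_lit 0) (nat_lit 3) (nat_lit 4) (nat_lit 128) r7_4 r0_128 (nat_lit 0) (nat_lit 0) (nat_lit 0) (nat_lit 0x7d33d4058c) (nat_lit 1373185008),
  Rx.mk (nat_lit 16) (nat_lit 0) (nat_lit 2) (nat_lit 0) (nat_lit 2) (nat_lit 6) (nat_lit 133) r7_6 r0_133 (nat_lit 0) (nat_lit 0) (nat_lit 0) (nat_lit 0x62b0ff8d58) (nat_lit 14386226400),
  Rx.mk (nat_lit 19) (nat_lit 3) (nat_lit 2) (nat_lit 0) (nat_lit 3) (nat_lit 7) (nat_lit 134) r7_7 r0_134 (nat_lit 0) (nat_lit 0) (nat_lit 0) (nat_lit 0x7d34a4d87e) (nat_lit 1371620952),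
  Rx.mk (nat_lit 144) (nat_lit 0) (nat_lit 2) (nat_lit 2) (nat_lit 6) (nat_lit 8) (nat_lit 136) r7_8 r0_136 (nat_lit 0) (nat_lit 0) (nat_lit 0) (nat_lit 0x7c3f4c0f00) (nat_lit 1842048000),
  Rx.mk (nat_lit 146) (nat_lit 2) (nat_lit 2) (nat_lit 2) (nat_lit 7) (nat_lit 9) (nat_lit 138) r7_9 r0_138 (nat_lit 0) (nat_lit 0) (nat_lit 0) (nat_lit 0x7db74b2d96) (nat_lit 1121113656),
  Rx.mk (nat_lit 147) (nat_lit 3) (nat_lit 2) (nat_lit 2) (nat_lit 7) (nat_lit 10) (nat_lit 137) r7_10 r0_137 (nat_lit 0) (nat_lit 0) (nat_lit 0) (nat_lit 0x7df1e163f8) (nat_lit 1008779616),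
  Rx.mk (nat_lit 195) (nat_lit 3) (nat_lit 0) (nat_lit 3) (nat_lit 5) (nat_lit 2) (nat_lit 126) r7_2 r0_126 (nat_lit 0) (nat_lit 0) (nat_lit 0) (nat_lit 0x7aa48cbc90) (nat_lit 2629613376),
  Rx.mk (nat_lit 203) (nat_lit 3) (nat_lit 1) (nat_lit 3) (nat_lit 7) (nat_lit 5) (nat_lit 129) r7_5 r0_129 (nat_lit 0) (nat_lit 0) (nat_lit 0) (nat_lit 0x7dee6ffb12) (nat_lit 1015381224),
  Rx.mk (nat_lit 211) (nat_lit 3) (nat_lit 2) (nat_lit 3) (nat_lit 7) (nat_lit 11) (nat_lit 135) r7_11 r0_135 (nat_lit 0) (nat_lit 0) (nat_lit 0) (nat_lit 0x7de50491d2) (nat_lit 1033442280),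
  Rx.mk (nat_lit 219) (nat_lit 3) (nat_lit 3) (nat_lit 3) (nat_lit 7) (nat_lit 14) (nat_lit 130) r7_14 r0_130 (nat_lit 0) (nat_lit 0) (nat_lit 0) (nat_lit 0x7da85dbc7c) (nat_lit 1149735600),
  Rx.mk (nat_lit 223) (nat_lit 7) (nat_lit 3) (nat_lit 3) (nat_lit 7) (nat_lit 13) (nat_lit 131) r7_13 r0_131 (nat_lit 0) (nat_lit 0) (nat_lit 0) (nat_lit 0x7dcfeb437c) (nat_lit 1073897136),
  Rx.mk (nat_lit 479) (nat_lit 7) (nat_lit 3) (nat_lit 7) (nat_lit 7) (nat_lit 12) (nat_lit 132) r7_12 r0_132 (nat_lit 0) (nat_lit 0) (nat_lit 0) (nat_lit 0x7df4ed3338) (nat_lit 1002938976)]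
noncomputable def e43_35 : List Rx := [
  Rx.mk (nat_lit 0) (nat_lit 0) (nat_lit 0) (nat_lit 0) (nat_lit 0) (nat_lit 78) (nat_lit 150) r7_78 r6_150 (nat_lit 0) (nat_lit 0) (nat_lit 0) (nat_lit 0x1522d75d6e) (nat_lit 52454509848),
  Rx.mk (nat_lit 3) (nat_lit 3) (nat_lit 0) (nat_lit 0) (nat_lit 1) (nat_lit 79) (nat_lit 153) r7_79 r6_153 (nat_lit 0) (nat_lit 0) (nat_lit 0) (nat_lit 0x4c4a1c91f0) (nat_lit 25382275776),
  Rx.mk (nat_lit 16) (nat_lit 0) (nat_lit 2) (nat_lit 0) (nat_lit 2) (nat_lit 81) (nat_lit 151) r7_81 r6_151 (nat_lit 0) (nat_lit 0) (nat_lit 0) (nat_lit 0x5f26a1d6be) (nat_lit 16124089176),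
  Rx.mk (nat_lit 19) (nat_lit 3) (nat_lit 2) (nat_lit 0) (nat_lit 3) (nat_lit 82) (nat_lit 154) r7_82 r6_154 (nat_lit 0) (nat_lit 0) (nat_lit 0) (nat_lit 0x7d7099f8f0) (nat_lit 1256658624),
  Rx.mk (nat_lit 144) (nat_lit 0) (nat_lit 2) (nat_lit 2) (nat_lit 6) (nat_lit 83) (nat_lit 152) r7_83 r6_152 (nat_lit 0) (nat_lit 0) (nat_lit 0) (nat_lit 0x7cf5e524b8) (nat_lit 1491935328),
  Rx.mk (nat_lit 146) (nat_lit 2) (nat_lit 2) (nat_lit 2) (nat_lit 7) (nat_lit 84) (nat_lit 159) r7_84 r6_159 (nat_lit 0) (nat_lit 0) (nat_lit 0) (nat_lit 0x7daf4b6d9a) (nat_lit 1136450952),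
  Rx.mk (nat_lit 147) (nat_lit 3) (nat_lit 2) (nat_lit 2) (nat_lit 7) (nat_lit 85) (nat_lit 158) r7_85 r6_158 (nat_lit 0) (nat_lit 0) (nat_lit 0) (nat_lit 0x7de9a4e7c8) (nat_lit 1024571808),
  Rx.mk (nat_lit 195) (nat_lit 3) (nat_lit 0) (nat_lit 3) (nat_lit 5) (nat_lit 80) (nat_lit 155) r7_80 r6_155 (nat_lit 0) (nat_lit 0) (nat_lit 0) (nat_lit 0x7cc30772c6) (nat_lit 1589465592),
  Rx.mk (nat_lit 211) (nat_lit 3) (nat_lit 2) (nat_lit 3) (nat_lit 7) (nat_lit 86) (nat_lit 157) r7_86 r6_157 (nat_lit 0) (nat_lit 0) (nat_lit 0) (nat_lit 0x7da9f1833e) (nat_lit 1146711384),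
  Rx.mk (nat_lit 219) (nat_lit 3) (nat_lit 3) (nat_lit 3) (nat_lit 7) (nat_lit 89) (nat_lit 156) r7_89 r6_156 (nat_lit 0) (nat_lit 0) (nat_lit 0) (nat_lit 0x7d97b946d4) (nat_lit 1181645712),
  Rx.mk (nat_lit 223) (nat_lit 7) (nat_lit 3) (nat_lit 3) (nat_lit 7) (nat_lit 88) (nat_lit 149) r7_88 r6_149 (nat_lit 0) (nat_lit 0) (nat_lit 0) (nat_lit 0x7de5d2c4ee) (nat_lit 1031897880),
  Rx.mk (nat_lit 479) (nat_lit 7) (nat_lit 3) (nat_lit 7) (nat_lit 7) (nat_lit 87) (nat_lit 148) r7_87 r6_148 (nat_lit 0) (nat_lit 0) (nat_lit 0) (nat_lit 0x7df4627be4) (nat_lit 1003977936)]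
noncomputable def e43_36 : List Rx := [
  Rx.mk (nat_lit 0) (nat_lit 0) (nat_lit 0) (nat_lit 0) (nat_lit 0) (nat_lit 25) (nat_lit 119) r7_25 r2_119 (nat_lit 0) (nat_lit 0) (nat_lit 0) (nat_lit 0x29642f73aa) (nat_lit 42512151240),
  Rx.mk (nat_lit 1) (nat_lit 1) (nat_lit 0) (nat_lit 0) (nat_lit 1) (nat_lit 26) (nat_lit 120) r7_26 r2_120 (nat_lit 0) (nat_lit 0) (nat_lit 0) (nat_lit 0x7204dfa002) (nat_lit 6862603176),
  Rx.mk (nat_lit 8) (nat_lit 0) (nat_lit 1) (nat_lit 0) (nat_lit 2) (nat_lit 30) (nat_lit 124) r7_30 r2_124 (nat_lit 0) (nat_lit 0) (nat_lit 0) (nat_lit 0x7afaf2d5d8) (nat_lit 2463952608),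
  Rx.mk (nat_lit 9) (nat_lit 1) (nat_lit 1) (nat_lit 0) (nat_lit 3) (nat_lit 31) (nat_lit 125) r7_31 r2_125 (nat_lit 0) (nat_lit 0) (nat_lit 0) (nat_lit 0x7d1ecd760a) (nat_lit 1413499464),
  Rx.mk (nat_lit 16) (nat_lit 0) (nat_lit 2) (nat_lit 0) (nat_lit 2) (nat_lit 35) (nat_lit 130) r7_35 r2_130 (nat_lit 0) (nat_lit 0) (nat_lit 0) (nat_lit 0x7a45758e62) (nat_lit 2811939624),
  Rx.mk (nat_lit 17) (nat_lit 1) (nat_lit 2) (nat_lit 0) (nat_lit 3) (nat_lit 36) (nat_lit 131) r7_36 r2_131 (nat_lit 0) (nat_lit 0) (nat_lit 0) (nat_lit 0x7dd31cf05e) (nat_lit 1067772888),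
  Rx.mk (nat_lit 144) (nat_lit 0) (nat_lit 2) (nat_lit 2) (nat_lit 6) (nat_lit 37) (nat_lit 134) r7_37 r2_134 (nat_lit 0) (nat_lit 0) (nat_lit 0) (nat_lit 0x7ddea617c0) (nat_lit 1045654272),
  Rx.mk (nat_lit 145) (nat_lit 1) (nat_lit 2) (nat_lit 2) (nat_lit 7) (nat_lit 38) (nat_lit 135) r7_38 r2_135 (nat_lit 0) (nat_lit 0) (nat_lit 0) (nat_lit 0x7de929ef78) (nat_lit 1025492832),
  Rx.mk (nat_lit 146) (nat_lit 2) (nat_lit 2) (nat_lit 2) (nat_lit 7) (nat_lit 39) (nat_lit 136) r7_39 r2_136 (nat_lit 0) (nat_lit 0) (nat_lit 0) (nat_lit 0x7de105d1c2) (nat_lit 1041102504),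
  Rx.mk (nat_lit 192) (nat_lit 0) (nat_lit 0) (nat_lit 3) (nat_lit 4) (nat_lit 27) (nat_lit 121) r7_27 r2_121 (nat_lit 0) (nat_lit 0) (nat_lit 0) (nat_lit 0x7ba3736d26) (nat_lit 2140866936),
  Rx.mk (nat_lit 193) (nat_lit 1) (nat_lit 0) (nat_lit 3) (nat_lit 5) (nat_lit 28) (nat_lit 122) r7_28 r2_122 (nat_lit 0) (nat_lit 0) (nat_lit 0) (nat_lit 0x7dded494d8) (nat_lit 1045306080),
  Rx.mk (nat_lit 195) (nat_lit 3) (nat_lit 0) (nat_lit 3) (nat_lit 5) (nat_lit 29) (nat_lit 123) r7_29 r2_123 (nat_lit 0) (nat_lit 0) (nat_lit 0) (nat_lit 0x7dacbf765c) (nat_lit 1141334064),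
  Rx.mk (nat_lit 200) (nat_lit 0) (nat_lit 1) (nat_lit 3) (nat_lit 6) (nat_lit 32) (nat_lit 126) r7_32 r2_126 (nat_lit 0) (nat_lit 0) (nat_lit 0) (nat_lit 0x7de3209014) (nat_lit 1037067408),
  Rx.mk (nat_lit 201) (nat_lit 1) (nat_lit 1) (nat_lit 3) (nat_lit 7) (nat_lit 33) (nat_lit 127) r7_33 r2_127 (nat_lit 0) (nat_lit 0) (nat_lit 0) (nat_lit 0x7df944cdba) (nat_lit 994613256),
  Rx.mk (nat_lit 203) (nat_lit 3) (nat_lit 1) (nat_lit 3) (nat_lit 7) (nat_lit 34) (nat_lit 128) r7_34 r2_128 (nat_lit 0) (nat_lit 0) (nat_lit 0) (nat_lit 0x7dd548ed9c) (nat_lit 1063608624),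
  Rx.mk (nat_lit 208) (nat_lit 0) (nat_lit 2) (nat_lit 3) (nat_lit 6) (nat_lit 40) (nat_lit 132) r7_40 r2_132 (nat_lit 0) (nat_lit 0) (nat_lit 0) (nat_lit 0x7d9f1fb066) (nat_lit 1167456888),
  Rx.mk (nat_lit 209) (nat_lit 1) (nat_lit 2) (nat_lit 3) (nat_lit 7) (nat_lit 41) (nat_lit 133) r7_41 r2_133 (nat_lit 0) (nat_lit 0) (nat_lit 0) (nat_lit 0x7dcf8c696a) (nat_lit 1074607560),
  Rx.mk (nat_lit 219) (nat_lit 3) (nat_lit 3) (nat_lit 3) (nat_lit 7) (nat_lit 42) (nat_lit 129) r7_42 r2_129 (nat_lit 0) (nat_lit 0) (nat_lit 0) (nat_lit 0x7dd1b1471a) (nat_lit 1070496648)]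
noncomputable def e43_37 : List Rx := [
  Rx.mk (nat_lit 0) (nat_lit 0) (nat_lit 0) (nat_lit 0) (nat_lit 0) (nat_lit 133) (nat_lit 86) r7_133 r8_86 (nat_lit 0) (nat_lit 0) (nat_lit 0) (nat_lit 0x4dd0ff623c) (nat_lit 24632792496),
  Rx.mk (nat_lit 1) (nat_lit 1) (nat_lit 0) (nat_lit 0) (nat_lit 1) (nat_lit 134) (nat_lit 87) r7_134 r8_87 (nat_lit 0) (nat_lit 0) (nat_lit 0) (nat_lit 0x726c30aa8a) (nat_lit 6664504392),
  Rx.mk (nat_lit 16) (nat_lit 0) (nat_lit 2) (nat_lit 0) (nat_lit 2) (nat_lit 138) (nat_lit 92) r7_138 r8_92 (nat_lit 0) (nat_lit 0) (nat_lit 0) (nat_lit 0x72540acd00) (nat_lit 6710805504),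
  Rx.mk (nat_lit 17) (nat_lit 1) (nat_lit 2) (nat_lit 0) (nat_lit 3) (nat_lit 139) (nat_lit 93) r7_139 r8_93 (nat_lit 0) (nat_lit 0) (nat_lit 0) (nat_lit 0x7defee632a) (nat_lit 1012517064),
  Rx.mk (nat_lit 144) (nat_lit 0) (nat_lit 2) (nat_lit 2) (nat_lit 6) (nat_lit 140) (nat_lit 96) r7_140 r8_96 (nat_lit 0) (nat_lit 0) (nat_lit 0) (nat_lit 0x7da6639c20) (nat_lit 1153526400),
  Rx.mk (nat_lit 145) (nat_lit 1) (nat_lit 2) (nat_lit 2) (nat_lit 7) (nat_lit 141) (nat_lit 97) r7_141 r8_97 (nat_lit 0) (nat_lit 0) (nat_lit 0) (nat_lit 0x7dee723aee) (nat_lit 1015364376),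
  Rx.mk (nat_lit 146) (nat_lit 2) (nat_lit 2) (nat_lit 2) (nat_lit 7) (nat_lit 142) (nat_lit 98) r7_142 r8_98 (nat_lit 0) (nat_lit 0) (nat_lit 0) (nat_lit 0x7db8202046) (nat_lit 1119518712),
  Rx.mk (nat_lit 192) (nat_lit 0) (nat_lit 0) (nat_lit 3) (nat_lit 4) (nat_lit 135) (nat_lit 88) r7_135 r8_88 (nat_lit 0) (nat_lit 0) (nat_lit 0) (nat_lit 0x79a02d0390) (nat_lit 3128853312),
  Rx.mk (nat_lit 193) (nat_lit 1) (nat_lit 0) (nat_lit 3) (nat_lit 5) (nat_lit 136) (nat_lit 89) r7_136 r8_89 (nat_lit 0) (nat_lit 0) (nat_lit 0) (nat_lit 0x7dcb1d3062) (nat_lit 1083110184),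
  Rx.mk (nat_lit 195) (nat_lit 3) (nat_lit 0) (nat_lit 3) (nat_lit 5) (nat_lit 137) (nat_lit 90) r7_137 r8_90 (nat_lit 0) (nat_lit 0) (nat_lit 0) (nat_lit 0x7dc9350ee6) (nat_lit 1086766200),
  Rx.mk (nat_lit 208) (nat_lit 0) (nat_lit 2) (nat_lit 3) (nat_lit 6) (nat_lit 143) (nat_lit 94) r7_143 r8_94 (nat_lit 0) (nat_lit 0) (nat_lit 0) (nat_lit 0x7de5f8a290) (nat_lit 1031614272),
  Rx.mk (nat_lit 209) (nat_lit 1) (nat_lit 2) (nat_lit 3) (nat_lit 7) (nat_lit 144) (nat_lit 95) r7_144 r8_95 (nat_lit 0) (nat_lit 0) (nat_lit 0) (nat_lit 0x7dd143cdf2) (nat_lit 1071316584),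
  Rx.mk (nat_lit 219) (nat_lit 3) (nat_lit 3) (nat_lit 3) (nat_lit 7) (nat_lit 145) (nat_lit 91) r7_145 r8_91 (nat_lit 0) (nat_lit 0) (nat_lit 0) (nat_lit 0x7df0bff610) (nat_lit 1010947392)]
noncomputable def e43_38 : List Rx := [
  Rx.mk (nat_lit 0) (nat_lit 0) (nat_lit 0) (nat_lit 0) (nat_lit 0) (nat_lit 159) (nat_lit 183) r7_159 r8_183 (nat_lit 0) (nat_lit 0) (nat_lit 0) (nat_lit 0xf50b40576) (nat_lit 55311694776),
  Rx.mk (nat_lit 1) (nat_lit 1) (nat_lit 0) (nat_lit 0) (nat_lit 1) (nat_lit 160) (nat_lit 184) r7_160 r8_184 (nat_lit 0) (nat_lit 0) (nat_lit 0) (nat_lit 0x6e6da8770c) (nat_lit 8625103344),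
  Rx.mk (nat_lit 8) (nat_lit 0) (nat_lit 1) (nat_lit 0) (nat_lit 2) (nat_lit 165) (nat_lit 185) r7_165 r8_185 (nat_lit 0) (nat_lit 0) (nat_lit 0) (nat_lit 0x5ded7eea26) (nat_lit 16724495736),
  Rx.mk (nat_lit 9) (nat_lit 1) (nat_lit 1) (nat_lit 0) (nat_lit 3) (nat_lit 166) (nat_lit 186) r7_166 r8_186 (nat_lit 0) (nat_lit 0) (nat_lit 0) (nat_lit 0x7c45bbc7fe) (nat_lit 1829706840),
  Rx.mk (nat_lit 16) (nat_lit 0) (nat_lit 2) (nat_lit 0) (nat_lit 2) (nat_lit 171) (nat_lit 187) r7_171 r8_187 (nat_lit 0) (nat_lit 0) (nat_lit 0) (nat_lit 0x6bc7e5f5da) (nat_lit 9924637320),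
  Rx.mk (nat_lit 17) (nat_lit 1) (nat_lit 2) (nat_lit 0) (nat_lit 3) (nat_lit 172) (nat_lit 188) r7_172 r8_188 (nat_lit 0) (nat_lit 0) (nat_lit 0) (nat_lit 0x7d82afb782) (nat_lit 1221982632),
  Rx.mk (nat_lit 65) (nat_lit 1) (nat_lit 0) (nat_lit 1) (nat_lit 5) (nat_lit 161) (nat_lit 189) r7_161 r8_189 (nat_lit 0) (nat_lit 0) (nat_lit 0) (nat_lit 0x7d74577d14) (nat_lit 1249486992),
  Rx.mk (nat_lit 73) (nat_lit 1) (nat_lit 1) (nat_lit 1) (nat_lit 7) (nat_lit 167) (nat_lit 190) r7_167 r8_190 (nat_lit 0) (nat_lit 0) (nat_lit 0) (nat_lit 0x7db6535d14) (nat_lit 1122969744),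
  Rx.mk (nat_lit 81) (nat_lit 1) (nat_lit 2) (nat_lit 1) (nat_lit 7) (nat_lit 173) (nat_lit 191) r7_173 r8_191 (nat_lit 0) (nat_lit 0) (nat_lit 0) (nat_lit 0x7dea7a9a6c) (nat_lit 1022971248),
  Rx.mk (nat_lit 144) (nat_lit 0) (nat_lit 2) (nat_lit 2) (nat_lit 6) (nat_lit 174) (nat_lit 199) r7_174 r8_199 (nat_lit 0) (nat_lit 0) (nat_lit 0) (nat_lit 0x7dcf674bbc) (nat_lit 1074885552),
  Rx.mk (nat_lit 145) (nat_lit 1) (nat_lit 2) (nat_lit 2) (nat_lit 7) (nat_lit 175) (nat_lit 200) r7_175 r8_200 (nat_lit 0) (nat_lit 0) (nat_lit 0) (nat_lit 0x7ddabb966c) (nat_lit 1053162864),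
  Rx.mk (nat_lit 146) (nat_lit 2) (nat_lit 2) (nat_lit 2) (nat_lit 7) (nat_lit 176) (nat_lit 201) r7_176 r8_201 (nat_lit 0) (nat_lit 0) (nat_lit 0) (nat_lit 0x7dec61fbf4) (nat_lit 1019320848),
  Rx.mk (nat_lit 192) (nat_lit 0) (nat_lit 0) (nat_lit 3) (nat_lit 4) (nat_lit 162) (nat_lit 192) r7_162 r8_192 (nat_lit 0) (nat_lit 0) (nat_lit 0) (nat_lit 0x69ea215402) (nat_lit 10840708008),
  Rx.mk (nat_lit 193) (nat_lit 1) (nat_lit 0) (nat_lit 3) (nat_lit 5) (nat_lit 163) (nat_lit 193) r7_163 r8_193 (nat_lit 0) (nat_lit 0) (nat_lit 0) (nat_lit 0x7dd111311c) (nat_lit 1071695664),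
  Rx.mk (nat_lit 195) (nat_lit 3) (nat_lit 0) (nat_lit 3) (nat_lit 5) (nat_lit 164) (nat_lit 194) r7_164 r8_194 (nat_lit 0) (nat_lit 0) (nat_lit 0) (nat_lit 0x7dde503d1e) (nat_lit 1046297304),
  Rx.mk (nat_lit 200) (nat_lit 0) (nat_lit 1) (nat_lit 3) (nat_lit 6) (nat_lit 168) (nat_lit 195) r7_168 r8_195 (nat_lit 0) (nat_lit 0) (nat_lit 0) (nat_lit 0x7dc8110128) (nat_lit 1088953632),
  Rx.mk (nat_lit 201) (nat_lit 1) (nat_lit 1) (nat_lit 3) (nat_lit 7) (nat_lit 169) (nat_lit 196) r7_169 r8_196 (nat_lit 0) (nat_lit 0) (nat_lit 0) (nat_lit 0x7df38ba952) (nat_lit 1005586920),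
  Rx.mk (nat_lit 203) (nat_lit 3) (nat_lit 1) (nat_lit 3) (nat_lit 7) (nat_lit 170) (nat_lit 197) r7_170 r8_197 (nat_lit 0) (nat_lit 0) (nat_lit 0) (nat_lit 0x7df0e8138e) (nat_lit 1010646936),
  Rx.mk (nat_lit 219) (nat_lit 3) (nat_lit 3) (nat_lit 3) (nat_lit 7) (nat_lit 177) (nat_lit 198) r7_177 r8_198 (nat_lit 0) (nat_lit 0) (nat_lit 0) (nat_lit 0x7ddc561cc2) (nat_lit 1050088104)]
noncomputable def e43_39 : List Rx := [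
  Rx.mk (nat_lit 0) (nat_lit 0) (nat_lit 0) (nat_lit 0) (nat_lit 0) (nat_lit 15) (nat_lit 131) r7_15 r1_131 (nat_lit 0) (nat_lit 0) (nat_lit 0) (nat_lit 0x3a4548f130) (nat_lit 34226891712),
  Rx.mk (nat_lit 3) (nat_lit 3) (nat_lit 0) (nat_lit 0) (nat_lit 1) (nat_lit 16) (nat_lit 132) r7_16 r1_132 (nat_lit 0) (nat_lit 0) (nat_lit 0) (nat_lit 0x719cb8e2d6) (nat_lit 7062302520),
  Rx.mk (nat_lit 8) (nat_lit 0) (nat_lit 1) (nat_lit 0) (nat_lit 2) (nat_lit 18) (nat_lit 134) r7_18 r1_134 (nat_lit 0) (nat_lit 0) (nat_lit 0) (nat_lit 0x713c198d2c) (nat_lit 7247565936),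
  Rx.mk (nat_lit 11) (nat_lit 3) (nat_lit 1) (nat_lit 0) (nat_lit 3) (nat_lit 19) (nat_lit 135) r7_19 r1_135 (nat_lit 0) (nat_lit 0) (nat_lit 0) (nat_lit 0x7dcb8c896c) (nat_lit 1082276208),
  Rx.mk (nat_lit 16) (nat_lit 0) (nat_lit 2) (nat_lit 0) (nat_lit 2) (nat_lit 21) (nat_lit 138) r7_21 r1_138 (nat_lit 0) (nat_lit 0) (nat_lit 0) (nat_lit 0x6d86155126) (nat_lit 9069123960),
  Rx.mk (nat_lit 144) (nat_lit 0) (nat_lit 2) (nat_lit 2) (nat_lit 6) (nat_lit 22) (nat_lit 139) r7_22 r1_139 (nat_lit 0) (nat_lit 0) (nat_lit 0) (nat_lit 0x78d44382f4) (nat_lit 3519833616),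
  Rx.mk (nat_lit 146) (nat_lit 2) (nat_lit 2) (nat_lit 2) (nat_lit 7) (nat_lit 23) (nat_lit 140) r7_23 r1_140 (nat_lit 0) (nat_lit 0) (nat_lit 0) (nat_lit 0x7d782dbfac) (nat_lit 1242130032),
  Rx.mk (nat_lit 195) (nat_lit 3) (nat_lit 0) (nat_lit 3) (nat_lit 5) (nat_lit 17) (nat_lit 133) r7_17 r1_133 (nat_lit 0) (nat_lit 0) (nat_lit 0) (nat_lit 0x7d4b722b92) (nat_lit 1327900392),
  Rx.mk (nat_lit 203) (nat_lit 3) (nat_lit 1) (nat_lit 3) (nat_lit 7) (nat_lit 20) (nat_lit 136) r7_20 r1_136 (nat_lit 0) (nat_lit 0) (nat_lit 0) (nat_lit 0x7ddfbee632) (nat_lit 1043551080),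
  Rx.mk (nat_lit 219) (nat_lit 3) (nat_lit 3) (nat_lit 3) (nat_lit 7) (nat_lit 24) (nat_lit 137) r7_24 r1_137 (nat_lit 0) (nat_lit 0) (nat_lit 0) (nat_lit 0x7dd37a4a88) (nat_lit 1067073696)]
noncomputable def e43_40 : List Rx := [
  Rx.mk (nat_lit 0) (nat_lit 0) (nat_lit 0) (nat_lit 0) (nat_lit 0) (nat_lit 126) (nat_lit 126) r7_126 r7_126 (nat_lit 0) (nat_lit 0) (nat_lit 0) (nat_lit 0x57c45ec252) (nat_lit 19748470248),
  Rx.mk (nat_lit 3) (nat_lit 3) (nat_lit 0) (nat_lit 0) (nat_lit 1) (nat_lit 127) (nat_lit 129) r7_127 r7_129 (nat_lit 0) (nat_lit 0) (nat_lit 0) (nat_lit 0x62d0065ccc) (nat_lit 14326736112),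
  Rx.mk (nat_lit 16) (nat_lit 0) (nat_lit 2) (nat_lit 0) (nat_lit 2) (nat_lit 129) (nat_lit 127) r7_129 r7_127 (nat_lit 0) (nat_lit 0) (nat_lit 0) (nat_lit 0x62d0065ccc) (nat_lit 14326736112),
  Rx.mk (nat_lit 144) (nat_lit 0) (nat_lit 2) (nat_lit 2) (nat_lit 6) (nat_lit 130) (nat_lit 128) r7_130 r7_128 (nat_lit 0) (nat_lit 0) (nat_lit 0) (nat_lit 0x7d8535af20) (nat_lit 1217144448),
  Rx.mk (nat_lit 146) (nat_lit 2) (nat_lit 2) (nat_lit 2) (nat_lit 7) (nat_lit 131) (nat_lit 132) r7_131 r7_132 (nat_lit 0) (nat_lit 0) (nat_lit 0) (nat_lit 0x7dc303320a) (nat_lit 1098644040),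
  Rx.mk (nat_lit 195) (nat_lit 3) (nat_lit 0) (nat_lit 3) (nat_lit 5) (nat_lit 128) (nat_lit 130) r7_128 r7_130 (nat_lit 0) (nat_lit 0) (nat_lit 0) (nat_lit 0x7d8535af20) (nat_lit 1217144448),
  Rx.mk (nat_lit 219) (nat_lit 3) (nat_lit 3) (nat_lit 3) (nat_lit 7) (nat_lit 132) (nat_lit 131) r7_132 r7_131 (nat_lit 0) (nat_lit 0) (nat_lit 0) (nat_lit 0x7dc303320a) (nat_lit 1098644040)]
noncomputable def e43_41 : List Rx := [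
  Rx.mk (nat_lit 223) (nat_lit 7) (nat_lit 3) (nat_lit 3) (nat_lit 7) (nat_lit 101) (nat_lit 146) r7_101 r1_146 (nat_lit 0) (nat_lit 0) (nat_lit 0) (nat_lit 0x7db6f07342) (nat_lit 1121793192),
  Rx.mk (nat_lit 292) (nat_lit 4) (nat_lit 4) (nat_lit 4) (nat_lit 0) (nat_lit 90) (nat_lit 141) r7_90 r1_141 (nat_lit 0) (nat_lit 0) (nat_lit 0) (nat_lit 0x3f2c1ddefa) (nat_lit 31820882184),
  Rx.mk (nat_lit 294) (nat_lit 6) (nat_lit 4) (nat_lit 4) (nat_lit 1) (nat_lit 91) (nat_lit 147) r7_91 r1_147 (nat_lit 0) (nat_lit 0) (nat_lit 0) (nat_lit 0x6698457512) (nat_lit 12470224104),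
  Rx.mk (nat_lit 316) (nat_lit 4) (nat_lit 7) (nat_lit 4) (nat_lit 2) (nat_lit 94) (nat_lit 142) r7_94 r1_142 (nat_lit 0) (nat_lit 0) (nat_lit 0) (nat_lit 0x60f77387d2) (nat_lit 15232846824),
  Rx.mk (nat_lit 318) (nat_lit 6) (nat_lit 7) (nat_lit 4) (nat_lit 3) (nat_lit 95) (nat_lit 148) r7_95 r1_148 (nat_lit 0) (nat_lit 0) (nat_lit 0) (nat_lit 0x7d04f5d39e) (nat_lit 1463049432),
  Rx.mk (nat_lit 422) (nat_lit 6) (nat_lit 4) (nat_lit 6) (nat_lit 5) (nat_lit 92) (nat_lit 150) r7_92 r1_150 (nat_lit 0) (nat_lit 0) (nat_lit 0) (nat_lit 0x6657bb3df6) (nat_lit 12593972664),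
  Rx.mk (nat_lit 438) (nat_lit 6) (nat_lit 6) (nat_lit 6) (nat_lit 7) (nat_lit 93) (nat_lit 152) r7_93 r1_152 (nat_lit 0) (nat_lit 0) (nat_lit 0) (nat_lit 0x7cef2530be) (nat_lit 1504877400),
  Rx.mk (nat_lit 446) (nat_lit 6) (nat_lit 7) (nat_lit 6) (nat_lit 7) (nat_lit 96) (nat_lit 151) r7_96 r1_151 (nat_lit 0) (nat_lit 0) (nat_lit 0) (nat_lit 0x7d83c7c600) (nat_lit 1219885056),
  Rx.mk (nat_lit 479) (nat_lit 7) (nat_lit 3) (nat_lit 7) (nat_lit 7) (nat_lit 100) (nat_lit 145) r7_100 r1_145 (nat_lit 0) (nat_lit 0) (nat_lit 0) (nat_lit 0x7dec661bb2) (nat_lit 1019289960),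
  Rx.mk (nat_lit 508) (nat_lit 4) (nat_lit 7) (nat_lit 7) (nat_lit 6) (nat_lit 97) (nat_lit 143) r7_97 r1_143 (nat_lit 0) (nat_lit 0) (nat_lit 0) (nat_lit 0x79f20f451a) (nat_lit 2971849608),
  Rx.mk (nat_lit 510) (nat_lit 6) (nat_lit 7) (nat_lit 7) (nat_lit 7) (nat_lit 98) (nat_lit 149) r7_98 r1_149 (nat_lit 0) (nat_lit 0) (nat_lit 0) (nat_lit 0x7df4f572b4) (nat_lit 1002877200),
  Rx.mk (nat_lit 511) (nat_lit 7) (nat_lit 7) (nat_lit 7) (nat_lit 7) (nat_lit 99) (nat_lit 144) r7_99 r1_144 (nat_lit 0) (nat_lit 0) (nat_lit 0) (nat_lit 0x7dd6fab27e) (nat_lit 1060359768)]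
noncomputable def e43_42 : List Rx := [
  Rx.mk (nat_lit 292) (nat_lit 4) (nat_lit 4) (nat_lit 4) (nat_lit 0) (nat_lit 257) (nat_lit 137) r7_257 r2_137 (nat_lit 0) (nat_lit 0) (nat_lit 0) (nat_lit 0x1e5f4facac) (nat_lit 47920884336),
  Rx.mk (nat_lit 294) (nat_lit 6) (nat_lit 4) (nat_lit 4) (nat_lit 1) (nat_lit 258) (nat_lit 141) r7_258 r2_141 (nat_lit 0) (nat_lit 0) (nat_lit 0) (nat_lit 0x645245d752) (nat_lit 13586145768),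
  Rx.mk (nat_lit 422) (nat_lit 6) (nat_lit 4) (nat_lit 6) (nat_lit 5) (nat_lit 259) (nat_lit 144) r7_259 r2_144 (nat_lit 0) (nat_lit 0) (nat_lit 0) (nat_lit 0x7d4b54ed66) (nat_lit 1328119416),
  Rx.mk (nat_lit 438) (nat_lit 6) (nat_lit 6) (nat_lit 6) (nat_lit 7) (nat_lit 262) (nat_lit 145) r7_262 r2_145 (nat_lit 0) (nat_lit 0) (nat_lit 0) (nat_lit 0x7dbed954ac) (nat_lit 1106627184),
  Rx.mk (nat_lit 484) (nat_lit 4) (nat_lit 4) (nat_lit 7) (nat_lit 4) (nat_lit 260) (nat_lit 138) r7_260 r2_138 (nat_lit 0) (nat_lit 0) (nat_lit 0) (nat_lit 0x69fe864d9e) (nat_lit 10801603800),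
  Rx.mk (nat_lit 486) (nat_lit 6) (nat_lit 4) (nat_lit 7) (nat_lit 5) (nat_lit 261) (nat_lit 142) r7_261 r2_142 (nat_lit 0) (nat_lit 0) (nat_lit 0) (nat_lit 0x7d878d89a0) (nat_lit 1212651648),
  Rx.mk (nat_lit 508) (nat_lit 4) (nat_lit 7) (nat_lit 7) (nat_lit 6) (nat_lit 263) (nat_lit 139) r7_263 r2_139 (nat_lit 0) (nat_lit 0) (nat_lit 0) (nat_lit 0x7cb4d0f63c) (nat_lit 1616717232),
  Rx.mk (nat_lit 510) (nat_lit 6) (nat_lit 7) (nat_lit 7) (nat_lit 7) (nat_lit 264) (nat_lit 143) r7_264 r2_143 (nat_lit 0) (nat_lit 0) (nat_lit 0) (nat_lit 0x7dbd458dea) (nat_lit 1109651400),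
  Rx.mk (nat_lit 511) (nat_lit 7) (nat_lit 7) (nat_lit 7) (nat_lit 7) (nat_lit 265) (nat_lit 140) r7_265 r2_140 (nat_lit 0) (nat_lit 0) (nat_lit 0) (nat_lit 0x7dc01560ea) (nat_lit 1104260040)]
noncomputable def e43_43 : List Rx := [
  Rx.mk (nat_lit 0) (nat_lit 0) (nat_lit 0) (nat_lit 0) (nat_lit 0) (nat_lit 114) (nat_lit 102) r7_114 r7_102 (nat_lit 0) (nat_lit 0) (nat_lit 0) (nat_lit 0x37e5b76ca8) (nat_lit 35391841056),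
  Rx.mk (nat_lit 3) (nat_lit 3) (nat_lit 0) (nat_lit 0) (nat_lit 1) (nat_lit 115) (nat_lit 103) r7_115 r7_103 (nat_lit 0) (nat_lit 0) (nat_lit 0) (nat_lit 0x4cd945bece) (nat_lit 25107779736),
  Rx.mk (nat_lit 16) (nat_lit 0) (nat_lit 2) (nat_lit 0) (nat_lit 2) (nat_lit 117) (nat_lit 108) r7_117 r7_108 (nat_lit 0) (nat_lit 0) (nat_lit 0) (nat_lit 0x5ed3604b2a) (nat_lit 16283723976),
  Rx.mk (nat_lit 19) (nat_lit 3) (nat_lit 2) (nat_lit 0) (nat_lit 3) (nat_lit 118) (nat_lit 109) r7_118 r7_109 (nat_lit 0) (nat_lit 0) (nat_lit 0) (nat_lit 0x7cd4dc5566) (nat_lit 1555275384),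
  Rx.mk (nat_lit 144) (nat_lit 0) (nat_lit 2) (nat_lit 2) (nat_lit 6) (nat_lit 119) (nat_lit 111) r7_119 r7_111 (nat_lit 0) (nat_lit 0) (nat_lit 0) (nat_lit 0x7b14dd3718) (nat_lit 2414262240),
  Rx.mk (nat_lit 146) (nat_lit 2) (nat_lit 2) (nat_lit 2) (nat_lit 7) (nat_lit 120) (nat_lit 113) r7_120 r7_113 (nat_lit 0) (nat_lit 0) (nat_lit 0) (nat_lit 0x7da43f1e6a) (nat_lit 1157634504),
  Rx.mk (nat_lit 147) (nat_lit 3) (nat_lit 2) (nat_lit 2) (nat_lit 7) (nat_lit 121) (nat_lit 112) r7_121 r7_112 (nat_lit 0) (nat_lit 0) (nat_lit 0) (nat_lit 0x7de25d3c4a) (nat_lit 1038530376),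
  Rx.mk (nat_lit 178) (nat_lit 2) (nat_lit 6) (nat_lit 2) (nat_lit 7) (nat_lit 107) (nat_lit 123) r7_107 r7_123 (nat_lit 0) (nat_lit 0) (nat_lit 0) (nat_lit 0x7d7c97b908) (nat_lit 1233666720),
  Rx.mk (nat_lit 195) (nat_lit 3) (nat_lit 0) (nat_lit 3) (nat_lit 5) (nat_lit 116) (nat_lit 104) r7_116 r7_104 (nat_lit 0) (nat_lit 0) (nat_lit 0) (nat_lit 0x768ec17d5a) (nat_lit 4634814600),
  Rx.mk (nat_lit 211) (nat_lit 3) (nat_lit 2) (nat_lit 3) (nat_lit 7) (nat_lit 122) (nat_lit 110) r7_122 r7_110 (nat_lit 0) (nat_lit 0) (nat_lit 0) (nat_lit 0x7df5730ada) (nat_lit 1001936520),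
  Rx.mk (nat_lit 219) (nat_lit 3) (nat_lit 3) (nat_lit 3) (nat_lit 7) (nat_lit 125) (nat_lit 105) r7_125 r7_105 (nat_lit 0) (nat_lit 0) (nat_lit 0) (nat_lit 0x7d9bc765ee) (nat_lit 1173870360),
  Rx.mk (nat_lit 223) (nat_lit 7) (nat_lit 3) (nat_lit 3) (nat_lit 7) (nat_lit 124) (nat_lit 106) r7_124 r7_106 (nat_lit 0) (nat_lit 0) (nat_lit 0) (nat_lit 0x7de62b9f60) (nat_lit 1031232384),
  Rx.mk (nat_lit 292) (nat_lit 4) (nat_lit 4) (nat_lit 4) (nat_lit 0) (nat_lit 102) (nat_lit 114) r7_102 r7_114 (nat_lit 0) (nat_lit 0) (nat_lit 0) (nat_lit 0x37e5b76ca8) (nat_lit 35391841056),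
  Rx.mk (nat_lit 294) (nat_lit 6) (nat_lit 4) (nat_lit 4) (nat_lit 1) (nat_lit 103) (nat_lit 115) r7_103 r7_115 (nat_lit 0) (nat_lit 0) (nat_lit 0) (nat_lit 0x4cd945bece) (nat_lit 25107779736),
  Rx.mk (nat_lit 316) (nat_lit 4) (nat_lit 7) (nat_lit 4) (nat_lit 2) (nat_lit 108) (nat_lit 117) r7_108 r7_117 (nat_lit 0) (nat_lit 0) (nat_lit 0) (nat_lit 0x5ed3604b2a) (nat_lit 16283723976),
  Rx.mk (nat_lit 318) (nat_lit 6) (nat_lit 7) (nat_lit 4) (nat_lit 3) (nat_lit 109) (nat_lit 118) r7_109 r7_118 (nat_lit 0) (nat_lit 0) (nat_lit 0) (nat_lit 0x7cd4dc5566) (nat_lit 1555275384),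
  Rx.mk (nat_lit 422) (nat_lit 6) (nat_lit 4) (nat_lit 6) (nat_lit 5) (nat_lit 104) (nat_lit 116) r7_104 r7_116 (nat_lit 0) (nat_lit 0) (nat_lit 0) (nat_lit 0x768ec17d5a) (nat_lit 4634814600),
  Rx.mk (nat_lit 434) (nat_lit 2) (nat_lit 6) (nat_lit 6) (nat_lit 7) (nat_lit 106) (nat_lit 124) r7_106 r7_124 (nat_lit 0) (nat_lit 0) (nat_lit 0) (nat_lit 0x7de62b9f60) (nat_lit 1031232384),
  Rx.mk (nat_lit 438) (nat_lit 6) (nat_lit 6) (nat_lit 6) (nat_lit 7) (nat_lit 105) (nat_lit 125) r7_105 r7_125 (nat_lit 0) (nat_lit 0) (nat_lit 0) (nat_lit 0x7d9bc765ee) (nat_lit 1173870360),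
  Rx.mk (nat_lit 446) (nat_lit 6) (nat_lit 7) (nat_lit 6) (nat_lit 7) (nat_lit 110) (nat_lit 122) r7_110 r7_122 (nat_lit 0) (nat_lit 0) (nat_lit 0) (nat_lit 0x7df5730ada) (nat_lit 1001936520),
  Rx.mk (nat_lit 479) (nat_lit 7) (nat_lit 3) (nat_lit 7) (nat_lit 7) (nat_lit 123) (nat_lit 107) r7_123 r7_107 (nat_lit 0) (nat_lit 0) (nat_lit 0) (nat_lit 0x7d7c97b908) (nat_lit 1233666720),
  Rx.mk (nat_lit 508) (nat_lit 4) (nat_lit 7) (nat_lit 7) (nat_lit 6) (nat_lit 111) (nat_lit 119) r7_111 r7_119 (nat_lit 0) (nat_lit 0) (nat_lit 0) (nat_lit 0x7b14dd3718) (nat_lit 2414262240),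
  Rx.mk (nat_lit 510) (nat_lit 6) (nat_lit 7) (nat_lit 7) (nat_lit 7) (nat_lit 112) (nat_lit 121) r7_112 r7_121 (nat_lit 0) (nat_lit 0) (nat_lit 0) (nat_lit 0x7de25d3c4a) (nat_lit 1038530376),
  Rx.mk (nat_lit 511) (nat_lit 7) (nat_lit 7) (nat_lit 7) (nat_lit 7) (nat_lit 113) (nat_lit 120) r7_113 r7_120 (nat_lit 0) (nat_lit 0) (nat_lit 0) (nat_lit 0x7da43f1e6a) (nat_lit 1157634504)]
noncomputable def e43_44 : List Rx := [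
  Rx.mk (nat_lit 292) (nat_lit 4) (nat_lit 4) (nat_lit 4) (nat_lit 0) (nat_lit 273) (nat_lit 99) r7_273 r8_99 (nat_lit 0) (nat_lit 0) (nat_lit 0) (nat_lit 0x5e013b8ec) (nat_lit 59945324400),
  Rx.mk (nat_lit 294) (nat_lit 6) (nat_lit 4) (nat_lit 4) (nat_lit 1) (nat_lit 274) (nat_lit 103) r7_274 r8_103 (nat_lit 0) (nat_lit 0) (nat_lit 0) (nat_lit 0x6e391d1ff6) (nat_lit 8725851576),
  Rx.mk (nat_lit 422) (nat_lit 6) (nat_lit 4) (nat_lit 6) (nat_lit 5) (nat_lit 275) (nat_lit 106) r7_275 r8_106 (nat_lit 0) (nat_lit 0) (nat_lit 0) (nat_lit 0x7cf6673c96) (nat_lit 1490960952),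
  Rx.mk (nat_lit 434) (nat_lit 2) (nat_lit 6) (nat_lit 6) (nat_lit 7) (nat_lit 279) (nat_lit 108) r7_279 r8_108 (nat_lit 0) (nat_lit 0) (nat_lit 0) (nat_lit 0x7de4ad9742) (nat_lit 1034093736),
  Rx.mk (nat_lit 438) (nat_lit 6) (nat_lit 6) (nat_lit 6) (nat_lit 7) (nat_lit 278) (nat_lit 107) r7_278 r8_107 (nat_lit 0) (nat_lit 0) (nat_lit 0) (nat_lit 0x7dcea1581c) (nat_lit 1076368176),
  Rx.mk (nat_lit 484) (nat_lit 4) (nat_lit 4) (nat_lit 7) (nat_lit 4) (nat_lit 276) (nat_lit 100) r7_276 r8_100 (nat_lit 0) (nat_lit 0) (nat_lit 0) (nat_lit 0x70d5b03428) (nat_lit 7443929376),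
  Rx.mk (nat_lit 486) (nat_lit 6) (nat_lit 4) (nat_lit 7) (nat_lit 5) (nat_lit 277) (nat_lit 104) r7_277 r8_104 (nat_lit 0) (nat_lit 0) (nat_lit 0) (nat_lit 0x7da28699f4) (nat_lit 1160933904),
  Rx.mk (nat_lit 508) (nat_lit 4) (nat_lit 7) (nat_lit 7) (nat_lit 6) (nat_lit 280) (nat_lit 101) r7_280 r8_101 (nat_lit 0) (nat_lit 0) (nat_lit 0) (nat_lit 0x7cfa07e288) (nat_lit 1484005536),
  Rx.mk (nat_lit 510) (nat_lit 6) (nat_lit 7) (nat_lit 7) (nat_lit 7) (nat_lit 281) (nat_lit 105) r7_281 r8_105 (nat_lit 0) (nat_lit 0) (nat_lit 0) (nat_lit 0x7df1f9c272) (nat_lit 1008597096),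
  Rx.mk (nat_lit 511) (nat_lit 7) (nat_lit 7) (nat_lit 7) (nat_lit 7) (nat_lit 282) (nat_lit 102) r7_282 r8_102 (nat_lit 0) (nat_lit 0) (nat_lit 0) (nat_lit 0x7dc4f5d2de) (nat_lit 1094909400)]
noncomputable def e43_45 : List Rx := [
  Rx.mk (nat_lit 292) (nat_lit 4) (nat_lit 4) (nat_lit 4) (nat_lit 0) (nat_lit 266) (nat_lit 202) r7_266 r8_202 (nat_lit 0) (nat_lit 0) (nat_lit 0) (nat_lit 0x2a267bae24) (nat_lit 42139605456),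
  Rx.mk (nat_lit 294) (nat_lit 6) (nat_lit 4) (nat_lit 4) (nat_lit 1) (nat_lit 267) (nat_lit 203) r7_267 r8_203 (nat_lit 0) (nat_lit 0) (nat_lit 0) (nat_lit 0x6f84370d0c) (nat_lit 8090999280),
  Rx.mk (nat_lit 422) (nat_lit 6) (nat_lit 4) (nat_lit 6) (nat_lit 5) (nat_lit 268) (nat_lit 207) r7_268 r8_207 (nat_lit 0) (nat_lit 0) (nat_lit 0) (nat_lit 0x7d6bde44b0) (nat_lit 1265734080),
  Rx.mk (nat_lit 438) (nat_lit 6) (nat_lit 6) (nat_lit 6) (nat_lit 7) (nat_lit 270) (nat_lit 208) r7_270 r8_208 (nat_lit 0) (nat_lit 0) (nat_lit 0) (nat_lit 0x7dd1cb257c) (nat_lit 1070302896),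
  Rx.mk (nat_lit 484) (nat_lit 4) (nat_lit 4) (nat_lit 7) (nat_lit 4) (nat_lit 269) (nat_lit 204) r7_269 r8_204 (nat_lit 0) (nat_lit 0) (nat_lit 0) (nat_lit 0x795a3b62f0) (nat_lit 3262963392),
  Rx.mk (nat_lit 508) (nat_lit 4) (nat_lit 7) (nat_lit 7) (nat_lit 6) (nat_lit 271) (nat_lit 205) r7_271 r8_205 (nat_lit 0) (nat_lit 0) (nat_lit 0) (nat_lit 0x7d7fa68818) (nat_lit 1227803616),
  Rx.mk (nat_lit 511) (nat_lit 7) (nat_lit 7) (nat_lit 7) (nat_lit 7) (nat_lit 272) (nat_lit 206) r7_272 r8_206 (nat_lit 0) (nat_lit 0) (nat_lit 0) (nat_lit 0x7dcfdbe472) (nat_lit 1074012264)]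
noncomputable def e43_46 : List Rx := [
  Rx.mk (nat_lit 199) (nat_lit 7) (nat_lit 0) (nat_lit 3) (nat_lit 5) (nat_lit 146) (nat_lit 126) r7_146 r4_126 (nat_lit 0) (nat_lit 0) (nat_lit 0) (nat_lit 0x7dc32eaf52) (nat_lit 1098318312),
  Rx.mk (nat_lit 223) (nat_lit 7) (nat_lit 3) (nat_lit 3) (nat_lit 7) (nat_lit 148) (nat_lit 127) r7_148 r4_127 (nat_lit 0) (nat_lit 0) (nat_lit 0) (nat_lit 0x7dedaca748) (nat_lit 1016844192),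
  Rx.mk (nat_lit 479) (nat_lit 7) (nat_lit 3) (nat_lit 7) (nat_lit 7) (nat_lit 147) (nat_lit 125) r7_147 r4_125 (nat_lit 0) (nat_lit 0) (nat_lit 0) (nat_lit 0x7dca705b30) (nat_lit 1084404672)]
noncomputable def e43_47 : List Rx := [
  Rx.mk (nat_lit 3) (nat_lit 3) (nat_lit 0) (nat_lit 0) (nat_lit 1) (nat_lit 47) (nat_lit 114) r7_47 r4_114 (nat_lit 0) (nat_lit 0) (nat_lit 0) (nat_lit 0x754e23e874) (nat_lit 5249561616),
  Rx.mk (nat_lit 11) (nat_lit 3) (nat_lit 1) (nat_lit 0) (nat_lit 3) (nat_lit 50) (nat_lit 117) r7_50 r4_117 (nat_lit 0) (nat_lit 0) (nat_lit 0) (nat_lit 0x7dd0edf350) (nat_lit 1071959616),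
  Rx.mk (nat_lit 19) (nat_lit 3) (nat_lit 2) (nat_lit 0) (nat_lit 3) (nat_lit 53) (nat_lit 122) r7_53 r4_122 (nat_lit 0) (nat_lit 0) (nat_lit 0) (nat_lit 0x7dcf55acd6) (nat_lit 1075017528),
  Rx.mk (nat_lit 147) (nat_lit 3) (nat_lit 2) (nat_lit 2) (nat_lit 7) (nat_lit 54) (nat_lit 124) r7_54 r4_124 (nat_lit 0) (nat_lit 0) (nat_lit 0) (nat_lit 0x7dd9115112) (nat_lit 1056355560),
  Rx.mk (nat_lit 195) (nat_lit 3) (nat_lit 0) (nat_lit 3) (nat_lit 5) (nat_lit 49) (nat_lit 115) r7_49 r4_115 (nat_lit 0) (nat_lit 0) (nat_lit 0) (nat_lit 0x7e2a789a4c) (nat_lit 900272880),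
  Rx.mk (nat_lit 199) (nat_lit 7) (nat_lit 0) (nat_lit 3) (nat_lit 5) (nat_lit 48) (nat_lit 116) r7_48 r4_116 (nat_lit 0) (nat_lit 0) (nat_lit 0) (nat_lit 0x7da8e3f418) (nat_lit 1148730336),
  Rx.mk (nat_lit 203) (nat_lit 3) (nat_lit 1) (nat_lit 3) (nat_lit 7) (nat_lit 52) (nat_lit 118) r7_52 r4_118 (nat_lit 0) (nat_lit 0) (nat_lit 0) (nat_lit 0x7e35a4078a) (nat_lit 878856264),
  Rx.mk (nat_lit 207) (nat_lit 7) (nat_lit 1) (nat_lit 3) (nat_lit 7) (nat_lit 51) (nat_lit 119) r7_51 r4_119 (nat_lit 0) (nat_lit 0) (nat_lit 0) (nat_lit 0x7ddfec435c) (nat_lit 1043211312),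
  Rx.mk (nat_lit 211) (nat_lit 3) (nat_lit 2) (nat_lit 3) (nat_lit 7) (nat_lit 55) (nat_lit 123) r7_55 r4_123 (nat_lit 0) (nat_lit 0) (nat_lit 0) (nat_lit 0x7e28211fc6) (nat_lit 904762872),
  Rx.mk (nat_lit 223) (nat_lit 7) (nat_lit 3) (nat_lit 3) (nat_lit 7) (nat_lit 57) (nat_lit 120) r7_57 r4_120 (nat_lit 0) (nat_lit 0) (nat_lit 0) (nat_lit 0x7de493b8e0) (nat_lit 1034287488),
  Rx.mk (nat_lit 479) (nat_lit 7) (nat_lit 3) (nat_lit 7) (nat_lit 7) (nat_lit 56) (nat_lit 121) r7_56 r4_121 (nat_lit 0) (nat_lit 0) (nat_lit 0) (nat_lit 0x7df910b0fc) (nat_lit 995003568)]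
noncomputable def e43_48 : List Rx := [
  Rx.mk (nat_lit 3) (nat_lit 3) (nat_lit 0) (nat_lit 0) (nat_lit 1) (nat_lit 149) (nat_lit 112) r7_149 r9_112 (nat_lit 0) (nat_lit 0) (nat_lit 0) (nat_lit 0x697a4a51e2) (nat_lit 11055149352),
  Rx.mk (nat_lit 19) (nat_lit 3) (nat_lit 2) (nat_lit 0) (nat_lit 3) (nat_lit 152) (nat_lit 113) r7_152 r9_113 (nat_lit 0) (nat_lit 0) (nat_lit 0) (nat_lit 0x7d98e3b42c) (nat_lit 1179410544),
  Rx.mk (nat_lit 147) (nat_lit 3) (nat_lit 2) (nat_lit 2) (nat_lit 7) (nat_lit 153) (nat_lit 116) r7_153 r9_116 (nat_lit 0) (nat_lit 0) (nat_lit 0) (nat_lit 0x7dddb20702) (nat_lit 1047482280),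
  Rx.mk (nat_lit 195) (nat_lit 3) (nat_lit 0) (nat_lit 3) (nat_lit 5) (nat_lit 151) (nat_lit 114) r7_151 r9_114 (nat_lit 0) (nat_lit 0) (nat_lit 0) (nat_lit 0x7d71a7281c) (nat_lit 1254642480),
  Rx.mk (nat_lit 199) (nat_lit 7) (nat_lit 0) (nat_lit 3) (nat_lit 5) (nat_lit 150) (nat_lit 110) r7_150 r9_110 (nat_lit 0) (nat_lit 0) (nat_lit 0) (nat_lit 0x7df79428c6) (nat_lit 997853688),
  Rx.mk (nat_lit 211) (nat_lit 3) (nat_lit 2) (nat_lit 3) (nat_lit 7) (nat_lit 154) (nat_lit 115) r7_154 r9_115 (nat_lit 0) (nat_lit 0) (nat_lit 0) (nat_lit 0x7df9b7868e) (nat_lit 993754008),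
  Rx.mk (nat_lit 223) (nat_lit 7) (nat_lit 3) (nat_lit 3) (nat_lit 7) (nat_lit 156) (nat_lit 111) r7_156 r9_111 (nat_lit 0) (nat_lit 0) (nat_lit 0) (nat_lit 0x7dc2cfd540) (nat_lit 1099028736),
  Rx.mk (nat_lit 479) (nat_lit 7) (nat_lit 3) (nat_lit 7) (nat_lit 7) (nat_lit 155) (nat_lit 109) r7_155 r9_109 (nat_lit 0) (nat_lit 0) (nat_lit 0) (nat_lit 0x7dcddbc476) (nat_lit 1077847992)]
noncomputable def e43_49 : List Rx := [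
  Rx.mk (nat_lit 195) (nat_lit 3) (nat_lit 0) (nat_lit 3) (nat_lit 5) (nat_lit 208) (nat_lit 120) r7_208 r10_120 (nat_lit 0) (nat_lit 0) (nat_lit 0) (nat_lit 0x7da81b00a8) (nat_lit 1150235424),
  Rx.mk (nat_lit 199) (nat_lit 7) (nat_lit 0) (nat_lit 3) (nat_lit 5) (nat_lit 207) (nat_lit 118) r7_207 r10_118 (nat_lit 0) (nat_lit 0) (nat_lit 0) (nat_lit 0x7dcad2f506) (nat_lit 1083666168),
  Rx.mk (nat_lit 203) (nat_lit 3) (nat_lit 1) (nat_lit 3) (nat_lit 7) (nat_lit 211) (nat_lit 121) r7_211 r10_121 (nat_lit 0) (nat_lit 0) (nat_lit 0) (nat_lit 0x7df45c7c44) (nat_lit 1004022864),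
  Rx.mk (nat_lit 207) (nat_lit 7) (nat_lit 1) (nat_lit 3) (nat_lit 7) (nat_lit 210) (nat_lit 119) r7_210 r10_119 (nat_lit 0) (nat_lit 0) (nat_lit 0) (nat_lit 0x7de6733ae6) (nat_lit 1030696056),
  Rx.mk (nat_lit 211) (nat_lit 3) (nat_lit 2) (nat_lit 3) (nat_lit 7) (nat_lit 212) (nat_lit 122) r7_212 r10_122 (nat_lit 0) (nat_lit 0) (nat_lit 0) (nat_lit 0x7dd511d10e) (nat_lit 1064021400),
  Rx.mk (nat_lit 455) (nat_lit 7) (nat_lit 0) (nat_lit 7) (nat_lit 5) (nat_lit 206) (nat_lit 115) r7_206 r10_115 (nat_lit 0) (nat_lit 0) (nat_lit 0) (nat_lit 0x7d7cc21662) (nat_lit 1233349416),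
  Rx.mk (nat_lit 463) (nat_lit 7) (nat_lit 1) (nat_lit 7) (nat_lit 7) (nat_lit 209) (nat_lit 116) r7_209 r10_116 (nat_lit 0) (nat_lit 0) (nat_lit 0) (nat_lit 0x7deb46eda6) (nat_lit 1021440888),
  Rx.mk (nat_lit 479) (nat_lit 7) (nat_lit 3) (nat_lit 7) (nat_lit 7) (nat_lit 213) (nat_lit 117) r7_213 r10_117 (nat_lit 0) (nat_lit 0) (nat_lit 0) (nat_lit 0x7df08459ca) (nat_lit 1011393864)]
noncomputable def e43_50 : List Rx := [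
  Rx.mk (nat_lit 199) (nat_lit 7) (nat_lit 0) (nat_lit 3) (nat_lit 5) (nat_lit 157) (nat_lit 113) r7_157 r10_113 (nat_lit 0) (nat_lit 0) (nat_lit 0) (nat_lit 0x7dd4373eb8) (nat_lit 1065658464),
  Rx.mk (nat_lit 223) (nat_lit 7) (nat_lit 3) (nat_lit 3) (nat_lit 7) (nat_lit 158) (nat_lit 114) r7_158 r10_114 (nat_lit 0) (nat_lit 0) (nat_lit 0) (nat_lit 0x7deba267ee) (nat_lit 1020755736)]
noncomputable def e43_51 : List Rx := [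
  Rx.mk (nat_lit 205) (nat_lit 5) (nat_lit 1) (nat_lit 3) (nat_lit 7) (nat_lit 218) (nat_lit 285) r7_218 r12_285 (nat_lit 0) (nat_lit 0) (nat_lit 0) (nat_lit 0x7e67fac1ec) (nat_lit 782336880)]
noncomputable def e43_52 : List Rx := [
  Rx.mk (nat_lit 460) (nat_lit 4) (nat_lit 1) (nat_lit 7) (nat_lit 6) (nat_lit 349) (nat_lit 271) r7_349 r12_271 (nat_lit 0) (nat_lit 0) (nat_lit 0) (nat_lit 0x7d458d29e8) (nat_lit 1339202592),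
  Rx.mk (nat_lit 461) (nat_lit 5) (nat_lit 1) (nat_lit 7) (nat_lit 7) (nat_lit 350) (nat_lit 272) r7_350 r12_272 (nat_lit 0) (nat_lit 0) (nat_lit 0) (nat_lit 0x7dcaa7d7b8) (nat_lit 1083989088),
  Rx.mk (nat_lit 492) (nat_lit 4) (nat_lit 5) (nat_lit 7) (nat_lit 6) (nat_lit 347) (nat_lit 269) r7_347 r12_269 (nat_lit 0) (nat_lit 0) (nat_lit 0) (nat_lit 0x7d3189aa34) (nat_lit 1377576720),
  Rx.mk (nat_lit 493) (nat_lit 5) (nat_lit 5) (nat_lit 7) (nat_lit 7) (nat_lit 348) (nat_lit 270) r7_348 r12_270 (nat_lit 0) (nat_lit 0) (nat_lit 0) (nat_lit 0x7df25e9c24) (nat_lit 1007841744)]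
noncomputable def e43_53 : List Rx := [
  Rx.mk (nat_lit 13) (nat_lit 5) (nat_lit 1) (nat_lit 0) (nat_lit 3) (nat_lit 74) (nat_lit 189) r7_74 r12_189 (nat_lit 0) (nat_lit 0) (nat_lit 0) (nat_lit 0x7dea1aa06c) (nat_lit 1023690096),
  Rx.mk (nat_lit 205) (nat_lit 5) (nat_lit 1) (nat_lit 3) (nat_lit 7) (nat_lit 75) (nat_lit 190) r7_75 r12_190 (nat_lit 0) (nat_lit 0) (nat_lit 0) (nat_lit 0x7e3b884940) (nat_lit 867559680)]
noncomputable def e43_54 : List Rx := [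
  Rx.mk (nat_lit 268) (nat_lit 4) (nat_lit 1) (nat_lit 4) (nat_lit 2) (nat_lit 362) (nat_lit 191) r7_362 r12_191 (nat_lit 0) (nat_lit 0) (nat_lit 0) (nat_lit 0x6335d77f54) (nat_lit 14131512720),
  Rx.mk (nat_lit 269) (nat_lit 5) (nat_lit 1) (nat_lit 4) (nat_lit 3) (nat_lit 363) (nat_lit 192) r7_363 r12_192 (nat_lit 0) (nat_lit 0) (nat_lit 0) (nat_lit 0x7da6297fc2) (nat_lit 1153961640),
  Rx.mk (nat_lit 460) (nat_lit 4) (nat_lit 1) (nat_lit 7) (nat_lit 6) (nat_lit 364) (nat_lit 193) r7_364 r12_193 (nat_lit 0) (nat_lit 0) (nat_lit 0) (nat_lit 0x7c2c753c80) (nat_lit 1878170112),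
  Rx.mk (nat_lit 461) (nat_lit 5) (nat_lit 1) (nat_lit 7) (nat_lit 7) (nat_lit 365) (nat_lit 194) r7_365 r12_194 (nat_lit 0) (nat_lit 0) (nat_lit 0) (nat_lit 0x7ddfee8338) (nat_lit 1043194464),
  Rx.mk (nat_lit 463) (nat_lit 7) (nat_lit 1) (nat_lit 7) (nat_lit 7) (nat_lit 366) (nat_lit 195) r7_366 r12_195 (nat_lit 0) (nat_lit 0) (nat_lit 0) (nat_lit 0x7dad63ac18) (nat_lit 1140104160),
  Rx.mk (nat_lit 495) (nat_lit 7) (nat_lit 5) (nat_lit 7) (nat_lit 7) (nat_lit 361) (nat_lit 196) r7_361 r12_196 (nat_lit 0) (nat_lit 0) (nat_lit 0) (nat_lit 0x7dd7808a20) (nat_lit 1059357312)]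
noncomputable def e43_55 : List Rx := [
  Rx.mk (nat_lit 199) (nat_lit 7) (nat_lit 0) (nat_lit 3) (nat_lit 5) (nat_lit 43) (nat_lit 117) r7_43 r3_117 (nat_lit 0) (nat_lit 0) (nat_lit 0) (nat_lit 0x78cfd7a9b6) (nat_lit 3528310968),
  Rx.mk (nat_lit 207) (nat_lit 7) (nat_lit 1) (nat_lit 3) (nat_lit 7) (nat_lit 44) (nat_lit 118) r7_44 r3_118 (nat_lit 0) (nat_lit 0) (nat_lit 0) (nat_lit 0x7ed1aa068e) (nat_lit 579697560),
  Rx.mk (nat_lit 223) (nat_lit 7) (nat_lit 3) (nat_lit 3) (nat_lit 7) (nat_lit 46) (nat_lit 119) r7_46 r3_119 (nat_lit 0) (nat_lit 0) (nat_lit 0) (nat_lit 0x7c243dfffc) (nat_lit 1893922992),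
  Rx.mk (nat_lit 479) (nat_lit 7) (nat_lit 3) (nat_lit 7) (nat_lit 7) (nat_lit 45) (nat_lit 116) r7_45 r3_116 (nat_lit 0) (nat_lit 0) (nat_lit 0) (nat_lit 0x7c4848df2a) (nat_lit 1824815304)]
noncomputable def e43_56 : List Rx := [
  Rx.mk (nat_lit 199) (nat_lit 7) (nat_lit 0) (nat_lit 3) (nat_lit 5) (nat_lit 202) (nat_lit 121) r7_202 r12_121 (nat_lit 0) (nat_lit 0) (nat_lit 0) (nat_lit 0x7def2a4f6c) (nat_lit 1013985648),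
  Rx.mk (nat_lit 207) (nat_lit 7) (nat_lit 1) (nat_lit 3) (nat_lit 7) (nat_lit 204) (nat_lit 122) r7_204 r12_122 (nat_lit 0) (nat_lit 0) (nat_lit 0) (nat_lit 0x7e4966ab4c) (nat_lit 840967920),
  Rx.mk (nat_lit 455) (nat_lit 7) (nat_lit 0) (nat_lit 7) (nat_lit 5) (nat_lit 201) (nat_lit 118) r7_201 r12_118 (nat_lit 0) (nat_lit 0) (nat_lit 0) (nat_lit 0x7cf07bdb52) (nat_lit 1502310888),
  Rx.mk (nat_lit 463) (nat_lit 7) (nat_lit 1) (nat_lit 7) (nat_lit 7) (nat_lit 203) (nat_lit 119) r7_203 r12_119 (nat_lit 0) (nat_lit 0) (nat_lit 0) (nat_lit 0x7deb792a82) (nat_lit 1021064616),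
  Rx.mk (nat_lit 479) (nat_lit 7) (nat_lit 3) (nat_lit 7) (nat_lit 7) (nat_lit 205) (nat_lit 120) r7_205 r12_120 (nat_lit 0) (nat_lit 0) (nat_lit 0) (nat_lit 0x7df2ff7216) (nat_lit 1006637112)]
noncomputable def e43_57 : List Rx := [
  Rx.mk (nat_lit 199) (nat_lit 7) (nat_lit 0) (nat_lit 3) (nat_lit 5) (nat_lit 58) (nat_lit 115) r7_58 r12_115 (nat_lit 0) (nat_lit 0) (nat_lit 0) (nat_lit 0x7e3efef1d2) (nat_lit 860918760),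
  Rx.mk (nat_lit 207) (nat_lit 7) (nat_lit 1) (nat_lit 3) (nat_lit 7) (nat_lit 59) (nat_lit 116) r7_59 r12_116 (nat_lit 0) (nat_lit 0) (nat_lit 0) (nat_lit 0x7e2750acce) (nat_lit 906324120),
  Rx.mk (nat_lit 223) (nat_lit 7) (nat_lit 3) (nat_lit 3) (nat_lit 7) (nat_lit 60) (nat_lit 117) r7_60 r12_117 (nat_lit 0) (nat_lit 0) (nat_lit 0) (nat_lit 0x7de1ad6748) (nat_lit 1039847328)]
noncomputable def e43 : List (List Rx) := [e43_0, e43_1, e43_2, e43_3, e43_4, e43_5, e43_6, e43_7, e43_8, e43_9, e43_10, e43_11, e43_12, e43_13, e43_14, e43_15, e43_16, e43_17, e43_18, e43_19, e43_20, e43_21, e43_22, e43_23, e43_24, e43_25, e43_26, e43_27, e43_28, e43_29, e43_30, e43_31, e43_32, e43_33, e43_34, e43_35, e43_36, e43_37, e43_38, e43_39, e43_40, e43_41, e43_42, e43_43, e43_44, e43_45, e43_46, e43_47, e43_48, e43_49, e43_50, e43_51, e43_52, e43_53, e43_54,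 e43_55, e43_56, e43_57]
noncomputable def e44_0 : List Rx := [
  Rx.mk (nat_lit 77) (nat_lit 5) (nat_lit 1) (nat_lit 1) (nat_lit 7) (nat_lit 248) (nat_lit 291) r8_248 r0_291 (nat_lit 0) (nat_lit 0) (nat_lit 0) (nat_lit 0x7df24f9d14) (nat_lit 1007954064),
  Rx.mk (nat_lit 109) (nat_lit 5) (nat_lit 5) (nat_lit 1) (nat_lit 7) (nat_lit 249) (nat_lit 292) r8_249 r0_292 (nat_lit 0) (nat_lit 0) (nat_lit 0) (nat_lit 0x7ddc669bba) (nat_lit 1049964552)]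
noncomputable def e44_1 : List Rx := [
  Rx.mk (nat_lit 77) (nat_lit 5) (nat_lit 1) (nat_lit 1) (nat_lit 7) (nat_lit 290) (nat_lit 287) r8_290 r1_287 (nat_lit 0) (nat_lit 0) (nat_lit 0) (nat_lit 0x7deadc744e) (nat_lit 1022238360),
  Rx.mk (nat_lit 109) (nat_lit 5) (nat_lit 5) (nat_lit 1) (nat_lit 7) (nat_lit 291) (nat_lit 288) r8_291 r1_288 (nat_lit 0) (nat_lit 0) (nat_lit 0) (nat_lit 0x7de6571ca8) (nat_lit 1030906656),
  Rx.mk (nat_lit 365) (nat_lit 5) (nat_lit 5) (nat_lit 5) (nat_lit 7) (nat_lit 292) (nat_lit 289) r8_292 r1_289 (nat_lit 0) (nat_lit 0) (nat_lit 0) (nat_lit 0x7de85cdc4a) (nat_lit 1027028808)]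
noncomputable def e44_2 : List Rx := [
  Rx.mk (nat_lit 365) (nat_lit 5) (nat_lit 5) (nat_lit 5) (nat_lit 7) (nat_lit 293) (nat_lit 315) r8_293 r2_315 (nat_lit 0) (nat_lit 0) (nat_lit 0) (nat_lit 0x7dee79ba76) (nat_lit 1015308216)]
noncomputable def e44_3 : List Rx := [
  Rx.mk (nat_lit 13) (nat_lit 5) (nat_lit 1) (nat_lit 0) (nat_lit 3) (nat_lit 300) (nat_lit 285) r8_300 r3_285 (nat_lit 0) (nat_lit 0) (nat_lit 0) (nat_lit 0x6e55c73538) (nat_lit 8670890592),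
  Rx.mk (nat_lit 45) (nat_lit 5) (nat_lit 5) (nat_lit 0) (nat_lit 3) (nat_lit 301) (nat_lit 288) r8_301 r3_288 (nat_lit 0) (nat_lit 0) (nat_lit 0) (nat_lit 0x6ab4f44608) (nat_lit 10451814048),
  Rx.mk (nat_lit 77) (nat_lit 5) (nat_lit 1) (nat_lit 1) (nat_lit 7) (nat_lit 302) (nat_lit 286) r8_302 r3_286 (nat_lit 0) (nat_lit 0) (nat_lit 0) (nat_lit 0x7a6150509a) (nat_lit 2758531464),
  Rx.mk (nat_lit 109) (nat_lit 5) (nat_lit 5) (nat_lit 1) (nat_lit 7) (nat_lit 303) (nat_lit 289) r8_303 r3_289 (nat_lit 0) (nat_lit 0) (nat_lit 0) (nat_lit 0x795b231474) (nat_lit 3261228048),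
  Rx.mk (nat_lit 205) (nat_lit 5) (nat_lit 1) (nat_lit 3) (nat_lit 7) (nat_lit 304) (nat_lit 287) r8_304 r3_287 (nat_lit 0) (nat_lit 0) (nat_lit 0) (nat_lit 0x7191b1135e) (nat_lit 7083452376)]
noncomputable def e44_4 : List Rx := [
  Rx.mk (nat_lit 77) (nat_lit 5) (nat_lit 1) (nat_lit 1) (nat_lit 7) (nat_lit 305) (nat_lit 307) r8_305 r4_307 (nat_lit 0) (nat_lit 0) (nat_lit 0) (nat_lit 0x7dd68859a4) (nat_lit 1061216208),
  Rx.mk (nat_lit 109) (nat_lit 5) (nat_lit 5) (nat_lit 1) (nat_lit 7) (nat_lit 306) (nat_lit 308) r8_306 r4_308 (nat_lit 0) (nat_lit 0) (nat_lit 0) (nat_lit 0x7de5612c08) (nat_lit 1032748704)]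
noncomputable def e44_5 : List Rx := [
  Rx.mk (nat_lit 239) (nat_lit 7) (nat_lit 5) (nat_lit 3) (nat_lit 7) (nat_lit 21) (nat_lit 255) r8_21 r3_255 (nat_lit 0) (nat_lit 0) (nat_lit 0) (nat_lit 0x7bb65c3e86) (nat_lit 2104610040),
  Rx.mk (nat_lit 492) (nat_lit 4) (nat_lit 5) (nat_lit 7) (nat_lit 6) (nat_lit 19) (nat_lit 252) r8_19 r3_252 (nat_lit 0) (nat_lit 0) (nat_lit 0) (nat_lit 0x6e3f9218a0) (nat_lit 8713471104),
  Rx.mk (nat_lit 493) (nat_lit 5) (nat_lit 5) (nat_lit 7) (nat_lit 7) (nat_lit 20) (nat_lit 253) r8_20 r3_253 (nat_lit 0) (nat_lit 0) (nat_lit 0) (nat_lit 0x7c4a3100a6) (nat_lit 1821159288),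
  Rx.mk (nat_lit 495) (nat_lit 7) (nat_lit 5) (nat_lit 7) (nat_lit 7) (nat_lit 22) (nat_lit 254) r8_22 r3_254 (nat_lit 0) (nat_lit 0) (nat_lit 0) (nat_lit 0x7764b97d04) (nat_lit 4224551760)]
noncomputable def e44_6 : List Rx := [
  Rx.mk (nat_lit 300) (nat_lit 4) (nat_lit 5) (nat_lit 4) (nat_lit 2) (nat_lit 155) (nat_lit 257) r8_155 r0_257 (nat_lit 0) (nat_lit 0) (nat_lit 0) (nat_lit 0x5d0382aad4) (nat_lit 17173138320),
  Rx.mk (nat_lit 301) (nat_lit 5) (nat_lit 5) (nat_lit 4) (nat_lit 3) (nat_lit 157) (nat_lit 259) r8_157 r0_259 (nat_lit 0) (nat_lit 0) (nat_lit 0) (nat_lit 0x7c68fe73b0) (nat_lit 1762098624),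
  Rx.mk (nat_lit 492) (nat_lit 4) (nat_lit 5) (nat_lit 7) (nat_lit 6) (nat_lit 156) (nat_lit 258) r8_156 r0_258 (nat_lit 0) (nat_lit 0) (nat_lit 0) (nat_lit 0x7d665dbcbe) (nat_lit 1276283736),
  Rx.mk (nat_lit 493) (nat_lit 5) (nat_lit 5) (nat_lit 7) (nat_lit 7) (nat_lit 158) (nat_lit 260) r8_158 r0_260 (nat_lit 0) (nat_lit 0) (nat_lit 0) (nat_lit 0x7de755acbe) (nat_lit 1029000024),
  Rx.mk (nat_lit 495) (nat_lit 7) (nat_lit 5) (nat_lit 7) (nat_lit 7) (nat_lit 159) (nat_lit 261) r8_159 r0_261 (nat_lit 0) (nat_lit 0) (nat_lit 0) (nat_lit 0x7df3be4628) (nat_lit 1005207840)]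
noncomputable def e44_7 : List Rx := [
  Rx.mk (nat_lit 300) (nat_lit 4) (nat_lit 5) (nat_lit 4) (nat_lit 2) (nat_lit 160) (nat_lit 262) r8_160 r1_262 (nat_lit 0) (nat_lit 0) (nat_lit 0) (nat_lit 0x5e5dca2502) (nat_lit 16509183912),
  Rx.mk (nat_lit 301) (nat_lit 5) (nat_lit 5) (nat_lit 4) (nat_lit 3) (nat_lit 163) (nat_lit 265) r8_163 r1_265 (nat_lit 0) (nat_lit 0) (nat_lit 0) (nat_lit 0x7d825a3cda) (nat_lit 1222622856),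
  Rx.mk (nat_lit 364) (nat_lit 4) (nat_lit 5) (nat_lit 5) (nat_lit 6) (nat_lit 161) (nat_lit 263) r8_161 r1_263 (nat_lit 0) (nat_lit 0) (nat_lit 0) (nat_lit 0x7bd73b1078) (nat_lit 2041584480),
  Rx.mk (nat_lit 365) (nat_lit 5) (nat_lit 5) (nat_lit 5) (nat_lit 7) (nat_lit 164) (nat_lit 266) r8_164 r1_266 (nat_lit 0) (nat_lit 0) (nat_lit 0) (nat_lit 0x7d867bdabc) (nat_lit 1214701488),
  Rx.mk (nat_lit 492) (nat_lit 4) (nat_lit 5) (nat_lit 7) (nat_lit 6) (nat_lit 162) (nat_lit 264) r8_162 r1_264 (nat_lit 0) (nat_lit 0) (nat_lit 0) (nat_lit 0x7d95c58612) (nat_lit 1185388776),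
  Rx.mk (nat_lit 493) (nat_lit 5) (nat_lit 5) (nat_lit 7) (nat_lit 7) (nat_lit 165) (nat_lit 267) r8_165 r1_267 (nat_lit 0) (nat_lit 0) (nat_lit 0) (nat_lit 0x7df4303f08) (nat_lit 1004354208),
  Rx.mk (nat_lit 495) (nat_lit 7) (nat_lit 5) (nat_lit 7) (nat_lit 7) (nat_lit 166) (nat_lit 268) r8_166 r1_268 (nat_lit 0) (nat_lit 0) (nat_lit 0) (nat_lit 0x7df1600c0e) (nat_lit 1009748376)]
noncomputable def e44_8 : List Rx := [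
  Rx.mk (nat_lit 492) (nat_lit 4) (nat_lit 5) (nat_lit 7) (nat_lit 6) (nat_lit 167) (nat_lit 273) r8_167 r4_273 (nat_lit 0) (nat_lit 0) (nat_lit 0) (nat_lit 0x7db654dcfc) (nat_lit 1122958512),
  Rx.mk (nat_lit 493) (nat_lit 5) (nat_lit 5) (nat_lit 7) (nat_lit 7) (nat_lit 168) (nat_lit 274) r8_168 r4_274 (nat_lit 0) (nat_lit 0) (nat_lit 0) (nat_lit 0x7de3238fe4) (nat_lit 1037044944),
  Rx.mk (nat_lit 495) (nat_lit 7) (nat_lit 5) (nat_lit 7) (nat_lit 7) (nat_lit 169) (nat_lit 275) r8_169 r4_275 (nat_lit 0) (nat_lit 0) (nat_lit 0) (nat_lit 0x7ddff0631a) (nat_lit 1043180424)]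
noncomputable def e44_9 : List Rx := [
  Rx.mk (nat_lit 204) (nat_lit 4) (nat_lit 1) (nat_lit 3) (nat_lit 6) (nat_lit 219) (nat_lit 314) r8_219 r5_314 (nat_lit 0) (nat_lit 0) (nat_lit 0) (nat_lit 0x7d4396095c) (nat_lit 1342970928),
  Rx.mk (nat_lit 205) (nat_lit 5) (nat_lit 1) (nat_lit 3) (nat_lit 7) (nat_lit 221) (nat_lit 316) r8_221 r5_316 (nat_lit 0) (nat_lit 0) (nat_lit 0) (nat_lit 0x7de265dbc0) (nat_lit 1038465792),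
  Rx.mk (nat_lit 236) (nat_lit 4) (nat_lit 5) (nat_lit 3) (nat_lit 6) (nat_lit 220) (nat_lit 315) r8_220 r5_315 (nat_lit 0) (nat_lit 0) (nat_lit 0) (nat_lit 0x7c922f207c) (nat_lit 1683120816),
  Rx.mk (nat_lit 237) (nat_lit 5) (nat_lit 5) (nat_lit 3) (nat_lit 7) (nat_lit 222) (nat_lit 317) r8_222 r5_317 (nat_lit 0) (nat_lit 0) (nat_lit 0) (nat_lit 0x7dde539ce8) (nat_lit 1046272032),
  Rx.mk (nat_lit 239) (nat_lit 7) (nat_lit 5) (nat_lit 3) (nat_lit 7) (nat_lit 223) (nat_lit 318) r8_223 r5_318 (nat_lit 0) (nat_lit 0) (nat_lit 0) (nat_lit 0x7df2463daa) (nat_lit 1008024264)]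
noncomputable def e44_10 : List Rx := [
  Rx.mk (nat_lit 9) (nat_lit 1) (nat_lit 1) (nat_lit 0) (nat_lit 3) (nat_lit 250) (nat_lit 295) r8_250 r0_295 (nat_lit 0) (nat_lit 0) (nat_lit 0) (nat_lit 0x7d3d9e48de) (nat_lit 1354413528),
  Rx.mk (nat_lit 13) (nat_lit 5) (nat_lit 1) (nat_lit 0) (nat_lit 3) (nat_lit 253) (nat_lit 294) r8_253 r0_294 (nat_lit 0) (nat_lit 0) (nat_lit 0) (nat_lit 0x7d40db9506) (nat_lit 1348202232),
  Rx.mk (nat_lit 45) (nat_lit 5) (nat_lit 5) (nat_lit 0) (nat_lit 3) (nat_lit 254) (nat_lit 293) r8_254 r0_293 (nat_lit 0) (nat_lit 0) (nat_lit 0) (nat_lit 0x7c454cceee) (nat_lit 1830538008),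
  Rx.mk (nat_lit 73) (nat_lit 1) (nat_lit 1) (nat_lit 1) (nat_lit 7) (nat_lit 251) (nat_lit 298) r8_251 r0_298 (nat_lit 0) (nat_lit 0) (nat_lit 0) (nat_lit 0x7df79428c6) (nat_lit 997853688),
  Rx.mk (nat_lit 77) (nat_lit 5) (nat_lit 1) (nat_lit 1) (nat_lit 7) (nat_lit 255) (nat_lit 297) r8_255 r0_297 (nat_lit 0) (nat_lit 0) (nat_lit 0) (nat_lit 0x7de02cbf54) (nat_lit 1042728336),
  Rx.mk (nat_lit 109) (nat_lit 5) (nat_lit 5) (nat_lit 1) (nat_lit 7) (nat_lit 256) (nat_lit 296) r8_256 r0_296 (nat_lit 0) (nat_lit 0) (nat_lit 0) (nat_lit 0x7df79428c6) (nat_lit 997853688),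
  Rx.mk (nat_lit 201) (nat_lit 1) (nat_lit 1) (nat_lit 3) (nat_lit 7) (nat_lit 252) (nat_lit 299) r8_252 r0_299 (nat_lit 0) (nat_lit 0) (nat_lit 0) (nat_lit 0x7dea449dcc) (nat_lit 1023375600)]
noncomputable def e44_11 : List Rx := [
  Rx.mk (nat_lit 73) (nat_lit 1) (nat_lit 1) (nat_lit 1) (nat_lit 7) (nat_lit 257) (nat_lit 406) r8_257 r6_406 (nat_lit 0) (nat_lit 0) (nat_lit 0) (nat_lit 0x7ddfeca356) (nat_lit 1043208504),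
  Rx.mk (nat_lit 77) (nat_lit 5) (nat_lit 1) (nat_lit 1) (nat_lit 7) (nat_lit 258) (nat_lit 407) r8_258 r6_407 (nat_lit 0) (nat_lit 0) (nat_lit 0) (nat_lit 0x7dd7634bf4) (nat_lit 1059576336),
  Rx.mk (nat_lit 109) (nat_lit 5) (nat_lit 5) (nat_lit 1) (nat_lit 7) (nat_lit 259) (nat_lit 408) r8_259 r6_408 (nat_lit 0) (nat_lit 0) (nat_lit 0) (nat_lit 0x7de3b8069c) (nat_lit 1035932976)]
noncomputable def e44_12 : List Rx := [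
  Rx.mk (nat_lit 9) (nat_lit 1) (nat_lit 1) (nat_lit 0) (nat_lit 3) (nat_lit 286) (nat_lit 290) r8_286 r1_290 (nat_lit 0) (nat_lit 0) (nat_lit 0) (nat_lit 0x7d689cd8ca) (nat_lit 1271976264),
  Rx.mk (nat_lit 73) (nat_lit 1) (nat_lit 1) (nat_lit 1) (nat_lit 7) (nat_lit 287) (nat_lit 291) r8_287 r1_291 (nat_lit 0) (nat_lit 0) (nat_lit 0) (nat_lit 0x7de70451d4) (nat_lit 1029609360),
  Rx.mk (nat_lit 201) (nat_lit 1) (nat_lit 1) (nat_lit 3) (nat_lit 7) (nat_lit 288) (nat_lit 292) r8_288 r1_292 (nat_lit 0) (nat_lit 0) (nat_lit 0) (nat_lit 0x7df1630bde) (nat_lit 1009725912)]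
noncomputable def e44_13 : List Rx := [
  Rx.mk (nat_lit 73) (nat_lit 1) (nat_lit 1) (nat_lit 1) (nat_lit 7) (nat_lit 289) (nat_lit 326) r8_289 r7_326 (nat_lit 0) (nat_lit 0) (nat_lit 0) (nat_lit 0x7df343add2) (nat_lit 1006126056)]
noncomputable def e44_14 : List Rx := [
  Rx.mk (nat_lit 73) (nat_lit 1) (nat_lit 1) (nat_lit 1) (nat_lit 7) (nat_lit 294) (nat_lit 330) r8_294 r7_330 (nat_lit 0) (nat_lit 0) (nat_lit 0) (nat_lit 0x7de241de00) (nat_lit 1038735360),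
  Rx.mk (nat_lit 77) (nat_lit 5) (nat_lit 1) (nat_lit 1) (nat_lit 7) (nat_lit 295) (nat_lit 329) r8_295 r7_329 (nat_lit 0) (nat_lit 0) (nat_lit 0) (nat_lit 0x7dafdd447c) (nat_lit 1135358640),
  Rx.mk (nat_lit 109) (nat_lit 5) (nat_lit 5) (nat_lit 1) (nat_lit 7) (nat_lit 296) (nat_lit 328) r8_296 r7_328 (nat_lit 0) (nat_lit 0) (nat_lit 0) (nat_lit 0x7dd57faa30) (nat_lit 1063198656),
  Rx.mk (nat_lit 365) (nat_lit 5) (nat_lit 5) (nat_lit 5) (nat_lit 7) (nat_lit 297) (nat_lit 327) r8_297 r7_327 (nat_lit 0) (nat_lit 0) (nat_lit 0) (nat_lit 0x7de90d7140) (nat_lit 1025706240)]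
noncomputable def e44_15 : List Rx := [
  Rx.mk (nat_lit 365) (nat_lit 5) (nat_lit 5) (nat_lit 5) (nat_lit 7) (nat_lit 298) (nat_lit 298) r8_298 r8_298 (nat_lit 0) (nat_lit 0) (nat_lit 0) (nat_lit 0x7de30ad170) (nat_lit 1037230272)]
noncomputable def e44_16 : List Rx := [
  Rx.mk (nat_lit 13) (nat_lit 5) (nat_lit 1) (nat_lit 0) (nat_lit 3) (nat_lit 312) (nat_lit 310) r8_312 r4_310 (nat_lit 0) (nat_lit 0) (nat_lit 0) (nat_lit 0x7bf32fb112) (nat_lit 1987982568),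
  Rx.mk (nat_lit 45) (nat_lit 5) (nat_lit 5) (nat_lit 0) (nat_lit 3) (nat_lit 313) (nat_lit 309) r8_313 r4_309 (nat_lit 0) (nat_lit 0) (nat_lit 0) (nat_lit 0x7cf628a080) (nat_lit 1491429888),
  Rx.mk (nat_lit 77) (nat_lit 5) (nat_lit 1) (nat_lit 1) (nat_lit 7) (nat_lit 314) (nat_lit 312) r8_314 r4_312 (nat_lit 0) (nat_lit 0) (nat_lit 0) (nat_lit 0x7ddd4f0d32) (nat_lit 1048223592),
  Rx.mk (nat_lit 109) (nat_lit 5) (nat_lit 5) (nat_lit 1) (nat_lit 7) (nat_lit 315) (nat_lit 311) r8_315 r4_311 (nat_lit 0) (nat_lit 0) (nat_lit 0) (nat_lit 0x7de1440dde) (nat_lit 1040636376),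
  Rx.mk (nat_lit 201) (nat_lit 1) (nat_lit 1) (nat_lit 3) (nat_lit 7) (nat_lit 311) (nat_lit 314) r8_311 r4_314 (nat_lit 0) (nat_lit 0) (nat_lit 0) (nat_lit 0x7dc5e563e4) (nat_lit 1093115088),
  Rx.mk (nat_lit 205) (nat_lit 5) (nat_lit 1) (nat_lit 3) (nat_lit 7) (nat_lit 316) (nat_lit 313) r8_316 r4_313 (nat_lit 0) (nat_lit 0) (nat_lit 0) (nat_lit 0x7deb594c80) (nat_lit 1021303296)]
noncomputable def e44_17 : List Rx := [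
  Rx.mk (nat_lit 77) (nat_lit 5) (nat_lit 1) (nat_lit 1) (nat_lit 7) (nat_lit 317) (nat_lit 329) r8_317 r9_329 (nat_lit 0) (nat_lit 0) (nat_lit 0) (nat_lit 0x7dd84fdd2a) (nat_lit 1057804488),
  Rx.mk (nat_lit 109) (nat_lit 5) (nat_lit 5) (nat_lit 1) (nat_lit 7) (nat_lit 318) (nat_lit 330) r8_318 r9_330 (nat_lit 0) (nat_lit 0) (nat_lit 0) (nat_lit 0x7df4a417ca) (nat_lit 1003486536)]
noncomputable def e44_18 : List Rx := [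
  Rx.mk (nat_lit 45) (nat_lit 5) (nat_lit 5) (nat_lit 0) (nat_lit 3) (nat_lit 320) (nat_lit 347) r8_320 r10_347 (nat_lit 0) (nat_lit 0) (nat_lit 0) (nat_lit 0x7d5d8ae9f4) (nat_lit 1293201936),
  Rx.mk (nat_lit 109) (nat_lit 5) (nat_lit 5) (nat_lit 1) (nat_lit 7) (nat_lit 321) (nat_lit 348) r8_321 r10_348 (nat_lit 0) (nat_lit 0) (nat_lit 0) (nat_lit 0x7de98b6960) (nat_lit 1024762752),
  Rx.mk (nat_lit 201) (nat_lit 1) (nat_lit 1) (nat_lit 3) (nat_lit 7) (nat_lit 319) (nat_lit 345) r8_319 r10_345 (nat_lit 0) (nat_lit 0) (nat_lit 0) (nat_lit 0x7de3095188) (nat_lit 1037241504),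
  Rx.mk (nat_lit 205) (nat_lit 5) (nat_lit 1) (nat_lit 3) (nat_lit 7) (nat_lit 322) (nat_lit 346) r8_322 r10_346 (nat_lit 0) (nat_lit 0) (nat_lit 0) (nat_lit 0x7ddf600c20) (nat_lit 1044261504),
  Rx.mk (nat_lit 237) (nat_lit 5) (nat_lit 5) (nat_lit 3) (nat_lit 7) (nat_lit 323) (nat_lit 349) r8_323 r10_349 (nat_lit 0) (nat_lit 0) (nat_lit 0) (nat_lit 0x7dd48359f6) (nat_lit 1065088440)]
noncomputable def e44_19 : List Rx := [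
  Rx.mk (nat_lit 365) (nat_lit 5) (nat_lit 5) (nat_lit 5) (nat_lit 7) (nat_lit 299) (nat_lit 266) r8_299 r8_266 (nat_lit 0) (nat_lit 0) (nat_lit 0) (nat_lit 0x7de011610a) (nat_lit 1042933320)]
noncomputable def e44_20 : List Rx := [
  Rx.mk (nat_lit 255) (nat_lit 7) (nat_lit 7) (nat_lit 3) (nat_lit 7) (nat_lit 36) (nat_lit 154) r8_36 r0_154 (nat_lit 0) (nat_lit 0) (nat_lit 0) (nat_lit 0x7df79428c6) (nat_lit 997853688),
  Rx.mk (nat_lit 292) (nat_lit 4) (nat_lit 4) (nat_lit 4) (nat_lit 0) (nat_lit 23) (nat_lit 155) r8_23 r0_155 (nat_lit 0) (nat_lit 0) (nat_lit 0) (nat_lit 0x2380ce4fa0) (nat_lit 45402394752),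
  Rx.mk (nat_lit 294) (nat_lit 6) (nat_lit 4) (nat_lit 4) (nat_lit 1) (nat_lit 29) (nat_lit 158) r8_29 r0_158 (nat_lit 0) (nat_lit 0) (nat_lit 0) (nat_lit 0x6bb29a6aa8) (nat_lit 9965468448),
  Rx.mk (nat_lit 300) (nat_lit 4) (nat_lit 5) (nat_lit 4) (nat_lit 2) (nat_lit 24) (nat_lit 156) r8_24 r0_156 (nat_lit 0) (nat_lit 0) (nat_lit 0) (nat_lit 0x68034003fe) (nat_lit 11774250072),
  Rx.mk (nat_lit 301) (nat_lit 5) (nat_lit 5) (nat_lit 4) (nat_lit 3) (nat_lit 27) (nat_lit 157) r8_27 r0_157 (nat_lit 0) (nat_lit 0) (nat_lit 0) (nat_lit 0x7dafa1a836) (nat_lit 1135805112),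
  Rx.mk (nat_lit 302) (nat_lit 6) (nat_lit 5) (nat_lit 4) (nat_lit 3) (nat_lit 30) (nat_lit 159) r8_30 r0_159 (nat_lit 0) (nat_lit 0) (nat_lit 0) (nat_lit 0x7dd4e773b4) (nat_lit 1064338704),
  Rx.mk (nat_lit 310) (nat_lit 6) (nat_lit 6) (nat_lit 4) (nat_lit 3) (nat_lit 31) (nat_lit 160) r8_31 r0_160 (nat_lit 0) (nat_lit 0) (nat_lit 0) (nat_lit 0x7d2f99a936) (nat_lit 1381291704),
  Rx.mk (nat_lit 438) (nat_lit 6) (nat_lit 6) (nat_lit 6) (nat_lit 7) (nat_lit 32) (nat_lit 170) r8_32 r0_170 (nat_lit 0) (nat_lit 0) (nat_lit 0) (nat_lit 0x7d8f316f5a) (nat_lit 1198002312),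
  Rx.mk (nat_lit 484) (nat_lit 4) (nat_lit 4) (nat_lit 7) (nat_lit 4) (nat_lit 25) (nat_lit 161) r8_25 r0_161 (nat_lit 0) (nat_lit 0) (nat_lit 0) (nat_lit 0x6eebb9b57a) (nat_lit 8383382280),
  Rx.mk (nat_lit 486) (nat_lit 6) (nat_lit 4) (nat_lit 7) (nat_lit 5) (nat_lit 33) (nat_lit 167) r8_33 r0_167 (nat_lit 0) (nat_lit 0) (nat_lit 0) (nat_lit 0x7db254fcfe) (nat_lit 1130627160),
  Rx.mk (nat_lit 487) (nat_lit 7) (nat_lit 4) (nat_lit 7) (nat_lit 5) (nat_lit 37) (nat_lit 164) r8_37 r0_164 (nat_lit 0) (nat_lit 0) (nat_lit 0) (nat_lit 0x7d6504125a) (nat_lit 1278872712),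
  Rx.mk (nat_lit 492) (nat_lit 4) (nat_lit 5) (nat_lit 7) (nat_lit 6) (nat_lit 26) (nat_lit 162) r8_26 r0_162 (nat_lit 0) (nat_lit 0) (nat_lit 0) (nat_lit 0x7dd9e10416) (nat_lit 1054799928),
  Rx.mk (nat_lit 493) (nat_lit 5) (nat_lit 5) (nat_lit 7) (nat_lit 7) (nat_lit 28) (nat_lit 163) r8_28 r0_163 (nat_lit 0) (nat_lit 0) (nat_lit 0) (nat_lit 0x7df8ad5732) (nat_lit 995747688),
  Rx.mk (nat_lit 494) (nat_lit 6) (nat_lit 5) (nat_lit 7) (nat_lit 7) (nat_lit 34) (nat_lit 168) r8_34 r0_168 (nat_lit 0) (nat_lit 0) (nat_lit 0) (nat_lit 0x7df1b4c6c2) (nat_lit 1009113768),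
  Rx.mk (nat_lit 495) (nat_lit 7) (nat_lit 5) (nat_lit 7) (nat_lit 7) (nat_lit 38) (nat_lit 165) r8_38 r0_165 (nat_lit 0) (nat_lit 0) (nat_lit 0) (nat_lit 0x7df299187c) (nat_lit 1007403696),
  Rx.mk (nat_lit 502) (nat_lit 6) (nat_lit 6) (nat_lit 7) (nat_lit 7) (nat_lit 35) (nat_lit 169) r8_35 r0_169 (nat_lit 0) (nat_lit 0) (nat_lit 0) (nat_lit 0x7df06cbb44) (nat_lit 1011570768),
  Rx.mk (nat_lit 511) (nat_lit 7) (nat_lit 7) (nat_lit 7) (nat_lit 7) (nat_lit 39) (nat_lit 166) r8_39 r0_166 (nat_lit 0) (nat_lit 0) (nat_lit 0) (nat_lit 0x7dde5a5c7c) (nat_lit 1046221488)]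
noncomputable def e44_21 : List Rx := [
  Rx.mk (nat_lit 255) (nat_lit 7) (nat_lit 7) (nat_lit 3) (nat_lit 7) (nat_lit 47) (nat_lit 169) r8_47 r1_169 (nat_lit 0) (nat_lit 0) (nat_lit 0) (nat_lit 0x7df3ef031c) (nat_lit 1004842800),
  Rx.mk (nat_lit 292) (nat_lit 4) (nat_lit 4) (nat_lit 4) (nat_lit 0) (nat_lit 40) (nat_lit 170) r8_40 r1_170 (nat_lit 0) (nat_lit 0) (nat_lit 0) (nat_lit 0x26a0315650) (nat_lit 43869653568),
  Rx.mk (nat_lit 294) (nat_lit 6) (nat_lit 4) (nat_lit 4) (nat_lit 1) (nat_lit 42) (nat_lit 171) r8_42 r1_171 (nat_lit 0) (nat_lit 0) (nat_lit 0) (nat_lit 0x6aa9b3da1a) (nat_lit 10473387912),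
  Rx.mk (nat_lit 310) (nat_lit 6) (nat_lit 6) (nat_lit 4) (nat_lit 3) (nat_lit 43) (nat_lit 172) r8_43 r1_172 (nat_lit 0) (nat_lit 0) (nat_lit 0) (nat_lit 0x7ccbdaa58a) (nat_lit 1572544584),
  Rx.mk (nat_lit 438) (nat_lit 6) (nat_lit 6) (nat_lit 6) (nat_lit 7) (nat_lit 44) (nat_lit 178) r8_44 r1_178 (nat_lit 0) (nat_lit 0) (nat_lit 0) (nat_lit 0x7d9c4f7d6c) (nat_lit 1172851056),
  Rx.mk (nat_lit 484) (nat_lit 4) (nat_lit 4) (nat_lit 7) (nat_lit 4) (nat_lit 41) (nat_lit 173) r8_41 r1_173 (nat_lit 0) (nat_lit 0) (nat_lit 0) (nat_lit 0x67ac0677ee) (nat_lit 11941494552),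
  Rx.mk (nat_lit 486) (nat_lit 6) (nat_lit 4) (nat_lit 7) (nat_lit 5) (nat_lit 45) (nat_lit 176) r8_45 r1_176 (nat_lit 0) (nat_lit 0) (nat_lit 0) (nat_lit 0x7dc7b886b0) (nat_lit 1089616320),
  Rx.mk (nat_lit 487) (nat_lit 7) (nat_lit 4) (nat_lit 7) (nat_lit 5) (nat_lit 48) (nat_lit 174) r8_48 r1_174 (nat_lit 0) (nat_lit 0) (nat_lit 0) (nat_lit 0x7d65dd24c8) (nat_lit 1277246880),
  Rx.mk (nat_lit 502) (nat_lit 6) (nat_lit 6) (nat_lit 7) (nat_lit 7) (nat_lit 46) (nat_lit 177) r8_46 r1_177 (nat_lit 0) (nat_lit 0) (nat_lit 0) (nat_lit 0x7de6d574c2) (nat_lit 1029960360),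
  Rx.mk (nat_lit 511) (nat_lit 7) (nat_lit 7) (nat_lit 7) (nat_lit 7) (nat_lit 49) (nat_lit 175) r8_49 r1_175 (nat_lit 0) (nat_lit 0) (nat_lit 0) (nat_lit 0x7dbc1ee056) (nat_lit 1111858488)]
noncomputable def e44_22 : List Rx := [
  Rx.mk (nat_lit 231) (nat_lit 7) (nat_lit 4) (nat_lit 3) (nat_lit 5) (nat_lit 56) (nat_lit 144) r8_56 r4_144 (nat_lit 0) (nat_lit 0) (nat_lit 0) (nat_lit 0x7db61d007a) (nat_lit 1123376904),
  Rx.mk (nat_lit 239) (nat_lit 7) (nat_lit 5) (nat_lit 3) (nat_lit 7) (nat_lit 57) (nat_lit 145) r8_57 r4_145 (nat_lit 0) (nat_lit 0) (nat_lit 0) (nat_lit 0x7dde50fd12) (nat_lit 1046291688),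
  Rx.mk (nat_lit 255) (nat_lit 7) (nat_lit 7) (nat_lit 3) (nat_lit 7) (nat_lit 58) (nat_lit 146) r8_58 r4_146 (nat_lit 0) (nat_lit 0) (nat_lit 0) (nat_lit 0x7de458dc8e) (nat_lit 1034728344),
  Rx.mk (nat_lit 484) (nat_lit 4) (nat_lit 4) (nat_lit 7) (nat_lit 4) (nat_lit 50) (nat_lit 147) r8_50 r4_147 (nat_lit 0) (nat_lit 0) (nat_lit 0) (nat_lit 0x6c5214126e) (nat_lit 9659691288),
  Rx.mk (nat_lit 486) (nat_lit 6) (nat_lit 4) (nat_lit 7) (nat_lit 5) (nat_lit 53) (nat_lit 152) r8_53 r4_152 (nat_lit 0) (nat_lit 0) (nat_lit 0) (nat_lit 0x7ddbcbc568) (nat_lit 1051124256),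
  Rx.mk (nat_lit 487) (nat_lit 7) (nat_lit 4) (nat_lit 7) (nat_lit 5) (nat_lit 59) (nat_lit 150) r8_59 r4_150 (nat_lit 0) (nat_lit 0) (nat_lit 0) (nat_lit 0x7dc71c9070) (nat_lit 1090784448),
  Rx.mk (nat_lit 492) (nat_lit 4) (nat_lit 5) (nat_lit 7) (nat_lit 6) (nat_lit 51) (nat_lit 148) r8_51 r4_148 (nat_lit 0) (nat_lit 0) (nat_lit 0) (nat_lit 0x7dc4b916aa) (nat_lit 1095364296),
  Rx.mk (nat_lit 493) (nat_lit 5) (nat_lit 5) (nat_lit 7) (nat_lit 7) (nat_lit 52) (nat_lit 149) r8_52 r4_149 (nat_lit 0) (nat_lit 0) (nat_lit 0) (nat_lit 0x7df5dd2438) (nat_lit 1001141856),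
  Rx.mk (nat_lit 494) (nat_lit 6) (nat_lit 5) (nat_lit 7) (nat_lit 7) (nat_lit 54) (nat_lit 153) r8_54 r4_153 (nat_lit 0) (nat_lit 0) (nat_lit 0) (nat_lit 0x7de39ca852) (nat_lit 1036137960),
  Rx.mk (nat_lit 495) (nat_lit 7) (nat_lit 5) (nat_lit 7) (nat_lit 7) (nat_lit 60) (nat_lit 151) r8_60 r4_151 (nat_lit 0) (nat_lit 0) (nat_lit 0) (nat_lit 0x7df5b98672) (nat_lit 1001408616),
  Rx.mk (nat_lit 502) (nat_lit 6) (nat_lit 6) (nat_lit 7) (nat_lit 7) (nat_lit 55) (nat_lit 154) r8_55 r4_154 (nat_lit 0) (nat_lit 0) (nat_lit 0) (nat_lit 0x7df7378e90) (nat_lit 998547264)]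
noncomputable def e44_23 : List Rx := [
  Rx.mk (nat_lit 292) (nat_lit 4) (nat_lit 4) (nat_lit 4) (nat_lit 0) (nat_lit 170) (nat_lit 353) r8_170 r6_353 (nat_lit 0) (nat_lit 0) (nat_lit 0) (nat_lit 0xca49969cc) (nat_lit 56623393008),
  Rx.mk (nat_lit 294) (nat_lit 6) (nat_lit 4) (nat_lit 4) (nat_lit 1) (nat_lit 176) (nat_lit 356) r8_176 r6_356 (nat_lit 0) (nat_lit 0) (nat_lit 0) (nat_lit 0x744f2f58bc) (nat_lit 5738411952),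
  Rx.mk (nat_lit 300) (nat_lit 4) (nat_lit 5) (nat_lit 4) (nat_lit 2) (nat_lit 171) (nat_lit 357) r8_171 r6_357 (nat_lit 0) (nat_lit 0) (nat_lit 0) (nat_lit 0x4c79c53736) (nat_lit 25290895032),
  Rx.mk (nat_lit 301) (nat_lit 5) (nat_lit 5) (nat_lit 4) (nat_lit 3) (nat_lit 174) (nat_lit 359) r8_174 r6_359 (nat_lit 0) (nat_lit 0) (nat_lit 0) (nat_lit 0x7d5bdfe4a6) (nat_lit 1296400248),
  Rx.mk (nat_lit 302) (nat_lit 6) (nat_lit 5) (nat_lit 4) (nat_lit 3) (nat_lit 177) (nat_lit 362) r8_177 r6_362 (nat_lit 0) (nat_lit 0) (nat_lit 0) (nat_lit 0x7dce02c206) (nat_lit 1077555960),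
  Rx.mk (nat_lit 310) (nat_lit 6) (nat_lit 6) (nat_lit 4) (nat_lit 3) (nat_lit 178) (nat_lit 364) r8_178 r6_364 (nat_lit 0) (nat_lit 0) (nat_lit 0) (nat_lit 0x7db87bfa88) (nat_lit 1118830752),
  Rx.mk (nat_lit 438) (nat_lit 6) (nat_lit 6) (nat_lit 6) (nat_lit 7) (nat_lit 179) (nat_lit 365) r8_179 r6_365 (nat_lit 0) (nat_lit 0) (nat_lit 0) (nat_lit 0x7de59728a8) (nat_lit 1032344352),
  Rx.mk (nat_lit 484) (nat_lit 4) (nat_lit 4) (nat_lit 7) (nat_lit 4) (nat_lit 172) (nat_lit 354) r8_172 r6_354 (nat_lit 0) (nat_lit 0) (nat_lit 0) (nat_lit 0x700fb7547c) (nat_lit 7823520432),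
  Rx.mk (nat_lit 487) (nat_lit 7) (nat_lit 4) (nat_lit 7) (nat_lit 5) (nat_lit 180) (nat_lit 355) r8_180 r6_355 (nat_lit 0) (nat_lit 0) (nat_lit 0) (nat_lit 0x7dd0e0d422) (nat_lit 1072057896),
  Rx.mk (nat_lit 492) (nat_lit 4) (nat_lit 5) (nat_lit 7) (nat_lit 6) (nat_lit 173) (nat_lit 358) r8_173 r6_358 (nat_lit 0) (nat_lit 0) (nat_lit 0) (nat_lit 0x7dad56ece4) (nat_lit 1140199632),
  Rx.mk (nat_lit 493) (nat_lit 5) (nat_lit 5) (nat_lit 7) (nat_lit 7) (nat_lit 175) (nat_lit 360) r8_175 r6_360 (nat_lit 0) (nat_lit 0) (nat_lit 0) (nat_lit 0x7dd092d902) (nat_lit 1072641960),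
  Rx.mk (nat_lit 495) (nat_lit 7) (nat_lit 5) (nat_lit 7) (nat_lit 7) (nat_lit 181) (nat_lit 361) r8_181 r6_361 (nat_lit 0) (nat_lit 0) (nat_lit 0) (nat_lit 0x7dc2a09834) (nat_lit 1099382544),
  Rx.mk (nat_lit 511) (nat_lit 7) (nat_lit 7) (nat_lit 7) (nat_lit 7) (nat_lit 182) (nat_lit 363) r8_182 r6_363 (nat_lit 0) (nat_lit 0) (nat_lit 0) (nat_lit 0x7de5019202) (nat_lit 1033464744)]
noncomputable def e44_24 : List Rx := [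
  Rx.mk (nat_lit 292) (nat_lit 4) (nat_lit 4) (nat_lit 4) (nat_lit 0) (nat_lit 202) (nat_lit 266) r8_202 r7_266 (nat_lit 0) (nat_lit 0) (nat_lit 0) (nat_lit 0x2a267bae24) (nat_lit 42139605456),
  Rx.mk (nat_lit 294) (nat_lit 6) (nat_lit 4) (nat_lit 4) (nat_lit 1) (nat_lit 204) (nat_lit 269) r8_204 r7_269 (nat_lit 0) (nat_lit 0) (nat_lit 0) (nat_lit 0x795a3b62f0) (nat_lit 3262963392),
  Rx.mk (nat_lit 310) (nat_lit 6) (nat_lit 6) (nat_lit 4) (nat_lit 3) (nat_lit 205) (nat_lit 271) r8_205 r7_271 (nat_lit 0) (nat_lit 0) (nat_lit 0) (nat_lit 0x7d7fa68818) (nat_lit 1227803616),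
  Rx.mk (nat_lit 438) (nat_lit 6) (nat_lit 6) (nat_lit 6) (nat_lit 7) (nat_lit 206) (nat_lit 272) r8_206 r7_272 (nat_lit 0) (nat_lit 0) (nat_lit 0) (nat_lit 0x7dcfdbe472) (nat_lit 1074012264),
  Rx.mk (nat_lit 484) (nat_lit 4) (nat_lit 4) (nat_lit 7) (nat_lit 4) (nat_lit 203) (nat_lit 267) r8_203 r7_267 (nat_lit 0) (nat_lit 0) (nat_lit 0) (nat_lit 0x6f84370d0c) (nat_lit 8090999280),
  Rx.mk (nat_lit 487) (nat_lit 7) (nat_lit 4) (nat_lit 7) (nat_lit 5) (nat_lit 207) (nat_lit 268) r8_207 r7_268 (nat_lit 0) (nat_lit 0) (nat_lit 0) (nat_lit 0x7d6bde44b0) (nat_lit 1265734080),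
  Rx.mk (nat_lit 511) (nat_lit 7) (nat_lit 7) (nat_lit 7) (nat_lit 7) (nat_lit 208) (nat_lit 270) r8_208 r7_270 (nat_lit 0) (nat_lit 0) (nat_lit 0) (nat_lit 0x7dd1cb257c) (nat_lit 1070302896)]
noncomputable def e44_25 : List Rx := [
  Rx.mk (nat_lit 292) (nat_lit 4) (nat_lit 4) (nat_lit 4) (nat_lit 0) (nat_lit 183) (nat_lit 159) r8_183 r7_159 (nat_lit 0) (nat_lit 0) (nat_lit 0) (nat_lit 0xf50b40576) (nat_lit 55311694776),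
  Rx.mk (nat_lit 294) (nat_lit 6) (nat_lit 4) (nat_lit 4) (nat_lit 1) (nat_lit 192) (nat_lit 162) r8_192 r7_162 (nat_lit 0) (nat_lit 0) (nat_lit 0) (nat_lit 0x69ea215402) (nat_lit 10840708008),
  Rx.mk (nat_lit 300) (nat_lit 4) (nat_lit 5) (nat_lit 4) (nat_lit 2) (nat_lit 184) (nat_lit 160) r8_184 r7_160 (nat_lit 0) (nat_lit 0) (nat_lit 0) (nat_lit 0x6e6da8770c) (nat_lit 8625103344),
  Rx.mk (nat_lit 301) (nat_lit 5) (nat_lit 5) (nat_lit 4) (nat_lit 3) (nat_lit 189) (nat_lit 161) r8_189 r7_161 (nat_lit 0) (nat_lit 0) (nat_lit 0) (nat_lit 0x7d74577d14) (nat_lit 1249486992),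
  Rx.mk (nat_lit 302) (nat_lit 6) (nat_lit 5) (nat_lit 4) (nat_lit 3) (nat_lit 193) (nat_lit 163) r8_193 r7_163 (nat_lit 0) (nat_lit 0) (nat_lit 0) (nat_lit 0x7dd111311c) (nat_lit 1071695664),
  Rx.mk (nat_lit 310) (nat_lit 6) (nat_lit 6) (nat_lit 4) (nat_lit 3) (nat_lit 194) (nat_lit 164) r8_194 r7_164 (nat_lit 0) (nat_lit 0) (nat_lit 0) (nat_lit 0x7dde503d1e) (nat_lit 1046297304),
  Rx.mk (nat_lit 356) (nat_lit 4) (nat_lit 4) (nat_lit 5) (nat_lit 4) (nat_lit 185) (nat_lit 165) r8_185 r7_165 (nat_lit 0) (nat_lit 0) (nat_lit 0) (nat_lit 0x5ded7eea26) (nat_lit 16724495736),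
  Rx.mk (nat_lit 358) (nat_lit 6) (nat_lit 4) (nat_lit 5) (nat_lit 5) (nat_lit 195) (nat_lit 168) r8_195 r7_168 (nat_lit 0) (nat_lit 0) (nat_lit 0) (nat_lit 0x7dc8110128) (nat_lit 1088953632),
  Rx.mk (nat_lit 364) (nat_lit 4) (nat_lit 5) (nat_lit 5) (nat_lit 6) (nat_lit 186) (nat_lit 166) r8_186 r7_166 (nat_lit 0) (nat_lit 0) (nat_lit 0) (nat_lit 0x7c45bbc7fe) (nat_lit 1829706840),
  Rx.mk (nat_lit 365) (nat_lit 5) (nat_lit 5) (nat_lit 5) (nat_lit 7) (nat_lit 190) (nat_lit 167) r8_190 r7_167 (nat_lit 0) (nat_lit 0) (nat_lit 0) (nat_lit 0x7db6535d14) (nat_lit 1122969744),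
  Rx.mk (nat_lit 366) (nat_lit 6) (nat_lit 5) (nat_lit 5) (nat_lit 7) (nat_lit 196) (nat_lit 169) r8_196 r7_169 (nat_lit 0) (nat_lit 0) (nat_lit 0) (nat_lit 0x7df38ba952) (nat_lit 1005586920),
  Rx.mk (nat_lit 374) (nat_lit 6) (nat_lit 6) (nat_lit 5) (nat_lit 7) (nat_lit 197) (nat_lit 170) r8_197 r7_170 (nat_lit 0) (nat_lit 0) (nat_lit 0) (nat_lit 0x7df0e8138e) (nat_lit 1010646936),
  Rx.mk (nat_lit 438) (nat_lit 6) (nat_lit 6) (nat_lit 6) (nat_lit 7) (nat_lit 198) (nat_lit 177) r8_198 r7_177 (nat_lit 0) (nat_lit 0) (nat_lit 0) (nat_lit 0x7ddc561cc2) (nat_lit 1050088104),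
  Rx.mk (nat_lit 484) (nat_lit 4) (nat_lit 4) (nat_lit 7) (nat_lit 4) (nat_lit 187) (nat_lit 171) r8_187 r7_171 (nat_lit 0) (nat_lit 0) (nat_lit 0) (nat_lit 0x6bc7e5f5da) (nat_lit 9924637320),
  Rx.mk (nat_lit 487) (nat_lit 7) (nat_lit 4) (nat_lit 7) (nat_lit 5) (nat_lit 199) (nat_lit 174) r8_199 r7_174 (nat_lit 0) (nat_lit 0) (nat_lit 0) (nat_lit 0x7dcf674bbc) (nat_lit 1074885552),
  Rx.mk (nat_lit 492) (nat_lit 4) (nat_lit 5) (nat_lit 7) (nat_lit 6) (nat_lit 188) (nat_lit 172) r8_188 r7_172 (nat_lit 0) (nat_lit 0) (nat_lit 0) (nat_lit 0x7d82afb782) (nat_lit 1221982632),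
  Rx.mk (nat_lit 493) (nat_lit 5) (nat_lit 5) (nat_lit 7) (nat_lit 7) (nat_lit 191) (nat_lit 173) r8_191 r7_173 (nat_lit 0) (nat_lit 0) (nat_lit 0) (nat_lit 0x7dea7a9a6c) (nat_lit 1022971248),
  Rx.mk (nat_lit 495) (nat_lit 7) (nat_lit 5) (nat_lit 7) (nat_lit 7) (nat_lit 200) (nat_lit 175) r8_200 r7_175 (nat_lit 0) (nat_lit 0) (nat_lit 0) (nat_lit 0x7ddabb966c) (nat_lit 1053162864),
  Rx.mk (nat_lit 511) (nat_lit 7) (nat_lit 7) (nat_lit 7) (nat_lit 7) (nat_lit 201) (nat_lit 176) r8_201 r7_176 (nat_lit 0) (nat_lit 0) (nat_lit 0) (nat_lit 0x7dec61fbf4) (nat_lit 1019320848)]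
noncomputable def e44_26 : List Rx := [
  Rx.mk (nat_lit 484) (nat_lit 4) (nat_lit 4) (nat_lit 7) (nat_lit 4) (nat_lit 209) (nat_lit 299) r8_209 r9_299 (nat_lit 0) (nat_lit 0) (nat_lit 0) (nat_lit 0x6a74ad2aba) (nat_lit 10575059976),
  Rx.mk (nat_lit 487) (nat_lit 7) (nat_lit 4) (nat_lit 7) (nat_lit 5) (nat_lit 212) (nat_lit 300) r8_212 r9_300 (nat_lit 0) (nat_lit 0) (nat_lit 0) (nat_lit 0x7dd319309a) (nat_lit 1067800968),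
  Rx.mk (nat_lit 492) (nat_lit 4) (nat_lit 5) (nat_lit 7) (nat_lit 6) (nat_lit 210) (nat_lit 301) r8_210 r9_301 (nat_lit 0) (nat_lit 0) (nat_lit 0) (nat_lit 0x7df31b305a) (nat_lit 1006429320),
  Rx.mk (nat_lit 493) (nat_lit 5) (nat_lit 5) (nat_lit 7) (nat_lit 7) (nat_lit 211) (nat_lit 302) r8_211 r9_302 (nat_lit 0) (nat_lit 0) (nat_lit 0) (nat_lit 0x7df6743ac6) (nat_lit 1000010232),
  Rx.mk (nat_lit 495) (nat_lit 7) (nat_lit 5) (nat_lit 7) (nat_lit 7) (nat_lit 213) (nat_lit 303) r8_213 r9_303 (nat_lit 0) (nat_lit 0) (nat_lit 0) (nat_lit 0x7de391c900) (nat_lit 1036219392)]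
noncomputable def e44_27 : List Rx := [
  Rx.mk (nat_lit 228) (nat_lit 4) (nat_lit 4) (nat_lit 3) (nat_lit 4) (nat_lit 229) (nat_lit 319) r8_229 r10_319 (nat_lit 0) (nat_lit 0) (nat_lit 0) (nat_lit 0x76844a04dc) (nat_lit 4654883376),
  Rx.mk (nat_lit 231) (nat_lit 7) (nat_lit 4) (nat_lit 3) (nat_lit 5) (nat_lit 238) (nat_lit 320) r8_238 r10_320 (nat_lit 0) (nat_lit 0) (nat_lit 0) (nat_lit 0x7db5be8662) (nat_lit 1124084520),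
  Rx.mk (nat_lit 236) (nat_lit 4) (nat_lit 5) (nat_lit 3) (nat_lit 6) (nat_lit 230) (nat_lit 323) r8_230 r10_323 (nat_lit 0) (nat_lit 0) (nat_lit 0) (nat_lit 0x7dd91db04c) (nat_lit 1056262896),
  Rx.mk (nat_lit 237) (nat_lit 5) (nat_lit 5) (nat_lit 3) (nat_lit 7) (nat_lit 233) (nat_lit 325) r8_233 r10_325 (nat_lit 0) (nat_lit 0) (nat_lit 0) (nat_lit 0x7df5994876) (nat_lit 1001650104),
  Rx.mk (nat_lit 239) (nat_lit 7) (nat_lit 5) (nat_lit 3) (nat_lit 7) (nat_lit 239) (nat_lit 326) r8_239 r10_326 (nat_lit 0) (nat_lit 0) (nat_lit 0) (nat_lit 0x7df0180090) (nat_lit 1012205376),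
  Rx.mk (nat_lit 255) (nat_lit 7) (nat_lit 7) (nat_lit 3) (nat_lit 7) (nat_lit 240) (nat_lit 328) r8_240 r10_328 (nat_lit 0) (nat_lit 0) (nat_lit 0) (nat_lit 0x7df39d4838) (nat_lit 1005454944),
  Rx.mk (nat_lit 484) (nat_lit 4) (nat_lit 4) (nat_lit 7) (nat_lit 4) (nat_lit 231) (nat_lit 318) r8_231 r10_318 (nat_lit 0) (nat_lit 0) (nat_lit 0) (nat_lit 0x74c5e86cb4) (nat_lit 5510773008),
  Rx.mk (nat_lit 486) (nat_lit 6) (nat_lit 4) (nat_lit 7) (nat_lit 5) (nat_lit 235) (nat_lit 321) r8_235 r10_321 (nat_lit 0) (nat_lit 0) (nat_lit 0) (nat_lit 0x7de41b006c) (nat_lit 1035191664),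
  Rx.mk (nat_lit 492) (nat_lit 4) (nat_lit 5) (nat_lit 7) (nat_lit 6) (nat_lit 232) (nat_lit 322) r8_232 r10_322 (nat_lit 0) (nat_lit 0) (nat_lit 0) (nat_lit 0x7de5ce4536) (nat_lit 1031931576),
  Rx.mk (nat_lit 493) (nat_lit 5) (nat_lit 5) (nat_lit 7) (nat_lit 7) (nat_lit 234) (nat_lit 324) r8_234 r10_324 (nat_lit 0) (nat_lit 0) (nat_lit 0) (nat_lit 0x7deef3f2d2) (nat_lit 1014392808),
  Rx.mk (nat_lit 494) (nat_lit 6) (nat_lit 5) (nat_lit 7) (nat_lit 7) (nat_lit 236) (nat_lit 327) r8_236 r10_327 (nat_lit 0) (nat_lit 0) (nat_lit 0) (nat_lit 0x7dcf8f693a) (nat_lit 1074585096),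
  Rx.mk (nat_lit 502) (nat_lit 6) (nat_lit 6) (nat_lit 7) (nat_lit 7) (nat_lit 237) (nat_lit 329) r8_237 r10_329 (nat_lit 0) (nat_lit 0) (nat_lit 0) (nat_lit 0x7df16d2b3c) (nat_lit 1009650096)]
noncomputable def e44_28 : List Rx := [
  Rx.mk (nat_lit 77) (nat_lit 5) (nat_lit 1) (nat_lit 1) (nat_lit 7) (nat_lit 327) (nat_lit 350) r8_327 r10_350 (nat_lit 0) (nat_lit 0) (nat_lit 0) (nat_lit 0x7ded710b02) (nat_lit 1017290664)]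
noncomputable def e44_29 : List Rx := [
  Rx.mk (nat_lit 207) (nat_lit 7) (nat_lit 1) (nat_lit 3) (nat_lit 7) (nat_lit 61) (nat_lit 127) r8_61 r5_127 (nat_lit 0) (nat_lit 0) (nat_lit 0) (nat_lit 0x7dd1aea744) (nat_lit 1070516304),
  Rx.mk (nat_lit 239) (nat_lit 7) (nat_lit 5) (nat_lit 3) (nat_lit 7) (nat_lit 62) (nat_lit 126) r8_62 r5_126 (nat_lit 0) (nat_lit 0) (nat_lit 0) (nat_lit 0x7df57b4a56) (nat_lit 1001874744)]
noncomputable def e44_30 : List Rx := [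
  Rx.mk (nat_lit 495) (nat_lit 7) (nat_lit 5) (nat_lit 7) (nat_lit 7) (nat_lit 214) (nat_lit 164) r8_214 r10_164 (nat_lit 0) (nat_lit 0) (nat_lit 0) (nat_lit 0x7df2523cea) (nat_lit 1007934408)]
noncomputable def e44_31 : List Rx := [
  Rx.mk (nat_lit 204) (nat_lit 4) (nat_lit 1) (nat_lit 3) (nat_lit 6) (nat_lit 241) (nat_lit 295) r8_241 r5_295 (nat_lit 0) (nat_lit 0) (nat_lit 0) (nat_lit 0x7d60a6d832) (nat_lit 1287240552),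
  Rx.mk (nat_lit 205) (nat_lit 5) (nat_lit 1) (nat_lit 3) (nat_lit 7) (nat_lit 242) (nat_lit 296) r8_242 r5_296 (nat_lit 0) (nat_lit 0) (nat_lit 0) (nat_lit 0x7de9d244f2) (nat_lit 1024232040),
  Rx.mk (nat_lit 207) (nat_lit 7) (nat_lit 1) (nat_lit 3) (nat_lit 7) (nat_lit 243) (nat_lit 297) r8_243 r5_297 (nat_lit 0) (nat_lit 0) (nat_lit 0) (nat_lit 0x7dd8a1f808) (nat_lit 1057189536)]
noncomputable def e44_32 : List Rx := [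
  Rx.mk (nat_lit 204) (nat_lit 4) (nat_lit 1) (nat_lit 3) (nat_lit 6) (nat_lit 244) (nat_lit 376) r8_244 r11_376 (nat_lit 0) (nat_lit 0) (nat_lit 0) (nat_lit 0x7d6133cf62) (nat_lit 1286184744),
  Rx.mk (nat_lit 205) (nat_lit 5) (nat_lit 1) (nat_lit 3) (nat_lit 7) (nat_lit 245) (nat_lit 377) r8_245 r11_377 (nat_lit 0) (nat_lit 0) (nat_lit 0) (nat_lit 0x7de71770a2) (nat_lit 1029466152),
  Rx.mk (nat_lit 207) (nat_lit 7) (nat_lit 1) (nat_lit 3) (nat_lit 7) (nat_lit 246) (nat_lit 378) r8_246 r11_378 (nat_lit 0) (nat_lit 0) (nat_lit 0) (nat_lit 0x7de2f0331a) (nat_lit 1037429640),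
  Rx.mk (nat_lit 239) (nat_lit 7) (nat_lit 5) (nat_lit 3) (nat_lit 7) (nat_lit 247) (nat_lit 379) r8_247 r11_379 (nat_lit 0) (nat_lit 0) (nat_lit 0) (nat_lit 0x7dbdfec256) (nat_lit 1108264248)]
noncomputable def e44_33 : List Rx := [
  Rx.mk (nat_lit 223) (nat_lit 7) (nat_lit 3) (nat_lit 3) (nat_lit 7) (nat_lit 0) (nat_lit 141) r8_0 r0_141 (nat_lit 0) (nat_lit 0) (nat_lit 0) (nat_lit 0x7dde1b0072) (nat_lit 1046696040)]
noncomputable def e44_34 : List Rx := [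
  Rx.mk (nat_lit 8) (nat_lit 0) (nat_lit 1) (nat_lit 0) (nat_lit 2) (nat_lit 65) (nat_lit 262) r8_65 r0_262 (nat_lit 0) (nat_lit 0) (nat_lit 0) (nat_lit 0x69ec4571be) (nat_lit 10836602712),
  Rx.mk (nat_lit 11) (nat_lit 3) (nat_lit 1) (nat_lit 0) (nat_lit 3) (nat_lit 66) (nat_lit 263) r8_66 r0_263 (nat_lit 0) (nat_lit 0) (nat_lit 0) (nat_lit 0x7d93758b14) (nat_lit 1189822608),
  Rx.mk (nat_lit 203) (nat_lit 3) (nat_lit 1) (nat_lit 3) (nat_lit 7) (nat_lit 67) (nat_lit 264) r8_67 r0_264 (nat_lit 0) (nat_lit 0) (nat_lit 0) (nat_lit 0x7ddc6c3b60) (nat_lit 1049922432)]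
noncomputable def e44_35 : List Rx := [
  Rx.mk (nat_lit 0) (nat_lit 0) (nat_lit 0) (nat_lit 0) (nat_lit 0) (nat_lit 68) (nat_lit 161) r8_68 r6_161 (nat_lit 0) (nat_lit 0) (nat_lit 0) (nat_lit 0x1096296cda) (nat_lit 54687661704),
  Rx.mk (nat_lit 3) (nat_lit 3) (nat_lit 0) (nat_lit 0) (nat_lit 1) (nat_lit 74) (nat_lit 166) r8_74 r6_166 (nat_lit 0) (nat_lit 0) (nat_lit 0) (nat_lit 0x5019957692) (nat_lit 23511909096),
  Rx.mk (nat_lit 8) (nat_lit 0) (nat_lit 1) (nat_lit 0) (nat_lit 2) (nat_lit 69) (nat_lit 162) r8_69 r6_162 (nat_lit 0) (nat_lit 0) (nat_lit 0) (nat_lit 0x71f61f2c18) (nat_lit 6890888160),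
  Rx.mk (nat_lit 11) (nat_lit 3) (nat_lit 1) (nat_lit 0) (nat_lit 3) (nat_lit 75) (nat_lit 167) r8_75 r6_167 (nat_lit 0) (nat_lit 0) (nat_lit 0) (nat_lit 0x7dd000422c) (nat_lit 1073739888),
  Rx.mk (nat_lit 128) (nat_lit 0) (nat_lit 0) (nat_lit 2) (nat_lit 4) (nat_lit 70) (nat_lit 163) r8_70 r6_163 (nat_lit 0) (nat_lit 0) (nat_lit 0) (nat_lit 0x6a853e8194) (nat_lit 10543293072),
  Rx.mk (nat_lit 131) (nat_lit 3) (nat_lit 0) (nat_lit 2) (nat_lit 5) (nat_lit 76) (nat_lit 171) r8_76 r6_171 (nat_lit 0) (nat_lit 0) (nat_lit 0) (nat_lit 0x7d87fec28c) (nat_lit 1211803632),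
  Rx.mk (nat_lit 136) (nat_lit 0) (nat_lit 1) (nat_lit 2) (nat_lit 6) (nat_lit 71) (nat_lit 164) r8_71 r6_164 (nat_lit 0) (nat_lit 0) (nat_lit 0) (nat_lit 0x7dc10491f6) (nat_lit 1102468536),
  Rx.mk (nat_lit 139) (nat_lit 3) (nat_lit 1) (nat_lit 2) (nat_lit 7) (nat_lit 77) (nat_lit 172) r8_77 r6_172 (nat_lit 0) (nat_lit 0) (nat_lit 0) (nat_lit 0x7deecab566) (nat_lit 1014701688),
  Rx.mk (nat_lit 144) (nat_lit 0) (nat_lit 2) (nat_lit 2) (nat_lit 6) (nat_lit 72) (nat_lit 165) r8_72 r6_165 (nat_lit 0) (nat_lit 0) (nat_lit 0) (nat_lit 0x7c9b768bfc) (nat_lit 1665329328),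
  Rx.mk (nat_lit 146) (nat_lit 2) (nat_lit 2) (nat_lit 2) (nat_lit 7) (nat_lit 73) (nat_lit 174) r8_73 r6_174 (nat_lit 0) (nat_lit 0) (nat_lit 0) (nat_lit 0x7de7e5a3be) (nat_lit 1027921752),
  Rx.mk (nat_lit 147) (nat_lit 3) (nat_lit 2) (nat_lit 2) (nat_lit 7) (nat_lit 78) (nat_lit 173) r8_78 r6_173 (nat_lit 0) (nat_lit 0) (nat_lit 0) (nat_lit 0x7de3b0e70e) (nat_lit 1035986328),
  Rx.mk (nat_lit 195) (nat_lit 3) (nat_lit 0) (nat_lit 3) (nat_lit 5) (nat_lit 79) (nat_lit 168) r8_79 r6_168 (nat_lit 0) (nat_lit 0) (nat_lit 0) (nat_lit 0x7d16a3b8ae) (nat_lit 1429151256),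
  Rx.mk (nat_lit 203) (nat_lit 3) (nat_lit 1) (nat_lit 3) (nat_lit 7) (nat_lit 80) (nat_lit 169) r8_80 r6_169 (nat_lit 0) (nat_lit 0) (nat_lit 0) (nat_lit 0x7de0fcd252) (nat_lit 1041169896),
  Rx.mk (nat_lit 219) (nat_lit 3) (nat_lit 3) (nat_lit 3) (nat_lit 7) (nat_lit 81) (nat_lit 170) r8_81 r6_170 (nat_lit 0) (nat_lit 0) (nat_lit 0) (nat_lit 0x7dc460fc2c) (nat_lit 1096024176),
  Rx.mk (nat_lit 223) (nat_lit 7) (nat_lit 3) (nat_lit 3) (nat_lit 7) (nat_lit 82) (nat_lit 160) r8_82 r6_160 (nat_lit 0) (nat_lit 0) (nat_lit 0) (nat_lit 0x7ddda00822) (nat_lit 1047617064)]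
noncomputable def e44_36 : List Rx := [
  Rx.mk (nat_lit 8) (nat_lit 0) (nat_lit 1) (nat_lit 0) (nat_lit 2) (nat_lit 260) (nat_lit 289) r8_260 r2_289 (nat_lit 0) (nat_lit 0) (nat_lit 0) (nat_lit 0x6d72596cf8) (nat_lit 9106961760),
  Rx.mk (nat_lit 9) (nat_lit 1) (nat_lit 1) (nat_lit 0) (nat_lit 3) (nat_lit 262) (nat_lit 290) r8_262 r2_290 (nat_lit 0) (nat_lit 0) (nat_lit 0) (nat_lit 0x7cf90c5242) (nat_lit 1485889704),
  Rx.mk (nat_lit 73) (nat_lit 1) (nat_lit 1) (nat_lit 1) (nat_lit 7) (nat_lit 263) (nat_lit 291) r8_263 r2_291 (nat_lit 0) (nat_lit 0) (nat_lit 0) (nat_lit 0x7db6e7d3cc) (nat_lit 1121857776),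
  Rx.mk (nat_lit 200) (nat_lit 0) (nat_lit 1) (nat_lit 3) (nat_lit 6) (nat_lit 261) (nat_lit 292) r8_261 r2_292 (nat_lit 0) (nat_lit 0) (nat_lit 0) (nat_lit 0x7de2ed334a) (nat_lit 1037452104),
  Rx.mk (nat_lit 201) (nat_lit 1) (nat_lit 1) (nat_lit 3) (nat_lit 7) (nat_lit 264) (nat_lit 293) r8_264 r2_293 (nat_lit 0) (nat_lit 0) (nat_lit 0) (nat_lit 0x7de452dcee) (nat_lit 1034773272),
  Rx.mk (nat_lit 203) (nat_lit 3) (nat_lit 1) (nat_lit 3) (nat_lit 7) (nat_lit 265) (nat_lit 294) r8_265 r2_294 (nat_lit 0) (nat_lit 0) (nat_lit 0) (nat_lit 0x7df79428c6) (nat_lit 997853688)]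
noncomputable def e44_37 : List Rx := [
  Rx.mk (nat_lit 0) (nat_lit 0) (nat_lit 0) (nat_lit 0) (nat_lit 0) (nat_lit 267) (nat_lit 267) r8_267 r8_267 (nat_lit 0) (nat_lit 0) (nat_lit 0) (nat_lit 0x35cba1d01c) (nat_lit 36423562032),
  Rx.mk (nat_lit 1) (nat_lit 1) (nat_lit 0) (nat_lit 0) (nat_lit 1) (nat_lit 274) (nat_lit 268) r8_274 r8_268 (nat_lit 0) (nat_lit 0) (nat_lit 0) (nat_lit 0x686164415c) (nat_lit 11593743408),
  Rx.mk (nat_lit 8) (nat_lit 0) (nat_lit 1) (nat_lit 0) (nat_lit 2) (nat_lit 268) (nat_lit 274) r8_268 r8_274 (nat_lit 0) (nat_lit 0) (nat_lit 0) (nat_lit 0x686164415c) (nat_lit 11593743408),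
  Rx.mk (nat_lit 9) (nat_lit 1) (nat_lit 1) (nat_lit 0) (nat_lit 3) (nat_lit 275) (nat_lit 275) r8_275 r8_275 (nat_lit 0) (nat_lit 0) (nat_lit 0) (nat_lit 0x7dccfb3280) (nat_lit 1079529984),
  Rx.mk (nat_lit 73) (nat_lit 1) (nat_lit 1) (nat_lit 1) (nat_lit 7) (nat_lit 276) (nat_lit 276) r8_276 r8_276 (nat_lit 0) (nat_lit 0) (nat_lit 0) (nat_lit 0x7dde0fc126) (nat_lit 1046780280),
  Rx.mk (nat_lit 128) (nat_lit 0) (nat_lit 0) (nat_lit 2) (nat_lit 4) (nat_lit 269) (nat_lit 272) r8_269 r8_272 (nat_lit 0) (nat_lit 0) (nat_lit 0) (nat_lit 0x78cd7eaf48) (nat_lit 3532812192),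
  Rx.mk (nat_lit 129) (nat_lit 1) (nat_lit 0) (nat_lit 2) (nat_lit 5) (nat_lit 277) (nat_lit 273) r8_277 r8_273 (nat_lit 0) (nat_lit 0) (nat_lit 0) (nat_lit 0x7d8c7ffa74) (nat_lit 1203166224),
  Rx.mk (nat_lit 136) (nat_lit 0) (nat_lit 1) (nat_lit 2) (nat_lit 6) (nat_lit 270) (nat_lit 280) r8_270 r8_280 (nat_lit 0) (nat_lit 0) (nat_lit 0) (nat_lit 0x7dc999e898) (nat_lit 1086010848),
  Rx.mk (nat_lit 137) (nat_lit 1) (nat_lit 1) (nat_lit 2) (nat_lit 7) (nat_lit 278) (nat_lit 281) r8_278 r8_281 (nat_lit 0) (nat_lit 0) (nat_lit 0) (nat_lit 0x7dd3d864a6) (nat_lit 1066368888),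
  Rx.mk (nat_lit 144) (nat_lit 0) (nat_lit 2) (nat_lit 2) (nat_lit 6) (nat_lit 271) (nat_lit 283) r8_271 r8_283 (nat_lit 0) (nat_lit 0) (nat_lit 0) (nat_lit 0x7dc3dca472) (nat_lit 1097015400),
  Rx.mk (nat_lit 145) (nat_lit 1) (nat_lit 2) (nat_lit 2) (nat_lit 7) (nat_lit 279) (nat_lit 284) r8_279 r8_284 (nat_lit 0) (nat_lit 0) (nat_lit 0) (nat_lit 0x7dc4501d3a) (nat_lit 1096150536),
  Rx.mk (nat_lit 146) (nat_lit 2) (nat_lit 2) (nat_lit 2) (nat_lit 7) (nat_lit 282) (nat_lit 285) r8_282 r8_285 (nat_lit 0) (nat_lit 0) (nat_lit 0) (nat_lit 0x7dc62bdf7c) (nat_lit 1092587184),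
  Rx.mk (nat_lit 192) (nat_lit 0) (nat_lit 0) (nat_lit 3) (nat_lit 4) (nat_lit 272) (nat_lit 269) r8_272 r8_269 (nat_lit 0) (nat_lit 0) (nat_lit 0) (nat_lit 0x78cd7eaf48) (nat_lit 3532812192),
  Rx.mk (nat_lit 193) (nat_lit 1) (nat_lit 0) (nat_lit 3) (nat_lit 5) (nat_lit 280) (nat_lit 270) r8_280 r8_270 (nat_lit 0) (nat_lit 0) (nat_lit 0) (nat_lit 0x7dc999e898) (nat_lit 1086010848),
  Rx.mk (nat_lit 195) (nat_lit 3) (nat_lit 0) (nat_lit 3) (nat_lit 5) (nat_lit 283) (nat_lit 271) r8_283 r8_271 (nat_lit 0) (nat_lit 0) (nat_lit 0) (nat_lit 0x7dc3dca472) (nat_lit 1097015400),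
  Rx.mk (nat_lit 200) (nat_lit 0) (nat_lit 1) (nat_lit 3) (nat_lit 6) (nat_lit 273) (nat_lit 277) r8_273 r8_277 (nat_lit 0) (nat_lit 0) (nat_lit 0) (nat_lit 0x7d8c7ffa74) (nat_lit 1203166224),
  Rx.mk (nat_lit 201) (nat_lit 1) (nat_lit 1) (nat_lit 3) (nat_lit 7) (nat_lit 281) (nat_lit 278) r8_281 r8_278 (nat_lit 0) (nat_lit 0) (nat_lit 0) (nat_lit 0x7dd3d864a6) (nat_lit 1066368888),
  Rx.mk (nat_lit 203) (nat_lit 3) (nat_lit 1) (nat_lit 3) (nat_lit 7) (nat_lit 284) (nat_lit 279) r8_284 r8_279 (nat_lit 0) (nat_lit 0) (nat_lit 0) (nat_lit 0x7dc4501d3a) (nat_lit 1096150536),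
  Rx.mk (nat_lit 219) (nat_lit 3) (nat_lit 3) (nat_lit 3) (nat_lit 7) (nat_lit 285) (nat_lit 282) r8_285 r8_282 (nat_lit 0) (nat_lit 0) (nat_lit 0) (nat_lit 0x7dc62bdf7c) (nat_lit 1092587184)]
noncomputable def e44_38 : List Rx := [
  Rx.mk (nat_lit 73) (nat_lit 1) (nat_lit 1) (nat_lit 1) (nat_lit 7) (nat_lit 266) (nat_lit 299) r8_266 r8_299 (nat_lit 0) (nat_lit 0) (nat_lit 0) (nat_lit 0x7de011610a) (nat_lit 1042933320)]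
noncomputable def e44_39 : List Rx := [
  Rx.mk (nat_lit 8) (nat_lit 0) (nat_lit 1) (nat_lit 0) (nat_lit 2) (nat_lit 83) (nat_lit 269) r8_83 r1_269 (nat_lit 0) (nat_lit 0) (nat_lit 0) (nat_lit 0x6f59076032) (nat_lit 8173804392),
  Rx.mk (nat_lit 11) (nat_lit 3) (nat_lit 1) (nat_lit 0) (nat_lit 3) (nat_lit 84) (nat_lit 270) r8_84 r1_270 (nat_lit 0) (nat_lit 0) (nat_lit 0) (nat_lit 0x7dc4b5b6e0) (nat_lit 1095389568),
  Rx.mk (nat_lit 203) (nat_lit 3) (nat_lit 1) (nat_lit 3) (nat_lit 7) (nat_lit 85) (nat_lit 271) r8_85 r1_271 (nat_lit 0) (nat_lit 0) (nat_lit 0) (nat_lit 0x7de721effa) (nat_lit 1029387528)]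
noncomputable def e44_40 : List Rx := [
  Rx.mk (nat_lit 0) (nat_lit 0) (nat_lit 0) (nat_lit 0) (nat_lit 0) (nat_lit 86) (nat_lit 133) r8_86 r7_133 (nat_lit 0) (nat_lit 0) (nat_lit 0) (nat_lit 0x4dd0ff623c) (nat_lit 24632792496),
  Rx.mk (nat_lit 3) (nat_lit 3) (nat_lit 0) (nat_lit 0) (nat_lit 1) (nat_lit 92) (nat_lit 138) r8_92 r7_138 (nat_lit 0) (nat_lit 0) (nat_lit 0) (nat_lit 0x72540acd00) (nat_lit 6710805504),
  Rx.mk (nat_lit 8) (nat_lit 0) (nat_lit 1) (nat_lit 0) (nat_lit 2) (nat_lit 87) (nat_lit 134) r8_87 r7_134 (nat_lit 0) (nat_lit 0) (nat_lit 0) (nat_lit 0x726c30aa8a) (nat_lit 6664504392),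
  Rx.mk (nat_lit 11) (nat_lit 3) (nat_lit 1) (nat_lit 0) (nat_lit 3) (nat_lit 93) (nat_lit 139) r8_93 r7_139 (nat_lit 0) (nat_lit 0) (nat_lit 0) (nat_lit 0x7defee632a) (nat_lit 1012517064),
  Rx.mk (nat_lit 128) (nat_lit 0) (nat_lit 0) (nat_lit 2) (nat_lit 4) (nat_lit 88) (nat_lit 135) r8_88 r7_135 (nat_lit 0) (nat_lit 0) (nat_lit 0) (nat_lit 0x79a02d0390) (nat_lit 3128853312),
  Rx.mk (nat_lit 131) (nat_lit 3) (nat_lit 0) (nat_lit 2) (nat_lit 5) (nat_lit 94) (nat_lit 143) r8_94 r7_143 (nat_lit 0) (nat_lit 0) (nat_lit 0) (nat_lit 0x7de5f8a290) (nat_lit 1031614272),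
  Rx.mk (nat_lit 136) (nat_lit 0) (nat_lit 1) (nat_lit 2) (nat_lit 6) (nat_lit 89) (nat_lit 136) r8_89 r7_136 (nat_lit 0) (nat_lit 0) (nat_lit 0) (nat_lit 0x7dcb1d3062) (nat_lit 1083110184),
  Rx.mk (nat_lit 139) (nat_lit 3) (nat_lit 1) (nat_lit 2) (nat_lit 7) (nat_lit 95) (nat_lit 144) r8_95 r7_144 (nat_lit 0) (nat_lit 0) (nat_lit 0) (nat_lit 0x7dd143cdf2) (nat_lit 1071316584),
  Rx.mk (nat_lit 144) (nat_lit 0) (nat_lit 2) (nat_lit 2) (nat_lit 6) (nat_lit 90) (nat_lit 137) r8_90 r7_137 (nat_lit 0) (nat_lit 0) (nat_lit 0) (nat_lit 0x7dc9350ee6) (nat_lit 1086766200),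
  Rx.mk (nat_lit 146) (nat_lit 2) (nat_lit 2) (nat_lit 2) (nat_lit 7) (nat_lit 91) (nat_lit 145) r8_91 r7_145 (nat_lit 0) (nat_lit 0) (nat_lit 0) (nat_lit 0x7df0bff610) (nat_lit 1010947392),
  Rx.mk (nat_lit 195) (nat_lit 3) (nat_lit 0) (nat_lit 3) (nat_lit 5) (nat_lit 96) (nat_lit 140) r8_96 r7_140 (nat_lit 0) (nat_lit 0) (nat_lit 0) (nat_lit 0x7da6639c20) (nat_lit 1153526400),
  Rx.mk (nat_lit 203) (nat_lit 3) (nat_lit 1) (nat_lit 3) (nat_lit 7) (nat_lit 97) (nat_lit 141) r8_97 r7_141 (nat_lit 0) (nat_lit 0) (nat_lit 0) (nat_lit 0x7dee723aee) (nat_lit 1015364376),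
  Rx.mk (nat_lit 219) (nat_lit 3) (nat_lit 3) (nat_lit 3) (nat_lit 7) (nat_lit 98) (nat_lit 142) r8_98 r7_142 (nat_lit 0) (nat_lit 0) (nat_lit 0) (nat_lit 0x7db8202046) (nat_lit 1119518712)]
noncomputable def e44_41 : List Rx := [
  Rx.mk (nat_lit 223) (nat_lit 7) (nat_lit 3) (nat_lit 3) (nat_lit 7) (nat_lit 1) (nat_lit 153) r8_1 r1_153 (nat_lit 0) (nat_lit 0) (nat_lit 0) (nat_lit 0x7de94bad5c) (nat_lit 1025240112)]
noncomputable def e44_42 : List Rx := [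
  Rx.mk (nat_lit 223) (nat_lit 7) (nat_lit 3) (nat_lit 3) (nat_lit 7) (nat_lit 11) (nat_lit 151) r8_11 r2_151 (nat_lit 0) (nat_lit 0) (nat_lit 0) (nat_lit 0x7dc7103136) (nat_lit 1090877112),
  Rx.mk (nat_lit 255) (nat_lit 7) (nat_lit 7) (nat_lit 3) (nat_lit 7) (nat_lit 12) (nat_lit 150) r8_12 r2_150 (nat_lit 0) (nat_lit 0) (nat_lit 0) (nat_lit 0x7dd4cc7564) (nat_lit 1064540880),
  Rx.mk (nat_lit 292) (nat_lit 4) (nat_lit 4) (nat_lit 4) (nat_lit 0) (nat_lit 2) (nat_lit 146) r8_2 r2_146 (nat_lit 0) (nat_lit 0) (nat_lit 0) (nat_lit 0x22bc65d6ec) (nat_lit 45778986864),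
  Rx.mk (nat_lit 294) (nat_lit 6) (nat_lit 4) (nat_lit 4) (nat_lit 1) (nat_lit 5) (nat_lit 152) r8_5 r2_152 (nat_lit 0) (nat_lit 0) (nat_lit 0) (nat_lit 0x6cc1809b36) (nat_lit 9446047416),
  Rx.mk (nat_lit 310) (nat_lit 6) (nat_lit 6) (nat_lit 4) (nat_lit 3) (nat_lit 6) (nat_lit 153) r8_6 r2_153 (nat_lit 0) (nat_lit 0) (nat_lit 0) (nat_lit 0x7b78681e06) (nat_lit 2223399672),
  Rx.mk (nat_lit 438) (nat_lit 6) (nat_lit 6) (nat_lit 6) (nat_lit 7) (nat_lit 7) (nat_lit 157) r8_7 r2_157 (nat_lit 0) (nat_lit 0) (nat_lit 0) (nat_lit 0x7de2b616bc) (nat_lit 1037864880),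
  Rx.mk (nat_lit 484) (nat_lit 4) (nat_lit 4) (nat_lit 7) (nat_lit 4) (nat_lit 3) (nat_lit 147) r8_3 r2_147 (nat_lit 0) (nat_lit 0) (nat_lit 0) (nat_lit 0x69ae26f3e4) (nat_lit 10955709648),
  Rx.mk (nat_lit 486) (nat_lit 6) (nat_lit 4) (nat_lit 7) (nat_lit 5) (nat_lit 8) (nat_lit 154) r8_8 r2_154 (nat_lit 0) (nat_lit 0) (nat_lit 0) (nat_lit 0x7d4d86ea44) (nat_lit 1323910224),
  Rx.mk (nat_lit 502) (nat_lit 6) (nat_lit 6) (nat_lit 7) (nat_lit 7) (nat_lit 9) (nat_lit 156) r8_9 r2_156 (nat_lit 0) (nat_lit 0) (nat_lit 0) (nat_lit 0x7df040de02) (nat_lit 1011899304),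
  Rx.mk (nat_lit 508) (nat_lit 4) (nat_lit 7) (nat_lit 7) (nat_lit 6) (nat_lit 4) (nat_lit 148) r8_4 r2_148 (nat_lit 0) (nat_lit 0) (nat_lit 0) (nat_lit 0x7bd6535ef4) (nat_lit 2043319824),
  Rx.mk (nat_lit 510) (nat_lit 6) (nat_lit 7) (nat_lit 7) (nat_lit 7) (nat_lit 10) (nat_lit 155) r8_10 r2_155 (nat_lit 0) (nat_lit 0) (nat_lit 0) (nat_lit 0x7da7826a32) (nat_lit 1151378280),
  Rx.mk (nat_lit 511) (nat_lit 7) (nat_lit 7) (nat_lit 7) (nat_lit 7) (nat_lit 13) (nat_lit 149) r8_13 r2_149 (nat_lit 0) (nat_lit 0) (nat_lit 0) (nat_lit 0x7db8d11536) (nat_lit 1118193336)]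
noncomputable def e44_43 : List Rx := [
  Rx.mk (nat_lit 0) (nat_lit 0) (nat_lit 0) (nat_lit 0) (nat_lit 0) (nat_lit 99) (nat_lit 273) r8_99 r7_273 (nat_lit 0) (nat_lit 0) (nat_lit 0) (nat_lit 0x5e013b8ec) (nat_lit 59945324400),
  Rx.mk (nat_lit 3) (nat_lit 3) (nat_lit 0) (nat_lit 0) (nat_lit 1) (nat_lit 103) (nat_lit 274) r8_103 r7_274 (nat_lit 0) (nat_lit 0) (nat_lit 0) (nat_lit 0x6e391d1ff6) (nat_lit 8725851576),
  Rx.mk (nat_lit 128) (nat_lit 0) (nat_lit 0) (nat_lit 2) (nat_lit 4) (nat_lit 100) (nat_lit 276) r8_100 r7_276 (nat_lit 0) (nat_lit 0) (nat_lit 0) (nat_lit 0x70d5b03428) (nat_lit 7443929376),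
  Rx.mk (nat_lit 131) (nat_lit 3) (nat_lit 0) (nat_lit 2) (nat_lit 5) (nat_lit 104) (nat_lit 277) r8_104 r7_277 (nat_lit 0) (nat_lit 0) (nat_lit 0) (nat_lit 0x7da28699f4) (nat_lit 1160933904),
  Rx.mk (nat_lit 144) (nat_lit 0) (nat_lit 2) (nat_lit 2) (nat_lit 6) (nat_lit 101) (nat_lit 280) r8_101 r7_280 (nat_lit 0) (nat_lit 0) (nat_lit 0) (nat_lit 0x7cfa07e288) (nat_lit 1484005536),
  Rx.mk (nat_lit 146) (nat_lit 2) (nat_lit 2) (nat_lit 2) (nat_lit 7) (nat_lit 102) (nat_lit 282) r8_102 r7_282 (nat_lit 0) (nat_lit 0) (nat_lit 0) (nat_lit 0x7dc4f5d2de) (nat_lit 1094909400),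
  Rx.mk (nat_lit 147) (nat_lit 3) (nat_lit 2) (nat_lit 2) (nat_lit 7) (nat_lit 105) (nat_lit 281) r8_105 r7_281 (nat_lit 0) (nat_lit 0) (nat_lit 0) (nat_lit 0x7df1f9c272) (nat_lit 1008597096),
  Rx.mk (nat_lit 195) (nat_lit 3) (nat_lit 0) (nat_lit 3) (nat_lit 5) (nat_lit 106) (nat_lit 275) r8_106 r7_275 (nat_lit 0) (nat_lit 0) (nat_lit 0) (nat_lit 0x7cf6673c96) (nat_lit 1490960952),
  Rx.mk (nat_lit 219) (nat_lit 3) (nat_lit 3) (nat_lit 3) (nat_lit 7) (nat_lit 107) (nat_lit 278) r8_107 r7_278 (nat_lit 0) (nat_lit 0) (nat_lit 0) (nat_lit 0x7dcea1581c) (nat_lit 1076368176),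
  Rx.mk (nat_lit 223) (nat_lit 7) (nat_lit 3) (nat_lit 3) (nat_lit 7) (nat_lit 108) (nat_lit 279) r8_108 r7_279 (nat_lit 0) (nat_lit 0) (nat_lit 0) (nat_lit 0x7de4ad9742) (nat_lit 1034093736)]
noncomputable def e44_44 : List Rx := [
  Rx.mk (nat_lit 0) (nat_lit 0) (nat_lit 0) (nat_lit 0) (nat_lit 0) (nat_lit 109) (nat_lit 121) r8_109 r8_121 (nat_lit 0) (nat_lit 0) (nat_lit 0) (nat_lit 0x1d7bba276) (nat_lit 61924736952),
  Rx.mk (nat_lit 3) (nat_lit 3) (nat_lit 0) (nat_lit 0) (nat_lit 1) (nat_lit 115) (nat_lit 124) r8_115 r8_124 (nat_lit 0) (nat_lit 0) (nat_lit 0) (nat_lit 0x5ed8d0b41e) (nat_lit 16273295064),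
  Rx.mk (nat_lit 27) (nat_lit 3) (nat_lit 3) (nat_lit 0) (nat_lit 3) (nat_lit 116) (nat_lit 125) r8_116 r8_125 (nat_lit 0) (nat_lit 0) (nat_lit 0) (nat_lit 0x73b2d97eb6) (nat_lit 6038168760),
  Rx.mk (nat_lit 128) (nat_lit 0) (nat_lit 0) (nat_lit 2) (nat_lit 4) (nat_lit 110) (nat_lit 122) r8_110 r8_122 (nat_lit 0) (nat_lit 0) (nat_lit 0) (nat_lit 0x532e67865c) (nat_lit 21999427632),
  Rx.mk (nat_lit 131) (nat_lit 3) (nat_lit 0) (nat_lit 2) (nat_lit 5) (nat_lit 117) (nat_lit 127) r8_117 r8_127 (nat_lit 0) (nat_lit 0) (nat_lit 0) (nat_lit 0x7cadb6a7e8) (nat_lit 1630336032),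
  Rx.mk (nat_lit 144) (nat_lit 0) (nat_lit 2) (nat_lit 2) (nat_lit 6) (nat_lit 111) (nat_lit 123) r8_111 r8_123 (nat_lit 0) (nat_lit 0) (nat_lit 0) (nat_lit 0x79b20905be) (nat_lit 3094609752),
  Rx.mk (nat_lit 146) (nat_lit 2) (nat_lit 2) (nat_lit 2) (nat_lit 7) (nat_lit 112) (nat_lit 132) r8_112 r8_132 (nat_lit 0) (nat_lit 0) (nat_lit 0) (nat_lit 0x7dbc36ded6) (nat_lit 1111678776),
  Rx.mk (nat_lit 147) (nat_lit 3) (nat_lit 2) (nat_lit 2) (nat_lit 7) (nat_lit 118) (nat_lit 129) r8_118 r8_129 (nat_lit 0) (nat_lit 0) (nat_lit 0) (nat_lit 0x7df4603c08) (nat_lit 1003994784),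
  Rx.mk (nat_lit 155) (nat_lit 3) (nat_lit 3) (nat_lit 2) (nat_lit 7) (nat_lit 119) (nat_lit 128) r8_119 r8_128 (nat_lit 0) (nat_lit 0) (nat_lit 0) (nat_lit 0x7d78fd12b6) (nat_lit 1240577208),
  Rx.mk (nat_lit 219) (nat_lit 3) (nat_lit 3) (nat_lit 3) (nat_lit 7) (nat_lit 120) (nat_lit 126) r8_120 r8_126 (nat_lit 0) (nat_lit 0) (nat_lit 0) (nat_lit 0x7daae6b3ea) (nat_lit 1144874952),
  Rx.mk (nat_lit 223) (nat_lit 7) (nat_lit 3) (nat_lit 3) (nat_lit 7) (nat_lit 130) (nat_lit 114) r8_130 r8_114 (nat_lit 0) (nat_lit 0) (nat_lit 0) (nat_lit 0x7dbc3f7e4c) (nat_lit 1111614192),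
  Rx.mk (nat_lit 255) (nat_lit 7) (nat_lit 7) (nat_lit 3) (nat_lit 7) (nat_lit 131) (nat_lit 113) r8_131 r8_113 (nat_lit 0) (nat_lit 0) (nat_lit 0) (nat_lit 0x7da45e3c78) (nat_lit 1157401440),
  Rx.mk (nat_lit 292) (nat_lit 4) (nat_lit 4) (nat_lit 4) (nat_lit 0) (nat_lit 121) (nat_lit 109) r8_121 r8_109 (nat_lit 0) (nat_lit 0) (nat_lit 0) (nat_lit 0x1d7bba276) (nat_lit 61924736952),
  Rx.mk (nat_lit 294) (nat_lit 6) (nat_lit 4) (nat_lit 4) (nat_lit 1) (nat_lit 124) (nat_lit 115) r8_124 r8_115 (nat_lit 0) (nat_lit 0) (nat_lit 0) (nat_lit 0x5ed8d0b41e) (nat_lit 16273295064),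
  Rx.mk (nat_lit 310) (nat_lit 6) (nat_lit 6) (nat_lit 4) (nat_lit 3) (nat_lit 125) (nat_lit 116) r8_125 r8_116 (nat_lit 0) (nat_lit 0) (nat_lit 0) (nat_lit 0x73b2d97eb6) (nat_lit 6038168760),
  Rx.mk (nat_lit 402) (nat_lit 2) (nat_lit 2) (nat_lit 6) (nat_lit 7) (nat_lit 113) (nat_lit 131) r8_113 r8_131 (nat_lit 0) (nat_lit 0) (nat_lit 0) (nat_lit 0x7da45e3c78) (nat_lit 1157401440),
  Rx.mk (nat_lit 434) (nat_lit 2) (nat_lit 6) (nat_lit 6) (nat_lit 7) (nat_lit 114) (nat_lit 130) r8_114 r8_130 (nat_lit 0) (nat_lit 0) (nat_lit 0) (nat_lit 0x7dbc3f7e4c) (nat_lit 1111614192),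
  Rx.mk (nat_lit 438) (nat_lit 6) (nat_lit 6) (nat_lit 6) (nat_lit 7) (nat_lit 126) (nat_lit 120) r8_126 r8_120 (nat_lit 0) (nat_lit 0) (nat_lit 0) (nat_lit 0x7daae6b3ea) (nat_lit 1144874952),
  Rx.mk (nat_lit 484) (nat_lit 4) (nat_lit 4) (nat_lit 7) (nat_lit 4) (nat_lit 122) (nat_lit 110) r8_122 r8_110 (nat_lit 0) (nat_lit 0) (nat_lit 0) (nat_lit 0x532e67865c) (nat_lit 21999427632),
  Rx.mk (nat_lit 486) (nat_lit 6) (nat_lit 4) (nat_lit 7) (nat_lit 5) (nat_lit 127) (nat_lit 117) r8_127 r8_117 (nat_lit 0) (nat_lit 0) (nat_lit 0) (nat_lit 0x7cadb6a7e8) (nat_lit 1630336032),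
  Rx.mk (nat_lit 502) (nat_lit 6) (nat_lit 6) (nat_lit 7) (nat_lit 7) (nat_lit 128) (nat_lit 119) r8_128 r8_119 (nat_lit 0) (nat_lit 0) (nat_lit 0) (nat_lit 0x7d78fd12b6) (nat_lit 1240577208),
  Rx.mk (nat_lit 508) (nat_lit 4) (nat_lit 7) (nat_lit 7) (nat_lit 6) (nat_lit 123) (nat_lit 111) r8_123 r8_111 (nat_lit 0) (nat_lit 0) (nat_lit 0) (nat_lit 0x79b20905be) (nat_lit 3094609752),
  Rx.mk (nat_lit 510) (nat_lit 6) (nat_lit 7) (nat_lit 7) (nat_lit 7) (nat_lit 129) (nat_lit 118) r8_129 r8_118 (nat_lit 0) (nat_lit 0) (nat_lit 0) (nat_lit 0x7df4603c08) (nat_lit 1003994784),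
  Rx.mk (nat_lit 511) (nat_lit 7) (nat_lit 7) (nat_lit 7) (nat_lit 7) (nat_lit 132) (nat_lit 112) r8_132 r8_112 (nat_lit 0) (nat_lit 0) (nat_lit 0) (nat_lit 0x7dbc36ded6) (nat_lit 1111678776)]
noncomputable def e44_45 : List Rx := [
  Rx.mk (nat_lit 292) (nat_lit 4) (nat_lit 4) (nat_lit 4) (nat_lit 0) (nat_lit 148) (nat_lit 148) r8_148 r8_148 (nat_lit 0) (nat_lit 0) (nat_lit 0) (nat_lit 0x3e5d013194) (nat_lit 32217997968),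
  Rx.mk (nat_lit 294) (nat_lit 6) (nat_lit 4) (nat_lit 4) (nat_lit 1) (nat_lit 151) (nat_lit 149) r8_151 r8_149 (nat_lit 0) (nat_lit 0) (nat_lit 0) (nat_lit 0x6d5949fe08) (nat_lit 9155012256),
  Rx.mk (nat_lit 310) (nat_lit 6) (nat_lit 6) (nat_lit 4) (nat_lit 3) (nat_lit 152) (nat_lit 150) r8_152 r8_150 (nat_lit 0) (nat_lit 0) (nat_lit 0) (nat_lit 0x7d406dbbe4) (nat_lit 1349024976),
  Rx.mk (nat_lit 438) (nat_lit 6) (nat_lit 6) (nat_lit 6) (nat_lit 7) (nat_lit 153) (nat_lit 154) r8_153 r8_154 (nat_lit 0) (nat_lit 0) (nat_lit 0) (nat_lit 0x7de2fc9254) (nat_lit 1037336976),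
  Rx.mk (nat_lit 484) (nat_lit 4) (nat_lit 4) (nat_lit 7) (nat_lit 4) (nat_lit 149) (nat_lit 151) r8_149 r8_151 (nat_lit 0) (nat_lit 0) (nat_lit 0) (nat_lit 0x6d5949fe08) (nat_lit 9155012256),
  Rx.mk (nat_lit 508) (nat_lit 4) (nat_lit 7) (nat_lit 7) (nat_lit 6) (nat_lit 150) (nat_lit 152) r8_150 r8_152 (nat_lit 0) (nat_lit 0) (nat_lit 0) (nat_lit 0x7d406dbbe4) (nat_lit 1349024976),
  Rx.mk (nat_lit 511) (nat_lit 7) (nat_lit 7) (nat_lit 7) (nat_lit 7) (nat_lit 154) (nat_lit 153) r8_154 r8_153 (nat_lit 0) (nat_lit 0) (nat_lit 0) (nat_lit 0x7de2fc9254) (nat_lit 1037336976)]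
noncomputable def e44_46 : List Rx := [
  Rx.mk (nat_lit 199) (nat_lit 7) (nat_lit 0) (nat_lit 3) (nat_lit 5) (nat_lit 15) (nat_lit 128) r8_15 r4_128 (nat_lit 0) (nat_lit 0) (nat_lit 0) (nat_lit 0x7de2b8b692) (nat_lit 1037845224),
  Rx.mk (nat_lit 207) (nat_lit 7) (nat_lit 1) (nat_lit 3) (nat_lit 7) (nat_lit 16) (nat_lit 129) r8_16 r4_129 (nat_lit 0) (nat_lit 0) (nat_lit 0) (nat_lit 0x7df79428c6) (nat_lit 997853688),
  Rx.mk (nat_lit 223) (nat_lit 7) (nat_lit 3) (nat_lit 3) (nat_lit 7) (nat_lit 17) (nat_lit 130) r8_17 r4_130 (nat_lit 0) (nat_lit 0) (nat_lit 0) (nat_lit 0x7dd77c6a62) (nat_lit 1059388200)]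
noncomputable def e44_47 : List Rx := [
  Rx.mk (nat_lit 11) (nat_lit 3) (nat_lit 1) (nat_lit 0) (nat_lit 3) (nat_lit 133) (nat_lit 276) r8_133 r4_276 (nat_lit 0) (nat_lit 0) (nat_lit 0) (nat_lit 0x7cdf86cab4) (nat_lit 1534824720),
  Rx.mk (nat_lit 203) (nat_lit 3) (nat_lit 1) (nat_lit 3) (nat_lit 7) (nat_lit 134) (nat_lit 277) r8_134 r4_277 (nat_lit 0) (nat_lit 0) (nat_lit 0) (nat_lit 0x7debb286ec) (nat_lit 1020634992),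
  Rx.mk (nat_lit 207) (nat_lit 7) (nat_lit 1) (nat_lit 3) (nat_lit 7) (nat_lit 135) (nat_lit 278) r8_135 r4_278 (nat_lit 0) (nat_lit 0) (nat_lit 0) (nat_lit 0x7deeb9d674) (nat_lit 1014828048)]
noncomputable def e44_48 : List Rx := [
  Rx.mk (nat_lit 3) (nat_lit 3) (nat_lit 0) (nat_lit 0) (nat_lit 1) (nat_lit 136) (nat_lit 120) r8_136 r9_120 (nat_lit 0) (nat_lit 0) (nat_lit 0) (nat_lit 0x71a1bf9266) (nat_lit 7052665464),
  Rx.mk (nat_lit 11) (nat_lit 3) (nat_lit 1) (nat_lit 0) (nat_lit 3) (nat_lit 137) (nat_lit 121) r8_137 r9_121 (nat_lit 0) (nat_lit 0) (nat_lit 0) (nat_lit 0x7ce5b0c80e) (nat_lit 1523005848),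
  Rx.mk (nat_lit 131) (nat_lit 3) (nat_lit 0) (nat_lit 2) (nat_lit 5) (nat_lit 138) (nat_lit 124) r8_138 r9_124 (nat_lit 0) (nat_lit 0) (nat_lit 0) (nat_lit 0x7ddb1ef036) (nat_lit 1052418744),
  Rx.mk (nat_lit 139) (nat_lit 3) (nat_lit 1) (nat_lit 2) (nat_lit 7) (nat_lit 139) (nat_lit 125) r8_139 r9_125 (nat_lit 0) (nat_lit 0) (nat_lit 0) (nat_lit 0x7debf422d2) (nat_lit 1020143592),
  Rx.mk (nat_lit 147) (nat_lit 3) (nat_lit 2) (nat_lit 2) (nat_lit 7) (nat_lit 140) (nat_lit 126) r8_140 r9_126 (nat_lit 0) (nat_lit 0) (nat_lit 0) (nat_lit 0x7decfd923a) (nat_lit 1018155528),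
  Rx.mk (nat_lit 195) (nat_lit 3) (nat_lit 0) (nat_lit 3) (nat_lit 5) (nat_lit 141) (nat_lit 122) r8_141 r9_122 (nat_lit 0) (nat_lit 0) (nat_lit 0) (nat_lit 0x7db930af3c) (nat_lit 1117477296),
  Rx.mk (nat_lit 199) (nat_lit 7) (nat_lit 0) (nat_lit 3) (nat_lit 5) (nat_lit 143) (nat_lit 117) r8_143 r9_117 (nat_lit 0) (nat_lit 0) (nat_lit 0) (nat_lit 0x7dc6281fb8) (nat_lit 1092615264),
  Rx.mk (nat_lit 203) (nat_lit 3) (nat_lit 1) (nat_lit 3) (nat_lit 7) (nat_lit 142) (nat_lit 123) r8_142 r9_123 (nat_lit 0) (nat_lit 0) (nat_lit 0) (nat_lit 0x7dda391e94) (nat_lit 1054140048),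
  Rx.mk (nat_lit 207) (nat_lit 7) (nat_lit 1) (nat_lit 3) (nat_lit 7) (nat_lit 144) (nat_lit 118) r8_144 r9_118 (nat_lit 0) (nat_lit 0) (nat_lit 0) (nat_lit 0x7de07d5a4a) (nat_lit 1042124616),
  Rx.mk (nat_lit 223) (nat_lit 7) (nat_lit 3) (nat_lit 3) (nat_lit 7) (nat_lit 145) (nat_lit 119) r8_145 r9_119 (nat_lit 0) (nat_lit 0) (nat_lit 0) (nat_lit 0x7de96beb58) (nat_lit 1024998624)]
noncomputable def e44_49 : List Rx := [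
  Rx.mk (nat_lit 203) (nat_lit 3) (nat_lit 1) (nat_lit 3) (nat_lit 7) (nat_lit 146) (nat_lit 124) r8_146 r10_124 (nat_lit 0) (nat_lit 0) (nat_lit 0) (nat_lit 0x7df79428c6) (nat_lit 997853688),
  Rx.mk (nat_lit 207) (nat_lit 7) (nat_lit 1) (nat_lit 3) (nat_lit 7) (nat_lit 147) (nat_lit 123) r8_147 r10_123 (nat_lit 0) (nat_lit 0) (nat_lit 0) (nat_lit 0x7df5dba450) (nat_lit 1001153088)]
noncomputable def e44_50 : List Rx := [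
  Rx.mk (nat_lit 199) (nat_lit 7) (nat_lit 0) (nat_lit 3) (nat_lit 5) (nat_lit 216) (nat_lit 330) r8_216 r10_330 (nat_lit 0) (nat_lit 0) (nat_lit 0) (nat_lit 0x7dca825a10) (nat_lit 1084269888),
  Rx.mk (nat_lit 207) (nat_lit 7) (nat_lit 1) (nat_lit 3) (nat_lit 7) (nat_lit 217) (nat_lit 331) r8_217 r10_331 (nat_lit 0) (nat_lit 0) (nat_lit 0) (nat_lit 0x7dde527cfa) (nat_lit 1046280456),
  Rx.mk (nat_lit 223) (nat_lit 7) (nat_lit 3) (nat_lit 3) (nat_lit 7) (nat_lit 218) (nat_lit 332) r8_218 r10_332 (nat_lit 0) (nat_lit 0) (nat_lit 0) (nat_lit 0x7de88a996e) (nat_lit 1026686232)]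
noncomputable def e44_51 : List Rx := [
  Rx.mk (nat_lit 45) (nat_lit 5) (nat_lit 5) (nat_lit 0) (nat_lit 3) (nat_lit 307) (nat_lit 287) r8_307 r12_287 (nat_lit 0) (nat_lit 0) (nat_lit 0) (nat_lit 0x6ec70e6054) (nat_lit 8453691792),
  Rx.mk (nat_lit 109) (nat_lit 5) (nat_lit 5) (nat_lit 1) (nat_lit 7) (nat_lit 308) (nat_lit 288) r8_308 r12_288 (nat_lit 0) (nat_lit 0) (nat_lit 0) (nat_lit 0x7dd07e9a46) (nat_lit 1072793592),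
  Rx.mk (nat_lit 205) (nat_lit 5) (nat_lit 1) (nat_lit 3) (nat_lit 7) (nat_lit 309) (nat_lit 286) r8_309 r12_286 (nat_lit 0) (nat_lit 0) (nat_lit 0) (nat_lit 0x7ddc31bf08) (nat_lit 1050360480),
  Rx.mk (nat_lit 237) (nat_lit 5) (nat_lit 5) (nat_lit 3) (nat_lit 7) (nat_lit 310) (nat_lit 289) r8_310 r12_289 (nat_lit 0) (nat_lit 0) (nat_lit 0) (nat_lit 0x7dbce773cc) (nat_lit 1110356208)]
noncomputable def e44_52 : List Rx := [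
  Rx.mk (nat_lit 236) (nat_lit 4) (nat_lit 5) (nat_lit 3) (nat_lit 6) (nat_lit 224) (nat_lit 262) r8_224 r12_262 (nat_lit 0) (nat_lit 0) (nat_lit 0) (nat_lit 0x7dae17a0d8) (nat_lit 1138756320),
  Rx.mk (nat_lit 237) (nat_lit 5) (nat_lit 5) (nat_lit 3) (nat_lit 7) (nat_lit 226) (nat_lit 264) r8_226 r12_264 (nat_lit 0) (nat_lit 0) (nat_lit 0) (nat_lit 0x7de7338ee0) (nat_lit 1029255552),
  Rx.mk (nat_lit 239) (nat_lit 7) (nat_lit 5) (nat_lit 3) (nat_lit 7) (nat_lit 228) (nat_lit 265) r8_228 r12_265 (nat_lit 0) (nat_lit 0) (nat_lit 0) (nat_lit 0x7de986e9a8) (nat_lit 1024796448),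
  Rx.mk (nat_lit 492) (nat_lit 4) (nat_lit 5) (nat_lit 7) (nat_lit 6) (nat_lit 225) (nat_lit 261) r8_225 r12_261 (nat_lit 0) (nat_lit 0) (nat_lit 0) (nat_lit 0x7cb54cae80) (nat_lit 1615790592),
  Rx.mk (nat_lit 493) (nat_lit 5) (nat_lit 5) (nat_lit 7) (nat_lit 7) (nat_lit 227) (nat_lit 263) r8_227 r12_263 (nat_lit 0) (nat_lit 0) (nat_lit 0) (nat_lit 0x7dca3abe8a) (nat_lit 1084806216)]
noncomputable def e44_53 : List Rx := [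
  Rx.mk (nat_lit 13) (nat_lit 5) (nat_lit 1) (nat_lit 0) (nat_lit 3) (nat_lit 324) (nat_lit 290) r8_324 r12_290 (nat_lit 0) (nat_lit 0) (nat_lit 0) (nat_lit 0x7cb8761be6) (nat_lit 1609728120),
  Rx.mk (nat_lit 77) (nat_lit 5) (nat_lit 1) (nat_lit 1) (nat_lit 7) (nat_lit 325) (nat_lit 291) r8_325 r12_291 (nat_lit 0) (nat_lit 0) (nat_lit 0) (nat_lit 0x7de9664bb2) (nat_lit 1025040744),
  Rx.mk (nat_lit 205) (nat_lit 5) (nat_lit 1) (nat_lit 3) (nat_lit 7) (nat_lit 326) (nat_lit 292) r8_326 r12_292 (nat_lit 0) (nat_lit 0) (nat_lit 0) (nat_lit 0x7dda2b3f72) (nat_lit 1054243944)]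
noncomputable def e44_54 : List Rx := [
  Rx.mk (nat_lit 239) (nat_lit 7) (nat_lit 5) (nat_lit 3) (nat_lit 7) (nat_lit 63) (nat_lit 150) r8_63 r12_150 (nat_lit 0) (nat_lit 0) (nat_lit 0) (nat_lit 0x7df198a884) (nat_lit 1009324368),
  Rx.mk (nat_lit 495) (nat_lit 7) (nat_lit 5) (nat_lit 7) (nat_lit 7) (nat_lit 64) (nat_lit 151) r8_64 r12_151 (nat_lit 0) (nat_lit 0) (nat_lit 0) (nat_lit 0x7deb738adc) (nat_lit 1021106736)]
noncomputable def e44_55 : List Rx := [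
  Rx.mk (nat_lit 207) (nat_lit 7) (nat_lit 1) (nat_lit 3) (nat_lit 7) (nat_lit 14) (nat_lit 120) r8_14 r3_120 (nat_lit 0) (nat_lit 0) (nat_lit 0) (nat_lit 0x7ad52b5276) (nat_lit 2536390584)]
noncomputable def e44_56 : List Rx := [
  Rx.mk (nat_lit 207) (nat_lit 7) (nat_lit 1) (nat_lit 3) (nat_lit 7) (nat_lit 18) (nat_lit 123) r8_18 r12_123 (nat_lit 0) (nat_lit 0) (nat_lit 0) (nat_lit 0x7ded19507e) (nat_lit 1017947736)]
noncomputable def e44_57 : List Rx := [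
  Rx.mk (nat_lit 207) (nat_lit 7) (nat_lit 1) (nat_lit 3) (nat_lit 7) (nat_lit 215) (nat_lit 266) r8_215 r12_266 (nat_lit 0) (nat_lit 0) (nat_lit 0) (nat_lit 0x7df0bb165e) (nat_lit 1010983896)]
noncomputable def e44 : List (List Rx) := [e44_0, e44_1, e44_2, e44_3, e44_4, e44_5, e44_6, e44_7, e44_8, e44_9, e44_10, e44_11, e44_12, e44_13, e44_14, e44_15, e44_16, e44_17, e44_18, e44_19, e44_20, e44_21, e44_22, e44_23, e44_24, e44_25, e44_26, e44_27, e44_28, e44_29, e44_30, e44_31, e44_32, e44_33, e44_34, e44_35, e44_36, e44_37, e44_38, e44_39, e44_40, e44_41, e44_42, e44_43, e44_44, e44_45, e44_46, e44_47, e44_48, e44_49, e44_50, e44_51, e44_52, e44_53, e44_54, e44_55, e44_56, e44_57]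
noncomputable def e45_0 : List Rx := [
  Rx.mk (nat_lit 76) (nat_lit 4) (nat_lit 1) (nat_lit 1) (nat_lit 6) (nat_lit 254) (nat_lit 293) r8_254 r0_293 (nat_lit 0) (nat_lit 0) (nat_lit 0) (nat_lit 0x7c454cceee) (nat_lit 1830538008),
  Rx.mk (nat_lit 77) (nat_lit 5) (nat_lit 1) (nat_lit 1) (nat_lit 7) (nat_lit 256) (nat_lit 296) r8_256 r0_296 (nat_lit 0) (nat_lit 0) (nat_lit 0) (nat_lit 0x7df79428c6) (nat_lit 997853688),
  Rx.mk (nat_lit 108) (nat_lit 4) (nat_lit 5) (nat_lit 1) (nat_lit 6) (nat_lit 253) (nat_lit 294) r8_253 r0_294 (nat_lit 0) (nat_lit 0) (nat_lit 0) (nat_lit 0x7d40db9506) (nat_lit 1348202232),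
  Rx.mk (nat_lit 109) (nat_lit 5) (nat_lit 5) (nat_lit 1) (nat_lit 7) (nat_lit 255) (nat_lit 297) r8_255 r0_297 (nat_lit 0) (nat_lit 0) (nat_lit 0) (nat_lit 0x7de02cbf54) (nat_lit 1042728336),
  Rx.mk (nat_lit 364) (nat_lit 4) (nat_lit 5) (nat_lit 5) (nat_lit 6) (nat_lit 250) (nat_lit 295) r8_250 r0_295 (nat_lit 0) (nat_lit 0) (nat_lit 0) (nat_lit 0x7d3d9e48de) (nat_lit 1354413528),
  Rx.mk (nat_lit 365) (nat_lit 5) (nat_lit 5) (nat_lit 5) (nat_lit 7) (nat_lit 251) (nat_lit 298) r8_251 r0_298 (nat_lit 0) (nat_lit 0) (nat_lit 0) (nat_lit 0x7df79428c6) (nat_lit 997853688),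
  Rx.mk (nat_lit 367) (nat_lit 7) (nat_lit 5) (nat_lit 5) (nat_lit 7) (nat_lit 252) (nat_lit 299) r8_252 r0_299 (nat_lit 0) (nat_lit 0) (nat_lit 0) (nat_lit 0x7dea449dcc) (nat_lit 1023375600)]
noncomputable def e45_1 : List Rx := [
  Rx.mk (nat_lit 364) (nat_lit 4) (nat_lit 5) (nat_lit 5) (nat_lit 6) (nat_lit 286) (nat_lit 290) r8_286 r1_290 (nat_lit 0) (nat_lit 0) (nat_lit 0) (nat_lit 0x7d689cd8ca) (nat_lit 1271976264),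
  Rx.mk (nat_lit 365) (nat_lit 5) (nat_lit 5) (nat_lit 5) (nat_lit 7) (nat_lit 287) (nat_lit 291) r8_287 r1_291 (nat_lit 0) (nat_lit 0) (nat_lit 0) (nat_lit 0x7de70451d4) (nat_lit 1029609360),
  Rx.mk (nat_lit 367) (nat_lit 7) (nat_lit 5) (nat_lit 5) (nat_lit 7) (nat_lit 288) (nat_lit 292) r8_288 r1_292 (nat_lit 0) (nat_lit 0) (nat_lit 0) (nat_lit 0x7df1630bde) (nat_lit 1009725912)]
noncomputable def e45_2 : List Rx := [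
  Rx.mk (nat_lit 300) (nat_lit 4) (nat_lit 5) (nat_lit 4) (nat_lit 2) (nat_lit 260) (nat_lit 316) r8_260 r2_316 (nat_lit 0) (nat_lit 0) (nat_lit 0) (nat_lit 0x6d72596cf8) (nat_lit 9106961760),
  Rx.mk (nat_lit 303) (nat_lit 7) (nat_lit 5) (nat_lit 4) (nat_lit 3) (nat_lit 261) (nat_lit 319) r8_261 r2_319 (nat_lit 0) (nat_lit 0) (nat_lit 0) (nat_lit 0x7de2ed334a) (nat_lit 1037452104),
  Rx.mk (nat_lit 364) (nat_lit 4) (nat_lit 5) (nat_lit 5) (nat_lit 6) (nat_lit 262) (nat_lit 317) r8_262 r2_317 (nat_lit 0) (nat_lit 0) (nat_lit 0) (nat_lit 0x7cf90c5242) (nat_lit 1485889704),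
  Rx.mk (nat_lit 365) (nat_lit 5) (nat_lit 5) (nat_lit 5) (nat_lit 7) (nat_lit 263) (nat_lit 318) r8_263 r2_318 (nat_lit 0) (nat_lit 0) (nat_lit 0) (nat_lit 0x7db6e7d3cc) (nat_lit 1121857776),
  Rx.mk (nat_lit 367) (nat_lit 7) (nat_lit 5) (nat_lit 5) (nat_lit 7) (nat_lit 264) (nat_lit 320) r8_264 r2_320 (nat_lit 0) (nat_lit 0) (nat_lit 0) (nat_lit 0x7de452dcee) (nat_lit 1034773272),
  Rx.mk (nat_lit 495) (nat_lit 7) (nat_lit 5) (nat_lit 7) (nat_lit 7) (nat_lit 265) (nat_lit 321) r8_265 r2_321 (nat_lit 0) (nat_lit 0) (nat_lit 0) (nat_lit 0x7df79428c6) (nat_lit 997853688)]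
noncomputable def e45_3 : List Rx := [
  Rx.mk (nat_lit 76) (nat_lit 4) (nat_lit 1) (nat_lit 1) (nat_lit 6) (nat_lit 301) (nat_lit 290) r8_301 r3_290 (nat_lit 0) (nat_lit 0) (nat_lit 0) (nat_lit 0x6ab4f44608) (nat_lit 10451814048),
  Rx.mk (nat_lit 77) (nat_lit 5) (nat_lit 1) (nat_lit 1) (nat_lit 7) (nat_lit 303) (nat_lit 292) r8_303 r3_292 (nat_lit 0) (nat_lit 0) (nat_lit 0) (nat_lit 0x795b231474) (nat_lit 3261228048),
  Rx.mk (nat_lit 108) (nat_lit 4) (nat_lit 5) (nat_lit 1) (nat_lit 6) (nat_lit 300) (nat_lit 291) r8_300 r3_291 (nat_lit 0) (nat_lit 0) (nat_lit 0) (nat_lit 0x6e55c73538) (nat_lit 8670890592),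
  Rx.mk (nat_lit 109) (nat_lit 5) (nat_lit 5) (nat_lit 1) (nat_lit 7) (nat_lit 302) (nat_lit 293) r8_302 r3_293 (nat_lit 0) (nat_lit 0) (nat_lit 0) (nat_lit 0x7a6150509a) (nat_lit 2758531464),
  Rx.mk (nat_lit 111) (nat_lit 7) (nat_lit 5) (nat_lit 1) (nat_lit 7) (nat_lit 304) (nat_lit 294) r8_304 r3_294 (nat_lit 0) (nat_lit 0) (nat_lit 0) (nat_lit 0x7191b1135e) (nat_lit 7083452376)]
noncomputable def e45_4 : List Rx := [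
  Rx.mk (nat_lit 76) (nat_lit 4) (nat_lit 1) (nat_lit 1) (nat_lit 6) (nat_lit 313) (nat_lit 309) r8_313 r4_309 (nat_lit 0) (nat_lit 0) (nat_lit 0) (nat_lit 0x7cf628a080) (nat_lit 1491429888),
  Rx.mk (nat_lit 77) (nat_lit 5) (nat_lit 1) (nat_lit 1) (nat_lit 7) (nat_lit 315) (nat_lit 311) r8_315 r4_311 (nat_lit 0) (nat_lit 0) (nat_lit 0) (nat_lit 0x7de1440dde) (nat_lit 1040636376),
  Rx.mk (nat_lit 108) (nat_lit 4) (nat_lit 5) (nat_lit 1) (nat_lit 6) (nat_lit 312) (nat_lit 310) r8_312 r4_310 (nat_lit 0) (nat_lit 0) (nat_lit 0) (nat_lit 0x7bf32fb112) (nat_lit 1987982568),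
  Rx.mk (nat_lit 109) (nat_lit 5) (nat_lit 5) (nat_lit 1) (nat_lit 7) (nat_lit 314) (nat_lit 312) r8_314 r4_312 (nat_lit 0) (nat_lit 0) (nat_lit 0) (nat_lit 0x7ddd4f0d32) (nat_lit 1048223592),
  Rx.mk (nat_lit 111) (nat_lit 7) (nat_lit 5) (nat_lit 1) (nat_lit 7) (nat_lit 316) (nat_lit 313) r8_316 r4_313 (nat_lit 0) (nat_lit 0) (nat_lit 0) (nat_lit 0x7deb594c80) (nat_lit 1021303296),
  Rx.mk (nat_lit 367) (nat_lit 7) (nat_lit 5) (nat_lit 5) (nat_lit 7) (nat_lit 311) (nat_lit 314) r8_311 r4_314 (nat_lit 0) (nat_lit 0) (nat_lit 0) (nat_lit 0x7dc5e563e4) (nat_lit 1093115088)]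
noncomputable def e45_5 : List Rx := [
  Rx.mk (nat_lit 239) (nat_lit 7) (nat_lit 5) (nat_lit 3) (nat_lit 7) (nat_lit 14) (nat_lit 256) r8_14 r3_256 (nat_lit 0) (nat_lit 0) (nat_lit 0) (nat_lit 0x7ad52b5276) (nat_lit 2536390584)]
noncomputable def e45_6 : List Rx := [
  Rx.mk (nat_lit 300) (nat_lit 4) (nat_lit 5) (nat_lit 4) (nat_lit 2) (nat_lit 65) (nat_lit 262) r8_65 r0_262 (nat_lit 0) (nat_lit 0) (nat_lit 0) (nat_lit 0x69ec4571be) (nat_lit 10836602712),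
  Rx.mk (nat_lit 492) (nat_lit 4) (nat_lit 5) (nat_lit 7) (nat_lit 6) (nat_lit 66) (nat_lit 263) r8_66 r0_263 (nat_lit 0) (nat_lit 0) (nat_lit 0) (nat_lit 0x7d93758b14) (nat_lit 1189822608),
  Rx.mk (nat_lit 495) (nat_lit 7) (nat_lit 5) (nat_lit 7) (nat_lit 7) (nat_lit 67) (nat_lit 264) r8_67 r0_264 (nat_lit 0) (nat_lit 0) (nat_lit 0) (nat_lit 0x7ddc6c3b60) (nat_lit 1049922432)]
noncomputable def e45_7 : List Rx := [
  Rx.mk (nat_lit 300) (nat_lit 4) (nat_lit 5) (nat_lit 4) (nat_lit 2) (nat_lit 83) (nat_lit 269) r8_83 r1_269 (nat_lit 0) (nat_lit 0) (nat_lit 0) (nat_lit 0x6f59076032) (nat_lit 8173804392),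
  Rx.mk (nat_lit 492) (nat_lit 4) (nat_lit 5) (nat_lit 7) (nat_lit 6) (nat_lit 84) (nat_lit 270) r8_84 r1_270 (nat_lit 0) (nat_lit 0) (nat_lit 0) (nat_lit 0x7dc4b5b6e0) (nat_lit 1095389568),
  Rx.mk (nat_lit 495) (nat_lit 7) (nat_lit 5) (nat_lit 7) (nat_lit 7) (nat_lit 85) (nat_lit 271) r8_85 r1_271 (nat_lit 0) (nat_lit 0) (nat_lit 0) (nat_lit 0x7de721effa) (nat_lit 1029387528)]
noncomputable def e45_8 : List Rx := [
  Rx.mk (nat_lit 239) (nat_lit 7) (nat_lit 5) (nat_lit 3) (nat_lit 7) (nat_lit 135) (nat_lit 278) r8_135 r4_278 (nat_lit 0) (nat_lit 0) (nat_lit 0) (nat_lit 0x7deeb9d674) (nat_lit 1014828048),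
  Rx.mk (nat_lit 492) (nat_lit 4) (nat_lit 5) (nat_lit 7) (nat_lit 6) (nat_lit 133) (nat_lit 276) r8_133 r4_276 (nat_lit 0) (nat_lit 0) (nat_lit 0) (nat_lit 0x7cdf86cab4) (nat_lit 1534824720),
  Rx.mk (nat_lit 495) (nat_lit 7) (nat_lit 5) (nat_lit 7) (nat_lit 7) (nat_lit 134) (nat_lit 277) r8_134 r4_277 (nat_lit 0) (nat_lit 0) (nat_lit 0) (nat_lit 0x7debb286ec) (nat_lit 1020634992)]
noncomputable def e45_9 : List Rx := [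
  Rx.mk (nat_lit 47) (nat_lit 7) (nat_lit 5) (nat_lit 0) (nat_lit 3) (nat_lit 241) (nat_lit 319) r8_241 r5_319 (nat_lit 0) (nat_lit 0) (nat_lit 0) (nat_lit 0x7d60a6d832) (nat_lit 1287240552),
  Rx.mk (nat_lit 111) (nat_lit 7) (nat_lit 5) (nat_lit 1) (nat_lit 7) (nat_lit 242) (nat_lit 320) r8_242 r5_320 (nat_lit 0) (nat_lit 0) (nat_lit 0) (nat_lit 0x7de9d244f2) (nat_lit 1024232040),
  Rx.mk (nat_lit 239) (nat_lit 7) (nat_lit 5) (nat_lit 3) (nat_lit 7) (nat_lit 243) (nat_lit 321) r8_243 r5_321 (nat_lit 0) (nat_lit 0) (nat_lit 0) (nat_lit 0x7dd8a1f808) (nat_lit 1057189536)]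
noncomputable def e45_10 : List Rx := [
  Rx.mk (nat_lit 77) (nat_lit 5) (nat_lit 1) (nat_lit 1) (nat_lit 7) (nat_lit 249) (nat_lit 292) r8_249 r0_292 (nat_lit 0) (nat_lit 0) (nat_lit 0) (nat_lit 0x7ddc669bba) (nat_lit 1049964552),
  Rx.mk (nat_lit 109) (nat_lit 5) (nat_lit 5) (nat_lit 1) (nat_lit 7) (nat_lit 248) (nat_lit 291) r8_248 r0_291 (nat_lit 0) (nat_lit 0) (nat_lit 0) (nat_lit 0x7df24f9d14) (nat_lit 1007954064)]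
noncomputable def e45_11 : List Rx := [
  Rx.mk (nat_lit 77) (nat_lit 5) (nat_lit 1) (nat_lit 1) (nat_lit 7) (nat_lit 259) (nat_lit 409) r8_259 r6_409 (nat_lit 0) (nat_lit 0) (nat_lit 0) (nat_lit 0x7de3b8069c) (nat_lit 1035932976),
  Rx.mk (nat_lit 109) (nat_lit 5) (nat_lit 5) (nat_lit 1) (nat_lit 7) (nat_lit 258) (nat_lit 410) r8_258 r6_410 (nat_lit 0) (nat_lit 0) (nat_lit 0) (nat_lit 0x7dd7634bf4) (nat_lit 1059576336),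
  Rx.mk (nat_lit 365) (nat_lit 5) (nat_lit 5) (nat_lit 5) (nat_lit 7) (nat_lit 257) (nat_lit 411) r8_257 r6_411 (nat_lit 0) (nat_lit 0) (nat_lit 0) (nat_lit 0x7ddfeca356) (nat_lit 1043208504)]
noncomputable def e45_12 : List Rx := [
  Rx.mk (nat_lit 73) (nat_lit 1) (nat_lit 1) (nat_lit 1) (nat_lit 7) (nat_lit 292) (nat_lit 289) r8_292 r1_289 (nat_lit 0) (nat_lit 0) (nat_lit 0) (nat_lit 0x7de85cdc4a) (nat_lit 1027028808),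
  Rx.mk (nat_lit 77) (nat_lit 5) (nat_lit 1) (nat_lit 1) (nat_lit 7) (nat_lit 291) (nat_lit 288) r8_291 r1_288 (nat_lit 0) (nat_lit 0) (nat_lit 0) (nat_lit 0x7de6571ca8) (nat_lit 1030906656),
  Rx.mk (nat_lit 109) (nat_lit 5) (nat_lit 5) (nat_lit 1) (nat_lit 7) (nat_lit 290) (nat_lit 287) r8_290 r1_287 (nat_lit 0) (nat_lit 0) (nat_lit 0) (nat_lit 0x7deadc744e) (nat_lit 1022238360)]
noncomputable def e45_13 : List Rx := [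
  Rx.mk (nat_lit 73) (nat_lit 1) (nat_lit 1) (nat_lit 1) (nat_lit 7) (nat_lit 297) (nat_lit 327) r8_297 r7_327 (nat_lit 0) (nat_lit 0) (nat_lit 0) (nat_lit 0x7de90d7140) (nat_lit 1025706240),
  Rx.mk (nat_lit 77) (nat_lit 5) (nat_lit 1) (nat_lit 1) (nat_lit 7) (nat_lit 296) (nat_lit 328) r8_296 r7_328 (nat_lit 0) (nat_lit 0) (nat_lit 0) (nat_lit 0x7dd57faa30) (nat_lit 1063198656),
  Rx.mk (nat_lit 109) (nat_lit 5) (nat_lit 5) (nat_lit 1) (nat_lit 7) (nat_lit 295) (nat_lit 329) r8_295 r7_329 (nat_lit 0) (nat_lit 0) (nat_lit 0) (nat_lit 0x7dafdd447c) (nat_lit 1135358640),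
  Rx.mk (nat_lit 365) (nat_lit 5) (nat_lit 5) (nat_lit 5) (nat_lit 7) (nat_lit 294) (nat_lit 330) r8_294 r7_330 (nat_lit 0) (nat_lit 0) (nat_lit 0) (nat_lit 0x7de241de00) (nat_lit 1038735360)]
noncomputable def e45_14 : List Rx := [
  Rx.mk (nat_lit 365) (nat_lit 5) (nat_lit 5) (nat_lit 5) (nat_lit 7) (nat_lit 289) (nat_lit 326) r8_289 r7_326 (nat_lit 0) (nat_lit 0) (nat_lit 0) (nat_lit 0x7df343add2) (nat_lit 1006126056)]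
noncomputable def e45_15 : List Rx := [
  Rx.mk (nat_lit 365) (nat_lit 5) (nat_lit 5) (nat_lit 5) (nat_lit 7) (nat_lit 266) (nat_lit 299) r8_266 r8_299 (nat_lit 0) (nat_lit 0) (nat_lit 0) (nat_lit 0x7de011610a) (nat_lit 1042933320)]
noncomputable def e45_16 : List Rx := [
  Rx.mk (nat_lit 77) (nat_lit 5) (nat_lit 1) (nat_lit 1) (nat_lit 7) (nat_lit 306) (nat_lit 308) r8_306 r4_308 (nat_lit 0) (nat_lit 0) (nat_lit 0) (nat_lit 0x7de5612c08) (nat_lit 1032748704),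
  Rx.mk (nat_lit 109) (nat_lit 5) (nat_lit 5) (nat_lit 1) (nat_lit 7) (nat_lit 305) (nat_lit 307) r8_305 r4_307 (nat_lit 0) (nat_lit 0) (nat_lit 0) (nat_lit 0x7dd68859a4) (nat_lit 1061216208)]
noncomputable def e45_17 : List Rx := [
  Rx.mk (nat_lit 77) (nat_lit 5) (nat_lit 1) (nat_lit 1) (nat_lit 7) (nat_lit 318) (nat_lit 331) r8_318 r9_331 (nat_lit 0) (nat_lit 0) (nat_lit 0) (nat_lit 0x7df4a417ca) (nat_lit 1003486536),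
  Rx.mk (nat_lit 109) (nat_lit 5) (nat_lit 5) (nat_lit 1) (nat_lit 7) (nat_lit 317) (nat_lit 332) r8_317 r9_332 (nat_lit 0) (nat_lit 0) (nat_lit 0) (nat_lit 0x7dd84fdd2a) (nat_lit 1057804488)]
noncomputable def e45_18 : List Rx := [
  Rx.mk (nat_lit 109) (nat_lit 5) (nat_lit 5) (nat_lit 1) (nat_lit 7) (nat_lit 327) (nat_lit 350) r8_327 r10_350 (nat_lit 0) (nat_lit 0) (nat_lit 0) (nat_lit 0x7ded710b02) (nat_lit 1017290664)]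
noncomputable def e45_19 : List Rx := [
  Rx.mk (nat_lit 292) (nat_lit 4) (nat_lit 4) (nat_lit 4) (nat_lit 0) (nat_lit 267) (nat_lit 267) r8_267 r8_267 (nat_lit 0) (nat_lit 0) (nat_lit 0) (nat_lit 0x35cba1d01c) (nat_lit 36423562032),
  Rx.mk (nat_lit 294) (nat_lit 6) (nat_lit 4) (nat_lit 4) (nat_lit 1) (nat_lit 269) (nat_lit 272) r8_269 r8_272 (nat_lit 0) (nat_lit 0) (nat_lit 0) (nat_lit 0x78cd7eaf48) (nat_lit 3532812192),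
  Rx.mk (nat_lit 295) (nat_lit 7) (nat_lit 4) (nat_lit 4) (nat_lit 1) (nat_lit 272) (nat_lit 269) r8_272 r8_269 (nat_lit 0) (nat_lit 0) (nat_lit 0) (nat_lit 0x78cd7eaf48) (nat_lit 3532812192),
  Rx.mk (nat_lit 300) (nat_lit 4) (nat_lit 5) (nat_lit 4) (nat_lit 2) (nat_lit 268) (nat_lit 274) r8_268 r8_274 (nat_lit 0) (nat_lit 0) (nat_lit 0) (nat_lit 0x686164415c) (nat_lit 11593743408),
  Rx.mk (nat_lit 302) (nat_lit 6) (nat_lit 5) (nat_lit 4) (nat_lit 3) (nat_lit 270) (nat_lit 280) r8_270 r8_280 (nat_lit 0) (nat_lit 0) (nat_lit 0) (nat_lit 0x7dc999e898) (nat_lit 1086010848),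
  Rx.mk (nat_lit 303) (nat_lit 7) (nat_lit 5) (nat_lit 4) (nat_lit 3) (nat_lit 273) (nat_lit 277) r8_273 r8_277 (nat_lit 0) (nat_lit 0) (nat_lit 0) (nat_lit 0x7d8c7ffa74) (nat_lit 1203166224),
  Rx.mk (nat_lit 310) (nat_lit 6) (nat_lit 6) (nat_lit 4) (nat_lit 3) (nat_lit 271) (nat_lit 283) r8_271 r8_283 (nat_lit 0) (nat_lit 0) (nat_lit 0) (nat_lit 0x7dc3dca472) (nat_lit 1097015400),
  Rx.mk (nat_lit 356) (nat_lit 4) (nat_lit 4) (nat_lit 5) (nat_lit 4) (nat_lit 274) (nat_lit 268) r8_274 r8_268 (nat_lit 0) (nat_lit 0) (nat_lit 0) (nat_lit 0x686164415c) (nat_lit 11593743408),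
  Rx.mk (nat_lit 358) (nat_lit 6) (nat_lit 4) (nat_lit 5) (nat_lit 5) (nat_lit 277) (nat_lit 273) r8_277 r8_273 (nat_lit 0) (nat_lit 0) (nat_lit 0) (nat_lit 0x7d8c7ffa74) (nat_lit 1203166224),
  Rx.mk (nat_lit 359) (nat_lit 7) (nat_lit 4) (nat_lit 5) (nat_lit 5) (nat_lit 280) (nat_lit 270) r8_280 r8_270 (nat_lit 0) (nat_lit 0) (nat_lit 0) (nat_lit 0x7dc999e898) (nat_lit 1086010848),
  Rx.mk (nat_lit 364) (nat_lit 4) (nat_lit 5) (nat_lit 5) (nat_lit 6) (nat_lit 275) (nat_lit 275) r8_275 r8_275 (nat_lit 0) (nat_lit 0) (nat_lit 0) (nat_lit 0x7dccfb3280) (nat_lit 1079529984),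
  Rx.mk (nat_lit 365) (nat_lit 5) (nat_lit 5) (nat_lit 5) (nat_lit 7) (nat_lit 276) (nat_lit 276) r8_276 r8_276 (nat_lit 0) (nat_lit 0) (nat_lit 0) (nat_lit 0x7dde0fc126) (nat_lit 1046780280),
  Rx.mk (nat_lit 366) (nat_lit 6) (nat_lit 5) (nat_lit 5) (nat_lit 7) (nat_lit 278) (nat_lit 281) r8_278 r8_281 (nat_lit 0) (nat_lit 0) (nat_lit 0) (nat_lit 0x7dd3d864a6) (nat_lit 1066368888),
  Rx.mk (nat_lit 367) (nat_lit 7) (nat_lit 5) (nat_lit 5) (nat_lit 7) (nat_lit 281) (nat_lit 278) r8_281 r8_278 (nat_lit 0) (nat_lit 0) (nat_lit 0) (nat_lit 0x7dd3d864a6) (nat_lit 1066368888),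
  Rx.mk (nat_lit 374) (nat_lit 6) (nat_lit 6) (nat_lit 5) (nat_lit 7) (nat_lit 279) (nat_lit 284) r8_279 r8_284 (nat_lit 0) (nat_lit 0) (nat_lit 0) (nat_lit 0x7dc4501d3a) (nat_lit 1096150536),
  Rx.mk (nat_lit 438) (nat_lit 6) (nat_lit 6) (nat_lit 6) (nat_lit 7) (nat_lit 282) (nat_lit 285) r8_282 r8_285 (nat_lit 0) (nat_lit 0) (nat_lit 0) (nat_lit 0x7dc62bdf7c) (nat_lit 1092587184),
  Rx.mk (nat_lit 487) (nat_lit 7) (nat_lit 4) (nat_lit 7) (nat_lit 5) (nat_lit 283) (nat_lit 271) r8_283 r8_271 (nat_lit 0) (nat_lit 0) (nat_lit 0) (nat_lit 0x7dc3dca472) (nat_lit 1097015400),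
  Rx.mk (nat_lit 495) (nat_lit 7) (nat_lit 5) (nat_lit 7) (nat_lit 7) (nat_lit 284) (nat_lit 279) r8_284 r8_279 (nat_lit 0) (nat_lit 0) (nat_lit 0) (nat_lit 0x7dc4501d3a) (nat_lit 1096150536),
  Rx.mk (nat_lit 511) (nat_lit 7) (nat_lit 7) (nat_lit 7) (nat_lit 7) (nat_lit 285) (nat_lit 282) r8_285 r8_282 (nat_lit 0) (nat_lit 0) (nat_lit 0) (nat_lit 0x7dc62bdf7c) (nat_lit 1092587184)]
noncomputable def e45_20 : List Rx := [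
  Rx.mk (nat_lit 255) (nat_lit 7) (nat_lit 7) (nat_lit 3) (nat_lit 7) (nat_lit 0) (nat_lit 141) r8_0 r0_141 (nat_lit 0) (nat_lit 0) (nat_lit 0) (nat_lit 0x7dde1b0072) (nat_lit 1046696040)]
noncomputable def e45_21 : List Rx := [
  Rx.mk (nat_lit 255) (nat_lit 7) (nat_lit 7) (nat_lit 3) (nat_lit 7) (nat_lit 1) (nat_lit 153) r8_1 r1_153 (nat_lit 0) (nat_lit 0) (nat_lit 0) (nat_lit 0x7de94bad5c) (nat_lit 1025240112)]
noncomputable def e45_22 : List Rx := [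
  Rx.mk (nat_lit 231) (nat_lit 7) (nat_lit 4) (nat_lit 3) (nat_lit 5) (nat_lit 15) (nat_lit 128) r8_15 r4_128 (nat_lit 0) (nat_lit 0) (nat_lit 0) (nat_lit 0x7de2b8b692) (nat_lit 1037845224),
  Rx.mk (nat_lit 239) (nat_lit 7) (nat_lit 5) (nat_lit 3) (nat_lit 7) (nat_lit 16) (nat_lit 129) r8_16 r4_129 (nat_lit 0) (nat_lit 0) (nat_lit 0) (nat_lit 0x7df79428c6) (nat_lit 997853688),
  Rx.mk (nat_lit 255) (nat_lit 7) (nat_lit 7) (nat_lit 3) (nat_lit 7) (nat_lit 17) (nat_lit 130) r8_17 r4_130 (nat_lit 0) (nat_lit 0) (nat_lit 0) (nat_lit 0x7dd77c6a62) (nat_lit 1059388200)]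
noncomputable def e45_23 : List Rx := [
  Rx.mk (nat_lit 255) (nat_lit 7) (nat_lit 7) (nat_lit 3) (nat_lit 7) (nat_lit 82) (nat_lit 377) r8_82 r6_377 (nat_lit 0) (nat_lit 0) (nat_lit 0) (nat_lit 0x7ddda00822) (nat_lit 1047617064),
  Rx.mk (nat_lit 292) (nat_lit 4) (nat_lit 4) (nat_lit 4) (nat_lit 0) (nat_lit 68) (nat_lit 366) r8_68 r6_366 (nat_lit 0) (nat_lit 0) (nat_lit 0) (nat_lit 0x1096296cda) (nat_lit 54687661704),
  Rx.mk (nat_lit 294) (nat_lit 6) (nat_lit 4) (nat_lit 4) (nat_lit 1) (nat_lit 70) (nat_lit 369) r8_70 r6_369 (nat_lit 0) (nat_lit 0) (nat_lit 0) (nat_lit 0x6a853e8194) (nat_lit 10543293072),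
  Rx.mk (nat_lit 300) (nat_lit 4) (nat_lit 5) (nat_lit 4) (nat_lit 2) (nat_lit 69) (nat_lit 371) r8_69 r6_371 (nat_lit 0) (nat_lit 0) (nat_lit 0) (nat_lit 0x71f61f2c18) (nat_lit 6890888160),
  Rx.mk (nat_lit 302) (nat_lit 6) (nat_lit 5) (nat_lit 4) (nat_lit 3) (nat_lit 71) (nat_lit 374) r8_71 r6_374 (nat_lit 0) (nat_lit 0) (nat_lit 0) (nat_lit 0x7dc10491f6) (nat_lit 1102468536),
  Rx.mk (nat_lit 310) (nat_lit 6) (nat_lit 6) (nat_lit 4) (nat_lit 3) (nat_lit 72) (nat_lit 378) r8_72 r6_378 (nat_lit 0) (nat_lit 0) (nat_lit 0) (nat_lit 0x7c9b768bfc) (nat_lit 1665329328),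
  Rx.mk (nat_lit 438) (nat_lit 6) (nat_lit 6) (nat_lit 6) (nat_lit 7) (nat_lit 73) (nat_lit 380) r8_73 r6_380 (nat_lit 0) (nat_lit 0) (nat_lit 0) (nat_lit 0x7de7e5a3be) (nat_lit 1027921752),
  Rx.mk (nat_lit 484) (nat_lit 4) (nat_lit 4) (nat_lit 7) (nat_lit 4) (nat_lit 74) (nat_lit 367) r8_74 r6_367 (nat_lit 0) (nat_lit 0) (nat_lit 0) (nat_lit 0x5019957692) (nat_lit 23511909096),
  Rx.mk (nat_lit 486) (nat_lit 6) (nat_lit 4) (nat_lit 7) (nat_lit 5) (nat_lit 76) (nat_lit 370) r8_76 r6_370 (nat_lit 0) (nat_lit 0) (nat_lit 0) (nat_lit 0x7d87fec28c) (nat_lit 1211803632),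
  Rx.mk (nat_lit 487) (nat_lit 7) (nat_lit 4) (nat_lit 7) (nat_lit 5) (nat_lit 79) (nat_lit 368) r8_79 r6_368 (nat_lit 0) (nat_lit 0) (nat_lit 0) (nat_lit 0x7d16a3b8ae) (nat_lit 1429151256),
  Rx.mk (nat_lit 492) (nat_lit 4) (nat_lit 5) (nat_lit 7) (nat_lit 6) (nat_lit 75) (nat_lit 372) r8_75 r6_372 (nat_lit 0) (nat_lit 0) (nat_lit 0) (nat_lit 0x7dd000422c) (nat_lit 1073739888),
  Rx.mk (nat_lit 494) (nat_lit 6) (nat_lit 5) (nat_lit 7) (nat_lit 7) (nat_lit 77) (nat_lit 375) r8_77 r6_375 (nat_lit 0) (nat_lit 0) (nat_lit 0) (nat_lit 0x7deecab566) (nat_lit 1014701688),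
  Rx.mk (nat_lit 495) (nat_lit 7) (nat_lit 5) (nat_lit 7) (nat_lit 7) (nat_lit 80) (nat_lit 373) r8_80 r6_373 (nat_lit 0) (nat_lit 0) (nat_lit 0) (nat_lit 0x7de0fcd252) (nat_lit 1041169896),
  Rx.mk (nat_lit 502) (nat_lit 6) (nat_lit 6) (nat_lit 7) (nat_lit 7) (nat_lit 78) (nat_lit 379) r8_78 r6_379 (nat_lit 0) (nat_lit 0) (nat_lit 0) (nat_lit 0x7de3b0e70e) (nat_lit 1035986328),
  Rx.mk (nat_lit 511) (nat_lit 7) (nat_lit 7) (nat_lit 7) (nat_lit 7) (nat_lit 81) (nat_lit 376) r8_81 r6_376 (nat_lit 0) (nat_lit 0) (nat_lit 0) (nat_lit 0x7dc460fc2c) (nat_lit 1096024176)]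
noncomputable def e45_24 : List Rx := [
  Rx.mk (nat_lit 255) (nat_lit 7) (nat_lit 7) (nat_lit 3) (nat_lit 7) (nat_lit 108) (nat_lit 279) r8_108 r7_279 (nat_lit 0) (nat_lit 0) (nat_lit 0) (nat_lit 0x7de4ad9742) (nat_lit 1034093736),
  Rx.mk (nat_lit 292) (nat_lit 4) (nat_lit 4) (nat_lit 4) (nat_lit 0) (nat_lit 99) (nat_lit 273) r8_99 r7_273 (nat_lit 0) (nat_lit 0) (nat_lit 0) (nat_lit 0x5e013b8ec) (nat_lit 59945324400),
  Rx.mk (nat_lit 294) (nat_lit 6) (nat_lit 4) (nat_lit 4) (nat_lit 1) (nat_lit 100) (nat_lit 276) r8_100 r7_276 (nat_lit 0) (nat_lit 0) (nat_lit 0) (nat_lit 0x70d5b03428) (nat_lit 7443929376),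
  Rx.mk (nat_lit 310) (nat_lit 6) (nat_lit 6) (nat_lit 4) (nat_lit 3) (nat_lit 101) (nat_lit 280) r8_101 r7_280 (nat_lit 0) (nat_lit 0) (nat_lit 0) (nat_lit 0x7cfa07e288) (nat_lit 1484005536),
  Rx.mk (nat_lit 438) (nat_lit 6) (nat_lit 6) (nat_lit 6) (nat_lit 7) (nat_lit 102) (nat_lit 282) r8_102 r7_282 (nat_lit 0) (nat_lit 0) (nat_lit 0) (nat_lit 0x7dc4f5d2de) (nat_lit 1094909400),
  Rx.mk (nat_lit 484) (nat_lit 4) (nat_lit 4) (nat_lit 7) (nat_lit 4) (nat_lit 103) (nat_lit 274) r8_103 r7_274 (nat_lit 0) (nat_lit 0) (nat_lit 0) (nat_lit 0x6e391d1ff6) (nat_lit 8725851576),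
  Rx.mk (nat_lit 486) (nat_lit 6) (nat_lit 4) (nat_lit 7) (nat_lit 5) (nat_lit 104) (nat_lit 277) r8_104 r7_277 (nat_lit 0) (nat_lit 0) (nat_lit 0) (nat_lit 0x7da28699f4) (nat_lit 1160933904),
  Rx.mk (nat_lit 487) (nat_lit 7) (nat_lit 4) (nat_lit 7) (nat_lit 5) (nat_lit 106) (nat_lit 275) r8_106 r7_275 (nat_lit 0) (nat_lit 0) (nat_lit 0) (nat_lit 0x7cf6673c96) (nat_lit 1490960952),
  Rx.mk (nat_lit 502) (nat_lit 6) (nat_lit 6) (nat_lit 7) (nat_lit 7) (nat_lit 105) (nat_lit 281) r8_105 r7_281 (nat_lit 0) (nat_lit 0) (nat_lit 0) (nat_lit 0x7df1f9c272) (nat_lit 1008597096),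
  Rx.mk (nat_lit 511) (nat_lit 7) (nat_lit 7) (nat_lit 7) (nat_lit 7) (nat_lit 107) (nat_lit 278) r8_107 r7_278 (nat_lit 0) (nat_lit 0) (nat_lit 0) (nat_lit 0x7dcea1581c) (nat_lit 1076368176)]
noncomputable def e45_25 : List Rx := [
  Rx.mk (nat_lit 292) (nat_lit 4) (nat_lit 4) (nat_lit 4) (nat_lit 0) (nat_lit 86) (nat_lit 133) r8_86 r7_133 (nat_lit 0) (nat_lit 0) (nat_lit 0) (nat_lit 0x4dd0ff623c) (nat_lit 24632792496),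
  Rx.mk (nat_lit 294) (nat_lit 6) (nat_lit 4) (nat_lit 4) (nat_lit 1) (nat_lit 88) (nat_lit 135) r8_88 r7_135 (nat_lit 0) (nat_lit 0) (nat_lit 0) (nat_lit 0x79a02d0390) (nat_lit 3128853312),
  Rx.mk (nat_lit 300) (nat_lit 4) (nat_lit 5) (nat_lit 4) (nat_lit 2) (nat_lit 87) (nat_lit 134) r8_87 r7_134 (nat_lit 0) (nat_lit 0) (nat_lit 0) (nat_lit 0x726c30aa8a) (nat_lit 6664504392),
  Rx.mk (nat_lit 302) (nat_lit 6) (nat_lit 5) (nat_lit 4) (nat_lit 3) (nat_lit 89) (nat_lit 136) r8_89 r7_136 (nat_lit 0) (nat_lit 0) (nat_lit 0) (nat_lit 0x7dcb1d3062) (nat_lit 1083110184),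
  Rx.mk (nat_lit 310) (nat_lit 6) (nat_lit 6) (nat_lit 4) (nat_lit 3) (nat_lit 90) (nat_lit 137) r8_90 r7_137 (nat_lit 0) (nat_lit 0) (nat_lit 0) (nat_lit 0x7dc9350ee6) (nat_lit 1086766200),
  Rx.mk (nat_lit 438) (nat_lit 6) (nat_lit 6) (nat_lit 6) (nat_lit 7) (nat_lit 91) (nat_lit 145) r8_91 r7_145 (nat_lit 0) (nat_lit 0) (nat_lit 0) (nat_lit 0x7df0bff610) (nat_lit 1010947392),
  Rx.mk (nat_lit 484) (nat_lit 4) (nat_lit 4) (nat_lit 7) (nat_lit 4) (nat_lit 92) (nat_lit 138) r8_92 r7_138 (nat_lit 0) (nat_lit 0) (nat_lit 0) (nat_lit 0x72540acd00) (nat_lit 6710805504),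
  Rx.mk (nat_lit 486) (nat_lit 6) (nat_lit 4) (nat_lit 7) (nat_lit 5) (nat_lit 94) (nat_lit 143) r8_94 r7_143 (nat_lit 0) (nat_lit 0) (nat_lit 0) (nat_lit 0x7de5f8a290) (nat_lit 1031614272),
  Rx.mk (nat_lit 487) (nat_lit 7) (nat_lit 4) (nat_lit 7) (nat_lit 5) (nat_lit 96) (nat_lit 140) r8_96 r7_140 (nat_lit 0) (nat_lit 0) (nat_lit 0) (nat_lit 0x7da6639c20) (nat_lit 1153526400),
  Rx.mk (nat_lit 492) (nat_lit 4) (nat_lit 5) (nat_lit 7) (nat_lit 6) (nat_lit 93) (nat_lit 139) r8_93 r7_139 (nat_lit 0) (nat_lit 0) (nat_lit 0) (nat_lit 0x7defee632a) (nat_lit 1012517064),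
  Rx.mk (nat_lit 494) (nat_lit 6) (nat_lit 5) (nat_lit 7) (nat_lit 7) (nat_lit 95) (nat_lit 144) r8_95 r7_144 (nat_lit 0) (nat_lit 0) (nat_lit 0) (nat_lit 0x7dd143cdf2) (nat_lit 1071316584),
  Rx.mk (nat_lit 495) (nat_lit 7) (nat_lit 5) (nat_lit 7) (nat_lit 7) (nat_lit 97) (nat_lit 141) r8_97 r7_141 (nat_lit 0) (nat_lit 0) (nat_lit 0) (nat_lit 0x7dee723aee) (nat_lit 1015364376),
  Rx.mk (nat_lit 511) (nat_lit 7) (nat_lit 7) (nat_lit 7) (nat_lit 7) (nat_lit 98) (nat_lit 142) r8_98 r7_142 (nat_lit 0) (nat_lit 0) (nat_lit 0) (nat_lit 0x7db8202046) (nat_lit 1119518712)]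
noncomputable def e45_26 : List Rx := [
  Rx.mk (nat_lit 231) (nat_lit 7) (nat_lit 4) (nat_lit 3) (nat_lit 5) (nat_lit 143) (nat_lit 306) r8_143 r9_306 (nat_lit 0) (nat_lit 0) (nat_lit 0) (nat_lit 0x7dc6281fb8) (nat_lit 1092615264),
  Rx.mk (nat_lit 239) (nat_lit 7) (nat_lit 5) (nat_lit 3) (nat_lit 7) (nat_lit 144) (nat_lit 310) r8_144 r9_310 (nat_lit 0) (nat_lit 0) (nat_lit 0) (nat_lit 0x7de07d5a4a) (nat_lit 1042124616),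
  Rx.mk (nat_lit 255) (nat_lit 7) (nat_lit 7) (nat_lit 3) (nat_lit 7) (nat_lit 145) (nat_lit 312) r8_145 r9_312 (nat_lit 0) (nat_lit 0) (nat_lit 0) (nat_lit 0x7de96beb58) (nat_lit 1024998624),
  Rx.mk (nat_lit 484) (nat_lit 4) (nat_lit 4) (nat_lit 7) (nat_lit 4) (nat_lit 136) (nat_lit 304) r8_136 r9_304 (nat_lit 0) (nat_lit 0) (nat_lit 0) (nat_lit 0x71a1bf9266) (nat_lit 7052665464),
  Rx.mk (nat_lit 486) (nat_lit 6) (nat_lit 4) (nat_lit 7) (nat_lit 5) (nat_lit 138) (nat_lit 307) r8_138 r9_307 (nat_lit 0) (nat_lit 0) (nat_lit 0) (nat_lit 0x7ddb1ef036) (nat_lit 1052418744),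
  Rx.mk (nat_lit 487) (nat_lit 7) (nat_lit 4) (nat_lit 7) (nat_lit 5) (nat_lit 141) (nat_lit 305) r8_141 r9_305 (nat_lit 0) (nat_lit 0) (nat_lit 0) (nat_lit 0x7db930af3c) (nat_lit 1117477296),
  Rx.mk (nat_lit 492) (nat_lit 4) (nat_lit 5) (nat_lit 7) (nat_lit 6) (nat_lit 137) (nat_lit 308) r8_137 r9_308 (nat_lit 0) (nat_lit 0) (nat_lit 0) (nat_lit 0x7ce5b0c80e) (nat_lit 1523005848),
  Rx.mk (nat_lit 494) (nat_lit 6) (nat_lit 5) (nat_lit 7) (nat_lit 7) (nat_lit 139) (nat_lit 311) r8_139 r9_311 (nat_lit 0) (nat_lit 0) (nat_lit 0) (nat_lit 0x7debf422d2) (nat_lit 1020143592),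
  Rx.mk (nat_lit 495) (nat_lit 7) (nat_lit 5) (nat_lit 7) (nat_lit 7) (nat_lit 142) (nat_lit 309) r8_142 r9_309 (nat_lit 0) (nat_lit 0) (nat_lit 0) (nat_lit 0x7dda391e94) (nat_lit 1054140048),
  Rx.mk (nat_lit 502) (nat_lit 6) (nat_lit 6) (nat_lit 7) (nat_lit 7) (nat_lit 140) (nat_lit 313) r8_140 r9_313 (nat_lit 0) (nat_lit 0) (nat_lit 0) (nat_lit 0x7decfd923a) (nat_lit 1018155528)]
noncomputable def e45_27 : List Rx := [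
  Rx.mk (nat_lit 231) (nat_lit 7) (nat_lit 4) (nat_lit 3) (nat_lit 5) (nat_lit 216) (nat_lit 330) r8_216 r10_330 (nat_lit 0) (nat_lit 0) (nat_lit 0) (nat_lit 0x7dca825a10) (nat_lit 1084269888),
  Rx.mk (nat_lit 239) (nat_lit 7) (nat_lit 5) (nat_lit 3) (nat_lit 7) (nat_lit 217) (nat_lit 331) r8_217 r10_331 (nat_lit 0) (nat_lit 0) (nat_lit 0) (nat_lit 0x7dde527cfa) (nat_lit 1046280456),
  Rx.mk (nat_lit 255) (nat_lit 7) (nat_lit 7) (nat_lit 3) (nat_lit 7) (nat_lit 218) (nat_lit 332) r8_218 r10_332 (nat_lit 0) (nat_lit 0) (nat_lit 0) (nat_lit 0x7de88a996e) (nat_lit 1026686232)]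
noncomputable def e45_28 : List Rx := [
  Rx.mk (nat_lit 76) (nat_lit 4) (nat_lit 1) (nat_lit 1) (nat_lit 6) (nat_lit 320) (nat_lit 347) r8_320 r10_347 (nat_lit 0) (nat_lit 0) (nat_lit 0) (nat_lit 0x7d5d8ae9f4) (nat_lit 1293201936),
  Rx.mk (nat_lit 77) (nat_lit 5) (nat_lit 1) (nat_lit 1) (nat_lit 7) (nat_lit 321) (nat_lit 348) r8_321 r10_348 (nat_lit 0) (nat_lit 0) (nat_lit 0) (nat_lit 0x7de98b6960) (nat_lit 1024762752),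
  Rx.mk (nat_lit 79) (nat_lit 7) (nat_lit 1) (nat_lit 1) (nat_lit 7) (nat_lit 323) (nat_lit 349) r8_323 r10_349 (nat_lit 0) (nat_lit 0) (nat_lit 0) (nat_lit 0x7dd48359f6) (nat_lit 1065088440),
  Rx.mk (nat_lit 111) (nat_lit 7) (nat_lit 5) (nat_lit 1) (nat_lit 7) (nat_lit 322) (nat_lit 346) r8_322 r10_346 (nat_lit 0) (nat_lit 0) (nat_lit 0) (nat_lit 0x7ddf600c20) (nat_lit 1044261504),
  Rx.mk (nat_lit 367) (nat_lit 7) (nat_lit 5) (nat_lit 5) (nat_lit 7) (nat_lit 319) (nat_lit 345) r8_319 r10_345 (nat_lit 0) (nat_lit 0) (nat_lit 0) (nat_lit 0x7de3095188) (nat_lit 1037241504)]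
noncomputable def e45_29 : List Rx := [
  Rx.mk (nat_lit 207) (nat_lit 7) (nat_lit 1) (nat_lit 3) (nat_lit 7) (nat_lit 62) (nat_lit 169) r8_62 r5_169 (nat_lit 0) (nat_lit 0) (nat_lit 0) (nat_lit 0x7df57b4a56) (nat_lit 1001874744),
  Rx.mk (nat_lit 239) (nat_lit 7) (nat_lit 5) (nat_lit 3) (nat_lit 7) (nat_lit 61) (nat_lit 168) r8_61 r5_168 (nat_lit 0) (nat_lit 0) (nat_lit 0) (nat_lit 0x7dd1aea744) (nat_lit 1070516304)]
noncomputable def e45_30 : List Rx := [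
  Rx.mk (nat_lit 239) (nat_lit 7) (nat_lit 5) (nat_lit 3) (nat_lit 7) (nat_lit 147) (nat_lit 123) r8_147 r10_123 (nat_lit 0) (nat_lit 0) (nat_lit 0) (nat_lit 0x7df5dba450) (nat_lit 1001153088),
  Rx.mk (nat_lit 495) (nat_lit 7) (nat_lit 5) (nat_lit 7) (nat_lit 7) (nat_lit 146) (nat_lit 124) r8_146 r10_124 (nat_lit 0) (nat_lit 0) (nat_lit 0) (nat_lit 0x7df79428c6) (nat_lit 997853688)]
noncomputable def e45_31 : List Rx := [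
  Rx.mk (nat_lit 15) (nat_lit 7) (nat_lit 1) (nat_lit 0) (nat_lit 3) (nat_lit 220) (nat_lit 290) r8_220 r5_290 (nat_lit 0) (nat_lit 0) (nat_lit 0) (nat_lit 0x7c922f207c) (nat_lit 1683120816),
  Rx.mk (nat_lit 47) (nat_lit 7) (nat_lit 5) (nat_lit 0) (nat_lit 3) (nat_lit 219) (nat_lit 293) r8_219 r5_293 (nat_lit 0) (nat_lit 0) (nat_lit 0) (nat_lit 0x7d4396095c) (nat_lit 1342970928),
  Rx.mk (nat_lit 79) (nat_lit 7) (nat_lit 1) (nat_lit 1) (nat_lit 7) (nat_lit 222) (nat_lit 291) r8_222 r5_291 (nat_lit 0) (nat_lit 0) (nat_lit 0) (nat_lit 0x7dde539ce8) (nat_lit 1046272032),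
  Rx.mk (nat_lit 111) (nat_lit 7) (nat_lit 5) (nat_lit 1) (nat_lit 7) (nat_lit 221) (nat_lit 294) r8_221 r5_294 (nat_lit 0) (nat_lit 0) (nat_lit 0) (nat_lit 0x7de265dbc0) (nat_lit 1038465792),
  Rx.mk (nat_lit 207) (nat_lit 7) (nat_lit 1) (nat_lit 3) (nat_lit 7) (nat_lit 223) (nat_lit 292) r8_223 r5_292 (nat_lit 0) (nat_lit 0) (nat_lit 0) (nat_lit 0x7df2463daa) (nat_lit 1008024264)]
noncomputable def e45_32 : List Rx := [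
  Rx.mk (nat_lit 47) (nat_lit 7) (nat_lit 5) (nat_lit 0) (nat_lit 3) (nat_lit 244) (nat_lit 381) r8_244 r11_381 (nat_lit 0) (nat_lit 0) (nat_lit 0) (nat_lit 0x7d6133cf62) (nat_lit 1286184744),
  Rx.mk (nat_lit 111) (nat_lit 7) (nat_lit 5) (nat_lit 1) (nat_lit 7) (nat_lit 245) (nat_lit 382) r8_245 r11_382 (nat_lit 0) (nat_lit 0) (nat_lit 0) (nat_lit 0x7de71770a2) (nat_lit 1029466152),
  Rx.mk (nat_lit 207) (nat_lit 7) (nat_lit 1) (nat_lit 3) (nat_lit 7) (nat_lit 247) (nat_lit 380) r8_247 r11_380 (nat_lit 0) (nat_lit 0) (nat_lit 0) (nat_lit 0x7dbdfec256) (nat_lit 1108264248),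
  Rx.mk (nat_lit 239) (nat_lit 7) (nat_lit 5) (nat_lit 3) (nat_lit 7) (nat_lit 246) (nat_lit 383) r8_246 r11_383 (nat_lit 0) (nat_lit 0) (nat_lit 0) (nat_lit 0x7de2f0331a) (nat_lit 1037429640)]
noncomputable def e45_33 : List Rx := [
  Rx.mk (nat_lit 0) (nat_lit 0) (nat_lit 0) (nat_lit 0) (nat_lit 0) (nat_lit 23) (nat_lit 155) r8_23 r0_155 (nat_lit 0) (nat_lit 0) (nat_lit 0) (nat_lit 0x2380ce4fa0) (nat_lit 45402394752),
  Rx.mk (nat_lit 3) (nat_lit 3) (nat_lit 0) (nat_lit 0) (nat_lit 1) (nat_lit 25) (nat_lit 161) r8_25 r0_161 (nat_lit 0) (nat_lit 0) (nat_lit 0) (nat_lit 0x6eebb9b57a) (nat_lit 8383382280),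
  Rx.mk (nat_lit 8) (nat_lit 0) (nat_lit 1) (nat_lit 0) (nat_lit 2) (nat_lit 24) (nat_lit 156) r8_24 r0_156 (nat_lit 0) (nat_lit 0) (nat_lit 0) (nat_lit 0x68034003fe) (nat_lit 11774250072),
  Rx.mk (nat_lit 11) (nat_lit 3) (nat_lit 1) (nat_lit 0) (nat_lit 3) (nat_lit 26) (nat_lit 162) r8_26 r0_162 (nat_lit 0) (nat_lit 0) (nat_lit 0) (nat_lit 0x7dd9e10416) (nat_lit 1054799928),
  Rx.mk (nat_lit 72) (nat_lit 0) (nat_lit 1) (nat_lit 1) (nat_lit 6) (nat_lit 27) (nat_lit 157) r8_27 r0_157 (nat_lit 0) (nat_lit 0) (nat_lit 0) (nat_lit 0x7dafa1a836) (nat_lit 1135805112),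
  Rx.mk (nat_lit 75) (nat_lit 3) (nat_lit 1) (nat_lit 1) (nat_lit 7) (nat_lit 28) (nat_lit 163) r8_28 r0_163 (nat_lit 0) (nat_lit 0) (nat_lit 0) (nat_lit 0x7df8ad5732) (nat_lit 995747688),
  Rx.mk (nat_lit 128) (nat_lit 0) (nat_lit 0) (nat_lit 2) (nat_lit 4) (nat_lit 29) (nat_lit 158) r8_29 r0_158 (nat_lit 0) (nat_lit 0) (nat_lit 0) (nat_lit 0x6bb29a6aa8) (nat_lit 9965468448),
  Rx.mk (nat_lit 131) (nat_lit 3) (nat_lit 0) (nat_lit 2) (nat_lit 5) (nat_lit 33) (nat_lit 167) r8_33 r0_167 (nat_lit 0) (nat_lit 0) (nat_lit 0) (nat_lit 0x7db254fcfe) (nat_lit 1130627160),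
  Rx.mk (nat_lit 136) (nat_lit 0) (nat_lit 1) (nat_lit 2) (nat_lit 6) (nat_lit 30) (nat_lit 159) r8_30 r0_159 (nat_lit 0) (nat_lit 0) (nat_lit 0) (nat_lit 0x7dd4e773b4) (nat_lit 1064338704),
  Rx.mk (nat_lit 139) (nat_lit 3) (nat_lit 1) (nat_lit 2) (nat_lit 7) (nat_lit 34) (nat_lit 168) r8_34 r0_168 (nat_lit 0) (nat_lit 0) (nat_lit 0) (nat_lit 0x7df1b4c6c2) (nat_lit 1009113768),
  Rx.mk (nat_lit 144) (nat_lit 0) (nat_lit 2) (nat_lit 2) (nat_lit 6) (nat_lit 31) (nat_lit 160) r8_31 r0_160 (nat_lit 0) (nat_lit 0) (nat_lit 0) (nat_lit 0x7d2f99a936) (nat_lit 1381291704),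
  Rx.mk (nat_lit 146) (nat_lit 2) (nat_lit 2) (nat_lit 2) (nat_lit 7) (nat_lit 32) (nat_lit 170) r8_32 r0_170 (nat_lit 0) (nat_lit 0) (nat_lit 0) (nat_lit 0x7d8f316f5a) (nat_lit 1198002312),
  Rx.mk (nat_lit 147) (nat_lit 3) (nat_lit 2) (nat_lit 2) (nat_lit 7) (nat_lit 35) (nat_lit 169) r8_35 r0_169 (nat_lit 0) (nat_lit 0) (nat_lit 0) (nat_lit 0x7df06cbb44) (nat_lit 1011570768),
  Rx.mk (nat_lit 195) (nat_lit 3) (nat_lit 0) (nat_lit 3) (nat_lit 5) (nat_lit 37) (nat_lit 164) r8_37 r0_164 (nat_lit 0) (nat_lit 0) (nat_lit 0) (nat_lit 0x7d6504125a) (nat_lit 1278872712),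
  Rx.mk (nat_lit 203) (nat_lit 3) (nat_lit 1) (nat_lit 3) (nat_lit 7) (nat_lit 38) (nat_lit 165) r8_38 r0_165 (nat_lit 0) (nat_lit 0) (nat_lit 0) (nat_lit 0x7df299187c) (nat_lit 1007403696),
  Rx.mk (nat_lit 219) (nat_lit 3) (nat_lit 3) (nat_lit 3) (nat_lit 7) (nat_lit 39) (nat_lit 166) r8_39 r0_166 (nat_lit 0) (nat_lit 0) (nat_lit 0) (nat_lit 0x7dde5a5c7c) (nat_lit 1046221488),
  Rx.mk (nat_lit 223) (nat_lit 7) (nat_lit 3) (nat_lit 3) (nat_lit 7) (nat_lit 36) (nat_lit 154) r8_36 r0_154 (nat_lit 0) (nat_lit 0) (nat_lit 0) (nat_lit 0x7df79428c6) (nat_lit 997853688)]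
noncomputable def e45_34 : List Rx := [
  Rx.mk (nat_lit 8) (nat_lit 0) (nat_lit 1) (nat_lit 0) (nat_lit 2) (nat_lit 155) (nat_lit 257) r8_155 r0_257 (nat_lit 0) (nat_lit 0) (nat_lit 0) (nat_lit 0x5d0382aad4) (nat_lit 17173138320),
  Rx.mk (nat_lit 11) (nat_lit 3) (nat_lit 1) (nat_lit 0) (nat_lit 3) (nat_lit 156) (nat_lit 258) r8_156 r0_258 (nat_lit 0) (nat_lit 0) (nat_lit 0) (nat_lit 0x7d665dbcbe) (nat_lit 1276283736),
  Rx.mk (nat_lit 72) (nat_lit 0) (nat_lit 1) (nat_lit 1) (nat_lit 6) (nat_lit 157) (nat_lit 259) r8_157 r0_259 (nat_lit 0) (nat_lit 0) (nat_lit 0) (nat_lit 0x7c68fe73b0) (nat_lit 1762098624),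
  Rx.mk (nat_lit 75) (nat_lit 3) (nat_lit 1) (nat_lit 1) (nat_lit 7) (nat_lit 158) (nat_lit 260) r8_158 r0_260 (nat_lit 0) (nat_lit 0) (nat_lit 0) (nat_lit 0x7de755acbe) (nat_lit 1029000024),
  Rx.mk (nat_lit 203) (nat_lit 3) (nat_lit 1) (nat_lit 3) (nat_lit 7) (nat_lit 159) (nat_lit 261) r8_159 r0_261 (nat_lit 0) (nat_lit 0) (nat_lit 0) (nat_lit 0x7df3be4628) (nat_lit 1005207840)]
noncomputable def e45_35 : List Rx := [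
  Rx.mk (nat_lit 0) (nat_lit 0) (nat_lit 0) (nat_lit 0) (nat_lit 0) (nat_lit 170) (nat_lit 204) r8_170 r6_204 (nat_lit 0) (nat_lit 0) (nat_lit 0) (nat_lit 0xca49969cc) (nat_lit 56623393008),
  Rx.mk (nat_lit 3) (nat_lit 3) (nat_lit 0) (nat_lit 0) (nat_lit 1) (nat_lit 172) (nat_lit 210) r8_172 r6_210 (nat_lit 0) (nat_lit 0) (nat_lit 0) (nat_lit 0x700fb7547c) (nat_lit 7823520432),
  Rx.mk (nat_lit 8) (nat_lit 0) (nat_lit 1) (nat_lit 0) (nat_lit 2) (nat_lit 171) (nat_lit 205) r8_171 r6_205 (nat_lit 0) (nat_lit 0) (nat_lit 0) (nat_lit 0x4c79c53736) (nat_lit 25290895032),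
  Rx.mk (nat_lit 11) (nat_lit 3) (nat_lit 1) (nat_lit 0) (nat_lit 3) (nat_lit 173) (nat_lit 211) r8_173 r6_211 (nat_lit 0) (nat_lit 0) (nat_lit 0) (nat_lit 0x7dad56ece4) (nat_lit 1140199632),
  Rx.mk (nat_lit 72) (nat_lit 0) (nat_lit 1) (nat_lit 1) (nat_lit 6) (nat_lit 174) (nat_lit 206) r8_174 r6_206 (nat_lit 0) (nat_lit 0) (nat_lit 0) (nat_lit 0x7d5bdfe4a6) (nat_lit 1296400248),
  Rx.mk (nat_lit 75) (nat_lit 3) (nat_lit 1) (nat_lit 1) (nat_lit 7) (nat_lit 175) (nat_lit 212) r8_175 r6_212 (nat_lit 0) (nat_lit 0) (nat_lit 0) (nat_lit 0x7dd092d902) (nat_lit 1072641960),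
  Rx.mk (nat_lit 128) (nat_lit 0) (nat_lit 0) (nat_lit 2) (nat_lit 4) (nat_lit 176) (nat_lit 207) r8_176 r6_207 (nat_lit 0) (nat_lit 0) (nat_lit 0) (nat_lit 0x744f2f58bc) (nat_lit 5738411952),
  Rx.mk (nat_lit 136) (nat_lit 0) (nat_lit 1) (nat_lit 2) (nat_lit 6) (nat_lit 177) (nat_lit 208) r8_177 r6_208 (nat_lit 0) (nat_lit 0) (nat_lit 0) (nat_lit 0x7dce02c206) (nat_lit 1077555960),
  Rx.mk (nat_lit 144) (nat_lit 0) (nat_lit 2) (nat_lit 2) (nat_lit 6) (nat_lit 178) (nat_lit 209) r8_178 r6_209 (nat_lit 0) (nat_lit 0) (nat_lit 0) (nat_lit 0x7db87bfa88) (nat_lit 1118830752),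
  Rx.mk (nat_lit 146) (nat_lit 2) (nat_lit 2) (nat_lit 2) (nat_lit 7) (nat_lit 179) (nat_lit 216) r8_179 r6_216 (nat_lit 0) (nat_lit 0) (nat_lit 0) (nat_lit 0x7de59728a8) (nat_lit 1032344352),
  Rx.mk (nat_lit 195) (nat_lit 3) (nat_lit 0) (nat_lit 3) (nat_lit 5) (nat_lit 180) (nat_lit 213) r8_180 r6_213 (nat_lit 0) (nat_lit 0) (nat_lit 0) (nat_lit 0x7dd0e0d422) (nat_lit 1072057896),
  Rx.mk (nat_lit 203) (nat_lit 3) (nat_lit 1) (nat_lit 3) (nat_lit 7) (nat_lit 181) (nat_lit 214) r8_181 r6_214 (nat_lit 0) (nat_lit 0) (nat_lit 0) (nat_lit 0x7dc2a09834) (nat_lit 1099382544),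
  Rx.mk (nat_lit 219) (nat_lit 3) (nat_lit 3) (nat_lit 3) (nat_lit 7) (nat_lit 182) (nat_lit 215) r8_182 r6_215 (nat_lit 0) (nat_lit 0) (nat_lit 0) (nat_lit 0x7de5019202) (nat_lit 1033464744)]
noncomputable def e45_36 : List Rx := [
  Rx.mk (nat_lit 73) (nat_lit 1) (nat_lit 1) (nat_lit 1) (nat_lit 7) (nat_lit 293) (nat_lit 288) r8_293 r2_288 (nat_lit 0) (nat_lit 0) (nat_lit 0) (nat_lit 0x7dee79ba76) (nat_lit 1015308216)]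
noncomputable def e45_37 : List Rx := [
  Rx.mk (nat_lit 73) (nat_lit 1) (nat_lit 1) (nat_lit 1) (nat_lit 7) (nat_lit 299) (nat_lit 266) r8_299 r8_266 (nat_lit 0) (nat_lit 0) (nat_lit 0) (nat_lit 0x7de011610a) (nat_lit 1042933320)]
noncomputable def e45_38 : List Rx := [
  Rx.mk (nat_lit 73) (nat_lit 1) (nat_lit 1) (nat_lit 1) (nat_lit 7) (nat_lit 298) (nat_lit 298) r8_298 r8_298 (nat_lit 0) (nat_lit 0) (nat_lit 0) (nat_lit 0x7de30ad170) (nat_lit 1037230272)]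
noncomputable def e45_39 : List Rx := [
  Rx.mk (nat_lit 8) (nat_lit 0) (nat_lit 1) (nat_lit 0) (nat_lit 2) (nat_lit 160) (nat_lit 262) r8_160 r1_262 (nat_lit 0) (nat_lit 0) (nat_lit 0) (nat_lit 0x5e5dca2502) (nat_lit 16509183912),
  Rx.mk (nat_lit 9) (nat_lit 1) (nat_lit 1) (nat_lit 0) (nat_lit 3) (nat_lit 161) (nat_lit 263) r8_161 r1_263 (nat_lit 0) (nat_lit 0) (nat_lit 0) (nat_lit 0x7bd73b1078) (nat_lit 2041584480),
  Rx.mk (nat_lit 11) (nat_lit 3) (nat_lit 1) (nat_lit 0) (nat_lit 3) (nat_lit 162) (nat_lit 264) r8_162 r1_264 (nat_lit 0) (nat_lit 0) (nat_lit 0) (nat_lit 0x7d95c58612) (nat_lit 1185388776),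
  Rx.mk (nat_lit 72) (nat_lit 0) (nat_lit 1) (nat_lit 1) (nat_lit 6) (nat_lit 163) (nat_lit 265) r8_163 r1_265 (nat_lit 0) (nat_lit 0) (nat_lit 0) (nat_lit 0x7d825a3cda) (nat_lit 1222622856),
  Rx.mk (nat_lit 73) (nat_lit 1) (nat_lit 1) (nat_lit 1) (nat_lit 7) (nat_lit 164) (nat_lit 266) r8_164 r1_266 (nat_lit 0) (nat_lit 0) (nat_lit 0) (nat_lit 0x7d867bdabc) (nat_lit 1214701488),
  Rx.mk (nat_lit 75) (nat_lit 3) (nat_lit 1) (nat_lit 1) (nat_lit 7) (nat_lit 165) (nat_lit 267) r8_165 r1_267 (nat_lit 0) (nat_lit 0) (nat_lit 0) (nat_lit 0x7df4303f08) (nat_lit 1004354208),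
  Rx.mk (nat_lit 203) (nat_lit 3) (nat_lit 1) (nat_lit 3) (nat_lit 7) (nat_lit 166) (nat_lit 268) r8_166 r1_268 (nat_lit 0) (nat_lit 0) (nat_lit 0) (nat_lit 0x7df1600c0e) (nat_lit 1009748376)]
noncomputable def e45_40 : List Rx := [
  Rx.mk (nat_lit 0) (nat_lit 0) (nat_lit 0) (nat_lit 0) (nat_lit 0) (nat_lit 183) (nat_lit 159) r8_183 r7_159 (nat_lit 0) (nat_lit 0) (nat_lit 0) (nat_lit 0xf50b40576) (nat_lit 55311694776),
  Rx.mk (nat_lit 1) (nat_lit 1) (nat_lit 0) (nat_lit 0) (nat_lit 1) (nat_lit 185) (nat_lit 165) r8_185 r7_165 (nat_lit 0) (nat_lit 0) (nat_lit 0) (nat_lit 0x5ded7eea26) (nat_lit 16724495736),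
  Rx.mk (nat_lit 3) (nat_lit 3) (nat_lit 0) (nat_lit 0) (nat_lit 1) (nat_lit 187) (nat_lit 171) r8_187 r7_171 (nat_lit 0) (nat_lit 0) (nat_lit 0) (nat_lit 0x6bc7e5f5da) (nat_lit 9924637320),
  Rx.mk (nat_lit 8) (nat_lit 0) (nat_lit 1) (nat_lit 0) (nat_lit 2) (nat_lit 184) (nat_lit 160) r8_184 r7_160 (nat_lit 0) (nat_lit 0) (nat_lit 0) (nat_lit 0x6e6da8770c) (nat_lit 8625103344),
  Rx.mk (nat_lit 9) (nat_lit 1) (nat_lit 1) (nat_lit 0) (nat_lit 3) (nat_lit 186) (nat_lit 166) r8_186 r7_166 (nat_lit 0) (nat_lit 0) (nat_lit 0) (nat_lit 0x7c45bbc7fe) (nat_lit 1829706840),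
  Rx.mk (nat_lit 11) (nat_lit 3) (nat_lit 1) (nat_lit 0) (nat_lit 3) (nat_lit 188) (nat_lit 172) r8_188 r7_172 (nat_lit 0) (nat_lit 0) (nat_lit 0) (nat_lit 0x7d82afb782) (nat_lit 1221982632),
  Rx.mk (nat_lit 72) (nat_lit 0) (nat_lit 1) (nat_lit 1) (nat_lit 6) (nat_lit 189) (nat_lit 161) r8_189 r7_161 (nat_lit 0) (nat_lit 0) (nat_lit 0) (nat_lit 0x7d74577d14) (nat_lit 1249486992),
  Rx.mk (nat_lit 73) (nat_lit 1) (nat_lit 1) (nat_lit 1) (nat_lit 7) (nat_lit 190) (nat_lit 167) r8_190 r7_167 (nat_lit 0) (nat_lit 0) (nat_lit 0) (nat_lit 0x7db6535d14) (nat_lit 1122969744),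
  Rx.mk (nat_lit 75) (nat_lit 3) (nat_lit 1) (nat_lit 1) (nat_lit 7) (nat_lit 191) (nat_lit 173) r8_191 r7_173 (nat_lit 0) (nat_lit 0) (nat_lit 0) (nat_lit 0x7dea7a9a6c) (nat_lit 1022971248),
  Rx.mk (nat_lit 128) (nat_lit 0) (nat_lit 0) (nat_lit 2) (nat_lit 4) (nat_lit 192) (nat_lit 162) r8_192 r7_162 (nat_lit 0) (nat_lit 0) (nat_lit 0) (nat_lit 0x69ea215402) (nat_lit 10840708008),
  Rx.mk (nat_lit 129) (nat_lit 1) (nat_lit 0) (nat_lit 2) (nat_lit 5) (nat_lit 195) (nat_lit 168) r8_195 r7_168 (nat_lit 0) (nat_lit 0) (nat_lit 0) (nat_lit 0x7dc8110128) (nat_lit 1088953632),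
  Rx.mk (nat_lit 136) (nat_lit 0) (nat_lit 1) (nat_lit 2) (nat_lit 6) (nat_lit 193) (nat_lit 163) r8_193 r7_163 (nat_lit 0) (nat_lit 0) (nat_lit 0) (nat_lit 0x7dd111311c) (nat_lit 1071695664),
  Rx.mk (nat_lit 137) (nat_lit 1) (nat_lit 1) (nat_lit 2) (nat_lit 7) (nat_lit 196) (nat_lit 169) r8_196 r7_169 (nat_lit 0) (nat_lit 0) (nat_lit 0) (nat_lit 0x7df38ba952) (nat_lit 1005586920),
  Rx.mk (nat_lit 144) (nat_lit 0) (nat_lit 2) (nat_lit 2) (nat_lit 6) (nat_lit 194) (nat_lit 164) r8_194 r7_164 (nat_lit 0) (nat_lit 0) (nat_lit 0) (nat_lit 0x7dde503d1e) (nat_lit 1046297304),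
  Rx.mk (nat_lit 145) (nat_lit 1) (nat_lit 2) (nat_lit 2) (nat_lit 7) (nat_lit 197) (nat_lit 170) r8_197 r7_170 (nat_lit 0) (nat_lit 0) (nat_lit 0) (nat_lit 0x7df0e8138e) (nat_lit 1010646936),
  Rx.mk (nat_lit 146) (nat_lit 2) (nat_lit 2) (nat_lit 2) (nat_lit 7) (nat_lit 198) (nat_lit 177) r8_198 r7_177 (nat_lit 0) (nat_lit 0) (nat_lit 0) (nat_lit 0x7ddc561cc2) (nat_lit 1050088104),
  Rx.mk (nat_lit 195) (nat_lit 3) (nat_lit 0) (nat_lit 3) (nat_lit 5) (nat_lit 199) (nat_lit 174) r8_199 r7_174 (nat_lit 0) (nat_lit 0) (nat_lit 0) (nat_lit 0x7dcf674bbc) (nat_lit 1074885552),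
  Rx.mk (nat_lit 203) (nat_lit 3) (nat_lit 1) (nat_lit 3) (nat_lit 7) (nat_lit 200) (nat_lit 175) r8_200 r7_175 (nat_lit 0) (nat_lit 0) (nat_lit 0) (nat_lit 0x7ddabb966c) (nat_lit 1053162864),
  Rx.mk (nat_lit 219) (nat_lit 3) (nat_lit 3) (nat_lit 3) (nat_lit 7) (nat_lit 201) (nat_lit 176) r8_201 r7_176 (nat_lit 0) (nat_lit 0) (nat_lit 0) (nat_lit 0x7dec61fbf4) (nat_lit 1019320848)]
noncomputable def e45_41 : List Rx := [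
  Rx.mk (nat_lit 0) (nat_lit 0) (nat_lit 0) (nat_lit 0) (nat_lit 0) (nat_lit 40) (nat_lit 170) r8_40 r1_170 (nat_lit 0) (nat_lit 0) (nat_lit 0) (nat_lit 0x26a0315650) (nat_lit 43869653568),
  Rx.mk (nat_lit 3) (nat_lit 3) (nat_lit 0) (nat_lit 0) (nat_lit 1) (nat_lit 41) (nat_lit 173) r8_41 r1_173 (nat_lit 0) (nat_lit 0) (nat_lit 0) (nat_lit 0x67ac0677ee) (nat_lit 11941494552),
  Rx.mk (nat_lit 128) (nat_lit 0) (nat_lit 0) (nat_lit 2) (nat_lit 4) (nat_lit 42) (nat_lit 171) r8_42 r1_171 (nat_lit 0) (nat_lit 0) (nat_lit 0) (nat_lit 0x6aa9b3da1a) (nat_lit 10473387912),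
  Rx.mk (nat_lit 131) (nat_lit 3) (nat_lit 0) (nat_lit 2) (nat_lit 5) (nat_lit 45) (nat_lit 176) r8_45 r1_176 (nat_lit 0) (nat_lit 0) (nat_lit 0) (nat_lit 0x7dc7b886b0) (nat_lit 1089616320),
  Rx.mk (nat_lit 144) (nat_lit 0) (nat_lit 2) (nat_lit 2) (nat_lit 6) (nat_lit 43) (nat_lit 172) r8_43 r1_172 (nat_lit 0) (nat_lit 0) (nat_lit 0) (nat_lit 0x7ccbdaa58a) (nat_lit 1572544584),
  Rx.mk (nat_lit 146) (nat_lit 2) (nat_lit 2) (nat_lit 2) (nat_lit 7) (nat_lit 44) (nat_lit 178) r8_44 r1_178 (nat_lit 0) (nat_lit 0) (nat_lit 0) (nat_lit 0x7d9c4f7d6c) (nat_lit 1172851056),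
  Rx.mk (nat_lit 147) (nat_lit 3) (nat_lit 2) (nat_lit 2) (nat_lit 7) (nat_lit 46) (nat_lit 177) r8_46 r1_177 (nat_lit 0) (nat_lit 0) (nat_lit 0) (nat_lit 0x7de6d574c2) (nat_lit 1029960360),
  Rx.mk (nat_lit 195) (nat_lit 3) (nat_lit 0) (nat_lit 3) (nat_lit 5) (nat_lit 48) (nat_lit 174) r8_48 r1_174 (nat_lit 0) (nat_lit 0) (nat_lit 0) (nat_lit 0x7d65dd24c8) (nat_lit 1277246880),
  Rx.mk (nat_lit 219) (nat_lit 3) (nat_lit 3) (nat_lit 3) (nat_lit 7) (nat_lit 49) (nat_lit 175) r8_49 r1_175 (nat_lit 0) (nat_lit 0) (nat_lit 0) (nat_lit 0x7dbc1ee056) (nat_lit 1111858488),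
  Rx.mk (nat_lit 223) (nat_lit 7) (nat_lit 3) (nat_lit 3) (nat_lit 7) (nat_lit 47) (nat_lit 169) r8_47 r1_169 (nat_lit 0) (nat_lit 0) (nat_lit 0) (nat_lit 0x7df3ef031c) (nat_lit 1004842800)]
noncomputable def e45_42 : List Rx := [
  Rx.mk (nat_lit 0) (nat_lit 0) (nat_lit 0) (nat_lit 0) (nat_lit 0) (nat_lit 2) (nat_lit 170) r8_2 r2_170 (nat_lit 0) (nat_lit 0) (nat_lit 0) (nat_lit 0x22bc65d6ec) (nat_lit 45778986864),
  Rx.mk (nat_lit 3) (nat_lit 3) (nat_lit 0) (nat_lit 0) (nat_lit 1) (nat_lit 3) (nat_lit 173) r8_3 r2_173 (nat_lit 0) (nat_lit 0) (nat_lit 0) (nat_lit 0x69ae26f3e4) (nat_lit 10955709648),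
  Rx.mk (nat_lit 27) (nat_lit 3) (nat_lit 3) (nat_lit 0) (nat_lit 3) (nat_lit 4) (nat_lit 174) r8_4 r2_174 (nat_lit 0) (nat_lit 0) (nat_lit 0) (nat_lit 0x7bd6535ef4) (nat_lit 2043319824),
  Rx.mk (nat_lit 128) (nat_lit 0) (nat_lit 0) (nat_lit 2) (nat_lit 4) (nat_lit 5) (nat_lit 171) r8_5 r2_171 (nat_lit 0) (nat_lit 0) (nat_lit 0) (nat_lit 0x6cc1809b36) (nat_lit 9446047416),
  Rx.mk (nat_lit 131) (nat_lit 3) (nat_lit 0) (nat_lit 2) (nat_lit 5) (nat_lit 8) (nat_lit 176) r8_8 r2_176 (nat_lit 0) (nat_lit 0) (nat_lit 0) (nat_lit 0x7d4d86ea44) (nat_lit 1323910224),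
  Rx.mk (nat_lit 144) (nat_lit 0) (nat_lit 2) (nat_lit 2) (nat_lit 6) (nat_lit 6) (nat_lit 172) r8_6 r2_172 (nat_lit 0) (nat_lit 0) (nat_lit 0) (nat_lit 0x7b78681e06) (nat_lit 2223399672),
  Rx.mk (nat_lit 146) (nat_lit 2) (nat_lit 2) (nat_lit 2) (nat_lit 7) (nat_lit 7) (nat_lit 179) r8_7 r2_179 (nat_lit 0) (nat_lit 0) (nat_lit 0) (nat_lit 0x7de2b616bc) (nat_lit 1037864880),
  Rx.mk (nat_lit 147) (nat_lit 3) (nat_lit 2) (nat_lit 2) (nat_lit 7) (nat_lit 9) (nat_lit 178) r8_9 r2_178 (nat_lit 0) (nat_lit 0) (nat_lit 0) (nat_lit 0x7df040de02) (nat_lit 1011899304),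
  Rx.mk (nat_lit 155) (nat_lit 3) (nat_lit 3) (nat_lit 2) (nat_lit 7) (nat_lit 10) (nat_lit 177) r8_10 r2_177 (nat_lit 0) (nat_lit 0) (nat_lit 0) (nat_lit 0x7da7826a32) (nat_lit 1151378280),
  Rx.mk (nat_lit 219) (nat_lit 3) (nat_lit 3) (nat_lit 3) (nat_lit 7) (nat_lit 13) (nat_lit 175) r8_13 r2_175 (nat_lit 0) (nat_lit 0) (nat_lit 0) (nat_lit 0x7db8d11536) (nat_lit 1118193336),
  Rx.mk (nat_lit 223) (nat_lit 7) (nat_lit 3) (nat_lit 3) (nat_lit 7) (nat_lit 12) (nat_lit 169) r8_12 r2_169 (nat_lit 0) (nat_lit 0) (nat_lit 0) (nat_lit 0x7dd4cc7564) (nat_lit 1064540880),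
  Rx.mk (nat_lit 255) (nat_lit 7) (nat_lit 7) (nat_lit 3) (nat_lit 7) (nat_lit 11) (nat_lit 168) r8_11 r2_168 (nat_lit 0) (nat_lit 0) (nat_lit 0) (nat_lit 0x7dc7103136) (nat_lit 1090877112)]
noncomputable def e45_43 : List Rx := [
  Rx.mk (nat_lit 0) (nat_lit 0) (nat_lit 0) (nat_lit 0) (nat_lit 0) (nat_lit 202) (nat_lit 266) r8_202 r7_266 (nat_lit 0) (nat_lit 0) (nat_lit 0) (nat_lit 0x2a267bae24) (nat_lit 42139605456),
  Rx.mk (nat_lit 3) (nat_lit 3) (nat_lit 0) (nat_lit 0) (nat_lit 1) (nat_lit 203) (nat_lit 267) r8_203 r7_267 (nat_lit 0) (nat_lit 0) (nat_lit 0) (nat_lit 0x6f84370d0c) (nat_lit 8090999280),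
  Rx.mk (nat_lit 128) (nat_lit 0) (nat_lit 0) (nat_lit 2) (nat_lit 4) (nat_lit 204) (nat_lit 269) r8_204 r7_269 (nat_lit 0) (nat_lit 0) (nat_lit 0) (nat_lit 0x795a3b62f0) (nat_lit 3262963392),
  Rx.mk (nat_lit 144) (nat_lit 0) (nat_lit 2) (nat_lit 2) (nat_lit 6) (nat_lit 205) (nat_lit 271) r8_205 r7_271 (nat_lit 0) (nat_lit 0) (nat_lit 0) (nat_lit 0x7d7fa68818) (nat_lit 1227803616),
  Rx.mk (nat_lit 146) (nat_lit 2) (nat_lit 2) (nat_lit 2) (nat_lit 7) (nat_lit 206) (nat_lit 272) r8_206 r7_272 (nat_lit 0) (nat_lit 0) (nat_lit 0) (nat_lit 0x7dcfdbe472) (nat_lit 1074012264),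
  Rx.mk (nat_lit 195) (nat_lit 3) (nat_lit 0) (nat_lit 3) (nat_lit 5) (nat_lit 207) (nat_lit 268) r8_207 r7_268 (nat_lit 0) (nat_lit 0) (nat_lit 0) (nat_lit 0x7d6bde44b0) (nat_lit 1265734080),
  Rx.mk (nat_lit 219) (nat_lit 3) (nat_lit 3) (nat_lit 3) (nat_lit 7) (nat_lit 208) (nat_lit 270) r8_208 r7_270 (nat_lit 0) (nat_lit 0) (nat_lit 0) (nat_lit 0x7dd1cb257c) (nat_lit 1070302896)]
noncomputable def e45_44 : List Rx := [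
  Rx.mk (nat_lit 0) (nat_lit 0) (nat_lit 0) (nat_lit 0) (nat_lit 0) (nat_lit 148) (nat_lit 148) r8_148 r8_148 (nat_lit 0) (nat_lit 0) (nat_lit 0) (nat_lit 0x3e5d013194) (nat_lit 32217997968),
  Rx.mk (nat_lit 3) (nat_lit 3) (nat_lit 0) (nat_lit 0) (nat_lit 1) (nat_lit 149) (nat_lit 151) r8_149 r8_151 (nat_lit 0) (nat_lit 0) (nat_lit 0) (nat_lit 0x6d5949fe08) (nat_lit 9155012256),
  Rx.mk (nat_lit 27) (nat_lit 3) (nat_lit 3) (nat_lit 0) (nat_lit 3) (nat_lit 150) (nat_lit 152) r8_150 r8_152 (nat_lit 0) (nat_lit 0) (nat_lit 0) (nat_lit 0x7d406dbbe4) (nat_lit 1349024976),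
  Rx.mk (nat_lit 128) (nat_lit 0) (nat_lit 0) (nat_lit 2) (nat_lit 4) (nat_lit 151) (nat_lit 149) r8_151 r8_149 (nat_lit 0) (nat_lit 0) (nat_lit 0) (nat_lit 0x6d5949fe08) (nat_lit 9155012256),
  Rx.mk (nat_lit 144) (nat_lit 0) (nat_lit 2) (nat_lit 2) (nat_lit 6) (nat_lit 152) (nat_lit 150) r8_152 r8_150 (nat_lit 0) (nat_lit 0) (nat_lit 0) (nat_lit 0x7d406dbbe4) (nat_lit 1349024976),
  Rx.mk (nat_lit 146) (nat_lit 2) (nat_lit 2) (nat_lit 2) (nat_lit 7) (nat_lit 153) (nat_lit 154) r8_153 r8_154 (nat_lit 0) (nat_lit 0) (nat_lit 0) (nat_lit 0x7de2fc9254) (nat_lit 1037336976),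
  Rx.mk (nat_lit 219) (nat_lit 3) (nat_lit 3) (nat_lit 3) (nat_lit 7) (nat_lit 154) (nat_lit 153) r8_154 r8_153 (nat_lit 0) (nat_lit 0) (nat_lit 0) (nat_lit 0x7de2fc9254) (nat_lit 1037336976)]
noncomputable def e45_45 : List Rx := [
  Rx.mk (nat_lit 0) (nat_lit 0) (nat_lit 0) (nat_lit 0) (nat_lit 0) (nat_lit 121) (nat_lit 109) r8_121 r8_109 (nat_lit 0) (nat_lit 0) (nat_lit 0) (nat_lit 0x1d7bba276) (nat_lit 61924736952),
  Rx.mk (nat_lit 3) (nat_lit 3) (nat_lit 0) (nat_lit 0) (nat_lit 1) (nat_lit 122) (nat_lit 110) r8_122 r8_110 (nat_lit 0) (nat_lit 0) (nat_lit 0) (nat_lit 0x532e67865c) (nat_lit 21999427632),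
  Rx.mk (nat_lit 27) (nat_lit 3) (nat_lit 3) (nat_lit 0) (nat_lit 3) (nat_lit 123) (nat_lit 111) r8_123 r8_111 (nat_lit 0) (nat_lit 0) (nat_lit 0) (nat_lit 0x79b20905be) (nat_lit 3094609752),
  Rx.mk (nat_lit 128) (nat_lit 0) (nat_lit 0) (nat_lit 2) (nat_lit 4) (nat_lit 124) (nat_lit 115) r8_124 r8_115 (nat_lit 0) (nat_lit 0) (nat_lit 0) (nat_lit 0x5ed8d0b41e) (nat_lit 16273295064),
  Rx.mk (nat_lit 131) (nat_lit 3) (nat_lit 0) (nat_lit 2) (nat_lit 5) (nat_lit 127) (nat_lit 117) r8_127 r8_117 (nat_lit 0) (nat_lit 0) (nat_lit 0) (nat_lit 0x7cadb6a7e8) (nat_lit 1630336032),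
  Rx.mk (nat_lit 144) (nat_lit 0) (nat_lit 2) (nat_lit 2) (nat_lit 6) (nat_lit 125) (nat_lit 116) r8_125 r8_116 (nat_lit 0) (nat_lit 0) (nat_lit 0) (nat_lit 0x73b2d97eb6) (nat_lit 6038168760),
  Rx.mk (nat_lit 146) (nat_lit 2) (nat_lit 2) (nat_lit 2) (nat_lit 7) (nat_lit 126) (nat_lit 120) r8_126 r8_120 (nat_lit 0) (nat_lit 0) (nat_lit 0) (nat_lit 0x7daae6b3ea) (nat_lit 1144874952),
  Rx.mk (nat_lit 147) (nat_lit 3) (nat_lit 2) (nat_lit 2) (nat_lit 7) (nat_lit 128) (nat_lit 119) r8_128 r8_119 (nat_lit 0) (nat_lit 0) (nat_lit 0) (nat_lit 0x7d78fd12b6) (nat_lit 1240577208),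
  Rx.mk (nat_lit 155) (nat_lit 3) (nat_lit 3) (nat_lit 2) (nat_lit 7) (nat_lit 129) (nat_lit 118) r8_129 r8_118 (nat_lit 0) (nat_lit 0) (nat_lit 0) (nat_lit 0x7df4603c08) (nat_lit 1003994784),
  Rx.mk (nat_lit 219) (nat_lit 3) (nat_lit 3) (nat_lit 3) (nat_lit 7) (nat_lit 132) (nat_lit 112) r8_132 r8_112 (nat_lit 0) (nat_lit 0) (nat_lit 0) (nat_lit 0x7dbc36ded6) (nat_lit 1111678776),
  Rx.mk (nat_lit 223) (nat_lit 7) (nat_lit 3) (nat_lit 3) (nat_lit 7) (nat_lit 131) (nat_lit 113) r8_131 r8_113 (nat_lit 0) (nat_lit 0) (nat_lit 0) (nat_lit 0x7da45e3c78) (nat_lit 1157401440),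
  Rx.mk (nat_lit 255) (nat_lit 7) (nat_lit 7) (nat_lit 3) (nat_lit 7) (nat_lit 130) (nat_lit 114) r8_130 r8_114 (nat_lit 0) (nat_lit 0) (nat_lit 0) (nat_lit 0x7dbc3f7e4c) (nat_lit 1111614192),
  Rx.mk (nat_lit 292) (nat_lit 4) (nat_lit 4) (nat_lit 4) (nat_lit 0) (nat_lit 109) (nat_lit 121) r8_109 r8_121 (nat_lit 0) (nat_lit 0) (nat_lit 0) (nat_lit 0x1d7bba276) (nat_lit 61924736952),
  Rx.mk (nat_lit 294) (nat_lit 6) (nat_lit 4) (nat_lit 4) (nat_lit 1) (nat_lit 110) (nat_lit 122) r8_110 r8_122 (nat_lit 0) (nat_lit 0) (nat_lit 0) (nat_lit 0x532e67865c) (nat_lit 21999427632),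
  Rx.mk (nat_lit 310) (nat_lit 6) (nat_lit 6) (nat_lit 4) (nat_lit 3) (nat_lit 111) (nat_lit 123) r8_111 r8_123 (nat_lit 0) (nat_lit 0) (nat_lit 0) (nat_lit 0x79b20905be) (nat_lit 3094609752),
  Rx.mk (nat_lit 402) (nat_lit 2) (nat_lit 2) (nat_lit 6) (nat_lit 7) (nat_lit 114) (nat_lit 130) r8_114 r8_130 (nat_lit 0) (nat_lit 0) (nat_lit 0) (nat_lit 0x7dbc3f7e4c) (nat_lit 1111614192),
  Rx.mk (nat_lit 434) (nat_lit 2) (nat_lit 6) (nat_lit 6) (nat_lit 7) (nat_lit 113) (nat_lit 131) r8_113 r8_131 (nat_lit 0) (nat_lit 0) (nat_lit 0) (nat_lit 0x7da45e3c78) (nat_lit 1157401440),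
  Rx.mk (nat_lit 438) (nat_lit 6) (nat_lit 6) (nat_lit 6) (nat_lit 7) (nat_lit 112) (nat_lit 132) r8_112 r8_132 (nat_lit 0) (nat_lit 0) (nat_lit 0) (nat_lit 0x7dbc36ded6) (nat_lit 1111678776),
  Rx.mk (nat_lit 484) (nat_lit 4) (nat_lit 4) (nat_lit 7) (nat_lit 4) (nat_lit 115) (nat_lit 124) r8_115 r8_124 (nat_lit 0) (nat_lit 0) (nat_lit 0) (nat_lit 0x5ed8d0b41e) (nat_lit 16273295064),
  Rx.mk (nat_lit 486) (nat_lit 6) (nat_lit 4) (nat_lit 7) (nat_lit 5) (nat_lit 117) (nat_lit 127) r8_117 r8_127 (nat_lit 0) (nat_lit 0) (nat_lit 0) (nat_lit 0x7cadb6a7e8) (nat_lit 1630336032),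
  Rx.mk (nat_lit 502) (nat_lit 6) (nat_lit 6) (nat_lit 7) (nat_lit 7) (nat_lit 118) (nat_lit 129) r8_118 r8_129 (nat_lit 0) (nat_lit 0) (nat_lit 0) (nat_lit 0x7df4603c08) (nat_lit 1003994784),
  Rx.mk (nat_lit 508) (nat_lit 4) (nat_lit 7) (nat_lit 7) (nat_lit 6) (nat_lit 116) (nat_lit 125) r8_116 r8_125 (nat_lit 0) (nat_lit 0) (nat_lit 0) (nat_lit 0x73b2d97eb6) (nat_lit 6038168760),
  Rx.mk (nat_lit 510) (nat_lit 6) (nat_lit 7) (nat_lit 7) (nat_lit 7) (nat_lit 119) (nat_lit 128) r8_119 r8_128 (nat_lit 0) (nat_lit 0) (nat_lit 0) (nat_lit 0x7d78fd12b6) (nat_lit 1240577208),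
  Rx.mk (nat_lit 511) (nat_lit 7) (nat_lit 7) (nat_lit 7) (nat_lit 7) (nat_lit 120) (nat_lit 126) r8_120 r8_126 (nat_lit 0) (nat_lit 0) (nat_lit 0) (nat_lit 0x7daae6b3ea) (nat_lit 1144874952)]
noncomputable def e45_46 : List Rx := [
  Rx.mk (nat_lit 3) (nat_lit 3) (nat_lit 0) (nat_lit 0) (nat_lit 1) (nat_lit 50) (nat_lit 147) r8_50 r4_147 (nat_lit 0) (nat_lit 0) (nat_lit 0) (nat_lit 0x6c5214126e) (nat_lit 9659691288),
  Rx.mk (nat_lit 11) (nat_lit 3) (nat_lit 1) (nat_lit 0) (nat_lit 3) (nat_lit 51) (nat_lit 148) r8_51 r4_148 (nat_lit 0) (nat_lit 0) (nat_lit 0) (nat_lit 0x7dc4b916aa) (nat_lit 1095364296),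
  Rx.mk (nat_lit 75) (nat_lit 3) (nat_lit 1) (nat_lit 1) (nat_lit 7) (nat_lit 52) (nat_lit 149) r8_52 r4_149 (nat_lit 0) (nat_lit 0) (nat_lit 0) (nat_lit 0x7df5dd2438) (nat_lit 1001141856),
  Rx.mk (nat_lit 131) (nat_lit 3) (nat_lit 0) (nat_lit 2) (nat_lit 5) (nat_lit 53) (nat_lit 152) r8_53 r4_152 (nat_lit 0) (nat_lit 0) (nat_lit 0) (nat_lit 0x7ddbcbc568) (nat_lit 1051124256),
  Rx.mk (nat_lit 139) (nat_lit 3) (nat_lit 1) (nat_lit 2) (nat_lit 7) (nat_lit 54) (nat_lit 153) r8_54 r4_153 (nat_lit 0) (nat_lit 0) (nat_lit 0) (nat_lit 0x7de39ca852) (nat_lit 1036137960),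
  Rx.mk (nat_lit 147) (nat_lit 3) (nat_lit 2) (nat_lit 2) (nat_lit 7) (nat_lit 55) (nat_lit 154) r8_55 r4_154 (nat_lit 0) (nat_lit 0) (nat_lit 0) (nat_lit 0x7df7378e90) (nat_lit 998547264),
  Rx.mk (nat_lit 195) (nat_lit 3) (nat_lit 0) (nat_lit 3) (nat_lit 5) (nat_lit 59) (nat_lit 150) r8_59 r4_150 (nat_lit 0) (nat_lit 0) (nat_lit 0) (nat_lit 0x7dc71c9070) (nat_lit 1090784448),
  Rx.mk (nat_lit 199) (nat_lit 7) (nat_lit 0) (nat_lit 3) (nat_lit 5) (nat_lit 56) (nat_lit 144) r8_56 r4_144 (nat_lit 0) (nat_lit 0) (nat_lit 0) (nat_lit 0x7db61d007a) (nat_lit 1123376904),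
  Rx.mk (nat_lit 203) (nat_lit 3) (nat_lit 1) (nat_lit 3) (nat_lit 7) (nat_lit 60) (nat_lit 151) r8_60 r4_151 (nat_lit 0) (nat_lit 0) (nat_lit 0) (nat_lit 0x7df5b98672) (nat_lit 1001408616),
  Rx.mk (nat_lit 207) (nat_lit 7) (nat_lit 1) (nat_lit 3) (nat_lit 7) (nat_lit 57) (nat_lit 145) r8_57 r4_145 (nat_lit 0) (nat_lit 0) (nat_lit 0) (nat_lit 0x7dde50fd12) (nat_lit 1046291688),
  Rx.mk (nat_lit 223) (nat_lit 7) (nat_lit 3) (nat_lit 3) (nat_lit 7) (nat_lit 58) (nat_lit 146) r8_58 r4_146 (nat_lit 0) (nat_lit 0) (nat_lit 0) (nat_lit 0x7de458dc8e) (nat_lit 1034728344)]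
noncomputable def e45_47 : List Rx := [
  Rx.mk (nat_lit 11) (nat_lit 3) (nat_lit 1) (nat_lit 0) (nat_lit 3) (nat_lit 167) (nat_lit 273) r8_167 r4_273 (nat_lit 0) (nat_lit 0) (nat_lit 0) (nat_lit 0x7db654dcfc) (nat_lit 1122958512),
  Rx.mk (nat_lit 75) (nat_lit 3) (nat_lit 1) (nat_lit 1) (nat_lit 7) (nat_lit 168) (nat_lit 274) r8_168 r4_274 (nat_lit 0) (nat_lit 0) (nat_lit 0) (nat_lit 0x7de3238fe4) (nat_lit 1037044944),
  Rx.mk (nat_lit 203) (nat_lit 3) (nat_lit 1) (nat_lit 3) (nat_lit 7) (nat_lit 169) (nat_lit 275) r8_169 r4_275 (nat_lit 0) (nat_lit 0) (nat_lit 0) (nat_lit 0x7ddff0631a) (nat_lit 1043180424)]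
noncomputable def e45_48 : List Rx := [
  Rx.mk (nat_lit 3) (nat_lit 3) (nat_lit 0) (nat_lit 0) (nat_lit 1) (nat_lit 209) (nat_lit 161) r8_209 r9_161 (nat_lit 0) (nat_lit 0) (nat_lit 0) (nat_lit 0x6a74ad2aba) (nat_lit 10575059976),
  Rx.mk (nat_lit 11) (nat_lit 3) (nat_lit 1) (nat_lit 0) (nat_lit 3) (nat_lit 210) (nat_lit 162) r8_210 r9_162 (nat_lit 0) (nat_lit 0) (nat_lit 0) (nat_lit 0x7df31b305a) (nat_lit 1006429320),
  Rx.mk (nat_lit 75) (nat_lit 3) (nat_lit 1) (nat_lit 1) (nat_lit 7) (nat_lit 211) (nat_lit 163) r8_211 r9_163 (nat_lit 0) (nat_lit 0) (nat_lit 0) (nat_lit 0x7df6743ac6) (nat_lit 1000010232),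
  Rx.mk (nat_lit 195) (nat_lit 3) (nat_lit 0) (nat_lit 3) (nat_lit 5) (nat_lit 212) (nat_lit 164) r8_212 r9_164 (nat_lit 0) (nat_lit 0) (nat_lit 0) (nat_lit 0x7dd319309a) (nat_lit 1067800968),
  Rx.mk (nat_lit 203) (nat_lit 3) (nat_lit 1) (nat_lit 3) (nat_lit 7) (nat_lit 213) (nat_lit 165) r8_213 r9_165 (nat_lit 0) (nat_lit 0) (nat_lit 0) (nat_lit 0x7de391c900) (nat_lit 1036219392)]
noncomputable def e45_49 : List Rx := [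
  Rx.mk (nat_lit 203) (nat_lit 3) (nat_lit 1) (nat_lit 3) (nat_lit 7) (nat_lit 214) (nat_lit 164) r8_214 r10_164 (nat_lit 0) (nat_lit 0) (nat_lit 0) (nat_lit 0x7df2523cea) (nat_lit 1007934408)]
noncomputable def e45_50 : List Rx := [
  Rx.mk (nat_lit 3) (nat_lit 3) (nat_lit 0) (nat_lit 0) (nat_lit 1) (nat_lit 231) (nat_lit 318) r8_231 r10_318 (nat_lit 0) (nat_lit 0) (nat_lit 0) (nat_lit 0x74c5e86cb4) (nat_lit 5510773008),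
  Rx.mk (nat_lit 7) (nat_lit 7) (nat_lit 0) (nat_lit 0) (nat_lit 1) (nat_lit 229) (nat_lit 319) r8_229 r10_319 (nat_lit 0) (nat_lit 0) (nat_lit 0) (nat_lit 0x76844a04dc) (nat_lit 4654883376),
  Rx.mk (nat_lit 11) (nat_lit 3) (nat_lit 1) (nat_lit 0) (nat_lit 3) (nat_lit 232) (nat_lit 322) r8_232 r10_322 (nat_lit 0) (nat_lit 0) (nat_lit 0) (nat_lit 0x7de5ce4536) (nat_lit 1031931576),
  Rx.mk (nat_lit 15) (nat_lit 7) (nat_lit 1) (nat_lit 0) (nat_lit 3) (nat_lit 230) (nat_lit 323) r8_230 r10_323 (nat_lit 0) (nat_lit 0) (nat_lit 0) (nat_lit 0x7dd91db04c) (nat_lit 1056262896),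
  Rx.mk (nat_lit 75) (nat_lit 3) (nat_lit 1) (nat_lit 1) (nat_lit 7) (nat_lit 234) (nat_lit 324) r8_234 r10_324 (nat_lit 0) (nat_lit 0) (nat_lit 0) (nat_lit 0x7deef3f2d2) (nat_lit 1014392808),
  Rx.mk (nat_lit 79) (nat_lit 7) (nat_lit 1) (nat_lit 1) (nat_lit 7) (nat_lit 233) (nat_lit 325) r8_233 r10_325 (nat_lit 0) (nat_lit 0) (nat_lit 0) (nat_lit 0x7df5994876) (nat_lit 1001650104),
  Rx.mk (nat_lit 131) (nat_lit 3) (nat_lit 0) (nat_lit 2) (nat_lit 5) (nat_lit 235) (nat_lit 321) r8_235 r10_321 (nat_lit 0) (nat_lit 0) (nat_lit 0) (nat_lit 0x7de41b006c) (nat_lit 1035191664),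
  Rx.mk (nat_lit 139) (nat_lit 3) (nat_lit 1) (nat_lit 2) (nat_lit 7) (nat_lit 236) (nat_lit 327) r8_236 r10_327 (nat_lit 0) (nat_lit 0) (nat_lit 0) (nat_lit 0x7dcf8f693a) (nat_lit 1074585096),
  Rx.mk (nat_lit 147) (nat_lit 3) (nat_lit 2) (nat_lit 2) (nat_lit 7) (nat_lit 237) (nat_lit 329) r8_237 r10_329 (nat_lit 0) (nat_lit 0) (nat_lit 0) (nat_lit 0x7df16d2b3c) (nat_lit 1009650096),
  Rx.mk (nat_lit 199) (nat_lit 7) (nat_lit 0) (nat_lit 3) (nat_lit 5) (nat_lit 238) (nat_lit 320) r8_238 r10_320 (nat_lit 0) (nat_lit 0) (nat_lit 0) (nat_lit 0x7db5be8662) (nat_lit 1124084520),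
  Rx.mk (nat_lit 207) (nat_lit 7) (nat_lit 1) (nat_lit 3) (nat_lit 7) (nat_lit 239) (nat_lit 326) r8_239 r10_326 (nat_lit 0) (nat_lit 0) (nat_lit 0) (nat_lit 0x7df0180090) (nat_lit 1012205376),
  Rx.mk (nat_lit 223) (nat_lit 7) (nat_lit 3) (nat_lit 3) (nat_lit 7) (nat_lit 240) (nat_lit 328) r8_240 r10_328 (nat_lit 0) (nat_lit 0) (nat_lit 0) (nat_lit 0x7df39d4838) (nat_lit 1005454944)]
noncomputable def e45_51 : List Rx := [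
  Rx.mk (nat_lit 108) (nat_lit 4) (nat_lit 5) (nat_lit 1) (nat_lit 6) (nat_lit 324) (nat_lit 290) r8_324 r12_290 (nat_lit 0) (nat_lit 0) (nat_lit 0) (nat_lit 0x7cb8761be6) (nat_lit 1609728120),
  Rx.mk (nat_lit 109) (nat_lit 5) (nat_lit 5) (nat_lit 1) (nat_lit 7) (nat_lit 325) (nat_lit 291) r8_325 r12_291 (nat_lit 0) (nat_lit 0) (nat_lit 0) (nat_lit 0x7de9664bb2) (nat_lit 1025040744),
  Rx.mk (nat_lit 111) (nat_lit 7) (nat_lit 5) (nat_lit 1) (nat_lit 7) (nat_lit 326) (nat_lit 292) r8_326 r12_292 (nat_lit 0) (nat_lit 0) (nat_lit 0) (nat_lit 0x7dda2b3f72) (nat_lit 1054243944)]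
noncomputable def e45_52 : List Rx := [
  Rx.mk (nat_lit 239) (nat_lit 7) (nat_lit 5) (nat_lit 3) (nat_lit 7) (nat_lit 215) (nat_lit 266) r8_215 r12_266 (nat_lit 0) (nat_lit 0) (nat_lit 0) (nat_lit 0x7df0bb165e) (nat_lit 1010983896)]
noncomputable def e45_53 : List Rx := [
  Rx.mk (nat_lit 76) (nat_lit 4) (nat_lit 1) (nat_lit 1) (nat_lit 6) (nat_lit 307) (nat_lit 287) r8_307 r12_287 (nat_lit 0) (nat_lit 0) (nat_lit 0) (nat_lit 0x6ec70e6054) (nat_lit 8453691792),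
  Rx.mk (nat_lit 77) (nat_lit 5) (nat_lit 1) (nat_lit 1) (nat_lit 7) (nat_lit 308) (nat_lit 288) r8_308 r12_288 (nat_lit 0) (nat_lit 0) (nat_lit 0) (nat_lit 0x7dd07e9a46) (nat_lit 1072793592),
  Rx.mk (nat_lit 79) (nat_lit 7) (nat_lit 1) (nat_lit 1) (nat_lit 7) (nat_lit 310) (nat_lit 289) r8_310 r12_289 (nat_lit 0) (nat_lit 0) (nat_lit 0) (nat_lit 0x7dbce773cc) (nat_lit 1110356208),
  Rx.mk (nat_lit 111) (nat_lit 7) (nat_lit 5) (nat_lit 1) (nat_lit 7) (nat_lit 309) (nat_lit 286) r8_309 r12_286 (nat_lit 0) (nat_lit 0) (nat_lit 0) (nat_lit 0x7ddc31bf08) (nat_lit 1050360480)]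
noncomputable def e45_54 : List Rx := [
  Rx.mk (nat_lit 239) (nat_lit 7) (nat_lit 5) (nat_lit 3) (nat_lit 7) (nat_lit 18) (nat_lit 123) r8_18 r12_123 (nat_lit 0) (nat_lit 0) (nat_lit 0) (nat_lit 0x7ded19507e) (nat_lit 1017947736)]
noncomputable def e45_55 : List Rx := [
  Rx.mk (nat_lit 11) (nat_lit 3) (nat_lit 1) (nat_lit 0) (nat_lit 3) (nat_lit 19) (nat_lit 139) r8_19 r3_139 (nat_lit 0) (nat_lit 0) (nat_lit 0) (nat_lit 0x6e3f9218a0) (nat_lit 8713471104),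
  Rx.mk (nat_lit 75) (nat_lit 3) (nat_lit 1) (nat_lit 1) (nat_lit 7) (nat_lit 20) (nat_lit 140) r8_20 r3_140 (nat_lit 0) (nat_lit 0) (nat_lit 0) (nat_lit 0x7c4a3100a6) (nat_lit 1821159288),
  Rx.mk (nat_lit 203) (nat_lit 3) (nat_lit 1) (nat_lit 3) (nat_lit 7) (nat_lit 22) (nat_lit 141) r8_22 r3_141 (nat_lit 0) (nat_lit 0) (nat_lit 0) (nat_lit 0x7764b97d04) (nat_lit 4224551760),
  Rx.mk (nat_lit 207) (nat_lit 7) (nat_lit 1) (nat_lit 3) (nat_lit 7) (nat_lit 21) (nat_lit 138) r8_21 r3_138 (nat_lit 0) (nat_lit 0) (nat_lit 0) (nat_lit 0x7bb65c3e86) (nat_lit 2104610040)]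
noncomputable def e45_56 : List Rx := [
  Rx.mk (nat_lit 203) (nat_lit 3) (nat_lit 1) (nat_lit 3) (nat_lit 7) (nat_lit 64) (nat_lit 151) r8_64 r12_151 (nat_lit 0) (nat_lit 0) (nat_lit 0) (nat_lit 0x7deb738adc) (nat_lit 1021106736),
  Rx.mk (nat_lit 207) (nat_lit 7) (nat_lit 1) (nat_lit 3) (nat_lit 7) (nat_lit 63) (nat_lit 150) r8_63 r12_150 (nat_lit 0) (nat_lit 0) (nat_lit 0) (nat_lit 0x7df198a884) (nat_lit 1009324368)]
noncomputable def e45_57 : List Rx := [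
  Rx.mk (nat_lit 11) (nat_lit 3) (nat_lit 1) (nat_lit 0) (nat_lit 3) (nat_lit 225) (nat_lit 261) r8_225 r12_261 (nat_lit 0) (nat_lit 0) (nat_lit 0) (nat_lit 0x7cb54cae80) (nat_lit 1615790592),
  Rx.mk (nat_lit 15) (nat_lit 7) (nat_lit 1) (nat_lit 0) (nat_lit 3) (nat_lit 224) (nat_lit 262) r8_224 r12_262 (nat_lit 0) (nat_lit 0) (nat_lit 0) (nat_lit 0x7dae17a0d8) (nat_lit 1138756320),
  Rx.mk (nat_lit 75) (nat_lit 3) (nat_lit 1) (nat_lit 1) (nat_lit 7) (nat_lit 227) (nat_lit 263) r8_227 r12_263 (nat_lit 0) (nat_lit 0) (nat_lit 0) (nat_lit 0x7dca3abe8a) (nat_lit 1084806216),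
  Rx.mk (nat_lit 79) (nat_lit 7) (nat_lit 1) (nat_lit 1) (nat_lit 7) (nat_lit 226) (nat_lit 264) r8_226 r12_264 (nat_lit 0) (nat_lit 0) (nat_lit 0) (nat_lit 0x7de7338ee0) (nat_lit 1029255552),
  Rx.mk (nat_lit 207) (nat_lit 7) (nat_lit 1) (nat_lit 3) (nat_lit 7) (nat_lit 228) (nat_lit 265) r8_228 r12_265 (nat_lit 0) (nat_lit 0) (nat_lit 0) (nat_lit 0x7de986e9a8) (nat_lit 1024796448)]
noncomputable def e45 : List (List Rx) := [e45_0, e45_1, e45_2, e45_3, e45_4, e45_5, e45_6, e45_7, e45_8, e45_9, e45_10, e45_11, e45_12, e45_13, e45_14, e45_15, e45_16, e45_17, e45_18, e45_19, e45_20, e45_21, e45_22, e45_23, e45_24, e45_25, e45_26, e45_27, e45_28, e45_29, e45_30, e45_31, e45_32, e45_33, e45_34, e45_35, e45_36, e45_37, e45_38, e45_39, e45_40, e45_41, e45_42, e45_43, e45_44, e45_45, e45_46, e45_47, e45_48, e45_49, e45_50, e45_51, e45_52, e45_53,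 e45_54, e45_55, e45_56, e45_57]
noncomputable def e46_0 : List Rx := [
  Rx.mk (nat_lit 5) (nat_lit 5) (nat_lit 0) (nat_lit 0) (nat_lit 1) (nat_lit 256) (nat_lit 308) r4_256 r0_308 (nat_lit 0) (nat_lit 0) (nat_lit 0) (nat_lit 0x6d9ecf456e) (nat_lit 9021713688),
  Rx.mk (nat_lit 13) (nat_lit 5) (nat_lit 1) (nat_lit 0) (nat_lit 3) (nat_lit 257) (nat_lit 310) r4_257 r0_310 (nat_lit 0) (nat_lit 0) (nat_lit 0) (nat_lit 0x7da9e10446) (nat_lit 1146834936),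
  Rx.mk (nat_lit 21) (nat_lit 5) (nat_lit 2) (nat_lit 0) (nat_lit 3) (nat_lit 258) (nat_lit 312) r4_258 r0_312 (nat_lit 0) (nat_lit 0) (nat_lit 0) (nat_lit 0x76d4fe194a) (nat_lit 4500142920),
  Rx.mk (nat_lit 68) (nat_lit 4) (nat_lit 0) (nat_lit 1) (nat_lit 4) (nat_lit 253) (nat_lit 305) r4_253 r0_305 (nat_lit 0) (nat_lit 0) (nat_lit 0) (nat_lit 0x72ea26eaa8) (nat_lit 6422985504),
  Rx.mk (nat_lit 69) (nat_lit 5) (nat_lit 0) (nat_lit 1) (nat_lit 5) (nat_lit 259) (nat_lit 309) r4_259 r0_309 (nat_lit 0) (nat_lit 0) (nat_lit 0) (nat_lit 0x7d715ecca2) (nat_lit 1255184424),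
  Rx.mk (nat_lit 76) (nat_lit 4) (nat_lit 1) (nat_lit 1) (nat_lit 6) (nat_lit 254) (nat_lit 306) r4_254 r0_306 (nat_lit 0) (nat_lit 0) (nat_lit 0) (nat_lit 0x765dc16d8c) (nat_lit 4728767472),
  Rx.mk (nat_lit 77) (nat_lit 5) (nat_lit 1) (nat_lit 1) (nat_lit 7) (nat_lit 260) (nat_lit 311) r4_260 r0_311 (nat_lit 0) (nat_lit 0) (nat_lit 0) (nat_lit 0x7e65ac46d6) (nat_lit 786759480),
  Rx.mk (nat_lit 84) (nat_lit 4) (nat_lit 2) (nat_lit 1) (nat_lit 6) (nat_lit 255) (nat_lit 307) r4_255 r0_307 (nat_lit 0) (nat_lit 0) (nat_lit 0) (nat_lit 0x7e1c8ad936) (nat_lit 926979768),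
  Rx.mk (nat_lit 85) (nat_lit 5) (nat_lit 2) (nat_lit 1) (nat_lit 7) (nat_lit 261) (nat_lit 313) r4_261 r0_313 (nat_lit 0) (nat_lit 0) (nat_lit 0) (nat_lit 0x7e5d9fc7a6) (nat_lit 802192248)]
noncomputable def e46_1 : List Rx := [
  Rx.mk (nat_lit 68) (nat_lit 4) (nat_lit 0) (nat_lit 1) (nat_lit 4) (nat_lit 293) (nat_lit 296) r4_293 r1_296 (nat_lit 0) (nat_lit 0) (nat_lit 0) (nat_lit 0x6a1ffcf612) (nat_lit 10737441000),
  Rx.mk (nat_lit 69) (nat_lit 5) (nat_lit 0) (nat_lit 1) (nat_lit 5) (nat_lit 296) (nat_lit 299) r4_296 r1_299 (nat_lit 0) (nat_lit 0) (nat_lit 0) (nat_lit 0x7ce68fda1c) (nat_lit 1521335088),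
  Rx.mk (nat_lit 76) (nat_lit 4) (nat_lit 1) (nat_lit 1) (nat_lit 6) (nat_lit 294) (nat_lit 297) r4_294 r1_297 (nat_lit 0) (nat_lit 0) (nat_lit 0) (nat_lit 0x7b9136b104) (nat_lit 2175834960),
  Rx.mk (nat_lit 77) (nat_lit 5) (nat_lit 1) (nat_lit 1) (nat_lit 7) (nat_lit 297) (nat_lit 300) r4_297 r1_300 (nat_lit 0) (nat_lit 0) (nat_lit 0) (nat_lit 0x7e35b126b8) (nat_lit 878757984),
  Rx.mk (nat_lit 84) (nat_lit 4) (nat_lit 2) (nat_lit 1) (nat_lit 6) (nat_lit 295) (nat_lit 298) r4_295 r1_298 (nat_lit 0) (nat_lit 0) (nat_lit 0) (nat_lit 0x7df1a98776) (nat_lit 1009198008),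
  Rx.mk (nat_lit 85) (nat_lit 5) (nat_lit 2) (nat_lit 1) (nat_lit 7) (nat_lit 298) (nat_lit 301) r4_298 r1_301 (nat_lit 0) (nat_lit 0) (nat_lit 0) (nat_lit 0x7db1b0c742) (nat_lit 1131857064)]
noncomputable def e46_2 : List Rx := [
  Rx.mk (nat_lit 76) (nat_lit 4) (nat_lit 1) (nat_lit 1) (nat_lit 6) (nat_lit 299) (nat_lit 334) r4_299 r2_334 (nat_lit 0) (nat_lit 0) (nat_lit 0) (nat_lit 0x7dad9708e2) (nat_lit 1139719464),
  Rx.mk (nat_lit 77) (nat_lit 5) (nat_lit 1) (nat_lit 1) (nat_lit 7) (nat_lit 301) (nat_lit 336) r4_301 r2_336 (nat_lit 0) (nat_lit 0) (nat_lit 0) (nat_lit 0x7de0307f18) (nat_lit 1042700256),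
  Rx.mk (nat_lit 332) (nat_lit 4) (nat_lit 1) (nat_lit 5) (nat_lit 6) (nat_lit 300) (nat_lit 335) r4_300 r2_335 (nat_lit 0) (nat_lit 0) (nat_lit 0) (nat_lit 0x7dc103120e) (nat_lit 1102479768),
  Rx.mk (nat_lit 333) (nat_lit 5) (nat_lit 1) (nat_lit 5) (nat_lit 7) (nat_lit 302) (nat_lit 337) r4_302 r2_337 (nat_lit 0) (nat_lit 0) (nat_lit 0) (nat_lit 0x7de76c8b50) (nat_lit 1028828736),
  Rx.mk (nat_lit 334) (nat_lit 6) (nat_lit 1) (nat_lit 5) (nat_lit 7) (nat_lit 303) (nat_lit 338) r4_303 r2_338 (nat_lit 0) (nat_lit 0) (nat_lit 0) (nat_lit 0x7df18be950) (nat_lit 1009419840)]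
noncomputable def e46_3 : List Rx := [
  Rx.mk (nat_lit 4) (nat_lit 4) (nat_lit 0) (nat_lit 0) (nat_lit 0) (nat_lit 315) (nat_lit 299) r4_315 r3_299 (nat_lit 0) (nat_lit 0) (nat_lit 0) (nat_lit 0x72d96d1656) (nat_lit 6455055672),
  Rx.mk (nat_lit 5) (nat_lit 5) (nat_lit 0) (nat_lit 0) (nat_lit 1) (nat_lit 321) (nat_lit 305) r4_321 r3_305 (nat_lit 0) (nat_lit 0) (nat_lit 0) (nat_lit 0x7824867f74) (nat_lit 3856793616),
  Rx.mk (nat_lit 12) (nat_lit 4) (nat_lit 1) (nat_lit 0) (nat_lit 2) (nat_lit 316) (nat_lit 301) r4_316 r3_301 (nat_lit 0) (nat_lit 0) (nat_lit 0) (nat_lit 0x790eef77fa) (nat_lit 3407336712),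
  Rx.mk (nat_lit 13) (nat_lit 5) (nat_lit 1) (nat_lit 0) (nat_lit 3) (nat_lit 322) (nat_lit 307) r4_322 r3_307 (nat_lit 0) (nat_lit 0) (nat_lit 0) (nat_lit 0x7cbf2d1070) (nat_lit 1596853440),
  Rx.mk (nat_lit 20) (nat_lit 4) (nat_lit 2) (nat_lit 0) (nat_lit 2) (nat_lit 317) (nat_lit 303) r4_317 r3_303 (nat_lit 0) (nat_lit 0) (nat_lit 0) (nat_lit 0x79c6919d20) (nat_lit 3055238784),
  Rx.mk (nat_lit 21) (nat_lit 5) (nat_lit 2) (nat_lit 0) (nat_lit 3) (nat_lit 323) (nat_lit 309) r4_323 r3_309 (nat_lit 0) (nat_lit 0) (nat_lit 0) (nat_lit 0x7cb07e3b6c) (nat_lit 1625006448),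
  Rx.mk (nat_lit 196) (nat_lit 4) (nat_lit 0) (nat_lit 3) (nat_lit 4) (nat_lit 318) (nat_lit 300) r4_318 r3_300 (nat_lit 0) (nat_lit 0) (nat_lit 0) (nat_lit 0x7a41dba804) (nat_lit 2818844496),
  Rx.mk (nat_lit 197) (nat_lit 5) (nat_lit 0) (nat_lit 3) (nat_lit 5) (nat_lit 324) (nat_lit 306) r4_324 r3_306 (nat_lit 0) (nat_lit 0) (nat_lit 0) (nat_lit 0x7e5e87d924) (nat_lit 800454096),
  Rx.mk (nat_lit 204) (nat_lit 4) (nat_lit 1) (nat_lit 3) (nat_lit 6) (nat_lit 319) (nat_lit 302) r4_319 r3_302 (nat_lit 0) (nat_lit 0) (nat_lit 0) (nat_lit 0x7e0ef89268) (nat_lit 953001504),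
  Rx.mk (nat_lit 205) (nat_lit 5) (nat_lit 1) (nat_lit 3) (nat_lit 7) (nat_lit 325) (nat_lit 308) r4_325 r3_308 (nat_lit 0) (nat_lit 0) (nat_lit 0) (nat_lit 0x7eb281d930) (nat_lit 639437760),
  Rx.mk (nat_lit 212) (nat_lit 4) (nat_lit 2) (nat_lit 3) (nat_lit 6) (nat_lit 320) (nat_lit 304) r4_320 r3_304 (nat_lit 0) (nat_lit 0) (nat_lit 0) (nat_lit 0x7c8fa6290e) (nat_lit 1687981464),
  Rx.mk (nat_lit 213) (nat_lit 5) (nat_lit 2) (nat_lit 3) (nat_lit 7) (nat_lit 326) (nat_lit 310) r4_326 r3_310 (nat_lit 0) (nat_lit 0) (nat_lit 0) (nat_lit 0x7ea6169ff0) (nat_lit 663249600)]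
noncomputable def e46_4 : List Rx := [
  Rx.mk (nat_lit 4) (nat_lit 4) (nat_lit 0) (nat_lit 0) (nat_lit 0) (nat_lit 327) (nat_lit 327) r4_327 r4_327 (nat_lit 0) (nat_lit 0) (nat_lit 0) (nat_lit 0x60139186d6) (nat_lit 15669788472),
  Rx.mk (nat_lit 5) (nat_lit 5) (nat_lit 0) (nat_lit 0) (nat_lit 1) (nat_lit 335) (nat_lit 335) r4_335 r4_335 (nat_lit 0) (nat_lit 0) (nat_lit 0) (nat_lit 0x7ad70354f4) (nat_lit 2532855312),
  Rx.mk (nat_lit 12) (nat_lit 4) (nat_lit 1) (nat_lit 0) (nat_lit 2) (nat_lit 328) (nat_lit 330) r4_328 r4_330 (nat_lit 0) (nat_lit 0) (nat_lit 0) (nat_lit 0x778fc9abd6) (nat_lit 4141982520),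
  Rx.mk (nat_lit 13) (nat_lit 5) (nat_lit 1) (nat_lit 0) (nat_lit 3) (nat_lit 336) (nat_lit 338) r4_336 r4_338 (nat_lit 0) (nat_lit 0) (nat_lit 0) (nat_lit 0x7e3c95786c) (nat_lit 865543536),
  Rx.mk (nat_lit 20) (nat_lit 4) (nat_lit 2) (nat_lit 0) (nat_lit 2) (nat_lit 329) (nat_lit 333) r4_329 r4_333 (nat_lit 0) (nat_lit 0) (nat_lit 0) (nat_lit 0x7be34caf52) (nat_lit 2018443752),
  Rx.mk (nat_lit 21) (nat_lit 5) (nat_lit 2) (nat_lit 0) (nat_lit 3) (nat_lit 337) (nat_lit 341) r4_337 r4_341 (nat_lit 0) (nat_lit 0) (nat_lit 0) (nat_lit 0x7e4a6b3b02) (nat_lit 839016360),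
  Rx.mk (nat_lit 68) (nat_lit 4) (nat_lit 0) (nat_lit 1) (nat_lit 4) (nat_lit 330) (nat_lit 328) r4_330 r4_328 (nat_lit 0) (nat_lit 0) (nat_lit 0) (nat_lit 0x778fc9abd6) (nat_lit 4141982520),
  Rx.mk (nat_lit 69) (nat_lit 5) (nat_lit 0) (nat_lit 1) (nat_lit 5) (nat_lit 338) (nat_lit 336) r4_338 r4_336 (nat_lit 0) (nat_lit 0) (nat_lit 0) (nat_lit 0x7e3c95786c) (nat_lit 865543536),
  Rx.mk (nat_lit 76) (nat_lit 4) (nat_lit 1) (nat_lit 1) (nat_lit 6) (nat_lit 331) (nat_lit 331) r4_331 r4_331 (nat_lit 0) (nat_lit 0) (nat_lit 0) (nat_lit 0x7e24555c86) (nat_lit 912041208),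
  Rx.mk (nat_lit 77) (nat_lit 5) (nat_lit 1) (nat_lit 1) (nat_lit 7) (nat_lit 339) (nat_lit 339) r4_339 r4_339 (nat_lit 0) (nat_lit 0) (nat_lit 0) (nat_lit 0x7dd9750ad6) (nat_lit 1055608632),
  Rx.mk (nat_lit 84) (nat_lit 4) (nat_lit 2) (nat_lit 1) (nat_lit 6) (nat_lit 332) (nat_lit 334) r4_332 r4_334 (nat_lit 0) (nat_lit 0) (nat_lit 0) (nat_lit 0x7e41ede2e0) (nat_lit 855294336),
  Rx.mk (nat_lit 85) (nat_lit 5) (nat_lit 2) (nat_lit 1) (nat_lit 7) (nat_lit 340) (nat_lit 342) r4_340 r4_342 (nat_lit 0) (nat_lit 0) (nat_lit 0) (nat_lit 0x7de0cb556a) (nat_lit 1041540552),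
  Rx.mk (nat_lit 196) (nat_lit 4) (nat_lit 0) (nat_lit 3) (nat_lit 4) (nat_lit 333) (nat_lit 329) r4_333 r4_329 (nat_lit 0) (nat_lit 0) (nat_lit 0) (nat_lit 0x7be34caf52) (nat_lit 2018443752),
  Rx.mk (nat_lit 197) (nat_lit 5) (nat_lit 0) (nat_lit 3) (nat_lit 5) (nat_lit 341) (nat_lit 337) r4_341 r4_337 (nat_lit 0) (nat_lit 0) (nat_lit 0) (nat_lit 0x7e4a6b3b02) (nat_lit 839016360),
  Rx.mk (nat_lit 204) (nat_lit 4) (nat_lit 1) (nat_lit 3) (nat_lit 6) (nat_lit 334) (nat_lit 332) r4_334 r4_332 (nat_lit 0) (nat_lit 0) (nat_lit 0) (nat_lit 0x7e41ede2e0) (nat_lit 855294336),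
  Rx.mk (nat_lit 205) (nat_lit 5) (nat_lit 1) (nat_lit 3) (nat_lit 7) (nat_lit 342) (nat_lit 340) r4_342 r4_340 (nat_lit 0) (nat_lit 0) (nat_lit 0) (nat_lit 0x7de0cb556a) (nat_lit 1041540552)]
noncomputable def e46_5 : List Rx := [
  Rx.mk (nat_lit 270) (nat_lit 6) (nat_lit 1) (nat_lit 4) (nat_lit 3) (nat_lit 66) (nat_lit 315) r4_66 r3_315 (nat_lit 0) (nat_lit 0) (nat_lit 0) (nat_lit 0x7f9a3d1c94) (nat_lit 195116688),
  Rx.mk (nat_lit 460) (nat_lit 4) (nat_lit 1) (nat_lit 7) (nat_lit 6) (nat_lit 65) (nat_lit 314) r4_65 r3_314 (nat_lit 0) (nat_lit 0) (nat_lit 0) (nat_lit 0x7ffc241dc2) (nat_lit 7399080),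
  Rx.mk (nat_lit 462) (nat_lit 6) (nat_lit 1) (nat_lit 7) (nat_lit 7) (nat_lit 67) (nat_lit 316) r4_67 r3_316 (nat_lit 0) (nat_lit 0) (nat_lit 0) (nat_lit 0x7fe190a714) (nat_lit 58355856)]
noncomputable def e46_6 : List Rx := [
  Rx.mk (nat_lit 268) (nat_lit 4) (nat_lit 1) (nat_lit 4) (nat_lit 2) (nat_lit 155) (nat_lit 317) r4_155 r0_317 (nat_lit 0) (nat_lit 0) (nat_lit 0) (nat_lit 0x6ef1331dde) (nat_lit 8372885976),
  Rx.mk (nat_lit 270) (nat_lit 6) (nat_lit 1) (nat_lit 4) (nat_lit 3) (nat_lit 157) (nat_lit 319) r4_157 r0_319 (nat_lit 0) (nat_lit 0) (nat_lit 0) (nat_lit 0x76db4494dc) (nat_lit 4488110640),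
  Rx.mk (nat_lit 332) (nat_lit 4) (nat_lit 1) (nat_lit 5) (nat_lit 6) (nat_lit 156) (nat_lit 318) r4_156 r0_318 (nat_lit 0) (nat_lit 0) (nat_lit 0) (nat_lit 0x7d38edd3ea) (nat_lit 1363404744),
  Rx.mk (nat_lit 334) (nat_lit 6) (nat_lit 1) (nat_lit 5) (nat_lit 7) (nat_lit 158) (nat_lit 320) r4_158 r0_320 (nat_lit 0) (nat_lit 0) (nat_lit 0) (nat_lit 0x7ece365dcc) (nat_lit 586316016)]
noncomputable def e46_7 : List Rx := [
  Rx.mk (nat_lit 332) (nat_lit 4) (nat_lit 1) (nat_lit 5) (nat_lit 6) (nat_lit 159) (nat_lit 304) r4_159 r1_304 (nat_lit 0) (nat_lit 0) (nat_lit 0) (nat_lit 0x7e188df908) (nat_lit 934625952),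
  Rx.mk (nat_lit 334) (nat_lit 6) (nat_lit 1) (nat_lit 5) (nat_lit 7) (nat_lit 160) (nat_lit 305) r4_160 r1_305 (nat_lit 0) (nat_lit 0) (nat_lit 0) (nat_lit 0x7e535d2bda) (nat_lit 821865096)]
noncomputable def e46_8 : List Rx := [
  Rx.mk (nat_lit 268) (nat_lit 4) (nat_lit 1) (nat_lit 4) (nat_lit 2) (nat_lit 161) (nat_lit 349) r4_161 r4_349 (nat_lit 0) (nat_lit 0) (nat_lit 0) (nat_lit 0x73692e19b6) (nat_lit 6179422392),
  Rx.mk (nat_lit 270) (nat_lit 6) (nat_lit 1) (nat_lit 4) (nat_lit 3) (nat_lit 164) (nat_lit 352) r4_164 r4_352 (nat_lit 0) (nat_lit 0) (nat_lit 0) (nat_lit 0x7e9dbce594) (nat_lit 679260816),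
  Rx.mk (nat_lit 332) (nat_lit 4) (nat_lit 1) (nat_lit 5) (nat_lit 6) (nat_lit 162) (nat_lit 350) r4_162 r4_350 (nat_lit 0) (nat_lit 0) (nat_lit 0) (nat_lit 0x7e146cbb20) (nat_lit 942544512),
  Rx.mk (nat_lit 334) (nat_lit 6) (nat_lit 1) (nat_lit 5) (nat_lit 7) (nat_lit 165) (nat_lit 353) r4_165 r4_353 (nat_lit 0) (nat_lit 0) (nat_lit 0) (nat_lit 0x7e61448d56) (nat_lit 795205944),
  Rx.mk (nat_lit 460) (nat_lit 4) (nat_lit 1) (nat_lit 7) (nat_lit 6) (nat_lit 163) (nat_lit 351) r4_163 r4_351 (nat_lit 0) (nat_lit 0) (nat_lit 0) (nat_lit 0x7e740fc090) (nat_lit 759170880),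
  Rx.mk (nat_lit 462) (nat_lit 6) (nat_lit 1) (nat_lit 7) (nat_lit 7) (nat_lit 166) (nat_lit 354) r4_166 r4_354 (nat_lit 0) (nat_lit 0) (nat_lit 0) (nat_lit 0x7e69115082) (nat_lit 780250536)]
noncomputable def e46_9 : List Rx := [
  Rx.mk (nat_lit 196) (nat_lit 4) (nat_lit 0) (nat_lit 3) (nat_lit 4) (nat_lit 217) (nat_lit 326) r4_217 r5_326 (nat_lit 0) (nat_lit 0) (nat_lit 0) (nat_lit 0x77438f4fc8) (nat_lit 4288141728),
  Rx.mk (nat_lit 204) (nat_lit 4) (nat_lit 1) (nat_lit 3) (nat_lit 6) (nat_lit 218) (nat_lit 328) r4_218 r5_328 (nat_lit 0) (nat_lit 0) (nat_lit 0) (nat_lit 0x7e57d80428) (nat_lit 813275424),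
  Rx.mk (nat_lit 212) (nat_lit 4) (nat_lit 2) (nat_lit 3) (nat_lit 6) (nat_lit 219) (nat_lit 330) r4_219 r5_330 (nat_lit 0) (nat_lit 0) (nat_lit 0) (nat_lit 0x7e42d95428) (nat_lit 853530912),
  Rx.mk (nat_lit 452) (nat_lit 4) (nat_lit 0) (nat_lit 7) (nat_lit 4) (nat_lit 220) (nat_lit 327) r4_220 r5_327 (nat_lit 0) (nat_lit 0) (nat_lit 0) (nat_lit 0x7037ba9420) (nat_lit 7746800256),
  Rx.mk (nat_lit 454) (nat_lit 6) (nat_lit 0) (nat_lit 7) (nat_lit 5) (nat_lit 222) (nat_lit 331) r4_222 r5_331 (nat_lit 0) (nat_lit 0) (nat_lit 0) (nat_lit 0x7145321b9a) (nat_lit 7230125448),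
  Rx.mk (nat_lit 460) (nat_lit 4) (nat_lit 1) (nat_lit 7) (nat_lit 6) (nat_lit 221) (nat_lit 329) r4_221 r5_329 (nat_lit 0) (nat_lit 0) (nat_lit 0) (nat_lit 0x7e80245f3a) (nat_lit 736007688),
  Rx.mk (nat_lit 462) (nat_lit 6) (nat_lit 1) (nat_lit 7) (nat_lit 7) (nat_lit 223) (nat_lit 332) r4_223 r5_332 (nat_lit 0) (nat_lit 0) (nat_lit 0) (nat_lit 0x7edd8ea838) (nat_lit 556893792)]
noncomputable def e46_10 : List Rx := [
  Rx.mk (nat_lit 5) (nat_lit 5) (nat_lit 0) (nat_lit 0) (nat_lit 1) (nat_lit 262) (nat_lit 174) r4_262 r0_174 (nat_lit 0) (nat_lit 0) (nat_lit 0) (nat_lit 0x67e873f0da) (nat_lit 11825630856),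
  Rx.mk (nat_lit 13) (nat_lit 5) (nat_lit 1) (nat_lit 0) (nat_lit 3) (nat_lit 263) (nat_lit 175) r4_263 r0_175 (nat_lit 0) (nat_lit 0) (nat_lit 0) (nat_lit 0x7e1f5bcc24) (nat_lit 921579984),
  Rx.mk (nat_lit 21) (nat_lit 5) (nat_lit 2) (nat_lit 0) (nat_lit 3) (nat_lit 264) (nat_lit 176) r4_264 r0_176 (nat_lit 0) (nat_lit 0) (nat_lit 0) (nat_lit 0x75d49f6036) (nat_lit 4991705784)]
noncomputable def e46_11 : List Rx := [
  Rx.mk (nat_lit 5) (nat_lit 5) (nat_lit 0) (nat_lit 0) (nat_lit 1) (nat_lit 265) (nat_lit 416) r4_265 r6_416 (nat_lit 0) (nat_lit 0) (nat_lit 0) (nat_lit 0x735924da5a) (nat_lit 6210169992),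
  Rx.mk (nat_lit 13) (nat_lit 5) (nat_lit 1) (nat_lit 0) (nat_lit 3) (nat_lit 266) (nat_lit 418) r4_266 r6_418 (nat_lit 0) (nat_lit 0) (nat_lit 0) (nat_lit 0x7db466bbe0) (nat_lit 1126659456),
  Rx.mk (nat_lit 21) (nat_lit 5) (nat_lit 2) (nat_lit 0) (nat_lit 3) (nat_lit 267) (nat_lit 420) r4_267 r6_420 (nat_lit 0) (nat_lit 0) (nat_lit 0) (nat_lit 0x7d7cbb56ce) (nat_lit 1233399960),
  Rx.mk (nat_lit 69) (nat_lit 5) (nat_lit 0) (nat_lit 1) (nat_lit 5) (nat_lit 268) (nat_lit 417) r4_268 r6_417 (nat_lit 0) (nat_lit 0) (nat_lit 0) (nat_lit 0x7db5f0c33e) (nat_lit 1123708248),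
  Rx.mk (nat_lit 77) (nat_lit 5) (nat_lit 1) (nat_lit 1) (nat_lit 7) (nat_lit 269) (nat_lit 419) r4_269 r6_419 (nat_lit 0) (nat_lit 0) (nat_lit 0) (nat_lit 0x7dde701b20) (nat_lit 1046058624),
  Rx.mk (nat_lit 85) (nat_lit 5) (nat_lit 2) (nat_lit 1) (nat_lit 7) (nat_lit 270) (nat_lit 421) r4_270 r6_421 (nat_lit 0) (nat_lit 0) (nat_lit 0) (nat_lit 0x7deda7c796) (nat_lit 1016880696)]
noncomputable def e46_12 : List Rx := [
  Rx.mk (nat_lit 5) (nat_lit 5) (nat_lit 0) (nat_lit 0) (nat_lit 1) (nat_lit 281) (nat_lit 187) r4_281 r1_187 (nat_lit 0) (nat_lit 0) (nat_lit 0) (nat_lit 0x680620b5f0) (nat_lit 11768732352),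
  Rx.mk (nat_lit 13) (nat_lit 5) (nat_lit 1) (nat_lit 0) (nat_lit 3) (nat_lit 282) (nat_lit 188) r4_282 r1_188 (nat_lit 0) (nat_lit 0) (nat_lit 0) (nat_lit 0x7cc75d8d60) (nat_lit 1581151104),
  Rx.mk (nat_lit 17) (nat_lit 1) (nat_lit 2) (nat_lit 0) (nat_lit 3) (nat_lit 279) (nat_lit 190) r4_279 r1_190 (nat_lit 0) (nat_lit 0) (nat_lit 0) (nat_lit 0x7deba2c7e8) (nat_lit 1020752928),
  Rx.mk (nat_lit 21) (nat_lit 5) (nat_lit 2) (nat_lit 0) (nat_lit 3) (nat_lit 283) (nat_lit 189) r4_283 r1_189 (nat_lit 0) (nat_lit 0) (nat_lit 0) (nat_lit 0x79612a93f6) (nat_lit 3249667512),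
  Rx.mk (nat_lit 145) (nat_lit 1) (nat_lit 2) (nat_lit 2) (nat_lit 7) (nat_lit 280) (nat_lit 191) r4_280 r1_191 (nat_lit 0) (nat_lit 0) (nat_lit 0) (nat_lit 0x7965ed07ca) (nat_lit 3240541512)]
noncomputable def e46_13 : List Rx := [
  Rx.mk (nat_lit 5) (nat_lit 5) (nat_lit 0) (nat_lit 0) (nat_lit 1) (nat_lit 287) (nat_lit 341) r4_287 r7_341 (nat_lit 0) (nat_lit 0) (nat_lit 0) (nat_lit 0x5c57ff43b6) (nat_lit 17501997240),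
  Rx.mk (nat_lit 13) (nat_lit 5) (nat_lit 1) (nat_lit 0) (nat_lit 3) (nat_lit 288) (nat_lit 343) r4_288 r7_343 (nat_lit 0) (nat_lit 0) (nat_lit 0) (nat_lit 0x7d836d6ba6) (nat_lit 1220561784),
  Rx.mk (nat_lit 17) (nat_lit 1) (nat_lit 2) (nat_lit 0) (nat_lit 3) (nat_lit 284) (nat_lit 338) r4_284 r7_338 (nat_lit 0) (nat_lit 0) (nat_lit 0) (nat_lit 0x7d63fb62e6) (nat_lit 1280855160),
  Rx.mk (nat_lit 21) (nat_lit 5) (nat_lit 2) (nat_lit 0) (nat_lit 3) (nat_lit 289) (nat_lit 345) r4_289 r7_345 (nat_lit 0) (nat_lit 0) (nat_lit 0) (nat_lit 0x7d43fd22ea) (nat_lit 1342198728),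
  Rx.mk (nat_lit 69) (nat_lit 5) (nat_lit 0) (nat_lit 1) (nat_lit 5) (nat_lit 290) (nat_lit 342) r4_290 r7_342 (nat_lit 0) (nat_lit 0) (nat_lit 0) (nat_lit 0x7d03f443b8) (nat_lit 1464978528),
  Rx.mk (nat_lit 77) (nat_lit 5) (nat_lit 1) (nat_lit 1) (nat_lit 7) (nat_lit 291) (nat_lit 344) r4_291 r7_344 (nat_lit 0) (nat_lit 0) (nat_lit 0) (nat_lit 0x7df0f9b274) (nat_lit 1010514960),
  Rx.mk (nat_lit 81) (nat_lit 1) (nat_lit 2) (nat_lit 1) (nat_lit 7) (nat_lit 285) (nat_lit 339) r4_285 r7_339 (nat_lit 0) (nat_lit 0) (nat_lit 0) (nat_lit 0x7de0ae173e) (nat_lit 1041759576),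
  Rx.mk (nat_lit 85) (nat_lit 5) (nat_lit 2) (nat_lit 1) (nat_lit 7) (nat_lit 292) (nat_lit 346) r4_292 r7_346 (nat_lit 0) (nat_lit 0) (nat_lit 0) (nat_lit 0x7de07e1a3e) (nat_lit 1042119000),
  Rx.mk (nat_lit 145) (nat_lit 1) (nat_lit 2) (nat_lit 2) (nat_lit 7) (nat_lit 286) (nat_lit 340) r4_286 r7_340 (nat_lit 0) (nat_lit 0) (nat_lit 0) (nat_lit 0x7dec75dab6) (nat_lit 1019172024)]
noncomputable def e46_14 : List Rx := [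
  Rx.mk (nat_lit 69) (nat_lit 5) (nat_lit 0) (nat_lit 1) (nat_lit 5) (nat_lit 304) (nat_lit 181) r4_304 r7_181 (nat_lit 0) (nat_lit 0) (nat_lit 0) (nat_lit 0x7de112f0f0) (nat_lit 1041004224),
  Rx.mk (nat_lit 77) (nat_lit 5) (nat_lit 1) (nat_lit 1) (nat_lit 7) (nat_lit 305) (nat_lit 182) r4_305 r7_182 (nat_lit 0) (nat_lit 0) (nat_lit 0) (nat_lit 0x7df79428c6) (nat_lit 997853688),
  Rx.mk (nat_lit 85) (nat_lit 5) (nat_lit 2) (nat_lit 1) (nat_lit 7) (nat_lit 306) (nat_lit 183) r4_306 r7_183 (nat_lit 0) (nat_lit 0) (nat_lit 0) (nat_lit 0x7df6d07502) (nat_lit 999319464)]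
noncomputable def e46_15 : List Rx := [
  Rx.mk (nat_lit 77) (nat_lit 5) (nat_lit 1) (nat_lit 1) (nat_lit 7) (nat_lit 307) (nat_lit 305) r4_307 r8_305 (nat_lit 0) (nat_lit 0) (nat_lit 0) (nat_lit 0x7dd68859a4) (nat_lit 1061216208),
  Rx.mk (nat_lit 333) (nat_lit 5) (nat_lit 1) (nat_lit 5) (nat_lit 7) (nat_lit 308) (nat_lit 306) r4_308 r8_306 (nat_lit 0) (nat_lit 0) (nat_lit 0) (nat_lit 0x7de5612c08) (nat_lit 1032748704)]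
noncomputable def e46_16 : List Rx := [
  Rx.mk (nat_lit 5) (nat_lit 5) (nat_lit 0) (nat_lit 0) (nat_lit 1) (nat_lit 349) (nat_lit 161) r4_349 r4_161 (nat_lit 0) (nat_lit 0) (nat_lit 0) (nat_lit 0x73692e19b6) (nat_lit 6179422392),
  Rx.mk (nat_lit 13) (nat_lit 5) (nat_lit 1) (nat_lit 0) (nat_lit 3) (nat_lit 350) (nat_lit 162) r4_350 r4_162 (nat_lit 0) (nat_lit 0) (nat_lit 0) (nat_lit 0x7e146cbb20) (nat_lit 942544512),
  Rx.mk (nat_lit 21) (nat_lit 5) (nat_lit 2) (nat_lit 0) (nat_lit 3) (nat_lit 351) (nat_lit 163) r4_351 r4_163 (nat_lit 0) (nat_lit 0) (nat_lit 0) (nat_lit 0x7e740fc090) (nat_lit 759170880),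
  Rx.mk (nat_lit 197) (nat_lit 5) (nat_lit 0) (nat_lit 3) (nat_lit 5) (nat_lit 352) (nat_lit 164) r4_352 r4_164 (nat_lit 0) (nat_lit 0) (nat_lit 0) (nat_lit 0x7e9dbce594) (nat_lit 679260816),
  Rx.mk (nat_lit 205) (nat_lit 5) (nat_lit 1) (nat_lit 3) (nat_lit 7) (nat_lit 353) (nat_lit 165) r4_353 r4_165 (nat_lit 0) (nat_lit 0) (nat_lit 0) (nat_lit 0x7e61448d56) (nat_lit 795205944),
  Rx.mk (nat_lit 213) (nat_lit 5) (nat_lit 2) (nat_lit 3) (nat_lit 7) (nat_lit 354) (nat_lit 166) r4_354 r4_166 (nat_lit 0) (nat_lit 0) (nat_lit 0) (nat_lit 0x7e69115082) (nat_lit 780250536)]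
noncomputable def e46_17 : List Rx := [
  Rx.mk (nat_lit 5) (nat_lit 5) (nat_lit 0) (nat_lit 0) (nat_lit 1) (nat_lit 355) (nat_lit 339) r4_355 r9_339 (nat_lit 0) (nat_lit 0) (nat_lit 0) (nat_lit 0x79366ebfde) (nat_lit 3331604952),
  Rx.mk (nat_lit 13) (nat_lit 5) (nat_lit 1) (nat_lit 0) (nat_lit 3) (nat_lit 356) (nat_lit 342) r4_356 r9_342 (nat_lit 0) (nat_lit 0) (nat_lit 0) (nat_lit 0x7dac309f4a) (nat_lit 1142403912),
  Rx.mk (nat_lit 21) (nat_lit 5) (nat_lit 2) (nat_lit 0) (nat_lit 3) (nat_lit 357) (nat_lit 345) r4_357 r9_345 (nat_lit 0) (nat_lit 0) (nat_lit 0) (nat_lit 0x7dca67bbba) (nat_lit 1084469256),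
  Rx.mk (nat_lit 69) (nat_lit 5) (nat_lit 0) (nat_lit 1) (nat_lit 5) (nat_lit 358) (nat_lit 340) r4_358 r9_340 (nat_lit 0) (nat_lit 0) (nat_lit 0) (nat_lit 0x7ddad0951c) (nat_lit 1053005616),
  Rx.mk (nat_lit 77) (nat_lit 5) (nat_lit 1) (nat_lit 1) (nat_lit 7) (nat_lit 359) (nat_lit 343) r4_359 r9_343 (nat_lit 0) (nat_lit 0) (nat_lit 0) (nat_lit 0x7de7bc6652) (nat_lit 1028230632),
  Rx.mk (nat_lit 85) (nat_lit 5) (nat_lit 2) (nat_lit 1) (nat_lit 7) (nat_lit 360) (nat_lit 346) r4_360 r9_346 (nat_lit 0) (nat_lit 0) (nat_lit 0) (nat_lit 0x7dd0b316fe) (nat_lit 1072400472),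
  Rx.mk (nat_lit 197) (nat_lit 5) (nat_lit 0) (nat_lit 3) (nat_lit 5) (nat_lit 361) (nat_lit 341) r4_361 r9_341 (nat_lit 0) (nat_lit 0) (nat_lit 0) (nat_lit 0x7dbf61cc24) (nat_lit 1105605072),
  Rx.mk (nat_lit 205) (nat_lit 5) (nat_lit 1) (nat_lit 3) (nat_lit 7) (nat_lit 362) (nat_lit 344) r4_362 r9_344 (nat_lit 0) (nat_lit 0) (nat_lit 0) (nat_lit 0x7de1a88796) (nat_lit 1039883832)]
noncomputable def e46_18 : List Rx := [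
  Rx.mk (nat_lit 197) (nat_lit 5) (nat_lit 0) (nat_lit 3) (nat_lit 5) (nat_lit 363) (nat_lit 353) r4_363 r10_353 (nat_lit 0) (nat_lit 0) (nat_lit 0) (nat_lit 0x7e35dac41e) (nat_lit 878446296),
  Rx.mk (nat_lit 205) (nat_lit 5) (nat_lit 1) (nat_lit 3) (nat_lit 7) (nat_lit 364) (nat_lit 354) r4_364 r10_354 (nat_lit 0) (nat_lit 0) (nat_lit 0) (nat_lit 0x7df12eef20) (nat_lit 1010116224),
  Rx.mk (nat_lit 213) (nat_lit 5) (nat_lit 2) (nat_lit 3) (nat_lit 7) (nat_lit 365) (nat_lit 355) r4_365 r10_355 (nat_lit 0) (nat_lit 0) (nat_lit 0) (nat_lit 0x7df06e3b2c) (nat_lit 1011559536)]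
noncomputable def e46_19 : List Rx := [
  Rx.mk (nat_lit 76) (nat_lit 4) (nat_lit 1) (nat_lit 1) (nat_lit 6) (nat_lit 309) (nat_lit 313) r4_309 r8_313 (nat_lit 0) (nat_lit 0) (nat_lit 0) (nat_lit 0x7cf628a080) (nat_lit 1491429888),
  Rx.mk (nat_lit 77) (nat_lit 5) (nat_lit 1) (nat_lit 1) (nat_lit 7) (nat_lit 311) (nat_lit 315) r4_311 r8_315 (nat_lit 0) (nat_lit 0) (nat_lit 0) (nat_lit 0x7de1440dde) (nat_lit 1040636376),
  Rx.mk (nat_lit 332) (nat_lit 4) (nat_lit 1) (nat_lit 5) (nat_lit 6) (nat_lit 310) (nat_lit 312) r4_310 r8_312 (nat_lit 0) (nat_lit 0) (nat_lit 0) (nat_lit 0x7bf32fb112) (nat_lit 1987982568),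
  Rx.mk (nat_lit 333) (nat_lit 5) (nat_lit 1) (nat_lit 5) (nat_lit 7) (nat_lit 312) (nat_lit 314) r4_312 r8_314 (nat_lit 0) (nat_lit 0) (nat_lit 0) (nat_lit 0x7ddd4f0d32) (nat_lit 1048223592),
  Rx.mk (nat_lit 334) (nat_lit 6) (nat_lit 1) (nat_lit 5) (nat_lit 7) (nat_lit 313) (nat_lit 316) r4_313 r8_316 (nat_lit 0) (nat_lit 0) (nat_lit 0) (nat_lit 0x7deb594c80) (nat_lit 1021303296),
  Rx.mk (nat_lit 366) (nat_lit 6) (nat_lit 5) (nat_lit 5) (nat_lit 7) (nat_lit 314) (nat_lit 311) r4_314 r8_311 (nat_lit 0) (nat_lit 0) (nat_lit 0) (nat_lit 0x7dc5e563e4) (nat_lit 1093115088)]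
noncomputable def e46_20 : List Rx := [
  Rx.mk (nat_lit 270) (nat_lit 6) (nat_lit 1) (nat_lit 4) (nat_lit 3) (nat_lit 68) (nat_lit 79) r4_68 r0_79 (nat_lit 0) (nat_lit 0) (nat_lit 0) (nat_lit 0x6338dbcf0c) (nat_lit 14125728240),
  Rx.mk (nat_lit 302) (nat_lit 6) (nat_lit 5) (nat_lit 4) (nat_lit 3) (nat_lit 69) (nat_lit 80) r4_69 r0_80 (nat_lit 0) (nat_lit 0) (nat_lit 0) (nat_lit 0x7933197536) (nat_lit 3337995960),
  Rx.mk (nat_lit 494) (nat_lit 6) (nat_lit 5) (nat_lit 7) (nat_lit 7) (nat_lit 70) (nat_lit 81) r4_70 r0_81 (nat_lit 0) (nat_lit 0) (nat_lit 0) (nat_lit 0x7e7f2fee82) (nat_lit 737838504)]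
noncomputable def e46_21 : List Rx := [
  Rx.mk (nat_lit 302) (nat_lit 6) (nat_lit 5) (nat_lit 4) (nat_lit 3) (nat_lit 71) (nat_lit 85) r4_71 r1_85 (nat_lit 0) (nat_lit 0) (nat_lit 0) (nat_lit 0x7de3bb066c) (nat_lit 1035910512),
  Rx.mk (nat_lit 430) (nat_lit 6) (nat_lit 5) (nat_lit 6) (nat_lit 7) (nat_lit 72) (nat_lit 87) r4_72 r1_87 (nat_lit 0) (nat_lit 0) (nat_lit 0) (nat_lit 0x7df5700b0a) (nat_lit 1001958984),
  Rx.mk (nat_lit 494) (nat_lit 6) (nat_lit 5) (nat_lit 7) (nat_lit 7) (nat_lit 73) (nat_lit 86) r4_73 r1_86 (nat_lit 0) (nat_lit 0) (nat_lit 0) (nat_lit 0x7eb127ced2) (nat_lit 642029544)]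
noncomputable def e46_22 : List Rx := [
  Rx.mk (nat_lit 270) (nat_lit 6) (nat_lit 1) (nat_lit 4) (nat_lit 3) (nat_lit 75) (nat_lit 74) r4_75 r4_74 (nat_lit 0) (nat_lit 0) (nat_lit 0) (nat_lit 0x7df5478d92) (nat_lit 1002262248),
  Rx.mk (nat_lit 460) (nat_lit 4) (nat_lit 1) (nat_lit 7) (nat_lit 6) (nat_lit 74) (nat_lit 75) r4_74 r4_75 (nat_lit 0) (nat_lit 0) (nat_lit 0) (nat_lit 0x7df5478d92) (nat_lit 1002262248),
  Rx.mk (nat_lit 462) (nat_lit 6) (nat_lit 1) (nat_lit 7) (nat_lit 7) (nat_lit 76) (nat_lit 76) r4_76 r4_76 (nat_lit 0) (nat_lit 0) (nat_lit 0) (nat_lit 0x78e27fff1e) (nat_lit 3492537048),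
  Rx.mk (nat_lit 494) (nat_lit 6) (nat_lit 5) (nat_lit 7) (nat_lit 7) (nat_lit 77) (nat_lit 77) r4_77 r4_77 (nat_lit 0) (nat_lit 0) (nat_lit 0) (nat_lit 0x7e7ff5222e) (nat_lit 736361496)]
noncomputable def e46_23 : List Rx := [
  Rx.mk (nat_lit 268) (nat_lit 4) (nat_lit 1) (nat_lit 4) (nat_lit 2) (nat_lit 167) (nat_lit 427) r4_167 r6_427 (nat_lit 0) (nat_lit 0) (nat_lit 0) (nat_lit 0x6ce30222fc) (nat_lit 9381803184),
  Rx.mk (nat_lit 270) (nat_lit 6) (nat_lit 1) (nat_lit 4) (nat_lit 3) (nat_lit 169) (nat_lit 429) r4_169 r6_429 (nat_lit 0) (nat_lit 0) (nat_lit 0) (nat_lit 0x7e5529ef0c) (nat_lit 818414064),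
  Rx.mk (nat_lit 302) (nat_lit 6) (nat_lit 5) (nat_lit 4) (nat_lit 3) (nat_lit 170) (nat_lit 424) r4_170 r6_424 (nat_lit 0) (nat_lit 0) (nat_lit 0) (nat_lit 0x7e444b5d06) (nat_lit 850759416),
  Rx.mk (nat_lit 332) (nat_lit 4) (nat_lit 1) (nat_lit 5) (nat_lit 6) (nat_lit 168) (nat_lit 428) r4_168 r6_428 (nat_lit 0) (nat_lit 0) (nat_lit 0) (nat_lit 0x7cb6e0d53c) (nat_lit 1612763568),
  Rx.mk (nat_lit 334) (nat_lit 6) (nat_lit 1) (nat_lit 5) (nat_lit 7) (nat_lit 171) (nat_lit 430) r4_171 r6_430 (nat_lit 0) (nat_lit 0) (nat_lit 0) (nat_lit 0x7e5e361e40) (nat_lit 801066240),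
  Rx.mk (nat_lit 366) (nat_lit 6) (nat_lit 5) (nat_lit 5) (nat_lit 7) (nat_lit 172) (nat_lit 425) r4_172 r6_425 (nat_lit 0) (nat_lit 0) (nat_lit 0) (nat_lit 0x7df13cce42) (nat_lit 1010012328),
  Rx.mk (nat_lit 494) (nat_lit 6) (nat_lit 5) (nat_lit 7) (nat_lit 7) (nat_lit 173) (nat_lit 426) r4_173 r6_426 (nat_lit 0) (nat_lit 0) (nat_lit 0) (nat_lit 0x7dcf6e0b50) (nat_lit 1074835008)]
noncomputable def e46_24 : List Rx := [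
  Rx.mk (nat_lit 302) (nat_lit 6) (nat_lit 5) (nat_lit 4) (nat_lit 3) (nat_lit 177) (nat_lit 351) r4_177 r7_351 (nat_lit 0) (nat_lit 0) (nat_lit 0) (nat_lit 0x7dec271fa2) (nat_lit 1019761704),
  Rx.mk (nat_lit 366) (nat_lit 6) (nat_lit 5) (nat_lit 5) (nat_lit 7) (nat_lit 178) (nat_lit 352) r4_178 r7_352 (nat_lit 0) (nat_lit 0) (nat_lit 0) (nat_lit 0x7de75b4c64) (nat_lit 1028957904),
  Rx.mk (nat_lit 430) (nat_lit 6) (nat_lit 5) (nat_lit 6) (nat_lit 7) (nat_lit 179) (nat_lit 354) r4_179 r7_354 (nat_lit 0) (nat_lit 0) (nat_lit 0) (nat_lit 0x7ddcf03320) (nat_lit 1048934016),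
  Rx.mk (nat_lit 494) (nat_lit 6) (nat_lit 5) (nat_lit 7) (nat_lit 7) (nat_lit 180) (nat_lit 353) r4_180 r7_353 (nat_lit 0) (nat_lit 0) (nat_lit 0) (nat_lit 0x7de78789a0) (nat_lit 1028626560)]
noncomputable def e46_25 : List Rx := [
  Rx.mk (nat_lit 332) (nat_lit 4) (nat_lit 1) (nat_lit 5) (nat_lit 6) (nat_lit 174) (nat_lit 68) r4_174 r7_68 (nat_lit 0) (nat_lit 0) (nat_lit 0) (nat_lit 0x7d8ece758a) (nat_lit 1198743624),
  Rx.mk (nat_lit 334) (nat_lit 6) (nat_lit 1) (nat_lit 5) (nat_lit 7) (nat_lit 175) (nat_lit 69) r4_175 r7_69 (nat_lit 0) (nat_lit 0) (nat_lit 0) (nat_lit 0x7e35a76754) (nat_lit 878830992),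
  Rx.mk (nat_lit 366) (nat_lit 6) (nat_lit 5) (nat_lit 5) (nat_lit 7) (nat_lit 176) (nat_lit 70) r4_176 r7_70 (nat_lit 0) (nat_lit 0) (nat_lit 0) (nat_lit 0x7ddc8799aa) (nat_lit 1049717448)]
noncomputable def e46_26 : List Rx := [
  Rx.mk (nat_lit 268) (nat_lit 4) (nat_lit 1) (nat_lit 4) (nat_lit 2) (nat_lit 181) (nat_lit 351) r4_181 r9_351 (nat_lit 0) (nat_lit 0) (nat_lit 0) (nat_lit 0x6d142270c6) (nat_lit 9287608824),
  Rx.mk (nat_lit 270) (nat_lit 6) (nat_lit 1) (nat_lit 4) (nat_lit 3) (nat_lit 184) (nat_lit 354) r4_184 r9_354 (nat_lit 0) (nat_lit 0) (nat_lit 0) (nat_lit 0x7db5be2668) (nat_lit 1124087328),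
  Rx.mk (nat_lit 332) (nat_lit 4) (nat_lit 1) (nat_lit 5) (nat_lit 6) (nat_lit 182) (nat_lit 352) r4_182 r9_352 (nat_lit 0) (nat_lit 0) (nat_lit 0) (nat_lit 0x7d99734b32) (nat_lit 1178335080),
  Rx.mk (nat_lit 334) (nat_lit 6) (nat_lit 1) (nat_lit 5) (nat_lit 7) (nat_lit 185) (nat_lit 355) r4_185 r9_355 (nat_lit 0) (nat_lit 0) (nat_lit 0) (nat_lit 0x7e4eb4f662) (nat_lit 830794536),
  Rx.mk (nat_lit 460) (nat_lit 4) (nat_lit 1) (nat_lit 7) (nat_lit 6) (nat_lit 183) (nat_lit 353) r4_183 r9_353 (nat_lit 0) (nat_lit 0) (nat_lit 0) (nat_lit 0x7cf5efa410) (nat_lit 1491856704),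
  Rx.mk (nat_lit 462) (nat_lit 6) (nat_lit 1) (nat_lit 7) (nat_lit 7) (nat_lit 186) (nat_lit 356) r4_186 r9_356 (nat_lit 0) (nat_lit 0) (nat_lit 0) (nat_lit 0x7e49616ba0) (nat_lit 841007232),
  Rx.mk (nat_lit 494) (nat_lit 6) (nat_lit 5) (nat_lit 7) (nat_lit 7) (nat_lit 187) (nat_lit 350) r4_187 r9_350 (nat_lit 0) (nat_lit 0) (nat_lit 0) (nat_lit 0x7de10331ec) (nat_lit 1041122160)]
noncomputable def e46_27 : List Rx := [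
  Rx.mk (nat_lit 460) (nat_lit 4) (nat_lit 1) (nat_lit 7) (nat_lit 6) (nat_lit 226) (nat_lit 358) r4_226 r10_358 (nat_lit 0) (nat_lit 0) (nat_lit 0) (nat_lit 0x7adab11a14) (nat_lit 2525801616),
  Rx.mk (nat_lit 462) (nat_lit 6) (nat_lit 1) (nat_lit 7) (nat_lit 7) (nat_lit 227) (nat_lit 359) r4_227 r10_359 (nat_lit 0) (nat_lit 0) (nat_lit 0) (nat_lit 0x7e63204f98) (nat_lit 791642592),
  Rx.mk (nat_lit 494) (nat_lit 6) (nat_lit 5) (nat_lit 7) (nat_lit 7) (nat_lit 228) (nat_lit 357) r4_228 r10_357 (nat_lit 0) (nat_lit 0) (nat_lit 0) (nat_lit 0x7e80048138) (nat_lit 736246368)]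
noncomputable def e46_28 : List Rx := [
  Rx.mk (nat_lit 4) (nat_lit 4) (nat_lit 0) (nat_lit 0) (nat_lit 0) (nat_lit 381) (nat_lit 191) r4_381 r10_191 (nat_lit 0) (nat_lit 0) (nat_lit 0) (nat_lit 0x38e6b45bd8) (nat_lit 34899093216),
  Rx.mk (nat_lit 5) (nat_lit 5) (nat_lit 0) (nat_lit 0) (nat_lit 1) (nat_lit 390) (nat_lit 192) r4_390 r10_192 (nat_lit 0) (nat_lit 0) (nat_lit 0) (nat_lit 0x7c966bbcae) (nat_lit 1674997272),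
  Rx.mk (nat_lit 7) (nat_lit 7) (nat_lit 0) (nat_lit 0) (nat_lit 1) (nat_lit 396) (nat_lit 193) r4_396 r10_193 (nat_lit 0) (nat_lit 0) (nat_lit 0) (nat_lit 0x7ccea598d8) (nat_lit 1567189728),
  Rx.mk (nat_lit 12) (nat_lit 4) (nat_lit 1) (nat_lit 0) (nat_lit 2) (nat_lit 382) (nat_lit 194) r4_382 r10_194 (nat_lit 0) (nat_lit 0) (nat_lit 0) (nat_lit 0x7d28250088) (nat_lit 1395587232),
  Rx.mk (nat_lit 15) (nat_lit 7) (nat_lit 1) (nat_lit 0) (nat_lit 3) (nat_lit 397) (nat_lit 195) r4_397 r10_195 (nat_lit 0) (nat_lit 0) (nat_lit 0) (nat_lit 0x7de473dade) (nat_lit 1034526168),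
  Rx.mk (nat_lit 20) (nat_lit 4) (nat_lit 2) (nat_lit 0) (nat_lit 2) (nat_lit 383) (nat_lit 196) r4_383 r10_196 (nat_lit 0) (nat_lit 0) (nat_lit 0) (nat_lit 0x7d70d954fa) (nat_lit 1256184072),
  Rx.mk (nat_lit 21) (nat_lit 5) (nat_lit 2) (nat_lit 0) (nat_lit 3) (nat_lit 391) (nat_lit 197) r4_391 r10_197 (nat_lit 0) (nat_lit 0) (nat_lit 0) (nat_lit 0x7de4ce9532) (nat_lit 1033846632),
  Rx.mk (nat_lit 23) (nat_lit 7) (nat_lit 2) (nat_lit 0) (nat_lit 3) (nat_lit 398) (nat_lit 198) r4_398 r10_198 (nat_lit 0) (nat_lit 0) (nat_lit 0) (nat_lit 0x7dcd522d10) (nat_lit 1078878528),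
  Rx.mk (nat_lit 68) (nat_lit 4) (nat_lit 0) (nat_lit 1) (nat_lit 4) (nat_lit 384) (nat_lit 199) r4_384 r10_199 (nat_lit 0) (nat_lit 0) (nat_lit 0) (nat_lit 0x7ba0e835dc) (nat_lit 2145744432),
  Rx.mk (nat_lit 69) (nat_lit 5) (nat_lit 0) (nat_lit 1) (nat_lit 5) (nat_lit 392) (nat_lit 200) r4_392 r10_200 (nat_lit 0) (nat_lit 0) (nat_lit 0) (nat_lit 0x7ded13b0d8) (nat_lit 1017989856),
  Rx.mk (nat_lit 71) (nat_lit 7) (nat_lit 0) (nat_lit 1) (nat_lit 5) (nat_lit 399) (nat_lit 201) r4_399 r10_201 (nat_lit 0) (nat_lit 0) (nat_lit 0) (nat_lit 0x7dd7e563d2) (nat_lit 1058601960),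
  Rx.mk (nat_lit 76) (nat_lit 4) (nat_lit 1) (nat_lit 1) (nat_lit 6) (nat_lit 385) (nat_lit 202) r4_385 r10_202 (nat_lit 0) (nat_lit 0) (nat_lit 0) (nat_lit 0x7dce487daa) (nat_lit 1077033672),
  Rx.mk (nat_lit 79) (nat_lit 7) (nat_lit 1) (nat_lit 1) (nat_lit 7) (nat_lit 400) (nat_lit 203) r4_400 r10_203 (nat_lit 0) (nat_lit 0) (nat_lit 0) (nat_lit 0x7df3488d84) (nat_lit 1006089552),
  Rx.mk (nat_lit 84) (nat_lit 4) (nat_lit 2) (nat_lit 1) (nat_lit 6) (nat_lit 386) (nat_lit 204) r4_386 r10_204 (nat_lit 0) (nat_lit 0) (nat_lit 0) (nat_lit 0x7df210a104) (nat_lit 1008425808),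
  Rx.mk (nat_lit 85) (nat_lit 5) (nat_lit 2) (nat_lit 1) (nat_lit 7) (nat_lit 393) (nat_lit 205) r4_393 r10_205 (nat_lit 0) (nat_lit 0) (nat_lit 0) (nat_lit 0x7df01c204e) (nat_lit 1012174488),
  Rx.mk (nat_lit 87) (nat_lit 7) (nat_lit 2) (nat_lit 1) (nat_lit 7) (nat_lit 401) (nat_lit 206) r4_401 r10_206 (nat_lit 0) (nat_lit 0) (nat_lit 0) (nat_lit 0x7df70fd10c) (nat_lit 998844912),
  Rx.mk (nat_lit 196) (nat_lit 4) (nat_lit 0) (nat_lit 3) (nat_lit 4) (nat_lit 387) (nat_lit 207) r4_387 r10_207 (nat_lit 0) (nat_lit 0) (nat_lit 0) (nat_lit 0x7c3386eb5e) (nat_lit 1864615896),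
  Rx.mk (nat_lit 197) (nat_lit 5) (nat_lit 0) (nat_lit 3) (nat_lit 5) (nat_lit 394) (nat_lit 208) r4_394 r10_208 (nat_lit 0) (nat_lit 0) (nat_lit 0) (nat_lit 0x7de439be80) (nat_lit 1034961408),
  Rx.mk (nat_lit 204) (nat_lit 4) (nat_lit 1) (nat_lit 3) (nat_lit 6) (nat_lit 388) (nat_lit 209) r4_388 r10_209 (nat_lit 0) (nat_lit 0) (nat_lit 0) (nat_lit 0x7dcf0cf162) (nat_lit 1075562280),
  Rx.mk (nat_lit 220) (nat_lit 4) (nat_lit 3) (nat_lit 3) (nat_lit 6) (nat_lit 389) (nat_lit 210) r4_389 r10_210 (nat_lit 0) (nat_lit 0) (nat_lit 0) (nat_lit 0x7df1be8626) (nat_lit 1009040760),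
  Rx.mk (nat_lit 221) (nat_lit 5) (nat_lit 3) (nat_lit 3) (nat_lit 7) (nat_lit 395) (nat_lit 211) r4_395 r10_211 (nat_lit 0) (nat_lit 0) (nat_lit 0) (nat_lit 0x7df5724ae6) (nat_lit 1001942136)]
noncomputable def e46_29 : List Rx := [
  Rx.mk (nat_lit 199) (nat_lit 7) (nat_lit 0) (nat_lit 3) (nat_lit 5) (nat_lit 84) (nat_lit 25) r4_84 r5_25 (nat_lit 0) (nat_lit 0) (nat_lit 0) (nat_lit 0x7e271210b8) (nat_lit 906793056),
  Rx.mk (nat_lit 207) (nat_lit 7) (nat_lit 1) (nat_lit 3) (nat_lit 7) (nat_lit 85) (nat_lit 26) r4_85 r5_26 (nat_lit 0) (nat_lit 0) (nat_lit 0) (nat_lit 0x7e3b9e07e4) (nat_lit 867396816),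
  Rx.mk (nat_lit 215) (nat_lit 7) (nat_lit 2) (nat_lit 3) (nat_lit 7) (nat_lit 86) (nat_lit 27) r4_86 r5_27 (nat_lit 0) (nat_lit 0) (nat_lit 0) (nat_lit 0x7e2a2b5f20) (nat_lit 900851328),
  Rx.mk (nat_lit 452) (nat_lit 4) (nat_lit 0) (nat_lit 7) (nat_lit 4) (nat_lit 78) (nat_lit 20) r4_78 r5_20 (nat_lit 0) (nat_lit 0) (nat_lit 0) (nat_lit 0x73b85e8660) (nat_lit 6027585408),
  Rx.mk (nat_lit 454) (nat_lit 6) (nat_lit 0) (nat_lit 7) (nat_lit 5) (nat_lit 81) (nat_lit 28) r4_81 r5_28 (nat_lit 0) (nat_lit 0) (nat_lit 0) (nat_lit 0x725645c94e) (nat_lit 6706528920),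
  Rx.mk (nat_lit 455) (nat_lit 7) (nat_lit 0) (nat_lit 7) (nat_lit 5) (nat_lit 87) (nat_lit 23) r4_87 r5_23 (nat_lit 0) (nat_lit 0) (nat_lit 0) (nat_lit 0x7dc900f228) (nat_lit 1087156512),
  Rx.mk (nat_lit 460) (nat_lit 4) (nat_lit 1) (nat_lit 7) (nat_lit 6) (nat_lit 79) (nat_lit 21) r4_79 r5_21 (nat_lit 0) (nat_lit 0) (nat_lit 0) (nat_lit 0x7e786b1ad6) (nat_lit 750817080),
  Rx.mk (nat_lit 462) (nat_lit 6) (nat_lit 1) (nat_lit 7) (nat_lit 7) (nat_lit 82) (nat_lit 29) r4_82 r5_29 (nat_lit 0) (nat_lit 0) (nat_lit 0) (nat_lit 0x7efcc334d0) (nat_lit 497060928),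
  Rx.mk (nat_lit 463) (nat_lit 7) (nat_lit 1) (nat_lit 7) (nat_lit 7) (nat_lit 88) (nat_lit 24) r4_88 r5_24 (nat_lit 0) (nat_lit 0) (nat_lit 0) (nat_lit 0x7dda26bfba) (nat_lit 1054277640),
  Rx.mk (nat_lit 476) (nat_lit 4) (nat_lit 3) (nat_lit 7) (nat_lit 6) (nat_lit 80) (nat_lit 22) r4_80 r5_22 (nat_lit 0) (nat_lit 0) (nat_lit 0) (nat_lit 0x7cf80582b0) (nat_lit 1487858112),
  Rx.mk (nat_lit 478) (nat_lit 6) (nat_lit 3) (nat_lit 7) (nat_lit 7) (nat_lit 83) (nat_lit 30) r4_83 r5_30 (nat_lit 0) (nat_lit 0) (nat_lit 0) (nat_lit 0x7ee231fdfe) (nat_lit 548000856)]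
noncomputable def e46_30 : List Rx := [
  Rx.mk (nat_lit 268) (nat_lit 4) (nat_lit 1) (nat_lit 4) (nat_lit 2) (nat_lit 188) (nat_lit 46) r4_188 r10_46 (nat_lit 0) (nat_lit 0) (nat_lit 0) (nat_lit 0x7d74889a02) (nat_lit 1249119144),
  Rx.mk (nat_lit 270) (nat_lit 6) (nat_lit 1) (nat_lit 4) (nat_lit 3) (nat_lit 191) (nat_lit 47) r4_191 r10_47 (nat_lit 0) (nat_lit 0) (nat_lit 0) (nat_lit 0x7e25a6c76e) (nat_lit 909514008),
  Rx.mk (nat_lit 332) (nat_lit 4) (nat_lit 1) (nat_lit 5) (nat_lit 6) (nat_lit 189) (nat_lit 48) r4_189 r10_48 (nat_lit 0) (nat_lit 0) (nat_lit 0) (nat_lit 0x7de345adc2) (nat_lit 1036789416),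
  Rx.mk (nat_lit 334) (nat_lit 6) (nat_lit 1) (nat_lit 5) (nat_lit 7) (nat_lit 192) (nat_lit 49) r4_192 r10_49 (nat_lit 0) (nat_lit 0) (nat_lit 0) (nat_lit 0x7df971caea) (nat_lit 994276296),
  Rx.mk (nat_lit 460) (nat_lit 4) (nat_lit 1) (nat_lit 7) (nat_lit 6) (nat_lit 190) (nat_lit 50) r4_190 r10_50 (nat_lit 0) (nat_lit 0) (nat_lit 0) (nat_lit 0x7df171aaf4) (nat_lit 1009616400),
  Rx.mk (nat_lit 462) (nat_lit 6) (nat_lit 1) (nat_lit 7) (nat_lit 7) (nat_lit 193) (nat_lit 52) r4_193 r10_52 (nat_lit 0) (nat_lit 0) (nat_lit 0) (nat_lit 0x7df8e77390) (nat_lit 995312448),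
  Rx.mk (nat_lit 463) (nat_lit 7) (nat_lit 1) (nat_lit 7) (nat_lit 7) (nat_lit 194) (nat_lit 51) r4_194 r10_51 (nat_lit 0) (nat_lit 0) (nat_lit 0) (nat_lit 0x7e002a9f56) (nat_lit 981387576)]
noncomputable def e46_31 : List Rx := [
  Rx.mk (nat_lit 7) (nat_lit 7) (nat_lit 0) (nat_lit 0) (nat_lit 1) (nat_lit 235) (nat_lit 128) r4_235 r5_128 (nat_lit 0) (nat_lit 0) (nat_lit 0) (nat_lit 0x729cb2c238) (nat_lit 6571495008),
  Rx.mk (nat_lit 15) (nat_lit 7) (nat_lit 1) (nat_lit 0) (nat_lit 3) (nat_lit 236) (nat_lit 131) r4_236 r5_131 (nat_lit 0) (nat_lit 0) (nat_lit 0) (nat_lit 0x7d7961ec68) (nat_lit 1239821856),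
  Rx.mk (nat_lit 23) (nat_lit 7) (nat_lit 2) (nat_lit 0) (nat_lit 3) (nat_lit 237) (nat_lit 137) r4_237 r5_137 (nat_lit 0) (nat_lit 0) (nat_lit 0) (nat_lit 0x7e05ce051a) (nat_lit 970576776),
  Rx.mk (nat_lit 196) (nat_lit 4) (nat_lit 0) (nat_lit 3) (nat_lit 4) (nat_lit 229) (nat_lit 129) r4_229 r5_129 (nat_lit 0) (nat_lit 0) (nat_lit 0) (nat_lit 0x71fe96849a) (nat_lit 6874655112),
  Rx.mk (nat_lit 199) (nat_lit 7) (nat_lit 0) (nat_lit 3) (nat_lit 5) (nat_lit 238) (nat_lit 130) r4_238 r5_130 (nat_lit 0) (nat_lit 0) (nat_lit 0) (nat_lit 0x7e7092b864) (nat_lit 765859536),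
  Rx.mk (nat_lit 204) (nat_lit 4) (nat_lit 1) (nat_lit 3) (nat_lit 6) (nat_lit 230) (nat_lit 132) r4_230 r5_132 (nat_lit 0) (nat_lit 0) (nat_lit 0) (nat_lit 0x7e314decf0) (nat_lit 887170752),
  Rx.mk (nat_lit 207) (nat_lit 7) (nat_lit 1) (nat_lit 3) (nat_lit 7) (nat_lit 239) (nat_lit 133) r4_239 r5_133 (nat_lit 0) (nat_lit 0) (nat_lit 0) (nat_lit 0x7e3b0f90cc) (nat_lit 868463856),
  Rx.mk (nat_lit 212) (nat_lit 4) (nat_lit 2) (nat_lit 3) (nat_lit 6) (nat_lit 231) (nat_lit 138) r4_231 r5_138 (nat_lit 0) (nat_lit 0) (nat_lit 0) (nat_lit 0x7e50b6f640) (nat_lit 826944768),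
  Rx.mk (nat_lit 215) (nat_lit 7) (nat_lit 2) (nat_lit 3) (nat_lit 7) (nat_lit 240) (nat_lit 139) r4_240 r5_139 (nat_lit 0) (nat_lit 0) (nat_lit 0) (nat_lit 0x7e1ae6f376) (nat_lit 930124728),
  Rx.mk (nat_lit 220) (nat_lit 4) (nat_lit 3) (nat_lit 3) (nat_lit 6) (nat_lit 232) (nat_lit 134) r4_232 r5_134 (nat_lit 0) (nat_lit 0) (nat_lit 0) (nat_lit 0x7d90cfb574) (nat_lit 1194899472),
  Rx.mk (nat_lit 476) (nat_lit 4) (nat_lit 3) (nat_lit 7) (nat_lit 6) (nat_lit 233) (nat_lit 135) r4_233 r5_135 (nat_lit 0) (nat_lit 0) (nat_lit 0) (nat_lit 0x7e5fadc6c4) (nat_lit 798252624),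
  Rx.mk (nat_lit 478) (nat_lit 6) (nat_lit 3) (nat_lit 7) (nat_lit 7) (nat_lit 234) (nat_lit 136) r4_234 r5_136 (nat_lit 0) (nat_lit 0) (nat_lit 0) (nat_lit 0x7ee10430dc) (nat_lit 550261296)]
noncomputable def e46_32 : List Rx := [
  Rx.mk (nat_lit 196) (nat_lit 4) (nat_lit 0) (nat_lit 3) (nat_lit 4) (nat_lit 241) (nat_lit 392) r4_241 r11_392 (nat_lit 0) (nat_lit 0) (nat_lit 0) (nat_lit 0x75f067639a) (nat_lit 4938438024),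
  Rx.mk (nat_lit 199) (nat_lit 7) (nat_lit 0) (nat_lit 3) (nat_lit 5) (nat_lit 250) (nat_lit 398) r4_250 r11_398 (nat_lit 0) (nat_lit 0) (nat_lit 0) (nat_lit 0x7dda8599cc) (nat_lit 1053567216),
  Rx.mk (nat_lit 204) (nat_lit 4) (nat_lit 1) (nat_lit 3) (nat_lit 6) (nat_lit 242) (nat_lit 394) r4_242 r11_394 (nat_lit 0) (nat_lit 0) (nat_lit 0) (nat_lit 0x7e10d57498) (nat_lit 949429728),
  Rx.mk (nat_lit 207) (nat_lit 7) (nat_lit 1) (nat_lit 3) (nat_lit 7) (nat_lit 251) (nat_lit 399) r4_251 r11_399 (nat_lit 0) (nat_lit 0) (nat_lit 0) (nat_lit 0x7df52e0f2a) (nat_lit 1002453192),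
  Rx.mk (nat_lit 212) (nat_lit 4) (nat_lit 2) (nat_lit 3) (nat_lit 6) (nat_lit 243) (nat_lit 397) r4_243 r11_397 (nat_lit 0) (nat_lit 0) (nat_lit 0) (nat_lit 0x7e356d4af6) (nat_lit 879266232),
  Rx.mk (nat_lit 215) (nat_lit 7) (nat_lit 2) (nat_lit 3) (nat_lit 7) (nat_lit 252) (nat_lit 400) r4_252 r11_400 (nat_lit 0) (nat_lit 0) (nat_lit 0) (nat_lit 0x7e1d7e2a00) (nat_lit 925157376),
  Rx.mk (nat_lit 452) (nat_lit 4) (nat_lit 0) (nat_lit 7) (nat_lit 4) (nat_lit 244) (nat_lit 393) r4_244 r11_393 (nat_lit 0) (nat_lit 0) (nat_lit 0) (nat_lit 0x6bf3fab462) (nat_lit 9840116520),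
  Rx.mk (nat_lit 454) (nat_lit 6) (nat_lit 0) (nat_lit 7) (nat_lit 5) (nat_lit 247) (nat_lit 401) r4_247 r11_401 (nat_lit 0) (nat_lit 0) (nat_lit 0) (nat_lit 0x6e389aa81e) (nat_lit 8726828760),
  Rx.mk (nat_lit 460) (nat_lit 4) (nat_lit 1) (nat_lit 7) (nat_lit 6) (nat_lit 245) (nat_lit 395) r4_245 r11_395 (nat_lit 0) (nat_lit 0) (nat_lit 0) (nat_lit 0x7e8d7ec986) (nat_lit 710404344),
  Rx.mk (nat_lit 462) (nat_lit 6) (nat_lit 1) (nat_lit 7) (nat_lit 7) (nat_lit 248) (nat_lit 402) r4_248 r11_402 (nat_lit 0) (nat_lit 0) (nat_lit 0) (nat_lit 0x7ef9498c6e) (nat_lit 503724312),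
  Rx.mk (nat_lit 476) (nat_lit 4) (nat_lit 3) (nat_lit 7) (nat_lit 6) (nat_lit 246) (nat_lit 396) r4_246 r11_396 (nat_lit 0) (nat_lit 0) (nat_lit 0) (nat_lit 0x7d40c096b6) (nat_lit 1348404408),
  Rx.mk (nat_lit 478) (nat_lit 6) (nat_lit 3) (nat_lit 7) (nat_lit 7) (nat_lit 249) (nat_lit 403) r4_249 r11_403 (nat_lit 0) (nat_lit 0) (nat_lit 0) (nat_lit 0x7ea772ea2a) (nat_lit 660640968)]
noncomputable def e46_33 : List Rx := [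
  Rx.mk (nat_lit 19) (nat_lit 3) (nat_lit 2) (nat_lit 0) (nat_lit 3) (nat_lit 5) (nat_lit 59) r4_5 r0_59 (nat_lit 0) (nat_lit 0) (nat_lit 0) (nat_lit 0x73827b04ce) (nat_lit 6130911384),
  Rx.mk (nat_lit 144) (nat_lit 0) (nat_lit 2) (nat_lit 2) (nat_lit 6) (nat_lit 0) (nat_lit 58) r4_0 r0_58 (nat_lit 0) (nat_lit 0) (nat_lit 0) (nat_lit 0x6075ec00cc) (nat_lit 15481206000),
  Rx.mk (nat_lit 147) (nat_lit 3) (nat_lit 2) (nat_lit 2) (nat_lit 7) (nat_lit 6) (nat_lit 61) r4_6 r0_61 (nat_lit 0) (nat_lit 0) (nat_lit 0) (nat_lit 0x769aeeda78) (nat_lit 4611466080),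
  Rx.mk (nat_lit 176) (nat_lit 0) (nat_lit 6) (nat_lit 2) (nat_lit 6) (nat_lit 1) (nat_lit 57) r4_1 r0_57 (nat_lit 0) (nat_lit 0) (nat_lit 0) (nat_lit 0x79050af64c) (nat_lit 3426304752),
  Rx.mk (nat_lit 178) (nat_lit 2) (nat_lit 6) (nat_lit 2) (nat_lit 7) (nat_lit 2) (nat_lit 64) r4_2 r0_64 (nat_lit 0) (nat_lit 0) (nat_lit 0) (nat_lit 0x7d87d5e51a) (nat_lit 1212109704),
  Rx.mk (nat_lit 211) (nat_lit 3) (nat_lit 2) (nat_lit 3) (nat_lit 7) (nat_lit 7) (nat_lit 60) r4_7 r0_60 (nat_lit 0) (nat_lit 0) (nat_lit 0) (nat_lit 0x7dd9546ce0) (nat_lit 1055852928),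
  Rx.mk (nat_lit 294) (nat_lit 6) (nat_lit 4) (nat_lit 4) (nat_lit 1) (nat_lit 8) (nat_lit 52) r4_8 r0_52 (nat_lit 0) (nat_lit 0) (nat_lit 0) (nat_lit 0x5b6197cb24) (nat_lit 17974451664),
  Rx.mk (nat_lit 318) (nat_lit 6) (nat_lit 7) (nat_lit 4) (nat_lit 3) (nat_lit 9) (nat_lit 53) r4_9 r0_53 (nat_lit 0) (nat_lit 0) (nat_lit 0) (nat_lit 0x6d58b6a73e) (nat_lit 9156115800),
  Rx.mk (nat_lit 418) (nat_lit 2) (nat_lit 4) (nat_lit 6) (nat_lit 5) (nat_lit 3) (nat_lit 62) r4_3 r0_62 (nat_lit 0) (nat_lit 0) (nat_lit 0) (nat_lit 0x71ae0a8daa) (nat_lit 7029095112),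
  Rx.mk (nat_lit 422) (nat_lit 6) (nat_lit 4) (nat_lit 6) (nat_lit 5) (nat_lit 10) (nat_lit 55) r4_10 r0_55 (nat_lit 0) (nat_lit 0) (nat_lit 0) (nat_lit 0x76957cf19c) (nat_lit 4621906224),
  Rx.mk (nat_lit 434) (nat_lit 2) (nat_lit 6) (nat_lit 6) (nat_lit 7) (nat_lit 4) (nat_lit 63) r4_4 r0_63 (nat_lit 0) (nat_lit 0) (nat_lit 0) (nat_lit 0x7dd8cbf568) (nat_lit 1056875040),
  Rx.mk (nat_lit 446) (nat_lit 6) (nat_lit 7) (nat_lit 6) (nat_lit 7) (nat_lit 11) (nat_lit 56) r4_11 r0_56 (nat_lit 0) (nat_lit 0) (nat_lit 0) (nat_lit 0x7dea5bdc58) (nat_lit 1023201504),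
  Rx.mk (nat_lit 510) (nat_lit 6) (nat_lit 7) (nat_lit 7) (nat_lit 7) (nat_lit 12) (nat_lit 54) r4_12 r0_54 (nat_lit 0) (nat_lit 0) (nat_lit 0) (nat_lit 0x75a4e5dbfe) (nat_lit 5083212888)]
noncomputable def e46_34 : List Rx := [
  Rx.mk (nat_lit 16) (nat_lit 0) (nat_lit 2) (nat_lit 0) (nat_lit 2) (nat_lit 93) (nat_lit 142) r4_93 r0_142 (nat_lit 0) (nat_lit 0) (nat_lit 0) (nat_lit 0x71b7297bb2) (nat_lit 7011606888),
  Rx.mk (nat_lit 19) (nat_lit 3) (nat_lit 2) (nat_lit 0) (nat_lit 3) (nat_lit 95) (nat_lit 143) r4_95 r0_143 (nat_lit 0) (nat_lit 0) (nat_lit 0) (nat_lit 0x7ac67fdd3c) (nat_lit 2564518320),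
  Rx.mk (nat_lit 144) (nat_lit 0) (nat_lit 2) (nat_lit 2) (nat_lit 6) (nat_lit 94) (nat_lit 145) r4_94 r0_145 (nat_lit 0) (nat_lit 0) (nat_lit 0) (nat_lit 0x7bb2a1ba32) (nat_lit 2111759208),
  Rx.mk (nat_lit 147) (nat_lit 3) (nat_lit 2) (nat_lit 2) (nat_lit 7) (nat_lit 96) (nat_lit 146) r4_96 r0_146 (nat_lit 0) (nat_lit 0) (nat_lit 0) (nat_lit 0x7e2f4f4cdc) (nat_lit 890995248),
  Rx.mk (nat_lit 211) (nat_lit 3) (nat_lit 2) (nat_lit 3) (nat_lit 7) (nat_lit 97) (nat_lit 144) r4_97 r0_144 (nat_lit 0) (nat_lit 0) (nat_lit 0) (nat_lit 0x7d94351f1a) (nat_lit 1188387720)]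
noncomputable def e46_35 : List Rx := [
  Rx.mk (nat_lit 16) (nat_lit 0) (nat_lit 2) (nat_lit 0) (nat_lit 2) (nat_lit 98) (nat_lit 39) r4_98 r6_39 (nat_lit 0) (nat_lit 0) (nat_lit 0) (nat_lit 0x666c24b74a) (nat_lit 12554834760),
  Rx.mk (nat_lit 19) (nat_lit 3) (nat_lit 2) (nat_lit 0) (nat_lit 3) (nat_lit 104) (nat_lit 42) r4_104 r6_42 (nat_lit 0) (nat_lit 0) (nat_lit 0) (nat_lit 0x7d86242038) (nat_lit 1215358560),
  Rx.mk (nat_lit 144) (nat_lit 0) (nat_lit 2) (nat_lit 2) (nat_lit 6) (nat_lit 99) (nat_lit 41) r4_99 r6_41 (nat_lit 0) (nat_lit 0) (nat_lit 0) (nat_lit 0x7e8603014a) (nat_lit 724753224),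
  Rx.mk (nat_lit 147) (nat_lit 3) (nat_lit 2) (nat_lit 2) (nat_lit 7) (nat_lit 105) (nat_lit 44) r4_105 r6_44 (nat_lit 0) (nat_lit 0) (nat_lit 0) (nat_lit 0x7e6a93d858) (nat_lit 777355488),
  Rx.mk (nat_lit 176) (nat_lit 0) (nat_lit 6) (nat_lit 2) (nat_lit 6) (nat_lit 100) (nat_lit 40) r4_100 r6_40 (nat_lit 0) (nat_lit 0) (nat_lit 0) (nat_lit 0x7dd0537cf8) (nat_lit 1073116512),
  Rx.mk (nat_lit 178) (nat_lit 2) (nat_lit 6) (nat_lit 2) (nat_lit 7) (nat_lit 101) (nat_lit 47) r4_101 r6_47 (nat_lit 0) (nat_lit 0) (nat_lit 0) (nat_lit 0x7df1d384d6) (nat_lit 1008883512),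
  Rx.mk (nat_lit 211) (nat_lit 3) (nat_lit 2) (nat_lit 3) (nat_lit 7) (nat_lit 106) (nat_lit 43) r4_106 r6_43 (nat_lit 0) (nat_lit 0) (nat_lit 0) (nat_lit 0x7df79428c6) (nat_lit 997853688),
  Rx.mk (nat_lit 418) (nat_lit 2) (nat_lit 4) (nat_lit 6) (nat_lit 5) (nat_lit 102) (nat_lit 45) r4_102 r6_45 (nat_lit 0) (nat_lit 0) (nat_lit 0) (nat_lit 0x7e14d85466) (nat_lit 941738616),
  Rx.mk (nat_lit 434) (nat_lit 2) (nat_lit 6) (nat_lit 6) (nat_lit 7) (nat_lit 103) (nat_lit 46) r4_103 r6_46 (nat_lit 0) (nat_lit 0) (nat_lit 0) (nat_lit 0x7dd10471e8) (nat_lit 1071791136)]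
noncomputable def e46_36 : List Rx := [
  Rx.mk (nat_lit 17) (nat_lit 1) (nat_lit 2) (nat_lit 0) (nat_lit 3) (nat_lit 271) (nat_lit 158) r4_271 r2_158 (nat_lit 0) (nat_lit 0) (nat_lit 0) (nat_lit 0x7dd5e96394) (nat_lit 1062406800),
  Rx.mk (nat_lit 145) (nat_lit 1) (nat_lit 2) (nat_lit 2) (nat_lit 7) (nat_lit 272) (nat_lit 159) r4_272 r2_159 (nat_lit 0) (nat_lit 0) (nat_lit 0) (nat_lit 0x7de99d6840) (nat_lit 1024627968)]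
noncomputable def e46_37 : List Rx := [
  Rx.mk (nat_lit 17) (nat_lit 1) (nat_lit 2) (nat_lit 0) (nat_lit 3) (nat_lit 276) (nat_lit 133) r4_276 r8_133 (nat_lit 0) (nat_lit 0) (nat_lit 0) (nat_lit 0x7cdf86cab4) (nat_lit 1534824720),
  Rx.mk (nat_lit 145) (nat_lit 1) (nat_lit 2) (nat_lit 2) (nat_lit 7) (nat_lit 277) (nat_lit 134) r4_277 r8_134 (nat_lit 0) (nat_lit 0) (nat_lit 0) (nat_lit 0x7debb286ec) (nat_lit 1020634992),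
  Rx.mk (nat_lit 177) (nat_lit 1) (nat_lit 6) (nat_lit 2) (nat_lit 7) (nat_lit 278) (nat_lit 135) r4_278 r8_135 (nat_lit 0) (nat_lit 0) (nat_lit 0) (nat_lit 0x7deeb9d674) (nat_lit 1014828048)]
noncomputable def e46_38 : List Rx := [
  Rx.mk (nat_lit 17) (nat_lit 1) (nat_lit 2) (nat_lit 0) (nat_lit 3) (nat_lit 273) (nat_lit 167) r4_273 r8_167 (nat_lit 0) (nat_lit 0) (nat_lit 0) (nat_lit 0x7db654dcfc) (nat_lit 1122958512),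
  Rx.mk (nat_lit 81) (nat_lit 1) (nat_lit 2) (nat_lit 1) (nat_lit 7) (nat_lit 274) (nat_lit 168) r4_274 r8_168 (nat_lit 0) (nat_lit 0) (nat_lit 0) (nat_lit 0x7de3238fe4) (nat_lit 1037044944),
  Rx.mk (nat_lit 145) (nat_lit 1) (nat_lit 2) (nat_lit 2) (nat_lit 7) (nat_lit 275) (nat_lit 169) r4_275 r8_169 (nat_lit 0) (nat_lit 0) (nat_lit 0) (nat_lit 0x7ddff0631a) (nat_lit 1043180424)]
noncomputable def e46_39 : List Rx := [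
  Rx.mk (nat_lit 16) (nat_lit 0) (nat_lit 2) (nat_lit 0) (nat_lit 2) (nat_lit 107) (nat_lit 154) r4_107 r1_154 (nat_lit 0) (nat_lit 0) (nat_lit 0) (nat_lit 0x74634ad6f0) (nat_lit 5699858112),
  Rx.mk (nat_lit 17) (nat_lit 1) (nat_lit 2) (nat_lit 0) (nat_lit 3) (nat_lit 109) (nat_lit 155) r4_109 r1_155 (nat_lit 0) (nat_lit 0) (nat_lit 0) (nat_lit 0x7dc2547cf6) (nat_lit 1099952568),
  Rx.mk (nat_lit 19) (nat_lit 3) (nat_lit 2) (nat_lit 0) (nat_lit 3) (nat_lit 111) (nat_lit 156) r4_111 r1_156 (nat_lit 0) (nat_lit 0) (nat_lit 0) (nat_lit 0x7e11d58496) (nat_lit 947511864),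
  Rx.mk (nat_lit 144) (nat_lit 0) (nat_lit 2) (nat_lit 2) (nat_lit 6) (nat_lit 108) (nat_lit 158) r4_108 r1_158 (nat_lit 0) (nat_lit 0) (nat_lit 0) (nat_lit 0x727dbfd186) (nat_lit 6630836472),
  Rx.mk (nat_lit 145) (nat_lit 1) (nat_lit 2) (nat_lit 2) (nat_lit 7) (nat_lit 110) (nat_lit 159) r4_110 r1_159 (nat_lit 0) (nat_lit 0) (nat_lit 0) (nat_lit 0x7dbbbc4680) (nat_lit 1112596992),
  Rx.mk (nat_lit 147) (nat_lit 3) (nat_lit 2) (nat_lit 2) (nat_lit 7) (nat_lit 112) (nat_lit 160) r4_112 r1_160 (nat_lit 0) (nat_lit 0) (nat_lit 0) (nat_lit 0x7dbe303f3e) (nat_lit 1107893592),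
  Rx.mk (nat_lit 211) (nat_lit 3) (nat_lit 2) (nat_lit 3) (nat_lit 7) (nat_lit 113) (nat_lit 157) r4_113 r1_157 (nat_lit 0) (nat_lit 0) (nat_lit 0) (nat_lit 0x7df3f3e2ce) (nat_lit 1004806296)]
noncomputable def e46_40 : List Rx := [
  Rx.mk (nat_lit 16) (nat_lit 0) (nat_lit 2) (nat_lit 0) (nat_lit 2) (nat_lit 114) (nat_lit 47) r4_114 r7_47 (nat_lit 0) (nat_lit 0) (nat_lit 0) (nat_lit 0x754e23e874) (nat_lit 5249561616),
  Rx.mk (nat_lit 17) (nat_lit 1) (nat_lit 2) (nat_lit 0) (nat_lit 3) (nat_lit 117) (nat_lit 50) r4_117 r7_50 (nat_lit 0) (nat_lit 0) (nat_lit 0) (nat_lit 0x7dd0edf350) (nat_lit 1071959616),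
  Rx.mk (nat_lit 19) (nat_lit 3) (nat_lit 2) (nat_lit 0) (nat_lit 3) (nat_lit 122) (nat_lit 53) r4_122 r7_53 (nat_lit 0) (nat_lit 0) (nat_lit 0) (nat_lit 0x7dcf55acd6) (nat_lit 1075017528),
  Rx.mk (nat_lit 144) (nat_lit 0) (nat_lit 2) (nat_lit 2) (nat_lit 6) (nat_lit 115) (nat_lit 49) r4_115 r7_49 (nat_lit 0) (nat_lit 0) (nat_lit 0) (nat_lit 0x7e2a789a4c) (nat_lit 900272880),
  Rx.mk (nat_lit 145) (nat_lit 1) (nat_lit 2) (nat_lit 2) (nat_lit 7) (nat_lit 118) (nat_lit 52) r4_118 r7_52 (nat_lit 0) (nat_lit 0) (nat_lit 0) (nat_lit 0x7e35a4078a) (nat_lit 878856264),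
  Rx.mk (nat_lit 147) (nat_lit 3) (nat_lit 2) (nat_lit 2) (nat_lit 7) (nat_lit 123) (nat_lit 55) r4_123 r7_55 (nat_lit 0) (nat_lit 0) (nat_lit 0) (nat_lit 0x7e28211fc6) (nat_lit 904762872),
  Rx.mk (nat_lit 176) (nat_lit 0) (nat_lit 6) (nat_lit 2) (nat_lit 6) (nat_lit 116) (nat_lit 48) r4_116 r7_48 (nat_lit 0) (nat_lit 0) (nat_lit 0) (nat_lit 0x7da8e3f418) (nat_lit 1148730336),
  Rx.mk (nat_lit 177) (nat_lit 1) (nat_lit 6) (nat_lit 2) (nat_lit 7) (nat_lit 119) (nat_lit 51) r4_119 r7_51 (nat_lit 0) (nat_lit 0) (nat_lit 0) (nat_lit 0x7ddfec435c) (nat_lit 1043211312),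
  Rx.mk (nat_lit 178) (nat_lit 2) (nat_lit 6) (nat_lit 2) (nat_lit 7) (nat_lit 120) (nat_lit 57) r4_120 r7_57 (nat_lit 0) (nat_lit 0) (nat_lit 0) (nat_lit 0x7de493b8e0) (nat_lit 1034287488),
  Rx.mk (nat_lit 211) (nat_lit 3) (nat_lit 2) (nat_lit 3) (nat_lit 7) (nat_lit 124) (nat_lit 54) r4_124 r7_54 (nat_lit 0) (nat_lit 0) (nat_lit 0) (nat_lit 0x7dd9115112) (nat_lit 1056355560),
  Rx.mk (nat_lit 434) (nat_lit 2) (nat_lit 6) (nat_lit 6) (nat_lit 7) (nat_lit 121) (nat_lit 56) r4_121 r7_56 (nat_lit 0) (nat_lit 0) (nat_lit 0) (nat_lit 0x7df910b0fc) (nat_lit 995003568)]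
noncomputable def e46_41 : List Rx := [
  Rx.mk (nat_lit 178) (nat_lit 2) (nat_lit 6) (nat_lit 2) (nat_lit 7) (nat_lit 13) (nat_lit 57) r4_13 r1_57 (nat_lit 0) (nat_lit 0) (nat_lit 0) (nat_lit 0x7df4fbd24e) (nat_lit 1002829464),
  Rx.mk (nat_lit 294) (nat_lit 6) (nat_lit 4) (nat_lit 4) (nat_lit 1) (nat_lit 16) (nat_lit 50) r4_16 r1_50 (nat_lit 0) (nat_lit 0) (nat_lit 0) (nat_lit 0x6d02538dc6) (nat_lit 9321754104),
  Rx.mk (nat_lit 318) (nat_lit 6) (nat_lit 7) (nat_lit 4) (nat_lit 3) (nat_lit 17) (nat_lit 51) r4_17 r1_51 (nat_lit 0) (nat_lit 0) (nat_lit 0) (nat_lit 0x7e22f55288) (nat_lit 914677920),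
  Rx.mk (nat_lit 418) (nat_lit 2) (nat_lit 4) (nat_lit 6) (nat_lit 5) (nat_lit 14) (nat_lit 55) r4_14 r1_55 (nat_lit 0) (nat_lit 0) (nat_lit 0) (nat_lit 0x7cf02600b0) (nat_lit 1502953920),
  Rx.mk (nat_lit 422) (nat_lit 6) (nat_lit 4) (nat_lit 6) (nat_lit 5) (nat_lit 18) (nat_lit 53) r4_18 r1_53 (nat_lit 0) (nat_lit 0) (nat_lit 0) (nat_lit 0x7dd783e9ea) (nat_lit 1059332040),
  Rx.mk (nat_lit 434) (nat_lit 2) (nat_lit 6) (nat_lit 6) (nat_lit 7) (nat_lit 15) (nat_lit 56) r4_15 r1_56 (nat_lit 0) (nat_lit 0) (nat_lit 0) (nat_lit 0x7e11b186d6) (nat_lit 947781432),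
  Rx.mk (nat_lit 446) (nat_lit 6) (nat_lit 7) (nat_lit 6) (nat_lit 7) (nat_lit 19) (nat_lit 54) r4_19 r1_54 (nat_lit 0) (nat_lit 0) (nat_lit 0) (nat_lit 0x7e01526cd8) (nat_lit 979172064),
  Rx.mk (nat_lit 510) (nat_lit 6) (nat_lit 7) (nat_lit 7) (nat_lit 7) (nat_lit 20) (nat_lit 52) r4_20 r1_52 (nat_lit 0) (nat_lit 0) (nat_lit 0) (nat_lit 0x7eccb0762c) (nat_lit 589236336)]
noncomputable def e46_42 : List Rx := [
  Rx.mk (nat_lit 294) (nat_lit 6) (nat_lit 4) (nat_lit 4) (nat_lit 1) (nat_lit 24) (nat_lit 47) r4_24 r2_47 (nat_lit 0) (nat_lit 0) (nat_lit 0) (nat_lit 0x6f9c53eb26) (nat_lit 8044765560),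
  Rx.mk (nat_lit 302) (nat_lit 6) (nat_lit 5) (nat_lit 4) (nat_lit 3) (nat_lit 25) (nat_lit 48) r4_25 r2_48 (nat_lit 0) (nat_lit 0) (nat_lit 0) (nat_lit 0x7e46493d26) (nat_lit 846940536),
  Rx.mk (nat_lit 418) (nat_lit 2) (nat_lit 4) (nat_lit 6) (nat_lit 5) (nat_lit 21) (nat_lit 54) r4_21 r2_54 (nat_lit 0) (nat_lit 0) (nat_lit 0) (nat_lit 0x7e2db3a698) (nat_lit 894078432),
  Rx.mk (nat_lit 422) (nat_lit 6) (nat_lit 4) (nat_lit 6) (nat_lit 5) (nat_lit 26) (nat_lit 52) r4_26 r2_52 (nat_lit 0) (nat_lit 0) (nat_lit 0) (nat_lit 0x7e3762eb9a) (nat_lit 875509128),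
  Rx.mk (nat_lit 426) (nat_lit 2) (nat_lit 5) (nat_lit 6) (nat_lit 7) (nat_lit 22) (nat_lit 55) r4_22 r2_55 (nat_lit 0) (nat_lit 0) (nat_lit 0) (nat_lit 0x7dee60fc02) (nat_lit 1015493544),
  Rx.mk (nat_lit 430) (nat_lit 6) (nat_lit 5) (nat_lit 6) (nat_lit 7) (nat_lit 27) (nat_lit 53) r4_27 r2_53 (nat_lit 0) (nat_lit 0) (nat_lit 0) (nat_lit 0x7dd9a4a7dc) (nat_lit 1055252016),
  Rx.mk (nat_lit 434) (nat_lit 2) (nat_lit 6) (nat_lit 6) (nat_lit 7) (nat_lit 23) (nat_lit 56) r4_23 r2_56 (nat_lit 0) (nat_lit 0) (nat_lit 0) (nat_lit 0x7de8bc7650) (nat_lit 1026312768),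
  Rx.mk (nat_lit 486) (nat_lit 6) (nat_lit 4) (nat_lit 7) (nat_lit 5) (nat_lit 28) (nat_lit 49) r4_28 r2_49 (nat_lit 0) (nat_lit 0) (nat_lit 0) (nat_lit 0x7ea641bd3e) (nat_lit 662926680),
  Rx.mk (nat_lit 494) (nat_lit 6) (nat_lit 5) (nat_lit 7) (nat_lit 7) (nat_lit 29) (nat_lit 50) r4_29 r2_50 (nat_lit 0) (nat_lit 0) (nat_lit 0) (nat_lit 0x7e85ff4186) (nat_lit 724781304),
  Rx.mk (nat_lit 510) (nat_lit 6) (nat_lit 7) (nat_lit 7) (nat_lit 7) (nat_lit 30) (nat_lit 51) r4_30 r2_51 (nat_lit 0) (nat_lit 0) (nat_lit 0) (nat_lit 0x7e66fbd1dc) (nat_lit 784246320)]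
noncomputable def e46_43 : List Rx := [
  Rx.mk (nat_lit 178) (nat_lit 2) (nat_lit 6) (nat_lit 2) (nat_lit 7) (nat_lit 125) (nat_lit 147) r4_125 r7_147 (nat_lit 0) (nat_lit 0) (nat_lit 0) (nat_lit 0x7dca705b30) (nat_lit 1084404672),
  Rx.mk (nat_lit 418) (nat_lit 2) (nat_lit 4) (nat_lit 6) (nat_lit 5) (nat_lit 126) (nat_lit 146) r4_126 r7_146 (nat_lit 0) (nat_lit 0) (nat_lit 0) (nat_lit 0x7dc32eaf52) (nat_lit 1098318312),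
  Rx.mk (nat_lit 434) (nat_lit 2) (nat_lit 6) (nat_lit 6) (nat_lit 7) (nat_lit 127) (nat_lit 148) r4_127 r7_148 (nat_lit 0) (nat_lit 0) (nat_lit 0) (nat_lit 0x7dedaca748) (nat_lit 1016844192)]
noncomputable def e46_44 : List Rx := [
  Rx.mk (nat_lit 418) (nat_lit 2) (nat_lit 4) (nat_lit 6) (nat_lit 5) (nat_lit 128) (nat_lit 15) r4_128 r8_15 (nat_lit 0) (nat_lit 0) (nat_lit 0) (nat_lit 0x7de2b8b692) (nat_lit 1037845224),
  Rx.mk (nat_lit 426) (nat_lit 2) (nat_lit 5) (nat_lit 6) (nat_lit 7) (nat_lit 129) (nat_lit 16) r4_129 r8_16 (nat_lit 0) (nat_lit 0) (nat_lit 0) (nat_lit 0x7df79428c6) (nat_lit 997853688),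
  Rx.mk (nat_lit 434) (nat_lit 2) (nat_lit 6) (nat_lit 6) (nat_lit 7) (nat_lit 130) (nat_lit 17) r4_130 r8_17 (nat_lit 0) (nat_lit 0) (nat_lit 0) (nat_lit 0x7dd77c6a62) (nat_lit 1059388200)]
noncomputable def e46_45 : List Rx := [
  Rx.mk (nat_lit 294) (nat_lit 6) (nat_lit 4) (nat_lit 4) (nat_lit 1) (nat_lit 147) (nat_lit 50) r4_147 r8_50 (nat_lit 0) (nat_lit 0) (nat_lit 0) (nat_lit 0x6c5214126e) (nat_lit 9659691288),
  Rx.mk (nat_lit 302) (nat_lit 6) (nat_lit 5) (nat_lit 4) (nat_lit 3) (nat_lit 148) (nat_lit 51) r4_148 r8_51 (nat_lit 0) (nat_lit 0) (nat_lit 0) (nat_lit 0x7dc4b916aa) (nat_lit 1095364296),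
  Rx.mk (nat_lit 366) (nat_lit 6) (nat_lit 5) (nat_lit 5) (nat_lit 7) (nat_lit 149) (nat_lit 52) r4_149 r8_52 (nat_lit 0) (nat_lit 0) (nat_lit 0) (nat_lit 0x7df5dd2438) (nat_lit 1001141856),
  Rx.mk (nat_lit 418) (nat_lit 2) (nat_lit 4) (nat_lit 6) (nat_lit 5) (nat_lit 144) (nat_lit 56) r4_144 r8_56 (nat_lit 0) (nat_lit 0) (nat_lit 0) (nat_lit 0x7db61d007a) (nat_lit 1123376904),
  Rx.mk (nat_lit 422) (nat_lit 6) (nat_lit 4) (nat_lit 6) (nat_lit 5) (nat_lit 150) (nat_lit 59) r4_150 r8_59 (nat_lit 0) (nat_lit 0) (nat_lit 0) (nat_lit 0x7dc71c9070) (nat_lit 1090784448),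
  Rx.mk (nat_lit 426) (nat_lit 2) (nat_lit 5) (nat_lit 6) (nat_lit 7) (nat_lit 145) (nat_lit 57) r4_145 r8_57 (nat_lit 0) (nat_lit 0) (nat_lit 0) (nat_lit 0x7dde50fd12) (nat_lit 1046291688),
  Rx.mk (nat_lit 430) (nat_lit 6) (nat_lit 5) (nat_lit 6) (nat_lit 7) (nat_lit 151) (nat_lit 60) r4_151 r8_60 (nat_lit 0) (nat_lit 0) (nat_lit 0) (nat_lit 0x7df5b98672) (nat_lit 1001408616),
  Rx.mk (nat_lit 434) (nat_lit 2) (nat_lit 6) (nat_lit 6) (nat_lit 7) (nat_lit 146) (nat_lit 58) r4_146 r8_58 (nat_lit 0) (nat_lit 0) (nat_lit 0) (nat_lit 0x7de458dc8e) (nat_lit 1034728344),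
  Rx.mk (nat_lit 486) (nat_lit 6) (nat_lit 4) (nat_lit 7) (nat_lit 5) (nat_lit 152) (nat_lit 53) r4_152 r8_53 (nat_lit 0) (nat_lit 0) (nat_lit 0) (nat_lit 0x7ddbcbc568) (nat_lit 1051124256),
  Rx.mk (nat_lit 494) (nat_lit 6) (nat_lit 5) (nat_lit 7) (nat_lit 7) (nat_lit 153) (nat_lit 54) r4_153 r8_54 (nat_lit 0) (nat_lit 0) (nat_lit 0) (nat_lit 0x7de39ca852) (nat_lit 1036137960),
  Rx.mk (nat_lit 510) (nat_lit 6) (nat_lit 7) (nat_lit 7) (nat_lit 7) (nat_lit 154) (nat_lit 55) r4_154 r8_55 (nat_lit 0) (nat_lit 0) (nat_lit 0) (nat_lit 0x7df7378e90) (nat_lit 998547264)]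
noncomputable def e46_46 : List Rx := [
  Rx.mk (nat_lit 19) (nat_lit 3) (nat_lit 2) (nat_lit 0) (nat_lit 3) (nat_lit 45) (nat_lit 50) r4_45 r4_50 (nat_lit 0) (nat_lit 0) (nat_lit 0) (nat_lit 0x7fd96aa97c) (nat_lit 73979568),
  Rx.mk (nat_lit 147) (nat_lit 3) (nat_lit 2) (nat_lit 2) (nat_lit 7) (nat_lit 46) (nat_lit 53) r4_46 r4_53 (nat_lit 0) (nat_lit 0) (nat_lit 0) (nat_lit 0x79bce0783c) (nat_lit 3073822128),
  Rx.mk (nat_lit 176) (nat_lit 0) (nat_lit 6) (nat_lit 2) (nat_lit 6) (nat_lit 40) (nat_lit 49) r4_40 r4_49 (nat_lit 0) (nat_lit 0) (nat_lit 0) (nat_lit 0x7fbd70c936) (nat_lit 127620792),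
  Rx.mk (nat_lit 178) (nat_lit 2) (nat_lit 6) (nat_lit 2) (nat_lit 7) (nat_lit 41) (nat_lit 57) r4_41 r4_57 (nat_lit 0) (nat_lit 0) (nat_lit 0) (nat_lit 0x7d5376cb40) (nat_lit 1312526592),
  Rx.mk (nat_lit 179) (nat_lit 3) (nat_lit 6) (nat_lit 2) (nat_lit 7) (nat_lit 47) (nat_lit 52) r4_47 r4_52 (nat_lit 0) (nat_lit 0) (nat_lit 0) (nat_lit 0x7de9700b16) (nat_lit 1024967736),
  Rx.mk (nat_lit 199) (nat_lit 7) (nat_lit 0) (nat_lit 3) (nat_lit 5) (nat_lit 54) (nat_lit 42) r4_54 r4_42 (nat_lit 0) (nat_lit 0) (nat_lit 0) (nat_lit 0x729835aa0e) (nat_lit 6580101528),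
  Rx.mk (nat_lit 211) (nat_lit 3) (nat_lit 2) (nat_lit 3) (nat_lit 7) (nat_lit 48) (nat_lit 51) r4_48 r4_51 (nat_lit 0) (nat_lit 0) (nat_lit 0) (nat_lit 0x7ea89e1776) (nat_lit 658400184),
  Rx.mk (nat_lit 215) (nat_lit 7) (nat_lit 2) (nat_lit 3) (nat_lit 7) (nat_lit 55) (nat_lit 44) r4_55 r4_44 (nat_lit 0) (nat_lit 0) (nat_lit 0) (nat_lit 0x7df36e0b2c) (nat_lit 1005808752),
  Rx.mk (nat_lit 223) (nat_lit 7) (nat_lit 3) (nat_lit 3) (nat_lit 7) (nat_lit 56) (nat_lit 43) r4_56 r4_43 (nat_lit 0) (nat_lit 0) (nat_lit 0) (nat_lit 0x7d1ac316b4) (nat_lit 1421246736),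
  Rx.mk (nat_lit 318) (nat_lit 6) (nat_lit 7) (nat_lit 4) (nat_lit 3) (nat_lit 50) (nat_lit 45) r4_50 r4_45 (nat_lit 0) (nat_lit 0) (nat_lit 0) (nat_lit 0x7fd96aa97c) (nat_lit 73979568),
  Rx.mk (nat_lit 418) (nat_lit 2) (nat_lit 4) (nat_lit 6) (nat_lit 5) (nat_lit 42) (nat_lit 54) r4_42 r4_54 (nat_lit 0) (nat_lit 0) (nat_lit 0) (nat_lit 0x729835aa0e) (nat_lit 6580101528),
  Rx.mk (nat_lit 434) (nat_lit 2) (nat_lit 6) (nat_lit 6) (nat_lit 7) (nat_lit 43) (nat_lit 56) r4_43 r4_56 (nat_lit 0) (nat_lit 0) (nat_lit 0) (nat_lit 0x7d1ac316b4) (nat_lit 1421246736),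
  Rx.mk (nat_lit 442) (nat_lit 2) (nat_lit 7) (nat_lit 6) (nat_lit 7) (nat_lit 44) (nat_lit 55) r4_44 r4_55 (nat_lit 0) (nat_lit 0) (nat_lit 0) (nat_lit 0x7df36e0b2c) (nat_lit 1005808752),
  Rx.mk (nat_lit 446) (nat_lit 6) (nat_lit 7) (nat_lit 6) (nat_lit 7) (nat_lit 51) (nat_lit 48) r4_51 r4_48 (nat_lit 0) (nat_lit 0) (nat_lit 0) (nat_lit 0x7ea89e1776) (nat_lit 658400184),
  Rx.mk (nat_lit 476) (nat_lit 4) (nat_lit 3) (nat_lit 7) (nat_lit 6) (nat_lit 49) (nat_lit 40) r4_49 r4_40 (nat_lit 0) (nat_lit 0) (nat_lit 0) (nat_lit 0x7fbd70c936) (nat_lit 127620792),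
  Rx.mk (nat_lit 478) (nat_lit 6) (nat_lit 3) (nat_lit 7) (nat_lit 7) (nat_lit 52) (nat_lit 47) r4_52 r4_47 (nat_lit 0) (nat_lit 0) (nat_lit 0) (nat_lit 0x7de9700b16) (nat_lit 1024967736),
  Rx.mk (nat_lit 479) (nat_lit 7) (nat_lit 3) (nat_lit 7) (nat_lit 7) (nat_lit 57) (nat_lit 41) r4_57 r4_41 (nat_lit 0) (nat_lit 0) (nat_lit 0) (nat_lit 0x7d5376cb40) (nat_lit 1312526592),
  Rx.mk (nat_lit 510) (nat_lit 6) (nat_lit 7) (nat_lit 7) (nat_lit 7) (nat_lit 53) (nat_lit 46) r4_53 r4_46 (nat_lit 0) (nat_lit 0) (nat_lit 0) (nat_lit 0x79bce0783c) (nat_lit 3073822128)]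
noncomputable def e46_47 : List Rx := [
  Rx.mk (nat_lit 19) (nat_lit 3) (nat_lit 2) (nat_lit 0) (nat_lit 3) (nat_lit 131) (nat_lit 131) r4_131 r4_131 (nat_lit 0) (nat_lit 0) (nat_lit 0) (nat_lit 0x7e4c631b82) (nat_lit 835242408),
  Rx.mk (nat_lit 147) (nat_lit 3) (nat_lit 2) (nat_lit 2) (nat_lit 7) (nat_lit 132) (nat_lit 133) r4_132 r4_133 (nat_lit 0) (nat_lit 0) (nat_lit 0) (nat_lit 0x7e1048dd62) (nat_lit 950482728),
  Rx.mk (nat_lit 211) (nat_lit 3) (nat_lit 2) (nat_lit 3) (nat_lit 7) (nat_lit 133) (nat_lit 132) r4_133 r4_132 (nat_lit 0) (nat_lit 0) (nat_lit 0) (nat_lit 0x7e1048dd62) (nat_lit 950482728)]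
noncomputable def e46_48 : List Rx := [
  Rx.mk (nat_lit 19) (nat_lit 3) (nat_lit 2) (nat_lit 0) (nat_lit 3) (nat_lit 139) (nat_lit 24) r4_139 r9_24 (nat_lit 0) (nat_lit 0) (nat_lit 0) (nat_lit 0x7afc995b6e) (nat_lit 2460787992),
  Rx.mk (nat_lit 147) (nat_lit 3) (nat_lit 2) (nat_lit 2) (nat_lit 7) (nat_lit 140) (nat_lit 27) r4_140 r9_27 (nat_lit 0) (nat_lit 0) (nat_lit 0) (nat_lit 0x7e4a4f1cc4) (nat_lit 839226960),
  Rx.mk (nat_lit 176) (nat_lit 0) (nat_lit 6) (nat_lit 2) (nat_lit 6) (nat_lit 134) (nat_lit 23) r4_134 r9_23 (nat_lit 0) (nat_lit 0) (nat_lit 0) (nat_lit 0x7d77e26462) (nat_lit 1242694440),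
  Rx.mk (nat_lit 178) (nat_lit 2) (nat_lit 6) (nat_lit 2) (nat_lit 7) (nat_lit 135) (nat_lit 31) r4_135 r9_31 (nat_lit 0) (nat_lit 0) (nat_lit 0) (nat_lit 0x7df0f592b6) (nat_lit 1010545848),
  Rx.mk (nat_lit 179) (nat_lit 3) (nat_lit 6) (nat_lit 2) (nat_lit 7) (nat_lit 141) (nat_lit 26) r4_141 r9_26 (nat_lit 0) (nat_lit 0) (nat_lit 0) (nat_lit 0x7dede0640c) (nat_lit 1016456688),
  Rx.mk (nat_lit 211) (nat_lit 3) (nat_lit 2) (nat_lit 3) (nat_lit 7) (nat_lit 142) (nat_lit 25) r4_142 r9_25 (nat_lit 0) (nat_lit 0) (nat_lit 0) (nat_lit 0x7db07b1a9e) (nat_lit 1134176472),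
  Rx.mk (nat_lit 418) (nat_lit 2) (nat_lit 4) (nat_lit 6) (nat_lit 5) (nat_lit 136) (nat_lit 28) r4_136 r9_28 (nat_lit 0) (nat_lit 0) (nat_lit 0) (nat_lit 0x7e412fcec2) (nat_lit 856717992),
  Rx.mk (nat_lit 434) (nat_lit 2) (nat_lit 6) (nat_lit 6) (nat_lit 7) (nat_lit 137) (nat_lit 30) r4_137 r9_30 (nat_lit 0) (nat_lit 0) (nat_lit 0) (nat_lit 0x7dee99387e) (nat_lit 1015072344),
  Rx.mk (nat_lit 442) (nat_lit 2) (nat_lit 7) (nat_lit 6) (nat_lit 7) (nat_lit 138) (nat_lit 29) r4_138 r9_29 (nat_lit 0) (nat_lit 0) (nat_lit 0) (nat_lit 0x7dd37c8a64) (nat_lit 1067056848)]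
noncomputable def e46_49 : List Rx := [
  Rx.mk (nat_lit 211) (nat_lit 3) (nat_lit 2) (nat_lit 3) (nat_lit 7) (nat_lit 143) (nat_lit 8) r4_143 r10_8 (nat_lit 0) (nat_lit 0) (nat_lit 0) (nat_lit 0x7dd7d8a49e) (nat_lit 1058697432)]
noncomputable def e46_50 : List Rx := [
  Rx.mk (nat_lit 7) (nat_lit 7) (nat_lit 0) (nat_lit 0) (nat_lit 1) (nat_lit 212) (nat_lit 125) r4_212 r10_125 (nat_lit 0) (nat_lit 0) (nat_lit 0) (nat_lit 0x704a4c6af0) (nat_lit 7711194816),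
  Rx.mk (nat_lit 19) (nat_lit 3) (nat_lit 2) (nat_lit 0) (nat_lit 3) (nat_lit 205) (nat_lit 131) r4_205 r10_131 (nat_lit 0) (nat_lit 0) (nat_lit 0) (nat_lit 0x7227e22fb6) (nat_lit 6795475128),
  Rx.mk (nat_lit 23) (nat_lit 7) (nat_lit 2) (nat_lit 0) (nat_lit 3) (nat_lit 213) (nat_lit 132) r4_213 r10_132 (nat_lit 0) (nat_lit 0) (nat_lit 0) (nat_lit 0x77d5fc8862) (nat_lit 4007383848),
  Rx.mk (nat_lit 147) (nat_lit 3) (nat_lit 2) (nat_lit 2) (nat_lit 7) (nat_lit 206) (nat_lit 134) r4_206 r10_134 (nat_lit 0) (nat_lit 0) (nat_lit 0) (nat_lit 0x7dc3644bf8) (nat_lit 1097916768),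
  Rx.mk (nat_lit 179) (nat_lit 3) (nat_lit 6) (nat_lit 2) (nat_lit 7) (nat_lit 207) (nat_lit 136) r4_207 r10_136 (nat_lit 0) (nat_lit 0) (nat_lit 0) (nat_lit 0x7e23aee6ee) (nat_lit 913287960),
  Rx.mk (nat_lit 199) (nat_lit 7) (nat_lit 0) (nat_lit 3) (nat_lit 5) (nat_lit 214) (nat_lit 126) r4_214 r10_126 (nat_lit 0) (nat_lit 0) (nat_lit 0) (nat_lit 0x7bb067ddd2) (nat_lit 2116027368),
  Rx.mk (nat_lit 215) (nat_lit 7) (nat_lit 2) (nat_lit 3) (nat_lit 7) (nat_lit 215) (nat_lit 133) r4_215 r10_133 (nat_lit 0) (nat_lit 0) (nat_lit 0) (nat_lit 0x7e0de80372) (nat_lit 955042920),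
  Rx.mk (nat_lit 220) (nat_lit 4) (nat_lit 3) (nat_lit 3) (nat_lit 6) (nat_lit 208) (nat_lit 127) r4_208 r10_127 (nat_lit 0) (nat_lit 0) (nat_lit 0) (nat_lit 0x72c34b188c) (nat_lit 6497492976),
  Rx.mk (nat_lit 223) (nat_lit 7) (nat_lit 3) (nat_lit 3) (nat_lit 7) (nat_lit 216) (nat_lit 128) r4_216 r10_128 (nat_lit 0) (nat_lit 0) (nat_lit 0) (nat_lit 0x7d9fcc8598) (nat_lit 1166162400),
  Rx.mk (nat_lit 476) (nat_lit 4) (nat_lit 3) (nat_lit 7) (nat_lit 6) (nat_lit 209) (nat_lit 129) r4_209 r10_129 (nat_lit 0) (nat_lit 0) (nat_lit 0) (nat_lit 0x757b9df0a6) (nat_lit 5162364792),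
  Rx.mk (nat_lit 478) (nat_lit 6) (nat_lit 3) (nat_lit 7) (nat_lit 7) (nat_lit 210) (nat_lit 130) r4_210 r10_130 (nat_lit 0) (nat_lit 0) (nat_lit 0) (nat_lit 0x7e50fdd1d2) (nat_lit 826414056),
  Rx.mk (nat_lit 510) (nat_lit 6) (nat_lit 7) (nat_lit 7) (nat_lit 7) (nat_lit 211) (nat_lit 135) r4_211 r10_135 (nat_lit 0) (nat_lit 0) (nat_lit 0) (nat_lit 0x7df1c665a8) (nat_lit 1008981792)]
noncomputable def e46_51 : List Rx := [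
  Rx.mk (nat_lit 196) (nat_lit 4) (nat_lit 0) (nat_lit 3) (nat_lit 4) (nat_lit 343) (nat_lit 296) r4_343 r12_296 (nat_lit 0) (nat_lit 0) (nat_lit 0) (nat_lit 0x752fda0d30) (nat_lit 5307636672),
  Rx.mk (nat_lit 197) (nat_lit 5) (nat_lit 0) (nat_lit 3) (nat_lit 5) (nat_lit 346) (nat_lit 299) r4_346 r12_299 (nat_lit 0) (nat_lit 0) (nat_lit 0) (nat_lit 0x79f1f206ee) (nat_lit 2972068632),
  Rx.mk (nat_lit 204) (nat_lit 4) (nat_lit 1) (nat_lit 3) (nat_lit 6) (nat_lit 344) (nat_lit 297) r4_344 r12_297 (nat_lit 0) (nat_lit 0) (nat_lit 0) (nat_lit 0x7defaae762) (nat_lit 1013022504),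
  Rx.mk (nat_lit 205) (nat_lit 5) (nat_lit 1) (nat_lit 3) (nat_lit 7) (nat_lit 347) (nat_lit 300) r4_347 r12_300 (nat_lit 0) (nat_lit 0) (nat_lit 0) (nat_lit 0x7e5fb6663a) (nat_lit 798188040),
  Rx.mk (nat_lit 212) (nat_lit 4) (nat_lit 2) (nat_lit 3) (nat_lit 6) (nat_lit 345) (nat_lit 298) r4_345 r12_298 (nat_lit 0) (nat_lit 0) (nat_lit 0) (nat_lit 0x7ddf492d8e) (nat_lit 1044432792),
  Rx.mk (nat_lit 213) (nat_lit 5) (nat_lit 2) (nat_lit 3) (nat_lit 7) (nat_lit 348) (nat_lit 301) r4_348 r12_301 (nat_lit 0) (nat_lit 0) (nat_lit 0) (nat_lit 0x7e24ff91e2) (nat_lit 910766376)]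
noncomputable def e46_52 : List Rx := [
  Rx.mk (nat_lit 460) (nat_lit 4) (nat_lit 1) (nat_lit 7) (nat_lit 6) (nat_lit 224) (nat_lit 304) r4_224 r12_304 (nat_lit 0) (nat_lit 0) (nat_lit 0) (nat_lit 0x7b83692dea) (nat_lit 2202300360),
  Rx.mk (nat_lit 462) (nat_lit 6) (nat_lit 1) (nat_lit 7) (nat_lit 7) (nat_lit 225) (nat_lit 305) r4_225 r12_305 (nat_lit 0) (nat_lit 0) (nat_lit 0) (nat_lit 0x7b9dce877a) (nat_lit 2151688968)]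
noncomputable def e46_53 : List Rx := [
  Rx.mk (nat_lit 4) (nat_lit 4) (nat_lit 0) (nat_lit 0) (nat_lit 0) (nat_lit 366) (nat_lit 169) r4_366 r12_169 (nat_lit 0) (nat_lit 0) (nat_lit 0) (nat_lit 0x656168c414) (nat_lit 13066269840),
  Rx.mk (nat_lit 5) (nat_lit 5) (nat_lit 0) (nat_lit 0) (nat_lit 1) (nat_lit 373) (nat_lit 170) r4_373 r12_170 (nat_lit 0) (nat_lit 0) (nat_lit 0) (nat_lit 0x7171c2f260) (nat_lit 7144675200),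
  Rx.mk (nat_lit 7) (nat_lit 7) (nat_lit 0) (nat_lit 0) (nat_lit 1) (nat_lit 378) (nat_lit 171) r4_378 r12_171 (nat_lit 0) (nat_lit 0) (nat_lit 0) (nat_lit 0x6e2f0d2100) (nat_lit 8745145344),
  Rx.mk (nat_lit 12) (nat_lit 4) (nat_lit 1) (nat_lit 0) (nat_lit 2) (nat_lit 367) (nat_lit 172) r4_367 r12_172 (nat_lit 0) (nat_lit 0) (nat_lit 0) (nat_lit 0x70f7fe6f22) (nat_lit 7378151976),
  Rx.mk (nat_lit 15) (nat_lit 7) (nat_lit 1) (nat_lit 0) (nat_lit 3) (nat_lit 379) (nat_lit 173) r4_379 r12_173 (nat_lit 0) (nat_lit 0) (nat_lit 0) (nat_lit 0x7dad2f8f5a) (nat_lit 1140494472),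
  Rx.mk (nat_lit 20) (nat_lit 4) (nat_lit 2) (nat_lit 0) (nat_lit 2) (nat_lit 368) (nat_lit 174) r4_368 r12_174 (nat_lit 0) (nat_lit 0) (nat_lit 0) (nat_lit 0x754ac05eb0) (nat_lit 5256059328),
  Rx.mk (nat_lit 21) (nat_lit 5) (nat_lit 2) (nat_lit 0) (nat_lit 3) (nat_lit 374) (nat_lit 175) r4_374 r12_175 (nat_lit 0) (nat_lit 0) (nat_lit 0) (nat_lit 0x7d15e364b4) (nat_lit 1430591760),
  Rx.mk (nat_lit 23) (nat_lit 7) (nat_lit 2) (nat_lit 0) (nat_lit 3) (nat_lit 380) (nat_lit 176) r4_380 r12_176 (nat_lit 0) (nat_lit 0) (nat_lit 0) (nat_lit 0x7e2ee053cc) (nat_lit 891826416),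
  Rx.mk (nat_lit 196) (nat_lit 4) (nat_lit 0) (nat_lit 3) (nat_lit 4) (nat_lit 369) (nat_lit 177) r4_369 r12_177 (nat_lit 0) (nat_lit 0) (nat_lit 0) (nat_lit 0x6fa2424c3a) (nat_lit 8033393160),
  Rx.mk (nat_lit 197) (nat_lit 5) (nat_lit 0) (nat_lit 3) (nat_lit 5) (nat_lit 375) (nat_lit 178) r4_375 r12_178 (nat_lit 0) (nat_lit 0) (nat_lit 0) (nat_lit 0x7dd9dfe428) (nat_lit 1054808352),
  Rx.mk (nat_lit 204) (nat_lit 4) (nat_lit 1) (nat_lit 3) (nat_lit 6) (nat_lit 370) (nat_lit 179) r4_370 r12_179 (nat_lit 0) (nat_lit 0) (nat_lit 0) (nat_lit 0x7e34af96d2) (nat_lit 880687080),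
  Rx.mk (nat_lit 212) (nat_lit 4) (nat_lit 2) (nat_lit 3) (nat_lit 6) (nat_lit 371) (nat_lit 182) r4_371 r12_182 (nat_lit 0) (nat_lit 0) (nat_lit 0) (nat_lit 0x7e20a9174e) (nat_lit 919083672),
  Rx.mk (nat_lit 213) (nat_lit 5) (nat_lit 2) (nat_lit 3) (nat_lit 7) (nat_lit 376) (nat_lit 183) r4_376 r12_183 (nat_lit 0) (nat_lit 0) (nat_lit 0) (nat_lit 0x7e4606e14c) (nat_lit 847437552),
  Rx.mk (nat_lit 220) (nat_lit 4) (nat_lit 3) (nat_lit 3) (nat_lit 6) (nat_lit 372) (nat_lit 180) r4_372 r12_180 (nat_lit 0) (nat_lit 0) (nat_lit 0) (nat_lit 0x7d88ecd3aa) (nat_lit 1210020552),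
  Rx.mk (nat_lit 221) (nat_lit 5) (nat_lit 3) (nat_lit 3) (nat_lit 7) (nat_lit 377) (nat_lit 181) r4_377 r12_181 (nat_lit 0) (nat_lit 0) (nat_lit 0) (nat_lit 0x7e0fdfe3f2) (nat_lit 951268968)]
noncomputable def e46_54 : List Rx := [
  Rx.mk (nat_lit 270) (nat_lit 6) (nat_lit 1) (nat_lit 4) (nat_lit 3) (nat_lit 90) (nat_lit 66) r4_90 r12_66 (nat_lit 0) (nat_lit 0) (nat_lit 0) (nat_lit 0x7f16fd1118) (nat_lit 446775264),
  Rx.mk (nat_lit 460) (nat_lit 4) (nat_lit 1) (nat_lit 7) (nat_lit 6) (nat_lit 89) (nat_lit 67) r4_89 r12_67 (nat_lit 0) (nat_lit 0) (nat_lit 0) (nat_lit 0x7e028ed910) (nat_lit 976802112),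
  Rx.mk (nat_lit 462) (nat_lit 6) (nat_lit 1) (nat_lit 7) (nat_lit 7) (nat_lit 91) (nat_lit 69) r4_91 r12_69 (nat_lit 0) (nat_lit 0) (nat_lit 0) (nat_lit 0x7eff7569aa) (nat_lit 491891400),
  Rx.mk (nat_lit 463) (nat_lit 7) (nat_lit 1) (nat_lit 7) (nat_lit 7) (nat_lit 92) (nat_lit 68) r4_92 r12_68 (nat_lit 0) (nat_lit 0) (nat_lit 0) (nat_lit 0x7e502f9eb6) (nat_lit 827958456)]
noncomputable def e46_55 : List Rx := [
  Rx.mk (nat_lit 19) (nat_lit 3) (nat_lit 2) (nat_lit 0) (nat_lit 3) (nat_lit 31) (nat_lit 46) r4_31 r3_46 (nat_lit 0) (nat_lit 0) (nat_lit 0) (nat_lit 0x7ffbd9e266) (nat_lit 7955064),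
  Rx.mk (nat_lit 147) (nat_lit 3) (nat_lit 2) (nat_lit 2) (nat_lit 7) (nat_lit 32) (nat_lit 48) r4_32 r3_48 (nat_lit 0) (nat_lit 0) (nat_lit 0) (nat_lit 0x7ae6c7f89a) (nat_lit 2502621576),
  Rx.mk (nat_lit 199) (nat_lit 7) (nat_lit 0) (nat_lit 3) (nat_lit 5) (nat_lit 36) (nat_lit 42) r4_36 r3_42 (nat_lit 0) (nat_lit 0) (nat_lit 0) (nat_lit 0x7db0793abc) (nat_lit 1134190512),
  Rx.mk (nat_lit 211) (nat_lit 3) (nat_lit 2) (nat_lit 3) (nat_lit 7) (nat_lit 33) (nat_lit 47) r4_33 r3_47 (nat_lit 0) (nat_lit 0) (nat_lit 0) (nat_lit 0x7e68443d54) (nat_lit 781786512),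
  Rx.mk (nat_lit 215) (nat_lit 7) (nat_lit 2) (nat_lit 3) (nat_lit 7) (nat_lit 37) (nat_lit 44) r4_37 r3_44 (nat_lit 0) (nat_lit 0) (nat_lit 0) (nat_lit 0x7eb5bf2558) (nat_lit 633226464),
  Rx.mk (nat_lit 223) (nat_lit 7) (nat_lit 3) (nat_lit 3) (nat_lit 7) (nat_lit 38) (nat_lit 43) r4_38 r3_43 (nat_lit 0) (nat_lit 0) (nat_lit 0) (nat_lit 0x7e2eabd714) (nat_lit 892219536),
  Rx.mk (nat_lit 476) (nat_lit 4) (nat_lit 3) (nat_lit 7) (nat_lit 6) (nat_lit 34) (nat_lit 40) r4_34 r3_40 (nat_lit 0) (nat_lit 0) (nat_lit 0) (nat_lit 0x7f3136ed60) (nat_lit 396489600),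
  Rx.mk (nat_lit 478) (nat_lit 6) (nat_lit 3) (nat_lit 7) (nat_lit 7) (nat_lit 35) (nat_lit 45) r4_35 r3_45 (nat_lit 0) (nat_lit 0) (nat_lit 0) (nat_lit 0x7f09322dd4) (nat_lit 473221008),
  Rx.mk (nat_lit 479) (nat_lit 7) (nat_lit 3) (nat_lit 7) (nat_lit 7) (nat_lit 39) (nat_lit 41) r4_39 r3_41 (nat_lit 0) (nat_lit 0) (nat_lit 0) (nat_lit 0x7e65b0c68e) (nat_lit 786725784)]
noncomputable def e46_56 : List Rx := [
  Rx.mk (nat_lit 199) (nat_lit 7) (nat_lit 0) (nat_lit 3) (nat_lit 5) (nat_lit 61) (nat_lit 30) r4_61 r12_30 (nat_lit 0) (nat_lit 0) (nat_lit 0) (nat_lit 0x7e3684f97a) (nat_lit 877171464),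
  Rx.mk (nat_lit 211) (nat_lit 3) (nat_lit 2) (nat_lit 3) (nat_lit 7) (nat_lit 58) (nat_lit 33) r4_58 r12_33 (nat_lit 0) (nat_lit 0) (nat_lit 0) (nat_lit 0x7e581e7fc0) (nat_lit 812747520),
  Rx.mk (nat_lit 215) (nat_lit 7) (nat_lit 2) (nat_lit 3) (nat_lit 7) (nat_lit 62) (nat_lit 31) r4_62 r12_31 (nat_lit 0) (nat_lit 0) (nat_lit 0) (nat_lit 0x7eac08c0c8) (nat_lit 651849120),
  Rx.mk (nat_lit 455) (nat_lit 7) (nat_lit 0) (nat_lit 7) (nat_lit 5) (nat_lit 63) (nat_lit 28) r4_63 r12_28 (nat_lit 0) (nat_lit 0) (nat_lit 0) (nat_lit 0x7bf02e0130) (nat_lit 1993747392),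
  Rx.mk (nat_lit 476) (nat_lit 4) (nat_lit 3) (nat_lit 7) (nat_lit 6) (nat_lit 59) (nat_lit 27) r4_59 r12_27 (nat_lit 0) (nat_lit 0) (nat_lit 0) (nat_lit 0x7e7c8d78ac) (nat_lit 742890096),
  Rx.mk (nat_lit 478) (nat_lit 6) (nat_lit 3) (nat_lit 7) (nat_lit 7) (nat_lit 60) (nat_lit 32) r4_60 r12_32 (nat_lit 0) (nat_lit 0) (nat_lit 0) (nat_lit 0x7edd36edb4) (nat_lit 557550864),
  Rx.mk (nat_lit 479) (nat_lit 7) (nat_lit 3) (nat_lit 7) (nat_lit 7) (nat_lit 64) (nat_lit 29) r4_64 r12_29 (nat_lit 0) (nat_lit 0) (nat_lit 0) (nat_lit 0x7d62493e0a) (nat_lit 1284106824)]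
noncomputable def e46_57 : List Rx := [
  Rx.mk (nat_lit 7) (nat_lit 7) (nat_lit 0) (nat_lit 0) (nat_lit 1) (nat_lit 200) (nat_lit 124) r4_200 r12_124 (nat_lit 0) (nat_lit 0) (nat_lit 0) (nat_lit 0x6c41dd75e8) (nat_lit 9690778656),
  Rx.mk (nat_lit 19) (nat_lit 3) (nat_lit 2) (nat_lit 0) (nat_lit 3) (nat_lit 195) (nat_lit 130) r4_195 r12_130 (nat_lit 0) (nat_lit 0) (nat_lit 0) (nat_lit 0x7bc8cf5742) (nat_lit 2069234856),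
  Rx.mk (nat_lit 23) (nat_lit 7) (nat_lit 2) (nat_lit 0) (nat_lit 3) (nat_lit 201) (nat_lit 131) r4_201 r12_131 (nat_lit 0) (nat_lit 0) (nat_lit 0) (nat_lit 0x7a87b0ca6c) (nat_lit 2684947824),
  Rx.mk (nat_lit 147) (nat_lit 3) (nat_lit 2) (nat_lit 2) (nat_lit 7) (nat_lit 196) (nat_lit 133) r4_196 r12_133 (nat_lit 0) (nat_lit 0) (nat_lit 0) (nat_lit 0x7dfbbbc648) (nat_lit 989887392),
  Rx.mk (nat_lit 199) (nat_lit 7) (nat_lit 0) (nat_lit 3) (nat_lit 5) (nat_lit 202) (nat_lit 125) r4_202 r12_125 (nat_lit 0) (nat_lit 0) (nat_lit 0) (nat_lit 0x7e00441dbe) (nat_lit 981196632),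
  Rx.mk (nat_lit 215) (nat_lit 7) (nat_lit 2) (nat_lit 3) (nat_lit 7) (nat_lit 203) (nat_lit 132) r4_203 r12_132 (nat_lit 0) (nat_lit 0) (nat_lit 0) (nat_lit 0x7e76bad5dc) (nat_lit 754054704),
  Rx.mk (nat_lit 220) (nat_lit 4) (nat_lit 3) (nat_lit 3) (nat_lit 6) (nat_lit 197) (nat_lit 126) r4_197 r12_126 (nat_lit 0) (nat_lit 0) (nat_lit 0) (nat_lit 0x7853b78c34) (nat_lit 3766308624),
  Rx.mk (nat_lit 223) (nat_lit 7) (nat_lit 3) (nat_lit 3) (nat_lit 7) (nat_lit 204) (nat_lit 127) r4_204 r12_127 (nat_lit 0) (nat_lit 0) (nat_lit 0) (nat_lit 0x7e302d3efc) (nat_lit 889332912),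
  Rx.mk (nat_lit 476) (nat_lit 4) (nat_lit 3) (nat_lit 7) (nat_lit 6) (nat_lit 198) (nat_lit 128) r4_198 r12_128 (nat_lit 0) (nat_lit 0) (nat_lit 0) (nat_lit 0x79e6f15704) (nat_lit 2993165136),
  Rx.mk (nat_lit 478) (nat_lit 6) (nat_lit 3) (nat_lit 7) (nat_lit 7) (nat_lit 199) (nat_lit 129) r4_199 r12_129 (nat_lit 0) (nat_lit 0) (nat_lit 0) (nat_lit 0x7e8a3edd88) (nat_lit 716635296)]
noncomputable def e46 : List (List Rx) := [e46_0, e46_1, e46_2, e46_3, e46_4, e46_5, e46_6, e46_7, e46_8, e46_9, e46_10, e46_11, e46_12, e46_13, e46_14, e46_15, e46_16, e46_17, e46_18, e46_19, e46_20, e46_21, e46_22, e46_23, e46_24, e46_25, e46_26, e46_27, e46_28, e46_29, e46_30, e46_31, e46_32, e46_33, e46_34, e46_35, e46_36, e46_37, e46_38, e46_39, e46_40, e46_41, e46_42, e46_43, e46_44, e46_45, e46_46, e46_47, e46_48, e46_49, e46_50, e46_51, e46_52, e46_53,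 e46_54, e46_55, e46_56, e46_57]

end Pool.Agent.AKXS_0_25_WE
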