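import Pool.Agent.AKXS_0_25_WE.R0
import Pool.Agent.AKXS_0_25_WE.R1
import Pool.Agent.AKXS_0_25_WE.R2
import Pool.Agent.AKXS_0_25_WE.R3
import Pool.Agent.AKXS_0_25_WE.R4
import Pool.Agent.AKXS_0_25_WE.R5
import Pool.Agent.AKXS_0_25_WE.R6
import Pool.Agent.AKXS_0_25_WE.R7
import Pool.Agent.AKXS_0_25_WE.R8
import Pool.Agent.AKXS_0_25_WE.R9
import Pool.Agent.AKXS_0_25_WE.R10
import Pool.Agent.AKXS_0_25_WE.R11
import Pool.Agent.AKXS_0_25_WE.R12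

set_option autoImplicit false

namespace Pool.Agent.AKXS_0_25_WE

open Pool.Agent.AKX Pool.Agent.AKU

noncomputable def e47_0 : List Rx := [
  Rx.mk (nat_lit 5) (nat_lit 5) (nat_lit 0) (nat_lit 0) (nat_lit 1) (nat_lit 155) (nat_lit 317) r4_155 r0_317 (nat_lit 0) (nat_lit 0) (nat_lit 0) (nat_lit 0x6ef1331dde) (nat_lit 8372885976),
  Rx.mk (nat_lit 21) (nat_lit 5) (nat_lit 2) (nat_lit 0) (nat_lit 3) (nat_lit 157) (nat_lit 319) r4_157 r0_319 (nat_lit 0) (nat_lit 0) (nat_lit 0) (nat_lit 0x76db4494dc) (nat_lit 4488110640),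
  Rx.mk (nat_lit 69) (nat_lit 5) (nat_lit 0) (nat_lit 1) (nat_lit 5) (nat_lit 156) (nat_lit 318) r4_156 r0_318 (nat_lit 0) (nat_lit 0) (nat_lit 0) (nat_lit 0x7d38edd3ea) (nat_lit 1363404744),
  Rx.mk (nat_lit 85) (nat_lit 5) (nat_lit 2) (nat_lit 1) (nat_lit 7) (nat_lit 158) (nat_lit 320) r4_158 r0_320 (nat_lit 0) (nat_lit 0) (nat_lit 0) (nat_lit 0x7ece365dcc) (nat_lit 586316016)]
noncomputable def e47_1 : List Rx := [
  Rx.mk (nat_lit 69) (nat_lit 5) (nat_lit 0) (nat_lit 1) (nat_lit 5) (nat_lit 159) (nat_lit 304) r4_159 r1_304 (nat_lit 0) (nat_lit 0) (nat_lit 0) (nat_lit 0x7e188df908) (nat_lit 934625952),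
  Rx.mk (nat_lit 85) (nat_lit 5) (nat_lit 2) (nat_lit 1) (nat_lit 7) (nat_lit 160) (nat_lit 305) r4_160 r1_305 (nat_lit 0) (nat_lit 0) (nat_lit 0) (nat_lit 0x7e535d2bda) (nat_lit 821865096)]
noncomputable def e47_2 : List Rx := [
  Rx.mk (nat_lit 69) (nat_lit 5) (nat_lit 0) (nat_lit 1) (nat_lit 5) (nat_lit 300) (nat_lit 349) r4_300 r2_349 (nat_lit 0) (nat_lit 0) (nat_lit 0) (nat_lit 0x7dc103120e) (nat_lit 1102479768),
  Rx.mk (nat_lit 77) (nat_lit 5) (nat_lit 1) (nat_lit 1) (nat_lit 7) (nat_lit 302) (nat_lit 351) r4_302 r2_351 (nat_lit 0) (nat_lit 0) (nat_lit 0) (nat_lit 0x7de76c8b50) (nat_lit 1028828736),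
  Rx.mk (nat_lit 85) (nat_lit 5) (nat_lit 2) (nat_lit 1) (nat_lit 7) (nat_lit 303) (nat_lit 353) r4_303 r2_353 (nat_lit 0) (nat_lit 0) (nat_lit 0) (nat_lit 0x7df18be950) (nat_lit 1009419840),
  Rx.mk (nat_lit 325) (nat_lit 5) (nat_lit 0) (nat_lit 5) (nat_lit 5) (nat_lit 299) (nat_lit 350) r4_299 r2_350 (nat_lit 0) (nat_lit 0) (nat_lit 0) (nat_lit 0x7dad9708e2) (nat_lit 1139719464),
  Rx.mk (nat_lit 333) (nat_lit 5) (nat_lit 1) (nat_lit 5) (nat_lit 7) (nat_lit 301) (nat_lit 352) r4_301 r2_352 (nat_lit 0) (nat_lit 0) (nat_lit 0) (nat_lit 0x7de0307f18) (nat_lit 1042700256)]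
noncomputable def e47_3 : List Rx := [
  Rx.mk (nat_lit 21) (nat_lit 5) (nat_lit 2) (nat_lit 0) (nat_lit 3) (nat_lit 66) (nat_lit 315) r4_66 r3_315 (nat_lit 0) (nat_lit 0) (nat_lit 0) (nat_lit 0x7f9a3d1c94) (nat_lit 195116688),
  Rx.mk (nat_lit 197) (nat_lit 5) (nat_lit 0) (nat_lit 3) (nat_lit 5) (nat_lit 65) (nat_lit 314) r4_65 r3_314 (nat_lit 0) (nat_lit 0) (nat_lit 0) (nat_lit 0x7ffc241dc2) (nat_lit 7399080),
  Rx.mk (nat_lit 213) (nat_lit 5) (nat_lit 2) (nat_lit 3) (nat_lit 7) (nat_lit 67) (nat_lit 316) r4_67 r3_316 (nat_lit 0) (nat_lit 0) (nat_lit 0) (nat_lit 0x7fe190a714) (nat_lit 58355856)]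
noncomputable def e47_4 : List Rx := [
  Rx.mk (nat_lit 5) (nat_lit 5) (nat_lit 0) (nat_lit 0) (nat_lit 1) (nat_lit 161) (nat_lit 349) r4_161 r4_349 (nat_lit 0) (nat_lit 0) (nat_lit 0) (nat_lit 0x73692e19b6) (nat_lit 6179422392),
  Rx.mk (nat_lit 21) (nat_lit 5) (nat_lit 2) (nat_lit 0) (nat_lit 3) (nat_lit 164) (nat_lit 352) r4_164 r4_352 (nat_lit 0) (nat_lit 0) (nat_lit 0) (nat_lit 0x7e9dbce594) (nat_lit 679260816),
  Rx.mk (nat_lit 69) (nat_lit 5) (nat_lit 0) (nat_lit 1) (nat_lit 5) (nat_lit 162) (nat_lit 350) r4_162 r4_350 (nat_lit 0) (nat_lit 0) (nat_lit 0) (nat_lit 0x7e146cbb20) (nat_lit 942544512),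
  Rx.mk (nat_lit 85) (nat_lit 5) (nat_lit 2) (nat_lit 1) (nat_lit 7) (nat_lit 165) (nat_lit 353) r4_165 r4_353 (nat_lit 0) (nat_lit 0) (nat_lit 0) (nat_lit 0x7e61448d56) (nat_lit 795205944),
  Rx.mk (nat_lit 197) (nat_lit 5) (nat_lit 0) (nat_lit 3) (nat_lit 5) (nat_lit 163) (nat_lit 351) r4_163 r4_351 (nat_lit 0) (nat_lit 0) (nat_lit 0) (nat_lit 0x7e740fc090) (nat_lit 759170880),
  Rx.mk (nat_lit 213) (nat_lit 5) (nat_lit 2) (nat_lit 3) (nat_lit 7) (nat_lit 166) (nat_lit 354) r4_166 r4_354 (nat_lit 0) (nat_lit 0) (nat_lit 0) (nat_lit 0x7e69115082) (nat_lit 780250536)]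
noncomputable def e47_5 : List Rx := [
  Rx.mk (nat_lit 260) (nat_lit 4) (nat_lit 0) (nat_lit 4) (nat_lit 0) (nat_lit 315) (nat_lit 299) r4_315 r3_299 (nat_lit 0) (nat_lit 0) (nat_lit 0) (nat_lit 0x72d96d1656) (nat_lit 6455055672),
  Rx.mk (nat_lit 261) (nat_lit 5) (nat_lit 0) (nat_lit 4) (nat_lit 1) (nat_lit 316) (nat_lit 301) r4_316 r3_301 (nat_lit 0) (nat_lit 0) (nat_lit 0) (nat_lit 0x790eef77fa) (nat_lit 3407336712),
  Rx.mk (nat_lit 262) (nat_lit 6) (nat_lit 0) (nat_lit 4) (nat_lit 1) (nat_lit 317) (nat_lit 303) r4_317 r3_303 (nat_lit 0) (nat_lit 0) (nat_lit 0) (nat_lit 0x79c6919d20) (nat_lit 3055238784),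
  Rx.mk (nat_lit 268) (nat_lit 4) (nat_lit 1) (nat_lit 4) (nat_lit 2) (nat_lit 321) (nat_lit 305) r4_321 r3_305 (nat_lit 0) (nat_lit 0) (nat_lit 0) (nat_lit 0x7824867f74) (nat_lit 3856793616),
  Rx.mk (nat_lit 269) (nat_lit 5) (nat_lit 1) (nat_lit 4) (nat_lit 3) (nat_lit 322) (nat_lit 307) r4_322 r3_307 (nat_lit 0) (nat_lit 0) (nat_lit 0) (nat_lit 0x7cbf2d1070) (nat_lit 1596853440),
  Rx.mk (nat_lit 270) (nat_lit 6) (nat_lit 1) (nat_lit 4) (nat_lit 3) (nat_lit 323) (nat_lit 309) r4_323 r3_309 (nat_lit 0) (nat_lit 0) (nat_lit 0) (nat_lit 0x7cb07e3b6c) (nat_lit 1625006448),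
  Rx.mk (nat_lit 452) (nat_lit 4) (nat_lit 0) (nat_lit 7) (nat_lit 4) (nat_lit 318) (nat_lit 300) r4_318 r3_300 (nat_lit 0) (nat_lit 0) (nat_lit 0) (nat_lit 0x7a41dba804) (nat_lit 2818844496),
  Rx.mk (nat_lit 453) (nat_lit 5) (nat_lit 0) (nat_lit 7) (nat_lit 5) (nat_lit 319) (nat_lit 302) r4_319 r3_302 (nat_lit 0) (nat_lit 0) (nat_lit 0) (nat_lit 0x7e0ef89268) (nat_lit 953001504),
  Rx.mk (nat_lit 454) (nat_lit 6) (nat_lit 0) (nat_lit 7) (nat_lit 5) (nat_lit 320) (nat_lit 304) r4_320 r3_304 (nat_lit 0) (nat_lit 0) (nat_lit 0) (nat_lit 0x7c8fa6290e) (nat_lit 1687981464),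
  Rx.mk (nat_lit 460) (nat_lit 4) (nat_lit 1) (nat_lit 7) (nat_lit 6) (nat_lit 324) (nat_lit 306) r4_324 r3_306 (nat_lit 0) (nat_lit 0) (nat_lit 0) (nat_lit 0x7e5e87d924) (nat_lit 800454096),
  Rx.mk (nat_lit 461) (nat_lit 5) (nat_lit 1) (nat_lit 7) (nat_lit 7) (nat_lit 325) (nat_lit 308) r4_325 r3_308 (nat_lit 0) (nat_lit 0) (nat_lit 0) (nat_lit 0x7eb281d930) (nat_lit 639437760),
  Rx.mk (nat_lit 462) (nat_lit 6) (nat_lit 1) (nat_lit 7) (nat_lit 7) (nat_lit 326) (nat_lit 310) r4_326 r3_310 (nat_lit 0) (nat_lit 0) (nat_lit 0) (nat_lit 0x7ea6169ff0) (nat_lit 663249600)]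
noncomputable def e47_6 : List Rx := [
  Rx.mk (nat_lit 268) (nat_lit 4) (nat_lit 1) (nat_lit 4) (nat_lit 2) (nat_lit 256) (nat_lit 308) r4_256 r0_308 (nat_lit 0) (nat_lit 0) (nat_lit 0) (nat_lit 0x6d9ecf456e) (nat_lit 9021713688),
  Rx.mk (nat_lit 269) (nat_lit 5) (nat_lit 1) (nat_lit 4) (nat_lit 3) (nat_lit 257) (nat_lit 310) r4_257 r0_310 (nat_lit 0) (nat_lit 0) (nat_lit 0) (nat_lit 0x7da9e10446) (nat_lit 1146834936),
  Rx.mk (nat_lit 270) (nat_lit 6) (nat_lit 1) (nat_lit 4) (nat_lit 3) (nat_lit 258) (nat_lit 312) r4_258 r0_312 (nat_lit 0) (nat_lit 0) (nat_lit 0) (nat_lit 0x76d4fe194a) (nat_lit 4500142920),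
  Rx.mk (nat_lit 324) (nat_lit 4) (nat_lit 0) (nat_lit 5) (nat_lit 4) (nat_lit 253) (nat_lit 305) r4_253 r0_305 (nat_lit 0) (nat_lit 0) (nat_lit 0) (nat_lit 0x72ea26eaa8) (nat_lit 6422985504),
  Rx.mk (nat_lit 325) (nat_lit 5) (nat_lit 0) (nat_lit 5) (nat_lit 5) (nat_lit 254) (nat_lit 306) r4_254 r0_306 (nat_lit 0) (nat_lit 0) (nat_lit 0) (nat_lit 0x765dc16d8c) (nat_lit 4728767472),
  Rx.mk (nat_lit 326) (nat_lit 6) (nat_lit 0) (nat_lit 5) (nat_lit 5) (nat_lit 255) (nat_lit 307) r4_255 r0_307 (nat_lit 0) (nat_lit 0) (nat_lit 0) (nat_lit 0x7e1c8ad936) (nat_lit 926979768),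
  Rx.mk (nat_lit 332) (nat_lit 4) (nat_lit 1) (nat_lit 5) (nat_lit 6) (nat_lit 259) (nat_lit 309) r4_259 r0_309 (nat_lit 0) (nat_lit 0) (nat_lit 0) (nat_lit 0x7d715ecca2) (nat_lit 1255184424),
  Rx.mk (nat_lit 333) (nat_lit 5) (nat_lit 1) (nat_lit 5) (nat_lit 7) (nat_lit 260) (nat_lit 311) r4_260 r0_311 (nat_lit 0) (nat_lit 0) (nat_lit 0) (nat_lit 0x7e65ac46d6) (nat_lit 786759480),
  Rx.mk (nat_lit 334) (nat_lit 6) (nat_lit 1) (nat_lit 5) (nat_lit 7) (nat_lit 261) (nat_lit 313) r4_261 r0_313 (nat_lit 0) (nat_lit 0) (nat_lit 0) (nat_lit 0x7e5d9fc7a6) (nat_lit 802192248)]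
noncomputable def e47_7 : List Rx := [
  Rx.mk (nat_lit 324) (nat_lit 4) (nat_lit 0) (nat_lit 5) (nat_lit 4) (nat_lit 293) (nat_lit 296) r4_293 r1_296 (nat_lit 0) (nat_lit 0) (nat_lit 0) (nat_lit 0x6a1ffcf612) (nat_lit 10737441000),
  Rx.mk (nat_lit 325) (nat_lit 5) (nat_lit 0) (nat_lit 5) (nat_lit 5) (nat_lit 294) (nat_lit 297) r4_294 r1_297 (nat_lit 0) (nat_lit 0) (nat_lit 0) (nat_lit 0x7b9136b104) (nat_lit 2175834960),
  Rx.mk (nat_lit 326) (nat_lit 6) (nat_lit 0) (nat_lit 5) (nat_lit 5) (nat_lit 295) (nat_lit 298) r4_295 r1_298 (nat_lit 0) (nat_lit 0) (nat_lit 0) (nat_lit 0x7df1a98776) (nat_lit 1009198008),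
  Rx.mk (nat_lit 332) (nat_lit 4) (nat_lit 1) (nat_lit 5) (nat_lit 6) (nat_lit 296) (nat_lit 299) r4_296 r1_299 (nat_lit 0) (nat_lit 0) (nat_lit 0) (nat_lit 0x7ce68fda1c) (nat_lit 1521335088),
  Rx.mk (nat_lit 333) (nat_lit 5) (nat_lit 1) (nat_lit 5) (nat_lit 7) (nat_lit 297) (nat_lit 300) r4_297 r1_300 (nat_lit 0) (nat_lit 0) (nat_lit 0) (nat_lit 0x7e35b126b8) (nat_lit 878757984),
  Rx.mk (nat_lit 334) (nat_lit 6) (nat_lit 1) (nat_lit 5) (nat_lit 7) (nat_lit 298) (nat_lit 301) r4_298 r1_301 (nat_lit 0) (nat_lit 0) (nat_lit 0) (nat_lit 0x7db1b0c742) (nat_lit 1131857064)]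
noncomputable def e47_8 : List Rx := [
  Rx.mk (nat_lit 260) (nat_lit 4) (nat_lit 0) (nat_lit 4) (nat_lit 0) (nat_lit 327) (nat_lit 327) r4_327 r4_327 (nat_lit 0) (nat_lit 0) (nat_lit 0) (nat_lit 0x60139186d6) (nat_lit 15669788472),
  Rx.mk (nat_lit 261) (nat_lit 5) (nat_lit 0) (nat_lit 4) (nat_lit 1) (nat_lit 328) (nat_lit 330) r4_328 r4_330 (nat_lit 0) (nat_lit 0) (nat_lit 0) (nat_lit 0x778fc9abd6) (nat_lit 4141982520),
  Rx.mk (nat_lit 262) (nat_lit 6) (nat_lit 0) (nat_lit 4) (nat_lit 1) (nat_lit 329) (nat_lit 333) r4_329 r4_333 (nat_lit 0) (nat_lit 0) (nat_lit 0) (nat_lit 0x7be34caf52) (nat_lit 2018443752),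
  Rx.mk (nat_lit 268) (nat_lit 4) (nat_lit 1) (nat_lit 4) (nat_lit 2) (nat_lit 335) (nat_lit 335) r4_335 r4_335 (nat_lit 0) (nat_lit 0) (nat_lit 0) (nat_lit 0x7ad70354f4) (nat_lit 2532855312),
  Rx.mk (nat_lit 269) (nat_lit 5) (nat_lit 1) (nat_lit 4) (nat_lit 3) (nat_lit 336) (nat_lit 338) r4_336 r4_338 (nat_lit 0) (nat_lit 0) (nat_lit 0) (nat_lit 0x7e3c95786c) (nat_lit 865543536),
  Rx.mk (nat_lit 270) (nat_lit 6) (nat_lit 1) (nat_lit 4) (nat_lit 3) (nat_lit 337) (nat_lit 341) r4_337 r4_341 (nat_lit 0) (nat_lit 0) (nat_lit 0) (nat_lit 0x7e4a6b3b02) (nat_lit 839016360),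
  Rx.mk (nat_lit 324) (nat_lit 4) (nat_lit 0) (nat_lit 5) (nat_lit 4) (nat_lit 330) (nat_lit 328) r4_330 r4_328 (nat_lit 0) (nat_lit 0) (nat_lit 0) (nat_lit 0x778fc9abd6) (nat_lit 4141982520),
  Rx.mk (nat_lit 325) (nat_lit 5) (nat_lit 0) (nat_lit 5) (nat_lit 5) (nat_lit 331) (nat_lit 331) r4_331 r4_331 (nat_lit 0) (nat_lit 0) (nat_lit 0) (nat_lit 0x7e24555c86) (nat_lit 912041208),
  Rx.mk (nat_lit 326) (nat_lit 6) (nat_lit 0) (nat_lit 5) (nat_lit 5) (nat_lit 332) (nat_lit 334) r4_332 r4_334 (nat_lit 0) (nat_lit 0) (nat_lit 0) (nat_lit 0x7e41ede2e0) (nat_lit 855294336),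
  Rx.mk (nat_lit 332) (nat_lit 4) (nat_lit 1) (nat_lit 5) (nat_lit 6) (nat_lit 338) (nat_lit 336) r4_338 r4_336 (nat_lit 0) (nat_lit 0) (nat_lit 0) (nat_lit 0x7e3c95786c) (nat_lit 865543536),
  Rx.mk (nat_lit 333) (nat_lit 5) (nat_lit 1) (nat_lit 5) (nat_lit 7) (nat_lit 339) (nat_lit 339) r4_339 r4_339 (nat_lit 0) (nat_lit 0) (nat_lit 0) (nat_lit 0x7dd9750ad6) (nat_lit 1055608632),
  Rx.mk (nat_lit 334) (nat_lit 6) (nat_lit 1) (nat_lit 5) (nat_lit 7) (nat_lit 340) (nat_lit 342) r4_340 r4_342 (nat_lit 0) (nat_lit 0) (nat_lit 0) (nat_lit 0x7de0cb556a) (nat_lit 1041540552),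
  Rx.mk (nat_lit 452) (nat_lit 4) (nat_lit 0) (nat_lit 7) (nat_lit 4) (nat_lit 333) (nat_lit 329) r4_333 r4_329 (nat_lit 0) (nat_lit 0) (nat_lit 0) (nat_lit 0x7be34caf52) (nat_lit 2018443752),
  Rx.mk (nat_lit 453) (nat_lit 5) (nat_lit 0) (nat_lit 7) (nat_lit 5) (nat_lit 334) (nat_lit 332) r4_334 r4_332 (nat_lit 0) (nat_lit 0) (nat_lit 0) (nat_lit 0x7e41ede2e0) (nat_lit 855294336),
  Rx.mk (nat_lit 460) (nat_lit 4) (nat_lit 1) (nat_lit 7) (nat_lit 6) (nat_lit 341) (nat_lit 337) r4_341 r4_337 (nat_lit 0) (nat_lit 0) (nat_lit 0) (nat_lit 0x7e4a6b3b02) (nat_lit 839016360),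
  Rx.mk (nat_lit 461) (nat_lit 5) (nat_lit 1) (nat_lit 7) (nat_lit 7) (nat_lit 342) (nat_lit 340) r4_342 r4_340 (nat_lit 0) (nat_lit 0) (nat_lit 0) (nat_lit 0x7de0cb556a) (nat_lit 1041540552)]
noncomputable def e47_9 : List Rx := [
  Rx.mk (nat_lit 196) (nat_lit 4) (nat_lit 0) (nat_lit 3) (nat_lit 4) (nat_lit 220) (nat_lit 337) r4_220 r5_337 (nat_lit 0) (nat_lit 0) (nat_lit 0) (nat_lit 0x7037ba9420) (nat_lit 7746800256),
  Rx.mk (nat_lit 197) (nat_lit 5) (nat_lit 0) (nat_lit 3) (nat_lit 5) (nat_lit 221) (nat_lit 340) r4_221 r5_340 (nat_lit 0) (nat_lit 0) (nat_lit 0) (nat_lit 0x7e80245f3a) (nat_lit 736007688),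
  Rx.mk (nat_lit 212) (nat_lit 4) (nat_lit 2) (nat_lit 3) (nat_lit 6) (nat_lit 222) (nat_lit 339) r4_222 r5_339 (nat_lit 0) (nat_lit 0) (nat_lit 0) (nat_lit 0x7145321b9a) (nat_lit 7230125448),
  Rx.mk (nat_lit 213) (nat_lit 5) (nat_lit 2) (nat_lit 3) (nat_lit 7) (nat_lit 223) (nat_lit 342) r4_223 r5_342 (nat_lit 0) (nat_lit 0) (nat_lit 0) (nat_lit 0x7edd8ea838) (nat_lit 556893792),
  Rx.mk (nat_lit 452) (nat_lit 4) (nat_lit 0) (nat_lit 7) (nat_lit 4) (nat_lit 217) (nat_lit 338) r4_217 r5_338 (nat_lit 0) (nat_lit 0) (nat_lit 0) (nat_lit 0x77438f4fc8) (nat_lit 4288141728),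
  Rx.mk (nat_lit 453) (nat_lit 5) (nat_lit 0) (nat_lit 7) (nat_lit 5) (nat_lit 218) (nat_lit 341) r4_218 r5_341 (nat_lit 0) (nat_lit 0) (nat_lit 0) (nat_lit 0x7e57d80428) (nat_lit 813275424),
  Rx.mk (nat_lit 454) (nat_lit 6) (nat_lit 0) (nat_lit 7) (nat_lit 5) (nat_lit 219) (nat_lit 343) r4_219 r5_343 (nat_lit 0) (nat_lit 0) (nat_lit 0) (nat_lit 0x7e42d95428) (nat_lit 853530912)]
noncomputable def e47_10 : List Rx := [
  Rx.mk (nat_lit 17) (nat_lit 1) (nat_lit 2) (nat_lit 0) (nat_lit 3) (nat_lit 69) (nat_lit 80) r4_69 r0_80 (nat_lit 0) (nat_lit 0) (nat_lit 0) (nat_lit 0x7933197536) (nat_lit 3337995960),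
  Rx.mk (nat_lit 21) (nat_lit 5) (nat_lit 2) (nat_lit 0) (nat_lit 3) (nat_lit 68) (nat_lit 79) r4_68 r0_79 (nat_lit 0) (nat_lit 0) (nat_lit 0) (nat_lit 0x6338dbcf0c) (nat_lit 14125728240),
  Rx.mk (nat_lit 209) (nat_lit 1) (nat_lit 2) (nat_lit 3) (nat_lit 7) (nat_lit 70) (nat_lit 81) r4_70 r0_81 (nat_lit 0) (nat_lit 0) (nat_lit 0) (nat_lit 0x7e7f2fee82) (nat_lit 737838504)]
noncomputable def e47_11 : List Rx := [
  Rx.mk (nat_lit 5) (nat_lit 5) (nat_lit 0) (nat_lit 0) (nat_lit 1) (nat_lit 167) (nat_lit 427) r4_167 r6_427 (nat_lit 0) (nat_lit 0) (nat_lit 0) (nat_lit 0x6ce30222fc) (nat_lit 9381803184),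
  Rx.mk (nat_lit 17) (nat_lit 1) (nat_lit 2) (nat_lit 0) (nat_lit 3) (nat_lit 170) (nat_lit 424) r4_170 r6_424 (nat_lit 0) (nat_lit 0) (nat_lit 0) (nat_lit 0x7e444b5d06) (nat_lit 850759416),
  Rx.mk (nat_lit 21) (nat_lit 5) (nat_lit 2) (nat_lit 0) (nat_lit 3) (nat_lit 169) (nat_lit 429) r4_169 r6_429 (nat_lit 0) (nat_lit 0) (nat_lit 0) (nat_lit 0x7e5529ef0c) (nat_lit 818414064),
  Rx.mk (nat_lit 69) (nat_lit 5) (nat_lit 0) (nat_lit 1) (nat_lit 5) (nat_lit 168) (nat_lit 428) r4_168 r6_428 (nat_lit 0) (nat_lit 0) (nat_lit 0) (nat_lit 0x7cb6e0d53c) (nat_lit 1612763568),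
  Rx.mk (nat_lit 81) (nat_lit 1) (nat_lit 2) (nat_lit 1) (nat_lit 7) (nat_lit 172) (nat_lit 425) r4_172 r6_425 (nat_lit 0) (nat_lit 0) (nat_lit 0) (nat_lit 0x7df13cce42) (nat_lit 1010012328),
  Rx.mk (nat_lit 85) (nat_lit 5) (nat_lit 2) (nat_lit 1) (nat_lit 7) (nat_lit 171) (nat_lit 430) r4_171 r6_430 (nat_lit 0) (nat_lit 0) (nat_lit 0) (nat_lit 0x7e5e361e40) (nat_lit 801066240),
  Rx.mk (nat_lit 209) (nat_lit 1) (nat_lit 2) (nat_lit 3) (nat_lit 7) (nat_lit 173) (nat_lit 426) r4_173 r6_426 (nat_lit 0) (nat_lit 0) (nat_lit 0) (nat_lit 0x7dcf6e0b50) (nat_lit 1074835008)]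
noncomputable def e47_12 : List Rx := [
  Rx.mk (nat_lit 17) (nat_lit 1) (nat_lit 2) (nat_lit 0) (nat_lit 3) (nat_lit 71) (nat_lit 85) r4_71 r1_85 (nat_lit 0) (nat_lit 0) (nat_lit 0) (nat_lit 0x7de3bb066c) (nat_lit 1035910512),
  Rx.mk (nat_lit 145) (nat_lit 1) (nat_lit 2) (nat_lit 2) (nat_lit 7) (nat_lit 72) (nat_lit 87) r4_72 r1_87 (nat_lit 0) (nat_lit 0) (nat_lit 0) (nat_lit 0x7df5700b0a) (nat_lit 1001958984),
  Rx.mk (nat_lit 209) (nat_lit 1) (nat_lit 2) (nat_lit 3) (nat_lit 7) (nat_lit 73) (nat_lit 86) r4_73 r1_86 (nat_lit 0) (nat_lit 0) (nat_lit 0) (nat_lit 0x7eb127ced2) (nat_lit 642029544)]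
noncomputable def e47_13 : List Rx := [
  Rx.mk (nat_lit 17) (nat_lit 1) (nat_lit 2) (nat_lit 0) (nat_lit 3) (nat_lit 177) (nat_lit 351) r4_177 r7_351 (nat_lit 0) (nat_lit 0) (nat_lit 0) (nat_lit 0x7dec271fa2) (nat_lit 1019761704),
  Rx.mk (nat_lit 81) (nat_lit 1) (nat_lit 2) (nat_lit 1) (nat_lit 7) (nat_lit 178) (nat_lit 352) r4_178 r7_352 (nat_lit 0) (nat_lit 0) (nat_lit 0) (nat_lit 0x7de75b4c64) (nat_lit 1028957904),
  Rx.mk (nat_lit 145) (nat_lit 1) (nat_lit 2) (nat_lit 2) (nat_lit 7) (nat_lit 179) (nat_lit 354) r4_179 r7_354 (nat_lit 0) (nat_lit 0) (nat_lit 0) (nat_lit 0x7ddcf03320) (nat_lit 1048934016),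
  Rx.mk (nat_lit 209) (nat_lit 1) (nat_lit 2) (nat_lit 3) (nat_lit 7) (nat_lit 180) (nat_lit 353) r4_180 r7_353 (nat_lit 0) (nat_lit 0) (nat_lit 0) (nat_lit 0x7de78789a0) (nat_lit 1028626560)]
noncomputable def e47_14 : List Rx := [
  Rx.mk (nat_lit 69) (nat_lit 5) (nat_lit 0) (nat_lit 1) (nat_lit 5) (nat_lit 174) (nat_lit 68) r4_174 r7_68 (nat_lit 0) (nat_lit 0) (nat_lit 0) (nat_lit 0x7d8ece758a) (nat_lit 1198743624),
  Rx.mk (nat_lit 81) (nat_lit 1) (nat_lit 2) (nat_lit 1) (nat_lit 7) (nat_lit 176) (nat_lit 70) r4_176 r7_70 (nat_lit 0) (nat_lit 0) (nat_lit 0) (nat_lit 0x7ddc8799aa) (nat_lit 1049717448),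
  Rx.mk (nat_lit 85) (nat_lit 5) (nat_lit 2) (nat_lit 1) (nat_lit 7) (nat_lit 175) (nat_lit 69) r4_175 r7_69 (nat_lit 0) (nat_lit 0) (nat_lit 0) (nat_lit 0x7e35a76754) (nat_lit 878830992)]
noncomputable def e47_15 : List Rx := [
  Rx.mk (nat_lit 69) (nat_lit 5) (nat_lit 0) (nat_lit 1) (nat_lit 5) (nat_lit 310) (nat_lit 312) r4_310 r8_312 (nat_lit 0) (nat_lit 0) (nat_lit 0) (nat_lit 0x7bf32fb112) (nat_lit 1987982568),
  Rx.mk (nat_lit 77) (nat_lit 5) (nat_lit 1) (nat_lit 1) (nat_lit 7) (nat_lit 312) (nat_lit 314) r4_312 r8_314 (nat_lit 0) (nat_lit 0) (nat_lit 0) (nat_lit 0x7ddd4f0d32) (nat_lit 1048223592),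
  Rx.mk (nat_lit 81) (nat_lit 1) (nat_lit 2) (nat_lit 1) (nat_lit 7) (nat_lit 314) (nat_lit 311) r4_314 r8_311 (nat_lit 0) (nat_lit 0) (nat_lit 0) (nat_lit 0x7dc5e563e4) (nat_lit 1093115088),
  Rx.mk (nat_lit 85) (nat_lit 5) (nat_lit 2) (nat_lit 1) (nat_lit 7) (nat_lit 313) (nat_lit 316) r4_313 r8_316 (nat_lit 0) (nat_lit 0) (nat_lit 0) (nat_lit 0x7deb594c80) (nat_lit 1021303296),
  Rx.mk (nat_lit 325) (nat_lit 5) (nat_lit 0) (nat_lit 5) (nat_lit 5) (nat_lit 309) (nat_lit 313) r4_309 r8_313 (nat_lit 0) (nat_lit 0) (nat_lit 0) (nat_lit 0x7cf628a080) (nat_lit 1491429888),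
  Rx.mk (nat_lit 333) (nat_lit 5) (nat_lit 1) (nat_lit 5) (nat_lit 7) (nat_lit 311) (nat_lit 315) r4_311 r8_315 (nat_lit 0) (nat_lit 0) (nat_lit 0) (nat_lit 0x7de1440dde) (nat_lit 1040636376)]
noncomputable def e47_16 : List Rx := [
  Rx.mk (nat_lit 21) (nat_lit 5) (nat_lit 2) (nat_lit 0) (nat_lit 3) (nat_lit 75) (nat_lit 74) r4_75 r4_74 (nat_lit 0) (nat_lit 0) (nat_lit 0) (nat_lit 0x7df5478d92) (nat_lit 1002262248),
  Rx.mk (nat_lit 197) (nat_lit 5) (nat_lit 0) (nat_lit 3) (nat_lit 5) (nat_lit 74) (nat_lit 75) r4_74 r4_75 (nat_lit 0) (nat_lit 0) (nat_lit 0) (nat_lit 0x7df5478d92) (nat_lit 1002262248),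
  Rx.mk (nat_lit 209) (nat_lit 1) (nat_lit 2) (nat_lit 3) (nat_lit 7) (nat_lit 77) (nat_lit 77) r4_77 r4_77 (nat_lit 0) (nat_lit 0) (nat_lit 0) (nat_lit 0x7e7ff5222e) (nat_lit 736361496),
  Rx.mk (nat_lit 213) (nat_lit 5) (nat_lit 2) (nat_lit 3) (nat_lit 7) (nat_lit 76) (nat_lit 76) r4_76 r4_76 (nat_lit 0) (nat_lit 0) (nat_lit 0) (nat_lit 0x78e27fff1e) (nat_lit 3492537048)]
noncomputable def e47_17 : List Rx := [
  Rx.mk (nat_lit 5) (nat_lit 5) (nat_lit 0) (nat_lit 0) (nat_lit 1) (nat_lit 181) (nat_lit 351) r4_181 r9_351 (nat_lit 0) (nat_lit 0) (nat_lit 0) (nat_lit 0x6d142270c6) (nat_lit 9287608824),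
  Rx.mk (nat_lit 21) (nat_lit 5) (nat_lit 2) (nat_lit 0) (nat_lit 3) (nat_lit 184) (nat_lit 354) r4_184 r9_354 (nat_lit 0) (nat_lit 0) (nat_lit 0) (nat_lit 0x7db5be2668) (nat_lit 1124087328),
  Rx.mk (nat_lit 69) (nat_lit 5) (nat_lit 0) (nat_lit 1) (nat_lit 5) (nat_lit 182) (nat_lit 352) r4_182 r9_352 (nat_lit 0) (nat_lit 0) (nat_lit 0) (nat_lit 0x7d99734b32) (nat_lit 1178335080),
  Rx.mk (nat_lit 85) (nat_lit 5) (nat_lit 2) (nat_lit 1) (nat_lit 7) (nat_lit 185) (nat_lit 355) r4_185 r9_355 (nat_lit 0) (nat_lit 0) (nat_lit 0) (nat_lit 0x7e4eb4f662) (nat_lit 830794536),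
  Rx.mk (nat_lit 197) (nat_lit 5) (nat_lit 0) (nat_lit 3) (nat_lit 5) (nat_lit 183) (nat_lit 353) r4_183 r9_353 (nat_lit 0) (nat_lit 0) (nat_lit 0) (nat_lit 0x7cf5efa410) (nat_lit 1491856704),
  Rx.mk (nat_lit 209) (nat_lit 1) (nat_lit 2) (nat_lit 3) (nat_lit 7) (nat_lit 187) (nat_lit 350) r4_187 r9_350 (nat_lit 0) (nat_lit 0) (nat_lit 0) (nat_lit 0x7de10331ec) (nat_lit 1041122160),
  Rx.mk (nat_lit 213) (nat_lit 5) (nat_lit 2) (nat_lit 3) (nat_lit 7) (nat_lit 186) (nat_lit 356) r4_186 r9_356 (nat_lit 0) (nat_lit 0) (nat_lit 0) (nat_lit 0x7e49616ba0) (nat_lit 841007232)]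
noncomputable def e47_18 : List Rx := [
  Rx.mk (nat_lit 197) (nat_lit 5) (nat_lit 0) (nat_lit 3) (nat_lit 5) (nat_lit 226) (nat_lit 358) r4_226 r10_358 (nat_lit 0) (nat_lit 0) (nat_lit 0) (nat_lit 0x7adab11a14) (nat_lit 2525801616),
  Rx.mk (nat_lit 209) (nat_lit 1) (nat_lit 2) (nat_lit 3) (nat_lit 7) (nat_lit 228) (nat_lit 357) r4_228 r10_357 (nat_lit 0) (nat_lit 0) (nat_lit 0) (nat_lit 0x7e80048138) (nat_lit 736246368),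
  Rx.mk (nat_lit 213) (nat_lit 5) (nat_lit 2) (nat_lit 3) (nat_lit 7) (nat_lit 227) (nat_lit 359) r4_227 r10_359 (nat_lit 0) (nat_lit 0) (nat_lit 0) (nat_lit 0x7e63204f98) (nat_lit 791642592)]
noncomputable def e47_19 : List Rx := [
  Rx.mk (nat_lit 77) (nat_lit 5) (nat_lit 1) (nat_lit 1) (nat_lit 7) (nat_lit 308) (nat_lit 306) r4_308 r8_306 (nat_lit 0) (nat_lit 0) (nat_lit 0) (nat_lit 0x7de5612c08) (nat_lit 1032748704),
  Rx.mk (nat_lit 333) (nat_lit 5) (nat_lit 1) (nat_lit 5) (nat_lit 7) (nat_lit 307) (nat_lit 305) r4_307 r8_305 (nat_lit 0) (nat_lit 0) (nat_lit 0) (nat_lit 0x7dd68859a4) (nat_lit 1061216208)]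
noncomputable def e47_20 : List Rx := [
  Rx.mk (nat_lit 268) (nat_lit 4) (nat_lit 1) (nat_lit 4) (nat_lit 2) (nat_lit 262) (nat_lit 174) r4_262 r0_174 (nat_lit 0) (nat_lit 0) (nat_lit 0) (nat_lit 0x67e873f0da) (nat_lit 11825630856),
  Rx.mk (nat_lit 269) (nat_lit 5) (nat_lit 1) (nat_lit 4) (nat_lit 3) (nat_lit 263) (nat_lit 175) r4_263 r0_175 (nat_lit 0) (nat_lit 0) (nat_lit 0) (nat_lit 0x7e1f5bcc24) (nat_lit 921579984),
  Rx.mk (nat_lit 270) (nat_lit 6) (nat_lit 1) (nat_lit 4) (nat_lit 3) (nat_lit 264) (nat_lit 176) r4_264 r0_176 (nat_lit 0) (nat_lit 0) (nat_lit 0) (nat_lit 0x75d49f6036) (nat_lit 4991705784)]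
noncomputable def e47_21 : List Rx := [
  Rx.mk (nat_lit 268) (nat_lit 4) (nat_lit 1) (nat_lit 4) (nat_lit 2) (nat_lit 281) (nat_lit 187) r4_281 r1_187 (nat_lit 0) (nat_lit 0) (nat_lit 0) (nat_lit 0x680620b5f0) (nat_lit 11768732352),
  Rx.mk (nat_lit 269) (nat_lit 5) (nat_lit 1) (nat_lit 4) (nat_lit 3) (nat_lit 282) (nat_lit 188) r4_282 r1_188 (nat_lit 0) (nat_lit 0) (nat_lit 0) (nat_lit 0x7cc75d8d60) (nat_lit 1581151104),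
  Rx.mk (nat_lit 270) (nat_lit 6) (nat_lit 1) (nat_lit 4) (nat_lit 3) (nat_lit 283) (nat_lit 189) r4_283 r1_189 (nat_lit 0) (nat_lit 0) (nat_lit 0) (nat_lit 0x79612a93f6) (nat_lit 3249667512),
  Rx.mk (nat_lit 302) (nat_lit 6) (nat_lit 5) (nat_lit 4) (nat_lit 3) (nat_lit 279) (nat_lit 190) r4_279 r1_190 (nat_lit 0) (nat_lit 0) (nat_lit 0) (nat_lit 0x7deba2c7e8) (nat_lit 1020752928),
  Rx.mk (nat_lit 430) (nat_lit 6) (nat_lit 5) (nat_lit 6) (nat_lit 7) (nat_lit 280) (nat_lit 191) r4_280 r1_191 (nat_lit 0) (nat_lit 0) (nat_lit 0) (nat_lit 0x7965ed07ca) (nat_lit 3240541512)]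
noncomputable def e47_22 : List Rx := [
  Rx.mk (nat_lit 268) (nat_lit 4) (nat_lit 1) (nat_lit 4) (nat_lit 2) (nat_lit 349) (nat_lit 161) r4_349 r4_161 (nat_lit 0) (nat_lit 0) (nat_lit 0) (nat_lit 0x73692e19b6) (nat_lit 6179422392),
  Rx.mk (nat_lit 269) (nat_lit 5) (nat_lit 1) (nat_lit 4) (nat_lit 3) (nat_lit 350) (nat_lit 162) r4_350 r4_162 (nat_lit 0) (nat_lit 0) (nat_lit 0) (nat_lit 0x7e146cbb20) (nat_lit 942544512),
  Rx.mk (nat_lit 270) (nat_lit 6) (nat_lit 1) (nat_lit 4) (nat_lit 3) (nat_lit 351) (nat_lit 163) r4_351 r4_163 (nat_lit 0) (nat_lit 0) (nat_lit 0) (nat_lit 0x7e740fc090) (nat_lit 759170880),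
  Rx.mk (nat_lit 460) (nat_lit 4) (nat_lit 1) (nat_lit 7) (nat_lit 6) (nat_lit 352) (nat_lit 164) r4_352 r4_164 (nat_lit 0) (nat_lit 0) (nat_lit 0) (nat_lit 0x7e9dbce594) (nat_lit 679260816),
  Rx.mk (nat_lit 461) (nat_lit 5) (nat_lit 1) (nat_lit 7) (nat_lit 7) (nat_lit 353) (nat_lit 165) r4_353 r4_165 (nat_lit 0) (nat_lit 0) (nat_lit 0) (nat_lit 0x7e61448d56) (nat_lit 795205944),
  Rx.mk (nat_lit 462) (nat_lit 6) (nat_lit 1) (nat_lit 7) (nat_lit 7) (nat_lit 354) (nat_lit 166) r4_354 r4_166 (nat_lit 0) (nat_lit 0) (nat_lit 0) (nat_lit 0x7e69115082) (nat_lit 780250536)]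
noncomputable def e47_23 : List Rx := [
  Rx.mk (nat_lit 268) (nat_lit 4) (nat_lit 1) (nat_lit 4) (nat_lit 2) (nat_lit 265) (nat_lit 416) r4_265 r6_416 (nat_lit 0) (nat_lit 0) (nat_lit 0) (nat_lit 0x735924da5a) (nat_lit 6210169992),
  Rx.mk (nat_lit 269) (nat_lit 5) (nat_lit 1) (nat_lit 4) (nat_lit 3) (nat_lit 266) (nat_lit 418) r4_266 r6_418 (nat_lit 0) (nat_lit 0) (nat_lit 0) (nat_lit 0x7db466bbe0) (nat_lit 1126659456),
  Rx.mk (nat_lit 270) (nat_lit 6) (nat_lit 1) (nat_lit 4) (nat_lit 3) (nat_lit 267) (nat_lit 420) r4_267 r6_420 (nat_lit 0) (nat_lit 0) (nat_lit 0) (nat_lit 0x7d7cbb56ce) (nat_lit 1233399960),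
  Rx.mk (nat_lit 332) (nat_lit 4) (nat_lit 1) (nat_lit 5) (nat_lit 6) (nat_lit 268) (nat_lit 417) r4_268 r6_417 (nat_lit 0) (nat_lit 0) (nat_lit 0) (nat_lit 0x7db5f0c33e) (nat_lit 1123708248),
  Rx.mk (nat_lit 333) (nat_lit 5) (nat_lit 1) (nat_lit 5) (nat_lit 7) (nat_lit 269) (nat_lit 419) r4_269 r6_419 (nat_lit 0) (nat_lit 0) (nat_lit 0) (nat_lit 0x7dde701b20) (nat_lit 1046058624),
  Rx.mk (nat_lit 334) (nat_lit 6) (nat_lit 1) (nat_lit 5) (nat_lit 7) (nat_lit 270) (nat_lit 421) r4_270 r6_421 (nat_lit 0) (nat_lit 0) (nat_lit 0) (nat_lit 0x7deda7c796) (nat_lit 1016880696)]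
noncomputable def e47_24 : List Rx := [
  Rx.mk (nat_lit 268) (nat_lit 4) (nat_lit 1) (nat_lit 4) (nat_lit 2) (nat_lit 287) (nat_lit 341) r4_287 r7_341 (nat_lit 0) (nat_lit 0) (nat_lit 0) (nat_lit 0x5c57ff43b6) (nat_lit 17501997240),
  Rx.mk (nat_lit 269) (nat_lit 5) (nat_lit 1) (nat_lit 4) (nat_lit 3) (nat_lit 288) (nat_lit 343) r4_288 r7_343 (nat_lit 0) (nat_lit 0) (nat_lit 0) (nat_lit 0x7d836d6ba6) (nat_lit 1220561784),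
  Rx.mk (nat_lit 270) (nat_lit 6) (nat_lit 1) (nat_lit 4) (nat_lit 3) (nat_lit 289) (nat_lit 345) r4_289 r7_345 (nat_lit 0) (nat_lit 0) (nat_lit 0) (nat_lit 0x7d43fd22ea) (nat_lit 1342198728),
  Rx.mk (nat_lit 302) (nat_lit 6) (nat_lit 5) (nat_lit 4) (nat_lit 3) (nat_lit 284) (nat_lit 338) r4_284 r7_338 (nat_lit 0) (nat_lit 0) (nat_lit 0) (nat_lit 0x7d63fb62e6) (nat_lit 1280855160),
  Rx.mk (nat_lit 332) (nat_lit 4) (nat_lit 1) (nat_lit 5) (nat_lit 6) (nat_lit 290) (nat_lit 342) r4_290 r7_342 (nat_lit 0) (nat_lit 0) (nat_lit 0) (nat_lit 0x7d03f443b8) (nat_lit 1464978528),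
  Rx.mk (nat_lit 333) (nat_lit 5) (nat_lit 1) (nat_lit 5) (nat_lit 7) (nat_lit 291) (nat_lit 344) r4_291 r7_344 (nat_lit 0) (nat_lit 0) (nat_lit 0) (nat_lit 0x7df0f9b274) (nat_lit 1010514960),
  Rx.mk (nat_lit 334) (nat_lit 6) (nat_lit 1) (nat_lit 5) (nat_lit 7) (nat_lit 292) (nat_lit 346) r4_292 r7_346 (nat_lit 0) (nat_lit 0) (nat_lit 0) (nat_lit 0x7de07e1a3e) (nat_lit 1042119000),
  Rx.mk (nat_lit 366) (nat_lit 6) (nat_lit 5) (nat_lit 5) (nat_lit 7) (nat_lit 285) (nat_lit 339) r4_285 r7_339 (nat_lit 0) (nat_lit 0) (nat_lit 0) (nat_lit 0x7de0ae173e) (nat_lit 1041759576),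
  Rx.mk (nat_lit 430) (nat_lit 6) (nat_lit 5) (nat_lit 6) (nat_lit 7) (nat_lit 286) (nat_lit 340) r4_286 r7_340 (nat_lit 0) (nat_lit 0) (nat_lit 0) (nat_lit 0x7dec75dab6) (nat_lit 1019172024)]
noncomputable def e47_25 : List Rx := [
  Rx.mk (nat_lit 332) (nat_lit 4) (nat_lit 1) (nat_lit 5) (nat_lit 6) (nat_lit 304) (nat_lit 181) r4_304 r7_181 (nat_lit 0) (nat_lit 0) (nat_lit 0) (nat_lit 0x7de112f0f0) (nat_lit 1041004224),
  Rx.mk (nat_lit 333) (nat_lit 5) (nat_lit 1) (nat_lit 5) (nat_lit 7) (nat_lit 305) (nat_lit 182) r4_305 r7_182 (nat_lit 0) (nat_lit 0) (nat_lit 0) (nat_lit 0x7df79428c6) (nat_lit 997853688),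
  Rx.mk (nat_lit 334) (nat_lit 6) (nat_lit 1) (nat_lit 5) (nat_lit 7) (nat_lit 306) (nat_lit 183) r4_306 r7_183 (nat_lit 0) (nat_lit 0) (nat_lit 0) (nat_lit 0x7df6d07502) (nat_lit 999319464)]
noncomputable def e47_26 : List Rx := [
  Rx.mk (nat_lit 268) (nat_lit 4) (nat_lit 1) (nat_lit 4) (nat_lit 2) (nat_lit 355) (nat_lit 339) r4_355 r9_339 (nat_lit 0) (nat_lit 0) (nat_lit 0) (nat_lit 0x79366ebfde) (nat_lit 3331604952),
  Rx.mk (nat_lit 269) (nat_lit 5) (nat_lit 1) (nat_lit 4) (nat_lit 3) (nat_lit 356) (nat_lit 342) r4_356 r9_342 (nat_lit 0) (nat_lit 0) (nat_lit 0) (nat_lit 0x7dac309f4a) (nat_lit 1142403912),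
  Rx.mk (nat_lit 270) (nat_lit 6) (nat_lit 1) (nat_lit 4) (nat_lit 3) (nat_lit 357) (nat_lit 345) r4_357 r9_345 (nat_lit 0) (nat_lit 0) (nat_lit 0) (nat_lit 0x7dca67bbba) (nat_lit 1084469256),
  Rx.mk (nat_lit 332) (nat_lit 4) (nat_lit 1) (nat_lit 5) (nat_lit 6) (nat_lit 358) (nat_lit 340) r4_358 r9_340 (nat_lit 0) (nat_lit 0) (nat_lit 0) (nat_lit 0x7ddad0951c) (nat_lit 1053005616),
  Rx.mk (nat_lit 333) (nat_lit 5) (nat_lit 1) (nat_lit 5) (nat_lit 7) (nat_lit 359) (nat_lit 343) r4_359 r9_343 (nat_lit 0) (nat_lit 0) (nat_lit 0) (nat_lit 0x7de7bc6652) (nat_lit 1028230632),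
  Rx.mk (nat_lit 334) (nat_lit 6) (nat_lit 1) (nat_lit 5) (nat_lit 7) (nat_lit 360) (nat_lit 346) r4_360 r9_346 (nat_lit 0) (nat_lit 0) (nat_lit 0) (nat_lit 0x7dd0b316fe) (nat_lit 1072400472),
  Rx.mk (nat_lit 460) (nat_lit 4) (nat_lit 1) (nat_lit 7) (nat_lit 6) (nat_lit 361) (nat_lit 341) r4_361 r9_341 (nat_lit 0) (nat_lit 0) (nat_lit 0) (nat_lit 0x7dbf61cc24) (nat_lit 1105605072),
  Rx.mk (nat_lit 461) (nat_lit 5) (nat_lit 1) (nat_lit 7) (nat_lit 7) (nat_lit 362) (nat_lit 344) r4_362 r9_344 (nat_lit 0) (nat_lit 0) (nat_lit 0) (nat_lit 0x7de1a88796) (nat_lit 1039883832)]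
noncomputable def e47_27 : List Rx := [
  Rx.mk (nat_lit 460) (nat_lit 4) (nat_lit 1) (nat_lit 7) (nat_lit 6) (nat_lit 363) (nat_lit 353) r4_363 r10_353 (nat_lit 0) (nat_lit 0) (nat_lit 0) (nat_lit 0x7e35dac41e) (nat_lit 878446296),
  Rx.mk (nat_lit 461) (nat_lit 5) (nat_lit 1) (nat_lit 7) (nat_lit 7) (nat_lit 364) (nat_lit 354) r4_364 r10_354 (nat_lit 0) (nat_lit 0) (nat_lit 0) (nat_lit 0x7df12eef20) (nat_lit 1010116224),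
  Rx.mk (nat_lit 462) (nat_lit 6) (nat_lit 1) (nat_lit 7) (nat_lit 7) (nat_lit 365) (nat_lit 355) r4_365 r10_355 (nat_lit 0) (nat_lit 0) (nat_lit 0) (nat_lit 0x7df06e3b2c) (nat_lit 1011559536)]
noncomputable def e47_28 : List Rx := [
  Rx.mk (nat_lit 5) (nat_lit 5) (nat_lit 0) (nat_lit 0) (nat_lit 1) (nat_lit 188) (nat_lit 46) r4_188 r10_46 (nat_lit 0) (nat_lit 0) (nat_lit 0) (nat_lit 0x7d74889a02) (nat_lit 1249119144),
  Rx.mk (nat_lit 21) (nat_lit 5) (nat_lit 2) (nat_lit 0) (nat_lit 3) (nat_lit 191) (nat_lit 47) r4_191 r10_47 (nat_lit 0) (nat_lit 0) (nat_lit 0) (nat_lit 0x7e25a6c76e) (nat_lit 909514008),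
  Rx.mk (nat_lit 69) (nat_lit 5) (nat_lit 0) (nat_lit 1) (nat_lit 5) (nat_lit 189) (nat_lit 48) r4_189 r10_48 (nat_lit 0) (nat_lit 0) (nat_lit 0) (nat_lit 0x7de345adc2) (nat_lit 1036789416),
  Rx.mk (nat_lit 85) (nat_lit 5) (nat_lit 2) (nat_lit 1) (nat_lit 7) (nat_lit 192) (nat_lit 49) r4_192 r10_49 (nat_lit 0) (nat_lit 0) (nat_lit 0) (nat_lit 0x7df971caea) (nat_lit 994276296),
  Rx.mk (nat_lit 197) (nat_lit 5) (nat_lit 0) (nat_lit 3) (nat_lit 5) (nat_lit 190) (nat_lit 50) r4_190 r10_50 (nat_lit 0) (nat_lit 0) (nat_lit 0) (nat_lit 0x7df171aaf4) (nat_lit 1009616400),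
  Rx.mk (nat_lit 213) (nat_lit 5) (nat_lit 2) (nat_lit 3) (nat_lit 7) (nat_lit 193) (nat_lit 52) r4_193 r10_52 (nat_lit 0) (nat_lit 0) (nat_lit 0) (nat_lit 0x7df8e77390) (nat_lit 995312448),
  Rx.mk (nat_lit 221) (nat_lit 5) (nat_lit 3) (nat_lit 3) (nat_lit 7) (nat_lit 194) (nat_lit 51) r4_194 r10_51 (nat_lit 0) (nat_lit 0) (nat_lit 0) (nat_lit 0x7e002a9f56) (nat_lit 981387576)]
noncomputable def e47_29 : List Rx := [
  Rx.mk (nat_lit 199) (nat_lit 7) (nat_lit 0) (nat_lit 3) (nat_lit 5) (nat_lit 233) (nat_lit 135) r4_233 r5_135 (nat_lit 0) (nat_lit 0) (nat_lit 0) (nat_lit 0x7e5fadc6c4) (nat_lit 798252624),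
  Rx.mk (nat_lit 215) (nat_lit 7) (nat_lit 2) (nat_lit 3) (nat_lit 7) (nat_lit 234) (nat_lit 136) r4_234 r5_136 (nat_lit 0) (nat_lit 0) (nat_lit 0) (nat_lit 0x7ee10430dc) (nat_lit 550261296),
  Rx.mk (nat_lit 284) (nat_lit 4) (nat_lit 3) (nat_lit 4) (nat_lit 2) (nat_lit 235) (nat_lit 128) r4_235 r5_128 (nat_lit 0) (nat_lit 0) (nat_lit 0) (nat_lit 0x729cb2c238) (nat_lit 6571495008),
  Rx.mk (nat_lit 285) (nat_lit 5) (nat_lit 3) (nat_lit 4) (nat_lit 3) (nat_lit 236) (nat_lit 131) r4_236 r5_131 (nat_lit 0) (nat_lit 0) (nat_lit 0) (nat_lit 0x7d7961ec68) (nat_lit 1239821856),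
  Rx.mk (nat_lit 286) (nat_lit 6) (nat_lit 3) (nat_lit 4) (nat_lit 3) (nat_lit 237) (nat_lit 137) r4_237 r5_137 (nat_lit 0) (nat_lit 0) (nat_lit 0) (nat_lit 0x7e05ce051a) (nat_lit 970576776),
  Rx.mk (nat_lit 452) (nat_lit 4) (nat_lit 0) (nat_lit 7) (nat_lit 4) (nat_lit 229) (nat_lit 129) r4_229 r5_129 (nat_lit 0) (nat_lit 0) (nat_lit 0) (nat_lit 0x71fe96849a) (nat_lit 6874655112),
  Rx.mk (nat_lit 453) (nat_lit 5) (nat_lit 0) (nat_lit 7) (nat_lit 5) (nat_lit 230) (nat_lit 132) r4_230 r5_132 (nat_lit 0) (nat_lit 0) (nat_lit 0) (nat_lit 0x7e314decf0) (nat_lit 887170752),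
  Rx.mk (nat_lit 454) (nat_lit 6) (nat_lit 0) (nat_lit 7) (nat_lit 5) (nat_lit 231) (nat_lit 138) r4_231 r5_138 (nat_lit 0) (nat_lit 0) (nat_lit 0) (nat_lit 0x7e50b6f640) (nat_lit 826944768),
  Rx.mk (nat_lit 455) (nat_lit 7) (nat_lit 0) (nat_lit 7) (nat_lit 5) (nat_lit 232) (nat_lit 134) r4_232 r5_134 (nat_lit 0) (nat_lit 0) (nat_lit 0) (nat_lit 0x7d90cfb574) (nat_lit 1194899472),
  Rx.mk (nat_lit 476) (nat_lit 4) (nat_lit 3) (nat_lit 7) (nat_lit 6) (nat_lit 238) (nat_lit 130) r4_238 r5_130 (nat_lit 0) (nat_lit 0) (nat_lit 0) (nat_lit 0x7e7092b864) (nat_lit 765859536),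
  Rx.mk (nat_lit 477) (nat_lit 5) (nat_lit 3) (nat_lit 7) (nat_lit 7) (nat_lit 239) (nat_lit 133) r4_239 r5_133 (nat_lit 0) (nat_lit 0) (nat_lit 0) (nat_lit 0x7e3b0f90cc) (nat_lit 868463856),
  Rx.mk (nat_lit 478) (nat_lit 6) (nat_lit 3) (nat_lit 7) (nat_lit 7) (nat_lit 240) (nat_lit 139) r4_240 r5_139 (nat_lit 0) (nat_lit 0) (nat_lit 0) (nat_lit 0x7e1ae6f376) (nat_lit 930124728)]
noncomputable def e47_30 : List Rx := [
  Rx.mk (nat_lit 260) (nat_lit 4) (nat_lit 0) (nat_lit 4) (nat_lit 0) (nat_lit 381) (nat_lit 191) r4_381 r10_191 (nat_lit 0) (nat_lit 0) (nat_lit 0) (nat_lit 0x38e6b45bd8) (nat_lit 34899093216),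
  Rx.mk (nat_lit 261) (nat_lit 5) (nat_lit 0) (nat_lit 4) (nat_lit 1) (nat_lit 382) (nat_lit 194) r4_382 r10_194 (nat_lit 0) (nat_lit 0) (nat_lit 0) (nat_lit 0x7d28250088) (nat_lit 1395587232),
  Rx.mk (nat_lit 262) (nat_lit 6) (nat_lit 0) (nat_lit 4) (nat_lit 1) (nat_lit 383) (nat_lit 196) r4_383 r10_196 (nat_lit 0) (nat_lit 0) (nat_lit 0) (nat_lit 0x7d70d954fa) (nat_lit 1256184072),
  Rx.mk (nat_lit 268) (nat_lit 4) (nat_lit 1) (nat_lit 4) (nat_lit 2) (nat_lit 390) (nat_lit 192) r4_390 r10_192 (nat_lit 0) (nat_lit 0) (nat_lit 0) (nat_lit 0x7c966bbcae) (nat_lit 1674997272),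
  Rx.mk (nat_lit 270) (nat_lit 6) (nat_lit 1) (nat_lit 4) (nat_lit 3) (nat_lit 391) (nat_lit 197) r4_391 r10_197 (nat_lit 0) (nat_lit 0) (nat_lit 0) (nat_lit 0x7de4ce9532) (nat_lit 1033846632),
  Rx.mk (nat_lit 284) (nat_lit 4) (nat_lit 3) (nat_lit 4) (nat_lit 2) (nat_lit 396) (nat_lit 193) r4_396 r10_193 (nat_lit 0) (nat_lit 0) (nat_lit 0) (nat_lit 0x7ccea598d8) (nat_lit 1567189728),
  Rx.mk (nat_lit 285) (nat_lit 5) (nat_lit 3) (nat_lit 4) (nat_lit 3) (nat_lit 397) (nat_lit 195) r4_397 r10_195 (nat_lit 0) (nat_lit 0) (nat_lit 0) (nat_lit 0x7de473dade) (nat_lit 1034526168),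
  Rx.mk (nat_lit 286) (nat_lit 6) (nat_lit 3) (nat_lit 4) (nat_lit 3) (nat_lit 398) (nat_lit 198) r4_398 r10_198 (nat_lit 0) (nat_lit 0) (nat_lit 0) (nat_lit 0x7dcd522d10) (nat_lit 1078878528),
  Rx.mk (nat_lit 324) (nat_lit 4) (nat_lit 0) (nat_lit 5) (nat_lit 4) (nat_lit 384) (nat_lit 199) r4_384 r10_199 (nat_lit 0) (nat_lit 0) (nat_lit 0) (nat_lit 0x7ba0e835dc) (nat_lit 2145744432),
  Rx.mk (nat_lit 325) (nat_lit 5) (nat_lit 0) (nat_lit 5) (nat_lit 5) (nat_lit 385) (nat_lit 202) r4_385 r10_202 (nat_lit 0) (nat_lit 0) (nat_lit 0) (nat_lit 0x7dce487daa) (nat_lit 1077033672),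
  Rx.mk (nat_lit 326) (nat_lit 6) (nat_lit 0) (nat_lit 5) (nat_lit 5) (nat_lit 386) (nat_lit 204) r4_386 r10_204 (nat_lit 0) (nat_lit 0) (nat_lit 0) (nat_lit 0x7df210a104) (nat_lit 1008425808),
  Rx.mk (nat_lit 332) (nat_lit 4) (nat_lit 1) (nat_lit 5) (nat_lit 6) (nat_lit 392) (nat_lit 200) r4_392 r10_200 (nat_lit 0) (nat_lit 0) (nat_lit 0) (nat_lit 0x7ded13b0d8) (nat_lit 1017989856),
  Rx.mk (nat_lit 334) (nat_lit 6) (nat_lit 1) (nat_lit 5) (nat_lit 7) (nat_lit 393) (nat_lit 205) r4_393 r10_205 (nat_lit 0) (nat_lit 0) (nat_lit 0) (nat_lit 0x7df01c204e) (nat_lit 1012174488),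
  Rx.mk (nat_lit 348) (nat_lit 4) (nat_lit 3) (nat_lit 5) (nat_lit 6) (nat_lit 399) (nat_lit 201) r4_399 r10_201 (nat_lit 0) (nat_lit 0) (nat_lit 0) (nat_lit 0x7dd7e563d2) (nat_lit 1058601960),
  Rx.mk (nat_lit 349) (nat_lit 5) (nat_lit 3) (nat_lit 5) (nat_lit 7) (nat_lit 400) (nat_lit 203) r4_400 r10_203 (nat_lit 0) (nat_lit 0) (nat_lit 0) (nat_lit 0x7df3488d84) (nat_lit 1006089552),
  Rx.mk (nat_lit 350) (nat_lit 6) (nat_lit 3) (nat_lit 5) (nat_lit 7) (nat_lit 401) (nat_lit 206) r4_401 r10_206 (nat_lit 0) (nat_lit 0) (nat_lit 0) (nat_lit 0x7df70fd10c) (nat_lit 998844912),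
  Rx.mk (nat_lit 452) (nat_lit 4) (nat_lit 0) (nat_lit 7) (nat_lit 4) (nat_lit 387) (nat_lit 207) r4_387 r10_207 (nat_lit 0) (nat_lit 0) (nat_lit 0) (nat_lit 0x7c3386eb5e) (nat_lit 1864615896),
  Rx.mk (nat_lit 453) (nat_lit 5) (nat_lit 0) (nat_lit 7) (nat_lit 5) (nat_lit 388) (nat_lit 209) r4_388 r10_209 (nat_lit 0) (nat_lit 0) (nat_lit 0) (nat_lit 0x7dcf0cf162) (nat_lit 1075562280),
  Rx.mk (nat_lit 455) (nat_lit 7) (nat_lit 0) (nat_lit 7) (nat_lit 5) (nat_lit 389) (nat_lit 210) r4_389 r10_210 (nat_lit 0) (nat_lit 0) (nat_lit 0) (nat_lit 0x7df1be8626) (nat_lit 1009040760),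
  Rx.mk (nat_lit 460) (nat_lit 4) (nat_lit 1) (nat_lit 7) (nat_lit 6) (nat_lit 394) (nat_lit 208) r4_394 r10_208 (nat_lit 0) (nat_lit 0) (nat_lit 0) (nat_lit 0x7de439be80) (nat_lit 1034961408),
  Rx.mk (nat_lit 463) (nat_lit 7) (nat_lit 1) (nat_lit 7) (nat_lit 7) (nat_lit 395) (nat_lit 211) r4_395 r10_211 (nat_lit 0) (nat_lit 0) (nat_lit 0) (nat_lit 0x7df5724ae6) (nat_lit 1001942136)]
noncomputable def e47_31 : List Rx := [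
  Rx.mk (nat_lit 196) (nat_lit 4) (nat_lit 0) (nat_lit 3) (nat_lit 4) (nat_lit 78) (nat_lit 20) r4_78 r5_20 (nat_lit 0) (nat_lit 0) (nat_lit 0) (nat_lit 0x73b85e8660) (nat_lit 6027585408),
  Rx.mk (nat_lit 197) (nat_lit 5) (nat_lit 0) (nat_lit 3) (nat_lit 5) (nat_lit 79) (nat_lit 21) r4_79 r5_21 (nat_lit 0) (nat_lit 0) (nat_lit 0) (nat_lit 0x7e786b1ad6) (nat_lit 750817080),
  Rx.mk (nat_lit 199) (nat_lit 7) (nat_lit 0) (nat_lit 3) (nat_lit 5) (nat_lit 80) (nat_lit 22) r4_80 r5_22 (nat_lit 0) (nat_lit 0) (nat_lit 0) (nat_lit 0x7cf80582b0) (nat_lit 1487858112),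
  Rx.mk (nat_lit 212) (nat_lit 4) (nat_lit 2) (nat_lit 3) (nat_lit 6) (nat_lit 81) (nat_lit 28) r4_81 r5_28 (nat_lit 0) (nat_lit 0) (nat_lit 0) (nat_lit 0x725645c94e) (nat_lit 6706528920),
  Rx.mk (nat_lit 213) (nat_lit 5) (nat_lit 2) (nat_lit 3) (nat_lit 7) (nat_lit 82) (nat_lit 29) r4_82 r5_29 (nat_lit 0) (nat_lit 0) (nat_lit 0) (nat_lit 0x7efcc334d0) (nat_lit 497060928),
  Rx.mk (nat_lit 215) (nat_lit 7) (nat_lit 2) (nat_lit 3) (nat_lit 7) (nat_lit 83) (nat_lit 30) r4_83 r5_30 (nat_lit 0) (nat_lit 0) (nat_lit 0) (nat_lit 0x7ee231fdfe) (nat_lit 548000856),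
  Rx.mk (nat_lit 220) (nat_lit 4) (nat_lit 3) (nat_lit 3) (nat_lit 6) (nat_lit 87) (nat_lit 23) r4_87 r5_23 (nat_lit 0) (nat_lit 0) (nat_lit 0) (nat_lit 0x7dc900f228) (nat_lit 1087156512),
  Rx.mk (nat_lit 221) (nat_lit 5) (nat_lit 3) (nat_lit 3) (nat_lit 7) (nat_lit 88) (nat_lit 24) r4_88 r5_24 (nat_lit 0) (nat_lit 0) (nat_lit 0) (nat_lit 0x7dda26bfba) (nat_lit 1054277640),
  Rx.mk (nat_lit 476) (nat_lit 4) (nat_lit 3) (nat_lit 7) (nat_lit 6) (nat_lit 84) (nat_lit 25) r4_84 r5_25 (nat_lit 0) (nat_lit 0) (nat_lit 0) (nat_lit 0x7e271210b8) (nat_lit 906793056),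
  Rx.mk (nat_lit 477) (nat_lit 5) (nat_lit 3) (nat_lit 7) (nat_lit 7) (nat_lit 85) (nat_lit 26) r4_85 r5_26 (nat_lit 0) (nat_lit 0) (nat_lit 0) (nat_lit 0x7e3b9e07e4) (nat_lit 867396816),
  Rx.mk (nat_lit 478) (nat_lit 6) (nat_lit 3) (nat_lit 7) (nat_lit 7) (nat_lit 86) (nat_lit 27) r4_86 r5_27 (nat_lit 0) (nat_lit 0) (nat_lit 0) (nat_lit 0x7e2a2b5f20) (nat_lit 900851328)]
noncomputable def e47_32 : List Rx := [
  Rx.mk (nat_lit 196) (nat_lit 4) (nat_lit 0) (nat_lit 3) (nat_lit 4) (nat_lit 244) (nat_lit 411) r4_244 r11_411 (nat_lit 0) (nat_lit 0) (nat_lit 0) (nat_lit 0x6bf3fab462) (nat_lit 9840116520),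
  Rx.mk (nat_lit 197) (nat_lit 5) (nat_lit 0) (nat_lit 3) (nat_lit 5) (nat_lit 245) (nat_lit 415) r4_245 r11_415 (nat_lit 0) (nat_lit 0) (nat_lit 0) (nat_lit 0x7e8d7ec986) (nat_lit 710404344),
  Rx.mk (nat_lit 199) (nat_lit 7) (nat_lit 0) (nat_lit 3) (nat_lit 5) (nat_lit 246) (nat_lit 419) r4_246 r11_419 (nat_lit 0) (nat_lit 0) (nat_lit 0) (nat_lit 0x7d40c096b6) (nat_lit 1348404408),
  Rx.mk (nat_lit 212) (nat_lit 4) (nat_lit 2) (nat_lit 3) (nat_lit 6) (nat_lit 247) (nat_lit 414) r4_247 r11_414 (nat_lit 0) (nat_lit 0) (nat_lit 0) (nat_lit 0x6e389aa81e) (nat_lit 8726828760),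
  Rx.mk (nat_lit 213) (nat_lit 5) (nat_lit 2) (nat_lit 3) (nat_lit 7) (nat_lit 248) (nat_lit 418) r4_248 r11_418 (nat_lit 0) (nat_lit 0) (nat_lit 0) (nat_lit 0x7ef9498c6e) (nat_lit 503724312),
  Rx.mk (nat_lit 215) (nat_lit 7) (nat_lit 2) (nat_lit 3) (nat_lit 7) (nat_lit 249) (nat_lit 420) r4_249 r11_420 (nat_lit 0) (nat_lit 0) (nat_lit 0) (nat_lit 0x7ea772ea2a) (nat_lit 660640968),
  Rx.mk (nat_lit 452) (nat_lit 4) (nat_lit 0) (nat_lit 7) (nat_lit 4) (nat_lit 241) (nat_lit 412) r4_241 r11_412 (nat_lit 0) (nat_lit 0) (nat_lit 0) (nat_lit 0x75f067639a) (nat_lit 4938438024),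
  Rx.mk (nat_lit 453) (nat_lit 5) (nat_lit 0) (nat_lit 7) (nat_lit 5) (nat_lit 242) (nat_lit 416) r4_242 r11_416 (nat_lit 0) (nat_lit 0) (nat_lit 0) (nat_lit 0x7e10d57498) (nat_lit 949429728),
  Rx.mk (nat_lit 454) (nat_lit 6) (nat_lit 0) (nat_lit 7) (nat_lit 5) (nat_lit 243) (nat_lit 421) r4_243 r11_421 (nat_lit 0) (nat_lit 0) (nat_lit 0) (nat_lit 0x7e356d4af6) (nat_lit 879266232),
  Rx.mk (nat_lit 476) (nat_lit 4) (nat_lit 3) (nat_lit 7) (nat_lit 6) (nat_lit 250) (nat_lit 413) r4_250 r11_413 (nat_lit 0) (nat_lit 0) (nat_lit 0) (nat_lit 0x7dda8599cc) (nat_lit 1053567216),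
  Rx.mk (nat_lit 477) (nat_lit 5) (nat_lit 3) (nat_lit 7) (nat_lit 7) (nat_lit 251) (nat_lit 417) r4_251 r11_417 (nat_lit 0) (nat_lit 0) (nat_lit 0) (nat_lit 0x7df52e0f2a) (nat_lit 1002453192),
  Rx.mk (nat_lit 478) (nat_lit 6) (nat_lit 3) (nat_lit 7) (nat_lit 7) (nat_lit 252) (nat_lit 422) r4_252 r11_422 (nat_lit 0) (nat_lit 0) (nat_lit 0) (nat_lit 0x7e1d7e2a00) (nat_lit 925157376)]
noncomputable def e47_33 : List Rx := [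
  Rx.mk (nat_lit 294) (nat_lit 6) (nat_lit 4) (nat_lit 4) (nat_lit 1) (nat_lit 93) (nat_lit 142) r4_93 r0_142 (nat_lit 0) (nat_lit 0) (nat_lit 0) (nat_lit 0x71b7297bb2) (nat_lit 7011606888),
  Rx.mk (nat_lit 318) (nat_lit 6) (nat_lit 7) (nat_lit 4) (nat_lit 3) (nat_lit 95) (nat_lit 143) r4_95 r0_143 (nat_lit 0) (nat_lit 0) (nat_lit 0) (nat_lit 0x7ac67fdd3c) (nat_lit 2564518320),
  Rx.mk (nat_lit 422) (nat_lit 6) (nat_lit 4) (nat_lit 6) (nat_lit 5) (nat_lit 94) (nat_lit 145) r4_94 r0_145 (nat_lit 0) (nat_lit 0) (nat_lit 0) (nat_lit 0x7bb2a1ba32) (nat_lit 2111759208),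
  Rx.mk (nat_lit 446) (nat_lit 6) (nat_lit 7) (nat_lit 6) (nat_lit 7) (nat_lit 96) (nat_lit 146) r4_96 r0_146 (nat_lit 0) (nat_lit 0) (nat_lit 0) (nat_lit 0x7e2f4f4cdc) (nat_lit 890995248),
  Rx.mk (nat_lit 510) (nat_lit 6) (nat_lit 7) (nat_lit 7) (nat_lit 7) (nat_lit 97) (nat_lit 144) r4_97 r0_144 (nat_lit 0) (nat_lit 0) (nat_lit 0) (nat_lit 0x7d94351f1a) (nat_lit 1188387720)]
noncomputable def e47_34 : List Rx := [
  Rx.mk (nat_lit 16) (nat_lit 0) (nat_lit 2) (nat_lit 0) (nat_lit 2) (nat_lit 8) (nat_lit 52) r4_8 r0_52 (nat_lit 0) (nat_lit 0) (nat_lit 0) (nat_lit 0x5b6197cb24) (nat_lit 17974451664),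
  Rx.mk (nat_lit 19) (nat_lit 3) (nat_lit 2) (nat_lit 0) (nat_lit 3) (nat_lit 9) (nat_lit 53) r4_9 r0_53 (nat_lit 0) (nat_lit 0) (nat_lit 0) (nat_lit 0x6d58b6a73e) (nat_lit 9156115800),
  Rx.mk (nat_lit 144) (nat_lit 0) (nat_lit 2) (nat_lit 2) (nat_lit 6) (nat_lit 10) (nat_lit 55) r4_10 r0_55 (nat_lit 0) (nat_lit 0) (nat_lit 0) (nat_lit 0x76957cf19c) (nat_lit 4621906224),
  Rx.mk (nat_lit 147) (nat_lit 3) (nat_lit 2) (nat_lit 2) (nat_lit 7) (nat_lit 11) (nat_lit 56) r4_11 r0_56 (nat_lit 0) (nat_lit 0) (nat_lit 0) (nat_lit 0x7dea5bdc58) (nat_lit 1023201504),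
  Rx.mk (nat_lit 176) (nat_lit 0) (nat_lit 6) (nat_lit 2) (nat_lit 6) (nat_lit 3) (nat_lit 62) r4_3 r0_62 (nat_lit 0) (nat_lit 0) (nat_lit 0) (nat_lit 0x71ae0a8daa) (nat_lit 7029095112),
  Rx.mk (nat_lit 178) (nat_lit 2) (nat_lit 6) (nat_lit 2) (nat_lit 7) (nat_lit 4) (nat_lit 63) r4_4 r0_63 (nat_lit 0) (nat_lit 0) (nat_lit 0) (nat_lit 0x7dd8cbf568) (nat_lit 1056875040),
  Rx.mk (nat_lit 211) (nat_lit 3) (nat_lit 2) (nat_lit 3) (nat_lit 7) (nat_lit 12) (nat_lit 54) r4_12 r0_54 (nat_lit 0) (nat_lit 0) (nat_lit 0) (nat_lit 0x75a4e5dbfe) (nat_lit 5083212888),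
  Rx.mk (nat_lit 318) (nat_lit 6) (nat_lit 7) (nat_lit 4) (nat_lit 3) (nat_lit 5) (nat_lit 59) r4_5 r0_59 (nat_lit 0) (nat_lit 0) (nat_lit 0) (nat_lit 0x73827b04ce) (nat_lit 6130911384),
  Rx.mk (nat_lit 418) (nat_lit 2) (nat_lit 4) (nat_lit 6) (nat_lit 5) (nat_lit 1) (nat_lit 57) r4_1 r0_57 (nat_lit 0) (nat_lit 0) (nat_lit 0) (nat_lit 0x79050af64c) (nat_lit 3426304752),
  Rx.mk (nat_lit 422) (nat_lit 6) (nat_lit 4) (nat_lit 6) (nat_lit 5) (nat_lit 0) (nat_lit 58) r4_0 r0_58 (nat_lit 0) (nat_lit 0) (nat_lit 0) (nat_lit 0x6075ec00cc) (nat_lit 15481206000),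
  Rx.mk (nat_lit 434) (nat_lit 2) (nat_lit 6) (nat_lit 6) (nat_lit 7) (nat_lit 2) (nat_lit 64) r4_2 r0_64 (nat_lit 0) (nat_lit 0) (nat_lit 0) (nat_lit 0x7d87d5e51a) (nat_lit 1212109704),
  Rx.mk (nat_lit 446) (nat_lit 6) (nat_lit 7) (nat_lit 6) (nat_lit 7) (nat_lit 6) (nat_lit 61) r4_6 r0_61 (nat_lit 0) (nat_lit 0) (nat_lit 0) (nat_lit 0x769aeeda78) (nat_lit 4611466080),
  Rx.mk (nat_lit 510) (nat_lit 6) (nat_lit 7) (nat_lit 7) (nat_lit 7) (nat_lit 7) (nat_lit 60) r4_7 r0_60 (nat_lit 0) (nat_lit 0) (nat_lit 0) (nat_lit 0x7dd9546ce0) (nat_lit 1055852928)]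
noncomputable def e47_35 : List Rx := [
  Rx.mk (nat_lit 176) (nat_lit 0) (nat_lit 6) (nat_lit 2) (nat_lit 6) (nat_lit 102) (nat_lit 180) r4_102 r6_180 (nat_lit 0) (nat_lit 0) (nat_lit 0) (nat_lit 0x7e14d85466) (nat_lit 941738616),
  Rx.mk (nat_lit 178) (nat_lit 2) (nat_lit 6) (nat_lit 2) (nat_lit 7) (nat_lit 103) (nat_lit 183) r4_103 r6_183 (nat_lit 0) (nat_lit 0) (nat_lit 0) (nat_lit 0x7dd10471e8) (nat_lit 1071791136),
  Rx.mk (nat_lit 294) (nat_lit 6) (nat_lit 4) (nat_lit 4) (nat_lit 1) (nat_lit 98) (nat_lit 175) r4_98 r6_175 (nat_lit 0) (nat_lit 0) (nat_lit 0) (nat_lit 0x666c24b74a) (nat_lit 12554834760),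
  Rx.mk (nat_lit 318) (nat_lit 6) (nat_lit 7) (nat_lit 4) (nat_lit 3) (nat_lit 104) (nat_lit 176) r4_104 r6_176 (nat_lit 0) (nat_lit 0) (nat_lit 0) (nat_lit 0x7d86242038) (nat_lit 1215358560),
  Rx.mk (nat_lit 418) (nat_lit 2) (nat_lit 4) (nat_lit 6) (nat_lit 5) (nat_lit 100) (nat_lit 181) r4_100 r6_181 (nat_lit 0) (nat_lit 0) (nat_lit 0) (nat_lit 0x7dd0537cf8) (nat_lit 1073116512),
  Rx.mk (nat_lit 422) (nat_lit 6) (nat_lit 4) (nat_lit 6) (nat_lit 5) (nat_lit 99) (nat_lit 178) r4_99 r6_178 (nat_lit 0) (nat_lit 0) (nat_lit 0) (nat_lit 0x7e8603014a) (nat_lit 724753224),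
  Rx.mk (nat_lit 434) (nat_lit 2) (nat_lit 6) (nat_lit 6) (nat_lit 7) (nat_lit 101) (nat_lit 182) r4_101 r6_182 (nat_lit 0) (nat_lit 0) (nat_lit 0) (nat_lit 0x7df1d384d6) (nat_lit 1008883512),
  Rx.mk (nat_lit 446) (nat_lit 6) (nat_lit 7) (nat_lit 6) (nat_lit 7) (nat_lit 105) (nat_lit 179) r4_105 r6_179 (nat_lit 0) (nat_lit 0) (nat_lit 0) (nat_lit 0x7e6a93d858) (nat_lit 777355488),
  Rx.mk (nat_lit 510) (nat_lit 6) (nat_lit 7) (nat_lit 7) (nat_lit 7) (nat_lit 106) (nat_lit 177) r4_106 r6_177 (nat_lit 0) (nat_lit 0) (nat_lit 0) (nat_lit 0x7df79428c6) (nat_lit 997853688)]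
noncomputable def e47_36 : List Rx := [
  Rx.mk (nat_lit 16) (nat_lit 0) (nat_lit 2) (nat_lit 0) (nat_lit 2) (nat_lit 24) (nat_lit 47) r4_24 r2_47 (nat_lit 0) (nat_lit 0) (nat_lit 0) (nat_lit 0x6f9c53eb26) (nat_lit 8044765560),
  Rx.mk (nat_lit 17) (nat_lit 1) (nat_lit 2) (nat_lit 0) (nat_lit 3) (nat_lit 25) (nat_lit 48) r4_25 r2_48 (nat_lit 0) (nat_lit 0) (nat_lit 0) (nat_lit 0x7e46493d26) (nat_lit 846940536),
  Rx.mk (nat_lit 144) (nat_lit 0) (nat_lit 2) (nat_lit 2) (nat_lit 6) (nat_lit 26) (nat_lit 52) r4_26 r2_52 (nat_lit 0) (nat_lit 0) (nat_lit 0) (nat_lit 0x7e3762eb9a) (nat_lit 875509128),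
  Rx.mk (nat_lit 145) (nat_lit 1) (nat_lit 2) (nat_lit 2) (nat_lit 7) (nat_lit 27) (nat_lit 53) r4_27 r2_53 (nat_lit 0) (nat_lit 0) (nat_lit 0) (nat_lit 0x7dd9a4a7dc) (nat_lit 1055252016),
  Rx.mk (nat_lit 176) (nat_lit 0) (nat_lit 6) (nat_lit 2) (nat_lit 6) (nat_lit 21) (nat_lit 54) r4_21 r2_54 (nat_lit 0) (nat_lit 0) (nat_lit 0) (nat_lit 0x7e2db3a698) (nat_lit 894078432),
  Rx.mk (nat_lit 177) (nat_lit 1) (nat_lit 6) (nat_lit 2) (nat_lit 7) (nat_lit 22) (nat_lit 55) r4_22 r2_55 (nat_lit 0) (nat_lit 0) (nat_lit 0) (nat_lit 0x7dee60fc02) (nat_lit 1015493544),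
  Rx.mk (nat_lit 178) (nat_lit 2) (nat_lit 6) (nat_lit 2) (nat_lit 7) (nat_lit 23) (nat_lit 56) r4_23 r2_56 (nat_lit 0) (nat_lit 0) (nat_lit 0) (nat_lit 0x7de8bc7650) (nat_lit 1026312768),
  Rx.mk (nat_lit 208) (nat_lit 0) (nat_lit 2) (nat_lit 3) (nat_lit 6) (nat_lit 28) (nat_lit 49) r4_28 r2_49 (nat_lit 0) (nat_lit 0) (nat_lit 0) (nat_lit 0x7ea641bd3e) (nat_lit 662926680),
  Rx.mk (nat_lit 209) (nat_lit 1) (nat_lit 2) (nat_lit 3) (nat_lit 7) (nat_lit 29) (nat_lit 50) r4_29 r2_50 (nat_lit 0) (nat_lit 0) (nat_lit 0) (nat_lit 0x7e85ff4186) (nat_lit 724781304),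
  Rx.mk (nat_lit 211) (nat_lit 3) (nat_lit 2) (nat_lit 3) (nat_lit 7) (nat_lit 30) (nat_lit 51) r4_30 r2_51 (nat_lit 0) (nat_lit 0) (nat_lit 0) (nat_lit 0x7e66fbd1dc) (nat_lit 784246320)]
noncomputable def e47_37 : List Rx := [
  Rx.mk (nat_lit 176) (nat_lit 0) (nat_lit 6) (nat_lit 2) (nat_lit 6) (nat_lit 128) (nat_lit 15) r4_128 r8_15 (nat_lit 0) (nat_lit 0) (nat_lit 0) (nat_lit 0x7de2b8b692) (nat_lit 1037845224),
  Rx.mk (nat_lit 177) (nat_lit 1) (nat_lit 6) (nat_lit 2) (nat_lit 7) (nat_lit 129) (nat_lit 16) r4_129 r8_16 (nat_lit 0) (nat_lit 0) (nat_lit 0) (nat_lit 0x7df79428c6) (nat_lit 997853688),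
  Rx.mk (nat_lit 178) (nat_lit 2) (nat_lit 6) (nat_lit 2) (nat_lit 7) (nat_lit 130) (nat_lit 17) r4_130 r8_17 (nat_lit 0) (nat_lit 0) (nat_lit 0) (nat_lit 0x7dd77c6a62) (nat_lit 1059388200)]
noncomputable def e47_38 : List Rx := [
  Rx.mk (nat_lit 16) (nat_lit 0) (nat_lit 2) (nat_lit 0) (nat_lit 2) (nat_lit 147) (nat_lit 50) r4_147 r8_50 (nat_lit 0) (nat_lit 0) (nat_lit 0) (nat_lit 0x6c5214126e) (nat_lit 9659691288),
  Rx.mk (nat_lit 17) (nat_lit 1) (nat_lit 2) (nat_lit 0) (nat_lit 3) (nat_lit 148) (nat_lit 51) r4_148 r8_51 (nat_lit 0) (nat_lit 0) (nat_lit 0) (nat_lit 0x7dc4b916aa) (nat_lit 1095364296),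
  Rx.mk (nat_lit 81) (nat_lit 1) (nat_lit 2) (nat_lit 1) (nat_lit 7) (nat_lit 149) (nat_lit 52) r4_149 r8_52 (nat_lit 0) (nat_lit 0) (nat_lit 0) (nat_lit 0x7df5dd2438) (nat_lit 1001141856),
  Rx.mk (nat_lit 144) (nat_lit 0) (nat_lit 2) (nat_lit 2) (nat_lit 6) (nat_lit 150) (nat_lit 59) r4_150 r8_59 (nat_lit 0) (nat_lit 0) (nat_lit 0) (nat_lit 0x7dc71c9070) (nat_lit 1090784448),
  Rx.mk (nat_lit 145) (nat_lit 1) (nat_lit 2) (nat_lit 2) (nat_lit 7) (nat_lit 151) (nat_lit 60) r4_151 r8_60 (nat_lit 0) (nat_lit 0) (nat_lit 0) (nat_lit 0x7df5b98672) (nat_lit 1001408616),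
  Rx.mk (nat_lit 176) (nat_lit 0) (nat_lit 6) (nat_lit 2) (nat_lit 6) (nat_lit 144) (nat_lit 56) r4_144 r8_56 (nat_lit 0) (nat_lit 0) (nat_lit 0) (nat_lit 0x7db61d007a) (nat_lit 1123376904),
  Rx.mk (nat_lit 177) (nat_lit 1) (nat_lit 6) (nat_lit 2) (nat_lit 7) (nat_lit 145) (nat_lit 57) r4_145 r8_57 (nat_lit 0) (nat_lit 0) (nat_lit 0) (nat_lit 0x7dde50fd12) (nat_lit 1046291688),
  Rx.mk (nat_lit 178) (nat_lit 2) (nat_lit 6) (nat_lit 2) (nat_lit 7) (nat_lit 146) (nat_lit 58) r4_146 r8_58 (nat_lit 0) (nat_lit 0) (nat_lit 0) (nat_lit 0x7de458dc8e) (nat_lit 1034728344),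
  Rx.mk (nat_lit 208) (nat_lit 0) (nat_lit 2) (nat_lit 3) (nat_lit 6) (nat_lit 152) (nat_lit 53) r4_152 r8_53 (nat_lit 0) (nat_lit 0) (nat_lit 0) (nat_lit 0x7ddbcbc568) (nat_lit 1051124256),
  Rx.mk (nat_lit 209) (nat_lit 1) (nat_lit 2) (nat_lit 3) (nat_lit 7) (nat_lit 153) (nat_lit 54) r4_153 r8_54 (nat_lit 0) (nat_lit 0) (nat_lit 0) (nat_lit 0x7de39ca852) (nat_lit 1036137960),
  Rx.mk (nat_lit 211) (nat_lit 3) (nat_lit 2) (nat_lit 3) (nat_lit 7) (nat_lit 154) (nat_lit 55) r4_154 r8_55 (nat_lit 0) (nat_lit 0) (nat_lit 0) (nat_lit 0x7df7378e90) (nat_lit 998547264)]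
noncomputable def e47_39 : List Rx := [
  Rx.mk (nat_lit 16) (nat_lit 0) (nat_lit 2) (nat_lit 0) (nat_lit 2) (nat_lit 16) (nat_lit 50) r4_16 r1_50 (nat_lit 0) (nat_lit 0) (nat_lit 0) (nat_lit 0x6d02538dc6) (nat_lit 9321754104),
  Rx.mk (nat_lit 19) (nat_lit 3) (nat_lit 2) (nat_lit 0) (nat_lit 3) (nat_lit 17) (nat_lit 51) r4_17 r1_51 (nat_lit 0) (nat_lit 0) (nat_lit 0) (nat_lit 0x7e22f55288) (nat_lit 914677920),
  Rx.mk (nat_lit 144) (nat_lit 0) (nat_lit 2) (nat_lit 2) (nat_lit 6) (nat_lit 18) (nat_lit 53) r4_18 r1_53 (nat_lit 0) (nat_lit 0) (nat_lit 0) (nat_lit 0x7dd783e9ea) (nat_lit 1059332040),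
  Rx.mk (nat_lit 147) (nat_lit 3) (nat_lit 2) (nat_lit 2) (nat_lit 7) (nat_lit 19) (nat_lit 54) r4_19 r1_54 (nat_lit 0) (nat_lit 0) (nat_lit 0) (nat_lit 0x7e01526cd8) (nat_lit 979172064),
  Rx.mk (nat_lit 176) (nat_lit 0) (nat_lit 6) (nat_lit 2) (nat_lit 6) (nat_lit 14) (nat_lit 55) r4_14 r1_55 (nat_lit 0) (nat_lit 0) (nat_lit 0) (nat_lit 0x7cf02600b0) (nat_lit 1502953920),
  Rx.mk (nat_lit 178) (nat_lit 2) (nat_lit 6) (nat_lit 2) (nat_lit 7) (nat_lit 15) (nat_lit 56) r4_15 r1_56 (nat_lit 0) (nat_lit 0) (nat_lit 0) (nat_lit 0x7e11b186d6) (nat_lit 947781432),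
  Rx.mk (nat_lit 211) (nat_lit 3) (nat_lit 2) (nat_lit 3) (nat_lit 7) (nat_lit 20) (nat_lit 52) r4_20 r1_52 (nat_lit 0) (nat_lit 0) (nat_lit 0) (nat_lit 0x7eccb0762c) (nat_lit 589236336),
  Rx.mk (nat_lit 434) (nat_lit 2) (nat_lit 6) (nat_lit 6) (nat_lit 7) (nat_lit 13) (nat_lit 57) r4_13 r1_57 (nat_lit 0) (nat_lit 0) (nat_lit 0) (nat_lit 0x7df4fbd24e) (nat_lit 1002829464)]
noncomputable def e47_40 : List Rx := [
  Rx.mk (nat_lit 176) (nat_lit 0) (nat_lit 6) (nat_lit 2) (nat_lit 6) (nat_lit 126) (nat_lit 146) r4_126 r7_146 (nat_lit 0) (nat_lit 0) (nat_lit 0) (nat_lit 0x7dc32eaf52) (nat_lit 1098318312),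
  Rx.mk (nat_lit 178) (nat_lit 2) (nat_lit 6) (nat_lit 2) (nat_lit 7) (nat_lit 127) (nat_lit 148) r4_127 r7_148 (nat_lit 0) (nat_lit 0) (nat_lit 0) (nat_lit 0x7dedaca748) (nat_lit 1016844192),
  Rx.mk (nat_lit 434) (nat_lit 2) (nat_lit 6) (nat_lit 6) (nat_lit 7) (nat_lit 125) (nat_lit 147) r4_125 r7_147 (nat_lit 0) (nat_lit 0) (nat_lit 0) (nat_lit 0x7dca705b30) (nat_lit 1084404672)]
noncomputable def e47_41 : List Rx := [
  Rx.mk (nat_lit 294) (nat_lit 6) (nat_lit 4) (nat_lit 4) (nat_lit 1) (nat_lit 107) (nat_lit 154) r4_107 r1_154 (nat_lit 0) (nat_lit 0) (nat_lit 0) (nat_lit 0x74634ad6f0) (nat_lit 5699858112),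
  Rx.mk (nat_lit 302) (nat_lit 6) (nat_lit 5) (nat_lit 4) (nat_lit 3) (nat_lit 109) (nat_lit 155) r4_109 r1_155 (nat_lit 0) (nat_lit 0) (nat_lit 0) (nat_lit 0x7dc2547cf6) (nat_lit 1099952568),
  Rx.mk (nat_lit 318) (nat_lit 6) (nat_lit 7) (nat_lit 4) (nat_lit 3) (nat_lit 111) (nat_lit 156) r4_111 r1_156 (nat_lit 0) (nat_lit 0) (nat_lit 0) (nat_lit 0x7e11d58496) (nat_lit 947511864),
  Rx.mk (nat_lit 422) (nat_lit 6) (nat_lit 4) (nat_lit 6) (nat_lit 5) (nat_lit 108) (nat_lit 158) r4_108 r1_158 (nat_lit 0) (nat_lit 0) (nat_lit 0) (nat_lit 0x727dbfd186) (nat_lit 6630836472),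
  Rx.mk (nat_lit 430) (nat_lit 6) (nat_lit 5) (nat_lit 6) (nat_lit 7) (nat_lit 110) (nat_lit 159) r4_110 r1_159 (nat_lit 0) (nat_lit 0) (nat_lit 0) (nat_lit 0x7dbbbc4680) (nat_lit 1112596992),
  Rx.mk (nat_lit 446) (nat_lit 6) (nat_lit 7) (nat_lit 6) (nat_lit 7) (nat_lit 112) (nat_lit 160) r4_112 r1_160 (nat_lit 0) (nat_lit 0) (nat_lit 0) (nat_lit 0x7dbe303f3e) (nat_lit 1107893592),
  Rx.mk (nat_lit 510) (nat_lit 6) (nat_lit 7) (nat_lit 7) (nat_lit 7) (nat_lit 113) (nat_lit 157) r4_113 r1_157 (nat_lit 0) (nat_lit 0) (nat_lit 0) (nat_lit 0x7df3f3e2ce) (nat_lit 1004806296)]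
noncomputable def e47_42 : List Rx := [
  Rx.mk (nat_lit 302) (nat_lit 6) (nat_lit 5) (nat_lit 4) (nat_lit 3) (nat_lit 271) (nat_lit 158) r4_271 r2_158 (nat_lit 0) (nat_lit 0) (nat_lit 0) (nat_lit 0x7dd5e96394) (nat_lit 1062406800),
  Rx.mk (nat_lit 430) (nat_lit 6) (nat_lit 5) (nat_lit 6) (nat_lit 7) (nat_lit 272) (nat_lit 159) r4_272 r2_159 (nat_lit 0) (nat_lit 0) (nat_lit 0) (nat_lit 0x7de99d6840) (nat_lit 1024627968)]
noncomputable def e47_43 : List Rx := [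
  Rx.mk (nat_lit 178) (nat_lit 2) (nat_lit 6) (nat_lit 2) (nat_lit 7) (nat_lit 121) (nat_lit 56) r4_121 r7_56 (nat_lit 0) (nat_lit 0) (nat_lit 0) (nat_lit 0x7df910b0fc) (nat_lit 995003568),
  Rx.mk (nat_lit 294) (nat_lit 6) (nat_lit 4) (nat_lit 4) (nat_lit 1) (nat_lit 114) (nat_lit 47) r4_114 r7_47 (nat_lit 0) (nat_lit 0) (nat_lit 0) (nat_lit 0x754e23e874) (nat_lit 5249561616),
  Rx.mk (nat_lit 302) (nat_lit 6) (nat_lit 5) (nat_lit 4) (nat_lit 3) (nat_lit 117) (nat_lit 50) r4_117 r7_50 (nat_lit 0) (nat_lit 0) (nat_lit 0) (nat_lit 0x7dd0edf350) (nat_lit 1071959616),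
  Rx.mk (nat_lit 318) (nat_lit 6) (nat_lit 7) (nat_lit 4) (nat_lit 3) (nat_lit 122) (nat_lit 53) r4_122 r7_53 (nat_lit 0) (nat_lit 0) (nat_lit 0) (nat_lit 0x7dcf55acd6) (nat_lit 1075017528),
  Rx.mk (nat_lit 418) (nat_lit 2) (nat_lit 4) (nat_lit 6) (nat_lit 5) (nat_lit 116) (nat_lit 48) r4_116 r7_48 (nat_lit 0) (nat_lit 0) (nat_lit 0) (nat_lit 0x7da8e3f418) (nat_lit 1148730336),
  Rx.mk (nat_lit 422) (nat_lit 6) (nat_lit 4) (nat_lit 6) (nat_lit 5) (nat_lit 115) (nat_lit 49) r4_115 r7_49 (nat_lit 0) (nat_lit 0) (nat_lit 0) (nat_lit 0x7e2a789a4c) (nat_lit 900272880),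
  Rx.mk (nat_lit 426) (nat_lit 2) (nat_lit 5) (nat_lit 6) (nat_lit 7) (nat_lit 119) (nat_lit 51) r4_119 r7_51 (nat_lit 0) (nat_lit 0) (nat_lit 0) (nat_lit 0x7ddfec435c) (nat_lit 1043211312),
  Rx.mk (nat_lit 430) (nat_lit 6) (nat_lit 5) (nat_lit 6) (nat_lit 7) (nat_lit 118) (nat_lit 52) r4_118 r7_52 (nat_lit 0) (nat_lit 0) (nat_lit 0) (nat_lit 0x7e35a4078a) (nat_lit 878856264),
  Rx.mk (nat_lit 434) (nat_lit 2) (nat_lit 6) (nat_lit 6) (nat_lit 7) (nat_lit 120) (nat_lit 57) r4_120 r7_57 (nat_lit 0) (nat_lit 0) (nat_lit 0) (nat_lit 0x7de493b8e0) (nat_lit 1034287488),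
  Rx.mk (nat_lit 446) (nat_lit 6) (nat_lit 7) (nat_lit 6) (nat_lit 7) (nat_lit 123) (nat_lit 55) r4_123 r7_55 (nat_lit 0) (nat_lit 0) (nat_lit 0) (nat_lit 0x7e28211fc6) (nat_lit 904762872),
  Rx.mk (nat_lit 510) (nat_lit 6) (nat_lit 7) (nat_lit 7) (nat_lit 7) (nat_lit 124) (nat_lit 54) r4_124 r7_54 (nat_lit 0) (nat_lit 0) (nat_lit 0) (nat_lit 0x7dd9115112) (nat_lit 1056355560)]
noncomputable def e47_44 : List Rx := [
  Rx.mk (nat_lit 302) (nat_lit 6) (nat_lit 5) (nat_lit 4) (nat_lit 3) (nat_lit 276) (nat_lit 133) r4_276 r8_133 (nat_lit 0) (nat_lit 0) (nat_lit 0) (nat_lit 0x7cdf86cab4) (nat_lit 1534824720),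
  Rx.mk (nat_lit 426) (nat_lit 2) (nat_lit 5) (nat_lit 6) (nat_lit 7) (nat_lit 278) (nat_lit 135) r4_278 r8_135 (nat_lit 0) (nat_lit 0) (nat_lit 0) (nat_lit 0x7deeb9d674) (nat_lit 1014828048),
  Rx.mk (nat_lit 430) (nat_lit 6) (nat_lit 5) (nat_lit 6) (nat_lit 7) (nat_lit 277) (nat_lit 134) r4_277 r8_134 (nat_lit 0) (nat_lit 0) (nat_lit 0) (nat_lit 0x7debb286ec) (nat_lit 1020634992)]
noncomputable def e47_45 : List Rx := [
  Rx.mk (nat_lit 302) (nat_lit 6) (nat_lit 5) (nat_lit 4) (nat_lit 3) (nat_lit 273) (nat_lit 167) r4_273 r8_167 (nat_lit 0) (nat_lit 0) (nat_lit 0) (nat_lit 0x7db654dcfc) (nat_lit 1122958512),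
  Rx.mk (nat_lit 366) (nat_lit 6) (nat_lit 5) (nat_lit 5) (nat_lit 7) (nat_lit 274) (nat_lit 168) r4_274 r8_168 (nat_lit 0) (nat_lit 0) (nat_lit 0) (nat_lit 0x7de3238fe4) (nat_lit 1037044944),
  Rx.mk (nat_lit 430) (nat_lit 6) (nat_lit 5) (nat_lit 6) (nat_lit 7) (nat_lit 275) (nat_lit 169) r4_275 r8_169 (nat_lit 0) (nat_lit 0) (nat_lit 0) (nat_lit 0x7ddff0631a) (nat_lit 1043180424)]
noncomputable def e47_46 : List Rx := [
  Rx.mk (nat_lit 318) (nat_lit 6) (nat_lit 7) (nat_lit 4) (nat_lit 3) (nat_lit 131) (nat_lit 131) r4_131 r4_131 (nat_lit 0) (nat_lit 0) (nat_lit 0) (nat_lit 0x7e4c631b82) (nat_lit 835242408),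
  Rx.mk (nat_lit 446) (nat_lit 6) (nat_lit 7) (nat_lit 6) (nat_lit 7) (nat_lit 132) (nat_lit 133) r4_132 r4_133 (nat_lit 0) (nat_lit 0) (nat_lit 0) (nat_lit 0x7e1048dd62) (nat_lit 950482728),
  Rx.mk (nat_lit 510) (nat_lit 6) (nat_lit 7) (nat_lit 7) (nat_lit 7) (nat_lit 133) (nat_lit 132) r4_133 r4_132 (nat_lit 0) (nat_lit 0) (nat_lit 0) (nat_lit 0x7e1048dd62) (nat_lit 950482728)]
noncomputable def e47_47 : List Rx := [
  Rx.mk (nat_lit 19) (nat_lit 3) (nat_lit 2) (nat_lit 0) (nat_lit 3) (nat_lit 50) (nat_lit 45) r4_50 r4_45 (nat_lit 0) (nat_lit 0) (nat_lit 0) (nat_lit 0x7fd96aa97c) (nat_lit 73979568),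
  Rx.mk (nat_lit 147) (nat_lit 3) (nat_lit 2) (nat_lit 2) (nat_lit 7) (nat_lit 51) (nat_lit 48) r4_51 r4_48 (nat_lit 0) (nat_lit 0) (nat_lit 0) (nat_lit 0x7ea89e1776) (nat_lit 658400184),
  Rx.mk (nat_lit 176) (nat_lit 0) (nat_lit 6) (nat_lit 2) (nat_lit 6) (nat_lit 42) (nat_lit 54) r4_42 r4_54 (nat_lit 0) (nat_lit 0) (nat_lit 0) (nat_lit 0x729835aa0e) (nat_lit 6580101528),
  Rx.mk (nat_lit 178) (nat_lit 2) (nat_lit 6) (nat_lit 2) (nat_lit 7) (nat_lit 43) (nat_lit 56) r4_43 r4_56 (nat_lit 0) (nat_lit 0) (nat_lit 0) (nat_lit 0x7d1ac316b4) (nat_lit 1421246736),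
  Rx.mk (nat_lit 179) (nat_lit 3) (nat_lit 6) (nat_lit 2) (nat_lit 7) (nat_lit 44) (nat_lit 55) r4_44 r4_55 (nat_lit 0) (nat_lit 0) (nat_lit 0) (nat_lit 0x7df36e0b2c) (nat_lit 1005808752),
  Rx.mk (nat_lit 199) (nat_lit 7) (nat_lit 0) (nat_lit 3) (nat_lit 5) (nat_lit 49) (nat_lit 40) r4_49 r4_40 (nat_lit 0) (nat_lit 0) (nat_lit 0) (nat_lit 0x7fbd70c936) (nat_lit 127620792),
  Rx.mk (nat_lit 211) (nat_lit 3) (nat_lit 2) (nat_lit 3) (nat_lit 7) (nat_lit 53) (nat_lit 46) r4_53 r4_46 (nat_lit 0) (nat_lit 0) (nat_lit 0) (nat_lit 0x79bce0783c) (nat_lit 3073822128),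
  Rx.mk (nat_lit 215) (nat_lit 7) (nat_lit 2) (nat_lit 3) (nat_lit 7) (nat_lit 52) (nat_lit 47) r4_52 r4_47 (nat_lit 0) (nat_lit 0) (nat_lit 0) (nat_lit 0x7de9700b16) (nat_lit 1024967736),
  Rx.mk (nat_lit 223) (nat_lit 7) (nat_lit 3) (nat_lit 3) (nat_lit 7) (nat_lit 57) (nat_lit 41) r4_57 r4_41 (nat_lit 0) (nat_lit 0) (nat_lit 0) (nat_lit 0x7d5376cb40) (nat_lit 1312526592),
  Rx.mk (nat_lit 318) (nat_lit 6) (nat_lit 7) (nat_lit 4) (nat_lit 3) (nat_lit 45) (nat_lit 50) r4_45 r4_50 (nat_lit 0) (nat_lit 0) (nat_lit 0) (nat_lit 0x7fd96aa97c) (nat_lit 73979568),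
  Rx.mk (nat_lit 418) (nat_lit 2) (nat_lit 4) (nat_lit 6) (nat_lit 5) (nat_lit 40) (nat_lit 49) r4_40 r4_49 (nat_lit 0) (nat_lit 0) (nat_lit 0) (nat_lit 0x7fbd70c936) (nat_lit 127620792),
  Rx.mk (nat_lit 434) (nat_lit 2) (nat_lit 6) (nat_lit 6) (nat_lit 7) (nat_lit 41) (nat_lit 57) r4_41 r4_57 (nat_lit 0) (nat_lit 0) (nat_lit 0) (nat_lit 0x7d5376cb40) (nat_lit 1312526592),
  Rx.mk (nat_lit 442) (nat_lit 2) (nat_lit 7) (nat_lit 6) (nat_lit 7) (nat_lit 47) (nat_lit 52) r4_47 r4_52 (nat_lit 0) (nat_lit 0) (nat_lit 0) (nat_lit 0x7de9700b16) (nat_lit 1024967736),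
  Rx.mk (nat_lit 446) (nat_lit 6) (nat_lit 7) (nat_lit 6) (nat_lit 7) (nat_lit 46) (nat_lit 53) r4_46 r4_53 (nat_lit 0) (nat_lit 0) (nat_lit 0) (nat_lit 0x79bce0783c) (nat_lit 3073822128),
  Rx.mk (nat_lit 476) (nat_lit 4) (nat_lit 3) (nat_lit 7) (nat_lit 6) (nat_lit 54) (nat_lit 42) r4_54 r4_42 (nat_lit 0) (nat_lit 0) (nat_lit 0) (nat_lit 0x729835aa0e) (nat_lit 6580101528),
  Rx.mk (nat_lit 478) (nat_lit 6) (nat_lit 3) (nat_lit 7) (nat_lit 7) (nat_lit 55) (nat_lit 44) r4_55 r4_44 (nat_lit 0) (nat_lit 0) (nat_lit 0) (nat_lit 0x7df36e0b2c) (nat_lit 1005808752),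
  Rx.mk (nat_lit 479) (nat_lit 7) (nat_lit 3) (nat_lit 7) (nat_lit 7) (nat_lit 56) (nat_lit 43) r4_56 r4_43 (nat_lit 0) (nat_lit 0) (nat_lit 0) (nat_lit 0x7d1ac316b4) (nat_lit 1421246736),
  Rx.mk (nat_lit 510) (nat_lit 6) (nat_lit 7) (nat_lit 7) (nat_lit 7) (nat_lit 48) (nat_lit 51) r4_48 r4_51 (nat_lit 0) (nat_lit 0) (nat_lit 0) (nat_lit 0x7ea89e1776) (nat_lit 658400184)]
noncomputable def e47_48 : List Rx := [
  Rx.mk (nat_lit 176) (nat_lit 0) (nat_lit 6) (nat_lit 2) (nat_lit 6) (nat_lit 136) (nat_lit 130) r4_136 r9_130 (nat_lit 0) (nat_lit 0) (nat_lit 0) (nat_lit 0x7e412fcec2) (nat_lit 856717992),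
  Rx.mk (nat_lit 178) (nat_lit 2) (nat_lit 6) (nat_lit 2) (nat_lit 7) (nat_lit 137) (nat_lit 135) r4_137 r9_135 (nat_lit 0) (nat_lit 0) (nat_lit 0) (nat_lit 0x7dee99387e) (nat_lit 1015072344),
  Rx.mk (nat_lit 179) (nat_lit 3) (nat_lit 6) (nat_lit 2) (nat_lit 7) (nat_lit 138) (nat_lit 131) r4_138 r9_131 (nat_lit 0) (nat_lit 0) (nat_lit 0) (nat_lit 0x7dd37c8a64) (nat_lit 1067056848),
  Rx.mk (nat_lit 318) (nat_lit 6) (nat_lit 7) (nat_lit 4) (nat_lit 3) (nat_lit 139) (nat_lit 127) r4_139 r9_127 (nat_lit 0) (nat_lit 0) (nat_lit 0) (nat_lit 0x7afc995b6e) (nat_lit 2460787992),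
  Rx.mk (nat_lit 418) (nat_lit 2) (nat_lit 4) (nat_lit 6) (nat_lit 5) (nat_lit 134) (nat_lit 132) r4_134 r9_132 (nat_lit 0) (nat_lit 0) (nat_lit 0) (nat_lit 0x7d77e26462) (nat_lit 1242694440),
  Rx.mk (nat_lit 434) (nat_lit 2) (nat_lit 6) (nat_lit 6) (nat_lit 7) (nat_lit 135) (nat_lit 134) r4_135 r9_134 (nat_lit 0) (nat_lit 0) (nat_lit 0) (nat_lit 0x7df0f592b6) (nat_lit 1010545848),
  Rx.mk (nat_lit 442) (nat_lit 2) (nat_lit 7) (nat_lit 6) (nat_lit 7) (nat_lit 141) (nat_lit 133) r4_141 r9_133 (nat_lit 0) (nat_lit 0) (nat_lit 0) (nat_lit 0x7dede0640c) (nat_lit 1016456688),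
  Rx.mk (nat_lit 446) (nat_lit 6) (nat_lit 7) (nat_lit 6) (nat_lit 7) (nat_lit 140) (nat_lit 129) r4_140 r9_129 (nat_lit 0) (nat_lit 0) (nat_lit 0) (nat_lit 0x7e4a4f1cc4) (nat_lit 839226960),
  Rx.mk (nat_lit 510) (nat_lit 6) (nat_lit 7) (nat_lit 7) (nat_lit 7) (nat_lit 142) (nat_lit 128) r4_142 r9_128 (nat_lit 0) (nat_lit 0) (nat_lit 0) (nat_lit 0x7db07b1a9e) (nat_lit 1134176472)]
noncomputable def e47_49 : List Rx := [
  Rx.mk (nat_lit 199) (nat_lit 7) (nat_lit 0) (nat_lit 3) (nat_lit 5) (nat_lit 209) (nat_lit 129) r4_209 r10_129 (nat_lit 0) (nat_lit 0) (nat_lit 0) (nat_lit 0x757b9df0a6) (nat_lit 5162364792),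
  Rx.mk (nat_lit 211) (nat_lit 3) (nat_lit 2) (nat_lit 3) (nat_lit 7) (nat_lit 211) (nat_lit 135) r4_211 r10_135 (nat_lit 0) (nat_lit 0) (nat_lit 0) (nat_lit 0x7df1c665a8) (nat_lit 1008981792),
  Rx.mk (nat_lit 215) (nat_lit 7) (nat_lit 2) (nat_lit 3) (nat_lit 7) (nat_lit 210) (nat_lit 130) r4_210 r10_130 (nat_lit 0) (nat_lit 0) (nat_lit 0) (nat_lit 0x7e50fdd1d2) (nat_lit 826414056),
  Rx.mk (nat_lit 284) (nat_lit 4) (nat_lit 3) (nat_lit 4) (nat_lit 2) (nat_lit 212) (nat_lit 125) r4_212 r10_125 (nat_lit 0) (nat_lit 0) (nat_lit 0) (nat_lit 0x704a4c6af0) (nat_lit 7711194816),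
  Rx.mk (nat_lit 286) (nat_lit 6) (nat_lit 3) (nat_lit 4) (nat_lit 3) (nat_lit 213) (nat_lit 132) r4_213 r10_132 (nat_lit 0) (nat_lit 0) (nat_lit 0) (nat_lit 0x77d5fc8862) (nat_lit 4007383848),
  Rx.mk (nat_lit 318) (nat_lit 6) (nat_lit 7) (nat_lit 4) (nat_lit 3) (nat_lit 205) (nat_lit 131) r4_205 r10_131 (nat_lit 0) (nat_lit 0) (nat_lit 0) (nat_lit 0x7227e22fb6) (nat_lit 6795475128),
  Rx.mk (nat_lit 442) (nat_lit 2) (nat_lit 7) (nat_lit 6) (nat_lit 7) (nat_lit 207) (nat_lit 136) r4_207 r10_136 (nat_lit 0) (nat_lit 0) (nat_lit 0) (nat_lit 0x7e23aee6ee) (nat_lit 913287960),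
  Rx.mk (nat_lit 446) (nat_lit 6) (nat_lit 7) (nat_lit 6) (nat_lit 7) (nat_lit 206) (nat_lit 134) r4_206 r10_134 (nat_lit 0) (nat_lit 0) (nat_lit 0) (nat_lit 0x7dc3644bf8) (nat_lit 1097916768),
  Rx.mk (nat_lit 455) (nat_lit 7) (nat_lit 0) (nat_lit 7) (nat_lit 5) (nat_lit 208) (nat_lit 127) r4_208 r10_127 (nat_lit 0) (nat_lit 0) (nat_lit 0) (nat_lit 0x72c34b188c) (nat_lit 6497492976),
  Rx.mk (nat_lit 476) (nat_lit 4) (nat_lit 3) (nat_lit 7) (nat_lit 6) (nat_lit 214) (nat_lit 126) r4_214 r10_126 (nat_lit 0) (nat_lit 0) (nat_lit 0) (nat_lit 0x7bb067ddd2) (nat_lit 2116027368),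
  Rx.mk (nat_lit 478) (nat_lit 6) (nat_lit 3) (nat_lit 7) (nat_lit 7) (nat_lit 215) (nat_lit 133) r4_215 r10_133 (nat_lit 0) (nat_lit 0) (nat_lit 0) (nat_lit 0x7e0de80372) (nat_lit 955042920),
  Rx.mk (nat_lit 479) (nat_lit 7) (nat_lit 3) (nat_lit 7) (nat_lit 7) (nat_lit 216) (nat_lit 128) r4_216 r10_128 (nat_lit 0) (nat_lit 0) (nat_lit 0) (nat_lit 0x7d9fcc8598) (nat_lit 1166162400)]
noncomputable def e47_50 : List Rx := [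
  Rx.mk (nat_lit 510) (nat_lit 6) (nat_lit 7) (nat_lit 7) (nat_lit 7) (nat_lit 143) (nat_lit 8) r4_143 r10_8 (nat_lit 0) (nat_lit 0) (nat_lit 0) (nat_lit 0x7dd7d8a49e) (nat_lit 1058697432)]
noncomputable def e47_51 : List Rx := [
  Rx.mk (nat_lit 197) (nat_lit 5) (nat_lit 0) (nat_lit 3) (nat_lit 5) (nat_lit 224) (nat_lit 304) r4_224 r12_304 (nat_lit 0) (nat_lit 0) (nat_lit 0) (nat_lit 0x7b83692dea) (nat_lit 2202300360),
  Rx.mk (nat_lit 213) (nat_lit 5) (nat_lit 2) (nat_lit 3) (nat_lit 7) (nat_lit 225) (nat_lit 305) r4_225 r12_305 (nat_lit 0) (nat_lit 0) (nat_lit 0) (nat_lit 0x7b9dce877a) (nat_lit 2151688968)]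
noncomputable def e47_52 : List Rx := [
  Rx.mk (nat_lit 452) (nat_lit 4) (nat_lit 0) (nat_lit 7) (nat_lit 4) (nat_lit 343) (nat_lit 296) r4_343 r12_296 (nat_lit 0) (nat_lit 0) (nat_lit 0) (nat_lit 0x752fda0d30) (nat_lit 5307636672),
  Rx.mk (nat_lit 453) (nat_lit 5) (nat_lit 0) (nat_lit 7) (nat_lit 5) (nat_lit 344) (nat_lit 297) r4_344 r12_297 (nat_lit 0) (nat_lit 0) (nat_lit 0) (nat_lit 0x7defaae762) (nat_lit 1013022504),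
  Rx.mk (nat_lit 454) (nat_lit 6) (nat_lit 0) (nat_lit 7) (nat_lit 5) (nat_lit 345) (nat_lit 298) r4_345 r12_298 (nat_lit 0) (nat_lit 0) (nat_lit 0) (nat_lit 0x7ddf492d8e) (nat_lit 1044432792),
  Rx.mk (nat_lit 460) (nat_lit 4) (nat_lit 1) (nat_lit 7) (nat_lit 6) (nat_lit 346) (nat_lit 299) r4_346 r12_299 (nat_lit 0) (nat_lit 0) (nat_lit 0) (nat_lit 0x79f1f206ee) (nat_lit 2972068632),
  Rx.mk (nat_lit 461) (nat_lit 5) (nat_lit 1) (nat_lit 7) (nat_lit 7) (nat_lit 347) (nat_lit 300) r4_347 r12_300 (nat_lit 0) (nat_lit 0) (nat_lit 0) (nat_lit 0x7e5fb6663a) (nat_lit 798188040),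
  Rx.mk (nat_lit 462) (nat_lit 6) (nat_lit 1) (nat_lit 7) (nat_lit 7) (nat_lit 348) (nat_lit 301) r4_348 r12_301 (nat_lit 0) (nat_lit 0) (nat_lit 0) (nat_lit 0x7e24ff91e2) (nat_lit 910766376)]
noncomputable def e47_53 : List Rx := [
  Rx.mk (nat_lit 21) (nat_lit 5) (nat_lit 2) (nat_lit 0) (nat_lit 3) (nat_lit 90) (nat_lit 66) r4_90 r12_66 (nat_lit 0) (nat_lit 0) (nat_lit 0) (nat_lit 0x7f16fd1118) (nat_lit 446775264),
  Rx.mk (nat_lit 197) (nat_lit 5) (nat_lit 0) (nat_lit 3) (nat_lit 5) (nat_lit 89) (nat_lit 67) r4_89 r12_67 (nat_lit 0) (nat_lit 0) (nat_lit 0) (nat_lit 0x7e028ed910) (nat_lit 976802112),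
  Rx.mk (nat_lit 213) (nat_lit 5) (nat_lit 2) (nat_lit 3) (nat_lit 7) (nat_lit 91) (nat_lit 69) r4_91 r12_69 (nat_lit 0) (nat_lit 0) (nat_lit 0) (nat_lit 0x7eff7569aa) (nat_lit 491891400),
  Rx.mk (nat_lit 221) (nat_lit 5) (nat_lit 3) (nat_lit 3) (nat_lit 7) (nat_lit 92) (nat_lit 68) r4_92 r12_68 (nat_lit 0) (nat_lit 0) (nat_lit 0) (nat_lit 0x7e502f9eb6) (nat_lit 827958456)]
noncomputable def e47_54 : List Rx := [
  Rx.mk (nat_lit 260) (nat_lit 4) (nat_lit 0) (nat_lit 4) (nat_lit 0) (nat_lit 366) (nat_lit 169) r4_366 r12_169 (nat_lit 0) (nat_lit 0) (nat_lit 0) (nat_lit 0x656168c414) (nat_lit 13066269840),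
  Rx.mk (nat_lit 261) (nat_lit 5) (nat_lit 0) (nat_lit 4) (nat_lit 1) (nat_lit 367) (nat_lit 172) r4_367 r12_172 (nat_lit 0) (nat_lit 0) (nat_lit 0) (nat_lit 0x70f7fe6f22) (nat_lit 7378151976),
  Rx.mk (nat_lit 262) (nat_lit 6) (nat_lit 0) (nat_lit 4) (nat_lit 1) (nat_lit 368) (nat_lit 174) r4_368 r12_174 (nat_lit 0) (nat_lit 0) (nat_lit 0) (nat_lit 0x754ac05eb0) (nat_lit 5256059328),
  Rx.mk (nat_lit 268) (nat_lit 4) (nat_lit 1) (nat_lit 4) (nat_lit 2) (nat_lit 373) (nat_lit 170) r4_373 r12_170 (nat_lit 0) (nat_lit 0) (nat_lit 0) (nat_lit 0x7171c2f260) (nat_lit 7144675200),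
  Rx.mk (nat_lit 270) (nat_lit 6) (nat_lit 1) (nat_lit 4) (nat_lit 3) (nat_lit 374) (nat_lit 175) r4_374 r12_175 (nat_lit 0) (nat_lit 0) (nat_lit 0) (nat_lit 0x7d15e364b4) (nat_lit 1430591760),
  Rx.mk (nat_lit 284) (nat_lit 4) (nat_lit 3) (nat_lit 4) (nat_lit 2) (nat_lit 378) (nat_lit 171) r4_378 r12_171 (nat_lit 0) (nat_lit 0) (nat_lit 0) (nat_lit 0x6e2f0d2100) (nat_lit 8745145344),
  Rx.mk (nat_lit 285) (nat_lit 5) (nat_lit 3) (nat_lit 4) (nat_lit 3) (nat_lit 379) (nat_lit 173) r4_379 r12_173 (nat_lit 0) (nat_lit 0) (nat_lit 0) (nat_lit 0x7dad2f8f5a) (nat_lit 1140494472),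
  Rx.mk (nat_lit 286) (nat_lit 6) (nat_lit 3) (nat_lit 4) (nat_lit 3) (nat_lit 380) (nat_lit 176) r4_380 r12_176 (nat_lit 0) (nat_lit 0) (nat_lit 0) (nat_lit 0x7e2ee053cc) (nat_lit 891826416),
  Rx.mk (nat_lit 452) (nat_lit 4) (nat_lit 0) (nat_lit 7) (nat_lit 4) (nat_lit 369) (nat_lit 177) r4_369 r12_177 (nat_lit 0) (nat_lit 0) (nat_lit 0) (nat_lit 0x6fa2424c3a) (nat_lit 8033393160),
  Rx.mk (nat_lit 453) (nat_lit 5) (nat_lit 0) (nat_lit 7) (nat_lit 5) (nat_lit 370) (nat_lit 179) r4_370 r12_179 (nat_lit 0) (nat_lit 0) (nat_lit 0) (nat_lit 0x7e34af96d2) (nat_lit 880687080),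
  Rx.mk (nat_lit 454) (nat_lit 6) (nat_lit 0) (nat_lit 7) (nat_lit 5) (nat_lit 371) (nat_lit 182) r4_371 r12_182 (nat_lit 0) (nat_lit 0) (nat_lit 0) (nat_lit 0x7e20a9174e) (nat_lit 919083672),
  Rx.mk (nat_lit 455) (nat_lit 7) (nat_lit 0) (nat_lit 7) (nat_lit 5) (nat_lit 372) (nat_lit 180) r4_372 r12_180 (nat_lit 0) (nat_lit 0) (nat_lit 0) (nat_lit 0x7d88ecd3aa) (nat_lit 1210020552),
  Rx.mk (nat_lit 460) (nat_lit 4) (nat_lit 1) (nat_lit 7) (nat_lit 6) (nat_lit 375) (nat_lit 178) r4_375 r12_178 (nat_lit 0) (nat_lit 0) (nat_lit 0) (nat_lit 0x7dd9dfe428) (nat_lit 1054808352),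
  Rx.mk (nat_lit 462) (nat_lit 6) (nat_lit 1) (nat_lit 7) (nat_lit 7) (nat_lit 376) (nat_lit 183) r4_376 r12_183 (nat_lit 0) (nat_lit 0) (nat_lit 0) (nat_lit 0x7e4606e14c) (nat_lit 847437552),
  Rx.mk (nat_lit 463) (nat_lit 7) (nat_lit 1) (nat_lit 7) (nat_lit 7) (nat_lit 377) (nat_lit 181) r4_377 r12_181 (nat_lit 0) (nat_lit 0) (nat_lit 0) (nat_lit 0x7e0fdfe3f2) (nat_lit 951268968)]
noncomputable def e47_55 : List Rx := [
  Rx.mk (nat_lit 199) (nat_lit 7) (nat_lit 0) (nat_lit 3) (nat_lit 5) (nat_lit 34) (nat_lit 123) r4_34 r3_123 (nat_lit 0) (nat_lit 0) (nat_lit 0) (nat_lit 0x7f3136ed60) (nat_lit 396489600),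
  Rx.mk (nat_lit 215) (nat_lit 7) (nat_lit 2) (nat_lit 3) (nat_lit 7) (nat_lit 35) (nat_lit 125) r4_35 r3_125 (nat_lit 0) (nat_lit 0) (nat_lit 0) (nat_lit 0x7f09322dd4) (nat_lit 473221008),
  Rx.mk (nat_lit 223) (nat_lit 7) (nat_lit 3) (nat_lit 3) (nat_lit 7) (nat_lit 39) (nat_lit 124) r4_39 r3_124 (nat_lit 0) (nat_lit 0) (nat_lit 0) (nat_lit 0x7e65b0c68e) (nat_lit 786725784),
  Rx.mk (nat_lit 318) (nat_lit 6) (nat_lit 7) (nat_lit 4) (nat_lit 3) (nat_lit 31) (nat_lit 126) r4_31 r3_126 (nat_lit 0) (nat_lit 0) (nat_lit 0) (nat_lit 0x7ffbd9e266) (nat_lit 7955064),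
  Rx.mk (nat_lit 446) (nat_lit 6) (nat_lit 7) (nat_lit 6) (nat_lit 7) (nat_lit 32) (nat_lit 129) r4_32 r3_129 (nat_lit 0) (nat_lit 0) (nat_lit 0) (nat_lit 0x7ae6c7f89a) (nat_lit 2502621576),
  Rx.mk (nat_lit 476) (nat_lit 4) (nat_lit 3) (nat_lit 7) (nat_lit 6) (nat_lit 36) (nat_lit 121) r4_36 r3_121 (nat_lit 0) (nat_lit 0) (nat_lit 0) (nat_lit 0x7db0793abc) (nat_lit 1134190512),
  Rx.mk (nat_lit 478) (nat_lit 6) (nat_lit 3) (nat_lit 7) (nat_lit 7) (nat_lit 37) (nat_lit 128) r4_37 r3_128 (nat_lit 0) (nat_lit 0) (nat_lit 0) (nat_lit 0x7eb5bf2558) (nat_lit 633226464),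
  Rx.mk (nat_lit 479) (nat_lit 7) (nat_lit 3) (nat_lit 7) (nat_lit 7) (nat_lit 38) (nat_lit 122) r4_38 r3_122 (nat_lit 0) (nat_lit 0) (nat_lit 0) (nat_lit 0x7e2eabd714) (nat_lit 892219536),
  Rx.mk (nat_lit 510) (nat_lit 6) (nat_lit 7) (nat_lit 7) (nat_lit 7) (nat_lit 33) (nat_lit 127) r4_33 r3_127 (nat_lit 0) (nat_lit 0) (nat_lit 0) (nat_lit 0x7e68443d54) (nat_lit 781786512)]
noncomputable def e47_56 : List Rx := [
  Rx.mk (nat_lit 199) (nat_lit 7) (nat_lit 0) (nat_lit 3) (nat_lit 5) (nat_lit 198) (nat_lit 128) r4_198 r12_128 (nat_lit 0) (nat_lit 0) (nat_lit 0) (nat_lit 0x79e6f15704) (nat_lit 2993165136),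
  Rx.mk (nat_lit 215) (nat_lit 7) (nat_lit 2) (nat_lit 3) (nat_lit 7) (nat_lit 199) (nat_lit 129) r4_199 r12_129 (nat_lit 0) (nat_lit 0) (nat_lit 0) (nat_lit 0x7e8a3edd88) (nat_lit 716635296),
  Rx.mk (nat_lit 284) (nat_lit 4) (nat_lit 3) (nat_lit 4) (nat_lit 2) (nat_lit 200) (nat_lit 124) r4_200 r12_124 (nat_lit 0) (nat_lit 0) (nat_lit 0) (nat_lit 0x6c41dd75e8) (nat_lit 9690778656),
  Rx.mk (nat_lit 286) (nat_lit 6) (nat_lit 3) (nat_lit 4) (nat_lit 3) (nat_lit 201) (nat_lit 131) r4_201 r12_131 (nat_lit 0) (nat_lit 0) (nat_lit 0) (nat_lit 0x7a87b0ca6c) (nat_lit 2684947824),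
  Rx.mk (nat_lit 318) (nat_lit 6) (nat_lit 7) (nat_lit 4) (nat_lit 3) (nat_lit 195) (nat_lit 130) r4_195 r12_130 (nat_lit 0) (nat_lit 0) (nat_lit 0) (nat_lit 0x7bc8cf5742) (nat_lit 2069234856),
  Rx.mk (nat_lit 446) (nat_lit 6) (nat_lit 7) (nat_lit 6) (nat_lit 7) (nat_lit 196) (nat_lit 133) r4_196 r12_133 (nat_lit 0) (nat_lit 0) (nat_lit 0) (nat_lit 0x7dfbbbc648) (nat_lit 989887392),
  Rx.mk (nat_lit 455) (nat_lit 7) (nat_lit 0) (nat_lit 7) (nat_lit 5) (nat_lit 197) (nat_lit 126) r4_197 r12_126 (nat_lit 0) (nat_lit 0) (nat_lit 0) (nat_lit 0x7853b78c34) (nat_lit 3766308624),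
  Rx.mk (nat_lit 476) (nat_lit 4) (nat_lit 3) (nat_lit 7) (nat_lit 6) (nat_lit 202) (nat_lit 125) r4_202 r12_125 (nat_lit 0) (nat_lit 0) (nat_lit 0) (nat_lit 0x7e00441dbe) (nat_lit 981196632),
  Rx.mk (nat_lit 478) (nat_lit 6) (nat_lit 3) (nat_lit 7) (nat_lit 7) (nat_lit 203) (nat_lit 132) r4_203 r12_132 (nat_lit 0) (nat_lit 0) (nat_lit 0) (nat_lit 0x7e76bad5dc) (nat_lit 754054704),
  Rx.mk (nat_lit 479) (nat_lit 7) (nat_lit 3) (nat_lit 7) (nat_lit 7) (nat_lit 204) (nat_lit 127) r4_204 r12_127 (nat_lit 0) (nat_lit 0) (nat_lit 0) (nat_lit 0x7e302d3efc) (nat_lit 889332912)]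
noncomputable def e47_57 : List Rx := [
  Rx.mk (nat_lit 199) (nat_lit 7) (nat_lit 0) (nat_lit 3) (nat_lit 5) (nat_lit 59) (nat_lit 27) r4_59 r12_27 (nat_lit 0) (nat_lit 0) (nat_lit 0) (nat_lit 0x7e7c8d78ac) (nat_lit 742890096),
  Rx.mk (nat_lit 215) (nat_lit 7) (nat_lit 2) (nat_lit 3) (nat_lit 7) (nat_lit 60) (nat_lit 32) r4_60 r12_32 (nat_lit 0) (nat_lit 0) (nat_lit 0) (nat_lit 0x7edd36edb4) (nat_lit 557550864),
  Rx.mk (nat_lit 220) (nat_lit 4) (nat_lit 3) (nat_lit 3) (nat_lit 6) (nat_lit 63) (nat_lit 28) r4_63 r12_28 (nat_lit 0) (nat_lit 0) (nat_lit 0) (nat_lit 0x7bf02e0130) (nat_lit 1993747392),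
  Rx.mk (nat_lit 223) (nat_lit 7) (nat_lit 3) (nat_lit 3) (nat_lit 7) (nat_lit 64) (nat_lit 29) r4_64 r12_29 (nat_lit 0) (nat_lit 0) (nat_lit 0) (nat_lit 0x7d62493e0a) (nat_lit 1284106824),
  Rx.mk (nat_lit 476) (nat_lit 4) (nat_lit 3) (nat_lit 7) (nat_lit 6) (nat_lit 61) (nat_lit 30) r4_61 r12_30 (nat_lit 0) (nat_lit 0) (nat_lit 0) (nat_lit 0x7e3684f97a) (nat_lit 877171464),
  Rx.mk (nat_lit 478) (nat_lit 6) (nat_lit 3) (nat_lit 7) (nat_lit 7) (nat_lit 62) (nat_lit 31) r4_62 r12_31 (nat_lit 0) (nat_lit 0) (nat_lit 0) (nat_lit 0x7eac08c0c8) (nat_lit 651849120),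
  Rx.mk (nat_lit 510) (nat_lit 6) (nat_lit 7) (nat_lit 7) (nat_lit 7) (nat_lit 58) (nat_lit 33) r4_58 r12_33 (nat_lit 0) (nat_lit 0) (nat_lit 0) (nat_lit 0x7e581e7fc0) (nat_lit 812747520)]
noncomputable def e47 : List (List Rx) := [e47_0, e47_1, e47_2, e47_3, e47_4, e47_5, e47_6, e47_7, e47_8, e47_9, e47_10, e47_11, e47_12, e47_13, e47_14, e47_15, e47_16, e47_17, e47_18, e47_19, e47_20, e47_21, e47_22, e47_23, e47_24, e47_25, e47_26, e47_27, e47_28, e47_29, e47_30, e47_31, e47_32, e47_33, e47_34, e47_35, e47_36, e47_37, e47_38, e47_39, e47_40, e47_41, e47_42, e47_43, e47_44, e47_45, e47_46, e47_47, e47_48, e47_49, e47_50, e47_51, e47_52, e47_53, e47_54, e47_55, e47_56, e47_57]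
noncomputable def e48_0 : List Rx := [
  Rx.mk (nat_lit 5) (nat_lit 5) (nat_lit 0) (nat_lit 0) (nat_lit 1) (nat_lit 273) (nat_lit 321) r9_273 r0_321 (nat_lit 0) (nat_lit 0) (nat_lit 0) (nat_lit 0x6fbd3d3c70) (nat_lit 7981661376),
  Rx.mk (nat_lit 13) (nat_lit 5) (nat_lit 1) (nat_lit 0) (nat_lit 3) (nat_lit 274) (nat_lit 323) r9_274 r0_323 (nat_lit 0) (nat_lit 0) (nat_lit 0) (nat_lit 0x7d7df942ee) (nat_lit 1231018776),
  Rx.mk (nat_lit 21) (nat_lit 5) (nat_lit 2) (nat_lit 0) (nat_lit 3) (nat_lit 275) (nat_lit 325) r9_275 r0_325 (nat_lit 0) (nat_lit 0) (nat_lit 0) (nat_lit 0x7a4fc4e962) (nat_lit 2792171304),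
  Rx.mk (nat_lit 69) (nat_lit 5) (nat_lit 0) (nat_lit 1) (nat_lit 5) (nat_lit 276) (nat_lit 322) r9_276 r0_322 (nat_lit 0) (nat_lit 0) (nat_lit 0) (nat_lit 0x7d8ed7d4f4) (nat_lit 1198673424),
  Rx.mk (nat_lit 77) (nat_lit 5) (nat_lit 1) (nat_lit 1) (nat_lit 7) (nat_lit 277) (nat_lit 324) r9_277 r0_324 (nat_lit 0) (nat_lit 0) (nat_lit 0) (nat_lit 0x7e0faa474c) (nat_lit 951670512),
  Rx.mk (nat_lit 85) (nat_lit 5) (nat_lit 2) (nat_lit 1) (nat_lit 7) (nat_lit 278) (nat_lit 326) r9_278 r0_326 (nat_lit 0) (nat_lit 0) (nat_lit 0) (nat_lit 0x7e1ddac436) (nat_lit 924463800)]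
noncomputable def e48_1 : List Rx := [
  Rx.mk (nat_lit 69) (nat_lit 5) (nat_lit 0) (nat_lit 1) (nat_lit 5) (nat_lit 320) (nat_lit 306) r9_320 r1_306 (nat_lit 0) (nat_lit 0) (nat_lit 0) (nat_lit 0x7d78f9b2ec) (nat_lit 1240602480),
  Rx.mk (nat_lit 77) (nat_lit 5) (nat_lit 1) (nat_lit 1) (nat_lit 7) (nat_lit 321) (nat_lit 307) r9_321 r1_307 (nat_lit 0) (nat_lit 0) (nat_lit 0) (nat_lit 0x7dea245fd0) (nat_lit 1023617088),
  Rx.mk (nat_lit 85) (nat_lit 5) (nat_lit 2) (nat_lit 1) (nat_lit 7) (nat_lit 322) (nat_lit 308) r9_322 r1_308 (nat_lit 0) (nat_lit 0) (nat_lit 0) (nat_lit 0x7d27c6e66a) (nat_lit 1396292040)]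
noncomputable def e48_2 : List Rx := [
  Rx.mk (nat_lit 77) (nat_lit 5) (nat_lit 1) (nat_lit 1) (nat_lit 7) (nat_lit 323) (nat_lit 354) r9_323 r2_354 (nat_lit 0) (nat_lit 0) (nat_lit 0) (nat_lit 0x7dd3c365f6) (nat_lit 1066526136),
  Rx.mk (nat_lit 333) (nat_lit 5) (nat_lit 1) (nat_lit 5) (nat_lit 7) (nat_lit 324) (nat_lit 355) r9_324 r2_355 (nat_lit 0) (nat_lit 0) (nat_lit 0) (nat_lit 0x7dd3c365f6) (nat_lit 1066526136)]
noncomputable def e48_3 : List Rx := [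
  Rx.mk (nat_lit 5) (nat_lit 5) (nat_lit 0) (nat_lit 0) (nat_lit 1) (nat_lit 333) (nat_lit 317) r9_333 r3_317 (nat_lit 0) (nat_lit 0) (nat_lit 0) (nat_lit 0x7143ff0ecc) (nat_lit 7232425200),
  Rx.mk (nat_lit 13) (nat_lit 5) (nat_lit 1) (nat_lit 0) (nat_lit 3) (nat_lit 334) (nat_lit 319) r9_334 r3_319 (nat_lit 0) (nat_lit 0) (nat_lit 0) (nat_lit 0x7b2d0a942a) (nat_lit 2367904968),
  Rx.mk (nat_lit 21) (nat_lit 5) (nat_lit 2) (nat_lit 0) (nat_lit 3) (nat_lit 335) (nat_lit 321) r9_335 r3_321 (nat_lit 0) (nat_lit 0) (nat_lit 0) (nat_lit 0x7b7cf61522) (nat_lit 2214666792),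
  Rx.mk (nat_lit 197) (nat_lit 5) (nat_lit 0) (nat_lit 3) (nat_lit 5) (nat_lit 336) (nat_lit 318) r9_336 r3_318 (nat_lit 0) (nat_lit 0) (nat_lit 0) (nat_lit 0x7f9d302d60) (nat_lit 189461376),
  Rx.mk (nat_lit 205) (nat_lit 5) (nat_lit 1) (nat_lit 3) (nat_lit 7) (nat_lit 337) (nat_lit 320) r9_337 r3_320 (nat_lit 0) (nat_lit 0) (nat_lit 0) (nat_lit 0x7f23fc011c) (nat_lit 421857072),
  Rx.mk (nat_lit 213) (nat_lit 5) (nat_lit 2) (nat_lit 3) (nat_lit 7) (nat_lit 338) (nat_lit 322) r9_338 r3_322 (nat_lit 0) (nat_lit 0) (nat_lit 0) (nat_lit 0x7eeb84a8ca) (nat_lit 530125128)]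
noncomputable def e48_4 : List Rx := [
  Rx.mk (nat_lit 5) (nat_lit 5) (nat_lit 0) (nat_lit 0) (nat_lit 1) (nat_lit 339) (nat_lit 355) r9_339 r4_355 (nat_lit 0) (nat_lit 0) (nat_lit 0) (nat_lit 0x79366ebfde) (nat_lit 3331604952),
  Rx.mk (nat_lit 13) (nat_lit 5) (nat_lit 1) (nat_lit 0) (nat_lit 3) (nat_lit 340) (nat_lit 358) r9_340 r4_358 (nat_lit 0) (nat_lit 0) (nat_lit 0) (nat_lit 0x7ddad0951c) (nat_lit 1053005616),
  Rx.mk (nat_lit 21) (nat_lit 5) (nat_lit 2) (nat_lit 0) (nat_lit 3) (nat_lit 341) (nat_lit 361) r9_341 r4_361 (nat_lit 0) (nat_lit 0) (nat_lit 0) (nat_lit 0x7dbf61cc24) (nat_lit 1105605072),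
  Rx.mk (nat_lit 69) (nat_lit 5) (nat_lit 0) (nat_lit 1) (nat_lit 5) (nat_lit 342) (nat_lit 356) r9_342 r4_356 (nat_lit 0) (nat_lit 0) (nat_lit 0) (nat_lit 0x7dac309f4a) (nat_lit 1142403912),
  Rx.mk (nat_lit 77) (nat_lit 5) (nat_lit 1) (nat_lit 1) (nat_lit 7) (nat_lit 343) (nat_lit 359) r9_343 r4_359 (nat_lit 0) (nat_lit 0) (nat_lit 0) (nat_lit 0x7de7bc6652) (nat_lit 1028230632),
  Rx.mk (nat_lit 85) (nat_lit 5) (nat_lit 2) (nat_lit 1) (nat_lit 7) (nat_lit 344) (nat_lit 362) r9_344 r4_362 (nat_lit 0) (nat_lit 0) (nat_lit 0) (nat_lit 0x7de1a88796) (nat_lit 1039883832),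
  Rx.mk (nat_lit 197) (nat_lit 5) (nat_lit 0) (nat_lit 3) (nat_lit 5) (nat_lit 345) (nat_lit 357) r9_345 r4_357 (nat_lit 0) (nat_lit 0) (nat_lit 0) (nat_lit 0x7dca67bbba) (nat_lit 1084469256),
  Rx.mk (nat_lit 205) (nat_lit 5) (nat_lit 1) (nat_lit 3) (nat_lit 7) (nat_lit 346) (nat_lit 360) r9_346 r4_360 (nat_lit 0) (nat_lit 0) (nat_lit 0) (nat_lit 0x7dd0b316fe) (nat_lit 1072400472)]
noncomputable def e48_5 : List Rx := [
  Rx.mk (nat_lit 268) (nat_lit 4) (nat_lit 1) (nat_lit 4) (nat_lit 2) (nat_lit 38) (nat_lit 317) r9_38 r3_317 (nat_lit 0) (nat_lit 0) (nat_lit 0) (nat_lit 0x7143ff0ecc) (nat_lit 7232425200),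
  Rx.mk (nat_lit 269) (nat_lit 5) (nat_lit 1) (nat_lit 4) (nat_lit 3) (nat_lit 40) (nat_lit 319) r9_40 r3_319 (nat_lit 0) (nat_lit 0) (nat_lit 0) (nat_lit 0x7b2d0a942a) (nat_lit 2367904968),
  Rx.mk (nat_lit 270) (nat_lit 6) (nat_lit 1) (nat_lit 4) (nat_lit 3) (nat_lit 42) (nat_lit 321) r9_42 r3_321 (nat_lit 0) (nat_lit 0) (nat_lit 0) (nat_lit 0x7b7cf61522) (nat_lit 2214666792),
  Rx.mk (nat_lit 460) (nat_lit 4) (nat_lit 1) (nat_lit 7) (nat_lit 6) (nat_lit 39) (nat_lit 318) r9_39 r3_318 (nat_lit 0) (nat_lit 0) (nat_lit 0) (nat_lit 0x7f9d302d60) (nat_lit 189461376),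
  Rx.mk (nat_lit 461) (nat_lit 5) (nat_lit 1) (nat_lit 7) (nat_lit 7) (nat_lit 41) (nat_lit 320) r9_41 r3_320 (nat_lit 0) (nat_lit 0) (nat_lit 0) (nat_lit 0x7f23fc011c) (nat_lit 421857072),
  Rx.mk (nat_lit 462) (nat_lit 6) (nat_lit 1) (nat_lit 7) (nat_lit 7) (nat_lit 43) (nat_lit 322) r9_43 r3_322 (nat_lit 0) (nat_lit 0) (nat_lit 0) (nat_lit 0x7eeb84a8ca) (nat_lit 530125128)]
noncomputable def e48_6 : List Rx := [
  Rx.mk (nat_lit 268) (nat_lit 4) (nat_lit 1) (nat_lit 4) (nat_lit 2) (nat_lit 166) (nat_lit 321) r9_166 r0_321 (nat_lit 0) (nat_lit 0) (nat_lit 0) (nat_lit 0x6fbd3d3c70) (nat_lit 7981661376),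
  Rx.mk (nat_lit 269) (nat_lit 5) (nat_lit 1) (nat_lit 4) (nat_lit 3) (nat_lit 168) (nat_lit 323) r9_168 r0_323 (nat_lit 0) (nat_lit 0) (nat_lit 0) (nat_lit 0x7d7df942ee) (nat_lit 1231018776),
  Rx.mk (nat_lit 270) (nat_lit 6) (nat_lit 1) (nat_lit 4) (nat_lit 3) (nat_lit 170) (nat_lit 325) r9_170 r0_325 (nat_lit 0) (nat_lit 0) (nat_lit 0) (nat_lit 0x7a4fc4e962) (nat_lit 2792171304),
  Rx.mk (nat_lit 332) (nat_lit 4) (nat_lit 1) (nat_lit 5) (nat_lit 6) (nat_lit 167) (nat_lit 322) r9_167 r0_322 (nat_lit 0) (nat_lit 0) (nat_lit 0) (nat_lit 0x7d8ed7d4f4) (nat_lit 1198673424),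
  Rx.mk (nat_lit 333) (nat_lit 5) (nat_lit 1) (nat_lit 5) (nat_lit 7) (nat_lit 169) (nat_lit 324) r9_169 r0_324 (nat_lit 0) (nat_lit 0) (nat_lit 0) (nat_lit 0x7e0faa474c) (nat_lit 951670512),
  Rx.mk (nat_lit 334) (nat_lit 6) (nat_lit 1) (nat_lit 5) (nat_lit 7) (nat_lit 171) (nat_lit 326) r9_171 r0_326 (nat_lit 0) (nat_lit 0) (nat_lit 0) (nat_lit 0x7e1ddac436) (nat_lit 924463800)]
noncomputable def e48_7 : List Rx := [
  Rx.mk (nat_lit 332) (nat_lit 4) (nat_lit 1) (nat_lit 5) (nat_lit 6) (nat_lit 172) (nat_lit 306) r9_172 r1_306 (nat_lit 0) (nat_lit 0) (nat_lit 0) (nat_lit 0x7d78f9b2ec) (nat_lit 1240602480),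
  Rx.mk (nat_lit 333) (nat_lit 5) (nat_lit 1) (nat_lit 5) (nat_lit 7) (nat_lit 173) (nat_lit 307) r9_173 r1_307 (nat_lit 0) (nat_lit 0) (nat_lit 0) (nat_lit 0x7dea245fd0) (nat_lit 1023617088),
  Rx.mk (nat_lit 334) (nat_lit 6) (nat_lit 1) (nat_lit 5) (nat_lit 7) (nat_lit 174) (nat_lit 308) r9_174 r1_308 (nat_lit 0) (nat_lit 0) (nat_lit 0) (nat_lit 0x7d27c6e66a) (nat_lit 1396292040)]
noncomputable def e48_8 : List Rx := [
  Rx.mk (nat_lit 268) (nat_lit 4) (nat_lit 1) (nat_lit 4) (nat_lit 2) (nat_lit 175) (nat_lit 355) r9_175 r4_355 (nat_lit 0) (nat_lit 0) (nat_lit 0) (nat_lit 0x79366ebfde) (nat_lit 3331604952),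
  Rx.mk (nat_lit 269) (nat_lit 5) (nat_lit 1) (nat_lit 4) (nat_lit 3) (nat_lit 178) (nat_lit 358) r9_178 r4_358 (nat_lit 0) (nat_lit 0) (nat_lit 0) (nat_lit 0x7ddad0951c) (nat_lit 1053005616),
  Rx.mk (nat_lit 270) (nat_lit 6) (nat_lit 1) (nat_lit 4) (nat_lit 3) (nat_lit 181) (nat_lit 361) r9_181 r4_361 (nat_lit 0) (nat_lit 0) (nat_lit 0) (nat_lit 0x7dbf61cc24) (nat_lit 1105605072),
  Rx.mk (nat_lit 332) (nat_lit 4) (nat_lit 1) (nat_lit 5) (nat_lit 6) (nat_lit 176) (nat_lit 356) r9_176 r4_356 (nat_lit 0) (nat_lit 0) (nat_lit 0) (nat_lit 0x7dac309f4a) (nat_lit 1142403912),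
  Rx.mk (nat_lit 333) (nat_lit 5) (nat_lit 1) (nat_lit 5) (nat_lit 7) (nat_lit 179) (nat_lit 359) r9_179 r4_359 (nat_lit 0) (nat_lit 0) (nat_lit 0) (nat_lit 0x7de7bc6652) (nat_lit 1028230632),
  Rx.mk (nat_lit 334) (nat_lit 6) (nat_lit 1) (nat_lit 5) (nat_lit 7) (nat_lit 182) (nat_lit 362) r9_182 r4_362 (nat_lit 0) (nat_lit 0) (nat_lit 0) (nat_lit 0x7de1a88796) (nat_lit 1039883832),
  Rx.mk (nat_lit 460) (nat_lit 4) (nat_lit 1) (nat_lit 7) (nat_lit 6) (nat_lit 177) (nat_lit 357) r9_177 r4_357 (nat_lit 0) (nat_lit 0) (nat_lit 0) (nat_lit 0x7dca67bbba) (nat_lit 1084469256),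
  Rx.mk (nat_lit 461) (nat_lit 5) (nat_lit 1) (nat_lit 7) (nat_lit 7) (nat_lit 180) (nat_lit 360) r9_180 r4_360 (nat_lit 0) (nat_lit 0) (nat_lit 0) (nat_lit 0x7dd0b316fe) (nat_lit 1072400472)]
noncomputable def e48_9 : List Rx := [
  Rx.mk (nat_lit 196) (nat_lit 4) (nat_lit 0) (nat_lit 3) (nat_lit 4) (nat_lit 225) (nat_lit 344) r9_225 r5_344 (nat_lit 0) (nat_lit 0) (nat_lit 0) (nat_lit 0x73c25986a6) (nat_lit 6008448888),
  Rx.mk (nat_lit 197) (nat_lit 5) (nat_lit 0) (nat_lit 3) (nat_lit 5) (nat_lit 230) (nat_lit 349) r9_230 r5_349 (nat_lit 0) (nat_lit 0) (nat_lit 0) (nat_lit 0x7e53650b5c) (nat_lit 821806128),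
  Rx.mk (nat_lit 204) (nat_lit 4) (nat_lit 1) (nat_lit 3) (nat_lit 6) (nat_lit 226) (nat_lit 346) r9_226 r5_346 (nat_lit 0) (nat_lit 0) (nat_lit 0) (nat_lit 0x7e77980808) (nat_lit 752397984),
  Rx.mk (nat_lit 205) (nat_lit 5) (nat_lit 1) (nat_lit 3) (nat_lit 7) (nat_lit 231) (nat_lit 351) r9_231 r5_351 (nat_lit 0) (nat_lit 0) (nat_lit 0) (nat_lit 0x7dcfcb657a) (nat_lit 1074135816),
  Rx.mk (nat_lit 212) (nat_lit 4) (nat_lit 2) (nat_lit 3) (nat_lit 6) (nat_lit 227) (nat_lit 348) r9_227 r5_348 (nat_lit 0) (nat_lit 0) (nat_lit 0) (nat_lit 0x7e7a70da78) (nat_lit 746939232),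
  Rx.mk (nat_lit 213) (nat_lit 5) (nat_lit 2) (nat_lit 3) (nat_lit 7) (nat_lit 232) (nat_lit 353) r9_232 r5_353 (nat_lit 0) (nat_lit 0) (nat_lit 0) (nat_lit 0x7dcbe9e396) (nat_lit 1081577016),
  Rx.mk (nat_lit 452) (nat_lit 4) (nat_lit 0) (nat_lit 7) (nat_lit 4) (nat_lit 228) (nat_lit 345) r9_228 r5_345 (nat_lit 0) (nat_lit 0) (nat_lit 0) (nat_lit 0x73c25986a6) (nat_lit 6008448888),
  Rx.mk (nat_lit 453) (nat_lit 5) (nat_lit 0) (nat_lit 7) (nat_lit 5) (nat_lit 233) (nat_lit 350) r9_233 r5_350 (nat_lit 0) (nat_lit 0) (nat_lit 0) (nat_lit 0x7e77980808) (nat_lit 752397984),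
  Rx.mk (nat_lit 454) (nat_lit 6) (nat_lit 0) (nat_lit 7) (nat_lit 5) (nat_lit 235) (nat_lit 354) r9_235 r5_354 (nat_lit 0) (nat_lit 0) (nat_lit 0) (nat_lit 0x7e7a70da78) (nat_lit 746939232),
  Rx.mk (nat_lit 460) (nat_lit 4) (nat_lit 1) (nat_lit 7) (nat_lit 6) (nat_lit 229) (nat_lit 347) r9_229 r5_347 (nat_lit 0) (nat_lit 0) (nat_lit 0) (nat_lit 0x7e53650b5c) (nat_lit 821806128),
  Rx.mk (nat_lit 461) (nat_lit 5) (nat_lit 1) (nat_lit 7) (nat_lit 7) (nat_lit 234) (nat_lit 352) r9_234 r5_352 (nat_lit 0) (nat_lit 0) (nat_lit 0) (nat_lit 0x7dcfcb657a) (nat_lit 1074135816),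
  Rx.mk (nat_lit 462) (nat_lit 6) (nat_lit 1) (nat_lit 7) (nat_lit 7) (nat_lit 236) (nat_lit 355) r9_236 r5_355 (nat_lit 0) (nat_lit 0) (nat_lit 0) (nat_lit 0x7dcbe9e396) (nat_lit 1081577016)]
noncomputable def e48_10 : List Rx := [
  Rx.mk (nat_lit 5) (nat_lit 5) (nat_lit 0) (nat_lit 0) (nat_lit 1) (nat_lit 281) (nat_lit 195) r9_281 r0_195 (nat_lit 0) (nat_lit 0) (nat_lit 0) (nat_lit 0x604e485b2e) (nat_lit 15557210136),
  Rx.mk (nat_lit 13) (nat_lit 5) (nat_lit 1) (nat_lit 0) (nat_lit 3) (nat_lit 282) (nat_lit 196) r9_282 r0_196 (nat_lit 0) (nat_lit 0) (nat_lit 0) (nat_lit 0x7d6198a914) (nat_lit 1285429392),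
  Rx.mk (nat_lit 17) (nat_lit 1) (nat_lit 2) (nat_lit 0) (nat_lit 3) (nat_lit 279) (nat_lit 198) r9_279 r0_198 (nat_lit 0) (nat_lit 0) (nat_lit 0) (nat_lit 0x7ccb9f693e) (nat_lit 1572988248),
  Rx.mk (nat_lit 21) (nat_lit 5) (nat_lit 2) (nat_lit 0) (nat_lit 3) (nat_lit 283) (nat_lit 197) r9_283 r0_197 (nat_lit 0) (nat_lit 0) (nat_lit 0) (nat_lit 0x7e0e1fdff4) (nat_lit 954624528),
  Rx.mk (nat_lit 209) (nat_lit 1) (nat_lit 2) (nat_lit 3) (nat_lit 7) (nat_lit 280) (nat_lit 199) r9_280 r0_199 (nat_lit 0) (nat_lit 0) (nat_lit 0) (nat_lit 0x7e3eef92c8) (nat_lit 861033888)]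
noncomputable def e48_11 : List Rx := [
  Rx.mk (nat_lit 5) (nat_lit 5) (nat_lit 0) (nat_lit 0) (nat_lit 1) (nat_lit 286) (nat_lit 433) r9_286 r6_433 (nat_lit 0) (nat_lit 0) (nat_lit 0) (nat_lit 0x753a13a98c) (nat_lit 5288031216),
  Rx.mk (nat_lit 13) (nat_lit 5) (nat_lit 1) (nat_lit 0) (nat_lit 3) (nat_lit 287) (nat_lit 435) r9_287 r6_435 (nat_lit 0) (nat_lit 0) (nat_lit 0) (nat_lit 0x7dc0263fdc) (nat_lit 1104133680),
  Rx.mk (nat_lit 17) (nat_lit 1) (nat_lit 2) (nat_lit 0) (nat_lit 3) (nat_lit 284) (nat_lit 431) r9_284 r6_431 (nat_lit 0) (nat_lit 0) (nat_lit 0) (nat_lit 0x7dbd4fad48) (nat_lit 1109575584),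
  Rx.mk (nat_lit 21) (nat_lit 5) (nat_lit 2) (nat_lit 0) (nat_lit 3) (nat_lit 288) (nat_lit 437) r9_288 r6_437 (nat_lit 0) (nat_lit 0) (nat_lit 0) (nat_lit 0x7de3610c0c) (nat_lit 1036584432),
  Rx.mk (nat_lit 69) (nat_lit 5) (nat_lit 0) (nat_lit 1) (nat_lit 5) (nat_lit 289) (nat_lit 434) r9_289 r6_434 (nat_lit 0) (nat_lit 0) (nat_lit 0) (nat_lit 0x7d8cac97aa) (nat_lit 1202832072),
  Rx.mk (nat_lit 77) (nat_lit 5) (nat_lit 1) (nat_lit 1) (nat_lit 7) (nat_lit 290) (nat_lit 436) r9_290 r6_436 (nat_lit 0) (nat_lit 0) (nat_lit 0) (nat_lit 0x7deed8348e) (nat_lit 1014600600),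
  Rx.mk (nat_lit 81) (nat_lit 1) (nat_lit 2) (nat_lit 1) (nat_lit 7) (nat_lit 285) (nat_lit 432) r9_285 r6_432 (nat_lit 0) (nat_lit 0) (nat_lit 0) (nat_lit 0x7deb762ab2) (nat_lit 1021087080),
  Rx.mk (nat_lit 85) (nat_lit 5) (nat_lit 2) (nat_lit 1) (nat_lit 7) (nat_lit 291) (nat_lit 438) r9_291 r6_438 (nat_lit 0) (nat_lit 0) (nat_lit 0) (nat_lit 0x7df11510be) (nat_lit 1010309976)]
noncomputable def e48_12 : List Rx := [
  Rx.mk (nat_lit 17) (nat_lit 1) (nat_lit 2) (nat_lit 0) (nat_lit 3) (nat_lit 314) (nat_lit 217) r9_314 r1_217 (nat_lit 0) (nat_lit 0) (nat_lit 0) (nat_lit 0x7c9f940a20) (nat_lit 1657438848),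
  Rx.mk (nat_lit 145) (nat_lit 1) (nat_lit 2) (nat_lit 2) (nat_lit 7) (nat_lit 315) (nat_lit 219) r9_315 r1_219 (nat_lit 0) (nat_lit 0) (nat_lit 0) (nat_lit 0x7e4c769a4a) (nat_lit 835096392),
  Rx.mk (nat_lit 209) (nat_lit 1) (nat_lit 2) (nat_lit 3) (nat_lit 7) (nat_lit 316) (nat_lit 218) r9_316 r1_218 (nat_lit 0) (nat_lit 0) (nat_lit 0) (nat_lit 0x7de940ce0a) (nat_lit 1025321544)]
noncomputable def e48_13 : List Rx := [
  Rx.mk (nat_lit 17) (nat_lit 1) (nat_lit 2) (nat_lit 0) (nat_lit 3) (nat_lit 317) (nat_lit 355) r9_317 r7_355 (nat_lit 0) (nat_lit 0) (nat_lit 0) (nat_lit 0x7d5b2fafaa) (nat_lit 1297720008),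
  Rx.mk (nat_lit 81) (nat_lit 1) (nat_lit 2) (nat_lit 1) (nat_lit 7) (nat_lit 318) (nat_lit 356) r9_318 r7_356 (nat_lit 0) (nat_lit 0) (nat_lit 0) (nat_lit 0x7db8a35812) (nat_lit 1118535912),
  Rx.mk (nat_lit 145) (nat_lit 1) (nat_lit 2) (nat_lit 2) (nat_lit 7) (nat_lit 319) (nat_lit 357) r9_319 r7_357 (nat_lit 0) (nat_lit 0) (nat_lit 0) (nat_lit 0x7ded4a0d72) (nat_lit 1017582696)]
noncomputable def e48_14 : List Rx := [
  Rx.mk (nat_lit 69) (nat_lit 5) (nat_lit 0) (nat_lit 1) (nat_lit 5) (nat_lit 326) (nat_lit 194) r9_326 r7_194 (nat_lit 0) (nat_lit 0) (nat_lit 0) (nat_lit 0x7de3a84798) (nat_lit 1036050912),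
  Rx.mk (nat_lit 77) (nat_lit 5) (nat_lit 1) (nat_lit 1) (nat_lit 7) (nat_lit 327) (nat_lit 195) r9_327 r7_195 (nat_lit 0) (nat_lit 0) (nat_lit 0) (nat_lit 0x7dd3600c2c) (nat_lit 1067270256),
  Rx.mk (nat_lit 81) (nat_lit 1) (nat_lit 2) (nat_lit 1) (nat_lit 7) (nat_lit 325) (nat_lit 197) r9_325 r7_197 (nat_lit 0) (nat_lit 0) (nat_lit 0) (nat_lit 0x7dea641bd4) (nat_lit 1023139728),
  Rx.mk (nat_lit 85) (nat_lit 5) (nat_lit 2) (nat_lit 1) (nat_lit 7) (nat_lit 328) (nat_lit 196) r9_328 r7_196 (nat_lit 0) (nat_lit 0) (nat_lit 0) (nat_lit 0x7de444fdcc) (nat_lit 1034877168)]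
noncomputable def e48_15 : List Rx := [
  Rx.mk (nat_lit 77) (nat_lit 5) (nat_lit 1) (nat_lit 1) (nat_lit 7) (nat_lit 329) (nat_lit 317) r9_329 r8_317 (nat_lit 0) (nat_lit 0) (nat_lit 0) (nat_lit 0x7dd84fdd2a) (nat_lit 1057804488),
  Rx.mk (nat_lit 333) (nat_lit 5) (nat_lit 1) (nat_lit 5) (nat_lit 7) (nat_lit 330) (nat_lit 318) r9_330 r8_318 (nat_lit 0) (nat_lit 0) (nat_lit 0) (nat_lit 0x7df4a417ca) (nat_lit 1003486536)]
noncomputable def e48_16 : List Rx := [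
  Rx.mk (nat_lit 5) (nat_lit 5) (nat_lit 0) (nat_lit 0) (nat_lit 1) (nat_lit 351) (nat_lit 181) r9_351 r4_181 (nat_lit 0) (nat_lit 0) (nat_lit 0) (nat_lit 0x6d142270c6) (nat_lit 9287608824),
  Rx.mk (nat_lit 13) (nat_lit 5) (nat_lit 1) (nat_lit 0) (nat_lit 3) (nat_lit 352) (nat_lit 182) r9_352 r4_182 (nat_lit 0) (nat_lit 0) (nat_lit 0) (nat_lit 0x7d99734b32) (nat_lit 1178335080),
  Rx.mk (nat_lit 21) (nat_lit 5) (nat_lit 2) (nat_lit 0) (nat_lit 3) (nat_lit 353) (nat_lit 183) r9_353 r4_183 (nat_lit 0) (nat_lit 0) (nat_lit 0) (nat_lit 0x7cf5efa410) (nat_lit 1491856704),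
  Rx.mk (nat_lit 197) (nat_lit 5) (nat_lit 0) (nat_lit 3) (nat_lit 5) (nat_lit 354) (nat_lit 184) r9_354 r4_184 (nat_lit 0) (nat_lit 0) (nat_lit 0) (nat_lit 0x7db5be2668) (nat_lit 1124087328),
  Rx.mk (nat_lit 205) (nat_lit 5) (nat_lit 1) (nat_lit 3) (nat_lit 7) (nat_lit 355) (nat_lit 185) r9_355 r4_185 (nat_lit 0) (nat_lit 0) (nat_lit 0) (nat_lit 0x7e4eb4f662) (nat_lit 830794536),
  Rx.mk (nat_lit 209) (nat_lit 1) (nat_lit 2) (nat_lit 3) (nat_lit 7) (nat_lit 350) (nat_lit 187) r9_350 r4_187 (nat_lit 0) (nat_lit 0) (nat_lit 0) (nat_lit 0x7de10331ec) (nat_lit 1041122160),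
  Rx.mk (nat_lit 213) (nat_lit 5) (nat_lit 2) (nat_lit 3) (nat_lit 7) (nat_lit 356) (nat_lit 186) r9_356 r4_186 (nat_lit 0) (nat_lit 0) (nat_lit 0) (nat_lit 0x7e49616ba0) (nat_lit 841007232)]
noncomputable def e48_17 : List Rx := [
  Rx.mk (nat_lit 5) (nat_lit 5) (nat_lit 0) (nat_lit 0) (nat_lit 1) (nat_lit 357) (nat_lit 357) r9_357 r9_357 (nat_lit 0) (nat_lit 0) (nat_lit 0) (nat_lit 0x72a5eb2ea8) (nat_lit 6553815840),
  Rx.mk (nat_lit 13) (nat_lit 5) (nat_lit 1) (nat_lit 0) (nat_lit 3) (nat_lit 358) (nat_lit 360) r9_358 r9_360 (nat_lit 0) (nat_lit 0) (nat_lit 0) (nat_lit 0x7d882f7f80) (nat_lit 1211438592),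
  Rx.mk (nat_lit 21) (nat_lit 5) (nat_lit 2) (nat_lit 0) (nat_lit 3) (nat_lit 359) (nat_lit 363) r9_359 r9_363 (nat_lit 0) (nat_lit 0) (nat_lit 0) (nat_lit 0x7dac8919c2) (nat_lit 1141741224),
  Rx.mk (nat_lit 69) (nat_lit 5) (nat_lit 0) (nat_lit 1) (nat_lit 5) (nat_lit 360) (nat_lit 358) r9_360 r9_358 (nat_lit 0) (nat_lit 0) (nat_lit 0) (nat_lit 0x7d882f7f80) (nat_lit 1211438592),
  Rx.mk (nat_lit 77) (nat_lit 5) (nat_lit 1) (nat_lit 1) (nat_lit 7) (nat_lit 361) (nat_lit 361) r9_361 r9_361 (nat_lit 0) (nat_lit 0) (nat_lit 0) (nat_lit 0x7de9472da4) (nat_lit 1025273808),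
  Rx.mk (nat_lit 85) (nat_lit 5) (nat_lit 2) (nat_lit 1) (nat_lit 7) (nat_lit 362) (nat_lit 364) r9_362 r9_364 (nat_lit 0) (nat_lit 0) (nat_lit 0) (nat_lit 0x7dd1b386f6) (nat_lit 1070479800),
  Rx.mk (nat_lit 197) (nat_lit 5) (nat_lit 0) (nat_lit 3) (nat_lit 5) (nat_lit 363) (nat_lit 359) r9_363 r9_359 (nat_lit 0) (nat_lit 0) (nat_lit 0) (nat_lit 0x7dac8919c2) (nat_lit 1141741224),
  Rx.mk (nat_lit 205) (nat_lit 5) (nat_lit 1) (nat_lit 3) (nat_lit 7) (nat_lit 364) (nat_lit 362) r9_364 r9_362 (nat_lit 0) (nat_lit 0) (nat_lit 0) (nat_lit 0x7dd1b386f6) (nat_lit 1070479800)]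
noncomputable def e48_18 : List Rx := [
  Rx.mk (nat_lit 197) (nat_lit 5) (nat_lit 0) (nat_lit 3) (nat_lit 5) (nat_lit 366) (nat_lit 361) r9_366 r10_361 (nat_lit 0) (nat_lit 0) (nat_lit 0) (nat_lit 0x7dee57fc92) (nat_lit 1015560936),
  Rx.mk (nat_lit 205) (nat_lit 5) (nat_lit 1) (nat_lit 3) (nat_lit 7) (nat_lit 367) (nat_lit 362) r9_367 r10_362 (nat_lit 0) (nat_lit 0) (nat_lit 0) (nat_lit 0x7dded7f4a2) (nat_lit 1045280808),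
  Rx.mk (nat_lit 209) (nat_lit 1) (nat_lit 2) (nat_lit 3) (nat_lit 7) (nat_lit 365) (nat_lit 360) r9_365 r10_360 (nat_lit 0) (nat_lit 0) (nat_lit 0) (nat_lit 0x7de3898984) (nat_lit 1036281168),
  Rx.mk (nat_lit 213) (nat_lit 5) (nat_lit 2) (nat_lit 3) (nat_lit 7) (nat_lit 368) (nat_lit 363) r9_368 r10_363 (nat_lit 0) (nat_lit 0) (nat_lit 0) (nat_lit 0x7de67cfa4a) (nat_lit 1030623048)]
noncomputable def e48_19 : List Rx := [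
  Rx.mk (nat_lit 77) (nat_lit 5) (nat_lit 1) (nat_lit 1) (nat_lit 7) (nat_lit 331) (nat_lit 318) r9_331 r8_318 (nat_lit 0) (nat_lit 0) (nat_lit 0) (nat_lit 0x7df4a417ca) (nat_lit 1003486536),
  Rx.mk (nat_lit 333) (nat_lit 5) (nat_lit 1) (nat_lit 5) (nat_lit 7) (nat_lit 332) (nat_lit 317) r9_332 r8_317 (nat_lit 0) (nat_lit 0) (nat_lit 0) (nat_lit 0x7dd84fdd2a) (nat_lit 1057804488)]
noncomputable def e48_20 : List Rx := [
  Rx.mk (nat_lit 268) (nat_lit 4) (nat_lit 1) (nat_lit 4) (nat_lit 2) (nat_lit 44) (nat_lit 195) r9_44 r0_195 (nat_lit 0) (nat_lit 0) (nat_lit 0) (nat_lit 0x604e485b2e) (nat_lit 15557210136),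
  Rx.mk (nat_lit 269) (nat_lit 5) (nat_lit 1) (nat_lit 4) (nat_lit 3) (nat_lit 45) (nat_lit 196) r9_45 r0_196 (nat_lit 0) (nat_lit 0) (nat_lit 0) (nat_lit 0x7d6198a914) (nat_lit 1285429392),
  Rx.mk (nat_lit 270) (nat_lit 6) (nat_lit 1) (nat_lit 4) (nat_lit 3) (nat_lit 46) (nat_lit 197) r9_46 r0_197 (nat_lit 0) (nat_lit 0) (nat_lit 0) (nat_lit 0x7e0e1fdff4) (nat_lit 954624528),
  Rx.mk (nat_lit 302) (nat_lit 6) (nat_lit 5) (nat_lit 4) (nat_lit 3) (nat_lit 47) (nat_lit 198) r9_47 r0_198 (nat_lit 0) (nat_lit 0) (nat_lit 0) (nat_lit 0x7ccb9f693e) (nat_lit 1572988248),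
  Rx.mk (nat_lit 494) (nat_lit 6) (nat_lit 5) (nat_lit 7) (nat_lit 7) (nat_lit 48) (nat_lit 199) r9_48 r0_199 (nat_lit 0) (nat_lit 0) (nat_lit 0) (nat_lit 0x7e3eef92c8) (nat_lit 861033888)]
noncomputable def e48_21 : List Rx := [
  Rx.mk (nat_lit 302) (nat_lit 6) (nat_lit 5) (nat_lit 4) (nat_lit 3) (nat_lit 49) (nat_lit 217) r9_49 r1_217 (nat_lit 0) (nat_lit 0) (nat_lit 0) (nat_lit 0x7c9f940a20) (nat_lit 1657438848),
  Rx.mk (nat_lit 430) (nat_lit 6) (nat_lit 5) (nat_lit 6) (nat_lit 7) (nat_lit 50) (nat_lit 219) r9_50 r1_219 (nat_lit 0) (nat_lit 0) (nat_lit 0) (nat_lit 0x7e4c769a4a) (nat_lit 835096392),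
  Rx.mk (nat_lit 494) (nat_lit 6) (nat_lit 5) (nat_lit 7) (nat_lit 7) (nat_lit 51) (nat_lit 218) r9_51 r1_218 (nat_lit 0) (nat_lit 0) (nat_lit 0) (nat_lit 0x7de940ce0a) (nat_lit 1025321544)]
noncomputable def e48_22 : List Rx := [
  Rx.mk (nat_lit 268) (nat_lit 4) (nat_lit 1) (nat_lit 4) (nat_lit 2) (nat_lit 52) (nat_lit 181) r9_52 r4_181 (nat_lit 0) (nat_lit 0) (nat_lit 0) (nat_lit 0x6d142270c6) (nat_lit 9287608824),
  Rx.mk (nat_lit 269) (nat_lit 5) (nat_lit 1) (nat_lit 4) (nat_lit 3) (nat_lit 54) (nat_lit 182) r9_54 r4_182 (nat_lit 0) (nat_lit 0) (nat_lit 0) (nat_lit 0x7d99734b32) (nat_lit 1178335080),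
  Rx.mk (nat_lit 270) (nat_lit 6) (nat_lit 1) (nat_lit 4) (nat_lit 3) (nat_lit 56) (nat_lit 183) r9_56 r4_183 (nat_lit 0) (nat_lit 0) (nat_lit 0) (nat_lit 0x7cf5efa410) (nat_lit 1491856704),
  Rx.mk (nat_lit 460) (nat_lit 4) (nat_lit 1) (nat_lit 7) (nat_lit 6) (nat_lit 53) (nat_lit 184) r9_53 r4_184 (nat_lit 0) (nat_lit 0) (nat_lit 0) (nat_lit 0x7db5be2668) (nat_lit 1124087328),
  Rx.mk (nat_lit 461) (nat_lit 5) (nat_lit 1) (nat_lit 7) (nat_lit 7) (nat_lit 55) (nat_lit 185) r9_55 r4_185 (nat_lit 0) (nat_lit 0) (nat_lit 0) (nat_lit 0x7e4eb4f662) (nat_lit 830794536),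
  Rx.mk (nat_lit 462) (nat_lit 6) (nat_lit 1) (nat_lit 7) (nat_lit 7) (nat_lit 57) (nat_lit 186) r9_57 r4_186 (nat_lit 0) (nat_lit 0) (nat_lit 0) (nat_lit 0x7e49616ba0) (nat_lit 841007232),
  Rx.mk (nat_lit 494) (nat_lit 6) (nat_lit 5) (nat_lit 7) (nat_lit 7) (nat_lit 58) (nat_lit 187) r9_58 r4_187 (nat_lit 0) (nat_lit 0) (nat_lit 0) (nat_lit 0x7de10331ec) (nat_lit 1041122160)]
noncomputable def e48_23 : List Rx := [
  Rx.mk (nat_lit 268) (nat_lit 4) (nat_lit 1) (nat_lit 4) (nat_lit 2) (nat_lit 183) (nat_lit 433) r9_183 r6_433 (nat_lit 0) (nat_lit 0) (nat_lit 0) (nat_lit 0x753a13a98c) (nat_lit 5288031216),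
  Rx.mk (nat_lit 269) (nat_lit 5) (nat_lit 1) (nat_lit 4) (nat_lit 3) (nat_lit 185) (nat_lit 435) r9_185 r6_435 (nat_lit 0) (nat_lit 0) (nat_lit 0) (nat_lit 0x7dc0263fdc) (nat_lit 1104133680),
  Rx.mk (nat_lit 270) (nat_lit 6) (nat_lit 1) (nat_lit 4) (nat_lit 3) (nat_lit 187) (nat_lit 437) r9_187 r6_437 (nat_lit 0) (nat_lit 0) (nat_lit 0) (nat_lit 0x7de3610c0c) (nat_lit 1036584432),
  Rx.mk (nat_lit 302) (nat_lit 6) (nat_lit 5) (nat_lit 4) (nat_lit 3) (nat_lit 188) (nat_lit 431) r9_188 r6_431 (nat_lit 0) (nat_lit 0) (nat_lit 0) (nat_lit 0x7dbd4fad48) (nat_lit 1109575584),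
  Rx.mk (nat_lit 332) (nat_lit 4) (nat_lit 1) (nat_lit 5) (nat_lit 6) (nat_lit 184) (nat_lit 434) r9_184 r6_434 (nat_lit 0) (nat_lit 0) (nat_lit 0) (nat_lit 0x7d8cac97aa) (nat_lit 1202832072),
  Rx.mk (nat_lit 333) (nat_lit 5) (nat_lit 1) (nat_lit 5) (nat_lit 7) (nat_lit 186) (nat_lit 436) r9_186 r6_436 (nat_lit 0) (nat_lit 0) (nat_lit 0) (nat_lit 0x7deed8348e) (nat_lit 1014600600),
  Rx.mk (nat_lit 334) (nat_lit 6) (nat_lit 1) (nat_lit 5) (nat_lit 7) (nat_lit 189) (nat_lit 438) r9_189 r6_438 (nat_lit 0) (nat_lit 0) (nat_lit 0) (nat_lit 0x7df11510be) (nat_lit 1010309976),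
  Rx.mk (nat_lit 366) (nat_lit 6) (nat_lit 5) (nat_lit 5) (nat_lit 7) (nat_lit 190) (nat_lit 432) r9_190 r6_432 (nat_lit 0) (nat_lit 0) (nat_lit 0) (nat_lit 0x7deb762ab2) (nat_lit 1021087080)]
noncomputable def e48_24 : List Rx := [
  Rx.mk (nat_lit 302) (nat_lit 6) (nat_lit 5) (nat_lit 4) (nat_lit 3) (nat_lit 195) (nat_lit 355) r9_195 r7_355 (nat_lit 0) (nat_lit 0) (nat_lit 0) (nat_lit 0x7d5b2fafaa) (nat_lit 1297720008),
  Rx.mk (nat_lit 366) (nat_lit 6) (nat_lit 5) (nat_lit 5) (nat_lit 7) (nat_lit 196) (nat_lit 356) r9_196 r7_356 (nat_lit 0) (nat_lit 0) (nat_lit 0) (nat_lit 0x7db8a35812) (nat_lit 1118535912),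
  Rx.mk (nat_lit 430) (nat_lit 6) (nat_lit 5) (nat_lit 6) (nat_lit 7) (nat_lit 197) (nat_lit 357) r9_197 r7_357 (nat_lit 0) (nat_lit 0) (nat_lit 0) (nat_lit 0x7ded4a0d72) (nat_lit 1017582696)]
noncomputable def e48_25 : List Rx := [
  Rx.mk (nat_lit 332) (nat_lit 4) (nat_lit 1) (nat_lit 5) (nat_lit 6) (nat_lit 191) (nat_lit 194) r9_191 r7_194 (nat_lit 0) (nat_lit 0) (nat_lit 0) (nat_lit 0x7de3a84798) (nat_lit 1036050912),
  Rx.mk (nat_lit 333) (nat_lit 5) (nat_lit 1) (nat_lit 5) (nat_lit 7) (nat_lit 192) (nat_lit 195) r9_192 r7_195 (nat_lit 0) (nat_lit 0) (nat_lit 0) (nat_lit 0x7dd3600c2c) (nat_lit 1067270256),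
  Rx.mk (nat_lit 334) (nat_lit 6) (nat_lit 1) (nat_lit 5) (nat_lit 7) (nat_lit 193) (nat_lit 196) r9_193 r7_196 (nat_lit 0) (nat_lit 0) (nat_lit 0) (nat_lit 0x7de444fdcc) (nat_lit 1034877168),
  Rx.mk (nat_lit 366) (nat_lit 6) (nat_lit 5) (nat_lit 5) (nat_lit 7) (nat_lit 194) (nat_lit 197) r9_194 r7_197 (nat_lit 0) (nat_lit 0) (nat_lit 0) (nat_lit 0x7dea641bd4) (nat_lit 1023139728)]
noncomputable def e48_26 : List Rx := [
  Rx.mk (nat_lit 268) (nat_lit 4) (nat_lit 1) (nat_lit 4) (nat_lit 2) (nat_lit 198) (nat_lit 357) r9_198 r9_357 (nat_lit 0) (nat_lit 0) (nat_lit 0) (nat_lit 0x72a5eb2ea8) (nat_lit 6553815840),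
  Rx.mk (nat_lit 269) (nat_lit 5) (nat_lit 1) (nat_lit 4) (nat_lit 3) (nat_lit 201) (nat_lit 360) r9_201 r9_360 (nat_lit 0) (nat_lit 0) (nat_lit 0) (nat_lit 0x7d882f7f80) (nat_lit 1211438592),
  Rx.mk (nat_lit 270) (nat_lit 6) (nat_lit 1) (nat_lit 4) (nat_lit 3) (nat_lit 204) (nat_lit 363) r9_204 r9_363 (nat_lit 0) (nat_lit 0) (nat_lit 0) (nat_lit 0x7dac8919c2) (nat_lit 1141741224),
  Rx.mk (nat_lit 332) (nat_lit 4) (nat_lit 1) (nat_lit 5) (nat_lit 6) (nat_lit 199) (nat_lit 358) r9_199 r9_358 (nat_lit 0) (nat_lit 0) (nat_lit 0) (nat_lit 0x7d882f7f80) (nat_lit 1211438592),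
  Rx.mk (nat_lit 333) (nat_lit 5) (nat_lit 1) (nat_lit 5) (nat_lit 7) (nat_lit 202) (nat_lit 361) r9_202 r9_361 (nat_lit 0) (nat_lit 0) (nat_lit 0) (nat_lit 0x7de9472da4) (nat_lit 1025273808),
  Rx.mk (nat_lit 334) (nat_lit 6) (nat_lit 1) (nat_lit 5) (nat_lit 7) (nat_lit 205) (nat_lit 364) r9_205 r9_364 (nat_lit 0) (nat_lit 0) (nat_lit 0) (nat_lit 0x7dd1b386f6) (nat_lit 1070479800),
  Rx.mk (nat_lit 460) (nat_lit 4) (nat_lit 1) (nat_lit 7) (nat_lit 6) (nat_lit 200) (nat_lit 359) r9_200 r9_359 (nat_lit 0) (nat_lit 0) (nat_lit 0) (nat_lit 0x7dac8919c2) (nat_lit 1141741224),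
  Rx.mk (nat_lit 461) (nat_lit 5) (nat_lit 1) (nat_lit 7) (nat_lit 7) (nat_lit 203) (nat_lit 362) r9_203 r9_362 (nat_lit 0) (nat_lit 0) (nat_lit 0) (nat_lit 0x7dd1b386f6) (nat_lit 1070479800)]
noncomputable def e48_27 : List Rx := [
  Rx.mk (nat_lit 460) (nat_lit 4) (nat_lit 1) (nat_lit 7) (nat_lit 6) (nat_lit 240) (nat_lit 361) r9_240 r10_361 (nat_lit 0) (nat_lit 0) (nat_lit 0) (nat_lit 0x7dee57fc92) (nat_lit 1015560936),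
  Rx.mk (nat_lit 461) (nat_lit 5) (nat_lit 1) (nat_lit 7) (nat_lit 7) (nat_lit 241) (nat_lit 362) r9_241 r10_362 (nat_lit 0) (nat_lit 0) (nat_lit 0) (nat_lit 0x7dded7f4a2) (nat_lit 1045280808),
  Rx.mk (nat_lit 462) (nat_lit 6) (nat_lit 1) (nat_lit 7) (nat_lit 7) (nat_lit 242) (nat_lit 363) r9_242 r10_363 (nat_lit 0) (nat_lit 0) (nat_lit 0) (nat_lit 0x7de67cfa4a) (nat_lit 1030623048),
  Rx.mk (nat_lit 494) (nat_lit 6) (nat_lit 5) (nat_lit 7) (nat_lit 7) (nat_lit 243) (nat_lit 360) r9_243 r10_360 (nat_lit 0) (nat_lit 0) (nat_lit 0) (nat_lit 0x7de3898984) (nat_lit 1036281168)]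
noncomputable def e48_28 : List Rx := [
  Rx.mk (nat_lit 5) (nat_lit 5) (nat_lit 0) (nat_lit 0) (nat_lit 1) (nat_lit 374) (nat_lit 230) r9_374 r10_230 (nat_lit 0) (nat_lit 0) (nat_lit 0) (nat_lit 0x7db50971b4) (nat_lit 1125440784),
  Rx.mk (nat_lit 21) (nat_lit 5) (nat_lit 2) (nat_lit 0) (nat_lit 3) (nat_lit 375) (nat_lit 231) r9_375 r10_231 (nat_lit 0) (nat_lit 0) (nat_lit 0) (nat_lit 0x7def382e8e) (nat_lit 1013881752),
  Rx.mk (nat_lit 69) (nat_lit 5) (nat_lit 0) (nat_lit 1) (nat_lit 5) (nat_lit 376) (nat_lit 232) r9_376 r10_232 (nat_lit 0) (nat_lit 0) (nat_lit 0) (nat_lit 0x7defa427ce) (nat_lit 1013073048),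
  Rx.mk (nat_lit 85) (nat_lit 5) (nat_lit 2) (nat_lit 1) (nat_lit 7) (nat_lit 377) (nat_lit 233) r9_377 r10_233 (nat_lit 0) (nat_lit 0) (nat_lit 0) (nat_lit 0x7df680f9fa) (nat_lit 999914760),
  Rx.mk (nat_lit 197) (nat_lit 5) (nat_lit 0) (nat_lit 3) (nat_lit 5) (nat_lit 378) (nat_lit 234) r9_378 r10_234 (nat_lit 0) (nat_lit 0) (nat_lit 0) (nat_lit 0x7de652fcea) (nat_lit 1030937544),
  Rx.mk (nat_lit 221) (nat_lit 5) (nat_lit 3) (nat_lit 3) (nat_lit 7) (nat_lit 379) (nat_lit 235) r9_379 r10_235 (nat_lit 0) (nat_lit 0) (nat_lit 0) (nat_lit 0x7deffe8228) (nat_lit 1012396320)]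
noncomputable def e48_29 : List Rx := [
  Rx.mk (nat_lit 199) (nat_lit 7) (nat_lit 0) (nat_lit 3) (nat_lit 5) (nat_lit 67) (nat_lit 147) r9_67 r5_147 (nat_lit 0) (nat_lit 0) (nat_lit 0) (nat_lit 0x7e8b7789fc) (nat_lit 714293424),
  Rx.mk (nat_lit 207) (nat_lit 7) (nat_lit 1) (nat_lit 3) (nat_lit 7) (nat_lit 68) (nat_lit 148) r9_68 r5_148 (nat_lit 0) (nat_lit 0) (nat_lit 0) (nat_lit 0x7e727d79b6) (nat_lit 762183864),
  Rx.mk (nat_lit 215) (nat_lit 7) (nat_lit 2) (nat_lit 3) (nat_lit 7) (nat_lit 69) (nat_lit 149) r9_69 r5_149 (nat_lit 0) (nat_lit 0) (nat_lit 0) (nat_lit 0x7e762bfeca) (nat_lit 755124552),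
  Rx.mk (nat_lit 452) (nat_lit 4) (nat_lit 0) (nat_lit 7) (nat_lit 4) (nat_lit 59) (nat_lit 140) r9_59 r5_140 (nat_lit 0) (nat_lit 0) (nat_lit 0) (nat_lit 0x73ce85c3d6) (nat_lit 5985108792),
  Rx.mk (nat_lit 453) (nat_lit 5) (nat_lit 0) (nat_lit 7) (nat_lit 5) (nat_lit 62) (nat_lit 143) r9_62 r5_143 (nat_lit 0) (nat_lit 0) (nat_lit 0) (nat_lit 0x7e4ca1579e) (nat_lit 834776280),
  Rx.mk (nat_lit 454) (nat_lit 6) (nat_lit 0) (nat_lit 7) (nat_lit 5) (nat_lit 64) (nat_lit 150) r9_64 r5_150 (nat_lit 0) (nat_lit 0) (nat_lit 0) (nat_lit 0x7e38dd93ee) (nat_lit 872673048),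
  Rx.mk (nat_lit 455) (nat_lit 7) (nat_lit 0) (nat_lit 7) (nat_lit 5) (nat_lit 70) (nat_lit 145) r9_70 r5_145 (nat_lit 0) (nat_lit 0) (nat_lit 0) (nat_lit 0x7d97e9a3ce) (nat_lit 1181283480),
  Rx.mk (nat_lit 460) (nat_lit 4) (nat_lit 1) (nat_lit 7) (nat_lit 6) (nat_lit 60) (nat_lit 141) r9_60 r5_141 (nat_lit 0) (nat_lit 0) (nat_lit 0) (nat_lit 0x7e23b6c670) (nat_lit 913228992),
  Rx.mk (nat_lit 462) (nat_lit 6) (nat_lit 1) (nat_lit 7) (nat_lit 7) (nat_lit 65) (nat_lit 151) r9_65 r5_151 (nat_lit 0) (nat_lit 0) (nat_lit 0) (nat_lit 0x7de0283f9c) (nat_lit 1042762032),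
  Rx.mk (nat_lit 463) (nat_lit 7) (nat_lit 1) (nat_lit 7) (nat_lit 7) (nat_lit 71) (nat_lit 146) r9_71 r5_146 (nat_lit 0) (nat_lit 0) (nat_lit 0) (nat_lit 0x7dedcb0562) (nat_lit 1016616744),
  Rx.mk (nat_lit 476) (nat_lit 4) (nat_lit 3) (nat_lit 7) (nat_lit 6) (nat_lit 61) (nat_lit 142) r9_61 r5_142 (nat_lit 0) (nat_lit 0) (nat_lit 0) (nat_lit 0x7e66094106) (nat_lit 786063096),
  Rx.mk (nat_lit 477) (nat_lit 5) (nat_lit 3) (nat_lit 7) (nat_lit 7) (nat_lit 63) (nat_lit 144) r9_63 r5_144 (nat_lit 0) (nat_lit 0) (nat_lit 0) (nat_lit 0x7def760ab0) (nat_lit 1013418432),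
  Rx.mk (nat_lit 478) (nat_lit 6) (nat_lit 3) (nat_lit 7) (nat_lit 7) (nat_lit 66) (nat_lit 152) r9_66 r5_152 (nat_lit 0) (nat_lit 0) (nat_lit 0) (nat_lit 0x7decc13600) (nat_lit 1018607616)]
noncomputable def e48_30 : List Rx := [
  Rx.mk (nat_lit 268) (nat_lit 4) (nat_lit 1) (nat_lit 4) (nat_lit 2) (nat_lit 206) (nat_lit 230) r9_206 r10_230 (nat_lit 0) (nat_lit 0) (nat_lit 0) (nat_lit 0x7db50971b4) (nat_lit 1125440784),
  Rx.mk (nat_lit 270) (nat_lit 6) (nat_lit 1) (nat_lit 4) (nat_lit 3) (nat_lit 209) (nat_lit 231) r9_209 r10_231 (nat_lit 0) (nat_lit 0) (nat_lit 0) (nat_lit 0x7def382e8e) (nat_lit 1013881752),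
  Rx.mk (nat_lit 332) (nat_lit 4) (nat_lit 1) (nat_lit 5) (nat_lit 6) (nat_lit 207) (nat_lit 232) r9_207 r10_232 (nat_lit 0) (nat_lit 0) (nat_lit 0) (nat_lit 0x7defa427ce) (nat_lit 1013073048),
  Rx.mk (nat_lit 334) (nat_lit 6) (nat_lit 1) (nat_lit 5) (nat_lit 7) (nat_lit 210) (nat_lit 233) r9_210 r10_233 (nat_lit 0) (nat_lit 0) (nat_lit 0) (nat_lit 0x7df680f9fa) (nat_lit 999914760),
  Rx.mk (nat_lit 460) (nat_lit 4) (nat_lit 1) (nat_lit 7) (nat_lit 6) (nat_lit 208) (nat_lit 234) r9_208 r10_234 (nat_lit 0) (nat_lit 0) (nat_lit 0) (nat_lit 0x7de652fcea) (nat_lit 1030937544),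
  Rx.mk (nat_lit 463) (nat_lit 7) (nat_lit 1) (nat_lit 7) (nat_lit 7) (nat_lit 211) (nat_lit 235) r9_211 r10_235 (nat_lit 0) (nat_lit 0) (nat_lit 0) (nat_lit 0x7deffe8228) (nat_lit 1012396320)]
noncomputable def e48_31 : List Rx := [
  Rx.mk (nat_lit 196) (nat_lit 4) (nat_lit 0) (nat_lit 3) (nat_lit 4) (nat_lit 244) (nat_lit 140) r9_244 r5_140 (nat_lit 0) (nat_lit 0) (nat_lit 0) (nat_lit 0x73ce85c3d6) (nat_lit 5985108792),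
  Rx.mk (nat_lit 197) (nat_lit 5) (nat_lit 0) (nat_lit 3) (nat_lit 5) (nat_lit 249) (nat_lit 141) r9_249 r5_141 (nat_lit 0) (nat_lit 0) (nat_lit 0) (nat_lit 0x7e23b6c670) (nat_lit 913228992),
  Rx.mk (nat_lit 199) (nat_lit 7) (nat_lit 0) (nat_lit 3) (nat_lit 5) (nat_lit 254) (nat_lit 142) r9_254 r5_142 (nat_lit 0) (nat_lit 0) (nat_lit 0) (nat_lit 0x7e66094106) (nat_lit 786063096),
  Rx.mk (nat_lit 204) (nat_lit 4) (nat_lit 1) (nat_lit 3) (nat_lit 6) (nat_lit 245) (nat_lit 143) r9_245 r5_143 (nat_lit 0) (nat_lit 0) (nat_lit 0) (nat_lit 0x7e4ca1579e) (nat_lit 834776280),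
  Rx.mk (nat_lit 207) (nat_lit 7) (nat_lit 1) (nat_lit 3) (nat_lit 7) (nat_lit 255) (nat_lit 144) r9_255 r5_144 (nat_lit 0) (nat_lit 0) (nat_lit 0) (nat_lit 0x7def760ab0) (nat_lit 1013418432),
  Rx.mk (nat_lit 212) (nat_lit 4) (nat_lit 2) (nat_lit 3) (nat_lit 6) (nat_lit 246) (nat_lit 150) r9_246 r5_150 (nat_lit 0) (nat_lit 0) (nat_lit 0) (nat_lit 0x7e38dd93ee) (nat_lit 872673048),
  Rx.mk (nat_lit 213) (nat_lit 5) (nat_lit 2) (nat_lit 3) (nat_lit 7) (nat_lit 250) (nat_lit 151) r9_250 r5_151 (nat_lit 0) (nat_lit 0) (nat_lit 0) (nat_lit 0x7de0283f9c) (nat_lit 1042762032),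
  Rx.mk (nat_lit 215) (nat_lit 7) (nat_lit 2) (nat_lit 3) (nat_lit 7) (nat_lit 256) (nat_lit 152) r9_256 r5_152 (nat_lit 0) (nat_lit 0) (nat_lit 0) (nat_lit 0x7decc13600) (nat_lit 1018607616),
  Rx.mk (nat_lit 220) (nat_lit 4) (nat_lit 3) (nat_lit 3) (nat_lit 6) (nat_lit 247) (nat_lit 145) r9_247 r5_145 (nat_lit 0) (nat_lit 0) (nat_lit 0) (nat_lit 0x7d97e9a3ce) (nat_lit 1181283480),
  Rx.mk (nat_lit 221) (nat_lit 5) (nat_lit 3) (nat_lit 3) (nat_lit 7) (nat_lit 251) (nat_lit 146) r9_251 r5_146 (nat_lit 0) (nat_lit 0) (nat_lit 0) (nat_lit 0x7dedcb0562) (nat_lit 1016616744),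
  Rx.mk (nat_lit 476) (nat_lit 4) (nat_lit 3) (nat_lit 7) (nat_lit 6) (nat_lit 248) (nat_lit 147) r9_248 r5_147 (nat_lit 0) (nat_lit 0) (nat_lit 0) (nat_lit 0x7e8b7789fc) (nat_lit 714293424),
  Rx.mk (nat_lit 477) (nat_lit 5) (nat_lit 3) (nat_lit 7) (nat_lit 7) (nat_lit 252) (nat_lit 148) r9_252 r5_148 (nat_lit 0) (nat_lit 0) (nat_lit 0) (nat_lit 0x7e727d79b6) (nat_lit 762183864),
  Rx.mk (nat_lit 478) (nat_lit 6) (nat_lit 3) (nat_lit 7) (nat_lit 7) (nat_lit 253) (nat_lit 149) r9_253 r5_149 (nat_lit 0) (nat_lit 0) (nat_lit 0) (nat_lit 0x7e762bfeca) (nat_lit 755124552)]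
noncomputable def e48_32 : List Rx := [
  Rx.mk (nat_lit 196) (nat_lit 4) (nat_lit 0) (nat_lit 3) (nat_lit 4) (nat_lit 257) (nat_lit 423) r9_257 r11_423 (nat_lit 0) (nat_lit 0) (nat_lit 0) (nat_lit 0x7170076e1a) (nat_lit 7147997064),
  Rx.mk (nat_lit 197) (nat_lit 5) (nat_lit 0) (nat_lit 3) (nat_lit 5) (nat_lit 263) (nat_lit 429) r9_263 r11_429 (nat_lit 0) (nat_lit 0) (nat_lit 0) (nat_lit 0x7e2a064172) (nat_lit 901129320),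
  Rx.mk (nat_lit 199) (nat_lit 7) (nat_lit 0) (nat_lit 3) (nat_lit 5) (nat_lit 270) (nat_lit 433) r9_270 r11_433 (nat_lit 0) (nat_lit 0) (nat_lit 0) (nat_lit 0x7e7b750a34) (nat_lit 744990480),
  Rx.mk (nat_lit 204) (nat_lit 4) (nat_lit 1) (nat_lit 3) (nat_lit 6) (nat_lit 258) (nat_lit 425) r9_258 r11_425 (nat_lit 0) (nat_lit 0) (nat_lit 0) (nat_lit 0x7e73fee19e) (nat_lit 759297240),
  Rx.mk (nat_lit 207) (nat_lit 7) (nat_lit 1) (nat_lit 3) (nat_lit 7) (nat_lit 271) (nat_lit 434) r9_271 r11_434 (nat_lit 0) (nat_lit 0) (nat_lit 0) (nat_lit 0x7df00ea126) (nat_lit 1012275576),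
  Rx.mk (nat_lit 212) (nat_lit 4) (nat_lit 2) (nat_lit 3) (nat_lit 6) (nat_lit 259) (nat_lit 428) r9_259 r11_428 (nat_lit 0) (nat_lit 0) (nat_lit 0) (nat_lit 0x7e504d3cdc) (nat_lit 827736624),
  Rx.mk (nat_lit 213) (nat_lit 5) (nat_lit 2) (nat_lit 3) (nat_lit 7) (nat_lit 264) (nat_lit 432) r9_264 r11_432 (nat_lit 0) (nat_lit 0) (nat_lit 0) (nat_lit 0x7df1f96278) (nat_lit 1008599904),
  Rx.mk (nat_lit 215) (nat_lit 7) (nat_lit 2) (nat_lit 3) (nat_lit 7) (nat_lit 272) (nat_lit 435) r9_272 r11_435 (nat_lit 0) (nat_lit 0) (nat_lit 0) (nat_lit 0x7dd0d29506) (nat_lit 1072164600),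
  Rx.mk (nat_lit 452) (nat_lit 4) (nat_lit 0) (nat_lit 7) (nat_lit 4) (nat_lit 260) (nat_lit 424) r9_260 r11_424 (nat_lit 0) (nat_lit 0) (nat_lit 0) (nat_lit 0x7170076e1a) (nat_lit 7147997064),
  Rx.mk (nat_lit 453) (nat_lit 5) (nat_lit 0) (nat_lit 7) (nat_lit 5) (nat_lit 265) (nat_lit 430) r9_265 r11_430 (nat_lit 0) (nat_lit 0) (nat_lit 0) (nat_lit 0x7e73fee19e) (nat_lit 759297240),
  Rx.mk (nat_lit 454) (nat_lit 6) (nat_lit 0) (nat_lit 7) (nat_lit 5) (nat_lit 267) (nat_lit 436) r9_267 r11_436 (nat_lit 0) (nat_lit 0) (nat_lit 0) (nat_lit 0x7e504d3cdc) (nat_lit 827736624),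
  Rx.mk (nat_lit 460) (nat_lit 4) (nat_lit 1) (nat_lit 7) (nat_lit 6) (nat_lit 261) (nat_lit 426) r9_261 r11_426 (nat_lit 0) (nat_lit 0) (nat_lit 0) (nat_lit 0x7e2a064172) (nat_lit 901129320),
  Rx.mk (nat_lit 462) (nat_lit 6) (nat_lit 1) (nat_lit 7) (nat_lit 7) (nat_lit 268) (nat_lit 437) r9_268 r11_437 (nat_lit 0) (nat_lit 0) (nat_lit 0) (nat_lit 0x7df1f96278) (nat_lit 1008599904),
  Rx.mk (nat_lit 476) (nat_lit 4) (nat_lit 3) (nat_lit 7) (nat_lit 6) (nat_lit 262) (nat_lit 427) r9_262 r11_427 (nat_lit 0) (nat_lit 0) (nat_lit 0) (nat_lit 0x7e7b750a34) (nat_lit 744990480),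
  Rx.mk (nat_lit 477) (nat_lit 5) (nat_lit 3) (nat_lit 7) (nat_lit 7) (nat_lit 266) (nat_lit 431) r9_266 r11_431 (nat_lit 0) (nat_lit 0) (nat_lit 0) (nat_lit 0x7df00ea126) (nat_lit 1012275576),
  Rx.mk (nat_lit 478) (nat_lit 6) (nat_lit 3) (nat_lit 7) (nat_lit 7) (nat_lit 269) (nat_lit 438) r9_269 r11_438 (nat_lit 0) (nat_lit 0) (nat_lit 0) (nat_lit 0x7dd0d29506) (nat_lit 1072164600)]
noncomputable def e48_33 : List Rx := [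
  Rx.mk (nat_lit 294) (nat_lit 6) (nat_lit 4) (nat_lit 4) (nat_lit 1) (nat_lit 0) (nat_lit 147) r9_0 r0_147 (nat_lit 0) (nat_lit 0) (nat_lit 0) (nat_lit 0x6b26bfc8de) (nat_lit 10233624024),
  Rx.mk (nat_lit 318) (nat_lit 6) (nat_lit 7) (nat_lit 4) (nat_lit 3) (nat_lit 1) (nat_lit 148) r9_1 r0_148 (nat_lit 0) (nat_lit 0) (nat_lit 0) (nat_lit 0x776bc40c54) (nat_lit 4211050896),
  Rx.mk (nat_lit 422) (nat_lit 6) (nat_lit 4) (nat_lit 6) (nat_lit 5) (nat_lit 2) (nat_lit 150) r9_2 r0_150 (nat_lit 0) (nat_lit 0) (nat_lit 0) (nat_lit 0x78a7e5a8fe) (nat_lit 3604901976),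
  Rx.mk (nat_lit 446) (nat_lit 6) (nat_lit 7) (nat_lit 6) (nat_lit 7) (nat_lit 3) (nat_lit 151) r9_3 r0_151 (nat_lit 0) (nat_lit 0) (nat_lit 0) (nat_lit 0x7de51cf04c) (nat_lit 1033259760),
  Rx.mk (nat_lit 510) (nat_lit 6) (nat_lit 7) (nat_lit 7) (nat_lit 7) (nat_lit 4) (nat_lit 149) r9_4 r0_149 (nat_lit 0) (nat_lit 0) (nat_lit 0) (nat_lit 0x7de318b092) (nat_lit 1037126376)]
noncomputable def e48_34 : List Rx := [
  Rx.mk (nat_lit 16) (nat_lit 0) (nat_lit 2) (nat_lit 0) (nat_lit 2) (nat_lit 77) (nat_lit 147) r9_77 r0_147 (nat_lit 0) (nat_lit 0) (nat_lit 0) (nat_lit 0x6b26bfc8de) (nat_lit 10233624024),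
  Rx.mk (nat_lit 19) (nat_lit 3) (nat_lit 2) (nat_lit 0) (nat_lit 3) (nat_lit 79) (nat_lit 148) r9_79 r0_148 (nat_lit 0) (nat_lit 0) (nat_lit 0) (nat_lit 0x776bc40c54) (nat_lit 4211050896),
  Rx.mk (nat_lit 144) (nat_lit 0) (nat_lit 2) (nat_lit 2) (nat_lit 6) (nat_lit 78) (nat_lit 150) r9_78 r0_150 (nat_lit 0) (nat_lit 0) (nat_lit 0) (nat_lit 0x78a7e5a8fe) (nat_lit 3604901976),
  Rx.mk (nat_lit 147) (nat_lit 3) (nat_lit 2) (nat_lit 2) (nat_lit 7) (nat_lit 80) (nat_lit 151) r9_80 r0_151 (nat_lit 0) (nat_lit 0) (nat_lit 0) (nat_lit 0x7de51cf04c) (nat_lit 1033259760),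
  Rx.mk (nat_lit 211) (nat_lit 3) (nat_lit 2) (nat_lit 3) (nat_lit 7) (nat_lit 81) (nat_lit 149) r9_81 r0_149 (nat_lit 0) (nat_lit 0) (nat_lit 0) (nat_lit 0x7de318b092) (nat_lit 1037126376)]
noncomputable def e48_35 : List Rx := [
  Rx.mk (nat_lit 16) (nat_lit 0) (nat_lit 2) (nat_lit 0) (nat_lit 2) (nat_lit 82) (nat_lit 189) r9_82 r6_189 (nat_lit 0) (nat_lit 0) (nat_lit 0) (nat_lit 0x7664114888) (nat_lit 4716664992),
  Rx.mk (nat_lit 19) (nat_lit 3) (nat_lit 2) (nat_lit 0) (nat_lit 3) (nat_lit 88) (nat_lit 192) r9_88 r6_192 (nat_lit 0) (nat_lit 0) (nat_lit 0) (nat_lit 0x7d1458fd5c) (nat_lit 1433545776),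
  Rx.mk (nat_lit 144) (nat_lit 0) (nat_lit 2) (nat_lit 2) (nat_lit 6) (nat_lit 83) (nat_lit 191) r9_83 r6_191 (nat_lit 0) (nat_lit 0) (nat_lit 0) (nat_lit 0x7df0b276e8) (nat_lit 1011048480),
  Rx.mk (nat_lit 147) (nat_lit 3) (nat_lit 2) (nat_lit 2) (nat_lit 7) (nat_lit 89) (nat_lit 194) r9_89 r6_194 (nat_lit 0) (nat_lit 0) (nat_lit 0) (nat_lit 0x7decc01612) (nat_lit 1018616040),
  Rx.mk (nat_lit 176) (nat_lit 0) (nat_lit 6) (nat_lit 2) (nat_lit 6) (nat_lit 84) (nat_lit 190) r9_84 r6_190 (nat_lit 0) (nat_lit 0) (nat_lit 0) (nat_lit 0x7d9efc12a0) (nat_lit 1167723648),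
  Rx.mk (nat_lit 178) (nat_lit 2) (nat_lit 6) (nat_lit 2) (nat_lit 7) (nat_lit 85) (nat_lit 197) r9_85 r6_197 (nat_lit 0) (nat_lit 0) (nat_lit 0) (nat_lit 0x7db9dc0486) (nat_lit 1116194040),
  Rx.mk (nat_lit 211) (nat_lit 3) (nat_lit 2) (nat_lit 3) (nat_lit 7) (nat_lit 90) (nat_lit 193) r9_90 r6_193 (nat_lit 0) (nat_lit 0) (nat_lit 0) (nat_lit 0x7deb8e2932) (nat_lit 1020907368),
  Rx.mk (nat_lit 294) (nat_lit 6) (nat_lit 4) (nat_lit 4) (nat_lit 1) (nat_lit 91) (nat_lit 184) r9_91 r6_184 (nat_lit 0) (nat_lit 0) (nat_lit 0) (nat_lit 0x7664114888) (nat_lit 4716664992),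
  Rx.mk (nat_lit 318) (nat_lit 6) (nat_lit 7) (nat_lit 4) (nat_lit 3) (nat_lit 92) (nat_lit 185) r9_92 r6_185 (nat_lit 0) (nat_lit 0) (nat_lit 0) (nat_lit 0x7d1458fd5c) (nat_lit 1433545776),
  Rx.mk (nat_lit 418) (nat_lit 2) (nat_lit 4) (nat_lit 6) (nat_lit 5) (nat_lit 86) (nat_lit 195) r9_86 r6_195 (nat_lit 0) (nat_lit 0) (nat_lit 0) (nat_lit 0x7d9efc12a0) (nat_lit 1167723648),
  Rx.mk (nat_lit 422) (nat_lit 6) (nat_lit 4) (nat_lit 6) (nat_lit 5) (nat_lit 93) (nat_lit 187) r9_93 r6_187 (nat_lit 0) (nat_lit 0) (nat_lit 0) (nat_lit 0x7df0b276e8) (nat_lit 1011048480),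
  Rx.mk (nat_lit 434) (nat_lit 2) (nat_lit 6) (nat_lit 6) (nat_lit 7) (nat_lit 87) (nat_lit 196) r9_87 r6_196 (nat_lit 0) (nat_lit 0) (nat_lit 0) (nat_lit 0x7db9dc0486) (nat_lit 1116194040),
  Rx.mk (nat_lit 446) (nat_lit 6) (nat_lit 7) (nat_lit 6) (nat_lit 7) (nat_lit 94) (nat_lit 188) r9_94 r6_188 (nat_lit 0) (nat_lit 0) (nat_lit 0) (nat_lit 0x7decc01612) (nat_lit 1018616040),
  Rx.mk (nat_lit 510) (nat_lit 6) (nat_lit 7) (nat_lit 7) (nat_lit 7) (nat_lit 95) (nat_lit 186) r9_95 r6_186 (nat_lit 0) (nat_lit 0) (nat_lit 0) (nat_lit 0x7deb8e2932) (nat_lit 1020907368)]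
noncomputable def e48_36 : List Rx := [
  Rx.mk (nat_lit 16) (nat_lit 0) (nat_lit 2) (nat_lit 0) (nat_lit 2) (nat_lit 292) (nat_lit 160) r9_292 r2_160 (nat_lit 0) (nat_lit 0) (nat_lit 0) (nat_lit 0x716992d56a) (nat_lit 7160374728),
  Rx.mk (nat_lit 17) (nat_lit 1) (nat_lit 2) (nat_lit 0) (nat_lit 3) (nat_lit 295) (nat_lit 161) r9_295 r2_161 (nat_lit 0) (nat_lit 0) (nat_lit 0) (nat_lit 0x7c4aec14f4) (nat_lit 1819758096),
  Rx.mk (nat_lit 144) (nat_lit 0) (nat_lit 2) (nat_lit 2) (nat_lit 6) (nat_lit 293) (nat_lit 165) r9_293 r2_165 (nat_lit 0) (nat_lit 0) (nat_lit 0) (nat_lit 0x7d6c413e80) (nat_lit 1264992768),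
  Rx.mk (nat_lit 145) (nat_lit 1) (nat_lit 2) (nat_lit 2) (nat_lit 7) (nat_lit 296) (nat_lit 166) r9_296 r2_166 (nat_lit 0) (nat_lit 0) (nat_lit 0) (nat_lit 0x7dce829a08) (nat_lit 1076598432),
  Rx.mk (nat_lit 208) (nat_lit 0) (nat_lit 2) (nat_lit 3) (nat_lit 6) (nat_lit 294) (nat_lit 162) r9_294 r2_162 (nat_lit 0) (nat_lit 0) (nat_lit 0) (nat_lit 0x7d8494d92e) (nat_lit 1218349080),
  Rx.mk (nat_lit 209) (nat_lit 1) (nat_lit 2) (nat_lit 3) (nat_lit 7) (nat_lit 297) (nat_lit 163) r9_297 r2_163 (nat_lit 0) (nat_lit 0) (nat_lit 0) (nat_lit 0x7de22aff6e) (nat_lit 1038906648),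
  Rx.mk (nat_lit 211) (nat_lit 3) (nat_lit 2) (nat_lit 3) (nat_lit 7) (nat_lit 298) (nat_lit 164) r9_298 r2_164 (nat_lit 0) (nat_lit 0) (nat_lit 0) (nat_lit 0x7ddafc725e) (nat_lit 1052677080)]
noncomputable def e48_37 : List Rx := [
  Rx.mk (nat_lit 16) (nat_lit 0) (nat_lit 2) (nat_lit 0) (nat_lit 2) (nat_lit 304) (nat_lit 136) r9_304 r8_136 (nat_lit 0) (nat_lit 0) (nat_lit 0) (nat_lit 0x71a1bf9266) (nat_lit 7052665464),
  Rx.mk (nat_lit 17) (nat_lit 1) (nat_lit 2) (nat_lit 0) (nat_lit 3) (nat_lit 308) (nat_lit 137) r9_308 r8_137 (nat_lit 0) (nat_lit 0) (nat_lit 0) (nat_lit 0x7ce5b0c80e) (nat_lit 1523005848),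
  Rx.mk (nat_lit 144) (nat_lit 0) (nat_lit 2) (nat_lit 2) (nat_lit 6) (nat_lit 305) (nat_lit 141) r9_305 r8_141 (nat_lit 0) (nat_lit 0) (nat_lit 0) (nat_lit 0x7db930af3c) (nat_lit 1117477296),
  Rx.mk (nat_lit 145) (nat_lit 1) (nat_lit 2) (nat_lit 2) (nat_lit 7) (nat_lit 309) (nat_lit 142) r9_309 r8_142 (nat_lit 0) (nat_lit 0) (nat_lit 0) (nat_lit 0x7dda391e94) (nat_lit 1054140048),
  Rx.mk (nat_lit 176) (nat_lit 0) (nat_lit 6) (nat_lit 2) (nat_lit 6) (nat_lit 306) (nat_lit 143) r9_306 r8_143 (nat_lit 0) (nat_lit 0) (nat_lit 0) (nat_lit 0x7dc6281fb8) (nat_lit 1092615264),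
  Rx.mk (nat_lit 177) (nat_lit 1) (nat_lit 6) (nat_lit 2) (nat_lit 7) (nat_lit 310) (nat_lit 144) r9_310 r8_144 (nat_lit 0) (nat_lit 0) (nat_lit 0) (nat_lit 0x7de07d5a4a) (nat_lit 1042124616),
  Rx.mk (nat_lit 178) (nat_lit 2) (nat_lit 6) (nat_lit 2) (nat_lit 7) (nat_lit 312) (nat_lit 145) r9_312 r8_145 (nat_lit 0) (nat_lit 0) (nat_lit 0) (nat_lit 0x7de96beb58) (nat_lit 1024998624),
  Rx.mk (nat_lit 208) (nat_lit 0) (nat_lit 2) (nat_lit 3) (nat_lit 6) (nat_lit 307) (nat_lit 138) r9_307 r8_138 (nat_lit 0) (nat_lit 0) (nat_lit 0) (nat_lit 0x7ddb1ef036) (nat_lit 1052418744),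
  Rx.mk (nat_lit 209) (nat_lit 1) (nat_lit 2) (nat_lit 3) (nat_lit 7) (nat_lit 311) (nat_lit 139) r9_311 r8_139 (nat_lit 0) (nat_lit 0) (nat_lit 0) (nat_lit 0x7debf422d2) (nat_lit 1020143592),
  Rx.mk (nat_lit 211) (nat_lit 3) (nat_lit 2) (nat_lit 3) (nat_lit 7) (nat_lit 313) (nat_lit 140) r9_313 r8_140 (nat_lit 0) (nat_lit 0) (nat_lit 0) (nat_lit 0x7decfd923a) (nat_lit 1018155528)]
noncomputable def e48_38 : List Rx := [
  Rx.mk (nat_lit 16) (nat_lit 0) (nat_lit 2) (nat_lit 0) (nat_lit 2) (nat_lit 299) (nat_lit 209) r9_299 r8_209 (nat_lit 0) (nat_lit 0) (nat_lit 0) (nat_lit 0x6a74ad2aba) (nat_lit 10575059976),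
  Rx.mk (nat_lit 17) (nat_lit 1) (nat_lit 2) (nat_lit 0) (nat_lit 3) (nat_lit 301) (nat_lit 210) r9_301 r8_210 (nat_lit 0) (nat_lit 0) (nat_lit 0) (nat_lit 0x7df31b305a) (nat_lit 1006429320),
  Rx.mk (nat_lit 81) (nat_lit 1) (nat_lit 2) (nat_lit 1) (nat_lit 7) (nat_lit 302) (nat_lit 211) r9_302 r8_211 (nat_lit 0) (nat_lit 0) (nat_lit 0) (nat_lit 0x7df6743ac6) (nat_lit 1000010232),
  Rx.mk (nat_lit 144) (nat_lit 0) (nat_lit 2) (nat_lit 2) (nat_lit 6) (nat_lit 300) (nat_lit 212) r9_300 r8_212 (nat_lit 0) (nat_lit 0) (nat_lit 0) (nat_lit 0x7dd319309a) (nat_lit 1067800968),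
  Rx.mk (nat_lit 145) (nat_lit 1) (nat_lit 2) (nat_lit 2) (nat_lit 7) (nat_lit 303) (nat_lit 213) r9_303 r8_213 (nat_lit 0) (nat_lit 0) (nat_lit 0) (nat_lit 0x7de391c900) (nat_lit 1036219392)]
noncomputable def e48_39 : List Rx := [
  Rx.mk (nat_lit 16) (nat_lit 0) (nat_lit 2) (nat_lit 0) (nat_lit 2) (nat_lit 96) (nat_lit 161) r9_96 r1_161 (nat_lit 0) (nat_lit 0) (nat_lit 0) (nat_lit 0x6ef8548bc0) (nat_lit 8359213824),
  Rx.mk (nat_lit 19) (nat_lit 3) (nat_lit 2) (nat_lit 0) (nat_lit 3) (nat_lit 98) (nat_lit 162) r9_98 r1_162 (nat_lit 0) (nat_lit 0) (nat_lit 0) (nat_lit 0x7d8f13d134) (nat_lit 1198224144),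
  Rx.mk (nat_lit 144) (nat_lit 0) (nat_lit 2) (nat_lit 2) (nat_lit 6) (nat_lit 97) (nat_lit 164) r9_97 r1_164 (nat_lit 0) (nat_lit 0) (nat_lit 0) (nat_lit 0x7303d06ff6) (nat_lit 6373780920),
  Rx.mk (nat_lit 147) (nat_lit 3) (nat_lit 2) (nat_lit 2) (nat_lit 7) (nat_lit 99) (nat_lit 165) r9_99 r1_165 (nat_lit 0) (nat_lit 0) (nat_lit 0) (nat_lit 0x7da7a24834) (nat_lit 1151139600),
  Rx.mk (nat_lit 211) (nat_lit 3) (nat_lit 2) (nat_lit 3) (nat_lit 7) (nat_lit 100) (nat_lit 163) r9_100 r1_163 (nat_lit 0) (nat_lit 0) (nat_lit 0) (nat_lit 0x7dfc5f3c10) (nat_lit 988663104)]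
noncomputable def e48_40 : List Rx := [
  Rx.mk (nat_lit 16) (nat_lit 0) (nat_lit 2) (nat_lit 0) (nat_lit 2) (nat_lit 101) (nat_lit 149) r9_101 r7_149 (nat_lit 0) (nat_lit 0) (nat_lit 0) (nat_lit 0x697a4a51e2) (nat_lit 11055149352),
  Rx.mk (nat_lit 19) (nat_lit 3) (nat_lit 2) (nat_lit 0) (nat_lit 3) (nat_lit 106) (nat_lit 152) r9_106 r7_152 (nat_lit 0) (nat_lit 0) (nat_lit 0) (nat_lit 0x7d98e3b42c) (nat_lit 1179410544),
  Rx.mk (nat_lit 144) (nat_lit 0) (nat_lit 2) (nat_lit 2) (nat_lit 6) (nat_lit 102) (nat_lit 151) r9_102 r7_151 (nat_lit 0) (nat_lit 0) (nat_lit 0) (nat_lit 0x7d71a7281c) (nat_lit 1254642480),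
  Rx.mk (nat_lit 147) (nat_lit 3) (nat_lit 2) (nat_lit 2) (nat_lit 7) (nat_lit 107) (nat_lit 154) r9_107 r7_154 (nat_lit 0) (nat_lit 0) (nat_lit 0) (nat_lit 0x7df9b7868e) (nat_lit 993754008),
  Rx.mk (nat_lit 176) (nat_lit 0) (nat_lit 6) (nat_lit 2) (nat_lit 6) (nat_lit 103) (nat_lit 150) r9_103 r7_150 (nat_lit 0) (nat_lit 0) (nat_lit 0) (nat_lit 0x7df79428c6) (nat_lit 997853688),
  Rx.mk (nat_lit 178) (nat_lit 2) (nat_lit 6) (nat_lit 2) (nat_lit 7) (nat_lit 104) (nat_lit 156) r9_104 r7_156 (nat_lit 0) (nat_lit 0) (nat_lit 0) (nat_lit 0x7dc2cfd540) (nat_lit 1099028736),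
  Rx.mk (nat_lit 211) (nat_lit 3) (nat_lit 2) (nat_lit 3) (nat_lit 7) (nat_lit 108) (nat_lit 153) r9_108 r7_153 (nat_lit 0) (nat_lit 0) (nat_lit 0) (nat_lit 0x7dddb20702) (nat_lit 1047482280),
  Rx.mk (nat_lit 434) (nat_lit 2) (nat_lit 6) (nat_lit 6) (nat_lit 7) (nat_lit 105) (nat_lit 155) r9_105 r7_155 (nat_lit 0) (nat_lit 0) (nat_lit 0) (nat_lit 0x7dcddbc476) (nat_lit 1077847992)]
noncomputable def e48_41 : List Rx := [
  Rx.mk (nat_lit 294) (nat_lit 6) (nat_lit 4) (nat_lit 4) (nat_lit 1) (nat_lit 5) (nat_lit 161) r9_5 r1_161 (nat_lit 0) (nat_lit 0) (nat_lit 0) (nat_lit 0x6ef8548bc0) (nat_lit 8359213824),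
  Rx.mk (nat_lit 318) (nat_lit 6) (nat_lit 7) (nat_lit 4) (nat_lit 3) (nat_lit 6) (nat_lit 162) r9_6 r1_162 (nat_lit 0) (nat_lit 0) (nat_lit 0) (nat_lit 0x7d8f13d134) (nat_lit 1198224144),
  Rx.mk (nat_lit 422) (nat_lit 6) (nat_lit 4) (nat_lit 6) (nat_lit 5) (nat_lit 7) (nat_lit 164) r9_7 r1_164 (nat_lit 0) (nat_lit 0) (nat_lit 0) (nat_lit 0x7303d06ff6) (nat_lit 6373780920),
  Rx.mk (nat_lit 446) (nat_lit 6) (nat_lit 7) (nat_lit 6) (nat_lit 7) (nat_lit 8) (nat_lit 165) r9_8 r1_165 (nat_lit 0) (nat_lit 0) (nat_lit 0) (nat_lit 0x7da7a24834) (nat_lit 1151139600),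
  Rx.mk (nat_lit 510) (nat_lit 6) (nat_lit 7) (nat_lit 7) (nat_lit 7) (nat_lit 9) (nat_lit 163) r9_9 r1_163 (nat_lit 0) (nat_lit 0) (nat_lit 0) (nat_lit 0x7dfc5f3c10) (nat_lit 988663104)]
noncomputable def e48_42 : List Rx := [
  Rx.mk (nat_lit 294) (nat_lit 6) (nat_lit 4) (nat_lit 4) (nat_lit 1) (nat_lit 10) (nat_lit 160) r9_10 r2_160 (nat_lit 0) (nat_lit 0) (nat_lit 0) (nat_lit 0x716992d56a) (nat_lit 7160374728),
  Rx.mk (nat_lit 302) (nat_lit 6) (nat_lit 5) (nat_lit 4) (nat_lit 3) (nat_lit 11) (nat_lit 161) r9_11 r2_161 (nat_lit 0) (nat_lit 0) (nat_lit 0) (nat_lit 0x7c4aec14f4) (nat_lit 1819758096),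
  Rx.mk (nat_lit 422) (nat_lit 6) (nat_lit 4) (nat_lit 6) (nat_lit 5) (nat_lit 12) (nat_lit 165) r9_12 r2_165 (nat_lit 0) (nat_lit 0) (nat_lit 0) (nat_lit 0x7d6c413e80) (nat_lit 1264992768),
  Rx.mk (nat_lit 430) (nat_lit 6) (nat_lit 5) (nat_lit 6) (nat_lit 7) (nat_lit 13) (nat_lit 166) r9_13 r2_166 (nat_lit 0) (nat_lit 0) (nat_lit 0) (nat_lit 0x7dce829a08) (nat_lit 1076598432),
  Rx.mk (nat_lit 486) (nat_lit 6) (nat_lit 4) (nat_lit 7) (nat_lit 5) (nat_lit 14) (nat_lit 162) r9_14 r2_162 (nat_lit 0) (nat_lit 0) (nat_lit 0) (nat_lit 0x7d8494d92e) (nat_lit 1218349080),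
  Rx.mk (nat_lit 494) (nat_lit 6) (nat_lit 5) (nat_lit 7) (nat_lit 7) (nat_lit 15) (nat_lit 163) r9_15 r2_163 (nat_lit 0) (nat_lit 0) (nat_lit 0) (nat_lit 0x7de22aff6e) (nat_lit 1038906648),
  Rx.mk (nat_lit 510) (nat_lit 6) (nat_lit 7) (nat_lit 7) (nat_lit 7) (nat_lit 16) (nat_lit 164) r9_16 r2_164 (nat_lit 0) (nat_lit 0) (nat_lit 0) (nat_lit 0x7ddafc725e) (nat_lit 1052677080)]
noncomputable def e48_43 : List Rx := [
  Rx.mk (nat_lit 178) (nat_lit 2) (nat_lit 6) (nat_lit 2) (nat_lit 7) (nat_lit 109) (nat_lit 155) r9_109 r7_155 (nat_lit 0) (nat_lit 0) (nat_lit 0) (nat_lit 0x7dcddbc476) (nat_lit 1077847992),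
  Rx.mk (nat_lit 294) (nat_lit 6) (nat_lit 4) (nat_lit 4) (nat_lit 1) (nat_lit 112) (nat_lit 149) r9_112 r7_149 (nat_lit 0) (nat_lit 0) (nat_lit 0) (nat_lit 0x697a4a51e2) (nat_lit 11055149352),
  Rx.mk (nat_lit 318) (nat_lit 6) (nat_lit 7) (nat_lit 4) (nat_lit 3) (nat_lit 113) (nat_lit 152) r9_113 r7_152 (nat_lit 0) (nat_lit 0) (nat_lit 0) (nat_lit 0x7d98e3b42c) (nat_lit 1179410544),
  Rx.mk (nat_lit 418) (nat_lit 2) (nat_lit 4) (nat_lit 6) (nat_lit 5) (nat_lit 110) (nat_lit 150) r9_110 r7_150 (nat_lit 0) (nat_lit 0) (nat_lit 0) (nat_lit 0x7df79428c6) (nat_lit 997853688),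
  Rx.mk (nat_lit 422) (nat_lit 6) (nat_lit 4) (nat_lit 6) (nat_lit 5) (nat_lit 114) (nat_lit 151) r9_114 r7_151 (nat_lit 0) (nat_lit 0) (nat_lit 0) (nat_lit 0x7d71a7281c) (nat_lit 1254642480),
  Rx.mk (nat_lit 434) (nat_lit 2) (nat_lit 6) (nat_lit 6) (nat_lit 7) (nat_lit 111) (nat_lit 156) r9_111 r7_156 (nat_lit 0) (nat_lit 0) (nat_lit 0) (nat_lit 0x7dc2cfd540) (nat_lit 1099028736),
  Rx.mk (nat_lit 446) (nat_lit 6) (nat_lit 7) (nat_lit 6) (nat_lit 7) (nat_lit 115) (nat_lit 154) r9_115 r7_154 (nat_lit 0) (nat_lit 0) (nat_lit 0) (nat_lit 0x7df9b7868e) (nat_lit 993754008),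
  Rx.mk (nat_lit 510) (nat_lit 6) (nat_lit 7) (nat_lit 7) (nat_lit 7) (nat_lit 116) (nat_lit 153) r9_116 r7_153 (nat_lit 0) (nat_lit 0) (nat_lit 0) (nat_lit 0x7dddb20702) (nat_lit 1047482280)]
noncomputable def e48_44 : List Rx := [
  Rx.mk (nat_lit 294) (nat_lit 6) (nat_lit 4) (nat_lit 4) (nat_lit 1) (nat_lit 120) (nat_lit 136) r9_120 r8_136 (nat_lit 0) (nat_lit 0) (nat_lit 0) (nat_lit 0x71a1bf9266) (nat_lit 7052665464),
  Rx.mk (nat_lit 302) (nat_lit 6) (nat_lit 5) (nat_lit 4) (nat_lit 3) (nat_lit 121) (nat_lit 137) r9_121 r8_137 (nat_lit 0) (nat_lit 0) (nat_lit 0) (nat_lit 0x7ce5b0c80e) (nat_lit 1523005848),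
  Rx.mk (nat_lit 418) (nat_lit 2) (nat_lit 4) (nat_lit 6) (nat_lit 5) (nat_lit 117) (nat_lit 143) r9_117 r8_143 (nat_lit 0) (nat_lit 0) (nat_lit 0) (nat_lit 0x7dc6281fb8) (nat_lit 1092615264),
  Rx.mk (nat_lit 422) (nat_lit 6) (nat_lit 4) (nat_lit 6) (nat_lit 5) (nat_lit 122) (nat_lit 141) r9_122 r8_141 (nat_lit 0) (nat_lit 0) (nat_lit 0) (nat_lit 0x7db930af3c) (nat_lit 1117477296),
  Rx.mk (nat_lit 426) (nat_lit 2) (nat_lit 5) (nat_lit 6) (nat_lit 7) (nat_lit 118) (nat_lit 144) r9_118 r8_144 (nat_lit 0) (nat_lit 0) (nat_lit 0) (nat_lit 0x7de07d5a4a) (nat_lit 1042124616),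
  Rx.mk (nat_lit 430) (nat_lit 6) (nat_lit 5) (nat_lit 6) (nat_lit 7) (nat_lit 123) (nat_lit 142) r9_123 r8_142 (nat_lit 0) (nat_lit 0) (nat_lit 0) (nat_lit 0x7dda391e94) (nat_lit 1054140048),
  Rx.mk (nat_lit 434) (nat_lit 2) (nat_lit 6) (nat_lit 6) (nat_lit 7) (nat_lit 119) (nat_lit 145) r9_119 r8_145 (nat_lit 0) (nat_lit 0) (nat_lit 0) (nat_lit 0x7de96beb58) (nat_lit 1024998624),
  Rx.mk (nat_lit 486) (nat_lit 6) (nat_lit 4) (nat_lit 7) (nat_lit 5) (nat_lit 124) (nat_lit 138) r9_124 r8_138 (nat_lit 0) (nat_lit 0) (nat_lit 0) (nat_lit 0x7ddb1ef036) (nat_lit 1052418744),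
  Rx.mk (nat_lit 494) (nat_lit 6) (nat_lit 5) (nat_lit 7) (nat_lit 7) (nat_lit 125) (nat_lit 139) r9_125 r8_139 (nat_lit 0) (nat_lit 0) (nat_lit 0) (nat_lit 0x7debf422d2) (nat_lit 1020143592),
  Rx.mk (nat_lit 510) (nat_lit 6) (nat_lit 7) (nat_lit 7) (nat_lit 7) (nat_lit 126) (nat_lit 140) r9_126 r8_140 (nat_lit 0) (nat_lit 0) (nat_lit 0) (nat_lit 0x7decfd923a) (nat_lit 1018155528)]
noncomputable def e48_45 : List Rx := [
  Rx.mk (nat_lit 294) (nat_lit 6) (nat_lit 4) (nat_lit 4) (nat_lit 1) (nat_lit 161) (nat_lit 209) r9_161 r8_209 (nat_lit 0) (nat_lit 0) (nat_lit 0) (nat_lit 0x6a74ad2aba) (nat_lit 10575059976),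
  Rx.mk (nat_lit 302) (nat_lit 6) (nat_lit 5) (nat_lit 4) (nat_lit 3) (nat_lit 162) (nat_lit 210) r9_162 r8_210 (nat_lit 0) (nat_lit 0) (nat_lit 0) (nat_lit 0x7df31b305a) (nat_lit 1006429320),
  Rx.mk (nat_lit 366) (nat_lit 6) (nat_lit 5) (nat_lit 5) (nat_lit 7) (nat_lit 163) (nat_lit 211) r9_163 r8_211 (nat_lit 0) (nat_lit 0) (nat_lit 0) (nat_lit 0x7df6743ac6) (nat_lit 1000010232),
  Rx.mk (nat_lit 422) (nat_lit 6) (nat_lit 4) (nat_lit 6) (nat_lit 5) (nat_lit 164) (nat_lit 212) r9_164 r8_212 (nat_lit 0) (nat_lit 0) (nat_lit 0) (nat_lit 0x7dd319309a) (nat_lit 1067800968),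
  Rx.mk (nat_lit 430) (nat_lit 6) (nat_lit 5) (nat_lit 6) (nat_lit 7) (nat_lit 165) (nat_lit 213) r9_165 r8_213 (nat_lit 0) (nat_lit 0) (nat_lit 0) (nat_lit 0x7de391c900) (nat_lit 1036219392)]
noncomputable def e48_46 : List Rx := [
  Rx.mk (nat_lit 199) (nat_lit 7) (nat_lit 0) (nat_lit 3) (nat_lit 5) (nat_lit 28) (nat_lit 136) r9_28 r4_136 (nat_lit 0) (nat_lit 0) (nat_lit 0) (nat_lit 0x7e412fcec2) (nat_lit 856717992),
  Rx.mk (nat_lit 215) (nat_lit 7) (nat_lit 2) (nat_lit 3) (nat_lit 7) (nat_lit 29) (nat_lit 138) r9_29 r4_138 (nat_lit 0) (nat_lit 0) (nat_lit 0) (nat_lit 0x7dd37c8a64) (nat_lit 1067056848),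
  Rx.mk (nat_lit 223) (nat_lit 7) (nat_lit 3) (nat_lit 3) (nat_lit 7) (nat_lit 30) (nat_lit 137) r9_30 r4_137 (nat_lit 0) (nat_lit 0) (nat_lit 0) (nat_lit 0x7dee99387e) (nat_lit 1015072344),
  Rx.mk (nat_lit 318) (nat_lit 6) (nat_lit 7) (nat_lit 4) (nat_lit 3) (nat_lit 24) (nat_lit 139) r9_24 r4_139 (nat_lit 0) (nat_lit 0) (nat_lit 0) (nat_lit 0x7afc995b6e) (nat_lit 2460787992),
  Rx.mk (nat_lit 446) (nat_lit 6) (nat_lit 7) (nat_lit 6) (nat_lit 7) (nat_lit 25) (nat_lit 142) r9_25 r4_142 (nat_lit 0) (nat_lit 0) (nat_lit 0) (nat_lit 0x7db07b1a9e) (nat_lit 1134176472),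
  Rx.mk (nat_lit 476) (nat_lit 4) (nat_lit 3) (nat_lit 7) (nat_lit 6) (nat_lit 23) (nat_lit 134) r9_23 r4_134 (nat_lit 0) (nat_lit 0) (nat_lit 0) (nat_lit 0x7d77e26462) (nat_lit 1242694440),
  Rx.mk (nat_lit 478) (nat_lit 6) (nat_lit 3) (nat_lit 7) (nat_lit 7) (nat_lit 26) (nat_lit 141) r9_26 r4_141 (nat_lit 0) (nat_lit 0) (nat_lit 0) (nat_lit 0x7dede0640c) (nat_lit 1016456688),
  Rx.mk (nat_lit 479) (nat_lit 7) (nat_lit 3) (nat_lit 7) (nat_lit 7) (nat_lit 31) (nat_lit 135) r9_31 r4_135 (nat_lit 0) (nat_lit 0) (nat_lit 0) (nat_lit 0x7df0f592b6) (nat_lit 1010545848),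
  Rx.mk (nat_lit 510) (nat_lit 6) (nat_lit 7) (nat_lit 7) (nat_lit 7) (nat_lit 27) (nat_lit 140) r9_27 r4_140 (nat_lit 0) (nat_lit 0) (nat_lit 0) (nat_lit 0x7e4a4f1cc4) (nat_lit 839226960)]
noncomputable def e48_47 : List Rx := [
  Rx.mk (nat_lit 19) (nat_lit 3) (nat_lit 2) (nat_lit 0) (nat_lit 3) (nat_lit 127) (nat_lit 139) r9_127 r4_139 (nat_lit 0) (nat_lit 0) (nat_lit 0) (nat_lit 0x7afc995b6e) (nat_lit 2460787992),
  Rx.mk (nat_lit 147) (nat_lit 3) (nat_lit 2) (nat_lit 2) (nat_lit 7) (nat_lit 128) (nat_lit 142) r9_128 r4_142 (nat_lit 0) (nat_lit 0) (nat_lit 0) (nat_lit 0x7db07b1a9e) (nat_lit 1134176472),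
  Rx.mk (nat_lit 199) (nat_lit 7) (nat_lit 0) (nat_lit 3) (nat_lit 5) (nat_lit 132) (nat_lit 134) r9_132 r4_134 (nat_lit 0) (nat_lit 0) (nat_lit 0) (nat_lit 0x7d77e26462) (nat_lit 1242694440),
  Rx.mk (nat_lit 211) (nat_lit 3) (nat_lit 2) (nat_lit 3) (nat_lit 7) (nat_lit 129) (nat_lit 140) r9_129 r4_140 (nat_lit 0) (nat_lit 0) (nat_lit 0) (nat_lit 0x7e4a4f1cc4) (nat_lit 839226960),
  Rx.mk (nat_lit 215) (nat_lit 7) (nat_lit 2) (nat_lit 3) (nat_lit 7) (nat_lit 133) (nat_lit 141) r9_133 r4_141 (nat_lit 0) (nat_lit 0) (nat_lit 0) (nat_lit 0x7dede0640c) (nat_lit 1016456688),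
  Rx.mk (nat_lit 223) (nat_lit 7) (nat_lit 3) (nat_lit 3) (nat_lit 7) (nat_lit 134) (nat_lit 135) r9_134 r4_135 (nat_lit 0) (nat_lit 0) (nat_lit 0) (nat_lit 0x7df0f592b6) (nat_lit 1010545848),
  Rx.mk (nat_lit 476) (nat_lit 4) (nat_lit 3) (nat_lit 7) (nat_lit 6) (nat_lit 130) (nat_lit 136) r9_130 r4_136 (nat_lit 0) (nat_lit 0) (nat_lit 0) (nat_lit 0x7e412fcec2) (nat_lit 856717992),
  Rx.mk (nat_lit 478) (nat_lit 6) (nat_lit 3) (nat_lit 7) (nat_lit 7) (nat_lit 131) (nat_lit 138) r9_131 r4_138 (nat_lit 0) (nat_lit 0) (nat_lit 0) (nat_lit 0x7dd37c8a64) (nat_lit 1067056848),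
  Rx.mk (nat_lit 479) (nat_lit 7) (nat_lit 3) (nat_lit 7) (nat_lit 7) (nat_lit 135) (nat_lit 137) r9_135 r4_137 (nat_lit 0) (nat_lit 0) (nat_lit 0) (nat_lit 0x7dee99387e) (nat_lit 1015072344)]
noncomputable def e48_48 : List Rx := [
  Rx.mk (nat_lit 19) (nat_lit 3) (nat_lit 2) (nat_lit 0) (nat_lit 3) (nat_lit 141) (nat_lit 146) r9_141 r9_146 (nat_lit 0) (nat_lit 0) (nat_lit 0) (nat_lit 0x7bb25cbe82) (nat_lit 2112275880),
  Rx.mk (nat_lit 147) (nat_lit 3) (nat_lit 2) (nat_lit 2) (nat_lit 7) (nat_lit 142) (nat_lit 149) r9_142 r9_149 (nat_lit 0) (nat_lit 0) (nat_lit 0) (nat_lit 0x7d0c11a1da) (nat_lit 1449419400),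
  Rx.mk (nat_lit 176) (nat_lit 0) (nat_lit 6) (nat_lit 2) (nat_lit 6) (nat_lit 136) (nat_lit 145) r9_136 r9_145 (nat_lit 0) (nat_lit 0) (nat_lit 0) (nat_lit 0x7d9a3a5ec0) (nat_lit 1176844032),
  Rx.mk (nat_lit 178) (nat_lit 2) (nat_lit 6) (nat_lit 2) (nat_lit 7) (nat_lit 137) (nat_lit 153) r9_137 r9_153 (nat_lit 0) (nat_lit 0) (nat_lit 0) (nat_lit 0x7d9ed5d504) (nat_lit 1168010064),
  Rx.mk (nat_lit 179) (nat_lit 3) (nat_lit 6) (nat_lit 2) (nat_lit 7) (nat_lit 143) (nat_lit 148) r9_143 r9_148 (nat_lit 0) (nat_lit 0) (nat_lit 0) (nat_lit 0x7d85a2085a) (nat_lit 1216332936),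
  Rx.mk (nat_lit 199) (nat_lit 7) (nat_lit 0) (nat_lit 3) (nat_lit 5) (nat_lit 150) (nat_lit 138) r9_150 r9_138 (nat_lit 0) (nat_lit 0) (nat_lit 0) (nat_lit 0x7d9a3a5ec0) (nat_lit 1176844032),
  Rx.mk (nat_lit 211) (nat_lit 3) (nat_lit 2) (nat_lit 3) (nat_lit 7) (nat_lit 144) (nat_lit 147) r9_144 r9_147 (nat_lit 0) (nat_lit 0) (nat_lit 0) (nat_lit 0x7d0c11a1da) (nat_lit 1449419400),
  Rx.mk (nat_lit 215) (nat_lit 7) (nat_lit 2) (nat_lit 3) (nat_lit 7) (nat_lit 151) (nat_lit 140) r9_151 r9_140 (nat_lit 0) (nat_lit 0) (nat_lit 0) (nat_lit 0x7d85a2085a) (nat_lit 1216332936),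
  Rx.mk (nat_lit 223) (nat_lit 7) (nat_lit 3) (nat_lit 3) (nat_lit 7) (nat_lit 152) (nat_lit 139) r9_152 r9_139 (nat_lit 0) (nat_lit 0) (nat_lit 0) (nat_lit 0x7d9ed5d504) (nat_lit 1168010064),
  Rx.mk (nat_lit 318) (nat_lit 6) (nat_lit 7) (nat_lit 4) (nat_lit 3) (nat_lit 146) (nat_lit 141) r9_146 r9_141 (nat_lit 0) (nat_lit 0) (nat_lit 0) (nat_lit 0x7bb25cbe82) (nat_lit 2112275880),
  Rx.mk (nat_lit 418) (nat_lit 2) (nat_lit 4) (nat_lit 6) (nat_lit 5) (nat_lit 138) (nat_lit 150) r9_138 r9_150 (nat_lit 0) (nat_lit 0) (nat_lit 0) (nat_lit 0x7d9a3a5ec0) (nat_lit 1176844032),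
  Rx.mk (nat_lit 434) (nat_lit 2) (nat_lit 6) (nat_lit 6) (nat_lit 7) (nat_lit 139) (nat_lit 152) r9_139 r9_152 (nat_lit 0) (nat_lit 0) (nat_lit 0) (nat_lit 0x7d9ed5d504) (nat_lit 1168010064),
  Rx.mk (nat_lit 442) (nat_lit 2) (nat_lit 7) (nat_lit 6) (nat_lit 7) (nat_lit 140) (nat_lit 151) r9_140 r9_151 (nat_lit 0) (nat_lit 0) (nat_lit 0) (nat_lit 0x7d85a2085a) (nat_lit 1216332936),
  Rx.mk (nat_lit 446) (nat_lit 6) (nat_lit 7) (nat_lit 6) (nat_lit 7) (nat_lit 147) (nat_lit 144) r9_147 r9_144 (nat_lit 0) (nat_lit 0) (nat_lit 0) (nat_lit 0x7d0c11a1da) (nat_lit 1449419400),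
  Rx.mk (nat_lit 476) (nat_lit 4) (nat_lit 3) (nat_lit 7) (nat_lit 6) (nat_lit 145) (nat_lit 136) r9_145 r9_136 (nat_lit 0) (nat_lit 0) (nat_lit 0) (nat_lit 0x7d9a3a5ec0) (nat_lit 1176844032),
  Rx.mk (nat_lit 478) (nat_lit 6) (nat_lit 3) (nat_lit 7) (nat_lit 7) (nat_lit 148) (nat_lit 143) r9_148 r9_143 (nat_lit 0) (nat_lit 0) (nat_lit 0) (nat_lit 0x7d85a2085a) (nat_lit 1216332936),
  Rx.mk (nat_lit 479) (nat_lit 7) (nat_lit 3) (nat_lit 7) (nat_lit 7) (nat_lit 153) (nat_lit 137) r9_153 r9_137 (nat_lit 0) (nat_lit 0) (nat_lit 0) (nat_lit 0x7d9ed5d504) (nat_lit 1168010064),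
  Rx.mk (nat_lit 510) (nat_lit 6) (nat_lit 7) (nat_lit 7) (nat_lit 7) (nat_lit 149) (nat_lit 142) r9_149 r9_142 (nat_lit 0) (nat_lit 0) (nat_lit 0) (nat_lit 0x7d0c11a1da) (nat_lit 1449419400)]
noncomputable def e48_49 : List Rx := [
  Rx.mk (nat_lit 199) (nat_lit 7) (nat_lit 0) (nat_lit 3) (nat_lit 5) (nat_lit 157) (nat_lit 140) r9_157 r10_140 (nat_lit 0) (nat_lit 0) (nat_lit 0) (nat_lit 0x7dcfb546dc) (nat_lit 1074301488),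
  Rx.mk (nat_lit 211) (nat_lit 3) (nat_lit 2) (nat_lit 3) (nat_lit 7) (nat_lit 154) (nat_lit 143) r9_154 r10_143 (nat_lit 0) (nat_lit 0) (nat_lit 0) (nat_lit 0x7dd40501dc) (nat_lit 1066034736),
  Rx.mk (nat_lit 215) (nat_lit 7) (nat_lit 2) (nat_lit 3) (nat_lit 7) (nat_lit 158) (nat_lit 141) r9_158 r10_141 (nat_lit 0) (nat_lit 0) (nat_lit 0) (nat_lit 0x7dfd420de2) (nat_lit 986964264),
  Rx.mk (nat_lit 455) (nat_lit 7) (nat_lit 0) (nat_lit 7) (nat_lit 5) (nat_lit 159) (nat_lit 138) r9_159 r10_138 (nat_lit 0) (nat_lit 0) (nat_lit 0) (nat_lit 0x7dcdcae584) (nat_lit 1077974352),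
  Rx.mk (nat_lit 476) (nat_lit 4) (nat_lit 3) (nat_lit 7) (nat_lit 6) (nat_lit 155) (nat_lit 137) r9_155 r10_137 (nat_lit 0) (nat_lit 0) (nat_lit 0) (nat_lit 0x7df2fc7246) (nat_lit 1006659576),
  Rx.mk (nat_lit 478) (nat_lit 6) (nat_lit 3) (nat_lit 7) (nat_lit 7) (nat_lit 156) (nat_lit 142) r9_156 r10_142 (nat_lit 0) (nat_lit 0) (nat_lit 0) (nat_lit 0x7df03efe20) (nat_lit 1011913344),
  Rx.mk (nat_lit 479) (nat_lit 7) (nat_lit 3) (nat_lit 7) (nat_lit 7) (nat_lit 160) (nat_lit 139) r9_160 r10_139 (nat_lit 0) (nat_lit 0) (nat_lit 0) (nat_lit 0x7df79428c6) (nat_lit 997853688)]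
noncomputable def e48_50 : List Rx := [
  Rx.mk (nat_lit 199) (nat_lit 7) (nat_lit 0) (nat_lit 3) (nat_lit 5) (nat_lit 222) (nat_lit 137) r9_222 r10_137 (nat_lit 0) (nat_lit 0) (nat_lit 0) (nat_lit 0x7df2fc7246) (nat_lit 1006659576),
  Rx.mk (nat_lit 215) (nat_lit 7) (nat_lit 2) (nat_lit 3) (nat_lit 7) (nat_lit 223) (nat_lit 142) r9_223 r10_142 (nat_lit 0) (nat_lit 0) (nat_lit 0) (nat_lit 0x7df03efe20) (nat_lit 1011913344),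
  Rx.mk (nat_lit 220) (nat_lit 4) (nat_lit 3) (nat_lit 3) (nat_lit 6) (nat_lit 218) (nat_lit 138) r9_218 r10_138 (nat_lit 0) (nat_lit 0) (nat_lit 0) (nat_lit 0x7dcdcae584) (nat_lit 1077974352),
  Rx.mk (nat_lit 223) (nat_lit 7) (nat_lit 3) (nat_lit 3) (nat_lit 7) (nat_lit 224) (nat_lit 139) r9_224 r10_139 (nat_lit 0) (nat_lit 0) (nat_lit 0) (nat_lit 0x7df79428c6) (nat_lit 997853688),
  Rx.mk (nat_lit 476) (nat_lit 4) (nat_lit 3) (nat_lit 7) (nat_lit 6) (nat_lit 219) (nat_lit 140) r9_219 r10_140 (nat_lit 0) (nat_lit 0) (nat_lit 0) (nat_lit 0x7dcfb546dc) (nat_lit 1074301488),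
  Rx.mk (nat_lit 478) (nat_lit 6) (nat_lit 3) (nat_lit 7) (nat_lit 7) (nat_lit 220) (nat_lit 141) r9_220 r10_141 (nat_lit 0) (nat_lit 0) (nat_lit 0) (nat_lit 0x7dfd420de2) (nat_lit 986964264),
  Rx.mk (nat_lit 510) (nat_lit 6) (nat_lit 7) (nat_lit 7) (nat_lit 7) (nat_lit 221) (nat_lit 143) r9_221 r10_143 (nat_lit 0) (nat_lit 0) (nat_lit 0) (nat_lit 0x7dd40501dc) (nat_lit 1066034736)]
noncomputable def e48_51 : List Rx := [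
  Rx.mk (nat_lit 197) (nat_lit 5) (nat_lit 0) (nat_lit 3) (nat_lit 5) (nat_lit 347) (nat_lit 306) r9_347 r12_306 (nat_lit 0) (nat_lit 0) (nat_lit 0) (nat_lit 0x7db5ac2788) (nat_lit 1124222112),
  Rx.mk (nat_lit 205) (nat_lit 5) (nat_lit 1) (nat_lit 3) (nat_lit 7) (nat_lit 348) (nat_lit 307) r9_348 r12_307 (nat_lit 0) (nat_lit 0) (nat_lit 0) (nat_lit 0x7e63f48254) (nat_lit 790053264),
  Rx.mk (nat_lit 213) (nat_lit 5) (nat_lit 2) (nat_lit 3) (nat_lit 7) (nat_lit 349) (nat_lit 308) r9_349 r12_308 (nat_lit 0) (nat_lit 0) (nat_lit 0) (nat_lit 0x7e796d0ab6) (nat_lit 748885176)]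
noncomputable def e48_52 : List Rx := [
  Rx.mk (nat_lit 460) (nat_lit 4) (nat_lit 1) (nat_lit 7) (nat_lit 6) (nat_lit 237) (nat_lit 306) r9_237 r12_306 (nat_lit 0) (nat_lit 0) (nat_lit 0) (nat_lit 0x7db5ac2788) (nat_lit 1124222112),
  Rx.mk (nat_lit 461) (nat_lit 5) (nat_lit 1) (nat_lit 7) (nat_lit 7) (nat_lit 238) (nat_lit 307) r9_238 r12_307 (nat_lit 0) (nat_lit 0) (nat_lit 0) (nat_lit 0x7e63f48254) (nat_lit 790053264),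
  Rx.mk (nat_lit 462) (nat_lit 6) (nat_lit 1) (nat_lit 7) (nat_lit 7) (nat_lit 239) (nat_lit 308) r9_239 r12_308 (nat_lit 0) (nat_lit 0) (nat_lit 0) (nat_lit 0x7e796d0ab6) (nat_lit 748885176)]
noncomputable def e48_53 : List Rx := [
  Rx.mk (nat_lit 5) (nat_lit 5) (nat_lit 0) (nat_lit 0) (nat_lit 1) (nat_lit 369) (nat_lit 197) r9_369 r12_197 (nat_lit 0) (nat_lit 0) (nat_lit 0) (nat_lit 0x6f5f417c8a) (nat_lit 8161864776),
  Rx.mk (nat_lit 21) (nat_lit 5) (nat_lit 2) (nat_lit 0) (nat_lit 3) (nat_lit 370) (nat_lit 198) r9_370 r12_198 (nat_lit 0) (nat_lit 0) (nat_lit 0) (nat_lit 0x7d55b82728) (nat_lit 1308202272),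
  Rx.mk (nat_lit 197) (nat_lit 5) (nat_lit 0) (nat_lit 3) (nat_lit 5) (nat_lit 371) (nat_lit 199) r9_371 r12_199 (nat_lit 0) (nat_lit 0) (nat_lit 0) (nat_lit 0x7e5a08811e) (nat_lit 809077464),
  Rx.mk (nat_lit 213) (nat_lit 5) (nat_lit 2) (nat_lit 3) (nat_lit 7) (nat_lit 372) (nat_lit 201) r9_372 r12_201 (nat_lit 0) (nat_lit 0) (nat_lit 0) (nat_lit 0x7e4050bcb4) (nat_lit 858388752),
  Rx.mk (nat_lit 221) (nat_lit 5) (nat_lit 3) (nat_lit 3) (nat_lit 7) (nat_lit 373) (nat_lit 200) r9_373 r12_200 (nat_lit 0) (nat_lit 0) (nat_lit 0) (nat_lit 0x7dd2da9484) (nat_lit 1068269904)]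
noncomputable def e48_54 : List Rx := [
  Rx.mk (nat_lit 268) (nat_lit 4) (nat_lit 1) (nat_lit 4) (nat_lit 2) (nat_lit 72) (nat_lit 197) r9_72 r12_197 (nat_lit 0) (nat_lit 0) (nat_lit 0) (nat_lit 0x6f5f417c8a) (nat_lit 8161864776),
  Rx.mk (nat_lit 270) (nat_lit 6) (nat_lit 1) (nat_lit 4) (nat_lit 3) (nat_lit 74) (nat_lit 198) r9_74 r12_198 (nat_lit 0) (nat_lit 0) (nat_lit 0) (nat_lit 0x7d55b82728) (nat_lit 1308202272),
  Rx.mk (nat_lit 460) (nat_lit 4) (nat_lit 1) (nat_lit 7) (nat_lit 6) (nat_lit 73) (nat_lit 199) r9_73 r12_199 (nat_lit 0) (nat_lit 0) (nat_lit 0) (nat_lit 0x7e5a08811e) (nat_lit 809077464),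
  Rx.mk (nat_lit 462) (nat_lit 6) (nat_lit 1) (nat_lit 7) (nat_lit 7) (nat_lit 75) (nat_lit 201) r9_75 r12_201 (nat_lit 0) (nat_lit 0) (nat_lit 0) (nat_lit 0x7e4050bcb4) (nat_lit 858388752),
  Rx.mk (nat_lit 463) (nat_lit 7) (nat_lit 1) (nat_lit 7) (nat_lit 7) (nat_lit 76) (nat_lit 200) r9_76 r12_200 (nat_lit 0) (nat_lit 0) (nat_lit 0) (nat_lit 0x7dd2da9484) (nat_lit 1068269904)]
noncomputable def e48_55 : List Rx := [
  Rx.mk (nat_lit 199) (nat_lit 7) (nat_lit 0) (nat_lit 3) (nat_lit 5) (nat_lit 19) (nat_lit 132) r9_19 r3_132 (nat_lit 0) (nat_lit 0) (nat_lit 0) (nat_lit 0x7fdf7708b0) (nat_lit 62382528),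
  Rx.mk (nat_lit 215) (nat_lit 7) (nat_lit 2) (nat_lit 3) (nat_lit 7) (nat_lit 20) (nat_lit 134) r9_20 r3_134 (nat_lit 0) (nat_lit 0) (nat_lit 0) (nat_lit 0x7ef4f9d16e) (nat_lit 511991064),
  Rx.mk (nat_lit 223) (nat_lit 7) (nat_lit 3) (nat_lit 3) (nat_lit 7) (nat_lit 21) (nat_lit 133) r9_21 r3_133 (nat_lit 0) (nat_lit 0) (nat_lit 0) (nat_lit 0x7e9b536c2e) (nat_lit 683885592),
  Rx.mk (nat_lit 476) (nat_lit 4) (nat_lit 3) (nat_lit 7) (nat_lit 6) (nat_lit 17) (nat_lit 130) r9_17 r3_130 (nat_lit 0) (nat_lit 0) (nat_lit 0) (nat_lit 0x7fdf7708b0) (nat_lit 62382528),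
  Rx.mk (nat_lit 478) (nat_lit 6) (nat_lit 3) (nat_lit 7) (nat_lit 7) (nat_lit 18) (nat_lit 135) r9_18 r3_135 (nat_lit 0) (nat_lit 0) (nat_lit 0) (nat_lit 0x7ef4f9d16e) (nat_lit 511991064),
  Rx.mk (nat_lit 479) (nat_lit 7) (nat_lit 3) (nat_lit 7) (nat_lit 7) (nat_lit 22) (nat_lit 131) r9_22 r3_131 (nat_lit 0) (nat_lit 0) (nat_lit 0) (nat_lit 0x7e9b536c2e) (nat_lit 683885592)]
noncomputable def e48_56 : List Rx := [
  Rx.mk (nat_lit 199) (nat_lit 7) (nat_lit 0) (nat_lit 3) (nat_lit 5) (nat_lit 34) (nat_lit 137) r9_34 r12_137 (nat_lit 0) (nat_lit 0) (nat_lit 0) (nat_lit 0x7e68347e50) (nat_lit 781904448),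
  Rx.mk (nat_lit 215) (nat_lit 7) (nat_lit 2) (nat_lit 3) (nat_lit 7) (nat_lit 35) (nat_lit 138) r9_35 r12_138 (nat_lit 0) (nat_lit 0) (nat_lit 0) (nat_lit 0x7e84fe7194) (nat_lit 726704784),
  Rx.mk (nat_lit 455) (nat_lit 7) (nat_lit 0) (nat_lit 7) (nat_lit 5) (nat_lit 36) (nat_lit 135) r9_36 r12_135 (nat_lit 0) (nat_lit 0) (nat_lit 0) (nat_lit 0x7da88f3964) (nat_lit 1149364944),
  Rx.mk (nat_lit 476) (nat_lit 4) (nat_lit 3) (nat_lit 7) (nat_lit 6) (nat_lit 32) (nat_lit 134) r9_32 r12_134 (nat_lit 0) (nat_lit 0) (nat_lit 0) (nat_lit 0x7e7d860922) (nat_lit 741028392),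
  Rx.mk (nat_lit 478) (nat_lit 6) (nat_lit 3) (nat_lit 7) (nat_lit 7) (nat_lit 33) (nat_lit 139) r9_33 r12_139 (nat_lit 0) (nat_lit 0) (nat_lit 0) (nat_lit 0x7e0d9168dc) (nat_lit 955691568),
  Rx.mk (nat_lit 479) (nat_lit 7) (nat_lit 3) (nat_lit 7) (nat_lit 7) (nat_lit 37) (nat_lit 136) r9_37 r12_136 (nat_lit 0) (nat_lit 0) (nat_lit 0) (nat_lit 0x7db3658bf4) (nat_lit 1128585744)]
noncomputable def e48_57 : List Rx := [
  Rx.mk (nat_lit 199) (nat_lit 7) (nat_lit 0) (nat_lit 3) (nat_lit 5) (nat_lit 215) (nat_lit 134) r9_215 r12_134 (nat_lit 0) (nat_lit 0) (nat_lit 0) (nat_lit 0x7e7d860922) (nat_lit 741028392),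
  Rx.mk (nat_lit 215) (nat_lit 7) (nat_lit 2) (nat_lit 3) (nat_lit 7) (nat_lit 216) (nat_lit 139) r9_216 r12_139 (nat_lit 0) (nat_lit 0) (nat_lit 0) (nat_lit 0x7e0d9168dc) (nat_lit 955691568),
  Rx.mk (nat_lit 220) (nat_lit 4) (nat_lit 3) (nat_lit 3) (nat_lit 6) (nat_lit 212) (nat_lit 135) r9_212 r12_135 (nat_lit 0) (nat_lit 0) (nat_lit 0) (nat_lit 0x7da88f3964) (nat_lit 1149364944),
  Rx.mk (nat_lit 223) (nat_lit 7) (nat_lit 3) (nat_lit 3) (nat_lit 7) (nat_lit 217) (nat_lit 136) r9_217 r12_136 (nat_lit 0) (nat_lit 0) (nat_lit 0) (nat_lit 0x7db3658bf4) (nat_lit 1128585744),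
  Rx.mk (nat_lit 476) (nat_lit 4) (nat_lit 3) (nat_lit 7) (nat_lit 6) (nat_lit 213) (nat_lit 137) r9_213 r12_137 (nat_lit 0) (nat_lit 0) (nat_lit 0) (nat_lit 0x7e68347e50) (nat_lit 781904448),
  Rx.mk (nat_lit 478) (nat_lit 6) (nat_lit 3) (nat_lit 7) (nat_lit 7) (nat_lit 214) (nat_lit 138) r9_214 r12_138 (nat_lit 0) (nat_lit 0) (nat_lit 0) (nat_lit 0x7e84fe7194) (nat_lit 726704784)]
noncomputable def e48 : List (List Rx) := [e48_0, e48_1, e48_2, e48_3, e48_4, e48_5, e48_6, e48_7, e48_8, e48_9, e48_10, e48_11, e48_12, e48_13, e48_14, e48_15, e48_16, e48_17, e48_18, e48_19, e48_20, e48_21, e48_22, e48_23, e48_24, e48_25, e48_26, e48_27, e48_28, e48_29, e48_30, e48_31, e48_32, e48_33, e48_34, e48_35, e48_36, e48_37, e48_38, e48_39, e48_40, e48_41, e48_42, e48_43, e48_44, e48_45, e48_46, e48_47, e48_48, e48_49, e48_50, e48_51, e48_52, e48_53, e48_54,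 e48_55, e48_56, e48_57]
noncomputable def e49_0 : List Rx := [
  Rx.mk (nat_lit 21) (nat_lit 5) (nat_lit 2) (nat_lit 0) (nat_lit 3) (nat_lit 298) (nat_lit 327) r10_298 r0_327 (nat_lit 0) (nat_lit 0) (nat_lit 0) (nat_lit 0x7e2b75aa7a) (nat_lit 898377480),
  Rx.mk (nat_lit 85) (nat_lit 5) (nat_lit 2) (nat_lit 1) (nat_lit 7) (nat_lit 299) (nat_lit 328) r10_299 r0_328 (nat_lit 0) (nat_lit 0) (nat_lit 0) (nat_lit 0x7df79428c6) (nat_lit 997853688)]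
noncomputable def e49_1 : List Rx := [
  Rx.mk (nat_lit 85) (nat_lit 5) (nat_lit 2) (nat_lit 1) (nat_lit 7) (nat_lit 338) (nat_lit 309) r10_338 r1_309 (nat_lit 0) (nat_lit 0) (nat_lit 0) (nat_lit 0x7df8d574b0) (nat_lit 995447232)]
noncomputable def e49_2 : List Rx := [
  Rx.mk (nat_lit 85) (nat_lit 5) (nat_lit 2) (nat_lit 1) (nat_lit 7) (nat_lit 339) (nat_lit 358) r10_339 r2_358 (nat_lit 0) (nat_lit 0) (nat_lit 0) (nat_lit 0x7dec0621b2) (nat_lit 1020008808),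
  Rx.mk (nat_lit 325) (nat_lit 5) (nat_lit 0) (nat_lit 5) (nat_lit 5) (nat_lit 340) (nat_lit 356) r10_340 r2_356 (nat_lit 0) (nat_lit 0) (nat_lit 0) (nat_lit 0x7da4f55306) (nat_lit 1156269816),
  Rx.mk (nat_lit 333) (nat_lit 5) (nat_lit 1) (nat_lit 5) (nat_lit 7) (nat_lit 341) (nat_lit 357) r10_341 r2_357 (nat_lit 0) (nat_lit 0) (nat_lit 0) (nat_lit 0x7df51550b6) (nat_lit 1002638520),
  Rx.mk (nat_lit 341) (nat_lit 5) (nat_lit 2) (nat_lit 5) (nat_lit 7) (nat_lit 342) (nat_lit 359) r10_342 r2_359 (nat_lit 0) (nat_lit 0) (nat_lit 0) (nat_lit 0x7df79428c6) (nat_lit 997853688)]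
noncomputable def e49_3 : List Rx := [
  Rx.mk (nat_lit 21) (nat_lit 5) (nat_lit 2) (nat_lit 0) (nat_lit 3) (nat_lit 351) (nat_lit 323) r10_351 r3_323 (nat_lit 0) (nat_lit 0) (nat_lit 0) (nat_lit 0x7ae9e266f0) (nat_lit 2496671424),
  Rx.mk (nat_lit 213) (nat_lit 5) (nat_lit 2) (nat_lit 3) (nat_lit 7) (nat_lit 352) (nat_lit 324) r10_352 r3_324 (nat_lit 0) (nat_lit 0) (nat_lit 0) (nat_lit 0x7fe8167eb0) (nat_lit 45849024)]
noncomputable def e49_4 : List Rx := [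
  Rx.mk (nat_lit 21) (nat_lit 5) (nat_lit 2) (nat_lit 0) (nat_lit 3) (nat_lit 353) (nat_lit 363) r10_353 r4_363 (nat_lit 0) (nat_lit 0) (nat_lit 0) (nat_lit 0x7e35dac41e) (nat_lit 878446296),
  Rx.mk (nat_lit 85) (nat_lit 5) (nat_lit 2) (nat_lit 1) (nat_lit 7) (nat_lit 354) (nat_lit 364) r10_354 r4_364 (nat_lit 0) (nat_lit 0) (nat_lit 0) (nat_lit 0x7df12eef20) (nat_lit 1010116224),
  Rx.mk (nat_lit 213) (nat_lit 5) (nat_lit 2) (nat_lit 3) (nat_lit 7) (nat_lit 355) (nat_lit 365) r10_355 r4_365 (nat_lit 0) (nat_lit 0) (nat_lit 0) (nat_lit 0x7df06e3b2c) (nat_lit 1011559536)]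
noncomputable def e49_5 : List Rx := [
  Rx.mk (nat_lit 260) (nat_lit 4) (nat_lit 0) (nat_lit 4) (nat_lit 0) (nat_lit 19) (nat_lit 333) r10_19 r3_333 (nat_lit 0) (nat_lit 0) (nat_lit 0) (nat_lit 0x611f400ae2) (nat_lit 15156536616),
  Rx.mk (nat_lit 261) (nat_lit 5) (nat_lit 0) (nat_lit 4) (nat_lit 1) (nat_lit 25) (nat_lit 335) r10_25 r3_335 (nat_lit 0) (nat_lit 0) (nat_lit 0) (nat_lit 0x6c0e76ec84) (nat_lit 9789333840),
  Rx.mk (nat_lit 262) (nat_lit 6) (nat_lit 0) (nat_lit 4) (nat_lit 1) (nat_lit 31) (nat_lit 337) r10_31 r3_337 (nat_lit 0) (nat_lit 0) (nat_lit 0) (nat_lit 0x6e8b4ffc76) (nat_lit 8568244152),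
  Rx.mk (nat_lit 268) (nat_lit 4) (nat_lit 1) (nat_lit 4) (nat_lit 2) (nat_lit 20) (nat_lit 340) r10_20 r3_340 (nat_lit 0) (nat_lit 0) (nat_lit 0) (nat_lit 0x6c7064ad46) (nat_lit 9601565688),
  Rx.mk (nat_lit 269) (nat_lit 5) (nat_lit 1) (nat_lit 4) (nat_lit 3) (nat_lit 26) (nat_lit 342) r10_26 r3_342 (nat_lit 0) (nat_lit 0) (nat_lit 0) (nat_lit 0x7c9d740c22) (nat_lit 1661513256),
  Rx.mk (nat_lit 270) (nat_lit 6) (nat_lit 1) (nat_lit 4) (nat_lit 3) (nat_lit 32) (nat_lit 344) r10_32 r3_344 (nat_lit 0) (nat_lit 0) (nat_lit 0) (nat_lit 0x7822d6fa6e) (nat_lit 3860025624),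
  Rx.mk (nat_lit 276) (nat_lit 4) (nat_lit 2) (nat_lit 4) (nat_lit 2) (nat_lit 21) (nat_lit 347) r10_21 r3_347 (nat_lit 0) (nat_lit 0) (nat_lit 0) (nat_lit 0x6df68609aa) (nat_lit 8853531336),
  Rx.mk (nat_lit 277) (nat_lit 5) (nat_lit 2) (nat_lit 4) (nat_lit 3) (nat_lit 27) (nat_lit 349) r10_27 r3_349 (nat_lit 0) (nat_lit 0) (nat_lit 0) (nat_lit 0x7aec04a4ca) (nat_lit 2492580168),
  Rx.mk (nat_lit 390) (nat_lit 6) (nat_lit 0) (nat_lit 6) (nat_lit 5) (nat_lit 33) (nat_lit 339) r10_33 r3_339 (nat_lit 0) (nat_lit 0) (nat_lit 0) (nat_lit 0x7e061120e8) (nat_lit 970074144),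
  Rx.mk (nat_lit 398) (nat_lit 6) (nat_lit 1) (nat_lit 6) (nat_lit 7) (nat_lit 34) (nat_lit 346) r10_34 r3_346 (nat_lit 0) (nat_lit 0) (nat_lit 0) (nat_lit 0x7dec2adf66) (nat_lit 1019733624),
  Rx.mk (nat_lit 452) (nat_lit 4) (nat_lit 0) (nat_lit 7) (nat_lit 4) (nat_lit 22) (nat_lit 334) r10_22 r3_334 (nat_lit 0) (nat_lit 0) (nat_lit 0) (nat_lit 0x7199b2b33c) (nat_lit 7068101040),
  Rx.mk (nat_lit 453) (nat_lit 5) (nat_lit 0) (nat_lit 7) (nat_lit 5) (nat_lit 28) (nat_lit 336) r10_28 r3_336 (nat_lit 0) (nat_lit 0) (nat_lit 0) (nat_lit 0x7db4419e32) (nat_lit 1126937448),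
  Rx.mk (nat_lit 454) (nat_lit 6) (nat_lit 0) (nat_lit 7) (nat_lit 5) (nat_lit 35) (nat_lit 338) r10_35 r3_338 (nat_lit 0) (nat_lit 0) (nat_lit 0) (nat_lit 0x7ba330b152) (nat_lit 2141366760),
  Rx.mk (nat_lit 460) (nat_lit 4) (nat_lit 1) (nat_lit 7) (nat_lit 6) (nat_lit 23) (nat_lit 341) r10_23 r3_341 (nat_lit 0) (nat_lit 0) (nat_lit 0) (nat_lit 0x7bee1be254) (nat_lit 1997717904),
  Rx.mk (nat_lit 461) (nat_lit 5) (nat_lit 1) (nat_lit 7) (nat_lit 7) (nat_lit 29) (nat_lit 343) r10_29 r3_343 (nat_lit 0) (nat_lit 0) (nat_lit 0) (nat_lit 0x7e26fad22c) (nat_lit 906967152),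
  Rx.mk (nat_lit 462) (nat_lit 6) (nat_lit 1) (nat_lit 7) (nat_lit 7) (nat_lit 36) (nat_lit 345) r10_36 r3_345 (nat_lit 0) (nat_lit 0) (nat_lit 0) (nat_lit 0x7e079ac84c) (nat_lit 967125744),
  Rx.mk (nat_lit 468) (nat_lit 4) (nat_lit 2) (nat_lit 7) (nat_lit 6) (nat_lit 24) (nat_lit 348) r10_24 r3_348 (nat_lit 0) (nat_lit 0) (nat_lit 0) (nat_lit 0x7846764056) (nat_lit 3791723832),
  Rx.mk (nat_lit 469) (nat_lit 5) (nat_lit 2) (nat_lit 7) (nat_lit 7) (nat_lit 30) (nat_lit 350) r10_30 r3_350 (nat_lit 0) (nat_lit 0) (nat_lit 0) (nat_lit 0x7e1c68bb58) (nat_lit 927235296)]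
noncomputable def e49_6 : List Rx := [
  Rx.mk (nat_lit 260) (nat_lit 4) (nat_lit 0) (nat_lit 4) (nat_lit 0) (nat_lit 165) (nat_lit 341) r10_165 r0_341 (nat_lit 0) (nat_lit 0) (nat_lit 0) (nat_lit 0x2d7a01d26e) (nat_lit 40506896664),
  Rx.mk (nat_lit 261) (nat_lit 5) (nat_lit 0) (nat_lit 4) (nat_lit 1) (nat_lit 171) (nat_lit 343) r10_171 r0_343 (nat_lit 0) (nat_lit 0) (nat_lit 0) (nat_lit 0x79a5a2ac30) (nat_lit 3118385088),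
  Rx.mk (nat_lit 262) (nat_lit 6) (nat_lit 0) (nat_lit 4) (nat_lit 1) (nat_lit 177) (nat_lit 345) r10_177 r0_345 (nat_lit 0) (nat_lit 0) (nat_lit 0) (nat_lit 0x7b95ea25c8) (nat_lit 2166821280),
  Rx.mk (nat_lit 268) (nat_lit 4) (nat_lit 1) (nat_lit 4) (nat_lit 2) (nat_lit 166) (nat_lit 348) r10_166 r0_348 (nat_lit 0) (nat_lit 0) (nat_lit 0) (nat_lit 0x7a5f28731a) (nat_lit 2762664840),
  Rx.mk (nat_lit 269) (nat_lit 5) (nat_lit 1) (nat_lit 4) (nat_lit 3) (nat_lit 172) (nat_lit 350) r10_172 r0_350 (nat_lit 0) (nat_lit 0) (nat_lit 0) (nat_lit 0x7dd895f8c8) (nat_lit 1057279392),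
  Rx.mk (nat_lit 270) (nat_lit 6) (nat_lit 1) (nat_lit 4) (nat_lit 3) (nat_lit 178) (nat_lit 352) r10_178 r0_352 (nat_lit 0) (nat_lit 0) (nat_lit 0) (nat_lit 0x7df5b266e4) (nat_lit 1001461968),
  Rx.mk (nat_lit 276) (nat_lit 4) (nat_lit 2) (nat_lit 4) (nat_lit 2) (nat_lit 167) (nat_lit 355) r10_167 r0_355 (nat_lit 0) (nat_lit 0) (nat_lit 0) (nat_lit 0x7cc600e32c) (nat_lit 1583762544),
  Rx.mk (nat_lit 277) (nat_lit 5) (nat_lit 2) (nat_lit 4) (nat_lit 3) (nat_lit 173) (nat_lit 357) r10_173 r0_357 (nat_lit 0) (nat_lit 0) (nat_lit 0) (nat_lit 0x7e5a0a0106) (nat_lit 809066232),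
  Rx.mk (nat_lit 324) (nat_lit 4) (nat_lit 0) (nat_lit 5) (nat_lit 4) (nat_lit 168) (nat_lit 342) r10_168 r0_342 (nat_lit 0) (nat_lit 0) (nat_lit 0) (nat_lit 0x7aa5ac4a96) (nat_lit 2627459640),
  Rx.mk (nat_lit 325) (nat_lit 5) (nat_lit 0) (nat_lit 5) (nat_lit 5) (nat_lit 174) (nat_lit 344) r10_174 r0_344 (nat_lit 0) (nat_lit 0) (nat_lit 0) (nat_lit 0x7df905d1aa) (nat_lit 995085000),
  Rx.mk (nat_lit 326) (nat_lit 6) (nat_lit 0) (nat_lit 5) (nat_lit 5) (nat_lit 179) (nat_lit 346) r10_179 r0_346 (nat_lit 0) (nat_lit 0) (nat_lit 0) (nat_lit 0x7deff222ee) (nat_lit 1012488984),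
  Rx.mk (nat_lit 332) (nat_lit 4) (nat_lit 1) (nat_lit 5) (nat_lit 6) (nat_lit 169) (nat_lit 349) r10_169 r0_349 (nat_lit 0) (nat_lit 0) (nat_lit 0) (nat_lit 0x7dda7f3a32) (nat_lit 1053614952),
  Rx.mk (nat_lit 333) (nat_lit 5) (nat_lit 1) (nat_lit 5) (nat_lit 7) (nat_lit 175) (nat_lit 351) r10_175 r0_351 (nat_lit 0) (nat_lit 0) (nat_lit 0) (nat_lit 0x7df9cda52c) (nat_lit 993588336),
  Rx.mk (nat_lit 334) (nat_lit 6) (nat_lit 1) (nat_lit 5) (nat_lit 7) (nat_lit 180) (nat_lit 353) r10_180 r0_353 (nat_lit 0) (nat_lit 0) (nat_lit 0) (nat_lit 0x7dee0dc136) (nat_lit 1016116920),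
  Rx.mk (nat_lit 340) (nat_lit 4) (nat_lit 2) (nat_lit 5) (nat_lit 6) (nat_lit 170) (nat_lit 356) r10_170 r0_356 (nat_lit 0) (nat_lit 0) (nat_lit 0) (nat_lit 0x7df00ea126) (nat_lit 1012275576),
  Rx.mk (nat_lit 341) (nat_lit 5) (nat_lit 2) (nat_lit 5) (nat_lit 7) (nat_lit 176) (nat_lit 358) r10_176 r0_358 (nat_lit 0) (nat_lit 0) (nat_lit 0) (nat_lit 0x7ea0391dce) (nat_lit 674495640),
  Rx.mk (nat_lit 390) (nat_lit 6) (nat_lit 0) (nat_lit 6) (nat_lit 5) (nat_lit 181) (nat_lit 347) r10_181 r0_347 (nat_lit 0) (nat_lit 0) (nat_lit 0) (nat_lit 0x7dc039bea4) (nat_lit 1103987664),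
  Rx.mk (nat_lit 398) (nat_lit 6) (nat_lit 1) (nat_lit 6) (nat_lit 7) (nat_lit 182) (nat_lit 354) r10_182 r0_354 (nat_lit 0) (nat_lit 0) (nat_lit 0) (nat_lit 0x7df41fc010) (nat_lit 1004477760)]
noncomputable def e49_7 : List Rx := [
  Rx.mk (nat_lit 324) (nat_lit 4) (nat_lit 0) (nat_lit 5) (nat_lit 4) (nat_lit 183) (nat_lit 315) r10_183 r1_315 (nat_lit 0) (nat_lit 0) (nat_lit 0) (nat_lit 0x707b7d37b2) (nat_lit 7616876904),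
  Rx.mk (nat_lit 325) (nat_lit 5) (nat_lit 0) (nat_lit 5) (nat_lit 5) (nat_lit 186) (nat_lit 316) r10_186 r1_316 (nat_lit 0) (nat_lit 0) (nat_lit 0) (nat_lit 0x7ddf77aaa6) (nat_lit 1044084600),
  Rx.mk (nat_lit 326) (nat_lit 6) (nat_lit 0) (nat_lit 5) (nat_lit 5) (nat_lit 189) (nat_lit 317) r10_189 r1_317 (nat_lit 0) (nat_lit 0) (nat_lit 0) (nat_lit 0x7de538ae90) (nat_lit 1033051968),
  Rx.mk (nat_lit 332) (nat_lit 4) (nat_lit 1) (nat_lit 5) (nat_lit 6) (nat_lit 184) (nat_lit 318) r10_184 r1_318 (nat_lit 0) (nat_lit 0) (nat_lit 0) (nat_lit 0x7de8fc3254) (nat_lit 1025835408),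
  Rx.mk (nat_lit 333) (nat_lit 5) (nat_lit 1) (nat_lit 5) (nat_lit 7) (nat_lit 187) (nat_lit 319) r10_187 r1_319 (nat_lit 0) (nat_lit 0) (nat_lit 0) (nat_lit 0x7df4ff3218) (nat_lit 1002804192),
  Rx.mk (nat_lit 334) (nat_lit 6) (nat_lit 1) (nat_lit 5) (nat_lit 7) (nat_lit 190) (nat_lit 320) r10_190 r1_320 (nat_lit 0) (nat_lit 0) (nat_lit 0) (nat_lit 0x7df62c9f40) (nat_lit 1000546560),
  Rx.mk (nat_lit 340) (nat_lit 4) (nat_lit 2) (nat_lit 5) (nat_lit 6) (nat_lit 185) (nat_lit 321) r10_185 r1_321 (nat_lit 0) (nat_lit 0) (nat_lit 0) (nat_lit 0x7df99bc84a) (nat_lit 993961800),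
  Rx.mk (nat_lit 341) (nat_lit 5) (nat_lit 2) (nat_lit 5) (nat_lit 7) (nat_lit 188) (nat_lit 322) r10_188 r1_322 (nat_lit 0) (nat_lit 0) (nat_lit 0) (nat_lit 0x7e5868bb1c) (nat_lit 812191536)]
noncomputable def e49_8 : List Rx := [
  Rx.mk (nat_lit 260) (nat_lit 4) (nat_lit 0) (nat_lit 4) (nat_lit 0) (nat_lit 191) (nat_lit 381) r10_191 r4_381 (nat_lit 0) (nat_lit 0) (nat_lit 0) (nat_lit 0x38e6b45bd8) (nat_lit 34899093216),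
  Rx.mk (nat_lit 261) (nat_lit 5) (nat_lit 0) (nat_lit 4) (nat_lit 1) (nat_lit 199) (nat_lit 384) r10_199 r4_384 (nat_lit 0) (nat_lit 0) (nat_lit 0) (nat_lit 0x7ba0e835dc) (nat_lit 2145744432),
  Rx.mk (nat_lit 262) (nat_lit 6) (nat_lit 0) (nat_lit 4) (nat_lit 1) (nat_lit 207) (nat_lit 387) r10_207 r4_387 (nat_lit 0) (nat_lit 0) (nat_lit 0) (nat_lit 0x7c3386eb5e) (nat_lit 1864615896),
  Rx.mk (nat_lit 268) (nat_lit 4) (nat_lit 1) (nat_lit 4) (nat_lit 2) (nat_lit 192) (nat_lit 390) r10_192 r4_390 (nat_lit 0) (nat_lit 0) (nat_lit 0) (nat_lit 0x7c966bbcae) (nat_lit 1674997272),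
  Rx.mk (nat_lit 269) (nat_lit 5) (nat_lit 1) (nat_lit 4) (nat_lit 3) (nat_lit 200) (nat_lit 392) r10_200 r4_392 (nat_lit 0) (nat_lit 0) (nat_lit 0) (nat_lit 0x7ded13b0d8) (nat_lit 1017989856),
  Rx.mk (nat_lit 270) (nat_lit 6) (nat_lit 1) (nat_lit 4) (nat_lit 3) (nat_lit 208) (nat_lit 394) r10_208 r4_394 (nat_lit 0) (nat_lit 0) (nat_lit 0) (nat_lit 0x7de439be80) (nat_lit 1034961408),
  Rx.mk (nat_lit 276) (nat_lit 4) (nat_lit 2) (nat_lit 4) (nat_lit 2) (nat_lit 193) (nat_lit 396) r10_193 r4_396 (nat_lit 0) (nat_lit 0) (nat_lit 0) (nat_lit 0x7ccea598d8) (nat_lit 1567189728),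
  Rx.mk (nat_lit 277) (nat_lit 5) (nat_lit 2) (nat_lit 4) (nat_lit 3) (nat_lit 201) (nat_lit 399) r10_201 r4_399 (nat_lit 0) (nat_lit 0) (nat_lit 0) (nat_lit 0x7dd7e563d2) (nat_lit 1058601960),
  Rx.mk (nat_lit 324) (nat_lit 4) (nat_lit 0) (nat_lit 5) (nat_lit 4) (nat_lit 194) (nat_lit 382) r10_194 r4_382 (nat_lit 0) (nat_lit 0) (nat_lit 0) (nat_lit 0x7d28250088) (nat_lit 1395587232),
  Rx.mk (nat_lit 325) (nat_lit 5) (nat_lit 0) (nat_lit 5) (nat_lit 5) (nat_lit 202) (nat_lit 385) r10_202 r4_385 (nat_lit 0) (nat_lit 0) (nat_lit 0) (nat_lit 0x7dce487daa) (nat_lit 1077033672),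
  Rx.mk (nat_lit 326) (nat_lit 6) (nat_lit 0) (nat_lit 5) (nat_lit 5) (nat_lit 209) (nat_lit 388) r10_209 r4_388 (nat_lit 0) (nat_lit 0) (nat_lit 0) (nat_lit 0x7dcf0cf162) (nat_lit 1075562280),
  Rx.mk (nat_lit 340) (nat_lit 4) (nat_lit 2) (nat_lit 5) (nat_lit 6) (nat_lit 195) (nat_lit 397) r10_195 r4_397 (nat_lit 0) (nat_lit 0) (nat_lit 0) (nat_lit 0x7de473dade) (nat_lit 1034526168),
  Rx.mk (nat_lit 341) (nat_lit 5) (nat_lit 2) (nat_lit 5) (nat_lit 7) (nat_lit 203) (nat_lit 400) r10_203 r4_400 (nat_lit 0) (nat_lit 0) (nat_lit 0) (nat_lit 0x7df3488d84) (nat_lit 1006089552),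
  Rx.mk (nat_lit 390) (nat_lit 6) (nat_lit 0) (nat_lit 6) (nat_lit 5) (nat_lit 210) (nat_lit 389) r10_210 r4_389 (nat_lit 0) (nat_lit 0) (nat_lit 0) (nat_lit 0x7df1be8626) (nat_lit 1009040760),
  Rx.mk (nat_lit 398) (nat_lit 6) (nat_lit 1) (nat_lit 6) (nat_lit 7) (nat_lit 211) (nat_lit 395) r10_211 r4_395 (nat_lit 0) (nat_lit 0) (nat_lit 0) (nat_lit 0x7df5724ae6) (nat_lit 1001942136),
  Rx.mk (nat_lit 452) (nat_lit 4) (nat_lit 0) (nat_lit 7) (nat_lit 4) (nat_lit 196) (nat_lit 383) r10_196 r4_383 (nat_lit 0) (nat_lit 0) (nat_lit 0) (nat_lit 0x7d70d954fa) (nat_lit 1256184072),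
  Rx.mk (nat_lit 453) (nat_lit 5) (nat_lit 0) (nat_lit 7) (nat_lit 5) (nat_lit 204) (nat_lit 386) r10_204 r4_386 (nat_lit 0) (nat_lit 0) (nat_lit 0) (nat_lit 0x7df210a104) (nat_lit 1008425808),
  Rx.mk (nat_lit 460) (nat_lit 4) (nat_lit 1) (nat_lit 7) (nat_lit 6) (nat_lit 197) (nat_lit 391) r10_197 r4_391 (nat_lit 0) (nat_lit 0) (nat_lit 0) (nat_lit 0x7de4ce9532) (nat_lit 1033846632),
  Rx.mk (nat_lit 461) (nat_lit 5) (nat_lit 1) (nat_lit 7) (nat_lit 7) (nat_lit 205) (nat_lit 393) r10_205 r4_393 (nat_lit 0) (nat_lit 0) (nat_lit 0) (nat_lit 0x7df01c204e) (nat_lit 1012174488),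
  Rx.mk (nat_lit 468) (nat_lit 4) (nat_lit 2) (nat_lit 7) (nat_lit 6) (nat_lit 198) (nat_lit 398) r10_198 r4_398 (nat_lit 0) (nat_lit 0) (nat_lit 0) (nat_lit 0x7dcd522d10) (nat_lit 1078878528),
  Rx.mk (nat_lit 469) (nat_lit 5) (nat_lit 2) (nat_lit 7) (nat_lit 7) (nat_lit 206) (nat_lit 401) r10_206 r4_401 (nat_lit 0) (nat_lit 0) (nat_lit 0) (nat_lit 0x7df70fd10c) (nat_lit 998844912)]
noncomputable def e49_9 : List Rx := [
  Rx.mk (nat_lit 212) (nat_lit 4) (nat_lit 2) (nat_lit 3) (nat_lit 6) (nat_lit 266) (nat_lit 357) r10_266 r5_357 (nat_lit 0) (nat_lit 0) (nat_lit 0) (nat_lit 0x7ed4e452e6) (nat_lit 573508728),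
  Rx.mk (nat_lit 213) (nat_lit 5) (nat_lit 2) (nat_lit 3) (nat_lit 7) (nat_lit 269) (nat_lit 360) r10_269 r5_360 (nat_lit 0) (nat_lit 0) (nat_lit 0) (nat_lit 0x7eb07799d6) (nat_lit 643349304),
  Rx.mk (nat_lit 452) (nat_lit 4) (nat_lit 0) (nat_lit 7) (nat_lit 4) (nat_lit 267) (nat_lit 356) r10_267 r5_356 (nat_lit 0) (nat_lit 0) (nat_lit 0) (nat_lit 0x79a5149512) (nat_lit 3119449320),
  Rx.mk (nat_lit 453) (nat_lit 5) (nat_lit 0) (nat_lit 7) (nat_lit 5) (nat_lit 270) (nat_lit 359) r10_270 r5_359 (nat_lit 0) (nat_lit 0) (nat_lit 0) (nat_lit 0x7e01da245c) (nat_lit 978155568),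
  Rx.mk (nat_lit 454) (nat_lit 6) (nat_lit 0) (nat_lit 7) (nat_lit 5) (nat_lit 272) (nat_lit 362) r10_272 r5_362 (nat_lit 0) (nat_lit 0) (nat_lit 0) (nat_lit 0x7df2dd5438) (nat_lit 1006892640),
  Rx.mk (nat_lit 468) (nat_lit 4) (nat_lit 2) (nat_lit 7) (nat_lit 6) (nat_lit 268) (nat_lit 358) r10_268 r5_358 (nat_lit 0) (nat_lit 0) (nat_lit 0) (nat_lit 0x7e095e2c14) (nat_lit 963744912),
  Rx.mk (nat_lit 469) (nat_lit 5) (nat_lit 2) (nat_lit 7) (nat_lit 7) (nat_lit 271) (nat_lit 361) r10_271 r5_361 (nat_lit 0) (nat_lit 0) (nat_lit 0) (nat_lit 0x7df4315ef6) (nat_lit 1004345784)]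
noncomputable def e49_10 : List Rx := [
  Rx.mk (nat_lit 17) (nat_lit 1) (nat_lit 2) (nat_lit 0) (nat_lit 3) (nat_lit 300) (nat_lit 226) r10_300 r0_226 (nat_lit 0) (nat_lit 0) (nat_lit 0) (nat_lit 0x7dddc22600) (nat_lit 1047361536),
  Rx.mk (nat_lit 21) (nat_lit 5) (nat_lit 2) (nat_lit 0) (nat_lit 3) (nat_lit 302) (nat_lit 225) r10_302 r0_225 (nat_lit 0) (nat_lit 0) (nat_lit 0) (nat_lit 0x7c7d384ffe) (nat_lit 1723317336),
  Rx.mk (nat_lit 209) (nat_lit 1) (nat_lit 2) (nat_lit 3) (nat_lit 7) (nat_lit 301) (nat_lit 227) r10_301 r0_227 (nat_lit 0) (nat_lit 0) (nat_lit 0) (nat_lit 0x7e9ab5f606) (nat_lit 685064952)]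
noncomputable def e49_11 : List Rx := [
  Rx.mk (nat_lit 17) (nat_lit 1) (nat_lit 2) (nat_lit 0) (nat_lit 3) (nat_lit 303) (nat_lit 439) r10_303 r6_439 (nat_lit 0) (nat_lit 0) (nat_lit 0) (nat_lit 0x7de1356ec8) (nat_lit 1040745888),
  Rx.mk (nat_lit 21) (nat_lit 5) (nat_lit 2) (nat_lit 0) (nat_lit 3) (nat_lit 306) (nat_lit 442) r10_306 r6_442 (nat_lit 0) (nat_lit 0) (nat_lit 0) (nat_lit 0x7de08359ea) (nat_lit 1042079688),
  Rx.mk (nat_lit 81) (nat_lit 1) (nat_lit 2) (nat_lit 1) (nat_lit 7) (nat_lit 304) (nat_lit 440) r10_304 r6_440 (nat_lit 0) (nat_lit 0) (nat_lit 0) (nat_lit 0x7df52a4f66) (nat_lit 1002481272),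
  Rx.mk (nat_lit 85) (nat_lit 5) (nat_lit 2) (nat_lit 1) (nat_lit 7) (nat_lit 307) (nat_lit 443) r10_307 r6_443 (nat_lit 0) (nat_lit 0) (nat_lit 0) (nat_lit 0x7de6505d14) (nat_lit 1030957200),
  Rx.mk (nat_lit 209) (nat_lit 1) (nat_lit 2) (nat_lit 3) (nat_lit 7) (nat_lit 305) (nat_lit 441) r10_305 r6_441 (nat_lit 0) (nat_lit 0) (nat_lit 0) (nat_lit 0x7dcf9d485c) (nat_lit 1074481200)]
noncomputable def e49_12 : List Rx := [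
  Rx.mk (nat_lit 17) (nat_lit 1) (nat_lit 2) (nat_lit 0) (nat_lit 3) (nat_lit 333) (nat_lit 244) r10_333 r1_244 (nat_lit 0) (nat_lit 0) (nat_lit 0) (nat_lit 0x7dc4b676d4) (nat_lit 1095383952),
  Rx.mk (nat_lit 209) (nat_lit 1) (nat_lit 2) (nat_lit 3) (nat_lit 7) (nat_lit 334) (nat_lit 245) r10_334 r1_245 (nat_lit 0) (nat_lit 0) (nat_lit 0) (nat_lit 0x7e352a8f22) (nat_lit 879766056)]
noncomputable def e49_13 : List Rx := [
  Rx.mk (nat_lit 17) (nat_lit 1) (nat_lit 2) (nat_lit 0) (nat_lit 3) (nat_lit 335) (nat_lit 358) r10_335 r7_358 (nat_lit 0) (nat_lit 0) (nat_lit 0) (nat_lit 0x7de88259f2) (nat_lit 1026748008),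
  Rx.mk (nat_lit 81) (nat_lit 1) (nat_lit 2) (nat_lit 1) (nat_lit 7) (nat_lit 336) (nat_lit 359) r10_336 r7_359 (nat_lit 0) (nat_lit 0) (nat_lit 0) (nat_lit 0x7de822bfec) (nat_lit 1027464048),
  Rx.mk (nat_lit 209) (nat_lit 1) (nat_lit 2) (nat_lit 3) (nat_lit 7) (nat_lit 337) (nat_lit 360) r10_337 r7_360 (nat_lit 0) (nat_lit 0) (nat_lit 0) (nat_lit 0x7df139ce72) (nat_lit 1010034792)]
noncomputable def e49_14 : List Rx := [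
  Rx.mk (nat_lit 81) (nat_lit 1) (nat_lit 2) (nat_lit 1) (nat_lit 7) (nat_lit 343) (nat_lit 220) r10_343 r7_220 (nat_lit 0) (nat_lit 0) (nat_lit 0) (nat_lit 0x7de0f07318) (nat_lit 1041262560),
  Rx.mk (nat_lit 85) (nat_lit 5) (nat_lit 2) (nat_lit 1) (nat_lit 7) (nat_lit 344) (nat_lit 219) r10_344 r7_219 (nat_lit 0) (nat_lit 0) (nat_lit 0) (nat_lit 0x7de8ed3344) (nat_lit 1025947728)]
noncomputable def e49_15 : List Rx := [
  Rx.mk (nat_lit 81) (nat_lit 1) (nat_lit 2) (nat_lit 1) (nat_lit 7) (nat_lit 345) (nat_lit 319) r10_345 r8_319 (nat_lit 0) (nat_lit 0) (nat_lit 0) (nat_lit 0x7de3095188) (nat_lit 1037241504),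
  Rx.mk (nat_lit 85) (nat_lit 5) (nat_lit 2) (nat_lit 1) (nat_lit 7) (nat_lit 346) (nat_lit 322) r10_346 r8_322 (nat_lit 0) (nat_lit 0) (nat_lit 0) (nat_lit 0x7ddf600c20) (nat_lit 1044261504),
  Rx.mk (nat_lit 325) (nat_lit 5) (nat_lit 0) (nat_lit 5) (nat_lit 5) (nat_lit 347) (nat_lit 320) r10_347 r8_320 (nat_lit 0) (nat_lit 0) (nat_lit 0) (nat_lit 0x7d5d8ae9f4) (nat_lit 1293201936),
  Rx.mk (nat_lit 333) (nat_lit 5) (nat_lit 1) (nat_lit 5) (nat_lit 7) (nat_lit 348) (nat_lit 321) r10_348 r8_321 (nat_lit 0) (nat_lit 0) (nat_lit 0) (nat_lit 0x7de98b6960) (nat_lit 1024762752),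
  Rx.mk (nat_lit 341) (nat_lit 5) (nat_lit 2) (nat_lit 5) (nat_lit 7) (nat_lit 349) (nat_lit 323) r10_349 r8_323 (nat_lit 0) (nat_lit 0) (nat_lit 0) (nat_lit 0x7dd48359f6) (nat_lit 1065088440)]
noncomputable def e49_16 : List Rx := [
  Rx.mk (nat_lit 21) (nat_lit 5) (nat_lit 2) (nat_lit 0) (nat_lit 3) (nat_lit 358) (nat_lit 226) r10_358 r4_226 (nat_lit 0) (nat_lit 0) (nat_lit 0) (nat_lit 0x7adab11a14) (nat_lit 2525801616),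
  Rx.mk (nat_lit 209) (nat_lit 1) (nat_lit 2) (nat_lit 3) (nat_lit 7) (nat_lit 357) (nat_lit 228) r10_357 r4_228 (nat_lit 0) (nat_lit 0) (nat_lit 0) (nat_lit 0x7e80048138) (nat_lit 736246368),
  Rx.mk (nat_lit 213) (nat_lit 5) (nat_lit 2) (nat_lit 3) (nat_lit 7) (nat_lit 359) (nat_lit 227) r10_359 r4_227 (nat_lit 0) (nat_lit 0) (nat_lit 0) (nat_lit 0x7e63204f98) (nat_lit 791642592)]
noncomputable def e49_17 : List Rx := [
  Rx.mk (nat_lit 21) (nat_lit 5) (nat_lit 2) (nat_lit 0) (nat_lit 3) (nat_lit 361) (nat_lit 366) r10_361 r9_366 (nat_lit 0) (nat_lit 0) (nat_lit 0) (nat_lit 0x7dee57fc92) (nat_lit 1015560936),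
  Rx.mk (nat_lit 85) (nat_lit 5) (nat_lit 2) (nat_lit 1) (nat_lit 7) (nat_lit 362) (nat_lit 367) r10_362 r9_367 (nat_lit 0) (nat_lit 0) (nat_lit 0) (nat_lit 0x7dded7f4a2) (nat_lit 1045280808),
  Rx.mk (nat_lit 209) (nat_lit 1) (nat_lit 2) (nat_lit 3) (nat_lit 7) (nat_lit 360) (nat_lit 365) r10_360 r9_365 (nat_lit 0) (nat_lit 0) (nat_lit 0) (nat_lit 0x7de3898984) (nat_lit 1036281168),
  Rx.mk (nat_lit 213) (nat_lit 5) (nat_lit 2) (nat_lit 3) (nat_lit 7) (nat_lit 363) (nat_lit 368) r10_363 r9_368 (nat_lit 0) (nat_lit 0) (nat_lit 0) (nat_lit 0x7de67cfa4a) (nat_lit 1030623048)]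
noncomputable def e49_18 : List Rx := [
  Rx.mk (nat_lit 209) (nat_lit 1) (nat_lit 2) (nat_lit 3) (nat_lit 7) (nat_lit 364) (nat_lit 364) r10_364 r10_364 (nat_lit 0) (nat_lit 0) (nat_lit 0) (nat_lit 0x7dc8fcd26a) (nat_lit 1087187400),
  Rx.mk (nat_lit 213) (nat_lit 5) (nat_lit 2) (nat_lit 3) (nat_lit 7) (nat_lit 365) (nat_lit 365) r10_365 r10_365 (nat_lit 0) (nat_lit 0) (nat_lit 0) (nat_lit 0x7d95a7e7ec) (nat_lit 1185610608)]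
noncomputable def e49_19 : List Rx := [
  Rx.mk (nat_lit 333) (nat_lit 5) (nat_lit 1) (nat_lit 5) (nat_lit 7) (nat_lit 350) (nat_lit 327) r10_350 r8_327 (nat_lit 0) (nat_lit 0) (nat_lit 0) (nat_lit 0x7ded710b02) (nat_lit 1017290664)]
noncomputable def e49_20 : List Rx := [
  Rx.mk (nat_lit 268) (nat_lit 4) (nat_lit 1) (nat_lit 4) (nat_lit 2) (nat_lit 37) (nat_lit 200) r10_37 r0_200 (nat_lit 0) (nat_lit 0) (nat_lit 0) (nat_lit 0x76da66a2bc) (nat_lit 4489772976),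
  Rx.mk (nat_lit 269) (nat_lit 5) (nat_lit 1) (nat_lit 4) (nat_lit 3) (nat_lit 38) (nat_lit 201) r10_38 r0_201 (nat_lit 0) (nat_lit 0) (nat_lit 0) (nat_lit 0x7e09e4c3aa) (nat_lit 962736840),
  Rx.mk (nat_lit 270) (nat_lit 6) (nat_lit 1) (nat_lit 4) (nat_lit 3) (nat_lit 39) (nat_lit 202) r10_39 r0_202 (nat_lit 0) (nat_lit 0) (nat_lit 0) (nat_lit 0x7e49f042b2) (nat_lit 839937384),
  Rx.mk (nat_lit 398) (nat_lit 6) (nat_lit 1) (nat_lit 6) (nat_lit 7) (nat_lit 40) (nat_lit 203) r10_40 r0_203 (nat_lit 0) (nat_lit 0) (nat_lit 0) (nat_lit 0x7e9eee1280) (nat_lit 676975104)]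
noncomputable def e49_21 : List Rx := [
  Rx.mk (nat_lit 268) (nat_lit 4) (nat_lit 1) (nat_lit 4) (nat_lit 2) (nat_lit 41) (nat_lit 220) r10_41 r1_220 (nat_lit 0) (nat_lit 0) (nat_lit 0) (nat_lit 0x6745aa3e18) (nat_lit 12137759712),
  Rx.mk (nat_lit 269) (nat_lit 5) (nat_lit 1) (nat_lit 4) (nat_lit 3) (nat_lit 42) (nat_lit 221) r10_42 r1_221 (nat_lit 0) (nat_lit 0) (nat_lit 0) (nat_lit 0x7dd2d19514) (nat_lit 1068337296),
  Rx.mk (nat_lit 270) (nat_lit 6) (nat_lit 1) (nat_lit 4) (nat_lit 3) (nat_lit 43) (nat_lit 222) r10_43 r1_222 (nat_lit 0) (nat_lit 0) (nat_lit 0) (nat_lit 0x7dc1f662d8) (nat_lit 1100657376),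
  Rx.mk (nat_lit 398) (nat_lit 6) (nat_lit 1) (nat_lit 6) (nat_lit 7) (nat_lit 44) (nat_lit 223) r10_44 r1_223 (nat_lit 0) (nat_lit 0) (nat_lit 0) (nat_lit 0x7e5b3e8dbc) (nat_lit 806755248),
  Rx.mk (nat_lit 430) (nat_lit 6) (nat_lit 5) (nat_lit 6) (nat_lit 7) (nat_lit 45) (nat_lit 224) r10_45 r1_224 (nat_lit 0) (nat_lit 0) (nat_lit 0) (nat_lit 0x7de11ef030) (nat_lit 1040914368)]
noncomputable def e49_22 : List Rx := [
  Rx.mk (nat_lit 268) (nat_lit 4) (nat_lit 1) (nat_lit 4) (nat_lit 2) (nat_lit 46) (nat_lit 188) r10_46 r4_188 (nat_lit 0) (nat_lit 0) (nat_lit 0) (nat_lit 0x7d74889a02) (nat_lit 1249119144),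
  Rx.mk (nat_lit 269) (nat_lit 5) (nat_lit 1) (nat_lit 4) (nat_lit 3) (nat_lit 48) (nat_lit 189) r10_48 r4_189 (nat_lit 0) (nat_lit 0) (nat_lit 0) (nat_lit 0x7de345adc2) (nat_lit 1036789416),
  Rx.mk (nat_lit 270) (nat_lit 6) (nat_lit 1) (nat_lit 4) (nat_lit 3) (nat_lit 50) (nat_lit 190) r10_50 r4_190 (nat_lit 0) (nat_lit 0) (nat_lit 0) (nat_lit 0x7df171aaf4) (nat_lit 1009616400),
  Rx.mk (nat_lit 398) (nat_lit 6) (nat_lit 1) (nat_lit 6) (nat_lit 7) (nat_lit 51) (nat_lit 194) r10_51 r4_194 (nat_lit 0) (nat_lit 0) (nat_lit 0) (nat_lit 0x7e002a9f56) (nat_lit 981387576),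
  Rx.mk (nat_lit 460) (nat_lit 4) (nat_lit 1) (nat_lit 7) (nat_lit 6) (nat_lit 47) (nat_lit 191) r10_47 r4_191 (nat_lit 0) (nat_lit 0) (nat_lit 0) (nat_lit 0x7e25a6c76e) (nat_lit 909514008),
  Rx.mk (nat_lit 461) (nat_lit 5) (nat_lit 1) (nat_lit 7) (nat_lit 7) (nat_lit 49) (nat_lit 192) r10_49 r4_192 (nat_lit 0) (nat_lit 0) (nat_lit 0) (nat_lit 0x7df971caea) (nat_lit 994276296),
  Rx.mk (nat_lit 462) (nat_lit 6) (nat_lit 1) (nat_lit 7) (nat_lit 7) (nat_lit 52) (nat_lit 193) r10_52 r4_193 (nat_lit 0) (nat_lit 0) (nat_lit 0) (nat_lit 0x7df8e77390) (nat_lit 995312448)]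
noncomputable def e49_23 : List Rx := [
  Rx.mk (nat_lit 268) (nat_lit 4) (nat_lit 1) (nat_lit 4) (nat_lit 2) (nat_lit 212) (nat_lit 449) r10_212 r6_449 (nat_lit 0) (nat_lit 0) (nat_lit 0) (nat_lit 0x776214075e) (nat_lit 4229625816),
  Rx.mk (nat_lit 269) (nat_lit 5) (nat_lit 1) (nat_lit 4) (nat_lit 3) (nat_lit 214) (nat_lit 451) r10_214 r6_451 (nat_lit 0) (nat_lit 0) (nat_lit 0) (nat_lit 0x7df79428c6) (nat_lit 997853688),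
  Rx.mk (nat_lit 270) (nat_lit 6) (nat_lit 1) (nat_lit 4) (nat_lit 3) (nat_lit 216) (nat_lit 453) r10_216 r6_453 (nat_lit 0) (nat_lit 0) (nat_lit 0) (nat_lit 0x7dc96b0b86) (nat_lit 1086361848),
  Rx.mk (nat_lit 332) (nat_lit 4) (nat_lit 1) (nat_lit 5) (nat_lit 6) (nat_lit 213) (nat_lit 450) r10_213 r6_450 (nat_lit 0) (nat_lit 0) (nat_lit 0) (nat_lit 0x7dbb30cf38) (nat_lit 1113641568),
  Rx.mk (nat_lit 333) (nat_lit 5) (nat_lit 1) (nat_lit 5) (nat_lit 7) (nat_lit 215) (nat_lit 452) r10_215 r6_452 (nat_lit 0) (nat_lit 0) (nat_lit 0) (nat_lit 0x7de4fa127a) (nat_lit 1033520904),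
  Rx.mk (nat_lit 334) (nat_lit 6) (nat_lit 1) (nat_lit 5) (nat_lit 7) (nat_lit 217) (nat_lit 454) r10_217 r6_454 (nat_lit 0) (nat_lit 0) (nat_lit 0) (nat_lit 0x7dc83d9e5e) (nat_lit 1088619480),
  Rx.mk (nat_lit 398) (nat_lit 6) (nat_lit 1) (nat_lit 6) (nat_lit 7) (nat_lit 218) (nat_lit 455) r10_218 r6_455 (nat_lit 0) (nat_lit 0) (nat_lit 0) (nat_lit 0x7def592c7e) (nat_lit 1013634648)]
noncomputable def e49_24 : List Rx := [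
  Rx.mk (nat_lit 268) (nat_lit 4) (nat_lit 1) (nat_lit 4) (nat_lit 2) (nat_lit 222) (nat_lit 368) r10_222 r7_368 (nat_lit 0) (nat_lit 0) (nat_lit 0) (nat_lit 0x6dd2a647ca) (nat_lit 8922316104),
  Rx.mk (nat_lit 269) (nat_lit 5) (nat_lit 1) (nat_lit 4) (nat_lit 3) (nat_lit 224) (nat_lit 370) r10_224 r7_370 (nat_lit 0) (nat_lit 0) (nat_lit 0) (nat_lit 0x7dd5e543d6) (nat_lit 1062437688),
  Rx.mk (nat_lit 270) (nat_lit 6) (nat_lit 1) (nat_lit 4) (nat_lit 3) (nat_lit 226) (nat_lit 372) r10_226 r7_372 (nat_lit 0) (nat_lit 0) (nat_lit 0) (nat_lit 0x7d483d1ee6) (nat_lit 1334049912),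
  Rx.mk (nat_lit 332) (nat_lit 4) (nat_lit 1) (nat_lit 5) (nat_lit 6) (nat_lit 223) (nat_lit 369) r10_223 r7_369 (nat_lit 0) (nat_lit 0) (nat_lit 0) (nat_lit 0x7dce8599d8) (nat_lit 1076575968),
  Rx.mk (nat_lit 333) (nat_lit 5) (nat_lit 1) (nat_lit 5) (nat_lit 7) (nat_lit 225) (nat_lit 371) r10_225 r7_371 (nat_lit 0) (nat_lit 0) (nat_lit 0) (nat_lit 0x7df118d082) (nat_lit 1010281896),
  Rx.mk (nat_lit 334) (nat_lit 6) (nat_lit 1) (nat_lit 5) (nat_lit 7) (nat_lit 227) (nat_lit 373) r10_227 r7_373 (nat_lit 0) (nat_lit 0) (nat_lit 0) (nat_lit 0x7df32a2f6a) (nat_lit 1006317000),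
  Rx.mk (nat_lit 398) (nat_lit 6) (nat_lit 1) (nat_lit 6) (nat_lit 7) (nat_lit 228) (nat_lit 374) r10_228 r7_374 (nat_lit 0) (nat_lit 0) (nat_lit 0) (nat_lit 0x7de7266fb2) (nat_lit 1029353832),
  Rx.mk (nat_lit 430) (nat_lit 6) (nat_lit 5) (nat_lit 6) (nat_lit 7) (nat_lit 229) (nat_lit 367) r10_229 r7_367 (nat_lit 0) (nat_lit 0) (nat_lit 0) (nat_lit 0x7ddf1c9058) (nat_lit 1044766944)]
noncomputable def e49_25 : List Rx := [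
  Rx.mk (nat_lit 332) (nat_lit 4) (nat_lit 1) (nat_lit 5) (nat_lit 6) (nat_lit 219) (nat_lit 198) r10_219 r7_198 (nat_lit 0) (nat_lit 0) (nat_lit 0) (nat_lit 0x7df20f8116) (nat_lit 1008434232),
  Rx.mk (nat_lit 333) (nat_lit 5) (nat_lit 1) (nat_lit 5) (nat_lit 7) (nat_lit 220) (nat_lit 199) r10_220 r7_199 (nat_lit 0) (nat_lit 0) (nat_lit 0) (nat_lit 0x7de83d5e42) (nat_lit 1027264680),
  Rx.mk (nat_lit 334) (nat_lit 6) (nat_lit 1) (nat_lit 5) (nat_lit 7) (nat_lit 221) (nat_lit 200) r10_221 r7_200 (nat_lit 0) (nat_lit 0) (nat_lit 0) (nat_lit 0x7deb8469ce) (nat_lit 1020980376)]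
noncomputable def e49_26 : List Rx := [
  Rx.mk (nat_lit 268) (nat_lit 4) (nat_lit 1) (nat_lit 4) (nat_lit 2) (nat_lit 230) (nat_lit 374) r10_230 r9_374 (nat_lit 0) (nat_lit 0) (nat_lit 0) (nat_lit 0x7db50971b4) (nat_lit 1125440784),
  Rx.mk (nat_lit 269) (nat_lit 5) (nat_lit 1) (nat_lit 4) (nat_lit 3) (nat_lit 232) (nat_lit 376) r10_232 r9_376 (nat_lit 0) (nat_lit 0) (nat_lit 0) (nat_lit 0x7defa427ce) (nat_lit 1013073048),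
  Rx.mk (nat_lit 270) (nat_lit 6) (nat_lit 1) (nat_lit 4) (nat_lit 3) (nat_lit 234) (nat_lit 378) r10_234 r9_378 (nat_lit 0) (nat_lit 0) (nat_lit 0) (nat_lit 0x7de652fcea) (nat_lit 1030937544),
  Rx.mk (nat_lit 398) (nat_lit 6) (nat_lit 1) (nat_lit 6) (nat_lit 7) (nat_lit 235) (nat_lit 379) r10_235 r9_379 (nat_lit 0) (nat_lit 0) (nat_lit 0) (nat_lit 0x7deffe8228) (nat_lit 1012396320),
  Rx.mk (nat_lit 460) (nat_lit 4) (nat_lit 1) (nat_lit 7) (nat_lit 6) (nat_lit 231) (nat_lit 375) r10_231 r9_375 (nat_lit 0) (nat_lit 0) (nat_lit 0) (nat_lit 0x7def382e8e) (nat_lit 1013881752),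
  Rx.mk (nat_lit 461) (nat_lit 5) (nat_lit 1) (nat_lit 7) (nat_lit 7) (nat_lit 233) (nat_lit 377) r10_233 r9_377 (nat_lit 0) (nat_lit 0) (nat_lit 0) (nat_lit 0x7df680f9fa) (nat_lit 999914760)]
noncomputable def e49_27 : List Rx := [
  Rx.mk (nat_lit 460) (nat_lit 4) (nat_lit 1) (nat_lit 7) (nat_lit 6) (nat_lit 281) (nat_lit 368) r10_281 r10_368 (nat_lit 0) (nat_lit 0) (nat_lit 0) (nat_lit 0x7df1570c9e) (nat_lit 1009815768),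
  Rx.mk (nat_lit 461) (nat_lit 5) (nat_lit 1) (nat_lit 7) (nat_lit 7) (nat_lit 282) (nat_lit 369) r10_282 r10_369 (nat_lit 0) (nat_lit 0) (nat_lit 0) (nat_lit 0x7df79428c6) (nat_lit 997853688),
  Rx.mk (nat_lit 462) (nat_lit 6) (nat_lit 1) (nat_lit 7) (nat_lit 7) (nat_lit 283) (nat_lit 370) r10_283 r10_370 (nat_lit 0) (nat_lit 0) (nat_lit 0) (nat_lit 0x7df441ddee) (nat_lit 1004222232)]
noncomputable def e49_28 : List Rx := [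
  Rx.mk (nat_lit 21) (nat_lit 5) (nat_lit 2) (nat_lit 0) (nat_lit 3) (nat_lit 368) (nat_lit 281) r10_368 r10_281 (nat_lit 0) (nat_lit 0) (nat_lit 0) (nat_lit 0x7df1570c9e) (nat_lit 1009815768),
  Rx.mk (nat_lit 85) (nat_lit 5) (nat_lit 2) (nat_lit 1) (nat_lit 7) (nat_lit 369) (nat_lit 282) r10_369 r10_282 (nat_lit 0) (nat_lit 0) (nat_lit 0) (nat_lit 0x7df79428c6) (nat_lit 997853688),
  Rx.mk (nat_lit 213) (nat_lit 5) (nat_lit 2) (nat_lit 3) (nat_lit 7) (nat_lit 370) (nat_lit 283) r10_370 r10_283 (nat_lit 0) (nat_lit 0) (nat_lit 0) (nat_lit 0x7df441ddee) (nat_lit 1004222232)]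
noncomputable def e49_29 : List Rx := [
  Rx.mk (nat_lit 215) (nat_lit 7) (nat_lit 2) (nat_lit 3) (nat_lit 7) (nat_lit 65) (nat_lit 163) r10_65 r5_163 (nat_lit 0) (nat_lit 0) (nat_lit 0) (nat_lit 0x7eb9830916) (nat_lit 626007096),
  Rx.mk (nat_lit 284) (nat_lit 4) (nat_lit 3) (nat_lit 4) (nat_lit 2) (nat_lit 53) (nat_lit 153) r10_53 r5_153 (nat_lit 0) (nat_lit 0) (nat_lit 0) (nat_lit 0x7b5c1d42d0) (nat_lit 2277647424),
  Rx.mk (nat_lit 285) (nat_lit 5) (nat_lit 3) (nat_lit 4) (nat_lit 3) (nat_lit 57) (nat_lit 157) r10_57 r5_157 (nat_lit 0) (nat_lit 0) (nat_lit 0) (nat_lit 0x7d9ee59408) (nat_lit 1167892128),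
  Rx.mk (nat_lit 286) (nat_lit 6) (nat_lit 3) (nat_lit 4) (nat_lit 3) (nat_lit 61) (nat_lit 164) r10_61 r5_164 (nat_lit 0) (nat_lit 0) (nat_lit 0) (nat_lit 0x7df4237fd4) (nat_lit 1004449680),
  Rx.mk (nat_lit 414) (nat_lit 6) (nat_lit 3) (nat_lit 6) (nat_lit 7) (nat_lit 62) (nat_lit 167) r10_62 r5_167 (nat_lit 0) (nat_lit 0) (nat_lit 0) (nat_lit 0x7df4675b96) (nat_lit 1003941432),
  Rx.mk (nat_lit 452) (nat_lit 4) (nat_lit 0) (nat_lit 7) (nat_lit 4) (nat_lit 54) (nat_lit 154) r10_54 r5_154 (nat_lit 0) (nat_lit 0) (nat_lit 0) (nat_lit 0x75b5e9ebac) (nat_lit 5050586736),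
  Rx.mk (nat_lit 453) (nat_lit 5) (nat_lit 0) (nat_lit 7) (nat_lit 5) (nat_lit 58) (nat_lit 158) r10_58 r5_158 (nat_lit 0) (nat_lit 0) (nat_lit 0) (nat_lit 0x7de6df9420) (nat_lit 1029884544),
  Rx.mk (nat_lit 454) (nat_lit 6) (nat_lit 0) (nat_lit 7) (nat_lit 5) (nat_lit 63) (nat_lit 165) r10_63 r5_165 (nat_lit 0) (nat_lit 0) (nat_lit 0) (nat_lit 0x7dd58429e8) (nat_lit 1063164960),
  Rx.mk (nat_lit 455) (nat_lit 7) (nat_lit 0) (nat_lit 7) (nat_lit 5) (nat_lit 66) (nat_lit 161) r10_66 r5_161 (nat_lit 0) (nat_lit 0) (nat_lit 0) (nat_lit 0x7db1f38316) (nat_lit 1131357240),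
  Rx.mk (nat_lit 468) (nat_lit 4) (nat_lit 2) (nat_lit 7) (nat_lit 6) (nat_lit 55) (nat_lit 156) r10_55 r5_156 (nat_lit 0) (nat_lit 0) (nat_lit 0) (nat_lit 0x7d9fc50610) (nat_lit 1166218560),
  Rx.mk (nat_lit 469) (nat_lit 5) (nat_lit 2) (nat_lit 7) (nat_lit 7) (nat_lit 59) (nat_lit 160) r10_59 r5_160 (nat_lit 0) (nat_lit 0) (nat_lit 0) (nat_lit 0x7df1199076) (nat_lit 1010276280),
  Rx.mk (nat_lit 471) (nat_lit 7) (nat_lit 2) (nat_lit 7) (nat_lit 7) (nat_lit 67) (nat_lit 162) r10_67 r5_162 (nat_lit 0) (nat_lit 0) (nat_lit 0) (nat_lit 0x7dc21520ec) (nat_lit 1100427120),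
  Rx.mk (nat_lit 476) (nat_lit 4) (nat_lit 3) (nat_lit 7) (nat_lit 6) (nat_lit 56) (nat_lit 155) r10_56 r5_155 (nat_lit 0) (nat_lit 0) (nat_lit 0) (nat_lit 0x7e2b4d2d02) (nat_lit 898680744),
  Rx.mk (nat_lit 477) (nat_lit 5) (nat_lit 3) (nat_lit 7) (nat_lit 7) (nat_lit 60) (nat_lit 159) r10_60 r5_159 (nat_lit 0) (nat_lit 0) (nat_lit 0) (nat_lit 0x7df675baae) (nat_lit 999999000),
  Rx.mk (nat_lit 478) (nat_lit 6) (nat_lit 3) (nat_lit 7) (nat_lit 7) (nat_lit 64) (nat_lit 166) r10_64 r5_166 (nat_lit 0) (nat_lit 0) (nat_lit 0) (nat_lit 0x7ddaeb3372) (nat_lit 1052806248)]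
noncomputable def e49_30 : List Rx := [
  Rx.mk (nat_lit 260) (nat_lit 4) (nat_lit 0) (nat_lit 4) (nat_lit 0) (nat_lit 236) (nat_lit 236) r10_236 r10_236 (nat_lit 0) (nat_lit 0) (nat_lit 0) (nat_lit 0x540d4a5750) (nat_lit 21572066880),
  Rx.mk (nat_lit 261) (nat_lit 5) (nat_lit 0) (nat_lit 4) (nat_lit 1) (nat_lit 246) (nat_lit 240) r10_246 r10_240 (nat_lit 0) (nat_lit 0) (nat_lit 0) (nat_lit 0x7da3588cd4) (nat_lit 1159361424),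
  Rx.mk (nat_lit 262) (nat_lit 6) (nat_lit 0) (nat_lit 4) (nat_lit 1) (nat_lit 254) (nat_lit 243) r10_254 r10_243 (nat_lit 0) (nat_lit 0) (nat_lit 0) (nat_lit 0x7d57554d54) (nat_lit 1305107856),
  Rx.mk (nat_lit 268) (nat_lit 4) (nat_lit 1) (nat_lit 4) (nat_lit 2) (nat_lit 237) (nat_lit 237) r10_237 r10_237 (nat_lit 0) (nat_lit 0) (nat_lit 0) (nat_lit 0x7de7980898) (nat_lit 1028503008),
  Rx.mk (nat_lit 270) (nat_lit 6) (nat_lit 1) (nat_lit 4) (nat_lit 3) (nat_lit 255) (nat_lit 244) r10_255 r10_244 (nat_lit 0) (nat_lit 0) (nat_lit 0) (nat_lit 0x7df6641bc8) (nat_lit 1000130976),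
  Rx.mk (nat_lit 276) (nat_lit 4) (nat_lit 2) (nat_lit 4) (nat_lit 2) (nat_lit 238) (nat_lit 239) r10_238 r10_239 (nat_lit 0) (nat_lit 0) (nat_lit 0) (nat_lit 0x7dbee7f3c2) (nat_lit 1106517672),
  Rx.mk (nat_lit 277) (nat_lit 5) (nat_lit 2) (nat_lit 4) (nat_lit 3) (nat_lit 247) (nat_lit 242) r10_247 r10_242 (nat_lit 0) (nat_lit 0) (nat_lit 0) (nat_lit 0x7de958cc8a) (nat_lit 1025141832),
  Rx.mk (nat_lit 284) (nat_lit 4) (nat_lit 3) (nat_lit 4) (nat_lit 2) (nat_lit 239) (nat_lit 238) r10_239 r10_238 (nat_lit 0) (nat_lit 0) (nat_lit 0) (nat_lit 0x7dbee7f3c2) (nat_lit 1106517672),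
  Rx.mk (nat_lit 285) (nat_lit 5) (nat_lit 3) (nat_lit 4) (nat_lit 3) (nat_lit 248) (nat_lit 241) r10_248 r10_241 (nat_lit 0) (nat_lit 0) (nat_lit 0) (nat_lit 0x7df1b106fe) (nat_lit 1009141848),
  Rx.mk (nat_lit 286) (nat_lit 6) (nat_lit 3) (nat_lit 4) (nat_lit 3) (nat_lit 256) (nat_lit 245) r10_256 r10_245 (nat_lit 0) (nat_lit 0) (nat_lit 0) (nat_lit 0x7dd66edb3c) (nat_lit 1061407152),
  Rx.mk (nat_lit 324) (nat_lit 4) (nat_lit 0) (nat_lit 5) (nat_lit 4) (nat_lit 240) (nat_lit 246) r10_240 r10_246 (nat_lit 0) (nat_lit 0) (nat_lit 0) (nat_lit 0x7da3588cd4) (nat_lit 1159361424),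
  Rx.mk (nat_lit 325) (nat_lit 5) (nat_lit 0) (nat_lit 5) (nat_lit 5) (nat_lit 249) (nat_lit 249) r10_249 r10_249 (nat_lit 0) (nat_lit 0) (nat_lit 0) (nat_lit 0x7df2331edc) (nat_lit 1008167472),
  Rx.mk (nat_lit 326) (nat_lit 6) (nat_lit 0) (nat_lit 5) (nat_lit 5) (nat_lit 257) (nat_lit 252) r10_257 r10_252 (nat_lit 0) (nat_lit 0) (nat_lit 0) (nat_lit 0x7ddd346edc) (nat_lit 1048422960),
  Rx.mk (nat_lit 340) (nat_lit 4) (nat_lit 2) (nat_lit 5) (nat_lit 6) (nat_lit 241) (nat_lit 248) r10_241 r10_248 (nat_lit 0) (nat_lit 0) (nat_lit 0) (nat_lit 0x7df1b106fe) (nat_lit 1009141848),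
  Rx.mk (nat_lit 341) (nat_lit 5) (nat_lit 2) (nat_lit 5) (nat_lit 7) (nat_lit 250) (nat_lit 251) r10_250 r10_251 (nat_lit 0) (nat_lit 0) (nat_lit 0) (nat_lit 0x7defa487c8) (nat_lit 1013070240),
  Rx.mk (nat_lit 348) (nat_lit 4) (nat_lit 3) (nat_lit 5) (nat_lit 6) (nat_lit 242) (nat_lit 247) r10_242 r10_247 (nat_lit 0) (nat_lit 0) (nat_lit 0) (nat_lit 0x7de958cc8a) (nat_lit 1025141832),
  Rx.mk (nat_lit 349) (nat_lit 5) (nat_lit 3) (nat_lit 5) (nat_lit 7) (nat_lit 251) (nat_lit 250) r10_251 r10_250 (nat_lit 0) (nat_lit 0) (nat_lit 0) (nat_lit 0x7defa487c8) (nat_lit 1013070240),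
  Rx.mk (nat_lit 350) (nat_lit 6) (nat_lit 3) (nat_lit 5) (nat_lit 7) (nat_lit 258) (nat_lit 253) r10_258 r10_253 (nat_lit 0) (nat_lit 0) (nat_lit 0) (nat_lit 0x7df79428c6) (nat_lit 997853688),
  Rx.mk (nat_lit 390) (nat_lit 6) (nat_lit 0) (nat_lit 6) (nat_lit 5) (nat_lit 259) (nat_lit 262) r10_259 r10_262 (nat_lit 0) (nat_lit 0) (nat_lit 0) (nat_lit 0x7df1402e0c) (nat_lit 1009987056),
  Rx.mk (nat_lit 398) (nat_lit 6) (nat_lit 1) (nat_lit 6) (nat_lit 7) (nat_lit 260) (nat_lit 263) r10_260 r10_263 (nat_lit 0) (nat_lit 0) (nat_lit 0) (nat_lit 0x7df1978896) (nat_lit 1009332792),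
  Rx.mk (nat_lit 414) (nat_lit 6) (nat_lit 3) (nat_lit 6) (nat_lit 7) (nat_lit 261) (nat_lit 264) r10_261 r10_264 (nat_lit 0) (nat_lit 0) (nat_lit 0) (nat_lit 0x7de80a0178) (nat_lit 1027649376),
  Rx.mk (nat_lit 452) (nat_lit 4) (nat_lit 0) (nat_lit 7) (nat_lit 4) (nat_lit 243) (nat_lit 254) r10_243 r10_254 (nat_lit 0) (nat_lit 0) (nat_lit 0) (nat_lit 0x7d57554d54) (nat_lit 1305107856),
  Rx.mk (nat_lit 453) (nat_lit 5) (nat_lit 0) (nat_lit 7) (nat_lit 5) (nat_lit 252) (nat_lit 257) r10_252 r10_257 (nat_lit 0) (nat_lit 0) (nat_lit 0) (nat_lit 0x7ddd346edc) (nat_lit 1048422960),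
  Rx.mk (nat_lit 455) (nat_lit 7) (nat_lit 0) (nat_lit 7) (nat_lit 5) (nat_lit 262) (nat_lit 259) r10_262 r10_259 (nat_lit 0) (nat_lit 0) (nat_lit 0) (nat_lit 0x7df1402e0c) (nat_lit 1009987056),
  Rx.mk (nat_lit 460) (nat_lit 4) (nat_lit 1) (nat_lit 7) (nat_lit 6) (nat_lit 244) (nat_lit 255) r10_244 r10_255 (nat_lit 0) (nat_lit 0) (nat_lit 0) (nat_lit 0x7df6641bc8) (nat_lit 1000130976),
  Rx.mk (nat_lit 463) (nat_lit 7) (nat_lit 1) (nat_lit 7) (nat_lit 7) (nat_lit 263) (nat_lit 260) r10_263 r10_260 (nat_lit 0) (nat_lit 0) (nat_lit 0) (nat_lit 0x7df1978896) (nat_lit 1009332792),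
  Rx.mk (nat_lit 468) (nat_lit 4) (nat_lit 2) (nat_lit 7) (nat_lit 6) (nat_lit 245) (nat_lit 256) r10_245 r10_256 (nat_lit 0) (nat_lit 0) (nat_lit 0) (nat_lit 0x7dd66edb3c) (nat_lit 1061407152),
  Rx.mk (nat_lit 469) (nat_lit 5) (nat_lit 2) (nat_lit 7) (nat_lit 7) (nat_lit 253) (nat_lit 258) r10_253 r10_258 (nat_lit 0) (nat_lit 0) (nat_lit 0) (nat_lit 0x7df79428c6) (nat_lit 997853688),
  Rx.mk (nat_lit 471) (nat_lit 7) (nat_lit 2) (nat_lit 7) (nat_lit 7) (nat_lit 264) (nat_lit 261) r10_264 r10_261 (nat_lit 0) (nat_lit 0) (nat_lit 0) (nat_lit 0x7de80a0178) (nat_lit 1027649376)]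
noncomputable def e49_31 : List Rx := [
  Rx.mk (nat_lit 212) (nat_lit 4) (nat_lit 2) (nat_lit 3) (nat_lit 6) (nat_lit 284) (nat_lit 241) r10_284 r5_241 (nat_lit 0) (nat_lit 0) (nat_lit 0) (nat_lit 0x7e9ce972cc) (nat_lit 680844528),
  Rx.mk (nat_lit 213) (nat_lit 5) (nat_lit 2) (nat_lit 3) (nat_lit 7) (nat_lit 285) (nat_lit 242) r10_285 r5_242 (nat_lit 0) (nat_lit 0) (nat_lit 0) (nat_lit 0x7eb3926826) (nat_lit 637396344),
  Rx.mk (nat_lit 215) (nat_lit 7) (nat_lit 2) (nat_lit 3) (nat_lit 7) (nat_lit 286) (nat_lit 243) r10_286 r5_243 (nat_lit 0) (nat_lit 0) (nat_lit 0) (nat_lit 0x7eba8a38a2) (nat_lit 624035880)]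
noncomputable def e49_32 : List Rx := [
  Rx.mk (nat_lit 212) (nat_lit 4) (nat_lit 2) (nat_lit 3) (nat_lit 6) (nat_lit 287) (nat_lit 441) r10_287 r11_441 (nat_lit 0) (nat_lit 0) (nat_lit 0) (nat_lit 0x7eeaa716a4) (nat_lit 531784656),
  Rx.mk (nat_lit 213) (nat_lit 5) (nat_lit 2) (nat_lit 3) (nat_lit 7) (nat_lit 291) (nat_lit 445) r10_291 r11_445 (nat_lit 0) (nat_lit 0) (nat_lit 0) (nat_lit 0x7ed7099090) (nat_lit 569395008),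
  Rx.mk (nat_lit 215) (nat_lit 7) (nat_lit 2) (nat_lit 3) (nat_lit 7) (nat_lit 297) (nat_lit 447) r10_297 r11_447 (nat_lit 0) (nat_lit 0) (nat_lit 0) (nat_lit 0x7ed6cb5474) (nat_lit 569861136),
  Rx.mk (nat_lit 452) (nat_lit 4) (nat_lit 0) (nat_lit 7) (nat_lit 4) (nat_lit 288) (nat_lit 439) r10_288 r11_439 (nat_lit 0) (nat_lit 0) (nat_lit 0) (nat_lit 0x73c76ed54c) (nat_lit 5998702320),
  Rx.mk (nat_lit 453) (nat_lit 5) (nat_lit 0) (nat_lit 7) (nat_lit 5) (nat_lit 292) (nat_lit 443) r10_292 r11_443 (nat_lit 0) (nat_lit 0) (nat_lit 0) (nat_lit 0x7dd14ded50) (nat_lit 1071240768),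
  Rx.mk (nat_lit 454) (nat_lit 6) (nat_lit 0) (nat_lit 7) (nat_lit 5) (nat_lit 295) (nat_lit 448) r10_295 r11_448 (nat_lit 0) (nat_lit 0) (nat_lit 0) (nat_lit 0x7d8b3fce78) (nat_lit 1205564256),
  Rx.mk (nat_lit 468) (nat_lit 4) (nat_lit 2) (nat_lit 7) (nat_lit 6) (nat_lit 289) (nat_lit 442) r10_289 r11_442 (nat_lit 0) (nat_lit 0) (nat_lit 0) (nat_lit 0x7d45698c22) (nat_lit 1339469352),
  Rx.mk (nat_lit 469) (nat_lit 5) (nat_lit 2) (nat_lit 7) (nat_lit 7) (nat_lit 293) (nat_lit 446) r10_293 r11_446 (nat_lit 0) (nat_lit 0) (nat_lit 0) (nat_lit 0x7df4f75296) (nat_lit 1002863160),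
  Rx.mk (nat_lit 476) (nat_lit 4) (nat_lit 3) (nat_lit 7) (nat_lit 6) (nat_lit 290) (nat_lit 440) r10_290 r11_440 (nat_lit 0) (nat_lit 0) (nat_lit 0) (nat_lit 0x7e5f76aa36) (nat_lit 798665400),
  Rx.mk (nat_lit 477) (nat_lit 5) (nat_lit 3) (nat_lit 7) (nat_lit 7) (nat_lit 294) (nat_lit 444) r10_294 r11_444 (nat_lit 0) (nat_lit 0) (nat_lit 0) (nat_lit 0x7df4cdb530) (nat_lit 1003174848),
  Rx.mk (nat_lit 478) (nat_lit 6) (nat_lit 3) (nat_lit 7) (nat_lit 7) (nat_lit 296) (nat_lit 449) r10_296 r11_449 (nat_lit 0) (nat_lit 0) (nat_lit 0) (nat_lit 0x7def628be8) (nat_lit 1013564448)]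
noncomputable def e49_33 : List Rx := [
  Rx.mk (nat_lit 422) (nat_lit 6) (nat_lit 4) (nat_lit 6) (nat_lit 5) (nat_lit 0) (nat_lit 152) r10_0 r0_152 (nat_lit 0) (nat_lit 0) (nat_lit 0) (nat_lit 0x7e1794a89e) (nat_lit 936493272),
  Rx.mk (nat_lit 446) (nat_lit 6) (nat_lit 7) (nat_lit 6) (nat_lit 7) (nat_lit 1) (nat_lit 153) r10_1 r0_153 (nat_lit 0) (nat_lit 0) (nat_lit 0) (nat_lit 0x7df4465da6) (nat_lit 1004188536)]
noncomputable def e49_34 : List Rx := [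
  Rx.mk (nat_lit 16) (nat_lit 0) (nat_lit 2) (nat_lit 0) (nat_lit 2) (nat_lit 91) (nat_lit 212) r10_91 r0_212 (nat_lit 0) (nat_lit 0) (nat_lit 0) (nat_lit 0x41b494b504) (nat_lit 30577519440),
  Rx.mk (nat_lit 19) (nat_lit 3) (nat_lit 2) (nat_lit 0) (nat_lit 3) (nat_lit 97) (nat_lit 213) r10_97 r0_213 (nat_lit 0) (nat_lit 0) (nat_lit 0) (nat_lit 0x78034c9334) (nat_lit 3920501520),
  Rx.mk (nat_lit 48) (nat_lit 0) (nat_lit 6) (nat_lit 0) (nat_lit 2) (nat_lit 92) (nat_lit 219) r10_92 r0_219 (nat_lit 0) (nat_lit 0) (nat_lit 0) (nat_lit 0x4965c57a46) (nat_lit 26801801208),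
  Rx.mk (nat_lit 162) (nat_lit 2) (nat_lit 4) (nat_lit 2) (nat_lit 5) (nat_lit 94) (nat_lit 215) r10_94 r0_215 (nat_lit 0) (nat_lit 0) (nat_lit 0) (nat_lit 0x7d78b51736) (nat_lit 1241116344),
  Rx.mk (nat_lit 176) (nat_lit 0) (nat_lit 6) (nat_lit 2) (nat_lit 6) (nat_lit 93) (nat_lit 220) r10_93 r0_220 (nat_lit 0) (nat_lit 0) (nat_lit 0) (nat_lit 0x7d5dec63dc) (nat_lit 1292471856),
  Rx.mk (nat_lit 178) (nat_lit 2) (nat_lit 6) (nat_lit 2) (nat_lit 7) (nat_lit 95) (nat_lit 221) r10_95 r0_221 (nat_lit 0) (nat_lit 0) (nat_lit 0) (nat_lit 0x7e428d38ea) (nat_lit 854100936),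
  Rx.mk (nat_lit 211) (nat_lit 3) (nat_lit 2) (nat_lit 3) (nat_lit 7) (nat_lit 98) (nat_lit 214) r10_98 r0_214 (nat_lit 0) (nat_lit 0) (nat_lit 0) (nat_lit 0x7e314d2cfc) (nat_lit 887176368),
  Rx.mk (nat_lit 418) (nat_lit 2) (nat_lit 4) (nat_lit 6) (nat_lit 5) (nat_lit 96) (nat_lit 216) r10_96 r0_216 (nat_lit 0) (nat_lit 0) (nat_lit 0) (nat_lit 0x7de857fc98) (nat_lit 1027065312),
  Rx.mk (nat_lit 422) (nat_lit 6) (nat_lit 4) (nat_lit 6) (nat_lit 5) (nat_lit 99) (nat_lit 217) r10_99 r0_217 (nat_lit 0) (nat_lit 0) (nat_lit 0) (nat_lit 0x7c2f7ecbe4) (nat_lit 1872346320),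
  Rx.mk (nat_lit 446) (nat_lit 6) (nat_lit 7) (nat_lit 6) (nat_lit 7) (nat_lit 100) (nat_lit 218) r10_100 r0_218 (nat_lit 0) (nat_lit 0) (nat_lit 0) (nat_lit 0x7e0bdd0424) (nat_lit 958960080)]
noncomputable def e49_35 : List Rx := [
  Rx.mk (nat_lit 162) (nat_lit 2) (nat_lit 4) (nat_lit 2) (nat_lit 5) (nat_lit 102) (nat_lit 202) r10_102 r6_202 (nat_lit 0) (nat_lit 0) (nat_lit 0) (nat_lit 0x7d8f376efa) (nat_lit 1197957384),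
  Rx.mk (nat_lit 176) (nat_lit 0) (nat_lit 6) (nat_lit 2) (nat_lit 6) (nat_lit 101) (nat_lit 200) r10_101 r6_200 (nat_lit 0) (nat_lit 0) (nat_lit 0) (nat_lit 0x7de93d0e46) (nat_lit 1025349624),
  Rx.mk (nat_lit 178) (nat_lit 2) (nat_lit 6) (nat_lit 2) (nat_lit 7) (nat_lit 103) (nat_lit 203) r10_103 r6_203 (nat_lit 0) (nat_lit 0) (nat_lit 0) (nat_lit 0x7df1366ea8) (nat_lit 1010060064),
  Rx.mk (nat_lit 418) (nat_lit 2) (nat_lit 4) (nat_lit 6) (nat_lit 5) (nat_lit 104) (nat_lit 201) r10_104 r6_201 (nat_lit 0) (nat_lit 0) (nat_lit 0) (nat_lit 0x7dd6555cd4) (nat_lit 1061598096),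
  Rx.mk (nat_lit 422) (nat_lit 6) (nat_lit 4) (nat_lit 6) (nat_lit 5) (nat_lit 105) (nat_lit 198) r10_105 r6_198 (nat_lit 0) (nat_lit 0) (nat_lit 0) (nat_lit 0x7d9e0ce194) (nat_lit 1169515152),
  Rx.mk (nat_lit 446) (nat_lit 6) (nat_lit 7) (nat_lit 6) (nat_lit 7) (nat_lit 106) (nat_lit 199) r10_106 r6_199 (nat_lit 0) (nat_lit 0) (nat_lit 0) (nat_lit 0x7da1502d5c) (nat_lit 1163258928)]
noncomputable def e49_36 : List Rx := [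
  Rx.mk (nat_lit 16) (nat_lit 0) (nat_lit 2) (nat_lit 0) (nat_lit 2) (nat_lit 308) (nat_lit 241) r10_308 r2_241 (nat_lit 0) (nat_lit 0) (nat_lit 0) (nat_lit 0x6a7892cc5c) (nat_lit 10567587888),
  Rx.mk (nat_lit 17) (nat_lit 1) (nat_lit 2) (nat_lit 0) (nat_lit 3) (nat_lit 312) (nat_lit 242) r10_312 r2_242 (nat_lit 0) (nat_lit 0) (nat_lit 0) (nat_lit 0x7dda7c9a5c) (nat_lit 1053634608),
  Rx.mk (nat_lit 48) (nat_lit 0) (nat_lit 6) (nat_lit 0) (nat_lit 2) (nat_lit 309) (nat_lit 246) r10_309 r2_246 (nat_lit 0) (nat_lit 0) (nat_lit 0) (nat_lit 0x66e4917006) (nat_lit 12323932920),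
  Rx.mk (nat_lit 49) (nat_lit 1) (nat_lit 6) (nat_lit 0) (nat_lit 3) (nat_lit 313) (nat_lit 247) r10_313 r2_247 (nat_lit 0) (nat_lit 0) (nat_lit 0) (nat_lit 0x7dd88cf958) (nat_lit 1057346784),
  Rx.mk (nat_lit 176) (nat_lit 0) (nat_lit 6) (nat_lit 2) (nat_lit 6) (nat_lit 310) (nat_lit 248) r10_310 r2_248 (nat_lit 0) (nat_lit 0) (nat_lit 0) (nat_lit 0x7dd287b9b2) (nat_lit 1068890472),
  Rx.mk (nat_lit 177) (nat_lit 1) (nat_lit 6) (nat_lit 2) (nat_lit 7) (nat_lit 314) (nat_lit 249) r10_314 r2_249 (nat_lit 0) (nat_lit 0) (nat_lit 0) (nat_lit 0x7dd90551d2) (nat_lit 1056445416),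
  Rx.mk (nat_lit 178) (nat_lit 2) (nat_lit 6) (nat_lit 2) (nat_lit 7) (nat_lit 316) (nat_lit 250) r10_316 r2_250 (nat_lit 0) (nat_lit 0) (nat_lit 0) (nat_lit 0x7df6d8b47e) (nat_lit 999257688),
  Rx.mk (nat_lit 208) (nat_lit 0) (nat_lit 2) (nat_lit 3) (nat_lit 6) (nat_lit 311) (nat_lit 243) r10_311 r2_243 (nat_lit 0) (nat_lit 0) (nat_lit 0) (nat_lit 0x7dc32e4f58) (nat_lit 1098321120),
  Rx.mk (nat_lit 209) (nat_lit 1) (nat_lit 2) (nat_lit 3) (nat_lit 7) (nat_lit 315) (nat_lit 244) r10_315 r2_244 (nat_lit 0) (nat_lit 0) (nat_lit 0) (nat_lit 0x7de6ab7762) (nat_lit 1030274856),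
  Rx.mk (nat_lit 211) (nat_lit 3) (nat_lit 2) (nat_lit 3) (nat_lit 7) (nat_lit 317) (nat_lit 245) r10_317 r2_245 (nat_lit 0) (nat_lit 0) (nat_lit 0) (nat_lit 0x7df7510cf8) (nat_lit 998356320)]
noncomputable def e49_37 : List Rx := [
  Rx.mk (nat_lit 176) (nat_lit 0) (nat_lit 6) (nat_lit 2) (nat_lit 6) (nat_lit 330) (nat_lit 216) r10_330 r8_216 (nat_lit 0) (nat_lit 0) (nat_lit 0) (nat_lit 0x7dca825a10) (nat_lit 1084269888),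
  Rx.mk (nat_lit 177) (nat_lit 1) (nat_lit 6) (nat_lit 2) (nat_lit 7) (nat_lit 331) (nat_lit 217) r10_331 r8_217 (nat_lit 0) (nat_lit 0) (nat_lit 0) (nat_lit 0x7dde527cfa) (nat_lit 1046280456),
  Rx.mk (nat_lit 178) (nat_lit 2) (nat_lit 6) (nat_lit 2) (nat_lit 7) (nat_lit 332) (nat_lit 218) r10_332 r8_218 (nat_lit 0) (nat_lit 0) (nat_lit 0) (nat_lit 0x7de88a996e) (nat_lit 1026686232)]
noncomputable def e49_38 : List Rx := [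
  Rx.mk (nat_lit 16) (nat_lit 0) (nat_lit 2) (nat_lit 0) (nat_lit 2) (nat_lit 318) (nat_lit 231) r10_318 r8_231 (nat_lit 0) (nat_lit 0) (nat_lit 0) (nat_lit 0x74c5e86cb4) (nat_lit 5510773008),
  Rx.mk (nat_lit 17) (nat_lit 1) (nat_lit 2) (nat_lit 0) (nat_lit 3) (nat_lit 322) (nat_lit 232) r10_322 r8_232 (nat_lit 0) (nat_lit 0) (nat_lit 0) (nat_lit 0x7de5ce4536) (nat_lit 1031931576),
  Rx.mk (nat_lit 48) (nat_lit 0) (nat_lit 6) (nat_lit 0) (nat_lit 2) (nat_lit 319) (nat_lit 229) r10_319 r8_229 (nat_lit 0) (nat_lit 0) (nat_lit 0) (nat_lit 0x76844a04dc) (nat_lit 4654883376),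
  Rx.mk (nat_lit 49) (nat_lit 1) (nat_lit 6) (nat_lit 0) (nat_lit 3) (nat_lit 323) (nat_lit 230) r10_323 r8_230 (nat_lit 0) (nat_lit 0) (nat_lit 0) (nat_lit 0x7dd91db04c) (nat_lit 1056262896),
  Rx.mk (nat_lit 81) (nat_lit 1) (nat_lit 2) (nat_lit 1) (nat_lit 7) (nat_lit 324) (nat_lit 234) r10_324 r8_234 (nat_lit 0) (nat_lit 0) (nat_lit 0) (nat_lit 0x7deef3f2d2) (nat_lit 1014392808),
  Rx.mk (nat_lit 113) (nat_lit 1) (nat_lit 6) (nat_lit 1) (nat_lit 7) (nat_lit 325) (nat_lit 233) r10_325 r8_233 (nat_lit 0) (nat_lit 0) (nat_lit 0) (nat_lit 0x7df5994876) (nat_lit 1001650104),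
  Rx.mk (nat_lit 176) (nat_lit 0) (nat_lit 6) (nat_lit 2) (nat_lit 6) (nat_lit 320) (nat_lit 238) r10_320 r8_238 (nat_lit 0) (nat_lit 0) (nat_lit 0) (nat_lit 0x7db5be8662) (nat_lit 1124084520),
  Rx.mk (nat_lit 177) (nat_lit 1) (nat_lit 6) (nat_lit 2) (nat_lit 7) (nat_lit 326) (nat_lit 239) r10_326 r8_239 (nat_lit 0) (nat_lit 0) (nat_lit 0) (nat_lit 0x7df0180090) (nat_lit 1012205376),
  Rx.mk (nat_lit 178) (nat_lit 2) (nat_lit 6) (nat_lit 2) (nat_lit 7) (nat_lit 328) (nat_lit 240) r10_328 r8_240 (nat_lit 0) (nat_lit 0) (nat_lit 0) (nat_lit 0x7df39d4838) (nat_lit 1005454944),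
  Rx.mk (nat_lit 208) (nat_lit 0) (nat_lit 2) (nat_lit 3) (nat_lit 6) (nat_lit 321) (nat_lit 235) r10_321 r8_235 (nat_lit 0) (nat_lit 0) (nat_lit 0) (nat_lit 0x7de41b006c) (nat_lit 1035191664),
  Rx.mk (nat_lit 209) (nat_lit 1) (nat_lit 2) (nat_lit 3) (nat_lit 7) (nat_lit 327) (nat_lit 236) r10_327 r8_236 (nat_lit 0) (nat_lit 0) (nat_lit 0) (nat_lit 0x7dcf8f693a) (nat_lit 1074585096),
  Rx.mk (nat_lit 211) (nat_lit 3) (nat_lit 2) (nat_lit 3) (nat_lit 7) (nat_lit 329) (nat_lit 237) r10_329 r8_237 (nat_lit 0) (nat_lit 0) (nat_lit 0) (nat_lit 0x7df16d2b3c) (nat_lit 1009650096)]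
noncomputable def e49_39 : List Rx := [
  Rx.mk (nat_lit 16) (nat_lit 0) (nat_lit 2) (nat_lit 0) (nat_lit 2) (nat_lit 107) (nat_lit 234) r10_107 r1_234 (nat_lit 0) (nat_lit 0) (nat_lit 0) (nat_lit 0x79f253e0d0) (nat_lit 2971335744),
  Rx.mk (nat_lit 19) (nat_lit 3) (nat_lit 2) (nat_lit 0) (nat_lit 3) (nat_lit 111) (nat_lit 235) r10_111 r1_235 (nat_lit 0) (nat_lit 0) (nat_lit 0) (nat_lit 0x7de322cff0) (nat_lit 1037050560),
  Rx.mk (nat_lit 48) (nat_lit 0) (nat_lit 6) (nat_lit 0) (nat_lit 2) (nat_lit 108) (nat_lit 237) r10_108 r1_237 (nat_lit 0) (nat_lit 0) (nat_lit 0) (nat_lit 0x6afa16f398) (nat_lit 10319253984),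
  Rx.mk (nat_lit 176) (nat_lit 0) (nat_lit 6) (nat_lit 2) (nat_lit 6) (nat_lit 109) (nat_lit 238) r10_109 r1_238 (nat_lit 0) (nat_lit 0) (nat_lit 0) (nat_lit 0x7dd597a8b0) (nat_lit 1063018944),
  Rx.mk (nat_lit 178) (nat_lit 2) (nat_lit 6) (nat_lit 2) (nat_lit 7) (nat_lit 110) (nat_lit 239) r10_110 r1_239 (nat_lit 0) (nat_lit 0) (nat_lit 0) (nat_lit 0x7de4773aa8) (nat_lit 1034500896),
  Rx.mk (nat_lit 211) (nat_lit 3) (nat_lit 2) (nat_lit 3) (nat_lit 7) (nat_lit 112) (nat_lit 236) r10_112 r1_236 (nat_lit 0) (nat_lit 0) (nat_lit 0) (nat_lit 0x7e36429da0) (nat_lit 877668480)]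
noncomputable def e49_40 : List Rx := [
  Rx.mk (nat_lit 176) (nat_lit 0) (nat_lit 6) (nat_lit 2) (nat_lit 6) (nat_lit 113) (nat_lit 157) r10_113 r7_157 (nat_lit 0) (nat_lit 0) (nat_lit 0) (nat_lit 0x7dd4373eb8) (nat_lit 1065658464),
  Rx.mk (nat_lit 178) (nat_lit 2) (nat_lit 6) (nat_lit 2) (nat_lit 7) (nat_lit 114) (nat_lit 158) r10_114 r7_158 (nat_lit 0) (nat_lit 0) (nat_lit 0) (nat_lit 0x7deba267ee) (nat_lit 1020755736)]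
noncomputable def e49_41 : List Rx := [
  Rx.mk (nat_lit 422) (nat_lit 6) (nat_lit 4) (nat_lit 6) (nat_lit 5) (nat_lit 2) (nat_lit 166) r10_2 r1_166 (nat_lit 0) (nat_lit 0) (nat_lit 0) (nat_lit 0x7d62cfd5a0) (nat_lit 1283098752),
  Rx.mk (nat_lit 430) (nat_lit 6) (nat_lit 5) (nat_lit 6) (nat_lit 7) (nat_lit 3) (nat_lit 167) r10_3 r1_167 (nat_lit 0) (nat_lit 0) (nat_lit 0) (nat_lit 0x7dfa55bcaa) (nat_lit 992569032),
  Rx.mk (nat_lit 446) (nat_lit 6) (nat_lit 7) (nat_lit 6) (nat_lit 7) (nat_lit 4) (nat_lit 168) r10_4 r1_168 (nat_lit 0) (nat_lit 0) (nat_lit 0) (nat_lit 0x7ddc34bed8) (nat_lit 1050338016)]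
noncomputable def e49_42 : List Rx := [
  Rx.mk (nat_lit 430) (nat_lit 6) (nat_lit 5) (nat_lit 6) (nat_lit 7) (nat_lit 5) (nat_lit 167) r10_5 r2_167 (nat_lit 0) (nat_lit 0) (nat_lit 0) (nat_lit 0x7dd3702b2a) (nat_lit 1067149512)]
noncomputable def e49_43 : List Rx := [
  Rx.mk (nat_lit 162) (nat_lit 2) (nat_lit 4) (nat_lit 2) (nat_lit 5) (nat_lit 115) (nat_lit 206) r10_115 r7_206 (nat_lit 0) (nat_lit 0) (nat_lit 0) (nat_lit 0x7d7cc21662) (nat_lit 1233349416),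
  Rx.mk (nat_lit 170) (nat_lit 2) (nat_lit 5) (nat_lit 2) (nat_lit 7) (nat_lit 116) (nat_lit 209) r10_116 r7_209 (nat_lit 0) (nat_lit 0) (nat_lit 0) (nat_lit 0x7deb46eda6) (nat_lit 1021440888),
  Rx.mk (nat_lit 178) (nat_lit 2) (nat_lit 6) (nat_lit 2) (nat_lit 7) (nat_lit 117) (nat_lit 213) r10_117 r7_213 (nat_lit 0) (nat_lit 0) (nat_lit 0) (nat_lit 0x7df08459ca) (nat_lit 1011393864),
  Rx.mk (nat_lit 418) (nat_lit 2) (nat_lit 4) (nat_lit 6) (nat_lit 5) (nat_lit 118) (nat_lit 207) r10_118 r7_207 (nat_lit 0) (nat_lit 0) (nat_lit 0) (nat_lit 0x7dcad2f506) (nat_lit 1083666168),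
  Rx.mk (nat_lit 422) (nat_lit 6) (nat_lit 4) (nat_lit 6) (nat_lit 5) (nat_lit 120) (nat_lit 208) r10_120 r7_208 (nat_lit 0) (nat_lit 0) (nat_lit 0) (nat_lit 0x7da81b00a8) (nat_lit 1150235424),
  Rx.mk (nat_lit 426) (nat_lit 2) (nat_lit 5) (nat_lit 6) (nat_lit 7) (nat_lit 119) (nat_lit 210) r10_119 r7_210 (nat_lit 0) (nat_lit 0) (nat_lit 0) (nat_lit 0x7de6733ae6) (nat_lit 1030696056),
  Rx.mk (nat_lit 430) (nat_lit 6) (nat_lit 5) (nat_lit 6) (nat_lit 7) (nat_lit 121) (nat_lit 211) r10_121 r7_211 (nat_lit 0) (nat_lit 0) (nat_lit 0) (nat_lit 0x7df45c7c44) (nat_lit 1004022864),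
  Rx.mk (nat_lit 446) (nat_lit 6) (nat_lit 7) (nat_lit 6) (nat_lit 7) (nat_lit 122) (nat_lit 212) r10_122 r7_212 (nat_lit 0) (nat_lit 0) (nat_lit 0) (nat_lit 0x7dd511d10e) (nat_lit 1064021400)]
noncomputable def e49_44 : List Rx := [
  Rx.mk (nat_lit 426) (nat_lit 2) (nat_lit 5) (nat_lit 6) (nat_lit 7) (nat_lit 123) (nat_lit 147) r10_123 r8_147 (nat_lit 0) (nat_lit 0) (nat_lit 0) (nat_lit 0x7df5dba450) (nat_lit 1001153088),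
  Rx.mk (nat_lit 430) (nat_lit 6) (nat_lit 5) (nat_lit 6) (nat_lit 7) (nat_lit 124) (nat_lit 146) r10_124 r8_146 (nat_lit 0) (nat_lit 0) (nat_lit 0) (nat_lit 0x7df79428c6) (nat_lit 997853688)]
noncomputable def e49_45 : List Rx := [
  Rx.mk (nat_lit 430) (nat_lit 6) (nat_lit 5) (nat_lit 6) (nat_lit 7) (nat_lit 164) (nat_lit 214) r10_164 r8_214 (nat_lit 0) (nat_lit 0) (nat_lit 0) (nat_lit 0x7df2523cea) (nat_lit 1007934408)]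
noncomputable def e49_46 : List Rx := [
  Rx.mk (nat_lit 446) (nat_lit 6) (nat_lit 7) (nat_lit 6) (nat_lit 7) (nat_lit 8) (nat_lit 143) r10_8 r4_143 (nat_lit 0) (nat_lit 0) (nat_lit 0) (nat_lit 0x7dd7d8a49e) (nat_lit 1058697432)]
noncomputable def e49_47 : List Rx := [
  Rx.mk (nat_lit 19) (nat_lit 3) (nat_lit 2) (nat_lit 0) (nat_lit 3) (nat_lit 131) (nat_lit 205) r10_131 r4_205 (nat_lit 0) (nat_lit 0) (nat_lit 0) (nat_lit 0x7227e22fb6) (nat_lit 6795475128),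
  Rx.mk (nat_lit 48) (nat_lit 0) (nat_lit 6) (nat_lit 0) (nat_lit 2) (nat_lit 125) (nat_lit 212) r10_125 r4_212 (nat_lit 0) (nat_lit 0) (nat_lit 0) (nat_lit 0x704a4c6af0) (nat_lit 7711194816),
  Rx.mk (nat_lit 51) (nat_lit 3) (nat_lit 6) (nat_lit 0) (nat_lit 3) (nat_lit 132) (nat_lit 213) r10_132 r4_213 (nat_lit 0) (nat_lit 0) (nat_lit 0) (nat_lit 0x77d5fc8862) (nat_lit 4007383848),
  Rx.mk (nat_lit 162) (nat_lit 2) (nat_lit 4) (nat_lit 2) (nat_lit 5) (nat_lit 127) (nat_lit 208) r10_127 r4_208 (nat_lit 0) (nat_lit 0) (nat_lit 0) (nat_lit 0x72c34b188c) (nat_lit 6497492976),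
  Rx.mk (nat_lit 176) (nat_lit 0) (nat_lit 6) (nat_lit 2) (nat_lit 6) (nat_lit 126) (nat_lit 214) r10_126 r4_214 (nat_lit 0) (nat_lit 0) (nat_lit 0) (nat_lit 0x7bb067ddd2) (nat_lit 2116027368),
  Rx.mk (nat_lit 178) (nat_lit 2) (nat_lit 6) (nat_lit 2) (nat_lit 7) (nat_lit 128) (nat_lit 216) r10_128 r4_216 (nat_lit 0) (nat_lit 0) (nat_lit 0) (nat_lit 0x7d9fcc8598) (nat_lit 1166162400),
  Rx.mk (nat_lit 179) (nat_lit 3) (nat_lit 6) (nat_lit 2) (nat_lit 7) (nat_lit 133) (nat_lit 215) r10_133 r4_215 (nat_lit 0) (nat_lit 0) (nat_lit 0) (nat_lit 0x7e0de80372) (nat_lit 955042920),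
  Rx.mk (nat_lit 211) (nat_lit 3) (nat_lit 2) (nat_lit 3) (nat_lit 7) (nat_lit 134) (nat_lit 206) r10_134 r4_206 (nat_lit 0) (nat_lit 0) (nat_lit 0) (nat_lit 0x7dc3644bf8) (nat_lit 1097916768),
  Rx.mk (nat_lit 215) (nat_lit 7) (nat_lit 2) (nat_lit 3) (nat_lit 7) (nat_lit 136) (nat_lit 207) r10_136 r4_207 (nat_lit 0) (nat_lit 0) (nat_lit 0) (nat_lit 0x7e23aee6ee) (nat_lit 913287960),
  Rx.mk (nat_lit 418) (nat_lit 2) (nat_lit 4) (nat_lit 6) (nat_lit 5) (nat_lit 129) (nat_lit 209) r10_129 r4_209 (nat_lit 0) (nat_lit 0) (nat_lit 0) (nat_lit 0x757b9df0a6) (nat_lit 5162364792),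
  Rx.mk (nat_lit 442) (nat_lit 2) (nat_lit 7) (nat_lit 6) (nat_lit 7) (nat_lit 130) (nat_lit 210) r10_130 r4_210 (nat_lit 0) (nat_lit 0) (nat_lit 0) (nat_lit 0x7e50fdd1d2) (nat_lit 826414056),
  Rx.mk (nat_lit 446) (nat_lit 6) (nat_lit 7) (nat_lit 6) (nat_lit 7) (nat_lit 135) (nat_lit 211) r10_135 r4_211 (nat_lit 0) (nat_lit 0) (nat_lit 0) (nat_lit 0x7df1c665a8) (nat_lit 1008981792)]
noncomputable def e49_48 : List Rx := [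
  Rx.mk (nat_lit 162) (nat_lit 2) (nat_lit 4) (nat_lit 2) (nat_lit 5) (nat_lit 138) (nat_lit 159) r10_138 r9_159 (nat_lit 0) (nat_lit 0) (nat_lit 0) (nat_lit 0x7dcdcae584) (nat_lit 1077974352),
  Rx.mk (nat_lit 176) (nat_lit 0) (nat_lit 6) (nat_lit 2) (nat_lit 6) (nat_lit 137) (nat_lit 155) r10_137 r9_155 (nat_lit 0) (nat_lit 0) (nat_lit 0) (nat_lit 0x7df2fc7246) (nat_lit 1006659576),
  Rx.mk (nat_lit 178) (nat_lit 2) (nat_lit 6) (nat_lit 2) (nat_lit 7) (nat_lit 139) (nat_lit 160) r10_139 r9_160 (nat_lit 0) (nat_lit 0) (nat_lit 0) (nat_lit 0x7df79428c6) (nat_lit 997853688),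
  Rx.mk (nat_lit 179) (nat_lit 3) (nat_lit 6) (nat_lit 2) (nat_lit 7) (nat_lit 142) (nat_lit 156) r10_142 r9_156 (nat_lit 0) (nat_lit 0) (nat_lit 0) (nat_lit 0x7df03efe20) (nat_lit 1011913344),
  Rx.mk (nat_lit 418) (nat_lit 2) (nat_lit 4) (nat_lit 6) (nat_lit 5) (nat_lit 140) (nat_lit 157) r10_140 r9_157 (nat_lit 0) (nat_lit 0) (nat_lit 0) (nat_lit 0x7dcfb546dc) (nat_lit 1074301488),
  Rx.mk (nat_lit 442) (nat_lit 2) (nat_lit 7) (nat_lit 6) (nat_lit 7) (nat_lit 141) (nat_lit 158) r10_141 r9_158 (nat_lit 0) (nat_lit 0) (nat_lit 0) (nat_lit 0x7dfd420de2) (nat_lit 986964264),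
  Rx.mk (nat_lit 446) (nat_lit 6) (nat_lit 7) (nat_lit 6) (nat_lit 7) (nat_lit 143) (nat_lit 154) r10_143 r9_154 (nat_lit 0) (nat_lit 0) (nat_lit 0) (nat_lit 0x7dd40501dc) (nat_lit 1066034736)]
noncomputable def e49_49 : List Rx := [
  Rx.mk (nat_lit 48) (nat_lit 0) (nat_lit 6) (nat_lit 0) (nat_lit 2) (nat_lit 144) (nat_lit 154) r10_144 r10_154 (nat_lit 0) (nat_lit 0) (nat_lit 0) (nat_lit 0x5b3d173352) (nat_lit 18044441064),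
  Rx.mk (nat_lit 51) (nat_lit 3) (nat_lit 6) (nat_lit 0) (nat_lit 3) (nat_lit 150) (nat_lit 156) r10_150 r10_156 (nat_lit 0) (nat_lit 0) (nat_lit 0) (nat_lit 0x7b7fa54a2c) (nat_lit 2209519728),
  Rx.mk (nat_lit 162) (nat_lit 2) (nat_lit 4) (nat_lit 2) (nat_lit 5) (nat_lit 146) (nat_lit 161) r10_146 r10_161 (nat_lit 0) (nat_lit 0) (nat_lit 0) (nat_lit 0x78062ec50e) (nat_lit 3914972568),
  Rx.mk (nat_lit 176) (nat_lit 0) (nat_lit 6) (nat_lit 2) (nat_lit 6) (nat_lit 145) (nat_lit 155) r10_145 r10_155 (nat_lit 0) (nat_lit 0) (nat_lit 0) (nat_lit 0x7a843d21aa) (nat_lit 2691566280),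
  Rx.mk (nat_lit 178) (nat_lit 2) (nat_lit 6) (nat_lit 2) (nat_lit 7) (nat_lit 147) (nat_lit 163) r10_147 r10_163 (nat_lit 0) (nat_lit 0) (nat_lit 0) (nat_lit 0x7d37d32596) (nat_lit 1365521976),
  Rx.mk (nat_lit 179) (nat_lit 3) (nat_lit 6) (nat_lit 2) (nat_lit 7) (nat_lit 151) (nat_lit 159) r10_151 r10_159 (nat_lit 0) (nat_lit 0) (nat_lit 0) (nat_lit 0x7e01d184e6) (nat_lit 978220152),
  Rx.mk (nat_lit 186) (nat_lit 2) (nat_lit 7) (nat_lit 2) (nat_lit 7) (nat_lit 148) (nat_lit 162) r10_148 r10_162 (nat_lit 0) (nat_lit 0) (nat_lit 0) (nat_lit 0x7d31852a7c) (nat_lit 1377610416),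
  Rx.mk (nat_lit 211) (nat_lit 3) (nat_lit 2) (nat_lit 3) (nat_lit 7) (nat_lit 152) (nat_lit 158) r10_152 r10_158 (nat_lit 0) (nat_lit 0) (nat_lit 0) (nat_lit 0x77e99d6e40) (nat_lit 3969748224),
  Rx.mk (nat_lit 215) (nat_lit 7) (nat_lit 2) (nat_lit 3) (nat_lit 7) (nat_lit 160) (nat_lit 149) r10_160 r10_149 (nat_lit 0) (nat_lit 0) (nat_lit 0) (nat_lit 0x7d4d14f164) (nat_lit 1324763856),
  Rx.mk (nat_lit 243) (nat_lit 3) (nat_lit 6) (nat_lit 3) (nat_lit 7) (nat_lit 153) (nat_lit 157) r10_153 r10_157 (nat_lit 0) (nat_lit 0) (nat_lit 0) (nat_lit 0x7d97b22746) (nat_lit 1181699064),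
  Rx.mk (nat_lit 284) (nat_lit 4) (nat_lit 3) (nat_lit 4) (nat_lit 2) (nat_lit 154) (nat_lit 144) r10_154 r10_144 (nat_lit 0) (nat_lit 0) (nat_lit 0) (nat_lit 0x5b3d173352) (nat_lit 18044441064),
  Rx.mk (nat_lit 286) (nat_lit 6) (nat_lit 3) (nat_lit 4) (nat_lit 3) (nat_lit 156) (nat_lit 150) r10_156 r10_150 (nat_lit 0) (nat_lit 0) (nat_lit 0) (nat_lit 0x7b7fa54a2c) (nat_lit 2209519728),
  Rx.mk (nat_lit 414) (nat_lit 6) (nat_lit 3) (nat_lit 6) (nat_lit 7) (nat_lit 157) (nat_lit 153) r10_157 r10_153 (nat_lit 0) (nat_lit 0) (nat_lit 0) (nat_lit 0x7d97b22746) (nat_lit 1181699064),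
  Rx.mk (nat_lit 442) (nat_lit 2) (nat_lit 7) (nat_lit 6) (nat_lit 7) (nat_lit 149) (nat_lit 160) r10_149 r10_160 (nat_lit 0) (nat_lit 0) (nat_lit 0) (nat_lit 0x7d4d14f164) (nat_lit 1324763856),
  Rx.mk (nat_lit 446) (nat_lit 6) (nat_lit 7) (nat_lit 6) (nat_lit 7) (nat_lit 158) (nat_lit 152) r10_158 r10_152 (nat_lit 0) (nat_lit 0) (nat_lit 0) (nat_lit 0x77e99d6e40) (nat_lit 3969748224),
  Rx.mk (nat_lit 455) (nat_lit 7) (nat_lit 0) (nat_lit 7) (nat_lit 5) (nat_lit 161) (nat_lit 146) r10_161 r10_146 (nat_lit 0) (nat_lit 0) (nat_lit 0) (nat_lit 0x78062ec50e) (nat_lit 3914972568),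
  Rx.mk (nat_lit 471) (nat_lit 7) (nat_lit 2) (nat_lit 7) (nat_lit 7) (nat_lit 162) (nat_lit 148) r10_162 r10_148 (nat_lit 0) (nat_lit 0) (nat_lit 0) (nat_lit 0x7d31852a7c) (nat_lit 1377610416),
  Rx.mk (nat_lit 476) (nat_lit 4) (nat_lit 3) (nat_lit 7) (nat_lit 6) (nat_lit 155) (nat_lit 145) r10_155 r10_145 (nat_lit 0) (nat_lit 0) (nat_lit 0) (nat_lit 0x7a843d21aa) (nat_lit 2691566280),
  Rx.mk (nat_lit 478) (nat_lit 6) (nat_lit 3) (nat_lit 7) (nat_lit 7) (nat_lit 159) (nat_lit 151) r10_159 r10_151 (nat_lit 0) (nat_lit 0) (nat_lit 0) (nat_lit 0x7e01d184e6) (nat_lit 978220152),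
  Rx.mk (nat_lit 479) (nat_lit 7) (nat_lit 3) (nat_lit 7) (nat_lit 7) (nat_lit 163) (nat_lit 147) r10_163 r10_147 (nat_lit 0) (nat_lit 0) (nat_lit 0) (nat_lit 0x7d37d32596) (nat_lit 1365521976)]
noncomputable def e49_50 : List Rx := []
noncomputable def e49_51 : List Rx := [
  Rx.mk (nat_lit 213) (nat_lit 5) (nat_lit 2) (nat_lit 3) (nat_lit 7) (nat_lit 356) (nat_lit 309) r10_356 r12_309 (nat_lit 0) (nat_lit 0) (nat_lit 0) (nat_lit 0x7f0597e77c) (nat_lit 480128688)]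
noncomputable def e49_52 : List Rx := [
  Rx.mk (nat_lit 452) (nat_lit 4) (nat_lit 0) (nat_lit 7) (nat_lit 4) (nat_lit 273) (nat_lit 315) r10_273 r12_315 (nat_lit 0) (nat_lit 0) (nat_lit 0) (nat_lit 0x771b6bd228) (nat_lit 4365103392),
  Rx.mk (nat_lit 453) (nat_lit 5) (nat_lit 0) (nat_lit 7) (nat_lit 5) (nat_lit 276) (nat_lit 316) r10_276 r12_316 (nat_lit 0) (nat_lit 0) (nat_lit 0) (nat_lit 0x7d971a50c4) (nat_lit 1182836304),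
  Rx.mk (nat_lit 454) (nat_lit 6) (nat_lit 0) (nat_lit 7) (nat_lit 5) (nat_lit 279) (nat_lit 317) r10_279 r12_317 (nat_lit 0) (nat_lit 0) (nat_lit 0) (nat_lit 0x7dea0ba15c) (nat_lit 1023802416),
  Rx.mk (nat_lit 460) (nat_lit 4) (nat_lit 1) (nat_lit 7) (nat_lit 6) (nat_lit 274) (nat_lit 318) r10_274 r12_318 (nat_lit 0) (nat_lit 0) (nat_lit 0) (nat_lit 0x7d6315f13e) (nat_lit 1282573656),
  Rx.mk (nat_lit 461) (nat_lit 5) (nat_lit 1) (nat_lit 7) (nat_lit 7) (nat_lit 277) (nat_lit 319) r10_277 r12_319 (nat_lit 0) (nat_lit 0) (nat_lit 0) (nat_lit 0x7e00b1f6e0) (nat_lit 980373888),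
  Rx.mk (nat_lit 462) (nat_lit 6) (nat_lit 1) (nat_lit 7) (nat_lit 7) (nat_lit 280) (nat_lit 320) r10_280 r12_320 (nat_lit 0) (nat_lit 0) (nat_lit 0) (nat_lit 0x7de5e7c39e) (nat_lit 1031740632),
  Rx.mk (nat_lit 468) (nat_lit 4) (nat_lit 2) (nat_lit 7) (nat_lit 6) (nat_lit 275) (nat_lit 321) r10_275 r12_321 (nat_lit 0) (nat_lit 0) (nat_lit 0) (nat_lit 0x7dd6261fc8) (nat_lit 1061951904),
  Rx.mk (nat_lit 469) (nat_lit 5) (nat_lit 2) (nat_lit 7) (nat_lit 7) (nat_lit 278) (nat_lit 322) r10_278 r12_322 (nat_lit 0) (nat_lit 0) (nat_lit 0) (nat_lit 0x7ddda307f2) (nat_lit 1047594600)]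
noncomputable def e49_53 : List Rx := [
  Rx.mk (nat_lit 21) (nat_lit 5) (nat_lit 2) (nat_lit 0) (nat_lit 3) (nat_lit 366) (nat_lit 240) r10_366 r12_240 (nat_lit 0) (nat_lit 0) (nat_lit 0) (nat_lit 0x7e373cadfe) (nat_lit 875795544),
  Rx.mk (nat_lit 213) (nat_lit 5) (nat_lit 2) (nat_lit 3) (nat_lit 7) (nat_lit 367) (nat_lit 241) r10_367 r12_241 (nat_lit 0) (nat_lit 0) (nat_lit 0) (nat_lit 0x7ee6adf63a) (nat_lit 539402760)]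
noncomputable def e49_54 : List Rx := [
  Rx.mk (nat_lit 260) (nat_lit 4) (nat_lit 0) (nat_lit 4) (nat_lit 0) (nat_lit 68) (nat_lit 202) r10_68 r12_202 (nat_lit 0) (nat_lit 0) (nat_lit 0) (nat_lit 0x4f8256cb14) (nat_lit 23801905296),
  Rx.mk (nat_lit 261) (nat_lit 5) (nat_lit 0) (nat_lit 4) (nat_lit 1) (nat_lit 75) (nat_lit 206) r10_75 r12_206 (nat_lit 0) (nat_lit 0) (nat_lit 0) (nat_lit 0x762668e34c) (nat_lit 4834887408),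
  Rx.mk (nat_lit 262) (nat_lit 6) (nat_lit 0) (nat_lit 4) (nat_lit 1) (nat_lit 80) (nat_lit 209) r10_80 r12_209 (nat_lit 0) (nat_lit 0) (nat_lit 0) (nat_lit 0x76d6a79eb0) (nat_lit 4496955840),
  Rx.mk (nat_lit 268) (nat_lit 4) (nat_lit 1) (nat_lit 4) (nat_lit 2) (nat_lit 69) (nat_lit 203) r10_69 r12_203 (nat_lit 0) (nat_lit 0) (nat_lit 0) (nat_lit 0x77191ff6e8) (nat_lit 4369506336),
  Rx.mk (nat_lit 270) (nat_lit 6) (nat_lit 1) (nat_lit 4) (nat_lit 3) (nat_lit 81) (nat_lit 210) r10_81 r12_210 (nat_lit 0) (nat_lit 0) (nat_lit 0) (nat_lit 0x7dd00b217e) (nat_lit 1073658456),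
  Rx.mk (nat_lit 276) (nat_lit 4) (nat_lit 2) (nat_lit 4) (nat_lit 2) (nat_lit 70) (nat_lit 205) r10_70 r12_205 (nat_lit 0) (nat_lit 0) (nat_lit 0) (nat_lit 0x749a460706) (nat_lit 5594437368),
  Rx.mk (nat_lit 277) (nat_lit 5) (nat_lit 2) (nat_lit 4) (nat_lit 3) (nat_lit 76) (nat_lit 208) r10_76 r12_208 (nat_lit 0) (nat_lit 0) (nat_lit 0) (nat_lit 0x7df4fc9242) (nat_lit 1002823848),
  Rx.mk (nat_lit 284) (nat_lit 4) (nat_lit 3) (nat_lit 4) (nat_lit 2) (nat_lit 71) (nat_lit 204) r10_71 r12_204 (nat_lit 0) (nat_lit 0) (nat_lit 0) (nat_lit 0x71d4c381f4) (nat_lit 6954848784),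
  Rx.mk (nat_lit 285) (nat_lit 5) (nat_lit 3) (nat_lit 4) (nat_lit 3) (nat_lit 77) (nat_lit 207) r10_77 r12_207 (nat_lit 0) (nat_lit 0) (nat_lit 0) (nat_lit 0x7de5630bea) (nat_lit 1032734664),
  Rx.mk (nat_lit 286) (nat_lit 6) (nat_lit 3) (nat_lit 4) (nat_lit 3) (nat_lit 82) (nat_lit 211) r10_82 r12_211 (nat_lit 0) (nat_lit 0) (nat_lit 0) (nat_lit 0x7dc3830a0c) (nat_lit 1097686512),
  Rx.mk (nat_lit 390) (nat_lit 6) (nat_lit 0) (nat_lit 6) (nat_lit 5) (nat_lit 83) (nat_lit 222) r10_83 r12_222 (nat_lit 0) (nat_lit 0) (nat_lit 0) (nat_lit 0x7d8a287fee) (nat_lit 1207656216),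
  Rx.mk (nat_lit 398) (nat_lit 6) (nat_lit 1) (nat_lit 6) (nat_lit 7) (nat_lit 84) (nat_lit 223) r10_84 r12_223 (nat_lit 0) (nat_lit 0) (nat_lit 0) (nat_lit 0x7ddcad774c) (nat_lit 1049433840),
  Rx.mk (nat_lit 414) (nat_lit 6) (nat_lit 3) (nat_lit 6) (nat_lit 7) (nat_lit 85) (nat_lit 224) r10_85 r12_224 (nat_lit 0) (nat_lit 0) (nat_lit 0) (nat_lit 0x7ddf540ce0) (nat_lit 1044351360),
  Rx.mk (nat_lit 452) (nat_lit 4) (nat_lit 0) (nat_lit 7) (nat_lit 4) (nat_lit 72) (nat_lit 212) r10_72 r12_212 (nat_lit 0) (nat_lit 0) (nat_lit 0) (nat_lit 0x6f899876f0) (nat_lit 8080682688),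
  Rx.mk (nat_lit 453) (nat_lit 5) (nat_lit 0) (nat_lit 7) (nat_lit 5) (nat_lit 78) (nat_lit 215) r10_78 r12_215 (nat_lit 0) (nat_lit 0) (nat_lit 0) (nat_lit 0x7e21a6277c) (nat_lit 917188272),
  Rx.mk (nat_lit 454) (nat_lit 6) (nat_lit 0) (nat_lit 7) (nat_lit 5) (nat_lit 86) (nat_lit 220) r10_86 r12_220 (nat_lit 0) (nat_lit 0) (nat_lit 0) (nat_lit 0x7e1455dc8e) (nat_lit 942715800),
  Rx.mk (nat_lit 455) (nat_lit 7) (nat_lit 0) (nat_lit 7) (nat_lit 5) (nat_lit 88) (nat_lit 217) r10_88 r12_217 (nat_lit 0) (nat_lit 0) (nat_lit 0) (nat_lit 0x7d77f5e32a) (nat_lit 1242548424),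
  Rx.mk (nat_lit 460) (nat_lit 4) (nat_lit 1) (nat_lit 7) (nat_lit 6) (nat_lit 73) (nat_lit 213) r10_73 r12_213 (nat_lit 0) (nat_lit 0) (nat_lit 0) (nat_lit 0x7dc0395eaa) (nat_lit 1103990472),
  Rx.mk (nat_lit 462) (nat_lit 6) (nat_lit 1) (nat_lit 7) (nat_lit 7) (nat_lit 87) (nat_lit 221) r10_87 r12_221 (nat_lit 0) (nat_lit 0) (nat_lit 0) (nat_lit 0x7df712d0dc) (nat_lit 998822448),
  Rx.mk (nat_lit 463) (nat_lit 7) (nat_lit 1) (nat_lit 7) (nat_lit 7) (nat_lit 89) (nat_lit 218) r10_89 r12_218 (nat_lit 0) (nat_lit 0) (nat_lit 0) (nat_lit 0x7df35c0c4c) (nat_lit 1005943536),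
  Rx.mk (nat_lit 468) (nat_lit 4) (nat_lit 2) (nat_lit 7) (nat_lit 6) (nat_lit 74) (nat_lit 214) r10_74 r12_214 (nat_lit 0) (nat_lit 0) (nat_lit 0) (nat_lit 0x7df140ee00) (nat_lit 1009981440),
  Rx.mk (nat_lit 469) (nat_lit 5) (nat_lit 2) (nat_lit 7) (nat_lit 7) (nat_lit 79) (nat_lit 216) r10_79 r12_216 (nat_lit 0) (nat_lit 0) (nat_lit 0) (nat_lit 0x7df9596c70) (nat_lit 994458816),
  Rx.mk (nat_lit 471) (nat_lit 7) (nat_lit 2) (nat_lit 7) (nat_lit 7) (nat_lit 90) (nat_lit 219) r10_90 r12_219 (nat_lit 0) (nat_lit 0) (nat_lit 0) (nat_lit 0x7df79428c6) (nat_lit 997853688)]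
noncomputable def e49_55 : List Rx := [
  Rx.mk (nat_lit 215) (nat_lit 7) (nat_lit 2) (nat_lit 3) (nat_lit 7) (nat_lit 7) (nat_lit 136) r10_7 r3_136 (nat_lit 0) (nat_lit 0) (nat_lit 0) (nat_lit 0x7fc79746c4) (nat_lit 108158544),
  Rx.mk (nat_lit 446) (nat_lit 6) (nat_lit 7) (nat_lit 6) (nat_lit 7) (nat_lit 6) (nat_lit 137) r10_6 r3_137 (nat_lit 0) (nat_lit 0) (nat_lit 0) (nat_lit 0x7f829c56b8) (nat_lit 240420960)]
noncomputable def e49_56 : List Rx := [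
  Rx.mk (nat_lit 215) (nat_lit 7) (nat_lit 2) (nat_lit 3) (nat_lit 7) (nat_lit 15) (nat_lit 145) r10_15 r12_145 (nat_lit 0) (nat_lit 0) (nat_lit 0) (nat_lit 0x7eaff8e1c2) (nat_lit 644298408),
  Rx.mk (nat_lit 284) (nat_lit 4) (nat_lit 3) (nat_lit 4) (nat_lit 2) (nat_lit 9) (nat_lit 140) r10_9 r12_140 (nat_lit 0) (nat_lit 0) (nat_lit 0) (nat_lit 0x73e77d9440) (nat_lit 5937235200),
  Rx.mk (nat_lit 286) (nat_lit 6) (nat_lit 3) (nat_lit 4) (nat_lit 3) (nat_lit 11) (nat_lit 146) r10_11 r12_146 (nat_lit 0) (nat_lit 0) (nat_lit 0) (nat_lit 0x7e9f0970ca) (nat_lit 676770120),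
  Rx.mk (nat_lit 414) (nat_lit 6) (nat_lit 3) (nat_lit 6) (nat_lit 7) (nat_lit 12) (nat_lit 149) r10_12 r12_149 (nat_lit 0) (nat_lit 0) (nat_lit 0) (nat_lit 0x7e3496186a) (nat_lit 880878024),
  Rx.mk (nat_lit 446) (nat_lit 6) (nat_lit 7) (nat_lit 6) (nat_lit 7) (nat_lit 13) (nat_lit 148) r10_13 r12_148 (nat_lit 0) (nat_lit 0) (nat_lit 0) (nat_lit 0x7e96423d46) (nat_lit 693601272),
  Rx.mk (nat_lit 455) (nat_lit 7) (nat_lit 0) (nat_lit 7) (nat_lit 5) (nat_lit 16) (nat_lit 142) r10_16 r12_142 (nat_lit 0) (nat_lit 0) (nat_lit 0) (nat_lit 0x7d98a2d83a) (nat_lit 1179896328),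
  Rx.mk (nat_lit 471) (nat_lit 7) (nat_lit 2) (nat_lit 7) (nat_lit 7) (nat_lit 17) (nat_lit 144) r10_17 r12_144 (nat_lit 0) (nat_lit 0) (nat_lit 0) (nat_lit 0x7e4ff8222e) (nat_lit 828374040),
  Rx.mk (nat_lit 476) (nat_lit 4) (nat_lit 3) (nat_lit 7) (nat_lit 6) (nat_lit 10) (nat_lit 141) r10_10 r12_141 (nat_lit 0) (nat_lit 0) (nat_lit 0) (nat_lit 0x7eaac05550) (nat_lit 654308928),
  Rx.mk (nat_lit 478) (nat_lit 6) (nat_lit 3) (nat_lit 7) (nat_lit 7) (nat_lit 14) (nat_lit 147) r10_14 r12_147 (nat_lit 0) (nat_lit 0) (nat_lit 0) (nat_lit 0x7ec4817924) (nat_lit 604927440),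
  Rx.mk (nat_lit 479) (nat_lit 7) (nat_lit 3) (nat_lit 7) (nat_lit 7) (nat_lit 18) (nat_lit 143) r10_18 r12_143 (nat_lit 0) (nat_lit 0) (nat_lit 0) (nat_lit 0x7e4d46ad48) (nat_lit 833537952)]
noncomputable def e49_57 : List Rx := [
  Rx.mk (nat_lit 215) (nat_lit 7) (nat_lit 2) (nat_lit 3) (nat_lit 7) (nat_lit 265) (nat_lit 230) r10_265 r12_230 (nat_lit 0) (nat_lit 0) (nat_lit 0) (nat_lit 0x7ee7b225f6) (nat_lit 537454008)]
noncomputable def e49 : List (List Rx) := [e49_0, e49_1, e49_2, e49_3, e49_4, e49_5, e49_6, e49_7, e49_8, e49_9, e49_10, e49_11, e49_12, e49_13, e49_14, e49_15, e49_16, e49_17, e49_18, e49_19, e49_20, e49_21, e49_22, e49_23, e49_24, e49_25, e49_26, e49_27, e49_28, e49_29, e49_30, e49_31, e49_32, e49_33, e49_34, e49_35, e49_36, e49_37, e49_38, e49_39, e49_40, e49_41, e49_42, e49_43, e49_44, e49_45, e49_46, e49_47, e49_48, e49_49,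 e49_50, e49_51, e49_52, e49_53, e49_54, e49_55, e49_56, e49_57]
noncomputable def e50_0 : List Rx := [
  Rx.mk (nat_lit 4) (nat_lit 4) (nat_lit 0) (nat_lit 0) (nat_lit 0) (nat_lit 165) (nat_lit 341) r10_165 r0_341 (nat_lit 0) (nat_lit 0) (nat_lit 0) (nat_lit 0x2d7a01d26e) (nat_lit 40506896664),
  Rx.mk (nat_lit 5) (nat_lit 5) (nat_lit 0) (nat_lit 0) (nat_lit 1) (nat_lit 166) (nat_lit 348) r10_166 r0_348 (nat_lit 0) (nat_lit 0) (nat_lit 0) (nat_lit 0x7a5f28731a) (nat_lit 2762664840),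
  Rx.mk (nat_lit 6) (nat_lit 6) (nat_lit 0) (nat_lit 0) (nat_lit 1) (nat_lit 167) (nat_lit 355) r10_167 r0_355 (nat_lit 0) (nat_lit 0) (nat_lit 0) (nat_lit 0x7cc600e32c) (nat_lit 1583762544),
  Rx.mk (nat_lit 12) (nat_lit 4) (nat_lit 1) (nat_lit 0) (nat_lit 2) (nat_lit 171) (nat_lit 343) r10_171 r0_343 (nat_lit 0) (nat_lit 0) (nat_lit 0) (nat_lit 0x79a5a2ac30) (nat_lit 3118385088),
  Rx.mk (nat_lit 13) (nat_lit 5) (nat_lit 1) (nat_lit 0) (nat_lit 3) (nat_lit 172) (nat_lit 350) r10_172 r0_350 (nat_lit 0) (nat_lit 0) (nat_lit 0) (nat_lit 0x7dd895f8c8) (nat_lit 1057279392),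
  Rx.mk (nat_lit 14) (nat_lit 6) (nat_lit 1) (nat_lit 0) (nat_lit 3) (nat_lit 173) (nat_lit 357) r10_173 r0_357 (nat_lit 0) (nat_lit 0) (nat_lit 0) (nat_lit 0x7e5a0a0106) (nat_lit 809066232),
  Rx.mk (nat_lit 20) (nat_lit 4) (nat_lit 2) (nat_lit 0) (nat_lit 2) (nat_lit 177) (nat_lit 345) r10_177 r0_345 (nat_lit 0) (nat_lit 0) (nat_lit 0) (nat_lit 0x7b95ea25c8) (nat_lit 2166821280),
  Rx.mk (nat_lit 21) (nat_lit 5) (nat_lit 2) (nat_lit 0) (nat_lit 3) (nat_lit 178) (nat_lit 352) r10_178 r0_352 (nat_lit 0) (nat_lit 0) (nat_lit 0) (nat_lit 0x7df5b266e4) (nat_lit 1001461968),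
  Rx.mk (nat_lit 68) (nat_lit 4) (nat_lit 0) (nat_lit 1) (nat_lit 4) (nat_lit 168) (nat_lit 342) r10_168 r0_342 (nat_lit 0) (nat_lit 0) (nat_lit 0) (nat_lit 0x7aa5ac4a96) (nat_lit 2627459640),
  Rx.mk (nat_lit 69) (nat_lit 5) (nat_lit 0) (nat_lit 1) (nat_lit 5) (nat_lit 169) (nat_lit 349) r10_169 r0_349 (nat_lit 0) (nat_lit 0) (nat_lit 0) (nat_lit 0x7dda7f3a32) (nat_lit 1053614952),
  Rx.mk (nat_lit 70) (nat_lit 6) (nat_lit 0) (nat_lit 1) (nat_lit 5) (nat_lit 170) (nat_lit 356) r10_170 r0_356 (nat_lit 0) (nat_lit 0) (nat_lit 0) (nat_lit 0x7df00ea126) (nat_lit 1012275576),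
  Rx.mk (nat_lit 76) (nat_lit 4) (nat_lit 1) (nat_lit 1) (nat_lit 6) (nat_lit 174) (nat_lit 344) r10_174 r0_344 (nat_lit 0) (nat_lit 0) (nat_lit 0) (nat_lit 0x7df905d1aa) (nat_lit 995085000),
  Rx.mk (nat_lit 77) (nat_lit 5) (nat_lit 1) (nat_lit 1) (nat_lit 7) (nat_lit 175) (nat_lit 351) r10_175 r0_351 (nat_lit 0) (nat_lit 0) (nat_lit 0) (nat_lit 0x7df9cda52c) (nat_lit 993588336),
  Rx.mk (nat_lit 78) (nat_lit 6) (nat_lit 1) (nat_lit 1) (nat_lit 7) (nat_lit 176) (nat_lit 358) r10_176 r0_358 (nat_lit 0) (nat_lit 0) (nat_lit 0) (nat_lit 0x7ea0391dce) (nat_lit 674495640),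
  Rx.mk (nat_lit 84) (nat_lit 4) (nat_lit 2) (nat_lit 1) (nat_lit 6) (nat_lit 179) (nat_lit 346) r10_179 r0_346 (nat_lit 0) (nat_lit 0) (nat_lit 0) (nat_lit 0x7deff222ee) (nat_lit 1012488984),
  Rx.mk (nat_lit 85) (nat_lit 5) (nat_lit 2) (nat_lit 1) (nat_lit 7) (nat_lit 180) (nat_lit 353) r10_180 r0_353 (nat_lit 0) (nat_lit 0) (nat_lit 0) (nat_lit 0x7dee0dc136) (nat_lit 1016116920),
  Rx.mk (nat_lit 148) (nat_lit 4) (nat_lit 2) (nat_lit 2) (nat_lit 6) (nat_lit 181) (nat_lit 347) r10_181 r0_347 (nat_lit 0) (nat_lit 0) (nat_lit 0) (nat_lit 0x7dc039bea4) (nat_lit 1103987664),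
  Rx.mk (nat_lit 149) (nat_lit 5) (nat_lit 2) (nat_lit 2) (nat_lit 7) (nat_lit 182) (nat_lit 354) r10_182 r0_354 (nat_lit 0) (nat_lit 0) (nat_lit 0) (nat_lit 0x7df41fc010) (nat_lit 1004477760)]
noncomputable def e50_1 : List Rx := [
  Rx.mk (nat_lit 68) (nat_lit 4) (nat_lit 0) (nat_lit 1) (nat_lit 4) (nat_lit 183) (nat_lit 315) r10_183 r1_315 (nat_lit 0) (nat_lit 0) (nat_lit 0) (nat_lit 0x707b7d37b2) (nat_lit 7616876904),
  Rx.mk (nat_lit 69) (nat_lit 5) (nat_lit 0) (nat_lit 1) (nat_lit 5) (nat_lit 184) (nat_lit 318) r10_184 r1_318 (nat_lit 0) (nat_lit 0) (nat_lit 0) (nat_lit 0x7de8fc3254) (nat_lit 1025835408),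
  Rx.mk (nat_lit 70) (nat_lit 6) (nat_lit 0) (nat_lit 1) (nat_lit 5) (nat_lit 185) (nat_lit 321) r10_185 r1_321 (nat_lit 0) (nat_lit 0) (nat_lit 0) (nat_lit 0x7df99bc84a) (nat_lit 993961800),
  Rx.mk (nat_lit 76) (nat_lit 4) (nat_lit 1) (nat_lit 1) (nat_lit 6) (nat_lit 186) (nat_lit 316) r10_186 r1_316 (nat_lit 0) (nat_lit 0) (nat_lit 0) (nat_lit 0x7ddf77aaa6) (nat_lit 1044084600),
  Rx.mk (nat_lit 77) (nat_lit 5) (nat_lit 1) (nat_lit 1) (nat_lit 7) (nat_lit 187) (nat_lit 319) r10_187 r1_319 (nat_lit 0) (nat_lit 0) (nat_lit 0) (nat_lit 0x7df4ff3218) (nat_lit 1002804192),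
  Rx.mk (nat_lit 78) (nat_lit 6) (nat_lit 1) (nat_lit 1) (nat_lit 7) (nat_lit 188) (nat_lit 322) r10_188 r1_322 (nat_lit 0) (nat_lit 0) (nat_lit 0) (nat_lit 0x7e5868bb1c) (nat_lit 812191536),
  Rx.mk (nat_lit 84) (nat_lit 4) (nat_lit 2) (nat_lit 1) (nat_lit 6) (nat_lit 189) (nat_lit 317) r10_189 r1_317 (nat_lit 0) (nat_lit 0) (nat_lit 0) (nat_lit 0x7de538ae90) (nat_lit 1033051968),
  Rx.mk (nat_lit 85) (nat_lit 5) (nat_lit 2) (nat_lit 1) (nat_lit 7) (nat_lit 190) (nat_lit 320) r10_190 r1_320 (nat_lit 0) (nat_lit 0) (nat_lit 0) (nat_lit 0x7df62c9f40) (nat_lit 1000546560)]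
noncomputable def e50_2 : List Rx := [
  Rx.mk (nat_lit 76) (nat_lit 4) (nat_lit 1) (nat_lit 1) (nat_lit 6) (nat_lit 340) (nat_lit 370) r10_340 r2_370 (nat_lit 0) (nat_lit 0) (nat_lit 0) (nat_lit 0x7da4f55306) (nat_lit 1156269816),
  Rx.mk (nat_lit 77) (nat_lit 5) (nat_lit 1) (nat_lit 1) (nat_lit 7) (nat_lit 341) (nat_lit 371) r10_341 r2_371 (nat_lit 0) (nat_lit 0) (nat_lit 0) (nat_lit 0x7df51550b6) (nat_lit 1002638520),
  Rx.mk (nat_lit 78) (nat_lit 6) (nat_lit 1) (nat_lit 1) (nat_lit 7) (nat_lit 342) (nat_lit 372) r10_342 r2_372 (nat_lit 0) (nat_lit 0) (nat_lit 0) (nat_lit 0x7df79428c6) (nat_lit 997853688),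
  Rx.mk (nat_lit 334) (nat_lit 6) (nat_lit 1) (nat_lit 5) (nat_lit 7) (nat_lit 339) (nat_lit 373) r10_339 r2_373 (nat_lit 0) (nat_lit 0) (nat_lit 0) (nat_lit 0x7dec0621b2) (nat_lit 1020008808)]
noncomputable def e50_3 : List Rx := [
  Rx.mk (nat_lit 4) (nat_lit 4) (nat_lit 0) (nat_lit 0) (nat_lit 0) (nat_lit 19) (nat_lit 333) r10_19 r3_333 (nat_lit 0) (nat_lit 0) (nat_lit 0) (nat_lit 0x611f400ae2) (nat_lit 15156536616),
  Rx.mk (nat_lit 5) (nat_lit 5) (nat_lit 0) (nat_lit 0) (nat_lit 1) (nat_lit 20) (nat_lit 340) r10_20 r3_340 (nat_lit 0) (nat_lit 0) (nat_lit 0) (nat_lit 0x6c7064ad46) (nat_lit 9601565688),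
  Rx.mk (nat_lit 6) (nat_lit 6) (nat_lit 0) (nat_lit 0) (nat_lit 1) (nat_lit 21) (nat_lit 347) r10_21 r3_347 (nat_lit 0) (nat_lit 0) (nat_lit 0) (nat_lit 0x6df68609aa) (nat_lit 8853531336),
  Rx.mk (nat_lit 12) (nat_lit 4) (nat_lit 1) (nat_lit 0) (nat_lit 2) (nat_lit 25) (nat_lit 335) r10_25 r3_335 (nat_lit 0) (nat_lit 0) (nat_lit 0) (nat_lit 0x6c0e76ec84) (nat_lit 9789333840),
  Rx.mk (nat_lit 13) (nat_lit 5) (nat_lit 1) (nat_lit 0) (nat_lit 3) (nat_lit 26) (nat_lit 342) r10_26 r3_342 (nat_lit 0) (nat_lit 0) (nat_lit 0) (nat_lit 0x7c9d740c22) (nat_lit 1661513256),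
  Rx.mk (nat_lit 14) (nat_lit 6) (nat_lit 1) (nat_lit 0) (nat_lit 3) (nat_lit 27) (nat_lit 349) r10_27 r3_349 (nat_lit 0) (nat_lit 0) (nat_lit 0) (nat_lit 0x7aec04a4ca) (nat_lit 2492580168),
  Rx.mk (nat_lit 20) (nat_lit 4) (nat_lit 2) (nat_lit 0) (nat_lit 2) (nat_lit 31) (nat_lit 337) r10_31 r3_337 (nat_lit 0) (nat_lit 0) (nat_lit 0) (nat_lit 0x6e8b4ffc76) (nat_lit 8568244152),
  Rx.mk (nat_lit 21) (nat_lit 5) (nat_lit 2) (nat_lit 0) (nat_lit 3) (nat_lit 32) (nat_lit 344) r10_32 r3_344 (nat_lit 0) (nat_lit 0) (nat_lit 0) (nat_lit 0x7822d6fa6e) (nat_lit 3860025624),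
  Rx.mk (nat_lit 148) (nat_lit 4) (nat_lit 2) (nat_lit 2) (nat_lit 6) (nat_lit 33) (nat_lit 339) r10_33 r3_339 (nat_lit 0) (nat_lit 0) (nat_lit 0) (nat_lit 0x7e061120e8) (nat_lit 970074144),
  Rx.mk (nat_lit 149) (nat_lit 5) (nat_lit 2) (nat_lit 2) (nat_lit 7) (nat_lit 34) (nat_lit 346) r10_34 r3_346 (nat_lit 0) (nat_lit 0) (nat_lit 0) (nat_lit 0x7dec2adf66) (nat_lit 1019733624),
  Rx.mk (nat_lit 196) (nat_lit 4) (nat_lit 0) (nat_lit 3) (nat_lit 4) (nat_lit 22) (nat_lit 334) r10_22 r3_334 (nat_lit 0) (nat_lit 0) (nat_lit 0) (nat_lit 0x7199b2b33c) (nat_lit 7068101040),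
  Rx.mk (nat_lit 197) (nat_lit 5) (nat_lit 0) (nat_lit 3) (nat_lit 5) (nat_lit 23) (nat_lit 341) r10_23 r3_341 (nat_lit 0) (nat_lit 0) (nat_lit 0) (nat_lit 0x7bee1be254) (nat_lit 1997717904),
  Rx.mk (nat_lit 198) (nat_lit 6) (nat_lit 0) (nat_lit 3) (nat_lit 5) (nat_lit 24) (nat_lit 348) r10_24 r3_348 (nat_lit 0) (nat_lit 0) (nat_lit 0) (nat_lit 0x7846764056) (nat_lit 3791723832),
  Rx.mk (nat_lit 204) (nat_lit 4) (nat_lit 1) (nat_lit 3) (nat_lit 6) (nat_lit 28) (nat_lit 336) r10_28 r3_336 (nat_lit 0) (nat_lit 0) (nat_lit 0) (nat_lit 0x7db4419e32) (nat_lit 1126937448),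
  Rx.mk (nat_lit 205) (nat_lit 5) (nat_lit 1) (nat_lit 3) (nat_lit 7) (nat_lit 29) (nat_lit 343) r10_29 r3_343 (nat_lit 0) (nat_lit 0) (nat_lit 0) (nat_lit 0x7e26fad22c) (nat_lit 906967152),
  Rx.mk (nat_lit 206) (nat_lit 6) (nat_lit 1) (nat_lit 3) (nat_lit 7) (nat_lit 30) (nat_lit 350) r10_30 r3_350 (nat_lit 0) (nat_lit 0) (nat_lit 0) (nat_lit 0x7e1c68bb58) (nat_lit 927235296),
  Rx.mk (nat_lit 212) (nat_lit 4) (nat_lit 2) (nat_lit 3) (nat_lit 6) (nat_lit 35) (nat_lit 338) r10_35 r3_338 (nat_lit 0) (nat_lit 0) (nat_lit 0) (nat_lit 0x7ba330b152) (nat_lit 2141366760),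
  Rx.mk (nat_lit 213) (nat_lit 5) (nat_lit 2) (nat_lit 3) (nat_lit 7) (nat_lit 36) (nat_lit 345) r10_36 r3_345 (nat_lit 0) (nat_lit 0) (nat_lit 0) (nat_lit 0x7e079ac84c) (nat_lit 967125744)]
noncomputable def e50_4 : List Rx := [
  Rx.mk (nat_lit 4) (nat_lit 4) (nat_lit 0) (nat_lit 0) (nat_lit 0) (nat_lit 191) (nat_lit 381) r10_191 r4_381 (nat_lit 0) (nat_lit 0) (nat_lit 0) (nat_lit 0x38e6b45bd8) (nat_lit 34899093216),
  Rx.mk (nat_lit 5) (nat_lit 5) (nat_lit 0) (nat_lit 0) (nat_lit 1) (nat_lit 192) (nat_lit 390) r10_192 r4_390 (nat_lit 0) (nat_lit 0) (nat_lit 0) (nat_lit 0x7c966bbcae) (nat_lit 1674997272),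
  Rx.mk (nat_lit 6) (nat_lit 6) (nat_lit 0) (nat_lit 0) (nat_lit 1) (nat_lit 193) (nat_lit 396) r10_193 r4_396 (nat_lit 0) (nat_lit 0) (nat_lit 0) (nat_lit 0x7ccea598d8) (nat_lit 1567189728),
  Rx.mk (nat_lit 12) (nat_lit 4) (nat_lit 1) (nat_lit 0) (nat_lit 2) (nat_lit 199) (nat_lit 384) r10_199 r4_384 (nat_lit 0) (nat_lit 0) (nat_lit 0) (nat_lit 0x7ba0e835dc) (nat_lit 2145744432),
  Rx.mk (nat_lit 13) (nat_lit 5) (nat_lit 1) (nat_lit 0) (nat_lit 3) (nat_lit 200) (nat_lit 392) r10_200 r4_392 (nat_lit 0) (nat_lit 0) (nat_lit 0) (nat_lit 0x7ded13b0d8) (nat_lit 1017989856),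
  Rx.mk (nat_lit 14) (nat_lit 6) (nat_lit 1) (nat_lit 0) (nat_lit 3) (nat_lit 201) (nat_lit 399) r10_201 r4_399 (nat_lit 0) (nat_lit 0) (nat_lit 0) (nat_lit 0x7dd7e563d2) (nat_lit 1058601960),
  Rx.mk (nat_lit 20) (nat_lit 4) (nat_lit 2) (nat_lit 0) (nat_lit 2) (nat_lit 207) (nat_lit 387) r10_207 r4_387 (nat_lit 0) (nat_lit 0) (nat_lit 0) (nat_lit 0x7c3386eb5e) (nat_lit 1864615896),
  Rx.mk (nat_lit 21) (nat_lit 5) (nat_lit 2) (nat_lit 0) (nat_lit 3) (nat_lit 208) (nat_lit 394) r10_208 r4_394 (nat_lit 0) (nat_lit 0) (nat_lit 0) (nat_lit 0x7de439be80) (nat_lit 1034961408),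
  Rx.mk (nat_lit 68) (nat_lit 4) (nat_lit 0) (nat_lit 1) (nat_lit 4) (nat_lit 194) (nat_lit 382) r10_194 r4_382 (nat_lit 0) (nat_lit 0) (nat_lit 0) (nat_lit 0x7d28250088) (nat_lit 1395587232),
  Rx.mk (nat_lit 70) (nat_lit 6) (nat_lit 0) (nat_lit 1) (nat_lit 5) (nat_lit 195) (nat_lit 397) r10_195 r4_397 (nat_lit 0) (nat_lit 0) (nat_lit 0) (nat_lit 0x7de473dade) (nat_lit 1034526168),
  Rx.mk (nat_lit 76) (nat_lit 4) (nat_lit 1) (nat_lit 1) (nat_lit 6) (nat_lit 202) (nat_lit 385) r10_202 r4_385 (nat_lit 0) (nat_lit 0) (nat_lit 0) (nat_lit 0x7dce487daa) (nat_lit 1077033672),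
  Rx.mk (nat_lit 78) (nat_lit 6) (nat_lit 1) (nat_lit 1) (nat_lit 7) (nat_lit 203) (nat_lit 400) r10_203 r4_400 (nat_lit 0) (nat_lit 0) (nat_lit 0) (nat_lit 0x7df3488d84) (nat_lit 1006089552),
  Rx.mk (nat_lit 84) (nat_lit 4) (nat_lit 2) (nat_lit 1) (nat_lit 6) (nat_lit 209) (nat_lit 388) r10_209 r4_388 (nat_lit 0) (nat_lit 0) (nat_lit 0) (nat_lit 0x7dcf0cf162) (nat_lit 1075562280),
  Rx.mk (nat_lit 148) (nat_lit 4) (nat_lit 2) (nat_lit 2) (nat_lit 6) (nat_lit 210) (nat_lit 389) r10_210 r4_389 (nat_lit 0) (nat_lit 0) (nat_lit 0) (nat_lit 0x7df1be8626) (nat_lit 1009040760),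
  Rx.mk (nat_lit 149) (nat_lit 5) (nat_lit 2) (nat_lit 2) (nat_lit 7) (nat_lit 211) (nat_lit 395) r10_211 r4_395 (nat_lit 0) (nat_lit 0) (nat_lit 0) (nat_lit 0x7df5724ae6) (nat_lit 1001942136),
  Rx.mk (nat_lit 196) (nat_lit 4) (nat_lit 0) (nat_lit 3) (nat_lit 4) (nat_lit 196) (nat_lit 383) r10_196 r4_383 (nat_lit 0) (nat_lit 0) (nat_lit 0) (nat_lit 0x7d70d954fa) (nat_lit 1256184072),
  Rx.mk (nat_lit 197) (nat_lit 5) (nat_lit 0) (nat_lit 3) (nat_lit 5) (nat_lit 197) (nat_lit 391) r10_197 r4_391 (nat_lit 0) (nat_lit 0) (nat_lit 0) (nat_lit 0x7de4ce9532) (nat_lit 1033846632),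
  Rx.mk (nat_lit 198) (nat_lit 6) (nat_lit 0) (nat_lit 3) (nat_lit 5) (nat_lit 198) (nat_lit 398) r10_198 r4_398 (nat_lit 0) (nat_lit 0) (nat_lit 0) (nat_lit 0x7dcd522d10) (nat_lit 1078878528),
  Rx.mk (nat_lit 204) (nat_lit 4) (nat_lit 1) (nat_lit 3) (nat_lit 6) (nat_lit 204) (nat_lit 386) r10_204 r4_386 (nat_lit 0) (nat_lit 0) (nat_lit 0) (nat_lit 0x7df210a104) (nat_lit 1008425808),
  Rx.mk (nat_lit 205) (nat_lit 5) (nat_lit 1) (nat_lit 3) (nat_lit 7) (nat_lit 205) (nat_lit 393) r10_205 r4_393 (nat_lit 0) (nat_lit 0) (nat_lit 0) (nat_lit 0x7df01c204e) (nat_lit 1012174488),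
  Rx.mk (nat_lit 206) (nat_lit 6) (nat_lit 1) (nat_lit 3) (nat_lit 7) (nat_lit 206) (nat_lit 401) r10_206 r4_401 (nat_lit 0) (nat_lit 0) (nat_lit 0) (nat_lit 0x7df70fd10c) (nat_lit 998844912)]
noncomputable def e50_5 : List Rx := [
  Rx.mk (nat_lit 270) (nat_lit 6) (nat_lit 1) (nat_lit 4) (nat_lit 3) (nat_lit 351) (nat_lit 323) r10_351 r3_323 (nat_lit 0) (nat_lit 0) (nat_lit 0) (nat_lit 0x7ae9e266f0) (nat_lit 2496671424),
  Rx.mk (nat_lit 462) (nat_lit 6) (nat_lit 1) (nat_lit 7) (nat_lit 7) (nat_lit 352) (nat_lit 324) r10_352 r3_324 (nat_lit 0) (nat_lit 0) (nat_lit 0) (nat_lit 0x7fe8167eb0) (nat_lit 45849024)]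
noncomputable def e50_6 : List Rx := [
  Rx.mk (nat_lit 270) (nat_lit 6) (nat_lit 1) (nat_lit 4) (nat_lit 3) (nat_lit 298) (nat_lit 327) r10_298 r0_327 (nat_lit 0) (nat_lit 0) (nat_lit 0) (nat_lit 0x7e2b75aa7a) (nat_lit 898377480),
  Rx.mk (nat_lit 334) (nat_lit 6) (nat_lit 1) (nat_lit 5) (nat_lit 7) (nat_lit 299) (nat_lit 328) r10_299 r0_328 (nat_lit 0) (nat_lit 0) (nat_lit 0) (nat_lit 0x7df79428c6) (nat_lit 997853688)]
noncomputable def e50_7 : List Rx := [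
  Rx.mk (nat_lit 334) (nat_lit 6) (nat_lit 1) (nat_lit 5) (nat_lit 7) (nat_lit 338) (nat_lit 309) r10_338 r1_309 (nat_lit 0) (nat_lit 0) (nat_lit 0) (nat_lit 0x7df8d574b0) (nat_lit 995447232)]
noncomputable def e50_8 : List Rx := [
  Rx.mk (nat_lit 270) (nat_lit 6) (nat_lit 1) (nat_lit 4) (nat_lit 3) (nat_lit 353) (nat_lit 363) r10_353 r4_363 (nat_lit 0) (nat_lit 0) (nat_lit 0) (nat_lit 0x7e35dac41e) (nat_lit 878446296),
  Rx.mk (nat_lit 334) (nat_lit 6) (nat_lit 1) (nat_lit 5) (nat_lit 7) (nat_lit 354) (nat_lit 364) r10_354 r4_364 (nat_lit 0) (nat_lit 0) (nat_lit 0) (nat_lit 0x7df12eef20) (nat_lit 1010116224),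
  Rx.mk (nat_lit 462) (nat_lit 6) (nat_lit 1) (nat_lit 7) (nat_lit 7) (nat_lit 355) (nat_lit 365) r10_355 r4_365 (nat_lit 0) (nat_lit 0) (nat_lit 0) (nat_lit 0x7df06e3b2c) (nat_lit 1011559536)]
noncomputable def e50_9 : List Rx := [
  Rx.mk (nat_lit 196) (nat_lit 4) (nat_lit 0) (nat_lit 3) (nat_lit 4) (nat_lit 267) (nat_lit 367) r10_267 r5_367 (nat_lit 0) (nat_lit 0) (nat_lit 0) (nat_lit 0x79a5149512) (nat_lit 3119449320),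
  Rx.mk (nat_lit 198) (nat_lit 6) (nat_lit 0) (nat_lit 3) (nat_lit 5) (nat_lit 268) (nat_lit 370) r10_268 r5_370 (nat_lit 0) (nat_lit 0) (nat_lit 0) (nat_lit 0x7e095e2c14) (nat_lit 963744912),
  Rx.mk (nat_lit 204) (nat_lit 4) (nat_lit 1) (nat_lit 3) (nat_lit 6) (nat_lit 270) (nat_lit 368) r10_270 r5_368 (nat_lit 0) (nat_lit 0) (nat_lit 0) (nat_lit 0x7e01da245c) (nat_lit 978155568),
  Rx.mk (nat_lit 206) (nat_lit 6) (nat_lit 1) (nat_lit 3) (nat_lit 7) (nat_lit 271) (nat_lit 372) r10_271 r5_372 (nat_lit 0) (nat_lit 0) (nat_lit 0) (nat_lit 0x7df4315ef6) (nat_lit 1004345784),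
  Rx.mk (nat_lit 212) (nat_lit 4) (nat_lit 2) (nat_lit 3) (nat_lit 6) (nat_lit 272) (nat_lit 369) r10_272 r5_369 (nat_lit 0) (nat_lit 0) (nat_lit 0) (nat_lit 0x7df2dd5438) (nat_lit 1006892640),
  Rx.mk (nat_lit 454) (nat_lit 6) (nat_lit 0) (nat_lit 7) (nat_lit 5) (nat_lit 266) (nat_lit 371) r10_266 r5_371 (nat_lit 0) (nat_lit 0) (nat_lit 0) (nat_lit 0x7ed4e452e6) (nat_lit 573508728),
  Rx.mk (nat_lit 462) (nat_lit 6) (nat_lit 1) (nat_lit 7) (nat_lit 7) (nat_lit 269) (nat_lit 373) r10_269 r5_373 (nat_lit 0) (nat_lit 0) (nat_lit 0) (nat_lit 0x7eb07799d6) (nat_lit 643349304)]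
noncomputable def e50_10 : List Rx := [
  Rx.mk (nat_lit 5) (nat_lit 5) (nat_lit 0) (nat_lit 0) (nat_lit 1) (nat_lit 37) (nat_lit 200) r10_37 r0_200 (nat_lit 0) (nat_lit 0) (nat_lit 0) (nat_lit 0x76da66a2bc) (nat_lit 4489772976),
  Rx.mk (nat_lit 13) (nat_lit 5) (nat_lit 1) (nat_lit 0) (nat_lit 3) (nat_lit 38) (nat_lit 201) r10_38 r0_201 (nat_lit 0) (nat_lit 0) (nat_lit 0) (nat_lit 0x7e09e4c3aa) (nat_lit 962736840),
  Rx.mk (nat_lit 21) (nat_lit 5) (nat_lit 2) (nat_lit 0) (nat_lit 3) (nat_lit 39) (nat_lit 202) r10_39 r0_202 (nat_lit 0) (nat_lit 0) (nat_lit 0) (nat_lit 0x7e49f042b2) (nat_lit 839937384),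
  Rx.mk (nat_lit 149) (nat_lit 5) (nat_lit 2) (nat_lit 2) (nat_lit 7) (nat_lit 40) (nat_lit 203) r10_40 r0_203 (nat_lit 0) (nat_lit 0) (nat_lit 0) (nat_lit 0x7e9eee1280) (nat_lit 676975104)]
noncomputable def e50_11 : List Rx := [
  Rx.mk (nat_lit 5) (nat_lit 5) (nat_lit 0) (nat_lit 0) (nat_lit 1) (nat_lit 212) (nat_lit 449) r10_212 r6_449 (nat_lit 0) (nat_lit 0) (nat_lit 0) (nat_lit 0x776214075e) (nat_lit 4229625816),
  Rx.mk (nat_lit 13) (nat_lit 5) (nat_lit 1) (nat_lit 0) (nat_lit 3) (nat_lit 214) (nat_lit 451) r10_214 r6_451 (nat_lit 0) (nat_lit 0) (nat_lit 0) (nat_lit 0x7df79428c6) (nat_lit 997853688),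
  Rx.mk (nat_lit 21) (nat_lit 5) (nat_lit 2) (nat_lit 0) (nat_lit 3) (nat_lit 216) (nat_lit 453) r10_216 r6_453 (nat_lit 0) (nat_lit 0) (nat_lit 0) (nat_lit 0x7dc96b0b86) (nat_lit 1086361848),
  Rx.mk (nat_lit 69) (nat_lit 5) (nat_lit 0) (nat_lit 1) (nat_lit 5) (nat_lit 213) (nat_lit 450) r10_213 r6_450 (nat_lit 0) (nat_lit 0) (nat_lit 0) (nat_lit 0x7dbb30cf38) (nat_lit 1113641568),
  Rx.mk (nat_lit 77) (nat_lit 5) (nat_lit 1) (nat_lit 1) (nat_lit 7) (nat_lit 215) (nat_lit 452) r10_215 r6_452 (nat_lit 0) (nat_lit 0) (nat_lit 0) (nat_lit 0x7de4fa127a) (nat_lit 1033520904),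
  Rx.mk (nat_lit 85) (nat_lit 5) (nat_lit 2) (nat_lit 1) (nat_lit 7) (nat_lit 217) (nat_lit 454) r10_217 r6_454 (nat_lit 0) (nat_lit 0) (nat_lit 0) (nat_lit 0x7dc83d9e5e) (nat_lit 1088619480),
  Rx.mk (nat_lit 149) (nat_lit 5) (nat_lit 2) (nat_lit 2) (nat_lit 7) (nat_lit 218) (nat_lit 455) r10_218 r6_455 (nat_lit 0) (nat_lit 0) (nat_lit 0) (nat_lit 0x7def592c7e) (nat_lit 1013634648)]
noncomputable def e50_12 : List Rx := [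
  Rx.mk (nat_lit 5) (nat_lit 5) (nat_lit 0) (nat_lit 0) (nat_lit 1) (nat_lit 41) (nat_lit 220) r10_41 r1_220 (nat_lit 0) (nat_lit 0) (nat_lit 0) (nat_lit 0x6745aa3e18) (nat_lit 12137759712),
  Rx.mk (nat_lit 13) (nat_lit 5) (nat_lit 1) (nat_lit 0) (nat_lit 3) (nat_lit 42) (nat_lit 221) r10_42 r1_221 (nat_lit 0) (nat_lit 0) (nat_lit 0) (nat_lit 0x7dd2d19514) (nat_lit 1068337296),
  Rx.mk (nat_lit 21) (nat_lit 5) (nat_lit 2) (nat_lit 0) (nat_lit 3) (nat_lit 43) (nat_lit 222) r10_43 r1_222 (nat_lit 0) (nat_lit 0) (nat_lit 0) (nat_lit 0x7dc1f662d8) (nat_lit 1100657376),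
  Rx.mk (nat_lit 145) (nat_lit 1) (nat_lit 2) (nat_lit 2) (nat_lit 7) (nat_lit 45) (nat_lit 224) r10_45 r1_224 (nat_lit 0) (nat_lit 0) (nat_lit 0) (nat_lit 0x7de11ef030) (nat_lit 1040914368),
  Rx.mk (nat_lit 149) (nat_lit 5) (nat_lit 2) (nat_lit 2) (nat_lit 7) (nat_lit 44) (nat_lit 223) r10_44 r1_223 (nat_lit 0) (nat_lit 0) (nat_lit 0) (nat_lit 0x7e5b3e8dbc) (nat_lit 806755248)]
noncomputable def e50_13 : List Rx := [
  Rx.mk (nat_lit 5) (nat_lit 5) (nat_lit 0) (nat_lit 0) (nat_lit 1) (nat_lit 222) (nat_lit 368) r10_222 r7_368 (nat_lit 0) (nat_lit 0) (nat_lit 0) (nat_lit 0x6dd2a647ca) (nat_lit 8922316104),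
  Rx.mk (nat_lit 13) (nat_lit 5) (nat_lit 1) (nat_lit 0) (nat_lit 3) (nat_lit 224) (nat_lit 370) r10_224 r7_370 (nat_lit 0) (nat_lit 0) (nat_lit 0) (nat_lit 0x7dd5e543d6) (nat_lit 1062437688),
  Rx.mk (nat_lit 21) (nat_lit 5) (nat_lit 2) (nat_lit 0) (nat_lit 3) (nat_lit 226) (nat_lit 372) r10_226 r7_372 (nat_lit 0) (nat_lit 0) (nat_lit 0) (nat_lit 0x7d483d1ee6) (nat_lit 1334049912),
  Rx.mk (nat_lit 69) (nat_lit 5) (nat_lit 0) (nat_lit 1) (nat_lit 5) (nat_lit 223) (nat_lit 369) r10_223 r7_369 (nat_lit 0) (nat_lit 0) (nat_lit 0) (nat_lit 0x7dce8599d8) (nat_lit 1076575968),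
  Rx.mk (nat_lit 77) (nat_lit 5) (nat_lit 1) (nat_lit 1) (nat_lit 7) (nat_lit 225) (nat_lit 371) r10_225 r7_371 (nat_lit 0) (nat_lit 0) (nat_lit 0) (nat_lit 0x7df118d082) (nat_lit 1010281896),
  Rx.mk (nat_lit 85) (nat_lit 5) (nat_lit 2) (nat_lit 1) (nat_lit 7) (nat_lit 227) (nat_lit 373) r10_227 r7_373 (nat_lit 0) (nat_lit 0) (nat_lit 0) (nat_lit 0x7df32a2f6a) (nat_lit 1006317000),
  Rx.mk (nat_lit 145) (nat_lit 1) (nat_lit 2) (nat_lit 2) (nat_lit 7) (nat_lit 229) (nat_lit 367) r10_229 r7_367 (nat_lit 0) (nat_lit 0) (nat_lit 0) (nat_lit 0x7ddf1c9058) (nat_lit 1044766944),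
  Rx.mk (nat_lit 149) (nat_lit 5) (nat_lit 2) (nat_lit 2) (nat_lit 7) (nat_lit 228) (nat_lit 374) r10_228 r7_374 (nat_lit 0) (nat_lit 0) (nat_lit 0) (nat_lit 0x7de7266fb2) (nat_lit 1029353832)]
noncomputable def e50_14 : List Rx := [
  Rx.mk (nat_lit 69) (nat_lit 5) (nat_lit 0) (nat_lit 1) (nat_lit 5) (nat_lit 219) (nat_lit 198) r10_219 r7_198 (nat_lit 0) (nat_lit 0) (nat_lit 0) (nat_lit 0x7df20f8116) (nat_lit 1008434232),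
  Rx.mk (nat_lit 77) (nat_lit 5) (nat_lit 1) (nat_lit 1) (nat_lit 7) (nat_lit 220) (nat_lit 199) r10_220 r7_199 (nat_lit 0) (nat_lit 0) (nat_lit 0) (nat_lit 0x7de83d5e42) (nat_lit 1027264680),
  Rx.mk (nat_lit 85) (nat_lit 5) (nat_lit 2) (nat_lit 1) (nat_lit 7) (nat_lit 221) (nat_lit 200) r10_221 r7_200 (nat_lit 0) (nat_lit 0) (nat_lit 0) (nat_lit 0x7deb8469ce) (nat_lit 1020980376)]
noncomputable def e50_15 : List Rx := [
  Rx.mk (nat_lit 77) (nat_lit 5) (nat_lit 1) (nat_lit 1) (nat_lit 7) (nat_lit 350) (nat_lit 327) r10_350 r8_327 (nat_lit 0) (nat_lit 0) (nat_lit 0) (nat_lit 0x7ded710b02) (nat_lit 1017290664)]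
noncomputable def e50_16 : List Rx := [
  Rx.mk (nat_lit 5) (nat_lit 5) (nat_lit 0) (nat_lit 0) (nat_lit 1) (nat_lit 46) (nat_lit 188) r10_46 r4_188 (nat_lit 0) (nat_lit 0) (nat_lit 0) (nat_lit 0x7d74889a02) (nat_lit 1249119144),
  Rx.mk (nat_lit 13) (nat_lit 5) (nat_lit 1) (nat_lit 0) (nat_lit 3) (nat_lit 48) (nat_lit 189) r10_48 r4_189 (nat_lit 0) (nat_lit 0) (nat_lit 0) (nat_lit 0x7de345adc2) (nat_lit 1036789416),
  Rx.mk (nat_lit 21) (nat_lit 5) (nat_lit 2) (nat_lit 0) (nat_lit 3) (nat_lit 50) (nat_lit 190) r10_50 r4_190 (nat_lit 0) (nat_lit 0) (nat_lit 0) (nat_lit 0x7df171aaf4) (nat_lit 1009616400),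
  Rx.mk (nat_lit 149) (nat_lit 5) (nat_lit 2) (nat_lit 2) (nat_lit 7) (nat_lit 51) (nat_lit 194) r10_51 r4_194 (nat_lit 0) (nat_lit 0) (nat_lit 0) (nat_lit 0x7e002a9f56) (nat_lit 981387576),
  Rx.mk (nat_lit 197) (nat_lit 5) (nat_lit 0) (nat_lit 3) (nat_lit 5) (nat_lit 47) (nat_lit 191) r10_47 r4_191 (nat_lit 0) (nat_lit 0) (nat_lit 0) (nat_lit 0x7e25a6c76e) (nat_lit 909514008),
  Rx.mk (nat_lit 205) (nat_lit 5) (nat_lit 1) (nat_lit 3) (nat_lit 7) (nat_lit 49) (nat_lit 192) r10_49 r4_192 (nat_lit 0) (nat_lit 0) (nat_lit 0) (nat_lit 0x7df971caea) (nat_lit 994276296),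
  Rx.mk (nat_lit 213) (nat_lit 5) (nat_lit 2) (nat_lit 3) (nat_lit 7) (nat_lit 52) (nat_lit 193) r10_52 r4_193 (nat_lit 0) (nat_lit 0) (nat_lit 0) (nat_lit 0x7df8e77390) (nat_lit 995312448)]
noncomputable def e50_17 : List Rx := [
  Rx.mk (nat_lit 5) (nat_lit 5) (nat_lit 0) (nat_lit 0) (nat_lit 1) (nat_lit 230) (nat_lit 374) r10_230 r9_374 (nat_lit 0) (nat_lit 0) (nat_lit 0) (nat_lit 0x7db50971b4) (nat_lit 1125440784),
  Rx.mk (nat_lit 13) (nat_lit 5) (nat_lit 1) (nat_lit 0) (nat_lit 3) (nat_lit 232) (nat_lit 376) r10_232 r9_376 (nat_lit 0) (nat_lit 0) (nat_lit 0) (nat_lit 0x7defa427ce) (nat_lit 1013073048),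
  Rx.mk (nat_lit 21) (nat_lit 5) (nat_lit 2) (nat_lit 0) (nat_lit 3) (nat_lit 234) (nat_lit 378) r10_234 r9_378 (nat_lit 0) (nat_lit 0) (nat_lit 0) (nat_lit 0x7de652fcea) (nat_lit 1030937544),
  Rx.mk (nat_lit 149) (nat_lit 5) (nat_lit 2) (nat_lit 2) (nat_lit 7) (nat_lit 235) (nat_lit 379) r10_235 r9_379 (nat_lit 0) (nat_lit 0) (nat_lit 0) (nat_lit 0x7deffe8228) (nat_lit 1012396320),
  Rx.mk (nat_lit 197) (nat_lit 5) (nat_lit 0) (nat_lit 3) (nat_lit 5) (nat_lit 231) (nat_lit 375) r10_231 r9_375 (nat_lit 0) (nat_lit 0) (nat_lit 0) (nat_lit 0x7def382e8e) (nat_lit 1013881752),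
  Rx.mk (nat_lit 205) (nat_lit 5) (nat_lit 1) (nat_lit 3) (nat_lit 7) (nat_lit 233) (nat_lit 377) r10_233 r9_377 (nat_lit 0) (nat_lit 0) (nat_lit 0) (nat_lit 0x7df680f9fa) (nat_lit 999914760)]
noncomputable def e50_18 : List Rx := [
  Rx.mk (nat_lit 197) (nat_lit 5) (nat_lit 0) (nat_lit 3) (nat_lit 5) (nat_lit 281) (nat_lit 368) r10_281 r10_368 (nat_lit 0) (nat_lit 0) (nat_lit 0) (nat_lit 0x7df1570c9e) (nat_lit 1009815768),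
  Rx.mk (nat_lit 205) (nat_lit 5) (nat_lit 1) (nat_lit 3) (nat_lit 7) (nat_lit 282) (nat_lit 369) r10_282 r10_369 (nat_lit 0) (nat_lit 0) (nat_lit 0) (nat_lit 0x7df79428c6) (nat_lit 997853688),
  Rx.mk (nat_lit 213) (nat_lit 5) (nat_lit 2) (nat_lit 3) (nat_lit 7) (nat_lit 283) (nat_lit 370) r10_283 r10_370 (nat_lit 0) (nat_lit 0) (nat_lit 0) (nat_lit 0x7df441ddee) (nat_lit 1004222232)]
noncomputable def e50_19 : List Rx := [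
  Rx.mk (nat_lit 76) (nat_lit 4) (nat_lit 1) (nat_lit 1) (nat_lit 6) (nat_lit 347) (nat_lit 320) r10_347 r8_320 (nat_lit 0) (nat_lit 0) (nat_lit 0) (nat_lit 0x7d5d8ae9f4) (nat_lit 1293201936),
  Rx.mk (nat_lit 77) (nat_lit 5) (nat_lit 1) (nat_lit 1) (nat_lit 7) (nat_lit 348) (nat_lit 321) r10_348 r8_321 (nat_lit 0) (nat_lit 0) (nat_lit 0) (nat_lit 0x7de98b6960) (nat_lit 1024762752),
  Rx.mk (nat_lit 78) (nat_lit 6) (nat_lit 1) (nat_lit 1) (nat_lit 7) (nat_lit 349) (nat_lit 323) r10_349 r8_323 (nat_lit 0) (nat_lit 0) (nat_lit 0) (nat_lit 0x7dd48359f6) (nat_lit 1065088440),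
  Rx.mk (nat_lit 334) (nat_lit 6) (nat_lit 1) (nat_lit 5) (nat_lit 7) (nat_lit 346) (nat_lit 322) r10_346 r8_322 (nat_lit 0) (nat_lit 0) (nat_lit 0) (nat_lit 0x7ddf600c20) (nat_lit 1044261504),
  Rx.mk (nat_lit 366) (nat_lit 6) (nat_lit 5) (nat_lit 5) (nat_lit 7) (nat_lit 345) (nat_lit 319) r10_345 r8_319 (nat_lit 0) (nat_lit 0) (nat_lit 0) (nat_lit 0x7de3095188) (nat_lit 1037241504)]
noncomputable def e50_20 : List Rx := [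
  Rx.mk (nat_lit 270) (nat_lit 6) (nat_lit 1) (nat_lit 4) (nat_lit 3) (nat_lit 302) (nat_lit 225) r10_302 r0_225 (nat_lit 0) (nat_lit 0) (nat_lit 0) (nat_lit 0x7c7d384ffe) (nat_lit 1723317336),
  Rx.mk (nat_lit 302) (nat_lit 6) (nat_lit 5) (nat_lit 4) (nat_lit 3) (nat_lit 300) (nat_lit 226) r10_300 r0_226 (nat_lit 0) (nat_lit 0) (nat_lit 0) (nat_lit 0x7dddc22600) (nat_lit 1047361536),
  Rx.mk (nat_lit 494) (nat_lit 6) (nat_lit 5) (nat_lit 7) (nat_lit 7) (nat_lit 301) (nat_lit 227) r10_301 r0_227 (nat_lit 0) (nat_lit 0) (nat_lit 0) (nat_lit 0x7e9ab5f606) (nat_lit 685064952)]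
noncomputable def e50_21 : List Rx := [
  Rx.mk (nat_lit 302) (nat_lit 6) (nat_lit 5) (nat_lit 4) (nat_lit 3) (nat_lit 333) (nat_lit 244) r10_333 r1_244 (nat_lit 0) (nat_lit 0) (nat_lit 0) (nat_lit 0x7dc4b676d4) (nat_lit 1095383952),
  Rx.mk (nat_lit 494) (nat_lit 6) (nat_lit 5) (nat_lit 7) (nat_lit 7) (nat_lit 334) (nat_lit 245) r10_334 r1_245 (nat_lit 0) (nat_lit 0) (nat_lit 0) (nat_lit 0x7e352a8f22) (nat_lit 879766056)]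
noncomputable def e50_22 : List Rx := [
  Rx.mk (nat_lit 270) (nat_lit 6) (nat_lit 1) (nat_lit 4) (nat_lit 3) (nat_lit 358) (nat_lit 226) r10_358 r4_226 (nat_lit 0) (nat_lit 0) (nat_lit 0) (nat_lit 0x7adab11a14) (nat_lit 2525801616),
  Rx.mk (nat_lit 462) (nat_lit 6) (nat_lit 1) (nat_lit 7) (nat_lit 7) (nat_lit 359) (nat_lit 227) r10_359 r4_227 (nat_lit 0) (nat_lit 0) (nat_lit 0) (nat_lit 0x7e63204f98) (nat_lit 791642592),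
  Rx.mk (nat_lit 494) (nat_lit 6) (nat_lit 5) (nat_lit 7) (nat_lit 7) (nat_lit 357) (nat_lit 228) r10_357 r4_228 (nat_lit 0) (nat_lit 0) (nat_lit 0) (nat_lit 0x7e80048138) (nat_lit 736246368)]
noncomputable def e50_23 : List Rx := [
  Rx.mk (nat_lit 270) (nat_lit 6) (nat_lit 1) (nat_lit 4) (nat_lit 3) (nat_lit 306) (nat_lit 442) r10_306 r6_442 (nat_lit 0) (nat_lit 0) (nat_lit 0) (nat_lit 0x7de08359ea) (nat_lit 1042079688),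
  Rx.mk (nat_lit 302) (nat_lit 6) (nat_lit 5) (nat_lit 4) (nat_lit 3) (nat_lit 303) (nat_lit 439) r10_303 r6_439 (nat_lit 0) (nat_lit 0) (nat_lit 0) (nat_lit 0x7de1356ec8) (nat_lit 1040745888),
  Rx.mk (nat_lit 334) (nat_lit 6) (nat_lit 1) (nat_lit 5) (nat_lit 7) (nat_lit 307) (nat_lit 443) r10_307 r6_443 (nat_lit 0) (nat_lit 0) (nat_lit 0) (nat_lit 0x7de6505d14) (nat_lit 1030957200),
  Rx.mk (nat_lit 366) (nat_lit 6) (nat_lit 5) (nat_lit 5) (nat_lit 7) (nat_lit 304) (nat_lit 440) r10_304 r6_440 (nat_lit 0) (nat_lit 0) (nat_lit 0) (nat_lit 0x7df52a4f66) (nat_lit 1002481272),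
  Rx.mk (nat_lit 494) (nat_lit 6) (nat_lit 5) (nat_lit 7) (nat_lit 7) (nat_lit 305) (nat_lit 441) r10_305 r6_441 (nat_lit 0) (nat_lit 0) (nat_lit 0) (nat_lit 0x7dcf9d485c) (nat_lit 1074481200)]
noncomputable def e50_24 : List Rx := [
  Rx.mk (nat_lit 302) (nat_lit 6) (nat_lit 5) (nat_lit 4) (nat_lit 3) (nat_lit 335) (nat_lit 358) r10_335 r7_358 (nat_lit 0) (nat_lit 0) (nat_lit 0) (nat_lit 0x7de88259f2) (nat_lit 1026748008),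
  Rx.mk (nat_lit 366) (nat_lit 6) (nat_lit 5) (nat_lit 5) (nat_lit 7) (nat_lit 336) (nat_lit 359) r10_336 r7_359 (nat_lit 0) (nat_lit 0) (nat_lit 0) (nat_lit 0x7de822bfec) (nat_lit 1027464048),
  Rx.mk (nat_lit 494) (nat_lit 6) (nat_lit 5) (nat_lit 7) (nat_lit 7) (nat_lit 337) (nat_lit 360) r10_337 r7_360 (nat_lit 0) (nat_lit 0) (nat_lit 0) (nat_lit 0x7df139ce72) (nat_lit 1010034792)]
noncomputable def e50_25 : List Rx := [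
  Rx.mk (nat_lit 334) (nat_lit 6) (nat_lit 1) (nat_lit 5) (nat_lit 7) (nat_lit 344) (nat_lit 219) r10_344 r7_219 (nat_lit 0) (nat_lit 0) (nat_lit 0) (nat_lit 0x7de8ed3344) (nat_lit 1025947728),
  Rx.mk (nat_lit 366) (nat_lit 6) (nat_lit 5) (nat_lit 5) (nat_lit 7) (nat_lit 343) (nat_lit 220) r10_343 r7_220 (nat_lit 0) (nat_lit 0) (nat_lit 0) (nat_lit 0x7de0f07318) (nat_lit 1041262560)]
noncomputable def e50_26 : List Rx := [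
  Rx.mk (nat_lit 270) (nat_lit 6) (nat_lit 1) (nat_lit 4) (nat_lit 3) (nat_lit 361) (nat_lit 366) r10_361 r9_366 (nat_lit 0) (nat_lit 0) (nat_lit 0) (nat_lit 0x7dee57fc92) (nat_lit 1015560936),
  Rx.mk (nat_lit 334) (nat_lit 6) (nat_lit 1) (nat_lit 5) (nat_lit 7) (nat_lit 362) (nat_lit 367) r10_362 r9_367 (nat_lit 0) (nat_lit 0) (nat_lit 0) (nat_lit 0x7dded7f4a2) (nat_lit 1045280808),
  Rx.mk (nat_lit 462) (nat_lit 6) (nat_lit 1) (nat_lit 7) (nat_lit 7) (nat_lit 363) (nat_lit 368) r10_363 r9_368 (nat_lit 0) (nat_lit 0) (nat_lit 0) (nat_lit 0x7de67cfa4a) (nat_lit 1030623048),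
  Rx.mk (nat_lit 494) (nat_lit 6) (nat_lit 5) (nat_lit 7) (nat_lit 7) (nat_lit 360) (nat_lit 365) r10_360 r9_365 (nat_lit 0) (nat_lit 0) (nat_lit 0) (nat_lit 0x7de3898984) (nat_lit 1036281168)]
noncomputable def e50_27 : List Rx := [
  Rx.mk (nat_lit 462) (nat_lit 6) (nat_lit 1) (nat_lit 7) (nat_lit 7) (nat_lit 365) (nat_lit 365) r10_365 r10_365 (nat_lit 0) (nat_lit 0) (nat_lit 0) (nat_lit 0x7d95a7e7ec) (nat_lit 1185610608),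
  Rx.mk (nat_lit 494) (nat_lit 6) (nat_lit 5) (nat_lit 7) (nat_lit 7) (nat_lit 364) (nat_lit 364) r10_364 r10_364 (nat_lit 0) (nat_lit 0) (nat_lit 0) (nat_lit 0x7dc8fcd26a) (nat_lit 1087187400)]
noncomputable def e50_28 : List Rx := [
  Rx.mk (nat_lit 4) (nat_lit 4) (nat_lit 0) (nat_lit 0) (nat_lit 0) (nat_lit 236) (nat_lit 236) r10_236 r10_236 (nat_lit 0) (nat_lit 0) (nat_lit 0) (nat_lit 0x540d4a5750) (nat_lit 21572066880),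
  Rx.mk (nat_lit 5) (nat_lit 5) (nat_lit 0) (nat_lit 0) (nat_lit 1) (nat_lit 237) (nat_lit 237) r10_237 r10_237 (nat_lit 0) (nat_lit 0) (nat_lit 0) (nat_lit 0x7de7980898) (nat_lit 1028503008),
  Rx.mk (nat_lit 6) (nat_lit 6) (nat_lit 0) (nat_lit 0) (nat_lit 1) (nat_lit 238) (nat_lit 239) r10_238 r10_239 (nat_lit 0) (nat_lit 0) (nat_lit 0) (nat_lit 0x7dbee7f3c2) (nat_lit 1106517672),
  Rx.mk (nat_lit 7) (nat_lit 7) (nat_lit 0) (nat_lit 0) (nat_lit 1) (nat_lit 239) (nat_lit 238) r10_239 r10_238 (nat_lit 0) (nat_lit 0) (nat_lit 0) (nat_lit 0x7dbee7f3c2) (nat_lit 1106517672),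
  Rx.mk (nat_lit 12) (nat_lit 4) (nat_lit 1) (nat_lit 0) (nat_lit 2) (nat_lit 246) (nat_lit 240) r10_246 r10_240 (nat_lit 0) (nat_lit 0) (nat_lit 0) (nat_lit 0x7da3588cd4) (nat_lit 1159361424),
  Rx.mk (nat_lit 14) (nat_lit 6) (nat_lit 1) (nat_lit 0) (nat_lit 3) (nat_lit 247) (nat_lit 242) r10_247 r10_242 (nat_lit 0) (nat_lit 0) (nat_lit 0) (nat_lit 0x7de958cc8a) (nat_lit 1025141832),
  Rx.mk (nat_lit 15) (nat_lit 7) (nat_lit 1) (nat_lit 0) (nat_lit 3) (nat_lit 248) (nat_lit 241) r10_248 r10_241 (nat_lit 0) (nat_lit 0) (nat_lit 0) (nat_lit 0x7df1b106fe) (nat_lit 1009141848),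
  Rx.mk (nat_lit 20) (nat_lit 4) (nat_lit 2) (nat_lit 0) (nat_lit 2) (nat_lit 254) (nat_lit 243) r10_254 r10_243 (nat_lit 0) (nat_lit 0) (nat_lit 0) (nat_lit 0x7d57554d54) (nat_lit 1305107856),
  Rx.mk (nat_lit 21) (nat_lit 5) (nat_lit 2) (nat_lit 0) (nat_lit 3) (nat_lit 255) (nat_lit 244) r10_255 r10_244 (nat_lit 0) (nat_lit 0) (nat_lit 0) (nat_lit 0x7df6641bc8) (nat_lit 1000130976),
  Rx.mk (nat_lit 23) (nat_lit 7) (nat_lit 2) (nat_lit 0) (nat_lit 3) (nat_lit 256) (nat_lit 245) r10_256 r10_245 (nat_lit 0) (nat_lit 0) (nat_lit 0) (nat_lit 0x7dd66edb3c) (nat_lit 1061407152),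
  Rx.mk (nat_lit 68) (nat_lit 4) (nat_lit 0) (nat_lit 1) (nat_lit 4) (nat_lit 240) (nat_lit 246) r10_240 r10_246 (nat_lit 0) (nat_lit 0) (nat_lit 0) (nat_lit 0x7da3588cd4) (nat_lit 1159361424),
  Rx.mk (nat_lit 70) (nat_lit 6) (nat_lit 0) (nat_lit 1) (nat_lit 5) (nat_lit 241) (nat_lit 248) r10_241 r10_248 (nat_lit 0) (nat_lit 0) (nat_lit 0) (nat_lit 0x7df1b106fe) (nat_lit 1009141848),
  Rx.mk (nat_lit 71) (nat_lit 7) (nat_lit 0) (nat_lit 1) (nat_lit 5) (nat_lit 242) (nat_lit 247) r10_242 r10_247 (nat_lit 0) (nat_lit 0) (nat_lit 0) (nat_lit 0x7de958cc8a) (nat_lit 1025141832),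
  Rx.mk (nat_lit 76) (nat_lit 4) (nat_lit 1) (nat_lit 1) (nat_lit 6) (nat_lit 249) (nat_lit 249) r10_249 r10_249 (nat_lit 0) (nat_lit 0) (nat_lit 0) (nat_lit 0x7df2331edc) (nat_lit 1008167472),
  Rx.mk (nat_lit 78) (nat_lit 6) (nat_lit 1) (nat_lit 1) (nat_lit 7) (nat_lit 250) (nat_lit 251) r10_250 r10_251 (nat_lit 0) (nat_lit 0) (nat_lit 0) (nat_lit 0x7defa487c8) (nat_lit 1013070240),
  Rx.mk (nat_lit 79) (nat_lit 7) (nat_lit 1) (nat_lit 1) (nat_lit 7) (nat_lit 251) (nat_lit 250) r10_251 r10_250 (nat_lit 0) (nat_lit 0) (nat_lit 0) (nat_lit 0x7defa487c8) (nat_lit 1013070240),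
  Rx.mk (nat_lit 84) (nat_lit 4) (nat_lit 2) (nat_lit 1) (nat_lit 6) (nat_lit 257) (nat_lit 252) r10_257 r10_252 (nat_lit 0) (nat_lit 0) (nat_lit 0) (nat_lit 0x7ddd346edc) (nat_lit 1048422960),
  Rx.mk (nat_lit 87) (nat_lit 7) (nat_lit 2) (nat_lit 1) (nat_lit 7) (nat_lit 258) (nat_lit 253) r10_258 r10_253 (nat_lit 0) (nat_lit 0) (nat_lit 0) (nat_lit 0x7df79428c6) (nat_lit 997853688),
  Rx.mk (nat_lit 148) (nat_lit 4) (nat_lit 2) (nat_lit 2) (nat_lit 6) (nat_lit 259) (nat_lit 262) r10_259 r10_262 (nat_lit 0) (nat_lit 0) (nat_lit 0) (nat_lit 0x7df1402e0c) (nat_lit 1009987056),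
  Rx.mk (nat_lit 149) (nat_lit 5) (nat_lit 2) (nat_lit 2) (nat_lit 7) (nat_lit 260) (nat_lit 263) r10_260 r10_263 (nat_lit 0) (nat_lit 0) (nat_lit 0) (nat_lit 0x7df1978896) (nat_lit 1009332792),
  Rx.mk (nat_lit 151) (nat_lit 7) (nat_lit 2) (nat_lit 2) (nat_lit 7) (nat_lit 261) (nat_lit 264) r10_261 r10_264 (nat_lit 0) (nat_lit 0) (nat_lit 0) (nat_lit 0x7de80a0178) (nat_lit 1027649376),
  Rx.mk (nat_lit 196) (nat_lit 4) (nat_lit 0) (nat_lit 3) (nat_lit 4) (nat_lit 243) (nat_lit 254) r10_243 r10_254 (nat_lit 0) (nat_lit 0) (nat_lit 0) (nat_lit 0x7d57554d54) (nat_lit 1305107856),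
  Rx.mk (nat_lit 197) (nat_lit 5) (nat_lit 0) (nat_lit 3) (nat_lit 5) (nat_lit 244) (nat_lit 255) r10_244 r10_255 (nat_lit 0) (nat_lit 0) (nat_lit 0) (nat_lit 0x7df6641bc8) (nat_lit 1000130976),
  Rx.mk (nat_lit 198) (nat_lit 6) (nat_lit 0) (nat_lit 3) (nat_lit 5) (nat_lit 245) (nat_lit 256) r10_245 r10_256 (nat_lit 0) (nat_lit 0) (nat_lit 0) (nat_lit 0x7dd66edb3c) (nat_lit 1061407152),
  Rx.mk (nat_lit 204) (nat_lit 4) (nat_lit 1) (nat_lit 3) (nat_lit 6) (nat_lit 252) (nat_lit 257) r10_252 r10_257 (nat_lit 0) (nat_lit 0) (nat_lit 0) (nat_lit 0x7ddd346edc) (nat_lit 1048422960),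
  Rx.mk (nat_lit 206) (nat_lit 6) (nat_lit 1) (nat_lit 3) (nat_lit 7) (nat_lit 253) (nat_lit 258) r10_253 r10_258 (nat_lit 0) (nat_lit 0) (nat_lit 0) (nat_lit 0x7df79428c6) (nat_lit 997853688),
  Rx.mk (nat_lit 220) (nat_lit 4) (nat_lit 3) (nat_lit 3) (nat_lit 6) (nat_lit 262) (nat_lit 259) r10_262 r10_259 (nat_lit 0) (nat_lit 0) (nat_lit 0) (nat_lit 0x7df1402e0c) (nat_lit 1009987056),
  Rx.mk (nat_lit 221) (nat_lit 5) (nat_lit 3) (nat_lit 3) (nat_lit 7) (nat_lit 263) (nat_lit 260) r10_263 r10_260 (nat_lit 0) (nat_lit 0) (nat_lit 0) (nat_lit 0x7df1978896) (nat_lit 1009332792),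
  Rx.mk (nat_lit 222) (nat_lit 6) (nat_lit 3) (nat_lit 3) (nat_lit 7) (nat_lit 264) (nat_lit 261) r10_264 r10_261 (nat_lit 0) (nat_lit 0) (nat_lit 0) (nat_lit 0x7de80a0178) (nat_lit 1027649376)]
noncomputable def e50_29 : List Rx := [
  Rx.mk (nat_lit 454) (nat_lit 6) (nat_lit 0) (nat_lit 7) (nat_lit 5) (nat_lit 284) (nat_lit 241) r10_284 r5_241 (nat_lit 0) (nat_lit 0) (nat_lit 0) (nat_lit 0x7e9ce972cc) (nat_lit 680844528),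
  Rx.mk (nat_lit 462) (nat_lit 6) (nat_lit 1) (nat_lit 7) (nat_lit 7) (nat_lit 285) (nat_lit 242) r10_285 r5_242 (nat_lit 0) (nat_lit 0) (nat_lit 0) (nat_lit 0x7eb3926826) (nat_lit 637396344),
  Rx.mk (nat_lit 478) (nat_lit 6) (nat_lit 3) (nat_lit 7) (nat_lit 7) (nat_lit 286) (nat_lit 243) r10_286 r5_243 (nat_lit 0) (nat_lit 0) (nat_lit 0) (nat_lit 0x7eba8a38a2) (nat_lit 624035880)]
noncomputable def e50_30 : List Rx := [
  Rx.mk (nat_lit 270) (nat_lit 6) (nat_lit 1) (nat_lit 4) (nat_lit 3) (nat_lit 368) (nat_lit 281) r10_368 r10_281 (nat_lit 0) (nat_lit 0) (nat_lit 0) (nat_lit 0x7df1570c9e) (nat_lit 1009815768),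
  Rx.mk (nat_lit 334) (nat_lit 6) (nat_lit 1) (nat_lit 5) (nat_lit 7) (nat_lit 369) (nat_lit 282) r10_369 r10_282 (nat_lit 0) (nat_lit 0) (nat_lit 0) (nat_lit 0x7df79428c6) (nat_lit 997853688),
  Rx.mk (nat_lit 462) (nat_lit 6) (nat_lit 1) (nat_lit 7) (nat_lit 7) (nat_lit 370) (nat_lit 283) r10_370 r10_283 (nat_lit 0) (nat_lit 0) (nat_lit 0) (nat_lit 0x7df441ddee) (nat_lit 1004222232)]
noncomputable def e50_31 : List Rx := [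
  Rx.mk (nat_lit 7) (nat_lit 7) (nat_lit 0) (nat_lit 0) (nat_lit 1) (nat_lit 53) (nat_lit 153) r10_53 r5_153 (nat_lit 0) (nat_lit 0) (nat_lit 0) (nat_lit 0x7b5c1d42d0) (nat_lit 2277647424),
  Rx.mk (nat_lit 15) (nat_lit 7) (nat_lit 1) (nat_lit 0) (nat_lit 3) (nat_lit 57) (nat_lit 157) r10_57 r5_157 (nat_lit 0) (nat_lit 0) (nat_lit 0) (nat_lit 0x7d9ee59408) (nat_lit 1167892128),
  Rx.mk (nat_lit 23) (nat_lit 7) (nat_lit 2) (nat_lit 0) (nat_lit 3) (nat_lit 61) (nat_lit 164) r10_61 r5_164 (nat_lit 0) (nat_lit 0) (nat_lit 0) (nat_lit 0x7df4237fd4) (nat_lit 1004449680),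
  Rx.mk (nat_lit 151) (nat_lit 7) (nat_lit 2) (nat_lit 2) (nat_lit 7) (nat_lit 62) (nat_lit 167) r10_62 r5_167 (nat_lit 0) (nat_lit 0) (nat_lit 0) (nat_lit 0x7df4675b96) (nat_lit 1003941432),
  Rx.mk (nat_lit 196) (nat_lit 4) (nat_lit 0) (nat_lit 3) (nat_lit 4) (nat_lit 54) (nat_lit 154) r10_54 r5_154 (nat_lit 0) (nat_lit 0) (nat_lit 0) (nat_lit 0x75b5e9ebac) (nat_lit 5050586736),
  Rx.mk (nat_lit 198) (nat_lit 6) (nat_lit 0) (nat_lit 3) (nat_lit 5) (nat_lit 55) (nat_lit 156) r10_55 r5_156 (nat_lit 0) (nat_lit 0) (nat_lit 0) (nat_lit 0x7d9fc50610) (nat_lit 1166218560),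
  Rx.mk (nat_lit 199) (nat_lit 7) (nat_lit 0) (nat_lit 3) (nat_lit 5) (nat_lit 56) (nat_lit 155) r10_56 r5_155 (nat_lit 0) (nat_lit 0) (nat_lit 0) (nat_lit 0x7e2b4d2d02) (nat_lit 898680744),
  Rx.mk (nat_lit 204) (nat_lit 4) (nat_lit 1) (nat_lit 3) (nat_lit 6) (nat_lit 58) (nat_lit 158) r10_58 r5_158 (nat_lit 0) (nat_lit 0) (nat_lit 0) (nat_lit 0x7de6df9420) (nat_lit 1029884544),
  Rx.mk (nat_lit 206) (nat_lit 6) (nat_lit 1) (nat_lit 3) (nat_lit 7) (nat_lit 59) (nat_lit 160) r10_59 r5_160 (nat_lit 0) (nat_lit 0) (nat_lit 0) (nat_lit 0x7df1199076) (nat_lit 1010276280),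
  Rx.mk (nat_lit 207) (nat_lit 7) (nat_lit 1) (nat_lit 3) (nat_lit 7) (nat_lit 60) (nat_lit 159) r10_60 r5_159 (nat_lit 0) (nat_lit 0) (nat_lit 0) (nat_lit 0x7df675baae) (nat_lit 999999000),
  Rx.mk (nat_lit 212) (nat_lit 4) (nat_lit 2) (nat_lit 3) (nat_lit 6) (nat_lit 63) (nat_lit 165) r10_63 r5_165 (nat_lit 0) (nat_lit 0) (nat_lit 0) (nat_lit 0x7dd58429e8) (nat_lit 1063164960),
  Rx.mk (nat_lit 215) (nat_lit 7) (nat_lit 2) (nat_lit 3) (nat_lit 7) (nat_lit 64) (nat_lit 166) r10_64 r5_166 (nat_lit 0) (nat_lit 0) (nat_lit 0) (nat_lit 0x7ddaeb3372) (nat_lit 1052806248),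
  Rx.mk (nat_lit 220) (nat_lit 4) (nat_lit 3) (nat_lit 3) (nat_lit 6) (nat_lit 66) (nat_lit 161) r10_66 r5_161 (nat_lit 0) (nat_lit 0) (nat_lit 0) (nat_lit 0x7db1f38316) (nat_lit 1131357240),
  Rx.mk (nat_lit 222) (nat_lit 6) (nat_lit 3) (nat_lit 3) (nat_lit 7) (nat_lit 67) (nat_lit 162) r10_67 r5_162 (nat_lit 0) (nat_lit 0) (nat_lit 0) (nat_lit 0x7dc21520ec) (nat_lit 1100427120),
  Rx.mk (nat_lit 478) (nat_lit 6) (nat_lit 3) (nat_lit 7) (nat_lit 7) (nat_lit 65) (nat_lit 163) r10_65 r5_163 (nat_lit 0) (nat_lit 0) (nat_lit 0) (nat_lit 0x7eb9830916) (nat_lit 626007096)]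
noncomputable def e50_32 : List Rx := [
  Rx.mk (nat_lit 196) (nat_lit 4) (nat_lit 0) (nat_lit 3) (nat_lit 4) (nat_lit 288) (nat_lit 457) r10_288 r11_457 (nat_lit 0) (nat_lit 0) (nat_lit 0) (nat_lit 0x73c76ed54c) (nat_lit 5998702320),
  Rx.mk (nat_lit 198) (nat_lit 6) (nat_lit 0) (nat_lit 3) (nat_lit 5) (nat_lit 289) (nat_lit 463) r10_289 r11_463 (nat_lit 0) (nat_lit 0) (nat_lit 0) (nat_lit 0x7d45698c22) (nat_lit 1339469352),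
  Rx.mk (nat_lit 199) (nat_lit 7) (nat_lit 0) (nat_lit 3) (nat_lit 5) (nat_lit 290) (nat_lit 460) r10_290 r11_460 (nat_lit 0) (nat_lit 0) (nat_lit 0) (nat_lit 0x7e5f76aa36) (nat_lit 798665400),
  Rx.mk (nat_lit 204) (nat_lit 4) (nat_lit 1) (nat_lit 3) (nat_lit 6) (nat_lit 292) (nat_lit 458) r10_292 r11_458 (nat_lit 0) (nat_lit 0) (nat_lit 0) (nat_lit 0x7dd14ded50) (nat_lit 1071240768),
  Rx.mk (nat_lit 206) (nat_lit 6) (nat_lit 1) (nat_lit 3) (nat_lit 7) (nat_lit 293) (nat_lit 465) r10_293 r11_465 (nat_lit 0) (nat_lit 0) (nat_lit 0) (nat_lit 0x7df4f75296) (nat_lit 1002863160),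
  Rx.mk (nat_lit 207) (nat_lit 7) (nat_lit 1) (nat_lit 3) (nat_lit 7) (nat_lit 294) (nat_lit 461) r10_294 r11_461 (nat_lit 0) (nat_lit 0) (nat_lit 0) (nat_lit 0x7df4cdb530) (nat_lit 1003174848),
  Rx.mk (nat_lit 212) (nat_lit 4) (nat_lit 2) (nat_lit 3) (nat_lit 6) (nat_lit 295) (nat_lit 459) r10_295 r11_459 (nat_lit 0) (nat_lit 0) (nat_lit 0) (nat_lit 0x7d8b3fce78) (nat_lit 1205564256),
  Rx.mk (nat_lit 215) (nat_lit 7) (nat_lit 2) (nat_lit 3) (nat_lit 7) (nat_lit 296) (nat_lit 462) r10_296 r11_462 (nat_lit 0) (nat_lit 0) (nat_lit 0) (nat_lit 0x7def628be8) (nat_lit 1013564448),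
  Rx.mk (nat_lit 454) (nat_lit 6) (nat_lit 0) (nat_lit 7) (nat_lit 5) (nat_lit 287) (nat_lit 464) r10_287 r11_464 (nat_lit 0) (nat_lit 0) (nat_lit 0) (nat_lit 0x7eeaa716a4) (nat_lit 531784656),
  Rx.mk (nat_lit 462) (nat_lit 6) (nat_lit 1) (nat_lit 7) (nat_lit 7) (nat_lit 291) (nat_lit 466) r10_291 r11_466 (nat_lit 0) (nat_lit 0) (nat_lit 0) (nat_lit 0x7ed7099090) (nat_lit 569395008),
  Rx.mk (nat_lit 478) (nat_lit 6) (nat_lit 3) (nat_lit 7) (nat_lit 7) (nat_lit 297) (nat_lit 467) r10_297 r11_467 (nat_lit 0) (nat_lit 0) (nat_lit 0) (nat_lit 0x7ed6cb5474) (nat_lit 569861136)]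
noncomputable def e50_33 : List Rx := [
  Rx.mk (nat_lit 144) (nat_lit 0) (nat_lit 2) (nat_lit 2) (nat_lit 6) (nat_lit 99) (nat_lit 217) r10_99 r0_217 (nat_lit 0) (nat_lit 0) (nat_lit 0) (nat_lit 0x7c2f7ecbe4) (nat_lit 1872346320),
  Rx.mk (nat_lit 147) (nat_lit 3) (nat_lit 2) (nat_lit 2) (nat_lit 7) (nat_lit 100) (nat_lit 218) r10_100 r0_218 (nat_lit 0) (nat_lit 0) (nat_lit 0) (nat_lit 0x7e0bdd0424) (nat_lit 958960080),
  Rx.mk (nat_lit 176) (nat_lit 0) (nat_lit 6) (nat_lit 2) (nat_lit 6) (nat_lit 96) (nat_lit 216) r10_96 r0_216 (nat_lit 0) (nat_lit 0) (nat_lit 0) (nat_lit 0x7de857fc98) (nat_lit 1027065312),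
  Rx.mk (nat_lit 290) (nat_lit 2) (nat_lit 4) (nat_lit 4) (nat_lit 1) (nat_lit 92) (nat_lit 219) r10_92 r0_219 (nat_lit 0) (nat_lit 0) (nat_lit 0) (nat_lit 0x4965c57a46) (nat_lit 26801801208),
  Rx.mk (nat_lit 294) (nat_lit 6) (nat_lit 4) (nat_lit 4) (nat_lit 1) (nat_lit 91) (nat_lit 212) r10_91 r0_212 (nat_lit 0) (nat_lit 0) (nat_lit 0) (nat_lit 0x41b494b504) (nat_lit 30577519440),
  Rx.mk (nat_lit 318) (nat_lit 6) (nat_lit 7) (nat_lit 4) (nat_lit 3) (nat_lit 97) (nat_lit 213) r10_97 r0_213 (nat_lit 0) (nat_lit 0) (nat_lit 0) (nat_lit 0x78034c9334) (nat_lit 3920501520),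
  Rx.mk (nat_lit 418) (nat_lit 2) (nat_lit 4) (nat_lit 6) (nat_lit 5) (nat_lit 93) (nat_lit 220) r10_93 r0_220 (nat_lit 0) (nat_lit 0) (nat_lit 0) (nat_lit 0x7d5dec63dc) (nat_lit 1292471856),
  Rx.mk (nat_lit 432) (nat_lit 0) (nat_lit 6) (nat_lit 6) (nat_lit 6) (nat_lit 94) (nat_lit 215) r10_94 r0_215 (nat_lit 0) (nat_lit 0) (nat_lit 0) (nat_lit 0x7d78b51736) (nat_lit 1241116344),
  Rx.mk (nat_lit 434) (nat_lit 2) (nat_lit 6) (nat_lit 6) (nat_lit 7) (nat_lit 95) (nat_lit 221) r10_95 r0_221 (nat_lit 0) (nat_lit 0) (nat_lit 0) (nat_lit 0x7e428d38ea) (nat_lit 854100936),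
  Rx.mk (nat_lit 510) (nat_lit 6) (nat_lit 7) (nat_lit 7) (nat_lit 7) (nat_lit 98) (nat_lit 214) r10_98 r0_214 (nat_lit 0) (nat_lit 0) (nat_lit 0) (nat_lit 0x7e314d2cfc) (nat_lit 887176368)]
noncomputable def e50_34 : List Rx := [
  Rx.mk (nat_lit 144) (nat_lit 0) (nat_lit 2) (nat_lit 2) (nat_lit 6) (nat_lit 0) (nat_lit 152) r10_0 r0_152 (nat_lit 0) (nat_lit 0) (nat_lit 0) (nat_lit 0x7e1794a89e) (nat_lit 936493272),
  Rx.mk (nat_lit 147) (nat_lit 3) (nat_lit 2) (nat_lit 2) (nat_lit 7) (nat_lit 1) (nat_lit 153) r10_1 r0_153 (nat_lit 0) (nat_lit 0) (nat_lit 0) (nat_lit 0x7df4465da6) (nat_lit 1004188536)]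
noncomputable def e50_35 : List Rx := [
  Rx.mk (nat_lit 144) (nat_lit 0) (nat_lit 2) (nat_lit 2) (nat_lit 6) (nat_lit 105) (nat_lit 276) r10_105 r6_276 (nat_lit 0) (nat_lit 0) (nat_lit 0) (nat_lit 0x7d9e0ce194) (nat_lit 1169515152),
  Rx.mk (nat_lit 147) (nat_lit 3) (nat_lit 2) (nat_lit 2) (nat_lit 7) (nat_lit 106) (nat_lit 277) r10_106 r6_277 (nat_lit 0) (nat_lit 0) (nat_lit 0) (nat_lit 0x7da1502d5c) (nat_lit 1163258928),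
  Rx.mk (nat_lit 176) (nat_lit 0) (nat_lit 6) (nat_lit 2) (nat_lit 6) (nat_lit 104) (nat_lit 275) r10_104 r6_275 (nat_lit 0) (nat_lit 0) (nat_lit 0) (nat_lit 0x7dd6555cd4) (nat_lit 1061598096),
  Rx.mk (nat_lit 418) (nat_lit 2) (nat_lit 4) (nat_lit 6) (nat_lit 5) (nat_lit 101) (nat_lit 278) r10_101 r6_278 (nat_lit 0) (nat_lit 0) (nat_lit 0) (nat_lit 0x7de93d0e46) (nat_lit 1025349624),
  Rx.mk (nat_lit 432) (nat_lit 0) (nat_lit 6) (nat_lit 6) (nat_lit 6) (nat_lit 102) (nat_lit 274) r10_102 r6_274 (nat_lit 0) (nat_lit 0) (nat_lit 0) (nat_lit 0x7d8f376efa) (nat_lit 1197957384),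
  Rx.mk (nat_lit 434) (nat_lit 2) (nat_lit 6) (nat_lit 6) (nat_lit 7) (nat_lit 103) (nat_lit 279) r10_103 r6_279 (nat_lit 0) (nat_lit 0) (nat_lit 0) (nat_lit 0x7df1366ea8) (nat_lit 1010060064)]
noncomputable def e50_36 : List Rx := [
  Rx.mk (nat_lit 145) (nat_lit 1) (nat_lit 2) (nat_lit 2) (nat_lit 7) (nat_lit 5) (nat_lit 167) r10_5 r2_167 (nat_lit 0) (nat_lit 0) (nat_lit 0) (nat_lit 0x7dd3702b2a) (nat_lit 1067149512)]
noncomputable def e50_37 : List Rx := [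
  Rx.mk (nat_lit 145) (nat_lit 1) (nat_lit 2) (nat_lit 2) (nat_lit 7) (nat_lit 124) (nat_lit 146) r10_124 r8_146 (nat_lit 0) (nat_lit 0) (nat_lit 0) (nat_lit 0x7df79428c6) (nat_lit 997853688),
  Rx.mk (nat_lit 177) (nat_lit 1) (nat_lit 6) (nat_lit 2) (nat_lit 7) (nat_lit 123) (nat_lit 147) r10_123 r8_147 (nat_lit 0) (nat_lit 0) (nat_lit 0) (nat_lit 0x7df5dba450) (nat_lit 1001153088)]
noncomputable def e50_38 : List Rx := [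
  Rx.mk (nat_lit 145) (nat_lit 1) (nat_lit 2) (nat_lit 2) (nat_lit 7) (nat_lit 164) (nat_lit 214) r10_164 r8_214 (nat_lit 0) (nat_lit 0) (nat_lit 0) (nat_lit 0x7df2523cea) (nat_lit 1007934408)]
noncomputable def e50_39 : List Rx := [
  Rx.mk (nat_lit 144) (nat_lit 0) (nat_lit 2) (nat_lit 2) (nat_lit 6) (nat_lit 2) (nat_lit 166) r10_2 r1_166 (nat_lit 0) (nat_lit 0) (nat_lit 0) (nat_lit 0x7d62cfd5a0) (nat_lit 1283098752),
  Rx.mk (nat_lit 145) (nat_lit 1) (nat_lit 2) (nat_lit 2) (nat_lit 7) (nat_lit 3) (nat_lit 167) r10_3 r1_167 (nat_lit 0) (nat_lit 0) (nat_lit 0) (nat_lit 0x7dfa55bcaa) (nat_lit 992569032),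
  Rx.mk (nat_lit 147) (nat_lit 3) (nat_lit 2) (nat_lit 2) (nat_lit 7) (nat_lit 4) (nat_lit 168) r10_4 r1_168 (nat_lit 0) (nat_lit 0) (nat_lit 0) (nat_lit 0x7ddc34bed8) (nat_lit 1050338016)]
noncomputable def e50_40 : List Rx := [
  Rx.mk (nat_lit 144) (nat_lit 0) (nat_lit 2) (nat_lit 2) (nat_lit 6) (nat_lit 120) (nat_lit 208) r10_120 r7_208 (nat_lit 0) (nat_lit 0) (nat_lit 0) (nat_lit 0x7da81b00a8) (nat_lit 1150235424),
  Rx.mk (nat_lit 145) (nat_lit 1) (nat_lit 2) (nat_lit 2) (nat_lit 7) (nat_lit 121) (nat_lit 211) r10_121 r7_211 (nat_lit 0) (nat_lit 0) (nat_lit 0) (nat_lit 0x7df45c7c44) (nat_lit 1004022864),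
  Rx.mk (nat_lit 147) (nat_lit 3) (nat_lit 2) (nat_lit 2) (nat_lit 7) (nat_lit 122) (nat_lit 212) r10_122 r7_212 (nat_lit 0) (nat_lit 0) (nat_lit 0) (nat_lit 0x7dd511d10e) (nat_lit 1064021400),
  Rx.mk (nat_lit 176) (nat_lit 0) (nat_lit 6) (nat_lit 2) (nat_lit 6) (nat_lit 118) (nat_lit 207) r10_118 r7_207 (nat_lit 0) (nat_lit 0) (nat_lit 0) (nat_lit 0x7dcad2f506) (nat_lit 1083666168),
  Rx.mk (nat_lit 177) (nat_lit 1) (nat_lit 6) (nat_lit 2) (nat_lit 7) (nat_lit 119) (nat_lit 210) r10_119 r7_210 (nat_lit 0) (nat_lit 0) (nat_lit 0) (nat_lit 0x7de6733ae6) (nat_lit 1030696056),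
  Rx.mk (nat_lit 432) (nat_lit 0) (nat_lit 6) (nat_lit 6) (nat_lit 6) (nat_lit 115) (nat_lit 206) r10_115 r7_206 (nat_lit 0) (nat_lit 0) (nat_lit 0) (nat_lit 0x7d7cc21662) (nat_lit 1233349416),
  Rx.mk (nat_lit 433) (nat_lit 1) (nat_lit 6) (nat_lit 6) (nat_lit 7) (nat_lit 116) (nat_lit 209) r10_116 r7_209 (nat_lit 0) (nat_lit 0) (nat_lit 0) (nat_lit 0x7deb46eda6) (nat_lit 1021440888),
  Rx.mk (nat_lit 434) (nat_lit 2) (nat_lit 6) (nat_lit 6) (nat_lit 7) (nat_lit 117) (nat_lit 213) r10_117 r7_213 (nat_lit 0) (nat_lit 0) (nat_lit 0) (nat_lit 0x7df08459ca) (nat_lit 1011393864)]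
noncomputable def e50_41 : List Rx := [
  Rx.mk (nat_lit 290) (nat_lit 2) (nat_lit 4) (nat_lit 4) (nat_lit 1) (nat_lit 108) (nat_lit 237) r10_108 r1_237 (nat_lit 0) (nat_lit 0) (nat_lit 0) (nat_lit 0x6afa16f398) (nat_lit 10319253984),
  Rx.mk (nat_lit 294) (nat_lit 6) (nat_lit 4) (nat_lit 4) (nat_lit 1) (nat_lit 107) (nat_lit 234) r10_107 r1_234 (nat_lit 0) (nat_lit 0) (nat_lit 0) (nat_lit 0x79f253e0d0) (nat_lit 2971335744),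
  Rx.mk (nat_lit 318) (nat_lit 6) (nat_lit 7) (nat_lit 4) (nat_lit 3) (nat_lit 111) (nat_lit 235) r10_111 r1_235 (nat_lit 0) (nat_lit 0) (nat_lit 0) (nat_lit 0x7de322cff0) (nat_lit 1037050560),
  Rx.mk (nat_lit 418) (nat_lit 2) (nat_lit 4) (nat_lit 6) (nat_lit 5) (nat_lit 109) (nat_lit 238) r10_109 r1_238 (nat_lit 0) (nat_lit 0) (nat_lit 0) (nat_lit 0x7dd597a8b0) (nat_lit 1063018944),
  Rx.mk (nat_lit 434) (nat_lit 2) (nat_lit 6) (nat_lit 6) (nat_lit 7) (nat_lit 110) (nat_lit 239) r10_110 r1_239 (nat_lit 0) (nat_lit 0) (nat_lit 0) (nat_lit 0x7de4773aa8) (nat_lit 1034500896),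
  Rx.mk (nat_lit 510) (nat_lit 6) (nat_lit 7) (nat_lit 7) (nat_lit 7) (nat_lit 112) (nat_lit 236) r10_112 r1_236 (nat_lit 0) (nat_lit 0) (nat_lit 0) (nat_lit 0x7e36429da0) (nat_lit 877668480)]
noncomputable def e50_42 : List Rx := [
  Rx.mk (nat_lit 290) (nat_lit 2) (nat_lit 4) (nat_lit 4) (nat_lit 1) (nat_lit 309) (nat_lit 246) r10_309 r2_246 (nat_lit 0) (nat_lit 0) (nat_lit 0) (nat_lit 0x66e4917006) (nat_lit 12323932920),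
  Rx.mk (nat_lit 294) (nat_lit 6) (nat_lit 4) (nat_lit 4) (nat_lit 1) (nat_lit 308) (nat_lit 241) r10_308 r2_241 (nat_lit 0) (nat_lit 0) (nat_lit 0) (nat_lit 0x6a7892cc5c) (nat_lit 10567587888),
  Rx.mk (nat_lit 298) (nat_lit 2) (nat_lit 5) (nat_lit 4) (nat_lit 3) (nat_lit 313) (nat_lit 247) r10_313 r2_247 (nat_lit 0) (nat_lit 0) (nat_lit 0) (nat_lit 0x7dd88cf958) (nat_lit 1057346784),
  Rx.mk (nat_lit 302) (nat_lit 6) (nat_lit 5) (nat_lit 4) (nat_lit 3) (nat_lit 312) (nat_lit 242) r10_312 r2_242 (nat_lit 0) (nat_lit 0) (nat_lit 0) (nat_lit 0x7dda7c9a5c) (nat_lit 1053634608),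
  Rx.mk (nat_lit 418) (nat_lit 2) (nat_lit 4) (nat_lit 6) (nat_lit 5) (nat_lit 310) (nat_lit 248) r10_310 r2_248 (nat_lit 0) (nat_lit 0) (nat_lit 0) (nat_lit 0x7dd287b9b2) (nat_lit 1068890472),
  Rx.mk (nat_lit 426) (nat_lit 2) (nat_lit 5) (nat_lit 6) (nat_lit 7) (nat_lit 314) (nat_lit 249) r10_314 r2_249 (nat_lit 0) (nat_lit 0) (nat_lit 0) (nat_lit 0x7dd90551d2) (nat_lit 1056445416),
  Rx.mk (nat_lit 434) (nat_lit 2) (nat_lit 6) (nat_lit 6) (nat_lit 7) (nat_lit 316) (nat_lit 250) r10_316 r2_250 (nat_lit 0) (nat_lit 0) (nat_lit 0) (nat_lit 0x7df6d8b47e) (nat_lit 999257688),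
  Rx.mk (nat_lit 486) (nat_lit 6) (nat_lit 4) (nat_lit 7) (nat_lit 5) (nat_lit 311) (nat_lit 243) r10_311 r2_243 (nat_lit 0) (nat_lit 0) (nat_lit 0) (nat_lit 0x7dc32e4f58) (nat_lit 1098321120),
  Rx.mk (nat_lit 494) (nat_lit 6) (nat_lit 5) (nat_lit 7) (nat_lit 7) (nat_lit 315) (nat_lit 244) r10_315 r2_244 (nat_lit 0) (nat_lit 0) (nat_lit 0) (nat_lit 0x7de6ab7762) (nat_lit 1030274856),
  Rx.mk (nat_lit 510) (nat_lit 6) (nat_lit 7) (nat_lit 7) (nat_lit 7) (nat_lit 317) (nat_lit 245) r10_317 r2_245 (nat_lit 0) (nat_lit 0) (nat_lit 0) (nat_lit 0x7df7510cf8) (nat_lit 998356320)]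
noncomputable def e50_43 : List Rx := [
  Rx.mk (nat_lit 418) (nat_lit 2) (nat_lit 4) (nat_lit 6) (nat_lit 5) (nat_lit 113) (nat_lit 157) r10_113 r7_157 (nat_lit 0) (nat_lit 0) (nat_lit 0) (nat_lit 0x7dd4373eb8) (nat_lit 1065658464),
  Rx.mk (nat_lit 434) (nat_lit 2) (nat_lit 6) (nat_lit 6) (nat_lit 7) (nat_lit 114) (nat_lit 158) r10_114 r7_158 (nat_lit 0) (nat_lit 0) (nat_lit 0) (nat_lit 0x7deba267ee) (nat_lit 1020755736)]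
noncomputable def e50_44 : List Rx := [
  Rx.mk (nat_lit 418) (nat_lit 2) (nat_lit 4) (nat_lit 6) (nat_lit 5) (nat_lit 330) (nat_lit 216) r10_330 r8_216 (nat_lit 0) (nat_lit 0) (nat_lit 0) (nat_lit 0x7dca825a10) (nat_lit 1084269888),
  Rx.mk (nat_lit 426) (nat_lit 2) (nat_lit 5) (nat_lit 6) (nat_lit 7) (nat_lit 331) (nat_lit 217) r10_331 r8_217 (nat_lit 0) (nat_lit 0) (nat_lit 0) (nat_lit 0x7dde527cfa) (nat_lit 1046280456),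
  Rx.mk (nat_lit 434) (nat_lit 2) (nat_lit 6) (nat_lit 6) (nat_lit 7) (nat_lit 332) (nat_lit 218) r10_332 r8_218 (nat_lit 0) (nat_lit 0) (nat_lit 0) (nat_lit 0x7de88a996e) (nat_lit 1026686232)]
noncomputable def e50_45 : List Rx := [
  Rx.mk (nat_lit 290) (nat_lit 2) (nat_lit 4) (nat_lit 4) (nat_lit 1) (nat_lit 319) (nat_lit 229) r10_319 r8_229 (nat_lit 0) (nat_lit 0) (nat_lit 0) (nat_lit 0x76844a04dc) (nat_lit 4654883376),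
  Rx.mk (nat_lit 294) (nat_lit 6) (nat_lit 4) (nat_lit 4) (nat_lit 1) (nat_lit 318) (nat_lit 231) r10_318 r8_231 (nat_lit 0) (nat_lit 0) (nat_lit 0) (nat_lit 0x74c5e86cb4) (nat_lit 5510773008),
  Rx.mk (nat_lit 298) (nat_lit 2) (nat_lit 5) (nat_lit 4) (nat_lit 3) (nat_lit 323) (nat_lit 230) r10_323 r8_230 (nat_lit 0) (nat_lit 0) (nat_lit 0) (nat_lit 0x7dd91db04c) (nat_lit 1056262896),
  Rx.mk (nat_lit 302) (nat_lit 6) (nat_lit 5) (nat_lit 4) (nat_lit 3) (nat_lit 322) (nat_lit 232) r10_322 r8_232 (nat_lit 0) (nat_lit 0) (nat_lit 0) (nat_lit 0x7de5ce4536) (nat_lit 1031931576),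
  Rx.mk (nat_lit 362) (nat_lit 2) (nat_lit 5) (nat_lit 5) (nat_lit 7) (nat_lit 325) (nat_lit 233) r10_325 r8_233 (nat_lit 0) (nat_lit 0) (nat_lit 0) (nat_lit 0x7df5994876) (nat_lit 1001650104),
  Rx.mk (nat_lit 366) (nat_lit 6) (nat_lit 5) (nat_lit 5) (nat_lit 7) (nat_lit 324) (nat_lit 234) r10_324 r8_234 (nat_lit 0) (nat_lit 0) (nat_lit 0) (nat_lit 0x7deef3f2d2) (nat_lit 1014392808),
  Rx.mk (nat_lit 418) (nat_lit 2) (nat_lit 4) (nat_lit 6) (nat_lit 5) (nat_lit 320) (nat_lit 238) r10_320 r8_238 (nat_lit 0) (nat_lit 0) (nat_lit 0) (nat_lit 0x7db5be8662) (nat_lit 1124084520),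
  Rx.mk (nat_lit 426) (nat_lit 2) (nat_lit 5) (nat_lit 6) (nat_lit 7) (nat_lit 326) (nat_lit 239) r10_326 r8_239 (nat_lit 0) (nat_lit 0) (nat_lit 0) (nat_lit 0x7df0180090) (nat_lit 1012205376),
  Rx.mk (nat_lit 434) (nat_lit 2) (nat_lit 6) (nat_lit 6) (nat_lit 7) (nat_lit 328) (nat_lit 240) r10_328 r8_240 (nat_lit 0) (nat_lit 0) (nat_lit 0) (nat_lit 0x7df39d4838) (nat_lit 1005454944),
  Rx.mk (nat_lit 486) (nat_lit 6) (nat_lit 4) (nat_lit 7) (nat_lit 5) (nat_lit 321) (nat_lit 235) r10_321 r8_235 (nat_lit 0) (nat_lit 0) (nat_lit 0) (nat_lit 0x7de41b006c) (nat_lit 1035191664),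
  Rx.mk (nat_lit 494) (nat_lit 6) (nat_lit 5) (nat_lit 7) (nat_lit 7) (nat_lit 327) (nat_lit 236) r10_327 r8_236 (nat_lit 0) (nat_lit 0) (nat_lit 0) (nat_lit 0x7dcf8f693a) (nat_lit 1074585096),
  Rx.mk (nat_lit 510) (nat_lit 6) (nat_lit 7) (nat_lit 7) (nat_lit 7) (nat_lit 329) (nat_lit 237) r10_329 r8_237 (nat_lit 0) (nat_lit 0) (nat_lit 0) (nat_lit 0x7df16d2b3c) (nat_lit 1009650096)]
noncomputable def e50_46 : List Rx := [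
  Rx.mk (nat_lit 147) (nat_lit 3) (nat_lit 2) (nat_lit 2) (nat_lit 7) (nat_lit 135) (nat_lit 211) r10_135 r4_211 (nat_lit 0) (nat_lit 0) (nat_lit 0) (nat_lit 0x7df1c665a8) (nat_lit 1008981792),
  Rx.mk (nat_lit 176) (nat_lit 0) (nat_lit 6) (nat_lit 2) (nat_lit 6) (nat_lit 129) (nat_lit 209) r10_129 r4_209 (nat_lit 0) (nat_lit 0) (nat_lit 0) (nat_lit 0x757b9df0a6) (nat_lit 5162364792),
  Rx.mk (nat_lit 179) (nat_lit 3) (nat_lit 6) (nat_lit 2) (nat_lit 7) (nat_lit 130) (nat_lit 210) r10_130 r4_210 (nat_lit 0) (nat_lit 0) (nat_lit 0) (nat_lit 0x7e50fdd1d2) (nat_lit 826414056),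
  Rx.mk (nat_lit 290) (nat_lit 2) (nat_lit 4) (nat_lit 4) (nat_lit 1) (nat_lit 125) (nat_lit 212) r10_125 r4_212 (nat_lit 0) (nat_lit 0) (nat_lit 0) (nat_lit 0x704a4c6af0) (nat_lit 7711194816),
  Rx.mk (nat_lit 314) (nat_lit 2) (nat_lit 7) (nat_lit 4) (nat_lit 3) (nat_lit 132) (nat_lit 213) r10_132 r4_213 (nat_lit 0) (nat_lit 0) (nat_lit 0) (nat_lit 0x77d5fc8862) (nat_lit 4007383848),
  Rx.mk (nat_lit 318) (nat_lit 6) (nat_lit 7) (nat_lit 4) (nat_lit 3) (nat_lit 131) (nat_lit 205) r10_131 r4_205 (nat_lit 0) (nat_lit 0) (nat_lit 0) (nat_lit 0x7227e22fb6) (nat_lit 6795475128),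
  Rx.mk (nat_lit 418) (nat_lit 2) (nat_lit 4) (nat_lit 6) (nat_lit 5) (nat_lit 126) (nat_lit 214) r10_126 r4_214 (nat_lit 0) (nat_lit 0) (nat_lit 0) (nat_lit 0x7bb067ddd2) (nat_lit 2116027368),
  Rx.mk (nat_lit 432) (nat_lit 0) (nat_lit 6) (nat_lit 6) (nat_lit 6) (nat_lit 127) (nat_lit 208) r10_127 r4_208 (nat_lit 0) (nat_lit 0) (nat_lit 0) (nat_lit 0x72c34b188c) (nat_lit 6497492976),
  Rx.mk (nat_lit 434) (nat_lit 2) (nat_lit 6) (nat_lit 6) (nat_lit 7) (nat_lit 128) (nat_lit 216) r10_128 r4_216 (nat_lit 0) (nat_lit 0) (nat_lit 0) (nat_lit 0x7d9fcc8598) (nat_lit 1166162400),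
  Rx.mk (nat_lit 442) (nat_lit 2) (nat_lit 7) (nat_lit 6) (nat_lit 7) (nat_lit 133) (nat_lit 215) r10_133 r4_215 (nat_lit 0) (nat_lit 0) (nat_lit 0) (nat_lit 0x7e0de80372) (nat_lit 955042920),
  Rx.mk (nat_lit 478) (nat_lit 6) (nat_lit 3) (nat_lit 7) (nat_lit 7) (nat_lit 136) (nat_lit 207) r10_136 r4_207 (nat_lit 0) (nat_lit 0) (nat_lit 0) (nat_lit 0x7e23aee6ee) (nat_lit 913287960),
  Rx.mk (nat_lit 510) (nat_lit 6) (nat_lit 7) (nat_lit 7) (nat_lit 7) (nat_lit 134) (nat_lit 206) r10_134 r4_206 (nat_lit 0) (nat_lit 0) (nat_lit 0) (nat_lit 0x7dc3644bf8) (nat_lit 1097916768)]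
noncomputable def e50_47 : List Rx := [
  Rx.mk (nat_lit 147) (nat_lit 3) (nat_lit 2) (nat_lit 2) (nat_lit 7) (nat_lit 8) (nat_lit 143) r10_8 r4_143 (nat_lit 0) (nat_lit 0) (nat_lit 0) (nat_lit 0x7dd7d8a49e) (nat_lit 1058697432)]
noncomputable def e50_48 : List Rx := [
  Rx.mk (nat_lit 147) (nat_lit 3) (nat_lit 2) (nat_lit 2) (nat_lit 7) (nat_lit 143) (nat_lit 221) r10_143 r9_221 (nat_lit 0) (nat_lit 0) (nat_lit 0) (nat_lit 0x7dd40501dc) (nat_lit 1066034736),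
  Rx.mk (nat_lit 176) (nat_lit 0) (nat_lit 6) (nat_lit 2) (nat_lit 6) (nat_lit 140) (nat_lit 219) r10_140 r9_219 (nat_lit 0) (nat_lit 0) (nat_lit 0) (nat_lit 0x7dcfb546dc) (nat_lit 1074301488),
  Rx.mk (nat_lit 179) (nat_lit 3) (nat_lit 6) (nat_lit 2) (nat_lit 7) (nat_lit 141) (nat_lit 220) r10_141 r9_220 (nat_lit 0) (nat_lit 0) (nat_lit 0) (nat_lit 0x7dfd420de2) (nat_lit 986964264),
  Rx.mk (nat_lit 418) (nat_lit 2) (nat_lit 4) (nat_lit 6) (nat_lit 5) (nat_lit 137) (nat_lit 222) r10_137 r9_222 (nat_lit 0) (nat_lit 0) (nat_lit 0) (nat_lit 0x7df2fc7246) (nat_lit 1006659576),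
  Rx.mk (nat_lit 432) (nat_lit 0) (nat_lit 6) (nat_lit 6) (nat_lit 6) (nat_lit 138) (nat_lit 218) r10_138 r9_218 (nat_lit 0) (nat_lit 0) (nat_lit 0) (nat_lit 0x7dcdcae584) (nat_lit 1077974352),
  Rx.mk (nat_lit 434) (nat_lit 2) (nat_lit 6) (nat_lit 6) (nat_lit 7) (nat_lit 139) (nat_lit 224) r10_139 r9_224 (nat_lit 0) (nat_lit 0) (nat_lit 0) (nat_lit 0x7df79428c6) (nat_lit 997853688),
  Rx.mk (nat_lit 442) (nat_lit 2) (nat_lit 7) (nat_lit 6) (nat_lit 7) (nat_lit 142) (nat_lit 223) r10_142 r9_223 (nat_lit 0) (nat_lit 0) (nat_lit 0) (nat_lit 0x7df03efe20) (nat_lit 1011913344)]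
noncomputable def e50_49 : List Rx := []
noncomputable def e50_50 : List Rx := [
  Rx.mk (nat_lit 7) (nat_lit 7) (nat_lit 0) (nat_lit 0) (nat_lit 1) (nat_lit 154) (nat_lit 144) r10_154 r10_144 (nat_lit 0) (nat_lit 0) (nat_lit 0) (nat_lit 0x5b3d173352) (nat_lit 18044441064),
  Rx.mk (nat_lit 23) (nat_lit 7) (nat_lit 2) (nat_lit 0) (nat_lit 3) (nat_lit 156) (nat_lit 150) r10_156 r10_150 (nat_lit 0) (nat_lit 0) (nat_lit 0) (nat_lit 0x7b7fa54a2c) (nat_lit 2209519728),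
  Rx.mk (nat_lit 147) (nat_lit 3) (nat_lit 2) (nat_lit 2) (nat_lit 7) (nat_lit 158) (nat_lit 152) r10_158 r10_152 (nat_lit 0) (nat_lit 0) (nat_lit 0) (nat_lit 0x77e99d6e40) (nat_lit 3969748224),
  Rx.mk (nat_lit 151) (nat_lit 7) (nat_lit 2) (nat_lit 2) (nat_lit 7) (nat_lit 157) (nat_lit 153) r10_157 r10_153 (nat_lit 0) (nat_lit 0) (nat_lit 0) (nat_lit 0x7d97b22746) (nat_lit 1181699064),
  Rx.mk (nat_lit 179) (nat_lit 3) (nat_lit 6) (nat_lit 2) (nat_lit 7) (nat_lit 149) (nat_lit 160) r10_149 r10_160 (nat_lit 0) (nat_lit 0) (nat_lit 0) (nat_lit 0x7d4d14f164) (nat_lit 1324763856),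
  Rx.mk (nat_lit 199) (nat_lit 7) (nat_lit 0) (nat_lit 3) (nat_lit 5) (nat_lit 155) (nat_lit 145) r10_155 r10_145 (nat_lit 0) (nat_lit 0) (nat_lit 0) (nat_lit 0x7a843d21aa) (nat_lit 2691566280),
  Rx.mk (nat_lit 215) (nat_lit 7) (nat_lit 2) (nat_lit 3) (nat_lit 7) (nat_lit 159) (nat_lit 151) r10_159 r10_151 (nat_lit 0) (nat_lit 0) (nat_lit 0) (nat_lit 0x7e01d184e6) (nat_lit 978220152),
  Rx.mk (nat_lit 220) (nat_lit 4) (nat_lit 3) (nat_lit 3) (nat_lit 6) (nat_lit 161) (nat_lit 146) r10_161 r10_146 (nat_lit 0) (nat_lit 0) (nat_lit 0) (nat_lit 0x78062ec50e) (nat_lit 3914972568),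
  Rx.mk (nat_lit 222) (nat_lit 6) (nat_lit 3) (nat_lit 3) (nat_lit 7) (nat_lit 162) (nat_lit 148) r10_162 r10_148 (nat_lit 0) (nat_lit 0) (nat_lit 0) (nat_lit 0x7d31852a7c) (nat_lit 1377610416),
  Rx.mk (nat_lit 223) (nat_lit 7) (nat_lit 3) (nat_lit 3) (nat_lit 7) (nat_lit 163) (nat_lit 147) r10_163 r10_147 (nat_lit 0) (nat_lit 0) (nat_lit 0) (nat_lit 0x7d37d32596) (nat_lit 1365521976),
  Rx.mk (nat_lit 290) (nat_lit 2) (nat_lit 4) (nat_lit 4) (nat_lit 1) (nat_lit 144) (nat_lit 154) r10_144 r10_154 (nat_lit 0) (nat_lit 0) (nat_lit 0) (nat_lit 0x5b3d173352) (nat_lit 18044441064),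
  Rx.mk (nat_lit 314) (nat_lit 2) (nat_lit 7) (nat_lit 4) (nat_lit 3) (nat_lit 150) (nat_lit 156) r10_150 r10_156 (nat_lit 0) (nat_lit 0) (nat_lit 0) (nat_lit 0x7b7fa54a2c) (nat_lit 2209519728),
  Rx.mk (nat_lit 418) (nat_lit 2) (nat_lit 4) (nat_lit 6) (nat_lit 5) (nat_lit 145) (nat_lit 155) r10_145 r10_155 (nat_lit 0) (nat_lit 0) (nat_lit 0) (nat_lit 0x7a843d21aa) (nat_lit 2691566280),
  Rx.mk (nat_lit 432) (nat_lit 0) (nat_lit 6) (nat_lit 6) (nat_lit 6) (nat_lit 146) (nat_lit 161) r10_146 r10_161 (nat_lit 0) (nat_lit 0) (nat_lit 0) (nat_lit 0x78062ec50e) (nat_lit 3914972568),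
  Rx.mk (nat_lit 434) (nat_lit 2) (nat_lit 6) (nat_lit 6) (nat_lit 7) (nat_lit 147) (nat_lit 163) r10_147 r10_163 (nat_lit 0) (nat_lit 0) (nat_lit 0) (nat_lit 0x7d37d32596) (nat_lit 1365521976),
  Rx.mk (nat_lit 435) (nat_lit 3) (nat_lit 6) (nat_lit 6) (nat_lit 7) (nat_lit 148) (nat_lit 162) r10_148 r10_162 (nat_lit 0) (nat_lit 0) (nat_lit 0) (nat_lit 0x7d31852a7c) (nat_lit 1377610416),
  Rx.mk (nat_lit 442) (nat_lit 2) (nat_lit 7) (nat_lit 6) (nat_lit 7) (nat_lit 151) (nat_lit 159) r10_151 r10_159 (nat_lit 0) (nat_lit 0) (nat_lit 0) (nat_lit 0x7e01d184e6) (nat_lit 978220152),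
  Rx.mk (nat_lit 478) (nat_lit 6) (nat_lit 3) (nat_lit 7) (nat_lit 7) (nat_lit 160) (nat_lit 149) r10_160 r10_149 (nat_lit 0) (nat_lit 0) (nat_lit 0) (nat_lit 0x7d4d14f164) (nat_lit 1324763856),
  Rx.mk (nat_lit 506) (nat_lit 2) (nat_lit 7) (nat_lit 7) (nat_lit 7) (nat_lit 153) (nat_lit 157) r10_153 r10_157 (nat_lit 0) (nat_lit 0) (nat_lit 0) (nat_lit 0x7d97b22746) (nat_lit 1181699064),
  Rx.mk (nat_lit 510) (nat_lit 6) (nat_lit 7) (nat_lit 7) (nat_lit 7) (nat_lit 152) (nat_lit 158) r10_152 r10_158 (nat_lit 0) (nat_lit 0) (nat_lit 0) (nat_lit 0x77e99d6e40) (nat_lit 3969748224)]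
noncomputable def e50_51 : List Rx := [
  Rx.mk (nat_lit 196) (nat_lit 4) (nat_lit 0) (nat_lit 3) (nat_lit 4) (nat_lit 273) (nat_lit 315) r10_273 r12_315 (nat_lit 0) (nat_lit 0) (nat_lit 0) (nat_lit 0x771b6bd228) (nat_lit 4365103392),
  Rx.mk (nat_lit 197) (nat_lit 5) (nat_lit 0) (nat_lit 3) (nat_lit 5) (nat_lit 274) (nat_lit 318) r10_274 r12_318 (nat_lit 0) (nat_lit 0) (nat_lit 0) (nat_lit 0x7d6315f13e) (nat_lit 1282573656),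
  Rx.mk (nat_lit 198) (nat_lit 6) (nat_lit 0) (nat_lit 3) (nat_lit 5) (nat_lit 275) (nat_lit 321) r10_275 r12_321 (nat_lit 0) (nat_lit 0) (nat_lit 0) (nat_lit 0x7dd6261fc8) (nat_lit 1061951904),
  Rx.mk (nat_lit 204) (nat_lit 4) (nat_lit 1) (nat_lit 3) (nat_lit 6) (nat_lit 276) (nat_lit 316) r10_276 r12_316 (nat_lit 0) (nat_lit 0) (nat_lit 0) (nat_lit 0x7d971a50c4) (nat_lit 1182836304),
  Rx.mk (nat_lit 205) (nat_lit 5) (nat_lit 1) (nat_lit 3) (nat_lit 7) (nat_lit 277) (nat_lit 319) r10_277 r12_319 (nat_lit 0) (nat_lit 0) (nat_lit 0) (nat_lit 0x7e00b1f6e0) (nat_lit 980373888),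
  Rx.mk (nat_lit 206) (nat_lit 6) (nat_lit 1) (nat_lit 3) (nat_lit 7) (nat_lit 278) (nat_lit 322) r10_278 r12_322 (nat_lit 0) (nat_lit 0) (nat_lit 0) (nat_lit 0x7ddda307f2) (nat_lit 1047594600),
  Rx.mk (nat_lit 212) (nat_lit 4) (nat_lit 2) (nat_lit 3) (nat_lit 6) (nat_lit 279) (nat_lit 317) r10_279 r12_317 (nat_lit 0) (nat_lit 0) (nat_lit 0) (nat_lit 0x7dea0ba15c) (nat_lit 1023802416),
  Rx.mk (nat_lit 213) (nat_lit 5) (nat_lit 2) (nat_lit 3) (nat_lit 7) (nat_lit 280) (nat_lit 320) r10_280 r12_320 (nat_lit 0) (nat_lit 0) (nat_lit 0) (nat_lit 0x7de5e7c39e) (nat_lit 1031740632)]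
noncomputable def e50_52 : List Rx := [
  Rx.mk (nat_lit 462) (nat_lit 6) (nat_lit 1) (nat_lit 7) (nat_lit 7) (nat_lit 356) (nat_lit 309) r10_356 r12_309 (nat_lit 0) (nat_lit 0) (nat_lit 0) (nat_lit 0x7f0597e77c) (nat_lit 480128688)]
noncomputable def e50_53 : List Rx := [
  Rx.mk (nat_lit 4) (nat_lit 4) (nat_lit 0) (nat_lit 0) (nat_lit 0) (nat_lit 68) (nat_lit 202) r10_68 r12_202 (nat_lit 0) (nat_lit 0) (nat_lit 0) (nat_lit 0x4f8256cb14) (nat_lit 23801905296),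
  Rx.mk (nat_lit 5) (nat_lit 5) (nat_lit 0) (nat_lit 0) (nat_lit 1) (nat_lit 69) (nat_lit 203) r10_69 r12_203 (nat_lit 0) (nat_lit 0) (nat_lit 0) (nat_lit 0x77191ff6e8) (nat_lit 4369506336),
  Rx.mk (nat_lit 6) (nat_lit 6) (nat_lit 0) (nat_lit 0) (nat_lit 1) (nat_lit 70) (nat_lit 205) r10_70 r12_205 (nat_lit 0) (nat_lit 0) (nat_lit 0) (nat_lit 0x749a460706) (nat_lit 5594437368),
  Rx.mk (nat_lit 7) (nat_lit 7) (nat_lit 0) (nat_lit 0) (nat_lit 1) (nat_lit 71) (nat_lit 204) r10_71 r12_204 (nat_lit 0) (nat_lit 0) (nat_lit 0) (nat_lit 0x71d4c381f4) (nat_lit 6954848784),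
  Rx.mk (nat_lit 12) (nat_lit 4) (nat_lit 1) (nat_lit 0) (nat_lit 2) (nat_lit 75) (nat_lit 206) r10_75 r12_206 (nat_lit 0) (nat_lit 0) (nat_lit 0) (nat_lit 0x762668e34c) (nat_lit 4834887408),
  Rx.mk (nat_lit 14) (nat_lit 6) (nat_lit 1) (nat_lit 0) (nat_lit 3) (nat_lit 76) (nat_lit 208) r10_76 r12_208 (nat_lit 0) (nat_lit 0) (nat_lit 0) (nat_lit 0x7df4fc9242) (nat_lit 1002823848),
  Rx.mk (nat_lit 15) (nat_lit 7) (nat_lit 1) (nat_lit 0) (nat_lit 3) (nat_lit 77) (nat_lit 207) r10_77 r12_207 (nat_lit 0) (nat_lit 0) (nat_lit 0) (nat_lit 0x7de5630bea) (nat_lit 1032734664),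
  Rx.mk (nat_lit 20) (nat_lit 4) (nat_lit 2) (nat_lit 0) (nat_lit 2) (nat_lit 80) (nat_lit 209) r10_80 r12_209 (nat_lit 0) (nat_lit 0) (nat_lit 0) (nat_lit 0x76d6a79eb0) (nat_lit 4496955840),
  Rx.mk (nat_lit 21) (nat_lit 5) (nat_lit 2) (nat_lit 0) (nat_lit 3) (nat_lit 81) (nat_lit 210) r10_81 r12_210 (nat_lit 0) (nat_lit 0) (nat_lit 0) (nat_lit 0x7dd00b217e) (nat_lit 1073658456),
  Rx.mk (nat_lit 23) (nat_lit 7) (nat_lit 2) (nat_lit 0) (nat_lit 3) (nat_lit 82) (nat_lit 211) r10_82 r12_211 (nat_lit 0) (nat_lit 0) (nat_lit 0) (nat_lit 0x7dc3830a0c) (nat_lit 1097686512),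
  Rx.mk (nat_lit 148) (nat_lit 4) (nat_lit 2) (nat_lit 2) (nat_lit 6) (nat_lit 83) (nat_lit 222) r10_83 r12_222 (nat_lit 0) (nat_lit 0) (nat_lit 0) (nat_lit 0x7d8a287fee) (nat_lit 1207656216),
  Rx.mk (nat_lit 149) (nat_lit 5) (nat_lit 2) (nat_lit 2) (nat_lit 7) (nat_lit 84) (nat_lit 223) r10_84 r12_223 (nat_lit 0) (nat_lit 0) (nat_lit 0) (nat_lit 0x7ddcad774c) (nat_lit 1049433840),
  Rx.mk (nat_lit 151) (nat_lit 7) (nat_lit 2) (nat_lit 2) (nat_lit 7) (nat_lit 85) (nat_lit 224) r10_85 r12_224 (nat_lit 0) (nat_lit 0) (nat_lit 0) (nat_lit 0x7ddf540ce0) (nat_lit 1044351360),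
  Rx.mk (nat_lit 196) (nat_lit 4) (nat_lit 0) (nat_lit 3) (nat_lit 4) (nat_lit 72) (nat_lit 212) r10_72 r12_212 (nat_lit 0) (nat_lit 0) (nat_lit 0) (nat_lit 0x6f899876f0) (nat_lit 8080682688),
  Rx.mk (nat_lit 197) (nat_lit 5) (nat_lit 0) (nat_lit 3) (nat_lit 5) (nat_lit 73) (nat_lit 213) r10_73 r12_213 (nat_lit 0) (nat_lit 0) (nat_lit 0) (nat_lit 0x7dc0395eaa) (nat_lit 1103990472),
  Rx.mk (nat_lit 198) (nat_lit 6) (nat_lit 0) (nat_lit 3) (nat_lit 5) (nat_lit 74) (nat_lit 214) r10_74 r12_214 (nat_lit 0) (nat_lit 0) (nat_lit 0) (nat_lit 0x7df140ee00) (nat_lit 1009981440),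
  Rx.mk (nat_lit 204) (nat_lit 4) (nat_lit 1) (nat_lit 3) (nat_lit 6) (nat_lit 78) (nat_lit 215) r10_78 r12_215 (nat_lit 0) (nat_lit 0) (nat_lit 0) (nat_lit 0x7e21a6277c) (nat_lit 917188272),
  Rx.mk (nat_lit 206) (nat_lit 6) (nat_lit 1) (nat_lit 3) (nat_lit 7) (nat_lit 79) (nat_lit 216) r10_79 r12_216 (nat_lit 0) (nat_lit 0) (nat_lit 0) (nat_lit 0x7df9596c70) (nat_lit 994458816),
  Rx.mk (nat_lit 212) (nat_lit 4) (nat_lit 2) (nat_lit 3) (nat_lit 6) (nat_lit 86) (nat_lit 220) r10_86 r12_220 (nat_lit 0) (nat_lit 0) (nat_lit 0) (nat_lit 0x7e1455dc8e) (nat_lit 942715800),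
  Rx.mk (nat_lit 213) (nat_lit 5) (nat_lit 2) (nat_lit 3) (nat_lit 7) (nat_lit 87) (nat_lit 221) r10_87 r12_221 (nat_lit 0) (nat_lit 0) (nat_lit 0) (nat_lit 0x7df712d0dc) (nat_lit 998822448),
  Rx.mk (nat_lit 220) (nat_lit 4) (nat_lit 3) (nat_lit 3) (nat_lit 6) (nat_lit 88) (nat_lit 217) r10_88 r12_217 (nat_lit 0) (nat_lit 0) (nat_lit 0) (nat_lit 0x7d77f5e32a) (nat_lit 1242548424),
  Rx.mk (nat_lit 221) (nat_lit 5) (nat_lit 3) (nat_lit 3) (nat_lit 7) (nat_lit 89) (nat_lit 218) r10_89 r12_218 (nat_lit 0) (nat_lit 0) (nat_lit 0) (nat_lit 0x7df35c0c4c) (nat_lit 1005943536),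
  Rx.mk (nat_lit 222) (nat_lit 6) (nat_lit 3) (nat_lit 3) (nat_lit 7) (nat_lit 90) (nat_lit 219) r10_90 r12_219 (nat_lit 0) (nat_lit 0) (nat_lit 0) (nat_lit 0x7df79428c6) (nat_lit 997853688)]
noncomputable def e50_54 : List Rx := [
  Rx.mk (nat_lit 270) (nat_lit 6) (nat_lit 1) (nat_lit 4) (nat_lit 3) (nat_lit 366) (nat_lit 240) r10_366 r12_240 (nat_lit 0) (nat_lit 0) (nat_lit 0) (nat_lit 0x7e373cadfe) (nat_lit 875795544),
  Rx.mk (nat_lit 462) (nat_lit 6) (nat_lit 1) (nat_lit 7) (nat_lit 7) (nat_lit 367) (nat_lit 241) r10_367 r12_241 (nat_lit 0) (nat_lit 0) (nat_lit 0) (nat_lit 0x7ee6adf63a) (nat_lit 539402760)]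
noncomputable def e50_55 : List Rx := [
  Rx.mk (nat_lit 147) (nat_lit 3) (nat_lit 2) (nat_lit 2) (nat_lit 7) (nat_lit 6) (nat_lit 212) r10_6 r3_212 (nat_lit 0) (nat_lit 0) (nat_lit 0) (nat_lit 0x7f829c56b8) (nat_lit 240420960),
  Rx.mk (nat_lit 478) (nat_lit 6) (nat_lit 3) (nat_lit 7) (nat_lit 7) (nat_lit 7) (nat_lit 211) r10_7 r3_211 (nat_lit 0) (nat_lit 0) (nat_lit 0) (nat_lit 0x7fc79746c4) (nat_lit 108158544)]
noncomputable def e50_56 : List Rx := [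
  Rx.mk (nat_lit 478) (nat_lit 6) (nat_lit 3) (nat_lit 7) (nat_lit 7) (nat_lit 265) (nat_lit 230) r10_265 r12_230 (nat_lit 0) (nat_lit 0) (nat_lit 0) (nat_lit 0x7ee7b225f6) (nat_lit 537454008)]
noncomputable def e50_57 : List Rx := [
  Rx.mk (nat_lit 7) (nat_lit 7) (nat_lit 0) (nat_lit 0) (nat_lit 1) (nat_lit 9) (nat_lit 140) r10_9 r12_140 (nat_lit 0) (nat_lit 0) (nat_lit 0) (nat_lit 0x73e77d9440) (nat_lit 5937235200),
  Rx.mk (nat_lit 23) (nat_lit 7) (nat_lit 2) (nat_lit 0) (nat_lit 3) (nat_lit 11) (nat_lit 146) r10_11 r12_146 (nat_lit 0) (nat_lit 0) (nat_lit 0) (nat_lit 0x7e9f0970ca) (nat_lit 676770120),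
  Rx.mk (nat_lit 147) (nat_lit 3) (nat_lit 2) (nat_lit 2) (nat_lit 7) (nat_lit 13) (nat_lit 148) r10_13 r12_148 (nat_lit 0) (nat_lit 0) (nat_lit 0) (nat_lit 0x7e96423d46) (nat_lit 693601272),
  Rx.mk (nat_lit 151) (nat_lit 7) (nat_lit 2) (nat_lit 2) (nat_lit 7) (nat_lit 12) (nat_lit 149) r10_12 r12_149 (nat_lit 0) (nat_lit 0) (nat_lit 0) (nat_lit 0x7e3496186a) (nat_lit 880878024),
  Rx.mk (nat_lit 199) (nat_lit 7) (nat_lit 0) (nat_lit 3) (nat_lit 5) (nat_lit 10) (nat_lit 141) r10_10 r12_141 (nat_lit 0) (nat_lit 0) (nat_lit 0) (nat_lit 0x7eaac05550) (nat_lit 654308928),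
  Rx.mk (nat_lit 215) (nat_lit 7) (nat_lit 2) (nat_lit 3) (nat_lit 7) (nat_lit 14) (nat_lit 147) r10_14 r12_147 (nat_lit 0) (nat_lit 0) (nat_lit 0) (nat_lit 0x7ec4817924) (nat_lit 604927440),
  Rx.mk (nat_lit 220) (nat_lit 4) (nat_lit 3) (nat_lit 3) (nat_lit 6) (nat_lit 16) (nat_lit 142) r10_16 r12_142 (nat_lit 0) (nat_lit 0) (nat_lit 0) (nat_lit 0x7d98a2d83a) (nat_lit 1179896328),
  Rx.mk (nat_lit 222) (nat_lit 6) (nat_lit 3) (nat_lit 3) (nat_lit 7) (nat_lit 17) (nat_lit 144) r10_17 r12_144 (nat_lit 0) (nat_lit 0) (nat_lit 0) (nat_lit 0x7e4ff8222e) (nat_lit 828374040),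
  Rx.mk (nat_lit 223) (nat_lit 7) (nat_lit 3) (nat_lit 3) (nat_lit 7) (nat_lit 18) (nat_lit 143) r10_18 r12_143 (nat_lit 0) (nat_lit 0) (nat_lit 0) (nat_lit 0x7e4d46ad48) (nat_lit 833537952),
  Rx.mk (nat_lit 478) (nat_lit 6) (nat_lit 3) (nat_lit 7) (nat_lit 7) (nat_lit 15) (nat_lit 145) r10_15 r12_145 (nat_lit 0) (nat_lit 0) (nat_lit 0) (nat_lit 0x7eaff8e1c2) (nat_lit 644298408)]
noncomputable def e50 : List (List Rx) := [e50_0, e50_1, e50_2, e50_3, e50_4, e50_5, e50_6, e50_7, e50_8, e50_9, e50_10, e50_11, e50_12, e50_13, e50_14, e50_15, e50_16, e50_17, e50_18, e50_19, e50_20, e50_21, e50_22, e50_23, e50_24, e50_25, e50_26, e50_27, e50_28, e50_29, e50_30, e50_31, e50_32, e50_33, e50_34, e50_35, e50_36, e50_37, e50_38, e50_39, e50_40, e50_41, e50_42, e50_43, e50_44, e50_45, e50_46, e50_47, e50_48, e50_49, e50_50, e50_51, e50_52, e50_53, e50_54,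 e50_55, e50_56, e50_57]
noncomputable def e51_0 : List Rx := [
  Rx.mk (nat_lit 18) (nat_lit 2) (nat_lit 2) (nat_lit 0) (nat_lit 3) (nat_lit 4) (nat_lit 65) r12_4 r0_65 (nat_lit 0) (nat_lit 0) (nat_lit 0) (nat_lit 0x720f3cda24) (nat_lit 6842730960),
  Rx.mk (nat_lit 22) (nat_lit 6) (nat_lit 2) (nat_lit 0) (nat_lit 3) (nat_lit 3) (nat_lit 68) r12_3 r0_68 (nat_lit 0) (nat_lit 0) (nat_lit 0) (nat_lit 0x75cf3f763a) (nat_lit 5002011144),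
  Rx.mk (nat_lit 54) (nat_lit 6) (nat_lit 6) (nat_lit 0) (nat_lit 3) (nat_lit 1) (nat_lit 69) r12_1 r0_69 (nat_lit 0) (nat_lit 0) (nat_lit 0) (nat_lit 0x71e33a1a7c) (nat_lit 6927116976),
  Rx.mk (nat_lit 180) (nat_lit 4) (nat_lit 6) (nat_lit 2) (nat_lit 6) (nat_lit 0) (nat_lit 67) r12_0 r0_67 (nat_lit 0) (nat_lit 0) (nat_lit 0) (nat_lit 0x765c6d02d4) (nat_lit 4731317136),
  Rx.mk (nat_lit 182) (nat_lit 6) (nat_lit 6) (nat_lit 2) (nat_lit 7) (nat_lit 2) (nat_lit 70) r12_2 r0_70 (nat_lit 0) (nat_lit 0) (nat_lit 0) (nat_lit 0x7690a69f06) (nat_lit 4631181048),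
  Rx.mk (nat_lit 210) (nat_lit 2) (nat_lit 2) (nat_lit 3) (nat_lit 7) (nat_lit 5) (nat_lit 66) r12_5 r0_66 (nat_lit 0) (nat_lit 0) (nat_lit 0) (nat_lit 0x7df1ba066e) (nat_lit 1009074456)]
noncomputable def e51_1 : List Rx := [
  Rx.mk (nat_lit 18) (nat_lit 2) (nat_lit 2) (nat_lit 0) (nat_lit 3) (nat_lit 11) (nat_lit 58) r12_11 r1_58 (nat_lit 0) (nat_lit 0) (nat_lit 0) (nat_lit 0x76758bd0ce) (nat_lit 4683151512),
  Rx.mk (nat_lit 22) (nat_lit 6) (nat_lit 2) (nat_lit 0) (nat_lit 3) (nat_lit 9) (nat_lit 61) r12_9 r1_61 (nat_lit 0) (nat_lit 0) (nat_lit 0) (nat_lit 0x7a959c4ba6) (nat_lit 2658257784),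
  Rx.mk (nat_lit 54) (nat_lit 6) (nat_lit 6) (nat_lit 0) (nat_lit 3) (nat_lit 6) (nat_lit 63) r12_6 r1_63 (nat_lit 0) (nat_lit 0) (nat_lit 0) (nat_lit 0x7a1cc1b9c8) (nat_lit 2889982368),
  Rx.mk (nat_lit 82) (nat_lit 2) (nat_lit 2) (nat_lit 1) (nat_lit 7) (nat_lit 12) (nat_lit 59) r12_12 r1_59 (nat_lit 0) (nat_lit 0) (nat_lit 0) (nat_lit 0x7e4f838978) (nat_lit 829247328),
  Rx.mk (nat_lit 86) (nat_lit 6) (nat_lit 2) (nat_lit 1) (nat_lit 7) (nat_lit 10) (nat_lit 62) r12_10 r1_62 (nat_lit 0) (nat_lit 0) (nat_lit 0) (nat_lit 0x7effe88278) (nat_lit 491029344),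
  Rx.mk (nat_lit 118) (nat_lit 6) (nat_lit 6) (nat_lit 1) (nat_lit 7) (nat_lit 7) (nat_lit 64) r12_7 r1_64 (nat_lit 0) (nat_lit 0) (nat_lit 0) (nat_lit 0x7e3ee0f3b2) (nat_lit 861143400),
  Rx.mk (nat_lit 182) (nat_lit 6) (nat_lit 6) (nat_lit 2) (nat_lit 7) (nat_lit 8) (nat_lit 65) r12_8 r1_65 (nat_lit 0) (nat_lit 0) (nat_lit 0) (nat_lit 0x7c03ca075c) (nat_lit 1956148272),
  Rx.mk (nat_lit 210) (nat_lit 2) (nat_lit 2) (nat_lit 3) (nat_lit 7) (nat_lit 13) (nat_lit 60) r12_13 r1_60 (nat_lit 0) (nat_lit 0) (nat_lit 0) (nat_lit 0x7d35e3e48c) (nat_lit 1369231344)]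
noncomputable def e51_2 : List Rx := [
  Rx.mk (nat_lit 82) (nat_lit 2) (nat_lit 2) (nat_lit 1) (nat_lit 7) (nat_lit 15) (nat_lit 57) r12_15 r2_57 (nat_lit 0) (nat_lit 0) (nat_lit 0) (nat_lit 0x7e3bb246a0) (nat_lit 867245184),
  Rx.mk (nat_lit 86) (nat_lit 6) (nat_lit 2) (nat_lit 1) (nat_lit 7) (nat_lit 14) (nat_lit 58) r12_14 r2_58 (nat_lit 0) (nat_lit 0) (nat_lit 0) (nat_lit 0x7df79428c6) (nat_lit 997853688)]
noncomputable def e51_3 : List Rx := [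
  Rx.mk (nat_lit 22) (nat_lit 6) (nat_lit 2) (nat_lit 0) (nat_lit 3) (nat_lit 19) (nat_lit 55) r12_19 r3_55 (nat_lit 0) (nat_lit 0) (nat_lit 0) (nat_lit 0x7b0082bcd4) (nat_lit 2453287824),
  Rx.mk (nat_lit 54) (nat_lit 6) (nat_lit 6) (nat_lit 0) (nat_lit 3) (nat_lit 17) (nat_lit 57) r12_17 r3_57 (nat_lit 0) (nat_lit 0) (nat_lit 0) (nat_lit 0x7fececd146) (nat_lit 36574200),
  Rx.mk (nat_lit 167) (nat_lit 7) (nat_lit 4) (nat_lit 2) (nat_lit 5) (nat_lit 22) (nat_lit 52) r12_22 r3_52 (nat_lit 0) (nat_lit 0) (nat_lit 0) (nat_lit 0x7735c94c36) (nat_lit 4314550968),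
  Rx.mk (nat_lit 180) (nat_lit 4) (nat_lit 6) (nat_lit 2) (nat_lit 6) (nat_lit 16) (nat_lit 51) r12_16 r3_51 (nat_lit 0) (nat_lit 0) (nat_lit 0) (nat_lit 0x8000000000) (nat_lit 0),
  Rx.mk (nat_lit 182) (nat_lit 6) (nat_lit 6) (nat_lit 2) (nat_lit 7) (nat_lit 18) (nat_lit 58) r12_18 r3_58 (nat_lit 0) (nat_lit 0) (nat_lit 0) (nat_lit 0x7d72006288) (nat_lit 1253974176),
  Rx.mk (nat_lit 183) (nat_lit 7) (nat_lit 6) (nat_lit 2) (nat_lit 7) (nat_lit 23) (nat_lit 54) r12_23 r3_54 (nat_lit 0) (nat_lit 0) (nat_lit 0) (nat_lit 0x7fbcc993aa) (nat_lit 128873160),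
  Rx.mk (nat_lit 210) (nat_lit 2) (nat_lit 2) (nat_lit 3) (nat_lit 7) (nat_lit 25) (nat_lit 50) r12_25 r3_50 (nat_lit 0) (nat_lit 0) (nat_lit 0) (nat_lit 0x7986b4fb2a) (nat_lit 3177687240),
  Rx.mk (nat_lit 214) (nat_lit 6) (nat_lit 2) (nat_lit 3) (nat_lit 7) (nat_lit 20) (nat_lit 56) r12_20 r3_56 (nat_lit 0) (nat_lit 0) (nat_lit 0) (nat_lit 0x7f69370d26) (nat_lit 289114488),
  Rx.mk (nat_lit 423) (nat_lit 7) (nat_lit 4) (nat_lit 6) (nat_lit 5) (nat_lit 21) (nat_lit 352) r12_21 r3_352 (nat_lit 0) (nat_lit 0) (nat_lit 0) (nat_lit 0x8000000000) (nat_lit 0),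
  Rx.mk (nat_lit 443) (nat_lit 3) (nat_lit 7) (nat_lit 6) (nat_lit 7) (nat_lit 26) (nat_lit 49) r12_26 r3_49 (nat_lit 0) (nat_lit 0) (nat_lit 0) (nat_lit 0x7e98a7f6e8) (nat_lit 689004576),
  Rx.mk (nat_lit 447) (nat_lit 7) (nat_lit 7) (nat_lit 6) (nat_lit 7) (nat_lit 24) (nat_lit 53) r12_24 r3_53 (nat_lit 0) (nat_lit 0) (nat_lit 0) (nat_lit 0x791d0196ca) (nat_lit 3380357448)]
noncomputable def e51_4 : List Rx := [
  Rx.mk (nat_lit 22) (nat_lit 6) (nat_lit 2) (nat_lit 0) (nat_lit 3) (nat_lit 30) (nat_lit 61) r12_30 r4_61 (nat_lit 0) (nat_lit 0) (nat_lit 0) (nat_lit 0x7e3684f97a) (nat_lit 877171464),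
  Rx.mk (nat_lit 54) (nat_lit 6) (nat_lit 6) (nat_lit 0) (nat_lit 3) (nat_lit 28) (nat_lit 63) r12_28 r4_63 (nat_lit 0) (nat_lit 0) (nat_lit 0) (nat_lit 0x7bf02e0130) (nat_lit 1993747392),
  Rx.mk (nat_lit 180) (nat_lit 4) (nat_lit 6) (nat_lit 2) (nat_lit 6) (nat_lit 27) (nat_lit 59) r12_27 r4_59 (nat_lit 0) (nat_lit 0) (nat_lit 0) (nat_lit 0x7e7c8d78ac) (nat_lit 742890096),
  Rx.mk (nat_lit 182) (nat_lit 6) (nat_lit 6) (nat_lit 2) (nat_lit 7) (nat_lit 29) (nat_lit 64) r12_29 r4_64 (nat_lit 0) (nat_lit 0) (nat_lit 0) (nat_lit 0x7d62493e0a) (nat_lit 1284106824),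
  Rx.mk (nat_lit 183) (nat_lit 7) (nat_lit 6) (nat_lit 2) (nat_lit 7) (nat_lit 32) (nat_lit 60) r12_32 r4_60 (nat_lit 0) (nat_lit 0) (nat_lit 0) (nat_lit 0x7edd36edb4) (nat_lit 557550864),
  Rx.mk (nat_lit 210) (nat_lit 2) (nat_lit 2) (nat_lit 3) (nat_lit 7) (nat_lit 33) (nat_lit 58) r12_33 r4_58 (nat_lit 0) (nat_lit 0) (nat_lit 0) (nat_lit 0x7e581e7fc0) (nat_lit 812747520),
  Rx.mk (nat_lit 214) (nat_lit 6) (nat_lit 2) (nat_lit 3) (nat_lit 7) (nat_lit 31) (nat_lit 62) r12_31 r4_62 (nat_lit 0) (nat_lit 0) (nat_lit 0) (nat_lit 0x7eac08c0c8) (nat_lit 651849120)]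
noncomputable def e51_5 : List Rx := [
  Rx.mk (nat_lit 258) (nat_lit 2) (nat_lit 0) (nat_lit 4) (nat_lit 1) (nat_lit 55) (nat_lit 80) r12_55 r3_80 (nat_lit 0) (nat_lit 0) (nat_lit 0) (nat_lit 0x8000000000) (nat_lit 0),
  Rx.mk (nat_lit 274) (nat_lit 2) (nat_lit 2) (nat_lit 4) (nat_lit 3) (nat_lit 57) (nat_lit 86) r12_57 r3_86 (nat_lit 0) (nat_lit 0) (nat_lit 0) (nat_lit 0x7d4a01a29c) (nat_lit 1330660656),
  Rx.mk (nat_lit 280) (nat_lit 0) (nat_lit 3) (nat_lit 4) (nat_lit 2) (nat_lit 52) (nat_lit 353) r12_52 r3_353 (nat_lit 0) (nat_lit 0) (nat_lit 0) (nat_lit 0x8000000000) (nat_lit 0),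
  Rx.mk (nat_lit 282) (nat_lit 2) (nat_lit 3) (nat_lit 4) (nat_lit 3) (nat_lit 59) (nat_lit 84) r12_59 r3_84 (nat_lit 0) (nat_lit 0) (nat_lit 0) (nat_lit 0x7fe86cb94c) (nat_lit 45203184),
  Rx.mk (nat_lit 322) (nat_lit 2) (nat_lit 0) (nat_lit 5) (nat_lit 5) (nat_lit 56) (nat_lit 81) r12_56 r3_81 (nat_lit 0) (nat_lit 0) (nat_lit 0) (nat_lit 0x78dfe268fa) (nat_lit 3497552136),
  Rx.mk (nat_lit 338) (nat_lit 2) (nat_lit 2) (nat_lit 5) (nat_lit 7) (nat_lit 58) (nat_lit 87) r12_58 r3_87 (nat_lit 0) (nat_lit 0) (nat_lit 0) (nat_lit 0x7b9901944e) (nat_lit 2160893592),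
  Rx.mk (nat_lit 344) (nat_lit 0) (nat_lit 3) (nat_lit 5) (nat_lit 6) (nat_lit 53) (nat_lit 82) r12_53 r3_82 (nat_lit 0) (nat_lit 0) (nat_lit 0) (nat_lit 0x7eb04a3cac) (nat_lit 643689072),
  Rx.mk (nat_lit 346) (nat_lit 2) (nat_lit 3) (nat_lit 5) (nat_lit 7) (nat_lit 60) (nat_lit 85) r12_60 r3_85 (nat_lit 0) (nat_lit 0) (nat_lit 0) (nat_lit 0x7f5a643a62) (nat_lit 317537064),
  Rx.mk (nat_lit 408) (nat_lit 0) (nat_lit 3) (nat_lit 6) (nat_lit 6) (nat_lit 54) (nat_lit 83) r12_54 r3_83 (nat_lit 0) (nat_lit 0) (nat_lit 0) (nat_lit 0x7fc30d0f6c) (nat_lit 116863344)]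
noncomputable def e51_6 : List Rx := [
  Rx.mk (nat_lit 322) (nat_lit 2) (nat_lit 0) (nat_lit 5) (nat_lit 5) (nat_lit 61) (nat_lit 89) r12_61 r0_89 (nat_lit 0) (nat_lit 0) (nat_lit 0) (nat_lit 0x75d5ae0f4a) (nat_lit 4989678408),
  Rx.mk (nat_lit 338) (nat_lit 2) (nat_lit 2) (nat_lit 5) (nat_lit 7) (nat_lit 62) (nat_lit 90) r12_62 r0_90 (nat_lit 0) (nat_lit 0) (nat_lit 0) (nat_lit 0x7ec6f5d1dc) (nat_lit 600221232)]
noncomputable def e51_7 : List Rx := [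
  Rx.mk (nat_lit 82) (nat_lit 2) (nat_lit 2) (nat_lit 1) (nat_lit 7) (nat_lit 65) (nat_lit 93) r12_65 r1_93 (nat_lit 0) (nat_lit 0) (nat_lit 0) (nat_lit 0x7e7f436d4a) (nat_lit 737692488),
  Rx.mk (nat_lit 322) (nat_lit 2) (nat_lit 0) (nat_lit 5) (nat_lit 5) (nat_lit 63) (nat_lit 91) r12_63 r1_91 (nat_lit 0) (nat_lit 0) (nat_lit 0) (nat_lit 0x7a1ced3710) (nat_lit 2889656640),
  Rx.mk (nat_lit 338) (nat_lit 2) (nat_lit 2) (nat_lit 5) (nat_lit 7) (nat_lit 64) (nat_lit 92) r12_64 r1_92 (nat_lit 0) (nat_lit 0) (nat_lit 0) (nat_lit 0x7adb1c5360) (nat_lit 2524998528)]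
noncomputable def e51_8 : List Rx := [
  Rx.mk (nat_lit 322) (nat_lit 2) (nat_lit 0) (nat_lit 5) (nat_lit 5) (nat_lit 67) (nat_lit 89) r12_67 r4_89 (nat_lit 0) (nat_lit 0) (nat_lit 0) (nat_lit 0x7e028ed910) (nat_lit 976802112),
  Rx.mk (nat_lit 338) (nat_lit 2) (nat_lit 2) (nat_lit 5) (nat_lit 7) (nat_lit 68) (nat_lit 92) r12_68 r4_92 (nat_lit 0) (nat_lit 0) (nat_lit 0) (nat_lit 0x7e502f9eb6) (nat_lit 827958456),
  Rx.mk (nat_lit 344) (nat_lit 0) (nat_lit 3) (nat_lit 5) (nat_lit 6) (nat_lit 66) (nat_lit 90) r12_66 r4_90 (nat_lit 0) (nat_lit 0) (nat_lit 0) (nat_lit 0x7f16fd1118) (nat_lit 446775264),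
  Rx.mk (nat_lit 346) (nat_lit 2) (nat_lit 3) (nat_lit 5) (nat_lit 7) (nat_lit 69) (nat_lit 91) r12_69 r4_91 (nat_lit 0) (nat_lit 0) (nat_lit 0) (nat_lit 0x7eff7569aa) (nat_lit 491891400)]
noncomputable def e51_9 : List Rx := [
  Rx.mk (nat_lit 280) (nat_lit 0) (nat_lit 3) (nat_lit 4) (nat_lit 2) (nat_lit 70) (nat_lit 31) r12_70 r5_31 (nat_lit 0) (nat_lit 0) (nat_lit 0) (nat_lit 0x7e042adf4e) (nat_lit 973716120),
  Rx.mk (nat_lit 282) (nat_lit 2) (nat_lit 3) (nat_lit 4) (nat_lit 3) (nat_lit 75) (nat_lit 38) r12_75 r5_38 (nat_lit 0) (nat_lit 0) (nat_lit 0) (nat_lit 0x7dee681b90) (nat_lit 1015440192),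
  Rx.mk (nat_lit 283) (nat_lit 3) (nat_lit 3) (nat_lit 4) (nat_lit 3) (nat_lit 78) (nat_lit 34) r12_78 r5_34 (nat_lit 0) (nat_lit 0) (nat_lit 0) (nat_lit 0x7a93662f0a) (nat_lit 2662497864),
  Rx.mk (nat_lit 408) (nat_lit 0) (nat_lit 3) (nat_lit 6) (nat_lit 6) (nat_lit 71) (nat_lit 33) r12_71 r5_33 (nat_lit 0) (nat_lit 0) (nat_lit 0) (nat_lit 0x7f16d5b38e) (nat_lit 447070104),
  Rx.mk (nat_lit 411) (nat_lit 3) (nat_lit 3) (nat_lit 6) (nat_lit 7) (nat_lit 79) (nat_lit 35) r12_79 r5_35 (nat_lit 0) (nat_lit 0) (nat_lit 0) (nat_lit 0x7e52dd53d8) (nat_lit 822822624),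
  Rx.mk (nat_lit 443) (nat_lit 3) (nat_lit 7) (nat_lit 6) (nat_lit 7) (nat_lit 77) (nat_lit 36) r12_77 r5_36 (nat_lit 0) (nat_lit 0) (nat_lit 0) (nat_lit 0x7e41ba8616) (nat_lit 855679032),
  Rx.mk (nat_lit 450) (nat_lit 2) (nat_lit 0) (nat_lit 7) (nat_lit 5) (nat_lit 73) (nat_lit 37) r12_73 r5_37 (nat_lit 0) (nat_lit 0) (nat_lit 0) (nat_lit 0x7e46331e88) (nat_lit 847106208),
  Rx.mk (nat_lit 466) (nat_lit 2) (nat_lit 2) (nat_lit 7) (nat_lit 7) (nat_lit 74) (nat_lit 40) r12_74 r5_40 (nat_lit 0) (nat_lit 0) (nat_lit 0) (nat_lit 0x7e5cc7752c) (nat_lit 803812464),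
  Rx.mk (nat_lit 472) (nat_lit 0) (nat_lit 3) (nat_lit 7) (nat_lit 6) (nat_lit 72) (nat_lit 32) r12_72 r5_32 (nat_lit 0) (nat_lit 0) (nat_lit 0) (nat_lit 0x7c7bbb67ce) (nat_lit 1726170264),
  Rx.mk (nat_lit 474) (nat_lit 2) (nat_lit 3) (nat_lit 7) (nat_lit 7) (nat_lit 76) (nat_lit 39) r12_76 r5_39 (nat_lit 0) (nat_lit 0) (nat_lit 0) (nat_lit 0x7f0fa006f0) (nat_lit 460893888)]
noncomputable def e51_10 : List Rx := [
  Rx.mk (nat_lit 22) (nat_lit 6) (nat_lit 2) (nat_lit 0) (nat_lit 3) (nat_lit 99) (nat_lit 208) r12_99 r0_208 (nat_lit 0) (nat_lit 0) (nat_lit 0) (nat_lit 0x6c8ed0a668) (nat_lit 9543235104),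
  Rx.mk (nat_lit 54) (nat_lit 6) (nat_lit 6) (nat_lit 0) (nat_lit 3) (nat_lit 97) (nat_lit 207) r12_97 r0_207 (nat_lit 0) (nat_lit 0) (nat_lit 0) (nat_lit 0x7b7e747d3a) (nat_lit 2211802632),
  Rx.mk (nat_lit 164) (nat_lit 4) (nat_lit 4) (nat_lit 2) (nat_lit 4) (nat_lit 95) (nat_lit 209) r12_95 r0_209 (nat_lit 0) (nat_lit 0) (nat_lit 0) (nat_lit 0x749db7cfe6) (nat_lit 5587832952),
  Rx.mk (nat_lit 180) (nat_lit 4) (nat_lit 6) (nat_lit 2) (nat_lit 6) (nat_lit 96) (nat_lit 210) r12_96 r0_210 (nat_lit 0) (nat_lit 0) (nat_lit 0) (nat_lit 0x7d52e9d410) (nat_lit 1313582400),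
  Rx.mk (nat_lit 182) (nat_lit 6) (nat_lit 6) (nat_lit 2) (nat_lit 7) (nat_lit 98) (nat_lit 211) r12_98 r0_211 (nat_lit 0) (nat_lit 0) (nat_lit 0) (nat_lit 0x7df6c1d5ec) (nat_lit 999428976),
  Rx.mk (nat_lit 420) (nat_lit 4) (nat_lit 4) (nat_lit 6) (nat_lit 4) (nat_lit 94) (nat_lit 204) r12_94 r0_204 (nat_lit 0) (nat_lit 0) (nat_lit 0) (nat_lit 0x8000000000) (nat_lit 0),
  Rx.mk (nat_lit 423) (nat_lit 7) (nat_lit 4) (nat_lit 6) (nat_lit 5) (nat_lit 100) (nat_lit 205) r12_100 r0_205 (nat_lit 0) (nat_lit 0) (nat_lit 0) (nat_lit 0x769593103a) (nat_lit 4621740552),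
  Rx.mk (nat_lit 447) (nat_lit 7) (nat_lit 7) (nat_lit 6) (nat_lit 7) (nat_lit 101) (nat_lit 206) r12_101 r0_206 (nat_lit 0) (nat_lit 0) (nat_lit 0) (nat_lit 0x67426092b6) (nat_lit 12144063672)]
noncomputable def e51_11 : List Rx := [
  Rx.mk (nat_lit 22) (nat_lit 6) (nat_lit 2) (nat_lit 0) (nat_lit 3) (nat_lit 105) (nat_lit 49) r12_105 r6_49 (nat_lit 0) (nat_lit 0) (nat_lit 0) (nat_lit 0x7cd666bcbe) (nat_lit 1552321368),
  Rx.mk (nat_lit 54) (nat_lit 6) (nat_lit 6) (nat_lit 0) (nat_lit 3) (nat_lit 103) (nat_lit 50) r12_103 r6_50 (nat_lit 0) (nat_lit 0) (nat_lit 0) (nat_lit 0x7d8621e05c) (nat_lit 1215375408),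
  Rx.mk (nat_lit 180) (nat_lit 4) (nat_lit 6) (nat_lit 2) (nat_lit 6) (nat_lit 102) (nat_lit 48) r12_102 r6_48 (nat_lit 0) (nat_lit 0) (nat_lit 0) (nat_lit 0x7ecbf921a2) (nat_lit 590609448),
  Rx.mk (nat_lit 182) (nat_lit 6) (nat_lit 6) (nat_lit 2) (nat_lit 7) (nat_lit 104) (nat_lit 51) r12_104 r6_51 (nat_lit 0) (nat_lit 0) (nat_lit 0) (nat_lit 0x7dbc727b1c) (nat_lit 1111232304)]
noncomputable def e51_12 : List Rx := [
  Rx.mk (nat_lit 164) (nat_lit 4) (nat_lit 4) (nat_lit 2) (nat_lit 4) (nat_lit 107) (nat_lit 229) r12_107 r1_229 (nat_lit 0) (nat_lit 0) (nat_lit 0) (nat_lit 0x71c5b3f2fc) (nat_lit 6983726256),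
  Rx.mk (nat_lit 165) (nat_lit 5) (nat_lit 4) (nat_lit 2) (nat_lit 5) (nat_lit 110) (nat_lit 230) r12_110 r1_230 (nat_lit 0) (nat_lit 0) (nat_lit 0) (nat_lit 0x7dfcd1f4e4) (nat_lit 987803856),
  Rx.mk (nat_lit 180) (nat_lit 4) (nat_lit 6) (nat_lit 2) (nat_lit 6) (nat_lit 108) (nat_lit 231) r12_108 r1_231 (nat_lit 0) (nat_lit 0) (nat_lit 0) (nat_lit 0x7d8932ef48) (nat_lit 1209495456),
  Rx.mk (nat_lit 181) (nat_lit 5) (nat_lit 6) (nat_lit 2) (nat_lit 7) (nat_lit 111) (nat_lit 232) r12_111 r1_232 (nat_lit 0) (nat_lit 0) (nat_lit 0) (nat_lit 0x7e706b5ada) (nat_lit 766154376),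
  Rx.mk (nat_lit 182) (nat_lit 6) (nat_lit 6) (nat_lit 2) (nat_lit 7) (nat_lit 112) (nat_lit 233) r12_112 r1_233 (nat_lit 0) (nat_lit 0) (nat_lit 0) (nat_lit 0x7dda421e04) (nat_lit 1054072656),
  Rx.mk (nat_lit 420) (nat_lit 4) (nat_lit 4) (nat_lit 6) (nat_lit 4) (nat_lit 106) (nat_lit 225) r12_106 r1_225 (nat_lit 0) (nat_lit 0) (nat_lit 0) (nat_lit 0x8000000000) (nat_lit 0),
  Rx.mk (nat_lit 421) (nat_lit 5) (nat_lit 4) (nat_lit 6) (nat_lit 5) (nat_lit 109) (nat_lit 226) r12_109 r1_226 (nat_lit 0) (nat_lit 0) (nat_lit 0) (nat_lit 0x7eb6a736d6) (nat_lit 631488312),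
  Rx.mk (nat_lit 423) (nat_lit 7) (nat_lit 4) (nat_lit 6) (nat_lit 5) (nat_lit 113) (nat_lit 227) r12_113 r1_227 (nat_lit 0) (nat_lit 0) (nat_lit 0) (nat_lit 0x7dc65abc8e) (nat_lit 1092236184),
  Rx.mk (nat_lit 447) (nat_lit 7) (nat_lit 7) (nat_lit 6) (nat_lit 7) (nat_lit 114) (nat_lit 228) r12_114 r1_228 (nat_lit 0) (nat_lit 0) (nat_lit 0) (nat_lit 0x7d334cae02) (nat_lit 1374198696)]
noncomputable def e51_13 : List Rx := [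
  Rx.mk (nat_lit 180) (nat_lit 4) (nat_lit 6) (nat_lit 2) (nat_lit 6) (nat_lit 115) (nat_lit 58) r12_115 r7_58 (nat_lit 0) (nat_lit 0) (nat_lit 0) (nat_lit 0x7e3efef1d2) (nat_lit 860918760),
  Rx.mk (nat_lit 181) (nat_lit 5) (nat_lit 6) (nat_lit 2) (nat_lit 7) (nat_lit 116) (nat_lit 59) r12_116 r7_59 (nat_lit 0) (nat_lit 0) (nat_lit 0) (nat_lit 0x7e2750acce) (nat_lit 906324120),
  Rx.mk (nat_lit 182) (nat_lit 6) (nat_lit 6) (nat_lit 2) (nat_lit 7) (nat_lit 117) (nat_lit 60) r12_117 r7_60 (nat_lit 0) (nat_lit 0) (nat_lit 0) (nat_lit 0x7de1ad6748) (nat_lit 1039847328)]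
noncomputable def e51_14 : List Rx := [
  Rx.mk (nat_lit 22) (nat_lit 6) (nat_lit 2) (nat_lit 0) (nat_lit 3) (nat_lit 121) (nat_lit 202) r12_121 r7_202 (nat_lit 0) (nat_lit 0) (nat_lit 0) (nat_lit 0x7def2a4f6c) (nat_lit 1013985648),
  Rx.mk (nat_lit 54) (nat_lit 6) (nat_lit 6) (nat_lit 0) (nat_lit 3) (nat_lit 118) (nat_lit 201) r12_118 r7_201 (nat_lit 0) (nat_lit 0) (nat_lit 0) (nat_lit 0x7cf07bdb52) (nat_lit 1502310888),
  Rx.mk (nat_lit 86) (nat_lit 6) (nat_lit 2) (nat_lit 1) (nat_lit 7) (nat_lit 122) (nat_lit 204) r12_122 r7_204 (nat_lit 0) (nat_lit 0) (nat_lit 0) (nat_lit 0x7e4966ab4c) (nat_lit 840967920),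
  Rx.mk (nat_lit 118) (nat_lit 6) (nat_lit 6) (nat_lit 1) (nat_lit 7) (nat_lit 119) (nat_lit 203) r12_119 r7_203 (nat_lit 0) (nat_lit 0) (nat_lit 0) (nat_lit 0x7deb792a82) (nat_lit 1021064616),
  Rx.mk (nat_lit 182) (nat_lit 6) (nat_lit 6) (nat_lit 2) (nat_lit 7) (nat_lit 120) (nat_lit 205) r12_120 r7_205 (nat_lit 0) (nat_lit 0) (nat_lit 0) (nat_lit 0x7df2ff7216) (nat_lit 1006637112)]
noncomputable def e51_15 : List Rx := [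
  Rx.mk (nat_lit 86) (nat_lit 6) (nat_lit 2) (nat_lit 1) (nat_lit 7) (nat_lit 123) (nat_lit 18) r12_123 r8_18 (nat_lit 0) (nat_lit 0) (nat_lit 0) (nat_lit 0x7ded19507e) (nat_lit 1017947736)]
noncomputable def e51_16 : List Rx := [
  Rx.mk (nat_lit 22) (nat_lit 6) (nat_lit 2) (nat_lit 0) (nat_lit 3) (nat_lit 128) (nat_lit 198) r12_128 r4_198 (nat_lit 0) (nat_lit 0) (nat_lit 0) (nat_lit 0x79e6f15704) (nat_lit 2993165136),
  Rx.mk (nat_lit 54) (nat_lit 6) (nat_lit 6) (nat_lit 0) (nat_lit 3) (nat_lit 126) (nat_lit 197) r12_126 r4_197 (nat_lit 0) (nat_lit 0) (nat_lit 0) (nat_lit 0x7853b78c34) (nat_lit 3766308624),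
  Rx.mk (nat_lit 164) (nat_lit 4) (nat_lit 4) (nat_lit 2) (nat_lit 4) (nat_lit 124) (nat_lit 200) r12_124 r4_200 (nat_lit 0) (nat_lit 0) (nat_lit 0) (nat_lit 0x6c41dd75e8) (nat_lit 9690778656),
  Rx.mk (nat_lit 167) (nat_lit 7) (nat_lit 4) (nat_lit 2) (nat_lit 5) (nat_lit 131) (nat_lit 201) r12_131 r4_201 (nat_lit 0) (nat_lit 0) (nat_lit 0) (nat_lit 0x7a87b0ca6c) (nat_lit 2684947824),
  Rx.mk (nat_lit 180) (nat_lit 4) (nat_lit 6) (nat_lit 2) (nat_lit 6) (nat_lit 125) (nat_lit 202) r12_125 r4_202 (nat_lit 0) (nat_lit 0) (nat_lit 0) (nat_lit 0x7e00441dbe) (nat_lit 981196632),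
  Rx.mk (nat_lit 182) (nat_lit 6) (nat_lit 6) (nat_lit 2) (nat_lit 7) (nat_lit 127) (nat_lit 204) r12_127 r4_204 (nat_lit 0) (nat_lit 0) (nat_lit 0) (nat_lit 0x7e302d3efc) (nat_lit 889332912),
  Rx.mk (nat_lit 183) (nat_lit 7) (nat_lit 6) (nat_lit 2) (nat_lit 7) (nat_lit 132) (nat_lit 203) r12_132 r4_203 (nat_lit 0) (nat_lit 0) (nat_lit 0) (nat_lit 0x7e76bad5dc) (nat_lit 754054704),
  Rx.mk (nat_lit 214) (nat_lit 6) (nat_lit 2) (nat_lit 3) (nat_lit 7) (nat_lit 129) (nat_lit 199) r12_129 r4_199 (nat_lit 0) (nat_lit 0) (nat_lit 0) (nat_lit 0x7e8a3edd88) (nat_lit 716635296),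
  Rx.mk (nat_lit 423) (nat_lit 7) (nat_lit 4) (nat_lit 6) (nat_lit 5) (nat_lit 130) (nat_lit 195) r12_130 r4_195 (nat_lit 0) (nat_lit 0) (nat_lit 0) (nat_lit 0x7bc8cf5742) (nat_lit 2069234856),
  Rx.mk (nat_lit 447) (nat_lit 7) (nat_lit 7) (nat_lit 6) (nat_lit 7) (nat_lit 133) (nat_lit 196) r12_133 r4_196 (nat_lit 0) (nat_lit 0) (nat_lit 0) (nat_lit 0x7dfbbbc648) (nat_lit 989887392)]
noncomputable def e51_17 : List Rx := [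
  Rx.mk (nat_lit 22) (nat_lit 6) (nat_lit 2) (nat_lit 0) (nat_lit 3) (nat_lit 137) (nat_lit 34) r12_137 r9_34 (nat_lit 0) (nat_lit 0) (nat_lit 0) (nat_lit 0x7e68347e50) (nat_lit 781904448),
  Rx.mk (nat_lit 54) (nat_lit 6) (nat_lit 6) (nat_lit 0) (nat_lit 3) (nat_lit 135) (nat_lit 36) r12_135 r9_36 (nat_lit 0) (nat_lit 0) (nat_lit 0) (nat_lit 0x7da88f3964) (nat_lit 1149364944),
  Rx.mk (nat_lit 180) (nat_lit 4) (nat_lit 6) (nat_lit 2) (nat_lit 6) (nat_lit 134) (nat_lit 32) r12_134 r9_32 (nat_lit 0) (nat_lit 0) (nat_lit 0) (nat_lit 0x7e7d860922) (nat_lit 741028392),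
  Rx.mk (nat_lit 182) (nat_lit 6) (nat_lit 6) (nat_lit 2) (nat_lit 7) (nat_lit 136) (nat_lit 37) r12_136 r9_37 (nat_lit 0) (nat_lit 0) (nat_lit 0) (nat_lit 0x7db3658bf4) (nat_lit 1128585744),
  Rx.mk (nat_lit 183) (nat_lit 7) (nat_lit 6) (nat_lit 2) (nat_lit 7) (nat_lit 139) (nat_lit 33) r12_139 r9_33 (nat_lit 0) (nat_lit 0) (nat_lit 0) (nat_lit 0x7e0d9168dc) (nat_lit 955691568),
  Rx.mk (nat_lit 214) (nat_lit 6) (nat_lit 2) (nat_lit 3) (nat_lit 7) (nat_lit 138) (nat_lit 35) r12_138 r9_35 (nat_lit 0) (nat_lit 0) (nat_lit 0) (nat_lit 0x7e84fe7194) (nat_lit 726704784)]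
noncomputable def e51_18 : List Rx := [
  Rx.mk (nat_lit 54) (nat_lit 6) (nat_lit 6) (nat_lit 0) (nat_lit 3) (nat_lit 142) (nat_lit 16) r12_142 r10_16 (nat_lit 0) (nat_lit 0) (nat_lit 0) (nat_lit 0x7d98a2d83a) (nat_lit 1179896328),
  Rx.mk (nat_lit 164) (nat_lit 4) (nat_lit 4) (nat_lit 2) (nat_lit 4) (nat_lit 140) (nat_lit 9) r12_140 r10_9 (nat_lit 0) (nat_lit 0) (nat_lit 0) (nat_lit 0x73e77d9440) (nat_lit 5937235200),
  Rx.mk (nat_lit 167) (nat_lit 7) (nat_lit 4) (nat_lit 2) (nat_lit 5) (nat_lit 146) (nat_lit 11) r12_146 r10_11 (nat_lit 0) (nat_lit 0) (nat_lit 0) (nat_lit 0x7e9f0970ca) (nat_lit 676770120),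
  Rx.mk (nat_lit 180) (nat_lit 4) (nat_lit 6) (nat_lit 2) (nat_lit 6) (nat_lit 141) (nat_lit 10) r12_141 r10_10 (nat_lit 0) (nat_lit 0) (nat_lit 0) (nat_lit 0x7eaac05550) (nat_lit 654308928),
  Rx.mk (nat_lit 182) (nat_lit 6) (nat_lit 6) (nat_lit 2) (nat_lit 7) (nat_lit 143) (nat_lit 18) r12_143 r10_18 (nat_lit 0) (nat_lit 0) (nat_lit 0) (nat_lit 0x7e4d46ad48) (nat_lit 833537952),
  Rx.mk (nat_lit 183) (nat_lit 7) (nat_lit 6) (nat_lit 2) (nat_lit 7) (nat_lit 147) (nat_lit 14) r12_147 r10_14 (nat_lit 0) (nat_lit 0) (nat_lit 0) (nat_lit 0x7ec4817924) (nat_lit 604927440),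
  Rx.mk (nat_lit 191) (nat_lit 7) (nat_lit 7) (nat_lit 2) (nat_lit 7) (nat_lit 149) (nat_lit 12) r12_149 r10_12 (nat_lit 0) (nat_lit 0) (nat_lit 0) (nat_lit 0x7e3496186a) (nat_lit 880878024),
  Rx.mk (nat_lit 214) (nat_lit 6) (nat_lit 2) (nat_lit 3) (nat_lit 7) (nat_lit 145) (nat_lit 15) r12_145 r10_15 (nat_lit 0) (nat_lit 0) (nat_lit 0) (nat_lit 0x7eaff8e1c2) (nat_lit 644298408),
  Rx.mk (nat_lit 246) (nat_lit 6) (nat_lit 6) (nat_lit 3) (nat_lit 7) (nat_lit 144) (nat_lit 17) r12_144 r10_17 (nat_lit 0) (nat_lit 0) (nat_lit 0) (nat_lit 0x7e4ff8222e) (nat_lit 828374040),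
  Rx.mk (nat_lit 447) (nat_lit 7) (nat_lit 7) (nat_lit 6) (nat_lit 7) (nat_lit 148) (nat_lit 13) r12_148 r10_13 (nat_lit 0) (nat_lit 0) (nat_lit 0) (nat_lit 0x7e96423d46) (nat_lit 693601272)]
noncomputable def e51_19 : List Rx := [
  Rx.mk (nat_lit 82) (nat_lit 2) (nat_lit 2) (nat_lit 1) (nat_lit 7) (nat_lit 151) (nat_lit 64) r12_151 r8_64 (nat_lit 0) (nat_lit 0) (nat_lit 0) (nat_lit 0x7deb738adc) (nat_lit 1021106736),
  Rx.mk (nat_lit 86) (nat_lit 6) (nat_lit 2) (nat_lit 1) (nat_lit 7) (nat_lit 150) (nat_lit 63) r12_150 r8_63 (nat_lit 0) (nat_lit 0) (nat_lit 0) (nat_lit 0x7df198a884) (nat_lit 1009324368)]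
noncomputable def e51_20 : List Rx := [
  Rx.mk (nat_lit 256) (nat_lit 0) (nat_lit 0) (nat_lit 4) (nat_lit 0) (nat_lit 152) (nat_lit 329) r12_152 r0_329 (nat_lit 0) (nat_lit 0) (nat_lit 0) (nat_lit 0x8000000000) (nat_lit 0),
  Rx.mk (nat_lit 258) (nat_lit 2) (nat_lit 0) (nat_lit 4) (nat_lit 1) (nat_lit 158) (nat_lit 331) r12_158 r0_331 (nat_lit 0) (nat_lit 0) (nat_lit 0) (nat_lit 0x6fbb66b9da) (nat_lit 7985185416),
  Rx.mk (nat_lit 264) (nat_lit 0) (nat_lit 1) (nat_lit 4) (nat_lit 2) (nat_lit 155) (nat_lit 330) r12_155 r0_330 (nat_lit 0) (nat_lit 0) (nat_lit 0) (nat_lit 0x7542556568) (nat_lit 5272199712),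
  Rx.mk (nat_lit 266) (nat_lit 2) (nat_lit 1) (nat_lit 4) (nat_lit 3) (nat_lit 160) (nat_lit 332) r12_160 r0_332 (nat_lit 0) (nat_lit 0) (nat_lit 0) (nat_lit 0x7dd134cee2) (nat_lit 1071428904),
  Rx.mk (nat_lit 274) (nat_lit 2) (nat_lit 2) (nat_lit 4) (nat_lit 3) (nat_lit 162) (nat_lit 333) r12_162 r0_333 (nat_lit 0) (nat_lit 0) (nat_lit 0) (nat_lit 0x7ac0cd7868) (nat_lit 2575441440),
  Rx.mk (nat_lit 320) (nat_lit 0) (nat_lit 0) (nat_lit 5) (nat_lit 4) (nat_lit 153) (nat_lit 334) r12_153 r0_334 (nat_lit 0) (nat_lit 0) (nat_lit 0) (nat_lit 0x7328f59d7e) (nat_lit 6302558808),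
  Rx.mk (nat_lit 322) (nat_lit 2) (nat_lit 0) (nat_lit 5) (nat_lit 5) (nat_lit 159) (nat_lit 336) r12_159 r0_336 (nat_lit 0) (nat_lit 0) (nat_lit 0) (nat_lit 0x7a9bd7e7e6) (nat_lit 2646306936),
  Rx.mk (nat_lit 328) (nat_lit 0) (nat_lit 1) (nat_lit 5) (nat_lit 6) (nat_lit 156) (nat_lit 335) r12_156 r0_335 (nat_lit 0) (nat_lit 0) (nat_lit 0) (nat_lit 0x7e0833bebc) (nat_lit 965980080),
  Rx.mk (nat_lit 330) (nat_lit 2) (nat_lit 1) (nat_lit 5) (nat_lit 7) (nat_lit 161) (nat_lit 337) r12_161 r0_337 (nat_lit 0) (nat_lit 0) (nat_lit 0) (nat_lit 0x7e78339e4e) (nat_lit 751232664),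
  Rx.mk (nat_lit 338) (nat_lit 2) (nat_lit 2) (nat_lit 5) (nat_lit 7) (nat_lit 163) (nat_lit 338) r12_163 r0_338 (nat_lit 0) (nat_lit 0) (nat_lit 0) (nat_lit 0x7e24231faa) (nat_lit 912417480),
  Rx.mk (nat_lit 384) (nat_lit 0) (nat_lit 0) (nat_lit 6) (nat_lit 4) (nat_lit 154) (nat_lit 339) r12_154 r0_339 (nat_lit 0) (nat_lit 0) (nat_lit 0) (nat_lit 0x8000000000) (nat_lit 0),
  Rx.mk (nat_lit 392) (nat_lit 0) (nat_lit 1) (nat_lit 6) (nat_lit 6) (nat_lit 157) (nat_lit 340) r12_157 r0_340 (nat_lit 0) (nat_lit 0) (nat_lit 0) (nat_lit 0x7b4610a3b0) (nat_lit 2319924672)]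
noncomputable def e51_21 : List Rx := [
  Rx.mk (nat_lit 264) (nat_lit 0) (nat_lit 1) (nat_lit 4) (nat_lit 2) (nat_lit 164) (nat_lit 310) r12_164 r1_310 (nat_lit 0) (nat_lit 0) (nat_lit 0) (nat_lit 0x776b6e91ac) (nat_lit 4211691120),
  Rx.mk (nat_lit 266) (nat_lit 2) (nat_lit 1) (nat_lit 4) (nat_lit 3) (nat_lit 167) (nat_lit 311) r12_167 r1_311 (nat_lit 0) (nat_lit 0) (nat_lit 0) (nat_lit 0x7e69f1827e) (nat_lit 778571352),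
  Rx.mk (nat_lit 328) (nat_lit 0) (nat_lit 1) (nat_lit 5) (nat_lit 6) (nat_lit 165) (nat_lit 312) r12_165 r1_312 (nat_lit 0) (nat_lit 0) (nat_lit 0) (nat_lit 0x7da1e863d8) (nat_lit 1162118880),
  Rx.mk (nat_lit 330) (nat_lit 2) (nat_lit 1) (nat_lit 5) (nat_lit 7) (nat_lit 168) (nat_lit 313) r12_168 r1_313 (nat_lit 0) (nat_lit 0) (nat_lit 0) (nat_lit 0x7db533cf0e) (nat_lit 1125123480),
  Rx.mk (nat_lit 392) (nat_lit 0) (nat_lit 1) (nat_lit 6) (nat_lit 6) (nat_lit 166) (nat_lit 314) r12_166 r1_314 (nat_lit 0) (nat_lit 0) (nat_lit 0) (nat_lit 0x7decb6b6a8) (nat_lit 1018686240)]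
noncomputable def e51_22 : List Rx := [
  Rx.mk (nat_lit 256) (nat_lit 0) (nat_lit 0) (nat_lit 4) (nat_lit 0) (nat_lit 169) (nat_lit 366) r12_169 r4_366 (nat_lit 0) (nat_lit 0) (nat_lit 0) (nat_lit 0x656168c414) (nat_lit 13066269840),
  Rx.mk (nat_lit 258) (nat_lit 2) (nat_lit 0) (nat_lit 4) (nat_lit 1) (nat_lit 177) (nat_lit 369) r12_177 r4_369 (nat_lit 0) (nat_lit 0) (nat_lit 0) (nat_lit 0x6fa2424c3a) (nat_lit 8033393160),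
  Rx.mk (nat_lit 264) (nat_lit 0) (nat_lit 1) (nat_lit 4) (nat_lit 2) (nat_lit 172) (nat_lit 367) r12_172 r4_367 (nat_lit 0) (nat_lit 0) (nat_lit 0) (nat_lit 0x70f7fe6f22) (nat_lit 7378151976),
  Rx.mk (nat_lit 266) (nat_lit 2) (nat_lit 1) (nat_lit 4) (nat_lit 3) (nat_lit 179) (nat_lit 370) r12_179 r4_370 (nat_lit 0) (nat_lit 0) (nat_lit 0) (nat_lit 0x7e34af96d2) (nat_lit 880687080),
  Rx.mk (nat_lit 274) (nat_lit 2) (nat_lit 2) (nat_lit 4) (nat_lit 3) (nat_lit 180) (nat_lit 372) r12_180 r4_372 (nat_lit 0) (nat_lit 0) (nat_lit 0) (nat_lit 0x7d88ecd3aa) (nat_lit 1210020552),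
  Rx.mk (nat_lit 280) (nat_lit 0) (nat_lit 3) (nat_lit 4) (nat_lit 2) (nat_lit 174) (nat_lit 368) r12_174 r4_368 (nat_lit 0) (nat_lit 0) (nat_lit 0) (nat_lit 0x754ac05eb0) (nat_lit 5256059328),
  Rx.mk (nat_lit 282) (nat_lit 2) (nat_lit 3) (nat_lit 4) (nat_lit 3) (nat_lit 182) (nat_lit 371) r12_182 r4_371 (nat_lit 0) (nat_lit 0) (nat_lit 0) (nat_lit 0x7e20a9174e) (nat_lit 919083672),
  Rx.mk (nat_lit 320) (nat_lit 0) (nat_lit 0) (nat_lit 5) (nat_lit 4) (nat_lit 170) (nat_lit 373) r12_170 r4_373 (nat_lit 0) (nat_lit 0) (nat_lit 0) (nat_lit 0x7171c2f260) (nat_lit 7144675200),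
  Rx.mk (nat_lit 322) (nat_lit 2) (nat_lit 0) (nat_lit 5) (nat_lit 5) (nat_lit 178) (nat_lit 375) r12_178 r4_375 (nat_lit 0) (nat_lit 0) (nat_lit 0) (nat_lit 0x7dd9dfe428) (nat_lit 1054808352),
  Rx.mk (nat_lit 338) (nat_lit 2) (nat_lit 2) (nat_lit 5) (nat_lit 7) (nat_lit 181) (nat_lit 377) r12_181 r4_377 (nat_lit 0) (nat_lit 0) (nat_lit 0) (nat_lit 0x7e0fdfe3f2) (nat_lit 951268968),
  Rx.mk (nat_lit 344) (nat_lit 0) (nat_lit 3) (nat_lit 5) (nat_lit 6) (nat_lit 175) (nat_lit 374) r12_175 r4_374 (nat_lit 0) (nat_lit 0) (nat_lit 0) (nat_lit 0x7d15e364b4) (nat_lit 1430591760),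
  Rx.mk (nat_lit 346) (nat_lit 2) (nat_lit 3) (nat_lit 5) (nat_lit 7) (nat_lit 183) (nat_lit 376) r12_183 r4_376 (nat_lit 0) (nat_lit 0) (nat_lit 0) (nat_lit 0x7e4606e14c) (nat_lit 847437552),
  Rx.mk (nat_lit 384) (nat_lit 0) (nat_lit 0) (nat_lit 6) (nat_lit 4) (nat_lit 171) (nat_lit 378) r12_171 r4_378 (nat_lit 0) (nat_lit 0) (nat_lit 0) (nat_lit 0x6e2f0d2100) (nat_lit 8745145344),
  Rx.mk (nat_lit 392) (nat_lit 0) (nat_lit 1) (nat_lit 6) (nat_lit 6) (nat_lit 173) (nat_lit 379) r12_173 r4_379 (nat_lit 0) (nat_lit 0) (nat_lit 0) (nat_lit 0x7dad2f8f5a) (nat_lit 1140494472),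
  Rx.mk (nat_lit 408) (nat_lit 0) (nat_lit 3) (nat_lit 6) (nat_lit 6) (nat_lit 176) (nat_lit 380) r12_176 r4_380 (nat_lit 0) (nat_lit 0) (nat_lit 0) (nat_lit 0x7e2ee053cc) (nat_lit 891826416)]
noncomputable def e51_23 : List Rx := [
  Rx.mk (nat_lit 320) (nat_lit 0) (nat_lit 0) (nat_lit 5) (nat_lit 4) (nat_lit 184) (nat_lit 88) r12_184 r6_88 (nat_lit 0) (nat_lit 0) (nat_lit 0) (nat_lit 0x6f2aece208) (nat_lit 8262203040),
  Rx.mk (nat_lit 322) (nat_lit 2) (nat_lit 0) (nat_lit 5) (nat_lit 5) (nat_lit 186) (nat_lit 89) r12_186 r6_89 (nat_lit 0) (nat_lit 0) (nat_lit 0) (nat_lit 0x7e3ff4227e) (nat_lit 859082328),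
  Rx.mk (nat_lit 328) (nat_lit 0) (nat_lit 1) (nat_lit 5) (nat_lit 6) (nat_lit 185) (nat_lit 90) r12_185 r6_90 (nat_lit 0) (nat_lit 0) (nat_lit 0) (nat_lit 0x7dece293ea) (nat_lit 1018357704),
  Rx.mk (nat_lit 330) (nat_lit 2) (nat_lit 1) (nat_lit 5) (nat_lit 7) (nat_lit 187) (nat_lit 91) r12_187 r6_91 (nat_lit 0) (nat_lit 0) (nat_lit 0) (nat_lit 0x7e49bf85be) (nat_lit 840302424),
  Rx.mk (nat_lit 338) (nat_lit 2) (nat_lit 2) (nat_lit 5) (nat_lit 7) (nat_lit 188) (nat_lit 92) r12_188 r6_92 (nat_lit 0) (nat_lit 0) (nat_lit 0) (nat_lit 0x7dfaf092fc) (nat_lit 991409328)]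
noncomputable def e51_24 : List Rx := [
  Rx.mk (nat_lit 328) (nat_lit 0) (nat_lit 1) (nat_lit 5) (nat_lit 6) (nat_lit 189) (nat_lit 74) r12_189 r7_74 (nat_lit 0) (nat_lit 0) (nat_lit 0) (nat_lit 0x7dea1aa06c) (nat_lit 1023690096),
  Rx.mk (nat_lit 330) (nat_lit 2) (nat_lit 1) (nat_lit 5) (nat_lit 7) (nat_lit 190) (nat_lit 75) r12_190 r7_75 (nat_lit 0) (nat_lit 0) (nat_lit 0) (nat_lit 0x7e3b884940) (nat_lit 867559680)]
noncomputable def e51_25 : List Rx := [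
  Rx.mk (nat_lit 82) (nat_lit 2) (nat_lit 2) (nat_lit 1) (nat_lit 7) (nat_lit 196) (nat_lit 361) r12_196 r7_361 (nat_lit 0) (nat_lit 0) (nat_lit 0) (nat_lit 0x7dd7808a20) (nat_lit 1059357312),
  Rx.mk (nat_lit 320) (nat_lit 0) (nat_lit 0) (nat_lit 5) (nat_lit 4) (nat_lit 191) (nat_lit 362) r12_191 r7_362 (nat_lit 0) (nat_lit 0) (nat_lit 0) (nat_lit 0x6335d77f54) (nat_lit 14131512720),
  Rx.mk (nat_lit 322) (nat_lit 2) (nat_lit 0) (nat_lit 5) (nat_lit 5) (nat_lit 193) (nat_lit 364) r12_193 r7_364 (nat_lit 0) (nat_lit 0) (nat_lit 0) (nat_lit 0x7c2c753c80) (nat_lit 1878170112),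
  Rx.mk (nat_lit 328) (nat_lit 0) (nat_lit 1) (nat_lit 5) (nat_lit 6) (nat_lit 192) (nat_lit 363) r12_192 r7_363 (nat_lit 0) (nat_lit 0) (nat_lit 0) (nat_lit 0x7da6297fc2) (nat_lit 1153961640),
  Rx.mk (nat_lit 330) (nat_lit 2) (nat_lit 1) (nat_lit 5) (nat_lit 7) (nat_lit 194) (nat_lit 365) r12_194 r7_365 (nat_lit 0) (nat_lit 0) (nat_lit 0) (nat_lit 0x7ddfee8338) (nat_lit 1043194464),
  Rx.mk (nat_lit 338) (nat_lit 2) (nat_lit 2) (nat_lit 5) (nat_lit 7) (nat_lit 195) (nat_lit 366) r12_195 r7_366 (nat_lit 0) (nat_lit 0) (nat_lit 0) (nat_lit 0x7dad63ac18) (nat_lit 1140104160)]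
noncomputable def e51_26 : List Rx := [
  Rx.mk (nat_lit 320) (nat_lit 0) (nat_lit 0) (nat_lit 5) (nat_lit 4) (nat_lit 197) (nat_lit 72) r12_197 r9_72 (nat_lit 0) (nat_lit 0) (nat_lit 0) (nat_lit 0x6f5f417c8a) (nat_lit 8161864776),
  Rx.mk (nat_lit 322) (nat_lit 2) (nat_lit 0) (nat_lit 5) (nat_lit 5) (nat_lit 199) (nat_lit 73) r12_199 r9_73 (nat_lit 0) (nat_lit 0) (nat_lit 0) (nat_lit 0x7e5a08811e) (nat_lit 809077464),
  Rx.mk (nat_lit 338) (nat_lit 2) (nat_lit 2) (nat_lit 5) (nat_lit 7) (nat_lit 200) (nat_lit 76) r12_200 r9_76 (nat_lit 0) (nat_lit 0) (nat_lit 0) (nat_lit 0x7dd2da9484) (nat_lit 1068269904),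
  Rx.mk (nat_lit 344) (nat_lit 0) (nat_lit 3) (nat_lit 5) (nat_lit 6) (nat_lit 198) (nat_lit 74) r12_198 r9_74 (nat_lit 0) (nat_lit 0) (nat_lit 0) (nat_lit 0x7d55b82728) (nat_lit 1308202272),
  Rx.mk (nat_lit 346) (nat_lit 2) (nat_lit 3) (nat_lit 5) (nat_lit 7) (nat_lit 201) (nat_lit 75) r12_201 r9_75 (nat_lit 0) (nat_lit 0) (nat_lit 0) (nat_lit 0x7e4050bcb4) (nat_lit 858388752)]
noncomputable def e51_27 : List Rx := [
  Rx.mk (nat_lit 256) (nat_lit 0) (nat_lit 0) (nat_lit 4) (nat_lit 0) (nat_lit 202) (nat_lit 68) r12_202 r10_68 (nat_lit 0) (nat_lit 0) (nat_lit 0) (nat_lit 0x4f8256cb14) (nat_lit 23801905296),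
  Rx.mk (nat_lit 258) (nat_lit 2) (nat_lit 0) (nat_lit 4) (nat_lit 1) (nat_lit 212) (nat_lit 72) r12_212 r10_72 (nat_lit 0) (nat_lit 0) (nat_lit 0) (nat_lit 0x6f899876f0) (nat_lit 8080682688),
  Rx.mk (nat_lit 264) (nat_lit 0) (nat_lit 1) (nat_lit 4) (nat_lit 2) (nat_lit 206) (nat_lit 75) r12_206 r10_75 (nat_lit 0) (nat_lit 0) (nat_lit 0) (nat_lit 0x762668e34c) (nat_lit 4834887408),
  Rx.mk (nat_lit 266) (nat_lit 2) (nat_lit 1) (nat_lit 4) (nat_lit 3) (nat_lit 215) (nat_lit 78) r12_215 r10_78 (nat_lit 0) (nat_lit 0) (nat_lit 0) (nat_lit 0x7e21a6277c) (nat_lit 917188272),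
  Rx.mk (nat_lit 274) (nat_lit 2) (nat_lit 2) (nat_lit 4) (nat_lit 3) (nat_lit 217) (nat_lit 88) r12_217 r10_88 (nat_lit 0) (nat_lit 0) (nat_lit 0) (nat_lit 0x7d77f5e32a) (nat_lit 1242548424),
  Rx.mk (nat_lit 280) (nat_lit 0) (nat_lit 3) (nat_lit 4) (nat_lit 2) (nat_lit 209) (nat_lit 80) r12_209 r10_80 (nat_lit 0) (nat_lit 0) (nat_lit 0) (nat_lit 0x76d6a79eb0) (nat_lit 4496955840),
  Rx.mk (nat_lit 282) (nat_lit 2) (nat_lit 3) (nat_lit 4) (nat_lit 3) (nat_lit 220) (nat_lit 86) r12_220 r10_86 (nat_lit 0) (nat_lit 0) (nat_lit 0) (nat_lit 0x7e1455dc8e) (nat_lit 942715800),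
  Rx.mk (nat_lit 283) (nat_lit 3) (nat_lit 3) (nat_lit 4) (nat_lit 3) (nat_lit 222) (nat_lit 83) r12_222 r10_83 (nat_lit 0) (nat_lit 0) (nat_lit 0) (nat_lit 0x7d8a287fee) (nat_lit 1207656216),
  Rx.mk (nat_lit 320) (nat_lit 0) (nat_lit 0) (nat_lit 5) (nat_lit 4) (nat_lit 203) (nat_lit 69) r12_203 r10_69 (nat_lit 0) (nat_lit 0) (nat_lit 0) (nat_lit 0x77191ff6e8) (nat_lit 4369506336),
  Rx.mk (nat_lit 322) (nat_lit 2) (nat_lit 0) (nat_lit 5) (nat_lit 5) (nat_lit 213) (nat_lit 73) r12_213 r10_73 (nat_lit 0) (nat_lit 0) (nat_lit 0) (nat_lit 0x7dc0395eaa) (nat_lit 1103990472),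
  Rx.mk (nat_lit 338) (nat_lit 2) (nat_lit 2) (nat_lit 5) (nat_lit 7) (nat_lit 218) (nat_lit 89) r12_218 r10_89 (nat_lit 0) (nat_lit 0) (nat_lit 0) (nat_lit 0x7df35c0c4c) (nat_lit 1005943536),
  Rx.mk (nat_lit 344) (nat_lit 0) (nat_lit 3) (nat_lit 5) (nat_lit 6) (nat_lit 210) (nat_lit 81) r12_210 r10_81 (nat_lit 0) (nat_lit 0) (nat_lit 0) (nat_lit 0x7dd00b217e) (nat_lit 1073658456),
  Rx.mk (nat_lit 346) (nat_lit 2) (nat_lit 3) (nat_lit 5) (nat_lit 7) (nat_lit 221) (nat_lit 87) r12_221 r10_87 (nat_lit 0) (nat_lit 0) (nat_lit 0) (nat_lit 0x7df712d0dc) (nat_lit 998822448),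
  Rx.mk (nat_lit 347) (nat_lit 3) (nat_lit 3) (nat_lit 5) (nat_lit 7) (nat_lit 223) (nat_lit 84) r12_223 r10_84 (nat_lit 0) (nat_lit 0) (nat_lit 0) (nat_lit 0x7ddcad774c) (nat_lit 1049433840),
  Rx.mk (nat_lit 384) (nat_lit 0) (nat_lit 0) (nat_lit 6) (nat_lit 4) (nat_lit 204) (nat_lit 71) r12_204 r10_71 (nat_lit 0) (nat_lit 0) (nat_lit 0) (nat_lit 0x71d4c381f4) (nat_lit 6954848784),
  Rx.mk (nat_lit 392) (nat_lit 0) (nat_lit 1) (nat_lit 6) (nat_lit 6) (nat_lit 207) (nat_lit 77) r12_207 r10_77 (nat_lit 0) (nat_lit 0) (nat_lit 0) (nat_lit 0x7de5630bea) (nat_lit 1032734664),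
  Rx.mk (nat_lit 408) (nat_lit 0) (nat_lit 3) (nat_lit 6) (nat_lit 6) (nat_lit 211) (nat_lit 82) r12_211 r10_82 (nat_lit 0) (nat_lit 0) (nat_lit 0) (nat_lit 0x7dc3830a0c) (nat_lit 1097686512),
  Rx.mk (nat_lit 411) (nat_lit 3) (nat_lit 3) (nat_lit 6) (nat_lit 7) (nat_lit 224) (nat_lit 85) r12_224 r10_85 (nat_lit 0) (nat_lit 0) (nat_lit 0) (nat_lit 0x7ddf540ce0) (nat_lit 1044351360),
  Rx.mk (nat_lit 448) (nat_lit 0) (nat_lit 0) (nat_lit 7) (nat_lit 4) (nat_lit 205) (nat_lit 70) r12_205 r10_70 (nat_lit 0) (nat_lit 0) (nat_lit 0) (nat_lit 0x749a460706) (nat_lit 5594437368),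
  Rx.mk (nat_lit 450) (nat_lit 2) (nat_lit 0) (nat_lit 7) (nat_lit 5) (nat_lit 214) (nat_lit 74) r12_214 r10_74 (nat_lit 0) (nat_lit 0) (nat_lit 0) (nat_lit 0x7df140ee00) (nat_lit 1009981440),
  Rx.mk (nat_lit 456) (nat_lit 0) (nat_lit 1) (nat_lit 7) (nat_lit 6) (nat_lit 208) (nat_lit 76) r12_208 r10_76 (nat_lit 0) (nat_lit 0) (nat_lit 0) (nat_lit 0x7df4fc9242) (nat_lit 1002823848),
  Rx.mk (nat_lit 458) (nat_lit 2) (nat_lit 1) (nat_lit 7) (nat_lit 7) (nat_lit 216) (nat_lit 79) r12_216 r10_79 (nat_lit 0) (nat_lit 0) (nat_lit 0) (nat_lit 0x7df9596c70) (nat_lit 994458816),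
  Rx.mk (nat_lit 466) (nat_lit 2) (nat_lit 2) (nat_lit 7) (nat_lit 7) (nat_lit 219) (nat_lit 90) r12_219 r10_90 (nat_lit 0) (nat_lit 0) (nat_lit 0) (nat_lit 0x7df79428c6) (nat_lit 997853688)]
noncomputable def e51_28 : List Rx := [
  Rx.mk (nat_lit 183) (nat_lit 7) (nat_lit 6) (nat_lit 2) (nat_lit 7) (nat_lit 230) (nat_lit 265) r12_230 r10_265 (nat_lit 0) (nat_lit 0) (nat_lit 0) (nat_lit 0x7ee7b225f6) (nat_lit 537454008)]
noncomputable def e51_29 : List Rx := [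
  Rx.mk (nat_lit 280) (nat_lit 0) (nat_lit 3) (nat_lit 4) (nat_lit 2) (nat_lit 232) (nat_lit 333) r12_232 r5_333 (nat_lit 0) (nat_lit 0) (nat_lit 0) (nat_lit 0x7b7d41d066) (nat_lit 2214099576),
  Rx.mk (nat_lit 282) (nat_lit 2) (nat_lit 3) (nat_lit 4) (nat_lit 3) (nat_lit 234) (nat_lit 336) r12_234 r5_336 (nat_lit 0) (nat_lit 0) (nat_lit 0) (nat_lit 0x7dd76d0b58) (nat_lit 1059503328),
  Rx.mk (nat_lit 408) (nat_lit 0) (nat_lit 3) (nat_lit 6) (nat_lit 6) (nat_lit 233) (nat_lit 335) r12_233 r5_335 (nat_lit 0) (nat_lit 0) (nat_lit 0) (nat_lit 0x7f189437a4) (nat_lit 443725776),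
  Rx.mk (nat_lit 440) (nat_lit 0) (nat_lit 7) (nat_lit 6) (nat_lit 6) (nat_lit 231) (nat_lit 334) r12_231 r5_334 (nat_lit 0) (nat_lit 0) (nat_lit 0) (nat_lit 0x7fe0d652ba) (nat_lit 59751432)]
noncomputable def e51_30 : List Rx := [
  Rx.mk (nat_lit 344) (nat_lit 0) (nat_lit 3) (nat_lit 5) (nat_lit 6) (nat_lit 240) (nat_lit 366) r12_240 r10_366 (nat_lit 0) (nat_lit 0) (nat_lit 0) (nat_lit 0x7e373cadfe) (nat_lit 875795544),
  Rx.mk (nat_lit 346) (nat_lit 2) (nat_lit 3) (nat_lit 5) (nat_lit 7) (nat_lit 241) (nat_lit 367) r12_241 r10_367 (nat_lit 0) (nat_lit 0) (nat_lit 0) (nat_lit 0x7ee6adf63a) (nat_lit 539402760)]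
noncomputable def e51_31 : List Rx := [
  Rx.mk (nat_lit 419) (nat_lit 3) (nat_lit 4) (nat_lit 6) (nat_lit 5) (nat_lit 243) (nat_lit 251) r12_243 r5_251 (nat_lit 0) (nat_lit 0) (nat_lit 0) (nat_lit 0x7fed08ef84) (nat_lit 36363600),
  Rx.mk (nat_lit 440) (nat_lit 0) (nat_lit 7) (nat_lit 6) (nat_lit 6) (nat_lit 242) (nat_lit 252) r12_242 r5_252 (nat_lit 0) (nat_lit 0) (nat_lit 0) (nat_lit 0x7d25bb2728) (nat_lit 1400214816),
  Rx.mk (nat_lit 443) (nat_lit 3) (nat_lit 7) (nat_lit 6) (nat_lit 7) (nat_lit 244) (nat_lit 253) r12_244 r5_253 (nat_lit 0) (nat_lit 0) (nat_lit 0) (nat_lit 0x7ef7d3c3cc) (nat_lit 506523888)]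
noncomputable def e51_32 : List Rx := [
  Rx.mk (nat_lit 280) (nat_lit 0) (nat_lit 3) (nat_lit 4) (nat_lit 2) (nat_lit 246) (nat_lit 34) r12_246 r11_34 (nat_lit 0) (nat_lit 0) (nat_lit 0) (nat_lit 0x78fb4dd228) (nat_lit 3444977952),
  Rx.mk (nat_lit 282) (nat_lit 2) (nat_lit 3) (nat_lit 4) (nat_lit 3) (nat_lit 249) (nat_lit 39) r12_249 r11_39 (nat_lit 0) (nat_lit 0) (nat_lit 0) (nat_lit 0x7d5ad6d538) (nat_lit 1298385504),
  Rx.mk (nat_lit 408) (nat_lit 0) (nat_lit 3) (nat_lit 6) (nat_lit 6) (nat_lit 247) (nat_lit 36) r12_247 r11_36 (nat_lit 0) (nat_lit 0) (nat_lit 0) (nat_lit 0x7f3052fba0) (nat_lit 398196864),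
  Rx.mk (nat_lit 440) (nat_lit 0) (nat_lit 7) (nat_lit 6) (nat_lit 6) (nat_lit 245) (nat_lit 37) r12_245 r11_37 (nat_lit 0) (nat_lit 0) (nat_lit 0) (nat_lit 0x7fd8517b10) (nat_lit 76085568),
  Rx.mk (nat_lit 443) (nat_lit 3) (nat_lit 7) (nat_lit 6) (nat_lit 7) (nat_lit 251) (nat_lit 38) r12_251 r11_38 (nat_lit 0) (nat_lit 0) (nat_lit 0) (nat_lit 0x7e9f9a27be) (nat_lit 675686232),
  Rx.mk (nat_lit 472) (nat_lit 0) (nat_lit 3) (nat_lit 7) (nat_lit 6) (nat_lit 248) (nat_lit 35) r12_248 r11_35 (nat_lit 0) (nat_lit 0) (nat_lit 0) (nat_lit 0x79aa5aa0ac) (nat_lit 3109337712),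
  Rx.mk (nat_lit 474) (nat_lit 2) (nat_lit 3) (nat_lit 7) (nat_lit 7) (nat_lit 250) (nat_lit 40) r12_250 r11_40 (nat_lit 0) (nat_lit 0) (nat_lit 0) (nat_lit 0x7f04293e68) (nat_lit 482874912)]
noncomputable def e51_33 : List Rx := [
  Rx.mk (nat_lit 417) (nat_lit 1) (nat_lit 4) (nat_lit 6) (nat_lit 5) (nat_lit 253) (nat_lit 315) r12_253 r0_315 (nat_lit 0) (nat_lit 0) (nat_lit 0) (nat_lit 0x7ac9315222) (nat_lit 2559354408),
  Rx.mk (nat_lit 424) (nat_lit 0) (nat_lit 5) (nat_lit 6) (nat_lit 6) (nat_lit 252) (nat_lit 314) r12_252 r0_314 (nat_lit 0) (nat_lit 0) (nat_lit 0) (nat_lit 0x7c8c873b00) (nat_lit 1693965312),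
  Rx.mk (nat_lit 425) (nat_lit 1) (nat_lit 5) (nat_lit 6) (nat_lit 7) (nat_lit 254) (nat_lit 316) r12_254 r0_316 (nat_lit 0) (nat_lit 0) (nat_lit 0) (nat_lit 0x7ef9c72494) (nat_lit 502783632)]
noncomputable def e51_34 : List Rx := [
  Rx.mk (nat_lit 417) (nat_lit 1) (nat_lit 4) (nat_lit 6) (nat_lit 5) (nat_lit 255) (nat_lit 224) r12_255 r0_224 (nat_lit 0) (nat_lit 0) (nat_lit 0) (nat_lit 0x8000000000) (nat_lit 0)]
noncomputable def e51_35 : List Rx := [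
  Rx.mk (nat_lit 417) (nat_lit 1) (nat_lit 4) (nat_lit 6) (nat_lit 5) (nat_lit 256) (nat_lit 422) r12_256 r6_422 (nat_lit 0) (nat_lit 0) (nat_lit 0) (nat_lit 0x7e13f5229a) (nat_lit 943440264),
  Rx.mk (nat_lit 425) (nat_lit 1) (nat_lit 5) (nat_lit 6) (nat_lit 7) (nat_lit 257) (nat_lit 423) r12_257 r6_423 (nat_lit 0) (nat_lit 0) (nat_lit 0) (nat_lit 0x7e7b9907f4) (nat_lit 744720912)]
noncomputable def e51_36 : List Rx := [
  Rx.mk (nat_lit 165) (nat_lit 5) (nat_lit 4) (nat_lit 2) (nat_lit 5) (nat_lit 259) (nat_lit 255) r12_259 r2_255 (nat_lit 0) (nat_lit 0) (nat_lit 0) (nat_lit 0x7e4fef22be) (nat_lit 828441432),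
  Rx.mk (nat_lit 181) (nat_lit 5) (nat_lit 6) (nat_lit 2) (nat_lit 7) (nat_lit 260) (nat_lit 257) r12_260 r2_257 (nat_lit 0) (nat_lit 0) (nat_lit 0) (nat_lit 0x7e0dc225d0) (nat_lit 955326528),
  Rx.mk (nat_lit 421) (nat_lit 5) (nat_lit 4) (nat_lit 6) (nat_lit 5) (nat_lit 258) (nat_lit 256) r12_258 r2_256 (nat_lit 0) (nat_lit 0) (nat_lit 0) (nat_lit 0x7e39f90236) (nat_lit 870550200)]
noncomputable def e51_37 : List Rx := [
  Rx.mk (nat_lit 165) (nat_lit 5) (nat_lit 4) (nat_lit 2) (nat_lit 5) (nat_lit 262) (nat_lit 224) r12_262 r8_224 (nat_lit 0) (nat_lit 0) (nat_lit 0) (nat_lit 0x7dae17a0d8) (nat_lit 1138756320),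
  Rx.mk (nat_lit 173) (nat_lit 5) (nat_lit 5) (nat_lit 2) (nat_lit 7) (nat_lit 264) (nat_lit 226) r12_264 r8_226 (nat_lit 0) (nat_lit 0) (nat_lit 0) (nat_lit 0x7de7338ee0) (nat_lit 1029255552),
  Rx.mk (nat_lit 181) (nat_lit 5) (nat_lit 6) (nat_lit 2) (nat_lit 7) (nat_lit 265) (nat_lit 228) r12_265 r8_228 (nat_lit 0) (nat_lit 0) (nat_lit 0) (nat_lit 0x7de986e9a8) (nat_lit 1024796448),
  Rx.mk (nat_lit 421) (nat_lit 5) (nat_lit 4) (nat_lit 6) (nat_lit 5) (nat_lit 261) (nat_lit 225) r12_261 r8_225 (nat_lit 0) (nat_lit 0) (nat_lit 0) (nat_lit 0x7cb54cae80) (nat_lit 1615790592),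
  Rx.mk (nat_lit 429) (nat_lit 5) (nat_lit 5) (nat_lit 6) (nat_lit 7) (nat_lit 263) (nat_lit 227) r12_263 r8_227 (nat_lit 0) (nat_lit 0) (nat_lit 0) (nat_lit 0x7dca3abe8a) (nat_lit 1084806216)]
noncomputable def e51_38 : List Rx := [
  Rx.mk (nat_lit 181) (nat_lit 5) (nat_lit 6) (nat_lit 2) (nat_lit 7) (nat_lit 266) (nat_lit 215) r12_266 r8_215 (nat_lit 0) (nat_lit 0) (nat_lit 0) (nat_lit 0x7df0bb165e) (nat_lit 1010983896)]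
noncomputable def e51_39 : List Rx := [
  Rx.mk (nat_lit 417) (nat_lit 1) (nat_lit 4) (nat_lit 6) (nat_lit 5) (nat_lit 268) (nat_lit 242) r12_268 r1_242 (nat_lit 0) (nat_lit 0) (nat_lit 0) (nat_lit 0x8000000000) (nat_lit 0),
  Rx.mk (nat_lit 421) (nat_lit 5) (nat_lit 4) (nat_lit 6) (nat_lit 5) (nat_lit 267) (nat_lit 243) r12_267 r1_243 (nat_lit 0) (nat_lit 0) (nat_lit 0) (nat_lit 0x7d19eca41c) (nat_lit 1422852912)]
noncomputable def e51_40 : List Rx := [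
  Rx.mk (nat_lit 417) (nat_lit 1) (nat_lit 4) (nat_lit 6) (nat_lit 5) (nat_lit 271) (nat_lit 349) r12_271 r7_349 (nat_lit 0) (nat_lit 0) (nat_lit 0) (nat_lit 0x7d458d29e8) (nat_lit 1339202592),
  Rx.mk (nat_lit 421) (nat_lit 5) (nat_lit 4) (nat_lit 6) (nat_lit 5) (nat_lit 269) (nat_lit 347) r12_269 r7_347 (nat_lit 0) (nat_lit 0) (nat_lit 0) (nat_lit 0x7d3189aa34) (nat_lit 1377576720),
  Rx.mk (nat_lit 425) (nat_lit 1) (nat_lit 5) (nat_lit 6) (nat_lit 7) (nat_lit 272) (nat_lit 350) r12_272 r7_350 (nat_lit 0) (nat_lit 0) (nat_lit 0) (nat_lit 0x7dcaa7d7b8) (nat_lit 1083989088),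
  Rx.mk (nat_lit 429) (nat_lit 5) (nat_lit 5) (nat_lit 6) (nat_lit 7) (nat_lit 270) (nat_lit 348) r12_270 r7_348 (nat_lit 0) (nat_lit 0) (nat_lit 0) (nat_lit 0x7df25e9c24) (nat_lit 1007841744)]
noncomputable def e51_41 : List Rx := [
  Rx.mk (nat_lit 424) (nat_lit 0) (nat_lit 5) (nat_lit 6) (nat_lit 6) (nat_lit 273) (nat_lit 302) r12_273 r1_302 (nat_lit 0) (nat_lit 0) (nat_lit 0) (nat_lit 0x7e59f0e298) (nat_lit 809254368),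
  Rx.mk (nat_lit 425) (nat_lit 1) (nat_lit 5) (nat_lit 6) (nat_lit 7) (nat_lit 274) (nat_lit 303) r12_274 r1_303 (nat_lit 0) (nat_lit 0) (nat_lit 0) (nat_lit 0x7d5c1b80ec) (nat_lit 1295953776)]
noncomputable def e51_42 : List Rx := [
  Rx.mk (nat_lit 264) (nat_lit 0) (nat_lit 1) (nat_lit 4) (nat_lit 2) (nat_lit 276) (nat_lit 339) r12_276 r2_339 (nat_lit 0) (nat_lit 0) (nat_lit 0) (nat_lit 0x666f99dff4) (nat_lit 12548205072),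
  Rx.mk (nat_lit 265) (nat_lit 1) (nat_lit 1) (nat_lit 4) (nat_lit 3) (nat_lit 280) (nat_lit 343) r12_280 r2_343 (nat_lit 0) (nat_lit 0) (nat_lit 0) (nat_lit 0x749ef5bc06) (nat_lit 5585451768),
  Rx.mk (nat_lit 266) (nat_lit 2) (nat_lit 1) (nat_lit 4) (nat_lit 3) (nat_lit 283) (nat_lit 347) r12_283 r2_347 (nat_lit 0) (nat_lit 0) (nat_lit 0) (nat_lit 0x7dc98549e2) (nat_lit 1086165288),
  Rx.mk (nat_lit 328) (nat_lit 0) (nat_lit 1) (nat_lit 5) (nat_lit 6) (nat_lit 277) (nat_lit 340) r12_277 r2_340 (nat_lit 0) (nat_lit 0) (nat_lit 0) (nat_lit 0x7d42e99424) (nat_lit 1344262608),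
  Rx.mk (nat_lit 329) (nat_lit 1) (nat_lit 1) (nat_lit 5) (nat_lit 7) (nat_lit 281) (nat_lit 344) r12_281 r2_344 (nat_lit 0) (nat_lit 0) (nat_lit 0) (nat_lit 0x7ddceeb338) (nat_lit 1048945248),
  Rx.mk (nat_lit 330) (nat_lit 2) (nat_lit 1) (nat_lit 5) (nat_lit 7) (nat_lit 284) (nat_lit 348) r12_284 r2_348 (nat_lit 0) (nat_lit 0) (nat_lit 0) (nat_lit 0x7deb366eae) (nat_lit 1021564440),
  Rx.mk (nat_lit 392) (nat_lit 0) (nat_lit 1) (nat_lit 6) (nat_lit 6) (nat_lit 278) (nat_lit 342) r12_278 r2_342 (nat_lit 0) (nat_lit 0) (nat_lit 0) (nat_lit 0x7cf9c166f0) (nat_lit 1484533440),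
  Rx.mk (nat_lit 393) (nat_lit 1) (nat_lit 1) (nat_lit 6) (nat_lit 7) (nat_lit 282) (nat_lit 346) r12_282 r2_346 (nat_lit 0) (nat_lit 0) (nat_lit 0) (nat_lit 0x7df79428c6) (nat_lit 997853688),
  Rx.mk (nat_lit 424) (nat_lit 0) (nat_lit 5) (nat_lit 6) (nat_lit 6) (nat_lit 275) (nat_lit 341) r12_275 r2_341 (nat_lit 0) (nat_lit 0) (nat_lit 0) (nat_lit 0x7ddc2f1f32) (nat_lit 1050380136),
  Rx.mk (nat_lit 425) (nat_lit 1) (nat_lit 5) (nat_lit 6) (nat_lit 7) (nat_lit 279) (nat_lit 345) r12_279 r2_345 (nat_lit 0) (nat_lit 0) (nat_lit 0) (nat_lit 0x7de974eac8) (nat_lit 1024931232)]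
noncomputable def e51_43 : List Rx := [
  Rx.mk (nat_lit 425) (nat_lit 1) (nat_lit 5) (nat_lit 6) (nat_lit 7) (nat_lit 285) (nat_lit 218) r12_285 r7_218 (nat_lit 0) (nat_lit 0) (nat_lit 0) (nat_lit 0x7e67fac1ec) (nat_lit 782336880)]
noncomputable def e51_44 : List Rx := [
  Rx.mk (nat_lit 265) (nat_lit 1) (nat_lit 1) (nat_lit 4) (nat_lit 3) (nat_lit 287) (nat_lit 307) r12_287 r8_307 (nat_lit 0) (nat_lit 0) (nat_lit 0) (nat_lit 0x6ec70e6054) (nat_lit 8453691792),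
  Rx.mk (nat_lit 329) (nat_lit 1) (nat_lit 1) (nat_lit 5) (nat_lit 7) (nat_lit 288) (nat_lit 308) r12_288 r8_308 (nat_lit 0) (nat_lit 0) (nat_lit 0) (nat_lit 0x7dd07e9a46) (nat_lit 1072793592),
  Rx.mk (nat_lit 393) (nat_lit 1) (nat_lit 1) (nat_lit 6) (nat_lit 7) (nat_lit 289) (nat_lit 310) r12_289 r8_310 (nat_lit 0) (nat_lit 0) (nat_lit 0) (nat_lit 0x7dbce773cc) (nat_lit 1110356208),
  Rx.mk (nat_lit 425) (nat_lit 1) (nat_lit 5) (nat_lit 6) (nat_lit 7) (nat_lit 286) (nat_lit 309) r12_286 r8_309 (nat_lit 0) (nat_lit 0) (nat_lit 0) (nat_lit 0x7ddc31bf08) (nat_lit 1050360480)]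
noncomputable def e51_45 : List Rx := [
  Rx.mk (nat_lit 328) (nat_lit 0) (nat_lit 1) (nat_lit 5) (nat_lit 6) (nat_lit 290) (nat_lit 324) r12_290 r8_324 (nat_lit 0) (nat_lit 0) (nat_lit 0) (nat_lit 0x7cb8761be6) (nat_lit 1609728120),
  Rx.mk (nat_lit 329) (nat_lit 1) (nat_lit 1) (nat_lit 5) (nat_lit 7) (nat_lit 291) (nat_lit 325) r12_291 r8_325 (nat_lit 0) (nat_lit 0) (nat_lit 0) (nat_lit 0x7de9664bb2) (nat_lit 1025040744),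
  Rx.mk (nat_lit 330) (nat_lit 2) (nat_lit 1) (nat_lit 5) (nat_lit 7) (nat_lit 292) (nat_lit 326) r12_292 r8_326 (nat_lit 0) (nat_lit 0) (nat_lit 0) (nat_lit 0x7dda2b3f72) (nat_lit 1054243944)]
noncomputable def e51_46 : List Rx := [
  Rx.mk (nat_lit 416) (nat_lit 0) (nat_lit 4) (nat_lit 6) (nat_lit 4) (nat_lit 296) (nat_lit 343) r12_296 r4_343 (nat_lit 0) (nat_lit 0) (nat_lit 0) (nat_lit 0x752fda0d30) (nat_lit 5307636672),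
  Rx.mk (nat_lit 417) (nat_lit 1) (nat_lit 4) (nat_lit 6) (nat_lit 5) (nat_lit 299) (nat_lit 346) r12_299 r4_346 (nat_lit 0) (nat_lit 0) (nat_lit 0) (nat_lit 0x79f1f206ee) (nat_lit 2972068632),
  Rx.mk (nat_lit 424) (nat_lit 0) (nat_lit 5) (nat_lit 6) (nat_lit 6) (nat_lit 297) (nat_lit 344) r12_297 r4_344 (nat_lit 0) (nat_lit 0) (nat_lit 0) (nat_lit 0x7defaae762) (nat_lit 1013022504),
  Rx.mk (nat_lit 425) (nat_lit 1) (nat_lit 5) (nat_lit 6) (nat_lit 7) (nat_lit 300) (nat_lit 347) r12_300 r4_347 (nat_lit 0) (nat_lit 0) (nat_lit 0) (nat_lit 0x7e5fb6663a) (nat_lit 798188040),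
  Rx.mk (nat_lit 440) (nat_lit 0) (nat_lit 7) (nat_lit 6) (nat_lit 6) (nat_lit 298) (nat_lit 345) r12_298 r4_345 (nat_lit 0) (nat_lit 0) (nat_lit 0) (nat_lit 0x7ddf492d8e) (nat_lit 1044432792),
  Rx.mk (nat_lit 441) (nat_lit 1) (nat_lit 7) (nat_lit 6) (nat_lit 7) (nat_lit 301) (nat_lit 348) r12_301 r4_348 (nat_lit 0) (nat_lit 0) (nat_lit 0) (nat_lit 0x7e24ff91e2) (nat_lit 910766376)]
noncomputable def e51_47 : List Rx := [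
  Rx.mk (nat_lit 417) (nat_lit 1) (nat_lit 4) (nat_lit 6) (nat_lit 5) (nat_lit 304) (nat_lit 224) r12_304 r4_224 (nat_lit 0) (nat_lit 0) (nat_lit 0) (nat_lit 0x7b83692dea) (nat_lit 2202300360),
  Rx.mk (nat_lit 441) (nat_lit 1) (nat_lit 7) (nat_lit 6) (nat_lit 7) (nat_lit 305) (nat_lit 225) r12_305 r4_225 (nat_lit 0) (nat_lit 0) (nat_lit 0) (nat_lit 0x7b9dce877a) (nat_lit 2151688968)]
noncomputable def e51_48 : List Rx := [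
  Rx.mk (nat_lit 417) (nat_lit 1) (nat_lit 4) (nat_lit 6) (nat_lit 5) (nat_lit 306) (nat_lit 347) r12_306 r9_347 (nat_lit 0) (nat_lit 0) (nat_lit 0) (nat_lit 0x7db5ac2788) (nat_lit 1124222112),
  Rx.mk (nat_lit 425) (nat_lit 1) (nat_lit 5) (nat_lit 6) (nat_lit 7) (nat_lit 307) (nat_lit 348) r12_307 r9_348 (nat_lit 0) (nat_lit 0) (nat_lit 0) (nat_lit 0x7e63f48254) (nat_lit 790053264),
  Rx.mk (nat_lit 441) (nat_lit 1) (nat_lit 7) (nat_lit 6) (nat_lit 7) (nat_lit 308) (nat_lit 349) r12_308 r9_349 (nat_lit 0) (nat_lit 0) (nat_lit 0) (nat_lit 0x7e796d0ab6) (nat_lit 748885176)]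
noncomputable def e51_49 : List Rx := [
  Rx.mk (nat_lit 441) (nat_lit 1) (nat_lit 7) (nat_lit 6) (nat_lit 7) (nat_lit 309) (nat_lit 356) r12_309 r10_356 (nat_lit 0) (nat_lit 0) (nat_lit 0) (nat_lit 0x7f0597e77c) (nat_lit 480128688)]
noncomputable def e51_50 : List Rx := [
  Rx.mk (nat_lit 416) (nat_lit 0) (nat_lit 4) (nat_lit 6) (nat_lit 4) (nat_lit 315) (nat_lit 273) r12_315 r10_273 (nat_lit 0) (nat_lit 0) (nat_lit 0) (nat_lit 0x771b6bd228) (nat_lit 4365103392),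
  Rx.mk (nat_lit 417) (nat_lit 1) (nat_lit 4) (nat_lit 6) (nat_lit 5) (nat_lit 318) (nat_lit 274) r12_318 r10_274 (nat_lit 0) (nat_lit 0) (nat_lit 0) (nat_lit 0x7d6315f13e) (nat_lit 1282573656),
  Rx.mk (nat_lit 419) (nat_lit 3) (nat_lit 4) (nat_lit 6) (nat_lit 5) (nat_lit 321) (nat_lit 275) r12_321 r10_275 (nat_lit 0) (nat_lit 0) (nat_lit 0) (nat_lit 0x7dd6261fc8) (nat_lit 1061951904),
  Rx.mk (nat_lit 424) (nat_lit 0) (nat_lit 5) (nat_lit 6) (nat_lit 6) (nat_lit 316) (nat_lit 276) r12_316 r10_276 (nat_lit 0) (nat_lit 0) (nat_lit 0) (nat_lit 0x7d971a50c4) (nat_lit 1182836304),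
  Rx.mk (nat_lit 425) (nat_lit 1) (nat_lit 5) (nat_lit 6) (nat_lit 7) (nat_lit 319) (nat_lit 277) r12_319 r10_277 (nat_lit 0) (nat_lit 0) (nat_lit 0) (nat_lit 0x7e00b1f6e0) (nat_lit 980373888),
  Rx.mk (nat_lit 427) (nat_lit 3) (nat_lit 5) (nat_lit 6) (nat_lit 7) (nat_lit 322) (nat_lit 278) r12_322 r10_278 (nat_lit 0) (nat_lit 0) (nat_lit 0) (nat_lit 0x7ddda307f2) (nat_lit 1047594600),
  Rx.mk (nat_lit 440) (nat_lit 0) (nat_lit 7) (nat_lit 6) (nat_lit 6) (nat_lit 317) (nat_lit 279) r12_317 r10_279 (nat_lit 0) (nat_lit 0) (nat_lit 0) (nat_lit 0x7dea0ba15c) (nat_lit 1023802416),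
  Rx.mk (nat_lit 441) (nat_lit 1) (nat_lit 7) (nat_lit 6) (nat_lit 7) (nat_lit 320) (nat_lit 280) r12_320 r10_280 (nat_lit 0) (nat_lit 0) (nat_lit 0) (nat_lit 0x7de5e7c39e) (nat_lit 1031740632)]
noncomputable def e51_51 : List Rx := [
  Rx.mk (nat_lit 54) (nat_lit 6) (nat_lit 6) (nat_lit 0) (nat_lit 3) (nat_lit 35) (nat_lit 49) r12_35 r12_49 (nat_lit 0) (nat_lit 0) (nat_lit 0) (nat_lit 0x77d2f95898) (nat_lit 4013159904),
  Rx.mk (nat_lit 167) (nat_lit 7) (nat_lit 4) (nat_lit 2) (nat_lit 5) (nat_lit 39) (nat_lit 44) r12_39 r12_44 (nat_lit 0) (nat_lit 0) (nat_lit 0) (nat_lit 0x7370c2a066) (nat_lit 6164888184),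
  Rx.mk (nat_lit 180) (nat_lit 4) (nat_lit 6) (nat_lit 2) (nat_lit 6) (nat_lit 34) (nat_lit 43) r12_34 r12_43 (nat_lit 0) (nat_lit 0) (nat_lit 0) (nat_lit 0x8000000000) (nat_lit 0),
  Rx.mk (nat_lit 182) (nat_lit 6) (nat_lit 6) (nat_lit 2) (nat_lit 7) (nat_lit 36) (nat_lit 51) r12_36 r12_51 (nat_lit 0) (nat_lit 0) (nat_lit 0) (nat_lit 0x74dca9608e) (nat_lit 5467145112),
  Rx.mk (nat_lit 183) (nat_lit 7) (nat_lit 6) (nat_lit 2) (nat_lit 7) (nat_lit 40) (nat_lit 47) r12_40 r12_47 (nat_lit 0) (nat_lit 0) (nat_lit 0) (nat_lit 0x7fd4d5f2cc) (nat_lit 82762992),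
  Rx.mk (nat_lit 191) (nat_lit 7) (nat_lit 7) (nat_lit 2) (nat_lit 7) (nat_lit 42) (nat_lit 45) r12_42 r12_45 (nat_lit 0) (nat_lit 0) (nat_lit 0) (nat_lit 0x7ebad653e0) (nat_lit 623465856),
  Rx.mk (nat_lit 210) (nat_lit 2) (nat_lit 2) (nat_lit 3) (nat_lit 7) (nat_lit 46) (nat_lit 41) r12_46 r12_41 (nat_lit 0) (nat_lit 0) (nat_lit 0) (nat_lit 0x703c5c69fe) (nat_lit 7737918552),
  Rx.mk (nat_lit 214) (nat_lit 6) (nat_lit 2) (nat_lit 3) (nat_lit 7) (nat_lit 38) (nat_lit 48) r12_38 r12_48 (nat_lit 0) (nat_lit 0) (nat_lit 0) (nat_lit 0x7769843054) (nat_lit 4215363984),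
  Rx.mk (nat_lit 246) (nat_lit 6) (nat_lit 6) (nat_lit 3) (nat_lit 7) (nat_lit 37) (nat_lit 50) r12_37 r12_50 (nat_lit 0) (nat_lit 0) (nat_lit 0) (nat_lit 0x7e72f2126c) (nat_lit 761310576),
  Rx.mk (nat_lit 283) (nat_lit 3) (nat_lit 3) (nat_lit 4) (nat_lit 3) (nat_lit 49) (nat_lit 35) r12_49 r12_35 (nat_lit 0) (nat_lit 0) (nat_lit 0) (nat_lit 0x77d2f95898) (nat_lit 4013159904),
  Rx.mk (nat_lit 411) (nat_lit 3) (nat_lit 3) (nat_lit 6) (nat_lit 7) (nat_lit 50) (nat_lit 37) r12_50 r12_37 (nat_lit 0) (nat_lit 0) (nat_lit 0) (nat_lit 0x7e72f2126c) (nat_lit 761310576),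
  Rx.mk (nat_lit 443) (nat_lit 3) (nat_lit 7) (nat_lit 6) (nat_lit 7) (nat_lit 48) (nat_lit 38) r12_48 r12_38 (nat_lit 0) (nat_lit 0) (nat_lit 0) (nat_lit 0x7769843054) (nat_lit 4215363984),
  Rx.mk (nat_lit 447) (nat_lit 7) (nat_lit 7) (nat_lit 6) (nat_lit 7) (nat_lit 41) (nat_lit 46) r12_41 r12_46 (nat_lit 0) (nat_lit 0) (nat_lit 0) (nat_lit 0x703c5c69fe) (nat_lit 7737918552),
  Rx.mk (nat_lit 450) (nat_lit 2) (nat_lit 0) (nat_lit 7) (nat_lit 5) (nat_lit 44) (nat_lit 39) r12_44 r12_39 (nat_lit 0) (nat_lit 0) (nat_lit 0) (nat_lit 0x7370c2a066) (nat_lit 6164888184),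
  Rx.mk (nat_lit 466) (nat_lit 2) (nat_lit 2) (nat_lit 7) (nat_lit 7) (nat_lit 45) (nat_lit 42) r12_45 r12_42 (nat_lit 0) (nat_lit 0) (nat_lit 0) (nat_lit 0x7ebad653e0) (nat_lit 623465856),
  Rx.mk (nat_lit 472) (nat_lit 0) (nat_lit 3) (nat_lit 7) (nat_lit 6) (nat_lit 43) (nat_lit 34) r12_43 r12_34 (nat_lit 0) (nat_lit 0) (nat_lit 0) (nat_lit 0x8000000000) (nat_lit 0),
  Rx.mk (nat_lit 474) (nat_lit 2) (nat_lit 3) (nat_lit 7) (nat_lit 7) (nat_lit 47) (nat_lit 40) r12_47 r12_40 (nat_lit 0) (nat_lit 0) (nat_lit 0) (nat_lit 0x7fd4d5f2cc) (nat_lit 82762992),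
  Rx.mk (nat_lit 475) (nat_lit 3) (nat_lit 3) (nat_lit 7) (nat_lit 7) (nat_lit 51) (nat_lit 36) r12_51 r12_36 (nat_lit 0) (nat_lit 0) (nat_lit 0) (nat_lit 0x74dca9608e) (nat_lit 5467145112)]
noncomputable def e51_52 : List Rx := [
  Rx.mk (nat_lit 258) (nat_lit 2) (nat_lit 0) (nat_lit 4) (nat_lit 1) (nat_lit 83) (nat_lit 80) r12_83 r12_80 (nat_lit 0) (nat_lit 0) (nat_lit 0) (nat_lit 0x8000000000) (nat_lit 0),
  Rx.mk (nat_lit 274) (nat_lit 2) (nat_lit 2) (nat_lit 4) (nat_lit 3) (nat_lit 86) (nat_lit 91) r12_86 r12_91 (nat_lit 0) (nat_lit 0) (nat_lit 0) (nat_lit 0x7bc3dc8674) (nat_lit 2078723088),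
  Rx.mk (nat_lit 280) (nat_lit 0) (nat_lit 3) (nat_lit 4) (nat_lit 2) (nat_lit 80) (nat_lit 83) r12_80 r12_83 (nat_lit 0) (nat_lit 0) (nat_lit 0) (nat_lit 0x8000000000) (nat_lit 0),
  Rx.mk (nat_lit 282) (nat_lit 2) (nat_lit 3) (nat_lit 4) (nat_lit 3) (nat_lit 89) (nat_lit 89) r12_89 r12_89 (nat_lit 0) (nat_lit 0) (nat_lit 0) (nat_lit 0x7f80b8b4f4) (nat_lit 244043280),
  Rx.mk (nat_lit 283) (nat_lit 3) (nat_lit 3) (nat_lit 4) (nat_lit 3) (nat_lit 91) (nat_lit 86) r12_91 r12_86 (nat_lit 0) (nat_lit 0) (nat_lit 0) (nat_lit 0x7bc3dc8674) (nat_lit 2078723088),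
  Rx.mk (nat_lit 322) (nat_lit 2) (nat_lit 0) (nat_lit 5) (nat_lit 5) (nat_lit 84) (nat_lit 81) r12_84 r12_81 (nat_lit 0) (nat_lit 0) (nat_lit 0) (nat_lit 0x7de6a637b6) (nat_lit 1030314168),
  Rx.mk (nat_lit 338) (nat_lit 2) (nat_lit 2) (nat_lit 5) (nat_lit 7) (nat_lit 87) (nat_lit 92) r12_87 r12_92 (nat_lit 0) (nat_lit 0) (nat_lit 0) (nat_lit 0x7cd60782b2) (nat_lit 1553034600),
  Rx.mk (nat_lit 344) (nat_lit 0) (nat_lit 3) (nat_lit 5) (nat_lit 6) (nat_lit 81) (nat_lit 84) r12_81 r12_84 (nat_lit 0) (nat_lit 0) (nat_lit 0) (nat_lit 0x7de6a637b6) (nat_lit 1030314168),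
  Rx.mk (nat_lit 346) (nat_lit 2) (nat_lit 3) (nat_lit 5) (nat_lit 7) (nat_lit 90) (nat_lit 90) r12_90 r12_90 (nat_lit 0) (nat_lit 0) (nat_lit 0) (nat_lit 0x7e6d676b1c) (nat_lit 771936048),
  Rx.mk (nat_lit 347) (nat_lit 3) (nat_lit 3) (nat_lit 5) (nat_lit 7) (nat_lit 92) (nat_lit 87) r12_92 r12_87 (nat_lit 0) (nat_lit 0) (nat_lit 0) (nat_lit 0x7cd60782b2) (nat_lit 1553034600),
  Rx.mk (nat_lit 408) (nat_lit 0) (nat_lit 3) (nat_lit 6) (nat_lit 6) (nat_lit 82) (nat_lit 85) r12_82 r12_85 (nat_lit 0) (nat_lit 0) (nat_lit 0) (nat_lit 0x7f1b4c6c1e) (nat_lit 438511320),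
  Rx.mk (nat_lit 411) (nat_lit 3) (nat_lit 3) (nat_lit 6) (nat_lit 7) (nat_lit 93) (nat_lit 88) r12_93 r12_88 (nat_lit 0) (nat_lit 0) (nat_lit 0) (nat_lit 0x7e3d2f8eca) (nat_lit 864389448),
  Rx.mk (nat_lit 450) (nat_lit 2) (nat_lit 0) (nat_lit 7) (nat_lit 5) (nat_lit 85) (nat_lit 82) r12_85 r12_82 (nat_lit 0) (nat_lit 0) (nat_lit 0) (nat_lit 0x7f1b4c6c1e) (nat_lit 438511320),
  Rx.mk (nat_lit 466) (nat_lit 2) (nat_lit 2) (nat_lit 7) (nat_lit 7) (nat_lit 88) (nat_lit 93) r12_88 r12_93 (nat_lit 0) (nat_lit 0) (nat_lit 0) (nat_lit 0x7e3d2f8eca) (nat_lit 864389448)]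
noncomputable def e51_53 : List Rx := [
  Rx.mk (nat_lit 167) (nat_lit 7) (nat_lit 4) (nat_lit 2) (nat_lit 5) (nat_lit 226) (nat_lit 228) r12_226 r12_228 (nat_lit 0) (nat_lit 0) (nat_lit 0) (nat_lit 0x7ccfdde552) (nat_lit 1564850664),
  Rx.mk (nat_lit 183) (nat_lit 7) (nat_lit 6) (nat_lit 2) (nat_lit 7) (nat_lit 227) (nat_lit 229) r12_227 r12_229 (nat_lit 0) (nat_lit 0) (nat_lit 0) (nat_lit 0x7eb01cdf82) (nat_lit 644028840),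
  Rx.mk (nat_lit 419) (nat_lit 3) (nat_lit 4) (nat_lit 6) (nat_lit 5) (nat_lit 228) (nat_lit 226) r12_228 r12_226 (nat_lit 0) (nat_lit 0) (nat_lit 0) (nat_lit 0x7ccfdde552) (nat_lit 1564850664),
  Rx.mk (nat_lit 423) (nat_lit 7) (nat_lit 4) (nat_lit 6) (nat_lit 5) (nat_lit 225) (nat_lit 225) r12_225 r12_225 (nat_lit 0) (nat_lit 0) (nat_lit 0) (nat_lit 0x8000000000) (nat_lit 0),
  Rx.mk (nat_lit 443) (nat_lit 3) (nat_lit 7) (nat_lit 6) (nat_lit 7) (nat_lit 229) (nat_lit 227) r12_229 r12_227 (nat_lit 0) (nat_lit 0) (nat_lit 0) (nat_lit 0x7eb01cdf82) (nat_lit 644028840)]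
noncomputable def e51_54 : List Rx := [
  Rx.mk (nat_lit 280) (nat_lit 0) (nat_lit 3) (nat_lit 4) (nat_lit 2) (nat_lit 235) (nat_lit 310) r12_235 r12_310 (nat_lit 0) (nat_lit 0) (nat_lit 0) (nat_lit 0x8000000000) (nat_lit 0),
  Rx.mk (nat_lit 282) (nat_lit 2) (nat_lit 3) (nat_lit 4) (nat_lit 3) (nat_lit 238) (nat_lit 311) r12_238 r12_311 (nat_lit 0) (nat_lit 0) (nat_lit 0) (nat_lit 0x7f220180c6) (nat_lit 425650680),
  Rx.mk (nat_lit 344) (nat_lit 0) (nat_lit 3) (nat_lit 5) (nat_lit 6) (nat_lit 236) (nat_lit 312) r12_236 r12_312 (nat_lit 0) (nat_lit 0) (nat_lit 0) (nat_lit 0x7d6cf2f364) (nat_lit 1263661776),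
  Rx.mk (nat_lit 346) (nat_lit 2) (nat_lit 3) (nat_lit 5) (nat_lit 7) (nat_lit 239) (nat_lit 313) r12_239 r12_313 (nat_lit 0) (nat_lit 0) (nat_lit 0) (nat_lit 0x7e9736adfe) (nat_lit 691770456),
  Rx.mk (nat_lit 408) (nat_lit 0) (nat_lit 3) (nat_lit 6) (nat_lit 6) (nat_lit 237) (nat_lit 314) r12_237 r12_314 (nat_lit 0) (nat_lit 0) (nat_lit 0) (nat_lit 0x7f2c8cd806) (nat_lit 405433080)]
noncomputable def e51_55 : List Rx := [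
  Rx.mk (nat_lit 416) (nat_lit 0) (nat_lit 4) (nat_lit 6) (nat_lit 4) (nat_lit 323) (nat_lit 358) r12_323 r3_358 (nat_lit 0) (nat_lit 0) (nat_lit 0) (nat_lit 0x8000000000) (nat_lit 0),
  Rx.mk (nat_lit 417) (nat_lit 1) (nat_lit 4) (nat_lit 6) (nat_lit 5) (nat_lit 294) (nat_lit 312) r12_294 r3_312 (nat_lit 0) (nat_lit 0) (nat_lit 0) (nat_lit 0x794234437a) (nat_lit 3309034248),
  Rx.mk (nat_lit 440) (nat_lit 0) (nat_lit 7) (nat_lit 6) (nat_lit 6) (nat_lit 293) (nat_lit 311) r12_293 r3_311 (nat_lit 0) (nat_lit 0) (nat_lit 0) (nat_lit 0x7fb77b4894) (nat_lit 139046544),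
  Rx.mk (nat_lit 441) (nat_lit 1) (nat_lit 7) (nat_lit 6) (nat_lit 7) (nat_lit 295) (nat_lit 313) r12_295 r3_313 (nat_lit 0) (nat_lit 0) (nat_lit 0) (nat_lit 0x7f2d71e9b4) (nat_lit 403717392)]
noncomputable def e51_56 : List Rx := [
  Rx.mk (nat_lit 440) (nat_lit 0) (nat_lit 7) (nat_lit 6) (nat_lit 6) (nat_lit 302) (nat_lit 302) r12_302 r12_302 (nat_lit 0) (nat_lit 0) (nat_lit 0) (nat_lit 0x7ea302313a) (nat_lit 669154824),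
  Rx.mk (nat_lit 441) (nat_lit 1) (nat_lit 7) (nat_lit 6) (nat_lit 7) (nat_lit 303) (nat_lit 303) r12_303 r12_303 (nat_lit 0) (nat_lit 0) (nat_lit 0) (nat_lit 0x7e78753a34) (nat_lit 750741264)]
noncomputable def e51_57 : List Rx := [
  Rx.mk (nat_lit 416) (nat_lit 0) (nat_lit 4) (nat_lit 6) (nat_lit 4) (nat_lit 310) (nat_lit 235) r12_310 r12_235 (nat_lit 0) (nat_lit 0) (nat_lit 0) (nat_lit 0x8000000000) (nat_lit 0),
  Rx.mk (nat_lit 417) (nat_lit 1) (nat_lit 4) (nat_lit 6) (nat_lit 5) (nat_lit 312) (nat_lit 236) r12_312 r12_236 (nat_lit 0) (nat_lit 0) (nat_lit 0) (nat_lit 0x7d6cf2f364) (nat_lit 1263661776),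
  Rx.mk (nat_lit 419) (nat_lit 3) (nat_lit 4) (nat_lit 6) (nat_lit 5) (nat_lit 314) (nat_lit 237) r12_314 r12_237 (nat_lit 0) (nat_lit 0) (nat_lit 0) (nat_lit 0x7f2c8cd806) (nat_lit 405433080),
  Rx.mk (nat_lit 440) (nat_lit 0) (nat_lit 7) (nat_lit 6) (nat_lit 6) (nat_lit 311) (nat_lit 238) r12_311 r12_238 (nat_lit 0) (nat_lit 0) (nat_lit 0) (nat_lit 0x7f220180c6) (nat_lit 425650680),
  Rx.mk (nat_lit 441) (nat_lit 1) (nat_lit 7) (nat_lit 6) (nat_lit 7) (nat_lit 313) (nat_lit 239) r12_313 r12_239 (nat_lit 0) (nat_lit 0) (nat_lit 0) (nat_lit 0x7e9736adfe) (nat_lit 691770456)]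
noncomputable def e51 : List (List Rx) := [e51_0, e51_1, e51_2, e51_3, e51_4, e51_5, e51_6, e51_7, e51_8, e51_9, e51_10, e51_11, e51_12, e51_13, e51_14, e51_15, e51_16, e51_17, e51_18, e51_19, e51_20, e51_21, e51_22, e51_23, e51_24, e51_25, e51_26, e51_27, e51_28, e51_29, e51_30, e51_31, e51_32, e51_33, e51_34, e51_35, e51_36, e51_37, e51_38, e51_39, e51_40, e51_41, e51_42, e51_43, e51_44, e51_45, e51_46, e51_47, e51_48, e51_49, e51_50, e51_51, e51_52, e51_53, e51_54, e51_55, e51_56, e51_57]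

end Pool.Agent.AKXS_0_25_WE
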