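import Pool.Agent.AKXS_0_25_WE.R0
import Pool.Agent.AKXS_0_25_WE.R1
import Pool.Agent.AKXS_0_25_WE.R2
import Pool.Agent.AKXS_0_25_WE.R3
import Pool.Agent.AKXS_0_25_WE.R4
import Pool.Agent.AKXS_0_25_WE.R5
import Pool.Agent.AKXS_0_25_WE.R6
import Pool.Agent.AKXS_0_25_WE.R7
import Pool.Agent.AKXS_0_25_WE.R8
import Pool.Agent.AKXS_0_25_WE.R9
import Pool.Agent.AKXS_0_25_WE.R10
import Pool.Agent.AKXS_0_25_WE.R11
import Pool.Agent.AKXS_0_25_WE.R12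

set_option autoImplicit false

namespace Pool.Agent.AKXS_0_25_WE

open Pool.Agent.AKX Pool.Agent.AKU

noncomputable def e52_0 : List Rx := [
  Rx.mk (nat_lit 116) (nat_lit 4) (nat_lit 6) (nat_lit 1) (nat_lit 6) (nat_lit 61) (nat_lit 89) r12_61 r0_89 (nat_lit 0) (nat_lit 0) (nat_lit 0) (nat_lit 0x75d5ae0f4a) (nat_lit 4989678408),
  Rx.mk (nat_lit 118) (nat_lit 6) (nat_lit 6) (nat_lit 1) (nat_lit 7) (nat_lit 62) (nat_lit 90) r12_62 r0_90 (nat_lit 0) (nat_lit 0) (nat_lit 0) (nat_lit 0x7ec6f5d1dc) (nat_lit 600221232)]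
noncomputable def e52_1 : List Rx := [
  Rx.mk (nat_lit 116) (nat_lit 4) (nat_lit 6) (nat_lit 1) (nat_lit 6) (nat_lit 63) (nat_lit 91) r12_63 r1_91 (nat_lit 0) (nat_lit 0) (nat_lit 0) (nat_lit 0x7a1ced3710) (nat_lit 2889656640),
  Rx.mk (nat_lit 118) (nat_lit 6) (nat_lit 6) (nat_lit 1) (nat_lit 7) (nat_lit 64) (nat_lit 92) r12_64 r1_92 (nat_lit 0) (nat_lit 0) (nat_lit 0) (nat_lit 0x7adb1c5360) (nat_lit 2524998528),
  Rx.mk (nat_lit 374) (nat_lit 6) (nat_lit 6) (nat_lit 5) (nat_lit 7) (nat_lit 65) (nat_lit 93) r12_65 r1_93 (nat_lit 0) (nat_lit 0) (nat_lit 0) (nat_lit 0x7e7f436d4a) (nat_lit 737692488)]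
noncomputable def e52_2 : List Rx := [
  Rx.mk (nat_lit 342) (nat_lit 6) (nat_lit 2) (nat_lit 5) (nat_lit 7) (nat_lit 14) (nat_lit 96) r12_14 r2_96 (nat_lit 0) (nat_lit 0) (nat_lit 0) (nat_lit 0x7df79428c6) (nat_lit 997853688),
  Rx.mk (nat_lit 374) (nat_lit 6) (nat_lit 6) (nat_lit 5) (nat_lit 7) (nat_lit 15) (nat_lit 97) r12_15 r2_97 (nat_lit 0) (nat_lit 0) (nat_lit 0) (nat_lit 0x7e3bb246a0) (nat_lit 867245184)]
noncomputable def e52_3 : List Rx := [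
  Rx.mk (nat_lit 39) (nat_lit 7) (nat_lit 4) (nat_lit 0) (nat_lit 1) (nat_lit 52) (nat_lit 353) r12_52 r3_353 (nat_lit 0) (nat_lit 0) (nat_lit 0) (nat_lit 0x8000000000) (nat_lit 0),
  Rx.mk (nat_lit 52) (nat_lit 4) (nat_lit 6) (nat_lit 0) (nat_lit 2) (nat_lit 55) (nat_lit 80) r12_55 r3_80 (nat_lit 0) (nat_lit 0) (nat_lit 0) (nat_lit 0x8000000000) (nat_lit 0),
  Rx.mk (nat_lit 54) (nat_lit 6) (nat_lit 6) (nat_lit 0) (nat_lit 3) (nat_lit 57) (nat_lit 86) r12_57 r3_86 (nat_lit 0) (nat_lit 0) (nat_lit 0) (nat_lit 0x7d4a01a29c) (nat_lit 1330660656),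
  Rx.mk (nat_lit 55) (nat_lit 7) (nat_lit 6) (nat_lit 0) (nat_lit 3) (nat_lit 59) (nat_lit 84) r12_59 r3_84 (nat_lit 0) (nat_lit 0) (nat_lit 0) (nat_lit 0x7fe86cb94c) (nat_lit 45203184),
  Rx.mk (nat_lit 103) (nat_lit 7) (nat_lit 4) (nat_lit 1) (nat_lit 5) (nat_lit 53) (nat_lit 82) r12_53 r3_82 (nat_lit 0) (nat_lit 0) (nat_lit 0) (nat_lit 0x7eb04a3cac) (nat_lit 643689072),
  Rx.mk (nat_lit 116) (nat_lit 4) (nat_lit 6) (nat_lit 1) (nat_lit 6) (nat_lit 56) (nat_lit 81) r12_56 r3_81 (nat_lit 0) (nat_lit 0) (nat_lit 0) (nat_lit 0x78dfe268fa) (nat_lit 3497552136),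
  Rx.mk (nat_lit 118) (nat_lit 6) (nat_lit 6) (nat_lit 1) (nat_lit 7) (nat_lit 58) (nat_lit 87) r12_58 r3_87 (nat_lit 0) (nat_lit 0) (nat_lit 0) (nat_lit 0x7b9901944e) (nat_lit 2160893592),
  Rx.mk (nat_lit 119) (nat_lit 7) (nat_lit 6) (nat_lit 1) (nat_lit 7) (nat_lit 60) (nat_lit 85) r12_60 r3_85 (nat_lit 0) (nat_lit 0) (nat_lit 0) (nat_lit 0x7f5a643a62) (nat_lit 317537064),
  Rx.mk (nat_lit 167) (nat_lit 7) (nat_lit 4) (nat_lit 2) (nat_lit 5) (nat_lit 54) (nat_lit 83) r12_54 r3_83 (nat_lit 0) (nat_lit 0) (nat_lit 0) (nat_lit 0x7fc30d0f6c) (nat_lit 116863344)]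
noncomputable def e52_4 : List Rx := [
  Rx.mk (nat_lit 103) (nat_lit 7) (nat_lit 4) (nat_lit 1) (nat_lit 5) (nat_lit 66) (nat_lit 90) r12_66 r4_90 (nat_lit 0) (nat_lit 0) (nat_lit 0) (nat_lit 0x7f16fd1118) (nat_lit 446775264),
  Rx.mk (nat_lit 116) (nat_lit 4) (nat_lit 6) (nat_lit 1) (nat_lit 6) (nat_lit 67) (nat_lit 89) r12_67 r4_89 (nat_lit 0) (nat_lit 0) (nat_lit 0) (nat_lit 0x7e028ed910) (nat_lit 976802112),
  Rx.mk (nat_lit 118) (nat_lit 6) (nat_lit 6) (nat_lit 1) (nat_lit 7) (nat_lit 68) (nat_lit 92) r12_68 r4_92 (nat_lit 0) (nat_lit 0) (nat_lit 0) (nat_lit 0x7e502f9eb6) (nat_lit 827958456),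
  Rx.mk (nat_lit 119) (nat_lit 7) (nat_lit 6) (nat_lit 1) (nat_lit 7) (nat_lit 69) (nat_lit 91) r12_69 r4_91 (nat_lit 0) (nat_lit 0) (nat_lit 0) (nat_lit 0x7eff7569aa) (nat_lit 491891400)]
noncomputable def e52_5 : List Rx := [
  Rx.mk (nat_lit 152) (nat_lit 0) (nat_lit 3) (nat_lit 2) (nat_lit 6) (nat_lit 21) (nat_lit 352) r12_21 r3_352 (nat_lit 0) (nat_lit 0) (nat_lit 0) (nat_lit 0x8000000000) (nat_lit 0),
  Rx.mk (nat_lit 155) (nat_lit 3) (nat_lit 3) (nat_lit 2) (nat_lit 7) (nat_lit 24) (nat_lit 53) r12_24 r3_53 (nat_lit 0) (nat_lit 0) (nat_lit 0) (nat_lit 0x791d0196ca) (nat_lit 3380357448),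
  Rx.mk (nat_lit 187) (nat_lit 3) (nat_lit 7) (nat_lit 2) (nat_lit 7) (nat_lit 26) (nat_lit 49) r12_26 r3_49 (nat_lit 0) (nat_lit 0) (nat_lit 0) (nat_lit 0x7e98a7f6e8) (nat_lit 689004576),
  Rx.mk (nat_lit 274) (nat_lit 2) (nat_lit 2) (nat_lit 4) (nat_lit 3) (nat_lit 17) (nat_lit 57) r12_17 r3_57 (nat_lit 0) (nat_lit 0) (nat_lit 0) (nat_lit 0x7fececd146) (nat_lit 36574200),
  Rx.mk (nat_lit 278) (nat_lit 6) (nat_lit 2) (nat_lit 4) (nat_lit 3) (nat_lit 19) (nat_lit 55) r12_19 r3_55 (nat_lit 0) (nat_lit 0) (nat_lit 0) (nat_lit 0x7b0082bcd4) (nat_lit 2453287824),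
  Rx.mk (nat_lit 386) (nat_lit 2) (nat_lit 0) (nat_lit 6) (nat_lit 5) (nat_lit 16) (nat_lit 51) r12_16 r3_51 (nat_lit 0) (nat_lit 0) (nat_lit 0) (nat_lit 0x8000000000) (nat_lit 0),
  Rx.mk (nat_lit 402) (nat_lit 2) (nat_lit 2) (nat_lit 6) (nat_lit 7) (nat_lit 18) (nat_lit 58) r12_18 r3_58 (nat_lit 0) (nat_lit 0) (nat_lit 0) (nat_lit 0x7d72006288) (nat_lit 1253974176),
  Rx.mk (nat_lit 408) (nat_lit 0) (nat_lit 3) (nat_lit 6) (nat_lit 6) (nat_lit 22) (nat_lit 52) r12_22 r3_52 (nat_lit 0) (nat_lit 0) (nat_lit 0) (nat_lit 0x7735c94c36) (nat_lit 4314550968),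
  Rx.mk (nat_lit 410) (nat_lit 2) (nat_lit 3) (nat_lit 6) (nat_lit 7) (nat_lit 23) (nat_lit 54) r12_23 r3_54 (nat_lit 0) (nat_lit 0) (nat_lit 0) (nat_lit 0x7fbcc993aa) (nat_lit 128873160),
  Rx.mk (nat_lit 470) (nat_lit 6) (nat_lit 2) (nat_lit 7) (nat_lit 7) (nat_lit 20) (nat_lit 56) r12_20 r3_56 (nat_lit 0) (nat_lit 0) (nat_lit 0) (nat_lit 0x7f69370d26) (nat_lit 289114488),
  Rx.mk (nat_lit 502) (nat_lit 6) (nat_lit 6) (nat_lit 7) (nat_lit 7) (nat_lit 25) (nat_lit 50) r12_25 r3_50 (nat_lit 0) (nat_lit 0) (nat_lit 0) (nat_lit 0x7986b4fb2a) (nat_lit 3177687240)]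
noncomputable def e52_6 : List Rx := [
  Rx.mk (nat_lit 274) (nat_lit 2) (nat_lit 2) (nat_lit 4) (nat_lit 3) (nat_lit 1) (nat_lit 69) r12_1 r0_69 (nat_lit 0) (nat_lit 0) (nat_lit 0) (nat_lit 0x71e33a1a7c) (nat_lit 6927116976),
  Rx.mk (nat_lit 278) (nat_lit 6) (nat_lit 2) (nat_lit 4) (nat_lit 3) (nat_lit 3) (nat_lit 68) r12_3 r0_68 (nat_lit 0) (nat_lit 0) (nat_lit 0) (nat_lit 0x75cf3f763a) (nat_lit 5002011144),
  Rx.mk (nat_lit 310) (nat_lit 6) (nat_lit 6) (nat_lit 4) (nat_lit 3) (nat_lit 4) (nat_lit 65) r12_4 r0_65 (nat_lit 0) (nat_lit 0) (nat_lit 0) (nat_lit 0x720f3cda24) (nat_lit 6842730960),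
  Rx.mk (nat_lit 386) (nat_lit 2) (nat_lit 0) (nat_lit 6) (nat_lit 5) (nat_lit 0) (nat_lit 67) r12_0 r0_67 (nat_lit 0) (nat_lit 0) (nat_lit 0) (nat_lit 0x765c6d02d4) (nat_lit 4731317136),
  Rx.mk (nat_lit 402) (nat_lit 2) (nat_lit 2) (nat_lit 6) (nat_lit 7) (nat_lit 2) (nat_lit 70) r12_2 r0_70 (nat_lit 0) (nat_lit 0) (nat_lit 0) (nat_lit 0x7690a69f06) (nat_lit 4631181048),
  Rx.mk (nat_lit 502) (nat_lit 6) (nat_lit 6) (nat_lit 7) (nat_lit 7) (nat_lit 5) (nat_lit 66) r12_5 r0_66 (nat_lit 0) (nat_lit 0) (nat_lit 0) (nat_lit 0x7df1ba066e) (nat_lit 1009074456)]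
noncomputable def e52_7 : List Rx := [
  Rx.mk (nat_lit 274) (nat_lit 2) (nat_lit 2) (nat_lit 4) (nat_lit 3) (nat_lit 6) (nat_lit 63) r12_6 r1_63 (nat_lit 0) (nat_lit 0) (nat_lit 0) (nat_lit 0x7a1cc1b9c8) (nat_lit 2889982368),
  Rx.mk (nat_lit 278) (nat_lit 6) (nat_lit 2) (nat_lit 4) (nat_lit 3) (nat_lit 9) (nat_lit 61) r12_9 r1_61 (nat_lit 0) (nat_lit 0) (nat_lit 0) (nat_lit 0x7a959c4ba6) (nat_lit 2658257784),
  Rx.mk (nat_lit 310) (nat_lit 6) (nat_lit 6) (nat_lit 4) (nat_lit 3) (nat_lit 11) (nat_lit 58) r12_11 r1_58 (nat_lit 0) (nat_lit 0) (nat_lit 0) (nat_lit 0x76758bd0ce) (nat_lit 4683151512),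
  Rx.mk (nat_lit 338) (nat_lit 2) (nat_lit 2) (nat_lit 5) (nat_lit 7) (nat_lit 7) (nat_lit 64) r12_7 r1_64 (nat_lit 0) (nat_lit 0) (nat_lit 0) (nat_lit 0x7e3ee0f3b2) (nat_lit 861143400),
  Rx.mk (nat_lit 342) (nat_lit 6) (nat_lit 2) (nat_lit 5) (nat_lit 7) (nat_lit 10) (nat_lit 62) r12_10 r1_62 (nat_lit 0) (nat_lit 0) (nat_lit 0) (nat_lit 0x7effe88278) (nat_lit 491029344),
  Rx.mk (nat_lit 374) (nat_lit 6) (nat_lit 6) (nat_lit 5) (nat_lit 7) (nat_lit 12) (nat_lit 59) r12_12 r1_59 (nat_lit 0) (nat_lit 0) (nat_lit 0) (nat_lit 0x7e4f838978) (nat_lit 829247328),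
  Rx.mk (nat_lit 402) (nat_lit 2) (nat_lit 2) (nat_lit 6) (nat_lit 7) (nat_lit 8) (nat_lit 65) r12_8 r1_65 (nat_lit 0) (nat_lit 0) (nat_lit 0) (nat_lit 0x7c03ca075c) (nat_lit 1956148272),
  Rx.mk (nat_lit 502) (nat_lit 6) (nat_lit 6) (nat_lit 7) (nat_lit 7) (nat_lit 13) (nat_lit 60) r12_13 r1_60 (nat_lit 0) (nat_lit 0) (nat_lit 0) (nat_lit 0x7d35e3e48c) (nat_lit 1369231344)]
noncomputable def e52_8 : List Rx := [
  Rx.mk (nat_lit 274) (nat_lit 2) (nat_lit 2) (nat_lit 4) (nat_lit 3) (nat_lit 28) (nat_lit 63) r12_28 r4_63 (nat_lit 0) (nat_lit 0) (nat_lit 0) (nat_lit 0x7bf02e0130) (nat_lit 1993747392),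
  Rx.mk (nat_lit 278) (nat_lit 6) (nat_lit 2) (nat_lit 4) (nat_lit 3) (nat_lit 30) (nat_lit 61) r12_30 r4_61 (nat_lit 0) (nat_lit 0) (nat_lit 0) (nat_lit 0x7e3684f97a) (nat_lit 877171464),
  Rx.mk (nat_lit 386) (nat_lit 2) (nat_lit 0) (nat_lit 6) (nat_lit 5) (nat_lit 27) (nat_lit 59) r12_27 r4_59 (nat_lit 0) (nat_lit 0) (nat_lit 0) (nat_lit 0x7e7c8d78ac) (nat_lit 742890096),
  Rx.mk (nat_lit 402) (nat_lit 2) (nat_lit 2) (nat_lit 6) (nat_lit 7) (nat_lit 29) (nat_lit 64) r12_29 r4_64 (nat_lit 0) (nat_lit 0) (nat_lit 0) (nat_lit 0x7d62493e0a) (nat_lit 1284106824),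
  Rx.mk (nat_lit 410) (nat_lit 2) (nat_lit 3) (nat_lit 6) (nat_lit 7) (nat_lit 32) (nat_lit 60) r12_32 r4_60 (nat_lit 0) (nat_lit 0) (nat_lit 0) (nat_lit 0x7edd36edb4) (nat_lit 557550864),
  Rx.mk (nat_lit 470) (nat_lit 6) (nat_lit 2) (nat_lit 7) (nat_lit 7) (nat_lit 31) (nat_lit 62) r12_31 r4_62 (nat_lit 0) (nat_lit 0) (nat_lit 0) (nat_lit 0x7eac08c0c8) (nat_lit 651849120),
  Rx.mk (nat_lit 502) (nat_lit 6) (nat_lit 6) (nat_lit 7) (nat_lit 7) (nat_lit 33) (nat_lit 58) r12_33 r4_58 (nat_lit 0) (nat_lit 0) (nat_lit 0) (nat_lit 0x7e581e7fc0) (nat_lit 812747520)]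
noncomputable def e52_9 : List Rx := [
  Rx.mk (nat_lit 39) (nat_lit 7) (nat_lit 4) (nat_lit 0) (nat_lit 1) (nat_lit 70) (nat_lit 90) r12_70 r5_90 (nat_lit 0) (nat_lit 0) (nat_lit 0) (nat_lit 0x7e042adf4e) (nat_lit 973716120),
  Rx.mk (nat_lit 55) (nat_lit 7) (nat_lit 6) (nat_lit 0) (nat_lit 3) (nat_lit 75) (nat_lit 95) r12_75 r5_95 (nat_lit 0) (nat_lit 0) (nat_lit 0) (nat_lit 0x7dee681b90) (nat_lit 1015440192),
  Rx.mk (nat_lit 63) (nat_lit 7) (nat_lit 7) (nat_lit 0) (nat_lit 3) (nat_lit 78) (nat_lit 93) r12_78 r5_93 (nat_lit 0) (nat_lit 0) (nat_lit 0) (nat_lit 0x7a93662f0a) (nat_lit 2662497864),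
  Rx.mk (nat_lit 167) (nat_lit 7) (nat_lit 4) (nat_lit 2) (nat_lit 5) (nat_lit 71) (nat_lit 92) r12_71 r5_92 (nat_lit 0) (nat_lit 0) (nat_lit 0) (nat_lit 0x7f16d5b38e) (nat_lit 447070104),
  Rx.mk (nat_lit 187) (nat_lit 3) (nat_lit 7) (nat_lit 2) (nat_lit 7) (nat_lit 77) (nat_lit 88) r12_77 r5_88 (nat_lit 0) (nat_lit 0) (nat_lit 0) (nat_lit 0x7e41ba8616) (nat_lit 855679032),
  Rx.mk (nat_lit 191) (nat_lit 7) (nat_lit 7) (nat_lit 2) (nat_lit 7) (nat_lit 79) (nat_lit 94) r12_79 r5_94 (nat_lit 0) (nat_lit 0) (nat_lit 0) (nat_lit 0x7e52dd53d8) (nat_lit 822822624),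
  Rx.mk (nat_lit 231) (nat_lit 7) (nat_lit 4) (nat_lit 3) (nat_lit 5) (nat_lit 72) (nat_lit 91) r12_72 r5_91 (nat_lit 0) (nat_lit 0) (nat_lit 0) (nat_lit 0x7c7bbb67ce) (nat_lit 1726170264),
  Rx.mk (nat_lit 244) (nat_lit 4) (nat_lit 6) (nat_lit 3) (nat_lit 6) (nat_lit 73) (nat_lit 89) r12_73 r5_89 (nat_lit 0) (nat_lit 0) (nat_lit 0) (nat_lit 0x7e46331e88) (nat_lit 847106208),
  Rx.mk (nat_lit 246) (nat_lit 6) (nat_lit 6) (nat_lit 3) (nat_lit 7) (nat_lit 74) (nat_lit 97) r12_74 r5_97 (nat_lit 0) (nat_lit 0) (nat_lit 0) (nat_lit 0x7e5cc7752c) (nat_lit 803812464),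
  Rx.mk (nat_lit 247) (nat_lit 7) (nat_lit 6) (nat_lit 3) (nat_lit 7) (nat_lit 76) (nat_lit 96) r12_76 r5_96 (nat_lit 0) (nat_lit 0) (nat_lit 0) (nat_lit 0x7f0fa006f0) (nat_lit 460893888)]
noncomputable def e52_10 : List Rx := [
  Rx.mk (nat_lit 36) (nat_lit 4) (nat_lit 4) (nat_lit 0) (nat_lit 0) (nat_lit 152) (nat_lit 329) r12_152 r0_329 (nat_lit 0) (nat_lit 0) (nat_lit 0) (nat_lit 0x8000000000) (nat_lit 0),
  Rx.mk (nat_lit 37) (nat_lit 5) (nat_lit 4) (nat_lit 0) (nat_lit 1) (nat_lit 155) (nat_lit 330) r12_155 r0_330 (nat_lit 0) (nat_lit 0) (nat_lit 0) (nat_lit 0x7542556568) (nat_lit 5272199712),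
  Rx.mk (nat_lit 52) (nat_lit 4) (nat_lit 6) (nat_lit 0) (nat_lit 2) (nat_lit 158) (nat_lit 331) r12_158 r0_331 (nat_lit 0) (nat_lit 0) (nat_lit 0) (nat_lit 0x6fbb66b9da) (nat_lit 7985185416),
  Rx.mk (nat_lit 53) (nat_lit 5) (nat_lit 6) (nat_lit 0) (nat_lit 3) (nat_lit 160) (nat_lit 332) r12_160 r0_332 (nat_lit 0) (nat_lit 0) (nat_lit 0) (nat_lit 0x7dd134cee2) (nat_lit 1071428904),
  Rx.mk (nat_lit 54) (nat_lit 6) (nat_lit 6) (nat_lit 0) (nat_lit 3) (nat_lit 162) (nat_lit 333) r12_162 r0_333 (nat_lit 0) (nat_lit 0) (nat_lit 0) (nat_lit 0x7ac0cd7868) (nat_lit 2575441440),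
  Rx.mk (nat_lit 100) (nat_lit 4) (nat_lit 4) (nat_lit 1) (nat_lit 4) (nat_lit 153) (nat_lit 334) r12_153 r0_334 (nat_lit 0) (nat_lit 0) (nat_lit 0) (nat_lit 0x7328f59d7e) (nat_lit 6302558808),
  Rx.mk (nat_lit 101) (nat_lit 5) (nat_lit 4) (nat_lit 1) (nat_lit 5) (nat_lit 156) (nat_lit 335) r12_156 r0_335 (nat_lit 0) (nat_lit 0) (nat_lit 0) (nat_lit 0x7e0833bebc) (nat_lit 965980080),
  Rx.mk (nat_lit 116) (nat_lit 4) (nat_lit 6) (nat_lit 1) (nat_lit 6) (nat_lit 159) (nat_lit 336) r12_159 r0_336 (nat_lit 0) (nat_lit 0) (nat_lit 0) (nat_lit 0x7a9bd7e7e6) (nat_lit 2646306936),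
  Rx.mk (nat_lit 117) (nat_lit 5) (nat_lit 6) (nat_lit 1) (nat_lit 7) (nat_lit 161) (nat_lit 337) r12_161 r0_337 (nat_lit 0) (nat_lit 0) (nat_lit 0) (nat_lit 0x7e78339e4e) (nat_lit 751232664),
  Rx.mk (nat_lit 118) (nat_lit 6) (nat_lit 6) (nat_lit 1) (nat_lit 7) (nat_lit 163) (nat_lit 338) r12_163 r0_338 (nat_lit 0) (nat_lit 0) (nat_lit 0) (nat_lit 0x7e24231faa) (nat_lit 912417480),
  Rx.mk (nat_lit 164) (nat_lit 4) (nat_lit 4) (nat_lit 2) (nat_lit 4) (nat_lit 154) (nat_lit 339) r12_154 r0_339 (nat_lit 0) (nat_lit 0) (nat_lit 0) (nat_lit 0x8000000000) (nat_lit 0),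
  Rx.mk (nat_lit 165) (nat_lit 5) (nat_lit 4) (nat_lit 2) (nat_lit 5) (nat_lit 157) (nat_lit 340) r12_157 r0_340 (nat_lit 0) (nat_lit 0) (nat_lit 0) (nat_lit 0x7b4610a3b0) (nat_lit 2319924672)]
noncomputable def e52_11 : List Rx := [
  Rx.mk (nat_lit 100) (nat_lit 4) (nat_lit 4) (nat_lit 1) (nat_lit 4) (nat_lit 184) (nat_lit 88) r12_184 r6_88 (nat_lit 0) (nat_lit 0) (nat_lit 0) (nat_lit 0x6f2aece208) (nat_lit 8262203040),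
  Rx.mk (nat_lit 101) (nat_lit 5) (nat_lit 4) (nat_lit 1) (nat_lit 5) (nat_lit 185) (nat_lit 90) r12_185 r6_90 (nat_lit 0) (nat_lit 0) (nat_lit 0) (nat_lit 0x7dece293ea) (nat_lit 1018357704),
  Rx.mk (nat_lit 116) (nat_lit 4) (nat_lit 6) (nat_lit 1) (nat_lit 6) (nat_lit 186) (nat_lit 89) r12_186 r6_89 (nat_lit 0) (nat_lit 0) (nat_lit 0) (nat_lit 0x7e3ff4227e) (nat_lit 859082328),
  Rx.mk (nat_lit 117) (nat_lit 5) (nat_lit 6) (nat_lit 1) (nat_lit 7) (nat_lit 187) (nat_lit 91) r12_187 r6_91 (nat_lit 0) (nat_lit 0) (nat_lit 0) (nat_lit 0x7e49bf85be) (nat_lit 840302424),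
  Rx.mk (nat_lit 118) (nat_lit 6) (nat_lit 6) (nat_lit 1) (nat_lit 7) (nat_lit 188) (nat_lit 92) r12_188 r6_92 (nat_lit 0) (nat_lit 0) (nat_lit 0) (nat_lit 0x7dfaf092fc) (nat_lit 991409328)]
noncomputable def e52_12 : List Rx := [
  Rx.mk (nat_lit 37) (nat_lit 5) (nat_lit 4) (nat_lit 0) (nat_lit 1) (nat_lit 164) (nat_lit 310) r12_164 r1_310 (nat_lit 0) (nat_lit 0) (nat_lit 0) (nat_lit 0x776b6e91ac) (nat_lit 4211691120),
  Rx.mk (nat_lit 53) (nat_lit 5) (nat_lit 6) (nat_lit 0) (nat_lit 3) (nat_lit 167) (nat_lit 311) r12_167 r1_311 (nat_lit 0) (nat_lit 0) (nat_lit 0) (nat_lit 0x7e69f1827e) (nat_lit 778571352),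
  Rx.mk (nat_lit 101) (nat_lit 5) (nat_lit 4) (nat_lit 1) (nat_lit 5) (nat_lit 165) (nat_lit 312) r12_165 r1_312 (nat_lit 0) (nat_lit 0) (nat_lit 0) (nat_lit 0x7da1e863d8) (nat_lit 1162118880),
  Rx.mk (nat_lit 117) (nat_lit 5) (nat_lit 6) (nat_lit 1) (nat_lit 7) (nat_lit 168) (nat_lit 313) r12_168 r1_313 (nat_lit 0) (nat_lit 0) (nat_lit 0) (nat_lit 0x7db533cf0e) (nat_lit 1125123480),
  Rx.mk (nat_lit 165) (nat_lit 5) (nat_lit 4) (nat_lit 2) (nat_lit 5) (nat_lit 166) (nat_lit 314) r12_166 r1_314 (nat_lit 0) (nat_lit 0) (nat_lit 0) (nat_lit 0x7decb6b6a8) (nat_lit 1018686240)]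
noncomputable def e52_13 : List Rx := [
  Rx.mk (nat_lit 101) (nat_lit 5) (nat_lit 4) (nat_lit 1) (nat_lit 5) (nat_lit 189) (nat_lit 74) r12_189 r7_74 (nat_lit 0) (nat_lit 0) (nat_lit 0) (nat_lit 0x7dea1aa06c) (nat_lit 1023690096),
  Rx.mk (nat_lit 117) (nat_lit 5) (nat_lit 6) (nat_lit 1) (nat_lit 7) (nat_lit 190) (nat_lit 75) r12_190 r7_75 (nat_lit 0) (nat_lit 0) (nat_lit 0) (nat_lit 0x7e3b884940) (nat_lit 867559680)]
noncomputable def e52_14 : List Rx := [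
  Rx.mk (nat_lit 100) (nat_lit 4) (nat_lit 4) (nat_lit 1) (nat_lit 4) (nat_lit 191) (nat_lit 362) r12_191 r7_362 (nat_lit 0) (nat_lit 0) (nat_lit 0) (nat_lit 0x6335d77f54) (nat_lit 14131512720),
  Rx.mk (nat_lit 101) (nat_lit 5) (nat_lit 4) (nat_lit 1) (nat_lit 5) (nat_lit 192) (nat_lit 363) r12_192 r7_363 (nat_lit 0) (nat_lit 0) (nat_lit 0) (nat_lit 0x7da6297fc2) (nat_lit 1153961640),
  Rx.mk (nat_lit 116) (nat_lit 4) (nat_lit 6) (nat_lit 1) (nat_lit 6) (nat_lit 193) (nat_lit 364) r12_193 r7_364 (nat_lit 0) (nat_lit 0) (nat_lit 0) (nat_lit 0x7c2c753c80) (nat_lit 1878170112),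
  Rx.mk (nat_lit 117) (nat_lit 5) (nat_lit 6) (nat_lit 1) (nat_lit 7) (nat_lit 194) (nat_lit 365) r12_194 r7_365 (nat_lit 0) (nat_lit 0) (nat_lit 0) (nat_lit 0x7ddfee8338) (nat_lit 1043194464),
  Rx.mk (nat_lit 118) (nat_lit 6) (nat_lit 6) (nat_lit 1) (nat_lit 7) (nat_lit 195) (nat_lit 366) r12_195 r7_366 (nat_lit 0) (nat_lit 0) (nat_lit 0) (nat_lit 0x7dad63ac18) (nat_lit 1140104160),
  Rx.mk (nat_lit 374) (nat_lit 6) (nat_lit 6) (nat_lit 5) (nat_lit 7) (nat_lit 196) (nat_lit 361) r12_196 r7_361 (nat_lit 0) (nat_lit 0) (nat_lit 0) (nat_lit 0x7dd7808a20) (nat_lit 1059357312)]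
noncomputable def e52_15 : List Rx := [
  Rx.mk (nat_lit 342) (nat_lit 6) (nat_lit 2) (nat_lit 5) (nat_lit 7) (nat_lit 150) (nat_lit 63) r12_150 r8_63 (nat_lit 0) (nat_lit 0) (nat_lit 0) (nat_lit 0x7df198a884) (nat_lit 1009324368),
  Rx.mk (nat_lit 374) (nat_lit 6) (nat_lit 6) (nat_lit 5) (nat_lit 7) (nat_lit 151) (nat_lit 64) r12_151 r8_64 (nat_lit 0) (nat_lit 0) (nat_lit 0) (nat_lit 0x7deb738adc) (nat_lit 1021106736)]
noncomputable def e52_16 : List Rx := [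
  Rx.mk (nat_lit 36) (nat_lit 4) (nat_lit 4) (nat_lit 0) (nat_lit 0) (nat_lit 169) (nat_lit 366) r12_169 r4_366 (nat_lit 0) (nat_lit 0) (nat_lit 0) (nat_lit 0x656168c414) (nat_lit 13066269840),
  Rx.mk (nat_lit 37) (nat_lit 5) (nat_lit 4) (nat_lit 0) (nat_lit 1) (nat_lit 172) (nat_lit 367) r12_172 r4_367 (nat_lit 0) (nat_lit 0) (nat_lit 0) (nat_lit 0x70f7fe6f22) (nat_lit 7378151976),
  Rx.mk (nat_lit 39) (nat_lit 7) (nat_lit 4) (nat_lit 0) (nat_lit 1) (nat_lit 174) (nat_lit 368) r12_174 r4_368 (nat_lit 0) (nat_lit 0) (nat_lit 0) (nat_lit 0x754ac05eb0) (nat_lit 5256059328),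
  Rx.mk (nat_lit 52) (nat_lit 4) (nat_lit 6) (nat_lit 0) (nat_lit 2) (nat_lit 177) (nat_lit 369) r12_177 r4_369 (nat_lit 0) (nat_lit 0) (nat_lit 0) (nat_lit 0x6fa2424c3a) (nat_lit 8033393160),
  Rx.mk (nat_lit 53) (nat_lit 5) (nat_lit 6) (nat_lit 0) (nat_lit 3) (nat_lit 179) (nat_lit 370) r12_179 r4_370 (nat_lit 0) (nat_lit 0) (nat_lit 0) (nat_lit 0x7e34af96d2) (nat_lit 880687080),
  Rx.mk (nat_lit 54) (nat_lit 6) (nat_lit 6) (nat_lit 0) (nat_lit 3) (nat_lit 180) (nat_lit 372) r12_180 r4_372 (nat_lit 0) (nat_lit 0) (nat_lit 0) (nat_lit 0x7d88ecd3aa) (nat_lit 1210020552),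
  Rx.mk (nat_lit 55) (nat_lit 7) (nat_lit 6) (nat_lit 0) (nat_lit 3) (nat_lit 182) (nat_lit 371) r12_182 r4_371 (nat_lit 0) (nat_lit 0) (nat_lit 0) (nat_lit 0x7e20a9174e) (nat_lit 919083672),
  Rx.mk (nat_lit 100) (nat_lit 4) (nat_lit 4) (nat_lit 1) (nat_lit 4) (nat_lit 170) (nat_lit 373) r12_170 r4_373 (nat_lit 0) (nat_lit 0) (nat_lit 0) (nat_lit 0x7171c2f260) (nat_lit 7144675200),
  Rx.mk (nat_lit 103) (nat_lit 7) (nat_lit 4) (nat_lit 1) (nat_lit 5) (nat_lit 175) (nat_lit 374) r12_175 r4_374 (nat_lit 0) (nat_lit 0) (nat_lit 0) (nat_lit 0x7d15e364b4) (nat_lit 1430591760),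
  Rx.mk (nat_lit 116) (nat_lit 4) (nat_lit 6) (nat_lit 1) (nat_lit 6) (nat_lit 178) (nat_lit 375) r12_178 r4_375 (nat_lit 0) (nat_lit 0) (nat_lit 0) (nat_lit 0x7dd9dfe428) (nat_lit 1054808352),
  Rx.mk (nat_lit 118) (nat_lit 6) (nat_lit 6) (nat_lit 1) (nat_lit 7) (nat_lit 181) (nat_lit 377) r12_181 r4_377 (nat_lit 0) (nat_lit 0) (nat_lit 0) (nat_lit 0x7e0fdfe3f2) (nat_lit 951268968),
  Rx.mk (nat_lit 119) (nat_lit 7) (nat_lit 6) (nat_lit 1) (nat_lit 7) (nat_lit 183) (nat_lit 376) r12_183 r4_376 (nat_lit 0) (nat_lit 0) (nat_lit 0) (nat_lit 0x7e4606e14c) (nat_lit 847437552),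
  Rx.mk (nat_lit 164) (nat_lit 4) (nat_lit 4) (nat_lit 2) (nat_lit 4) (nat_lit 171) (nat_lit 378) r12_171 r4_378 (nat_lit 0) (nat_lit 0) (nat_lit 0) (nat_lit 0x6e2f0d2100) (nat_lit 8745145344),
  Rx.mk (nat_lit 165) (nat_lit 5) (nat_lit 4) (nat_lit 2) (nat_lit 5) (nat_lit 173) (nat_lit 379) r12_173 r4_379 (nat_lit 0) (nat_lit 0) (nat_lit 0) (nat_lit 0x7dad2f8f5a) (nat_lit 1140494472),
  Rx.mk (nat_lit 167) (nat_lit 7) (nat_lit 4) (nat_lit 2) (nat_lit 5) (nat_lit 176) (nat_lit 380) r12_176 r4_380 (nat_lit 0) (nat_lit 0) (nat_lit 0) (nat_lit 0x7e2ee053cc) (nat_lit 891826416)]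
noncomputable def e52_17 : List Rx := [
  Rx.mk (nat_lit 100) (nat_lit 4) (nat_lit 4) (nat_lit 1) (nat_lit 4) (nat_lit 197) (nat_lit 72) r12_197 r9_72 (nat_lit 0) (nat_lit 0) (nat_lit 0) (nat_lit 0x6f5f417c8a) (nat_lit 8161864776),
  Rx.mk (nat_lit 103) (nat_lit 7) (nat_lit 4) (nat_lit 1) (nat_lit 5) (nat_lit 198) (nat_lit 74) r12_198 r9_74 (nat_lit 0) (nat_lit 0) (nat_lit 0) (nat_lit 0x7d55b82728) (nat_lit 1308202272),
  Rx.mk (nat_lit 116) (nat_lit 4) (nat_lit 6) (nat_lit 1) (nat_lit 6) (nat_lit 199) (nat_lit 73) r12_199 r9_73 (nat_lit 0) (nat_lit 0) (nat_lit 0) (nat_lit 0x7e5a08811e) (nat_lit 809077464),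
  Rx.mk (nat_lit 118) (nat_lit 6) (nat_lit 6) (nat_lit 1) (nat_lit 7) (nat_lit 200) (nat_lit 76) r12_200 r9_76 (nat_lit 0) (nat_lit 0) (nat_lit 0) (nat_lit 0x7dd2da9484) (nat_lit 1068269904),
  Rx.mk (nat_lit 119) (nat_lit 7) (nat_lit 6) (nat_lit 1) (nat_lit 7) (nat_lit 201) (nat_lit 75) r12_201 r9_75 (nat_lit 0) (nat_lit 0) (nat_lit 0) (nat_lit 0x7e4050bcb4) (nat_lit 858388752)]
noncomputable def e52_18 : List Rx := [
  Rx.mk (nat_lit 36) (nat_lit 4) (nat_lit 4) (nat_lit 0) (nat_lit 0) (nat_lit 202) (nat_lit 68) r12_202 r10_68 (nat_lit 0) (nat_lit 0) (nat_lit 0) (nat_lit 0x4f8256cb14) (nat_lit 23801905296),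
  Rx.mk (nat_lit 37) (nat_lit 5) (nat_lit 4) (nat_lit 0) (nat_lit 1) (nat_lit 206) (nat_lit 75) r12_206 r10_75 (nat_lit 0) (nat_lit 0) (nat_lit 0) (nat_lit 0x762668e34c) (nat_lit 4834887408),
  Rx.mk (nat_lit 39) (nat_lit 7) (nat_lit 4) (nat_lit 0) (nat_lit 1) (nat_lit 209) (nat_lit 80) r12_209 r10_80 (nat_lit 0) (nat_lit 0) (nat_lit 0) (nat_lit 0x76d6a79eb0) (nat_lit 4496955840),
  Rx.mk (nat_lit 52) (nat_lit 4) (nat_lit 6) (nat_lit 0) (nat_lit 2) (nat_lit 212) (nat_lit 72) r12_212 r10_72 (nat_lit 0) (nat_lit 0) (nat_lit 0) (nat_lit 0x6f899876f0) (nat_lit 8080682688),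
  Rx.mk (nat_lit 53) (nat_lit 5) (nat_lit 6) (nat_lit 0) (nat_lit 3) (nat_lit 215) (nat_lit 78) r12_215 r10_78 (nat_lit 0) (nat_lit 0) (nat_lit 0) (nat_lit 0x7e21a6277c) (nat_lit 917188272),
  Rx.mk (nat_lit 54) (nat_lit 6) (nat_lit 6) (nat_lit 0) (nat_lit 3) (nat_lit 217) (nat_lit 88) r12_217 r10_88 (nat_lit 0) (nat_lit 0) (nat_lit 0) (nat_lit 0x7d77f5e32a) (nat_lit 1242548424),
  Rx.mk (nat_lit 55) (nat_lit 7) (nat_lit 6) (nat_lit 0) (nat_lit 3) (nat_lit 220) (nat_lit 86) r12_220 r10_86 (nat_lit 0) (nat_lit 0) (nat_lit 0) (nat_lit 0x7e1455dc8e) (nat_lit 942715800),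
  Rx.mk (nat_lit 63) (nat_lit 7) (nat_lit 7) (nat_lit 0) (nat_lit 3) (nat_lit 222) (nat_lit 83) r12_222 r10_83 (nat_lit 0) (nat_lit 0) (nat_lit 0) (nat_lit 0x7d8a287fee) (nat_lit 1207656216),
  Rx.mk (nat_lit 100) (nat_lit 4) (nat_lit 4) (nat_lit 1) (nat_lit 4) (nat_lit 203) (nat_lit 69) r12_203 r10_69 (nat_lit 0) (nat_lit 0) (nat_lit 0) (nat_lit 0x77191ff6e8) (nat_lit 4369506336),
  Rx.mk (nat_lit 103) (nat_lit 7) (nat_lit 4) (nat_lit 1) (nat_lit 5) (nat_lit 210) (nat_lit 81) r12_210 r10_81 (nat_lit 0) (nat_lit 0) (nat_lit 0) (nat_lit 0x7dd00b217e) (nat_lit 1073658456),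
  Rx.mk (nat_lit 116) (nat_lit 4) (nat_lit 6) (nat_lit 1) (nat_lit 6) (nat_lit 213) (nat_lit 73) r12_213 r10_73 (nat_lit 0) (nat_lit 0) (nat_lit 0) (nat_lit 0x7dc0395eaa) (nat_lit 1103990472),
  Rx.mk (nat_lit 118) (nat_lit 6) (nat_lit 6) (nat_lit 1) (nat_lit 7) (nat_lit 218) (nat_lit 89) r12_218 r10_89 (nat_lit 0) (nat_lit 0) (nat_lit 0) (nat_lit 0x7df35c0c4c) (nat_lit 1005943536),
  Rx.mk (nat_lit 119) (nat_lit 7) (nat_lit 6) (nat_lit 1) (nat_lit 7) (nat_lit 221) (nat_lit 87) r12_221 r10_87 (nat_lit 0) (nat_lit 0) (nat_lit 0) (nat_lit 0x7df712d0dc) (nat_lit 998822448),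
  Rx.mk (nat_lit 127) (nat_lit 7) (nat_lit 7) (nat_lit 1) (nat_lit 7) (nat_lit 223) (nat_lit 84) r12_223 r10_84 (nat_lit 0) (nat_lit 0) (nat_lit 0) (nat_lit 0x7ddcad774c) (nat_lit 1049433840),
  Rx.mk (nat_lit 164) (nat_lit 4) (nat_lit 4) (nat_lit 2) (nat_lit 4) (nat_lit 204) (nat_lit 71) r12_204 r10_71 (nat_lit 0) (nat_lit 0) (nat_lit 0) (nat_lit 0x71d4c381f4) (nat_lit 6954848784),
  Rx.mk (nat_lit 165) (nat_lit 5) (nat_lit 4) (nat_lit 2) (nat_lit 5) (nat_lit 207) (nat_lit 77) r12_207 r10_77 (nat_lit 0) (nat_lit 0) (nat_lit 0) (nat_lit 0x7de5630bea) (nat_lit 1032734664),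
  Rx.mk (nat_lit 167) (nat_lit 7) (nat_lit 4) (nat_lit 2) (nat_lit 5) (nat_lit 211) (nat_lit 82) r12_211 r10_82 (nat_lit 0) (nat_lit 0) (nat_lit 0) (nat_lit 0x7dc3830a0c) (nat_lit 1097686512),
  Rx.mk (nat_lit 191) (nat_lit 7) (nat_lit 7) (nat_lit 2) (nat_lit 7) (nat_lit 224) (nat_lit 85) r12_224 r10_85 (nat_lit 0) (nat_lit 0) (nat_lit 0) (nat_lit 0x7ddf540ce0) (nat_lit 1044351360),
  Rx.mk (nat_lit 228) (nat_lit 4) (nat_lit 4) (nat_lit 3) (nat_lit 4) (nat_lit 205) (nat_lit 70) r12_205 r10_70 (nat_lit 0) (nat_lit 0) (nat_lit 0) (nat_lit 0x749a460706) (nat_lit 5594437368),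
  Rx.mk (nat_lit 229) (nat_lit 5) (nat_lit 4) (nat_lit 3) (nat_lit 5) (nat_lit 208) (nat_lit 76) r12_208 r10_76 (nat_lit 0) (nat_lit 0) (nat_lit 0) (nat_lit 0x7df4fc9242) (nat_lit 1002823848),
  Rx.mk (nat_lit 244) (nat_lit 4) (nat_lit 6) (nat_lit 3) (nat_lit 6) (nat_lit 214) (nat_lit 74) r12_214 r10_74 (nat_lit 0) (nat_lit 0) (nat_lit 0) (nat_lit 0x7df140ee00) (nat_lit 1009981440),
  Rx.mk (nat_lit 245) (nat_lit 5) (nat_lit 6) (nat_lit 3) (nat_lit 7) (nat_lit 216) (nat_lit 79) r12_216 r10_79 (nat_lit 0) (nat_lit 0) (nat_lit 0) (nat_lit 0x7df9596c70) (nat_lit 994458816),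
  Rx.mk (nat_lit 246) (nat_lit 6) (nat_lit 6) (nat_lit 3) (nat_lit 7) (nat_lit 219) (nat_lit 90) r12_219 r10_90 (nat_lit 0) (nat_lit 0) (nat_lit 0) (nat_lit 0x7df79428c6) (nat_lit 997853688)]
noncomputable def e52_19 : List Rx := [
  Rx.mk (nat_lit 342) (nat_lit 6) (nat_lit 2) (nat_lit 5) (nat_lit 7) (nat_lit 123) (nat_lit 18) r12_123 r8_18 (nat_lit 0) (nat_lit 0) (nat_lit 0) (nat_lit 0x7ded19507e) (nat_lit 1017947736)]
noncomputable def e52_20 : List Rx := [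
  Rx.mk (nat_lit 128) (nat_lit 0) (nat_lit 0) (nat_lit 2) (nat_lit 4) (nat_lit 94) (nat_lit 204) r12_94 r0_204 (nat_lit 0) (nat_lit 0) (nat_lit 0) (nat_lit 0x8000000000) (nat_lit 0),
  Rx.mk (nat_lit 152) (nat_lit 0) (nat_lit 3) (nat_lit 2) (nat_lit 6) (nat_lit 100) (nat_lit 205) r12_100 r0_205 (nat_lit 0) (nat_lit 0) (nat_lit 0) (nat_lit 0x769593103a) (nat_lit 4621740552),
  Rx.mk (nat_lit 155) (nat_lit 3) (nat_lit 3) (nat_lit 2) (nat_lit 7) (nat_lit 101) (nat_lit 206) r12_101 r0_206 (nat_lit 0) (nat_lit 0) (nat_lit 0) (nat_lit 0x67426092b6) (nat_lit 12144063672),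
  Rx.mk (nat_lit 274) (nat_lit 2) (nat_lit 2) (nat_lit 4) (nat_lit 3) (nat_lit 97) (nat_lit 207) r12_97 r0_207 (nat_lit 0) (nat_lit 0) (nat_lit 0) (nat_lit 0x7b7e747d3a) (nat_lit 2211802632),
  Rx.mk (nat_lit 278) (nat_lit 6) (nat_lit 2) (nat_lit 4) (nat_lit 3) (nat_lit 99) (nat_lit 208) r12_99 r0_208 (nat_lit 0) (nat_lit 0) (nat_lit 0) (nat_lit 0x6c8ed0a668) (nat_lit 9543235104),
  Rx.mk (nat_lit 384) (nat_lit 0) (nat_lit 0) (nat_lit 6) (nat_lit 4) (nat_lit 95) (nat_lit 209) r12_95 r0_209 (nat_lit 0) (nat_lit 0) (nat_lit 0) (nat_lit 0x749db7cfe6) (nat_lit 5587832952),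
  Rx.mk (nat_lit 386) (nat_lit 2) (nat_lit 0) (nat_lit 6) (nat_lit 5) (nat_lit 96) (nat_lit 210) r12_96 r0_210 (nat_lit 0) (nat_lit 0) (nat_lit 0) (nat_lit 0x7d52e9d410) (nat_lit 1313582400),
  Rx.mk (nat_lit 402) (nat_lit 2) (nat_lit 2) (nat_lit 6) (nat_lit 7) (nat_lit 98) (nat_lit 211) r12_98 r0_211 (nat_lit 0) (nat_lit 0) (nat_lit 0) (nat_lit 0x7df6c1d5ec) (nat_lit 999428976)]
noncomputable def e52_21 : List Rx := [
  Rx.mk (nat_lit 128) (nat_lit 0) (nat_lit 0) (nat_lit 2) (nat_lit 4) (nat_lit 106) (nat_lit 225) r12_106 r1_225 (nat_lit 0) (nat_lit 0) (nat_lit 0) (nat_lit 0x8000000000) (nat_lit 0),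
  Rx.mk (nat_lit 136) (nat_lit 0) (nat_lit 1) (nat_lit 2) (nat_lit 6) (nat_lit 109) (nat_lit 226) r12_109 r1_226 (nat_lit 0) (nat_lit 0) (nat_lit 0) (nat_lit 0x7eb6a736d6) (nat_lit 631488312),
  Rx.mk (nat_lit 152) (nat_lit 0) (nat_lit 3) (nat_lit 2) (nat_lit 6) (nat_lit 113) (nat_lit 227) r12_113 r1_227 (nat_lit 0) (nat_lit 0) (nat_lit 0) (nat_lit 0x7dc65abc8e) (nat_lit 1092236184),
  Rx.mk (nat_lit 155) (nat_lit 3) (nat_lit 3) (nat_lit 2) (nat_lit 7) (nat_lit 114) (nat_lit 228) r12_114 r1_228 (nat_lit 0) (nat_lit 0) (nat_lit 0) (nat_lit 0x7d334cae02) (nat_lit 1374198696),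
  Rx.mk (nat_lit 384) (nat_lit 0) (nat_lit 0) (nat_lit 6) (nat_lit 4) (nat_lit 107) (nat_lit 229) r12_107 r1_229 (nat_lit 0) (nat_lit 0) (nat_lit 0) (nat_lit 0x71c5b3f2fc) (nat_lit 6983726256),
  Rx.mk (nat_lit 386) (nat_lit 2) (nat_lit 0) (nat_lit 6) (nat_lit 5) (nat_lit 108) (nat_lit 231) r12_108 r1_231 (nat_lit 0) (nat_lit 0) (nat_lit 0) (nat_lit 0x7d8932ef48) (nat_lit 1209495456),
  Rx.mk (nat_lit 392) (nat_lit 0) (nat_lit 1) (nat_lit 6) (nat_lit 6) (nat_lit 110) (nat_lit 230) r12_110 r1_230 (nat_lit 0) (nat_lit 0) (nat_lit 0) (nat_lit 0x7dfcd1f4e4) (nat_lit 987803856),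
  Rx.mk (nat_lit 394) (nat_lit 2) (nat_lit 1) (nat_lit 6) (nat_lit 7) (nat_lit 111) (nat_lit 232) r12_111 r1_232 (nat_lit 0) (nat_lit 0) (nat_lit 0) (nat_lit 0x7e706b5ada) (nat_lit 766154376),
  Rx.mk (nat_lit 402) (nat_lit 2) (nat_lit 2) (nat_lit 6) (nat_lit 7) (nat_lit 112) (nat_lit 233) r12_112 r1_233 (nat_lit 0) (nat_lit 0) (nat_lit 0) (nat_lit 0x7dda421e04) (nat_lit 1054072656)]
noncomputable def e52_22 : List Rx := [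
  Rx.mk (nat_lit 152) (nat_lit 0) (nat_lit 3) (nat_lit 2) (nat_lit 6) (nat_lit 130) (nat_lit 195) r12_130 r4_195 (nat_lit 0) (nat_lit 0) (nat_lit 0) (nat_lit 0x7bc8cf5742) (nat_lit 2069234856),
  Rx.mk (nat_lit 155) (nat_lit 3) (nat_lit 3) (nat_lit 2) (nat_lit 7) (nat_lit 133) (nat_lit 196) r12_133 r4_196 (nat_lit 0) (nat_lit 0) (nat_lit 0) (nat_lit 0x7dfbbbc648) (nat_lit 989887392),
  Rx.mk (nat_lit 274) (nat_lit 2) (nat_lit 2) (nat_lit 4) (nat_lit 3) (nat_lit 126) (nat_lit 197) r12_126 r4_197 (nat_lit 0) (nat_lit 0) (nat_lit 0) (nat_lit 0x7853b78c34) (nat_lit 3766308624),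
  Rx.mk (nat_lit 278) (nat_lit 6) (nat_lit 2) (nat_lit 4) (nat_lit 3) (nat_lit 128) (nat_lit 198) r12_128 r4_198 (nat_lit 0) (nat_lit 0) (nat_lit 0) (nat_lit 0x79e6f15704) (nat_lit 2993165136),
  Rx.mk (nat_lit 384) (nat_lit 0) (nat_lit 0) (nat_lit 6) (nat_lit 4) (nat_lit 124) (nat_lit 200) r12_124 r4_200 (nat_lit 0) (nat_lit 0) (nat_lit 0) (nat_lit 0x6c41dd75e8) (nat_lit 9690778656),
  Rx.mk (nat_lit 386) (nat_lit 2) (nat_lit 0) (nat_lit 6) (nat_lit 5) (nat_lit 125) (nat_lit 202) r12_125 r4_202 (nat_lit 0) (nat_lit 0) (nat_lit 0) (nat_lit 0x7e00441dbe) (nat_lit 981196632),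
  Rx.mk (nat_lit 402) (nat_lit 2) (nat_lit 2) (nat_lit 6) (nat_lit 7) (nat_lit 127) (nat_lit 204) r12_127 r4_204 (nat_lit 0) (nat_lit 0) (nat_lit 0) (nat_lit 0x7e302d3efc) (nat_lit 889332912),
  Rx.mk (nat_lit 408) (nat_lit 0) (nat_lit 3) (nat_lit 6) (nat_lit 6) (nat_lit 131) (nat_lit 201) r12_131 r4_201 (nat_lit 0) (nat_lit 0) (nat_lit 0) (nat_lit 0x7a87b0ca6c) (nat_lit 2684947824),
  Rx.mk (nat_lit 410) (nat_lit 2) (nat_lit 3) (nat_lit 6) (nat_lit 7) (nat_lit 132) (nat_lit 203) r12_132 r4_203 (nat_lit 0) (nat_lit 0) (nat_lit 0) (nat_lit 0x7e76bad5dc) (nat_lit 754054704),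
  Rx.mk (nat_lit 470) (nat_lit 6) (nat_lit 2) (nat_lit 7) (nat_lit 7) (nat_lit 129) (nat_lit 199) r12_129 r4_199 (nat_lit 0) (nat_lit 0) (nat_lit 0) (nat_lit 0x7e8a3edd88) (nat_lit 716635296)]
noncomputable def e52_23 : List Rx := [
  Rx.mk (nat_lit 274) (nat_lit 2) (nat_lit 2) (nat_lit 4) (nat_lit 3) (nat_lit 103) (nat_lit 50) r12_103 r6_50 (nat_lit 0) (nat_lit 0) (nat_lit 0) (nat_lit 0x7d8621e05c) (nat_lit 1215375408),
  Rx.mk (nat_lit 278) (nat_lit 6) (nat_lit 2) (nat_lit 4) (nat_lit 3) (nat_lit 105) (nat_lit 49) r12_105 r6_49 (nat_lit 0) (nat_lit 0) (nat_lit 0) (nat_lit 0x7cd666bcbe) (nat_lit 1552321368),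
  Rx.mk (nat_lit 386) (nat_lit 2) (nat_lit 0) (nat_lit 6) (nat_lit 5) (nat_lit 102) (nat_lit 48) r12_102 r6_48 (nat_lit 0) (nat_lit 0) (nat_lit 0) (nat_lit 0x7ecbf921a2) (nat_lit 590609448),
  Rx.mk (nat_lit 402) (nat_lit 2) (nat_lit 2) (nat_lit 6) (nat_lit 7) (nat_lit 104) (nat_lit 51) r12_104 r6_51 (nat_lit 0) (nat_lit 0) (nat_lit 0) (nat_lit 0x7dbc727b1c) (nat_lit 1111232304)]
noncomputable def e52_24 : List Rx := [
  Rx.mk (nat_lit 386) (nat_lit 2) (nat_lit 0) (nat_lit 6) (nat_lit 5) (nat_lit 115) (nat_lit 58) r12_115 r7_58 (nat_lit 0) (nat_lit 0) (nat_lit 0) (nat_lit 0x7e3efef1d2) (nat_lit 860918760),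
  Rx.mk (nat_lit 394) (nat_lit 2) (nat_lit 1) (nat_lit 6) (nat_lit 7) (nat_lit 116) (nat_lit 59) r12_116 r7_59 (nat_lit 0) (nat_lit 0) (nat_lit 0) (nat_lit 0x7e2750acce) (nat_lit 906324120),
  Rx.mk (nat_lit 402) (nat_lit 2) (nat_lit 2) (nat_lit 6) (nat_lit 7) (nat_lit 117) (nat_lit 60) r12_117 r7_60 (nat_lit 0) (nat_lit 0) (nat_lit 0) (nat_lit 0x7de1ad6748) (nat_lit 1039847328)]
noncomputable def e52_25 : List Rx := [
  Rx.mk (nat_lit 274) (nat_lit 2) (nat_lit 2) (nat_lit 4) (nat_lit 3) (nat_lit 118) (nat_lit 201) r12_118 r7_201 (nat_lit 0) (nat_lit 0) (nat_lit 0) (nat_lit 0x7cf07bdb52) (nat_lit 1502310888),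
  Rx.mk (nat_lit 278) (nat_lit 6) (nat_lit 2) (nat_lit 4) (nat_lit 3) (nat_lit 121) (nat_lit 202) r12_121 r7_202 (nat_lit 0) (nat_lit 0) (nat_lit 0) (nat_lit 0x7def2a4f6c) (nat_lit 1013985648),
  Rx.mk (nat_lit 338) (nat_lit 2) (nat_lit 2) (nat_lit 5) (nat_lit 7) (nat_lit 119) (nat_lit 203) r12_119 r7_203 (nat_lit 0) (nat_lit 0) (nat_lit 0) (nat_lit 0x7deb792a82) (nat_lit 1021064616),
  Rx.mk (nat_lit 342) (nat_lit 6) (nat_lit 2) (nat_lit 5) (nat_lit 7) (nat_lit 122) (nat_lit 204) r12_122 r7_204 (nat_lit 0) (nat_lit 0) (nat_lit 0) (nat_lit 0x7e4966ab4c) (nat_lit 840967920),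
  Rx.mk (nat_lit 402) (nat_lit 2) (nat_lit 2) (nat_lit 6) (nat_lit 7) (nat_lit 120) (nat_lit 205) r12_120 r7_205 (nat_lit 0) (nat_lit 0) (nat_lit 0) (nat_lit 0x7df2ff7216) (nat_lit 1006637112)]
noncomputable def e52_26 : List Rx := [
  Rx.mk (nat_lit 274) (nat_lit 2) (nat_lit 2) (nat_lit 4) (nat_lit 3) (nat_lit 135) (nat_lit 36) r12_135 r9_36 (nat_lit 0) (nat_lit 0) (nat_lit 0) (nat_lit 0x7da88f3964) (nat_lit 1149364944),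
  Rx.mk (nat_lit 278) (nat_lit 6) (nat_lit 2) (nat_lit 4) (nat_lit 3) (nat_lit 137) (nat_lit 34) r12_137 r9_34 (nat_lit 0) (nat_lit 0) (nat_lit 0) (nat_lit 0x7e68347e50) (nat_lit 781904448),
  Rx.mk (nat_lit 386) (nat_lit 2) (nat_lit 0) (nat_lit 6) (nat_lit 5) (nat_lit 134) (nat_lit 32) r12_134 r9_32 (nat_lit 0) (nat_lit 0) (nat_lit 0) (nat_lit 0x7e7d860922) (nat_lit 741028392),
  Rx.mk (nat_lit 402) (nat_lit 2) (nat_lit 2) (nat_lit 6) (nat_lit 7) (nat_lit 136) (nat_lit 37) r12_136 r9_37 (nat_lit 0) (nat_lit 0) (nat_lit 0) (nat_lit 0x7db3658bf4) (nat_lit 1128585744),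
  Rx.mk (nat_lit 410) (nat_lit 2) (nat_lit 3) (nat_lit 6) (nat_lit 7) (nat_lit 139) (nat_lit 33) r12_139 r9_33 (nat_lit 0) (nat_lit 0) (nat_lit 0) (nat_lit 0x7e0d9168dc) (nat_lit 955691568),
  Rx.mk (nat_lit 470) (nat_lit 6) (nat_lit 2) (nat_lit 7) (nat_lit 7) (nat_lit 138) (nat_lit 35) r12_138 r9_35 (nat_lit 0) (nat_lit 0) (nat_lit 0) (nat_lit 0x7e84fe7194) (nat_lit 726704784)]
noncomputable def e52_27 : List Rx := [
  Rx.mk (nat_lit 155) (nat_lit 3) (nat_lit 3) (nat_lit 2) (nat_lit 7) (nat_lit 148) (nat_lit 13) r12_148 r10_13 (nat_lit 0) (nat_lit 0) (nat_lit 0) (nat_lit 0x7e96423d46) (nat_lit 693601272),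
  Rx.mk (nat_lit 274) (nat_lit 2) (nat_lit 2) (nat_lit 4) (nat_lit 3) (nat_lit 142) (nat_lit 16) r12_142 r10_16 (nat_lit 0) (nat_lit 0) (nat_lit 0) (nat_lit 0x7d98a2d83a) (nat_lit 1179896328),
  Rx.mk (nat_lit 384) (nat_lit 0) (nat_lit 0) (nat_lit 6) (nat_lit 4) (nat_lit 140) (nat_lit 9) r12_140 r10_9 (nat_lit 0) (nat_lit 0) (nat_lit 0) (nat_lit 0x73e77d9440) (nat_lit 5937235200),
  Rx.mk (nat_lit 386) (nat_lit 2) (nat_lit 0) (nat_lit 6) (nat_lit 5) (nat_lit 141) (nat_lit 10) r12_141 r10_10 (nat_lit 0) (nat_lit 0) (nat_lit 0) (nat_lit 0x7eaac05550) (nat_lit 654308928),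
  Rx.mk (nat_lit 402) (nat_lit 2) (nat_lit 2) (nat_lit 6) (nat_lit 7) (nat_lit 143) (nat_lit 18) r12_143 r10_18 (nat_lit 0) (nat_lit 0) (nat_lit 0) (nat_lit 0x7e4d46ad48) (nat_lit 833537952),
  Rx.mk (nat_lit 408) (nat_lit 0) (nat_lit 3) (nat_lit 6) (nat_lit 6) (nat_lit 146) (nat_lit 11) r12_146 r10_11 (nat_lit 0) (nat_lit 0) (nat_lit 0) (nat_lit 0x7e9f0970ca) (nat_lit 676770120),
  Rx.mk (nat_lit 410) (nat_lit 2) (nat_lit 3) (nat_lit 6) (nat_lit 7) (nat_lit 147) (nat_lit 14) r12_147 r10_14 (nat_lit 0) (nat_lit 0) (nat_lit 0) (nat_lit 0x7ec4817924) (nat_lit 604927440),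
  Rx.mk (nat_lit 411) (nat_lit 3) (nat_lit 3) (nat_lit 6) (nat_lit 7) (nat_lit 149) (nat_lit 12) r12_149 r10_12 (nat_lit 0) (nat_lit 0) (nat_lit 0) (nat_lit 0x7e3496186a) (nat_lit 880878024),
  Rx.mk (nat_lit 466) (nat_lit 2) (nat_lit 2) (nat_lit 7) (nat_lit 7) (nat_lit 144) (nat_lit 17) r12_144 r10_17 (nat_lit 0) (nat_lit 0) (nat_lit 0) (nat_lit 0x7e4ff8222e) (nat_lit 828374040),
  Rx.mk (nat_lit 470) (nat_lit 6) (nat_lit 2) (nat_lit 7) (nat_lit 7) (nat_lit 145) (nat_lit 15) r12_145 r10_15 (nat_lit 0) (nat_lit 0) (nat_lit 0) (nat_lit 0x7eaff8e1c2) (nat_lit 644298408)]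
noncomputable def e52_28 : List Rx := [
  Rx.mk (nat_lit 103) (nat_lit 7) (nat_lit 4) (nat_lit 1) (nat_lit 5) (nat_lit 240) (nat_lit 366) r12_240 r10_366 (nat_lit 0) (nat_lit 0) (nat_lit 0) (nat_lit 0x7e373cadfe) (nat_lit 875795544),
  Rx.mk (nat_lit 119) (nat_lit 7) (nat_lit 6) (nat_lit 1) (nat_lit 7) (nat_lit 241) (nat_lit 367) r12_241 r10_367 (nat_lit 0) (nat_lit 0) (nat_lit 0) (nat_lit 0x7ee6adf63a) (nat_lit 539402760)]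
noncomputable def e52_29 : List Rx := [
  Rx.mk (nat_lit 163) (nat_lit 3) (nat_lit 4) (nat_lit 2) (nat_lit 5) (nat_lit 242) (nat_lit 252) r12_242 r5_252 (nat_lit 0) (nat_lit 0) (nat_lit 0) (nat_lit 0x7d25bb2728) (nat_lit 1400214816),
  Rx.mk (nat_lit 184) (nat_lit 0) (nat_lit 7) (nat_lit 2) (nat_lit 6) (nat_lit 243) (nat_lit 251) r12_243 r5_251 (nat_lit 0) (nat_lit 0) (nat_lit 0) (nat_lit 0x7fed08ef84) (nat_lit 36363600),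
  Rx.mk (nat_lit 187) (nat_lit 3) (nat_lit 7) (nat_lit 2) (nat_lit 7) (nat_lit 244) (nat_lit 253) r12_244 r5_253 (nat_lit 0) (nat_lit 0) (nat_lit 0) (nat_lit 0x7ef7d3c3cc) (nat_lit 506523888)]
noncomputable def e52_30 : List Rx := [
  Rx.mk (nat_lit 410) (nat_lit 2) (nat_lit 3) (nat_lit 6) (nat_lit 7) (nat_lit 230) (nat_lit 265) r12_230 r10_265 (nat_lit 0) (nat_lit 0) (nat_lit 0) (nat_lit 0x7ee7b225f6) (nat_lit 537454008)]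
noncomputable def e52_31 : List Rx := [
  Rx.mk (nat_lit 39) (nat_lit 7) (nat_lit 4) (nat_lit 0) (nat_lit 1) (nat_lit 232) (nat_lit 333) r12_232 r5_333 (nat_lit 0) (nat_lit 0) (nat_lit 0) (nat_lit 0x7b7d41d066) (nat_lit 2214099576),
  Rx.mk (nat_lit 55) (nat_lit 7) (nat_lit 6) (nat_lit 0) (nat_lit 3) (nat_lit 234) (nat_lit 336) r12_234 r5_336 (nat_lit 0) (nat_lit 0) (nat_lit 0) (nat_lit 0x7dd76d0b58) (nat_lit 1059503328),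
  Rx.mk (nat_lit 163) (nat_lit 3) (nat_lit 4) (nat_lit 2) (nat_lit 5) (nat_lit 231) (nat_lit 334) r12_231 r5_334 (nat_lit 0) (nat_lit 0) (nat_lit 0) (nat_lit 0x7fe0d652ba) (nat_lit 59751432),
  Rx.mk (nat_lit 167) (nat_lit 7) (nat_lit 4) (nat_lit 2) (nat_lit 5) (nat_lit 233) (nat_lit 335) r12_233 r5_335 (nat_lit 0) (nat_lit 0) (nat_lit 0) (nat_lit 0x7f189437a4) (nat_lit 443725776)]
noncomputable def e52_32 : List Rx := [
  Rx.mk (nat_lit 39) (nat_lit 7) (nat_lit 4) (nat_lit 0) (nat_lit 1) (nat_lit 246) (nat_lit 85) r12_246 r11_85 (nat_lit 0) (nat_lit 0) (nat_lit 0) (nat_lit 0x78fb4dd228) (nat_lit 3444977952),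
  Rx.mk (nat_lit 55) (nat_lit 7) (nat_lit 6) (nat_lit 0) (nat_lit 3) (nat_lit 249) (nat_lit 88) r12_249 r11_88 (nat_lit 0) (nat_lit 0) (nat_lit 0) (nat_lit 0x7d5ad6d538) (nat_lit 1298385504),
  Rx.mk (nat_lit 163) (nat_lit 3) (nat_lit 4) (nat_lit 2) (nat_lit 5) (nat_lit 245) (nat_lit 83) r12_245 r11_83 (nat_lit 0) (nat_lit 0) (nat_lit 0) (nat_lit 0x7fd8517b10) (nat_lit 76085568),
  Rx.mk (nat_lit 167) (nat_lit 7) (nat_lit 4) (nat_lit 2) (nat_lit 5) (nat_lit 247) (nat_lit 87) r12_247 r11_87 (nat_lit 0) (nat_lit 0) (nat_lit 0) (nat_lit 0x7f3052fba0) (nat_lit 398196864),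
  Rx.mk (nat_lit 187) (nat_lit 3) (nat_lit 7) (nat_lit 2) (nat_lit 7) (nat_lit 251) (nat_lit 84) r12_251 r11_84 (nat_lit 0) (nat_lit 0) (nat_lit 0) (nat_lit 0x7e9f9a27be) (nat_lit 675686232),
  Rx.mk (nat_lit 231) (nat_lit 7) (nat_lit 4) (nat_lit 3) (nat_lit 5) (nat_lit 248) (nat_lit 86) r12_248 r11_86 (nat_lit 0) (nat_lit 0) (nat_lit 0) (nat_lit 0x79aa5aa0ac) (nat_lit 3109337712),
  Rx.mk (nat_lit 247) (nat_lit 7) (nat_lit 6) (nat_lit 3) (nat_lit 7) (nat_lit 250) (nat_lit 89) r12_250 r11_89 (nat_lit 0) (nat_lit 0) (nat_lit 0) (nat_lit 0x7f04293e68) (nat_lit 482874912)]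
noncomputable def e52_33 : List Rx := [
  Rx.mk (nat_lit 168) (nat_lit 0) (nat_lit 5) (nat_lit 2) (nat_lit 6) (nat_lit 255) (nat_lit 224) r12_255 r0_224 (nat_lit 0) (nat_lit 0) (nat_lit 0) (nat_lit 0x8000000000) (nat_lit 0)]
noncomputable def e52_34 : List Rx := [
  Rx.mk (nat_lit 161) (nat_lit 1) (nat_lit 4) (nat_lit 2) (nat_lit 5) (nat_lit 252) (nat_lit 314) r12_252 r0_314 (nat_lit 0) (nat_lit 0) (nat_lit 0) (nat_lit 0x7c8c873b00) (nat_lit 1693965312),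
  Rx.mk (nat_lit 168) (nat_lit 0) (nat_lit 5) (nat_lit 2) (nat_lit 6) (nat_lit 253) (nat_lit 315) r12_253 r0_315 (nat_lit 0) (nat_lit 0) (nat_lit 0) (nat_lit 0x7ac9315222) (nat_lit 2559354408),
  Rx.mk (nat_lit 169) (nat_lit 1) (nat_lit 5) (nat_lit 2) (nat_lit 7) (nat_lit 254) (nat_lit 316) r12_254 r0_316 (nat_lit 0) (nat_lit 0) (nat_lit 0) (nat_lit 0x7ef9c72494) (nat_lit 502783632)]
noncomputable def e52_35 : List Rx := [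
  Rx.mk (nat_lit 168) (nat_lit 0) (nat_lit 5) (nat_lit 2) (nat_lit 6) (nat_lit 256) (nat_lit 286) r12_256 r6_286 (nat_lit 0) (nat_lit 0) (nat_lit 0) (nat_lit 0x7e13f5229a) (nat_lit 943440264),
  Rx.mk (nat_lit 169) (nat_lit 1) (nat_lit 5) (nat_lit 2) (nat_lit 7) (nat_lit 257) (nat_lit 287) r12_257 r6_287 (nat_lit 0) (nat_lit 0) (nat_lit 0) (nat_lit 0x7e7b9907f4) (nat_lit 744720912)]
noncomputable def e52_36 : List Rx := [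
  Rx.mk (nat_lit 37) (nat_lit 5) (nat_lit 4) (nat_lit 0) (nat_lit 1) (nat_lit 276) (nat_lit 339) r12_276 r2_339 (nat_lit 0) (nat_lit 0) (nat_lit 0) (nat_lit 0x666f99dff4) (nat_lit 12548205072),
  Rx.mk (nat_lit 45) (nat_lit 5) (nat_lit 5) (nat_lit 0) (nat_lit 3) (nat_lit 280) (nat_lit 343) r12_280 r2_343 (nat_lit 0) (nat_lit 0) (nat_lit 0) (nat_lit 0x749ef5bc06) (nat_lit 5585451768),
  Rx.mk (nat_lit 53) (nat_lit 5) (nat_lit 6) (nat_lit 0) (nat_lit 3) (nat_lit 283) (nat_lit 347) r12_283 r2_347 (nat_lit 0) (nat_lit 0) (nat_lit 0) (nat_lit 0x7dc98549e2) (nat_lit 1086165288),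
  Rx.mk (nat_lit 101) (nat_lit 5) (nat_lit 4) (nat_lit 1) (nat_lit 5) (nat_lit 277) (nat_lit 340) r12_277 r2_340 (nat_lit 0) (nat_lit 0) (nat_lit 0) (nat_lit 0x7d42e99424) (nat_lit 1344262608),
  Rx.mk (nat_lit 109) (nat_lit 5) (nat_lit 5) (nat_lit 1) (nat_lit 7) (nat_lit 281) (nat_lit 344) r12_281 r2_344 (nat_lit 0) (nat_lit 0) (nat_lit 0) (nat_lit 0x7ddceeb338) (nat_lit 1048945248),
  Rx.mk (nat_lit 117) (nat_lit 5) (nat_lit 6) (nat_lit 1) (nat_lit 7) (nat_lit 284) (nat_lit 348) r12_284 r2_348 (nat_lit 0) (nat_lit 0) (nat_lit 0) (nat_lit 0x7deb366eae) (nat_lit 1021564440),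
  Rx.mk (nat_lit 161) (nat_lit 1) (nat_lit 4) (nat_lit 2) (nat_lit 5) (nat_lit 275) (nat_lit 341) r12_275 r2_341 (nat_lit 0) (nat_lit 0) (nat_lit 0) (nat_lit 0x7ddc2f1f32) (nat_lit 1050380136),
  Rx.mk (nat_lit 165) (nat_lit 5) (nat_lit 4) (nat_lit 2) (nat_lit 5) (nat_lit 278) (nat_lit 342) r12_278 r2_342 (nat_lit 0) (nat_lit 0) (nat_lit 0) (nat_lit 0x7cf9c166f0) (nat_lit 1484533440),
  Rx.mk (nat_lit 169) (nat_lit 1) (nat_lit 5) (nat_lit 2) (nat_lit 7) (nat_lit 279) (nat_lit 345) r12_279 r2_345 (nat_lit 0) (nat_lit 0) (nat_lit 0) (nat_lit 0x7de974eac8) (nat_lit 1024931232),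
  Rx.mk (nat_lit 173) (nat_lit 5) (nat_lit 5) (nat_lit 2) (nat_lit 7) (nat_lit 282) (nat_lit 346) r12_282 r2_346 (nat_lit 0) (nat_lit 0) (nat_lit 0) (nat_lit 0x7df79428c6) (nat_lit 997853688)]
noncomputable def e52_37 : List Rx := [
  Rx.mk (nat_lit 45) (nat_lit 5) (nat_lit 5) (nat_lit 0) (nat_lit 3) (nat_lit 287) (nat_lit 307) r12_287 r8_307 (nat_lit 0) (nat_lit 0) (nat_lit 0) (nat_lit 0x6ec70e6054) (nat_lit 8453691792),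
  Rx.mk (nat_lit 109) (nat_lit 5) (nat_lit 5) (nat_lit 1) (nat_lit 7) (nat_lit 288) (nat_lit 308) r12_288 r8_308 (nat_lit 0) (nat_lit 0) (nat_lit 0) (nat_lit 0x7dd07e9a46) (nat_lit 1072793592),
  Rx.mk (nat_lit 169) (nat_lit 1) (nat_lit 5) (nat_lit 2) (nat_lit 7) (nat_lit 286) (nat_lit 309) r12_286 r8_309 (nat_lit 0) (nat_lit 0) (nat_lit 0) (nat_lit 0x7ddc31bf08) (nat_lit 1050360480),
  Rx.mk (nat_lit 173) (nat_lit 5) (nat_lit 5) (nat_lit 2) (nat_lit 7) (nat_lit 289) (nat_lit 310) r12_289 r8_310 (nat_lit 0) (nat_lit 0) (nat_lit 0) (nat_lit 0x7dbce773cc) (nat_lit 1110356208)]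
noncomputable def e52_38 : List Rx := [
  Rx.mk (nat_lit 101) (nat_lit 5) (nat_lit 4) (nat_lit 1) (nat_lit 5) (nat_lit 290) (nat_lit 324) r12_290 r8_324 (nat_lit 0) (nat_lit 0) (nat_lit 0) (nat_lit 0x7cb8761be6) (nat_lit 1609728120),
  Rx.mk (nat_lit 109) (nat_lit 5) (nat_lit 5) (nat_lit 1) (nat_lit 7) (nat_lit 291) (nat_lit 325) r12_291 r8_325 (nat_lit 0) (nat_lit 0) (nat_lit 0) (nat_lit 0x7de9664bb2) (nat_lit 1025040744),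
  Rx.mk (nat_lit 117) (nat_lit 5) (nat_lit 6) (nat_lit 1) (nat_lit 7) (nat_lit 292) (nat_lit 326) r12_292 r8_326 (nat_lit 0) (nat_lit 0) (nat_lit 0) (nat_lit 0x7dda2b3f72) (nat_lit 1054243944)]
noncomputable def e52_39 : List Rx := [
  Rx.mk (nat_lit 161) (nat_lit 1) (nat_lit 4) (nat_lit 2) (nat_lit 5) (nat_lit 273) (nat_lit 302) r12_273 r1_302 (nat_lit 0) (nat_lit 0) (nat_lit 0) (nat_lit 0x7e59f0e298) (nat_lit 809254368),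
  Rx.mk (nat_lit 169) (nat_lit 1) (nat_lit 5) (nat_lit 2) (nat_lit 7) (nat_lit 274) (nat_lit 303) r12_274 r1_303 (nat_lit 0) (nat_lit 0) (nat_lit 0) (nat_lit 0x7d5c1b80ec) (nat_lit 1295953776)]
noncomputable def e52_40 : List Rx := [
  Rx.mk (nat_lit 169) (nat_lit 1) (nat_lit 5) (nat_lit 2) (nat_lit 7) (nat_lit 285) (nat_lit 218) r12_285 r7_218 (nat_lit 0) (nat_lit 0) (nat_lit 0) (nat_lit 0x7e67fac1ec) (nat_lit 782336880)]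
noncomputable def e52_41 : List Rx := [
  Rx.mk (nat_lit 136) (nat_lit 0) (nat_lit 1) (nat_lit 2) (nat_lit 6) (nat_lit 267) (nat_lit 243) r12_267 r1_243 (nat_lit 0) (nat_lit 0) (nat_lit 0) (nat_lit 0x7d19eca41c) (nat_lit 1422852912),
  Rx.mk (nat_lit 168) (nat_lit 0) (nat_lit 5) (nat_lit 2) (nat_lit 6) (nat_lit 268) (nat_lit 242) r12_268 r1_242 (nat_lit 0) (nat_lit 0) (nat_lit 0) (nat_lit 0x8000000000) (nat_lit 0)]
noncomputable def e52_42 : List Rx := [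
  Rx.mk (nat_lit 136) (nat_lit 0) (nat_lit 1) (nat_lit 2) (nat_lit 6) (nat_lit 258) (nat_lit 256) r12_258 r2_256 (nat_lit 0) (nat_lit 0) (nat_lit 0) (nat_lit 0x7e39f90236) (nat_lit 870550200),
  Rx.mk (nat_lit 392) (nat_lit 0) (nat_lit 1) (nat_lit 6) (nat_lit 6) (nat_lit 259) (nat_lit 255) r12_259 r2_255 (nat_lit 0) (nat_lit 0) (nat_lit 0) (nat_lit 0x7e4fef22be) (nat_lit 828441432),
  Rx.mk (nat_lit 394) (nat_lit 2) (nat_lit 1) (nat_lit 6) (nat_lit 7) (nat_lit 260) (nat_lit 257) r12_260 r2_257 (nat_lit 0) (nat_lit 0) (nat_lit 0) (nat_lit 0x7e0dc225d0) (nat_lit 955326528)]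
noncomputable def e52_43 : List Rx := [
  Rx.mk (nat_lit 136) (nat_lit 0) (nat_lit 1) (nat_lit 2) (nat_lit 6) (nat_lit 269) (nat_lit 347) r12_269 r7_347 (nat_lit 0) (nat_lit 0) (nat_lit 0) (nat_lit 0x7d3189aa34) (nat_lit 1377576720),
  Rx.mk (nat_lit 137) (nat_lit 1) (nat_lit 1) (nat_lit 2) (nat_lit 7) (nat_lit 270) (nat_lit 348) r12_270 r7_348 (nat_lit 0) (nat_lit 0) (nat_lit 0) (nat_lit 0x7df25e9c24) (nat_lit 1007841744),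
  Rx.mk (nat_lit 168) (nat_lit 0) (nat_lit 5) (nat_lit 2) (nat_lit 6) (nat_lit 271) (nat_lit 349) r12_271 r7_349 (nat_lit 0) (nat_lit 0) (nat_lit 0) (nat_lit 0x7d458d29e8) (nat_lit 1339202592),
  Rx.mk (nat_lit 169) (nat_lit 1) (nat_lit 5) (nat_lit 2) (nat_lit 7) (nat_lit 272) (nat_lit 350) r12_272 r7_350 (nat_lit 0) (nat_lit 0) (nat_lit 0) (nat_lit 0x7dcaa7d7b8) (nat_lit 1083989088)]
noncomputable def e52_44 : List Rx := [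
  Rx.mk (nat_lit 136) (nat_lit 0) (nat_lit 1) (nat_lit 2) (nat_lit 6) (nat_lit 261) (nat_lit 225) r12_261 r8_225 (nat_lit 0) (nat_lit 0) (nat_lit 0) (nat_lit 0x7cb54cae80) (nat_lit 1615790592),
  Rx.mk (nat_lit 137) (nat_lit 1) (nat_lit 1) (nat_lit 2) (nat_lit 7) (nat_lit 263) (nat_lit 227) r12_263 r8_227 (nat_lit 0) (nat_lit 0) (nat_lit 0) (nat_lit 0x7dca3abe8a) (nat_lit 1084806216),
  Rx.mk (nat_lit 392) (nat_lit 0) (nat_lit 1) (nat_lit 6) (nat_lit 6) (nat_lit 262) (nat_lit 224) r12_262 r8_224 (nat_lit 0) (nat_lit 0) (nat_lit 0) (nat_lit 0x7dae17a0d8) (nat_lit 1138756320),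
  Rx.mk (nat_lit 393) (nat_lit 1) (nat_lit 1) (nat_lit 6) (nat_lit 7) (nat_lit 264) (nat_lit 226) r12_264 r8_226 (nat_lit 0) (nat_lit 0) (nat_lit 0) (nat_lit 0x7de7338ee0) (nat_lit 1029255552),
  Rx.mk (nat_lit 394) (nat_lit 2) (nat_lit 1) (nat_lit 6) (nat_lit 7) (nat_lit 265) (nat_lit 228) r12_265 r8_228 (nat_lit 0) (nat_lit 0) (nat_lit 0) (nat_lit 0x7de986e9a8) (nat_lit 1024796448)]
noncomputable def e52_45 : List Rx := [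
  Rx.mk (nat_lit 394) (nat_lit 2) (nat_lit 1) (nat_lit 6) (nat_lit 7) (nat_lit 266) (nat_lit 215) r12_266 r8_215 (nat_lit 0) (nat_lit 0) (nat_lit 0) (nat_lit 0x7df0bb165e) (nat_lit 1010983896)]
noncomputable def e52_46 : List Rx := [
  Rx.mk (nat_lit 168) (nat_lit 0) (nat_lit 5) (nat_lit 2) (nat_lit 6) (nat_lit 304) (nat_lit 224) r12_304 r4_224 (nat_lit 0) (nat_lit 0) (nat_lit 0) (nat_lit 0x7b83692dea) (nat_lit 2202300360),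
  Rx.mk (nat_lit 171) (nat_lit 3) (nat_lit 5) (nat_lit 2) (nat_lit 7) (nat_lit 305) (nat_lit 225) r12_305 r4_225 (nat_lit 0) (nat_lit 0) (nat_lit 0) (nat_lit 0x7b9dce877a) (nat_lit 2151688968)]
noncomputable def e52_47 : List Rx := [
  Rx.mk (nat_lit 160) (nat_lit 0) (nat_lit 4) (nat_lit 2) (nat_lit 4) (nat_lit 296) (nat_lit 343) r12_296 r4_343 (nat_lit 0) (nat_lit 0) (nat_lit 0) (nat_lit 0x752fda0d30) (nat_lit 5307636672),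
  Rx.mk (nat_lit 161) (nat_lit 1) (nat_lit 4) (nat_lit 2) (nat_lit 5) (nat_lit 297) (nat_lit 344) r12_297 r4_344 (nat_lit 0) (nat_lit 0) (nat_lit 0) (nat_lit 0x7defaae762) (nat_lit 1013022504),
  Rx.mk (nat_lit 163) (nat_lit 3) (nat_lit 4) (nat_lit 2) (nat_lit 5) (nat_lit 298) (nat_lit 345) r12_298 r4_345 (nat_lit 0) (nat_lit 0) (nat_lit 0) (nat_lit 0x7ddf492d8e) (nat_lit 1044432792),
  Rx.mk (nat_lit 168) (nat_lit 0) (nat_lit 5) (nat_lit 2) (nat_lit 6) (nat_lit 299) (nat_lit 346) r12_299 r4_346 (nat_lit 0) (nat_lit 0) (nat_lit 0) (nat_lit 0x79f1f206ee) (nat_lit 2972068632),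
  Rx.mk (nat_lit 169) (nat_lit 1) (nat_lit 5) (nat_lit 2) (nat_lit 7) (nat_lit 300) (nat_lit 347) r12_300 r4_347 (nat_lit 0) (nat_lit 0) (nat_lit 0) (nat_lit 0x7e5fb6663a) (nat_lit 798188040),
  Rx.mk (nat_lit 171) (nat_lit 3) (nat_lit 5) (nat_lit 2) (nat_lit 7) (nat_lit 301) (nat_lit 348) r12_301 r4_348 (nat_lit 0) (nat_lit 0) (nat_lit 0) (nat_lit 0x7e24ff91e2) (nat_lit 910766376)]
noncomputable def e52_48 : List Rx := [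
  Rx.mk (nat_lit 168) (nat_lit 0) (nat_lit 5) (nat_lit 2) (nat_lit 6) (nat_lit 306) (nat_lit 237) r12_306 r9_237 (nat_lit 0) (nat_lit 0) (nat_lit 0) (nat_lit 0x7db5ac2788) (nat_lit 1124222112),
  Rx.mk (nat_lit 169) (nat_lit 1) (nat_lit 5) (nat_lit 2) (nat_lit 7) (nat_lit 307) (nat_lit 238) r12_307 r9_238 (nat_lit 0) (nat_lit 0) (nat_lit 0) (nat_lit 0x7e63f48254) (nat_lit 790053264),
  Rx.mk (nat_lit 171) (nat_lit 3) (nat_lit 5) (nat_lit 2) (nat_lit 7) (nat_lit 308) (nat_lit 239) r12_308 r9_239 (nat_lit 0) (nat_lit 0) (nat_lit 0) (nat_lit 0x7e796d0ab6) (nat_lit 748885176)]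
noncomputable def e52_49 : List Rx := [
  Rx.mk (nat_lit 160) (nat_lit 0) (nat_lit 4) (nat_lit 2) (nat_lit 4) (nat_lit 315) (nat_lit 273) r12_315 r10_273 (nat_lit 0) (nat_lit 0) (nat_lit 0) (nat_lit 0x771b6bd228) (nat_lit 4365103392),
  Rx.mk (nat_lit 161) (nat_lit 1) (nat_lit 4) (nat_lit 2) (nat_lit 5) (nat_lit 316) (nat_lit 276) r12_316 r10_276 (nat_lit 0) (nat_lit 0) (nat_lit 0) (nat_lit 0x7d971a50c4) (nat_lit 1182836304),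
  Rx.mk (nat_lit 163) (nat_lit 3) (nat_lit 4) (nat_lit 2) (nat_lit 5) (nat_lit 317) (nat_lit 279) r12_317 r10_279 (nat_lit 0) (nat_lit 0) (nat_lit 0) (nat_lit 0x7dea0ba15c) (nat_lit 1023802416),
  Rx.mk (nat_lit 168) (nat_lit 0) (nat_lit 5) (nat_lit 2) (nat_lit 6) (nat_lit 318) (nat_lit 274) r12_318 r10_274 (nat_lit 0) (nat_lit 0) (nat_lit 0) (nat_lit 0x7d6315f13e) (nat_lit 1282573656),
  Rx.mk (nat_lit 169) (nat_lit 1) (nat_lit 5) (nat_lit 2) (nat_lit 7) (nat_lit 319) (nat_lit 277) r12_319 r10_277 (nat_lit 0) (nat_lit 0) (nat_lit 0) (nat_lit 0x7e00b1f6e0) (nat_lit 980373888),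
  Rx.mk (nat_lit 171) (nat_lit 3) (nat_lit 5) (nat_lit 2) (nat_lit 7) (nat_lit 320) (nat_lit 280) r12_320 r10_280 (nat_lit 0) (nat_lit 0) (nat_lit 0) (nat_lit 0x7de5e7c39e) (nat_lit 1031740632),
  Rx.mk (nat_lit 184) (nat_lit 0) (nat_lit 7) (nat_lit 2) (nat_lit 6) (nat_lit 321) (nat_lit 275) r12_321 r10_275 (nat_lit 0) (nat_lit 0) (nat_lit 0) (nat_lit 0x7dd6261fc8) (nat_lit 1061951904),
  Rx.mk (nat_lit 185) (nat_lit 1) (nat_lit 7) (nat_lit 2) (nat_lit 7) (nat_lit 322) (nat_lit 278) r12_322 r10_278 (nat_lit 0) (nat_lit 0) (nat_lit 0) (nat_lit 0x7ddda307f2) (nat_lit 1047594600)]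
noncomputable def e52_50 : List Rx := [
  Rx.mk (nat_lit 171) (nat_lit 3) (nat_lit 5) (nat_lit 2) (nat_lit 7) (nat_lit 309) (nat_lit 356) r12_309 r10_356 (nat_lit 0) (nat_lit 0) (nat_lit 0) (nat_lit 0x7f0597e77c) (nat_lit 480128688)]
noncomputable def e52_51 : List Rx := [
  Rx.mk (nat_lit 39) (nat_lit 7) (nat_lit 4) (nat_lit 0) (nat_lit 1) (nat_lit 80) (nat_lit 83) r12_80 r12_83 (nat_lit 0) (nat_lit 0) (nat_lit 0) (nat_lit 0x8000000000) (nat_lit 0),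
  Rx.mk (nat_lit 52) (nat_lit 4) (nat_lit 6) (nat_lit 0) (nat_lit 2) (nat_lit 83) (nat_lit 80) r12_83 r12_80 (nat_lit 0) (nat_lit 0) (nat_lit 0) (nat_lit 0x8000000000) (nat_lit 0),
  Rx.mk (nat_lit 54) (nat_lit 6) (nat_lit 6) (nat_lit 0) (nat_lit 3) (nat_lit 86) (nat_lit 91) r12_86 r12_91 (nat_lit 0) (nat_lit 0) (nat_lit 0) (nat_lit 0x7bc3dc8674) (nat_lit 2078723088),
  Rx.mk (nat_lit 55) (nat_lit 7) (nat_lit 6) (nat_lit 0) (nat_lit 3) (nat_lit 89) (nat_lit 89) r12_89 r12_89 (nat_lit 0) (nat_lit 0) (nat_lit 0) (nat_lit 0x7f80b8b4f4) (nat_lit 244043280),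
  Rx.mk (nat_lit 63) (nat_lit 7) (nat_lit 7) (nat_lit 0) (nat_lit 3) (nat_lit 91) (nat_lit 86) r12_91 r12_86 (nat_lit 0) (nat_lit 0) (nat_lit 0) (nat_lit 0x7bc3dc8674) (nat_lit 2078723088),
  Rx.mk (nat_lit 103) (nat_lit 7) (nat_lit 4) (nat_lit 1) (nat_lit 5) (nat_lit 81) (nat_lit 84) r12_81 r12_84 (nat_lit 0) (nat_lit 0) (nat_lit 0) (nat_lit 0x7de6a637b6) (nat_lit 1030314168),
  Rx.mk (nat_lit 116) (nat_lit 4) (nat_lit 6) (nat_lit 1) (nat_lit 6) (nat_lit 84) (nat_lit 81) r12_84 r12_81 (nat_lit 0) (nat_lit 0) (nat_lit 0) (nat_lit 0x7de6a637b6) (nat_lit 1030314168),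
  Rx.mk (nat_lit 118) (nat_lit 6) (nat_lit 6) (nat_lit 1) (nat_lit 7) (nat_lit 87) (nat_lit 92) r12_87 r12_92 (nat_lit 0) (nat_lit 0) (nat_lit 0) (nat_lit 0x7cd60782b2) (nat_lit 1553034600),
  Rx.mk (nat_lit 119) (nat_lit 7) (nat_lit 6) (nat_lit 1) (nat_lit 7) (nat_lit 90) (nat_lit 90) r12_90 r12_90 (nat_lit 0) (nat_lit 0) (nat_lit 0) (nat_lit 0x7e6d676b1c) (nat_lit 771936048),
  Rx.mk (nat_lit 127) (nat_lit 7) (nat_lit 7) (nat_lit 1) (nat_lit 7) (nat_lit 92) (nat_lit 87) r12_92 r12_87 (nat_lit 0) (nat_lit 0) (nat_lit 0) (nat_lit 0x7cd60782b2) (nat_lit 1553034600),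
  Rx.mk (nat_lit 167) (nat_lit 7) (nat_lit 4) (nat_lit 2) (nat_lit 5) (nat_lit 82) (nat_lit 85) r12_82 r12_85 (nat_lit 0) (nat_lit 0) (nat_lit 0) (nat_lit 0x7f1b4c6c1e) (nat_lit 438511320),
  Rx.mk (nat_lit 191) (nat_lit 7) (nat_lit 7) (nat_lit 2) (nat_lit 7) (nat_lit 93) (nat_lit 88) r12_93 r12_88 (nat_lit 0) (nat_lit 0) (nat_lit 0) (nat_lit 0x7e3d2f8eca) (nat_lit 864389448),
  Rx.mk (nat_lit 244) (nat_lit 4) (nat_lit 6) (nat_lit 3) (nat_lit 6) (nat_lit 85) (nat_lit 82) r12_85 r12_82 (nat_lit 0) (nat_lit 0) (nat_lit 0) (nat_lit 0x7f1b4c6c1e) (nat_lit 438511320),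
  Rx.mk (nat_lit 246) (nat_lit 6) (nat_lit 6) (nat_lit 3) (nat_lit 7) (nat_lit 88) (nat_lit 93) r12_88 r12_93 (nat_lit 0) (nat_lit 0) (nat_lit 0) (nat_lit 0x7e3d2f8eca) (nat_lit 864389448)]
noncomputable def e52_52 : List Rx := [
  Rx.mk (nat_lit 63) (nat_lit 7) (nat_lit 7) (nat_lit 0) (nat_lit 3) (nat_lit 49) (nat_lit 35) r12_49 r12_35 (nat_lit 0) (nat_lit 0) (nat_lit 0) (nat_lit 0x77d2f95898) (nat_lit 4013159904),
  Rx.mk (nat_lit 155) (nat_lit 3) (nat_lit 3) (nat_lit 2) (nat_lit 7) (nat_lit 41) (nat_lit 46) r12_41 r12_46 (nat_lit 0) (nat_lit 0) (nat_lit 0) (nat_lit 0x703c5c69fe) (nat_lit 7737918552),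
  Rx.mk (nat_lit 187) (nat_lit 3) (nat_lit 7) (nat_lit 2) (nat_lit 7) (nat_lit 48) (nat_lit 38) r12_48 r12_38 (nat_lit 0) (nat_lit 0) (nat_lit 0) (nat_lit 0x7769843054) (nat_lit 4215363984),
  Rx.mk (nat_lit 191) (nat_lit 7) (nat_lit 7) (nat_lit 2) (nat_lit 7) (nat_lit 50) (nat_lit 37) r12_50 r12_37 (nat_lit 0) (nat_lit 0) (nat_lit 0) (nat_lit 0x7e72f2126c) (nat_lit 761310576),
  Rx.mk (nat_lit 231) (nat_lit 7) (nat_lit 4) (nat_lit 3) (nat_lit 5) (nat_lit 43) (nat_lit 34) r12_43 r12_34 (nat_lit 0) (nat_lit 0) (nat_lit 0) (nat_lit 0x8000000000) (nat_lit 0),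
  Rx.mk (nat_lit 244) (nat_lit 4) (nat_lit 6) (nat_lit 3) (nat_lit 6) (nat_lit 44) (nat_lit 39) r12_44 r12_39 (nat_lit 0) (nat_lit 0) (nat_lit 0) (nat_lit 0x7370c2a066) (nat_lit 6164888184),
  Rx.mk (nat_lit 246) (nat_lit 6) (nat_lit 6) (nat_lit 3) (nat_lit 7) (nat_lit 45) (nat_lit 42) r12_45 r12_42 (nat_lit 0) (nat_lit 0) (nat_lit 0) (nat_lit 0x7ebad653e0) (nat_lit 623465856),
  Rx.mk (nat_lit 247) (nat_lit 7) (nat_lit 6) (nat_lit 3) (nat_lit 7) (nat_lit 47) (nat_lit 40) r12_47 r12_40 (nat_lit 0) (nat_lit 0) (nat_lit 0) (nat_lit 0x7fd4d5f2cc) (nat_lit 82762992),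
  Rx.mk (nat_lit 255) (nat_lit 7) (nat_lit 7) (nat_lit 3) (nat_lit 7) (nat_lit 51) (nat_lit 36) r12_51 r12_36 (nat_lit 0) (nat_lit 0) (nat_lit 0) (nat_lit 0x74dca9608e) (nat_lit 5467145112),
  Rx.mk (nat_lit 274) (nat_lit 2) (nat_lit 2) (nat_lit 4) (nat_lit 3) (nat_lit 35) (nat_lit 49) r12_35 r12_49 (nat_lit 0) (nat_lit 0) (nat_lit 0) (nat_lit 0x77d2f95898) (nat_lit 4013159904),
  Rx.mk (nat_lit 386) (nat_lit 2) (nat_lit 0) (nat_lit 6) (nat_lit 5) (nat_lit 34) (nat_lit 43) r12_34 r12_43 (nat_lit 0) (nat_lit 0) (nat_lit 0) (nat_lit 0x8000000000) (nat_lit 0),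
  Rx.mk (nat_lit 402) (nat_lit 2) (nat_lit 2) (nat_lit 6) (nat_lit 7) (nat_lit 36) (nat_lit 51) r12_36 r12_51 (nat_lit 0) (nat_lit 0) (nat_lit 0) (nat_lit 0x74dca9608e) (nat_lit 5467145112),
  Rx.mk (nat_lit 408) (nat_lit 0) (nat_lit 3) (nat_lit 6) (nat_lit 6) (nat_lit 39) (nat_lit 44) r12_39 r12_44 (nat_lit 0) (nat_lit 0) (nat_lit 0) (nat_lit 0x7370c2a066) (nat_lit 6164888184),
  Rx.mk (nat_lit 410) (nat_lit 2) (nat_lit 3) (nat_lit 6) (nat_lit 7) (nat_lit 40) (nat_lit 47) r12_40 r12_47 (nat_lit 0) (nat_lit 0) (nat_lit 0) (nat_lit 0x7fd4d5f2cc) (nat_lit 82762992),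
  Rx.mk (nat_lit 411) (nat_lit 3) (nat_lit 3) (nat_lit 6) (nat_lit 7) (nat_lit 42) (nat_lit 45) r12_42 r12_45 (nat_lit 0) (nat_lit 0) (nat_lit 0) (nat_lit 0x7ebad653e0) (nat_lit 623465856),
  Rx.mk (nat_lit 466) (nat_lit 2) (nat_lit 2) (nat_lit 7) (nat_lit 7) (nat_lit 37) (nat_lit 50) r12_37 r12_50 (nat_lit 0) (nat_lit 0) (nat_lit 0) (nat_lit 0x7e72f2126c) (nat_lit 761310576),
  Rx.mk (nat_lit 470) (nat_lit 6) (nat_lit 2) (nat_lit 7) (nat_lit 7) (nat_lit 38) (nat_lit 48) r12_38 r12_48 (nat_lit 0) (nat_lit 0) (nat_lit 0) (nat_lit 0x7769843054) (nat_lit 4215363984),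
  Rx.mk (nat_lit 502) (nat_lit 6) (nat_lit 6) (nat_lit 7) (nat_lit 7) (nat_lit 46) (nat_lit 41) r12_46 r12_41 (nat_lit 0) (nat_lit 0) (nat_lit 0) (nat_lit 0x703c5c69fe) (nat_lit 7737918552)]
noncomputable def e52_53 : List Rx := [
  Rx.mk (nat_lit 39) (nat_lit 7) (nat_lit 4) (nat_lit 0) (nat_lit 1) (nat_lit 235) (nat_lit 310) r12_235 r12_310 (nat_lit 0) (nat_lit 0) (nat_lit 0) (nat_lit 0x8000000000) (nat_lit 0),
  Rx.mk (nat_lit 55) (nat_lit 7) (nat_lit 6) (nat_lit 0) (nat_lit 3) (nat_lit 238) (nat_lit 311) r12_238 r12_311 (nat_lit 0) (nat_lit 0) (nat_lit 0) (nat_lit 0x7f220180c6) (nat_lit 425650680),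
  Rx.mk (nat_lit 103) (nat_lit 7) (nat_lit 4) (nat_lit 1) (nat_lit 5) (nat_lit 236) (nat_lit 312) r12_236 r12_312 (nat_lit 0) (nat_lit 0) (nat_lit 0) (nat_lit 0x7d6cf2f364) (nat_lit 1263661776),
  Rx.mk (nat_lit 119) (nat_lit 7) (nat_lit 6) (nat_lit 1) (nat_lit 7) (nat_lit 239) (nat_lit 313) r12_239 r12_313 (nat_lit 0) (nat_lit 0) (nat_lit 0) (nat_lit 0x7e9736adfe) (nat_lit 691770456),
  Rx.mk (nat_lit 167) (nat_lit 7) (nat_lit 4) (nat_lit 2) (nat_lit 5) (nat_lit 237) (nat_lit 314) r12_237 r12_314 (nat_lit 0) (nat_lit 0) (nat_lit 0) (nat_lit 0x7f2c8cd806) (nat_lit 405433080)]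
noncomputable def e52_54 : List Rx := [
  Rx.mk (nat_lit 152) (nat_lit 0) (nat_lit 3) (nat_lit 2) (nat_lit 6) (nat_lit 225) (nat_lit 225) r12_225 r12_225 (nat_lit 0) (nat_lit 0) (nat_lit 0) (nat_lit 0x8000000000) (nat_lit 0),
  Rx.mk (nat_lit 184) (nat_lit 0) (nat_lit 7) (nat_lit 2) (nat_lit 6) (nat_lit 228) (nat_lit 226) r12_228 r12_226 (nat_lit 0) (nat_lit 0) (nat_lit 0) (nat_lit 0x7ccfdde552) (nat_lit 1564850664),
  Rx.mk (nat_lit 187) (nat_lit 3) (nat_lit 7) (nat_lit 2) (nat_lit 7) (nat_lit 229) (nat_lit 227) r12_229 r12_227 (nat_lit 0) (nat_lit 0) (nat_lit 0) (nat_lit 0x7eb01cdf82) (nat_lit 644028840),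
  Rx.mk (nat_lit 408) (nat_lit 0) (nat_lit 3) (nat_lit 6) (nat_lit 6) (nat_lit 226) (nat_lit 228) r12_226 r12_228 (nat_lit 0) (nat_lit 0) (nat_lit 0) (nat_lit 0x7ccfdde552) (nat_lit 1564850664),
  Rx.mk (nat_lit 410) (nat_lit 2) (nat_lit 3) (nat_lit 6) (nat_lit 7) (nat_lit 227) (nat_lit 229) r12_227 r12_229 (nat_lit 0) (nat_lit 0) (nat_lit 0) (nat_lit 0x7eb01cdf82) (nat_lit 644028840)]
noncomputable def e52_55 : List Rx := [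
  Rx.mk (nat_lit 160) (nat_lit 0) (nat_lit 4) (nat_lit 2) (nat_lit 4) (nat_lit 323) (nat_lit 355) r12_323 r3_355 (nat_lit 0) (nat_lit 0) (nat_lit 0) (nat_lit 0x8000000000) (nat_lit 0),
  Rx.mk (nat_lit 163) (nat_lit 3) (nat_lit 4) (nat_lit 2) (nat_lit 5) (nat_lit 293) (nat_lit 218) r12_293 r3_218 (nat_lit 0) (nat_lit 0) (nat_lit 0) (nat_lit 0x7fb77b4894) (nat_lit 139046544),
  Rx.mk (nat_lit 168) (nat_lit 0) (nat_lit 5) (nat_lit 2) (nat_lit 6) (nat_lit 294) (nat_lit 217) r12_294 r3_217 (nat_lit 0) (nat_lit 0) (nat_lit 0) (nat_lit 0x794234437a) (nat_lit 3309034248),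
  Rx.mk (nat_lit 171) (nat_lit 3) (nat_lit 5) (nat_lit 2) (nat_lit 7) (nat_lit 295) (nat_lit 219) r12_295 r3_219 (nat_lit 0) (nat_lit 0) (nat_lit 0) (nat_lit 0x7f2d71e9b4) (nat_lit 403717392)]
noncomputable def e52_56 : List Rx := [
  Rx.mk (nat_lit 160) (nat_lit 0) (nat_lit 4) (nat_lit 2) (nat_lit 4) (nat_lit 310) (nat_lit 235) r12_310 r12_235 (nat_lit 0) (nat_lit 0) (nat_lit 0) (nat_lit 0x8000000000) (nat_lit 0),
  Rx.mk (nat_lit 163) (nat_lit 3) (nat_lit 4) (nat_lit 2) (nat_lit 5) (nat_lit 311) (nat_lit 238) r12_311 r12_238 (nat_lit 0) (nat_lit 0) (nat_lit 0) (nat_lit 0x7f220180c6) (nat_lit 425650680),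
  Rx.mk (nat_lit 168) (nat_lit 0) (nat_lit 5) (nat_lit 2) (nat_lit 6) (nat_lit 312) (nat_lit 236) r12_312 r12_236 (nat_lit 0) (nat_lit 0) (nat_lit 0) (nat_lit 0x7d6cf2f364) (nat_lit 1263661776),
  Rx.mk (nat_lit 171) (nat_lit 3) (nat_lit 5) (nat_lit 2) (nat_lit 7) (nat_lit 313) (nat_lit 239) r12_313 r12_239 (nat_lit 0) (nat_lit 0) (nat_lit 0) (nat_lit 0x7e9736adfe) (nat_lit 691770456),
  Rx.mk (nat_lit 184) (nat_lit 0) (nat_lit 7) (nat_lit 2) (nat_lit 6) (nat_lit 314) (nat_lit 237) r12_314 r12_237 (nat_lit 0) (nat_lit 0) (nat_lit 0) (nat_lit 0x7f2c8cd806) (nat_lit 405433080)]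
noncomputable def e52_57 : List Rx := [
  Rx.mk (nat_lit 163) (nat_lit 3) (nat_lit 4) (nat_lit 2) (nat_lit 5) (nat_lit 302) (nat_lit 302) r12_302 r12_302 (nat_lit 0) (nat_lit 0) (nat_lit 0) (nat_lit 0x7ea302313a) (nat_lit 669154824),
  Rx.mk (nat_lit 171) (nat_lit 3) (nat_lit 5) (nat_lit 2) (nat_lit 7) (nat_lit 303) (nat_lit 303) r12_303 r12_303 (nat_lit 0) (nat_lit 0) (nat_lit 0) (nat_lit 0x7e78753a34) (nat_lit 750741264)]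
noncomputable def e52 : List (List Rx) := [e52_0, e52_1, e52_2, e52_3, e52_4, e52_5, e52_6, e52_7, e52_8, e52_9, e52_10, e52_11, e52_12, e52_13, e52_14, e52_15, e52_16, e52_17, e52_18, e52_19, e52_20, e52_21, e52_22, e52_23, e52_24, e52_25, e52_26, e52_27, e52_28, e52_29, e52_30, e52_31, e52_32, e52_33, e52_34, e52_35, e52_36, e52_37, e52_38, e52_39, e52_40, e52_41, e52_42, e52_43, e52_44, e52_45, e52_46, e52_47, e52_48, e52_49, e52_50, e52_51, e52_52, e52_53, e52_54, e52_55, e52_56, e52_57]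
noncomputable def e53_0 : List Rx := [
  Rx.mk (nat_lit 2) (nat_lit 2) (nat_lit 0) (nat_lit 0) (nat_lit 1) (nat_lit 94) (nat_lit 204) r12_94 r0_204 (nat_lit 0) (nat_lit 0) (nat_lit 0) (nat_lit 0x8000000000) (nat_lit 0),
  Rx.mk (nat_lit 6) (nat_lit 6) (nat_lit 0) (nat_lit 0) (nat_lit 1) (nat_lit 95) (nat_lit 209) r12_95 r0_209 (nat_lit 0) (nat_lit 0) (nat_lit 0) (nat_lit 0x749db7cfe6) (nat_lit 5587832952),
  Rx.mk (nat_lit 22) (nat_lit 6) (nat_lit 2) (nat_lit 0) (nat_lit 3) (nat_lit 96) (nat_lit 210) r12_96 r0_210 (nat_lit 0) (nat_lit 0) (nat_lit 0) (nat_lit 0x7d52e9d410) (nat_lit 1313582400),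
  Rx.mk (nat_lit 148) (nat_lit 4) (nat_lit 2) (nat_lit 2) (nat_lit 6) (nat_lit 97) (nat_lit 207) r12_97 r0_207 (nat_lit 0) (nat_lit 0) (nat_lit 0) (nat_lit 0x7b7e747d3a) (nat_lit 2211802632),
  Rx.mk (nat_lit 150) (nat_lit 6) (nat_lit 2) (nat_lit 2) (nat_lit 7) (nat_lit 98) (nat_lit 211) r12_98 r0_211 (nat_lit 0) (nat_lit 0) (nat_lit 0) (nat_lit 0x7df6c1d5ec) (nat_lit 999428976),
  Rx.mk (nat_lit 180) (nat_lit 4) (nat_lit 6) (nat_lit 2) (nat_lit 6) (nat_lit 99) (nat_lit 208) r12_99 r0_208 (nat_lit 0) (nat_lit 0) (nat_lit 0) (nat_lit 0x6c8ed0a668) (nat_lit 9543235104),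
  Rx.mk (nat_lit 194) (nat_lit 2) (nat_lit 0) (nat_lit 3) (nat_lit 5) (nat_lit 100) (nat_lit 205) r12_100 r0_205 (nat_lit 0) (nat_lit 0) (nat_lit 0) (nat_lit 0x769593103a) (nat_lit 4621740552),
  Rx.mk (nat_lit 218) (nat_lit 2) (nat_lit 3) (nat_lit 3) (nat_lit 7) (nat_lit 101) (nat_lit 206) r12_101 r0_206 (nat_lit 0) (nat_lit 0) (nat_lit 0) (nat_lit 0x67426092b6) (nat_lit 12144063672)]
noncomputable def e53_1 : List Rx := [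
  Rx.mk (nat_lit 2) (nat_lit 2) (nat_lit 0) (nat_lit 0) (nat_lit 1) (nat_lit 106) (nat_lit 225) r12_106 r1_225 (nat_lit 0) (nat_lit 0) (nat_lit 0) (nat_lit 0x8000000000) (nat_lit 0),
  Rx.mk (nat_lit 6) (nat_lit 6) (nat_lit 0) (nat_lit 0) (nat_lit 1) (nat_lit 107) (nat_lit 229) r12_107 r1_229 (nat_lit 0) (nat_lit 0) (nat_lit 0) (nat_lit 0x71c5b3f2fc) (nat_lit 6983726256),
  Rx.mk (nat_lit 22) (nat_lit 6) (nat_lit 2) (nat_lit 0) (nat_lit 3) (nat_lit 108) (nat_lit 231) r12_108 r1_231 (nat_lit 0) (nat_lit 0) (nat_lit 0) (nat_lit 0x7d8932ef48) (nat_lit 1209495456),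
  Rx.mk (nat_lit 66) (nat_lit 2) (nat_lit 0) (nat_lit 1) (nat_lit 5) (nat_lit 109) (nat_lit 226) r12_109 r1_226 (nat_lit 0) (nat_lit 0) (nat_lit 0) (nat_lit 0x7eb6a736d6) (nat_lit 631488312),
  Rx.mk (nat_lit 70) (nat_lit 6) (nat_lit 0) (nat_lit 1) (nat_lit 5) (nat_lit 110) (nat_lit 230) r12_110 r1_230 (nat_lit 0) (nat_lit 0) (nat_lit 0) (nat_lit 0x7dfcd1f4e4) (nat_lit 987803856),
  Rx.mk (nat_lit 86) (nat_lit 6) (nat_lit 2) (nat_lit 1) (nat_lit 7) (nat_lit 111) (nat_lit 232) r12_111 r1_232 (nat_lit 0) (nat_lit 0) (nat_lit 0) (nat_lit 0x7e706b5ada) (nat_lit 766154376),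
  Rx.mk (nat_lit 150) (nat_lit 6) (nat_lit 2) (nat_lit 2) (nat_lit 7) (nat_lit 112) (nat_lit 233) r12_112 r1_233 (nat_lit 0) (nat_lit 0) (nat_lit 0) (nat_lit 0x7dda421e04) (nat_lit 1054072656),
  Rx.mk (nat_lit 194) (nat_lit 2) (nat_lit 0) (nat_lit 3) (nat_lit 5) (nat_lit 113) (nat_lit 227) r12_113 r1_227 (nat_lit 0) (nat_lit 0) (nat_lit 0) (nat_lit 0x7dc65abc8e) (nat_lit 1092236184),
  Rx.mk (nat_lit 218) (nat_lit 2) (nat_lit 3) (nat_lit 3) (nat_lit 7) (nat_lit 114) (nat_lit 228) r12_114 r1_228 (nat_lit 0) (nat_lit 0) (nat_lit 0) (nat_lit 0x7d334cae02) (nat_lit 1374198696)]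
noncomputable def e53_2 : List Rx := [
  Rx.mk (nat_lit 66) (nat_lit 2) (nat_lit 0) (nat_lit 1) (nat_lit 5) (nat_lit 258) (nat_lit 238) r12_258 r2_238 (nat_lit 0) (nat_lit 0) (nat_lit 0) (nat_lit 0x7e39f90236) (nat_lit 870550200),
  Rx.mk (nat_lit 70) (nat_lit 6) (nat_lit 0) (nat_lit 1) (nat_lit 5) (nat_lit 259) (nat_lit 239) r12_259 r2_239 (nat_lit 0) (nat_lit 0) (nat_lit 0) (nat_lit 0x7e4fef22be) (nat_lit 828441432),
  Rx.mk (nat_lit 86) (nat_lit 6) (nat_lit 2) (nat_lit 1) (nat_lit 7) (nat_lit 260) (nat_lit 240) r12_260 r2_240 (nat_lit 0) (nat_lit 0) (nat_lit 0) (nat_lit 0x7e0dc225d0) (nat_lit 955326528)]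
noncomputable def e53_3 : List Rx := [
  Rx.mk (nat_lit 22) (nat_lit 6) (nat_lit 2) (nat_lit 0) (nat_lit 3) (nat_lit 16) (nat_lit 208) r12_16 r3_208 (nat_lit 0) (nat_lit 0) (nat_lit 0) (nat_lit 0x8000000000) (nat_lit 0),
  Rx.mk (nat_lit 148) (nat_lit 4) (nat_lit 2) (nat_lit 2) (nat_lit 6) (nat_lit 17) (nat_lit 203) r12_17 r3_203 (nat_lit 0) (nat_lit 0) (nat_lit 0) (nat_lit 0x7fececd146) (nat_lit 36574200),
  Rx.mk (nat_lit 150) (nat_lit 6) (nat_lit 2) (nat_lit 2) (nat_lit 7) (nat_lit 18) (nat_lit 210) r12_18 r3_210 (nat_lit 0) (nat_lit 0) (nat_lit 0) (nat_lit 0x7d72006288) (nat_lit 1253974176),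
  Rx.mk (nat_lit 180) (nat_lit 4) (nat_lit 6) (nat_lit 2) (nat_lit 6) (nat_lit 19) (nat_lit 204) r12_19 r3_204 (nat_lit 0) (nat_lit 0) (nat_lit 0) (nat_lit 0x7b0082bcd4) (nat_lit 2453287824),
  Rx.mk (nat_lit 183) (nat_lit 7) (nat_lit 6) (nat_lit 2) (nat_lit 7) (nat_lit 20) (nat_lit 205) r12_20 r3_205 (nat_lit 0) (nat_lit 0) (nat_lit 0) (nat_lit 0x7f69370d26) (nat_lit 289114488),
  Rx.mk (nat_lit 194) (nat_lit 2) (nat_lit 0) (nat_lit 3) (nat_lit 5) (nat_lit 21) (nat_lit 354) r12_21 r3_354 (nat_lit 0) (nat_lit 0) (nat_lit 0) (nat_lit 0x8000000000) (nat_lit 0),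
  Rx.mk (nat_lit 198) (nat_lit 6) (nat_lit 0) (nat_lit 3) (nat_lit 5) (nat_lit 22) (nat_lit 207) r12_22 r3_207 (nat_lit 0) (nat_lit 0) (nat_lit 0) (nat_lit 0x7735c94c36) (nat_lit 4314550968),
  Rx.mk (nat_lit 214) (nat_lit 6) (nat_lit 2) (nat_lit 3) (nat_lit 7) (nat_lit 23) (nat_lit 209) r12_23 r3_209 (nat_lit 0) (nat_lit 0) (nat_lit 0) (nat_lit 0x7fbcc993aa) (nat_lit 128873160),
  Rx.mk (nat_lit 218) (nat_lit 2) (nat_lit 3) (nat_lit 3) (nat_lit 7) (nat_lit 24) (nat_lit 201) r12_24 r3_201 (nat_lit 0) (nat_lit 0) (nat_lit 0) (nat_lit 0x791d0196ca) (nat_lit 3380357448),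
  Rx.mk (nat_lit 439) (nat_lit 7) (nat_lit 6) (nat_lit 6) (nat_lit 7) (nat_lit 25) (nat_lit 206) r12_25 r3_206 (nat_lit 0) (nat_lit 0) (nat_lit 0) (nat_lit 0x7986b4fb2a) (nat_lit 3177687240),
  Rx.mk (nat_lit 474) (nat_lit 2) (nat_lit 3) (nat_lit 7) (nat_lit 7) (nat_lit 26) (nat_lit 202) r12_26 r3_202 (nat_lit 0) (nat_lit 0) (nat_lit 0) (nat_lit 0x7e98a7f6e8) (nat_lit 689004576)]
noncomputable def e53_4 : List Rx := [
  Rx.mk (nat_lit 6) (nat_lit 6) (nat_lit 0) (nat_lit 0) (nat_lit 1) (nat_lit 124) (nat_lit 200) r12_124 r4_200 (nat_lit 0) (nat_lit 0) (nat_lit 0) (nat_lit 0x6c41dd75e8) (nat_lit 9690778656),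
  Rx.mk (nat_lit 22) (nat_lit 6) (nat_lit 2) (nat_lit 0) (nat_lit 3) (nat_lit 125) (nat_lit 202) r12_125 r4_202 (nat_lit 0) (nat_lit 0) (nat_lit 0) (nat_lit 0x7e00441dbe) (nat_lit 981196632),
  Rx.mk (nat_lit 148) (nat_lit 4) (nat_lit 2) (nat_lit 2) (nat_lit 6) (nat_lit 126) (nat_lit 197) r12_126 r4_197 (nat_lit 0) (nat_lit 0) (nat_lit 0) (nat_lit 0x7853b78c34) (nat_lit 3766308624),
  Rx.mk (nat_lit 150) (nat_lit 6) (nat_lit 2) (nat_lit 2) (nat_lit 7) (nat_lit 127) (nat_lit 204) r12_127 r4_204 (nat_lit 0) (nat_lit 0) (nat_lit 0) (nat_lit 0x7e302d3efc) (nat_lit 889332912),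
  Rx.mk (nat_lit 180) (nat_lit 4) (nat_lit 6) (nat_lit 2) (nat_lit 6) (nat_lit 128) (nat_lit 198) r12_128 r4_198 (nat_lit 0) (nat_lit 0) (nat_lit 0) (nat_lit 0x79e6f15704) (nat_lit 2993165136),
  Rx.mk (nat_lit 183) (nat_lit 7) (nat_lit 6) (nat_lit 2) (nat_lit 7) (nat_lit 129) (nat_lit 199) r12_129 r4_199 (nat_lit 0) (nat_lit 0) (nat_lit 0) (nat_lit 0x7e8a3edd88) (nat_lit 716635296),
  Rx.mk (nat_lit 194) (nat_lit 2) (nat_lit 0) (nat_lit 3) (nat_lit 5) (nat_lit 130) (nat_lit 195) r12_130 r4_195 (nat_lit 0) (nat_lit 0) (nat_lit 0) (nat_lit 0x7bc8cf5742) (nat_lit 2069234856),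
  Rx.mk (nat_lit 198) (nat_lit 6) (nat_lit 0) (nat_lit 3) (nat_lit 5) (nat_lit 131) (nat_lit 201) r12_131 r4_201 (nat_lit 0) (nat_lit 0) (nat_lit 0) (nat_lit 0x7a87b0ca6c) (nat_lit 2684947824),
  Rx.mk (nat_lit 214) (nat_lit 6) (nat_lit 2) (nat_lit 3) (nat_lit 7) (nat_lit 132) (nat_lit 203) r12_132 r4_203 (nat_lit 0) (nat_lit 0) (nat_lit 0) (nat_lit 0x7e76bad5dc) (nat_lit 754054704),
  Rx.mk (nat_lit 218) (nat_lit 2) (nat_lit 3) (nat_lit 3) (nat_lit 7) (nat_lit 133) (nat_lit 196) r12_133 r4_196 (nat_lit 0) (nat_lit 0) (nat_lit 0) (nat_lit 0x7dfbbbc648) (nat_lit 989887392)]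
noncomputable def e53_5 : List Rx := [
  Rx.mk (nat_lit 258) (nat_lit 2) (nat_lit 0) (nat_lit 4) (nat_lit 1) (nat_lit 323) (nat_lit 355) r12_323 r3_355 (nat_lit 0) (nat_lit 0) (nat_lit 0) (nat_lit 0x8000000000) (nat_lit 0),
  Rx.mk (nat_lit 282) (nat_lit 2) (nat_lit 3) (nat_lit 4) (nat_lit 3) (nat_lit 293) (nat_lit 218) r12_293 r3_218 (nat_lit 0) (nat_lit 0) (nat_lit 0) (nat_lit 0x7fb77b4894) (nat_lit 139046544),
  Rx.mk (nat_lit 322) (nat_lit 2) (nat_lit 0) (nat_lit 5) (nat_lit 5) (nat_lit 294) (nat_lit 217) r12_294 r3_217 (nat_lit 0) (nat_lit 0) (nat_lit 0) (nat_lit 0x794234437a) (nat_lit 3309034248),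
  Rx.mk (nat_lit 346) (nat_lit 2) (nat_lit 3) (nat_lit 5) (nat_lit 7) (nat_lit 295) (nat_lit 219) r12_295 r3_219 (nat_lit 0) (nat_lit 0) (nat_lit 0) (nat_lit 0x7f2d71e9b4) (nat_lit 403717392)]
noncomputable def e53_6 : List Rx := [
  Rx.mk (nat_lit 322) (nat_lit 2) (nat_lit 0) (nat_lit 5) (nat_lit 5) (nat_lit 255) (nat_lit 224) r12_255 r0_224 (nat_lit 0) (nat_lit 0) (nat_lit 0) (nat_lit 0x8000000000) (nat_lit 0)]
noncomputable def e53_7 : List Rx := [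
  Rx.mk (nat_lit 66) (nat_lit 2) (nat_lit 0) (nat_lit 1) (nat_lit 5) (nat_lit 267) (nat_lit 243) r12_267 r1_243 (nat_lit 0) (nat_lit 0) (nat_lit 0) (nat_lit 0x7d19eca41c) (nat_lit 1422852912),
  Rx.mk (nat_lit 322) (nat_lit 2) (nat_lit 0) (nat_lit 5) (nat_lit 5) (nat_lit 268) (nat_lit 242) r12_268 r1_242 (nat_lit 0) (nat_lit 0) (nat_lit 0) (nat_lit 0x8000000000) (nat_lit 0)]
noncomputable def e53_8 : List Rx := [
  Rx.mk (nat_lit 322) (nat_lit 2) (nat_lit 0) (nat_lit 5) (nat_lit 5) (nat_lit 304) (nat_lit 224) r12_304 r4_224 (nat_lit 0) (nat_lit 0) (nat_lit 0) (nat_lit 0x7b83692dea) (nat_lit 2202300360),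
  Rx.mk (nat_lit 346) (nat_lit 2) (nat_lit 3) (nat_lit 5) (nat_lit 7) (nat_lit 305) (nat_lit 225) r12_305 r4_225 (nat_lit 0) (nat_lit 0) (nat_lit 0) (nat_lit 0x7b9dce877a) (nat_lit 2151688968)]
noncomputable def e53_9 : List Rx := [
  Rx.mk (nat_lit 282) (nat_lit 2) (nat_lit 3) (nat_lit 4) (nat_lit 3) (nat_lit 242) (nat_lit 239) r12_242 r5_239 (nat_lit 0) (nat_lit 0) (nat_lit 0) (nat_lit 0x7d25bb2728) (nat_lit 1400214816),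
  Rx.mk (nat_lit 450) (nat_lit 2) (nat_lit 0) (nat_lit 7) (nat_lit 5) (nat_lit 243) (nat_lit 238) r12_243 r5_238 (nat_lit 0) (nat_lit 0) (nat_lit 0) (nat_lit 0x7fed08ef84) (nat_lit 36363600),
  Rx.mk (nat_lit 474) (nat_lit 2) (nat_lit 3) (nat_lit 7) (nat_lit 7) (nat_lit 244) (nat_lit 240) r12_244 r5_240 (nat_lit 0) (nat_lit 0) (nat_lit 0) (nat_lit 0x7ef7d3c3cc) (nat_lit 506523888)]
noncomputable def e53_10 : List Rx := [
  Rx.mk (nat_lit 22) (nat_lit 6) (nat_lit 2) (nat_lit 0) (nat_lit 3) (nat_lit 0) (nat_lit 67) r12_0 r0_67 (nat_lit 0) (nat_lit 0) (nat_lit 0) (nat_lit 0x765c6d02d4) (nat_lit 4731317136),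
  Rx.mk (nat_lit 148) (nat_lit 4) (nat_lit 2) (nat_lit 2) (nat_lit 6) (nat_lit 1) (nat_lit 69) r12_1 r0_69 (nat_lit 0) (nat_lit 0) (nat_lit 0) (nat_lit 0x71e33a1a7c) (nat_lit 6927116976),
  Rx.mk (nat_lit 150) (nat_lit 6) (nat_lit 2) (nat_lit 2) (nat_lit 7) (nat_lit 2) (nat_lit 70) r12_2 r0_70 (nat_lit 0) (nat_lit 0) (nat_lit 0) (nat_lit 0x7690a69f06) (nat_lit 4631181048),
  Rx.mk (nat_lit 180) (nat_lit 4) (nat_lit 6) (nat_lit 2) (nat_lit 6) (nat_lit 3) (nat_lit 68) r12_3 r0_68 (nat_lit 0) (nat_lit 0) (nat_lit 0) (nat_lit 0x75cf3f763a) (nat_lit 5002011144),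
  Rx.mk (nat_lit 436) (nat_lit 4) (nat_lit 6) (nat_lit 6) (nat_lit 6) (nat_lit 4) (nat_lit 65) r12_4 r0_65 (nat_lit 0) (nat_lit 0) (nat_lit 0) (nat_lit 0x720f3cda24) (nat_lit 6842730960),
  Rx.mk (nat_lit 439) (nat_lit 7) (nat_lit 6) (nat_lit 6) (nat_lit 7) (nat_lit 5) (nat_lit 66) r12_5 r0_66 (nat_lit 0) (nat_lit 0) (nat_lit 0) (nat_lit 0x7df1ba066e) (nat_lit 1009074456)]
noncomputable def e53_11 : List Rx := [
  Rx.mk (nat_lit 22) (nat_lit 6) (nat_lit 2) (nat_lit 0) (nat_lit 3) (nat_lit 102) (nat_lit 272) r12_102 r6_272 (nat_lit 0) (nat_lit 0) (nat_lit 0) (nat_lit 0x7ecbf921a2) (nat_lit 590609448),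
  Rx.mk (nat_lit 148) (nat_lit 4) (nat_lit 2) (nat_lit 2) (nat_lit 6) (nat_lit 103) (nat_lit 270) r12_103 r6_270 (nat_lit 0) (nat_lit 0) (nat_lit 0) (nat_lit 0x7d8621e05c) (nat_lit 1215375408),
  Rx.mk (nat_lit 150) (nat_lit 6) (nat_lit 2) (nat_lit 2) (nat_lit 7) (nat_lit 104) (nat_lit 273) r12_104 r6_273 (nat_lit 0) (nat_lit 0) (nat_lit 0) (nat_lit 0x7dbc727b1c) (nat_lit 1111232304),
  Rx.mk (nat_lit 180) (nat_lit 4) (nat_lit 6) (nat_lit 2) (nat_lit 6) (nat_lit 105) (nat_lit 271) r12_105 r6_271 (nat_lit 0) (nat_lit 0) (nat_lit 0) (nat_lit 0x7cd666bcbe) (nat_lit 1552321368)]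
noncomputable def e53_12 : List Rx := [
  Rx.mk (nat_lit 148) (nat_lit 4) (nat_lit 2) (nat_lit 2) (nat_lit 6) (nat_lit 6) (nat_lit 63) r12_6 r1_63 (nat_lit 0) (nat_lit 0) (nat_lit 0) (nat_lit 0x7a1cc1b9c8) (nat_lit 2889982368),
  Rx.mk (nat_lit 149) (nat_lit 5) (nat_lit 2) (nat_lit 2) (nat_lit 7) (nat_lit 7) (nat_lit 64) r12_7 r1_64 (nat_lit 0) (nat_lit 0) (nat_lit 0) (nat_lit 0x7e3ee0f3b2) (nat_lit 861143400),
  Rx.mk (nat_lit 150) (nat_lit 6) (nat_lit 2) (nat_lit 2) (nat_lit 7) (nat_lit 8) (nat_lit 65) r12_8 r1_65 (nat_lit 0) (nat_lit 0) (nat_lit 0) (nat_lit 0x7c03ca075c) (nat_lit 1956148272),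
  Rx.mk (nat_lit 180) (nat_lit 4) (nat_lit 6) (nat_lit 2) (nat_lit 6) (nat_lit 9) (nat_lit 61) r12_9 r1_61 (nat_lit 0) (nat_lit 0) (nat_lit 0) (nat_lit 0x7a959c4ba6) (nat_lit 2658257784),
  Rx.mk (nat_lit 181) (nat_lit 5) (nat_lit 6) (nat_lit 2) (nat_lit 7) (nat_lit 10) (nat_lit 62) r12_10 r1_62 (nat_lit 0) (nat_lit 0) (nat_lit 0) (nat_lit 0x7effe88278) (nat_lit 491029344),
  Rx.mk (nat_lit 436) (nat_lit 4) (nat_lit 6) (nat_lit 6) (nat_lit 6) (nat_lit 11) (nat_lit 58) r12_11 r1_58 (nat_lit 0) (nat_lit 0) (nat_lit 0) (nat_lit 0x76758bd0ce) (nat_lit 4683151512),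
  Rx.mk (nat_lit 437) (nat_lit 5) (nat_lit 6) (nat_lit 6) (nat_lit 7) (nat_lit 12) (nat_lit 59) r12_12 r1_59 (nat_lit 0) (nat_lit 0) (nat_lit 0) (nat_lit 0x7e4f838978) (nat_lit 829247328),
  Rx.mk (nat_lit 439) (nat_lit 7) (nat_lit 6) (nat_lit 6) (nat_lit 7) (nat_lit 13) (nat_lit 60) r12_13 r1_60 (nat_lit 0) (nat_lit 0) (nat_lit 0) (nat_lit 0x7d35e3e48c) (nat_lit 1369231344)]
noncomputable def e53_13 : List Rx := [
  Rx.mk (nat_lit 148) (nat_lit 4) (nat_lit 2) (nat_lit 2) (nat_lit 6) (nat_lit 118) (nat_lit 201) r12_118 r7_201 (nat_lit 0) (nat_lit 0) (nat_lit 0) (nat_lit 0x7cf07bdb52) (nat_lit 1502310888),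
  Rx.mk (nat_lit 149) (nat_lit 5) (nat_lit 2) (nat_lit 2) (nat_lit 7) (nat_lit 119) (nat_lit 203) r12_119 r7_203 (nat_lit 0) (nat_lit 0) (nat_lit 0) (nat_lit 0x7deb792a82) (nat_lit 1021064616),
  Rx.mk (nat_lit 150) (nat_lit 6) (nat_lit 2) (nat_lit 2) (nat_lit 7) (nat_lit 120) (nat_lit 205) r12_120 r7_205 (nat_lit 0) (nat_lit 0) (nat_lit 0) (nat_lit 0x7df2ff7216) (nat_lit 1006637112),
  Rx.mk (nat_lit 180) (nat_lit 4) (nat_lit 6) (nat_lit 2) (nat_lit 6) (nat_lit 121) (nat_lit 202) r12_121 r7_202 (nat_lit 0) (nat_lit 0) (nat_lit 0) (nat_lit 0x7def2a4f6c) (nat_lit 1013985648),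
  Rx.mk (nat_lit 181) (nat_lit 5) (nat_lit 6) (nat_lit 2) (nat_lit 7) (nat_lit 122) (nat_lit 204) r12_122 r7_204 (nat_lit 0) (nat_lit 0) (nat_lit 0) (nat_lit 0x7e4966ab4c) (nat_lit 840967920)]
noncomputable def e53_14 : List Rx := [
  Rx.mk (nat_lit 22) (nat_lit 6) (nat_lit 2) (nat_lit 0) (nat_lit 3) (nat_lit 115) (nat_lit 58) r12_115 r7_58 (nat_lit 0) (nat_lit 0) (nat_lit 0) (nat_lit 0x7e3efef1d2) (nat_lit 860918760),
  Rx.mk (nat_lit 86) (nat_lit 6) (nat_lit 2) (nat_lit 1) (nat_lit 7) (nat_lit 116) (nat_lit 59) r12_116 r7_59 (nat_lit 0) (nat_lit 0) (nat_lit 0) (nat_lit 0x7e2750acce) (nat_lit 906324120),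
  Rx.mk (nat_lit 150) (nat_lit 6) (nat_lit 2) (nat_lit 2) (nat_lit 7) (nat_lit 117) (nat_lit 60) r12_117 r7_60 (nat_lit 0) (nat_lit 0) (nat_lit 0) (nat_lit 0x7de1ad6748) (nat_lit 1039847328)]
noncomputable def e53_15 : List Rx := [
  Rx.mk (nat_lit 86) (nat_lit 6) (nat_lit 2) (nat_lit 1) (nat_lit 7) (nat_lit 266) (nat_lit 215) r12_266 r8_215 (nat_lit 0) (nat_lit 0) (nat_lit 0) (nat_lit 0x7df0bb165e) (nat_lit 1010983896)]
noncomputable def e53_16 : List Rx := [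
  Rx.mk (nat_lit 22) (nat_lit 6) (nat_lit 2) (nat_lit 0) (nat_lit 3) (nat_lit 27) (nat_lit 59) r12_27 r4_59 (nat_lit 0) (nat_lit 0) (nat_lit 0) (nat_lit 0x7e7c8d78ac) (nat_lit 742890096),
  Rx.mk (nat_lit 148) (nat_lit 4) (nat_lit 2) (nat_lit 2) (nat_lit 6) (nat_lit 28) (nat_lit 63) r12_28 r4_63 (nat_lit 0) (nat_lit 0) (nat_lit 0) (nat_lit 0x7bf02e0130) (nat_lit 1993747392),
  Rx.mk (nat_lit 150) (nat_lit 6) (nat_lit 2) (nat_lit 2) (nat_lit 7) (nat_lit 29) (nat_lit 64) r12_29 r4_64 (nat_lit 0) (nat_lit 0) (nat_lit 0) (nat_lit 0x7d62493e0a) (nat_lit 1284106824),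
  Rx.mk (nat_lit 180) (nat_lit 4) (nat_lit 6) (nat_lit 2) (nat_lit 6) (nat_lit 30) (nat_lit 61) r12_30 r4_61 (nat_lit 0) (nat_lit 0) (nat_lit 0) (nat_lit 0x7e3684f97a) (nat_lit 877171464),
  Rx.mk (nat_lit 183) (nat_lit 7) (nat_lit 6) (nat_lit 2) (nat_lit 7) (nat_lit 31) (nat_lit 62) r12_31 r4_62 (nat_lit 0) (nat_lit 0) (nat_lit 0) (nat_lit 0x7eac08c0c8) (nat_lit 651849120),
  Rx.mk (nat_lit 214) (nat_lit 6) (nat_lit 2) (nat_lit 3) (nat_lit 7) (nat_lit 32) (nat_lit 60) r12_32 r4_60 (nat_lit 0) (nat_lit 0) (nat_lit 0) (nat_lit 0x7edd36edb4) (nat_lit 557550864),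
  Rx.mk (nat_lit 439) (nat_lit 7) (nat_lit 6) (nat_lit 6) (nat_lit 7) (nat_lit 33) (nat_lit 58) r12_33 r4_58 (nat_lit 0) (nat_lit 0) (nat_lit 0) (nat_lit 0x7e581e7fc0) (nat_lit 812747520)]
noncomputable def e53_17 : List Rx := [
  Rx.mk (nat_lit 22) (nat_lit 6) (nat_lit 2) (nat_lit 0) (nat_lit 3) (nat_lit 134) (nat_lit 215) r12_134 r9_215 (nat_lit 0) (nat_lit 0) (nat_lit 0) (nat_lit 0x7e7d860922) (nat_lit 741028392),
  Rx.mk (nat_lit 148) (nat_lit 4) (nat_lit 2) (nat_lit 2) (nat_lit 6) (nat_lit 135) (nat_lit 212) r12_135 r9_212 (nat_lit 0) (nat_lit 0) (nat_lit 0) (nat_lit 0x7da88f3964) (nat_lit 1149364944),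
  Rx.mk (nat_lit 150) (nat_lit 6) (nat_lit 2) (nat_lit 2) (nat_lit 7) (nat_lit 136) (nat_lit 217) r12_136 r9_217 (nat_lit 0) (nat_lit 0) (nat_lit 0) (nat_lit 0x7db3658bf4) (nat_lit 1128585744),
  Rx.mk (nat_lit 180) (nat_lit 4) (nat_lit 6) (nat_lit 2) (nat_lit 6) (nat_lit 137) (nat_lit 213) r12_137 r9_213 (nat_lit 0) (nat_lit 0) (nat_lit 0) (nat_lit 0x7e68347e50) (nat_lit 781904448),
  Rx.mk (nat_lit 183) (nat_lit 7) (nat_lit 6) (nat_lit 2) (nat_lit 7) (nat_lit 138) (nat_lit 214) r12_138 r9_214 (nat_lit 0) (nat_lit 0) (nat_lit 0) (nat_lit 0x7e84fe7194) (nat_lit 726704784),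
  Rx.mk (nat_lit 214) (nat_lit 6) (nat_lit 2) (nat_lit 3) (nat_lit 7) (nat_lit 139) (nat_lit 216) r12_139 r9_216 (nat_lit 0) (nat_lit 0) (nat_lit 0) (nat_lit 0x7e0d9168dc) (nat_lit 955691568)]
noncomputable def e53_18 : List Rx := [
  Rx.mk (nat_lit 214) (nat_lit 6) (nat_lit 2) (nat_lit 3) (nat_lit 7) (nat_lit 230) (nat_lit 265) r12_230 r10_265 (nat_lit 0) (nat_lit 0) (nat_lit 0) (nat_lit 0x7ee7b225f6) (nat_lit 537454008)]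
noncomputable def e53_19 : List Rx := [
  Rx.mk (nat_lit 66) (nat_lit 2) (nat_lit 0) (nat_lit 1) (nat_lit 5) (nat_lit 261) (nat_lit 225) r12_261 r8_225 (nat_lit 0) (nat_lit 0) (nat_lit 0) (nat_lit 0x7cb54cae80) (nat_lit 1615790592),
  Rx.mk (nat_lit 70) (nat_lit 6) (nat_lit 0) (nat_lit 1) (nat_lit 5) (nat_lit 262) (nat_lit 224) r12_262 r8_224 (nat_lit 0) (nat_lit 0) (nat_lit 0) (nat_lit 0x7dae17a0d8) (nat_lit 1138756320),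
  Rx.mk (nat_lit 74) (nat_lit 2) (nat_lit 1) (nat_lit 1) (nat_lit 7) (nat_lit 263) (nat_lit 227) r12_263 r8_227 (nat_lit 0) (nat_lit 0) (nat_lit 0) (nat_lit 0x7dca3abe8a) (nat_lit 1084806216),
  Rx.mk (nat_lit 78) (nat_lit 6) (nat_lit 1) (nat_lit 1) (nat_lit 7) (nat_lit 264) (nat_lit 226) r12_264 r8_226 (nat_lit 0) (nat_lit 0) (nat_lit 0) (nat_lit 0x7de7338ee0) (nat_lit 1029255552),
  Rx.mk (nat_lit 86) (nat_lit 6) (nat_lit 2) (nat_lit 1) (nat_lit 7) (nat_lit 265) (nat_lit 228) r12_265 r8_228 (nat_lit 0) (nat_lit 0) (nat_lit 0) (nat_lit 0x7de986e9a8) (nat_lit 1024796448)]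
noncomputable def e53_20 : List Rx := [
  Rx.mk (nat_lit 266) (nat_lit 2) (nat_lit 1) (nat_lit 4) (nat_lit 3) (nat_lit 252) (nat_lit 314) r12_252 r0_314 (nat_lit 0) (nat_lit 0) (nat_lit 0) (nat_lit 0x7c8c873b00) (nat_lit 1693965312),
  Rx.mk (nat_lit 322) (nat_lit 2) (nat_lit 0) (nat_lit 5) (nat_lit 5) (nat_lit 253) (nat_lit 315) r12_253 r0_315 (nat_lit 0) (nat_lit 0) (nat_lit 0) (nat_lit 0x7ac9315222) (nat_lit 2559354408),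
  Rx.mk (nat_lit 330) (nat_lit 2) (nat_lit 1) (nat_lit 5) (nat_lit 7) (nat_lit 254) (nat_lit 316) r12_254 r0_316 (nat_lit 0) (nat_lit 0) (nat_lit 0) (nat_lit 0x7ef9c72494) (nat_lit 502783632)]
noncomputable def e53_21 : List Rx := [
  Rx.mk (nat_lit 266) (nat_lit 2) (nat_lit 1) (nat_lit 4) (nat_lit 3) (nat_lit 273) (nat_lit 302) r12_273 r1_302 (nat_lit 0) (nat_lit 0) (nat_lit 0) (nat_lit 0x7e59f0e298) (nat_lit 809254368),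
  Rx.mk (nat_lit 330) (nat_lit 2) (nat_lit 1) (nat_lit 5) (nat_lit 7) (nat_lit 274) (nat_lit 303) r12_274 r1_303 (nat_lit 0) (nat_lit 0) (nat_lit 0) (nat_lit 0x7d5c1b80ec) (nat_lit 1295953776)]
noncomputable def e53_22 : List Rx := [
  Rx.mk (nat_lit 258) (nat_lit 2) (nat_lit 0) (nat_lit 4) (nat_lit 1) (nat_lit 296) (nat_lit 343) r12_296 r4_343 (nat_lit 0) (nat_lit 0) (nat_lit 0) (nat_lit 0x752fda0d30) (nat_lit 5307636672),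
  Rx.mk (nat_lit 266) (nat_lit 2) (nat_lit 1) (nat_lit 4) (nat_lit 3) (nat_lit 297) (nat_lit 344) r12_297 r4_344 (nat_lit 0) (nat_lit 0) (nat_lit 0) (nat_lit 0x7defaae762) (nat_lit 1013022504),
  Rx.mk (nat_lit 282) (nat_lit 2) (nat_lit 3) (nat_lit 4) (nat_lit 3) (nat_lit 298) (nat_lit 345) r12_298 r4_345 (nat_lit 0) (nat_lit 0) (nat_lit 0) (nat_lit 0x7ddf492d8e) (nat_lit 1044432792),
  Rx.mk (nat_lit 322) (nat_lit 2) (nat_lit 0) (nat_lit 5) (nat_lit 5) (nat_lit 299) (nat_lit 346) r12_299 r4_346 (nat_lit 0) (nat_lit 0) (nat_lit 0) (nat_lit 0x79f1f206ee) (nat_lit 2972068632),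
  Rx.mk (nat_lit 330) (nat_lit 2) (nat_lit 1) (nat_lit 5) (nat_lit 7) (nat_lit 300) (nat_lit 347) r12_300 r4_347 (nat_lit 0) (nat_lit 0) (nat_lit 0) (nat_lit 0x7e5fb6663a) (nat_lit 798188040),
  Rx.mk (nat_lit 346) (nat_lit 2) (nat_lit 3) (nat_lit 5) (nat_lit 7) (nat_lit 301) (nat_lit 348) r12_301 r4_348 (nat_lit 0) (nat_lit 0) (nat_lit 0) (nat_lit 0x7e24ff91e2) (nat_lit 910766376)]
noncomputable def e53_23 : List Rx := [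
  Rx.mk (nat_lit 322) (nat_lit 2) (nat_lit 0) (nat_lit 5) (nat_lit 5) (nat_lit 256) (nat_lit 286) r12_256 r6_286 (nat_lit 0) (nat_lit 0) (nat_lit 0) (nat_lit 0x7e13f5229a) (nat_lit 943440264),
  Rx.mk (nat_lit 330) (nat_lit 2) (nat_lit 1) (nat_lit 5) (nat_lit 7) (nat_lit 257) (nat_lit 287) r12_257 r6_287 (nat_lit 0) (nat_lit 0) (nat_lit 0) (nat_lit 0x7e7b9907f4) (nat_lit 744720912)]
noncomputable def e53_24 : List Rx := [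
  Rx.mk (nat_lit 330) (nat_lit 2) (nat_lit 1) (nat_lit 5) (nat_lit 7) (nat_lit 285) (nat_lit 218) r12_285 r7_218 (nat_lit 0) (nat_lit 0) (nat_lit 0) (nat_lit 0x7e67fac1ec) (nat_lit 782336880)]
noncomputable def e53_25 : List Rx := [
  Rx.mk (nat_lit 66) (nat_lit 2) (nat_lit 0) (nat_lit 1) (nat_lit 5) (nat_lit 269) (nat_lit 347) r12_269 r7_347 (nat_lit 0) (nat_lit 0) (nat_lit 0) (nat_lit 0x7d3189aa34) (nat_lit 1377576720),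
  Rx.mk (nat_lit 74) (nat_lit 2) (nat_lit 1) (nat_lit 1) (nat_lit 7) (nat_lit 270) (nat_lit 348) r12_270 r7_348 (nat_lit 0) (nat_lit 0) (nat_lit 0) (nat_lit 0x7df25e9c24) (nat_lit 1007841744),
  Rx.mk (nat_lit 322) (nat_lit 2) (nat_lit 0) (nat_lit 5) (nat_lit 5) (nat_lit 271) (nat_lit 349) r12_271 r7_349 (nat_lit 0) (nat_lit 0) (nat_lit 0) (nat_lit 0x7d458d29e8) (nat_lit 1339202592),
  Rx.mk (nat_lit 330) (nat_lit 2) (nat_lit 1) (nat_lit 5) (nat_lit 7) (nat_lit 272) (nat_lit 350) r12_272 r7_350 (nat_lit 0) (nat_lit 0) (nat_lit 0) (nat_lit 0x7dcaa7d7b8) (nat_lit 1083989088)]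
noncomputable def e53_26 : List Rx := [
  Rx.mk (nat_lit 322) (nat_lit 2) (nat_lit 0) (nat_lit 5) (nat_lit 5) (nat_lit 306) (nat_lit 237) r12_306 r9_237 (nat_lit 0) (nat_lit 0) (nat_lit 0) (nat_lit 0x7db5ac2788) (nat_lit 1124222112),
  Rx.mk (nat_lit 330) (nat_lit 2) (nat_lit 1) (nat_lit 5) (nat_lit 7) (nat_lit 307) (nat_lit 238) r12_307 r9_238 (nat_lit 0) (nat_lit 0) (nat_lit 0) (nat_lit 0x7e63f48254) (nat_lit 790053264),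
  Rx.mk (nat_lit 346) (nat_lit 2) (nat_lit 3) (nat_lit 5) (nat_lit 7) (nat_lit 308) (nat_lit 239) r12_308 r9_239 (nat_lit 0) (nat_lit 0) (nat_lit 0) (nat_lit 0x7e796d0ab6) (nat_lit 748885176)]
noncomputable def e53_27 : List Rx := [
  Rx.mk (nat_lit 258) (nat_lit 2) (nat_lit 0) (nat_lit 4) (nat_lit 1) (nat_lit 315) (nat_lit 273) r12_315 r10_273 (nat_lit 0) (nat_lit 0) (nat_lit 0) (nat_lit 0x771b6bd228) (nat_lit 4365103392),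
  Rx.mk (nat_lit 266) (nat_lit 2) (nat_lit 1) (nat_lit 4) (nat_lit 3) (nat_lit 316) (nat_lit 276) r12_316 r10_276 (nat_lit 0) (nat_lit 0) (nat_lit 0) (nat_lit 0x7d971a50c4) (nat_lit 1182836304),
  Rx.mk (nat_lit 282) (nat_lit 2) (nat_lit 3) (nat_lit 4) (nat_lit 3) (nat_lit 317) (nat_lit 279) r12_317 r10_279 (nat_lit 0) (nat_lit 0) (nat_lit 0) (nat_lit 0x7dea0ba15c) (nat_lit 1023802416),
  Rx.mk (nat_lit 322) (nat_lit 2) (nat_lit 0) (nat_lit 5) (nat_lit 5) (nat_lit 318) (nat_lit 274) r12_318 r10_274 (nat_lit 0) (nat_lit 0) (nat_lit 0) (nat_lit 0x7d6315f13e) (nat_lit 1282573656),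
  Rx.mk (nat_lit 330) (nat_lit 2) (nat_lit 1) (nat_lit 5) (nat_lit 7) (nat_lit 319) (nat_lit 277) r12_319 r10_277 (nat_lit 0) (nat_lit 0) (nat_lit 0) (nat_lit 0x7e00b1f6e0) (nat_lit 980373888),
  Rx.mk (nat_lit 346) (nat_lit 2) (nat_lit 3) (nat_lit 5) (nat_lit 7) (nat_lit 320) (nat_lit 280) r12_320 r10_280 (nat_lit 0) (nat_lit 0) (nat_lit 0) (nat_lit 0x7de5e7c39e) (nat_lit 1031740632),
  Rx.mk (nat_lit 450) (nat_lit 2) (nat_lit 0) (nat_lit 7) (nat_lit 5) (nat_lit 321) (nat_lit 275) r12_321 r10_275 (nat_lit 0) (nat_lit 0) (nat_lit 0) (nat_lit 0x7dd6261fc8) (nat_lit 1061951904),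
  Rx.mk (nat_lit 458) (nat_lit 2) (nat_lit 1) (nat_lit 7) (nat_lit 7) (nat_lit 322) (nat_lit 278) r12_322 r10_278 (nat_lit 0) (nat_lit 0) (nat_lit 0) (nat_lit 0x7ddda307f2) (nat_lit 1047594600)]
noncomputable def e53_28 : List Rx := [
  Rx.mk (nat_lit 6) (nat_lit 6) (nat_lit 0) (nat_lit 0) (nat_lit 1) (nat_lit 140) (nat_lit 9) r12_140 r10_9 (nat_lit 0) (nat_lit 0) (nat_lit 0) (nat_lit 0x73e77d9440) (nat_lit 5937235200),
  Rx.mk (nat_lit 22) (nat_lit 6) (nat_lit 2) (nat_lit 0) (nat_lit 3) (nat_lit 141) (nat_lit 10) r12_141 r10_10 (nat_lit 0) (nat_lit 0) (nat_lit 0) (nat_lit 0x7eaac05550) (nat_lit 654308928),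
  Rx.mk (nat_lit 148) (nat_lit 4) (nat_lit 2) (nat_lit 2) (nat_lit 6) (nat_lit 142) (nat_lit 16) r12_142 r10_16 (nat_lit 0) (nat_lit 0) (nat_lit 0) (nat_lit 0x7d98a2d83a) (nat_lit 1179896328),
  Rx.mk (nat_lit 150) (nat_lit 6) (nat_lit 2) (nat_lit 2) (nat_lit 7) (nat_lit 143) (nat_lit 18) r12_143 r10_18 (nat_lit 0) (nat_lit 0) (nat_lit 0) (nat_lit 0x7e4d46ad48) (nat_lit 833537952),
  Rx.mk (nat_lit 151) (nat_lit 7) (nat_lit 2) (nat_lit 2) (nat_lit 7) (nat_lit 144) (nat_lit 17) r12_144 r10_17 (nat_lit 0) (nat_lit 0) (nat_lit 0) (nat_lit 0x7e4ff8222e) (nat_lit 828374040),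
  Rx.mk (nat_lit 183) (nat_lit 7) (nat_lit 6) (nat_lit 2) (nat_lit 7) (nat_lit 145) (nat_lit 15) r12_145 r10_15 (nat_lit 0) (nat_lit 0) (nat_lit 0) (nat_lit 0x7eaff8e1c2) (nat_lit 644298408),
  Rx.mk (nat_lit 198) (nat_lit 6) (nat_lit 0) (nat_lit 3) (nat_lit 5) (nat_lit 146) (nat_lit 11) r12_146 r10_11 (nat_lit 0) (nat_lit 0) (nat_lit 0) (nat_lit 0x7e9f0970ca) (nat_lit 676770120),
  Rx.mk (nat_lit 214) (nat_lit 6) (nat_lit 2) (nat_lit 3) (nat_lit 7) (nat_lit 147) (nat_lit 14) r12_147 r10_14 (nat_lit 0) (nat_lit 0) (nat_lit 0) (nat_lit 0x7ec4817924) (nat_lit 604927440),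
  Rx.mk (nat_lit 218) (nat_lit 2) (nat_lit 3) (nat_lit 3) (nat_lit 7) (nat_lit 148) (nat_lit 13) r12_148 r10_13 (nat_lit 0) (nat_lit 0) (nat_lit 0) (nat_lit 0x7e96423d46) (nat_lit 693601272),
  Rx.mk (nat_lit 222) (nat_lit 6) (nat_lit 3) (nat_lit 3) (nat_lit 7) (nat_lit 149) (nat_lit 12) r12_149 r10_12 (nat_lit 0) (nat_lit 0) (nat_lit 0) (nat_lit 0x7e3496186a) (nat_lit 880878024)]
noncomputable def e53_29 : List Rx := [
  Rx.mk (nat_lit 282) (nat_lit 2) (nat_lit 3) (nat_lit 4) (nat_lit 3) (nat_lit 231) (nat_lit 366) r12_231 r5_366 (nat_lit 0) (nat_lit 0) (nat_lit 0) (nat_lit 0x7fe0d652ba) (nat_lit 59751432),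
  Rx.mk (nat_lit 312) (nat_lit 0) (nat_lit 7) (nat_lit 4) (nat_lit 2) (nat_lit 232) (nat_lit 363) r12_232 r5_363 (nat_lit 0) (nat_lit 0) (nat_lit 0) (nat_lit 0x7b7d41d066) (nat_lit 2214099576),
  Rx.mk (nat_lit 314) (nat_lit 2) (nat_lit 7) (nat_lit 4) (nat_lit 3) (nat_lit 233) (nat_lit 365) r12_233 r5_365 (nat_lit 0) (nat_lit 0) (nat_lit 0) (nat_lit 0x7f189437a4) (nat_lit 443725776),
  Rx.mk (nat_lit 440) (nat_lit 0) (nat_lit 7) (nat_lit 6) (nat_lit 6) (nat_lit 234) (nat_lit 364) r12_234 r5_364 (nat_lit 0) (nat_lit 0) (nat_lit 0) (nat_lit 0x7dd76d0b58) (nat_lit 1059503328)]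
noncomputable def e53_30 : List Rx := [
  Rx.mk (nat_lit 346) (nat_lit 2) (nat_lit 3) (nat_lit 5) (nat_lit 7) (nat_lit 309) (nat_lit 356) r12_309 r10_356 (nat_lit 0) (nat_lit 0) (nat_lit 0) (nat_lit 0x7f0597e77c) (nat_lit 480128688)]
noncomputable def e53_31 : List Rx := [
  Rx.mk (nat_lit 312) (nat_lit 0) (nat_lit 7) (nat_lit 4) (nat_lit 2) (nat_lit 70) (nat_lit 90) r12_70 r5_90 (nat_lit 0) (nat_lit 0) (nat_lit 0) (nat_lit 0x7e042adf4e) (nat_lit 973716120),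
  Rx.mk (nat_lit 314) (nat_lit 2) (nat_lit 7) (nat_lit 4) (nat_lit 3) (nat_lit 71) (nat_lit 92) r12_71 r5_92 (nat_lit 0) (nat_lit 0) (nat_lit 0) (nat_lit 0x7f16d5b38e) (nat_lit 447070104),
  Rx.mk (nat_lit 315) (nat_lit 3) (nat_lit 7) (nat_lit 4) (nat_lit 3) (nat_lit 72) (nat_lit 91) r12_72 r5_91 (nat_lit 0) (nat_lit 0) (nat_lit 0) (nat_lit 0x7c7bbb67ce) (nat_lit 1726170264),
  Rx.mk (nat_lit 419) (nat_lit 3) (nat_lit 4) (nat_lit 6) (nat_lit 5) (nat_lit 73) (nat_lit 89) r12_73 r5_89 (nat_lit 0) (nat_lit 0) (nat_lit 0) (nat_lit 0x7e46331e88) (nat_lit 847106208),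
  Rx.mk (nat_lit 435) (nat_lit 3) (nat_lit 6) (nat_lit 6) (nat_lit 7) (nat_lit 74) (nat_lit 97) r12_74 r5_97 (nat_lit 0) (nat_lit 0) (nat_lit 0) (nat_lit 0x7e5cc7752c) (nat_lit 803812464),
  Rx.mk (nat_lit 440) (nat_lit 0) (nat_lit 7) (nat_lit 6) (nat_lit 6) (nat_lit 75) (nat_lit 95) r12_75 r5_95 (nat_lit 0) (nat_lit 0) (nat_lit 0) (nat_lit 0x7dee681b90) (nat_lit 1015440192),
  Rx.mk (nat_lit 443) (nat_lit 3) (nat_lit 7) (nat_lit 6) (nat_lit 7) (nat_lit 76) (nat_lit 96) r12_76 r5_96 (nat_lit 0) (nat_lit 0) (nat_lit 0) (nat_lit 0x7f0fa006f0) (nat_lit 460893888),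
  Rx.mk (nat_lit 474) (nat_lit 2) (nat_lit 3) (nat_lit 7) (nat_lit 7) (nat_lit 77) (nat_lit 88) r12_77 r5_88 (nat_lit 0) (nat_lit 0) (nat_lit 0) (nat_lit 0x7e41ba8616) (nat_lit 855679032),
  Rx.mk (nat_lit 504) (nat_lit 0) (nat_lit 7) (nat_lit 7) (nat_lit 6) (nat_lit 78) (nat_lit 93) r12_78 r5_93 (nat_lit 0) (nat_lit 0) (nat_lit 0) (nat_lit 0x7a93662f0a) (nat_lit 2662497864),
  Rx.mk (nat_lit 506) (nat_lit 2) (nat_lit 7) (nat_lit 7) (nat_lit 7) (nat_lit 79) (nat_lit 94) r12_79 r5_94 (nat_lit 0) (nat_lit 0) (nat_lit 0) (nat_lit 0x7e52dd53d8) (nat_lit 822822624)]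
noncomputable def e53_32 : List Rx := [
  Rx.mk (nat_lit 282) (nat_lit 2) (nat_lit 3) (nat_lit 4) (nat_lit 3) (nat_lit 245) (nat_lit 244) r12_245 r11_244 (nat_lit 0) (nat_lit 0) (nat_lit 0) (nat_lit 0x7fd8517b10) (nat_lit 76085568),
  Rx.mk (nat_lit 312) (nat_lit 0) (nat_lit 7) (nat_lit 4) (nat_lit 2) (nat_lit 246) (nat_lit 240) r12_246 r11_240 (nat_lit 0) (nat_lit 0) (nat_lit 0) (nat_lit 0x78fb4dd228) (nat_lit 3444977952),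
  Rx.mk (nat_lit 314) (nat_lit 2) (nat_lit 7) (nat_lit 4) (nat_lit 3) (nat_lit 247) (nat_lit 246) r12_247 r11_246 (nat_lit 0) (nat_lit 0) (nat_lit 0) (nat_lit 0x7f3052fba0) (nat_lit 398196864),
  Rx.mk (nat_lit 315) (nat_lit 3) (nat_lit 7) (nat_lit 4) (nat_lit 3) (nat_lit 248) (nat_lit 242) r12_248 r11_242 (nat_lit 0) (nat_lit 0) (nat_lit 0) (nat_lit 0x79aa5aa0ac) (nat_lit 3109337712),
  Rx.mk (nat_lit 440) (nat_lit 0) (nat_lit 7) (nat_lit 6) (nat_lit 6) (nat_lit 249) (nat_lit 241) r12_249 r11_241 (nat_lit 0) (nat_lit 0) (nat_lit 0) (nat_lit 0x7d5ad6d538) (nat_lit 1298385504),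
  Rx.mk (nat_lit 443) (nat_lit 3) (nat_lit 7) (nat_lit 6) (nat_lit 7) (nat_lit 250) (nat_lit 243) r12_250 r11_243 (nat_lit 0) (nat_lit 0) (nat_lit 0) (nat_lit 0x7f04293e68) (nat_lit 482874912),
  Rx.mk (nat_lit 474) (nat_lit 2) (nat_lit 3) (nat_lit 7) (nat_lit 7) (nat_lit 251) (nat_lit 245) r12_251 r11_245 (nat_lit 0) (nat_lit 0) (nat_lit 0) (nat_lit 0x7e9f9a27be) (nat_lit 675686232)]
noncomputable def e53_33 : List Rx := [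
  Rx.mk (nat_lit 288) (nat_lit 0) (nat_lit 4) (nat_lit 4) (nat_lit 0) (nat_lit 152) (nat_lit 329) r12_152 r0_329 (nat_lit 0) (nat_lit 0) (nat_lit 0) (nat_lit 0x8000000000) (nat_lit 0),
  Rx.mk (nat_lit 289) (nat_lit 1) (nat_lit 4) (nat_lit 4) (nat_lit 1) (nat_lit 153) (nat_lit 334) r12_153 r0_334 (nat_lit 0) (nat_lit 0) (nat_lit 0) (nat_lit 0x7328f59d7e) (nat_lit 6302558808),
  Rx.mk (nat_lit 290) (nat_lit 2) (nat_lit 4) (nat_lit 4) (nat_lit 1) (nat_lit 154) (nat_lit 339) r12_154 r0_339 (nat_lit 0) (nat_lit 0) (nat_lit 0) (nat_lit 0x8000000000) (nat_lit 0),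
  Rx.mk (nat_lit 296) (nat_lit 0) (nat_lit 5) (nat_lit 4) (nat_lit 2) (nat_lit 155) (nat_lit 330) r12_155 r0_330 (nat_lit 0) (nat_lit 0) (nat_lit 0) (nat_lit 0x7542556568) (nat_lit 5272199712),
  Rx.mk (nat_lit 297) (nat_lit 1) (nat_lit 5) (nat_lit 4) (nat_lit 3) (nat_lit 156) (nat_lit 335) r12_156 r0_335 (nat_lit 0) (nat_lit 0) (nat_lit 0) (nat_lit 0x7e0833bebc) (nat_lit 965980080),
  Rx.mk (nat_lit 298) (nat_lit 2) (nat_lit 5) (nat_lit 4) (nat_lit 3) (nat_lit 157) (nat_lit 340) r12_157 r0_340 (nat_lit 0) (nat_lit 0) (nat_lit 0) (nat_lit 0x7b4610a3b0) (nat_lit 2319924672),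
  Rx.mk (nat_lit 416) (nat_lit 0) (nat_lit 4) (nat_lit 6) (nat_lit 4) (nat_lit 158) (nat_lit 331) r12_158 r0_331 (nat_lit 0) (nat_lit 0) (nat_lit 0) (nat_lit 0x6fbb66b9da) (nat_lit 7985185416),
  Rx.mk (nat_lit 417) (nat_lit 1) (nat_lit 4) (nat_lit 6) (nat_lit 5) (nat_lit 159) (nat_lit 336) r12_159 r0_336 (nat_lit 0) (nat_lit 0) (nat_lit 0) (nat_lit 0x7a9bd7e7e6) (nat_lit 2646306936),
  Rx.mk (nat_lit 424) (nat_lit 0) (nat_lit 5) (nat_lit 6) (nat_lit 6) (nat_lit 160) (nat_lit 332) r12_160 r0_332 (nat_lit 0) (nat_lit 0) (nat_lit 0) (nat_lit 0x7dd134cee2) (nat_lit 1071428904),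
  Rx.mk (nat_lit 425) (nat_lit 1) (nat_lit 5) (nat_lit 6) (nat_lit 7) (nat_lit 161) (nat_lit 337) r12_161 r0_337 (nat_lit 0) (nat_lit 0) (nat_lit 0) (nat_lit 0x7e78339e4e) (nat_lit 751232664),
  Rx.mk (nat_lit 432) (nat_lit 0) (nat_lit 6) (nat_lit 6) (nat_lit 6) (nat_lit 162) (nat_lit 333) r12_162 r0_333 (nat_lit 0) (nat_lit 0) (nat_lit 0) (nat_lit 0x7ac0cd7868) (nat_lit 2575441440),
  Rx.mk (nat_lit 433) (nat_lit 1) (nat_lit 6) (nat_lit 6) (nat_lit 7) (nat_lit 163) (nat_lit 338) r12_163 r0_338 (nat_lit 0) (nat_lit 0) (nat_lit 0) (nat_lit 0x7e24231faa) (nat_lit 912417480)]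
noncomputable def e53_34 : List Rx := [
  Rx.mk (nat_lit 417) (nat_lit 1) (nat_lit 4) (nat_lit 6) (nat_lit 5) (nat_lit 61) (nat_lit 89) r12_61 r0_89 (nat_lit 0) (nat_lit 0) (nat_lit 0) (nat_lit 0x75d5ae0f4a) (nat_lit 4989678408),
  Rx.mk (nat_lit 433) (nat_lit 1) (nat_lit 6) (nat_lit 6) (nat_lit 7) (nat_lit 62) (nat_lit 90) r12_62 r0_90 (nat_lit 0) (nat_lit 0) (nat_lit 0) (nat_lit 0x7ec6f5d1dc) (nat_lit 600221232)]
noncomputable def e53_35 : List Rx := [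
  Rx.mk (nat_lit 289) (nat_lit 1) (nat_lit 4) (nat_lit 4) (nat_lit 1) (nat_lit 184) (nat_lit 444) r12_184 r6_444 (nat_lit 0) (nat_lit 0) (nat_lit 0) (nat_lit 0x6f2aece208) (nat_lit 8262203040),
  Rx.mk (nat_lit 297) (nat_lit 1) (nat_lit 5) (nat_lit 4) (nat_lit 3) (nat_lit 185) (nat_lit 445) r12_185 r6_445 (nat_lit 0) (nat_lit 0) (nat_lit 0) (nat_lit 0x7dece293ea) (nat_lit 1018357704),
  Rx.mk (nat_lit 417) (nat_lit 1) (nat_lit 4) (nat_lit 6) (nat_lit 5) (nat_lit 186) (nat_lit 446) r12_186 r6_446 (nat_lit 0) (nat_lit 0) (nat_lit 0) (nat_lit 0x7e3ff4227e) (nat_lit 859082328),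
  Rx.mk (nat_lit 425) (nat_lit 1) (nat_lit 5) (nat_lit 6) (nat_lit 7) (nat_lit 187) (nat_lit 447) r12_187 r6_447 (nat_lit 0) (nat_lit 0) (nat_lit 0) (nat_lit 0x7e49bf85be) (nat_lit 840302424),
  Rx.mk (nat_lit 433) (nat_lit 1) (nat_lit 6) (nat_lit 6) (nat_lit 7) (nat_lit 188) (nat_lit 448) r12_188 r6_448 (nat_lit 0) (nat_lit 0) (nat_lit 0) (nat_lit 0x7dfaf092fc) (nat_lit 991409328)]
noncomputable def e53_36 : List Rx := [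
  Rx.mk (nat_lit 181) (nat_lit 5) (nat_lit 6) (nat_lit 2) (nat_lit 7) (nat_lit 14) (nat_lit 96) r12_14 r2_96 (nat_lit 0) (nat_lit 0) (nat_lit 0) (nat_lit 0x7df79428c6) (nat_lit 997853688),
  Rx.mk (nat_lit 437) (nat_lit 5) (nat_lit 6) (nat_lit 6) (nat_lit 7) (nat_lit 15) (nat_lit 97) r12_15 r2_97 (nat_lit 0) (nat_lit 0) (nat_lit 0) (nat_lit 0x7e3bb246a0) (nat_lit 867245184)]
noncomputable def e53_37 : List Rx := [
  Rx.mk (nat_lit 181) (nat_lit 5) (nat_lit 6) (nat_lit 2) (nat_lit 7) (nat_lit 150) (nat_lit 63) r12_150 r8_63 (nat_lit 0) (nat_lit 0) (nat_lit 0) (nat_lit 0x7df198a884) (nat_lit 1009324368),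
  Rx.mk (nat_lit 437) (nat_lit 5) (nat_lit 6) (nat_lit 6) (nat_lit 7) (nat_lit 151) (nat_lit 64) r12_151 r8_64 (nat_lit 0) (nat_lit 0) (nat_lit 0) (nat_lit 0x7deb738adc) (nat_lit 1021106736)]
noncomputable def e53_38 : List Rx := [
  Rx.mk (nat_lit 181) (nat_lit 5) (nat_lit 6) (nat_lit 2) (nat_lit 7) (nat_lit 123) (nat_lit 18) r12_123 r8_18 (nat_lit 0) (nat_lit 0) (nat_lit 0) (nat_lit 0x7ded19507e) (nat_lit 1017947736)]
noncomputable def e53_39 : List Rx := [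
  Rx.mk (nat_lit 417) (nat_lit 1) (nat_lit 4) (nat_lit 6) (nat_lit 5) (nat_lit 63) (nat_lit 91) r12_63 r1_91 (nat_lit 0) (nat_lit 0) (nat_lit 0) (nat_lit 0x7a1ced3710) (nat_lit 2889656640),
  Rx.mk (nat_lit 433) (nat_lit 1) (nat_lit 6) (nat_lit 6) (nat_lit 7) (nat_lit 64) (nat_lit 92) r12_64 r1_92 (nat_lit 0) (nat_lit 0) (nat_lit 0) (nat_lit 0x7adb1c5360) (nat_lit 2524998528),
  Rx.mk (nat_lit 437) (nat_lit 5) (nat_lit 6) (nat_lit 6) (nat_lit 7) (nat_lit 65) (nat_lit 93) r12_65 r1_93 (nat_lit 0) (nat_lit 0) (nat_lit 0) (nat_lit 0x7e7f436d4a) (nat_lit 737692488)]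
noncomputable def e53_40 : List Rx := [
  Rx.mk (nat_lit 289) (nat_lit 1) (nat_lit 4) (nat_lit 4) (nat_lit 1) (nat_lit 191) (nat_lit 362) r12_191 r7_362 (nat_lit 0) (nat_lit 0) (nat_lit 0) (nat_lit 0x6335d77f54) (nat_lit 14131512720),
  Rx.mk (nat_lit 297) (nat_lit 1) (nat_lit 5) (nat_lit 4) (nat_lit 3) (nat_lit 192) (nat_lit 363) r12_192 r7_363 (nat_lit 0) (nat_lit 0) (nat_lit 0) (nat_lit 0x7da6297fc2) (nat_lit 1153961640),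
  Rx.mk (nat_lit 417) (nat_lit 1) (nat_lit 4) (nat_lit 6) (nat_lit 5) (nat_lit 193) (nat_lit 364) r12_193 r7_364 (nat_lit 0) (nat_lit 0) (nat_lit 0) (nat_lit 0x7c2c753c80) (nat_lit 1878170112),
  Rx.mk (nat_lit 425) (nat_lit 1) (nat_lit 5) (nat_lit 6) (nat_lit 7) (nat_lit 194) (nat_lit 365) r12_194 r7_365 (nat_lit 0) (nat_lit 0) (nat_lit 0) (nat_lit 0x7ddfee8338) (nat_lit 1043194464),
  Rx.mk (nat_lit 433) (nat_lit 1) (nat_lit 6) (nat_lit 6) (nat_lit 7) (nat_lit 195) (nat_lit 366) r12_195 r7_366 (nat_lit 0) (nat_lit 0) (nat_lit 0) (nat_lit 0x7dad63ac18) (nat_lit 1140104160),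
  Rx.mk (nat_lit 437) (nat_lit 5) (nat_lit 6) (nat_lit 6) (nat_lit 7) (nat_lit 196) (nat_lit 361) r12_196 r7_361 (nat_lit 0) (nat_lit 0) (nat_lit 0) (nat_lit 0x7dd7808a20) (nat_lit 1059357312)]
noncomputable def e53_41 : List Rx := [
  Rx.mk (nat_lit 296) (nat_lit 0) (nat_lit 5) (nat_lit 4) (nat_lit 2) (nat_lit 164) (nat_lit 310) r12_164 r1_310 (nat_lit 0) (nat_lit 0) (nat_lit 0) (nat_lit 0x776b6e91ac) (nat_lit 4211691120),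
  Rx.mk (nat_lit 297) (nat_lit 1) (nat_lit 5) (nat_lit 4) (nat_lit 3) (nat_lit 165) (nat_lit 312) r12_165 r1_312 (nat_lit 0) (nat_lit 0) (nat_lit 0) (nat_lit 0x7da1e863d8) (nat_lit 1162118880),
  Rx.mk (nat_lit 298) (nat_lit 2) (nat_lit 5) (nat_lit 4) (nat_lit 3) (nat_lit 166) (nat_lit 314) r12_166 r1_314 (nat_lit 0) (nat_lit 0) (nat_lit 0) (nat_lit 0x7decb6b6a8) (nat_lit 1018686240),
  Rx.mk (nat_lit 424) (nat_lit 0) (nat_lit 5) (nat_lit 6) (nat_lit 6) (nat_lit 167) (nat_lit 311) r12_167 r1_311 (nat_lit 0) (nat_lit 0) (nat_lit 0) (nat_lit 0x7e69f1827e) (nat_lit 778571352),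
  Rx.mk (nat_lit 425) (nat_lit 1) (nat_lit 5) (nat_lit 6) (nat_lit 7) (nat_lit 168) (nat_lit 313) r12_168 r1_313 (nat_lit 0) (nat_lit 0) (nat_lit 0) (nat_lit 0x7db533cf0e) (nat_lit 1125123480)]
noncomputable def e53_42 : List Rx := [
  Rx.mk (nat_lit 266) (nat_lit 2) (nat_lit 1) (nat_lit 4) (nat_lit 3) (nat_lit 275) (nat_lit 367) r12_275 r2_367 (nat_lit 0) (nat_lit 0) (nat_lit 0) (nat_lit 0x7ddc2f1f32) (nat_lit 1050380136),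
  Rx.mk (nat_lit 296) (nat_lit 0) (nat_lit 5) (nat_lit 4) (nat_lit 2) (nat_lit 276) (nat_lit 360) r12_276 r2_360 (nat_lit 0) (nat_lit 0) (nat_lit 0) (nat_lit 0x666f99dff4) (nat_lit 12548205072),
  Rx.mk (nat_lit 297) (nat_lit 1) (nat_lit 5) (nat_lit 4) (nat_lit 3) (nat_lit 277) (nat_lit 363) r12_277 r2_363 (nat_lit 0) (nat_lit 0) (nat_lit 0) (nat_lit 0x7d42e99424) (nat_lit 1344262608),
  Rx.mk (nat_lit 298) (nat_lit 2) (nat_lit 5) (nat_lit 4) (nat_lit 3) (nat_lit 278) (nat_lit 366) r12_278 r2_366 (nat_lit 0) (nat_lit 0) (nat_lit 0) (nat_lit 0x7cf9c166f0) (nat_lit 1484533440),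
  Rx.mk (nat_lit 330) (nat_lit 2) (nat_lit 1) (nat_lit 5) (nat_lit 7) (nat_lit 279) (nat_lit 369) r12_279 r2_369 (nat_lit 0) (nat_lit 0) (nat_lit 0) (nat_lit 0x7de974eac8) (nat_lit 1024931232),
  Rx.mk (nat_lit 360) (nat_lit 0) (nat_lit 5) (nat_lit 5) (nat_lit 6) (nat_lit 280) (nat_lit 361) r12_280 r2_361 (nat_lit 0) (nat_lit 0) (nat_lit 0) (nat_lit 0x749ef5bc06) (nat_lit 5585451768),
  Rx.mk (nat_lit 361) (nat_lit 1) (nat_lit 5) (nat_lit 5) (nat_lit 7) (nat_lit 281) (nat_lit 364) r12_281 r2_364 (nat_lit 0) (nat_lit 0) (nat_lit 0) (nat_lit 0x7ddceeb338) (nat_lit 1048945248),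
  Rx.mk (nat_lit 362) (nat_lit 2) (nat_lit 5) (nat_lit 5) (nat_lit 7) (nat_lit 282) (nat_lit 368) r12_282 r2_368 (nat_lit 0) (nat_lit 0) (nat_lit 0) (nat_lit 0x7df79428c6) (nat_lit 997853688),
  Rx.mk (nat_lit 424) (nat_lit 0) (nat_lit 5) (nat_lit 6) (nat_lit 6) (nat_lit 283) (nat_lit 362) r12_283 r2_362 (nat_lit 0) (nat_lit 0) (nat_lit 0) (nat_lit 0x7dc98549e2) (nat_lit 1086165288),
  Rx.mk (nat_lit 425) (nat_lit 1) (nat_lit 5) (nat_lit 6) (nat_lit 7) (nat_lit 284) (nat_lit 365) r12_284 r2_365 (nat_lit 0) (nat_lit 0) (nat_lit 0) (nat_lit 0x7deb366eae) (nat_lit 1021564440)]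
noncomputable def e53_43 : List Rx := [
  Rx.mk (nat_lit 297) (nat_lit 1) (nat_lit 5) (nat_lit 4) (nat_lit 3) (nat_lit 189) (nat_lit 74) r12_189 r7_74 (nat_lit 0) (nat_lit 0) (nat_lit 0) (nat_lit 0x7dea1aa06c) (nat_lit 1023690096),
  Rx.mk (nat_lit 425) (nat_lit 1) (nat_lit 5) (nat_lit 6) (nat_lit 7) (nat_lit 190) (nat_lit 75) r12_190 r7_75 (nat_lit 0) (nat_lit 0) (nat_lit 0) (nat_lit 0x7e3b884940) (nat_lit 867559680)]
noncomputable def e53_44 : List Rx := [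
  Rx.mk (nat_lit 297) (nat_lit 1) (nat_lit 5) (nat_lit 4) (nat_lit 3) (nat_lit 290) (nat_lit 324) r12_290 r8_324 (nat_lit 0) (nat_lit 0) (nat_lit 0) (nat_lit 0x7cb8761be6) (nat_lit 1609728120),
  Rx.mk (nat_lit 361) (nat_lit 1) (nat_lit 5) (nat_lit 5) (nat_lit 7) (nat_lit 291) (nat_lit 325) r12_291 r8_325 (nat_lit 0) (nat_lit 0) (nat_lit 0) (nat_lit 0x7de9664bb2) (nat_lit 1025040744),
  Rx.mk (nat_lit 425) (nat_lit 1) (nat_lit 5) (nat_lit 6) (nat_lit 7) (nat_lit 292) (nat_lit 326) r12_292 r8_326 (nat_lit 0) (nat_lit 0) (nat_lit 0) (nat_lit 0x7dda2b3f72) (nat_lit 1054243944)]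
noncomputable def e53_45 : List Rx := [
  Rx.mk (nat_lit 330) (nat_lit 2) (nat_lit 1) (nat_lit 5) (nat_lit 7) (nat_lit 286) (nat_lit 309) r12_286 r8_309 (nat_lit 0) (nat_lit 0) (nat_lit 0) (nat_lit 0x7ddc31bf08) (nat_lit 1050360480),
  Rx.mk (nat_lit 360) (nat_lit 0) (nat_lit 5) (nat_lit 5) (nat_lit 6) (nat_lit 287) (nat_lit 307) r12_287 r8_307 (nat_lit 0) (nat_lit 0) (nat_lit 0) (nat_lit 0x6ec70e6054) (nat_lit 8453691792),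
  Rx.mk (nat_lit 361) (nat_lit 1) (nat_lit 5) (nat_lit 5) (nat_lit 7) (nat_lit 288) (nat_lit 308) r12_288 r8_308 (nat_lit 0) (nat_lit 0) (nat_lit 0) (nat_lit 0x7dd07e9a46) (nat_lit 1072793592),
  Rx.mk (nat_lit 362) (nat_lit 2) (nat_lit 5) (nat_lit 5) (nat_lit 7) (nat_lit 289) (nat_lit 310) r12_289 r8_310 (nat_lit 0) (nat_lit 0) (nat_lit 0) (nat_lit 0x7dbce773cc) (nat_lit 1110356208)]
noncomputable def e53_46 : List Rx := [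
  Rx.mk (nat_lit 288) (nat_lit 0) (nat_lit 4) (nat_lit 4) (nat_lit 0) (nat_lit 169) (nat_lit 366) r12_169 r4_366 (nat_lit 0) (nat_lit 0) (nat_lit 0) (nat_lit 0x656168c414) (nat_lit 13066269840),
  Rx.mk (nat_lit 289) (nat_lit 1) (nat_lit 4) (nat_lit 4) (nat_lit 1) (nat_lit 170) (nat_lit 373) r12_170 r4_373 (nat_lit 0) (nat_lit 0) (nat_lit 0) (nat_lit 0x7171c2f260) (nat_lit 7144675200),
  Rx.mk (nat_lit 290) (nat_lit 2) (nat_lit 4) (nat_lit 4) (nat_lit 1) (nat_lit 171) (nat_lit 378) r12_171 r4_378 (nat_lit 0) (nat_lit 0) (nat_lit 0) (nat_lit 0x6e2f0d2100) (nat_lit 8745145344),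
  Rx.mk (nat_lit 296) (nat_lit 0) (nat_lit 5) (nat_lit 4) (nat_lit 2) (nat_lit 172) (nat_lit 367) r12_172 r4_367 (nat_lit 0) (nat_lit 0) (nat_lit 0) (nat_lit 0x70f7fe6f22) (nat_lit 7378151976),
  Rx.mk (nat_lit 298) (nat_lit 2) (nat_lit 5) (nat_lit 4) (nat_lit 3) (nat_lit 173) (nat_lit 379) r12_173 r4_379 (nat_lit 0) (nat_lit 0) (nat_lit 0) (nat_lit 0x7dad2f8f5a) (nat_lit 1140494472),
  Rx.mk (nat_lit 312) (nat_lit 0) (nat_lit 7) (nat_lit 4) (nat_lit 2) (nat_lit 174) (nat_lit 368) r12_174 r4_368 (nat_lit 0) (nat_lit 0) (nat_lit 0) (nat_lit 0x754ac05eb0) (nat_lit 5256059328),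
  Rx.mk (nat_lit 313) (nat_lit 1) (nat_lit 7) (nat_lit 4) (nat_lit 3) (nat_lit 175) (nat_lit 374) r12_175 r4_374 (nat_lit 0) (nat_lit 0) (nat_lit 0) (nat_lit 0x7d15e364b4) (nat_lit 1430591760),
  Rx.mk (nat_lit 314) (nat_lit 2) (nat_lit 7) (nat_lit 4) (nat_lit 3) (nat_lit 176) (nat_lit 380) r12_176 r4_380 (nat_lit 0) (nat_lit 0) (nat_lit 0) (nat_lit 0x7e2ee053cc) (nat_lit 891826416),
  Rx.mk (nat_lit 416) (nat_lit 0) (nat_lit 4) (nat_lit 6) (nat_lit 4) (nat_lit 177) (nat_lit 369) r12_177 r4_369 (nat_lit 0) (nat_lit 0) (nat_lit 0) (nat_lit 0x6fa2424c3a) (nat_lit 8033393160),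
  Rx.mk (nat_lit 417) (nat_lit 1) (nat_lit 4) (nat_lit 6) (nat_lit 5) (nat_lit 178) (nat_lit 375) r12_178 r4_375 (nat_lit 0) (nat_lit 0) (nat_lit 0) (nat_lit 0x7dd9dfe428) (nat_lit 1054808352),
  Rx.mk (nat_lit 424) (nat_lit 0) (nat_lit 5) (nat_lit 6) (nat_lit 6) (nat_lit 179) (nat_lit 370) r12_179 r4_370 (nat_lit 0) (nat_lit 0) (nat_lit 0) (nat_lit 0x7e34af96d2) (nat_lit 880687080),
  Rx.mk (nat_lit 432) (nat_lit 0) (nat_lit 6) (nat_lit 6) (nat_lit 6) (nat_lit 180) (nat_lit 372) r12_180 r4_372 (nat_lit 0) (nat_lit 0) (nat_lit 0) (nat_lit 0x7d88ecd3aa) (nat_lit 1210020552),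
  Rx.mk (nat_lit 433) (nat_lit 1) (nat_lit 6) (nat_lit 6) (nat_lit 7) (nat_lit 181) (nat_lit 377) r12_181 r4_377 (nat_lit 0) (nat_lit 0) (nat_lit 0) (nat_lit 0x7e0fdfe3f2) (nat_lit 951268968),
  Rx.mk (nat_lit 440) (nat_lit 0) (nat_lit 7) (nat_lit 6) (nat_lit 6) (nat_lit 182) (nat_lit 371) r12_182 r4_371 (nat_lit 0) (nat_lit 0) (nat_lit 0) (nat_lit 0x7e20a9174e) (nat_lit 919083672),
  Rx.mk (nat_lit 441) (nat_lit 1) (nat_lit 7) (nat_lit 6) (nat_lit 7) (nat_lit 183) (nat_lit 376) r12_183 r4_376 (nat_lit 0) (nat_lit 0) (nat_lit 0) (nat_lit 0x7e4606e14c) (nat_lit 847437552)]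
noncomputable def e53_47 : List Rx := [
  Rx.mk (nat_lit 313) (nat_lit 1) (nat_lit 7) (nat_lit 4) (nat_lit 3) (nat_lit 66) (nat_lit 90) r12_66 r4_90 (nat_lit 0) (nat_lit 0) (nat_lit 0) (nat_lit 0x7f16fd1118) (nat_lit 446775264),
  Rx.mk (nat_lit 417) (nat_lit 1) (nat_lit 4) (nat_lit 6) (nat_lit 5) (nat_lit 67) (nat_lit 89) r12_67 r4_89 (nat_lit 0) (nat_lit 0) (nat_lit 0) (nat_lit 0x7e028ed910) (nat_lit 976802112),
  Rx.mk (nat_lit 433) (nat_lit 1) (nat_lit 6) (nat_lit 6) (nat_lit 7) (nat_lit 68) (nat_lit 92) r12_68 r4_92 (nat_lit 0) (nat_lit 0) (nat_lit 0) (nat_lit 0x7e502f9eb6) (nat_lit 827958456),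
  Rx.mk (nat_lit 441) (nat_lit 1) (nat_lit 7) (nat_lit 6) (nat_lit 7) (nat_lit 69) (nat_lit 91) r12_69 r4_91 (nat_lit 0) (nat_lit 0) (nat_lit 0) (nat_lit 0x7eff7569aa) (nat_lit 491891400)]
noncomputable def e53_48 : List Rx := [
  Rx.mk (nat_lit 289) (nat_lit 1) (nat_lit 4) (nat_lit 4) (nat_lit 1) (nat_lit 197) (nat_lit 369) r12_197 r9_369 (nat_lit 0) (nat_lit 0) (nat_lit 0) (nat_lit 0x6f5f417c8a) (nat_lit 8161864776),
  Rx.mk (nat_lit 313) (nat_lit 1) (nat_lit 7) (nat_lit 4) (nat_lit 3) (nat_lit 198) (nat_lit 370) r12_198 r9_370 (nat_lit 0) (nat_lit 0) (nat_lit 0) (nat_lit 0x7d55b82728) (nat_lit 1308202272),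
  Rx.mk (nat_lit 417) (nat_lit 1) (nat_lit 4) (nat_lit 6) (nat_lit 5) (nat_lit 199) (nat_lit 371) r12_199 r9_371 (nat_lit 0) (nat_lit 0) (nat_lit 0) (nat_lit 0x7e5a08811e) (nat_lit 809077464),
  Rx.mk (nat_lit 433) (nat_lit 1) (nat_lit 6) (nat_lit 6) (nat_lit 7) (nat_lit 200) (nat_lit 373) r12_200 r9_373 (nat_lit 0) (nat_lit 0) (nat_lit 0) (nat_lit 0x7dd2da9484) (nat_lit 1068269904),
  Rx.mk (nat_lit 441) (nat_lit 1) (nat_lit 7) (nat_lit 6) (nat_lit 7) (nat_lit 201) (nat_lit 372) r12_201 r9_372 (nat_lit 0) (nat_lit 0) (nat_lit 0) (nat_lit 0x7e4050bcb4) (nat_lit 858388752)]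
noncomputable def e53_49 : List Rx := [
  Rx.mk (nat_lit 313) (nat_lit 1) (nat_lit 7) (nat_lit 4) (nat_lit 3) (nat_lit 240) (nat_lit 366) r12_240 r10_366 (nat_lit 0) (nat_lit 0) (nat_lit 0) (nat_lit 0x7e373cadfe) (nat_lit 875795544),
  Rx.mk (nat_lit 441) (nat_lit 1) (nat_lit 7) (nat_lit 6) (nat_lit 7) (nat_lit 241) (nat_lit 367) r12_241 r10_367 (nat_lit 0) (nat_lit 0) (nat_lit 0) (nat_lit 0x7ee6adf63a) (nat_lit 539402760)]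
noncomputable def e53_50 : List Rx := [
  Rx.mk (nat_lit 288) (nat_lit 0) (nat_lit 4) (nat_lit 4) (nat_lit 0) (nat_lit 202) (nat_lit 68) r12_202 r10_68 (nat_lit 0) (nat_lit 0) (nat_lit 0) (nat_lit 0x4f8256cb14) (nat_lit 23801905296),
  Rx.mk (nat_lit 289) (nat_lit 1) (nat_lit 4) (nat_lit 4) (nat_lit 1) (nat_lit 203) (nat_lit 69) r12_203 r10_69 (nat_lit 0) (nat_lit 0) (nat_lit 0) (nat_lit 0x77191ff6e8) (nat_lit 4369506336),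
  Rx.mk (nat_lit 290) (nat_lit 2) (nat_lit 4) (nat_lit 4) (nat_lit 1) (nat_lit 204) (nat_lit 71) r12_204 r10_71 (nat_lit 0) (nat_lit 0) (nat_lit 0) (nat_lit 0x71d4c381f4) (nat_lit 6954848784),
  Rx.mk (nat_lit 291) (nat_lit 3) (nat_lit 4) (nat_lit 4) (nat_lit 1) (nat_lit 205) (nat_lit 70) r12_205 r10_70 (nat_lit 0) (nat_lit 0) (nat_lit 0) (nat_lit 0x749a460706) (nat_lit 5594437368),
  Rx.mk (nat_lit 296) (nat_lit 0) (nat_lit 5) (nat_lit 4) (nat_lit 2) (nat_lit 206) (nat_lit 75) r12_206 r10_75 (nat_lit 0) (nat_lit 0) (nat_lit 0) (nat_lit 0x762668e34c) (nat_lit 4834887408),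
  Rx.mk (nat_lit 298) (nat_lit 2) (nat_lit 5) (nat_lit 4) (nat_lit 3) (nat_lit 207) (nat_lit 77) r12_207 r10_77 (nat_lit 0) (nat_lit 0) (nat_lit 0) (nat_lit 0x7de5630bea) (nat_lit 1032734664),
  Rx.mk (nat_lit 299) (nat_lit 3) (nat_lit 5) (nat_lit 4) (nat_lit 3) (nat_lit 208) (nat_lit 76) r12_208 r10_76 (nat_lit 0) (nat_lit 0) (nat_lit 0) (nat_lit 0x7df4fc9242) (nat_lit 1002823848),
  Rx.mk (nat_lit 312) (nat_lit 0) (nat_lit 7) (nat_lit 4) (nat_lit 2) (nat_lit 209) (nat_lit 80) r12_209 r10_80 (nat_lit 0) (nat_lit 0) (nat_lit 0) (nat_lit 0x76d6a79eb0) (nat_lit 4496955840),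
  Rx.mk (nat_lit 313) (nat_lit 1) (nat_lit 7) (nat_lit 4) (nat_lit 3) (nat_lit 210) (nat_lit 81) r12_210 r10_81 (nat_lit 0) (nat_lit 0) (nat_lit 0) (nat_lit 0x7dd00b217e) (nat_lit 1073658456),
  Rx.mk (nat_lit 314) (nat_lit 2) (nat_lit 7) (nat_lit 4) (nat_lit 3) (nat_lit 211) (nat_lit 82) r12_211 r10_82 (nat_lit 0) (nat_lit 0) (nat_lit 0) (nat_lit 0x7dc3830a0c) (nat_lit 1097686512),
  Rx.mk (nat_lit 416) (nat_lit 0) (nat_lit 4) (nat_lit 6) (nat_lit 4) (nat_lit 212) (nat_lit 72) r12_212 r10_72 (nat_lit 0) (nat_lit 0) (nat_lit 0) (nat_lit 0x6f899876f0) (nat_lit 8080682688),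
  Rx.mk (nat_lit 417) (nat_lit 1) (nat_lit 4) (nat_lit 6) (nat_lit 5) (nat_lit 213) (nat_lit 73) r12_213 r10_73 (nat_lit 0) (nat_lit 0) (nat_lit 0) (nat_lit 0x7dc0395eaa) (nat_lit 1103990472),
  Rx.mk (nat_lit 419) (nat_lit 3) (nat_lit 4) (nat_lit 6) (nat_lit 5) (nat_lit 214) (nat_lit 74) r12_214 r10_74 (nat_lit 0) (nat_lit 0) (nat_lit 0) (nat_lit 0x7df140ee00) (nat_lit 1009981440),
  Rx.mk (nat_lit 424) (nat_lit 0) (nat_lit 5) (nat_lit 6) (nat_lit 6) (nat_lit 215) (nat_lit 78) r12_215 r10_78 (nat_lit 0) (nat_lit 0) (nat_lit 0) (nat_lit 0x7e21a6277c) (nat_lit 917188272),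
  Rx.mk (nat_lit 427) (nat_lit 3) (nat_lit 5) (nat_lit 6) (nat_lit 7) (nat_lit 216) (nat_lit 79) r12_216 r10_79 (nat_lit 0) (nat_lit 0) (nat_lit 0) (nat_lit 0x7df9596c70) (nat_lit 994458816),
  Rx.mk (nat_lit 432) (nat_lit 0) (nat_lit 6) (nat_lit 6) (nat_lit 6) (nat_lit 217) (nat_lit 88) r12_217 r10_88 (nat_lit 0) (nat_lit 0) (nat_lit 0) (nat_lit 0x7d77f5e32a) (nat_lit 1242548424),
  Rx.mk (nat_lit 433) (nat_lit 1) (nat_lit 6) (nat_lit 6) (nat_lit 7) (nat_lit 218) (nat_lit 89) r12_218 r10_89 (nat_lit 0) (nat_lit 0) (nat_lit 0) (nat_lit 0x7df35c0c4c) (nat_lit 1005943536),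
  Rx.mk (nat_lit 435) (nat_lit 3) (nat_lit 6) (nat_lit 6) (nat_lit 7) (nat_lit 219) (nat_lit 90) r12_219 r10_90 (nat_lit 0) (nat_lit 0) (nat_lit 0) (nat_lit 0x7df79428c6) (nat_lit 997853688),
  Rx.mk (nat_lit 440) (nat_lit 0) (nat_lit 7) (nat_lit 6) (nat_lit 6) (nat_lit 220) (nat_lit 86) r12_220 r10_86 (nat_lit 0) (nat_lit 0) (nat_lit 0) (nat_lit 0x7e1455dc8e) (nat_lit 942715800),
  Rx.mk (nat_lit 441) (nat_lit 1) (nat_lit 7) (nat_lit 6) (nat_lit 7) (nat_lit 221) (nat_lit 87) r12_221 r10_87 (nat_lit 0) (nat_lit 0) (nat_lit 0) (nat_lit 0x7df712d0dc) (nat_lit 998822448),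
  Rx.mk (nat_lit 504) (nat_lit 0) (nat_lit 7) (nat_lit 7) (nat_lit 6) (nat_lit 222) (nat_lit 83) r12_222 r10_83 (nat_lit 0) (nat_lit 0) (nat_lit 0) (nat_lit 0x7d8a287fee) (nat_lit 1207656216),
  Rx.mk (nat_lit 505) (nat_lit 1) (nat_lit 7) (nat_lit 7) (nat_lit 7) (nat_lit 223) (nat_lit 84) r12_223 r10_84 (nat_lit 0) (nat_lit 0) (nat_lit 0) (nat_lit 0x7ddcad774c) (nat_lit 1049433840),
  Rx.mk (nat_lit 506) (nat_lit 2) (nat_lit 7) (nat_lit 7) (nat_lit 7) (nat_lit 224) (nat_lit 85) r12_224 r10_85 (nat_lit 0) (nat_lit 0) (nat_lit 0) (nat_lit 0x7ddf540ce0) (nat_lit 1044351360)]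
noncomputable def e53_51 : List Rx := [
  Rx.mk (nat_lit 194) (nat_lit 2) (nat_lit 0) (nat_lit 3) (nat_lit 5) (nat_lit 225) (nat_lit 225) r12_225 r12_225 (nat_lit 0) (nat_lit 0) (nat_lit 0) (nat_lit 0x8000000000) (nat_lit 0),
  Rx.mk (nat_lit 198) (nat_lit 6) (nat_lit 0) (nat_lit 3) (nat_lit 5) (nat_lit 226) (nat_lit 228) r12_226 r12_228 (nat_lit 0) (nat_lit 0) (nat_lit 0) (nat_lit 0x7ccfdde552) (nat_lit 1564850664),
  Rx.mk (nat_lit 214) (nat_lit 6) (nat_lit 2) (nat_lit 3) (nat_lit 7) (nat_lit 227) (nat_lit 229) r12_227 r12_229 (nat_lit 0) (nat_lit 0) (nat_lit 0) (nat_lit 0x7eb01cdf82) (nat_lit 644028840),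
  Rx.mk (nat_lit 450) (nat_lit 2) (nat_lit 0) (nat_lit 7) (nat_lit 5) (nat_lit 228) (nat_lit 226) r12_228 r12_226 (nat_lit 0) (nat_lit 0) (nat_lit 0) (nat_lit 0x7ccfdde552) (nat_lit 1564850664),
  Rx.mk (nat_lit 474) (nat_lit 2) (nat_lit 3) (nat_lit 7) (nat_lit 7) (nat_lit 229) (nat_lit 227) r12_229 r12_227 (nat_lit 0) (nat_lit 0) (nat_lit 0) (nat_lit 0x7eb01cdf82) (nat_lit 644028840)]
noncomputable def e53_52 : List Rx := [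
  Rx.mk (nat_lit 258) (nat_lit 2) (nat_lit 0) (nat_lit 4) (nat_lit 1) (nat_lit 310) (nat_lit 235) r12_310 r12_235 (nat_lit 0) (nat_lit 0) (nat_lit 0) (nat_lit 0x8000000000) (nat_lit 0),
  Rx.mk (nat_lit 282) (nat_lit 2) (nat_lit 3) (nat_lit 4) (nat_lit 3) (nat_lit 311) (nat_lit 238) r12_311 r12_238 (nat_lit 0) (nat_lit 0) (nat_lit 0) (nat_lit 0x7f220180c6) (nat_lit 425650680),
  Rx.mk (nat_lit 322) (nat_lit 2) (nat_lit 0) (nat_lit 5) (nat_lit 5) (nat_lit 312) (nat_lit 236) r12_312 r12_236 (nat_lit 0) (nat_lit 0) (nat_lit 0) (nat_lit 0x7d6cf2f364) (nat_lit 1263661776),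
  Rx.mk (nat_lit 346) (nat_lit 2) (nat_lit 3) (nat_lit 5) (nat_lit 7) (nat_lit 313) (nat_lit 239) r12_313 r12_239 (nat_lit 0) (nat_lit 0) (nat_lit 0) (nat_lit 0x7e9736adfe) (nat_lit 691770456),
  Rx.mk (nat_lit 450) (nat_lit 2) (nat_lit 0) (nat_lit 7) (nat_lit 5) (nat_lit 314) (nat_lit 237) r12_314 r12_237 (nat_lit 0) (nat_lit 0) (nat_lit 0) (nat_lit 0x7f2c8cd806) (nat_lit 405433080)]
noncomputable def e53_53 : List Rx := [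
  Rx.mk (nat_lit 22) (nat_lit 6) (nat_lit 2) (nat_lit 0) (nat_lit 3) (nat_lit 34) (nat_lit 43) r12_34 r12_43 (nat_lit 0) (nat_lit 0) (nat_lit 0) (nat_lit 0x8000000000) (nat_lit 0),
  Rx.mk (nat_lit 148) (nat_lit 4) (nat_lit 2) (nat_lit 2) (nat_lit 6) (nat_lit 35) (nat_lit 49) r12_35 r12_49 (nat_lit 0) (nat_lit 0) (nat_lit 0) (nat_lit 0x77d2f95898) (nat_lit 4013159904),
  Rx.mk (nat_lit 150) (nat_lit 6) (nat_lit 2) (nat_lit 2) (nat_lit 7) (nat_lit 36) (nat_lit 51) r12_36 r12_51 (nat_lit 0) (nat_lit 0) (nat_lit 0) (nat_lit 0x74dca9608e) (nat_lit 5467145112),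
  Rx.mk (nat_lit 151) (nat_lit 7) (nat_lit 2) (nat_lit 2) (nat_lit 7) (nat_lit 37) (nat_lit 50) r12_37 r12_50 (nat_lit 0) (nat_lit 0) (nat_lit 0) (nat_lit 0x7e72f2126c) (nat_lit 761310576),
  Rx.mk (nat_lit 183) (nat_lit 7) (nat_lit 6) (nat_lit 2) (nat_lit 7) (nat_lit 38) (nat_lit 48) r12_38 r12_48 (nat_lit 0) (nat_lit 0) (nat_lit 0) (nat_lit 0x7769843054) (nat_lit 4215363984),
  Rx.mk (nat_lit 198) (nat_lit 6) (nat_lit 0) (nat_lit 3) (nat_lit 5) (nat_lit 39) (nat_lit 44) r12_39 r12_44 (nat_lit 0) (nat_lit 0) (nat_lit 0) (nat_lit 0x7370c2a066) (nat_lit 6164888184),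
  Rx.mk (nat_lit 214) (nat_lit 6) (nat_lit 2) (nat_lit 3) (nat_lit 7) (nat_lit 40) (nat_lit 47) r12_40 r12_47 (nat_lit 0) (nat_lit 0) (nat_lit 0) (nat_lit 0x7fd4d5f2cc) (nat_lit 82762992),
  Rx.mk (nat_lit 218) (nat_lit 2) (nat_lit 3) (nat_lit 3) (nat_lit 7) (nat_lit 41) (nat_lit 46) r12_41 r12_46 (nat_lit 0) (nat_lit 0) (nat_lit 0) (nat_lit 0x703c5c69fe) (nat_lit 7737918552),
  Rx.mk (nat_lit 222) (nat_lit 6) (nat_lit 3) (nat_lit 3) (nat_lit 7) (nat_lit 42) (nat_lit 45) r12_42 r12_45 (nat_lit 0) (nat_lit 0) (nat_lit 0) (nat_lit 0x7ebad653e0) (nat_lit 623465856),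
  Rx.mk (nat_lit 315) (nat_lit 3) (nat_lit 7) (nat_lit 4) (nat_lit 3) (nat_lit 43) (nat_lit 34) r12_43 r12_34 (nat_lit 0) (nat_lit 0) (nat_lit 0) (nat_lit 0x8000000000) (nat_lit 0),
  Rx.mk (nat_lit 419) (nat_lit 3) (nat_lit 4) (nat_lit 6) (nat_lit 5) (nat_lit 44) (nat_lit 39) r12_44 r12_39 (nat_lit 0) (nat_lit 0) (nat_lit 0) (nat_lit 0x7370c2a066) (nat_lit 6164888184),
  Rx.mk (nat_lit 435) (nat_lit 3) (nat_lit 6) (nat_lit 6) (nat_lit 7) (nat_lit 45) (nat_lit 42) r12_45 r12_42 (nat_lit 0) (nat_lit 0) (nat_lit 0) (nat_lit 0x7ebad653e0) (nat_lit 623465856),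
  Rx.mk (nat_lit 439) (nat_lit 7) (nat_lit 6) (nat_lit 6) (nat_lit 7) (nat_lit 46) (nat_lit 41) r12_46 r12_41 (nat_lit 0) (nat_lit 0) (nat_lit 0) (nat_lit 0x703c5c69fe) (nat_lit 7737918552),
  Rx.mk (nat_lit 443) (nat_lit 3) (nat_lit 7) (nat_lit 6) (nat_lit 7) (nat_lit 47) (nat_lit 40) r12_47 r12_40 (nat_lit 0) (nat_lit 0) (nat_lit 0) (nat_lit 0x7fd4d5f2cc) (nat_lit 82762992),
  Rx.mk (nat_lit 474) (nat_lit 2) (nat_lit 3) (nat_lit 7) (nat_lit 7) (nat_lit 48) (nat_lit 38) r12_48 r12_38 (nat_lit 0) (nat_lit 0) (nat_lit 0) (nat_lit 0x7769843054) (nat_lit 4215363984),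
  Rx.mk (nat_lit 504) (nat_lit 0) (nat_lit 7) (nat_lit 7) (nat_lit 6) (nat_lit 49) (nat_lit 35) r12_49 r12_35 (nat_lit 0) (nat_lit 0) (nat_lit 0) (nat_lit 0x77d2f95898) (nat_lit 4013159904),
  Rx.mk (nat_lit 506) (nat_lit 2) (nat_lit 7) (nat_lit 7) (nat_lit 7) (nat_lit 50) (nat_lit 37) r12_50 r12_37 (nat_lit 0) (nat_lit 0) (nat_lit 0) (nat_lit 0x7e72f2126c) (nat_lit 761310576),
  Rx.mk (nat_lit 507) (nat_lit 3) (nat_lit 7) (nat_lit 7) (nat_lit 7) (nat_lit 51) (nat_lit 36) r12_51 r12_36 (nat_lit 0) (nat_lit 0) (nat_lit 0) (nat_lit 0x74dca9608e) (nat_lit 5467145112)]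
noncomputable def e53_54 : List Rx := [
  Rx.mk (nat_lit 282) (nat_lit 2) (nat_lit 3) (nat_lit 4) (nat_lit 3) (nat_lit 302) (nat_lit 302) r12_302 r12_302 (nat_lit 0) (nat_lit 0) (nat_lit 0) (nat_lit 0x7ea302313a) (nat_lit 669154824),
  Rx.mk (nat_lit 346) (nat_lit 2) (nat_lit 3) (nat_lit 5) (nat_lit 7) (nat_lit 303) (nat_lit 303) r12_303 r12_303 (nat_lit 0) (nat_lit 0) (nat_lit 0) (nat_lit 0x7e78753a34) (nat_lit 750741264)]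
noncomputable def e53_55 : List Rx := [
  Rx.mk (nat_lit 312) (nat_lit 0) (nat_lit 7) (nat_lit 4) (nat_lit 2) (nat_lit 52) (nat_lit 359) r12_52 r3_359 (nat_lit 0) (nat_lit 0) (nat_lit 0) (nat_lit 0x8000000000) (nat_lit 0),
  Rx.mk (nat_lit 313) (nat_lit 1) (nat_lit 7) (nat_lit 4) (nat_lit 3) (nat_lit 53) (nat_lit 328) r12_53 r3_328 (nat_lit 0) (nat_lit 0) (nat_lit 0) (nat_lit 0x7eb04a3cac) (nat_lit 643689072),
  Rx.mk (nat_lit 314) (nat_lit 2) (nat_lit 7) (nat_lit 4) (nat_lit 3) (nat_lit 54) (nat_lit 332) r12_54 r3_332 (nat_lit 0) (nat_lit 0) (nat_lit 0) (nat_lit 0x7fc30d0f6c) (nat_lit 116863344),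
  Rx.mk (nat_lit 416) (nat_lit 0) (nat_lit 4) (nat_lit 6) (nat_lit 4) (nat_lit 55) (nat_lit 325) r12_55 r3_325 (nat_lit 0) (nat_lit 0) (nat_lit 0) (nat_lit 0x8000000000) (nat_lit 0),
  Rx.mk (nat_lit 417) (nat_lit 1) (nat_lit 4) (nat_lit 6) (nat_lit 5) (nat_lit 56) (nat_lit 329) r12_56 r3_329 (nat_lit 0) (nat_lit 0) (nat_lit 0) (nat_lit 0x78dfe268fa) (nat_lit 3497552136),
  Rx.mk (nat_lit 432) (nat_lit 0) (nat_lit 6) (nat_lit 6) (nat_lit 6) (nat_lit 57) (nat_lit 327) r12_57 r3_327 (nat_lit 0) (nat_lit 0) (nat_lit 0) (nat_lit 0x7d4a01a29c) (nat_lit 1330660656),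
  Rx.mk (nat_lit 433) (nat_lit 1) (nat_lit 6) (nat_lit 6) (nat_lit 7) (nat_lit 58) (nat_lit 331) r12_58 r3_331 (nat_lit 0) (nat_lit 0) (nat_lit 0) (nat_lit 0x7b9901944e) (nat_lit 2160893592),
  Rx.mk (nat_lit 440) (nat_lit 0) (nat_lit 7) (nat_lit 6) (nat_lit 6) (nat_lit 59) (nat_lit 326) r12_59 r3_326 (nat_lit 0) (nat_lit 0) (nat_lit 0) (nat_lit 0x7fe86cb94c) (nat_lit 45203184),
  Rx.mk (nat_lit 441) (nat_lit 1) (nat_lit 7) (nat_lit 6) (nat_lit 7) (nat_lit 60) (nat_lit 330) r12_60 r3_330 (nat_lit 0) (nat_lit 0) (nat_lit 0) (nat_lit 0x7f5a643a62) (nat_lit 317537064)]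
noncomputable def e53_56 : List Rx := [
  Rx.mk (nat_lit 312) (nat_lit 0) (nat_lit 7) (nat_lit 4) (nat_lit 2) (nat_lit 235) (nat_lit 310) r12_235 r12_310 (nat_lit 0) (nat_lit 0) (nat_lit 0) (nat_lit 0x8000000000) (nat_lit 0),
  Rx.mk (nat_lit 313) (nat_lit 1) (nat_lit 7) (nat_lit 4) (nat_lit 3) (nat_lit 236) (nat_lit 312) r12_236 r12_312 (nat_lit 0) (nat_lit 0) (nat_lit 0) (nat_lit 0x7d6cf2f364) (nat_lit 1263661776),
  Rx.mk (nat_lit 314) (nat_lit 2) (nat_lit 7) (nat_lit 4) (nat_lit 3) (nat_lit 237) (nat_lit 314) r12_237 r12_314 (nat_lit 0) (nat_lit 0) (nat_lit 0) (nat_lit 0x7f2c8cd806) (nat_lit 405433080),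
  Rx.mk (nat_lit 440) (nat_lit 0) (nat_lit 7) (nat_lit 6) (nat_lit 6) (nat_lit 238) (nat_lit 311) r12_238 r12_311 (nat_lit 0) (nat_lit 0) (nat_lit 0) (nat_lit 0x7f220180c6) (nat_lit 425650680),
  Rx.mk (nat_lit 441) (nat_lit 1) (nat_lit 7) (nat_lit 6) (nat_lit 7) (nat_lit 239) (nat_lit 313) r12_239 r12_313 (nat_lit 0) (nat_lit 0) (nat_lit 0) (nat_lit 0x7e9736adfe) (nat_lit 691770456)]
noncomputable def e53_57 : List Rx := [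
  Rx.mk (nat_lit 312) (nat_lit 0) (nat_lit 7) (nat_lit 4) (nat_lit 2) (nat_lit 80) (nat_lit 83) r12_80 r12_83 (nat_lit 0) (nat_lit 0) (nat_lit 0) (nat_lit 0x8000000000) (nat_lit 0),
  Rx.mk (nat_lit 313) (nat_lit 1) (nat_lit 7) (nat_lit 4) (nat_lit 3) (nat_lit 81) (nat_lit 84) r12_81 r12_84 (nat_lit 0) (nat_lit 0) (nat_lit 0) (nat_lit 0x7de6a637b6) (nat_lit 1030314168),
  Rx.mk (nat_lit 314) (nat_lit 2) (nat_lit 7) (nat_lit 4) (nat_lit 3) (nat_lit 82) (nat_lit 85) r12_82 r12_85 (nat_lit 0) (nat_lit 0) (nat_lit 0) (nat_lit 0x7f1b4c6c1e) (nat_lit 438511320),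
  Rx.mk (nat_lit 416) (nat_lit 0) (nat_lit 4) (nat_lit 6) (nat_lit 4) (nat_lit 83) (nat_lit 80) r12_83 r12_80 (nat_lit 0) (nat_lit 0) (nat_lit 0) (nat_lit 0x8000000000) (nat_lit 0),
  Rx.mk (nat_lit 417) (nat_lit 1) (nat_lit 4) (nat_lit 6) (nat_lit 5) (nat_lit 84) (nat_lit 81) r12_84 r12_81 (nat_lit 0) (nat_lit 0) (nat_lit 0) (nat_lit 0x7de6a637b6) (nat_lit 1030314168),
  Rx.mk (nat_lit 419) (nat_lit 3) (nat_lit 4) (nat_lit 6) (nat_lit 5) (nat_lit 85) (nat_lit 82) r12_85 r12_82 (nat_lit 0) (nat_lit 0) (nat_lit 0) (nat_lit 0x7f1b4c6c1e) (nat_lit 438511320),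
  Rx.mk (nat_lit 432) (nat_lit 0) (nat_lit 6) (nat_lit 6) (nat_lit 6) (nat_lit 86) (nat_lit 91) r12_86 r12_91 (nat_lit 0) (nat_lit 0) (nat_lit 0) (nat_lit 0x7bc3dc8674) (nat_lit 2078723088),
  Rx.mk (nat_lit 433) (nat_lit 1) (nat_lit 6) (nat_lit 6) (nat_lit 7) (nat_lit 87) (nat_lit 92) r12_87 r12_92 (nat_lit 0) (nat_lit 0) (nat_lit 0) (nat_lit 0x7cd60782b2) (nat_lit 1553034600),
  Rx.mk (nat_lit 435) (nat_lit 3) (nat_lit 6) (nat_lit 6) (nat_lit 7) (nat_lit 88) (nat_lit 93) r12_88 r12_93 (nat_lit 0) (nat_lit 0) (nat_lit 0) (nat_lit 0x7e3d2f8eca) (nat_lit 864389448),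
  Rx.mk (nat_lit 440) (nat_lit 0) (nat_lit 7) (nat_lit 6) (nat_lit 6) (nat_lit 89) (nat_lit 89) r12_89 r12_89 (nat_lit 0) (nat_lit 0) (nat_lit 0) (nat_lit 0x7f80b8b4f4) (nat_lit 244043280),
  Rx.mk (nat_lit 441) (nat_lit 1) (nat_lit 7) (nat_lit 6) (nat_lit 7) (nat_lit 90) (nat_lit 90) r12_90 r12_90 (nat_lit 0) (nat_lit 0) (nat_lit 0) (nat_lit 0x7e6d676b1c) (nat_lit 771936048),
  Rx.mk (nat_lit 504) (nat_lit 0) (nat_lit 7) (nat_lit 7) (nat_lit 6) (nat_lit 91) (nat_lit 86) r12_91 r12_86 (nat_lit 0) (nat_lit 0) (nat_lit 0) (nat_lit 0x7bc3dc8674) (nat_lit 2078723088),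
  Rx.mk (nat_lit 505) (nat_lit 1) (nat_lit 7) (nat_lit 7) (nat_lit 7) (nat_lit 92) (nat_lit 87) r12_92 r12_87 (nat_lit 0) (nat_lit 0) (nat_lit 0) (nat_lit 0x7cd60782b2) (nat_lit 1553034600),
  Rx.mk (nat_lit 506) (nat_lit 2) (nat_lit 7) (nat_lit 7) (nat_lit 7) (nat_lit 93) (nat_lit 88) r12_93 r12_88 (nat_lit 0) (nat_lit 0) (nat_lit 0) (nat_lit 0x7e3d2f8eca) (nat_lit 864389448)]
noncomputable def e53 : List (List Rx) := [e53_0, e53_1, e53_2, e53_3, e53_4, e53_5, e53_6, e53_7, e53_8, e53_9, e53_10, e53_11, e53_12, e53_13, e53_14, e53_15, e53_16, e53_17, e53_18, e53_19, e53_20, e53_21, e53_22, e53_23, e53_24, e53_25, e53_26, e53_27, e53_28, e53_29, e53_30, e53_31, e53_32, e53_33, e53_34, e53_35, e53_36, e53_37, e53_38, e53_39, e53_40, e53_41, e53_42, e53_43, e53_44, e53_45, e53_46, e53_47, e53_48, e53_49, e53_50, e53_51, e53_52, e53_53, e53_54,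 e53_55, e53_56, e53_57]
noncomputable def e54_0 : List Rx := [
  Rx.mk (nat_lit 116) (nat_lit 4) (nat_lit 6) (nat_lit 1) (nat_lit 6) (nat_lit 255) (nat_lit 224) r12_255 r0_224 (nat_lit 0) (nat_lit 0) (nat_lit 0) (nat_lit 0x8000000000) (nat_lit 0)]
noncomputable def e54_1 : List Rx := [
  Rx.mk (nat_lit 116) (nat_lit 4) (nat_lit 6) (nat_lit 1) (nat_lit 6) (nat_lit 268) (nat_lit 242) r12_268 r1_242 (nat_lit 0) (nat_lit 0) (nat_lit 0) (nat_lit 0x8000000000) (nat_lit 0),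
  Rx.mk (nat_lit 372) (nat_lit 4) (nat_lit 6) (nat_lit 5) (nat_lit 6) (nat_lit 267) (nat_lit 243) r12_267 r1_243 (nat_lit 0) (nat_lit 0) (nat_lit 0) (nat_lit 0x7d19eca41c) (nat_lit 1422852912)]
noncomputable def e54_2 : List Rx := [
  Rx.mk (nat_lit 340) (nat_lit 4) (nat_lit 2) (nat_lit 5) (nat_lit 6) (nat_lit 259) (nat_lit 255) r12_259 r2_255 (nat_lit 0) (nat_lit 0) (nat_lit 0) (nat_lit 0x7e4fef22be) (nat_lit 828441432),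
  Rx.mk (nat_lit 342) (nat_lit 6) (nat_lit 2) (nat_lit 5) (nat_lit 7) (nat_lit 260) (nat_lit 257) r12_260 r2_257 (nat_lit 0) (nat_lit 0) (nat_lit 0) (nat_lit 0x7e0dc225d0) (nat_lit 955326528),
  Rx.mk (nat_lit 372) (nat_lit 4) (nat_lit 6) (nat_lit 5) (nat_lit 6) (nat_lit 258) (nat_lit 256) r12_258 r2_256 (nat_lit 0) (nat_lit 0) (nat_lit 0) (nat_lit 0x7e39f90236) (nat_lit 870550200)]
noncomputable def e54_3 : List Rx := [
  Rx.mk (nat_lit 52) (nat_lit 4) (nat_lit 6) (nat_lit 0) (nat_lit 2) (nat_lit 323) (nat_lit 355) r12_323 r3_355 (nat_lit 0) (nat_lit 0) (nat_lit 0) (nat_lit 0x8000000000) (nat_lit 0),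
  Rx.mk (nat_lit 55) (nat_lit 7) (nat_lit 6) (nat_lit 0) (nat_lit 3) (nat_lit 293) (nat_lit 218) r12_293 r3_218 (nat_lit 0) (nat_lit 0) (nat_lit 0) (nat_lit 0x7fb77b4894) (nat_lit 139046544),
  Rx.mk (nat_lit 116) (nat_lit 4) (nat_lit 6) (nat_lit 1) (nat_lit 6) (nat_lit 294) (nat_lit 217) r12_294 r3_217 (nat_lit 0) (nat_lit 0) (nat_lit 0) (nat_lit 0x794234437a) (nat_lit 3309034248),
  Rx.mk (nat_lit 119) (nat_lit 7) (nat_lit 6) (nat_lit 1) (nat_lit 7) (nat_lit 295) (nat_lit 219) r12_295 r3_219 (nat_lit 0) (nat_lit 0) (nat_lit 0) (nat_lit 0x7f2d71e9b4) (nat_lit 403717392)]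
noncomputable def e54_4 : List Rx := [
  Rx.mk (nat_lit 116) (nat_lit 4) (nat_lit 6) (nat_lit 1) (nat_lit 6) (nat_lit 304) (nat_lit 224) r12_304 r4_224 (nat_lit 0) (nat_lit 0) (nat_lit 0) (nat_lit 0x7b83692dea) (nat_lit 2202300360),
  Rx.mk (nat_lit 119) (nat_lit 7) (nat_lit 6) (nat_lit 1) (nat_lit 7) (nat_lit 305) (nat_lit 225) r12_305 r4_225 (nat_lit 0) (nat_lit 0) (nat_lit 0) (nat_lit 0x7b9dce877a) (nat_lit 2151688968)]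
noncomputable def e54_5 : List Rx := [
  Rx.mk (nat_lit 154) (nat_lit 2) (nat_lit 3) (nat_lit 2) (nat_lit 7) (nat_lit 25) (nat_lit 206) r12_25 r3_206 (nat_lit 0) (nat_lit 0) (nat_lit 0) (nat_lit 0x7986b4fb2a) (nat_lit 3177687240),
  Rx.mk (nat_lit 247) (nat_lit 7) (nat_lit 6) (nat_lit 3) (nat_lit 7) (nat_lit 26) (nat_lit 202) r12_26 r3_202 (nat_lit 0) (nat_lit 0) (nat_lit 0) (nat_lit 0x7e98a7f6e8) (nat_lit 689004576),
  Rx.mk (nat_lit 278) (nat_lit 6) (nat_lit 2) (nat_lit 4) (nat_lit 3) (nat_lit 16) (nat_lit 208) r12_16 r3_208 (nat_lit 0) (nat_lit 0) (nat_lit 0) (nat_lit 0x8000000000) (nat_lit 0),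
  Rx.mk (nat_lit 386) (nat_lit 2) (nat_lit 0) (nat_lit 6) (nat_lit 5) (nat_lit 19) (nat_lit 204) r12_19 r3_204 (nat_lit 0) (nat_lit 0) (nat_lit 0) (nat_lit 0x7b0082bcd4) (nat_lit 2453287824),
  Rx.mk (nat_lit 390) (nat_lit 6) (nat_lit 0) (nat_lit 6) (nat_lit 5) (nat_lit 17) (nat_lit 203) r12_17 r3_203 (nat_lit 0) (nat_lit 0) (nat_lit 0) (nat_lit 0x7fececd146) (nat_lit 36574200),
  Rx.mk (nat_lit 406) (nat_lit 6) (nat_lit 2) (nat_lit 6) (nat_lit 7) (nat_lit 18) (nat_lit 210) r12_18 r3_210 (nat_lit 0) (nat_lit 0) (nat_lit 0) (nat_lit 0x7d72006288) (nat_lit 1253974176),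
  Rx.mk (nat_lit 410) (nat_lit 2) (nat_lit 3) (nat_lit 6) (nat_lit 7) (nat_lit 20) (nat_lit 205) r12_20 r3_205 (nat_lit 0) (nat_lit 0) (nat_lit 0) (nat_lit 0x7f69370d26) (nat_lit 289114488),
  Rx.mk (nat_lit 468) (nat_lit 4) (nat_lit 2) (nat_lit 7) (nat_lit 6) (nat_lit 22) (nat_lit 207) r12_22 r3_207 (nat_lit 0) (nat_lit 0) (nat_lit 0) (nat_lit 0x7735c94c36) (nat_lit 4314550968),
  Rx.mk (nat_lit 470) (nat_lit 6) (nat_lit 2) (nat_lit 7) (nat_lit 7) (nat_lit 23) (nat_lit 209) r12_23 r3_209 (nat_lit 0) (nat_lit 0) (nat_lit 0) (nat_lit 0x7fbcc993aa) (nat_lit 128873160),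
  Rx.mk (nat_lit 500) (nat_lit 4) (nat_lit 6) (nat_lit 7) (nat_lit 6) (nat_lit 21) (nat_lit 354) r12_21 r3_354 (nat_lit 0) (nat_lit 0) (nat_lit 0) (nat_lit 0x8000000000) (nat_lit 0),
  Rx.mk (nat_lit 503) (nat_lit 7) (nat_lit 6) (nat_lit 7) (nat_lit 7) (nat_lit 24) (nat_lit 201) r12_24 r3_201 (nat_lit 0) (nat_lit 0) (nat_lit 0) (nat_lit 0x791d0196ca) (nat_lit 3380357448)]
noncomputable def e54_6 : List Rx := [
  Rx.mk (nat_lit 276) (nat_lit 4) (nat_lit 2) (nat_lit 4) (nat_lit 2) (nat_lit 95) (nat_lit 209) r12_95 r0_209 (nat_lit 0) (nat_lit 0) (nat_lit 0) (nat_lit 0x749db7cfe6) (nat_lit 5587832952),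
  Rx.mk (nat_lit 278) (nat_lit 6) (nat_lit 2) (nat_lit 4) (nat_lit 3) (nat_lit 96) (nat_lit 210) r12_96 r0_210 (nat_lit 0) (nat_lit 0) (nat_lit 0) (nat_lit 0x7d52e9d410) (nat_lit 1313582400),
  Rx.mk (nat_lit 308) (nat_lit 4) (nat_lit 6) (nat_lit 4) (nat_lit 2) (nat_lit 94) (nat_lit 204) r12_94 r0_204 (nat_lit 0) (nat_lit 0) (nat_lit 0) (nat_lit 0x8000000000) (nat_lit 0),
  Rx.mk (nat_lit 386) (nat_lit 2) (nat_lit 0) (nat_lit 6) (nat_lit 5) (nat_lit 99) (nat_lit 208) r12_99 r0_208 (nat_lit 0) (nat_lit 0) (nat_lit 0) (nat_lit 0x6c8ed0a668) (nat_lit 9543235104),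
  Rx.mk (nat_lit 390) (nat_lit 6) (nat_lit 0) (nat_lit 6) (nat_lit 5) (nat_lit 97) (nat_lit 207) r12_97 r0_207 (nat_lit 0) (nat_lit 0) (nat_lit 0) (nat_lit 0x7b7e747d3a) (nat_lit 2211802632),
  Rx.mk (nat_lit 406) (nat_lit 6) (nat_lit 2) (nat_lit 6) (nat_lit 7) (nat_lit 98) (nat_lit 211) r12_98 r0_211 (nat_lit 0) (nat_lit 0) (nat_lit 0) (nat_lit 0x7df6c1d5ec) (nat_lit 999428976),
  Rx.mk (nat_lit 500) (nat_lit 4) (nat_lit 6) (nat_lit 7) (nat_lit 6) (nat_lit 100) (nat_lit 205) r12_100 r0_205 (nat_lit 0) (nat_lit 0) (nat_lit 0) (nat_lit 0x769593103a) (nat_lit 4621740552),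
  Rx.mk (nat_lit 503) (nat_lit 7) (nat_lit 6) (nat_lit 7) (nat_lit 7) (nat_lit 101) (nat_lit 206) r12_101 r0_206 (nat_lit 0) (nat_lit 0) (nat_lit 0) (nat_lit 0x67426092b6) (nat_lit 12144063672)]
noncomputable def e54_7 : List Rx := [
  Rx.mk (nat_lit 276) (nat_lit 4) (nat_lit 2) (nat_lit 4) (nat_lit 2) (nat_lit 107) (nat_lit 229) r12_107 r1_229 (nat_lit 0) (nat_lit 0) (nat_lit 0) (nat_lit 0x71c5b3f2fc) (nat_lit 6983726256),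
  Rx.mk (nat_lit 278) (nat_lit 6) (nat_lit 2) (nat_lit 4) (nat_lit 3) (nat_lit 108) (nat_lit 231) r12_108 r1_231 (nat_lit 0) (nat_lit 0) (nat_lit 0) (nat_lit 0x7d8932ef48) (nat_lit 1209495456),
  Rx.mk (nat_lit 308) (nat_lit 4) (nat_lit 6) (nat_lit 4) (nat_lit 2) (nat_lit 106) (nat_lit 225) r12_106 r1_225 (nat_lit 0) (nat_lit 0) (nat_lit 0) (nat_lit 0x8000000000) (nat_lit 0),
  Rx.mk (nat_lit 340) (nat_lit 4) (nat_lit 2) (nat_lit 5) (nat_lit 6) (nat_lit 110) (nat_lit 230) r12_110 r1_230 (nat_lit 0) (nat_lit 0) (nat_lit 0) (nat_lit 0x7dfcd1f4e4) (nat_lit 987803856),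
  Rx.mk (nat_lit 342) (nat_lit 6) (nat_lit 2) (nat_lit 5) (nat_lit 7) (nat_lit 111) (nat_lit 232) r12_111 r1_232 (nat_lit 0) (nat_lit 0) (nat_lit 0) (nat_lit 0x7e706b5ada) (nat_lit 766154376),
  Rx.mk (nat_lit 372) (nat_lit 4) (nat_lit 6) (nat_lit 5) (nat_lit 6) (nat_lit 109) (nat_lit 226) r12_109 r1_226 (nat_lit 0) (nat_lit 0) (nat_lit 0) (nat_lit 0x7eb6a736d6) (nat_lit 631488312),
  Rx.mk (nat_lit 406) (nat_lit 6) (nat_lit 2) (nat_lit 6) (nat_lit 7) (nat_lit 112) (nat_lit 233) r12_112 r1_233 (nat_lit 0) (nat_lit 0) (nat_lit 0) (nat_lit 0x7dda421e04) (nat_lit 1054072656),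
  Rx.mk (nat_lit 500) (nat_lit 4) (nat_lit 6) (nat_lit 7) (nat_lit 6) (nat_lit 113) (nat_lit 227) r12_113 r1_227 (nat_lit 0) (nat_lit 0) (nat_lit 0) (nat_lit 0x7dc65abc8e) (nat_lit 1092236184),
  Rx.mk (nat_lit 503) (nat_lit 7) (nat_lit 6) (nat_lit 7) (nat_lit 7) (nat_lit 114) (nat_lit 228) r12_114 r1_228 (nat_lit 0) (nat_lit 0) (nat_lit 0) (nat_lit 0x7d334cae02) (nat_lit 1374198696)]
noncomputable def e54_8 : List Rx := [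
  Rx.mk (nat_lit 276) (nat_lit 4) (nat_lit 2) (nat_lit 4) (nat_lit 2) (nat_lit 124) (nat_lit 200) r12_124 r4_200 (nat_lit 0) (nat_lit 0) (nat_lit 0) (nat_lit 0x6c41dd75e8) (nat_lit 9690778656),
  Rx.mk (nat_lit 278) (nat_lit 6) (nat_lit 2) (nat_lit 4) (nat_lit 3) (nat_lit 125) (nat_lit 202) r12_125 r4_202 (nat_lit 0) (nat_lit 0) (nat_lit 0) (nat_lit 0x7e00441dbe) (nat_lit 981196632),
  Rx.mk (nat_lit 386) (nat_lit 2) (nat_lit 0) (nat_lit 6) (nat_lit 5) (nat_lit 128) (nat_lit 198) r12_128 r4_198 (nat_lit 0) (nat_lit 0) (nat_lit 0) (nat_lit 0x79e6f15704) (nat_lit 2993165136),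
  Rx.mk (nat_lit 390) (nat_lit 6) (nat_lit 0) (nat_lit 6) (nat_lit 5) (nat_lit 126) (nat_lit 197) r12_126 r4_197 (nat_lit 0) (nat_lit 0) (nat_lit 0) (nat_lit 0x7853b78c34) (nat_lit 3766308624),
  Rx.mk (nat_lit 406) (nat_lit 6) (nat_lit 2) (nat_lit 6) (nat_lit 7) (nat_lit 127) (nat_lit 204) r12_127 r4_204 (nat_lit 0) (nat_lit 0) (nat_lit 0) (nat_lit 0x7e302d3efc) (nat_lit 889332912),
  Rx.mk (nat_lit 410) (nat_lit 2) (nat_lit 3) (nat_lit 6) (nat_lit 7) (nat_lit 129) (nat_lit 199) r12_129 r4_199 (nat_lit 0) (nat_lit 0) (nat_lit 0) (nat_lit 0x7e8a3edd88) (nat_lit 716635296),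
  Rx.mk (nat_lit 468) (nat_lit 4) (nat_lit 2) (nat_lit 7) (nat_lit 6) (nat_lit 131) (nat_lit 201) r12_131 r4_201 (nat_lit 0) (nat_lit 0) (nat_lit 0) (nat_lit 0x7a87b0ca6c) (nat_lit 2684947824),
  Rx.mk (nat_lit 470) (nat_lit 6) (nat_lit 2) (nat_lit 7) (nat_lit 7) (nat_lit 132) (nat_lit 203) r12_132 r4_203 (nat_lit 0) (nat_lit 0) (nat_lit 0) (nat_lit 0x7e76bad5dc) (nat_lit 754054704),
  Rx.mk (nat_lit 500) (nat_lit 4) (nat_lit 6) (nat_lit 7) (nat_lit 6) (nat_lit 130) (nat_lit 195) r12_130 r4_195 (nat_lit 0) (nat_lit 0) (nat_lit 0) (nat_lit 0x7bc8cf5742) (nat_lit 2069234856),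
  Rx.mk (nat_lit 503) (nat_lit 7) (nat_lit 6) (nat_lit 7) (nat_lit 7) (nat_lit 133) (nat_lit 196) r12_133 r4_196 (nat_lit 0) (nat_lit 0) (nat_lit 0) (nat_lit 0x7dfbbbc648) (nat_lit 989887392)]
noncomputable def e54_9 : List Rx := [
  Rx.mk (nat_lit 55) (nat_lit 7) (nat_lit 6) (nat_lit 0) (nat_lit 3) (nat_lit 242) (nat_lit 252) r12_242 r5_252 (nat_lit 0) (nat_lit 0) (nat_lit 0) (nat_lit 0x7d25bb2728) (nat_lit 1400214816),
  Rx.mk (nat_lit 244) (nat_lit 4) (nat_lit 6) (nat_lit 3) (nat_lit 6) (nat_lit 243) (nat_lit 251) r12_243 r5_251 (nat_lit 0) (nat_lit 0) (nat_lit 0) (nat_lit 0x7fed08ef84) (nat_lit 36363600),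
  Rx.mk (nat_lit 247) (nat_lit 7) (nat_lit 6) (nat_lit 3) (nat_lit 7) (nat_lit 244) (nat_lit 253) r12_244 r5_253 (nat_lit 0) (nat_lit 0) (nat_lit 0) (nat_lit 0x7ef7d3c3cc) (nat_lit 506523888)]
noncomputable def e54_10 : List Rx := [
  Rx.mk (nat_lit 53) (nat_lit 5) (nat_lit 6) (nat_lit 0) (nat_lit 3) (nat_lit 252) (nat_lit 314) r12_252 r0_314 (nat_lit 0) (nat_lit 0) (nat_lit 0) (nat_lit 0x7c8c873b00) (nat_lit 1693965312),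
  Rx.mk (nat_lit 116) (nat_lit 4) (nat_lit 6) (nat_lit 1) (nat_lit 6) (nat_lit 253) (nat_lit 315) r12_253 r0_315 (nat_lit 0) (nat_lit 0) (nat_lit 0) (nat_lit 0x7ac9315222) (nat_lit 2559354408),
  Rx.mk (nat_lit 117) (nat_lit 5) (nat_lit 6) (nat_lit 1) (nat_lit 7) (nat_lit 254) (nat_lit 316) r12_254 r0_316 (nat_lit 0) (nat_lit 0) (nat_lit 0) (nat_lit 0x7ef9c72494) (nat_lit 502783632)]
noncomputable def e54_11 : List Rx := [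
  Rx.mk (nat_lit 116) (nat_lit 4) (nat_lit 6) (nat_lit 1) (nat_lit 6) (nat_lit 256) (nat_lit 286) r12_256 r6_286 (nat_lit 0) (nat_lit 0) (nat_lit 0) (nat_lit 0x7e13f5229a) (nat_lit 943440264),
  Rx.mk (nat_lit 117) (nat_lit 5) (nat_lit 6) (nat_lit 1) (nat_lit 7) (nat_lit 257) (nat_lit 287) r12_257 r6_287 (nat_lit 0) (nat_lit 0) (nat_lit 0) (nat_lit 0x7e7b9907f4) (nat_lit 744720912)]
noncomputable def e54_12 : List Rx := [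
  Rx.mk (nat_lit 53) (nat_lit 5) (nat_lit 6) (nat_lit 0) (nat_lit 3) (nat_lit 273) (nat_lit 302) r12_273 r1_302 (nat_lit 0) (nat_lit 0) (nat_lit 0) (nat_lit 0x7e59f0e298) (nat_lit 809254368),
  Rx.mk (nat_lit 117) (nat_lit 5) (nat_lit 6) (nat_lit 1) (nat_lit 7) (nat_lit 274) (nat_lit 303) r12_274 r1_303 (nat_lit 0) (nat_lit 0) (nat_lit 0) (nat_lit 0x7d5c1b80ec) (nat_lit 1295953776)]
noncomputable def e54_13 : List Rx := [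
  Rx.mk (nat_lit 117) (nat_lit 5) (nat_lit 6) (nat_lit 1) (nat_lit 7) (nat_lit 285) (nat_lit 218) r12_285 r7_218 (nat_lit 0) (nat_lit 0) (nat_lit 0) (nat_lit 0x7e67fac1ec) (nat_lit 782336880)]
noncomputable def e54_14 : List Rx := [
  Rx.mk (nat_lit 116) (nat_lit 4) (nat_lit 6) (nat_lit 1) (nat_lit 6) (nat_lit 271) (nat_lit 349) r12_271 r7_349 (nat_lit 0) (nat_lit 0) (nat_lit 0) (nat_lit 0x7d458d29e8) (nat_lit 1339202592),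
  Rx.mk (nat_lit 117) (nat_lit 5) (nat_lit 6) (nat_lit 1) (nat_lit 7) (nat_lit 272) (nat_lit 350) r12_272 r7_350 (nat_lit 0) (nat_lit 0) (nat_lit 0) (nat_lit 0x7dcaa7d7b8) (nat_lit 1083989088),
  Rx.mk (nat_lit 372) (nat_lit 4) (nat_lit 6) (nat_lit 5) (nat_lit 6) (nat_lit 269) (nat_lit 347) r12_269 r7_347 (nat_lit 0) (nat_lit 0) (nat_lit 0) (nat_lit 0x7d3189aa34) (nat_lit 1377576720),
  Rx.mk (nat_lit 373) (nat_lit 5) (nat_lit 6) (nat_lit 5) (nat_lit 7) (nat_lit 270) (nat_lit 348) r12_270 r7_348 (nat_lit 0) (nat_lit 0) (nat_lit 0) (nat_lit 0x7df25e9c24) (nat_lit 1007841744)]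
noncomputable def e54_15 : List Rx := [
  Rx.mk (nat_lit 340) (nat_lit 4) (nat_lit 2) (nat_lit 5) (nat_lit 6) (nat_lit 262) (nat_lit 224) r12_262 r8_224 (nat_lit 0) (nat_lit 0) (nat_lit 0) (nat_lit 0x7dae17a0d8) (nat_lit 1138756320),
  Rx.mk (nat_lit 341) (nat_lit 5) (nat_lit 2) (nat_lit 5) (nat_lit 7) (nat_lit 264) (nat_lit 226) r12_264 r8_226 (nat_lit 0) (nat_lit 0) (nat_lit 0) (nat_lit 0x7de7338ee0) (nat_lit 1029255552),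
  Rx.mk (nat_lit 342) (nat_lit 6) (nat_lit 2) (nat_lit 5) (nat_lit 7) (nat_lit 265) (nat_lit 228) r12_265 r8_228 (nat_lit 0) (nat_lit 0) (nat_lit 0) (nat_lit 0x7de986e9a8) (nat_lit 1024796448),
  Rx.mk (nat_lit 372) (nat_lit 4) (nat_lit 6) (nat_lit 5) (nat_lit 6) (nat_lit 261) (nat_lit 225) r12_261 r8_225 (nat_lit 0) (nat_lit 0) (nat_lit 0) (nat_lit 0x7cb54cae80) (nat_lit 1615790592),
  Rx.mk (nat_lit 373) (nat_lit 5) (nat_lit 6) (nat_lit 5) (nat_lit 7) (nat_lit 263) (nat_lit 227) r12_263 r8_227 (nat_lit 0) (nat_lit 0) (nat_lit 0) (nat_lit 0x7dca3abe8a) (nat_lit 1084806216)]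
noncomputable def e54_16 : List Rx := [
  Rx.mk (nat_lit 52) (nat_lit 4) (nat_lit 6) (nat_lit 0) (nat_lit 2) (nat_lit 296) (nat_lit 343) r12_296 r4_343 (nat_lit 0) (nat_lit 0) (nat_lit 0) (nat_lit 0x752fda0d30) (nat_lit 5307636672),
  Rx.mk (nat_lit 53) (nat_lit 5) (nat_lit 6) (nat_lit 0) (nat_lit 3) (nat_lit 297) (nat_lit 344) r12_297 r4_344 (nat_lit 0) (nat_lit 0) (nat_lit 0) (nat_lit 0x7defaae762) (nat_lit 1013022504),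
  Rx.mk (nat_lit 55) (nat_lit 7) (nat_lit 6) (nat_lit 0) (nat_lit 3) (nat_lit 298) (nat_lit 345) r12_298 r4_345 (nat_lit 0) (nat_lit 0) (nat_lit 0) (nat_lit 0x7ddf492d8e) (nat_lit 1044432792),
  Rx.mk (nat_lit 116) (nat_lit 4) (nat_lit 6) (nat_lit 1) (nat_lit 6) (nat_lit 299) (nat_lit 346) r12_299 r4_346 (nat_lit 0) (nat_lit 0) (nat_lit 0) (nat_lit 0x79f1f206ee) (nat_lit 2972068632),
  Rx.mk (nat_lit 117) (nat_lit 5) (nat_lit 6) (nat_lit 1) (nat_lit 7) (nat_lit 300) (nat_lit 347) r12_300 r4_347 (nat_lit 0) (nat_lit 0) (nat_lit 0) (nat_lit 0x7e5fb6663a) (nat_lit 798188040),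
  Rx.mk (nat_lit 119) (nat_lit 7) (nat_lit 6) (nat_lit 1) (nat_lit 7) (nat_lit 301) (nat_lit 348) r12_301 r4_348 (nat_lit 0) (nat_lit 0) (nat_lit 0) (nat_lit 0x7e24ff91e2) (nat_lit 910766376)]
noncomputable def e54_17 : List Rx := [
  Rx.mk (nat_lit 116) (nat_lit 4) (nat_lit 6) (nat_lit 1) (nat_lit 6) (nat_lit 306) (nat_lit 237) r12_306 r9_237 (nat_lit 0) (nat_lit 0) (nat_lit 0) (nat_lit 0x7db5ac2788) (nat_lit 1124222112),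
  Rx.mk (nat_lit 117) (nat_lit 5) (nat_lit 6) (nat_lit 1) (nat_lit 7) (nat_lit 307) (nat_lit 238) r12_307 r9_238 (nat_lit 0) (nat_lit 0) (nat_lit 0) (nat_lit 0x7e63f48254) (nat_lit 790053264),
  Rx.mk (nat_lit 119) (nat_lit 7) (nat_lit 6) (nat_lit 1) (nat_lit 7) (nat_lit 308) (nat_lit 239) r12_308 r9_239 (nat_lit 0) (nat_lit 0) (nat_lit 0) (nat_lit 0x7e796d0ab6) (nat_lit 748885176)]
noncomputable def e54_18 : List Rx := [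
  Rx.mk (nat_lit 52) (nat_lit 4) (nat_lit 6) (nat_lit 0) (nat_lit 2) (nat_lit 315) (nat_lit 273) r12_315 r10_273 (nat_lit 0) (nat_lit 0) (nat_lit 0) (nat_lit 0x771b6bd228) (nat_lit 4365103392),
  Rx.mk (nat_lit 53) (nat_lit 5) (nat_lit 6) (nat_lit 0) (nat_lit 3) (nat_lit 316) (nat_lit 276) r12_316 r10_276 (nat_lit 0) (nat_lit 0) (nat_lit 0) (nat_lit 0x7d971a50c4) (nat_lit 1182836304),
  Rx.mk (nat_lit 55) (nat_lit 7) (nat_lit 6) (nat_lit 0) (nat_lit 3) (nat_lit 317) (nat_lit 279) r12_317 r10_279 (nat_lit 0) (nat_lit 0) (nat_lit 0) (nat_lit 0x7dea0ba15c) (nat_lit 1023802416),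
  Rx.mk (nat_lit 116) (nat_lit 4) (nat_lit 6) (nat_lit 1) (nat_lit 6) (nat_lit 318) (nat_lit 274) r12_318 r10_274 (nat_lit 0) (nat_lit 0) (nat_lit 0) (nat_lit 0x7d6315f13e) (nat_lit 1282573656),
  Rx.mk (nat_lit 117) (nat_lit 5) (nat_lit 6) (nat_lit 1) (nat_lit 7) (nat_lit 319) (nat_lit 277) r12_319 r10_277 (nat_lit 0) (nat_lit 0) (nat_lit 0) (nat_lit 0x7e00b1f6e0) (nat_lit 980373888),
  Rx.mk (nat_lit 119) (nat_lit 7) (nat_lit 6) (nat_lit 1) (nat_lit 7) (nat_lit 320) (nat_lit 280) r12_320 r10_280 (nat_lit 0) (nat_lit 0) (nat_lit 0) (nat_lit 0x7de5e7c39e) (nat_lit 1031740632),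
  Rx.mk (nat_lit 244) (nat_lit 4) (nat_lit 6) (nat_lit 3) (nat_lit 6) (nat_lit 321) (nat_lit 275) r12_321 r10_275 (nat_lit 0) (nat_lit 0) (nat_lit 0) (nat_lit 0x7dd6261fc8) (nat_lit 1061951904),
  Rx.mk (nat_lit 245) (nat_lit 5) (nat_lit 6) (nat_lit 3) (nat_lit 7) (nat_lit 322) (nat_lit 278) r12_322 r10_278 (nat_lit 0) (nat_lit 0) (nat_lit 0) (nat_lit 0x7ddda307f2) (nat_lit 1047594600)]
noncomputable def e54_19 : List Rx := [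
  Rx.mk (nat_lit 342) (nat_lit 6) (nat_lit 2) (nat_lit 5) (nat_lit 7) (nat_lit 266) (nat_lit 215) r12_266 r8_215 (nat_lit 0) (nat_lit 0) (nat_lit 0) (nat_lit 0x7df0bb165e) (nat_lit 1010983896)]
noncomputable def e54_20 : List Rx := [
  Rx.mk (nat_lit 130) (nat_lit 2) (nat_lit 0) (nat_lit 2) (nat_lit 5) (nat_lit 4) (nat_lit 65) r12_4 r0_65 (nat_lit 0) (nat_lit 0) (nat_lit 0) (nat_lit 0x720f3cda24) (nat_lit 6842730960),
  Rx.mk (nat_lit 154) (nat_lit 2) (nat_lit 3) (nat_lit 2) (nat_lit 7) (nat_lit 5) (nat_lit 66) r12_5 r0_66 (nat_lit 0) (nat_lit 0) (nat_lit 0) (nat_lit 0x7df1ba066e) (nat_lit 1009074456),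
  Rx.mk (nat_lit 278) (nat_lit 6) (nat_lit 2) (nat_lit 4) (nat_lit 3) (nat_lit 0) (nat_lit 67) r12_0 r0_67 (nat_lit 0) (nat_lit 0) (nat_lit 0) (nat_lit 0x765c6d02d4) (nat_lit 4731317136),
  Rx.mk (nat_lit 386) (nat_lit 2) (nat_lit 0) (nat_lit 6) (nat_lit 5) (nat_lit 3) (nat_lit 68) r12_3 r0_68 (nat_lit 0) (nat_lit 0) (nat_lit 0) (nat_lit 0x75cf3f763a) (nat_lit 5002011144),
  Rx.mk (nat_lit 390) (nat_lit 6) (nat_lit 0) (nat_lit 6) (nat_lit 5) (nat_lit 1) (nat_lit 69) r12_1 r0_69 (nat_lit 0) (nat_lit 0) (nat_lit 0) (nat_lit 0x71e33a1a7c) (nat_lit 6927116976),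
  Rx.mk (nat_lit 406) (nat_lit 6) (nat_lit 2) (nat_lit 6) (nat_lit 7) (nat_lit 2) (nat_lit 70) r12_2 r0_70 (nat_lit 0) (nat_lit 0) (nat_lit 0) (nat_lit 0x7690a69f06) (nat_lit 4631181048)]
noncomputable def e54_21 : List Rx := [
  Rx.mk (nat_lit 130) (nat_lit 2) (nat_lit 0) (nat_lit 2) (nat_lit 5) (nat_lit 11) (nat_lit 58) r12_11 r1_58 (nat_lit 0) (nat_lit 0) (nat_lit 0) (nat_lit 0x76758bd0ce) (nat_lit 4683151512),
  Rx.mk (nat_lit 138) (nat_lit 2) (nat_lit 1) (nat_lit 2) (nat_lit 7) (nat_lit 12) (nat_lit 59) r12_12 r1_59 (nat_lit 0) (nat_lit 0) (nat_lit 0) (nat_lit 0x7e4f838978) (nat_lit 829247328),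
  Rx.mk (nat_lit 154) (nat_lit 2) (nat_lit 3) (nat_lit 2) (nat_lit 7) (nat_lit 13) (nat_lit 60) r12_13 r1_60 (nat_lit 0) (nat_lit 0) (nat_lit 0) (nat_lit 0x7d35e3e48c) (nat_lit 1369231344),
  Rx.mk (nat_lit 386) (nat_lit 2) (nat_lit 0) (nat_lit 6) (nat_lit 5) (nat_lit 9) (nat_lit 61) r12_9 r1_61 (nat_lit 0) (nat_lit 0) (nat_lit 0) (nat_lit 0x7a959c4ba6) (nat_lit 2658257784),
  Rx.mk (nat_lit 390) (nat_lit 6) (nat_lit 0) (nat_lit 6) (nat_lit 5) (nat_lit 6) (nat_lit 63) r12_6 r1_63 (nat_lit 0) (nat_lit 0) (nat_lit 0) (nat_lit 0x7a1cc1b9c8) (nat_lit 2889982368),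
  Rx.mk (nat_lit 394) (nat_lit 2) (nat_lit 1) (nat_lit 6) (nat_lit 7) (nat_lit 10) (nat_lit 62) r12_10 r1_62 (nat_lit 0) (nat_lit 0) (nat_lit 0) (nat_lit 0x7effe88278) (nat_lit 491029344),
  Rx.mk (nat_lit 398) (nat_lit 6) (nat_lit 1) (nat_lit 6) (nat_lit 7) (nat_lit 7) (nat_lit 64) r12_7 r1_64 (nat_lit 0) (nat_lit 0) (nat_lit 0) (nat_lit 0x7e3ee0f3b2) (nat_lit 861143400),
  Rx.mk (nat_lit 406) (nat_lit 6) (nat_lit 2) (nat_lit 6) (nat_lit 7) (nat_lit 8) (nat_lit 65) r12_8 r1_65 (nat_lit 0) (nat_lit 0) (nat_lit 0) (nat_lit 0x7c03ca075c) (nat_lit 1956148272)]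
noncomputable def e54_22 : List Rx := [
  Rx.mk (nat_lit 154) (nat_lit 2) (nat_lit 3) (nat_lit 2) (nat_lit 7) (nat_lit 33) (nat_lit 58) r12_33 r4_58 (nat_lit 0) (nat_lit 0) (nat_lit 0) (nat_lit 0x7e581e7fc0) (nat_lit 812747520),
  Rx.mk (nat_lit 278) (nat_lit 6) (nat_lit 2) (nat_lit 4) (nat_lit 3) (nat_lit 27) (nat_lit 59) r12_27 r4_59 (nat_lit 0) (nat_lit 0) (nat_lit 0) (nat_lit 0x7e7c8d78ac) (nat_lit 742890096),
  Rx.mk (nat_lit 386) (nat_lit 2) (nat_lit 0) (nat_lit 6) (nat_lit 5) (nat_lit 30) (nat_lit 61) r12_30 r4_61 (nat_lit 0) (nat_lit 0) (nat_lit 0) (nat_lit 0x7e3684f97a) (nat_lit 877171464),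
  Rx.mk (nat_lit 390) (nat_lit 6) (nat_lit 0) (nat_lit 6) (nat_lit 5) (nat_lit 28) (nat_lit 63) r12_28 r4_63 (nat_lit 0) (nat_lit 0) (nat_lit 0) (nat_lit 0x7bf02e0130) (nat_lit 1993747392),
  Rx.mk (nat_lit 406) (nat_lit 6) (nat_lit 2) (nat_lit 6) (nat_lit 7) (nat_lit 29) (nat_lit 64) r12_29 r4_64 (nat_lit 0) (nat_lit 0) (nat_lit 0) (nat_lit 0x7d62493e0a) (nat_lit 1284106824),
  Rx.mk (nat_lit 410) (nat_lit 2) (nat_lit 3) (nat_lit 6) (nat_lit 7) (nat_lit 31) (nat_lit 62) r12_31 r4_62 (nat_lit 0) (nat_lit 0) (nat_lit 0) (nat_lit 0x7eac08c0c8) (nat_lit 651849120),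
  Rx.mk (nat_lit 470) (nat_lit 6) (nat_lit 2) (nat_lit 7) (nat_lit 7) (nat_lit 32) (nat_lit 60) r12_32 r4_60 (nat_lit 0) (nat_lit 0) (nat_lit 0) (nat_lit 0x7edd36edb4) (nat_lit 557550864)]
noncomputable def e54_23 : List Rx := [
  Rx.mk (nat_lit 278) (nat_lit 6) (nat_lit 2) (nat_lit 4) (nat_lit 3) (nat_lit 102) (nat_lit 272) r12_102 r6_272 (nat_lit 0) (nat_lit 0) (nat_lit 0) (nat_lit 0x7ecbf921a2) (nat_lit 590609448),
  Rx.mk (nat_lit 386) (nat_lit 2) (nat_lit 0) (nat_lit 6) (nat_lit 5) (nat_lit 105) (nat_lit 271) r12_105 r6_271 (nat_lit 0) (nat_lit 0) (nat_lit 0) (nat_lit 0x7cd666bcbe) (nat_lit 1552321368),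
  Rx.mk (nat_lit 390) (nat_lit 6) (nat_lit 0) (nat_lit 6) (nat_lit 5) (nat_lit 103) (nat_lit 270) r12_103 r6_270 (nat_lit 0) (nat_lit 0) (nat_lit 0) (nat_lit 0x7d8621e05c) (nat_lit 1215375408),
  Rx.mk (nat_lit 406) (nat_lit 6) (nat_lit 2) (nat_lit 6) (nat_lit 7) (nat_lit 104) (nat_lit 273) r12_104 r6_273 (nat_lit 0) (nat_lit 0) (nat_lit 0) (nat_lit 0x7dbc727b1c) (nat_lit 1111232304)]
noncomputable def e54_24 : List Rx := [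
  Rx.mk (nat_lit 386) (nat_lit 2) (nat_lit 0) (nat_lit 6) (nat_lit 5) (nat_lit 121) (nat_lit 202) r12_121 r7_202 (nat_lit 0) (nat_lit 0) (nat_lit 0) (nat_lit 0x7def2a4f6c) (nat_lit 1013985648),
  Rx.mk (nat_lit 390) (nat_lit 6) (nat_lit 0) (nat_lit 6) (nat_lit 5) (nat_lit 118) (nat_lit 201) r12_118 r7_201 (nat_lit 0) (nat_lit 0) (nat_lit 0) (nat_lit 0x7cf07bdb52) (nat_lit 1502310888),
  Rx.mk (nat_lit 394) (nat_lit 2) (nat_lit 1) (nat_lit 6) (nat_lit 7) (nat_lit 122) (nat_lit 204) r12_122 r7_204 (nat_lit 0) (nat_lit 0) (nat_lit 0) (nat_lit 0x7e4966ab4c) (nat_lit 840967920),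
  Rx.mk (nat_lit 398) (nat_lit 6) (nat_lit 1) (nat_lit 6) (nat_lit 7) (nat_lit 119) (nat_lit 203) r12_119 r7_203 (nat_lit 0) (nat_lit 0) (nat_lit 0) (nat_lit 0x7deb792a82) (nat_lit 1021064616),
  Rx.mk (nat_lit 406) (nat_lit 6) (nat_lit 2) (nat_lit 6) (nat_lit 7) (nat_lit 120) (nat_lit 205) r12_120 r7_205 (nat_lit 0) (nat_lit 0) (nat_lit 0) (nat_lit 0x7df2ff7216) (nat_lit 1006637112)]
noncomputable def e54_25 : List Rx := [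
  Rx.mk (nat_lit 278) (nat_lit 6) (nat_lit 2) (nat_lit 4) (nat_lit 3) (nat_lit 115) (nat_lit 58) r12_115 r7_58 (nat_lit 0) (nat_lit 0) (nat_lit 0) (nat_lit 0x7e3efef1d2) (nat_lit 860918760),
  Rx.mk (nat_lit 342) (nat_lit 6) (nat_lit 2) (nat_lit 5) (nat_lit 7) (nat_lit 116) (nat_lit 59) r12_116 r7_59 (nat_lit 0) (nat_lit 0) (nat_lit 0) (nat_lit 0x7e2750acce) (nat_lit 906324120),
  Rx.mk (nat_lit 406) (nat_lit 6) (nat_lit 2) (nat_lit 6) (nat_lit 7) (nat_lit 117) (nat_lit 60) r12_117 r7_60 (nat_lit 0) (nat_lit 0) (nat_lit 0) (nat_lit 0x7de1ad6748) (nat_lit 1039847328)]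
noncomputable def e54_26 : List Rx := [
  Rx.mk (nat_lit 278) (nat_lit 6) (nat_lit 2) (nat_lit 4) (nat_lit 3) (nat_lit 134) (nat_lit 215) r12_134 r9_215 (nat_lit 0) (nat_lit 0) (nat_lit 0) (nat_lit 0x7e7d860922) (nat_lit 741028392),
  Rx.mk (nat_lit 386) (nat_lit 2) (nat_lit 0) (nat_lit 6) (nat_lit 5) (nat_lit 137) (nat_lit 213) r12_137 r9_213 (nat_lit 0) (nat_lit 0) (nat_lit 0) (nat_lit 0x7e68347e50) (nat_lit 781904448),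
  Rx.mk (nat_lit 390) (nat_lit 6) (nat_lit 0) (nat_lit 6) (nat_lit 5) (nat_lit 135) (nat_lit 212) r12_135 r9_212 (nat_lit 0) (nat_lit 0) (nat_lit 0) (nat_lit 0x7da88f3964) (nat_lit 1149364944),
  Rx.mk (nat_lit 406) (nat_lit 6) (nat_lit 2) (nat_lit 6) (nat_lit 7) (nat_lit 136) (nat_lit 217) r12_136 r9_217 (nat_lit 0) (nat_lit 0) (nat_lit 0) (nat_lit 0x7db3658bf4) (nat_lit 1128585744),
  Rx.mk (nat_lit 410) (nat_lit 2) (nat_lit 3) (nat_lit 6) (nat_lit 7) (nat_lit 138) (nat_lit 214) r12_138 r9_214 (nat_lit 0) (nat_lit 0) (nat_lit 0) (nat_lit 0x7e84fe7194) (nat_lit 726704784),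
  Rx.mk (nat_lit 470) (nat_lit 6) (nat_lit 2) (nat_lit 7) (nat_lit 7) (nat_lit 139) (nat_lit 216) r12_139 r9_216 (nat_lit 0) (nat_lit 0) (nat_lit 0) (nat_lit 0x7e0d9168dc) (nat_lit 955691568)]
noncomputable def e54_27 : List Rx := [
  Rx.mk (nat_lit 470) (nat_lit 6) (nat_lit 2) (nat_lit 7) (nat_lit 7) (nat_lit 230) (nat_lit 265) r12_230 r10_265 (nat_lit 0) (nat_lit 0) (nat_lit 0) (nat_lit 0x7ee7b225f6) (nat_lit 537454008)]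
noncomputable def e54_28 : List Rx := [
  Rx.mk (nat_lit 119) (nat_lit 7) (nat_lit 6) (nat_lit 1) (nat_lit 7) (nat_lit 309) (nat_lit 356) r12_309 r10_356 (nat_lit 0) (nat_lit 0) (nat_lit 0) (nat_lit 0x7f0597e77c) (nat_lit 480128688)]
noncomputable def e54_29 : List Rx := [
  Rx.mk (nat_lit 35) (nat_lit 3) (nat_lit 4) (nat_lit 0) (nat_lit 1) (nat_lit 70) (nat_lit 90) r12_70 r5_90 (nat_lit 0) (nat_lit 0) (nat_lit 0) (nat_lit 0x7e042adf4e) (nat_lit 973716120),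
  Rx.mk (nat_lit 51) (nat_lit 3) (nat_lit 6) (nat_lit 0) (nat_lit 3) (nat_lit 71) (nat_lit 92) r12_71 r5_92 (nat_lit 0) (nat_lit 0) (nat_lit 0) (nat_lit 0x7f16d5b38e) (nat_lit 447070104),
  Rx.mk (nat_lit 59) (nat_lit 3) (nat_lit 7) (nat_lit 0) (nat_lit 3) (nat_lit 72) (nat_lit 91) r12_72 r5_91 (nat_lit 0) (nat_lit 0) (nat_lit 0) (nat_lit 0x7c7bbb67ce) (nat_lit 1726170264),
  Rx.mk (nat_lit 163) (nat_lit 3) (nat_lit 4) (nat_lit 2) (nat_lit 5) (nat_lit 75) (nat_lit 95) r12_75 r5_95 (nat_lit 0) (nat_lit 0) (nat_lit 0) (nat_lit 0x7dee681b90) (nat_lit 1015440192),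
  Rx.mk (nat_lit 184) (nat_lit 0) (nat_lit 7) (nat_lit 2) (nat_lit 6) (nat_lit 73) (nat_lit 89) r12_73 r5_89 (nat_lit 0) (nat_lit 0) (nat_lit 0) (nat_lit 0x7e46331e88) (nat_lit 847106208),
  Rx.mk (nat_lit 186) (nat_lit 2) (nat_lit 7) (nat_lit 2) (nat_lit 7) (nat_lit 74) (nat_lit 97) r12_74 r5_97 (nat_lit 0) (nat_lit 0) (nat_lit 0) (nat_lit 0x7e5cc7752c) (nat_lit 803812464),
  Rx.mk (nat_lit 187) (nat_lit 3) (nat_lit 7) (nat_lit 2) (nat_lit 7) (nat_lit 76) (nat_lit 96) r12_76 r5_96 (nat_lit 0) (nat_lit 0) (nat_lit 0) (nat_lit 0x7f0fa006f0) (nat_lit 460893888),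
  Rx.mk (nat_lit 227) (nat_lit 3) (nat_lit 4) (nat_lit 3) (nat_lit 5) (nat_lit 78) (nat_lit 93) r12_78 r5_93 (nat_lit 0) (nat_lit 0) (nat_lit 0) (nat_lit 0x7a93662f0a) (nat_lit 2662497864),
  Rx.mk (nat_lit 243) (nat_lit 3) (nat_lit 6) (nat_lit 3) (nat_lit 7) (nat_lit 79) (nat_lit 94) r12_79 r5_94 (nat_lit 0) (nat_lit 0) (nat_lit 0) (nat_lit 0x7e52dd53d8) (nat_lit 822822624),
  Rx.mk (nat_lit 247) (nat_lit 7) (nat_lit 6) (nat_lit 3) (nat_lit 7) (nat_lit 77) (nat_lit 88) r12_77 r5_88 (nat_lit 0) (nat_lit 0) (nat_lit 0) (nat_lit 0x7e41ba8616) (nat_lit 855679032)]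
noncomputable def e54_30 : List Rx := [
  Rx.mk (nat_lit 276) (nat_lit 4) (nat_lit 2) (nat_lit 4) (nat_lit 2) (nat_lit 140) (nat_lit 9) r12_140 r10_9 (nat_lit 0) (nat_lit 0) (nat_lit 0) (nat_lit 0x73e77d9440) (nat_lit 5937235200),
  Rx.mk (nat_lit 278) (nat_lit 6) (nat_lit 2) (nat_lit 4) (nat_lit 3) (nat_lit 141) (nat_lit 10) r12_141 r10_10 (nat_lit 0) (nat_lit 0) (nat_lit 0) (nat_lit 0x7eaac05550) (nat_lit 654308928),
  Rx.mk (nat_lit 390) (nat_lit 6) (nat_lit 0) (nat_lit 6) (nat_lit 5) (nat_lit 142) (nat_lit 16) r12_142 r10_16 (nat_lit 0) (nat_lit 0) (nat_lit 0) (nat_lit 0x7d98a2d83a) (nat_lit 1179896328),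
  Rx.mk (nat_lit 406) (nat_lit 6) (nat_lit 2) (nat_lit 6) (nat_lit 7) (nat_lit 143) (nat_lit 18) r12_143 r10_18 (nat_lit 0) (nat_lit 0) (nat_lit 0) (nat_lit 0x7e4d46ad48) (nat_lit 833537952),
  Rx.mk (nat_lit 410) (nat_lit 2) (nat_lit 3) (nat_lit 6) (nat_lit 7) (nat_lit 145) (nat_lit 15) r12_145 r10_15 (nat_lit 0) (nat_lit 0) (nat_lit 0) (nat_lit 0x7eaff8e1c2) (nat_lit 644298408),
  Rx.mk (nat_lit 414) (nat_lit 6) (nat_lit 3) (nat_lit 6) (nat_lit 7) (nat_lit 144) (nat_lit 17) r12_144 r10_17 (nat_lit 0) (nat_lit 0) (nat_lit 0) (nat_lit 0x7e4ff8222e) (nat_lit 828374040),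
  Rx.mk (nat_lit 468) (nat_lit 4) (nat_lit 2) (nat_lit 7) (nat_lit 6) (nat_lit 146) (nat_lit 11) r12_146 r10_11 (nat_lit 0) (nat_lit 0) (nat_lit 0) (nat_lit 0x7e9f0970ca) (nat_lit 676770120),
  Rx.mk (nat_lit 470) (nat_lit 6) (nat_lit 2) (nat_lit 7) (nat_lit 7) (nat_lit 147) (nat_lit 14) r12_147 r10_14 (nat_lit 0) (nat_lit 0) (nat_lit 0) (nat_lit 0x7ec4817924) (nat_lit 604927440),
  Rx.mk (nat_lit 471) (nat_lit 7) (nat_lit 2) (nat_lit 7) (nat_lit 7) (nat_lit 149) (nat_lit 12) r12_149 r10_12 (nat_lit 0) (nat_lit 0) (nat_lit 0) (nat_lit 0x7e3496186a) (nat_lit 880878024),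
  Rx.mk (nat_lit 503) (nat_lit 7) (nat_lit 6) (nat_lit 7) (nat_lit 7) (nat_lit 148) (nat_lit 13) r12_148 r10_13 (nat_lit 0) (nat_lit 0) (nat_lit 0) (nat_lit 0x7e96423d46) (nat_lit 693601272)]
noncomputable def e54_31 : List Rx := [
  Rx.mk (nat_lit 35) (nat_lit 3) (nat_lit 4) (nat_lit 0) (nat_lit 1) (nat_lit 232) (nat_lit 363) r12_232 r5_363 (nat_lit 0) (nat_lit 0) (nat_lit 0) (nat_lit 0x7b7d41d066) (nat_lit 2214099576),
  Rx.mk (nat_lit 51) (nat_lit 3) (nat_lit 6) (nat_lit 0) (nat_lit 3) (nat_lit 233) (nat_lit 365) r12_233 r5_365 (nat_lit 0) (nat_lit 0) (nat_lit 0) (nat_lit 0x7f189437a4) (nat_lit 443725776),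
  Rx.mk (nat_lit 55) (nat_lit 7) (nat_lit 6) (nat_lit 0) (nat_lit 3) (nat_lit 231) (nat_lit 366) r12_231 r5_366 (nat_lit 0) (nat_lit 0) (nat_lit 0) (nat_lit 0x7fe0d652ba) (nat_lit 59751432),
  Rx.mk (nat_lit 163) (nat_lit 3) (nat_lit 4) (nat_lit 2) (nat_lit 5) (nat_lit 234) (nat_lit 364) r12_234 r5_364 (nat_lit 0) (nat_lit 0) (nat_lit 0) (nat_lit 0x7dd76d0b58) (nat_lit 1059503328)]
noncomputable def e54_32 : List Rx := [
  Rx.mk (nat_lit 35) (nat_lit 3) (nat_lit 4) (nat_lit 0) (nat_lit 1) (nat_lit 246) (nat_lit 270) r12_246 r11_270 (nat_lit 0) (nat_lit 0) (nat_lit 0) (nat_lit 0x78fb4dd228) (nat_lit 3444977952),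
  Rx.mk (nat_lit 51) (nat_lit 3) (nat_lit 6) (nat_lit 0) (nat_lit 3) (nat_lit 247) (nat_lit 274) r12_247 r11_274 (nat_lit 0) (nat_lit 0) (nat_lit 0) (nat_lit 0x7f3052fba0) (nat_lit 398196864),
  Rx.mk (nat_lit 55) (nat_lit 7) (nat_lit 6) (nat_lit 0) (nat_lit 3) (nat_lit 245) (nat_lit 275) r12_245 r11_275 (nat_lit 0) (nat_lit 0) (nat_lit 0) (nat_lit 0x7fd8517b10) (nat_lit 76085568),
  Rx.mk (nat_lit 59) (nat_lit 3) (nat_lit 7) (nat_lit 0) (nat_lit 3) (nat_lit 248) (nat_lit 272) r12_248 r11_272 (nat_lit 0) (nat_lit 0) (nat_lit 0) (nat_lit 0x79aa5aa0ac) (nat_lit 3109337712),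
  Rx.mk (nat_lit 163) (nat_lit 3) (nat_lit 4) (nat_lit 2) (nat_lit 5) (nat_lit 249) (nat_lit 271) r12_249 r11_271 (nat_lit 0) (nat_lit 0) (nat_lit 0) (nat_lit 0x7d5ad6d538) (nat_lit 1298385504),
  Rx.mk (nat_lit 187) (nat_lit 3) (nat_lit 7) (nat_lit 2) (nat_lit 7) (nat_lit 250) (nat_lit 273) r12_250 r11_273 (nat_lit 0) (nat_lit 0) (nat_lit 0) (nat_lit 0x7f04293e68) (nat_lit 482874912),
  Rx.mk (nat_lit 247) (nat_lit 7) (nat_lit 6) (nat_lit 3) (nat_lit 7) (nat_lit 251) (nat_lit 276) r12_251 r11_276 (nat_lit 0) (nat_lit 0) (nat_lit 0) (nat_lit 0x7e9f9a27be) (nat_lit 675686232)]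
noncomputable def e54_33 : List Rx := [
  Rx.mk (nat_lit 168) (nat_lit 0) (nat_lit 5) (nat_lit 2) (nat_lit 6) (nat_lit 61) (nat_lit 89) r12_61 r0_89 (nat_lit 0) (nat_lit 0) (nat_lit 0) (nat_lit 0x75d5ae0f4a) (nat_lit 4989678408),
  Rx.mk (nat_lit 170) (nat_lit 2) (nat_lit 5) (nat_lit 2) (nat_lit 7) (nat_lit 62) (nat_lit 90) r12_62 r0_90 (nat_lit 0) (nat_lit 0) (nat_lit 0) (nat_lit 0x7ec6f5d1dc) (nat_lit 600221232)]
noncomputable def e54_34 : List Rx := [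
  Rx.mk (nat_lit 32) (nat_lit 0) (nat_lit 4) (nat_lit 0) (nat_lit 0) (nat_lit 152) (nat_lit 329) r12_152 r0_329 (nat_lit 0) (nat_lit 0) (nat_lit 0) (nat_lit 0x8000000000) (nat_lit 0),
  Rx.mk (nat_lit 33) (nat_lit 1) (nat_lit 4) (nat_lit 0) (nat_lit 1) (nat_lit 155) (nat_lit 330) r12_155 r0_330 (nat_lit 0) (nat_lit 0) (nat_lit 0) (nat_lit 0x7542556568) (nat_lit 5272199712),
  Rx.mk (nat_lit 40) (nat_lit 0) (nat_lit 5) (nat_lit 0) (nat_lit 2) (nat_lit 153) (nat_lit 334) r12_153 r0_334 (nat_lit 0) (nat_lit 0) (nat_lit 0) (nat_lit 0x7328f59d7e) (nat_lit 6302558808),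
  Rx.mk (nat_lit 41) (nat_lit 1) (nat_lit 5) (nat_lit 0) (nat_lit 3) (nat_lit 156) (nat_lit 335) r12_156 r0_335 (nat_lit 0) (nat_lit 0) (nat_lit 0) (nat_lit 0x7e0833bebc) (nat_lit 965980080),
  Rx.mk (nat_lit 48) (nat_lit 0) (nat_lit 6) (nat_lit 0) (nat_lit 2) (nat_lit 154) (nat_lit 339) r12_154 r0_339 (nat_lit 0) (nat_lit 0) (nat_lit 0) (nat_lit 0x8000000000) (nat_lit 0),
  Rx.mk (nat_lit 49) (nat_lit 1) (nat_lit 6) (nat_lit 0) (nat_lit 3) (nat_lit 157) (nat_lit 340) r12_157 r0_340 (nat_lit 0) (nat_lit 0) (nat_lit 0) (nat_lit 0x7b4610a3b0) (nat_lit 2319924672),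
  Rx.mk (nat_lit 160) (nat_lit 0) (nat_lit 4) (nat_lit 2) (nat_lit 4) (nat_lit 158) (nat_lit 331) r12_158 r0_331 (nat_lit 0) (nat_lit 0) (nat_lit 0) (nat_lit 0x6fbb66b9da) (nat_lit 7985185416),
  Rx.mk (nat_lit 161) (nat_lit 1) (nat_lit 4) (nat_lit 2) (nat_lit 5) (nat_lit 160) (nat_lit 332) r12_160 r0_332 (nat_lit 0) (nat_lit 0) (nat_lit 0) (nat_lit 0x7dd134cee2) (nat_lit 1071428904),
  Rx.mk (nat_lit 162) (nat_lit 2) (nat_lit 4) (nat_lit 2) (nat_lit 5) (nat_lit 162) (nat_lit 333) r12_162 r0_333 (nat_lit 0) (nat_lit 0) (nat_lit 0) (nat_lit 0x7ac0cd7868) (nat_lit 2575441440),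
  Rx.mk (nat_lit 168) (nat_lit 0) (nat_lit 5) (nat_lit 2) (nat_lit 6) (nat_lit 159) (nat_lit 336) r12_159 r0_336 (nat_lit 0) (nat_lit 0) (nat_lit 0) (nat_lit 0x7a9bd7e7e6) (nat_lit 2646306936),
  Rx.mk (nat_lit 169) (nat_lit 1) (nat_lit 5) (nat_lit 2) (nat_lit 7) (nat_lit 161) (nat_lit 337) r12_161 r0_337 (nat_lit 0) (nat_lit 0) (nat_lit 0) (nat_lit 0x7e78339e4e) (nat_lit 751232664),
  Rx.mk (nat_lit 170) (nat_lit 2) (nat_lit 5) (nat_lit 2) (nat_lit 7) (nat_lit 163) (nat_lit 338) r12_163 r0_338 (nat_lit 0) (nat_lit 0) (nat_lit 0) (nat_lit 0x7e24231faa) (nat_lit 912417480)]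
noncomputable def e54_35 : List Rx := [
  Rx.mk (nat_lit 40) (nat_lit 0) (nat_lit 5) (nat_lit 0) (nat_lit 2) (nat_lit 184) (nat_lit 88) r12_184 r6_88 (nat_lit 0) (nat_lit 0) (nat_lit 0) (nat_lit 0x6f2aece208) (nat_lit 8262203040),
  Rx.mk (nat_lit 41) (nat_lit 1) (nat_lit 5) (nat_lit 0) (nat_lit 3) (nat_lit 185) (nat_lit 90) r12_185 r6_90 (nat_lit 0) (nat_lit 0) (nat_lit 0) (nat_lit 0x7dece293ea) (nat_lit 1018357704),
  Rx.mk (nat_lit 168) (nat_lit 0) (nat_lit 5) (nat_lit 2) (nat_lit 6) (nat_lit 186) (nat_lit 89) r12_186 r6_89 (nat_lit 0) (nat_lit 0) (nat_lit 0) (nat_lit 0x7e3ff4227e) (nat_lit 859082328),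
  Rx.mk (nat_lit 169) (nat_lit 1) (nat_lit 5) (nat_lit 2) (nat_lit 7) (nat_lit 187) (nat_lit 91) r12_187 r6_91 (nat_lit 0) (nat_lit 0) (nat_lit 0) (nat_lit 0x7e49bf85be) (nat_lit 840302424),
  Rx.mk (nat_lit 170) (nat_lit 2) (nat_lit 5) (nat_lit 2) (nat_lit 7) (nat_lit 188) (nat_lit 92) r12_188 r6_92 (nat_lit 0) (nat_lit 0) (nat_lit 0) (nat_lit 0x7dfaf092fc) (nat_lit 991409328)]
noncomputable def e54_36 : List Rx := [
  Rx.mk (nat_lit 33) (nat_lit 1) (nat_lit 4) (nat_lit 0) (nat_lit 1) (nat_lit 276) (nat_lit 360) r12_276 r2_360 (nat_lit 0) (nat_lit 0) (nat_lit 0) (nat_lit 0x666f99dff4) (nat_lit 12548205072),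
  Rx.mk (nat_lit 41) (nat_lit 1) (nat_lit 5) (nat_lit 0) (nat_lit 3) (nat_lit 277) (nat_lit 363) r12_277 r2_363 (nat_lit 0) (nat_lit 0) (nat_lit 0) (nat_lit 0x7d42e99424) (nat_lit 1344262608),
  Rx.mk (nat_lit 49) (nat_lit 1) (nat_lit 6) (nat_lit 0) (nat_lit 3) (nat_lit 278) (nat_lit 366) r12_278 r2_366 (nat_lit 0) (nat_lit 0) (nat_lit 0) (nat_lit 0x7cf9c166f0) (nat_lit 1484533440),
  Rx.mk (nat_lit 53) (nat_lit 5) (nat_lit 6) (nat_lit 0) (nat_lit 3) (nat_lit 275) (nat_lit 367) r12_275 r2_367 (nat_lit 0) (nat_lit 0) (nat_lit 0) (nat_lit 0x7ddc2f1f32) (nat_lit 1050380136),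
  Rx.mk (nat_lit 97) (nat_lit 1) (nat_lit 4) (nat_lit 1) (nat_lit 5) (nat_lit 280) (nat_lit 361) r12_280 r2_361 (nat_lit 0) (nat_lit 0) (nat_lit 0) (nat_lit 0x749ef5bc06) (nat_lit 5585451768),
  Rx.mk (nat_lit 105) (nat_lit 1) (nat_lit 5) (nat_lit 1) (nat_lit 7) (nat_lit 281) (nat_lit 364) r12_281 r2_364 (nat_lit 0) (nat_lit 0) (nat_lit 0) (nat_lit 0x7ddceeb338) (nat_lit 1048945248),
  Rx.mk (nat_lit 113) (nat_lit 1) (nat_lit 6) (nat_lit 1) (nat_lit 7) (nat_lit 282) (nat_lit 368) r12_282 r2_368 (nat_lit 0) (nat_lit 0) (nat_lit 0) (nat_lit 0x7df79428c6) (nat_lit 997853688),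
  Rx.mk (nat_lit 117) (nat_lit 5) (nat_lit 6) (nat_lit 1) (nat_lit 7) (nat_lit 279) (nat_lit 369) r12_279 r2_369 (nat_lit 0) (nat_lit 0) (nat_lit 0) (nat_lit 0x7de974eac8) (nat_lit 1024931232),
  Rx.mk (nat_lit 161) (nat_lit 1) (nat_lit 4) (nat_lit 2) (nat_lit 5) (nat_lit 283) (nat_lit 362) r12_283 r2_362 (nat_lit 0) (nat_lit 0) (nat_lit 0) (nat_lit 0x7dc98549e2) (nat_lit 1086165288),
  Rx.mk (nat_lit 169) (nat_lit 1) (nat_lit 5) (nat_lit 2) (nat_lit 7) (nat_lit 284) (nat_lit 365) r12_284 r2_365 (nat_lit 0) (nat_lit 0) (nat_lit 0) (nat_lit 0x7deb366eae) (nat_lit 1021564440)]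
noncomputable def e54_37 : List Rx := [
  Rx.mk (nat_lit 41) (nat_lit 1) (nat_lit 5) (nat_lit 0) (nat_lit 3) (nat_lit 290) (nat_lit 324) r12_290 r8_324 (nat_lit 0) (nat_lit 0) (nat_lit 0) (nat_lit 0x7cb8761be6) (nat_lit 1609728120),
  Rx.mk (nat_lit 105) (nat_lit 1) (nat_lit 5) (nat_lit 1) (nat_lit 7) (nat_lit 291) (nat_lit 325) r12_291 r8_325 (nat_lit 0) (nat_lit 0) (nat_lit 0) (nat_lit 0x7de9664bb2) (nat_lit 1025040744),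
  Rx.mk (nat_lit 169) (nat_lit 1) (nat_lit 5) (nat_lit 2) (nat_lit 7) (nat_lit 292) (nat_lit 326) r12_292 r8_326 (nat_lit 0) (nat_lit 0) (nat_lit 0) (nat_lit 0x7dda2b3f72) (nat_lit 1054243944)]
noncomputable def e54_38 : List Rx := [
  Rx.mk (nat_lit 97) (nat_lit 1) (nat_lit 4) (nat_lit 1) (nat_lit 5) (nat_lit 287) (nat_lit 307) r12_287 r8_307 (nat_lit 0) (nat_lit 0) (nat_lit 0) (nat_lit 0x6ec70e6054) (nat_lit 8453691792),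
  Rx.mk (nat_lit 105) (nat_lit 1) (nat_lit 5) (nat_lit 1) (nat_lit 7) (nat_lit 288) (nat_lit 308) r12_288 r8_308 (nat_lit 0) (nat_lit 0) (nat_lit 0) (nat_lit 0x7dd07e9a46) (nat_lit 1072793592),
  Rx.mk (nat_lit 113) (nat_lit 1) (nat_lit 6) (nat_lit 1) (nat_lit 7) (nat_lit 289) (nat_lit 310) r12_289 r8_310 (nat_lit 0) (nat_lit 0) (nat_lit 0) (nat_lit 0x7dbce773cc) (nat_lit 1110356208),
  Rx.mk (nat_lit 117) (nat_lit 5) (nat_lit 6) (nat_lit 1) (nat_lit 7) (nat_lit 286) (nat_lit 309) r12_286 r8_309 (nat_lit 0) (nat_lit 0) (nat_lit 0) (nat_lit 0x7ddc31bf08) (nat_lit 1050360480)]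
noncomputable def e54_39 : List Rx := [
  Rx.mk (nat_lit 33) (nat_lit 1) (nat_lit 4) (nat_lit 0) (nat_lit 1) (nat_lit 164) (nat_lit 310) r12_164 r1_310 (nat_lit 0) (nat_lit 0) (nat_lit 0) (nat_lit 0x776b6e91ac) (nat_lit 4211691120),
  Rx.mk (nat_lit 41) (nat_lit 1) (nat_lit 5) (nat_lit 0) (nat_lit 3) (nat_lit 165) (nat_lit 312) r12_165 r1_312 (nat_lit 0) (nat_lit 0) (nat_lit 0) (nat_lit 0x7da1e863d8) (nat_lit 1162118880),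
  Rx.mk (nat_lit 49) (nat_lit 1) (nat_lit 6) (nat_lit 0) (nat_lit 3) (nat_lit 166) (nat_lit 314) r12_166 r1_314 (nat_lit 0) (nat_lit 0) (nat_lit 0) (nat_lit 0x7decb6b6a8) (nat_lit 1018686240),
  Rx.mk (nat_lit 161) (nat_lit 1) (nat_lit 4) (nat_lit 2) (nat_lit 5) (nat_lit 167) (nat_lit 311) r12_167 r1_311 (nat_lit 0) (nat_lit 0) (nat_lit 0) (nat_lit 0x7e69f1827e) (nat_lit 778571352),
  Rx.mk (nat_lit 169) (nat_lit 1) (nat_lit 5) (nat_lit 2) (nat_lit 7) (nat_lit 168) (nat_lit 313) r12_168 r1_313 (nat_lit 0) (nat_lit 0) (nat_lit 0) (nat_lit 0x7db533cf0e) (nat_lit 1125123480)]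
noncomputable def e54_40 : List Rx := [
  Rx.mk (nat_lit 41) (nat_lit 1) (nat_lit 5) (nat_lit 0) (nat_lit 3) (nat_lit 189) (nat_lit 74) r12_189 r7_74 (nat_lit 0) (nat_lit 0) (nat_lit 0) (nat_lit 0x7dea1aa06c) (nat_lit 1023690096),
  Rx.mk (nat_lit 169) (nat_lit 1) (nat_lit 5) (nat_lit 2) (nat_lit 7) (nat_lit 190) (nat_lit 75) r12_190 r7_75 (nat_lit 0) (nat_lit 0) (nat_lit 0) (nat_lit 0x7e3b884940) (nat_lit 867559680)]
noncomputable def e54_41 : List Rx := [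
  Rx.mk (nat_lit 138) (nat_lit 2) (nat_lit 1) (nat_lit 2) (nat_lit 7) (nat_lit 65) (nat_lit 93) r12_65 r1_93 (nat_lit 0) (nat_lit 0) (nat_lit 0) (nat_lit 0x7e7f436d4a) (nat_lit 737692488),
  Rx.mk (nat_lit 168) (nat_lit 0) (nat_lit 5) (nat_lit 2) (nat_lit 6) (nat_lit 63) (nat_lit 91) r12_63 r1_91 (nat_lit 0) (nat_lit 0) (nat_lit 0) (nat_lit 0x7a1ced3710) (nat_lit 2889656640),
  Rx.mk (nat_lit 170) (nat_lit 2) (nat_lit 5) (nat_lit 2) (nat_lit 7) (nat_lit 64) (nat_lit 92) r12_64 r1_92 (nat_lit 0) (nat_lit 0) (nat_lit 0) (nat_lit 0x7adb1c5360) (nat_lit 2524998528)]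
noncomputable def e54_42 : List Rx := [
  Rx.mk (nat_lit 138) (nat_lit 2) (nat_lit 1) (nat_lit 2) (nat_lit 7) (nat_lit 15) (nat_lit 97) r12_15 r2_97 (nat_lit 0) (nat_lit 0) (nat_lit 0) (nat_lit 0x7e3bb246a0) (nat_lit 867245184),
  Rx.mk (nat_lit 394) (nat_lit 2) (nat_lit 1) (nat_lit 6) (nat_lit 7) (nat_lit 14) (nat_lit 96) r12_14 r2_96 (nat_lit 0) (nat_lit 0) (nat_lit 0) (nat_lit 0x7df79428c6) (nat_lit 997853688)]
noncomputable def e54_43 : List Rx := [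
  Rx.mk (nat_lit 40) (nat_lit 0) (nat_lit 5) (nat_lit 0) (nat_lit 2) (nat_lit 191) (nat_lit 362) r12_191 r7_362 (nat_lit 0) (nat_lit 0) (nat_lit 0) (nat_lit 0x6335d77f54) (nat_lit 14131512720),
  Rx.mk (nat_lit 41) (nat_lit 1) (nat_lit 5) (nat_lit 0) (nat_lit 3) (nat_lit 192) (nat_lit 363) r12_192 r7_363 (nat_lit 0) (nat_lit 0) (nat_lit 0) (nat_lit 0x7da6297fc2) (nat_lit 1153961640),
  Rx.mk (nat_lit 138) (nat_lit 2) (nat_lit 1) (nat_lit 2) (nat_lit 7) (nat_lit 196) (nat_lit 361) r12_196 r7_361 (nat_lit 0) (nat_lit 0) (nat_lit 0) (nat_lit 0x7dd7808a20) (nat_lit 1059357312),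
  Rx.mk (nat_lit 168) (nat_lit 0) (nat_lit 5) (nat_lit 2) (nat_lit 6) (nat_lit 193) (nat_lit 364) r12_193 r7_364 (nat_lit 0) (nat_lit 0) (nat_lit 0) (nat_lit 0x7c2c753c80) (nat_lit 1878170112),
  Rx.mk (nat_lit 169) (nat_lit 1) (nat_lit 5) (nat_lit 2) (nat_lit 7) (nat_lit 194) (nat_lit 365) r12_194 r7_365 (nat_lit 0) (nat_lit 0) (nat_lit 0) (nat_lit 0x7ddfee8338) (nat_lit 1043194464),
  Rx.mk (nat_lit 170) (nat_lit 2) (nat_lit 5) (nat_lit 2) (nat_lit 7) (nat_lit 195) (nat_lit 366) r12_195 r7_366 (nat_lit 0) (nat_lit 0) (nat_lit 0) (nat_lit 0x7dad63ac18) (nat_lit 1140104160)]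
noncomputable def e54_44 : List Rx := [
  Rx.mk (nat_lit 138) (nat_lit 2) (nat_lit 1) (nat_lit 2) (nat_lit 7) (nat_lit 151) (nat_lit 64) r12_151 r8_64 (nat_lit 0) (nat_lit 0) (nat_lit 0) (nat_lit 0x7deb738adc) (nat_lit 1021106736),
  Rx.mk (nat_lit 394) (nat_lit 2) (nat_lit 1) (nat_lit 6) (nat_lit 7) (nat_lit 150) (nat_lit 63) r12_150 r8_63 (nat_lit 0) (nat_lit 0) (nat_lit 0) (nat_lit 0x7df198a884) (nat_lit 1009324368)]
noncomputable def e54_45 : List Rx := [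
  Rx.mk (nat_lit 394) (nat_lit 2) (nat_lit 1) (nat_lit 6) (nat_lit 7) (nat_lit 123) (nat_lit 18) r12_123 r8_18 (nat_lit 0) (nat_lit 0) (nat_lit 0) (nat_lit 0x7ded19507e) (nat_lit 1017947736)]
noncomputable def e54_46 : List Rx := [
  Rx.mk (nat_lit 43) (nat_lit 3) (nat_lit 5) (nat_lit 0) (nat_lit 3) (nat_lit 66) (nat_lit 90) r12_66 r4_90 (nat_lit 0) (nat_lit 0) (nat_lit 0) (nat_lit 0x7f16fd1118) (nat_lit 446775264),
  Rx.mk (nat_lit 168) (nat_lit 0) (nat_lit 5) (nat_lit 2) (nat_lit 6) (nat_lit 67) (nat_lit 89) r12_67 r4_89 (nat_lit 0) (nat_lit 0) (nat_lit 0) (nat_lit 0x7e028ed910) (nat_lit 976802112),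
  Rx.mk (nat_lit 170) (nat_lit 2) (nat_lit 5) (nat_lit 2) (nat_lit 7) (nat_lit 68) (nat_lit 92) r12_68 r4_92 (nat_lit 0) (nat_lit 0) (nat_lit 0) (nat_lit 0x7e502f9eb6) (nat_lit 827958456),
  Rx.mk (nat_lit 171) (nat_lit 3) (nat_lit 5) (nat_lit 2) (nat_lit 7) (nat_lit 69) (nat_lit 91) r12_69 r4_91 (nat_lit 0) (nat_lit 0) (nat_lit 0) (nat_lit 0x7eff7569aa) (nat_lit 491891400)]
noncomputable def e54_47 : List Rx := [
  Rx.mk (nat_lit 32) (nat_lit 0) (nat_lit 4) (nat_lit 0) (nat_lit 0) (nat_lit 169) (nat_lit 366) r12_169 r4_366 (nat_lit 0) (nat_lit 0) (nat_lit 0) (nat_lit 0x656168c414) (nat_lit 13066269840),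
  Rx.mk (nat_lit 33) (nat_lit 1) (nat_lit 4) (nat_lit 0) (nat_lit 1) (nat_lit 172) (nat_lit 367) r12_172 r4_367 (nat_lit 0) (nat_lit 0) (nat_lit 0) (nat_lit 0x70f7fe6f22) (nat_lit 7378151976),
  Rx.mk (nat_lit 35) (nat_lit 3) (nat_lit 4) (nat_lit 0) (nat_lit 1) (nat_lit 174) (nat_lit 368) r12_174 r4_368 (nat_lit 0) (nat_lit 0) (nat_lit 0) (nat_lit 0x754ac05eb0) (nat_lit 5256059328),
  Rx.mk (nat_lit 40) (nat_lit 0) (nat_lit 5) (nat_lit 0) (nat_lit 2) (nat_lit 170) (nat_lit 373) r12_170 r4_373 (nat_lit 0) (nat_lit 0) (nat_lit 0) (nat_lit 0x7171c2f260) (nat_lit 7144675200),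
  Rx.mk (nat_lit 43) (nat_lit 3) (nat_lit 5) (nat_lit 0) (nat_lit 3) (nat_lit 175) (nat_lit 374) r12_175 r4_374 (nat_lit 0) (nat_lit 0) (nat_lit 0) (nat_lit 0x7d15e364b4) (nat_lit 1430591760),
  Rx.mk (nat_lit 48) (nat_lit 0) (nat_lit 6) (nat_lit 0) (nat_lit 2) (nat_lit 171) (nat_lit 378) r12_171 r4_378 (nat_lit 0) (nat_lit 0) (nat_lit 0) (nat_lit 0x6e2f0d2100) (nat_lit 8745145344),
  Rx.mk (nat_lit 49) (nat_lit 1) (nat_lit 6) (nat_lit 0) (nat_lit 3) (nat_lit 173) (nat_lit 379) r12_173 r4_379 (nat_lit 0) (nat_lit 0) (nat_lit 0) (nat_lit 0x7dad2f8f5a) (nat_lit 1140494472),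
  Rx.mk (nat_lit 51) (nat_lit 3) (nat_lit 6) (nat_lit 0) (nat_lit 3) (nat_lit 176) (nat_lit 380) r12_176 r4_380 (nat_lit 0) (nat_lit 0) (nat_lit 0) (nat_lit 0x7e2ee053cc) (nat_lit 891826416),
  Rx.mk (nat_lit 160) (nat_lit 0) (nat_lit 4) (nat_lit 2) (nat_lit 4) (nat_lit 177) (nat_lit 369) r12_177 r4_369 (nat_lit 0) (nat_lit 0) (nat_lit 0) (nat_lit 0x6fa2424c3a) (nat_lit 8033393160),
  Rx.mk (nat_lit 161) (nat_lit 1) (nat_lit 4) (nat_lit 2) (nat_lit 5) (nat_lit 179) (nat_lit 370) r12_179 r4_370 (nat_lit 0) (nat_lit 0) (nat_lit 0) (nat_lit 0x7e34af96d2) (nat_lit 880687080),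
  Rx.mk (nat_lit 162) (nat_lit 2) (nat_lit 4) (nat_lit 2) (nat_lit 5) (nat_lit 180) (nat_lit 372) r12_180 r4_372 (nat_lit 0) (nat_lit 0) (nat_lit 0) (nat_lit 0x7d88ecd3aa) (nat_lit 1210020552),
  Rx.mk (nat_lit 163) (nat_lit 3) (nat_lit 4) (nat_lit 2) (nat_lit 5) (nat_lit 182) (nat_lit 371) r12_182 r4_371 (nat_lit 0) (nat_lit 0) (nat_lit 0) (nat_lit 0x7e20a9174e) (nat_lit 919083672),
  Rx.mk (nat_lit 168) (nat_lit 0) (nat_lit 5) (nat_lit 2) (nat_lit 6) (nat_lit 178) (nat_lit 375) r12_178 r4_375 (nat_lit 0) (nat_lit 0) (nat_lit 0) (nat_lit 0x7dd9dfe428) (nat_lit 1054808352),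
  Rx.mk (nat_lit 170) (nat_lit 2) (nat_lit 5) (nat_lit 2) (nat_lit 7) (nat_lit 181) (nat_lit 377) r12_181 r4_377 (nat_lit 0) (nat_lit 0) (nat_lit 0) (nat_lit 0x7e0fdfe3f2) (nat_lit 951268968),
  Rx.mk (nat_lit 171) (nat_lit 3) (nat_lit 5) (nat_lit 2) (nat_lit 7) (nat_lit 183) (nat_lit 376) r12_183 r4_376 (nat_lit 0) (nat_lit 0) (nat_lit 0) (nat_lit 0x7e4606e14c) (nat_lit 847437552)]
noncomputable def e54_48 : List Rx := [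
  Rx.mk (nat_lit 40) (nat_lit 0) (nat_lit 5) (nat_lit 0) (nat_lit 2) (nat_lit 197) (nat_lit 72) r12_197 r9_72 (nat_lit 0) (nat_lit 0) (nat_lit 0) (nat_lit 0x6f5f417c8a) (nat_lit 8161864776),
  Rx.mk (nat_lit 43) (nat_lit 3) (nat_lit 5) (nat_lit 0) (nat_lit 3) (nat_lit 198) (nat_lit 74) r12_198 r9_74 (nat_lit 0) (nat_lit 0) (nat_lit 0) (nat_lit 0x7d55b82728) (nat_lit 1308202272),
  Rx.mk (nat_lit 168) (nat_lit 0) (nat_lit 5) (nat_lit 2) (nat_lit 6) (nat_lit 199) (nat_lit 73) r12_199 r9_73 (nat_lit 0) (nat_lit 0) (nat_lit 0) (nat_lit 0x7e5a08811e) (nat_lit 809077464),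
  Rx.mk (nat_lit 170) (nat_lit 2) (nat_lit 5) (nat_lit 2) (nat_lit 7) (nat_lit 200) (nat_lit 76) r12_200 r9_76 (nat_lit 0) (nat_lit 0) (nat_lit 0) (nat_lit 0x7dd2da9484) (nat_lit 1068269904),
  Rx.mk (nat_lit 171) (nat_lit 3) (nat_lit 5) (nat_lit 2) (nat_lit 7) (nat_lit 201) (nat_lit 75) r12_201 r9_75 (nat_lit 0) (nat_lit 0) (nat_lit 0) (nat_lit 0x7e4050bcb4) (nat_lit 858388752)]
noncomputable def e54_49 : List Rx := [
  Rx.mk (nat_lit 32) (nat_lit 0) (nat_lit 4) (nat_lit 0) (nat_lit 0) (nat_lit 202) (nat_lit 68) r12_202 r10_68 (nat_lit 0) (nat_lit 0) (nat_lit 0) (nat_lit 0x4f8256cb14) (nat_lit 23801905296),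
  Rx.mk (nat_lit 33) (nat_lit 1) (nat_lit 4) (nat_lit 0) (nat_lit 1) (nat_lit 206) (nat_lit 75) r12_206 r10_75 (nat_lit 0) (nat_lit 0) (nat_lit 0) (nat_lit 0x762668e34c) (nat_lit 4834887408),
  Rx.mk (nat_lit 35) (nat_lit 3) (nat_lit 4) (nat_lit 0) (nat_lit 1) (nat_lit 209) (nat_lit 80) r12_209 r10_80 (nat_lit 0) (nat_lit 0) (nat_lit 0) (nat_lit 0x76d6a79eb0) (nat_lit 4496955840),
  Rx.mk (nat_lit 40) (nat_lit 0) (nat_lit 5) (nat_lit 0) (nat_lit 2) (nat_lit 203) (nat_lit 69) r12_203 r10_69 (nat_lit 0) (nat_lit 0) (nat_lit 0) (nat_lit 0x77191ff6e8) (nat_lit 4369506336),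
  Rx.mk (nat_lit 43) (nat_lit 3) (nat_lit 5) (nat_lit 0) (nat_lit 3) (nat_lit 210) (nat_lit 81) r12_210 r10_81 (nat_lit 0) (nat_lit 0) (nat_lit 0) (nat_lit 0x7dd00b217e) (nat_lit 1073658456),
  Rx.mk (nat_lit 48) (nat_lit 0) (nat_lit 6) (nat_lit 0) (nat_lit 2) (nat_lit 204) (nat_lit 71) r12_204 r10_71 (nat_lit 0) (nat_lit 0) (nat_lit 0) (nat_lit 0x71d4c381f4) (nat_lit 6954848784),
  Rx.mk (nat_lit 49) (nat_lit 1) (nat_lit 6) (nat_lit 0) (nat_lit 3) (nat_lit 207) (nat_lit 77) r12_207 r10_77 (nat_lit 0) (nat_lit 0) (nat_lit 0) (nat_lit 0x7de5630bea) (nat_lit 1032734664),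
  Rx.mk (nat_lit 51) (nat_lit 3) (nat_lit 6) (nat_lit 0) (nat_lit 3) (nat_lit 211) (nat_lit 82) r12_211 r10_82 (nat_lit 0) (nat_lit 0) (nat_lit 0) (nat_lit 0x7dc3830a0c) (nat_lit 1097686512),
  Rx.mk (nat_lit 56) (nat_lit 0) (nat_lit 7) (nat_lit 0) (nat_lit 2) (nat_lit 205) (nat_lit 70) r12_205 r10_70 (nat_lit 0) (nat_lit 0) (nat_lit 0) (nat_lit 0x749a460706) (nat_lit 5594437368),
  Rx.mk (nat_lit 57) (nat_lit 1) (nat_lit 7) (nat_lit 0) (nat_lit 3) (nat_lit 208) (nat_lit 76) r12_208 r10_76 (nat_lit 0) (nat_lit 0) (nat_lit 0) (nat_lit 0x7df4fc9242) (nat_lit 1002823848),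
  Rx.mk (nat_lit 160) (nat_lit 0) (nat_lit 4) (nat_lit 2) (nat_lit 4) (nat_lit 212) (nat_lit 72) r12_212 r10_72 (nat_lit 0) (nat_lit 0) (nat_lit 0) (nat_lit 0x6f899876f0) (nat_lit 8080682688),
  Rx.mk (nat_lit 161) (nat_lit 1) (nat_lit 4) (nat_lit 2) (nat_lit 5) (nat_lit 215) (nat_lit 78) r12_215 r10_78 (nat_lit 0) (nat_lit 0) (nat_lit 0) (nat_lit 0x7e21a6277c) (nat_lit 917188272),
  Rx.mk (nat_lit 162) (nat_lit 2) (nat_lit 4) (nat_lit 2) (nat_lit 5) (nat_lit 217) (nat_lit 88) r12_217 r10_88 (nat_lit 0) (nat_lit 0) (nat_lit 0) (nat_lit 0x7d77f5e32a) (nat_lit 1242548424),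
  Rx.mk (nat_lit 163) (nat_lit 3) (nat_lit 4) (nat_lit 2) (nat_lit 5) (nat_lit 220) (nat_lit 86) r12_220 r10_86 (nat_lit 0) (nat_lit 0) (nat_lit 0) (nat_lit 0x7e1455dc8e) (nat_lit 942715800),
  Rx.mk (nat_lit 168) (nat_lit 0) (nat_lit 5) (nat_lit 2) (nat_lit 6) (nat_lit 213) (nat_lit 73) r12_213 r10_73 (nat_lit 0) (nat_lit 0) (nat_lit 0) (nat_lit 0x7dc0395eaa) (nat_lit 1103990472),
  Rx.mk (nat_lit 170) (nat_lit 2) (nat_lit 5) (nat_lit 2) (nat_lit 7) (nat_lit 218) (nat_lit 89) r12_218 r10_89 (nat_lit 0) (nat_lit 0) (nat_lit 0) (nat_lit 0x7df35c0c4c) (nat_lit 1005943536),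
  Rx.mk (nat_lit 171) (nat_lit 3) (nat_lit 5) (nat_lit 2) (nat_lit 7) (nat_lit 221) (nat_lit 87) r12_221 r10_87 (nat_lit 0) (nat_lit 0) (nat_lit 0) (nat_lit 0x7df712d0dc) (nat_lit 998822448),
  Rx.mk (nat_lit 184) (nat_lit 0) (nat_lit 7) (nat_lit 2) (nat_lit 6) (nat_lit 214) (nat_lit 74) r12_214 r10_74 (nat_lit 0) (nat_lit 0) (nat_lit 0) (nat_lit 0x7df140ee00) (nat_lit 1009981440),
  Rx.mk (nat_lit 185) (nat_lit 1) (nat_lit 7) (nat_lit 2) (nat_lit 7) (nat_lit 216) (nat_lit 79) r12_216 r10_79 (nat_lit 0) (nat_lit 0) (nat_lit 0) (nat_lit 0x7df9596c70) (nat_lit 994458816),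
  Rx.mk (nat_lit 186) (nat_lit 2) (nat_lit 7) (nat_lit 2) (nat_lit 7) (nat_lit 219) (nat_lit 90) r12_219 r10_90 (nat_lit 0) (nat_lit 0) (nat_lit 0) (nat_lit 0x7df79428c6) (nat_lit 997853688),
  Rx.mk (nat_lit 227) (nat_lit 3) (nat_lit 4) (nat_lit 3) (nat_lit 5) (nat_lit 222) (nat_lit 83) r12_222 r10_83 (nat_lit 0) (nat_lit 0) (nat_lit 0) (nat_lit 0x7d8a287fee) (nat_lit 1207656216),
  Rx.mk (nat_lit 235) (nat_lit 3) (nat_lit 5) (nat_lit 3) (nat_lit 7) (nat_lit 223) (nat_lit 84) r12_223 r10_84 (nat_lit 0) (nat_lit 0) (nat_lit 0) (nat_lit 0x7ddcad774c) (nat_lit 1049433840),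
  Rx.mk (nat_lit 243) (nat_lit 3) (nat_lit 6) (nat_lit 3) (nat_lit 7) (nat_lit 224) (nat_lit 85) r12_224 r10_85 (nat_lit 0) (nat_lit 0) (nat_lit 0) (nat_lit 0x7ddf540ce0) (nat_lit 1044351360)]
noncomputable def e54_50 : List Rx := [
  Rx.mk (nat_lit 43) (nat_lit 3) (nat_lit 5) (nat_lit 0) (nat_lit 3) (nat_lit 240) (nat_lit 366) r12_240 r10_366 (nat_lit 0) (nat_lit 0) (nat_lit 0) (nat_lit 0x7e373cadfe) (nat_lit 875795544),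
  Rx.mk (nat_lit 171) (nat_lit 3) (nat_lit 5) (nat_lit 2) (nat_lit 7) (nat_lit 241) (nat_lit 367) r12_241 r10_367 (nat_lit 0) (nat_lit 0) (nat_lit 0) (nat_lit 0x7ee6adf63a) (nat_lit 539402760)]
noncomputable def e54_51 : List Rx := [
  Rx.mk (nat_lit 52) (nat_lit 4) (nat_lit 6) (nat_lit 0) (nat_lit 2) (nat_lit 310) (nat_lit 235) r12_310 r12_235 (nat_lit 0) (nat_lit 0) (nat_lit 0) (nat_lit 0x8000000000) (nat_lit 0),
  Rx.mk (nat_lit 55) (nat_lit 7) (nat_lit 6) (nat_lit 0) (nat_lit 3) (nat_lit 311) (nat_lit 238) r12_311 r12_238 (nat_lit 0) (nat_lit 0) (nat_lit 0) (nat_lit 0x7f220180c6) (nat_lit 425650680),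
  Rx.mk (nat_lit 116) (nat_lit 4) (nat_lit 6) (nat_lit 1) (nat_lit 6) (nat_lit 312) (nat_lit 236) r12_312 r12_236 (nat_lit 0) (nat_lit 0) (nat_lit 0) (nat_lit 0x7d6cf2f364) (nat_lit 1263661776),
  Rx.mk (nat_lit 119) (nat_lit 7) (nat_lit 6) (nat_lit 1) (nat_lit 7) (nat_lit 313) (nat_lit 239) r12_313 r12_239 (nat_lit 0) (nat_lit 0) (nat_lit 0) (nat_lit 0x7e9736adfe) (nat_lit 691770456),
  Rx.mk (nat_lit 244) (nat_lit 4) (nat_lit 6) (nat_lit 3) (nat_lit 6) (nat_lit 314) (nat_lit 237) r12_314 r12_237 (nat_lit 0) (nat_lit 0) (nat_lit 0) (nat_lit 0x7f2c8cd806) (nat_lit 405433080)]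
noncomputable def e54_52 : List Rx := [
  Rx.mk (nat_lit 244) (nat_lit 4) (nat_lit 6) (nat_lit 3) (nat_lit 6) (nat_lit 228) (nat_lit 226) r12_228 r12_226 (nat_lit 0) (nat_lit 0) (nat_lit 0) (nat_lit 0x7ccfdde552) (nat_lit 1564850664),
  Rx.mk (nat_lit 247) (nat_lit 7) (nat_lit 6) (nat_lit 3) (nat_lit 7) (nat_lit 229) (nat_lit 227) r12_229 r12_227 (nat_lit 0) (nat_lit 0) (nat_lit 0) (nat_lit 0x7eb01cdf82) (nat_lit 644028840),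
  Rx.mk (nat_lit 468) (nat_lit 4) (nat_lit 2) (nat_lit 7) (nat_lit 6) (nat_lit 226) (nat_lit 228) r12_226 r12_228 (nat_lit 0) (nat_lit 0) (nat_lit 0) (nat_lit 0x7ccfdde552) (nat_lit 1564850664),
  Rx.mk (nat_lit 470) (nat_lit 6) (nat_lit 2) (nat_lit 7) (nat_lit 7) (nat_lit 227) (nat_lit 229) r12_227 r12_229 (nat_lit 0) (nat_lit 0) (nat_lit 0) (nat_lit 0x7eb01cdf82) (nat_lit 644028840),
  Rx.mk (nat_lit 500) (nat_lit 4) (nat_lit 6) (nat_lit 7) (nat_lit 6) (nat_lit 225) (nat_lit 225) r12_225 r12_225 (nat_lit 0) (nat_lit 0) (nat_lit 0) (nat_lit 0x8000000000) (nat_lit 0)]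
noncomputable def e54_53 : List Rx := [
  Rx.mk (nat_lit 55) (nat_lit 7) (nat_lit 6) (nat_lit 0) (nat_lit 3) (nat_lit 302) (nat_lit 302) r12_302 r12_302 (nat_lit 0) (nat_lit 0) (nat_lit 0) (nat_lit 0x7ea302313a) (nat_lit 669154824),
  Rx.mk (nat_lit 119) (nat_lit 7) (nat_lit 6) (nat_lit 1) (nat_lit 7) (nat_lit 303) (nat_lit 303) r12_303 r12_303 (nat_lit 0) (nat_lit 0) (nat_lit 0) (nat_lit 0x7e78753a34) (nat_lit 750741264)]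
noncomputable def e54_54 : List Rx := [
  Rx.mk (nat_lit 59) (nat_lit 3) (nat_lit 7) (nat_lit 0) (nat_lit 3) (nat_lit 43) (nat_lit 34) r12_43 r12_34 (nat_lit 0) (nat_lit 0) (nat_lit 0) (nat_lit 0x8000000000) (nat_lit 0),
  Rx.mk (nat_lit 154) (nat_lit 2) (nat_lit 3) (nat_lit 2) (nat_lit 7) (nat_lit 46) (nat_lit 41) r12_46 r12_41 (nat_lit 0) (nat_lit 0) (nat_lit 0) (nat_lit 0x703c5c69fe) (nat_lit 7737918552),
  Rx.mk (nat_lit 184) (nat_lit 0) (nat_lit 7) (nat_lit 2) (nat_lit 6) (nat_lit 44) (nat_lit 39) r12_44 r12_39 (nat_lit 0) (nat_lit 0) (nat_lit 0) (nat_lit 0x7370c2a066) (nat_lit 6164888184),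
  Rx.mk (nat_lit 186) (nat_lit 2) (nat_lit 7) (nat_lit 2) (nat_lit 7) (nat_lit 45) (nat_lit 42) r12_45 r12_42 (nat_lit 0) (nat_lit 0) (nat_lit 0) (nat_lit 0x7ebad653e0) (nat_lit 623465856),
  Rx.mk (nat_lit 187) (nat_lit 3) (nat_lit 7) (nat_lit 2) (nat_lit 7) (nat_lit 47) (nat_lit 40) r12_47 r12_40 (nat_lit 0) (nat_lit 0) (nat_lit 0) (nat_lit 0x7fd4d5f2cc) (nat_lit 82762992),
  Rx.mk (nat_lit 227) (nat_lit 3) (nat_lit 4) (nat_lit 3) (nat_lit 5) (nat_lit 49) (nat_lit 35) r12_49 r12_35 (nat_lit 0) (nat_lit 0) (nat_lit 0) (nat_lit 0x77d2f95898) (nat_lit 4013159904),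
  Rx.mk (nat_lit 243) (nat_lit 3) (nat_lit 6) (nat_lit 3) (nat_lit 7) (nat_lit 50) (nat_lit 37) r12_50 r12_37 (nat_lit 0) (nat_lit 0) (nat_lit 0) (nat_lit 0x7e72f2126c) (nat_lit 761310576),
  Rx.mk (nat_lit 247) (nat_lit 7) (nat_lit 6) (nat_lit 3) (nat_lit 7) (nat_lit 48) (nat_lit 38) r12_48 r12_38 (nat_lit 0) (nat_lit 0) (nat_lit 0) (nat_lit 0x7769843054) (nat_lit 4215363984),
  Rx.mk (nat_lit 251) (nat_lit 3) (nat_lit 7) (nat_lit 3) (nat_lit 7) (nat_lit 51) (nat_lit 36) r12_51 r12_36 (nat_lit 0) (nat_lit 0) (nat_lit 0) (nat_lit 0x74dca9608e) (nat_lit 5467145112),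
  Rx.mk (nat_lit 278) (nat_lit 6) (nat_lit 2) (nat_lit 4) (nat_lit 3) (nat_lit 34) (nat_lit 43) r12_34 r12_43 (nat_lit 0) (nat_lit 0) (nat_lit 0) (nat_lit 0x8000000000) (nat_lit 0),
  Rx.mk (nat_lit 390) (nat_lit 6) (nat_lit 0) (nat_lit 6) (nat_lit 5) (nat_lit 35) (nat_lit 49) r12_35 r12_49 (nat_lit 0) (nat_lit 0) (nat_lit 0) (nat_lit 0x77d2f95898) (nat_lit 4013159904),
  Rx.mk (nat_lit 406) (nat_lit 6) (nat_lit 2) (nat_lit 6) (nat_lit 7) (nat_lit 36) (nat_lit 51) r12_36 r12_51 (nat_lit 0) (nat_lit 0) (nat_lit 0) (nat_lit 0x74dca9608e) (nat_lit 5467145112),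
  Rx.mk (nat_lit 410) (nat_lit 2) (nat_lit 3) (nat_lit 6) (nat_lit 7) (nat_lit 38) (nat_lit 48) r12_38 r12_48 (nat_lit 0) (nat_lit 0) (nat_lit 0) (nat_lit 0x7769843054) (nat_lit 4215363984),
  Rx.mk (nat_lit 414) (nat_lit 6) (nat_lit 3) (nat_lit 6) (nat_lit 7) (nat_lit 37) (nat_lit 50) r12_37 r12_50 (nat_lit 0) (nat_lit 0) (nat_lit 0) (nat_lit 0x7e72f2126c) (nat_lit 761310576),
  Rx.mk (nat_lit 468) (nat_lit 4) (nat_lit 2) (nat_lit 7) (nat_lit 6) (nat_lit 39) (nat_lit 44) r12_39 r12_44 (nat_lit 0) (nat_lit 0) (nat_lit 0) (nat_lit 0x7370c2a066) (nat_lit 6164888184),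
  Rx.mk (nat_lit 470) (nat_lit 6) (nat_lit 2) (nat_lit 7) (nat_lit 7) (nat_lit 40) (nat_lit 47) r12_40 r12_47 (nat_lit 0) (nat_lit 0) (nat_lit 0) (nat_lit 0x7fd4d5f2cc) (nat_lit 82762992),
  Rx.mk (nat_lit 471) (nat_lit 7) (nat_lit 2) (nat_lit 7) (nat_lit 7) (nat_lit 42) (nat_lit 45) r12_42 r12_45 (nat_lit 0) (nat_lit 0) (nat_lit 0) (nat_lit 0x7ebad653e0) (nat_lit 623465856),
  Rx.mk (nat_lit 503) (nat_lit 7) (nat_lit 6) (nat_lit 7) (nat_lit 7) (nat_lit 41) (nat_lit 46) r12_41 r12_46 (nat_lit 0) (nat_lit 0) (nat_lit 0) (nat_lit 0x703c5c69fe) (nat_lit 7737918552)]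
noncomputable def e54_55 : List Rx := [
  Rx.mk (nat_lit 35) (nat_lit 3) (nat_lit 4) (nat_lit 0) (nat_lit 1) (nat_lit 52) (nat_lit 353) r12_52 r3_353 (nat_lit 0) (nat_lit 0) (nat_lit 0) (nat_lit 0x8000000000) (nat_lit 0),
  Rx.mk (nat_lit 43) (nat_lit 3) (nat_lit 5) (nat_lit 0) (nat_lit 3) (nat_lit 53) (nat_lit 82) r12_53 r3_82 (nat_lit 0) (nat_lit 0) (nat_lit 0) (nat_lit 0x7eb04a3cac) (nat_lit 643689072),
  Rx.mk (nat_lit 51) (nat_lit 3) (nat_lit 6) (nat_lit 0) (nat_lit 3) (nat_lit 54) (nat_lit 83) r12_54 r3_83 (nat_lit 0) (nat_lit 0) (nat_lit 0) (nat_lit 0x7fc30d0f6c) (nat_lit 116863344),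
  Rx.mk (nat_lit 160) (nat_lit 0) (nat_lit 4) (nat_lit 2) (nat_lit 4) (nat_lit 55) (nat_lit 80) r12_55 r3_80 (nat_lit 0) (nat_lit 0) (nat_lit 0) (nat_lit 0x8000000000) (nat_lit 0),
  Rx.mk (nat_lit 162) (nat_lit 2) (nat_lit 4) (nat_lit 2) (nat_lit 5) (nat_lit 57) (nat_lit 86) r12_57 r3_86 (nat_lit 0) (nat_lit 0) (nat_lit 0) (nat_lit 0x7d4a01a29c) (nat_lit 1330660656),
  Rx.mk (nat_lit 163) (nat_lit 3) (nat_lit 4) (nat_lit 2) (nat_lit 5) (nat_lit 59) (nat_lit 84) r12_59 r3_84 (nat_lit 0) (nat_lit 0) (nat_lit 0) (nat_lit 0x7fe86cb94c) (nat_lit 45203184),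
  Rx.mk (nat_lit 168) (nat_lit 0) (nat_lit 5) (nat_lit 2) (nat_lit 6) (nat_lit 56) (nat_lit 81) r12_56 r3_81 (nat_lit 0) (nat_lit 0) (nat_lit 0) (nat_lit 0x78dfe268fa) (nat_lit 3497552136),
  Rx.mk (nat_lit 170) (nat_lit 2) (nat_lit 5) (nat_lit 2) (nat_lit 7) (nat_lit 58) (nat_lit 87) r12_58 r3_87 (nat_lit 0) (nat_lit 0) (nat_lit 0) (nat_lit 0x7b9901944e) (nat_lit 2160893592),
  Rx.mk (nat_lit 171) (nat_lit 3) (nat_lit 5) (nat_lit 2) (nat_lit 7) (nat_lit 60) (nat_lit 85) r12_60 r3_85 (nat_lit 0) (nat_lit 0) (nat_lit 0) (nat_lit 0x7f5a643a62) (nat_lit 317537064)]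
noncomputable def e54_56 : List Rx := [
  Rx.mk (nat_lit 35) (nat_lit 3) (nat_lit 4) (nat_lit 0) (nat_lit 1) (nat_lit 80) (nat_lit 83) r12_80 r12_83 (nat_lit 0) (nat_lit 0) (nat_lit 0) (nat_lit 0x8000000000) (nat_lit 0),
  Rx.mk (nat_lit 43) (nat_lit 3) (nat_lit 5) (nat_lit 0) (nat_lit 3) (nat_lit 81) (nat_lit 84) r12_81 r12_84 (nat_lit 0) (nat_lit 0) (nat_lit 0) (nat_lit 0x7de6a637b6) (nat_lit 1030314168),
  Rx.mk (nat_lit 51) (nat_lit 3) (nat_lit 6) (nat_lit 0) (nat_lit 3) (nat_lit 82) (nat_lit 85) r12_82 r12_85 (nat_lit 0) (nat_lit 0) (nat_lit 0) (nat_lit 0x7f1b4c6c1e) (nat_lit 438511320),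
  Rx.mk (nat_lit 160) (nat_lit 0) (nat_lit 4) (nat_lit 2) (nat_lit 4) (nat_lit 83) (nat_lit 80) r12_83 r12_80 (nat_lit 0) (nat_lit 0) (nat_lit 0) (nat_lit 0x8000000000) (nat_lit 0),
  Rx.mk (nat_lit 162) (nat_lit 2) (nat_lit 4) (nat_lit 2) (nat_lit 5) (nat_lit 86) (nat_lit 91) r12_86 r12_91 (nat_lit 0) (nat_lit 0) (nat_lit 0) (nat_lit 0x7bc3dc8674) (nat_lit 2078723088),
  Rx.mk (nat_lit 163) (nat_lit 3) (nat_lit 4) (nat_lit 2) (nat_lit 5) (nat_lit 89) (nat_lit 89) r12_89 r12_89 (nat_lit 0) (nat_lit 0) (nat_lit 0) (nat_lit 0x7f80b8b4f4) (nat_lit 244043280),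
  Rx.mk (nat_lit 168) (nat_lit 0) (nat_lit 5) (nat_lit 2) (nat_lit 6) (nat_lit 84) (nat_lit 81) r12_84 r12_81 (nat_lit 0) (nat_lit 0) (nat_lit 0) (nat_lit 0x7de6a637b6) (nat_lit 1030314168),
  Rx.mk (nat_lit 170) (nat_lit 2) (nat_lit 5) (nat_lit 2) (nat_lit 7) (nat_lit 87) (nat_lit 92) r12_87 r12_92 (nat_lit 0) (nat_lit 0) (nat_lit 0) (nat_lit 0x7cd60782b2) (nat_lit 1553034600),
  Rx.mk (nat_lit 171) (nat_lit 3) (nat_lit 5) (nat_lit 2) (nat_lit 7) (nat_lit 90) (nat_lit 90) r12_90 r12_90 (nat_lit 0) (nat_lit 0) (nat_lit 0) (nat_lit 0x7e6d676b1c) (nat_lit 771936048),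
  Rx.mk (nat_lit 184) (nat_lit 0) (nat_lit 7) (nat_lit 2) (nat_lit 6) (nat_lit 85) (nat_lit 82) r12_85 r12_82 (nat_lit 0) (nat_lit 0) (nat_lit 0) (nat_lit 0x7f1b4c6c1e) (nat_lit 438511320),
  Rx.mk (nat_lit 186) (nat_lit 2) (nat_lit 7) (nat_lit 2) (nat_lit 7) (nat_lit 88) (nat_lit 93) r12_88 r12_93 (nat_lit 0) (nat_lit 0) (nat_lit 0) (nat_lit 0x7e3d2f8eca) (nat_lit 864389448),
  Rx.mk (nat_lit 227) (nat_lit 3) (nat_lit 4) (nat_lit 3) (nat_lit 5) (nat_lit 91) (nat_lit 86) r12_91 r12_86 (nat_lit 0) (nat_lit 0) (nat_lit 0) (nat_lit 0x7bc3dc8674) (nat_lit 2078723088),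
  Rx.mk (nat_lit 235) (nat_lit 3) (nat_lit 5) (nat_lit 3) (nat_lit 7) (nat_lit 92) (nat_lit 87) r12_92 r12_87 (nat_lit 0) (nat_lit 0) (nat_lit 0) (nat_lit 0x7cd60782b2) (nat_lit 1553034600),
  Rx.mk (nat_lit 243) (nat_lit 3) (nat_lit 6) (nat_lit 3) (nat_lit 7) (nat_lit 93) (nat_lit 88) r12_93 r12_88 (nat_lit 0) (nat_lit 0) (nat_lit 0) (nat_lit 0x7e3d2f8eca) (nat_lit 864389448)]
noncomputable def e54_57 : List Rx := [
  Rx.mk (nat_lit 35) (nat_lit 3) (nat_lit 4) (nat_lit 0) (nat_lit 1) (nat_lit 235) (nat_lit 310) r12_235 r12_310 (nat_lit 0) (nat_lit 0) (nat_lit 0) (nat_lit 0x8000000000) (nat_lit 0),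
  Rx.mk (nat_lit 43) (nat_lit 3) (nat_lit 5) (nat_lit 0) (nat_lit 3) (nat_lit 236) (nat_lit 312) r12_236 r12_312 (nat_lit 0) (nat_lit 0) (nat_lit 0) (nat_lit 0x7d6cf2f364) (nat_lit 1263661776),
  Rx.mk (nat_lit 51) (nat_lit 3) (nat_lit 6) (nat_lit 0) (nat_lit 3) (nat_lit 237) (nat_lit 314) r12_237 r12_314 (nat_lit 0) (nat_lit 0) (nat_lit 0) (nat_lit 0x7f2c8cd806) (nat_lit 405433080),
  Rx.mk (nat_lit 163) (nat_lit 3) (nat_lit 4) (nat_lit 2) (nat_lit 5) (nat_lit 238) (nat_lit 311) r12_238 r12_311 (nat_lit 0) (nat_lit 0) (nat_lit 0) (nat_lit 0x7f220180c6) (nat_lit 425650680),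
  Rx.mk (nat_lit 171) (nat_lit 3) (nat_lit 5) (nat_lit 2) (nat_lit 7) (nat_lit 239) (nat_lit 313) r12_239 r12_313 (nat_lit 0) (nat_lit 0) (nat_lit 0) (nat_lit 0x7e9736adfe) (nat_lit 691770456)]
noncomputable def e54 : List (List Rx) := [e54_0, e54_1, e54_2, e54_3, e54_4, e54_5, e54_6, e54_7, e54_8, e54_9, e54_10, e54_11, e54_12, e54_13, e54_14, e54_15, e54_16, e54_17, e54_18, e54_19, e54_20, e54_21, e54_22, e54_23, e54_24, e54_25, e54_26, e54_27, e54_28, e54_29, e54_30, e54_31, e54_32, e54_33, e54_34, e54_35, e54_36, e54_37, e54_38, e54_39, e54_40, e54_41, e54_42, e54_43, e54_44, e54_45, e54_46, e54_47, e54_48, e54_49, e54_50, e54_51, e54_52, e54_53, e54_54, e54_55, e54_56, e54_57]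
noncomputable def e55_0 : List Rx := [
  Rx.mk (nat_lit 5) (nat_lit 5) (nat_lit 0) (nat_lit 0) (nat_lit 1) (nat_lit 240) (nat_lit 301) r3_240 r0_301 (nat_lit 0) (nat_lit 0) (nat_lit 0) (nat_lit 0x7ffd37ac88) (nat_lit 5335200),
  Rx.mk (nat_lit 21) (nat_lit 5) (nat_lit 2) (nat_lit 0) (nat_lit 3) (nat_lit 241) (nat_lit 303) r3_241 r0_303 (nat_lit 0) (nat_lit 0) (nat_lit 0) (nat_lit 0x7da58729e8) (nat_lit 1155177504),
  Rx.mk (nat_lit 68) (nat_lit 4) (nat_lit 0) (nat_lit 1) (nat_lit 4) (nat_lit 238) (nat_lit 359) r3_238 r0_359 (nat_lit 0) (nat_lit 0) (nat_lit 0) (nat_lit 0x8000000000) (nat_lit 0),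
  Rx.mk (nat_lit 69) (nat_lit 5) (nat_lit 0) (nat_lit 1) (nat_lit 5) (nat_lit 242) (nat_lit 302) r3_242 r0_302 (nat_lit 0) (nat_lit 0) (nat_lit 0) (nat_lit 0x7efff78188) (nat_lit 490917024),
  Rx.mk (nat_lit 84) (nat_lit 4) (nat_lit 2) (nat_lit 1) (nat_lit 6) (nat_lit 239) (nat_lit 300) r3_239 r0_300 (nat_lit 0) (nat_lit 0) (nat_lit 0) (nat_lit 0x8000000000) (nat_lit 0),
  Rx.mk (nat_lit 85) (nat_lit 5) (nat_lit 2) (nat_lit 1) (nat_lit 7) (nat_lit 243) (nat_lit 304) r3_243 r0_304 (nat_lit 0) (nat_lit 0) (nat_lit 0) (nat_lit 0x7feb704910) (nat_lit 39424320)]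
noncomputable def e55_1 : List Rx := [
  Rx.mk (nat_lit 68) (nat_lit 4) (nat_lit 0) (nat_lit 1) (nat_lit 4) (nat_lit 267) (nat_lit 323) r3_267 r1_323 (nat_lit 0) (nat_lit 0) (nat_lit 0) (nat_lit 0x8000000000) (nat_lit 0),
  Rx.mk (nat_lit 69) (nat_lit 5) (nat_lit 0) (nat_lit 1) (nat_lit 5) (nat_lit 269) (nat_lit 294) r3_269 r1_294 (nat_lit 0) (nat_lit 0) (nat_lit 0) (nat_lit 0x7f3dabe604) (nat_lit 372604752),
  Rx.mk (nat_lit 84) (nat_lit 4) (nat_lit 2) (nat_lit 1) (nat_lit 6) (nat_lit 268) (nat_lit 293) r3_268 r1_293 (nat_lit 0) (nat_lit 0) (nat_lit 0) (nat_lit 0x7f34c65466) (nat_lit 389663352),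
  Rx.mk (nat_lit 85) (nat_lit 5) (nat_lit 2) (nat_lit 1) (nat_lit 7) (nat_lit 270) (nat_lit 295) r3_270 r1_295 (nat_lit 0) (nat_lit 0) (nat_lit 0) (nat_lit 0x7f46a79640) (nat_lit 355380480)]
noncomputable def e55_2 : List Rx := [
  Rx.mk (nat_lit 68) (nat_lit 4) (nat_lit 0) (nat_lit 1) (nat_lit 4) (nat_lit 271) (nat_lit 322) r3_271 r2_322 (nat_lit 0) (nat_lit 0) (nat_lit 0) (nat_lit 0x703cef60ce) (nat_lit 7736817816),
  Rx.mk (nat_lit 69) (nat_lit 5) (nat_lit 0) (nat_lit 1) (nat_lit 5) (nat_lit 276) (nat_lit 327) r3_276 r2_327 (nat_lit 0) (nat_lit 0) (nat_lit 0) (nat_lit 0x756abadee8) (nat_lit 5194743840),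
  Rx.mk (nat_lit 76) (nat_lit 4) (nat_lit 1) (nat_lit 1) (nat_lit 6) (nat_lit 272) (nat_lit 324) r3_272 r2_324 (nat_lit 0) (nat_lit 0) (nat_lit 0) (nat_lit 0x6f33ce53e8) (nat_lit 8245175328),
  Rx.mk (nat_lit 77) (nat_lit 5) (nat_lit 1) (nat_lit 1) (nat_lit 7) (nat_lit 277) (nat_lit 329) r3_277 r2_329 (nat_lit 0) (nat_lit 0) (nat_lit 0) (nat_lit 0x7d272070d2) (nat_lit 1397538792),
  Rx.mk (nat_lit 84) (nat_lit 4) (nat_lit 2) (nat_lit 1) (nat_lit 6) (nat_lit 273) (nat_lit 326) r3_273 r2_326 (nat_lit 0) (nat_lit 0) (nat_lit 0) (nat_lit 0x7741baad14) (nat_lit 4291651728),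
  Rx.mk (nat_lit 85) (nat_lit 5) (nat_lit 2) (nat_lit 1) (nat_lit 7) (nat_lit 278) (nat_lit 331) r3_278 r2_331 (nat_lit 0) (nat_lit 0) (nat_lit 0) (nat_lit 0x7e104edd02) (nat_lit 950437800),
  Rx.mk (nat_lit 324) (nat_lit 4) (nat_lit 0) (nat_lit 5) (nat_lit 4) (nat_lit 274) (nat_lit 323) r3_274 r2_323 (nat_lit 0) (nat_lit 0) (nat_lit 0) (nat_lit 0x703cef60ce) (nat_lit 7736817816),
  Rx.mk (nat_lit 325) (nat_lit 5) (nat_lit 0) (nat_lit 5) (nat_lit 5) (nat_lit 279) (nat_lit 328) r3_279 r2_328 (nat_lit 0) (nat_lit 0) (nat_lit 0) (nat_lit 0x6f33ce53e8) (nat_lit 8245175328),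
  Rx.mk (nat_lit 326) (nat_lit 6) (nat_lit 0) (nat_lit 5) (nat_lit 5) (nat_lit 281) (nat_lit 332) r3_281 r2_332 (nat_lit 0) (nat_lit 0) (nat_lit 0) (nat_lit 0x7741baad14) (nat_lit 4291651728),
  Rx.mk (nat_lit 332) (nat_lit 4) (nat_lit 1) (nat_lit 5) (nat_lit 6) (nat_lit 275) (nat_lit 325) r3_275 r2_325 (nat_lit 0) (nat_lit 0) (nat_lit 0) (nat_lit 0x756abadee8) (nat_lit 5194743840),
  Rx.mk (nat_lit 333) (nat_lit 5) (nat_lit 1) (nat_lit 5) (nat_lit 7) (nat_lit 280) (nat_lit 330) r3_280 r2_330 (nat_lit 0) (nat_lit 0) (nat_lit 0) (nat_lit 0x7d272070d2) (nat_lit 1397538792),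
  Rx.mk (nat_lit 334) (nat_lit 6) (nat_lit 1) (nat_lit 5) (nat_lit 7) (nat_lit 282) (nat_lit 333) r3_282 r2_333 (nat_lit 0) (nat_lit 0) (nat_lit 0) (nat_lit 0x7e104edd02) (nat_lit 950437800)]
noncomputable def e55_3 : List Rx := [
  Rx.mk (nat_lit 20) (nat_lit 4) (nat_lit 2) (nat_lit 0) (nat_lit 2) (nat_lit 356) (nat_lit 357) r3_356 r3_357 (nat_lit 0) (nat_lit 0) (nat_lit 0) (nat_lit 0x8000000000) (nat_lit 0),
  Rx.mk (nat_lit 21) (nat_lit 5) (nat_lit 2) (nat_lit 0) (nat_lit 3) (nat_lit 296) (nat_lit 297) r3_296 r3_297 (nat_lit 0) (nat_lit 0) (nat_lit 0) (nat_lit 0x7fff25cda4) (nat_lit 1634256),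
  Rx.mk (nat_lit 196) (nat_lit 4) (nat_lit 0) (nat_lit 3) (nat_lit 4) (nat_lit 357) (nat_lit 356) r3_357 r3_356 (nat_lit 0) (nat_lit 0) (nat_lit 0) (nat_lit 0x8000000000) (nat_lit 0),
  Rx.mk (nat_lit 197) (nat_lit 5) (nat_lit 0) (nat_lit 3) (nat_lit 5) (nat_lit 297) (nat_lit 296) r3_297 r3_296 (nat_lit 0) (nat_lit 0) (nat_lit 0) (nat_lit 0x7fff25cda4) (nat_lit 1634256),
  Rx.mk (nat_lit 212) (nat_lit 4) (nat_lit 2) (nat_lit 3) (nat_lit 6) (nat_lit 295) (nat_lit 295) r3_295 r3_295 (nat_lit 0) (nat_lit 0) (nat_lit 0) (nat_lit 0x7ff39646a8) (nat_lit 23800608),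
  Rx.mk (nat_lit 213) (nat_lit 5) (nat_lit 2) (nat_lit 3) (nat_lit 7) (nat_lit 298) (nat_lit 298) r3_298 r3_298 (nat_lit 0) (nat_lit 0) (nat_lit 0) (nat_lit 0x7fa7df8260) (nat_lit 168974208)]
noncomputable def e55_4 : List Rx := [
  Rx.mk (nat_lit 4) (nat_lit 4) (nat_lit 0) (nat_lit 0) (nat_lit 0) (nat_lit 299) (nat_lit 315) r3_299 r4_315 (nat_lit 0) (nat_lit 0) (nat_lit 0) (nat_lit 0x72d96d1656) (nat_lit 6455055672),
  Rx.mk (nat_lit 5) (nat_lit 5) (nat_lit 0) (nat_lit 0) (nat_lit 1) (nat_lit 305) (nat_lit 321) r3_305 r4_321 (nat_lit 0) (nat_lit 0) (nat_lit 0) (nat_lit 0x7824867f74) (nat_lit 3856793616),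
  Rx.mk (nat_lit 20) (nat_lit 4) (nat_lit 2) (nat_lit 0) (nat_lit 2) (nat_lit 300) (nat_lit 318) r3_300 r4_318 (nat_lit 0) (nat_lit 0) (nat_lit 0) (nat_lit 0x7a41dba804) (nat_lit 2818844496),
  Rx.mk (nat_lit 21) (nat_lit 5) (nat_lit 2) (nat_lit 0) (nat_lit 3) (nat_lit 306) (nat_lit 324) r3_306 r4_324 (nat_lit 0) (nat_lit 0) (nat_lit 0) (nat_lit 0x7e5e87d924) (nat_lit 800454096),
  Rx.mk (nat_lit 68) (nat_lit 4) (nat_lit 0) (nat_lit 1) (nat_lit 4) (nat_lit 301) (nat_lit 316) r3_301 r4_316 (nat_lit 0) (nat_lit 0) (nat_lit 0) (nat_lit 0x790eef77fa) (nat_lit 3407336712),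
  Rx.mk (nat_lit 69) (nat_lit 5) (nat_lit 0) (nat_lit 1) (nat_lit 5) (nat_lit 307) (nat_lit 322) r3_307 r4_322 (nat_lit 0) (nat_lit 0) (nat_lit 0) (nat_lit 0x7cbf2d1070) (nat_lit 1596853440),
  Rx.mk (nat_lit 84) (nat_lit 4) (nat_lit 2) (nat_lit 1) (nat_lit 6) (nat_lit 302) (nat_lit 319) r3_302 r4_319 (nat_lit 0) (nat_lit 0) (nat_lit 0) (nat_lit 0x7e0ef89268) (nat_lit 953001504),
  Rx.mk (nat_lit 85) (nat_lit 5) (nat_lit 2) (nat_lit 1) (nat_lit 7) (nat_lit 308) (nat_lit 325) r3_308 r4_325 (nat_lit 0) (nat_lit 0) (nat_lit 0) (nat_lit 0x7eb281d930) (nat_lit 639437760),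
  Rx.mk (nat_lit 196) (nat_lit 4) (nat_lit 0) (nat_lit 3) (nat_lit 4) (nat_lit 303) (nat_lit 317) r3_303 r4_317 (nat_lit 0) (nat_lit 0) (nat_lit 0) (nat_lit 0x79c6919d20) (nat_lit 3055238784),
  Rx.mk (nat_lit 197) (nat_lit 5) (nat_lit 0) (nat_lit 3) (nat_lit 5) (nat_lit 309) (nat_lit 323) r3_309 r4_323 (nat_lit 0) (nat_lit 0) (nat_lit 0) (nat_lit 0x7cb07e3b6c) (nat_lit 1625006448),
  Rx.mk (nat_lit 212) (nat_lit 4) (nat_lit 2) (nat_lit 3) (nat_lit 6) (nat_lit 304) (nat_lit 320) r3_304 r4_320 (nat_lit 0) (nat_lit 0) (nat_lit 0) (nat_lit 0x7c8fa6290e) (nat_lit 1687981464),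
  Rx.mk (nat_lit 213) (nat_lit 5) (nat_lit 2) (nat_lit 3) (nat_lit 7) (nat_lit 310) (nat_lit 326) r3_310 r4_326 (nat_lit 0) (nat_lit 0) (nat_lit 0) (nat_lit 0x7ea6169ff0) (nat_lit 663249600)]
noncomputable def e55_5 : List Rx := [
  Rx.mk (nat_lit 262) (nat_lit 6) (nat_lit 0) (nat_lit 4) (nat_lit 1) (nat_lit 61) (nat_lit 357) r3_61 r3_357 (nat_lit 0) (nat_lit 0) (nat_lit 0) (nat_lit 0x8000000000) (nat_lit 0),
  Rx.mk (nat_lit 270) (nat_lit 6) (nat_lit 1) (nat_lit 4) (nat_lit 3) (nat_lit 62) (nat_lit 297) r3_62 r3_297 (nat_lit 0) (nat_lit 0) (nat_lit 0) (nat_lit 0x7fff25cda4) (nat_lit 1634256),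
  Rx.mk (nat_lit 452) (nat_lit 4) (nat_lit 0) (nat_lit 7) (nat_lit 4) (nat_lit 59) (nat_lit 356) r3_59 r3_356 (nat_lit 0) (nat_lit 0) (nat_lit 0) (nat_lit 0x8000000000) (nat_lit 0),
  Rx.mk (nat_lit 454) (nat_lit 6) (nat_lit 0) (nat_lit 7) (nat_lit 5) (nat_lit 63) (nat_lit 295) r3_63 r3_295 (nat_lit 0) (nat_lit 0) (nat_lit 0) (nat_lit 0x7ff39646a8) (nat_lit 23800608),
  Rx.mk (nat_lit 460) (nat_lit 4) (nat_lit 1) (nat_lit 7) (nat_lit 6) (nat_lit 60) (nat_lit 296) r3_60 r3_296 (nat_lit 0) (nat_lit 0) (nat_lit 0) (nat_lit 0x7fff25cda4) (nat_lit 1634256),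
  Rx.mk (nat_lit 462) (nat_lit 6) (nat_lit 1) (nat_lit 7) (nat_lit 7) (nat_lit 64) (nat_lit 298) r3_64 r3_298 (nat_lit 0) (nat_lit 0) (nat_lit 0) (nat_lit 0x7fa7df8260) (nat_lit 168974208)]
noncomputable def e55_6 : List Rx := [
  Rx.mk (nat_lit 268) (nat_lit 4) (nat_lit 1) (nat_lit 4) (nat_lit 2) (nat_lit 142) (nat_lit 301) r3_142 r0_301 (nat_lit 0) (nat_lit 0) (nat_lit 0) (nat_lit 0x7ffd37ac88) (nat_lit 5335200),
  Rx.mk (nat_lit 270) (nat_lit 6) (nat_lit 1) (nat_lit 4) (nat_lit 3) (nat_lit 145) (nat_lit 303) r3_145 r0_303 (nat_lit 0) (nat_lit 0) (nat_lit 0) (nat_lit 0x7da58729e8) (nat_lit 1155177504),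
  Rx.mk (nat_lit 324) (nat_lit 4) (nat_lit 0) (nat_lit 5) (nat_lit 4) (nat_lit 143) (nat_lit 359) r3_143 r0_359 (nat_lit 0) (nat_lit 0) (nat_lit 0) (nat_lit 0x8000000000) (nat_lit 0),
  Rx.mk (nat_lit 326) (nat_lit 6) (nat_lit 0) (nat_lit 5) (nat_lit 5) (nat_lit 146) (nat_lit 300) r3_146 r0_300 (nat_lit 0) (nat_lit 0) (nat_lit 0) (nat_lit 0x8000000000) (nat_lit 0),
  Rx.mk (nat_lit 332) (nat_lit 4) (nat_lit 1) (nat_lit 5) (nat_lit 6) (nat_lit 144) (nat_lit 302) r3_144 r0_302 (nat_lit 0) (nat_lit 0) (nat_lit 0) (nat_lit 0x7efff78188) (nat_lit 490917024),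
  Rx.mk (nat_lit 334) (nat_lit 6) (nat_lit 1) (nat_lit 5) (nat_lit 7) (nat_lit 147) (nat_lit 304) r3_147 r0_304 (nat_lit 0) (nat_lit 0) (nat_lit 0) (nat_lit 0x7feb704910) (nat_lit 39424320)]
noncomputable def e55_7 : List Rx := [
  Rx.mk (nat_lit 324) (nat_lit 4) (nat_lit 0) (nat_lit 5) (nat_lit 4) (nat_lit 148) (nat_lit 323) r3_148 r1_323 (nat_lit 0) (nat_lit 0) (nat_lit 0) (nat_lit 0x8000000000) (nat_lit 0),
  Rx.mk (nat_lit 326) (nat_lit 6) (nat_lit 0) (nat_lit 5) (nat_lit 5) (nat_lit 150) (nat_lit 293) r3_150 r1_293 (nat_lit 0) (nat_lit 0) (nat_lit 0) (nat_lit 0x7f34c65466) (nat_lit 389663352),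
  Rx.mk (nat_lit 332) (nat_lit 4) (nat_lit 1) (nat_lit 5) (nat_lit 6) (nat_lit 149) (nat_lit 294) r3_149 r1_294 (nat_lit 0) (nat_lit 0) (nat_lit 0) (nat_lit 0x7f3dabe604) (nat_lit 372604752),
  Rx.mk (nat_lit 334) (nat_lit 6) (nat_lit 1) (nat_lit 5) (nat_lit 7) (nat_lit 151) (nat_lit 295) r3_151 r1_295 (nat_lit 0) (nat_lit 0) (nat_lit 0) (nat_lit 0x7f46a79640) (nat_lit 355380480)]
noncomputable def e55_8 : List Rx := [
  Rx.mk (nat_lit 260) (nat_lit 4) (nat_lit 0) (nat_lit 4) (nat_lit 0) (nat_lit 152) (nat_lit 315) r3_152 r4_315 (nat_lit 0) (nat_lit 0) (nat_lit 0) (nat_lit 0x72d96d1656) (nat_lit 6455055672),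
  Rx.mk (nat_lit 262) (nat_lit 6) (nat_lit 0) (nat_lit 4) (nat_lit 1) (nat_lit 158) (nat_lit 318) r3_158 r4_318 (nat_lit 0) (nat_lit 0) (nat_lit 0) (nat_lit 0x7a41dba804) (nat_lit 2818844496),
  Rx.mk (nat_lit 268) (nat_lit 4) (nat_lit 1) (nat_lit 4) (nat_lit 2) (nat_lit 153) (nat_lit 321) r3_153 r4_321 (nat_lit 0) (nat_lit 0) (nat_lit 0) (nat_lit 0x7824867f74) (nat_lit 3856793616),
  Rx.mk (nat_lit 270) (nat_lit 6) (nat_lit 1) (nat_lit 4) (nat_lit 3) (nat_lit 159) (nat_lit 324) r3_159 r4_324 (nat_lit 0) (nat_lit 0) (nat_lit 0) (nat_lit 0x7e5e87d924) (nat_lit 800454096),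
  Rx.mk (nat_lit 324) (nat_lit 4) (nat_lit 0) (nat_lit 5) (nat_lit 4) (nat_lit 154) (nat_lit 316) r3_154 r4_316 (nat_lit 0) (nat_lit 0) (nat_lit 0) (nat_lit 0x790eef77fa) (nat_lit 3407336712),
  Rx.mk (nat_lit 326) (nat_lit 6) (nat_lit 0) (nat_lit 5) (nat_lit 5) (nat_lit 160) (nat_lit 319) r3_160 r4_319 (nat_lit 0) (nat_lit 0) (nat_lit 0) (nat_lit 0x7e0ef89268) (nat_lit 953001504),
  Rx.mk (nat_lit 332) (nat_lit 4) (nat_lit 1) (nat_lit 5) (nat_lit 6) (nat_lit 155) (nat_lit 322) r3_155 r4_322 (nat_lit 0) (nat_lit 0) (nat_lit 0) (nat_lit 0x7cbf2d1070) (nat_lit 1596853440),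
  Rx.mk (nat_lit 334) (nat_lit 6) (nat_lit 1) (nat_lit 5) (nat_lit 7) (nat_lit 161) (nat_lit 325) r3_161 r4_325 (nat_lit 0) (nat_lit 0) (nat_lit 0) (nat_lit 0x7eb281d930) (nat_lit 639437760),
  Rx.mk (nat_lit 452) (nat_lit 4) (nat_lit 0) (nat_lit 7) (nat_lit 4) (nat_lit 156) (nat_lit 317) r3_156 r4_317 (nat_lit 0) (nat_lit 0) (nat_lit 0) (nat_lit 0x79c6919d20) (nat_lit 3055238784),
  Rx.mk (nat_lit 454) (nat_lit 6) (nat_lit 0) (nat_lit 7) (nat_lit 5) (nat_lit 162) (nat_lit 320) r3_162 r4_320 (nat_lit 0) (nat_lit 0) (nat_lit 0) (nat_lit 0x7c8fa6290e) (nat_lit 1687981464),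
  Rx.mk (nat_lit 460) (nat_lit 4) (nat_lit 1) (nat_lit 7) (nat_lit 6) (nat_lit 157) (nat_lit 323) r3_157 r4_323 (nat_lit 0) (nat_lit 0) (nat_lit 0) (nat_lit 0x7cb07e3b6c) (nat_lit 1625006448),
  Rx.mk (nat_lit 462) (nat_lit 6) (nat_lit 1) (nat_lit 7) (nat_lit 7) (nat_lit 163) (nat_lit 326) r3_163 r4_326 (nat_lit 0) (nat_lit 0) (nat_lit 0) (nat_lit 0x7ea6169ff0) (nat_lit 663249600)]
noncomputable def e55_9 : List Rx := [
  Rx.mk (nat_lit 196) (nat_lit 4) (nat_lit 0) (nat_lit 3) (nat_lit 4) (nat_lit 213) (nat_lit 322) r3_213 r5_322 (nat_lit 0) (nat_lit 0) (nat_lit 0) (nat_lit 0x7fdc245dde) (nat_lit 68753880),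
  Rx.mk (nat_lit 212) (nat_lit 4) (nat_lit 2) (nat_lit 3) (nat_lit 6) (nat_lit 214) (nat_lit 324) r3_214 r5_324 (nat_lit 0) (nat_lit 0) (nat_lit 0) (nat_lit 0x7f8fdd429c) (nat_lit 215008560),
  Rx.mk (nat_lit 452) (nat_lit 4) (nat_lit 0) (nat_lit 7) (nat_lit 4) (nat_lit 215) (nat_lit 323) r3_215 r5_323 (nat_lit 0) (nat_lit 0) (nat_lit 0) (nat_lit 0x7fdc245dde) (nat_lit 68753880),
  Rx.mk (nat_lit 454) (nat_lit 6) (nat_lit 0) (nat_lit 7) (nat_lit 5) (nat_lit 216) (nat_lit 325) r3_216 r5_325 (nat_lit 0) (nat_lit 0) (nat_lit 0) (nat_lit 0x7f8fdd429c) (nat_lit 215008560)]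
noncomputable def e55_10 : List Rx := [
  Rx.mk (nat_lit 21) (nat_lit 5) (nat_lit 2) (nat_lit 0) (nat_lit 3) (nat_lit 244) (nat_lit 71) r3_244 r0_71 (nat_lit 0) (nat_lit 0) (nat_lit 0) (nat_lit 0x8000000000) (nat_lit 0)]
noncomputable def e55_11 : List Rx := [
  Rx.mk (nat_lit 5) (nat_lit 5) (nat_lit 0) (nat_lit 0) (nat_lit 1) (nat_lit 245) (nat_lit 412) r3_245 r6_412 (nat_lit 0) (nat_lit 0) (nat_lit 0) (nat_lit 0x70137118dc) (nat_lit 7816376880),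
  Rx.mk (nat_lit 21) (nat_lit 5) (nat_lit 2) (nat_lit 0) (nat_lit 3) (nat_lit 246) (nat_lit 414) r3_246 r6_414 (nat_lit 0) (nat_lit 0) (nat_lit 0) (nat_lit 0x7ed67c9960) (nat_lit 570450816),
  Rx.mk (nat_lit 69) (nat_lit 5) (nat_lit 0) (nat_lit 1) (nat_lit 5) (nat_lit 247) (nat_lit 413) r3_247 r6_413 (nat_lit 0) (nat_lit 0) (nat_lit 0) (nat_lit 0x721a4209c6) (nat_lit 6821600760),
  Rx.mk (nat_lit 85) (nat_lit 5) (nat_lit 2) (nat_lit 1) (nat_lit 7) (nat_lit 248) (nat_lit 415) r3_248 r6_415 (nat_lit 0) (nat_lit 0) (nat_lit 0) (nat_lit 0x7eecb9f574) (nat_lit 527808528)]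
noncomputable def e55_12 : List Rx := [
  Rx.mk (nat_lit 17) (nat_lit 1) (nat_lit 2) (nat_lit 0) (nat_lit 3) (nat_lit 257) (nat_lit 67) r3_257 r1_67 (nat_lit 0) (nat_lit 0) (nat_lit 0) (nat_lit 0x7cedd90582) (nat_lit 1507365288),
  Rx.mk (nat_lit 21) (nat_lit 5) (nat_lit 2) (nat_lit 0) (nat_lit 3) (nat_lit 259) (nat_lit 66) r3_259 r1_66 (nat_lit 0) (nat_lit 0) (nat_lit 0) (nat_lit 0x8000000000) (nat_lit 0),
  Rx.mk (nat_lit 145) (nat_lit 1) (nat_lit 2) (nat_lit 2) (nat_lit 7) (nat_lit 258) (nat_lit 68) r3_258 r1_68 (nat_lit 0) (nat_lit 0) (nat_lit 0) (nat_lit 0x7c2bd226b2) (nat_lit 1879391592)]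
noncomputable def e55_13 : List Rx := [
  Rx.mk (nat_lit 5) (nat_lit 5) (nat_lit 0) (nat_lit 0) (nat_lit 1) (nat_lit 263) (nat_lit 334) r3_263 r7_334 (nat_lit 0) (nat_lit 0) (nat_lit 0) (nat_lit 0x6b3e98cb36) (nat_lit 10187898552),
  Rx.mk (nat_lit 17) (nat_lit 1) (nat_lit 2) (nat_lit 0) (nat_lit 3) (nat_lit 260) (nat_lit 331) r3_260 r7_331 (nat_lit 0) (nat_lit 0) (nat_lit 0) (nat_lit 0x6e724f8c96) (nat_lit 8616182328),
  Rx.mk (nat_lit 21) (nat_lit 5) (nat_lit 2) (nat_lit 0) (nat_lit 3) (nat_lit 264) (nat_lit 336) r3_264 r7_336 (nat_lit 0) (nat_lit 0) (nat_lit 0) (nat_lit 0x73f40d8b34) (nat_lit 5913148176),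
  Rx.mk (nat_lit 69) (nat_lit 5) (nat_lit 0) (nat_lit 1) (nat_lit 5) (nat_lit 265) (nat_lit 335) r3_265 r7_335 (nat_lit 0) (nat_lit 0) (nat_lit 0) (nat_lit 0x732efe9ce8) (nat_lit 6290987040),
  Rx.mk (nat_lit 81) (nat_lit 1) (nat_lit 2) (nat_lit 1) (nat_lit 7) (nat_lit 261) (nat_lit 332) r3_261 r7_332 (nat_lit 0) (nat_lit 0) (nat_lit 0) (nat_lit 0x7bddb1e904) (nat_lit 2029189968),
  Rx.mk (nat_lit 85) (nat_lit 5) (nat_lit 2) (nat_lit 1) (nat_lit 7) (nat_lit 266) (nat_lit 337) r3_266 r7_337 (nat_lit 0) (nat_lit 0) (nat_lit 0) (nat_lit 0x7c2ead98f8) (nat_lit 1873913184),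
  Rx.mk (nat_lit 145) (nat_lit 1) (nat_lit 2) (nat_lit 2) (nat_lit 7) (nat_lit 262) (nat_lit 333) r3_262 r7_333 (nat_lit 0) (nat_lit 0) (nat_lit 0) (nat_lit 0x7cba1941b2) (nat_lit 1606588776)]
noncomputable def e55_14 : List Rx := [
  Rx.mk (nat_lit 69) (nat_lit 5) (nat_lit 0) (nat_lit 1) (nat_lit 5) (nat_lit 283) (nat_lit 61) r3_283 r7_61 (nat_lit 0) (nat_lit 0) (nat_lit 0) (nat_lit 0x75b85a24a6) (nat_lit 5045911416),
  Rx.mk (nat_lit 85) (nat_lit 5) (nat_lit 2) (nat_lit 1) (nat_lit 7) (nat_lit 284) (nat_lit 62) r3_284 r7_62 (nat_lit 0) (nat_lit 0) (nat_lit 0) (nat_lit 0x7f3a485c40) (nat_lit 379102464)]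
noncomputable def e55_15 : List Rx := [
  Rx.mk (nat_lit 69) (nat_lit 5) (nat_lit 0) (nat_lit 1) (nat_lit 5) (nat_lit 285) (nat_lit 300) r3_285 r8_300 (nat_lit 0) (nat_lit 0) (nat_lit 0) (nat_lit 0x6e55c73538) (nat_lit 8670890592),
  Rx.mk (nat_lit 77) (nat_lit 5) (nat_lit 1) (nat_lit 1) (nat_lit 7) (nat_lit 286) (nat_lit 302) r3_286 r8_302 (nat_lit 0) (nat_lit 0) (nat_lit 0) (nat_lit 0x7a6150509a) (nat_lit 2758531464),
  Rx.mk (nat_lit 85) (nat_lit 5) (nat_lit 2) (nat_lit 1) (nat_lit 7) (nat_lit 287) (nat_lit 304) r3_287 r8_304 (nat_lit 0) (nat_lit 0) (nat_lit 0) (nat_lit 0x7191b1135e) (nat_lit 7083452376),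
  Rx.mk (nat_lit 325) (nat_lit 5) (nat_lit 0) (nat_lit 5) (nat_lit 5) (nat_lit 288) (nat_lit 301) r3_288 r8_301 (nat_lit 0) (nat_lit 0) (nat_lit 0) (nat_lit 0x6ab4f44608) (nat_lit 10451814048),
  Rx.mk (nat_lit 333) (nat_lit 5) (nat_lit 1) (nat_lit 5) (nat_lit 7) (nat_lit 289) (nat_lit 303) r3_289 r8_303 (nat_lit 0) (nat_lit 0) (nat_lit 0) (nat_lit 0x795b231474) (nat_lit 3261228048)]
noncomputable def e55_16 : List Rx := [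
  Rx.mk (nat_lit 21) (nat_lit 5) (nat_lit 2) (nat_lit 0) (nat_lit 3) (nat_lit 314) (nat_lit 65) r3_314 r4_65 (nat_lit 0) (nat_lit 0) (nat_lit 0) (nat_lit 0x7ffc241dc2) (nat_lit 7399080),
  Rx.mk (nat_lit 197) (nat_lit 5) (nat_lit 0) (nat_lit 3) (nat_lit 5) (nat_lit 315) (nat_lit 66) r3_315 r4_66 (nat_lit 0) (nat_lit 0) (nat_lit 0) (nat_lit 0x7f9a3d1c94) (nat_lit 195116688),
  Rx.mk (nat_lit 213) (nat_lit 5) (nat_lit 2) (nat_lit 3) (nat_lit 7) (nat_lit 316) (nat_lit 67) r3_316 r4_67 (nat_lit 0) (nat_lit 0) (nat_lit 0) (nat_lit 0x7fe190a714) (nat_lit 58355856)]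
noncomputable def e55_17 : List Rx := [
  Rx.mk (nat_lit 5) (nat_lit 5) (nat_lit 0) (nat_lit 0) (nat_lit 1) (nat_lit 317) (nat_lit 333) r3_317 r9_333 (nat_lit 0) (nat_lit 0) (nat_lit 0) (nat_lit 0x7143ff0ecc) (nat_lit 7232425200),
  Rx.mk (nat_lit 21) (nat_lit 5) (nat_lit 2) (nat_lit 0) (nat_lit 3) (nat_lit 318) (nat_lit 336) r3_318 r9_336 (nat_lit 0) (nat_lit 0) (nat_lit 0) (nat_lit 0x7f9d302d60) (nat_lit 189461376),
  Rx.mk (nat_lit 69) (nat_lit 5) (nat_lit 0) (nat_lit 1) (nat_lit 5) (nat_lit 319) (nat_lit 334) r3_319 r9_334 (nat_lit 0) (nat_lit 0) (nat_lit 0) (nat_lit 0x7b2d0a942a) (nat_lit 2367904968),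
  Rx.mk (nat_lit 85) (nat_lit 5) (nat_lit 2) (nat_lit 1) (nat_lit 7) (nat_lit 320) (nat_lit 337) r3_320 r9_337 (nat_lit 0) (nat_lit 0) (nat_lit 0) (nat_lit 0x7f23fc011c) (nat_lit 421857072),
  Rx.mk (nat_lit 197) (nat_lit 5) (nat_lit 0) (nat_lit 3) (nat_lit 5) (nat_lit 321) (nat_lit 335) r3_321 r9_335 (nat_lit 0) (nat_lit 0) (nat_lit 0) (nat_lit 0x7b7cf61522) (nat_lit 2214666792),
  Rx.mk (nat_lit 213) (nat_lit 5) (nat_lit 2) (nat_lit 3) (nat_lit 7) (nat_lit 322) (nat_lit 338) r3_322 r9_338 (nat_lit 0) (nat_lit 0) (nat_lit 0) (nat_lit 0x7eeb84a8ca) (nat_lit 530125128)]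
noncomputable def e55_18 : List Rx := [
  Rx.mk (nat_lit 197) (nat_lit 5) (nat_lit 0) (nat_lit 3) (nat_lit 5) (nat_lit 323) (nat_lit 351) r3_323 r10_351 (nat_lit 0) (nat_lit 0) (nat_lit 0) (nat_lit 0x7ae9e266f0) (nat_lit 2496671424),
  Rx.mk (nat_lit 213) (nat_lit 5) (nat_lit 2) (nat_lit 3) (nat_lit 7) (nat_lit 324) (nat_lit 352) r3_324 r10_352 (nat_lit 0) (nat_lit 0) (nat_lit 0) (nat_lit 0x7fe8167eb0) (nat_lit 45849024)]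
noncomputable def e55_19 : List Rx := [
  Rx.mk (nat_lit 76) (nat_lit 4) (nat_lit 1) (nat_lit 1) (nat_lit 6) (nat_lit 290) (nat_lit 301) r3_290 r8_301 (nat_lit 0) (nat_lit 0) (nat_lit 0) (nat_lit 0x6ab4f44608) (nat_lit 10451814048),
  Rx.mk (nat_lit 77) (nat_lit 5) (nat_lit 1) (nat_lit 1) (nat_lit 7) (nat_lit 292) (nat_lit 303) r3_292 r8_303 (nat_lit 0) (nat_lit 0) (nat_lit 0) (nat_lit 0x795b231474) (nat_lit 3261228048),
  Rx.mk (nat_lit 332) (nat_lit 4) (nat_lit 1) (nat_lit 5) (nat_lit 6) (nat_lit 291) (nat_lit 300) r3_291 r8_300 (nat_lit 0) (nat_lit 0) (nat_lit 0) (nat_lit 0x6e55c73538) (nat_lit 8670890592),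
  Rx.mk (nat_lit 333) (nat_lit 5) (nat_lit 1) (nat_lit 5) (nat_lit 7) (nat_lit 293) (nat_lit 302) r3_293 r8_302 (nat_lit 0) (nat_lit 0) (nat_lit 0) (nat_lit 0x7a6150509a) (nat_lit 2758531464),
  Rx.mk (nat_lit 334) (nat_lit 6) (nat_lit 1) (nat_lit 5) (nat_lit 7) (nat_lit 294) (nat_lit 304) r3_294 r8_304 (nat_lit 0) (nat_lit 0) (nat_lit 0) (nat_lit 0x7191b1135e) (nat_lit 7083452376)]
noncomputable def e55_20 : List Rx := [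
  Rx.mk (nat_lit 270) (nat_lit 6) (nat_lit 1) (nat_lit 4) (nat_lit 3) (nat_lit 65) (nat_lit 71) r3_65 r0_71 (nat_lit 0) (nat_lit 0) (nat_lit 0) (nat_lit 0x8000000000) (nat_lit 0)]
noncomputable def e55_21 : List Rx := [
  Rx.mk (nat_lit 270) (nat_lit 6) (nat_lit 1) (nat_lit 4) (nat_lit 3) (nat_lit 66) (nat_lit 66) r3_66 r1_66 (nat_lit 0) (nat_lit 0) (nat_lit 0) (nat_lit 0x8000000000) (nat_lit 0),
  Rx.mk (nat_lit 302) (nat_lit 6) (nat_lit 5) (nat_lit 4) (nat_lit 3) (nat_lit 67) (nat_lit 67) r3_67 r1_67 (nat_lit 0) (nat_lit 0) (nat_lit 0) (nat_lit 0x7cedd90582) (nat_lit 1507365288),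
  Rx.mk (nat_lit 430) (nat_lit 6) (nat_lit 5) (nat_lit 6) (nat_lit 7) (nat_lit 68) (nat_lit 68) r3_68 r1_68 (nat_lit 0) (nat_lit 0) (nat_lit 0) (nat_lit 0x7c2bd226b2) (nat_lit 1879391592)]
noncomputable def e55_22 : List Rx := [
  Rx.mk (nat_lit 270) (nat_lit 6) (nat_lit 1) (nat_lit 4) (nat_lit 3) (nat_lit 70) (nat_lit 65) r3_70 r4_65 (nat_lit 0) (nat_lit 0) (nat_lit 0) (nat_lit 0x7ffc241dc2) (nat_lit 7399080),
  Rx.mk (nat_lit 460) (nat_lit 4) (nat_lit 1) (nat_lit 7) (nat_lit 6) (nat_lit 69) (nat_lit 66) r3_69 r4_66 (nat_lit 0) (nat_lit 0) (nat_lit 0) (nat_lit 0x7f9a3d1c94) (nat_lit 195116688),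
  Rx.mk (nat_lit 462) (nat_lit 6) (nat_lit 1) (nat_lit 7) (nat_lit 7) (nat_lit 71) (nat_lit 67) r3_71 r4_67 (nat_lit 0) (nat_lit 0) (nat_lit 0) (nat_lit 0x7fe190a714) (nat_lit 58355856)]
noncomputable def e55_23 : List Rx := [
  Rx.mk (nat_lit 268) (nat_lit 4) (nat_lit 1) (nat_lit 4) (nat_lit 2) (nat_lit 164) (nat_lit 412) r3_164 r6_412 (nat_lit 0) (nat_lit 0) (nat_lit 0) (nat_lit 0x70137118dc) (nat_lit 7816376880),
  Rx.mk (nat_lit 270) (nat_lit 6) (nat_lit 1) (nat_lit 4) (nat_lit 3) (nat_lit 166) (nat_lit 414) r3_166 r6_414 (nat_lit 0) (nat_lit 0) (nat_lit 0) (nat_lit 0x7ed67c9960) (nat_lit 570450816),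
  Rx.mk (nat_lit 332) (nat_lit 4) (nat_lit 1) (nat_lit 5) (nat_lit 6) (nat_lit 165) (nat_lit 413) r3_165 r6_413 (nat_lit 0) (nat_lit 0) (nat_lit 0) (nat_lit 0x721a4209c6) (nat_lit 6821600760),
  Rx.mk (nat_lit 334) (nat_lit 6) (nat_lit 1) (nat_lit 5) (nat_lit 7) (nat_lit 167) (nat_lit 415) r3_167 r6_415 (nat_lit 0) (nat_lit 0) (nat_lit 0) (nat_lit 0x7eecb9f574) (nat_lit 527808528)]
noncomputable def e55_24 : List Rx := [
  Rx.mk (nat_lit 268) (nat_lit 4) (nat_lit 1) (nat_lit 4) (nat_lit 2) (nat_lit 170) (nat_lit 334) r3_170 r7_334 (nat_lit 0) (nat_lit 0) (nat_lit 0) (nat_lit 0x6b3e98cb36) (nat_lit 10187898552),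
  Rx.mk (nat_lit 270) (nat_lit 6) (nat_lit 1) (nat_lit 4) (nat_lit 3) (nat_lit 172) (nat_lit 336) r3_172 r7_336 (nat_lit 0) (nat_lit 0) (nat_lit 0) (nat_lit 0x73f40d8b34) (nat_lit 5913148176),
  Rx.mk (nat_lit 302) (nat_lit 6) (nat_lit 5) (nat_lit 4) (nat_lit 3) (nat_lit 173) (nat_lit 331) r3_173 r7_331 (nat_lit 0) (nat_lit 0) (nat_lit 0) (nat_lit 0x6e724f8c96) (nat_lit 8616182328),
  Rx.mk (nat_lit 332) (nat_lit 4) (nat_lit 1) (nat_lit 5) (nat_lit 6) (nat_lit 171) (nat_lit 335) r3_171 r7_335 (nat_lit 0) (nat_lit 0) (nat_lit 0) (nat_lit 0x732efe9ce8) (nat_lit 6290987040),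
  Rx.mk (nat_lit 334) (nat_lit 6) (nat_lit 1) (nat_lit 5) (nat_lit 7) (nat_lit 174) (nat_lit 337) r3_174 r7_337 (nat_lit 0) (nat_lit 0) (nat_lit 0) (nat_lit 0x7c2ead98f8) (nat_lit 1873913184),
  Rx.mk (nat_lit 366) (nat_lit 6) (nat_lit 5) (nat_lit 5) (nat_lit 7) (nat_lit 175) (nat_lit 332) r3_175 r7_332 (nat_lit 0) (nat_lit 0) (nat_lit 0) (nat_lit 0x7bddb1e904) (nat_lit 2029189968),
  Rx.mk (nat_lit 430) (nat_lit 6) (nat_lit 5) (nat_lit 6) (nat_lit 7) (nat_lit 176) (nat_lit 333) r3_176 r7_333 (nat_lit 0) (nat_lit 0) (nat_lit 0) (nat_lit 0x7cba1941b2) (nat_lit 1606588776)]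
noncomputable def e55_25 : List Rx := [
  Rx.mk (nat_lit 332) (nat_lit 4) (nat_lit 1) (nat_lit 5) (nat_lit 6) (nat_lit 168) (nat_lit 61) r3_168 r7_61 (nat_lit 0) (nat_lit 0) (nat_lit 0) (nat_lit 0x75b85a24a6) (nat_lit 5045911416),
  Rx.mk (nat_lit 334) (nat_lit 6) (nat_lit 1) (nat_lit 5) (nat_lit 7) (nat_lit 169) (nat_lit 62) r3_169 r7_62 (nat_lit 0) (nat_lit 0) (nat_lit 0) (nat_lit 0x7f3a485c40) (nat_lit 379102464)]
noncomputable def e55_26 : List Rx := [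
  Rx.mk (nat_lit 268) (nat_lit 4) (nat_lit 1) (nat_lit 4) (nat_lit 2) (nat_lit 177) (nat_lit 333) r3_177 r9_333 (nat_lit 0) (nat_lit 0) (nat_lit 0) (nat_lit 0x7143ff0ecc) (nat_lit 7232425200),
  Rx.mk (nat_lit 270) (nat_lit 6) (nat_lit 1) (nat_lit 4) (nat_lit 3) (nat_lit 180) (nat_lit 336) r3_180 r9_336 (nat_lit 0) (nat_lit 0) (nat_lit 0) (nat_lit 0x7f9d302d60) (nat_lit 189461376),
  Rx.mk (nat_lit 332) (nat_lit 4) (nat_lit 1) (nat_lit 5) (nat_lit 6) (nat_lit 178) (nat_lit 334) r3_178 r9_334 (nat_lit 0) (nat_lit 0) (nat_lit 0) (nat_lit 0x7b2d0a942a) (nat_lit 2367904968),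
  Rx.mk (nat_lit 334) (nat_lit 6) (nat_lit 1) (nat_lit 5) (nat_lit 7) (nat_lit 181) (nat_lit 337) r3_181 r9_337 (nat_lit 0) (nat_lit 0) (nat_lit 0) (nat_lit 0x7f23fc011c) (nat_lit 421857072),
  Rx.mk (nat_lit 460) (nat_lit 4) (nat_lit 1) (nat_lit 7) (nat_lit 6) (nat_lit 179) (nat_lit 335) r3_179 r9_335 (nat_lit 0) (nat_lit 0) (nat_lit 0) (nat_lit 0x7b7cf61522) (nat_lit 2214666792),
  Rx.mk (nat_lit 462) (nat_lit 6) (nat_lit 1) (nat_lit 7) (nat_lit 7) (nat_lit 182) (nat_lit 338) r3_182 r9_338 (nat_lit 0) (nat_lit 0) (nat_lit 0) (nat_lit 0x7eeb84a8ca) (nat_lit 530125128)]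
noncomputable def e55_27 : List Rx := [
  Rx.mk (nat_lit 460) (nat_lit 4) (nat_lit 1) (nat_lit 7) (nat_lit 6) (nat_lit 220) (nat_lit 351) r3_220 r10_351 (nat_lit 0) (nat_lit 0) (nat_lit 0) (nat_lit 0x7ae9e266f0) (nat_lit 2496671424),
  Rx.mk (nat_lit 462) (nat_lit 6) (nat_lit 1) (nat_lit 7) (nat_lit 7) (nat_lit 221) (nat_lit 352) r3_221 r10_352 (nat_lit 0) (nat_lit 0) (nat_lit 0) (nat_lit 0x7fe8167eb0) (nat_lit 45849024)]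
noncomputable def e55_28 : List Rx := [
  Rx.mk (nat_lit 4) (nat_lit 4) (nat_lit 0) (nat_lit 0) (nat_lit 0) (nat_lit 333) (nat_lit 19) r3_333 r10_19 (nat_lit 0) (nat_lit 0) (nat_lit 0) (nat_lit 0x611f400ae2) (nat_lit 15156536616),
  Rx.mk (nat_lit 5) (nat_lit 5) (nat_lit 0) (nat_lit 0) (nat_lit 1) (nat_lit 340) (nat_lit 20) r3_340 r10_20 (nat_lit 0) (nat_lit 0) (nat_lit 0) (nat_lit 0x6c7064ad46) (nat_lit 9601565688),
  Rx.mk (nat_lit 7) (nat_lit 7) (nat_lit 0) (nat_lit 0) (nat_lit 1) (nat_lit 347) (nat_lit 21) r3_347 r10_21 (nat_lit 0) (nat_lit 0) (nat_lit 0) (nat_lit 0x6df68609aa) (nat_lit 8853531336),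
  Rx.mk (nat_lit 20) (nat_lit 4) (nat_lit 2) (nat_lit 0) (nat_lit 2) (nat_lit 334) (nat_lit 22) r3_334 r10_22 (nat_lit 0) (nat_lit 0) (nat_lit 0) (nat_lit 0x7199b2b33c) (nat_lit 7068101040),
  Rx.mk (nat_lit 21) (nat_lit 5) (nat_lit 2) (nat_lit 0) (nat_lit 3) (nat_lit 341) (nat_lit 23) r3_341 r10_23 (nat_lit 0) (nat_lit 0) (nat_lit 0) (nat_lit 0x7bee1be254) (nat_lit 1997717904),
  Rx.mk (nat_lit 23) (nat_lit 7) (nat_lit 2) (nat_lit 0) (nat_lit 3) (nat_lit 348) (nat_lit 24) r3_348 r10_24 (nat_lit 0) (nat_lit 0) (nat_lit 0) (nat_lit 0x7846764056) (nat_lit 3791723832),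
  Rx.mk (nat_lit 68) (nat_lit 4) (nat_lit 0) (nat_lit 1) (nat_lit 4) (nat_lit 335) (nat_lit 25) r3_335 r10_25 (nat_lit 0) (nat_lit 0) (nat_lit 0) (nat_lit 0x6c0e76ec84) (nat_lit 9789333840),
  Rx.mk (nat_lit 69) (nat_lit 5) (nat_lit 0) (nat_lit 1) (nat_lit 5) (nat_lit 342) (nat_lit 26) r3_342 r10_26 (nat_lit 0) (nat_lit 0) (nat_lit 0) (nat_lit 0x7c9d740c22) (nat_lit 1661513256),
  Rx.mk (nat_lit 71) (nat_lit 7) (nat_lit 0) (nat_lit 1) (nat_lit 5) (nat_lit 349) (nat_lit 27) r3_349 r10_27 (nat_lit 0) (nat_lit 0) (nat_lit 0) (nat_lit 0x7aec04a4ca) (nat_lit 2492580168),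
  Rx.mk (nat_lit 84) (nat_lit 4) (nat_lit 2) (nat_lit 1) (nat_lit 6) (nat_lit 336) (nat_lit 28) r3_336 r10_28 (nat_lit 0) (nat_lit 0) (nat_lit 0) (nat_lit 0x7db4419e32) (nat_lit 1126937448),
  Rx.mk (nat_lit 85) (nat_lit 5) (nat_lit 2) (nat_lit 1) (nat_lit 7) (nat_lit 343) (nat_lit 29) r3_343 r10_29 (nat_lit 0) (nat_lit 0) (nat_lit 0) (nat_lit 0x7e26fad22c) (nat_lit 906967152),
  Rx.mk (nat_lit 87) (nat_lit 7) (nat_lit 2) (nat_lit 1) (nat_lit 7) (nat_lit 350) (nat_lit 30) r3_350 r10_30 (nat_lit 0) (nat_lit 0) (nat_lit 0) (nat_lit 0x7e1c68bb58) (nat_lit 927235296),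
  Rx.mk (nat_lit 196) (nat_lit 4) (nat_lit 0) (nat_lit 3) (nat_lit 4) (nat_lit 337) (nat_lit 31) r3_337 r10_31 (nat_lit 0) (nat_lit 0) (nat_lit 0) (nat_lit 0x6e8b4ffc76) (nat_lit 8568244152),
  Rx.mk (nat_lit 197) (nat_lit 5) (nat_lit 0) (nat_lit 3) (nat_lit 5) (nat_lit 344) (nat_lit 32) r3_344 r10_32 (nat_lit 0) (nat_lit 0) (nat_lit 0) (nat_lit 0x7822d6fa6e) (nat_lit 3860025624),
  Rx.mk (nat_lit 212) (nat_lit 4) (nat_lit 2) (nat_lit 3) (nat_lit 6) (nat_lit 338) (nat_lit 35) r3_338 r10_35 (nat_lit 0) (nat_lit 0) (nat_lit 0) (nat_lit 0x7ba330b152) (nat_lit 2141366760),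
  Rx.mk (nat_lit 213) (nat_lit 5) (nat_lit 2) (nat_lit 3) (nat_lit 7) (nat_lit 345) (nat_lit 36) r3_345 r10_36 (nat_lit 0) (nat_lit 0) (nat_lit 0) (nat_lit 0x7e079ac84c) (nat_lit 967125744),
  Rx.mk (nat_lit 220) (nat_lit 4) (nat_lit 3) (nat_lit 3) (nat_lit 6) (nat_lit 339) (nat_lit 33) r3_339 r10_33 (nat_lit 0) (nat_lit 0) (nat_lit 0) (nat_lit 0x7e061120e8) (nat_lit 970074144),
  Rx.mk (nat_lit 221) (nat_lit 5) (nat_lit 3) (nat_lit 3) (nat_lit 7) (nat_lit 346) (nat_lit 34) r3_346 r10_34 (nat_lit 0) (nat_lit 0) (nat_lit 0) (nat_lit 0x7dec2adf66) (nat_lit 1019733624)]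
noncomputable def e55_29 : List Rx := [
  Rx.mk (nat_lit 199) (nat_lit 7) (nat_lit 0) (nat_lit 3) (nat_lit 5) (nat_lit 77) (nat_lit 15) r3_77 r5_15 (nat_lit 0) (nat_lit 0) (nat_lit 0) (nat_lit 0x770d966f8c) (nat_lit 4391627760),
  Rx.mk (nat_lit 215) (nat_lit 7) (nat_lit 2) (nat_lit 3) (nat_lit 7) (nat_lit 78) (nat_lit 16) r3_78 r5_16 (nat_lit 0) (nat_lit 0) (nat_lit 0) (nat_lit 0x7f3a4a3c22) (nat_lit 379088424),
  Rx.mk (nat_lit 286) (nat_lit 6) (nat_lit 3) (nat_lit 4) (nat_lit 3) (nat_lit 74) (nat_lit 17) r3_74 r5_17 (nat_lit 0) (nat_lit 0) (nat_lit 0) (nat_lit 0x7ec8641af6) (nat_lit 597477816),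
  Rx.mk (nat_lit 452) (nat_lit 4) (nat_lit 0) (nat_lit 7) (nat_lit 4) (nat_lit 72) (nat_lit 12) r3_72 r5_12 (nat_lit 0) (nat_lit 0) (nat_lit 0) (nat_lit 0x7ffa96b69a) (nat_lit 10375560),
  Rx.mk (nat_lit 454) (nat_lit 6) (nat_lit 0) (nat_lit 7) (nat_lit 5) (nat_lit 75) (nat_lit 18) r3_75 r5_18 (nat_lit 0) (nat_lit 0) (nat_lit 0) (nat_lit 0x7ea6edd27c) (nat_lit 661637808),
  Rx.mk (nat_lit 455) (nat_lit 7) (nat_lit 0) (nat_lit 7) (nat_lit 5) (nat_lit 79) (nat_lit 14) r3_79 r5_14 (nat_lit 0) (nat_lit 0) (nat_lit 0) (nat_lit 0x783b195630) (nat_lit 3813511104),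
  Rx.mk (nat_lit 476) (nat_lit 4) (nat_lit 3) (nat_lit 7) (nat_lit 6) (nat_lit 73) (nat_lit 13) r3_73 r5_13 (nat_lit 0) (nat_lit 0) (nat_lit 0) (nat_lit 0x78c2869ed4) (nat_lit 3553844112),
  Rx.mk (nat_lit 478) (nat_lit 6) (nat_lit 3) (nat_lit 7) (nat_lit 7) (nat_lit 76) (nat_lit 19) r3_76 r5_19 (nat_lit 0) (nat_lit 0) (nat_lit 0) (nat_lit 0x7f51b98516) (nat_lit 334154808)]
noncomputable def e55_30 : List Rx := [
  Rx.mk (nat_lit 260) (nat_lit 4) (nat_lit 0) (nat_lit 4) (nat_lit 0) (nat_lit 183) (nat_lit 19) r3_183 r10_19 (nat_lit 0) (nat_lit 0) (nat_lit 0) (nat_lit 0x611f400ae2) (nat_lit 15156536616),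
  Rx.mk (nat_lit 262) (nat_lit 6) (nat_lit 0) (nat_lit 4) (nat_lit 1) (nat_lit 191) (nat_lit 22) r3_191 r10_22 (nat_lit 0) (nat_lit 0) (nat_lit 0) (nat_lit 0x7199b2b33c) (nat_lit 7068101040),
  Rx.mk (nat_lit 268) (nat_lit 4) (nat_lit 1) (nat_lit 4) (nat_lit 2) (nat_lit 184) (nat_lit 20) r3_184 r10_20 (nat_lit 0) (nat_lit 0) (nat_lit 0) (nat_lit 0x6c7064ad46) (nat_lit 9601565688),
  Rx.mk (nat_lit 270) (nat_lit 6) (nat_lit 1) (nat_lit 4) (nat_lit 3) (nat_lit 192) (nat_lit 23) r3_192 r10_23 (nat_lit 0) (nat_lit 0) (nat_lit 0) (nat_lit 0x7bee1be254) (nat_lit 1997717904),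
  Rx.mk (nat_lit 284) (nat_lit 4) (nat_lit 3) (nat_lit 4) (nat_lit 2) (nat_lit 185) (nat_lit 21) r3_185 r10_21 (nat_lit 0) (nat_lit 0) (nat_lit 0) (nat_lit 0x6df68609aa) (nat_lit 8853531336),
  Rx.mk (nat_lit 286) (nat_lit 6) (nat_lit 3) (nat_lit 4) (nat_lit 3) (nat_lit 193) (nat_lit 24) r3_193 r10_24 (nat_lit 0) (nat_lit 0) (nat_lit 0) (nat_lit 0x7846764056) (nat_lit 3791723832),
  Rx.mk (nat_lit 324) (nat_lit 4) (nat_lit 0) (nat_lit 5) (nat_lit 4) (nat_lit 186) (nat_lit 25) r3_186 r10_25 (nat_lit 0) (nat_lit 0) (nat_lit 0) (nat_lit 0x6c0e76ec84) (nat_lit 9789333840),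
  Rx.mk (nat_lit 326) (nat_lit 6) (nat_lit 0) (nat_lit 5) (nat_lit 5) (nat_lit 194) (nat_lit 28) r3_194 r10_28 (nat_lit 0) (nat_lit 0) (nat_lit 0) (nat_lit 0x7db4419e32) (nat_lit 1126937448),
  Rx.mk (nat_lit 332) (nat_lit 4) (nat_lit 1) (nat_lit 5) (nat_lit 6) (nat_lit 187) (nat_lit 26) r3_187 r10_26 (nat_lit 0) (nat_lit 0) (nat_lit 0) (nat_lit 0x7c9d740c22) (nat_lit 1661513256),
  Rx.mk (nat_lit 334) (nat_lit 6) (nat_lit 1) (nat_lit 5) (nat_lit 7) (nat_lit 195) (nat_lit 29) r3_195 r10_29 (nat_lit 0) (nat_lit 0) (nat_lit 0) (nat_lit 0x7e26fad22c) (nat_lit 906967152),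
  Rx.mk (nat_lit 348) (nat_lit 4) (nat_lit 3) (nat_lit 5) (nat_lit 6) (nat_lit 188) (nat_lit 27) r3_188 r10_27 (nat_lit 0) (nat_lit 0) (nat_lit 0) (nat_lit 0x7aec04a4ca) (nat_lit 2492580168),
  Rx.mk (nat_lit 350) (nat_lit 6) (nat_lit 3) (nat_lit 5) (nat_lit 7) (nat_lit 196) (nat_lit 30) r3_196 r10_30 (nat_lit 0) (nat_lit 0) (nat_lit 0) (nat_lit 0x7e1c68bb58) (nat_lit 927235296),
  Rx.mk (nat_lit 452) (nat_lit 4) (nat_lit 0) (nat_lit 7) (nat_lit 4) (nat_lit 189) (nat_lit 31) r3_189 r10_31 (nat_lit 0) (nat_lit 0) (nat_lit 0) (nat_lit 0x6e8b4ffc76) (nat_lit 8568244152),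
  Rx.mk (nat_lit 454) (nat_lit 6) (nat_lit 0) (nat_lit 7) (nat_lit 5) (nat_lit 197) (nat_lit 35) r3_197 r10_35 (nat_lit 0) (nat_lit 0) (nat_lit 0) (nat_lit 0x7ba330b152) (nat_lit 2141366760),
  Rx.mk (nat_lit 455) (nat_lit 7) (nat_lit 0) (nat_lit 7) (nat_lit 5) (nat_lit 199) (nat_lit 33) r3_199 r10_33 (nat_lit 0) (nat_lit 0) (nat_lit 0) (nat_lit 0x7e061120e8) (nat_lit 970074144),
  Rx.mk (nat_lit 460) (nat_lit 4) (nat_lit 1) (nat_lit 7) (nat_lit 6) (nat_lit 190) (nat_lit 32) r3_190 r10_32 (nat_lit 0) (nat_lit 0) (nat_lit 0) (nat_lit 0x7822d6fa6e) (nat_lit 3860025624),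
  Rx.mk (nat_lit 462) (nat_lit 6) (nat_lit 1) (nat_lit 7) (nat_lit 7) (nat_lit 198) (nat_lit 36) r3_198 r10_36 (nat_lit 0) (nat_lit 0) (nat_lit 0) (nat_lit 0x7e079ac84c) (nat_lit 967125744),
  Rx.mk (nat_lit 463) (nat_lit 7) (nat_lit 1) (nat_lit 7) (nat_lit 7) (nat_lit 200) (nat_lit 34) r3_200 r10_34 (nat_lit 0) (nat_lit 0) (nat_lit 0) (nat_lit 0x7dec2adf66) (nat_lit 1019733624)]
noncomputable def e55_31 : List Rx := [
  Rx.mk (nat_lit 23) (nat_lit 7) (nat_lit 2) (nat_lit 0) (nat_lit 3) (nat_lit 227) (nat_lit 17) r3_227 r5_17 (nat_lit 0) (nat_lit 0) (nat_lit 0) (nat_lit 0x7ec8641af6) (nat_lit 597477816),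
  Rx.mk (nat_lit 196) (nat_lit 4) (nat_lit 0) (nat_lit 3) (nat_lit 4) (nat_lit 222) (nat_lit 12) r3_222 r5_12 (nat_lit 0) (nat_lit 0) (nat_lit 0) (nat_lit 0x7ffa96b69a) (nat_lit 10375560),
  Rx.mk (nat_lit 199) (nat_lit 7) (nat_lit 0) (nat_lit 3) (nat_lit 5) (nat_lit 228) (nat_lit 13) r3_228 r5_13 (nat_lit 0) (nat_lit 0) (nat_lit 0) (nat_lit 0x78c2869ed4) (nat_lit 3553844112),
  Rx.mk (nat_lit 212) (nat_lit 4) (nat_lit 2) (nat_lit 3) (nat_lit 6) (nat_lit 223) (nat_lit 18) r3_223 r5_18 (nat_lit 0) (nat_lit 0) (nat_lit 0) (nat_lit 0x7ea6edd27c) (nat_lit 661637808),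
  Rx.mk (nat_lit 215) (nat_lit 7) (nat_lit 2) (nat_lit 3) (nat_lit 7) (nat_lit 229) (nat_lit 19) r3_229 r5_19 (nat_lit 0) (nat_lit 0) (nat_lit 0) (nat_lit 0x7f51b98516) (nat_lit 334154808),
  Rx.mk (nat_lit 220) (nat_lit 4) (nat_lit 3) (nat_lit 3) (nat_lit 6) (nat_lit 224) (nat_lit 14) r3_224 r5_14 (nat_lit 0) (nat_lit 0) (nat_lit 0) (nat_lit 0x783b195630) (nat_lit 3813511104),
  Rx.mk (nat_lit 476) (nat_lit 4) (nat_lit 3) (nat_lit 7) (nat_lit 6) (nat_lit 225) (nat_lit 15) r3_225 r5_15 (nat_lit 0) (nat_lit 0) (nat_lit 0) (nat_lit 0x770d966f8c) (nat_lit 4391627760),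
  Rx.mk (nat_lit 478) (nat_lit 6) (nat_lit 3) (nat_lit 7) (nat_lit 7) (nat_lit 226) (nat_lit 16) r3_226 r5_16 (nat_lit 0) (nat_lit 0) (nat_lit 0) (nat_lit 0x7f3a4a3c22) (nat_lit 379088424)]
noncomputable def e55_32 : List Rx := [
  Rx.mk (nat_lit 196) (nat_lit 4) (nat_lit 0) (nat_lit 3) (nat_lit 4) (nat_lit 230) (nat_lit 384) r3_230 r11_384 (nat_lit 0) (nat_lit 0) (nat_lit 0) (nat_lit 0x7f8a217e5e) (nat_lit 226001880),
  Rx.mk (nat_lit 199) (nat_lit 7) (nat_lit 0) (nat_lit 3) (nat_lit 5) (nat_lit 236) (nat_lit 388) r3_236 r11_388 (nat_lit 0) (nat_lit 0) (nat_lit 0) (nat_lit 0x74e254a5d4) (nat_lit 5456275344),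
  Rx.mk (nat_lit 212) (nat_lit 4) (nat_lit 2) (nat_lit 3) (nat_lit 6) (nat_lit 231) (nat_lit 387) r3_231 r11_387 (nat_lit 0) (nat_lit 0) (nat_lit 0) (nat_lit 0x7f1946ac7c) (nat_lit 442389168),
  Rx.mk (nat_lit 215) (nat_lit 7) (nat_lit 2) (nat_lit 3) (nat_lit 7) (nat_lit 237) (nat_lit 389) r3_237 r11_389 (nat_lit 0) (nat_lit 0) (nat_lit 0) (nat_lit 0x7f616e09be) (nat_lit 304041816),
  Rx.mk (nat_lit 452) (nat_lit 4) (nat_lit 0) (nat_lit 7) (nat_lit 4) (nat_lit 232) (nat_lit 385) r3_232 r11_385 (nat_lit 0) (nat_lit 0) (nat_lit 0) (nat_lit 0x7f8a217e5e) (nat_lit 226001880),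
  Rx.mk (nat_lit 454) (nat_lit 6) (nat_lit 0) (nat_lit 7) (nat_lit 5) (nat_lit 234) (nat_lit 390) r3_234 r11_390 (nat_lit 0) (nat_lit 0) (nat_lit 0) (nat_lit 0x7f1946ac7c) (nat_lit 442389168),
  Rx.mk (nat_lit 476) (nat_lit 4) (nat_lit 3) (nat_lit 7) (nat_lit 6) (nat_lit 233) (nat_lit 386) r3_233 r11_386 (nat_lit 0) (nat_lit 0) (nat_lit 0) (nat_lit 0x74e254a5d4) (nat_lit 5456275344),
  Rx.mk (nat_lit 478) (nat_lit 6) (nat_lit 3) (nat_lit 7) (nat_lit 7) (nat_lit 235) (nat_lit 391) r3_235 r11_391 (nat_lit 0) (nat_lit 0) (nat_lit 0) (nat_lit 0x7f616e09be) (nat_lit 304041816)]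
noncomputable def e55_33 : List Rx := [
  Rx.mk (nat_lit 176) (nat_lit 0) (nat_lit 6) (nat_lit 2) (nat_lit 6) (nat_lit 0) (nat_lit 48) r3_0 r0_48 (nat_lit 0) (nat_lit 0) (nat_lit 0) (nat_lit 0x6dba6c2b84) (nat_lit 8968768848),
  Rx.mk (nat_lit 178) (nat_lit 2) (nat_lit 6) (nat_lit 2) (nat_lit 7) (nat_lit 1) (nat_lit 51) r3_1 r0_51 (nat_lit 0) (nat_lit 0) (nat_lit 0) (nat_lit 0x7b04e536a8) (nat_lit 2444880672),
  Rx.mk (nat_lit 294) (nat_lit 6) (nat_lit 4) (nat_lit 4) (nat_lit 1) (nat_lit 4) (nat_lit 43) r3_4 r0_43 (nat_lit 0) (nat_lit 0) (nat_lit 0) (nat_lit 0x8000000000) (nat_lit 0),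
  Rx.mk (nat_lit 318) (nat_lit 6) (nat_lit 7) (nat_lit 4) (nat_lit 3) (nat_lit 5) (nat_lit 44) r3_5 r0_44 (nat_lit 0) (nat_lit 0) (nat_lit 0) (nat_lit 0x789f9ccd94) (nat_lit 3620786832),
  Rx.mk (nat_lit 418) (nat_lit 2) (nat_lit 4) (nat_lit 6) (nat_lit 5) (nat_lit 2) (nat_lit 49) r3_2 r0_49 (nat_lit 0) (nat_lit 0) (nat_lit 0) (nat_lit 0x7ef7fa0168) (nat_lit 506237472),
  Rx.mk (nat_lit 422) (nat_lit 6) (nat_lit 4) (nat_lit 6) (nat_lit 5) (nat_lit 6) (nat_lit 46) r3_6 r0_46 (nat_lit 0) (nat_lit 0) (nat_lit 0) (nat_lit 0x8000000000) (nat_lit 0),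
  Rx.mk (nat_lit 434) (nat_lit 2) (nat_lit 6) (nat_lit 6) (nat_lit 7) (nat_lit 3) (nat_lit 50) r3_3 r0_50 (nat_lit 0) (nat_lit 0) (nat_lit 0) (nat_lit 0x7f3f0caff6) (nat_lit 369962424),
  Rx.mk (nat_lit 446) (nat_lit 6) (nat_lit 7) (nat_lit 6) (nat_lit 7) (nat_lit 7) (nat_lit 47) r3_7 r0_47 (nat_lit 0) (nat_lit 0) (nat_lit 0) (nat_lit 0x7c4bfa640e) (nat_lit 1817733528),
  Rx.mk (nat_lit 510) (nat_lit 6) (nat_lit 7) (nat_lit 7) (nat_lit 7) (nat_lit 8) (nat_lit 45) r3_8 r0_45 (nat_lit 0) (nat_lit 0) (nat_lit 0) (nat_lit 0x7aaf35b1f6) (nat_lit 2609173944)]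
noncomputable def e55_34 : List Rx := [
  Rx.mk (nat_lit 16) (nat_lit 0) (nat_lit 2) (nat_lit 0) (nat_lit 2) (nat_lit 88) (nat_lit 43) r3_88 r0_43 (nat_lit 0) (nat_lit 0) (nat_lit 0) (nat_lit 0x8000000000) (nat_lit 0),
  Rx.mk (nat_lit 19) (nat_lit 3) (nat_lit 2) (nat_lit 0) (nat_lit 3) (nat_lit 94) (nat_lit 44) r3_94 r0_44 (nat_lit 0) (nat_lit 0) (nat_lit 0) (nat_lit 0x789f9ccd94) (nat_lit 3620786832),
  Rx.mk (nat_lit 144) (nat_lit 0) (nat_lit 2) (nat_lit 2) (nat_lit 6) (nat_lit 89) (nat_lit 46) r3_89 r0_46 (nat_lit 0) (nat_lit 0) (nat_lit 0) (nat_lit 0x8000000000) (nat_lit 0),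
  Rx.mk (nat_lit 147) (nat_lit 3) (nat_lit 2) (nat_lit 2) (nat_lit 7) (nat_lit 95) (nat_lit 47) r3_95 r0_47 (nat_lit 0) (nat_lit 0) (nat_lit 0) (nat_lit 0x7c4bfa640e) (nat_lit 1817733528),
  Rx.mk (nat_lit 176) (nat_lit 0) (nat_lit 6) (nat_lit 2) (nat_lit 6) (nat_lit 90) (nat_lit 49) r3_90 r0_49 (nat_lit 0) (nat_lit 0) (nat_lit 0) (nat_lit 0x7ef7fa0168) (nat_lit 506237472),
  Rx.mk (nat_lit 178) (nat_lit 2) (nat_lit 6) (nat_lit 2) (nat_lit 7) (nat_lit 91) (nat_lit 50) r3_91 r0_50 (nat_lit 0) (nat_lit 0) (nat_lit 0) (nat_lit 0x7f3f0caff6) (nat_lit 369962424),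
  Rx.mk (nat_lit 211) (nat_lit 3) (nat_lit 2) (nat_lit 3) (nat_lit 7) (nat_lit 96) (nat_lit 45) r3_96 r0_45 (nat_lit 0) (nat_lit 0) (nat_lit 0) (nat_lit 0x7aaf35b1f6) (nat_lit 2609173944),
  Rx.mk (nat_lit 418) (nat_lit 2) (nat_lit 4) (nat_lit 6) (nat_lit 5) (nat_lit 92) (nat_lit 48) r3_92 r0_48 (nat_lit 0) (nat_lit 0) (nat_lit 0) (nat_lit 0x6dba6c2b84) (nat_lit 8968768848),
  Rx.mk (nat_lit 434) (nat_lit 2) (nat_lit 6) (nat_lit 6) (nat_lit 7) (nat_lit 93) (nat_lit 51) r3_93 r0_51 (nat_lit 0) (nat_lit 0) (nat_lit 0) (nat_lit 0x7b04e536a8) (nat_lit 2444880672)]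
noncomputable def e55_35 : List Rx := [
  Rx.mk (nat_lit 176) (nat_lit 0) (nat_lit 6) (nat_lit 2) (nat_lit 6) (nat_lit 97) (nat_lit 35) r3_97 r6_35 (nat_lit 0) (nat_lit 0) (nat_lit 0) (nat_lit 0x7fdd138eea) (nat_lit 66962376),
  Rx.mk (nat_lit 178) (nat_lit 2) (nat_lit 6) (nat_lit 2) (nat_lit 7) (nat_lit 98) (nat_lit 38) r3_98 r6_38 (nat_lit 0) (nat_lit 0) (nat_lit 0) (nat_lit 0x7e36b136b6) (nat_lit 876840120),
  Rx.mk (nat_lit 418) (nat_lit 2) (nat_lit 4) (nat_lit 6) (nat_lit 5) (nat_lit 99) (nat_lit 36) r3_99 r6_36 (nat_lit 0) (nat_lit 0) (nat_lit 0) (nat_lit 0x7fdd138eea) (nat_lit 66962376),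
  Rx.mk (nat_lit 434) (nat_lit 2) (nat_lit 6) (nat_lit 6) (nat_lit 7) (nat_lit 100) (nat_lit 37) r3_100 r6_37 (nat_lit 0) (nat_lit 0) (nat_lit 0) (nat_lit 0x7e36b136b6) (nat_lit 876840120)]
noncomputable def e55_36 : List Rx := [
  Rx.mk (nat_lit 17) (nat_lit 1) (nat_lit 2) (nat_lit 0) (nat_lit 3) (nat_lit 249) (nat_lit 44) r3_249 r2_44 (nat_lit 0) (nat_lit 0) (nat_lit 0) (nat_lit 0x7fc66c7972) (nat_lit 110396520),
  Rx.mk (nat_lit 145) (nat_lit 1) (nat_lit 2) (nat_lit 2) (nat_lit 7) (nat_lit 250) (nat_lit 45) r3_250 r2_45 (nat_lit 0) (nat_lit 0) (nat_lit 0) (nat_lit 0x7f19302de4) (nat_lit 442557648),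
  Rx.mk (nat_lit 177) (nat_lit 1) (nat_lit 6) (nat_lit 2) (nat_lit 7) (nat_lit 251) (nat_lit 46) r3_251 r2_46 (nat_lit 0) (nat_lit 0) (nat_lit 0) (nat_lit 0x7f3a2d5df0) (nat_lit 379304640)]
noncomputable def e55_37 : List Rx := [
  Rx.mk (nat_lit 177) (nat_lit 1) (nat_lit 6) (nat_lit 2) (nat_lit 7) (nat_lit 256) (nat_lit 14) r3_256 r8_14 (nat_lit 0) (nat_lit 0) (nat_lit 0) (nat_lit 0x7ad52b5276) (nat_lit 2536390584)]
noncomputable def e55_38 : List Rx := [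
  Rx.mk (nat_lit 17) (nat_lit 1) (nat_lit 2) (nat_lit 0) (nat_lit 3) (nat_lit 252) (nat_lit 19) r3_252 r8_19 (nat_lit 0) (nat_lit 0) (nat_lit 0) (nat_lit 0x6e3f9218a0) (nat_lit 8713471104),
  Rx.mk (nat_lit 81) (nat_lit 1) (nat_lit 2) (nat_lit 1) (nat_lit 7) (nat_lit 253) (nat_lit 20) r3_253 r8_20 (nat_lit 0) (nat_lit 0) (nat_lit 0) (nat_lit 0x7c4a3100a6) (nat_lit 1821159288),
  Rx.mk (nat_lit 145) (nat_lit 1) (nat_lit 2) (nat_lit 2) (nat_lit 7) (nat_lit 254) (nat_lit 22) r3_254 r8_22 (nat_lit 0) (nat_lit 0) (nat_lit 0) (nat_lit 0x7764b97d04) (nat_lit 4224551760),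
  Rx.mk (nat_lit 177) (nat_lit 1) (nat_lit 6) (nat_lit 2) (nat_lit 7) (nat_lit 255) (nat_lit 21) r3_255 r8_21 (nat_lit 0) (nat_lit 0) (nat_lit 0) (nat_lit 0x7bb65c3e86) (nat_lit 2104610040)]
noncomputable def e55_39 : List Rx := [
  Rx.mk (nat_lit 16) (nat_lit 0) (nat_lit 2) (nat_lit 0) (nat_lit 2) (nat_lit 101) (nat_lit 39) r3_101 r1_39 (nat_lit 0) (nat_lit 0) (nat_lit 0) (nat_lit 0x8000000000) (nat_lit 0),
  Rx.mk (nat_lit 17) (nat_lit 1) (nat_lit 2) (nat_lit 0) (nat_lit 3) (nat_lit 104) (nat_lit 40) r3_104 r1_40 (nat_lit 0) (nat_lit 0) (nat_lit 0) (nat_lit 0x7ecc02e106) (nat_lit 590536440),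
  Rx.mk (nat_lit 19) (nat_lit 3) (nat_lit 2) (nat_lit 0) (nat_lit 3) (nat_lit 109) (nat_lit 41) r3_109 r1_41 (nat_lit 0) (nat_lit 0) (nat_lit 0) (nat_lit 0x7e2853bc9c) (nat_lit 904383792),
  Rx.mk (nat_lit 144) (nat_lit 0) (nat_lit 2) (nat_lit 2) (nat_lit 6) (nat_lit 102) (nat_lit 43) r3_102 r1_43 (nat_lit 0) (nat_lit 0) (nat_lit 0) (nat_lit 0x7d89c9a5dc) (nat_lit 1208366640),
  Rx.mk (nat_lit 145) (nat_lit 1) (nat_lit 2) (nat_lit 2) (nat_lit 7) (nat_lit 105) (nat_lit 44) r3_105 r1_44 (nat_lit 0) (nat_lit 0) (nat_lit 0) (nat_lit 0x7ed104b0e4) (nat_lit 580935888),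
  Rx.mk (nat_lit 147) (nat_lit 3) (nat_lit 2) (nat_lit 2) (nat_lit 7) (nat_lit 110) (nat_lit 45) r3_110 r1_45 (nat_lit 0) (nat_lit 0) (nat_lit 0) (nat_lit 0x7e3f27cf44) (nat_lit 860612688),
  Rx.mk (nat_lit 176) (nat_lit 0) (nat_lit 6) (nat_lit 2) (nat_lit 6) (nat_lit 103) (nat_lit 46) r3_103 r1_46 (nat_lit 0) (nat_lit 0) (nat_lit 0) (nat_lit 0x7c72d45648) (nat_lit 1743240096),
  Rx.mk (nat_lit 177) (nat_lit 1) (nat_lit 6) (nat_lit 2) (nat_lit 7) (nat_lit 106) (nat_lit 47) r3_106 r1_47 (nat_lit 0) (nat_lit 0) (nat_lit 0) (nat_lit 0x7f3b894830) (nat_lit 376698816),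
  Rx.mk (nat_lit 178) (nat_lit 2) (nat_lit 6) (nat_lit 2) (nat_lit 7) (nat_lit 107) (nat_lit 48) r3_107 r1_48 (nat_lit 0) (nat_lit 0) (nat_lit 0) (nat_lit 0x7ee53b2d68) (nat_lit 542179872),
  Rx.mk (nat_lit 211) (nat_lit 3) (nat_lit 2) (nat_lit 3) (nat_lit 7) (nat_lit 111) (nat_lit 42) r3_111 r1_42 (nat_lit 0) (nat_lit 0) (nat_lit 0) (nat_lit 0x7efab4d5b8) (nat_lit 501003360),
  Rx.mk (nat_lit 434) (nat_lit 2) (nat_lit 6) (nat_lit 6) (nat_lit 7) (nat_lit 108) (nat_lit 49) r3_108 r1_49 (nat_lit 0) (nat_lit 0) (nat_lit 0) (nat_lit 0x7e2ce9f334) (nat_lit 895589136)]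
noncomputable def e55_40 : List Rx := [
  Rx.mk (nat_lit 176) (nat_lit 0) (nat_lit 6) (nat_lit 2) (nat_lit 6) (nat_lit 112) (nat_lit 43) r3_112 r7_43 (nat_lit 0) (nat_lit 0) (nat_lit 0) (nat_lit 0x78cfd7a9b6) (nat_lit 3528310968),
  Rx.mk (nat_lit 177) (nat_lit 1) (nat_lit 6) (nat_lit 2) (nat_lit 7) (nat_lit 113) (nat_lit 44) r3_113 r7_44 (nat_lit 0) (nat_lit 0) (nat_lit 0) (nat_lit 0x7ed1aa068e) (nat_lit 579697560),
  Rx.mk (nat_lit 178) (nat_lit 2) (nat_lit 6) (nat_lit 2) (nat_lit 7) (nat_lit 114) (nat_lit 46) r3_114 r7_46 (nat_lit 0) (nat_lit 0) (nat_lit 0) (nat_lit 0x7c243dfffc) (nat_lit 1893922992),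
  Rx.mk (nat_lit 434) (nat_lit 2) (nat_lit 6) (nat_lit 6) (nat_lit 7) (nat_lit 115) (nat_lit 45) r3_115 r7_45 (nat_lit 0) (nat_lit 0) (nat_lit 0) (nat_lit 0x7c4848df2a) (nat_lit 1824815304)]
noncomputable def e55_41 : List Rx := [
  Rx.mk (nat_lit 178) (nat_lit 2) (nat_lit 6) (nat_lit 2) (nat_lit 7) (nat_lit 9) (nat_lit 49) r3_9 r1_49 (nat_lit 0) (nat_lit 0) (nat_lit 0) (nat_lit 0x7e2ce9f334) (nat_lit 895589136),
  Rx.mk (nat_lit 294) (nat_lit 6) (nat_lit 4) (nat_lit 4) (nat_lit 1) (nat_lit 13) (nat_lit 39) r3_13 r1_39 (nat_lit 0) (nat_lit 0) (nat_lit 0) (nat_lit 0x8000000000) (nat_lit 0),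
  Rx.mk (nat_lit 302) (nat_lit 6) (nat_lit 5) (nat_lit 4) (nat_lit 3) (nat_lit 14) (nat_lit 40) r3_14 r1_40 (nat_lit 0) (nat_lit 0) (nat_lit 0) (nat_lit 0x7ecc02e106) (nat_lit 590536440),
  Rx.mk (nat_lit 318) (nat_lit 6) (nat_lit 7) (nat_lit 4) (nat_lit 3) (nat_lit 15) (nat_lit 41) r3_15 r1_41 (nat_lit 0) (nat_lit 0) (nat_lit 0) (nat_lit 0x7e2853bc9c) (nat_lit 904383792),
  Rx.mk (nat_lit 418) (nat_lit 2) (nat_lit 4) (nat_lit 6) (nat_lit 5) (nat_lit 10) (nat_lit 46) r3_10 r1_46 (nat_lit 0) (nat_lit 0) (nat_lit 0) (nat_lit 0x7c72d45648) (nat_lit 1743240096),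
  Rx.mk (nat_lit 422) (nat_lit 6) (nat_lit 4) (nat_lit 6) (nat_lit 5) (nat_lit 16) (nat_lit 43) r3_16 r1_43 (nat_lit 0) (nat_lit 0) (nat_lit 0) (nat_lit 0x7d89c9a5dc) (nat_lit 1208366640),
  Rx.mk (nat_lit 426) (nat_lit 2) (nat_lit 5) (nat_lit 6) (nat_lit 7) (nat_lit 11) (nat_lit 47) r3_11 r1_47 (nat_lit 0) (nat_lit 0) (nat_lit 0) (nat_lit 0x7f3b894830) (nat_lit 376698816),
  Rx.mk (nat_lit 430) (nat_lit 6) (nat_lit 5) (nat_lit 6) (nat_lit 7) (nat_lit 17) (nat_lit 44) r3_17 r1_44 (nat_lit 0) (nat_lit 0) (nat_lit 0) (nat_lit 0x7ed104b0e4) (nat_lit 580935888),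
  Rx.mk (nat_lit 434) (nat_lit 2) (nat_lit 6) (nat_lit 6) (nat_lit 7) (nat_lit 12) (nat_lit 48) r3_12 r1_48 (nat_lit 0) (nat_lit 0) (nat_lit 0) (nat_lit 0x7ee53b2d68) (nat_lit 542179872),
  Rx.mk (nat_lit 446) (nat_lit 6) (nat_lit 7) (nat_lit 6) (nat_lit 7) (nat_lit 18) (nat_lit 45) r3_18 r1_45 (nat_lit 0) (nat_lit 0) (nat_lit 0) (nat_lit 0x7e3f27cf44) (nat_lit 860612688),
  Rx.mk (nat_lit 510) (nat_lit 6) (nat_lit 7) (nat_lit 7) (nat_lit 7) (nat_lit 19) (nat_lit 42) r3_19 r1_42 (nat_lit 0) (nat_lit 0) (nat_lit 0) (nat_lit 0x7efab4d5b8) (nat_lit 501003360)]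
noncomputable def e55_42 : List Rx := [
  Rx.mk (nat_lit 302) (nat_lit 6) (nat_lit 5) (nat_lit 4) (nat_lit 3) (nat_lit 21) (nat_lit 44) r3_21 r2_44 (nat_lit 0) (nat_lit 0) (nat_lit 0) (nat_lit 0x7fc66c7972) (nat_lit 110396520),
  Rx.mk (nat_lit 426) (nat_lit 2) (nat_lit 5) (nat_lit 6) (nat_lit 7) (nat_lit 20) (nat_lit 46) r3_20 r2_46 (nat_lit 0) (nat_lit 0) (nat_lit 0) (nat_lit 0x7f3a2d5df0) (nat_lit 379304640),
  Rx.mk (nat_lit 430) (nat_lit 6) (nat_lit 5) (nat_lit 6) (nat_lit 7) (nat_lit 22) (nat_lit 45) r3_22 r2_45 (nat_lit 0) (nat_lit 0) (nat_lit 0) (nat_lit 0x7f19302de4) (nat_lit 442557648)]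
noncomputable def e55_43 : List Rx := [
  Rx.mk (nat_lit 178) (nat_lit 2) (nat_lit 6) (nat_lit 2) (nat_lit 7) (nat_lit 116) (nat_lit 45) r3_116 r7_45 (nat_lit 0) (nat_lit 0) (nat_lit 0) (nat_lit 0x7c4848df2a) (nat_lit 1824815304),
  Rx.mk (nat_lit 418) (nat_lit 2) (nat_lit 4) (nat_lit 6) (nat_lit 5) (nat_lit 117) (nat_lit 43) r3_117 r7_43 (nat_lit 0) (nat_lit 0) (nat_lit 0) (nat_lit 0x78cfd7a9b6) (nat_lit 3528310968),
  Rx.mk (nat_lit 426) (nat_lit 2) (nat_lit 5) (nat_lit 6) (nat_lit 7) (nat_lit 118) (nat_lit 44) r3_118 r7_44 (nat_lit 0) (nat_lit 0) (nat_lit 0) (nat_lit 0x7ed1aa068e) (nat_lit 579697560),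
  Rx.mk (nat_lit 434) (nat_lit 2) (nat_lit 6) (nat_lit 6) (nat_lit 7) (nat_lit 119) (nat_lit 46) r3_119 r7_46 (nat_lit 0) (nat_lit 0) (nat_lit 0) (nat_lit 0x7c243dfffc) (nat_lit 1893922992)]
noncomputable def e55_44 : List Rx := [
  Rx.mk (nat_lit 426) (nat_lit 2) (nat_lit 5) (nat_lit 6) (nat_lit 7) (nat_lit 120) (nat_lit 14) r3_120 r8_14 (nat_lit 0) (nat_lit 0) (nat_lit 0) (nat_lit 0x7ad52b5276) (nat_lit 2536390584)]
noncomputable def e55_45 : List Rx := [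
  Rx.mk (nat_lit 302) (nat_lit 6) (nat_lit 5) (nat_lit 4) (nat_lit 3) (nat_lit 139) (nat_lit 19) r3_139 r8_19 (nat_lit 0) (nat_lit 0) (nat_lit 0) (nat_lit 0x6e3f9218a0) (nat_lit 8713471104),
  Rx.mk (nat_lit 366) (nat_lit 6) (nat_lit 5) (nat_lit 5) (nat_lit 7) (nat_lit 140) (nat_lit 20) r3_140 r8_20 (nat_lit 0) (nat_lit 0) (nat_lit 0) (nat_lit 0x7c4a3100a6) (nat_lit 1821159288),
  Rx.mk (nat_lit 426) (nat_lit 2) (nat_lit 5) (nat_lit 6) (nat_lit 7) (nat_lit 138) (nat_lit 21) r3_138 r8_21 (nat_lit 0) (nat_lit 0) (nat_lit 0) (nat_lit 0x7bb65c3e86) (nat_lit 2104610040),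
  Rx.mk (nat_lit 430) (nat_lit 6) (nat_lit 5) (nat_lit 6) (nat_lit 7) (nat_lit 141) (nat_lit 22) r3_141 r8_22 (nat_lit 0) (nat_lit 0) (nat_lit 0) (nat_lit 0x7764b97d04) (nat_lit 4224551760)]
noncomputable def e55_46 : List Rx := [
  Rx.mk (nat_lit 176) (nat_lit 0) (nat_lit 6) (nat_lit 2) (nat_lit 6) (nat_lit 40) (nat_lit 34) r3_40 r4_34 (nat_lit 0) (nat_lit 0) (nat_lit 0) (nat_lit 0x7f3136ed60) (nat_lit 396489600),
  Rx.mk (nat_lit 178) (nat_lit 2) (nat_lit 6) (nat_lit 2) (nat_lit 7) (nat_lit 41) (nat_lit 39) r3_41 r4_39 (nat_lit 0) (nat_lit 0) (nat_lit 0) (nat_lit 0x7e65b0c68e) (nat_lit 786725784),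
  Rx.mk (nat_lit 179) (nat_lit 3) (nat_lit 6) (nat_lit 2) (nat_lit 7) (nat_lit 45) (nat_lit 35) r3_45 r4_35 (nat_lit 0) (nat_lit 0) (nat_lit 0) (nat_lit 0x7f09322dd4) (nat_lit 473221008),
  Rx.mk (nat_lit 318) (nat_lit 6) (nat_lit 7) (nat_lit 4) (nat_lit 3) (nat_lit 46) (nat_lit 31) r3_46 r4_31 (nat_lit 0) (nat_lit 0) (nat_lit 0) (nat_lit 0x7ffbd9e266) (nat_lit 7955064),
  Rx.mk (nat_lit 418) (nat_lit 2) (nat_lit 4) (nat_lit 6) (nat_lit 5) (nat_lit 42) (nat_lit 36) r3_42 r4_36 (nat_lit 0) (nat_lit 0) (nat_lit 0) (nat_lit 0x7db0793abc) (nat_lit 1134190512),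
  Rx.mk (nat_lit 434) (nat_lit 2) (nat_lit 6) (nat_lit 6) (nat_lit 7) (nat_lit 43) (nat_lit 38) r3_43 r4_38 (nat_lit 0) (nat_lit 0) (nat_lit 0) (nat_lit 0x7e2eabd714) (nat_lit 892219536),
  Rx.mk (nat_lit 442) (nat_lit 2) (nat_lit 7) (nat_lit 6) (nat_lit 7) (nat_lit 44) (nat_lit 37) r3_44 r4_37 (nat_lit 0) (nat_lit 0) (nat_lit 0) (nat_lit 0x7eb5bf2558) (nat_lit 633226464),
  Rx.mk (nat_lit 446) (nat_lit 6) (nat_lit 7) (nat_lit 6) (nat_lit 7) (nat_lit 47) (nat_lit 33) r3_47 r4_33 (nat_lit 0) (nat_lit 0) (nat_lit 0) (nat_lit 0x7e68443d54) (nat_lit 781786512),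
  Rx.mk (nat_lit 510) (nat_lit 6) (nat_lit 7) (nat_lit 7) (nat_lit 7) (nat_lit 48) (nat_lit 32) r3_48 r4_32 (nat_lit 0) (nat_lit 0) (nat_lit 0) (nat_lit 0x7ae6c7f89a) (nat_lit 2502621576)]
noncomputable def e55_47 : List Rx := [
  Rx.mk (nat_lit 19) (nat_lit 3) (nat_lit 2) (nat_lit 0) (nat_lit 3) (nat_lit 126) (nat_lit 31) r3_126 r4_31 (nat_lit 0) (nat_lit 0) (nat_lit 0) (nat_lit 0x7ffbd9e266) (nat_lit 7955064),
  Rx.mk (nat_lit 147) (nat_lit 3) (nat_lit 2) (nat_lit 2) (nat_lit 7) (nat_lit 127) (nat_lit 33) r3_127 r4_33 (nat_lit 0) (nat_lit 0) (nat_lit 0) (nat_lit 0x7e68443d54) (nat_lit 781786512),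
  Rx.mk (nat_lit 176) (nat_lit 0) (nat_lit 6) (nat_lit 2) (nat_lit 6) (nat_lit 121) (nat_lit 36) r3_121 r4_36 (nat_lit 0) (nat_lit 0) (nat_lit 0) (nat_lit 0x7db0793abc) (nat_lit 1134190512),
  Rx.mk (nat_lit 178) (nat_lit 2) (nat_lit 6) (nat_lit 2) (nat_lit 7) (nat_lit 122) (nat_lit 38) r3_122 r4_38 (nat_lit 0) (nat_lit 0) (nat_lit 0) (nat_lit 0x7e2eabd714) (nat_lit 892219536),
  Rx.mk (nat_lit 179) (nat_lit 3) (nat_lit 6) (nat_lit 2) (nat_lit 7) (nat_lit 128) (nat_lit 37) r3_128 r4_37 (nat_lit 0) (nat_lit 0) (nat_lit 0) (nat_lit 0x7eb5bf2558) (nat_lit 633226464),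
  Rx.mk (nat_lit 211) (nat_lit 3) (nat_lit 2) (nat_lit 3) (nat_lit 7) (nat_lit 129) (nat_lit 32) r3_129 r4_32 (nat_lit 0) (nat_lit 0) (nat_lit 0) (nat_lit 0x7ae6c7f89a) (nat_lit 2502621576),
  Rx.mk (nat_lit 418) (nat_lit 2) (nat_lit 4) (nat_lit 6) (nat_lit 5) (nat_lit 123) (nat_lit 34) r3_123 r4_34 (nat_lit 0) (nat_lit 0) (nat_lit 0) (nat_lit 0x7f3136ed60) (nat_lit 396489600),
  Rx.mk (nat_lit 434) (nat_lit 2) (nat_lit 6) (nat_lit 6) (nat_lit 7) (nat_lit 124) (nat_lit 39) r3_124 r4_39 (nat_lit 0) (nat_lit 0) (nat_lit 0) (nat_lit 0x7e65b0c68e) (nat_lit 786725784),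
  Rx.mk (nat_lit 442) (nat_lit 2) (nat_lit 7) (nat_lit 6) (nat_lit 7) (nat_lit 125) (nat_lit 35) r3_125 r4_35 (nat_lit 0) (nat_lit 0) (nat_lit 0) (nat_lit 0x7f09322dd4) (nat_lit 473221008)]
noncomputable def e55_48 : List Rx := [
  Rx.mk (nat_lit 176) (nat_lit 0) (nat_lit 6) (nat_lit 2) (nat_lit 6) (nat_lit 130) (nat_lit 17) r3_130 r9_17 (nat_lit 0) (nat_lit 0) (nat_lit 0) (nat_lit 0x7fdf7708b0) (nat_lit 62382528),
  Rx.mk (nat_lit 178) (nat_lit 2) (nat_lit 6) (nat_lit 2) (nat_lit 7) (nat_lit 131) (nat_lit 22) r3_131 r9_22 (nat_lit 0) (nat_lit 0) (nat_lit 0) (nat_lit 0x7e9b536c2e) (nat_lit 683885592),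
  Rx.mk (nat_lit 179) (nat_lit 3) (nat_lit 6) (nat_lit 2) (nat_lit 7) (nat_lit 135) (nat_lit 18) r3_135 r9_18 (nat_lit 0) (nat_lit 0) (nat_lit 0) (nat_lit 0x7ef4f9d16e) (nat_lit 511991064),
  Rx.mk (nat_lit 418) (nat_lit 2) (nat_lit 4) (nat_lit 6) (nat_lit 5) (nat_lit 132) (nat_lit 19) r3_132 r9_19 (nat_lit 0) (nat_lit 0) (nat_lit 0) (nat_lit 0x7fdf7708b0) (nat_lit 62382528),
  Rx.mk (nat_lit 434) (nat_lit 2) (nat_lit 6) (nat_lit 6) (nat_lit 7) (nat_lit 133) (nat_lit 21) r3_133 r9_21 (nat_lit 0) (nat_lit 0) (nat_lit 0) (nat_lit 0x7e9b536c2e) (nat_lit 683885592),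
  Rx.mk (nat_lit 442) (nat_lit 2) (nat_lit 7) (nat_lit 6) (nat_lit 7) (nat_lit 134) (nat_lit 20) r3_134 r9_20 (nat_lit 0) (nat_lit 0) (nat_lit 0) (nat_lit 0x7ef4f9d16e) (nat_lit 511991064)]
noncomputable def e55_49 : List Rx := [
  Rx.mk (nat_lit 211) (nat_lit 3) (nat_lit 2) (nat_lit 3) (nat_lit 7) (nat_lit 137) (nat_lit 6) r3_137 r10_6 (nat_lit 0) (nat_lit 0) (nat_lit 0) (nat_lit 0x7f829c56b8) (nat_lit 240420960),
  Rx.mk (nat_lit 442) (nat_lit 2) (nat_lit 7) (nat_lit 6) (nat_lit 7) (nat_lit 136) (nat_lit 7) r3_136 r10_7 (nat_lit 0) (nat_lit 0) (nat_lit 0) (nat_lit 0x7fc79746c4) (nat_lit 108158544)]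
noncomputable def e55_50 : List Rx := [
  Rx.mk (nat_lit 179) (nat_lit 3) (nat_lit 6) (nat_lit 2) (nat_lit 7) (nat_lit 211) (nat_lit 7) r3_211 r10_7 (nat_lit 0) (nat_lit 0) (nat_lit 0) (nat_lit 0x7fc79746c4) (nat_lit 108158544),
  Rx.mk (nat_lit 510) (nat_lit 6) (nat_lit 7) (nat_lit 7) (nat_lit 7) (nat_lit 212) (nat_lit 6) r3_212 r10_6 (nat_lit 0) (nat_lit 0) (nat_lit 0) (nat_lit 0x7f829c56b8) (nat_lit 240420960)]
noncomputable def e55_51 : List Rx := [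
  Rx.mk (nat_lit 196) (nat_lit 4) (nat_lit 0) (nat_lit 3) (nat_lit 4) (nat_lit 358) (nat_lit 323) r3_358 r12_323 (nat_lit 0) (nat_lit 0) (nat_lit 0) (nat_lit 0x8000000000) (nat_lit 0),
  Rx.mk (nat_lit 197) (nat_lit 5) (nat_lit 0) (nat_lit 3) (nat_lit 5) (nat_lit 312) (nat_lit 294) r3_312 r12_294 (nat_lit 0) (nat_lit 0) (nat_lit 0) (nat_lit 0x794234437a) (nat_lit 3309034248),
  Rx.mk (nat_lit 212) (nat_lit 4) (nat_lit 2) (nat_lit 3) (nat_lit 6) (nat_lit 311) (nat_lit 293) r3_311 r12_293 (nat_lit 0) (nat_lit 0) (nat_lit 0) (nat_lit 0x7fb77b4894) (nat_lit 139046544),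
  Rx.mk (nat_lit 213) (nat_lit 5) (nat_lit 2) (nat_lit 3) (nat_lit 7) (nat_lit 313) (nat_lit 295) r3_313 r12_295 (nat_lit 0) (nat_lit 0) (nat_lit 0) (nat_lit 0x7f2d71e9b4) (nat_lit 403717392)]
noncomputable def e55_52 : List Rx := [
  Rx.mk (nat_lit 452) (nat_lit 4) (nat_lit 0) (nat_lit 7) (nat_lit 4) (nat_lit 355) (nat_lit 323) r3_355 r12_323 (nat_lit 0) (nat_lit 0) (nat_lit 0) (nat_lit 0x8000000000) (nat_lit 0),
  Rx.mk (nat_lit 454) (nat_lit 6) (nat_lit 0) (nat_lit 7) (nat_lit 5) (nat_lit 218) (nat_lit 293) r3_218 r12_293 (nat_lit 0) (nat_lit 0) (nat_lit 0) (nat_lit 0x7fb77b4894) (nat_lit 139046544),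
  Rx.mk (nat_lit 460) (nat_lit 4) (nat_lit 1) (nat_lit 7) (nat_lit 6) (nat_lit 217) (nat_lit 294) r3_217 r12_294 (nat_lit 0) (nat_lit 0) (nat_lit 0) (nat_lit 0x794234437a) (nat_lit 3309034248),
  Rx.mk (nat_lit 462) (nat_lit 6) (nat_lit 1) (nat_lit 7) (nat_lit 7) (nat_lit 219) (nat_lit 295) r3_219 r12_295 (nat_lit 0) (nat_lit 0) (nat_lit 0) (nat_lit 0x7f2d71e9b4) (nat_lit 403717392)]
noncomputable def e55_53 : List Rx := [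
  Rx.mk (nat_lit 20) (nat_lit 4) (nat_lit 2) (nat_lit 0) (nat_lit 2) (nat_lit 359) (nat_lit 52) r3_359 r12_52 (nat_lit 0) (nat_lit 0) (nat_lit 0) (nat_lit 0x8000000000) (nat_lit 0),
  Rx.mk (nat_lit 21) (nat_lit 5) (nat_lit 2) (nat_lit 0) (nat_lit 3) (nat_lit 328) (nat_lit 53) r3_328 r12_53 (nat_lit 0) (nat_lit 0) (nat_lit 0) (nat_lit 0x7eb04a3cac) (nat_lit 643689072),
  Rx.mk (nat_lit 23) (nat_lit 7) (nat_lit 2) (nat_lit 0) (nat_lit 3) (nat_lit 332) (nat_lit 54) r3_332 r12_54 (nat_lit 0) (nat_lit 0) (nat_lit 0) (nat_lit 0x7fc30d0f6c) (nat_lit 116863344),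
  Rx.mk (nat_lit 196) (nat_lit 4) (nat_lit 0) (nat_lit 3) (nat_lit 4) (nat_lit 325) (nat_lit 55) r3_325 r12_55 (nat_lit 0) (nat_lit 0) (nat_lit 0) (nat_lit 0x8000000000) (nat_lit 0),
  Rx.mk (nat_lit 197) (nat_lit 5) (nat_lit 0) (nat_lit 3) (nat_lit 5) (nat_lit 329) (nat_lit 56) r3_329 r12_56 (nat_lit 0) (nat_lit 0) (nat_lit 0) (nat_lit 0x78dfe268fa) (nat_lit 3497552136),
  Rx.mk (nat_lit 212) (nat_lit 4) (nat_lit 2) (nat_lit 3) (nat_lit 6) (nat_lit 326) (nat_lit 59) r3_326 r12_59 (nat_lit 0) (nat_lit 0) (nat_lit 0) (nat_lit 0x7fe86cb94c) (nat_lit 45203184),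
  Rx.mk (nat_lit 213) (nat_lit 5) (nat_lit 2) (nat_lit 3) (nat_lit 7) (nat_lit 330) (nat_lit 60) r3_330 r12_60 (nat_lit 0) (nat_lit 0) (nat_lit 0) (nat_lit 0x7f5a643a62) (nat_lit 317537064),
  Rx.mk (nat_lit 220) (nat_lit 4) (nat_lit 3) (nat_lit 3) (nat_lit 6) (nat_lit 327) (nat_lit 57) r3_327 r12_57 (nat_lit 0) (nat_lit 0) (nat_lit 0) (nat_lit 0x7d4a01a29c) (nat_lit 1330660656),
  Rx.mk (nat_lit 221) (nat_lit 5) (nat_lit 3) (nat_lit 3) (nat_lit 7) (nat_lit 331) (nat_lit 58) r3_331 r12_58 (nat_lit 0) (nat_lit 0) (nat_lit 0) (nat_lit 0x7b9901944e) (nat_lit 2160893592)]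
noncomputable def e55_54 : List Rx := [
  Rx.mk (nat_lit 262) (nat_lit 6) (nat_lit 0) (nat_lit 4) (nat_lit 1) (nat_lit 353) (nat_lit 52) r3_353 r12_52 (nat_lit 0) (nat_lit 0) (nat_lit 0) (nat_lit 0x8000000000) (nat_lit 0),
  Rx.mk (nat_lit 270) (nat_lit 6) (nat_lit 1) (nat_lit 4) (nat_lit 3) (nat_lit 82) (nat_lit 53) r3_82 r12_53 (nat_lit 0) (nat_lit 0) (nat_lit 0) (nat_lit 0x7eb04a3cac) (nat_lit 643689072),
  Rx.mk (nat_lit 286) (nat_lit 6) (nat_lit 3) (nat_lit 4) (nat_lit 3) (nat_lit 83) (nat_lit 54) r3_83 r12_54 (nat_lit 0) (nat_lit 0) (nat_lit 0) (nat_lit 0x7fc30d0f6c) (nat_lit 116863344),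
  Rx.mk (nat_lit 452) (nat_lit 4) (nat_lit 0) (nat_lit 7) (nat_lit 4) (nat_lit 80) (nat_lit 55) r3_80 r12_55 (nat_lit 0) (nat_lit 0) (nat_lit 0) (nat_lit 0x8000000000) (nat_lit 0),
  Rx.mk (nat_lit 454) (nat_lit 6) (nat_lit 0) (nat_lit 7) (nat_lit 5) (nat_lit 84) (nat_lit 59) r3_84 r12_59 (nat_lit 0) (nat_lit 0) (nat_lit 0) (nat_lit 0x7fe86cb94c) (nat_lit 45203184),
  Rx.mk (nat_lit 455) (nat_lit 7) (nat_lit 0) (nat_lit 7) (nat_lit 5) (nat_lit 86) (nat_lit 57) r3_86 r12_57 (nat_lit 0) (nat_lit 0) (nat_lit 0) (nat_lit 0x7d4a01a29c) (nat_lit 1330660656),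
  Rx.mk (nat_lit 460) (nat_lit 4) (nat_lit 1) (nat_lit 7) (nat_lit 6) (nat_lit 81) (nat_lit 56) r3_81 r12_56 (nat_lit 0) (nat_lit 0) (nat_lit 0) (nat_lit 0x78dfe268fa) (nat_lit 3497552136),
  Rx.mk (nat_lit 462) (nat_lit 6) (nat_lit 1) (nat_lit 7) (nat_lit 7) (nat_lit 85) (nat_lit 60) r3_85 r12_60 (nat_lit 0) (nat_lit 0) (nat_lit 0) (nat_lit 0x7f5a643a62) (nat_lit 317537064),
  Rx.mk (nat_lit 463) (nat_lit 7) (nat_lit 1) (nat_lit 7) (nat_lit 7) (nat_lit 87) (nat_lit 58) r3_87 r12_58 (nat_lit 0) (nat_lit 0) (nat_lit 0) (nat_lit 0x7b9901944e) (nat_lit 2160893592)]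
noncomputable def e55_55 : List Rx := [
  Rx.mk (nat_lit 19) (nat_lit 3) (nat_lit 2) (nat_lit 0) (nat_lit 3) (nat_lit 28) (nat_lit 351) r3_28 r3_351 (nat_lit 0) (nat_lit 0) (nat_lit 0) (nat_lit 0x8000000000) (nat_lit 0),
  Rx.mk (nat_lit 147) (nat_lit 3) (nat_lit 2) (nat_lit 2) (nat_lit 7) (nat_lit 29) (nat_lit 35) r3_29 r3_35 (nat_lit 0) (nat_lit 0) (nat_lit 0) (nat_lit 0x773bf2899c) (nat_lit 4302737712),
  Rx.mk (nat_lit 176) (nat_lit 0) (nat_lit 6) (nat_lit 2) (nat_lit 6) (nat_lit 23) (nat_lit 32) r3_23 r3_32 (nat_lit 0) (nat_lit 0) (nat_lit 0) (nat_lit 0x8000000000) (nat_lit 0),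
  Rx.mk (nat_lit 178) (nat_lit 2) (nat_lit 6) (nat_lit 2) (nat_lit 7) (nat_lit 24) (nat_lit 39) r3_24 r3_39 (nat_lit 0) (nat_lit 0) (nat_lit 0) (nat_lit 0x7e6e03615c) (nat_lit 770767920),
  Rx.mk (nat_lit 179) (nat_lit 3) (nat_lit 6) (nat_lit 2) (nat_lit 7) (nat_lit 30) (nat_lit 34) r3_30 r3_34 (nat_lit 0) (nat_lit 0) (nat_lit 0) (nat_lit 0x7ff328cd80) (nat_lit 24620544),
  Rx.mk (nat_lit 199) (nat_lit 7) (nat_lit 0) (nat_lit 3) (nat_lit 5) (nat_lit 36) (nat_lit 25) r3_36 r3_25 (nat_lit 0) (nat_lit 0) (nat_lit 0) (nat_lit 0x8000000000) (nat_lit 0),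
  Rx.mk (nat_lit 211) (nat_lit 3) (nat_lit 2) (nat_lit 3) (nat_lit 7) (nat_lit 31) (nat_lit 33) r3_31 r3_33 (nat_lit 0) (nat_lit 0) (nat_lit 0) (nat_lit 0x773bf2899c) (nat_lit 4302737712),
  Rx.mk (nat_lit 215) (nat_lit 7) (nat_lit 2) (nat_lit 3) (nat_lit 7) (nat_lit 37) (nat_lit 27) r3_37 r3_27 (nat_lit 0) (nat_lit 0) (nat_lit 0) (nat_lit 0x7ff328cd80) (nat_lit 24620544),
  Rx.mk (nat_lit 223) (nat_lit 7) (nat_lit 3) (nat_lit 3) (nat_lit 7) (nat_lit 38) (nat_lit 26) r3_38 r3_26 (nat_lit 0) (nat_lit 0) (nat_lit 0) (nat_lit 0x7e6e03615c) (nat_lit 770767920),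
  Rx.mk (nat_lit 318) (nat_lit 6) (nat_lit 7) (nat_lit 4) (nat_lit 3) (nat_lit 351) (nat_lit 28) r3_351 r3_28 (nat_lit 0) (nat_lit 0) (nat_lit 0) (nat_lit 0x8000000000) (nat_lit 0),
  Rx.mk (nat_lit 418) (nat_lit 2) (nat_lit 4) (nat_lit 6) (nat_lit 5) (nat_lit 25) (nat_lit 36) r3_25 r3_36 (nat_lit 0) (nat_lit 0) (nat_lit 0) (nat_lit 0x8000000000) (nat_lit 0),
  Rx.mk (nat_lit 434) (nat_lit 2) (nat_lit 6) (nat_lit 6) (nat_lit 7) (nat_lit 26) (nat_lit 38) r3_26 r3_38 (nat_lit 0) (nat_lit 0) (nat_lit 0) (nat_lit 0x7e6e03615c) (nat_lit 770767920),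
  Rx.mk (nat_lit 442) (nat_lit 2) (nat_lit 7) (nat_lit 6) (nat_lit 7) (nat_lit 27) (nat_lit 37) r3_27 r3_37 (nat_lit 0) (nat_lit 0) (nat_lit 0) (nat_lit 0x7ff328cd80) (nat_lit 24620544),
  Rx.mk (nat_lit 446) (nat_lit 6) (nat_lit 7) (nat_lit 6) (nat_lit 7) (nat_lit 33) (nat_lit 31) r3_33 r3_31 (nat_lit 0) (nat_lit 0) (nat_lit 0) (nat_lit 0x773bf2899c) (nat_lit 4302737712),
  Rx.mk (nat_lit 476) (nat_lit 4) (nat_lit 3) (nat_lit 7) (nat_lit 6) (nat_lit 32) (nat_lit 23) r3_32 r3_23 (nat_lit 0) (nat_lit 0) (nat_lit 0) (nat_lit 0x8000000000) (nat_lit 0),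
  Rx.mk (nat_lit 478) (nat_lit 6) (nat_lit 3) (nat_lit 7) (nat_lit 7) (nat_lit 34) (nat_lit 30) r3_34 r3_30 (nat_lit 0) (nat_lit 0) (nat_lit 0) (nat_lit 0x7ff328cd80) (nat_lit 24620544),
  Rx.mk (nat_lit 479) (nat_lit 7) (nat_lit 3) (nat_lit 7) (nat_lit 7) (nat_lit 39) (nat_lit 24) r3_39 r3_24 (nat_lit 0) (nat_lit 0) (nat_lit 0) (nat_lit 0x7e6e03615c) (nat_lit 770767920),
  Rx.mk (nat_lit 510) (nat_lit 6) (nat_lit 7) (nat_lit 7) (nat_lit 7) (nat_lit 35) (nat_lit 29) r3_35 r3_29 (nat_lit 0) (nat_lit 0) (nat_lit 0) (nat_lit 0x773bf2899c) (nat_lit 4302737712)]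
noncomputable def e55_56 : List Rx := [
  Rx.mk (nat_lit 199) (nat_lit 7) (nat_lit 0) (nat_lit 3) (nat_lit 5) (nat_lit 55) (nat_lit 19) r3_55 r12_19 (nat_lit 0) (nat_lit 0) (nat_lit 0) (nat_lit 0x7b0082bcd4) (nat_lit 2453287824),
  Rx.mk (nat_lit 211) (nat_lit 3) (nat_lit 2) (nat_lit 3) (nat_lit 7) (nat_lit 50) (nat_lit 25) r3_50 r12_25 (nat_lit 0) (nat_lit 0) (nat_lit 0) (nat_lit 0x7986b4fb2a) (nat_lit 3177687240),
  Rx.mk (nat_lit 215) (nat_lit 7) (nat_lit 2) (nat_lit 3) (nat_lit 7) (nat_lit 56) (nat_lit 20) r3_56 r12_20 (nat_lit 0) (nat_lit 0) (nat_lit 0) (nat_lit 0x7f69370d26) (nat_lit 289114488),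
  Rx.mk (nat_lit 286) (nat_lit 6) (nat_lit 3) (nat_lit 4) (nat_lit 3) (nat_lit 52) (nat_lit 22) r3_52 r12_22 (nat_lit 0) (nat_lit 0) (nat_lit 0) (nat_lit 0x7735c94c36) (nat_lit 4314550968),
  Rx.mk (nat_lit 318) (nat_lit 6) (nat_lit 7) (nat_lit 4) (nat_lit 3) (nat_lit 352) (nat_lit 21) r3_352 r12_21 (nat_lit 0) (nat_lit 0) (nat_lit 0) (nat_lit 0x8000000000) (nat_lit 0),
  Rx.mk (nat_lit 442) (nat_lit 2) (nat_lit 7) (nat_lit 6) (nat_lit 7) (nat_lit 49) (nat_lit 26) r3_49 r12_26 (nat_lit 0) (nat_lit 0) (nat_lit 0) (nat_lit 0x7e98a7f6e8) (nat_lit 689004576),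
  Rx.mk (nat_lit 446) (nat_lit 6) (nat_lit 7) (nat_lit 6) (nat_lit 7) (nat_lit 53) (nat_lit 24) r3_53 r12_24 (nat_lit 0) (nat_lit 0) (nat_lit 0) (nat_lit 0x791d0196ca) (nat_lit 3380357448),
  Rx.mk (nat_lit 455) (nat_lit 7) (nat_lit 0) (nat_lit 7) (nat_lit 5) (nat_lit 57) (nat_lit 17) r3_57 r12_17 (nat_lit 0) (nat_lit 0) (nat_lit 0) (nat_lit 0x7fececd146) (nat_lit 36574200),
  Rx.mk (nat_lit 476) (nat_lit 4) (nat_lit 3) (nat_lit 7) (nat_lit 6) (nat_lit 51) (nat_lit 16) r3_51 r12_16 (nat_lit 0) (nat_lit 0) (nat_lit 0) (nat_lit 0x8000000000) (nat_lit 0),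
  Rx.mk (nat_lit 478) (nat_lit 6) (nat_lit 3) (nat_lit 7) (nat_lit 7) (nat_lit 54) (nat_lit 23) r3_54 r12_23 (nat_lit 0) (nat_lit 0) (nat_lit 0) (nat_lit 0x7fbcc993aa) (nat_lit 128873160),
  Rx.mk (nat_lit 479) (nat_lit 7) (nat_lit 3) (nat_lit 7) (nat_lit 7) (nat_lit 58) (nat_lit 18) r3_58 r12_18 (nat_lit 0) (nat_lit 0) (nat_lit 0) (nat_lit 0x7d72006288) (nat_lit 1253974176)]
noncomputable def e55_57 : List Rx := [
  Rx.mk (nat_lit 19) (nat_lit 3) (nat_lit 2) (nat_lit 0) (nat_lit 3) (nat_lit 354) (nat_lit 21) r3_354 r12_21 (nat_lit 0) (nat_lit 0) (nat_lit 0) (nat_lit 0x8000000000) (nat_lit 0),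
  Rx.mk (nat_lit 23) (nat_lit 7) (nat_lit 2) (nat_lit 0) (nat_lit 3) (nat_lit 207) (nat_lit 22) r3_207 r12_22 (nat_lit 0) (nat_lit 0) (nat_lit 0) (nat_lit 0x7735c94c36) (nat_lit 4314550968),
  Rx.mk (nat_lit 147) (nat_lit 3) (nat_lit 2) (nat_lit 2) (nat_lit 7) (nat_lit 201) (nat_lit 24) r3_201 r12_24 (nat_lit 0) (nat_lit 0) (nat_lit 0) (nat_lit 0x791d0196ca) (nat_lit 3380357448),
  Rx.mk (nat_lit 179) (nat_lit 3) (nat_lit 6) (nat_lit 2) (nat_lit 7) (nat_lit 202) (nat_lit 26) r3_202 r12_26 (nat_lit 0) (nat_lit 0) (nat_lit 0) (nat_lit 0x7e98a7f6e8) (nat_lit 689004576),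
  Rx.mk (nat_lit 199) (nat_lit 7) (nat_lit 0) (nat_lit 3) (nat_lit 5) (nat_lit 208) (nat_lit 16) r3_208 r12_16 (nat_lit 0) (nat_lit 0) (nat_lit 0) (nat_lit 0x8000000000) (nat_lit 0),
  Rx.mk (nat_lit 215) (nat_lit 7) (nat_lit 2) (nat_lit 3) (nat_lit 7) (nat_lit 209) (nat_lit 23) r3_209 r12_23 (nat_lit 0) (nat_lit 0) (nat_lit 0) (nat_lit 0x7fbcc993aa) (nat_lit 128873160),
  Rx.mk (nat_lit 220) (nat_lit 4) (nat_lit 3) (nat_lit 3) (nat_lit 6) (nat_lit 203) (nat_lit 17) r3_203 r12_17 (nat_lit 0) (nat_lit 0) (nat_lit 0) (nat_lit 0x7fececd146) (nat_lit 36574200),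
  Rx.mk (nat_lit 223) (nat_lit 7) (nat_lit 3) (nat_lit 3) (nat_lit 7) (nat_lit 210) (nat_lit 18) r3_210 r12_18 (nat_lit 0) (nat_lit 0) (nat_lit 0) (nat_lit 0x7d72006288) (nat_lit 1253974176),
  Rx.mk (nat_lit 476) (nat_lit 4) (nat_lit 3) (nat_lit 7) (nat_lit 6) (nat_lit 204) (nat_lit 19) r3_204 r12_19 (nat_lit 0) (nat_lit 0) (nat_lit 0) (nat_lit 0x7b0082bcd4) (nat_lit 2453287824),
  Rx.mk (nat_lit 478) (nat_lit 6) (nat_lit 3) (nat_lit 7) (nat_lit 7) (nat_lit 205) (nat_lit 20) r3_205 r12_20 (nat_lit 0) (nat_lit 0) (nat_lit 0) (nat_lit 0x7f69370d26) (nat_lit 289114488),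
  Rx.mk (nat_lit 510) (nat_lit 6) (nat_lit 7) (nat_lit 7) (nat_lit 7) (nat_lit 206) (nat_lit 25) r3_206 r12_25 (nat_lit 0) (nat_lit 0) (nat_lit 0) (nat_lit 0x7986b4fb2a) (nat_lit 3177687240)]
noncomputable def e55 : List (List Rx) := [e55_0, e55_1, e55_2, e55_3, e55_4, e55_5, e55_6, e55_7, e55_8, e55_9, e55_10, e55_11, e55_12, e55_13, e55_14, e55_15, e55_16, e55_17, e55_18, e55_19, e55_20, e55_21, e55_22, e55_23, e55_24, e55_25, e55_26, e55_27, e55_28, e55_29, e55_30, e55_31, e55_32, e55_33, e55_34, e55_35, e55_36, e55_37, e55_38, e55_39, e55_40, e55_41, e55_42, e55_43, e55_44, e55_45, e55_46, e55_47, e55_48, e55_49, e55_50, e55_51, e55_52, e55_53, e55_54, e55_55, e55_56, e55_57]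
noncomputable def e56_0 : List Rx := [
  Rx.mk (nat_lit 21) (nat_lit 5) (nat_lit 2) (nat_lit 0) (nat_lit 3) (nat_lit 253) (nat_lit 315) r12_253 r0_315 (nat_lit 0) (nat_lit 0) (nat_lit 0) (nat_lit 0x7ac9315222) (nat_lit 2559354408),
  Rx.mk (nat_lit 84) (nat_lit 4) (nat_lit 2) (nat_lit 1) (nat_lit 6) (nat_lit 252) (nat_lit 314) r12_252 r0_314 (nat_lit 0) (nat_lit 0) (nat_lit 0) (nat_lit 0x7c8c873b00) (nat_lit 1693965312),
  Rx.mk (nat_lit 85) (nat_lit 5) (nat_lit 2) (nat_lit 1) (nat_lit 7) (nat_lit 254) (nat_lit 316) r12_254 r0_316 (nat_lit 0) (nat_lit 0) (nat_lit 0) (nat_lit 0x7ef9c72494) (nat_lit 502783632)]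
noncomputable def e56_1 : List Rx := [
  Rx.mk (nat_lit 84) (nat_lit 4) (nat_lit 2) (nat_lit 1) (nat_lit 6) (nat_lit 273) (nat_lit 302) r12_273 r1_302 (nat_lit 0) (nat_lit 0) (nat_lit 0) (nat_lit 0x7e59f0e298) (nat_lit 809254368),
  Rx.mk (nat_lit 85) (nat_lit 5) (nat_lit 2) (nat_lit 1) (nat_lit 7) (nat_lit 274) (nat_lit 303) r12_274 r1_303 (nat_lit 0) (nat_lit 0) (nat_lit 0) (nat_lit 0x7d5c1b80ec) (nat_lit 1295953776)]
noncomputable def e56_2 : List Rx := [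
  Rx.mk (nat_lit 84) (nat_lit 4) (nat_lit 2) (nat_lit 1) (nat_lit 6) (nat_lit 275) (nat_lit 341) r12_275 r2_341 (nat_lit 0) (nat_lit 0) (nat_lit 0) (nat_lit 0x7ddc2f1f32) (nat_lit 1050380136),
  Rx.mk (nat_lit 85) (nat_lit 5) (nat_lit 2) (nat_lit 1) (nat_lit 7) (nat_lit 279) (nat_lit 345) r12_279 r2_345 (nat_lit 0) (nat_lit 0) (nat_lit 0) (nat_lit 0x7de974eac8) (nat_lit 1024931232),
  Rx.mk (nat_lit 324) (nat_lit 4) (nat_lit 0) (nat_lit 5) (nat_lit 4) (nat_lit 276) (nat_lit 339) r12_276 r2_339 (nat_lit 0) (nat_lit 0) (nat_lit 0) (nat_lit 0x666f99dff4) (nat_lit 12548205072),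
  Rx.mk (nat_lit 325) (nat_lit 5) (nat_lit 0) (nat_lit 5) (nat_lit 5) (nat_lit 280) (nat_lit 343) r12_280 r2_343 (nat_lit 0) (nat_lit 0) (nat_lit 0) (nat_lit 0x749ef5bc06) (nat_lit 5585451768),
  Rx.mk (nat_lit 326) (nat_lit 6) (nat_lit 0) (nat_lit 5) (nat_lit 5) (nat_lit 283) (nat_lit 347) r12_283 r2_347 (nat_lit 0) (nat_lit 0) (nat_lit 0) (nat_lit 0x7dc98549e2) (nat_lit 1086165288),
  Rx.mk (nat_lit 332) (nat_lit 4) (nat_lit 1) (nat_lit 5) (nat_lit 6) (nat_lit 277) (nat_lit 340) r12_277 r2_340 (nat_lit 0) (nat_lit 0) (nat_lit 0) (nat_lit 0x7d42e99424) (nat_lit 1344262608),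
  Rx.mk (nat_lit 333) (nat_lit 5) (nat_lit 1) (nat_lit 5) (nat_lit 7) (nat_lit 281) (nat_lit 344) r12_281 r2_344 (nat_lit 0) (nat_lit 0) (nat_lit 0) (nat_lit 0x7ddceeb338) (nat_lit 1048945248),
  Rx.mk (nat_lit 334) (nat_lit 6) (nat_lit 1) (nat_lit 5) (nat_lit 7) (nat_lit 284) (nat_lit 348) r12_284 r2_348 (nat_lit 0) (nat_lit 0) (nat_lit 0) (nat_lit 0x7deb366eae) (nat_lit 1021564440),
  Rx.mk (nat_lit 340) (nat_lit 4) (nat_lit 2) (nat_lit 5) (nat_lit 6) (nat_lit 278) (nat_lit 342) r12_278 r2_342 (nat_lit 0) (nat_lit 0) (nat_lit 0) (nat_lit 0x7cf9c166f0) (nat_lit 1484533440),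
  Rx.mk (nat_lit 341) (nat_lit 5) (nat_lit 2) (nat_lit 5) (nat_lit 7) (nat_lit 282) (nat_lit 346) r12_282 r2_346 (nat_lit 0) (nat_lit 0) (nat_lit 0) (nat_lit 0x7df79428c6) (nat_lit 997853688)]
noncomputable def e56_3 : List Rx := [
  Rx.mk (nat_lit 20) (nat_lit 4) (nat_lit 2) (nat_lit 0) (nat_lit 2) (nat_lit 323) (nat_lit 358) r12_323 r3_358 (nat_lit 0) (nat_lit 0) (nat_lit 0) (nat_lit 0x8000000000) (nat_lit 0),
  Rx.mk (nat_lit 21) (nat_lit 5) (nat_lit 2) (nat_lit 0) (nat_lit 3) (nat_lit 294) (nat_lit 312) r12_294 r3_312 (nat_lit 0) (nat_lit 0) (nat_lit 0) (nat_lit 0x794234437a) (nat_lit 3309034248),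
  Rx.mk (nat_lit 212) (nat_lit 4) (nat_lit 2) (nat_lit 3) (nat_lit 6) (nat_lit 293) (nat_lit 311) r12_293 r3_311 (nat_lit 0) (nat_lit 0) (nat_lit 0) (nat_lit 0x7fb77b4894) (nat_lit 139046544),
  Rx.mk (nat_lit 213) (nat_lit 5) (nat_lit 2) (nat_lit 3) (nat_lit 7) (nat_lit 295) (nat_lit 313) r12_295 r3_313 (nat_lit 0) (nat_lit 0) (nat_lit 0) (nat_lit 0x7f2d71e9b4) (nat_lit 403717392)]
noncomputable def e56_4 : List Rx := [
  Rx.mk (nat_lit 20) (nat_lit 4) (nat_lit 2) (nat_lit 0) (nat_lit 2) (nat_lit 296) (nat_lit 343) r12_296 r4_343 (nat_lit 0) (nat_lit 0) (nat_lit 0) (nat_lit 0x752fda0d30) (nat_lit 5307636672),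
  Rx.mk (nat_lit 21) (nat_lit 5) (nat_lit 2) (nat_lit 0) (nat_lit 3) (nat_lit 299) (nat_lit 346) r12_299 r4_346 (nat_lit 0) (nat_lit 0) (nat_lit 0) (nat_lit 0x79f1f206ee) (nat_lit 2972068632),
  Rx.mk (nat_lit 84) (nat_lit 4) (nat_lit 2) (nat_lit 1) (nat_lit 6) (nat_lit 297) (nat_lit 344) r12_297 r4_344 (nat_lit 0) (nat_lit 0) (nat_lit 0) (nat_lit 0x7defaae762) (nat_lit 1013022504),
  Rx.mk (nat_lit 85) (nat_lit 5) (nat_lit 2) (nat_lit 1) (nat_lit 7) (nat_lit 300) (nat_lit 347) r12_300 r4_347 (nat_lit 0) (nat_lit 0) (nat_lit 0) (nat_lit 0x7e5fb6663a) (nat_lit 798188040),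
  Rx.mk (nat_lit 212) (nat_lit 4) (nat_lit 2) (nat_lit 3) (nat_lit 6) (nat_lit 298) (nat_lit 345) r12_298 r4_345 (nat_lit 0) (nat_lit 0) (nat_lit 0) (nat_lit 0x7ddf492d8e) (nat_lit 1044432792),
  Rx.mk (nat_lit 213) (nat_lit 5) (nat_lit 2) (nat_lit 3) (nat_lit 7) (nat_lit 301) (nat_lit 348) r12_301 r4_348 (nat_lit 0) (nat_lit 0) (nat_lit 0) (nat_lit 0x7e24ff91e2) (nat_lit 910766376)]
noncomputable def e56_5 : List Rx := [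
  Rx.mk (nat_lit 262) (nat_lit 6) (nat_lit 0) (nat_lit 4) (nat_lit 1) (nat_lit 55) (nat_lit 325) r12_55 r3_325 (nat_lit 0) (nat_lit 0) (nat_lit 0) (nat_lit 0x8000000000) (nat_lit 0),
  Rx.mk (nat_lit 270) (nat_lit 6) (nat_lit 1) (nat_lit 4) (nat_lit 3) (nat_lit 56) (nat_lit 329) r12_56 r3_329 (nat_lit 0) (nat_lit 0) (nat_lit 0) (nat_lit 0x78dfe268fa) (nat_lit 3497552136),
  Rx.mk (nat_lit 390) (nat_lit 6) (nat_lit 0) (nat_lit 6) (nat_lit 5) (nat_lit 57) (nat_lit 327) r12_57 r3_327 (nat_lit 0) (nat_lit 0) (nat_lit 0) (nat_lit 0x7d4a01a29c) (nat_lit 1330660656),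
  Rx.mk (nat_lit 398) (nat_lit 6) (nat_lit 1) (nat_lit 6) (nat_lit 7) (nat_lit 58) (nat_lit 331) r12_58 r3_331 (nat_lit 0) (nat_lit 0) (nat_lit 0) (nat_lit 0x7b9901944e) (nat_lit 2160893592),
  Rx.mk (nat_lit 452) (nat_lit 4) (nat_lit 0) (nat_lit 7) (nat_lit 4) (nat_lit 52) (nat_lit 359) r12_52 r3_359 (nat_lit 0) (nat_lit 0) (nat_lit 0) (nat_lit 0x8000000000) (nat_lit 0),
  Rx.mk (nat_lit 454) (nat_lit 6) (nat_lit 0) (nat_lit 7) (nat_lit 5) (nat_lit 59) (nat_lit 326) r12_59 r3_326 (nat_lit 0) (nat_lit 0) (nat_lit 0) (nat_lit 0x7fe86cb94c) (nat_lit 45203184),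
  Rx.mk (nat_lit 460) (nat_lit 4) (nat_lit 1) (nat_lit 7) (nat_lit 6) (nat_lit 53) (nat_lit 328) r12_53 r3_328 (nat_lit 0) (nat_lit 0) (nat_lit 0) (nat_lit 0x7eb04a3cac) (nat_lit 643689072),
  Rx.mk (nat_lit 462) (nat_lit 6) (nat_lit 1) (nat_lit 7) (nat_lit 7) (nat_lit 60) (nat_lit 330) r12_60 r3_330 (nat_lit 0) (nat_lit 0) (nat_lit 0) (nat_lit 0x7f5a643a62) (nat_lit 317537064),
  Rx.mk (nat_lit 468) (nat_lit 4) (nat_lit 2) (nat_lit 7) (nat_lit 6) (nat_lit 54) (nat_lit 332) r12_54 r3_332 (nat_lit 0) (nat_lit 0) (nat_lit 0) (nat_lit 0x7fc30d0f6c) (nat_lit 116863344)]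
noncomputable def e56_6 : List Rx := [
  Rx.mk (nat_lit 260) (nat_lit 4) (nat_lit 0) (nat_lit 4) (nat_lit 0) (nat_lit 152) (nat_lit 329) r12_152 r0_329 (nat_lit 0) (nat_lit 0) (nat_lit 0) (nat_lit 0x8000000000) (nat_lit 0),
  Rx.mk (nat_lit 262) (nat_lit 6) (nat_lit 0) (nat_lit 4) (nat_lit 1) (nat_lit 158) (nat_lit 331) r12_158 r0_331 (nat_lit 0) (nat_lit 0) (nat_lit 0) (nat_lit 0x6fbb66b9da) (nat_lit 7985185416),
  Rx.mk (nat_lit 268) (nat_lit 4) (nat_lit 1) (nat_lit 4) (nat_lit 2) (nat_lit 153) (nat_lit 334) r12_153 r0_334 (nat_lit 0) (nat_lit 0) (nat_lit 0) (nat_lit 0x7328f59d7e) (nat_lit 6302558808),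
  Rx.mk (nat_lit 270) (nat_lit 6) (nat_lit 1) (nat_lit 4) (nat_lit 3) (nat_lit 159) (nat_lit 336) r12_159 r0_336 (nat_lit 0) (nat_lit 0) (nat_lit 0) (nat_lit 0x7a9bd7e7e6) (nat_lit 2646306936),
  Rx.mk (nat_lit 276) (nat_lit 4) (nat_lit 2) (nat_lit 4) (nat_lit 2) (nat_lit 154) (nat_lit 339) r12_154 r0_339 (nat_lit 0) (nat_lit 0) (nat_lit 0) (nat_lit 0x8000000000) (nat_lit 0),
  Rx.mk (nat_lit 324) (nat_lit 4) (nat_lit 0) (nat_lit 5) (nat_lit 4) (nat_lit 155) (nat_lit 330) r12_155 r0_330 (nat_lit 0) (nat_lit 0) (nat_lit 0) (nat_lit 0x7542556568) (nat_lit 5272199712),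
  Rx.mk (nat_lit 326) (nat_lit 6) (nat_lit 0) (nat_lit 5) (nat_lit 5) (nat_lit 160) (nat_lit 332) r12_160 r0_332 (nat_lit 0) (nat_lit 0) (nat_lit 0) (nat_lit 0x7dd134cee2) (nat_lit 1071428904),
  Rx.mk (nat_lit 332) (nat_lit 4) (nat_lit 1) (nat_lit 5) (nat_lit 6) (nat_lit 156) (nat_lit 335) r12_156 r0_335 (nat_lit 0) (nat_lit 0) (nat_lit 0) (nat_lit 0x7e0833bebc) (nat_lit 965980080),
  Rx.mk (nat_lit 334) (nat_lit 6) (nat_lit 1) (nat_lit 5) (nat_lit 7) (nat_lit 161) (nat_lit 337) r12_161 r0_337 (nat_lit 0) (nat_lit 0) (nat_lit 0) (nat_lit 0x7e78339e4e) (nat_lit 751232664),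
  Rx.mk (nat_lit 340) (nat_lit 4) (nat_lit 2) (nat_lit 5) (nat_lit 6) (nat_lit 157) (nat_lit 340) r12_157 r0_340 (nat_lit 0) (nat_lit 0) (nat_lit 0) (nat_lit 0x7b4610a3b0) (nat_lit 2319924672),
  Rx.mk (nat_lit 390) (nat_lit 6) (nat_lit 0) (nat_lit 6) (nat_lit 5) (nat_lit 162) (nat_lit 333) r12_162 r0_333 (nat_lit 0) (nat_lit 0) (nat_lit 0) (nat_lit 0x7ac0cd7868) (nat_lit 2575441440),
  Rx.mk (nat_lit 398) (nat_lit 6) (nat_lit 1) (nat_lit 6) (nat_lit 7) (nat_lit 163) (nat_lit 338) r12_163 r0_338 (nat_lit 0) (nat_lit 0) (nat_lit 0) (nat_lit 0x7e24231faa) (nat_lit 912417480)]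
noncomputable def e56_7 : List Rx := [
  Rx.mk (nat_lit 324) (nat_lit 4) (nat_lit 0) (nat_lit 5) (nat_lit 4) (nat_lit 164) (nat_lit 310) r12_164 r1_310 (nat_lit 0) (nat_lit 0) (nat_lit 0) (nat_lit 0x776b6e91ac) (nat_lit 4211691120),
  Rx.mk (nat_lit 326) (nat_lit 6) (nat_lit 0) (nat_lit 5) (nat_lit 5) (nat_lit 167) (nat_lit 311) r12_167 r1_311 (nat_lit 0) (nat_lit 0) (nat_lit 0) (nat_lit 0x7e69f1827e) (nat_lit 778571352),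
  Rx.mk (nat_lit 332) (nat_lit 4) (nat_lit 1) (nat_lit 5) (nat_lit 6) (nat_lit 165) (nat_lit 312) r12_165 r1_312 (nat_lit 0) (nat_lit 0) (nat_lit 0) (nat_lit 0x7da1e863d8) (nat_lit 1162118880),
  Rx.mk (nat_lit 334) (nat_lit 6) (nat_lit 1) (nat_lit 5) (nat_lit 7) (nat_lit 168) (nat_lit 313) r12_168 r1_313 (nat_lit 0) (nat_lit 0) (nat_lit 0) (nat_lit 0x7db533cf0e) (nat_lit 1125123480),
  Rx.mk (nat_lit 340) (nat_lit 4) (nat_lit 2) (nat_lit 5) (nat_lit 6) (nat_lit 166) (nat_lit 314) r12_166 r1_314 (nat_lit 0) (nat_lit 0) (nat_lit 0) (nat_lit 0x7decb6b6a8) (nat_lit 1018686240)]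
noncomputable def e56_8 : List Rx := [
  Rx.mk (nat_lit 260) (nat_lit 4) (nat_lit 0) (nat_lit 4) (nat_lit 0) (nat_lit 169) (nat_lit 366) r12_169 r4_366 (nat_lit 0) (nat_lit 0) (nat_lit 0) (nat_lit 0x656168c414) (nat_lit 13066269840),
  Rx.mk (nat_lit 262) (nat_lit 6) (nat_lit 0) (nat_lit 4) (nat_lit 1) (nat_lit 177) (nat_lit 369) r12_177 r4_369 (nat_lit 0) (nat_lit 0) (nat_lit 0) (nat_lit 0x6fa2424c3a) (nat_lit 8033393160),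
  Rx.mk (nat_lit 268) (nat_lit 4) (nat_lit 1) (nat_lit 4) (nat_lit 2) (nat_lit 170) (nat_lit 373) r12_170 r4_373 (nat_lit 0) (nat_lit 0) (nat_lit 0) (nat_lit 0x7171c2f260) (nat_lit 7144675200),
  Rx.mk (nat_lit 270) (nat_lit 6) (nat_lit 1) (nat_lit 4) (nat_lit 3) (nat_lit 178) (nat_lit 375) r12_178 r4_375 (nat_lit 0) (nat_lit 0) (nat_lit 0) (nat_lit 0x7dd9dfe428) (nat_lit 1054808352),
  Rx.mk (nat_lit 276) (nat_lit 4) (nat_lit 2) (nat_lit 4) (nat_lit 2) (nat_lit 171) (nat_lit 378) r12_171 r4_378 (nat_lit 0) (nat_lit 0) (nat_lit 0) (nat_lit 0x6e2f0d2100) (nat_lit 8745145344),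
  Rx.mk (nat_lit 324) (nat_lit 4) (nat_lit 0) (nat_lit 5) (nat_lit 4) (nat_lit 172) (nat_lit 367) r12_172 r4_367 (nat_lit 0) (nat_lit 0) (nat_lit 0) (nat_lit 0x70f7fe6f22) (nat_lit 7378151976),
  Rx.mk (nat_lit 326) (nat_lit 6) (nat_lit 0) (nat_lit 5) (nat_lit 5) (nat_lit 179) (nat_lit 370) r12_179 r4_370 (nat_lit 0) (nat_lit 0) (nat_lit 0) (nat_lit 0x7e34af96d2) (nat_lit 880687080),
  Rx.mk (nat_lit 340) (nat_lit 4) (nat_lit 2) (nat_lit 5) (nat_lit 6) (nat_lit 173) (nat_lit 379) r12_173 r4_379 (nat_lit 0) (nat_lit 0) (nat_lit 0) (nat_lit 0x7dad2f8f5a) (nat_lit 1140494472),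
  Rx.mk (nat_lit 390) (nat_lit 6) (nat_lit 0) (nat_lit 6) (nat_lit 5) (nat_lit 180) (nat_lit 372) r12_180 r4_372 (nat_lit 0) (nat_lit 0) (nat_lit 0) (nat_lit 0x7d88ecd3aa) (nat_lit 1210020552),
  Rx.mk (nat_lit 398) (nat_lit 6) (nat_lit 1) (nat_lit 6) (nat_lit 7) (nat_lit 181) (nat_lit 377) r12_181 r4_377 (nat_lit 0) (nat_lit 0) (nat_lit 0) (nat_lit 0x7e0fdfe3f2) (nat_lit 951268968),
  Rx.mk (nat_lit 452) (nat_lit 4) (nat_lit 0) (nat_lit 7) (nat_lit 4) (nat_lit 174) (nat_lit 368) r12_174 r4_368 (nat_lit 0) (nat_lit 0) (nat_lit 0) (nat_lit 0x754ac05eb0) (nat_lit 5256059328),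
  Rx.mk (nat_lit 454) (nat_lit 6) (nat_lit 0) (nat_lit 7) (nat_lit 5) (nat_lit 182) (nat_lit 371) r12_182 r4_371 (nat_lit 0) (nat_lit 0) (nat_lit 0) (nat_lit 0x7e20a9174e) (nat_lit 919083672),
  Rx.mk (nat_lit 460) (nat_lit 4) (nat_lit 1) (nat_lit 7) (nat_lit 6) (nat_lit 175) (nat_lit 374) r12_175 r4_374 (nat_lit 0) (nat_lit 0) (nat_lit 0) (nat_lit 0x7d15e364b4) (nat_lit 1430591760),
  Rx.mk (nat_lit 462) (nat_lit 6) (nat_lit 1) (nat_lit 7) (nat_lit 7) (nat_lit 183) (nat_lit 376) r12_183 r4_376 (nat_lit 0) (nat_lit 0) (nat_lit 0) (nat_lit 0x7e4606e14c) (nat_lit 847437552),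
  Rx.mk (nat_lit 468) (nat_lit 4) (nat_lit 2) (nat_lit 7) (nat_lit 6) (nat_lit 176) (nat_lit 380) r12_176 r4_380 (nat_lit 0) (nat_lit 0) (nat_lit 0) (nat_lit 0x7e2ee053cc) (nat_lit 891826416)]
noncomputable def e56_9 : List Rx := [
  Rx.mk (nat_lit 212) (nat_lit 4) (nat_lit 2) (nat_lit 3) (nat_lit 6) (nat_lit 231) (nat_lit 334) r12_231 r5_334 (nat_lit 0) (nat_lit 0) (nat_lit 0) (nat_lit 0x7fe0d652ba) (nat_lit 59751432),
  Rx.mk (nat_lit 452) (nat_lit 4) (nat_lit 0) (nat_lit 7) (nat_lit 4) (nat_lit 232) (nat_lit 333) r12_232 r5_333 (nat_lit 0) (nat_lit 0) (nat_lit 0) (nat_lit 0x7b7d41d066) (nat_lit 2214099576),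
  Rx.mk (nat_lit 454) (nat_lit 6) (nat_lit 0) (nat_lit 7) (nat_lit 5) (nat_lit 234) (nat_lit 336) r12_234 r5_336 (nat_lit 0) (nat_lit 0) (nat_lit 0) (nat_lit 0x7dd76d0b58) (nat_lit 1059503328),
  Rx.mk (nat_lit 468) (nat_lit 4) (nat_lit 2) (nat_lit 7) (nat_lit 6) (nat_lit 233) (nat_lit 335) r12_233 r5_335 (nat_lit 0) (nat_lit 0) (nat_lit 0) (nat_lit 0x7f189437a4) (nat_lit 443725776)]
noncomputable def e56_10 : List Rx := [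
  Rx.mk (nat_lit 21) (nat_lit 5) (nat_lit 2) (nat_lit 0) (nat_lit 3) (nat_lit 255) (nat_lit 224) r12_255 r0_224 (nat_lit 0) (nat_lit 0) (nat_lit 0) (nat_lit 0x8000000000) (nat_lit 0)]
noncomputable def e56_11 : List Rx := [
  Rx.mk (nat_lit 21) (nat_lit 5) (nat_lit 2) (nat_lit 0) (nat_lit 3) (nat_lit 256) (nat_lit 422) r12_256 r6_422 (nat_lit 0) (nat_lit 0) (nat_lit 0) (nat_lit 0x7e13f5229a) (nat_lit 943440264),
  Rx.mk (nat_lit 85) (nat_lit 5) (nat_lit 2) (nat_lit 1) (nat_lit 7) (nat_lit 257) (nat_lit 423) r12_257 r6_423 (nat_lit 0) (nat_lit 0) (nat_lit 0) (nat_lit 0x7e7b9907f4) (nat_lit 744720912)]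
noncomputable def e56_12 : List Rx := [
  Rx.mk (nat_lit 17) (nat_lit 1) (nat_lit 2) (nat_lit 0) (nat_lit 3) (nat_lit 267) (nat_lit 243) r12_267 r1_243 (nat_lit 0) (nat_lit 0) (nat_lit 0) (nat_lit 0x7d19eca41c) (nat_lit 1422852912),
  Rx.mk (nat_lit 21) (nat_lit 5) (nat_lit 2) (nat_lit 0) (nat_lit 3) (nat_lit 268) (nat_lit 242) r12_268 r1_242 (nat_lit 0) (nat_lit 0) (nat_lit 0) (nat_lit 0x8000000000) (nat_lit 0)]
noncomputable def e56_13 : List Rx := [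
  Rx.mk (nat_lit 17) (nat_lit 1) (nat_lit 2) (nat_lit 0) (nat_lit 3) (nat_lit 269) (nat_lit 347) r12_269 r7_347 (nat_lit 0) (nat_lit 0) (nat_lit 0) (nat_lit 0x7d3189aa34) (nat_lit 1377576720),
  Rx.mk (nat_lit 21) (nat_lit 5) (nat_lit 2) (nat_lit 0) (nat_lit 3) (nat_lit 271) (nat_lit 349) r12_271 r7_349 (nat_lit 0) (nat_lit 0) (nat_lit 0) (nat_lit 0x7d458d29e8) (nat_lit 1339202592),
  Rx.mk (nat_lit 81) (nat_lit 1) (nat_lit 2) (nat_lit 1) (nat_lit 7) (nat_lit 270) (nat_lit 348) r12_270 r7_348 (nat_lit 0) (nat_lit 0) (nat_lit 0) (nat_lit 0x7df25e9c24) (nat_lit 1007841744),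
  Rx.mk (nat_lit 85) (nat_lit 5) (nat_lit 2) (nat_lit 1) (nat_lit 7) (nat_lit 272) (nat_lit 350) r12_272 r7_350 (nat_lit 0) (nat_lit 0) (nat_lit 0) (nat_lit 0x7dcaa7d7b8) (nat_lit 1083989088)]
noncomputable def e56_14 : List Rx := [
  Rx.mk (nat_lit 85) (nat_lit 5) (nat_lit 2) (nat_lit 1) (nat_lit 7) (nat_lit 285) (nat_lit 218) r12_285 r7_218 (nat_lit 0) (nat_lit 0) (nat_lit 0) (nat_lit 0x7e67fac1ec) (nat_lit 782336880)]
noncomputable def e56_15 : List Rx := [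
  Rx.mk (nat_lit 85) (nat_lit 5) (nat_lit 2) (nat_lit 1) (nat_lit 7) (nat_lit 286) (nat_lit 309) r12_286 r8_309 (nat_lit 0) (nat_lit 0) (nat_lit 0) (nat_lit 0x7ddc31bf08) (nat_lit 1050360480),
  Rx.mk (nat_lit 325) (nat_lit 5) (nat_lit 0) (nat_lit 5) (nat_lit 5) (nat_lit 287) (nat_lit 307) r12_287 r8_307 (nat_lit 0) (nat_lit 0) (nat_lit 0) (nat_lit 0x6ec70e6054) (nat_lit 8453691792),
  Rx.mk (nat_lit 333) (nat_lit 5) (nat_lit 1) (nat_lit 5) (nat_lit 7) (nat_lit 288) (nat_lit 308) r12_288 r8_308 (nat_lit 0) (nat_lit 0) (nat_lit 0) (nat_lit 0x7dd07e9a46) (nat_lit 1072793592),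
  Rx.mk (nat_lit 341) (nat_lit 5) (nat_lit 2) (nat_lit 5) (nat_lit 7) (nat_lit 289) (nat_lit 310) r12_289 r8_310 (nat_lit 0) (nat_lit 0) (nat_lit 0) (nat_lit 0x7dbce773cc) (nat_lit 1110356208)]
noncomputable def e56_16 : List Rx := [
  Rx.mk (nat_lit 21) (nat_lit 5) (nat_lit 2) (nat_lit 0) (nat_lit 3) (nat_lit 304) (nat_lit 224) r12_304 r4_224 (nat_lit 0) (nat_lit 0) (nat_lit 0) (nat_lit 0x7b83692dea) (nat_lit 2202300360),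
  Rx.mk (nat_lit 213) (nat_lit 5) (nat_lit 2) (nat_lit 3) (nat_lit 7) (nat_lit 305) (nat_lit 225) r12_305 r4_225 (nat_lit 0) (nat_lit 0) (nat_lit 0) (nat_lit 0x7b9dce877a) (nat_lit 2151688968)]
noncomputable def e56_17 : List Rx := [
  Rx.mk (nat_lit 21) (nat_lit 5) (nat_lit 2) (nat_lit 0) (nat_lit 3) (nat_lit 306) (nat_lit 347) r12_306 r9_347 (nat_lit 0) (nat_lit 0) (nat_lit 0) (nat_lit 0x7db5ac2788) (nat_lit 1124222112),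
  Rx.mk (nat_lit 85) (nat_lit 5) (nat_lit 2) (nat_lit 1) (nat_lit 7) (nat_lit 307) (nat_lit 348) r12_307 r9_348 (nat_lit 0) (nat_lit 0) (nat_lit 0) (nat_lit 0x7e63f48254) (nat_lit 790053264),
  Rx.mk (nat_lit 213) (nat_lit 5) (nat_lit 2) (nat_lit 3) (nat_lit 7) (nat_lit 308) (nat_lit 349) r12_308 r9_349 (nat_lit 0) (nat_lit 0) (nat_lit 0) (nat_lit 0x7e796d0ab6) (nat_lit 748885176)]
noncomputable def e56_18 : List Rx := [
  Rx.mk (nat_lit 213) (nat_lit 5) (nat_lit 2) (nat_lit 3) (nat_lit 7) (nat_lit 309) (nat_lit 356) r12_309 r10_356 (nat_lit 0) (nat_lit 0) (nat_lit 0) (nat_lit 0x7f0597e77c) (nat_lit 480128688)]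
noncomputable def e56_19 : List Rx := [
  Rx.mk (nat_lit 332) (nat_lit 4) (nat_lit 1) (nat_lit 5) (nat_lit 6) (nat_lit 290) (nat_lit 324) r12_290 r8_324 (nat_lit 0) (nat_lit 0) (nat_lit 0) (nat_lit 0x7cb8761be6) (nat_lit 1609728120),
  Rx.mk (nat_lit 333) (nat_lit 5) (nat_lit 1) (nat_lit 5) (nat_lit 7) (nat_lit 291) (nat_lit 325) r12_291 r8_325 (nat_lit 0) (nat_lit 0) (nat_lit 0) (nat_lit 0x7de9664bb2) (nat_lit 1025040744),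
  Rx.mk (nat_lit 334) (nat_lit 6) (nat_lit 1) (nat_lit 5) (nat_lit 7) (nat_lit 292) (nat_lit 326) r12_292 r8_326 (nat_lit 0) (nat_lit 0) (nat_lit 0) (nat_lit 0x7dda2b3f72) (nat_lit 1054243944)]
noncomputable def e56_20 : List Rx := [
  Rx.mk (nat_lit 270) (nat_lit 6) (nat_lit 1) (nat_lit 4) (nat_lit 3) (nat_lit 61) (nat_lit 89) r12_61 r0_89 (nat_lit 0) (nat_lit 0) (nat_lit 0) (nat_lit 0x75d5ae0f4a) (nat_lit 4989678408),
  Rx.mk (nat_lit 398) (nat_lit 6) (nat_lit 1) (nat_lit 6) (nat_lit 7) (nat_lit 62) (nat_lit 90) r12_62 r0_90 (nat_lit 0) (nat_lit 0) (nat_lit 0) (nat_lit 0x7ec6f5d1dc) (nat_lit 600221232)]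
noncomputable def e56_21 : List Rx := [
  Rx.mk (nat_lit 270) (nat_lit 6) (nat_lit 1) (nat_lit 4) (nat_lit 3) (nat_lit 63) (nat_lit 91) r12_63 r1_91 (nat_lit 0) (nat_lit 0) (nat_lit 0) (nat_lit 0x7a1ced3710) (nat_lit 2889656640),
  Rx.mk (nat_lit 398) (nat_lit 6) (nat_lit 1) (nat_lit 6) (nat_lit 7) (nat_lit 64) (nat_lit 92) r12_64 r1_92 (nat_lit 0) (nat_lit 0) (nat_lit 0) (nat_lit 0x7adb1c5360) (nat_lit 2524998528),
  Rx.mk (nat_lit 430) (nat_lit 6) (nat_lit 5) (nat_lit 6) (nat_lit 7) (nat_lit 65) (nat_lit 93) r12_65 r1_93 (nat_lit 0) (nat_lit 0) (nat_lit 0) (nat_lit 0x7e7f436d4a) (nat_lit 737692488)]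
noncomputable def e56_22 : List Rx := [
  Rx.mk (nat_lit 270) (nat_lit 6) (nat_lit 1) (nat_lit 4) (nat_lit 3) (nat_lit 67) (nat_lit 89) r12_67 r4_89 (nat_lit 0) (nat_lit 0) (nat_lit 0) (nat_lit 0x7e028ed910) (nat_lit 976802112),
  Rx.mk (nat_lit 398) (nat_lit 6) (nat_lit 1) (nat_lit 6) (nat_lit 7) (nat_lit 68) (nat_lit 92) r12_68 r4_92 (nat_lit 0) (nat_lit 0) (nat_lit 0) (nat_lit 0x7e502f9eb6) (nat_lit 827958456),
  Rx.mk (nat_lit 460) (nat_lit 4) (nat_lit 1) (nat_lit 7) (nat_lit 6) (nat_lit 66) (nat_lit 90) r12_66 r4_90 (nat_lit 0) (nat_lit 0) (nat_lit 0) (nat_lit 0x7f16fd1118) (nat_lit 446775264),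
  Rx.mk (nat_lit 462) (nat_lit 6) (nat_lit 1) (nat_lit 7) (nat_lit 7) (nat_lit 69) (nat_lit 91) r12_69 r4_91 (nat_lit 0) (nat_lit 0) (nat_lit 0) (nat_lit 0x7eff7569aa) (nat_lit 491891400)]
noncomputable def e56_23 : List Rx := [
  Rx.mk (nat_lit 268) (nat_lit 4) (nat_lit 1) (nat_lit 4) (nat_lit 2) (nat_lit 184) (nat_lit 444) r12_184 r6_444 (nat_lit 0) (nat_lit 0) (nat_lit 0) (nat_lit 0x6f2aece208) (nat_lit 8262203040),
  Rx.mk (nat_lit 270) (nat_lit 6) (nat_lit 1) (nat_lit 4) (nat_lit 3) (nat_lit 186) (nat_lit 446) r12_186 r6_446 (nat_lit 0) (nat_lit 0) (nat_lit 0) (nat_lit 0x7e3ff4227e) (nat_lit 859082328),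
  Rx.mk (nat_lit 332) (nat_lit 4) (nat_lit 1) (nat_lit 5) (nat_lit 6) (nat_lit 185) (nat_lit 445) r12_185 r6_445 (nat_lit 0) (nat_lit 0) (nat_lit 0) (nat_lit 0x7dece293ea) (nat_lit 1018357704),
  Rx.mk (nat_lit 334) (nat_lit 6) (nat_lit 1) (nat_lit 5) (nat_lit 7) (nat_lit 187) (nat_lit 447) r12_187 r6_447 (nat_lit 0) (nat_lit 0) (nat_lit 0) (nat_lit 0x7e49bf85be) (nat_lit 840302424),
  Rx.mk (nat_lit 398) (nat_lit 6) (nat_lit 1) (nat_lit 6) (nat_lit 7) (nat_lit 188) (nat_lit 448) r12_188 r6_448 (nat_lit 0) (nat_lit 0) (nat_lit 0) (nat_lit 0x7dfaf092fc) (nat_lit 991409328)]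
noncomputable def e56_24 : List Rx := [
  Rx.mk (nat_lit 268) (nat_lit 4) (nat_lit 1) (nat_lit 4) (nat_lit 2) (nat_lit 191) (nat_lit 362) r12_191 r7_362 (nat_lit 0) (nat_lit 0) (nat_lit 0) (nat_lit 0x6335d77f54) (nat_lit 14131512720),
  Rx.mk (nat_lit 270) (nat_lit 6) (nat_lit 1) (nat_lit 4) (nat_lit 3) (nat_lit 193) (nat_lit 364) r12_193 r7_364 (nat_lit 0) (nat_lit 0) (nat_lit 0) (nat_lit 0x7c2c753c80) (nat_lit 1878170112),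
  Rx.mk (nat_lit 332) (nat_lit 4) (nat_lit 1) (nat_lit 5) (nat_lit 6) (nat_lit 192) (nat_lit 363) r12_192 r7_363 (nat_lit 0) (nat_lit 0) (nat_lit 0) (nat_lit 0x7da6297fc2) (nat_lit 1153961640),
  Rx.mk (nat_lit 334) (nat_lit 6) (nat_lit 1) (nat_lit 5) (nat_lit 7) (nat_lit 194) (nat_lit 365) r12_194 r7_365 (nat_lit 0) (nat_lit 0) (nat_lit 0) (nat_lit 0x7ddfee8338) (nat_lit 1043194464),
  Rx.mk (nat_lit 398) (nat_lit 6) (nat_lit 1) (nat_lit 6) (nat_lit 7) (nat_lit 195) (nat_lit 366) r12_195 r7_366 (nat_lit 0) (nat_lit 0) (nat_lit 0) (nat_lit 0x7dad63ac18) (nat_lit 1140104160),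
  Rx.mk (nat_lit 430) (nat_lit 6) (nat_lit 5) (nat_lit 6) (nat_lit 7) (nat_lit 196) (nat_lit 361) r12_196 r7_361 (nat_lit 0) (nat_lit 0) (nat_lit 0) (nat_lit 0x7dd7808a20) (nat_lit 1059357312)]
noncomputable def e56_25 : List Rx := [
  Rx.mk (nat_lit 332) (nat_lit 4) (nat_lit 1) (nat_lit 5) (nat_lit 6) (nat_lit 189) (nat_lit 74) r12_189 r7_74 (nat_lit 0) (nat_lit 0) (nat_lit 0) (nat_lit 0x7dea1aa06c) (nat_lit 1023690096),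
  Rx.mk (nat_lit 334) (nat_lit 6) (nat_lit 1) (nat_lit 5) (nat_lit 7) (nat_lit 190) (nat_lit 75) r12_190 r7_75 (nat_lit 0) (nat_lit 0) (nat_lit 0) (nat_lit 0x7e3b884940) (nat_lit 867559680)]
noncomputable def e56_26 : List Rx := [
  Rx.mk (nat_lit 268) (nat_lit 4) (nat_lit 1) (nat_lit 4) (nat_lit 2) (nat_lit 197) (nat_lit 369) r12_197 r9_369 (nat_lit 0) (nat_lit 0) (nat_lit 0) (nat_lit 0x6f5f417c8a) (nat_lit 8161864776),
  Rx.mk (nat_lit 270) (nat_lit 6) (nat_lit 1) (nat_lit 4) (nat_lit 3) (nat_lit 199) (nat_lit 371) r12_199 r9_371 (nat_lit 0) (nat_lit 0) (nat_lit 0) (nat_lit 0x7e5a08811e) (nat_lit 809077464),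
  Rx.mk (nat_lit 398) (nat_lit 6) (nat_lit 1) (nat_lit 6) (nat_lit 7) (nat_lit 200) (nat_lit 373) r12_200 r9_373 (nat_lit 0) (nat_lit 0) (nat_lit 0) (nat_lit 0x7dd2da9484) (nat_lit 1068269904),
  Rx.mk (nat_lit 460) (nat_lit 4) (nat_lit 1) (nat_lit 7) (nat_lit 6) (nat_lit 198) (nat_lit 370) r12_198 r9_370 (nat_lit 0) (nat_lit 0) (nat_lit 0) (nat_lit 0x7d55b82728) (nat_lit 1308202272),
  Rx.mk (nat_lit 462) (nat_lit 6) (nat_lit 1) (nat_lit 7) (nat_lit 7) (nat_lit 201) (nat_lit 372) r12_201 r9_372 (nat_lit 0) (nat_lit 0) (nat_lit 0) (nat_lit 0x7e4050bcb4) (nat_lit 858388752)]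
noncomputable def e56_27 : List Rx := [
  Rx.mk (nat_lit 460) (nat_lit 4) (nat_lit 1) (nat_lit 7) (nat_lit 6) (nat_lit 240) (nat_lit 366) r12_240 r10_366 (nat_lit 0) (nat_lit 0) (nat_lit 0) (nat_lit 0x7e373cadfe) (nat_lit 875795544),
  Rx.mk (nat_lit 462) (nat_lit 6) (nat_lit 1) (nat_lit 7) (nat_lit 7) (nat_lit 241) (nat_lit 367) r12_241 r10_367 (nat_lit 0) (nat_lit 0) (nat_lit 0) (nat_lit 0x7ee6adf63a) (nat_lit 539402760)]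
noncomputable def e56_28 : List Rx := [
  Rx.mk (nat_lit 20) (nat_lit 4) (nat_lit 2) (nat_lit 0) (nat_lit 2) (nat_lit 315) (nat_lit 273) r12_315 r10_273 (nat_lit 0) (nat_lit 0) (nat_lit 0) (nat_lit 0x771b6bd228) (nat_lit 4365103392),
  Rx.mk (nat_lit 21) (nat_lit 5) (nat_lit 2) (nat_lit 0) (nat_lit 3) (nat_lit 318) (nat_lit 274) r12_318 r10_274 (nat_lit 0) (nat_lit 0) (nat_lit 0) (nat_lit 0x7d6315f13e) (nat_lit 1282573656),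
  Rx.mk (nat_lit 23) (nat_lit 7) (nat_lit 2) (nat_lit 0) (nat_lit 3) (nat_lit 321) (nat_lit 275) r12_321 r10_275 (nat_lit 0) (nat_lit 0) (nat_lit 0) (nat_lit 0x7dd6261fc8) (nat_lit 1061951904),
  Rx.mk (nat_lit 84) (nat_lit 4) (nat_lit 2) (nat_lit 1) (nat_lit 6) (nat_lit 316) (nat_lit 276) r12_316 r10_276 (nat_lit 0) (nat_lit 0) (nat_lit 0) (nat_lit 0x7d971a50c4) (nat_lit 1182836304),
  Rx.mk (nat_lit 85) (nat_lit 5) (nat_lit 2) (nat_lit 1) (nat_lit 7) (nat_lit 319) (nat_lit 277) r12_319 r10_277 (nat_lit 0) (nat_lit 0) (nat_lit 0) (nat_lit 0x7e00b1f6e0) (nat_lit 980373888),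
  Rx.mk (nat_lit 87) (nat_lit 7) (nat_lit 2) (nat_lit 1) (nat_lit 7) (nat_lit 322) (nat_lit 278) r12_322 r10_278 (nat_lit 0) (nat_lit 0) (nat_lit 0) (nat_lit 0x7ddda307f2) (nat_lit 1047594600),
  Rx.mk (nat_lit 212) (nat_lit 4) (nat_lit 2) (nat_lit 3) (nat_lit 6) (nat_lit 317) (nat_lit 279) r12_317 r10_279 (nat_lit 0) (nat_lit 0) (nat_lit 0) (nat_lit 0x7dea0ba15c) (nat_lit 1023802416),
  Rx.mk (nat_lit 213) (nat_lit 5) (nat_lit 2) (nat_lit 3) (nat_lit 7) (nat_lit 320) (nat_lit 280) r12_320 r10_280 (nat_lit 0) (nat_lit 0) (nat_lit 0) (nat_lit 0x7de5e7c39e) (nat_lit 1031740632)]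
noncomputable def e56_29 : List Rx := [
  Rx.mk (nat_lit 215) (nat_lit 7) (nat_lit 2) (nat_lit 3) (nat_lit 7) (nat_lit 77) (nat_lit 36) r12_77 r5_36 (nat_lit 0) (nat_lit 0) (nat_lit 0) (nat_lit 0x7e41ba8616) (nat_lit 855679032),
  Rx.mk (nat_lit 286) (nat_lit 6) (nat_lit 3) (nat_lit 4) (nat_lit 3) (nat_lit 73) (nat_lit 37) r12_73 r5_37 (nat_lit 0) (nat_lit 0) (nat_lit 0) (nat_lit 0x7e46331e88) (nat_lit 847106208),
  Rx.mk (nat_lit 414) (nat_lit 6) (nat_lit 3) (nat_lit 6) (nat_lit 7) (nat_lit 74) (nat_lit 40) r12_74 r5_40 (nat_lit 0) (nat_lit 0) (nat_lit 0) (nat_lit 0x7e5cc7752c) (nat_lit 803812464),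
  Rx.mk (nat_lit 452) (nat_lit 4) (nat_lit 0) (nat_lit 7) (nat_lit 4) (nat_lit 70) (nat_lit 31) r12_70 r5_31 (nat_lit 0) (nat_lit 0) (nat_lit 0) (nat_lit 0x7e042adf4e) (nat_lit 973716120),
  Rx.mk (nat_lit 454) (nat_lit 6) (nat_lit 0) (nat_lit 7) (nat_lit 5) (nat_lit 75) (nat_lit 38) r12_75 r5_38 (nat_lit 0) (nat_lit 0) (nat_lit 0) (nat_lit 0x7dee681b90) (nat_lit 1015440192),
  Rx.mk (nat_lit 455) (nat_lit 7) (nat_lit 0) (nat_lit 7) (nat_lit 5) (nat_lit 78) (nat_lit 34) r12_78 r5_34 (nat_lit 0) (nat_lit 0) (nat_lit 0) (nat_lit 0x7a93662f0a) (nat_lit 2662497864),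
  Rx.mk (nat_lit 468) (nat_lit 4) (nat_lit 2) (nat_lit 7) (nat_lit 6) (nat_lit 71) (nat_lit 33) r12_71 r5_33 (nat_lit 0) (nat_lit 0) (nat_lit 0) (nat_lit 0x7f16d5b38e) (nat_lit 447070104),
  Rx.mk (nat_lit 471) (nat_lit 7) (nat_lit 2) (nat_lit 7) (nat_lit 7) (nat_lit 79) (nat_lit 35) r12_79 r5_35 (nat_lit 0) (nat_lit 0) (nat_lit 0) (nat_lit 0x7e52dd53d8) (nat_lit 822822624),
  Rx.mk (nat_lit 476) (nat_lit 4) (nat_lit 3) (nat_lit 7) (nat_lit 6) (nat_lit 72) (nat_lit 32) r12_72 r5_32 (nat_lit 0) (nat_lit 0) (nat_lit 0) (nat_lit 0x7c7bbb67ce) (nat_lit 1726170264),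
  Rx.mk (nat_lit 478) (nat_lit 6) (nat_lit 3) (nat_lit 7) (nat_lit 7) (nat_lit 76) (nat_lit 39) r12_76 r5_39 (nat_lit 0) (nat_lit 0) (nat_lit 0) (nat_lit 0x7f0fa006f0) (nat_lit 460893888)]
noncomputable def e56_30 : List Rx := [
  Rx.mk (nat_lit 260) (nat_lit 4) (nat_lit 0) (nat_lit 4) (nat_lit 0) (nat_lit 202) (nat_lit 68) r12_202 r10_68 (nat_lit 0) (nat_lit 0) (nat_lit 0) (nat_lit 0x4f8256cb14) (nat_lit 23801905296),
  Rx.mk (nat_lit 262) (nat_lit 6) (nat_lit 0) (nat_lit 4) (nat_lit 1) (nat_lit 212) (nat_lit 72) r12_212 r10_72 (nat_lit 0) (nat_lit 0) (nat_lit 0) (nat_lit 0x6f899876f0) (nat_lit 8080682688),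
  Rx.mk (nat_lit 268) (nat_lit 4) (nat_lit 1) (nat_lit 4) (nat_lit 2) (nat_lit 203) (nat_lit 69) r12_203 r10_69 (nat_lit 0) (nat_lit 0) (nat_lit 0) (nat_lit 0x77191ff6e8) (nat_lit 4369506336),
  Rx.mk (nat_lit 270) (nat_lit 6) (nat_lit 1) (nat_lit 4) (nat_lit 3) (nat_lit 213) (nat_lit 73) r12_213 r10_73 (nat_lit 0) (nat_lit 0) (nat_lit 0) (nat_lit 0x7dc0395eaa) (nat_lit 1103990472),
  Rx.mk (nat_lit 276) (nat_lit 4) (nat_lit 2) (nat_lit 4) (nat_lit 2) (nat_lit 204) (nat_lit 71) r12_204 r10_71 (nat_lit 0) (nat_lit 0) (nat_lit 0) (nat_lit 0x71d4c381f4) (nat_lit 6954848784),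
  Rx.mk (nat_lit 284) (nat_lit 4) (nat_lit 3) (nat_lit 4) (nat_lit 2) (nat_lit 205) (nat_lit 70) r12_205 r10_70 (nat_lit 0) (nat_lit 0) (nat_lit 0) (nat_lit 0x749a460706) (nat_lit 5594437368),
  Rx.mk (nat_lit 286) (nat_lit 6) (nat_lit 3) (nat_lit 4) (nat_lit 3) (nat_lit 214) (nat_lit 74) r12_214 r10_74 (nat_lit 0) (nat_lit 0) (nat_lit 0) (nat_lit 0x7df140ee00) (nat_lit 1009981440),
  Rx.mk (nat_lit 324) (nat_lit 4) (nat_lit 0) (nat_lit 5) (nat_lit 4) (nat_lit 206) (nat_lit 75) r12_206 r10_75 (nat_lit 0) (nat_lit 0) (nat_lit 0) (nat_lit 0x762668e34c) (nat_lit 4834887408),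
  Rx.mk (nat_lit 326) (nat_lit 6) (nat_lit 0) (nat_lit 5) (nat_lit 5) (nat_lit 215) (nat_lit 78) r12_215 r10_78 (nat_lit 0) (nat_lit 0) (nat_lit 0) (nat_lit 0x7e21a6277c) (nat_lit 917188272),
  Rx.mk (nat_lit 340) (nat_lit 4) (nat_lit 2) (nat_lit 5) (nat_lit 6) (nat_lit 207) (nat_lit 77) r12_207 r10_77 (nat_lit 0) (nat_lit 0) (nat_lit 0) (nat_lit 0x7de5630bea) (nat_lit 1032734664),
  Rx.mk (nat_lit 348) (nat_lit 4) (nat_lit 3) (nat_lit 5) (nat_lit 6) (nat_lit 208) (nat_lit 76) r12_208 r10_76 (nat_lit 0) (nat_lit 0) (nat_lit 0) (nat_lit 0x7df4fc9242) (nat_lit 1002823848),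
  Rx.mk (nat_lit 350) (nat_lit 6) (nat_lit 3) (nat_lit 5) (nat_lit 7) (nat_lit 216) (nat_lit 79) r12_216 r10_79 (nat_lit 0) (nat_lit 0) (nat_lit 0) (nat_lit 0x7df9596c70) (nat_lit 994458816),
  Rx.mk (nat_lit 390) (nat_lit 6) (nat_lit 0) (nat_lit 6) (nat_lit 5) (nat_lit 217) (nat_lit 88) r12_217 r10_88 (nat_lit 0) (nat_lit 0) (nat_lit 0) (nat_lit 0x7d77f5e32a) (nat_lit 1242548424),
  Rx.mk (nat_lit 398) (nat_lit 6) (nat_lit 1) (nat_lit 6) (nat_lit 7) (nat_lit 218) (nat_lit 89) r12_218 r10_89 (nat_lit 0) (nat_lit 0) (nat_lit 0) (nat_lit 0x7df35c0c4c) (nat_lit 1005943536),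
  Rx.mk (nat_lit 414) (nat_lit 6) (nat_lit 3) (nat_lit 6) (nat_lit 7) (nat_lit 219) (nat_lit 90) r12_219 r10_90 (nat_lit 0) (nat_lit 0) (nat_lit 0) (nat_lit 0x7df79428c6) (nat_lit 997853688),
  Rx.mk (nat_lit 452) (nat_lit 4) (nat_lit 0) (nat_lit 7) (nat_lit 4) (nat_lit 209) (nat_lit 80) r12_209 r10_80 (nat_lit 0) (nat_lit 0) (nat_lit 0) (nat_lit 0x76d6a79eb0) (nat_lit 4496955840),
  Rx.mk (nat_lit 454) (nat_lit 6) (nat_lit 0) (nat_lit 7) (nat_lit 5) (nat_lit 220) (nat_lit 86) r12_220 r10_86 (nat_lit 0) (nat_lit 0) (nat_lit 0) (nat_lit 0x7e1455dc8e) (nat_lit 942715800),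
  Rx.mk (nat_lit 455) (nat_lit 7) (nat_lit 0) (nat_lit 7) (nat_lit 5) (nat_lit 222) (nat_lit 83) r12_222 r10_83 (nat_lit 0) (nat_lit 0) (nat_lit 0) (nat_lit 0x7d8a287fee) (nat_lit 1207656216),
  Rx.mk (nat_lit 460) (nat_lit 4) (nat_lit 1) (nat_lit 7) (nat_lit 6) (nat_lit 210) (nat_lit 81) r12_210 r10_81 (nat_lit 0) (nat_lit 0) (nat_lit 0) (nat_lit 0x7dd00b217e) (nat_lit 1073658456),
  Rx.mk (nat_lit 462) (nat_lit 6) (nat_lit 1) (nat_lit 7) (nat_lit 7) (nat_lit 221) (nat_lit 87) r12_221 r10_87 (nat_lit 0) (nat_lit 0) (nat_lit 0) (nat_lit 0x7df712d0dc) (nat_lit 998822448),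
  Rx.mk (nat_lit 463) (nat_lit 7) (nat_lit 1) (nat_lit 7) (nat_lit 7) (nat_lit 223) (nat_lit 84) r12_223 r10_84 (nat_lit 0) (nat_lit 0) (nat_lit 0) (nat_lit 0x7ddcad774c) (nat_lit 1049433840),
  Rx.mk (nat_lit 468) (nat_lit 4) (nat_lit 2) (nat_lit 7) (nat_lit 6) (nat_lit 211) (nat_lit 82) r12_211 r10_82 (nat_lit 0) (nat_lit 0) (nat_lit 0) (nat_lit 0x7dc3830a0c) (nat_lit 1097686512),
  Rx.mk (nat_lit 471) (nat_lit 7) (nat_lit 2) (nat_lit 7) (nat_lit 7) (nat_lit 224) (nat_lit 85) r12_224 r10_85 (nat_lit 0) (nat_lit 0) (nat_lit 0) (nat_lit 0x7ddf540ce0) (nat_lit 1044351360)]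
noncomputable def e56_31 : List Rx := [
  Rx.mk (nat_lit 23) (nat_lit 7) (nat_lit 2) (nat_lit 0) (nat_lit 3) (nat_lit 243) (nat_lit 238) r12_243 r5_238 (nat_lit 0) (nat_lit 0) (nat_lit 0) (nat_lit 0x7fed08ef84) (nat_lit 36363600),
  Rx.mk (nat_lit 212) (nat_lit 4) (nat_lit 2) (nat_lit 3) (nat_lit 6) (nat_lit 242) (nat_lit 239) r12_242 r5_239 (nat_lit 0) (nat_lit 0) (nat_lit 0) (nat_lit 0x7d25bb2728) (nat_lit 1400214816),
  Rx.mk (nat_lit 215) (nat_lit 7) (nat_lit 2) (nat_lit 3) (nat_lit 7) (nat_lit 244) (nat_lit 240) r12_244 r5_240 (nat_lit 0) (nat_lit 0) (nat_lit 0) (nat_lit 0x7ef7d3c3cc) (nat_lit 506523888)]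
noncomputable def e56_32 : List Rx := [
  Rx.mk (nat_lit 212) (nat_lit 4) (nat_lit 2) (nat_lit 3) (nat_lit 6) (nat_lit 245) (nat_lit 406) r12_245 r11_406 (nat_lit 0) (nat_lit 0) (nat_lit 0) (nat_lit 0x7fd8517b10) (nat_lit 76085568),
  Rx.mk (nat_lit 215) (nat_lit 7) (nat_lit 2) (nat_lit 3) (nat_lit 7) (nat_lit 251) (nat_lit 408) r12_251 r11_408 (nat_lit 0) (nat_lit 0) (nat_lit 0) (nat_lit 0x7e9f9a27be) (nat_lit 675686232),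
  Rx.mk (nat_lit 452) (nat_lit 4) (nat_lit 0) (nat_lit 7) (nat_lit 4) (nat_lit 246) (nat_lit 404) r12_246 r11_404 (nat_lit 0) (nat_lit 0) (nat_lit 0) (nat_lit 0x78fb4dd228) (nat_lit 3444977952),
  Rx.mk (nat_lit 454) (nat_lit 6) (nat_lit 0) (nat_lit 7) (nat_lit 5) (nat_lit 249) (nat_lit 409) r12_249 r11_409 (nat_lit 0) (nat_lit 0) (nat_lit 0) (nat_lit 0x7d5ad6d538) (nat_lit 1298385504),
  Rx.mk (nat_lit 468) (nat_lit 4) (nat_lit 2) (nat_lit 7) (nat_lit 6) (nat_lit 247) (nat_lit 407) r12_247 r11_407 (nat_lit 0) (nat_lit 0) (nat_lit 0) (nat_lit 0x7f3052fba0) (nat_lit 398196864),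
  Rx.mk (nat_lit 476) (nat_lit 4) (nat_lit 3) (nat_lit 7) (nat_lit 6) (nat_lit 248) (nat_lit 405) r12_248 r11_405 (nat_lit 0) (nat_lit 0) (nat_lit 0) (nat_lit 0x79aa5aa0ac) (nat_lit 3109337712),
  Rx.mk (nat_lit 478) (nat_lit 6) (nat_lit 3) (nat_lit 7) (nat_lit 7) (nat_lit 250) (nat_lit 410) r12_250 r11_410 (nat_lit 0) (nat_lit 0) (nat_lit 0) (nat_lit 0x7f04293e68) (nat_lit 482874912)]
noncomputable def e56_33 : List Rx := [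
  Rx.mk (nat_lit 162) (nat_lit 2) (nat_lit 4) (nat_lit 2) (nat_lit 5) (nat_lit 1) (nat_lit 69) r12_1 r0_69 (nat_lit 0) (nat_lit 0) (nat_lit 0) (nat_lit 0x71e33a1a7c) (nat_lit 6927116976),
  Rx.mk (nat_lit 176) (nat_lit 0) (nat_lit 6) (nat_lit 2) (nat_lit 6) (nat_lit 0) (nat_lit 67) r12_0 r0_67 (nat_lit 0) (nat_lit 0) (nat_lit 0) (nat_lit 0x765c6d02d4) (nat_lit 4731317136),
  Rx.mk (nat_lit 178) (nat_lit 2) (nat_lit 6) (nat_lit 2) (nat_lit 7) (nat_lit 2) (nat_lit 70) r12_2 r0_70 (nat_lit 0) (nat_lit 0) (nat_lit 0) (nat_lit 0x7690a69f06) (nat_lit 4631181048),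
  Rx.mk (nat_lit 418) (nat_lit 2) (nat_lit 4) (nat_lit 6) (nat_lit 5) (nat_lit 3) (nat_lit 68) r12_3 r0_68 (nat_lit 0) (nat_lit 0) (nat_lit 0) (nat_lit 0x75cf3f763a) (nat_lit 5002011144),
  Rx.mk (nat_lit 422) (nat_lit 6) (nat_lit 4) (nat_lit 6) (nat_lit 5) (nat_lit 4) (nat_lit 65) r12_4 r0_65 (nat_lit 0) (nat_lit 0) (nat_lit 0) (nat_lit 0x720f3cda24) (nat_lit 6842730960),
  Rx.mk (nat_lit 446) (nat_lit 6) (nat_lit 7) (nat_lit 6) (nat_lit 7) (nat_lit 5) (nat_lit 66) r12_5 r0_66 (nat_lit 0) (nat_lit 0) (nat_lit 0) (nat_lit 0x7df1ba066e) (nat_lit 1009074456)]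
noncomputable def e56_34 : List Rx := [
  Rx.mk (nat_lit 16) (nat_lit 0) (nat_lit 2) (nat_lit 0) (nat_lit 2) (nat_lit 94) (nat_lit 204) r12_94 r0_204 (nat_lit 0) (nat_lit 0) (nat_lit 0) (nat_lit 0x8000000000) (nat_lit 0),
  Rx.mk (nat_lit 19) (nat_lit 3) (nat_lit 2) (nat_lit 0) (nat_lit 3) (nat_lit 100) (nat_lit 205) r12_100 r0_205 (nat_lit 0) (nat_lit 0) (nat_lit 0) (nat_lit 0x769593103a) (nat_lit 4621740552),
  Rx.mk (nat_lit 48) (nat_lit 0) (nat_lit 6) (nat_lit 0) (nat_lit 2) (nat_lit 95) (nat_lit 209) r12_95 r0_209 (nat_lit 0) (nat_lit 0) (nat_lit 0) (nat_lit 0x749db7cfe6) (nat_lit 5587832952),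
  Rx.mk (nat_lit 162) (nat_lit 2) (nat_lit 4) (nat_lit 2) (nat_lit 5) (nat_lit 97) (nat_lit 207) r12_97 r0_207 (nat_lit 0) (nat_lit 0) (nat_lit 0) (nat_lit 0x7b7e747d3a) (nat_lit 2211802632),
  Rx.mk (nat_lit 176) (nat_lit 0) (nat_lit 6) (nat_lit 2) (nat_lit 6) (nat_lit 96) (nat_lit 210) r12_96 r0_210 (nat_lit 0) (nat_lit 0) (nat_lit 0) (nat_lit 0x7d52e9d410) (nat_lit 1313582400),
  Rx.mk (nat_lit 178) (nat_lit 2) (nat_lit 6) (nat_lit 2) (nat_lit 7) (nat_lit 98) (nat_lit 211) r12_98 r0_211 (nat_lit 0) (nat_lit 0) (nat_lit 0) (nat_lit 0x7df6c1d5ec) (nat_lit 999428976),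
  Rx.mk (nat_lit 211) (nat_lit 3) (nat_lit 2) (nat_lit 3) (nat_lit 7) (nat_lit 101) (nat_lit 206) r12_101 r0_206 (nat_lit 0) (nat_lit 0) (nat_lit 0) (nat_lit 0x67426092b6) (nat_lit 12144063672),
  Rx.mk (nat_lit 418) (nat_lit 2) (nat_lit 4) (nat_lit 6) (nat_lit 5) (nat_lit 99) (nat_lit 208) r12_99 r0_208 (nat_lit 0) (nat_lit 0) (nat_lit 0) (nat_lit 0x6c8ed0a668) (nat_lit 9543235104)]
noncomputable def e56_35 : List Rx := [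
  Rx.mk (nat_lit 162) (nat_lit 2) (nat_lit 4) (nat_lit 2) (nat_lit 5) (nat_lit 103) (nat_lit 50) r12_103 r6_50 (nat_lit 0) (nat_lit 0) (nat_lit 0) (nat_lit 0x7d8621e05c) (nat_lit 1215375408),
  Rx.mk (nat_lit 176) (nat_lit 0) (nat_lit 6) (nat_lit 2) (nat_lit 6) (nat_lit 102) (nat_lit 48) r12_102 r6_48 (nat_lit 0) (nat_lit 0) (nat_lit 0) (nat_lit 0x7ecbf921a2) (nat_lit 590609448),
  Rx.mk (nat_lit 178) (nat_lit 2) (nat_lit 6) (nat_lit 2) (nat_lit 7) (nat_lit 104) (nat_lit 51) r12_104 r6_51 (nat_lit 0) (nat_lit 0) (nat_lit 0) (nat_lit 0x7dbc727b1c) (nat_lit 1111232304),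
  Rx.mk (nat_lit 418) (nat_lit 2) (nat_lit 4) (nat_lit 6) (nat_lit 5) (nat_lit 105) (nat_lit 49) r12_105 r6_49 (nat_lit 0) (nat_lit 0) (nat_lit 0) (nat_lit 0x7cd666bcbe) (nat_lit 1552321368)]
noncomputable def e56_36 : List Rx := [
  Rx.mk (nat_lit 17) (nat_lit 1) (nat_lit 2) (nat_lit 0) (nat_lit 3) (nat_lit 258) (nat_lit 238) r12_258 r2_238 (nat_lit 0) (nat_lit 0) (nat_lit 0) (nat_lit 0x7e39f90236) (nat_lit 870550200),
  Rx.mk (nat_lit 49) (nat_lit 1) (nat_lit 6) (nat_lit 0) (nat_lit 3) (nat_lit 259) (nat_lit 239) r12_259 r2_239 (nat_lit 0) (nat_lit 0) (nat_lit 0) (nat_lit 0x7e4fef22be) (nat_lit 828441432),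
  Rx.mk (nat_lit 177) (nat_lit 1) (nat_lit 6) (nat_lit 2) (nat_lit 7) (nat_lit 260) (nat_lit 240) r12_260 r2_240 (nat_lit 0) (nat_lit 0) (nat_lit 0) (nat_lit 0x7e0dc225d0) (nat_lit 955326528)]
noncomputable def e56_37 : List Rx := [
  Rx.mk (nat_lit 177) (nat_lit 1) (nat_lit 6) (nat_lit 2) (nat_lit 7) (nat_lit 266) (nat_lit 215) r12_266 r8_215 (nat_lit 0) (nat_lit 0) (nat_lit 0) (nat_lit 0x7df0bb165e) (nat_lit 1010983896)]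
noncomputable def e56_38 : List Rx := [
  Rx.mk (nat_lit 17) (nat_lit 1) (nat_lit 2) (nat_lit 0) (nat_lit 3) (nat_lit 261) (nat_lit 225) r12_261 r8_225 (nat_lit 0) (nat_lit 0) (nat_lit 0) (nat_lit 0x7cb54cae80) (nat_lit 1615790592),
  Rx.mk (nat_lit 49) (nat_lit 1) (nat_lit 6) (nat_lit 0) (nat_lit 3) (nat_lit 262) (nat_lit 224) r12_262 r8_224 (nat_lit 0) (nat_lit 0) (nat_lit 0) (nat_lit 0x7dae17a0d8) (nat_lit 1138756320),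
  Rx.mk (nat_lit 81) (nat_lit 1) (nat_lit 2) (nat_lit 1) (nat_lit 7) (nat_lit 263) (nat_lit 227) r12_263 r8_227 (nat_lit 0) (nat_lit 0) (nat_lit 0) (nat_lit 0x7dca3abe8a) (nat_lit 1084806216),
  Rx.mk (nat_lit 113) (nat_lit 1) (nat_lit 6) (nat_lit 1) (nat_lit 7) (nat_lit 264) (nat_lit 226) r12_264 r8_226 (nat_lit 0) (nat_lit 0) (nat_lit 0) (nat_lit 0x7de7338ee0) (nat_lit 1029255552),
  Rx.mk (nat_lit 177) (nat_lit 1) (nat_lit 6) (nat_lit 2) (nat_lit 7) (nat_lit 265) (nat_lit 228) r12_265 r8_228 (nat_lit 0) (nat_lit 0) (nat_lit 0) (nat_lit 0x7de986e9a8) (nat_lit 1024796448)]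
noncomputable def e56_39 : List Rx := [
  Rx.mk (nat_lit 16) (nat_lit 0) (nat_lit 2) (nat_lit 0) (nat_lit 2) (nat_lit 106) (nat_lit 225) r12_106 r1_225 (nat_lit 0) (nat_lit 0) (nat_lit 0) (nat_lit 0x8000000000) (nat_lit 0),
  Rx.mk (nat_lit 17) (nat_lit 1) (nat_lit 2) (nat_lit 0) (nat_lit 3) (nat_lit 109) (nat_lit 226) r12_109 r1_226 (nat_lit 0) (nat_lit 0) (nat_lit 0) (nat_lit 0x7eb6a736d6) (nat_lit 631488312),
  Rx.mk (nat_lit 19) (nat_lit 3) (nat_lit 2) (nat_lit 0) (nat_lit 3) (nat_lit 113) (nat_lit 227) r12_113 r1_227 (nat_lit 0) (nat_lit 0) (nat_lit 0) (nat_lit 0x7dc65abc8e) (nat_lit 1092236184),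
  Rx.mk (nat_lit 48) (nat_lit 0) (nat_lit 6) (nat_lit 0) (nat_lit 2) (nat_lit 107) (nat_lit 229) r12_107 r1_229 (nat_lit 0) (nat_lit 0) (nat_lit 0) (nat_lit 0x71c5b3f2fc) (nat_lit 6983726256),
  Rx.mk (nat_lit 49) (nat_lit 1) (nat_lit 6) (nat_lit 0) (nat_lit 3) (nat_lit 110) (nat_lit 230) r12_110 r1_230 (nat_lit 0) (nat_lit 0) (nat_lit 0) (nat_lit 0x7dfcd1f4e4) (nat_lit 987803856),
  Rx.mk (nat_lit 176) (nat_lit 0) (nat_lit 6) (nat_lit 2) (nat_lit 6) (nat_lit 108) (nat_lit 231) r12_108 r1_231 (nat_lit 0) (nat_lit 0) (nat_lit 0) (nat_lit 0x7d8932ef48) (nat_lit 1209495456),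
  Rx.mk (nat_lit 177) (nat_lit 1) (nat_lit 6) (nat_lit 2) (nat_lit 7) (nat_lit 111) (nat_lit 232) r12_111 r1_232 (nat_lit 0) (nat_lit 0) (nat_lit 0) (nat_lit 0x7e706b5ada) (nat_lit 766154376),
  Rx.mk (nat_lit 178) (nat_lit 2) (nat_lit 6) (nat_lit 2) (nat_lit 7) (nat_lit 112) (nat_lit 233) r12_112 r1_233 (nat_lit 0) (nat_lit 0) (nat_lit 0) (nat_lit 0x7dda421e04) (nat_lit 1054072656),
  Rx.mk (nat_lit 211) (nat_lit 3) (nat_lit 2) (nat_lit 3) (nat_lit 7) (nat_lit 114) (nat_lit 228) r12_114 r1_228 (nat_lit 0) (nat_lit 0) (nat_lit 0) (nat_lit 0x7d334cae02) (nat_lit 1374198696)]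
noncomputable def e56_40 : List Rx := [
  Rx.mk (nat_lit 176) (nat_lit 0) (nat_lit 6) (nat_lit 2) (nat_lit 6) (nat_lit 115) (nat_lit 58) r12_115 r7_58 (nat_lit 0) (nat_lit 0) (nat_lit 0) (nat_lit 0x7e3efef1d2) (nat_lit 860918760),
  Rx.mk (nat_lit 177) (nat_lit 1) (nat_lit 6) (nat_lit 2) (nat_lit 7) (nat_lit 116) (nat_lit 59) r12_116 r7_59 (nat_lit 0) (nat_lit 0) (nat_lit 0) (nat_lit 0x7e2750acce) (nat_lit 906324120),
  Rx.mk (nat_lit 178) (nat_lit 2) (nat_lit 6) (nat_lit 2) (nat_lit 7) (nat_lit 117) (nat_lit 60) r12_117 r7_60 (nat_lit 0) (nat_lit 0) (nat_lit 0) (nat_lit 0x7de1ad6748) (nat_lit 1039847328)]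
noncomputable def e56_41 : List Rx := [
  Rx.mk (nat_lit 162) (nat_lit 2) (nat_lit 4) (nat_lit 2) (nat_lit 5) (nat_lit 6) (nat_lit 63) r12_6 r1_63 (nat_lit 0) (nat_lit 0) (nat_lit 0) (nat_lit 0x7a1cc1b9c8) (nat_lit 2889982368),
  Rx.mk (nat_lit 170) (nat_lit 2) (nat_lit 5) (nat_lit 2) (nat_lit 7) (nat_lit 7) (nat_lit 64) r12_7 r1_64 (nat_lit 0) (nat_lit 0) (nat_lit 0) (nat_lit 0x7e3ee0f3b2) (nat_lit 861143400),
  Rx.mk (nat_lit 178) (nat_lit 2) (nat_lit 6) (nat_lit 2) (nat_lit 7) (nat_lit 8) (nat_lit 65) r12_8 r1_65 (nat_lit 0) (nat_lit 0) (nat_lit 0) (nat_lit 0x7c03ca075c) (nat_lit 1956148272),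
  Rx.mk (nat_lit 418) (nat_lit 2) (nat_lit 4) (nat_lit 6) (nat_lit 5) (nat_lit 9) (nat_lit 61) r12_9 r1_61 (nat_lit 0) (nat_lit 0) (nat_lit 0) (nat_lit 0x7a959c4ba6) (nat_lit 2658257784),
  Rx.mk (nat_lit 422) (nat_lit 6) (nat_lit 4) (nat_lit 6) (nat_lit 5) (nat_lit 11) (nat_lit 58) r12_11 r1_58 (nat_lit 0) (nat_lit 0) (nat_lit 0) (nat_lit 0x76758bd0ce) (nat_lit 4683151512),
  Rx.mk (nat_lit 426) (nat_lit 2) (nat_lit 5) (nat_lit 6) (nat_lit 7) (nat_lit 10) (nat_lit 62) r12_10 r1_62 (nat_lit 0) (nat_lit 0) (nat_lit 0) (nat_lit 0x7effe88278) (nat_lit 491029344),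
  Rx.mk (nat_lit 430) (nat_lit 6) (nat_lit 5) (nat_lit 6) (nat_lit 7) (nat_lit 12) (nat_lit 59) r12_12 r1_59 (nat_lit 0) (nat_lit 0) (nat_lit 0) (nat_lit 0x7e4f838978) (nat_lit 829247328),
  Rx.mk (nat_lit 446) (nat_lit 6) (nat_lit 7) (nat_lit 6) (nat_lit 7) (nat_lit 13) (nat_lit 60) r12_13 r1_60 (nat_lit 0) (nat_lit 0) (nat_lit 0) (nat_lit 0x7d35e3e48c) (nat_lit 1369231344)]
noncomputable def e56_42 : List Rx := [
  Rx.mk (nat_lit 426) (nat_lit 2) (nat_lit 5) (nat_lit 6) (nat_lit 7) (nat_lit 14) (nat_lit 58) r12_14 r2_58 (nat_lit 0) (nat_lit 0) (nat_lit 0) (nat_lit 0x7df79428c6) (nat_lit 997853688),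
  Rx.mk (nat_lit 430) (nat_lit 6) (nat_lit 5) (nat_lit 6) (nat_lit 7) (nat_lit 15) (nat_lit 57) r12_15 r2_57 (nat_lit 0) (nat_lit 0) (nat_lit 0) (nat_lit 0x7e3bb246a0) (nat_lit 867245184)]
noncomputable def e56_43 : List Rx := [
  Rx.mk (nat_lit 162) (nat_lit 2) (nat_lit 4) (nat_lit 2) (nat_lit 5) (nat_lit 118) (nat_lit 201) r12_118 r7_201 (nat_lit 0) (nat_lit 0) (nat_lit 0) (nat_lit 0x7cf07bdb52) (nat_lit 1502310888),
  Rx.mk (nat_lit 170) (nat_lit 2) (nat_lit 5) (nat_lit 2) (nat_lit 7) (nat_lit 119) (nat_lit 203) r12_119 r7_203 (nat_lit 0) (nat_lit 0) (nat_lit 0) (nat_lit 0x7deb792a82) (nat_lit 1021064616),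
  Rx.mk (nat_lit 178) (nat_lit 2) (nat_lit 6) (nat_lit 2) (nat_lit 7) (nat_lit 120) (nat_lit 205) r12_120 r7_205 (nat_lit 0) (nat_lit 0) (nat_lit 0) (nat_lit 0x7df2ff7216) (nat_lit 1006637112),
  Rx.mk (nat_lit 418) (nat_lit 2) (nat_lit 4) (nat_lit 6) (nat_lit 5) (nat_lit 121) (nat_lit 202) r12_121 r7_202 (nat_lit 0) (nat_lit 0) (nat_lit 0) (nat_lit 0x7def2a4f6c) (nat_lit 1013985648),
  Rx.mk (nat_lit 426) (nat_lit 2) (nat_lit 5) (nat_lit 6) (nat_lit 7) (nat_lit 122) (nat_lit 204) r12_122 r7_204 (nat_lit 0) (nat_lit 0) (nat_lit 0) (nat_lit 0x7e4966ab4c) (nat_lit 840967920)]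
noncomputable def e56_44 : List Rx := [
  Rx.mk (nat_lit 426) (nat_lit 2) (nat_lit 5) (nat_lit 6) (nat_lit 7) (nat_lit 123) (nat_lit 18) r12_123 r8_18 (nat_lit 0) (nat_lit 0) (nat_lit 0) (nat_lit 0x7ded19507e) (nat_lit 1017947736)]
noncomputable def e56_45 : List Rx := [
  Rx.mk (nat_lit 426) (nat_lit 2) (nat_lit 5) (nat_lit 6) (nat_lit 7) (nat_lit 150) (nat_lit 63) r12_150 r8_63 (nat_lit 0) (nat_lit 0) (nat_lit 0) (nat_lit 0x7df198a884) (nat_lit 1009324368),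
  Rx.mk (nat_lit 430) (nat_lit 6) (nat_lit 5) (nat_lit 6) (nat_lit 7) (nat_lit 151) (nat_lit 64) r12_151 r8_64 (nat_lit 0) (nat_lit 0) (nat_lit 0) (nat_lit 0x7deb738adc) (nat_lit 1021106736)]
noncomputable def e56_46 : List Rx := [
  Rx.mk (nat_lit 162) (nat_lit 2) (nat_lit 4) (nat_lit 2) (nat_lit 5) (nat_lit 28) (nat_lit 63) r12_28 r4_63 (nat_lit 0) (nat_lit 0) (nat_lit 0) (nat_lit 0x7bf02e0130) (nat_lit 1993747392),
  Rx.mk (nat_lit 176) (nat_lit 0) (nat_lit 6) (nat_lit 2) (nat_lit 6) (nat_lit 27) (nat_lit 59) r12_27 r4_59 (nat_lit 0) (nat_lit 0) (nat_lit 0) (nat_lit 0x7e7c8d78ac) (nat_lit 742890096),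
  Rx.mk (nat_lit 178) (nat_lit 2) (nat_lit 6) (nat_lit 2) (nat_lit 7) (nat_lit 29) (nat_lit 64) r12_29 r4_64 (nat_lit 0) (nat_lit 0) (nat_lit 0) (nat_lit 0x7d62493e0a) (nat_lit 1284106824),
  Rx.mk (nat_lit 179) (nat_lit 3) (nat_lit 6) (nat_lit 2) (nat_lit 7) (nat_lit 32) (nat_lit 60) r12_32 r4_60 (nat_lit 0) (nat_lit 0) (nat_lit 0) (nat_lit 0x7edd36edb4) (nat_lit 557550864),
  Rx.mk (nat_lit 418) (nat_lit 2) (nat_lit 4) (nat_lit 6) (nat_lit 5) (nat_lit 30) (nat_lit 61) r12_30 r4_61 (nat_lit 0) (nat_lit 0) (nat_lit 0) (nat_lit 0x7e3684f97a) (nat_lit 877171464),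
  Rx.mk (nat_lit 442) (nat_lit 2) (nat_lit 7) (nat_lit 6) (nat_lit 7) (nat_lit 31) (nat_lit 62) r12_31 r4_62 (nat_lit 0) (nat_lit 0) (nat_lit 0) (nat_lit 0x7eac08c0c8) (nat_lit 651849120),
  Rx.mk (nat_lit 446) (nat_lit 6) (nat_lit 7) (nat_lit 6) (nat_lit 7) (nat_lit 33) (nat_lit 58) r12_33 r4_58 (nat_lit 0) (nat_lit 0) (nat_lit 0) (nat_lit 0x7e581e7fc0) (nat_lit 812747520)]
noncomputable def e56_47 : List Rx := [
  Rx.mk (nat_lit 19) (nat_lit 3) (nat_lit 2) (nat_lit 0) (nat_lit 3) (nat_lit 130) (nat_lit 195) r12_130 r4_195 (nat_lit 0) (nat_lit 0) (nat_lit 0) (nat_lit 0x7bc8cf5742) (nat_lit 2069234856),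
  Rx.mk (nat_lit 48) (nat_lit 0) (nat_lit 6) (nat_lit 0) (nat_lit 2) (nat_lit 124) (nat_lit 200) r12_124 r4_200 (nat_lit 0) (nat_lit 0) (nat_lit 0) (nat_lit 0x6c41dd75e8) (nat_lit 9690778656),
  Rx.mk (nat_lit 51) (nat_lit 3) (nat_lit 6) (nat_lit 0) (nat_lit 3) (nat_lit 131) (nat_lit 201) r12_131 r4_201 (nat_lit 0) (nat_lit 0) (nat_lit 0) (nat_lit 0x7a87b0ca6c) (nat_lit 2684947824),
  Rx.mk (nat_lit 162) (nat_lit 2) (nat_lit 4) (nat_lit 2) (nat_lit 5) (nat_lit 126) (nat_lit 197) r12_126 r4_197 (nat_lit 0) (nat_lit 0) (nat_lit 0) (nat_lit 0x7853b78c34) (nat_lit 3766308624),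
  Rx.mk (nat_lit 176) (nat_lit 0) (nat_lit 6) (nat_lit 2) (nat_lit 6) (nat_lit 125) (nat_lit 202) r12_125 r4_202 (nat_lit 0) (nat_lit 0) (nat_lit 0) (nat_lit 0x7e00441dbe) (nat_lit 981196632),
  Rx.mk (nat_lit 178) (nat_lit 2) (nat_lit 6) (nat_lit 2) (nat_lit 7) (nat_lit 127) (nat_lit 204) r12_127 r4_204 (nat_lit 0) (nat_lit 0) (nat_lit 0) (nat_lit 0x7e302d3efc) (nat_lit 889332912),
  Rx.mk (nat_lit 179) (nat_lit 3) (nat_lit 6) (nat_lit 2) (nat_lit 7) (nat_lit 132) (nat_lit 203) r12_132 r4_203 (nat_lit 0) (nat_lit 0) (nat_lit 0) (nat_lit 0x7e76bad5dc) (nat_lit 754054704),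
  Rx.mk (nat_lit 211) (nat_lit 3) (nat_lit 2) (nat_lit 3) (nat_lit 7) (nat_lit 133) (nat_lit 196) r12_133 r4_196 (nat_lit 0) (nat_lit 0) (nat_lit 0) (nat_lit 0x7dfbbbc648) (nat_lit 989887392),
  Rx.mk (nat_lit 418) (nat_lit 2) (nat_lit 4) (nat_lit 6) (nat_lit 5) (nat_lit 128) (nat_lit 198) r12_128 r4_198 (nat_lit 0) (nat_lit 0) (nat_lit 0) (nat_lit 0x79e6f15704) (nat_lit 2993165136),
  Rx.mk (nat_lit 442) (nat_lit 2) (nat_lit 7) (nat_lit 6) (nat_lit 7) (nat_lit 129) (nat_lit 199) r12_129 r4_199 (nat_lit 0) (nat_lit 0) (nat_lit 0) (nat_lit 0x7e8a3edd88) (nat_lit 716635296)]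
noncomputable def e56_48 : List Rx := [
  Rx.mk (nat_lit 162) (nat_lit 2) (nat_lit 4) (nat_lit 2) (nat_lit 5) (nat_lit 135) (nat_lit 36) r12_135 r9_36 (nat_lit 0) (nat_lit 0) (nat_lit 0) (nat_lit 0x7da88f3964) (nat_lit 1149364944),
  Rx.mk (nat_lit 176) (nat_lit 0) (nat_lit 6) (nat_lit 2) (nat_lit 6) (nat_lit 134) (nat_lit 32) r12_134 r9_32 (nat_lit 0) (nat_lit 0) (nat_lit 0) (nat_lit 0x7e7d860922) (nat_lit 741028392),
  Rx.mk (nat_lit 178) (nat_lit 2) (nat_lit 6) (nat_lit 2) (nat_lit 7) (nat_lit 136) (nat_lit 37) r12_136 r9_37 (nat_lit 0) (nat_lit 0) (nat_lit 0) (nat_lit 0x7db3658bf4) (nat_lit 1128585744),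
  Rx.mk (nat_lit 179) (nat_lit 3) (nat_lit 6) (nat_lit 2) (nat_lit 7) (nat_lit 139) (nat_lit 33) r12_139 r9_33 (nat_lit 0) (nat_lit 0) (nat_lit 0) (nat_lit 0x7e0d9168dc) (nat_lit 955691568),
  Rx.mk (nat_lit 418) (nat_lit 2) (nat_lit 4) (nat_lit 6) (nat_lit 5) (nat_lit 137) (nat_lit 34) r12_137 r9_34 (nat_lit 0) (nat_lit 0) (nat_lit 0) (nat_lit 0x7e68347e50) (nat_lit 781904448),
  Rx.mk (nat_lit 442) (nat_lit 2) (nat_lit 7) (nat_lit 6) (nat_lit 7) (nat_lit 138) (nat_lit 35) r12_138 r9_35 (nat_lit 0) (nat_lit 0) (nat_lit 0) (nat_lit 0x7e84fe7194) (nat_lit 726704784)]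
noncomputable def e56_49 : List Rx := [
  Rx.mk (nat_lit 48) (nat_lit 0) (nat_lit 6) (nat_lit 0) (nat_lit 2) (nat_lit 140) (nat_lit 9) r12_140 r10_9 (nat_lit 0) (nat_lit 0) (nat_lit 0) (nat_lit 0x73e77d9440) (nat_lit 5937235200),
  Rx.mk (nat_lit 51) (nat_lit 3) (nat_lit 6) (nat_lit 0) (nat_lit 3) (nat_lit 146) (nat_lit 11) r12_146 r10_11 (nat_lit 0) (nat_lit 0) (nat_lit 0) (nat_lit 0x7e9f0970ca) (nat_lit 676770120),
  Rx.mk (nat_lit 162) (nat_lit 2) (nat_lit 4) (nat_lit 2) (nat_lit 5) (nat_lit 142) (nat_lit 16) r12_142 r10_16 (nat_lit 0) (nat_lit 0) (nat_lit 0) (nat_lit 0x7d98a2d83a) (nat_lit 1179896328),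
  Rx.mk (nat_lit 176) (nat_lit 0) (nat_lit 6) (nat_lit 2) (nat_lit 6) (nat_lit 141) (nat_lit 10) r12_141 r10_10 (nat_lit 0) (nat_lit 0) (nat_lit 0) (nat_lit 0x7eaac05550) (nat_lit 654308928),
  Rx.mk (nat_lit 178) (nat_lit 2) (nat_lit 6) (nat_lit 2) (nat_lit 7) (nat_lit 143) (nat_lit 18) r12_143 r10_18 (nat_lit 0) (nat_lit 0) (nat_lit 0) (nat_lit 0x7e4d46ad48) (nat_lit 833537952),
  Rx.mk (nat_lit 179) (nat_lit 3) (nat_lit 6) (nat_lit 2) (nat_lit 7) (nat_lit 147) (nat_lit 14) r12_147 r10_14 (nat_lit 0) (nat_lit 0) (nat_lit 0) (nat_lit 0x7ec4817924) (nat_lit 604927440),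
  Rx.mk (nat_lit 186) (nat_lit 2) (nat_lit 7) (nat_lit 2) (nat_lit 7) (nat_lit 144) (nat_lit 17) r12_144 r10_17 (nat_lit 0) (nat_lit 0) (nat_lit 0) (nat_lit 0x7e4ff8222e) (nat_lit 828374040),
  Rx.mk (nat_lit 211) (nat_lit 3) (nat_lit 2) (nat_lit 3) (nat_lit 7) (nat_lit 148) (nat_lit 13) r12_148 r10_13 (nat_lit 0) (nat_lit 0) (nat_lit 0) (nat_lit 0x7e96423d46) (nat_lit 693601272),
  Rx.mk (nat_lit 243) (nat_lit 3) (nat_lit 6) (nat_lit 3) (nat_lit 7) (nat_lit 149) (nat_lit 12) r12_149 r10_12 (nat_lit 0) (nat_lit 0) (nat_lit 0) (nat_lit 0x7e3496186a) (nat_lit 880878024),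
  Rx.mk (nat_lit 442) (nat_lit 2) (nat_lit 7) (nat_lit 6) (nat_lit 7) (nat_lit 145) (nat_lit 15) r12_145 r10_15 (nat_lit 0) (nat_lit 0) (nat_lit 0) (nat_lit 0x7eaff8e1c2) (nat_lit 644298408)]
noncomputable def e56_50 : List Rx := [
  Rx.mk (nat_lit 179) (nat_lit 3) (nat_lit 6) (nat_lit 2) (nat_lit 7) (nat_lit 230) (nat_lit 265) r12_230 r10_265 (nat_lit 0) (nat_lit 0) (nat_lit 0) (nat_lit 0x7ee7b225f6) (nat_lit 537454008)]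
noncomputable def e56_51 : List Rx := [
  Rx.mk (nat_lit 212) (nat_lit 4) (nat_lit 2) (nat_lit 3) (nat_lit 6) (nat_lit 302) (nat_lit 302) r12_302 r12_302 (nat_lit 0) (nat_lit 0) (nat_lit 0) (nat_lit 0x7ea302313a) (nat_lit 669154824),
  Rx.mk (nat_lit 213) (nat_lit 5) (nat_lit 2) (nat_lit 3) (nat_lit 7) (nat_lit 303) (nat_lit 303) r12_303 r12_303 (nat_lit 0) (nat_lit 0) (nat_lit 0) (nat_lit 0x7e78753a34) (nat_lit 750741264)]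
noncomputable def e56_52 : List Rx := [
  Rx.mk (nat_lit 452) (nat_lit 4) (nat_lit 0) (nat_lit 7) (nat_lit 4) (nat_lit 235) (nat_lit 310) r12_235 r12_310 (nat_lit 0) (nat_lit 0) (nat_lit 0) (nat_lit 0x8000000000) (nat_lit 0),
  Rx.mk (nat_lit 454) (nat_lit 6) (nat_lit 0) (nat_lit 7) (nat_lit 5) (nat_lit 238) (nat_lit 311) r12_238 r12_311 (nat_lit 0) (nat_lit 0) (nat_lit 0) (nat_lit 0x7f220180c6) (nat_lit 425650680),
  Rx.mk (nat_lit 460) (nat_lit 4) (nat_lit 1) (nat_lit 7) (nat_lit 6) (nat_lit 236) (nat_lit 312) r12_236 r12_312 (nat_lit 0) (nat_lit 0) (nat_lit 0) (nat_lit 0x7d6cf2f364) (nat_lit 1263661776),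
  Rx.mk (nat_lit 462) (nat_lit 6) (nat_lit 1) (nat_lit 7) (nat_lit 7) (nat_lit 239) (nat_lit 313) r12_239 r12_313 (nat_lit 0) (nat_lit 0) (nat_lit 0) (nat_lit 0x7e9736adfe) (nat_lit 691770456),
  Rx.mk (nat_lit 468) (nat_lit 4) (nat_lit 2) (nat_lit 7) (nat_lit 6) (nat_lit 237) (nat_lit 314) r12_237 r12_314 (nat_lit 0) (nat_lit 0) (nat_lit 0) (nat_lit 0x7f2c8cd806) (nat_lit 405433080)]
noncomputable def e56_53 : List Rx := [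
  Rx.mk (nat_lit 20) (nat_lit 4) (nat_lit 2) (nat_lit 0) (nat_lit 2) (nat_lit 310) (nat_lit 235) r12_310 r12_235 (nat_lit 0) (nat_lit 0) (nat_lit 0) (nat_lit 0x8000000000) (nat_lit 0),
  Rx.mk (nat_lit 21) (nat_lit 5) (nat_lit 2) (nat_lit 0) (nat_lit 3) (nat_lit 312) (nat_lit 236) r12_312 r12_236 (nat_lit 0) (nat_lit 0) (nat_lit 0) (nat_lit 0x7d6cf2f364) (nat_lit 1263661776),
  Rx.mk (nat_lit 23) (nat_lit 7) (nat_lit 2) (nat_lit 0) (nat_lit 3) (nat_lit 314) (nat_lit 237) r12_314 r12_237 (nat_lit 0) (nat_lit 0) (nat_lit 0) (nat_lit 0x7f2c8cd806) (nat_lit 405433080),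
  Rx.mk (nat_lit 212) (nat_lit 4) (nat_lit 2) (nat_lit 3) (nat_lit 6) (nat_lit 311) (nat_lit 238) r12_311 r12_238 (nat_lit 0) (nat_lit 0) (nat_lit 0) (nat_lit 0x7f220180c6) (nat_lit 425650680),
  Rx.mk (nat_lit 213) (nat_lit 5) (nat_lit 2) (nat_lit 3) (nat_lit 7) (nat_lit 313) (nat_lit 239) r12_313 r12_239 (nat_lit 0) (nat_lit 0) (nat_lit 0) (nat_lit 0x7e9736adfe) (nat_lit 691770456)]
noncomputable def e56_54 : List Rx := [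
  Rx.mk (nat_lit 262) (nat_lit 6) (nat_lit 0) (nat_lit 4) (nat_lit 1) (nat_lit 83) (nat_lit 80) r12_83 r12_80 (nat_lit 0) (nat_lit 0) (nat_lit 0) (nat_lit 0x8000000000) (nat_lit 0),
  Rx.mk (nat_lit 270) (nat_lit 6) (nat_lit 1) (nat_lit 4) (nat_lit 3) (nat_lit 84) (nat_lit 81) r12_84 r12_81 (nat_lit 0) (nat_lit 0) (nat_lit 0) (nat_lit 0x7de6a637b6) (nat_lit 1030314168),
  Rx.mk (nat_lit 286) (nat_lit 6) (nat_lit 3) (nat_lit 4) (nat_lit 3) (nat_lit 85) (nat_lit 82) r12_85 r12_82 (nat_lit 0) (nat_lit 0) (nat_lit 0) (nat_lit 0x7f1b4c6c1e) (nat_lit 438511320),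
  Rx.mk (nat_lit 390) (nat_lit 6) (nat_lit 0) (nat_lit 6) (nat_lit 5) (nat_lit 86) (nat_lit 91) r12_86 r12_91 (nat_lit 0) (nat_lit 0) (nat_lit 0) (nat_lit 0x7bc3dc8674) (nat_lit 2078723088),
  Rx.mk (nat_lit 398) (nat_lit 6) (nat_lit 1) (nat_lit 6) (nat_lit 7) (nat_lit 87) (nat_lit 92) r12_87 r12_92 (nat_lit 0) (nat_lit 0) (nat_lit 0) (nat_lit 0x7cd60782b2) (nat_lit 1553034600),
  Rx.mk (nat_lit 414) (nat_lit 6) (nat_lit 3) (nat_lit 6) (nat_lit 7) (nat_lit 88) (nat_lit 93) r12_88 r12_93 (nat_lit 0) (nat_lit 0) (nat_lit 0) (nat_lit 0x7e3d2f8eca) (nat_lit 864389448),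
  Rx.mk (nat_lit 452) (nat_lit 4) (nat_lit 0) (nat_lit 7) (nat_lit 4) (nat_lit 80) (nat_lit 83) r12_80 r12_83 (nat_lit 0) (nat_lit 0) (nat_lit 0) (nat_lit 0x8000000000) (nat_lit 0),
  Rx.mk (nat_lit 454) (nat_lit 6) (nat_lit 0) (nat_lit 7) (nat_lit 5) (nat_lit 89) (nat_lit 89) r12_89 r12_89 (nat_lit 0) (nat_lit 0) (nat_lit 0) (nat_lit 0x7f80b8b4f4) (nat_lit 244043280),
  Rx.mk (nat_lit 455) (nat_lit 7) (nat_lit 0) (nat_lit 7) (nat_lit 5) (nat_lit 91) (nat_lit 86) r12_91 r12_86 (nat_lit 0) (nat_lit 0) (nat_lit 0) (nat_lit 0x7bc3dc8674) (nat_lit 2078723088),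
  Rx.mk (nat_lit 460) (nat_lit 4) (nat_lit 1) (nat_lit 7) (nat_lit 6) (nat_lit 81) (nat_lit 84) r12_81 r12_84 (nat_lit 0) (nat_lit 0) (nat_lit 0) (nat_lit 0x7de6a637b6) (nat_lit 1030314168),
  Rx.mk (nat_lit 462) (nat_lit 6) (nat_lit 1) (nat_lit 7) (nat_lit 7) (nat_lit 90) (nat_lit 90) r12_90 r12_90 (nat_lit 0) (nat_lit 0) (nat_lit 0) (nat_lit 0x7e6d676b1c) (nat_lit 771936048),
  Rx.mk (nat_lit 463) (nat_lit 7) (nat_lit 1) (nat_lit 7) (nat_lit 7) (nat_lit 92) (nat_lit 87) r12_92 r12_87 (nat_lit 0) (nat_lit 0) (nat_lit 0) (nat_lit 0x7cd60782b2) (nat_lit 1553034600),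
  Rx.mk (nat_lit 468) (nat_lit 4) (nat_lit 2) (nat_lit 7) (nat_lit 6) (nat_lit 82) (nat_lit 85) r12_82 r12_85 (nat_lit 0) (nat_lit 0) (nat_lit 0) (nat_lit 0x7f1b4c6c1e) (nat_lit 438511320),
  Rx.mk (nat_lit 471) (nat_lit 7) (nat_lit 2) (nat_lit 7) (nat_lit 7) (nat_lit 93) (nat_lit 88) r12_93 r12_88 (nat_lit 0) (nat_lit 0) (nat_lit 0) (nat_lit 0x7e3d2f8eca) (nat_lit 864389448)]
noncomputable def e56_55 : List Rx := [
  Rx.mk (nat_lit 19) (nat_lit 3) (nat_lit 2) (nat_lit 0) (nat_lit 3) (nat_lit 21) (nat_lit 352) r12_21 r3_352 (nat_lit 0) (nat_lit 0) (nat_lit 0) (nat_lit 0x8000000000) (nat_lit 0),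
  Rx.mk (nat_lit 51) (nat_lit 3) (nat_lit 6) (nat_lit 0) (nat_lit 3) (nat_lit 22) (nat_lit 52) r12_22 r3_52 (nat_lit 0) (nat_lit 0) (nat_lit 0) (nat_lit 0x7735c94c36) (nat_lit 4314550968),
  Rx.mk (nat_lit 162) (nat_lit 2) (nat_lit 4) (nat_lit 2) (nat_lit 5) (nat_lit 17) (nat_lit 57) r12_17 r3_57 (nat_lit 0) (nat_lit 0) (nat_lit 0) (nat_lit 0x7fececd146) (nat_lit 36574200),
  Rx.mk (nat_lit 176) (nat_lit 0) (nat_lit 6) (nat_lit 2) (nat_lit 6) (nat_lit 16) (nat_lit 51) r12_16 r3_51 (nat_lit 0) (nat_lit 0) (nat_lit 0) (nat_lit 0x8000000000) (nat_lit 0),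
  Rx.mk (nat_lit 178) (nat_lit 2) (nat_lit 6) (nat_lit 2) (nat_lit 7) (nat_lit 18) (nat_lit 58) r12_18 r3_58 (nat_lit 0) (nat_lit 0) (nat_lit 0) (nat_lit 0x7d72006288) (nat_lit 1253974176),
  Rx.mk (nat_lit 179) (nat_lit 3) (nat_lit 6) (nat_lit 2) (nat_lit 7) (nat_lit 23) (nat_lit 54) r12_23 r3_54 (nat_lit 0) (nat_lit 0) (nat_lit 0) (nat_lit 0x7fbcc993aa) (nat_lit 128873160),
  Rx.mk (nat_lit 211) (nat_lit 3) (nat_lit 2) (nat_lit 3) (nat_lit 7) (nat_lit 24) (nat_lit 53) r12_24 r3_53 (nat_lit 0) (nat_lit 0) (nat_lit 0) (nat_lit 0x791d0196ca) (nat_lit 3380357448),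
  Rx.mk (nat_lit 215) (nat_lit 7) (nat_lit 2) (nat_lit 3) (nat_lit 7) (nat_lit 26) (nat_lit 49) r12_26 r3_49 (nat_lit 0) (nat_lit 0) (nat_lit 0) (nat_lit 0x7e98a7f6e8) (nat_lit 689004576),
  Rx.mk (nat_lit 418) (nat_lit 2) (nat_lit 4) (nat_lit 6) (nat_lit 5) (nat_lit 19) (nat_lit 55) r12_19 r3_55 (nat_lit 0) (nat_lit 0) (nat_lit 0) (nat_lit 0x7b0082bcd4) (nat_lit 2453287824),
  Rx.mk (nat_lit 442) (nat_lit 2) (nat_lit 7) (nat_lit 6) (nat_lit 7) (nat_lit 20) (nat_lit 56) r12_20 r3_56 (nat_lit 0) (nat_lit 0) (nat_lit 0) (nat_lit 0x7f69370d26) (nat_lit 289114488),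
  Rx.mk (nat_lit 446) (nat_lit 6) (nat_lit 7) (nat_lit 6) (nat_lit 7) (nat_lit 25) (nat_lit 50) r12_25 r3_50 (nat_lit 0) (nat_lit 0) (nat_lit 0) (nat_lit 0x7986b4fb2a) (nat_lit 3177687240)]
noncomputable def e56_56 : List Rx := [
  Rx.mk (nat_lit 51) (nat_lit 3) (nat_lit 6) (nat_lit 0) (nat_lit 3) (nat_lit 39) (nat_lit 44) r12_39 r12_44 (nat_lit 0) (nat_lit 0) (nat_lit 0) (nat_lit 0x7370c2a066) (nat_lit 6164888184),
  Rx.mk (nat_lit 162) (nat_lit 2) (nat_lit 4) (nat_lit 2) (nat_lit 5) (nat_lit 35) (nat_lit 49) r12_35 r12_49 (nat_lit 0) (nat_lit 0) (nat_lit 0) (nat_lit 0x77d2f95898) (nat_lit 4013159904),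
  Rx.mk (nat_lit 176) (nat_lit 0) (nat_lit 6) (nat_lit 2) (nat_lit 6) (nat_lit 34) (nat_lit 43) r12_34 r12_43 (nat_lit 0) (nat_lit 0) (nat_lit 0) (nat_lit 0x8000000000) (nat_lit 0),
  Rx.mk (nat_lit 178) (nat_lit 2) (nat_lit 6) (nat_lit 2) (nat_lit 7) (nat_lit 36) (nat_lit 51) r12_36 r12_51 (nat_lit 0) (nat_lit 0) (nat_lit 0) (nat_lit 0x74dca9608e) (nat_lit 5467145112),
  Rx.mk (nat_lit 179) (nat_lit 3) (nat_lit 6) (nat_lit 2) (nat_lit 7) (nat_lit 40) (nat_lit 47) r12_40 r12_47 (nat_lit 0) (nat_lit 0) (nat_lit 0) (nat_lit 0x7fd4d5f2cc) (nat_lit 82762992),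
  Rx.mk (nat_lit 186) (nat_lit 2) (nat_lit 7) (nat_lit 2) (nat_lit 7) (nat_lit 37) (nat_lit 50) r12_37 r12_50 (nat_lit 0) (nat_lit 0) (nat_lit 0) (nat_lit 0x7e72f2126c) (nat_lit 761310576),
  Rx.mk (nat_lit 211) (nat_lit 3) (nat_lit 2) (nat_lit 3) (nat_lit 7) (nat_lit 41) (nat_lit 46) r12_41 r12_46 (nat_lit 0) (nat_lit 0) (nat_lit 0) (nat_lit 0x703c5c69fe) (nat_lit 7737918552),
  Rx.mk (nat_lit 215) (nat_lit 7) (nat_lit 2) (nat_lit 3) (nat_lit 7) (nat_lit 48) (nat_lit 38) r12_48 r12_38 (nat_lit 0) (nat_lit 0) (nat_lit 0) (nat_lit 0x7769843054) (nat_lit 4215363984),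
  Rx.mk (nat_lit 243) (nat_lit 3) (nat_lit 6) (nat_lit 3) (nat_lit 7) (nat_lit 42) (nat_lit 45) r12_42 r12_45 (nat_lit 0) (nat_lit 0) (nat_lit 0) (nat_lit 0x7ebad653e0) (nat_lit 623465856),
  Rx.mk (nat_lit 286) (nat_lit 6) (nat_lit 3) (nat_lit 4) (nat_lit 3) (nat_lit 44) (nat_lit 39) r12_44 r12_39 (nat_lit 0) (nat_lit 0) (nat_lit 0) (nat_lit 0x7370c2a066) (nat_lit 6164888184),
  Rx.mk (nat_lit 414) (nat_lit 6) (nat_lit 3) (nat_lit 6) (nat_lit 7) (nat_lit 45) (nat_lit 42) r12_45 r12_42 (nat_lit 0) (nat_lit 0) (nat_lit 0) (nat_lit 0x7ebad653e0) (nat_lit 623465856),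
  Rx.mk (nat_lit 442) (nat_lit 2) (nat_lit 7) (nat_lit 6) (nat_lit 7) (nat_lit 38) (nat_lit 48) r12_38 r12_48 (nat_lit 0) (nat_lit 0) (nat_lit 0) (nat_lit 0x7769843054) (nat_lit 4215363984),
  Rx.mk (nat_lit 446) (nat_lit 6) (nat_lit 7) (nat_lit 6) (nat_lit 7) (nat_lit 46) (nat_lit 41) r12_46 r12_41 (nat_lit 0) (nat_lit 0) (nat_lit 0) (nat_lit 0x703c5c69fe) (nat_lit 7737918552),
  Rx.mk (nat_lit 455) (nat_lit 7) (nat_lit 0) (nat_lit 7) (nat_lit 5) (nat_lit 49) (nat_lit 35) r12_49 r12_35 (nat_lit 0) (nat_lit 0) (nat_lit 0) (nat_lit 0x77d2f95898) (nat_lit 4013159904),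
  Rx.mk (nat_lit 471) (nat_lit 7) (nat_lit 2) (nat_lit 7) (nat_lit 7) (nat_lit 50) (nat_lit 37) r12_50 r12_37 (nat_lit 0) (nat_lit 0) (nat_lit 0) (nat_lit 0x7e72f2126c) (nat_lit 761310576),
  Rx.mk (nat_lit 476) (nat_lit 4) (nat_lit 3) (nat_lit 7) (nat_lit 6) (nat_lit 43) (nat_lit 34) r12_43 r12_34 (nat_lit 0) (nat_lit 0) (nat_lit 0) (nat_lit 0x8000000000) (nat_lit 0),
  Rx.mk (nat_lit 478) (nat_lit 6) (nat_lit 3) (nat_lit 7) (nat_lit 7) (nat_lit 47) (nat_lit 40) r12_47 r12_40 (nat_lit 0) (nat_lit 0) (nat_lit 0) (nat_lit 0x7fd4d5f2cc) (nat_lit 82762992),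
  Rx.mk (nat_lit 479) (nat_lit 7) (nat_lit 3) (nat_lit 7) (nat_lit 7) (nat_lit 51) (nat_lit 36) r12_51 r12_36 (nat_lit 0) (nat_lit 0) (nat_lit 0) (nat_lit 0x74dca9608e) (nat_lit 5467145112)]
noncomputable def e56_57 : List Rx := [
  Rx.mk (nat_lit 19) (nat_lit 3) (nat_lit 2) (nat_lit 0) (nat_lit 3) (nat_lit 225) (nat_lit 225) r12_225 r12_225 (nat_lit 0) (nat_lit 0) (nat_lit 0) (nat_lit 0x8000000000) (nat_lit 0),
  Rx.mk (nat_lit 23) (nat_lit 7) (nat_lit 2) (nat_lit 0) (nat_lit 3) (nat_lit 228) (nat_lit 226) r12_228 r12_226 (nat_lit 0) (nat_lit 0) (nat_lit 0) (nat_lit 0x7ccfdde552) (nat_lit 1564850664),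
  Rx.mk (nat_lit 51) (nat_lit 3) (nat_lit 6) (nat_lit 0) (nat_lit 3) (nat_lit 226) (nat_lit 228) r12_226 r12_228 (nat_lit 0) (nat_lit 0) (nat_lit 0) (nat_lit 0x7ccfdde552) (nat_lit 1564850664),
  Rx.mk (nat_lit 179) (nat_lit 3) (nat_lit 6) (nat_lit 2) (nat_lit 7) (nat_lit 227) (nat_lit 229) r12_227 r12_229 (nat_lit 0) (nat_lit 0) (nat_lit 0) (nat_lit 0x7eb01cdf82) (nat_lit 644028840),
  Rx.mk (nat_lit 215) (nat_lit 7) (nat_lit 2) (nat_lit 3) (nat_lit 7) (nat_lit 229) (nat_lit 227) r12_229 r12_227 (nat_lit 0) (nat_lit 0) (nat_lit 0) (nat_lit 0x7eb01cdf82) (nat_lit 644028840)]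
noncomputable def e56 : List (List Rx) := [e56_0, e56_1, e56_2, e56_3, e56_4, e56_5, e56_6, e56_7, e56_8, e56_9, e56_10, e56_11, e56_12, e56_13, e56_14, e56_15, e56_16, e56_17, e56_18, e56_19, e56_20, e56_21, e56_22, e56_23, e56_24, e56_25, e56_26, e56_27, e56_28, e56_29, e56_30, e56_31, e56_32, e56_33, e56_34, e56_35, e56_36, e56_37, e56_38, e56_39, e56_40, e56_41, e56_42, e56_43, e56_44, e56_45, e56_46, e56_47, e56_48, e56_49, e56_50, e56_51, e56_52, e56_53, e56_54, e56_55, e56_56, e56_57]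
noncomputable def e57_0 : List Rx := [
  Rx.mk (nat_lit 4) (nat_lit 4) (nat_lit 0) (nat_lit 0) (nat_lit 0) (nat_lit 152) (nat_lit 329) r12_152 r0_329 (nat_lit 0) (nat_lit 0) (nat_lit 0) (nat_lit 0x8000000000) (nat_lit 0),
  Rx.mk (nat_lit 5) (nat_lit 5) (nat_lit 0) (nat_lit 0) (nat_lit 1) (nat_lit 153) (nat_lit 334) r12_153 r0_334 (nat_lit 0) (nat_lit 0) (nat_lit 0) (nat_lit 0x7328f59d7e) (nat_lit 6302558808),
  Rx.mk (nat_lit 6) (nat_lit 6) (nat_lit 0) (nat_lit 0) (nat_lit 1) (nat_lit 154) (nat_lit 339) r12_154 r0_339 (nat_lit 0) (nat_lit 0) (nat_lit 0) (nat_lit 0x8000000000) (nat_lit 0),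
  Rx.mk (nat_lit 20) (nat_lit 4) (nat_lit 2) (nat_lit 0) (nat_lit 2) (nat_lit 158) (nat_lit 331) r12_158 r0_331 (nat_lit 0) (nat_lit 0) (nat_lit 0) (nat_lit 0x6fbb66b9da) (nat_lit 7985185416),
  Rx.mk (nat_lit 21) (nat_lit 5) (nat_lit 2) (nat_lit 0) (nat_lit 3) (nat_lit 159) (nat_lit 336) r12_159 r0_336 (nat_lit 0) (nat_lit 0) (nat_lit 0) (nat_lit 0x7a9bd7e7e6) (nat_lit 2646306936),
  Rx.mk (nat_lit 68) (nat_lit 4) (nat_lit 0) (nat_lit 1) (nat_lit 4) (nat_lit 155) (nat_lit 330) r12_155 r0_330 (nat_lit 0) (nat_lit 0) (nat_lit 0) (nat_lit 0x7542556568) (nat_lit 5272199712),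
  Rx.mk (nat_lit 69) (nat_lit 5) (nat_lit 0) (nat_lit 1) (nat_lit 5) (nat_lit 156) (nat_lit 335) r12_156 r0_335 (nat_lit 0) (nat_lit 0) (nat_lit 0) (nat_lit 0x7e0833bebc) (nat_lit 965980080),
  Rx.mk (nat_lit 70) (nat_lit 6) (nat_lit 0) (nat_lit 1) (nat_lit 5) (nat_lit 157) (nat_lit 340) r12_157 r0_340 (nat_lit 0) (nat_lit 0) (nat_lit 0) (nat_lit 0x7b4610a3b0) (nat_lit 2319924672),
  Rx.mk (nat_lit 84) (nat_lit 4) (nat_lit 2) (nat_lit 1) (nat_lit 6) (nat_lit 160) (nat_lit 332) r12_160 r0_332 (nat_lit 0) (nat_lit 0) (nat_lit 0) (nat_lit 0x7dd134cee2) (nat_lit 1071428904),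
  Rx.mk (nat_lit 85) (nat_lit 5) (nat_lit 2) (nat_lit 1) (nat_lit 7) (nat_lit 161) (nat_lit 337) r12_161 r0_337 (nat_lit 0) (nat_lit 0) (nat_lit 0) (nat_lit 0x7e78339e4e) (nat_lit 751232664),
  Rx.mk (nat_lit 148) (nat_lit 4) (nat_lit 2) (nat_lit 2) (nat_lit 6) (nat_lit 162) (nat_lit 333) r12_162 r0_333 (nat_lit 0) (nat_lit 0) (nat_lit 0) (nat_lit 0x7ac0cd7868) (nat_lit 2575441440),
  Rx.mk (nat_lit 149) (nat_lit 5) (nat_lit 2) (nat_lit 2) (nat_lit 7) (nat_lit 163) (nat_lit 338) r12_163 r0_338 (nat_lit 0) (nat_lit 0) (nat_lit 0) (nat_lit 0x7e24231faa) (nat_lit 912417480)]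
noncomputable def e57_1 : List Rx := [
  Rx.mk (nat_lit 68) (nat_lit 4) (nat_lit 0) (nat_lit 1) (nat_lit 4) (nat_lit 164) (nat_lit 310) r12_164 r1_310 (nat_lit 0) (nat_lit 0) (nat_lit 0) (nat_lit 0x776b6e91ac) (nat_lit 4211691120),
  Rx.mk (nat_lit 69) (nat_lit 5) (nat_lit 0) (nat_lit 1) (nat_lit 5) (nat_lit 165) (nat_lit 312) r12_165 r1_312 (nat_lit 0) (nat_lit 0) (nat_lit 0) (nat_lit 0x7da1e863d8) (nat_lit 1162118880),
  Rx.mk (nat_lit 70) (nat_lit 6) (nat_lit 0) (nat_lit 1) (nat_lit 5) (nat_lit 166) (nat_lit 314) r12_166 r1_314 (nat_lit 0) (nat_lit 0) (nat_lit 0) (nat_lit 0x7decb6b6a8) (nat_lit 1018686240),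
  Rx.mk (nat_lit 84) (nat_lit 4) (nat_lit 2) (nat_lit 1) (nat_lit 6) (nat_lit 167) (nat_lit 311) r12_167 r1_311 (nat_lit 0) (nat_lit 0) (nat_lit 0) (nat_lit 0x7e69f1827e) (nat_lit 778571352),
  Rx.mk (nat_lit 85) (nat_lit 5) (nat_lit 2) (nat_lit 1) (nat_lit 7) (nat_lit 168) (nat_lit 313) r12_168 r1_313 (nat_lit 0) (nat_lit 0) (nat_lit 0) (nat_lit 0x7db533cf0e) (nat_lit 1125123480)]
noncomputable def e57_2 : List Rx := [
  Rx.mk (nat_lit 68) (nat_lit 4) (nat_lit 0) (nat_lit 1) (nat_lit 4) (nat_lit 276) (nat_lit 360) r12_276 r2_360 (nat_lit 0) (nat_lit 0) (nat_lit 0) (nat_lit 0x666f99dff4) (nat_lit 12548205072),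
  Rx.mk (nat_lit 69) (nat_lit 5) (nat_lit 0) (nat_lit 1) (nat_lit 5) (nat_lit 277) (nat_lit 363) r12_277 r2_363 (nat_lit 0) (nat_lit 0) (nat_lit 0) (nat_lit 0x7d42e99424) (nat_lit 1344262608),
  Rx.mk (nat_lit 70) (nat_lit 6) (nat_lit 0) (nat_lit 1) (nat_lit 5) (nat_lit 278) (nat_lit 366) r12_278 r2_366 (nat_lit 0) (nat_lit 0) (nat_lit 0) (nat_lit 0x7cf9c166f0) (nat_lit 1484533440),
  Rx.mk (nat_lit 76) (nat_lit 4) (nat_lit 1) (nat_lit 1) (nat_lit 6) (nat_lit 280) (nat_lit 361) r12_280 r2_361 (nat_lit 0) (nat_lit 0) (nat_lit 0) (nat_lit 0x749ef5bc06) (nat_lit 5585451768),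
  Rx.mk (nat_lit 77) (nat_lit 5) (nat_lit 1) (nat_lit 1) (nat_lit 7) (nat_lit 281) (nat_lit 364) r12_281 r2_364 (nat_lit 0) (nat_lit 0) (nat_lit 0) (nat_lit 0x7ddceeb338) (nat_lit 1048945248),
  Rx.mk (nat_lit 78) (nat_lit 6) (nat_lit 1) (nat_lit 1) (nat_lit 7) (nat_lit 282) (nat_lit 368) r12_282 r2_368 (nat_lit 0) (nat_lit 0) (nat_lit 0) (nat_lit 0x7df79428c6) (nat_lit 997853688),
  Rx.mk (nat_lit 84) (nat_lit 4) (nat_lit 2) (nat_lit 1) (nat_lit 6) (nat_lit 283) (nat_lit 362) r12_283 r2_362 (nat_lit 0) (nat_lit 0) (nat_lit 0) (nat_lit 0x7dc98549e2) (nat_lit 1086165288),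
  Rx.mk (nat_lit 85) (nat_lit 5) (nat_lit 2) (nat_lit 1) (nat_lit 7) (nat_lit 284) (nat_lit 365) r12_284 r2_365 (nat_lit 0) (nat_lit 0) (nat_lit 0) (nat_lit 0x7deb366eae) (nat_lit 1021564440),
  Rx.mk (nat_lit 326) (nat_lit 6) (nat_lit 0) (nat_lit 5) (nat_lit 5) (nat_lit 275) (nat_lit 367) r12_275 r2_367 (nat_lit 0) (nat_lit 0) (nat_lit 0) (nat_lit 0x7ddc2f1f32) (nat_lit 1050380136),
  Rx.mk (nat_lit 334) (nat_lit 6) (nat_lit 1) (nat_lit 5) (nat_lit 7) (nat_lit 279) (nat_lit 369) r12_279 r2_369 (nat_lit 0) (nat_lit 0) (nat_lit 0) (nat_lit 0x7de974eac8) (nat_lit 1024931232)]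
noncomputable def e57_3 : List Rx := [
  Rx.mk (nat_lit 20) (nat_lit 4) (nat_lit 2) (nat_lit 0) (nat_lit 2) (nat_lit 55) (nat_lit 325) r12_55 r3_325 (nat_lit 0) (nat_lit 0) (nat_lit 0) (nat_lit 0x8000000000) (nat_lit 0),
  Rx.mk (nat_lit 21) (nat_lit 5) (nat_lit 2) (nat_lit 0) (nat_lit 3) (nat_lit 56) (nat_lit 329) r12_56 r3_329 (nat_lit 0) (nat_lit 0) (nat_lit 0) (nat_lit 0x78dfe268fa) (nat_lit 3497552136),
  Rx.mk (nat_lit 148) (nat_lit 4) (nat_lit 2) (nat_lit 2) (nat_lit 6) (nat_lit 57) (nat_lit 327) r12_57 r3_327 (nat_lit 0) (nat_lit 0) (nat_lit 0) (nat_lit 0x7d4a01a29c) (nat_lit 1330660656),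
  Rx.mk (nat_lit 149) (nat_lit 5) (nat_lit 2) (nat_lit 2) (nat_lit 7) (nat_lit 58) (nat_lit 331) r12_58 r3_331 (nat_lit 0) (nat_lit 0) (nat_lit 0) (nat_lit 0x7b9901944e) (nat_lit 2160893592),
  Rx.mk (nat_lit 196) (nat_lit 4) (nat_lit 0) (nat_lit 3) (nat_lit 4) (nat_lit 52) (nat_lit 359) r12_52 r3_359 (nat_lit 0) (nat_lit 0) (nat_lit 0) (nat_lit 0x8000000000) (nat_lit 0),
  Rx.mk (nat_lit 197) (nat_lit 5) (nat_lit 0) (nat_lit 3) (nat_lit 5) (nat_lit 53) (nat_lit 328) r12_53 r3_328 (nat_lit 0) (nat_lit 0) (nat_lit 0) (nat_lit 0x7eb04a3cac) (nat_lit 643689072),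
  Rx.mk (nat_lit 198) (nat_lit 6) (nat_lit 0) (nat_lit 3) (nat_lit 5) (nat_lit 54) (nat_lit 332) r12_54 r3_332 (nat_lit 0) (nat_lit 0) (nat_lit 0) (nat_lit 0x7fc30d0f6c) (nat_lit 116863344),
  Rx.mk (nat_lit 212) (nat_lit 4) (nat_lit 2) (nat_lit 3) (nat_lit 6) (nat_lit 59) (nat_lit 326) r12_59 r3_326 (nat_lit 0) (nat_lit 0) (nat_lit 0) (nat_lit 0x7fe86cb94c) (nat_lit 45203184),
  Rx.mk (nat_lit 213) (nat_lit 5) (nat_lit 2) (nat_lit 3) (nat_lit 7) (nat_lit 60) (nat_lit 330) r12_60 r3_330 (nat_lit 0) (nat_lit 0) (nat_lit 0) (nat_lit 0x7f5a643a62) (nat_lit 317537064)]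
noncomputable def e57_4 : List Rx := [
  Rx.mk (nat_lit 4) (nat_lit 4) (nat_lit 0) (nat_lit 0) (nat_lit 0) (nat_lit 169) (nat_lit 366) r12_169 r4_366 (nat_lit 0) (nat_lit 0) (nat_lit 0) (nat_lit 0x656168c414) (nat_lit 13066269840),
  Rx.mk (nat_lit 5) (nat_lit 5) (nat_lit 0) (nat_lit 0) (nat_lit 1) (nat_lit 170) (nat_lit 373) r12_170 r4_373 (nat_lit 0) (nat_lit 0) (nat_lit 0) (nat_lit 0x7171c2f260) (nat_lit 7144675200),
  Rx.mk (nat_lit 6) (nat_lit 6) (nat_lit 0) (nat_lit 0) (nat_lit 1) (nat_lit 171) (nat_lit 378) r12_171 r4_378 (nat_lit 0) (nat_lit 0) (nat_lit 0) (nat_lit 0x6e2f0d2100) (nat_lit 8745145344),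
  Rx.mk (nat_lit 20) (nat_lit 4) (nat_lit 2) (nat_lit 0) (nat_lit 2) (nat_lit 177) (nat_lit 369) r12_177 r4_369 (nat_lit 0) (nat_lit 0) (nat_lit 0) (nat_lit 0x6fa2424c3a) (nat_lit 8033393160),
  Rx.mk (nat_lit 21) (nat_lit 5) (nat_lit 2) (nat_lit 0) (nat_lit 3) (nat_lit 178) (nat_lit 375) r12_178 r4_375 (nat_lit 0) (nat_lit 0) (nat_lit 0) (nat_lit 0x7dd9dfe428) (nat_lit 1054808352),
  Rx.mk (nat_lit 68) (nat_lit 4) (nat_lit 0) (nat_lit 1) (nat_lit 4) (nat_lit 172) (nat_lit 367) r12_172 r4_367 (nat_lit 0) (nat_lit 0) (nat_lit 0) (nat_lit 0x70f7fe6f22) (nat_lit 7378151976),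
  Rx.mk (nat_lit 70) (nat_lit 6) (nat_lit 0) (nat_lit 1) (nat_lit 5) (nat_lit 173) (nat_lit 379) r12_173 r4_379 (nat_lit 0) (nat_lit 0) (nat_lit 0) (nat_lit 0x7dad2f8f5a) (nat_lit 1140494472),
  Rx.mk (nat_lit 84) (nat_lit 4) (nat_lit 2) (nat_lit 1) (nat_lit 6) (nat_lit 179) (nat_lit 370) r12_179 r4_370 (nat_lit 0) (nat_lit 0) (nat_lit 0) (nat_lit 0x7e34af96d2) (nat_lit 880687080),
  Rx.mk (nat_lit 148) (nat_lit 4) (nat_lit 2) (nat_lit 2) (nat_lit 6) (nat_lit 180) (nat_lit 372) r12_180 r4_372 (nat_lit 0) (nat_lit 0) (nat_lit 0) (nat_lit 0x7d88ecd3aa) (nat_lit 1210020552),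
  Rx.mk (nat_lit 149) (nat_lit 5) (nat_lit 2) (nat_lit 2) (nat_lit 7) (nat_lit 181) (nat_lit 377) r12_181 r4_377 (nat_lit 0) (nat_lit 0) (nat_lit 0) (nat_lit 0x7e0fdfe3f2) (nat_lit 951268968),
  Rx.mk (nat_lit 196) (nat_lit 4) (nat_lit 0) (nat_lit 3) (nat_lit 4) (nat_lit 174) (nat_lit 368) r12_174 r4_368 (nat_lit 0) (nat_lit 0) (nat_lit 0) (nat_lit 0x754ac05eb0) (nat_lit 5256059328),
  Rx.mk (nat_lit 197) (nat_lit 5) (nat_lit 0) (nat_lit 3) (nat_lit 5) (nat_lit 175) (nat_lit 374) r12_175 r4_374 (nat_lit 0) (nat_lit 0) (nat_lit 0) (nat_lit 0x7d15e364b4) (nat_lit 1430591760),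
  Rx.mk (nat_lit 198) (nat_lit 6) (nat_lit 0) (nat_lit 3) (nat_lit 5) (nat_lit 176) (nat_lit 380) r12_176 r4_380 (nat_lit 0) (nat_lit 0) (nat_lit 0) (nat_lit 0x7e2ee053cc) (nat_lit 891826416),
  Rx.mk (nat_lit 212) (nat_lit 4) (nat_lit 2) (nat_lit 3) (nat_lit 6) (nat_lit 182) (nat_lit 371) r12_182 r4_371 (nat_lit 0) (nat_lit 0) (nat_lit 0) (nat_lit 0x7e20a9174e) (nat_lit 919083672),
  Rx.mk (nat_lit 213) (nat_lit 5) (nat_lit 2) (nat_lit 3) (nat_lit 7) (nat_lit 183) (nat_lit 376) r12_183 r4_376 (nat_lit 0) (nat_lit 0) (nat_lit 0) (nat_lit 0x7e4606e14c) (nat_lit 847437552)]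
noncomputable def e57_5 : List Rx := [
  Rx.mk (nat_lit 262) (nat_lit 6) (nat_lit 0) (nat_lit 4) (nat_lit 1) (nat_lit 323) (nat_lit 358) r12_323 r3_358 (nat_lit 0) (nat_lit 0) (nat_lit 0) (nat_lit 0x8000000000) (nat_lit 0),
  Rx.mk (nat_lit 270) (nat_lit 6) (nat_lit 1) (nat_lit 4) (nat_lit 3) (nat_lit 294) (nat_lit 312) r12_294 r3_312 (nat_lit 0) (nat_lit 0) (nat_lit 0) (nat_lit 0x794234437a) (nat_lit 3309034248),
  Rx.mk (nat_lit 454) (nat_lit 6) (nat_lit 0) (nat_lit 7) (nat_lit 5) (nat_lit 293) (nat_lit 311) r12_293 r3_311 (nat_lit 0) (nat_lit 0) (nat_lit 0) (nat_lit 0x7fb77b4894) (nat_lit 139046544),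
  Rx.mk (nat_lit 462) (nat_lit 6) (nat_lit 1) (nat_lit 7) (nat_lit 7) (nat_lit 295) (nat_lit 313) r12_295 r3_313 (nat_lit 0) (nat_lit 0) (nat_lit 0) (nat_lit 0x7f2d71e9b4) (nat_lit 403717392)]
noncomputable def e57_6 : List Rx := [
  Rx.mk (nat_lit 270) (nat_lit 6) (nat_lit 1) (nat_lit 4) (nat_lit 3) (nat_lit 253) (nat_lit 315) r12_253 r0_315 (nat_lit 0) (nat_lit 0) (nat_lit 0) (nat_lit 0x7ac9315222) (nat_lit 2559354408),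
  Rx.mk (nat_lit 326) (nat_lit 6) (nat_lit 0) (nat_lit 5) (nat_lit 5) (nat_lit 252) (nat_lit 314) r12_252 r0_314 (nat_lit 0) (nat_lit 0) (nat_lit 0) (nat_lit 0x7c8c873b00) (nat_lit 1693965312),
  Rx.mk (nat_lit 334) (nat_lit 6) (nat_lit 1) (nat_lit 5) (nat_lit 7) (nat_lit 254) (nat_lit 316) r12_254 r0_316 (nat_lit 0) (nat_lit 0) (nat_lit 0) (nat_lit 0x7ef9c72494) (nat_lit 502783632)]
noncomputable def e57_7 : List Rx := [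
  Rx.mk (nat_lit 326) (nat_lit 6) (nat_lit 0) (nat_lit 5) (nat_lit 5) (nat_lit 273) (nat_lit 302) r12_273 r1_302 (nat_lit 0) (nat_lit 0) (nat_lit 0) (nat_lit 0x7e59f0e298) (nat_lit 809254368),
  Rx.mk (nat_lit 334) (nat_lit 6) (nat_lit 1) (nat_lit 5) (nat_lit 7) (nat_lit 274) (nat_lit 303) r12_274 r1_303 (nat_lit 0) (nat_lit 0) (nat_lit 0) (nat_lit 0x7d5c1b80ec) (nat_lit 1295953776)]
noncomputable def e57_8 : List Rx := [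
  Rx.mk (nat_lit 262) (nat_lit 6) (nat_lit 0) (nat_lit 4) (nat_lit 1) (nat_lit 296) (nat_lit 343) r12_296 r4_343 (nat_lit 0) (nat_lit 0) (nat_lit 0) (nat_lit 0x752fda0d30) (nat_lit 5307636672),
  Rx.mk (nat_lit 270) (nat_lit 6) (nat_lit 1) (nat_lit 4) (nat_lit 3) (nat_lit 299) (nat_lit 346) r12_299 r4_346 (nat_lit 0) (nat_lit 0) (nat_lit 0) (nat_lit 0x79f1f206ee) (nat_lit 2972068632),
  Rx.mk (nat_lit 326) (nat_lit 6) (nat_lit 0) (nat_lit 5) (nat_lit 5) (nat_lit 297) (nat_lit 344) r12_297 r4_344 (nat_lit 0) (nat_lit 0) (nat_lit 0) (nat_lit 0x7defaae762) (nat_lit 1013022504),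
  Rx.mk (nat_lit 334) (nat_lit 6) (nat_lit 1) (nat_lit 5) (nat_lit 7) (nat_lit 300) (nat_lit 347) r12_300 r4_347 (nat_lit 0) (nat_lit 0) (nat_lit 0) (nat_lit 0x7e5fb6663a) (nat_lit 798188040),
  Rx.mk (nat_lit 454) (nat_lit 6) (nat_lit 0) (nat_lit 7) (nat_lit 5) (nat_lit 298) (nat_lit 345) r12_298 r4_345 (nat_lit 0) (nat_lit 0) (nat_lit 0) (nat_lit 0x7ddf492d8e) (nat_lit 1044432792),
  Rx.mk (nat_lit 462) (nat_lit 6) (nat_lit 1) (nat_lit 7) (nat_lit 7) (nat_lit 301) (nat_lit 348) r12_301 r4_348 (nat_lit 0) (nat_lit 0) (nat_lit 0) (nat_lit 0x7e24ff91e2) (nat_lit 910766376)]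
noncomputable def e57_9 : List Rx := [
  Rx.mk (nat_lit 196) (nat_lit 4) (nat_lit 0) (nat_lit 3) (nat_lit 4) (nat_lit 232) (nat_lit 363) r12_232 r5_363 (nat_lit 0) (nat_lit 0) (nat_lit 0) (nat_lit 0x7b7d41d066) (nat_lit 2214099576),
  Rx.mk (nat_lit 198) (nat_lit 6) (nat_lit 0) (nat_lit 3) (nat_lit 5) (nat_lit 233) (nat_lit 365) r12_233 r5_365 (nat_lit 0) (nat_lit 0) (nat_lit 0) (nat_lit 0x7f189437a4) (nat_lit 443725776),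
  Rx.mk (nat_lit 212) (nat_lit 4) (nat_lit 2) (nat_lit 3) (nat_lit 6) (nat_lit 234) (nat_lit 364) r12_234 r5_364 (nat_lit 0) (nat_lit 0) (nat_lit 0) (nat_lit 0x7dd76d0b58) (nat_lit 1059503328),
  Rx.mk (nat_lit 454) (nat_lit 6) (nat_lit 0) (nat_lit 7) (nat_lit 5) (nat_lit 231) (nat_lit 366) r12_231 r5_366 (nat_lit 0) (nat_lit 0) (nat_lit 0) (nat_lit 0x7fe0d652ba) (nat_lit 59751432)]
noncomputable def e57_10 : List Rx := [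
  Rx.mk (nat_lit 21) (nat_lit 5) (nat_lit 2) (nat_lit 0) (nat_lit 3) (nat_lit 61) (nat_lit 89) r12_61 r0_89 (nat_lit 0) (nat_lit 0) (nat_lit 0) (nat_lit 0x75d5ae0f4a) (nat_lit 4989678408),
  Rx.mk (nat_lit 149) (nat_lit 5) (nat_lit 2) (nat_lit 2) (nat_lit 7) (nat_lit 62) (nat_lit 90) r12_62 r0_90 (nat_lit 0) (nat_lit 0) (nat_lit 0) (nat_lit 0x7ec6f5d1dc) (nat_lit 600221232)]
noncomputable def e57_11 : List Rx := [
  Rx.mk (nat_lit 5) (nat_lit 5) (nat_lit 0) (nat_lit 0) (nat_lit 1) (nat_lit 184) (nat_lit 444) r12_184 r6_444 (nat_lit 0) (nat_lit 0) (nat_lit 0) (nat_lit 0x6f2aece208) (nat_lit 8262203040),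
  Rx.mk (nat_lit 21) (nat_lit 5) (nat_lit 2) (nat_lit 0) (nat_lit 3) (nat_lit 186) (nat_lit 446) r12_186 r6_446 (nat_lit 0) (nat_lit 0) (nat_lit 0) (nat_lit 0x7e3ff4227e) (nat_lit 859082328),
  Rx.mk (nat_lit 69) (nat_lit 5) (nat_lit 0) (nat_lit 1) (nat_lit 5) (nat_lit 185) (nat_lit 445) r12_185 r6_445 (nat_lit 0) (nat_lit 0) (nat_lit 0) (nat_lit 0x7dece293ea) (nat_lit 1018357704),
  Rx.mk (nat_lit 85) (nat_lit 5) (nat_lit 2) (nat_lit 1) (nat_lit 7) (nat_lit 187) (nat_lit 447) r12_187 r6_447 (nat_lit 0) (nat_lit 0) (nat_lit 0) (nat_lit 0x7e49bf85be) (nat_lit 840302424),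
  Rx.mk (nat_lit 149) (nat_lit 5) (nat_lit 2) (nat_lit 2) (nat_lit 7) (nat_lit 188) (nat_lit 448) r12_188 r6_448 (nat_lit 0) (nat_lit 0) (nat_lit 0) (nat_lit 0x7dfaf092fc) (nat_lit 991409328)]
noncomputable def e57_12 : List Rx := [
  Rx.mk (nat_lit 21) (nat_lit 5) (nat_lit 2) (nat_lit 0) (nat_lit 3) (nat_lit 63) (nat_lit 91) r12_63 r1_91 (nat_lit 0) (nat_lit 0) (nat_lit 0) (nat_lit 0x7a1ced3710) (nat_lit 2889656640),
  Rx.mk (nat_lit 145) (nat_lit 1) (nat_lit 2) (nat_lit 2) (nat_lit 7) (nat_lit 65) (nat_lit 93) r12_65 r1_93 (nat_lit 0) (nat_lit 0) (nat_lit 0) (nat_lit 0x7e7f436d4a) (nat_lit 737692488),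
  Rx.mk (nat_lit 149) (nat_lit 5) (nat_lit 2) (nat_lit 2) (nat_lit 7) (nat_lit 64) (nat_lit 92) r12_64 r1_92 (nat_lit 0) (nat_lit 0) (nat_lit 0) (nat_lit 0x7adb1c5360) (nat_lit 2524998528)]
noncomputable def e57_13 : List Rx := [
  Rx.mk (nat_lit 5) (nat_lit 5) (nat_lit 0) (nat_lit 0) (nat_lit 1) (nat_lit 191) (nat_lit 362) r12_191 r7_362 (nat_lit 0) (nat_lit 0) (nat_lit 0) (nat_lit 0x6335d77f54) (nat_lit 14131512720),
  Rx.mk (nat_lit 21) (nat_lit 5) (nat_lit 2) (nat_lit 0) (nat_lit 3) (nat_lit 193) (nat_lit 364) r12_193 r7_364 (nat_lit 0) (nat_lit 0) (nat_lit 0) (nat_lit 0x7c2c753c80) (nat_lit 1878170112),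
  Rx.mk (nat_lit 69) (nat_lit 5) (nat_lit 0) (nat_lit 1) (nat_lit 5) (nat_lit 192) (nat_lit 363) r12_192 r7_363 (nat_lit 0) (nat_lit 0) (nat_lit 0) (nat_lit 0x7da6297fc2) (nat_lit 1153961640),
  Rx.mk (nat_lit 85) (nat_lit 5) (nat_lit 2) (nat_lit 1) (nat_lit 7) (nat_lit 194) (nat_lit 365) r12_194 r7_365 (nat_lit 0) (nat_lit 0) (nat_lit 0) (nat_lit 0x7ddfee8338) (nat_lit 1043194464),
  Rx.mk (nat_lit 145) (nat_lit 1) (nat_lit 2) (nat_lit 2) (nat_lit 7) (nat_lit 196) (nat_lit 361) r12_196 r7_361 (nat_lit 0) (nat_lit 0) (nat_lit 0) (nat_lit 0x7dd7808a20) (nat_lit 1059357312),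
  Rx.mk (nat_lit 149) (nat_lit 5) (nat_lit 2) (nat_lit 2) (nat_lit 7) (nat_lit 195) (nat_lit 366) r12_195 r7_366 (nat_lit 0) (nat_lit 0) (nat_lit 0) (nat_lit 0x7dad63ac18) (nat_lit 1140104160)]
noncomputable def e57_14 : List Rx := [
  Rx.mk (nat_lit 69) (nat_lit 5) (nat_lit 0) (nat_lit 1) (nat_lit 5) (nat_lit 189) (nat_lit 74) r12_189 r7_74 (nat_lit 0) (nat_lit 0) (nat_lit 0) (nat_lit 0x7dea1aa06c) (nat_lit 1023690096),
  Rx.mk (nat_lit 85) (nat_lit 5) (nat_lit 2) (nat_lit 1) (nat_lit 7) (nat_lit 190) (nat_lit 75) r12_190 r7_75 (nat_lit 0) (nat_lit 0) (nat_lit 0) (nat_lit 0x7e3b884940) (nat_lit 867559680)]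
noncomputable def e57_15 : List Rx := [
  Rx.mk (nat_lit 69) (nat_lit 5) (nat_lit 0) (nat_lit 1) (nat_lit 5) (nat_lit 290) (nat_lit 324) r12_290 r8_324 (nat_lit 0) (nat_lit 0) (nat_lit 0) (nat_lit 0x7cb8761be6) (nat_lit 1609728120),
  Rx.mk (nat_lit 77) (nat_lit 5) (nat_lit 1) (nat_lit 1) (nat_lit 7) (nat_lit 291) (nat_lit 325) r12_291 r8_325 (nat_lit 0) (nat_lit 0) (nat_lit 0) (nat_lit 0x7de9664bb2) (nat_lit 1025040744),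
  Rx.mk (nat_lit 85) (nat_lit 5) (nat_lit 2) (nat_lit 1) (nat_lit 7) (nat_lit 292) (nat_lit 326) r12_292 r8_326 (nat_lit 0) (nat_lit 0) (nat_lit 0) (nat_lit 0x7dda2b3f72) (nat_lit 1054243944)]
noncomputable def e57_16 : List Rx := [
  Rx.mk (nat_lit 21) (nat_lit 5) (nat_lit 2) (nat_lit 0) (nat_lit 3) (nat_lit 67) (nat_lit 89) r12_67 r4_89 (nat_lit 0) (nat_lit 0) (nat_lit 0) (nat_lit 0x7e028ed910) (nat_lit 976802112),
  Rx.mk (nat_lit 149) (nat_lit 5) (nat_lit 2) (nat_lit 2) (nat_lit 7) (nat_lit 68) (nat_lit 92) r12_68 r4_92 (nat_lit 0) (nat_lit 0) (nat_lit 0) (nat_lit 0x7e502f9eb6) (nat_lit 827958456),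
  Rx.mk (nat_lit 197) (nat_lit 5) (nat_lit 0) (nat_lit 3) (nat_lit 5) (nat_lit 66) (nat_lit 90) r12_66 r4_90 (nat_lit 0) (nat_lit 0) (nat_lit 0) (nat_lit 0x7f16fd1118) (nat_lit 446775264),
  Rx.mk (nat_lit 213) (nat_lit 5) (nat_lit 2) (nat_lit 3) (nat_lit 7) (nat_lit 69) (nat_lit 91) r12_69 r4_91 (nat_lit 0) (nat_lit 0) (nat_lit 0) (nat_lit 0x7eff7569aa) (nat_lit 491891400)]
noncomputable def e57_17 : List Rx := [
  Rx.mk (nat_lit 5) (nat_lit 5) (nat_lit 0) (nat_lit 0) (nat_lit 1) (nat_lit 197) (nat_lit 369) r12_197 r9_369 (nat_lit 0) (nat_lit 0) (nat_lit 0) (nat_lit 0x6f5f417c8a) (nat_lit 8161864776),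
  Rx.mk (nat_lit 21) (nat_lit 5) (nat_lit 2) (nat_lit 0) (nat_lit 3) (nat_lit 199) (nat_lit 371) r12_199 r9_371 (nat_lit 0) (nat_lit 0) (nat_lit 0) (nat_lit 0x7e5a08811e) (nat_lit 809077464),
  Rx.mk (nat_lit 149) (nat_lit 5) (nat_lit 2) (nat_lit 2) (nat_lit 7) (nat_lit 200) (nat_lit 373) r12_200 r9_373 (nat_lit 0) (nat_lit 0) (nat_lit 0) (nat_lit 0x7dd2da9484) (nat_lit 1068269904),
  Rx.mk (nat_lit 197) (nat_lit 5) (nat_lit 0) (nat_lit 3) (nat_lit 5) (nat_lit 198) (nat_lit 370) r12_198 r9_370 (nat_lit 0) (nat_lit 0) (nat_lit 0) (nat_lit 0x7d55b82728) (nat_lit 1308202272),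
  Rx.mk (nat_lit 213) (nat_lit 5) (nat_lit 2) (nat_lit 3) (nat_lit 7) (nat_lit 201) (nat_lit 372) r12_201 r9_372 (nat_lit 0) (nat_lit 0) (nat_lit 0) (nat_lit 0x7e4050bcb4) (nat_lit 858388752)]
noncomputable def e57_18 : List Rx := [
  Rx.mk (nat_lit 197) (nat_lit 5) (nat_lit 0) (nat_lit 3) (nat_lit 5) (nat_lit 240) (nat_lit 366) r12_240 r10_366 (nat_lit 0) (nat_lit 0) (nat_lit 0) (nat_lit 0x7e373cadfe) (nat_lit 875795544),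
  Rx.mk (nat_lit 213) (nat_lit 5) (nat_lit 2) (nat_lit 3) (nat_lit 7) (nat_lit 241) (nat_lit 367) r12_241 r10_367 (nat_lit 0) (nat_lit 0) (nat_lit 0) (nat_lit 0x7ee6adf63a) (nat_lit 539402760)]
noncomputable def e57_19 : List Rx := [
  Rx.mk (nat_lit 76) (nat_lit 4) (nat_lit 1) (nat_lit 1) (nat_lit 6) (nat_lit 287) (nat_lit 307) r12_287 r8_307 (nat_lit 0) (nat_lit 0) (nat_lit 0) (nat_lit 0x6ec70e6054) (nat_lit 8453691792),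
  Rx.mk (nat_lit 77) (nat_lit 5) (nat_lit 1) (nat_lit 1) (nat_lit 7) (nat_lit 288) (nat_lit 308) r12_288 r8_308 (nat_lit 0) (nat_lit 0) (nat_lit 0) (nat_lit 0x7dd07e9a46) (nat_lit 1072793592),
  Rx.mk (nat_lit 78) (nat_lit 6) (nat_lit 1) (nat_lit 1) (nat_lit 7) (nat_lit 289) (nat_lit 310) r12_289 r8_310 (nat_lit 0) (nat_lit 0) (nat_lit 0) (nat_lit 0x7dbce773cc) (nat_lit 1110356208),
  Rx.mk (nat_lit 334) (nat_lit 6) (nat_lit 1) (nat_lit 5) (nat_lit 7) (nat_lit 286) (nat_lit 309) r12_286 r8_309 (nat_lit 0) (nat_lit 0) (nat_lit 0) (nat_lit 0x7ddc31bf08) (nat_lit 1050360480)]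
noncomputable def e57_20 : List Rx := [
  Rx.mk (nat_lit 270) (nat_lit 6) (nat_lit 1) (nat_lit 4) (nat_lit 3) (nat_lit 255) (nat_lit 224) r12_255 r0_224 (nat_lit 0) (nat_lit 0) (nat_lit 0) (nat_lit 0x8000000000) (nat_lit 0)]
noncomputable def e57_21 : List Rx := [
  Rx.mk (nat_lit 270) (nat_lit 6) (nat_lit 1) (nat_lit 4) (nat_lit 3) (nat_lit 268) (nat_lit 242) r12_268 r1_242 (nat_lit 0) (nat_lit 0) (nat_lit 0) (nat_lit 0x8000000000) (nat_lit 0),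
  Rx.mk (nat_lit 302) (nat_lit 6) (nat_lit 5) (nat_lit 4) (nat_lit 3) (nat_lit 267) (nat_lit 243) r12_267 r1_243 (nat_lit 0) (nat_lit 0) (nat_lit 0) (nat_lit 0x7d19eca41c) (nat_lit 1422852912)]
noncomputable def e57_22 : List Rx := [
  Rx.mk (nat_lit 270) (nat_lit 6) (nat_lit 1) (nat_lit 4) (nat_lit 3) (nat_lit 304) (nat_lit 224) r12_304 r4_224 (nat_lit 0) (nat_lit 0) (nat_lit 0) (nat_lit 0x7b83692dea) (nat_lit 2202300360),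
  Rx.mk (nat_lit 462) (nat_lit 6) (nat_lit 1) (nat_lit 7) (nat_lit 7) (nat_lit 305) (nat_lit 225) r12_305 r4_225 (nat_lit 0) (nat_lit 0) (nat_lit 0) (nat_lit 0x7b9dce877a) (nat_lit 2151688968)]
noncomputable def e57_23 : List Rx := [
  Rx.mk (nat_lit 270) (nat_lit 6) (nat_lit 1) (nat_lit 4) (nat_lit 3) (nat_lit 256) (nat_lit 422) r12_256 r6_422 (nat_lit 0) (nat_lit 0) (nat_lit 0) (nat_lit 0x7e13f5229a) (nat_lit 943440264),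
  Rx.mk (nat_lit 334) (nat_lit 6) (nat_lit 1) (nat_lit 5) (nat_lit 7) (nat_lit 257) (nat_lit 423) r12_257 r6_423 (nat_lit 0) (nat_lit 0) (nat_lit 0) (nat_lit 0x7e7b9907f4) (nat_lit 744720912)]
noncomputable def e57_24 : List Rx := [
  Rx.mk (nat_lit 270) (nat_lit 6) (nat_lit 1) (nat_lit 4) (nat_lit 3) (nat_lit 271) (nat_lit 349) r12_271 r7_349 (nat_lit 0) (nat_lit 0) (nat_lit 0) (nat_lit 0x7d458d29e8) (nat_lit 1339202592),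
  Rx.mk (nat_lit 302) (nat_lit 6) (nat_lit 5) (nat_lit 4) (nat_lit 3) (nat_lit 269) (nat_lit 347) r12_269 r7_347 (nat_lit 0) (nat_lit 0) (nat_lit 0) (nat_lit 0x7d3189aa34) (nat_lit 1377576720),
  Rx.mk (nat_lit 334) (nat_lit 6) (nat_lit 1) (nat_lit 5) (nat_lit 7) (nat_lit 272) (nat_lit 350) r12_272 r7_350 (nat_lit 0) (nat_lit 0) (nat_lit 0) (nat_lit 0x7dcaa7d7b8) (nat_lit 1083989088),
  Rx.mk (nat_lit 366) (nat_lit 6) (nat_lit 5) (nat_lit 5) (nat_lit 7) (nat_lit 270) (nat_lit 348) r12_270 r7_348 (nat_lit 0) (nat_lit 0) (nat_lit 0) (nat_lit 0x7df25e9c24) (nat_lit 1007841744)]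
noncomputable def e57_25 : List Rx := [
  Rx.mk (nat_lit 334) (nat_lit 6) (nat_lit 1) (nat_lit 5) (nat_lit 7) (nat_lit 285) (nat_lit 218) r12_285 r7_218 (nat_lit 0) (nat_lit 0) (nat_lit 0) (nat_lit 0x7e67fac1ec) (nat_lit 782336880)]
noncomputable def e57_26 : List Rx := [
  Rx.mk (nat_lit 270) (nat_lit 6) (nat_lit 1) (nat_lit 4) (nat_lit 3) (nat_lit 306) (nat_lit 347) r12_306 r9_347 (nat_lit 0) (nat_lit 0) (nat_lit 0) (nat_lit 0x7db5ac2788) (nat_lit 1124222112),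
  Rx.mk (nat_lit 334) (nat_lit 6) (nat_lit 1) (nat_lit 5) (nat_lit 7) (nat_lit 307) (nat_lit 348) r12_307 r9_348 (nat_lit 0) (nat_lit 0) (nat_lit 0) (nat_lit 0x7e63f48254) (nat_lit 790053264),
  Rx.mk (nat_lit 462) (nat_lit 6) (nat_lit 1) (nat_lit 7) (nat_lit 7) (nat_lit 308) (nat_lit 349) r12_308 r9_349 (nat_lit 0) (nat_lit 0) (nat_lit 0) (nat_lit 0x7e796d0ab6) (nat_lit 748885176)]
noncomputable def e57_27 : List Rx := [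
  Rx.mk (nat_lit 462) (nat_lit 6) (nat_lit 1) (nat_lit 7) (nat_lit 7) (nat_lit 309) (nat_lit 356) r12_309 r10_356 (nat_lit 0) (nat_lit 0) (nat_lit 0) (nat_lit 0x7f0597e77c) (nat_lit 480128688)]
noncomputable def e57_28 : List Rx := [
  Rx.mk (nat_lit 4) (nat_lit 4) (nat_lit 0) (nat_lit 0) (nat_lit 0) (nat_lit 202) (nat_lit 68) r12_202 r10_68 (nat_lit 0) (nat_lit 0) (nat_lit 0) (nat_lit 0x4f8256cb14) (nat_lit 23801905296),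
  Rx.mk (nat_lit 5) (nat_lit 5) (nat_lit 0) (nat_lit 0) (nat_lit 1) (nat_lit 203) (nat_lit 69) r12_203 r10_69 (nat_lit 0) (nat_lit 0) (nat_lit 0) (nat_lit 0x77191ff6e8) (nat_lit 4369506336),
  Rx.mk (nat_lit 6) (nat_lit 6) (nat_lit 0) (nat_lit 0) (nat_lit 1) (nat_lit 204) (nat_lit 71) r12_204 r10_71 (nat_lit 0) (nat_lit 0) (nat_lit 0) (nat_lit 0x71d4c381f4) (nat_lit 6954848784),
  Rx.mk (nat_lit 7) (nat_lit 7) (nat_lit 0) (nat_lit 0) (nat_lit 1) (nat_lit 205) (nat_lit 70) r12_205 r10_70 (nat_lit 0) (nat_lit 0) (nat_lit 0) (nat_lit 0x749a460706) (nat_lit 5594437368),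
  Rx.mk (nat_lit 20) (nat_lit 4) (nat_lit 2) (nat_lit 0) (nat_lit 2) (nat_lit 212) (nat_lit 72) r12_212 r10_72 (nat_lit 0) (nat_lit 0) (nat_lit 0) (nat_lit 0x6f899876f0) (nat_lit 8080682688),
  Rx.mk (nat_lit 21) (nat_lit 5) (nat_lit 2) (nat_lit 0) (nat_lit 3) (nat_lit 213) (nat_lit 73) r12_213 r10_73 (nat_lit 0) (nat_lit 0) (nat_lit 0) (nat_lit 0x7dc0395eaa) (nat_lit 1103990472),
  Rx.mk (nat_lit 23) (nat_lit 7) (nat_lit 2) (nat_lit 0) (nat_lit 3) (nat_lit 214) (nat_lit 74) r12_214 r10_74 (nat_lit 0) (nat_lit 0) (nat_lit 0) (nat_lit 0x7df140ee00) (nat_lit 1009981440),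
  Rx.mk (nat_lit 68) (nat_lit 4) (nat_lit 0) (nat_lit 1) (nat_lit 4) (nat_lit 206) (nat_lit 75) r12_206 r10_75 (nat_lit 0) (nat_lit 0) (nat_lit 0) (nat_lit 0x762668e34c) (nat_lit 4834887408),
  Rx.mk (nat_lit 70) (nat_lit 6) (nat_lit 0) (nat_lit 1) (nat_lit 5) (nat_lit 207) (nat_lit 77) r12_207 r10_77 (nat_lit 0) (nat_lit 0) (nat_lit 0) (nat_lit 0x7de5630bea) (nat_lit 1032734664),
  Rx.mk (nat_lit 71) (nat_lit 7) (nat_lit 0) (nat_lit 1) (nat_lit 5) (nat_lit 208) (nat_lit 76) r12_208 r10_76 (nat_lit 0) (nat_lit 0) (nat_lit 0) (nat_lit 0x7df4fc9242) (nat_lit 1002823848),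
  Rx.mk (nat_lit 84) (nat_lit 4) (nat_lit 2) (nat_lit 1) (nat_lit 6) (nat_lit 215) (nat_lit 78) r12_215 r10_78 (nat_lit 0) (nat_lit 0) (nat_lit 0) (nat_lit 0x7e21a6277c) (nat_lit 917188272),
  Rx.mk (nat_lit 87) (nat_lit 7) (nat_lit 2) (nat_lit 1) (nat_lit 7) (nat_lit 216) (nat_lit 79) r12_216 r10_79 (nat_lit 0) (nat_lit 0) (nat_lit 0) (nat_lit 0x7df9596c70) (nat_lit 994458816),
  Rx.mk (nat_lit 148) (nat_lit 4) (nat_lit 2) (nat_lit 2) (nat_lit 6) (nat_lit 217) (nat_lit 88) r12_217 r10_88 (nat_lit 0) (nat_lit 0) (nat_lit 0) (nat_lit 0x7d77f5e32a) (nat_lit 1242548424),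
  Rx.mk (nat_lit 149) (nat_lit 5) (nat_lit 2) (nat_lit 2) (nat_lit 7) (nat_lit 218) (nat_lit 89) r12_218 r10_89 (nat_lit 0) (nat_lit 0) (nat_lit 0) (nat_lit 0x7df35c0c4c) (nat_lit 1005943536),
  Rx.mk (nat_lit 151) (nat_lit 7) (nat_lit 2) (nat_lit 2) (nat_lit 7) (nat_lit 219) (nat_lit 90) r12_219 r10_90 (nat_lit 0) (nat_lit 0) (nat_lit 0) (nat_lit 0x7df79428c6) (nat_lit 997853688),
  Rx.mk (nat_lit 196) (nat_lit 4) (nat_lit 0) (nat_lit 3) (nat_lit 4) (nat_lit 209) (nat_lit 80) r12_209 r10_80 (nat_lit 0) (nat_lit 0) (nat_lit 0) (nat_lit 0x76d6a79eb0) (nat_lit 4496955840),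
  Rx.mk (nat_lit 197) (nat_lit 5) (nat_lit 0) (nat_lit 3) (nat_lit 5) (nat_lit 210) (nat_lit 81) r12_210 r10_81 (nat_lit 0) (nat_lit 0) (nat_lit 0) (nat_lit 0x7dd00b217e) (nat_lit 1073658456),
  Rx.mk (nat_lit 198) (nat_lit 6) (nat_lit 0) (nat_lit 3) (nat_lit 5) (nat_lit 211) (nat_lit 82) r12_211 r10_82 (nat_lit 0) (nat_lit 0) (nat_lit 0) (nat_lit 0x7dc3830a0c) (nat_lit 1097686512),
  Rx.mk (nat_lit 212) (nat_lit 4) (nat_lit 2) (nat_lit 3) (nat_lit 6) (nat_lit 220) (nat_lit 86) r12_220 r10_86 (nat_lit 0) (nat_lit 0) (nat_lit 0) (nat_lit 0x7e1455dc8e) (nat_lit 942715800),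
  Rx.mk (nat_lit 213) (nat_lit 5) (nat_lit 2) (nat_lit 3) (nat_lit 7) (nat_lit 221) (nat_lit 87) r12_221 r10_87 (nat_lit 0) (nat_lit 0) (nat_lit 0) (nat_lit 0x7df712d0dc) (nat_lit 998822448),
  Rx.mk (nat_lit 220) (nat_lit 4) (nat_lit 3) (nat_lit 3) (nat_lit 6) (nat_lit 222) (nat_lit 83) r12_222 r10_83 (nat_lit 0) (nat_lit 0) (nat_lit 0) (nat_lit 0x7d8a287fee) (nat_lit 1207656216),
  Rx.mk (nat_lit 221) (nat_lit 5) (nat_lit 3) (nat_lit 3) (nat_lit 7) (nat_lit 223) (nat_lit 84) r12_223 r10_84 (nat_lit 0) (nat_lit 0) (nat_lit 0) (nat_lit 0x7ddcad774c) (nat_lit 1049433840),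
  Rx.mk (nat_lit 222) (nat_lit 6) (nat_lit 3) (nat_lit 3) (nat_lit 7) (nat_lit 224) (nat_lit 85) r12_224 r10_85 (nat_lit 0) (nat_lit 0) (nat_lit 0) (nat_lit 0x7ddf540ce0) (nat_lit 1044351360)]
noncomputable def e57_29 : List Rx := [
  Rx.mk (nat_lit 286) (nat_lit 6) (nat_lit 3) (nat_lit 4) (nat_lit 3) (nat_lit 243) (nat_lit 238) r12_243 r5_238 (nat_lit 0) (nat_lit 0) (nat_lit 0) (nat_lit 0x7fed08ef84) (nat_lit 36363600),
  Rx.mk (nat_lit 454) (nat_lit 6) (nat_lit 0) (nat_lit 7) (nat_lit 5) (nat_lit 242) (nat_lit 239) r12_242 r5_239 (nat_lit 0) (nat_lit 0) (nat_lit 0) (nat_lit 0x7d25bb2728) (nat_lit 1400214816),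
  Rx.mk (nat_lit 478) (nat_lit 6) (nat_lit 3) (nat_lit 7) (nat_lit 7) (nat_lit 244) (nat_lit 240) r12_244 r5_240 (nat_lit 0) (nat_lit 0) (nat_lit 0) (nat_lit 0x7ef7d3c3cc) (nat_lit 506523888)]
noncomputable def e57_30 : List Rx := [
  Rx.mk (nat_lit 262) (nat_lit 6) (nat_lit 0) (nat_lit 4) (nat_lit 1) (nat_lit 315) (nat_lit 273) r12_315 r10_273 (nat_lit 0) (nat_lit 0) (nat_lit 0) (nat_lit 0x771b6bd228) (nat_lit 4365103392),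
  Rx.mk (nat_lit 270) (nat_lit 6) (nat_lit 1) (nat_lit 4) (nat_lit 3) (nat_lit 318) (nat_lit 274) r12_318 r10_274 (nat_lit 0) (nat_lit 0) (nat_lit 0) (nat_lit 0x7d6315f13e) (nat_lit 1282573656),
  Rx.mk (nat_lit 286) (nat_lit 6) (nat_lit 3) (nat_lit 4) (nat_lit 3) (nat_lit 321) (nat_lit 275) r12_321 r10_275 (nat_lit 0) (nat_lit 0) (nat_lit 0) (nat_lit 0x7dd6261fc8) (nat_lit 1061951904),
  Rx.mk (nat_lit 326) (nat_lit 6) (nat_lit 0) (nat_lit 5) (nat_lit 5) (nat_lit 316) (nat_lit 276) r12_316 r10_276 (nat_lit 0) (nat_lit 0) (nat_lit 0) (nat_lit 0x7d971a50c4) (nat_lit 1182836304),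
  Rx.mk (nat_lit 334) (nat_lit 6) (nat_lit 1) (nat_lit 5) (nat_lit 7) (nat_lit 319) (nat_lit 277) r12_319 r10_277 (nat_lit 0) (nat_lit 0) (nat_lit 0) (nat_lit 0x7e00b1f6e0) (nat_lit 980373888),
  Rx.mk (nat_lit 350) (nat_lit 6) (nat_lit 3) (nat_lit 5) (nat_lit 7) (nat_lit 322) (nat_lit 278) r12_322 r10_278 (nat_lit 0) (nat_lit 0) (nat_lit 0) (nat_lit 0x7ddda307f2) (nat_lit 1047594600),
  Rx.mk (nat_lit 454) (nat_lit 6) (nat_lit 0) (nat_lit 7) (nat_lit 5) (nat_lit 317) (nat_lit 279) r12_317 r10_279 (nat_lit 0) (nat_lit 0) (nat_lit 0) (nat_lit 0x7dea0ba15c) (nat_lit 1023802416),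
  Rx.mk (nat_lit 462) (nat_lit 6) (nat_lit 1) (nat_lit 7) (nat_lit 7) (nat_lit 320) (nat_lit 280) r12_320 r10_280 (nat_lit 0) (nat_lit 0) (nat_lit 0) (nat_lit 0x7de5e7c39e) (nat_lit 1031740632)]
noncomputable def e57_31 : List Rx := [
  Rx.mk (nat_lit 23) (nat_lit 7) (nat_lit 2) (nat_lit 0) (nat_lit 3) (nat_lit 73) (nat_lit 37) r12_73 r5_37 (nat_lit 0) (nat_lit 0) (nat_lit 0) (nat_lit 0x7e46331e88) (nat_lit 847106208),
  Rx.mk (nat_lit 151) (nat_lit 7) (nat_lit 2) (nat_lit 2) (nat_lit 7) (nat_lit 74) (nat_lit 40) r12_74 r5_40 (nat_lit 0) (nat_lit 0) (nat_lit 0) (nat_lit 0x7e5cc7752c) (nat_lit 803812464),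
  Rx.mk (nat_lit 196) (nat_lit 4) (nat_lit 0) (nat_lit 3) (nat_lit 4) (nat_lit 70) (nat_lit 31) r12_70 r5_31 (nat_lit 0) (nat_lit 0) (nat_lit 0) (nat_lit 0x7e042adf4e) (nat_lit 973716120),
  Rx.mk (nat_lit 198) (nat_lit 6) (nat_lit 0) (nat_lit 3) (nat_lit 5) (nat_lit 71) (nat_lit 33) r12_71 r5_33 (nat_lit 0) (nat_lit 0) (nat_lit 0) (nat_lit 0x7f16d5b38e) (nat_lit 447070104),
  Rx.mk (nat_lit 199) (nat_lit 7) (nat_lit 0) (nat_lit 3) (nat_lit 5) (nat_lit 72) (nat_lit 32) r12_72 r5_32 (nat_lit 0) (nat_lit 0) (nat_lit 0) (nat_lit 0x7c7bbb67ce) (nat_lit 1726170264),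
  Rx.mk (nat_lit 212) (nat_lit 4) (nat_lit 2) (nat_lit 3) (nat_lit 6) (nat_lit 75) (nat_lit 38) r12_75 r5_38 (nat_lit 0) (nat_lit 0) (nat_lit 0) (nat_lit 0x7dee681b90) (nat_lit 1015440192),
  Rx.mk (nat_lit 215) (nat_lit 7) (nat_lit 2) (nat_lit 3) (nat_lit 7) (nat_lit 76) (nat_lit 39) r12_76 r5_39 (nat_lit 0) (nat_lit 0) (nat_lit 0) (nat_lit 0x7f0fa006f0) (nat_lit 460893888),
  Rx.mk (nat_lit 220) (nat_lit 4) (nat_lit 3) (nat_lit 3) (nat_lit 6) (nat_lit 78) (nat_lit 34) r12_78 r5_34 (nat_lit 0) (nat_lit 0) (nat_lit 0) (nat_lit 0x7a93662f0a) (nat_lit 2662497864),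
  Rx.mk (nat_lit 222) (nat_lit 6) (nat_lit 3) (nat_lit 3) (nat_lit 7) (nat_lit 79) (nat_lit 35) r12_79 r5_35 (nat_lit 0) (nat_lit 0) (nat_lit 0) (nat_lit 0x7e52dd53d8) (nat_lit 822822624),
  Rx.mk (nat_lit 478) (nat_lit 6) (nat_lit 3) (nat_lit 7) (nat_lit 7) (nat_lit 77) (nat_lit 36) r12_77 r5_36 (nat_lit 0) (nat_lit 0) (nat_lit 0) (nat_lit 0x7e41ba8616) (nat_lit 855679032)]
noncomputable def e57_32 : List Rx := [
  Rx.mk (nat_lit 196) (nat_lit 4) (nat_lit 0) (nat_lit 3) (nat_lit 4) (nat_lit 246) (nat_lit 450) r12_246 r11_450 (nat_lit 0) (nat_lit 0) (nat_lit 0) (nat_lit 0x78fb4dd228) (nat_lit 3444977952),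
  Rx.mk (nat_lit 198) (nat_lit 6) (nat_lit 0) (nat_lit 3) (nat_lit 5) (nat_lit 247) (nat_lit 454) r12_247 r11_454 (nat_lit 0) (nat_lit 0) (nat_lit 0) (nat_lit 0x7f3052fba0) (nat_lit 398196864),
  Rx.mk (nat_lit 199) (nat_lit 7) (nat_lit 0) (nat_lit 3) (nat_lit 5) (nat_lit 248) (nat_lit 452) r12_248 r11_452 (nat_lit 0) (nat_lit 0) (nat_lit 0) (nat_lit 0x79aa5aa0ac) (nat_lit 3109337712),
  Rx.mk (nat_lit 212) (nat_lit 4) (nat_lit 2) (nat_lit 3) (nat_lit 6) (nat_lit 249) (nat_lit 451) r12_249 r11_451 (nat_lit 0) (nat_lit 0) (nat_lit 0) (nat_lit 0x7d5ad6d538) (nat_lit 1298385504),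
  Rx.mk (nat_lit 215) (nat_lit 7) (nat_lit 2) (nat_lit 3) (nat_lit 7) (nat_lit 250) (nat_lit 453) r12_250 r11_453 (nat_lit 0) (nat_lit 0) (nat_lit 0) (nat_lit 0x7f04293e68) (nat_lit 482874912),
  Rx.mk (nat_lit 454) (nat_lit 6) (nat_lit 0) (nat_lit 7) (nat_lit 5) (nat_lit 245) (nat_lit 455) r12_245 r11_455 (nat_lit 0) (nat_lit 0) (nat_lit 0) (nat_lit 0x7fd8517b10) (nat_lit 76085568),
  Rx.mk (nat_lit 478) (nat_lit 6) (nat_lit 3) (nat_lit 7) (nat_lit 7) (nat_lit 251) (nat_lit 456) r12_251 r11_456 (nat_lit 0) (nat_lit 0) (nat_lit 0) (nat_lit 0x7e9f9a27be) (nat_lit 675686232)]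
noncomputable def e57_33 : List Rx := [
  Rx.mk (nat_lit 176) (nat_lit 0) (nat_lit 6) (nat_lit 2) (nat_lit 6) (nat_lit 99) (nat_lit 208) r12_99 r0_208 (nat_lit 0) (nat_lit 0) (nat_lit 0) (nat_lit 0x6c8ed0a668) (nat_lit 9543235104),
  Rx.mk (nat_lit 290) (nat_lit 2) (nat_lit 4) (nat_lit 4) (nat_lit 1) (nat_lit 95) (nat_lit 209) r12_95 r0_209 (nat_lit 0) (nat_lit 0) (nat_lit 0) (nat_lit 0x749db7cfe6) (nat_lit 5587832952),
  Rx.mk (nat_lit 294) (nat_lit 6) (nat_lit 4) (nat_lit 4) (nat_lit 1) (nat_lit 94) (nat_lit 204) r12_94 r0_204 (nat_lit 0) (nat_lit 0) (nat_lit 0) (nat_lit 0x8000000000) (nat_lit 0),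
  Rx.mk (nat_lit 318) (nat_lit 6) (nat_lit 7) (nat_lit 4) (nat_lit 3) (nat_lit 100) (nat_lit 205) r12_100 r0_205 (nat_lit 0) (nat_lit 0) (nat_lit 0) (nat_lit 0x769593103a) (nat_lit 4621740552),
  Rx.mk (nat_lit 418) (nat_lit 2) (nat_lit 4) (nat_lit 6) (nat_lit 5) (nat_lit 96) (nat_lit 210) r12_96 r0_210 (nat_lit 0) (nat_lit 0) (nat_lit 0) (nat_lit 0x7d52e9d410) (nat_lit 1313582400),
  Rx.mk (nat_lit 432) (nat_lit 0) (nat_lit 6) (nat_lit 6) (nat_lit 6) (nat_lit 97) (nat_lit 207) r12_97 r0_207 (nat_lit 0) (nat_lit 0) (nat_lit 0) (nat_lit 0x7b7e747d3a) (nat_lit 2211802632),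
  Rx.mk (nat_lit 434) (nat_lit 2) (nat_lit 6) (nat_lit 6) (nat_lit 7) (nat_lit 98) (nat_lit 211) r12_98 r0_211 (nat_lit 0) (nat_lit 0) (nat_lit 0) (nat_lit 0x7df6c1d5ec) (nat_lit 999428976),
  Rx.mk (nat_lit 510) (nat_lit 6) (nat_lit 7) (nat_lit 7) (nat_lit 7) (nat_lit 101) (nat_lit 206) r12_101 r0_206 (nat_lit 0) (nat_lit 0) (nat_lit 0) (nat_lit 0x67426092b6) (nat_lit 12144063672)]
noncomputable def e57_34 : List Rx := [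
  Rx.mk (nat_lit 144) (nat_lit 0) (nat_lit 2) (nat_lit 2) (nat_lit 6) (nat_lit 4) (nat_lit 65) r12_4 r0_65 (nat_lit 0) (nat_lit 0) (nat_lit 0) (nat_lit 0x720f3cda24) (nat_lit 6842730960),
  Rx.mk (nat_lit 147) (nat_lit 3) (nat_lit 2) (nat_lit 2) (nat_lit 7) (nat_lit 5) (nat_lit 66) r12_5 r0_66 (nat_lit 0) (nat_lit 0) (nat_lit 0) (nat_lit 0x7df1ba066e) (nat_lit 1009074456),
  Rx.mk (nat_lit 176) (nat_lit 0) (nat_lit 6) (nat_lit 2) (nat_lit 6) (nat_lit 3) (nat_lit 68) r12_3 r0_68 (nat_lit 0) (nat_lit 0) (nat_lit 0) (nat_lit 0x75cf3f763a) (nat_lit 5002011144),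
  Rx.mk (nat_lit 418) (nat_lit 2) (nat_lit 4) (nat_lit 6) (nat_lit 5) (nat_lit 0) (nat_lit 67) r12_0 r0_67 (nat_lit 0) (nat_lit 0) (nat_lit 0) (nat_lit 0x765c6d02d4) (nat_lit 4731317136),
  Rx.mk (nat_lit 432) (nat_lit 0) (nat_lit 6) (nat_lit 6) (nat_lit 6) (nat_lit 1) (nat_lit 69) r12_1 r0_69 (nat_lit 0) (nat_lit 0) (nat_lit 0) (nat_lit 0x71e33a1a7c) (nat_lit 6927116976),
  Rx.mk (nat_lit 434) (nat_lit 2) (nat_lit 6) (nat_lit 6) (nat_lit 7) (nat_lit 2) (nat_lit 70) r12_2 r0_70 (nat_lit 0) (nat_lit 0) (nat_lit 0) (nat_lit 0x7690a69f06) (nat_lit 4631181048)]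
noncomputable def e57_35 : List Rx := [
  Rx.mk (nat_lit 176) (nat_lit 0) (nat_lit 6) (nat_lit 2) (nat_lit 6) (nat_lit 105) (nat_lit 271) r12_105 r6_271 (nat_lit 0) (nat_lit 0) (nat_lit 0) (nat_lit 0x7cd666bcbe) (nat_lit 1552321368),
  Rx.mk (nat_lit 418) (nat_lit 2) (nat_lit 4) (nat_lit 6) (nat_lit 5) (nat_lit 102) (nat_lit 272) r12_102 r6_272 (nat_lit 0) (nat_lit 0) (nat_lit 0) (nat_lit 0x7ecbf921a2) (nat_lit 590609448),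
  Rx.mk (nat_lit 432) (nat_lit 0) (nat_lit 6) (nat_lit 6) (nat_lit 6) (nat_lit 103) (nat_lit 270) r12_103 r6_270 (nat_lit 0) (nat_lit 0) (nat_lit 0) (nat_lit 0x7d8621e05c) (nat_lit 1215375408),
  Rx.mk (nat_lit 434) (nat_lit 2) (nat_lit 6) (nat_lit 6) (nat_lit 7) (nat_lit 104) (nat_lit 273) r12_104 r6_273 (nat_lit 0) (nat_lit 0) (nat_lit 0) (nat_lit 0x7dbc727b1c) (nat_lit 1111232304)]
noncomputable def e57_36 : List Rx := [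
  Rx.mk (nat_lit 145) (nat_lit 1) (nat_lit 2) (nat_lit 2) (nat_lit 7) (nat_lit 15) (nat_lit 57) r12_15 r2_57 (nat_lit 0) (nat_lit 0) (nat_lit 0) (nat_lit 0x7e3bb246a0) (nat_lit 867245184),
  Rx.mk (nat_lit 177) (nat_lit 1) (nat_lit 6) (nat_lit 2) (nat_lit 7) (nat_lit 14) (nat_lit 58) r12_14 r2_58 (nat_lit 0) (nat_lit 0) (nat_lit 0) (nat_lit 0x7df79428c6) (nat_lit 997853688)]
noncomputable def e57_37 : List Rx := [
  Rx.mk (nat_lit 177) (nat_lit 1) (nat_lit 6) (nat_lit 2) (nat_lit 7) (nat_lit 123) (nat_lit 18) r12_123 r8_18 (nat_lit 0) (nat_lit 0) (nat_lit 0) (nat_lit 0x7ded19507e) (nat_lit 1017947736)]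
noncomputable def e57_38 : List Rx := [
  Rx.mk (nat_lit 145) (nat_lit 1) (nat_lit 2) (nat_lit 2) (nat_lit 7) (nat_lit 151) (nat_lit 64) r12_151 r8_64 (nat_lit 0) (nat_lit 0) (nat_lit 0) (nat_lit 0x7deb738adc) (nat_lit 1021106736),
  Rx.mk (nat_lit 177) (nat_lit 1) (nat_lit 6) (nat_lit 2) (nat_lit 7) (nat_lit 150) (nat_lit 63) r12_150 r8_63 (nat_lit 0) (nat_lit 0) (nat_lit 0) (nat_lit 0x7df198a884) (nat_lit 1009324368)]
noncomputable def e57_39 : List Rx := [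
  Rx.mk (nat_lit 144) (nat_lit 0) (nat_lit 2) (nat_lit 2) (nat_lit 6) (nat_lit 11) (nat_lit 58) r12_11 r1_58 (nat_lit 0) (nat_lit 0) (nat_lit 0) (nat_lit 0x76758bd0ce) (nat_lit 4683151512),
  Rx.mk (nat_lit 145) (nat_lit 1) (nat_lit 2) (nat_lit 2) (nat_lit 7) (nat_lit 12) (nat_lit 59) r12_12 r1_59 (nat_lit 0) (nat_lit 0) (nat_lit 0) (nat_lit 0x7e4f838978) (nat_lit 829247328),
  Rx.mk (nat_lit 147) (nat_lit 3) (nat_lit 2) (nat_lit 2) (nat_lit 7) (nat_lit 13) (nat_lit 60) r12_13 r1_60 (nat_lit 0) (nat_lit 0) (nat_lit 0) (nat_lit 0x7d35e3e48c) (nat_lit 1369231344),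
  Rx.mk (nat_lit 176) (nat_lit 0) (nat_lit 6) (nat_lit 2) (nat_lit 6) (nat_lit 9) (nat_lit 61) r12_9 r1_61 (nat_lit 0) (nat_lit 0) (nat_lit 0) (nat_lit 0x7a959c4ba6) (nat_lit 2658257784),
  Rx.mk (nat_lit 177) (nat_lit 1) (nat_lit 6) (nat_lit 2) (nat_lit 7) (nat_lit 10) (nat_lit 62) r12_10 r1_62 (nat_lit 0) (nat_lit 0) (nat_lit 0) (nat_lit 0x7effe88278) (nat_lit 491029344),
  Rx.mk (nat_lit 432) (nat_lit 0) (nat_lit 6) (nat_lit 6) (nat_lit 6) (nat_lit 6) (nat_lit 63) r12_6 r1_63 (nat_lit 0) (nat_lit 0) (nat_lit 0) (nat_lit 0x7a1cc1b9c8) (nat_lit 2889982368),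
  Rx.mk (nat_lit 433) (nat_lit 1) (nat_lit 6) (nat_lit 6) (nat_lit 7) (nat_lit 7) (nat_lit 64) r12_7 r1_64 (nat_lit 0) (nat_lit 0) (nat_lit 0) (nat_lit 0x7e3ee0f3b2) (nat_lit 861143400),
  Rx.mk (nat_lit 434) (nat_lit 2) (nat_lit 6) (nat_lit 6) (nat_lit 7) (nat_lit 8) (nat_lit 65) r12_8 r1_65 (nat_lit 0) (nat_lit 0) (nat_lit 0) (nat_lit 0x7c03ca075c) (nat_lit 1956148272)]
noncomputable def e57_40 : List Rx := [
  Rx.mk (nat_lit 176) (nat_lit 0) (nat_lit 6) (nat_lit 2) (nat_lit 6) (nat_lit 121) (nat_lit 202) r12_121 r7_202 (nat_lit 0) (nat_lit 0) (nat_lit 0) (nat_lit 0x7def2a4f6c) (nat_lit 1013985648),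
  Rx.mk (nat_lit 177) (nat_lit 1) (nat_lit 6) (nat_lit 2) (nat_lit 7) (nat_lit 122) (nat_lit 204) r12_122 r7_204 (nat_lit 0) (nat_lit 0) (nat_lit 0) (nat_lit 0x7e4966ab4c) (nat_lit 840967920),
  Rx.mk (nat_lit 432) (nat_lit 0) (nat_lit 6) (nat_lit 6) (nat_lit 6) (nat_lit 118) (nat_lit 201) r12_118 r7_201 (nat_lit 0) (nat_lit 0) (nat_lit 0) (nat_lit 0x7cf07bdb52) (nat_lit 1502310888),
  Rx.mk (nat_lit 433) (nat_lit 1) (nat_lit 6) (nat_lit 6) (nat_lit 7) (nat_lit 119) (nat_lit 203) r12_119 r7_203 (nat_lit 0) (nat_lit 0) (nat_lit 0) (nat_lit 0x7deb792a82) (nat_lit 1021064616),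
  Rx.mk (nat_lit 434) (nat_lit 2) (nat_lit 6) (nat_lit 6) (nat_lit 7) (nat_lit 120) (nat_lit 205) r12_120 r7_205 (nat_lit 0) (nat_lit 0) (nat_lit 0) (nat_lit 0x7df2ff7216) (nat_lit 1006637112)]
noncomputable def e57_41 : List Rx := [
  Rx.mk (nat_lit 290) (nat_lit 2) (nat_lit 4) (nat_lit 4) (nat_lit 1) (nat_lit 107) (nat_lit 229) r12_107 r1_229 (nat_lit 0) (nat_lit 0) (nat_lit 0) (nat_lit 0x71c5b3f2fc) (nat_lit 6983726256),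
  Rx.mk (nat_lit 294) (nat_lit 6) (nat_lit 4) (nat_lit 4) (nat_lit 1) (nat_lit 106) (nat_lit 225) r12_106 r1_225 (nat_lit 0) (nat_lit 0) (nat_lit 0) (nat_lit 0x8000000000) (nat_lit 0),
  Rx.mk (nat_lit 298) (nat_lit 2) (nat_lit 5) (nat_lit 4) (nat_lit 3) (nat_lit 110) (nat_lit 230) r12_110 r1_230 (nat_lit 0) (nat_lit 0) (nat_lit 0) (nat_lit 0x7dfcd1f4e4) (nat_lit 987803856),
  Rx.mk (nat_lit 302) (nat_lit 6) (nat_lit 5) (nat_lit 4) (nat_lit 3) (nat_lit 109) (nat_lit 226) r12_109 r1_226 (nat_lit 0) (nat_lit 0) (nat_lit 0) (nat_lit 0x7eb6a736d6) (nat_lit 631488312),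
  Rx.mk (nat_lit 318) (nat_lit 6) (nat_lit 7) (nat_lit 4) (nat_lit 3) (nat_lit 113) (nat_lit 227) r12_113 r1_227 (nat_lit 0) (nat_lit 0) (nat_lit 0) (nat_lit 0x7dc65abc8e) (nat_lit 1092236184),
  Rx.mk (nat_lit 418) (nat_lit 2) (nat_lit 4) (nat_lit 6) (nat_lit 5) (nat_lit 108) (nat_lit 231) r12_108 r1_231 (nat_lit 0) (nat_lit 0) (nat_lit 0) (nat_lit 0x7d8932ef48) (nat_lit 1209495456),
  Rx.mk (nat_lit 426) (nat_lit 2) (nat_lit 5) (nat_lit 6) (nat_lit 7) (nat_lit 111) (nat_lit 232) r12_111 r1_232 (nat_lit 0) (nat_lit 0) (nat_lit 0) (nat_lit 0x7e706b5ada) (nat_lit 766154376),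
  Rx.mk (nat_lit 434) (nat_lit 2) (nat_lit 6) (nat_lit 6) (nat_lit 7) (nat_lit 112) (nat_lit 233) r12_112 r1_233 (nat_lit 0) (nat_lit 0) (nat_lit 0) (nat_lit 0x7dda421e04) (nat_lit 1054072656),
  Rx.mk (nat_lit 510) (nat_lit 6) (nat_lit 7) (nat_lit 7) (nat_lit 7) (nat_lit 114) (nat_lit 228) r12_114 r1_228 (nat_lit 0) (nat_lit 0) (nat_lit 0) (nat_lit 0x7d334cae02) (nat_lit 1374198696)]
noncomputable def e57_42 : List Rx := [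
  Rx.mk (nat_lit 298) (nat_lit 2) (nat_lit 5) (nat_lit 4) (nat_lit 3) (nat_lit 259) (nat_lit 239) r12_259 r2_239 (nat_lit 0) (nat_lit 0) (nat_lit 0) (nat_lit 0x7e4fef22be) (nat_lit 828441432),
  Rx.mk (nat_lit 302) (nat_lit 6) (nat_lit 5) (nat_lit 4) (nat_lit 3) (nat_lit 258) (nat_lit 238) r12_258 r2_238 (nat_lit 0) (nat_lit 0) (nat_lit 0) (nat_lit 0x7e39f90236) (nat_lit 870550200),
  Rx.mk (nat_lit 426) (nat_lit 2) (nat_lit 5) (nat_lit 6) (nat_lit 7) (nat_lit 260) (nat_lit 240) r12_260 r2_240 (nat_lit 0) (nat_lit 0) (nat_lit 0) (nat_lit 0x7e0dc225d0) (nat_lit 955326528)]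
noncomputable def e57_43 : List Rx := [
  Rx.mk (nat_lit 418) (nat_lit 2) (nat_lit 4) (nat_lit 6) (nat_lit 5) (nat_lit 115) (nat_lit 58) r12_115 r7_58 (nat_lit 0) (nat_lit 0) (nat_lit 0) (nat_lit 0x7e3efef1d2) (nat_lit 860918760),
  Rx.mk (nat_lit 426) (nat_lit 2) (nat_lit 5) (nat_lit 6) (nat_lit 7) (nat_lit 116) (nat_lit 59) r12_116 r7_59 (nat_lit 0) (nat_lit 0) (nat_lit 0) (nat_lit 0x7e2750acce) (nat_lit 906324120),
  Rx.mk (nat_lit 434) (nat_lit 2) (nat_lit 6) (nat_lit 6) (nat_lit 7) (nat_lit 117) (nat_lit 60) r12_117 r7_60 (nat_lit 0) (nat_lit 0) (nat_lit 0) (nat_lit 0x7de1ad6748) (nat_lit 1039847328)]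
noncomputable def e57_44 : List Rx := [
  Rx.mk (nat_lit 426) (nat_lit 2) (nat_lit 5) (nat_lit 6) (nat_lit 7) (nat_lit 266) (nat_lit 215) r12_266 r8_215 (nat_lit 0) (nat_lit 0) (nat_lit 0) (nat_lit 0x7df0bb165e) (nat_lit 1010983896)]
noncomputable def e57_45 : List Rx := [
  Rx.mk (nat_lit 298) (nat_lit 2) (nat_lit 5) (nat_lit 4) (nat_lit 3) (nat_lit 262) (nat_lit 224) r12_262 r8_224 (nat_lit 0) (nat_lit 0) (nat_lit 0) (nat_lit 0x7dae17a0d8) (nat_lit 1138756320),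
  Rx.mk (nat_lit 302) (nat_lit 6) (nat_lit 5) (nat_lit 4) (nat_lit 3) (nat_lit 261) (nat_lit 225) r12_261 r8_225 (nat_lit 0) (nat_lit 0) (nat_lit 0) (nat_lit 0x7cb54cae80) (nat_lit 1615790592),
  Rx.mk (nat_lit 362) (nat_lit 2) (nat_lit 5) (nat_lit 5) (nat_lit 7) (nat_lit 264) (nat_lit 226) r12_264 r8_226 (nat_lit 0) (nat_lit 0) (nat_lit 0) (nat_lit 0x7de7338ee0) (nat_lit 1029255552),
  Rx.mk (nat_lit 366) (nat_lit 6) (nat_lit 5) (nat_lit 5) (nat_lit 7) (nat_lit 263) (nat_lit 227) r12_263 r8_227 (nat_lit 0) (nat_lit 0) (nat_lit 0) (nat_lit 0x7dca3abe8a) (nat_lit 1084806216),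
  Rx.mk (nat_lit 426) (nat_lit 2) (nat_lit 5) (nat_lit 6) (nat_lit 7) (nat_lit 265) (nat_lit 228) r12_265 r8_228 (nat_lit 0) (nat_lit 0) (nat_lit 0) (nat_lit 0x7de986e9a8) (nat_lit 1024796448)]
noncomputable def e57_46 : List Rx := [
  Rx.mk (nat_lit 176) (nat_lit 0) (nat_lit 6) (nat_lit 2) (nat_lit 6) (nat_lit 128) (nat_lit 198) r12_128 r4_198 (nat_lit 0) (nat_lit 0) (nat_lit 0) (nat_lit 0x79e6f15704) (nat_lit 2993165136),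
  Rx.mk (nat_lit 179) (nat_lit 3) (nat_lit 6) (nat_lit 2) (nat_lit 7) (nat_lit 129) (nat_lit 199) r12_129 r4_199 (nat_lit 0) (nat_lit 0) (nat_lit 0) (nat_lit 0x7e8a3edd88) (nat_lit 716635296),
  Rx.mk (nat_lit 290) (nat_lit 2) (nat_lit 4) (nat_lit 4) (nat_lit 1) (nat_lit 124) (nat_lit 200) r12_124 r4_200 (nat_lit 0) (nat_lit 0) (nat_lit 0) (nat_lit 0x6c41dd75e8) (nat_lit 9690778656),
  Rx.mk (nat_lit 314) (nat_lit 2) (nat_lit 7) (nat_lit 4) (nat_lit 3) (nat_lit 131) (nat_lit 201) r12_131 r4_201 (nat_lit 0) (nat_lit 0) (nat_lit 0) (nat_lit 0x7a87b0ca6c) (nat_lit 2684947824),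
  Rx.mk (nat_lit 318) (nat_lit 6) (nat_lit 7) (nat_lit 4) (nat_lit 3) (nat_lit 130) (nat_lit 195) r12_130 r4_195 (nat_lit 0) (nat_lit 0) (nat_lit 0) (nat_lit 0x7bc8cf5742) (nat_lit 2069234856),
  Rx.mk (nat_lit 418) (nat_lit 2) (nat_lit 4) (nat_lit 6) (nat_lit 5) (nat_lit 125) (nat_lit 202) r12_125 r4_202 (nat_lit 0) (nat_lit 0) (nat_lit 0) (nat_lit 0x7e00441dbe) (nat_lit 981196632),
  Rx.mk (nat_lit 432) (nat_lit 0) (nat_lit 6) (nat_lit 6) (nat_lit 6) (nat_lit 126) (nat_lit 197) r12_126 r4_197 (nat_lit 0) (nat_lit 0) (nat_lit 0) (nat_lit 0x7853b78c34) (nat_lit 3766308624),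
  Rx.mk (nat_lit 434) (nat_lit 2) (nat_lit 6) (nat_lit 6) (nat_lit 7) (nat_lit 127) (nat_lit 204) r12_127 r4_204 (nat_lit 0) (nat_lit 0) (nat_lit 0) (nat_lit 0x7e302d3efc) (nat_lit 889332912),
  Rx.mk (nat_lit 442) (nat_lit 2) (nat_lit 7) (nat_lit 6) (nat_lit 7) (nat_lit 132) (nat_lit 203) r12_132 r4_203 (nat_lit 0) (nat_lit 0) (nat_lit 0) (nat_lit 0x7e76bad5dc) (nat_lit 754054704),
  Rx.mk (nat_lit 510) (nat_lit 6) (nat_lit 7) (nat_lit 7) (nat_lit 7) (nat_lit 133) (nat_lit 196) r12_133 r4_196 (nat_lit 0) (nat_lit 0) (nat_lit 0) (nat_lit 0x7dfbbbc648) (nat_lit 989887392)]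
noncomputable def e57_47 : List Rx := [
  Rx.mk (nat_lit 147) (nat_lit 3) (nat_lit 2) (nat_lit 2) (nat_lit 7) (nat_lit 33) (nat_lit 58) r12_33 r4_58 (nat_lit 0) (nat_lit 0) (nat_lit 0) (nat_lit 0x7e581e7fc0) (nat_lit 812747520),
  Rx.mk (nat_lit 176) (nat_lit 0) (nat_lit 6) (nat_lit 2) (nat_lit 6) (nat_lit 30) (nat_lit 61) r12_30 r4_61 (nat_lit 0) (nat_lit 0) (nat_lit 0) (nat_lit 0x7e3684f97a) (nat_lit 877171464),
  Rx.mk (nat_lit 179) (nat_lit 3) (nat_lit 6) (nat_lit 2) (nat_lit 7) (nat_lit 31) (nat_lit 62) r12_31 r4_62 (nat_lit 0) (nat_lit 0) (nat_lit 0) (nat_lit 0x7eac08c0c8) (nat_lit 651849120),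
  Rx.mk (nat_lit 418) (nat_lit 2) (nat_lit 4) (nat_lit 6) (nat_lit 5) (nat_lit 27) (nat_lit 59) r12_27 r4_59 (nat_lit 0) (nat_lit 0) (nat_lit 0) (nat_lit 0x7e7c8d78ac) (nat_lit 742890096),
  Rx.mk (nat_lit 432) (nat_lit 0) (nat_lit 6) (nat_lit 6) (nat_lit 6) (nat_lit 28) (nat_lit 63) r12_28 r4_63 (nat_lit 0) (nat_lit 0) (nat_lit 0) (nat_lit 0x7bf02e0130) (nat_lit 1993747392),
  Rx.mk (nat_lit 434) (nat_lit 2) (nat_lit 6) (nat_lit 6) (nat_lit 7) (nat_lit 29) (nat_lit 64) r12_29 r4_64 (nat_lit 0) (nat_lit 0) (nat_lit 0) (nat_lit 0x7d62493e0a) (nat_lit 1284106824),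
  Rx.mk (nat_lit 442) (nat_lit 2) (nat_lit 7) (nat_lit 6) (nat_lit 7) (nat_lit 32) (nat_lit 60) r12_32 r4_60 (nat_lit 0) (nat_lit 0) (nat_lit 0) (nat_lit 0x7edd36edb4) (nat_lit 557550864)]
noncomputable def e57_48 : List Rx := [
  Rx.mk (nat_lit 176) (nat_lit 0) (nat_lit 6) (nat_lit 2) (nat_lit 6) (nat_lit 137) (nat_lit 213) r12_137 r9_213 (nat_lit 0) (nat_lit 0) (nat_lit 0) (nat_lit 0x7e68347e50) (nat_lit 781904448),
  Rx.mk (nat_lit 179) (nat_lit 3) (nat_lit 6) (nat_lit 2) (nat_lit 7) (nat_lit 138) (nat_lit 214) r12_138 r9_214 (nat_lit 0) (nat_lit 0) (nat_lit 0) (nat_lit 0x7e84fe7194) (nat_lit 726704784),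
  Rx.mk (nat_lit 418) (nat_lit 2) (nat_lit 4) (nat_lit 6) (nat_lit 5) (nat_lit 134) (nat_lit 215) r12_134 r9_215 (nat_lit 0) (nat_lit 0) (nat_lit 0) (nat_lit 0x7e7d860922) (nat_lit 741028392),
  Rx.mk (nat_lit 432) (nat_lit 0) (nat_lit 6) (nat_lit 6) (nat_lit 6) (nat_lit 135) (nat_lit 212) r12_135 r9_212 (nat_lit 0) (nat_lit 0) (nat_lit 0) (nat_lit 0x7da88f3964) (nat_lit 1149364944),
  Rx.mk (nat_lit 434) (nat_lit 2) (nat_lit 6) (nat_lit 6) (nat_lit 7) (nat_lit 136) (nat_lit 217) r12_136 r9_217 (nat_lit 0) (nat_lit 0) (nat_lit 0) (nat_lit 0x7db3658bf4) (nat_lit 1128585744),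
  Rx.mk (nat_lit 442) (nat_lit 2) (nat_lit 7) (nat_lit 6) (nat_lit 7) (nat_lit 139) (nat_lit 216) r12_139 r9_216 (nat_lit 0) (nat_lit 0) (nat_lit 0) (nat_lit 0x7e0d9168dc) (nat_lit 955691568)]
noncomputable def e57_49 : List Rx := [
  Rx.mk (nat_lit 442) (nat_lit 2) (nat_lit 7) (nat_lit 6) (nat_lit 7) (nat_lit 230) (nat_lit 265) r12_230 r10_265 (nat_lit 0) (nat_lit 0) (nat_lit 0) (nat_lit 0x7ee7b225f6) (nat_lit 537454008)]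
noncomputable def e57_50 : List Rx := [
  Rx.mk (nat_lit 179) (nat_lit 3) (nat_lit 6) (nat_lit 2) (nat_lit 7) (nat_lit 145) (nat_lit 15) r12_145 r10_15 (nat_lit 0) (nat_lit 0) (nat_lit 0) (nat_lit 0x7eaff8e1c2) (nat_lit 644298408),
  Rx.mk (nat_lit 290) (nat_lit 2) (nat_lit 4) (nat_lit 4) (nat_lit 1) (nat_lit 140) (nat_lit 9) r12_140 r10_9 (nat_lit 0) (nat_lit 0) (nat_lit 0) (nat_lit 0x73e77d9440) (nat_lit 5937235200),
  Rx.mk (nat_lit 314) (nat_lit 2) (nat_lit 7) (nat_lit 4) (nat_lit 3) (nat_lit 146) (nat_lit 11) r12_146 r10_11 (nat_lit 0) (nat_lit 0) (nat_lit 0) (nat_lit 0x7e9f0970ca) (nat_lit 676770120),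
  Rx.mk (nat_lit 418) (nat_lit 2) (nat_lit 4) (nat_lit 6) (nat_lit 5) (nat_lit 141) (nat_lit 10) r12_141 r10_10 (nat_lit 0) (nat_lit 0) (nat_lit 0) (nat_lit 0x7eaac05550) (nat_lit 654308928),
  Rx.mk (nat_lit 432) (nat_lit 0) (nat_lit 6) (nat_lit 6) (nat_lit 6) (nat_lit 142) (nat_lit 16) r12_142 r10_16 (nat_lit 0) (nat_lit 0) (nat_lit 0) (nat_lit 0x7d98a2d83a) (nat_lit 1179896328),
  Rx.mk (nat_lit 434) (nat_lit 2) (nat_lit 6) (nat_lit 6) (nat_lit 7) (nat_lit 143) (nat_lit 18) r12_143 r10_18 (nat_lit 0) (nat_lit 0) (nat_lit 0) (nat_lit 0x7e4d46ad48) (nat_lit 833537952),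
  Rx.mk (nat_lit 435) (nat_lit 3) (nat_lit 6) (nat_lit 6) (nat_lit 7) (nat_lit 144) (nat_lit 17) r12_144 r10_17 (nat_lit 0) (nat_lit 0) (nat_lit 0) (nat_lit 0x7e4ff8222e) (nat_lit 828374040),
  Rx.mk (nat_lit 442) (nat_lit 2) (nat_lit 7) (nat_lit 6) (nat_lit 7) (nat_lit 147) (nat_lit 14) r12_147 r10_14 (nat_lit 0) (nat_lit 0) (nat_lit 0) (nat_lit 0x7ec4817924) (nat_lit 604927440),
  Rx.mk (nat_lit 506) (nat_lit 2) (nat_lit 7) (nat_lit 7) (nat_lit 7) (nat_lit 149) (nat_lit 12) r12_149 r10_12 (nat_lit 0) (nat_lit 0) (nat_lit 0) (nat_lit 0x7e3496186a) (nat_lit 880878024),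
  Rx.mk (nat_lit 510) (nat_lit 6) (nat_lit 7) (nat_lit 7) (nat_lit 7) (nat_lit 148) (nat_lit 13) r12_148 r10_13 (nat_lit 0) (nat_lit 0) (nat_lit 0) (nat_lit 0x7e96423d46) (nat_lit 693601272)]
noncomputable def e57_51 : List Rx := [
  Rx.mk (nat_lit 196) (nat_lit 4) (nat_lit 0) (nat_lit 3) (nat_lit 4) (nat_lit 235) (nat_lit 310) r12_235 r12_310 (nat_lit 0) (nat_lit 0) (nat_lit 0) (nat_lit 0x8000000000) (nat_lit 0),
  Rx.mk (nat_lit 197) (nat_lit 5) (nat_lit 0) (nat_lit 3) (nat_lit 5) (nat_lit 236) (nat_lit 312) r12_236 r12_312 (nat_lit 0) (nat_lit 0) (nat_lit 0) (nat_lit 0x7d6cf2f364) (nat_lit 1263661776),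
  Rx.mk (nat_lit 198) (nat_lit 6) (nat_lit 0) (nat_lit 3) (nat_lit 5) (nat_lit 237) (nat_lit 314) r12_237 r12_314 (nat_lit 0) (nat_lit 0) (nat_lit 0) (nat_lit 0x7f2c8cd806) (nat_lit 405433080),
  Rx.mk (nat_lit 212) (nat_lit 4) (nat_lit 2) (nat_lit 3) (nat_lit 6) (nat_lit 238) (nat_lit 311) r12_238 r12_311 (nat_lit 0) (nat_lit 0) (nat_lit 0) (nat_lit 0x7f220180c6) (nat_lit 425650680),
  Rx.mk (nat_lit 213) (nat_lit 5) (nat_lit 2) (nat_lit 3) (nat_lit 7) (nat_lit 239) (nat_lit 313) r12_239 r12_313 (nat_lit 0) (nat_lit 0) (nat_lit 0) (nat_lit 0x7e9736adfe) (nat_lit 691770456)]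
noncomputable def e57_52 : List Rx := [
  Rx.mk (nat_lit 454) (nat_lit 6) (nat_lit 0) (nat_lit 7) (nat_lit 5) (nat_lit 302) (nat_lit 302) r12_302 r12_302 (nat_lit 0) (nat_lit 0) (nat_lit 0) (nat_lit 0x7ea302313a) (nat_lit 669154824),
  Rx.mk (nat_lit 462) (nat_lit 6) (nat_lit 1) (nat_lit 7) (nat_lit 7) (nat_lit 303) (nat_lit 303) r12_303 r12_303 (nat_lit 0) (nat_lit 0) (nat_lit 0) (nat_lit 0x7e78753a34) (nat_lit 750741264)]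
noncomputable def e57_53 : List Rx := [
  Rx.mk (nat_lit 20) (nat_lit 4) (nat_lit 2) (nat_lit 0) (nat_lit 2) (nat_lit 83) (nat_lit 80) r12_83 r12_80 (nat_lit 0) (nat_lit 0) (nat_lit 0) (nat_lit 0x8000000000) (nat_lit 0),
  Rx.mk (nat_lit 21) (nat_lit 5) (nat_lit 2) (nat_lit 0) (nat_lit 3) (nat_lit 84) (nat_lit 81) r12_84 r12_81 (nat_lit 0) (nat_lit 0) (nat_lit 0) (nat_lit 0x7de6a637b6) (nat_lit 1030314168),
  Rx.mk (nat_lit 23) (nat_lit 7) (nat_lit 2) (nat_lit 0) (nat_lit 3) (nat_lit 85) (nat_lit 82) r12_85 r12_82 (nat_lit 0) (nat_lit 0) (nat_lit 0) (nat_lit 0x7f1b4c6c1e) (nat_lit 438511320),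
  Rx.mk (nat_lit 148) (nat_lit 4) (nat_lit 2) (nat_lit 2) (nat_lit 6) (nat_lit 86) (nat_lit 91) r12_86 r12_91 (nat_lit 0) (nat_lit 0) (nat_lit 0) (nat_lit 0x7bc3dc8674) (nat_lit 2078723088),
  Rx.mk (nat_lit 149) (nat_lit 5) (nat_lit 2) (nat_lit 2) (nat_lit 7) (nat_lit 87) (nat_lit 92) r12_87 r12_92 (nat_lit 0) (nat_lit 0) (nat_lit 0) (nat_lit 0x7cd60782b2) (nat_lit 1553034600),
  Rx.mk (nat_lit 151) (nat_lit 7) (nat_lit 2) (nat_lit 2) (nat_lit 7) (nat_lit 88) (nat_lit 93) r12_88 r12_93 (nat_lit 0) (nat_lit 0) (nat_lit 0) (nat_lit 0x7e3d2f8eca) (nat_lit 864389448),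
  Rx.mk (nat_lit 196) (nat_lit 4) (nat_lit 0) (nat_lit 3) (nat_lit 4) (nat_lit 80) (nat_lit 83) r12_80 r12_83 (nat_lit 0) (nat_lit 0) (nat_lit 0) (nat_lit 0x8000000000) (nat_lit 0),
  Rx.mk (nat_lit 197) (nat_lit 5) (nat_lit 0) (nat_lit 3) (nat_lit 5) (nat_lit 81) (nat_lit 84) r12_81 r12_84 (nat_lit 0) (nat_lit 0) (nat_lit 0) (nat_lit 0x7de6a637b6) (nat_lit 1030314168),
  Rx.mk (nat_lit 198) (nat_lit 6) (nat_lit 0) (nat_lit 3) (nat_lit 5) (nat_lit 82) (nat_lit 85) r12_82 r12_85 (nat_lit 0) (nat_lit 0) (nat_lit 0) (nat_lit 0x7f1b4c6c1e) (nat_lit 438511320),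
  Rx.mk (nat_lit 212) (nat_lit 4) (nat_lit 2) (nat_lit 3) (nat_lit 6) (nat_lit 89) (nat_lit 89) r12_89 r12_89 (nat_lit 0) (nat_lit 0) (nat_lit 0) (nat_lit 0x7f80b8b4f4) (nat_lit 244043280),
  Rx.mk (nat_lit 213) (nat_lit 5) (nat_lit 2) (nat_lit 3) (nat_lit 7) (nat_lit 90) (nat_lit 90) r12_90 r12_90 (nat_lit 0) (nat_lit 0) (nat_lit 0) (nat_lit 0x7e6d676b1c) (nat_lit 771936048),
  Rx.mk (nat_lit 220) (nat_lit 4) (nat_lit 3) (nat_lit 3) (nat_lit 6) (nat_lit 91) (nat_lit 86) r12_91 r12_86 (nat_lit 0) (nat_lit 0) (nat_lit 0) (nat_lit 0x7bc3dc8674) (nat_lit 2078723088),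
  Rx.mk (nat_lit 221) (nat_lit 5) (nat_lit 3) (nat_lit 3) (nat_lit 7) (nat_lit 92) (nat_lit 87) r12_92 r12_87 (nat_lit 0) (nat_lit 0) (nat_lit 0) (nat_lit 0x7cd60782b2) (nat_lit 1553034600),
  Rx.mk (nat_lit 222) (nat_lit 6) (nat_lit 3) (nat_lit 3) (nat_lit 7) (nat_lit 93) (nat_lit 88) r12_93 r12_88 (nat_lit 0) (nat_lit 0) (nat_lit 0) (nat_lit 0x7e3d2f8eca) (nat_lit 864389448)]
noncomputable def e57_54 : List Rx := [
  Rx.mk (nat_lit 262) (nat_lit 6) (nat_lit 0) (nat_lit 4) (nat_lit 1) (nat_lit 310) (nat_lit 235) r12_310 r12_235 (nat_lit 0) (nat_lit 0) (nat_lit 0) (nat_lit 0x8000000000) (nat_lit 0),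
  Rx.mk (nat_lit 270) (nat_lit 6) (nat_lit 1) (nat_lit 4) (nat_lit 3) (nat_lit 312) (nat_lit 236) r12_312 r12_236 (nat_lit 0) (nat_lit 0) (nat_lit 0) (nat_lit 0x7d6cf2f364) (nat_lit 1263661776),
  Rx.mk (nat_lit 286) (nat_lit 6) (nat_lit 3) (nat_lit 4) (nat_lit 3) (nat_lit 314) (nat_lit 237) r12_314 r12_237 (nat_lit 0) (nat_lit 0) (nat_lit 0) (nat_lit 0x7f2c8cd806) (nat_lit 405433080),
  Rx.mk (nat_lit 454) (nat_lit 6) (nat_lit 0) (nat_lit 7) (nat_lit 5) (nat_lit 311) (nat_lit 238) r12_311 r12_238 (nat_lit 0) (nat_lit 0) (nat_lit 0) (nat_lit 0x7f220180c6) (nat_lit 425650680),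
  Rx.mk (nat_lit 462) (nat_lit 6) (nat_lit 1) (nat_lit 7) (nat_lit 7) (nat_lit 313) (nat_lit 239) r12_313 r12_239 (nat_lit 0) (nat_lit 0) (nat_lit 0) (nat_lit 0x7e9736adfe) (nat_lit 691770456)]
noncomputable def e57_55 : List Rx := [
  Rx.mk (nat_lit 147) (nat_lit 3) (nat_lit 2) (nat_lit 2) (nat_lit 7) (nat_lit 25) (nat_lit 206) r12_25 r3_206 (nat_lit 0) (nat_lit 0) (nat_lit 0) (nat_lit 0x7986b4fb2a) (nat_lit 3177687240),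
  Rx.mk (nat_lit 176) (nat_lit 0) (nat_lit 6) (nat_lit 2) (nat_lit 6) (nat_lit 19) (nat_lit 204) r12_19 r3_204 (nat_lit 0) (nat_lit 0) (nat_lit 0) (nat_lit 0x7b0082bcd4) (nat_lit 2453287824),
  Rx.mk (nat_lit 179) (nat_lit 3) (nat_lit 6) (nat_lit 2) (nat_lit 7) (nat_lit 20) (nat_lit 205) r12_20 r3_205 (nat_lit 0) (nat_lit 0) (nat_lit 0) (nat_lit 0x7f69370d26) (nat_lit 289114488),
  Rx.mk (nat_lit 314) (nat_lit 2) (nat_lit 7) (nat_lit 4) (nat_lit 3) (nat_lit 22) (nat_lit 207) r12_22 r3_207 (nat_lit 0) (nat_lit 0) (nat_lit 0) (nat_lit 0x7735c94c36) (nat_lit 4314550968),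
  Rx.mk (nat_lit 318) (nat_lit 6) (nat_lit 7) (nat_lit 4) (nat_lit 3) (nat_lit 21) (nat_lit 354) r12_21 r3_354 (nat_lit 0) (nat_lit 0) (nat_lit 0) (nat_lit 0x8000000000) (nat_lit 0),
  Rx.mk (nat_lit 418) (nat_lit 2) (nat_lit 4) (nat_lit 6) (nat_lit 5) (nat_lit 16) (nat_lit 208) r12_16 r3_208 (nat_lit 0) (nat_lit 0) (nat_lit 0) (nat_lit 0x8000000000) (nat_lit 0),
  Rx.mk (nat_lit 432) (nat_lit 0) (nat_lit 6) (nat_lit 6) (nat_lit 6) (nat_lit 17) (nat_lit 203) r12_17 r3_203 (nat_lit 0) (nat_lit 0) (nat_lit 0) (nat_lit 0x7fececd146) (nat_lit 36574200),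
  Rx.mk (nat_lit 434) (nat_lit 2) (nat_lit 6) (nat_lit 6) (nat_lit 7) (nat_lit 18) (nat_lit 210) r12_18 r3_210 (nat_lit 0) (nat_lit 0) (nat_lit 0) (nat_lit 0x7d72006288) (nat_lit 1253974176),
  Rx.mk (nat_lit 442) (nat_lit 2) (nat_lit 7) (nat_lit 6) (nat_lit 7) (nat_lit 23) (nat_lit 209) r12_23 r3_209 (nat_lit 0) (nat_lit 0) (nat_lit 0) (nat_lit 0x7fbcc993aa) (nat_lit 128873160),
  Rx.mk (nat_lit 478) (nat_lit 6) (nat_lit 3) (nat_lit 7) (nat_lit 7) (nat_lit 26) (nat_lit 202) r12_26 r3_202 (nat_lit 0) (nat_lit 0) (nat_lit 0) (nat_lit 0x7e98a7f6e8) (nat_lit 689004576),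
  Rx.mk (nat_lit 510) (nat_lit 6) (nat_lit 7) (nat_lit 7) (nat_lit 7) (nat_lit 24) (nat_lit 201) r12_24 r3_201 (nat_lit 0) (nat_lit 0) (nat_lit 0) (nat_lit 0x791d0196ca) (nat_lit 3380357448)]
noncomputable def e57_56 : List Rx := [
  Rx.mk (nat_lit 286) (nat_lit 6) (nat_lit 3) (nat_lit 4) (nat_lit 3) (nat_lit 228) (nat_lit 226) r12_228 r12_226 (nat_lit 0) (nat_lit 0) (nat_lit 0) (nat_lit 0x7ccfdde552) (nat_lit 1564850664),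
  Rx.mk (nat_lit 314) (nat_lit 2) (nat_lit 7) (nat_lit 4) (nat_lit 3) (nat_lit 226) (nat_lit 228) r12_226 r12_228 (nat_lit 0) (nat_lit 0) (nat_lit 0) (nat_lit 0x7ccfdde552) (nat_lit 1564850664),
  Rx.mk (nat_lit 318) (nat_lit 6) (nat_lit 7) (nat_lit 4) (nat_lit 3) (nat_lit 225) (nat_lit 225) r12_225 r12_225 (nat_lit 0) (nat_lit 0) (nat_lit 0) (nat_lit 0x8000000000) (nat_lit 0),
  Rx.mk (nat_lit 442) (nat_lit 2) (nat_lit 7) (nat_lit 6) (nat_lit 7) (nat_lit 227) (nat_lit 229) r12_227 r12_229 (nat_lit 0) (nat_lit 0) (nat_lit 0) (nat_lit 0x7eb01cdf82) (nat_lit 644028840),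
  Rx.mk (nat_lit 478) (nat_lit 6) (nat_lit 3) (nat_lit 7) (nat_lit 7) (nat_lit 229) (nat_lit 227) r12_229 r12_227 (nat_lit 0) (nat_lit 0) (nat_lit 0) (nat_lit 0x7eb01cdf82) (nat_lit 644028840)]
noncomputable def e57_57 : List Rx := [
  Rx.mk (nat_lit 23) (nat_lit 7) (nat_lit 2) (nat_lit 0) (nat_lit 3) (nat_lit 44) (nat_lit 39) r12_44 r12_39 (nat_lit 0) (nat_lit 0) (nat_lit 0) (nat_lit 0x7370c2a066) (nat_lit 6164888184),
  Rx.mk (nat_lit 147) (nat_lit 3) (nat_lit 2) (nat_lit 2) (nat_lit 7) (nat_lit 46) (nat_lit 41) r12_46 r12_41 (nat_lit 0) (nat_lit 0) (nat_lit 0) (nat_lit 0x703c5c69fe) (nat_lit 7737918552),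
  Rx.mk (nat_lit 151) (nat_lit 7) (nat_lit 2) (nat_lit 2) (nat_lit 7) (nat_lit 45) (nat_lit 42) r12_45 r12_42 (nat_lit 0) (nat_lit 0) (nat_lit 0) (nat_lit 0x7ebad653e0) (nat_lit 623465856),
  Rx.mk (nat_lit 179) (nat_lit 3) (nat_lit 6) (nat_lit 2) (nat_lit 7) (nat_lit 38) (nat_lit 48) r12_38 r12_48 (nat_lit 0) (nat_lit 0) (nat_lit 0) (nat_lit 0x7769843054) (nat_lit 4215363984),
  Rx.mk (nat_lit 199) (nat_lit 7) (nat_lit 0) (nat_lit 3) (nat_lit 5) (nat_lit 43) (nat_lit 34) r12_43 r12_34 (nat_lit 0) (nat_lit 0) (nat_lit 0) (nat_lit 0x8000000000) (nat_lit 0),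
  Rx.mk (nat_lit 215) (nat_lit 7) (nat_lit 2) (nat_lit 3) (nat_lit 7) (nat_lit 47) (nat_lit 40) r12_47 r12_40 (nat_lit 0) (nat_lit 0) (nat_lit 0) (nat_lit 0x7fd4d5f2cc) (nat_lit 82762992),
  Rx.mk (nat_lit 220) (nat_lit 4) (nat_lit 3) (nat_lit 3) (nat_lit 6) (nat_lit 49) (nat_lit 35) r12_49 r12_35 (nat_lit 0) (nat_lit 0) (nat_lit 0) (nat_lit 0x77d2f95898) (nat_lit 4013159904),
  Rx.mk (nat_lit 222) (nat_lit 6) (nat_lit 3) (nat_lit 3) (nat_lit 7) (nat_lit 50) (nat_lit 37) r12_50 r12_37 (nat_lit 0) (nat_lit 0) (nat_lit 0) (nat_lit 0x7e72f2126c) (nat_lit 761310576),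
  Rx.mk (nat_lit 223) (nat_lit 7) (nat_lit 3) (nat_lit 3) (nat_lit 7) (nat_lit 51) (nat_lit 36) r12_51 r12_36 (nat_lit 0) (nat_lit 0) (nat_lit 0) (nat_lit 0x74dca9608e) (nat_lit 5467145112),
  Rx.mk (nat_lit 314) (nat_lit 2) (nat_lit 7) (nat_lit 4) (nat_lit 3) (nat_lit 39) (nat_lit 44) r12_39 r12_44 (nat_lit 0) (nat_lit 0) (nat_lit 0) (nat_lit 0x7370c2a066) (nat_lit 6164888184),
  Rx.mk (nat_lit 418) (nat_lit 2) (nat_lit 4) (nat_lit 6) (nat_lit 5) (nat_lit 34) (nat_lit 43) r12_34 r12_43 (nat_lit 0) (nat_lit 0) (nat_lit 0) (nat_lit 0x8000000000) (nat_lit 0),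
  Rx.mk (nat_lit 432) (nat_lit 0) (nat_lit 6) (nat_lit 6) (nat_lit 6) (nat_lit 35) (nat_lit 49) r12_35 r12_49 (nat_lit 0) (nat_lit 0) (nat_lit 0) (nat_lit 0x77d2f95898) (nat_lit 4013159904),
  Rx.mk (nat_lit 434) (nat_lit 2) (nat_lit 6) (nat_lit 6) (nat_lit 7) (nat_lit 36) (nat_lit 51) r12_36 r12_51 (nat_lit 0) (nat_lit 0) (nat_lit 0) (nat_lit 0x74dca9608e) (nat_lit 5467145112),
  Rx.mk (nat_lit 435) (nat_lit 3) (nat_lit 6) (nat_lit 6) (nat_lit 7) (nat_lit 37) (nat_lit 50) r12_37 r12_50 (nat_lit 0) (nat_lit 0) (nat_lit 0) (nat_lit 0x7e72f2126c) (nat_lit 761310576),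
  Rx.mk (nat_lit 442) (nat_lit 2) (nat_lit 7) (nat_lit 6) (nat_lit 7) (nat_lit 40) (nat_lit 47) r12_40 r12_47 (nat_lit 0) (nat_lit 0) (nat_lit 0) (nat_lit 0x7fd4d5f2cc) (nat_lit 82762992),
  Rx.mk (nat_lit 478) (nat_lit 6) (nat_lit 3) (nat_lit 7) (nat_lit 7) (nat_lit 48) (nat_lit 38) r12_48 r12_38 (nat_lit 0) (nat_lit 0) (nat_lit 0) (nat_lit 0x7769843054) (nat_lit 4215363984),
  Rx.mk (nat_lit 506) (nat_lit 2) (nat_lit 7) (nat_lit 7) (nat_lit 7) (nat_lit 42) (nat_lit 45) r12_42 r12_45 (nat_lit 0) (nat_lit 0) (nat_lit 0) (nat_lit 0x7ebad653e0) (nat_lit 623465856),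
  Rx.mk (nat_lit 510) (nat_lit 6) (nat_lit 7) (nat_lit 7) (nat_lit 7) (nat_lit 41) (nat_lit 46) r12_41 r12_46 (nat_lit 0) (nat_lit 0) (nat_lit 0) (nat_lit 0x703c5c69fe) (nat_lit 7737918552)]
noncomputable def e57 : List (List Rx) := [e57_0, e57_1, e57_2, e57_3, e57_4, e57_5, e57_6, e57_7, e57_8, e57_9, e57_10, e57_11, e57_12, e57_13, e57_14, e57_15, e57_16, e57_17, e57_18, e57_19, e57_20, e57_21, e57_22, e57_23, e57_24, e57_25, e57_26, e57_27, e57_28, e57_29, e57_30, e57_31, e57_32, e57_33, e57_34, e57_35, e57_36, e57_37, e57_38, e57_39, e57_40, e57_41, e57_42, e57_43, e57_44, e57_45, e57_46, e57_47, e57_48, e57_49, e57_50, e57_51, e57_52, e57_53, e57_54, e57_55, e57_56, e57_57]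

end Pool.Agent.AKXS_0_25_WE
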