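import Pool.Agent.AKXS_0_25_WE.Dat
import Pool.Agent.AKXS_0_25_WE.Cq
import Pool.Agent.AKXS_0_25_WE.Cz
import Pool.Agent.AKX.Split

set_option autoImplicit false

namespace Pool.Agent.AKXS_0_25_WE

open Pool.Agent.AKX Pool.Agent.AKU

theorem pq :
    (Pq.sz (nat_lit 64) D.nt (nat_lit 0) D.off0 (nat_lit 0) = true) ∧
    (symY (nat_lit 64) D.q0L (rg (nat_lit 0) (nat_lit 58)) = true) ∧
    (Pq.pv (nat_lit 64) (nat_lit 0) D.off0 (nat_lit 0) D.q0L (fun _ => nat_lit 0) (fun _ => nat_lit 0) (rg (nat_lit 0) (nat_lit 40)) = true) ∧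
    (Pq.pv (nat_lit 64) (nat_lit 0) D.off0 (nat_lit 0) D.q0L (fun _ => nat_lit 0) (fun _ => nat_lit 0) (rg (nat_lit 40) (nat_lit 11)) = true) ∧
    (Pq.cm (nat_lit 64) D.nt (nat_lit 0) D.off0 (nat_lit 0) D.q0L (fun _ => nat_lit 0) (fun _ => nat_lit 0) (rg (nat_lit 51) (nat_lit 6)) = true) ∧
    (Pq.cm (nat_lit 64) D.nt (nat_lit 0) D.off0 (nat_lit 0) D.q0L (fun _ => nat_lit 0) (fun _ => nat_lit 0) (rg (nat_lit 57) (nat_lit 1)) = true) :=
  ⟨by decide +kernel,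
   by decide +kernel,
   by decide +kernel,
   by decide +kernel,
   by decide +kernel,
   by decide +kernel⟩

theorem pz :
    (Pz.sz (nat_lit 64) D.nt (nat_lit 0) D.oz (nat_lit 0) = true) ∧
    (symY (nat_lit 64) D.zL (rg (nat_lit 0) (nat_lit 58)) = true) ∧
    (Pz.cm (nat_lit 64) D.nt (nat_lit 0) D.oz (nat_lit 0) D.zL (fun _ => nat_lit 0) (fun _ => nat_lit 0) (rg (nat_lit 0) (nat_lit 6)) = true) ∧
    (Pz.cm (nat_lit 64) D.nt (nat_lit 0) D.oz (nat_lit 0) D.zL (fun _ => nat_lit 0) (fun _ => nat_lit 0) (rg (nat_lit 6) (nat_lit 6)) = true) ∧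
    (Pz.cm (nat_lit 64) D.nt (nat_lit 0) D.oz (nat_lit 0) D.zL (fun _ => nat_lit 0) (fun _ => nat_lit 0) (rg (nat_lit 12) (nat_lit 6)) = true) ∧
    (Pz.cm (nat_lit 64) D.nt (nat_lit 0) D.oz (nat_lit 0) D.zL (fun _ => nat_lit 0) (fun _ => nat_lit 0) (rg (nat_lit 18) (nat_lit 6)) = true) ∧
    (Pz.cm (nat_lit 64) D.nt (nat_lit 0) D.oz (nat_lit 0) D.zL (fun _ => nat_lit 0) (fun _ => nat_lit 0) (rg (nat_lit 24) (nat_lit 6)) = true) ∧
    (Pz.cm (nat_lit 64) D.nt (nat_lit 0) D.oz (nat_lit 0) D.zL (fun _ => nat_lit 0) (fun _ => nat_lit 0) (rg (nat_lit 30) (nat_lit 6)) = true) ∧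
    (Pz.cm (nat_lit 64) D.nt (nat_lit 0) D.oz (nat_lit 0) D.zL (fun _ => nat_lit 0) (fun _ => nat_lit 0) (rg (nat_lit 36) (nat_lit 6)) = true) ∧
    (Pz.cm (nat_lit 64) D.nt (nat_lit 0) D.oz (nat_lit 0) D.zL (fun _ => nat_lit 0) (fun _ => nat_lit 0) (rg (nat_lit 42) (nat_lit 6)) = true) ∧
    (Pz.cm (nat_lit 64) D.nt (nat_lit 0) D.oz (nat_lit 0) D.zL (fun _ => nat_lit 0) (fun _ => nat_lit 0) (rg (nat_lit 48) (nat_lit 6)) = true) ∧
    (Pz.cm (nat_lit 64) D.nt (nat_lit 0) D.oz (nat_lit 0) D.zL (fun _ => nat_lit 0) (fun _ => nat_lit 0) (rg (nat_lit 54) (nat_lit 4)) = true) :=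
  ⟨by decide +kernel,
   by decide +kernel,
   by decide +kernel,
   by decide +kernel,
   by decide +kernel,
   by decide +kernel,
   by decide +kernel,
   by decide +kernel,
   by decide +kernel,
   by decide +kernel,
   by decide +kernel,
   by decide +kernel⟩

end Pool.Agent.AKXS_0_25_WE
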